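import Pool.Agent.Mg.F6374aa.Ge6e9b2

section

/-!
Topological notions for the ball calculus: homeomorphisms as functions, ball pairs, spheres,
shells, cones, push forward, barycentric map, one sided neighbourhoods, punctured pieces.
-/

namespace Pool.Agent.MP_6374aa_g

open Pool.Agent.MP_6374aa_gt Classical

noncomputable section

abbrev Eu (n : ℕ) : Type := EuclideanSpace ℝ (Fin n)

section top

variable {E F : Type} [TopologicalSpace E] [TopologicalSpace F]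

/-- A continuous bijection of `X` onto `Y`. -/
def HM (X : Set E) (Y : Set F) (f : E → F) : Prop := ContinuousOn f X ∧ Set.BijOn f X Y

/-- `X` is an `n`-ball and `X ∩ Y` is its boundary sphere. -/
def BP (n : ℕ) (X Y : Set E) : Prop :=
  IsCompact X ∧ ∃ f : E → Eu n, HM X (Metric.closedBall 0 1) f ∧ ∀ x ∈ X, (x ∈ Y ↔ ‖f x‖ = 1)

/-- `X` is the unit sphere of `ℝ^n`, of dimension `n - 1`. -/
def SP (n : ℕ) (X : Set E) : Prop :=
  IsCompact X ∧ ∃ f : E → Eu n, HM X (Metric.sphere 0 1) f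

/-- `W` is the product of a 2-sphere and an interval, with ends `S0` and `S1`. -/
def Shell (W S0 S1 : Set E) : Prop :=
  IsCompact W ∧ S0 ⊆ W ∧ S1 ⊆ W ∧ ∃ f : E → Eu 3 × ℝ,
    HM W (Metric.sphere (0 : Eu 3) 1 ×ˢ Set.Icc (0 : ℝ) 1) f ∧
      ∀ x ∈ W, (x ∈ S0 ↔ (f x).2 = 0) ∧ (x ∈ S1 ↔ (f x).2 = 1)

end top

section cone

variable {E : Type} [AddCommGroup E] [Module ℝ E]

/-- The cone on `X` with apex `p`. -/
def jn (p : E) (X : Set E) : Set E :=
  {y | y = p ∨ ∃ t ∈ Set.Ico (0 : ℝ) 1, ∃ x ∈ X, y = t • p + (1 - t) • x}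

/-- The segments from `p` to the points of `X` are disjoint and nondegenerate. -/
def Apex (p : E) (X : Set E) : Prop :=
  (∀ t ∈ Set.Ico (0 : ℝ) 1, ∀ x ∈ X, t • p + (1 - t) • x ≠ p) ∧
    ∀ t ∈ Set.Ico (0 : ℝ) 1, ∀ s ∈ Set.Ico (0 : ℝ) 1, ∀ x ∈ X, ∀ y ∈ X,
      t • p + (1 - t) • x = s • p + (1 - s) • y → t = s ∧ x = y

end cone

variable {V V' : Type}

/-- Push forward of barycentric coordinates. -/
def pf (f : V' → V) (x : V' → ℝ) : V → ℝ := fun v => ∑ᶠ u ∈ {u | f u = v}, x u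

/-- The barycentric map from the subdivision. -/
def bar (y : Finset V → ℝ) : V → ℝ := fun v => ∑ᶠ s ∈ {s : Finset V | v ∈ s}, y s / s.card

/-- The union of the simplices marked by `β`. -/
def Rb (G : SimpleGraph V) (A : Set V) (β : Finset V → Prop) : Set (V → ℝ) :=
  {x | x ∈ Rz G A ∧ ∃ s : Finset V, Clq G A s ∧ β s ∧ ∀ v, x v ≠ 0 → v ∈ s}

/-- The simplices meeting `S` whose other vertices lie on the side `σ`. -/
def hsd (G : SimpleGraph V) (A S : Set V) (σ : V → Set V) : Set (Finset V) :=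
  {t | t ∈ sA G A ∧ Meets t S ∧ ∀ x ∈ t, x ∈ S → ∀ y ∈ t, y ∉ S → y ∈ σ x}

/-- The parallel copy of `S` on the side `σ`. -/
def hfr (G : SimpleGraph V) (A S : Set V) (σ : V → Set V) : Set (Finset V) :=
  hsd G A S σ \ ins S

/-- The neighbourhood of `W` is a ball whose boundary is a combinatorial sphere. -/
def NB (G : SimpleGraph V) (A W : Set V) : Prop :=
  W ⊆ A ∧ Sph (sG V) 3 (fr G A W) ∧ BP 3 (Rz (sG V) (nb G A W)) (Rz (sG V) (fr G A W))

/-- The boundary components. -/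
def bcs (G : SimpleGraph V) (Z T : Set V) : Set (Set V) :=
  (fun a => cmp G (Z ∩ T) a) '' (Z ∩ T)

/-- A connected 3-manifold in `X` bounded by spheres. -/
structure PM (X : Cx) (Z T : Set X.V) : Prop where
  sub : Z ⊆ X.A
  con : Con X.G Z
  mf : Mf X.G 3 Z T
  sph : ∀ a ∈ Z ∩ T, Sph X.G 3 (cmp X.G (Z ∩ T) a)

/-- The data of a punctured copy of `P`. -/
structure PD (X P : Cx) (Z T : Set X.V) : Prop where
  pm : PM X Z T
  homeo : (capC X Z T).Homeo P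

theorem punct_iff {X P : Cx} : Punct X P ↔ ∃ Z T, PD X P Z T :=
  ⟨fun ⟨Z, T, h1, h2, h3, h4, h5⟩ => ⟨Z, T, ⟨h1, h2, h3, h4⟩, h5⟩,
    fun ⟨Z, T, h⟩ => ⟨Z, T, h.pm.sub, h.pm.con, h.pm.mf, h.pm.sph, h.homeo⟩⟩

/-- The neighbourhood of `Q` is a punctured copy of `P`. -/
def Core (X P : Cx) (Q : Set X.V) : Prop :=
  Q ⊆ X.A ∧ PD X.sd P (nb X.G X.A Q) (fr X.G X.A Q)

end

end Pool.Agent.MP_6374aa_g

end

section

/-! Continuous bijections of compact sets, ball pairs and spheres: formal properties. -/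

namespace Pool.Agent.MP_6374aa_g

open Pool.Agent.MP_6374aa_gt Classical

variable {E F H : Type} [TopologicalSpace E] [TopologicalSpace F] [TopologicalSpace H]
  [T2Space E] [T2Space F] [T2Space H] {X Y : Set E} {X' Y' : Set F} {f : E → F} {n : ℕ}

omit [T2Space E] in
theorem homeo_Hm (hf : HM X X' f) (hX : IsCompact X) :
    ∃ h : X ≃ₜ X', ∀ x : X, (h x).1 = f x := by
  have := isCompact_iff_compactSpace.1 hX
  exact ⟨Continuous.homeoOfEquivCompactToT2 (f := hf.2.equiv f)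
    ((continuousOn_iff_continuous_domRestrict.1 hf.1).subtype_mk _), fun _ => rfl⟩

theorem sphere_Hm : ∃ p q : Eu 1, p ≠ q ∧ Metric.sphere (0 : Eu 1) 1 = {p, q} := by
  have e : ∀ x : Eu 1, ‖x‖ = |x 0| := fun x => by
    rw [EuclideanSpace.norm_eq, Fin.sum_univ_one, Real.sqrt_sq (norm_nonneg _), Real.norm_eq_abs]
  have e' : ∀ (x : Eu 1) (r : ℝ), x = EuclideanSpace.single 0 r ↔ x 0 = r := fun x r =>
    ⟨fun h => by simp [h], fun h => by
      ext i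
      rw [Subsingleton.elim i 0, h]
      simp⟩
  refine ⟨EuclideanSpace.single 0 1, EuclideanSpace.single 0 (-1), fun h => ?_, ?_⟩
  · have := (e' _ _).1 h
    norm_num at this
  · ext x
    rw [mem_sphere_zero_iff_norm, e, abs_eq zero_le_one, ← e', ← e']
    rfl

theorem HM.id' (X : Set E) : HM X X id := by
  exact ⟨continuousOn_id, Set.bijOn_id X⟩

theorem HM.comp {Z : Set H} {g : F → H} (hf : HM X X' f) (hg : HM X' Z g) : HM X Z (g ∘ f) := by
  exact ⟨hg.1.comp hf.1 hf.2.mapsTo, hg.2.comp hf.2⟩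

theorem HM.image (hf : HM X X' f) : f '' X = X' := by
  exact hf.2.image_eq

theorem HM.compact (hf : HM X X' f) (hX : IsCompact X) : IsCompact X' := by
  exact hf.image ▸ hX.image_of_continuousOn hf.1

theorem HM.restrict (hf : HM X X' f) {S : Set E} (hS : S ⊆ X) : HM S (f '' S) f := by
  exact ⟨hf.1.mono hS, (hf.2.injOn.mono hS).bijOn_image⟩

theorem HM.congr (hf : HM X X' f) {g : E → F} (h : Set.EqOn g f X) : HM X X' g := by
  exact ⟨hf.1.congr h, hf.2.congr h.symm⟩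

theorem HM.symm' [Nonempty E] (hf : HM X X' f) (hX : IsCompact X) :
    ∃ g, HM X' X g ∧ (∀ x ∈ X, g (f x) = x) ∧ ∀ y ∈ X', f (g y) = y := by
  obtain ⟨h, hh⟩ := homeo_Hm hf hX
  have h1 := hf.2.invOn_invFunOn
  refine ⟨Function.invFunOn f X, ⟨continuousOn_iff_continuous_domRestrict.2 ?_, hf.2.symm h1.symm⟩,
    fun x hx => h1.1 hx, fun y hy => h1.2 hy⟩
  refine (continuous_subtype_val.comp h.symm.continuous).congr fun y => ?_
  have h2 := h1.1 (h.symm y).2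
  rw [← hh, h.apply_symm_apply] at h2
  exact h2.symm

theorem HM.homeo (hf : HM X X' f) (hX : IsCompact X) :
    ∃ h : X ≃ₜ X', ∀ x : X, (h x).1 = f x := by
  exact homeo_Hm hf hX

theorem hm_of_homeo [Nonempty F] (h : X ≃ₜ X') : ∃ f, HM X X' f ∧ ∀ x : X, f x = (h x).1 := by
  refine ⟨fun x => if hx : x ∈ X then (h ⟨x, hx⟩).1 else Classical.arbitrary F,
    ⟨continuousOn_iff_continuous_domRestrict.2 ?_, fun x hx => ?_, fun x hx y hy e => ?_,
      fun y hy => ⟨(h.symm ⟨y, hy⟩).1, (h.symm ⟨y, hy⟩).2, ?_⟩⟩, fun x => dif_pos x.2⟩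
  · refine (continuous_subtype_val.comp h.continuous).congr fun x => Eq.symm ?_
    exact dif_pos x.2
  · simp only [dif_pos hx]
    exact (h ⟨x, hx⟩).2
  · simp only [dif_pos hx, dif_pos hy] at e
    exact congrArg Subtype.val (h.injective (Subtype.ext e))
  · simp only [dif_pos (h.symm ⟨y, hy⟩).2, Subtype.coe_eta, h.apply_symm_apply]

theorem HM.image_inter (hf : HM X X' f) {S T : Set E} (hS : S ⊆ X) (hT : T ⊆ X) :
    f '' (S ∩ T) = f '' S ∩ f '' T := by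
  exact hf.2.injOn.image_inter hS hT

theorem HM.mem_image (hf : HM X X' f) {S : Set E} (hS : S ⊆ X) {x : E} (hx : x ∈ X) :
    f x ∈ f '' S ↔ x ∈ S := by
  exact hf.2.injOn.mem_image_iff hS hx

theorem HM.glue {X1 X2 : Set E} {Y1 Y2 : Set F} {f1 f2 : E → F} (h1 : HM X1 Y1 f1)
    (h2 : HM X2 Y2 f2) (c1 : IsCompact X1) (c2 : IsCompact X2) (he : Set.EqOn f1 f2 (X1 ∩ X2))
    (hi : Y1 ∩ Y2 ⊆ f1 '' (X1 ∩ X2)) :
    ∃ f, HM (X1 ∪ X2) (Y1 ∪ Y2) f ∧ Set.EqOn f f1 X1 ∧ Set.EqOn f f2 X2 := by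
  have e1 : Set.EqOn (X1.piecewise f1 f2) f1 X1 := Set.piecewise_eqOn X1 f1 f2
  have e2 : Set.EqOn (X1.piecewise f1 f2) f2 X2 := fun x hx => by
    by_cases h : x ∈ X1
    · rw [e1 h, he ⟨h, hx⟩]
    · exact Set.piecewise_eq_of_notMem X1 f1 f2 h
  have k1 := h1.congr e1
  have k2 := h2.congr e2
  have key : ∀ x ∈ X1, ∀ y ∈ X2, X1.piecewise f1 f2 x = X1.piecewise f1 f2 y → x = y := by
    intro x hx y hy e
    obtain ⟨z, hz, e'⟩ := hi ⟨k1.2.mapsTo hx, e ▸ k2.2.mapsTo hy⟩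
    rw [← e1 hz.1] at e'
    rw [← k1.2.injOn hz.1 hx e', k2.2.injOn hz.2 hy (e'.trans e)]
  refine ⟨_, ⟨k1.1.union_of_isClosed k2.1 c1.isClosed c2.isClosed, k1.2.union k2.2 ?_⟩, e1, e2⟩
  rintro x (hx | hx) y (hy | hy) e
  · exact k1.2.injOn hx hy e
  · exact key x hx y hy e
  · exact (key y hy x hx e.symm).symm
  · exact k2.2.injOn hx hy e

theorem BP.congr (h : BP n X Y) {Z : Set E} (he : X ∩ Y = X ∩ Z) : BP n X Z := by
  obtain ⟨c, g, h1, h2⟩ := h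
  refine ⟨c, g, h1, fun x hx => Iff.trans ?_ (h2 x hx)⟩
  exact ⟨fun k => (he.symm.subset ⟨hx, k⟩).2, fun k => (he.subset ⟨hx, k⟩).2⟩

theorem BP.map (h : BP n X Y) (hf : HM X X' f) (he : f '' (X ∩ Y) = X' ∩ Y') : BP n X' Y' := by
  obtain ⟨c, g, h1, h2⟩ := h
  have : Nonempty E := ⟨(h1.2.surjOn (Metric.mem_closedBall_self zero_le_one)).choose⟩
  obtain ⟨k, k1, k2, k3⟩ := hf.symm' c
  refine ⟨hf.compact c, g ∘ k, k1.comp h1, fun y hy => Iff.trans ?_ (h2 _ (k1.2.mapsTo hy))⟩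
  have h3 := hf.mem_image (S := X ∩ Y) Set.inter_subset_left (k1.2.mapsTo hy)
  rw [k3 y hy, he] at h3
  exact ⟨fun a => (h3.1 ⟨hy, a⟩).2, fun a => (h3.2 ⟨k1.2.mapsTo hy, a⟩).2⟩

theorem BP.comap (h : BP n X' Y') (hX : IsCompact X) (hf : HM X X' f)
    (he : ∀ x ∈ X, x ∈ Y ↔ f x ∈ Y') : BP n X Y := by
  obtain ⟨-, g, h1, h2⟩ := h
  exact ⟨hX, g ∘ f, hf.comp h1, fun x hx => (he x hx).trans (h2 _ (hf.2.mapsTo hx))⟩

theorem BP.sp (h : BP n X Y) : SP n (X ∩ Y) := by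
  obtain ⟨c, g, h1, h2⟩ := h
  have e : g '' (X ∩ Y) = Metric.sphere 0 1 := by
    refine Set.Subset.antisymm ?_ fun y hy => ?_
    · rintro _ ⟨x, hx, rfl⟩
      exact mem_sphere_zero_iff_norm.2 ((h2 x hx.1).1 hx.2)
    · obtain ⟨x, hx, rfl⟩ := h1.2.surjOn (Metric.sphere_subset_closedBall hy)
      exact ⟨x, ⟨hx, (h2 x hx).2 (mem_sphere_zero_iff_norm.1 hy)⟩, rfl⟩
  have e2 : X ∩ Y = X ∩ g ⁻¹' Metric.sphere 0 1 := Set.ext fun x => and_congr_right fun hx =>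
    (h2 x hx).trans mem_sphere_zero_iff_norm.symm
  refine ⟨?_, g, e ▸ h1.restrict Set.inter_subset_left⟩
  rw [e2]
  exact c.of_isClosed_subset (h1.1.preimage_isClosed_of_isClosed c.isClosed Metric.isClosed_sphere)
    Set.inter_subset_left

theorem BP.interior (h : BP n X Y) : (X \ Y).Nonempty := by
  obtain ⟨-, g, h1, h2⟩ := h
  obtain ⟨x, hx, e⟩ := h1.2.surjOn (Metric.mem_closedBall_self zero_le_one)
  refine ⟨x, hx, fun k => ?_⟩
  have := (h2 x hx).1 k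
  rw [e, norm_zero] at this
  exact zero_ne_one this

theorem SP.map (h : SP n X) (hf : HM X X' f) : SP n X' := by
  obtain ⟨c, g, h1⟩ := h
  rcases X.eq_empty_or_nonempty with rfl | ⟨x, hx⟩
  · have e1 := hf.image
    have e2 := h1.image
    rw [Set.image_empty] at e1 e2
    rw [← e1]
    exact ⟨isCompact_empty, fun _ => 0, e2 ▸ ⟨continuousOn_empty _, Set.bijOn_empty _⟩⟩
  · have : Nonempty E := ⟨x⟩
    obtain ⟨k, k1, -, -⟩ := hf.symm' c
    exact ⟨hf.compact c, g ∘ k, k1.comp h1⟩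

theorem SP.comap (h : SP n X') (hX : IsCompact X) (hf : HM X X' f) : SP n X := by
  obtain ⟨-, g, h1⟩ := h
  exact ⟨hX, g ∘ f, hf.comp h1⟩

theorem SP.hm [Nonempty F] (h : SP n X) (h' : SP n X') : ∃ g, HM X X' g := by
  obtain ⟨-, g, h1⟩ := h
  obtain ⟨c, g', h2⟩ := h'
  obtain ⟨k, k1, -, -⟩ := h2.symm' c
  exact ⟨k ∘ g, h1.comp k1⟩

theorem sp_zero : SP 0 X ↔ X = ∅ := by
  have e : Metric.sphere (0 : Eu 0) 1 = ∅ := Metric.sphere_eq_empty_of_subsingleton one_ne_zero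
  constructor
  · rintro ⟨-, g, h1⟩
    exact Set.image_eq_empty.1 (h1.image.trans e)
  · rintro rfl
    exact ⟨isCompact_empty, fun _ => 0, e ▸ ⟨continuousOn_empty _, Set.bijOn_empty _⟩⟩

theorem bp_zero : BP 0 X Y ↔ ∃ a, X = {a} ∧ a ∉ Y := by
  constructor
  · intro h
    obtain ⟨a, h1, h2⟩ := h.interior
    obtain ⟨-, g, h3, -⟩ := h
    exact ⟨a, Set.eq_singleton_iff_unique_mem.2
      ⟨h1, fun x hx => h3.2.injOn hx h1 (Subsingleton.elim _ _)⟩, h2⟩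
  · rintro ⟨a, rfl, ha⟩
    refine ⟨isCompact_singleton, fun _ => 0, ⟨continuousOn_const,
      fun _ _ => Metric.mem_closedBall_self zero_le_one, Set.injOn_singleton _ _,
      fun y _ => ⟨a, rfl, Subsingleton.elim _ _⟩⟩, ?_⟩
    rintro x rfl
    simp [ha]

theorem sp_one : SP 1 X ↔ ∃ a b, a ≠ b ∧ X = {a, b} := by
  obtain ⟨p, q, hpq, e⟩ := sphere_Hm
  constructor
  · rintro ⟨-, g, h1⟩
    rw [e] at h1
    obtain ⟨a, ha, rfl⟩ := h1.2.surjOn (Or.inl rfl)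
    obtain ⟨b, hb, rfl⟩ := h1.2.surjOn (Or.inr rfl)
    refine ⟨a, b, fun k => hpq (k ▸ rfl), Set.Subset.antisymm (fun x hx => ?_) ?_⟩
    · exact (h1.2.mapsTo hx).imp (h1.2.injOn hx ha) (h1.2.injOn hx hb)
    · rintro x (rfl | rfl)
      exacts [ha, hb]
  · rintro ⟨a, b, hab, rfl⟩
    refine ⟨(Set.toFinite _).isCompact, fun x => if x = a then p else q,
      (Set.toFinite _).continuousOn _, ?_⟩
    rw [e]
    refine ⟨?_, ?_, ?_⟩
    · rintro x (rfl | rfl) <;> simp [hab.symm]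
    · rintro x (rfl | rfl) y (rfl | rfl) <;> simp [hab, hab.symm, hpq, hpq.symm]
    · rintro x (rfl | rfl)
      · exact ⟨a, Or.inl rfl, if_pos rfl⟩
      · exact ⟨b, Or.inr rfl, if_neg hab.symm⟩

theorem bp_ball (n : ℕ) : BP n (Metric.closedBall (0 : Eu n) 1) (Metric.sphere 0 1) := by
  exact ⟨isCompact_closedBall _ _, id, HM.id' _, fun x _ => mem_sphere_zero_iff_norm⟩

theorem Shell.symm {W S0 S1 : Set E} (h : Shell W S0 S1) : Shell W S1 S0 := by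
  obtain ⟨c, h0, h1, g, h2, h3⟩ := h
  have k : HM (Metric.sphere (0 : Eu 3) 1 ×ˢ Set.Icc (0 : ℝ) 1)
      (Metric.sphere (0 : Eu 3) 1 ×ˢ Set.Icc (0 : ℝ) 1) fun p => (p.1, 1 - p.2) := by
    have m : Set.MapsTo (fun p : Eu 3 × ℝ => (p.1, 1 - p.2))
        (Metric.sphere (0 : Eu 3) 1 ×ˢ Set.Icc (0 : ℝ) 1)
        (Metric.sphere (0 : Eu 3) 1 ×ˢ Set.Icc (0 : ℝ) 1) := fun p hp =>
      ⟨hp.1, sub_nonneg.2 hp.2.2, sub_le_self _ hp.2.1⟩
    exact ⟨by fun_prop, Set.InvOn.bijOn ⟨fun p _ => by simp, fun p _ => by simp⟩ m m⟩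
  refine ⟨c, h1, h0, _, h2.comp k, fun x hx => ⟨(h3 x hx).2.trans ?_, (h3 x hx).1.trans ?_⟩⟩
  · change _ ↔ 1 - (g x).2 = 0
    constructor <;> intro e <;> linarith
  · change _ ↔ 1 - (g x).2 = 1
    constructor <;> intro e <;> linarith

theorem Shell.map {W S0 S1 : Set E} {W' : Set F} (h : Shell W S0 S1) (hf : HM W W' f) :
    Shell W' (f '' S0) (f '' S1) := by
  obtain ⟨c, h0, h1, g, h2, h3⟩ := h
  have : Nonempty E := by
    obtain ⟨y, hy⟩ : (Metric.sphere (0 : Eu 3) 1).Nonempty := NormedSpace.sphere_nonempty.2 zero_le_one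
    exact ⟨(h2.2.surjOn (show (y, (0 : ℝ)) ∈ _ from ⟨hy, le_rfl, zero_le_one⟩)).choose⟩
  obtain ⟨k, k1, k2, k3⟩ := hf.symm' c
  refine ⟨hf.compact c, hf.image ▸ Set.image_mono h0, hf.image ▸ Set.image_mono h1, g ∘ k,
    k1.comp h2, fun y hy => ?_⟩
  have m := k1.2.mapsTo hy
  have a0 := hf.mem_image h0 m
  have a1 := hf.mem_image h1 m
  rw [k3 y hy] at a0 a1
  exact ⟨a0.trans (h3 _ m).1, a1.trans (h3 _ m).2⟩

theorem shell_of_prod {S : Set F} (hS : SP 3 S) {W S0 S1 : Set E} (hW : IsCompact W) (h0 : S0 ⊆ W)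
    (h1 : S1 ⊆ W) {g : E → F × ℝ} (hg : HM W (S ×ˢ Set.Icc (0 : ℝ) 1) g)
    (he : ∀ x ∈ W, (x ∈ S0 ↔ (g x).2 = 0) ∧ (x ∈ S1 ↔ (g x).2 = 1)) : Shell W S0 S1 := by
  obtain ⟨-, k, hk⟩ := hS
  have k' : HM (S ×ˢ Set.Icc (0 : ℝ) 1) (Metric.sphere (0 : Eu 3) 1 ×ˢ Set.Icc (0 : ℝ) 1)
      (Prod.map k id) := ⟨hk.1.prodMap continuousOn_id, hk.2.prodMap (Set.bijOn_id _)⟩
  exact ⟨hW, h0, h1, _, hg.comp k', he⟩

theorem ball3_iff {V : Type} {G : SimpleGraph V} {D S : Set V} :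
    Ball3 G D S ↔ BP 3 (Rz G D) (Rz G S) := by
  constructor
  · rintro ⟨h, hh⟩
    obtain ⟨g, h1, h2⟩ := hm_of_homeo h
    refine ⟨isCompact_iff_compactSpace.2 ?_, g, h1, fun x hx => ?_⟩
    · have := isCompact_iff_compactSpace.1 (isCompact_closedBall (0 : Eu 3) 1)
      exact h.symm.compactSpace
    · rw [h2 ⟨x, hx⟩]
      exact hh ⟨x, hx⟩
  · rintro ⟨c, g, h1, h2⟩
    obtain ⟨h, hh⟩ := h1.homeo c
    exact ⟨h, fun x => by rw [hh]; exact h2 x.1 x.2⟩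

theorem Cx.Homeo.refl (X : Cx) : X.Homeo X := by
  exact ⟨Homeomorph.refl _⟩

theorem Cx.Homeo.symm {X Y : Cx} (h : X.Homeo Y) : Y.Homeo X := by
  exact h.elim fun f => ⟨f.symm⟩

theorem Cx.Homeo.trans {X Y Z : Cx} (h : X.Homeo Y) (h' : Y.Homeo Z) : X.Homeo Z := by
  exact h.elim fun f => h'.elim fun g => ⟨f.trans g⟩

end Pool.Agent.MP_6374aa_g

end

section

/-! Cones and the Alexander trick. -/

namespace Pool.Agent.MP_6374aa_g

open Pool.Agent.MP_6374aa_gt Classical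

variable {E F : Type} [AddCommGroup E] [Module ℝ E] [TopologicalSpace E]
  [IsTopologicalAddGroup E] [ContinuousSMul ℝ E] [T2Space E] [AddCommGroup F] [Module ℝ F]
  [TopologicalSpace F] [IsTopologicalAddGroup F] [ContinuousSMul ℝ F] [T2Space F]
  {p : E} {q : F} {X Y : Set E} {X' : Set F} {f : E → F} {n : ℕ}

theorem jn_eq_Cone (p : E) (X : Set E) : jn p X =
    {p} ∪ (fun z : ℝ × E => z.1 • p + (1 - z.1) • z.2) '' (Set.Icc (0 : ℝ) 1 ×ˢ X) := by
  ext y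
  constructor
  · rintro (rfl | ⟨t, ht, x, hx, rfl⟩)
    · exact Or.inl rfl
    · exact Or.inr ⟨(t, x), ⟨Set.Ico_subset_Icc_self ht, hx⟩, rfl⟩
  · rintro (rfl | ⟨⟨t, x⟩, ⟨ht, hx⟩, rfl⟩)
    · exact Or.inl rfl
    · rcases eq_or_lt_of_le ht.2 with h | h
      · left
        have h1 : t = 1 := h
        simp [h1]
      · exact Or.inr ⟨t, ⟨ht.1, h⟩, x, hx, rfl⟩

theorem jn_compact (hX : IsCompact X) : IsCompact (jn p X) := by
  rw [jn_eq_Cone]
  exact isCompact_singleton.union ((isCompact_Icc.prod hX).image (by fun_prop))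

theorem subset_jn (p : E) (X : Set E) : X ⊆ jn p X := by
  intro x hx
  exact Or.inr ⟨0, ⟨le_rfl, zero_lt_one⟩, x, hx, by simp⟩

theorem mem_jn_self (p : E) (X : Set E) : p ∈ jn p X := by
  exact Or.inl rfl

theorem jn_mono (h : Y ⊆ X) : jn p Y ⊆ jn p X := by
  rintro y (rfl | ⟨t, ht, x, hx, rfl⟩)
  · exact Or.inl rfl
  · exact Or.inr ⟨t, ht, x, h hx, rfl⟩

theorem jn_union (p : E) (X Y : Set E) : jn p (X ∪ Y) = jn p X ∪ jn p Y := by
  refine Set.Subset.antisymm ?_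
    (Set.union_subset (jn_mono Set.subset_union_left) (jn_mono Set.subset_union_right))
  rintro y (rfl | ⟨t, ht, x, hx | hx, rfl⟩)
  · exact Or.inl (Or.inl rfl)
  · exact Or.inl (Or.inr ⟨t, ht, x, hx, rfl⟩)
  · exact Or.inr (Or.inr ⟨t, ht, x, hx, rfl⟩)

theorem jn_empty (p : E) : jn p ∅ = {p} := by
  ext y
  simp [jn]

theorem Apex.mono (h : Apex p X) (hY : Y ⊆ X) : Apex p Y := by
  exact ⟨fun t ht x hx => h.1 t ht x (hY hx),
    fun t ht s hs x hx y hy => h.2 t ht s hs x (hY hx) y (hY hy)⟩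

theorem Apex.notMem (h : Apex p X) : p ∉ X := by
  intro hp
  exact h.1 0 ⟨le_rfl, zero_lt_one⟩ p hp (by simp)

theorem Apex.jn_inter (h : Apex p X) {S T : Set E} (hS : S ⊆ X) (hT : T ⊆ X) :
    jn p S ∩ jn p T = jn p (S ∩ T) := by
  refine Set.Subset.antisymm ?_
    (Set.subset_inter (jn_mono Set.inter_subset_left) (jn_mono Set.inter_subset_right))
  rintro y ⟨rfl | ⟨t, ht, x, hx, rfl⟩, h2⟩
  · exact Or.inl rfl
  · rcases h2 with h2 | ⟨s, hs, z, hz, h2⟩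
    · exact Or.inl h2
    · obtain ⟨-, rfl⟩ := h.2 t ht s hs x (hS hx) z (hT hz) h2
      exact Or.inr ⟨t, ht, x, ⟨hx, hz⟩, rfl⟩

theorem Apex.jn_inter_base (h : Apex p X) {S : Set E} (hS : S ⊆ X) : jn p S ∩ X = S := by
  refine Set.Subset.antisymm ?_ (Set.subset_inter (subset_jn p S) hS)
  rintro y ⟨rfl | ⟨t, ht, x, hx, h1⟩, h2⟩
  · exact absurd h2 h.notMem
  · have h3 : (0 : ℝ) • p + (1 - 0 : ℝ) • y = t • p + (1 - t) • x := by simpa using h1
    obtain ⟨-, rfl⟩ := h.2 0 ⟨le_rfl, zero_lt_one⟩ t ht y h2 x (hS hx) h3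
    exact hx

theorem jn_fun_Cone (hp : Apex p X) (q : F) (f : E → F) :
    ∃ g : E → F, g p = q ∧ ∀ t ∈ Set.Icc (0 : ℝ) 1, ∀ x ∈ X,
      g (t • p + (1 - t) • x) = t • q + (1 - t) • f x := by
  have key : ∀ y : E, ∃ w : F, (y = p → w = q) ∧ ∀ t ∈ Set.Ico (0 : ℝ) 1, ∀ x ∈ X,
      y = t • p + (1 - t) • x → w = t • q + (1 - t) • f x := fun y => by
    by_cases h : ∃ t ∈ Set.Ico (0 : ℝ) 1, ∃ x ∈ X, y = t • p + (1 - t) • x
    · obtain ⟨t, ht, x, hx, rfl⟩ := h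
      refine ⟨t • q + (1 - t) • f x, fun h => absurd h (hp.1 t ht x hx), fun s hs z hz h => ?_⟩
      obtain ⟨rfl, rfl⟩ := hp.2 t ht s hs x hx z hz h
      rfl
    · exact ⟨q, fun _ => rfl, fun t ht x hx h1 => absurd ⟨t, ht, x, hx, h1⟩ h⟩
  choose g hg1 hg2 using key
  refine ⟨g, hg1 p rfl, fun t ht x hx => ?_⟩
  rcases eq_or_lt_of_le ht.2 with h | h
  · have h1 : t = 1 := h
    simpa [h1] using hg1 p rfl
  · exact hg2 _ t ⟨ht.1, h⟩ x hx rfl

theorem jn_map (hp : Apex p X) (hq : Apex q X') (hX : IsCompact X) (hf : HM X X' f) :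
    ∃ g, HM (jn p X) (jn q X') g ∧ Set.EqOn g f X ∧ ∀ S ⊆ X, g '' jn p S = jn q (f '' S) := by
  obtain ⟨g, hg1, hg2⟩ := jn_fun_Cone hp q f
  have hg3 : ∀ t ∈ Set.Ico (0 : ℝ) 1, ∀ x ∈ X,
      g (t • p + (1 - t) • x) = t • q + (1 - t) • f x :=
    fun t ht => hg2 t (Set.Ico_subset_Icc_self ht)
  have him : ∀ S ⊆ X, g '' jn p S = jn q (f '' S) := fun S hS => by
    ext w
    constructor
    · rintro ⟨y, rfl | ⟨t, ht, x, hx, rfl⟩, rfl⟩
      · exact Or.inl hg1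
      · exact Or.inr ⟨t, ht, f x, ⟨x, hx, rfl⟩, hg3 t ht x (hS hx)⟩
    · rintro (rfl | ⟨t, ht, _, ⟨x, hx, rfl⟩, rfl⟩)
      · exact ⟨p, Or.inl rfl, hg1⟩
      · exact ⟨_, Or.inr ⟨t, ht, x, hx, rfl⟩, hg3 t ht x (hS hx)⟩
  have hX' : g '' jn p X = jn q X' := by rw [him X subset_rfl, hf.2.image_eq]
  refine ⟨g, ⟨?_, ?_, ?_, hX'.ge⟩, fun x hx => ?_, him⟩
  · rw [continuousOn_iff_isClosed]
    intro C hC
    have hK : IsCompact (Set.Icc (0 : ℝ) 1 ×ˢ X) := isCompact_Icc.prod hX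
    have hψ : ContinuousOn (fun z : ℝ × E => z.1 • q + (1 - z.1) • f z.2)
        (Set.Icc (0 : ℝ) 1 ×ˢ X) :=
      (continuous_fst.smul continuous_const).continuousOn.add
        ((continuous_const.sub continuous_fst).continuousOn.smul
          (hf.1.comp continuous_snd.continuousOn fun z hz => hz.2))
    have hK2 := hK.of_isClosed_subset (hψ.preimage_isClosed_of_isClosed hK.isClosed hC)
      Set.inter_subset_left
    have hφ : Continuous fun z : ℝ × E => z.1 • p + (1 - z.1) • z.2 := by fun_prop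
    refine ⟨_, (((Set.finite_singleton p).inter_of_left (g ⁻¹' C)).isClosed).union
      (hK2.image hφ).isClosed, ?_⟩
    ext y
    constructor
    · rintro ⟨h1, h2⟩
      refine ⟨?_, h2⟩
      rcases h2 with rfl | ⟨t, ht, x, hx, rfl⟩
      · exact Or.inl ⟨rfl, h1⟩
      · refine Or.inr ⟨(t, x), ⟨⟨Set.Ico_subset_Icc_self ht, hx⟩, ?_⟩, rfl⟩
        have h3 : g (t • p + (1 - t) • x) ∈ C := h1
        rwa [hg3 t ht x hx] at h3
    · rintro ⟨h1 | ⟨⟨t, x⟩, ⟨⟨ht, hx⟩, h3⟩, rfl⟩, h2⟩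
      · exact ⟨h1.2, h2⟩
      · refine ⟨?_, h2⟩
        change g (t • p + (1 - t) • x) ∈ C
        rw [hg2 t ht x hx]
        exact h3
  · exact fun y hy => hX'.le ⟨y, hy, rfl⟩
  · rintro y (rfl | ⟨t, ht, x, hx, rfl⟩) z (rfl | ⟨s, hs, w, hw, rfl⟩) h
    · rfl
    · rw [hg1, hg3 s hs w hw] at h
      exact absurd h.symm (hq.1 s hs _ (hf.2.1 hw))
    · rw [hg1, hg3 t ht x hx] at h
      exact absurd h (hq.1 t ht _ (hf.2.1 hx))
    · rw [hg3 t ht x hx, hg3 s hs w hw] at h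
      obtain ⟨rfl, h2⟩ := hq.2 t ht s hs _ (hf.2.1 hx) _ (hf.2.1 hw) h
      rw [hf.2.2.1 hx hw h2]
  · simpa using hg3 0 ⟨le_rfl, zero_lt_one⟩ x hx

theorem apex_sphere (n : ℕ) : Apex (0 : Eu n) (Metric.sphere 0 1) := by
  have hn : ∀ t ∈ Set.Ico (0 : ℝ) 1, ∀ x ∈ Metric.sphere (0 : Eu n) 1,
      ‖t • (0 : Eu n) + (1 - t) • x‖ = 1 - t := fun t ht x hx => by
    have h1 : ‖x‖ = 1 := by simpa using hx
    rw [smul_zero, zero_add, norm_smul, h1, mul_one, Real.norm_eq_abs,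
      abs_of_pos (sub_pos.2 ht.2)]
  refine ⟨fun t ht x hx h => ?_, fun t ht s hs x hx y hy h => ?_⟩
  · have h1 := hn t ht x hx
    rw [h, norm_zero] at h1
    linarith [ht.2]
  · have h1 := hn t ht x hx
    rw [h, hn s hs y hy] at h1
    have h2 : t = s := by linarith
    subst h2
    refine ⟨rfl, ?_⟩
    simp only [smul_zero, zero_add] at h
    exact smul_right_injective _ (sub_pos.2 ht.2).ne' h

theorem jn_sphere (n : ℕ) : jn (0 : Eu n) (Metric.sphere 0 1) = Metric.closedBall 0 1 := by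
  ext y
  rw [mem_closedBall_zero_iff]
  constructor
  · rintro (rfl | ⟨t, ht, x, hx, rfl⟩)
    · simp
    · have h1 : ‖x‖ = 1 := by simpa using hx
      rw [smul_zero, zero_add, norm_smul, h1, mul_one, Real.norm_eq_abs,
        abs_of_pos (sub_pos.2 ht.2)]
      linarith [ht.1]
  · intro hy
    by_cases h0 : y = 0
    · exact Or.inl h0
    · have hp : 0 < ‖y‖ := norm_pos_iff.2 h0
      refine Or.inr ⟨1 - ‖y‖, ⟨by linarith, by linarith⟩, ‖y‖⁻¹ • y, ?_, ?_⟩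
      · rw [mem_sphere_zero_iff_norm, norm_smul, norm_inv, norm_norm, inv_mul_cancel₀ hp.ne']
      · rw [smul_zero, zero_add, sub_sub_cancel, smul_smul, mul_inv_cancel₀ hp.ne', one_smul]

theorem SP.cone (h : SP n X) (hp : Apex p X) : BP n (jn p X) X := by
  obtain ⟨hX, f, hf⟩ := h
  obtain ⟨g, hg, he, -⟩ := jn_map hp (apex_sphere n) hX hf
  rw [jn_sphere] at hg
  refine ⟨jn_compact hX, g, hg, fun x hx => ?_⟩
  constructor
  · intro h1
    rw [he h1]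
    exact mem_sphere_zero_iff_norm.1 (hf.2.1 h1)
  · intro h1
    obtain ⟨y, hy, h2⟩ := hf.2.2.2 (mem_sphere_zero_iff_norm.2 h1)
    have h3 : y = x := hg.2.2.1 (subset_jn p X hy) hx ((he hy).trans h2)
    exact h3 ▸ hy

/-- The Alexander trick. -/
theorem BP.ext {E F : Type} [TopologicalSpace E] [TopologicalSpace F] [T2Space E] [T2Space F]
    {X Y : Set E} {X' Y' : Set F} {g : E → F} (h : BP n X Y) (h' : BP n X' Y')
    (hg : HM (X ∩ Y) (X' ∩ Y') g) : ∃ f, HM X X' f ∧ Set.EqOn f g (X ∩ Y) := by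
  obtain ⟨hX, f1, hf1, b1⟩ := h
  obtain ⟨hX', f2, hf2, b2⟩ := h'
  have h0 : (0 : Eu n) ∈ Metric.closedBall (0 : Eu n) 1 := by simp
  obtain ⟨x0, -, -⟩ := hf1.2.2.2 h0
  obtain ⟨y0, -, -⟩ := hf2.2.2.2 h0
  haveI : Nonempty E := ⟨x0⟩
  haveI : Nonempty F := ⟨y0⟩
  obtain ⟨i1, hi1, l1, r1⟩ := hf1.symm' hX
  obtain ⟨i2, hi2, l2, -⟩ := hf2.symm' hX'
  have s1 : HM (Metric.sphere (0 : Eu n) 1) (X ∩ Y) i1 := by
    have h1 := hi1.restrict (Metric.sphere_subset_closedBall (x := (0 : Eu n)) (ε := 1))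
    have h2 : i1 '' Metric.sphere (0 : Eu n) 1 = X ∩ Y := by
      ext x
      constructor
      · rintro ⟨z, hz, rfl⟩
        have hz' := Metric.sphere_subset_closedBall hz
        refine ⟨hi1.2.1 hz', (b1 _ (hi1.2.1 hz')).2 ?_⟩
        rw [r1 z hz']
        exact mem_sphere_zero_iff_norm.1 hz
      · rintro ⟨hx, hy⟩
        exact ⟨f1 x, mem_sphere_zero_iff_norm.2 ((b1 x hx).1 hy), l1 x hx⟩
    rwa [h2] at h1
  have s2 : HM (X' ∩ Y') (Metric.sphere (0 : Eu n) 1) f2 := by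
    have h1 := hf2.restrict (Set.inter_subset_left (t := Y'))
    have h2 : f2 '' (X' ∩ Y') = Metric.sphere (0 : Eu n) 1 := by
      ext z
      constructor
      · rintro ⟨x, ⟨hx, hy⟩, rfl⟩
        exact mem_sphere_zero_iff_norm.2 ((b2 x hx).1 hy)
      · intro hz
        obtain ⟨x, hx, rfl⟩ := hf2.2.2.2 (Metric.sphere_subset_closedBall hz)
        exact ⟨x, ⟨hx, (b2 x hx).2 (mem_sphere_zero_iff_norm.1 hz)⟩, rfl⟩
    rwa [h2] at h1
  obtain ⟨K, hK, he, -⟩ := jn_map (apex_sphere n) (apex_sphere n) (isCompact_sphere 0 1)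
    ((s1.comp hg).comp s2)
  rw [jn_sphere] at hK
  refine ⟨i2 ∘ K ∘ f1, (hf1.comp hK).comp hi2, fun x hx => ?_⟩
  have h1 : f1 x ∈ Metric.sphere (0 : Eu n) 1 := mem_sphere_zero_iff_norm.2 ((b1 x hx.1).1 hx.2)
  simp only [Function.comp_apply, he h1, l1 x hx.1]
  exact l2 _ (hg.2.1 hx).1

end Pool.Agent.MP_6374aa_g

end

section

/-! Filling in balls and regular cell complexes. -/

namespace Pool.Agent.MP_6374aa_g

open Pool.Agent.MP_6374aa_gt Classical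

variable {E F H : Type} [TopologicalSpace E] [TopologicalSpace F] [TopologicalSpace H]
  [T2Space E] [T2Space F] [T2Space H] {X Y : Set E} {X' Y' : Set F} {f : E → F} {n : ℕ}

theorem one_Cell {B : Set E} {B' : Set F} (hX : IsCompact X) (hf : HM X X' f) (h1 : BP n B X)
    (h2 : BP n B' X') (h3 : f '' (B ∩ X) = B' ∩ X') :
    ∃ g, HM (X ∪ B) (X' ∪ B') g ∧ Set.EqOn g f X ∧ g '' B = B' := by
  obtain ⟨k, hk, ek⟩ := h1.ext h2 (h3 ▸ hf.restrict Set.inter_subset_right)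
  obtain ⟨g, g1, g2, g3⟩ := hf.glue hk hX h1.1 (fun x hx => (ek ⟨hx.2, hx.1⟩).symm)
    (by rw [Set.inter_comm X, h3, Set.inter_comm])
  exact ⟨g, g1, g2, g3.image_eq.trans hk.image⟩

theorem skip_Cell {α ι : Type} {s : Set ι} {B : ι → Set α} {X : Set α} {a : ι} (ha : a ∉ s)
    (h : ∀ i ∈ insert a s, ∀ j ∈ insert a s, i ≠ j → B i ∩ B j ⊆ X) :
    B a ∩ X = B a ∩ (X ∪ ⋃ i ∈ s, B i) := by
  refine Set.Subset.antisymm (fun x hx => ⟨hx.1, Or.inl hx.2⟩) fun x hx =>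
    ⟨hx.1, hx.2.elim id fun h1 => ?_⟩
  obtain ⟨i, hi, h2⟩ := Set.mem_iUnion₂.1 h1
  exact h a (Or.inl rfl) i (Or.inr hi) (fun e => ha (e ▸ hi)) ⟨hx.1, h2⟩

theorem face_Cell {α ι : Type} {I J : Set ι} {r : ι → ι → Prop} {C : ι → Set α} {i : ι}
    (irr : ∀ i ∈ I, ¬ r i i) (h2 : ∀ i ∈ I, ∀ j ∈ I, r j i → C j ⊆ C i)
    (h3 : ∀ i ∈ I, ∀ j ∈ I, ∀ x ∈ C i ∩ C j, ∃ k ∈ I, (k = i ∨ r k i) ∧ (k = j ∨ r k j) ∧ x ∈ C k)
    (hJ : J ⊆ I) (hd : ∀ i ∈ J, ∀ j ∈ I, r j i → j ∈ J) (hi : i ∈ J) (hm : ∀ j ∈ J, ¬ r i j) :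
    C i ∩ ⋃ j ∈ J \ {i}, C j = ⋃ j ∈ {j | j ∈ I ∧ r j i}, C j := by
  ext x
  simp only [Set.mem_inter_iff, Set.mem_iUnion₂]
  refine ⟨fun ⟨h4, j, hj, h5⟩ => ?_, fun ⟨j, hj, h4⟩ => ⟨h2 i (hJ hi) j hj.1 hj.2 h4, j,
    ⟨hd i hi j hj.1 hj.2, fun e => irr i (hJ hi) ((show j = i from e) ▸ hj.2)⟩, h4⟩⟩
  obtain ⟨k, hk, k1, k2, k3⟩ := h3 i (hJ hi) j (hJ hj.1) x ⟨h4, h5⟩
  refine ⟨k, ⟨hk, k1.resolve_left ?_⟩, k3⟩
  rintro rfl
  exact k2.elim (fun e => hj.2 e.symm) (hm j hj.1)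

theorem hm_fill {ι : Type} {I : Set ι} (hI : I.Finite) {d : ι → ℕ} {B : ι → Set E}
    {B' : ι → Set F} (hX : IsCompact X) (hf : HM X X' f) (h1 : ∀ i ∈ I, BP (d i) (B i) X)
    (h2 : ∀ i ∈ I, BP (d i) (B' i) X') (h3 : ∀ i ∈ I, f '' (B i ∩ X) = B' i ∩ X')
    (d1 : ∀ i ∈ I, ∀ j ∈ I, i ≠ j → B i ∩ B j ⊆ X)
    (d2 : ∀ i ∈ I, ∀ j ∈ I, i ≠ j → B' i ∩ B' j ⊆ X') :
    ∃ g, HM (X ∪ ⋃ i ∈ I, B i) (X' ∪ ⋃ i ∈ I, B' i) g ∧ Set.EqOn g f X ∧ ∀ i ∈ I, g '' B i = B' i := by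
  induction I, hI using Set.Finite.induction_on with
  | empty => exact ⟨f, by simpa using hf, fun _ _ => rfl, by simp⟩
  | @insert a s ha hs ih =>
    obtain ⟨g, g1, g2, g3⟩ := ih (fun i hi => h1 i (Or.inr hi)) (fun i hi => h2 i (Or.inr hi))
      (fun i hi => h3 i (Or.inr hi)) (fun i hi j hj => d1 i (Or.inr hi) j (Or.inr hj))
      fun i hi j hj => d2 i (Or.inr hi) j (Or.inr hj)
    obtain ⟨k, k1, k2, k3⟩ := one_Cell
      (hX.union (hs.isCompact_biUnion fun i hi => (h1 i (Or.inr hi)).1)) g1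
      ((h1 a (Or.inl rfl)).congr (skip_Cell ha d1)) ((h2 a (Or.inl rfl)).congr (skip_Cell ha d2))
      (by rw [← skip_Cell ha d1, ← skip_Cell ha d2, (g2.mono Set.inter_subset_right).image_eq,
        h3 a (Or.inl rfl)])
    refine ⟨k, ?_, (k2.mono Set.subset_union_left).trans g2, fun i hi => ?_⟩
    · rwa [Set.biUnion_insert, Set.biUnion_insert, Set.union_comm (B a), Set.union_comm (B' a),
        ← Set.union_assoc, ← Set.union_assoc]
    · rcases hi with rfl | hi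
      · exact k3
      · exact (k2.mono (Set.subset_union_of_subset_right
          (Set.subset_biUnion_of_mem (u := B) hi) _)).image_eq.trans (g3 i hi)

/-- Regular cell complexes with the same face poset are homeomorphic; `r j i` says that `j` is a
proper face of `i`. -/
theorem cell_homeo [Nonempty F] {ι : Type} {I : Set ι} (hI : I.Finite) (r : ι → ι → Prop)
    (irr : ∀ i ∈ I, ¬ r i i) (tr : ∀ i ∈ I, ∀ j ∈ I, ∀ k ∈ I, r i j → r j k → r i k) (d : ι → ℕ)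
    {C : ι → Set E} {C' : ι → Set F}
    (h1 : ∀ i ∈ I, BP (d i) (C i) (⋃ j ∈ {j | j ∈ I ∧ r j i}, C j))
    (h1' : ∀ i ∈ I, BP (d i) (C' i) (⋃ j ∈ {j | j ∈ I ∧ r j i}, C' j))
    (h2 : ∀ i ∈ I, ∀ j ∈ I, r j i → C j ⊆ C i) (h2' : ∀ i ∈ I, ∀ j ∈ I, r j i → C' j ⊆ C' i)
    (h3 : ∀ i ∈ I, ∀ j ∈ I, ∀ x ∈ C i ∩ C j, ∃ k ∈ I, (k = i ∨ r k i) ∧ (k = j ∨ r k j) ∧ x ∈ C k)
    (h3' : ∀ i ∈ I, ∀ j ∈ I, ∀ x ∈ C' i ∩ C' j,
      ∃ k ∈ I, (k = i ∨ r k i) ∧ (k = j ∨ r k j) ∧ x ∈ C' k) :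
    ∃ g, HM (⋃ i ∈ I, C i) (⋃ i ∈ I, C' i) g ∧ ∀ i ∈ I, g '' C i = C' i := by
  suffices H : ∀ n, ∀ J ⊆ I, J.ncard = n → (∀ i ∈ J, ∀ j ∈ I, r j i → j ∈ J) →
      ∃ g, HM (⋃ i ∈ J, C i) (⋃ i ∈ J, C' i) g ∧ ∀ i ∈ J, g '' C i = C' i from
    H _ I le_rfl rfl fun _ _ _ h _ => h
  intro n
  induction n with
  | zero =>
    intro J hJ h0 _
    rw [(Set.ncard_eq_zero (hI.subset hJ)).1 h0]
    exact ⟨fun _ => Classical.arbitrary F, by simp [HM], by simp⟩
  | succ n ih =>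
    intro J hJ h0 hd
    obtain ⟨i, hi, hm⟩ := Set.exists_max_image J (fun i => {j | j ∈ I ∧ r j i}.ncard)
      (hI.subset hJ) (Set.nonempty_of_ncard_ne_zero (h0 ▸ n.succ_ne_zero))
    replace hm : ∀ j ∈ J, ¬ r i j := fun j hj h => (hm j hj).not_gt
      (Set.ncard_lt_ncard ⟨fun k hk => ⟨hk.1, tr k hk.1 i (hJ hi) j (hJ hj) hk.2 h⟩,
        fun e => irr i (hJ hi) (e ⟨hJ hi, h⟩).2⟩ (hI.subset fun _ h => h.1))
    obtain ⟨g, g1, g2⟩ := ih (J \ {i}) (Set.sdiff_subset.trans hJ)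
      (by rw [Set.ncard_sdiff_singleton_of_mem hi, h0]; rfl)
      fun k hk j hj h => ⟨hd k hk.1 j hj h, fun e => hm k hk.1 ((show j = i from e) ▸ h)⟩
    have e1 := face_Cell irr h2 h3 hJ hd hi hm
    have e2 := face_Cell irr h2' h3' hJ hd hi hm
    obtain ⟨k, k1, k2, k3⟩ := one_Cell
      (((hI.subset hJ).sdiff).isCompact_biUnion fun j hj => (h1 j (hJ hj.1)).1) g1
      ((h1 i (hJ hi)).congr (by rw [← e1, ← Set.inter_assoc, Set.inter_self]))
      ((h1' i (hJ hi)).congr (by rw [← e2, ← Set.inter_assoc, Set.inter_self]))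
      (by
        rw [e1, e2, Set.image_iUnion₂]
        exact Set.iUnion₂_congr fun j hj => g2 j ⟨hd i hi j hj.1 hj.2,
          fun e => irr i (hJ hi) ((show j = i from e) ▸ hj.2)⟩)
    refine ⟨k, ?_, fun j hj => ?_⟩
    · rwa [← Set.insert_sdiff_self_of_mem hi, Set.biUnion_insert, Set.biUnion_insert,
        Set.union_comm (C i), Set.union_comm (C' i)]
    · by_cases e : j = i
      · exact e ▸ k3
      · exact (k2.mono (Set.subset_biUnion_of_mem (u := C) (s := J \ {i}) ⟨hj, e⟩)).image_eq.trans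
          (g2 j ⟨hj, e⟩)

end Pool.Agent.MP_6374aa_g

end

section

/-! Convex models: cones over ball pairs, products, unions along discs, shells. -/

namespace Pool.Agent.MP_6374aa_g

open Pool.Agent.MP_6374aa_gt Classical

variable {E F H : Type} [TopologicalSpace E] [TopologicalSpace F] [TopologicalSpace H]
  [T2Space E] [T2Space F] [T2Space H] {X Y : Set E} {X' Y' : Set F} {f : E → F} {n : ℕ}

theorem bp_convex {N : Type} [NormedAddCommGroup N] [NormedSpace ℝ N] [FiniteDimensional ℝ N]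
    (hn : Module.finrank ℝ N = n) {s : Set N} (hc : Convex ℝ s) (hk : IsCompact s)
    (hi : (interior s).Nonempty) : BP n s (frontier s) := by
  let L : N ≃L[ℝ] Eu n := ContinuousLinearEquiv.ofFinrankEq (by simp [hn])
  have k : IsCompact (L.toHomeomorph '' s) := hk.image L.continuous
  obtain ⟨h, -, h2, h3⟩ := exists_homeomorph_image_interior_closure_frontier_eq_unitBall
    (s := L.toHomeomorph '' s) (hc.linear_image L.toLinearEquiv.toLinearMap)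
    (by rw [← L.toHomeomorph.image_interior]; exact hi.image _) k.isBounded
  rw [k.isClosed.closure_eq, ← Set.image_comp] at h2
  rw [← L.toHomeomorph.image_frontier, ← Set.image_comp] at h3
  have inj : Function.Injective (h ∘ L.toHomeomorph) := h.injective.comp L.toHomeomorph.injective
  refine ⟨hk, h ∘ L.toHomeomorph, ⟨(h.continuous.comp L.toHomeomorph.continuous).continuousOn,
    h2 ▸ inj.injOn.bijOn_image⟩, fun x _ => ?_⟩
  rw [← inj.mem_set_image, h3, mem_sphere_zero_iff_norm]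

theorem front_Un {N : Type} [NormedAddCommGroup N] [NormedSpace ℝ N] {φ : N → ℝ}
    (h1 : Continuous φ) (h2 : ConvexOn ℝ Set.univ φ) {x₀ : N} (h3 : φ x₀ < 0) :
    frontier {x | φ x ≤ 0} = {x | φ x = 0} := by
  refine Set.Subset.antisymm (frontier_le_subset_eq h1 continuous_const) fun x hx => ?_
  have e : φ x = 0 := hx
  refine ⟨subset_closure e.le, fun hi => ?_⟩
  have c : Continuous fun t : ℝ => x + t • (x - x₀) := by fun_prop
  have h4 : ∀ᶠ t : ℝ in nhds 0, φ (x + t • (x - x₀)) ≤ 0 :=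
    (c.tendsto 0).eventually (p := fun y => φ y ≤ 0)
      (by rw [zero_smul, add_zero]; exact mem_interior_iff_mem_nhds.1 hi)
  obtain ⟨t, t1, t2⟩ := ((h4.filter_mono (nhdsWithin_le_nhds (s := Set.Ioi 0))).and
    self_mem_nhdsWithin).exists
  have t0 : 0 < t := t2
  have t3 : (0 : ℝ) < 1 + t := by linarith
  have h5 := h2.2 (Set.mem_univ (x + t • (x - x₀))) (Set.mem_univ x₀)
    (show (0 : ℝ) ≤ 1 / (1 + t) by positivity) (show (0 : ℝ) ≤ t / (1 + t) by positivity)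
    (show 1 / (1 + t) + t / (1 + t) = 1 by field_simp)
  have h6 : (1 / (1 + t)) • (x + t • (x - x₀)) + (t / (1 + t)) • x₀ = x := by
    match_scalars <;> (field_simp; try ring)
  rw [h6, e, smul_eq_mul, smul_eq_mul] at h5
  have h7 := mul_nonpos_of_nonneg_of_nonpos (show 0 ≤ 1 / (1 + t) by positivity) t1
  have h8 := mul_neg_of_pos_of_neg (show 0 < t / (1 + t) by positivity) h3
  linarith

/-- A graph over the unit ball. -/
def Gr_Un (n : ℕ) (c : ℝ) : Set (Eu n × ℝ) := {p | ‖p.1‖ ≤ 1 ∧ p.2 = c * (1 - ‖p.1‖)}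

/-- The equator. -/
def Eq_Un (n : ℕ) : Set (Eu n × ℝ) := {p | ‖p.1‖ = 1 ∧ p.2 = 0}

/-- The region between two graphs. -/
def Rg_Un (n : ℕ) (a b : ℝ) : Set (Eu n × ℝ) :=
  {p | a * (1 - ‖p.1‖) ≤ p.2 ∧ p.2 ≤ b * (1 - ‖p.1‖)}

theorem bp_gr_Un (n : ℕ) (c : ℝ) : BP n (Gr_Un n c) (Eq_Un n) := by
  have e : Gr_Un n c = (fun x => (x, c * (1 - ‖x‖))) '' Metric.closedBall 0 1 := by
    ext p
    constructor
    · rintro ⟨h1, h2⟩
      exact ⟨p.1, mem_closedBall_zero_iff.2 h1, Prod.ext rfl h2.symm⟩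
    · rintro ⟨x, hx, rfl⟩
      exact ⟨mem_closedBall_zero_iff.1 hx, rfl⟩
  refine ⟨e ▸ (isCompact_closedBall _ _).image (by fun_prop), Prod.fst,
    ⟨continuous_fst.continuousOn, fun p hp => mem_closedBall_zero_iff.2 hp.1,
      fun p hp q hq h => Prod.ext h (by rw [hp.2, hq.2, h]),
      fun x hx => ⟨(x, c * (1 - ‖x‖)), ⟨mem_closedBall_zero_iff.1 hx, rfl⟩, rfl⟩⟩,
    fun p hp => ⟨fun h => h.1, fun h => ⟨h, by rw [hp.2, h, sub_self, mul_zero]⟩⟩⟩

theorem gr_inter_Un {a b : ℝ} (h : a ≠ b) : Gr_Un n a ∩ Gr_Un n b = Eq_Un n := by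
  ext p
  constructor
  · rintro ⟨⟨-, h1⟩, -, h2⟩
    have h3 : 1 - ‖p.1‖ = 0 := (mul_eq_mul_right_iff.1 (h1.symm.trans h2)).resolve_left h
    exact ⟨by linarith, by rw [h1, h3, mul_zero]⟩
  · rintro ⟨h1, h2⟩
    exact ⟨⟨h1.le, by rw [h2, h1, sub_self, mul_zero]⟩, h1.le, by rw [h2, h1, sub_self, mul_zero]⟩

theorem rg_norm_Un {a b : ℝ} (h : a < b) {p : Eu n × ℝ} (hp : p ∈ Rg_Un n a b) : ‖p.1‖ ≤ 1 := by
  have h1 := hp.1.trans hp.2
  by_contra k
  nlinarith [not_le.1 k]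

theorem gr_sub_Un {a b : ℝ} (h : a < b) : Gr_Un n a ∪ Gr_Un n b ⊆ Rg_Un n a b := by
  rintro p (⟨h1, h2⟩ | ⟨h1, h2⟩)
  · exact ⟨h2.ge, h2.le.trans (mul_le_mul_of_nonneg_right h.le (by linarith))⟩
  · exact ⟨(mul_le_mul_of_nonneg_right h.le (by linarith)).trans h2.ge, h2.le⟩

theorem bp_rg_Un (n : ℕ) {a b : ℝ} (ha : a ≤ 0) (hb : 0 ≤ b) (h : a < b) :
    BP (n + 1) (Rg_Un n a b) (Gr_Un n a ∪ Gr_Un n b) := by
  let φ : Eu n × ℝ → ℝ := fun p => max (a * (1 - ‖p.1‖) - p.2) (p.2 - b * (1 - ‖p.1‖))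
  have c : Continuous φ := by fun_prop
  have cv : ConvexOn ℝ Set.univ φ := ⟨convex_univ, fun p _ q _ s t hs ht hst => by
    have h1 : ‖(s • p + t • q).1‖ ≤ s * ‖p.1‖ + t * ‖q.1‖ := by
      refine (norm_add_le (s • p.1) (t • q.1)).trans ?_
      rw [norm_smul, norm_smul, Real.norm_of_nonneg hs, Real.norm_of_nonneg ht]
    have h2 : (s • p + t • q).2 = s * p.2 + t * q.2 := rfl
    have a1 := mul_le_mul_of_nonneg_left (le_max_left _ _ : _ ≤ φ p) hs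
    have a2 := mul_le_mul_of_nonneg_left (le_max_right _ _ : _ ≤ φ p) hs
    have a3 := mul_le_mul_of_nonneg_left (le_max_left _ _ : _ ≤ φ q) ht
    have a4 := mul_le_mul_of_nonneg_left (le_max_right _ _ : _ ≤ φ q) ht
    have a5 := mul_le_mul_of_nonneg_left h1 (neg_nonneg.2 ha)
    have a6 := mul_le_mul_of_nonneg_left h1 hb
    have a7 : a * (s + t) = a := by rw [hst, mul_one]
    have a8 : b * (s + t) = b := by rw [hst, mul_one]
    rw [smul_eq_mul, smul_eq_mul]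
    refine max_le ?_ ?_
    · rw [h2]
      linarith
    · rw [h2]
      linarith⟩
  have h0 : φ (0, (a + b) / 2) < 0 := by
    refine max_lt ?_ ?_ <;> simp only [norm_zero] <;> linarith
  have e1 : {p | φ p ≤ 0} = Rg_Un n a b :=
    Set.ext fun p => ⟨fun h => ⟨sub_nonpos.1 (le_of_max_le_left h),
      sub_nonpos.1 (le_of_max_le_right h)⟩, fun h => max_le (sub_nonpos.2 h.1) (sub_nonpos.2 h.2)⟩
  have k : IsCompact (Rg_Un n a b) := by
    refine ((isCompact_closedBall (0 : Eu n) 1).prod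
      (isCompact_Icc (a := a) (b := b))).of_isClosed_subset
      (e1 ▸ isClosed_le c continuous_const) fun p hp => ?_
    have h1 := rg_norm_Un h hp
    have h2 := norm_nonneg p.1
    exact ⟨mem_closedBall_zero_iff.2 h1, by nlinarith [hp.1], by nlinarith [hp.2]⟩
  have bp := bp_convex (N := Eu n × ℝ) (n := n + 1) (by simp) (s := {p | φ p ≤ 0})
    (by simpa using cv.convex_le 0) (e1 ▸ k)
    ⟨_, interior_maximal (fun p (hp : φ p < 0) => hp.le) (isOpen_lt c continuous_const) h0⟩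
  rw [front_Un c cv h0, e1] at bp
  refine bp.congr (Set.ext fun p => and_congr_right fun hp => ?_)
  have h1 := rg_norm_Un h hp
  constructor
  · intro e
    rcases max_eq_iff.1 (show φ p = 0 from e) with e | e
    · exact Or.inl ⟨h1, by linarith [e.1]⟩
    · exact Or.inr ⟨h1, by linarith [e.1]⟩
  · rintro (e | e)
    · exact max_eq_iff.2 (Or.inl ⟨by linarith [e.2], by linarith [e.2, hp.2]⟩)
    · exact max_eq_iff.2 (Or.inr ⟨by linarith [e.2], by linarith [e.2, hp.1]⟩)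

theorem first_Un [Nonempty F] (h : BP n X Y) (h' : BP n X' Y') :
    ∃ g, HM X X' g ∧ HM (X ∩ Y) (X' ∩ Y') g := by
  obtain ⟨g, hg⟩ := h.sp.hm h'.sp
  obtain ⟨k, h1, h2⟩ := h.ext h' hg
  exact ⟨k, h1, hg.congr h2⟩

theorem two_Un {D1 D2 C : Set E} {D1' D2' C' : Set F} {g : E → F} (k1 : IsCompact D1)
    (h2 : BP n D2 C) (hi : D1 ∩ D2 = C) (h2' : BP n D2' C') (hi' : D1' ∩ D2' = C')
    (hg : HM D1 D1' g) (hc : HM (D1 ∩ C) (D1' ∩ C') g) :
    ∃ k, HM (D1 ∪ D2) (D1' ∪ D2') k ∧ Set.EqOn k g D1 ∧ k '' D2 = D2' := by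
  have a1 : D1 ∩ C = C := Set.inter_eq_right.2 (hi ▸ Set.inter_subset_left)
  have a2 : D2 ∩ C = C := Set.inter_eq_right.2 (hi ▸ Set.inter_subset_right)
  have a3 : D1' ∩ C' = C' := Set.inter_eq_right.2 (hi' ▸ Set.inter_subset_left)
  have a4 : D2' ∩ C' = C' := Set.inter_eq_right.2 (hi' ▸ Set.inter_subset_right)
  rw [a1, a3] at hc
  obtain ⟨g2, b1, b2⟩ := h2.ext h2' (g := g) (by rwa [a2, a4])
  rw [a2] at b2
  obtain ⟨k, c1, c2, c3⟩ := hg.glue b1 k1 h2.1 (by rw [hi]; exact b2.symm)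
    (by rw [hi, hi', hc.image])
  exact ⟨k, c1, c2, c3.image_eq.trans b1.image⟩

theorem mem_jn_Un {S : Set (Eu n × ℝ)} (hS : ∀ p ∈ S, p.2 = 0) {y : Eu n × ℝ} :
    y ∈ jn ((0, 1) : Eu n × ℝ) S ↔
      y = (0, 1) ∨ (0 ≤ y.2 ∧ y.2 < 1 ∧ ((1 - y.2)⁻¹ • y.1, (0 : ℝ)) ∈ S) := by
  refine or_congr_right ⟨?_, ?_⟩
  · rintro ⟨t, ht, x, hx, rfl⟩
    have e1 : (t • ((0, 1) : Eu n × ℝ) + (1 - t) • x).2 = t := by simp [hS x hx]
    have e2 : (t • ((0, 1) : Eu n × ℝ) + (1 - t) • x).1 = (1 - t) • x.1 := by simp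
    rw [e1, e2, inv_smul_smul₀ (sub_pos.2 ht.2).ne', ← hS x hx]
    exact ⟨hS x hx ▸ ht.1, ht.2, hx⟩
  · rintro ⟨h1, h2, h3⟩
    refine ⟨y.2, ⟨h1, h2⟩, _, h3, Prod.ext ?_ ?_⟩
    · simp [smul_inv_smul₀ (sub_pos.2 h2).ne']
    · simp

theorem norm_inv_Un {t : ℝ} (h : t < 1) (x : Eu n) : ‖(1 - t)⁻¹ • x‖ = ‖x‖ / (1 - t) := by
  rw [norm_smul, Real.norm_of_nonneg (inv_nonneg.2 (sub_pos.2 h).le), inv_mul_eq_div]

theorem jn_gr_Un : jn ((0, 1) : Eu n × ℝ) (Gr_Un n 0) = Rg_Un n 0 1 := by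
  ext y
  rw [mem_jn_Un fun p hp => hp.2.trans (zero_mul _)]
  constructor
  · rintro (rfl | ⟨h1, h2, h3, -⟩)
    · exact ⟨by simp, by simp⟩
    · rw [norm_inv_Un h2, div_le_one (sub_pos.2 h2)] at h3
      exact ⟨by linarith, by linarith⟩
  · rintro ⟨h1, h2⟩
    have h3 := norm_nonneg y.1
    by_cases h : y.2 < 1
    · refine Or.inr ⟨by linarith, h, ?_, (zero_mul _).symm⟩
      rw [norm_inv_Un h, div_le_one (sub_pos.2 h)]
      linarith
    · exact Or.inl (Prod.ext (norm_eq_zero.1 (by linarith)) (by linarith))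

theorem jn_eq_Un : jn ((0, 1) : Eu n × ℝ) (Eq_Un n) = Gr_Un n 1 := by
  ext y
  rw [mem_jn_Un fun p hp => hp.2]
  constructor
  · rintro (rfl | ⟨h1, h2, h3, -⟩)
    · exact ⟨by simp, by simp⟩
    · rw [norm_inv_Un h2, div_eq_one_iff_eq (sub_pos.2 h2).ne'] at h3
      exact ⟨by linarith, by linarith⟩
  · rintro ⟨h1, h2⟩
    have h3 := norm_nonneg y.1
    by_cases h : y.2 < 1
    · refine Or.inr ⟨by linarith, h, ?_, rfl⟩
      rw [norm_inv_Un h, div_eq_one_iff_eq (sub_pos.2 h).ne']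
      linarith
    · exact Or.inl (Prod.ext (norm_eq_zero.1 (by linarith)) (by linarith))

theorem apex_Un : Apex ((0, 1) : Eu n × ℝ) (Gr_Un n 0) := by
  have e1 : ∀ (t : ℝ), ∀ x ∈ Gr_Un n 0, (t • ((0, 1) : Eu n × ℝ) + (1 - t) • x).2 = t :=
    fun t x hx => by simp [hx.2]
  refine ⟨fun t ht x hx e => ht.2.ne ?_, fun t ht s _ x hx y hy e => ?_⟩
  · rw [← e1 t x hx, e]
  · have h : t = s := by rw [← e1 t x hx, e, e1 s y hy]
    subst h
    exact ⟨rfl, smul_right_injective _ (sub_pos.2 ht.2).ne' (add_left_cancel e)⟩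

theorem BP.cone {E : Type} [AddCommGroup E] [Module ℝ E] [TopologicalSpace E]
    [IsTopologicalAddGroup E] [ContinuousSMul ℝ E] [T2Space E] {p : E} {X Y : Set E}
    (h : BP n X Y) (hp : Apex p X) : BP (n + 1) (jn p X) (X ∪ jn p (X ∩ Y)) := by
  obtain ⟨g, h1, h2⟩ := first_Un h (bp_gr_Un n 0)
  obtain ⟨k, k1, k2, k3⟩ := jn_map hp apex_Un h.1 h1
  have e : Gr_Un n 0 ∩ Eq_Un n = Eq_Un n :=
    Set.inter_eq_right.2 (gr_inter_Un (n := n) zero_ne_one ▸ Set.inter_subset_left)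
  have e2 : k '' (X ∪ jn p (X ∩ Y)) = Gr_Un n 0 ∪ Gr_Un n 1 := by
    rw [Set.image_union, k2.image_eq, h1.image, k3 _ Set.inter_subset_left, h2.image, e, jn_eq_Un]
  rw [jn_gr_Un] at k1
  refine (bp_rg_Un n le_rfl zero_le_one zero_lt_one).comap (jn_compact h.1) k1 fun x hx => ?_
  rw [← e2, k1.mem_image (Set.union_subset (subset_jn p X) (jn_mono Set.inter_subset_left)) hx]

theorem BP.prod (h : BP n X Y) :
    BP (n + 1) (X ×ˢ Set.Icc (0 : ℝ) 1) (X ×ˢ ({0, 1} : Set ℝ) ∪ Y ×ˢ Set.Icc (0 : ℝ) 1) := by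
  obtain ⟨k, g, hg, he⟩ := h
  have bp := bp_convex (N := Eu n × ℝ) (n := n + 1) (by simp)
    ((convex_closedBall (0 : Eu n) 1).prod (convex_Icc (0 : ℝ) 1))
    ((isCompact_closedBall _ _).prod isCompact_Icc) (by
      rw [interior_prod_eq, interior_Icc, interior_closedBall _ one_ne_zero]
      exact ⟨(0, 1 / 2), Metric.mem_ball_self one_pos, by norm_num, by norm_num⟩)
  rw [frontier_prod_eq, frontier_Icc zero_le_one, frontier_closedBall _ one_ne_zero,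
    Metric.isClosed_closedBall.closure_eq, closure_Icc] at bp
  refine bp.comap (f := Prod.map g id) (k.prod isCompact_Icc)
    ⟨hg.1.prodMap continuousOn_id, hg.2.prodMap (Set.bijOn_id _)⟩ fun x hx => ?_
  refine or_congr ⟨fun e => ⟨hg.2.1 hx.1, e.2⟩, fun e => ⟨hx.1, e.2⟩⟩ (and_congr_left fun _ => ?_)
  exact (he x.1 hx.1).trans mem_sphere_zero_iff_norm.symm

theorem SP.of_two {D1 D2 C : Set E} (h1 : BP n D1 C) (h2 : BP n D2 C) (hi : D1 ∩ D2 = C) :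
    SP (n + 1) (D1 ∪ D2) := by
  obtain ⟨g, g1, g2⟩ := first_Un h1 (bp_gr_Un n 0)
  obtain ⟨k, k1, -⟩ := two_Un h1.1 h2 hi (bp_gr_Un n 1) (gr_inter_Un zero_ne_one) g1 g2
  have s := (bp_rg_Un n le_rfl zero_le_one zero_lt_one).sp
  rw [Set.inter_eq_right.2 (gr_sub_Un zero_lt_one)] at s
  exact s.comap (h1.1.union h2.1) k1

/-- The union of two balls along a disc in their boundaries. -/
theorem BP.union {X1 X2 Y1 Y2 D D1 D2 C : Set E} (h1 : BP (n + 1) X1 Y1) (h2 : BP (n + 1) X2 Y2)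
    (e1 : X1 ∩ Y1 = D ∪ D1) (e2 : X2 ∩ Y2 = D ∪ D2) (hi : X1 ∩ X2 = D) (hD : BP n D C)
    (hD1 : BP n D1 C) (hD2 : BP n D2 C) (c1 : D ∩ D1 = C) (c2 : D ∩ D2 = C) :
    BP (n + 1) (X1 ∪ X2) (D1 ∪ D2) := by
  have m : (-1 : ℝ) < 0 := neg_one_lt_zero
  obtain ⟨g, g1, g2⟩ := first_Un hD (bp_gr_Un n 0)
  obtain ⟨k1, a1, a2, a3⟩ := two_Un hD.1 hD1 c1 (bp_gr_Un n 1) (gr_inter_Un zero_ne_one) g1 g2
  obtain ⟨k2, b1, b2, b3⟩ := two_Un hD.1 hD2 c2 (bp_gr_Un n (-1)) (gr_inter_Un m.ne') g1 g2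
  obtain ⟨f1, a4, a5⟩ := h1.ext (bp_rg_Un n le_rfl zero_le_one zero_lt_one) (g := k1)
    (by rwa [e1, Set.inter_eq_right.2 (gr_sub_Un zero_lt_one)])
  obtain ⟨f2, b4, b5⟩ := h2.ext (bp_rg_Un n m.le le_rfl m) (g := k2)
    (by rwa [e2, Set.inter_eq_right.2 (gr_sub_Un m), Set.union_comm (Gr_Un n (-1))])
  rw [e1] at a5
  rw [e2] at b5
  have a6 : Set.EqOn f1 g D := (a5.mono Set.subset_union_left).trans a2
  have b6 : Set.EqOn f2 g D := (b5.mono Set.subset_union_left).trans b2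
  obtain ⟨k, d1, d2, d3⟩ := a4.glue b4 h1.1 h2.1 (by rw [hi]; exact a6.trans b6.symm) (by
    rw [hi, a6.image_eq, g1.image]
    exact fun p hp => ⟨rg_norm_Un m hp.2, le_antisymm hp.2.2 hp.1.1⟩)
  have u : Rg_Un n 0 1 ∪ Rg_Un n (-1) 0 = Rg_Un n (-1) 1 := by
    ext p
    constructor
    · rintro (hp | hp)
      · have := rg_norm_Un zero_lt_one hp
        exact ⟨by linarith [hp.1], hp.2⟩
      · have := rg_norm_Un m hp
        exact ⟨hp.1, by linarith [hp.2]⟩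
    · intro hp
      rcases le_total 0 p.2 with e | e
      · exact Or.inl ⟨by linarith, hp.2⟩
      · exact Or.inr ⟨hp.1, by linarith⟩
  have s1 : D1 ⊆ X1 := Set.subset_union_right.trans (e1.ge.trans Set.inter_subset_left)
  have s2 : D2 ⊆ X2 := Set.subset_union_right.trans (e2.ge.trans Set.inter_subset_left)
  have e : k '' (D1 ∪ D2) = Gr_Un n (-1) ∪ Gr_Un n 1 := by
    rw [Set.image_union, (d2.mono s1).image_eq, (d3.mono s2).image_eq,
      (a5.mono Set.subset_union_right).image_eq, (b5.mono Set.subset_union_right).image_eq, a3, b3,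
      Set.union_comm]
  rw [u] at d1
  refine (bp_rg_Un n m.le zero_le_one (m.trans zero_lt_one)).comap (h1.1.union h2.1) d1
    fun x hx => ?_
  rw [← e, d1.mem_image (Set.union_subset_union s1 s2) hx]

theorem norm_sh_Un {p : Eu n × ℝ} (hp : p ∈ Metric.sphere (0 : Eu n) 1 ×ˢ Set.Icc (0 : ℝ) 1) :
    ‖(1 - p.2 / 2) • p.1‖ = 1 - p.2 / 2 := by
  rw [norm_smul, mem_sphere_zero_iff_norm.1 hp.1, mul_one,
    Real.norm_of_nonneg (by linarith [hp.2.2])]

theorem hm_sh_Un : HM (Metric.sphere (0 : Eu n) 1 ×ˢ Set.Icc (0 : ℝ) 1)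
    {x : Eu n | 1 / 2 ≤ ‖x‖ ∧ ‖x‖ ≤ 1} fun p => (1 - p.2 / 2) • p.1 := by
  refine ⟨Continuous.continuousOn (by fun_prop), fun p hp => ?_, fun p hp q hq e => ?_,
    fun x hx => ?_⟩
  · change _ ≤ ‖(1 - p.2 / 2) • p.1‖ ∧ ‖(1 - p.2 / 2) • p.1‖ ≤ _
    rw [norm_sh_Un hp]
    exact ⟨by linarith [hp.2.2], by linarith [hp.2.1]⟩
  · have e' : (1 - p.2 / 2) • p.1 = (1 - q.2 / 2) • q.1 := e
    have h1 := norm_sh_Un hp
    rw [e', norm_sh_Un hq] at h1
    rw [h1] at e'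
    exact Prod.ext (smul_right_injective _ (by linarith [hp.2.2]) e') (by linarith)
  · have h0 : ‖x‖ ≠ 0 := by linarith [hx.1]
    refine ⟨(‖x‖⁻¹ • x, 2 * (1 - ‖x‖)), ⟨?_, by linarith [hx.2], by linarith [hx.1]⟩, ?_⟩
    · rw [mem_sphere_zero_iff_norm, norm_smul, norm_inv, norm_norm, inv_mul_cancel₀ h0]
    · have e : 1 - 2 * (1 - ‖x‖) / 2 = ‖x‖ := by ring
      change (1 - 2 * (1 - ‖x‖) / 2) • ‖x‖⁻¹ • x = x
      rw [e, smul_inv_smul₀ h0]

theorem Shell.cap {W S0 S1 B : Set E} (h : Shell W S0 S1) (hB : BP 3 B S1) (hi : B ∩ W = S1) :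
    BP 3 (W ∪ B) S0 := by
  obtain ⟨k, s0, s1, g, hg, he⟩ := h
  have hF := hg.comp hm_sh_Un
  obtain ⟨K, hK⟩ : ∃ K, K = (fun p : Eu 3 × ℝ => (1 - p.2 / 2) • p.1) ∘ g := ⟨_, rfl⟩
  have nK : ∀ x ∈ W, ‖K x‖ = 1 - (g x).2 / 2 := fun x hx => by
    rw [hK]
    exact norm_sh_Un (hg.2.1 hx)
  rw [← hK] at hF
  have im : ∀ (S : Set E) (r : ℝ), S ⊆ W → 1 / 2 ≤ r → r ≤ 1 → (∀ x ∈ W, x ∈ S ↔ ‖K x‖ = r) →
      K '' S = Metric.sphere 0 r := fun S r h1 h2 h3 h4 => by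
    ext y
    rw [mem_sphere_zero_iff_norm]
    constructor
    · rintro ⟨x, hx, rfl⟩
      exact (h4 x (h1 hx)).1 hx
    · intro hy
      obtain ⟨x, hx, rfl⟩ := hF.2.2.2 (show y ∈ {x : Eu 3 | 1 / 2 ≤ ‖x‖ ∧ ‖x‖ ≤ 1} from
        ⟨hy ▸ h2, hy ▸ h3⟩)
      exact ⟨x, (h4 x hx).2 hy, rfl⟩
  have i0 := im S0 1 s0 (by norm_num) le_rfl fun x hx => (he x hx).1.trans (by
    rw [nK x hx]
    constructor <;> intro e <;> linarith)
  have i1 := im S1 (1 / 2) s1 le_rfl (by norm_num) fun x hx => (he x hx).2.trans (by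
    rw [nK x hx]
    constructor <;> intro e <;> linarith)
  have bp := bp_convex (N := Eu 3) (n := 3) (by simp) (convex_closedBall (0 : Eu 3) (1 / 2))
    (isCompact_closedBall _ _) (by
      rw [interior_closedBall _ (by norm_num)]
      exact ⟨0, Metric.mem_ball_self (by norm_num)⟩)
  rw [frontier_closedBall _ (by norm_num)] at bp
  have wb : W ∩ B = S1 := by rw [Set.inter_comm, hi]
  obtain ⟨l, l1, l2, -⟩ := two_Un k hB wb bp (D1' := {x : Eu 3 | 1 / 2 ≤ ‖x‖ ∧ ‖x‖ ≤ 1})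
    (Set.ext fun y => by
      rw [mem_sphere_zero_iff_norm]
      exact ⟨fun e => le_antisymm (mem_closedBall_zero_iff.1 e.2) e.1.1,
        fun e => ⟨⟨e.ge, by rw [e]; norm_num⟩, mem_closedBall_zero_iff.2 e.le⟩⟩) hF (by
      rw [Set.inter_eq_right.2 s1, ← i1,
        Set.inter_eq_right.2 ((Set.image_mono s1).trans hF.image.le)]
      exact hF.restrict s1)
  have u : {x : Eu 3 | 1 / 2 ≤ ‖x‖ ∧ ‖x‖ ≤ 1} ∪ Metric.closedBall 0 (1 / 2) =
      Metric.closedBall 0 1 := by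
    ext y
    simp only [Set.mem_union, mem_closedBall_zero_iff]
    constructor
    · rintro (e | e)
      · exact e.2
      · linarith
    · exact fun e => (le_total (1 / 2) ‖y‖).imp_left fun e' => ⟨e', e⟩
  rw [u] at l1
  refine (bp_ball 3).comap (k.union hB.1) l1 fun x hx => ?_
  rw [← i0, ← (l2.mono s0).image_eq, l1.mem_image (s0.trans Set.subset_union_left) hx]

end Pool.Agent.MP_6374aa_g

end

section

/-! Realisations of flag complexes. -/

namespace Pool.Agent.MP_6374aa_g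

open Pool.Agent.MP_6374aa_gt Classical

variable {V V' : Type} {G : SimpleGraph V} {G' : SimpleGraph V'} {A : Set V} {A' : Set V'}

theorem fin_Rz {x : V → ℝ} (hx : x ∈ Rz G A) : x.support.Finite := by
  by_contra h
  have := finsum_of_infinite_support h
  rw [hx.2.2.2] at this
  exact one_ne_zero this

theorem ne_Rz {x : V → ℝ} (hx : x ∈ Rz G A) : ∃ v, x v ≠ 0 := by
  by_contra h
  have := finsum_eq_zero_of_forall_eq_zero (f := x) fun v => by_contra fun hv => h ⟨v, hv⟩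
  rw [hx.2.2.2] at this
  exact one_ne_zero this

theorem le_Rz {x : V → ℝ} (hx : x ∈ Rz G A) (v : V) : x v ≤ 1 :=
  (single_le_finsum v (fin_Rz hx) hx.1).trans_eq hx.2.2.2

theorem single_Rz {a : V} (ha : a ∈ A) : Pi.single a (1 : ℝ) ∈ Rz G A := by
  have s : ∀ v, (Pi.single a (1 : ℝ) : V → ℝ) v ≠ 0 → v = a := fun v hv =>
    by_contra fun h => hv (Pi.single_eq_of_ne h _)
  refine ⟨fun v => ?_, fun v hv => s v hv ▸ ha,
    fun u v hu hv => Or.inl ((s u hu).trans (s v hv).symm), ?_⟩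
  · rcases eq_or_ne v a with rfl | hv <;> simp [*]
  · rw [finsum_eq_single _ a fun v hv => Pi.single_eq_of_ne hv _, Pi.single_eq_same]

theorem sum_Rz (c : V) (t s : ℝ) {x : V → ℝ} (hx : x.support.Finite) :
    ∑ᶠ v, (t • Pi.single c (1 : ℝ) + s • x : V → ℝ) v = t + s * ∑ᶠ v, x v := by
  simp only [Pi.add_apply, Pi.smul_apply, smul_eq_mul]
  rw [finsum_add_distrib, ← mul_finsum, ← mul_finsum,
    finsum_eq_single _ c fun v hv => Pi.single_eq_of_ne hv _, Pi.single_eq_same, mul_one]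
  · exact (Set.finite_singleton c).subset fun v hv =>
      by_contra fun h => right_ne_zero_of_mul hv (Pi.single_eq_of_ne h _)
  · exact hx.subset fun v hv => right_ne_zero_of_mul hv

theorem pf_ne_Rz {f : V' → V} {x : V' → ℝ} {v : V} (h : pf f x v ≠ 0) :
    ∃ a, x a ≠ 0 ∧ f a = v := by
  by_contra hn
  exact h (finsum_mem_of_eqOn_zero fun a ha => by_contra fun h0 => hn ⟨a, h0, ha⟩)

theorem pf_mem_Rz {f : V' → V} (hf : Set.InjOn f A') {x : V' → ℝ} (hx : ∀ u, x u ≠ 0 → u ∈ A')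
    {a : V'} (ha : a ∈ A') : pf f x (f a) = x a := by
  unfold pf
  rw [finsum_mem_inter_support_eq' x {u | f u = f a} {a} fun u hu =>
    ⟨fun h => hf (hx u hu) ha h, fun h => congrArg f h⟩, finsum_mem_singleton]

theorem rz_supp {x : V → ℝ} (hx : x ∈ Rz G A) : ∃ s ∈ sA G A, ∀ v, x v ≠ 0 ↔ v ∈ s := by
  have hf := fin_Rz hx
  refine ⟨hf.toFinset, ⟨?_, fun v hv => hx.2.1 v (by simpa using hv), fun u hu v hv huv =>
    (hx.2.2.1 u v (by simpa using hu) (by simpa using hv)).resolve_left huv⟩, fun v => by simp⟩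
  obtain ⟨v, hv⟩ := ne_Rz hx
  exact ⟨v, by simpa using hv⟩

theorem rz_of_supp {x : V → ℝ} (hx : x ∈ Rz G A) {X : Set V} (h : ∀ v, x v ≠ 0 → v ∈ X) :
    x ∈ Rz G X := by
  exact ⟨hx.1, h, hx.2.2⟩

theorem rz_mono {X : Set V} (h : X ⊆ A) : Rz G X ⊆ Rz G A := by
  exact fun x hx => rz_of_supp hx fun v hv => h (hx.2.1 v hv)

theorem rz_inter (X Y : Set V) : Rz G X ∩ Rz G Y = Rz G (X ∩ Y) := by
  ext x
  exact ⟨fun h => rz_of_supp h.1 fun v hv => ⟨h.1.2.1 v hv, h.2.2.1 v hv⟩,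
    fun h => ⟨rz_mono Set.inter_subset_left h, rz_mono Set.inter_subset_right h⟩⟩

theorem rz_empty : Rz G (∅ : Set V) = ∅ := by
  refine Set.eq_empty_of_forall_notMem fun x hx => ?_
  obtain ⟨v, hv⟩ := ne_Rz hx
  exact hx.2.1 v hv

theorem rz_singleton (a : V) : Rz G {a} = {Pi.single a 1} := by
  ext x
  refine ⟨fun hx => ?_, fun hx => ?_⟩
  · have h0 : ∀ v, v ≠ a → x v = 0 := fun v hv => by_contra fun h => hv (hx.2.1 v h)
    have h1 : x a = 1 := (finsum_eq_single x a h0).symm.trans hx.2.2.2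
    funext v
    rcases eq_or_ne v a with rfl | hv
    · simp [h1]
    · simp [h0 v hv, hv]
  · rw [Set.mem_singleton_iff.1 hx]
    exact single_Rz (Set.mem_singleton a)

theorem rz_compact (hf : A.Finite) : IsCompact (Rz G A) := by
  have hk : IsCompact (Set.univ.pi fun _ : V => Set.Icc (0 : ℝ) 1) :=
    isCompact_univ_pi fun _ => isCompact_Icc
  refine hk.of_isClosed_subset ?_ fun x hx v _ => ⟨hx.1 v, le_Rz hx v⟩
  have e : Rz G A = ((⋂ v, {x : V → ℝ | 0 ≤ x v}) ∩ ⋂ v, ⋂ (_ : v ∉ A), {x : V → ℝ | x v = 0}) ∩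
      ((⋂ u, ⋂ v, ⋂ (_ : ¬ Adq G u v), {x : V → ℝ | x u * x v = 0}) ∩
        {x : V → ℝ | ∑ v ∈ hf.toFinset, x v = 1}) := by
    ext x
    simp only [Set.mem_inter_iff, Set.mem_iInter, Set.mem_ofPred_eq]
    have s : (∀ v, x v ≠ 0 → v ∈ A) → ∑ᶠ v, x v = ∑ v ∈ hf.toFinset, x v := fun h =>
      finsum_eq_sum_of_support_subset x fun v hv => by simpa using h v hv
    constructor
    · rintro ⟨h1, h2, h3, h4⟩
      refine ⟨⟨h1, fun v hv => by_contra fun h => hv (h2 v h)⟩, fun u v huv => ?_,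
        (s h2).symm.trans h4⟩
      by_contra h
      exact huv (h3 u v (left_ne_zero_of_mul h) (right_ne_zero_of_mul h))
    · rintro ⟨⟨h1, h2⟩, h3, h4⟩
      have h5 : ∀ v, x v ≠ 0 → v ∈ A := fun v hv => by_contra fun h => hv (h2 v h)
      exact ⟨h1, h5, fun u v hu hv => by_contra fun h => mul_ne_zero hu hv (h3 u v h),
        (s h5).trans h4⟩
  rw [e]
  refine IsClosed.inter (IsClosed.inter ?_ ?_) (IsClosed.inter ?_ ?_)
  · exact isClosed_iInter fun v => isClosed_le continuous_const (continuous_apply v)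
  · exact isClosed_iInter fun v => isClosed_iInter fun _ =>
      isClosed_eq (continuous_apply v) continuous_const
  · exact isClosed_iInter fun u => isClosed_iInter fun v => isClosed_iInter fun _ =>
      isClosed_eq ((continuous_apply u).mul (continuous_apply v)) continuous_const
  · exact isClosed_eq (continuous_finsetSum _ fun v _ => continuous_apply v) continuous_const

theorem single_mem_rz {a : V} : Pi.single a (1 : ℝ) ∈ Rz G A ↔ a ∈ A := by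
  exact ⟨fun h => h.2.1 a (by simp), single_Rz⟩

theorem rz_subset_iff {X Y : Set V} : Rz G X ⊆ Rz G Y ↔ X ⊆ Y := by
  exact ⟨fun h a ha => single_mem_rz.1 (h (single_mem_rz.2 ha)), rz_mono⟩

theorem rz_union {X Y : Set V} (h : NE G X Y) : Rz G (X ∪ Y) = Rz G X ∪ Rz G Y := by
  refine Set.Subset.antisymm (fun x hx => ?_)
    (Set.union_subset (rz_mono Set.subset_union_left) (rz_mono Set.subset_union_right))
  by_cases h1 : ∀ v, x v ≠ 0 → v ∈ X
  · exact Or.inl (rz_of_supp hx h1)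
  refine Or.inr (rz_of_supp hx fun a ha => by_contra fun hY => h1 fun b hb => by_contra fun hX => ?_)
  have a1 : a ∈ X := (hx.2.1 a ha).resolve_right hY
  have b1 : b ∈ Y := (hx.2.1 b hb).resolve_left hX
  rcases hx.2.2.1 a b ha hb with rfl | hab
  · exact hX a1
  · exact h a ⟨a1, hY⟩ b ⟨b1, hX⟩ hab

theorem rz_cover {ι : Type} {I : Set ι} {X : ι → Set V} (h1 : ∀ i ∈ I, X i ⊆ A)
    (h2 : ∀ s ∈ sA G A, ∃ i ∈ I, ↑s ⊆ X i) : Rz G A = ⋃ i ∈ I, Rz G (X i) := by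
  refine Set.Subset.antisymm (fun x hx => ?_) (Set.iUnion₂_subset fun i hi => rz_mono (h1 i hi))
  obtain ⟨s, hs, he⟩ := rz_supp hx
  obtain ⟨i, hi, hX⟩ := h2 s hs
  exact Set.mem_biUnion hi (rz_of_supp hx fun v hv => hX ((he v).1 hv))

theorem rz_congr {G2 : SimpleGraph V} (h : ∀ a ∈ A, ∀ b ∈ A, G.Adj a b ↔ G2.Adj a b) :
    Rz G A = Rz G2 A := by
  ext x
  exact ⟨fun hx => ⟨hx.1, hx.2.1, fun u v hu hv => (hx.2.2.1 u v hu hv).imp_right
      (h u (hx.2.1 u hu) v (hx.2.1 v hv)).1, hx.2.2.2⟩,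
    fun hx => ⟨hx.1, hx.2.1, fun u v hu hv => (hx.2.2.1 u v hu hv).imp_right
      (h u (hx.2.1 u hu) v (hx.2.1 v hv)).2, hx.2.2.2⟩⟩

theorem rb_sub (T : Set V) : Rb G A (sub T) = Rz G (A ∩ T) := by
  ext x
  constructor
  · rintro ⟨hx, s, -, h2, h3⟩
    exact rz_of_supp hx fun v hv => ⟨hx.2.1 v hv, h2 (h3 v hv)⟩
  · intro hx
    obtain ⟨s, hs, he⟩ := rz_supp hx
    exact ⟨rz_mono Set.inter_subset_left hx, s, ⟨fun v hv => (hs.2.1 hv).1, hs.2.2⟩,
      fun v hv => (hs.2.1 hv).2, fun v hv => (he v).1 hv⟩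

theorem rb_congr {β β' : Finset V → Prop} (h : ∀ s ∈ sA G A, β s ↔ β' s) : Rb G A β = Rb G A β' := by
  ext x
  refine and_congr_right fun hx => exists_congr fun s => and_congr_right fun hs =>
    and_congr_left fun h3 => h s ⟨?_, hs⟩
  obtain ⟨v, hv⟩ := ne_Rz hx
  exact ⟨v, h3 v hv⟩

theorem rz_apex {c : V} (hc : c ∉ A) : Apex (Pi.single c (1 : ℝ)) (Rz G A) := by
  have h0 : ∀ x ∈ Rz G A, x c = 0 := fun x hx => by_contra fun h => hc (hx.2.1 c h)
  refine ⟨fun t ht x hx he => ?_, fun t ht s _ x hx y hy he => ?_⟩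
  · have := congrFun he c
    simp [h0 x hx] at this
    exact ht.2.ne this
  · have e : t = s := by simpa [h0 x hx, h0 y hy] using congrFun he c
    subst e
    exact ⟨rfl, smul_right_injective _ (sub_pos.2 ht.2).ne' (add_left_cancel he)⟩

theorem rz_cone {c : V} (h : ∀ a ∈ A, G.Adj c a) :
    Rz G (insert c A) = jn (Pi.single c (1 : ℝ)) (Rz G A) := by
  have hc : c ∉ A := fun hc => G.irrefl (h c hc)
  ext y
  constructor
  · intro hy
    have hf := fin_Rz hy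
    have hu : (Function.update y c 0).support.Finite :=
      hf.subset fun v hv => by
        rcases eq_or_ne v c with rfl | hv'
        · simp at hv
        · simpa [hv'] using hv
    have e1 : y = y c • Pi.single c (1 : ℝ) + Function.update y c 0 := by
      funext v
      rcases eq_or_ne v c with rfl | hv <;> simp [*]
    have e2 : ∑ᶠ v, Function.update y c 0 v = 1 - y c := by
      have := sum_Rz c (y c) 1 hu
      rw [one_smul, ← e1, hy.2.2.2] at this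
      linarith
    have u0 : ∀ v, 0 ≤ Function.update y c 0 v := fun v => by
      rcases eq_or_ne v c with rfl | hv
      · simp
      · simpa [hv] using hy.1 v
    have u1 : ∀ v, Function.update y c 0 v ≠ 0 → v ≠ c ∧ y v ≠ 0 := fun v hv => by
      rcases eq_or_ne v c with rfl | hv'
      · simp at hv
      · exact ⟨hv', by simpa [hv'] using hv⟩
    rcases (le_Rz hy c).eq_or_lt with h1 | h1
    · left
      have e3 : Function.update y c 0 = 0 := by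
        funext v
        refine le_antisymm ?_ (u0 v)
        have := single_le_finsum v hu u0
        rw [e2, h1, sub_self] at this
        exact this
      rw [e1, e3, h1, one_smul, add_zero]
    · have p0 : 0 < 1 - y c := sub_pos.2 h1
      refine Or.inr ⟨y c, ⟨hy.1 c, h1⟩, (1 - y c)⁻¹ • Function.update y c 0, ⟨fun v => ?_,
        fun v hv => ?_, fun u v hu hv => ?_, ?_⟩, ?_⟩
      · exact mul_nonneg (inv_nonneg.2 p0.le) (u0 v)
      · have := u1 v (right_ne_zero_of_mul hv)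
        exact (hy.2.1 v this.2).resolve_left this.1
      · exact hy.2.2.1 u v (u1 u (right_ne_zero_of_mul hu)).2 (u1 v (right_ne_zero_of_mul hv)).2
      · simp only [Pi.smul_apply, smul_eq_mul]
        rw [← mul_finsum, e2, inv_mul_cancel₀ p0.ne']
      · rw [smul_smul, mul_inv_cancel₀ p0.ne', one_smul]
        exact e1
  · rintro (rfl | ⟨t, ht, x, hx, rfl⟩)
    · exact single_Rz (Set.mem_insert c A)
    · have s1 : ∀ v, (t • Pi.single c (1 : ℝ) + (1 - t) • x : V → ℝ) v ≠ 0 → v = c ∨ x v ≠ 0 :=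
        fun v hv => by
          by_contra hn
          rw [not_or, not_not] at hn
          simp [hn.1, hn.2] at hv
      refine ⟨fun v => ?_, fun v hv => (s1 v hv).imp_right (hx.2.1 v), fun u v hu hv => ?_, ?_⟩
      · exact add_nonneg (mul_nonneg ht.1 ((single_Rz (G := G) (Set.mem_singleton c)).1 v))
          (mul_nonneg (sub_pos.2 ht.2).le (hx.1 v))
      · rcases s1 u hu with rfl | h1 <;> rcases s1 v hv with h2 | h2
        · exact Or.inl h2.symm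
        · exact Or.inr (h v (hx.2.1 v h2))
        · rw [h2]
          exact Or.inr (h u (hx.2.1 u h1)).symm
        · exact hx.2.2.1 u v h1 h2
      · rw [sum_Rz c t (1 - t) (fin_Rz hx), hx.2.2.2]
        ring

theorem rz_cone_sp {c : V} (h : ∀ a ∈ A, G.Adj c a) {n : ℕ} (hs : SP n (Rz G A)) :
    BP n (Rz G (insert c A)) (Rz G A) := by
  rw [rz_cone h]
  exact hs.cone (rz_apex fun hc => G.irrefl (h c hc))

theorem rz_cone_bp {c : V} (h : ∀ a ∈ A, G.Adj c a) {n : ℕ} {T : Set V}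
    (hs : BP n (Rz G A) (Rz G T)) :
    BP (n + 1) (Rz G (insert c A)) (Rz G A ∪ Rz G (insert c (A ∩ T))) := by
  rw [rz_cone h, rz_cone (A := A ∩ T) fun a ha => h a ha.1, ← rz_inter]
  exact hs.cone (rz_apex fun hc => G.irrefl (h c hc))

theorem IsIso.hm {f : V' → V} (h : IsIso G' A' G A f) (hf : A'.Finite) :
    HM (Rz G' A') (Rz G A) (pf f) := by
  have sm : ∀ (x : V' → ℝ) (y : V → ℝ), (∀ u, x u ≠ 0 → u ∈ A') → (∀ v, y v ≠ 0 → v ∈ A) →
      (∀ a ∈ A', x a = y (f a)) → ∑ᶠ u, x u = ∑ᶠ v, y v := fun x y hx hy he => by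
    rw [← finsum_mem_univ x, ← finsum_mem_univ y,
      finsum_mem_inter_support_eq' x Set.univ A' fun u hu => by simpa using hx u hu,
      finsum_mem_inter_support_eq' y Set.univ A fun u hu => by simpa using hy u hu]
    exact finsum_mem_eq_of_bijOn f h.1 he
  have ad : ∀ a ∈ A', ∀ b ∈ A', Adq G' a b ↔ Adq G (f a) (f b) := fun a ha b hb =>
    or_congr ⟨congrArg f, fun e => h.1.injOn ha hb e⟩ (h.2 a ha b hb)
  have _ := hf
  refine ⟨continuousOn_pi.2 fun v => ?_, fun x hx => ?_, fun x hx y hy he => ?_, fun y hy => ?_⟩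
  · by_cases hv : v ∈ A
    · obtain ⟨a, ha, rfl⟩ := h.1.surjOn hv
      exact (continuous_apply a).continuousOn.congr fun x hx => pf_mem_Rz h.1.injOn hx.2.1 ha
    · refine (continuousOn_const (c := (0 : ℝ))).congr fun x hx => by_contra fun hn => ?_
      obtain ⟨a, ha, rfl⟩ := pf_ne_Rz hn
      exact hv (h.1.mapsTo (hx.2.1 a ha))
  · have s1 : ∀ v, pf f x v ≠ 0 → v ∈ A := fun v hv => by
      obtain ⟨a, ha, rfl⟩ := pf_ne_Rz hv
      exact h.1.mapsTo (hx.2.1 a ha)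
    refine ⟨fun v => finsum_nonneg fun u => finsum_nonneg fun _ => hx.1 u, s1,
      fun u v hu hv => ?_, ?_⟩
    · obtain ⟨a, ha, rfl⟩ := pf_ne_Rz hu
      obtain ⟨b, hb, rfl⟩ := pf_ne_Rz hv
      exact (ad a (hx.2.1 a ha) b (hx.2.1 b hb)).1 (hx.2.2.1 a b ha hb)
    · exact (sm x _ hx.2.1 s1 fun a ha => (pf_mem_Rz h.1.injOn hx.2.1 ha).symm).symm.trans hx.2.2.2
  · funext a
    by_cases ha : a ∈ A'
    · rw [← pf_mem_Rz h.1.injOn hx.2.1 ha, he, pf_mem_Rz h.1.injOn hy.2.1 ha]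
    · exact (by_contra fun hn => ha (hx.2.1 a hn) : x a = 0).trans
        (by_contra fun hn => ha (hy.2.1 a hn) : y a = 0).symm
  · have s1 : ∀ u, A'.indicator (fun u => y (f u)) u ≠ 0 → u ∈ A' := fun u hu =>
      Set.mem_of_indicator_ne_zero hu
    have s2 : ∀ u, A'.indicator (fun u => y (f u)) u ≠ 0 → y (f u) ≠ 0 := fun u hu => by
      rwa [Set.indicator_of_mem (s1 u hu)] at hu
    refine ⟨A'.indicator fun u => y (f u), ⟨fun u => Set.indicator_nonneg (fun _ _ => hy.1 _) u, s1,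
      fun a b ha hb => (ad a (s1 a ha) b (s1 b hb)).2 (hy.2.2.1 _ _ (s2 a ha) (s2 b hb)),
      (sm _ y s1 hy.2.1 fun a ha => Set.indicator_of_mem ha _).trans hy.2.2.2⟩, ?_⟩
    funext v
    by_cases hv : v ∈ A
    · obtain ⟨a, ha, rfl⟩ := h.1.surjOn hv
      rw [pf_mem_Rz h.1.injOn s1 ha, Set.indicator_of_mem ha]
    · rw [(by_contra fun hn => hv (hy.2.1 v hn) : y v = 0)]
      by_contra hn
      obtain ⟨a, ha, rfl⟩ := pf_ne_Rz hn
      exact hv (h.1.mapsTo (s1 a ha))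

theorem IsIso.pf_image {f : V' → V} (h : IsIso G' A' G A f) (hf : A'.Finite) {X : Set V'}
    (hX : X ⊆ A') : pf f '' Rz G' X = Rz G (f '' X) := by
  have h' : IsIso G' X G (f '' X) f :=
    ⟨(h.1.injOn.mono hX).bijOn_image, fun a ha b hb => h.2 a (hX ha) b (hX hb)⟩
  exact (IsIso.hm h' (hf.subset hX)).image

theorem IsIso.bp {f : V' → V} (h : IsIso G' A' G A f) (hf : A'.Finite) {T : Set V} {T' : Set V'}
    (hT : ∀ a ∈ A', a ∈ T' ↔ f a ∈ T) {n : ℕ} :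
    BP n (Rz G' A') (Rz G' T') ↔ BP n (Rz G A) (Rz G T) := by
  have hm := IsIso.hm h hf
  have he : ∀ x ∈ Rz G' A', x ∈ Rz G' T' ↔ pf f x ∈ Rz G T := fun x hx => by
    refine ⟨fun h1 => rz_of_supp (hm.2.mapsTo hx) fun v hv => ?_,
      fun h1 => rz_of_supp hx fun a ha => ?_⟩
    · obtain ⟨a, ha, rfl⟩ := pf_ne_Rz hv
      exact (hT a (hx.2.1 a ha)).1 (h1.2.1 a ha)
    · refine (hT a (hx.2.1 a ha)).2 (h1.2.1 _ ?_)
      rwa [pf_mem_Rz h.1.injOn hx.2.1 (hx.2.1 a ha)]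
  refine ⟨fun hb => hb.map hm ?_, fun hb => hb.comap (rz_compact hf) hm he⟩
  ext y
  constructor
  · rintro ⟨x, hx, rfl⟩
    exact ⟨hm.2.mapsTo hx.1, (he x hx.1).1 hx.2⟩
  · rintro ⟨h1, h2⟩
    obtain ⟨x, hx, rfl⟩ := hm.2.surjOn h1
    exact ⟨x, ⟨hx, (he x hx).2 h2⟩, rfl⟩

theorem IsIso.sp {f : V' → V} (h : IsIso G' A' G A f) (hf : A'.Finite) {n : ℕ} :
    SP n (Rz G' A') ↔ SP n (Rz G A) := by
  exact ⟨fun hs => hs.map (IsIso.hm h hf), fun hs => hs.comap (rz_compact hf) (IsIso.hm h hf)⟩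

theorem homeo_iff {X Y : Cx} (hf : X.A.Finite) :
    X.Homeo Y ↔ ∃ f, HM (Rz X.G X.A) (Rz Y.G Y.A) f := by
  constructor
  · rintro ⟨e⟩
    obtain ⟨f, h, -⟩ := hm_of_homeo e
    exact ⟨f, h⟩
  · rintro ⟨f, h⟩
    obtain ⟨e, -⟩ := h.homeo (rz_compact hf)
    exact ⟨e⟩

theorem IsIso.homeo {X Y : Cx} {f : X.V → Y.V} (h : IsIso X.G X.A Y.G Y.A f) (hf : X.A.Finite) :
    X.Homeo Y := by
  exact (homeo_iff hf).2 ⟨_, IsIso.hm h hf⟩

end Pool.Agent.MP_6374aa_g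

end

section

/-!
Definitions for the sphere surgery: sides of a punctured piece, transversality, split manifolds.
-/

namespace Pool.Agent.MP_6374aa_g

open Pool.Agent.MP_6374aa_gt Classical

variable {V : Type}

/-- The outer side of the boundary of `Z`. -/
def outS (G : SimpleGraph V) (A Z : Set V) (x : V) : Set V := Lk G A {x} \ Z

/-- The inner side of the boundary of `Z`. -/
def inS (G : SimpleGraph V) (Z T : Set V) (x : V) : Set V := Lk G Z {x} \ T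

/-- The surface `R` is transverse to the boundary of the piece `Z`. -/
structure Tr (G : SimpleGraph V) (R Z T : Set V) : Prop where
  ins : Mf G 2 (R ∩ Z) T
  out : Mf G 2 (R \ (Z \ T)) (Z ∩ T)
  ne1 : NE G R Z
  ne2 : NE G R (Z ∩ T)

/-- The surface `R` is transverse to the two sided surface `S`. -/
structure TrS (G : SimpleGraph V) (A R S : Set V) (τ : V → Set V) : Prop where
  sided : Sided G 3 A S τ
  ne : NE G R S
  curve : Mf G 1 (R ∩ S) ∅
  cross : Sided G 2 R (R ∩ S) fun x => R ∩ τ x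

/-- A disc `E` attached to the sphere `S` on the side `τ`. -/
structure Att (G : SimpleGraph V) (A S E : Set V) (τ : V → Set V) : Prop where
  mf : Mf G 3 A ∅
  subS : S ⊆ A
  subE : E ⊆ A
  sph : Sph G 3 S
  ball : Ball G 3 E S
  ne : NE G E S
  sided : Sided G 3 A S τ
  side : ∀ x ∈ E ∩ S, ∀ y ∈ E \ S, G.Adj x y → y ∈ τ x

/-- `σ` is the side of the sphere `E ∪ P` facing the sector between `E` and `P`. -/
structure Sect (G : SimpleGraph V) (A S E P : Set V) (τ σ : V → Set V) : Prop where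
  sided : Sided G 3 A (E ∪ P) σ
  le : ∀ x ∈ E ∩ S, σ x ⊆ τ x
  eq : ∀ x ∈ P, σ x = τ x

/-- A closed manifold `A` split into halves `X1`, `X2`, which are completed by `B1`, `B2`. -/
structure Hv where
  V : Type
  G : SimpleGraph V
  A : Set V
  X1 : Set V
  X2 : Set V
  A1 : Set V
  A2 : Set V
  B1 : Set V
  B2 : Set V

def Hv.sd (H : Hv) : Hv :=
  ⟨Finset H.V, sG H.V, sA H.G H.A, sA H.G H.X1, sA H.G H.X2, sA H.G H.A1, sA H.G H.A2,
    sA H.G H.B1, sA H.G H.B2⟩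

def Hv.swap (H : Hv) : Hv := ⟨H.V, H.G, H.A, H.X2, H.X1, H.A2, H.A1, H.B2, H.B1⟩

def Hv.X (H : Hv) : Cx := ⟨H.V, H.G, H.A⟩

def Hv.Y1 (H : Hv) : Cx := ⟨H.V, H.G, H.A1⟩

def Hv.Y2 (H : Hv) : Cx := ⟨H.V, H.G, H.A2⟩

structure Hv.Valid (H : Hv) : Prop where
  cl : Cl H.G 3 H.A
  eq : H.A = H.X1 ∪ H.X2
  ne : NE H.G H.X1 H.X2
  sph : Sph H.G 3 (H.X1 ∩ H.X2)
  n1 : (H.X1 \ H.X2).Nonempty
  n2 : (H.X2 \ H.X1).Nonempty
  eq1 : H.A1 = H.X1 ∪ H.B1
  ne1 : NE H.G H.X1 H.B1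
  int1 : H.X1 ∩ H.B1 = H.X1 ∩ H.X2
  con1 : Con H.G H.B1
  eq2 : H.A2 = H.X2 ∪ H.B2
  ne2 : NE H.G H.X2 H.B2
  int2 : H.X2 ∩ H.B2 = H.X1 ∩ H.X2
  con2 : Con H.G H.B2

end Pool.Agent.MP_6374aa_g

end

section

/-! Notions for the generalized Schoenflies theorem. -/

namespace Pool.Agent.MP_6374aa_g.BR

open Topology Set Metric Classical

variable {X : Type} [TopologicalSpace X]

/-- The complement of every point is homeomorphic to Euclidean space. -/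
def Pc (X : Type) [TopologicalSpace X] : Prop :=
  ∀ v : X, ∃ j : Eu 3 → X, IsOpenEmbedding j ∧ range j = {v}ᶜ

/-- The points of `K` of level less than `t`. -/
def Lv (K : Set X) (F : X → Eu 3) (t : ℝ) : Set X := {x | x ∈ K ∧ ‖F x‖ < t}

/-- `F` maps `K` onto the ball and collapses `A` to the centre. -/
structure Cp (K A : Set X) (F : X → Eu 3) : Prop where
  cpt : IsCompact K
  sub : A ⊆ K
  cont : ContinuousOn F K
  img : F '' K = closedBall 0 1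
  zero : ∀ x ∈ K, (F x = 0 ↔ x ∈ A)
  inj : ∀ x ∈ K, ∀ y ∈ K, x ∉ A → F x = F y → x = y
  opn : IsOpen (Lv K F 1)

/-- `P` inverts `F` off the centre. -/
structure Iv (K A : Set X) (F : X → Eu 3) (P : Eu 3 → X) : Prop where
  cont : ContinuousOn P (closedBall 0 1 \ {0})
  mem : ∀ z, ‖z‖ ≤ 1 → z ≠ 0 → P z ∈ K ∧ P z ∉ A ∧ F (P z) = z
  left : ∀ x ∈ K, x ∉ A → P (F x) = x

/-- `g` maps the complement of `q` to the complement of `A`, collapsing `A` to `a`. -/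
structure Hf (A : Set X) (q a : X) (g g' : X → X) : Prop where
  notMem : q ∉ A
  cont : ContinuousOn g {q}ᶜ
  onA : ∀ x ∈ A, g x = a
  out : ∀ x, x ≠ q → g x ∉ A
  ne : ∀ x, x ∉ A → x ≠ q → g x ≠ a
  inv : ∀ x, x ∉ A → x ≠ q → g' (g x) = x
  near : ∀ U, IsOpen U → A ⊆ U → ∀ᶠ x in 𝓝 q, x ≠ q → g x ∈ U

/-- `A` has arbitrarily small open neighbourhoods homeomorphic to Euclidean space. -/
def Cellu (A : Set X) : Prop :=
  ∀ U, IsOpen U → A ⊆ U → ∃ e : Eu 3 → X, IsOpenEmbedding e ∧ A ⊆ range e ∧ range e ⊆ U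

/-- The conjugate of `θ` by the collapse. -/
noncomputable def lift (K : Set X) (F : X → Eu 3) (P : Eu 3 → X) (θ : Eu 3 → Eu 3) (x : X) : X :=
  if x ∈ Lv K F 1 then P (θ (F x)) else x

/-- The conjugate of `s` by `g`. -/
noncomputable def cnj (A : Set X) (g g' s : X → X) (x : X) : X :=
  if x ∈ A then x else g' (s (g x))

/-- A shrinking sequence. -/
structure Sq (K : Set (Eu 3)) (F : Eu 3 → Eu 3) (h : ℕ → Eu 3 ≃ₜ Eu 3) (t : ℕ → ℝ) : Prop where
  h0 : ∀ x, h 0 x = x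
  t0 : t 0 = 1
  pos : ∀ i, 0 < t i
  anti : ∀ i, t (i + 1) ≤ t i
  le : ∀ i, t (i + 1) ≤ 1 / ((i : ℝ) + 1)
  off : ∀ i, ∀ x, x ∉ Lv K F (t i) → h (i + 1) x = h i x
  diam : ∀ i, ∀ x ∈ Lv K F (t (i + 1)), ∀ y ∈ Lv K F (t (i + 1)),
    dist (h (i + 1) x) (h (i + 1) y) ≤ 1 / ((i : ℝ) + 1)

end Pool.Agent.MP_6374aa_g.BR

end

section

/-! Elementary properties of a collapse. -/

namespace Pool.Agent.MP_6374aa_g.BR

open Topology Set Metric Classical

variable {X : Type} [TopologicalSpace X] {K A : Set X} {F : X → Eu 3} {P : Eu 3 → X} {q a : X}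
  {g g' : X → X}

theorem surj_Cp0 (h : Cp K A F) {z : Eu 3} (hz : ‖z‖ ≤ 1) : ∃ x ∈ K, F x = z := by
  have : z ∈ F '' K := by rw [h.img]; exact mem_closedBall_zero_iff.2 hz
  exact this

theorem Cp.nonempty (h : Cp K A F) : A.Nonempty := by
  obtain ⟨x, hx, e⟩ := surj_Cp0 h (z := 0) (by simp)
  exact ⟨x, (h.zero x hx).1 e⟩

theorem Cp.norm_le (h : Cp K A F) {x : X} (hx : x ∈ K) : ‖F x‖ ≤ 1 := by
  have : F x ∈ closedBall (0 : Eu 3) 1 := h.img ▸ mem_image_of_mem F hx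
  exact mem_closedBall_zero_iff.1 this

theorem Cp.sub_lv (h : Cp K A F) {t : ℝ} (ht : 0 < t) : A ⊆ Lv K F t := by
  intro x hx
  refine ⟨h.sub hx, ?_⟩
  rw [(h.zero x (h.sub hx)).2 hx, norm_zero]
  exact ht

theorem Cp.cpt_le [T2Space X] (h : Cp K A F) (t : ℝ) : IsCompact {x | x ∈ K ∧ ‖F x‖ ≤ t} := by
  refine h.cpt.of_isClosed_subset ?_ fun _ hx => hx.1
  exact h.cont.norm.preimage_isClosed_of_isClosed h.cpt.isClosed (isClosed_Iic (a := t))

theorem Cp.cptA [T2Space X] (h : Cp K A F) : IsCompact A := by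
  have e : A = {x | x ∈ K ∧ ‖F x‖ ≤ 0} := by
    ext x
    constructor
    · intro hx
      exact ⟨h.sub hx, by rw [(h.zero x (h.sub hx)).2 hx, norm_zero]⟩
    · rintro ⟨h1, h2⟩
      exact (h.zero x h1).1 (norm_le_zero_iff.1 h2)
  rw [e]
  exact h.cpt_le 0

theorem Cp.opn_lv (h : Cp K A F) {t : ℝ} (ht : t ≤ 1) : IsOpen (Lv K F t) := by
  have hc : ContinuousOn (fun x => ‖F x‖) (Lv K F 1) := h.cont.norm.mono fun _ hx => hx.1
  have := hc.isOpen_inter_preimage h.opn (isOpen_Iio (a := t))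
  have e : Lv K F t = Lv K F 1 ∩ (fun x => ‖F x‖) ⁻¹' Iio t := by
    ext x
    exact ⟨fun hx => ⟨⟨hx.1, hx.2.trans_le ht⟩, hx.2⟩, fun hx => ⟨hx.1.1, hx.2⟩⟩
  rw [e]
  exact this

theorem Cp.small (h : Cp K A F) {U : Set X} (hU : IsOpen U) (hA : A ⊆ U) :
    ∃ t, 0 < t ∧ Lv K F t ⊆ U := by
  have hc : IsCompact (K \ U) := h.cpt.diff hU
  rcases (K \ U).eq_empty_or_nonempty with he | hne
  · exact ⟨1, one_pos, fun x hx => (sdiff_eq_empty.1 he) hx.1⟩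
  · obtain ⟨m, hm, hmin⟩ := hc.exists_isMinOn hne (h.cont.norm.mono sdiff_subset)
    refine ⟨‖F m‖, norm_pos_iff.2 fun e => hm.2 (hA ((h.zero m hm.1).1 e)), fun x hx => ?_⟩
    by_contra hxU
    exact absurd hx.2 (not_lt.2 (hmin ⟨hx.1, hxU⟩))

theorem Cp.exists_iv [T2Space X] (h : Cp K A F) : ∃ P, Iv K A F P := by
  obtain ⟨a, -⟩ := h.nonempty
  have : Nonempty X := ⟨a⟩
  have hl : ∀ x ∈ K, x ∉ A → Function.invFunOn F K (F x) = x := fun x hx hA =>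
    (h.inj x hx _ (Function.invFunOn_apply_mem hx) hA (Function.invFunOn_apply_eq hx).symm).symm
  have hm : ∀ z, ‖z‖ ≤ 1 → z ≠ 0 → Function.invFunOn F K z ∈ K ∧ Function.invFunOn F K z ∉ A ∧
      F (Function.invFunOn F K z) = z := fun z hz h0 => by
    obtain ⟨h1, h2⟩ := Function.invFunOn_pos (surj_Cp0 h hz)
    exact ⟨h1, fun hA => h0 (h2 ▸ (h.zero _ h1).2 hA), h2⟩
  refine ⟨Function.invFunOn F K, ?_, hm, hl⟩
  rw [continuousOn_iff_isClosed]
  intro C hC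
  refine ⟨F '' (K ∩ C), ((h.cpt.inter_right hC).image_of_continuousOn
    (h.cont.mono inter_subset_left)).isClosed, ?_⟩
  ext z
  constructor
  · rintro ⟨h1, h2⟩
    obtain ⟨k1, -, k3⟩ := hm z (mem_closedBall_zero_iff.1 h2.1) h2.2
    exact ⟨⟨_, ⟨k1, h1⟩, k3⟩, h2⟩
  · rintro ⟨⟨x, hx, rfl⟩, h2⟩
    refine ⟨?_, h2⟩
    rw [mem_preimage, hl x hx.1 fun hA => h2.2 ((h.zero x hx.1).2 hA)]
    exact hx.2

theorem quo {Y Z : Type} [TopologicalSpace Y] [TopologicalSpace Z] [T2Space X] [T2Space Y]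
    [Nonempty X] (hK : IsCompact K) {H : X → Y} {G : X → Z} (hH : ContinuousOn H K)
    (hG : ContinuousOn G K) (hf : ∀ x ∈ K, ∀ y ∈ K, (H x = H y ↔ G x = G y)) :
    ∃ f, HM (H '' K) (G '' K) f ∧ ∀ x ∈ K, f (H x) = G x := by
  have key : ∀ x ∈ K, G (Function.invFunOn H K (H x)) = G x := fun x hx =>
    (hf _ (Function.invFunOn_apply_mem hx) x hx).1 (Function.invFunOn_apply_eq hx)
  refine ⟨fun y => G (Function.invFunOn H K y), ⟨?_, ?_, ?_, ?_⟩, key⟩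
  · rw [continuousOn_iff_isClosed]
    intro C hC
    have h1 : IsCompact (K ∩ G ⁻¹' C) :=
      hK.of_isClosed_subset (hG.preimage_isClosed_of_isClosed hK.isClosed hC) inter_subset_left
    refine ⟨H '' (K ∩ G ⁻¹' C),
      (h1.image_of_continuousOn (hH.mono inter_subset_left)).isClosed, ?_⟩
    ext y
    constructor
    · rintro ⟨h2, x, hx, rfl⟩
      refine ⟨⟨x, ⟨hx, ?_⟩, rfl⟩, x, hx, rfl⟩
      rw [mem_preimage, ← key x hx]
      exact h2
    · rintro ⟨⟨x, hx, rfl⟩, h2⟩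
      refine ⟨?_, h2⟩
      change G (Function.invFunOn H K (H x)) ∈ C
      rw [key x hx.1]
      exact hx.2
  · rintro _ ⟨x, hx, rfl⟩
    exact ⟨x, hx, (key x hx).symm⟩
  · rintro _ ⟨x, hx, rfl⟩ _ ⟨y, hy, rfl⟩ e
    exact (hf x hx y hy).2 ((key x hx).symm.trans (e.trans (key y hy)))
  · rintro _ ⟨x, hx, rfl⟩
    exact ⟨H x, ⟨x, hx, rfl⟩, key x hx⟩

end Pool.Agent.MP_6374aa_g.BR

end

section

/-! Radial homeomorphisms with a given profile. -/

namespace Pool.Agent.MP_6374aa_g.BR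

open Topology Set Metric Classical

variable {X : Type} [TopologicalSpace X] {K A : Set X} {F : X → Eu 3} {P : Eu 3 → X} {q a : X}
  {g g' : X → X}

theorem profile {δ R R' : ℝ} (hδ : 0 < δ) (hR : 0 ≤ R) (h : R < R') :
    ∃ (μ : ℝ ≃o ℝ) (η : ℝ), 0 < η ∧ (∀ t, t ≤ η → μ t = t) ∧ (∀ t, R' ≤ t → μ t = t) ∧
      ∀ t, t ≤ R → μ t < δ := by
  obtain ⟨k, k0, k1, k2⟩ : ∃ k : ℝ, 0 < k ∧ k ≤ 1 ∧ k * R < δ / 2 := by
    have h1 : 0 < 2 * (R + δ) := by positivity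
    refine ⟨δ / (2 * (R + δ)), by positivity, (div_le_one h1).2 (by linarith), ?_⟩
    rw [div_mul_eq_mul_div, div_lt_iff₀ h1]
    nlinarith [mul_pos hδ hδ]
  obtain ⟨L, L1, L2⟩ : ∃ L : ℝ, 1 ≤ L ∧ R' ≤ L * (R' - R) := by
    have h1 : 0 < R' - R := sub_pos.2 h
    have h2 : 0 ≤ R' / (R' - R) := div_nonneg (by linarith) h1.le
    refine ⟨1 + R' / (R' - R), by linarith, ?_⟩
    rw [add_mul, div_mul_cancel₀ _ h1.ne']
    linarith
  obtain ⟨m, hm⟩ : ∃ m : ℝ → ℝ, m = fun t =>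
      min t (max (δ / 2 + k * (t - δ / 2)) (R' + L * (t - R'))) := ⟨_, rfl⟩
  have mono : StrictMono m := by
    intro s t hst
    rw [hm]
    refine min_lt_min hst (max_lt_max ?_ ?_)
    · nlinarith
    · nlinarith
  have cont : Continuous m := by
    rw [hm]
    fun_prop
  have lo : ∀ t, t ≤ δ / 2 → m t = t := fun t ht => by
    rw [hm]
    exact min_eq_left (le_max_of_le_left (by nlinarith))
  have hi : ∀ t, R' ≤ t → m t = t := fun t ht => by
    rw [hm]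
    exact min_eq_left (le_max_of_le_right (by nlinarith))
  have surj : Function.Surjective m :=
    cont.surjective
      (Filter.tendsto_id.congr' ((Filter.eventually_ge_atTop R').mono fun t ht => (hi t ht).symm))
      (Filter.tendsto_id.congr'
        ((Filter.eventually_le_atBot (δ / 2)).mono fun t ht => (lo t ht).symm))
  refine ⟨mono.orderIsoOfSurjective m surj, δ / 2, by positivity, lo, hi, fun t ht => ?_⟩
  change m t < δ
  rw [hm]
  refine min_lt_of_right_lt (max_lt ?_ ?_)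
  · nlinarith
  · nlinarith

end Pool.Agent.MP_6374aa_g.BR

end

section

/-! Radial shrinking about a point. -/

namespace Pool.Agent.MP_6374aa_g.BR

open Topology Set Metric Classical

variable {X : Type} [TopologicalSpace X] {K A : Set X} {F : X → Eu 3} {P : Eu 3 → X} {q a : X}
  {g g' : X → X}

/-- The radial map. -/
noncomputable def r_Rad (μ : ℝ ≃o ℝ) (x : Eu 3) : Eu 3 := (μ ‖x‖ / ‖x‖) • x

theorem norm_Rad {μ : ℝ ≃o ℝ} (h0 : μ 0 = 0) (x : Eu 3) : ‖r_Rad μ x‖ = μ ‖x‖ := by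
  unfold r_Rad
  rcases eq_or_ne x 0 with rfl | h
  · rw [smul_zero, norm_zero, h0]
  · have h1 : 0 ≤ μ ‖x‖ := h0.symm.trans_le (μ.monotone (norm_nonneg x))
    rw [norm_smul, Real.norm_of_nonneg (div_nonneg h1 (norm_nonneg x)),
      div_mul_cancel₀ _ (norm_ne_zero_iff.2 h)]

theorem inv_Rad {μ : ℝ ≃o ℝ} (h0 : μ 0 = 0) (x : Eu 3) : r_Rad μ.symm (r_Rad μ x) = x := by
  rw [r_Rad, norm_Rad h0, μ.symm_apply_apply, r_Rad, smul_smul]
  rcases eq_or_ne x 0 with rfl | h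
  · exact smul_zero _
  · have h1 : 0 < μ ‖x‖ := h0.symm.trans_lt (μ.strictMono (norm_pos_iff.2 h))
    rw [div_mul_div_cancel₀ h1.ne', div_self (norm_ne_zero_iff.2 h), one_smul]

theorem cont_Rad {μ : ℝ ≃o ℝ} (h0 : μ 0 = 0) : Continuous (r_Rad μ) := by
  have hc : Continuous fun x : Eu 3 => μ ‖x‖ := μ.continuous.comp continuous_norm
  refine continuous_iff_continuousAt.2 fun x => ?_
  rcases eq_or_ne x 0 with rfl | h
  · have e : r_Rad μ 0 = 0 := smul_zero _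
    rw [ContinuousAt, e, tendsto_zero_iff_norm_tendsto_zero]
    simp only [norm_Rad h0]
    exact hc.tendsto' 0 0 (by rw [norm_zero, h0])
  · exact (hc.continuousAt.div continuous_norm.continuousAt (norm_ne_zero_iff.2 h)).smul
      continuousAt_id

theorem radial (μ : ℝ ≃o ℝ) (h0 : μ 0 = 0) :
    ∃ θ : Eu 3 ≃ₜ Eu 3, (∀ x, ‖θ x‖ = μ ‖x‖) ∧ ∀ x, μ ‖x‖ = ‖x‖ → θ x = x := by
  have h1 : μ.symm 0 = 0 := by rw [μ.symm_apply_eq, h0]
  refine ⟨⟨⟨r_Rad μ, r_Rad μ.symm, inv_Rad h0, inv_Rad (μ := μ.symm) h1⟩, cont_Rad h0,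
    cont_Rad h1⟩, norm_Rad h0, fun x hx => ?_⟩
  change (μ ‖x‖ / ‖x‖) • x = x
  rcases eq_or_ne x 0 with rfl | h
  · exact smul_zero _
  · rw [hx, div_self (norm_ne_zero_iff.2 h), one_smul]

theorem rad (c : Eu 3) {δ R R' : ℝ} (hδ : 0 < δ) (hR : 0 ≤ R) (h : R < R') :
    ∃ θ : Eu 3 ≃ₜ Eu 3, (∀ᶠ x in 𝓝 c, θ x = x) ∧ (∀ x, R' ≤ dist x c → θ x = x) ∧
      ∀ x, dist x c ≤ R → dist (θ x) c < δ := by
  obtain ⟨μ, η, h1, h2, h3, h4⟩ := profile hδ hR h
  obtain ⟨r, r1, r2⟩ := radial μ (h2 0 h1.le)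
  refine ⟨((Homeomorph.subRight c).trans r).trans (Homeomorph.addRight c), ?_, fun x hx => ?_,
    fun x hx => ?_⟩
  · filter_upwards [closedBall_mem_nhds c h1] with x hx
    change r (x - c) + c = x
    rw [r2 _ (h2 _ (mem_closedBall_iff_norm.1 hx)), sub_add_cancel]
  · change r (x - c) + c = x
    rw [r2 _ (h3 _ (hx.trans_eq (dist_eq_norm x c))), sub_add_cancel]
  · change dist (r (x - c) + c) c < δ
    rw [dist_eq_norm, add_sub_cancel_right, r1]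
    exact h4 _ ((dist_eq_norm x c).symm.trans_le hx)

end Pool.Agent.MP_6374aa_g.BR

end

section

/-! First step of the argument of Brown. -/

namespace Pool.Agent.MP_6374aa_g.BR

open Topology Set Metric Classical

variable {X : Type} [TopologicalSpace X] {K A : Set X} {F : X → Eu 3} {P : Eu 3 → X} {q a : X}
  {g g' : X → X}

theorem hf_lift [T2Space X] (h : Cp K A F) (hP : Iv K A F P) (θ : Eu 3 ≃ₜ Eu 3) {r : ℝ}
    (hr : r < 1) (hθ : ∀ z, r ≤ ‖z‖ → θ z = z) (h0 : θ 0 ≠ 0) :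
    Hf A (P (θ.symm 0)) (P (θ 0)) (lift K F P θ) (lift K F P θ.symm) := by
  have k1 : ∀ z, ‖z‖ < 1 → ‖θ z‖ < 1 := fun z hz => by
    by_contra k
    have k2 : 1 ≤ ‖θ z‖ := not_lt.1 k
    have k3 : θ z = z := θ.injective (hθ _ (hr.le.trans k2))
    rw [k3] at k2
    exact absurd hz (not_lt.2 k2)
  have k2 : ∀ z, ‖z‖ < 1 → ‖θ.symm z‖ < 1 := fun z hz => by
    by_contra k
    have k2 : 1 ≤ ‖θ.symm z‖ := not_lt.1 k
    have k3 := hθ _ (hr.le.trans k2)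
    rw [θ.apply_symm_apply] at k3
    rw [← k3] at k2
    exact absurd hz (not_lt.2 k2)
  have n0 : ‖(0 : Eu 3)‖ < 1 := by simp
  have r0 : 0 < r := by
    by_contra k
    exact h0 (hθ 0 (by simpa using k))
  have c0 : θ.symm 0 ≠ 0 := fun k => h0 (by
    have k1 := θ.apply_symm_apply 0
    rwa [k] at k1)
  obtain ⟨qK, qA, qF⟩ := hP.mem _ (k2 0 n0).le c0
  obtain ⟨aK, -, aF⟩ := hP.mem _ (k1 0 n0).le h0
  have qO : P (θ.symm 0) ∈ Lv K F 1 := ⟨qK, by rw [qF]; exact k2 0 n0⟩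
  have aO : P (θ 0) ∈ Lv K F 1 := ⟨aK, by rw [aF]; exact k1 0 n0⟩
  have k3 : ∀ x ∈ Lv K F 1, x ≠ P (θ.symm 0) → θ (F x) ≠ 0 := fun x hx hq k =>
    hq (h.inj _ qK x hx.1 qA (by rw [qF, ← k, θ.symm_apply_apply])).symm
  have k4 : ∀ x ∈ Lv K F 1, x ≠ P (θ.symm 0) →
      P (θ (F x)) ∈ K ∧ P (θ (F x)) ∉ A ∧ F (P (θ (F x))) = θ (F x) := fun x hx hq =>
    hP.mem _ (k1 _ hx.2).le (k3 x hx hq)
  have AO : A ⊆ Lv K F 1 := h.sub_lv one_pos
  have l1 : ∀ (f : Eu 3 → Eu 3), ∀ x ∈ Lv K F 1, lift K F P f x = P (f (F x)) :=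
    fun f x hx => if_pos hx
  have l2 : ∀ (f : Eu 3 → Eu 3) x, x ∉ Lv K F 1 → lift K F P f x = x := fun f x hx => if_neg hx
  have cF : ContinuousOn (fun x => θ (F x)) (Lv K F 1) :=
    θ.continuous.comp_continuousOn (h.cont.mono fun x hx => hx.1)
  refine ⟨qA, fun x hx => ContinuousAt.continuousWithinAt ?_, fun x hx => ?_, fun x hq => ?_,
    fun x hA hq => ?_, fun x hA hq => ?_, fun U hU hAU => ?_⟩
  · by_cases hO : x ∈ Lv K F 1
    · have hW : IsOpen (Lv K F 1 ∩ {P (θ.symm 0)}ᶜ) := h.opn.inter isOpen_compl_singleton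
      have c1 : ContinuousOn (fun x => P (θ (F x))) (Lv K F 1 ∩ {P (θ.symm 0)}ᶜ) :=
        hP.cont.comp (cF.mono inter_subset_left) fun y hy =>
          ⟨mem_closedBall_zero_iff.2 (k1 _ hy.1.2).le, k3 y hy.1 hy.2⟩
      exact (c1.congr fun y hy => l1 θ y hy.1).continuousAt (hW.mem_nhds ⟨hO, hx⟩)
    · have hW := (h.cpt_le r).isClosed.isOpen_compl
      have hxW : x ∈ {x | x ∈ K ∧ ‖F x‖ ≤ r}ᶜ := fun k => hO ⟨k.1, k.2.trans_lt hr⟩
      refine (continuousOn_id.congr fun y hy => ?_).continuousAt (hW.mem_nhds hxW)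
      by_cases hy1 : y ∈ Lv K F 1
      · have hy2 : r < ‖F y‖ := not_le.1 fun k => hy ⟨hy1.1, k⟩
        rw [l1 θ y hy1, hθ _ hy2.le]
        refine hP.left y hy1.1 fun k => ?_
        rw [(h.zero y hy1.1).2 k, norm_zero] at hy2
        exact absurd r0 (not_lt.2 hy2.le)
      · exact l2 θ y hy1
  · rw [l1 θ x (AO hx), (h.zero x (h.sub hx)).2 hx]
  · by_cases hO : x ∈ Lv K F 1
    · rw [l1 θ x hO]
      exact (k4 x hO hq).2.1
    · rw [l2 θ x hO]
      exact fun k => hO (AO k)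
  · by_cases hO : x ∈ Lv K F 1
    · rw [l1 θ x hO]
      intro k
      have k5 := (k4 x hO hq).2.2
      rw [k, aF] at k5
      exact hA ((h.zero x hO.1).1 (θ.injective k5).symm)
    · rw [l2 θ x hO]
      exact fun k => hO (k ▸ aO)
  · by_cases hO : x ∈ Lv K F 1
    · obtain ⟨m1, -, m3⟩ := k4 x hO hq
      rw [l1 θ x hO, l1 θ.symm _ ⟨m1, by rw [m3]; exact k1 _ hO.2⟩, m3, θ.symm_apply_apply]
      exact hP.left x hO.1 hA
    · rw [l2 θ x hO, l2 θ.symm x hO]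
  · obtain ⟨t, ht, hs⟩ := h.small hU hAU
    have c1 : ContinuousAt (fun x => ‖θ (F x)‖) (P (θ.symm 0)) :=
      (cF.continuousAt (h.opn.mem_nhds qO)).norm
    have c2 : ∀ᶠ x in 𝓝 (P (θ.symm 0)), ‖θ (F x)‖ < t :=
      c1.eventually_lt continuousAt_const (by simpa [qF] using ht)
    filter_upwards [c2, h.opn.mem_nhds qO] with x h1 hO hq
    obtain ⟨m1, -, m3⟩ := k4 x hO hq
    rw [l1 θ x hO]
    exact hs ⟨m1, by rw [m3]; exact h1⟩

theorem exists_hf [T2Space X] (h : Cp K A F) :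
    ∃ q a g g', Hf A q a g g' ∧ Hf A a q g' g := by
  obtain ⟨P, hP⟩ := h.exists_iv
  obtain ⟨v, hv⟩ := exists_norm_eq (Eu 3) (show (0 : ℝ) ≤ 1 / 4 by norm_num)
  obtain ⟨θ, -, h1, h2⟩ := rad v (δ := 1 / 4) (R := 1 / 4) (R' := 1 / 2) (by norm_num)
    (by norm_num) (by norm_num)
  have hθ : ∀ z, (3 / 4 : ℝ) ≤ ‖z‖ → θ z = z := fun z hz => h1 z (by
    have := norm_sub_norm_le z v
    rw [dist_eq_norm]
    linarith)
  have h0 : θ 0 ≠ 0 := fun k => by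
    have k1 := h2 0 (by simp [hv])
    rw [k, dist_zero_left, hv] at k1
    exact lt_irrefl _ k1
  have hθ' : ∀ z, (3 / 4 : ℝ) ≤ ‖z‖ → θ.symm z = z := fun z hz => by
    rw [θ.symm_apply_eq, hθ z hz]
  have h0' : θ.symm 0 ≠ 0 := fun k => h0 (by
    have k1 := θ.apply_symm_apply 0
    rwa [k] at k1)
  exact ⟨_, _, _, _, hf_lift h hP θ (by norm_num) hθ h0,
    hf_lift h hP θ.symm (by norm_num) hθ' h0'⟩

end Pool.Agent.MP_6374aa_g.BR

end

section

/-! The conjugate of a homeomorphism is an open embedding. -/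

namespace Pool.Agent.MP_6374aa_g.BR

open Topology Set Metric Classical

variable {X : Type} [TopologicalSpace X] {K A : Set X} {F : X → Eu 3} {P : Eu 3 → X} {q a : X}
  {g g' : X → X}

theorem Hf.isOpen_image [T2Space X] (h : Hf A q a g g') (h' : Hf A a q g' g) (hA : IsClosed A)
    {W : Set X} (hW : IsOpen W) (hWA : ∀ x ∈ W, x ∉ A) (hq : q ∉ W) : IsOpen (g '' W) := by
  have e : g '' W = (Aᶜ ∩ {a}ᶜ) ∩ g' ⁻¹' W := by
    apply Subset.antisymm
    · rintro _ ⟨x, hx, rfl⟩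
      have h1 : x ≠ q := fun k => hq (k ▸ hx)
      refine ⟨⟨h.out x h1, h.ne x (hWA x hx) h1⟩, ?_⟩
      rwa [mem_preimage, h.inv x (hWA x hx) h1]
    · exact fun y hy => ⟨g' y, hy.2, h'.inv y hy.1.1 hy.1.2⟩
  rw [e]
  exact (h'.cont.mono inter_subset_right).isOpen_inter_preimage
    (hA.isOpen_compl.inter isOpen_compl_singleton) hW

theorem Hf.cnj_emb [T2Space X] (h : Hf A q a g g') (h' : Hf A a q g' g) (hA : IsClosed A)
    (s : X ≃ₜ X) (hs : ∀ᶠ y in 𝓝 a, s y = y) {V : Set X} (hV : IsOpen V) (hq : q ∉ V)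
    (hsV : ∀ x ∈ V, s (g x) ∉ A) :
    ContinuousOn (cnj A g g' s) V ∧ InjOn (cnj A g g' s) V ∧
      ∀ W, W ⊆ V → IsOpen W → IsOpen (cnj A g g' s '' W) := by
  obtain ⟨N, n1, n2, n3⟩ := eventually_nhds_iff.1 hs
  have hU : IsOpen ({q}ᶜ ∩ g ⁻¹' N) := h.cont.isOpen_inter_preimage isOpen_compl_singleton n2
  have hAU : A ⊆ {q}ᶜ ∩ g ⁻¹' N := fun x hx =>
    ⟨fun k => h.notMem (k ▸ hx), by rwa [mem_preimage, h.onA x hx]⟩
  have hid : ∀ x ∈ {q}ᶜ ∩ g ⁻¹' N, cnj A g g' s x = x := fun x hx => by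
    unfold cnj
    split_ifs with k
    · rfl
    · rw [n1 _ hx.2, h.inv x k hx.1]
  have hq' : ∀ x ∈ V, x ≠ q := fun x hx k => hq (k ▸ hx)
  have hne : ∀ x ∈ V, x ∉ A → s (g x) ≠ a := fun x hx k e =>
    h.ne x k (hq' x hx) (s.injective (e.trans (n1 a n3).symm))
  refine ⟨fun x hx => ContinuousAt.continuousWithinAt ?_, fun x hx y hy e => ?_,
    fun W hWV hW => ?_⟩
  · by_cases k : x ∈ A
    · exact continuousAt_id.congr (Filter.mem_of_superset (hU.mem_nhds (hAU k))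
        fun y hy => (hid y hy).symm)
    · have c1 := h.cont.continuousAt (isOpen_compl_singleton.mem_nhds (hq' x hx))
      have c2 := h'.cont.continuousAt (isOpen_compl_singleton.mem_nhds (hne x hx k))
      exact (ContinuousAt.comp (f := fun y => s (g y)) c2 (s.continuous.continuousAt.comp c1)).congr
        (Filter.mem_of_superset (hA.isOpen_compl.mem_nhds k) fun y hy => (if_neg hy).symm)
  · unfold cnj at e
    split_ifs at e with k1 k2 k2
    · exact e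
    · exact absurd (e ▸ k1) (h'.out _ (hne y hy k2))
    · exact absurd (e ▸ k2) (h'.out _ (hne x hx k1))
    · have e1 := congrArg g e
      rw [h'.inv _ (hsV x hx) (hne x hx k1), h'.inv _ (hsV y hy) (hne y hy k2)] at e1
      rw [← h.inv x k1 (hq' x hx), s.injective e1, h.inv y k2 (hq' y hy)]
  · have e : cnj A g g' s '' W = (W ∩ ({q}ᶜ ∩ g ⁻¹' N)) ∪ g' '' (s '' (g '' (W \ A))) := by
      apply Subset.antisymm
      · rintro _ ⟨x, hx, rfl⟩
        by_cases k : x ∈ A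
        · rw [hid x (hAU k)]
          exact Or.inl ⟨hx, hAU k⟩
        · exact Or.inr ⟨_, ⟨_, ⟨x, ⟨hx, k⟩, rfl⟩, rfl⟩, (if_neg k).symm⟩
      · rintro y (hy | ⟨_, ⟨_, ⟨x, hx, rfl⟩, rfl⟩, rfl⟩)
        · exact ⟨y, hy.1, hid y hy.2⟩
        · exact ⟨x, hx.1, if_neg hx.2⟩
    rw [e]
    refine (hW.inter hU).union (h'.isOpen_image h hA (s.isOpenMap _
      (h.isOpen_image h' hA (hW.sdiff hA) (fun _ k => k.2) fun k => hq (hWV k.1))) ?_ ?_)
    · rintro _ ⟨_, ⟨x, hx, rfl⟩, rfl⟩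
      exact hsV x (hWV hx.1)
    · rintro ⟨_, ⟨x, hx, rfl⟩, k⟩
      exact hne x (hWV hx.1) hx.2 k

end Pool.Agent.MP_6374aa_g.BR

end

section

/-! Extension by the identity and shrinking inside an open cell. -/

namespace Pool.Agent.MP_6374aa_g.BR

open Topology Set Metric Classical

variable {X : Type} [TopologicalSpace X] {K A : Set X} {F : X → Eu 3} {P : Eu 3 → X} {q a : X}
  {g g' : X → X}

theorem cont_Ext [T2Space X] {e : Eu 3 → X} (he : IsOpenEmbedding e) {θ : Eu 3 → Eu 3}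
    (hc : Continuous θ) {C : Set (Eu 3)} (hC : IsCompact C) (hθ : ∀ x, x ∉ C → θ x = x) :
    Continuous (Function.extend e (e ∘ θ) id) := by
  refine continuous_iff_continuousAt.2 fun y => ?_
  by_cases hy : y ∈ range e
  · obtain ⟨z, rfl⟩ := hy
    rw [← he.continuousAt_iff, Function.extend_comp he.injective]
    exact (he.continuous.comp hc).continuousAt
  · have h1 : (e '' C)ᶜ ∈ 𝓝 y := (hC.image he.continuous).isClosed.isOpen_compl.mem_nhds
      fun h => hy (image_subset_range e C h)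
    refine continuousAt_id.congr (Filter.mem_of_superset h1 fun w hw => ?_)
    by_cases h2 : ∃ z, e z = w
    · obtain ⟨z, rfl⟩ := h2
      exact (congrArg e (hθ z fun h => hw ⟨z, h, rfl⟩)).symm.trans
        (he.injective.extend_apply (e ∘ θ) id z).symm
    · exact (Function.extend_apply' _ _ _ h2).symm

omit [TopologicalSpace X] in
theorem inv_Ext {e : Eu 3 → X} (he : Function.Injective e) {θ η : Eu 3 → Eu 3}
    (h : ∀ x, η (θ x) = x) (y : X) :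
    Function.extend e (e ∘ η) id (Function.extend e (e ∘ θ) id y) = y := by
  by_cases h2 : ∃ z, e z = y
  · obtain ⟨z, rfl⟩ := h2
    rw [he.extend_apply, Function.comp_apply, he.extend_apply, Function.comp_apply, h]
  · rw [Function.extend_apply' _ _ _ h2, id, Function.extend_apply' _ _ _ h2, id]

theorem ext_homeo [T2Space X] {e : Eu 3 → X} (he : IsOpenEmbedding e) (θ : Eu 3 ≃ₜ Eu 3)
    {C : Set (Eu 3)} (hC : IsCompact C) (hθ : ∀ x, x ∉ C → θ x = x) :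
    ∃ s : X ≃ₜ X, (∀ z, s (e z) = e (θ z)) ∧ ∀ y, y ∉ range e → s y = y :=
  ⟨⟨⟨Function.extend e (e ∘ θ) id, Function.extend e (e ∘ θ.symm) id,
    inv_Ext he.injective θ.symm_apply_apply, inv_Ext he.injective θ.apply_symm_apply⟩,
    cont_Ext he θ.continuous hC hθ, cont_Ext he θ.symm.continuous hC fun x hx =>
      θ.symm_apply_eq.2 (hθ x hx).symm⟩,
    fun z => he.injective.extend_apply _ _ z, fun _ hy => Function.extend_apply' _ _ _ hy⟩

theorem shrink [T2Space X] {e : Eu 3 → X} (he : IsOpenEmbedding e) (c : Eu 3) {C N : Set X}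
    (hC : IsCompact C) (hCe : C ⊆ range e) (hN : N ∈ 𝓝 (e c)) :
    ∃ s : X ≃ₜ X, (∀ᶠ y in 𝓝 (e c), s y = y) ∧ (∀ y, y ∉ range e → s y = y) ∧
      ∃ U, IsOpen U ∧ C ⊆ U ∧ ∀ y ∈ U, s y ∈ N := by
  obtain ⟨R, hR, h1⟩ := (he.isInducing.isCompact_preimage' hC hCe).isBounded.subset_ball_lt 0 c
  obtain ⟨δ, hδ, h2⟩ := Metric.mem_nhds_iff.1 (he.continuous.continuousAt.preimage_mem_nhds hN)
  obtain ⟨θ, h3, h4, h5⟩ := rad c hδ hR.le (lt_add_one R)
  obtain ⟨s, h6, h7⟩ := ext_homeo he θ (isCompact_closedBall c (R + 1))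
    fun x hx => h4 x (not_le.1 hx).le
  refine ⟨s, ?_, h7, e '' ball c R, he.isOpenMap _ isOpen_ball, fun y hy => ?_, ?_⟩
  · rw [← he.map_nhds_eq, Filter.eventually_map]
    exact h3.mono fun x hx => by rw [h6, hx]
  · obtain ⟨z, rfl⟩ := hCe hy
    exact ⟨z, h1 hy, rfl⟩
  · rintro _ ⟨z, hz, rfl⟩
    rw [h6]
    exact h2 (h5 z (le_of_lt hz))

end Pool.Agent.MP_6374aa_g.BR

end

section

/-! Second step of the argument of Brown. -/

namespace Pool.Agent.MP_6374aa_g.BR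

open Topology Set Metric Classical

variable {X : Type} [TopologicalSpace X] {K A : Set X} {F : X → Eu 3} {P : Eu 3 → X} {q a : X}
  {g g' : X → X}

theorem cellu_of_hf [T2Space X] (hX : Pc X) (hA : IsCompact A) (hne : A.Nonempty)
    (h : Hf A q a g g') (h' : Hf A a q g' g) : Cellu A := by
  intro U hU hAU
  obtain ⟨p, hp⟩ := hne
  obtain ⟨j, hj, hjr⟩ := hX q
  obtain ⟨k, hk, hkr⟩ := hX p
  have hAj : A ⊆ range j := by
    rw [hjr]; intro x hx e; exact h.notMem (mem_singleton_iff.1 e ▸ hx)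
  have hk' : ∀ y, y ∉ A → y ∈ range k := by
    intro y hy; rw [hkr]; intro e; exact hy (mem_singleton_iff.1 e ▸ hp)
  obtain ⟨c, hc⟩ := hk' a h'.notMem
  obtain ⟨R, hR, hAR⟩ := (hj.isInducing.isCompact_preimage' hA hAj).isBounded.subset_ball_lt 0 0
  have hjq : ∀ z, j z ≠ q := by
    intro z e
    have : j z ∈ range j := mem_range_self z
    rw [hjr] at this; exact this e
  have hC : IsCompact (g '' (j '' closedBall 0 R)) := by
    refine ((isCompact_closedBall 0 R).image hj.continuous).image_of_continuousOn (h.cont.mono ?_)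
    rintro _ ⟨z, -, rfl⟩; exact hjq z
  have hN : {y | (y ≠ a → g' y ∈ U) ∧ y ∉ A} ∈ 𝓝 (k c) := by
    rw [hc]
    exact (h'.near U hU hAU).and (hA.isClosed.isOpen_compl.mem_nhds h'.notMem)
  obtain ⟨s, hs, -, U0, -, hCU, hsU⟩ := shrink hk c hC (by
    rintro _ ⟨_, ⟨z, -, rfl⟩, rfl⟩; exact hk' _ (h.out _ (hjq z))) hN
  rw [hc] at hs
  have hV : IsOpen (j '' ball 0 R) := hj.isOpenMap _ isOpen_ball
  have hqV : q ∉ j '' ball 0 R := by rintro ⟨z, -, e⟩; exact hjq z e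
  have hVU : ∀ x ∈ j '' ball 0 R, (s (g x) ≠ a → g' (s (g x)) ∈ U) ∧ s (g x) ∉ A := fun x hx =>
    hsU _ (hCU (mem_image_of_mem g (image_mono ball_subset_closedBall hx)))
  obtain ⟨h1, h2, h3⟩ := h.cnj_emb h' hA.isClosed s hs hV hqV fun x hx => (hVU x hx).2
  set u := OpenPartialHomeomorph.univBall (0 : Eu 3) R with hu
  have hus : u.source = univ := OpenPartialHomeomorph.univBall_source _ _
  have hut : u.target = ball 0 R := OpenPartialHomeomorph.univBall_target _ hR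
  have hue : IsOpenEmbedding u := u.isOpenEmbedding hus
  have hur : range u = ball 0 R := by rw [← image_univ, ← hus, u.image_source_eq_target, hut]
  have hm : ∀ z, j (u z) ∈ j '' ball 0 R := fun z =>
    mem_image_of_mem j (hur ▸ mem_range_self z)
  refine ⟨fun z => cnj A g g' s (j (u z)), IsOpenEmbedding.of_continuous_injective_isOpenMap
    (h1.comp_continuous (hj.continuous.comp hue.continuous) hm)
    (fun z w e => hue.injective (hj.injective (h2 (hm z) (hm w) e))) fun W hW => ?_, ?_, ?_⟩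
  · have := h3 (j '' (u '' W)) (by rintro _ ⟨_, ⟨z, -, rfl⟩, rfl⟩; exact hm z)
      (hj.isOpenMap _ (hue.isOpenMap _ hW))
    rwa [image_image, image_image] at this
  · intro x hx
    obtain ⟨z, rfl⟩ := hAj hx
    obtain ⟨w, rfl⟩ : z ∈ range u := hur ▸ hAR hx
    exact ⟨w, if_pos hx⟩
  · rintro _ ⟨z, rfl⟩
    by_cases hx : j (u z) ∈ A
    · show cnj A g g' s (j (u z)) ∈ U
      rw [cnj, if_pos hx]; exact hAU hx
    · show cnj A g g' s (j (u z)) ∈ U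
      rw [cnj, if_neg hx]
      refine (hVU _ (hm z)).1 fun e => h.ne _ hx (hjq _) (s.injective ?_)
      rw [e, hs.self_of_nhds]

end Pool.Agent.MP_6374aa_g.BR

end

section

/-! A cellular set has a shrinking sequence. -/

namespace Pool.Agent.MP_6374aa_g.BR

open Topology Set Metric Classical

variable {X : Type} [TopologicalSpace X] {K A : Set X} {F : X → Eu 3} {P : Eu 3 → X} {q a : X}
  {g g' : X → X}

theorem step {K A : Set (Eu 3)} {F : Eu 3 → Eu 3} (h : Cp K A F) (hc : Cellu A)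
    (k : Eu 3 ≃ₜ Eu 3) {t ε : ℝ} (ht : 0 < t) (ht1 : t ≤ 1) (hε : 0 < ε) :
    ∃ (k' : Eu 3 ≃ₜ Eu 3) (t' : ℝ), 0 < t' ∧ t' ≤ t ∧ t' ≤ ε ∧
      (∀ x, x ∉ Lv K F t → k' x = k x) ∧
      ∀ x ∈ Lv K F t', ∀ y ∈ Lv K F t', dist (k' x) (k' y) ≤ ε := by
  obtain ⟨e, e1, e2, e3⟩ := hc _ (h.opn_lv ht1) (h.sub_lv ht)
  obtain ⟨s, -, s2, U, u1, u2, u3⟩ := shrink e1 0 h.cptA e2
    (k.continuous.continuousAt (ball_mem_nhds (k (e 0)) (half_pos hε)))
  obtain ⟨r, r1, r2⟩ := h.small u1 u2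
  have key : ∀ x ∈ Lv K F (min r (min t ε)), dist (k (s x)) (k (e 0)) < ε / 2 := fun x hx =>
    u3 x (r2 ⟨hx.1, hx.2.trans_le (min_le_left _ _)⟩)
  refine ⟨s.trans k, min r (min t ε), lt_min r1 (lt_min ht hε),
    (min_le_right _ _).trans (min_le_left _ _), (min_le_right _ _).trans (min_le_right _ _),
    fun x hx => congrArg k (s2 x fun c => hx (e3 c)), fun x hx y hy => ?_⟩
  have := dist_triangle_right (k (s x)) (k (s y)) (k (e 0))
  have := key x hx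
  have := key y hy
  change dist (k (s x)) (k (s y)) ≤ ε
  linarith

theorem exists_sq {K A : Set (Eu 3)} {F : Eu 3 → Eu 3} (h : Cp K A F) (hc : Cellu A) :
    ∃ k t, Sq K F k t := by
  have key : ∀ (i : ℕ) (p : (Eu 3 ≃ₜ Eu 3) × {t : ℝ // 0 < t ∧ t ≤ 1}),
      ∃ p' : (Eu 3 ≃ₜ Eu 3) × {t : ℝ // 0 < t ∧ t ≤ 1}, p'.2.1 ≤ p.2.1 ∧
        p'.2.1 ≤ 1 / ((i : ℝ) + 1) ∧ (∀ x, x ∉ Lv K F p.2.1 → p'.1 x = p.1 x) ∧
        ∀ x ∈ Lv K F p'.2.1, ∀ y ∈ Lv K F p'.2.1, dist (p'.1 x) (p'.1 y) ≤ 1 / ((i : ℝ) + 1) :=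
    fun i p => by
      obtain ⟨k', t', a1, a2, a3⟩ := step h hc p.1 p.2.2.1 p.2.2.2
        (Nat.one_div_pos_of_nat (n := i))
      exact ⟨(k', ⟨t', a1, a2.trans p.2.2.2⟩), a2, a3⟩
  choose f hf using key
  let u : ℕ → (Eu 3 ≃ₜ Eu 3) × {t : ℝ // 0 < t ∧ t ≤ 1} := fun n =>
    Nat.rec (Homeomorph.refl _, ⟨1, one_pos, le_rfl⟩) f n
  exact ⟨fun n => (u n).1, fun n => (u n).2.1, fun _ => rfl, rfl, fun n => (u n).2.2.1,
    fun n => (hf n (u n)).1, fun n => (hf n (u n)).2.1, fun n => (hf n (u n)).2.2.1,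
    fun n => (hf n (u n)).2.2.2⟩

end Pool.Agent.MP_6374aa_g.BR

end

section

/-! The limit of a shrinking sequence. -/

namespace Pool.Agent.MP_6374aa_g.BR

open Topology Set Metric Classical

variable {X : Type} [TopologicalSpace X] {K A : Set X} {F : X → Eu 3} {P : Eu 3 → X} {q a : X}
  {g g' : X → X}

theorem Sq.agree {K : Set (Eu 3)} {F : Eu 3 → Eu 3} {k : ℕ → Eu 3 ≃ₜ Eu 3} {t : ℕ → ℝ}
    (hs : Sq K F k t) {i m : ℕ} (him : i ≤ m) {x : Eu 3} (hx : x ∉ Lv K F (t i)) : k m x = k i x := by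
  induction m, him using Nat.le_induction with
  | base => rfl
  | succ m hm ih =>
    rw [hs.off m x fun c => hx ⟨c.1, c.2.trans_le (antitone_nat_of_succ_le hs.anti hm)⟩, ih]

theorem Sq.image {K : Set (Eu 3)} {F : Eu 3 → Eu 3} {k : ℕ → Eu 3 ≃ₜ Eu 3} {t : ℕ → ℝ}
    (hs : Sq K F k t) {i m : ℕ} (him : i ≤ m) : k m '' Lv K F (t i) = k i '' Lv K F (t i) := by
  apply compl_injective
  rw [← image_compl_eq (k m).bijective, ← image_compl_eq (k i).bijective]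
  exact image_congr fun x hx => hs.agree him hx

theorem Sq.limit {K : Set (Eu 3)} {F : Eu 3 → Eu 3} {k : ℕ → Eu 3 ≃ₜ Eu 3} {t : ℕ → ℝ}
    (hs : Sq K F k t) : ∃ H : Eu 3 → Eu 3, Continuous H ∧
      (∀ x, Filter.Tendsto (fun i => k i x) Filter.atTop (𝓝 (H x))) ∧
      ∀ (i : ℕ) x, dist (k (i + 1) x) (H x) ≤ 1 / ((i : ℝ) + 1) := by
  have key : ∀ (i m : ℕ) x, i + 1 ≤ m → dist (k (i + 1) x) (k m x) ≤ 1 / ((i : ℝ) + 1) := by
    intro i m x him
    by_cases c : x ∈ Lv K F (t (i + 1))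
    · obtain ⟨y, hy, e⟩ : k m x ∈ k (i + 1) '' Lv K F (t (i + 1)) :=
        hs.image him ▸ mem_image_of_mem _ c
      rw [← e]
      exact hs.diam i x c y hy
    · rw [hs.agree him c, dist_self]
      positivity
  have hc : ∀ x, CauchySeq fun i => k i x := fun x => Metric.cauchySeq_iff'.2 fun ε hε => by
    obtain ⟨n, hn⟩ := exists_nat_one_div_lt hε
    exact ⟨n + 1, fun m hm => by rw [dist_comm]; exact (key n m x hm).trans_lt hn⟩
  choose H hH using fun x => cauchySeq_tendsto_of_complete (hc x)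
  have hb : ∀ (i : ℕ) x, dist (k (i + 1) x) (H x) ≤ 1 / ((i : ℝ) + 1) := fun i x =>
    le_of_tendsto (tendsto_const_nhds.dist (hH x))
      ((Filter.eventually_ge_atTop (i + 1)).mono fun m hm => key i m x hm)
  refine ⟨H, ?_, hH, hb⟩
  have hu : TendstoUniformly (fun i x => k (i + 1) x) H Filter.atTop :=
    Metric.tendstoUniformly_iff.2 fun ε hε =>
      ((tendsto_one_div_add_atTop_nhds_zero_nat (𝕜 := ℝ)).eventually (gt_mem_nhds hε)).mono
        fun i hi x => by rw [dist_comm]; exact (hb i x).trans_lt hi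
  exact hu.continuous (Filter.Frequently.of_forall fun i => (k (i + 1)).continuous)

end Pool.Agent.MP_6374aa_g.BR

end
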