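import Pool.Agent.MP_6374aa_gt.Defs
import Pool.Agent.MP_6374aa_g.SDefs

section

/-!
Internal definitions: chains in an exterior algebra, the edge path group, covers, packs.
-/

namespace Pool.Agent.MP_6374aa_gt

open Classical

noncomputable section

variable {V V' V'' : Type}

/-! ### Chains.  `n` always counts vertices (degree plus one); chains are augmented. -/

abbrev EA (V : Type) : Type := ExteriorAlgebra ℚ (V →₀ ℚ)

def vx (v : V) : EA V := ExteriorAlgebra.ι ℚ (Finsupp.single v (1 : ℚ))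

def wedge (l : List V) : EA V := (l.map vx).prod

def IsCl (G : SimpleGraph V) (S : Set V) (l : List V) : Prop :=
  (∀ x ∈ l, x ∈ S) ∧ ∀ x ∈ l, ∀ y ∈ l, Adq G x y

def Ch (G : SimpleGraph V) (S : Set V) (n : ℕ) : Submodule ℚ (EA V) :=
  Submodule.span ℚ {z | ∃ l : List V, l.length = n ∧ IsCl G S l ∧ z = wedge l}

def ctr (f : (V →₀ ℚ) →ₗ[ℚ] ℚ) : EA V →ₗ[ℚ] EA V :=
  CliffordAlgebra.contractLeft (Q := (0 : QuadraticForm ℚ (V →₀ ℚ))) f

/-- The boundary operator. -/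
def bd : EA V →ₗ[ℚ] EA V := ctr (Finsupp.linearCombination ℚ fun _ : V => (1 : ℚ))

/-- Contraction with the coordinate of the vertex `v`. -/
def iv (v : V) : EA V →ₗ[ℚ] EA V := ctr (Finsupp.lapply v)

def emap (f : V → V') : EA V →ₗ[ℚ] EA V' :=
  (ExteriorAlgebra.map (Finsupp.lmapDomain ℚ ℚ f)).toLinearMap

def Zy (G : SimpleGraph V) (S : Set V) (n : ℕ) : Submodule ℚ (EA V) :=
  Ch G S n ⊓ LinearMap.ker bd

def Bd (G : SimpleGraph V) (S : Set V) (n : ℕ) : Submodule ℚ (EA V) := (Ch G S (n + 1)).map bd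

def IsHom (G' : SimpleGraph V') (A' : Set V') (G : SimpleGraph V) (A : Set V) (f : V' → V) :
    Prop :=
  (∀ a ∈ A', f a ∈ A) ∧ ∀ a ∈ A', ∀ b ∈ A', G'.Adj a b → Adq G (f a) (f b)

/-- Strong contiguity. -/
def SC (G' : SimpleGraph V') (A' : Set V') (G : SimpleGraph V) (f g : V' → V) : Prop :=
  ∀ a ∈ A', ∀ b ∈ A', Adq G' a b → Adq G (f a) (g b)

/-- Isomorphism of the complexes on `A'` and `A`. -/
def IsIso (G' : SimpleGraph V') (A' : Set V') (G : SimpleGraph V) (A : Set V) (f : V' → V) :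
    Prop :=
  Set.BijOn f A' A ∧ ∀ a ∈ A', ∀ b ∈ A', (G'.Adj a b ↔ G.Adj (f a) (f b))

def Fin3 (G : SimpleGraph V) (A : Set V) : Prop :=
  A.Finite ∧ ∀ s : Finset V, ↑s ⊆ A → G.IsClique (s : Set V) → s.card ≤ 4

/-- There is a walk of length at most `n` in `A`. -/
def Near (G : SimpleGraph V) (A : Set V) : ℕ → V → V → Prop
  | 0, a, b => a = b
  | n + 1, a, b => ∃ c ∈ A, Adq G a c ∧ Near G A n c b

/-- The collapse of everything outside `A` to `v`. -/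
def col (A : Set V) (v : V) (x : V) : V := if x ∈ A then x else v

/-! ### The universal group of the edge path groupoid -/

def grels (G : SimpleGraph V) (A : Set V) : Set (FreeGroup (V × V)) :=
  {r | ∃ u ∈ A, ∃ v ∈ A, ∃ w ∈ A, Adq G u v ∧ Adq G v w ∧ Adq G u w ∧
    r = FreeGroup.of (u, v) * FreeGroup.of (v, w) * (FreeGroup.of (u, w))⁻¹}

abbrev Gp (G : SimpleGraph V) (A : Set V) : Type := PresentedGroup (grels G A)

def gen (G : SimpleGraph V) (A : Set V) (u w : V) : Gp G A := PresentedGroup.of (u, w)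

def Flat (G : SimpleGraph V) (A : Set V) {L : Type} [Group L] (lab : V → V → L) : Prop :=
  ∀ u ∈ A, ∀ v ∈ A, ∀ w ∈ A, Adq G u v → Adq G v w → Adq G u w → lab u v * lab v w = lab u w

def glift (G : SimpleGraph V) (A : Set V) {L : Type} [Group L] (lab : V → V → L) :
    Gp G A →* L :=
  if h : Flat G A lab then
    PresentedGroup.toGroup (f := fun p : V × V => lab p.1 p.2) (by
      rintro r ⟨u, hu, v, hv, w, hw, h1, h2, h3, rfl⟩
      simp [h u hu v hv w hw h1 h2 h3])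
  else 1

def gmap (G' : SimpleGraph V') (A' : Set V') (G : SimpleGraph V) (A : Set V) (f : V' → V) :
    Gp G' A' →* Gp G A :=
  glift G' A' fun u w => gen G A (f u) (f w)

inductive Path (G : SimpleGraph V) (A : Set V) : V → V → Gp G A → Prop
  | nil {y : V} : y ∈ A → Path G A y y 1
  | cons {u w y : V} {γ : Gp G A} : u ∈ A → Adq G u w → Path G A w y γ →
      Path G A u y (gen G A u w * γ)

def Loop (G : SimpleGraph V) (A : Set V) (y : V) : Subgroup (Gp G A) :=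
  Subgroup.closure {γ | Path G A y y γ}

def PConn (G : SimpleGraph V) (A : Set V) : Prop :=
  A.Nonempty ∧ ∀ a ∈ A, ∀ b ∈ A, ∃ γ, Path G A a b γ

/-- Connected and simply connected. -/
def SConn (G : SimpleGraph V) (A : Set V) : Prop :=
  PConn G A ∧ ∀ a γ, Path G A a a γ → γ = 1

/-- Every embedding in a free product is conjugate into a factor. -/
def HasE (H : Type) [Group H] : Prop :=
  ∀ (A B : Type) [Group A] [Group B] (φ : H →* Monoid.Coprod A B), Function.Injective φ →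
    ∃ w : Monoid.Coprod A B,
      (∀ h, w⁻¹ * φ h * w ∈ (Monoid.Coprod.inl : A →* Monoid.Coprod A B).range) ∨
      (∀ h, w⁻¹ * φ h * w ∈ (Monoid.Coprod.inr : B →* Monoid.Coprod A B).range)

/-! ### Covers -/

def cov (G : SimpleGraph V) {H : Type} [Group H] (lab : V → V → H) (Ω : Type) [MulAction H Ω] :
    SimpleGraph (V × Ω) where
  Adj p q := G.Adj p.1 q.1 ∧ p.2 = lab p.1 q.1 • q.2 ∧ q.2 = lab q.1 p.1 • p.2
  symm := ⟨fun _ _ h => ⟨h.1.symm, h.2.2, h.2.1⟩⟩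
  loopless := ⟨fun _ h => G.irrefl h.1⟩

def up (A : Set V) (Ω : Type) : Set (V × Ω) := {p | p.1 ∈ A}

/-- The component of the base point in the cover belonging to `Γ`. -/
def comp (G : SimpleGraph V) (A : Set V) (Γ : Subgroup (Gp G A)) (y : V) :
    Set (V × (Gp G A ⧸ Γ)) :=
  {p | ∃ γ, Path G A p.1 y γ ∧ p.2 = QuotientGroup.mk γ}

/-- Cycles that lift, up to boundaries, to the cover belonging to `Γ`. -/
def II (G : SimpleGraph V) (A : Set V) (Γ : Subgroup (Gp G A)) (y : V) (n : ℕ) :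
    Submodule ℚ (EA V) :=
  (Zy (cov G (gen G A) (Gp G A ⧸ Γ)) (comp G A Γ y) n).map (emap Prod.fst) ⊔ Bd G A n

/-- The lift of `c` to the covers. -/
def lift1 (c : V' → V) (Ω : Type) (p : V' × Ω) : V × Ω := (c p.1, p.2)

/-! ### Homology manifolds -/

/-- Homology sphere whose top simplices have `d` vertices. -/
def HS (G : SimpleGraph V) (S : Set V) (d : ℕ) : Prop :=
  (∀ n, n ≠ d → Zy G S n ≤ Bd G S n) ∧
    ∃ ζ ∈ Zy G S d, ζ ≠ 0 ∧ (∀ z ∈ Zy G S d, ∃ r : ℚ, z = r • ζ) ∧ ∀ v ∈ S, iv v ζ ≠ 0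

def LocS (G : SimpleGraph V) (S : Set V) (d : ℕ) : Prop :=
  ∀ σ : Finset V, σ.Nonempty → ↑σ ⊆ S → G.IsClique (σ : Set V) →
    σ.card ≤ d ∧ HS G (Lk G S σ) (d - σ.card)

/-- Oriented connected rational homology 3-manifold. -/
def Mf (G : SimpleGraph V) (A : Set V) : Prop :=
  A.Finite ∧ PConn G A ∧ LocS G A 4 ∧ ∃ ζ ∈ Zy G A 4, ∀ v ∈ A, iv v ζ ≠ 0

/-- Removing `v` and part of its link does not change the homology below the top degree. -/
structure Rem (G : SimpleGraph V) (M : Set V) (v : V) : Prop where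
  inj : ∀ T ⊆ Lk G M {v}, ∀ n, ∀ z ∈ Zy G ((M \ insert v (Lk G M {v})) ∪ T) n,
    z ∈ Bd G M n → z ∈ Bd G ((M \ insert v (Lk G M {v})) ∪ T) n
  surj : ∀ T ⊆ Lk G M {v}, ∀ n ≤ 3,
    Zy G M n ≤ Zy G ((M \ insert v (Lk G M {v})) ∪ T) n ⊔ Bd G M n
  top : ∀ z ∈ Zy G (M \ {v}) 4, z = 0

/-- A chain of strongly contiguous maps from the identity to a constant. -/
def Contr (G : SimpleGraph V) (S : Set V) : Prop :=
  ∃ (m : ℕ) (f : ℕ → V → V) (a : V), a ∈ S ∧ (∀ x ∈ S, f 0 x = x) ∧ (∀ x ∈ S, f m x = a) ∧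
    (∀ i, IsHom G S G S (f i)) ∧ ∀ i, SC G S G (f i) (f (i + 1))

/-- Cell-like maps. -/
def CL (G' : SimpleGraph V') (A' : Set V') (G : SimpleGraph V) (A : Set V) (c : V' → V) : Prop :=
  IsHom G' A' G A c ∧ ∀ τ : Finset V, τ.Nonempty → ↑τ ⊆ A → G.IsClique (τ : Set V) →
    Contr G' (A' ∩ c ⁻¹' τ)

/-! ### Packs: free product decomposition and the matching splitting of homology -/

structure Pack (G : SimpleGraph V) (A : Set V) where
  X : Type
  [finX : Fintype X]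
  a : X → V
  Λ : X → Subgroup (Gp G A)
  fin3 : Fin3 G A
  conn : PConn G A
  mem : ∀ x, a x ∈ A
  loop : ∀ x, Λ x ≤ Loop G A (a x)
  ne : ∀ x, Λ x ≠ ⊥
  hasE : ∀ x, HasE (Λ x)
  k1 : ∀ y ∈ A, ∀ H : Subgroup (Gp G A), H ≤ Loop G A y → H ≠ ⊥ → HasE H →
    ∃ x γ, Path G A y (a x) γ ∧ ∀ δ ∈ H, γ⁻¹ * δ * γ ∈ Λ x
  k2 : ∀ x x' γ, Path G A (a x) (a x') γ → ∀ δ ∈ Λ x, δ ≠ 1 → γ⁻¹ * δ * γ ∈ Λ x' →
    x = x' ∧ γ ∈ Λ x
  k3 : ∀ x, ∃ ρ : Gp G A →* Gp G A, (∀ δ ∈ Λ x, ρ δ = δ) ∧ (∀ δ, ρ δ ∈ Λ x) ∧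
    ∀ y, y ≠ x → ∀ δ ∈ Λ y, ρ δ = 1
  k4 : ∀ y ∈ A, Loop G A y ≤ Subgroup.normalClosure (⋃ x, (Λ x : Set (Gp G A)))
  h1 : ∀ y ∈ A, ∀ n, n = 2 ∨ n = 3 → II G A ⊥ y n ≤ Bd G A n
  h2 : ∀ n, n = 2 ∨ n = 3 → Zy G A n ≤ Bd G A n ⊔ ⨆ x, II G A (Λ x) (a x) n
  h3 : ∀ n, n = 2 ∨ n = 3 → ∀ z : X → EA V, (∀ x, z x ∈ II G A (Λ x) (a x) n) →
    ∑ x, z x ∈ Bd G A n → ∀ x, z x ∈ Bd G A n

attribute [instance] Pack.finX

def Pack.I {G : SimpleGraph V} {A : Set V} (P : Pack G A) (x : P.X) (n : ℕ) :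
    Submodule ℚ (EA V) := II G A (P.Λ x) (P.a x) n

/-- `f` maps the factor at `x'` isomorphically onto a conjugate of the factor at `x`. -/
def MatchAt {G' : SimpleGraph V'} {A' : Set V'} {G : SimpleGraph V} {A : Set V} (f : V' → V)
    (P' : Pack G' A') (x' : P'.X) (P : Pack G A) (x : P.X) : Prop :=
  (∀ δ ∈ P'.Λ x', gmap G' A' G A f δ = 1 → δ = 1) ∧
    ∃ γ, Path G A (f (P'.a x')) (P.a x) γ ∧
      (∀ δ ∈ P'.Λ x', γ⁻¹ * gmap G' A' G A f δ * γ ∈ P.Λ x) ∧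
      ∀ δ ∈ P.Λ x, ∃ δ' ∈ P'.Λ x', γ⁻¹ * gmap G' A' G A f δ' * γ = δ

/-- Local homological properties of a collapse. -/
structure Loc (G' : SimpleGraph V') (A' : Set V') (G : SimpleGraph V) (A : Set V) (c : V' → V) :
    Prop where
  hom : IsHom G' A' G A c
  surj : ∀ v ∈ A, ∃ w ∈ A', c w = v
  s1 : ∀ n, ∀ S ⊆ A, ∀ z ∈ Zy G' (A' ∩ c ⁻¹' S) n, emap c z ∈ Bd G S n → z ∈ Bd G' A' n →
    z ∈ Bd G' (A' ∩ c ⁻¹' S) n
  s2 : ∀ n, ∀ S ⊆ A, ∀ z ∈ Zy G S n, ∃ z' ∈ Zy G' (A' ∩ c ⁻¹' S) n, emap c z' - z ∈ Bd G S n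
  ls : ∀ n, n = 2 ∨ n = 3 → ∀ S ⊆ A, ∀ z ∈ Zy G' (A' ∩ c ⁻¹' S) n, emap c z ∈ Bd G S n →
    z ∈ Bd G' (A' ∩ c ⁻¹' S) n ⊔ ⨆ u ∈ S, Zy G' (A' ∩ c ⁻¹' {u}) n
  ind : ∀ n, n = 2 ∨ n = 3 → ∀ (s : Finset V) (z : V → EA V'), ↑s ⊆ A →
    (∀ u ∈ s, z u ∈ Zy G' (A' ∩ c ⁻¹' {u}) n) → ∑ u ∈ s, z u ∈ Bd G' A' n →
    ∀ u ∈ s, z u ∈ Bd G' A' n
  top : ∀ z ∈ Zy G' A' 4, emap c z = 0 → z = 0

/-- The pack `P'` extends the pack `P` along the collapse `c`. -/
structure Ext {G' : SimpleGraph V'} {A' : Set V'} {G : SimpleGraph V} {A : Set V} (c : V' → V)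
    (P' : Pack G' A') (P : Pack G A) (j : P.X → P'.X) : Prop where
  loc : Loc G' A' G A c
  inj : Function.Injective j
  old : ∀ x, MatchAt c P' (j x) P x
  new : ∀ x', x' ∉ Set.range j → ∀ δ ∈ P'.Λ x', gmap G' A' G A c δ = 1
  gauge : ∀ (L : Type) [Group L] (ρ : Gp G' A' →* L),
    (∀ x', x' ∉ Set.range j → ∀ δ ∈ P'.Λ x', ρ δ = 1) →
    ∃ (lab : V → V → L) (k : V' → L), Flat G A lab ∧
      ∀ u ∈ A', ∀ w ∈ A', Adq G' u w → ρ (gen G' A' u w) = k u * lab (c u) (c w) * (k w)⁻¹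
  ker : ∀ n, n = 2 ∨ n = 3 → ∀ z ∈ Zy G' A' n, emap c z ∈ Bd G A n →
    z ∈ Bd G' A' n ⊔ ⨆ x' ∉ Set.range j, P'.I x' n
  loc1 : ∀ n, n = 2 ∨ n = 3 → ∀ x', x' ∉ Set.range j →
    ∃ u ∈ A, P'.I x' n ≤ Zy G' (A' ∩ c ⁻¹' {u}) n ⊔ Bd G' A' n
  loc2 : ∀ n, n = 2 ∨ n = 3 → ∀ x, ∀ S ⊆ A, P.I x n ≤ Zy G S n ⊔ Bd G A n →
    P'.I (j x) n ≤ Zy G' (A' ∩ c ⁻¹' S) n ⊔ Bd G' A' n

/-- Equivalences on the edge path groupoid and on the low homology of covers. -/
structure SE (G' : SimpleGraph V') (A' : Set V') (G : SimpleGraph V) (A : Set V) (f : V' → V) :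
    Prop where
  hom : IsHom G' A' G A f
  ess : ∀ y ∈ A, ∃ y' ∈ A', ∃ γ, Path G A y (f y') γ
  full : ∀ x' ∈ A', ∀ y' ∈ A', ∀ γ, Path G A (f x') (f y') γ →
    ∃ γ', Path G' A' x' y' γ' ∧ gmap G' A' G A f γ' = γ
  faith : ∀ y' γ', Path G' A' y' y' γ' → gmap G' A' G A f γ' = 1 → γ' = 1
  hinj : ∀ n, n = 2 ∨ n = 3 → ∀ z ∈ Zy G' A' n, emap f z ∈ Bd G A n → z ∈ Bd G' A' n
  hsurj : ∀ n, n = 2 ∨ n = 3 → ∀ z ∈ Zy G A n, ∃ z' ∈ Zy G' A' n, emap f z' - z ∈ Bd G A n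
  isurj : ∀ n, n = 2 ∨ n = 3 → ∀ y' ∈ A', ∀ Γ' : Subgroup (Gp G' A'), Γ' ≤ Loop G' A' y' →
    ∀ z ∈ II G A (Γ'.map (gmap G' A' G A f)) (f y') n,
      ∃ z' ∈ II G' A' Γ' y' n, emap f z' - z ∈ Bd G A n

/-- Packs extend along `c`. -/
def ExtQ (G' : SimpleGraph V') (A' : Set V') (G : SimpleGraph V) (A : Set V) (c : V' → V) :
    Prop :=
  ∀ P : Pack G A, ∃ (P' : Pack G' A') (j : P.X → P'.X), Ext c P' P j

/-- Packs extend along the lifts of `c` to finite covers. -/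
def CovQ (G' : SimpleGraph V') (A' : Set V') (G : SimpleGraph V) (A : Set V) (c : V' → V) :
    Prop :=
  IsHom G' A' G A c ∧ ∀ (L : Type) [Group L] [Finite L] (lab : V → V → L), Flat G A lab →
    ExtQ (cov G' (fun u w => lab (c u) (c w)) L) (up A' L) (cov G lab L) (up A L) (lift1 c L)

/-- An equivalence along which packs extend without new sites. -/
def Q0 (G' : SimpleGraph V') (A' : Set V') (G : SimpleGraph V) (A : Set V) (c : V' → V) : Prop :=
  SE G' A' G A c ∧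
    ∀ P : Pack G A, ∃ (P' : Pack G' A') (j : P.X → P'.X), Ext c P' P j ∧ Function.Surjective j

/-- The same for `c` and all its lifts to finite covers. -/
def Q1 (G' : SimpleGraph V') (A' : Set V') (G : SimpleGraph V) (A : Set V) (c : V' → V) : Prop :=
  Q0 G' A' G A c ∧ ∀ (L : Type) [Group L] [Finite L] (lab : V → V → L), Flat G A lab →
    Q0 (cov G' (fun u w => lab (c u) (c w)) L) (up A' L) (cov G lab L) (up A L) (lift1 c L)

end

end Pool.Agent.MP_6374aa_gt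

end

section

namespace Pool.Agent.MP_6374aa_gt

open Classical

variable {V V' V'' : Type} {G : SimpleGraph V} {G' : SimpleGraph V'} {G'' : SimpleGraph V''}

theorem Adq.refl (G : SimpleGraph V) (a : V) : Adq G a a := Or.inl rfl
theorem Adq.symm {a b : V} (h : Adq G a b) : Adq G b a := by
  rcases h with h | h
  · exact Or.inl h.symm
  · exact Or.inr h.symm
theorem IsHom.adq {A' : Set V'} {A : Set V} {f : V' → V} (h : IsHom G' A' G A f) {a b : V'}
    (ha : a ∈ A') (hb : b ∈ A') (hab : Adq G' a b) : Adq G (f a) (f b) := by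
  rcases hab with rfl | hab
  · exact Or.inl rfl
  · exact h.2 a ha b hb hab
theorem IsHom.id (G : SimpleGraph V) {S T : Set V} (h : S ⊆ T) : IsHom G S G T id :=
  ⟨fun _ ha => h ha, fun _ _ _ _ hab => Or.inr hab⟩
theorem IsHom.comp {A'' : Set V''} {A' : Set V'} {A : Set V} {f : V' → V} {g : V'' → V'}
    (hf : IsHom G' A' G A f) (hg : IsHom G'' A'' G' A' g) : IsHom G'' A'' G A (f ∘ g) :=
  ⟨fun a ha => hf.1 _ (hg.1 a ha),
    fun a ha b hb hab => hf.adq (hg.1 a ha) (hg.1 b hb) (hg.2 a ha b hb hab)⟩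
theorem IsHom.mono {A' S' : Set V'} {A S : Set V} {f : V' → V} (hf : IsHom G' A' G A f)
    (h' : S' ⊆ A') (h : ∀ a ∈ S', f a ∈ S) : IsHom G' S' G S f :=
  ⟨h, fun a ha b hb hab => hf.2 a (h' ha) b (h' hb) hab⟩
theorem IsIso.isHom {A' : Set V'} {A : Set V} {f : V' → V} (h : IsIso G' A' G A f) :
    IsHom G' A' G A f :=
  ⟨fun _ ha => h.1.mapsTo ha, fun a ha b hb hab => Or.inr ((h.2 a ha b hb).1 hab)⟩
theorem IsIso.exists_inv [Nonempty V'] {A' : Set V'} {A : Set V} {f : V' → V}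
    (h : IsIso G' A' G A f) :
    ∃ g, IsIso G A G' A' g ∧ (∀ a ∈ A', g (f a) = a) ∧ ∀ b ∈ A, f (g b) = b := by
  have hinv := h.1.invOn_invFunOn
  have hb : Set.BijOn (Function.invFunOn f A') A A' := Set.BijOn.symm hinv.symm h.1
  refine ⟨Function.invFunOn f A', ⟨hb, fun a ha b hb' => ?_⟩, fun a ha => hinv.1 ha,
    fun b hb' => hinv.2 hb'⟩
  rw [h.2 _ (hb.mapsTo ha) _ (hb.mapsTo hb'), hinv.2 ha, hinv.2 hb']

@[simp] theorem wedge_nil : wedge ([] : List V) = 1 := by simp [wedge]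
@[simp] theorem wedge_cons (a : V) (l : List V) : wedge (a :: l) = vx a * wedge l := by
  simp [wedge]
theorem wedge_append (l m : List V) : wedge (l ++ m) = wedge l * wedge m := by simp [wedge]
theorem vx_mul_vx_self (a : V) : vx a * vx a = 0 := ExteriorAlgebra.ι_sq_zero _
theorem vx_mul_vx_comm (a b : V) : vx a * vx b = - (vx b * vx a) :=
  eq_neg_of_add_eq_zero_left (ExteriorAlgebra.ι_add_mul_swap _ _)

theorem vx_mul_wedge_of_mem_ChA1 {a : V} {l : List V} (h : a ∈ l) : vx a * wedge l = 0 := by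
  induction l with
  | nil => simp at h
  | cons b l ih =>
    rw [wedge_cons, ← mul_assoc]
    rcases List.mem_cons.1 h with rfl | h
    · rw [vx_mul_vx_self, zero_mul]
    · rw [vx_mul_vx_comm, neg_mul, mul_assoc, ih h, mul_zero, neg_zero]

theorem wedge_eq_zero_of_not_nodup {l : List V} (h : ¬ l.Nodup) : wedge l = 0 := by
  induction l with
  | nil => simp at h
  | cons b l ih =>
    rw [wedge_cons]
    by_cases hb : b ∈ l
    · exact vx_mul_wedge_of_mem_ChA1 hb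
    · rw [ih fun hl => h (List.nodup_cons.2 ⟨hb, hl⟩), mul_zero]
theorem wedge_perm {l m : List V} (h : l.Perm m) : wedge l = wedge m ∨ wedge l = - wedge m := by
  induction h with
  | nil => exact Or.inl rfl
  | cons a _ ih =>
    rcases ih with ih | ih
    · left; rw [wedge_cons, wedge_cons, ih]
    · right; rw [wedge_cons, wedge_cons, ih, mul_neg]
  | swap a b l =>
    right
    rw [wedge_cons, wedge_cons, wedge_cons, wedge_cons, ← mul_assoc, ← mul_assoc,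
      vx_mul_vx_comm, neg_mul]
  | trans _ _ ih1 ih2 =>
    rcases ih1 with ih1 | ih1 <;> rcases ih2 with ih2 | ih2
    · left; rw [ih1, ih2]
    · right; rw [ih1, ih2]
    · right; rw [ih1, ih2]
    · left; rw [ih1, ih2, neg_neg]
theorem wedge_mem_Ch {S : Set V} {l : List V} (h : IsCl G S l) : wedge l ∈ Ch G S l.length :=
  Submodule.subset_span ⟨l, rfl, h, rfl⟩
/-- Induction principle for chains; only lists without repetition are needed. -/
theorem Ch_induction {S : Set V} {n : ℕ} {p : EA V → Prop} (h0 : p 0)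
    (hadd : ∀ x y, x ∈ Ch G S n → y ∈ Ch G S n → p x → p y → p (x + y))
    (hsmul : ∀ (r : ℚ) x, x ∈ Ch G S n → p x → p (r • x))
    (hw : ∀ l : List V, l.length = n → l.Nodup → IsCl G S l → p (wedge l))
    {z : EA V} (hz : z ∈ Ch G S n) : p z := by
  unfold Ch at hz
  induction hz using Submodule.span_induction with
  | mem x hx =>
    obtain ⟨l, hl, hc, rfl⟩ := hx
    by_cases hn : l.Nodup
    · exact hw l hl hn hc
    · rw [wedge_eq_zero_of_not_nodup hn]; exact h0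
  | zero => exact h0
  | add x y hx hy px py => exact hadd x y hx hy px py
  | smul r x hx px => exact hsmul r x hx px
theorem Ch_le_of {S : Set V} {n : ℕ} {N : Submodule ℚ (EA V)}
    (h : ∀ l : List V, l.length = n → l.Nodup → IsCl G S l → wedge l ∈ N) : Ch G S n ≤ N :=
  fun _ hz => Ch_induction (p := fun z => z ∈ N) N.zero_mem
    (fun _ _ _ _ hx hy => N.add_mem hx hy) (fun r _ _ hx => N.smul_mem r hx) h hz
theorem Ch_mono {S T : Set V} (h : S ⊆ T) (n : ℕ) : Ch G S n ≤ Ch G T n :=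
  Submodule.span_mono fun _ ⟨l, hl, hc, hz⟩ => ⟨l, hl, ⟨fun x hx => h (hc.1 x hx), hc.2⟩, hz⟩
theorem Zy_mono {S T : Set V} (h : S ⊆ T) (n : ℕ) : Zy G S n ≤ Zy G T n :=
  inf_le_inf_right _ (Ch_mono h n)
theorem Bd_mono {S T : Set V} (h : S ⊆ T) (n : ℕ) : Bd G S n ≤ Bd G T n :=
  Submodule.map_mono (Ch_mono h (n + 1))
theorem mem_Zy {S : Set V} {n : ℕ} {z : EA V} : z ∈ Zy G S n ↔ z ∈ Ch G S n ∧ bd z = 0 :=
  Iff.rfl
theorem mem_Bd {S : Set V} {n : ℕ} {z : EA V} :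
    z ∈ Bd G S n ↔ ∃ w ∈ Ch G S (n + 1), bd w = z := Submodule.mem_map
theorem mem_Ch_zero {S : Set V} {z : EA V} : z ∈ Ch G S 0 ↔ ∃ r : ℚ, z = r • (1 : EA V) := by
  constructor
  · intro hz
    refine Ch_induction (p := fun z => ∃ r : ℚ, z = r • (1 : EA V)) ⟨0, by simp⟩ ?_ ?_ ?_ hz
    · rintro _ _ _ _ ⟨r, rfl⟩ ⟨s, rfl⟩
      exact ⟨r + s, by rw [add_smul]⟩
    · rintro r _ _ ⟨s, rfl⟩
      exact ⟨r * s, by rw [mul_smul]⟩
    · intro l hl _ _
      rw [List.length_eq_zero_iff.1 hl]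
      exact ⟨1, by simp⟩
  · rintro ⟨r, rfl⟩
    refine Submodule.smul_mem _ _ ?_
    have : wedge ([] : List V) ∈ Ch G S ([] : List V).length :=
      wedge_mem_Ch ⟨by simp, by simp⟩
    simpa using this

@[simp] theorem emap_vx (f : V → V') (a : V) : emap f (vx a) = vx (f a) := by
  simp [emap, vx, ExteriorAlgebra.map_apply_ι, Finsupp.mapDomain_single]
@[simp] theorem emap_one (f : V → V') : emap f (1 : EA V) = 1 := by simp [emap]
theorem emap_mul (f : V → V') (x y : EA V) : emap f (x * y) = emap f x * emap f y := by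
  simp [emap]
theorem emap_wedge (f : V → V') (l : List V) : emap f (wedge l) = wedge (l.map f) := by
  induction l with
  | nil => simp
  | cons a l ih => rw [wedge_cons, emap_mul, emap_vx, ih, List.map_cons, wedge_cons]
@[simp] theorem emap_id (z : EA V) : emap id z = z := by
  simp [emap, Finsupp.lmapDomain_id]
theorem emap_comp (f : V' → V) (g : V'' → V') (z : EA V'') :
    emap f (emap g z) = emap (f ∘ g) z := by
  unfold emap
  rw [Finsupp.lmapDomain_comp, ← ExteriorAlgebra.map_comp_map]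
  rfl
theorem emap_congr {S : Set V} {n : ℕ} {f g : V → V'} (h : ∀ a ∈ S, f a = g a) {z : EA V}
    (hz : z ∈ Ch G S n) : emap f z = emap g z := by
  refine Ch_induction (p := fun z => emap f z = emap g z) (by simp) ?_ ?_ ?_ hz
  · intro x y _ _ hx hy
    rw [map_add, map_add, hx, hy]
  · intro r x _ hx
    rw [map_smul, map_smul, hx]
  · intro l _ _ hc
    rw [emap_wedge, emap_wedge, List.map_congr_left fun a ha => h a (hc.1 a ha)]
theorem emap_eq_self {S : Set V} {n : ℕ} {f : V → V} (h : ∀ a ∈ S, f a = a) {z : EA V}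
    (hz : z ∈ Ch G S n) : emap f z = z := by
  rw [emap_congr (g := id) h hz, emap_id]
theorem emap_mem_Ch {S' : Set V'} {S : Set V} {f : V' → V} (h : IsHom G' S' G S f) {n : ℕ}
    {z : EA V'} (hz : z ∈ Ch G' S' n) : emap f z ∈ Ch G S n := by
  refine Ch_le_of (G := G') (S := S') (N := (Ch G S n).comap (emap f)) ?_ hz
  intro l hl _ hc
  rw [Submodule.mem_comap, emap_wedge]
  have hc' : IsCl G S (l.map f) := by
    constructor
    · intro x hx
      obtain ⟨a, ha, rfl⟩ := List.mem_map.1 hx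
      exact h.1 a (hc.1 a ha)
    · intro x hx y hy
      obtain ⟨a, ha, rfl⟩ := List.mem_map.1 hx
      obtain ⟨b, hb, rfl⟩ := List.mem_map.1 hy
      exact h.adq (hc.1 a ha) (hc.1 b hb) (hc.2 a ha b hb)
  have := wedge_mem_Ch hc'
  rwa [List.length_map, hl] at this
theorem emap_eq_zero_of_const {S' : Set V'} {f : V' → V} {u : V} (h : ∀ a ∈ S', f a = u) {n : ℕ}
    (hn : 2 ≤ n) {z : EA V'} (hz : z ∈ Ch G' S' n) : emap f z = 0 := by
  refine Ch_le_of (G := G') (S := S') (N := LinearMap.ker (emap f)) ?_ hz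
  intro l hl _ hc
  rw [LinearMap.mem_ker, emap_wedge]
  match l, hl, hc with
  | [], hl, _ => simp at hl; omega
  | [_], hl, _ => simp at hl; omega
  | a :: b :: l, _, hc =>
    rw [List.map_cons, List.map_cons, wedge_cons, wedge_cons, h a (hc.1 a (by simp)),
      h b (hc.1 b (by simp)), ← mul_assoc, vx_mul_vx_self, zero_mul]

end Pool.Agent.MP_6374aa_gt

end

section

namespace Pool.Agent.MP_6374aa_gt

open Classical

variable {V V' V'' : Type} {G : SimpleGraph V} {G' : SimpleGraph V'} {G'' : SimpleGraph V''}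
  {A : Set V} {A' : Set V'} {A'' : Set V''} {L : Type} [Group L]

theorem flat_gen (G : SimpleGraph V) (A : Set V) : Flat G A (gen G A) := by
  intro u hu v hv w hw h1 h2 h3
  have h := PresentedGroup.one_of_mem (rels := grels G A)
    ⟨u, hu, v, hv, w, hw, h1, h2, h3, rfl⟩
  rw [map_mul, map_mul, map_inv, mul_inv_eq_one] at h
  exact h
theorem Flat.self {lab : V → V → L} (h : Flat G A lab) {u : V} (hu : u ∈ A) : lab u u = 1 :=
  mul_eq_left.1 (h u hu u hu u hu (Adq.refl G u) (Adq.refl G u) (Adq.refl G u))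
theorem Flat.symm {lab : V → V → L} (h : Flat G A lab) {u w : V} (hu : u ∈ A) (hw : w ∈ A)
    (huw : Adq G u w) : lab w u = (lab u w)⁻¹ :=
  eq_inv_of_mul_eq_one_right ((h u hu w hw u hu huw huw.symm (Adq.refl G u)).trans (h.self hu))
theorem Flat.mono {lab : V → V → L} (h : Flat G A lab) {S : Set V} (hS : S ⊆ A) : Flat G S lab :=
  fun u hu v hv w hw => h u (hS hu) v (hS hv) w (hS hw)
theorem Flat.map {L' : Type} [Group L'] {lab : V → V → L} (h : Flat G A lab) (ρ : L →* L') :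
    Flat G A fun u w => ρ (lab u w) := fun u hu v hv w hw h1 h2 h3 => by
  dsimp only
  rw [← map_mul, h u hu v hv w hw h1 h2 h3]
theorem Flat.pull {lab : V → V → L} (h : Flat G A lab) {f : V' → V} (hf : IsHom G' A' G A f) :
    Flat G' A' fun u w => lab (f u) (f w) := fun u hu v hv w hw h1 h2 h3 =>
  h _ (hf.1 u hu) _ (hf.1 v hv) _ (hf.1 w hw) (hf.adq hu hv h1) (hf.adq hv hw h2)
    (hf.adq hu hw h3)
theorem Flat.gauge {lab : V → V → L} (h : Flat G A lab) (k : V → L) :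
    Flat G A fun u w => k u * lab u w * (k w)⁻¹ := fun u hu v hv w hw h1 h2 h3 => by
  dsimp only
  rw [← h u hu v hv w hw h1 h2 h3]
  group
theorem flat_hom (ρ : Gp G A →* L) : Flat G A fun u w => ρ (gen G A u w) :=
  (flat_gen G A).map ρ
theorem glift_gen {lab : V → V → L} (h : Flat G A lab) (u w : V) :
    glift G A lab (gen G A u w) = lab u w := by
  rw [glift, dif_pos h]
  exact PresentedGroup.toGroup.of _
theorem gmap_gen {f : V' → V} (hf : IsHom G' A' G A f) (u w : V') :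
    gmap G' A' G A f (gen G' A' u w) = gen G A (f u) (f w) :=
  glift_gen ((flat_gen G A).pull hf) u w
theorem Gp.hom_ext {ρ σ : Gp G A →* L} (h : ∀ u w, ρ (gen G A u w) = σ (gen G A u w)) : ρ = σ :=
  PresentedGroup.ext fun p => h p.1 p.2
theorem gmap_id (γ : Gp G A) : gmap G A G A id γ = γ :=
  DFunLike.congr_fun (Gp.hom_ext (σ := MonoidHom.id _) fun u w =>
    gmap_gen (IsHom.id G subset_rfl) u w) γ
theorem gmap_comp {f : V' → V} {g : V'' → V'} (hf : IsHom G' A' G A f) (hg : IsHom G'' A'' G' A' g)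
    (γ : Gp G'' A'') :
    gmap G' A' G A f (gmap G'' A'' G' A' g γ) = gmap G'' A'' G A (f ∘ g) γ :=
  DFunLike.congr_fun (Gp.hom_ext (ρ := (gmap G' A' G A f).comp (gmap G'' A'' G' A' g))
    fun u w => by
      rw [MonoidHom.comp_apply, gmap_gen hg, gmap_gen hf, gmap_gen (hf.comp hg)]
      rfl) γ
theorem glift_gmap {lab : V → V → L} (h : Flat G A lab) {f : V' → V} (hf : IsHom G' A' G A f)
    (γ : Gp G' A') :
    glift G A lab (gmap G' A' G A f γ) = glift G' A' (fun u w => lab (f u) (f w)) γ :=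
  DFunLike.congr_fun (Gp.hom_ext (ρ := (glift G A lab).comp (gmap G' A' G A f))
    fun u w => by rw [MonoidHom.comp_apply, gmap_gen hf, glift_gen h, glift_gen (h.pull hf)]) γ

theorem Path.mem_left {a b : V} {γ : Gp G A} (h : Path G A a b γ) : a ∈ A := by
  cases h <;> assumption
theorem Path.mem_right {a b : V} {γ : Gp G A} (h : Path G A a b γ) : b ∈ A := by
  induction h <;> assumption
theorem Path.single {a b : V} (ha : a ∈ A) (hb : b ∈ A) (h : Adq G a b) :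
    Path G A a b (gen G A a b) := by
  simpa using Path.cons ha h (Path.nil hb)
theorem Path.trans {a b c : V} {γ δ : Gp G A} (h : Path G A a b γ) (h' : Path G A b c δ) :
    Path G A a c (γ * δ) := by
  induction h with
  | nil _ => rwa [one_mul]
  | cons hu huw _ ih =>
    rw [mul_assoc]
    exact Path.cons hu huw (ih h')
theorem Path.symm {a b : V} {γ : Gp G A} (h : Path G A a b γ) : Path G A b a γ⁻¹ := by
  induction h with
  | nil hy =>
    rw [inv_one]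
    exact Path.nil hy
  | cons hu huw hp ih =>
    rw [mul_inv_rev, ← (flat_gen G A).symm hu hp.mem_left huw]
    exact ih.trans (Path.single hp.mem_left hu huw.symm)
theorem Path.map {f : V' → V} (hf : IsHom G' A' G A f) {a b : V'} {γ : Gp G' A'}
    (h : Path G' A' a b γ) : Path G A (f a) (f b) (gmap G' A' G A f γ) := by
  induction h with
  | nil hy =>
    rw [map_one]
    exact Path.nil (hf.1 _ hy)
  | cons hu huw hp ih =>
    rw [map_mul, gmap_gen hf]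
    exact Path.cons (hf.1 _ hu) (hf.adq hu hp.mem_left huw) ih
theorem mem_Loop {y : V} (hy : y ∈ A) {γ : Gp G A} : γ ∈ Loop G A y ↔ Path G A y y γ := by
  refine ⟨fun h => ?_, fun h => Subgroup.subset_closure h⟩
  induction h using Subgroup.closure_induction with
  | mem _ h => exact h
  | one => exact Path.nil hy
  | mul _ _ _ _ h1 h2 => exact h1.trans h2
  | inv _ _ h => exact h.symm
theorem Path.conj_mem_Loop {a b : V} {γ δ : Gp G A} (h : Path G A a b γ) (hδ : δ ∈ Loop G A a) :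
    γ⁻¹ * δ * γ ∈ Loop G A b :=
  (mem_Loop h.mem_right).2 ((h.symm.trans ((mem_Loop h.mem_left).1 hδ)).trans h)
theorem gmap_mem_Loop {f : V' → V} (hf : IsHom G' A' G A f) {y : V'} (hy : y ∈ A')
    {γ : Gp G' A'} (h : γ ∈ Loop G' A' y) : gmap G' A' G A f γ ∈ Loop G A (f y) :=
  (mem_Loop (hf.1 y hy)).2 (((mem_Loop hy).1 h).map hf)
/-- Homomorphisms that differ by a gauge on edges differ by it on paths. -/
theorem Path.gauge {ρ σ : Gp G A →* L} {k m : V → L}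
    (h : ∀ u ∈ A, ∀ w ∈ A, Adq G u w →
      k u * ρ (gen G A u w) * (k w)⁻¹ = m u * σ (gen G A u w) * (m w)⁻¹)
    {a b : V} {γ : Gp G A} (hγ : Path G A a b γ) :
    k a * ρ γ * (k b)⁻¹ = m a * σ γ * (m b)⁻¹ := by
  induction hγ with
  | nil _ => simp
  | @cons u w y γ hu huw hp ih =>
    calc _ = k u * ρ (gen G A u w) * (k w)⁻¹ * (k w * ρ γ * (k y)⁻¹) := by
          rw [map_mul]
          group
      _ = _ := by
          rw [h u hu w hp.mem_left huw, ih, map_mul]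
          group
theorem Path.gauge' {ρ σ : Gp G A →* L} {k : V → L}
    (h : ∀ u ∈ A, ∀ w ∈ A, Adq G u w → ρ (gen G A u w) = k u * σ (gen G A u w) * (k w)⁻¹)
    {a b : V} {γ : Gp G A} (hγ : Path G A a b γ) : ρ γ = k a * σ γ * (k b)⁻¹ := by
  simpa using hγ.gauge (ρ := ρ) (σ := σ) (k := fun _ => 1) (m := k) fun u hu w hw huw => by
    simpa using h u hu w hw huw
theorem Path.gmap_congr {f g : V' → V} (hf : IsHom G' A' G A f) (h : ∀ a ∈ A', f a = g a)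
    {a b : V'} {γ : Gp G' A'} (hγ : Path G' A' a b γ) :
    gmap G' A' G A f γ = gmap G' A' G A g γ := by
  have hg : IsHom G' A' G A g := ⟨fun a ha => h a ha ▸ hf.1 a ha,
    fun a ha b hb hab => h a ha ▸ h b hb ▸ hf.2 a ha b hb hab⟩
  simpa using hγ.gauge' (ρ := gmap G' A' G A f) (σ := gmap G' A' G A g) (k := fun _ => 1)
    fun u hu w hw _ => by simp [gmap_gen hf, gmap_gen hg, h u hu, h w hw]
theorem Path.gmap_sc {f g : V' → V} (hf : IsHom G' A' G A f) (hg : IsHom G' A' G A g)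
    (h : SC G' A' G f g) {a b : V'} {γ : Gp G' A'} (hγ : Path G' A' a b γ) :
    gmap G' A' G A g γ =
      (gen G A (f a) (g a))⁻¹ * gmap G' A' G A f γ * gen G A (f b) (g b) := by
  have := hγ.gauge' (ρ := gmap G' A' G A g) (σ := gmap G' A' G A f)
    (k := fun u => (gen G A (f u) (g u))⁻¹) fun u hu w hw huw => by
      have h1 := flat_gen G A _ (hf.1 u hu) _ (hf.1 w hw) _ (hg.1 w hw) (hf.adq hu hw huw)
        (h w hw w hw (Adq.refl _ _)) (h u hu w hw huw)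
      have h2 := flat_gen G A _ (hf.1 u hu) _ (hg.1 u hu) _ (hg.1 w hw)
        (h u hu u hu (Adq.refl _ _)) (hg.adq hu hw huw) (h u hu w hw huw)
      rw [gmap_gen hf, gmap_gen hg, inv_inv, mul_assoc, h1, ← h2, inv_mul_cancel_left]
  rwa [inv_inv] at this

end Pool.Agent.MP_6374aa_gt

end

section

/-!
Internal definitions: walks, labels, cells, neighbourhoods and frontiers.
-/

namespace Pool.Agent.MP_6374aa_g

open Pool.Agent.MP_6374aa_gt Classical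

noncomputable section

variable {V V' : Type}

/-! ### Connectivity and walks -/

/-- Cliques in `A`, the empty one included. -/
def Clq (G : SimpleGraph V) (A : Set V) (s : Finset V) : Prop :=
  ↑s ⊆ A ∧ G.IsClique (s : Set V)

/-- The no-square condition on `A`. -/
def NSq (G : SimpleGraph V) (A : Set V) : Prop :=
  ∀ a ∈ A, ∀ b ∈ A, ∀ c ∈ A, ∀ d ∈ A, G.Adj a b → G.Adj b c → G.Adj c d → G.Adj d a →
    Adq G a c ∨ Adq G b d

def Reach (G : SimpleGraph V) (A : Set V) : V → V → Prop :=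
  Relation.ReflTransGen fun x y => x ∈ A ∧ y ∈ A ∧ G.Adj x y

def Pre (G : SimpleGraph V) (A : Set V) : Prop := ∀ a ∈ A, ∀ b ∈ A, Reach G A a b

def Con (G : SimpleGraph V) (A : Set V) : Prop := A.Nonempty ∧ Pre G A

/-- The component of `a`. -/
def cmp (G : SimpleGraph V) (A : Set V) (a : V) : Set V := {b | b ∈ A ∧ Reach G A a b}

/-- The number of components. -/
def nc (G : SimpleGraph V) (A : Set V) : ℕ := ((fun a => cmp G A a) '' A).ncard

/-- `X` is a union of components of `A`. -/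
def Clopen (G : SimpleGraph V) (A X : Set V) : Prop :=
  X ⊆ A ∧ ∀ a ∈ X, ∀ b ∈ A, G.Adj a b → b ∈ X

/-- Disjoint and without edges between them. -/
def Far (G : SimpleGraph V) (X Y : Set V) : Prop := ∀ a ∈ X, ∀ b ∈ Y, ¬ Adq G a b

/-- No edges between the two differences. -/
def NE (G : SimpleGraph V) (X Y : Set V) : Prop := ∀ a ∈ X \ Y, ∀ b ∈ Y \ X, ¬ G.Adj a b

/-- Every edge and triangle of `X` lies in `X1` or in `X2`. -/
def Cov2 (G : SimpleGraph V) (X X1 X2 : Set V) : Prop :=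
  X1 ⊆ X ∧ X2 ⊆ X ∧ ∀ u ∈ X, ∀ v ∈ X, ∀ w ∈ X, Adq G u v → Adq G v w → Adq G u w →
    (u ∈ X1 ∧ v ∈ X1 ∧ w ∈ X1) ∨ (u ∈ X2 ∧ v ∈ X2 ∧ w ∈ X2)

/-- Walks: start, list of the remaining vertices, end. -/
inductive Wk (G : SimpleGraph V) (A : Set V) : V → List V → V → Prop
  | nil {a : V} : a ∈ A → Wk G A a [] a
  | cons {a b c : V} {l : List V} : a ∈ A → Adq G a b → Wk G A b l c → Wk G A a (b :: l) c

/-- The reversed walk: `rev a l` starts at the end of the walk `a, l` and ends at `a`. -/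
def rev (a : V) (l : List V) : List V := ((a :: l).reverse).tail

section labels

variable {L : Type} [Group L]

def ev (lab : V → V → L) : V → List V → L
  | _, [] => 1
  | a, b :: l => lab a b * ev lab b l

def pull (f : V' → V) (lab : V → V → L) : V' → V' → L := fun u w => lab (f u) (f w)

def Gau (G : SimpleGraph V) (A : Set V) (l1 l2 : V → V → L) (k : V → L) : Prop :=
  ∀ u ∈ A, ∀ w ∈ A, Adq G u w → l1 u w = k u * l2 u w * (k w)⁻¹

def Pot (G : SimpleGraph V) (A : Set V) (lab : V → V → L) : Prop :=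
  ∃ p : V → L, ∀ u ∈ A, ∀ w ∈ A, Adq G u w → lab u w = p u * (p w)⁻¹

/-- `lab` factors through `ρ` up to gauge. -/
def Dom (G : SimpleGraph V) (A : Set V) (ρ : V → V → L) {L' : Type} [Group L']
    (lab : V → V → L') : Prop :=
  ∃ (T : L →* L') (k : V → L'), Gau G A lab (fun u w => T (ρ u w)) k

end labels

def Triv (L : Type) [Group L] (G : SimpleGraph V) (A : Set V) : Prop :=
  ∀ lab : V → V → L, Flat G A lab → Pot G A lab

abbrev Z2 : Type := Multiplicative (ZMod 2)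

/-- The nontrivial element. -/
def neg : Z2 := Multiplicative.ofAdd 1

/-- No nontrivial double cover. -/
abbrev NDC (G : SimpleGraph V) (A : Set V) : Prop := Triv Z2 G A

/-- All components are simply connected. -/
def SCo (G : SimpleGraph V) (A : Set V) : Prop := ∀ (L : Type) [Group L], Triv L G A

/-- The closed walk `a, l` is null homotopic in `A`. -/
def Null (G : SimpleGraph V) (A : Set V) (a : V) (l : List V) : Prop :=
  ∀ (L : Type) [Group L] (lab : V → V → L), Flat G A lab → ev lab a l = 1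

/-- The first mod 2 Betti number is at most `n`. -/
def Rk (G : SimpleGraph V) (A : Set V) (n : ℕ) : Prop :=
  ∀ θ : Fin (n + 1) → V → V → Z2, (∀ i, Flat G A (θ i)) →
    ∃ S : Finset (Fin (n + 1)), S.Nonempty ∧ Pot G A fun u w => ∏ i ∈ S, θ i u w

/-- A universal label: it identifies `L` with the fundamental group. -/
structure UL (G : SimpleGraph V) (A : Set V) {L : Type} [Group L] (ρ : V → V → L) : Prop where
  flat : Flat G A ρ
  con : Con G A
  dom : ∀ (L' : Type) [Group L'] (lab : V → V → L'), Flat G A lab → Dom G A ρ lab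
  surj : ∀ a ∈ A, ∀ g, ∃ l, Wk G A a l a ∧ ev ρ a l = g

/-- Every flat label on `Y` extends to `X`. -/
def Extl (G : SimpleGraph V) (Y X : Set V) : Prop :=
  Y ⊆ X ∧ ∀ (L : Type) [Group L] (lab : V → V → L), Flat G Y lab →
    ∃ lab', Flat G X lab' ∧ ∀ u ∈ Y, ∀ w ∈ Y, Adq G u w → lab' u w = lab u w

/-- Weak contiguity. -/
def Ctg (G' : SimpleGraph V') (A' : Set V') (G : SimpleGraph V) (f g : V' → V) : Prop :=
  (∀ u ∈ A', Adq G (f u) (g u)) ∧
    ∀ u ∈ A', ∀ w ∈ A', G'.Adj u w → Adq G (f u) (g w) ∨ Adq G (g u) (f w)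

/-- Equivalence of edge path groupoids, in terms of labels. -/
structure PE (G' : SimpleGraph V') (A' : Set V') (G : SimpleGraph V) (A : Set V) (f : V' → V) :
    Prop where
  hom : IsHom G' A' G A f
  ess : ∀ v ∈ A, ∃ u ∈ A', Reach G A v (f u)
  desc : ∀ (L : Type) [Group L] (lab' : V' → V' → L), Flat G' A' lab' →
    ∃ lab k, Flat G A lab ∧ Gau G' A' lab' (pull f lab) k
  full : ∀ (L : Type) [Group L] (l1 l2 : V → V → L) (k' : V' → L), Flat G A l1 → Flat G A l2 →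
    Gau G' A' (pull f l1) (pull f l2) k' → ∃ k, Gau G A l1 l2 k ∧ ∀ u ∈ A', k (f u) = k' u

/-! ### Neighbourhoods and frontiers in the subdivision -/

def Meets (s : Finset V) (Q : Set V) : Prop := ∃ v ∈ s, v ∈ Q

/-- The simplices meeting `Q`. -/
def nb (G : SimpleGraph V) (A Q : Set V) : Set (Finset V) := {s | s ∈ sA G A ∧ Meets s Q}

/-- The mixed simplices. -/
def fr (G : SimpleGraph V) (A Q : Set V) : Set (Finset V) :=
  {s | s ∈ sA G A ∧ Meets s Q ∧ ¬ ↑s ⊆ Q}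

/-- The finite sets inside `T`. -/
def ins (T : Set V) : Set (Finset V) := {s | ↑s ⊆ T}

/-- The subdivision of the union of two full subcomplexes. -/
def sU (G : SimpleGraph V) (X Y : Set V) : Set (Finset V) := sA G X ∪ sA G Y

/-- A chosen vertex of `s`, in `B` when possible. -/
def pk [Nonempty V] (B : Set V) (s : Finset V) : V :=
  if h : Meets s B then h.choose else Classical.epsilon fun v => v ∈ s

/-- The subdivided walk. -/
def sdw : V → List V → List (Finset V)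
  | _, [] => []
  | a, b :: l => {a, b} :: {b} :: sdw b l

/-- The simplices containing an edge on which the label is nontrivial. -/
def mix (G : SimpleGraph V) (A : Set V) {L : Type} [Group L] (θ : V → V → L) : Set (Finset V) :=
  {s | s ∈ sA G A ∧ ∃ u ∈ s, ∃ w ∈ s, θ u w ≠ 1}

/-- `δ` is the coboundary of the indicator of `S`. -/
def IsCob (G : SimpleGraph V) (A : Set V) (δ : V → V → Z2) (S : Set V) : Prop :=
  ∀ u ∈ A, ∀ w ∈ A, Adq G u w → (δ u w = 1 ↔ (u ∈ S ↔ w ∈ S))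

/-- The label is trivial on all but finitely many edges. -/
def FinSupp (G : SimpleGraph V) (A : Set V) {L : Type} [Group L] (δ : V → V → L) : Prop :=
  {p : V × V | p.1 ∈ A ∧ p.2 ∈ A ∧ Adq G p.1 p.2 ∧ δ p.1 p.2 ≠ 1}.Finite

/-! ### Cells and manifolds.  The number counts the vertices of a top simplex. -/

def Glob (G : SimpleGraph V) : ℕ → Set V → Prop
  | 0, A => A = ∅
  | 1, A => A.ncard = 1 ∨ A.ncard = 2
  | 2, A => Con G A
  | _ + 3, A => Con G A ∧ NDC G A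

/-- A combinatorial sphere (`¬ β ∅`) or ball (`β ∅`); `β` marks the boundary simplices. -/
def Cell (G : SimpleGraph V) : ℕ → Set V → (Finset V → Prop) → Prop
  | 0, A, β => A = ∅ ∧ ¬ β ∅
  | d + 1, A, β => A.Finite ∧ Glob G (d + 1) A ∧
      (β ∅ ↔ if d = 0 then A.ncard = 1 else ∃ v ∈ A, β {v}) ∧
      ∀ v ∈ A, Cell G d (Lk G A {v}) fun s => β (insert v s)

/-- The links of the vertices in `C` are cells with `d` vertices in a top simplex. -/
def Mfa (G : SimpleGraph V) (d : ℕ) (A : Set V) (β : Finset V → Prop) (C : Set V) : Prop :=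
  ∀ v ∈ C, Cell G d (Lk G A {v}) fun s => β (insert v s)

/-- The boundary is the full subcomplex on `T`. -/
def sub (T : Set V) : Finset V → Prop := fun s => ↑s ⊆ T

def Sph (G : SimpleGraph V) (d : ℕ) (A : Set V) : Prop := Cell G d A fun _ => False

def Ball (G : SimpleGraph V) (d : ℕ) (A T : Set V) : Prop := Cell G d A (sub T)

/-- A manifold of dimension `d` with full boundary `T`. -/
def Mf (G : SimpleGraph V) (d : ℕ) (A T : Set V) : Prop := Mfa G d A (sub T) A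

/-- A closed connected manifold of dimension `d`. -/
def Cl (G : SimpleGraph V) (d : ℕ) (A : Set V) : Prop := A.Finite ∧ Con G A ∧ Mf G d A ∅

/-- The largest element of a chain. -/
def top (σ : Finset (Finset V)) : Finset V := σ.sup id

/-- The graph with extra cone points. -/
def capG (G : SimpleGraph V) {ι : Type} (T : ι → Set V) : SimpleGraph (V ⊕ ι) where
  Adj x y := match x, y with
    | .inl u, .inl w => G.Adj u w
    | .inl u, .inr i => u ∈ T i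
    | .inr i, .inl w => w ∈ T i
    | .inr _, .inr _ => False
  symm := ⟨fun x y h => by cases x <;> cases y <;> first | exact h.symm | exact h⟩
  loopless := ⟨fun x h => by cases x <;> first | exact G.irrefl h | exact h⟩

def capA (A : Set V) {ι : Type} (I : Set ι) : Set (V ⊕ ι) := Sum.inl '' A ∪ Sum.inr '' I

/-- `P` is one side of the hypersurface `c` in `X`. -/
structure Split (G : SimpleGraph V) (d : ℕ) (X c P : Set V) : Prop where
  subset : P ⊆ X \ c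
  sep : ∀ a ∈ P, ∀ b ∈ X \ (c ∪ P), ¬ G.Adj a b
  two : ∀ s, Clq G c s → s.card = d →
    (Lk G X s ∩ P).Nonempty ∧ (Lk G X s \ (c ∪ P)).Nonempty

/-- Compatible local sides along `c`. -/
structure Sided (G : SimpleGraph V) (d : ℕ) (X c : Set V) (σ : V → Set V) : Prop where
  subset : ∀ x ∈ c, σ x ⊆ Lk G X {x} \ c
  sep : ∀ x ∈ c, ∀ a ∈ σ x, ∀ b ∈ Lk G X {x} \ (c ∪ σ x), ¬ G.Adj a b
  compat : ∀ x ∈ c, ∀ y ∈ c, G.Adj x y → ∀ a ∈ Lk G X {x, y}, a ∈ σ x ↔ a ∈ σ y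
  two : ∀ s, Clq G c s → s.card = d → ∀ x ∈ s,
    (Lk G X s ∩ σ x).Nonempty ∧ (Lk G X s \ (c ∪ σ x)).Nonempty

/-- `p` cuts `A` open along `F`. -/
structure Cut (H : SimpleGraph V') (W Fm Fp : Set V') (G : SimpleGraph V) (A F : Set V)
    (p : V' → V) : Prop where
  subm : Fm ⊆ W
  subp : Fp ⊆ W
  far : Far H Fm Fp
  adj : ∀ u ∈ W, ∀ w ∈ W, H.Adj u w → G.Adj (p u) (p w)
  bijm : Set.BijOn p (W \ Fp) A
  bijp : Set.BijOn p (W \ Fm) A
  isom : IsIso H Fm G F p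
  isop : IsIso H Fp G F p
  twin : ∀ u ∈ W, ∀ a ∈ Fm, ∀ b ∈ Fp, p a = p b → H.Adj u a → ¬ H.Adj u b
  lift : ∀ t ∈ sA G A, ∃ s ∈ sA H W, s.image p = t

/-! ### Collapses with simply connected seams -/

def fib (G' : SimpleGraph V') (A' : Set V') (c : V' → V) (σ : Finset V) : Set (Finset V') :=
  {s | s ∈ sA G' A' ∧ s.image c = σ}

structure CLS (G' : SimpleGraph V') (A' : Set V') (G : SimpleGraph V) (A : Set V) (c : V' → V) :
    Prop where
  hom : IsHom G' A' G A c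
  con : ∀ σ ∈ sA G A, Con (sG V') (fib G' A' c σ)
  sc : ∀ σ ∈ sA G A, 2 ≤ σ.card → SCo (sG V') (fib G' A' c σ)

end

end Pool.Agent.MP_6374aa_g

end

section

/-!
Interfaces between the blocks.
-/

namespace Pool.Agent.MP_6374aa_g

open Pool.Agent.MP_6374aa_gt Classical

noncomputable section

/-! ### The model: a closed manifold with a Heegaard colouring and the two dual trees -/

/-- Every tetrahedron has two vertices in `Hi` and two outside. -/
structure Two {U : Type} (K : SimpleGraph U) (B Hi : Set U) : Prop where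
  cl : Cl K 3 B
  two : ∀ s ∈ sA K B, s.card = 4 → (s.filter (· ∈ Hi)).card = 2

/-- Loops in `R` with label in `N` die in `Y`. -/
def Kill {V : Type} (G : SimpleGraph V) (R Y : Set V) {Γ : Type} [Group Γ] (ρ : V → V → Γ)
    (N : Subgroup Γ) : Prop :=
  ∀ r l, Wk G R r l r → ev ρ r l ∈ N → Null G Y r l

/-- The half tree on the side of `y`. -/
def half {T : Type} (X : SimpleGraph T) (x y : T) : Set T := {z | X.dist z y < X.dist z x}

/-- An action on a tree with types in `S`, infinite cyclic edge stabilisers inside `N`. -/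
structure TAct (Γ : Type) [Group Γ] {T : Type} [MulAction Γ T] (X : SimpleGraph T) {U : Type}
    (K : SimpleGraph U) (S : Set U) (ty : T → U) (N : Subgroup Γ) : Prop where
  tree : X.IsTree
  adj : ∀ (g : Γ) a b, X.Adj a b → X.Adj (g • a) (g • b)
  inv : ∀ (g : Γ) a, ty (g • a) = ty a
  mem : ∀ a, ty a ∈ S
  tadj : ∀ a b, X.Adj a b → K.Adj (ty a) (ty b)
  cyc : ∀ a b, X.Adj a b → ∃ c : Γ, c ≠ 1 ∧ ∀ g : Γ, (g • a = a ∧ g • b = b) ↔
    g ∈ Subgroup.zpowers c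
  ker : ∀ (g : Γ) a b, X.Adj a b → g • a = a → g • b = b → g ∈ N
  tre : ∀ a b a' b', X.Adj a b → X.Adj a' b' → ty a = ty a' → ty b = ty b' →
    ∃ g : Γ, g • a = a' ∧ g • b = b'
  normal : N.Normal

/-- The edge `y y'` lies on the axis of the stabiliser of the edge `x x'`. -/
def Cr (Γ : Type) [Group Γ] {T1 T2 : Type} [MulAction Γ T1] [MulAction Γ T2]
    (X1 : SimpleGraph T1) (X2 : SimpleGraph T2) (x x' : T1) (y y' : T2) : Prop :=
  X1.Adj x x' ∧ X2.Adj y y' ∧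
    (∀ n, ∃ g : Γ, g • x = x ∧ g • x' = x' ∧ g • y ∈ half X2 y y' ∧ n ≤ X2.dist (g • y) y) ∧
    ∀ n, ∃ g : Γ, g • x = x ∧ g • x' = x' ∧ g • y ∈ half X2 y' y ∧ n ≤ X2.dist (g • y) y

/-- The two trees dual to the two systems of meridians. -/
structure TM {U : Type} (K : SimpleGraph U) (B Hi : Set U) (Γ : Type) [Group Γ]
    (Nm Np : Subgroup Γ) where
  T1 : Type
  T2 : Type
  [a1 : MulAction Γ T1]
  [a2 : MulAction Γ T2]
  X1 : SimpleGraph T1
  X2 : SimpleGraph T2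
  ty1 : T1 → U
  ty2 : T2 → U
  act1 : TAct Γ X1 K (B ∩ Hi) ty1 Nm
  act2 : TAct Γ X2 K (B \ Hi) ty2 Np
  free12 : ∀ (g : Γ) x x' (y : T2), X1.Adj x x' → g • x = x → g • x' = x' → g • y = y → g = 1
  free21 : ∀ (g : Γ) y y' (x : T1), X2.Adj y y' → g • y = y → g • y' = y' → g • x = x → g = 1
  cadj : ∀ x x' y y', Cr Γ X1 X2 x x' y y' → K.Adj (ty1 x) (ty2 y)
  triv : ∀ (g : Γ) x x' y y', Cr Γ X1 X2 x x' y y' → g • x = x → g • y = y → g = 1
  tr : ∀ x x' y y' z z' w w', Cr Γ X1 X2 x x' y y' → Cr Γ X1 X2 z z' w w' → ty1 x = ty1 z →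
    ty2 y = ty2 w → ∃ g : Γ, g • x = z ∧ g • y = w
  uniq1 : ∀ x x' x'' y y' y'', Cr Γ X1 X2 x x' y y' → Cr Γ X1 X2 x x'' y y'' →
    ty1 x' = ty1 x'' → x' = x''
  uniq2 : ∀ x x' x'' y y' y'', Cr Γ X1 X2 x x' y y' → Cr Γ X1 X2 x x'' y y'' →
    ty2 y' = ty2 y'' → y' = y''
  ex : ∀ a ∈ B ∩ Hi, ∀ a' ∈ B ∩ Hi, ∀ b ∈ B \ Hi, ∀ b' ∈ B \ Hi, K.Adj a a' → K.Adj b b' →
    K.Adj a b → K.Adj a b' → K.Adj a' b → K.Adj a' b' →
    ∃ x x' y y', Cr Γ X1 X2 x x' y y' ∧ ty1 x = a ∧ ty1 x' = a' ∧ ty2 y = b ∧ ty2 y' = b'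

attribute [instance] TM.a1 TM.a2

def MODEL_st : Prop :=
  ∀ (U : Type) (K : SimpleGraph U) (B Hi : Set U) (Γ : Type) [Group Γ]
    (ρ : Finset U → Finset U → Γ), Two K B Hi → UL (sG U) (fr K B Hi) ρ →
    ∃ Nm Np : Subgroup Γ, Nonempty (TM K B Hi Γ Nm Np) ∧ Nontrivial Γ ∧
      Kill (sG U) (fr K B Hi) (nb K B Hi) ρ Nm ∧ Kill (sG U) (fr K B Hi) (nb K B (B \ Hi)) ρ Np

/-- The Heegaard surface is connected. -/
def RCON_st : Prop :=
  ∀ (U : Type) (K : SimpleGraph U) (B Hi : Set U), Two K B Hi → Con (sG U) (fr K B Hi)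

/-- The subdivision carries a Heegaard colouring. -/
def TWO_st : Prop :=
  ∀ (U : Type) (K : SimpleGraph U) (B : Set U), Cl K 3 B →
    Two (sG U) (sA K B) {s | s.card ≤ 2}

/-! ### The data produced by the interleaving -/

abbrev ZM : Type := Multiplicative ℤ

def slab {V : Type} (A : Set V) (h : V → ℤ) (a b : ℤ) : Set V := {v | v ∈ A ∧ a ≤ h v ∧ h v ≤ b}

/-- A co-oriented closed surface given by an integral cocycle with values `-1, 0, 1`. -/
structure Coor {V : Type} (G : SimpleGraph V) (A : Set V) (θ : V → V → ZM) : Prop where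
  flat : Flat G A θ
  le : ∀ u ∈ A, ∀ w ∈ A, Adq G u w → (θ u w).toAdd ≤ 1

structure Mid (X : Cx) (Γ H : Type) [Group Γ] [Group H] (Nm Np : Subgroup Γ) where
  h : X.V → ℤ
  s : X.V → X.V → Monoid.Coprod Γ H
  θ : X.V → X.V → ZM
  c : ℕ
  n : ℕ
  B0 : ℤ
  B1 : ℤ
  lo : ℤ
  hi : ℤ
  T1 : ℤ
  T0 : ℤ
  mm : X.V
  mp : X.V
  η : List X.V
  tm : Γ → List X.V
  tp : Γ → List X.V
  a : Γ
  cl : Cl X.G 3 X.A
  c_pos : 1 ≤ c
  lip : ∀ u ∈ X.A, ∀ w ∈ X.A, X.G.Adj u w → h u ≤ h w + 1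
  b01 : B0 ≤ B1
  t10 : T1 ≤ T0
  lohi : lo ≤ hi
  roomm : B1 + (c + 6) * (n + 2) ≤ lo
  roomp : hi + (c + 6) * (n + 2) ≤ T1
  flat : Flat X.G (slab X.A h (B0 - c) (T0 + c)) s
  ker : ∀ a b, B0 ≤ a → a ≤ lo → hi ≤ b → b ≤ T0 → ∀ x l, Wk X.G (slab X.A h a b) x l x →
    ev s x l = 1 → Null X.G (slab X.A h (a - c) (b + c)) x l
  coor : Coor X.G X.A θ
  supp : ∀ u ∈ X.A, ∀ w ∈ X.A, Adq X.G u w → θ u w ≠ 1 → u ∈ slab X.A h lo hi
  rk : Rk (sG X.V) (mix X.G X.A θ) n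
  odd : Odd (ev θ mm η).toAdd
  wη : Wk X.G (slab X.A h B0 T0) mm η mp
  wm : ∀ x, Wk X.G (slab X.A h B0 B1) mm (tm x) mm
  wp : ∀ x, Wk X.G (slab X.A h T1 T0) mp (tp x) mp
  mul : ∀ (L : Type) [Group L] (lab : X.V → X.V → L), Flat X.G (slab X.A h (B0 - c) (T0 + c)) lab →
    (∀ x y, ev lab mm (tm (x * y)) = ev lab mm (tm x) * ev lab mm (tm y)) ∧
      ∀ x, ev lab mm η * ev lab mp (tp x) = ev lab mm (tm x) * ev lab mm η
  rho : ∀ x, Monoid.Coprod.fst (ev s mm (tm x)) = a * x * a⁻¹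
  killm : ∀ x ∈ Nm, Null X.G {v | v ∈ X.A ∧ h v ≤ B1 + c} mm (tm x)
  killp : ∀ x ∈ Np, Null X.G {v | v ∈ X.A ∧ T1 - c ≤ h v} mp (tp x)

/-- `X` is an iterated simplicial connected sum of copies of `N`. -/
def SumOf (N X : Cx) : Prop :=
  ∃ (ι : Type) (P : ι → Set X.V) (s : Set ι), IsSum X.G P X.A s ∧
    ∀ i, ∃ f, IsIso N.G N.A X.G (P i) f

/-- Block C. -/
def C_st : Prop :=
  ∀ (V V' : Type) [Fintype V] [Fintype V'] (Γ : SimpleGraph V) (Γ' : SimpleGraph V'),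
    Cl Γ 3 Set.univ → Cl Γ' 3 Set.univ → NoSquare Γ → NoSquare Γ' →
    Nonempty (@Homeomorph (Bdry Γ) (Bdry Γ') (bdryTop Γ) (bdryTop Γ')) →
    ∀ (j : ℕ) (U : Type) (K : SimpleGraph U) (B Hi : Set U)
      (c0 : (Cx.sd^[j] ⟨V', Γ', Set.univ⟩).V → U),
      CLS (Cx.sd^[j] ⟨V', Γ', Set.univ⟩).G (Cx.sd^[j] ⟨V', Γ', Set.univ⟩).A K B c0 →
      Two K B Hi → ∀ (Q : Type) [Group Q] (ρ : Finset U → Finset U → Q) (Nm Np : Subgroup Q),
      UL (sG U) (fr K B Hi) ρ → Kill (sG U) (fr K B Hi) (nb K B Hi) ρ Nm →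
      Kill (sG U) (fr K B Hi) (nb K B (B \ Hi)) ρ Np → Nm.Normal → Np.Normal →
      ∃ (X : Cx) (H : Type) (_ : Group H), SumOf ⟨V, Γ, Set.univ⟩ X ∧ Nonempty (Mid X Q H Nm Np)

/-- The collapse of a summand, subdivided once. -/
def COL_st : Prop :=
  ∀ (X : Cx) (U : Type) (K : SimpleGraph U) (A R B : Set U) (v : U) (f : U → X.V),
    Cl K 3 A → Cl K 3 R → Graft K A R B v → IsIso K B X.G X.A f →
    ∃ c0 : X.sd.V → Finset U, CLS X.sd.G X.sd.A (sG U) (sA K A) c0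

/-! ### The incompressible surface -/

structure Surf (X : Cx) (Γ : Type) [Group Γ] (Nm Np : Subgroup Γ) where
  F : Set X.V
  U : Type
  H : SimpleGraph U
  W : Set U
  Fm : Set U
  Fp : Set U
  p : U → X.V
  ρ : X.V → X.V → Γ
  cl : Cl X.G 3 X.A
  clF : Cl X.G 2 F
  fin : W.Finite
  mf : Mf H 3 W (Fm ∪ Fp)
  cut : Cut H W Fm Fp X.G X.A F p
  ul : UL X.G F ρ
  killm : Kill H Fm W (pull p ρ) Nm
  killp : Kill H Fp W (pull p ρ) Np

/-- Block D. -/
def D_st : Prop :=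
  ∀ (X : Cx) (Γ H : Type) [Group Γ] [Group H] (Nm Np : Subgroup Γ), Nontrivial Γ → Nm.Normal →
    Np.Normal → Nonempty (Mid X Γ H Nm Np) → ∃ k, Nonempty (Surf (Cx.sd^[k] X) Γ Nm Np)

/-! ### The labelled polyhedron -/

structure LabP {V U : Type} (G : SimpleGraph V) (A : Set V) (K : SimpleGraph U) (B : Set U)
    (P : Set V) (ℓ : V → Finset U) : Prop where
  subset : P ⊆ A
  mem : ∀ x ∈ P, ℓ x ∈ sA K B ∧ 2 ≤ (ℓ x).card
  cmp : ∀ x ∈ P, ∀ y ∈ P, G.Adj x y → 2 ≤ (ℓ x ∩ ℓ y).card → ℓ x ⊆ ℓ y ∨ ℓ y ⊆ ℓ x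
  cell : ∀ s ∈ sA K B, 2 ≤ s.card →
    Ball G (5 - s.card) {x | x ∈ P ∧ s ⊆ ℓ x} {x | s ⊂ ℓ x}

/-- Block E. -/
def E_st : Prop :=
  ∀ (X : Cx) (U : Type) (K : SimpleGraph U) (B Hi : Set U) (Γ : Type) [Group Γ]
    (Nm Np : Subgroup Γ), Two K B Hi → Nonempty (TM K B Hi Γ Nm Np) → Nonempty (Surf X Γ Nm Np) →
    ∃ (k : ℕ) (P : Set (Cx.sd^[k] X).V) (ℓ : (Cx.sd^[k] X).V → Finset U),
      LabP (Cx.sd^[k] X).G (Cx.sd^[k] X).A K B P ℓ

/-! ### Punctured summands -/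

/-- `Z` with a cone on every component of its boundary. -/
def capC (X : Cx) (Z T : Set X.V) : Cx :=
  ⟨X.V ⊕ Set X.V, capG X.G id, capA Z ((fun a => cmp X.G (Z ∩ T) a) '' (Z ∩ T))⟩

/-- `P` with some open balls removed is a full subcomplex of `X`. -/
def Punct (X P : Cx) : Prop :=
  ∃ Z T : Set X.V, Z ⊆ X.A ∧ Con X.G Z ∧ Mf X.G 3 Z T ∧
    (∀ a ∈ Z ∩ T, Sph X.G 3 (cmp X.G (Z ∩ T) a)) ∧ (capC X Z T).Homeo P

def PunctE (X P : Cx) : Prop := ∃ k, Punct (Cx.sd^[k] X) P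

def NSP (P : Cx) : Prop := ∃ Q : Cx, Q.Closed ∧ Q.Homeo P ∧ Q.NonSep

def NSE (X : Cx) : Prop := ∃ i, (Cx.sd^[i] X).NonSep

/-- Block F. -/
def F_st : Prop :=
  ∀ (X : Cx) (U : Type) (K : SimpleGraph U) (B : Set U) (P : Set X.V) (ℓ : X.V → Finset U),
    Cl X.G 3 X.A → Cl K 3 B → LabP X.G X.A K B P ℓ → PunctE X ⟨U, K, B⟩

/-- Block G. -/
def G_st : Prop :=
  ∀ N X P : Cx, N.Closed → P.Closed → P.Prime → SumOf N X → PunctE X P →
    PunctE N P ∨ (NSP P ∧ NSE N)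

def MERGE_st : Prop := ∀ N P : Cx, N.Closed → PunctE N P → Summand P N

def SDH_st : Prop := ∀ X : Cx, X.A.Finite → X.sd.Homeo X

/-! ### The loop theorem -/

/-- `C` is the core, `T` the boundary, `B` the part of the boundary carrying the label. -/
structure Setup (L : Type) where
  V : Type
  [ne : Nonempty V]
  G : SimpleGraph V
  A : Set V
  T : Set V
  C : Set V
  B : Set V
  lab : V → V → L

attribute [instance] Setup.ne

variable {L : Type} [Group L]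

def Setup.sd (S : Setup L) : Setup L where
  V := Finset S.V
  G := sG S.V
  A := sA S.G S.A
  T := ins S.T
  C := nb S.G S.A S.C
  B := nb S.G (S.A ∩ S.T) S.B
  lab := pull (pk S.B) S.lab

structure Setup.Valid (S : Setup L) : Prop where
  subC : S.C ⊆ S.A
  subB : S.B ⊆ S.A ∩ S.T
  mf : Mfa S.G 3 S.A (sub S.T) S.C
  flat : Flat S.G S.B S.lab

structure Setup.Disc (S : Setup L) (D : Set S.V) : Prop where
  subC : D ⊆ S.C
  ball : Ball S.G 3 D S.T
  subB : D ∩ S.T ⊆ S.B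
  ess : ¬ Pot S.G (D ∩ S.T) S.lab

def Setup.Solv (S : Setup L) : Prop := ∃ k D, (Setup.sd^[k] S).Disc D

/-- The loop theorem. -/
def LOOP_st : Prop :=
  ∀ (L : Type) [Group L] (S : Setup L), S.Valid → ∀ b l, Wk S.G (S.B ∩ S.C) b l b →
    Null S.G S.C b l → ev S.lab b l ≠ 1 → S.Solv

/-- A vertex of `s` with the largest colour. -/
def mx {V κ : Type} [Nonempty V] [LinearOrder κ] (col : V → κ) (s : Finset V) : V :=
  Classical.epsilon fun v => v ∈ s ∧ ∀ w ∈ s, col w ≤ col v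

/-- A manifold `W` with boundary `T`, a part `F` of the boundary and a colouring. -/
structure Col (κ : Type) where
  V : Type
  [ne : Nonempty V]
  G : SimpleGraph V
  W : Set V
  T : Set V
  F : Set V
  col : V → κ

attribute [instance] Col.ne

def Col.sd {κ : Type} [LinearOrder κ] (S : Col κ) : Col κ where
  V := Finset S.V
  G := sG S.V
  W := sA S.G S.W
  T := ins S.T
  F := sA S.G S.F
  col := fun s => S.col (mx S.col s)

/-- The curve between two colours. -/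
def Col.curve {κ : Type} (S : Col κ) (e : Finset κ) : Set (Finset S.V) :=
  {s | s ∈ sA S.G S.F ∧ s.image S.col = e}

/-- Disjoint discs with prescribed boundary curves. -/
def ED_st : Prop :=
  ∀ (κ : Type) [LinearOrder κ] (S : Col κ) (E : Set (Finset κ)), E.Finite → (∀ e ∈ E, e.card = 2) →
    S.W.Finite → Mf S.G 3 S.W S.T → Clopen S.G (S.W ∩ S.T) S.F →
    (∀ s ∈ sA S.G S.F, (s.image S.col).card ≤ 2) →
    (∀ e ∈ E, Sph (sG S.V) 2 (S.curve e) ∧
      ∀ a l, Wk (sG S.V) (S.curve e) a l a → Null (sG S.V) (sA S.G S.W) a l) →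
    ∃ (k : ℕ) (D : Finset κ → Set (Finset (Col.sd^[k] S).V)),
      (∀ e ∈ E, D e ⊆ sA (Col.sd^[k] S).G (Col.sd^[k] S).W ∧
        Ball (sG _) 3 (D e) (ins (Col.sd^[k] S).T) ∧
        D e ∩ ins (Col.sd^[k] S).T = (Col.sd^[k] S).curve e) ∧
      ∀ e ∈ E, ∀ e' ∈ E, e ≠ e' → Far (sG _) (D e) (D e')

end

end Pool.Agent.MP_6374aa_g

end

section

/-! Connectivity, components and walks. -/

namespace Pool.Agent.MP_6374aa_g

open Pool.Agent.MP_6374aa_gt Classical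

variable {V V' V'' : Type} {G : SimpleGraph V} {G' : SimpleGraph V'} {G'' : SimpleGraph V''}
  {A : Set V} {A' : Set V'} {A'' : Set V''} {L : Type} [Group L]

theorem adq_refl (a : V) : Adq G a a := by
  exact Or.inl rfl

theorem adq_symm {a b : V} (h : Adq G a b) : Adq G b a := by
  exact h.elim (fun h => Or.inl h.symm) fun h => Or.inr h.symm

theorem IsHom.adq {f : V' → V} (hf : IsHom G' A' G A f) {a b : V'} (ha : a ∈ A') (hb : b ∈ A')
    (h : Adq G' a b) : Adq G (f a) (f b) := by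
  rcases h with h | h
  · exact Or.inl (by rw [h])
  · exact hf.2 a ha b hb h

theorem Reach.refl (a : V) : Reach G A a a := by
  exact Relation.ReflTransGen.refl

theorem Reach.symm {a b : V} (h : Reach G A a b) : Reach G A b a := by
  unfold Reach at h ⊢
  induction h with
  | refl => exact Relation.ReflTransGen.refl
  | tail _ h ih => exact Relation.ReflTransGen.head ⟨h.2.1, h.1, h.2.2.symm⟩ ih

theorem Reach.trans {a b c : V} (h : Reach G A a b) (h' : Reach G A b c) : Reach G A a c := by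
  exact Relation.ReflTransGen.trans h h'

theorem Reach.mono {X : Set V} {a b : V} (h : Reach G X a b) (hX : X ⊆ A) : Reach G A a b := by
  unfold Reach at h ⊢
  induction h with
  | refl => exact Relation.ReflTransGen.refl
  | tail _ h ih => exact Relation.ReflTransGen.tail ih ⟨hX h.1, hX h.2.1, h.2.2⟩

theorem Reach.single {a b : V} (ha : a ∈ A) (hb : b ∈ A) (h : Adq G a b) : Reach G A a b := by
  rcases h with h | h
  · subst h
    exact Reach.refl a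
  · exact Relation.ReflTransGen.single ⟨ha, hb, h⟩

theorem Reach.mem {a b : V} (h : Reach G A a b) (ha : a ∈ A) : b ∈ A := by
  unfold Reach at h
  induction h with
  | refl => exact ha
  | tail _ h _ => exact h.2.1

theorem Reach.map {f : V' → V} (hf : IsHom G' A' G A f) {a b : V'} (h : Reach G' A' a b) :
    Reach G A (f a) (f b) := by
  unfold Reach at h
  induction h with
  | refl => exact Reach.refl _
  | tail _ h ih =>
    exact Reach.trans ih (Reach.single (hf.1 _ h.1) (hf.1 _ h.2.1) (hf.2 _ h.1 _ h.2.1 h.2.2))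

theorem Reach.const {α : Type} {φ : V → α} (hφ : ∀ a ∈ A, ∀ b ∈ A, G.Adj a b → φ a = φ b)
    {a b : V} (h : Reach G A a b) : φ a = φ b := by
  unfold Reach at h
  induction h with
  | refl => rfl
  | tail _ h ih => exact ih.trans (hφ _ h.1 _ h.2.1 h.2.2)

theorem Pre.const {α : Type} (h : Pre G A) {φ : V → α}
    (hφ : ∀ a ∈ A, ∀ b ∈ A, G.Adj a b → φ a = φ b) {a b : V} (ha : a ∈ A) (hb : b ∈ A) :
    φ a = φ b := by
  exact Reach.const hφ (h a ha b hb)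

theorem pre_of_const (h : ∀ P : V → Prop, (∀ a ∈ A, ∀ b ∈ A, G.Adj a b → (P a ↔ P b)) →
    ∀ a ∈ A, ∀ b ∈ A, (P a ↔ P b)) : Pre G A := by
  intro a ha b hb
  have key := h (fun x => Reach G A a x) (fun x hx y hy hxy =>
    ⟨fun h1 => h1.trans (Reach.single hx hy (Or.inr hxy)),
      fun h1 => h1.trans (Reach.single hy hx (Or.inr hxy.symm))⟩) a ha b hb
  exact key.1 (Reach.refl a)

theorem pre_of_base {x : V} (h : ∀ a ∈ A, Reach G A a x) : Pre G A := by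
  exact fun a ha b hb => (h a ha).trans (h b hb).symm

theorem pre_empty : Pre G (∅ : Set V) := by
  exact fun a ha => absurd ha (Set.notMem_empty a)

theorem pre_subsingleton (h : A.Subsingleton) : Pre G A := by
  intro a ha b hb
  rw [h ha hb]
  exact Reach.refl b

theorem con_singleton (a : V) : Con G {a} := by
  exact ⟨Set.singleton_nonempty a, pre_subsingleton Set.subsingleton_singleton⟩

theorem Pre.image {f : V' → V} (h : Pre G' A') (hf : IsHom G' A' G A f) : Pre G (f '' A') := by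
  rintro _ ⟨a, ha, rfl⟩ _ ⟨b, hb, rfl⟩
  have hf' : IsHom G' A' G (f '' A') f := ⟨fun x hx => ⟨x, hx, rfl⟩, hf.2⟩
  exact Reach.map hf' (h a ha b hb)

theorem Con.image {f : V' → V} (h : Con G' A') (hf : IsHom G' A' G A f) : Con G (f '' A') := by
  exact ⟨h.1.image f, h.2.image hf⟩

theorem con_iff_connected : Con G A ↔ (G.induce A).Connected := by
  constructor
  · rintro ⟨⟨x, hx⟩, hp⟩
    have : Nonempty A := ⟨⟨x, hx⟩⟩
    refine SimpleGraph.Connected.mk ?_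
    rintro ⟨a, ha⟩ ⟨b, hb⟩
    have key : ∀ c, Reach G A a c → ∀ hc : c ∈ A, (G.induce A).Reachable ⟨a, ha⟩ ⟨c, hc⟩ := by
      intro c h
      unfold Reach at h
      induction h with
      | refl => exact fun _ => SimpleGraph.Reachable.refl _
      | tail _ h ih =>
        intro hc
        refine (ih h.1).trans (SimpleGraph.Adj.reachable ?_)
        exact h.2.2
    exact key b (hp a ha b hb) hb
  · intro h
    obtain ⟨⟨x, hx⟩⟩ := h.nonempty
    refine ⟨⟨x, hx⟩, fun a ha b hb => ?_⟩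
    have key : ∀ u v : A, (G.induce A).Reachable u v → Reach G A u.1 v.1 := by
      intro u v huv
      obtain ⟨p⟩ := huv
      induction p with
      | nil => exact Reach.refl _
      | @cons u v w h _ ih => exact (Reach.single u.2 v.2 (Or.inr h)).trans ih
    exact key ⟨a, ha⟩ ⟨b, hb⟩ (h.preconnected _ _)

theorem Pre.union {X Y : Set V} (hX : Pre G X) (hY : Pre G Y) {a b : V} (ha : a ∈ X) (hb : b ∈ Y)
    (h : Adq G a b) : Pre G (X ∪ Y) := by
  refine pre_of_base (x := a) ?_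
  rintro y (hy | hy)
  · exact (hX y hy a ha).mono Set.subset_union_left
  · exact ((hY y hy b hb).mono Set.subset_union_right).trans
      (Reach.single (Or.inr hb) (Or.inl ha) (adq_symm h))

theorem Pre.of_near {X : Set V} (hX : Pre G X) (hXA : X ⊆ A)
    (h : ∀ y ∈ A, ∃ x ∈ X, Reach G A y x) : Pre G A := by
  intro a ha b hb
  obtain ⟨x, hx, h1⟩ := h a ha
  obtain ⟨y, hy, h2⟩ := h b hb
  exact (h1.trans ((hX x hx y hy).mono hXA)).trans h2.symm

/-- Connected pieces over a connected base. -/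
theorem pre_of_fibres (hA : Pre G A) (φ : V → Set V') (h1 : ∀ a ∈ A, φ a ⊆ A' ∧ Con G' (φ a))
    (h2 : ∀ a ∈ A, ∀ b ∈ A, G.Adj a b → ∃ x ∈ φ a, ∃ y ∈ φ b, Reach G' A' x y)
    (h3 : ∀ y ∈ A', ∃ a ∈ A, ∃ x ∈ φ a, Reach G' A' y x) : Pre G' A' := by
  have key : ∀ a ∈ A, ∀ b, Reach G A a b → ∀ x ∈ φ a, ∀ y ∈ φ b, Reach G' A' x y := by
    intro a ha b h
    unfold Reach at h
    induction h with
    | refl => exact fun x hx y hy => ((h1 a ha).2.2 x hx y hy).mono (h1 a ha).1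
    | @tail b c _ h ih =>
      intro x hx y hy
      obtain ⟨u, hu, w, hw, huw⟩ := h2 b h.1 c h.2.1 h.2.2
      exact ((ih x hx u hu).trans huw).trans
        (((h1 c h.2.1).2.2 w hw y hy).mono (h1 c h.2.1).1)
  intro y hy z hz
  obtain ⟨a, ha, x, hx, hyx⟩ := h3 y hy
  obtain ⟨b, hb, w, hw, hzw⟩ := h3 z hz
  exact (hyx.trans (key a ha b (hA a ha b hb) x hx w hw)).trans hzw.symm

theorem mem_cmp_self {a : V} (ha : a ∈ A) : a ∈ cmp G A a := by
  exact ⟨ha, Reach.refl a⟩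

theorem cmp_subset (a : V) : cmp G A a ⊆ A := by
  exact fun _ h => h.1

theorem con_cmp {a : V} (ha : a ∈ A) : Con G (cmp G A a) := by
  refine ⟨⟨a, mem_cmp_self ha⟩, pre_of_base (x := a) fun b hb => Reach.symm ?_⟩
  have key : ∀ c, Reach G A a c → Reach G (cmp G A a) a c := by
    intro c h
    unfold Reach at h
    induction h with
    | refl => exact Reach.refl _
    | tail h0 h ih =>
      exact ih.trans (Reach.single ⟨h.1, h0⟩ ⟨h.2.1, Relation.ReflTransGen.tail h0 h⟩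
        (Or.inr h.2.2))
  exact key b hb.2

theorem clopen_cmp (a : V) : Clopen G A (cmp G A a) := by
  exact ⟨cmp_subset a, fun x hx y hy hxy =>
    ⟨hy, hx.2.trans (Reach.single hx.1 hy (Or.inr hxy))⟩⟩

theorem cmp_eq_of_mem {a b : V} (h : b ∈ cmp G A a) : cmp G A b = cmp G A a := by
  ext x
  exact ⟨fun hx => ⟨hx.1, h.2.trans hx.2⟩, fun hx => ⟨hx.1, h.2.symm.trans hx.2⟩⟩

theorem cmp_eq_or_far (a b : V) : cmp G A a = cmp G A b ∨ Far G (cmp G A a) (cmp G A b) := by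
  by_cases hf : Far G (cmp G A a) (cmp G A b)
  · exact Or.inr hf
  · left
    unfold Far at hf
    push Not at hf
    obtain ⟨x, hx, y, hy, hxy⟩ := hf
    have hy' : y ∈ cmp G A a := ⟨hy.1, hx.2.trans (Reach.single hx.1 hy.1 hxy)⟩
    rw [← cmp_eq_of_mem hy', cmp_eq_of_mem hy]

theorem Pre.subset_cmp {X : Set V} (hX : Pre G X) (hXA : X ⊆ A) {a x : V} (hx : x ∈ X)
    (ha : x ∈ cmp G A a) : X ⊆ cmp G A a := by
  exact fun y hy => ⟨hXA hy, ha.2.trans ((hX x hx y hy).mono hXA)⟩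

theorem Pre.subset_clopen {X Y : Set V} (hX : Pre G X) (hXA : X ⊆ A) (hY : Clopen G A Y) {x : V}
    (hx : x ∈ X) (hy : x ∈ Y) : X ⊆ Y := by
  intro y hyX
  have key := Pre.const hX (φ := fun v => v ∈ Y) (fun a ha b hb hab =>
    propext ⟨fun h => hY.2 a h b (hXA hb) hab, fun h => hY.2 b h a (hXA ha) hab.symm⟩) hx hyX
  exact key ▸ hy

theorem Clopen.cmp_eq {X : Set V} (hX : Clopen G A X) {a : V} (ha : a ∈ X) :
    cmp G X a = cmp G A a := by
  apply Set.Subset.antisymm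
  · exact fun y hy => ⟨hX.1 hy.1, hy.2.mono hX.1⟩
  · have h1 : cmp G A a ⊆ X :=
      Pre.subset_clopen (con_cmp (hX.1 ha)).2 (cmp_subset a) hX (mem_cmp_self (hX.1 ha)) ha
    exact Pre.subset_cmp (con_cmp (hX.1 ha)).2 h1 (mem_cmp_self (hX.1 ha)) (mem_cmp_self ha)

theorem Clopen.eq_cmp {X : Set V} (hX : Clopen G A X) (hp : Pre G X) {a : V} (ha : a ∈ X) :
    X = cmp G A a := by
  apply Set.Subset.antisymm
  · exact Pre.subset_cmp hp hX.1 ha (mem_cmp_self (hX.1 ha))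
  · exact Pre.subset_clopen (con_cmp (hX.1 ha)).2 (cmp_subset a) hX (mem_cmp_self (hX.1 ha)) ha

theorem Clopen.diff {X : Set V} (hX : Clopen G A X) : Clopen G A (A \ X) := by
  exact ⟨Set.sdiff_subset, fun a ha b hb hab =>
    ⟨hb, fun hbX => ha.2 (hX.2 b hbX a ha.1 hab.symm)⟩⟩

theorem Clopen.far {X : Set V} (hX : Clopen G A X) : Far G X (A \ X) := by
  rintro a ha b hb (h | h)
  · exact hb.2 (h ▸ ha)
  · exact hb.2 (hX.2 a ha b hb.1 h)

theorem Pre.cmp_eq (h : Pre G A) {a : V} (ha : a ∈ A) : cmp G A a = A := by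
  exact Set.Subset.antisymm (cmp_subset a) fun b hb => ⟨hb, h a ha b hb⟩

/-- A path from inside `X` to outside `X` crosses an edge. -/
theorem Reach.exit {X : Set V} {a b : V} (h : Reach G A a b) (ha : a ∈ A ∩ X) (hb : b ∉ X) :
    ∃ u ∈ A ∩ X, ∃ w ∈ A \ X, G.Adj u w ∧ Reach G (A ∩ X) a u := by
  have key : ∀ c, Reach G A a c → (c ∈ X ∧ Reach G (A ∩ X) a c) ∨
      ∃ u ∈ A ∩ X, ∃ w ∈ A \ X, G.Adj u w ∧ Reach G (A ∩ X) a u := by
    intro c h
    unfold Reach at h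
    induction h with
    | refl => exact Or.inl ⟨ha.2, Reach.refl a⟩
    | @tail b c _ h ih =>
      rcases ih with ih | ih
      · by_cases hc : c ∈ X
        · exact Or.inl ⟨hc, ih.2.trans (Reach.single ⟨h.1, ih.1⟩ ⟨h.2.1, hc⟩ (Or.inr h.2.2))⟩
        · exact Or.inr ⟨b, ⟨h.1, ih.1⟩, c, ⟨h.2.1, hc⟩, h.2.2, ih.2⟩
      · exact Or.inr ih
  rcases key b h with h | h
  · exact absurd h.1 hb
  · exact h

theorem Far.symm {X Y : Set V} (h : Far G X Y) : Far G Y X := by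
  exact fun a ha b hb hab => h b hb a ha (adq_symm hab)

theorem Far.mono {X Y X' Y' : Set V} (h : Far G X Y) (hX : X' ⊆ X) (hY : Y' ⊆ Y) : Far G X' Y' := by
  exact fun a ha b hb => h a (hX ha) b (hY hb)

theorem Far.disjoint {X Y : Set V} (h : Far G X Y) : Disjoint X Y := by
  exact Set.disjoint_left.2 fun a ha hb => h a ha a hb (adq_refl a)

theorem NE.symm {X Y : Set V} (h : NE G X Y) : NE G Y X := by
  exact fun a ha b hb hab => h b hb a ha hab.symm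

theorem NE.far {X Y : Set V} (h : NE G X Y) (hd : Disjoint X Y) : Far G X Y := by
  rintro a ha b hb (hab | hab)
  · exact Set.disjoint_left.1 hd ha (hab ▸ hb)
  · exact h a ⟨ha, Set.disjoint_left.1 hd ha⟩ b ⟨hb, Set.disjoint_right.1 hd hb⟩ hab

theorem NE.clique {X Y : Set V} (h : NE G X Y) {s : Finset V} (hs : Clq G (X ∪ Y) s) :
    ↑s ⊆ X ∨ ↑s ⊆ Y := by
  by_contra hn
  rw [not_or, Set.not_subset, Set.not_subset] at hn
  obtain ⟨⟨b, hb, hbX⟩, a, ha, haY⟩ := hn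
  have haX : a ∈ X := (hs.1 ha).resolve_right haY
  have hbY : b ∈ Y := (hs.1 hb).resolve_left hbX
  exact h a ⟨haX, haY⟩ b ⟨hbY, hbX⟩ (hs.2 ha hb fun e => hbX (e ▸ haX))

theorem NE.cov2 {X Y : Set V} (h : NE G X Y) : Cov2 G (X ∪ Y) X Y := by
  have key : ∀ a ∈ X ∪ Y, ∀ b ∈ X ∪ Y, Adq G a b → a ∉ X → b ∈ Y := by
    intro a ha b hb hab haX
    have haY : a ∈ Y := ha.resolve_left haX
    by_contra hbY
    have hbX : b ∈ X := hb.resolve_right hbY
    rcases hab with hab | hab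
    · exact haX (hab ▸ hbX)
    · exact h b ⟨hbX, hbY⟩ a ⟨haY, haX⟩ hab.symm
  refine ⟨Set.subset_union_left, Set.subset_union_right, fun u hu v hv w hw huv hvw huw => ?_⟩
  by_cases h1 : u ∈ X
  · by_cases h2 : v ∈ X
    · by_cases h3 : w ∈ X
      · exact Or.inl ⟨h1, h2, h3⟩
      · exact Or.inr ⟨key w hw u hu (adq_symm huw) h3, key w hw v hv (adq_symm hvw) h3,
          hw.resolve_left h3⟩
    · exact Or.inr ⟨key v hv u hu (adq_symm huv) h2, hv.resolve_left h2, key v hv w hw hvw h2⟩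
  · exact Or.inr ⟨hu.resolve_left h1, key u hu v hv huv h1, key u hu w hw huw h1⟩

theorem nc_pos (hf : A.Finite) (hn : A.Nonempty) : 0 < nc G A := by
  exact (Set.ncard_pos (hf.image _)).2 (hn.image _)

theorem nc_empty : nc G (∅ : Set V) = 0 := by
  simp [nc]

/-- Counting components: a map that detects components and misses one. -/
theorem nc_lt (hf : A.Finite) (φ : V' → V) (h1 : ∀ x ∈ A', φ x ∈ A)
    (h2 : ∀ x ∈ A', ∀ y ∈ A', Reach G A (φ x) (φ y) → Reach G' A' x y) {a : V} (ha : a ∈ A)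
    (h3 : ∀ x ∈ A', ¬ Reach G A a (φ x)) : nc G' A' < nc G A := by
  unfold nc
  have hfin : ((fun a => cmp G A a) '' A).Finite := hf.image _
  have hmem : cmp G A a ∈ (fun a => cmp G A a) '' A := ⟨a, ha, rfl⟩
  refine lt_of_le_of_lt ?_ (Set.ncard_sdiff_singleton_lt_of_mem hmem hfin)
  let ψ : Set V' → Set V := fun C =>
    if h : ∃ x ∈ A', cmp G' A' x = C then cmp G A (φ h.choose) else ∅
  have hψ : ∀ C ∈ (fun x => cmp G' A' x) '' A',
      ∃ x ∈ A', cmp G' A' x = C ∧ ψ C = cmp G A (φ x) := by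
    intro C hC
    have hC' : ∃ x ∈ A', cmp G' A' x = C := hC
    exact ⟨hC'.choose, hC'.choose_spec.1, hC'.choose_spec.2, dif_pos hC'⟩
  refine Set.ncard_le_ncard_of_injOn ψ ?_ ?_ (hfin.subset Set.sdiff_subset)
  · intro C hC
    obtain ⟨x, hx, -, e⟩ := hψ C hC
    rw [e]
    refine ⟨⟨φ x, h1 x hx, rfl⟩, fun h => h3 x hx ?_⟩
    have h' : cmp G A (φ x) = cmp G A a := h
    have : φ x ∈ cmp G A a := h' ▸ mem_cmp_self (h1 x hx)
    exact this.2
  · intro C hC D hD e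
    obtain ⟨x, hx, rfl, e1⟩ := hψ C hC
    obtain ⟨y, hy, rfl, e2⟩ := hψ D hD
    rw [e1, e2] at e
    have : φ y ∈ cmp G A (φ x) := e ▸ mem_cmp_self (h1 y hy)
    exact (cmp_eq_of_mem (a := x) (b := y) ⟨hy, h2 x hx y hy this.2⟩).symm

end Pool.Agent.MP_6374aa_g

end

section

/-! Walks and evaluation of labels. -/

namespace Pool.Agent.MP_6374aa_g

open Pool.Agent.MP_6374aa_gt Classical

variable {V V' V'' : Type} {G : SimpleGraph V} {G' : SimpleGraph V'} {G'' : SimpleGraph V''}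
  {A : Set V} {A' : Set V'} {A'' : Set V''} {L : Type} [Group L]

theorem Wk.mem_left {a b : V} {l : List V} (h : Wk G A a l b) : a ∈ A := by
  cases h <;> assumption

theorem Wk.mem_right {a b : V} {l : List V} (h : Wk G A a l b) : b ∈ A := by
  induction h <;> assumption

theorem Wk.mem_list {a b : V} {l : List V} (h : Wk G A a l b) : ∀ x ∈ l, x ∈ A := by
  induction h with
  | nil _ => simp
  | cons _ _ h ih =>
    intro x hx
    rcases List.mem_cons.1 hx with rfl | hx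
    · exact h.mem_left
    · exact ih x hx

theorem Wk.single {a b : V} (ha : a ∈ A) (hb : b ∈ A) (h : Adq G a b) : Wk G A a [b] b := by
  exact Wk.cons ha h (Wk.nil hb)

theorem Wk.append {a b c : V} {l m : List V} (h : Wk G A a l b) (h' : Wk G A b m c) :
    Wk G A a (l ++ m) c := by
  induction h with
  | nil _ => exact h'
  | cons ha hab _ ih => exact Wk.cons ha hab (ih h')

theorem rev_cons_B2 (a b : V) (l : List V) : rev a (b :: l) = rev b l ++ [a] := by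
  unfold rev
  rw [List.reverse_cons, List.tail_append_of_ne_nil (by simp)]

theorem Wk.rev {a b : V} {l : List V} (h : Wk G A a l b) : Wk G A b (rev a l) a := by
  induction h with
  | nil ha => exact Wk.nil ha
  | cons ha hab h ih =>
    rw [rev_cons_B2]
    exact ih.append (Wk.single h.mem_left ha (adq_symm hab))

theorem Wk.map {f : V' → V} (hf : IsHom G' A' G A f) {a b : V'} {l : List V'}
    (h : Wk G' A' a l b) : Wk G A (f a) (l.map f) (f b) := by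
  induction h with
  | nil ha => exact Wk.nil (hf.1 _ ha)
  | cons ha hab h ih => exact Wk.cons (hf.1 _ ha) (hf.adq ha h.mem_left hab) ih

theorem Wk.mono {X : Set V} {a b : V} {l : List V} (h : Wk G X a l b) (hX : X ⊆ A) :
    Wk G A a l b := by
  induction h with
  | nil ha => exact Wk.nil (hX ha)
  | cons ha hab _ ih => exact Wk.cons (hX ha) hab ih

theorem Wk.restrict {X : Set V} {a b : V} {l : List V} (h : Wk G A a l b) (ha : a ∈ X)
    (hl : ∀ x ∈ l, x ∈ X) : Wk G X a l b := by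
  induction h with
  | nil _ => exact Wk.nil ha
  | cons _ hab _ ih =>
    exact Wk.cons ha hab (ih (hl _ List.mem_cons_self) fun x hx => hl x (List.mem_cons_of_mem _ hx))

theorem Wk.reach {a b : V} {l : List V} (h : Wk G A a l b) : Reach G A a b := by
  induction h with
  | nil _ => exact Reach.refl _
  | cons ha hab h ih => exact (Reach.single ha h.mem_left hab).trans ih

theorem Reach.wk {a b : V} (h : Reach G A a b) (ha : a ∈ A) : ∃ l, Wk G A a l b := by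
  induction h with
  | refl => exact ⟨[], Wk.nil ha⟩
  | tail _ h ih =>
    obtain ⟨l, hl⟩ := ih
    exact ⟨_, hl.append (Wk.single h.1 h.2.1 (Or.inr h.2.2))⟩

theorem Wk.cmp {a b : V} {l : List V} (h : Wk G A a l b) : Wk G (cmp G A a) a l b := by
  refine h.restrict (mem_cmp_self h.mem_left) fun x hx => ⟨h.mem_list x hx, ?_⟩
  induction h with
  | nil _ => simp at hx
  | cons ha hab h ih =>
    rcases List.mem_cons.1 hx with rfl | hx
    · exact Reach.single ha h.mem_left hab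
    · exact (Reach.single ha h.mem_left hab).trans (ih hx)

theorem Wk.end_unique {a b c : V} {l : List V} {X : Set V} (h : Wk G A a l b)
    (h' : Wk G X a l c) : b = c := by
  induction h with
  | nil _ =>
    cases h'
    rfl
  | cons _ _ _ ih =>
    cases h' with
    | cons _ _ h' => exact ih h'

theorem ev_append {lab : V → V → L} {a b : V} {l : List V} (h : Wk G A a l b) (m : List V) :
    ev lab a (l ++ m) = ev lab a l * ev lab b m := by
  induction h with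
  | nil _ => simp [ev]
  | cons _ _ _ ih => simp [ev, ih, mul_assoc]

theorem ev_rev {lab : V → V → L} (hl : Flat G A lab) {a b : V} {l : List V} (h : Wk G A a l b) :
    ev lab b (rev a l) = (ev lab a l)⁻¹ := by
  induction h with
  | nil _ => simp [ev, rev]
  | cons ha hab h ih =>
    rw [rev_cons_B2, ev_append h.rev, ih]
    simp [ev, hl.symm ha h.mem_left hab]

theorem ev_pull (f : V' → V) (lab : V → V → L) (a : V') (l : List V') :
    ev (pull f lab) a l = ev lab (f a) (l.map f) := by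
  induction l generalizing a with
  | nil => rfl
  | cons b l ih => simp [ev, ih, pull]

theorem ev_hom {L' : Type} [Group L'] (T : L →* L') (lab : V → V → L) (a : V) (l : List V) :
    ev (fun u w => T (lab u w)) a l = T (ev lab a l) := by
  induction l generalizing a with
  | nil => simp [ev]
  | cons b l ih => simp [ev, ih]

theorem ev_congr {l1 l2 : V → V → L} (h : ∀ u ∈ A, ∀ w ∈ A, Adq G u w → l1 u w = l2 u w)
    {a b : V} {l : List V} (hw : Wk G A a l b) : ev l1 a l = ev l2 a l := by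
  induction hw with
  | nil _ => rfl
  | cons ha hab hw ih => simp only [ev, ih, h _ ha _ hw.mem_left hab]

theorem ev_mul {C : Type} [CommGroup C] (l1 l2 : V → V → C) (a : V) (l : List V) :
    ev (fun u w => l1 u w * l2 u w) a l = ev l1 a l * ev l2 a l := by
  induction l generalizing a with
  | nil => simp [ev]
  | cons b l ih => simp only [ev, ih, mul_mul_mul_comm]

theorem ev_gau {l1 l2 : V → V → L} {k : V → L} (h : Gau G A l1 l2 k) {a b : V} {l : List V}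
    (hw : Wk G A a l b) : ev l1 a l = k a * ev l2 a l * (k b)⁻¹ := by
  induction hw with
  | nil _ => simp [ev]
  | cons ha hab hw ih =>
    simp only [ev, ih, h _ ha _ hw.mem_left hab]
    group

theorem ev_of_pot {lab : V → V → L} {p : V → L}
    (h : ∀ u ∈ A, ∀ w ∈ A, Adq G u w → lab u w = p u * (p w)⁻¹) {a b : V} {l : List V}
    (hw : Wk G A a l b) : ev lab a l = p a * (p b)⁻¹ := by
  induction hw with
  | nil _ => simp [ev]
  | cons ha hab hw ih =>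
    simp only [ev, ih, h _ ha _ hw.mem_left hab]
    group

theorem Pot.ev_loop {lab : V → V → L} (h : Pot G A lab) {a : V} {l : List V} (hw : Wk G A a l a) :
    ev lab a l = 1 := by
  obtain ⟨p, hp⟩ := h
  rw [ev_of_pot hp hw, mul_inv_cancel]

theorem pot_of_base_B2 {lab : V → V → L} (hl : Flat G A lab) (β : V → V)
    (h1 : ∀ u ∈ A, Reach G A u (β u)) (h2 : ∀ u ∈ A, ∀ w ∈ A, Adq G u w → β w = β u)
    (h : ∀ u ∈ A, ∀ l, Wk G A (β u) l (β u) → ev lab (β u) l = 1) : Pot G A lab := by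
  have hW : ∀ u, ∃ l, u ∈ A → Wk G A u l (β u) := fun u => by
    by_cases hu : u ∈ A
    · exact ((h1 u hu).wk hu).imp fun _ h _ => h
    · exact ⟨[], fun e => absurd e hu⟩
  choose W hW using hW
  refine ⟨fun u => ev lab u (W u), fun u hu w hw huw => ?_⟩
  have h3 := h u hu _ ((hW u hu).rev.append (Wk.cons hu huw (h2 u hu w hw huw ▸ hW w hw)))
  rw [ev_append (hW u hu).rev, ev_rev hl (hW u hu), ev, inv_mul_eq_one] at h3
  exact eq_mul_inv_of_mul_eq h3.symm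

theorem pot_of_loops {lab : V → V → L} (hl : Flat G A lab)
    (h : ∀ a l, Wk G A a l a → ev lab a l = 1) : Pot G A lab := by
  refine pot_of_base_B2 hl (fun u => @Classical.epsilon V ⟨u⟩ fun x => x ∈ cmp G A u)
    (fun u hu => ?_) (fun u hu w hw huw => ?_) fun u _ l hw => h _ l hw
  · exact (Classical.epsilon_spec (p := fun x => x ∈ cmp G A u) ⟨u, mem_cmp_self hu⟩).2
  · rw [cmp_eq_of_mem (a := u) (b := w) ⟨hw, Reach.single hu hw huw⟩]

theorem pot_of_loops_at {lab : V → V → L} (hl : Flat G A lab) (hp : Pre G A) {a : V} (ha : a ∈ A)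
    (h : ∀ l, Wk G A a l a → ev lab a l = 1) : Pot G A lab := by
  exact pot_of_base_B2 hl (fun _ => a) (fun u hu => hp u hu a ha) (fun _ _ _ _ _ => rfl)
    fun _ _ l hw => h l hw

theorem ev_gen {lab : V → V → L} (hl : Flat G A lab) (a : V) (l : List V) :
    glift G A lab (ev (gen G A) a l) = ev lab a l := by
  rw [← ev_hom]
  simp only [glift_gen hl]

theorem null_iff_gen {a : V} {l : List V} : Null G A a l ↔ ev (gen G A) a l = 1 := by
  refine ⟨fun h => h _ _ (flat_gen G A), fun h L _ lab hl => ?_⟩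
  rw [← ev_gen hl, h, map_one]

theorem Null.mono {X : Set V} {a : V} {l : List V} (h : Null G X a l) (hX : X ⊆ A) : Null G A a l := by
  exact fun L _ lab hl => h L lab (hl.mono hX)

theorem Null.map {f : V' → V} (hf : IsHom G' A' G A f) {a : V'} {l : List V'}
    (h : Null G' A' a l) : Null G A (f a) (l.map f) := by
  intro L _ lab hl
  rw [← ev_pull]
  exact h L _ (hl.pull hf)

theorem SCo.null (h : SCo G A) {a : V} {l : List V} (hw : Wk G A a l a) : Null G A a l := by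
  exact fun L _ lab hl => (h L lab hl).ev_loop hw

theorem sco_of_null (h : ∀ a l, Wk G A a l a → Null G A a l) : SCo G A := by
  exact fun L _ lab hl => pot_of_loops hl fun a l hw => h a l hw L lab hl

theorem sco_iff_gen : SCo G A ↔ Pot G A (gen G A) := by
  exact ⟨fun h => h _ _ (flat_gen G A), fun h =>
    sco_of_null fun _ _ hw => null_iff_gen.2 (h.ev_loop hw)⟩

theorem Dom.ev_loop {ρ : V → V → L} {L' : Type} [Group L'] {lab : V → V → L'} (h : Dom G A ρ lab)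
    {a : V} {l : List V} (hw : Wk G A a l a) (h1 : ev ρ a l = 1) : ev lab a l = 1 := by
  obtain ⟨T, k, hk⟩ := h
  rw [ev_gau hk hw, ev_hom, h1, map_one, mul_one, mul_inv_cancel]

/-- A label whose trivial loops are trivial for `lab` dominates it after enlarging nothing,
provided every element of `L` is the value of a loop. -/
theorem dom_of_loops {ρ : V → V → L} {L' : Type} [Group L'] {lab : V → V → L'} (hρ : Flat G A ρ)
    (hl : Flat G A lab) (hp : Pre G A) {a : V} (ha : a ∈ A)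
    (hs : ∀ g, ∃ l, Wk G A a l a ∧ ev ρ a l = g)
    (h : ∀ l, Wk G A a l a → ev ρ a l = 1 → ev lab a l = 1) : Dom G A ρ lab := by
  choose o o1 o2 using hs
  have key : ∀ l g, Wk G A a l a → ev ρ a l = g → ev lab a l = ev lab a (o g) := by
    intro l g hw e
    have h1 := h _ (hw.append (o1 g).rev)
      (by rw [ev_append hw, ev_rev hρ (o1 g), o2, e, mul_inv_cancel])
    rwa [ev_append hw, ev_rev hl (o1 g), mul_inv_eq_one] at h1
  have hW : ∀ u, ∃ l, u ∈ A → Wk G A u l a ∧ ev ρ u l = 1 := fun u => by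
    by_cases hu : u ∈ A
    · obtain ⟨l, hw⟩ := (hp u hu a ha).wk hu
      exact ⟨_, fun _ => ⟨hw.append (o1 (ev ρ u l)⁻¹), by rw [ev_append hw, o2, mul_inv_cancel]⟩⟩
    · exact ⟨[], fun e => absurd e hu⟩
  choose W hW using hW
  refine ⟨MonoidHom.mk' (fun g => ev lab a (o g)) fun g g' => ?_, fun u => ev lab u (W u),
    fun u hu w hw huw => ?_⟩
  · rw [← ev_append (o1 g)]
    exact (key _ _ ((o1 g).append (o1 g')) (by rw [ev_append (o1 g), o2, o2])).symm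
  · have h1 := key _ (ρ u w) ((hW u hu).1.rev.append (Wk.cons hu huw (hW w hw).1))
      (by rw [ev_append (hW u hu).1.rev, ev_rev hρ (hW u hu).1, ev, (hW u hu).2, (hW w hw).2,
        inv_one, one_mul, mul_one])
    rw [ev_append (hW u hu).1.rev, ev_rev hl (hW u hu).1, ev] at h1
    simp only [MonoidHom.mk'_apply]
    rw [← h1]
    group

theorem single_B2 {a : V} (ha : a ∈ A) : ({a} : Finset V) ∈ sA G A :=
  ⟨Finset.singleton_nonempty a, by simpa using ha, by simp⟩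

theorem pair_B2 {a b : V} (ha : a ∈ A) (hb : b ∈ A) (h : Adq G a b) :
    ({a, b} : Finset V) ∈ sA G A := by
  refine ⟨Finset.insert_nonempty _ _, ?_, ?_⟩
  · rw [Finset.coe_pair]
    exact Set.pair_subset ha hb
  · rw [Finset.coe_pair, SimpleGraph.isClique_pair]
    exact h.resolve_left

theorem adq_sub_B2 {s t : Finset V} (h : s ⊆ t) : Adq (sG V) s t :=
  h.eq_or_ssubset.imp_right Or.inl

theorem sdw_wk {a b : V} {l : List V} (h : Wk G A a l b) :
    Wk (sG V) (sA G A) {a} (sdw a l) {b} := by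
  induction h with
  | nil ha => exact Wk.nil (single_B2 ha)
  | cons ha hab h ih =>
    exact Wk.cons (single_B2 ha) (adq_sub_B2 (by simp))
      (Wk.cons (pair_B2 ha h.mem_left hab) (adq_symm (adq_sub_B2 (by simp))) ih)

theorem sdw_mem {a : V} {l : List V} {s : Finset V} (hs : s ∈ sdw a l) :
    ∀ x ∈ s, x = a ∨ x ∈ l := by
  induction l generalizing a with
  | nil => simp [sdw] at hs
  | cons b l ih =>
    intro x hx
    simp only [sdw, List.mem_cons] at hs ⊢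
    rcases hs with rfl | rfl | hs
    · simp only [Finset.mem_insert, Finset.mem_singleton] at hx
      tauto
    · exact Or.inr (Or.inl (Finset.mem_singleton.1 hx))
    · exact Or.inr (ih hs x hx)

/-- Evaluation along the subdivided walk. -/
theorem ev_sdw {lab : V → V → L} (hl : Flat G A lab) {π : Finset V → V}
    (hπ : ∀ s ∈ sA G A, π s ∈ s) {a b : V} {l : List V} (h : Wk G A a l b) :
    ev (pull π lab) {a} (sdw a l) = ev lab a l := by
  induction h with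
  | nil _ => rfl
  | @cons a b c l ha hab h ih =>
    have hb := h.mem_left
    have e1 : π {a} = a := Finset.mem_singleton.1 (hπ _ (single_B2 ha))
    have e2 : π {b} = b := Finset.mem_singleton.1 (hπ _ (single_B2 hb))
    have e3 := hπ _ (pair_B2 ha hb hab)
    simp only [sdw, ev, ih]
    rw [← mul_assoc, pull, pull, e1, e2]
    congr 1
    rcases Finset.mem_insert.1 e3 with e | e
    · rw [e, hl.self ha, one_mul]
    · rw [Finset.mem_singleton.1 e, hl.self hb, mul_one]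

end Pool.Agent.MP_6374aa_g

end

section

/-! Auxiliary facts for labels: signs, extension from components, mixed simplices. -/

namespace Pool.Agent.MP_6374aa_g

open Pool.Agent.MP_6374aa_gt Classical

variable {V : Type} {G : SimpleGraph V} {A : Set V} {L : Type} [Group L]

theorem z2_or_B3 (x : Z2) : x = 1 ∨ x = neg := by
  have h : ∀ y : ZMod 2, y = 0 ∨ y = 1 := by decide
  exact h x.toAdd

theorem neg_ne_B3 : neg ≠ 1 := by
  have h : (1 : ZMod 2) ≠ 0 := by decide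
  exact h

theorem z2_sq_B3 (x : Z2) : x * x = 1 := by
  have h : ∀ y : ZMod 2, y + y = 0 := by decide
  exact h x.toAdd

theorem z2_eq_iff_B3 (x y : Z2) : x = y ↔ (x = 1 ↔ y = 1) := by
  refine ⟨fun e => by rw [e], fun e => ?_⟩
  rcases z2_or_B3 x with hx | hx
  · rw [hx, e.1 hx]
  · rcases z2_or_B3 y with hy | hy
    · rw [hy, e.2 hy]
    · rw [hx, hy]

/-- The sign of a proposition. -/
noncomputable def sg_B3 (p : Prop) : Z2 := if p then 1 else neg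

theorem sg_one_B3 {p : Prop} : sg_B3 p = 1 ↔ p := by
  unfold sg_B3
  by_cases h : p
  · rw [if_pos h]
    exact iff_of_true rfl h
  · rw [if_neg h]
    exact iff_of_false neg_ne_B3 h

theorem sg_eq_B3 {p q : Prop} : sg_B3 p = sg_B3 q ↔ (p ↔ q) := by
  rw [z2_eq_iff_B3, sg_one_B3, sg_one_B3]

/-- A flat label on a union of components extends. -/
theorem clopen_ext_B3 {X : Set V} (hX : Clopen G A X) {lab : V → V → L} (hl : Flat G X lab) :
    ∃ lab' : V → V → L, Flat G A lab' ∧ ∀ u ∈ X, ∀ w, lab' u w = lab u w := by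
  have hm : ∀ u ∈ X, ∀ w ∈ A, Adq G u w → w ∈ X := by
    intro u hu w hw huw
    rcases huw with rfl | huw
    · exact hu
    · exact hX.2 u hu w hw huw
  refine ⟨fun u w => if u ∈ X then lab u w else 1, ?_, fun u hu w => if_pos hu⟩
  intro u hu v hv w hw h3 h4 h5
  show (if u ∈ X then lab u v else 1) * (if v ∈ X then lab v w else 1) =
    if u ∈ X then lab u w else 1
  by_cases c : u ∈ X
  · rw [if_pos c, if_pos c, if_pos (hm u c v hv h3)]
    exact hl u c v (hm u c v hv h3) w (hm u c w hw h5) h3 h4 h5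
  · rw [if_neg c, if_neg c, if_neg fun e => c (hm v e u hu h3.symm), mul_one]

theorem tri_mem_B3 {u v w : V} (hu : u ∈ A) (hv : v ∈ A) (hw : w ∈ A) (h3 : Adq G u v)
    (h4 : Adq G v w) (h5 : Adq G u w) : ({u, v, w} : Finset V) ∈ sA G A := by
  refine ⟨⟨u, by simp⟩, ?_, ?_⟩
  · intro x hx
    simp only [Finset.coe_insert, Finset.coe_singleton, Set.mem_insert_iff,
      Set.mem_singleton_iff] at hx
    rcases hx with rfl | rfl | rfl <;> assumption
  · intro x hx y hy hxy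
    simp only [Finset.coe_insert, Finset.coe_singleton, Set.mem_insert_iff,
      Set.mem_singleton_iff] at hx hy
    have key : Adq G x y := by
      rcases hx with rfl | rfl | rfl <;> rcases hy with rfl | rfl | rfl <;>
        first | exact Or.inl rfl | assumption | exact Adq.symm (by assumption)
    exact key.resolve_left hxy

theorem mem_fr_B3 {Q : Set V} {t : Finset V} (ht : t ∈ sA G A) {u w : V} (hu : u ∈ t) (hw : w ∈ t)
    (e : ¬ (u ∈ Q ↔ w ∈ Q)) : t ∈ fr G A Q := by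
  refine ⟨ht, ?_, fun h => e (iff_of_true (h hu) (h hw))⟩
  by_contra hn
  exact e (iff_of_false (fun c => hn ⟨u, hu, c⟩) fun c => hn ⟨w, hw, c⟩)

end Pool.Agent.MP_6374aa_g

end

section

/-! Labels, potentials and gluing. -/

namespace Pool.Agent.MP_6374aa_g

open Pool.Agent.MP_6374aa_gt Classical

variable {V V' V'' : Type} {G : SimpleGraph V} {G' : SimpleGraph V'} {G'' : SimpleGraph V''}
  {A : Set V} {A' : Set V'} {A'' : Set V''} {L : Type} [Group L]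

theorem Gau.refl (l1 : V → V → L) : Gau G A l1 l1 fun _ => 1 := by
  intro u _ w _ _
  simp

theorem Gau.symm {l1 l2 : V → V → L} {k : V → L} (h : Gau G A l1 l2 k) :
    Gau G A l2 l1 fun u => (k u)⁻¹ := by
  intro u hu w hw huw
  rw [h u hu w hw huw]
  group

theorem Gau.trans {l1 l2 l3 : V → V → L} {k m : V → L} (h : Gau G A l1 l2 k)
    (h' : Gau G A l2 l3 m) : Gau G A l1 l3 fun u => k u * m u := by
  intro u hu w hw huw
  rw [h u hu w hw huw, h' u hu w hw huw]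
  group

theorem Gau.mono {l1 l2 : V → V → L} {k : V → L} (h : Gau G A l1 l2 k) {X : Set V} (hX : X ⊆ A) :
    Gau G X l1 l2 k := by
  exact fun u hu w hw huw => h u (hX hu) w (hX hw) huw

theorem Gau.pull {l1 l2 : V → V → L} {k : V → L} (h : Gau G A l1 l2 k) {f : V' → V}
    (hf : IsHom G' A' G A f) : Gau G' A' (pull f l1) (pull f l2) fun u => k (f u) := by
  exact fun u hu w hw huw => h _ (hf.1 u hu) _ (hf.1 w hw) (hf.adq hu hw huw)

theorem Gau.map {l1 l2 : V → V → L} {k : V → L} (h : Gau G A l1 l2 k) {L' : Type} [Group L']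
    (T : L →* L') : Gau G A (fun u w => T (l1 u w)) (fun u w => T (l2 u w)) fun u => T (k u) := by
  intro u hu w hw huw
  simp only [h u hu w hw huw, map_mul, map_inv]

theorem Gau.flat {l1 l2 : V → V → L} {k : V → L} (h : Gau G A l1 l2 k) (h2 : Flat G A l2) :
    Flat G A l1 := by
  intro u hu v hv w hw h3 h4 h5
  rw [h u hu v hv h3, h v hv w hw h4, h u hu w hw h5, ← h2 u hu v hv w hw h3 h4 h5]
  group

theorem Gau.pot {l1 l2 : V → V → L} {k : V → L} (h : Gau G A l1 l2 k) (h2 : Pot G A l2) :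
    Pot G A l1 := by
  obtain ⟨p, hp⟩ := h2
  refine ⟨fun u => k u * p u, fun u hu w hw huw => ?_⟩
  rw [h u hu w hw huw, hp u hu w hw huw]
  group

theorem flat_pull {lab : V → V → L} (h : Flat G A lab) {f : V' → V} (hf : IsHom G' A' G A f) :
    Flat G' A' (pull f lab) := by
  exact h.pull hf

theorem flat_one : Flat G A fun _ _ => (1 : L) := by
  intro u _ v _ w _ _ _ _
  simp

theorem flat_mul {C : Type} [CommGroup C] {l1 l2 : V → V → C} (h1 : Flat G A l1)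
    (h2 : Flat G A l2) : Flat G A fun u w => l1 u w * l2 u w := by
  intro u hu v hv w hw h3 h4 h5
  show l1 u v * l2 u v * (l1 v w * l2 v w) = l1 u w * l2 u w
  rw [← h1 u hu v hv w hw h3 h4 h5, ← h2 u hu v hv w hw h3 h4 h5, mul_mul_mul_comm]

theorem flat_prod {C ι : Type} [CommGroup C] {θ : ι → V → V → C} (S : Finset ι)
    (h : ∀ i ∈ S, Flat G A (θ i)) : Flat G A fun u w => ∏ i ∈ S, θ i u w := by
  intro u hu v hv w hw h3 h4 h5
  show (∏ i ∈ S, θ i u v) * (∏ i ∈ S, θ i v w) = ∏ i ∈ S, θ i u w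
  rw [← Finset.prod_mul_distrib]
  exact Finset.prod_congr rfl fun i hi => h i hi u hu v hv w hw h3 h4 h5

theorem Pot.flat {lab : V → V → L} (h : Pot G A lab) : Flat G A lab := by
  obtain ⟨p, hp⟩ := h
  intro u hu v hv w hw h3 h4 h5
  rw [hp u hu v hv h3, hp v hv w hw h4, hp u hu w hw h5]
  group

theorem Pot.mono {lab : V → V → L} (h : Pot G A lab) {X : Set V} (hX : X ⊆ A) : Pot G X lab := by
  obtain ⟨p, hp⟩ := h
  exact ⟨p, fun u hu w hw huw => hp u (hX hu) w (hX hw) huw⟩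

theorem Pot.pull {lab : V → V → L} (h : Pot G A lab) {f : V' → V} (hf : IsHom G' A' G A f) :
    Pot G' A' (pull f lab) := by
  obtain ⟨p, hp⟩ := h
  exact ⟨fun u => p (f u), fun u hu w hw huw =>
    hp _ (hf.1 u hu) _ (hf.1 w hw) (hf.adq hu hw huw)⟩

theorem Pot.congr {l1 l2 : V → V → L} (h : Pot G A l1)
    (he : ∀ u ∈ A, ∀ w ∈ A, Adq G u w → l2 u w = l1 u w) : Pot G A l2 := by
  obtain ⟨p, hp⟩ := h
  exact ⟨p, fun u hu w hw huw => (he u hu w hw huw).trans (hp u hu w hw huw)⟩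

theorem Pot.mul {C : Type} [CommGroup C] {l1 l2 : V → V → C} (h1 : Pot G A l1) (h2 : Pot G A l2) :
    Pot G A fun u w => l1 u w * l2 u w := by
  obtain ⟨p, hp⟩ := h1
  obtain ⟨q, hq⟩ := h2
  refine ⟨fun u => p u * q u, fun u hu w hw huw => ?_⟩
  show l1 u w * l2 u w = p u * q u * (p w * q w)⁻¹
  rw [hp u hu w hw huw, hq u hu w hw huw, mul_inv, mul_mul_mul_comm]

theorem pot_of_cmp {lab : V → V → L} (h : ∀ a ∈ A, Pot G (cmp G A a) lab) : Pot G A lab := by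
  have key : ∀ C : Set V, ∃ q : V → L, Pot G C lab →
      ∀ u ∈ C, ∀ w ∈ C, Adq G u w → lab u w = q u * (q w)⁻¹ := by
    intro C
    by_cases hC : Pot G C lab
    · obtain ⟨p, hp⟩ := hC
      exact ⟨p, fun _ => hp⟩
    · exact ⟨fun _ => 1, fun h' => absurd h' hC⟩
  choose q hq using key
  refine ⟨fun u => q (cmp G A u) u, fun u hu w hw huw => ?_⟩
  have hw' : w ∈ cmp G A u := ⟨hw, Reach.single hu hw huw⟩
  show lab u w = q (cmp G A u) u * (q (cmp G A w) w)⁻¹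
  rw [cmp_eq_of_mem hw']
  exact hq _ (h u hu) u (mem_cmp_self hu) w hw' huw

theorem triv_of_cmp (h : ∀ a ∈ A, Triv L G (cmp G A a)) : Triv L G A := by
  exact fun lab hl => pot_of_cmp fun a ha => h a ha lab (hl.mono (cmp_subset a))

theorem Triv.clopen (h : Triv L G A) {X : Set V} (hX : Clopen G A X) : Triv L G X := by
  intro lab hl
  obtain ⟨lab', hf, he⟩ := clopen_ext_B3 hX hl
  exact ((h lab' hf).mono hX.1).congr fun u hu w _ _ => (he u hu w).symm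

theorem SCo.clopen (h : SCo G A) {X : Set V} (hX : Clopen G A X) : SCo G X := by
  exact fun L _ => (h L).clopen hX

theorem sco_of_cmp (h : ∀ a ∈ A, SCo G (cmp G A a)) : SCo G A := by
  exact fun L _ => triv_of_cmp fun a ha => h a ha L

theorem SCo.ndc (h : SCo G A) : NDC G A := by
  exact h Z2

/-- Two potentials on a connected set differ by a constant. -/
theorem pot_unique (hp : Pre G A) {p q : V → L}
    (h : ∀ u ∈ A, ∀ w ∈ A, G.Adj u w → p u * (p w)⁻¹ = q u * (q w)⁻¹) {a b : V} (ha : a ∈ A)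
    (hb : b ∈ A) : (p a)⁻¹ * q a = (p b)⁻¹ * q b := by
  refine hp.const (φ := fun u => (p u)⁻¹ * q u) (fun u hu w hw huw => ?_) ha hb
  have e : q u = p u * (p w)⁻¹ * q w := by rw [h u hu w hw huw]; group
  show (p u)⁻¹ * q u = (p w)⁻¹ * q w
  rw [e]
  group

theorem gau_of_ctg {lab : V → V → L} (hl : Flat G A lab) {f g : V' → V} (hf : IsHom G' A' G A f)
    (hg : IsHom G' A' G A g) (h : Ctg G' A' G f g) :
    Gau G' A' (pull f lab) (pull g lab) fun u => lab (f u) (g u) := by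
  intro u hu w hw huw
  show lab (f u) (f w) = lab (f u) (g u) * lab (g u) (g w) * (lab (f w) (g w))⁻¹
  have fu := hf.1 u hu
  have fw := hf.1 w hw
  have gu := hg.1 u hu
  have gw := hg.1 w hw
  have ff := hf.adq hu hw huw
  have gg := hg.adq hu hw huw
  rcases huw with rfl | huw
  · rw [hl.self fu, hl.self gu]
    group
  · rcases h.2 u hu w hw huw with h3 | h3
    · rw [hl _ fu _ gu _ gw (h.1 u hu) gg h3, ← hl _ fu _ fw _ gw ff (h.1 w hw) h3]
      group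
    · rw [← hl _ gu _ fw _ gw h3 (h.1 w hw) gg, ← hl _ fu _ gu _ fw (h.1 u hu) h3 ff]
      group

theorem ctg_of_sc {f g : V' → V} (h : SC G' A' G f g) : Ctg G' A' G f g := by
  exact ⟨fun u hu => h u hu u hu (Or.inl rfl),
    fun u hu w hw huw => Or.inl (h u hu w hw (Or.inr huw))⟩

theorem cone_sco {a : V} (ha : a ∈ A) (h : ∀ x ∈ A, Adq G a x) : Con G A ∧ SCo G A := by
  refine ⟨⟨⟨a, ha⟩, pre_of_base fun x hx => Reach.single hx ha (h x hx).symm⟩, ?_⟩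
  intro L _ lab hl
  refine ⟨fun u => lab u a, fun u hu w hw huw => ?_⟩
  show lab u w = lab u a * (lab w a)⁻¹
  rw [← hl u hu w hw a ha huw (h w hw).symm (h u hu).symm]
  group

theorem sco_of_no_adj (h : ∀ a ∈ A, ∀ b ∈ A, ¬ G.Adj a b) : SCo G A := by
  intro L _ lab hl
  refine ⟨fun _ => 1, fun u hu w hw huw => ?_⟩
  rcases huw with rfl | huw
  · rw [hl.self hu]
    simp
  · exact absurd huw (h u hu w hw)

/-- Gluing two labels that are gauge equivalent on the intersection. -/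
theorem glue_lab {X1 X2 : Set V} (hc : Cov2 G A X1 X2) {l1 l2 : V → V → L} {k : V → L}
    (h1 : Flat G X1 l1) (h2 : Flat G X2 l2) (hk : Gau G (X1 ∩ X2) l1 l2 k) :
    ∃ lab k', Flat G A lab ∧ (∀ u ∈ X1, ∀ w ∈ X1, Adq G u w → lab u w = l1 u w) ∧
      Gau G X2 lab l2 k' ∧ ∀ u ∈ X1 ∩ X2, k' u = k u := by
  obtain ⟨k', hk'⟩ : ∃ k' : V → L, ∀ u ∈ X1 ∩ X2, k' u = k u := ⟨k, fun _ _ => rfl⟩
  obtain ⟨lab, e1, e2⟩ : ∃ lab : V → V → L, (∀ u ∈ X1, ∀ w ∈ X1, lab u w = l1 u w) ∧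
      ∀ u w, ¬ (u ∈ X1 ∧ w ∈ X1) → lab u w = k' u * l2 u w * (k' w)⁻¹ :=
    ⟨fun u w => if u ∈ X1 ∧ w ∈ X1 then l1 u w else k' u * l2 u w * (k' w)⁻¹,
      fun u hu w hw => if_pos ⟨hu, hw⟩, fun u w huw => if_neg huw⟩
  have hg : Gau G X2 lab l2 k' := by
    intro u hu w hw huw
    by_cases h3 : u ∈ X1 ∧ w ∈ X1
    · rw [e1 u h3.1 w h3.2, hk' u ⟨h3.1, hu⟩, hk' w ⟨h3.2, hw⟩]
      exact hk u ⟨h3.1, hu⟩ w ⟨h3.2, hw⟩ huw
    · exact e2 u w h3
  refine ⟨lab, k', ?_, fun u hu w hw _ => e1 u hu w hw, hg, hk'⟩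
  intro u hu v hv w hw h3 h4 h5
  rcases hc.2.2 u hu v hv w hw h3 h4 h5 with ⟨a, b, c⟩ | ⟨a, b, c⟩
  · rw [e1 u a v b, e1 v b w c, e1 u a w c]
    exact h1 u a v b w c h3 h4 h5
  · exact hg.flat h2 u a v b w c h3 h4 h5

theorem glue_pot {X1 X2 : Set V} (hc : Cov2 G A X1 X2) {lab : V → V → L} (h1 : Pot G X1 lab)
    (h2 : Pot G X2 lab) (hp : Pre G (X1 ∩ X2)) : Pot G A lab := by
  obtain ⟨p, e1⟩ := h1
  obtain ⟨q, e2⟩ := h2
  obtain ⟨c, hc'⟩ : ∃ c : L, ∀ u ∈ X1 ∩ X2, (p u)⁻¹ * q u = c := by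
    rcases (X1 ∩ X2).eq_empty_or_nonempty with h0 | ⟨a, ha⟩
    · exact ⟨1, fun u hu => by rw [h0] at hu; exact hu.elim⟩
    · exact ⟨(p a)⁻¹ * q a, fun u hu => pot_unique hp (fun x hx y hy hxy =>
        (e1 x hx.1 y hy.1 (Or.inr hxy)).symm.trans (e2 x hx.2 y hy.2 (Or.inr hxy))) hu ha⟩
  obtain ⟨r, r1, r2⟩ : ∃ r : V → L, (∀ u ∈ X1, r u = p u * c) ∧ ∀ u ∈ X2, r u = q u := by
    refine ⟨fun u => if u ∈ X1 then p u * c else q u, fun u hu => if_pos hu, fun u hu => ?_⟩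
    by_cases h3 : u ∈ X1
    · show (if u ∈ X1 then p u * c else q u) = q u
      rw [if_pos h3, ← hc' u ⟨h3, hu⟩]
      group
    · exact if_neg h3
  refine ⟨r, fun u hu w hw huw => ?_⟩
  rcases hc.2.2 u hu w hw w hw huw (Or.inl rfl) huw with ⟨a, b, _⟩ | ⟨a, b, _⟩
  · rw [r1 u a, r1 w b, e1 u a w b huw]
    group
  · rw [r2 u a, r2 w b, e2 u a w b huw]

theorem glue_triv {X1 X2 : Set V} (hc : Cov2 G A X1 X2) (h1 : Triv L G X1) (h2 : Triv L G X2)
    (hp : Pre G (X1 ∩ X2)) : Triv L G A := by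
  exact fun lab hl => glue_pot hc (h1 lab (hl.mono hc.1)) (h2 lab (hl.mono hc.2.1)) hp

theorem glue_ext {X1 X2 : Set V} (hc : Cov2 G A X1 X2) {l1 : V → V → L} (h1 : Flat G X1 l1)
    (hp : Pot G (X1 ∩ X2) l1) :
    ∃ lab, Flat G A lab ∧ (∀ u ∈ X1, ∀ w ∈ X1, Adq G u w → lab u w = l1 u w) ∧ Pot G X2 lab := by
  obtain ⟨p, hp⟩ := hp
  have hk : Gau G (X1 ∩ X2) l1 (fun _ _ => 1) p := fun u hu w hw huw => by
    rw [hp u hu w hw huw, mul_one]
  obtain ⟨lab, k', hf, he, hg, _⟩ := glue_lab hc h1 flat_one hk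
  exact ⟨lab, hf, he, k', fun u hu w hw huw => by rw [hg u hu w hw huw, mul_one]⟩

theorem triv_of_cov2 {X1 X2 : Set V} (hc : Cov2 G A X1 X2) (h : Triv L G A)
    (h12 : Triv L G (X1 ∩ X2)) : Triv L G X1 := by
  intro l1 h1
  obtain ⟨lab, hf, he, _⟩ := glue_ext hc h1 (h12 l1 (h1.mono Set.inter_subset_left))
  exact ((h lab hf).mono hc.1).congr fun u hu w hw huw => (he u hu w hw huw).symm

theorem inter_pre {X1 X2 : Set V} (hc : Cov2 G A X1 X2) (h : NDC G A) (h1 : Pre G X1)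
    (h2 : Pre G X2) : Pre G (X1 ∩ X2) := by
  refine pre_of_const fun P hP a ha b hb => ?_
  have hk : Gau G (X1 ∩ X2) (fun _ _ => (1 : Z2)) (fun _ _ => 1) fun u => sg_B3 (P u) := by
    intro u hu w hw huw
    have e : sg_B3 (P u) = sg_B3 (P w) := by
      rcases huw with rfl | huw
      · rfl
      · exact sg_eq_B3.2 (hP u hu w hw huw)
    show (1 : Z2) = sg_B3 (P u) * 1 * (sg_B3 (P w))⁻¹
    rw [e]
    group
  obtain ⟨lab, k', hf, he, hg, hk'⟩ := glue_lab hc flat_one flat_one hk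
  obtain ⟨p, hp⟩ := h lab hf
  have e1 : p a = p b := h1.const (fun u hu w hw huw => by
    have e := hp u (hc.1 hu) w (hc.1 hw) (Or.inr huw)
    rw [he u hu w hw (Or.inr huw)] at e
    exact mul_inv_eq_one.1 e.symm) ha.1 hb.1
  have e2 : (p a)⁻¹ * k' a = (p b)⁻¹ * k' b := pot_unique h2 (fun u hu w hw huw => by
    rw [← hp u (hc.2.1 hu) w (hc.2.1 hw) (Or.inr huw), hg u hu w hw (Or.inr huw), mul_one])
    ha.2 hb.2
  rw [e1, hk' a ha, hk' b hb] at e2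
  exact sg_eq_B3.1 (mul_left_cancel e2)

theorem fr_pre {Q : Set V} (h : NDC G A) (h1 : Pre G (A ∩ Q)) (h2 : Pre G (A \ Q)) :
    Pre (sG V) (fr G A Q) := by
  refine pre_of_const fun P hP a ha b hb => ?_
  have hsub : ∀ s ∈ fr G A Q, ∀ t ∈ fr G A Q, s ⊆ t → (P s ↔ P t) := by
    intro s hs t ht hst
    rcases eq_or_ne s t with rfl | hne
    · exact Iff.rfl
    · exact hP s hs t ht (Or.inl (Finset.ssubset_iff_subset_ne.2 ⟨hst, hne⟩))
  obtain ⟨θ, t1, t2⟩ : ∃ θ : V → V → Z2, (∀ u w, (u ∈ Q ↔ w ∈ Q) → θ u w = 1) ∧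
      ∀ u w, ¬ (u ∈ Q ↔ w ∈ Q) → θ u w = sg_B3 (P {u, w}) :=
    ⟨fun u w => if (u ∈ Q ↔ w ∈ Q) then 1 else sg_B3 (P {u, w}),
      fun u w e => if_pos e, fun u w e => if_neg e⟩
  have t3 : ∀ t ∈ sA G A, ∀ u ∈ t, ∀ w ∈ t, ¬ (u ∈ Q ↔ w ∈ Q) → θ u w = sg_B3 (P t) := by
    intro t ht u hu w hw e
    have hs : ({u, w} : Finset V) ⊆ t := by
      intro x hx
      rcases Finset.mem_insert.1 hx with rfl | hx
      · exact hu
      · rw [Finset.mem_singleton.1 hx]; exact hw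
    have hs' : (({u, w} : Finset V) : Set V) ⊆ ↑t := Finset.coe_subset.2 hs
    rw [t2 u w e]
    exact sg_eq_B3.2 (hsub _ (mem_fr_B3 ⟨⟨u, by simp⟩, hs'.trans ht.2.1, ht.2.2.subset hs'⟩
      (by simp) (by simp) e) _ (mem_fr_B3 ht hu hw e) hs)
  have hf : Flat G A θ := by
    intro u hu v hv w hw h3 h4 h5
    have ht := tri_mem_B3 hu hv hw h3 h4 h5
    have a1 := t3 _ ht u (by simp) v (by simp)
    have a2 := t3 _ ht v (by simp) w (by simp)
    have a3 := t3 _ ht u (by simp) w (by simp)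
    by_cases c1 : (u ∈ Q ↔ v ∈ Q) <;> by_cases c2 : (v ∈ Q ↔ w ∈ Q)
    · rw [t1 u v c1, t1 v w c2, t1 u w (c1.trans c2), mul_one]
    · rw [t1 u v c1, a2 c2, a3 fun e => c2 (c1.symm.trans e), one_mul]
    · rw [t1 v w c2, a1 c1, a3 fun e => c1 (e.trans c2.symm), mul_one]
    · rw [a1 c1, a2 c2, t1 u w (by tauto), z2_sq_B3]
  obtain ⟨p, hp⟩ := h θ hf
  have c1 : ∀ x ∈ A ∩ Q, ∀ y ∈ A ∩ Q, p x = p y := fun x hx y hy =>
    h1.const (fun u hu w hw huw => by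
      have e := hp u hu.1 w hw.1 (Or.inr huw)
      rw [t1 u w (iff_of_true hu.2 hw.2)] at e
      exact mul_inv_eq_one.1 e.symm) hx hy
  have c2 : ∀ x ∈ A \ Q, ∀ y ∈ A \ Q, p x = p y := fun x hx y hy =>
    h2.const (fun u hu w hw huw => by
      have e := hp u hu.1 w hw.1 (Or.inr huw)
      rw [t1 u w (iff_of_false hu.2 hw.2)] at e
      exact mul_inv_eq_one.1 e.symm) hx hy
  have c3 : ∀ s ∈ fr G A Q, ∃ x ∈ A ∩ Q, ∃ y ∈ A \ Q, sg_B3 (P s) = p x * (p y)⁻¹ := by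
    rintro s ⟨hs, ⟨x, hx, hxQ⟩, hn⟩
    obtain ⟨y, hy, hyQ⟩ := Set.not_subset.1 hn
    have hxy : x ≠ y := fun e => hyQ (e ▸ hxQ)
    refine ⟨x, ⟨hs.2.1 hx, hxQ⟩, y, ⟨hs.2.1 hy, hyQ⟩, ?_⟩
    rw [← t3 s hs x hx y hy fun e => hyQ (e.1 hxQ)]
    exact hp x (hs.2.1 hx) y (hs.2.1 hy) (Or.inr (hs.2.2 hx hy hxy))
  obtain ⟨x, hx, y, hy, e⟩ := c3 a ha
  obtain ⟨x', hx', y', hy', e'⟩ := c3 b hb
  exact sg_eq_B3.1 (by rw [e, e', c1 x hx x' hx', c2 y hy y' hy'])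

theorem z2_cases (x : Z2) : x = 1 ∨ x = neg := by
  exact z2_or_B3 x

theorem neg_ne_one : neg ≠ 1 := by
  exact neg_ne_B3

theorem z2_mul_self (x : Z2) : x * x = 1 := by
  exact z2_sq_B3 x

theorem z2_inv (x : Z2) : x⁻¹ = x := by
  exact inv_eq_of_mul_eq_one_right (z2_sq_B3 x)

theorem pot_iff_cob {δ : V → V → Z2} : Pot G A δ ↔ ∃ S, IsCob G A δ S := by
  constructor
  · rintro ⟨p, hp⟩
    refine ⟨{u | p u = 1}, fun u hu w hw huw => ?_⟩
    rw [hp u hu w hw huw, mul_inv_eq_one]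
    show p u = p w ↔ (p u = 1 ↔ p w = 1)
    exact z2_eq_iff_B3 _ _
  · rintro ⟨S, hS⟩
    refine ⟨fun u => sg_B3 (u ∈ S), fun u hu w hw huw => ?_⟩
    show δ u w = sg_B3 (u ∈ S) * (sg_B3 (w ∈ S))⁻¹
    rw [z2_eq_iff_B3, mul_inv_eq_one, sg_eq_B3]
    exact hS u hu w hw huw

theorem rk_zero : Rk G A 0 ↔ NDC G A := by
  constructor
  · intro h lab hl
    obtain ⟨S, ⟨i, hi⟩, hp⟩ := h (fun _ => lab) fun _ => hl
    have e : S = {i} := Finset.eq_singleton_iff_unique_mem.2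
      ⟨hi, fun j _ => Fin.ext (by have := i.2; have := j.2; omega)⟩
    exact hp.congr fun u _ w _ _ => by rw [e, Finset.prod_singleton]
  · intro h θ hθ
    exact ⟨{0}, Finset.singleton_nonempty _, h _ (flat_prod _ fun i _ => hθ i)⟩

theorem Rk.mono {n m : ℕ} (h : Rk G A n) (hnm : n ≤ m) : Rk G A m := by
  intro θ hθ
  have hle : n + 1 ≤ m + 1 := Nat.succ_le_succ hnm
  obtain ⟨S, hS, hp⟩ := h (fun i => θ (Fin.castLE hle i)) fun i => hθ _
  refine ⟨S.map (Fin.castLEEmb hle), hS.map, hp.congr fun u _ w _ _ => ?_⟩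
  rw [Finset.prod_map]
  rfl

theorem Rk.clopen {n : ℕ} (h : Rk G A n) {X : Set V} (hX : Clopen G A X) : Rk G X n := by
  intro θ hθ
  choose θ' hf he using fun i => clopen_ext_B3 hX (hθ i)
  obtain ⟨S, hS, hp⟩ := h θ' hf
  exact ⟨S, hS, (hp.mono hX.1).congr fun u hu w _ _ =>
    Finset.prod_congr rfl fun i _ => (he i u hu w).symm⟩

theorem exists_rk (hf : A.Finite) : ∃ n, Rk G A n := by
  have : Finite A := hf.to_subtype
  have : Fintype (A → A → Z2) := Fintype.ofFinite _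
  refine ⟨Fintype.card (A → A → Z2), fun θ _ => ?_⟩
  obtain ⟨i, j, hij, e⟩ := Fintype.exists_ne_map_eq_of_card_lt
    (fun (i : Fin (Fintype.card (A → A → Z2) + 1)) (u w : A) => θ i u w) (by simp)
  refine ⟨{i, j}, Finset.insert_nonempty _ _, fun _ => 1, fun u hu w hw _ => ?_⟩
  have e' : θ i u w = θ j u w := congrFun (congrFun e ⟨u, hu⟩) ⟨w, hw⟩
  show ∏ x ∈ ({i, j} : Finset _), θ x u w = 1 * 1⁻¹
  rw [Finset.prod_pair hij, e', z2_sq_B3, inv_one, mul_one]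

theorem Extl.null {Y : Set V} (h : Extl G Y A) {a : V} {l : List V} (hw : Wk G Y a l a)
    (hn : Null G A a l) : Null G Y a l := by
  intro L _ lab hl
  obtain ⟨lab', hf, he⟩ := h.2 L lab hl
  rw [← hn L lab' hf]
  exact ev_congr (fun u hu w hw huw => (he u hu w hw huw).symm) hw

end Pool.Agent.MP_6374aa_g

end

section

/-! The subdivision: simplices, neighbourhoods, frontiers. -/

namespace Pool.Agent.MP_6374aa_g

open Pool.Agent.MP_6374aa_gt Classical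

variable {V V' V'' : Type} {G : SimpleGraph V} {G' : SimpleGraph V'} {G'' : SimpleGraph V''}
  {A : Set V} {A' : Set V'} {A'' : Set V''} {L : Type} [Group L]

theorem adq_sG {s t : Finset V} : Adq (sG V) s t ↔ s ⊆ t ∨ t ⊆ s := by
  constructor
  · rintro (rfl | h | h)
    · exact Or.inl (Finset.Subset.refl _)
    · exact Or.inl h.subset
    · exact Or.inr h.subset
  · intro h
    by_cases e : s = t
    · exact Or.inl e
    · rcases h with h | h
      · exact Or.inr (Or.inl (Finset.ssubset_iff_subset_ne.2 ⟨h, e⟩))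
      · exact Or.inr (Or.inr (Finset.ssubset_iff_subset_ne.2 ⟨h, Ne.symm e⟩))

theorem clique_iff_B4 {s : Finset V} :
    G.IsClique (s : Set V) ↔ ∀ u ∈ s, ∀ w ∈ s, Adq G u w := by
  constructor
  · intro h u hu w hw
    by_cases e : u = w
    · exact Or.inl e
    · exact Or.inr (h (Finset.mem_coe.2 hu) (Finset.mem_coe.2 hw) e)
  · intro h u hu w hw e
    exact (h u (Finset.mem_coe.1 hu) w (Finset.mem_coe.1 hw)).resolve_left e

theorem mem_sA {s : Finset V} :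
    s ∈ sA G A ↔ s.Nonempty ∧ ↑s ⊆ A ∧ ∀ u ∈ s, ∀ w ∈ s, Adq G u w := by
  rw [← clique_iff_B4]
  rfl

theorem clq_iff {s : Finset V} : Clq G A s ↔ ↑s ⊆ A ∧ ∀ u ∈ s, ∀ w ∈ s, Adq G u w := by
  rw [← clique_iff_B4]
  rfl

theorem mem_sA_iff_clq {s : Finset V} : s ∈ sA G A ↔ s.Nonempty ∧ Clq G A s := Iff.rfl

theorem Clq.subset {s t : Finset V} (h : Clq G A t) (hs : s ⊆ t) : Clq G A s :=
  ⟨(Finset.coe_subset.2 hs).trans h.1, h.2.subset (Finset.coe_subset.2 hs)⟩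

theorem sA_down {s t : Finset V} (h : t ∈ sA G A) (hs : s ⊆ t) (hn : s.Nonempty) : s ∈ sA G A :=
  ⟨hn, Clq.subset h.2 hs⟩

theorem singleton_mem_sA {a : V} : {a} ∈ sA G A ↔ a ∈ A := by
  rw [mem_sA]
  constructor
  · rintro ⟨-, h, -⟩
    exact h (by simp)
  · intro h
    refine ⟨Finset.singleton_nonempty a, by simpa using h, fun u hu w hw => ?_⟩
    rw [Finset.mem_singleton] at hu hw
    exact Or.inl (hu.trans hw.symm)

theorem pair_mem_sA {a b : V} (ha : a ∈ A) (hb : b ∈ A) (h : Adq G a b) : {a, b} ∈ sA G A := by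
  rw [mem_sA]
  refine ⟨Finset.insert_nonempty _ _, ?_, fun u hu w hw => ?_⟩
  · intro x hx
    simp only [Finset.coe_insert, Finset.coe_singleton, Set.mem_insert_iff,
      Set.mem_singleton_iff] at hx
    rcases hx with rfl | rfl
    exacts [ha, hb]
  · simp only [Finset.mem_insert, Finset.mem_singleton] at hu hw
    rcases hu with rfl | rfl <;> rcases hw with rfl | rfl
    exacts [Or.inl rfl, h, h.symm, Or.inl rfl]

theorem sA_mono {X : Set V} (h : X ⊆ A) : sA G X ⊆ sA G A :=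
  fun _ hs => ⟨hs.1, hs.2.1.trans h, hs.2.2⟩

theorem sA_inter (X : Set V) : sA G (A ∩ X) = sA G A ∩ ins X := by
  ext s
  constructor
  · intro h
    exact ⟨sA_mono Set.inter_subset_left h, h.2.1.trans Set.inter_subset_right⟩
  · rintro ⟨h, h'⟩
    exact ⟨h.1, Set.subset_inter h.2.1 h', h.2.2⟩

theorem sA_inter' (X : Set V) : sA G (A ∩ X) = sA G A ∩ sA G X := by
  ext s
  constructor
  · intro h
    exact ⟨sA_mono Set.inter_subset_left h, sA_mono Set.inter_subset_right h⟩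
  · rintro ⟨h, h'⟩
    exact ⟨h.1, Set.subset_inter h.2.1 h'.2.1, h.2.2⟩

theorem sA_finite (h : A.Finite) : (sA G A).Finite := by
  refine (h.toFinset.powerset.finite_toSet).subset fun s hs => ?_
  rw [Finset.mem_coe, Finset.mem_powerset]
  intro x hx
  exact h.mem_toFinset.2 (hs.2.1 (Finset.mem_coe.2 hx))

theorem sA_union {X Y : Set V} (h : NE G X Y) : sA G (X ∪ Y) = sA G X ∪ sA G Y := by
  ext s
  constructor
  · intro hs
    by_cases hX : (↑s : Set V) ⊆ X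
    · exact Or.inl ⟨hs.1, hX, hs.2.2⟩
    by_cases hY : (↑s : Set V) ⊆ Y
    · exact Or.inr ⟨hs.1, hY, hs.2.2⟩
    obtain ⟨b, hb, hbX⟩ := Set.not_subset.1 hX
    obtain ⟨a, ha, haY⟩ := Set.not_subset.1 hY
    have ha' : a ∈ X := (hs.2.1 ha).resolve_right haY
    have hb' : b ∈ Y := (hs.2.1 hb).resolve_left hbX
    exact absurd (hs.2.2 ha hb fun e => hbX (e ▸ ha')) (h a ⟨ha', haY⟩ b ⟨hb', hbX⟩)
  · rintro (hs | hs)
    · exact sA_mono Set.subset_union_left hs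
    · exact sA_mono Set.subset_union_right hs

theorem ne_sA (X Y : Set V) : NE (sG V) (sA G X) (sA G Y) := by
  rintro a ⟨ha, ha'⟩ b ⟨hb, hb'⟩ (h | h)
  · exact ha' (sA_down hb h.subset ha.1)
  · exact hb' (sA_down ha h.subset hb.1)

theorem sU_down_B4 {X Y : Set V} {s t : Finset V} (h : t ∈ sU G X Y) (hs : s ⊆ t)
    (hn : s.Nonempty) : s ∈ sU G X Y :=
  h.elim (fun h => Or.inl (sA_down h hs hn)) fun h => Or.inr (sA_down h hs hn)

theorem ne_sU (X Y X' Y' : Set V) : NE (sG V) (sU G X Y) (sU G X' Y') := by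
  rintro a ⟨ha, ha'⟩ b ⟨hb, hb'⟩ (h | h)
  · exact ha' (sU_down_B4 hb h.subset (ha.elim (·.1) (·.1)))
  · exact hb' (sU_down_B4 ha h.subset (hb.elim (·.1) (·.1)))

theorem far_sA {X Y : Set V} (h : Disjoint X Y) : Far (sG V) (sA G X) (sA G Y) := by
  intro a ha b hb hab
  rcases adq_sG.1 hab with e | e
  · obtain ⟨x, hx⟩ := ha.1
    exact Set.disjoint_left.1 h (ha.2.1 (Finset.mem_coe.2 hx)) (hb.2.1 (Finset.mem_coe.2 (e hx)))
  · obtain ⟨x, hx⟩ := hb.1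
    exact Set.disjoint_left.1 h (ha.2.1 (Finset.mem_coe.2 (e hx))) (hb.2.1 (Finset.mem_coe.2 hx))

theorem far_nb {X Y : Set V} (h : Far G X Y) : Far (sG V) (nb G A X) (nb G A Y) := by
  rintro a ⟨ha, x, hx, hxX⟩ b ⟨hb, y, hy, hyY⟩ hab
  rcases adq_sG.1 hab with e | e
  · exact h x hxX y hyY ((mem_sA.1 hb).2.2 x (e hx) y hy)
  · exact h x hxX y hyY ((mem_sA.1 ha).2.2 x hx y (e hy))

theorem cov_aux_B4 (Q : Set V) {m u v w : Finset V} (hm : m ∈ sA G A) (hu : u ∈ sA G A)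
    (hv : v ∈ sA G A) (hw : w ∈ sA G A) (h1 : m ⊆ u) (h2 : m ⊆ v) (h3 : m ⊆ w) :
    (u ∈ nb G A Q ∧ v ∈ nb G A Q ∧ w ∈ nb G A Q) ∨
      (u ∈ nb G A (A \ Q) ∧ v ∈ nb G A (A \ Q) ∧ w ∈ nb G A (A \ Q)) := by
  obtain ⟨x, hx⟩ := hm.1
  by_cases hQ : x ∈ Q
  · exact Or.inl ⟨⟨hu, x, h1 hx, hQ⟩, ⟨hv, x, h2 hx, hQ⟩, ⟨hw, x, h3 hx, hQ⟩⟩
  · have hA : x ∈ A \ Q := ⟨hm.2.1 (Finset.mem_coe.2 hx), hQ⟩
    exact Or.inr ⟨⟨hu, x, h1 hx, hA⟩, ⟨hv, x, h2 hx, hA⟩, ⟨hw, x, h3 hx, hA⟩⟩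

theorem cov2_nb (Q : Set V) : Cov2 (sG V) (sA G A) (nb G A Q) (nb G A (A \ Q)) := by
  refine ⟨fun _ h => h.1, fun _ h => h.1, fun u hu v hv w hw h1 h2 h3 => ?_⟩
  have r := @Finset.Subset.refl V
  rcases adq_sG.1 h1 with a | a <;> rcases adq_sG.1 h2 with b | b <;>
    rcases adq_sG.1 h3 with c | c
  · exact cov_aux_B4 Q hu hu hv hw (r _) a c
  · exact cov_aux_B4 Q hu hu hv hw (r _) a (a.trans b)
  · exact cov_aux_B4 Q hu hu hv hw (r _) a c
  · exact cov_aux_B4 Q hw hu hv hw c b (r _)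
  · exact cov_aux_B4 Q hv hu hv hw a (r _) b
  · exact cov_aux_B4 Q hv hu hv hw a (r _) b
  · exact cov_aux_B4 Q hw hu hv hw (b.trans a) b (r _)
  · exact cov_aux_B4 Q hw hu hv hw c b (r _)

theorem nb_inter_nb (Q : Set V) : nb G A Q ∩ nb G A (A \ Q) = fr G A Q := by
  ext s
  constructor
  · rintro ⟨⟨hs, h1⟩, -, x, hx, hxQ⟩
    exact ⟨hs, h1, fun h => hxQ.2 (h (Finset.mem_coe.2 hx))⟩
  · rintro ⟨hs, h1, h2⟩
    obtain ⟨x, hx, hxQ⟩ := Set.not_subset.1 h2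
    exact ⟨⟨hs, h1⟩, hs, x, Finset.mem_coe.1 hx, hs.2.1 hx, hxQ⟩

theorem fr_compl (Q : Set V) : fr G A (A \ Q) = fr G A Q := by
  ext s
  constructor
  · rintro ⟨hs, ⟨x, hx, hxQ⟩, h2⟩
    obtain ⟨y, hy, hyQ⟩ := Set.not_subset.1 h2
    refine ⟨hs, ⟨y, Finset.mem_coe.1 hy, ?_⟩, fun h => hxQ.2 (h (Finset.mem_coe.2 hx))⟩
    by_contra hn
    exact hyQ ⟨hs.2.1 hy, hn⟩
  · rintro ⟨hs, ⟨x, hx, hxQ⟩, h2⟩
    obtain ⟨y, hy, hyQ⟩ := Set.not_subset.1 h2
    exact ⟨hs, ⟨y, Finset.mem_coe.1 hy, hs.2.1 hy, hyQ⟩,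
      fun h => (h (Finset.mem_coe.2 hx)).2 hxQ⟩

theorem subset_top {σ : Finset (Finset V)} {s : Finset V} (h : s ∈ σ) : s ⊆ top σ :=
  Finset.le_sup (f := id) h

theorem top_mem {P : Set (Finset V)} {σ : Finset (Finset V)} (h : σ ∈ sA (sG V) P) : top σ ∈ σ := by
  obtain ⟨hn, -, hc⟩ := mem_sA.1 h
  obtain ⟨s, hs, hm⟩ := σ.exists_max_image Finset.card hn
  have e : top σ = s := by
    refine Finset.Subset.antisymm ?_ (subset_top hs)
    refine Finset.sup_le (f := id) fun t ht => ?_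
    rcases adq_sG.1 (hc t ht s hs) with a | a
    · exact a
    · exact (Finset.eq_of_subset_of_card_le a (hm t ht)).symm.subset
  rw [e]
  exact hs

theorem top_insert (s : Finset V) (σ : Finset (Finset V)) : top (insert s σ) = s ∪ top σ := by
  unfold top
  rw [Finset.sup_insert]
  rfl

theorem top_subset_iff {σ : Finset (Finset V)} {T : Set V} : ↑(top σ) ⊆ T ↔ ↑σ ⊆ ins T := by
  constructor
  · intro h s hs
    exact (Finset.coe_subset.2 (subset_top (Finset.mem_coe.1 hs))).trans h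
  · intro h x hx
    obtain ⟨s, hs, hxs⟩ := Finset.mem_sup.1 (Finset.mem_coe.1 hx)
    exact h (Finset.mem_coe.2 hs) (Finset.mem_coe.2 hxs)

theorem exists_bot {P : Set (Finset V)} {σ : Finset (Finset V)} (h : σ ∈ sA (sG V) P) :
    ∃ s ∈ σ, ∀ t ∈ σ, s ⊆ t := by
  obtain ⟨hn, -, hc⟩ := mem_sA.1 h
  obtain ⟨s, hs, hm⟩ := σ.exists_min_image Finset.card hn
  refine ⟨s, hs, fun t ht => ?_⟩
  rcases adq_sG.1 (hc s hs t ht) with a | a
  · exact a
  · exact (Finset.eq_of_subset_of_card_le a (hm t ht)).symm.subset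

theorem pk_mem [Nonempty V] (B : Set V) {s : Finset V} (h : s.Nonempty) : pk B s ∈ s := by
  unfold pk
  split_ifs with hm
  · exact hm.choose_spec.1
  · exact Classical.epsilon_spec (p := fun v => v ∈ s) h

theorem pk_mem_B [Nonempty V] {B : Set V} {s : Finset V} (h : Meets s B) : pk B s ∈ B := by
  unfold pk
  rw [dif_pos h]
  exact h.choose_spec.2

theorem pk_singleton [Nonempty V] (B : Set V) (a : V) : pk B {a} = a :=
  Finset.mem_singleton.1 (pk_mem B (Finset.singleton_nonempty a))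

theorem isHom_pick {π : Finset V → V} {P : Set (Finset V)} {X : Set V} (hP : P ⊆ sA G A)
    (hπ : ∀ s ∈ P, π s ∈ s ∧ π s ∈ X) : IsHom (sG V) P G X π := by
  refine ⟨fun s hs => (hπ s hs).2, fun s hs t ht h => ?_⟩
  rcases h with h | h
  · exact (mem_sA.1 (hP ht)).2.2 _ (h.subset (hπ s hs).1) _ (hπ t ht).1
  · exact (mem_sA.1 (hP hs)).2.2 _ (hπ s hs).1 _ (h.subset (hπ t ht).1)

theorem IsHom.image_mem {f : V' → V} (hf : IsHom G' A' G A f) {s : Finset V'}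
    (hs : s ∈ sA G' A') : s.image f ∈ sA G A := by
  obtain ⟨h1, h2, h3⟩ := mem_sA.1 hs
  refine mem_sA.2 ⟨h1.image f, fun x hx => ?_, fun u hu w hw => ?_⟩
  · obtain ⟨a, ha, rfl⟩ := Finset.mem_image.1 (Finset.mem_coe.1 hx)
    exact hf.1 a (h2 (Finset.mem_coe.2 ha))
  · obtain ⟨a, ha, rfl⟩ := Finset.mem_image.1 hu
    obtain ⟨b, hb, rfl⟩ := Finset.mem_image.1 hw
    exact hf.adq (h2 (Finset.mem_coe.2 ha)) (h2 (Finset.mem_coe.2 hb)) (h3 a ha b hb)

theorem isHom_of_mono {f : Finset V' → Finset V} {P' : Set (Finset V')} {P : Set (Finset V)}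
    (h1 : ∀ s ∈ P', f s ∈ P) (h2 : ∀ s ∈ P', ∀ t ∈ P', s ⊆ t → f s ⊆ f t) :
    IsHom (sG V') P' (sG V) P f := by
  refine ⟨h1, fun s hs t ht h => adq_sG.2 ?_⟩
  rcases h with h | h
  · exact Or.inl (h2 s hs t ht h.subset)
  · exact Or.inr (h2 t ht s hs h.subset)

theorem IsHom.sd {f : V' → V} (hf : IsHom G' A' G A f) :
    IsHom (sG V') (sA G' A') (sG V) (sA G A) (Finset.image f) :=
  isHom_of_mono (fun _ hs => IsHom.image_mem hf hs) fun _ _ _ _ h => Finset.image_subset_image h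

theorem IsIso.hom {f : V' → V} (hf : IsIso G' A' G A f) : IsHom G' A' G A f := hf.isHom

theorem IsIso.adq {f : V' → V} (hf : IsIso G' A' G A f) {a b : V'} (ha : a ∈ A') (hb : b ∈ A') :
    Adq G' a b ↔ Adq G (f a) (f b) :=
  or_congr ⟨fun e => congrArg f e, fun e => hf.1.injOn ha hb e⟩ (hf.2 a ha b hb)

theorem isIso_id : IsIso G A G A id := ⟨Set.bijOn_id A, fun _ _ _ _ => Iff.rfl⟩

theorem IsIso.comp {f : V' → V} {g : V'' → V'} (hf : IsIso G' A' G A f)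
    (hg : IsIso G'' A'' G' A' g) : IsIso G'' A'' G A (f ∘ g) :=
  ⟨hf.1.comp hg.1, fun a ha b hb =>
    (hg.2 a ha b hb).trans (hf.2 _ (hg.1.mapsTo ha) _ (hg.1.mapsTo hb))⟩

theorem IsIso.symm' [Nonempty V'] {f : V' → V} (hf : IsIso G' A' G A f) :
    ∃ g, IsIso G A G' A' g ∧ (∀ a ∈ A', g (f a) = a) ∧ ∀ a ∈ A, f (g a) = a :=
  hf.exists_inv

theorem IsIso.restrict {f : V' → V} (hf : IsIso G' A' G A f) {X : Set V'} (hX : X ⊆ A') :
    IsIso G' X G (f '' X) f :=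
  ⟨(hf.1.injOn.mono hX).bijOn_image, fun a ha b hb => hf.2 a (hX ha) b (hX hb)⟩

theorem IsIso.restrict' {f : V' → V} (hf : IsIso G' A' G A f) (X : Set V) :
    IsIso G' (A' ∩ f ⁻¹' X) G (A ∩ X) f := by
  have e : f '' (A' ∩ f ⁻¹' X) = A ∩ X := by
    rw [Set.image_inter_preimage, hf.1.image_eq]
  rw [← e]
  exact IsIso.restrict hf Set.inter_subset_left

theorem img_subset_B4 {f : V' → V} (hf : Set.InjOn f A') {s t : Finset V'} (hs : ↑s ⊆ A')
    (ht : ↑t ⊆ A') : s.image f ⊆ t.image f ↔ s ⊆ t := by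
  refine ⟨fun h x hx => ?_, Finset.image_subset_image⟩
  obtain ⟨y, hy, e⟩ := Finset.mem_image.1 (h (Finset.mem_image_of_mem f hx))
  rwa [← hf (ht (Finset.mem_coe.2 hy)) (hs (Finset.mem_coe.2 hx)) e]

theorem iso_of_subset_B4 {f : Finset V' → Finset V} {P' : Set (Finset V')} {P : Set (Finset V)}
    (h1 : ∀ s ∈ P', f s ∈ P) (h2 : ∀ s ∈ P', ∀ t ∈ P', (f s ⊆ f t ↔ s ⊆ t))
    (h3 : ∀ t ∈ P, ∃ s ∈ P', f s = t) : IsIso (sG V') P' (sG V) P f := by
  refine ⟨⟨h1, fun s hs t ht e => ?_, h3⟩, fun s hs t ht => ?_⟩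
  · exact Finset.Subset.antisymm ((h2 s hs t ht).1 e.subset) ((h2 t ht s hs).1 e.symm.subset)
  · show (s ⊂ t ∨ t ⊂ s) ↔ (f s ⊂ f t ∨ f t ⊂ f s)
    simp only [Finset.ssubset_def, h2 s hs t ht, h2 t ht s hs]

theorem IsIso.sd {f : V' → V} (hf : IsIso G' A' G A f) :
    IsIso (sG V') (sA G' A') (sG V) (sA G A) (Finset.image f) := by
  refine iso_of_subset_B4 (fun s hs => IsHom.image_mem hf.isHom hs)
    (fun s hs t ht => img_subset_B4 hf.1.injOn hs.2.1 ht.2.1) fun t ht => ?_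
  obtain ⟨h1, h2, h3⟩ := mem_sA.1 ht
  obtain ⟨s, hs, e⟩ := Finset.subset_set_image_iff.1 (show (↑t : Set V) ⊆ f '' A' by
    rw [hf.1.image_eq]
    exact h2)
  refine ⟨s, mem_sA.2 ⟨?_, hs, fun u hu w hw => ?_⟩, e⟩
  · rw [← e] at h1
    exact Finset.image_nonempty.1 h1
  · refine (IsIso.adq hf (hs (Finset.mem_coe.2 hu)) (hs (Finset.mem_coe.2 hw))).2 (h3 _ ?_ _ ?_)
    · rw [← e]
      exact Finset.mem_image_of_mem f hu
    · rw [← e]
      exact Finset.mem_image_of_mem f hw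

theorem IsIso.lk {f : V' → V} (hf : IsIso G' A' G A f) {s : Set V'} (hs : s ⊆ A') :
    IsIso G' (Lk G' A' s) G (Lk G A (f '' s)) f := by
  have e : f '' Lk G' A' s = Lk G A (f '' s) := by
    ext w
    constructor
    · rintro ⟨x, ⟨hx, h⟩, rfl⟩
      refine ⟨hf.1.mapsTo hx, ?_⟩
      rintro _ ⟨u, hu, rfl⟩
      exact (hf.2 u (hs hu) x hx).1 (h u hu)
    · rintro ⟨hw, h⟩
      obtain ⟨x, hx, rfl⟩ := hf.1.surjOn hw
      exact ⟨x, ⟨hx, fun u hu => (hf.2 u (hs hu) x hx).2 (h _ ⟨u, hu, rfl⟩)⟩, rfl⟩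
  rw [← e]
  exact IsIso.restrict hf fun x hx => hx.1

theorem reach_map_B4 {f : V' → V} (hf : IsHom G' A' G A f) {a b : V'} (h : Reach G' A' a b) :
    Reach G A (f a) (f b) := by
  induction h with
  | refl => exact Relation.ReflTransGen.refl
  | tail _ h ih =>
    rcases hf.2 _ h.1 _ h.2.1 h.2.2 with e | e
    · rw [← e]
      exact ih
    · exact Relation.ReflTransGen.tail ih ⟨hf.1 _ h.1, hf.1 _ h.2.1, e⟩

theorem IsIso.pre {f : V' → V} (hf : IsIso G' A' G A f) : Pre G' A' ↔ Pre G A := by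
  constructor
  · intro h a ha b hb
    obtain ⟨x, hx, rfl⟩ := hf.1.surjOn ha
    obtain ⟨y, hy, rfl⟩ := hf.1.surjOn hb
    exact reach_map_B4 hf.isHom (h x hx y hy)
  · intro h a ha b hb
    have : Nonempty V' := ⟨a⟩
    obtain ⟨g, hg, e, -⟩ := hf.exists_inv
    have := reach_map_B4 hg.isHom (h _ (hf.1.mapsTo ha) _ (hf.1.mapsTo hb))
    rwa [e a ha, e b hb] at this

theorem IsIso.con {f : V' → V} (hf : IsIso G' A' G A f) : Con G' A' ↔ Con G A := by
  refine and_congr ?_ (IsIso.pre hf)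
  rw [← hf.1.image_eq, Set.image_nonempty]

theorem IsIso.pot {f : V' → V} (hf : IsIso G' A' G A f) {lab : V → V → L} :
    Pot G' A' (pull f lab) ↔ Pot G A lab := by
  constructor
  · rintro ⟨p, hp⟩
    refine ⟨fun v => if h : ∃ x ∈ A', f x = v then p h.choose else 1, fun u hu w hw h => ?_⟩
    have h1 : ∃ x ∈ A', f x = u := hf.1.surjOn hu
    have h2 : ∃ x ∈ A', f x = w := hf.1.surjOn hw
    dsimp only
    rw [dif_pos h1, dif_pos h2]
    have h3 := hp _ h1.choose_spec.1 _ h2.choose_spec.1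
      ((IsIso.adq hf h1.choose_spec.1 h2.choose_spec.1).2
        (by rw [h1.choose_spec.2, h2.choose_spec.2]; exact h))
    unfold pull at h3
    rwa [h1.choose_spec.2, h2.choose_spec.2] at h3
  · rintro ⟨p, hp⟩
    exact ⟨fun x => p (f x), fun u hu w hw h =>
      hp _ (hf.1.mapsTo hu) _ (hf.1.mapsTo hw) ((IsIso.adq hf hu hw).1 h)⟩

theorem triv_of_iso_B4 {f : V' → V} (hf : IsIso G' A' G A f) (h : Triv L G' A') : Triv L G A :=
  fun _ hl => (IsIso.pot hf).1 (h _ (hl.pull hf.isHom))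

theorem IsIso.triv {f : V' → V} (hf : IsIso G' A' G A f) : Triv L G' A' ↔ Triv L G A := by
  refine ⟨triv_of_iso_B4 hf, fun h => ?_⟩
  rcases isEmpty_or_nonempty V' with he | he
  · exact fun _ _ => ⟨fun _ => 1, fun u => (he.false u).elim⟩
  · obtain ⟨g, hg, -, -⟩ := hf.exists_inv
    exact triv_of_iso_B4 hg h

theorem iso_iff {f : V' → V} : Iso G' A' G A f ↔ IsIso G' A' G A f := Iff.rfl

theorem reach_one_B4 {a b : V} (ha : a ∈ A) (hb : b ∈ A) (h : Adq G a b) : Reach G A a b := by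
  rcases h with rfl | h
  · exact Relation.ReflTransGen.refl
  · exact Relation.ReflTransGen.single ⟨ha, hb, h⟩

theorem reach_up_B4 {Q : Set V} {u w : V} (h : Reach G (A ∩ Q) u w) :
    Reach (sG V) (nb G A Q) {u} {w} := by
  induction h with
  | refl => exact Relation.ReflTransGen.refl
  | @tail b c _ h ih =>
    have h1 : ({b} : Finset V) ∈ nb G A Q :=
      ⟨singleton_mem_sA.2 h.1.1, b, Finset.mem_singleton_self b, h.1.2⟩
    have h2 : ({c} : Finset V) ∈ nb G A Q :=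
      ⟨singleton_mem_sA.2 h.2.1.1, c, Finset.mem_singleton_self c, h.2.1.2⟩
    have h3 : ({b, c} : Finset V) ∈ nb G A Q :=
      ⟨pair_mem_sA h.1.1 h.2.1.1 (Or.inr h.2.2), b, Finset.mem_insert_self _ _, h.1.2⟩
    exact Relation.ReflTransGen.trans (Relation.ReflTransGen.trans ih
      (reach_one_B4 h1 h3 (adq_sG.2 (Or.inl (by simp)))))
      (reach_one_B4 h3 h2 (adq_sG.2 (Or.inr (by simp))))

theorem reach_nb_B4 {Q : Set V} {s t : Finset V} {u w : V} (hs : s ∈ sA G A) (ht : t ∈ sA G A)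
    (hu : u ∈ s) (hw : w ∈ t) (huQ : u ∈ Q) (hwQ : w ∈ Q) :
    Reach (sG V) (nb G A Q) s t ↔ Reach G (A ∩ Q) u w := by
  have huA : u ∈ A := hs.2.1 (Finset.mem_coe.2 hu)
  have hwA : w ∈ A := ht.2.1 (Finset.mem_coe.2 hw)
  constructor
  · intro h
    have : Nonempty V := ⟨u⟩
    have hh : IsHom (sG V) (nb G A Q) G (A ∩ Q) (pk Q) :=
      isHom_pick (fun _ h => h.1) fun x hx =>
        ⟨pk_mem Q hx.1.1, hx.1.2.1 (Finset.mem_coe.2 (pk_mem Q hx.1.1)), pk_mem_B hx.2⟩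
    have s1 : s ∈ nb G A Q := ⟨hs, u, hu, huQ⟩
    have t1 : t ∈ nb G A Q := ⟨ht, w, hw, hwQ⟩
    exact Relation.ReflTransGen.trans (Relation.ReflTransGen.trans
      (reach_one_B4 ⟨huA, huQ⟩ (hh.1 s s1) ((mem_sA.1 hs).2.2 _ hu _ (pk_mem Q hs.1)))
      (reach_map_B4 hh h))
      (reach_one_B4 (hh.1 t t1) ⟨hwA, hwQ⟩ ((mem_sA.1 ht).2.2 _ (pk_mem Q ht.1) _ hw))
  · intro h
    exact Relation.ReflTransGen.trans (Relation.ReflTransGen.trans
      (reach_one_B4 ⟨hs, u, hu, huQ⟩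
        ⟨singleton_mem_sA.2 huA, u, Finset.mem_singleton_self u, huQ⟩
        (adq_sG.2 (Or.inr (by simpa using hu)))) (reach_up_B4 h))
      (reach_one_B4 ⟨singleton_mem_sA.2 hwA, w, Finset.mem_singleton_self w, hwQ⟩
        ⟨ht, w, hw, hwQ⟩ (adq_sG.2 (Or.inl (by simpa using hw))))

theorem nb_univ_B4 : nb G A Set.univ = sA G A := by
  ext s
  exact ⟨fun h => h.1, fun h => ⟨h, h.1.choose, h.1.choose_spec, Set.mem_univ _⟩⟩

theorem pre_nb {Q : Set V} : Pre (sG V) (nb G A Q) ↔ Pre G (A ∩ Q) := by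
  constructor
  · intro h a ha b hb
    have h1 := Finset.mem_singleton_self a
    have h2 := Finset.mem_singleton_self b
    exact (reach_nb_B4 (singleton_mem_sA.2 ha.1) (singleton_mem_sA.2 hb.1) h1 h2 ha.2 hb.2).1
      (h _ ⟨singleton_mem_sA.2 ha.1, a, h1, ha.2⟩ _ ⟨singleton_mem_sA.2 hb.1, b, h2, hb.2⟩)
  · rintro h s ⟨hs, u, hu, huQ⟩ t ⟨ht, w, hw, hwQ⟩
    exact (reach_nb_B4 hs ht hu hw huQ hwQ).2
      (h u ⟨hs.2.1 (Finset.mem_coe.2 hu), huQ⟩ w ⟨ht.2.1 (Finset.mem_coe.2 hw), hwQ⟩)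

theorem pre_sA : Pre (sG V) (sA G A) ↔ Pre G A := by
  rw [← nb_univ_B4, pre_nb, Set.inter_univ]

theorem con_sA : Con (sG V) (sA G A) ↔ Con G A := by
  refine and_congr ⟨?_, ?_⟩ pre_sA
  · rintro ⟨s, hs⟩
    obtain ⟨x, hx⟩ := hs.1
    exact ⟨x, hs.2.1 (Finset.mem_coe.2 hx)⟩
  · rintro ⟨x, hx⟩
    exact ⟨{x}, singleton_mem_sA.2 hx⟩

theorem reach_sA {s t : Finset V} {u w : V} (hs : s ∈ sA G A) (ht : t ∈ sA G A) (hu : u ∈ s)
    (hw : w ∈ t) : Reach (sG V) (sA G A) s t ↔ Reach G A u w := by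
  have h := reach_nb_B4 (Q := Set.univ) hs ht hu hw (Set.mem_univ _) (Set.mem_univ _)
  rwa [nb_univ_B4, Set.inter_univ] at h

/-- A potential on the subdivision gives a potential below. -/
theorem pot_of_pot_sd {lab : V → V → L} (hl : Flat G A lab) {π : Finset V → V}
    (hπ : ∀ s ∈ sA G A, π s ∈ s) (h : Pot (sG V) (sA G A) (pull π lab)) : Pot G A lab := by
  obtain ⟨p, hp⟩ := h
  refine ⟨fun u => p {u}, fun u hu w hw huw => ?_⟩
  have s1 := singleton_mem_sA (G := G).2 hu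
  have s2 := singleton_mem_sA (G := G).2 hw
  have s3 := pair_mem_sA hu hw huw
  have e1 : π {u} = u := Finset.mem_singleton.1 (hπ _ s1)
  have e2 : π {w} = w := Finset.mem_singleton.1 (hπ _ s2)
  have h1 := hp _ s1 _ s3 (adq_sG.2 (Or.inl (by simp)))
  have h2 := hp _ s3 _ s2 (adq_sG.2 (Or.inr (by simp)))
  unfold pull at h1 h2
  rw [e1] at h1
  rw [e2] at h2
  have m := hπ _ s3
  have c := (mem_sA.1 s3).2.2
  rw [← hl u hu _ (s3.2.1 (Finset.mem_coe.2 m)) w hw (c _ (by simp) _ m) (c _ m _ (by simp)) huw,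
    h1, h2]
  group

theorem lk_lk (s t : Set V) : Lk G (Lk G A s) t = Lk G A (s ∪ t) := by
  ext w
  constructor
  · rintro ⟨⟨h1, h2⟩, h3⟩
    exact ⟨h1, fun u hu => hu.elim (h2 u) (h3 u)⟩
  · rintro ⟨h1, h2⟩
    exact ⟨⟨h1, fun u hu => h2 u (Or.inl hu)⟩, fun u hu => h2 u (Or.inr hu)⟩

theorem lk_empty : Lk G A ∅ = A := by
  ext w
  exact ⟨fun h => h.1, fun h => ⟨h, fun _ hu => hu.elim⟩⟩

theorem lk_subset (s : Set V) : Lk G A s ⊆ A := fun _ h => h.1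

theorem clq_lk {s t : Finset V} (hs : Clq G A s) :
    Clq G (Lk G A s) t ↔ Clq G A (s ∪ t) ∧ Disjoint s t := by
  obtain ⟨s1, s2⟩ := clq_iff.1 hs
  rw [clq_iff, clq_iff]
  constructor
  · rintro ⟨h1, h2⟩
    refine ⟨⟨fun x hx => ?_, fun u hu w hw => ?_⟩, Finset.disjoint_left.2 fun x hx hx' => ?_⟩
    · rcases Finset.mem_union.1 (Finset.mem_coe.1 hx) with h | h
      · exact s1 (Finset.mem_coe.2 h)
      · exact (h1 (Finset.mem_coe.2 h)).1
    · rcases Finset.mem_union.1 hu with a | a <;> rcases Finset.mem_union.1 hw with b | b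
      · exact s2 u a w b
      · exact Or.inr ((h1 (Finset.mem_coe.2 b)).2 u (Finset.mem_coe.2 a))
      · exact Or.inr ((h1 (Finset.mem_coe.2 a)).2 w (Finset.mem_coe.2 b)).symm
      · exact h2 u a w b
    · exact G.irrefl ((h1 (Finset.mem_coe.2 hx')).2 x (Finset.mem_coe.2 hx))
  · rintro ⟨⟨h1, h2⟩, h3⟩
    refine ⟨fun x hx => ⟨h1 (Finset.mem_coe.2 (Finset.mem_union_right _ (Finset.mem_coe.1 hx))),
      fun u hu => ?_⟩, fun u hu w hw =>
        h2 u (Finset.mem_union_right _ hu) w (Finset.mem_union_right _ hw)⟩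
    refine (h2 u (Finset.mem_union_left _ (Finset.mem_coe.1 hu)) x
      (Finset.mem_union_right _ (Finset.mem_coe.1 hx))).resolve_left fun e => ?_
    exact Finset.disjoint_left.1 h3 (Finset.mem_coe.1 hu) (e ▸ Finset.mem_coe.1 hx)

/-- The upper link of a simplex is the subdivision of its link. -/
theorem upper_iso {s : Finset V} (hs : Clq G A s) :
    IsIso (sG V) {t | t ∈ sA G A ∧ s ⊂ t} (sG V) (sA G (Lk G A s)) fun t => t \ s := by
  refine iso_of_subset_B4 (fun t ht => ?_) (fun t ht r hr => ?_) fun r hr => ?_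
  · refine ⟨Finset.sdiff_nonempty.2 ht.2.2, (clq_lk hs).2 ⟨?_, Finset.disjoint_sdiff⟩⟩
    rw [Finset.union_sdiff_of_subset ht.2.subset]
    exact ht.1.2
  · refine ⟨fun h x hx => ?_, fun h => Finset.sdiff_subset_sdiff h (Finset.Subset.refl _)⟩
    by_cases hxs : x ∈ s
    · exact hr.2.subset hxs
    · exact (Finset.mem_sdiff.1 (h (Finset.mem_sdiff.2 ⟨hx, hxs⟩))).1
  · obtain ⟨h1, h2⟩ := (clq_lk hs).1 hr.2
    refine ⟨s ∪ r, ⟨⟨hr.1.mono Finset.subset_union_right, h1⟩, ?_⟩, Finset.union_sdiff_cancel_left h2⟩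
    obtain ⟨x, hx⟩ := hr.1
    refine Finset.ssubset_iff_of_subset Finset.subset_union_left |>.2
      ⟨x, Finset.mem_union_right _ hx, fun h => Finset.disjoint_left.1 h2 h hx⟩

end Pool.Agent.MP_6374aa_g

end

section

/-! Cells: congruence, isomorphisms, links, purity. -/

namespace Pool.Agent.MP_6374aa_g

open Pool.Agent.MP_6374aa_gt Classical

variable {V V' V'' : Type} {G : SimpleGraph V} {G' : SimpleGraph V'} {G'' : SimpleGraph V''}
  {A : Set V} {A' : Set V'} {A'' : Set V''} {L : Type} [Group L]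

theorem clq_empty_C1 : Clq G A ∅ := ⟨by simp, by simp⟩

theorem clq_single_C1 {v : V} : Clq G A {v} ↔ v ∈ A :=
  ⟨fun h => h.1 (by simp), fun h => (singleton_mem_sA.2 h).2⟩

theorem clq_ins_C1 {v : V} (hv : v ∈ A) {s : Finset V} :
    Clq G (Lk G A {v}) s ↔ Clq G A (insert v s) ∧ v ∉ s := by
  have h := clq_lk (G := G) (t := s) (clq_single_C1.2 hv)
  rwa [Finset.coe_singleton, Finset.singleton_union, Finset.disjoint_singleton_left] at h

theorem lk_ins_C1 (v : V) (s : Finset V) :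
    Lk G (Lk G A {v}) s = Lk G A (insert v s : Finset V) := by
  rw [lk_lk, Finset.coe_insert, Set.singleton_union]

theorem lk_mono_C1 {S : Set V} (h : S ⊆ A) (s : Set V) : Lk G S s ⊆ Lk G A s :=
  fun _ hx => ⟨h hx.1, hx.2⟩

theorem mem_lk_C1 {v w : V} : w ∈ Lk G A {v} ↔ w ∈ A ∧ G.Adj v w :=
  ⟨fun h => ⟨h.1, h.2 v rfl⟩, fun h => ⟨h.1, fun _ hu => hu ▸ h.2⟩⟩

theorem iso_lk_C1 {f : V' → V} (hf : IsIso G' A' G A f) {v : V'} (hv : v ∈ A') :
    IsIso G' (Lk G' A' {v}) G (Lk G A {f v}) f := by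
  have h := IsIso.lk hf (s := {v}) (Set.singleton_subset_iff.2 hv)
  rwa [Set.image_singleton] at h

theorem iso_glob_C1 {f : V' → V} (hf : IsIso G' A' G A f) (d : ℕ) :
    Glob G' (d + 1) A' ↔ Glob G (d + 1) A := by
  rcases d with _ | _ | d
  · show _ ∨ _ ↔ _ ∨ _
    rw [hf.1.ncard_eq]
  · exact IsIso.con hf
  · exact and_congr (IsIso.con hf) (IsIso.triv hf)

theorem sub_image_C1 {f : V' → V} {T : Set V} {T' : Set V'}
    (hT : ∀ a ∈ A', a ∈ T' ↔ f a ∈ T) {s : Finset V'} (hs : ↑s ⊆ A') :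
    sub T' s ↔ sub T (s.image f) := by
  rw [sub, sub, Finset.coe_image, Set.image_subset_iff]
  exact ⟨fun h a ha => (hT a (hs ha)).1 (h ha), fun h a ha => (hT a (hs ha)).2 (h ha)⟩

theorem Cell.congr {d : ℕ} {β β' : Finset V → Prop} (h : Cell G d A β)
    (hb : ∀ s, Clq G A s → (β s ↔ β' s)) : Cell G d A β' := by
  induction d generalizing A β β' with
  | zero => exact ⟨h.1, fun b => h.2 ((hb ∅ clq_empty_C1).2 b)⟩
  | succ d ih =>
    refine ⟨h.1, h.2.1, ?_, fun v hv => ih (h.2.2.2 v hv) fun s hs =>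
      hb _ ((clq_ins_C1 hv).1 hs).1⟩
    rw [← hb ∅ clq_empty_C1, h.2.2.1]
    split_ifs
    · rfl
    · exact exists_congr fun v => and_congr_right fun hv => hb _ (clq_single_C1.2 hv)

theorem Mfa.congr {d : ℕ} {β β' : Finset V → Prop} {C : Set V} (h : Mfa G d A β C) (hC : C ⊆ A)
    (hb : ∀ s ∈ sA G A, (β s ↔ β' s)) : Mfa G d A β' C := by
  exact fun v hv => (h v hv).congr fun s hs =>
    hb _ ⟨Finset.insert_nonempty v s, ((clq_ins_C1 (hC hv)).1 hs).1⟩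

theorem Mfa.mono {d : ℕ} {β : Finset V → Prop} {C C' : Set V} (h : Mfa G d A β C) (hC : C' ⊆ C) :
    Mfa G d A β C' := by
  exact fun v hv => h v (hC hv)

theorem IsIso.cell {f : V' → V} (hf : IsIso G' A' G A f) {d : ℕ} {β : Finset V → Prop}
    {β' : Finset V' → Prop} (hb : ∀ s, Clq G' A' s → (β' s ↔ β (s.image f))) :
    Cell G' d A' β' ↔ Cell G d A β := by
  induction d generalizing A A' β β' with
  | zero =>
    refine and_congr ?_ (not_congr ?_)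
    · rw [← hf.1.image_eq, Set.image_eq_empty]
    · rw [hb ∅ clq_empty_C1, Finset.image_empty]
  | succ d ih =>
    have key : ∀ v ∈ A', (Cell G' d (Lk G' A' {v}) fun s => β' (insert v s)) ↔
        Cell G d (Lk G A {f v}) fun s => β (insert (f v) s) := fun v hv =>
      ih (iso_lk_C1 hf hv) fun s hs => by
        rw [hb _ ((clq_ins_C1 hv).1 hs).1, Finset.image_insert]
    have k1 : ∀ v ∈ A', β' {v} ↔ β {f v} := fun v hv => by
      rw [hb _ (clq_single_C1.2 hv), Finset.image_singleton]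
    refine and_congr hf.1.finite_iff_finite (and_congr (iso_glob_C1 hf d)
      (and_congr (iff_congr ?_ ?_) ⟨fun h v hv => ?_, fun h v hv =>
        (key v hv).2 (h _ (hf.1.mapsTo hv))⟩))
    · rw [hb ∅ clq_empty_C1, Finset.image_empty]
    · split_ifs
      · rw [hf.1.ncard_eq]
      · refine ⟨fun ⟨v, hv, h⟩ => ⟨f v, hf.1.mapsTo hv, (k1 v hv).1 h⟩, fun ⟨v, hv, h⟩ => ?_⟩
        obtain ⟨w, hw, rfl⟩ := hf.1.surjOn hv
        exact ⟨w, hw, (k1 w hw).2 h⟩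
    · obtain ⟨w, hw, rfl⟩ := hf.1.surjOn hv
      exact (key w hw).1 (h w hw)

theorem IsIso.mfa {f : V' → V} (hf : IsIso G' A' G A f) {d : ℕ} {β : Finset V → Prop}
    {β' : Finset V' → Prop} (hb : ∀ s ∈ sA G' A', (β' s ↔ β (s.image f))) {C' : Set V'}
    (hC : C' ⊆ A') : Mfa G' d A' β' C' ↔ Mfa G d A β (f '' C') := by
  have key : ∀ v ∈ A', (Cell G' d (Lk G' A' {v}) fun s => β' (insert v s)) ↔
      Cell G d (Lk G A {f v}) fun s => β (insert (f v) s) := fun v hv =>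
    IsIso.cell (iso_lk_C1 hf hv) fun s hs => by
      rw [hb _ ⟨Finset.insert_nonempty v s, ((clq_ins_C1 hv).1 hs).1⟩, Finset.image_insert]
  refine ⟨fun h => ?_, fun h v hv => (key v (hC hv)).2 (h _ ⟨v, hv, rfl⟩)⟩
  rintro _ ⟨v, hv, rfl⟩
  exact (key v (hC hv)).1 (h v hv)

theorem IsIso.sph {f : V' → V} (hf : IsIso G' A' G A f) {d : ℕ} : Sph G' d A' ↔ Sph G d A := by
  exact IsIso.cell hf fun _ _ => Iff.rfl

theorem IsIso.ball {f : V' → V} (hf : IsIso G' A' G A f) {d : ℕ} {T : Set V} {T' : Set V'}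
    (hT : ∀ a ∈ A', a ∈ T' ↔ f a ∈ T) : Ball G' d A' T' ↔ Ball G d A T := by
  exact IsIso.cell hf fun _ hs => sub_image_C1 hT hs.1

theorem IsIso.mf {f : V' → V} (hf : IsIso G' A' G A f) {d : ℕ} {T : Set V} {T' : Set V'}
    (hT : ∀ a ∈ A', a ∈ T' ↔ f a ∈ T) : Mf G' d A' T' ↔ Mf G d A T := by
  have h := IsIso.mfa hf (d := d) (β := sub T) (β' := sub T')
    (fun _ hs => sub_image_C1 hT hs.2.1) subset_rfl
  rwa [hf.1.image_eq] at h

theorem IsIso.cl {f : V' → V} (hf : IsIso G' A' G A f) {d : ℕ} : Cl G' d A' ↔ Cl G d A := by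
  exact and_congr hf.1.finite_iff_finite (and_congr (IsIso.con hf)
    (IsIso.mf hf fun _ _ => Iff.rfl))

theorem Cell.finite {d : ℕ} {β : Finset V → Prop} (h : Cell G d A β) : A.Finite := by
  cases d with
  | zero => exact h.1 ▸ Set.finite_empty
  | succ d => exact h.1

theorem Cell.mfa {d : ℕ} {β : Finset V → Prop} (h : Cell G (d + 1) A β) : Mfa G d A β A := by
  exact h.2.2.2

theorem Cell.nonempty {d : ℕ} {β : Finset V → Prop} (h : Cell G (d + 1) A β) : A.Nonempty := by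
  rcases d with _ | _ | d
  · refine Set.nonempty_of_ncard_ne_zero ?_
    rcases h.2.1 with e | e <;> omega
  · exact h.2.1.1
  · exact h.2.1.1.1

theorem Cell.con {d : ℕ} {β : Finset V → Prop} (h : Cell G (d + 2) A β) : Con G A := by
  cases d with
  | zero => exact h.2.1
  | succ d => exact h.2.1.1

theorem Cell.ndc {β : Finset V → Prop} (h : Cell G 3 A β) : NDC G A := by
  exact h.2.1.2

theorem Cell.one_no_adj {β : Finset V → Prop} (h : Cell G 1 A β) :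
    ∀ a ∈ A, ∀ b ∈ A, ¬ G.Adj a b := by
  intro a ha b hb hab
  have e : Lk G A {a} = ∅ := (h.2.2.2 a ha).1
  exact (e ▸ mem_lk_C1.2 ⟨hb, hab⟩ : b ∈ (∅ : Set V))

theorem Cell.ball_con {d : ℕ} {β : Finset V → Prop} (h : Cell G d A β) (hb : β ∅) : Con G A := by
  rcases d with _ | _ | d
  · exact absurd hb h.2
  · obtain ⟨a, rfl⟩ := Set.ncard_eq_one.1 ((if_pos rfl).mp (h.2.2.1.1 hb))
    exact con_singleton a
  · exact h.con

theorem cell_two {β : Finset V → Prop} (hf : A.Finite) (hc : Con G A) (h : Mfa G 1 A β A)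
    (hb : β ∅ ↔ ∃ v ∈ A, β {v}) : Cell G 2 A β := by
  exact ⟨hf, hc, by rw [if_neg (Nat.succ_ne_zero 0)]; exact hb, h⟩

theorem cell_three {β : Finset V → Prop} (hf : A.Finite) (hc : Con G A) (hn : NDC G A)
    (h : Mfa G 2 A β A) (hb : β ∅ ↔ ∃ v ∈ A, β {v}) : Cell G 3 A β := by
  exact ⟨hf, ⟨hc, hn⟩, by rw [if_neg (Nat.succ_ne_zero 1)]; exact hb, h⟩

theorem sph_one : Sph G 1 A ↔ A.ncard = 2 ∧ ∀ a ∈ A, ∀ b ∈ A, ¬ G.Adj a b := by
  refine ⟨fun h => ⟨h.2.1.resolve_left fun e => h.2.2.1.2 ((if_pos rfl).mpr e),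
    Cell.one_no_adj h⟩, fun ⟨h1, h2⟩ => ⟨Set.finite_of_ncard_ne_zero (by omega), Or.inr h1,
      ⟨False.elim, fun e => ?_⟩, fun v hv => ⟨?_, id⟩⟩⟩
  · have := (if_pos rfl).mp e
    omega
  · exact Set.eq_empty_of_forall_notMem fun w hw => h2 v hv w hw.1 (hw.2 v rfl)

theorem ball_one {T : Set V} : Ball G 1 A T ↔ ∃ a, A = {a} ∧ a ∉ T := by
  have h0 : sub T ∅ := by simp [sub]
  constructor
  · intro h
    obtain ⟨a, rfl⟩ := Set.ncard_eq_one.1 ((if_pos rfl).mp (h.2.2.1.1 h0))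
    exact ⟨a, rfl, fun ha => (h.2.2.2 a rfl).2 (by simpa [sub] using ha)⟩
  · rintro ⟨a, rfl, ha⟩
    refine ⟨Set.finite_singleton a, Or.inl (Set.ncard_singleton a),
      ⟨fun _ => (if_pos rfl).mpr (Set.ncard_singleton a), fun _ => h0⟩, ?_⟩
    rintro v rfl
    refine ⟨Set.eq_empty_of_forall_notMem fun w hw => ?_, fun hb => ha (by simpa [sub] using hb)⟩
    exact G.irrefl (hw.1 ▸ hw.2 v rfl : G.Adj v v)

theorem Mf.sph_lk {d : ℕ} {T : Set V} (h : Mf G d A T) {v : V} (hv : v ∈ A) (hT : v ∉ T) :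
    Sph G d (Lk G A {v}) := by
  exact (h v hv).congr fun s _ => ⟨fun hs => hT (hs (by simp)), False.elim⟩

theorem Mf.ball_lk {d : ℕ} {T : Set V} (h : Mf G d A T) {v : V} (hv : v ∈ A) (hT : v ∈ T) :
    Ball G d (Lk G A {v}) T := by
  exact (h v hv).congr fun s _ => by simp [sub, Set.insert_subset_iff, hT]

theorem mf_empty_iff {d : ℕ} : Mf G d A ∅ ↔ Mfa G d A (fun _ => False) A := by
  have key : ∀ s ∈ sA G A, (sub ∅ s ↔ False) := fun s hs =>
    ⟨fun h => hs.1.elim fun a ha => h (Finset.mem_coe.2 ha), False.elim⟩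
  exact ⟨fun h => Mfa.congr h subset_rfl key,
    fun h => Mfa.congr h subset_rfl fun s hs => (key s hs).symm⟩

theorem Sph.mf {d : ℕ} (h : Sph G (d + 1) A) : Mf G d A ∅ := by
  exact mf_empty_iff.2 (Cell.mfa h)

theorem Cell.link {d : ℕ} {β : Finset V → Prop} (h : Cell G d A β) {s : Finset V}
    (hs : Clq G A s) : s.card ≤ d ∧ Cell G (d - s.card) (Lk G A s) fun t => β (s ∪ t) := by
  induction s using Finset.induction_on generalizing d A β with
  | empty =>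
    rw [Finset.coe_empty, lk_empty]
    exact ⟨Nat.zero_le d, h.congr fun t _ => by rw [Finset.empty_union]⟩
  | insert v s hv ih =>
    have hvA : v ∈ A := hs.1 (by simp)
    cases d with
    | zero => exact (h.1 ▸ hvA : v ∈ (∅ : Set V)).elim
    | succ d =>
      obtain ⟨h1, h2⟩ := ih (h.2.2.2 v hvA) ((clq_ins_C1 hvA).2 ⟨hs, hv⟩)
      rw [Finset.card_insert_of_notMem hv, Nat.add_sub_add_right, ← lk_ins_C1]
      exact ⟨Nat.succ_le_succ h1, h2.congr fun t _ => by rw [Finset.insert_union]⟩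

theorem Mfa.link {d : ℕ} {β : Finset V → Prop} {C : Set V} (h : Mfa G d A β C) {s : Finset V}
    (hs : Clq G A s) (hm : Meets s C) :
    s.card ≤ d + 1 ∧ Cell G (d + 1 - s.card) (Lk G A s) fun t => β (s ∪ t) := by
  obtain ⟨v, hv, hC⟩ := hm
  obtain ⟨s, hv', rfl⟩ : ∃ r, v ∉ r ∧ s = insert v r :=
    ⟨s.erase v, Finset.notMem_erase v s, (Finset.insert_erase hv).symm⟩
  have hvA : v ∈ A := hs.1 (by simp)
  obtain ⟨h1, h2⟩ := (h v hC).link ((clq_ins_C1 hvA).2 ⟨hs, hv'⟩)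
  rw [Finset.card_insert_of_notMem hv', Nat.add_sub_add_right, ← lk_ins_C1]
  exact ⟨Nat.succ_le_succ h1, h2.congr fun t _ => by rw [Finset.insert_union]⟩

theorem pure_zero_C1 {d : ℕ} {β : Finset V → Prop} (h : Cell G d A β) :
    ∃ t, Clq G A t ∧ t.card = d ∧ ¬ β t := by
  induction d generalizing A β with
  | zero => exact ⟨∅, clq_empty_C1, rfl, h.2⟩
  | succ d ih =>
    obtain ⟨v, hv⟩ := h.nonempty
    obtain ⟨t, ht, hc, hb⟩ := ih (h.2.2.2 v hv)
    obtain ⟨h1, h2⟩ := (clq_ins_C1 hv).1 ht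
    exact ⟨insert v t, h1, by rw [Finset.card_insert_of_notMem h2, hc], hb⟩

theorem pure_lk_C1 {d : ℕ} {β : Finset V → Prop} {s : Finset V} (hs : Clq G A s)
    (h : s.card ≤ d ∧ Cell G (d - s.card) (Lk G A s) fun t => β (s ∪ t)) :
    ∃ t, Clq G A t ∧ s ⊆ t ∧ t.card = d ∧ ¬ β t := by
  obtain ⟨t, ht, hc, hb⟩ := pure_zero_C1 h.2
  obtain ⟨h3, h4⟩ := (clq_lk hs).1 ht
  refine ⟨s ∪ t, h3, Finset.subset_union_left, ?_, hb⟩
  rw [Finset.card_union_of_disjoint h4]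
  omega

theorem down_zero_C1 {d : ℕ} {β : Finset V → Prop} (h : Cell G d A β) {t : Finset V}
    (ht : Clq G A t) (hb : β t) : β ∅ := by
  induction t using Finset.induction_on generalizing d A β with
  | empty => exact hb
  | insert v t hv ih =>
    have hvA : v ∈ A := ht.1 (by simp)
    cases d with
    | zero => exact (h.1 ▸ hvA : v ∈ (∅ : Set V)).elim
    | succ d =>
      have h1 := ih (h.2.2.2 v hvA) ((clq_ins_C1 hvA).2 ⟨ht, hv⟩) hb
      cases d with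
      | zero => exact absurd h1 (h.2.2.2 v hvA).2
      | succ d =>
        refine h.2.2.1.2 ((if_neg (Nat.succ_ne_zero d)).mpr ⟨v, hvA, ?_⟩)
        rwa [insert_empty_eq] at h1

theorem down_lk_C1 {d : ℕ} {β : Finset V → Prop} {s t : Finset V}
    (h : Cell G d (Lk G A s) fun t => β (s ∪ t)) (ht : Clq G A t) (hs : s ⊆ t) (hb : β t) :
    β s := by
  have e : s ∪ t \ s = t := Finset.union_sdiff_of_subset hs
  have h1 := down_zero_C1 h (t := t \ s)
    ((clq_lk (ht.subset hs)).2 ⟨e.symm ▸ ht, Finset.disjoint_sdiff⟩) (e.symm ▸ hb)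
  rwa [Finset.union_empty] at h1

theorem facet_zero_C1 {d : ℕ} {β : Finset V → Prop} (h : Cell G d A β) (hb : β ∅) :
    ∃ t, Clq G A t ∧ t.card + 1 = d ∧ β t := by
  induction d generalizing A β with
  | zero => exact absurd hb h.2
  | succ d ih =>
    cases d with
    | zero => exact ⟨∅, clq_empty_C1, rfl, hb⟩
    | succ d =>
      obtain ⟨v, hv, h1⟩ := (if_neg (Nat.succ_ne_zero d)).mp (h.2.2.1.1 hb)
      obtain ⟨t, ht, hc, hb'⟩ := ih (h.2.2.2 v hv) (by rwa [insert_empty_eq])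
      obtain ⟨h2, h3⟩ := (clq_ins_C1 hv).1 ht
      exact ⟨insert v t, h2, by rw [Finset.card_insert_of_notMem h3, hc], hb'⟩

theorem Cell.pure {d : ℕ} {β : Finset V → Prop} (h : Cell G d A β) {s : Finset V}
    (hs : Clq G A s) : ∃ t, Clq G A t ∧ s ⊆ t ∧ t.card = d ∧ ¬ β t := by
  exact pure_lk_C1 hs (h.link hs)

theorem Mfa.pure {d : ℕ} {β : Finset V → Prop} {C : Set V} (h : Mfa G d A β C) {s : Finset V}
    (hs : Clq G A s) (hm : Meets s C) : ∃ t, Clq G A t ∧ s ⊆ t ∧ t.card = d + 1 ∧ ¬ β t := by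
  exact pure_lk_C1 hs (h.link hs hm)

theorem Cell.down {d : ℕ} {β : Finset V → Prop} (h : Cell G d A β) {s t : Finset V}
    (ht : Clq G A t) (hs : s ⊆ t) (hb : β t) : β s := by
  exact down_lk_C1 (h.link (ht.subset hs)).2 ht hs hb

theorem Mfa.down {d : ℕ} {β : Finset V → Prop} {C : Set V} (h : Mfa G d A β C) {s t : Finset V}
    (ht : Clq G A t) (hs : s ⊆ t) (hm : Meets s C) (hb : β t) : β s := by
  exact down_lk_C1 (h.link (ht.subset hs) hm).2 ht hs hb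

/-- A boundary simplex lies in a boundary simplex of codimension one. -/
theorem Cell.facet {d : ℕ} {β : Finset V → Prop} (h : Cell G d A β) {s : Finset V}
    (hs : Clq G A s) (hb : β s) : ∃ t, Clq G A t ∧ s ⊆ t ∧ t.card + 1 = d ∧ β t := by
  obtain ⟨h1, h2⟩ := h.link hs
  obtain ⟨t, ht, hc, hb'⟩ := facet_zero_C1 h2 (by rwa [Finset.union_empty])
  obtain ⟨h3, h4⟩ := (clq_lk hs).1 ht
  refine ⟨s ∪ t, h3, Finset.subset_union_left, ?_, hb'⟩
  rw [Finset.card_union_of_disjoint h4]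
  omega

theorem Cell.codim_one {d : ℕ} {β : Finset V → Prop} (h : Cell G d A β) {s : Finset V}
    (hs : Clq G A s) (hc : s.card + 1 = d) :
    (β s ∧ (Lk G A s).ncard = 1) ∨ (¬ β s ∧ (Lk G A s).ncard = 2) := by
  obtain ⟨-, h2⟩ := h.link hs
  rw [show d - s.card = 1 by omega] at h2
  have h3 : β s ↔ (Lk G A s).ncard = 1 := by
    have : β (s ∪ ∅) ↔ _ := h2.2.2.1
    rwa [if_pos rfl, Finset.union_empty] at this
  rcases h2.2.1 with e | e
  · exact Or.inl ⟨h3.2 e, e⟩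
  · exact Or.inr ⟨fun hb => by have := h3.1 hb; omega, e⟩

theorem Ball.interior {d : ℕ} {T : Set V} (h : Ball G d A T) : (A \ T).Nonempty := by
  obtain ⟨t, ht, -, hb⟩ := pure_zero_C1 h
  obtain ⟨a, ha, haT⟩ := Set.not_subset.1 hb
  exact ⟨a, ht.1 ha, haT⟩

theorem Cell.subeq {d : ℕ} {β : Finset V → Prop} {S : Set V} (hS : Cell G d S β)
    (h : Cell G d A β) (hSA : S ⊆ A) : S = A := by
  induction d generalizing S A β with
  | zero => exact hS.1.trans h.1.symm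
  | succ d ih =>
    cases d with
    | zero =>
      refine Set.eq_of_subset_of_ncard_le hSA ?_ h.1
      have h1 : S.ncard = 1 ↔ A.ncard = 1 := by
        have a := hS.2.2.1
        have b := h.2.2.1
        rw [if_pos rfl] at a b
        exact a.symm.trans b
      have h2 : S.ncard = 1 ∨ S.ncard = 2 := hS.2.1
      have h3 : A.ncard = 1 ∨ A.ncard = 2 := h.2.1
      omega
    | succ d =>
      obtain ⟨x, hx⟩ := hS.nonempty
      refine hSA.antisymm (h.con.2.subset_clopen subset_rfl ⟨hSA, fun a ha b hb hab => ?_⟩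
        (hSA hx) hx)
      have e := ih (hS.2.2.2 a ha) (h.2.2.2 a (hSA ha)) (lk_mono_C1 hSA _)
      exact (e ▸ mem_lk_C1.2 ⟨hb, hab⟩ : b ∈ Lk G S {a}).1

theorem Mfa.clopen_of_sub {d : ℕ} {β : Finset V → Prop} {S : Set V} (hS : Mfa G d S β S)
    (h : Mfa G d A β S) (hSA : S ⊆ A) : Clopen G A S := by
  refine ⟨hSA, fun a ha b hb hab => ?_⟩
  have e := (hS a ha).subeq (h a ha) (lk_mono_C1 hSA _)
  exact (e ▸ mem_lk_C1.2 ⟨hb, hab⟩ : b ∈ Lk G S {a}).1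

theorem Mfa.lk_eq {d : ℕ} {β : Finset V → Prop} {S : Set V} {v : V} (hS : Mfa G d S β {v})
    (h : Mfa G d A β {v}) (hSA : S ⊆ A) : Lk G S {v} = Lk G A {v} := by
  exact (hS v rfl).subeq (h v rfl) (lk_mono_C1 hSA _)

theorem Mfa.clopen {d : ℕ} {β : Finset V → Prop} {X : Set V} (h : Mfa G d A β X)
    (hX : Clopen G A X) : Mfa G d X β X := by
  intro v hv
  have e : Lk G X {v} = Lk G A {v} := (lk_mono_C1 hX.1 _).antisymm fun w hw =>
    ⟨hX.2 v hv w hw.1 (hw.2 v rfl), hw.2⟩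
  rw [e]
  exact h v hv

theorem strong_step_C1 {d : ℕ} {β : Finset V → Prop} {Z : Set V} {α : Type} (φ : Finset V → α)
    (ih : ∀ (B : Set V) (γ : Finset V → Prop) (ψ : Finset V → α), Cell G d B γ →
      (∀ s t, Clq G B s → Clq G B t → s.card = d → t.card = d → (s ∩ t).card + 1 = d →
        ψ s = ψ t) → ∀ s t, Clq G B s → Clq G B t → s.card = d → t.card = d → ψ s = ψ t)
    (h : Mfa G d A β Z) (hZ : Z ⊆ A) (hp : Pre G Z)
    (hφ : ∀ s t, Clq G A s → Clq G A t → s.card = d + 1 → t.card = d + 1 → (s ∩ t).card = d →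
      Meets (s ∩ t) Z → φ s = φ t) {s t : Finset V} (hs : Clq G A s) (ht : Clq G A t)
    (hs' : s.card = d + 1) (ht' : t.card = d + 1) (hms : Meets s Z) (hmt : Meets t Z) :
    φ s = φ t := by
  have loc : ∀ v ∈ Z, ∀ s t : Finset V, Clq G A s → Clq G A t → s.card = d + 1 →
      t.card = d + 1 → v ∈ s → v ∈ t → φ s = φ t := by
    intro v hv s t hs ht hs' ht' h1 h2
    have hA := hZ hv
    have k : ∀ r : Finset V, Clq G A r → v ∈ r → Clq G (Lk G A {v}) (r.erase v) := fun r hr h =>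
      (clq_ins_C1 hA).2 ⟨(Finset.insert_erase h).symm ▸ hr, Finset.notMem_erase v r⟩
    have := ih _ _ (fun r => φ (insert v r)) (h v hv) (fun p q hp hq hp' hq' hc => ?_)
      (s.erase v) (t.erase v) (k s hs h1) (k t ht h2)
      (by rw [Finset.card_erase_of_mem h1, hs']; rfl)
      (by rw [Finset.card_erase_of_mem h2, ht']; rfl)
    · rwa [Finset.insert_erase h1, Finset.insert_erase h2] at this
    · obtain ⟨p1, p2⟩ := (clq_ins_C1 hA).1 hp
      obtain ⟨q1, q2⟩ := (clq_ins_C1 hA).1 hq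
      refine hφ _ _ p1 q1 (by rw [Finset.card_insert_of_notMem p2, hp'])
        (by rw [Finset.card_insert_of_notMem q2, hq']) ?_ ⟨v, by simp, hv⟩
      rw [← Finset.insert_inter_distrib,
        Finset.card_insert_of_notMem fun e => p2 (Finset.mem_inter.1 e).1, hc]
  obtain ⟨a, ha, haZ⟩ := hms
  obtain ⟨b, hb, hbZ⟩ := hmt
  have hr := hp a haZ b hbZ
  clear hbZ
  induction hr generalizing t with
  | refl => exact loc a haZ s t hs ht hs' ht' ha hb
  | @tail b c _ hbc ih2 =>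
    obtain ⟨r, hr, h1, h2, -⟩ := h.pure
      (pair_mem_sA (hZ hbc.1) (hZ hbc.2.1) (Or.inr hbc.2.2)).2 ⟨b, by simp, hbc.1⟩
    exact (ih2 hr h2 (h1 (by simp))).trans
      (loc c hbc.2.1 r t hr ht h2 ht' (h1 (by simp)) hb)

/-- Strong connectivity of cells. -/
theorem Cell.strong {d : ℕ} {β : Finset V → Prop} (h : Cell G d A β) {α : Type}
    (φ : Finset V → α) (hφ : ∀ s t, Clq G A s → Clq G A t → s.card = d → t.card = d →
      (s ∩ t).card + 1 = d → φ s = φ t) {s t : Finset V} (hs : Clq G A s) (ht : Clq G A t)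
    (hs' : s.card = d) (ht' : t.card = d) : φ s = φ t := by
  induction d generalizing A β φ s t with
  | zero => rw [Finset.card_eq_zero.1 hs', Finset.card_eq_zero.1 ht']
  | succ d ih =>
    cases d with
    | zero =>
      by_cases e : s = t
      · rw [e]
      refine hφ s t hs ht hs' ht' ?_
      obtain ⟨a, rfl⟩ := Finset.card_eq_one.1 hs'
      obtain ⟨b, rfl⟩ := Finset.card_eq_one.1 ht'
      rw [Finset.singleton_inter_of_notMem fun hab => e (by rw [Finset.mem_singleton.1 hab])]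
      rfl
    | succ d =>
      have hm : ∀ r : Finset V, Clq G A r → r.card = d + 1 + 1 → Meets r A := fun r hr hc =>
        (Finset.card_pos.1 (by omega)).imp fun a ha => ⟨ha, hr.1 ha⟩
      exact strong_step_C1 φ (fun B γ ψ hB hψ s t => ih hB ψ hψ) h.mfa subset_rfl h.con.2
        (fun s t hs ht hs' ht' hc _ => hφ s t hs ht hs' ht' (congrArg (· + 1) hc))
        hs ht hs' ht' (hm s hs hs') (hm t ht ht')

theorem Mfa.strong {d : ℕ} {β : Finset V → Prop} {Z : Set V} (h : Mfa G d A β Z) (hZ : Z ⊆ A)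
    (hp : Pre G Z) {α : Type} (φ : Finset V → α)
    (hφ : ∀ s t, Clq G A s → Clq G A t → s.card = d + 1 → t.card = d + 1 → (s ∩ t).card = d →
      Meets (s ∩ t) Z → φ s = φ t) {s t : Finset V} (hs : Clq G A s) (ht : Clq G A t)
    (hs' : s.card = d + 1) (ht' : t.card = d + 1) (hms : Meets s Z) (hmt : Meets t Z) :
    φ s = φ t := by
  exact strong_step_C1 φ (fun B γ ψ hB hψ s t => hB.strong ψ hψ) h hZ hp hφ hs ht hs' ht' hms hmt

theorem Mfa.lk_finite {d : ℕ} {β : Finset V → Prop} {C : Set V} (h : Mfa G d A β C) {v : V}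
    (hv : v ∈ C) : (Lk G A {v}).Finite := by
  exact (h v hv).finite

end Pool.Agent.MP_6374aa_g

end

section

/-! Equivalences of edge path groupoids: formal properties. -/

namespace Pool.Agent.MP_6374aa_g

open Pool.Agent.MP_6374aa_gt Classical

variable {V V' V'' : Type} {G : SimpleGraph V} {G' : SimpleGraph V'} {G'' : SimpleGraph V''}
  {A : Set V} {A' : Set V'} {A'' : Set V''} {L : Type} [Group L]

theorem gau_unique_P1 {l1 l2 : V → V → L} {k m : V → L} (hk : Gau G A l1 l2 k)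
    (hm : Gau G A l1 l2 m) {a b : V} (h : Reach G A a b) (e : k b = m b) : k a = m a := by
  have key : (k a = m a) = (k b = m b) := by
    refine Reach.const (φ := fun u => k u = m u) (fun u hu w hw huw => propext ?_) h
    have e1 := (hk u hu w hw (Or.inr huw)).symm.trans (hm u hu w hw (Or.inr huw))
    constructor
    · intro e2
      rw [e2] at e1
      exact inv_injective (mul_left_cancel e1)
    · intro e2
      rw [e2] at e1
      exact mul_right_cancel (mul_right_cancel e1)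
  exact key ▸ e

theorem hom_comp_P1 {f : V' → V} {g : V'' → V'} (hf : IsHom G' A' G A f)
    (hg : IsHom G'' A'' G' A' g) : IsHom G'' A'' G A (f ∘ g) :=
  ⟨fun a ha => hf.1 _ (hg.1 a ha), fun a ha b hb h =>
    IsHom.adq hf (hg.1 a ha) (hg.1 b hb) (hg.2 a ha b hb h)⟩

theorem ctg_symm_P1 {f g : V' → V} (h : Ctg G' A' G f g) : Ctg G' A' G g f :=
  ⟨fun u hu => adq_symm (h.1 u hu), fun u hu w hw huw => (h.2 u hu w hw huw).symm⟩

theorem ctg_of_eq_P1 {f g : V' → V} (hf : IsHom G' A' G A f) (h : ∀ a ∈ A', g a = f a) :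
    Ctg G' A' G f g :=
  ⟨fun u hu => Or.inl (h u hu).symm, fun u hu w hw huw => Or.inl (by
    rw [h w hw]
    exact hf.2 u hu w hw huw)⟩

theorem reach_P1 {f : V' → V} (hf : PE G' A' G A f) {a b : V'} (ha : a ∈ A') (hb : b ∈ A')
    (h : Reach G A (f a) (f b)) : Reach G' A' a b := by
  have hk : Gau G' A' (pull f fun _ _ => (1 : Z2)) (pull f fun _ _ => 1)
      fun u => if Reach G' A' a u then 1 else neg := by
    intro u hu w hw huw
    have e : Reach G' A' a u ↔ Reach G' A' a w :=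
      ⟨fun h => h.trans (Reach.single hu hw huw),
        fun h => h.trans (Reach.single hw hu (adq_symm huw))⟩
    simp only [pull, e, mul_one, mul_inv_cancel]
  obtain ⟨k, h1, h2⟩ := hf.full Z2 _ _ _ flat_one flat_one hk
  have e : k (f a) = k (f b) := by
    refine Reach.const (φ := k) (fun u hu w hw huw => ?_) h
    have e1 := h1 u hu w hw (Or.inr huw)
    rw [mul_one] at e1
    exact mul_inv_eq_one.1 e1.symm
  rw [h2 a ha, h2 b hb, if_pos (Reach.refl a)] at e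
  by_contra hn
  rw [if_neg hn] at e
  exact neg_ne_one e.symm

theorem PE.id' : PE G A G A id := by
  exact ⟨⟨fun _ h => h, fun _ _ _ _ h => Or.inr h⟩, fun v hv => ⟨v, hv, Reach.refl v⟩,
    fun L _ lab hl => ⟨lab, fun _ => 1, hl, Gau.refl lab⟩,
    fun L _ l1 l2 k' _ _ h => ⟨k', h, fun _ _ => rfl⟩⟩

theorem PE.comp {f : V' → V} {g : V'' → V'} (hf : PE G' A' G A f) (hg : PE G'' A'' G' A' g) :
    PE G'' A'' G A (f ∘ g) := by
  refine ⟨hom_comp_P1 hf.hom hg.hom, fun v hv => ?_, fun L _ lab hl => ?_,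
    fun L _ l1 l2 k h1 h2 hk => ?_⟩
  · obtain ⟨u, hu, e1⟩ := hf.ess v hv
    obtain ⟨w, hw, e2⟩ := hg.ess u hu
    exact ⟨w, hw, e1.trans (Reach.map hf.hom e2)⟩
  · obtain ⟨l1, k1, h1, e1⟩ := hg.desc L lab hl
    obtain ⟨l2, k2, h2, e2⟩ := hf.desc L l1 h1
    exact ⟨l2, _, h2, e1.trans (e2.pull hg.hom)⟩
  · obtain ⟨k1, e1, e2⟩ := hg.full L (pull f l1) (pull f l2) k (flat_pull h1 hf.hom)
      (flat_pull h2 hf.hom) hk
    obtain ⟨k2, e3, e4⟩ := hf.full L l1 l2 k1 h1 h2 e1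
    exact ⟨k2, e3, fun u hu => (e4 _ (hg.hom.1 u hu)).trans (e2 u hu)⟩

theorem ctg_P1 {f g : V' → V} (hf : PE G' A' G A f) (hg : IsHom G' A' G A g)
    (h : Ctg G' A' G f g) : PE G' A' G A g := by
  refine ⟨hg, fun v hv => ?_, fun L _ lab hl => ?_, fun L _ l1 l2 k h1 h2 hk => ?_⟩
  · obtain ⟨u, hu, e⟩ := hf.ess v hv
    exact ⟨u, hu, e.trans (Reach.single (hf.hom.1 u hu) (hg.1 u hu) (h.1 u hu))⟩
  · obtain ⟨l1, k1, h1, e1⟩ := hf.desc L lab hl
    exact ⟨l1, _, h1, e1.trans (gau_of_ctg h1 hf.hom hg h)⟩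
  · obtain ⟨k1, e1, e2⟩ := hf.full L l1 l2 _ h1 h2
      (((gau_of_ctg h1 hf.hom hg h).trans hk).trans (gau_of_ctg h2 hf.hom hg h).symm)
    refine ⟨k1, e1, fun u hu => ?_⟩
    have e3 := e1 _ (hf.hom.1 u hu) _ (hg.1 u hu) (h.1 u hu)
    rw [e2 u hu, inv_mul_cancel_right, mul_assoc, left_eq_mul, mul_inv_eq_one] at e3
    exact e3.symm

theorem PE.congr {f g : V' → V} (hf : PE G' A' G A f) (h : ∀ a ∈ A', g a = f a) : PE G' A' G A g := by
  refine ctg_P1 hf ⟨fun a ha => ?_, fun a ha b hb hab => ?_⟩ (ctg_of_eq_P1 hf.hom h)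
  · rw [h a ha]
    exact hf.hom.1 a ha
  · rw [h a ha, h b hb]
    exact hf.hom.2 a ha b hb hab

theorem PE.ctg {f g : V' → V} (hf : PE G' A' G A f) (hg : IsHom G' A' G A g)
    (h : Ctg G' A' G f g) : PE G' A' G A g := by
  exact ctg_P1 hf hg h

theorem PE.of_comp_left {f : V' → V} {g : V'' → V'} (hfg : PE G'' A'' G A (f ∘ g))
    (hg : PE G'' A'' G' A' g) (hf : IsHom G' A' G A f) : PE G' A' G A f := by
  refine ⟨hf, fun v hv => ?_, fun L _ lab hl => ?_, fun L _ l1 l2 k h1 h2 hk => ?_⟩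
  · obtain ⟨u, hu, e⟩ := hfg.ess v hv
    exact ⟨g u, hg.hom.1 u hu, e⟩
  · obtain ⟨l1, k1, h1, e1⟩ := hfg.desc L (pull g lab) (flat_pull hl hg.hom)
    obtain ⟨k2, e2, -⟩ := hg.full L lab (pull f l1) k1 hl (flat_pull h1 hf) e1
    exact ⟨l1, k2, h1, e2⟩
  · obtain ⟨k1, e1, e2⟩ := hfg.full L l1 l2 _ h1 h2 (hk.pull hg.hom)
    refine ⟨k1, e1, fun u hu => ?_⟩
    obtain ⟨w, hw, e3⟩ := hg.ess u hu
    exact gau_unique_P1 (e1.pull hf) hk e3 (e2 w hw)

theorem PE.of_comp_right {f : V' → V} {g : V'' → V'} (hfg : PE G'' A'' G A (f ∘ g))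
    (hf : PE G' A' G A f) (hg : IsHom G'' A'' G' A' g) : PE G'' A'' G' A' g := by
  refine ⟨hg, fun v hv => ?_, fun L _ lab hl => ?_, fun L _ l1 l2 k h1 h2 hk => ?_⟩
  · obtain ⟨u, hu, e⟩ := hfg.ess (f v) (hf.hom.1 v hv)
    exact ⟨u, hu, reach_P1 hf hv (hg.1 u hu) e⟩
  · obtain ⟨l1, k1, h1, e1⟩ := hfg.desc L lab hl
    exact ⟨pull f l1, k1, flat_pull h1 hf.hom, e1⟩
  · obtain ⟨m1, k1, f1, e1⟩ := hf.desc L l1 h1
    obtain ⟨m2, k2, f2, e2⟩ := hf.desc L l2 h2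
    obtain ⟨k3, e3, e4⟩ := hfg.full L m1 m2 _ f1 f2
      (((e1.pull hg).symm.trans hk).trans (e2.pull hg))
    refine ⟨_, (e1.trans (e3.pull hf.hom)).trans e2.symm, fun u hu => ?_⟩
    have e5 : k3 (f (g u)) = (k1 (g u))⁻¹ * k u * k2 (g u) := e4 u hu
    show k1 (g u) * k3 (f (g u)) * (k2 (g u))⁻¹ = k u
    rw [e5]
    group

theorem PE.of_inv {f : V' → V} {g : V → V'} (hf : IsHom G' A' G A f) (hg : IsHom G A G' A' g)
    (h1 : Ctg G' A' G' (g ∘ f) id) (h2 : Ctg G A G (f ∘ g) id) : PE G' A' G A f := by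
  have h3 : PE G A G A (f ∘ g) := PE.id'.ctg (hom_comp_P1 hf hg) (ctg_symm_P1 h2)
  have hid : IsHom G' A' G' A' id := ⟨fun _ h => h, fun _ _ _ _ h => Or.inr h⟩
  refine ⟨hf, fun v hv => ?_, fun L _ lab hl => ?_, fun L _ l1 l2 k f1 f2 hk => ?_⟩
  · exact ⟨g v, hg.1 v hv, Reach.single hv (hf.1 _ (hg.1 v hv)) (adq_symm (h2.1 v hv))⟩
  · exact ⟨pull g lab, _, flat_pull hl hg, (gau_of_ctg hl (hom_comp_P1 hg hf) hid h1).symm⟩
  · obtain ⟨k1, e1, e2⟩ := h3.full L l1 l2 _ f1 f2 (hk.pull hg)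
    refine ⟨k1, e1, fun u hu => ?_⟩
    exact gau_unique_P1 (e1.pull hf) hk
      (Reach.single hu (hg.1 _ (hf.1 u hu)) (adq_symm (h1.1 u hu))) (e2 _ (hf.1 u hu))

theorem IsIso.pe {f : V' → V} (hf : IsIso G' A' G A f) : PE G' A' G A f := by
  rcases isEmpty_or_nonempty V' with he | he
  · refine ⟨IsIso.hom hf, fun v hv => ?_,
      fun L _ _ _ => ⟨fun _ _ => 1, fun _ => 1, flat_one, fun u => (he.false u).elim⟩,
      fun L _ _ _ _ _ _ _ => ⟨fun _ => 1, fun v hv => ?_, fun u => (he.false u).elim⟩⟩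
    · obtain ⟨u, -, -⟩ := hf.1.surjOn hv
      exact (he.false u).elim
    · obtain ⟨u, -, -⟩ := hf.1.surjOn hv
      exact (he.false u).elim
  · obtain ⟨g, hg, e1, e2⟩ := IsIso.symm' hf
    exact PE.of_inv (IsIso.hom hf) (IsIso.hom hg)
      (ctg_of_eq_P1 (hom_comp_P1 (IsIso.hom hg) (IsIso.hom hf)) fun a ha => (e1 a ha).symm)
      (ctg_of_eq_P1 (hom_comp_P1 (IsIso.hom hf) (IsIso.hom hg)) fun a ha => (e2 a ha).symm)

theorem PE.reach {f : V' → V} (hf : PE G' A' G A f) {a b : V'} (ha : a ∈ A') (hb : b ∈ A')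
    (h : Reach G A (f a) (f b)) : Reach G' A' a b := by
  exact reach_P1 hf ha hb h

theorem PE.pre {f : V' → V} (hf : PE G' A' G A f) : Pre G' A' ↔ Pre G A := by
  constructor
  · intro h v hv w hw
    obtain ⟨a, ha, e1⟩ := hf.ess v hv
    obtain ⟨b, hb, e2⟩ := hf.ess w hw
    exact (e1.trans (Reach.map hf.hom (h a ha b hb))).trans e2.symm
  · exact fun h a ha b hb => hf.reach ha hb (h _ (hf.hom.1 a ha) _ (hf.hom.1 b hb))

theorem PE.con {f : V' → V} (hf : PE G' A' G A f) : Con G' A' ↔ Con G A := by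
  refine and_congr ⟨fun ⟨a, ha⟩ => ⟨f a, hf.hom.1 a ha⟩, fun ⟨v, hv⟩ => ?_⟩ hf.pre
  obtain ⟨u, hu, -⟩ := hf.ess v hv
  exact ⟨u, hu⟩

theorem PE.pot {f : V' → V} (hf : PE G' A' G A f) {lab : V → V → L} (hl : Flat G A lab) :
    Pot G' A' (pull f lab) ↔ Pot G A lab := by
  refine ⟨fun ⟨p, hp⟩ => ?_, fun h => h.pull hf.hom⟩
  obtain ⟨k, e, -⟩ := hf.full L lab (fun _ _ => 1) p hl flat_one fun u hu w hw huw => by
    rw [hp u hu w hw huw]
    simp only [pull, mul_one]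
  exact ⟨k, fun u hu w hw huw => by rw [e u hu w hw huw, mul_one]⟩

theorem PE.triv {f : V' → V} (hf : PE G' A' G A f) : Triv L G' A' ↔ Triv L G A := by
  refine ⟨fun h lab hl => (hf.pot hl).1 (h _ (flat_pull hl hf.hom)), fun h lab hl => ?_⟩
  obtain ⟨l1, k, h1, e⟩ := hf.desc L lab hl
  exact e.pot ((h l1 h1).pull hf.hom)

theorem PE.sco {f : V' → V} (hf : PE G' A' G A f) : SCo G' A' ↔ SCo G A := by
  exact ⟨fun h L _ => hf.triv.1 (h L), fun h L _ => hf.triv.2 (h L)⟩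

theorem PE.rk {f : V' → V} (hf : PE G' A' G A f) {n : ℕ} : Rk G' A' n ↔ Rk G A n := by
  constructor
  · intro h θ hθ
    obtain ⟨S, hS, hp⟩ := h (fun i => pull f (θ i)) fun i => flat_pull (hθ i) hf.hom
    exact ⟨S, hS, (hf.pot (flat_prod S fun i _ => hθ i)).1 hp⟩
  · intro h θ hθ
    choose η k h1 h2 using fun i => hf.desc Z2 (θ i) (hθ i)
    obtain ⟨S, hS, hp⟩ := h η h1
    refine ⟨S, hS, Gau.pot (k := fun u => ∏ i ∈ S, k i u) (fun u hu w hw huw => ?_)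
      (hp.pull hf.hom)⟩
    show ∏ i ∈ S, θ i u w = (∏ i ∈ S, k i u) * (∏ i ∈ S, η i (f u) (f w)) * (∏ i ∈ S, k i w)⁻¹
    rw [← Finset.prod_inv_distrib, ← Finset.prod_mul_distrib, ← Finset.prod_mul_distrib]
    exact Finset.prod_congr rfl fun i _ => h2 i u hu w hw huw

theorem PE.null {f : V' → V} (hf : PE G' A' G A f) {a : V'} {l : List V'} (hw : Wk G' A' a l a)
    (h : Null G A (f a) (l.map f)) : Null G' A' a l := by
  intro L _ lab hl
  obtain ⟨l1, k, h1, e⟩ := hf.desc L lab hl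
  rw [ev_gau e hw, ev_pull, h L l1 h1, mul_one, mul_inv_cancel]

theorem lift_P1 {f : V' → V} (hf : PE G' A' G A f) {a b : V'} (ha : a ∈ A') (hb : b ∈ A')
    {l : List V} (hw : Wk G A (f a) l (f b)) {ρ : V → V → L} (hρ : Flat G A ρ) :
    ∃ l', Wk G' A' a l' b ∧ ev ρ (f a) (l'.map f) = ev ρ (f a) l := by
  let S : V' → L → Prop := fun u g => ∃ l', Wk G' A' u l' b ∧ ev ρ (f u) (l'.map f) = g
  let n : V' → L → Z2 := fun u g => if S u g then neg else 1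
  let φ : L →* MulAut (L → Z2) := mulAutArrow
  have hφ : ∀ (g : L) (F : L → Z2) (x : L), φ g F x = F (g⁻¹ * x) := fun _ _ _ => rfl
  let T : L →* (L → Z2) ⋊[φ] L := SemidirectProduct.inr
  have hS : ∀ u ∈ A', ∀ w ∈ A', Adq G' u w → ∀ g, S w g → S u (ρ (f u) (f w) * g) := by
    rintro u hu w - huw _ ⟨m, hm, rfl⟩
    exact ⟨w :: m, Wk.cons hu huw hm, rfl⟩
  have hn : ∀ u ∈ A', ∀ w ∈ A', Adq G' u w → n u = φ (ρ (f u) (f w)) (n w) := by
    intro u hu w hw huw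
    funext g
    have e : S u g ↔ S w ((ρ (f u) (f w))⁻¹ * g) := by
      constructor
      · intro h
        rw [← hρ.symm (hf.hom.1 u hu) (hf.hom.1 w hw) (IsHom.adq hf.hom hu hw huw)]
        exact hS w hw u hu (adq_symm huw) g h
      · intro h
        have h2 := hS u hu w hw huw _ h
        rwa [mul_inv_cancel_left] at h2
    rw [hφ]
    simp only [n, e]
  have hk : Gau G' A' (pull f fun u w => T (ρ u w)) (pull f fun u w => T (ρ u w))
      fun u => SemidirectProduct.inl (n u) := by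
    intro u hu w hw huw
    show T (ρ (f u) (f w)) = SemidirectProduct.inl (n u) * T (ρ (f u) (f w)) *
      (SemidirectProduct.inl (n w))⁻¹
    rw [hn u hu w hw huw, SemidirectProduct.inl_aut, map_inv]
    simp only [T]
    group
  obtain ⟨k, e1, e2⟩ := hf.full _ _ _ _ (hρ.map T) (hρ.map T) hk
  have e3 := ev_gau e1 hw
  rw [ev_hom, e2 a ha, e2 b hb] at e3
  have e4 : (SemidirectProduct.inl (n a) : (L → Z2) ⋊[φ] L) =
      SemidirectProduct.inl (φ (ev ρ (f a) l) (n b)) := by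
    rw [SemidirectProduct.inl_aut, map_inv, eq_mul_inv_iff_mul_eq, ← mul_inv_eq_iff_eq_mul]
    exact e3.symm
  have e5 := congrFun (SemidirectProduct.inl_injective e4) (ev ρ (f a) l)
  have h1 : S b 1 := ⟨[], Wk.nil hb, rfl⟩
  rw [hφ, inv_mul_cancel] at e5
  simp only [n, if_pos h1] at e5
  by_contra hc
  rw [if_neg hc] at e5
  exact neg_ne_one e5.symm

/-- Walks lift up to homotopy. -/
theorem PE.lift {f : V' → V} (hf : PE G' A' G A f) {a b : V'} (ha : a ∈ A') (hb : b ∈ A')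
    {l : List V} (hw : Wk G A (f a) l (f b)) :
    ∃ l', Wk G' A' a l' b ∧ ∀ (L : Type) [Group L] (lab : V → V → L), Flat G A lab →
      ev lab (f a) (l'.map f) = ev lab (f a) l := by
  obtain ⟨l', h1, h2⟩ := lift_P1 hf ha hb hw (flat_gen G A)
  exact ⟨l', h1, fun L _ lab hl => by rw [← ev_gen hl, h2, ev_gen hl]⟩

theorem PE.extl {Y : Set V} (h : PE G Y G A id) : Extl G Y A := by
  refine ⟨fun y hy => h.hom.1 y hy, fun L _ lab hl => ?_⟩
  obtain ⟨l1, k, h1, e⟩ := h.desc L lab hl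
  exact ⟨_, h1.gauge k, fun u hu w hw huw => (e u hu w hw huw).symm⟩

theorem PE.dom {f : V' → V} (hf : PE G' A' G A f) {ρ : V → V → L} (hρ : Flat G A ρ) {L' : Type}
    [Group L'] {lab : V → V → L'} (hl : Flat G A lab)
    (h : Dom G' A' (pull f ρ) (pull f lab)) : Dom G A ρ lab := by
  obtain ⟨T, k, hk⟩ := h
  obtain ⟨k1, e, -⟩ := hf.full L' lab (fun u w => T (ρ u w)) k hl (hρ.map T) hk
  exact ⟨T, k1, e⟩

end Pool.Agent.MP_6374aa_g

end

section

/-! Fibre lemmas and retractions. -/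

namespace Pool.Agent.MP_6374aa_g

open Pool.Agent.MP_6374aa_gt Classical

variable {V V' V'' : Type} {G : SimpleGraph V} {G' : SimpleGraph V'} {G'' : SimpleGraph V''}
  {A : Set V} {A' : Set V'} {A'' : Set V''} {L : Type} [Group L]

theorem choose_P2 {α β : Type} [Nonempty β] {S : α → Prop} {R : α → β → Prop}
    (h : ∀ a, S a → ∃ b, R a b) : ∃ x : α → β, ∀ a, S a → R a (x a) :=
  ⟨fun a => Classical.epsilon (R a), fun a ha => Classical.epsilon_spec (h a ha)⟩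

/-- A map with a good cover of the source indexed by the vertices of the target. -/
theorem cover_P2 {f : V' → V} (hf : IsHom G' A' G A f) (U : V → Set V')
    (h0 : ∀ v ∈ A, U v ⊆ A') (h1 : ∀ v ∈ A, SCo G' (U v))
    (h2 : ∀ v ∈ A, ∀ u ∈ U v, Adq G v (f u)) (h3 : ∀ u ∈ A', u ∈ U (f u))
    (h4 : ∀ u ∈ A', ∀ w ∈ A', Adq G' u w → w ∈ U (f u) ∨ u ∈ U (f w))
    (h5 : ∀ a ∈ A, ∀ b ∈ A, Adq G a b → Pre G' (U a ∩ U b))
    (h6 : ∀ a ∈ A, ∀ b ∈ A, ∀ c ∈ A, Adq G a b → Adq G b c → Adq G a c →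
      ∃ u, u ∈ U a ∧ u ∈ U b ∧ u ∈ U c) : PE G' A' G A f := by
  have h7 : ∀ a ∈ A, ∀ b ∈ A, Adq G a b → ∃ u, u ∈ U a ∧ u ∈ U b := fun a ha b hb h =>
    (h6 a ha b hb b hb h (adq_refl b) h).imp fun _ k => ⟨k.1, k.2.1⟩
  have h8 : ∀ a ∈ A, Pre G' (U a) := fun a ha => by
    simpa only [Set.inter_self] using h5 a ha a ha (adq_refl a)
  refine ⟨hf, fun v hv => ?_, fun L _ lab' hl => ?_, fun L _ l1 l2 k' e1 e2 hk => ?_⟩
  · obtain ⟨u, hu, -⟩ := h7 v hv v hv (adq_refl v)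
    exact ⟨u, h0 v hv hu, Reach.single hv (hf.1 u (h0 v hv hu)) (h2 v hv u hu)⟩
  · obtain ⟨p, hp⟩ := choose_P2 (S := fun v => v ∈ A)
      (R := fun v (q : V' → L) => ∀ u ∈ U v, ∀ w ∈ U v, Adq G' u w → lab' u w = q u * (q w)⁻¹)
      fun v hv => h1 v hv L lab' (hl.mono (h0 v hv))
    obtain ⟨c, hc⟩ := choose_P2 (S := fun e : V × V => e.1 ∈ A ∧ e.2 ∈ A ∧ Adq G e.1 e.2)
      (R := fun e (g : L) => ∀ u ∈ U e.1, u ∈ U e.2 → g = (p e.1 u)⁻¹ * p e.2 u)
      fun e he => by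
        obtain ⟨x, x1, x2⟩ := h7 _ he.1 _ he.2.1 he.2.2
        refine ⟨_, fun u u1 u2 => pot_unique (h5 _ he.1 _ he.2.1 he.2.2) (fun a ha b hb h => ?_)
          ⟨x1, x2⟩ ⟨u1, u2⟩⟩
        rw [← hp _ he.1 a ha.1 b hb.1 (Or.inr h), ← hp _ he.2.1 a ha.2 b hb.2 (Or.inr h)]
    refine ⟨fun a b => c (a, b), fun u => p (f u) u, fun a ha b hb d hd k1 k2 k3 => ?_,
      fun u hu w hw h => ?_⟩
    · obtain ⟨u, u1, u2, u3⟩ := h6 a ha b hb d hd k1 k2 k3
      have a1 := hc (a, b) ⟨ha, hb, k1⟩ u u1 u2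
      have a2 := hc (b, d) ⟨hb, hd, k2⟩ u u2 u3
      have a3 := hc (a, d) ⟨ha, hd, k3⟩ u u1 u3
      beta_reduce
      rw [a1, a2, a3]
      group
    · have k := hc (f u, f w) ⟨hf.1 u hu, hf.1 w hw, hf.adq hu hw h⟩
      change lab' u w = p (f u) u * c (f u, f w) * (p (f w) w)⁻¹
      rcases h4 u hu w hw h with e | e
      · rw [k w e (h3 w hw), hp _ (hf.1 u hu) u (h3 u hu) w e h]
        group
      · rw [k u (h3 u hu) e, hp _ (hf.1 w hw) u e w (h3 w hw) h]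
        group
  · obtain ⟨k, hc⟩ := choose_P2 (S := fun v => v ∈ A)
      (R := fun v (g : L) => ∀ u ∈ U v, g = l1 v (f u) * k' u * (l2 v (f u))⁻¹) fun v hv => by
        obtain ⟨x, x1, -⟩ := h7 v hv v hv (adq_refl v)
        refine ⟨_, fun u u1 => (h8 v hv).const
          (φ := fun u => l1 v (f u) * k' u * (l2 v (f u))⁻¹) (fun a ha b hb h => ?_) x1 u1⟩
        have a0 := h0 v hv ha
        have b0 := h0 v hv hb
        have ab := hf.adq a0 b0 (Or.inr h)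
        have a1 := e1 v hv _ (hf.1 a a0) _ (hf.1 b b0) (h2 v hv a ha) ab (h2 v hv b hb)
        have a2 := e2 v hv _ (hf.1 a a0) _ (hf.1 b b0) (h2 v hv a ha) ab (h2 v hv b hb)
        have a3 : l1 (f a) (f b) = k' a * l2 (f a) (f b) * (k' b)⁻¹ := hk a a0 b b0 (Or.inr h)
        rw [← a1, ← a2, a3]
        group
    refine ⟨k, fun a ha b hb h => ?_, fun u hu => ?_⟩
    · obtain ⟨u, u1, u2⟩ := h7 a ha b hb h
      have u0 := hf.1 u (h0 a ha u1)
      have a1 := e1 a ha b hb _ u0 h (h2 b hb u u2) (h2 a ha u u1)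
      have a2 := e2 a ha b hb _ u0 h (h2 b hb u u2) (h2 a ha u u1)
      rw [hc a ha u u1, hc b hb u u2, ← a1, ← a2]
      group
    · rw [hc _ (hf.1 u hu) u (h3 u hu), e1.self (hf.1 u hu), e2.self (hf.1 u hu)]
      group

theorem qa_P2 {f : V' → V} (hf : IsHom G' A' G A f) (R : V → V → Prop) (r1 : ∀ a, R a a)
    (r2 : ∀ a b c, R a b → R b c → R a c) (r3 : ∀ a b, Adq G a b ↔ R a b ∨ R b a)
    (h : ∀ v ∈ A, Con G' {u | u ∈ A' ∧ R v (f u)} ∧ SCo G' {u | u ∈ A' ∧ R v (f u)}) :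
    PE G' A' G A f := by
  have key : ∀ a b m, R a m → R b m → ∀ c, R c m → m ∈ A → ∃ u, u ∈ {u | u ∈ A' ∧ R a (f u)} ∧
      u ∈ {u | u ∈ A' ∧ R b (f u)} ∧ u ∈ {u | u ∈ A' ∧ R c (f u)} := fun a b m k1 k2 c k3 hm => by
    obtain ⟨u, u1, u2⟩ := (h m hm).1.1
    exact ⟨u, ⟨u1, r2 _ _ _ k1 u2⟩, ⟨u1, r2 _ _ _ k2 u2⟩, u1, r2 _ _ _ k3 u2⟩
  refine cover_P2 hf (fun v => {u | u ∈ A' ∧ R v (f u)}) (fun v _ u hu => hu.1)
    (fun v hv => (h v hv).2) (fun v _ u hu => (r3 _ _).2 (Or.inl hu.2)) (fun u hu => ⟨hu, r1 _⟩)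
    (fun u hu w hw e => ((r3 _ _).1 (hf.adq hu hw e)).imp (fun k => ⟨hw, k⟩) fun k => ⟨hu, k⟩)
    (fun a ha b hb e => ?_) fun a ha b hb c hc e1 e2 e3 => ?_
  · rcases (r3 _ _).1 e with k | k
    · have k' : {u | u ∈ A' ∧ R b (f u)} ⊆ {u | u ∈ A' ∧ R a (f u)} :=
        fun u hu => ⟨hu.1, r2 _ _ _ k hu.2⟩
      rw [Set.inter_eq_right.2 k']
      exact (h b hb).1.2
    · have k' : {u | u ∈ A' ∧ R a (f u)} ⊆ {u | u ∈ A' ∧ R b (f u)} :=
        fun u hu => ⟨hu.1, r2 _ _ _ k hu.2⟩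
      rw [Set.inter_eq_left.2 k']
      exact (h a ha).1.2
  · rcases (r3 _ _).1 e1 with k1 | k1
    · rcases (r3 _ _).1 e2 with k2 | k2
      · exact key a b c (r2 _ _ _ k1 k2) k2 c (r1 c) hc
      · exact key a b b k1 (r1 b) c k2 hb
    · rcases (r3 _ _).1 e3 with k3 | k3
      · exact key a b c k3 (r2 _ _ _ k1 k3) c (r1 c) hc
      · exact key a b a (r1 a) k1 c k3 ha

theorem qa0_P2 {f : V' → V} (hf : IsHom G' A' G A f) (R : V → V → Prop) (r1 : ∀ a, R a a)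
    (r2 : ∀ a b c, R a b → R b c → R a c) (r3 : ∀ a b, Adq G a b ↔ R a b ∨ R b a)
    (h : ∀ v ∈ A, Con G' {u | u ∈ A' ∧ R v (f u)}) (hA : Con G A) : Con G' A' := by
  obtain ⟨v, hv⟩ := hA.1
  obtain ⟨x, hx⟩ := (h v hv).1
  refine ⟨⟨x, hx.1⟩, pre_of_fibres hA.2 (fun v => {u | u ∈ A' ∧ R v (f u)})
    (fun a ha => ⟨fun u hu => hu.1, h a ha⟩) (fun a ha b hb e => ?_)
    fun y hy => ⟨f y, hf.1 y hy, y, ⟨hy, r1 _⟩, Reach.refl y⟩⟩
  rcases (r3 _ _).1 (Or.inr e) with k | k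
  · obtain ⟨u, hu⟩ := (h b hb).1
    exact ⟨u, ⟨hu.1, r2 _ _ _ k hu.2⟩, u, hu, Reach.refl u⟩
  · obtain ⟨u, hu⟩ := (h a ha).1
    exact ⟨u, hu, u, ⟨hu.1, r2 _ _ _ k hu.2⟩, Reach.refl u⟩

/-- Quillen A with upper fibres. -/
theorem qa_up {P : Set (Finset V)} {f : V' → Finset V} (hf : IsHom G' A' (sG V) P f)
    (h : ∀ σ ∈ P, Con G' {u | u ∈ A' ∧ σ ⊆ f u} ∧ SCo G' {u | u ∈ A' ∧ σ ⊆ f u}) :
    PE G' A' (sG V) P f :=
  qa_P2 hf (fun s t => s ⊆ t) (fun _ => Finset.Subset.refl _) (fun _ _ _ => Finset.Subset.trans)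
    (fun _ _ => adq_sG) h

/-- Quillen A with lower fibres. -/
theorem qa_down {P : Set (Finset V)} {f : V' → Finset V} (hf : IsHom G' A' (sG V) P f)
    (h : ∀ σ ∈ P, Con G' {u | u ∈ A' ∧ f u ⊆ σ} ∧ SCo G' {u | u ∈ A' ∧ f u ⊆ σ}) :
    PE G' A' (sG V) P f :=
  qa_P2 hf (fun s t => t ⊆ s) (fun _ => Finset.Subset.refl _)
    (fun _ _ _ a b => Finset.Subset.trans b a) (fun _ _ => adq_sG.trans or_comm) h

theorem qa0_up {P : Set (Finset V)} {f : V' → Finset V} (hf : IsHom G' A' (sG V) P f)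
    (h : ∀ σ ∈ P, Con G' {u | u ∈ A' ∧ σ ⊆ f u}) (hP : Con (sG V) P) : Con G' A' :=
  qa0_P2 hf (fun s t => s ⊆ t) (fun _ => Finset.Subset.refl _) (fun _ _ _ => Finset.Subset.trans)
    (fun _ _ => adq_sG) h hP

theorem qa0_down {P : Set (Finset V)} {f : V' → Finset V} (hf : IsHom G' A' (sG V) P f)
    (h : ∀ σ ∈ P, Con G' {u | u ∈ A' ∧ f u ⊆ σ}) (hP : Con (sG V) P) : Con G' A' :=
  qa0_P2 hf (fun s t => t ⊆ s) (fun _ => Finset.Subset.refl _)
    (fun _ _ _ a b => Finset.Subset.trans b a) (fun _ _ => adq_sG.trans or_comm) h hP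

theorem ret_P2 {P P0 : Set (Finset V)} {r : Finset V → Finset V} (h0 : P0 ⊆ P)
    (h1 : ∀ s ∈ P, r s ∈ P0) (h2 : ∀ s ∈ P, ∀ t ∈ P, s ⊆ t → r s ⊆ r t)
    (h3 : ∀ s ∈ P0, r s = s) (h4 : Ctg (sG V) P (sG V) r id) :
    PE (sG V) P0 (sG V) P id ∧ PE (sG V) P (sG V) P0 r := by
  have i1 : IsHom (sG V) P0 (sG V) P id := ⟨fun _ h => h0 h, fun _ _ _ _ h => Or.inr h⟩
  have i2 : IsHom (sG V) P (sG V) P0 r := isHom_of_mono h1 h2
  have c : Ctg (sG V) P0 (sG V) r id :=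
    ⟨fun u hu => Or.inl (h3 u hu), fun u hu w _ h => Or.inl (by rw [h3 u hu]; exact Or.inr h)⟩
  exact ⟨PE.of_inv i1 i2 c h4, PE.of_inv i2 i1 h4 c⟩

/-- A monotone retraction below the identity. -/
theorem ret_down {P P0 : Set (Finset V)} {r : Finset V → Finset V} (h0 : P0 ⊆ P)
    (h1 : ∀ s ∈ P, r s ∈ P0 ∧ r s ⊆ s) (h2 : ∀ s ∈ P, ∀ t ∈ P, s ⊆ t → r s ⊆ r t)
    (h3 : ∀ s ∈ P0, r s = s) : PE (sG V) P0 (sG V) P id ∧ PE (sG V) P (sG V) P0 r :=
  ret_P2 h0 (fun s hs => (h1 s hs).1) h2 h3 ⟨fun u hu => adq_sG.2 (Or.inl (h1 u hu).2),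
    fun u hu w hw h => (adq_sG.1 (Or.inr h)).imp
      (fun k => adq_sG.2 (Or.inl ((h1 u hu).2.trans k)))
      fun k => adq_sG.2 (Or.inr ((h1 w hw).2.trans k))⟩

/-- A monotone retraction above the identity. -/
theorem ret_up {P P0 : Set (Finset V)} {r : Finset V → Finset V} (h0 : P0 ⊆ P)
    (h1 : ∀ s ∈ P, r s ∈ P0 ∧ s ⊆ r s) (h2 : ∀ s ∈ P, ∀ t ∈ P, s ⊆ t → r s ⊆ r t)
    (h3 : ∀ s ∈ P0, r s = s) : PE (sG V) P0 (sG V) P id ∧ PE (sG V) P (sG V) P0 r :=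
  ret_P2 h0 (fun s hs => (h1 s hs).1) h2 h3 ⟨fun u hu => adq_sG.2 (Or.inr (h1 u hu).2),
    fun u hu w hw h => (adq_sG.1 (Or.inr h)).symm.imp
      (fun k => adq_sG.2 (Or.inr (k.trans (h1 u hu).2)))
      fun k => adq_sG.2 (Or.inl (k.trans (h1 w hw).2))⟩

theorem nb_pe_P2 {Q : Set V} {π : Finset V → V} (hπ : ∀ s ∈ nb G A Q, π s ∈ s ∧ π s ∈ Q) :
    PE (sG V) (nb G A Q) G (A ∩ Q) π := by
  have hf : IsHom (sG V) (nb G A Q) G (A ∩ Q) π :=
    isHom_pick (G := G) (A := A) (fun s hs => hs.1) fun s hs =>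
      ⟨(hπ s hs).1, hs.1.2.1 (hπ s hs).1, (hπ s hs).2⟩
  refine cover_P2 hf (fun v => {s | s ∈ nb G A Q ∧ v ∈ s}) (fun v _ s hs => hs.1)
    (fun v hv => ?_) (fun v _ s hs => (mem_sA.1 hs.1.1).2.2 v hs.2 _ (hπ s hs.1).1)
    (fun s hs => ⟨hs, (hπ s hs).1⟩)
    (fun s hs t ht e => (adq_sG.1 e).imp (fun k => ⟨ht, k (hπ s hs).1⟩)
      fun k => ⟨hs, k (hπ t ht).1⟩) (fun a ha b hb e => ?_) fun a ha b hb c hc e1 e2 e3 => ?_
  · refine (cone_sco (a := {v}) ?_ fun s hs => ?_).2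
    · exact ⟨⟨singleton_mem_sA.2 hv.1, v, Finset.mem_singleton_self v, hv.2⟩,
        Finset.mem_singleton_self v⟩
    · exact adq_sG.2 (Or.inl (Finset.singleton_subset_iff.2 hs.2))
  · have m : ({a, b} : Finset V) ∈ nb G A Q := ⟨pair_mem_sA ha.1 hb.1 e, a, by simp, ha.2⟩
    refine (cone_sco (a := {a, b}) ?_ fun s hs => ?_).1.2
    · exact ⟨⟨m, by simp⟩, m, by simp⟩
    · exact adq_sG.2
        (Or.inl (Finset.insert_subset hs.1.2 (Finset.singleton_subset_iff.2 hs.2.2)))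
  · have m : ({a, b, c} : Finset V) ∈ nb G A Q :=
      ⟨tri_mem_B3 ha.1 hb.1 hc.1 e1 e2 e3, a, by simp, ha.2⟩
    exact ⟨{a, b, c}, ⟨m, by simp⟩, ⟨m, by simp⟩, m, by simp⟩

theorem sd_pe {π : Finset V → V} (hπ : ∀ s ∈ sA G A, π s ∈ s) : PE (sG V) (sA G A) G A π := by
  have h := nb_pe_P2 (G := G) (A := A) (Q := Set.univ) (π := π)
    fun s hs => ⟨hπ s hs.1, trivial⟩
  rwa [nb_univ_B4, Set.inter_univ] at h

theorem nb_pe {Q : Set V} {π : Finset V → V} (hπ : ∀ s ∈ nb G A Q, π s ∈ s ∧ π s ∈ Q) :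
    PE (sG V) (nb G A Q) G (A ∩ Q) π :=
  nb_pe_P2 hπ

theorem sA_nb_pe (Q : Set V) : PE (sG V) (sA G (A ∩ Q)) (sG V) (nb G A Q) id := by
  refine (ret_down (r := fun s => s.filter (· ∈ Q)) (fun s hs => ?_) (fun s hs => ?_)
    (fun s _ t _ h => Finset.filter_subset_filter _ h) fun s hs => ?_).1
  · obtain ⟨v, hv⟩ := hs.1
    exact ⟨sA_mono Set.inter_subset_left hs, v, hv, (hs.2.1 hv).2⟩
  · obtain ⟨v, hv, hq⟩ := hs.2
    refine ⟨?_, Finset.filter_subset _ _⟩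
    rw [sA_inter]
    exact ⟨sA_down hs.1 (Finset.filter_subset _ _) ⟨v, Finset.mem_filter.2 ⟨hv, hq⟩⟩,
      fun x hx => (Finset.mem_filter.1 hx).2⟩
  · exact Finset.filter_true_of_mem fun x hx => (hs.2.1 hx).2

theorem top_pe (P : Set (Finset V)) : PE (sG (Finset V)) (sA (sG V) P) (sG V) P top :=
  sd_pe fun _ hs => top_mem hs

theorem pe_empty_P2 {f : V' → V} (h' : ∀ a, a ∉ A') (h : ∀ a, a ∉ A) : PE G' A' G A f :=
  ⟨⟨fun a ha => (h' a ha).elim, fun a ha => (h' a ha).elim⟩, fun a ha => (h a ha).elim,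
    fun _ _ _ _ => ⟨fun _ _ => 1, fun _ => 1, flat_one, fun a ha => (h' a ha).elim⟩,
    fun _ _ _ _ _ _ _ _ => ⟨fun _ => 1, fun a ha => (h a ha).elim, fun a ha => (h' a ha).elim⟩⟩

theorem nb_or_P2 (Q : Set V) : (∃ π, PE (sG V) (nb G A Q) G (A ∩ Q) π) ∨
    ∃ f, PE G (A ∩ Q) (sG V) (nb G A Q) f := by
  rcases isEmpty_or_nonempty V with h | h
  · exact Or.inr ⟨fun a => {a}, pe_empty_P2 (fun a => h.elim a) fun s hs => h.elim hs.2.choose⟩
  · exact Or.inl ⟨pk Q, nb_pe fun s hs => ⟨pk_mem Q hs.1.1, pk_mem_B hs.2⟩⟩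

theorem sA_or_P2 : (∃ π, PE (sG V) (sA G A) G A π) ∨ ∃ f, PE G A (sG V) (sA G A) f := by
  have h := nb_or_P2 (G := G) (A := A) Set.univ
  rwa [nb_univ_B4, Set.inter_univ] at h

theorem triv_sA : Triv L (sG V) (sA G A) ↔ Triv L G A :=
  sA_or_P2.elim (fun ⟨_, h⟩ => h.triv) fun ⟨_, h⟩ => h.triv.symm

theorem sco_sA : SCo (sG V) (sA G A) ↔ SCo G A :=
  sA_or_P2.elim (fun ⟨_, h⟩ => h.sco) fun ⟨_, h⟩ => h.sco.symm

theorem triv_nb {Q : Set V} : Triv L (sG V) (nb G A Q) ↔ Triv L G (A ∩ Q) :=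
  (nb_or_P2 Q).elim (fun ⟨_, h⟩ => h.triv) fun ⟨_, h⟩ => h.triv.symm

theorem sco_nb {Q : Set V} : SCo (sG V) (nb G A Q) ↔ SCo G (A ∩ Q) :=
  (nb_or_P2 Q).elim (fun ⟨_, h⟩ => h.sco) fun ⟨_, h⟩ => h.sco.symm

theorem rk_sA {n : ℕ} : Rk (sG V) (sA G A) n ↔ Rk G A n :=
  sA_or_P2.elim (fun ⟨_, h⟩ => h.rk) fun ⟨_, h⟩ => h.rk.symm

theorem null_sdw {a : V} {l : List V} (hw : Wk G A a l a) (h : Null G A a l) :
    Null (sG V) (sA G A) {a} (sdw a l) := by
  have : Nonempty V := ⟨a⟩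
  have hπ : ∀ s ∈ sA G A, pk Set.univ s ∈ s := fun s hs => pk_mem _ hs.1
  refine (sd_pe hπ).null (sdw_wk hw) fun L _ lab hl => ?_
  rw [← ev_pull, ev_sdw hl hπ hw]
  exact h L lab hl

theorem star_P2 {T : Set V} (hT : ∀ a ∈ T, ∀ b ∈ T, ¬ G.Adj a b) {v : V} (hv : v ∈ T) :
    {u | u ∈ A \ T ∧ Adq G v u} = Lk G A {v} := by
  ext u
  constructor
  · rintro ⟨⟨h1, h2⟩, h3⟩
    refine ⟨h1, fun x hx => ?_⟩
    rw [Set.mem_singleton_iff.1 hx]
    exact h3.resolve_left fun e => h2 (e ▸ hv)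
  · rintro ⟨h1, h2⟩
    exact ⟨⟨h1, fun k => hT v hv u k (h2 v rfl)⟩, Or.inr (h2 v rfl)⟩

theorem star_cone_P2 {T : Set V} {v : V} (hv : v ∈ A) (h : v ∉ T) :
    Con G {u | u ∈ A \ T ∧ Adq G v u} ∧ SCo G {u | u ∈ A \ T ∧ Adq G v u} :=
  cone_sco (a := v) ⟨⟨hv, h⟩, adq_refl v⟩ fun _ hx => hx.2

theorem rem_many_P2 {T : Set V} (hT : ∀ a ∈ T, ∀ b ∈ T, ¬ G.Adj a b)
    (h : ∀ v ∈ A ∩ T, Con G (Lk G A {v}) ∧ SCo G (Lk G A {v})) : PE G (A \ T) G A id := by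
  have key : ∀ v ∈ A,
      Con G {u | u ∈ A \ T ∧ Adq G v u} ∧ SCo G {u | u ∈ A \ T ∧ Adq G v u} := fun v hv => by
    by_cases k : v ∈ T
    · rw [star_P2 hT k]
      exact h v ⟨hv, k⟩
    · exact star_cone_P2 hv k
  have eq : ∀ a ∈ T, ∀ b ∈ T, Adq G a b → a = b := fun a ha b hb e =>
    e.resolve_right (hT a ha b hb)
  refine cover_P2 ⟨fun a ha => ha.1, fun _ _ _ _ e => Or.inr e⟩
    (fun v => {u | u ∈ A \ T ∧ Adq G v u}) (fun v _ u hu => hu.1) (fun v hv => (key v hv).2)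
    (fun v _ u hu => hu.2) (fun u hu => ⟨hu, adq_refl u⟩) (fun u _ w hw e => Or.inl ⟨hw, e⟩)
    (fun a ha b hb e => ?_) fun a ha b hb c hc e1 e2 e3 => ?_
  · by_cases k : a ∈ T
    · by_cases k' : b ∈ T
      · rw [eq a k b k' e, Set.inter_self]
        exact (key b hb).1.2
      · refine (cone_sco (a := b) ?_ fun _ hx => ?_).1.2
        · exact ⟨⟨⟨hb, k'⟩, e⟩, ⟨hb, k'⟩, adq_refl b⟩
        · exact hx.2.2
    · refine (cone_sco (a := a) ?_ fun _ hx => ?_).1.2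
      · exact ⟨⟨⟨ha, k⟩, adq_refl a⟩, ⟨ha, k⟩, adq_symm e⟩
      · exact hx.1.2
  · by_cases k1 : a ∈ T
    · by_cases k2 : b ∈ T
      · by_cases k3 : c ∈ T
        · obtain ⟨u, hu⟩ := (key c hc).1.1
          rw [eq a k1 c k3 e3, eq b k2 c k3 e2]
          exact ⟨u, hu, hu, hu⟩
        · exact ⟨c, ⟨⟨hc, k3⟩, e3⟩, ⟨⟨hc, k3⟩, e2⟩, ⟨hc, k3⟩, adq_refl c⟩
      · exact ⟨b, ⟨⟨hb, k2⟩, e1⟩, ⟨⟨hb, k2⟩, adq_refl b⟩, ⟨hb, k2⟩, adq_symm e2⟩
    · exact ⟨a, ⟨⟨ha, k1⟩, adq_refl a⟩, ⟨⟨ha, k1⟩, adq_symm e1⟩, ⟨ha, k1⟩, adq_symm e3⟩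

theorem rem_many_pre_P2 {T : Set V} (hT : ∀ a ∈ T, ∀ b ∈ T, ¬ G.Adj a b) (hA : Pre G A)
    (h : ∀ v ∈ A ∩ T, Pre G (Lk G A {v})) : Pre G (A \ T) := by
  rcases (A \ T).eq_empty_or_nonempty with e | ⟨x, hx⟩
  · rw [e]
    exact pre_empty
  refine pre_of_fibres hA (fun v => {u | u ∈ A \ T ∧ Adq G v u})
    (fun v hv => ⟨fun u hu => hu.1, ?_⟩) (fun a ha b hb e => ?_)
    fun y hy => ⟨y, hy.1, y, ⟨hy, adq_refl y⟩, Reach.refl y⟩
  · by_cases k : v ∈ T
    · rw [star_P2 hT k]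
      refine ⟨?_, h v ⟨hv, k⟩⟩
      obtain ⟨u, hu, w, hw, e, -⟩ := (hA v hv x hx.1).exit (X := {v}) ⟨hv, rfl⟩
        fun e => hx.2 (Set.mem_singleton_iff.1 e ▸ k)
      refine ⟨w, hw.1, fun y hy => ?_⟩
      rw [Set.mem_singleton_iff.1 hy, ← Set.mem_singleton_iff.1 hu.2]
      exact e
    · exact (star_cone_P2 hv k).1
  · by_cases k : a ∈ T
    · have k' : b ∉ T := fun k' => hT a k b k' e
      exact ⟨b, ⟨⟨hb, k'⟩, Or.inr e⟩, b, ⟨⟨hb, k'⟩, adq_refl b⟩, Reach.refl b⟩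
    · exact ⟨a, ⟨⟨ha, k⟩, adq_refl a⟩, a, ⟨⟨ha, k⟩, Or.inr e.symm⟩, Reach.refl a⟩

theorem indep_P2 (v : V) : ∀ a ∈ ({v} : Set V), ∀ b ∈ ({v} : Set V), ¬ G.Adj a b :=
  fun a ha b hb => by
    rw [Set.mem_singleton_iff.1 ha, Set.mem_singleton_iff.1 hb]
    exact G.irrefl

/-- Removing one vertex. -/
theorem rem_one {v : V} (h1 : Con G (Lk G A {v})) (h2 : SCo G (Lk G A {v})) :
    PE G (A \ {v}) G A id :=
  rem_many_P2 (indep_P2 v) fun w hw => by
    rw [Set.mem_singleton_iff.1 hw.2]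
    exact ⟨h1, h2⟩

theorem rem_one_pre {v : V} (h : Pre G A) (h1 : Pre G (Lk G A {v})) : Pre G (A \ {v}) :=
  rem_many_pre_P2 (indep_P2 v) h fun w hw => by
    rw [Set.mem_singleton_iff.1 hw.2]
    exact h1

/-- Removing pairwise non-adjacent vertices. -/
theorem rem_many {T : Set V} (hT : ∀ a ∈ T, ∀ b ∈ T, ¬ G.Adj a b)
    (h : ∀ v ∈ A ∩ T, Con G (Lk G A {v}) ∧ SCo G (Lk G A {v})) : PE G (A \ T) G A id :=
  rem_many_P2 hT h

theorem rem_many_pre {T : Set V} (hT : ∀ a ∈ T, ∀ b ∈ T, ¬ G.Adj a b) (hA : Pre G A)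
    (h : ∀ v ∈ A ∩ T, Pre G (Lk G A {v})) : Pre G (A \ T) :=
  rem_many_pre_P2 hT hA h

theorem lk_diff_P2 (S : Set V) (v : V) : Lk G (A \ S) {v} = Lk G A {v} \ S :=
  Set.ext fun _ => ⟨fun h => ⟨⟨h.1.1, h.2⟩, h.1.2⟩, fun h => ⟨⟨h.1.1, h.2⟩, h.1.2⟩⟩

theorem seq_P2 {T : Set V} (hf : (A ∩ T).Finite) (C : Set V → Prop) (h0 : C A)
    (h1 : ∀ v ∈ A ∩ T, ∀ S ⊆ T, C (A \ S) → C ((A \ S) \ {v})) : C (A \ T) := by
  have key : ∀ S : Set V, S.Finite → S ⊆ A ∩ T → C (A \ S) := fun S hS => by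
    induction S, hS using Set.Finite.induction_on with
    | empty => intro _; rwa [Set.sdiff_empty]
    | @insert v S _ _ ih =>
      intro k
      have k1 : S ⊆ A ∩ T := (Set.subset_insert v S).trans k
      have e : A \ insert v S = (A \ S) \ {v} := by
        rw [Set.sdiff_sdiff, Set.union_singleton]
      rw [e]
      exact h1 v (k (Set.mem_insert v S)) S (fun x hx => (k1 hx).2) (ih k1)
  have e := key _ hf Set.Subset.rfl
  rwa [Set.sdiff_self_inter] at e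

/-- Removing finitely many vertices one after the other. -/
theorem rem_seq {T : Set V} (hf : (A ∩ T).Finite)
    (h : ∀ v ∈ A ∩ T, ∀ S ⊆ T, Con G (Lk G A {v} \ S) ∧ SCo G (Lk G A {v} \ S)) :
    PE G (A \ T) G A id :=
  seq_P2 hf (fun X => PE G X G A id) PE.id' fun v hv S hS k =>
    k.comp (rem_one (by rw [lk_diff_P2]; exact (h v hv S hS).1)
      (by rw [lk_diff_P2]; exact (h v hv S hS).2))

theorem rem_seq_pre {T : Set V} (hf : (A ∩ T).Finite) (hA : Pre G A)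
    (h : ∀ v ∈ A ∩ T, ∀ S ⊆ T, Pre G (Lk G A {v} \ S)) : Pre G (A \ T) :=
  seq_P2 hf (fun X => Pre G X) hA fun v hv S hS k =>
    rem_one_pre k (by rw [lk_diff_P2]; exact h v hv S hS)

end Pool.Agent.MP_6374aa_g

end

section

/-! Arcs and circles. -/

namespace Pool.Agent.MP_6374aa_g

open Pool.Agent.MP_6374aa_gt Classical

variable {V V' V'' : Type} {G : SimpleGraph V} {G' : SimpleGraph V'} {G'' : SimpleGraph V''}
  {A : Set V} {A' : Set V'} {A'' : Set V''} {L : Type} [Group L]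

theorem mem_lk_H1 {v w : V} : w ∈ Lk G A {v} ↔ w ∈ A ∧ G.Adj v w := by
  simp [Lk]

theorem card_H1 {β : Finset V → Prop} (h : Mfa G 1 A β A) {v : V} (hv : v ∈ A) :
    (β {v} ∧ (Lk G A {v}).ncard = 1) ∨ (¬ β {v} ∧ (Lk G A {v}).ncard = 2) := by
  obtain ⟨-, h1, h2, -⟩ := h v hv
  simp only [if_true, insert_empty_eq] at h2
  have h1' : (Lk G A {v}).ncard = 1 ∨ (Lk G A {v}).ncard = 2 := h1
  rcases h1' with h1 | h1
  · exact Or.inl ⟨h2.2 h1, h1⟩
  · exact Or.inr ⟨fun hb => by have := h2.1 hb; omega, h1⟩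

theorem notri_H1 {β : Finset V → Prop} (h : Mfa G 1 A β A) {u v w : V} (hu : u ∈ A) (hv : v ∈ A)
    (hw : w ∈ A) (h1 : G.Adj u v) (h2 : G.Adj v w) : ¬ G.Adj u w := by
  intro h3
  obtain ⟨-, -, -, h4⟩ := h u hu
  have h5 := (h4 v (mem_lk_H1.2 ⟨hv, h1⟩)).1
  have h6 : w ∈ Lk G (Lk G A {u}) {v} := mem_lk_H1.2 ⟨mem_lk_H1.2 ⟨hw, h3⟩, h2⟩
  rw [h5] at h6
  exact h6

theorem noedge_H1 {β : Finset V → Prop} (h : Mfa G 1 A β A) {u v : V} (hu : u ∈ A) (hv : v ∈ A)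
    (h1 : G.Adj u v) : ¬ β {u, v} := by
  obtain ⟨-, -, -, h4⟩ := h u hu
  have h5 := (h4 v (mem_lk_H1.2 ⟨hv, h1⟩)).2
  simpa only [insert_empty_eq] using h5

theorem two_H1 {v : V} (h : (Lk G A {v}).ncard = 2) :
    ∃ a b, a ≠ b ∧ ∀ w, (w ∈ A ∧ G.Adj v w) ↔ (w = a ∨ w = b) := by
  obtain ⟨a, b, hab, e⟩ := Set.ncard_eq_two.1 h
  refine ⟨a, b, hab, fun w => ?_⟩
  rw [← mem_lk_H1, e]
  simp

theorem one_H1 {v : V} (h : (Lk G A {v}).ncard = 1) : ∃ a, ∀ w, (w ∈ A ∧ G.Adj v w) ↔ w = a := by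
  obtain ⟨a, e⟩ := Set.ncard_eq_one.1 h
  refine ⟨a, fun w => ?_⟩
  rw [← mem_lk_H1, e]
  simp

theorem d2_H1 {β : Finset V → Prop} (h : Mfa G 1 A β A) {v a b c : V} (hv : v ∈ A) (ha : a ∈ A)
    (hb : b ∈ A) (hc : c ∈ A) (h1 : G.Adj v a) (h2 : G.Adj v b) (h3 : G.Adj v c) (hab : a ≠ b) :
    c = a ∨ c = b := by
  rcases card_H1 h hv with ⟨-, h4⟩ | ⟨-, h4⟩
  · obtain ⟨x, hx⟩ := one_H1 h4
    exact absurd (((hx a).1 ⟨ha, h1⟩).trans ((hx b).1 ⟨hb, h2⟩).symm) hab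
  · obtain ⟨x, y, -, hx⟩ := two_H1 h4
    have e1 := (hx a).1 ⟨ha, h1⟩
    have e2 := (hx b).1 ⟨hb, h2⟩
    have e3 := (hx c).1 ⟨hc, h3⟩
    grind

theorem ext_pot_H1 {lab : V → V → L} (hl : Flat G A lab) {v : V} {p : V → L}
    (hp : ∀ u ∈ A \ {v}, ∀ w ∈ A \ {v}, Adq G u w → lab u w = p u * (p w)⁻¹) (q : L)
    (hq : ∀ w ∈ A, G.Adj v w → lab v w * p w = q) : Pot G A lab := by
  refine ⟨Function.update p v q, fun u hu w hw huw => ?_⟩
  by_cases e : u = w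
  · subst e
    rw [hl.self hu, mul_inv_cancel]
  have hadj : G.Adj u w := huw.resolve_left e
  by_cases e1 : u = v
  · subst e1
    rw [Function.update_self, Function.update_of_ne (Ne.symm e), ← hq w hw hadj,
      mul_inv_cancel_right]
  by_cases e2 : w = v
  · subst e2
    rw [Function.update_self, Function.update_of_ne e, ← hq u hu hadj.symm,
      hl.symm hw hu (Or.inr hadj.symm)]
    group
  rw [Function.update_of_ne e1, Function.update_of_ne e2]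
  exact hp u ⟨hu, e1⟩ w ⟨hw, e2⟩ huw

theorem sco_of_leaf_H1 (n : ℕ) : ∀ S : Set V, S.Finite → S.ncard = n →
    (∀ X ⊆ S, X.Nonempty → ∃ v ∈ X, ∀ a ∈ X, ∀ b ∈ X, G.Adj v a → G.Adj v b → a = b) →
    SCo G S := by
  induction n with
  | zero =>
    intro S hf hn _
    have e : S = ∅ := (Set.ncard_eq_zero hf).1 hn
    subst e
    exact sco_of_no_adj (by simp)
  | succ n ih =>
    intro S hf hn h L _ lab hl
    obtain ⟨v, hv, hl1⟩ := h S subset_rfl (Set.nonempty_of_ncard_ne_zero (by omega))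
    have h1 : (S \ {v}).ncard = n := by
      have := Set.ncard_sdiff_singleton_add_one hv hf
      omega
    obtain ⟨p, hp⟩ := ih (S \ {v}) hf.sdiff h1 (fun X hX => h X (hX.trans Set.sdiff_subset)) L lab
      (hl.mono Set.sdiff_subset)
    by_cases e : ∃ a ∈ S, G.Adj v a
    · obtain ⟨a, ha, hva⟩ := e
      exact ext_pot_H1 hl hp (lab v a * p a) fun w hw hvw => by rw [hl1 w hw a ha hvw hva]
    · exact ext_pot_H1 hl hp 1 fun w hw hvw => absurd ⟨w, hw, hvw⟩ e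

theorem sco_H1 {β : Finset V → Prop} (h : Mfa G 1 A β A) (hp : Pre G A) {S : Set V} (hS : S ⊆ A)
    (hf : S.Finite) (hne : S ≠ A ∨ ∃ v ∈ A, β {v}) : SCo G S := by
  refine sco_of_leaf_H1 _ S hf rfl fun X hX hn => ?_
  by_contra hc
  push Not at hc
  have hcl : Clopen G A X := by
    refine ⟨hX.trans hS, fun v hv c hc' hvc => ?_⟩
    obtain ⟨a, ha, b, hb, h1, h2, hab⟩ := hc v hv
    rcases d2_H1 h (hS (hX hv)) (hS (hX ha)) (hS (hX hb)) hc' h1 h2 hvc hab with e | e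
    · exact e ▸ ha
    · exact e ▸ hb
  obtain ⟨x, hx⟩ := hn
  have hA : A ⊆ X := hp.subset_clopen subset_rfl hcl (hS (hX hx)) hx
  rcases hne with hne | ⟨v, hv, hb⟩
  · exact hne (hS.antisymm (hA.trans hX))
  · obtain ⟨a, ha, b, hb', h1, h2, hab⟩ := hc v (hA hv)
    rcases card_H1 h hv with ⟨-, h4⟩ | ⟨h4, -⟩
    · obtain ⟨x, hx⟩ := one_H1 h4
      exact hab (((hx a).1 ⟨hS (hX ha), h1⟩).trans ((hx b).1 ⟨hS (hX hb'), h2⟩).symm)
    · exact h4 hb

theorem count_H1 {X : Set V} (hf : X.Finite) (P : V → Prop)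
    (h1 : ∀ v ∈ X, P v → (Lk G X {v}).ncard = 1) (h2 : ∀ v ∈ X, ¬ P v → (Lk G X {v}).ncard = 2) :
    Even {v | v ∈ X ∧ P v}.ncard ∧ (Con G X → {v | v ∈ X ∧ P v}.ncard ≤ 2) := by
  have : Fintype X := hf.fintype
  have hd : ∀ x : X, (G.induce X).degree x = (Lk G X {x.1}).ncard := by
    intro x
    rw [← SimpleGraph.card_neighborFinset_eq_degree, ← Set.ncard_coe_finset,
      ← Set.ncard_image_of_injective _ Subtype.val_injective]
    congr 1
    ext w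
    simp [mem_lk_H1, and_comm]
  have hs := (G.induce X).sum_degrees_eq_twice_card_edges
  have hc : {v | v ∈ X ∧ P v}.ncard = (Finset.univ.filter fun x : X => P x.1).card := by
    rw [← Set.ncard_coe_finset, ← Set.ncard_image_of_injective _ Subtype.val_injective]
    congr 1
    ext w
    simp [and_comm]
  have he : ∑ x : X, ((G.induce X).degree x + if P x.1 then 1 else 0) = ∑ _x : X, 2 := by
    refine Finset.sum_congr rfl fun x _ => ?_
    rw [hd]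
    by_cases e : P x.1
    · rw [h1 x.1 x.2 e, if_pos e]
    · rw [h2 x.1 x.2 e, if_neg e]
  rw [Finset.sum_add_distrib, hs, Finset.sum_boole, ← hc] at he
  simp only [Finset.sum_const, Finset.card_univ, smul_eq_mul, Nat.cast_id] at he
  refine ⟨⟨Fintype.card X - (G.induce X).edgeFinset.card, by omega⟩, fun hcon => ?_⟩
  have h3 := (con_iff_connected.1 hcon).card_vert_le_card_edgeSet_add_one
  rw [Nat.card_eq_fintype_card, Nat.card_eq_fintype_card, ← SimpleGraph.edgeFinset_card] at h3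
  omega

theorem one_leaf_H1 {X : Set V} (hf : X.Finite) {x : V} (hx : x ∈ X)
    (h1 : (Lk G X {x}).ncard = 1) (h2 : ∀ v ∈ X, v ≠ x → (Lk G X {v}).ncard = 2) : False := by
  have h := (count_H1 (G := G) hf (fun v => v = x) (fun v _ e => e ▸ h1) h2).1
  have e : {v | v ∈ X ∧ v = x} = {x} := by
    ext v
    exact ⟨fun h => h.2, fun h => ⟨h ▸ hx, h⟩⟩
  rw [e, Set.ncard_singleton] at h
  exact absurd h (by decide)

theorem bd_H1 {β : Finset V → Prop} (h : Cell G 2 A β) (hb : β ∅) : ∃ v ∈ A, β {v} := by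
  obtain ⟨-, -, h2, -⟩ := h
  simpa using h2.1 hb

theorem Cell.arc_sco {β : Finset V → Prop} (h : Cell G 2 A β) (hb : β ∅) {S : Set V}
    (hS : S ⊆ A) : SCo G S :=
  sco_H1 h.2.2.2 h.2.1.2 hS (h.1.subset hS) (Or.inr (bd_H1 h hb))

theorem Cell.arc_ends {β : Finset V → Prop} (h : Cell G 2 A β) (hb : β ∅) :
    {v | v ∈ A ∧ β {v}}.ncard = 2 := by
  have hm : Mfa G 1 A β A := h.2.2.2
  obtain ⟨h1, h2⟩ := count_H1 (G := G) h.1 (fun v => β {v})
    (fun v hv e => ((card_H1 hm hv).resolve_right fun h' => h'.1 e).2)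
    (fun v hv e => ((card_H1 hm hv).resolve_left fun h' => e h'.1).2)
  have h3 := h2 h.2.1
  obtain ⟨v, hv, hbv⟩ := bd_H1 h hb
  have h4 : 0 < {v | v ∈ A ∧ β {v}}.ncard :=
    (Set.ncard_pos (h.1.subset fun _ hx => hx.1)).2 ⟨v, hv, hbv⟩
  obtain ⟨k, hk⟩ := h1
  omega

theorem sph_card_H1 (h : Sph G 2 A) {v : V} (hv : v ∈ A) : (Lk G A {v}).ncard = 2 :=
  ((card_H1 (β := fun _ => False) h.2.2.2 hv).resolve_left fun h' => h'.1).2

theorem rem_card_H1 (h : Sph G 2 A) {v w : V} (hv : v ∈ A) (hw : w ∈ A) :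
    (G.Adj v w → (Lk G A {w} \ {v}).ncard = 1) ∧ (¬ G.Adj v w → (Lk G A {w} \ {v}).ncard = 2) := by
  have h2 := sph_card_H1 h hw
  refine ⟨fun e => ?_, fun e => ?_⟩
  · have := Set.ncard_sdiff_singleton_add_one (mem_lk_H1.2 ⟨hv, e.symm⟩ : v ∈ Lk G A {w})
      (h.1.subset (lk_subset _))
    omega
  · rw [Set.sdiff_singleton_eq_self fun h' => e (mem_lk_H1.1 h').2.symm, h2]

theorem rem_pre_H1 (h : Sph G 2 A) {v : V} (hv : v ∈ A) : Pre G (A \ {v}) := by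
  obtain ⟨a, b, hab, hn⟩ := two_H1 (sph_card_H1 h hv)
  refine pre_of_base (x := a) fun w hw => ?_
  by_contra hc
  have hcl := clopen_cmp (G := G) (A := A \ {v}) w
  have ha : a ∉ cmp G (A \ {v}) w := fun h' => hc h'.2
  have hlk : ∀ u ∈ cmp G (A \ {v}) w, Lk G (cmp G (A \ {v}) w) {u} = Lk G A {u} \ {v} := by
    intro u hu
    ext x
    rw [Set.mem_sdiff, mem_lk_H1, mem_lk_H1]
    exact ⟨fun h' => ⟨⟨(hcl.1 h'.1).1, h'.2⟩, (hcl.1 h'.1).2⟩,
      fun h' => ⟨hcl.2 u hu x ⟨h'.1.1, h'.2⟩ h'.1.2, h'.1.2⟩⟩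
  by_cases hb : b ∈ cmp G (A \ {v}) w
  · refine one_leaf_H1 (G := G) (h.1.subset (hcl.1.trans Set.sdiff_subset)) hb ?_ fun u hu e => ?_
    · rw [hlk b hb]
      exact (rem_card_H1 h hv (hcl.1 hb).1).1 ((hn b).2 (Or.inr rfl)).2
    · rw [hlk u hu]
      refine (rem_card_H1 h hv (hcl.1 hu).1).2 fun h' => ?_
      rcases (hn u).1 ⟨(hcl.1 hu).1, h'⟩ with e' | e'
      · exact ha (e' ▸ hu)
      · exact e e'
  · have hcl' : Clopen G A (cmp G (A \ {v}) w) := by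
      refine ⟨hcl.1.trans Set.sdiff_subset, fun u hu x hx hux => hcl.2 u hu x ⟨hx, fun e => ?_⟩ hux⟩
      have e' : x = v := e
      subst e'
      rcases (hn u).1 ⟨(hcl.1 hu).1, hux.symm⟩ with e' | e'
      · exact ha (e' ▸ hu)
      · exact hb (e' ▸ hu)
    have hp : Pre G A := h.2.1.2
    exact (hcl.1 (hp.subset_clopen subset_rfl hcl' hw.1 (mem_cmp_self hw) hv)).2 rfl

theorem Sph.circle_rem (h : Sph G 2 A) {v : V} (hv : v ∈ A) :
    Ball G 2 (A \ {v}) (Lk G A {v}) := by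
  have hm : Mfa G 1 A (fun _ => False) A := h.2.2.2
  obtain ⟨a, b, hab, hn⟩ := two_H1 (sph_card_H1 h hv)
  have ha := (hn a).2 (Or.inl rfl)
  have ha' : a ∈ A \ {v} := ⟨ha.1, fun e => ha.2.ne' e⟩
  refine ⟨h.1.sdiff, ⟨⟨a, ha'⟩, rem_pre_H1 h hv⟩, ?_, fun w hw => ?_⟩
  · simp only [sub, Finset.coe_empty, Set.empty_subset, one_ne_zero, if_false, true_iff]
    exact ⟨a, ha', by simpa using mem_lk_H1.2 ha⟩
  have hlk : Lk G (A \ {v}) {w} = Lk G A {w} \ {v} := by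
    ext x
    rw [Set.mem_sdiff, mem_lk_H1, mem_lk_H1, Set.mem_sdiff]
    tauto
  have hc := rem_card_H1 h hv hw.1
  rw [hlk]
  refine ⟨(h.1.subset (lk_subset _)).sdiff, ?_, ?_, fun x hx => ⟨?_, ?_⟩⟩
  · by_cases e : G.Adj v w
    · exact Or.inl (hc.1 e)
    · exact Or.inr (hc.2 e)
  · simp only [sub, insert_empty_eq, Finset.coe_singleton, Set.singleton_subset_iff, if_true,
      mem_lk_H1]
    refine ⟨fun e => hc.1 e.2, fun e => ⟨hw.1, ?_⟩⟩
    by_contra e'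
    have := hc.2 e'
    omega
  · refine Set.eq_empty_of_forall_notMem fun y hy => ?_
    have hx' := mem_lk_H1.1 hx.1
    have hy' := mem_lk_H1.1 hy
    have hy'' := mem_lk_H1.1 hy'.1.1
    exact notri_H1 hm hw.1 hx'.1 hy''.1 hx'.2 hy'.2 hy''.2
  · intro hs
    have hx' := mem_lk_H1.1 hx.1
    have h1 := mem_lk_H1.1 (hs (show w ∈ ((insert w (insert x ∅) : Finset V) : Set V) by simp))
    have h2 := mem_lk_H1.1 (hs (show x ∈ ((insert w (insert x ∅) : Finset V) : Set V) by simp))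
    exact notri_H1 hm hv hw.1 hx'.1 h1.2 hx'.2 h2.2

theorem Sph.circle_sub (h : Sph G 2 A) {S : Set V} (hS : S ⊂ A) : SCo G S :=
  sco_H1 (β := fun _ => False) h.2.2.2 h.2.1.2 hS.1 (h.1.subset hS.1) (Or.inl hS.ne)

theorem Sph.circle_rk (h : Sph G 2 A) : Rk G A 1 := by
  intro θ hθ
  obtain ⟨v, hv⟩ : A.Nonempty := h.2.1.1
  obtain ⟨a, b, hab, hn⟩ := two_H1 (sph_card_H1 h hv)
  have hs : SCo G (A \ {v}) := h.circle_sub (Set.sdiff_singleton_ssubset.2 hv)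
  choose p hp using fun i => hs Z2 (θ i) ((hθ i).mono Set.sdiff_subset)
  have key : ∀ (lab : V → V → Z2) (q : V → Z2), Flat G A lab →
      (∀ u ∈ A \ {v}, ∀ w ∈ A \ {v}, Adq G u w → lab u w = q u * (q w)⁻¹) →
      lab v b * q b = lab v a * q a → Pot G A lab := by
    intro lab q hl hq e
    refine ext_pot_H1 hl hq (lab v a * q a) fun w hw hvw => ?_
    rcases (hn w).1 ⟨hw, hvw⟩ with e' | e'
    · rw [e']
    · rw [e', e]
  by_cases e0 : θ 0 v b * p 0 b = θ 0 v a * p 0 a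
  · exact ⟨{0}, by simp, by simpa using key _ _ (hθ 0) (hp 0) e0⟩
  by_cases e1 : θ 1 v b * p 1 b = θ 1 v a * p 1 a
  · exact ⟨{1}, by simp, by simpa using key _ _ (hθ 1) (hp 1) e1⟩
  refine ⟨Finset.univ, Finset.univ_nonempty, ?_⟩
  simp only [Fin.prod_univ_succ, Fin.prod_univ_zero, mul_one]
  refine key _ (fun u => p 0 u * p 1 u) (flat_mul (hθ 0) (hθ 1)) (fun u hu w hw huw => ?_) ?_
  · show θ 0 u w * θ 1 u w = _
    rw [hp 0 u hu w hw huw, hp 1 u hu w hw huw, mul_inv, mul_mul_mul_comm]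
  · show θ 0 v b * θ 1 v b * (p 0 b * p 1 b) = θ 0 v a * θ 1 v a * (p 0 a * p 1 a)
    rw [mul_mul_mul_comm, mul_mul_mul_comm (θ 0 v a)]
    have aux : ∀ x y z t : Z2, ¬ x = y → ¬ z = t → x * z = y * t := by decide
    exact aux _ _ _ _ e0 e1

theorem Sph.circle_not_ndc (h : Sph G 2 A) : ∃ θ : V → V → Z2, Flat G A θ ∧ ¬ Pot G A θ := by
  have hm : Mfa G 1 A (fun _ => False) A := h.2.2.2
  obtain ⟨v, hv⟩ : A.Nonempty := h.2.1.1
  obtain ⟨a, b, hab, hn⟩ := two_H1 (sph_card_H1 h hv)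
  have ha := (hn a).2 (Or.inl rfl)
  have hb := (hn b).2 (Or.inr rfl)
  refine ⟨fun u w => if (u = v ∧ w = a) ∨ (u = a ∧ w = v) then neg else 1, ?_, ?_⟩
  · have hd : ∀ u, ¬ ((u = v ∧ u = a) ∨ (u = a ∧ u = v)) := by
      rintro u (⟨rfl, e⟩ | ⟨e, rfl⟩) <;> exact ha.2.ne e
    intro x hx y hy z hz h1 h2 h3
    rcases h1 with rfl | h1
    · simp only [if_neg (hd x), one_mul]
    rcases h2 with rfl | h2
    · simp only [if_neg (hd y), mul_one]
    rcases h3 with rfl | h3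
    · have e : ((y = v ∧ x = a) ∨ (y = a ∧ x = v)) ↔ ((x = v ∧ y = a) ∨ (x = a ∧ y = v)) := by
        tauto
      simp only [if_neg (hd x), e, z2_mul_self]
    · exact absurd h3 (notri_H1 hm hx hy hz h1 h2)
  · rintro ⟨p, hp⟩
    have ha' : a ∈ A \ {v} := ⟨ha.1, fun e => ha.2.ne' e⟩
    have hb' : b ∈ A \ {v} := ⟨hb.1, fun e => hb.2.ne' e⟩
    have h1 : p a = p b := by
      refine (rem_pre_H1 h hv).const (fun x hx y hy hxy => ?_) ha' hb'
      have h2 := hp x hx.1 y hy.1 (Or.inr hxy)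
      have hx' : x ≠ v := hx.2
      have hy' : y ≠ v := hy.2
      simp only [hx', hy', false_and, and_false, or_self, if_false] at h2
      exact mul_inv_eq_one.1 h2.symm
    have h2 := hp v hv a ha.1 (Or.inr ha.2)
    have h3 := hp v hv b hb.1 (Or.inr hb.2)
    have hva : v ≠ a := ha.2.ne
    simp only [true_and, true_or, if_true] at h2
    simp only [true_and, hab.symm, hva, false_and, or_self, if_false] at h3
    rw [h1, ← h3] at h2
    exact neg_ne_one h2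

/-- An arc minus some of its end points. -/
theorem Cell.arc_rem {β : Finset V → Prop} (h : Cell G 2 A β) {S : Set V}
    (hS : ∀ s, Clq G (A ∩ S) s → β s) : Con G (A \ S) ∧ SCo G (A \ S) := by
  have hm : Mfa G 1 A β A := h.2.2.2
  have hb : β ∅ := hS ∅ ⟨by simp, by simp⟩
  have h1 : ∀ v ∈ A ∩ S, ∃ a ∈ A \ S, G.Adj v a ∧ ∀ w ∈ A, G.Adj v w → w = a := by
    intro v hv
    have hbv : β {v} := hS {v} ⟨by simpa using hv, by simp⟩
    obtain ⟨a, ha⟩ := one_H1 ((card_H1 hm hv.1).resolve_right fun h' => h'.1 hbv).2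
    have ha' := (ha a).2 rfl
    refine ⟨a, ⟨ha'.1, fun haS => ?_⟩, ha'.2, fun w hw hvw => (ha w).1 ⟨hw, hvw⟩⟩
    refine noedge_H1 hm hv.1 ha'.1 ha'.2 (hS _ ⟨?_, ?_⟩)
    · rw [Finset.coe_pair]
      exact Set.pair_subset hv ⟨ha'.1, haS⟩
    · rw [Finset.coe_pair]
      exact SimpleGraph.isClique_pair.2 fun _ => ha'.2
  refine ⟨⟨?_, ?_⟩, h.arc_sco hb Set.sdiff_subset⟩
  · obtain ⟨v, hv⟩ : A.Nonempty := h.2.1.1
    by_cases e : v ∈ S
    · obtain ⟨a, ha, -⟩ := h1 v ⟨hv, e⟩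
      exact ⟨a, ha⟩
    · exact ⟨v, hv, e⟩
  · choose! f hf using h1
    have hp : Pre G A := h.2.1.2
    have hh : IsHom G A G (A \ S) fun v => if v ∈ S then f v else v := by
      refine ⟨fun v hv => ?_, fun x hx y hy hxy => ?_⟩
      · by_cases e : v ∈ S
        · simp only [if_pos e]
          exact (hf v ⟨hv, e⟩).1
        · simp only [if_neg e]
          exact ⟨hv, e⟩
      · by_cases e1 : x ∈ S
        · have e3 := (hf x ⟨hx, e1⟩).2.2 y hy hxy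
          have e2 : y ∉ S := e3 ▸ (hf x ⟨hx, e1⟩).1.2
          simp only [if_pos e1, if_neg e2]
          exact Or.inl e3.symm
        · by_cases e2 : y ∈ S
          · simp only [if_neg e1, if_pos e2]
            exact Or.inl ((hf y ⟨hy, e2⟩).2.2 x hx hxy.symm)
          · simp only [if_neg e1, if_neg e2]
            exact Or.inr hxy
    intro x hx y hy
    have h2 := (hp x hx.1 y hy.1).map hh
    simpa only [if_neg hx.2, if_neg hy.2] using h2

/-- An infinite connected 1-manifold is simply connected. -/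
theorem line_sco {β : Finset V → Prop} (h : Mfa G 1 A β A) (hp : Pre G A) (hi : A.Infinite) :
    SCo G A := by
  refine sco_of_null fun a l hw => ?_
  have hf : (insert a {x | x ∈ l} : Set V).Finite := (List.finite_toSet l).insert a
  have hS : (insert a {x | x ∈ l} : Set V) ⊆ A := Set.insert_subset hw.mem_left hw.mem_list
  have hs := sco_H1 h hp hS hf (Or.inl fun e => hi (e ▸ hf))
  exact (hs.null (hw.restrict (Set.mem_insert _ _) fun x hx => Or.inr hx)).mono hS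

theorem mf_one_cell {T : Set V} (h : Mf G 1 A T) (hf : A.Finite) (hc : Con G A) :
    (A ∩ T = ∅ ∧ Sph G 2 A) ∨ ((A ∩ T).Nonempty ∧ Ball G 2 A T) := by
  rcases (A ∩ T).eq_empty_or_nonempty with e | ⟨v, hv⟩
  · refine Or.inl ⟨e, cell_two hf hc (Mfa.congr h subset_rfl fun s hs => ?_) (by simp)⟩
    refine iff_false_intro fun hT => ?_
    obtain ⟨x, hx⟩ := hs.1
    have : x ∈ A ∩ T := ⟨hs.2.1 hx, hT hx⟩
    rw [e] at this
    exact this
  · refine Or.inr ⟨⟨v, hv⟩, cell_two hf hc h (iff_of_true (by simp [sub]) ⟨v, hv.1, ?_⟩)⟩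
    simpa [sub] using hv.2

end Pool.Agent.MP_6374aa_g

end

section

/-! Mod 2 duality on surfaces. -/

namespace Pool.Agent.MP_6374aa_g

open Pool.Agent.MP_6374aa_gt Classical

variable {V V' V'' : Type} {G : SimpleGraph V} {G' : SimpleGraph V'} {G'' : SimpleGraph V''}
  {A : Set V} {A' : Set V'} {A'' : Set V''} {L : Type} [Group L]

/-- Linear duality over the field with two elements. -/
theorem lin_dual {α γ : Type} (d : (α →₀ ZMod 2) →ₗ[ZMod 2] (γ →₀ ZMod 2)) {z : γ →₀ ZMod 2}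
    (hz : z ∉ LinearMap.range d) : ∃ φ : γ → ZMod 2,
      (∀ a, (d (Finsupp.single a 1)).sum (fun c x => x * φ c) = 0) ∧
        z.sum (fun c x => x * φ c) ≠ 0 := by
  have : Fact (Nat.Prime 2) := ⟨Nat.prime_two⟩
  obtain ⟨f, h1, h2⟩ := Submodule.exists_le_ker_of_notMem hz
  have key : ∀ y : γ →₀ ZMod 2, y.sum (fun c x => x * f (Finsupp.single c 1)) = f y := by
    intro y
    conv_rhs => rw [← Finsupp.sum_single y, map_finsuppSum]
    refine Finsupp.sum_congr fun c _ => ?_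
    rw [← smul_eq_mul, ← map_smul, Finsupp.smul_single, smul_eq_mul, mul_one]
  refine ⟨fun c => f (Finsupp.single c 1), fun a => ?_, ?_⟩
  · rw [key]
    exact h2 ⟨_, rfl⟩
  · rwa [key]

theorem solve_H2 {α γ : Type} (F : Finset α) (T : Finset γ) (r : α → γ → Prop)
    [∀ a c, Decidable (r a c)] (ω : γ → ZMod 2)
    (h : ∀ φ : γ → ZMod 2, (∀ e ∈ F, ∑ t ∈ T.filter (r e), φ t = 0) → ∑ t ∈ T, φ t * ω t = 0) :
    ∃ η : α → ZMod 2, ∀ t ∈ T, ∑ e ∈ F.filter (r · t), η e = ω t := by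
  let c : α → γ →₀ ZMod 2 := fun a =>
    if a ∈ F then ∑ t ∈ T.filter (r a), Finsupp.single t 1 else 0
  have hs : ∀ (φ : γ → ZMod 2) (S : Finset γ) (g : γ → ZMod 2),
      (∑ t ∈ S, Finsupp.single t (g t)).sum (fun c x => x * φ c) = ∑ t ∈ S, φ t * g t := by
    intro φ S g
    rw [← Finsupp.sum_finsetSum_index (fun _ => zero_mul _) fun _ _ _ => add_mul _ _ _]
    refine Finset.sum_congr rfl fun t _ => ?_
    rw [Finsupp.sum_single_index (zero_mul _), mul_comm]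
  by_cases hz : (∑ t ∈ T, Finsupp.single t (ω t)) ∈
      LinearMap.range (Finsupp.linearCombination (ZMod 2) c)
  · obtain ⟨x, hx⟩ := hz
    refine ⟨x, fun t ht => ?_⟩
    have h1 := congrArg (fun y : γ →₀ ZMod 2 => y t) hx
    simp only [Finsupp.linearCombination_apply, Finsupp.sum, Finsupp.finsetSum_apply,
      Finsupp.smul_apply, smul_eq_mul, Finsupp.single_apply, Finset.sum_ite_eq', if_pos ht] at h1
    rw [← h1]
    have h2 : ∀ a, c a t = if a ∈ F.filter (r · t) then 1 else 0 := by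
      intro a
      by_cases ha : a ∈ F
      · simp [c, ha, ht, Finsupp.finsetSum_apply, Finsupp.single_apply]
      · simp [c, ha]
    simp only [h2, mul_ite, mul_one, mul_zero]
    rw [Finset.sum_ite_mem]
    refine (Finset.sum_subset Finset.inter_subset_right fun a ha hn => ?_).symm
    by_contra hne
    exact hn (Finset.mem_inter.2 ⟨Finsupp.mem_support_iff.2 hne, ha⟩)
  · obtain ⟨φ, h1, h2⟩ := lin_dual _ hz
    rw [hs] at h2
    refine absurd (h φ fun e he => ?_) h2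
    have h3 := h1 e
    rw [Finsupp.linearCombination_single, one_smul] at h3
    simp only [c, if_pos he] at h3
    rw [hs φ _ fun _ => 1] at h3
    simpa using h3

variable (G) in
/-- The cliques with `n` vertices. -/
noncomputable def K_H2 (hf : A.Finite) (n : ℕ) : Finset (Finset V) :=
  (hf.toFinset.powersetCard n).filter fun s => G.IsClique (s : Set V)

theorem mem_K_H2 {hf : A.Finite} {n : ℕ} {s : Finset V} :
    s ∈ K_H2 G hf n ↔ Clq G A s ∧ s.card = n := by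
  rw [K_H2, Finset.mem_filter, Finset.mem_powersetCard, Clq, ← Finset.coe_subset,
    Set.Finite.coe_toFinset]
  tauto

theorem edge_H2 {hf : A.Finite} {e : Finset V} (he : e ∈ K_H2 G hf 2) :
    ∃ u ∈ A, ∃ w ∈ A, G.Adj u w ∧ e = {u, w} := by
  obtain ⟨h1, h2⟩ := mem_K_H2.1 he
  obtain ⟨u, w, h3, rfl⟩ := Finset.card_eq_two.1 h2
  exact ⟨u, h1.1 (by simp), w, h1.1 (by simp), h1.2 (by simp) (by simp) h3, rfl⟩

theorem pair_K_H2 {hf : A.Finite} {u w : V} (hu : u ∈ A) (hw : w ∈ A) (h : G.Adj u w) :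
    ({u, w} : Finset V) ∈ K_H2 G hf 2 :=
  mem_K_H2.2 ⟨(mem_sA_iff_clq.1 (pair_mem_sA hu hw (Or.inr h))).2, Finset.card_pair h.ne⟩

theorem tri_H2 {hf : A.Finite} {t : Finset V} (ht : t ∈ K_H2 G hf 3) :
    ∃ u ∈ A, ∃ v ∈ A, ∃ w ∈ A, G.Adj u v ∧ G.Adj v w ∧ G.Adj u w ∧ t = {u, v, w} := by
  obtain ⟨h1, h2⟩ := mem_K_H2.1 ht
  obtain ⟨u, v, w, h3, h4, h5, rfl⟩ := Finset.card_eq_three.1 h2
  exact ⟨u, h1.1 (by simp), v, h1.1 (by simp), w, h1.1 (by simp), h1.2 (by simp) (by simp) h3,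
    h1.2 (by simp) (by simp) h5, h1.2 (by simp) (by simp) h4, rfl⟩

theorem tri_K_H2 {hf : A.Finite} {u v w : V} (hu : u ∈ A) (hv : v ∈ A) (hw : w ∈ A)
    (h1 : G.Adj u v) (h2 : G.Adj v w) (h3 : G.Adj u w) :
    ({u, v, w} : Finset V) ∈ K_H2 G hf 3 :=
  mem_K_H2.2 ⟨(mem_sA_iff_clq.1 (tri_mem_B3 hu hv hw (Or.inr h1) (Or.inr h2) (Or.inr h3))).2,
    Finset.card_eq_three.2 ⟨u, v, w, h1.ne, h3.ne, h2.ne, rfl⟩⟩

theorem tri_sum_H2 {hf : A.Finite} {u v w : V} (hu : u ∈ A) (hv : v ∈ A) (hw : w ∈ A)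
    (h1 : G.Adj u v) (h2 : G.Adj v w) (h3 : G.Adj u w) (η : Finset V → ZMod 2) :
    ∑ e ∈ (K_H2 G hf 2).filter (· ⊆ ({u, v, w} : Finset V)), η e =
      η {u, v} + η {v, w} + η {u, w} := by
  have n1 := h1.ne
  have n2 := h2.ne
  have n3 := h3.ne
  have e : (K_H2 G hf 2).filter (· ⊆ ({u, v, w} : Finset V)) = {{u, v}, {v, w}, {u, w}} := by
    ext e
    simp only [Finset.mem_filter, Finset.mem_insert, Finset.mem_singleton]
    constructor
    · rintro ⟨a, b⟩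
      obtain ⟨x, -, y, -, c, rfl⟩ := edge_H2 a
      have hx := b (Finset.mem_insert_self _ _)
      have hy := b (Finset.mem_insert_of_mem (Finset.mem_singleton_self _))
      simp only [Finset.mem_insert, Finset.mem_singleton] at hx hy
      rcases hx with rfl | rfl | rfl <;> rcases hy with rfl | rfl | rfl <;>
        first | exact absurd rfl c.ne | simp [Finset.pair_comm]
    · rintro (rfl | rfl | rfl)
      · exact ⟨pair_K_H2 hu hv h1, by simp [Finset.insert_subset_iff]⟩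
      · exact ⟨pair_K_H2 hv hw h2, by simp⟩
      · exact ⟨pair_K_H2 hu hw h3, by simp [Finset.insert_subset_iff]⟩
  have d1 : ({u, v} : Finset V) ≠ {v, w} := fun k => by
    have : u ∈ ({v, w} : Finset V) := k ▸ Finset.mem_insert_self _ _
    simp [n1, n3] at this
  have d2 : ({u, v} : Finset V) ≠ {u, w} := fun k => by
    have : v ∈ ({u, w} : Finset V) := k ▸ Finset.mem_insert_of_mem (Finset.mem_singleton_self _)
    simp [n1.symm, n2] at this
  have d3 : ({v, w} : Finset V) ≠ {u, w} := fun k => by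
    have : v ∈ ({u, w} : Finset V) := k ▸ Finset.mem_insert_self _ _
    simp [n1.symm, n2] at this
  rw [e, Finset.sum_insert (by simp [d1, d2]), Finset.sum_pair d3, add_assoc]

/-- Counting the cliques with one more vertex. -/
theorem coface_H2 {hf : A.Finite} {s : Finset V} (hs : Clq G A s) (P : Finset V → Prop) :
    ((K_H2 G hf (s.card + 1)).filter fun t => s ⊆ t ∧ P t).card =
      {v | v ∈ Lk G A s ∧ P (insert v s)}.ncard := by
  rw [← Set.ncard_coe_finset]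
  symm
  have hn : ∀ v ∈ Lk G A (s : Set V), v ∉ s := fun v hv k => G.irrefl (hv.2 v k)
  refine Set.ncard_congr (fun v _ => insert v s) (fun v hv => ?_) (fun v w hv hw e => ?_)
    fun t ht => ?_
  · refine Finset.mem_coe.2 (Finset.mem_filter.2 ⟨mem_K_H2.2 ⟨⟨?_, ?_⟩,
      Finset.card_insert_of_notMem (hn v hv.1)⟩, Finset.subset_insert _ _, hv.2⟩)
    · rw [Finset.coe_insert]
      exact Set.insert_subset hv.1.1 hs.1
    · rw [Finset.coe_insert]
      exact hs.2.insert fun b hb _ => (hv.1.2 b hb).symm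
  · have : v ∈ insert w s := e ▸ Finset.mem_insert_self _ _
    exact (Finset.mem_insert.1 this).resolve_right (hn v hv.1)
  · obtain ⟨h1, h2, h3⟩ := Finset.mem_filter.1 (Finset.mem_coe.1 ht)
    obtain ⟨h4, h5⟩ := mem_K_H2.1 h1
    obtain ⟨v, h6, rfl⟩ := Finset.exists_eq_insert_iff.2 ⟨h2, h5.symm⟩
    refine ⟨v, ⟨⟨h4.1 (by simp), fun u hu => h4.2 (by simp [Finset.mem_coe.1 hu]) (by simp) ?_⟩,
      h3⟩, rfl⟩
    rintro rfl
    exact h6 hu

theorem two_H2 {β : Finset V → Prop} (h : Mfa G 2 A β A) {hf : A.Finite} {e : Finset V}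
    (he : e ∈ K_H2 G hf 2) :
    (β e ∧ ((K_H2 G hf 3).filter (e ⊆ ·)).card = 1) ∨
      (¬ β e ∧ ((K_H2 G hf 3).filter (e ⊆ ·)).card = 2) := by
  obtain ⟨h1, h2⟩ := mem_K_H2.1 he
  obtain ⟨u, hu, w, -, -, h3⟩ := edge_H2 he
  have h4 := (h.link h1 ⟨u, by simp [h3], hu⟩).2
  have h5 := coface_H2 (hf := hf) h1 fun _ => True
  rw [h2] at h4 h5
  simp only [and_true, Set.ofPred_mem_eq] at h5
  obtain ⟨-, h6, h7, -⟩ := h4
  simp only [Finset.union_empty, if_true] at h7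
  rw [h5]
  rcases h6 with h6 | h6
  · exact Or.inl ⟨h7.2 h6, h6⟩
  · exact Or.inr ⟨fun k => by have := h7.1 k; omega, h6⟩

/-- Two triangles along a free edge. -/
theorem same_H2 {β : Finset V → Prop} (h : Mfa G 2 A β A) {hf : A.Finite} {s t : Finset V}
    (hs : Clq G A s) (ht : Clq G A t) (hs' : s.card = 3) (ht' : t.card = 3)
    (hc : (s ∩ t).card = 2) {φ : Finset V → ZMod 2}
    (hφ : s ∩ t ∈ K_H2 G hf 2 → ¬ β (s ∩ t) → ∑ x ∈ (K_H2 G hf 3).filter (s ∩ t ⊆ ·), φ x = 0) :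
    φ s = φ t := by
  have he : s ∩ t ∈ K_H2 G hf 2 := mem_K_H2.2 ⟨hs.subset Finset.inter_subset_left, hc⟩
  have hne : s ≠ t := by
    rintro rfl
    rw [Finset.inter_self] at hc
    omega
  have hsub : ({s, t} : Finset (Finset V)) ⊆ (K_H2 G hf 3).filter (s ∩ t ⊆ ·) := by
    intro x hx
    rcases Finset.mem_insert.1 hx with rfl | hx
    · exact Finset.mem_filter.2 ⟨mem_K_H2.2 ⟨hs, hs'⟩, Finset.inter_subset_left⟩
    · rw [Finset.mem_singleton.1 hx]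
      exact Finset.mem_filter.2 ⟨mem_K_H2.2 ⟨ht, ht'⟩, Finset.inter_subset_right⟩
  have hle := Finset.card_le_card hsub
  rw [Finset.card_pair hne] at hle
  rcases two_H2 h he with ⟨-, k⟩ | ⟨k1, k⟩
  · omega
  · have k2 := hφ he k1
    rw [← Finset.eq_of_subset_of_card_le hsub (by rw [k, Finset.card_pair hne]),
      Finset.sum_pair hne] at k2
    revert k2
    generalize φ s = x
    generalize φ t = y
    revert x y
    decide

theorem swap_H2 {α γ : Type} (E : Finset α) (T : Finset γ) (r : α → γ → Prop)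
    [∀ a c, Decidable (r a c)] (η : α → ZMod 2) :
    ∑ t ∈ T, ∑ e ∈ E.filter (r · t), η e = ∑ e ∈ E, ((T.filter (r e)).card : ZMod 2) * η e := by
  simp only [Finset.sum_filter]
  rw [Finset.sum_comm]
  refine Finset.sum_congr rfl fun e _ => ?_
  rw [← Finset.sum_filter, Finset.sum_const, nsmul_eq_mul]

/-- Extension of a function on the edges that are not free to a cocycle. -/
theorem core_H2 (hf : A.Finite) (Fr : Finset V → Prop) (η₀ : Finset V → ZMod 2)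
    (h : ∀ φ : Finset V → ZMod 2,
      (∀ e ∈ K_H2 G hf 2, Fr e → ∑ t ∈ (K_H2 G hf 3).filter (e ⊆ ·), φ t = 0) →
      ∑ t ∈ K_H2 G hf 3, φ t * ∑ e ∈ (K_H2 G hf 2).filter (· ⊆ t), η₀ e = 0) :
    ∃ θ : V → V → Z2, Flat G A θ ∧
      ∀ u w, u ≠ w → ¬ Fr {u, w} → θ u w = Multiplicative.ofAdd (η₀ {u, w}) := by
  obtain ⟨η₁, h1⟩ := solve_H2 ((K_H2 G hf 2).filter Fr) (K_H2 G hf 3) (· ⊆ ·) _ fun φ hφ =>
    h φ fun e he k => hφ e (Finset.mem_filter.2 ⟨he, k⟩)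
  let η : Finset V → ZMod 2 := fun e => η₀ e + if Fr e then η₁ e else 0
  have h2 : ∀ t ∈ K_H2 G hf 3, ∑ e ∈ (K_H2 G hf 2).filter (· ⊆ t), η e = 0 := by
    intro t ht
    rw [Finset.sum_add_distrib, ← Finset.sum_filter Fr, Finset.filter_comm, h1 t ht]
    exact CharTwo.add_self_eq_zero _
  refine ⟨fun u w => if u = w then 1 else Multiplicative.ofAdd (η {u, w}), ?_, fun u w k1 k2 => ?_⟩
  · intro u hu v hv w hw k1 k2 k3
    by_cases e1 : u = v
    · subst e1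
      simp
    by_cases e2 : v = w
    · subst e2
      simp
    by_cases e3 : u = w
    · subst e3
      simp only [if_neg e1, if_neg e2, if_true, Finset.pair_comm v u]
      exact z2_mul_self _
    simp only [if_neg e1, if_neg e2, if_neg e3]
    have k4 := h2 _ (tri_K_H2 hu hv hw (k1.resolve_left e1) (k2.resolve_left e2)
      (k3.resolve_left e3))
    rw [tri_sum_H2 hu hv hw (k1.resolve_left e1) (k2.resolve_left e2) (k3.resolve_left e3)] at k4
    rw [← ofAdd_add]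
    congr 1
    revert k4
    generalize η {u, v} = x
    generalize η {v, w} = y
    generalize η {u, w} = z
    revert x y z
    decide
  · simp only [if_neg k1, η, if_neg k2, add_zero]

/-- Extension of cocycles over a connected set. -/
theorem ext_two {β : Finset V → Prop} (h : Mfa G 2 A β A) (hf : A.Finite) {Z : Set V} (hZ : Z ⊆ A)
    (hc : Con G Z) (hb : (∀ v ∈ A, ¬ β {v}) ∨ ∃ z ∈ Z, β {z}) {θ : V → V → Z2}
    (hθ : Flat G (A \ Z) θ) :
    ∃ θ', Flat G A θ' ∧ ∀ u ∈ A \ Z, ∀ w ∈ A \ Z, Adq G u w → θ' u w = θ u w := by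
  let η₀ : Finset V → ZMod 2 := fun e => if ∃ u ∈ e, ∃ w ∈ e, θ u w ≠ 1 then 1 else 0
  have h0 : ∀ u ∈ A \ Z, ∀ w ∈ A \ Z, Adq G u w → Multiplicative.ofAdd (η₀ {u, w}) = θ u w := by
    intro u hu w hw k
    have k1 := hθ.self hu
    have k2 := hθ.self hw
    have k3 := hθ.symm hu hw k
    rw [z2_inv] at k3
    rcases z2_cases (θ u w) with e | e
    · have : ¬ ∃ a ∈ ({u, w} : Finset V), ∃ b ∈ ({u, w} : Finset V), θ a b ≠ 1 := by
        simp [k1, k2, k3, e]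
      simp only [η₀, if_neg this, e]
      rfl
    · have : ∃ a ∈ ({u, w} : Finset V), ∃ b ∈ ({u, w} : Finset V), θ a b ≠ 1 :=
        ⟨u, by simp, w, by simp, e ▸ neg_ne_one⟩
      simp only [η₀, if_pos this, e]
      rfl
  obtain ⟨θ', h1, h2⟩ := core_H2 (G := G) hf (fun e => Meets e Z) η₀ fun φ hφ => by
    obtain ⟨z₀, hz₀⟩ := hc.1
    obtain ⟨t₀, a1, a2, a3, -⟩ := h.pure (s := {z₀})
      (mem_sA_iff_clq.1 (singleton_mem_sA.2 (hZ hz₀))).2 ⟨z₀, by simp, hZ hz₀⟩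
    have hst : ∀ t ∈ K_H2 G hf 3, Meets t Z → φ t = φ t₀ := fun t ht hm =>
      (h.mono hZ).strong hZ hc.2 φ (fun s t hs ht hs' ht' k km =>
        same_H2 h hs ht hs' ht' k fun k1 _ => hφ _ k1 km) (mem_K_H2.1 ht).1 a1 (mem_K_H2.1 ht).2 a3
        hm ⟨z₀, a2 (by simp), hz₀⟩
    have hall : ∀ t ∈ K_H2 G hf 3, φ t * ∑ e ∈ (K_H2 G hf 2).filter (· ⊆ t), η₀ e =
        φ t₀ * ∑ e ∈ (K_H2 G hf 2).filter (· ⊆ t), η₀ e := by
      intro t ht
      by_cases hm : Meets t Z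
      · rw [hst t ht hm]
      obtain ⟨u, hu, v, hv, w, hw, k1, k2, k3, rfl⟩ := tri_H2 ht
      have hu' : u ∈ A \ Z := ⟨hu, fun k => hm ⟨u, by simp, k⟩⟩
      have hv' : v ∈ A \ Z := ⟨hv, fun k => hm ⟨v, by simp, k⟩⟩
      have hw' : w ∈ A \ Z := ⟨hw, fun k => hm ⟨w, by simp, k⟩⟩
      have k4 := hθ u hu' v hv' w hw' (Or.inr k1) (Or.inr k2) (Or.inr k3)
      rw [← h0 u hu' v hv' (Or.inr k1), ← h0 v hv' w hw' (Or.inr k2), ← h0 u hu' w hw' (Or.inr k3),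
        ← ofAdd_add] at k4
      rw [tri_sum_H2 hu hv hw k1 k2 k3, Multiplicative.ofAdd.injective k4,
        CharTwo.add_self_eq_zero, mul_zero, mul_zero]
    rw [Finset.sum_congr rfl hall, ← Finset.mul_sum]
    rcases hb with hb | ⟨z, hz, hb⟩
    · rw [swap_H2 _ _ fun e t : Finset V => e ⊆ t, Finset.sum_eq_zero, mul_zero]
      intro e he
      obtain ⟨u, hu, w, -, -, k⟩ := edge_H2 he
      rcases two_H2 h he with ⟨k1, -⟩ | ⟨-, k1⟩
      · exact absurd (h.down (mem_K_H2.1 he).1 (by simp [k]) ⟨u, by simp, hu⟩ k1) (hb u hu)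
      · rw [k1]
        exact mul_eq_zero_of_left (by decide) _
    · obtain ⟨v, hv, k⟩ := (h z (hZ hz)).2.2.1.1 (by simpa using hb)
      have he : ({z, v} : Finset V) ∈ K_H2 G hf 2 := pair_K_H2 (hZ hz) hv.1 (hv.2 z rfl)
      rcases two_H2 h he with ⟨-, k1⟩ | ⟨k1, -⟩
      · obtain ⟨t, ht⟩ := Finset.card_eq_one.1 k1
        have k2 := hφ _ he ⟨z, by simp, hz⟩
        have k3 := Finset.mem_filter.1 (ht ▸ Finset.mem_singleton_self t)
        rw [ht, Finset.sum_singleton, hst t k3.1 ⟨z, k3.2 (by simp), hz⟩] at k2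
        rw [k2, zero_mul]
      · exact absurd k k1
  refine ⟨θ', h1, fun u hu w hw k => ?_⟩
  by_cases e : u = w
  · subst e
    rw [h1.self hu.1, hθ.self hu]
  · rw [h2 u w e, h0 u hu w hw k]
    rintro ⟨x, hx, k1⟩
    rcases Finset.mem_insert.1 hx with rfl | hx
    · exact hu.2 k1
    · exact hw.2 (Finset.mem_singleton.1 hx ▸ k1)

theorem Cell.compl_ndc {β : Finset V → Prop} (h : Cell G 3 A β) {Z : Set V} (hZ : Z ⊆ A)
    (hc : Con G Z) (hb : ¬ β ∅ ∨ ∃ z ∈ Z, β {z}) : NDC G (A \ Z) := by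
  intro θ hθ
  obtain ⟨θ', h1, h2⟩ := ext_two h.mfa h.finite hZ hc
    (hb.imp_left fun k v hv k1 => k (h.2.2.1.2 ⟨v, hv, k1⟩)) hθ
  exact ((h.ndc θ' h1).mono Set.sdiff_subset).congr fun u hu w hw k => (h2 u hu w hw k).symm

/-- The boundary of a surface without double cover is connected. -/
theorem bd_pre {T : Set V} (h : Mf G 2 A T) (hf : A.Finite) (hc : Pre G A) (hn : NDC G A) :
    Pre G (A ∩ T) := by
  intro a ha b hb
  by_contra hab
  have hnb : ∀ x ∈ A ∩ T, ∃ y ∈ A ∩ T, G.Adj x y := by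
    intro x hx
    obtain ⟨v, hv, k⟩ := (h x hx.1).2.2.1.1 (by simpa [sub] using hx.2)
    exact ⟨v, ⟨hv.1, k (by simp)⟩, hv.2 x rfl⟩
  obtain ⟨a', ha', haa⟩ := hnb a ha
  obtain ⟨b', hb', hbb⟩ := hnb b hb
  have m1 : ∀ u ∈ A ∩ T, ∀ w ∈ A ∩ T, G.Adj u w →
      (Reach G (A ∩ T) a u ↔ Reach G (A ∩ T) a w) := fun u hu w hw k =>
    ⟨fun k1 => k1.trans (Reach.single hu hw (Or.inr k)),
      fun k1 => k1.trans (Reach.single hw hu (Or.inr k.symm))⟩
  have ra' : Reach G (A ∩ T) a a' := Reach.single ha ha' (Or.inr haa)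
  have hne : ({a, a'} : Finset V) ≠ {b, b'} := fun k => by
    have : b ∈ ({a, a'} : Finset V) := k ▸ Finset.mem_insert_self _ _
    rcases Finset.mem_insert.1 this with rfl | k1
    · exact hab (Reach.refl _)
    · exact hab (Finset.mem_singleton.1 k1 ▸ ra')
  have e1 : ({a, a'} : Finset V) ∈ K_H2 G hf 2 := pair_K_H2 ha.1 ha'.1 haa
  have e2 : ({b, b'} : Finset V) ∈ K_H2 G hf 2 := pair_K_H2 hb.1 hb'.1 hbb
  have s1 : sub T {a, a'} := by simp [sub, Set.insert_subset_iff, ha.2, ha'.2]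
  have s2 : sub T {b, b'} := by simp [sub, Set.insert_subset_iff, hb.2, hb'.2]
  let η₀ : Finset V → ZMod 2 := fun e =>
    (if e = {a, a'} then 1 else 0) + if e = {b, b'} then 1 else 0
  obtain ⟨θ, h1, h2⟩ := core_H2 (G := G) hf (fun e => ¬ sub T e) η₀ fun φ hφ => by
    obtain ⟨t₀, a1, a2, a3, -⟩ := Mfa.pure h (s := {a})
      (mem_sA_iff_clq.1 (singleton_mem_sA.2 ha.1)).2 ⟨a, by simp, ha.1⟩
    have hst : ∀ t ∈ K_H2 G hf 3, φ t * ∑ e ∈ (K_H2 G hf 2).filter (· ⊆ t), η₀ e =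
        φ t₀ * ∑ e ∈ (K_H2 G hf 2).filter (· ⊆ t), η₀ e := fun t ht => by
      obtain ⟨u, hu, v, -, w, -, -, -, -, k⟩ := tri_H2 ht
      rw [Mfa.strong h subset_rfl hc φ (fun s t hs ht hs' ht' k _ =>
        same_H2 h hs ht hs' ht' k fun k1 k2 => hφ _ k1 k2) (mem_K_H2.1 ht).1 a1 (mem_K_H2.1 ht).2 a3
        ⟨u, by simp [k], hu⟩ ⟨a, a2 (by simp), ha.1⟩]
    rw [Finset.sum_congr rfl hst, ← Finset.mul_sum, swap_H2 _ _ fun e t : Finset V => e ⊆ t]
    simp only [η₀, mul_add, Finset.sum_add_distrib, mul_ite, mul_one, mul_zero,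
      Finset.sum_ite_eq', if_pos e1, if_pos e2]
    rw [((two_H2 h e1).resolve_right fun k => k.1 s1).2,
      ((two_H2 h e2).resolve_right fun k => k.1 s2).2, CharTwo.add_self_eq_zero]
  obtain ⟨p, hp⟩ := hn θ h1
  let χ : V → ZMod 2 := fun v => if Reach G (A ∩ T) a v then Multiplicative.toAdd (p v) else 0
  have k1 := swap_H2 (hf.toFinset.filter (· ∈ T)) ((K_H2 G hf 2).filter (sub T))
    (fun v e => v ∈ e) χ
  have k2 : ∀ e ∈ (K_H2 G hf 2).filter (sub T),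
      ∑ v ∈ (hf.toFinset.filter (· ∈ T)).filter (· ∈ e), χ v = if e = {a, a'} then 1 else 0 := by
    intro e he
    obtain ⟨he1, he2⟩ := Finset.mem_filter.1 he
    obtain ⟨u, hu, w, hw, k, rfl⟩ := edge_H2 he1
    have hu' : u ∈ A ∩ T := ⟨hu, he2 (by simp)⟩
    have hw' : w ∈ A ∩ T := ⟨hw, he2 (by simp)⟩
    have q : (hf.toFinset.filter (· ∈ T)).filter (· ∈ ({u, w} : Finset V)) = {u, w} := by
      ext x
      simp only [Finset.mem_filter, Set.Finite.mem_toFinset, and_iff_right_iff_imp]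
      intro hx
      exact ⟨(mem_K_H2.1 he1).1.1 hx, he2 hx⟩
    rw [q, Finset.sum_pair k.ne]
    by_cases r : Reach G (A ∩ T) a u
    · have r' := (m1 u hu' w hw' k).1 r
      have q1 := hp u hu w hw (Or.inr k)
      have q2 : ({u, w} : Finset V) ≠ {b, b'} := fun k => by
        have : b ∈ ({u, w} : Finset V) := k ▸ Finset.mem_insert_self _ _
        rcases Finset.mem_insert.1 this with rfl | k1
        · exact hab r
        · exact hab (Finset.mem_singleton.1 k1 ▸ r')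
      rw [h2 u w k.ne (not_not.2 he2), z2_inv] at q1
      have q3 := congrArg Multiplicative.toAdd q1
      simp only [toAdd_ofAdd, toAdd_mul, η₀, if_neg q2, add_zero] at q3
      simp only [χ, if_pos r, if_pos r']
      exact q3.symm
    · have r' : ¬ Reach G (A ∩ T) a w := fun k1 => r ((m1 u hu' w hw' k).2 k1)
      have q2 : ({u, w} : Finset V) ≠ {a, a'} := fun k => by
        have : a ∈ ({u, w} : Finset V) := k ▸ Finset.mem_insert_self _ _
        rcases Finset.mem_insert.1 this with rfl | k1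
        · exact r (Reach.refl _)
        · exact r' (Finset.mem_singleton.1 k1 ▸ Reach.refl _)
      simp only [χ, if_neg r, if_neg r', if_neg q2, add_zero]
  rw [Finset.sum_congr rfl k2, Finset.sum_ite_eq', if_pos (Finset.mem_filter.2 ⟨e1, s1⟩),
    Finset.sum_eq_zero] at k1
  · exact one_ne_zero k1
  intro v hv
  obtain ⟨hv1, hv2⟩ := Finset.mem_filter.1 hv
  rw [Set.Finite.mem_toFinset] at hv1
  have k3 := coface_H2 (G := G) (hf := hf) (mem_sA_iff_clq.1 (singleton_mem_sA.2 hv1)).2 (sub T)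
  have k4 := (h v hv1).arc_ends (by simpa [sub] using hv2)
  simp only [Finset.card_singleton, Finset.coe_singleton, Finset.singleton_subset_iff] at k3
  simp only [Finset.pair_comm v] at k4
  rw [Finset.filter_filter, Finset.filter_congr fun _ _ => and_comm, k3, k4]
  exact mul_eq_zero_of_left (by decide) _

end Pool.Agent.MP_6374aa_g

end

section

/-! Joins and open intervals. -/

namespace Pool.Agent.MP_6374aa_g

open Pool.Agent.MP_6374aa_gt Classical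

variable {V V' V'' : Type} {G : SimpleGraph V} {G' : SimpleGraph V'} {G'' : SimpleGraph V''}
  {A : Set V} {A' : Set V'} {A'' : Set V''} {L : Type} [Group L]

theorem cell_mk_C2 {d : ℕ} {β : Finset V → Prop} (hd : d ≤ 2) (hf : A.Finite) (h : Mfa G d A β A)
    (h0 : d = 0 → (β ∅ ∧ A.ncard = 1) ∨ (¬ β ∅ ∧ A.ncard = 2))
    (h1 : 1 ≤ d → Con G A ∧ (β ∅ ↔ ∃ v ∈ A, β {v})) (h2 : d = 2 → NDC G A) :
    Cell G (d + 1) A β := by
  obtain rfl | rfl | rfl : d = 0 ∨ d = 1 ∨ d = 2 := by omega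
  · refine ⟨hf, ?_, ?_, h⟩
    · exact (h0 rfl).imp And.right And.right
    · rw [if_pos rfl]
      rcases h0 rfl with k | k
      · exact iff_of_true k.1 k.2
      · exact iff_of_false k.1 (by omega)
  · exact cell_two hf (h1 le_rfl).1 h (h1 le_rfl).2
  · exact cell_three hf (h1 (by omega)).1 (h2 rfl) h (h1 (by omega)).2

theorem join_con_C2 {A1 A2 : Set V} (h1 : A1.Nonempty) (h2 : A2.Nonempty)
    (h : ∀ a ∈ A1, ∀ b ∈ A2, G.Adj a b) : Con G (A1 ∪ A2) := by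
  obtain ⟨a, ha⟩ := h1
  obtain ⟨b, hb⟩ := h2
  refine ⟨⟨a, Or.inl ha⟩, pre_of_base (x := a) fun x hx => ?_⟩
  have k : ∀ y ∈ A2, Reach G (A1 ∪ A2) y a := fun y hy =>
    Reach.single (Or.inr hy) (Or.inl ha) (Or.inr (h a ha y hy).symm)
  rcases hx with hx | hx
  · exact (Reach.single (A := A1 ∪ A2) (Or.inl hx) (Or.inr hb) (Or.inr (h x hx b hb))).trans (k b hb)
  · exact k x hx

theorem join_ndc_C2 {A1 A2 : Set V} {β1 : Finset V → Prop} (h1 : Cell G 1 A1 β1) (h2 : Pre G A2)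
    (h : ∀ a ∈ A1, ∀ b ∈ A2, G.Adj a b) : NDC G (A1 ∪ A2) := by
  have cone : ∀ a ∈ A1, NDC G (insert a A2) := fun a ha =>
    (cone_sco (Set.mem_insert a A2) fun x hx =>
      hx.elim (fun e => Or.inl e.symm) fun k => Or.inr (h a ha x k)).2.ndc
  rcases (show A1.ncard = 1 ∨ A1.ncard = 2 from h1.2.1) with k | k
  · obtain ⟨a, rfl⟩ := Set.ncard_eq_one.1 k
    exact cone a rfl
  · obtain ⟨a, b, hab, rfl⟩ := Set.ncard_eq_two.1 k
    have ha : a ∈ ({a, b} : Set V) := Or.inl rfl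
    have hb : b ∈ ({a, b} : Set V) := Or.inr rfl
    have n1 : ¬ Adq G a b := fun e => e.elim hab (h1.one_no_adj a ha b hb)
    have n2 : ¬ Adq G b a := fun e => n1 (adq_symm e)
    refine glue_triv (X1 := insert a A2) (X2 := insert b A2) ⟨?_, ?_, ?_⟩ (cone a ha) (cone b hb) ?_
    · rintro x (rfl | hx)
      exacts [Or.inl ha, Or.inr hx]
    · rintro x (rfl | hx)
      exacts [Or.inl hb, Or.inr hx]
    · rintro u ((rfl | rfl) | hu) v ((rfl | rfl) | hv) w ((rfl | rfl) | hw) e1 e2 e3 <;>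
        first
        | exact absurd e1 n1 | exact absurd e1 n2 | exact absurd e2 n1 | exact absurd e2 n2
        | exact absurd e3 n1 | exact absurd e3 n2 | simp [*]
    · have e : insert a A2 ∩ insert b A2 = A2 := by
        ext x
        constructor
        · rintro ⟨rfl | k1, k2 | k2⟩
          exacts [absurd k2 hab, k2, k1, k1]
        · exact fun k => ⟨Or.inr k, Or.inr k⟩
      rwa [e]

theorem swap_C2 {d1 d2 : ℕ} {A1 A2 : Set V} {γ1 γ2 : Finset V → Prop}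
    (h : Cell G (d1 + d2) (A1 ∪ A2) fun s => γ1 s ∨ γ2 s) :
    Cell G (d2 + d1) (A2 ∪ A1) fun s => γ2 s ∨ γ1 s := by
  rw [Nat.add_comm, Set.union_comm]
  exact h.congr fun _ _ => or_comm

theorem join_zero_C2 {d2 : ℕ} {A1 A2 : Set V} {β1 β2 : Finset V → Prop} (h1 : Cell G 0 A1 β1)
    (h2 : Cell G d2 A2 β2) :
    Cell G (0 + d2) (A1 ∪ A2) fun s => β1 (s.filter (· ∈ A1)) ∨ β2 (s.filter (· ∈ A2)) := by
  obtain ⟨h0, hb⟩ := h1
  rw [Nat.zero_add, show A1 ∪ A2 = A2 by rw [h0, Set.empty_union]]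
  refine h2.congr fun s hs => ?_
  rw [Finset.filter_true_of_mem (p := (· ∈ A2)) fun x hx => hs.1 hx,
    Finset.filter_false_of_mem (p := (· ∈ A1)) fun x _ => by simp [h0]]
  exact ⟨Or.inr, fun k => k.resolve_left hb⟩

theorem join_lk_C2 {d : ℕ} {A1 A2 : Set V} {β1 β2 : Finset V → Prop}
    (h : ∀ a ∈ A1, ∀ b ∈ A2, G.Adj a b) {v : V} (hv : v ∈ A1)
    (k : Cell G d (Lk G A1 {v} ∪ A2) fun s =>
      β1 (insert v (s.filter (· ∈ Lk G A1 {v}))) ∨ β2 (s.filter (· ∈ A2))) :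
    Cell G d (Lk G (A1 ∪ A2) {v}) fun s =>
      β1 ((insert v s).filter (· ∈ A1)) ∨ β2 ((insert v s).filter (· ∈ A2)) := by
  have dis : ∀ x ∈ A1, x ∉ A2 := fun x h1 h2 => G.irrefl (h x h1 x h2)
  have e : Lk G (A1 ∪ A2) {v} = Lk G A1 {v} ∪ A2 := by
    ext x
    constructor
    · rintro ⟨k1 | k1, k2⟩
      exacts [Or.inl ⟨k1, k2⟩, Or.inr k1]
    · rintro (k1 | k1)
      · exact ⟨Or.inl k1.1, k1.2⟩
      · exact ⟨Or.inr k1, fun u hu => hu ▸ h v hv x k1⟩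
  rw [e]
  refine k.congr fun s hs => ?_
  have e1 : (insert v s).filter (· ∈ A1) = insert v (s.filter (· ∈ Lk G A1 {v})) := by
    rw [Finset.filter_insert, if_pos hv]
    congr 1
    refine Finset.filter_congr fun x hx => ⟨fun k1 => ?_, fun k1 => k1.1⟩
    exact (hs.1 hx).resolve_right (dis x k1)
  have e2 : (insert v s).filter (· ∈ A2) = s.filter (· ∈ A2) := by
    rw [Finset.filter_insert, if_neg (dis v hv)]
  rw [e1, e2]

theorem join_aux_C2 (n : ℕ) : ∀ {d1 d2 : ℕ} {A1 A2 : Set V} {β1 β2 : Finset V → Prop},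
    Cell G d1 A1 β1 → Cell G d2 A2 β2 → d1 + d2 = n → n ≤ 3 → (∀ a ∈ A1, ∀ b ∈ A2, G.Adj a b) →
    Cell G (d1 + d2) (A1 ∪ A2) fun s => β1 (s.filter (· ∈ A1)) ∨ β2 (s.filter (· ∈ A2)) := by
  induction n with
  | zero =>
    intro d1 d2 A1 A2 β1 β2 h1 h2 hn _ _
    obtain rfl : d1 = 0 := by omega
    exact join_zero_C2 h1 h2
  | succ n ih =>
    intro d1 d2 A1 A2 β1 β2 h1 h2 hn hd h
    have h' : ∀ a ∈ A2, ∀ b ∈ A1, G.Adj a b := fun a ha b hb => (h b hb a ha).symm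
    have dis : ∀ x ∈ A1, x ∉ A2 := fun x h1 h2 => G.irrefl (h x h1 x h2)
    obtain _ | e1 := d1
    · exact join_zero_C2 h1 h2
    obtain _ | e2 := d2
    · exact swap_C2 (join_zero_C2 h2 h1)
    rw [hn]
    have n1 := h1.nonempty
    have n2 := h2.nonempty
    refine cell_mk_C2 (by omega) (h1.finite.union h2.finite) ?_ (fun e => by omega)
      (fun _ => ⟨join_con_C2 n1 n2 h, ?_⟩) fun e => ?_
    · rintro v (hv | hv)
      · refine join_lk_C2 h hv ?_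
        have := ih (h1.mfa v hv) h2 (by omega) (by omega) fun a ha b hb => h a ha.1 b hb
        rwa [show e1 + (e2 + 1) = n by omega] at this
      · have := ih (h2.mfa v hv) h1 (by omega) (by omega) fun a ha b hb => h' a ha.1 b hb
        rw [show e2 + (e1 + 1) = n by omega] at this
        have k := join_lk_C2 h' hv this
        rw [Set.union_comm] at k
        exact k.congr fun _ _ => or_comm
    · simp only [Finset.filter_empty, Finset.filter_singleton]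
      constructor
      · rintro (k | k)
        · obtain ⟨v, hv⟩ := n2
          exact ⟨v, Or.inr hv, Or.inl (by rwa [if_neg fun c => dis v c hv])⟩
        · obtain ⟨v, hv⟩ := n1
          exact ⟨v, Or.inl hv, Or.inr (by rwa [if_neg (dis v hv)])⟩
      · have one : ∀ {B : Set V} {v : V}, v ∈ B → Clq G B {v} := fun hv =>
          ⟨by simpa using hv, by simp⟩
        rintro ⟨v, -, k | k⟩
        · refine Or.inl ?_
          split_ifs at k with c
          exacts [h1.down (one c) (Finset.empty_subset _) k, k]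
        · refine Or.inr ?_
          split_ifs at k with c
          exacts [h2.down (one c) (Finset.empty_subset _) k, k]
    · obtain ⟨rfl, rfl⟩ | ⟨rfl, rfl⟩ : (e1 = 0 ∧ e2 = 1) ∨ (e1 = 1 ∧ e2 = 0) := by omega
      · exact join_ndc_C2 h1 h2.con.2 h
      · rw [Set.union_comm]
        exact join_ndc_C2 h2 h1.con.2 h'

theorem sph_join_C2 {d d1 d2 : ℕ} {A1 A2 : Set V} (h1 : Sph G d1 A1) (h2 : Sph G d2 A2)
    (e : d1 + d2 = d) (hd : d ≤ 3) (h : ∀ a ∈ A1, ∀ b ∈ A2, G.Adj a b) : Sph G d (A1 ∪ A2) := by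
  subst e
  exact (join_aux_C2 _ h1 h2 rfl hd h).congr fun _ _ => or_self_iff

theorem ball_join_C2 {d d1 d2 : ℕ} {A1 A2 T : Set V} (h1 : Ball G d1 A1 T) (h2 : Sph G d2 A2)
    (e : d1 + d2 = d) (hd : d ≤ 3) (h : ∀ a ∈ A1, ∀ b ∈ A2, G.Adj a b) (hT : A2 ⊆ T) :
    Ball G d (A1 ∪ A2) T := by
  subst e
  refine (join_aux_C2 _ h1 h2 rfl hd h).congr fun s hs => ⟨fun k x hx => ?_, fun k => Or.inl fun x hx => ?_⟩
  · rcases hs.1 hx with c | c
    · exact k.resolve_right id (Finset.mem_coe.2 (Finset.mem_filter.2 ⟨hx, c⟩))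
    · exact hT c
  · exact k (Finset.mem_coe.2 (Finset.mem_filter.1 (Finset.mem_coe.1 hx)).1)

theorem mf_mk_C2 {d : ℕ} {T : Set V} (h1 : ∀ v ∈ A, v ∉ T → Sph G d (Lk G A {v}))
    (h2 : ∀ v ∈ A, v ∈ T → Ball G d (Lk G A {v}) T) : Mf G d A T := by
  intro v hv
  by_cases c : v ∈ T
  · refine (h2 v hv c).congr fun s _ => ?_
    simp [sub, Set.insert_subset_iff, c]
  · refine (h1 v hv c).congr fun s _ => ?_
    simp [sub, Set.insert_subset_iff, c]

/-- The open interval. -/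
def Ivl_C2 (a s : Finset V) : Set (Finset V) := {t | a ⊂ t ∧ t ⊂ s}

theorem lk_fam_C2 {s t : Finset V} {p : Finset V → Prop} (hp : ∀ u, t ⊂ u → p u) (ht : t ⊂ s) :
    Lk (sG V) {u | u ⊂ s ∧ p u} {t} = {u | u ⊂ t ∧ p u} ∪ Ivl_C2 t s := by
  ext u
  constructor
  · rintro ⟨⟨k1, k2⟩, k3⟩
    rcases k3 t rfl with c | c
    exacts [Or.inr ⟨c, k1⟩, Or.inl ⟨c, k2⟩]
  · rintro (⟨k1, k2⟩ | ⟨k1, k2⟩)
    · exact ⟨⟨k1.trans ht, k2⟩, fun w hw => hw ▸ Or.inr k1⟩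
    · exact ⟨⟨k2, hp u k1⟩, fun w hw => hw ▸ Or.inl k1⟩

theorem fam_adj_C2 {s t : Finset V} {p : Finset V → Prop} :
    ∀ u ∈ {u | u ⊂ t ∧ p u}, ∀ w ∈ Ivl_C2 t s, (sG V).Adj u w :=
  fun _ hu _ hw => Or.inl (hu.1.trans hw.1)

theorem fam_finite_C2 (s : Finset V) (p : Finset V → Prop) : {u | u ⊂ s ∧ p u}.Finite :=
  s.powerset.finite_toSet.subset fun _ hu => Finset.mem_coe.2 (Finset.mem_powerset.2 hu.1.1)

theorem ivl_eq_C2 (a s : Finset V) : Ivl_C2 a s = {u | u ⊂ s ∧ a ⊂ u} :=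
  Set.ext fun _ => and_comm

theorem ss_C2 {s t : Finset V} (h : t ⊆ s) (hc : t.card < s.card) : t ⊂ s :=
  Finset.ssubset_iff_subset_ne.2 ⟨h, fun e => by simp [e] at hc⟩

theorem up_C2 {P : Set (Finset V)} {s t : Finset V} (hs : s ∈ P) (ht : t ∈ P) (h : s ⊆ t) :
    Reach (sG V) P s t := Reach.single hs ht (adq_sG.2 (Or.inl h))

theorem ivl_con_C2 {a s : Finset V} (h : a ⊆ s) (hc : a.card + 3 ≤ s.card) :
    Con (sG V) (Ivl_C2 a s) := by
  obtain ⟨x, x1, x2⟩ := Finset.exists_of_ssubset (ss_C2 h (by omega))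
  have one : ∀ y ∈ s, y ∉ a → insert y a ∈ Ivl_C2 a s := fun y y1 y2 =>
    ⟨Finset.ssubset_insert y2, ss_C2 (Finset.insert_subset y1 h)
      ((Finset.card_insert_le _ _).trans_lt (by omega))⟩
  refine ⟨⟨_, one x x1 x2⟩, pre_of_base (x := insert x a) fun t ht => ?_⟩
  obtain ⟨y, y1, y2⟩ := Finset.exists_of_ssubset ht.1
  have y3 := ht.2.1 y1
  have two : insert y (insert x a) ∈ Ivl_C2 a s :=
    ⟨(Finset.ssubset_insert x2).trans_subset (Finset.subset_insert _ _),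
      ss_C2 (Finset.insert_subset y3 (Finset.insert_subset x1 h)) (by
        have := Finset.card_insert_le y (insert x a)
        have := Finset.card_insert_le x a
        omega)⟩
  exact (up_C2 (one y y3 y2) ht (Finset.insert_subset y1 ht.1.1)).symm.trans
    ((up_C2 (one y y3 y2) two (Finset.insert_subset_insert _ (Finset.subset_insert _ _))).trans
      (up_C2 (one x x1 x2) two (Finset.subset_insert _ _)).symm)

theorem ivl_ndc_C2 {a s : Finset V} (h : a ⊆ s) (hc : a.card + 4 ≤ s.card) :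
    NDC (sG V) (Ivl_C2 a s) := by
  obtain ⟨x, x1, x2⟩ := Finset.exists_of_ssubset (ss_C2 h (by omega))
  have c1 := Finset.card_insert_of_notMem x2
  have hm : insert x a ∈ Ivl_C2 a s :=
    ⟨Finset.ssubset_insert x2, ss_C2 (Finset.insert_subset x1 h) (by omega)⟩
  have low : ∀ u ∈ Ivl_C2 a s, u ⊆ insert x a → u = insert x a := fun u hu k =>
    Finset.eq_of_subset_of_card_le k (by have := Finset.card_lt_card hu.1; omega)
  have mem : ∀ u ∈ Ivl_C2 a s, Adq (sG V) u (insert x a) → x ∈ u := fun u hu k =>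
    (adq_sG.1 k).elim (fun k => (low u hu k).symm ▸ Finset.mem_insert_self x a)
      fun k => k (Finset.mem_insert_self x a)
  refine glue_triv (X1 := {t | t ∈ Ivl_C2 a s ∧ x ∈ t}) (X2 := {t | t ∈ Ivl_C2 a s ∧ t ≠ insert x a})
    ⟨fun _ k => k.1, fun _ k => k.1, fun u hu v hv w hw e1 e2 e3 => ?_⟩ ?_ ?_ ?_
  · by_cases k1 : u = insert x a
    · subst k1
      exact Or.inl ⟨⟨hu, mem _ hu (adq_refl _)⟩, ⟨hv, mem _ hv (adq_symm e1)⟩,
        hw, mem _ hw (adq_symm e3)⟩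
    by_cases k2 : v = insert x a
    · subst k2
      exact Or.inl ⟨⟨hu, mem _ hu e1⟩, ⟨hv, mem _ hv (adq_refl _)⟩, hw, mem _ hw (adq_symm e2)⟩
    by_cases k3 : w = insert x a
    · subst k3
      exact Or.inl ⟨⟨hu, mem _ hu e3⟩, ⟨hv, mem _ hv e2⟩, hw, mem _ hw (adq_refl _)⟩
    exact Or.inr ⟨⟨hu, k1⟩, ⟨hv, k2⟩, hw, k3⟩
  · exact (cone_sco (A := {t | t ∈ Ivl_C2 a s ∧ x ∈ t}) (a := insert x a)
      ⟨hm, Finset.mem_insert_self x a⟩ fun t ht =>
      adq_sG.2 (Or.inl (Finset.insert_subset ht.2 ht.1.1.1))).2.ndc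
  · have sub : ∀ t, a ⊆ t → a ⊆ t.erase x := fun t k =>
      Finset.subset_erase.2 ⟨k, x2⟩
    have pe := (ret_down (P := {t | t ∈ Ivl_C2 a s ∧ t ≠ insert x a})
      (P0 := {t | t ∈ Ivl_C2 a s ∧ x ∉ t}) (r := fun t => t.erase x)
      (fun t k => ⟨k.1, fun e => k.2 (e ▸ Finset.mem_insert_self x a)⟩)
      (fun t k => ⟨⟨⟨Finset.ssubset_iff_subset_ne.2 ⟨sub t k.1.1.1, fun e => k.2 (low t k.1 (by
          rw [e]
          exact Finset.subset_insert_iff.2 (by rw [← e])))⟩,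
        (Finset.erase_subset _ _).trans_ssubset k.1.2⟩, Finset.notMem_erase _ _⟩,
        Finset.erase_subset _ _⟩)
      (fun _ _ _ _ k => Finset.erase_subset_erase _ k)
      fun t k => Finset.erase_eq_of_notMem k.2).1
    refine pe.triv.1 (cone_sco (A := {t | t ∈ Ivl_C2 a s ∧ x ∉ t}) (a := s.erase x)
      ⟨⟨ss_C2 (sub s h) ?_, Finset.erase_ssubset x1⟩, Finset.notMem_erase _ _⟩ fun t ht =>
        adq_sG.2 (Or.inr (Finset.subset_erase.2 ⟨ht.1.2.1, ht.2⟩))).2.ndc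
    rw [Finset.card_erase_of_mem x1]
    omega
  · have e : {t | t ∈ Ivl_C2 a s ∧ x ∈ t} ∩ {t | t ∈ Ivl_C2 a s ∧ t ≠ insert x a} =
        Ivl_C2 (insert x a) s := by
      ext t
      constructor
      · rintro ⟨⟨k1, k2⟩, -, k3⟩
        exact ⟨Finset.ssubset_iff_subset_ne.2 ⟨Finset.insert_subset k2 k1.1.1, k3.symm⟩, k1.2⟩
      · rintro ⟨k1, k2⟩
        have k3 : t ∈ Ivl_C2 a s := ⟨hm.1.trans k1, k2⟩
        exact ⟨⟨k3, k1.1 (Finset.mem_insert_self x a)⟩, k3, k1.ne'⟩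
    rw [e]
    exact (ivl_con_C2 hm.2.1 (by omega)).2

theorem ivl_two_C2 {a s : Finset V} (h : a ⊆ s) (hc : s.card = a.card + 2) :
    (Ivl_C2 a s).ncard = 2 := by
  obtain ⟨x, y, hxy, e⟩ := Finset.card_eq_two.1
    (show (s \ a).card = 2 by rw [Finset.card_sdiff_of_subset h]; omega)
  have hx : x ∈ s \ a := by simp [e]
  have hy : y ∈ s \ a := by simp [e]
  rw [Finset.mem_sdiff] at hx hy
  have one : ∀ y ∈ s, y ∉ a → insert y a ∈ Ivl_C2 a s := fun y y1 y2 =>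
    ⟨Finset.ssubset_insert y2, ss_C2 (Finset.insert_subset y1 h)
      ((Finset.card_insert_le _ _).trans_lt (by omega))⟩
  refine Set.ncard_eq_two.2 ⟨insert x a, insert y a, fun c => ?_, ?_⟩
  · have : x ∈ insert y a := c ▸ Finset.mem_insert_self x a
    exact (Finset.mem_insert.1 this).elim hxy hx.2
  · ext t
    constructor
    · intro ht
      obtain ⟨z, z1, z2⟩ := Finset.exists_of_ssubset ht.1
      have z3 : z ∈ s \ a := Finset.mem_sdiff.2 ⟨ht.2.1 z1, z2⟩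
      have z4 : t = insert z a :=
        (Finset.eq_of_subset_of_card_le (Finset.insert_subset z1 ht.1.1) (by
          have := Finset.card_lt_card ht.2
          have := Finset.card_insert_of_notMem z2
          omega)).symm
      rw [e, Finset.mem_insert, Finset.mem_singleton] at z3
      rcases z3 with rfl | rfl
      exacts [Or.inl z4, Or.inr z4]
    · rintro (rfl | rfl)
      exacts [one x hx.1 hx.2, one _ hy.1 hy.2]

theorem ivl_sph_C2 (n : ℕ) : ∀ {a s : Finset V}, a ⊆ s → s.card = a.card + n + 1 → n ≤ 3 →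
    Sph (sG V) n (Ivl_C2 a s) := by
  induction n using Nat.strong_induction_on with
  | _ n ih =>
    intro a s h hc hn
    obtain _ | n := n
    · refine ⟨Set.eq_empty_of_forall_notMem fun t ht => ?_, id⟩
      have := Finset.card_lt_card ht.1
      have := Finset.card_lt_card ht.2
      omega
    refine cell_mk_C2 (by omega) (ivl_eq_C2 a s ▸ fam_finite_C2 s _) (fun t ht => ?_)
      (fun e => Or.inr ⟨id, ivl_two_C2 h (by omega)⟩)
      (fun e => ⟨ivl_con_C2 h (by omega), by simp⟩) fun e => ivl_ndc_C2 h (by omega)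
    have c1 := Finset.card_lt_card ht.1
    have c2 := Finset.card_lt_card ht.2
    change Sph (sG V) n _
    rw [ivl_eq_C2 a s, lk_fam_C2 (fun u k => ht.1.trans k) ht.2]
    refine sph_join_C2 (d1 := t.card - a.card - 1) (d2 := s.card - t.card - 1) ?_
      (ih _ (by omega) ht.2.1 (by omega) (by omega)) (by omega) (by omega) fam_adj_C2
    rw [← ivl_eq_C2]
    exact ih _ (by omega) ht.1.1 (by omega) (by omega)

end Pool.Agent.MP_6374aa_g

end

section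

/-! Joins and boundaries of simplices. -/

namespace Pool.Agent.MP_6374aa_g

open Pool.Agent.MP_6374aa_gt Classical

variable {V V' V'' : Type} {G : SimpleGraph V} {G' : SimpleGraph V'} {G'' : SimpleGraph V''}
  {A : Set V} {A' : Set V'} {A'' : Set V''} {L : Type} [Group L]

theorem Cell.join {d1 d2 : ℕ} {A1 A2 : Set V} {β1 β2 : Finset V → Prop} (h1 : Cell G d1 A1 β1)
    (h2 : Cell G d2 A2 β2) (hd : d1 + d2 ≤ 3) (h : ∀ a ∈ A1, ∀ b ∈ A2, G.Adj a b) :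
    Cell G (d1 + d2) (A1 ∪ A2) fun s => β1 (s.filter (· ∈ A1)) ∨ β2 (s.filter (· ∈ A2)) := by
  exact join_aux_C2 _ h1 h2 rfl hd h

theorem simplex_sph {s : Finset V} (h1 : s.Nonempty) (h4 : s.card ≤ 4) :
    Sph (sG V) (s.card - 1) {t | t.Nonempty ∧ t ⊂ s} := by
  have := h1.card_pos
  have k := ivl_sph_C2 (s.card - 1) (Finset.empty_subset s) (by simp; omega) (by omega)
  simpa only [Ivl_C2, Finset.empty_ssubset] using k

theorem meets_up_C2 {s t : Finset V} {Q : Set V} (h : Meets s Q) (k : s ⊆ t) : Meets t Q :=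
  h.imp fun _ c => ⟨k c.1, c.2⟩

theorem two_le_C2 {s : Finset V} {Q : Set V} (hm : Meets s Q) (hn : ¬ ↑s ⊆ Q) :
    ∃ q ∈ s, ∃ p ∈ s, q ∈ Q ∧ p ∉ Q ∧ 2 ≤ s.card := by
  obtain ⟨q, q1, q2⟩ := hm
  obtain ⟨p, p1, p2⟩ := Set.not_subset.1 hn
  exact ⟨q, q1, p, p1, q2, p2, Finset.one_lt_card.2 ⟨q, q1, p, p1, fun e => p2 (e ▸ q2)⟩⟩

theorem ball_sco_C2 {s : Finset V} {Q : Set V} (hm : Meets s Q) (hn : ¬ ↑s ⊆ Q) :
    Con (sG V) {t | t ⊂ s ∧ Meets t Q} ∧ SCo (sG V) {t | t ⊂ s ∧ Meets t Q} := by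
  have f1 : ∀ t : Finset V, Meets t Q → Meets (t.filter (· ∈ Q)) Q := fun t k =>
    k.imp fun _ c => ⟨Finset.mem_filter.2 c, c.2⟩
  have f2 : ∀ t : Finset V, ↑(t.filter (· ∈ Q)) ⊆ Q := fun t x hx =>
    (Finset.mem_filter.1 (Finset.mem_coe.1 hx)).2
  have pe := (ret_down (P := {t | t ⊂ s ∧ Meets t Q})
    (P0 := {t | (t ⊂ s ∧ Meets t Q) ∧ ↑t ⊆ Q}) (r := fun t => t.filter (· ∈ Q))
    (fun _ k => k.1)
    (fun t k => ⟨⟨⟨(Finset.filter_subset _ _).trans_ssubset k.1, f1 t k.2⟩, f2 t⟩,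
      Finset.filter_subset _ _⟩)
    (fun _ _ _ _ k => Finset.filter_subset_filter _ k)
    fun t k => Finset.filter_true_of_mem fun x hx => k.2 hx).1
  have c := cone_sco (G := sG V) (A := {t | (t ⊂ s ∧ Meets t Q) ∧ ↑t ⊆ Q})
    (a := s.filter (· ∈ Q))
    ⟨⟨Finset.ssubset_iff_subset_ne.2 ⟨Finset.filter_subset _ _, fun e => hn (e ▸ f2 s)⟩, f1 s hm⟩,
      f2 s⟩
    fun t ht => adq_sG.2 (Or.inr fun x hx => Finset.mem_filter.2 ⟨ht.1.1.1 hx, ht.2 hx⟩)
  exact ⟨pe.con.1 c.1, pe.sco.1 c.2⟩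

theorem pair_sub_C2 {s : Finset V} {x y : V} (hx : x ∈ s) (hy : y ∈ s) : {x, y} ⊆ s :=
  Finset.insert_subset hx (Finset.singleton_subset_iff.2 hy)

theorem pair_mix_C2 {Q : Set V} {x y : V} (hx : x ∈ Q) (hy : y ∉ Q) :
    Meets {x, y} Q ∧ ¬ ↑({x, y} : Finset V) ⊆ Q :=
  ⟨⟨x, Finset.mem_insert_self _ _, hx⟩, fun k => hy (k (by simp))⟩

theorem ball_aux_C2 {Q : Set V} (n : ℕ) : ∀ {s : Finset V}, s.card = n + 1 → n ≤ 3 → Meets s Q →
    ¬ ↑s ⊆ Q → Ball (sG V) n {t | t ⊂ s ∧ Meets t Q} {t | ¬ ↑t ⊆ Q} := by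
  induction n using Nat.strong_induction_on with
  | _ n ih =>
    intro s hc hn hm hs
    obtain ⟨q, q1, p, p1, q2, p2, c0⟩ := two_le_C2 hm hs
    obtain _ | n := n
    · omega
    have lk : ∀ t ∈ {t | t ⊂ s ∧ Meets t Q}, Lk (sG V) {t | t ⊂ s ∧ Meets t Q} {t} =
        {u | u ⊂ t ∧ Meets u Q} ∪ Ivl_C2 t s := fun t ht =>
      lk_fam_C2 (fun u k => meets_up_C2 ht.2 k.1) ht.1
    have up : ∀ t ∈ {t | t ⊂ s ∧ Meets t Q}, Sph (sG V) (s.card - t.card - 1) (Ivl_C2 t s) ∧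
        0 < t.card ∧ t.card < s.card := fun t ht => by
      have c1 := Finset.card_lt_card ht.1
      have c2 : 0 < t.card := Finset.card_pos.2 (ht.2.imp fun _ k => k.1)
      exact ⟨ivl_sph_C2 _ ht.1.1 (by omega) (by omega), c2, c1⟩
    have emp : sub {t : Finset V | ¬ ↑t ⊆ Q} ∅ := by simp [sub]
    refine cell_mk_C2 (by omega) (fam_finite_C2 s _)
      (mf_mk_C2 (fun t ht k => ?_) fun t ht k => ?_) (fun e => Or.inl ⟨emp, ?_⟩)
      (fun e => ⟨(ball_sco_C2 hm hs).1, iff_of_true emp ?_⟩) fun _ => (ball_sco_C2 hm hs).2.ndc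
    · obtain ⟨u1, u2, u3⟩ := up t ht
      rw [lk t ht]
      refine sph_join_C2 (d1 := t.card - 1) ?_ u1 (by omega) (by omega) fam_adj_C2
      have e : {u | u ⊂ t ∧ Meets u Q} = {u | u.Nonempty ∧ u ⊂ t} := by
        ext u
        exact ⟨fun c => ⟨c.2.imp fun _ k => k.1, c.1⟩,
          fun c => ⟨c.2, c.1.imp fun x hx => ⟨hx, not_not.1 k (c.2.1 hx)⟩⟩⟩
      rw [e]
      exact simplex_sph (Finset.card_pos.1 u2) (by omega)
    · obtain ⟨u1, u2, u3⟩ := up t ht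
      rw [lk t ht]
      exact ball_join_C2 (ih (t.card - 1) (by omega) (by omega) (by omega) ht.2 k) u1 (by omega)
        (by omega) fam_adj_C2 fun u hu c => k fun x hx => c (hu.1.1 hx)
    · refine Set.ncard_eq_one.2 ⟨{q}, Set.ext fun t => ⟨fun ht => ?_, ?_⟩⟩
      · obtain ⟨x, x1, x2⟩ := ht.2
        have c1 := Finset.card_lt_card ht.1
        have e1 : ({x} : Finset V) = t :=
          Finset.eq_of_subset_of_card_le (Finset.singleton_subset_iff.2 x1) (by simp; omega)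
        have e2 : ({q, p} : Finset V) = s := Finset.eq_of_subset_of_card_le (pair_sub_C2 q1 p1)
          (by rw [Finset.card_pair fun c : q = p => p2 (c ▸ q2)]; omega)
        have x3 := ht.1.1 x1
        rw [← e2, Finset.mem_insert, Finset.mem_singleton] at x3
        rcases x3 with rfl | rfl
        exacts [e1.symm, absurd x2 p2]
      · rintro rfl
        exact ⟨ss_C2 (Finset.singleton_subset_iff.2 q1) (by simp; omega),
          q, Finset.mem_singleton_self q, q2⟩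
    · refine ⟨{q, p}, ⟨ss_C2 (pair_sub_C2 q1 p1) (Finset.card_le_two.trans_lt (by omega)),
        (pair_mix_C2 q2 p2).1⟩, ?_⟩
      simpa only [sub, Finset.coe_singleton, Set.singleton_subset_iff, Set.mem_ofPred_eq]
        using (pair_mix_C2 q2 p2).2

theorem simplex_ball {s : Finset V} (h4 : s.card ≤ 4) {Q : Set V} (hm : Meets s Q)
    (hn : ¬ ↑s ⊆ Q) : Ball (sG V) (s.card - 1) {t | t ⊂ s ∧ Meets t Q} {t | ¬ ↑t ⊆ Q} := by
  obtain ⟨-, -, -, -, -, -, c0⟩ := two_le_C2 hm hn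
  exact ball_aux_C2 _ (by omega) (by omega) hm hn

theorem mix_con_C2 {s : Finset V} {Q : Set V} (hm : Meets s Q) (hn : ¬ ↑s ⊆ Q) (hc : 4 ≤ s.card) :
    Con (sG V) {t | t ⊂ s ∧ Meets t Q ∧ ¬ ↑t ⊆ Q} := by
  obtain ⟨q, q1, p, p1, q2, p2, -⟩ := two_le_C2 hm hn
  have two : ∀ x ∈ s, ∀ y ∈ s, x ∈ Q → y ∉ Q →
      ({x, y} : Finset V) ∈ {t | t ⊂ s ∧ Meets t Q ∧ ¬ ↑t ⊆ Q} := fun x x1 y y1 x2 y2 =>
    ⟨ss_C2 (pair_sub_C2 x1 y1) (Finset.card_le_two.trans_lt (by omega)), pair_mix_C2 x2 y2⟩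
  have three : ∀ z ∈ s, ∀ x ∈ s, ∀ y ∈ s, x ∈ Q → y ∉ Q →
      ({z, x, y} : Finset V) ∈ {t | t ⊂ s ∧ Meets t Q ∧ ¬ ↑t ⊆ Q} := fun z z1 x x1 y y1 x2 y2 =>
    ⟨ss_C2 (Finset.insert_subset z1 (pair_sub_C2 x1 y1))
      (Finset.card_le_three.trans_lt (by omega)), ⟨x, by simp, x2⟩, fun k => y2 (k (by simp))⟩
  refine ⟨⟨_, two q q1 p p1 q2 p2⟩, pre_of_base (x := {q, p}) fun t ht => ?_⟩
  obtain ⟨x, x1, y, y1, x2, y2, -⟩ := two_le_C2 ht.2.1 ht.2.2
  have x3 := ht.1.1 x1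
  have y3 := ht.1.1 y1
  exact (up_C2 (two x x3 y y3 x2 y2) ht (pair_sub_C2 x1 y1)).symm.trans
    ((up_C2 (two x x3 y y3 x2 y2) (three q q1 x x3 y y3 x2 y2) (Finset.subset_insert _ _)).trans
      ((up_C2 (two q q1 y y3 q2 y2) (three q q1 x x3 y y3 x2 y2)
        (pair_sub_C2 (by simp) (by simp))).symm.trans
        ((up_C2 (two q q1 y y3 q2 y2) (three y y3 q q1 p p1 q2 p2)
          (pair_sub_C2 (by simp) (by simp))).trans
          (up_C2 (two q q1 p p1 q2 p2) (three y y3 q q1 p p1 q2 p2)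
            (Finset.subset_insert _ _)).symm)))

theorem mix_two_C2 {s : Finset V} {Q : Set V} (hm : Meets s Q) (hn : ¬ ↑s ⊆ Q) (hc : s.card = 3) :
    {t | t ⊂ s ∧ Meets t Q ∧ ¬ ↑t ⊆ Q}.ncard = 2 := by
  obtain ⟨q, q1, p, p1, q2, p2, -⟩ := two_le_C2 hm hn
  have two : ∀ x ∈ s, ∀ y ∈ s, x ∈ Q → y ∉ Q →
      ({x, y} : Finset V) ∈ {t | t ⊂ s ∧ Meets t Q ∧ ¬ ↑t ⊆ Q} := fun x x1 y y1 x2 y2 =>
    ⟨ss_C2 (pair_sub_C2 x1 y1) (Finset.card_le_two.trans_lt (by omega)), pair_mix_C2 x2 y2⟩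
  obtain ⟨z, z1, z2⟩ := Finset.exists_of_ssubset (two q q1 p p1 q2 p2).1
  have qp : q ≠ p := fun c => p2 (c ▸ q2)
  have e : insert z ({q, p} : Finset V) = s :=
    Finset.eq_of_subset_of_card_le (Finset.insert_subset z1 (pair_sub_C2 q1 p1))
      (by rw [Finset.card_insert_of_notMem z2, Finset.card_pair qp]; omega)
  have all : ∀ x ∈ s, x = z ∨ x = q ∨ x = p := fun x hx => by
    rw [← e] at hx
    simpa using hx
  have key : ∀ t ∈ {t | t ⊂ s ∧ Meets t Q ∧ ¬ ↑t ⊆ Q},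
      ∃ x ∈ s, ∃ y ∈ s, x ∈ Q ∧ y ∉ Q ∧ t = {x, y} := fun t ht => by
    obtain ⟨x, x1, y, y1, x2, y2, -⟩ := two_le_C2 ht.2.1 ht.2.2
    have c1 := Finset.card_lt_card ht.1
    exact ⟨x, ht.1.1 x1, y, ht.1.1 y1, x2, y2, (Finset.eq_of_subset_of_card_le (pair_sub_C2 x1 y1)
      (by rw [Finset.card_pair fun c : x = y => y2 (c ▸ x2)]; omega)).symm⟩
  by_cases hz : z ∈ Q
  · refine Set.ncard_eq_two.2 ⟨{q, p}, {z, p}, fun c => z2 (c ▸ Finset.mem_insert_self _ _),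
      Set.ext fun t => ⟨fun ht => ?_, ?_⟩⟩
    · obtain ⟨x, x1, y, y1, x2, y2, rfl⟩ := key t ht
      obtain rfl : y = p := ((all y y1).resolve_left fun c => y2 (c ▸ hz)).resolve_left
        fun c => y2 (c ▸ q2)
      rcases all x x1 with rfl | rfl | rfl
      exacts [Or.inr rfl, Or.inl rfl, absurd x2 y2]
    · rintro (rfl | rfl)
      exacts [two q q1 p p1 q2 p2, two z z1 p p1 hz p2]
  · refine Set.ncard_eq_two.2 ⟨{q, p}, {q, z}, fun c => z2 (c ▸ by simp),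
      Set.ext fun t => ⟨fun ht => ?_, ?_⟩⟩
    · obtain ⟨x, x1, y, y1, x2, y2, rfl⟩ := key t ht
      obtain rfl : x = q := ((all x x1).resolve_left fun c => hz (c ▸ x2)).resolve_right
        fun c => p2 (c ▸ x2)
      rcases all y y1 with rfl | rfl | rfl
      exacts [Or.inr rfl, absurd x2 y2, Or.inl rfl]
    · rintro (rfl | rfl)
      exacts [two q q1 p p1 q2 p2, two q q1 z z1 q2 hz]

theorem mix_aux_C2 {Q : Set V} (n : ℕ) : ∀ {s : Finset V}, s.card = n + 2 → n ≤ 2 → Meets s Q →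
    ¬ ↑s ⊆ Q → Sph (sG V) n {t | t ⊂ s ∧ Meets t Q ∧ ¬ ↑t ⊆ Q} := by
  induction n using Nat.strong_induction_on with
  | _ n ih =>
    intro s hc hn hm hs
    obtain _ | n := n
    · refine ⟨Set.eq_empty_of_forall_notMem fun t ht => ?_, id⟩
      obtain ⟨-, -, -, -, -, -, c0⟩ := two_le_C2 ht.2.1 ht.2.2
      have := Finset.card_lt_card ht.1
      omega
    refine cell_mk_C2 (by omega) (fam_finite_C2 s _) (fun t ht => ?_)
      (fun e => Or.inr ⟨id, mix_two_C2 hm hs (by omega)⟩)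
      (fun e => ⟨mix_con_C2 hm hs (by omega), by simp⟩) fun e => by omega
    obtain ⟨-, -, -, -, -, -, c0⟩ := two_le_C2 ht.2.1 ht.2.2
    have c1 := Finset.card_lt_card ht.1
    change Sph (sG V) n _
    rw [lk_fam_C2 (p := fun t => Meets t Q ∧ ¬ ↑t ⊆ Q)
      (fun u k => ⟨meets_up_C2 ht.2.1 k.1, fun c => ht.2.2 fun x hx => c (k.1 hx)⟩) ht.1]
    exact sph_join_C2 (d2 := s.card - t.card - 1)
      (ih (t.card - 2) (by omega) (by omega) (by omega) ht.2.1 ht.2.2)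
      (ivl_sph_C2 _ ht.1.1 (by omega) (by omega)) (by omega) (by omega) fam_adj_C2

theorem simplex_mix {s : Finset V} (h4 : s.card ≤ 4) {Q : Set V} (hm : Meets s Q)
    (hn : ¬ ↑s ⊆ Q) : Sph (sG V) (s.card - 2) {t | t ⊂ s ∧ Meets t Q ∧ ¬ ↑t ⊆ Q} := by
  obtain ⟨-, -, -, -, -, -, c0⟩ := two_le_C2 hm hn
  exact mix_aux_C2 _ (by omega) (by omega) hm hn

/-- The cone over a cell. -/
theorem Cell.cone {d : ℕ} {β : Finset V → Prop} (h : Cell G d A β) (hd : d ≤ 2) {c : V}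
    (hc : ∀ a ∈ A, G.Adj c a) :
    Cell G (d + 1) (insert c A) fun s => c ∉ s ∨ β (s.erase c) := by
  have h1 : Cell G 1 {c} fun s => c ∉ s := by
    refine cell_mk_C2 (d := 0) (by omega) (Set.finite_singleton c) ?_
      (fun _ => Or.inl ⟨by simp, Set.ncard_singleton c⟩) (fun e => by omega) fun e => by omega
    rintro v rfl
    exact ⟨Set.eq_empty_of_forall_notMem fun w hw => G.irrefl (hw.2 w hw.1), by simp⟩
  have k := Cell.join h1 h (by omega) fun a ha b hb => ha ▸ hc b hb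
  rw [Nat.add_comm, Set.singleton_union] at k
  refine k.congr fun s hs => or_congr (by simp) ?_
  have e : s.filter (· ∈ A) = s.erase c := by
    ext x
    rw [Finset.mem_filter, Finset.mem_erase]
    exact ⟨fun c1 => ⟨fun c2 => G.irrefl (c2 ▸ hc x c1.2), c1.1⟩,
      fun c1 => ⟨c1.2, (hs.1 c1.2).resolve_left c1.1⟩⟩
  rw [e]

end Pool.Agent.MP_6374aa_g

end

section

/-! Subdivisions, neighbourhoods and frontiers of manifolds. -/

namespace Pool.Agent.MP_6374aa_g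

open Pool.Agent.MP_6374aa_gt Classical

variable {V V' V'' : Type} {G : SimpleGraph V} {G' : SimpleGraph V'} {G'' : SimpleGraph V''}
  {A : Set V} {A' : Set V'} {A'' : Set V''} {L : Type} [Group L]

theorem mem_top_C3 {σ : Finset (Finset V)} {x : V} : x ∈ top σ ↔ ∃ t ∈ σ, x ∈ t :=
  Finset.mem_sup

theorem top_empty_C3 : top (∅ : Finset (Finset V)) = ∅ := by
  ext x
  simp [mem_top_C3]

theorem top_single_C3 (s : Finset V) : top {s} = s := by
  ext x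
  simp [mem_top_C3]

theorem nb_self_C3 : nb G A A = sA G A := by
  ext s
  refine ⟨fun h => h.1, fun h => ⟨h, ?_⟩⟩
  obtain ⟨v, hv⟩ := h.1
  exact ⟨v, hv, h.2.1 (Finset.mem_coe.2 hv)⟩

theorem upper_aux_C3 {e : ℕ} {β : Finset V → Prop} {s : Finset V} (hs : Clq G A s)
    (h : Cell (sG V) e (sA G (Lk G A s)) fun σ => β (s ∪ top σ)) :
    Cell (sG V) e {t | t ∈ sA G A ∧ s ⊂ t} fun σ => β (s ∪ top σ) := by
  refine (IsIso.cell (upper_iso hs) fun σ _ => ?_).2 h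
  have e : s ∪ top σ = s ∪ top (σ.image fun t => t \ s) := by
    ext x
    simp only [Finset.mem_union, mem_top_C3, Finset.mem_image]
    constructor
    · rintro (h | ⟨t, ht, hx⟩)
      · exact Or.inl h
      · by_cases hxs : x ∈ s
        · exact Or.inl hxs
        · exact Or.inr ⟨_, ⟨t, ht, rfl⟩, Finset.mem_sdiff.2 ⟨hx, hxs⟩⟩
    · rintro (h | ⟨_, ⟨t, ht, rfl⟩, hx⟩)
      · exact Or.inl h
      · exact Or.inr ⟨t, ht, (Finset.mem_sdiff.1 hx).1⟩
  rw [e]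
  exact iff_of_eq (congrArg (fun i : DecidableEq (Finset V) =>
    β (s ∪ top (@Finset.image _ _ i (fun t => t \ s) σ))) (Subsingleton.elim _ _))

/-- The link of `s` in an upward closed family is the join of the lower and the upper part. -/
theorem join_C3 {d d1 e : ℕ} {β : Finset V → Prop} {β1 γ : Finset (Finset V) → Prop}
    {s : Finset V} {P D : Set (Finset V)} (hP : P ⊆ sA G A)
    (hu : ∀ t ∈ sA G A, s ⊂ t → t ∈ P) (hD : ∀ t, t ∈ D ↔ t ∈ P ∧ t ⊂ s)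
    (h1 : Cell (sG V) d1 D β1)
    (h2 : Cell (sG V) e {t | t ∈ sA G A ∧ s ⊂ t} fun σ => β (s ∪ top σ)) (hd : d1 + e = d)
    (h3 : d ≤ 3)
    (hγ : ∀ σ τ ρ : Finset (Finset V), (∀ t ∈ σ, t ∈ D ∨ (t ∈ sA G A ∧ s ⊂ t)) →
      (∀ t, t ∈ τ ↔ t ∈ σ ∧ t ∈ D) → (∀ t, t ∈ ρ ↔ t = s ∨ t ∈ σ) →
        (β1 τ ∨ β (top ρ) ↔ γ ρ)) : Mfa (sG V) d P γ {s} := by
  intro s' hs'
  obtain rfl : s = s' := hs'.symm
  have hj := h1.join h2 (hd ▸ h3) fun a ha b hb => Or.inl (((hD a).1 ha).2.trans hb.2)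
  have e1 : Lk (sG V) P {s} = D ∪ {t | t ∈ sA G A ∧ s ⊂ t} := by
    ext t
    constructor
    · rintro ⟨h4, h5⟩
      rcases h5 s rfl with h6 | h6
      · exact Or.inr ⟨hP h4, h6⟩
      · exact Or.inl ((hD t).2 ⟨h4, h6⟩)
    · rintro (h4 | h4)
      · exact ⟨((hD t).1 h4).1, fun u hu' => by
          rw [Set.mem_singleton_iff.1 hu']; exact Or.inr ((hD t).1 h4).2⟩
      · exact ⟨hu t h4.1 h4.2, fun u hu' => by
          rw [Set.mem_singleton_iff.1 hu']; exact Or.inl h4.2⟩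
  rw [e1, ← hd]
  refine hj.congr fun σ hσ => ?_
  have hσ' : ∀ t ∈ σ, t ∈ D ∨ (t ∈ sA G A ∧ s ⊂ t) := fun t ht => hσ.1 (Finset.mem_coe.2 ht)
  have e2 : ∀ τ ρ : Finset (Finset V), (∀ t, t ∈ τ ↔ t ∈ σ ∧ t ∈ {t | t ∈ sA G A ∧ s ⊂ t}) →
      (∀ t, t ∈ ρ ↔ t = s ∨ t ∈ σ) → (β (s ∪ top τ) ↔ β (top ρ)) := by
    intro τ ρ h4 h5
    refine iff_of_eq (congrArg β ?_)
    ext x
    simp only [Finset.mem_union, mem_top_C3, h4, h5]
    constructor
    · rintro (h | ⟨t, ht, hx⟩)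
      · exact ⟨s, Or.inl rfl, h⟩
      · exact ⟨t, Or.inr ht.1, hx⟩
    · rintro ⟨t, rfl | ht, hx⟩
      · exact Or.inl hx
      · rcases hσ' t ht with h4 | h4
        · exact Or.inl (((hD t).1 h4).2.subset hx)
        · exact Or.inr ⟨t, ⟨ht, h4⟩, hx⟩
  refine Iff.trans (or_congr Iff.rfl (e2 _ _ (fun t => ?_) fun t => ?_))
    (hγ σ _ _ hσ' (fun t => ?_) fun t => ?_)
  all_goals first | exact @Finset.mem_filter _ _ (_) _ _ | exact @Finset.mem_insert _ (_) _ _ _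

/-- The link of a simplex in the subdivision. -/
theorem lk_sA_C3 {d : ℕ} {β : Finset V → Prop} {s : Finset V} (hs : s ∈ sA G A)
    (hc : s.card ≤ d + 1) (hd : d ≤ 3)
    (h : Cell (sG V) (d + 1 - s.card) (sA G (Lk G A s)) fun σ => β (s ∪ top σ)) :
    Mfa (sG V) d (sA G A) (fun σ => β (top σ)) {s} := by
  have hp := hs.1.card_pos
  refine join_C3 (fun _ h => h) (fun _ h _ => h) (fun t => ?_)
    (simplex_sph hs.1 (by omega)) (upper_aux_C3 hs.2 h) (by omega) hd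
    fun σ τ ρ _ _ _ => by rw [false_or]
  exact ⟨fun h => ⟨sA_down hs h.2.subset h.1, h.2⟩, fun h => ⟨h.1.1, h.2⟩⟩

theorem sA_one_C3 (h : ∀ a ∈ A, ∀ b ∈ A, ¬ G.Adj a b) : (sA G A).ncard = A.ncard := by
  have e : sA G A = (fun a => ({a} : Finset V)) '' A := by
    ext s
    constructor
    · intro hs
      obtain ⟨⟨a, ha⟩, h1, h2⟩ := mem_sA.1 hs
      refine ⟨a, h1 (Finset.mem_coe.2 ha), (Finset.eq_singleton_iff_unique_mem.2
        ⟨ha, fun b hb => ?_⟩).symm⟩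
      exact (h2 b hb a ha).resolve_right
        (h b (h1 (Finset.mem_coe.2 hb)) a (h1 (Finset.mem_coe.2 ha)))
    · rintro ⟨a, ha, rfl⟩
      exact singleton_mem_sA.2 ha
  rw [e, Set.ncard_image_of_injective _ Finset.singleton_injective]

theorem sd_C3 (d : ℕ) : ∀ {A : Set V} {β : Finset V → Prop}, Cell G d A β → d ≤ 3 →
    Cell (sG V) d (sA G A) fun σ => β (top σ) := by
  induction d using Nat.strong_induction_on with
  | _ d ih =>
    intro A β h hd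
    cases d with
    | zero =>
      obtain ⟨rfl, h2⟩ := h
      refine ⟨Set.eq_empty_of_forall_notMem fun s hs => ?_, by
        beta_reduce
        rwa [top_empty_C3]⟩
      obtain ⟨v, hv⟩ := hs.1
      exact hs.2.1 (Finset.mem_coe.2 hv)
    | succ d =>
      have h' := h
      obtain ⟨h1, h2, h3, -⟩ := h'
      refine ⟨sA_finite h1, ?_, ?_, fun s hs => ?_⟩
      · match d, h, h2 with
        | 0, h, h2 =>
          show _ ∨ _
          rw [sA_one_C3 h.one_no_adj]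
          exact h2
        | 1, _, h2 => exact con_sA.2 h2
        | _ + 2, _, h2 => exact ⟨con_sA.2 h2.1, triv_sA.2 h2.2⟩
      · beta_reduce
        rw [top_empty_C3, h3]
        by_cases h0 : d = 0
        · subst h0
          rw [if_pos rfl, if_pos rfl, sA_one_C3 h.one_no_adj]
        · rw [if_neg h0, if_neg h0]
          constructor
          · rintro ⟨v, hv, hb⟩
            exact ⟨{v}, singleton_mem_sA.2 hv, by rwa [top_single_C3]⟩
          · rintro ⟨s, hs, hb⟩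
            rw [top_single_C3] at hb
            obtain ⟨v, hv⟩ := hs.1
            exact ⟨v, hs.2.1 (Finset.mem_coe.2 hv),
              h.down hs.2 (Finset.singleton_subset_iff.2 hv) hb⟩
      · obtain ⟨h4, h5⟩ := h.link hs.2
        have hp := hs.1.card_pos
        exact lk_sA_C3 hs h4 (by omega) (ih _ (by omega) h5 (by omega)) s rfl

theorem upper_C3 {e : ℕ} {β : Finset V → Prop} {s : Finset V} (hs : Clq G A s)
    (h : Cell G e (Lk G A s) fun t => β (s ∪ t)) (he : e ≤ 3) :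
    Cell (sG V) e {t | t ∈ sA G A ∧ s ⊂ t} fun σ => β (s ∪ top σ) :=
  upper_aux_C3 hs (sd_C3 e h he)

theorem sub_ins_C3 (T : Set V) : (fun σ => sub T (top σ)) = sub (ins T) :=
  funext fun _ => propext top_subset_iff

theorem meets_C3 {Q : Set V} {s : Finset V} (hs : s ∈ sA G A) (hm : Meets s Q) :
    Meets s (A ∩ Q) := by
  obtain ⟨v, hv, hq⟩ := hm
  exact ⟨v, hv, hs.2.1 (Finset.mem_coe.2 hv), hq⟩

theorem meets_up_C3 {Q : Set V} {s t : Finset V} (hm : Meets s Q) (h : s ⊆ t) : Meets t Q := by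
  obtain ⟨v, hv, hq⟩ := hm
  exact ⟨v, h hv, hq⟩

theorem nb_C3 {d : ℕ} {β : Finset V → Prop} {Q : Set V} (h : Mfa G d A β (A ∩ Q)) (hd : d ≤ 3) :
    Mfa (sG V) d (nb G A Q) (fun σ => β (top σ) ∨ ↑σ ⊆ fr G A Q) (nb G A Q) := by
  intro s hs
  obtain ⟨h4, h5⟩ := h.link hs.1.2 (meets_C3 hs.1 hs.2)
  have hp := hs.1.1.card_pos
  have hU := upper_C3 hs.1.2 h5 (by omega)
  suffices H : Mfa (sG V) d (nb G A Q) (fun σ => β (top σ) ∨ ↑σ ⊆ fr G A Q) {s} from H s rfl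
  by_cases hQ : ↑s ⊆ Q
  · refine join_C3 (fun _ h => h.1)
      (fun t ht h => ⟨ht, meets_up_C3 hs.2 h.subset⟩) (fun t => ?_)
      (simplex_sph hs.1.1 (by omega)) hU (by omega) hd fun σ τ ρ _ _ h3 => ?_
    · refine ⟨fun h => ⟨⟨sA_down hs.1 h.2.subset h.1, ?_⟩, h.2⟩, fun h => ⟨h.1.1.1, h.2⟩⟩
      obtain ⟨v, hv⟩ := h.1
      exact ⟨v, hv, hQ (Finset.mem_coe.2 (h.2.subset hv))⟩
    · rw [false_or]
      refine ⟨Or.inl, fun h => h.resolve_right fun h' => ?_⟩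
      exact (h' (Finset.mem_coe.2 ((h3 s).2 (Or.inl rfl)))).2.2 hQ
  · refine join_C3 (fun _ h => h.1)
      (fun t ht h => ⟨ht, meets_up_C3 hs.2 h.subset⟩) (fun t => ?_)
      (simplex_ball (by omega) hs.2 hQ) hU (by omega) hd fun σ τ ρ h1 h2 h6 => ?_
    · refine ⟨fun h => ⟨⟨sA_down hs.1 h.1.subset ?_, h.2⟩, h.1⟩, fun h => ⟨h.2, h.1.2⟩⟩
      obtain ⟨v, hv, -⟩ := h.2
      exact ⟨v, hv⟩
    · rw [or_comm]
      refine or_congr Iff.rfl ⟨fun h t ht => ?_, fun h t ht => ?_⟩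
      · rcases (h6 t).1 (Finset.mem_coe.1 ht) with rfl | ht
        · exact ⟨hs.1, hs.2, hQ⟩
        · rcases h1 t ht with h3 | h3
          · obtain ⟨v, hv, hq⟩ := h3.2
            exact ⟨sA_down hs.1 h3.1.subset ⟨v, hv⟩, h3.2,
              h (Finset.mem_coe.2 ((h2 t).2 ⟨ht, h3⟩))⟩
          · exact ⟨h3.1, meets_up_C3 hs.2 h3.2.subset,
              fun h' => hQ ((Finset.coe_subset.2 h3.2.subset).trans h')⟩
      · exact (h (Finset.mem_coe.2 ((h6 t).2 (Or.inr ((h2 t).1 (Finset.mem_coe.1 ht)).1)))).2.2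

theorem fr_C3 {d : ℕ} {β : Finset V → Prop} {Q : Set V} (h : Mfa G (d + 1) A β (A ∩ Q))
    (hd : d ≤ 2) : Mfa (sG V) d (fr G A Q) (fun σ => β (top σ)) (fr G A Q) := by
  intro s hs
  obtain ⟨h4, h5⟩ := h.link hs.1.2 (meets_C3 hs.1 hs.2.1)
  have hp : 1 < s.card := by
    obtain ⟨v, hv, hq⟩ := hs.2.1
    obtain ⟨w, hw, hq'⟩ := Set.not_subset.1 hs.2.2
    exact Finset.one_lt_card.2 ⟨v, hv, w, Finset.mem_coe.1 hw, fun e => hq' (e ▸ hq)⟩
  suffices H : Mfa (sG V) d (fr G A Q) (fun σ => β (top σ)) {s} from H s rfl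
  refine join_C3 (fun _ h => h.1)
    (fun t ht h => ⟨ht, meets_up_C3 hs.2.1 h.subset,
      fun h' => hs.2.2 ((Finset.coe_subset.2 h.subset).trans h')⟩) (fun t => ?_)
    (simplex_mix (by omega) hs.2.1 hs.2.2) (upper_C3 hs.1.2 h5 (by omega)) (by omega) (by omega)
    fun σ τ ρ _ _ _ => by rw [false_or]
  refine ⟨fun h => ⟨⟨sA_down hs.1 h.1.subset ?_, h.2⟩, h.1⟩, fun h => ⟨h.2, h.1.2⟩⟩
  obtain ⟨v, hv, -⟩ := h.2.1
  exact ⟨v, hv⟩

theorem Cell.sd {d : ℕ} {β : Finset V → Prop} (h : Cell G d A β) (hd : d ≤ 3) :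
    Cell (sG V) d (sA G A) fun σ => β (top σ) := by
  exact sd_C3 d h hd

theorem Mfa.sd {d : ℕ} {β : Finset V → Prop} {C : Set V} (h : Mfa G d A β C) (hd : d ≤ 3) :
    Mfa (sG V) d (sA G A) (fun σ => β (top σ)) (nb G A C) := by
  intro s hs
  obtain ⟨h4, h5⟩ := h.link hs.1.2 hs.2
  have hp := hs.1.1.card_pos
  exact lk_sA_C3 hs.1 h4 hd (sd_C3 _ h5 (by omega)) s rfl

theorem Mfa.sd_full {d : ℕ} {β : Finset V → Prop} (h : Mfa G d A β A) (hd : d ≤ 3) :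
    Mf (sG V) d (sA G A) {s | β s} := by
  have h1 := h.sd hd
  rw [nb_self_C3] at h1
  refine h1.congr (fun _ h => h) fun σ hσ => ⟨fun hb t ht => ?_, fun hb => ?_⟩
  · have h2 := hσ.2.1 (Finset.mem_coe.2 (top_mem hσ))
    have h3 : t ∈ Pool.Agent.MP_6374aa_g.nb G A A := nb_self_C3.symm ▸ hσ.2.1 ht
    exact h.down h2.2 (subset_top (Finset.mem_coe.1 ht)) h3.2 hb
  · exact hb (Finset.mem_coe.2 (top_mem hσ))

theorem Mfa.sd_sub {d : ℕ} {T C : Set V} (h : Mfa G d A (sub T) C) (hd : d ≤ 3) :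
    Mfa (sG V) d (sA G A) (sub (ins T)) (nb G A C) := by
  rw [← sub_ins_C3]
  exact h.sd hd

theorem Sph.sd {d : ℕ} (h : Sph G d A) (hd : d ≤ 3) : Sph (sG V) d (sA G A) := by
  exact Cell.sd h hd

theorem Ball.sd {d : ℕ} {T : Set V} (h : Ball G d A T) (hd : d ≤ 3) :
    Ball (sG V) d (sA G A) (ins T) := by
  unfold Ball
  rw [← sub_ins_C3]
  exact Cell.sd h hd

theorem Cell.sd_ball {d : ℕ} {β : Finset V → Prop} (h : Cell G d A β) (hb : β ∅) (hd : d ≤ 3) :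
    Ball (sG V) d (sA G A) {s | β s} := by
  refine (h.sd hd).congr fun σ hσ => ?_
  rcases σ.eq_empty_or_nonempty with rfl | hn
  · rw [top_empty_C3]
    exact ⟨fun _ t ht => absurd (Finset.mem_coe.1 ht) (Finset.notMem_empty t), fun _ => hb⟩
  · have h1 : σ ∈ sA (sG V) (sA G A) := ⟨hn, hσ⟩
    refine ⟨fun hb t ht => ?_, fun hb => hb (Finset.mem_coe.2 (top_mem h1))⟩
    exact h.down (hσ.1 (Finset.mem_coe.2 (top_mem h1))).2 (subset_top (Finset.mem_coe.1 ht)) hb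

theorem Mf.sd {d : ℕ} {T : Set V} (h : Mf G d A T) (hd : d ≤ 3) : Mf (sG V) d (sA G A) (ins T) := by
  have h1 := Mfa.sd_sub h hd
  rwa [nb_self_C3] at h1

theorem Mf.sd_empty {d : ℕ} (h : Mf G d A ∅) (hd : d ≤ 3) : Mf (sG V) d (sA G A) ∅ := by
  have h1 := (mf_empty_iff.1 h).sd hd
  rw [nb_self_C3] at h1
  exact mf_empty_iff.2 h1

theorem Cl.sd {d : ℕ} (h : Cl G d A) (hd : d ≤ 3) : Cl (sG V) d (sA G A) := by
  exact ⟨sA_finite h.1, con_sA.2 h.2.1, h.2.2.sd_empty hd⟩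

theorem Mfa.nb {d : ℕ} {β : Finset V → Prop} {Q : Set V} (h : Mfa G d A β (A ∩ Q)) (hd : d ≤ 3) :
    Mfa (sG V) d (nb G A Q) (fun σ => β (top σ) ∨ ↑σ ⊆ fr G A Q) (nb G A Q) := by
  exact nb_C3 h hd

theorem Mfa.fr {d : ℕ} {β : Finset V → Prop} {Q : Set V} (h : Mfa G (d + 1) A β (A ∩ Q))
    (hd : d ≤ 2) : Mfa (sG V) d (fr G A Q) (fun σ => β (top σ)) (fr G A Q) := by
  exact fr_C3 h hd

theorem Mf.nb_empty {d : ℕ} {Q : Set V} (h : Mf G d A ∅) (hd : d ≤ 3) :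
    Mf (sG V) d (nb G A Q) (fr G A Q) := by
  have h1 := nb_C3 (((mf_empty_iff.1 h).mono Set.inter_subset_left : Mfa G d A _ (A ∩ Q))) hd
  exact h1.congr (fun _ h => h) fun σ _ => ⟨fun h => h.resolve_left id, Or.inr⟩

theorem Mf.fr {d : ℕ} {T Q : Set V} (h : Mf G (d + 1) A T) (hd : d ≤ 2) :
    Mf (sG V) d (fr G A Q) (ins T) := by
  unfold Mf
  rw [← sub_ins_C3]
  exact fr_C3 (Mfa.mono h Set.inter_subset_left) hd

theorem Mf.fr_empty {d : ℕ} {Q : Set V} (h : Mf G (d + 1) A ∅) (hd : d ≤ 2) :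
    Mf (sG V) d (Pool.Agent.MP_6374aa_g.fr G A Q) ∅ := by
  exact mf_empty_iff.2 (fr_C3 (β := fun _ => False)
    ((mf_empty_iff.1 h).mono Set.inter_subset_left) hd)

/-- The upper link. -/
theorem upper_cell {e : ℕ} {β : Finset V → Prop} {s : Finset V} (hs : Clq G A s)
    (h : Cell G e (Lk G A s) fun t => β (s ∪ t)) (he : e ≤ 3) :
    Cell (sG V) e {t | t ∈ sA G A ∧ s ⊂ t} fun σ => β (s ∪ top σ) := by
  exact upper_C3 hs h he

/-- The dual cell of an interior simplex. -/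
theorem dual_ball {e : ℕ} {s : Finset V} (hs : s ∈ sA G A) (h : Sph G e (Lk G A s))
    (he : e ≤ 2) : Ball (sG V) (e + 1) {t | t ∈ sA G A ∧ s ⊆ t} {t | s ⊂ t} := by
  have h1 := (upper_C3 (β := fun _ => False) hs.2 h (by omega)).cone he (c := s)
    fun a ha => Or.inl ha.2
  have e1 : {t | t ∈ sA G A ∧ s ⊆ t} = insert s {t | t ∈ sA G A ∧ s ⊂ t} := by
    ext t
    constructor
    · rintro ⟨h2, h3⟩
      rcases h3.eq_or_ssubset with h4 | h4
      · exact Or.inl h4.symm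
      · exact Or.inr ⟨h2, h4⟩
    · rintro (rfl | h2)
      · exact ⟨hs, Finset.Subset.refl _⟩
      · exact ⟨h2.1, h2.2.subset⟩
  unfold Ball
  rw [e1]
  refine h1.congr fun σ hσ => ?_
  rw [or_false]
  refine ⟨fun h2 t ht => ?_, fun h2 h3 => lt_irrefl s (h2 (Finset.mem_coe.2 h3))⟩
  rcases hσ.1 ht with rfl | h3
  · exact absurd (Finset.mem_coe.1 ht) h2
  · exact h3.2

end Pool.Agent.MP_6374aa_g

end

section

namespace Pool.Agent.MP_6374aa_gt

open Classical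

variable {V V' V'' : Type} {G : SimpleGraph V} {G' : SimpleGraph V'} {G'' : SimpleGraph V''}

theorem ctr_iota_mul_ChA2 (f : (V →₀ ℚ) →ₗ[ℚ] ℚ) (m : V →₀ ℚ) (z : EA V) :
    ctr f (ExteriorAlgebra.ι ℚ m * z) = f m • z - ExteriorAlgebra.ι ℚ m * ctr f z :=
  CliffordAlgebra.contractLeft_ι_mul (Q := (0 : QuadraticForm ℚ (V →₀ ℚ))) f m z

theorem ctr_vx_mul_ChA2 (f : (V →₀ ℚ) →ₗ[ℚ] ℚ) (a : V) (z : EA V) :
    ctr f (vx a * z) = f (Finsupp.single a 1) • z - vx a * ctr f z :=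
  ctr_iota_mul_ChA2 f _ z

theorem ctr_one_ChA2 (f : (V →₀ ℚ) →ₗ[ℚ] ℚ) : ctr f (1 : EA V) = 0 :=
  CliffordAlgebra.contractLeft_one (0 : QuadraticForm ℚ (V →₀ ℚ)) f

theorem ctr_alg_ChA2 (f : (V →₀ ℚ) →ₗ[ℚ] ℚ) (r : ℚ) : ctr f (algebraMap ℚ (EA V) r) = 0 := by
  rw [Algebra.algebraMap_eq_smul_one, map_smul, ctr_one_ChA2, smul_zero]

theorem ctr_ctr_ChA2 (f : (V →₀ ℚ) →ₗ[ℚ] ℚ) (z : EA V) : ctr f (ctr f z) = 0 :=
  CliffordAlgebra.contractLeft_contractLeft (Q := (0 : QuadraticForm ℚ (V →₀ ℚ))) f z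

theorem ctr_comm_ChA2 (f g : (V →₀ ℚ) →ₗ[ℚ] ℚ) (z : EA V) :
    ctr f (ctr g z) = - ctr g (ctr f z) :=
  CliffordAlgebra.contractLeft_comm (Q := (0 : QuadraticForm ℚ (V →₀ ℚ))) f g z

theorem emap_iota_ChA2 (g : V → V') (m : V →₀ ℚ) :
    emap g (ExteriorAlgebra.ι ℚ m) = ExteriorAlgebra.ι ℚ (Finsupp.lmapDomain ℚ ℚ g m) :=
  ExteriorAlgebra.map_apply_ι _ m

theorem emap_ctr_ChA2 (g : V → V') (f : (V →₀ ℚ) →ₗ[ℚ] ℚ) (f' : (V' →₀ ℚ) →ₗ[ℚ] ℚ)
    (h : ∀ m, f' (Finsupp.lmapDomain ℚ ℚ g m) = f m) (z : EA V) :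
    emap g (ctr f z) = ctr f' (emap g z) := by
  refine CliffordAlgebra.left_induction (Q := (0 : QuadraticForm ℚ (V →₀ ℚ)))
    (P := fun z : EA V => emap g (ctr f z) = ctr f' (emap g z)) ?_ ?_ ?_ z
  · intro r
    show emap g (ctr f (algebraMap ℚ (EA V) r)) = ctr f' (emap g (algebraMap ℚ (EA V) r))
    rw [ctr_alg_ChA2, map_zero, Algebra.algebraMap_eq_smul_one, map_smul, emap_one, map_smul,
      ctr_one_ChA2, smul_zero]
  · intro x y hx hy
    have hx' : emap g (ctr f x) = ctr f' (emap g x) := hx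
    have hy' : emap g (ctr f y) = ctr f' (emap g y) := hy
    show emap g (ctr f (x + y)) = ctr f' (emap g (x + y))
    rw [map_add, map_add, map_add, map_add, hx', hy']
  · intro x m hx
    have hx' : emap g (ctr f x) = ctr f' (emap g x) := hx
    show emap g (ctr f (ExteriorAlgebra.ι ℚ m * x)) = ctr f' (emap g (ExteriorAlgebra.ι ℚ m * x))
    rw [ctr_iota_mul_ChA2, map_sub, map_smul, emap_mul, emap_mul, emap_iota_ChA2,
      ctr_iota_mul_ChA2, h, hx']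

theorem vx_mul_mem_ChA2 {S T : Set V} {v : V} (hv : v ∈ S) (hT : T ⊆ S) (h : ∀ t ∈ T, Adq G v t)
    {n : ℕ} {z : EA V} (hz : z ∈ Ch G T n) : vx v * z ∈ Ch G S (n + 1) := by
  refine Ch_induction (p := fun z => vx v * z ∈ Ch G S (n + 1)) ?_ ?_ ?_ ?_ hz
  · rw [mul_zero]; exact Submodule.zero_mem _
  · intro x y _ _ hx hy
    rw [mul_add]; exact Submodule.add_mem _ hx hy
  · intro r x _ hx
    rw [mul_smul_comm]; exact Submodule.smul_mem _ _ hx
  · intro l hl _ hc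
    have hc' : IsCl G S (v :: l) := by
      refine ⟨?_, ?_⟩
      · intro x hx
        rcases List.mem_cons.1 hx with rfl | hx
        · exact hv
        · exact hT (hc.1 x hx)
      · intro x hx y hy
        rcases List.mem_cons.1 hx with hx1 | hx1 <;> rcases List.mem_cons.1 hy with hy1 | hy1
        · rw [hx1, hy1]; exact Adq.refl _ _
        · rw [hx1]; exact h y (hc.1 y hy1)
        · rw [hy1]; exact Adq.symm (h x (hc.1 x hx1))
        · exact hc.2 x hx1 y hy1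
    have := wedge_mem_Ch hc'
    rwa [wedge_cons, List.length_cons, hl] at this

@[simp] theorem bd_one : bd (1 : EA V) = 0 := ctr_one_ChA2 _
theorem bd_vx_mul (a : V) (z : EA V) : bd (vx a * z) = z - vx a * bd z := by
  unfold bd
  rw [ctr_vx_mul_ChA2]
  simp
@[simp] theorem bd_vx (a : V) : bd (vx a) = 1 := by
  have := bd_vx_mul a (1 : EA V)
  rwa [mul_one, bd_one, mul_zero, sub_zero] at this
@[simp] theorem bd_bd (z : EA V) : bd (bd z) = 0 := ctr_ctr_ChA2 _ z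
theorem emap_bd (f : V → V') (z : EA V) : emap f (bd z) = bd (emap f z) := by
  refine emap_ctr_ChA2 f _ _ ?_ z
  intro m
  rw [Finsupp.lmapDomain_apply, Finsupp.linearCombination_mapDomain]
  rfl
theorem bd_wedge_ChA2 (l : List V) : ∀ (S : Set V) (n : ℕ), l.length = n + 1 → IsCl G S l →
    bd (wedge l) ∈ Ch G S n := by
  induction l with
  | nil => intro S n h; simp at h
  | cons a l ih =>
    intro S n hl hc
    have hl' : l.length = n := by simpa using hl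
    have hcl : IsCl G S l := ⟨fun x hx => hc.1 x (List.mem_cons_of_mem _ hx),
      fun x hx y hy => hc.2 x (List.mem_cons_of_mem _ hx) y (List.mem_cons_of_mem _ hy)⟩
    rw [wedge_cons, bd_vx_mul]
    refine Submodule.sub_mem _ (hl' ▸ wedge_mem_Ch hcl) ?_
    cases n with
    | zero =>
      have : l = [] := List.length_eq_zero_iff.1 hl'
      subst this
      rw [wedge_nil, bd_one, mul_zero]
      exact Submodule.zero_mem _
    | succ n =>
      have h1 := ih {x | x ∈ l} n hl' ⟨fun x hx => hx, hcl.2⟩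
      exact vx_mul_mem_ChA2 (hc.1 a List.mem_cons_self) (fun x hx => hcl.1 x hx)
        (fun t ht => hc.2 a List.mem_cons_self t (List.mem_cons_of_mem _ ht)) h1
theorem bd_mem_Ch {S : Set V} {n : ℕ} {z : EA V} (hz : z ∈ Ch G S (n + 1)) : bd z ∈ Ch G S n := by
  have : Ch G S (n + 1) ≤ (Ch G S n).comap bd :=
    Ch_le_of fun l hl _ hc => bd_wedge_ChA2 l S n hl hc
  exact this hz
theorem bd_eq_zero_of_Ch_zero {S : Set V} {z : EA V} (hz : z ∈ Ch G S 0) : bd z = 0 := by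
  obtain ⟨r, rfl⟩ := mem_Ch_zero.1 hz
  rw [map_smul, bd_one, smul_zero]
theorem Bd_le_Zy (S : Set V) (n : ℕ) : Bd G S n ≤ Zy G S n := by
  intro z hz
  obtain ⟨w, hw, rfl⟩ := mem_Bd.1 hz
  exact mem_Zy.2 ⟨bd_mem_Ch hw, bd_bd w⟩
theorem emap_mem_Zy {S' : Set V'} {S : Set V} {f : V' → V} (h : IsHom G' S' G S f) {n : ℕ}
    {z : EA V'} (hz : z ∈ Zy G' S' n) : emap f z ∈ Zy G S n := by
  obtain ⟨h1, h2⟩ := mem_Zy.1 hz
  exact mem_Zy.2 ⟨emap_mem_Ch h h1, by rw [← emap_bd, h2, map_zero]⟩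
theorem emap_mem_Bd {S' : Set V'} {S : Set V} {f : V' → V} (h : IsHom G' S' G S f) {n : ℕ}
    {z : EA V'} (hz : z ∈ Bd G' S' n) : emap f z ∈ Bd G S n := by
  obtain ⟨w, hw, rfl⟩ := mem_Bd.1 hz
  exact mem_Bd.2 ⟨emap f w, emap_mem_Ch h hw, (emap_bd f w).symm⟩
theorem vx_mul_mem_Ch {S T : Set V} {v : V} (hv : v ∈ S) (hT : T ⊆ S) (h : ∀ t ∈ T, Adq G v t)
    {n : ℕ} {z : EA V} (hz : z ∈ Ch G T n) : vx v * z ∈ Ch G S (n + 1) :=
  vx_mul_mem_ChA2 hv hT h hz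
/-- Cycles in `T` bound in any `S` containing the cone on `T`. -/
theorem Zy_le_Bd_of_cone {S T : Set V} {v : V} (hv : v ∈ S) (hT : T ⊆ S)
    (h : ∀ t ∈ T, Adq G v t) (n : ℕ) : Zy G T n ≤ Bd G S n := by
  intro z hz
  obtain ⟨h1, h2⟩ := mem_Zy.1 hz
  refine mem_Bd.2 ⟨vx v * z, vx_mul_mem_Ch hv hT h h1, ?_⟩
  rw [bd_vx_mul, h2, mul_zero, sub_zero]

@[simp] theorem iv_one (v : V) : iv v (1 : EA V) = 0 := ctr_one_ChA2 _
theorem iv_vx_mul_self (v : V) (z : EA V) : iv v (vx v * z) = z - vx v * iv v z := by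
  unfold iv
  rw [ctr_vx_mul_ChA2]
  simp
theorem iv_vx_mul_ne {v w : V} (h : w ≠ v) (z : EA V) : iv v (vx w * z) = - (vx w * iv v z) := by
  unfold iv
  rw [ctr_vx_mul_ChA2]
  simp [Finsupp.single_apply, h]
theorem iv_iv_comm (v w : V) (z : EA V) : iv v (iv w z) = - iv w (iv v z) :=
  ctr_comm_ChA2 _ _ z
@[simp] theorem iv_iv_self (v : V) (z : EA V) : iv v (iv v z) = 0 := ctr_ctr_ChA2 _ z
theorem iv_bd (v : V) (z : EA V) : iv v (bd z) = - bd (iv v z) := ctr_comm_ChA2 _ _ z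
theorem iv_wedge_ChA2 {v : V} (l : List V) (hv : v ∉ l) : iv v (wedge l) = 0 := by
  induction l with
  | nil => rw [wedge_nil, iv_one]
  | cons a l ih =>
    have h1 : a ≠ v := fun h => hv (h ▸ List.mem_cons_self)
    rw [wedge_cons, iv_vx_mul_ne h1, ih (fun h => hv (List.mem_cons_of_mem _ h)), mul_zero,
      neg_zero]
theorem iv_wedge_mem_ChA2 {v : V} {l : List V} (hn : l.Nodup) (hv : v ∈ l) :
    (wedge l = vx v * wedge (l.erase v) ∧ iv v (wedge l) = wedge (l.erase v)) ∨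
    (wedge l = - (vx v * wedge (l.erase v)) ∧ iv v (wedge l) = - wedge (l.erase v)) := by
  have h0 : iv v (vx v * wedge (l.erase v)) = wedge (l.erase v) := by
    rw [iv_vx_mul_self, iv_wedge_ChA2 _ hn.not_mem_erase, mul_zero, sub_zero]
  rcases wedge_perm (List.perm_cons_erase hv) with h | h
  · rw [wedge_cons] at h
    exact Or.inl ⟨h, by rw [h, h0]⟩
  · rw [wedge_cons] at h
    exact Or.inr ⟨h, by rw [h, map_neg, h0]⟩
theorem iv_eq_zero {S : Set V} {n : ℕ} {v : V} (hv : v ∉ S) {z : EA V} (hz : z ∈ Ch G S n) :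
    iv v z = 0 := by
  have : Ch G S n ≤ LinearMap.ker (iv v) :=
    Ch_le_of fun l _ _ hc => iv_wedge_ChA2 l fun h => hv (hc.1 v h)
  exact this hz
theorem iv_mem_Ch {S : Set V} {n : ℕ} (v : V) {z : EA V} (hz : z ∈ Ch G S (n + 1)) :
    iv v z ∈ Ch G (Lk G S {v}) n := by
  have : Ch G S (n + 1) ≤ (Ch G (Lk G S {v}) n).comap (iv v) := by
    refine Ch_le_of fun l hl hn hc => ?_
    show iv v (wedge l) ∈ Ch G (Lk G S {v}) n
    by_cases hv : v ∈ l
    · have hc' : IsCl G (Lk G S {v}) (l.erase v) := by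
        refine ⟨fun x hx => ?_, fun x hx y hy =>
          hc.2 x (List.mem_of_mem_erase hx) y (List.mem_of_mem_erase hy)⟩
        have hx1 := List.mem_of_mem_erase hx
        refine ⟨hc.1 x hx1, fun u hu => ?_⟩
        rw [Set.mem_singleton_iff] at hu
        subst hu
        rcases hc.2 u hv x hx1 with h | h
        · subst h
          exact absurd hx hn.not_mem_erase
        · exact h
      have h1 := wedge_mem_Ch hc'
      rw [List.length_erase_of_mem hv, hl, Nat.add_sub_cancel] at h1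
      rcases iv_wedge_mem_ChA2 hn hv with h | h
      · rw [h.2]; exact h1
      · rw [h.2]; exact Submodule.neg_mem _ h1
    · rw [iv_wedge_ChA2 l hv]; exact Submodule.zero_mem _
  exact this hz
theorem iv_mem_Zy {S : Set V} {n : ℕ} (v : V) {z : EA V} (hz : z ∈ Zy G S (n + 1)) :
    iv v z ∈ Zy G (Lk G S {v}) n := by
  obtain ⟨h1, h2⟩ := mem_Zy.1 hz
  refine mem_Zy.2 ⟨iv_mem_Ch v h1, ?_⟩
  have := iv_bd v z
  rw [h2, map_zero] at this
  exact neg_eq_zero.1 this.symm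
theorem sub_vx_mul_iv_mem_Ch {S : Set V} {n : ℕ} (v : V) {z : EA V} (hz : z ∈ Ch G S n) :
    z - vx v * iv v z ∈ Ch G (S \ {v}) n := by
  refine Ch_induction (p := fun z => z - vx v * iv v z ∈ Ch G (S \ {v}) n) ?_ ?_ ?_ ?_ hz
  · rw [map_zero, mul_zero, sub_zero]; exact Submodule.zero_mem _
  · intro x y _ _ hx hy
    have : x + y - vx v * iv v (x + y) = (x - vx v * iv v x) + (y - vx v * iv v y) := by
      rw [map_add, mul_add]; abel
    rw [this]; exact Submodule.add_mem _ hx hy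
  · intro r x _ hx
    have : r • x - vx v * iv v (r • x) = r • (x - vx v * iv v x) := by
      rw [map_smul, mul_smul_comm, smul_sub]
    rw [this]; exact Submodule.smul_mem _ _ hx
  · intro l hl hn hc
    by_cases hv : v ∈ l
    · rcases iv_wedge_mem_ChA2 hn hv with h | h
      · rw [h.2, ← h.1, sub_self]; exact Submodule.zero_mem _
      · rw [h.2, mul_neg, ← h.1, sub_self]; exact Submodule.zero_mem _
    · rw [iv_wedge_ChA2 l hv, mul_zero, sub_zero, ← hl]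
      refine wedge_mem_Ch ⟨fun x hx => ⟨hc.1 x hx, fun h => hv ?_⟩, hc.2⟩
      rw [Set.mem_singleton_iff] at h
      exact h ▸ hx
theorem mem_Ch_diff_of_iv {S : Set V} {n : ℕ} {v : V} {z : EA V} (hz : z ∈ Ch G S n)
    (h : iv v z = 0) : z ∈ Ch G (S \ {v}) n := by
  have := sub_vx_mul_iv_mem_Ch v hz
  rwa [h, mul_zero, sub_zero] at this
theorem iv_emap {f : V' → V} (hf : Function.Injective f) (v : V') (z : EA V') :
    iv (f v) (emap f z) = emap f (iv v z) := by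
  refine (emap_ctr_ChA2 f _ _ ?_ z).symm
  intro m
  rw [Finsupp.lapply_apply, Finsupp.lapply_apply, Finsupp.lmapDomain_apply,
    Finsupp.mapDomain_apply hf]

end Pool.Agent.MP_6374aa_gt

end

section

namespace Pool.Agent.MP_6374aa_gt

open Classical

variable {V V' V'' : Type} {G : SimpleGraph V} {G' : SimpleGraph V'} {G'' : SimpleGraph V''}

theorem exists_finite_support {S : Set V} {n : ℕ} {z : EA V} (hz : z ∈ Ch G S n) :
    ∃ S0 : Finset V, ↑S0 ⊆ S ∧ z ∈ Ch G (S0 : Set V) n := by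
  refine Ch_induction (p := fun z => ∃ S0 : Finset V, ↑S0 ⊆ S ∧ z ∈ Ch G (S0 : Set V) n)
    ⟨∅, by simp, Submodule.zero_mem _⟩ ?_ ?_ ?_ hz
  · rintro x y - - ⟨A, hA, hx⟩ ⟨B, hB, hy⟩
    refine ⟨A ∪ B, by rw [Finset.coe_union]; exact Set.union_subset hA hB, Submodule.add_mem _
      (Ch_mono (Finset.coe_subset.2 Finset.subset_union_left) n hx)
      (Ch_mono (Finset.coe_subset.2 Finset.subset_union_right) n hy)⟩
  · rintro r x - ⟨A, hA, hx⟩
    exact ⟨A, hA, Submodule.smul_mem _ r hx⟩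
  · rintro l rfl - hl
    exact ⟨l.toFinset, fun x hx => hl.1 x (List.mem_toFinset.1 hx),
      wedge_mem_Ch ⟨fun x hx => List.mem_toFinset.2 hx, hl.2⟩⟩

theorem diff_ChB1 {S : Set V} {n : ℕ} {z : EA V} (hS : z ∈ Ch G S n) (R : Finset V)
    (h : ∀ v ∈ R, iv v z = 0) : z ∈ Ch G (S \ R) n := by
  induction R using Finset.induction_on with
  | empty => simpa using hS
  | insert v R _ ih =>
    refine Ch_mono ?_ n (mem_Ch_diff_of_iv (ih fun w hw => h w (Finset.mem_insert_of_mem hw))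
      (h v (Finset.mem_insert_self v R)))
    rintro x ⟨⟨h1, h2⟩, h3⟩
    refine ⟨h1, fun h4 => ?_⟩
    rcases Finset.mem_insert.1 h4 with h5 | h5
    · exact h3 h5
    · exact h2 h5

theorem of_iv_ChB1 {S T : Set V} {n : ℕ} {z : EA V} (hS : z ∈ Ch G S n)
    (h : ∀ v ∈ S, v ∉ T → iv v z = 0) : z ∈ Ch G (S ∩ T) n := by
  obtain ⟨A, hA, hz⟩ := exists_finite_support hS
  refine Ch_mono ?_ n (diff_ChB1 hz (A.filter fun v => v ∉ T) fun v hv =>
    h v (hA (Finset.mem_filter.1 hv).1) (Finset.mem_filter.1 hv).2)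
  rintro x ⟨h1, h2⟩
  refine ⟨hA h1, ?_⟩
  by_contra h3
  exact h2 (Finset.mem_filter.2 ⟨h1, h3⟩)

theorem mem_Ch_inter {S T : Set V} {n : ℕ} {z : EA V} (hS : z ∈ Ch G S n) (hT : z ∈ Ch G T n) :
    z ∈ Ch G (S ∩ T) n := of_iv_ChB1 hS fun _ _ hv => iv_eq_zero hv hT
theorem mem_Ch_of_iv {S T : Set V} {n : ℕ} {z : EA V} (hS : z ∈ Ch G S n)
    (h : ∀ v ∈ S, v ∉ T → iv v z = 0) : z ∈ Ch G (S ∩ T) n := of_iv_ChB1 hS h
theorem eq_zero_of_iv {S : Set V} {n : ℕ} {z : EA V} (hS : z ∈ Ch G S (n + 1))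
    (h : ∀ v ∈ S, iv v z = 0) : z = 0 := by
  have h1 := of_iv_ChB1 (T := ∅) hS fun v hv _ => h v hv
  refine (Submodule.mem_bot ℚ).1 (Ch_le_of (fun l hl _ hc => ?_) h1)
  obtain ⟨a, ha⟩ := List.exists_mem_of_length_pos (l := l) (by omega)
  exact (hc.1 a ha).2.elim
theorem Ch_le_sup {S S1 S2 : Set V} {n : ℕ}
    (h : ∀ l : List V, IsCl G S l → (∀ x ∈ l, x ∈ S1) ∨ ∀ x ∈ l, x ∈ S2) :
    Ch G S n ≤ Ch G S1 n ⊔ Ch G S2 n := by
  refine Ch_le_of ?_
  rintro l rfl - hl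
  rcases h l hl with h1 | h1
  · exact Submodule.mem_sup_left (wedge_mem_Ch ⟨h1, hl.2⟩)
  · exact Submodule.mem_sup_right (wedge_mem_Ch ⟨h1, hl.2⟩)
theorem isCl_toFinset {S : Set V} {l : List V} (h : IsCl G S l) :
    ↑l.toFinset ⊆ S ∧ G.IsClique (l.toFinset : Set V) :=
  ⟨fun x hx => h.1 x (List.mem_toFinset.1 hx), fun x hx y hy hxy =>
    (h.2 x (List.mem_toFinset.1 hx) y (List.mem_toFinset.1 hy)).resolve_left hxy⟩
theorem isCl_toList {S : Set V} {s : Finset V} (h : ↑s ⊆ S) (hc : G.IsClique (s : Set V)) :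
    IsCl G S s.toList := by
  refine ⟨fun x hx => h (Finset.mem_toList.1 hx), fun x hx y hy => ?_⟩
  by_cases e : x = y
  · exact Or.inl e
  · exact Or.inr (hc (Finset.mem_toList.1 hx) (Finset.mem_toList.1 hy) e)
theorem Ch_eq_bot {S : Set V} {n : ℕ}
    (h : ∀ s : Finset V, ↑s ⊆ S → G.IsClique (s : Set V) → s.card ≠ n) : Ch G S n = ⊥ := by
  refine eq_bot_iff.2 (Ch_le_of fun l hl hn hc => ?_)
  exact absurd ((List.toFinset_card_of_nodup hn).trans hl)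
    (h _ (isCl_toFinset hc).1 (isCl_toFinset hc).2)
theorem Fin3.Ch_eq_bot {A S : Set V} (h : Fin3 G A) (hS : S ⊆ A) {n : ℕ} (hn : 5 ≤ n) :
    Ch G S n = ⊥ := by
  refine Pool.Agent.MP_6374aa_gt.Ch_eq_bot fun s h1 h2 => ?_
  have := h.2 s (h1.trans hS) h2
  omega
theorem Fin3.Bd_eq_bot {A S : Set V} (h : Fin3 G A) (hS : S ⊆ A) {n : ℕ} (hn : 4 ≤ n) :
    Bd G S n = ⊥ := by
  rw [Bd, h.Ch_eq_bot hS (by omega), Submodule.map_bot]

end Pool.Agent.MP_6374aa_gt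

end

section

namespace Pool.Agent.MP_6374aa_gt

open Classical

variable {V V' V'' : Type} {G : SimpleGraph V} {G' : SimpleGraph V'} {G'' : SimpleGraph V''}

theorem iv_ChB2 {a : V} {l : List V} (h : a ∉ l) : iv a (wedge l) = 0 := by
  induction l with
  | nil => rw [wedge_nil, iv_one]
  | cons b l ih =>
    rw [List.mem_cons, not_or] at h
    rw [wedge_cons, iv_vx_mul_ne (Ne.symm h.1), ih h.2, mul_zero, neg_zero]

theorem coef_ChB2 (m : List V) (hm : m.Nodup) : ∃ φ : EA V →ₗ[ℚ] ℚ, φ (wedge m) = 1 ∧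
    ∀ l : List V, l.toFinset ≠ m.toFinset → φ (wedge l) = 0 := by
  induction m with
  | nil =>
    refine ⟨ExteriorAlgebra.algebraMapInv.toLinearMap, by simp, fun l hl => ?_⟩
    cases l with
    | nil => exact absurd rfl hl
    | cons a l => simp [vx, ExteriorAlgebra.algebraMapInv]
  | cons a m ih =>
    rw [List.nodup_cons] at hm
    obtain ⟨φ, h1, h2⟩ := ih hm.2
    refine ⟨φ ∘ₗ iv a, by simp [iv_vx_mul_self, iv_ChB2 hm.1, h1], fun l hl => ?_⟩
    by_cases h3 : l.Nodup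
    swap
    · rw [wedge_eq_zero_of_not_nodup h3, map_zero]
    by_cases h4 : a ∈ l
    swap
    · rw [LinearMap.comp_apply, iv_ChB2 h4, map_zero]
    have h5 := h2 (l.erase a) fun e => hl (by
      rw [List.toFinset_eq_of_perm _ _ (List.perm_cons_erase h4), List.toFinset_cons, e,
        List.toFinset_cons])
    rcases wedge_perm (List.perm_cons_erase h4) with e | e <;>
      simp [e, iv_vx_mul_self, iv_ChB2 h3.not_mem_erase, h5]

theorem deg_ChB2 {S : Set V} {n : ℕ} {z : EA V} (h : z ∈ Ch G S n) :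
    z ∈ ⋀[ℚ]^n (V →₀ ℚ) := by
  refine Ch_le_of (N := ⋀[ℚ]^n (V →₀ ℚ)) ?_ h
  rintro l rfl - -
  clear h
  induction l with
  | nil => exact wedge_nil (V := V) ▸ Submodule.one_le.1 (pow_zero _).ge
  | cons a l ih =>
    rw [wedge_cons, List.length_cons, ExteriorAlgebra.exteriorPower, pow_succ']
    exact Submodule.mul_mem_mul ⟨_, rfl⟩ ih

theorem span_ChB2 (G : SimpleGraph V) (S : Set V) (n : ℕ) :
    Ch G S n = Submodule.span ℚ (Set.range
      fun s : {s : Finset V | ↑s ⊆ S ∧ G.IsClique (s : Set V) ∧ s.card = n} =>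
        wedge s.1.toList) := by
  refine le_antisymm (Ch_le_of fun l h1 h2 h3 => ?_) (Submodule.span_le.2 ?_)
  · have h4 : wedge l.toFinset.toList ∈ Submodule.span ℚ (Set.range
        fun s : {s : Finset V | ↑s ⊆ S ∧ G.IsClique (s : Set V) ∧ s.card = n} =>
          wedge s.1.toList) := Submodule.subset_span ⟨⟨l.toFinset, (isCl_toFinset h3).1,
      (isCl_toFinset h3).2, (List.toFinset_card_of_nodup h2).trans h1⟩, rfl⟩
    rcases wedge_perm (List.toFinset_toList h2).symm with e | e <;> rw [e]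
    exacts [h4, neg_mem h4]
  · rintro _ ⟨⟨s, h1, h2, rfl⟩, rfl⟩
    have h3 := wedge_mem_Ch (isCl_toList h1 h2)
    rwa [Finset.length_toList] at h3

theorem fin_ChB2 (G : SimpleGraph V) {S : Set V} (h : S.Finite) (n : ℕ) :
    {s : Finset V | ↑s ⊆ S ∧ G.IsClique (s : Set V) ∧ s.card = n}.Finite :=
  h.toFinset.powerset.finite_toSet.subset fun _ hs => by simpa using hs.1

theorem eq_zero_of_mem_Ch_ne {S T : Set V} {n m : ℕ} (h : n ≠ m) {z : EA V} (hn : z ∈ Ch G S n)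
    (hm : z ∈ Ch G T m) : z = 0 :=
  (DirectSum.decompose_of_mem_same (fun i => ⋀[ℚ]^i (V →₀ ℚ)) (deg_ChB2 hn)).symm.trans
    (DirectSum.decompose_of_mem_ne (fun i => ⋀[ℚ]^i (V →₀ ℚ)) (deg_ChB2 hm) h.symm)
/-- Homogeneous components of a vanishing sum vanish. -/
theorem eq_zero_of_sum_Ch {S : Set V} (s : Finset ℕ) (z : ℕ → EA V)
    (hz : ∀ n ∈ s, z n ∈ Ch G S n) (h : ∑ n ∈ s, z n = 0) : ∀ n ∈ s, z n = 0 := by
  intro n hn
  have h1 := congrArg (GradedAlgebra.proj (fun i => ⋀[ℚ]^i (V →₀ ℚ)) n) h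
  simp only [map_sum, map_zero, GradedAlgebra.proj_apply] at h1
  rw [Finset.sum_eq_single_of_mem n hn fun m hm e =>
    DirectSum.decompose_of_mem_ne (fun i => ⋀[ℚ]^i (V →₀ ℚ)) (deg_ChB2 (hz m hm)) e] at h1
  exact (DirectSum.decompose_of_mem_same (fun i => ⋀[ℚ]^i (V →₀ ℚ))
    (deg_ChB2 (hz n hn))).symm.trans h1
theorem wedge_ne_zero {l : List V} (h : l.Nodup) : wedge l ≠ 0 := by
  obtain ⟨φ, h1, -⟩ := coef_ChB2 l h
  exact fun e => by simp [e] at h1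
/-- Wedges of lists without repetition and with distinct vertex sets are independent. -/
theorem linearIndependent_wedge {ι : Type} (l : ι → List V) (hl : ∀ i, (l i).Nodup)
    (hinj : Function.Injective fun i => (l i).toFinset) :
    LinearIndependent ℚ fun i => wedge (l i) := by
  choose φ h1 h2 using fun i => coef_ChB2 (l i) (hl i)
  exact LinearIndependent.of_pairwise_dual_eq_zero_one _ φ
    (fun i j h => h2 i _ fun e => h (hinj e).symm) h1
/-- The coefficient functional of a simplex. -/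
theorem exists_coef (m : List V) (hm : m.Nodup) : ∃ φ : EA V →ₗ[ℚ] ℚ, φ (wedge m) = 1 ∧
    ∀ l : List V, l.toFinset ≠ m.toFinset → φ (wedge l) = 0 := coef_ChB2 m hm
theorem emap_injective {f : V' → V} (hf : Function.Injective f) :
    Function.Injective (emap f) :=
  ExteriorAlgebra.map_injective_field (LinearMap.ker_eq_bot.2 (Finsupp.mapDomain_injective hf))
theorem emap_eq_zero_of_injOn {S' : Set V'} {f : V' → V} (hf : Set.InjOn f S') {n : ℕ}
    {z : EA V'} (hz : z ∈ Ch G' S' n) (h : emap f z = 0) : z = 0 := by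
  rcases isEmpty_or_nonempty V' with _ | _
  · exact emap_injective (Function.injective_of_subsingleton f) (h.trans (map_zero _).symm)
  · rw [← emap_eq_self (f := Function.invFunOn f S' ∘ f) (fun a ha => hf.leftInvOn_invFunOn ha) hz,
      ← emap_comp, h, map_zero]
theorem IsIso.exists_Ch {S' : Set V'} {S : Set V} {f : V' → V} (h : IsIso G' S' G S f) {n : ℕ}
    {z : EA V} (hz : z ∈ Ch G S n) : ∃ z' ∈ Ch G' S' n, emap f z' = z := by
  refine Ch_le_of (N := (Ch G' S' n).map (emap f)) (fun l h1 _ h2 => ?_) hz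
  subst h1
  clear hz
  cases l with
  | nil =>
    exact Submodule.mem_map.2 ⟨_, wedge_mem_Ch (l := []) ⟨by simp, by simp⟩, emap_wedge f []⟩
  | cons a l =>
    obtain ⟨b, -⟩ := h.1.surjOn (h2.1 a List.mem_cons_self)
    have : Nonempty V' := ⟨b⟩
    obtain ⟨g, h3, -, h4⟩ := h.exists_inv
    exact Submodule.mem_map.2 ⟨_, emap_mem_Ch h3.isHom (wedge_mem_Ch h2),
      (emap_comp _ _ _).trans (emap_eq_self (f := f ∘ g) h4 (wedge_mem_Ch h2))⟩
theorem IsIso.exists_Zy {S' : Set V'} {S : Set V} {f : V' → V} (h : IsIso G' S' G S f) {n : ℕ}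
    {z : EA V} (hz : z ∈ Zy G S n) : ∃ z' ∈ Zy G' S' n, emap f z' = z := by
  obtain ⟨h1, h2⟩ := mem_Zy.1 hz
  obtain ⟨w, h3, rfl⟩ := h.exists_Ch h1
  refine ⟨w, mem_Zy.2 ⟨h3, ?_⟩, rfl⟩
  cases n with
  | zero => exact bd_eq_zero_of_Ch_zero h3
  | succ n => exact emap_eq_zero_of_injOn h.1.injOn (bd_mem_Ch h3) ((emap_bd f w).trans h2)
theorem IsIso.mem_Bd {S' : Set V'} {S : Set V} {f : V' → V} (h : IsIso G' S' G S f) {n : ℕ}
    {z : EA V'} (hz : z ∈ Ch G' S' n) (hb : emap f z ∈ Bd G S n) : z ∈ Bd G' S' n := by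
  obtain ⟨w, h1, h2⟩ := hb
  obtain ⟨w, h3, rfl⟩ := h.exists_Ch h1
  exact ⟨w, h3, sub_eq_zero.1 (emap_eq_zero_of_injOn h.1.injOn
    (sub_mem (bd_mem_Ch h3) hz) (by rw [map_sub, emap_bd, h2, sub_self]))⟩
theorem finiteDimensional_Ch {S : Set V} (h : S.Finite) (n : ℕ) :
    FiniteDimensional ℚ (Ch G S n) := by
  have := (fin_ChB2 G h n).to_subtype
  rw [span_ChB2]
  exact FiniteDimensional.span_of_finite ℚ (Set.finite_range _)
theorem finrank_Ch {S : Set V} (h : S.Finite) (n : ℕ) :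
    Module.finrank ℚ (Ch G S n) = ncl G S n := by
  have := (fin_ChB2 G h n).fintype
  rw [span_ChB2, finrank_span_eq_card (linearIndependent_wedge _ (fun s => s.1.nodup_toList)
    fun s t e => Subtype.ext (by simpa using e)), ncl, ← Nat.card_coe_set_eq,
    Nat.card_eq_fintype_card]
theorem finrank_Ch_succ {S : Set V} (h : S.Finite) (n : ℕ) :
    Module.finrank ℚ (Ch G S (n + 1)) =
      Module.finrank ℚ (Zy G S (n + 1)) + Module.finrank ℚ (Bd G S n) := by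
  have := finiteDimensional_Ch (G := G) h (n + 1)
  rw [← LinearMap.finrank_range_add_finrank_ker (bd.domRestrict (Ch G S (n + 1))),
    LinearMap.range_domRestrict, LinearMap.ker_domRestrict, ← Submodule.finrank_map_subtype_eq,
    Submodule.map_comap_subtype, add_comm]
  rfl

end Pool.Agent.MP_6374aa_gt

end

section

namespace Pool.Agent.MP_6374aa_gt

open Classical

variable {V V' V'' : Type} {G : SimpleGraph V} {G' : SimpleGraph V'} {G'' : SimpleGraph V''}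
  {A : Set V} {A' : Set V'} {A'' : Set V''} {L : Type} [Group L]

theorem paths_GrA2 (hc : PConn G A) {y : V} (hy : y ∈ A) :
    ∃ p : V → Gp G A, (∀ a ∈ A, Path G A y a (p a)) ∧ p y = 1 := by
  have h : ∀ a, ∃ γ : Gp G A, (a ∈ A → Path G A y a γ) ∧ (a = y → γ = 1) := by
    intro a
    by_cases h : a = y
    · exact ⟨1, fun _ => h ▸ Path.nil (h ▸ hy), fun _ => rfl⟩
    by_cases ha : a ∈ A
    · obtain ⟨γ, hγ⟩ := hc.2 y hy a ha
      exact ⟨γ, fun _ => hγ, fun h' => absurd h' h⟩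
    · exact ⟨1, fun h' => absurd h' ha, fun _ => rfl⟩
  choose p h1 h2 using h
  exact ⟨p, h1, h2 y rfl⟩

theorem vx_inj_GrA2 {a b : V} (h : vx a = vx b) : a = b :=
  Finsupp.single_left_injective one_ne_zero ((ExteriorAlgebra.ι_inj ℚ _ _).1 h)

theorem vx_mem_GrA2 {a : V} (ha : a ∈ A) : vx a ∈ Ch G A 1 := by
  have := wedge_mem_Ch (G := G) (S := A) (l := [a]) ⟨by simpa using ha, by simp [Adq.refl]⟩
  simpa using this

/-- Two homomorphisms that agree on loops at one point are gauge equivalent. -/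
theorem exists_gauge (hc : PConn G A) {y : V} (hy : y ∈ A) {ρ σ : Gp G A →* L}
    (h : ∀ γ ∈ Loop G A y, ρ γ = σ γ) : ∃ k : V → L, k y = 1 ∧
      ∀ u ∈ A, ∀ w ∈ A, Adq G u w → ρ (gen G A u w) = k u * σ (gen G A u w) * (k w)⁻¹ := by
  obtain ⟨p, hp, hp1⟩ := paths_GrA2 hc hy
  refine ⟨fun u => (ρ (p u))⁻¹ * σ (p u), by simp [hp1], fun u hu w hw huw => ?_⟩
  have h1 := h _ ((mem_Loop hy).2 (((hp u hu).trans (Path.single hu hw huw)).trans (hp w hw).symm))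
  simp only [map_mul, map_inv] at h1
  calc _ = (ρ (p u))⁻¹ * (ρ (p u) * ρ (gen G A u w) * (ρ (p w))⁻¹) * ρ (p w) := by group
    _ = _ := by rw [h1]; group

/-- The retraction onto the loops at `y`. -/
theorem exists_retraction (hc : PConn G A) {y : V} (hy : y ∈ A) :
    ∃ (R : Gp G A →* Gp G A) (p : V → Gp G A), (∀ a ∈ A, Path G A y a (p a)) ∧ p y = 1 ∧
      (∀ a b γ, Path G A a b γ → R γ = p a * γ * (p b)⁻¹) ∧ ∀ γ, R γ ∈ Loop G A y := by
  obtain ⟨p, hp, hp1⟩ := paths_GrA2 hc hy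
  have hf : Flat G A fun u w =>
      if u ∈ A ∧ w ∈ A ∧ Adq G u w then p u * gen G A u w * (p w)⁻¹ else 1 := by
    intro u hu v hv w hw h1 h2 h3
    beta_reduce
    rw [if_pos ⟨hu, hv, h1⟩, if_pos ⟨hv, hw, h2⟩, if_pos ⟨hu, hw, h3⟩]
    exact (flat_gen G A).gauge p u hu v hv w hw h1 h2 h3
  refine ⟨glift G A _, p, hp, hp1, fun a b γ h => h.gauge' (σ := MonoidHom.id _)
    fun u hu w hw huw => (glift_gen hf u w).trans (if_pos ⟨hu, hw, huw⟩), fun γ => ?_⟩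
  refine PresentedGroup.generated_by _ ((Loop G A y).comap _) (fun j => ?_) γ
  rw [Subgroup.mem_comap]
  refine (glift_gen hf j.1 j.2).symm ▸ ?_
  split_ifs with h
  · exact (mem_Loop hy).2 (((hp _ h.1).trans (Path.single h.1 h.2.1 h.2.2)).trans (hp _ h.2.1).symm)
  · exact one_mem _

/-- A conjugating element can be replaced by a path. -/
theorem exists_path_conj (hc : PConn G A) {y a : V} (hy : y ∈ A) (ha : a ∈ A) (g : Gp G A) :
    ∃ γ, Path G A y a γ ∧ ∀ δ ∈ Loop G A y, g⁻¹ * δ * g ∈ Loop G A a →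
      γ⁻¹ * δ * γ = g⁻¹ * δ * g := by
  obtain ⟨R, p, hp, hp1, h1, h2⟩ := exists_retraction hc hy
  refine ⟨R g * p a, ((mem_Loop hy).1 (h2 g)).trans (hp a ha), fun δ hδ h => ?_⟩
  have h3 := h1 _ _ _ ((mem_Loop hy).1 hδ)
  have h4 := h1 _ _ _ ((mem_Loop ha).1 h)
  rw [hp1, one_mul, inv_one, mul_one] at h3
  rw [map_mul, map_mul, map_inv, h3] at h4
  calc _ = (p a)⁻¹ * ((R g)⁻¹ * δ * R g) * p a := by group
    _ = _ := by rw [h4]; group

theorem pconn_iff : PConn G A ↔ (G.induce A).Connected := by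
  constructor
  · rintro ⟨⟨x, hx⟩, h⟩
    have key : ∀ a b γ, Path G A a b γ → ∀ (ha : a ∈ A) (hb : b ∈ A),
        (G.induce A).Reachable ⟨a, ha⟩ ⟨b, hb⟩ := by
      intro a b γ h
      induction h with
      | nil _ => exact fun _ _ => SimpleGraph.Reachable.refl _
      | cons hu huw hp ih =>
        intro ha hb
        refine SimpleGraph.Reachable.trans ?_ (ih hp.mem_left hb)
        rcases huw with rfl | huw
        · exact SimpleGraph.Reachable.refl _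
        · exact SimpleGraph.Adj.reachable huw
    have : Nonempty A := ⟨⟨x, hx⟩⟩
    refine SimpleGraph.Connected.mk fun a b => ?_
    obtain ⟨γ, hγ⟩ := h a a.2 b b.2
    exact key _ _ _ hγ _ _
  · intro h
    have key : ∀ a b : A, (G.induce A).Walk a b → ∃ γ, Path G A a b γ := by
      intro a b w
      induction w with
      | nil => exact ⟨1, Path.nil (Subtype.prop _)⟩
      | cons huw _ ih =>
        obtain ⟨γ, hγ⟩ := ih
        exact ⟨_, Path.cons (Subtype.prop _) (Or.inr huw) hγ⟩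
    obtain ⟨x, hx⟩ := h.nonempty
    exact ⟨⟨x, hx⟩, fun a ha b hb => (h.preconnected ⟨a, ha⟩ ⟨b, hb⟩).elim (key _ _)⟩

theorem PConn.image {f : V' → V} (h : PConn G' A') (hf : IsHom G' A' G A f)
    (hs : ∀ y ∈ A, ∃ y' ∈ A', ∃ γ, Path G A y (f y') γ) : PConn G A := by
  obtain ⟨x, hx⟩ := h.1
  refine ⟨⟨f x, hf.1 x hx⟩, fun a ha b hb => ?_⟩
  obtain ⟨a', ha', γ, hγ⟩ := hs a ha
  obtain ⟨b', hb', δ, hδ⟩ := hs b hb
  obtain ⟨ε, hε⟩ := h.2 a' ha' b' hb'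
  exact ⟨_, (hγ.trans (hε.map hf)).trans hδ.symm⟩

theorem Contr.sconn (h : Contr G A) : SConn G A := by
  obtain ⟨m, f, a, ha, h0, hm, hf, hs⟩ := h
  have h1 : ∀ x ∈ A, ∀ i, ∃ γ, Path G A x (f i x) γ := by
    intro x hx i
    induction i with
    | zero => exact ⟨1, (h0 x hx).symm ▸ Path.nil hx⟩
    | succ i ih =>
      obtain ⟨γ, hγ⟩ := ih
      exact ⟨_, hγ.trans (Path.single ((hf _).1 x hx) ((hf _).1 x hx)
        (hs i x hx x hx (Adq.refl G x)))⟩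
  have h2 : ∀ x y γ, Path G A x y γ → gmap G A G A (f m) γ = 1 := by
    intro x y γ h
    induction h with
    | nil _ => exact map_one _
    | cons hu huw hp ih =>
      rw [map_mul, ih, gmap_gen (hf m), hm _ hu, hm _ hp.mem_left, (flat_gen G A).self ha, mul_one]
  refine ⟨⟨⟨a, ha⟩, fun x hx y hy => ?_⟩, fun x γ h => ?_⟩
  · obtain ⟨γ, hγ⟩ := h1 x hx m
    obtain ⟨δ, hδ⟩ := h1 y hy m
    rw [hm x hx] at hγ
    rw [hm y hy] at hδ
    exact ⟨_, hγ.trans hδ.symm⟩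
  · have h3 : ∀ i, gmap G A G A (f i) γ = 1 → γ = 1 := by
      intro i
      induction i with
      | zero =>
        rw [h.gmap_congr (g := id) (hf 0) h0, gmap_id]
        exact id
      | succ i ih =>
        intro h4
        rw [h.gmap_sc (hf i) (hf (i + 1)) (hs i), mul_eq_one_iff_eq_inv, inv_mul_eq_iff_eq_mul,
          mul_inv_cancel] at h4
        exact ih h4
    exact h3 m (h2 _ _ _ h)

theorem SConn.path_unique (h : SConn G A) {a b : V} {γ δ : Gp G A} (h1 : Path G A a b γ)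
    (h2 : Path G A a b δ) : γ = δ :=
  mul_inv_eq_one.1 (h.2 _ _ (h1.trans h2.symm))

theorem Path.vx_sub_mem_Bd {a b : V} {γ : Gp G A} (h : Path G A a b γ) :
    vx a - vx b ∈ Bd G A 1 := by
  induction h with
  | nil _ => simp
  | @cons u w y _ hu huw hp ih =>
    have h1 : vx u - vx w ∈ Bd G A 1 := by
      refine mem_Bd.2 ⟨wedge [w, u], wedge_mem_Ch (l := [w, u])
        ⟨by simp [hu, hp.mem_left], by simp [Adq.refl, huw, huw.symm]⟩, ?_⟩
      simp [bd_vx_mul]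
    simpa using add_mem h1 ih

theorem PConn.Zy_one_le (h : PConn G A) : Zy G A 1 ≤ Bd G A 1 := by
  obtain ⟨a, ha⟩ := h.1
  intro z hz
  obtain ⟨h1, h2⟩ := mem_Zy.1 hz
  have key : z - vx a * bd z ∈ Bd G A 1 := by
    refine Ch_induction (p := fun z => z - vx a * bd z ∈ Bd G A 1) (by simp) ?_ ?_ ?_ h1
    · intro x y _ _ hx hy
      rw [map_add, mul_add, add_sub_add_comm]
      exact add_mem hx hy
    · intro r x _ hx
      rw [map_smul, mul_smul_comm, ← smul_sub]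
      exact Submodule.smul_mem _ _ hx
    · intro l hl _ hc
      obtain ⟨v, rfl⟩ := List.length_eq_one_iff.1 hl
      obtain ⟨γ, hγ⟩ := h.2 v (hc.1 v (by simp)) a ha
      simpa using hγ.vx_sub_mem_Bd
  simpa [h2] using key

theorem PConn.Zy_zero_le (h : A.Nonempty) : Zy G A 0 ≤ Bd G A 0 := by
  obtain ⟨a, ha⟩ := h
  intro z hz
  obtain ⟨r, rfl⟩ := mem_Ch_zero.1 (mem_Zy.1 hz).1
  exact Submodule.smul_mem _ _ (mem_Bd.2 ⟨_, vx_mem_GrA2 ha, bd_vx a⟩)

theorem pconn_of_Zy_one (hne : A.Nonempty) (h : Zy G A 1 ≤ Bd G A 1) : PConn G A := by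
  refine ⟨hne, fun a ha b hb => ?_⟩
  obtain ⟨w, hw, h1⟩ := mem_Bd.1 (h (mem_Zy.2
    ⟨sub_mem (vx_mem_GrA2 ha) (vx_mem_GrA2 hb), by simp⟩))
  have h2 : emap (fun x => ∃ γ, Path G A a x γ) w = 0 := by
    refine Ch_induction (p := fun w => emap (fun x => ∃ γ, Path G A a x γ) w = 0) (map_zero _)
      (fun x y _ _ hx hy => by rw [map_add, hx, hy, add_zero])
      (fun r x _ hx => by rw [map_smul, hx, smul_zero]) ?_ hw
    intro l hl _ hc
    obtain ⟨u, v, rfl⟩ := List.length_eq_two.1 hl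
    have hu := hc.1 u (by simp)
    have hv := hc.1 v (by simp)
    have huv := hc.2 u (by simp) v (by simp)
    have e : (∃ γ, Path G A a u γ) = ∃ γ, Path G A a v γ :=
      propext ⟨fun ⟨_, h⟩ => ⟨_, h.trans (Path.single hu hv huv)⟩,
        fun ⟨_, h⟩ => ⟨_, h.trans (Path.single hv hu huv.symm)⟩⟩
    rw [emap_wedge]
    refine wedge_eq_zero_of_not_nodup ?_
    simp [e]
  have h3 := congrArg (emap fun x => ∃ γ, Path G A a x γ) h1
  rw [emap_bd, h2, map_zero, map_sub, emap_vx, emap_vx, eq_comm, sub_eq_zero] at h3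
  exact vx_inj_GrA2 h3 ▸ ⟨1, Path.nil ha⟩

end Pool.Agent.MP_6374aa_gt

end

section

namespace Pool.Agent.MP_6374aa_gt

open Classical

variable {V V' V'' : Type} {G : SimpleGraph V} {G' : SimpleGraph V'} {G'' : SimpleGraph V''}
  {A : Set V} {A' : Set V'} {A'' : Set V''} {L : Type} [Group L]

theorem HasE.congr {H H' : Type} [Group H] [Group H'] (h : HasE H) (e : H ≃* H') : HasE H' := by
  intro P Q _ _ φ hφ
  obtain ⟨w, hw⟩ := h P Q (φ.comp e.toMonoidHom) (hφ.comp e.injective)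
  refine ⟨w, ?_⟩
  rcases hw with hw | hw
  · left
    intro x
    have := hw (e.symm x)
    simpa using this
  · right
    intro x
    have := hw (e.symm x)
    simpa using this

theorem hasE_of_subsingleton (H : Type) [Group H] [Subsingleton H] : HasE H := by
  intro P Q _ _ φ _
  refine ⟨1, Or.inl fun x => ?_⟩
  rw [Subsingleton.elim x 1, map_one, mul_one, inv_mul_cancel]
  exact one_mem _

theorem HasE.map {H H' : Type} [Group H] [Group H'] {K : Subgroup H} (h : HasE K) (f : H →* H')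
    (hf : ∀ δ ∈ K, f δ = 1 → δ = 1) : HasE (K.map f) := by
  have hinj : Function.Injective (f.subgroupMap K) := by
    rw [injective_iff_map_eq_one]
    intro δ hδ
    have h1 : f δ = 1 := congrArg Subtype.val hδ
    exact Subtype.ext (hf δ δ.2 h1)
  exact h.congr (MulEquiv.ofBijective (f.subgroupMap K) ⟨hinj, f.subgroupMap_surjective K⟩)

theorem Near.succ {n : ℕ} {a b : V} (ha : a ∈ A) (h : Near G A n a b) : Near G A (n + 1) a b :=
  ⟨a, ha, Or.inl rfl, h⟩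

theorem Near.mono {n m : ℕ} {a b : V} (ha : a ∈ A) (hnm : n ≤ m) (h : Near G A n a b) :
    Near G A m a b := by
  induction hnm with
  | refl => exact h
  | step _ ih => exact Near.succ ha ih

theorem Near.refl {a : V} (ha : a ∈ A) (n : ℕ) : Near G A n a a :=
  Near.mono ha (Nat.zero_le n) (show Near G A 0 a a from rfl)

theorem Near.mem {n : ℕ} {a b : V} (ha : a ∈ A) (h : Near G A n a b) : b ∈ A := by
  induction n generalizing a with
  | zero =>
    have hab : a = b := h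
    exact hab ▸ ha
  | succ n ih =>
    obtain ⟨c, hc, -, h'⟩ := h
    exact ih hc h'

theorem Near.of_adq {a b : V} (hb : b ∈ A) (h : Adq G a b) : Near G A 1 a b :=
  ⟨b, hb, h, rfl⟩

theorem Near.trans {n m : ℕ} {a b c : V} (h : Near G A n a b) (h' : Near G A m b c) :
    Near G A (n + m) a c := by
  induction n generalizing a with
  | zero =>
    have hab : a = b := h
    rw [Nat.zero_add, hab]
    exact h'
  | succ n ih =>
    obtain ⟨d, hd, had, h''⟩ := h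
    rw [Nat.add_right_comm]
    exact ⟨d, hd, had, ih h''⟩

theorem Near.symm {n : ℕ} {a b : V} (ha : a ∈ A) (h : Near G A n a b) : Near G A n b a := by
  induction n generalizing a with
  | zero =>
    have hab : a = b := h
    exact hab.symm
  | succ n ih =>
    obtain ⟨d, hd, had, h''⟩ := h
    have hda : Adq G d a := had.elim (fun e => Or.inl e.symm) fun e => Or.inr e.symm
    exact (ih hd h'').trans (Near.of_adq ha hda)

theorem Near.map {f : V' → V} (hf : IsHom G' A' G A f) {n : ℕ} {a b : V'} (ha : a ∈ A')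
    (h : Near G' A' n a b) : Near G A n (f a) (f b) := by
  induction n generalizing a with
  | zero =>
    have hab : a = b := h
    exact congrArg f hab
  | succ n ih =>
    obtain ⟨d, hd, had, h''⟩ := h
    refine ⟨f d, hf.1 d hd, ?_, ih hd h''⟩
    rcases had with e | e
    · exact Or.inl (congrArg f e)
    · exact hf.2 a ha d hd e

end Pool.Agent.MP_6374aa_gt

end

section

namespace Pool.Agent.MP_6374aa_gt

open Classical

variable {V V' V'' : Type} {G : SimpleGraph V} {G' : SimpleGraph V'} {G'' : SimpleGraph V''}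
  {A : Set V} {A' : Set V'} {A'' : Set V''} {L : Type} [Group L] {Ω : Type} [MulAction L Ω]

theorem cov_adj_GrB1 {lab : V → V → L} {p q : V × Ω} : (cov G lab Ω).Adj p q ↔
    G.Adj p.1 q.1 ∧ p.2 = lab p.1 q.1 • q.2 ∧ q.2 = lab q.1 p.1 • p.2 := Iff.rfl

theorem cov_adj'_GrB1 {lab : V → V → L} (h : Flat G A lab) {p q : V × Ω} (hp : p.1 ∈ A)
    (hq : q.1 ∈ A) : (cov G lab Ω).Adj p q ↔ G.Adj p.1 q.1 ∧ p.2 = lab p.1 q.1 • q.2 := by
  refine ⟨fun h1 => ⟨h1.1, h1.2.1⟩, fun h1 => ⟨h1.1, h1.2, ?_⟩⟩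
  rw [h.symm hp hq (Or.inr h1.1), h1.2, inv_smul_smul]

theorem cov_adq {lab : V → V → L} (h : Flat G A lab) {u w : V} (hu : u ∈ A) (hw : w ∈ A)
    {ω ω' : Ω} : Adq (cov G lab Ω) (u, ω) (w, ω') ↔ Adq G u w ∧ ω = lab u w • ω' := by
  constructor
  · rintro (h1 | h1)
    · obtain ⟨rfl, rfl⟩ := Prod.mk.inj h1
      exact ⟨Or.inl rfl, by rw [h.self hu, one_smul]⟩
    · exact ⟨Or.inr h1.1, h1.2.1⟩
  · rintro ⟨rfl | h1, h2⟩
    · rw [h.self hu, one_smul] at h2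
      exact Or.inl (by rw [h2])
    · exact Or.inr ((cov_adj'_GrB1 h hu hw).2 ⟨h1, h2⟩)

theorem cov_fst_hom (lab : V → V → L) {S : Set (V × Ω)} (hS : ∀ p ∈ S, p.1 ∈ A) :
    IsHom (cov G lab Ω) S G A Prod.fst :=
  ⟨hS, fun _ _ _ _ h => Or.inr h.1⟩

theorem lift1_hom {lab : V → V → L} (h : Flat G A lab) {c : V' → V} (hc : IsHom G' A' G A c) :
    IsHom (cov G' (fun u w => lab (c u) (c w)) Ω) (up A' Ω) (cov G lab Ω) (up A Ω) (lift1 c Ω) :=
  ⟨fun p hp => hc.1 p.1 hp, fun p hp q hq h1 =>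
    (cov_adq h (hc.1 p.1 hp) (hc.1 q.1 hq)).2 ⟨hc.2 p.1 hp q.1 hq h1.1, h1.2.1⟩⟩

theorem up_hom_GrB1 (lab : V → V → L) : IsHom (cov G lab Ω) (up A Ω) G A Prod.fst :=
  cov_fst_hom lab fun _ hp => hp

/-- Lifting paths. -/
theorem Path.lift {lab : V → V → L} (h : Flat G A lab) {u y : V} {γ : Gp G A}
    (hγ : Path G A u y γ) (ω : Ω) :
    ∃ γ', Path (cov G lab Ω) (up A Ω) (u, glift G A lab γ • ω) (y, ω) γ' ∧
      gmap (cov G lab Ω) (up A Ω) G A Prod.fst γ' = γ := by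
  induction hγ with
  | nil hy =>
    refine ⟨1, ?_, map_one _⟩
    rw [map_one, one_smul]
    exact Path.nil hy
  | @cons u w y γ hu huw hp ih =>
    obtain ⟨γ', h1, h2⟩ := ih
    refine ⟨_, Path.cons hu ((cov_adq h hu hp.mem_left).2 ⟨huw, ?_⟩) h1, ?_⟩
    · rw [map_mul, glift_gen h, mul_smul]
    · rw [map_mul, gmap_gen (up_hom_GrB1 lab), h2]

/-- Projecting paths. -/
theorem Path.proj {lab : V → V → L} (h : Flat G A lab) {p q : V × Ω}
    {γ' : Gp (cov G lab Ω) (up A Ω)} (hγ : Path (cov G lab Ω) (up A Ω) p q γ') :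
    p.2 = glift G A lab (gmap (cov G lab Ω) (up A Ω) G A Prod.fst γ') • q.2 := by
  induction hγ with
  | nil hy => rw [map_one, map_one, one_smul]
  | @cons u w y γ hu huw hp ih =>
    rw [map_mul, map_mul, gmap_gen (up_hom_GrB1 lab), glift_gen h, mul_smul, ← ih]
    exact ((cov_adq h hu hp.mem_left).1 huw).2

/-- The permutation that records the lift of an edge. -/
noncomputable def prm_GrB1 (G : SimpleGraph V) (A : Set V) (lab : V → V → L) (Ω : Type)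
    [MulAction L Ω] (u w : V) : Equiv.Perm (Ω × Gp (cov G lab Ω) (up A Ω)) where
  toFun x := (lab u w • x.1, gen _ _ (u, lab u w • x.1) (w, x.1) * x.2)
  invFun x := ((lab u w)⁻¹ • x.1, (gen _ _ (u, x.1) (w, (lab u w)⁻¹ • x.1))⁻¹ * x.2)
  left_inv x := by simp
  right_inv x := by simp

theorem prm_apply_GrB1 (lab : V → V → L) (u w : V) (x : Ω × Gp (cov G lab Ω) (up A Ω)) :
    prm_GrB1 G A lab Ω u w x =
      (lab u w • x.1, gen _ _ (u, lab u w • x.1) (w, x.1) * x.2) := rfl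

theorem prm_flat_GrB1 {lab : V → V → L} (h : Flat G A lab) : Flat G A (prm_GrB1 G A lab Ω) := by
  intro u hu v hv w hw h1 h2 h3
  refine Equiv.ext fun x => ?_
  have h4 := h u hu v hv w hw h1 h2 h3
  rw [Equiv.Perm.mul_apply, prm_apply_GrB1, prm_apply_GrB1, prm_apply_GrB1]
  dsimp only
  rw [← mul_smul, h4, ← mul_assoc]
  congr 2
  refine flat_gen (cov G lab Ω) (up A Ω) (u, lab u w • x.1) hu (v, lab v w • x.1) hv (w, x.1) hw
    ((cov_adq h hu hv).2 ⟨h1, ?_⟩) ((cov_adq h hv hw).2 ⟨h2, rfl⟩) ((cov_adq h hu hw).2 ⟨h3, rfl⟩)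
  rw [← mul_smul, h4]

theorem prm_path_GrB1 {lab : V → V → L} (h : Flat G A lab) {p q : V × Ω}
    {γ' : Gp (cov G lab Ω) (up A Ω)} (hγ : Path (cov G lab Ω) (up A Ω) p q γ') :
    glift G A (prm_GrB1 G A lab Ω) (gmap (cov G lab Ω) (up A Ω) G A Prod.fst γ') (q.2, 1) =
      (p.2, γ') := by
  induction hγ with
  | nil hy => rw [map_one, map_one, Equiv.Perm.one_apply]
  | @cons u w y γ hu huw hp ih =>
    rw [map_mul, map_mul, gmap_gen (up_hom_GrB1 lab), glift_gen (prm_flat_GrB1 h),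
      Equiv.Perm.mul_apply, ih, prm_apply_GrB1]
    dsimp only
    rw [← ((cov_adq h hu hp.mem_left).1 huw).2]

/-- The projection of a cover is injective on loops. -/
theorem Path.proj_inj {lab : V → V → L} (h : Flat G A lab) {p : V × Ω}
    {γ' : Gp (cov G lab Ω) (up A Ω)} (hγ : Path (cov G lab Ω) (up A Ω) p p γ')
    (h1 : gmap (cov G lab Ω) (up A Ω) G A Prod.fst γ' = 1) : γ' = 1 := by
  have h2 := prm_path_GrB1 h hγ
  rw [h1, map_one, Equiv.Perm.one_apply] at h2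
  exact (congrArg Prod.snd h2).symm

theorem Fin3.cov [Finite Ω] {lab : V → V → L} (h : Flat G A lab) (hA : Fin3 G A) :
    Fin3 (cov G lab Ω) (up A Ω) := by
  refine ⟨(hA.1.prod (Set.finite_univ (α := Ω))).subset fun p hp => ⟨hp, trivial⟩, ?_⟩
  intro s hs hc
  have hinj : Set.InjOn Prod.fst (s : Set (V × Ω)) := fun p hp q hq hpq => by
    by_contra hne
    exact (hc hp hq hne).1.ne hpq
  rw [← Finset.card_image_of_injOn hinj]
  refine hA.2 _ ?_ ?_
  · intro x hx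
    obtain ⟨p, hp, rfl⟩ := Finset.mem_image.1 hx
    exact hs hp
  · intro x hx y hy hxy
    obtain ⟨p, hp, rfl⟩ := Finset.mem_image.1 hx
    obtain ⟨q, hq, rfl⟩ := Finset.mem_image.1 hy
    exact (hc hp hq fun h1 => hxy (by rw [h1])).1

theorem lk_cov_GrB1 {lab : V → V → L} {S : Set (V × Ω)} {p q : V × Ω} :
    q ∈ Lk (cov G lab Ω) S {p} ↔ q ∈ S ∧ (cov G lab Ω).Adj p q := by
  simp [Lk]

/-- Links in a cover project isomorphically. -/
theorem cov_link_iso {lab : V → V → L} (h : Flat G A lab) {S : Set (V × Ω)}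
    (hS : ∀ p ∈ S, p.1 ∈ A) {p : V × Ω} (hp : p ∈ S)
    (hcl : ∀ w ∈ A, G.Adj p.1 w → (w, lab w p.1 • p.2) ∈ S) :
    IsIso (cov G lab Ω) (Lk (cov G lab Ω) S {p}) G (Lk G A {p.1}) Prod.fst := by
  refine ⟨⟨fun q hq => ?_, fun q hq r hr hqr => ?_, fun w hw => ?_⟩, fun q hq r hr => ?_⟩
  · obtain ⟨h1, h2⟩ := lk_cov_GrB1.1 hq
    exact ⟨hS q h1, fun u hu => (Set.mem_singleton_iff.1 hu) ▸ h2.1⟩
  · refine Prod.ext hqr ?_
    rw [(lk_cov_GrB1.1 hq).2.2.2, (lk_cov_GrB1.1 hr).2.2.2, hqr]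
  · have h1 : G.Adj p.1 w := hw.2 _ rfl
    refine ⟨(w, lab w p.1 • p.2), lk_cov_GrB1.2 ⟨hcl w hw.1 h1, ?_⟩, rfl⟩
    exact ((cov_adj'_GrB1 (p := (w, lab w p.1 • p.2)) h hw.1 (hS p hp)).2 ⟨h1.symm, rfl⟩).symm
  · obtain ⟨h1, h2⟩ := lk_cov_GrB1.1 hq
    obtain ⟨h3, h4⟩ := lk_cov_GrB1.1 hr
    refine ⟨fun h5 => h5.1, fun h5 => (cov_adj'_GrB1 h (hS q h1) (hS r h3)).2 ⟨h5, ?_⟩⟩
    rw [h4.2.2, ← mul_smul, h _ (hS q h1) _ (hS r h3) _ (hS p hp) (Or.inr h5) (Or.inr h4.1.symm)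
      (Or.inr h2.1.symm)]
    exact h2.2.2

/-- Gauge transformations give isomorphic covers. -/
theorem cov_gauge_iso {lab lab' : V → V → L} (h : Flat G A lab) {k : V → L}
    (hk : ∀ u ∈ A, ∀ w ∈ A, Adq G u w → lab' u w = k u * lab u w * (k w)⁻¹) :
    IsIso (cov G lab' Ω) (up A Ω) (cov G lab Ω) (up A Ω) fun p => (p.1, (k p.1)⁻¹ • p.2) := by
  refine ⟨⟨fun p hp => hp, fun p _ q _ hpq => ?_, fun p hp => ⟨(p.1, k p.1 • p.2), hp, ?_⟩⟩,
    fun p hp q hq => ?_⟩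
  · obtain ⟨h1, h2⟩ := Prod.mk.inj hpq
    rw [h1, smul_left_cancel_iff] at h2
    exact Prod.ext h1 h2
  · simp
  · rw [cov_adj_GrB1, cov_adj_GrB1]
    refine and_congr_right fun h1 => ?_
    dsimp only
    rw [hk _ hp _ hq (Or.inr h1), hk _ hq _ hp (Or.inr h1.symm), mul_smul, mul_smul, mul_smul,
      mul_smul, inv_smul_eq_iff, inv_smul_eq_iff]

end Pool.Agent.MP_6374aa_gt

end

section

namespace Pool.Agent.MP_6374aa_gt

open Classical

variable {V V' V'' : Type} {G : SimpleGraph V} {G' : SimpleGraph V'} {G'' : SimpleGraph V''}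
  {A : Set V} {A' : Set V'} {A'' : Set V''} {L : Type} [Group L] {Ω : Type} [MulAction L Ω]

section graft

variable {M B : Set V} {v : V}

theorem Graft.symm (h : Graft G A M B v) : Graft G M A B v :=
  ⟨h.memM, h.memA, h.lk.symm, by rw [Set.inter_comm, h.inter, h.lk],
    fun a ha b hb hab => h.sep b hb a ha hab.symm, by rw [h.eq, Set.union_comm]⟩

theorem Graft.not_mem (h : Graft G A M B v) : v ∉ B := by
  rw [h.eq]
  exact fun hv => hv.2 rfl

theorem Graft.mem_GrB3 (h : Graft G A M B v) {x : V} : x ∈ B ↔ (x ∈ A ∨ x ∈ M) ∧ x ≠ v := by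
  rw [h.eq]
  rfl

theorem Graft.adq_GrB3 (h : Graft G A M B v) {a b : V} (ha : a ∈ A) (hb : b ∈ B) (hb' : b ∉ A)
    (hab : G.Adj a b) : a = v ∨ G.Adj v a := by
  have h1 : b ∈ M := (h.mem_GrB3.1 hb).1.resolve_left hb'
  have h2 : a ∈ M := by
    by_contra h2
    exact h.sep a ⟨ha, h2⟩ b ⟨h1, hb'⟩ hab
  have h3 : a ∈ insert v (Lk G A {v}) := h.inter ▸ ⟨ha, h2⟩
  exact h3.imp id fun h4 => h4.2 v rfl

theorem Graft.col_hom (h : Graft G A M B v) : IsHom G B G A (col A v) := by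
  refine ⟨fun a _ => ?_, fun a ha b hb hab => ?_⟩
  · unfold col
    split_ifs with h1
    exacts [h1, h.memA]
  · unfold col
    split_ifs with h1 h2 h2
    · exact Or.inr hab
    · exact (h.adq_GrB3 h1 hb h2 hab).imp id G.adj_symm
    · exact (h.adq_GrB3 h2 ha h1 hab.symm).imp Eq.symm id
    · exact Or.inl rfl

theorem Graft.clique (h : Graft G A M B v) {l : List V} (hl : IsCl G B l) :
    (∀ x ∈ l, x ∈ A \ {v}) ∨ ∀ x ∈ l, x ∈ M \ {v} := by
  by_contra hc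
  push Not at hc
  obtain ⟨⟨x, hx, hx'⟩, y, hy, hy'⟩ := hc
  obtain ⟨a1, a2⟩ := h.mem_GrB3.1 (hl.1 x hx)
  obtain ⟨b1, b2⟩ := h.mem_GrB3.1 (hl.1 y hy)
  have a3 : x ∉ A := fun h' => hx' ⟨h', a2⟩
  have b3 : y ∉ M := fun h' => hy' ⟨h', b2⟩
  rcases hl.2 y hy x hx with e | e
  · exact a3 (e ▸ b1.resolve_right b3)
  · exact h.sep y ⟨b1.resolve_right b3, b3⟩ x ⟨a1.resolve_left a3, a3⟩ e

theorem Graft.fin3 (h : Graft G A M B v) (hA : Fin3 G A) (hM : Fin3 G M) : Fin3 G B := by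
  refine ⟨(hA.1.union hM.1).subset (h.eq ▸ Set.sdiff_subset), fun s hs hc => ?_⟩
  have hl : IsCl G B s.toList := by
    refine ⟨fun x hx => hs (Finset.mem_toList.1 hx), fun x hx y hy => ?_⟩
    by_cases e : x = y
    · exact Or.inl e
    · exact Or.inr (hc (Finset.mem_toList.1 hx) (Finset.mem_toList.1 hy) e)
  rcases h.clique hl with h1 | h1
  · exact hA.2 s (fun x hx => (h1 x (Finset.mem_toList.2 hx)).1) hc
  · exact hM.2 s (fun x hx => (h1 x (Finset.mem_toList.2 hx)).1) hc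

theorem Graft.pre_of_mem (h : Graft G A M B v) {S : Set V} (hS : S ⊆ A) (hv : v ∈ S) :
    B ∩ col A v ⁻¹' S = (S \ {v}) ∪ (M \ insert v (Lk G M {v})) := by
  rw [← h.lk, ← h.inter]
  ext x
  rw [Set.mem_inter_iff, h.mem_GrB3, Set.mem_preimage, col]
  split_ifs with h1
  · exact ⟨fun h2 => Or.inl ⟨h2.2, h2.1.2⟩,
      fun h2 => h2.elim (fun h3 => ⟨⟨Or.inl h1, h3.2⟩, h3.1⟩) fun h3 => absurd ⟨h1, h3.1⟩ h3.2⟩
  · exact ⟨fun h2 => Or.inr ⟨h2.1.1.resolve_left h1, fun h3 => h1 h3.1⟩,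
      fun h2 => h2.elim (fun h3 => absurd (hS h3.1) h1)
        fun h3 => ⟨⟨Or.inr h3.1, fun e => h1 (e ▸ h.memA)⟩, hv⟩⟩

theorem Graft.pre_of_not_mem (h : Graft G A M B v) {S : Set V} (hS : S ⊆ A) (hv : v ∉ S) :
    B ∩ col A v ⁻¹' S = S := by
  ext x
  rw [Set.mem_inter_iff, h.mem_GrB3, Set.mem_preimage, col]
  split_ifs with h1
  · exact ⟨fun h2 => h2.2, fun h2 => ⟨⟨Or.inl h1, fun e => hv (e ▸ h2)⟩, h2⟩⟩
  · exact ⟨fun h2 => absurd h2.2 hv, fun h2 => absurd (hS h2) h1⟩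

end graft

end Pool.Agent.MP_6374aa_gt

end

section

/-! Universal labels and covers. -/

namespace Pool.Agent.MP_6374aa_g

open Pool.Agent.MP_6374aa_gt Classical

variable {V V' V'' : Type} {G : SimpleGraph V} {G' : SimpleGraph V'} {G'' : SimpleGraph V''}
  {A : Set V} {A' : Set V'} {A'' : Set V''} {L : Type} [Group L]

variable {Ω : Type} [MulAction L Ω]

theorem walk_P3 {ρ : V → V → L} (hp : Pre G A) {a : V} (ha : a ∈ A)
    (hs : ∀ g, ∃ l, Wk G A a l a ∧ ev ρ a l = g) {b c : V} (hb : b ∈ A) (hc : c ∈ A) (g : L) :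
    ∃ l, Wk G A b l c ∧ ev ρ b l = g := by
  obtain ⟨m1, h1⟩ := (hp b hb a ha).wk hb
  obtain ⟨m2, h2⟩ := (hp a ha c hc).wk ha
  obtain ⟨l, h3, h4⟩ := hs ((ev ρ b m1)⁻¹ * g * (ev ρ a m2)⁻¹)
  refine ⟨m1 ++ (l ++ m2), h1.append (h3.append h2), ?_⟩
  rw [ev_append h1, ev_append h3, h4]
  group

theorem UL.faithful {ρ : V → V → L} (h : UL G A ρ) {a : V} {l : List V} (hw : Wk G A a l a)
    (h1 : ev ρ a l = 1) : Null G A a l :=
  fun L' _ lab hl => (h.dom L' lab hl).ev_loop hw h1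

theorem UL.of_faithful {ρ : V → V → L} (hf : Flat G A ρ) (hc : Con G A)
    (h1 : ∀ a l, Wk G A a l a → ev ρ a l = 1 → Null G A a l) {a : V} (ha : a ∈ A)
    (hs : ∀ g, ∃ l, Wk G A a l a ∧ ev ρ a l = g) : UL G A ρ :=
  ⟨hf, hc, fun L' _ lab hl => dom_of_loops hf hl hc.2 ha hs fun l hw h => h1 a l hw h L' lab hl,
    fun _ hb => walk_P3 hc.2 ha hs hb hb⟩

theorem exists_ul (hc : Con G A) : ∃ (H : Type) (_ : Group H) (ρ : V → V → H), UL G A ρ := by
  obtain ⟨a, ha⟩ := hc.1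
  let H : Subgroup (Gp G A) :=
    { carrier := {g | ∃ l, Wk G A a l a ∧ ev (gen G A) a l = g}
      one_mem' := ⟨[], Wk.nil ha, rfl⟩
      mul_mem' := by
        rintro _ _ ⟨l, h1, rfl⟩ ⟨m, h2, rfl⟩
        exact ⟨l ++ m, h1.append h2, ev_append h1 m⟩
      inv_mem' := by
        rintro _ ⟨l, h1, rfl⟩
        exact ⟨rev a l, h1.rev, ev_rev (flat_gen G A) h1⟩ }
  choose! m hm using fun u (hu : u ∈ A) => (hc.2 a ha u hu).wk ha
  let k : V → Gp G A := fun u => ev (gen G A) a (m u)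
  let ρ : V → V → H := fun u w =>
    if h : k u * gen G A u w * (k w)⁻¹ ∈ H then ⟨_, h⟩ else 1
  have hg : Gau G A (fun u w => H.subtype (ρ u w)) (gen G A) k := by
    intro u hu w hw huw
    have : k u * gen G A u w * (k w)⁻¹ ∈ H := by
      refine ⟨m u ++ ([w] ++ rev a (m w)),
        (hm u hu).append ((Wk.single hu hw huw).append (hm w hw).rev), ?_⟩
      rw [ev_append (hm u hu), ev_append (Wk.single hu hw huw), ev_rev (flat_gen G A) (hm w hw)]
      simp only [ev, mul_one, mul_assoc, k]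
    simp only [ρ, dif_pos this, Subgroup.coe_subtype]
  have he : ∀ b l, Wk G A b l b → H.subtype (ev ρ b l) = k b * ev (gen G A) b l * (k b)⁻¹ :=
    fun b l hw => by rw [← ev_hom, ev_gau hg hw]
  refine ⟨H, inferInstance, ρ, UL.of_faithful (fun u hu v hv w hw h1 h2 h3 => ?_) hc
    (fun b l hw h1 => ?_) ha fun g => ?_⟩
  · apply H.subtype_injective
    rw [map_mul]
    exact hg.flat (flat_gen G A) u hu v hv w hw h1 h2 h3
  · have := he b l hw
    rw [h1, map_one, eq_comm, conj_eq_one_iff] at this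
    exact null_iff_gen.2 this
  · have hk : k a ∈ H := ⟨m a, hm a ha, rfl⟩
    obtain ⟨l, h1, h2⟩ := H.mul_mem (H.mul_mem (H.inv_mem hk) g.2) hk
    refine ⟨l, h1, H.subtype_injective ?_⟩
    rw [he a l h1, h2, Subgroup.coe_subtype]
    group

theorem UL.gau {ρ ρ' : V → V → L} {k : V → L} (h : UL G A ρ) (hk : Gau G A ρ' ρ k) : UL G A ρ' := by
  obtain ⟨a, ha⟩ := h.con.1
  refine UL.of_faithful (hk.flat h.flat) h.con (fun b l hw h1 => h.faithful hw ?_) ha fun g => ?_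
  · rwa [ev_gau hk hw, conj_eq_one_iff] at h1
  · obtain ⟨l, h1, h2⟩ := h.surj a ha ((k a)⁻¹ * g * k a)
    refine ⟨l, h1, ?_⟩
    rw [ev_gau hk h1, h2]
    group

theorem UL.pull {ρ : V → V → L} (h : UL G A ρ) {f : V' → V} (hf : PE G' A' G A f) :
    UL G' A' (pull f ρ) := by
  have hc := hf.con.2 h.con
  obtain ⟨a, ha⟩ := hc.1
  refine UL.of_faithful (flat_pull h.flat hf.hom) hc
    (fun b l hw h1 => hf.null hw (h.faithful (hw.map hf.hom) ?_)) ha fun g => ?_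
  · rwa [ev_pull] at h1
  · obtain ⟨l, h1, h2⟩ := h.surj _ (hf.hom.1 a ha) g
    obtain ⟨l', h3, h4⟩ := hf.lift ha ha h1
    exact ⟨l', h3, by rw [ev_pull, h4 L ρ h.flat, h2]⟩

theorem UL.of_pull {ρ : V → V → L} (hρ : Flat G A ρ) {f : V' → V} (hf : PE G' A' G A f)
    (h : UL G' A' (Pool.Agent.MP_6374aa_g.pull f ρ)) : UL G A ρ := by
  have hc := hf.con.1 h.con
  obtain ⟨a, ha⟩ := h.con.1
  refine ⟨hρ, hc, fun L' _ lab hl => hf.dom hρ hl (h.dom L' _ (flat_pull hl hf.hom)),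
    fun _ hb => walk_P3 hc.2 (hf.hom.1 a ha) (fun g => ?_) hb hb⟩
  obtain ⟨l, h1, h2⟩ := h.surj a ha g
  exact ⟨_, h1.map hf.hom, by rwa [ev_pull] at h2⟩

theorem UL.walk {ρ : V → V → L} (h : UL G A ρ) {a b : V} (ha : a ∈ A) (hb : b ∈ A) (g : L) :
    ∃ l, Wk G A a l b ∧ ev ρ a l = g :=
  walk_P3 h.con.2 ha (h.surj a ha) ha hb g

theorem Wk.lift {lab : V → V → L} (hl : Flat G A lab) {a b : V} {l : List V} (h : Wk G A a l b)
    (x : Ω) : ∃ l', Wk (cov G lab Ω) (up A Ω) (a, ev lab a l • x) l' (b, x) ∧ l'.map Prod.fst = l := by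
  induction h with
  | nil ha => exact ⟨[], by rw [ev, one_smul]; exact Wk.nil ha, rfl⟩
  | @cons a b c l ha hab hw ih =>
    obtain ⟨l', h1, h2⟩ := ih
    refine ⟨(b, ev lab b l • x) :: l',
      Wk.cons ha ((cov_adq hl ha hw.mem_left).2 ⟨hab, ?_⟩) h1, by rw [List.map_cons, h2]⟩
    rw [ev, mul_smul]

theorem Wk.proj {lab : V → V → L} (hl : Flat G A lab) {p q : V × Ω} {l : List (V × Ω)}
    (h : Wk (cov G lab Ω) (up A Ω) p l q) :
    Wk G A p.1 (l.map Prod.fst) q.1 ∧ p.2 = ev lab p.1 (l.map Prod.fst) • q.2 := by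
  refine ⟨h.map (up_hom_GrB1 lab), ?_⟩
  induction h with
  | nil ha => rw [List.map_nil, ev, one_smul]
  | @cons a b c l ha hab hw ih =>
    rw [List.map_cons, ev, mul_smul, ← ih]
    exact ((cov_adq hl ha hw.mem_left).1 hab).2

theorem path_P3 {a b : V} {l : List V} (h : Wk G A a l b) : Path G A a b (ev (gen G A) a l) := by
  induction h with
  | nil ha => exact Path.nil ha
  | cons ha hab _ ih => exact Path.cons ha hab ih

theorem null_up_P3 {lab : V → V → L} (hl : Flat G A lab) {p : V × Ω} {l : List (V × Ω)}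
    (h : Wk (cov G lab Ω) (up A Ω) p l p) (h1 : Null G A p.1 (l.map Prod.fst)) :
    Null (cov G lab Ω) (up A Ω) p l := by
  refine null_iff_gen.2 (Path.proj_inj hl (path_P3 h) ?_)
  have := null_iff_gen.1 h1
  rw [← ev_pull, ← ev_gen (flat_pull (flat_gen G A) (up_hom_GrB1 lab))] at this
  exact this

theorem cov_sco {ρ : V → V → L} (hf : Flat G A ρ)
    (h1 : ∀ a l, Wk G A a l a → ev ρ a l = 1 → Null G A a l) : SCo (cov G ρ L) (up A L) := by
  refine sco_of_null fun p l hw => null_up_P3 hf hw (h1 _ _ (hw.proj hf).1 ?_)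
  have := (hw.proj hf).2
  rwa [smul_eq_mul, right_eq_mul] at this

theorem con_P3 [Nonempty Ω] [MulAction.IsPretransitive L Ω] {ρ : V → V → L} (h : UL G A ρ) :
    Con (cov G ρ Ω) (up A Ω) := by
  obtain ⟨a, ha⟩ := h.con.1
  refine ⟨⟨(a, Classical.arbitrary Ω), ha⟩, fun p hp q hq => ?_⟩
  obtain ⟨g, hg⟩ := MulAction.exists_smul_eq L q.2 p.2
  obtain ⟨l, h1, h2⟩ := h.walk hp hq g
  obtain ⟨l', h3, -⟩ := h1.lift h.flat q.2
  rw [h2, hg] at h3
  exact h3.reach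

theorem UL.cov_con {ρ : V → V → L} (h : UL G A ρ) : Con (cov G ρ L) (up A L) := con_P3 h

theorem UL.cov_sco {ρ : V → V → L} (h : UL G A ρ) : SCo (cov G ρ L) (up A L) :=
  Pool.Agent.MP_6374aa_g.cov_sco h.flat fun _ _ => h.faithful

theorem UL.cov_rk {ρ : V → V → L} (h : UL G A ρ) (H : Subgroup L) (hH : IsCyclic H) :
    Con (cov G ρ (L ⧸ H)) (up A (L ⧸ H)) ∧ Rk (cov G ρ (L ⧸ H)) (up A (L ⧸ H)) 1 := by
  have hc : Con (cov G ρ (L ⧸ H)) (up A (L ⧸ H)) := con_P3 h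
  refine ⟨hc, fun θ hθ => ?_⟩
  obtain ⟨a, ha⟩ := h.con.1
  obtain ⟨g, hg⟩ := (Subgroup.isCyclic_iff_exists_zpowers_eq_top H).1 hH
  have hfix : ∀ y : L, y • ((1 : L) : L ⧸ H) = ((1 : L) : L ⧸ H) ↔ y ∈ H := fun y => by
    rw [MulAction.Quotient.smul_coe, smul_eq_mul, mul_one, eq_comm, QuotientGroup.eq, inv_one,
      one_mul]
  obtain ⟨l, h1, h2⟩ := h.surj a ha g
  obtain ⟨l0, h3, h4⟩ := h1.lift h.flat ((1 : L) : L ⧸ H)
  rw [h2, (hfix g).2 (hg ▸ Subgroup.mem_zpowers g)] at h3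
  have hp : (a, ((1 : L) : L ⧸ H)) ∈ up A (L ⧸ H) := ha
  have hρ := flat_pull h.flat (up_hom_GrB1 (A := A) (Ω := L ⧸ H) ρ)
  have key : ∀ μ : V × (L ⧸ H) → V × (L ⧸ H) → Z2, Flat (cov G ρ (L ⧸ H)) (up A (L ⧸ H)) μ →
      ev μ (a, ((1 : L) : L ⧸ H)) l0 = 1 → Pot (cov G ρ (L ⧸ H)) (up A (L ⧸ H)) μ := by
    intro μ hμ h0
    generalize hq : (a, ((1 : L) : L ⧸ H)) = p at h0 h3 hp
    let K : Subgroup L :=
      { carrier := {y | ∃ m, Wk (cov G ρ (L ⧸ H)) (up A (L ⧸ H)) p m p ∧ ev μ p m = 1 ∧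
          ev (Pool.Agent.MP_6374aa_g.pull Prod.fst ρ) p m = y}
        one_mem' := ⟨[], Wk.nil hp, rfl, rfl⟩
        mul_mem' := by
          rintro _ _ ⟨m, k1, k2, rfl⟩ ⟨m', k3, k4, rfl⟩
          exact ⟨m ++ m', k1.append k3, by rw [ev_append k1, k2, k4, mul_one], ev_append k1 m'⟩
        inv_mem' := by
          rintro _ ⟨m, k1, k2, rfl⟩
          exact ⟨rev p m, k1.rev, by rw [ev_rev hμ k1, k2, inv_one], ev_rev hρ k1⟩ }
    have hK : H ≤ K := by
      rw [← hg, Subgroup.zpowers_le]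
      exact ⟨l0, h3, h0, by rw [ev_pull, h4, ← hq, h2]⟩
    refine pot_of_loops_at hμ hc.2 hp fun m hm => ?_
    have k0 : ev (Pool.Agent.MP_6374aa_g.pull Prod.fst ρ) p m ∈ H := by
      have := (hm.proj h.flat).2
      rw [ev_pull, ← hfix]
      subst hq
      exact this.symm
    obtain ⟨m', k1, k2, k3⟩ := hK k0
    have k4 := hm.append k1.rev
    have k5 := null_up_P3 h.flat k4 (h.faithful (k4.proj h.flat).1 (by
      rw [← ev_pull, ev_append hm, ev_rev hρ k1, k3, mul_inv_cancel])) Z2 μ hμ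
    rwa [ev_append hm, ev_rev hμ k1, k2, inv_one, mul_one] at k5
  rcases z2_cases (ev (θ 0) (a, ((1 : L) : L ⧸ H)) l0) with e0 | e0
  · exact ⟨{0}, Finset.singleton_nonempty _, by simpa using key _ (hθ 0) e0⟩
  rcases z2_cases (ev (θ 1) (a, ((1 : L) : L ⧸ H)) l0) with e1 | e1
  · exact ⟨{1}, Finset.singleton_nonempty _, by simpa using key _ (hθ 1) e1⟩
  refine ⟨Finset.univ, Finset.univ_nonempty, ?_⟩
  simpa using key _ (flat_mul (hθ 0) (hθ 1)) (by rw [ev_mul, e0, e1, z2_mul_self])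

/-- Right multiplication is an automorphism of the regular cover. -/
theorem cov_deck (lab : V → V → L) (g : L) (p q : V × L) :
    (cov G lab L).Adj (p.1, p.2 * g) (q.1, q.2 * g) ↔ (cov G lab L).Adj p q := by
  simp only [cov_adj_GrB1, smul_eq_mul, ← mul_assoc, mul_left_inj]

theorem lift_mem_P3 {lab : V → V → L} (hl : Flat G A lab) {s : Finset V} (hs : s ∈ sA G A)
    {a : V} (ha : a ∈ s) (x : Ω) :
    s.image (fun v => (v, lab v a • x)) ∈ sA (cov G lab Ω) (up A Ω) := by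
  obtain ⟨h1, h2, h3⟩ := mem_sA.1 hs
  refine mem_sA.2 ⟨h1.image _, fun p hp => ?_, fun p hp q hq => ?_⟩
  · obtain ⟨v, hv, rfl⟩ := Finset.mem_image.1 hp
    exact h2 hv
  · obtain ⟨v, hv, rfl⟩ := Finset.mem_image.1 hp
    obtain ⟨w, hw, rfl⟩ := Finset.mem_image.1 hq
    refine (cov_adq hl (h2 hv) (h2 hw)).2 ⟨h3 v hv w hw, ?_⟩
    rw [← mul_smul, hl v (h2 hv) w (h2 hw) a (h2 ha) (h3 v hv w hw) (h3 w hw a ha) (h3 v hv a ha)]

theorem self_mem_P3 {lab : V → V → L} (hl : Flat G A lab) {s : Finset V} (hs : s ∈ sA G A)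
    {a : V} (ha : a ∈ s) (x : Ω) : (a, x) ∈ s.image (fun v => (v, lab v a • x)) :=
  Finset.mem_image.2 ⟨a, ha, by rw [hl.self (hs.2.1 ha), one_smul]⟩

theorem fst_lift_P3 (s : Finset V) (φ : V → Ω) :
    (s.image fun v => (v, φ v)).image Prod.fst = s := by
  rw [Finset.image_image]
  exact Finset.image_id

theorem eq_lift_P3 {lab : V → V → L} (hl : Flat G A lab) {t : Finset (V × Ω)}
    (ht : t ∈ sA (cov G lab Ω) (up A Ω)) {a : V} {x : Ω} (ha : (a, x) ∈ t) :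
    t = (t.image Prod.fst).image fun v => (v, lab v a • x) := by
  obtain ⟨-, h2, h3⟩ := mem_sA.1 ht
  rw [Finset.image_image]
  conv_lhs => rw [← Finset.image_id (s := t)]
  exact Finset.image_congr fun q hq =>
    Prod.ext rfl ((cov_adq hl (h2 hq) (h2 ha)).1 (h3 q hq _ ha)).2

/-- Simplices lift uniquely through each of their vertices. -/
theorem cov_lift_clique {lab : V → V → L} (hl : Flat G A lab) {s : Finset V} (hs : s ∈ sA G A)
    {a : V} (ha : a ∈ s) (x : Ω) :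
    ∃! t, t ∈ sA (cov G lab Ω) (up A Ω) ∧ (a, x) ∈ t ∧ t.image Prod.fst = s := by
  refine ⟨_, ⟨lift_mem_P3 hl hs ha x, self_mem_P3 hl hs ha x, fst_lift_P3 s _⟩, ?_⟩
  rintro t ⟨h1, h2, rfl⟩
  exact eq_lift_P3 hl h1 h2

theorem cov_clique_inj {lab : V → V → L} {t : Finset (V × Ω)}
    (ht : t ∈ sA (cov G lab Ω) (up A Ω)) : Set.InjOn Prod.fst (t : Set (V × Ω)) :=
  fun _ hp _ hq e => by_contra fun hne => (ht.2.2 hp hq hne).1.ne e

/-- The cover of the subdivision is the subdivision of the cover. -/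
theorem cov_sd_iso {lab : V → V → L} (hl : Flat G A lab) {π : Finset V → V}
    (hπ : ∀ s ∈ sA G A, π s ∈ s) :
    IsIso (cov (sG V) (pull π lab) Ω) (up (sA G A) Ω) (sG (V × Ω)) (sA (cov G lab Ω) (up A Ω))
      fun p => p.1.image fun v => (v, lab v (π p.1) • p.2) := by
  have key : ∀ p ∈ up (sA G A) Ω, ∀ q ∈ up (sA G A) Ω,
      (p.1.image (fun v => (v, lab v (π p.1) • p.2)) ⊆
        q.1.image (fun v => (v, lab v (π q.1) • q.2)) ↔
      p.1 ⊆ q.1 ∧ p.2 = lab (π p.1) (π q.1) • q.2) := by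
    intro p hp q hq
    refine ⟨fun h => ⟨?_, ?_⟩, fun h r hr => ?_⟩
    · have := Finset.image_subset_image (f := Prod.fst) h
      rwa [fst_lift_P3, fst_lift_P3] at this
    · obtain ⟨v, -, e⟩ := Finset.mem_image.1 (h (self_mem_P3 hl hp (hπ _ hp) p.2))
      obtain ⟨e1, e2⟩ := Prod.mk.inj e
      rw [← e2, e1]
    · obtain ⟨v, hv, rfl⟩ := Finset.mem_image.1 hr
      obtain ⟨-, h2, h3⟩ := mem_sA.1 hq
      have a1 := h.1 hv
      have a2 := h.1 (hπ _ hp)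
      have a3 := hπ _ hq
      refine Finset.mem_image.2 ⟨v, a1, ?_⟩
      rw [h.2, ← mul_smul, hl _ (h2 a1) _ (h2 a2) _ (h2 a3) (h3 _ a1 _ a2) (h3 _ a2 _ a3)
        (h3 _ a1 _ a3)]
  have sym : ∀ p ∈ up (sA G A) Ω, ∀ q ∈ up (sA G A) Ω, p.1 ⊆ q.1 →
      (p.2 = lab (π p.1) (π q.1) • q.2 ↔ q.2 = lab (π q.1) (π p.1) • p.2) := by
    intro p hp q hq h
    obtain ⟨-, h2, h3⟩ := mem_sA.1 hq
    have a2 := h (hπ _ hp)
    have a3 := hπ _ hq
    rw [hl.symm (h2 a2) (h2 a3) (h3 _ a2 _ a3), eq_inv_smul_iff, eq_comm]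
  refine ⟨⟨fun p hp => lift_mem_P3 hl hp (hπ _ hp) _, fun p hp q hq e => ?_, fun t ht => ?_⟩,
    fun p hp q hq => ?_⟩
  · obtain ⟨h1, h2⟩ := (key p hp q hq).1 e.subset
    have h3 : p.1 = q.1 := h1.antisymm ((key q hq p hp).1 e.superset).1
    rw [h3, hl.self (hq.2.1 (hπ _ hq)), one_smul] at h2
    exact Prod.ext h3 h2
  · have hs := IsHom.image_mem (up_hom_GrB1 lab) ht
    obtain ⟨q, hq, e⟩ := Finset.mem_image.1 (hπ _ hs)
    exact ⟨(t.image Prod.fst, q.2), hs, (eq_lift_P3 hl ht (by rw [← e]; exact hq)).symm⟩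
  · have h1 := key p hp q hq
    have h2 := key q hq p hp
    have h3 := sym p hp q hq
    have h4 := sym q hq p hp
    simp only [cov_adj_GrB1, sG, Pool.Agent.MP_6374aa_g.pull, Finset.ssubset_def, h1, h2]
    tauto

end Pool.Agent.MP_6374aa_g

end

section

/-!
Definitions for the loop theorem: morphisms of setups, involutions, stages of the tower.
-/

namespace Pool.Agent.MP_6374aa_g

open Pool.Agent.MP_6374aa_gt Classical

noncomputable section

variable {L : Type} [Group L]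

/-- An embedding of setups. -/
structure Emb (S' S : Setup L) (p : S'.V → S.V) : Prop where
  iso : IsIso S'.G S'.A S.G (p '' S'.A) p
  subA : p '' S'.A ⊆ S.A
  core : ∀ u ∈ S'.C, p u ∈ S.C
  bd : ∀ u ∈ S'.A, u ∈ S'.T ↔ p u ∈ S.T
  mapB : ∀ u ∈ S'.B, p u ∈ S.B
  gau : ∃ k, Gau S'.G S'.B S'.lab (pull p S.lab) k

/-- A free involution. -/
structure Invo (S : Setup L) (τ : S.V → S.V) : Prop where
  mem : ∀ u ∈ S.A, τ u ∈ S.A
  inv : ∀ u ∈ S.A, τ (τ u) = u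
  adj : ∀ u ∈ S.A, ∀ w ∈ S.A, S.G.Adj u w → S.G.Adj (τ u) (τ w)
  tw : ∀ u ∈ S.A, ∀ w ∈ S.A, Adq S.G u w → ¬ Adq S.G u (τ w)
  core : ∀ u ∈ S.C, τ u ∈ S.C
  bd : ∀ u ∈ S.A, u ∈ S.T → τ u ∈ S.T
  mapB : ∀ u ∈ S.B, τ u ∈ S.B

/-- A double cover of setups. -/
structure GCov (S' S : Setup L) (p : S'.V → S.V) (τ : S'.V → S'.V) : Prop where
  invo : Invo S' τ
  mem : ∀ u ∈ S'.A, p u ∈ S.A
  adj : ∀ u ∈ S'.A, ∀ w ∈ S'.A, S'.G.Adj u w → S.G.Adj (p u) (p w)
  pτ : ∀ u ∈ S'.A, p (τ u) = p u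
  fib : ∀ u ∈ S'.A, ∀ w ∈ S'.A, p u = p w → w = u ∨ w = τ u
  lift : ∀ u ∈ S'.A, ∀ w ∈ S'.A, S.G.Adj (p u) (p w) → S'.G.Adj u w ∨ S'.G.Adj u (τ w)
  core : ∀ u ∈ S'.C, p u ∈ S.C
  bd : ∀ u ∈ S'.A, u ∈ S'.T ↔ p u ∈ S.T
  mapB : ∀ u ∈ S'.B, p u ∈ S.B
  gau : ∃ k, Gau S'.G S'.B S'.lab (pull p S.lab) k

/-- The piece cut off by an outermost component of `Y` in the disc `E`. -/
structure Root {V : Type} (G : SimpleGraph V) (E T Y Y0 Q : Set V) : Prop where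
  comp : ∃ y ∈ Y, Y0 = cmp G Y y
  subset : Q ⊆ E
  inter : Q ∩ Y = Y0
  con : Con G Q
  ndc : NDC G Q
  preT : Pre G (Q ∩ T)
  preC : Pre G (E \ Q)
  sep : ∀ a ∈ E \ Q, ∀ b ∈ Q \ Y0, ¬ G.Adj a b
  empty : Y0 ∩ T = ∅ → Q ∩ T = ∅
  full : Q = E ∨ ((E \ Q) ∩ T).Nonempty

/-- The subcomplex whose neighbourhood is used for the surgery. -/
structure RSet {V : Type} (G : SimpleGraph V) (τ : V → V) (D T Y0 Q R Z : Set V) : Prop where
  subset : R ⊆ D ∪ τ '' D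
  con : Con G R
  ndc : NDC G R
  preT : Pre G (R ∩ T)
  interD : R ∩ D = Z
  interτ : R ∩ τ '' D = Q
  conZ : Con G Z
  zy : Z ∩ τ '' D = Y0
  empty : Z ∩ T = ∅ → R ∩ T = ∅
  alt : (τ '' R = R ∧ Z = τ '' Q) ∨ Far G R (τ '' R)

/-- A finite complex without double cover mapping to the core. -/
structure Sing (S : Setup L) where
  Δ : SimpleGraph ℕ
  D : Set ℕ
  Γ : Set ℕ
  f : ℕ → S.V
  fin : D.Finite
  con : Con Δ D
  ndc : NDC Δ D
  hom : IsHom Δ D S.G S.C f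
  sub : Γ ⊆ D
  conΓ : Con Δ Γ
  mapB : ∀ x ∈ Γ, f x ∈ S.B
  ess : ¬ Pot Δ Γ (pull f S.lab)

/-- A poset immersed in the simplices of the core, through which the singular disc factors. -/
structure Stage {S : Setup L} (X : Sing S) where
  P : Type
  le : P → P → Prop
  K : Set P
  g : P → Finset S.V
  F : Finset ℕ → P
  fin : K.Finite
  refl : ∀ b ∈ K, le b b
  trans : ∀ a ∈ K, ∀ b ∈ K, ∀ c ∈ K, le a b → le b c → le a c
  mem : ∀ b ∈ K, g b ∈ sA S.G S.C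
  mono : ∀ b ∈ K, ∀ c ∈ K, le b c → g b ⊆ g c
  dn : ∀ c ∈ K, ∀ t : Finset S.V, t.Nonempty → t ⊆ g c → ∃ b ∈ K, le b c ∧ g b = t
  dnu : ∀ c ∈ K, ∀ a ∈ K, ∀ b ∈ K, le a c → le b c → g a ⊆ g b → le a b
  up : ∀ b ∈ K, ∀ c ∈ K, ∀ c' ∈ K, le b c → le b c' → g c = g c' → c = c'
  Fmem : ∀ s ∈ sA X.Δ X.D, F s ∈ K ∧ g (F s) = s.image X.f
  Fmono : ∀ s ∈ sA X.Δ X.D, ∀ t ∈ sA X.Δ X.D, s ⊆ t → le (F s) (F t)

variable {S : Setup L} {X : Sing S}

def Stage.Tight (Y : Stage X) : Prop := ∀ b ∈ Y.K, ∃ s ∈ sA X.Δ X.D, Y.F s = b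

/-- The comparability graph of the poset. -/
def Stage.cG (Y : Stage X) : SimpleGraph Y.P where
  Adj a b := a ≠ b ∧ (Y.le a b ∨ Y.le b a)
  symm := ⟨fun _ _ h => ⟨h.1.symm, h.2.symm⟩⟩
  loopless := ⟨fun _ h => h.1 rfl⟩

def Stage.tG (Y : Stage X) : SimpleGraph (Finset (Finset S.V) × Y.P) where
  Adj x y := (x.1 ⊂ y.1 ∧ Y.le y.2 x.2) ∨ (y.1 ⊂ x.1 ∧ Y.le x.2 y.2)
  symm := ⟨fun _ _ h => h.symm⟩
  loopless := ⟨fun _ h => h.elim (fun h => lt_irrefl _ h.1) fun h => lt_irrefl _ h.1⟩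

def Stage.tA (Y : Stage X) : Set (Finset (Finset S.V) × Y.P) :=
  {x | x.1 ∈ S.sd.sd.A ∧ x.2 ∈ Y.K ∧ Y.g x.2 ∈ x.1 ∧ ∀ t ∈ x.1, Y.g x.2 ⊆ t}

/-- The thickening of a stage. -/
def Stage.thick (Y : Stage X) : Setup L :=
  haveI : Nonempty (Finset (Finset S.V) × Y.P) := ⟨(∅, Y.F ∅)⟩
  { V := Finset (Finset S.V) × Y.P
    G := Y.tG
    A := Y.tA
    T := {x | x.1 ∈ S.sd.sd.T}
    C := {x | x ∈ Y.tA ∧ ∃ c ∈ Y.K, Y.le x.2 c ∧ Y.g c = top x.1}
    B := {x | x ∈ Y.tA ∧ x.1 ∈ S.sd.sd.B}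
    lab := pull Prod.fst S.sd.sd.lab }

end

end Pool.Agent.MP_6374aa_g

end

section

/-!
Definitions for the surgery step and for systems of discs.
-/

namespace Pool.Agent.MP_6374aa_g

open Pool.Agent.MP_6374aa_gt Classical

noncomputable section

/-- The disc `E` in the frontier of `R` that replaces the part of `D` beyond `O`. -/
structure Surg {V : Type} (G : SimpleGraph V) (A T : Set V) (τ : V → V) (D R O : Set V)
    (E : Set (Finset V)) : Prop where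
  curve : Cell (sG V) 2 (fr G D O) fun σ => if σ = ∅ then (fr G D O ∩ ins T).Nonempty
    else ↑σ ⊆ ins T
  subset : E ⊆ fr G A R
  cell : Cell (sG V) 3 E fun σ => ↑σ ⊆ fr G D O ∨ ↑σ ⊆ ins T
  inter : nb G D O ∩ E = fr G D O
  disj : Disjoint E (sA G (τ '' D))
  disjτ : Disjoint E (Finset.image τ '' E)
  preT : Pre (sG V) (E ∩ ins T)

/-- A manifold with several labelled parts of the boundary. -/
structure MS (ι : Type) where
  V : Type
  [ne : Nonempty V]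
  G : SimpleGraph V
  W : Set V
  T : Set V
  B : ι → Set V
  lab : ι → V → V → Z2

attribute [instance] MS.ne

def MS.sd {ι : Type} (M : MS ι) : MS ι where
  V := Finset M.V
  G := sG M.V
  W := sA M.G M.W
  T := ins M.T
  B := fun i => nb M.G (M.W ∩ M.T) (M.B i)
  lab := fun i => pull (pk (M.B i)) (M.lab i)

structure MS.Valid {ι : Type} (M : MS ι) (I : Set ι) : Prop where
  fin : M.W.Finite
  mf : Mf M.G 3 M.W M.T
  subB : ∀ i ∈ I, M.B i ⊆ M.W ∩ M.T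
  flat : ∀ i ∈ I, Flat M.G (M.B i) (M.lab i)
  far : ∀ i ∈ I, ∀ j ∈ I, i ≠ j → Far M.G (M.B i) (M.B j)
  loop : ∀ i ∈ I, ∃ b l, Wk M.G (M.B i) b l b ∧ Null M.G M.W b l ∧ ev (M.lab i) b l ≠ 1

structure MS.Discs {ι : Type} (M : MS ι) (I : Set ι) (D : ι → Set M.V) : Prop where
  subset : ∀ i ∈ I, D i ⊆ M.W
  ball : ∀ i ∈ I, Ball M.G 3 (D i) M.T
  subB : ∀ i ∈ I, D i ∩ M.T ⊆ M.B i
  ess : ∀ i ∈ I, ¬ Pot M.G (D i ∩ M.T) (M.lab i)
  disj : ∀ i ∈ I, ∀ j ∈ I, i ≠ j → Disjoint (D i) (D j)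

/-- A coloured boundary with strips along the curves. -/
structure ES (κ : Type) where
  C : Col κ
  B : Finset κ → Set C.V
  lab : Finset κ → C.V → C.V → Z2

def ES.sd {κ : Type} [LinearOrder κ] (S : ES κ) : ES κ where
  C := S.C.sd
  B := fun e => nb S.C.G (S.C.W ∩ S.C.T) (S.B e)
  lab := fun e => pull (pk (S.B e)) (S.lab e)

def ES.ms {κ : Type} (S : ES κ) : MS (Finset κ) where
  V := S.C.V
  G := S.C.G
  W := S.C.W
  T := S.C.T
  B := S.B
  lab := S.lab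

structure ES.Strip {κ : Type} [LinearOrder κ] (S : ES κ) (E : Set (Finset κ)) : Prop where
  valid : S.ms.Valid E
  clopen : Clopen S.C.G (S.C.W ∩ S.C.T) S.C.F
  card : ∀ s ∈ sA S.C.G S.C.F, (s.image S.C.col).card ≤ 2
  two : ∀ e ∈ E, e.card = 2
  subF : ∀ e ∈ E, S.B e ⊆ S.C.F
  con : ∀ e ∈ E, Con S.C.G (S.B e)
  rk : ∀ e ∈ E, Rk S.C.G (S.B e) 1
  col : ∀ e ∈ E, ∀ x ∈ S.B e, S.C.col x ∈ e ∧ ∀ c ∈ e, c ≤ S.C.col x
  nbr : ∀ e ∈ E, ∀ x ∈ S.B e, ∀ y ∈ S.C.F, S.C.G.Adj x y → S.C.col y ∈ e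
  edge : ∀ e ∈ E, ∀ x ∈ S.C.F, ∀ y ∈ S.C.F, S.C.G.Adj x y → S.C.col x ∈ e → S.C.col y ∈ e →
    S.C.col y < S.C.col x → x ∈ S.B e
  curve : ∀ e ∈ E, Con (sG S.C.V) (S.C.curve e)

end

end Pool.Agent.MP_6374aa_g

end

section

/-! The boundary of a 3-manifold without double cover. -/

namespace Pool.Agent.MP_6374aa_g

open Pool.Agent.MP_6374aa_gt Classical

variable {V V' V'' : Type} {G : SimpleGraph V} {G' : SimpleGraph V'} {G'' : SimpleGraph V''}
  {A : Set V} {A' : Set V'} {A'' : Set V''} {L : Type} [Group L]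

theorem dual_H7 {α γ : Type} (I : Finset α) (J : Finset γ) (M : α → γ → Prop)
    [∀ a c, Decidable (M a c)] (z : γ → ZMod 2)
    (h : ∀ φ : γ → ZMod 2, (∀ a ∈ I, ∑ c ∈ J, (if M a c then φ c else 0) = 0) →
      ∑ c ∈ J, z c * φ c = 0) :
    ∃ η : α → ZMod 2, ∀ c ∈ J, ∑ a ∈ I, (if M a c then η a else 0) = z c := by
  let v : I → J → ZMod 2 := fun a c => if M a c then 1 else 0
  by_cases hz : (fun c : J => z c) ∈ Submodule.span (ZMod 2) (Set.range v)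
  · obtain ⟨η, hη⟩ := (Submodule.mem_span_range_iff_exists_fun _).1 hz
    refine ⟨fun a => if h : a ∈ I then η ⟨a, h⟩ else 0, fun c hc => ?_⟩
    rw [← Finset.sum_coe_sort, ← congrFun hη ⟨c, hc⟩, Finset.sum_apply]
    exact Finset.sum_congr rfl fun a _ => by simp [v]
  · obtain ⟨f, h1, h2⟩ := Submodule.exists_le_ker_of_notMem hz
    let φ : γ → ZMod 2 := fun c => if h : c ∈ J then f fun j => if ⟨c, h⟩ = j then 1 else 0 else 0
    have h3 : ∀ x : γ → ZMod 2, f (fun c : J => x c) = ∑ c ∈ J, x c * φ c := fun x => by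
      rw [LinearMap.pi_apply_eq_sum_univ, ← Finset.sum_coe_sort J]
      exact Finset.sum_congr rfl fun c _ => by simp [φ]
    refine (h1 ((h3 z).trans (h φ fun a ha => ?_))).elim
    have h4 : f (v ⟨a, ha⟩) = 0 := h2 (Submodule.subset_span ⟨_, rfl⟩)
    refine Eq.trans ?_ ((h3 fun c => if M a c then 1 else 0).symm.trans h4)
    exact Finset.sum_congr rfl fun c _ => by simp

/-- The cliques with `k` vertices. -/
noncomputable def sk_H7 (G : SimpleGraph V) (hf : A.Finite) (k : ℕ) : Finset (Finset V) :=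
  hf.toFinset.powerset.filter fun s => Clq G A s ∧ s.card = k

theorem mem_sk_H7 {hf : A.Finite} {k : ℕ} {s : Finset V} :
    s ∈ sk_H7 G hf k ↔ Clq G A s ∧ s.card = k := by
  simp only [sk_H7, Finset.mem_filter, Finset.mem_powerset, and_iff_right_iff_imp]
  exact fun h x hx => hf.mem_toFinset.2 (h.1.1 hx)

theorem notMem_H7 {f : Finset V} {u : V} (h : u ∈ Lk G A f) : u ∉ f :=
  fun k => G.irrefl (h.2 u k)

theorem ins_H7 {f : Finset V} {u : V} (hf : Clq G A f) (h : u ∈ Lk G A f) :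
    Clq G A (insert u f) := by
  refine ⟨by rw [Finset.coe_insert]; exact Set.insert_subset h.1 hf.1, ?_⟩
  rw [Finset.coe_insert]
  exact hf.2.insert fun b hb _ => (h.2 b hb).symm

theorem lk_H7 {f t : Finset V} {u : V} (ht : Clq G A t) (h : f ⊆ t) (hu : u ∈ t) (hn : u ∉ f) :
    u ∈ Lk G A f :=
  ⟨ht.1 hu, fun _ hv => ht.2 (h hv) hu fun e => hn (e ▸ hv)⟩

theorem co_H7 (hf : A.Finite) {k : ℕ} {f : Finset V} (h : Clq G A f) (hk : f.card = k)
    (η : Finset V → ZMod 2) : ∑ τ ∈ sk_H7 G hf (k + 1), (if f ⊆ τ then η τ else 0) =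
      ∑ᶠ u ∈ Lk G A f, η (insert u f) := by
  rw [finsum_mem_eq_finite_toFinset_sum _ (hf.subset (lk_subset _)), ← Finset.sum_filter]
  symm
  refine Finset.sum_bij (fun u _ => insert u f) (fun u hu => ?_) (fun u hu w hw e => ?_)
    (fun τ hτ => ?_) fun _ _ => rfl
  · rw [Set.Finite.mem_toFinset] at hu
    exact Finset.mem_filter.2 ⟨mem_sk_H7.2 ⟨ins_H7 h hu, by
      rw [Finset.card_insert_of_notMem (notMem_H7 hu), hk]⟩, Finset.subset_insert _ _⟩
  · rw [Set.Finite.mem_toFinset] at hu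
    exact (Finset.insert_inj (notMem_H7 hu)).1 e
  · obtain ⟨h1, h2⟩ := Finset.mem_filter.1 hτ
    obtain ⟨h3, h4⟩ := mem_sk_H7.1 h1
    obtain ⟨u, h5, rfl⟩ := Finset.exists_eq_insert_iff.2 ⟨h2, by rw [hk, h4]⟩
    exact ⟨u, (Set.Finite.mem_toFinset _).2 (lk_H7 h3 h2 (Finset.mem_insert_self _ _) h5), rfl⟩

theorem fa_H7 (hf : A.Finite) {k : ℕ} {t : Finset V} (h : Clq G A t) (hk : t.card = k + 1)
    (η : Finset V → ZMod 2) :
    ∑ e ∈ sk_H7 G hf k, (if e ⊆ t then η e else 0) = ∑ v ∈ t, η (t.erase v) := by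
  rw [← Finset.sum_filter]
  symm
  refine Finset.sum_bij (fun v _ => t.erase v) (fun u hu => ?_) (fun u hu w hw e => ?_)
    (fun τ hτ => ?_) fun _ _ => rfl
  · exact Finset.mem_filter.2 ⟨mem_sk_H7.2 ⟨h.subset (Finset.erase_subset _ _), by
      rw [Finset.card_erase_of_mem hu, hk]; rfl⟩, Finset.erase_subset _ _⟩
  · exact (Finset.erase_inj _ hu).1 e
  · obtain ⟨h1, h2⟩ := Finset.mem_filter.1 hτ
    obtain ⟨u, h5, rfl⟩ := Finset.exists_eq_insert_iff.2 ⟨h2, by rw [hk, (mem_sk_H7.1 h1).2]⟩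
    exact ⟨u, Finset.mem_insert_self _ _, Finset.erase_insert h5⟩

theorem one_H7 {β : Finset V → Prop} (h : Cell G 1 A β) :
    (β ∅ ∧ A.ncard = 1) ∨ (¬ β ∅ ∧ A.ncard = 2) := by
  have := h.codim_one (s := ∅) ⟨by simp, by simp⟩ rfl
  rwa [Finset.coe_empty, lk_empty] at this

theorem pair_H7 {X : Set V} (h : X.ncard = 1 ∨ X.ncard = 2) {u w : V} (hu : u ∈ X) (hw : w ∈ X)
    (e : u ≠ w) (F : V → ZMod 2) : ∑ᶠ v ∈ X, F v = F u + F w := by
  have hf : X.Finite := Set.finite_of_ncard_pos (by omega)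
  rw [← Set.eq_of_subset_of_ncard_le (Set.pair_subset hu hw) (by rw [Set.ncard_pair e]; omega) hf,
    finsum_mem_pair e]

/-- The statement for cells. -/
def Q_H7 (G : SimpleGraph V) (d : ℕ) (A : Set V) (β : Finset V → Prop) : Prop :=
  ∀ φ : Finset V → ZMod 2,
    (∀ e, Clq G A e → e.card + 1 = d → ¬ β e → ∑ᶠ v ∈ Lk G A e, φ (insert v e) = 0) →
    ∃ ψ : Finset V → ZMod 2, ∀ f, Clq G A f → f.card = d → ∀ u ∈ Lk G A f, ∀ w ∈ Lk G A f,
      u ≠ w → φ f = ψ (insert u f) + ψ (insert w f)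

theorem join_H7 (hf : A.Finite) (hp : Pre G A) (φ : Finset V → ZMod 2)
    (h : ∑ f ∈ sk_H7 G hf 1, φ f = 0) : ∃ ψ : Finset V → ZMod 2, ∀ f, Clq G A f → f.card = 1 →
      ∑ᶠ u ∈ Lk G A f, ψ (insert u f) = φ f := by
  obtain ⟨η, hη⟩ := dual_H7 (sk_H7 G hf 2) (sk_H7 G hf 1) (fun e f => f ⊆ e) φ fun c hc => by
    have h1 : ∀ a ∈ A, ∀ b ∈ A, G.Adj a b → c {a} = c {b} := fun a ha b hb e => by
      have h2 := (pair_mem_sA ha hb (Or.inr e)).2
      have h3 := hc _ (mem_sk_H7.2 ⟨h2, Finset.card_pair e.ne⟩)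
      rw [fa_H7 hf h2 (Finset.card_pair e.ne), Finset.sum_pair e.ne,
        Finset.erase_insert (by simpa using e.ne), Finset.pair_comm,
        Finset.erase_insert (by simpa using e.ne')] at h3
      exact (CharTwo.add_eq_zero.1 h3).symm
    rcases A.eq_empty_or_nonempty with e | ⟨a, ha⟩
    · refine Finset.sum_eq_zero fun f k => ?_
      obtain ⟨k1, k2⟩ := mem_sk_H7.1 k
      obtain ⟨v, rfl⟩ := Finset.card_eq_one.1 k2
      exact (e ▸ k1.1 (Finset.mem_singleton_self v) : v ∈ (∅ : Set V)).elim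
    · rw [← zero_mul (c {a}), ← h, Finset.sum_mul]
      refine Finset.sum_congr rfl fun f k => ?_
      obtain ⟨k1, k2⟩ := mem_sk_H7.1 k
      obtain ⟨v, rfl⟩ := Finset.card_eq_one.1 k2
      rw [hp.const h1 (k1.1 (Finset.mem_singleton_self v)) ha]
  exact ⟨η, fun f h1 h2 => (co_H7 hf h1 h2 η).symm.trans (hη f (mem_sk_H7.2 ⟨h1, h2⟩))⟩

theorem circ_H7 {β : Finset V → Prop} (h : Cell G 2 A β) : Q_H7 G 1 A β := by
  intro φ hφ
  have hf := h.finite
  have key : ∃ φ' : Finset V → ZMod 2, ∑ f ∈ sk_H7 G hf 1, φ' f = 0 ∧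
      ∀ f, ¬ β f → φ' f = φ f := by
    by_cases hb : β ∅
    · obtain ⟨v, hv, h1⟩ : ∃ v ∈ A, β {v} := by simpa using h.2.2.1.1 hb
      have h2 : {v} ∈ sk_H7 G hf 1 := mem_sk_H7.2 ⟨(singleton_mem_sA.2 hv).2, rfl⟩
      refine ⟨fun f => φ f + if f = {v} then ∑ f ∈ sk_H7 G hf 1, φ f else 0, ?_, fun f k => ?_⟩
      · rw [Finset.sum_add_distrib, Finset.sum_ite_eq', if_pos h2, CharTwo.add_self_eq_zero]
      · beta_reduce
        rw [if_neg fun e : f = {v} => k (by rw [e]; exact h1), add_zero]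
    · have h0 : Clq G A ∅ := ⟨by simp, by simp⟩
      refine ⟨φ, ?_, fun _ _ => rfl⟩
      rw [← hφ ∅ h0 rfl hb, ← co_H7 hf h0 rfl]
      simp
  obtain ⟨φ', h1, h2⟩ := key
  obtain ⟨ψ, hψ⟩ := join_H7 hf h.con.2 φ' h1
  refine ⟨ψ, fun f a1 a2 u hu w hw e => ?_⟩
  rcases h.codim_one a1 (by rw [a2]) with k | k
  · obtain ⟨x, hx⟩ := Set.ncard_eq_one.1 k.2
    rw [hx] at hu hw
    exact (e (hu.trans hw.symm)).elim
  · rw [← h2 f k.1, ← hψ f a1 a2, pair_H7 (Or.inr k.2) hu hw e]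

theorem strong_H7 {d : ℕ} {β : Finset V → Prop} (h : Mfa G d A β A) {σ : Finset V}
    (hσ : Clq G A σ) (hn : σ.Nonempty) (F : Finset V → ZMod 2)
    (hF : ∀ f, Clq G A f → σ ⊆ f → f.card = d → ∀ u ∈ Lk G A f, ∀ w ∈ Lk G A f, u ≠ w →
      F (insert u f) = F (insert w f)) {t t' : Finset V} (ht : Clq G A t) (ht' : Clq G A t')
    (h1 : σ ⊆ t) (h1' : σ ⊆ t') (h2 : t.card = d + 1) (h2' : t'.card = d + 1) : F t = F t' := by
  obtain ⟨a1, a2⟩ := h.link hσ (hn.imp fun x hx => ⟨hx, hσ.1 hx⟩)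
  have key : ∀ {t : Finset V}, Clq G A t → σ ⊆ t → t.card = d + 1 →
      Clq G (Lk G A σ) (t \ σ) ∧ (t \ σ).card = d + 1 - σ.card := fun k1 k2 k3 =>
    ⟨(clq_lk hσ).2 ⟨by rwa [Finset.union_sdiff_of_subset k2], Finset.disjoint_sdiff⟩,
      by rw [Finset.card_sdiff_of_subset k2, k3]⟩
  have := a2.strong (fun s => F (σ ∪ s)) (fun s s' b1 b2 b3 b4 b5 => ?_) (key ht h1 h2).1
    (key ht' h1' h2').1 (key ht h1 h2).2 (key ht' h1' h2').2
  · rwa [Finset.union_sdiff_of_subset h1, Finset.union_sdiff_of_subset h1'] at this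
  obtain ⟨c1, c2⟩ := (clq_lk hσ).1 b1
  obtain ⟨c3, c4⟩ := (clq_lk hσ).1 b2
  obtain ⟨u, d1, d2⟩ := Finset.exists_eq_insert_iff.2 ⟨Finset.inter_subset_left, b5.trans b3.symm⟩
  obtain ⟨w, d3, d4⟩ := Finset.exists_eq_insert_iff.2 ⟨Finset.inter_subset_right, b5.trans b4.symm⟩
  have e1 : u ∈ s := d2 ▸ Finset.mem_insert_self _ _
  have e2 : w ∈ s' := d4 ▸ Finset.mem_insert_self _ _
  have e3 : σ ∪ s ∩ s' ⊆ σ ∪ s := Finset.union_subset_union_right Finset.inter_subset_left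
  have e4 : σ ∪ s ∩ s' ⊆ σ ∪ s' := Finset.union_subset_union_right Finset.inter_subset_right
  have := hF (σ ∪ s ∩ s') (c1.subset e3) Finset.subset_union_left (by
      rw [Finset.card_union_of_disjoint (c2.mono_right Finset.inter_subset_left)]; omega)
    u (lk_H7 c1 e3 (Finset.mem_union_right _ e1) fun k => (Finset.mem_union.1 k).elim
      (fun k => Finset.disjoint_left.1 c2 k e1) d1)
    w (lk_H7 c3 e4 (Finset.mem_union_right _ e2) fun k => (Finset.mem_union.1 k).elim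
      (fun k => Finset.disjoint_left.1 c4 k e2) d3)
    fun k => d1 (Finset.mem_inter.2 ⟨e1, k ▸ e2⟩)
  rwa [← Finset.union_insert, ← Finset.union_insert, d2, d4] at this

theorem step_H7 {d : ℕ} {β : Finset V → Prop} (h : Mfa G (d + 1) A β A) (hn : NDC G A)
    (ih : ∀ X β', Cell G (d + 1) X β' → Q_H7 G d X β') : Q_H7 G (d + 1) A β := by
  intro φ hφ
  have loc : ∀ v ∈ A, ∃ Ψ : Finset V → ZMod 2, ∀ f, Clq G A f → v ∈ f → f.card = d + 1 →
      ∀ u ∈ Lk G A f, ∀ w ∈ Lk G A f, u ≠ w → φ f = Ψ (insert u f) + Ψ (insert w f) := by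
    intro v hv
    have h1 : Clq G A {v} := (singleton_mem_sA.2 hv).2
    have h2 : ∀ e : Finset V, Lk G (Lk G A {v}) e = Lk G A (insert v e : Finset V) := fun e => by
      rw [lk_lk, Finset.coe_insert, Set.singleton_union]
    have h3 : ∀ e : Finset V, Clq G (Lk G A {v}) e ↔ Clq G A (insert v e) ∧ v ∉ e := fun e => by
      rw [← Finset.coe_singleton, clq_lk h1, Finset.disjoint_singleton_left, Finset.insert_eq]
    obtain ⟨ψ, hψ⟩ := ih _ _ (h v hv) (fun s => φ (insert v s)) fun e a1 a2 a3 => by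
      obtain ⟨b1, b2⟩ := (h3 e).1 a1
      simp only [h2, Finset.insert_comm v]
      exact hφ _ b1 (by rw [Finset.card_insert_of_notMem b2, a2]) a3
    refine ⟨fun t => ψ (t.erase v), fun f a1 a2 a3 u hu w hw e => ?_⟩
    have b1 := Finset.insert_erase a2
    have := hψ (f.erase v) ((h3 _).2 ⟨by rwa [b1], Finset.notMem_erase _ _⟩)
      (by rw [Finset.card_erase_of_mem a2, a3]; rfl) u (by rwa [h2, b1]) w (by rwa [h2, b1]) e
    rwa [b1, ← Finset.erase_insert_of_ne fun k : u = v => notMem_H7 hu (by rw [k]; exact a2),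
      ← Finset.erase_insert_of_ne fun k : w = v => notMem_H7 hw (by rw [k]; exact a2)] at this
  choose! Ψ hΨ using loc
  have edge : ∀ v ∈ A, ∀ w ∈ A, Adq G v w → ∃ c : ZMod 2, ∀ t, Clq G A t → t.card = d + 1 + 1 →
      v ∈ t → w ∈ t → c = Ψ v t + Ψ w t := by
    intro v hv w hw e
    have h1 := pair_mem_sA hv hw e
    obtain ⟨t₀, a1, a2, a3, -⟩ := h.pure h1.2 ⟨v, by simp, hv⟩
    refine ⟨_, fun t b1 b2 b3 b4 => strong_H7 h h1.2 h1.1 (fun t => Ψ v t + Ψ w t)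
      (fun f c1 c2 c3 x hx y hy k => ?_) a1 b1 a2
      (Finset.insert_subset b3 (Finset.singleton_subset_iff.2 b4)) a3 b2⟩
    have d1 := hΨ v hv f c1 (c2 (by simp)) c3 x hx y hy k
    have d2 := hΨ w hw f c1 (c2 (by simp)) c3 x hx y hy k
    refine CharTwo.add_eq_zero.1 ?_
    rw [add_add_add_comm, ← d1, ← d2, CharTwo.add_self_eq_zero]
  choose! θ hθ using edge
  obtain ⟨p, hp⟩ := hn (fun v w => Multiplicative.ofAdd (θ v w)) fun u hu v hv w hw e1 e2 e3 => by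
    have h1 : Clq G A {u, v, w} := clq_iff.2 ⟨by simp [Set.insert_subset_iff, hu, hv, hw], by
      simp [adq_refl, e1, e2, e3, adq_symm e1, adq_symm e2, adq_symm e3]⟩
    obtain ⟨t, a1, a2, a3, -⟩ := h.pure h1 ⟨u, by simp, hu⟩
    have b1 : u ∈ t := a2 (by simp)
    have b2 : v ∈ t := a2 (by simp)
    have b3 : w ∈ t := a2 (by simp)
    beta_reduce
    rw [← ofAdd_add, hθ u hu v hv e1 t a1 a3 b1 b2, hθ v hv w hw e2 t a1 a3 b2 b3,
      hθ u hu w hw e3 t a1 a3 b1 b3, add_assoc, CharTwo.add_cancel_left]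
  have top : ∀ t, Clq G A t → t.card = d + 1 + 1 → ∃ c : ZMod 2, ∀ v ∈ t,
      c = Ψ v t + (p v).toAdd := by
    intro t a1 a2
    obtain ⟨x, hx⟩ := Finset.card_pos.1 (show 0 < t.card by omega)
    refine ⟨_, fun v hv => CharTwo.add_eq_zero.1 (?_ : Ψ x t + (p x).toAdd + _ = 0)⟩
    have b1 := (clq_iff.1 a1).2 x hx v hv
    have b2 := congrArg Multiplicative.toAdd (hp x (a1.1 hx) v (a1.1 hv) b1)
    rw [toAdd_ofAdd, z2_inv, toAdd_mul] at b2
    rw [add_add_add_comm, ← hθ x (a1.1 hx) v (a1.1 hv) b1 t a1 a2 hx hv, b2,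
      CharTwo.add_self_eq_zero]
  choose! ψ hψ using top
  refine ⟨ψ, fun f a1 a2 u hu w hw e => ?_⟩
  obtain ⟨x, hx⟩ := Finset.card_pos.1 (show 0 < f.card by omega)
  rw [hψ _ (ins_H7 a1 hu) (by rw [Finset.card_insert_of_notMem (notMem_H7 hu), a2]) x
      (Finset.mem_insert_of_mem hx),
    hψ _ (ins_H7 a1 hw) (by rw [Finset.card_insert_of_notMem (notMem_H7 hw), a2]) x
      (Finset.mem_insert_of_mem hx), add_add_add_comm, CharTwo.add_self_eq_zero, add_zero]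
  exact hΨ x (a1.1 hx) f a1 hx a2 u hu w hw e

theorem q_H7 {d : ℕ} {β : Finset V → Prop} (h : Mfa G d A β A) (hd : d = 2 ∨ d = 3)
    (hn : NDC G A) : Q_H7 G d A β := by
  rcases hd with rfl | rfl
  · exact step_H7 h hn fun _ _ k => circ_H7 k
  · exact step_H7 h hn fun _ _ k => step_H7 k.mfa k.ndc fun _ _ k => circ_H7 k

/-- A function on the interior codimension one simplices with zero sum around every interior
codimension two simplex has a potential on the top simplices. -/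
theorem dual_pot {d : ℕ} {β : Finset V → Prop} (h : Mfa G d A β A) (hd : d = 2 ∨ d = 3)
    (hn : NDC G A) (φ : Finset V → ZMod 2)
    (hφ : ∀ e ∈ sA G A, e.card + 1 = d → ¬ β e → ∑ᶠ v ∈ Lk G A e, φ (insert v e) = 0) :
    ∃ ψ : Finset V → ZMod 2, ∀ f ∈ sA G A, f.card = d → ∀ u ∈ Lk G A f, ∀ w ∈ Lk G A f, u ≠ w →
      φ f = ψ (insert u f) + ψ (insert w f) := by
  obtain ⟨ψ, hψ⟩ := q_H7 h hd hn φ fun e a1 a2 =>
    hφ e ⟨Finset.card_pos.1 (by omega), a1⟩ a2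
  exact ⟨ψ, fun f k => hψ f k.2⟩

theorem dd_H7 (g : V → V → ZMod 2) (hg : ∀ v w, g v w = g w v) (s : Finset V) :
    ∑ v ∈ s, ∑ w ∈ s.erase v, g v w = 0 := by
  induction s using Finset.induction_on with
  | empty => simp
  | insert a s ha ih =>
    have h1 : ∀ v ∈ s, ∑ w ∈ (insert a s).erase v, g v w = g a v + ∑ w ∈ s.erase v, g v w := by
      intro v hv
      rw [Finset.erase_insert_of_ne fun k : a = v => ha (by rw [k]; exact hv),
        Finset.sum_insert fun k => ha (Finset.mem_of_mem_erase k), hg v a]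
    rw [Finset.sum_insert ha, Finset.erase_insert ha, Finset.sum_congr rfl h1,
      Finset.sum_add_distrib, ih, add_zero, CharTwo.add_self_eq_zero]

theorem tri_H7 (c : Finset V → ZMod 2) {u v w : V} (h1 : u ≠ v) (h2 : v ≠ w) (h3 : u ≠ w) :
    ∑ x ∈ ({u, v, w} : Finset V), c (({u, v, w} : Finset V).erase x) =
      c {v, w} + (c {u, w} + c {u, v}) := by
  have e1 : u ∉ ({v, w} : Finset V) := by simp [h1, h3]
  rw [Finset.sum_insert e1, Finset.sum_pair h2, Finset.erase_insert e1,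
    Finset.erase_insert_of_ne h1, Finset.erase_insert (by simpa using h2),
    Finset.erase_insert_of_ne h3, Finset.pair_comm v w, Finset.erase_insert (by simpa using h2.symm)]

theorem bd_ndc {T : Set V} (h : Mf G 3 A T) (hf : A.Finite) (hn : NDC G A) : NDC G (A ∩ T) := by
  intro θ hθ
  have t1 : ∀ u ∈ A ∩ T, θ u u = 1 := fun u hu =>
    mul_eq_left.1 (hθ u hu u hu u hu (adq_refl u) (adq_refl u) (adq_refl u))
  have t2 : ∀ u ∈ A ∩ T, ∀ w ∈ A ∩ T, Adq G u w → θ w u = θ u w := fun u hu w hw e => by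
    have := hθ u hu w hw u hu e (adq_symm e) (adq_refl u)
    rw [t1 u hu] at this
    rw [eq_inv_of_mul_eq_one_right this, z2_inv]
  obtain ⟨c, hc⟩ : ∃ c : Finset V → ZMod 2, ∀ u ∈ A ∩ T, ∀ w ∈ A ∩ T, Adq G u w →
      c {u, w} = (θ u w).toAdd := by
    refine ⟨fun e => if k : ∃ p : V × V, ({p.1, p.2} : Set V) = e then
      (θ k.choose.1 k.choose.2).toAdd else 0, fun u hu w hw e => ?_⟩
    have k : ∃ p : V × V, ({p.1, p.2} : Set V) = ({u, w} : Finset V) := ⟨(u, w), by simp⟩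
    have k1 := k.choose_spec
    beta_reduce
    rw [dif_pos k]
    rcases Set.pair_eq_pair_iff.1 (k1.trans Finset.coe_pair) with ⟨k1, k2⟩ | ⟨k1, k2⟩
    · rw [k1, k2]
    · rw [k1, k2, t2 u hu w hw e]
  let z : Finset V → ZMod 2 := fun t => ∑ v ∈ t, c (t.erase v)
  have hz : ∀ t, Clq G A t → t.card = 3 → ↑t ⊆ T → z t = 0 := fun t a1 a2 a3 => by
    obtain ⟨u, v, w, h1, h3, h2, rfl⟩ := Finset.card_eq_three.1 a2
    have b : ∀ x ∈ ({u, v, w} : Finset V), x ∈ A ∩ T := fun x k => ⟨a1.1 k, a3 k⟩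
    have b1 := b u (by simp)
    have b2 := b v (by simp)
    have b3 := b w (by simp)
    have e1 := (clq_iff.1 a1).2 u (by simp) v (by simp)
    have e2 := (clq_iff.1 a1).2 v (by simp) w (by simp)
    have e3 := (clq_iff.1 a1).2 u (by simp) w (by simp)
    refine (tri_H7 c h1 h2 h3).trans ?_
    rw [hc _ b2 _ b3 e2, hc _ b1 _ b3 e3, hc _ b1 _ b2 e1, ← hθ u b1 v b2 w b3 e1 e2 e3, toAdd_mul,
      add_right_comm, CharTwo.add_self_eq_zero, zero_add, CharTwo.add_self_eq_zero]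
  obtain ⟨η, hη⟩ := dual_H7 ((sk_H7 G hf 2).filter fun e => ¬ ↑e ⊆ T) (sk_H7 G hf 3)
    (fun e t => e ⊆ t) z fun φ hφ => by
      obtain ⟨ψ, hψ⟩ := q_H7 h (Or.inr rfl) hn φ fun e a1 a2 a3 => by
        rw [← co_H7 hf a1 (k := 2) (by omega)]
        exact hφ e (Finset.mem_filter.2 ⟨mem_sk_H7.2 ⟨a1, by omega⟩, a3⟩)
      have h1 : ∀ t ∈ sk_H7 G hf 3,
          z t * φ t = ∑ τ ∈ sk_H7 G hf 4, (if t ⊆ τ then z t else 0) * ψ τ := fun t k => by
        obtain ⟨a1, a2⟩ := mem_sk_H7.1 k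
        by_cases a3 : ↑t ⊆ T
        · simp [hz t a1 a2 a3]
        · obtain ⟨x, hx⟩ := Finset.card_pos.1 (show 0 < t.card by omega)
          have a4 := (Mfa.link h a1 ⟨x, hx, a1.1 hx⟩).2
          rw [a2] at a4
          have a5 := ((one_H7 a4).resolve_left fun k => a3 (by simpa [sub] using k.1)).2
          obtain ⟨u, w, e, a6⟩ := Set.ncard_eq_two.1 a5
          have hu : u ∈ Lk G A t := by simp [a6]
          have hw : w ∈ Lk G A t := by simp [a6]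
          rw [hψ t a1 a2 u hu w hw e, ← pair_H7 (Or.inr a5) hu hw e fun v => ψ (insert v t),
            ← co_H7 hf a1 a2, Finset.mul_sum]
          exact Finset.sum_congr rfl fun τ _ => by simp
      rw [Finset.sum_congr rfl h1, Finset.sum_comm]
      refine Finset.sum_eq_zero fun τ k => ?_
      obtain ⟨a1, a2⟩ := mem_sk_H7.1 k
      rw [← Finset.sum_mul, fa_H7 hf a1 a2,
        dd_H7 (fun v w => c ((τ.erase v).erase w)) fun v w => by rw [Finset.erase_right_comm],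
        zero_mul]
  let c' : Finset V → ZMod 2 := fun e => c e + if ↑e ⊆ T then 0 else η e
  have h1 : ∀ t, Clq G A t → t.card = 3 → ∑ v ∈ t, c' (t.erase v) = 0 := fun t a1 a2 => by
    have h2 := hη t (mem_sk_H7.2 ⟨a1, a2⟩)
    rw [Finset.sum_filter] at h2
    rw [Finset.sum_add_distrib, ← fa_H7 hf a1 a2 fun e => if ↑e ⊆ T then 0 else η e]
    refine CharTwo.add_eq_zero.2 (h2.symm.trans (Finset.sum_congr rfl fun e _ => ?_))
    split_ifs <;> rfl
  refine ((hn (fun u w => if u = w then 1 else Multiplicative.ofAdd (c' {u, w}))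
    fun u hu v hv w hw e1 e2 e3 => ?_).mono Set.inter_subset_left).congr fun u hu w hw e => ?_
  · rcases eq_or_ne u v with rfl | k1
    · simp
    rcases eq_or_ne v w with rfl | k2
    · simp
    rcases eq_or_ne u w with rfl | k3
    · simp only [if_neg k1, if_neg k2, if_true, Finset.pair_comm v u, z2_mul_self]
    have a1 : Clq G A {u, v, w} := clq_iff.2 ⟨by simp [Set.insert_subset_iff, hu, hv, hw], by
      simp [adq_refl, e1, e2, e3, adq_symm e1, adq_symm e2, adq_symm e3]⟩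
    have a2 := h1 _ a1 (Finset.card_eq_three.2 ⟨u, v, w, k1, k3, k2, rfl⟩)
    rw [tri_H7 c' k1 k2 k3, add_left_comm, add_comm (c' {v, w})] at a2
    simp only [if_neg k1, if_neg k2, if_neg k3]
    rw [← ofAdd_add, CharTwo.add_eq_zero.1 a2]
  · split_ifs with k
    · rw [← k, t1 u hu]
    · have a1 : ↑({u, w} : Finset V) ⊆ T := by simp [Set.insert_subset_iff, hu.2, hw.2]
      simp only [c', if_pos a1, add_zero, hc u hu w hw e, ofAdd_toAdd]

end Pool.Agent.MP_6374aa_g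

end

section

/-! Local potentials on surfaces. -/

namespace Pool.Agent.MP_6374aa_g

open Pool.Agent.MP_6374aa_gt Classical

variable {V V' V'' : Type} {G : SimpleGraph V} {G' : SimpleGraph V'} {G'' : SimpleGraph V''}
  {A : Set V} {A' : Set V'} {A'' : Set V''} {L : Type} [Group L]

/-- The neighbours of `a` in `A`, as a finite set. -/
noncomputable def nb_H8 (G : SimpleGraph V) (A : Set V) (a : V) : Finset V :=
  if h : (Lk G A {a}).Finite then h.toFinset else ∅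

/-- The symmetric indicator of an edge. -/
noncomputable def e_H8 (u w : V) : V → V → ZMod 2 := fun x y =>
  (if x = u ∧ y = w then 1 else 0) + (if x = w ∧ y = u then 1 else 0)

/-- The additive cochain of a label. -/
noncomputable def zc_H8 (G : SimpleGraph V) (A : Set V) (δ : V → V → Z2) : V → V → ZMod 2 :=
  fun x y => if x ∈ A ∧ y ∈ A ∧ G.Adj x y then Multiplicative.toAdd (δ x y) else 0

theorem two_H8 (x : ZMod 2) : x + x = 0 := CharTwo.add_self_eq_zero x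

theorem e_symm_H8 (u w : V) : e_H8 u w = e_H8 w u := by
  funext x y
  simp only [e_H8]
  rw [add_comm]

theorem e_symm'_H8 (u w x y : V) : e_H8 u w x y = e_H8 u w y x := by
  simp only [e_H8]
  rw [add_comm]
  simp only [and_comm]

theorem mem_lk_H8 {a x : V} : x ∈ Lk G A {a} ↔ x ∈ A ∧ G.Adj a x := by
  simp [Lk]

theorem mem_nb_H8 (h : Mf G 2 A ∅) {a x : V} (ha : a ∈ A) :
    x ∈ nb_H8 G A a ↔ x ∈ A ∧ G.Adj a x := by
  have hf : (Lk G A {a}).Finite := (h a ha).1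
  rw [nb_H8, dif_pos hf, Set.Finite.mem_toFinset, mem_lk_H8]

theorem card_H8 (h : Mf G 2 A ∅) {a x : V} (ha : a ∈ A) (hx : x ∈ A) (hax : G.Adj a x) :
    ((nb_H8 G A a).filter (G.Adj x ·)).card = 2 := by
  have h1 := (h a ha).2.2.2 x (mem_lk_H8.2 ⟨hx, hax⟩)
  obtain ⟨-, h2, h3, -⟩ := h1
  have h4 : (Lk G (Lk G A {a}) {x}).ncard ≠ 1 := by
    intro h5
    have h6 := h3.2 (by simpa using h5)
    have h8 : a ∈ (∅ : Set V) := h6 (Finset.mem_coe.2 (Finset.mem_insert_self _ _))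
    exact h8
  have h7 : (Lk G (Lk G A {a}) {x}).ncard = 2 := h2.resolve_left h4
  rw [← h7, ← Set.ncard_coe_finset]
  congr 1
  ext y
  simp only [Finset.coe_filter, Set.mem_ofPred_eq, mem_nb_H8 h ha, mem_lk_H8]

theorem sum_e_H8 (N : Finset V) (a u w : V) :
    ∑ v ∈ N, e_H8 a v u w =
      (if u = a ∧ w ∈ N then 1 else 0) + (if w = a ∧ u ∈ N then 1 else 0) := by
  simp only [e_H8, Finset.sum_add_distrib]
  congr 1
  · by_cases hu : u = a
    · simp [hu]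
    · simp [hu]
  · by_cases hw : w = a
    · simp [hw]
    · simp [hw]

/-- In a connected finite graph a function with zero sum is a boundary. -/
theorem bdry_H8 (N : Finset V) (hc : Pre G (N : Set V)) (f : V → ZMod 2)
    (hf : ∑ x ∈ N, f x = 0) : ∃ g : V → V → ZMod 2, (∀ x y, g x y = g y x) ∧
      ∀ x ∈ N, f x = ∑ y ∈ N.filter (G.Adj x ·), g x y := by
  have key : ∀ p ∈ N, ∀ q ∈ N, ∃ g : V → V → ZMod 2, (∀ x y, g x y = g y x) ∧
      ∀ x ∈ N, (if x = p then 1 else 0) + (if x = q then 1 else 0) =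
        ∑ y ∈ N.filter (G.Adj x ·), g x y := by
    intro p hp q hq
    have hr := hc p hp q hq
    clear hq
    induction hr with
    | refl => exact ⟨fun _ _ => 0, fun _ _ => rfl, fun x _ => by simp [two_H8]⟩
    | @tail b c _ hbc ih =>
      obtain ⟨g, hg, hs⟩ := ih
      obtain ⟨hb, hc', hadj⟩ := hbc
      have hb' : b ∈ N := hb
      have hc'' : c ∈ N := hc'
      refine ⟨fun x y => g x y + e_H8 b c x y, fun x y => by beta_reduce; rw [hg x y, e_symm'_H8], ?_⟩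
      intro x hx
      rw [Finset.sum_add_distrib, ← hs x hx]
      have h1 : ∑ y ∈ N.filter (G.Adj x ·), e_H8 b c x y =
          (if x = b then 1 else 0) + (if x = c then 1 else 0) := by
        simp only [e_H8, Finset.sum_add_distrib]
        congr 1
        · by_cases hxb : x = b
          · simp [hxb, hc'', hadj]
          · simp [hxb]
        · by_cases hxc : x = c
          · simp [hxc, hb', hadj.symm]
          · simp [hxc]
      rw [h1]
      have h2 := two_H8 (if x = b then (1 : ZMod 2) else 0)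
      linear_combination -h2
  rcases N.eq_empty_or_nonempty with rfl | ⟨x0, hx0⟩
  · exact ⟨fun _ _ => 0, fun _ _ => rfl, fun x hx => by simp at hx⟩
  choose! g hg hs using fun p hp => key p hp x0 hx0
  refine ⟨fun x y => ∑ p ∈ N, f p * g p x y, fun x y => ?_, fun x hx => ?_⟩
  · exact Finset.sum_congr rfl fun p hp => by rw [hg p hp]
  · rw [Finset.sum_comm]
    have h1 : ∀ p ∈ N, ∑ y ∈ N.filter (G.Adj x ·), f p * g p x y =
        (if x = p then f p else 0) + f p * (if x = x0 then 1 else 0) := by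
      intro p hp
      rw [← Finset.mul_sum, ← hs p hp x hx, mul_add]
      congr 1
      split_ifs <;> simp
    rw [Finset.sum_congr rfl h1, Finset.sum_add_distrib, ← Finset.sum_mul, hf]
    simp [hx]

/-- The label `θ` is glued from local potentials of `φ`. -/
def Rel_H8 (G : SimpleGraph V) (A : Set V) (φ : V → V → ZMod 2) (θ : V → V → Z2) : Prop :=
  ∃ ψ : V → V → V → ZMod 2, (∀ a x y, ψ a x y = ψ a y x) ∧
    (∀ a ∈ A, ∀ x ∈ A, G.Adj a x → φ a x = ∑ y ∈ (nb_H8 G A a).filter (G.Adj x ·), ψ a x y) ∧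
    ∀ u ∈ A, ∀ w ∈ A, ∀ y ∈ A, G.Adj u w → G.Adj u y → G.Adj w y →
      Multiplicative.toAdd (θ u w) = ψ u w y + ψ w u y

theorem Rel_H8.mul {φ1 φ2 : V → V → ZMod 2} {θ1 θ2 : V → V → Z2} (h1 : Rel_H8 G A φ1 θ1)
    (h2 : Rel_H8 G A φ2 θ2) :
    Rel_H8 G A (fun u w => φ1 u w + φ2 u w) fun u w => θ1 u w * θ2 u w := by
  obtain ⟨ψ1, a1, b1, c1⟩ := h1
  obtain ⟨ψ2, a2, b2, c2⟩ := h2
  refine ⟨fun a x y => ψ1 a x y + ψ2 a x y, fun a x y => by beta_reduce; rw [a1, a2], ?_, ?_⟩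
  · intro a ha x hx hax
    rw [Finset.sum_add_distrib, ← b1 a ha x hx hax, ← b2 a ha x hx hax]
  · intro u hu w hw y hy huw huy hwy
    rw [toAdd_mul, c1 u hu w hw y hy huw huy hwy, c2 u hu w hw y hy huw huy hwy]
    ring

theorem exists_rel_H8 (h : Mf G 2 A ∅) (φ : V → V → ZMod 2) (hs : ∀ u w, φ u w = φ w u)
    (hφ : ∀ a ∈ A, ∑ v ∈ nb_H8 G A a, φ a v = 0) : ∃ θ, Flat G A θ ∧ Rel_H8 G A φ θ := by
  have hloc : ∀ a, ∃ g : V → V → ZMod 2, (∀ x y, g x y = g y x) ∧ (a ∈ A →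
      ∀ x ∈ nb_H8 G A a, φ a x = ∑ y ∈ (nb_H8 G A a).filter (G.Adj x ·), g x y) := by
    intro a
    by_cases ha : a ∈ A
    · have hp : Pre G (nb_H8 G A a : Set V) := by
        have h1 : (nb_H8 G A a : Set V) = Lk G A {a} := by
          ext x
          rw [Finset.mem_coe, mem_nb_H8 h ha, mem_lk_H8]
        rw [h1]
        exact (h a ha).2.1.2
      obtain ⟨g, hg, hg'⟩ := bdry_H8 _ hp (φ a) (hφ a ha)
      exact ⟨g, hg, fun _ => hg'⟩
    · exact ⟨fun _ _ => 0, fun _ _ => rfl, fun h => absurd h ha⟩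
  choose ψ hψ hψ' using hloc
  have hedge : ∀ u w, ∃ c : ZMod 2, (u = w → c = 0) ∧ (u ∈ A → w ∈ A → G.Adj u w →
      ∀ y ∈ A, G.Adj u y → G.Adj w y → c = ψ u w y + ψ w u y) := by
    intro u w
    by_cases huw : u ∈ A ∧ w ∈ A ∧ G.Adj u w
    · obtain ⟨hu, hw, hadj⟩ := huw
      obtain ⟨y1, y2, hne, hM⟩ := Finset.card_eq_two.1 (card_H8 h hu hw hadj)
      have hM' : (nb_H8 G A w).filter (G.Adj u ·) = {y1, y2} := by
        rw [← hM]
        ext y
        simp only [Finset.mem_filter, mem_nb_H8 h hu, mem_nb_H8 h hw]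
        tauto
      have e1 := hψ' u hu w ((mem_nb_H8 h hu).2 ⟨hw, hadj⟩)
      have e2 := hψ' w hw u ((mem_nb_H8 h hw).2 ⟨hu, hadj.symm⟩)
      rw [hM, Finset.sum_pair hne] at e1
      rw [hM', Finset.sum_pair hne, hs] at e2
      refine ⟨ψ u w y1 + ψ w u y1, fun he => absurd he hadj.ne, fun _ _ _ y hy huy hwy => ?_⟩
      have hy' : y ∈ ({y1, y2} : Finset V) := by
        rw [← hM, Finset.mem_filter, mem_nb_H8 h hu]
        exact ⟨⟨hy, huy⟩, hwy⟩
      rcases Finset.mem_insert.1 hy' with rfl | hy'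
      · rfl
      · rw [Finset.mem_singleton.1 hy']
        have t1 := two_H8 (ψ u w y2)
        have t2 := two_H8 (ψ w u y1)
        linear_combination e2 - e1 - t1 + t2
    · exact ⟨0, fun _ => rfl, fun hu hw ha => absurd ⟨hu, hw, ha⟩ huw⟩
  choose c hc0 hc using hedge
  have hex : ∀ u ∈ A, ∀ w ∈ A, G.Adj u w → ∃ y ∈ A, G.Adj u y ∧ G.Adj w y := by
    intro u hu w hw huw
    obtain ⟨y, hy⟩ := Finset.card_pos.1 (by rw [card_H8 h hu hw huw]; norm_num :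
      0 < ((nb_H8 G A u).filter (G.Adj w ·)).card)
    rw [Finset.mem_filter, mem_nb_H8 h hu] at hy
    exact ⟨y, hy.1.1, hy.1.2, hy.2⟩
  refine ⟨fun u w => Multiplicative.ofAdd (c u w), ?_, ψ, hψ, ?_, ?_⟩
  · intro u hu v hv w hw huv hvw huw
    rw [← ofAdd_add]
    congr 1
    rcases huv with rfl | huv
    · rw [hc0 u u rfl, zero_add]
    rcases hvw with rfl | hvw
    · rw [hc0 v v rfl, add_zero]
    rcases huw with rfl | huw
    · obtain ⟨y, hy, h1, h2⟩ := hex u hu v hv huv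
      rw [hc0 u u rfl, hc u v hu hv huv y hy h1 h2, hc v u hv hu hvw y hy h2 h1, add_comm (ψ v u y)]
      exact two_H8 _
    · rw [hc u v hu hv huv w hw huw hvw, hc v w hv hw hvw u hu huv.symm huw.symm,
        hc u w hu hw huw v hv huv hvw.symm, hψ u w v, hψ v w u, hψ w v u]
      have t := two_H8 (ψ v u w)
      linear_combination t
  · intro a ha x hx hax
    exact hψ' a ha x ((mem_nb_H8 h ha).2 ⟨hx, hax⟩)
  · intro u hu w hw y hy huw huy hwy
    exact hc u w hu hw huw y hy huy hwy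

theorem tri_sum_H8 (r : V → V → Prop) [IsStrictTotalOrder V r] (F : Finset V)
    (k : V → V → V → ZMod 2) (h0 : ∀ u w, k u w u = 0 ∧ k u w w = 0)
    (hc : ∀ i j l, k j l i + k i l j + k i j l = 0) :
    ∑ u ∈ F, ∑ w ∈ F, ∑ y ∈ F, (if r u w then k u w y else 0) = 0 := by
  have h1 : ∀ u w y, (if r u w then k u w y else 0) = (if r y u ∧ r u w then k u w y else 0) +
      (if r u y ∧ r y w then k u w y else 0) + (if r u w ∧ r w y then k u w y else 0) := by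
    intro u w y
    by_cases huw : r u w
    · rcases trichotomous_of r y u with h | rfl | h
      · have a1 : ¬ r u y := asymm h
        have a2 : ¬ r w y := asymm (trans_of r h huw)
        simp [huw, h, a1, a2]
      · simp [(h0 _ _).1]
      · have a1 : ¬ r y u := asymm h
        rcases trichotomous_of r y w with h' | rfl | h'
        · have a2 : ¬ r w y := asymm h'
          simp [huw, h, a1, a2, h']
        · simp [(h0 _ _).2]
        · have a2 : ¬ r y w := asymm h'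
          simp [huw, h, a1, a2, h']
    · have a1 : ¬ (r u y ∧ r y w) := fun h => huw (trans_of r h.1 h.2)
      simp [huw, a1]
  simp only [h1, Finset.sum_add_distrib]
  have e1 : ∑ u ∈ F, ∑ w ∈ F, ∑ y ∈ F, (if r y u ∧ r u w then k u w y else 0) =
      ∑ i ∈ F, ∑ j ∈ F, ∑ l ∈ F, (if r i j ∧ r j l then k j l i else 0) := by
    rw [Finset.sum_congr rfl fun u _ => Finset.sum_comm, Finset.sum_comm]
  have e2 : ∑ u ∈ F, ∑ w ∈ F, ∑ y ∈ F, (if r u y ∧ r y w then k u w y else 0) =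
      ∑ i ∈ F, ∑ j ∈ F, ∑ l ∈ F, (if r i j ∧ r j l then k i l j else 0) := by
    rw [Finset.sum_congr rfl fun u _ => Finset.sum_comm]
  rw [e1, e2]
  simp only [← Finset.sum_add_distrib]
  refine Finset.sum_eq_zero fun i _ => Finset.sum_eq_zero fun j _ => Finset.sum_eq_zero fun l _ => ?_
  split_ifs
  · exact hc i j l
  · simp

theorem flat_self_H8 {δ : V → V → Z2} (hδ : Flat G A δ) {u : V} (hu : u ∈ A) : δ u u = 1 := by
  simpa using hδ u hu u hu u hu (Or.inl rfl) (Or.inl rfl) (Or.inl rfl)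

theorem zc_symm_H8 {δ : V → V → Z2} (hδ : Flat G A δ) (u w : V) :
    zc_H8 G A δ u w = zc_H8 G A δ w u := by
  simp only [zc_H8]
  by_cases h : u ∈ A ∧ w ∈ A ∧ G.Adj u w
  · obtain ⟨hu, hw, ha⟩ := h
    rw [if_pos ⟨hu, hw, ha⟩, if_pos ⟨hw, hu, ha.symm⟩]
    have h1 := hδ u hu w hw u hu (Or.inr ha) (Or.inr ha.symm) (Or.inl rfl)
    rw [flat_self_H8 hδ hu] at h1
    have h2 := congrArg Multiplicative.toAdd h1
    rw [toAdd_mul, toAdd_one] at h2
    have t := two_H8 (Multiplicative.toAdd (δ w u))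
    linear_combination h2 - t
  · rw [if_neg h, if_neg fun h' => h ⟨h'.2.1, h'.1, h'.2.2.symm⟩]

theorem zc_expand_H8 (r : V → V → Prop) [IsStrictTotalOrder V r] (F : Finset V)
    (z : V → V → ZMod 2) (hs : ∀ u w, z u w = z w u) (h0 : ∀ u, z u u = 0)
    (hF : ∀ u w, z u w ≠ 0 → u ∈ F) :
    z = ∑ u ∈ F, ∑ w ∈ F, (if r u w then z u w else 0) • e_H8 u w := by
  funext x y
  simp only [Finset.sum_apply, Pi.smul_apply, smul_eq_mul, e_H8, mul_add, Finset.sum_add_distrib]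
  have a1 : ∀ x y : V, ∑ u ∈ F, ∑ w ∈ F, (if r u w then z u w else 0) *
      (if x = u ∧ y = w then (1 : ZMod 2) else 0) = if r x y then z x y else 0 := by
    intro x y
    by_cases hz : z x y = 0
    · rw [hz, ite_self]
      refine Finset.sum_eq_zero fun u _ => Finset.sum_eq_zero fun w _ => ?_
      by_cases h : x = u ∧ y = w
      · rw [← h.1, ← h.2, hz]
        simp
      · simp [h]
    · rw [Finset.sum_eq_single x, Finset.sum_eq_single y]
      · simp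
      · intro w _ hw
        simp [hw.symm]
      · intro hy
        exact absurd (hF y x (by rwa [hs])) hy
      · intro u _ hu
        simp [hu.symm]
      · intro hx
        exact absurd (hF x y hz) hx
  have a2 : ∑ u ∈ F, ∑ w ∈ F, (if r u w then z u w else 0) *
      (if x = w ∧ y = u then (1 : ZMod 2) else 0) = if r y x then z y x else 0 := by
    rw [← a1 y x]
    simp only [and_comm]
  rw [a1 x y, a2]
  rcases trichotomous_of r x y with h | rfl | h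
  · simp [h, (asymm h : ¬ r y x)]
  · simp [h0]
  · simp [h, (asymm h : ¬ r x y), hs x y]

end Pool.Agent.MP_6374aa_g

end

section

/-! Finite cocycles on open surfaces. -/

namespace Pool.Agent.MP_6374aa_g

open Pool.Agent.MP_6374aa_gt Classical

variable {V V' V'' : Type} {G : SimpleGraph V} {G' : SimpleGraph V'} {G'' : SimpleGraph V''}
  {A : Set V} {A' : Set V'} {A'' : Set V''} {L : Type} [Group L]

/-- A functional whose glued label has a potential kills the finite cocycles. -/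
theorem pair_H8 (h : Mf G 2 A ∅) (f : (V → V → ZMod 2) →ₗ[ZMod 2] ZMod 2) {θ : V → V → Z2}
    (hr : Rel_H8 G A (fun u w => f (e_H8 u w)) θ) (hp : Pot G A θ) {δ : V → V → Z2}
    (hδ : Flat G A δ) (hf : FinSupp G A δ) : f (zc_H8 G A δ) = 0 := by
  obtain ⟨ψ, a1, b1, c1⟩ := hr
  obtain ⟨p, hp⟩ := hp
  set z := zc_H8 G A δ with hz
  have hzs : ∀ u w, z u w = z w u := zc_symm_H8 hδ
  have hz1 : ∀ u w, z u w ≠ 0 → u ∈ A ∧ w ∈ A ∧ G.Adj u w ∧ δ u w ≠ 1 := by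
    intro u w h1
    by_cases h2 : u ∈ A ∧ w ∈ A ∧ G.Adj u w
    · refine ⟨h2.1, h2.2.1, h2.2.2, fun h3 => h1 ?_⟩
      simp [hz, zc_H8, h3]
    · exact absurd (if_neg h2) h1
  let F0 : Finset V := hf.toFinset.image Prod.fst
  have hF0 : ∀ u w, z u w ≠ 0 → u ∈ F0 := by
    intro u w h1
    obtain ⟨hu, hw, ha, hne⟩ := hz1 u w h1
    exact Finset.mem_image.2 ⟨(u, w), hf.mem_toFinset.2 ⟨hu, hw, Or.inr ha, hne⟩, rfl⟩
  let F : Finset V := F0 ∪ F0.biUnion (nb_H8 G A)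
  let Ψ : V → V → V → ZMod 2 := fun u w y => ψ u w y + Multiplicative.toAdd (p u)
  let T : V → V → V → Prop := fun u w y =>
    u ∈ A ∧ w ∈ A ∧ y ∈ A ∧ G.Adj u w ∧ G.Adj u y ∧ G.Adj w y
  have hΨ : ∀ u w y, T u w y → Ψ u w y = Ψ w u y := by
    rintro u w y ⟨hu, hw, hy, huw, huy, hwy⟩
    have e1 := c1 u hu w hw y hy huw huy hwy
    rw [hp u hu w hw (Or.inr huw), toAdd_mul, toAdd_inv] at e1
    have t := two_H8 (ψ u w y)
    simp only [Ψ]
    linear_combination e1 + t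
  let r : V → V → Prop := WellOrderingRel
  rw [zc_expand_H8 r F z hzs (fun u => by simp [hz, zc_H8])
    fun u w h1 => Finset.mem_union_left _ (hF0 u w h1)]
  refine Eq.trans ?_ (tri_sum_H8 r F (fun u w y => if T u w y then z u w * Ψ u w y else 0) ?_ ?_)
  · simp only [map_sum, map_smul, smul_eq_mul]
    refine Finset.sum_congr rfl fun u _ => Finset.sum_congr rfl fun w _ => ?_
    by_cases hr : r u w
    swap
    · simp [hr]
    simp only [hr, if_true]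
    by_cases h1 : z u w = 0
    · simp [h1]
    obtain ⟨hu, hw, ha, -⟩ := hz1 u w h1
    have e1 : f (e_H8 u w) = ∑ y ∈ (nb_H8 G A u).filter (G.Adj w ·), Ψ u w y := by
      simp only [Ψ]
      rw [Finset.sum_add_distrib, Finset.sum_const, card_H8 h hu hw ha, two_nsmul, two_H8,
        add_zero]
      exact b1 u hu w hw ha
    rw [e1, Finset.mul_sum, ← Finset.sum_filter]
    refine Finset.sum_congr ?_ fun _ _ => rfl
    ext y
    simp only [Finset.mem_filter, mem_nb_H8 h hu, T]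
    refine ⟨fun hy => ⟨?_, hu, hw, hy.1.1, ha, hy.1.2, hy.2⟩, fun hy => ?_⟩
    · exact Finset.mem_union_right _
        (Finset.mem_biUnion.2 ⟨u, hF0 u w h1, (mem_nb_H8 h hu).2 hy.1⟩)
    · exact ⟨⟨hy.2.2.2.1, hy.2.2.2.2.2.1⟩, hy.2.2.2.2.2.2⟩
  · intro u w
    simp [T]
  · intro i j l
    by_cases hT : T i j l
    · obtain ⟨hi, hj, hl, hij, hil, hjl⟩ := hT
      have T1 : T j l i := ⟨hj, hl, hi, hjl, hij.symm, hil.symm⟩
      have T2 : T i l j := ⟨hi, hl, hj, hil, hij, hjl.symm⟩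
      have T3 : T i j l := ⟨hi, hj, hl, hij, hil, hjl⟩
      have s1 : Ψ j l i = Ψ i j l := by
        rw [hΨ i j l T3]
        simp only [Ψ, a1 j l i]
      have s2 : Ψ i l j = Ψ i j l := by simp only [Ψ, a1 i l j]
      rw [if_pos T1, if_pos T2, if_pos T3, s1, s2]
      have e1 := congrArg Multiplicative.toAdd
        (hδ i hi j hj l hl (Or.inr hij) (Or.inr hjl) (Or.inr hil))
      rw [toAdd_mul] at e1
      have e2 : z j l + z i l + z i j = 0 := by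
        simp only [hz, zc_H8, hi, hj, hl, hij, hil, hjl, and_self, if_true]
        have t := two_H8 (Multiplicative.toAdd (δ i l))
        linear_combination e1 + t
      linear_combination Ψ i j l * e2
    · have T1 : ¬ T j l i := fun ⟨hj, hl, hi, hjl, hji, hli⟩ =>
        hT ⟨hi, hj, hl, hji.symm, hli.symm, hjl⟩
      have T2 : ¬ T i l j := fun ⟨hi, hl, hj, hil, hij, hlj⟩ =>
        hT ⟨hi, hj, hl, hij, hil, hlj.symm⟩
      simp [T1, T2, hT]

/-- A label which is not a finite coboundary is detected by a functional with a glued label. -/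
theorem dual_H8 (h : Mf G 2 A ∅) {δ : V → V → Z2} (hδ : Flat G A δ)
    (hn : ¬ ∃ S : Set V, S.Finite ∧ IsCob G A δ S) :
    ∃ f : (V → V → ZMod 2) →ₗ[ZMod 2] ZMod 2, f (zc_H8 G A δ) = 1 ∧
      ∃ θ, Flat G A θ ∧ Rel_H8 G A (fun u w => f (e_H8 u w)) θ := by
  let P : Submodule (ZMod 2) (V → V → ZMod 2) :=
    { carrier := {x | ∃ χ : V →₀ ZMod 2, ∀ u ∈ A, ∀ w ∈ A, G.Adj u w → x u w = χ u + χ w}
      add_mem' := by
        rintro x y ⟨χ, hχ⟩ ⟨χ', hχ'⟩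
        refine ⟨χ + χ', fun u hu w hw ha => ?_⟩
        simp only [Pi.add_apply, Finsupp.add_apply, hχ u hu w hw ha, hχ' u hu w hw ha]
        ring
      zero_mem' := ⟨0, fun u _ w _ _ => by simp⟩
      smul_mem' := by
        rintro c x ⟨χ, hχ⟩
        refine ⟨c • χ, fun u hu w hw ha => ?_⟩
        simp only [Pi.smul_apply, Finsupp.smul_apply, hχ u hu w hw ha, smul_add] }
  have hz : zc_H8 G A δ ∉ P := by
    rintro ⟨χ, hχ⟩
    refine hn ⟨χ.support, χ.support.finite_toSet, fun u hu w hw ha => ?_⟩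
    rcases ha with rfl | ha
    · simp [flat_self_H8 hδ hu]
    · have e1 := hχ u hu w hw ha
      simp only [zc_H8, hu, hw, ha, and_self, if_true] at e1
      rw [← toAdd_eq_zero, e1]
      simp only [Finset.mem_coe, Finsupp.mem_support_iff]
      generalize χ u = a
      generalize χ w = b
      revert a b
      decide
  obtain ⟨f, hf, hP⟩ := Submodule.exists_le_ker_of_notMem hz
  refine ⟨f, ?_, exists_rel_H8 h _ (fun u w => by rw [e_symm_H8]) fun a ha => ?_⟩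
  · revert hf
    generalize f (zc_H8 G A δ) = a
    revert a
    decide
  · rw [← map_sum]
    refine LinearMap.mem_ker.1 (hP ⟨Finsupp.single a 1, fun u hu w hw huw => ?_⟩)
    simp only [Finset.sum_apply]
    rw [sum_e_H8]
    simp only [mem_nb_H8 h ha, Finsupp.single_apply]
    congr 1
    · by_cases h1 : u = a
      · subst h1
        simp [hw, huw]
      · simp [h1, Ne.symm h1]
    · by_cases h1 : w = a
      · subst h1
        simp [hu, huw.symm]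
      · simp [h1, Ne.symm h1]

theorem fin_side (h : Mf G 2 A ∅) (hn : NDC G A) {δ : V → V → Z2} (hδ : Flat G A δ)
    (hf : FinSupp G A δ) : ∃ S : Set V, S.Finite ∧ IsCob G A δ S := by
  by_contra hc
  obtain ⟨f, h1, θ, hθ, hr⟩ := dual_H8 h hδ hc
  rw [pair_H8 h f hr (hn θ hθ) hδ hf] at h1
  exact zero_ne_one h1

theorem same_H8 (h : Mf G 2 A ∅) (hn : Rk G A 1) {f1 f2 : (V → V → ZMod 2) →ₗ[ZMod 2] ZMod 2}
    {θ1 θ2 : V → V → Z2} (t1 : Flat G A θ1) (t2 : Flat G A θ2)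
    (r1 : Rel_H8 G A (fun u w => f1 (e_H8 u w)) θ1) (r2 : Rel_H8 G A (fun u w => f2 (e_H8 u w)) θ2)
    (n1 : ¬ Pot G A θ1) (n2 : ¬ Pot G A θ2) {δ : V → V → Z2} (hδ : Flat G A δ)
    (hf : FinSupp G A δ) : f1 (zc_H8 G A δ) + f2 (zc_H8 G A δ) = 0 := by
  obtain ⟨S, hS, hp⟩ := hn ![θ1, θ2] (by
    intro i
    fin_cases i
    · exact t1
    · exact t2)
  have hcase : ∀ S : Finset (Fin 2), S.Nonempty → S = {0} ∨ S = {1} ∨ S = {0, 1} := by decide
  rcases hcase S hS with rfl | rfl | rfl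
  · exact absurd (by simpa using hp) n1
  · exact absurd (by simpa using hp) n2
  · exact pair_H8 h (f1 + f2) (r1.mul r2) (by simpa using hp) hδ hf

theorem fin_side_two (h : Mf G 2 A ∅) (hn : Rk G A 1) {δ1 δ2 : V → V → Z2} (h1 : Flat G A δ1)
    (h2 : Flat G A δ2) (hf1 : FinSupp G A δ1) (hf2 : FinSupp G A δ2) :
    ∃ S : Set V, S.Finite ∧
      (IsCob G A δ1 S ∨ IsCob G A δ2 S ∨ IsCob G A (fun u w => δ1 u w * δ2 u w) S) := by
  by_contra hc
  have h3 : Flat G A fun u w => δ1 u w * δ2 u w := by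
    intro u hu v hv w hw huv hvw huw
    beta_reduce
    rw [← h1 u hu v hv w hw huv hvw huw, ← h2 u hu v hv w hw huv hvw huw]
    exact mul_mul_mul_comm _ _ _ _
  have hf3 : FinSupp G A fun u w => δ1 u w * δ2 u w := by
    refine (hf1.union hf2).subset ?_
    rintro p ⟨a, b, c, d⟩
    by_contra hp
    simp only [Set.mem_union, Set.mem_ofPred_eq, a, b, c, true_and, not_or, not_not] at hp
    exact d (by simp only [hp.1, hp.2, mul_one])
  have hz : zc_H8 G A (fun u w => δ1 u w * δ2 u w) = zc_H8 G A δ1 + zc_H8 G A δ2 := by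
    funext x y
    simp only [zc_H8, Pi.add_apply]
    split_ifs <;> simp
  obtain ⟨f1, e1, θ1, t1, r1⟩ := dual_H8 h h1 fun ⟨S, a, b⟩ => hc ⟨S, a, Or.inl b⟩
  obtain ⟨f2, e2, θ2, t2, r2⟩ := dual_H8 h h2 fun ⟨S, a, b⟩ => hc ⟨S, a, Or.inr (Or.inl b)⟩
  obtain ⟨f3, e3, θ3, t3, r3⟩ := dual_H8 h h3 fun ⟨S, a, b⟩ => hc ⟨S, a, Or.inr (Or.inr b)⟩
  have n1 : ¬ Pot G A θ1 := fun hp => zero_ne_one ((pair_H8 h f1 r1 hp h1 hf1).symm.trans e1)
  have n2 : ¬ Pot G A θ2 := fun hp => zero_ne_one ((pair_H8 h f2 r2 hp h2 hf2).symm.trans e2)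
  have n3 : ¬ Pot G A θ3 := fun hp => zero_ne_one ((pair_H8 h f3 r3 hp h3 hf3).symm.trans e3)
  have s1 := same_H8 h hn t1 t3 r1 r3 n1 n3 h1 hf1
  have s2 := same_H8 h hn t2 t3 r2 r3 n2 n3 h2 hf2
  rw [hz, map_add] at e3
  have t := two_H8 (1 : ZMod 2)
  exact zero_ne_one (α := ZMod 2) (by linear_combination e1 + e2 + e3 - s1 - s2 + t)

end Pool.Agent.MP_6374aa_g

end

section

/-!
Block E: definitions.  A plane with a free cocompact action, colourings by trees, lines and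
regions, discs, and the state that is carried through the subdivisions.
-/

namespace Pool.Agent.MP_6374aa_g.BE

open Pool.Agent.MP_6374aa_gt Classical Pointwise

noncomputable section

section basic

variable (Γ : Type) [Group Γ] {Y V T U : Type}

/-- A free action by automorphisms. -/
structure Act [MulAction Γ Y] (GY : SimpleGraph Y) (AY : Set Y) : Prop where
  mem : ∀ (g : Γ), ∀ y ∈ AY, g • y ∈ AY
  adj : ∀ (g : Γ) y y', GY.Adj y y' → GY.Adj (g • y) (g • y')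
  free : ∀ (g : Γ), ∀ y ∈ AY, g • y = y → g = 1

/-- `q` is the quotient map by the action, a simplicial covering. -/
structure Cv [MulAction Γ Y] (GY : SimpleGraph Y) (AY : Set Y) (G : SimpleGraph V) (F : Set V)
    (q : Y → V) : Prop where
  mem : ∀ y ∈ AY, q y ∈ F
  adj : ∀ y ∈ AY, ∀ y' ∈ AY, GY.Adj y y' → G.Adj (q y) (q y')
  inv : ∀ (g : Γ), ∀ y ∈ AY, q (g • y) = q y
  orb : ∀ y ∈ AY, ∀ y' ∈ AY, q y = q y' → ∃ g : Γ, y' = g • y
  uniq : ∀ y ∈ AY, ∀ y1 ∈ AY, ∀ y2 ∈ AY, GY.Adj y y1 → GY.Adj y y2 → q y1 = q y2 → y1 = y2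
  lift : ∀ s ∈ sA G F, ∃ t ∈ sA GY AY, t.image q = s

/-- A simply connected surface without boundary. -/
structure Pl (GY : SimpleGraph Y) (AY : Set Y) : Prop where
  mf : Mf GY 2 AY ∅
  con : Con GY AY
  sco : SCo GY AY

/-- Equivariance on `A`. -/
def Eqv [MulAction Γ Y] [MulAction Γ T] (A : Set Y) (ε : Y → T) : Prop :=
  ∀ (g : Γ), ∀ y ∈ A, ε (g • y) = g • ε y

/-- An action on a tree without inversion. -/
structure TA [MulAction Γ T] (X : SimpleGraph T) : Prop where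
  tree : X.IsTree
  adj : ∀ (g : Γ) a b, X.Adj a b → X.Adj (g • a) (g • b)
  noinv : ∀ (g : Γ) a b, X.Adj a b → g • a ≠ b

/-- Every orbit goes arbitrarily deep into every half tree. -/
def Deep [MulAction Γ T] (X : SimpleGraph T) : Prop :=
  ∀ x y, X.Adj x y → ∀ (z : T) (n : ℕ), ∃ g : Γ, g • z ∈ half X x y ∧ n ≤ X.dist (g • z) x

variable {Γ}

/-- `S` has finitely many orbits under `H`. -/
def CoF [MulAction Γ Y] (H : Subgroup Γ) (S : Set Y) : Prop :=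
  ∃ S0 : Set Y, S0.Finite ∧ ∀ v ∈ S, ∃ h ∈ H, h • v ∈ S0

/-- Loops of the quotient that come from `N` die in `W`. -/
def KillY [MulAction Γ Y] (GY : SimpleGraph Y) (AY : Set Y) (H : SimpleGraph V) (W : Set V)
    (q : Y → V) (N : Subgroup Γ) : Prop :=
  ∀ (L : Type) [Group L] (lab : V → V → L), Flat H W lab → ∃ φ : Y → L,
    (∀ y ∈ AY, ∀ y' ∈ AY, Adq GY y y' → lab (q y) (q y') = φ y * (φ y')⁻¹) ∧
      ∀ g ∈ N, ∀ y ∈ AY, φ (g • y) = φ y

/-- Adjacent vertices have colours at distance at most `d`. -/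
def Jump (G : SimpleGraph Y) (A : Set Y) (X : SimpleGraph T) (ε : Y → T) (d : ℕ) : Prop :=
  ∀ u ∈ A, ∀ w ∈ A, G.Adj u w → X.dist (ε u) (ε w) ≤ d

/-- Adjacent vertices have equal or adjacent colours. -/
def Hm (G : SimpleGraph Y) (A : Set Y) (X : SimpleGraph T) (ε : Y → T) : Prop :=
  ∀ u ∈ A, ∀ w ∈ A, G.Adj u w → Adq X (ε u) (ε w)

/-- The colours on `S` are unbounded. -/
def Unb (X : SimpleGraph T) (ε : Y → T) (S : Set Y) : Prop :=
  ∀ (x : T) (n : ℕ), ∃ v ∈ S, n ≤ X.dist (ε v) x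

/-- The preimage of a half tree. -/
def HS (A : Set Y) (X : SimpleGraph T) (ε : Y → T) (x y : T) : Set Y :=
  {v | v ∈ A ∧ ε v ∈ half X x y}

/-- All preimages of half trees are connected. -/
def HP (G : SimpleGraph Y) (A : Set Y) (X : SimpleGraph T) (ε : Y → T) : Prop :=
  ∀ x y, X.Adj x y → Pre G (HS A X ε x y)

/-- The new colour of a simplex is one of the colours of its vertices. -/
def Prop1 (G : SimpleGraph Y) (A : Set Y) (ε : Y → T) (ε' : Finset Y → T) : Prop :=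
  ∀ s ∈ sA G A, ∃ v ∈ s, ε' s = ε v

/-- The set of colours of a simplex. -/
def cols (ε : Y → T) : Finset Y → Set T := fun s => {z | ∃ v ∈ s, ε v = z}

/-- Propagation by intersection. -/
def itr (α : Y → Set T) : Finset Y → Set T := fun s => {z | ∀ v ∈ s, z ∈ α v}

/-- The region of a vertex of the tree. -/
def Rg (A : Set Y) (α : Y → Set T) (x : T) : Set Y := {v | v ∈ A ∧ x ∈ α v}

/-- The line of an edge of the tree. -/
def Ln (A : Set Y) (α : Y → Set T) (x y : T) : Set Y := {v | v ∈ A ∧ x ∈ α v ∧ y ∈ α v}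

/-- The union of the lines. -/
def Bd (α : Y → Set T) : Set Y := {v | ∃ x y, x ≠ y ∧ x ∈ α v ∧ y ∈ α v}

/-- Every vertex carries a vertex or an edge of the tree. -/
structure AS0 (G : SimpleGraph Y) (A : Set Y) (X : SimpleGraph T) (α : Y → Set T) : Prop where
  shape : ∀ v ∈ A, (∃ x, α v = {x}) ∨ ∃ x y, X.Adj x y ∧ α v = {x, y}
  cmp : ∀ u ∈ A, ∀ w ∈ A, G.Adj u w → α u ⊆ α w ∨ α w ⊆ α u

variable (Γ) in
/-- Lines and regions dual to the tree. -/
structure AS [MulAction Γ Y] [MulAction Γ T] (G : SimpleGraph Y) (A : Set Y) (X : SimpleGraph T)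
    (α : Y → Set T) : Prop extends AS0 G A X α where
  eqv : ∀ (g : Γ), ∀ v ∈ A, ∀ z ∈ α v, g • z ∈ α (g • v)
  line : ∀ x y, X.Adj x y → Mf G 1 (Ln A α x y) ∅ ∧ Con G (Ln A α x y) ∧ (Ln A α x y).Infinite
  reg : ∀ x, Mf G 2 (Rg A α x) (Bd α)

/-- The colouring `ε` is good on the lines of `α`. -/
structure GdL {T' : Type} (G : SimpleGraph Y) (A : Set Y) (X : SimpleGraph T) (α : Y → Set T)
    (X' : SimpleGraph T') (ε : Y → T') : Prop where
  hm : ∀ x x', X.Adj x x' → Hm G (Ln A α x x') X' ε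
  hp : ∀ x x', X.Adj x x' → HP G (Ln A α x x') X' ε
  unb : ∀ x x', X.Adj x x' → ∀ y y', X'.Adj y y' → (HS (Ln A α x x') X' ε y y').Nonempty →
    Unb X' ε (HS (Ln A α x x') X' ε y y')

/-- The curve of type `e` in the quotient. -/
def Crv (A : Set Y) (q : Y → V) (α : Y → Set T) (ty : T → U) (e : Finset U) : Set V :=
  q '' {v | v ∈ A ∧ ∀ a ∈ e, ∃ z ∈ α v, ty z = a}

/-- Disjoint discs with boundary curves `c e`. -/
structure Discs (H : SimpleGraph V) (W Tb : Set V) (E : Set (Finset U)) (c D : Finset U → Set V) :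
    Prop where
  sub : ∀ e ∈ E, D e ⊆ W
  ball : ∀ e ∈ E, Ball H 3 (D e) Tb
  bd : ∀ e ∈ E, D e ∩ Tb = c e
  far : ∀ e ∈ E, ∀ e' ∈ E, e ≠ e' → Far H (D e) (D e')

/-- A submanifold `W2` that avoids the discs and contains `Fp` in its boundary. -/
structure Av (H : SimpleGraph V) (W Tb Fp W2 T2 : Set V) (E : Set (Finset U))
    (D : Finset U → Set V) : Prop where
  sub : W2 ⊆ W
  mf : Mf H 3 W2 T2
  bd : W2 ∩ Tb ⊆ T2
  clopen : Clopen H (W2 ∩ T2) Fp
  disj : ∀ e ∈ E, Disjoint W2 (D e)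

/-- The edges of `K` inside `S`. -/
def edg (K : SimpleGraph U) (S : Set U) : Set (Finset U) := {e | e ∈ sA K S ∧ e.card = 2}

/-- The boundary marking of the cell of `s`. -/
def bl (ℓ : V → Finset U) (s : Finset U) : Finset V → Prop :=
  fun τ => τ = ∅ ∨ ∃ u, u ∉ s ∧ ∀ x ∈ τ, u ∈ ℓ x

/-- The labelling of the surface. -/
structure LabF (G : SimpleGraph V) (F : Set V) (K : SimpleGraph U) (B Hi : Set U)
    (ℓ : V → Finset U) : Prop where
  mem : ∀ x ∈ F, ℓ x ∈ sA K B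
  two : ∀ τ ∈ sA G F, ∃ a ∈ Hi, ∃ b, b ∉ Hi ∧ ∀ x ∈ τ, a ∈ ℓ x ∧ b ∈ ℓ x
  cell : ∀ s ∈ sA K B, Meets s Hi → ¬ ↑s ⊆ Hi →
    Cell G (5 - s.card) {x | x ∈ F ∧ s ⊆ ℓ x} (bl ℓ s)

end basic

/-! ### The cells in the plane -/

section cells

variable {U : Type} {K : SimpleGraph U} {B Hi : Set U} {Γ : Type} [Group Γ] {Nm Np : Subgroup Γ}
  {Y V : Type}

/-- The data at the last level. -/
structure Fin2 [MulAction Γ Y] (M : TM K B Hi Γ Nm Np) (GY : SimpleGraph Y) (AY : Set Y)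
    (G : SimpleGraph V) (F : Set V) (q : Y → V) (α : Y → Set M.T1) (ε : Y → M.T2) : Prop where
  two : Two K B Hi
  act : Act Γ GY AY
  pl : Pl GY AY
  cv : Cv Γ GY AY G F q
  fin : F.Finite
  as : AS Γ GY AY M.X1 α
  eqv : Eqv Γ AY ε
  hm : Hm GY AY M.X2 ε
  hp : HP GY AY M.X2 ε
  gl : GdL GY AY M.X1 α M.X2 ε

/-- A cell in the subdivision of the plane. -/
def CC {T1 T2 : Type} (GY : SimpleGraph Y) (AY : Set Y) (α : Y → Set T1) (ε : Y → T2)
    (A : Set T1) (Bs : Set T2) : Set (Finset Y) :=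
  {t | t ∈ sA GY AY ∧ A ⊆ itr α t ∧ Bs ⊆ cols ε t}

/-- The boundary marking of a cell in the plane. -/
def bb {T1 T2 : Type} (α : Y → Set T1) (ε : Y → T2) (A : Set T1) (Bs : Set T2) :
    Finset (Finset Y) → Prop :=
  fun σ => σ = ∅ ∨ (∃ z, z ∉ A ∧ ∀ t ∈ σ, z ∈ itr α t) ∨ ∃ w, w ∉ Bs ∧ ∀ t ∈ σ, w ∈ cols ε t

/-- The specification of the labels. -/
def LSpec {T1 T2 : Type} (GY : SimpleGraph Y) (AY : Set Y) (q : Y → V) (α : Y → Set T1)
    (ε : Y → T2) (ty1 : T1 → U) (ty2 : T2 → U) (ℓ : Finset V → Finset U) : Prop :=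
  ∀ t ∈ sA GY AY, ∀ u, u ∈ ℓ (t.image q) ↔
    (∃ z ∈ itr α t, ty1 z = u) ∨ ∃ w ∈ cols ε t, ty2 w = u

end cells

/-! ### The state -/

/-- The geometric data: the manifold, the cut manifold, the universal cover of the surface. -/
structure Base (Γ : Type) [Group Γ] where
  X : Cx
  F : Set X.V
  U : Type
  [neU : Nonempty U]
  H : SimpleGraph U
  W : Set U
  Tb : Set U
  Fm : Set U
  Fp : Set U
  p : U → X.V
  Y : Type
  [neY : Nonempty Y]
  [act : MulAction Γ Y]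
  GY : SimpleGraph Y
  AY : Set Y
  qm : Y → U
  qp : Y → U

attribute [instance] Base.neU Base.neY Base.act

variable {Γ : Type} [Group Γ]

def Base.sd (b : Base Γ) : Base Γ where
  X := b.X.sd
  F := sA b.X.G b.F
  U := Finset b.U
  H := sG b.U
  W := sA b.H b.W
  Tb := ins b.Tb
  Fm := sA b.H b.Fm
  Fp := sA b.H b.Fp
  p := Finset.image b.p
  Y := Finset b.Y
  act := Finset.mulActionFinset
  GY := sG b.Y
  AY := sA b.GY b.AY
  qm := Finset.image b.qm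
  qp := Finset.image b.qp

structure Base.OK (b : Base Γ) (Nm Np : Subgroup Γ) : Prop where
  fin : b.W.Finite
  mf : Mf b.H 3 b.W b.Tb
  bd : b.W ∩ b.Tb = b.Fm ∪ b.Fp
  cut : Cut b.H b.W b.Fm b.Fp b.X.G b.X.A b.F b.p
  act : Act Γ b.GY b.AY
  pl : Pl b.GY b.AY
  cvm : Cv Γ b.GY b.AY b.H b.Fm b.qm
  cvp : Cv Γ b.GY b.AY b.H b.Fp b.qp
  comm : ∀ y ∈ b.AY, b.p (b.qm y) = b.p (b.qp y)
  killm : KillY b.GY b.AY b.H b.W b.qm Nm
  killp : KillY b.GY b.AY b.H b.W b.qp Np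

end

end Pool.Agent.MP_6374aa_g.BE

end

section

/-! Half trees. -/

namespace Pool.Agent.MP_6374aa_g.BE

open Pool.Agent.MP_6374aa_gt Classical Pointwise

variable {Γ : Type} [Group Γ] {Y V V' T T' U : Type} [MulAction Γ Y] [MulAction Γ T]
  [MulAction Γ T'] {GY : SimpleGraph Y} {AY A : Set Y} {G H : SimpleGraph V} {F : Set V}
  {q : Y → V} {X : SimpleGraph T} {X' : SimpleGraph T'} {K : SimpleGraph U} {B Hi : Set U}
  {N Nm Np : Subgroup Γ} {L : Type} [Group L]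

theorem half_asymm {x y z : T} (h : z ∈ half X x y) : z ∉ half X y x := by
  exact fun k => Nat.lt_asymm h k

theorem left_not_mem_half (x y : T) : x ∉ half X x y := by
  simp [half]

theorem right_mem_half (hX : X.IsTree) {x y : T} (h : X.Adj x y) : y ∈ half X x y := by
  change X.dist y y < X.dist y x
  rw [SimpleGraph.dist_self]
  exact hX.connected.pos_dist_of_ne h.ne'

theorem half_cases (hX : X.IsTree) {x y : T} (h : X.Adj x y) (z : T) :
    z ∈ half X x y ∨ z ∈ half X y x := by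
  have := hX.dist_eq_dist_add_one_of_adj z h
  simp only [half, Set.mem_ofPred_eq]
  omega

theorem not_half_iff (hX : X.IsTree) {x y : T} (h : X.Adj x y) {z : T} :
    z ∉ half X x y ↔ z ∈ half X y x := by
  exact ⟨(half_cases hX h z).resolve_left, half_asymm⟩

theorem half_dist (hX : X.IsTree) {x y z : T} (h : X.Adj x y) (hz : z ∈ half X x y) :
    X.dist z x = X.dist z y + 1 := by
  have := hX.dist_eq_dist_add_one_of_adj z h
  have h1 : X.dist z y < X.dist z x := hz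
  omega

theorem ex_Tr0 (hX : X.IsTree) {x z : T} (h : x ≠ z) : ∃ y, X.Adj x y ∧ z ∈ half X x y := by
  obtain ⟨p, hp⟩ := hX.connected.exists_walk_length_eq_dist x z
  cases p with
  | nil => exact absurd rfl h
  | @cons _ m _ a q =>
    refine ⟨m, a, ?_⟩
    have h1 := SimpleGraph.dist_le q
    rw [SimpleGraph.Walk.length_cons] at hp
    change X.dist z m < X.dist z x
    rw [SimpleGraph.dist_comm, SimpleGraph.dist_comm (u := z)]
    omega

theorem uniq_Tr0 (hX : X.IsTree) {x y y' z : T} (h : X.Adj x y) (h' : X.Adj x y')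
    (hz : z ∈ half X x y) (hz' : z ∈ half X x y') : y = y' := by
  obtain ⟨p, hp⟩ := hX.connected.exists_walk_length_eq_dist y z
  obtain ⟨q, hq⟩ := hX.connected.exists_walk_length_eq_dist y' z
  have e := (hX.existsUnique_path x z).unique
    ((SimpleGraph.Walk.cons h p).isPath_of_length_eq_dist (by
      rw [SimpleGraph.Walk.length_cons, hp, SimpleGraph.dist_comm, ← half_dist hX h hz,
        SimpleGraph.dist_comm]))
    ((SimpleGraph.Walk.cons h' q).isPath_of_length_eq_dist (by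
      rw [SimpleGraph.Walk.length_cons, hq, SimpleGraph.dist_comm, ← half_dist hX h' hz',
        SimpleGraph.dist_comm]))
  simpa using congrArg (fun w : X.Walk x z => w.getVert 1) e

theorem far_Tr0 (hX : X.IsTree) {u w : T} (n : ℕ) {x y : T} (h : X.Adj x y) (hn : X.dist u y = n)
    (hu : u ∈ half X x y) (hw : w ∈ half X y x) :
    X.dist u w = X.dist u y + 1 + X.dist x w := by
  have h0 := half_dist hX h.symm hw
  rw [SimpleGraph.dist_comm, SimpleGraph.dist_comm (u := w)] at h0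
  induction n generalizing x y with
  | zero =>
    obtain rfl := hX.connected.dist_eq_zero_iff.1 hn
    omega
  | succ n ih =>
    obtain ⟨z, h1, h2⟩ := ex_Tr0 hX (x := y) (z := u) (by rintro rfl; simp at hn)
    have h3 : w ∈ half X z y := (half_cases hX h1 w).resolve_left fun k =>
      half_asymm hu (uniq_Tr0 hX h1 h.symm k hw ▸ h2)
    have h4 := half_dist hX h1 h2
    have h5 := half_dist hX h1.symm h3
    rw [SimpleGraph.dist_comm, SimpleGraph.dist_comm (u := w)] at h5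
    have := ih h1 (by omega) h2 h3 h5
    omega

theorem cross (hX : X.IsTree) {x y u w : T} (h : X.Adj x y) (huw : Adq X u w)
    (hu : u ∈ half X x y) (hw : w ∉ half X x y) : u = y ∧ w = x := by
  have h1 := far_Tr0 hX _ h rfl hu ((not_half_iff hX h).1 hw)
  have h2 : X.dist u w ≤ 1 := by
    rcases huw with rfl | e
    · simp
    · exact (SimpleGraph.dist_eq_one_iff_adj.2 e).le
  exact ⟨hX.connected.dist_eq_zero_iff.1 (by omega),
    (hX.connected.dist_eq_zero_iff.1 (by omega)).symm⟩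

theorem bridge (hX : X.IsTree) {x y u w : T} (h : X.Adj x y) (hu : u ∈ half X x y)
    (hw : w ∈ half X y x) : X.dist u w = X.dist u y + 1 + X.dist x w := by
  exact far_Tr0 hX _ h rfl hu hw

theorem near_deep (hX : X.IsTree) {x y u w : T} (h : X.Adj x y) (hu : u ∈ half X x y)
    (hd : X.dist u w < X.dist u x) : w ∈ half X x y := by
  by_contra k
  have h1 := bridge hX h hu ((not_half_iff hX h).1 k)
  have h2 := half_dist hX h hu
  omega

theorem exists_step (hX : X.IsTree) {x z : T} (h : x ≠ z) : ∃ y, X.Adj x y ∧ z ∈ half X x y := by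
  exact ex_Tr0 hX h

theorem step_unique (hX : X.IsTree) {x y y' z : T} (h : X.Adj x y) (h' : X.Adj x y')
    (hz : z ∈ half X x y) (hz' : z ∈ half X x y') : y = y' := by
  exact uniq_Tr0 hX h h' hz hz'

theorem nested (hX : X.IsTree) {x0 x1 z x w : T} (h : X.Adj x0 x1) (hz : z ∈ half X x0 x1)
    (hx : X.Adj z x) (h0 : x0 ∈ half X z x) (hw : w ∈ half X x z) :
    w ∈ half X x0 x1 ∧ X.dist w x0 = X.dist w z + X.dist z x0 := by
  have h1 := bridge hX hx.symm hw h0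
  have h2 := half_dist hX hx h0
  have h3 : X.dist z x1 < X.dist z x0 := hz
  have h4 : X.dist w x1 ≤ X.dist w z + X.dist z x1 := hX.connected.dist_triangle
  rw [SimpleGraph.dist_comm, SimpleGraph.dist_comm (u := x0)] at h2
  exact ⟨show X.dist w x1 < X.dist w x0 by omega, by omega⟩

theorem tdist_tri (hX : X.IsTree) (a b c : T) : X.dist a c ≤ X.dist a b + X.dist b c := by
  exact hX.connected.dist_triangle

theorem adq_iff_dist (hX : X.IsTree) {a b : T} : Adq X a b ↔ X.dist a b ≤ 1 := by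
  refine ⟨?_, fun h => ?_⟩
  · rintro (rfl | e)
    · simp
    · exact (SimpleGraph.dist_eq_one_iff_adj.2 e).le
  · by_contra k
    exact (hX.connected.one_lt_dist_of_ne_of_not_adj (fun e => k (Or.inl e))
      fun e => k (Or.inr e)).not_ge h

theorem clique_shape (hX : X.IsTree) {S : Set T} (hn : S.Nonempty)
    (h : ∀ a ∈ S, ∀ b ∈ S, Adq X a b) : (∃ x, S = {x}) ∨ ∃ x y, X.Adj x y ∧ S = {x, y} := by
  obtain ⟨x, hx⟩ := hn
  by_cases k : ∀ y ∈ S, y = x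
  · exact Or.inl ⟨x, Set.eq_singleton_iff_unique_mem.2 ⟨hx, k⟩⟩
  push Not at k
  obtain ⟨y, hy, e⟩ := k
  have h1 : X.Adj x y := (h x hx y hy).resolve_left e.symm
  refine Or.inr ⟨x, y, h1, (Set.pair_subset hx hy).antisymm' fun z hz => ?_⟩
  rcases half_cases hX h1 z with k | k
  · exact Or.inr (cross hX h1 (h z hz x hx) k (left_not_mem_half x y)).1
  · exact Or.inl (cross hX h1.symm (h z hz y hy) k (left_not_mem_half y x)).1

theorem deep_of_noleaf (hX : X.IsTree) (hl : ∀ x y, X.Adj x y → ∃ z, X.Adj y z ∧ z ≠ x) {x y : T}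
    (h : X.Adj x y) (n : ℕ) : ∃ z ∈ half X x y, n ≤ X.dist z x := by
  induction n generalizing x y with
  | zero => exact ⟨y, right_mem_half hX h, Nat.zero_le _⟩
  | succ n ih =>
    obtain ⟨z, h1, h2⟩ := hl x y h
    obtain ⟨w, h3, h4⟩ := ih h1
    have h5 : w ∈ half X x y :=
      (half_cases hX h w).resolve_right fun k => h2 (step_unique hX h1 h.symm h3 k)
    exact ⟨w, h5, by rw [half_dist hX h h5]; omega⟩

end Pool.Agent.MP_6374aa_g.BE

end

section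

/-! Half trees. -/

namespace Pool.Agent.MP_6374aa_g.BE

open Pool.Agent.MP_6374aa_gt Classical Pointwise

variable {Γ : Type} [Group Γ] {Y V V' T T' U : Type} [MulAction Γ Y] [MulAction Γ T]
  [MulAction Γ T'] {GY : SimpleGraph Y} {AY A : Set Y} {G H : SimpleGraph V} {F : Set V}
  {q : Y → V} {X : SimpleGraph T} {X' : SimpleGraph T'} {K : SimpleGraph U} {B Hi : Set U}
  {N Nm Np : Subgroup Γ} {L : Type} [Group L]

theorem TA.dist_smul (hT : TA Γ X) (g : Γ) (a b : T) : X.dist (g • a) (g • b) = X.dist a b := by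
  have key : ∀ (g : Γ) (a b : T), X.dist (g • a) (g • b) ≤ X.dist a b := by
    intro g a b
    obtain ⟨p, hp⟩ := hT.tree.connected.exists_walk_length_eq_dist a b
    have := SimpleGraph.dist_le (p.map (⟨fun a => g • a, fun {a b} => hT.adj g a b⟩ : X →g X))
    rwa [SimpleGraph.Walk.length_map, hp] at this
  exact le_antisymm (key g a b) (by simpa using key g⁻¹ (g • a) (g • b))

theorem TA.adj_iff (hT : TA Γ X) (g : Γ) {a b : T} : X.Adj (g • a) (g • b) ↔ X.Adj a b := by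
  exact ⟨fun h => by simpa using hT.adj g⁻¹ _ _ h, hT.adj g a b⟩

theorem TA.adq (hT : TA Γ X) (g : Γ) {a b : T} (h : Adq X a b) : Adq X (g • a) (g • b) := by
  exact h.imp (congrArg _) (hT.adj g a b)

theorem TA.half_smul (hT : TA Γ X) (g : Γ) {x y z : T} :
    g • z ∈ half X (g • x) (g • y) ↔ z ∈ half X x y := by
  simp only [half, Set.mem_ofPred_eq, hT.dist_smul]

theorem TA.fix (hT : TA Γ X) {g : Γ} {a : T} (h : Adq X a (g • a)) : g • a = a := by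
  exact (h.resolve_right fun k => hT.noinv g _ _ k rfl).symm

theorem ta_of {S : Set U} {ty : T → U} (h : TAct Γ X K S ty N) : TA Γ X := by
  refine ⟨h.tree, h.adj, fun g a b k e => ?_⟩
  have := h.tadj a b k
  rw [← e, h.inv] at this
  exact K.irrefl this

theorem ty_inj {S : Set U} {ty : T → U} (h : TAct Γ X K S ty N) {a b : T} (hab : Adq X a b)
    (he : ty a = ty b) : a = b := by
  refine hab.resolve_right fun k => ?_
  have := h.tadj a b k
  rw [he] at this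
  exact K.irrefl this

theorem Unb.mono {ε : Y → T} {S S' : Set Y} (h : Unb X ε S) (hS : S ⊆ S') : Unb X ε S' := by
  exact fun x n => (h x n).imp fun v k => ⟨hS k.1, k.2⟩

theorem Unb.infinite {ε : Y → T} {S : Set Y} [Nonempty T] (h : Unb X ε S) : S.Infinite := by
  intro hf
  obtain ⟨x⟩ := ‹Nonempty T›
  obtain ⟨n, hn⟩ := (hf.image fun v => X.dist (ε v) x).bddAbove
  obtain ⟨v, h1, h2⟩ := h x (n + 1)
  have := hn ⟨v, h1, rfl⟩
  dsimp only at this
  omega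

theorem unb_of_base (hX : X.IsTree) {ε : Y → T} {S : Set Y} (x : T)
    (h : ∀ n, ∃ v ∈ S, n ≤ X.dist (ε v) x) : Unb X ε S := by
  intro y n
  obtain ⟨v, h1, h2⟩ := h (n + X.dist y x)
  have := tdist_tri hX (ε v) y x
  exact ⟨v, h1, by omega⟩

/-- Preimages of half trees have unbounded colours. -/
theorem Deep.unb (hT : TA Γ X) (hD : Deep Γ X) {ε : Y → T} (hm : ∀ (g : Γ), ∀ y ∈ A, g • y ∈ A)
    (hn : A.Nonempty) (he : Eqv Γ A ε) {x y : T} (h : X.Adj x y) : Unb X ε (HS A X ε x y) := by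
  obtain ⟨v, hv⟩ := hn
  refine unb_of_base hT.tree x fun n => ?_
  obtain ⟨g, h1, h2⟩ := hD x y h (ε v) n
  rw [← he g v hv] at h1 h2
  exact ⟨g • v, ⟨hm g v hv, h1⟩, h2⟩

end Pool.Agent.MP_6374aa_g.BE

end

section

/-! Consequences of the properties of the two trees. -/

namespace Pool.Agent.MP_6374aa_g.BE

open Pool.Agent.MP_6374aa_gt Classical Pointwise

variable {Γ : Type} [Group Γ] {Y V V' T T' U : Type} [MulAction Γ Y] [MulAction Γ T]
  [MulAction Γ T'] {GY : SimpleGraph Y} {AY A : Set Y} {G H : SimpleGraph V} {F : Set V}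
  {q : Y → V} {X : SimpleGraph T} {X' : SimpleGraph T'} {K : SimpleGraph U} {B Hi : Set U}
  {N Nm Np : Subgroup Γ} {L : Type} [Group L]

theorem tetra (hK : Two K B Hi) {s : Finset U} (hs : s ∈ sA K B) :
    ∃ a a' b b', a ∈ B ∩ Hi ∧ a' ∈ B ∩ Hi ∧ b ∈ B \ Hi ∧ b' ∈ B \ Hi ∧ K.Adj a a' ∧ K.Adj b b' ∧
      K.Adj a b ∧ K.Adj a b' ∧ K.Adj a' b ∧ K.Adj a' b' ∧
      ∀ u ∈ s, u = a ∨ u = a' ∨ u = b ∨ u = b' := by
  obtain ⟨v, hv⟩ := hs.1
  obtain ⟨t, ht, hst, hc, -⟩ := Mfa.pure hK.cl.2.2 (s := s) hs.2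
    ⟨v, hv, hs.2.1 (Finset.mem_coe.2 hv)⟩
  have h1 := hK.two t ⟨hs.1.mono hst, ht⟩ hc
  have h2 : (t.filter fun u => ¬ u ∈ Hi).card = 2 := by
    have := Finset.card_filter_add_card_filter_not (s := t) (fun u => u ∈ Hi)
    omega
  obtain ⟨a, a', n1, e1⟩ := Finset.card_eq_two.1 h1
  obtain ⟨b, b', n2, e2⟩ := Finset.card_eq_two.1 h2
  have m1 : ∀ u, u ∈ t ∧ u ∈ Hi ↔ u = a ∨ u = a' := fun u => by
    rw [← Finset.mem_singleton (a := a'), ← Finset.mem_insert, ← e1, Finset.mem_filter]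
  have m2 : ∀ u, u ∈ t ∧ u ∉ Hi ↔ u = b ∨ u = b' := fun u => by
    rw [← Finset.mem_singleton (a := b'), ← Finset.mem_insert, ← e2, Finset.mem_filter]
  have ha := (m1 a).2 (Or.inl rfl)
  have ha' := (m1 a').2 (Or.inr rfl)
  have hb := (m2 b).2 (Or.inl rfl)
  have hb' := (m2 b').2 (Or.inr rfl)
  have hB : ∀ u ∈ t, u ∈ B := fun u hu => ht.1 (Finset.mem_coe.2 hu)
  have adj : ∀ u ∈ t, ∀ w ∈ t, u ≠ w → K.Adj u w := fun u hu w hw n =>
    ht.2 (Finset.mem_coe.2 hu) (Finset.mem_coe.2 hw) n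
  have ne : ∀ u w, u ∈ Hi → w ∉ Hi → u ≠ w := fun u w hu hw e => hw (e ▸ hu)
  refine ⟨a, a', b, b', ⟨hB _ ha.1, ha.2⟩, ⟨hB _ ha'.1, ha'.2⟩, ⟨hB _ hb.1, hb.2⟩,
    ⟨hB _ hb'.1, hb'.2⟩, adj _ ha.1 _ ha'.1 n1, adj _ hb.1 _ hb'.1 n2,
    adj _ ha.1 _ hb.1 (ne _ _ ha.2 hb.2), adj _ ha.1 _ hb'.1 (ne _ _ ha.2 hb'.2),
    adj _ ha'.1 _ hb.1 (ne _ _ ha'.2 hb.2), adj _ ha'.1 _ hb'.1 (ne _ _ ha'.2 hb'.2),
    fun u hu => ?_⟩
  by_cases h : u ∈ Hi
  · rcases (m1 u).1 ⟨hst hu, h⟩ with e | e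
    · exact Or.inl e
    · exact Or.inr (Or.inl e)
  · exact Or.inr (Or.inr ((m2 u).1 ⟨hst hu, h⟩))

theorem edg_finite (hK : Two K B Hi) {S : Set U} (hS : S ⊆ B) : (edg K S).Finite := by
  exact (sA_finite (hK.cl.1.subset hS)).subset fun e he => he.1

theorem simplex_cases (hK : Two K B Hi) {s : Finset U} (hs : s ∈ sA K B) (h2 : 2 ≤ s.card) :
    s ∈ edg K (B ∩ Hi) ∨ s ∈ edg K (B \ Hi) ∨ (Meets s Hi ∧ ¬ ↑s ⊆ Hi) := by
  obtain ⟨a, a', b, b', ha, ha', hb, hb', -, -, -, -, -, -, h⟩ := tetra hK hs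
  have card : ∀ c c' : U, (∀ u ∈ s, u = c ∨ u = c') → s.card = 2 := fun c c' k =>
    le_antisymm ((Finset.card_le_card (t := {c, c'}) fun u hu => by simpa using k u hu).trans
      Finset.card_le_two) h2
  by_cases h3 : ↑s ⊆ Hi
  · refine Or.inl ⟨⟨hs.1, Set.subset_inter hs.2.1 h3, hs.2.2⟩, card a a' fun u hu => ?_⟩
    have := h3 (Finset.mem_coe.2 hu)
    rcases h u hu with e | e | rfl | rfl
    · exact Or.inl e
    · exact Or.inr e
    · exact (hb.2 this).elim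
    · exact (hb'.2 this).elim
  · by_cases h4 : Meets s Hi
    · exact Or.inr (Or.inr ⟨h4, h3⟩)
    · have h5 : ∀ u ∈ s, u ∉ Hi := fun u hu k => h4 ⟨u, hu, k⟩
      refine Or.inr (Or.inl ⟨⟨hs.1, fun u hu => ⟨hs.2.1 hu, h5 u (Finset.mem_coe.1 hu)⟩, hs.2.2⟩,
        card b b' fun u hu => ?_⟩)
      rcases h u hu with rfl | rfl | e
      · exact (h5 _ hu ha.2).elim
      · exact (h5 _ hu ha'.2).elim
      · exact e

theorem cr_symm1 {x x' : T} {y y' : T'} (h : Cr Γ X X' x x' y y') : Cr Γ X X' x' x y y' := by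
  obtain ⟨h1, h2, h3, h4⟩ := h
  refine ⟨h1.symm, h2, fun n => ?_, fun n => ?_⟩
  · obtain ⟨g, k1, k2, k⟩ := h3 n
    exact ⟨g, k2, k1, k⟩
  · obtain ⟨g, k1, k2, k⟩ := h4 n
    exact ⟨g, k2, k1, k⟩

theorem cr_symm2 (hT : TA Γ X') {x x' : T} {y y' : T'} (h : Cr Γ X X' x x' y y') :
    Cr Γ X X' x x' y' y := by
  obtain ⟨h1, h2, h3, h4⟩ := h
  have d1 : X'.dist y y' = 1 := SimpleGraph.dist_eq_one_iff_adj.2 h2
  have d2 : X'.dist y' y = 1 := SimpleGraph.dist_eq_one_iff_adj.2 h2.symm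
  have far : ∀ (g : Γ) n, n + 2 ≤ X'.dist (g • y) y → n ≤ X'.dist (g • y') y' := by
    intro g n k
    have t1 := tdist_tri hT.tree (g • y) (g • y') y
    have t2 := tdist_tri hT.tree (g • y') y' y
    have t3 := hT.dist_smul g y y'
    omega
  refine ⟨h1, h2.symm, fun n => ?_, fun n => ?_⟩
  · obtain ⟨g, k1, k2, k3, k4⟩ := h4 (n + 2)
    refine ⟨g, k1, k2, near_deep hT.tree h2.symm k3 ?_, far g n k4⟩
    have t3 := hT.dist_smul g y y'
    have t4 := half_dist hT.tree h2.symm k3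
    omega
  · obtain ⟨g, k1, k2, k3, k4⟩ := h3 (n + 2)
    refine ⟨g, k1, k2, near_deep hT.tree h2 k3 ?_, far g n k4⟩
    have t3 := hT.dist_smul g y y'
    omega

theorem cr_smul (hT : TA Γ X) (hT' : TA Γ X') (g : Γ) {x x' : T} {y y' : T'}
    (h : Cr Γ X X' x x' y y') : Cr Γ X X' (g • x) (g • x') (g • y) (g • y') := by
  obtain ⟨h1, h2, h3, h4⟩ := h
  refine ⟨hT.adj g _ _ h1, hT'.adj g _ _ h2, fun n => ?_, fun n => ?_⟩
  · obtain ⟨k, k1, k2, k3, k4⟩ := h3 n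
    refine ⟨g * k * g⁻¹, ?_⟩
    simp only [mul_smul, inv_smul_smul, k1, k2, hT'.half_smul, hT'.dist_smul]
    exact ⟨trivial, trivial, k3, k4⟩
  · obtain ⟨k, k1, k2, k3, k4⟩ := h4 n
    refine ⟨g * k * g⁻¹, ?_⟩
    simp only [mul_smul, inv_smul_smul, k1, k2, hT'.half_smul, hT'.dist_smul]
    exact ⟨trivial, trivial, k3, k4⟩

theorem ex1_Tm0 (M : TM K B Hi Γ Nm Np) (hK : Two K B Hi) {u v : U} (hu : u ∈ B ∩ Hi)
    (hv : v ∈ B ∩ Hi) (h : K.Adj u v) :
    ∃ x x' y y', Cr Γ M.X1 M.X2 x x' y y' ∧ M.ty1 x = u ∧ M.ty1 x' = v := by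
  obtain ⟨a, a', b, b', -, -, hb, hb', -, h2, h3, h4, h5, h6, k⟩ :=
    tetra hK (pair_mem_sA hu.1 hv.1 (Or.inr h))
  have key : ∀ c ∈ ({u, v} : Finset U), c ∈ Hi → K.Adj c b ∧ K.Adj c b' := fun c hc hH => by
    rcases k c hc with rfl | rfl | rfl | rfl
    · exact ⟨h3, h4⟩
    · exact ⟨h5, h6⟩
    · exact (hb.2 hH).elim
    · exact (hb'.2 hH).elim
  have k1 := key u (by simp) hu.2
  have k2 := key v (by simp) hv.2
  obtain ⟨x, x', y, y', hc, e1, e2, -⟩ := M.ex u hu v hv b hb b' hb' h h2 k1.1 k1.2 k2.1 k2.2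
  exact ⟨x, x', y, y', hc, e1, e2⟩

theorem ex2_Tm0 (M : TM K B Hi Γ Nm Np) (hK : Two K B Hi) {u v : U} (hu : u ∈ B \ Hi)
    (hv : v ∈ B \ Hi) (h : K.Adj u v) :
    ∃ x x' y y', Cr Γ M.X1 M.X2 x x' y y' ∧ M.ty2 y = u ∧ M.ty2 y' = v := by
  obtain ⟨a, a', b, b', ha, ha', -, -, h1, -, h3, h4, h5, h6, k⟩ :=
    tetra hK (pair_mem_sA hu.1 hv.1 (Or.inr h))
  have key : ∀ c ∈ ({u, v} : Finset U), c ∉ Hi → K.Adj a c ∧ K.Adj a' c := fun c hc hH => by
    rcases k c hc with rfl | rfl | rfl | rfl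
    · exact (hH ha.2).elim
    · exact (hH ha'.2).elim
    · exact ⟨h3, h5⟩
    · exact ⟨h4, h6⟩
  have k1 := key u (by simp) hu.2
  have k2 := key v (by simp) hv.2
  obtain ⟨x, x', y, y', hc, -, -, e1, e2⟩ :=
    M.ex a ha a' ha' u hu v hv h1 h k1.1 k2.1 k1.2 k2.2
  exact ⟨x, x', y, y', hc, e1, e2⟩

theorem ex0_Tm0 (M : TM K B Hi Γ Nm Np) (hK : Two K B Hi) :
    ∃ x x' y y', Cr Γ M.X1 M.X2 x x' y y' := by
  obtain ⟨v, hv⟩ := hK.cl.2.1.1
  obtain ⟨a, a', b, b', ha, ha', -, -, h1, -⟩ := tetra hK (singleton_mem_sA.2 hv)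
  obtain ⟨x, x', y, y', hc, -⟩ := ex1_Tm0 M hK ha ha' h1
  exact ⟨x, x', y, y', hc⟩

theorem edg_pair_Tm0 {S : Set U} {e : Finset U} (he : e ∈ edg K S) :
    ∃ u v, u ∈ S ∧ v ∈ S ∧ K.Adj u v ∧ ∀ a, a ∈ e ↔ a = u ∨ a = v := by
  obtain ⟨u, v, n, rfl⟩ := Finset.card_eq_two.1 he.2
  have hu : u ∈ (({u, v} : Finset U) : Set U) := by simp
  have hv : v ∈ (({u, v} : Finset U) : Set U) := by simp
  exact ⟨u, v, he.1.2.1 hu, he.1.2.1 hv, he.1.2.2 hu hv n, fun a => by simp⟩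

theorem nbr_Tm0 {T : Type} {X : SimpleGraph T} (hX : X.IsTree) {z z' : T} (h : X.Adj z z')
    (x : T) : ∃ x', X.Adj x x' := by
  by_cases e : x = z
  · exact ⟨z', e ▸ h⟩
  · obtain ⟨y, hy, -⟩ := exists_step hX e
    exact ⟨y, hy⟩

theorem cr_of_adj1 (M : TM K B Hi Γ Nm Np) (hK : Two K B Hi) {x x' : M.T1} (h : M.X1.Adj x x') :
    ∃ y y', Cr Γ M.X1 M.X2 x x' y y' := by
  obtain ⟨z, z', w, w', hc, e1, e2⟩ :=
    ex1_Tm0 M hK (M.act1.mem x) (M.act1.mem x') (M.act1.tadj _ _ h)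
  obtain ⟨g, rfl, rfl⟩ := M.act1.tre z z' x x' hc.1 h e1 e2
  exact ⟨_, _, cr_smul (ta_of M.act1) (ta_of M.act2) g hc⟩

theorem cr_of_adj2 (M : TM K B Hi Γ Nm Np) (hK : Two K B Hi) {y y' : M.T2} (h : M.X2.Adj y y') :
    ∃ x x', Cr Γ M.X1 M.X2 x x' y y' := by
  obtain ⟨z, z', w, w', hc, e1, e2⟩ :=
    ex2_Tm0 M hK (M.act2.mem y) (M.act2.mem y') (M.act2.tadj _ _ h)
  obtain ⟨g, rfl, rfl⟩ := M.act2.tre w w' y y' hc.2.1 h e1 e2
  exact ⟨_, _, cr_smul (ta_of M.act1) (ta_of M.act2) g hc⟩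

theorem edge1 (M : TM K B Hi Γ Nm Np) (hK : Two K B Hi) {e : Finset U} (he : e ∈ edg K (B ∩ Hi)) :
    ∃ x x', M.X1.Adj x x' ∧ ∀ a, a ∈ e ↔ a = M.ty1 x ∨ a = M.ty1 x' := by
  obtain ⟨u, v, hu, hv, huv, hm⟩ := edg_pair_Tm0 he
  obtain ⟨z, z', w, w', hc, rfl, rfl⟩ := ex1_Tm0 M hK hu hv huv
  exact ⟨z, z', hc.1, hm⟩

theorem edge2 (M : TM K B Hi Γ Nm Np) (hK : Two K B Hi) {e : Finset U} (he : e ∈ edg K (B \ Hi)) :
    ∃ y y', M.X2.Adj y y' ∧ ∀ a, a ∈ e ↔ a = M.ty2 y ∨ a = M.ty2 y' := by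
  obtain ⟨u, v, hu, hv, huv, hm⟩ := edg_pair_Tm0 he
  obtain ⟨z, z', w, w', hc, rfl, rfl⟩ := ex2_Tm0 M hK hu hv huv
  exact ⟨w, w', hc.2.1, hm⟩

theorem nbr1 (M : TM K B Hi Γ Nm Np) (hK : Two K B Hi) (x : M.T1) : ∃ x', M.X1.Adj x x' := by
  obtain ⟨z, z', w, w', hc⟩ := ex0_Tm0 M hK
  exact nbr_Tm0 M.act1.tree hc.1 x

theorem nbr2 (M : TM K B Hi Γ Nm Np) (hK : Two K B Hi) (y : M.T2) : ∃ y', M.X2.Adj y y' := by
  obtain ⟨z, z', w, w', hc⟩ := ex0_Tm0 M hK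
  exact nbr_Tm0 M.act2.tree hc.2.1 y

theorem nofix1 (M : TM K B Hi Γ Nm Np) {y y' : M.T2} (h : M.X2.Adj y y') :
    ∃ g : Γ, g • y = y ∧ g • y' = y' ∧ ∀ z : M.T1, g • z ≠ z := by
  obtain ⟨c, h1, h2⟩ := M.act2.cyc y y' h
  obtain ⟨k1, k2⟩ := (h2 c).2 (Subgroup.mem_zpowers c)
  exact ⟨c, k1, k2, fun z e => h1 (M.free21 c y y' z h k1 k2 e)⟩

theorem nofix2 (M : TM K B Hi Γ Nm Np) {x x' : M.T1} (h : M.X1.Adj x x') :
    ∃ g : Γ, g • x = x ∧ g • x' = x' ∧ ∀ z : M.T2, g • z ≠ z := by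
  obtain ⟨c, h1, h2⟩ := M.act1.cyc x x' h
  obtain ⟨k1, k2⟩ := (h2 c).2 (Subgroup.mem_zpowers c)
  exact ⟨c, k1, k2, fun z e => h1 (M.free12 c x x' z h k1 k2 e)⟩

end Pool.Agent.MP_6374aa_g.BE

end

section

/-! Consequences of the axioms of the two trees. -/

namespace Pool.Agent.MP_6374aa_g.BE

open Pool.Agent.MP_6374aa_gt Classical Pointwise

variable {Γ : Type} [Group Γ] {Y V V' T T' U : Type} [MulAction Γ Y] [MulAction Γ T]
  [MulAction Γ T'] {GY : SimpleGraph Y} {AY A : Set Y} {G H : SimpleGraph V} {F : Set V}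
  {q : Y → V} {X : SimpleGraph T} {X' : SimpleGraph T'} {K : SimpleGraph U} {B Hi : Set U}
  {N Nm Np : Subgroup Γ} {L : Type} [Group L]

theorem fourth_Tm (hK : Two K B Hi) {a b b' : U} (m1 : a ∈ B ∩ Hi) (m2 : b ∈ B \ Hi)
    (m3 : b' ∈ B \ Hi) (e1 : K.Adj a b) (e2 : K.Adj a b') (e3 : K.Adj b b') (c : U) :
    ∃ d, d ∈ B ∧ K.Adj a d ∧ K.Adj b d ∧ K.Adj b' d ∧ d ∈ Hi ∧ d ≠ c := by
  have hs : Clq K B ({a, b, b'} : Finset U) := by
    refine ⟨?_, ?_⟩
    · intro u hu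
      simp only [Finset.coe_insert, Finset.coe_singleton, Set.mem_insert_iff,
        Set.mem_singleton_iff] at hu
      rcases hu with rfl | rfl | rfl
      exacts [m1.1, m2.1, m3.1]
    · intro u hu v hv huv
      simp only [Finset.coe_insert, Finset.coe_singleton, Set.mem_insert_iff,
        Set.mem_singleton_iff] at hu hv
      rcases hu with rfl | rfl | rfl <;> rcases hv with rfl | rfl | rfl <;>
        first | exact absurd rfl huv | assumption | (symm; assumption)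
  have hc : ({a, b, b'} : Finset U).card = 3 :=
    Finset.card_eq_three.2 ⟨a, b, b', e1.ne, e2.ne, e3.ne, rfl⟩
  obtain ⟨-, h2⟩ := Mfa.link hK.cl.2.2 hs ⟨a, by simp, m1.1⟩
  rw [hc] at h2
  have h3 : (Lk K B (({a, b, b'} : Finset U) : Set U)).ncard = 2 := by
    refine h2.2.1.resolve_left fun e => ?_
    have k : sub ∅ (({a, b, b'} : Finset U) ∪ ∅) := h2.2.2.1.2 ((if_pos rfl).mpr e)
    exact k (show a ∈ _ by simp)
  obtain ⟨d, hd, hne⟩ := Set.exists_ne_of_one_lt_ncard (by rw [h3]; norm_num :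
    1 < (Lk K B (({a, b, b'} : Finset U) : Set U)).ncard) c
  have f1 : K.Adj a d := hd.2 a (by simp)
  have f2 : K.Adj b d := hd.2 b (by simp)
  have f3 : K.Adj b' d := hd.2 b' (by simp)
  refine ⟨d, hd.1, f1, f2, f3, by_contra fun hi => ?_, hne⟩
  have hd' : d ∉ ({a, b, b'} : Finset U) := by
    simp only [Finset.mem_insert, Finset.mem_singleton, not_or]
    exact ⟨f1.ne', f2.ne', f3.ne'⟩
  have ht : insert d ({a, b, b'} : Finset U) ∈ sA K B := by
    refine ⟨Finset.insert_nonempty _ _, ?_, ?_⟩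
    · rw [Finset.coe_insert]
      exact Set.insert_subset hd.1 hs.1
    · rw [Finset.coe_insert]
      exact hs.2.insert fun u hu _ => (hd.2 u hu).symm
  have h4 := hK.two _ ht (by rw [Finset.card_insert_of_notMem hd', hc])
  have h5 := Finset.card_le_card (show (insert d ({a, b, b'} : Finset U)).filter (· ∈ Hi) ⊆ {a} from
    fun u hu => by
      obtain ⟨k1, k2⟩ := Finset.mem_filter.1 hu
      simp only [Finset.mem_insert, Finset.mem_singleton] at k1 ⊢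
      rcases k1 with rfl | rfl | rfl | rfl
      exacts [absurd k2 hi, rfl, absurd k2 m2.2, absurd k2 m3.2])
  rw [h4, Finset.card_singleton] at h5
  omega

theorem noleaf1 (M : TM K B Hi Γ Nm Np) (hK : Two K B Hi) {x x' : M.T1} (h : M.X1.Adj x x') :
    ∃ z, M.X1.Adj x' z ∧ z ≠ x := by
  obtain ⟨y, y', c⟩ := cr_of_adj1 M hK h
  have c1 := cr_symm1 c
  have e1 : K.Adj (M.ty1 x') (M.ty2 y) := M.cadj _ _ _ _ c1
  have e2 : K.Adj (M.ty1 x') (M.ty2 y') := M.cadj _ _ _ _ (cr_symm2 (ta_of M.act2) c1)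
  have e3 : K.Adj (M.ty2 y) (M.ty2 y') := M.act2.tadj _ _ c.2.1
  have m1 := M.act1.mem x'
  have m2 := M.act2.mem y
  have m3 := M.act2.mem y'
  obtain ⟨a, ha, f1, f2, f3, hi, hne⟩ := fourth_Tm hK m1 m2 m3 e1 e2 e3 (M.ty1 x)
  obtain ⟨z, z2, w, w2, d, t1, t2, t3, -⟩ :=
    M.ex _ m1 a ⟨ha, hi⟩ _ m2 _ m3 f1 e3 e1 e2 f2.symm f3.symm
  obtain ⟨g, g1, -⟩ := M.tr _ _ _ _ _ _ _ _ d c1 t1 t3
  refine ⟨g • z2, g1 ▸ M.act1.adj g _ _ d.1, fun e => hne ?_⟩
  rw [← e, M.act1.inv, t2]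

theorem deep1 (M : TM K B Hi Γ Nm Np) (hK : Two K B Hi) : Deep Γ M.X1 := by
  intro x y h z n
  have hT := ta_of M.act1
  have key : ∀ e : U × U, ∃ r : ℕ, ∀ v v', M.X1.Adj v v' → M.ty1 v = e.1 → M.ty1 v' = e.2 →
      ∃ g : Γ, M.X1.dist v (g • z) ≤ r := fun e => by
    by_cases k : ∃ p p', M.X1.Adj p p' ∧ M.ty1 p = e.1 ∧ M.ty1 p' = e.2
    · obtain ⟨p, p', k1, k2, k3⟩ := k
      refine ⟨M.X1.dist p z, fun v v' a1 a2 a3 => ?_⟩
      obtain ⟨g, g1, -⟩ := M.act1.tre p p' v v' k1 a1 (k2.trans a2.symm) (k3.trans a3.symm)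
      exact ⟨g, by rw [← g1, hT.dist_smul]⟩
    · exact ⟨0, fun v v' a1 a2 a3 => absurd ⟨v, v', a1, a2, a3⟩ k⟩
  choose r hr using key
  obtain ⟨R, hR⟩ := ((hK.cl.1.prod hK.cl.1).image r).bddAbove
  obtain ⟨v, hv, hd⟩ := deep_of_noleaf hT.tree (fun _ _ k => noleaf1 M hK k) h (n + R + 1)
  obtain ⟨v', hv'⟩ := nbr1 M hK v
  obtain ⟨g, hg⟩ := hr (M.ty1 v, M.ty1 v') v v' hv' rfl rfl
  have hb : r (M.ty1 v, M.ty1 v') ≤ R :=
    hR ⟨_, ⟨(M.act1.mem v).1, (M.act1.mem v').1⟩, rfl⟩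
  have tri := tdist_tri hT.tree v (g • z) x
  exact ⟨g, near_deep hT.tree h hv (by omega), by omega⟩

theorem deep2 (M : TM K B Hi Γ Nm Np) (hK : Two K B Hi) : Deep Γ M.X2 := by
  intro y y' h z n
  have hT := ta_of M.act2
  obtain ⟨x, x', c⟩ := cr_of_adj2 M hK h
  obtain ⟨g, -, -, g1, g2⟩ := c.2.2.1 (n + M.X2.dist y z + 1)
  have e := hT.dist_smul g y z
  have tri := tdist_tri hT.tree (g • y) (g • z) y
  exact ⟨g, near_deep hT.tree h g1 (by omega), by omega⟩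

end Pool.Agent.MP_6374aa_g.BE

end

section

/-! Regions and lines. -/

namespace Pool.Agent.MP_6374aa_g.BE

open Pool.Agent.MP_6374aa_gt Classical Pointwise

variable {Γ : Type} [Group Γ] {Y V V' T T' U : Type} [MulAction Γ Y] [MulAction Γ T]
  [MulAction Γ T'] {GY : SimpleGraph Y} {AY A : Set Y} {G H : SimpleGraph V} {F : Set V}
  {q : Y → V} {X : SimpleGraph T} {X' : SimpleGraph T'} {K : SimpleGraph U} {B Hi : Set U}
  {N Nm Np : Subgroup Γ} {L : Type} [Group L]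

theorem AS0.mono {α : Y → Set T} (h : AS0 GY A X α) {S : Set Y} (hS : S ⊆ A) : AS0 GY S X α := by
  exact ⟨fun v hv => h.shape v (hS hv), fun u hu w hw => h.cmp u (hS hu) w (hS hw)⟩

theorem AS0.nonempty {α : Y → Set T} (h : AS0 GY A X α) {v : Y} (hv : v ∈ A) : (α v).Nonempty := by
  rcases h.shape v hv with ⟨x, e⟩ | ⟨x, y, -, e⟩ <;> exact ⟨x, by simp [e]⟩

theorem AS0.adq {α : Y → Set T} (h : AS0 GY A X α) {v : Y} (hv : v ∈ A) {x y : T} (hx : x ∈ α v)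
    (hy : y ∈ α v) : Adq X x y := by
  rcases h.shape v hv with ⟨a, e⟩ | ⟨a, b, k, e⟩
  · rw [e] at hx hy
    exact Or.inl (hx.trans hy.symm)
  · rw [e] at hx hy
    rcases hx with rfl | rfl <;> rcases hy with rfl | rfl
    exacts [Or.inl rfl, Or.inr k, Or.inr k.symm, Or.inl rfl]

theorem AS0.eq_pair {α : Y → Set T} (h : AS0 GY A X α) {v : Y} (hv : v ∈ A) {x y : T}
    (hx : x ∈ α v) (hy : y ∈ α v) (hxy : x ≠ y) : α v = {x, y} := by
  rcases h.shape v hv with ⟨a, e⟩ | ⟨a, b, k, e⟩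
  · rw [e] at hx hy
    exact absurd (hx.trans hy.symm) hxy
  · rw [e] at hx hy ⊢
    rcases hx with rfl | rfl <;> rcases hy with rfl | rfl
    exacts [absurd rfl hxy, rfl, Set.pair_comm _ _, absurd rfl hxy]

theorem AS0.clopen_ln {α : Y → Set T} (h : AS0 GY A X α) {x y : T} (hxy : x ≠ y) :
    Clopen GY (A ∩ Bd α) (Ln A α x y) := by
  refine ⟨fun v hv => ⟨hv.1, x, y, hxy, hv.2⟩, fun a ha b hb k => ⟨hb.1, ?_⟩⟩
  rcases h.cmp a ha.1 b hb.1 k with e | e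
  · exact ⟨e ha.2.1, e ha.2.2⟩
  · obtain ⟨x', y', k1, k2, k3⟩ := hb.2
    rw [h.eq_pair hb.1 k2 k3 k1, ← h.eq_pair ha.1 (e k2) (e k3) k1]
    exact ha.2

theorem region_pre (hX : X.IsTree) {α : Y → Set T} (h : AS0 GY A X α) (hp : Pre GY A) (x : T)
    (hl : ∀ y, X.Adj x y → Pre GY (Ln A α x y)) : Pre GY (Rg A α x) := by
  intro a ha b hb
  have key : ∀ b, Reach GY A a b → (x ∈ α b ∧ Reach GY (Rg A α x) a b) ∨
      ∃ y, X.Adj x y ∧ α b ⊆ half X x y ∧ ∃ c ∈ Ln A α x y, Reach GY (Rg A α x) a c := by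
    intro b hab
    induction hab with
    | refl => exact Or.inl ⟨ha.2, Reach.refl a⟩
    | @tail u w _ k ih =>
      obtain ⟨hu, hw, k⟩ := k
      have hc := h.cmp u hu w hw k
      rcases ih with ⟨k1, k2⟩ | ⟨y, k1, k2, c, k3, k4⟩
      · by_cases e : x ∈ α w
        · exact Or.inl ⟨e, k2.trans (Reach.single ⟨hu, k1⟩ ⟨hw, e⟩ (Or.inr k))⟩
        · have k3 := hc.resolve_left fun k3 => e (k3 k1)
          obtain ⟨y, hy⟩ := h.nonempty hw
          have k4 : x ≠ y := fun k4 => e (k4 ▸ hy)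
          have k5 := (h.adq hu k1 (k3 hy)).resolve_left k4
          refine Or.inr ⟨y, k5, fun z hz => ?_, u, ⟨hu, k1, k3 hy⟩, k2⟩
          have k6 := k3 hz
          rw [h.eq_pair hu k1 (k3 hy) k4] at k6
          rcases k6 with rfl | rfl
          · exact absurd hz e
          · exact right_mem_half hX k5
      · obtain ⟨z, hz⟩ := h.nonempty hu
        by_cases e : x ∈ α w
        · have k5 := hc.resolve_right fun k5 => left_not_mem_half x y (k2 (k5 e))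
          have k6 := (cross hX k1 (h.adq hw (k5 hz) e) (k2 hz) (left_not_mem_half x y)).1
          exact Or.inl ⟨e, k4.trans ((hl y k1 c k3 w ⟨hw, e, k6 ▸ k5 hz⟩).mono
            fun v hv => ⟨hv.1, hv.2.1⟩)⟩
        · refine Or.inr ⟨y, k1, ?_, c, k3, k4⟩
          rcases hc with k5 | k5
          · intro t ht
            by_contra k6
            exact e ((cross hX k1 (h.adq hw (k5 hz) ht) (k2 hz) k6).2 ▸ ht)
          · exact k5.trans k2
  rcases key b (hp a ha.1 b hb.1) with k | ⟨y, -, k, -⟩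
  · exact k.2
  · exact absurd (k hb.2) (left_not_mem_half x y)

theorem region_triv {α : Y → Set T} (h : AS0 GY A X α) (ht : Triv L GY A) (x : T)
    (hl : ∀ y, X.Adj x y → Triv L GY (Ln A α x y)) : Triv L GY (Rg A α x) := by
  have h1 : ∀ u ∈ A, ∀ w ∈ A, Adq GY u w → α u = {x} → w ∈ Rg A α x := by
    intro u hu w hw k e
    refine ⟨hw, ?_⟩
    rcases k with rfl | k
    · simp [e]
    rcases h.cmp u hu w hw k with k1 | k1
    · exact k1 (by simp [e])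
    · obtain ⟨z, hz⟩ := h.nonempty hw
      have k2 := k1 hz
      rw [e] at k2
      exact k2 ▸ hz
  refine triv_of_cov2 (X2 := {v | v ∈ A ∧ α v ≠ {x}}) ⟨fun v hv => hv.1, fun v hv => hv.1,
    fun u hu v hv w hw k1 k2 k3 => ?_⟩ ht (triv_of_cmp fun a ha => ?_)
  · by_cases e1 : α u = {x}
    · exact Or.inl ⟨h1 u hu u hu (adq_refl u) e1, h1 u hu v hv k1 e1, h1 u hu w hw k3 e1⟩
    by_cases e2 : α v = {x}
    · exact Or.inl ⟨h1 v hv u hu (adq_symm k1) e2, h1 v hv v hv (adq_refl v) e2,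
        h1 v hv w hw k2 e2⟩
    by_cases e3 : α w = {x}
    · exact Or.inl ⟨h1 w hw u hu (adq_symm k3) e3, h1 w hw v hv (adq_symm k2) e3,
        h1 w hw w hw (adq_refl w) e3⟩
    exact Or.inr ⟨⟨hu, e1⟩, ⟨hv, e2⟩, hw, e3⟩
  · have h2 : ∀ v ∈ Rg A α x ∩ {v | v ∈ A ∧ α v ≠ {x}}, ∃ y, x ≠ y ∧ y ∈ α v := by
      intro v hv
      by_contra k
      exact hv.2.2 (Set.eq_singleton_iff_unique_mem.2 ⟨hv.1.2, fun y hy => by
        by_contra k1
        exact k ⟨y, fun k2 => k1 k2.symm, hy⟩⟩)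
    obtain ⟨y, k1, k2⟩ := h2 a ha
    have h3 : Clopen GY (Rg A α x ∩ {v | v ∈ A ∧ α v ≠ {x}}) (Ln A α x y) := by
      refine ⟨fun v hv => ⟨⟨hv.1, hv.2.1⟩, hv.1, fun e => ?_⟩, fun u hu w hw k => ?_⟩
      · have k3 := hv.2.2
        rw [e] at k3
        exact k1 k3.symm
      · obtain ⟨z, k3, k4⟩ := h2 w hw
        exact (h.clopen_ln k1).2 u hu w ⟨hw.1.1, x, z, k3, hw.1.2, k4⟩ k
    rw [← h3.cmp_eq ⟨ha.1.1, ha.1.2, k2⟩]
    exact (hl y ((h.adq ha.1.1 ha.1.2 k2).resolve_left k1)).clopen (clopen_cmp a)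

end Pool.Agent.MP_6374aa_g.BE

end

section

/-! Regions and lines. -/

namespace Pool.Agent.MP_6374aa_g.BE

open Pool.Agent.MP_6374aa_gt Classical Pointwise

variable {Γ : Type} [Group Γ] {Y V V' T T' U : Type} [MulAction Γ Y] [MulAction Γ T]
  [MulAction Γ T'] {GY : SimpleGraph Y} {AY A : Set Y} {G H : SimpleGraph V} {F : Set V}
  {q : Y → V} {X : SimpleGraph T} {X' : SimpleGraph T'} {K : SimpleGraph U} {B Hi : Set U}
  {N Nm Np : Subgroup Γ} {L : Type} [Group L]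

theorem Hm.adq {ε : Y → T} (h : Hm GY A X ε) {u w : Y} (hu : u ∈ A) (hw : w ∈ A)
    (huw : Adq GY u w) : Adq X (ε u) (ε w) := by
  rcases huw with rfl | e
  · exact adq_refl _
  · exact h u hu w hw e

theorem Hm.mono {ε : Y → T} (h : Hm GY A X ε) {S : Set Y} (hS : S ⊆ A) : Hm GY S X ε := by
  exact fun u hu w hw => h u (hS hu) w (hS hw)

theorem as0_cols (hX : X.IsTree) {ε : Y → T} (h : Hm GY A X ε) :
    AS0 (sG Y) (sA GY A) X (cols ε) := by
  refine ⟨fun s hs => clique_shape hX ?_ ?_, fun s _ t _ e => ?_⟩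
  · obtain ⟨v, hv⟩ := hs.1
    exact ⟨ε v, v, hv, rfl⟩
  · rintro _ ⟨u, hu, rfl⟩ _ ⟨w, hw, rfl⟩
    exact h.adq (hs.2.1 hu) (hs.2.1 hw) ((mem_sA.1 hs).2.2 u hu w hw)
  · exact e.imp (fun e _ ⟨v, hv, k⟩ => ⟨v, e.1 hv, k⟩) fun e _ ⟨v, hv, k⟩ => ⟨v, e.1 hv, k⟩

theorem ln_cols (hX : X.IsTree) {ε : Y → T} (h : Hm GY A X ε) {x y : T} (hxy : X.Adj x y) :
    Ln (sA GY A) (cols ε) x y = fr GY A (ε ⁻¹' half X x y) := by
  ext s
  constructor
  · rintro ⟨hs, ⟨u, hu, e1⟩, w, hw, e2⟩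
    refine ⟨hs, ⟨w, hw, ?_⟩, fun k => left_not_mem_half (X := X) x y ?_⟩
    · rw [Set.mem_preimage, e2]
      exact right_mem_half hX hxy
    · have k1 : ε u ∈ half X x y := k hu
      rwa [e1] at k1
  · rintro ⟨hs, ⟨u, hu, k1⟩, k2⟩
    obtain ⟨w, hw, k3⟩ := Set.not_subset.1 k2
    have k4 := cross hX hxy (h.adq (hs.2.1 hu) (hs.2.1 hw) ((mem_sA.1 hs).2.2 u hu w hw)) k1 k3
    exact ⟨hs, ⟨w, hw, k4.2⟩, u, hu, k4.1⟩

theorem rg_cols (ε : Y → T) (x : T) : Rg (sA GY A) (cols ε) x = nb GY A (ε ⁻¹' {x}) := by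
  rfl

theorem HP.pre_ln (hX : X.IsTree) {ε : Y → T} (h : Hm GY A X ε) (hp : HP GY A X ε)
    (hn : NDC GY A) {x y : T} (hxy : X.Adj x y) : Pre (sG Y) (Ln (sA GY A) (cols ε) x y) := by
  rw [ln_cols hX h hxy]
  refine fr_pre hn (hp x y hxy) ?_
  have e : A \ ε ⁻¹' half X x y = HS A X ε y x :=
    Set.ext fun v => and_congr_right fun _ => not_half_iff hX hxy
  rw [e]
  exact hp y x hxy.symm

theorem ln_cols_nonempty (hX : X.IsTree) {ε : Y → T} (h : Hm GY A X ε) (hp : Pre GY A) {x y : T}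
    (hxy : X.Adj x y) (h1 : (HS A X ε x y).Nonempty) (h2 : (HS A X ε y x).Nonempty) :
    (Ln (sA GY A) (cols ε) x y).Nonempty := by
  obtain ⟨a, ha⟩ := h1
  obtain ⟨b, hb⟩ := h2
  obtain ⟨u, hu, w, hw, e, -⟩ := (hp a ha.1 b hb.1).exit (X := ε ⁻¹' half X x y) ha
    (half_asymm hb.2)
  rw [ln_cols hX h hxy]
  exact ⟨{u, w}, pair_mem_sA hu.1 hw.1 (Or.inr e), ⟨u, by simp, hu.2⟩, fun k => hw.2 (k (by simp))⟩

theorem as0_itr {α : Y → Set T} (h : AS0 GY A X α) : AS0 (sG Y) (sA GY A) X (itr α) := by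
  refine ⟨fun s hs => ?_, fun s _ t _ e => ?_⟩
  · obtain ⟨v, hv, hm⟩ := s.exists_min_image (fun v => (α v).ncard) hs.1
    have e : itr α s = α v := by
      refine Set.Subset.antisymm (fun z hz => hz v hv) fun z hz w hw => ?_
      rcases (mem_sA.1 hs).2.2 v hv w hw with rfl | k
      · exact hz
      · rcases h.cmp v (hs.2.1 hv) w (hs.2.1 hw) k with k1 | k1
        · exact k1 hz
        · have hf : (α v).Finite := by
            rcases h.shape v (hs.2.1 hv) with ⟨x, e⟩ | ⟨x, y, -, e⟩ <;> rw [e] <;> simp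
          rw [Set.eq_of_subset_of_ncard_le k1 (hm w hw) hf]
          exact hz
    rw [e]
    exact h.shape v (hs.2.1 hv)
  · exact e.symm.imp (fun e _ k v hv => k v (e.1 hv)) fun e _ k v hv => k v (e.1 hv)

theorem ln_itr (α : Y → Set T) (x y : T) :
    Ln (sA GY A) (itr α) x y = sA GY (Ln A α x y) := by
  ext s
  constructor
  · rintro ⟨hs, h1, h2⟩
    exact ⟨hs.1, fun v hv => ⟨hs.2.1 hv, h1 v hv, h2 v hv⟩, hs.2.2⟩
  · intro hs
    exact ⟨⟨hs.1, fun v hv => (hs.2.1 hv).1, hs.2.2⟩, fun v hv => (hs.2.1 hv).2.1,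
      fun v hv => (hs.2.1 hv).2.2⟩

theorem rg_itr (α : Y → Set T) (x : T) : Rg (sA GY A) (itr α) x = sA GY (Rg A α x) := by
  ext s
  constructor
  · rintro ⟨hs, h1⟩
    exact ⟨hs.1, fun v hv => ⟨hs.2.1 hv, h1 v hv⟩, hs.2.2⟩
  · intro hs
    exact ⟨⟨hs.1, fun v hv => (hs.2.1 hv).1, hs.2.2⟩, fun v hv => (hs.2.1 hv).2⟩

theorem AS.ln_sco {α : Y → Set T} (h : AS Γ GY A X α) {x y : T} (hxy : X.Adj x y) :
    SCo GY (Ln A α x y) := by
  exact line_sco (h.line x y hxy).1 (h.line x y hxy).2.1.2 (h.line x y hxy).2.2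

theorem AS.rg_con (hX : X.IsTree) {α : Y → Set T} (h : AS Γ GY A X α) (hp : Pre GY A) {x y : T}
    (hxy : X.Adj x y) : Con GY (Rg A α x) := by
  obtain ⟨v, hv⟩ := (h.line x y hxy).2.1.1
  exact ⟨⟨v, hv.1, hv.2.1⟩, region_pre hX h.toAS0 hp x fun z hz => (h.line x z hz).2.1.2⟩

theorem AS.rg_sco {α : Y → Set T} (h : AS Γ GY A X α) (hs : SCo GY A) (x : T) :
    SCo GY (Rg A α x) := by
  exact fun L _ => region_triv h.toAS0 (hs L) x fun y hy => h.ln_sco hy L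

theorem AS.smul_mem (hA : Act Γ GY AY) {α : Y → Set T} (h : AS Γ GY AY X α) {g : Γ} {v : Y}
    (hv : v ∈ AY) {z : T} : g • z ∈ α (g • v) ↔ z ∈ α v := by
  refine ⟨fun k => ?_, h.eqv g v hv z⟩
  have k1 := h.eqv g⁻¹ _ (hA.mem g v hv) _ k
  rwa [inv_smul_smul, inv_smul_smul] at k1

theorem AS.ln_smul (hA : Act Γ GY AY) {α : Y → Set T} (h : AS Γ GY AY X α) {g : Γ} {x y : T}
    (hx : g • x = x) (hy : g • y = y) {v : Y} (hv : v ∈ Ln AY α x y) : g • v ∈ Ln AY α x y := by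
  exact ⟨hA.mem g v hv.1, hx ▸ h.eqv g v hv.1 x hv.2.1, hy ▸ h.eqv g v hv.1 y hv.2.2⟩

theorem AS.ln_stab (hT : TA Γ X) {α : Y → Set T} (h : AS Γ GY AY X α) {g : Γ} {x y : T}
    {v : Y} (hv : v ∈ Ln AY α x y) (hg : g • v ∈ Ln AY α x y) : g • x = x ∧ g • y = y := by
  exact ⟨hT.fix (h.toAS0.adq hg.1 hg.2.1 (h.eqv g v hv.1 x hv.2.1)),
    hT.fix (h.toAS0.adq hg.1 hg.2.2 (h.eqv g v hv.1 y hv.2.2))⟩

end Pool.Agent.MP_6374aa_g.BE

end

section

/-! Coverings given by free actions. -/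

namespace Pool.Agent.MP_6374aa_g.BE

open Pool.Agent.MP_6374aa_gt Classical Pointwise

variable {Γ : Type} [Group Γ] {Y V V' T T' U : Type} [MulAction Γ Y] [MulAction Γ T]
  [MulAction Γ T'] {GY : SimpleGraph Y} {AY A : Set Y} {G H : SimpleGraph V} {F : Set V}
  {q : Y → V} {X : SimpleGraph T} {X' : SimpleGraph T'} {K : SimpleGraph U} {B Hi : Set U}
  {N Nm Np : Subgroup Γ} {L : Type} [Group L]

theorem mem_smul_fin {g : Γ} {s : Finset Y} {v : Y} : v ∈ g • s ↔ ∃ u ∈ s, g • u = v := by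
  exact Finset.mem_smul_finset

theorem smul_mem_smul_fin {g : Γ} {s : Finset Y} {v : Y} : g • v ∈ g • s ↔ v ∈ s := by
  exact Finset.smul_mem_smul_finset_iff g

theorem Act.adq (h : Act Γ GY AY) (g : Γ) {u w : Y} (huw : Adq GY u w) : Adq GY (g • u) (g • w) := by
  exact huw.imp (congrArg (g • ·)) (h.adj g u w)

theorem Act.smul_sA (h : Act Γ GY AY) (g : Γ) {s : Finset Y} (hs : s ∈ sA GY AY) :
    g • s ∈ sA GY AY := by
  obtain ⟨⟨x, hx⟩, h2, h3⟩ := mem_sA.1 hs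
  refine mem_sA.2 ⟨⟨g • x, smul_mem_smul_fin.2 hx⟩, fun v hv => ?_, fun u hu w hw => ?_⟩
  · obtain ⟨u, hu, rfl⟩ := mem_smul_fin.1 (Finset.mem_coe.1 hv)
    exact h.mem g u (h2 hu)
  · obtain ⟨u', hu', rfl⟩ := mem_smul_fin.1 hu
    obtain ⟨w', hw', rfl⟩ := mem_smul_fin.1 hw
    exact h.adq g (h3 u' hu' w' hw')

theorem sG_smul (g : Γ) {s t : Finset Y} (h : (sG Y).Adj s t) : (sG Y).Adj (g • s) (g • t) := by
  have key : ∀ {s t : Finset Y}, s ⊂ t → g • s ⊂ g • t := fun {s t} k => by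
    obtain ⟨x, x1, x2⟩ := Finset.exists_of_ssubset k
    refine Finset.ssubset_iff_subset_ne.2 ⟨fun v hv => ?_, fun e => x2 ?_⟩
    · obtain ⟨u, hu, rfl⟩ := mem_smul_fin.1 hv
      exact smul_mem_smul_fin.2 (k.1 hu)
    · exact (smul_mem_smul_fin (g := g)).1 (e ▸ smul_mem_smul_fin.2 x1)
  exact h.imp key key

theorem Act.reach (h : Act Γ GY AY) (g : Γ) {S S' : Set Y} (hS : ∀ v ∈ S, g • v ∈ S') {u w : Y}
    (huw : Reach GY S u w) : Reach GY S' (g • u) (g • w) := by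
  induction huw with
  | refl => exact Reach.refl _
  | tail _ k ih => exact ih.tail ⟨hS _ k.1, hS _ k.2.1, h.adj g _ _ k.2.2⟩

theorem Act.sub (h : Act Γ GY AY) (J : Subgroup Γ) : Act J GY AY := by
  exact ⟨fun g => h.mem g.1, fun g => h.adj g.1, fun g y hy e => Subtype.ext (h.free g.1 y hy e)⟩

theorem Cv.hom (h : Cv Γ GY AY G F q) : IsHom GY AY G F q := by
  exact ⟨h.mem, fun a ha b hb k => Or.inr (h.adj a ha b hb k)⟩

theorem Cv.inj (h : Cv Γ GY AY G F q) {t : Finset Y} (ht : t ∈ sA GY AY) :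
    Set.InjOn q (t : Set Y) := by
  intro u hu w hw e
  by_contra c
  exact G.irrefl (e ▸ h.adj u (ht.2.1 hu) w (ht.2.1 hw) (ht.2.2 hu hw c))

theorem Cv.uniq' (h : Cv Γ GY AY G F q) {y y1 y2 : Y} (hy : y ∈ AY) (h1 : y1 ∈ AY) (h2 : y2 ∈ AY)
    (a1 : Adq GY y y1) (a2 : Adq GY y y2) (he : q y1 = q y2) : y1 = y2 := by
  rcases a1 with rfl | a1 <;> rcases a2 with rfl | a2
  · rfl
  · exact absurd (he ▸ h.adj _ hy _ h2 a2) G.irrefl
  · exact absurd (he ▸ h.adj _ hy _ h1 a1) G.irrefl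
  · exact h.uniq y hy y1 h1 y2 h2 a1 a2 he

theorem Cv.surj (h : Cv Γ GY AY G F q) {a : V} (ha : a ∈ F) : ∃ y ∈ AY, q y = a := by
  obtain ⟨t, ht, e⟩ := h.lift {a} (singleton_mem_sA.2 ha)
  obtain ⟨y, hy, k⟩ := Finset.mem_image.1 (e ▸ Finset.mem_singleton_self a : a ∈ t.image q)
  exact ⟨y, ht.2.1 hy, k⟩

theorem Cv.image_smul (h : Cv Γ GY AY G F q) (g : Γ) {t : Finset Y} (ht : t ∈ sA GY AY) :
    (g • t).image q = t.image q := by
  ext v
  simp only [Finset.mem_image]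
  constructor
  · rintro ⟨x, hx, rfl⟩
    obtain ⟨u, hu, rfl⟩ := mem_smul_fin.1 hx
    exact ⟨u, hu, (h.inv g u (ht.2.1 hu)).symm⟩
  · rintro ⟨u, hu, rfl⟩
    exact ⟨g • u, smul_mem_smul_fin.2 hu, h.inv g u (ht.2.1 hu)⟩

theorem Cv.lift_at (hA : Act Γ GY AY) (h : Cv Γ GY AY G F q) {y : Y} (hy : y ∈ AY) {s : Finset V}
    (hs : s ∈ sA G F) (hys : q y ∈ s) : ∃ t ∈ sA GY AY, y ∈ t ∧ t.image q = s := by
  obtain ⟨t, ht, e⟩ := h.lift s hs
  obtain ⟨x, hx, k⟩ := Finset.mem_image.1 (e ▸ hys : q y ∈ t.image q)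
  obtain ⟨g, rfl⟩ := h.orb x (ht.2.1 hx) y hy k
  exact ⟨g • t, hA.smul_sA g ht, smul_mem_smul_fin.2 hx, (h.image_smul g ht).trans e⟩

theorem Cv.lift_adq (hA : Act Γ GY AY) (h : Cv Γ GY AY G F q) {y : Y} (hy : y ∈ AY) {w : V}
    (hw : w ∈ F) (ha : Adq G (q y) w) : ∃ y' ∈ AY, Adq GY y y' ∧ q y' = w := by
  obtain ⟨t, ht, k, e⟩ := h.lift_at hA hy (pair_mem_sA (h.mem y hy) hw ha)
    (Finset.mem_insert_self _ _)
  obtain ⟨x, hx, k'⟩ := Finset.mem_image.1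
    (e ▸ Finset.mem_insert_of_mem (Finset.mem_singleton_self w) : w ∈ t.image q)
  exact ⟨x, ht.2.1 hx, (mem_sA.1 ht).2.2 y k x hx, k'⟩

theorem Cv.lift_wk (hA : Act Γ GY AY) (h : Cv Γ GY AY G F q) {a b : V} {l : List V}
    (hw : Wk G F a l b) {y : Y} (hy : y ∈ AY) (hq : q y = a) :
    ∃ l' y', Wk GY AY y l' y' ∧ l'.map q = l ∧ q y' = b := by
  induction hw generalizing y with
  | nil _ => exact ⟨[], y, Wk.nil hy, rfl, hq⟩
  | cons _ k hw ih =>
    obtain ⟨x, x1, x2, x3⟩ := h.lift_adq hA hy hw.mem_left (hq ▸ k)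
    obtain ⟨l', y', k1, k2, k3⟩ := ih x1 x3
    exact ⟨x :: l', y', Wk.cons hy x2 k1, by rw [List.map_cons, x3, k2], k3⟩

end Pool.Agent.MP_6374aa_g.BE

end

section

/-! Coverings given by free actions. -/

namespace Pool.Agent.MP_6374aa_g.BE

open Pool.Agent.MP_6374aa_gt Classical Pointwise

variable {Γ : Type} [Group Γ] {Y V V' T T' U : Type} [MulAction Γ Y] [MulAction Γ T]
  [MulAction Γ T'] {GY : SimpleGraph Y} {AY A : Set Y} {G H : SimpleGraph V} {F : Set V}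
  {q : Y → V} {X : SimpleGraph T} {X' : SimpleGraph T'} {K : SimpleGraph U} {B Hi : Set U}
  {N Nm Np : Subgroup Γ} {L : Type} [Group L]

theorem share_Cov (h : Cv Γ GY AY G F q) {s t : Finset Y} (hs : s ∈ sA GY AY) (ht : t ∈ sA GY AY)
    {v : Y} (hvs : v ∈ s) (hvt : v ∈ t) (he : s.image q ⊆ t.image q) : s ⊆ t := by
  intro x hx
  obtain ⟨x', hx', e⟩ := Finset.mem_image.1 (he (Finset.mem_image_of_mem q hx))
  have := h.uniq' (hs.2.1 hvs) (ht.2.1 hx') (hs.2.1 hx) ((mem_sA.1 ht).2.2 v hvt x' hx')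
    ((mem_sA.1 hs).2.2 v hvs x hx) e
  exact this ▸ hx'

theorem share'_Cov (h : Cv Γ GY AY G F q) {s t : Finset Y} (hs : s ∈ sA GY AY)
    (ht : t ∈ sA GY AY) {v : Y} (hvs : v ∈ s) (hvt : v ∈ t) (he : s.image q = t.image q) : s = t :=
  Finset.Subset.antisymm (share_Cov h hs ht hvs hvt he.le) (share_Cov h ht hs hvt hvs he.ge)

theorem inside_Cov (h : Cv Γ GY AY G F q) {s s' t : Finset Y} (ht : t ∈ sA GY AY) (hs : s ⊆ t)
    (hs' : s' ⊆ t) (he : s.image q ⊆ s'.image q) : s ⊆ s' := by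
  intro x hx
  obtain ⟨x', hx', e⟩ := Finset.mem_image.1 (he (Finset.mem_image_of_mem q hx))
  have := h.inj ht (hs' hx') (hs hx) e
  exact this ▸ hx'

theorem ssub_Cov (h : Cv Γ GY AY G F q) {s t : Finset Y} (ht : t ∈ sA GY AY) (hs : s ⊂ t) :
    s.image q ⊂ t.image q :=
  ⟨Finset.image_subset_image hs.1, fun he => hs.2 (inside_Cov h ht subset_rfl hs.1 he)⟩

theorem Act.sd (hA : Act Γ GY AY) (h : Cv Γ GY AY G F q) : Act Γ (sG Y) (sA GY AY) := by
  refine ⟨fun g s hs => hA.smul_sA g hs, fun g s t hst => sG_smul g hst, fun g s hs e => ?_⟩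
  obtain ⟨v, hv⟩ := hs.1
  have h1 : g • v ∈ s := by
    rw [← e]
    exact smul_mem_smul_fin.2 hv
  exact hA.free g v (hs.2.1 hv) (h.inj hs h1 hv (h.inv g v (hs.2.1 hv)))

theorem Cv.sd (hA : Act Γ GY AY) (h : Cv Γ GY AY G F q) :
    Cv Γ (sG Y) (sA GY AY) (sG V) (sA G F) (Finset.image q) := by
  refine ⟨fun s hs => IsHom.image_mem h.hom hs, ?_, fun g s hs => h.image_smul g hs, ?_, ?_, ?_⟩
  · rintro s hs t ht (h1 | h1)
    · exact Or.inl (ssub_Cov h ht h1)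
    · exact Or.inr (ssub_Cov h hs h1)
  · intro s hs t ht e
    obtain ⟨v, hv⟩ := hs.1
    have h1 : q v ∈ t.image q := e ▸ Finset.mem_image_of_mem q hv
    obtain ⟨w, hw, e1⟩ := Finset.mem_image.1 h1
    obtain ⟨g, rfl⟩ := h.orb v (hs.2.1 hv) w (ht.2.1 hw) e1.symm
    exact ⟨g, share'_Cov h ht (hA.smul_sA g hs) hw (smul_mem_smul_fin.2 hv)
      (e.symm.trans (h.image_smul g hs).symm)⟩
  · rintro s hs s1 hs1 s2 hs2 (h1 | h1) (h2 | h2) e
    · obtain ⟨v, hv⟩ := hs.1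
      exact share'_Cov h hs1 hs2 (h1.1 hv) (h2.1 hv) e
    · obtain ⟨v, hv⟩ := hs2.1
      exact share'_Cov h hs1 hs2 (h1.1 (h2.1 hv)) hv e
    · obtain ⟨v, hv⟩ := hs1.1
      exact share'_Cov h hs1 hs2 hv (h2.1 (h1.1 hv)) e
    · exact Finset.Subset.antisymm (inside_Cov h hs h1.1 h2.1 e.le)
        (inside_Cov h hs h2.1 h1.1 e.ge)
  · intro σ hσ
    obtain ⟨t, ht, e⟩ := h.lift _ (hσ.2.1 (Finset.mem_coe.2 (top_mem hσ)))
    have h1 : ∀ s ∈ σ, (t.filter fun x => q x ∈ s).image q = s := by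
      intro s hs
      ext a
      rw [Finset.mem_image]
      refine ⟨fun ⟨x, hx, ex⟩ => ex ▸ (Finset.mem_filter.1 hx).2, fun ha => ?_⟩
      have h2 : a ∈ t.image q := e ▸ subset_top hs ha
      obtain ⟨x, hx, rfl⟩ := Finset.mem_image.1 h2
      exact ⟨x, Finset.mem_filter.2 ⟨hx, ha⟩, rfl⟩
    refine ⟨σ.image fun s => t.filter fun x => q x ∈ s, mem_sA.2 ⟨hσ.1.image _, ?_, ?_⟩, ?_⟩
    · intro r hr
      obtain ⟨s, hs, rfl⟩ := Finset.mem_image.1 (Finset.mem_coe.1 hr)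
      refine sA_down ht (Finset.filter_subset _ _) ?_
      have h2 : s.Nonempty := (hσ.2.1 (Finset.mem_coe.2 hs)).1
      rw [← h1 s hs] at h2
      exact h2.of_image
    · intro r hr r' hr'
      obtain ⟨s, hs, rfl⟩ := Finset.mem_image.1 hr
      obtain ⟨s', hs', rfl⟩ := Finset.mem_image.1 hr'
      refine adq_sG.2 ((adq_sG.1 ((mem_sA.1 hσ).2.2 s hs s' hs')).imp ?_ ?_)
      · exact fun h2 x hx => Finset.mem_filter.2
          ⟨(Finset.mem_filter.1 hx).1, h2 (Finset.mem_filter.1 hx).2⟩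
      · exact fun h2 x hx => Finset.mem_filter.2
          ⟨(Finset.mem_filter.1 hx).1, h2 (Finset.mem_filter.1 hx).2⟩
    · ext s
      refine Iff.trans (@Finset.mem_image _ _ (_) _ _ _) ?_
      constructor
      · rintro ⟨r, hr, rfl⟩
        obtain ⟨s, hs, rfl⟩ := Finset.mem_image.1 hr
        rw [h1 s hs]
        exact hs
      · exact fun hs => ⟨_, Finset.mem_image_of_mem _ hs, h1 s hs⟩

theorem Cv.comp {G' : SimpleGraph V'} {F' : Set V'} {p : V → V'} (h : Cv Γ GY AY G F q)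
    (hp : IsIso G F G' F' p) : Cv Γ GY AY G' F' (p ∘ q) := by
  refine ⟨fun y hy => hp.1.mapsTo (h.mem y hy), fun y hy y' hy' a =>
    (hp.2 _ (h.mem y hy) _ (h.mem y' hy')).1 (h.adj y hy y' hy' a),
    fun g y hy => congrArg p (h.inv g y hy),
    fun y hy y' hy' e => h.orb y hy y' hy' (hp.1.injOn (h.mem y hy) (h.mem y' hy') e),
    fun y hy y1 h1 y2 h2 a1 a2 e =>
      h.uniq y hy y1 h1 y2 h2 a1 a2 (hp.1.injOn (h.mem y1 h1) (h.mem y2 h2) e), fun s hs => ?_⟩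
  obtain ⟨r, hr, rfl⟩ := (IsIso.sd hp).1.surjOn hs
  obtain ⟨t, ht, rfl⟩ := h.lift r hr
  exact ⟨t, ht, Finset.image_image.symm⟩

theorem Cv.congr {q' : Y → V} (hA : Act Γ GY AY) (h : Cv Γ GY AY G F q)
    (he : ∀ y ∈ AY, q' y = q y) : Cv Γ GY AY G F q' := by
  refine ⟨fun y hy => he y hy ▸ h.mem y hy, fun y hy y' hy' a => ?_, fun g y hy => ?_,
    fun y hy y' hy' e => h.orb y hy y' hy' ?_,
    fun y hy y1 h1 y2 h2 a1 a2 e => h.uniq y hy y1 h1 y2 h2 a1 a2 ?_, fun s hs => ?_⟩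
  · rw [he y hy, he y' hy']
    exact h.adj y hy y' hy' a
  · rw [he _ (hA.mem g y hy), he y hy]
    exact h.inv g y hy
  · rw [← he y hy, ← he y' hy', e]
  · rw [← he y1 h1, ← he y2 h2, e]
  · obtain ⟨t, ht, rfl⟩ := h.lift s hs
    exact ⟨t, ht, Finset.image_congr fun x hx => he x (ht.2.1 hx)⟩

theorem mem_lk_Cov {W : Type} {G : SimpleGraph W} {A : Set W} {v w : W} :
    w ∈ Lk G A {v} ↔ w ∈ A ∧ G.Adj v w := by
  simp [Lk]

theorem Cv.lk_iso (hA : Act Γ GY AY) (h : Cv Γ GY AY G F q) {y : Y} (hy : y ∈ AY) :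
    IsIso GY (Lk GY AY {y}) G (Lk G F {q y}) q := by
  refine ⟨⟨fun w hw => ?_, fun a ha b hb e => ?_, fun w hw => ?_⟩, fun a ha b hb => ?_⟩
  · obtain ⟨h1, h2⟩ := mem_lk_Cov.1 hw
    exact mem_lk_Cov.2 ⟨h.mem w h1, h.adj y hy w h1 h2⟩
  · obtain ⟨a1, a2⟩ := mem_lk_Cov.1 ha
    obtain ⟨b1, b2⟩ := mem_lk_Cov.1 hb
    exact h.uniq y hy a a1 b b1 a2 b2 e
  · obtain ⟨h1, h2⟩ := mem_lk_Cov.1 hw
    obtain ⟨y', hy', a, rfl⟩ := h.lift_adq hA hy h1 (Or.inr h2)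
    refine ⟨y', mem_lk_Cov.2 ⟨hy', a.resolve_left ?_⟩, rfl⟩
    rintro rfl
    exact G.irrefl h2
  · obtain ⟨a1, a2⟩ := mem_lk_Cov.1 ha
    obtain ⟨b1, b2⟩ := mem_lk_Cov.1 hb
    refine ⟨h.adj a a1 b b1, fun hab => ?_⟩
    have c1 : Adq G (q y) (q a) := Or.inr (h.adj y hy a a1 a2)
    have c2 : Adq G (q y) (q b) := Or.inr (h.adj y hy b b1 b2)
    have c3 : Adq G (q a) (q b) := Or.inr hab
    have hs : ({q y, q a, q b} : Finset V) ∈ sA G F := by
      refine mem_sA.2 ⟨⟨q y, by simp⟩, ?_, ?_⟩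
      · intro x hx
        simp only [Finset.coe_insert, Finset.coe_singleton, Set.mem_insert_iff,
          Set.mem_singleton_iff] at hx
        rcases hx with rfl | rfl | rfl
        exacts [h.mem _ hy, h.mem _ a1, h.mem _ b1]
      · intro u hu w hw
        simp only [Finset.mem_insert, Finset.mem_singleton] at hu hw
        rcases hu with rfl | rfl | rfl <;> rcases hw with rfl | rfl | rfl <;>
          first | exact adq_refl _ | assumption | exact adq_symm ‹_›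
    obtain ⟨t, ht, hyt, e⟩ := h.lift_at hA hy hs (by simp)
    have key : ∀ x ∈ AY, GY.Adj y x → q x ∈ ({q y, q a, q b} : Finset V) → x ∈ t := by
      intro x hx ax hq
      rw [← e] at hq
      obtain ⟨x', hx', e'⟩ := Finset.mem_image.1 hq
      have := h.uniq' hy (ht.2.1 hx') hx ((mem_sA.1 ht).2.2 y hyt x' hx') (Or.inr ax) e'
      exact this ▸ hx'
    refine ((mem_sA.1 ht).2.2 a (key a a1 a2 (by simp)) b (key b b1 b2 (by simp))).resolve_left ?_
    rintro rfl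
    exact G.irrefl hab

theorem Cv.mf (hA : Act Γ GY AY) (h : Cv Γ GY AY G F q) {d : ℕ} (hm : Mf GY d AY ∅) : Mf G d F ∅ := by
  refine mf_empty_iff.2 fun v hv => ?_
  obtain ⟨y, hy, rfl⟩ := h.surj hv
  exact (IsIso.sph (h.lk_iso hA hy)).1 (mf_empty_iff.1 hm y hy)

theorem image_Cov (h : Cv Γ GY AY G F q) : q '' AY = F :=
  Set.Subset.antisymm (by rintro _ ⟨y, hy, rfl⟩; exact h.mem y hy) fun _ ha => h.surj ha

theorem Cv.con (h : Cv Γ GY AY G F q) (hc : Con GY AY) : Con G F := by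
  have := hc.image h.hom
  rwa [image_Cov h] at this

theorem reps_Cov (h : Cv Γ GY AY G F q) (hf : F.Finite) {S : Set Y} (hS : S ⊆ AY) :
    ∃ S0 ⊆ S, S0.Finite ∧ ∀ v ∈ S, ∃ g : Γ, g • v ∈ S0 := by
  have h1 : (q '' S).Finite := hf.subset (by rintro _ ⟨y, hy, rfl⟩; exact h.mem y (hS hy))
  obtain ⟨S0, h2, h3, h4⟩ := h1.exists_subset_finite_image_eq (f := q) (s := S) subset_rfl
  refine ⟨S0, h2, h3, fun v hv => ?_⟩
  have h5 : q v ∈ q '' S0 := h4 ▸ Set.mem_image_of_mem q hv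
  obtain ⟨w, hw, e⟩ := h5
  obtain ⟨g, rfl⟩ := h.orb v (hS hv) w (hS (h2 hw)) e.symm
  exact ⟨g, hw⟩

/-- Finitely many orbits under a subgroup that contains every element moving a point of `S`
into `S`. -/
theorem Cv.cof (h : Cv Γ GY AY G F q) (hf : F.Finite) {S : Set Y} (hS : S ⊆ AY) {J : Subgroup Γ}
    (hJ : ∀ (g : Γ), ∀ v ∈ S, g • v ∈ S → g ∈ J) : CoF J S := by
  obtain ⟨S0, h1, h2, h3⟩ := reps_Cov h hf hS
  refine ⟨S0, h2, fun v hv => ?_⟩
  obtain ⟨g, hg⟩ := h3 v hv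
  exact ⟨g, hJ g v hv (h1 hg), hg⟩

theorem Cv.edges (hA : Act Γ GY AY) (h : Cv Γ GY AY G F q) (hf : F.Finite) :
    ∃ E0 : Set (Y × Y), E0.Finite ∧ ∀ u ∈ AY, ∀ w ∈ AY, GY.Adj u w → ∃ g : Γ, (g • u, g • w) ∈ E0 := by
  obtain ⟨S0, h1, h2, h3⟩ := reps_Cov h hf (subset_refl AY)
  refine ⟨{p | p.1 ∈ S0 ∧ p.2 ∈ AY ∧ GY.Adj p.1 p.2}, ?_, fun u hu w hw a => ?_⟩
  · refine Set.Finite.of_injOn (f := fun p => (p.1, q p.2)) (t := S0 ×ˢ F)
      (fun p hp => ⟨hp.1, h.mem _ hp.2.1⟩) ?_ (h2.prod hf)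
    rintro ⟨u, w⟩ ⟨a1, a2, a3⟩ ⟨u', w'⟩ ⟨b1, b2, b3⟩ e
    obtain ⟨e1, e2⟩ := Prod.mk.inj e
    obtain rfl : u = u' := e1
    rw [h.uniq u (h1 a1) w a2 w' b2 a3 b3 e2]
  · obtain ⟨g, hg⟩ := h3 u hu
    exact ⟨g, hg, hA.mem g w hw, hA.adj g u w a⟩

theorem CoF.mono {J : Subgroup Γ} {S S' : Set Y} (h : CoF J S) (hS : S' ⊆ S) : CoF J S' := by
  obtain ⟨S0, h1, h2⟩ := h
  exact ⟨S0, h1, fun v hv => h2 v (hS hv)⟩

theorem CoF.zpow {c : Γ} {S : Set Y} (h : CoF (Subgroup.zpowers c) S) {n : ℤ} (hn : n ≠ 0) :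
    CoF (Subgroup.zpowers (c ^ n)) S := by
  obtain ⟨S0, h1, h2⟩ := h
  refine ⟨Set.image2 (fun (r : ℤ) (x : Y) => c ^ (-r) • x) (Set.Ico 0 |n|) S0,
    (Set.finite_Ico _ _).image2 _ h1, fun v hv => ?_⟩
  obtain ⟨g, ⟨k, rfl⟩, hg⟩ := h2 v hv
  refine ⟨(c ^ n) ^ (k / n), Subgroup.zpow_mem_zpowers _ _, k % n,
    ⟨Int.emod_nonneg k hn, Int.emod_lt_abs k hn⟩, _, hg, ?_⟩
  have e : -(k % n) + k = n * (k / n) := by
    have := Int.emod_add_mul_ediv k n
    omega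
  change c ^ (-(k % n)) • c ^ k • v = _
  rw [← mul_smul, ← zpow_add, ← zpow_mul, e]

/-- Equivariant choice. -/
theorem Act.choice (hA : Act Γ GY AY) [Nonempty T] (R : Y → T → Prop)
    (h1 : ∀ y ∈ AY, ∃ t, R y t) (h2 : ∀ (g : Γ), ∀ y ∈ AY, ∀ t, R y t → R (g • y) (g • t)) :
    ∃ ε : Y → T, Eqv Γ AY ε ∧ ∀ y ∈ AY, R y (ε y) := by
  choose! τ hτ using h1
  obtain ⟨rep, r1, r2⟩ : ∃ rep : Y → Y, (∀ (g : Γ) y, rep (g • y) = rep y) ∧
      ∀ y, ∃ g : Γ, g • rep y = y := by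
    refine ⟨fun y => (Quotient.mk (MulAction.orbitRel Γ Y) y).out, fun g y => ?_, fun y => ?_⟩
    · exact congrArg Quotient.out (Quotient.sound (MulAction.mem_orbit y g))
    · exact (MulAction.orbitRel Γ Y).symm (Quotient.mk_out (s := MulAction.orbitRel Γ Y) y)
  choose γ hγ using r2
  have r3 : ∀ y ∈ AY, rep y ∈ AY := by
    intro y hy
    have e : rep y = (γ y)⁻¹ • y := eq_inv_smul_iff.2 (hγ y)
    rw [e]
    exact hA.mem _ y hy
  refine ⟨fun y => γ y • τ (rep y), fun g y hy => ?_, fun y hy => ?_⟩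
  · have e : ((g * γ y)⁻¹ * γ (g • y)) • rep y = rep y := by
      have e1 := hγ (g • y)
      rw [r1] at e1
      rw [mul_smul, e1, inv_smul_eq_iff, mul_smul, hγ]
    have e2 := hA.free _ _ (r3 y hy) e
    rw [inv_mul_eq_one] at e2
    change γ (g • y) • τ (rep (g • y)) = g • γ y • τ (rep y)
    rw [r1, ← e2, mul_smul]
  · have := h2 (γ y) _ (r3 y hy) _ (hτ _ (r3 y hy))
    rwa [hγ] at this

theorem Pl.sd (h : Pl GY AY) : Pl (sG Y) (sA GY AY) :=
  ⟨h.mf.sd_empty (by norm_num), con_sA.2 h.con, sco_sA.2 h.sco⟩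

end Pool.Agent.MP_6374aa_g.BE

end

section

/-! The lines of a good colouring. -/

namespace Pool.Agent.MP_6374aa_g.BE

open Pool.Agent.MP_6374aa_gt Classical Pointwise

variable {Γ : Type} [Group Γ] {Y V V' T T' U : Type} [MulAction Γ Y] [MulAction Γ T]
  [MulAction Γ T'] {GY : SimpleGraph Y} {AY A : Set Y} {G H : SimpleGraph V} {F : Set V}
  {q : Y → V} {X : SimpleGraph T} {X' : SimpleGraph T'} {K : SimpleGraph U} {B Hi : Set U}
  {N Nm Np : Subgroup Γ} {L : Type} [Group L]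

/-- A finite frontier cuts off a finite side. -/
theorem inf_Ini (hP : Pl GY AY) {Q : Set Y} (h1 : {v | v ∈ AY ∧ v ∈ Q}.Infinite)
    (h2 : {v | v ∈ AY ∧ v ∉ Q}.Infinite) : (fr GY AY Q).Infinite := by
  intro hf
  obtain ⟨δ, e1, e2⟩ : ∃ δ : Y → Y → Z2, Flat GY AY δ ∧ ∀ u w, δ u w = 1 ↔ (u ∈ Q ↔ w ∈ Q) :=
    ⟨fun u w => sg_B3 (u ∈ Q) * (sg_B3 (w ∈ Q))⁻¹, fun u _ v _ w _ _ _ _ => by group,
      fun u w => by rw [mul_inv_eq_one, sg_eq_B3]⟩
  have h3 : (⋃ s ∈ fr GY AY Q, (s : Set Y)).Finite := hf.biUnion fun s _ => s.finite_toSet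
  have h4 : FinSupp GY AY δ := by
    refine (h3.prod h3).subset ?_
    rintro ⟨u, w⟩ ⟨k1, k2, k3, k4⟩
    have a1 : u ∈ ({u, w} : Finset Y) := Finset.mem_insert_self _ _
    have a2 : w ∈ ({u, w} : Finset Y) := Finset.mem_insert_of_mem (Finset.mem_singleton_self _)
    have a3 := mem_fr_B3 (pair_mem_sA k1 k2 k3) a1 a2 fun e => k4 ((e2 u w).2 e)
    exact ⟨Set.mem_biUnion a3 a1, Set.mem_biUnion a3 a2⟩
  obtain ⟨S, hS, hc⟩ := fin_side hP.mf (hP.sco Z2) e1 h4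
  obtain ⟨a, ⟨a1, a2⟩, a3⟩ := h1.exists_notMem_finite hS
  obtain ⟨b, ⟨b1, b2⟩, b3⟩ := h2.exists_notMem_finite hS
  have h5 := hP.con.2.const (φ := fun v => (v ∈ S ↔ v ∈ Q)) (fun u hu w hw e => by
    have := (e2 u w).symm.trans (hc u hu w hw (Or.inr e))
    exact propext (by tauto)) a1 b1
  exact a3 ((h5.mpr (iff_of_false b3 b2)).2 a2)

theorem as_init (hA : Act Γ GY AY) (hP : Pl GY AY) (hT : TA Γ X) (hD : Deep Γ X) {ε : Y → T}
    (he : Eqv Γ AY ε) (hh : Hm GY AY X ε) (hp : HP GY AY X ε) :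
    AS Γ (sG Y) (sA GY AY) X (cols ε) := by
  refine ⟨as0_cols hT.tree hh, ?_, fun x y hxy => ?_, fun x => ?_⟩
  · rintro g s hs _ ⟨v, hv, rfl⟩
    exact ⟨g • v, smul_mem_smul_fin.2 hv, he g v (hs.2.1 hv)⟩
  · have : Nonempty T := ⟨x⟩
    have h1 := (Deep.unb hT hD hA.mem hP.con.1 he hxy).infinite
    have h2 := (Deep.unb hT hD hA.mem hP.con.1 he hxy.symm).infinite
    refine ⟨?_, ⟨ln_cols_nonempty hT.tree hh hP.con.2 hxy h1.nonempty h2.nonempty,
      HP.pre_ln hT.tree hh hp (hP.sco Z2) hxy⟩, ?_⟩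
    · rw [ln_cols hT.tree hh hxy]
      exact Mf.fr_empty hP.mf (by omega)
    · rw [ln_cols hT.tree hh hxy]
      exact inf_Ini hP h1 (h2.mono fun v hv => ⟨hv.1, half_asymm hv.2⟩)
  · rw [rg_cols]
    refine Mfa.congr (Mf.nb_empty (Q := ε ⁻¹' {x}) hP.mf (by omega)) (fun _ h => h) fun σ hσ =>
      forall₂_congr fun s hs => ?_
    obtain ⟨k1, v, k2, k3⟩ := hσ.2.1 hs
    constructor
    · rintro ⟨-, -, k4⟩
      obtain ⟨w, k5, k6⟩ := Set.not_subset.1 k4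
      exact ⟨ε w, x, k6, ⟨w, k5, rfl⟩, v, k2, k3⟩
    · rintro ⟨_, _, k4, ⟨u, k5, rfl⟩, w, k6, rfl⟩
      exact ⟨k1, ⟨v, k2, k3⟩, fun e => k4 ((e k5).trans (e k6).symm)⟩

end Pool.Agent.MP_6374aa_g.BE

end

section

/-! Properties kept by the subdivision. -/

namespace Pool.Agent.MP_6374aa_g.BE

open Pool.Agent.MP_6374aa_gt Classical Pointwise

variable {Γ : Type} [Group Γ] {Y V V' T T' U : Type} [MulAction Γ Y] [MulAction Γ T]
  [MulAction Γ T'] {GY : SimpleGraph Y} {AY A : Set Y} {G H : SimpleGraph V} {F : Set V}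
  {q : Y → V} {X : SimpleGraph T} {X' : SimpleGraph T'} {K : SimpleGraph U} {B Hi : Set U}
  {N Nm Np : Subgroup Γ} {L : Type} [Group L]

theorem pre_between {Q : Set Y} {S : Set (Finset Y)} (hp : Pre GY (A ∩ Q))
    (h1 : sA GY (A ∩ Q) ⊆ S) (h2 : S ⊆ nb GY A Q) : Pre (sG Y) S := by
  refine (pre_sA.2 hp).of_near h1 fun s hs => ?_
  obtain ⟨h3, v, hv, hQ⟩ := h2 hs
  have h4 : {v} ∈ sA GY (A ∩ Q) := singleton_mem_sA.2 ⟨h3.2.1 hv, hQ⟩
  exact ⟨{v}, h4, Reach.single hs (h1 h4) (adq_sG.2 (Or.inr (Finset.singleton_subset_iff.2 hv)))⟩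

theorem Hm.prop {ε : Y → T} {ε' : Finset Y → T} (h : Hm GY A X ε) (hp : Prop1 GY A ε ε') :
    Hm (sG Y) (sA GY A) X ε' := by
  intro s hs t ht hst
  obtain ⟨v, hv, e1⟩ := hp s hs
  obtain ⟨w, hw, e2⟩ := hp t ht
  rw [e1, e2]
  refine h.adq (hs.2.1 hv) (ht.2.1 hw) ?_
  rcases hst with c | c
  · exact (mem_sA.1 ht).2.2 v (c.1 hv) w hw
  · exact (mem_sA.1 hs).2.2 v hv w (c.1 hw)

theorem HP.prop {ε : Y → T} {ε' : Finset Y → T} (h : HP GY A X ε) (hp : Prop1 GY A ε ε') :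
    HP (sG Y) (sA GY A) X ε' := by
  intro x y hxy
  refine pre_between (A := A) (Q := ε ⁻¹' half X x y) (h x y hxy) (fun s hs => ?_) fun s hs => ?_
  · have h1 := sA_mono Set.inter_subset_left hs
    obtain ⟨v, hv, e⟩ := hp s h1
    exact ⟨h1, e ▸ (hs.2.1 hv).2⟩
  · obtain ⟨v, hv, e⟩ := hp s hs.1
    exact ⟨hs.1, v, hv, show ε v ∈ half X x y from e ▸ hs.2⟩

theorem GdL.prop {α : Y → Set T} {ε : Y → T'} {ε' : Finset Y → T'} (h : GdL GY A X α X' ε)
    (hp : ∀ s ∈ sA GY A, (∀ u ∈ s, ∀ w ∈ s, Adq X' (ε u) (ε w)) → ∃ v ∈ s, ε' s = ε v) :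
    GdL (sG Y) (sA GY A) X (itr α) X' ε' := by
  have key : ∀ x x', X.Adj x x' → Prop1 GY (Ln A α x x') ε ε' := fun x x' hx s hs =>
    hp s (sA_mono (fun v hv => hv.1) hs) fun u hu w hw =>
      (h.hm x x' hx).adq (hs.2.1 hu) (hs.2.1 hw) ((mem_sA.1 hs).2.2 u hu w hw)
  refine ⟨fun x x' hx => ?_, fun x x' hx => ?_, fun x x' hx y y' hy => ?_⟩
  · rw [ln_itr]
    exact (h.hm x x' hx).prop (key x x' hx)
  · rw [ln_itr]
    exact (h.hp x x' hx).prop (key x x' hx)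
  · rw [ln_itr]
    rintro ⟨s, hs⟩ z n
    obtain ⟨v, hv, e⟩ := key x x' hx s hs.1
    obtain ⟨w, hw, hn⟩ := h.unb x x' hx y y' hy ⟨v, hs.1.2.1 hv, e ▸ hs.2⟩ z n
    have h1 : {w} ∈ sA GY (Ln A α x x') := singleton_mem_sA.2 hw.1
    obtain ⟨u, hu, e'⟩ := key x x' hx _ h1
    rw [Finset.mem_singleton.1 hu] at e'
    exact ⟨{w}, ⟨h1, e' ▸ hw.2⟩, e' ▸ hn⟩

theorem GdL.congr {α : Y → Set T} {ε ε' : Y → T'} (h : GdL GY A X α X' ε)
    (he : ∀ v ∈ A ∩ Bd α, ε' v = ε v) : GdL GY A X α X' ε' := by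
  have key : ∀ x x', X.Adj x x' → ∀ v ∈ Ln A α x x', ε' v = ε v := fun x x' hx v hv =>
    he v ⟨hv.1, x, x', hx.ne, hv.2⟩
  have e : ∀ x x', X.Adj x x' → ∀ y y', HS (Ln A α x x') X' ε' y y' =
      HS (Ln A α x x') X' ε y y' := fun x x' hx y y' =>
    Set.ext fun v => and_congr_right fun hv => by rw [key x x' hx v hv]
  refine ⟨fun x x' hx u hu w hw huw => ?_, fun x x' hx y y' hy => ?_,
    fun x x' hx y y' hy => ?_⟩
  · rw [key x x' hx u hu, key x x' hx w hw]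
    exact h.hm x x' hx u hu w hw huw
  · rw [e x x' hx]
    exact h.hp x x' hx y y' hy
  · rw [e x x' hx]
    intro hn z n
    obtain ⟨v, hv, h1⟩ := h.unb x x' hx y y' hy hn z n
    exact ⟨v, hv, key x x' hx v hv.1 ▸ h1⟩

theorem AS.sd {α : Y → Set T} (h : AS Γ GY AY X α) : AS Γ (sG Y) (sA GY AY) X (itr α) := by
  refine ⟨as0_itr h.toAS0, fun g s hs z hz v hv => ?_, fun x y hxy => ?_, fun x => ?_⟩
  · obtain ⟨u, hu, rfl⟩ := mem_smul_fin.1 hv
    exact h.eqv g u (hs.2.1 hu) z (hz u hu)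
  · obtain ⟨h1, h2, h3⟩ := h.line x y hxy
    rw [ln_itr]
    refine ⟨h1.sd_empty (by omega), con_sA.2 h2,
      (h3.image (Finset.singleton_injective.injOn)).mono ?_⟩
    rintro _ ⟨v, hv, rfl⟩
    exact singleton_mem_sA.2 hv
  · rw [rg_itr]
    refine (IsIso.mf isIso_id fun s hs => ?_).2 ((h.reg x).sd (by omega))
    constructor
    · rintro ⟨a, b, hab, ha, hb⟩ v hv
      exact ⟨a, b, hab, ha v hv, hb v hv⟩
    · intro hb
      obtain ⟨v, hv⟩ := hs.1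
      obtain ⟨a, b, hab, ha, hb'⟩ := hb hv
      have key : ∀ w ∈ s, α v ⊆ α w := by
        intro w hw
        rcases (mem_sA.1 hs).2.2 v hv w hw with rfl | c
        · exact subset_rfl
        refine (h.cmp v (hs.2.1 hv).1 w (hs.2.1 hw).1 c).elim id fun c' => ?_
        obtain ⟨a', b', h1, h2, h3⟩ := hb hw
        rw [h.toAS0.eq_pair (hs.2.1 hv).1 (c' h2) (c' h3) h1]
        rintro z (rfl | rfl)
        · exact h2
        · exact h3
      exact ⟨a, b, hab, fun w hw => key w hw ha, fun w hw => key w hw hb'⟩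

end Pool.Agent.MP_6374aa_g.BE

end

section

/-! Properties kept by the subdivision. -/

namespace Pool.Agent.MP_6374aa_g.BE

open Pool.Agent.MP_6374aa_gt Classical Pointwise

variable {Γ : Type} [Group Γ] {Y V V' T T' U : Type} [MulAction Γ Y] [MulAction Γ T]
  [MulAction Γ T'] {GY : SimpleGraph Y} {AY A : Set Y} {G H : SimpleGraph V} {F : Set V}
  {q : Y → V} {X : SimpleGraph T} {X' : SimpleGraph T'} {K : SimpleGraph U} {B Hi : Set U}
  {N Nm Np : Subgroup Γ} {L : Type} [Group L]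

theorem mx_spec {κ : Type} [Nonempty Y] [LinearOrder κ] (col : Y → κ) {s : Finset Y}
    (hs : s.Nonempty) : mx col s ∈ s ∧ ∀ w ∈ s, col w ≤ col (mx col s) := by
  exact Classical.epsilon_spec (p := fun v => v ∈ s ∧ ∀ w ∈ s, col w ≤ col v)
    (s.exists_max_image col hs)

theorem pro_eqv [Nonempty Y] [LinearOrder U] {S : Set U} {ty : T → U} (hA : Act Γ GY AY)
    (hT : TAct Γ X K S ty N) {ε : Y → T} (he : Eqv Γ AY ε) (hh : Hm GY AY X ε) :
    Eqv Γ (sA GY AY) fun s => ε (mx (fun v => ty (ε v)) s) := by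
  intro g s hs
  have hg := hA.smul_sA g hs
  obtain ⟨a1, a2⟩ := mx_spec (fun v => ty (ε v)) hg.1
  obtain ⟨b1, b2⟩ := mx_spec (fun v => ty (ε v)) hs.1
  have b3 := (smul_mem_smul_fin (g := g)).2 b1
  beta_reduce
  rw [← he g _ (hs.2.1 b1)]
  refine ty_inj hT (hh.adq (hg.2.1 a1) (hg.2.1 b3) ((mem_sA.1 hg).2.2 _ a1 _ b3))
    (le_antisymm ?_ (a2 _ b3))
  obtain ⟨u, hu, e⟩ := mem_smul_fin.1 a1
  rw [← e, he g _ (hs.2.1 hu), he g _ (hs.2.1 b1), hT.inv, hT.inv]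
  exact b2 u hu

theorem pro_col [Nonempty Y] [Nonempty V] [LinearOrder U] {c1 : Y → U} {col : V → U}
    (hc : ∀ v ∈ AY, col (q v) = c1 v) {s : Finset Y} (hs : s ∈ sA GY AY) :
    col (mx col (s.image q)) = c1 (mx c1 s) := by
  obtain ⟨b1, b2⟩ := mx_spec c1 hs.1
  have a : mx col (s.image q) ∈ s.image q ∧ ∀ w ∈ s.image q, col w ≤ col (mx col (s.image q)) :=
    mx_spec col (hs.1.image q)
  refine le_antisymm ?_ ?_
  · obtain ⟨u, hu, e⟩ := Finset.mem_image.1 a.1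
    rw [← e, hc u (hs.2.1 hu)]
    exact b2 u hu
  · rw [← hc _ (hs.2.1 b1)]
    exact a.2 _ (Finset.mem_image_of_mem q b1)

theorem crv_sd {S : Set U} {ty : T → U} (hA : Act Γ GY AY) (hC : Cv Γ GY AY G F q)
    (hT : TAct Γ X K S ty N) {α : Y → Set T} (h : AS Γ GY AY X α) {e : Finset U}
    (he : e.card = 2) :
    sA G (Crv AY q α ty e) = Crv (sA GY AY) (Finset.image q) (itr α) ty e := by
  ext s
  constructor
  · intro hs
    obtain ⟨t, ht, rfl⟩ := hC.lift s (sA_mono (by rintro _ ⟨v, hv, rfl⟩; exact hC.mem v hv.1) hs)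
    refine ⟨t, ⟨ht, fun a ha => ?_⟩, rfl⟩
    have key : ∀ v ∈ t, ∃ z ∈ α v, ty z = a := fun v hv => by
      obtain ⟨w, ⟨h1, h2⟩, e⟩ := hs.2.1 (Finset.mem_coe.2 (Finset.mem_image_of_mem q hv))
      obtain ⟨g, rfl⟩ := hC.orb w h1 v (ht.2.1 hv) e
      obtain ⟨z, hz, rfl⟩ := h2 a ha
      exact ⟨g • z, h.eqv g w h1 z hz, hT.inv g z⟩
    obtain ⟨v0, h0⟩ := ht.1
    obtain ⟨z0, hz0, e0⟩ := key v0 h0
    refine ⟨z0, fun v hv => ?_, e0⟩
    rcases (mem_sA.1 ht).2.2 v0 h0 v hv with rfl | hadj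
    · exact hz0
    rcases h.cmp v0 (ht.2.1 h0) v (ht.2.1 hv) hadj with k | k
    · exact k hz0
    · obtain ⟨z, hz, e⟩ := key v hv
      rwa [ty_inj hT (h.toAS0.adq (ht.2.1 h0) hz0 (k hz)) (e0.trans e.symm)]
  · rintro ⟨t, ⟨ht, h1⟩, rfl⟩
    have h2 := IsHom.image_mem hC.hom ht
    refine ⟨h2.1, fun x hx => ?_, h2.2.2⟩
    obtain ⟨v, hv, rfl⟩ := Finset.mem_image.1 (Finset.mem_coe.1 hx)
    exact ⟨v, ⟨ht.2.1 hv, fun a ha => (h1 a ha).imp fun z hz => ⟨hz.1 v hv, hz.2⟩⟩, rfl⟩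

theorem crv_subset {ty : T → U} (hC : Cv Γ GY AY G F q) (α : Y → Set T) (e : Finset U) :
    Crv AY q α ty e ⊆ F := by
  rintro _ ⟨v, hv, rfl⟩
  exact hC.mem v hv.1

theorem Discs.sd {W Tb : Set V} {E : Set (Finset U)} {c D : Finset U → Set V}
    {c' : Finset U → Set (Finset V)} (h : Discs H W Tb E c D) (hc : ∀ e ∈ E, sA H (c e) = c' e) :
    Discs (sG V) (sA H W) (ins Tb) E c' fun e => sA H (D e) := by
  refine ⟨fun e he => sA_mono (h.sub e he), fun e he => (h.ball e he).sd le_rfl, fun e he => ?_,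
    fun e he e' he' hne => far_sA (h.far e he e' he' hne).disjoint⟩
  rw [← sA_inter, h.bd e he, hc e he]

theorem clopen_sd {W Tb Fp : Set V} (h : Clopen H (W ∩ Tb) Fp) :
    Clopen (sG V) (sA H W ∩ ins Tb) (sA H Fp) := by
  rw [← sA_inter]
  refine ⟨sA_mono h.1, fun s hs t ht hst => hst.elim (fun k => ⟨ht.1, fun x hx => ?_, ht.2.2⟩)
    fun k => sA_down hs k.subset ht.1⟩
  obtain ⟨a, ha⟩ := hs.1
  rcases (mem_sA.1 ht).2.2 a (k.subset ha) x hx with rfl | hadj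
  · exact hs.2.1 ha
  · exact h.2 a (hs.2.1 ha) x (ht.2.1 hx) hadj

theorem Av.sd {W Tb Fp W2 T2 : Set V} {E : Set (Finset U)} {D : Finset U → Set V}
    (h : Av H W Tb Fp W2 T2 E D) :
    Av (sG V) (sA H W) (ins Tb) (sA H Fp) (sA H W2) (ins T2) E fun e => sA H (D e) := by
  exact ⟨sA_mono h.sub, h.mf.sd le_rfl, fun s hs x hx => h.bd ⟨hs.1.2.1 hx, hs.2 hx⟩,
    clopen_sd h.clopen, fun e he => (far_sA (h.disj e he)).disjoint⟩

end Pool.Agent.MP_6374aa_g.BE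

end

section

/-! Incidence implies crossing. -/

namespace Pool.Agent.MP_6374aa_g.BE

open Pool.Agent.MP_6374aa_gt Classical Pointwise

variable {Γ : Type} [Group Γ] {Y V V' T T' U : Type} [MulAction Γ Y] [MulAction Γ T]
  [MulAction Γ T'] {GY : SimpleGraph Y} {AY A : Set Y} {G H : SimpleGraph V} {F : Set V}
  {q : Y → V} {X : SimpleGraph T} {X' : SimpleGraph T'} {K : SimpleGraph U} {B Hi : Set U}
  {N Nm Np : Subgroup Γ} {L : Type} [Group L]

variable {M : TM K B Hi Γ Nm Np} {α : Y → Set M.T1} {ε : Y → M.T2}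

theorem Fin2.as1 (h : Fin2 M GY AY G F q α ε) : AS Γ (sG Y) (sA GY AY) M.X1 (itr α) :=
  h.as.sd

theorem Fin2.as2 (h : Fin2 M GY AY G F q α ε) : AS Γ (sG Y) (sA GY AY) M.X2 (cols ε) :=
  as_init h.act h.pl (ta_of M.act2) (deep2 M h.two) h.eqv h.hm h.hp

theorem fwd_Inc0 (h : Fin2 M GY AY G F q α ε) {x x' : M.T1} {y a b : M.T2}
    (hx : M.X1.Adj x x') (hab : M.X2.Adj a b)
    (hg : ∀ n, ∃ g : Γ, g • x = x ∧ g • x' = x' ∧ g • y ∈ half M.X2 a b ∧
      n ≤ M.X2.dist (g • y) y) : (HS (Ln AY α x x') M.X2 ε a b).Nonempty := by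
  have hT := ta_of M.act2
  obtain ⟨v, hv⟩ := (h.as.line x x' hx).2.1.1
  obtain ⟨g, g1, g2, g3, g4⟩ := hg (M.X2.dist y (ε v) + M.X2.dist a y + 1)
  refine ⟨g • v, h.as.ln_smul h.act g1 g2 hv, ?_⟩
  rw [h.eqv g v hv.1]
  refine near_deep hT.tree hab g3 ?_
  rw [hT.dist_smul]
  have := tdist_tri hT.tree (g • y) a y
  omega

theorem bwd_Inc0 (h : Fin2 M GY AY G F q α ε) {x x' : M.T1} {y a b : M.T2}
    (hx : M.X1.Adj x x') (hab : M.X2.Adj a b)
    (hn : (HS (Ln AY α x x') M.X2 ε a b).Nonempty) (n : ℕ) :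
    ∃ g : Γ, g • x = x ∧ g • x' = x' ∧ g • y ∈ half M.X2 a b ∧ n ≤ M.X2.dist (g • y) y := by
  have hT := ta_of M.act2
  have hT1 := ta_of M.act1
  have hu := h.gl.unb x x' hx a b hab hn
  have hc : CoF (MulAction.stabilizer Γ x ⊓ MulAction.stabilizer Γ x') (Ln AY α x x') := by
    refine h.cv.cof h.fin (fun v hv => hv.1) ?_
    intro g v hv hgv
    have := h.as.ln_stab hT1 hv hgv
    exact ⟨this.1, this.2⟩
  obtain ⟨S0, hS0, hS⟩ := hc
  obtain ⟨R, hR⟩ := (hS0.image fun s => M.X2.dist (ε s) y).bddAbove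
  obtain ⟨v, hv, hd⟩ := hu a (n + R + 1 + M.X2.dist y a)
  obtain ⟨k, hk, hkv⟩ := hS v hv.1
  have k1 : k • x = x := hk.1
  have k2 : k • x' = x' := hk.2
  have h1 : M.X2.dist (ε (k • v)) y ≤ R := hR ⟨_, hkv, rfl⟩
  rw [h.eqv k v hv.1.1] at h1
  have h2 : M.X2.dist (ε v) (k⁻¹ • y) ≤ R := by
    rw [← hT.dist_smul k, smul_inv_smul]
    exact h1
  refine ⟨k⁻¹, inv_smul_eq_iff.2 k1.symm, inv_smul_eq_iff.2 k2.symm, ?_, ?_⟩
  · refine near_deep hT.tree hab hv.2 ?_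
    omega
  · have t1 := tdist_tri hT.tree (ε v) y a
    have t2 := tdist_tri hT.tree (ε v) (k⁻¹ • y) y
    omega

theorem Fin2.cr_iff (h : Fin2 M GY AY G F q α ε) {x x' : M.T1} {y y' : M.T2}
    (hx : M.X1.Adj x x') (hy : M.X2.Adj y y') : Cr Γ M.X1 M.X2 x x' y y' ↔
      (HS (Ln AY α x x') M.X2 ε y y').Nonempty ∧ (HS (Ln AY α x x') M.X2 ε y' y).Nonempty :=
  ⟨fun hc => ⟨fwd_Inc0 h hx hy hc.2.2.1, fwd_Inc0 h hx hy.symm hc.2.2.2⟩,
    fun hn => ⟨hx, hy, bwd_Inc0 h hx hy hn.1, bwd_Inc0 h hx hy.symm hn.2⟩⟩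

theorem Fin2.cc_inj (h : Fin2 M GY AY G F q α ε) {x x' : M.T1} {y y' : M.T2}
    (hc : Cr Γ M.X1 M.X2 x x' y y') :
    Set.InjOn (Finset.image q) (CC GY AY α ε {x} {y}) := by
  intro t ht t1 ht1 he
  obtain ⟨g, hg⟩ := (Cv.sd h.act h.cv).orb t ht.1 t1 ht1.1 he
  have a1 : g • x ∈ itr α t1 := by
    rw [hg]
    exact h.as1.eqv g t ht.1 x (ht.2.1 rfl)
  have a2 : g • y ∈ cols ε t1 := by
    rw [hg]
    exact h.as2.eqv g t ht.1 y (ht.2.2 rfl)
  have b1 : g • x = x := (ta_of M.act1).fix (h.as1.toAS0.adq ht1.1 (ht1.2.1 rfl) a1)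
  have b2 : g • y = y := (ta_of M.act2).fix (h.as2.toAS0.adq ht1.1 (ht1.2.2 rfl) a2)
  have g1 : g = 1 := M.triv g x x' y y' hc b1 b2
  rw [hg, g1, one_smul]

theorem Fin2.cc_fin (h : Fin2 M GY AY G F q α ε) {x x' : M.T1} {y y' : M.T2}
    (hc : Cr Γ M.X1 M.X2 x x' y y') {A1 : Set M.T1} {Bs : Set M.T2} (hx : x ∈ A1) (hy : y ∈ Bs) :
    (CC GY AY α ε A1 Bs).Finite := by
  have hsub : CC GY AY α ε A1 Bs ⊆ CC GY AY α ε {x} {y} := fun t ht =>
    ⟨ht.1, Set.singleton_subset_iff.2 (ht.2.1 hx), Set.singleton_subset_iff.2 (ht.2.2 hy)⟩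
  refine Set.Finite.subset ?_ hsub
  refine Set.Finite.of_finite_image ?_ (h.cc_inj hc)
  have hf : (sA G F).Finite := sA_finite h.fin
  refine hf.subset ?_
  rintro _ ⟨t, ht, rfl⟩
  exact (Cv.sd h.act h.cv).mem t ht.1

end Pool.Agent.MP_6374aa_g.BE

end

section

/-! Incidence implies crossing. -/

namespace Pool.Agent.MP_6374aa_g.BE

open Pool.Agent.MP_6374aa_gt Classical Pointwise

variable {Γ : Type} [Group Γ] {Y V V' T T' U : Type} [MulAction Γ Y] [MulAction Γ T]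
  [MulAction Γ T'] {GY : SimpleGraph Y} {AY A : Set Y} {G H : SimpleGraph V} {F : Set V}
  {q : Y → V} {X : SimpleGraph T} {X' : SimpleGraph T'} {K : SimpleGraph U} {B Hi : Set U}
  {N Nm Np : Subgroup Γ} {L : Type} [Group L]

variable {M : TM K B Hi Γ Nm Np} {α : Y → Set M.T1} {ε : Y → M.T2}

theorem Fin2.inc0 (h : Fin2 M GY AY G F q α ε) {t : Finset Y} (ht : t ∈ sA GY AY) {z z' : M.T1}
    {w w' : M.T2} (hz : z ∈ itr α t) (hz' : z' ∈ itr α t) (hzz : z ≠ z') (hw : w ∈ cols ε t)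
    (hw' : w' ∈ cols ε t) (hww : w ≠ w') : Cr Γ M.X1 M.X2 z z' w w' := by
  have hx := (h.as1.adq ht hz hz').resolve_left hzz
  have hy := (h.as2.adq ht hw hw').resolve_left hww
  have hT := M.act2.tree
  obtain ⟨v, hv, rfl⟩ := hw
  obtain ⟨v', hv', rfl⟩ := hw'
  exact (h.cr_iff hx hy).2 ⟨⟨v', ⟨ht.2.1 hv', hz v' hv', hz' v' hv'⟩, right_mem_half hT hy⟩,
    ⟨v, ⟨ht.2.1 hv, hz v hv, hz' v hv⟩, right_mem_half hT hy.symm⟩⟩

theorem Fin2.inc1 (h : Fin2 M GY AY G F q α ε) {t : Finset Y} (ht : t ∈ sA GY AY) {z z' : M.T1}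
    {w : M.T2} (hz : z ∈ itr α t) (hz' : z' ∈ itr α t) (hzz : z ≠ z') (hw : w ∈ cols ε t) :
    ∃ w', Cr Γ M.X1 M.X2 z z' w w' := by
  have hx := (h.as1.adq ht hz hz').resolve_left hzz
  have hT := M.act2.tree
  obtain ⟨v, hv, rfl⟩ := hw
  have hl : v ∈ Ln AY α z z' := ⟨ht.2.1 hv, hz v hv, hz' v hv⟩
  obtain ⟨g, g1, g2, g3⟩ := nofix2 M hx
  obtain ⟨w', hy, hw'⟩ := exists_step hT (g3 (ε v)).symm
  refine ⟨w', (h.cr_iff hx hy).2 ⟨⟨g • v, h.as.ln_smul h.act g1 g2 hl, ?_⟩,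
    ⟨v, hl, right_mem_half hT hy.symm⟩⟩⟩
  rwa [h.eqv g v hl.1]

theorem Fin2.inc2 (h : Fin2 M GY AY G F q α ε) {t : Finset Y} (ht : t ∈ sA GY AY) {z : M.T1}
    {w w' : M.T2} (hz : z ∈ itr α t) (hw : w ∈ cols ε t) (hw' : w' ∈ cols ε t) (hww : w ≠ w') :
    ∃ z', Cr Γ M.X1 M.X2 z z' w w' := by
  have hy := (h.as2.adq ht hw hw').resolve_left hww
  obtain ⟨g, g1, g2, g3⟩ := nofix1 M hy
  have hl : t ∈ Ln (sA GY AY) (cols ε) w w' := ⟨ht, hw, hw'⟩
  have hl' := h.as2.ln_smul (h.act.sd h.cv) g1 g2 hl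
  have hn : g • t ∉ {s | z ∈ itr α s} := fun e =>
    g3 z ((ta_of M.act1).fix (h.as1.adq hl'.1 e (h.as1.eqv g t ht z hz)))
  obtain ⟨u, hu, u', hu', a, -⟩ := ((h.as2.line w w' hy).2.1.2 t hl _ hl').exit ⟨hl, hz⟩ hn
  have hs := (h.as1.cmp u hu.1.1 u' hu'.1.1 a).resolve_left fun e => hu'.2 (e hu.2)
  obtain ⟨z', hz'⟩ := h.as1.nonempty hu'.1.1
  exact ⟨z', h.inc0 hu.1.1 hu.2 (hs hz') (fun e => hu'.2 (e ▸ hz')) hu.1.2.1 hu.1.2.2 hww⟩

theorem Fin2.inc3 (h : Fin2 M GY AY G F q α ε) {t : Finset Y} (ht : t ∈ sA GY AY) {z : M.T1}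
    {w : M.T2} (hz : z ∈ itr α t) (hw : w ∈ cols ε t) : ∃ z' w', Cr Γ M.X1 M.X2 z z' w w' := by
  obtain ⟨v, hv, rfl⟩ := hw
  obtain ⟨x, hx⟩ := nbr1 M h.two z
  have hr : v ∈ Rg AY α z := ⟨ht.2.1 hv, hz v hv⟩
  obtain ⟨y, hy, hn⟩ : ∃ y ∈ Rg AY α z, y ∉ {y | ε y = ε v} := by
    obtain ⟨y, hy⟩ := (h.as.line z x hx).2.1.1
    by_cases e : ε y = ε v
    · obtain ⟨g, g1, g2, g3⟩ := nofix2 M hx
      have hl := h.as.ln_smul h.act g1 g2 hy
      exact ⟨g • y, ⟨hl.1, hl.2.1⟩,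
        fun e' => g3 (ε y) (((h.eqv g y hy.1).symm.trans e').trans e.symm)⟩
    · exact ⟨y, ⟨hy.1, hy.2.1⟩, e⟩
  obtain ⟨u, hu, u', hu', a, -⟩ :=
    ((h.as.rg_con M.act1.tree h.pl.con.2 hx).2 v hr y hy).exit (X := {y | ε y = ε v}) ⟨hr, rfl⟩ hn
  have hp : ({u, u'} : Finset Y) ∈ sA GY AY := pair_mem_sA hu.1.1 hu'.1.1 (Or.inr a)
  obtain ⟨z', hc⟩ := h.inc2 hp (z := z) (w := ε v) (w' := ε u') (fun b hb => by
      rcases Finset.mem_insert.1 hb with rfl | hb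
      · exact hu.1.2
      · rw [Finset.mem_singleton.1 hb]
        exact hu'.1.2)
    ⟨u, Finset.mem_insert_self _ _, hu.2⟩
    ⟨u', Finset.mem_insert_of_mem (Finset.mem_singleton_self _), rfl⟩ fun e => hu'.2 e.symm
  exact ⟨z', _, hc⟩

end Pool.Agent.MP_6374aa_g.BE

end

section

/-! Points and arcs on the lines. -/

namespace Pool.Agent.MP_6374aa_g.BE

open Pool.Agent.MP_6374aa_gt Classical Pointwise

variable {Γ : Type} [Group Γ] {Y V V' T T' U : Type} [MulAction Γ Y] [MulAction Γ T]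
  [MulAction Γ T'] {GY : SimpleGraph Y} {AY A : Set Y} {G H : SimpleGraph V} {F : Set V}
  {q : Y → V} {X : SimpleGraph T} {X' : SimpleGraph T'} {K : SimpleGraph U} {B Hi : Set U}
  {N Nm Np : Subgroup Γ} {L : Type} [Group L]

variable {M : TM K B Hi Γ Nm Np} {α : Y → Set M.T1} {ε : Y → M.T2}

theorem cc_Ce1 (α : Y → Set T) (ε : Y → T') (x x' : T) (Bs : Set T') :
    CC GY AY α ε {x, x'} Bs = {t | t ∈ sA GY (Ln AY α x x') ∧ Bs ⊆ cols ε t} := by
  ext t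
  rw [← ln_itr]
  simp only [CC, Ln, Set.mem_ofPred_eq, Set.pair_subset_iff, and_assoc]

theorem cc4_Ce1 (α : Y → Set T) (ε : Y → T') (x x' : T) (y y' : T') :
    CC GY AY α ε {x, x'} {y, y'} = Ln (sA GY (Ln AY α x x')) (cols ε) y y' := by
  rw [cc_Ce1]
  ext t
  exact and_congr_right fun _ => Set.pair_subset_iff

theorem cc3_Ce1 (α : Y → Set T) (ε : Y → T') (x x' : T) (y : T') :
    CC GY AY α ε {x, x'} {y} = Rg (sA GY (Ln AY α x x')) (cols ε) y := by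
  rw [cc_Ce1]
  ext t
  exact and_congr_right fun _ => Set.singleton_subset_iff

theorem pre_Ce1 (h : Fin2 M GY AY G F q α ε) {x x' : M.T1} {y y' : M.T2}
    (hx : M.X1.Adj x x') (hy : M.X2.Adj y y') :
    Pre (sG Y) (Ln (sA GY (Ln AY α x x')) (cols ε) y y') :=
  HP.pre_ln M.act2.tree (h.gl.hm x x' hx) (h.gl.hp x x' hx) (h.as.ln_sco hx).ndc hy

theorem itr_Ce1 (h : Fin2 M GY AY G F q α ε) {x x' : M.T1} (hx : M.X1.Adj x x') {Bs : Set M.T2}
    {t : Finset Y} (ht : t ∈ CC GY AY α ε {x, x'} Bs) : itr α t = {x, x'} :=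
  h.as1.toAS0.eq_pair ht.1 (ht.2.1 (Or.inl rfl)) (ht.2.1 (Or.inr rfl)) hx.ne

theorem Fin2.cc4_eq (h : Fin2 M GY AY G F q α ε) {x x' : M.T1} {y y' : M.T2}
    (hy : M.X2.Adj y y') :
    CC GY AY α ε {x, x'} {y, y'} = fr GY (Ln AY α x x') (ε ⁻¹' half M.X2 y y') := by
  rw [cc4_Ce1, ln_cols M.act2.tree (h.hm.mono fun _ k => k.1) hy]

theorem Fin2.cc4_sub (h : Fin2 M GY AY G F q α ε) {x x' : M.T1} {y y' : M.T2}
    (hx : M.X1.Adj x x') (hy : M.X2.Adj y y') : (CC GY AY α ε {x, x'} {y, y'}).Subsingleton := by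
  have h1 := pre_Ce1 h hx hy
  have h2 := Mf.fr_empty (d := 0) (Q := ε ⁻¹' half M.X2 y y') (h.as.line x x' hx).1 (by omega)
  rw [← cc4_Ce1] at h1
  rw [← h.cc4_eq hy] at h2
  intro s hs t ht
  refine h1.const (φ := id) (fun a ha b hb k => ?_) hs ht
  exact ((h2 a ha).1.subset ⟨hb, fun u hu => hu ▸ k⟩).elim

theorem Fin2.cc4_nonempty (h : Fin2 M GY AY G F q α ε) {x x' : M.T1} {y y' : M.T2}
    (hc : Cr Γ M.X1 M.X2 x x' y y') : (CC GY AY α ε {x, x'} {y, y'}).Nonempty := by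
  obtain ⟨h1, h2⟩ := (h.cr_iff hc.1 hc.2.1).1 hc
  rw [cc4_Ce1]
  exact ln_cols_nonempty M.act2.tree (h.gl.hm x x' hc.1) (h.as.line x x' hc.1).2.1.2 hc.2.1 h1 h2

theorem Fin2.cell4 (h : Fin2 M GY AY G F q α ε) {x x' : M.T1} {y y' : M.T2}
    (hc : Cr Γ M.X1 M.X2 x x' y y') :
    Cell (sG Y) 1 (CC GY AY α ε {x, x'} {y, y'}) (bb α ε {x, x'} {y, y'}) := by
  obtain ⟨t, ht⟩ := h.cc4_nonempty hc
  refine Cell.congr (ball_one.2 ⟨t, (h.cc4_sub hc.1 hc.2.1).eq_singleton_of_mem ht,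
    Set.notMem_empty t⟩) fun σ hσ => ⟨fun k => Or.inl ?_, fun k s hs => ?_⟩
  · exact Finset.eq_empty_of_forall_notMem fun s hs => k hs
  · have h1 := hσ.1 hs
    rcases k with k | ⟨z, k1, k2⟩ | ⟨w, k1, k2⟩
    · exact Finset.notMem_empty s (k ▸ hs)
    · exact k1 (itr_Ce1 h hc.1 h1 ▸ k2 s hs)
    · exact k1 (h.as2.toAS0.eq_pair h1.1 (h1.2.2 (Or.inl rfl)) (h1.2.2 (Or.inr rfl))
        hc.2.1.ne ▸ k2 s hs)

theorem Fin2.cell3a (h : Fin2 M GY AY G F q α ε) {x x' : M.T1} {y y' : M.T2}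
    (hc : Cr Γ M.X1 M.X2 x x' y y') :
    Cell (sG Y) 2 (CC GY AY α ε {x, x'} {y}) (bb α ε {x, x'} {y}) := by
  obtain ⟨t, ht⟩ := h.cc4_nonempty hc
  have h0 : t ∈ CC GY AY α ε {x, x'} {y} :=
    ⟨ht.1, ht.2.1, fun w hw => ht.2.2 (Or.inl hw)⟩
  have e : CC GY AY α ε {x, x'} {y} = nb GY (Ln AY α x x') (ε ⁻¹' {y}) := by
    rw [cc3_Ce1, rg_cols]
  have h1 := Mf.nb_empty (Q := ε ⁻¹' {y}) (h.as.line x x' hc.1).1 (by omega)
  have h2 := region_pre M.act2.tree (as0_cols M.act2.tree (h.gl.hm x x' hc.1))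
    (pre_sA.2 (h.as.line x x' hc.1).2.1.2) y fun w hw => pre_Ce1 h hc.1 hw
  rw [← cc3_Ce1] at h2
  rw [← e] at h1
  have h3 : ∀ s ∈ CC GY AY α ε {x, x'} {y}, ∀ w ∈ cols ε s, w ≠ y →
      s ∈ fr GY (Ln AY α x x') (ε ⁻¹' {y}) := fun s hs w ⟨v, a1, a2⟩ a3 =>
    ⟨(e.subset hs).1, (e.subset hs).2, fun k => a3 (a2.symm.trans (k a1))⟩
  refine Cell.congr ((mf_one_cell h1 (h.cc_fin hc (Or.inl rfl) rfl) ⟨⟨t, h0⟩, h2⟩).resolve_left
    fun k => k.1.subset ⟨h0, h3 t h0 y' (ht.2.2 (Or.inr rfl)) hc.2.1.ne'⟩).2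
    fun σ hσ => ⟨fun k => ?_, fun k s hs => ?_⟩
  · rcases σ.eq_empty_or_nonempty with a | a
    · exact Or.inl a
    · obtain ⟨s, a1, a2⟩ := exists_bot (mem_sA_iff_clq.2 ⟨a, hσ⟩)
      obtain ⟨v, a3, a4⟩ := Set.not_subset.1 (k a1).2.2
      exact Or.inr (Or.inr ⟨ε v, a4, fun u hu => ⟨v, a2 u hu a3, rfl⟩⟩)
  · have h4 := hσ.1 hs
    rcases k with k | ⟨z, k1, k2⟩ | ⟨w, k1, k2⟩
    · exact (Finset.notMem_empty s (k ▸ hs)).elim
    · exact (k1 (itr_Ce1 h hc.1 h4 ▸ k2 s hs)).elim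
    · exact h3 s h4 w (k2 s hs) k1

end Pool.Agent.MP_6374aa_g.BE

end

section

/-! Arcs on the dual lines and the two dimensional cells. -/

namespace Pool.Agent.MP_6374aa_g.BE

open Pool.Agent.MP_6374aa_gt Classical Pointwise

variable {Γ : Type} [Group Γ] {Y V V' T T' U : Type} [MulAction Γ Y] [MulAction Γ T]
  [MulAction Γ T'] {GY : SimpleGraph Y} {AY A : Set Y} {G H : SimpleGraph V} {F : Set V}
  {q : Y → V} {X : SimpleGraph T} {X' : SimpleGraph T'} {K : SimpleGraph U} {B Hi : Set U}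
  {N Nm Np : Subgroup Γ} {L : Type} [Group L]

variable {M : TM K B Hi Γ Nm Np} {α : Y → Set M.T1} {ε : Y → M.T2}

theorem ln_eq_Ce2 (α : Y → Set T) (ε : Y → T') (x : T) (y y' : T') :
    Ln (sA GY (Rg AY α x)) (cols ε) y y' = CC GY AY α ε {x} {y, y'} := by
  rw [← rg_itr]
  ext t
  simp only [Ln, Rg, CC, Set.mem_ofPred_eq, Set.singleton_subset_iff, Set.insert_subset_iff]
  tauto

theorem rg_eq_Ce2 (α : Y → Set T) (ε : Y → T') (x : T) (y : T') :
    Rg (sA GY (Rg AY α x)) (cols ε) y = CC GY AY α ε {x} {y} := by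
  rw [← rg_itr]
  ext t
  simp only [Rg, CC, Set.mem_ofPred_eq, Set.singleton_subset_iff]
  tauto

theorem bd_Ce2 {α : Y → Set T} (h : AS0 GY AY X α) {x : T} {P : Set (Finset Y)}
    (hP : P ⊆ sA GY (Rg AY α x)) {σ : Finset (Finset Y)} (hσ : σ ∈ sA (sG Y) P) :
    ↑(top σ) ⊆ Bd α ↔ ∃ z, z ∉ ({x} : Set T) ∧ ∀ t ∈ σ, z ∈ itr α t := by
  obtain ⟨⟨v, hv⟩, h2, h3⟩ := mem_sA.1 (hP (hσ.2.1 (top_mem hσ)))
  constructor
  · intro hb
    obtain ⟨z, hz, hzv⟩ : ∃ z, x ≠ z ∧ z ∈ α v := by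
      obtain ⟨a, b, hab, ha, hb'⟩ := hb hv
      by_cases e : x = a
      · exact ⟨b, e ▸ hab, hb'⟩
      · exact ⟨a, e, ha⟩
    refine ⟨z, fun e => hz (Eq.symm e), fun t ht w hw => ?_⟩
    have hw' := subset_top ht hw
    rcases h3 v hv w hw' with rfl | e
    · exact hzv
    · exact ((h.clopen_ln hz).2 v ⟨(h2 hv).1, (h2 hv).2, hzv⟩ w ⟨(h2 hw').1, hb hw'⟩ e).2.2
  · rintro ⟨z, hz, hz'⟩ w hw
    exact ⟨z, x, hz, hz' _ (top_mem hσ) w hw, (h2 hw).2⟩

theorem Fin2.mix_pre (h : Fin2 M GY AY G F q α ε) (x : M.T1) {y y' : M.T2} (hy : M.X2.Adj y y') :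
    Pre (sG Y) (CC GY AY α ε {x} {y, y'}) ∧ SCo (sG Y) (CC GY AY α ε {x} {y, y'}) := by
  have e : Rg (Ln (sA GY AY) (cols ε) y y') (itr α) x = CC GY AY α ε {x} {y, y'} := by
    ext t
    simp only [Ln, Rg, CC, Set.mem_ofPred_eq, Set.singleton_subset_iff, Set.insert_subset_iff]
    tauto
  have hs : ∀ z, M.X1.Adj x z →
      (Ln (Ln (sA GY AY) (cols ε) y y') (itr α) x z).Subsingleton := fun z hz =>
    (h.cc4_sub hz hy).anti fun t ht => ⟨ht.1.1, Set.insert_subset ht.2.1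
      (Set.singleton_subset_iff.2 ht.2.2), Set.insert_subset ht.1.2.1
      (Set.singleton_subset_iff.2 ht.1.2.2)⟩
  have h0 : AS0 (sG Y) (Ln (sA GY AY) (cols ε) y y') M.X1 (itr α) :=
    h.as1.toAS0.mono fun t ht => ht.1
  rw [← e]
  refine ⟨region_pre M.act1.tree h0 (h.as2.line y y' hy).2.1.2 x fun z hz =>
    pre_subsingleton (hs z hz), fun L _ => region_triv h0 (h.as2.ln_sco hy L) x fun z hz => ?_⟩
  exact sco_of_no_adj (fun a ha b hb hab => hab.ne (hs z hz ha hb)) L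

theorem Fin2.cell3b (h : Fin2 M GY AY G F q α ε) {x x' : M.T1} {y y' : M.T2}
    (hc : Cr Γ M.X1 M.X2 x x' y y') :
    Cell (sG Y) 2 (CC GY AY α ε {x} {y, y'}) (bb α ε {x} {y, y'}) := by
  obtain ⟨v, hv⟩ := h.cc4_nonempty hc
  have hv' : v ∈ CC GY AY α ε {x} {y, y'} :=
    ⟨hv.1, Set.singleton_subset_iff.2 (hv.2.1 (by simp)), hv.2.2⟩
  have h1 : Mf (sG Y) 1 (CC GY AY α ε {x} {y, y'}) (ins (Bd α)) := by
    rw [← ln_eq_Ce2, ln_cols M.act2.tree (h.hm.mono fun t ht => ht.1) hc.2.1]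
    exact Mf.fr (d := 1) (h.as.reg x) (by omega)
  have hP : CC GY AY α ε {x} {y, y'} ⊆ sA GY (Rg AY α x) := by
    rw [← ln_eq_Ce2]
    exact fun t ht => ht.1
  refine cell_two (h.cc_fin hc rfl (by simp)) ⟨⟨v, hv'⟩, (h.mix_pre x hc.2.1).1⟩
    (Mfa.congr h1 subset_rfl fun σ hσ => ?_) ⟨fun _ => ⟨v, hv', Or.inr (Or.inl ⟨x', ?_, ?_⟩)⟩,
      fun _ => Or.inl rfl⟩
  · refine (top_subset_iff.symm.trans (bd_Ce2 h.as.toAS0 hP hσ)).trans
      ⟨fun k => Or.inr (Or.inl k), ?_⟩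
    rintro (k | k | ⟨w, hw, k⟩)
    · exact absurd k hσ.1.ne_empty
    · exact k
    · obtain ⟨t, ht⟩ := hσ.1
      have k2 := hσ.2.1 ht
      have k3 := h.as2.toAS0.eq_pair k2.1 (k2.2.2 (by simp : y ∈ ({y, y'} : Set M.T2)))
        (k2.2.2 (by simp : y' ∈ ({y, y'} : Set M.T2))) hc.2.1.ne
      exact absurd (k3 ▸ k t ht) hw
  · exact hc.1.ne'
  · intro t ht
    rw [Finset.mem_singleton.1 ht]
    exact hv.2.1 (by simp)

theorem Fin2.cell2 (h : Fin2 M GY AY G F q α ε) {x x' : M.T1} {y y' : M.T2}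
    (hc : Cr Γ M.X1 M.X2 x x' y y') :
    Cell (sG Y) 3 (CC GY AY α ε {x} {y}) (bb α ε {x} {y}) := by
  obtain ⟨v, hv⟩ := h.cc4_nonempty hc
  have hv' : v ∈ CC GY AY α ε {x} {y} :=
    ⟨hv.1, Set.singleton_subset_iff.2 (hv.2.1 (by simp)),
      Set.singleton_subset_iff.2 (hv.2.2 (by simp))⟩
  have e : CC GY AY α ε {x} {y} = nb GY (Rg AY α x) (ε ⁻¹' {y}) := by
    rw [← rg_eq_Ce2, rg_cols]
  have h1 : Mfa (sG Y) 2 (CC GY AY α ε {x} {y})
      (fun σ => ↑(top σ) ⊆ Bd α ∨ ↑σ ⊆ fr GY (Rg AY α x) (ε ⁻¹' {y})) (CC GY AY α ε {x} {y}) := by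
    rw [e]
    exact Mfa.nb (Mfa.mono (h.as.reg x) Set.inter_subset_left) (by omega)
  have h0 : AS0 (sG Y) (sA GY (Rg AY α x)) M.X2 (cols ε) :=
    h.as2.toAS0.mono (sA_mono fun t ht => ht.1)
  have h2 : Pre (sG Y) (CC GY AY α ε {x} {y}) := by
    rw [← rg_eq_Ce2]
    refine region_pre M.act2.tree h0 (pre_sA.2 (h.as.rg_con M.act1.tree h.pl.con.2 hc.1).2) y
      fun w hw => ?_
    rw [ln_eq_Ce2]
    exact (h.mix_pre x hw).1
  have h3 : NDC (sG Y) (CC GY AY α ε {x} {y}) := by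
    rw [← rg_eq_Ce2]
    refine region_triv h0 (sco_sA.2 (h.as.rg_sco h.pl.sco x) Z2) y fun w hw => ?_
    rw [ln_eq_Ce2]
    exact (h.mix_pre x hw).2 Z2
  refine cell_three (h.cc_fin hc rfl rfl) ⟨⟨v, hv'⟩, h2⟩ h3
    (Mfa.congr h1 subset_rfl fun σ hσ => ?_) ⟨fun _ => ⟨v, hv', Or.inr (Or.inl ⟨x', ?_, ?_⟩)⟩,
      fun _ => Or.inl rfl⟩
  · rw [bd_Ce2 h.as.toAS0 (fun t ht => (e ▸ ht).1) hσ]
    refine Iff.trans (or_congr_right ⟨fun k => ?_, ?_⟩) (or_iff_right hσ.1.ne_empty).symm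
    · obtain ⟨s, hs, hs'⟩ := exists_bot hσ
      obtain ⟨u, hu, hu'⟩ := Set.not_subset.1 (k hs).2.2
      exact ⟨ε u, hu', fun t ht => ⟨u, hs' t ht hu, rfl⟩⟩
    · rintro ⟨w, hw, k⟩ t ht
      have k2 := hσ.2.1 ht
      rw [e] at k2
      obtain ⟨u, hu, rfl⟩ := k t ht
      exact ⟨k2.1, k2.2, fun k3 => hw (k3 hu)⟩
  · exact hc.1.ne'
  · intro t ht
    rw [Finset.mem_singleton.1 ht]
    exact hv.2.1 (by simp)

end Pool.Agent.MP_6374aa_g.BE

end

section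

/-! Projection of the cells to the surface. -/

namespace Pool.Agent.MP_6374aa_g.BE

open Pool.Agent.MP_6374aa_gt Classical Pointwise

variable {Γ : Type} [Group Γ] {Y V V' T T' U : Type} [MulAction Γ Y] [MulAction Γ T]
  [MulAction Γ T'] {GY : SimpleGraph Y} {AY A : Set Y} {G H : SimpleGraph V} {F : Set V}
  {q : Y → V} {X : SimpleGraph T} {X' : SimpleGraph T'} {K : SimpleGraph U} {B Hi : Set U}
  {N Nm Np : Subgroup Γ} {L : Type} [Group L]

variable {M : TM K B Hi Γ Nm Np} {α : Y → Set M.T1} {ε : Y → M.T2}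

theorem adq_Prj {β : Y → Set T} (h : AS0 GY AY X β) {v : Y} (hv : v ∈ AY) {a b : T}
    (ha : a ∈ β v) (hb : b ∈ β v) : Adq X a b := by
  rcases h.shape v hv with ⟨c, e⟩ | ⟨c, d, k, e⟩ <;> rw [e] at ha hb
  · exact Or.inl (ha.trans hb.symm)
  · rcases ha with rfl | rfl <;> rcases hb with rfl | rfl
    exacts [Or.inl rfl, Or.inr k, Or.inr k.symm, Or.inl rfl]

theorem bl_Prj (f : V' → V) (ℓ : V → Finset U) (s : Finset U) (σ : Finset V') :
    bl ℓ s (σ.image f) ↔ σ = ∅ ∨ ∃ u, u ∉ s ∧ ∀ t ∈ σ, u ∈ ℓ (f t) := by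
  simp only [bl, Finset.image_eq_empty, Finset.forall_mem_image]

theorem ne_Prj (z : M.T1) (w : M.T2) : M.ty1 z ≠ M.ty2 w := fun e =>
  (M.act2.mem w).2 (e ▸ (M.act1.mem z).2)

omit [MulAction Γ Y] in
theorem one_Prj {ℓ : Finset V → Finset U} (hl : LSpec GY AY q α ε M.ty1 M.ty2 ℓ) {t : Finset Y}
    (ht : t ∈ sA GY AY) {a : M.T1} (ha : M.ty1 a ∈ ℓ (t.image q)) :
    ∃ z ∈ itr α t, M.ty1 z = M.ty1 a :=
  ((hl t ht _).1 ha).resolve_right fun ⟨w, _, e⟩ => ne_Prj a w e.symm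

omit [MulAction Γ Y] in
theorem two_Prj {ℓ : Finset V → Finset U} (hl : LSpec GY AY q α ε M.ty1 M.ty2 ℓ) {t : Finset Y}
    (ht : t ∈ sA GY AY) {b : M.T2} (hb : M.ty2 b ∈ ℓ (t.image q)) :
    ∃ w ∈ cols ε t, M.ty2 w = M.ty2 b :=
  ((hl t ht _).1 hb).resolve_left fun ⟨z, _, e⟩ => ne_Prj z b e

theorem refl_Prj (h : Fin2 M GY AY G F q α ε) {x x' : M.T1} {y y' : M.T2}
    (hc : Cr Γ M.X1 M.X2 x x' y y') {t t1 : Finset Y} (ht : t ∈ sA GY AY) (ht1 : t1 ∈ sA GY AY)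
    (hx : x ∈ itr α t) (hx1 : x ∈ itr α t1) (hy : y ∈ cols ε t) (hy1 : y ∈ cols ε t1)
    (hs : t.image q ⊆ t1.image q) : t ⊆ t1 := by
  have e : (t1.filter fun v => q v ∈ t.image q).image q = t.image q := by
    ext r
    constructor
    · intro k
      obtain ⟨v, hv, rfl⟩ := Finset.mem_image.1 k
      exact (Finset.mem_filter.1 hv).2
    · intro k
      obtain ⟨v, hv, rfl⟩ := Finset.mem_image.1 (hs k)
      exact Finset.mem_image_of_mem q (Finset.mem_filter.2 ⟨hv, k⟩)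
  have hsub : (t1.filter fun v => q v ∈ t.image q) ⊆ t1 := Finset.filter_subset _ _
  have h0 : (t1.filter fun v => q v ∈ t.image q) ∈ sA GY AY :=
    sA_down ht1 hsub (Finset.image_nonempty.1 (e ▸ ht.1.image q))
  obtain ⟨g, hg⟩ := (Cv.sd h.act h.cv).orb t ht _ h0 e.symm
  rw [hg] at hsub h0
  have k1 : g • x = x := (ta_of M.act1).fix
    (adq_Prj h.as1.toAS0 h0 (fun v hv => hx1 v (hsub hv)) (h.as1.eqv g t ht x hx))
  have k2 : g • y = y := by
    obtain ⟨v, hv, k⟩ := h.as2.eqv g t ht y hy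
    exact (ta_of M.act2).fix (adq_Prj h.as2.toAS0 ht1 hy1 ⟨v, hsub hv, k⟩)
  rwa [M.triv g x x' y y' hc k1 k2, one_smul] at hsub

theorem full_Prj (h : Fin2 M GY AY G F q α ε) {ℓ : Finset V → Finset U}
    (hl : LSpec GY AY q α ε M.ty1 M.ty2 ℓ) {x x' : M.T1} {y y' : M.T2}
    (hc : Cr Γ M.X1 M.X2 x x' y y') {t : Finset Y} (ht : t ∈ sA GY AY) (hx : x ∈ itr α t)
    (hy : y ∈ cols ε t) : (M.ty1 x' ∈ ℓ (t.image q) → x' ∈ itr α t) ∧
      (M.ty2 y' ∈ ℓ (t.image q) → y' ∈ cols ε t) := by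
  refine ⟨fun k => ?_, fun k => ?_⟩
  · obtain ⟨z, hz, e⟩ := one_Prj hl ht k
    obtain ⟨w', c⟩ := h.inc1 ht hx hz
      (fun e' => (M.act1.tadj _ _ hc.1).ne ((congrArg M.ty1 e').trans e)) hy
    rwa [M.uniq1 _ _ _ _ _ _ hc c e.symm]
  · obtain ⟨w, hw, e⟩ := two_Prj hl ht k
    obtain ⟨z', c⟩ := h.inc2 ht hx hy hw
      (fun e' => (M.act2.tadj _ _ hc.2.1).ne ((congrArg M.ty2 e').trans e))
    rwa [M.uniq2 _ _ _ _ _ _ hc c e.symm]

theorem Fin2.lspec_ex (h : Fin2 M GY AY G F q α ε) :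
    ∃ ℓ : Finset V → Finset U, LSpec GY AY q α ε M.ty1 M.ty2 ℓ := by
  refine ⟨fun r => h.two.cl.1.toFinset.filter fun u => ∃ t ∈ sA GY AY, t.image q = r ∧
    ((∃ z ∈ itr α t, M.ty1 z = u) ∨ ∃ w ∈ cols ε t, M.ty2 w = u), fun t ht u => ?_⟩
  rw [Finset.mem_filter, Set.Finite.mem_toFinset]
  constructor
  · rintro ⟨-, t', ht', e, k⟩
    obtain ⟨g, rfl⟩ := (Cv.sd h.act h.cv).orb t' ht' t ht e
    rcases k with ⟨z, hz, rfl⟩ | ⟨w, hw, rfl⟩
    · exact Or.inl ⟨g • z, h.as1.eqv g t' ht' z hz, M.act1.inv g z⟩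
    · exact Or.inr ⟨g • w, h.as2.eqv g t' ht' w hw, M.act2.inv g w⟩
  · intro k
    refine ⟨?_, t, ht, rfl, k⟩
    rcases k with ⟨z, -, rfl⟩ | ⟨w, -, rfl⟩
    exacts [(M.act1.mem z).1, (M.act2.mem w).1]

theorem Fin2.proj_iso (h : Fin2 M GY AY G F q α ε) {ℓ : Finset V → Finset U}
    (hl : LSpec GY AY q α ε M.ty1 M.ty2 ℓ) {x x' : M.T1} {y y' : M.T2}
    (hc : Cr Γ M.X1 M.X2 x x' y y') {A1 : Set M.T1} {Bs : Set M.T2} (hx : x ∈ A1)
    (hA : A1 ⊆ {x, x'}) (hy : y ∈ Bs) (hB : Bs ⊆ {y, y'}) {s : Finset U}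
    (hs : ∀ u, u ∈ s ↔ (∃ z ∈ A1, M.ty1 z = u) ∨ ∃ w ∈ Bs, M.ty2 w = u) :
    IsIso (sG Y) (CC GY AY α ε A1 Bs) (sG V) {r | r ∈ sA G F ∧ s ⊆ ℓ r} (Finset.image q) := by
  refine iso_of_subset_B4 (fun t ht => ⟨IsHom.image_mem h.cv.hom ht.1, fun u hu => ?_⟩)
    (fun t ht t1 ht1 => ⟨refl_Prj h hc ht.1 ht1.1 (ht.2.1 hx) (ht1.2.1 hx) (ht.2.2 hy)
      (ht1.2.2 hy), Finset.image_subset_image⟩) fun r hr => ?_
  · refine (hl t ht.1 u).2 (((hs u).1 hu).imp ?_ ?_)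
    · exact fun ⟨z, hz, e⟩ => ⟨z, ht.2.1 hz, e⟩
    · exact fun ⟨w, hw, e⟩ => ⟨w, ht.2.2 hw, e⟩
  · obtain ⟨t, ht, rfl⟩ := h.cv.lift r hr.1
    obtain ⟨z, hz, e1⟩ := one_Prj hl ht (hr.2 ((hs _).2 (Or.inl ⟨x, hx, rfl⟩)))
    obtain ⟨w, hw, e2⟩ := two_Prj hl ht (hr.2 ((hs _).2 (Or.inr ⟨y, hy, rfl⟩)))
    obtain ⟨z', w', c⟩ := h.inc3 ht hz hw
    obtain ⟨g, rfl, rfl⟩ := M.tr _ _ _ _ _ _ _ _ c hc e1 e2
    have hg := h.act.smul_sA g ht
    have k1 := h.as1.eqv g t ht z hz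
    have k2 := h.as2.eqv g t ht w hw
    have e := h.cv.image_smul g ht
    obtain ⟨f1, f2⟩ := full_Prj h hl hc hg k1 k2
    rw [e] at f1 f2
    refine ⟨g • t, ⟨hg, fun a ha => ?_, fun b hb => ?_⟩, e⟩
    · rcases hA ha with rfl | rfl
      exacts [k1, f1 (hr.2 ((hs _).2 (Or.inl ⟨_, ha, rfl⟩)))]
    · rcases hB hb with rfl | rfl
      exacts [k2, f2 (hr.2 ((hs _).2 (Or.inr ⟨_, hb, rfl⟩)))]

theorem Fin2.proj_cell (h : Fin2 M GY AY G F q α ε) {ℓ : Finset V → Finset U}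
    (hl : LSpec GY AY q α ε M.ty1 M.ty2 ℓ) {x x' : M.T1} {y y' : M.T2}
    (hc : Cr Γ M.X1 M.X2 x x' y y') {A1 : Set M.T1} {Bs : Set M.T2} (hx : x ∈ A1)
    (hA : A1 ⊆ {x, x'}) (hy : y ∈ Bs) (hB : Bs ⊆ {y, y'}) {s : Finset U}
    (hs : ∀ u, u ∈ s ↔ (∃ z ∈ A1, M.ty1 z = u) ∨ ∃ w ∈ Bs, M.ty2 w = u) {d : ℕ}
    (hd : Cell (sG Y) d (CC GY AY α ε A1 Bs) (bb α ε A1 Bs)) :
    Cell (sG V) d {r | r ∈ sA G F ∧ s ⊆ ℓ r} (bl ℓ s) := by
  refine (IsIso.cell (h.proj_iso hl hc hx hA hy hB hs) fun σ hσ => ?_).1 hd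
  rw [bl_Prj]
  refine or_congr_right' fun hn => ?_
  have hm : σ ∈ sA (sG Y) (CC GY AY α ε A1 Bs) := ⟨Finset.nonempty_iff_ne_empty.2 hn, hσ⟩
  have hcc : ∀ t ∈ σ, t ∈ CC GY AY α ε A1 Bs := fun t ht => hσ.1 (Finset.mem_coe.2 ht)
  obtain ⟨t0, h0⟩ := hm.1
  have c0 := hcc t0 h0
  constructor
  · rintro (⟨z, hz, k⟩ | ⟨w, hw, k⟩)
    · refine ⟨M.ty1 z, fun hu => ?_, fun t ht =>
        (hl t (hcc t ht).1 _).2 (Or.inl ⟨z, k t ht, rfl⟩)⟩
      rcases (hs _).1 hu with ⟨a, ha, e⟩ | ⟨b, -, e⟩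
      · exact hz (ty_inj M.act1 (adq_Prj h.as1.toAS0 c0.1 (c0.2.1 ha) (k t0 h0)) e ▸ ha)
      · exact ne_Prj z b e.symm
    · refine ⟨M.ty2 w, fun hu => ?_, fun t ht =>
        (hl t (hcc t ht).1 _).2 (Or.inr ⟨w, k t ht, rfl⟩)⟩
      rcases (hs _).1 hu with ⟨a, -, e⟩ | ⟨b, hb, e⟩
      · exact ne_Prj a w e
      · exact hw (ty_inj M.act2 (adq_Prj h.as2.toAS0 c0.1 (c0.2.2 hb) (k t0 h0)) e ▸ hb)
  · rintro ⟨u, hu, k⟩
    rcases (hl t0 c0.1 u).1 (k _ h0) with ⟨a, -, rfl⟩ | ⟨b, -, rfl⟩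
    · have ht := top_mem hm
      obtain ⟨z, hz, e⟩ := one_Prj hl (hcc _ ht).1 (k _ ht)
      exact Or.inl ⟨z, fun hz' => hu ((hs _).2 (Or.inl ⟨z, hz', e⟩)),
        fun t h1 v hv => hz v (subset_top h1 hv)⟩
    · obtain ⟨m, ht, hb⟩ := exists_bot hm
      obtain ⟨w, ⟨v, hv, hw⟩, e⟩ := two_Prj hl (hcc _ ht).1 (k _ ht)
      exact Or.inr ⟨w, fun hw' => hu ((hs _).2 (Or.inr ⟨w, hw', e⟩)),
        fun t h1 => ⟨v, hb t h1 hv, hw⟩⟩

end Pool.Agent.MP_6374aa_g.BE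

end

section

/-! Colourings with the fewest bichromatic edges. -/

namespace Pool.Agent.MP_6374aa_g.BE

open Pool.Agent.MP_6374aa_gt Classical Pointwise

variable {Γ : Type} [Group Γ] {Y V V' T T' U : Type} [MulAction Γ Y] [MulAction Γ T]
  [MulAction Γ T'] {GY : SimpleGraph Y} {AY A : Set Y} {G H : SimpleGraph V} {F : Set V}
  {q : Y → V} {X : SimpleGraph T} {X' : SimpleGraph T'} {K : SimpleGraph U} {B Hi : Set U}
  {N Nm Np : Subgroup Γ} {L : Type} [Group L]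

/-- A bounded component contains a monochromatic component with one outer colour. -/
theorem leaf_Min {Z : Set Y} (hX : X.IsTree) {ε : Y → T} (hh : Hm GY A X ε) {x0 x1 : T}
    (h01 : X.Adj x0 x1) {v0 : Y} (hv0 : v0 ∈ HS A X ε x0 x1)
    (hb : ¬ Unb X ε (cmp GY (HS A X ε x0 x1) v0))
    (hZ : ¬ (cmp GY (HS A X ε x0 x1) v0 ∩ Z).Nonempty) :
    ∃ v ∈ A, ∃ x, X.Adj (ε v) x ∧ ∀ u ∈ cmp GY {w | w ∈ A ∧ ε w = ε v} v,
      u ∉ Z ∧ ∀ w ∈ A, GY.Adj u w → ε w = ε v ∨ ε w = x := by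
  obtain ⟨v, hv, hmax⟩ : ∃ v ∈ cmp GY (HS A X ε x0 x1) v0, ∀ w ∈ cmp GY (HS A X ε x0 x1) v0,
      X.dist (ε w) x0 ≤ X.dist (ε v) x0 := by
    by_contra hc
    push Not at hc
    refine hb (unb_of_base hX x0 fun n => ?_)
    induction n with
    | zero => exact ⟨v0, mem_cmp_self hv0, Nat.zero_le _⟩
    | succ n ih =>
      obtain ⟨v, h1, h2⟩ := ih
      obtain ⟨w, h3, h4⟩ := hc v h1
      exact ⟨w, h3, by omega⟩
  have hz : ε v ∈ half X x0 x1 := hv.1.2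
  obtain ⟨x, hx, h0⟩ := exists_step hX (x := ε v) (z := x0)
    fun e => left_not_mem_half x0 x1 (e ▸ hz)
  refine ⟨v, hv.1.1, x, hx, fun u hu => ?_⟩
  have hsub : {w | w ∈ A ∧ ε w = ε v} ⊆ HS A X ε x0 x1 := fun w hw => ⟨hw.1, hw.2 ▸ hz⟩
  have h1 : u ∈ cmp GY (HS A X ε x0 x1) v0 := ⟨hsub hu.1, hv.2.trans (hu.2.mono hsub)⟩
  refine ⟨fun h2 => hZ ⟨u, h1, h2⟩, fun w hw huw => ?_⟩
  by_cases h2 : ε w ∈ half X x (ε v)
  · obtain ⟨h3, h4⟩ := nested hX h01 hz hx h0 h2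
    have h5 := hmax w ((clopen_cmp v0).2 u h1 w ⟨hw, h3⟩ huw)
    exact Or.inl (hX.connected.dist_eq_zero_iff.1 (by omega))
  · have h3 := hh u hu.1.1 w hw huw
    rw [hu.1.2] at h3
    exact Or.inr (cross hX hx.symm h3 (right_mem_half hX hx.symm) h2).2

/-- Recolouring the translates of such a component. -/
theorem step_Min {Z : Set Y} (hT : TA Γ X) (hmem : ∀ (g : Γ), ∀ y ∈ A, g • y ∈ A)
    (hadj : ∀ (g : Γ) y y', GY.Adj y y' → GY.Adj (g • y) (g • y'))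
    (hZ : ∀ (g : Γ), ∀ y ∈ Z, g • y ∈ Z)
    (hne : ∀ v ∈ A, ∃ g : Γ, Reach GY A v (g • v) ∧ ∀ z : T, g • z ≠ z)
    {ε : Y → T} (he : Eqv Γ A ε) {v : Y} (hv : v ∈ A) {x : T} (hx : X.Adj (ε v) x)
    (hC : ∀ u ∈ cmp GY {w | w ∈ A ∧ ε w = ε v} v,
      u ∉ Z ∧ ∀ w ∈ A, GY.Adj u w → ε w = ε v ∨ ε w = x) :
    ∃ ε1 : Y → T, Eqv Γ A ε1 ∧ (∀ w, w ∉ A ∨ w ∈ Z → ε1 w = ε w) ∧
      (∀ u ∈ A, ∀ w ∈ A, GY.Adj u w → ε1 u = ε1 w ∨ (ε1 u = ε u ∧ ε1 w = ε w)) ∧
      ∃ u ∈ A, ∃ w ∈ A, GY.Adj u w ∧ ε u ≠ ε w ∧ ε1 u = ε1 w := by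
  obtain ⟨C, hCe⟩ : ∃ C, C = cmp GY {w | w ∈ A ∧ ε w = ε v} v := ⟨_, rfl⟩
  have c0 : v ∈ C := hCe ▸ mem_cmp_self ⟨hv, rfl⟩
  have c1 : ∀ u ∈ C, u ∈ A ∧ ε u = ε v := fun u hu => (hCe ▸ hu : u ∈ cmp GY _ v).1
  have c2 : ∀ u ∈ C, ∀ w ∈ A, GY.Adj u w → ε w = ε v → w ∈ C := fun u hu w hw h1 h2 =>
    hCe ▸ (clopen_cmp v).2 u (hCe ▸ hu) w ⟨hw, h2⟩ h1
  have c3 : ∀ (k : Γ), ∀ u ∈ C, k • u ∈ C → k • ε v = ε v ∧ ∀ u' ∈ C, k • u' ∈ C := by
    intro k u hu hk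
    have h1 : k • ε v = ε v := by
      have h1 := he k u (c1 u hu).1
      rw [(c1 _ hk).2, (c1 u hu).2] at h1
      exact h1.symm
    refine ⟨h1, fun u' hu' => ?_⟩
    have h2 : IsHom GY {w | w ∈ A ∧ ε w = ε v} GY {w | w ∈ A ∧ ε w = ε v} fun w => k • w :=
      ⟨fun w hw => ⟨hmem k w hw.1, by rw [he k w hw.1, hw.2, h1]⟩,
        fun a _ b _ hab => Or.inr (hadj k a b hab)⟩
    rw [hCe] at hu hk hu' ⊢
    exact ⟨h2.1 u' hu'.1, hk.2.trans ((hu.2.symm.trans hu'.2).map h2)⟩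
  rw [← hCe] at hC
  obtain ⟨u0, hu0, w0, hw0, h0, e0⟩ : ∃ u ∈ C, ∃ w ∈ A, GY.Adj u w ∧ ε w = x := by
    obtain ⟨g, h1, h2⟩ := hne v hv
    obtain ⟨u, h3, w, h4, h5, -⟩ := h1.exit (X := C) ⟨hv, c0⟩ fun h3 => h2 _ (c3 g v c0 h3).1
    exact ⟨u, h3.2, w, h4.1, h5,
      ((hC u h3.2).2 w h4.1 h5).resolve_left fun h6 => h4.2 (c2 u h3.2 w h4.1 h5 h6)⟩
  have c4 : ∀ (k : Γ), ∀ u ∈ C, k • u ∈ C → k • x = x := by
    intro k u hu hk
    obtain ⟨h1, h2⟩ := c3 k u hu hk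
    have h3 := (hC _ (h2 u0 hu0)).2 _ (hmem k w0 hw0) (hadj k _ _ h0)
    rw [he k w0 hw0, e0] at h3
    exact h3.resolve_left fun h4 => hx.ne (MulAction.injective k (h1.trans h4.symm))
  obtain ⟨ε1, s1, s2⟩ : ∃ ε1 : Y → T, (∀ (g : Γ) w, g • w ∈ C → ε1 w = g⁻¹ • x) ∧
      ∀ w, (¬ ∃ g : Γ, g • w ∈ C) → ε1 w = ε w := by
    refine ⟨fun w => if h : ∃ g : Γ, g • w ∈ C then h.choose⁻¹ • x else ε w, fun g w hg => ?_,
      fun w hw => dif_neg hw⟩
    have h1 : ∃ g : Γ, g • w ∈ C := ⟨g, hg⟩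
    have h2 := c4 (g * h1.choose⁻¹) _ h1.choose_spec (by rwa [mul_smul, inv_smul_smul])
    beta_reduce
    rw [dif_pos h1, eq_inv_smul_iff, ← mul_smul, h2]
  have loc : ∀ (g : Γ) u, g • u ∈ C → ∀ w ∈ A, GY.Adj u w → ε1 u = ε1 w := by
    intro g u hu w hw huw
    rw [s1 g u hu]
    rcases (hC _ hu).2 _ (hmem g w hw) (hadj g _ _ huw) with h1 | h1
    · exact (s1 g w (c2 _ hu _ (hmem g w hw) (hadj g _ _ huw) h1)).symm
    · rw [he g w hw] at h1
      rw [s2 w, ← h1, inv_smul_smul]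
      rintro ⟨k, hk⟩
      refine hT.noinv (g * k⁻¹) _ _ hx ?_
      rw [← (c1 _ hk).2, he k w hw, mul_smul, inv_smul_smul, h1]
  refine ⟨ε1, fun k y hy => ?_, fun w hw => s2 w ?_, fun u hu w hw huw => ?_,
    u0, (c1 u0 hu0).1, w0, hw0, h0, ?_, loc 1 u0 (by rwa [one_smul]) w0 hw0 h0⟩
  · by_cases h1 : ∃ g : Γ, g • y ∈ C
    · obtain ⟨g, hg⟩ := h1
      rw [s1 g y hg, s1 (g * k⁻¹) (k • y) (by rwa [mul_smul, inv_smul_smul]), mul_inv_rev, inv_inv,
        mul_smul]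
    · rw [s2 y h1, s2 (k • y) fun ⟨g, hg⟩ => h1 ⟨g * k, by rwa [mul_smul]⟩, he k y hy]
  · rintro ⟨g, hg⟩
    rcases hw with hw | hw
    · exact hw (by simpa using hmem g⁻¹ _ (c1 _ hg).1)
    · exact (hC _ hg).1 (hZ g w hw)
  · by_cases h1 : ∃ g : Γ, g • u ∈ C
    · obtain ⟨g, hg⟩ := h1
      exact Or.inl (loc g u hg w hw huw)
    · by_cases h2 : ∃ g : Γ, g • w ∈ C
      · obtain ⟨g, hg⟩ := h2
        exact Or.inl (loc g w hg u hu huw.symm).symm
      · exact Or.inr ⟨s2 u h1, s2 w h2⟩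
  · rw [(c1 u0 hu0).2, e0]
    exact hx.ne

theorem min_col {Z : Set Y} (hT : TA Γ X) (hmem : ∀ (g : Γ), ∀ y ∈ A, g • y ∈ A)
    (hadj : ∀ (g : Γ) y y', GY.Adj y y' → GY.Adj (g • y) (g • y'))
    (hZ : ∀ (g : Γ), ∀ y ∈ Z, g • y ∈ Z)
    (hfin : ∃ E0 : Set (Y × Y), E0.Finite ∧
      ∀ u ∈ A, ∀ w ∈ A, GY.Adj u w → ∃ g : Γ, (g • u, g • w) ∈ E0)
    (hne : ∀ v ∈ A, ∃ g : Γ, Reach GY A v (g • v) ∧ ∀ z : T, g • z ≠ z)
    {ε : Y → T} (he : Eqv Γ A ε) (hh : Hm GY A X ε) :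
    ∃ ε' : Y → T, Eqv Γ A ε' ∧ Hm GY A X ε' ∧ (∀ v, v ∉ A ∨ v ∈ Z → ε' v = ε v) ∧
      ∀ x y, X.Adj x y → ∀ v ∈ HS A X ε' x y,
        Unb X ε' (cmp GY (HS A X ε' x y) v) ∨ (cmp GY (HS A X ε' x y) v ∩ Z).Nonempty := by
  obtain ⟨E0, hE, hE'⟩ := hfin
  obtain ⟨n, hn⟩ : ∃ n, {e | e ∈ E0 ∧ ε e.1 ≠ ε e.2 ∧ e.1 ∈ A ∧ e.2 ∈ A ∧ GY.Adj e.1 e.2}.ncard = n :=
    ⟨_, rfl⟩
  induction n using Nat.strong_induction_on generalizing ε with
  | _ n ih =>
    by_cases hc : ∀ x y, X.Adj x y → ∀ v ∈ HS A X ε x y,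
        Unb X ε (cmp GY (HS A X ε x y) v) ∨ (cmp GY (HS A X ε x y) v ∩ Z).Nonempty
    · exact ⟨ε, he, hh, fun _ _ => rfl, hc⟩
    · obtain ⟨x0, x1, h01, v0, hv0, h1⟩ : ∃ x y, X.Adj x y ∧ ∃ v ∈ HS A X ε x y,
          ¬ (Unb X ε (cmp GY (HS A X ε x y) v) ∨ (cmp GY (HS A X ε x y) v ∩ Z).Nonempty) := by
        by_contra h1
        refine hc fun x y hxy v hv => ?_
        by_contra h2
        exact h1 ⟨x, y, hxy, v, hv, h2⟩
      obtain ⟨v, hv, x, hx, hC⟩ := leaf_Min hT.tree hh h01 hv0 (fun h2 => h1 (Or.inl h2))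
        fun h2 => h1 (Or.inr h2)
      obtain ⟨ε1, a1, a2, a3, u, hu, w, hw, huw, a4, a5⟩ :=
        step_Min hT hmem hadj hZ hne he hv hx hC
      have b1 : Hm GY A X ε1 := fun a ha b hb hab => by
        rcases a3 a ha b hb hab with h2 | h2
        · exact Or.inl h2
        · rw [h2.1, h2.2]
          exact hh a ha b hb hab
      obtain ⟨g, hg⟩ := hE' u hu w hw huw
      have b2 : {e | e ∈ E0 ∧ ε1 e.1 ≠ ε1 e.2 ∧ e.1 ∈ A ∧ e.2 ∈ A ∧ GY.Adj e.1 e.2} ⊂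
          {e | e ∈ E0 ∧ ε e.1 ≠ ε e.2 ∧ e.1 ∈ A ∧ e.2 ∈ A ∧ GY.Adj e.1 e.2} := by
        refine ⟨fun e he => ⟨he.1, fun h2 => ?_, he.2.2⟩, fun h2 => ?_⟩
        · rcases a3 _ he.2.2.1 _ he.2.2.2.1 he.2.2.2.2 with h3 | h3
          · exact he.2.1 h3
          · exact he.2.1 (h3.1.trans (h2.trans h3.2.symm))
        · refine (h2 (a := (g • u, g • w)) ⟨hg, fun h3 => a4 ?_, hmem g u hu, hmem g w hw,
            hadj g u w huw⟩).2.1 ?_
          · rw [he g u hu, he g w hw] at h3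
            exact MulAction.injective g h3
          · show ε1 (g • u) = ε1 (g • w)
            rw [a1 g u hu, a1 g w hw, a5]
      obtain ⟨ε', c1, c2, c3, c4⟩ := ih _ (hn ▸ Set.ncard_lt_ncard b2
        (hE.subset fun e he => he.1)) a1 b1 rfl
      exact ⟨ε', c1, c2, fun y hy => (c3 y hy).trans (a2 y hy), c4⟩

end Pool.Agent.MP_6374aa_g.BE

end

section

/-! Lines. -/

namespace Pool.Agent.MP_6374aa_g.BE

open Pool.Agent.MP_6374aa_gt Classical Pointwise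

variable {Γ : Type} [Group Γ] {Y V V' T T' U : Type} [MulAction Γ Y] [MulAction Γ T]
  [MulAction Γ T'] {GY : SimpleGraph Y} {AY A : Set Y} {G H : SimpleGraph V} {F : Set V}
  {q : Y → V} {X : SimpleGraph T} {X' : SimpleGraph T'} {K : SimpleGraph U} {B Hi : Set U}
  {N Nm Np : Subgroup Γ} {L : Type} [Group L]

/-- A finite set with at most two exit pairs. -/
def Good_L1 (GY : SimpleGraph Y) (A P : Set Y) : Prop :=
  P.Finite ∧ ∃ e1 e2 : Y × Y, ∀ u ∈ P, ∀ w ∈ A \ P, GY.Adj u w → (u, w) = e1 ∨ (u, w) = e2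

theorem nbr_L1 (hm : Mf GY 1 A ∅) {v : Y} (hv : v ∈ A) :
    ∃ a b, ∀ w ∈ A, GY.Adj v w → w = a ∨ w = b := by
  obtain ⟨a, b, -, h⟩ := two_H1 (sph_one.1 (hm.sph_lk hv (by simp))).1
  exact ⟨a, b, fun w hw e => (h w).1 ⟨hw, e⟩⟩

theorem one_L1 (hm : Mf GY 1 A ∅) {v : Y} (hv : v ∈ A) : Good_L1 GY A {v} := by
  obtain ⟨a, b, h⟩ := nbr_L1 hm hv
  refine ⟨Set.finite_singleton v, (v, a), (v, b), ?_⟩
  rintro u rfl w hw e
  exact (h w hw.1 e).imp (congrArg _) (congrArg _)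

theorem step_L1 (hm : Mf GY 1 A ∅) {P : Set Y} (h : Good_L1 GY A P) {u w : Y} (hu : u ∈ A)
    (huP : u ∈ P) (hw : w ∈ A) (e : GY.Adj u w) : Good_L1 GY A (insert w P) := by
  by_cases hwP : w ∈ P
  · rwa [Set.insert_eq_of_mem hwP]
  obtain ⟨hf, e1, e2, h⟩ := h
  obtain ⟨c, hc⟩ : ∃ c, ∀ z ∈ A, GY.Adj w z → z = u ∨ z = c := by
    obtain ⟨a, b, k⟩ := nbr_L1 hm hw
    rcases k u hu e.symm with rfl | rfl
    · exact ⟨b, k⟩
    · exact ⟨a, fun z hz e' => (k z hz e').symm⟩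
  obtain ⟨e3, h3⟩ : ∃ e3 : Y × Y, ∀ u' ∈ P, ∀ z ∈ A \ P, GY.Adj u' z →
      (u', z) = (u, w) ∨ (u', z) = e3 := by
    rcases h u huP w ⟨hw, hwP⟩ e with rfl | rfl
    · exact ⟨e2, h⟩
    · exact ⟨e1, fun u' hu' z hz e' => (h u' hu' z hz e').symm⟩
  refine ⟨hf.insert w, (w, c), e3, ?_⟩
  rintro u' (rfl | hu') z ⟨hz, hzP⟩ e'
  · rcases hc z hz e' with rfl | rfl
    · exact (hzP (Or.inr huP)).elim
    · exact Or.inl rfl
  · exact Or.inr ((h3 u' hu' z ⟨hz, fun k => hzP (Or.inr k)⟩ e').resolve_left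
      fun k => hzP (Or.inl (congrArg Prod.snd k)))

theorem grow_L1 (hm : Mf GY 1 A ∅) {P : Set Y} (h : Good_L1 GY A P) {a b : Y} (ha : a ∈ P)
    (hr : Reach GY A a b) : ∃ P', Good_L1 GY A P' ∧ P ⊆ P' ∧ b ∈ P' := by
  induction hr with
  | refl => exact ⟨P, h, subset_rfl, ha⟩
  | tail _ k ih =>
    obtain ⟨P', h1, h2, h3⟩ := ih
    exact ⟨_, step_L1 hm h1 k.1 h3 k.2.1 k.2.2, h2.trans (Set.subset_insert _ _), Or.inl rfl⟩

theorem exit_L1 {P Z : Set Y} (hf : P.Finite) (s : Z ⊆ A) (p : Pre GY Z) (i : Z.Infinite) {z : Y}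
    (hz : z ∈ Z) (hP : z ∈ P) : ∃ u ∈ Z, u ∈ P ∧ ∃ w ∈ A \ P, GY.Adj u w := by
  obtain ⟨t, ht, htP⟩ := (i.sdiff hf).nonempty
  obtain ⟨u, hu, w, hw, e, -⟩ := (p z hz t ht).exit ⟨hz, hP⟩ htP
  exact ⟨u, hu.1, hu.2, w, ⟨s hw.1, hw.2⟩, e⟩

theorem three_inf (hm : Mf GY 1 A ∅) (hp : Pre GY A) {Z1 Z2 Z3 : Set Y} (s1 : Z1 ⊆ A)
    (s2 : Z2 ⊆ A) (s3 : Z3 ⊆ A) (p1 : Pre GY Z1) (p2 : Pre GY Z2) (p3 : Pre GY Z3)
    (i1 : Z1.Infinite) (i2 : Z2.Infinite) (i3 : Z3.Infinite) (d12 : Disjoint Z1 Z2)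
    (d13 : Disjoint Z1 Z3) (d23 : Disjoint Z2 Z3) : False := by
  obtain ⟨z1, h1⟩ := i1.nonempty
  obtain ⟨z2, h2⟩ := i2.nonempty
  obtain ⟨z3, h3⟩ := i3.nonempty
  obtain ⟨P2, g2, a2, b2⟩ := grow_L1 hm (one_L1 hm (s1 h1)) rfl (hp z1 (s1 h1) z2 (s2 h2))
  obtain ⟨P, ⟨hf, e1, e2, h⟩, a3, b3⟩ := grow_L1 hm g2 b2 (hp z2 (s2 h2) z3 (s3 h3))
  obtain ⟨u1, k1, l1, w1, m1, n1⟩ := exit_L1 hf s1 p1 i1 h1 (a3 (a2 rfl))
  obtain ⟨u2, k2, l2, w2, m2, n2⟩ := exit_L1 hf s2 p2 i2 h2 (a3 b2)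
  obtain ⟨u3, k3, l3, w3, m3, n3⟩ := exit_L1 hf s3 p3 i3 h3 b3
  have c12 : (u1, w1) ≠ (u2, w2) := fun k => d12.ne_of_mem k1 k2 (congrArg Prod.fst k)
  have c13 : (u1, w1) ≠ (u3, w3) := fun k => d13.ne_of_mem k1 k3 (congrArg Prod.fst k)
  have c23 : (u2, w2) ≠ (u3, w3) := fun k => d23.ne_of_mem k2 k3 (congrArg Prod.fst k)
  rcases h u1 l1 w1 m1 n1 with r1 | r1 <;> rcases h u2 l2 w2 m2 n2 with r2 | r2 <;>
    rcases h u3 l3 w3 m3 n3 with r3 | r3 <;>
    first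
      | exact c12 (r1.trans r2.symm)
      | exact c13 (r1.trans r3.symm)
      | exact c23 (r2.trans r3.symm)

theorem line1d (hm : Mf GY 1 A ∅) (hp : Pre GY A) {Q : Set Y}
    (h1 : ∀ v ∈ A ∩ Q, (cmp GY (A ∩ Q) v).Infinite)
    (h2 : ∀ v ∈ A \ Q, (cmp GY (A \ Q) v).Infinite) : Pre GY (A ∩ Q) := by
  by_cases hQ : A ⊆ Q
  · rwa [Set.inter_eq_left.2 hQ]
  obtain ⟨v, hv, hvQ⟩ := Set.not_subset.1 hQ
  intro a ha b hb
  have hd : ∀ c, Disjoint (cmp GY (A ∩ Q) c) (cmp GY (A \ Q) v) := fun c =>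
    Set.disjoint_left.2 fun z k k' => k'.1.2 k.1.2
  rcases cmp_eq_or_far (G := GY) (A := A ∩ Q) a b with e | e
  · exact (e ▸ mem_cmp_self hb : b ∈ cmp GY (A ∩ Q) a).2
  · exact (three_inf hm hp ((cmp_subset a).trans Set.inter_subset_left)
      ((cmp_subset b).trans Set.inter_subset_left) ((cmp_subset v).trans Set.sdiff_subset)
      (con_cmp ha).2 (con_cmp hb).2 (con_cmp (A := A \ Q) ⟨hv, hvQ⟩).2 (h1 a ha) (h1 b hb) (h2 v ⟨hv, hvQ⟩)
      e.disjoint (hd a) (hd b)).elim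

theorem gdl_of_min (hX : X'.IsTree) {α : Y → Set T} (h : AS Γ GY AY X α) {ε : Y → T'}
    (hh : Hm GY (AY ∩ Bd α) X' ε)
    (hu : ∀ y y', X'.Adj y y' → ∀ v ∈ HS (AY ∩ Bd α) X' ε y y',
      Unb X' ε (cmp GY (HS (AY ∩ Bd α) X' ε y y') v)) : GdL GY AY X α X' ε := by
  have hc : ∀ x x', X.Adj x x' → Clopen GY (AY ∩ Bd α) (Ln AY α x x') := fun x x' e =>
    h.toAS0.clopen_ln e.ne
  have key : ∀ x x', X.Adj x x' → ∀ y y', X'.Adj y y' → ∀ v ∈ HS (Ln AY α x x') X' ε y y',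
      Unb X' ε (cmp GY (HS (Ln AY α x x') X' ε y y') v) := fun x x' e y y' e' v hv => by
    have k : Clopen GY (HS (AY ∩ Bd α) X' ε y y') (HS (Ln AY α x x') X' ε y y') :=
      ⟨fun z hz => ⟨(hc x x' e).1 hz.1, hz.2⟩,
        fun a ha b hb e'' => ⟨(hc x x' e).2 a ha.1 b hb.1 e'', hb.2⟩⟩
    rw [k.cmp_eq hv]
    exact hu y y' e' v (k.1 hv)
  refine ⟨fun x x' e => hh.mono (hc x x' e).1, fun x x' e y y' e' => ?_,
    fun x x' e y y' e' ⟨v, hv⟩ => (key x x' e y y' e' v hv).mono (cmp_subset v)⟩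
  have : Nonempty T' := ⟨y⟩
  have e2 : Ln AY α x x' \ ε ⁻¹' half X' y y' = HS (Ln AY α x x') X' ε y' y :=
    Set.ext fun z => and_congr_right' (not_half_iff hX e')
  refine line1d (Q := ε ⁻¹' half X' y y') (h.line x x' e).1 (h.line x x' e).2.1.2
    (fun v hv => (key x x' e y y' e' v hv).infinite) ?_
  rw [e2]
  exact fun v hv => (key x x' e y' y e'.symm v hv).infinite

end Pool.Agent.MP_6374aa_g.BE

end
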