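import Pool.Agent.MP_6374aa_g.SDefs2
import Pool.Agent.Mg.F6374aa.G69bf5c
import Pool.Agent.Mg.F6374aa.Ge6e9b2

section

/-!
Interfaces for the sphere bundles over the circle and for the counterexample.
-/

namespace Pool.Agent.MP_6374aa_g

open Pool.Agent.MP_6374aa_gt Classical

noncomputable section

variable {V : Type}

/-! ### Orientations -/

def Ori (G : SimpleGraph V) (A : Set V) : Prop := Cx.Orient ⟨V, G, A⟩

/-- `o` alternates across the facets (with `d` vertices) meeting `C`. -/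
def Alt (G : SimpleGraph V) (d : ℕ) (A C : Set V) (o : Finset V → Z2) : Prop :=
  ∀ f ∈ sA G A, f.card = d → Meets f C → ∀ u ∈ Lk G A f, ∀ w ∈ Lk G A f, u ≠ w →
    o (insert u f) ≠ o (insert w f)

/-- The dual graph is bipartite. -/
def Bip (G : SimpleGraph V) (d : ℕ) (A : Set V) : Prop := ∃ o, Alt G d A A o

/-- A proper colouring. -/
def Bal (G : SimpleGraph V) (d : ℕ) (A : Set V) (c : V → ℕ) : Prop :=
  (∀ u ∈ A, c u ≤ d) ∧ ∀ u ∈ A, ∀ w ∈ A, G.Adj u w → c u ≠ c w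

/-- `w` compares local alternating colourings. -/
def W1 (G : SimpleGraph V) (d : ℕ) (A : Set V) (w : V → V → Z2) : Prop :=
  ∃ o : V → Finset V → Z2, (∀ v ∈ A, Alt G d A {v} (o v)) ∧
    ∀ t ∈ sA G A, t.card = d + 1 → ∀ u ∈ t, ∀ v ∈ t, w u v = o u t * o v t

/-- An orientation label. -/
def OL (G : SimpleGraph V) (A : Set V) (w : V → V → Z2) : Prop :=
  Flat G A w ∧ ∀ X ⊆ A, ∀ β, Mfa G 3 X β X → (Ori G X ↔ Pot G X w)

/-! ### Topological invariance -/

def RKI_st : Prop :=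
  ∀ X Y : Cx, X.A.Finite → Y.A.Finite → X.Homeo Y → ∀ n, Rk X.G X.A n → Rk Y.G Y.A n

def ORI_st : Prop := ∀ X Y : Cx, X.Closed → Y.Closed → X.Homeo Y → X.Orient → Y.Orient

/-! ### A sphere and a curve crossing it once -/

structure Hd (G : SimpleGraph V) (A S γ : Set V) (x v w : V) (σ : V → Set V) : Prop where
  cl : Cl G 3 A
  subS : S ⊆ A
  sph : Sph G 3 S
  sided : Sided G 3 A S σ
  subγ : γ ⊆ A
  circ : Sph G 2 γ
  inter : γ ∩ S = {x}
  lk : Lk G γ {x} = {v, w}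
  memv : v ∈ σ x
  memw : w ∉ σ x
  far : Far G (γ \ {x}) (S \ {x})

/-- Existence of the curve with prescribed orientation character. -/
def GAM_st : Prop :=
  ∀ X : Cx, X.Closed → ∀ S ⊆ X.A, Sph X.G 3 S → Con X.G (X.A \ S) → ∀ ε : Prop,
    ((ε ↔ X.Orient) ∨ ∃ Y ⊆ X.A \ S, ∃ β, Mfa X.G 3 Y β Y ∧ ¬ Ori X.G Y) →
    ∃ k S' γ x v w σ, Hd (Cx.sd^[k] X).G (Cx.sd^[k] X).A S' γ x v w σ ∧
      (Ori (sG _) (nb (Cx.sd^[k] X).G (Cx.sd^[k] X).A γ) ↔ ε)

/-- The neighbourhood of the sphere and the curve is bounded by a sphere. -/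
def HDP_st : Prop :=
  ∀ (X : Cx) (S γ : Set X.V) (x v w : X.V) (σ : X.V → Set X.V), Hd X.G X.A S γ x v w σ →
    PM X.sd (nb X.G X.A (S ∪ γ)) (fr X.G X.A (S ∪ γ)) ∧ Sph (sG X.V) 3 (fr X.G X.A (S ∪ γ))

/-- Classification of the capped neighbourhoods. -/
def HDC_st : Prop :=
  ∀ (X X' : Cx) (S γ : Set X.V) (x v w : X.V) (σ : X.V → Set X.V) (S' γ' : Set X'.V)
    (x' v' w' : X'.V) (σ' : X'.V → Set X'.V), Hd X.G X.A S γ x v w σ →
    Hd X'.G X'.A S' γ' x' v' w' σ' →
    (Ori (sG X.V) (nb X.G X.A γ) ↔ Ori (sG X'.V) (nb X'.G X'.A γ')) →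
    (capC X.sd (nb X.G X.A (S ∪ γ)) (fr X.G X.A (S ∪ γ))).Homeo
      (capC X'.sd (nb X'.G X'.A (S' ∪ γ')) (fr X'.G X'.A (S' ∪ γ')))

/-- An annulus. -/
structure Ann (G : SimpleGraph V) (A : Set V) (m : Bool → Set V) : Prop where
  sub : ∀ i, m i ⊆ A
  circ : ∀ i, Sph G 2 (m i)
  far : Far G (m false) (m true)
  mf : Mf G 2 A (m false ∪ m true)
  cap : Sph (capG G m) 3 (capA A Set.univ)

/-- Two annuli glued along their boundaries. -/
structure Tor (G : SimpleGraph V) (a m : Bool → Set V) : Prop where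
  ann : ∀ j, Ann G (a j) m
  ne : NE G (a false) (a true)
  inter : a false ∩ a true = m false ∪ m true

/-- Classification of tori and Klein bottles with two meridians. -/
def SURF_st : Prop :=
  ∀ (V V' : Type) (G : SimpleGraph V) (G' : SimpleGraph V') (a m : Bool → Set V)
    (a' m' : Bool → Set V'), Tor G a m → Tor G' a' m' →
    (Bip (sG V) 2 (sA G (a false ∪ a true)) ↔ Bip (sG V') 2 (sA G' (a' false ∪ a' true))) →
    ∃ f, HM (Rz G (a false ∪ a true)) (Rz G' (a' false ∪ a' true)) f ∧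
      (∀ j, f '' Rz G (a j) = Rz G' (a' j)) ∧ ∀ j, f '' Rz G (m j) = Rz G' (m' j)

/-- The tube is orientable iff its boundary is. -/
def TUBE_st : Prop :=
  ∀ (V : Type) (G : SimpleGraph V) (A γ : Set V), Cl G 3 A → γ ⊆ A → Sph G 2 γ →
    (Ori (sG V) (nb G A γ) ↔ Bip (sG (Finset V)) 2 (sA (sG V) (fr G A γ)))

/-! ### The product of a sphere and a circle -/

def MOD_st : Prop := ∃ M : Cx, M.Closed ∧ M.Orient ∧ M.NonSep ∧ Rk M.G M.A 1 ∧ M.S2S1

/-- The generalized Schoenflies theorem. -/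
def BROWN_st : Prop :=
  ∀ A W S0 S1 : Set (Eu 3), IsCompact A → Shell W S0 S1 → A ∩ W = S0 →
    IsOpen ((A ∪ W) \ S1) → BP 3 (A ∪ W) S1

def PRIME_st : Prop := ∀ M : Cx, M.Closed → Rk M.G M.A 1 → M.S2S1 → M.Prime

/-! ### The counterexample -/

/-- The vertices of the double along `v`. -/
def DV (Γ : SimpleGraph V) (v : V) : Type :=
  {p : V × Bool // p.1 ≠ v ∧ (p.2 = true → ¬ Γ.Adj v p.1)}

instance [Fintype V] (Γ : SimpleGraph V) (v : V) : Fintype (DV Γ v) := by
  unfold DV; infer_instance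

/-- The double along the vertex `v`. -/
def dblG (Γ : SimpleGraph V) (v : V) : SimpleGraph (DV Γ v) where
  Adj p q := Γ.Adj p.1.1 q.1.1 ∧ (p.1.2 = q.1.2 ∨ Γ.Adj v p.1.1 ∨ Γ.Adj v q.1.1)
  symm := ⟨fun _ _ h => ⟨h.1.symm, h.2.elim (fun e => Or.inl e.symm) fun e => Or.inr e.symm⟩⟩
  loopless := ⟨fun _ h => Γ.irrefl h.1⟩

def DBL_st : Prop :=
  ∀ (V : Type) [Fintype V] (Γ : SimpleGraph V) (v : V),
    Nonempty (@Homeomorph (Bdry Γ) (Bdry (dblG Γ v)) (bdryTop Γ) (bdryTop (dblG Γ v)))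

/-- A flag no-square triangulation of the twisted sphere bundle. -/
def CEK_st : Prop :=
  ∃ (n : ℕ) (Γ : SimpleGraph (Fin n)), Cl Γ 3 Set.univ ∧ NoSquare Γ ∧ ¬ Ori Γ Set.univ ∧
    ∃ (S : Set (Fin n)) (v : Fin n), Sph Γ 3 S ∧ Con Γ (Set.univ \ S) ∧ NDC Γ (Set.univ \ S) ∧
      Far Γ {v} S

end

end Pool.Agent.MP_6374aa_g

end

section

/-! Orientations and bipartite dual graphs. -/

namespace Pool.Agent.MP_6374aa_g

open Pool.Agent.MP_6374aa_gt Classical

variable {V V' V'' : Type} {G : SimpleGraph V} {G' : SimpleGraph V'} {G'' : SimpleGraph V''}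
  {A : Set V} {A' : Set V'} {A'' : Set V''} {L : Type} [Group L]

/-- An ordered tetrahedron. -/
structure Tet_O1 (G : SimpleGraph V) (A : Set V) (a b c d : V) : Prop where
  ma : a ∈ A
  mb : b ∈ A
  mc : c ∈ A
  md : d ∈ A
  ab : G.Adj a b
  ac : G.Adj a c
  ad : G.Adj a d
  bc : G.Adj b c
  bd : G.Adj b d
  cd : G.Adj c d

theorem Tet_O1.s1 {a b c d : V} (h : Tet_O1 G A a b c d) : Tet_O1 G A b a c d :=
  ⟨h.mb, h.ma, h.mc, h.md, h.ab.symm, h.bc, h.bd, h.ac, h.ad, h.cd⟩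

theorem Tet_O1.s2 {a b c d : V} (h : Tet_O1 G A a b c d) : Tet_O1 G A a c b d :=
  ⟨h.ma, h.mc, h.mb, h.md, h.ac, h.ab, h.ad, h.bc.symm, h.cd, h.bd⟩

theorem Tet_O1.s3 {a b c d : V} (h : Tet_O1 G A a b c d) : Tet_O1 G A a b d c :=
  ⟨h.ma, h.mb, h.md, h.mc, h.ab, h.ad, h.ac, h.bd, h.bc, h.cd.symm⟩

theorem ori_iff_O1 : Ori G A ↔ ∃ o : V → V → V → V → Bool, ∀ a b c d, Tet_O1 G A a b c d →
    o b a c d ≠ o a b c d ∧ o a c b d ≠ o a b c d ∧ o a b d c ≠ o a b c d ∧
      ∀ e, Tet_O1 G A a b c e → e ≠ d → o a b c e ≠ o a b c d := by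
  have l1 : ∀ a b, b ∈ Lk G A {a} ↔ b ∈ A ∧ G.Adj a b := fun a b => by simp [Lk]
  have l2 : ∀ a b c, c ∈ Lk G A {a, b} ↔ c ∈ A ∧ G.Adj a c ∧ G.Adj b c := fun a b c => by
    simp only [Lk, Set.mem_ofPred_eq, Set.forall_mem_insert, Set.mem_singleton_iff, forall_eq]
  have l3 : ∀ a b c d, d ∈ Lk G A {a, b, c} ↔ d ∈ A ∧ G.Adj a d ∧ G.Adj b d ∧ G.Adj c d :=
    fun a b c d => by
      simp only [Lk, Set.mem_ofPred_eq, Set.forall_mem_insert, Set.mem_singleton_iff, forall_eq]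
  refine exists_congr fun o => ⟨fun h a b c d t => ?_, fun h a ha b hb c hc d hd => ?_⟩
  · obtain ⟨h1, h2, h3, h4⟩ := h a t.ma b ((l1 a b).2 ⟨t.mb, t.ab⟩) c
      ((l2 a b c).2 ⟨t.mc, t.ac, t.bc⟩) d ((l3 a b c d).2 ⟨t.md, t.ad, t.bd, t.cd⟩)
    exact ⟨h1, h2, h3, fun e t' => h4 e ((l3 a b c e).2 ⟨t'.md, t'.ad, t'.bd, t'.cd⟩)⟩
  · have k : ∀ e ∈ Lk G A {a, b, c}, Tet_O1 G A a b c e := fun e he => by
      obtain ⟨b1, b2⟩ := (l1 a b).1 hb
      obtain ⟨c1, c2, c3⟩ := (l2 a b c).1 hc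
      obtain ⟨e1, e2, e3, e4⟩ := (l3 a b c e).1 he
      exact ⟨ha, b1, c1, e1, b2, c2, e2, c3, e3, e4⟩
    obtain ⟨h1, h2, h3, h4⟩ := h a b c d (k d hd)
    exact ⟨h1, h2, h3, fun e he => h4 e (k e he)⟩

theorem ori_pull_O1 {f : V' → V} (hf : IsIso G' A' G A f) (h : Ori G A) : Ori G' A' := by
  obtain ⟨o, ho⟩ := ori_iff_O1.1 h
  have k : ∀ a b c d, Tet_O1 G' A' a b c d → Tet_O1 G A (f a) (f b) (f c) (f d) := fun a b c d t =>
    ⟨hf.1.mapsTo t.ma, hf.1.mapsTo t.mb, hf.1.mapsTo t.mc, hf.1.mapsTo t.md,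
      (hf.2 _ t.ma _ t.mb).1 t.ab, (hf.2 _ t.ma _ t.mc).1 t.ac, (hf.2 _ t.ma _ t.md).1 t.ad,
      (hf.2 _ t.mb _ t.mc).1 t.bc, (hf.2 _ t.mb _ t.md).1 t.bd, (hf.2 _ t.mc _ t.md).1 t.cd⟩
  refine ori_iff_O1.2 ⟨fun a b c d => o (f a) (f b) (f c) (f d), fun a b c d t => ?_⟩
  obtain ⟨h1, h2, h3, h4⟩ := ho _ _ _ _ (k a b c d t)
  exact ⟨h1, h2, h3, fun e t' he => h4 _ (k a b c e t') fun e' => he (hf.1.injOn t'.md t.md e')⟩

theorem empty_O1 [IsEmpty V'] {f : V' → V} (hf : IsIso G' A' G A f) : A = ∅ := by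
  rw [← hf.1.image_eq, Set.eq_empty_of_isEmpty A', Set.image_empty]

theorem Ori.mono (h : Ori G A) {X : Set V} (hX : X ⊆ A) : Ori G X := by
  exact ori_pull_O1 isIso_id ⟨h.choose, fun a ha b hb c hc d hd => by
    obtain ⟨h1, h2, h3, h4⟩ := h.choose_spec a (hX ha) b (lk_mono_C1 hX _ hb) c
      (lk_mono_C1 hX _ hc) d (lk_mono_C1 hX _ hd)
    exact ⟨h1, h2, h3, fun e he => h4 e (lk_mono_C1 hX _ he)⟩⟩

theorem IsIso.ori {f : V' → V} (hf : IsIso G' A' G A f) : Ori G' A' ↔ Ori G A := by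
  refine ⟨fun h => ?_, ori_pull_O1 hf⟩
  rcases isEmpty_or_nonempty V' with he | he
  · rw [empty_O1 hf]
    exact ⟨fun _ _ _ _ => true, fun a ha => ha.elim⟩
  · obtain ⟨g, hg, -⟩ := IsIso.symm' hf
    exact ori_pull_O1 hg h

theorem Alt.mono {d : ℕ} {C X C' : Set V} {o : Finset V → Z2} (h : Alt G d A C o) (hX : X ⊆ A)
    (hC : C' ⊆ C) : Alt G d X C' o := by
  exact fun f hf hc ⟨v, h1, h2⟩ u hu w hw =>
    h f (sA_mono hX hf) hc ⟨v, h1, hC h2⟩ u (lk_mono_C1 hX _ hu) w (lk_mono_C1 hX _ hw)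

theorem Bip.mono {d : ℕ} (h : Bip G d A) {X : Set V} (hX : X ⊆ A) : Bip G d X := by
  exact h.imp fun _ ho => ho.mono hX hX

theorem bip_pull_O1 {d : ℕ} {f : V' → V} (hf : IsIso G' A' G A f) (h : Bip G d A) :
    Bip G' d A' := by
  obtain ⟨o, ho⟩ := h
  refine ⟨fun s => o (s.image f), fun s hs hc _ u hu w hw huw => ?_⟩
  have h1 := IsHom.image_mem (IsIso.hom hf) hs
  have k : ∀ x ∈ Lk G' A' s, f x ∈ Lk G A (s.image f) := fun x hx => by
    rw [Finset.coe_image]
    exact (IsIso.lk hf hs.2.1).1.mapsTo hx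
  simp only [Finset.image_insert]
  exact ho _ h1 ((Finset.card_image_of_injOn (hf.1.injOn.mono hs.2.1)).trans hc)
    (h1.1.imp fun _ e => ⟨e, h1.2.1 e⟩) _ (k u hu) _ (k w hw)
    fun e => huw (hf.1.injOn hu.1 hw.1 e)

theorem IsIso.bip {d : ℕ} {f : V' → V} (hf : IsIso G' A' G A f) : Bip G' d A' ↔ Bip G d A := by
  refine ⟨fun h => ?_, bip_pull_O1 hf⟩
  rcases isEmpty_or_nonempty V' with he | he
  · rw [empty_O1 hf]
    exact ⟨fun _ => 1, fun s _ _ _ u hu => hu.1.elim⟩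
  · obtain ⟨g, hg, -⟩ := IsIso.symm' hf
    exact bip_pull_O1 hg h

theorem Bal.mono {d : ℕ} {c : V → ℕ} (h : Bal G d A c) {X : Set V} (hX : X ⊆ A) : Bal G d X c := by
  exact ⟨fun u hu => h.1 u (hX hu), fun u hu w hw => h.2 u (hX hu) w (hX hw)⟩

theorem bal_sA {d : ℕ} (h : ∀ s ∈ sA G A, s.card ≤ d + 1) :
    Bal (sG V) d (sA G A) fun s => s.card - 1 := by
  refine ⟨fun s hs => ?_, fun s hs t ht e => ?_⟩
  · have := h s hs
    beta_reduce
    omega
  · have h1 := hs.1.card_pos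
    have h2 := ht.1.card_pos
    beta_reduce
    rcases e with e | e <;> have := Finset.card_lt_card e <;> omega

theorem Mfa.card_le {d : ℕ} {β : Finset V → Prop} (h : Mfa G d A β A) :
    ∀ s ∈ sA G A, s.card ≤ d + 1 := by
  exact fun s hs => (h.link hs.2 (hs.1.imp fun _ e => ⟨e, hs.2.1 e⟩)).1

theorem q2_O1 (a b c d : V) : ({b, a, c, d} : Finset V) = {a, b, c, d} := Finset.insert_comm _ _ _

theorem q3_O1 (a b c d : V) : ({c, a, b, d} : Finset V) = {a, b, c, d} := by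
  rw [Finset.insert_comm c a, Finset.insert_comm c b]

theorem q4_O1 (a b c d : V) : ({d, a, b, c} : Finset V) = {a, b, c, d} := by
  rw [Finset.insert_comm d a, Finset.insert_comm d b, Finset.pair_comm d c]

theorem sort_O1 (col : V → ℕ) {f : Finset V} (hc : f.card = 3) (hi : Set.InjOn col f) :
    ∃ x y z, f = {x, y, z} ∧ col x < col y ∧ col y < col z := by
  obtain ⟨x, y, z, h1, h2, h3, rfl⟩ := Finset.card_eq_three.1 hc
  have e1 : col x ≠ col y := fun e => h1 (hi (by simp) (by simp) e)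
  have e2 : col x ≠ col z := fun e => h2 (hi (by simp) (by simp) e)
  have e3 : col y ≠ col z := fun e => h3 (hi (by simp) (by simp) e)
  have : (col x < col y ∧ col y < col z) ∨ (col x < col z ∧ col z < col y) ∨
      (col y < col x ∧ col x < col z) ∨ (col y < col z ∧ col z < col x) ∨
      (col z < col x ∧ col x < col y) ∨ (col z < col y ∧ col y < col x) := by omega
  rcases this with h | h | h | h | h | h <;> refine ⟨_, _, _, ?_, h⟩ <;> ext <;>
    simp only [Finset.mem_insert, Finset.mem_singleton] <;> tauto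

/-- The dual graph is bipartite, in terms of ordered tetrahedra. -/
theorem bip_tet_O1 (h : Bip G 3 A) : ∃ o : Finset V → Bool, ∀ a b c d e, Tet_O1 G A a b c d →
    Tet_O1 G A a b c e → e ≠ d → o {e, a, b, c} ≠ o {d, a, b, c} := by
  obtain ⟨o, ho⟩ := h
  refine ⟨fun s => decide (o s = 1), fun a b c d e t t' hne => ?_⟩
  have k : ∀ x, Tet_O1 G A a b c x → x ∈ Lk G A ({a, b, c} : Finset V) := fun x hx => by
    simp [Lk, hx.md, hx.ad, hx.bd, hx.cd]
  have h1 : ({a, b, c} : Finset V) ∈ sA G A := by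
    refine ⟨by simp, by simp [Set.insert_subset_iff, t.ma, t.mb, t.mc], ?_⟩
    simp [t.ab, t.ac, t.bc]
  have h2 := ho _ h1 (Finset.card_eq_three.2 ⟨a, b, c, t.ab.ne, t.ac.ne, t.bc.ne, rfl⟩)
    ⟨a, by simp, t.ma⟩ e (k e t') d (k d t) hne
  have h3 : ∀ x y : Z2, x ≠ y → decide (x = 1) ≠ decide (y = 1) := by decide
  convert h3 _ _ h2

/-- A tetrahedron ordered by the colours. -/
def Srt_O1 (G : SimpleGraph V) (A : Set V) (col : V → ℕ) (a b c d : V) : Prop :=
  Tet_O1 G A a b c d ∧ col a = 0 ∧ col b = 1 ∧ col c = 2 ∧ col d = 3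

/-- `p` changes when one vertex is replaced. -/
structure Chg_O1 (G : SimpleGraph V) (A : Set V) (col : V → ℕ) (p : V → V → V → V → Bool) :
    Prop where
  c1 : ∀ a b c d e, Srt_O1 G A col a b c d → Srt_O1 G A col e b c d → e ≠ a → p e b c d ≠ p a b c d
  c2 : ∀ a b c d e, Srt_O1 G A col a b c d → Srt_O1 G A col a e c d → e ≠ b → p a e c d ≠ p a b c d
  c3 : ∀ a b c d e, Srt_O1 G A col a b c d → Srt_O1 G A col a b e d → e ≠ c → p a b e d ≠ p a b c d
  c4 : ∀ a b c d e, Srt_O1 G A col a b c d → Srt_O1 G A col a b c e → e ≠ d → p a b c e ≠ p a b c d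

theorem chg_of_bip_O1 (col : V → ℕ) (h : Bip G 3 A) : ∃ p, Chg_O1 G A col p := by
  obtain ⟨o, ho⟩ := bip_tet_O1 h
  refine ⟨fun a b c d => o {a, b, c, d}, fun a b c d e t t' hne => ?_,
    fun a b c d e t t' hne => ?_, fun a b c d e t t' hne => ?_, fun a b c d e t t' hne => ?_⟩
  · exact ho b c d a e t.1.s1.s2.s3 t'.1.s1.s2.s3 hne
  · rw [← q2_O1 a e, ← q2_O1 a b]
    exact ho a c d b e t.1.s2.s3 t'.1.s2.s3 hne
  · rw [← q3_O1 a b e, ← q3_O1 a b c]
    exact ho a b d c e t.1.s3 t'.1.s3 hne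
  · rw [← q4_O1 a b c e, ← q4_O1 a b c d]
    exact ho a b c d e t.1 t'.1 hne

theorem bip_of_chg_O1 {col : V → ℕ} (h : Bal G 3 A col) {p : V → V → V → V → Bool}
    (hp : Chg_O1 G A col p) : Bip G 3 A := by
  obtain ⟨o, ho⟩ : ∃ o : Finset V → Bool, ∀ a b c d, Srt_O1 G A col a b c d →
      o {a, b, c, d} = p a b c d := by
    refine ⟨fun t => decide (∃ a b c d, t = {a, b, c, d} ∧ Srt_O1 G A col a b c d ∧
      p a b c d = true), fun a b c d t => ?_⟩
    rw [Bool.eq_iff_iff, decide_eq_true_iff]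
    refine ⟨?_, fun e => ⟨a, b, c, d, rfl, t, e⟩⟩
    rintro ⟨a', b', c', d', e, ⟨-, e1, e2, e3, e4⟩, e5⟩
    obtain ⟨-, f1, f2, f3, f4⟩ := t
    have k : ∀ x, x ∈ ({a', b', c', d'} : Finset V) → x = a ∨ x = b ∨ x = c ∨ x = d := by
      simp [← e]
    obtain rfl : a' = a := by
      rcases k a' (by simp) with r | r | r | r <;> first | exact r | (rw [r] at e1; omega)
    obtain rfl : b' = b := by
      rcases k b' (by simp) with r | r | r | r <;> first | exact r | (rw [r] at e2; omega)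
    obtain rfl : c' = c := by
      rcases k c' (by simp) with r | r | r | r <;> first | exact r | (rw [r] at e3; omega)
    obtain rfl : d' = d := by
      rcases k d' (by simp) with r | r | r | r <;> first | exact r | (rw [r] at e4; omega)
    exact e5
  have z : ∀ x y : Bool, x ≠ y → (cond x 1 neg : Z2) ≠ cond y 1 neg := by decide
  refine ⟨fun t => cond (o t) 1 neg, fun f hf hc _ u hu w hw huw => z _ _ ?_⟩
  obtain ⟨x, y, z, rfl, h1, h2⟩ := sort_O1 col hc fun a ha b hb e => by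
    by_contra hne
    exact h.2 a (hf.2.1 ha) b (hf.2.1 hb) (hf.2.2 ha hb hne) e
  have k : ∀ v ∈ Lk G A ({x, y, z} : Finset V), Tet_O1 G A x y z v := fun v hv =>
    ⟨hf.2.1 (by simp), hf.2.1 (by simp), hf.2.1 (by simp), hv.1,
      hf.2.2 (by simp) (by simp) (by rintro rfl; omega), hf.2.2 (by simp) (by simp)
        (by rintro rfl; omega), hv.2 x (by simp), hf.2.2 (by simp) (by simp) (by rintro rfl; omega),
      hv.2 y (by simp), hv.2 z (by simp)⟩
  have tu := k u hu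
  have tw := k w hw
  have a1 := h.1 z tu.mc
  have a2 := h.1 u tu.md
  have a3 := h.1 w tw.md
  have a4 := h.2 x tu.ma u tu.md tu.ad
  have a5 := h.2 y tu.mb u tu.md tu.bd
  have a6 := h.2 z tu.mc u tu.md tu.cd
  have a7 := h.2 x tw.ma w tw.md tw.ad
  have a8 := h.2 y tw.mb w tw.md tw.bd
  have a9 := h.2 z tw.mc w tw.md tw.cd
  have : col u = 0 ∨ col u = 1 ∨ col u = 2 ∨ col u = 3 := by omega
  rcases this with e | e | e | e
  · have su : Srt_O1 G A col u x y z := ⟨tu.s3.s2.s1, by omega⟩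
    have sw : Srt_O1 G A col w x y z := ⟨tw.s3.s2.s1, by omega⟩
    rw [ho _ _ _ _ su, ho _ _ _ _ sw]
    exact hp.c1 _ _ _ _ _ sw su huw
  · have su : Srt_O1 G A col x u y z := ⟨tu.s3.s2, by omega⟩
    have sw : Srt_O1 G A col x w y z := ⟨tw.s3.s2, by omega⟩
    rw [q2_O1 x u, q2_O1 x w, ho _ _ _ _ su, ho _ _ _ _ sw]
    exact hp.c2 _ _ _ _ _ sw su huw
  · have su : Srt_O1 G A col x y u z := ⟨tu.s3, by omega⟩
    have sw : Srt_O1 G A col x y w z := ⟨tw.s3, by omega⟩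
    rw [q3_O1 x y u, q3_O1 x y w, ho _ _ _ _ su, ho _ _ _ _ sw]
    exact hp.c3 _ _ _ _ _ sw su huw
  · have su : Srt_O1 G A col x y z u := ⟨tu, by omega⟩
    have sw : Srt_O1 G A col x y z w := ⟨tw, by omega⟩
    rw [q4_O1 x y z u, q4_O1 x y z w, ho _ _ _ _ su, ho _ _ _ _ sw]
    exact hp.c4 _ _ _ _ _ sw su huw

theorem flag_O1 {a b c d : V} (t : Tet_O1 G A a b c d) :
    Srt_O1 (sG V) (sA G A) (fun s => s.card - 1) {a} {b, a} {c, b, a} {d, c, b, a} := by
  have n1 : b ∉ ({a} : Finset V) := by simp [t.ab.ne']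
  have n2 : c ∉ ({b, a} : Finset V) := by simp [t.ac.ne', t.bc.ne']
  have n3 : d ∉ ({c, b, a} : Finset V) := by simp [t.ad.ne', t.bd.ne', t.cd.ne']
  have s1 := Finset.ssubset_insert n1
  have s2 := Finset.ssubset_insert n2
  have s3 := Finset.ssubset_insert n3
  have h4 : ({d, c, b, a} : Finset V) ∈ sA G A := by
    refine ⟨by simp, by simp [Set.insert_subset_iff, t.ma, t.mb, t.mc, t.md], ?_⟩
    simp [t.ab.symm, t.ac.symm, t.ad.symm, t.bc.symm, t.bd.symm, t.cd.symm]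
  have h3 := sA_down h4 s3.subset (by simp)
  have h2 := sA_down h3 s2.subset (by simp)
  refine ⟨⟨sA_down h2 s1.subset (by simp), h2, h3, h4, Or.inl s1, Or.inl (s1.trans s2),
    Or.inl ((s1.trans s2).trans s3), Or.inl s2, Or.inl (s2.trans s3), Or.inl s3⟩, ?_⟩
  simp only [Finset.card_insert_of_notMem n3, Finset.card_insert_of_notMem n2,
    Finset.card_insert_of_notMem n1, Finset.card_singleton, and_self]

theorem step_O1 {s t : Finset V} (hs : s ∈ sA G A) (h : (sG V).Adj s t) {n : ℕ}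
    (h1 : s.card - 1 = n) (h2 : t.card - 1 = n + 1) : ∃ a ∉ s, insert a s = t := by
  have h3 := hs.1.card_pos
  refine Finset.exists_eq_insert_iff.2 ⟨(h.resolve_right fun e => ?_).subset, by omega⟩
  have := Finset.card_lt_card e
  omega

theorem unflag_O1 {s1 s2 s3 s4 : Finset V}
    (t : Srt_O1 (sG V) (sA G A) (fun s => s.card - 1) s1 s2 s3 s4) : ∃ a b c d,
      Tet_O1 G A a b c d ∧ s1 = {a} ∧ s2 = {b, a} ∧ s3 = {c, b, a} ∧ s4 = {d, c, b, a} := by
  obtain ⟨t, e1, e2, e3, e4⟩ := t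
  obtain ⟨a, rfl⟩ : ∃ a, s1 = {a} := Finset.card_eq_one.1 (by
    have := t.ma.1.card_pos
    beta_reduce at e1
    omega)
  obtain ⟨b, hb, rfl⟩ := step_O1 t.ma t.ab e1 e2
  obtain ⟨c, hc, rfl⟩ := step_O1 t.mb t.bc e2 e3
  obtain ⟨d, hd, rfl⟩ := step_O1 t.mc t.cd e3 e4
  simp only [Finset.mem_insert, Finset.mem_singleton, not_or] at hb hc hd
  have m := t.md.2.1
  have k := t.md.2.2
  exact ⟨a, b, c, d, ⟨m (by simp), m (by simp), m (by simp), m (by simp),
    k (by simp) (by simp) (Ne.symm hb), k (by simp) (by simp) (Ne.symm hc.2),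
    k (by simp) (by simp) (Ne.symm hd.2.2), k (by simp) (by simp) (Ne.symm hc.1),
    k (by simp) (by simp) (Ne.symm hd.2.1), k (by simp) (by simp) (Ne.symm hd.1)⟩,
    rfl, rfl, rfl, rfl⟩

theorem ori_iff_bip_sA (h : ∀ s ∈ sA G A, s.card ≤ 4) : Ori G A ↔ Bip (sG V) 3 (sA G A) := by
  have c1 : ∀ a b c : V, ({b, c, a} : Finset V) = {c, b, a} := fun _ _ _ => Finset.insert_comm _ _ _
  have c2 : ∀ a b c d : V, ({c, d, b, a} : Finset V) = {d, c, b, a} := fun _ _ _ _ =>
    Finset.insert_comm _ _ _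
  constructor
  · intro ho
    obtain ⟨o, ho⟩ := ori_iff_O1.1 ho
    have i1 : ∀ {a b c d : V}, Tet_O1 G A a b c d → ∀ {x}, ({b, a} : Finset V) = {x, a} → b = x :=
      fun t _ => (Finset.insert_inj (by simp [t.ab.ne'])).1
    have i2 : ∀ {a b c d : V}, Tet_O1 G A a b c d → ∀ {x},
        ({c, b, a} : Finset V) = {x, b, a} → c = x :=
      fun t _ => (Finset.insert_inj (by simp [t.ac.ne', t.bc.ne'])).1
    have i3 : ∀ {a b c d : V}, Tet_O1 G A a b c d → ∀ {x},
        ({d, c, b, a} : Finset V) = {x, c, b, a} → d = x :=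
      fun t _ => (Finset.insert_inj (by simp [t.ad.ne', t.bd.ne', t.cd.ne'])).1
    obtain ⟨p, hp⟩ : ∃ p : Finset V → Finset V → Finset V → Finset V → Bool, ∀ a b c d,
        Tet_O1 G A a b c d → p {a} {b, a} {c, b, a} {d, c, b, a} = o a b c d := by
      refine ⟨fun s1 s2 s3 s4 => decide (∃ a b c d, s1 = {a} ∧ s2 = {b, a} ∧ s3 = {c, b, a} ∧
        s4 = {d, c, b, a} ∧ o a b c d = true), fun a b c d t => ?_⟩
      rw [Bool.eq_iff_iff, decide_eq_true_iff]
      refine ⟨?_, fun e => ⟨a, b, c, d, rfl, rfl, rfl, rfl, e⟩⟩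
      rintro ⟨a', b', c', d', e1, e2, e3, e4, e5⟩
      obtain rfl := Finset.singleton_injective e1
      obtain rfl := i1 t e2
      obtain rfl := i2 t e3
      obtain rfl := i3 t e4
      exact e5
    refine bip_of_chg_O1 (bal_sA h) (p := p) ⟨?_, ?_, ?_, ?_⟩ <;> intro s1 s2 s3 s4 s t t' hne <;>
      obtain ⟨a, b, c, d, k, rfl, rfl, rfl, rfl⟩ := unflag_O1 t <;>
      obtain ⟨a', b', c', d', k', e1, e2, e3, e4⟩ := unflag_O1 t' <;>
      obtain ⟨h1, h2, h3, h4⟩ := ho a b c d k <;> rw [hp a b c d k]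
    · have : a' ∈ ({b, a} : Finset V) := by simp [e2]
      obtain rfl : a' = b := (Finset.mem_insert.1 this).resolve_right fun e =>
        hne (by rw [e1, Finset.mem_singleton.1 e])
      rwa [e1, Finset.pair_comm a' a, hp _ _ _ _ k.s1]
    · obtain rfl := Finset.singleton_injective e1
      have : b' ∈ ({c, b, a} : Finset V) := by simp [e3]
      obtain rfl : b' = c := (Finset.mem_insert.1 this).resolve_right fun e =>
        (Finset.mem_insert.1 e).elim (fun e => hne (by rw [e2, e])) fun e =>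
          k'.ab.ne' (Finset.mem_singleton.1 e)
      rwa [e2, ← c1 a b b', hp _ _ _ _ k.s2]
    · obtain rfl := Finset.singleton_injective e1
      obtain rfl := i1 k e2
      have : c' ∈ ({d, c, b, a} : Finset V) := by simp [e4]
      obtain rfl : c' = d := (Finset.mem_insert.1 this).resolve_right fun e =>
        (Finset.mem_insert.1 e).elim (fun e => hne (by rw [e3, e])) fun e =>
          (Finset.mem_insert.1 e).elim k'.bc.ne' fun e => k'.ac.ne' (Finset.mem_singleton.1 e)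
      rwa [e3, ← c2 a b c c', hp _ _ _ _ k.s3]
    · obtain rfl := Finset.singleton_injective e1
      obtain rfl := i1 k e2
      obtain rfl := i2 k e3
      rw [e4, hp _ _ _ _ k']
      exact h4 d' k' fun e => hne (by rw [e4, e])
  · intro hb
    obtain ⟨p, hp⟩ := chg_of_bip_O1 (fun s => s.card - 1) hb
    refine ori_iff_O1.2 ⟨fun a b c d => p {a} {b, a} {c, b, a} {d, c, b, a},
      fun a b c d t => ⟨?_, ?_, ?_, fun e t' he => ?_⟩⟩ <;> beta_reduce
    · have f := flag_O1 t.s1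
      rw [Finset.pair_comm a b] at f ⊢
      exact hp.c1 _ _ _ _ _ (flag_O1 t) f fun e => t.ab.ne' (Finset.singleton_injective e)
    · have f := flag_O1 t.s2
      rw [c1 a b c] at f ⊢
      exact hp.c2 _ _ _ _ _ (flag_O1 t) f fun e =>
        t.bc.ne' ((Finset.insert_inj (by simp [t.ac.ne'])).1 e)
    · have f := flag_O1 t.s3
      rw [c2 a b c d] at f ⊢
      exact hp.c3 _ _ _ _ _ (flag_O1 t) f fun e =>
        t.cd.ne' ((Finset.insert_inj (by simp [t.ad.ne', t.bd.ne'])).1 e)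
    · exact hp.c4 _ _ _ _ _ (flag_O1 t) (flag_O1 t') fun e' =>
        he ((Finset.insert_inj (by simp [t'.ad.ne', t'.bd.ne', t'.cd.ne'])).1 e')

/-- The parity of the number of inversions. -/
def par_O1 (x y z w : ℕ) : Bool :=
  decide (x < y) ^^ decide (x < z) ^^ decide (x < w) ^^ decide (y < z) ^^ decide (y < w) ^^
    decide (z < w)

theorem par_swap_O1 : ∀ x ≤ 3, ∀ y ≤ 3, ∀ z ≤ 3, ∀ w ≤ 3, x ≠ y → y ≠ z → z ≠ w →
    par_O1 y x z w ≠ par_O1 x y z w ∧ par_O1 x z y w ≠ par_O1 x y z w ∧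
      par_O1 x y w z ≠ par_O1 x y z w := by
  intro x hx y hy z hz w hw
  interval_cases x <;> interval_cases y <;> interval_cases z <;> interval_cases w <;>
    simp [par_O1]

theorem ori_iff_bip {c : V → ℕ} (h : Bal G 3 A c) : Ori G A ↔ Bip G 3 A := by
  constructor
  · intro ho
    obtain ⟨o, ho⟩ := ori_iff_O1.1 ho
    have z : ∀ {x y x' y' : Bool}, x ≠ y → x' ≠ y' → y' ≠ y → x' ≠ x := by decide
    have k3 : ∀ a b c d e, Tet_O1 G A a b d c → Tet_O1 G A a b d e → e ≠ c →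
        o a b e d ≠ o a b c d := fun a b c d e t t' hne =>
      z (ho _ _ _ _ t).2.2.1 (ho _ _ _ _ t').2.2.1 ((ho _ _ _ _ t).2.2.2 e t' hne)
    have k2 : ∀ a b c d e, Tet_O1 G A a c b d → Tet_O1 G A a c e d → e ≠ b →
        o a e c d ≠ o a b c d := fun a b c d e t t' hne =>
      z (ho _ _ _ _ t).2.1 (ho _ _ _ _ t').2.1 (k3 _ _ _ _ _ t.s3 t'.s3 hne)
    exact bip_of_chg_O1 h (p := o) ⟨fun a b c d e t t' hne =>
      z (ho _ _ _ _ t.1.s1).1 (ho _ _ _ _ t'.1.s1).1 (k2 _ _ _ _ _ t.1.s1.s2 t'.1.s1.s2 hne),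
      fun a b c d e t t' => k2 _ _ _ _ _ t.1.s2 t'.1.s2,
      fun a b c d e t t' => k3 _ _ _ _ _ t.1.s3 t'.1.s3,
      fun a b c d e t t' => (ho _ _ _ _ t.1).2.2.2 e t'.1⟩
  · intro hb
    obtain ⟨o, ho⟩ := bip_tet_O1 hb
    have z : ∀ {x y y' : Bool}, y' ≠ y → (x ^^ y') ≠ (x ^^ y) := by decide
    have z' : ∀ {x x' y : Bool}, x' ≠ x → (x' ^^ y) ≠ (x ^^ y) := by decide
    refine ori_iff_O1.2 ⟨fun x y z w => o {x, y, z, w} ^^ par_O1 (c x) (c y) (c z) (c w),
      fun x y u w t => ?_⟩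
    have a1 := h.1 x t.ma
    have a2 := h.1 y t.mb
    have a3 := h.1 u t.mc
    have a4 := h.1 w t.md
    have b1 := h.2 x t.ma y t.mb t.ab
    have b2 := h.2 y t.mb u t.mc t.bc
    have b3 := h.2 u t.mc w t.md t.cd
    obtain ⟨p1, p2, p3⟩ := par_swap_O1 _ a1 _ a2 _ a3 _ a4 b1 b2 b3
    refine ⟨?_, ?_, ?_, fun e t' he => ?_⟩ <;> beta_reduce
    · rw [q2_O1 x y]
      exact z p1
    · rw [Finset.insert_comm u y]
      exact z p2
    · rw [Finset.pair_comm w u]
      exact z p3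
    · have a5 := h.1 e t'.md
      have b4 := h.2 x t.ma u t.mc t.ac
      have b5 := h.2 x t.ma w t.md t.ad
      have b6 := h.2 y t.mb w t.md t.bd
      have b7 := h.2 x t.ma e t'.md t'.ad
      have b8 := h.2 y t.mb e t'.md t'.bd
      have b9 := h.2 u t.mc e t'.md t'.cd
      rw [show c e = c w by omega, ← q4_O1 x y u e, ← q4_O1 x y u w]
      exact z' (ho _ _ _ _ _ t t' he)

theorem ori_sA (h : ∀ s ∈ sA G A, s.card ≤ 4) : Ori (sG V) (sA G A) ↔ Ori G A := by
  exact (ori_iff_bip (bal_sA h)).trans (ori_iff_bip_sA h).symm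

end Pool.Agent.MP_6374aa_g

end

section

/-! Comparison labels. -/

namespace Pool.Agent.MP_6374aa_g

open Pool.Agent.MP_6374aa_gt Classical

variable {V V' V'' : Type} {G : SimpleGraph V} {G' : SimpleGraph V'} {G'' : SimpleGraph V''}
  {A : Set V} {A' : Set V'} {A'' : Set V''} {L : Type} [Group L]

theorem z2_mul_O2 {a b c e : Z2} (h1 : a ≠ b) (h2 : c ≠ e) : a * c = b * e := by
  have h : ∀ a b c e : ZMod 2, a ≠ b → c ≠ e → a + c = b + e := by decide
  exact h a.toAdd b.toAdd c.toAdd e.toAdd h1 h2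

theorem z2_mid_O2 (a b c : Z2) : a * b * (b * c) = a * c := by
  rw [mul_assoc, ← mul_assoc b, z2_mul_self, one_mul]

theorem z2_swap_O2 {a b p q : Z2} (h : a * b = p * q⁻¹) : a * p = b * q := by
  have k : ∀ a b p q : ZMod 2, a + b = p + -q → a + p = b + q := by decide
  exact k a.toAdd b.toAdd p.toAdd q.toAdd h

theorem z2_pot_O2 (a b e : Z2) : a * b = e * a * (e * b)⁻¹ := by
  have k : ∀ a b e : ZMod 2, a + b = e + a + -(e + b) := by decide
  exact k a.toAdd b.toAdd e.toAdd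

theorem strong_O2 {d : ℕ} {β : Finset V → Prop} (h : Mfa G d A β A) {σ : Finset V}
    (hσ : Clq G A σ) {o1 o2 : Finset V → Z2} {C1 C2 : Set V} (h1 : Alt G d A C1 o1)
    (h2 : Alt G d A C2 o2) (m1 : Meets σ C1) (m2 : Meets σ C2) {t t' : Finset V} (ht : Clq G A t)
    (ht' : Clq G A t') (k1 : σ ⊆ t) (k1' : σ ⊆ t') (k2 : t.card = d + 1) (k2' : t'.card = d + 1) :
    o1 t * o2 t = o1 t' * o2 t' := by
  have hn : σ.Nonempty := m1.imp fun _ hx => hx.1
  exact strong_H7 h hσ hn (fun s => (o1 s * o2 s).toAdd) (fun f a1 a2 a3 u hu w hw e =>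
    congrArg Multiplicative.toAdd (z2_mul_O2
      (h1 f ⟨hn.mono a2, a1⟩ a3 (meets_up_C2 m1 a2) u hu w hw e)
      (h2 f ⟨hn.mono a2, a1⟩ a3 (meets_up_C2 m2 a2) u hu w hw e))) ht ht' k1 k1' k2 k2'

theorem top_O2 {d : ℕ} {β : Finset V → Prop} (h : Mfa G d A β A) {s : Finset V}
    (hs : s ∈ sA G A) : ∃ t ∈ sA G A, s ⊆ t ∧ t.card = d + 1 := by
  obtain ⟨t, h1, h2, h3, -⟩ := h.pure hs.2 (hs.1.imp fun x hx => ⟨hx, hs.2.1 hx⟩)
  exact ⟨t, ⟨hs.1.mono h2, h1⟩, h2, h3⟩

theorem W1.mono {d : ℕ} {w : V → V → Z2} (h : W1 G d A w) {X : Set V} (hX : X ⊆ A) : W1 G d X w := by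
  obtain ⟨o, h1, h2⟩ := h
  exact ⟨o, fun v hv => Alt.mono (h1 v (hX hv)) hX subset_rfl,
    fun t ht => h2 t (sA_mono hX ht)⟩

theorem W1.flat {d : ℕ} {β : Finset V → Prop} {w : V → V → Z2} (hw : W1 G d A w)
    (h : Mfa G d A β A) : Flat G A w := by
  obtain ⟨o, -, h2⟩ := hw
  intro a ha b hb c hc e1 e2 e3
  have hs : ({a, b, c} : Finset V) ∈ sA G A := by
    rw [mem_sA]
    refine ⟨Finset.insert_nonempty _ _, fun x hx => ?_, fun u hu v hv => ?_⟩
    · simp only [Finset.coe_insert, Finset.coe_singleton, Set.mem_insert_iff,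
        Set.mem_singleton_iff] at hx
      rcases hx with rfl | rfl | rfl
      exacts [ha, hb, hc]
    · simp only [Finset.mem_insert, Finset.mem_singleton] at hu hv
      rcases hu with rfl | rfl | rfl <;> rcases hv with rfl | rfl | rfl
      exacts [adq_refl _, e1, e3, adq_symm e1, adq_refl _, e2, adq_symm e3, adq_symm e2, adq_refl _]
  obtain ⟨t, ht, k1, k2⟩ := top_O2 h hs
  have ma : a ∈ t := k1 (by simp)
  have mb : b ∈ t := k1 (by simp)
  have mc : c ∈ t := k1 (by simp)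
  rw [h2 t ht k2 a ma b mb, h2 t ht k2 b mb c mc, h2 t ht k2 a ma c mc, z2_mid_O2]

theorem W1.bip_iff {d : ℕ} {β : Finset V → Prop} {w : V → V → Z2} (hw : W1 G d A w)
    (h : Mfa G d A β A) : Bip G d A ↔ Pot G A w := by
  obtain ⟨o, h1, h2⟩ := hw
  constructor
  · rintro ⟨e, he⟩
    have key : ∀ v, ∃ p : Z2, v ∈ A → ∀ t ∈ sA G A, t.card = d + 1 → v ∈ t → e t * o v t = p := by
      intro v
      by_cases hv : v ∈ A
      · obtain ⟨t0, a1, a2, a3⟩ := top_O2 h (singleton_mem_sA.2 hv)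
        exact ⟨e t0 * o v t0, fun _ t b1 b2 b3 => strong_O2 h (singleton_mem_sA.2 hv).2 he (h1 v hv)
          ⟨v, Finset.mem_singleton_self v, hv⟩ ⟨v, Finset.mem_singleton_self v, rfl⟩ b1.2 a1.2
          (Finset.singleton_subset_iff.2 b3) a2 b2 a3⟩
      · exact ⟨1, fun k => absurd k hv⟩
    choose p hp using key
    refine ⟨p, fun u hu v hv k => ?_⟩
    obtain ⟨t, a1, a2, a3⟩ := top_O2 h (pair_mem_sA hu hv k)
    have mu : u ∈ t := a2 (by simp)
    have mv : v ∈ t := a2 (by simp)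
    rw [h2 t a1 a3 u mu v mv, ← hp u hu t a1 a3 mu, ← hp v hv t a1 a3 mv]
    exact z2_pot_O2 _ _ _
  · rintro ⟨p, hp⟩
    have key : ∀ t : Finset V, ∃ q : Z2, t ∈ sA G A → t.card = d + 1 → ∀ v ∈ t, o v t * p v = q := by
      intro t
      by_cases ht : t ∈ sA G A
      · obtain ⟨x, hx⟩ := ht.1
        refine ⟨o x t * p x, fun _ k v hv => z2_swap_O2 ?_⟩
        rw [← h2 t ht k v hv x hx]
        exact hp v (ht.2.1 hv) x (ht.2.1 hx) ((mem_sA.1 ht).2.2 v hv x hx)
      · exact ⟨1, fun k => absurd k ht⟩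
    choose q hq using key
    refine ⟨q, fun f hf hc hm u hu v hv e => ?_⟩
    obtain ⟨x, hx, hxA⟩ := hm
    have k : ∀ z ∈ Lk G A f, o x (insert z f) * p x = q (insert z f) := fun z hz =>
      hq _ ⟨Finset.insert_nonempty _ _, ins_H7 hf.2 hz⟩
        (by rw [Finset.card_insert_of_notMem (notMem_H7 hz), hc]) x (Finset.mem_insert_of_mem hx)
    rw [← k u hu, ← k v hv]
    intro e'
    exact h1 x hxA f hf hc ⟨x, hx, rfl⟩ u hu v hv e (mul_right_cancel e')

theorem circle_even {c : V → ℕ} (h : Sph G 2 A) {i j : ℕ} (h1 : ∀ u ∈ A, c u = i ∨ c u = j)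
    (h2 : ∀ u ∈ A, ∀ w ∈ A, G.Adj u w → c u ≠ c w) : Even A.ncard := by
  have hf : A.Finite := Cell.finite h
  have hl : ∀ v ∈ A, ∀ s : Finset V, (∀ x, x ∈ s ↔ x ∈ A ∧ G.Adj v x) → s.card = 2 := by
    intro v hv s hs
    rw [← sph_card_H1 h hv, ← Set.ncard_coe_finset]
    congr 1
    ext x
    rw [Finset.mem_coe, hs, mem_lk_H1]
  have key := Finset.card_mul_eq_card_mul (s := hf.toFinset.filter fun u => c u = i)
    (t := hf.toFinset.filter fun u => ¬ c u = i) (m := 2) (n := 2) G.Adj (fun a ha => ?_)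
    (fun b hb => ?_)
  · have e := Finset.card_filter_add_card_filter_not (s := hf.toFinset) fun u => c u = i
    rw [Set.ncard_eq_toFinset_card A hf, ← e]
    exact ⟨(hf.toFinset.filter fun u => c u = i).card, by omega⟩
  · rw [Finset.mem_filter, Set.Finite.mem_toFinset] at ha
    refine hl a ha.1 _ fun x => ?_
    rw [Finset.mem_bipartiteAbove, Finset.mem_filter, Set.Finite.mem_toFinset]
    exact ⟨fun k => ⟨k.1.1, k.2⟩,
      fun k => ⟨⟨k.1, fun e => h2 a ha.1 x k.1 k.2 (ha.2.trans e.symm)⟩, k.2⟩⟩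
  · rw [Finset.mem_filter, Set.Finite.mem_toFinset] at hb
    refine hl b hb.1 _ fun x => ?_
    rw [Finset.mem_bipartiteBelow, Finset.mem_filter, Set.Finite.mem_toFinset]
    refine ⟨fun k => ⟨k.1.1, k.2.symm⟩, fun k => ⟨⟨k.1, ?_⟩, k.2.symm⟩⟩
    have a1 := h1 b hb.1
    have a2 := h1 x k.1
    have a3 := h2 b hb.1 x k.1 k.2
    have a4 := hb.2
    omega

theorem bip_aux_O2 {d : ℕ} {β : Finset V → Prop} {c : V → ℕ} (h : Mfa G d A β A)
    (hd : d = 2 ∨ d = 3) (hn : NDC G A) {K : Finset ℕ} (hK : K.card = d + 1)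
    (h1 : ∀ u ∈ A, c u ∈ K) (h2 : ∀ u ∈ A, ∀ w ∈ A, G.Adj u w → c u ≠ c w) : Bip G d A := by
  refine (dual_pot h hd hn (fun _ => 1) fun e he hc hb => ?_).elim fun ψ hψ => ?_
  swap
  · refine ⟨fun t => Multiplicative.ofAdd (ψ t), fun f hf hc _ u hu w hw e k => ?_⟩
    have a1 := hψ f hf hc u hu w hw e
    have a2 : ψ (insert u f) = ψ (insert w f) := k
    have a3 : ∀ y : ZMod 2, 1 ≠ y + y := by decide
    rw [a2] at a1
    exact a3 _ a1
  have hm : Meets e A := he.1.imp fun x hx => ⟨hx, he.2.1 hx⟩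
  obtain ⟨-, a2⟩ := h.link he.2 hm
  have e2 : d + 1 - e.card = 2 := by omega
  rw [e2] at a2
  have hs : Sph G 2 (Lk G A e) := a2.congr fun s hs => ⟨fun k => hb (by
    simpa using a2.down hs (Finset.empty_subset s) k), False.elim⟩
  have hi : (e.image c).card = e.card := Finset.card_image_of_injOn fun x hx y hy k => by
    by_contra ne
    exact h2 x (he.2.1 hx) y (he.2.1 hy) (he.2.2 hx hy ne) k
  have hsub : e.image c ⊆ K := fun n hn => by
    obtain ⟨x, hx, rfl⟩ := Finset.mem_image.1 hn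
    exact h1 x (he.2.1 hx)
  have h3 : (K \ e.image c).card = 2 := by
    rw [Finset.card_sdiff_of_subset hsub]
    omega
  obtain ⟨i, j, -, hij⟩ := Finset.card_eq_two.1 h3
  have hev : Even (Lk G A e).ncard := circle_even (c := c) (i := i) (j := j) hs (fun u hu => by
    have : c u ∈ K \ e.image c := Finset.mem_sdiff.2 ⟨h1 u hu.1, fun k => by
      obtain ⟨x, hx, e'⟩ := Finset.mem_image.1 k
      exact h2 x (he.2.1 hx) u hu.1 (hu.2 x hx) e'⟩
    rw [hij] at this
    simpa using this) fun u hu w hw => h2 u hu.1 w hw.1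
  have hf : (Lk G A e).Finite := Cell.finite hs
  rw [finsum_mem_eq_finite_toFinset_sum _ hf, Finset.sum_const, ← Set.ncard_eq_toFinset_card _ hf,
    nsmul_eq_mul, mul_one]
  exact (ZMod.natCast_eq_zero_iff_even).2 hev

theorem bip_of_ndc {d : ℕ} {β : Finset V → Prop} {c : V → ℕ} (h : Mfa G d A β A)
    (hd : d = 2 ∨ d = 3) (hn : NDC G A) (hb : Bal G d A c) : Bip G d A :=
  bip_aux_O2 h hd hn (Finset.card_range (d + 1))
    (fun u hu => Finset.mem_range.2 (Nat.lt_succ_of_le (hb.1 u hu))) hb.2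

theorem loc_two_O2 {β : Finset V → Prop} {c : V → ℕ} (h : Mfa G 2 A β A) (hb : Bal G 2 A c)
    {v : V} (hv : v ∈ A) : ∃ o, Alt G 2 A {v} o := by
  have hc := (h v hv).cone le_rfl (c := v) fun a ha => (mem_lk_H1.1 ha).2
  have hs : insert v (Lk G A {v}) ⊆ A := Set.insert_subset hv (lk_subset _)
  obtain ⟨o, ho⟩ := bip_of_ndc hc.mfa (Or.inl rfl) hc.ndc (Bal.mono hb hs)
  refine ⟨o, fun f hf k hm u hu w hw e => ?_⟩
  obtain ⟨x, hx, rfl⟩ := hm
  have a1 : ∀ z ∈ Lk G A f, z ∈ Lk G (insert x (Lk G A {x})) f := fun z hz =>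
    ⟨Or.inr (mem_lk_H1.2 ⟨hz.1, hz.2 x hx⟩), hz.2⟩
  refine ho f ⟨hf.1, fun y hy => ?_, hf.2.2⟩ k ⟨x, hx, Or.inl rfl⟩ u (a1 u hu) w (a1 w hw) e
  by_cases e' : y = x
  · exact Or.inl e'
  · exact Or.inr (mem_lk_H1.2 ⟨hf.2.1 hy, hf.2.2 hx hy (Ne.symm e')⟩)

theorem loc_three_O2 {β : Finset V → Prop} {c : V → ℕ} (h : Mfa G 3 A β A) (hb : Bal G 3 A c)
    {v : V} (hv : v ∈ A) : ∃ o, Alt G 3 A {v} o := by
  have hc := h v hv
  have hK : ((Finset.range 4).erase (c v)).card = 2 + 1 := by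
    rw [Finset.card_erase_of_mem (Finset.mem_range.2 (Nat.lt_succ_of_le (hb.1 v hv))),
      Finset.card_range]
  obtain ⟨o, ho⟩ := bip_aux_O2 (c := c) hc.mfa (Or.inl rfl) hc.ndc hK
    (fun u hu => Finset.mem_erase.2 ⟨(hb.2 v hv u hu.1 (mem_lk_H1.1 hu).2).symm,
      Finset.mem_range.2 (Nat.lt_succ_of_le (hb.1 u hu.1))⟩)
    fun u hu w hw => hb.2 u hu.1 w hw.1
  refine ⟨fun t => o (t.erase v), fun f hf k hm u hu w hw e => ?_⟩
  obtain ⟨x, hx, rfl⟩ := hm
  have a0 : (f.erase x).card = 2 := by rw [Finset.card_erase_of_mem hx, k]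
  have a1 : ∀ z ∈ Lk G A f, z ∈ Lk G (Lk G A {x}) (f.erase x : Finset V) := fun z hz =>
    ⟨mem_lk_H1.2 ⟨hz.1, hz.2 x hx⟩, fun y hy => hz.2 y (Finset.mem_of_mem_erase hy)⟩
  have a2 : ∀ z ∈ Lk G A f, (insert z f).erase x = insert z (f.erase x) := fun z hz =>
    Finset.erase_insert_of_ne fun e' => notMem_H7 hz (e' ▸ hx)
  have a3 : f.erase x ∈ sA G (Lk G A {x}) := by
    refine ⟨Finset.card_pos.1 (by omega), fun y hy => ?_,
      hf.2.2.subset (Finset.coe_subset.2 (Finset.erase_subset _ _))⟩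
    obtain ⟨b1, b2⟩ := Finset.mem_erase.1 hy
    exact mem_lk_H1.2 ⟨hf.2.1 b2, hf.2.2 hx b2 (Ne.symm b1)⟩
  show o ((insert u f).erase x) ≠ o ((insert w f).erase x)
  rw [a2 u hu, a2 w hw]
  exact ho _ a3 a0 (a3.1.imp fun y hy => ⟨hy, a3.2.1 hy⟩) u (a1 u hu) w (a1 w hw) e

theorem exists_w1 {d : ℕ} {β : Finset V → Prop} {c : V → ℕ} (h : Mfa G d A β A)
    (hd : d = 2 ∨ d = 3) (hb : Bal G d A c) : ∃ w, W1 G d A w := by
  have k1 : ∀ v, ∃ o, v ∈ A → Alt G d A {v} o := by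
    intro v
    by_cases hv : v ∈ A
    · rcases hd with rfl | rfl
      · exact (loc_two_O2 h hb hv).imp fun _ k _ => k
      · exact (loc_three_O2 h hb hv).imp fun _ k _ => k
    · exact ⟨fun _ => 1, fun k => absurd k hv⟩
  choose o ho using k1
  have k2 : ∀ u v, ∃ q : Z2, ∀ t ∈ sA G A, t.card = d + 1 → u ∈ t → v ∈ t → q = o u t * o v t := by
    intro u v
    by_cases e : ∃ t ∈ sA G A, t.card = d + 1 ∧ u ∈ t ∧ v ∈ t
    · obtain ⟨t0, a1, a2, a3, a4⟩ := e
      have a5 : ∀ {t : Finset V}, u ∈ t → v ∈ t → ({u, v} : Finset V) ⊆ t := fun b1 b2 =>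
        Finset.insert_subset b1 (Finset.singleton_subset_iff.2 b2)
      exact ⟨o u t0 * o v t0, fun t b1 b2 b3 b4 => strong_O2 h (Clq.subset a1.2 (a5 a3 a4))
        (ho u (a1.2.1 a3)) (ho v (a1.2.1 a4)) ⟨u, by simp, rfl⟩ ⟨v, by simp, rfl⟩ a1.2 b1.2
        (a5 a3 a4) (a5 b3 b4) a2 b2⟩
    · exact ⟨1, fun t b1 b2 b3 b4 => absurd ⟨t, b1, b2, b3, b4⟩ e⟩
  choose w hw using k2
  exact ⟨w, o, ho, fun t ht k u hu v hv => hw u v t ht k hu hv⟩

end Pool.Agent.MP_6374aa_g

end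

section

/-! Boolean checkers for finite flag complexes on the natural numbers. -/

namespace Pool.Agent.MP_6374aa_g

open Pool.Agent.MP_6374aa_gt

/-- The set of entries of a list. -/
def lsK (l : List ℕ) : Set ℕ := {x | x ∈ l}

/-- Depth first search: everything in the last list is reached from the stack. -/
def cgoK (ad : ℕ → ℕ → Bool) : ℕ → List ℕ → List ℕ → Bool
  | 0, _, r => r.isEmpty
  | _ + 1, [], r => r.isEmpty
  | k + 1, x :: st, r =>
    r.isEmpty || cgoK ad k (r.filter (ad x) ++ st) (r.filter fun y => !ad x y)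

def conK (ad : ℕ → ℕ → Bool) : List ℕ → Bool
  | [] => false
  | x :: r => cgoK ad (r.length + 1) [x] r

def s1K (ad : ℕ → ℕ → Bool) : List ℕ → Bool
  | [a, b] => !Nat.beq a b && !ad a b
  | _ => false

def s2K (ad : ℕ → ℕ → Bool) (l : List ℕ) : Bool :=
  conK ad l && l.all fun v => s1K ad (l.filter (ad v))

/-- Every vertex has a connected link among the later ones. -/
def ordK (ad : ℕ → ℕ → Bool) : List ℕ → Bool
  | [] => false
  | v :: r => r.isEmpty || (conK ad (r.filter (ad v)) && ordK ad r)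

def s3K (ad : ℕ → ℕ → Bool) (l : List ℕ) : Bool :=
  ordK ad l && l.all fun v => s2K ad (l.filter (ad v))

def memK (l : List ℕ) (x : ℕ) : Bool := l.any (Nat.beq x)

/-- The list `l` is the link of `v` below `n`. -/
def lkK (ad : ℕ → ℕ → Bool) (n v : ℕ) (l : List ℕ) : Bool :=
  (l.all fun w => Nat.blt w n && ad v w) && (List.range n).all fun w => !ad v w || memK l w

/-- No square with the corner `a`, whose link is `l`. -/
def sqK (ad : ℕ → ℕ → Bool) (n a : ℕ) (l : List ℕ) : Bool :=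
  (List.range n).all fun c => Nat.beq a c || ad a c ||
    (l.filter (ad c)).all fun b => (l.filter (ad c)).all fun d => Nat.beq b d || ad b d

def vtxK (ad : ℕ → ℕ → Bool) (n v : ℕ) (l : List ℕ) : Bool :=
  lkK ad n v l && s3K ad l && sqK ad n v l

/-- All vertices from `v` on. -/
def allK (ad : ℕ → ℕ → Bool) (n : ℕ) : ℕ → List (List ℕ) → Bool
  | _, [] => true
  | v, l :: r => vtxK ad n v l && allK ad n (v + 1) r

def flK (ad : ℕ → ℕ → Bool) (n a b c d : ℕ) : Bool :=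
  Nat.blt a n && Nat.blt b n && Nat.blt c n && Nat.blt d n && ad a b && ad a c && ad b c &&
    ad a d && ad b d && ad c d

/-- A path of flags ending at `a0, b0, c0, d0` with odd parity. -/
def oddK (ad : ℕ → ℕ → Bool) (n a0 b0 c0 d0 : ℕ) : List ℕ → Bool → ℕ → ℕ → ℕ → ℕ → Bool
  | [], s, a, b, c, d => s && Nat.beq a a0 && Nat.beq b b0 && Nat.beq c c0 && Nat.beq d d0
  | 0 :: r, s, a, b, c, d => flK ad n a b c d && oddK ad n a0 b0 c0 d0 r (!s) b a c d
  | 1 :: r, s, a, b, c, d => flK ad n a b c d && oddK ad n a0 b0 c0 d0 r (!s) a c b d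
  | 2 :: r, s, a, b, c, d => flK ad n a b c d && oddK ad n a0 b0 c0 d0 r (!s) a b d c
  | (e + 3) :: r, s, a, b, c, d => flK ad n a b c d && flK ad n a b c e && !Nat.beq e d &&
      oddK ad n a0 b0 c0 d0 r (!s) a b c e

variable {G : SimpleGraph ℕ} {ad : ℕ → ℕ → Bool}

theorem lsK_lk (h : ∀ a b, G.Adj a b ↔ ad a b = true) (l : List ℕ) (v : ℕ) :
    Lk G (lsK l) {v} = lsK (l.filter (ad v)) := by
  ext w
  rw [mem_lk_C1, h]
  exact List.mem_filter.symm

theorem lsK_fin (l : List ℕ) : (lsK l).Finite := l.finite_toSet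

theorem cgoK_sound (h : ∀ a b, G.Adj a b ↔ ad a b = true) {A : Set ℕ} {x0 : ℕ} :
    ∀ (k : ℕ) (st r : List ℕ), cgoK ad k st r = true → (∀ x ∈ st, x ∈ A ∧ Reach G A x x0) →
      (∀ y ∈ r, y ∈ A) → ∀ y ∈ r, Reach G A y x0 := by
  intro k
  induction k with
  | zero =>
    intro st r hc _ _ y hy
    rw [cgoK, List.isEmpty_iff] at hc
    subst hc
    exact absurd hy List.not_mem_nil
  | succ k ih =>
    intro st r hc hs hr y hy
    cases st with
    | nil =>
      rw [cgoK, List.isEmpty_iff] at hc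
      subst hc
      exact absurd hy List.not_mem_nil
    | cons x st =>
      rw [cgoK, Bool.or_eq_true, List.isEmpty_iff] at hc
      rcases hc with hc | hc
      · subst hc
        exact absurd hy List.not_mem_nil
      have hx := hs x List.mem_cons_self
      have key : ∀ z ∈ r, ad x z = true → Reach G A z x0 := fun z hz e =>
        (Reach.single (hr z hz) hx.1 (Or.inr ((h x z).2 e).symm)).trans hx.2
      by_cases e : ad x y = true
      · exact key y hy e
      refine ih _ _ hc ?_ (fun z hz => hr z (List.mem_filter.1 hz).1) y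
        (List.mem_filter.2 ⟨hy, by simpa using e⟩)
      intro z hz
      rcases List.mem_append.1 hz with hz | hz
      · obtain ⟨h1, h2⟩ := List.mem_filter.1 hz
        exact ⟨hr z h1, key z h1 h2⟩
      · exact hs z (List.mem_cons_of_mem _ hz)

theorem conK_sound (h : ∀ a b, G.Adj a b ↔ ad a b = true) {l : List ℕ} (hc : conK ad l = true) :
    Con G (lsK l) := by
  cases l with
  | nil => exact absurd hc (by simp [conK])
  | cons x r =>
    refine ⟨⟨x, List.mem_cons_self⟩, pre_of_base (x := x) fun y hy => ?_⟩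
    rcases List.mem_cons.1 hy with e | hy
    · rw [e]
      exact Reach.refl x
    refine cgoK_sound h _ _ _ hc ?_ (fun z hz => List.mem_cons_of_mem _ hz) y hy
    intro z hz
    rw [List.mem_singleton.1 hz]
    exact ⟨List.mem_cons_self, Reach.refl x⟩

theorem s1K_sound (h : ∀ a b, G.Adj a b ↔ ad a b = true) {l : List ℕ} (hc : s1K ad l = true) :
    Sph G 1 (lsK l) := by
  match l, hc with
  | [a, b], hc =>
    rw [s1K, Bool.and_eq_true, Bool.not_eq_true', Bool.not_eq_true'] at hc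
    have e : lsK [a, b] = {a, b} := by
      ext x
      simp [lsK]
    have hn : ¬ G.Adj a b := by
      rw [h, hc.2]
      exact Bool.false_ne_true
    rw [e]
    refine sph_one.2 ⟨Set.ncard_pair (Nat.ne_of_beq_eq_false hc.1), ?_⟩
    rintro x (rfl | rfl) y (rfl | rfl)
    · exact G.irrefl
    · exact hn
    · exact fun k => hn k.symm
    · exact G.irrefl

theorem s2K_sound (h : ∀ a b, G.Adj a b ↔ ad a b = true) {l : List ℕ} (hc : s2K ad l = true) :
    Sph G 2 (lsK l) := by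
  rw [s2K, Bool.and_eq_true, List.all_eq_true] at hc
  refine cell_two (lsK_fin l) (conK_sound h hc.1) (fun v hv => ?_) (by simp)
  rw [lsK_lk h]
  exact s1K_sound h (hc.2 v hv)

theorem ordK_sound (h : ∀ a b, G.Adj a b ↔ ad a b = true) :
    ∀ l : List ℕ, ordK ad l = true → Con G (lsK l) ∧ SCo G (lsK l) := by
  intro l
  induction l with
  | nil => exact fun hc => absurd hc (by simp [ordK])
  | cons v r ih =>
    intro hc
    rw [ordK, Bool.or_eq_true, List.isEmpty_iff, Bool.and_eq_true] at hc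
    rcases hc with hc | hc
    · subst hc
      refine cone_sco (a := v) List.mem_cons_self fun x hx => ?_
      rw [List.mem_singleton.1 hx]
      exact adq_refl v
    obtain ⟨c1, s1⟩ := ih hc.2
    have cl := conK_sound h hc.1
    rw [← lsK_lk h] at cl
    by_cases hv : v ∈ r
    · have e : lsK (v :: r) = lsK r := by
        ext x
        exact ⟨fun hx => (List.mem_cons.1 hx).elim (fun e => e ▸ hv) id,
          fun hx => List.mem_cons_of_mem _ hx⟩
      rw [e]
      exact ⟨c1, s1⟩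
    have c2 : Con G (insert v (Lk G (lsK r) {v})) ∧ SCo G (insert v (Lk G (lsK r) {v})) :=
      cone_sco (a := v) (Set.mem_insert _ _) fun x hx =>
        hx.elim (fun e => Or.inl e.symm) fun hx => Or.inr (mem_lk_C1.1 hx).2
    have star : ∀ x ∈ lsK (v :: r), Adq G v x → x ∈ insert v (Lk G (lsK r) {v}) := by
      intro x hx hq
      rcases List.mem_cons.1 hx with e | hx
      · exact Or.inl e
      · exact hq.elim (fun e => Or.inl e.symm) fun k => Or.inr (mem_lk_C1.2 ⟨hx, k⟩)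
    have cov : Cov2 G (lsK (v :: r)) (lsK r) (insert v (Lk G (lsK r) {v})) := by
      refine ⟨fun x hx => List.mem_cons_of_mem _ hx, ?_, ?_⟩
      · rintro x (e | hx)
        · exact List.mem_cons.2 (Or.inl e)
        · exact List.mem_cons_of_mem _ hx.1
      intro x hx y hy z hz hxy hyz hxz
      rcases List.mem_cons.1 hx with e1 | h1
      · subst e1
        exact Or.inr ⟨star _ hx (adq_refl _), star _ hy hxy, star _ hz hxz⟩
      rcases List.mem_cons.1 hy with e2 | h2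
      · subst e2
        exact Or.inr ⟨star _ hx (adq_symm hxy), star _ hy (adq_refl _), star _ hz hyz⟩
      rcases List.mem_cons.1 hz with e3 | h3
      · subst e3
        exact Or.inr ⟨star _ hx (adq_symm hxz), star _ hy (adq_symm hyz), star _ hz (adq_refl _)⟩
      exact Or.inl ⟨h1, h2, h3⟩
    have ei : lsK r ∩ insert v (Lk G (lsK r) {v}) = Lk G (lsK r) {v} := by
      ext x
      refine ⟨fun hx => hx.2.elim (fun e => absurd (e ▸ hx.1) hv) id, fun hx => ⟨hx.1, Or.inr hx⟩⟩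
    refine ⟨⟨⟨v, List.mem_cons_self⟩, ?_⟩,
      fun L _ => glue_triv cov (s1 L) (c2.2 L) (by rw [ei]; exact cl.2)⟩
    obtain ⟨w, hw⟩ := cl.1
    refine pre_of_base (x := w) fun x hx => ?_
    rcases List.mem_cons.1 hx with e | h1
    · exact Reach.single hx (cov.1 hw.1) (Or.inr (e ▸ (mem_lk_C1.1 hw).2))
    · exact (c1.2 x h1 w hw.1).mono cov.1

theorem s3K_sound (h : ∀ a b, G.Adj a b ↔ ad a b = true) {l : List ℕ} (hc : s3K ad l = true) :
    Sph G 3 (lsK l) := by
  rw [s3K, Bool.and_eq_true, List.all_eq_true] at hc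
  obtain ⟨c, s⟩ := ordK_sound h l hc.1
  refine cell_three (lsK_fin l) c s.ndc (fun v hv => ?_) (by simp)
  rw [lsK_lk h]
  exact s2K_sound h (hc.2 v hv)

theorem memK_iff {l : List ℕ} {x : ℕ} : memK l x = true ↔ x ∈ l := by
  rw [memK, List.any_eq_true]
  exact ⟨fun ⟨y, hy, e⟩ => Nat.eq_of_beq_eq_true e ▸ hy, fun hx => ⟨x, hx, Nat.beq_refl x⟩⟩

theorem lkK_sound (h : ∀ a b, G.Adj a b ↔ ad a b = true) {n v : ℕ} {l : List ℕ}
    (hc : lkK ad n v l = true) : Lk G (lsK (List.range n)) {v} = lsK l := by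
  rw [lkK, Bool.and_eq_true, List.all_eq_true, List.all_eq_true] at hc
  ext w
  rw [mem_lk_C1, h]
  constructor
  · rintro ⟨h1, h2⟩
    have := hc.2 w h1
    rw [h2] at this
    exact memK_iff.1 this
  · intro hw
    have := hc.1 w hw
    rw [Bool.and_eq_true, Nat.blt_eq] at this
    exact ⟨List.mem_range.2 this.1, this.2⟩

theorem adq_K (h : ∀ a b, G.Adj a b ↔ ad a b = true) {a b : ℕ}
    (e : (Nat.beq a b || ad a b) = true) : Adq G a b := by
  rw [Bool.or_eq_true] at e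
  exact e.imp Nat.eq_of_beq_eq_true (h a b).2

theorem vtxK_sound (h : ∀ a b, G.Adj a b ↔ ad a b = true) {n v : ℕ} {l : List ℕ}
    (hc : vtxK ad n v l = true) : Sph G 3 (Lk G (lsK (List.range n)) {v}) ∧
      ∀ b < n, ∀ c < n, ∀ d < n, G.Adj v b → G.Adj b c → G.Adj c d → G.Adj d v →
        Adq G v c ∨ Adq G b d := by
  rw [vtxK, Bool.and_eq_true, Bool.and_eq_true] at hc
  have e := lkK_sound h hc.1.1
  refine ⟨e ▸ s3K_sound h hc.1.2, fun b hb c hc' d hd h1 h2 h3 h4 => ?_⟩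
  have k := List.all_eq_true.1 hc.2 c (List.mem_range.2 hc')
  rw [Bool.or_eq_true] at k
  refine k.imp (adq_K h) fun k => ?_
  have mb : b ∈ lsK l := e ▸ mem_lk_C1.2 ⟨List.mem_range.2 hb, h1⟩
  have md : d ∈ lsK l := e ▸ mem_lk_C1.2 ⟨List.mem_range.2 hd, h4.symm⟩
  exact adq_K h (List.all_eq_true.1 (List.all_eq_true.1 k b
    (List.mem_filter.2 ⟨mb, (h c b).1 h2.symm⟩)) d (List.mem_filter.2 ⟨md, (h c d).1 h3⟩))

theorem allK_sound {n : ℕ} : ∀ (O : List (List ℕ)) (v : ℕ), allK ad n v O = true →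
    ∀ w, v ≤ w → w < v + O.length → ∃ l, vtxK ad n w l = true := by
  intro O
  induction O with
  | nil => exact fun v _ w h1 h2 => absurd h2 (by simpa using h1)
  | cons l r ih =>
    intro v hc w h1 h2
    rw [allK, Bool.and_eq_true] at hc
    rcases h1.eq_or_lt with e | h1
    · exact ⟨l, e ▸ hc.1⟩
    · refine ih (v + 1) hc.2 w h1 ?_
      rw [List.length_cons] at h2
      omega

theorem flK_sound (h : ∀ a b, G.Adj a b ↔ ad a b = true) {n a b c d : ℕ}
    (hc : flK ad n a b c d = true) : a ∈ lsK (List.range n) ∧ b ∈ Lk G (lsK (List.range n)) {a} ∧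
      c ∈ Lk G (lsK (List.range n)) {a, b} ∧ d ∈ Lk G (lsK (List.range n)) {a, b, c} := by
  simp only [flK, Bool.and_eq_true, Nat.blt_eq, ← h] at hc
  obtain ⟨⟨⟨⟨⟨⟨⟨⟨⟨h1, h2⟩, h3⟩, h4⟩, k1⟩, k2⟩, k3⟩, k4⟩, k5⟩, k6⟩ := hc
  refine ⟨List.mem_range.2 h1, mem_lk_C1.2 ⟨List.mem_range.2 h2, k1⟩,
    ⟨List.mem_range.2 h3, ?_⟩, ⟨List.mem_range.2 h4, ?_⟩⟩
  · rintro _ (rfl | rfl)
    exacts [k2, k3]
  · rintro _ (rfl | rfl | rfl)
    exacts [k4, k5, k6]

theorem flip_K {x y s t : Bool} (h : x ≠ y) (e : y = xor s t) : x = xor (!s) t := by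
  revert x y s t
  decide

theorem oddK_sound (h : ∀ a b, G.Adj a b ↔ ad a b = true) {n a0 b0 c0 d0 : ℕ} {m : List ℕ}
    (hc : oddK ad n a0 b0 c0 d0 m false a0 b0 c0 d0 = true) : ¬ Ori G (lsK (List.range n)) := by
  rintro ⟨o, ho⟩
  have key : ∀ (m : List ℕ) (s : Bool) (a b c d : ℕ), oddK ad n a0 b0 c0 d0 m s a b c d = true →
      o a b c d ≠ xor s (o a0 b0 c0 d0) := by
    intro m
    induction m with
    | nil =>
      intro s a b c d hc
      simp only [oddK, Bool.and_eq_true, Nat.beq_eq] at hc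
      obtain ⟨⟨⟨⟨rfl, rfl⟩, rfl⟩, rfl⟩, rfl⟩ := hc
      cases o a b c d <;> decide
    | cons i r ih =>
      intro s a b c d hc e
      match i, hc with
      | 0, hc =>
        rw [oddK, Bool.and_eq_true] at hc
        obtain ⟨h1, h2, h3, h4⟩ := flK_sound h hc.1
        exact ih _ _ _ _ _ hc.2 (flip_K (ho a h1 b h2 c h3 d h4).1 e)
      | 1, hc =>
        rw [oddK, Bool.and_eq_true] at hc
        obtain ⟨h1, h2, h3, h4⟩ := flK_sound h hc.1
        exact ih _ _ _ _ _ hc.2 (flip_K (ho a h1 b h2 c h3 d h4).2.1 e)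
      | 2, hc =>
        rw [oddK, Bool.and_eq_true] at hc
        obtain ⟨h1, h2, h3, h4⟩ := flK_sound h hc.1
        exact ih _ _ _ _ _ hc.2 (flip_K (ho a h1 b h2 c h3 d h4).2.2.1 e)
      | j + 3, hc =>
        rw [oddK, Bool.and_eq_true, Bool.and_eq_true, Bool.and_eq_true, Bool.not_eq_true'] at hc
        obtain ⟨h1, h2, h3, h4⟩ := flK_sound h hc.1.1.1
        exact ih _ _ _ _ _ hc.2 (flip_K ((ho a h1 b h2 c h3 d h4).2.2.2 j
          (flK_sound h hc.1.1.2).2.2.2 (Nat.ne_of_beq_eq_false hc.1.2)) e)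
  exact key m false _ _ _ _ hc (Bool.false_xor _).symm

end Pool.Agent.MP_6374aa_g

end

section

/-! The boundary of the 600-cell with two opposite vertex stars removed and their links glued. -/

namespace Pool.Agent.MP_6374aa_g

/-- The adjacency matrix: bit `128 * a + b` for `a < b`. -/
def matK : ℕ :=
  0x2000000000000000000000000000000000000000000000000000000000000000080000000000000000000000000000000000000000000000000000000000000002000000000000000000000000000000000000000000000000000000000000000080000000000000000000000000000000000000000000000000000000000000002000000000000000000000000000000000000000000000000000000000000000080000000000000000000000000000222000000000000000000000000000000a10000000000000000000000000000010a00000000000000000000000000000049000000000000000000000000000002108000000000000000000000000000009040000000000000000000000000000104800000000000000000000000000000444000000000000000000000000000030228000000000000000000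000000000300828000000000000000000000000000c1140000000000000000000000000000c041400000000000000000000000000230220000000000000000000000000000b01100000000000000000000000000010c0880000000000000000000000000004c044000000000000000000000000000233000000000000000000000000000000b0c000000000000000000000000000010c3000000000000000000000000000004c0c00000000000000000000000000200202200000000000000000000000002000212020000000000000000000000010008208000000000000000000000000100009080800000000000000000000000801009000000000000000000000000008001050020000000000000000000000040040840000000000000000000000000400044400800000000000000000000002020022200000000000000000000000020100120220000000000000000000000100202090000000000000000000000001001010810800000000000000000000008080090800000000000000000000000080400500820000000000000000000000400808440000000000000000000000004004044040800000000000000000000022020220200000000000000000000000208201080220000000000000000000001100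820210000000000000000000000010408100810800000000000000000000082100900800000000000000000000000809004400820000000000000000000004104081040000000000000000000000040440404040800000000000000000300003003c00000000000000000000000c0000c003c00000000000000000000003000030003c0000000000000000000000c0000c0003c00000000000000000000030000300003c000000000000000000000c0000c00003c0000000000000000000000200280030200000000000000000000001001400032000000000000000000000008002800c10000000000000000000000040014000d000000000000000000000002030280008000000000000000000000010031400080000000000000000000000080c02800400000000000000000000000400c140040000000000000000000000020030280200000000000000000000000100031402000000000000000000000000800c02810000000000000000000000004000c14100000000000000000000000030000020c800000000000000000000000c000020c208000000000000000000000300001034000000000000000000000000c00010310200000000000000000000003000080c8000000000000000000000000c00080c208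0000000000000000000000300040340000000000000000000000000c0040310200000000000000000000000300280c00000000000000000000000000c0220c00800000000000000000000000301403000000000000000000000000000c1103002000000000000000000202020008888880000000000000000000210080024828400000000000000000008021000824428000000000000000000008104002141240000000000000000001008020048284200000000000000000001040080142241000000000000000000040081004214120000000000000000000040404011111100000000000c04144000000000800c08a0000000000c11408000000000400c020a80000000300829000000000020030450000000003022820000000000100301052000000004c04404000000000808c088c000000010c08808000000000402c044380000000b0110100000000002043022c000000023022020000000000101301132000000004c0c004000000000808cc0ac000000010c30008000000000402c30a380000000b0c001000000000020430c5c000000023300020000000000101303532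

def bitK (i : ℕ) : Bool := Nat.beq (Nat.land (Nat.shiftRight matK i) 1) 1

def adK (a b : ℕ) : Bool :=
  bif Nat.blt a b then bitK (128 * a + b) else bif Nat.blt b a then bitK (128 * b + a) else false

def ordK0 : List (List ℕ) :=
  [[12, 20, 32, 21, 8, 1, 97, 93, 4, 101, 77, 24, 13, 96, 92, 5, 10], [96, 76, 97, 90, 10, 0, 21,
  15, 33, 20, 26, 14, 8, 91, 7, 6, 99], [23, 34, 17, 22, 16, 25, 11, 3, 9, 4, 5, 89, 100, 88, 95,
  94, 75], [35, 19, 23, 27, 7, 11, 86, 94, 98, 74, 2, 22, 18, 95, 87, 6, 9], [36, 12, 24, 28, 25,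
  16, 5, 2, 9, 100, 89, 0, 8, 101, 105, 81, 93], [37, 24, 25, 17, 13, 30, 11, 10, 103, 0, 92,
  101, 4, 80, 100, 2, 88], [98, 99, 79, 91, 104, 87, 8, 9, 29, 14, 1, 38, 18, 26, 27, 3, 7], [78,
  86, 102, 98, 99, 90, 3, 6, 27, 11, 19, 26, 39, 1, 31, 10, 15], [93, 85, 105, 97, 91, 104, 4, 9,
  28, 6, 29, 12, 40, 14, 20, 0, 1], [84, 87, 95, 89, 105, 104, 2, 3, 6, 8, 4, 18, 29, 22, 16, 28,
  41], [96, 92, 83, 90, 102, 103, 11, 7, 31, 30, 5, 15, 42, 13, 21, 1, 0], [94, 82, 88, 103, 86,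
  102, 5, 2, 3, 10, 7, 31, 30, 19, 23, 17, 43], [20, 50, 32, 58, 66, 40, 8, 28, 36, 0, 24, 4],
  [5, 37, 24, 0, 32, 59, 10, 21, 30, 42, 70, 52], [6, 1, 8, 29, 38, 26, 20, 40, 68, 33, 51, 62],
  [42, 31, 10, 72, 53, 21, 1, 7, 33, 39, 26, 63], [28, 4, 36, 67, 25, 60, 9, 41, 2, 54, 34, 22],
  [37, 61, 25, 5, 2, 34, 11, 30, 71, 43, 56, 23], [9, 6, 3, 22, 35, 27, 55, 41, 64, 29, 38, 69],
  [35, 57, 23, 43, 11, 3, 73, 65, 27, 31, 39, 7], [8, 1, 0, 21, 32, 12, 50, 44, 33, 51, 14, 40],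
  [52, 13, 32, 42, 44, 53, 20, 33, 15, 10, 1, 0], [55, 45, 54, 35, 18, 41, 9, 16, 34, 2, 23, 3],
  [17, 43, 11, 56, 57, 19, 3, 2, 34, 45, 35, 22], [59, 32, 13, 37, 58, 46, 0, 12, 36, 5, 4, 25],
  [4, 5, 2, 17, 16, 34, 24, 36, 60, 46, 61, 37], [33, 1, 14, 6, 62, 38, 47, 27, 63, 7, 15, 39]]

def ordK1 : List (List ℕ) :=
  [[38, 26, 47, 39, 7, 6, 65, 64, 18, 35, 3, 19], [40, 48, 29, 8, 41, 9, 4, 16, 67, 12, 36, 66],
  [8, 9, 6, 28, 40, 14, 18, 41, 38, 48, 68, 69], [5, 17, 37, 11, 71, 43, 70, 13, 49, 31, 42, 10],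
  [11, 43, 30, 19, 73, 49, 42, 72, 39, 10, 15, 7], [52, 13, 59, 21, 74, 44, 50, 20, 58, 12, 0,
  24], [53, 63, 15, 26, 21, 1, 14, 62, 75, 51, 20, 44], [76, 60, 61, 54, 45, 56, 22, 16, 25, 2,
  17, 23], [19, 57, 65, 27, 77, 64, 18, 55, 3, 45, 23, 22], [67, 28, 16, 60, 66, 78, 25, 46, 58,
  4, 12, 24], [59, 24, 46, 13, 70, 79, 71, 30, 5, 25, 17, 61], [26, 62, 14, 47, 80, 68, 69, 64,
  27, 29, 6, 18], [15, 7, 31, 26, 72, 63, 47, 27, 81, 73, 65, 19], [14, 29, 68, 8, 48, 28, 66,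
  12, 20, 82, 51, 50], [18, 55, 69, 29, 83, 48, 67, 54, 28, 22, 16, 9], [15, 31, 72, 10, 49, 30,
  21, 13, 70, 53, 84, 52], [49, 71, 30, 31, 11, 17, 56, 23, 85, 19, 57, 73], [20, 21, 32, 50, 52,
  74, 53, 95, 33, 94, 75, 51], [35, 77, 57, 55, 23, 22, 56, 34, 54, 76, 96, 97], [36, 58, 24, 78,
  98, 59, 37, 79, 25, 61, 60, 99], [27, 64, 65, 39, 81, 101, 80, 38, 100, 26, 63, 62], [66, 28,
  67, 41, 83, 102, 29, 69, 40, 103, 82, 68], [85, 73, 105, 104, 84, 72, 71, 70, 43, 30, 42, 31],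
  [32, 74, 44, 20, 12, 58, 40, 51, 66, 82, 94, 86], [33, 62, 75, 44, 94, 88, 20, 14, 68, 82, 50,
  40], [70, 84, 42, 87, 95, 53, 21, 13, 59, 44, 32, 74], [42, 21, 52, 15, 33, 44, 72, 63, 75, 84,
  89, 95]]

def ordK2 : List (List ℕ) :=
  [[55, 45, 22, 41, 16, 34, 60, 76, 67, 83, 96, 90], [69, 18, 41, 83, 92, 64, 54, 22, 35, 77, 96,
  45], [76, 34, 61, 17, 23, 45, 57, 97, 43, 91, 71, 85], [19, 73, 43, 65, 93, 85, 56, 97, 77, 35,
  45, 23], [46, 24, 59, 32, 98, 74, 50, 86, 78, 12, 36, 66], [52, 70, 87, 79, 37, 13, 46, 98, 24,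
  58, 74, 32], [78, 99, 46, 61, 76, 90, 25, 34, 54, 36, 16, 67], [76, 99, 91, 60, 46, 79, 56, 71,
  37, 25, 17, 34], [88, 100, 75, 63, 33, 51, 26, 14, 68, 47, 38, 80], [26, 47, 39, 15, 33, 62,
  72, 81, 53, 75, 89, 100], [92, 101, 80, 77, 69, 55, 47, 38, 18, 65, 27, 35], [27, 64, 47, 35,
  77, 101, 57, 93, 19, 73, 81, 39], [48, 82, 102, 40, 67, 28, 86, 78, 36, 12, 58, 50], [41, 83,
  54, 90, 60, 16, 36, 78, 102, 66, 28, 48], [80, 69, 38, 62, 14, 29, 103, 48, 40, 82, 88, 51],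
  [64, 80, 38, 68, 92, 103, 18, 29, 48, 83, 55, 41], [13, 30, 42, 52, 37, 59, 49, 84, 87, 104,
  71, 79], [70, 104, 79, 37, 30, 49, 61, 91, 85, 56, 43, 17], [84, 105, 89, 53, 42, 49, 15, 31,
  73, 81, 39, 63], [85, 105, 49, 93, 81, 72, 31, 39, 43, 57, 65, 19], [59, 32, 52, 87, 95, 44,
  94, 50, 58, 3, 86, 98], [88, 62, 51, 100, 33, 63, 94, 44, 53, 95, 2, 89], [90, 96, 54, 45, 1,
  97, 91, 56, 99, 34, 60, 61], [64, 65, 35, 57, 45, 55, 97, 93, 96, 92, 101, 0], [99, 46, 98, 7,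
  90, 60, 102, 67, 86, 58, 66, 36], [91, 99, 61, 46, 6, 98, 104, 87, 71, 70, 59, 37]]

def ordK3 : List (List ℕ) :=
  [[5, 101, 100, 47, 92, 64, 88, 103, 69, 38, 68, 62], [73, 72, 105, 93, 39, 65, 101, 4, 89, 47,
  63, 100], [88, 103, 68, 11, 51, 94, 50, 40, 86, 66, 48, 102], [69, 55, 92, 96, 54, 41, 103, 10,
  48, 102, 90, 67], [70, 87, 104, 9, 95, 52, 89, 105, 49, 42, 72, 53], [97, 8, 93, 91, 56, 57,
  43, 73, 71, 49, 104, 105], [50, 94, 82, 11, 3, 74, 102, 66, 7, 98, 58, 78], [3, 6, 98, 74, 95,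
  9, 52, 59, 84, 104, 70, 79], [68, 80, 103, 82, 62, 51, 75, 100, 5, 11, 2, 94], [95, 53, 75, 2,
  63, 100, 72, 81, 84, 9, 4, 105], [78, 102, 67, 60, 99, 7, 83, 54, 10, 96, 1, 76], [6, 104, 8,
  79, 1, 99, 76, 61, 71, 85, 97, 56], [77, 0, 101, 64, 5, 80, 96, 55, 69, 10, 83, 103], [8, 97,
  0, 4, 85, 105, 73, 81, 101, 77, 65, 57], [88, 11, 2, 3, 75, 95, 51, 82, 44, 50, 86, 74], [3,
  74, 94, 87, 44, 52, 9, 2, 75, 89, 84, 53], [97, 1, 0, 77, 92, 10, 90, 76, 83, 54, 45, 55], [77,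
  93, 57, 85, 0, 8, 91, 1, 96, 56, 45, 76], [78, 7, 99, 6, 79, 46, 58, 59, 86, 74, 87, 3], [7,
  98, 6, 79, 46, 78, 91, 1, 61, 76, 90, 60], [80, 5, 88, 62, 75, 2, 47, 63, 101, 81, 89, 4],
  [100, 47, 81, 65, 93, 4, 80, 5, 0, 64, 92, 77], [90, 10, 7, 78, 86, 11, 82, 103, 83, 66, 48,
  67], [83, 92, 69, 48, 68, 80, 88, 82, 5, 10, 102, 11], [71, 49, 85, 91, 70, 79, 87, 6, 84, 9,
  105, 8], [8, 104, 9, 84, 85, 49, 4, 93, 73, 72, 89, 81]]

def seamK : List ℕ :=
  [7, 6, 3, 9, 11, 2, 4, 8, 5, 10, 1, 0]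

def restK : List ℕ :=
  [87, 95, 94, 74, 44, 21, 20, 52, 32, 98, 86, 13, 59, 50, 24, 58, 12, 40, 82, 66, 28, 51, 88,
  102, 103, 48, 29, 68, 14, 75, 33, 62, 53, 15, 26, 63, 89, 100, 36, 78, 80, 38, 69, 67, 41, 83,
  90, 16, 46, 25, 60, 99, 37, 79, 42, 70, 84, 92, 54, 96, 61, 76, 34, 17, 30, 22, 18, 55, 64, 27,
  47, 104, 91, 71, 31, 72, 39, 49, 101, 81, 105, 23, 56, 45, 97, 85, 43, 93, 73, 77, 65, 35, 19,
  57]

def movK : List ℕ :=
  [0, 1, 0, 2, 1, 0, 61, 2, 1, 0, 39, 2, 1, 0, 49, 2, 1, 0, 81, 2, 1, 0, 63, 2, 1, 102, 2, 1, 0,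
  93, 2, 10, 1, 2, 4, 0, 1, 2, 13, 1, 2, 99, 0, 1, 2, 3, 2, 24, 1, 2, 23, 0, 1, 2, 35, 1, 2, 15,
  1, 2, 27]

theorem all0_K : allK adK 106 0 ordK0 = true := by
  decide +kernel

theorem all1_K : allK adK 106 27 ordK1 = true := by
  decide +kernel

theorem all2_K : allK adK 106 54 ordK2 = true := by
  decide +kernel

theorem all3_K : allK adK 106 80 ordK3 = true := by
  decide +kernel

theorem con_K : conK adK (List.range 106) = true := by
  decide +kernel

theorem seam_K : s3K adK seamK = true := by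
  decide +kernel

theorem rest_K : ordK adK restK = true := by
  decide +kernel

theorem odd_K : oddK adK 106 0 32 12 24 movK false 0 32 12 24 = true := by
  decide +kernel

theorem sets_K : ((seamK.all fun x => Nat.blt x 106 && !(Nat.beq 44 x || adK 44 x)) &&
    (restK.all fun x => Nat.blt x 106) &&
    (List.range 106).all fun x => xor (memK seamK x) (memK restK x)) = true := by
  decide +kernel

end Pool.Agent.MP_6374aa_g

end

section

/-! A flag no-square triangulation of the twisted sphere bundle over the circle. -/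

namespace Pool.Agent.MP_6374aa_g

open Pool.Agent.MP_6374aa_gt

theorem adK_symm (a b : ℕ) : adK a b = adK b a := by
  unfold adK
  cases h1 : Nat.blt a b <;> cases h2 : Nat.blt b a
  · rfl
  · rfl
  · rfl
  · rw [Nat.blt_eq] at h1 h2
    omega

theorem adK_irrefl (a : ℕ) : adK a a = false := by
  unfold adK
  cases h1 : Nat.blt a a
  · rfl
  · rw [Nat.blt_eq] at h1
    omega

def grK : SimpleGraph ℕ where
  Adj a b := adK a b = true
  symm := ⟨fun a b h => by rw [adK_symm]; exact h⟩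
  loopless := ⟨fun a h => by rw [adK_irrefl] at h; exact Bool.false_ne_true h⟩

theorem grK_adj (a b : ℕ) : grK.Adj a b ↔ adK a b = true := Iff.rfl

theorem vtx_K {w : ℕ} (hw : w < 106) : ∃ l, vtxK adK 106 w l = true := by
  by_cases h0 : w < 27
  · exact allK_sound _ _ all0_K w (Nat.zero_le w) h0
  by_cases h1 : w < 54
  · exact allK_sound _ _ all1_K w (not_lt.1 h0) h1
  by_cases h2 : w < 80
  · exact allK_sound _ _ all2_K w (not_lt.1 h1) h2
  · exact allK_sound _ _ all3_K w (not_lt.1 h2) hw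

theorem cl_K : Cl grK 3 (lsK (List.range 106)) := by
  refine ⟨lsK_fin _, conK_sound grK_adj con_K, mf_empty_iff.2 fun v hv => ?_⟩
  obtain ⟨l, hl⟩ := vtx_K (List.mem_range.1 hv)
  exact (vtxK_sound grK_adj hl).1

theorem iso_K : IsIso (grK.comap (Fin.val : Fin 106 → ℕ)) Set.univ grK (lsK (List.range 106))
    Fin.val :=
  ⟨⟨fun a _ => List.mem_range.2 a.2, Fin.val_injective.injOn,
    fun a ha => ⟨⟨a, List.mem_range.1 ha⟩, Set.mem_univ _, rfl⟩⟩, fun _ _ _ _ => Iff.rfl⟩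

theorem iso_sub_K {l : List ℕ} (h : ∀ x ∈ l, x < 106) :
    IsIso (grK.comap (Fin.val : Fin 106 → ℕ)) (Fin.val ⁻¹' lsK l) grK (lsK l) Fin.val := by
  have k := IsIso.restrict' iso_K (lsK l)
  have e : lsK (List.range 106) ∩ lsK l = lsK l :=
    Set.inter_eq_right.2 fun x hx => List.mem_range.2 (h x hx)
  rwa [Set.univ_inter, e] at k

theorem cek_main : CEK_st := by
  have hs := sets_K
  rw [Bool.and_eq_true, Bool.and_eq_true, List.all_eq_true, List.all_eq_true,
    List.all_eq_true] at hs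
  obtain ⟨⟨h1, h2⟩, h3⟩ := hs
  have k1 : ∀ x ∈ seamK, x < 106 ∧ ¬ Adq grK 44 x := by
    intro x hx
    have := h1 x hx
    rw [Bool.and_eq_true, Nat.blt_eq, Bool.not_eq_true', Bool.or_eq_false_iff] at this
    refine ⟨this.1, fun q => q.elim (Nat.ne_of_beq_eq_false this.2.1) fun q => ?_⟩
    rw [grK_adj, this.2.2] at q
    exact Bool.false_ne_true q
  have k2 : ∀ x ∈ restK, x < 106 := fun x hx => Nat.blt_eq.mp (h2 x hx)
  have e : (Set.univ \ Fin.val ⁻¹' lsK seamK : Set (Fin 106)) = Fin.val ⁻¹' lsK restK := by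
    ext x
    have k := h3 x (List.mem_range.2 x.2)
    have a1 : x ∈ Fin.val ⁻¹' lsK seamK ↔ memK seamK x = true := memK_iff.symm
    have a2 : x ∈ Fin.val ⁻¹' lsK restK ↔ memK restK x = true := memK_iff.symm
    rw [Set.mem_sdiff, a1, a2]
    revert k
    cases memK seamK x <;> cases memK restK x <;> simp
  obtain ⟨c, s⟩ := ordK_sound grK_adj _ rest_K
  refine ⟨106, grK.comap Fin.val, (IsIso.cl iso_K).2 cl_K, ?_,
    fun h => oddK_sound grK_adj odd_K ((IsIso.ori iso_K).1 h), Fin.val ⁻¹' lsK seamK, 44,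
    (IsIso.sph (iso_sub_K fun x hx => (k1 x hx).1)).2 (s3K_sound grK_adj seam_K), ?_, ?_, ?_⟩
  · intro a b c d g1 g2 g3 g4
    obtain ⟨l, hl⟩ := vtx_K a.2
    exact ((vtxK_sound grK_adj hl).2 b b.2 c c.2 d d.2 g1 g2 g3 g4).imp
      (Or.imp_left Fin.ext) (Or.imp_left Fin.ext)
  · rw [e]
    exact (IsIso.con (iso_sub_K k2)).2 c
  · rw [e]
    exact (IsIso.triv (iso_sub_K k2)).2 s.ndc
  · rintro _ rfl b hb q
    exact (k1 b hb).2 (q.imp_left fun q => congrArg Fin.val q)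

end Pool.Agent.MP_6374aa_g

end
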