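import Pool.Agent.Mg.F6374aa.Ge6e9b2

section

/-! Boundaries, and removing vertices. -/

namespace Pool.Agent.MP_6374aa_g

open Pool.Agent.MP_6374aa_gt Classical

variable {V V' V'' : Type} {G : SimpleGraph V} {G' : SimpleGraph V'} {G'' : SimpleGraph V''}
  {A : Set V} {A' : Set V'} {A'' : Set V''} {L : Type} [Group L]

theorem lk_inter_H3 (T s : Set V) : Lk G (A ∩ T) s = Lk G A s ∩ T := by
  ext x
  simp only [Lk, Set.mem_ofPred_eq, Set.mem_inter_iff]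
  tauto

theorem lk_diff_H3 (T s : Set V) : Lk G (A \ T) s = Lk G A s \ T := by
  ext x
  simp only [Lk, Set.mem_ofPred_eq, Set.mem_sdiff]
  tauto

theorem mem_lk_H3 {v w : V} : w ∈ Lk G A {v} ↔ w ∈ A ∧ G.Adj v w := by
  simp [Lk]

theorem sub_empty_H3 (T : Set V) : sub T ∅ := by
  simp [sub]

theorem bd_one_H3 {T : Set V} (h : Ball G 2 A T) : Sph G 1 (A ∩ T) := by
  have hm : Mf G 1 A T := Cell.mfa h
  refine sph_one.2 ⟨?_, ?_⟩
  · have := Cell.arc_ends h (sub_empty_H3 T)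
    convert this using 2
    ext x
    simp [sub]
  · intro a ha b hb hab
    obtain ⟨c, hc, hcT⟩ := ball_one.1 (hm.ball_lk ha.1 ha.2)
    have : b ∈ Lk G A {a} := mem_lk_H3.2 ⟨hb.1, hab⟩
    rw [hc] at this
    exact hcT (this ▸ hb.2)

theorem Ball.bd {d : ℕ} {T : Set V} (h : Ball G (d + 1) A T) (hd : d ≤ 2) : Sph G d (A ∩ T) := by
  rcases d with _ | _ | _ | d
  · obtain ⟨a, rfl, ha⟩ := ball_one.1 h
    refine ⟨?_, fun h => h⟩
    ext x
    simp only [Set.mem_inter_iff, Set.mem_singleton_iff, Set.mem_empty_iff_false, iff_false,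
      not_and]
    rintro rfl
    exact ha
  · exact bd_one_H3 h
  · have hm : Mf G 2 A T := Cell.mfa h
    refine cell_two ((Cell.finite h).inter_of_left T) ⟨?_, ?_⟩ ?_ (by simp)
    · obtain ⟨v, hv, hvT⟩ : ∃ v ∈ A, sub T {v} := by
        have := h.2.2.1.1 (sub_empty_H3 T)
        simpa using this
      exact ⟨v, hv, by simpa [sub] using hvT⟩
    · exact bd_pre hm (Cell.finite h) (Cell.con h).2 (Cell.ndc h)
    · intro v hv
      rw [lk_inter_H3]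
      exact bd_one_H3 (hm.ball_lk hv.1 hv.2)
  · omega

theorem Mfa.bd {d : ℕ} {T C : Set V} (h : Mfa G (d + 1) A (sub T) C) (hd : d ≤ 2) :
    Mfa G d (A ∩ T) (fun _ => False) (C ∩ T) := by
  intro v hv
  rw [lk_inter_H3]
  refine Ball.bd (T := T) (Cell.congr (h v hv.1) fun s _ => ?_) hd
  simp [sub, Set.insert_subset_iff, hv.2]

theorem Mf.bd {d : ℕ} {T : Set V} (h : Mf G (d + 1) A T) (hd : d ≤ 2) : Mf G d (A ∩ T) ∅ := by
  exact mf_empty_iff.2 (Mfa.bd h hd)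

theorem Cell.bd_sd {d : ℕ} {β : Finset V → Prop} (h : Cell G (d + 1) A β) (hb : β ∅)
    (hd : d ≤ 2) : Sph (sG V) d {s | s ∈ sA G A ∧ β s} := by
  exact Ball.bd (h.sd_ball hb (by omega)) hd

/-- A sphere made of boundary simplices is the whole boundary. -/
theorem Cell.bd_all {d : ℕ} {β : Finset V → Prop} (h : Cell G (d + 1) A β) (hd : d ≤ 2)
    {c : Set V} (hc : c ⊆ A) (hs : Sph G d c) (hb : ∀ s, Clq G c s → β s) {t : Finset V}
    (ht : Clq G A t) (hbt : β t) : ↑t ⊆ c := by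
  rcases t.eq_empty_or_nonempty with rfl | hne
  · simp
  have h0 : β ∅ := hb ∅ ⟨by simp, by simp⟩
  have e := Cell.subeq (Sph.sd hs (by omega)) (h.bd_sd h0 hd)
    fun s hs' => ⟨sA_mono hc hs', hb s hs'.2⟩
  have : t ∈ sA G c := by
    rw [e]
    exact ⟨⟨hne, ht⟩, hbt⟩
  exact this.2.1

theorem mf_rem_H3 {d : ℕ}
    (hP : ∀ B : Set V, Sph G d B → ∀ u ∈ B, Ball G d (B \ {u}) (Lk G B {u})) (h : Mf G d A ∅)
    {v : V} (hv : v ∈ A) : Mf G d (A \ {v}) (Lk G A {v}) := by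
  intro u hu
  have hs : Sph G d (Lk G A {u}) := h.sph_lk hu.1 (Set.notMem_empty u)
  rw [lk_diff_H3]
  by_cases huv : G.Adj u v
  · refine Cell.congr (hP _ hs v (mem_lk_H3.2 ⟨hv, huv⟩)) fun s hs' => ?_
    simp only [sub, Finset.coe_insert, Set.insert_subset_iff]
    constructor
    · intro h1
      exact ⟨mem_lk_H3.2 ⟨hu.1, huv.symm⟩, fun x hx =>
        mem_lk_H3.2 ⟨(mem_lk_H3.1 (h1 hx)).1.1, (mem_lk_H3.1 (h1 hx)).2⟩⟩
    · intro h1 x hx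
      exact mem_lk_H3.2 ⟨(hs'.1 hx).1, (mem_lk_H3.1 (h1.2 hx)).2⟩
  · have e : Lk G A {u} \ {v} = Lk G A {u} :=
      Set.sdiff_singleton_eq_self fun hl => huv (mem_lk_H3.1 hl).2
    rw [e]
    refine Cell.congr hs fun s _ => ?_
    simp only [sub, Finset.coe_insert, Set.insert_subset_iff, false_iff, not_and]
    intro h1
    exact (huv (mem_lk_H3.1 h1).2.symm).elim

theorem Sph.rem {d : ℕ} (h : Sph G d A) (hd : d ≤ 3) {v : V} (hv : v ∈ A) :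
    Ball G d (A \ {v}) (Lk G A {v}) := by
  rcases d with _ | _ | _ | _ | d
  · rw [h.1] at hv
    exact hv.elim
  · obtain ⟨h2, hn⟩ := sph_one.1 h
    have h1 : (A \ {v}).ncard = 1 := by
      rw [Set.ncard_sdiff_singleton_of_mem hv, h2]
    obtain ⟨a, ha⟩ := Set.ncard_eq_one.1 h1
    refine ball_one.2 ⟨a, ha, fun hl => ?_⟩
    exact hn v hv a (mem_lk_H3.1 hl).1 (mem_lk_H3.1 hl).2
  · exact h.circle_rem hv
  · have hl : Cell G 2 (Lk G A {v}) fun _ => False := Cell.mfa h v hv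
    obtain ⟨w, hw⟩ := Cell.nonempty hl
    have hw' : w ∈ A \ {v} := ⟨hw.1, fun e => (mem_lk_H3.1 hw).2.ne' e⟩
    refine cell_three ((Cell.finite h).sdiff) ⟨⟨w, hw'⟩, ?_⟩ ?_ ?_ ?_
    · exact rem_one_pre (Cell.con h).2 (Cell.con hl).2
    · exact Cell.compl_ndc h (Set.singleton_subset_iff.2 hv) (con_singleton v) (Or.inl id)
    · exact mf_rem_H3 (fun B hB u hu => hB.circle_rem hu) h.mf hv
    · exact ⟨fun _ => ⟨w, hw', by simpa [sub] using hw⟩, fun _ => sub_empty_H3 _⟩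
  · omega

theorem Mf.rem {d : ℕ} (h : Mf G d A ∅) (hd : d ≤ 3) (v : V) (hv : v ∈ A) :
    Mf G d (A \ {v}) (Lk G A {v}) := by
  exact mf_rem_H3 (fun B hB u hu => hB.rem hd hu) h hv

/-- Removing boundary vertices from a surface. -/
theorem Mfa.rem_bd_two {β : Finset V → Prop} (h : Mfa G 2 A β A) {S : Set V}
    (hf : (A ∩ S).Finite) (hS : ∀ s ∈ sA G (A ∩ S), β s) : PE G (A \ S) G A id := by
  refine rem_seq hf fun v hv S' hS' => Cell.arc_rem (h v hv.1) fun s hs => hS _ ?_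
  obtain ⟨h1, h2⟩ := clq_iff.1 hs
  refine mem_sA.2 ⟨Finset.insert_nonempty _ _, ?_, ?_⟩
  · rw [Finset.coe_insert, Set.insert_subset_iff]
    exact ⟨hv, fun x hx => ⟨(h1 hx).1.1, hS' (h1 hx).2⟩⟩
  · intro u hu w hw
    rcases Finset.mem_insert.1 hu with rfl | hu' <;> rcases Finset.mem_insert.1 hw with rfl | hw'
    · exact adq_refl _
    · exact Or.inr (mem_lk_H3.1 (h1 hw').1).2
    · exact Or.inr (mem_lk_H3.1 (h1 hu').1).2.symm
    · exact h2 u hu' w hw'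

theorem Cell.rem_bd_con {d : ℕ} {β : Finset V → Prop} (h : Cell G d A β) (hd : d ≤ 3) {S : Set V}
    (hS : ∀ s, Clq G (A ∩ S) s → β s) : Con G (A \ S) ∧ NDC G (A \ S) := by
  have h0 : β ∅ := hS ∅ ⟨by simp, by simp⟩
  rcases d with _ | _ | _ | _ | d
  · exact (h.2 h0).elim
  · have h1 : A.ncard = 1 := by simpa using h.2.2.1.1 h0
    obtain ⟨a, rfl⟩ := Set.ncard_eq_one.1 h1
    have ha : a ∉ S := fun ha => (h.2.2.2 a rfl).2 (hS _ ⟨by simpa using ha, by simp⟩)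
    have e : ({a} : Set V) \ S = {a} := by
      ext x
      simp only [Set.mem_sdiff, Set.mem_singleton_iff, and_iff_left_iff_imp]
      rintro rfl
      exact ha
    rw [e]
    refine ⟨con_singleton a, SCo.ndc (sco_of_no_adj ?_)⟩
    rintro x rfl y rfl
    exact G.irrefl
  · exact ⟨(h.arc_rem hS).1, (h.arc_rem hS).2.ndc⟩
  · have hp := Mfa.rem_bd_two h.mfa (S := S) (h.finite.inter_of_left S) fun s hs => hS s hs.2
    exact ⟨hp.con.2 h.con, hp.triv.2 h.ndc⟩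
  · omega

/-- The statement of the removal of a simplex in a fixed dimension. -/
def RS_H3 (G : SimpleGraph V) (d : ℕ) : Prop :=
  ∀ (B : Set V) (τ : Finset V), Sph G d B → NSq G B → τ ∈ sA G B →
    Ball G d (B \ τ) {u | ∃ t ∈ τ, G.Adj t u}

theorem nsq_lk_H3 (hn : NSq G A) (s : Set V) : NSq G (Lk G A s) :=
  fun a ha b hb c hc d hd => hn a ha.1 b hb.1 c hc.1 d hd.1

theorem rs_mf_H3 {d : ℕ} (hP : RS_H3 G d) (h : Mf G d A ∅) (hn : NSq G A) {σ : Finset V}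
    (hσ : σ ∈ sA G A) : Mf G d (A \ σ) {u | ∃ t ∈ σ, G.Adj t u} := by
  intro u hu
  have hs : Sph G d (Lk G A {u}) := h.sph_lk hu.1 (Set.notMem_empty u)
  obtain ⟨-, hσA, hσc⟩ := mem_sA.1 hσ
  have e : Lk G (A \ σ) {u} = Lk G A {u} \ (σ.filter fun t => G.Adj u t : Finset V) := by
    ext x
    simp only [mem_lk_H3, Set.mem_sdiff, Finset.mem_coe, Finset.mem_filter]
    tauto
  rw [e]
  rcases (σ.filter fun t => G.Adj u t).eq_empty_or_nonempty with h0 | ⟨t, ht⟩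
  · rw [h0, Finset.coe_empty, Set.sdiff_empty]
    refine Cell.congr hs fun s _ => ?_
    simp only [sub, Finset.coe_insert, Set.insert_subset_iff, false_iff, not_and]
    rintro ⟨t, ht, htu⟩
    have : t ∈ σ.filter fun t => G.Adj u t := Finset.mem_filter.2 ⟨ht, htu.symm⟩
    rw [h0] at this
    exact (Finset.notMem_empty t this).elim
  · have hτ : (σ.filter fun t => G.Adj u t) ∈ sA G (Lk G A {u}) := by
      refine mem_sA.2 ⟨⟨t, ht⟩, fun x hx => ?_, fun x hx y hy => ?_⟩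
      · have hx' := Finset.mem_filter.1 (Finset.mem_coe.1 hx)
        exact mem_lk_H3.2 ⟨hσA hx'.1, hx'.2⟩
      · exact hσc x (Finset.mem_filter.1 hx).1 y (Finset.mem_filter.1 hy).1
    obtain ⟨ht1, ht2⟩ := Finset.mem_filter.1 ht
    refine Cell.congr (hP _ _ hs (nsq_lk_H3 hn _) hτ) fun s hs' => ?_
    simp only [sub, Finset.coe_insert, Set.insert_subset_iff]
    constructor
    · intro h1
      refine ⟨⟨t, ht1, ht2.symm⟩, fun x hx => ?_⟩
      obtain ⟨y, hy, hyx⟩ := h1 hx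
      exact ⟨y, (Finset.mem_filter.1 hy).1, hyx⟩
    · rintro ⟨-, h1⟩ x hx
      obtain ⟨y, hy, hyx⟩ := h1 hx
      obtain ⟨hx1, hx2⟩ := hs'.1 hx
      obtain ⟨hxA, hux⟩ := mem_lk_H3.1 hx1
      have hxσ : x ∉ σ := fun hxσ => hx2 (Finset.mem_coe.2 (Finset.mem_filter.2 ⟨hxσ, hux⟩))
      rcases hσc y hy t ht1 with rfl | hyt
      · exact ⟨y, ht, hyx⟩
      rcases hn u hu.1 x hxA y (hσA hy) t (hσA ht1) hux hyx.symm hyt ht2.symm with
        (rfl | h2) | (rfl | h2)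
      · exact (hu.2 hy).elim
      · exact ⟨y, Finset.mem_filter.2 ⟨hy, h2⟩, hyx⟩
      · exact (hxσ ht1).elim
      · exact ⟨t, ht, h2.symm⟩

theorem rs_lk_H3 {d : ℕ} (hP : RS_H3 G d) (h : Mf G d A ∅) (hn : NSq G A) {t : V} {τ : Finset V}
    (hσ : insert t τ ∈ sA G A) (ht : t ∉ τ) (hτ : τ.Nonempty) : Con G (Lk G A {t} \ τ) := by
  obtain ⟨-, hσA, hσc⟩ := mem_sA.1 hσ
  have htA : t ∈ A := hσA (Finset.mem_insert_self t τ)
  refine Cell.ball_con (hP _ τ (h.sph_lk htA (Set.notMem_empty t)) (nsq_lk_H3 hn _) ?_)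
    (sub_empty_H3 _)
  refine mem_sA.2 ⟨hτ, fun x hx => ?_, fun x hx y hy =>
    hσc x (Finset.mem_insert_of_mem hx) y (Finset.mem_insert_of_mem hy)⟩
  have hx' : x ∈ insert t τ := Finset.mem_insert_of_mem (Finset.mem_coe.1 hx)
  refine mem_lk_H3.2 ⟨hσA hx', ?_⟩
  rcases hσc t (Finset.mem_insert_self t τ) x hx' with rfl | h1
  · exact (ht hx).elim
  · exact h1

theorem rs_pre_H3 {d : ℕ} (hP : RS_H3 G d) (h : Mf G d A ∅) (hn : NSq G A)
    (h1 : ∀ t ∈ A, Pre G (A \ {t})) (σ : Finset V) : σ ∈ sA G A → Pre G (A \ σ) := by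
  induction σ using Finset.induction_on with
  | empty => intro hσ; exact absurd hσ.1 Finset.not_nonempty_empty
  | insert t τ ht ih =>
    intro hσ
    rcases τ.eq_empty_or_nonempty with rfl | hτ
    · simpa using h1 t (hσ.2.1 (Finset.mem_insert_self t ∅))
    have e : A \ (insert t τ : Finset V) = (A \ τ) \ {t} := by
      ext x
      simp only [Finset.coe_insert, Set.mem_sdiff, Set.mem_insert_iff, Finset.mem_coe,
        Set.mem_singleton_iff]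
      tauto
    rw [e]
    refine rem_one_pre (ih (sA_down hσ (Finset.subset_insert t τ) hτ)) ?_
    rw [lk_diff_H3]
    exact (rs_lk_H3 hP h hn hσ ht hτ).2

theorem rs_ne_H3 {d : ℕ} (hP : RS_H3 G (d + 1)) (h : Mf G (d + 1) A ∅) (hn : NSq G A)
    {σ : Finset V} (hσ : σ ∈ sA G A) : ∃ w ∈ A \ σ, ∃ t ∈ σ, G.Adj t w := by
  obtain ⟨t, ht⟩ := hσ.1
  have hne : (Lk G A {t} \ (σ.erase t : Finset V)).Nonempty := by
    rcases (σ.erase t).eq_empty_or_nonempty with h0 | hτ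
    · rw [h0, Finset.coe_empty, Set.sdiff_empty]
      exact Cell.nonempty (h.sph_lk (hσ.2.1 ht) (Set.notMem_empty t))
    · exact (rs_lk_H3 hP h hn (by rwa [Finset.insert_erase ht]) (Finset.notMem_erase t σ) hτ).1
  obtain ⟨w, hw1, hw2⟩ := hne
  obtain ⟨hwA, htw⟩ := mem_lk_H3.1 hw1
  exact ⟨w, ⟨hwA, fun hw => hw2 (Finset.mem_coe.2 (Finset.mem_erase.2 ⟨htw.ne', hw⟩))⟩, t, ht, htw⟩

theorem rs_one_H3 : RS_H3 G 1 := by
  intro B τ h _ hτ
  obtain ⟨⟨a, ha⟩, hτB, hτc⟩ := mem_sA.1 hτ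
  have e : τ = {a} := by
    refine Finset.eq_singleton_iff_unique_mem.2 ⟨ha, fun x hx => ?_⟩
    rcases hτc x hx a ha with h1 | h1
    · exact h1
    · exact ((sph_one.1 h).2 x (hτB hx) a (hτB ha) h1).elim
  subst e
  rw [Finset.coe_singleton]
  refine Cell.congr (h.rem (by omega) (hτB ha)) fun s hs => ?_
  constructor
  · intro h1 x hx
    exact ⟨a, ha, (mem_lk_H3.1 (h1 hx)).2⟩
  · intro h1 x hx
    obtain ⟨y, hy, hyx⟩ := h1 hx
    rw [Finset.mem_singleton.1 hy] at hyx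
    exact mem_lk_H3.2 ⟨(hs.1 hx).1, hyx⟩

theorem rs_two_H3 : RS_H3 G 2 := by
  intro B τ h hn hτ
  have hP := rs_one_H3 (G := G)
  obtain ⟨w, hw, hw'⟩ := rs_ne_H3 hP h.mf hn hτ
  refine cell_two ((Cell.finite h).sdiff) ⟨⟨w, hw⟩, ?_⟩ (rs_mf_H3 hP h.mf hn hτ) ?_
  · exact rs_pre_H3 hP h.mf hn
      (fun t ht => (Cell.ball_con (h.circle_rem ht) (sub_empty_H3 _)).2) τ hτ
  · exact ⟨fun _ => ⟨w, hw, by simpa [sub] using hw'⟩, fun _ => sub_empty_H3 _⟩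

/-- Removing a simplex from a flag no-square sphere. -/
theorem Sph.rem_simplex {d : ℕ} (h : Sph G d A) (hd : d ≤ 3) (hn : NSq G A) {σ : Finset V}
    (hσ : σ ∈ sA G A) : Ball G d (A \ σ) {u | ∃ t ∈ σ, G.Adj t u} := by
  rcases d with _ | _ | _ | _ | d
  · obtain ⟨a, ha⟩ := hσ.1
    have := hσ.2.1 ha
    rw [h.1] at this
    exact this.elim
  · exact rs_one_H3 A σ h hn hσ
  · exact rs_two_H3 A σ h hn hσ
  · have hP := rs_two_H3 (G := G)
    obtain ⟨w, hw, hw'⟩ := rs_ne_H3 hP h.mf hn hσ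
    refine cell_three ((Cell.finite h).sdiff) ⟨⟨w, hw⟩, ?_⟩ ?_ (rs_mf_H3 hP h.mf hn hσ) ?_
    · exact rs_pre_H3 hP h.mf hn
        (fun t ht => (Cell.ball_con (h.rem le_rfl ht) (sub_empty_H3 _)).2) σ hσ
    · obtain ⟨a, ha⟩ := hσ.1
      exact Cell.compl_ndc h hσ.2.1
        (cone_sco (Finset.mem_coe.2 ha) fun x hx => (mem_sA.1 hσ).2.2 a ha x hx).1 (Or.inl id)
    · exact ⟨fun _ => ⟨w, hw, by simpa [sub] using hw'⟩, fun _ => sub_empty_H3 _⟩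
  · omega

theorem Cl.rem_simplex (h : Cl G 3 A) (hn : NSq G A) {σ : Finset V} (hσ : σ ∈ sA G A) :
    Mf G 3 (A \ σ) {u | ∃ t ∈ σ, G.Adj t u} ∧ Con G (A \ σ) := by
  have hP : RS_H3 G 3 := fun B τ hB hnB hτ => hB.rem_simplex le_rfl hnB hτ
  obtain ⟨w, hw, -⟩ := rs_ne_H3 hP h.2.2 hn hσ
  refine ⟨rs_mf_H3 hP h.2.2 hn hσ, ⟨w, hw⟩, rs_pre_H3 hP h.2.2 hn (fun t ht => ?_) σ hσ⟩
  exact rem_one_pre h.2.1.2 (Cell.con (h.2.2.sph_lk ht (Set.notMem_empty t))).2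

end Pool.Agent.MP_6374aa_g

end

section

/-! Capping, covers, grafts and the statement level notions. -/

namespace Pool.Agent.MP_6374aa_g

open Pool.Agent.MP_6374aa_gt Classical

variable {V V' V'' : Type} {G : SimpleGraph V} {G' : SimpleGraph V'} {G'' : SimpleGraph V''}
  {A : Set V} {A' : Set V'} {A'' : Set V''} {L : Type} [Group L]

theorem mem_lk_C5 {v w : V} : w ∈ Lk G A {v} ↔ w ∈ A ∧ G.Adj v w := by
  simp [Lk]

theorem ball_congr_C5 {d : ℕ} {T T' : Set V} (h : Ball G d A T)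
    (hT : ∀ a ∈ A, a ∈ T ↔ a ∈ T') : Ball G d A T' :=
  Cell.congr h fun _ hs => ⟨fun h1 a ha => (hT a (hs.1 ha)).1 (h1 ha),
    fun h1 a ha => (hT a (hs.1 ha)).2 (h1 ha)⟩

theorem mf_congr_C5 {d : ℕ} {T T' : Set V} (h : Mf G d A T)
    (hT : ∀ a ∈ A, a ∈ T ↔ a ∈ T') : Mf G d A T' :=
  Mfa.congr h subset_rfl fun _ hs => ⟨fun h1 a ha => (hT a (hs.2.1 ha)).1 (h1 ha),
    fun h1 a ha => (hT a (hs.2.1 ha)).2 (h1 ha)⟩

theorem ball_zero_C5 {T : Set V} (h : Ball G 0 A T) : False :=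
  h.2 (by simp [sub])

theorem ball_bd_ne_C5 {d : ℕ} {T : Set V} (h : Ball G (d + 2) A T) : (A ∩ T).Nonempty := by
  have h1 := h.2.2.1.1 (by simp [sub])
  rw [if_neg (Nat.succ_ne_zero d)] at h1
  obtain ⟨v, hv, h2⟩ := h1
  exact ⟨v, hv, h2 (by simp)⟩

theorem lk_union_left_C5 {X Y : Set V} (hne : NE G X Y) {v : V} (hX : v ∈ X) (hY : v ∉ Y) :
    Lk G (X ∪ Y) {v} = Lk G X {v} := by
  ext w
  rw [mem_lk_C5, mem_lk_C5]
  refine ⟨fun h => ⟨?_, h.2⟩, fun h => ⟨Or.inl h.1, h.2⟩⟩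
  by_contra hw
  exact hne v ⟨hX, hY⟩ w ⟨h.1.resolve_left hw, hw⟩ h.2

theorem lk_union_C5 (X Y : Set V) (v : V) : Lk G (X ∪ Y) {v} = Lk G X {v} ∪ Lk G Y {v} := by
  ext w
  simp only [Set.mem_union, mem_lk_C5]
  tauto

theorem ne_lk_C5 {X Y : Set V} (hne : NE G X Y) (v : V) : NE G (Lk G X {v}) (Lk G Y {v}) := by
  intro a ha b hb
  obtain ⟨a1, a2⟩ := mem_lk_C5.1 ha.1
  obtain ⟨b1, b2⟩ := mem_lk_C5.1 hb.1
  exact hne a ⟨a1, fun h => ha.2 (mem_lk_C5.2 ⟨h, a2⟩)⟩ b ⟨b1, fun h => hb.2 (mem_lk_C5.2 ⟨h, b2⟩)⟩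

theorem union_step_C5 {d : ℕ}
    (ih : ∀ X Y : Set V, Ball G d X Y → Ball G d Y X → NE G X Y → Sph G d (X ∪ Y))
    {X Y : Set V} (h1 : Mf G d X Y) (h2 : Mf G d Y X) (hne : NE G X Y) :
    Mfa G d (X ∪ Y) (fun _ => False) (X ∪ Y) := by
  intro v hv
  change Sph G d (Lk G (X ∪ Y) {v})
  by_cases hX : v ∈ X
  · by_cases hY : v ∈ Y
    · rw [lk_union_C5]
      refine ih _ _ (ball_congr_C5 (h1.ball_lk hX hY) fun a ha => ?_)
        (ball_congr_C5 (h2.ball_lk hY hX) fun a ha => ?_) (ne_lk_C5 hne v)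
      · rw [mem_lk_C5, and_iff_left (mem_lk_C5.1 ha).2]
      · rw [mem_lk_C5, and_iff_left (mem_lk_C5.1 ha).2]
    · rw [lk_union_left_C5 hne hX hY]
      exact h1.sph_lk hX hY
  · have hY : v ∈ Y := hv.resolve_left hX
    rw [Set.union_comm, lk_union_left_C5 hne.symm hY hX]
    exact h2.sph_lk hY hX

theorem con_union_C5 {X Y : Set V} (hX : Pre G X) (hY : Pre G Y) (h : (X ∩ Y).Nonempty) :
    Con G (X ∪ Y) := by
  obtain ⟨a, ha, hb⟩ := h
  exact ⟨⟨a, Or.inl ha⟩, hX.union hY ha hb (adq_refl a)⟩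

theorem ball_union_one_C5 (X Y : Set V) (h1 : Ball G 1 X Y) (h2 : Ball G 1 Y X)
    (hne : NE G X Y) : Sph G 1 (X ∪ Y) := by
  obtain ⟨a, rfl, ha⟩ := ball_one.1 h1
  obtain ⟨b, rfl, hb⟩ := ball_one.1 h2
  have hab : ¬ G.Adj a b := hne a ⟨rfl, ha⟩ b ⟨rfl, hb⟩
  refine sph_one.2 ⟨?_, ?_⟩
  · rw [Set.singleton_union]
    exact Set.ncard_pair ha
  · rintro x (rfl | rfl) y (rfl | rfl)
    · exact G.irrefl
    · exact hab
    · exact fun h => hab h.symm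
    · exact G.irrefl

theorem ball_union_two_C5 (X Y : Set V) (h1 : Ball G 2 X Y) (h2 : Ball G 2 Y X)
    (hne : NE G X Y) : Sph G 2 (X ∪ Y) :=
  cell_two ((Cell.finite h1).union (Cell.finite h2))
    (con_union_C5 (Cell.con h1).2 (Cell.con h2).2 (ball_bd_ne_C5 h1))
    (union_step_C5 ball_union_one_C5 (Cell.mfa h1) (Cell.mfa h2) hne) (by simp)

theorem ball_union_three_C5 (X Y : Set V) (h1 : Ball G 3 X Y) (h2 : Ball G 3 Y X)
    (hne : NE G X Y) : Sph G 3 (X ∪ Y) :=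
  cell_three ((Cell.finite h1).union (Cell.finite h2))
    (con_union_C5 (Cell.con h1).2 (Cell.con h2).2 (ball_bd_ne_C5 h1))
    (glue_triv hne.cov2 (Cell.ndc h1) (Cell.ndc h2) (Cell.con (h1.bd le_rfl)).2)
    (union_step_C5 ball_union_two_C5 (Cell.mfa h1) (Cell.mfa h2) hne) (by simp)

/-- Two balls glued along their common boundary form a sphere. -/
theorem ball_union_C5 {d : ℕ} (hd : d ≤ 3) (X Y : Set V) (h1 : Ball G d X Y) (h2 : Ball G d Y X)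
    (hne : NE G X Y) : Sph G d (X ∪ Y) := by
  interval_cases d
  · exact (ball_zero_C5 h1).elim
  · exact ball_union_one_C5 X Y h1 h2 hne
  · exact ball_union_two_C5 X Y h1 h2 hne
  · exact ball_union_three_C5 X Y h1 h2 hne

/-- Coning off the boundary of a ball gives a sphere. -/
theorem ball_cone_C5 {d : ℕ} {T : Set V} (h : Ball G d A T) (hd : d ≤ 3) {c : V} (hc : c ∉ A)
    (hT : ∀ a ∈ A, G.Adj c a ↔ a ∈ T) : Sph G d (insert c A) := by
  cases d with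
  | zero => exact (ball_zero_C5 h).elim
  | succ d =>
    have h1 : Sph G d (A ∩ T) := h.bd (by omega)
    have h2 := Cell.cone h1 (by omega) (c := c) fun a ha => (hT a ha.1).2 ha.2
    have h3 : Ball G (d + 1) (insert c (A ∩ T)) A := by
      refine Cell.congr h2 fun s hs => ?_
      rw [or_false]
      refine ⟨fun h4 a ha => ?_, fun h4 h5 => hc (h4 h5)⟩
      rcases hs.1 ha with rfl | h5
      · exact absurd ha h4
      · exact h5.1
    have h4 : Ball G (d + 1) A (insert c (A ∩ T)) := by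
      refine ball_congr_C5 h fun a ha => ⟨fun h5 => Or.inr ⟨ha, h5⟩, ?_⟩
      rintro (rfl | h5)
      · exact absurd ha hc
      · exact h5.2
    have h5 : NE G A (insert c (A ∩ T)) := by
      rintro a ha b ⟨rfl | hb, hb'⟩ hab
      · exact ha.2 (Or.inr ⟨ha.1, (hT a ha.1).1 hab.symm⟩)
      · exact hb' hb.1
    have h6 := ball_union_C5 hd _ _ h4 h3 h5
    rwa [Set.union_insert, Set.union_eq_self_of_subset_right Set.inter_subset_left] at h6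

theorem cap_iso {ι : Type} (T : ι → Set V) (X : Set V) :
    IsIso G X (capG G T) (Sum.inl '' X) Sum.inl :=
  ⟨Sum.inl_injective.injOn.bijOn_image, fun _ _ _ _ => Iff.rfl⟩

theorem cap_cone_C5 {d : ℕ} {T : Set V} (h : Ball G d A T) (hd : d ≤ 3) {ι : Type}
    {S : ι → Set V} {i : ι} (hT : ∀ a ∈ A, a ∈ S i ↔ a ∈ T) :
    Sph (capG G S) d (insert (Sum.inr i) (Sum.inl '' A)) := by
  refine ball_cone_C5 (T := Sum.inl '' T) ((IsIso.ball (cap_iso S A) fun a _ => ?_).1 h) hd ?_ ?_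
  · exact (Sum.inl_injective.mem_set_image).symm
  · rintro ⟨a, -, ha⟩
    cases ha
  · rintro _ ⟨a, ha, rfl⟩
    rw [Sum.inl_injective.mem_set_image]
    exact hT a ha

theorem Ball.cap {d : ℕ} {T : Set V} (h : Ball G d A T) (hd : d ≤ 3) :
    Sph (capG G fun _ : Unit => T) d (capA A Set.univ) := by
  have e : capA A (Set.univ : Set Unit) = insert (Sum.inr ()) (Sum.inl '' A) := by
    ext x
    cases x <;> simp [capA]
  rw [e]
  exact cap_cone_C5 h hd fun _ _ => Iff.rfl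

theorem Mf.cap {d : ℕ} {T : Set V} (h : Mf G d A T) (hd : d ≤ 3) {ι : Type} {S : ι → Set V}
    {I : Set ι} (h1 : ∀ i ∈ I, S i ⊆ A ∩ T ∧ Sph G d (S i))
    (h2 : ∀ i ∈ I, ∀ j ∈ I, i ≠ j → Far G (S i) (S j)) (h3 : ∀ a ∈ A ∩ T, ∃ i ∈ I, a ∈ S i) :
    Mf (capG G S) d (capA A I) ∅ := by
  refine mf_empty_iff.2 fun v hv => ?_
  change Sph (capG G S) d (Lk (capG G S) (capA A I) {v})
  rcases hv with ⟨a, ha, rfl⟩ | ⟨i, hi, rfl⟩
  · by_cases hT : a ∈ T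
    · obtain ⟨i, hi, hai⟩ := h3 a ⟨ha, hT⟩
      have hu : ∀ j ∈ I, ∀ b ∈ S j, Adq G a b → j = i := fun j hj b hb hab => by
        by_contra hne
        exact h2 j hj i hi hne b hb a hai (adq_symm hab)
      have e : Lk (capG G S) (capA A I) {Sum.inl a} =
          insert (Sum.inr i) (Sum.inl '' Lk G A {a}) := by
        ext x
        rw [mem_lk_C5]
        constructor
        · rintro ⟨⟨b, hb, rfl⟩ | ⟨j, hj, rfl⟩, h4⟩
          · exact Or.inr ⟨b, mem_lk_C5.2 ⟨hb, h4⟩, rfl⟩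
          · exact Or.inl (by rw [hu j hj a h4 (adq_refl a)])
        · rintro (rfl | ⟨b, hb, rfl⟩)
          · exact ⟨Or.inr ⟨i, hi, rfl⟩, hai⟩
          · exact ⟨Or.inl ⟨b, hb.1, rfl⟩, (mem_lk_C5.1 hb).2⟩
      rw [e]
      refine cap_cone_C5 (h.ball_lk ha hT) hd fun b hb => ⟨fun h4 => ((h1 i hi).1 h4).2,
        fun h4 => ?_⟩
      obtain ⟨j, hj, hbj⟩ := h3 b ⟨hb.1, h4⟩
      exact hu j hj b hbj (Or.inr (mem_lk_C5.1 hb).2) ▸ hbj
    · have e : Lk (capG G S) (capA A I) {Sum.inl a} = Sum.inl '' Lk G A {a} := by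
        ext x
        rw [mem_lk_C5]
        constructor
        · rintro ⟨⟨b, hb, rfl⟩ | ⟨j, hj, rfl⟩, h4⟩
          · exact ⟨b, mem_lk_C5.2 ⟨hb, h4⟩, rfl⟩
          · exact absurd ((h1 j hj).1 h4).2 hT
        · rintro ⟨b, hb, rfl⟩
          exact ⟨Or.inl ⟨b, hb.1, rfl⟩, (mem_lk_C5.1 hb).2⟩
      rw [e]
      exact (IsIso.sph (cap_iso S _)).1 (h.sph_lk ha hT)
  · have e : Lk (capG G S) (capA A I) {Sum.inr i} = Sum.inl '' S i := by
      ext x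
      rw [mem_lk_C5]
      constructor
      · rintro ⟨⟨b, -, rfl⟩ | ⟨j, -, rfl⟩, h4⟩
        · exact ⟨b, h4, rfl⟩
        · exact h4.elim
      · rintro ⟨b, hb, rfl⟩
        exact ⟨Or.inl ⟨b, ((h1 i hi).1 hb).1, rfl⟩, hb⟩
    rw [e]
    exact (IsIso.sph (cap_iso S _)).1 (h1 i hi).2

theorem Mfa.cov {Ω : Type} [MulAction L Ω] {lab : V → V → L} (hl : Flat G A lab) {d : ℕ}
    {β : Finset V → Prop} {C : Set V} (h : Mfa G d A β C) (hC : C ⊆ A) :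
    Mfa (cov G lab Ω) d (up A Ω) (fun s => β (s.image Prod.fst)) (up C Ω) := by
  intro p hp
  refine (IsIso.cell (cov_link_iso hl (S := up A Ω) (fun _ h => h) (hC hp) fun _ h _ => h)
    fun s _ => ?_).2 (h p.1 hp)
  refine iff_of_eq (congrArg β ?_)
  ext x
  simp [eq_comm]

theorem Mf.cov {Ω : Type} [MulAction L Ω] {lab : V → V → L} (hl : Flat G A lab) {d : ℕ}
    {T : Set V} (h : Mf G d A T) : Mf (Pool.Agent.MP_6374aa_gt.cov G lab Ω) d (up A Ω) (up T Ω) := by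
  refine Mfa.congr (Mfa.cov hl h subset_rfl) subset_rfl fun s _ => ?_
  unfold sub
  rw [Finset.coe_image, Set.image_subset_iff]
  rfl

theorem graft_mem_C5 {M B : Set V} {v : V} (h : Graft G A M B v) {a : V} (ha : a ∈ A \ {v}) :
    a ∈ Lk G A {v} ↔ a ∈ M \ {v} := by
  constructor
  · intro h1
    rw [h.lk] at h1
    exact ⟨h1.1, ha.2⟩
  · intro h1
    have h2 : a ∈ insert v (Lk G A {v}) := h.inter ▸ ⟨ha.1, h1.1⟩
    exact h2.resolve_left ha.2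

theorem graft_ne_C5 {M B : Set V} {v : V} (h : Graft G A M B v) : NE G (A \ {v}) (M \ {v}) :=
  fun a ha b hb => h.sep a ⟨ha.1.1, fun h1 => ha.2 ⟨h1, ha.1.2⟩⟩
    b ⟨hb.1.1, fun h1 => hb.2 ⟨h1, hb.1.2⟩⟩

theorem Graft.sph {d : ℕ} {M B : Set V} {v : V} (h : Graft G A M B v) (hd : d ≤ 3)
    (h1 : Sph G d A) (h2 : Sph G d M) : Sph G d B := by
  rw [h.eq, Set.union_sdiff_distrib]
  exact ball_union_C5 hd _ _ (ball_congr_C5 (h1.rem hd h.memA) fun _ ha => graft_mem_C5 h ha)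
    (ball_congr_C5 (h2.rem hd h.memM) fun _ ha => graft_mem_C5 h.symm ha) (graft_ne_C5 h)

theorem Graft.cl {M B : Set V} {v : V} (h : Graft G A M B v) (h1 : Cl G 3 A) (h2 : Cl G 3 M) :
    Cl G 3 B := by
  have c1 : Con G (Lk G A {v}) := Cell.con (h1.2.2.sph_lk h.memA (Set.notMem_empty v))
  have c2 : Con G (Lk G M {v}) := Cell.con (h2.2.2.sph_lk h.memM (Set.notMem_empty v))
  rw [h.eq, Set.union_sdiff_distrib]
  refine ⟨h1.1.sdiff.union h2.1.sdiff, con_union_C5 (rem_one_pre h1.2.1.2 c1.2)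
    (rem_one_pre h2.2.1.2 c2.2) ?_, mf_empty_iff.2 (union_step_C5 ball_union_three_C5
      (mf_congr_C5 (h1.2.2.rem le_rfl v h.memA) fun _ ha => graft_mem_C5 h ha)
      (mf_congr_C5 (h2.2.2.rem le_rfl v h.memM) fun _ ha => graft_mem_C5 h.symm ha)
      (graft_ne_C5 h))⟩
  obtain ⟨a, ha⟩ := c1.1
  have h3 : a ∈ A \ {v} := ⟨ha.1, fun e => (mem_lk_C5.1 ha).2.ne' e⟩
  exact ⟨a, h3, (graft_mem_C5 h h3).1 ha⟩

theorem lk_pair_C5 (a b : V) : Lk G (Lk G A {a}) {b} = Lk G A {a, b} := by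
  rw [lk_lk, Set.singleton_union]

theorem ndc_iff_C5 {S : Set V} : NDC G S ↔ ∀ θ : V → V → ZMod 2,
    (∀ u ∈ S, ∀ v ∈ S, ∀ w ∈ S, Adq G u v → Adq G v w → Adq G u w → θ u v + θ v w = θ u w) →
    ∃ χ : V → ZMod 2, ∀ u ∈ S, ∀ w ∈ S, Adq G u w → θ u w = χ u + χ w := by
  constructor
  · intro h θ hθ
    obtain ⟨p, hp⟩ := h (fun u w => Multiplicative.ofAdd (θ u w))
      fun u hu v hv w hw h1 h2 h3 => congrArg Multiplicative.ofAdd (hθ u hu v hv w hw h1 h2 h3)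
    refine ⟨fun u => Multiplicative.toAdd (p u), fun u hu w hw h1 => ?_⟩
    have h2 := hp u hu w hw h1
    rw [z2_inv] at h2
    exact congrArg Multiplicative.toAdd h2
  · intro h lab hl
    obtain ⟨χ, hχ⟩ := h (fun u w => Multiplicative.toAdd (lab u w))
      fun u hu v hv w hw h1 h2 h3 => congrArg Multiplicative.toAdd (hl u hu v hv w hw h1 h2 h3)
    refine ⟨fun u => Multiplicative.ofAdd (χ u), fun u hu w hw h1 => ?_⟩
    rw [z2_inv]
    exact congrArg Multiplicative.ofAdd (hχ u hu w hw h1)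

theorem sphere2_iff {S : Set V} (hf : S.Finite) : Sphere2 G S ↔ Sph G 3 S := by
  constructor
  · intro h
    refine cell_three hf (con_iff_connected.2 h.conn) (ndc_iff_C5.2 h.coc) (fun a ha => ?_)
      (by simp)
    refine cell_two (hf.subset (lk_subset _)) (con_iff_connected.2 (h.vert a ha))
      (fun b hb => ?_) (by simp)
    obtain ⟨hb, hab⟩ := mem_lk_C5.1 hb
    change Sph G 1 (Lk G (Lk G S {a}) {b})
    refine sph_one.2 ⟨by rw [lk_pair_C5]; exact h.edge a ha b hb hab, fun c hc e he hce => ?_⟩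
    obtain ⟨hc, hbc⟩ := mem_lk_C5.1 hc
    obtain ⟨hc, hac⟩ := mem_lk_C5.1 hc
    obtain ⟨he, hbe⟩ := mem_lk_C5.1 he
    obtain ⟨he, hae⟩ := mem_lk_C5.1 he
    have h1 := h.dim {a, b, c, e} (mem_sA.2 ⟨by simp, ?_, ?_⟩)
    · rw [Finset.card_insert_of_notMem (by simp [hab.ne, hac.ne, hae.ne]),
        Finset.card_insert_of_notMem (by simp [hbc.ne, hbe.ne]), Finset.card_pair hce.ne] at h1
      omega
    · intro x hx
      simp only [Finset.coe_insert, Finset.coe_singleton, Set.mem_insert_iff,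
        Set.mem_singleton_iff] at hx
      rcases hx with rfl | rfl | rfl | rfl <;> assumption
    · intro x hx y hy
      simp only [Finset.mem_insert, Finset.mem_singleton] at hx hy
      rcases hx with rfl | rfl | rfl | rfl <;> rcases hy with rfl | rfl | rfl | rfl <;>
        first
          | exact Or.inl rfl
          | exact Or.inr ‹_›
          | exact Or.inr (G.adj_symm ‹_›)
  · intro h
    refine ⟨con_iff_connected.1 (Cell.con h), fun s hs => (Cell.link h hs.2).1,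
      fun a ha b hb hab => ?_, fun a ha => con_iff_connected.1 (Cell.con (Cell.mfa h a ha)),
      ndc_iff_C5.1 (Cell.ndc h)⟩
    have h1 : Sph G 1 (Lk G (Lk G S {a}) {b}) :=
      Cell.mfa (Cell.mfa h a ha) b (mem_lk_C5.2 ⟨hb, hab⟩)
    rw [← lk_pair_C5]
    exact (sph_one.1 h1).1

theorem closed_iff : Cx.Closed ⟨V, G, A⟩ ↔ Cl G 3 A := by
  unfold Cx.Closed Cl
  refine and_congr_right fun hf => and_congr con_iff_connected.symm ?_
  rw [mf_empty_iff]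
  exact forall₂_congr fun a _ => sphere2_iff (Set.Finite.subset hf (lk_subset _))

end Pool.Agent.MP_6374aa_g

end

section

/-! The two sides of a hypersurface: auxiliary lemmas. -/

namespace Pool.Agent.MP_6374aa_g

open Pool.Agent.MP_6374aa_gt Classical

variable {V : Type} {G : SimpleGraph V} {A : Set V}

theorem mem_lk1_H4 {v w : V} : w ∈ Lk G A {v} ↔ w ∈ A ∧ G.Adj v w := by
  simp [Lk]

theorem mem_lks_H4 {s : Finset V} {w : V} : w ∈ Lk G A (s : Set V) ↔ w ∈ A ∧ ∀ u ∈ s, G.Adj u w := by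
  simp [Lk]

theorem mem_lk2_H4 {x y w : V} : w ∈ Lk G A {x, y} ↔ w ∈ A ∧ G.Adj x w ∧ G.Adj y w := by
  simp only [Lk, Set.mem_ofPred_eq, Set.mem_insert_iff, Set.mem_singleton_iff, forall_eq_or_imp,
    forall_eq]

theorem clq_empty_H4 : Clq G A ∅ := ⟨by simp, by simp⟩

theorem clq_single_H4 {v : V} (hv : v ∈ A) : Clq G A {v} := ⟨by simpa using hv, by simp⟩

theorem clq_insert_H4 {c : Set V} {v : V} {s : Finset V} (hv : v ∈ c)
    (hs : Clq G (Lk G c {v}) s) : Clq G c (insert v s) ∧ v ∉ s := by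
  have h1 : ∀ u ∈ s, u ∈ c ∧ G.Adj v u := fun u hu => mem_lk1_H4.1 (hs.1 hu)
  refine ⟨clq_iff.2 ⟨?_, ?_⟩, fun h => G.irrefl (h1 v h).2⟩
  · intro u hu
    rcases Finset.mem_insert.1 hu with rfl | hu
    · exact hv
    · exact (h1 u hu).1
  · intro u hu w hw
    rcases Finset.mem_insert.1 hu with hu | hu <;> rcases Finset.mem_insert.1 hw with hw | hw
    · exact Or.inl (hu.trans hw.symm)
    · exact hu ▸ Or.inr (h1 w hw).2
    · exact hw ▸ Or.inr (h1 u hu).2.symm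
    · exact (clq_iff.1 hs).2 u hu w hw

theorem clq_erase_H4 {c : Set V} {v : V} {s : Finset V} (hv : v ∈ s) (hs : Clq G c s) :
    Clq G (Lk G c {v}) (s.erase v) := by
  refine clq_iff.2 ⟨fun u hu => ?_, fun u hu w hw => (clq_iff.1 hs).2 u
    (Finset.mem_of_mem_erase hu) w (Finset.mem_of_mem_erase hw)⟩
  have hu' := Finset.mem_erase.1 (Finset.mem_coe.1 hu)
  refine mem_lk1_H4.2 ⟨hs.1 hu'.2, ?_⟩
  rcases (clq_iff.1 hs).2 v hv u hu'.2 with h | h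
  · exact absurd h.symm hu'.1
  · exact h

theorem mem_lk_insert_H4 {v w : V} {s : Finset V} :
    w ∈ Lk G A (insert v s : Finset V) ↔ w ∈ Lk G (Lk G A {v}) s := by
  simp only [mem_lks_H4, mem_lk1_H4, Finset.mem_insert, forall_eq_or_imp, and_assoc]

theorem split_symm_H4 {d : ℕ} {c P : Set V} (h : Split G d A c P) :
    Split G d A c (A \ (c ∪ P)) := by
  refine ⟨fun a ha => ⟨ha.1, fun hc => ha.2 (Or.inl hc)⟩, fun a ha b hb hab => ?_,
    fun s hs hd => ?_⟩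
  · have hbP : b ∈ P := by
      by_contra hn
      exact hb.2 (Or.inr ⟨hb.1, fun h' => h'.elim (fun h'' => hb.2 (Or.inl h'')) hn⟩)
    exact h.sep b hbP a ha hab.symm
  · obtain ⟨⟨a, ha, haP⟩, b, hb, hbP⟩ := h.two s hs hd
    exact ⟨⟨b, hb, hb.1, hbP⟩, a, ha,
      fun h' => h'.elim (h.subset haP).2 fun h'' => h''.2 (Or.inr haP)⟩

theorem split_lk_H4 {d : ℕ} {c P : Set V} (h : Split G (d + 1) A c P) {v : V} (hv : v ∈ c) :
    Split G d (Lk G A {v}) (Lk G c {v}) (P ∩ Lk G A {v}) := by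
  refine ⟨fun a ha => ⟨ha.2, fun hc => (h.subset ha.1).2 hc.1⟩, fun a ha b hb hab => ?_,
    fun s hs hd => ?_⟩
  · refine h.sep a ha.1 b ⟨hb.1.1, fun h' => hb.2 (h'.imp (fun hc => ⟨hc, hb.1.2⟩)
      fun hP => ⟨hP, hb.1⟩)⟩ hab
  · obtain ⟨h1, h2⟩ := clq_insert_H4 hv hs
    obtain ⟨⟨a, ha, haP⟩, b, hb, hbP⟩ := h.two _ h1 (by rw [Finset.card_insert_of_notMem h2, hd])
    rw [mem_lk_insert_H4] at ha hb
    exact ⟨⟨a, ha, haP, ha.1⟩, b, hb, fun h' => hbP (h'.imp (fun h'' => h''.1) fun h'' => h''.1)⟩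

/-- A neighbour of a point of `P` lies in `c ∪ P`. -/
theorem split_nbr_H4 {d : ℕ} {c P : Set V} (h : Split G d A c P) {a b : V} (ha : a ∈ P)
    (hb : b ∈ A) (hab : G.Adj a b) : b ∈ c ∪ P := by
  by_contra hn
  exact h.sep a ha b ⟨hb, hn⟩ hab

def SideP_H4 (G : SimpleGraph V) (d : ℕ) : Prop :=
  ∀ (A : Set V) (β : Finset V → Prop) (c P : Set V), Cell G (d + 1) A β → Cell G d c β → c ⊆ A →
    Split G d A c P → Cell G (d + 1) (c ∪ P) (fun s => ↑s ⊆ c ∨ β s) ∧ Con G P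

theorem mfa_side_H4 {d : ℕ} (H : SideP_H4 G d) {β : Finset V → Prop} {c P : Set V}
    (h : Mfa G (d + 1) A β A) (hc : Mfa G d c β c) (hcA : c ⊆ A) (hs : Split G (d + 1) A c P) :
    Mfa G (d + 1) (c ∪ P) (fun s => ↑s ⊆ c ∨ β s) (c ∪ P) ∧
      ∀ x ∈ c, Con G (P ∩ Lk G A {x}) := by
  have hl : ∀ x ∈ c, Lk G c {x} ⊆ Lk G A {x} := fun x _ a ha => ⟨hcA ha.1, ha.2⟩
  refine ⟨fun v hv => ?_, fun x hx =>
    (H _ _ _ _ (h x (hcA hx)) (hc x hx) (hl x hx) (split_lk_H4 hs hx)).2⟩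
  rcases hv with hv | hv
  · have h1 := (H _ _ _ _ (h v (hcA hv)) (hc v hv) (hl v hv) (split_lk_H4 hs hv)).1
    have e : Lk G c {v} ∪ P ∩ Lk G A {v} = Lk G (c ∪ P) {v} := by
      ext a
      simp only [Set.mem_union, Set.mem_inter_iff, mem_lk1_H4]
      constructor
      · rintro (⟨h2, h3⟩ | ⟨h2, -, h3⟩)
        · exact ⟨Or.inl h2, h3⟩
        · exact ⟨Or.inr h2, h3⟩
      · rintro ⟨h2 | h2, h3⟩
        · exact Or.inl ⟨h2, h3⟩
        · exact Or.inr ⟨h2, (hs.subset h2).1, h3⟩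
    rw [e] at h1
    refine h1.congr fun s hs' => or_congr_left ?_
    constructor
    · intro h2 a ha
      rcases Finset.mem_insert.1 (Finset.mem_coe.1 ha) with ha | ha
      · exact ha ▸ hv
      · exact (h2 ha).1
    · intro h2 a ha
      exact ⟨h2 (Finset.mem_coe.2 (Finset.mem_insert_of_mem ha)), (hs'.1 ha).2⟩
  · have e : Lk G A {v} = Lk G (c ∪ P) {v} := by
      ext a
      simp only [mem_lk1_H4]
      exact ⟨fun h2 => ⟨split_nbr_H4 hs hv h2.1 h2.2, h2.2⟩,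
        fun h2 => ⟨h2.1.elim (fun h3 => hcA h3) fun h3 => (hs.subset h3).1, h2.2⟩⟩
    have h1 := h v (hs.subset hv).1
    rw [e] at h1
    refine h1.congr fun s _ => ⟨Or.inr, fun h2 => h2.resolve_left fun h3 => ?_⟩
    exact (hs.subset hv).2 (h3 (Finset.mem_coe.2 (Finset.mem_insert_self _ _)))

/-- Every point of `P` is joined inside `P` to a neighbour of `c`. -/
theorem near_c_H4 {d : ℕ} {c P : Set V} (hs : Split G d A c P) (hcA : c ⊆ A) (hA : Pre G A)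
    (hn : c.Nonempty) {y : V} (hy : y ∈ P) :
    ∃ w ∈ c, ∃ u ∈ P ∩ Lk G A {w}, Reach G P y u := by
  obtain ⟨x, hx⟩ := hn
  obtain ⟨u, hu, w, hw, huw, hr⟩ := Reach.exit (X := P) (hA y (hs.subset hy).1 x (hcA hx))
    ⟨(hs.subset hy).1, hy⟩ fun h => (hs.subset h).2 hx
  exact ⟨w, (split_nbr_H4 hs hu.2 hw.1 huw).resolve_right hw.2, u,
    ⟨hu.2, mem_lk1_H4.2 ⟨hu.1, huw.symm⟩⟩, hr.mono Set.inter_subset_right⟩

theorem con_side_H4 {d : ℕ} {β : Finset V → Prop} {c P : Set V} (hc : Mfa G d c β c)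
    (hcA : c ⊆ A) (hs : Split G (d + 1) A c P) (hA : Pre G A) (hcc : Con G c)
    (hl : ∀ x ∈ c, Con G (P ∩ Lk G A {x})) : Con G P ∧ Con G (c ∪ P) := by
  have hP : Pre G P := by
    refine pre_of_fibres hcc.2 (fun x => P ∩ Lk G A {x})
      (fun x hx => ⟨Set.inter_subset_left, hl x hx⟩) (fun x hx y hy hxy => ?_)
      fun y hy => near_c_H4 hs hcA hA hcc.1 hy
    obtain ⟨t, ht, hst, hcard, -⟩ := hc.pure (s := {x, y})
      (mem_sA_iff_clq.1 (pair_mem_sA hx hy (Or.inr hxy))).2 ⟨x, by simp, hx⟩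
    obtain ⟨⟨a, ha, haP⟩, -⟩ := hs.two t ht hcard
    rw [mem_lks_H4] at ha
    exact ⟨a, ⟨haP, mem_lk1_H4.2 ⟨ha.1, ha.2 x (hst (by simp))⟩⟩, a,
      ⟨haP, mem_lk1_H4.2 ⟨ha.1, ha.2 y (hst (by simp))⟩⟩, Reach.refl a⟩
  obtain ⟨x, hx⟩ := hcc.1
  obtain ⟨a, ha⟩ := (hl x hx).1
  exact ⟨⟨⟨a, ha.1⟩, hP⟩, ⟨x, Or.inl hx⟩,
    hcc.2.union hP hx ha.1 (Or.inr (mem_lk1_H4.1 ha.2).2)⟩

theorem side_zero_H4 : SideP_H4 G 0 := by
  intro A β c P h hc _ hs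
  obtain ⟨rfl, hb⟩ := hc
  obtain ⟨hf, hg, hb', hl⟩ := h
  have h2 : A.ncard = 2 := (show A.ncard = 1 ∨ A.ncard = 2 from hg).resolve_left
    fun h1 => hb (hb'.2 (by simpa using h1))
  obtain ⟨⟨a, ha, haP⟩, b, hb1, hb2⟩ := hs.two ∅ clq_empty_H4 rfl
  have hPA : P ⊆ A := fun x hx => (hs.subset hx).1
  have hlt : P.ncard < A.ncard :=
    Set.ncard_lt_ncard ⟨hPA, fun h' => hb2 (Or.inr (h' hb1.1))⟩ hf
  have hpos : 0 < P.ncard := (Set.ncard_pos (hf.subset hPA)).2 ⟨a, haP⟩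
  have h1 : P.ncard = 1 := by omega
  rw [Set.empty_union]
  refine ⟨⟨hf.subset hPA, Or.inl h1, ⟨fun _ => by simpa using h1, fun _ => Or.inl (by simp)⟩,
    fun v hv => ?_⟩, ?_⟩
  · obtain ⟨h3, h4⟩ := hl v (hPA hv)
    refine ⟨Set.eq_empty_of_subset_empty (h3 ▸ fun x hx => ⟨hPA hx.1, hx.2⟩), ?_⟩
    rintro (h5 | h5)
    · exact h5 (Finset.mem_coe.2 (Finset.mem_insert_self v ∅))
    · exact h4 h5
  · obtain ⟨x, rfl⟩ := Set.ncard_eq_one.1 h1
    exact con_singleton x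

theorem bd_cond_H4 {β : Finset V → Prop} {c X : Set V} (hn : (c ∩ X).Nonempty) :
    (((∅ : Finset V) : Set V) ⊆ c ∨ β ∅) ↔ ∃ v ∈ X, (({v} : Finset V) : Set V) ⊆ c ∨ β {v} := by
  obtain ⟨x, hx, hx'⟩ := hn
  exact ⟨fun _ => ⟨x, hx', Or.inl (by simpa using hx)⟩, fun _ => Or.inl (by simp)⟩

theorem diff_side_H4 {d : ℕ} {c P : Set V} (hs : Split G d A c P) : (c ∪ P) \ c = P := by
  ext a
  exact ⟨fun h => h.1.resolve_left h.2, fun h => ⟨Or.inr h, (hs.subset h).2⟩⟩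

theorem side_one_H4 : SideP_H4 G 1 := by
  intro A β c P h hc hcA hs
  obtain ⟨hm, -⟩ := mfa_side_H4 side_zero_H4 h.mfa hc.mfa hcA hs
  have hsub : c ∪ P ⊆ A := Set.union_subset hcA fun x hx => (hs.subset hx).1
  have hf : (c ∪ P).Finite := h.finite.subset hsub
  obtain ⟨x, hx⟩ := hc.nonempty
  have hcx : c ⊆ cmp G (c ∪ P) x := by
    by_cases hb : β ∅
    · have h1 : c.ncard = 1 := by simpa using hc.2.2.1.1 hb
      obtain ⟨z, rfl⟩ := Set.ncard_eq_one.1 h1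
      intro y hy
      rw [hy.trans hx.symm]
      exact mem_cmp_self (Or.inl hx)
    · have h2 : c.ncard = 2 := (show c.ncard = 1 ∨ c.ncard = 2 from hc.2.1).resolve_left
        fun h1 => hb (hc.2.2.1.2 (by simpa using h1))
      have hK := cell_two (hf.subset (cmp_subset x)) (con_cmp (Or.inl hx))
        ((hm.mono (cmp_subset x)).clopen (clopen_cmp x))
        (bd_cond_H4 ⟨x, hx, mem_cmp_self (Or.inl hx)⟩)
      have h3 := hK.arc_ends (Or.inl (by simp))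
      have h4 : {v | v ∈ cmp G (c ∪ P) x ∧ ((({v} : Finset V) : Set V) ⊆ c ∨ β {v})} ⊆ c := by
        rintro v ⟨hv, h5 | h5⟩
        · simpa using h5
        · exact absurd (h.down (clq_single_H4 (hsub (cmp_subset x hv))) (by simp) h5) hb
      have h5 := Set.eq_of_subset_of_ncard_le h4 (by rw [h3, h2]) hc.finite
      intro y hy
      rw [← h5] at hy
      exact hy.1
  have hcon : Con G (c ∪ P) := by
    refine ⟨⟨x, Or.inl hx⟩, pre_of_base (x := x) fun a ha => ?_⟩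
    rcases ha with ha | ha
    · exact (hcx ha).2.symm
    · obtain ⟨w, hw, u, hu, hr⟩ := near_c_H4 hs hcA (Cell.con (d := 0) h).2 ⟨x, hx⟩ ha
      exact ((hr.mono Set.subset_union_right).trans (Reach.single (Or.inr hu.1) (Or.inl hw)
        (Or.inr (mem_lk1_H4.1 hu.2).2.symm))).trans (hcx hw).2.symm
  have hcell := cell_two hf hcon hm (bd_cond_H4 ⟨x, hx, Or.inl hx⟩)
  refine ⟨hcell, ?_⟩
  have h6 := (hcell.arc_rem (S := c) fun s hs' => Or.inl fun a ha => (hs'.1 ha).2).1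
  rwa [diff_side_H4 hs] at h6

theorem side_two_H4 : SideP_H4 G 2 := by
  intro A β c P h hc hcA hs
  obtain ⟨hm, hl⟩ := mfa_side_H4 side_one_H4 h.mfa hc.mfa hcA hs
  obtain ⟨-, hl'⟩ := mfa_side_H4 side_one_H4 h.mfa hc.mfa hcA (split_symm_H4 hs)
  have hA : Con G A := Cell.con (d := 1) h
  have hcc : Con G c := Cell.con (d := 0) hc
  obtain ⟨hP, hcP⟩ := con_side_H4 hc.mfa hcA hs hA.2 hcc hl
  obtain ⟨hZ, -⟩ := con_side_H4 hc.mfa hcA (split_symm_H4 hs) hA.2 hcc hl'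
  have hsub : c ∪ P ⊆ A := Set.union_subset hcA fun x hx => (hs.subset hx).1
  obtain ⟨x, hx⟩ := hcc.1
  refine ⟨cell_three (h.finite.subset hsub) hcP ?_ hm (bd_cond_H4 ⟨x, hx, Or.inl hx⟩), hP⟩
  by_cases hb : β ∅
  · have hne : NE G (c ∪ P) (c ∪ A \ (c ∪ P)) := fun a ha b hb' =>
      hs.sep a (ha.1.resolve_left fun h' => ha.2 (Or.inl h')) b
        (hb'.1.resolve_left fun h' => hb'.2 (Or.inl h'))
    have hcov := hne.cov2
    have e1 : c ∪ P ∪ (c ∪ A \ (c ∪ P)) = A := by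
      ext a
      constructor
      · rintro (h1 | h1 | h1)
        · exact hsub h1
        · exact hcA h1
        · exact h1.1
      · intro h1
        by_cases h2 : a ∈ c ∪ P
        · exact Or.inl h2
        · exact Or.inr (Or.inr ⟨h1, h2⟩)
    rw [e1] at hcov
    refine triv_of_cov2 hcov h.ndc (hc.arc_sco hb (fun a ha => ?_) _)
    exact ha.2.resolve_right fun h' => h'.2 ha.1
  · have h1 := h.compl_ndc Set.sdiff_subset hZ (Or.inl hb)
    rwa [Set.sdiff_sdiff_cancel_left hsub] at h1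

theorem side_H4 {d : ℕ} (hd : d ≤ 2) : SideP_H4 G d := by
  interval_cases d
  exacts [side_zero_H4, side_one_H4, side_two_H4]

theorem split_unique_H4 {d : ℕ} {c P P' : Set V} (h : Split G d A c P) (h' : Split G d A c P')
    (h1 : Pre G P) (h2 : Pre G (A \ (c ∪ P))) (hn : ∃ s, Clq G c s ∧ s.card = d) :
    P' = P ∨ P' = A \ (c ∪ P) := by
  obtain ⟨s, hs, hd⟩ := hn
  obtain ⟨⟨a, ha, haP⟩, b, hb, hbP⟩ := h'.two s hs hd
  have hcl : Clopen G (A \ c) P' := ⟨h'.subset, fun u hu w hw huw =>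
    (split_nbr_H4 h' hu hw.1 huw).resolve_left hw.2⟩
  have hZ : A \ (c ∪ P) ⊆ A \ c := fun x hx => ⟨hx.1, fun h3 => hx.2 (Or.inl h3)⟩
  have hcs : ∀ x ∈ A \ c, x ∈ P ∨ x ∈ A \ (c ∪ P) := fun x hx => by
    by_cases h3 : x ∈ P
    · exact Or.inl h3
    · exact Or.inr ⟨hx.1, fun h4 => h4.elim hx.2 h3⟩
  by_cases e1 : ∃ x ∈ P, x ∈ P'
  · obtain ⟨x, hx, hx'⟩ := e1
    have s1 := h1.subset_clopen h.subset hcl hx hx'
    refine Or.inl (Set.Subset.antisymm (fun y hy => ?_) s1)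
    refine (hcs y (h'.subset hy)).resolve_right fun hy' => ?_
    have s2 := h2.subset_clopen hZ hcl hy' hy
    exact hbP (Or.inr ((hcs b ⟨hb.1, fun h3 => hbP (Or.inl h3)⟩).elim (fun h3 => s1 h3)
      fun h3 => s2 h3))
  · have s1 : P' ⊆ A \ (c ∪ P) := fun y hy =>
      (hcs y (h'.subset hy)).resolve_left fun h3 => e1 ⟨y, h3, hy⟩
    exact Or.inr (Set.Subset.antisymm s1 (h2.subset_clopen hZ hcl (s1 haP) haP))

/-- One side of an interior point of an arc contains an end point. -/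
theorem arc_end_H4 {β : Finset V → Prop} {c P : Set V} (h : Cell G 2 A β) (hc : Cell G 1 c β)
    (hb : β ∅) (hcA : c ⊆ A) (hs : Split G 1 A c P) : ∃ v ∈ P, β {v} := by
  have h1 : c.ncard = 1 := by simpa using hc.2.2.1.1 hb
  have h3 := (side_one_H4 A β c P h hc hcA hs).1.arc_ends (Or.inl (by simp))
  by_contra hn
  have h4 : {v | v ∈ c ∪ P ∧ ((({v} : Finset V) : Set V) ⊆ c ∨ β {v})} ⊆ c := by
    rintro v ⟨hv | hv, h5⟩
    · exact hv
    · rcases h5 with h5 | h5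
      · simpa using h5
      · exact absurd ⟨v, hv, h5⟩ hn
  have h5 := Set.ncard_le_ncard h4 hc.finite
  omega

end Pool.Agent.MP_6374aa_g

end

section

/-! Existence of the two sides: auxiliary lemmas. -/

namespace Pool.Agent.MP_6374aa_g

open Pool.Agent.MP_6374aa_gt Classical

variable {V : Type} {G : SimpleGraph V} {A : Set V}

def ExP_H4 (G : SimpleGraph V) (d : ℕ) : Prop :=
  ∀ (A : Set V) (β : Finset V → Prop) (c : Set V), Cell G (d + 1) A β → Cell G d c β → c ⊆ A →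
    ∃ P, Split G d A c P

theorem ex_zero_H4 : ExP_H4 G 0 := by
  intro A β c h hc _
  obtain ⟨rfl, hb⟩ := hc
  have h2 : A.ncard = 2 := (show A.ncard = 1 ∨ A.ncard = 2 from h.2.1).resolve_left
    fun h1 => hb (h.2.2.1.2 (by simpa using h1))
  obtain ⟨a, b, hab, rfl⟩ := Set.ncard_eq_two.1 h2
  refine ⟨{a}, fun x hx => ⟨Or.inl hx, id⟩,
    fun x hx y hy => h.one_no_adj x (Or.inl hx) y hy.1, fun s _ hd => ?_⟩
  obtain rfl := Finset.card_eq_zero.1 hd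
  rw [Finset.coe_empty, lk_empty]
  exact ⟨⟨a, Or.inl rfl, rfl⟩, b, Or.inr rfl, fun h' => h'.elim id fun h'' => hab h''.symm⟩

theorem ex_arc_H4 {β : Finset V → Prop} (h : Cell G 2 A β) (hb : β ∅) {x : V} (hx : x ∈ A)
    (hxb : ¬ β {x}) : ∃ P, Split G 1 A {x} P := by
  have hl := h.mfa x hx
  have h2 : (Lk G A {x}).ncard = 2 :=
    (show (Lk G A {x}).ncard = 1 ∨ (Lk G A {x}).ncard = 2 from hl.2.1).resolve_left
      fun h1 => hxb (by simpa using hl.2.2.1.2 (by simpa using h1))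
  obtain ⟨p, q, hpq, e⟩ := Set.ncard_eq_two.1 h2
  have hp : p ∈ Lk G A {x} := e ▸ Or.inl rfl
  have hq : q ∈ Lk G A {x} := e ▸ Or.inr rfl
  have hne : ∀ a ∈ Lk G A {x}, a ∈ A \ {x} := fun a ha =>
    ⟨ha.1, fun h' => G.irrefl ((show a = x from h') ▸ (mem_lk1_H4.1 ha).2)⟩
  refine ⟨cmp G (A \ {x}) p, cmp_subset p, fun a ha b hb' hab => hb'.2 (Or.inr
    ((clopen_cmp p).2 a ha b ⟨hb'.1, fun h' => hb'.2 (Or.inl h')⟩ hab)), fun s hs hd => ?_⟩
  obtain ⟨z, rfl⟩ := Finset.card_eq_one.1 hd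
  obtain rfl : z = x := hs.1 (Finset.mem_coe.2 (Finset.mem_singleton_self z))
  rw [Finset.coe_singleton]
  refine ⟨⟨p, hp, mem_cmp_self (hne p hp)⟩, q, hq, fun h' => h'.elim (hne q hq).2 fun hqP => ?_⟩
  have hcl : Clopen G A (insert z (cmp G (A \ {z}) p)) := by
    refine ⟨Set.insert_subset hx fun a ha => (cmp_subset p ha).1, fun a ha b hb' hab => ?_⟩
    by_cases hbz : b = z
    · exact Or.inl hbz
    rcases ha with rfl | ha
    · have h3 : b ∈ Lk G A {a} := mem_lk1_H4.2 ⟨hb', hab⟩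
      rw [e] at h3
      rcases h3 with rfl | rfl
      · exact Or.inr (mem_cmp_self (hne _ hp))
      · exact Or.inr hqP
    · exact Or.inr ((clopen_cmp p).2 a ha b ⟨hb', hbz⟩ hab)
  have hall := (Cell.con (d := 0) h).2.subset_clopen subset_rfl hcl hx (Or.inl rfl)
  have hpre : Pre G (A \ {z}) := pre_of_base (x := p) fun a ha =>
    ((hall ha.1).resolve_left ha.2).2.symm
  have hstar : Con G (insert z (Lk G A {z})) := (cone_sco (a := z) (Or.inl rfl) fun a ha =>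
    ha.elim (fun h' => Or.inl h'.symm) fun h' => Or.inr (mem_lk1_H4.1 h').2).1
  have hst : ∀ a ∈ A, Adq G z a → a ∈ insert z (Lk G A {z}) := fun a ha h' =>
    h'.elim (fun h'' => Or.inl h''.symm) fun h'' => Or.inr (mem_lk1_H4.2 ⟨ha, h''⟩)
  have hcov : Cov2 G A (A \ {z}) (insert z (Lk G A {z})) := by
    refine ⟨Set.sdiff_subset, Set.insert_subset hx (lk_subset _),
      fun u hu v hv w hw huv hvw huw => ?_⟩
    by_cases e1 : u = z
    · subst e1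
      exact Or.inr ⟨Or.inl rfl, hst v hv huv, hst w hw huw⟩
    by_cases e2 : v = z
    · subst e2
      exact Or.inr ⟨hst u hu (adq_symm huv), Or.inl rfl, hst w hw hvw⟩
    by_cases e3 : w = z
    · subst e3
      exact Or.inr ⟨hst u hu (adq_symm huw), hst v hv (adq_symm hvw), Or.inl rfl⟩
    exact Or.inl ⟨⟨hu, e1⟩, ⟨hv, e2⟩, hw, e3⟩
  have hi := inter_pre hcov (h.arc_sco hb subset_rfl).ndc hpre hstar.2
  refine hpq (hi.const (φ := id) (fun a ha b hb' hab => ?_) ⟨hne p hp, Or.inr hp⟩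
    ⟨hne q hq, Or.inr hq⟩)
  exact absurd hab (hl.one_no_adj a (ha.2.resolve_left ha.1.2) b (hb'.2.resolve_left hb'.1.2))

theorem ex_one_H4 : ExP_H4 G 1 := by
  intro A β c h hc hcA
  have hcb : ∀ x ∈ c, ¬ β {x} := fun x hx h' => (hc.2.2.2 x hx).2 (by simpa using h')
  by_cases hb : β ∅
  · have h1 : c.ncard = 1 := by simpa using hc.2.2.1.1 hb
    obtain ⟨x, rfl⟩ := Set.ncard_eq_one.1 h1
    exact ex_arc_H4 h hb (hcA rfl) (hcb x rfl)
  have h2 : c.ncard = 2 := (show c.ncard = 1 ∨ c.ncard = 2 from hc.2.1).resolve_left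
    fun h1 => hb (hc.2.2.1.2 (by simpa using h1))
  obtain ⟨x, y, hxy, rfl⟩ := Set.ncard_eq_two.1 h2
  have hS : Sph G 2 A := h.congr fun s hs => ⟨fun h' => hb (h.down hs (by simp) h'), False.elim⟩
  have hB := hS.circle_rem (hcA (Or.inr rfl) : y ∈ A)
  have hxl : x ∉ Lk G A {y} := fun h' =>
    hc.one_no_adj y (Or.inr rfl) x (Or.inl rfl) (mem_lk1_H4.1 h').2
  have hxA : x ∈ A \ {y} := ⟨hcA (Or.inl rfl), hxy⟩
  have hb0 : sub (Lk G A {y}) ∅ := by simp [sub]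
  obtain ⟨P, hP⟩ := ex_arc_H4 hB hb0 hxA (by simpa [sub] using hxl)
  have hc1 : Cell G 1 {x} (sub (Lk G A {y})) := ball_one.2 ⟨x, rfl, hxl⟩
  have hsx : ({x} : Set V) ⊆ A \ {y} := Set.singleton_subset_iff.2 hxA
  obtain ⟨v, hv, hv'⟩ := arc_end_H4 hB hc1 hb0 hsx hP
  obtain ⟨w, hw, hw'⟩ := arc_end_H4 hB hc1 hb0 hsx (split_symm_H4 hP)
  have hv2 : v ∈ Lk G A {y} := by simpa [sub] using hv'
  have hw2 : w ∈ Lk G A {y} := by simpa [sub] using hw'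
  have key : ∀ b, b ∈ A \ ({x, y} ∪ P) ↔ b ∈ (A \ {y}) \ ({x} ∪ P) := fun b => by
    simp only [Set.mem_sdiff, Set.mem_union, Set.mem_insert_iff, Set.mem_singleton_iff]
    tauto
  refine ⟨P, fun a ha => ⟨(hP.subset ha).1.1, fun h' => h'.elim (hP.subset ha).2
    (hP.subset ha).1.2⟩, fun a ha b hb' => hP.sep a ha b ((key b).1 hb'), fun s hs hd => ?_⟩
  obtain ⟨z, rfl⟩ := Finset.card_eq_one.1 hd
  rcases hs.1 (Finset.mem_coe.2 (Finset.mem_singleton_self z)) with rfl | rfl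
  · obtain ⟨⟨a, ha, haP⟩, b, hb1, hb2⟩ := hP.two {z} (clq_single_H4 rfl) rfl
    exact ⟨⟨a, ⟨ha.1.1, ha.2⟩, haP⟩, b, ⟨hb1.1.1, hb1.2⟩, ((key b).2 ⟨hb1.1, hb2⟩).2⟩
  · rw [Finset.coe_singleton]
    exact ⟨⟨v, hv2, hv⟩, w, hw2, ((key w).2 hw).2⟩

/-- The local sides at two adjacent points agree or are opposite. -/
theorem cmp_sides_H4 {d : ℕ} (hd : d ≤ 2) {β : Finset V → Prop} {c : Set V}
    (h : Mfa G (d + 1) A β c) (hc : Mfa G d c β c) (hcA : c ⊆ A) {x y : V} (hx : x ∈ c)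
    (hy : y ∈ c) (hxy : G.Adj x y) {Q R : Set V} (hQ : Split G d (Lk G A {x}) (Lk G c {x}) Q)
    (hR : Split G d (Lk G A {y}) (Lk G c {y}) R) :
    (∀ a ∈ Lk G A {x, y}, a ∉ c → (a ∈ Q ↔ a ∈ R)) ∨
      ∀ a ∈ Lk G A {x, y}, a ∉ c → (a ∈ Q ↔ a ∉ R) := by
  have hyx : y ∈ Lk G c {x} := mem_lk1_H4.2 ⟨hy, hxy⟩
  have hxy' : x ∈ Lk G c {y} := mem_lk1_H4.2 ⟨hx, hxy.symm⟩
  cases d with
  | zero => exact absurd hyx ((hc x hx).1 ▸ id)
  | succ e =>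
    have l1 : ∀ B : Set V, Lk G (Lk G B {x}) {y} = Lk G B {x, y} := fun B => by
      ext a
      simp only [mem_lk1_H4, mem_lk2_H4, and_assoc]
    have l2 : ∀ B : Set V, Lk G (Lk G B {y}) {x} = Lk G B {x, y} := fun B => by
      ext a
      simp only [mem_lk1_H4, mem_lk2_H4]
      tauto
    have s1 := split_lk_H4 hQ hyx
    have s2 := split_lk_H4 hR hxy'
    have c1 := (h x hx).mfa y ⟨hcA hyx.1, hyx.2⟩
    have c2 := (hc x hx).mfa y hyx
    rw [l1] at c1 c2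
    rw [l1, l1] at s1
    rw [l2, l2] at s2
    have hsub : Lk G c {x, y} ⊆ Lk G A {x, y} := fun a ha => ⟨hcA ha.1, ha.2⟩
    have p1 := (side_H4 (by omega) _ _ _ _ c1 c2 hsub s1).2.2
    have p2 := (side_H4 (by omega) _ _ _ _ c1 c2 hsub (split_symm_H4 s1)).2.2
    obtain ⟨t, ht, -, ht', -⟩ := c2.pure clq_empty_H4
    rcases split_unique_H4 s1 s2 p1 p2 ⟨t, ht, ht'⟩ with e1 | e1
    · refine Or.inl fun a ha _ => ?_
      have := Set.ext_iff.1 e1 a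
      simp only [Set.mem_inter_iff, ha, and_true] at this
      exact this.symm
    · refine Or.inr fun a ha hac => ?_
      have := Set.ext_iff.1 e1 a
      have h3 : a ∉ Lk G c {x, y} := fun h' => hac h'.1
      simp only [Set.mem_inter_iff, Set.mem_sdiff, Set.mem_union, ha, h3, and_true, true_and,
        false_or] at this
      tauto

theorem theta_H4 {d : ℕ} (hd : d ≤ 2) (H : ExP_H4 G d) {β : Finset V → Prop} {c : Set V}
    (h : Mfa G (d + 1) A β c) (hc : Mfa G d c β c) (hcA : c ⊆ A) :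
    ∃ θ : V → V → Z2, Flat G A θ ∧ (∀ a ∉ c, ∀ b ∉ c, θ a b = 1) ∧
      ∀ s, Clq G c s → s.card = d + 1 → ∀ x ∈ s,
        (∃ a ∈ Lk G A s, a ∉ c ∧ θ x a = 1) ∧ ∃ b ∈ Lk G A s, b ∉ c ∧ θ x b = neg := by
  have hex : ∀ x, ∃ P, x ∈ c → Split G d (Lk G A {x}) (Lk G c {x}) P := fun x => by
    by_cases hx : x ∈ c
    · obtain ⟨P, hP⟩ := H _ _ _ (h x hx) (hc x hx) fun a ha => ⟨hcA ha.1, ha.2⟩
      exact ⟨P, fun _ => hP⟩
    · exact ⟨∅, fun h' => absurd h' hx⟩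
  choose P hP using hex
  obtain ⟨ind, hind⟩ : ∃ ind : V → V → Z2, ∀ x a, ind x a = if a ∈ P x then 1 else neg :=
    ⟨_, fun _ _ => rfl⟩
  obtain ⟨ω, hω⟩ : ∃ ω : V → V → Z2, ∀ x y, ω x y =
      if ∀ a ∈ A, a ∉ c → G.Adj x a → G.Adj y a → (a ∈ P x ↔ a ∈ P y) then 1 else neg :=
    ⟨_, fun _ _ => rfl⟩
  have top : ∀ s, Clq G c s → s.card = d + 1 → ∀ x ∈ s,
      (∃ a ∈ Lk G A s, a ∉ c ∧ ind x a = 1) ∧ ∃ b ∈ Lk G A s, b ∉ c ∧ ind x b = neg := by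
    intro s hs hd' x hx
    have hxc : x ∈ c := hs.1 hx
    obtain ⟨⟨a, ha, haP⟩, b, hb, hbP⟩ := (hP x hxc).two _ (clq_erase_H4 hx hs)
      (by rw [Finset.card_erase_of_mem hx, hd']; rfl)
    have ha' := ha
    have hb' := hb
    rw [← mem_lk_insert_H4, Finset.insert_erase hx] at ha' hb'
    refine ⟨⟨a, ha', fun h' => ((hP x hxc).subset haP).2 ⟨h', ha.1.2⟩, by rw [hind, if_pos haP]⟩,
      b, hb', fun h' => hbP (Or.inl ⟨h', hb.1.2⟩), ?_⟩
    rw [hind, if_neg fun h' => hbP (Or.inr h')]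
  have K : ∀ x ∈ c, ∀ y ∈ c, Adq G x y → ∀ a ∈ A, a ∉ c → G.Adj x a → G.Adj y a →
      ω x y = ind x a * ind y a := by
    intro x hx y hy hxy a ha hac hxa hya
    rw [hω]
    split_ifs with h1
    · rw [hind, hind, if_congr (h1 a ha hac hxa hya) rfl rfl, z2_mul_self]
    · rcases hxy with rfl | hxy
      · exact absurd (fun _ _ _ _ _ => Iff.rfl) h1
      rcases cmp_sides_H4 hd h hc hcA hx hy hxy (hP x hx) (hP y hy) with h2 | h2
      · exact absurd (fun b hb hbc hxb hyb => h2 b (mem_lk2_H4.2 ⟨hb, hxb, hyb⟩) hbc) h1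
      · have h3 := h2 a (mem_lk2_H4.2 ⟨ha, hxa, hya⟩) hac
        rw [hind, hind]
        by_cases h4 : a ∈ P y
        · rw [if_pos h4, if_neg fun h5 => h3.1 h5 h4, mul_one]
        · rw [if_neg h4, if_pos (h3.2 h4), one_mul]
  have S : ∀ x ∈ c, ∀ a ∈ A, a ∉ c → ∀ b ∈ A, b ∉ c → G.Adj x a → G.Adj x b → Adq G a b →
      ind x a = ind x b := by
    have S1 : ∀ x ∈ c, ∀ a b, b ∈ A → b ∉ c → G.Adj x b → G.Adj a b → a ∈ P x → b ∈ P x :=
      fun x hx a b hb hbc hxb hab ha =>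
        (split_nbr_H4 (hP x hx) ha (mem_lk1_H4.2 ⟨hb, hxb⟩) hab).resolve_left fun h' => hbc h'.1
    intro x hx a ha hac b hb hbc hxa hxb hab
    rcases hab with rfl | hab
    · rfl
    · rw [hind, hind, if_congr ⟨S1 x hx a b hb hbc hxb hab, S1 x hx b a ha hac hxa hab.symm⟩ rfl rfl]
  have J : ∀ {x a : V}, x ∈ c → a ∉ c → Adq G x a → G.Adj x a := fun hx ha h' =>
    h'.resolve_left fun h'' => ha (h'' ▸ hx)
  have M : ∀ a b e : Z2, a * b * (b * e) = a * e := fun a b e => by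
    rw [mul_assoc, ← mul_assoc b, z2_mul_self, one_mul]
  refine ⟨fun u w => if u ∈ c then (if w ∈ c then ω u w else ind u w) else
    (if w ∈ c then ind w u else 1), fun u hu v hv w hw huv hvw huw => ?_,
    fun a ha b hb => by simp only [if_neg ha, if_neg hb], fun s hs hd' x hx => ?_⟩
  · by_cases e1 : u ∈ c <;> by_cases e2 : v ∈ c <;> by_cases e3 : w ∈ c <;>
      simp only [e1, e2, e3, if_true, if_false]
    · have hq : Clq G c {u, v, w} := by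
        refine clq_iff.2 ⟨by simp [Set.insert_subset_iff, e1, e2, e3], ?_⟩
        simp only [Finset.mem_insert, Finset.mem_singleton, forall_eq_or_imp, forall_eq]
        exact ⟨⟨adq_refl _, huv, huw⟩, ⟨adq_symm huv, adq_refl _, hvw⟩, adq_symm huw,
          adq_symm hvw, adq_refl _⟩
      obtain ⟨t, ht, hst, hcard, -⟩ := hc.pure hq ⟨u, by simp, e1⟩
      obtain ⟨⟨a, ha, hac, -⟩, -⟩ := top t ht hcard u (hst (by simp))
      rw [mem_lks_H4] at ha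
      have a1 := ha.2 u (hst (by simp))
      have a2 := ha.2 v (hst (by simp))
      have a3 := ha.2 w (hst (by simp))
      rw [K u e1 v e2 huv a ha.1 hac a1 a2, K v e2 w e3 hvw a ha.1 hac a2 a3,
        K u e1 w e3 huw a ha.1 hac a1 a3, M]
    · rw [K u e1 v e2 huv w hw e3 (J e1 e3 huw) (J e2 e3 hvw), mul_assoc, z2_mul_self, mul_one]
    · rw [K u e1 w e3 huw v hv e2 (J e1 e2 huv) (J e3 e2 (adq_symm hvw))]
    · rw [S u e1 v hv e2 w hw e3 (J e1 e2 huv) (J e1 e3 huw) hvw, mul_one]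
    · rw [K v e2 w e3 hvw u hu e1 (J e2 e1 (adq_symm huv)) (J e3 e1 (adq_symm huw)), ← mul_assoc,
        z2_mul_self, one_mul]
    · rw [S v e2 u hu e1 w hw e3 (J e2 e1 (adq_symm huv)) (J e2 e3 hvw) huw, z2_mul_self]
    · rw [S w e3 u hu e1 v hv e2 (J e3 e1 (adq_symm huw)) (J e3 e2 (adq_symm hvw)) huv, one_mul]
    · rw [mul_one]
  · obtain ⟨⟨a, ha, hac, ha'⟩, b, hb, hbc, hb'⟩ := top s hs hd' x hx
    have hxc : x ∈ c := hs.1 hx
    exact ⟨⟨a, ha, hac, by simp only [if_pos hxc, if_neg hac, ha']⟩, b, hb, hbc,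
      by simp only [if_pos hxc, if_neg hbc, hb']⟩

theorem es_H4 {d : ℕ} (hd : d ≤ 2) (H : ExP_H4 G d) {β : Finset V → Prop} {c : Set V}
    (h : Mfa G (d + 1) A β c) (hc : Mfa G d c β c) (hcA : c ⊆ A) (hn : NDC G A) :
    ∃ P, Split G (d + 1) A c P := by
  obtain ⟨θ, h1, h2, h3⟩ := theta_H4 hd H h hc hcA
  obtain ⟨p, hp⟩ := hn θ h1
  refine ⟨{a | a ∈ A \ c ∧ p a = 1}, fun a ha => ha.1, fun a ha b hb hab => ?_, fun s hs hd' => ?_⟩
  · have hbc : b ∉ c := fun h' => hb.2 (Or.inl h')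
    have h4 := hp a ha.1.1 b hb.1 (Or.inr hab)
    rw [h2 a ha.1.2 b hbc, ha.2, one_mul, eq_comm, inv_eq_one] at h4
    exact hb.2 (Or.inr ⟨⟨hb.1, hbc⟩, h4⟩)
  · obtain ⟨x, hx⟩ : s.Nonempty := Finset.card_pos.1 (by omega)
    obtain ⟨⟨a, ha, hac, ha'⟩, b, hb, hbc, hb'⟩ := h3 s hs hd' x hx
    have e1 := hp x (hcA (hs.1 hx)) a ha.1 (Or.inr (ha.2 x hx))
    have e2 := hp x (hcA (hs.1 hx)) b hb.1 (Or.inr (hb.2 x hx))
    have hne : p a ≠ p b := fun e => neg_ne_one (by rw [← hb', e2, ← e, ← e1, ha'])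
    rcases z2_cases (p a) with e3 | e3
    · exact ⟨⟨a, ha, ⟨ha.1, hac⟩, e3⟩, b, hb,
        fun h' => h'.elim hbc fun h'' => hne (e3.trans h''.2.symm)⟩
    · have e4 : p b = 1 := (z2_cases (p b)).resolve_right fun e => hne (e3.trans e.symm)
      exact ⟨⟨b, hb, ⟨hb.1, hbc⟩, e4⟩, a, ha,
        fun h' => h'.elim hac fun h'' => hne (h''.2.trans e4.symm)⟩

theorem ex_H4 {d : ℕ} (hd : d ≤ 2) : ExP_H4 G d := by
  interval_cases d
  · exact ex_zero_H4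
  · exact ex_one_H4
  · intro A β c h hc hcA
    exact es_H4 (by omega) ex_one_H4 (h.mfa.mono hcA) hc.mfa hcA h.ndc

end Pool.Agent.MP_6374aa_g

end

section

/-! The two sides of a hypersurface. -/

namespace Pool.Agent.MP_6374aa_g

open Pool.Agent.MP_6374aa_gt Classical

variable {V V' V'' : Type} {G : SimpleGraph V} {G' : SimpleGraph V'} {G'' : SimpleGraph V''}
  {A : Set V} {A' : Set V'} {A'' : Set V''} {L : Type} [Group L]

theorem Split.symm {d : ℕ} {c P : Set V} (hc : c ⊆ A) (h : Split G d A c P) :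
    Split G d A c (A \ (c ∪ P)) := by
  have _ := hc
  exact split_symm_H4 h

theorem Split.lk {d : ℕ} {c P : Set V} (h : Split G (d + 1) A c P) {v : V} (hv : v ∈ c) :
    Split G d (Lk G A {v}) (Lk G c {v}) (P ∩ Lk G A {v}) := by
  exact split_lk_H4 h hv

theorem Cell.side {d : ℕ} {β : Finset V → Prop} {c P : Set V} (h : Cell G (d + 1) A β)
    (hc : Cell G d c β) (hd : d ≤ 2) (hcA : c ⊆ A) (hs : Split G d A c P) :
    Cell G (d + 1) (c ∪ P) (fun s => ↑s ⊆ c ∨ β s) ∧ Con G P := by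
  exact side_H4 hd A β c P h hc hcA hs

theorem Mfa.side {d : ℕ} {β : Finset V → Prop} {c P : Set V} (h : Mfa G (d + 1) A β A)
    (hc : Mfa G d c β c) (hd : d ≤ 2) (hcA : c ⊆ A) (hs : Split G (d + 1) A c P) :
    Mfa G (d + 1) (c ∪ P) (fun s => ↑s ⊆ c ∨ β s) (c ∪ P) ∧
      (Pre G A → Con G c → Con G P ∧ Con G (c ∪ P)) := by
  obtain ⟨h1, h2⟩ := mfa_side_H4 (side_H4 hd) h hc hcA hs
  exact ⟨h1, fun hA hcc => con_side_H4 hc hcA hs hA hcc h2⟩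

theorem Split.unique {d : ℕ} {c P P' : Set V} (h : Split G d A c P) (h' : Split G d A c P')
    (h1 : Pre G P) (h2 : Pre G (A \ (c ∪ P))) (hn : ∃ s, Clq G c s ∧ s.card = d) :
    P' = P ∨ P' = A \ (c ∪ P) := by
  exact split_unique_H4 h h' h1 h2 hn

/-- The boundary part of one side of an arc in a disc is connected. -/
theorem Ball.side_bd {T c P : Set V} (h : Ball G 3 A T) (hc : Ball G 2 c T) (hcA : c ⊆ A)
    (hs : Split G 2 A c P) : Con G ((c ∪ P) ∩ T) ∧ (P ∩ T).Nonempty := by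
  have key : ∀ Q, Split G 2 A c Q → ∀ x ∈ c ∩ T, ∃ v ∈ Lk G (A ∩ T) {x}, v ∈ Q := by
    intro Q hQ x hx
    obtain ⟨v, hv, hv'⟩ := arc_end_H4 (Cell.mfa h x (hcA hx.1)) (Cell.mfa hc x hx.1)
      (by simpa [sub] using hx.2) (fun a ha => ⟨hcA ha.1, ha.2⟩) (split_lk_H4 hQ hx.1)
    have hvT : v ∈ T := hv' (by simp)
    exact ⟨v, ⟨⟨hv.2.1, hvT⟩, hv.2.2⟩, hv.1⟩
  have hsp : Split G 1 (A ∩ T) (c ∩ T) (P ∩ T) := by
    refine ⟨fun a ha => ⟨⟨(hs.subset ha.1).1, ha.2⟩, fun h' => (hs.subset ha.1).2 h'.1⟩,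
      fun a ha b hb => hs.sep a ha.1 b ⟨hb.1.1, fun h' => hb.2 (h'.imp (fun h1 => ⟨h1, hb.1.2⟩)
        fun h1 => ⟨h1, hb.1.2⟩)⟩, fun s hs' hd => ?_⟩
    obtain ⟨z, rfl⟩ := Finset.card_eq_one.1 hd
    have hz := hs'.1 (Finset.mem_coe.2 (Finset.mem_singleton_self z))
    rw [Finset.coe_singleton]
    obtain ⟨v, hv, hv'⟩ := key P hs z hz
    obtain ⟨w, hw, hw'⟩ := key _ (split_symm_H4 hs) z hz
    exact ⟨⟨v, hv, hv', hv.1.2⟩, w, hw, fun h' => hw'.2 (h'.imp (fun h1 => h1.1) fun h1 => h1.1)⟩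
  obtain ⟨h1, h2⟩ := side_one_H4 _ _ _ _ (h.bd le_rfl) (hc.bd (by omega))
    (Set.inter_subset_inter_left T hcA) hsp
  rw [Set.union_inter_distrib_right]
  exact ⟨Cell.con (d := 0) h1, h2.1⟩

theorem Sided.split {d : ℕ} {c : Set V} {σ : V → Set V} (h : Sided G (d + 1) A c σ) {x : V}
    (hx : x ∈ c) : Split G d (Lk G A {x}) (Lk G c {x}) (σ x) := by
  refine ⟨fun a ha => ⟨(h.subset x hx ha).1, fun h' => (h.subset x hx ha).2 h'.1⟩,
    fun a ha b hb => h.sep x hx a ha b ⟨hb.1, fun h' => hb.2 (h'.imp_left fun h1 => ⟨h1, hb.1.2⟩)⟩,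
    fun s hs hd => ?_⟩
  obtain ⟨h1, h2⟩ := clq_insert_H4 hx hs
  obtain ⟨⟨a, ha, haP⟩, b, hb, hbP⟩ := h.two _ h1 (by rw [Finset.card_insert_of_notMem h2, hd]) x
    (Finset.mem_insert_self _ _)
  rw [mem_lk_insert_H4] at ha hb
  exact ⟨⟨a, ha, haP⟩, b, hb, fun h' => hbP (h'.imp_left fun h'' => h''.1)⟩

theorem Sided.symm {d : ℕ} {c : Set V} {σ : V → Set V} (hc : c ⊆ A) (h : Sided G d A c σ) :
    Sided G d A c fun x => Lk G A {x} \ (c ∪ σ x) := by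
  have _ := hc
  refine ⟨fun x _ a ha => ⟨ha.1, fun h' => ha.2 (Or.inl h')⟩, fun x hx a ha b hb hab => ?_,
    fun x hx y hy hxy a ha => ?_, fun s hs hd x hx => ?_⟩
  · have hbP : b ∈ σ x := by
      by_contra hn
      exact hb.2 (Or.inr ⟨hb.1, fun h' => h'.elim (fun h'' => hb.2 (Or.inl h'')) hn⟩)
    exact h.sep x hx b hbP a ha hab.symm
  · have h1 := mem_lk2_H4.1 ha
    simp only [Set.mem_sdiff, Set.mem_union, mem_lk1_H4, h1.1, h1.2.1, h1.2.2,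
      h.compat x hx y hy hxy a ha]
  · obtain ⟨⟨a, ha, haP⟩, b, hb, hbP⟩ := h.two s hs hd x hx
    exact ⟨⟨b, hb, mem_lk1_H4.2 ⟨hb.1, hb.2 x hx⟩, hbP⟩, a, ha,
      fun h' => h'.elim (h.subset x (hs.1 hx) haP).2 fun h'' => h''.2 (Or.inr haP)⟩

theorem Split.sided {d : ℕ} {c P : Set V} (h : Split G d A c P) :
    Sided G d A c fun x => P ∩ Lk G A {x} := by
  refine ⟨fun x _ a ha => ⟨ha.2, (h.subset ha.1).2⟩, fun x _ a ha b hb =>
    h.sep a ha.1 b ⟨hb.1.1, fun h' => hb.2 (h'.imp_right fun h1 => ⟨h1, hb.1⟩)⟩,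
    fun x _ y _ _ a ha => ?_, fun s hs hd x hx => ?_⟩
  · have h1 := mem_lk2_H4.1 ha
    simp only [Set.mem_inter_iff, mem_lk1_H4, h1.1, h1.2.1, h1.2.2]
  · obtain ⟨⟨a, ha, haP⟩, b, hb, hbP⟩ := h.two s hs hd
    exact ⟨⟨a, ha, haP, mem_lk1_H4.2 ⟨ha.1, ha.2 x hx⟩⟩, b, hb,
      fun h' => hbP (h'.imp_right fun h1 => h1.1)⟩

theorem exists_split {d : ℕ} {β : Finset V → Prop} {c : Set V} (h : Mfa G (d + 1) A β c)
    (hc : Mfa G d c β c) (hd : d ≤ 2) (hcA : c ⊆ A) (hn : NDC G A) :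
    ∃ P, Split G (d + 1) A c P := by
  exact es_H4 hd (ex_H4 hd) h hc hcA hn

theorem exists_sided {d : ℕ} {β : Finset V → Prop} {c : Set V} (h : Mfa G (d + 1) A β c)
    (hc : Mfa G d c β c) (hd : d ≤ 2) (hcA : c ⊆ A) (hn : NDC G c) :
    ∃ σ, Sided G (d + 1) A c σ := by
  obtain ⟨θ, h1, h2, h3⟩ := theta_H4 hd (ex_H4 hd) h hc hcA
  obtain ⟨p, hp⟩ := hn θ fun u hu v hv w hw => h1 u (hcA hu) v (hcA hv) w (hcA hw)
  refine ⟨fun x => {a | a ∈ Lk G A {x} \ c ∧ θ x a = p x}, fun x _ a ha => ha.1,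
    fun x hx a ha b hb hab => ?_, fun x hx y hy hxy a ha => ?_, fun s hs hd' x hx => ?_⟩
  · have hbc : b ∉ c := fun h' => hb.2 (Or.inl h')
    have h4 := h1 x (hcA hx) a ha.1.1.1 b hb.1.1 (Or.inr (mem_lk1_H4.1 ha.1.1).2) (Or.inr hab)
      (Or.inr (mem_lk1_H4.1 hb.1).2)
    rw [h2 a ha.1.2 b hbc, mul_one, ha.2] at h4
    exact hb.2 (Or.inr ⟨⟨hb.1, hbc⟩, h4.symm⟩)
  · have h4 := mem_lk2_H4.1 ha
    have h5 := h1 x (hcA hx) y (hcA hy) a h4.1 (Or.inr hxy) (Or.inr h4.2.2) (Or.inr h4.2.1)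
    rw [hp x hx y hy (Or.inr hxy)] at h5
    simp only [Set.mem_ofPred_eq, Set.mem_sdiff, mem_lk1_H4, h4.1, h4.2.1, h4.2.2, ← h5,
      mul_assoc, mul_eq_left, inv_mul_eq_one, eq_comm (a := p y)]
  · obtain ⟨⟨a, ha, hac, ha'⟩, b, hb, hbc, hb'⟩ := h3 s hs hd' x hx
    have a1 : a ∈ Lk G A {x} := mem_lk1_H4.2 ⟨ha.1, ha.2 x hx⟩
    have b1 : b ∈ Lk G A {x} := mem_lk1_H4.2 ⟨hb.1, hb.2 x hx⟩
    rcases z2_cases (p x) with e | e
    · exact ⟨⟨a, ha, ⟨a1, hac⟩, ha'.trans e.symm⟩, b, hb, fun h' => h'.elim hbc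
        fun h'' => neg_ne_one (hb'.symm.trans (h''.2.trans e))⟩
    · exact ⟨⟨b, hb, ⟨b1, hbc⟩, hb'.trans e.symm⟩, a, ha, fun h' => h'.elim hac
        fun h'' => neg_ne_one (ha'.symm.trans (h''.2.trans e)).symm⟩

theorem Cell.exists_split {d : ℕ} {β : Finset V → Prop} {c : Set V} (h : Cell G (d + 1) A β)
    (hc : Cell G d c β) (hd : d ≤ 2) (hcA : c ⊆ A) : ∃ P, Split G d A c P := by
  exact ex_H4 hd A β c h hc hcA

end Pool.Agent.MP_6374aa_g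

end

section

/-! Arcs, circles and discs with one edge deleted. -/

namespace Pool.Agent.MP_6374aa_g

open Pool.Agent.MP_6374aa_gt Classical

variable {V : Type} {G G' : SimpleGraph V} {A X : Set V} {β β' γ : Finset V → Prop} {u v w : V}

theorem mem_lk1_H5 {a x : V} : x ∈ Lk G X {a} ↔ x ∈ X ∧ G.Adj a x := by
  simp [Lk]

theorem mem_lk2_H5 {a b x : V} : x ∈ Lk G X {a, b} ↔ x ∈ X ∧ G.Adj a x ∧ G.Adj b x := by
  simp only [Lk, Set.mem_ofPred_eq, Set.mem_insert_iff, Set.mem_singleton_iff, forall_eq_or_imp,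
    forall_eq]

theorem cell_one_iff_H5 : Cell G 1 X β ↔ (X.ncard = 1 ∨ X.ncard = 2) ∧ (β ∅ ↔ X.ncard = 1) ∧
    (∀ a ∈ X, ∀ b ∈ X, ¬ G.Adj a b) ∧ ∀ a ∈ X, ¬ β {a} := by
  constructor
  · rintro ⟨_, h2, h3, h4⟩
    refine ⟨h2, by simpa using h3, fun a ha b hb hab => ?_, fun a ha => ?_⟩
    · have e : b ∈ Lk G X {a} := mem_lk1_H5.2 ⟨hb, hab⟩
      rw [(h4 a ha).1] at e
      exact e
    · simpa using (h4 a ha).2
  · rintro ⟨h2, h3, h4, h5⟩
    refine ⟨Set.finite_of_ncard_ne_zero (by omega), h2, by simpa using h3,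
      fun a ha => ⟨?_, by simpa using h5 a ha⟩⟩
    exact Set.eq_empty_of_forall_notMem fun b hb => h4 a ha b hb.1 (hb.2 a rfl)

/-- The link of a vertex of an arc or a circle. -/
theorem two_lk_H5 (h : Cell G 2 X γ) {y : V} (hy : y ∈ X) :
    ((Lk G X {y}).ncard = 1 ∨ (Lk G X {y}).ncard = 2) ∧ (γ {y} ↔ (Lk G X {y}).ncard = 1) ∧
      (∀ a ∈ Lk G X {y}, ∀ b ∈ Lk G X {y}, ¬ G.Adj a b) ∧ ∀ a ∈ Lk G X {y}, ¬ γ {y, a} := by
  have e := cell_one_iff_H5.1 (h.2.2.2 y hy)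
  rwa [Finset.insert_empty] at e

theorem one_lk_H5 {Y : Set V} {y : V} (h1 : Y.ncard = 1 ∨ Y.ncard = 2)
    (h2 : γ {y} ↔ Y.ncard = 1) (h3 : ∀ a ∈ Y, ∀ b ∈ Y, ¬ G.Adj a b) (h4 : ∀ a ∈ Y, ¬ γ {y, a}) :
    Cell G 1 Y fun s => γ (insert y s) :=
  cell_one_iff_H5.2 ⟨h1, by rwa [Finset.insert_empty], h3, h4⟩

theorem clq1_H5 {a : V} (ha : a ∈ A) : Clq G A {a} := (singleton_mem_sA.2 ha).2

theorem clq2_H5 {a b : V} (ha : a ∈ A) (hb : b ∈ A) (h : G.Adj a b) : Clq G A {a, b} :=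
  (pair_mem_sA ha hb (Or.inr h)).2

/-- An edge with both end points marked is an arc. -/
theorem edge_cell_H5 {a b : V} (hab : G.Adj a b) (h0 : γ ∅) (ha : γ {a}) (hb : γ {b})
    (hn : ¬ γ {a, b}) : Cell G 2 {a, b} γ := by
  have key : ∀ x y : V, G.Adj x y → γ {x} → ¬ γ {x, y} →
      Cell G 1 (Lk G {x, y} {x}) fun s => γ (insert x s) := by
    intro x y hxy hx hn
    have e : Lk G {x, y} {x} = {y} := by
      ext z
      rw [mem_lk1_H5]
      constructor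
      · rintro ⟨rfl | h1, h2⟩
        · exact absurd h2 G.irrefl
        · exact h1
      · rintro rfl
        exact ⟨Or.inr rfl, hxy⟩
    rw [e]
    refine one_lk_H5 (Or.inl (Set.ncard_singleton y)) (iff_of_true hx (Set.ncard_singleton y))
      ?_ ?_
    · rintro c rfl d rfl
      exact G.irrefl
    · rintro c rfl
      exact hn
  refine cell_two (Set.toFinite _) ⟨⟨a, Or.inl rfl⟩, pre_of_base (x := a) ?_⟩ ?_
    (iff_of_true h0 ⟨a, Or.inl rfl, ha⟩)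
  · rintro x (rfl | rfl)
    · exact Reach.refl _
    · exact Reach.single (Or.inr rfl) (Or.inl rfl) (Or.inr hab.symm)
  · rintro x (rfl | rfl)
    · exact key _ _ hab ha hn
    · rw [Set.pair_comm]
      exact key _ _ hab.symm hb (by rwa [Finset.pair_comm])

/-- An arc with adjacent ends is an edge. -/
theorem arc_edge_H5 (h : Cell G 2 X γ) {a b : V} (ha : a ∈ X) (hb : b ∈ X) (hab : G.Adj a b)
    (ga : γ {a}) (gb : γ {b}) : X = {a, b} := by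
  refine ((edge_cell_H5 hab (h.down (clq1_H5 ha) (Finset.empty_subset _) ga) ga gb
    ((two_lk_H5 h ha).2.2.2 b (mem_lk1_H5.2 ⟨hb, hab⟩))).subeq h ?_).symm
  rintro x (rfl | rfl)
  · exact ha
  · exact hb

theorem ncard_del_H5 {Y : Set V} {x : V} (h : Y.ncard = 2) (hx : x ∈ Y) :
    (Y \ {x}).ncard = 1 := by
  rw [Set.ncard_sdiff_singleton_of_mem hx, h]

/-- An arc minus an end point. -/
theorem arc_del_H5 (h : Cell G 2 X γ) (hw : w ∈ X) (hl : Lk G X {w} = {v}) (hv : ¬ γ {v}) :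
    Cell G 2 (X \ {w}) fun s => γ s ∨ ↑s ⊆ ({v} : Set V) := by
  have hv' : v ∈ X ∧ G.Adj w v := mem_lk1_H5.1 (by rw [hl]; rfl)
  have hvX : v ∈ X \ {w} := ⟨hv'.1, hv'.2.ne'⟩
  have e : ∀ y, Lk G (X \ {w}) {y} = Lk G X {y} \ {w} := fun y => by
    ext z
    simp only [mem_lk1_H5, Set.mem_sdiff]
    tauto
  refine cell_two (h.finite.subset Set.sdiff_subset)
    ⟨⟨v, hvX⟩, rem_one_pre h.con.2 (by rw [hl]; exact (con_singleton v).2)⟩ ?_
    (iff_of_true (Or.inr (by simp)) ⟨v, hvX, Or.inr (by simp)⟩)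
  intro y hy
  obtain ⟨h1, h2, h3, h4⟩ := two_lk_H5 h hy.1
  rw [e]
  by_cases c : y = v
  · subst c
    have h5 : (Lk G X {y} \ {w}).ncard = 1 :=
      ncard_del_H5 (h1.resolve_left fun e' => hv (h2.2 e')) (mem_lk1_H5.2 ⟨hw, hv'.2.symm⟩)
    refine one_lk_H5 (γ := fun s => γ s ∨ ↑s ⊆ ({y} : Set V)) (y := y) (Or.inl h5)
      (iff_of_true (Or.inr (by simp)) h5) (fun a ha b hb => h3 a ha.1 b hb.1) ?_
    rintro a ha (e' | e')
    · exact h4 a ha.1 e'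
    · exact (mem_lk1_H5.1 ha.1).2.ne' (e' (a := a) (by simp))
  · have e2 : Lk G X {y} \ {w} = Lk G X {y} := Set.sdiff_singleton_eq_self fun hc => c (by
      have : y ∈ Lk G X {w} := mem_lk1_H5.2 ⟨hy.1, (mem_lk1_H5.1 hc).2.symm⟩
      rwa [hl] at this)
    rw [e2]
    refine one_lk_H5 (γ := fun s => γ s ∨ ↑s ⊆ ({v} : Set V)) h1 ?_ h3 ?_
    · rw [← h2]
      exact or_iff_left fun e' => c (e' (by simp))
    · rintro a ha (e' | e')
      · exact h4 a ha e'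
      · exact c (e' (by simp))

/-- `G'` is `G` without the edge `u w`. -/
def Del_H5 (G G' : SimpleGraph V) (u w : V) : Prop :=
  ∀ a b, G'.Adj a b ↔ G.Adj a b ∧ ¬ (a = u ∧ b = w) ∧ ¬ (a = w ∧ b = u)

theorem Del_H5.symm (h : Del_H5 G G' u w) : Del_H5 G G' w u := fun a b => by
  rw [h a b]
  tauto

theorem del_H5 (G : SimpleGraph V) (u w : V) : Del_H5 G (G.deleteEdges {s(u, w)}) u w := by
  intro a b
  rw [SimpleGraph.deleteEdges_adj, Set.mem_singleton_iff, Sym2.eq_iff, not_or]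

theorem Del_H5.lk_u (hG : Del_H5 G G' u w) (huw : u ≠ w) : Lk G' X {u} = Lk G X {u} \ {w} := by
  ext z
  simp only [mem_lk1_H5, Set.mem_sdiff, hG u z, Set.mem_singleton_iff]
  tauto

theorem Del_H5.lk (hG : Del_H5 G G' u w) {y : V} (h1 : y ≠ u) (h2 : y ≠ w) :
    Lk G' X {y} = Lk G X {y} := by
  ext z
  simp only [mem_lk1_H5, hG y z]
  tauto

theorem Del_H5.reach (hG : Del_H5 G G' u w) {Y : Set V} (hY : u ∉ Y) {a b : V}
    (h : Reach G Y a b) : Reach G' Y a b := by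
  induction h with
  | refl => exact Reach.refl _
  | tail _ hxy ih =>
    exact ih.trans (Reach.single hxy.1 hxy.2.1 (Or.inr ((hG _ _).2
      ⟨hxy.2.2, fun e => hY (e.1 ▸ hxy.1), fun e => hY (e.2 ▸ hxy.2.1)⟩)))

theorem transfer_H5 {d : ℕ} (hX : ∀ a ∈ X, ∀ b ∈ X, G'.Adj a b ↔ G.Adj a b) (h : Cell G d X β)
    (hb : ∀ s : Finset V, ↑s ⊆ X → (β' s ↔ β s)) : Cell G' d X β' :=
  (IsIso.cell (f := id) ⟨Set.bijOn_id X, hX⟩ fun s hs => by
    rw [Finset.image_id]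
    exact hb s hs.1).2 h

theorem circ_end_H5 (hG : Del_H5 G G' u w) (h : Cell G 2 X γ) (h0 : ¬ γ ∅) (hu : u ∈ X)
    (hw : w ∈ X) (huw : G.Adj u w)
    (hβ : ∀ s, β s ↔ γ s ∨ ↑s ⊆ ({u} : Set V) ∨ ↑s ⊆ ({w} : Set V)) :
    (Lk G' X {u}).ncard = 1 ∧ Cell G' 1 (Lk G' X {u}) fun s => β (insert u s) := by
  obtain ⟨h1, h2, h3, h4⟩ := two_lk_H5 h hu
  have h5 : (Lk G X {u} \ {w}).ncard = 1 :=
    ncard_del_H5 (h1.resolve_left fun e' =>
      h0 (h.down (clq1_H5 hu) (Finset.empty_subset _) (h2.2 e'))) (mem_lk1_H5.2 ⟨hw, huw⟩)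
  rw [hG.lk_u huw.ne]
  refine ⟨h5, one_lk_H5 (Or.inl h5) (iff_of_true ((hβ _).2 (Or.inr (Or.inl (by simp)))) h5)
    (fun a ha b hb e => h3 a ha.1 b hb.1 ((hG a b).1 e).1) fun a ha => ?_⟩
  rw [hβ]
  rintro (e' | e' | e')
  · exact h4 a ha.1 e'
  · exact (mem_lk1_H5.1 ha.1).2.ne' (e' (by simp))
  · exact huw.ne (e' (by simp))

/-- A circle minus an edge. -/
theorem circ_del_H5 (hG : Del_H5 G G' u w) (h : Cell G 2 X γ) (h0 : ¬ γ ∅) (hu : u ∈ X)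
    (hw : w ∈ X) (huw : G.Adj u w) :
    Cell G' 2 X fun s => γ s ∨ ↑s ⊆ ({u} : Set V) ∨ ↑s ⊆ ({w} : Set V) := by
  have hs : Sph G 2 X := h.congr fun s hs =>
    iff_of_false (fun e => h0 (h.down hs (Finset.empty_subset _) e)) not_false
  have hc : Con G (X \ {u}) := Cell.con (hs.circle_rem hu)
  obtain ⟨k1, k2⟩ := circ_end_H5 hG h h0 hu hw huw fun s => Iff.rfl
  have k3 := (circ_end_H5 (β := fun s => γ s ∨ ↑s ⊆ ({u} : Set V) ∨ ↑s ⊆ ({w} : Set V))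
    hG.symm h h0 hw hu huw.symm fun s => by tauto).2
  refine cell_two h.finite ⟨⟨u, hu⟩, ?_⟩ ?_
    (iff_of_true (Or.inr (Or.inl (by simp))) ⟨u, hu, Or.inr (Or.inl (by simp))⟩)
  · refine Pre.of_near (X := X \ {u}) (fun a ha b hb => hG.reach (by simp) (hc.2 a ha b hb))
      Set.sdiff_subset fun y hy => ?_
    by_cases c : y = u
    · obtain ⟨z, hz⟩ := Set.ncard_eq_one.1 k1
      have hz' : z ∈ X ∧ G'.Adj u z := mem_lk1_H5.1 (by rw [hz]; rfl)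
      exact ⟨z, ⟨hz'.1, hz'.2.ne'⟩, c ▸ Reach.single hu hz'.1 (Or.inr hz'.2)⟩
    · exact ⟨y, ⟨hy, c⟩, Reach.refl y⟩
  · intro y hy
    by_cases c1 : y = u
    · exact c1 ▸ k2
    by_cases c2 : y = w
    · exact c2 ▸ k3
    obtain ⟨h1, h2, h3, h4⟩ := two_lk_H5 h hy
    rw [hG.lk c1 c2]
    refine one_lk_H5 (γ := fun s => γ s ∨ ↑s ⊆ ({u} : Set V) ∨ ↑s ⊆ ({w} : Set V)) h1 ?_
      (fun a ha b hb e => h3 a ha b hb ((hG a b).1 e).1) ?_
    · rw [← h2]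
      refine or_iff_left ?_
      rintro (e | e)
      · exact c1 (e (by simp))
      · exact c2 (e (by simp))
    · rintro a ha (e | e | e)
      · exact h4 a ha e
      · exact c1 (e (by simp))
      · exact c2 (e (by simp))

end Pool.Agent.MP_6374aa_g

end

section

/-! Induction over discs. -/

namespace Pool.Agent.MP_6374aa_g

open Pool.Agent.MP_6374aa_gt Classical

variable {V V' V'' : Type} {G : SimpleGraph V} {G' : SimpleGraph V'} {G'' : SimpleGraph V''}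
  {A : Set V} {A' : Set V'} {A'' : Set V''} {L : Type} [Group L]

section aux

variable {β β' : Finset V → Prop} {u v w : V} {H : SimpleGraph V}

theorem del_pre_H5 (hG : Del_H5 G H u w) (h : Pre G A) (hv : v ∈ Lk G A {u, w})
    (hu : u ∈ A) (hw : w ∈ A) : Pre H A := by
  obtain ⟨hv, h1, h2⟩ := mem_lk2_H5.1 hv
  have r : Reach H A u w :=
    (Reach.single hu hv (Or.inr ((hG u v).2 ⟨h1, fun e => h2.ne' e.2, fun e => h1.ne' e.2⟩))).trans
      (Reach.single hv hw (Or.inr ((hG v w).2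
        ⟨h2.symm, fun e => h1.ne' e.1, fun e => h2.ne' e.1⟩)))
  intro a ha b hb
  have hab := h a ha b hb
  clear hb
  induction hab with
  | refl => exact Reach.refl _
  | @tail x y _ hxy ih =>
    refine ih.trans ?_
    by_cases c1 : x = u ∧ y = w
    · rw [c1.1, c1.2]
      exact r
    by_cases c2 : x = w ∧ y = u
    · rw [c2.1, c2.2]
      exact r.symm
    exact Reach.single hxy.1 hxy.2.1 (Or.inr ((hG x y).2 ⟨hxy.2.2, c1, c2⟩))

theorem del_triv_H5 (hG : Del_H5 G H u w) (h : Triv L G A) (hl : Lk G A {u, w} = {v}) :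
    Triv L H A := by
  intro θ hθ
  obtain ⟨hv, h1, h2⟩ := mem_lk2_H5.1 (show v ∈ Lk G A {u, w} by rw [hl]; rfl)
  have hT : ∀ a ∈ ({u, w, v} : Set V), Adq H a v := by
    rintro a (rfl | rfl | rfl)
    · exact Or.inr ((hG _ _).2 ⟨h1, fun e => h2.ne' e.2, fun e => h1.ne' e.2⟩)
    · exact Or.inr ((hG _ _).2 ⟨h2, fun e => h2.ne' e.2, fun e => h1.ne' e.2⟩)
    · exact Or.inl rfl
  obtain ⟨θ', t1, t2⟩ : ∃ θ' : V → V → L,
      (∀ a ∈ ({u, w, v} : Set V), ∀ b ∈ ({u, w, v} : Set V), θ' a b = θ a v * (θ b v)⁻¹) ∧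
      ∀ a ∈ A, ∀ b ∈ A, Adq H a b → θ' a b = θ a b := by
    refine ⟨fun a b => if a ∈ ({u, w, v} : Set V) ∧ b ∈ ({u, w, v} : Set V) then
      θ a v * (θ b v)⁻¹ else θ a b, fun a ha b hb => if_pos ⟨ha, hb⟩, fun a ha b hb hab => ?_⟩
    by_cases c : a ∈ ({u, w, v} : Set V) ∧ b ∈ ({u, w, v} : Set V)
    · refine (if_pos c).trans ?_
      rw [← hθ a ha b hb v hv hab (hT b c.2) (hT a c.1), mul_inv_cancel_right]
    · exact if_neg c
  have third : ∀ c ∈ A, Adq G u c → Adq G w c → c ∈ ({u, w, v} : Set V) := by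
    intro c hc h3 h4
    rcases h3 with rfl | h3
    · exact Or.inl rfl
    rcases h4 with rfl | h4
    · exact Or.inr (Or.inl rfl)
    have e : c ∈ Lk G A {u, w} := mem_lk2_H5.2 ⟨hc, h3, h4⟩
    rw [hl] at e
    exact Or.inr (Or.inr e)
  have key : ∀ a b, ∀ c ∈ A, Adq G a b → Adq G a c → Adq G b c → Adq H a b ∨
      (a ∈ ({u, w, v} : Set V) ∧ b ∈ ({u, w, v} : Set V) ∧ c ∈ ({u, w, v} : Set V)) := by
    intro a b c hc h3 h4 h5
    by_cases c1 : a = u ∧ b = w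
    · obtain ⟨rfl, rfl⟩ := c1
      exact Or.inr ⟨Or.inl rfl, Or.inr (Or.inl rfl), third c hc h4 h5⟩
    by_cases c2 : a = w ∧ b = u
    · obtain ⟨rfl, rfl⟩ := c2
      exact Or.inr ⟨Or.inr (Or.inl rfl), Or.inl rfl, third c hc h5 h4⟩
    exact Or.inl (h3.imp id fun e => (hG a b).2 ⟨e, c1, c2⟩)
  have hf : Flat G A θ' := by
    intro a ha b hb c hc h3 h4 h5
    have fin : a ∈ ({u, w, v} : Set V) → b ∈ ({u, w, v} : Set V) → c ∈ ({u, w, v} : Set V) →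
        θ' a b * θ' b c = θ' a c := fun x y z => by
      rw [t1 a x b y, t1 b y c z, t1 a x c z]
      group
    rcases key a b c hc h3 h5 h4 with k1 | ⟨x, y, z⟩
    · rcases key b c a ha h4 h3.symm h5.symm with k2 | ⟨y, z, x⟩
      · rcases key a c b hb h5 h3 h4.symm with k3 | ⟨x, z, y⟩
        · rw [t2 a ha b hb k1, t2 b hb c hc k2, t2 a ha c hc k3]
          exact hθ a ha b hb c hc k1 k2 k3
        · exact fin x y z
      · exact fin x y z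
    · exact fin x y z
  obtain ⟨p, hp⟩ := h θ' hf
  exact ⟨p, fun a ha b hb hab => (t2 a ha b hb hab).symm.trans
    (hp a ha b hb (hab.imp id fun e => ((hG a b).1 e).1))⟩

theorem del_end_H5 (hG : Del_H5 G H u w) (h : Cell G 3 A β) (hu : u ∈ A) (hw : w ∈ A)
    (huw : G.Adj u w) (hl : Lk G A {u, w} = {v}) (hv : ¬ β {v})
    (hβ : ∀ s, β' s ↔ β s ∨ ↑s ⊆ ({u, v} : Set V) ∨ ↑s ⊆ ({v, w} : Set V)) :
    Cell H 2 (Lk H A {u}) fun s => β' (insert u s) := by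
  obtain ⟨hvA, h1, h2⟩ := mem_lk2_H5.1 (show v ∈ Lk G A {u, w} by rw [hl]; rfl)
  have k := arc_del_H5 (w := w) (v := v) (h.2.2.2 u hu) (mem_lk1_H5.2 ⟨hw, huw⟩)
    (by rw [lk_lk, ← hl]; rfl)
    fun e => hv (h.down (clq2_H5 hu hvA h1) (by simp) e)
  rw [hG.lk_u huw.ne]
  refine transfer_H5 (fun a ha b hb => ?_) k fun s hs => ?_
  · rw [hG a b]
    exact and_iff_left ⟨fun e => hb.2 e.2, fun e => ha.2 e.1⟩
  · rw [hβ]
    refine or_congr Iff.rfl ⟨?_, fun e => Or.inl ?_⟩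
    · rintro (e | e) x hx
      · rcases e (Finset.mem_coe.2 (Finset.mem_insert_of_mem hx)) with e' | e'
        · exact absurd e' (mem_lk1_H5.1 (hs hx).1).2.ne'
        · exact e'
      · rcases e (Finset.mem_coe.2 (Finset.mem_insert_self u s)) with e' | e'
        · exact absurd e' h1.ne
        · exact absurd e' huw.ne
    · rw [Finset.coe_insert]
      exact Set.insert_subset_insert e

/-- A disc minus a free triangle. -/
theorem del_cell_H5 (hG : Del_H5 G H u w) (h : Cell G 3 A β) (hu : u ∈ A) (hw : w ∈ A)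
    (huw : G.Adj u w) (hl : Lk G A {u, w} = {v}) (hv : ¬ β {v}) :
    Cell H 3 A fun s => β s ∨ ↑s ⊆ ({u, v} : Set V) ∨ ↑s ⊆ ({v, w} : Set V) := by
  have hv0 : v ∈ Lk G A {u, w} := by rw [hl]; rfl
  obtain ⟨hvA, h1, h2⟩ := mem_lk2_H5.1 hv0
  refine cell_three h.finite ⟨⟨u, hu⟩, del_pre_H5 hG h.con.2 hv0 hu hw⟩
    (del_triv_H5 hG h.ndc hl) ?_
    (iff_of_true (Or.inr (Or.inl (by simp))) ⟨u, hu, Or.inr (Or.inl (by simp))⟩)
  intro x hx
  by_cases c1 : x = u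
  · exact c1 ▸ del_end_H5 hG h hu hw huw hl hv fun s => Iff.rfl
  by_cases c2 : x = w
  · subst c2
    exact del_end_H5
      (β' := fun s => β s ∨ ↑s ⊆ ({u, v} : Set V) ∨ ↑s ⊆ ({v, x} : Set V)) hG.symm h hw hu
      huw.symm (by rw [Set.pair_comm, hl]) hv fun s => by
        rw [Set.pair_comm x v, Set.pair_comm v u]
        tauto
  rw [hG.lk c1 c2]
  by_cases c3 : x = v
  · subst c3
    have k := circ_del_H5 hG (h.2.2.2 x hx) (by rwa [Finset.insert_empty])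
      (mem_lk1_H5.2 ⟨hu, h1.symm⟩) (mem_lk1_H5.2 ⟨hw, h2.symm⟩) huw
    refine k.congr fun s hs => or_congr Iff.rfl ?_
    have e : ∀ y : V, (↑s ⊆ ({y} : Set V) ↔ ↑(insert x s) ⊆ ({x, y} : Set V)) := fun y => by
      refine ⟨fun e => ?_, fun e z hz => ?_⟩
      · rw [Finset.coe_insert]
        exact Set.insert_subset_insert e
      · rcases e (Finset.mem_coe.2 (Finset.mem_insert_of_mem hz)) with e' | e'
        · exact absurd e' (mem_lk1_H5.1 (hs.1 hz)).2.ne'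
        · exact e'
    rw [e u, e w, Set.pair_comm x u]
  · refine transfer_H5 (fun a ha b hb => ?_) (h.2.2.2 x hx) fun s _ => or_iff_left ?_
    · have e : ¬ (u ∈ Lk G A {x} ∧ w ∈ Lk G A {x}) := fun e => c3 (by
        have e' : x ∈ Lk G A {u, w} :=
          mem_lk2_H5.2 ⟨hx, (mem_lk1_H5.1 e.1).2.symm, (mem_lk1_H5.1 e.2).2.symm⟩
        rwa [hl] at e')
      rw [hG a b]
      exact and_iff_left ⟨fun c => e ⟨c.1 ▸ ha, c.2 ▸ hb⟩, fun c => e ⟨c.2 ▸ hb, c.1 ▸ ha⟩⟩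
    · rintro (e | e) <;>
        rcases e (Finset.mem_coe.2 (Finset.mem_insert_self x s)) with e' | e' <;> contradiction

/-- A disc with a triangle all of whose edges are boundary edges is that triangle. -/
theorem tri_eq_H5 (h : Cell G 3 A β) (hu : u ∈ A) (hw : w ∈ A) (hv : v ∈ A) (h1 : G.Adj u w)
    (h2 : G.Adj u v) (h3 : G.Adj w v) (b1 : β {u, w}) (b2 : β {u, v}) (b3 : β {w, v}) :
    A = {u, w, v} := by
  have key : ∀ x ∈ A, ∀ y ∈ A, ∀ z ∈ A, G.Adj x y → G.Adj x z → G.Adj y z → β {x, y} →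
      β {x, z} → ∀ b ∈ A, G.Adj x b → b = y ∨ b = z := by
    intro x hx y hy z hz k1 k2 k3 a1 a2 b hb hxb
    have e := arc_edge_H5 (h.2.2.2 x hx) (mem_lk1_H5.2 ⟨hy, k1⟩) (mem_lk1_H5.2 ⟨hz, k2⟩) k3 a1 a2
    have e' : b ∈ Lk G A {x} := mem_lk1_H5.2 ⟨hb, hxb⟩
    rwa [e] at e'
  have hs : ({u, w, v} : Set V) ⊆ A := by
    rintro x (rfl | rfl | rfl) <;> assumption
  refine Set.Subset.antisymm (h.con.2.subset_clopen subset_rfl ⟨hs, ?_⟩ hu (Or.inl rfl)) hs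
  rintro x (rfl | rfl | rfl) b hb hxb
  · exact Or.inr (key x hu w hw v hv h1 h2 h3 b1 b2 b hb hxb)
  · rcases key x hw u hu v hv h1.symm h3 h2 (by rwa [Finset.pair_comm]) b3 b hb hxb with e | e
    · exact Or.inl e
    · exact Or.inr (Or.inr e)
  · rcases key x hv u hu w hw h2.symm h3.symm h1 (by rwa [Finset.pair_comm])
      (by rwa [Finset.pair_comm]) b hb hxb with e | e
    · exact Or.inl e
    · exact Or.inr (Or.inl e)

/-- The number of ordered pairs that are equal or adjacent. -/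
noncomputable def mu_H5 (G : SimpleGraph V) (A : Set V) : ℕ :=
  {p : V × V | p.1 ∈ A ∧ p.2 ∈ A ∧ Adq G p.1 p.2}.ncard

theorem mu_lt_H5 {X : Set V} (hf : A.Finite) (hX : X ⊆ A) (hH : ∀ a b, H.Adj a b → G.Adj a b)
    {x y : V} (hx : x ∈ A) (hy : y ∈ A) (hxy : Adq G x y) (hn : ¬ (x ∈ X ∧ Adq H x y)) :
    mu_H5 H X < mu_H5 G A := by
  refine Set.ncard_lt_ncard ⟨fun p hp => ⟨hX hp.1, hX hp.2.1, hp.2.2.imp id (hH _ _)⟩,
    fun hc => ?_⟩ ((hf.prod hf).subset fun p hp => ⟨hp.1, hp.2.1⟩)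
  have e := hc (a := (x, y)) ⟨hx, hy, hxy⟩
  exact hn ⟨e.1, e.2.2⟩

end aux

theorem disc_induction (Q : SimpleGraph V → Set V → (Finset V → Prop) → Prop)
    (tri : ∀ (G : SimpleGraph V) (a b c : V) (β : Finset V → Prop), G.Adj a b → G.Adj a c →
      G.Adj b c → Cell G 3 {a, b, c} β → Q G {a, b, c} β)
    (chord : ∀ (G : SimpleGraph V) (A : Set V) (β : Finset V → Prop) (u w : V) (P : Set V),
      Cell G 3 A β → β ∅ → u ∈ A → w ∈ A → G.Adj u w → β {u} → β {w} → ¬ β {u, w} →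
      Split G 2 A {u, w} P →
      Cell G 3 ({u, w} ∪ P) (fun s => ↑s ⊆ ({u, w} : Set V) ∨ β s) →
      Cell G 3 (A \ P) (fun s => ↑s ⊆ ({u, w} : Set V) ∨ β s) →
      Q G ({u, w} ∪ P) (fun s => ↑s ⊆ ({u, w} : Set V) ∨ β s) →
      Q G (A \ P) (fun s => ↑s ⊆ ({u, w} : Set V) ∨ β s) → Q G A β)
    (edge : ∀ (G : SimpleGraph V) (A : Set V) (β : Finset V → Prop) (u w v : V),
      Cell G 3 A β → β ∅ → u ∈ A → w ∈ A → G.Adj u w → β {u, w} → Lk G A {u, w} = {v} → ¬ β {v} →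
      Cell (G.deleteEdges {s(u, w)}) 3 A
        (fun s => β s ∨ ↑s ⊆ ({u, v} : Set V) ∨ ↑s ⊆ ({v, w} : Set V)) →
      Q (G.deleteEdges {s(u, w)}) A
        (fun s => β s ∨ ↑s ⊆ ({u, v} : Set V) ∨ ↑s ⊆ ({v, w} : Set V)) → Q G A β)
    {G : SimpleGraph V} {A : Set V} {β : Finset V → Prop} (h : Cell G 3 A β) (hb : β ∅) : Q G A β := by
  induction hn : mu_H5 G A using Nat.strong_induction_on generalizing G A β with
  | _ n ih =>
  subst hn
  by_cases hc : ∃ u ∈ A, ∃ w ∈ A, G.Adj u w ∧ β {u} ∧ β {w} ∧ ¬ β {u, w}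
  · obtain ⟨u, hu, w, hw, huw, bu, bw, bn⟩ := hc
    have he := edge_cell_H5 huw hb bu bw bn
    have hs : ({u, w} : Set V) ⊆ A := by
      rintro x (rfl | rfl) <;> assumption
    obtain ⟨P, hP⟩ := h.exists_split he le_rfl hs
    have k1 := (h.side he le_rfl hs hP).1
    have k2 := (h.side he le_rfl hs (hP.symm hs)).1
    have e : ({u, w} : Set V) ∪ (A \ ({u, w} ∪ P)) = A \ P := by
      ext x
      constructor
      · rintro (hx | hx)
        · exact ⟨hs hx, fun c => (hP.subset c).2 hx⟩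
        · exact ⟨hx.1, fun c => hx.2 (Or.inr c)⟩
      · intro hx
        by_cases c : x ∈ ({u, w} : Set V)
        · exact Or.inl c
        · exact Or.inr ⟨hx.1, fun c' => c'.elim c hx.2⟩
    rw [e] at k2
    obtain ⟨⟨x, hx⟩, ⟨y, hy⟩⟩ := hP.two {u, w} (clq2_H5 (Or.inl rfl) (Or.inr rfl) huw)
      (Finset.card_pair huw.ne)
    exact chord G A β u w P h hb hu hw huw bu bw bn hP k1 k2
      (ih _ (mu_lt_H5 h.finite (Set.union_subset hs fun z hz => (hP.subset hz).1)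
        (fun _ _ c => c) hy.1.1 hy.1.1 (Or.inl rfl) fun c => hy.2 c.1) k1 (Or.inl (by simp)) rfl)
      (ih _ (mu_lt_H5 h.finite Set.sdiff_subset (fun _ _ c => c) hx.1.1 hx.1.1 (Or.inl rfl)
        fun c => c.1.2 hx.2) k2 (Or.inl (by simp)) rfl)
  · have nc : ∀ u ∈ A, ∀ w ∈ A, G.Adj u w → β {u} → β {w} → β {u, w} := by
      intro u hu w hw huw bu bw
      by_contra bn
      exact hc ⟨u, hu, w, hw, huw, bu, bw, bn⟩
    obtain ⟨t, ht, _, hcard, bt⟩ := h.facet (s := ∅) ⟨by simp, by simp⟩ hb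
    obtain ⟨u, w, hne, rfl⟩ := Finset.card_eq_two.1 (show t.card = 2 by omega)
    have hu : u ∈ A := ht.1 (by simp)
    have hw : w ∈ A := ht.1 (by simp)
    have huw : G.Adj u w := ht.2 (by simp) (by simp) hne
    obtain ⟨v, hl⟩ := Set.ncard_eq_one.1
      ((h.codim_one ht hcard).resolve_right fun c => c.1 bt).2
    rw [Finset.coe_pair] at hl
    obtain ⟨hv, h1, h2⟩ := mem_lk2_H5.1 (show v ∈ Lk G A {u, w} by rw [hl]; rfl)
    by_cases bv : β {v}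
    · have e := tri_eq_H5 h hu hw hv huw h1 h2 bt
        (nc u hu v hv h1 (h.down ht (by simp) bt) bv) (nc w hw v hv h2 (h.down ht (by simp) bt) bv)
      subst e
      exact tri G u w v β huw h1 h2 h
    · have k := del_cell_H5 (del_H5 G u w) h hu hw huw hl bv
      refine edge G A β u w v h hb hu hw huw bt hl bv k (ih _ (mu_lt_H5 h.finite subset_rfl
        (fun a b c => ((del_H5 G u w a b).1 c).1) hu hw (Or.inr huw) fun c => ?_) k
        (Or.inl hb) rfl)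
      exact c.2.elim hne fun c' => ((del_H5 G u w u w).1 c').2.1 ⟨rfl, rfl⟩

end Pool.Agent.MP_6374aa_g

end

section

/-! Simple connectivity of discs and spheres and its consequences. -/

namespace Pool.Agent.MP_6374aa_g

open Pool.Agent.MP_6374aa_gt Classical

variable {V V' V'' : Type} {G : SimpleGraph V} {G' : SimpleGraph V'} {G'' : SimpleGraph V''}
  {A : Set V} {A' : Set V'} {A'' : Set V''} {L : Type} [Group L]

theorem chord_H6 {u w : V} {P : Set V} (hu : u ∈ A) (hw : w ∈ A) (hs : Split G 2 A {u, w} P) :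
    NE G ({u, w} ∪ P) (A \ P) ∧ ({u, w} ∪ P) ∪ (A \ P) = A ∧
      ({u, w} ∪ P) ∩ (A \ P) = {u, w} := by
  have hc : ({u, w} : Set V) ⊆ A := by
    rintro x (rfl | rfl)
    · exact hu
    · exact hw
  refine ⟨?_, ?_, ?_⟩
  · rintro a ⟨ha, ha'⟩ b ⟨hb, hb'⟩
    have haP : a ∈ P := by
      by_contra hn
      rcases ha with ha | ha
      · exact ha' ⟨hc ha, hn⟩
      · exact hn ha
    exact hs.sep a haP b ⟨hb.1, hb'⟩
  · apply Set.Subset.antisymm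
    · rintro x ((hx | hx) | hx)
      · exact hc hx
      · exact (hs.subset hx).1
      · exact hx.1
    · intro x hx
      by_cases hP : x ∈ P
      · exact Or.inl (Or.inr hP)
      · exact Or.inr ⟨hx, hP⟩
  · apply Set.Subset.antisymm
    · rintro x ⟨hx | hx, hx'⟩
      · exact hx
      · exact absurd hx hx'.2
    · intro x hx
      exact ⟨Or.inl hx, hc hx, fun hP => (hs.subset hP).2 hx⟩

theorem adq_del_H6 {e : Sym2 V} {a b : V} (h : Adq (G.deleteEdges {e}) a b) : Adq G a b := by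
  rcases h with h | h
  · exact Or.inl h
  · exact Or.inr (SimpleGraph.deleteEdges_adj.1 h).1

theorem adq_del'_H6 {e : Sym2 V} {a b : V} (h : Adq G a b) (he : s(a, b) ≠ e) :
    Adq (G.deleteEdges {e}) a b := by
  rcases h with h | h
  · exact Or.inl h
  · exact Or.inr (SimpleGraph.deleteEdges_adj.2 ⟨h, he⟩)

theorem edge_sco_H6 {u w v : V} (hu : u ∈ A) (hw : w ∈ A) (huw : G.Adj u w)
    (hv : v ∈ Lk G A {u, w}) (h : SCo (G.deleteEdges {s(u, w)}) A) : SCo G A := by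
  intro L _ lab hl
  have huv : G.Adj u v := hv.2 u (by simp)
  have hwv : G.Adj w v := hv.2 w (by simp)
  obtain ⟨p, hp⟩ := h L lab fun a ha b hb c hc h1 h2 h3 =>
    hl a ha b hb c hc (adq_del_H6 h1) (adq_del_H6 h2) (adq_del_H6 h3)
  have e1 : lab u v = p u * (p v)⁻¹ := hp u hu v hv.1 (adq_del'_H6 (Or.inr huv) (by
    intro he
    rcases Sym2.eq_iff.1 he with he | he
    · exact hwv.ne he.2.symm
    · exact huw.ne he.1))
  have e2 : lab v w = p v * (p w)⁻¹ := hp v hv.1 w hw (adq_del'_H6 (Or.inr hwv.symm) (by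
    intro he
    rcases Sym2.eq_iff.1 he with he | he
    · exact huv.ne he.1.symm
    · exact hwv.ne he.1.symm))
  have e3 : lab u w = p u * (p w)⁻¹ := by
    rw [← hl u hu v hv.1 w hw (Or.inr huv) (Or.inr hwv.symm) (Or.inr huw), e1, e2]
    group
  refine ⟨p, fun a ha b hb hab => ?_⟩
  by_cases he : s(a, b) = s(u, w)
  · rcases Sym2.eq_iff.1 he with ⟨rfl, rfl⟩ | ⟨rfl, rfl⟩
    · exact e3
    · rw [hl.symm hb ha (Or.inr huw), e3]
      group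
  · exact hp a ha b hb (adq_del'_H6 hab he)

theorem disc_sco_H6 {β : Finset V → Prop} (h : Cell G 3 A β) (hb : β ∅) : SCo G A := by
  refine disc_induction (fun G A _ => SCo G A) ?_ ?_ ?_ h hb
  · intro G a b c β hab hac hbc _
    refine (cone_sco (a := a) (by simp) ?_).2
    rintro x (rfl | rfl | rfl)
    · exact adq_refl _
    · exact Or.inr hab
    · exact Or.inr hac
  · intro G A β u w P _ _ hu hw huw _ _ _ hs _ _ q1 q2 L _
    obtain ⟨h1, h2, h3⟩ := chord_H6 hu hw hs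
    have hc := h1.cov2
    rw [h2] at hc
    refine glue_triv hc (q1 L) (q2 L) ?_
    rw [h3]
    refine (cone_sco (a := u) (by simp) ?_).1.2
    rintro x (rfl | rfl)
    · exact adq_refl _
    · exact Or.inr huw
  · intro G A β u w v _ _ hu hw huw _ hv _ _ q
    exact edge_sco_H6 hu hw huw (hv ▸ rfl : v ∈ Lk G A {u, w}) q

theorem sph_sco_H6 (h : Sph G 3 A) : SCo G A := by
  obtain ⟨v, hv⟩ := Cell.nonempty h
  have hB := h.rem le_rfl hv
  have h1 : SCo G (A \ {v}) := disc_sco_H6 hB (by simp [sub])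
  have h2 : SCo G (insert v (Lk G A {v})) := by
    refine (cone_sco (a := v) (by simp) ?_).2
    rintro x (rfl | hx)
    · exact adq_refl _
    · exact Or.inr (hx.2 v rfl)
  have hm : ∀ x ∈ A, Adq G v x → x ∈ insert v (Lk G A {v}) := by
    rintro x hx (rfl | h')
    · exact Or.inl rfl
    · exact Or.inr ⟨hx, fun y hy => by rw [hy]; exact h'⟩
  have hc : Cov2 G A (A \ {v}) (insert v (Lk G A {v})) := by
    refine ⟨Set.sdiff_subset, ?_, ?_⟩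
    · rintro x (rfl | hx)
      · exact hv
      · exact hx.1
    · intro a ha b hb c hc hab hbc hac
      by_cases e1 : a = v
      · subst e1
        exact Or.inr ⟨hm _ ha (adq_refl _), hm _ hb hab, hm _ hc hac⟩
      by_cases e2 : b = v
      · subst e2
        exact Or.inr ⟨hm _ ha (adq_symm hab), hm _ hb (adq_refl _), hm _ hc hbc⟩
      by_cases e3 : c = v
      · subst e3
        exact Or.inr ⟨hm _ ha (adq_symm hac), hm _ hb (adq_symm hbc), hm _ hc (adq_refl _)⟩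
      exact Or.inl ⟨⟨ha, e1⟩, ⟨hb, e2⟩, ⟨hc, e3⟩⟩
  have hi : (A \ {v}) ∩ insert v (Lk G A {v}) = Lk G A {v} := by
    apply Set.Subset.antisymm
    · rintro x ⟨hx, rfl | hx'⟩
      · exact absurd rfl hx.2
      · exact hx'
    · intro x hx
      exact ⟨⟨hx.1, fun e => (hx.2 v rfl).ne (Eq.symm e)⟩, Or.inr hx⟩
  intro L _
  refine glue_triv hc (h1 L) (h2 L) ?_
  rw [hi]
  exact (Cell.con (Cell.mfa h v hv)).2

theorem odd_simplex_H6 {t : Finset V} (ht : t.Nonempty) (hc : ∀ a ∈ t, ∀ b ∈ t, Adq G a b) :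
    Odd (sA G (t : Set V)).ncard := by
  have e : sA G (t : Set V) = ↑(t.powerset.erase ∅) := by
    ext s
    rw [mem_sA, Finset.mem_coe, Finset.mem_erase, Finset.mem_powerset, Finset.coe_subset,
      Finset.nonempty_iff_ne_empty]
    exact ⟨fun h => ⟨h.1, h.2.1⟩, fun h => ⟨h.1, h.2, fun a ha b hb => hc a (h.2 ha) b (h.2 hb)⟩⟩
  rw [e, Set.ncard_coe_finset, Finset.card_erase_of_mem (by simp), Finset.card_powerset]
  obtain ⟨n, hn⟩ : ∃ n, t.card = n + 1 := ⟨t.card - 1, by have := ht.card_pos; omega⟩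
  have hp : 0 < 2 ^ n := by positivity
  rw [hn, pow_succ]
  exact ⟨2 ^ n - 1, by omega⟩

theorem edge_sA_H6 {u w v : V} (hu : u ∈ A) (hw : w ∈ A) (huw : G.Adj u w)
    (hv : Lk G A {u, w} = {v}) (hf : A.Finite) :
    (sA G A).ncard = (sA (G.deleteEdges {s(u, w)}) A).ncard + 2 := by
  have hv' : v ∈ Lk G A {u, w} := hv ▸ rfl
  have huv : G.Adj u v := hv'.2 u (by simp)
  have hwv : G.Adj w v := hv'.2 w (by simp)
  have hn : ∀ s : Finset V, u ∈ s → w ∈ s → s ∉ sA (G.deleteEdges {s(u, w)}) A := by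
    intro s h1 h2 hs
    rcases (mem_sA.1 hs).2.2 u h1 w h2 with h | h
    · exact huw.ne h
    · exact (SimpleGraph.deleteEdges_adj.1 h).2 rfl
  have e : sA G A = insert {u, w} (insert {u, v, w} (sA (G.deleteEdges {s(u, w)}) A)) := by
    apply Set.Subset.antisymm
    · intro s hs
      obtain ⟨h1, h2, h3⟩ := mem_sA.1 hs
      by_cases hb : u ∈ s ∧ w ∈ s
      · have hx : ∀ x ∈ s, x = u ∨ x = v ∨ x = w := by
          intro x hx
          rcases h3 u hb.1 x hx with h4 | h4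
          · exact Or.inl h4.symm
          rcases h3 w hb.2 x hx with h5 | h5
          · exact Or.inr (Or.inr h5.symm)
          have : x ∈ Lk G A {u, w} := ⟨h2 hx, by
            rintro y (rfl | rfl)
            · exact h4
            · exact h5⟩
          rw [hv] at this
          exact Or.inr (Or.inl this)
        by_cases hvs : v ∈ s
        · refine Or.inr (Or.inl ?_)
          ext x
          simp only [Finset.mem_insert, Finset.mem_singleton]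
          refine ⟨hx x, ?_⟩
          rintro (rfl | rfl | rfl)
          · exact hb.1
          · exact hvs
          · exact hb.2
        · refine Or.inl ?_
          ext x
          simp only [Finset.mem_insert, Finset.mem_singleton]
          constructor
          · intro hxs
            rcases hx x hxs with h | h | h
            · exact Or.inl h
            · exact absurd (h ▸ hxs) hvs
            · exact Or.inr h
          · rintro (rfl | rfl)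
            · exact hb.1
            · exact hb.2
      · refine Or.inr (Or.inr (mem_sA.2 ⟨h1, h2, fun a ha b hb' => adq_del'_H6 (h3 a ha b hb') ?_⟩))
        intro he
        rcases Sym2.eq_iff.1 he with ⟨rfl, rfl⟩ | ⟨rfl, rfl⟩
        · exact hb ⟨ha, hb'⟩
        · exact hb ⟨hb', ha⟩
    · rintro s (rfl | rfl | hs)
      · exact pair_mem_sA hu hw (Or.inr huw)
      · exact tri_mem_B3 hu hv'.1 hw (Or.inr huv) (Or.inr hwv.symm) (Or.inr huw)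
      · obtain ⟨h1, h2, h3⟩ := mem_sA.1 hs
        exact mem_sA.2 ⟨h1, h2, fun a ha b hb => adq_del_H6 (h3 a ha b hb)⟩
  have hF : (sA (G.deleteEdges {s(u, w)}) A).Finite := sA_finite hf
  rw [e, Set.ncard_insert_of_notMem ?_ (hF.insert _),
    Set.ncard_insert_of_notMem (hn _ (by simp) (by simp)) hF]
  rintro (h | h)
  · have : v ∈ ({u, w} : Finset V) := by rw [h]; simp
    simp only [Finset.mem_insert, Finset.mem_singleton] at this
    rcases this with h' | h'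
    · exact huv.ne h'.symm
    · exact hwv.ne h'.symm
  · exact hn _ (by simp) (by simp) h

theorem Cell.sco {β : Finset V → Prop} (h : Cell G 3 A β) : SCo G A := by
  by_cases hb : β ∅
  · exact disc_sco_H6 h hb
  · exact sph_sco_H6 (h.congr fun s hs =>
      ⟨fun hs' => hb (h.down hs (Finset.empty_subset s) hs'), False.elim⟩)

theorem Cell.ball_sco {d : ℕ} {β : Finset V → Prop} (h : Cell G d A β) (hd : d ≤ 3) (hb : β ∅) :
    Con G A ∧ SCo G A := by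
  refine ⟨h.ball_con hb, ?_⟩
  obtain rfl | rfl | rfl | rfl : d = 0 ∨ d = 1 ∨ d = 2 ∨ d = 3 := by omega
  · exact absurd hb h.2
  · exact sco_of_no_adj h.one_no_adj
  · exact h.arc_sco hb subset_rfl
  · exact h.sco

theorem Cell.odd {β : Finset V → Prop} (h : Cell G 3 A β) (hb : β ∅) : Odd (sA G A).ncard := by
  refine disc_induction (fun G A _ => Odd (sA G A).ncard) ?_ ?_ ?_ h hb
  · intro G a b c β hab hac hbc _
    have := odd_simplex_H6 (G := G) (t := {a, b, c}) (by simp) (by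
      intro x hx y hy
      simp only [Finset.mem_insert, Finset.mem_singleton] at hx hy
      rcases hx with rfl | rfl | rfl <;> rcases hy with rfl | rfl | rfl <;>
        first | exact adq_refl _ | exact Or.inr ‹_› | exact Or.inr (SimpleGraph.Adj.symm ‹_›))
    simpa using this
  · intro G A β u w P h _ hu hw huw _ _ _ hs c1 c2 q1 q2
    obtain ⟨h1, h2, h3⟩ := chord_H6 hu hw hs
    have e1 := sA_union h1
    rw [h2] at e1
    have e2 := sA_inter' (G := G) (A := {u, w} ∪ P) (A \ P)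
    rw [h3] at e2
    have e3 := Set.ncard_union_add_ncard_inter _ _ (sA_finite (G := G) c1.finite)
      (sA_finite (G := G) c2.finite)
    rw [← e1, ← e2] at e3
    have q3 : Odd (sA G {u, w}).ncard := by
      have := odd_simplex_H6 (G := G) (t := {u, w}) (by simp) (by
        intro x hx y hy
        simp only [Finset.mem_insert, Finset.mem_singleton] at hx hy
        rcases hx with rfl | rfl <;> rcases hy with rfl | rfl <;>
          first | exact adq_refl _ | exact Or.inr ‹_› | exact Or.inr (SimpleGraph.Adj.symm ‹_›))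
      simpa using this
    simp only [Nat.odd_iff] at q1 q2 q3 ⊢
    omega
  · intro G A β u w v h _ hu hw huw _ hv _ _ q
    simp only [Nat.odd_iff] at q ⊢
    rw [edge_sA_H6 hu hw huw hv h.finite]
    omega

/-- A disc has no free involution. -/
theorem Cell.no_invol {β : Finset V → Prop} (h : Cell G 3 A β) (hb : β ∅) {τ : V → V}
    (h1 : ∀ a ∈ A, τ a ∈ A ∧ τ (τ a) = a ∧ ¬ Adq G a (τ a))
    (h2 : ∀ a ∈ A, ∀ b ∈ A, G.Adj a b → G.Adj (τ a) (τ b)) : False := by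
  have hF : (sA G A).Finite := sA_finite h.finite
  have hτ : IsHom G A G A τ := ⟨fun a ha => (h1 a ha).1, fun a ha b hb e => Or.inr (h2 a ha b hb e)⟩
  have h0 : ∑ _s ∈ hF.toFinset, (1 : ZMod 2) = 0 := by
    refine Finset.sum_involution (fun s _ => s.image τ) (fun _ _ => by decide) ?_ ?_ ?_
    · intro s hs _ e
      obtain ⟨⟨a, ha⟩, k2, k3⟩ := mem_sA.1 (hF.mem_toFinset.1 hs)
      have : τ a ∈ s := by
        rw [← e]
        exact Finset.mem_image_of_mem τ ha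
      exact (h1 a (k2 ha)).2.2 (k3 a ha _ this)
    · intro s hs
      exact hF.mem_toFinset.2 (IsHom.image_mem hτ (hF.mem_toFinset.1 hs))
    · intro s hs
      have k2 := (mem_sA.1 (hF.mem_toFinset.1 hs)).2.1
      rw [Finset.image_image]
      refine (Finset.image_congr (g := id) fun a ha => ?_).trans Finset.image_id
      exact (h1 a (k2 ha)).2.1
  have ho := h.odd hb
  rw [Set.ncard_eq_toFinset_card _ hF] at ho
  rw [Finset.sum_const, nsmul_eq_mul, mul_one, ZMod.natCast_eq_zero_iff_even] at h0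
  exact (Nat.not_even_iff_odd.2 ho) h0

theorem mfa_two_cell {β : Finset V → Prop} (h : Mfa G 2 A β A) (hf : A.Finite) (hn : NDC G A)
    {a : V} (ha : a ∈ A) : Cell G 3 (cmp G A a) fun s =>
      if s = ∅ then ∃ v ∈ cmp G A a, β {v} else β s := by
  refine cell_three (hf.subset (cmp_subset a)) (con_cmp ha) (Triv.clopen hn (clopen_cmp a)) ?_ ?_
  · refine ((h.mono (cmp_subset a)).clopen (clopen_cmp a)).congr subset_rfl fun s hs => ?_
    rw [if_neg hs.1.ne_empty]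
  · simp

theorem mf_two_cell {T : Set V} (h : Mf G 2 A T) (hf : A.Finite) (hc : Con G A) (hn : NDC G A) :
    (A ∩ T = ∅ ∧ Sph G 3 A) ∨ ((A ∩ T).Nonempty ∧ Ball G 3 A T) := by
  rcases (A ∩ T).eq_empty_or_nonempty with e | e
  · refine Or.inl ⟨e, cell_three hf hc hn (Mfa.congr h subset_rfl fun s hs => ?_) (by simp)⟩
    refine ⟨fun hT => ?_, False.elim⟩
    obtain ⟨a, ha⟩ := hs.1
    have : a ∈ A ∩ T := ⟨hs.2.1 ha, hT ha⟩
    rw [e] at this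
    exact this
  · refine Or.inr ⟨e, cell_three hf hc hn h ?_⟩
    obtain ⟨a, ha⟩ := e
    exact ⟨fun _ => ⟨a, ha.1, by simpa [sub] using ha.2⟩, fun _ => by simp [sub]⟩

theorem mfa_two_sco {β : Finset V → Prop} (h : Mfa G 2 A β A) (hf : A.Finite) (hn : NDC G A) :
    SCo G A := by
  exact sco_of_cmp fun a ha => (mfa_two_cell h hf hn ha).sco

/-- A full subcomplex of a finite surface without double cover is simply connected. -/
theorem sub_sco {β : Finset V → Prop} (h : Mfa G 2 A β A) (hf : A.Finite) {S : Set V}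
    (hS : S ⊆ A) (hn : NDC G S) : SCo G S := by
  have e : A ∩ S = S := Set.inter_eq_right.2 hS
  have h1 := Mfa.nb (Q := S) (h.mono Set.inter_subset_left) (by omega)
  have h2 : NDC (sG V) (nb G A S) := triv_nb.2 (by rw [e]; exact hn)
  have h3 := sco_nb.1 (mfa_two_sco h1 ((sA_finite hf).subset fun s hs => hs.1) h2)
  rwa [e] at h3

theorem Cell.compl_sco {β : Finset V → Prop} (h : Cell G 3 A β) {Z : Set V} (hZ : Z ⊆ A)
    (hc : Con G Z) (hb : ¬ β ∅ ∨ ∃ z ∈ Z, β {z}) : SCo G (A \ Z) := by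
  exact sub_sco h.mfa h.finite Set.sdiff_subset (h.compl_ndc hZ hc hb)

theorem Cell.rem_bd {d : ℕ} {β : Finset V → Prop} (h : Cell G d A β) (hd : d ≤ 3) {S : Set V}
    (hS : ∀ s, Clq G (A ∩ S) s → β s) : Con G (A \ S) ∧ SCo G (A \ S) := by
  obtain ⟨h1, h2⟩ := h.rem_bd_con hd hS
  refine ⟨h1, ?_⟩
  obtain rfl | rfl | rfl | rfl : d = 0 ∨ d = 1 ∨ d = 2 ∨ d = 3 := by omega
  · refine sco_of_no_adj fun a ha => ?_
    have e : A = ∅ := h.1
    rw [e] at ha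
    exact absurd ha.1 (Set.notMem_empty a)
  · exact sco_of_no_adj fun a ha b hb => h.one_no_adj a ha.1 b hb.1
  · exact (h.arc_rem hS).2
  · exact sub_sco h.mfa h.finite Set.sdiff_subset h2

theorem Mfa.rem_bd {d : ℕ} {β : Finset V → Prop} (h : Mfa G d A β A) (hd : d ≤ 3) {S : Set V}
    (hf : (A ∩ S).Finite) (hS : ∀ s ∈ sA G (A ∩ S), β s) : PE G (A \ S) G A id := by
  refine rem_seq hf fun v hv S' hS' => (h v hv.1).rem_bd hd fun s hs => hS _ ?_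
  obtain ⟨k1, k2⟩ := clq_iff.1 hs
  refine mem_sA.2 ⟨Finset.insert_nonempty _ _, ?_, ?_⟩
  · intro x hx
    rcases Finset.mem_insert.1 hx with rfl | hx
    · exact hv
    · exact ⟨(k1 hx).1.1, hS' (k1 hx).2⟩
  · intro x hx y hy
    rcases Finset.mem_insert.1 hx with rfl | hx' <;> rcases Finset.mem_insert.1 hy with rfl | hy'
    · exact adq_refl _
    · exact Or.inr ((k1 hy').1.2 _ rfl)
    · exact Or.inr ((k1 hx').1.2 _ rfl).symm
    · exact k2 x hx' y hy'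

end Pool.Agent.MP_6374aa_g

end

section

/-! An outermost component in a disc. -/

namespace Pool.Agent.MP_6374aa_g

open Pool.Agent.MP_6374aa_gt Classical

variable {V V' V'' : Type} {G : SimpleGraph V} {G' : SimpleGraph V'} {G'' : SimpleGraph V''}
  {A : Set V} {A' : Set V'} {A'' : Set V''} {L : Type} [Group L]

theorem pre_cmp_L2 (a : V) : Pre G (cmp G A a) := fun b hb =>
  (con_cmp (hb.2.symm.mem hb.1)).2 b hb

theorem cmp_empty_L2 {a : V} (ha : a ∉ A) : cmp G A a = ∅ :=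
  Set.eq_empty_of_forall_notMem fun _ hb => ha (hb.2.symm.mem hb.1)

theorem exit_L2 {E Y : Set V} (h : Pre G E) {q y : V} (hq : q ∈ E \ Y) (hy : y ∈ Y)
    (hY : Y ⊆ E) : ∃ u ∈ cmp G (E \ Y) q, ∃ w ∈ Y, G.Adj u w := by
  obtain ⟨u, hu, w, hw, h1, h2⟩ := (h q hq.1 y (hY hy)).exit (X := Yᶜ) hq (not_not.2 hy)
  exact ⟨u, ⟨hu, h2⟩, w, not_not.1 hw.2, h1⟩

theorem star_L2 (c : V) : Cov2 G A (A \ {c}) {z | z ∈ A ∧ Adq G c z} := by
  refine ⟨Set.sdiff_subset, fun _ h => h.1, fun u hu v hv w hw h1 h2 h3 => ?_⟩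
  by_cases e1 : u = c
  · exact Or.inr (e1 ▸ ⟨⟨hu, adq_refl _⟩, ⟨hv, h1⟩, hw, h3⟩)
  by_cases e2 : v = c
  · exact Or.inr (e2 ▸ ⟨⟨hu, adq_symm h1⟩, ⟨hv, adq_refl _⟩, hw, h2⟩)
  by_cases e3 : w = c
  · exact Or.inr (e3 ▸ ⟨⟨hu, adq_symm h3⟩, ⟨hv, adq_symm h2⟩, hw, adq_refl _⟩)
  · exact Or.inl ⟨⟨hu, e1⟩, ⟨hv, e2⟩, hw, e3⟩

theorem preT_L2 {E T O : Set V} (h : Ball G 3 E T) (hO : O ⊆ E) (hc : Con G O)
    (hQ : Pre G (E \ O)) : Pre G ((E \ O) ∩ T) := by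
  have h1 : NDC (capG G fun _ : Unit => T) (capA E Set.univ \ Sum.inl '' O) :=
    Cell.compl_ndc (h.cap le_rfl) ((Set.image_mono hO).trans Set.subset_union_left)
      ((IsIso.con (cap_iso _ O)).1 hc) (Or.inl id)
  have h2 : (capA E (Set.univ : Set Unit) \ Sum.inl '' O) \ {Sum.inr ()} = Sum.inl '' (E \ O) := by
    ext (x | x) <;> simp [capA]
  have h3 := inter_pre (star_L2 (Sum.inr ())) h1 (h2 ▸ (IsIso.pre (cap_iso _ _)).1 hQ)
    (pre_of_base (x := Sum.inr ()) fun _ hx =>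
      Reach.single hx ⟨by simp [capA], adq_refl _⟩ (adq_symm hx.2))
  rw [h2] at h3
  rw [IsIso.pre (cap_iso (fun _ : Unit => T) _)]
  convert h3 using 1
  ext (x | x)
  · simp only [capA, Adq, capG, Set.mem_image, Sum.inl.injEq, exists_eq_right, Set.mem_inter_iff,
      Set.mem_sdiff, Set.mem_ofPred_eq, Set.mem_union, reduceCtorEq, and_false, exists_false,
      or_false, false_or]
    tauto
  · simp

theorem exists_root {E T Y : Set V} (h : Ball G 3 E T) (hY : Y ⊆ E) (hn : Y.Nonempty) :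
    ∃ Y0 Q, Root G E T Y Y0 Q := by
  obtain ⟨x, hx⟩ : (E ∩ T).Nonempty := ball_bd_ne_C5 (d := 1) h
  have hE : Pre G E := (Cell.con (d := 1) h).2
  have hT : Pre G (E ∩ T) := (Cell.con (d := 0) (h.bd (d := 2) le_rfl)).2
  have hf : E.Finite := Cell.finite h
  obtain ⟨y, hy, hm⟩ := Set.exists_max_image Y
    (fun y => (cmp G (E \ cmp G Y y) x).ncard) (hf.subset hY) hn
  have y0 : y ∈ cmp G Y y := mem_cmp_self hy
  have y1 : cmp G Y y ⊆ E := (cmp_subset y).trans hY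
  have y2 : Pre G (cmp G Y y) := pre_cmp_L2 y
  have o1 : cmp G (E \ cmp G Y y) x ⊆ E \ cmp G Y y := cmp_subset x
  have o2 := clopen_cmp (G := G) (A := E \ cmp G Y y) x
  have o3 : E \ (E \ cmp G (E \ cmp G Y y) x) = cmp G (E \ cmp G Y y) x :=
    Set.sdiff_sdiff_cancel_left (o1.trans Set.sdiff_subset)
  have q1 : cmp G Y y ⊆ E \ cmp G (E \ cmp G Y y) x := fun a ha => ⟨y1 ha, fun k => (o1 k).2 ha⟩
  have q2 : Pre G (E \ cmp G (E \ cmp G Y y) x) := by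
    refine y2.of_near q1 fun q hq => ?_
    by_cases e : q ∈ cmp G Y y
    · exact ⟨q, e, Reach.refl q⟩
    obtain ⟨u, hu, w, hw, k⟩ := exit_L2 (q := q) hE ⟨hq.1, e⟩ y0 y1
    have k1 : cmp G (E \ cmp G Y y) q ⊆ E \ cmp G (E \ cmp G Y y) x := fun c hc =>
      ⟨hc.1.1, fun k => hq.2 ⟨⟨hq.1, e⟩, k.2.trans hc.2.symm⟩⟩
    have k2 : q ∈ cmp G (E \ cmp G Y y) q := mem_cmp_self ⟨hq.1, e⟩
    exact ⟨w, hw, ((pre_cmp_L2 q q k2 u hu).mono k1).trans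
      (Reach.single (k1 hu) (q1 hw) (Or.inr k))⟩
  have q3 : (E \ cmp G (E \ cmp G Y y) x) ∩ Y = cmp G Y y := by
    refine Set.Subset.antisymm (fun z hz => by_contra fun e => ?_)
      fun a ha => ⟨q1 ha, cmp_subset y ha⟩
    have z0 : z ∈ cmp G Y z := mem_cmp_self hz.2
    have z1 : Disjoint (cmp G Y y) (cmp G Y z) :=
      ((cmp_eq_or_far y z).resolve_left fun k => e (k ▸ z0)).disjoint
    have z2 : cmp G (E \ cmp G Y y) x ∪ cmp G Y y ⊆ E \ cmp G Y z := by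
      rintro a (ha | ha)
      · have k' : cmp G Y z ⊆ E \ cmp G Y y := fun b hb =>
          ⟨hY hb.1, fun k' => Set.disjoint_left.1 z1 k' hb⟩
        exact ⟨(o1 ha).1, fun k => hz.1.2 ((pre_cmp_L2 z).subset_clopen k' o2 k ha z0)⟩
      · exact ⟨y1 ha, Set.disjoint_left.1 z1 ha⟩
    have z3 : x ∈ cmp G (E \ cmp G Y y) x ∪ cmp G Y y :=
      (Classical.em _).symm.imp_left fun k => mem_cmp_self ⟨hx.1, k⟩
    have z4 : Pre G (cmp G (E \ cmp G Y y) x ∪ cmp G Y y) := by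
      by_cases k : x ∈ cmp G Y y
      · rwa [cmp_empty_L2 (A := E \ cmp G Y y) fun k' => k'.2 k, Set.empty_union]
      · obtain ⟨u, hu, w, hw, k'⟩ := exit_L2 (q := x) hE ⟨hx.1, k⟩ y0 y1
        exact (pre_cmp_L2 x).union y2 hu hw (Or.inr k')
    have z5 := z4.subset_cmp z2 z3 (mem_cmp_self (z2 z3))
    exact (hm z hz.2).not_gt (Set.ncard_lt_ncard
      ⟨Set.subset_union_left.trans z5, fun k => (o1 (k (z5 (Or.inr y0)))).2 y0⟩
      (hf.subset ((cmp_subset x).trans Set.sdiff_subset)))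
  have q4 : NDC G (E \ cmp G (E \ cmp G Y y) x) ∧ Pre G ((E \ cmp G (E \ cmp G Y y) x) ∩ T) ∧
      (E \ cmp G (E \ cmp G Y y) x = E ∨ (cmp G (E \ cmp G Y y) x ∩ T).Nonempty) := by
    by_cases k : x ∈ cmp G Y y
    · rw [cmp_empty_L2 (A := E \ cmp G Y y) fun k' => k'.2 k, Set.sdiff_empty]
      exact ⟨Cell.ndc h, hT, Or.inl rfl⟩
    · have k1 : x ∈ cmp G (E \ cmp G Y y) x := mem_cmp_self ⟨hx.1, k⟩
      have k2 : Con G (cmp G (E \ cmp G Y y) x) := con_cmp ⟨hx.1, k⟩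
      exact ⟨Cell.compl_ndc h (o1.trans Set.sdiff_subset) k2
        (Or.inr ⟨x, k1, by simpa [sub] using hx.2⟩),
        preT_L2 h (o1.trans Set.sdiff_subset) k2 q2, Or.inr ⟨x, k1, hx.2⟩⟩
  refine ⟨_, _, ⟨y, hy, rfl⟩, Set.sdiff_subset, q3, ⟨⟨y, q1 y0⟩, q2⟩, q4.1, q4.2.1, ?_, ?_,
    fun e => ?_, ?_⟩
  · rw [o3]
    exact pre_cmp_L2 x
  · rw [o3]
    exact fun a ha b hb k => hb.1.2 (o2.2 a ha b ⟨hb.1.1, hb.2⟩ k)
  · have k : E ∩ T ⊆ E \ cmp G Y y := fun a ha =>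
      ⟨ha.1, fun k => Set.eq_empty_iff_forall_notMem.1 e a ⟨k, ha.2⟩⟩
    exact Set.eq_empty_of_forall_notMem fun a ha =>
      ha.1.2 (hT.subset_cmp k hx (mem_cmp_self (k hx)) ⟨ha.1.1, ha.2⟩)
  · rw [o3]
    exact q4.2.2

end Pool.Agent.MP_6374aa_g

end

section

/-! Setups: subdivision, embeddings and double covers. -/

namespace Pool.Agent.MP_6374aa_g

open Pool.Agent.MP_6374aa_gt Classical

variable {V V' V'' : Type} {G : SimpleGraph V} {G' : SimpleGraph V'} {G'' : SimpleGraph V''}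
  {A : Set V} {A' : Set V'} {A'' : Set V''} {L : Type} [Group L]

variable {S S' : Setup L}

theorem pk_hom_L1 (S : Setup L) : IsHom S.sd.G S.sd.B S.G S.B (pk S.B) :=
  isHom_pick (A := S.A ∩ S.T) (fun _ h => h.1) fun _ hs => ⟨pk_mem _ hs.1.1, pk_mem_B hs.2⟩

theorem hom_mono_L1 {f : V' → V} (hf : IsHom G' A' G A f) {X' : Set V'} {X : Set V}
    (h' : X' ⊆ A') (h : ∀ a ∈ X', f a ∈ X) : IsHom G' X' G X f :=
  ⟨h, fun a ha b hb hab => hf.2 a (h' ha) b (h' hb) hab⟩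

theorem meets_img_L1 {f : V' → V} {Q' : Set V'} {Q : Set V} (h : ∀ u ∈ Q', f u ∈ Q)
    {s : Finset V'} (hs : Meets s Q') : Meets (s.image f) Q := by
  obtain ⟨v, hv, hq⟩ := hs
  exact ⟨f v, Finset.mem_image_of_mem f hv, h v hq⟩

theorem Setup.Valid.sd (h : S.Valid) : S.sd.Valid := by
  refine ⟨fun _ hs => hs.1, fun s hs => ?_, h.mf.sd_sub le_rfl, flat_pull h.flat (pk_hom_L1 S)⟩
  have := hs.1
  rw [sA_inter] at this
  exact this

theorem Setup.Valid.iter (h : S.Valid) (k : ℕ) : (Setup.sd^[k] S).Valid := by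
  induction k with
  | zero => exact h
  | succ k ih => rw [Function.iterate_succ_apply']; exact ih.sd

theorem Setup.Disc.sd (h : S.Valid) {D : Set S.V} (hD : S.Disc D) : S.sd.Disc (sA S.G D) := by
  have hA : D ⊆ S.A := hD.subC.trans h.subC
  have e : sA S.G D ∩ ins S.T = sA S.G (D ∩ S.T) := (sA_inter _).symm
  refine ⟨fun s hs => ⟨sA_mono hA hs, ?_⟩, hD.ball.sd le_rfl, ?_, ?_⟩
  · obtain ⟨v, hv⟩ := hs.1
    exact ⟨v, hv, hD.subC (hs.2.1 hv)⟩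
  · change sA S.G D ∩ ins S.T ⊆ nb S.G (S.A ∩ S.T) S.B
    rw [e]
    intro s hs
    refine ⟨sA_mono (Set.inter_subset_inter_left _ hA) hs, ?_⟩
    obtain ⟨v, hv⟩ := hs.1
    exact ⟨v, hv, hD.subB (hs.2.1 hv)⟩
  · change ¬ Pot (sG S.V) (sA S.G D ∩ ins S.T) (pull (pk S.B) S.lab)
    rw [e]
    exact fun hp => hD.ess (pot_of_pot_sd (h.flat.mono hD.subB) (fun s hs => pk_mem _ hs.1) hp)

theorem Setup.Disc.solv {D : Set S.V} (hD : S.Disc D) : S.Solv := by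
  exact ⟨0, D, hD⟩

theorem Setup.Solv.of_sd (h : S.sd.Solv) : S.Solv := by
  obtain ⟨k, D, hD⟩ := h
  exact ⟨k + 1, D, hD⟩

theorem Setup.Solv.of_iter {k : ℕ} (h : (Setup.sd^[k] S).Solv) : S.Solv := by
  induction k generalizing S with
  | zero => exact h
  | succ k ih => exact Setup.Solv.of_sd (ih h)

theorem parts_L1 {p : S'.V → S.V} (hom : IsHom S'.G S'.A S.G S.A p)
    (core : ∀ u ∈ S'.C, p u ∈ S.C) (bd : ∀ u ∈ S'.A, u ∈ S'.T ↔ p u ∈ S.T)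
    (mapB : ∀ u ∈ S'.B, p u ∈ S.B) (gau : ∃ k, Gau S'.G S'.B S'.lab (pull p S.lab) k)
    (h' : S'.Valid) (h0 : S.Valid) :
    (∀ s ∈ S'.sd.C, s.image p ∈ S.sd.C) ∧ (∀ s ∈ S'.sd.A, s ∈ S'.sd.T ↔ s.image p ∈ S.sd.T) ∧
      (∀ s ∈ S'.sd.B, s.image p ∈ S.sd.B) ∧
      ∃ k, Gau S'.sd.G S'.sd.B S'.sd.lab (pull (Finset.image p) S.sd.lab) k := by
  have hT : IsHom S'.G (S'.A ∩ S'.T) S.G (S.A ∩ S.T) p :=
    hom_mono_L1 hom Set.inter_subset_left fun a ha => ⟨hom.1 a ha.1, (bd a ha.1).1 ha.2⟩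
  have hB : ∀ s ∈ S'.sd.B, s.image p ∈ S.sd.B := fun s hs =>
    ⟨IsHom.image_mem hT hs.1, meets_img_L1 mapB hs.2⟩
  refine ⟨fun s hs => ⟨IsHom.image_mem hom hs.1, meets_img_L1 core hs.2⟩,
    fun s hs => sub_image_C1 bd hs.2.1, hB, ?_⟩
  obtain ⟨k, hk⟩ := gau
  have hpB : IsHom S'.G S'.B S.G S.B p :=
    hom_mono_L1 hom (h'.subB.trans Set.inter_subset_left) mapB
  have h1 : IsHom S'.sd.G S'.sd.B S.G S.B (fun s => p (pk S'.B s)) :=
    ⟨fun s hs => hpB.1 _ ((pk_hom_L1 S').1 s hs), fun s hs t ht hst =>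
      IsHom.adq hpB ((pk_hom_L1 S').1 s hs) ((pk_hom_L1 S').1 t ht)
        ((pk_hom_L1 S').2 s hs t ht hst)⟩
  have hi : IsHom S'.sd.G S'.sd.B S.sd.G S.sd.B (Finset.image p) :=
    isHom_of_mono hB fun _ _ _ _ hst => Finset.image_subset_image hst
  have h2 : IsHom S'.sd.G S'.sd.B S.G S.B (fun s => pk S.B (s.image p)) :=
    ⟨fun s hs => (pk_hom_L1 S).1 _ (hB s hs), fun s hs t ht hst =>
      IsHom.adq (pk_hom_L1 S) (hB s hs) (hB t ht) (hi.2 s hs t ht hst)⟩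
  have key : ∀ s : Finset S'.V, s ∈ S'.sd.B → ∀ t : Finset S'.V, t ∈ S'.sd.B →
      ∀ m : Finset S'.V, m ∈ S'.sd.B → s ⊆ m → t ⊆ m →
      Adq S.G (p (pk S'.B s)) (pk S.B (t.image p)) := fun s hs t ht m hm hsm htm =>
    (mem_sA.1 (hB m hm).1).2.2 _ (Finset.mem_image_of_mem p (hsm (pk_mem _ hs.1.1))) _
      (Finset.image_subset_image htm (pk_mem _ (hB t ht).1.1))
  have hc : Ctg S'.sd.G S'.sd.B S.G (fun s => p (pk S'.B s)) (fun s => pk S.B (s.image p)) := by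
    refine ⟨fun s hs => key s hs s hs s hs subset_rfl subset_rfl, fun s hs t ht hst => ?_⟩
    rcases hst with hst | hst
    · exact Or.inl (key s hs t ht t ht hst.subset subset_rfl)
    · exact Or.inl (key s hs t ht s hs subset_rfl hst.subset)
  exact ⟨_, (hk.pull (pk_hom_L1 S')).trans (gau_of_ctg h0.flat h1 h2 hc)⟩

theorem disc_L1 {p : S'.V → S.V} (core : ∀ u ∈ S'.C, p u ∈ S.C)
    (bd : ∀ u ∈ S'.A, u ∈ S'.T ↔ p u ∈ S.T) (mapB : ∀ u ∈ S'.B, p u ∈ S.B)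
    (gau : ∃ k, Gau S'.G S'.B S'.lab (pull p S.lab) k) (h' : S'.Valid) {D : Set S'.V}
    (hD : S'.Disc D) (hi : IsIso S'.G D S.G (p '' D) p) : S.Disc (p '' D) := by
  have hA : D ⊆ S'.A := hD.subC.trans h'.subC
  refine ⟨?_, (IsIso.ball hi fun a ha => bd a (hA ha)).1 hD.ball, ?_, fun hp => hD.ess ?_⟩
  · rintro _ ⟨u, hu, rfl⟩
    exact core u (hD.subC hu)
  · rintro _ ⟨⟨u, hu, rfl⟩, hT⟩
    exact mapB u (hD.subB ⟨hu, (bd u (hA hu)).2 hT⟩)
  · obtain ⟨k, hk⟩ := gau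
    refine (hk.mono hD.subB).pot (hp.pull (hom_mono_L1 (IsIso.hom hi) Set.inter_subset_left ?_))
    exact fun a ha => ⟨⟨a, ha.1, rfl⟩, (bd a (hA ha.1)).1 ha.2⟩

theorem Emb.hom_L1 {p : S'.V → S.V} (h : Emb S' S p) : IsHom S'.G S'.A S.G S.A p :=
  hom_mono_L1 (IsIso.hom h.iso) subset_rfl fun a ha => h.subA ⟨a, ha, rfl⟩

theorem Emb.sd {p : S'.V → S.V} (h : Emb S' S p) (h' : S'.Valid) (h0 : S.Valid) :
    Emb S'.sd S.sd (Finset.image p) := by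
  obtain ⟨h1, h2, h3, h4⟩ := parts_L1 h.hom_L1 h.core h.bd h.mapB h.gau h' h0
  refine ⟨IsIso.restrict (IsIso.sd h.iso) subset_rfl, ?_, h1, h2, h3, h4⟩
  rintro _ ⟨s, hs, rfl⟩
  exact IsHom.image_mem h.hom_L1 hs

theorem Emb.disc {p : S'.V → S.V} (h : Emb S' S p) (h' : S'.Valid) {D : Set S'.V}
    (hD : S'.Disc D) : S.Disc (p '' D) := by
  exact disc_L1 h.core h.bd h.mapB h.gau h' hD (IsIso.restrict h.iso (hD.subC.trans h'.subC))

theorem Emb.solv {p : S'.V → S.V} (h : Emb S' S p) (h' : S'.Valid) (h0 : S.Valid)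
    (hs : S'.Solv) : S.Solv := by
  obtain ⟨k, D, hD⟩ := hs
  induction k generalizing S S' with
  | zero => exact (h.disc h' hD).solv
  | succ k ih => exact Setup.Solv.of_sd (ih (h.sd h' h0) h'.sd h0.sd D hD)

theorem Invo.iso_L1 {τ : S.V → S.V} (h : Invo S τ) : IsIso S.G S.A S.G S.A τ := by
  refine ⟨⟨fun u hu => h.mem u hu, fun u hu w hw e => ?_, fun u hu => ⟨τ u, h.mem u hu, h.inv u hu⟩⟩,
    fun a ha b hb => ⟨h.adj a ha b hb, fun hab => ?_⟩⟩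
  · rw [← h.inv u hu, e, h.inv w hw]
  · have := h.adj _ (h.mem a ha) _ (h.mem b hb) hab
    rwa [h.inv a ha, h.inv b hb] at this

theorem Invo.img_L1 {τ : S.V → S.V} (h : Invo S τ) {s : Finset S.V} (hs : ↑s ⊆ S.A) :
    (s.image τ).image τ = s := by
  rw [Finset.image_image]
  conv_rhs => rw [← Finset.image_id (s := s)]
  exact Finset.image_congr fun u hu => h.inv u (hs hu)

theorem Invo.not_L1 {τ : S.V → S.V} (h : Invo S τ) {m : Finset S.V} (hm : m ∈ sA S.G S.A)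
    {w : S.V} (h1 : w ∈ m) (h2 : τ w ∈ m) : False :=
  h.tw w (hm.2.1 h1) w (hm.2.1 h1) (adq_refl w) ((mem_sA.1 hm).2.2 _ h1 _ h2)

theorem Invo.bd_L1 {τ : S.V → S.V} (h : Invo S τ) : ∀ u ∈ S.A, u ∈ S.T ↔ τ u ∈ S.T :=
  fun u hu => ⟨h.bd u hu, fun ht => h.inv u hu ▸ h.bd _ (h.mem u hu) ht⟩

theorem Invo.sd {τ : S.V → S.V} (h : Invo S τ) : Invo S.sd (Finset.image τ) := by
  have hi := IsIso.sd h.iso_L1
  have hT : IsHom S.G (S.A ∩ S.T) S.G (S.A ∩ S.T) τ :=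
    hom_mono_L1 (IsIso.hom h.iso_L1) Set.inter_subset_left fun a ha =>
      ⟨h.mem a ha.1, h.bd a ha.1 ha.2⟩
  refine ⟨fun s hs => hi.1.mapsTo hs, fun s hs => h.img_L1 hs.2.1,
    fun s hs t ht hst => (hi.2 s hs t ht).1 hst,
    fun (s : Finset S.V) hs (t : Finset S.V) ht h1 h2 => ?_,
    fun s hs => ⟨hi.1.mapsTo hs.1, meets_img_L1 h.core hs.2⟩,
    fun s hs ht => (sub_image_C1 h.bd_L1 hs.2.1).1 ht,
    fun s hs => ⟨IsHom.image_mem hT hs.1, meets_img_L1 h.mapB hs.2⟩⟩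
  have h1' : s ⊆ t ∨ t ⊆ s := adq_sG.1 h1
  have h2' : s ⊆ t.image τ ∨ t.image τ ⊆ s := adq_sG.1 h2
  rcases h2' with h2' | h2'
  · obtain ⟨u, hu⟩ := hs.1
    obtain ⟨w, hw, rfl⟩ := Finset.mem_image.1 (h2' hu)
    rcases h1' with h1' | h1'
    · exact h.not_L1 ht hw (h1' hu)
    · exact h.not_L1 hs (h1' hw) hu
  · obtain ⟨w, hw⟩ := ht.1
    have hu := h2' (Finset.mem_image_of_mem τ hw)
    rcases h1' with h1' | h1'
    · exact h.not_L1 ht hw (h1' hu)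
    · exact h.not_L1 hs (h1' hw) hu

theorem Invo.iso {τ : S.V → S.V} (h : Invo S τ) {X : Set S.V} (hX : X ⊆ S.A) :
    IsIso S.G X S.G (τ '' X) τ := by
  exact IsIso.restrict h.iso_L1 hX

theorem Invo.image_sA {τ : S.V → S.V} (h : Invo S τ) {X : Set S.V} (hX : X ⊆ S.A) :
    Finset.image τ '' sA S.G X = sA S.G (τ '' X) := by
  exact (IsIso.sd (h.iso hX)).1.image_eq

theorem Invo.meets_L1 {τ : S.V → S.V} (h : Invo S τ) {Q : Set S.V} (hQ : Q ⊆ S.A)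
    {s : Finset S.V} (hs : ↑s ⊆ S.A) : Meets (s.image τ) (τ '' Q) ↔ Meets s Q := by
  refine ⟨?_, meets_img_L1 fun u hu => Set.mem_image_of_mem τ hu⟩
  rintro ⟨_, hv, q, hq, rfl⟩
  obtain ⟨a, ha, e⟩ := Finset.mem_image.1 hv
  exact ⟨a, ha, h.iso_L1.1.injOn (hs ha) (hQ hq) e ▸ hq⟩

theorem Invo.sub_L1 {τ : S.V → S.V} (h : Invo S τ) {Q : Set S.V} (hQ : Q ⊆ S.A)
    {s : Finset S.V} (hs : ↑s ⊆ S.A) : ↑(s.image τ) ⊆ τ '' Q ↔ ↑s ⊆ Q := by
  rw [Finset.coe_image]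
  exact h.iso_L1.1.injOn.image_subset_image_iff hs hQ

theorem Invo.image_nb {τ : S.V → S.V} (h : Invo S τ) {X Q : Set S.V} (hX : X ⊆ S.A)
    (hQ : Q ⊆ S.A) : Finset.image τ '' nb S.G X Q = nb S.G (τ '' X) (τ '' Q) := by
  ext t
  constructor
  · rintro ⟨s, hs, rfl⟩
    exact ⟨h.image_sA hX ▸ ⟨s, hs.1, rfl⟩, (h.meets_L1 hQ (hs.1.2.1.trans hX)).2 hs.2⟩
  · rintro ⟨ht, hm⟩
    rw [← h.image_sA hX] at ht
    obtain ⟨s, hs, rfl⟩ := ht
    exact ⟨s, ⟨hs, (h.meets_L1 hQ (hs.2.1.trans hX)).1 hm⟩, rfl⟩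

theorem Invo.image_fr {τ : S.V → S.V} (h : Invo S τ) {X Q : Set S.V} (hX : X ⊆ S.A)
    (hQ : Q ⊆ S.A) : Finset.image τ '' fr S.G X Q = fr S.G (τ '' X) (τ '' Q) := by
  ext t
  constructor
  · rintro ⟨s, hs, rfl⟩
    exact ⟨h.image_sA hX ▸ ⟨s, hs.1, rfl⟩, (h.meets_L1 hQ (hs.1.2.1.trans hX)).2 hs.2.1,
      fun hc => hs.2.2 ((h.sub_L1 hQ (hs.1.2.1.trans hX)).1 hc)⟩
  · rintro ⟨ht, hm, hn⟩
    rw [← h.image_sA hX] at ht
    obtain ⟨s, hs, rfl⟩ := ht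
    exact ⟨s, ⟨hs, (h.meets_L1 hQ (hs.2.1.trans hX)).1 hm,
      fun hc => hn ((h.sub_L1 hQ (hs.2.1.trans hX)).2 hc)⟩, rfl⟩

theorem Invo.image_A {τ : S.V → S.V} (h : Invo S τ) : τ '' S.A = S.A := by
  exact h.iso_L1.1.image_eq

theorem Invo.image_image {τ : S.V → S.V} (h : Invo S τ) {X : Set S.V} (hX : X ⊆ S.A) :
    τ '' (τ '' X) = X := by
  rw [Set.image_image]
  conv_rhs => rw [← Set.image_id X]
  exact Set.image_congr fun u hu => h.inv u (hX hu)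

theorem Invo.ball {τ : S.V → S.V} (h : Invo S τ) {D : Set S.V} (hD : D ⊆ S.A) {d : ℕ}
    (hb : Ball S.G d D S.T) : Ball S.G d (τ '' D) S.T := by
  exact (IsIso.ball (h.iso hD) fun a ha => h.bd_L1 a (hD ha)).1 hb

theorem GCov.inj_L1 {p : S'.V → S.V} {τ : S'.V → S'.V} (h : GCov S' S p τ) {t : Finset S'.V}
    (ht : t ∈ sA S'.G S'.A) : Set.InjOn p ↑t := by
  intro u hu w hw e
  rcases (mem_sA.1 ht).2.2 u hu w hw with huw | huw
  · exact huw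
  · exact absurd e (h.adj u (ht.2.1 hu) w (ht.2.1 hw) huw).ne

theorem GCov.pt_L1 {p : S'.V → S.V} {τ : S'.V → S'.V} (h : GCov S' S p τ) {t : Finset S'.V}
    (ht : t ∈ sA S'.G S'.A) : (t.image τ).image p = t.image p := by
  rw [Finset.image_image]
  exact Finset.image_congr fun u hu => h.pτ u (ht.2.1 hu)

theorem GCov.sub_L1 {p : S'.V → S.V} {τ : S'.V → S'.V} (h : GCov S' S p τ) {s t : Finset S'.V}
    (hs : s ∈ sA S'.G S'.A) (ht : t ∈ sA S'.G S'.A) (hst : s.image p ⊆ t.image p) :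
    s ⊆ t ∨ s ⊆ t.image τ := by
  have key : ∀ u ∈ s, u ∈ t ∨ ∃ w ∈ t, τ w = u := by
    intro u hu
    obtain ⟨w, hw, e⟩ := Finset.mem_image.1 (hst (Finset.mem_image_of_mem p hu))
    rcases h.fib w (ht.2.1 hw) u (hs.2.1 hu) e with e | e
    · exact Or.inl (e ▸ hw)
    · exact Or.inr ⟨w, hw, e.symm⟩
  by_contra hc
  obtain ⟨h1, h2⟩ := not_or.1 hc
  obtain ⟨u1, hu1, hn1⟩ := Finset.not_subset.1 h1
  obtain ⟨u2, hu2, hn2⟩ := Finset.not_subset.1 h2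
  obtain ⟨w, hw, rfl⟩ := (key u1 hu1).resolve_left hn1
  have h3 := (key u2 hu2).resolve_right fun hx => hn2 (Finset.mem_image.2 hx)
  exact h.invo.tw u2 (hs.2.1 hu2) w (ht.2.1 hw) ((mem_sA.1 ht).2.2 _ h3 _ hw)
    ((mem_sA.1 hs).2.2 _ hu2 _ hu1)

theorem GCov.sd {p : S'.V → S.V} {τ : S'.V → S'.V} (h : GCov S' S p τ) (h' : S'.Valid)
    (h0 : S.Valid) : GCov S'.sd S.sd (Finset.image p) (Finset.image τ) := by
  have hom : IsHom S'.G S'.A S.G S.A p :=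
    ⟨h.mem, fun a ha b hb hab => Or.inr (h.adj a ha b hb hab)⟩
  obtain ⟨h1, h2, h3, h4⟩ := parts_L1 hom h.core h.bd h.mapB h.gau h' h0
  have ss : ∀ s t : Finset S'.V, t ∈ sA S'.G S'.A → s ⊂ t → s.image p ⊂ t.image p :=
    fun s t ht hst => ⟨Finset.image_subset_image hst.subset, fun hc => hst.2
      ((img_subset_B4 (h.inj_L1 ht) subset_rfl (Finset.coe_subset.2 hst.subset)).1 hc)⟩
  refine ⟨h.invo.sd, fun s hs => IsHom.image_mem hom hs, fun s hs t ht hst => ?_,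
    fun s hs => h.pt_L1 hs, fun s hs t ht e => ?_, fun s hs t ht hst => ?_, h1, h2, h3, h4⟩
  · exact hst.imp (ss s t ht) (ss t s hs)
  · have e' : s.image p = t.image p := e
    have hc : s.card = t.card := by
      rw [← Finset.card_image_of_injOn (h.inj_L1 hs), e', Finset.card_image_of_injOn (h.inj_L1 ht)]
    rcases h.sub_L1 ht hs e'.symm.subset with h5 | h5
    · exact Or.inl (Finset.eq_of_subset_of_card_le h5 hc.le)
    · exact Or.inr (Finset.eq_of_subset_of_card_le h5 (Finset.card_image_le.trans hc.le))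
  · have hst' : s.image p ⊂ t.image p ∨ t.image p ⊂ s.image p := hst
    rcases hst' with h5 | h5
    · rcases h.sub_L1 hs ht h5.subset with h6 | h6
      · exact Or.inl (Or.inl (h6.ssubset_of_ne fun e => h5.ne (by rw [e])))
      · exact Or.inr (Or.inl (h6.ssubset_of_ne fun e => h5.ne (by rw [e, h.pt_L1 ht])))
    · rcases h.sub_L1 ht hs h5.subset with h6 | h6
      · exact Or.inl (Or.inr (h6.ssubset_of_ne fun e => h5.ne (by rw [e])))
      · have h7 : t.image τ ⊆ s := h.invo.img_L1 hs.2.1 ▸ Finset.image_subset_image h6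
        exact Or.inr (Or.inr (h7.ssubset_of_ne fun e => h5.ne (by rw [← e, h.pt_L1 ht])))

theorem GCov.disc {p : S'.V → S.V} {τ : S'.V → S'.V} (h : GCov S' S p τ) (h' : S'.Valid)
    {D : Set S'.V} (hD : S'.Disc D) (hf : Far S'.G D (τ '' D)) : S.Disc (p '' D) := by
  have hA : D ⊆ S'.A := hD.subC.trans h'.subC
  refine disc_L1 h.core h.bd h.mapB h.gau h' hD ⟨Set.InjOn.bijOn_image fun u hu w hw e => ?_,
    fun a ha b hb => ⟨h.adj a (hA ha) b (hA hb), fun hab => ?_⟩⟩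
  · rcases h.fib u (hA hu) w (hA hw) e with e | e
    · exact e.symm
    · exact absurd (Or.inl e) (hf w hw _ ⟨u, hu, rfl⟩)
  · exact (h.lift a (hA ha) b (hA hb) hab).resolve_right fun hc =>
      hf a ha _ ⟨b, hb, rfl⟩ (Or.inr hc)

end Pool.Agent.MP_6374aa_g

end

section

/-! The subcomplex used for the surgery. -/

namespace Pool.Agent.MP_6374aa_g

open Pool.Agent.MP_6374aa_gt Classical

variable {V V' V'' : Type} {G : SimpleGraph V} {G' : SimpleGraph V'} {G'' : SimpleGraph V''}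
  {A : Set V} {A' : Set V'} {A'' : Set V''} {L : Type} [Group L]

variable {S S' : Setup L}

omit [Group L] in
theorem mem_img_L3 {τ : S.V → S.V} (h : Invo S τ) {X : Set S.V} (hX : X ⊆ S.A) {u : S.V}
    (hu : u ∈ S.A) : u ∈ τ '' X ↔ τ u ∈ X := by
  constructor
  · rintro ⟨x, hx, rfl⟩
    rwa [h.inv x (hX hx)]
  · exact fun e => ⟨τ u, e, h.inv u hu⟩

omit [Group L] in
theorem img_sub_L3 {τ : S.V → S.V} (h : Invo S τ) {X : Set S.V} (hX : X ⊆ S.A) :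
    τ '' X ⊆ S.A := by
  rintro _ ⟨x, hx, rfl⟩
  exact h.mem x (hX hx)

omit [Group L] in
theorem img_T_L3 {τ : S.V → S.V} (h : Invo S τ) {X : Set S.V} (hX : X ⊆ S.A) :
    τ '' (X ∩ S.T) = τ '' X ∩ S.T := by
  apply Set.Subset.antisymm
  · rintro _ ⟨x, hx, rfl⟩
    exact ⟨⟨x, hx.1, rfl⟩, h.bd x (hX hx.1) hx.2⟩
  · rintro _ ⟨⟨x, hx, rfl⟩, ht⟩
    have e := h.bd _ (h.mem x (hX hx)) ht
    rw [h.inv x (hX hx)] at e
    exact ⟨x, ⟨hx, e⟩, rfl⟩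

omit [Group L] in
theorem img_cmp_L3 {τ : S.V → S.V} (h : Invo S τ) {Y : Set S.V} (hY : Y ⊆ S.A)
    (hm : ∀ u ∈ Y, τ u ∈ Y) {y : S.V} (hy : y ∈ Y) : τ '' cmp S.G Y y = cmp S.G Y (τ y) := by
  have hh : IsHom S.G Y S.G Y τ :=
    ⟨hm, fun a ha b hb e => Or.inr (h.adj a (hY ha) b (hY hb) e)⟩
  apply Set.Subset.antisymm
  · rintro _ ⟨x, hx, rfl⟩
    exact ⟨hm x hx.1, hx.2.map hh⟩
  · intro b hb
    have e := hb.2.map hh
    rw [h.inv y (hY hy)] at e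
    exact ⟨τ b, ⟨hm b hb.1, e⟩, h.inv b (hY hb.1)⟩

theorem exists_rset {τ : S.V → S.V} (h : Invo S τ) {D Y0 Q : Set S.V} (hD : D ⊆ S.A)
    (hne : NE S.G D (τ '' D)) (hr : Root S.G (τ '' D) S.T (D ∩ τ '' D) Y0 Q) :
    ∃ R Z, RSet S.G τ D S.T Y0 Q R Z := by
  obtain ⟨y, hy, hY0⟩ := hr.comp
  have hE : τ '' D ⊆ S.A := img_sub_L3 h hD
  have hQ : Q ⊆ S.A := hr.subset.trans hE
  have hm : ∀ u ∈ D ∩ τ '' D, τ u ∈ D ∩ τ '' D := fun u hu =>
    ⟨(mem_img_L3 h hD (hD hu.1)).1 hu.2, ⟨u, hu.1, rfl⟩⟩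
  have hc := img_cmp_L3 h (Set.inter_subset_left.trans hD) hm hy
  rw [← hY0] at hc
  have cY : Con S.G Y0 := hY0 ▸ con_cmp hy
  have y1 : ∀ u ∈ Y0, u ∈ Q ∧ u ∈ D := fun u hu => by
    rw [← hr.inter] at hu
    exact ⟨hu.1, hu.2.1⟩
  have y2 : ∀ u ∈ Q, u ∈ D → u ∈ Y0 := fun u hu hd => by
    rw [← hr.inter]
    exact ⟨hu, hd, hr.subset hu⟩
  have y3 : τ '' Q ⊆ D := by
    rintro _ ⟨u, hu, rfl⟩
    exact (mem_img_L3 h hD (hQ hu)).1 (hr.subset hu)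
  have y4 : ∀ u ∈ τ '' Q, u ∈ τ '' D → u ∈ τ '' Y0 := by
    rintro _ ⟨u, hu, rfl⟩ hd
    have e := (mem_img_L3 h hD (h.mem u (hQ hu))).1 hd
    rw [h.inv u (hQ hu)] at e
    exact ⟨u, y2 u hu e, rfl⟩
  have y5 : τ '' Y0 ⊆ τ '' Q := Set.image_mono fun u hu => (y1 u hu).1
  rcases cmp_eq_or_far (G := S.G) (A := D ∩ τ '' D) y (τ y) with e | e
  · rw [← hc, ← hY0] at e
    have z1 : Y0 ⊆ τ '' Q := fun u hu => y5 (e ▸ hu)
    have z2 : ∀ u ∈ τ '' Q, u ∈ τ '' D → u ∈ Y0 := fun u hu hd => e ▸ y4 u hu hd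
    have cQ : Con S.G (τ '' Q) := (IsIso.con (h.iso hQ)).1 hr.con
    have hn : NE S.G Q (τ '' Q) := fun a ha b hb hab =>
      hne b ⟨y3 hb.1, fun c => hb.2 (y1 b (z2 b hb.1 c)).1⟩ a
        ⟨hr.subset ha.1, fun c => ha.2 (z1 (y2 a ha.1 c))⟩ hab.symm
    have hi : Q ∩ τ '' Q = Y0 := Set.Subset.antisymm (fun u hu => y2 u hu.1 (y3 hu.2))
      fun u hu => ⟨(y1 u hu).1, z1 hu⟩
    have hT : Q ∩ S.T = ∅ → (Q ∪ τ '' Q) ∩ S.T = ∅ := fun c => by
      rw [Set.union_inter_distrib_right, ← img_T_L3 h hQ, c, Set.image_empty, Set.union_empty]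
    obtain ⟨x, hx⟩ := cY.1
    refine ⟨Q ∪ τ '' Q, τ '' Q, Set.union_subset (fun u hu => Or.inr (hr.subset hu))
      fun u hu => Or.inl (y3 hu), ⟨⟨x, Or.inl (y1 x hx).1⟩,
        hr.con.2.union cQ.2 (y1 x hx).1 (z1 hx) (Or.inl rfl)⟩,
      glue_triv hn.cov2 hr.ndc ((IsIso.triv (h.iso hQ)).1 hr.ndc) (hi ▸ cY.2), ?_, ?_, ?_, cQ, ?_, ?_,
      Or.inl ⟨?_, rfl⟩⟩
    · rcases (Y0 ∩ S.T).eq_empty_or_nonempty with c | ⟨z, hz⟩
      · rw [hT (hr.empty c)]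
        exact pre_empty
      · rw [Set.union_inter_distrib_right]
        refine hr.preT.union ?_ ⟨(y1 z hz.1).1, hz.2⟩ ⟨z1 hz.1, hz.2⟩ (Or.inl rfl)
        rw [← img_T_L3 h hQ]
        exact (IsIso.pre (h.iso (Set.inter_subset_left.trans hQ))).1 hr.preT
    · exact Set.Subset.antisymm (fun u hu => hu.1.elim (fun c => z1 (y2 u c hu.2)) id)
        fun u hu => ⟨Or.inr hu, y3 hu⟩
    · exact Set.Subset.antisymm (fun u hu => hu.1.elim id fun c => (y1 u (z2 u c hu.2)).1)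
        fun u hu => ⟨Or.inl hu, hr.subset hu⟩
    · exact Set.Subset.antisymm (fun u hu => z2 u hu.1 hu.2)
        fun u hu => ⟨z1 hu, hr.subset (y1 u hu).1⟩
    · intro c
      rw [← img_T_L3 h hQ, Set.image_eq_empty] at c
      exact hT c
    · rw [Set.image_union, h.image_image hQ, Set.union_comm]
  · rw [← hc, ← hY0] at e
    refine ⟨Q, Y0, fun u hu => Or.inr (hr.subset hu), hr.con, hr.ndc, hr.preT,
      Set.Subset.antisymm (fun u hu => y2 u hu.1 hu.2) y1,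
      Set.inter_eq_left.2 hr.subset, cY, Set.inter_eq_left.2 fun u hu => hr.subset (y1 u hu).1,
      hr.empty, Or.inr fun a ha b hb hab => ?_⟩
    have n1 : ∀ u ∈ Q, u ∉ τ '' Q := fun u hu hu' =>
      e u (y2 u hu (y3 hu')) u (y4 u hu' (hr.subset hu)) (Or.inl rfl)
    rcases hab with rfl | hab
    · exact n1 a ha hb
    have hbA : b ∈ S.A := img_sub_L3 h hQ hb
    by_cases c1 : a ∈ D
    · refine e a (y2 a ha c1) b ((mem_img_L3 h (fun u hu => hQ (y1 u hu).1) hbA).2 ?_)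
        (Or.inr hab)
      by_contra c
      exact hr.sep (τ a) ⟨⟨a, c1, rfl⟩, fun c' => n1 a ha ((mem_img_L3 h hQ (hQ ha)).2 c')⟩ (τ b)
        ⟨(mem_img_L3 h hQ hbA).1 hb, c⟩ (h.adj a (hQ ha) b hbA hab)
    by_cases c2 : b ∈ τ '' D
    · exact hr.sep b ⟨c2, fun c => n1 b c hb⟩ a ⟨ha, fun c => c1 (y1 a c).2⟩ hab.symm
    · exact hne b ⟨y3 hb, c2⟩ a ⟨hr.subset ha, c1⟩ hab.symm

end Pool.Agent.MP_6374aa_g

end

section

/-! Unions of manifolds along a common part of the boundary. -/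

namespace Pool.Agent.MP_6374aa_g

open Pool.Agent.MP_6374aa_gt Classical

variable {V V' V'' : Type} {G : SimpleGraph V} {G' : SimpleGraph V'} {G'' : SimpleGraph V''}
  {A : Set V} {A' : Set V'} {A'' : Set V''} {L : Type} [Group L]

theorem mem_lk_C4 {v w : V} : w ∈ Lk G A {v} ↔ w ∈ A ∧ G.Adj v w := by
  simp [Lk]

theorem clq_empty_C4 : Clq G A ∅ := ⟨by simp, by simp⟩

theorem clq_single_C4 {v : V} (hv : v ∈ A) : Clq G A {v} := ⟨by simpa using hv, by simp⟩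

theorem clq_insert_C4 {v : V} (hv : v ∈ A) {s : Finset V} (hs : Clq G (Lk G A {v}) s) :
    insert v s ∈ sA G A := by
  have h := (clq_lk (clq_single_C4 (G := G) hv) (t := s)).1 (by simpa using hs)
  refine ⟨Finset.insert_nonempty _ _, ?_⟩
  have h1 := h.1
  rw [← Finset.insert_eq] at h1
  exact h1

theorem lk_left_C4 {X Y : Set V} (hne : NE G X Y) {v : V} (hv : v ∈ X) (hY : v ∉ Y) :
    Lk G (X ∪ Y) {v} = Lk G X {v} := by
  ext w
  simp only [mem_lk_C4, Set.mem_union]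
  constructor
  · rintro ⟨h1, h2⟩
    refine ⟨?_, h2⟩
    by_contra hw
    exact hne v ⟨hv, hY⟩ w ⟨h1.resolve_left hw, hw⟩ h2
  · rintro ⟨h1, h2⟩
    exact ⟨Or.inl h1, h2⟩

/-- The links of the vertices outside the intersection. -/
theorem link_out_C4 {d : ℕ} {X Y : Set V} {β1 β2 β0 : Finset V → Prop}
    (h1 : Mfa G d X β1 X) (h2 : Mfa G d Y β2 Y) (hne : NE G X Y) {v : V} (hv : v ∈ X ∪ Y)
    (hn : v ∉ X ∩ Y) : Cell G d (Lk G (X ∪ Y) {v}) fun s =>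
      if ↑(insert v s) ⊆ X ∩ Y then β0 (insert v s) else
        if ↑(insert v s) ⊆ X then β1 (insert v s) else β2 (insert v s) := by
  have e0 : ∀ s : Finset V, ¬ (↑(insert v s) ⊆ X ∩ Y) := fun s h =>
    hn (h (Finset.mem_coe.2 (Finset.mem_insert_self v s)))
  by_cases hX : v ∈ X
  · have hY : v ∉ Y := fun h => hn ⟨hX, h⟩
    rw [lk_left_C4 hne hX hY]
    refine (h1 v hX).congr fun s hs => ?_
    rw [if_neg (e0 s), if_pos (clq_insert_C4 hX hs).2.1]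
  · have hY : v ∈ Y := hv.resolve_left hX
    rw [Set.union_comm, lk_left_C4 hne.symm hY hX]
    refine (h2 v hY).congr fun s _ => ?_
    have e1 : ¬ (↑(insert v s) ⊆ X) := fun h =>
      hX (h (Finset.mem_coe.2 (Finset.mem_insert_self v s)))
    rw [if_neg (e0 s), if_neg e1]

/-- The statement for cells, without subdivision. -/
def CU_C4 (G : SimpleGraph V) (d : ℕ) : Prop :=
  ∀ (X Y : Set V) (β1 β2 β0 : Finset V → Prop), Cell G (d + 1) X β1 → Cell G (d + 1) Y β2 →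
    Cell G d (X ∩ Y) β0 → (∀ s, Clq G (X ∩ Y) s → β1 s ∧ β2 s) → NE G X Y →
    Cell G (d + 1) (X ∪ Y) fun s => if ↑s ⊆ X ∩ Y then β0 s else if ↑s ⊆ X then β1 s else β2 s

theorem mfa_step_C4 {d : ℕ} (ih : CU_C4 G d) {X Y : Set V} {β1 β2 β0 : Finset V → Prop}
    (h1 : Mfa G (d + 1) X β1 X) (h2 : Mfa G (d + 1) Y β2 Y) (h0 : Mfa G d (X ∩ Y) β0 (X ∩ Y))
    (hb : ∀ s ∈ sA G (X ∩ Y), β1 s ∧ β2 s) (hne : NE G X Y) :
    Mfa G (d + 1) (X ∪ Y) (fun s =>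
      if ↑s ⊆ X ∩ Y then β0 s else if ↑s ⊆ X then β1 s else β2 s) (X ∪ Y) := by
  intro v hv
  by_cases hn : v ∈ X ∩ Y
  · have e1 : Lk G (X ∪ Y) {v} = Lk G X {v} ∪ Lk G Y {v} := by
      ext w
      simp only [mem_lk_C4, Set.mem_union]
      tauto
    have e2 : Lk G (X ∩ Y) {v} = Lk G X {v} ∩ Lk G Y {v} := by
      ext w
      simp only [mem_lk_C4, Set.mem_inter_iff]
      tauto
    have hne' : NE G (Lk G X {v}) (Lk G Y {v}) := by
      intro a ha b hb'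
      have ha1 := mem_lk_C4.1 ha.1
      have hb1 := mem_lk_C4.1 hb'.1
      exact hne a ⟨ha1.1, fun h => ha.2 (mem_lk_C4.2 ⟨h, ha1.2⟩)⟩ b
        ⟨hb1.1, fun h => hb'.2 (mem_lk_C4.2 ⟨h, hb1.2⟩)⟩
    have k := ih _ _ _ _ _ (h1 v hn.1) (h2 v hn.2) (e2 ▸ h0 v hn)
      (fun s hs => hb _ (clq_insert_C4 hn (e2 ▸ hs))) hne'
    rw [e1]
    refine k.congr fun s hs => ?_
    have hadj : ∀ w ∈ s, G.Adj v w := fun w hw => by
      rcases hs.1 (Finset.mem_coe.2 hw) with h | h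
      · exact (mem_lk_C4.1 h).2
      · exact (mem_lk_C4.1 h).2
    have e3 : ∀ Z : Set V, v ∈ Z → (↑s ⊆ Lk G Z {v} ↔ ↑(insert v s) ⊆ Z) := by
      intro Z hZ
      rw [Finset.coe_insert, Set.insert_subset_iff]
      constructor
      · intro h
        exact ⟨hZ, fun w hw => (mem_lk_C4.1 (h hw)).1⟩
      · intro h w hw
        exact mem_lk_C4.2 ⟨h.2 hw, hadj w (Finset.mem_coe.1 hw)⟩
    rw [← e2]
    simp only [e3 _ hn, e3 _ hn.1]
  · exact link_out_C4 h1 h2 hne hv hn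

theorem cu_zero_C4 : CU_C4 G 0 := by
  intro X Y β1 β2 β0 h1 h2 h0 hb hne
  have hXY : X ∩ Y = ∅ := h0.1
  have c1 : X.ncard = 1 := by simpa using h1.2.2.1.1 (hb ∅ clq_empty_C4).1
  have c2 : Y.ncard = 1 := by simpa using h2.2.2.1.1 (hb ∅ clq_empty_C4).2
  have c3 : (X ∪ Y).ncard = 2 := by
    rw [Set.ncard_union_eq (Set.disjoint_iff_inter_eq_empty.2 hXY) h1.1 h2.1, c1, c2]
  refine ⟨h1.1.union h2.1, Or.inr c3, ?_, fun v hv => ?_⟩
  · have h3 : ¬ β0 ∅ := h0.2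
    simp [c3, h3]
  · exact link_out_C4 h1.mfa h2.mfa hne hv (by rw [hXY]; simp)

theorem cu_succ_C4 {d : ℕ} (hd : d ≤ 1) (ih : CU_C4 G d) : CU_C4 G (d + 1) := by
  intro X Y β1 β2 β0 h1 h2 h0 hb hne
  have hm := mfa_step_C4 ih h1.mfa h2.mfa h0.mfa (fun s hs => hb s hs.2) hne
  obtain ⟨a, ha⟩ := h0.nonempty
  have hc : Con G (X ∪ Y) := ⟨⟨a, Or.inl ha.1⟩, h1.con.2.union h2.con.2 ha.1 ha.2 (adq_refl a)⟩
  have hf : (X ∪ Y).Finite := h1.finite.union h2.finite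
  have hβ : β0 ∅ ↔ ∃ v ∈ X ∪ Y, if (↑({v} : Finset V) : Set V) ⊆ X ∩ Y then β0 {v} else
      if (↑({v} : Finset V) : Set V) ⊆ X then β1 {v} else β2 {v} := by
    constructor
    · intro h
      rcases Nat.eq_zero_or_pos d with rfl | hp
      · have c0 : (X ∩ Y).ncard = 1 := by simpa using h0.2.2.1.1 h
        have c1 := h1.arc_ends (hb ∅ clq_empty_C4).1
        have : ∃ v ∈ {v | v ∈ X ∧ β1 {v}}, v ∉ X ∩ Y :=
          Set.exists_mem_notMem_of_ncard_lt_ncard (by omega) h0.finite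
        obtain ⟨v, hv, hn⟩ := this
        refine ⟨v, Or.inl hv.1, ?_⟩
        rw [if_neg (by simpa using hn), if_pos (by simpa using hv.1)]
        exact hv.2
      · have h3 := h0.2.2.1.1 h
        rw [if_neg (by omega)] at h3
        obtain ⟨v, hv, hv'⟩ := h3
        refine ⟨v, Or.inl hv.1, ?_⟩
        rw [if_pos (by simpa using hv)]
        exact hv'
    · rintro ⟨v, hv, h⟩
      by_contra hn
      have hf0 : ∀ s, Clq G (X ∩ Y) s → (β0 s ↔ False) := fun s hs =>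
        ⟨fun h' => hn (h0.down hs (Finset.empty_subset s) h'), False.elim⟩
      have hs : Sph G (d + 1) (X ∩ Y) := h0.congr hf0
      by_cases e1 : (↑({v} : Finset V) : Set V) ⊆ X ∩ Y
      · rw [if_pos e1] at h
        exact (hf0 _ ⟨e1, by simp⟩).1 h
      · rw [if_neg e1] at h
        by_cases e2 : (↑({v} : Finset V) : Set V) ⊆ X
        · rw [if_pos e2] at h
          exact e1 (h1.bd_all (by omega) Set.inter_subset_left hs (fun s hs => (hb s hs).1)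
            ⟨e2, by simp⟩ h)
        · rw [if_neg e2] at h
          have hY : v ∈ Y := hv.resolve_left (by simpa using e2)
          exact e1 (h2.bd_all (by omega) Set.inter_subset_right hs (fun s hs => (hb s hs).2)
            (clq_single_C4 hY) h)
  rcases Nat.eq_zero_or_pos d with rfl | hp
  · refine cell_two hf hc hm ?_
    rw [if_pos (by simp)]
    exact hβ
  · obtain rfl : d = 1 := by omega
    refine cell_three hf hc (glue_triv hne.cov2 h1.ndc h2.ndc h0.con.2) hm ?_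
    rw [if_pos (by simp)]
    exact hβ

theorem cu_C4 {d : ℕ} (hd : d ≤ 2) : CU_C4 G d := by
  induction d with
  | zero => exact cu_zero_C4
  | succ d ih => exact cu_succ_C4 (by omega) (ih (by omega))

theorem top_clq_C4 {σ : Finset (Finset V)} (h : Clq (sG V) (sA G A) σ) : Clq G A (top σ) := by
  rcases σ.eq_empty_or_nonempty with rfl | hn
  · exact clq_empty_C4
  · exact (h.1 (Finset.mem_coe.2 (top_mem (P := sA G A) ⟨hn, h⟩))).2

theorem sub_sA_C4 {X Y Z : Set V} {σ : Finset (Finset V)} (h : ↑σ ⊆ sU G X Y) :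
    ↑σ ⊆ sA G Z ↔ ↑(top σ) ⊆ Z := by
  rw [top_subset_iff]
  constructor
  · intro h1 s hs
    exact (h1 hs).2.1
  · intro h1 s hs
    rcases h hs with h2 | h2
    · exact ⟨h2.1, h1 hs, h2.2.2⟩
    · exact ⟨h2.1, h1 hs, h2.2.2⟩

theorem nb_self_C4 : nb G A A = sA G A := by
  ext s
  constructor
  · exact fun h => h.1
  · intro h
    obtain ⟨v, hv⟩ := h.1
    exact ⟨h, v, hv, h.2.1 (Finset.mem_coe.2 hv)⟩

theorem Cell.union {d : ℕ} {X Y : Set V} {β1 β2 β0 : Finset V → Prop} (h1 : Cell G (d + 1) X β1)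
    (h2 : Cell G (d + 1) Y β2) (h0 : Cell G d (X ∩ Y) β0) (hd : d ≤ 2)
    (hb : ∀ s, Clq G (X ∩ Y) s → β1 s ∧ β2 s) :
    Cell (sG V) (d + 1) (sU G X Y) fun σ =>
      if ↑(top σ) ⊆ X ∩ Y then β0 (top σ) else if ↑(top σ) ⊆ X then β1 (top σ) else β2 (top σ) := by
  have e := sA_inter' (G := G) (A := X) Y
  have k := cu_C4 hd _ _ _ _ _ (h1.sd (by omega)) (h2.sd (by omega)) (e ▸ h0.sd (by omega))
    (fun σ hσ => hb _ (top_clq_C4 (e ▸ hσ))) (ne_sA X Y)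
  refine k.congr fun σ hσ => ?_
  rw [← e]
  simp only [sub_sA_C4 (G := G) (X := X) (Y := Y) hσ.1]

/-- The version without subdivision. -/
theorem Mfa.union_ne {d : ℕ} {X Y : Set V} {β1 β2 β0 : Finset V → Prop}
    (h1 : Mfa G (d + 1) X β1 X) (h2 : Mfa G (d + 1) Y β2 Y) (h0 : Mfa G d (X ∩ Y) β0 (X ∩ Y))
    (hd : d ≤ 2) (hb : ∀ s ∈ sA G (X ∩ Y), β1 s ∧ β2 s) (hne : NE G X Y) :
    Mfa G (d + 1) (X ∪ Y) (fun s =>
      if ↑s ⊆ X ∩ Y then β0 s else if ↑s ⊆ X then β1 s else β2 s) (X ∪ Y) :=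
  mfa_step_C4 (cu_C4 hd) h1 h2 h0 hb hne

theorem Mfa.union {d : ℕ} {X Y : Set V} {β1 β2 β0 : Finset V → Prop} (h1 : Mfa G (d + 1) X β1 X)
    (h2 : Mfa G (d + 1) Y β2 Y) (h0 : Mfa G d (X ∩ Y) β0 (X ∩ Y)) (hd : d ≤ 2)
    (hb : ∀ s ∈ sA G (X ∩ Y), β1 s ∧ β2 s) :
    Mfa (sG V) (d + 1) (sU G X Y) (fun σ =>
      if ↑(top σ) ⊆ X ∩ Y then β0 (top σ) else if ↑(top σ) ⊆ X then β1 (top σ) else β2 (top σ))
      (sU G X Y) := by
  have e := sA_inter' (G := G) (A := X) Y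
  have k1 := h1.sd (by omega)
  have k2 := h2.sd (by omega)
  have k0 := h0.sd (by omega)
  rw [nb_self_C4] at k1 k2 k0
  rw [e] at k0
  have k := Mfa.union_ne k1 k2 k0 hd
    (fun σ hσ => hb _ (by rw [e]; exact hσ.2.1 (Finset.mem_coe.2 (top_mem hσ)))) (ne_sA X Y)
  refine k.congr subset_rfl fun σ hσ => ?_
  rw [← e]
  simp only [sub_sA_C4 (G := G) (X := X) (Y := Y) hσ.2.1]

theorem cov2_sU (X Y : Set V) : Cov2 (sG V) (sU G X Y) (sA G X) (sA G Y) :=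
  (ne_sA X Y).cov2

end Pool.Agent.MP_6374aa_g

end

section

/-! Frontiers of subcomplexes without double cover are discs and spheres. -/

namespace Pool.Agent.MP_6374aa_g

open Pool.Agent.MP_6374aa_gt Classical

variable {V V' V'' : Type} {G : SimpleGraph V} {G' : SimpleGraph V'} {G'' : SimpleGraph V''}
  {A : Set V} {A' : Set V'} {A'' : Set V''} {L : Type} [Group L]

theorem nb_fin_H9 {d : ℕ} {β : Finset V → Prop} {Q : Set V} (hf : (A ∩ Q).Finite)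
    (h : Mfa G d A β (A ∩ Q)) : (nb G A Q).Finite := by
  refine (sA_finite (G := G) (hf.biUnion fun v hv => (h.lk_finite hv).insert v)).subset ?_
  rintro s ⟨hs, v, hv, hQ⟩
  refine ⟨hs.1, fun u hu => Set.mem_biUnion (x := v) ⟨hs.2.1 hv, hQ⟩ ?_, hs.2.2⟩
  rcases (mem_sA.1 hs).2.2 v hv u hu with e | e
  · exact Or.inl e.symm
  · exact Or.inr ⟨hs.2.1 hu, fun w hw => hw ▸ e⟩

theorem nb_inter_H9 {T Q : Set V} : nb G (A ∩ T) Q = nb G A Q ∩ ins T := by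
  ext s
  simp only [nb, sA_inter, Set.mem_inter_iff, Set.mem_ofPred_eq]
  tauto

/-- The boundary of the neighbourhood is a closed surface without double cover. -/
theorem bd_H9 {T Q : Set V} (hQ : Q ⊆ A) (hf : Q.Finite) (h : Mfa G 3 A (sub T) Q)
    (hn : NDC G Q) : (sU (sG V) (nb G (A ∩ T) Q) (fr G A Q)).Finite ∧
      Mf (sG (Finset V)) 2 (sU (sG V) (nb G (A ∩ T) Q) (fr G A Q)) ∅ ∧
      NDC (sG (Finset V)) (sU (sG V) (nb G (A ∩ T) Q) (fr G A Q)) := by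
  have e : A ∩ Q = Q := Set.inter_eq_right.2 hQ
  have h1 : Mfa G 3 A (sub T) (A ∩ Q) := by rwa [e]
  have h2 := (h1.nb le_rfl).sd_full le_rfl
  have h3 := sA_finite (G := sG V) (nb_fin_H9 (by rwa [e]) h1)
  have h4 : sU (sG V) (nb G (A ∩ T) Q) (fr G A Q) = sA (sG V) (nb G A Q) ∩
      {σ | sub T (top σ) ∨ ↑σ ⊆ fr G A Q} := by
    have e2 : fr G A Q = nb G A Q ∩ fr G A Q :=
      (Set.inter_eq_right.2 fun s (hs : s ∈ fr G A Q) =>
        show s ∈ nb G A Q from ⟨hs.1, hs.2.1⟩).symm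
    rw [sU, nb_inter_H9, e2, sA_inter, sA_inter, ← e2, ← Set.inter_union_distrib_left]
    congr 1
    ext σ
    exact or_congr_left top_subset_iff.symm
  rw [h4]
  exact ⟨h3.subset Set.inter_subset_left, h2.bd le_rfl,
    bd_ndc h2 h3 (triv_sA.2 (triv_nb.2 (by rwa [e])))⟩

theorem fr_H9 {T Q : Set V} (hQ : Q ⊆ A) (hf : Q.Finite) (h : Mfa G 3 A (sub T) Q)
    (hn : NDC G Q) (hp : Pre G (Q ∩ T)) :
    (fr G A Q).Finite ∧ Mf (sG V) 2 (fr G A Q) (ins T) ∧ NDC (sG V) (fr G A Q) := by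
  have e : A ∩ Q = Q := Set.inter_eq_right.2 hQ
  have h1 : Mfa G 3 A (sub T) (A ∩ Q) := by rwa [e]
  obtain ⟨a1, a2, a3⟩ := bd_H9 hQ hf h hn
  refine ⟨(nb_fin_H9 (by rwa [e]) h1).subset fun s hs => ⟨hs.1, hs.2.1⟩,
    (Mfa.fr (d := 2) h1 le_rfl).congr subset_rfl fun _ _ => top_subset_iff, triv_sA.1 ?_⟩
  have e1 : nb G (A ∩ T) Q ∩ (fr G A Q)ᶜ = sA G (Q ∩ T) := by
    ext s
    constructor
    · rintro ⟨⟨c1, c2⟩, c3⟩
      have c4 : ↑s ⊆ Q := by_contra fun c => c3 ⟨sA_mono Set.inter_subset_left c1, c2, c⟩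
      exact ⟨c1.1, fun u hu => ⟨c4 hu, (c1.2.1 hu).2⟩, c1.2.2⟩
    · intro c
      obtain ⟨u, hu⟩ := c.1
      exact ⟨⟨sA_mono (Set.inter_subset_inter_left T hQ) c, u, hu, (c.2.1 hu).1⟩,
        fun c' => c'.2.2 fun w hw => (c.2.1 hw).1⟩
  have e2 : sA (sG V) (fr G A Q) = sU (sG V) (nb G (A ∩ T) Q) (fr G A Q) \
      nb (sG V) (nb G (A ∩ T) Q) (fr G A Q)ᶜ := by
    ext σ
    constructor
    · exact fun c => ⟨Or.inr c, fun ⟨_, u, hu, c'⟩ => c' (c.2.1 hu)⟩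
    · rintro ⟨c | c, c'⟩
      · exact ⟨c.1, fun u hu => by_contra fun k => c' ⟨c, u, hu, k⟩, c.2.2⟩
      · exact c
  have h2 : Pre (sG (Finset V)) (nb (sG V) (nb G (A ∩ T) Q) (fr G A Q)ᶜ) :=
    pre_nb.2 (e1 ▸ pre_sA.2 hp)
  rw [e2]
  rcases (nb (sG V) (nb G (A ∩ T) Q) (fr G A Q)ᶜ).eq_empty_or_nonempty with c | c
  · rwa [c, Set.sdiff_empty]
  · intro θ hθ
    obtain ⟨θ', b1, b2⟩ := ext_two (mf_empty_iff.1 a2) a1 (fun σ hσ => Or.inl hσ.1) ⟨c, h2⟩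
      (Or.inl fun _ _ => id) hθ
    exact ((a3 θ' b1).mono Set.sdiff_subset).congr fun u hu w hw k => (b2 u hu w hw k).symm

theorem fr_disc {T Q : Set V} (hQ : Q ⊆ A) (hf : Q.Finite) (h : Mfa G 3 A (sub T) Q)
    (hc : Con G Q) (hn : NDC G Q) (hp : Pre G (Q ∩ T)) {s : Finset V} (hs : s ∈ fr G A Q) :
    (cmp (sG V) (fr G A Q) s ∩ ins T = ∅ ∧ Sph (sG V) 3 (cmp (sG V) (fr G A Q) s)) ∨
      Ball (sG V) 3 (cmp (sG V) (fr G A Q) s) (ins T) := by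
  obtain ⟨a1, a2, a3⟩ := fr_H9 hQ hf h hn hp
  exact (mf_two_cell (T := ins T) (Mfa.clopen (a2.mono (cmp_subset s)) (clopen_cmp s))
    (a1.subset (cmp_subset s)) (con_cmp hs) (a3.clopen (clopen_cmp s))).imp_right And.right

theorem fr_sco {T Q : Set V} (hQ : Q ⊆ A) (hf : Q.Finite) (h : Mfa G 3 A (sub T) Q)
    (hc : Con G Q) (hn : NDC G Q) (hp : Pre G (Q ∩ T)) : SCo (sG V) (fr G A Q) := by
  obtain ⟨a1, a2, a3⟩ := fr_H9 hQ hf h hn hp
  exact mfa_two_sco a2 a1 a3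

theorem fr_disc_lab {T Q : Set V} (hQ : Q ⊆ A) (hf : Q.Finite) (h : Mfa G 3 A (sub T) Q)
    (hc : Con G Q) (hn : NDC G Q) (hp : Pre G (Q ∩ T)) {lab : Finset V → Finset V → L}
    (hl : Flat (sG V) (nb G (A ∩ T) Q) lab) (hnp : ¬ Pot (sG V) (nb G (A ∩ T) Q) lab) :
    ∃ s ∈ fr G A Q, Ball (sG V) 3 (cmp (sG V) (fr G A Q) s) (ins T) ∧
      ¬ Pot (sG V) (cmp (sG V) (fr G A Q) s ∩ ins T) lab := by
  by_contra c
  obtain ⟨a1, a2, a3⟩ := bd_H9 hQ hf h hn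
  have h1 : Pot (sG V) (nb G (A ∩ T) Q ∩ fr G A Q) lab := pot_of_cmp fun s hs => by
    have e : s ∈ ins T := (nb_inter_H9.subset hs.1).2
    have h2 := ((fr_disc hQ hf h hc hn hp hs.2).resolve_left fun k =>
      k.1.subset ⟨mem_cmp_self hs.2, e⟩)
    refine Pot.mono (by_contra fun k => c ⟨s, hs.2, h2, k⟩) fun t ht =>
      ⟨⟨ht.1.2, ht.2.mono Set.inter_subset_right⟩, (nb_inter_H9.subset ht.1.1).2⟩
  obtain ⟨lab', b1, b2, -⟩ := glue_ext (cov2_sU (G := sG V)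
    (nb G (A ∩ T) Q) (fr G A Q)) (flat_pull hl (top_pe _).hom)
    (by
      rw [← sA_inter']
      exact h1.pull (top_pe _).hom)
  exact hnp (((top_pe _).pot hl).1 (((mfa_two_sco a2 a1 a3 L lab' b1).mono
    Set.subset_union_left).congr fun u hu w hw k => (b2 u hu w hw k).symm))

theorem nb_finite {d : ℕ} {β : Finset V → Prop} {Q : Set V} (hf : (A ∩ Q).Finite)
    (h : Mfa G d A β (A ∩ Q)) : (nb G A Q).Finite := by
  exact nb_fin_H9 hf h

end Pool.Agent.MP_6374aa_g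

end

section

/-! The finishing case of the descent. -/

namespace Pool.Agent.MP_6374aa_g

open Pool.Agent.MP_6374aa_gt Classical

variable {V V' V'' : Type} {G : SimpleGraph V} {G' : SimpleGraph V'} {G'' : SimpleGraph V''}
  {A : Set V} {A' : Set V'} {A'' : Set V''} {L : Type} [Group L]

variable {S S' : Setup L}

theorem descent_finish (hv : S.Valid) {τ : S.V → S.V} (h : Invo S τ) {D Y0 Q R Z : Set S.V}
    (hD : S.Disc D) (hr : RSet S.G τ D S.T Y0 Q R Z)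
    (hnp : ¬ Pot (sG S.V) (nb S.G (S.A ∩ S.T) R) S.sd.lab) :
    ∃ F, S.sd.Disc F ∧ Disjoint F (Finset.image τ '' F) := by
  have hC : R ⊆ S.C := fun x hx => by
    rcases hr.subset hx with e | ⟨y, hy, rfl⟩
    · exact hD.subC e
    · exact h.core y (hD.subC hy)
  have hA : R ⊆ S.A := hC.trans hv.subC
  have hf : R.Finite := ((Cell.finite hD.ball).union ((Cell.finite hD.ball).image τ)).subset hr.subset
  have hB : ∀ x ∈ R, x ∈ S.T → x ∈ S.B := fun x hx hT => by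
    rcases hr.subset hx with e | ⟨y, hy, rfl⟩
    · exact hD.subB ⟨e, hT⟩
    · have hyA := hv.subC (hD.subC hy)
      have := h.bd _ (h.mem y hyA) hT
      rw [h.inv y hyA] at this
      exact h.mapB y (hD.subB ⟨hy, this⟩)
  have hnb : nb S.G (S.A ∩ S.T) R ⊆ S.sd.B := by
    rintro t ⟨h1, x, h2, h3⟩
    exact ⟨h1, x, h2, hB x h3 (h1.2.1 (Finset.mem_coe.2 h2)).2⟩
  obtain ⟨s, hs, b1, b2⟩ := fr_disc_lab hA hf (hv.mf.mono hC) hr.con hr.ndc hr.preT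
    (hv.sd.flat.mono hnb) hnp
  have hF : cmp (sG S.V) (fr S.G S.A R) s ⊆ fr S.G S.A R := cmp_subset s
  have hFn : cmp (sG S.V) (fr S.G S.A R) s ⊆ nb S.G S.A R := fun t ht => ⟨(hF ht).1, (hF ht).2.1⟩
  refine ⟨cmp (sG S.V) (fr S.G S.A R) s, ⟨fun t ht => ?_, b1, fun t ht => hnb ?_, b2⟩, ?_⟩
  · obtain ⟨h1, x, h2, h3⟩ := hFn ht
    exact ⟨h1, x, h2, hC h3⟩
  · obtain ⟨h1, h2⟩ := hFn ht.1
    exact ⟨⟨h1.1, Set.subset_inter h1.2.1 ht.2, h1.2.2⟩, h2⟩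
  · rcases hr.alt with ⟨e, -⟩ | e
    · have e1 : Finset.image τ '' fr S.G S.A R = fr S.G S.A R := by
        rw [h.image_fr le_rfl hA, h.image_A, e]
      have hh : IsHom (sG S.V) (fr S.G S.A R) (sG S.V) (fr S.G S.A R) (Finset.image τ) :=
        ⟨fun a ha => e1.subset ⟨a, ha, rfl⟩, fun a ha b hb k => Or.inr (h.sd.adj a ha.1 b hb.1 k)⟩
      rw [Set.disjoint_left]
      rintro _ ht ⟨t, ht', rfl⟩
      refine Cell.no_invol b1 (by simp [sub]) (τ := Finset.image τ) (fun a ha => ⟨⟨hh.1 a ha.1,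
        ht.2.trans ((ht'.2.symm.trans ha.2).map hh)⟩, h.sd.inv a (hF ha).1,
        h.sd.tw a (hF ha).1 a (hF ha).1 (adq_refl a)⟩) fun a ha b hb k => ?_
      exact h.sd.adj a (hF ha).1 b (hF hb).1 k
    · have e1 : Finset.image τ '' nb S.G S.A R = nb S.G S.A (τ '' R) := by
        rw [h.image_nb le_rfl hA, h.image_A]
      exact (far_nb (A := S.A) e).disjoint.mono hFn ((Set.image_mono hFn).trans e1.subset)

end Pool.Agent.MP_6374aa_g

end

section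

/-! The replacing disc. -/

namespace Pool.Agent.MP_6374aa_g

open Pool.Agent.MP_6374aa_gt Classical

variable {V V' V'' : Type} {G : SimpleGraph V} {G' : SimpleGraph V'} {G'' : SimpleGraph V''}
  {A : Set V} {A' : Set V'} {A'' : Set V''} {L : Type} [Group L]

variable {S S' : Setup L}

theorem side_L5 {d : ℕ} {c P X : Set V} (h : Split G d A c P) (hX : Pre G X) (hXA : X ⊆ A)
    (hc : Disjoint X c) : X ⊆ P ∨ Disjoint X P := by
  by_cases hd : Disjoint X P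
  · exact Or.inr hd
  obtain ⟨x, hx, hxP⟩ := Set.not_disjoint_iff.1 hd
  refine Or.inl fun y hy => ?_
  have key : ∀ a ∈ X, ∀ b ∈ X, G.Adj a b → a ∈ P → b ∈ P := fun a _ b hb hab ha => by
    by_contra hbP
    exact h.sep a ha b ⟨hXA hb, fun e => e.elim (Set.disjoint_left.1 hc hb) hbP⟩ hab
  have := hX.const (φ := fun a => a ∈ P)
    (fun a ha b hb hab => propext ⟨key a ha b hb hab, key b hb a ha hab.symm⟩) hx hy
  exact this ▸ hxP

theorem cmp_L5 {X : Set V} (hX : Pre G X) (hXA : X ⊆ A) (a : V) :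
    X ⊆ cmp G A a ∨ Disjoint X (cmp G A a) := by
  by_cases hd : Disjoint X (cmp G A a)
  · exact Or.inr hd
  obtain ⟨x, hx, hxa⟩ := Set.not_disjoint_iff.1 hd
  exact Or.inl (hX.subset_cmp hXA hx hxa)

/-- An edge leaving `O` inside a connected subset. -/
theorem edge_L5 {X O : Set V} (hX : Pre G X) (hXA : X ⊆ A) {o z : V} (ho : o ∈ X) (hoO : o ∈ O)
    (hz : z ∈ X) (hzO : z ∉ O) : (fr G A O ∩ ins X).Nonempty := by
  obtain ⟨u, hu, w, hw, huw, -⟩ := (hX o ho z hz).exit ⟨ho, hoO⟩ hzO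
  refine ⟨{u, w}, ⟨pair_mem_sA (hXA hu.1) (hXA hw.1) (Or.inr huw), ⟨u, by simp, hu.2⟩,
    fun e => hw.2 (e (by simp))⟩, ?_⟩
  intro x hx
  simp only [Finset.coe_insert, Finset.coe_singleton, Set.mem_insert_iff,
    Set.mem_singleton_iff] at hx
  rcases hx with rfl | rfl
  · exact hu.1
  · exact hw.1

theorem compl_L5 {Z : Set V} (hA : Pre G A) (hZ : Con G Z) (hZA : Z ⊆ A) (o : V) :
    Pre G (A \ cmp G (A \ Z) o) := by
  have hs : Z ⊆ A \ cmp G (A \ Z) o := fun z hz => ⟨hZA hz, fun e => (cmp_subset o e).2 hz⟩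
  refine hZ.2.of_near hs fun y hy => ?_
  by_cases hyZ : y ∈ Z
  · exact ⟨y, hyZ, Reach.refl y⟩
  obtain ⟨z, hz⟩ := hZ.1
  have hy' : y ∈ cmp G (A \ Z) y := mem_cmp_self ⟨hy.1, hyZ⟩
  obtain ⟨u, hu, w, hw, huw, hr⟩ := (hA y hy.1 z (hZA hz)).exit (X := cmp G (A \ Z) y)
    ⟨hy.1, hy'⟩ fun e => (cmp_subset y e).2 hz
  have hwZ : w ∈ Z := by
    by_contra hwZ
    exact hw.2 ((clopen_cmp y).2 u hu.2 w ⟨hw.1, hwZ⟩ huw)
  have hsub : A ∩ cmp G (A \ Z) y ⊆ A \ cmp G (A \ Z) o := fun x hx => ⟨hx.1, fun e => hy.2 (by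
    rw [← cmp_eq_of_mem e, cmp_eq_of_mem hx.2]
    exact hy')⟩
  exact ⟨w, hwZ, (hr.mono hsub).trans (Reach.single (hsub hu) (hs hwZ) (Or.inr huw))⟩

theorem clopen_L5 {X : Set V} (hX : Clopen G A X) {s : Finset V} (hs : s ∈ sA G A) {u : V}
    (hu : u ∈ s) (huX : u ∈ X) : ↑s ⊆ X := fun w hw => by
  rcases (mem_sA.1 hs).2.2 u hu w hw with rfl | h
  · exact huX
  · exact hX.2 u huX w (hs.2.1 hw) h

theorem core_L5 {T D Y0 Q R Z O : Set V} {τ : V → V} {o : V} (hD : Ball G 3 D T)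
    (hD' : Ball G 3 (τ '' D) T) (hDA : D ⊆ A) (hD'A : τ '' D ⊆ A) (hm : Mfa G 3 A (sub T) R)
    (hq : Root G (τ '' D) T (D ∩ τ '' D) Y0 Q) (hr : RSet G τ D T Y0 Q R Z)
    (ho : o ∈ (D \ Z) ∩ T) (hO : O = cmp G (D \ Z) o) :
    (fr G D O).Nonempty ∧ (Cell (sG V) 2 (fr G D O) fun σ =>
      if σ = ∅ then (fr G D O ∩ ins T).Nonempty else ↑σ ⊆ ins T) ∧
    ∃ E, E ⊆ fr G A R ∧ (Cell (sG V) 3 E fun σ => ↑σ ⊆ fr G D O ∨ ↑σ ⊆ ins T) ∧
      nb G D O ∩ E = fr G D O ∧ Disjoint E (sA G (τ '' D)) ∧ Pre (sG V) (E ∩ ins T) ∧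
      ∀ X ⊆ fr G A R, Pre (sG V) X → Disjoint X (fr G D O) → X ⊆ E ∨ Disjoint E X := by
  have hoO : o ∈ O := hO ▸ mem_cmp_self ho.1
  have hOD : O ⊆ D \ Z := hO ▸ cmp_subset o
  have hZR : Z ⊆ R := hr.interD ▸ Set.inter_subset_left
  have hZD : Z ⊆ D := hr.interD ▸ Set.inter_subset_right
  have hRZ : ∀ x ∈ R, x ∈ D → x ∈ Z := fun x h1 h2 => hr.interD ▸ ⟨h1, h2⟩
  have hRQ : ∀ x ∈ τ '' D, x ∈ R ↔ x ∈ Q := fun x hx =>
    ⟨fun h1 => hr.interτ ▸ ⟨h1, hx⟩, fun h1 => (hr.interτ ▸ h1 : x ∈ R ∩ τ '' D).1⟩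
  have hcZ : ∀ s ∈ fr G D O, ∃ z ∈ s, z ∈ Z := by
    rintro s ⟨hs, ⟨u, hu, huO⟩, hn⟩
    by_contra hz
    refine hn (clopen_L5 (A := D \ Z) (hO ▸ clopen_cmp o) ⟨hs.1, fun x hx => ⟨hs.2.1 hx, fun e =>
      hz ⟨x, hx, e⟩⟩, hs.2.2⟩ hu huO)
  have hcR : fr G D O ⊆ fr G A R := fun s hs => by
    obtain ⟨z, hz, hzZ⟩ := hcZ s hs
    obtain ⟨u, hu, huO⟩ := hs.2.1
    exact ⟨sA_mono hDA hs.1, ⟨z, hz, hZR hzZ⟩, fun e => (hOD huO).2 (hRZ u (e hu) (hOD huO).1)⟩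
  have hcp : Pre (sG V) (fr G D O) := by
    refine fr_pre (Cell.ndc hD) ?_ (hO ▸ compl_L5 (Cell.con hD).2 hr.conZ hZD o)
    rw [Set.inter_eq_right.2 (hOD.trans Set.sdiff_subset), hO]
    exact (con_cmp ho.1).2
  obtain ⟨s0, hs0, -⟩ : (fr G D O ∩ ins D).Nonempty := by
    obtain ⟨z, hz⟩ := hr.conZ.1
    exact edge_L5 (Cell.con hD).2 subset_rfl ho.1.1 hoO (hZD hz) fun e => (hOD e).2 hz
  have hcf : (fr G D O).Finite := (sA_finite (Cell.finite hD)).subset fun s hs => hs.1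
  have hcm : Mf (sG V) 1 (fr G D O) (ins T) := Mf.fr (Cell.mfa hD) (by omega)
  have hc : Cell (sG V) 2 (fr G D O) fun σ =>
      if σ = ∅ then (fr G D O ∩ ins T).Nonempty else ↑σ ⊆ ins T := by
    refine cell_two hcf ⟨⟨s0, hs0⟩, hcp⟩ (Mfa.congr hcm subset_rfl fun s hs => ?_) ?_
    · rw [if_neg hs.1.ne_empty]
      rfl
    · simp only [if_true, Finset.singleton_ne_empty, if_false, Finset.coe_singleton,
        Set.singleton_subset_iff]
      rfl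
  refine ⟨⟨s0, hs0⟩, hc, ?_⟩
  have hRf : R.Finite := ((Cell.finite hD).union (Cell.finite hD')).subset hr.subset
  have hRA : R ⊆ A := hr.subset.trans (Set.union_subset hDA hD'A)
  have hF := fr_disc hRA hRf hm hr.con hr.ndc hr.preT (hcR hs0)
  set F := cmp (sG V) (fr G A R) s0 with hFd
  have hFR : F ⊆ fr G A R := cmp_subset s0
  have hcF : fr G D O ⊆ F := hcp.subset_cmp hcR hs0 (mem_cmp_self (hcR hs0))
  have hcase : (F ∩ ins T = ∅ ∧ Sph (sG V) 3 F) ∨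
      ((fr G D O ∩ ins T).Nonempty ∧ Ball (sG V) 3 F (ins T)) := by
    rcases hF with hF | hF
    · exact Or.inl hF
    refine Or.inr ⟨?_, hF⟩
    rcases (Z ∩ T).eq_empty_or_nonempty with h0 | ⟨z, hz, hzT⟩
    · obtain ⟨s, hs, hsT⟩ : ∃ s ∈ F, s ∈ ins T := by
        simpa [sub] using hF.2.2.1.1 (sub_empty_H3 _)
      obtain ⟨x, hx, hxR⟩ := (hFR hs).2.1
      have : x ∈ R ∩ T := ⟨hxR, hsT hx⟩
      rw [hr.empty h0] at this
      exact this.elim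
    · obtain ⟨s, hs, hsT⟩ := edge_L5 (A := D) (Cell.con (hD.bd le_rfl)).2 Set.inter_subset_left
        ⟨ho.1.1, ho.2⟩ hoO ⟨hZD hz, hzT⟩ fun e => (hOD e).2 hz
      exact ⟨s, hs, fun x hx => (hsT hx).2⟩
  have hFc : Cell (sG V) 3 F fun σ =>
      if σ = ∅ then (fr G D O ∩ ins T).Nonempty else ↑σ ⊆ ins T := by
    rcases hcase with ⟨h0, hF⟩ | ⟨h0, hF⟩
    · refine Cell.congr hF fun s hs => ⟨False.elim, fun hb => ?_⟩
      have : (F ∩ ins T).Nonempty := by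
        split_ifs at hb with e
        · exact hb.mono (Set.inter_subset_inter_left _ hcF)
        · obtain ⟨x, hx⟩ := Finset.nonempty_iff_ne_empty.2 e
          exact ⟨x, hs.1 hx, hb hx⟩
      rw [h0] at this
      exact Set.not_nonempty_empty this
    · refine Cell.congr hF fun s _ => ?_
      split_ifs with e
      · subst e
        exact iff_of_true (sub_empty_H3 _) h0
      · rfl
  have hκ : Pre (sG V) (fr G (τ '' D) Q) := by
    refine fr_pre (Cell.ndc hD') ?_ hq.preC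
    rw [Set.inter_eq_right.2 hq.subset]
    exact hq.con.2
  have hκe : ∀ s ∈ sA G (τ '' D), s ∈ fr G A R ↔ s ∈ fr G (τ '' D) Q := fun s hs => by
    constructor
    · rintro ⟨-, ⟨x, hx, hxR⟩, hn⟩
      exact ⟨hs, ⟨x, hx, (hRQ x (hs.2.1 hx)).1 hxR⟩,
        fun e => hn fun y hy => (hRQ y (hs.2.1 hy)).2 (e hy)⟩
    · rintro ⟨-, ⟨x, hx, hxQ⟩, hn⟩
      exact ⟨sA_mono hD'A hs, ⟨x, hx, (hRQ x (hs.2.1 hx)).2 hxQ⟩,
        fun e => hn fun y hy => (hRQ y (hs.2.1 hy)).1 (e hy)⟩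
  have hcd : ∀ s ∈ fr G D O, s ∉ sA G (τ '' D) := fun s hs hs' => by
    obtain ⟨z, hz, hzZ⟩ := hcZ s hs
    obtain ⟨u, hu, huO⟩ := hs.2.1
    obtain ⟨y, -, hy⟩ := hq.comp
    have hzY : z ∈ Y0 := hr.zy ▸ ⟨hzZ, hs'.2.1 hz⟩
    have : ↑s ⊆ Y0 := clopen_L5 (A := D ∩ τ '' D) (hy ▸ clopen_cmp y)
      ⟨hs'.1, fun x hx => ⟨hs.1.2.1 hx, hs'.2.1 hx⟩, hs'.2.2⟩ hz hzY
    exact (hOD huO).2 (hr.zy ▸ this hu : u ∈ Z ∩ τ '' D).1
  obtain ⟨P, hP, hPκ⟩ : ∃ P, Split (sG V) 2 F (fr G D O) P ∧ Disjoint (fr G (τ '' D) Q) P := by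
    obtain ⟨P, hP⟩ := hFc.exists_split hc le_rfl hcF
    rcases cmp_L5 hκ (fun s hs => (hκe s hs.1).2 hs) s0 with h1 | h1
    · rcases side_L5 hP hκ h1 (Set.disjoint_left.2 fun s hs hs' => hcd s hs' hs.1) with h2 | h2
      · exact ⟨_, hP.symm hcF, Set.disjoint_left.2 fun s hs hs' => hs'.2 (Or.inr (h2 hs))⟩
      · exact ⟨P, hP, h2⟩
    · exact ⟨P, hP, h1.mono_right (hP.subset.trans Set.sdiff_subset)⟩
  have hEF : fr G D O ∪ P ⊆ F := Set.union_subset hcF (hP.subset.trans Set.sdiff_subset)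
  refine ⟨fr G D O ∪ P, hEF.trans hFR, ?_, ?_, ?_, ?_, ?_⟩
  · refine Cell.congr (hFc.side hc le_rfl hcF hP).1 fun s _ => ?_
    split_ifs with e
    · subst e
      simp
    · rfl
  · refine Set.Subset.antisymm (fun s hs => ⟨hs.1.1, hs.1.2, fun e => ?_⟩)
      fun s hs => ⟨⟨hs.1, hs.2.1⟩, Or.inl hs⟩
    obtain ⟨x, hx, hxR⟩ := (hFR (hEF hs.2)).2.1
    exact (hOD (e hx)).2 (hRZ x hxR (hs.1.1.2.1 hx))
  · refine Set.disjoint_left.2 fun s hs hs' => ?_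
    rcases hs with hs | hs
    · exact hcd s hs hs'
    · exact Set.disjoint_left.1 hPκ ((hκe s hs').1 (hFR (hP.subset hs).1)) hs
  · rcases hcase with ⟨h0, -⟩ | ⟨h0, hF⟩
    · refine pre_subsingleton fun s hs => ?_
      have : s ∈ F ∩ ins T := ⟨hEF hs.1, hs.2⟩
      rw [h0] at this
      exact this.elim
    · refine (hF.side_bd ?_ hcF hP).1.2
      rcases mf_one_cell hcm hcf ⟨⟨s0, hs0⟩, hcp⟩ with h1 | h1
      · exact absurd h1.1 h0.ne_empty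
      · exact h1.2
  · intro X hX hXp hXc
    rcases cmp_L5 hXp hX s0 with h1 | h1
    · rcases side_L5 hP hXp h1 hXc with h2 | h2
      · exact Or.inl (h2.trans Set.subset_union_right)
      · exact Or.inr (Set.disjoint_union_left.2 ⟨hXc.symm, h2.symm⟩)
    · exact Or.inr (h1.symm.mono_left hEF)

theorem exists_surg (hv : S.Valid) {τ : S.V → S.V} (h : Invo S τ) {D Y0 Q R Z : Set S.V}
    (hD : S.Disc D) (hq : Root S.G (τ '' D) S.T (D ∩ τ '' D) Y0 Q)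
    (hr : RSet S.G τ D S.T Y0 Q R Z) {o : S.V} (ho : o ∈ (D \ Z) ∩ S.T) :
    ∃ E, Surg S.G S.A S.T τ D R (cmp S.G (D \ Z) o) E := by
  have hDA : D ⊆ S.A := hD.subC.trans hv.subC
  have hDC : τ '' D ⊆ S.C := by
    rintro _ ⟨x, hx, rfl⟩
    exact h.core x (hD.subC hx)
  have hRC : R ⊆ S.C := hr.subset.trans (Set.union_subset hD.subC hDC)
  have hRA : R ⊆ S.A := hRC.trans hv.subC
  obtain ⟨⟨s0, hs0⟩, hc, E, hE, hcell, hint, hdisj, hpre, hside⟩ := core_L5 hD.ball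
    (h.ball hDA hD.ball) hDA (hDC.trans hv.subC) (hv.mf.mono hRC) hq hr ho rfl
  refine ⟨E, hc, hE, hcell, hint, hdisj, ?_, hpre⟩
  have hEA : E ⊆ sA S.G S.A := fun s hs => (hE hs).1
  rcases hr.alt with ⟨h1, -⟩ | h1
  · have e : Finset.image τ '' fr S.G S.A R = fr S.G S.A R := by
      rw [h.image_fr subset_rfl hRA, h.image_A, h1]
    have hi : ∀ s ∈ sA S.G D, s.image τ ∈ sA S.G (τ '' D) := fun s hs =>
      h.image_sA hDA ▸ Set.mem_image_of_mem _ hs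
    have hp : Pre (sG S.V) (Finset.image τ '' E) :=
      (IsIso.pre (h.sd.iso hEA)).1 (Cell.con hcell).2
    refine (hside _ (e ▸ Set.image_mono hE) hp ?_).resolve_left fun hs => ?_
    · refine Set.disjoint_left.2 ?_
      rintro _ ⟨s, hs, rfl⟩ hs'
      have e' : (s.image τ).image τ = s := h.sd.inv s (hEA hs)
      exact Set.disjoint_left.1 hdisj hs (e' ▸ hi _ hs'.1)
    · have h0 : s0 ∈ E := (hint ▸ hs0 : s0 ∈ nb S.G D _ ∩ E).2
      exact Set.disjoint_left.1 hdisj (hs (Set.mem_image_of_mem _ h0)) (hi s0 hs0.1)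
  · have hn : E ⊆ nb S.G S.A R := fun s hs => ⟨(hE hs).1, (hE hs).2.1⟩
    have e : Finset.image τ '' nb S.G S.A R = nb S.G S.A (τ '' R) := by
      rw [h.image_nb subset_rfl hRA, h.image_A]
    exact (far_nb h1).disjoint.mono hn (e ▸ Set.image_mono hn)

end Pool.Agent.MP_6374aa_g

end

section

/-! The new disc. -/

namespace Pool.Agent.MP_6374aa_g

open Pool.Agent.MP_6374aa_gt Classical

variable {V V' V'' : Type} {G : SimpleGraph V} {G' : SimpleGraph V'} {G'' : SimpleGraph V''}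
  {A : Set V} {A' : Set V'} {A'' : Set V''} {L : Type} [Group L]

theorem sU_nb_L6 (Q : Set V) :
    sU (sG V) (nb G A Q) (nb G A (A \ Q)) = sA (sG V) (sA G A) := by
  refine Set.Subset.antisymm (Set.union_subset (sA_mono fun _ h => h.1) (sA_mono fun _ h => h.1))
    fun σ hσ => ?_
  obtain ⟨m, hm, hb⟩ := exists_bot hσ
  have h1 : m ∈ sA G A := hσ.2.1 hm
  obtain ⟨v, hv⟩ := h1.1
  by_cases hQ : v ∈ Q
  · exact Or.inl ⟨hσ.1, fun t ht => ⟨hσ.2.1 ht, v, hb t ht hv, hQ⟩, hσ.2.2⟩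
  · exact Or.inr ⟨hσ.1, fun t ht => ⟨hσ.2.1 ht, v, hb t ht hv, h1.2.1 hv, hQ⟩, hσ.2.2⟩

theorem pot_nb_L6 {Q : Set V} (hA : Triv L G A) {lab : Finset (Finset V) → Finset (Finset V) → L}
    (hl : Flat (sG (Finset V)) (sA (sG V) (nb G A Q)) lab)
    (hp : Pot (sG (Finset V)) (sA (sG V) (fr G A Q)) lab) :
    Pot (sG (Finset V)) (sA (sG V) (nb G A Q)) lab := by
  obtain ⟨lab', h1, h2, -⟩ := glue_ext (cov2_sU (G := sG V) (nb G A Q) (nb G A (A \ Q))) hl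
    (by rwa [← sA_inter', nb_inter_nb])
  rw [sU_nb_L6] at h1
  exact ((triv_sA.2 (triv_sA.2 hA) lab' h1).mono (sA_mono fun _ h => h.1)).congr
    fun u hu w hw e => (h2 u hu w hw e).symm

theorem Surg.ball {T : Set V} {τ : V → V} {D R Z : Set V} {E : Set (Finset V)} {o : V}
    (hD : Ball G 3 D T) (ho : o ∈ (D \ Z) ∩ T) (h : Surg G A T τ D R (cmp G (D \ Z) o) E) :
    Ball (sG (Finset V)) 3 (sU (sG V) (nb G D (cmp G (D \ Z) o)) E) (ins (ins T)) := by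
  have hO : cmp G (D \ Z) o ⊆ D := (cmp_subset o).trans Set.sdiff_subset
  have hoO : o ∈ cmp G (D \ Z) o := mem_cmp_self ho.1
  have hcO : Con G (cmp G (D \ Z) o) := con_cmp ho.1
  generalize cmp G (D \ Z) o = O at *
  have hi := h.inter
  have hcE : fr G D O ⊆ E := hi ▸ Set.inter_subset_right
  have hcX : fr G D O ⊆ nb G D O := hi ▸ Set.inter_subset_left
  have hD' : Cell G 3 D (sub T) := hD
  have m1 := Mfa.nb (Q := O) (hD'.mfa.mono Set.inter_subset_left) (by norm_num)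
  have m0 := h.curve.mfa
  have m := m1.union h.cell.mfa (β0 := fun σ => if σ = ∅ then (fr G D O ∩ ins T).Nonempty
    else ↑σ ⊆ ins T) (by rw [hi]; exact m0) (by norm_num) fun s hs => by
      rw [hi] at hs
      exact ⟨Or.inr hs.2.1, Or.inl hs.2.1⟩
  have hX : Pre (sG V) (nb G D O) := pre_nb.2 (by rw [Set.inter_eq_right.2 hO]; exact hcO.2)
  obtain ⟨s, hs⟩ := h.curve.nonempty
  have ho1 : ({o} : Finset V) ∈ nb G D O :=
    ⟨singleton_mem_sA.2 ho.1.1, o, Finset.mem_singleton_self o, hoO⟩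
  have ho2 : ({{o}} : Finset (Finset V)) ∈ sU (sG V) (nb G D O) E :=
    Or.inl (singleton_mem_sA.2 ho1)
  refine cell_three ((sA_finite ((sA_finite hD'.finite).subset fun _ h => h.1)).union
    (sA_finite h.cell.finite)) ⟨⟨_, ho2⟩, (pre_sA.2 hX).union (pre_sA.2 h.cell.con.2)
      (singleton_mem_sA.2 (hcX hs)) (singleton_mem_sA.2 (hcE hs)) (adq_refl _)⟩
    (fun lab hl => ?_) (m.congr subset_rfl fun σ hσ => ?_)
    ⟨fun _ => ⟨_, ho2, by simpa [sub, ins] using ho.2⟩, fun _ => by simp [sub]⟩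
  · have p2 := triv_sA.2 h.cell.ndc lab (hl.mono Set.subset_union_right)
    refine glue_pot (cov2_sU _ _) (pot_nb_L6 hD'.ndc (hl.mono Set.subset_union_left)
      (p2.mono (sA_mono hcE))) p2 ?_
    rw [← sA_inter', hi]
    exact pre_sA.2 h.curve.con.2
  · have h1 : top σ ∈ sU (sG V) (nb G D O) E := hσ.2.1 (top_mem hσ)
    have h2 : top σ ≠ ∅ := (h1.elim (fun h => h.1) fun h => h.1).ne_empty
    have h3 : sub (ins (ins T)) σ ↔ ↑(top σ) ⊆ ins T := top_subset_iff.symm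
    have h4 : sub T (top (top σ)) ↔ ↑(top σ) ⊆ ins T := top_subset_iff
    rw [h3, hi, if_neg h2, h4]
    split_ifs with c1 c2
    · rfl
    · exact or_iff_left c1
    · exact or_iff_right c1

end Pool.Agent.MP_6374aa_g

end

section

/-! One of the new discs is essential. -/

namespace Pool.Agent.MP_6374aa_g

open Pool.Agent.MP_6374aa_gt Classical

variable {V V' V'' : Type} {G : SimpleGraph V} {G' : SimpleGraph V'} {G'' : SimpleGraph V''}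
  {A : Set V} {A' : Set V'} {A'' : Set V''} {L : Type} [Group L]

variable {S S' : Setup L}

theorem flat_mono_L7 {lab : V → V → L} (hl : Flat G A lab) {X : Set V} (hX : X ⊆ A) :
    Flat G X lab := fun u hu v hv w hw => hl u (hX hu) v (hX hv) w (hX hw)

/-- A potential on the subdivision restricts to the vertices. -/
theorem pot_vert_L7 {lab : V → V → L} (hl : Flat G A lab) {π : Finset V → V}
    (hπ : ∀ s : Finset V, s.Nonempty → π s ∈ s) {P : Set (Finset V)} (hP : sA G A ⊆ P)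
    {p : Finset V → L}
    (hp : ∀ s ∈ P, ∀ t ∈ P, Adq (sG V) s t → pull π lab s t = p s * (p t)⁻¹) :
    ∀ u ∈ A, ∀ w ∈ A, Adq G u w → lab u w = p {u} * (p {w})⁻¹ := by
  intro u hu w hw huw
  have s1 := singleton_mem_sA (G := G).2 hu
  have s2 := singleton_mem_sA (G := G).2 hw
  have s3 := pair_mem_sA hu hw huw
  have e1 : π {u} = u := Finset.mem_singleton.1 (hπ _ s1.1)
  have e2 : π {w} = w := Finset.mem_singleton.1 (hπ _ s2.1)
  have h1 := hp _ (hP s1) _ (hP s3) (adq_sG.2 (Or.inl (by simp)))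
  have h2 := hp _ (hP s3) _ (hP s2) (adq_sG.2 (Or.inr (by simp)))
  unfold pull at h1 h2
  rw [e1] at h1
  rw [e2] at h2
  have m := hπ _ s3.1
  have hc := (mem_sA.1 s3).2.2
  have h3 := hl u hu _ (s3.2.1 (Finset.mem_coe.2 m)) w hw (hc u (by simp) _ m)
    (hc _ m w (by simp)) huw
  rw [← h3, h1, h2]
  group

/-- Normalising a potential on a preconnected set. -/
theorem normal_L7 {lab : V → V → L} {X Y : Set V} {p q : V → L} (hY : Pre G Y)
    (hp : ∀ u ∈ Y, ∀ w ∈ Y, Adq G u w → lab u w = p u * (p w)⁻¹)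
    (hqY : ∀ u ∈ Y, ∀ w ∈ Y, Adq G u w → lab u w = q u * (q w)⁻¹)
    (hqX : ∀ u ∈ X, ∀ w ∈ X, Adq G u w → lab u w = q u * (q w)⁻¹) :
    ∃ r : V → L, (∀ u ∈ X, ∀ w ∈ X, Adq G u w → lab u w = r u * (r w)⁻¹) ∧
      ∀ u ∈ Y, r u = p u := by
  rcases Y.eq_empty_or_nonempty with rfl | ⟨a, ha⟩
  · exact ⟨q, hqX, fun u hu => hu.elim⟩
  · refine ⟨fun u => q u * ((q a)⁻¹ * p a), fun u hu w hw h => ?_, fun u hu => ?_⟩
    · rw [hqX u hu w hw h]
      group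
    · have e := pot_unique hY (p := q) (q := p) (fun u hu w hw h => by
        rw [← hp u hu w hw (Or.inr h), ← hqY u hu w hw (Or.inr h)]) ha hu
      show q u * ((q a)⁻¹ * p a) = p u
      rw [e]
      group

theorem surg_label (hv : S.Valid) {D R Z : Set S.V} (hD : S.Disc D) (hRD : R ∩ D = Z)
    (hRB : R ∩ S.T ⊆ S.B) (hp : Pot (sG S.V) (nb S.G (S.A ∩ S.T) R) S.sd.lab)
    (E : S.V → Set (Finset S.V))
    (hE : ∀ o ∈ (D \ Z) ∩ S.T, E o ⊆ fr S.G S.A R ∧ fr S.G D (cmp S.G (D \ Z) o) ⊆ E o ∧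
      Pre (sG S.V) (E o ∩ ins S.T)) :
    ∃ o ∈ (D \ Z) ∩ S.T, ¬ Pot (sG (Finset S.V))
      (sU (sG S.V) (nb S.G D (cmp S.G (D \ Z) o)) (E o) ∩ ins (ins S.T)) S.sd.sd.lab := by
  by_contra hcon
  push Not at hcon
  obtain ⟨p, hp⟩ := hp
  have hDA : D ⊆ S.A := hD.subC.trans hv.subC
  have hfl : Flat (sG S.V) (nb S.G (S.A ∩ S.T) S.B) S.sd.lab :=
    flat_pull hv.flat (isHom_pick (A := S.A ∩ S.T) (fun s hs => hs.1)
      fun s hs => ⟨pk_mem _ hs.1.1, pk_mem_B hs.2⟩)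
  have key : ∀ O : Set S.V, ∃ q : Finset S.V → L,
      (∃ o ∈ (D \ Z) ∩ S.T, O = cmp S.G (D \ Z) o) →
      (∀ u ∈ nb S.G D O ∩ ins S.T, ∀ w ∈ nb S.G D O ∩ ins S.T, Adq (sG S.V) u w →
        S.sd.lab u w = q u * (q w)⁻¹) ∧ ∀ u ∈ fr S.G D O ∩ ins S.T, q u = p u := by
    intro O
    by_cases hO : ∃ o ∈ (D \ Z) ∩ S.T, O = cmp S.G (D \ Z) o
    swap
    · exact ⟨p, fun h => (hO h).elim⟩
    obtain ⟨o, ho, rfl⟩ := hO
    obtain ⟨h1, h2, h3⟩ := hE o ho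
    obtain ⟨q, hq⟩ := hcon o ho
    have hX : nb S.G D (cmp S.G (D \ Z) o) ∩ ins S.T ⊆ nb S.G (S.A ∩ S.T) S.B := by
      rintro s ⟨⟨hs, -⟩, hT⟩
      obtain ⟨v, hv'⟩ := hs.1
      exact ⟨⟨hs.1, Set.subset_inter (hs.2.1.trans hDA) hT, hs.2.2⟩, v, hv',
        hD.subB ⟨hs.2.1 (Finset.mem_coe.2 hv'), hT (Finset.mem_coe.2 hv')⟩⟩
    have hY : E o ∩ ins S.T ⊆ nb S.G (S.A ∩ S.T) S.B := by
      rintro s ⟨hs, hT⟩
      obtain ⟨hs, ⟨v, hv', hR⟩, -⟩ := h1 hs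
      exact ⟨⟨hs.1, Set.subset_inter hs.2.1 hT, hs.2.2⟩, v, hv',
        hRB ⟨hR, hT (Finset.mem_coe.2 hv')⟩⟩
    have hY' : E o ∩ ins S.T ⊆ nb S.G (S.A ∩ S.T) R := fun s hs =>
      ⟨(hY hs).1, (h1 hs.1).2.1⟩
    have qX := pot_vert_L7 (flat_mono_L7 hfl hX) (π := pk S.sd.B) (fun s hs => pk_mem _ hs)
      (by
        rw [sA_inter]
        exact Set.inter_subset_inter_left _ Set.subset_union_left) hq
    have qY := pot_vert_L7 (flat_mono_L7 hfl hY) (π := pk S.sd.B) (fun s hs => pk_mem _ hs)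
      (by
        rw [sA_inter]
        exact Set.inter_subset_inter_left _ Set.subset_union_right) hq
    obtain ⟨r, r1, r2⟩ := normal_L7 h3 (fun u hu w hw => hp u (hY' hu) w (hY' hw)) qY qX
    exact ⟨r, fun _ => ⟨r1, fun u hu => r2 u ⟨h2 hu.1, hu.2⟩⟩⟩
  choose q hq using key
  have hsD : ∀ s ∈ sA S.G (D ∩ S.T), s ∈ sA S.G D ∧ s ∈ ins S.T := fun s hs => by
    rw [sA_inter] at hs
    exact hs
  have hr : ∀ s ∈ sA S.G (D ∩ S.T), ∀ v ∈ s, v ∉ Z →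
      (if Meets s Z then p s else q (cmp S.G (D \ Z) (pk ∅ s)) s) =
        q (cmp S.G (D \ Z) v) s := by
    intro s hs v hvs hZ
    have hvD := hs.2.1 (Finset.mem_coe.2 hvs)
    by_cases hm : Meets s Z
    · rw [if_pos hm]
      obtain ⟨z, hz, hzZ⟩ := hm
      refine ((hq _ ⟨v, ⟨⟨hvD.1, hZ⟩, hvD.2⟩, rfl⟩).2 s ⟨⟨(hsD s hs).1,
        ⟨v, hvs, mem_cmp_self ⟨hvD.1, hZ⟩⟩, fun h => ?_⟩, (hsD s hs).2⟩).symm
      exact (cmp_subset v (h (Finset.mem_coe.2 hz))).2 hzZ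
    · rw [if_neg hm]
      have m := pk_mem (∅ : Set S.V) hs.1
      have hm' : pk ∅ s ∈ D \ Z := ⟨(hs.2.1 (Finset.mem_coe.2 m)).1, fun h => hm ⟨_, m, h⟩⟩
      rw [cmp_eq_of_mem (a := v) (b := pk ∅ s)
        ⟨hm', Reach.single ⟨hvD.1, hZ⟩ hm' ((mem_sA.1 hs).2.2 v hvs _ m)⟩]
  have hR : ∀ s ∈ sA S.G (D ∩ S.T), Meets s Z → s ∈ nb S.G (S.A ∩ S.T) R := by
    rintro s hs ⟨z, hz, hzZ⟩
    rw [← hRD] at hzZ
    exact ⟨sA_mono (Set.inter_subset_inter_left _ hDA) hs, z, hz, hzZ.1⟩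
  refine hD.ess (pot_of_pot_sd (flat_mono_L7 hv.flat hD.subB) (π := pk S.B)
    (fun s hs => pk_mem _ hs.1)
    ⟨fun s => if Meets s Z then p s else q (cmp S.G (D \ Z) (pk ∅ s)) s,
      fun s hs t ht hst => ?_⟩)
  by_cases hm : Meets s Z ∧ Meets t Z
  · simp only [if_pos hm.1, if_pos hm.2]
    exact hp s (hR s hs hm.1) t (hR t ht hm.2) hst
  · have hv' : ∃ v ∈ s, v ∈ t ∧ v ∉ Z := by
      by_contra hn
      push Not at hn
      rcases adq_sG.1 hst with h | h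
      · obtain ⟨v, hv'⟩ := hs.1
        exact hm ⟨⟨v, hv', hn v hv' (h hv')⟩, v, h hv', hn v hv' (h hv')⟩
      · obtain ⟨v, hv'⟩ := ht.1
        exact hm ⟨⟨v, h hv', hn v (h hv') hv'⟩, v, hv', hn v (h hv') hv'⟩
    obtain ⟨v, h1, h2, hZ⟩ := hv'
    have hvD := hs.2.1 (Finset.mem_coe.2 h1)
    have hc : v ∈ cmp S.G (D \ Z) v := mem_cmp_self ⟨hvD.1, hZ⟩
    simp only [hr s hs v h1 hZ, hr t ht v h2 hZ]
    exact (hq _ ⟨v, ⟨⟨hvD.1, hZ⟩, hvD.2⟩, rfl⟩).1 s ⟨⟨(hsD s hs).1, v, h1, hc⟩, (hsD s hs).2⟩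
      t ⟨⟨(hsD t ht).1, v, h2, hc⟩, (hsD t ht).2⟩ hst

end Pool.Agent.MP_6374aa_g

end

section

/-! The number of components drops. -/

namespace Pool.Agent.MP_6374aa_g

open Pool.Agent.MP_6374aa_gt Classical

variable {V V' V'' : Type} {G : SimpleGraph V} {G' : SimpleGraph V'} {G'' : SimpleGraph V''}
  {A : Set V} {A' : Set V'} {A'' : Set V''} {L : Type} [Group L]

variable {S S' : Setup L}

omit [Group L] in
theorem ii_L8 {τ : S.V → S.V} (h : Invo S τ) {s : Finset S.V} (hs : ↑s ⊆ S.A) :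
    (s.image τ).image τ = s := by
  rw [Finset.image_image]
  exact (Finset.image_congr (g := id) fun v hv => h.inv v (hs hv)).trans Finset.image_id

omit [Group L] in
theorem img_L8 {τ : S.V → S.V} (h : Invo S τ) {X Y : Set S.V} {s : Finset S.V}
    (hs : s ∈ sA S.G X) (hX : X ⊆ S.A) (hY : ∀ v ∈ s, τ v ∈ Y) : s.image τ ∈ sA S.G Y := by
  obtain ⟨h1, h2, h3⟩ := mem_sA.1 hs
  refine mem_sA.2 ⟨h1.image _, fun v hv => ?_, fun u hu w hw => ?_⟩
  · obtain ⟨w, hw, rfl⟩ := Finset.mem_image.1 (Finset.mem_coe.1 hv)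
    exact hY w hw
  · obtain ⟨a, ha, rfl⟩ := Finset.mem_image.1 hu
    obtain ⟨b, hb, rfl⟩ := Finset.mem_image.1 hw
    rcases h3 a ha b hb with e | e
    · exact Or.inl (congrArg τ e)
    · exact Or.inr (h.adj a (hX (h2 ha)) b (hX (h2 hb)) e)

/-- Counting the components of the second subdivision of a union of components. -/
theorem nc_sd_L8 [Nonempty V] {Y Y1 : Set V} (hf : Y.Finite) (hc : Clopen G Y Y1) {y : V}
    (hy : y ∈ Y) (hn : ∀ v ∈ Y1, ¬ Reach G Y y v) :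
    nc (sG (Finset V)) (sA (sG V) (sA G Y1)) < nc G Y := by
  have h1 : ∀ x ∈ sA (sG V) (sA G Y1), pk Set.univ x ∈ x ∧ pk Set.univ x ∈ sA G Y1 ∧
      pk Set.univ (pk Set.univ x) ∈ pk Set.univ x ∧ pk Set.univ (pk Set.univ x) ∈ Y1 := by
    intro x hx
    have h2 := pk_mem Set.univ hx.1
    have h3 := hx.2.1 h2
    have h4 := pk_mem Set.univ h3.1
    exact ⟨h2, h3, h4, h3.2.1 h4⟩
  refine nc_lt hf (fun x => pk Set.univ (pk Set.univ x)) (fun x hx => hc.1 (h1 x hx).2.2.2)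
    (fun x hx z hz hr => ?_) hy fun x hx => hn _ (h1 x hx).2.2.2
  obtain ⟨a1, a2, a3, a4⟩ := h1 x hx
  obtain ⟨b1, b2, b3, b4⟩ := h1 z hz
  rw [reach_sA hx hz a1 b1, reach_sA a2 b2 a3 b3]
  have h2 : pk Set.univ (pk Set.univ z) ∈ cmp G Y (pk Set.univ (pk Set.univ x)) := ⟨hc.1 b4, hr⟩
  rw [← hc.cmp_eq a4] at h2
  exact h2.2

theorem surg_count {τ : S.V → S.V} (h : Invo S τ) {D Y0 Z R : Set S.V} (hD : D ⊆ S.A)
    (hf : D.Finite) (hY : ∃ y ∈ D ∩ τ '' D, Y0 = cmp S.G (D ∩ τ '' D) y)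
    (hZ : Z ∩ τ '' D = Y0) {o : S.V} {E : Set (Finset S.V)}
    (hE : Surg S.G S.A S.T τ D R (cmp S.G (D \ Z) o) E) :
    nc (sG (Finset S.V)) (sU (sG S.V) (nb S.G D (cmp S.G (D \ Z) o)) E ∩
      Finset.image (Finset.image τ) '' sU (sG S.V) (nb S.G D (cmp S.G (D \ Z) o)) E) <
      nc S.G (D ∩ τ '' D) := by
  obtain ⟨y, hy, hY⟩ := hY
  have hcO := clopen_cmp (G := S.G) (A := D \ Z) o
  generalize cmp S.G (D \ Z) o = O at hE hcO ⊢
  have hc0 : Clopen S.G (D ∩ τ '' D) (Z ∩ τ '' D) := by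
    rw [hZ, hY]
    exact clopen_cmp y
  have hOD : O ⊆ D := fun v hv => (hcO.1 hv).1
  have key : ∀ v ∈ O, v ∈ τ '' D → ∀ w ∈ D, w ∈ τ '' D → Adq S.G v w → w ∈ O := by
    intro v hv hv' w hw hw' hvw
    rcases hvw with rfl | hvw
    · exact hv
    · exact hcO.2 v hv w ⟨hw, fun hz =>
        (hcO.1 hv).2 (hc0.2 w ⟨hz, hw'⟩ v ⟨hOD hv, hv'⟩ hvw.symm).1⟩ hvw
  have key2 : ∀ s ∈ nb S.G D O, s.image τ ∈ sA S.G D → ∀ w ∈ s, w ∈ O := by
    rintro s ⟨hs, v, hv, hvO⟩ hs' w hw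
    have h1 : ∀ u ∈ s, u ∈ τ '' D := fun u hu =>
      ⟨τ u, hs'.2.1 (Finset.mem_coe.2 (Finset.mem_image_of_mem τ hu)), h.inv u (hD (hs.2.1 hu))⟩
    exact key v hvO (h1 v hv) w (hs.2.1 hw) (h1 w hw) ((mem_sA.1 hs).2.2 v hv w hw)
  have hcl : Clopen S.G (D ∩ τ '' D) (O ∩ τ '' O) := by
    refine ⟨Set.inter_subset_inter hOD (Set.image_mono hOD), ?_⟩
    rintro _ ⟨hv, v, hv', rfl⟩ _ ⟨hw, w, hw', rfl⟩ hvw
    refine ⟨key _ hv ⟨v, hOD hv', rfl⟩ _ hw ⟨w, hw', rfl⟩ (Or.inr hvw), w, ?_, rfl⟩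
    have e1 := h.inv v (hD (hOD hv'))
    have e2 := h.inv w (hD hw')
    have h1 := h.adj _ (hD (hOD hv)) _ (hD hw) hvw
    rw [e1, e2] at h1
    exact key v hv' ⟨τ v, hOD hv, e1⟩ w hw' ⟨τ w, hw, e2⟩ (Or.inr h1)
  have hX : ∀ s ∈ sA S.G (O ∩ τ '' O), s ∈ nb S.G D O ∧ s.image τ ∈ nb S.G D O := by
    intro s hs
    obtain ⟨v, hv⟩ := hs.1
    have h1 : ∀ u ∈ s, τ u ∈ O := fun u hu => by
      obtain ⟨-, w, hw, rfl⟩ := hs.2.1 hu
      rw [h.inv w (hD (hOD hw))]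
      exact hw
    exact ⟨⟨sA_mono (fun u hu => hOD hu.1) hs, v, hv, (hs.2.1 hv).1⟩,
      img_L8 h hs (fun u hu => hD (hOD hu.1)) fun u hu => hOD (h1 u hu),
      τ v, Finset.mem_image_of_mem τ hv, h1 v hv⟩
  have e : sU (sG S.V) (nb S.G D O) E ∩
      Finset.image (Finset.image τ) '' sU (sG S.V) (nb S.G D O) E =
      sA (sG S.V) (sA S.G (O ∩ τ '' O)) := by
    ext σ
    constructor
    · rintro ⟨h1, σ', h2, rfl⟩
      have hm : ∀ s ∈ σ', s.image τ ∈ σ'.image (Finset.image τ) := fun s hs =>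
        Finset.mem_image_of_mem _ hs
      rcases h2 with h2 | h2
      · rcases h1 with h1 | h1
        · refine ⟨h1.1, fun t ht => ?_, h1.2.2⟩
          obtain ⟨s, hs, rfl⟩ := Finset.mem_image.1 (Finset.mem_coe.1 ht)
          have h3 := h2.2.1 hs
          have h4 := h1.2.1 ht
          have h5 := key2 s h3 h4.1
          have h6 := key2 _ h4 (by rw [ii_L8 h (h3.1.2.1.trans hD)]; exact h3.1)
          exact img_L8 h h3.1 hD fun v hv =>
            ⟨h6 _ (Finset.mem_image_of_mem τ hv), v, h5 v hv, rfl⟩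
        · obtain ⟨s, hs⟩ := h2.1
          exact (Set.disjoint_left.1 hE.disj (h1.2.1 (hm s hs)) (img_L8 h (h2.2.1 hs).1 hD
            fun v hv => ⟨v, (h2.2.1 hs).1.2.1 hv, rfl⟩)).elim
      · obtain ⟨s, hs⟩ := h2.1
        have h3 := h2.2.1 hs
        rcases h1 with h1 | h1
        · have h4 := (h1.2.1 (hm s hs)).1
          have h5 := img_L8 (Y := τ '' D) h h4 hD fun v hv => ⟨v, h4.2.1 hv, rfl⟩
          rw [ii_L8 h (hE.subset h3).1.2.1] at h5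
          exact (Set.disjoint_left.1 hE.disj h3 h5).elim
        · exact (Set.disjoint_left.1 hE.disjτ (h1.2.1 (hm s hs)) ⟨s, h3, rfl⟩).elim
    · intro hσ
      refine ⟨Or.inl (sA_mono (fun s hs => (hX s hs).1) hσ), σ.image (Finset.image τ),
        Or.inl (mem_sA.2 ⟨hσ.1.image _, fun t ht => ?_, fun t ht t' ht' => ?_⟩), ?_⟩
      · obtain ⟨s, hs, rfl⟩ := Finset.mem_image.1 (Finset.mem_coe.1 ht)
        exact (hX s (hσ.2.1 hs)).2
      · obtain ⟨s, hs, rfl⟩ := Finset.mem_image.1 ht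
        obtain ⟨s', hs', rfl⟩ := Finset.mem_image.1 ht'
        exact adq_sG.2 ((adq_sG.1 ((mem_sA.1 hσ).2.2 s hs s' hs')).imp
          Finset.image_subset_image Finset.image_subset_image)
      · rw [Finset.image_image]
        exact (Finset.image_congr (g := id) fun s hs =>
          ii_L8 h ((hX s (hσ.2.1 hs)).1.1.2.1.trans hD)).trans Finset.image_id
  rw [e]
  refine nc_sd_L8 (hf.subset Set.inter_subset_left) hcl hy fun v hv hr => ?_
  have h1 : v ∈ Z ∩ τ '' D := by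
    rw [hZ, hY]
    exact ⟨hcl.1 hv, hr⟩
  exact (hcO.1 hv.1).2 h1.1

end Pool.Agent.MP_6374aa_g

end

section

/-! Descent along a double cover. -/

namespace Pool.Agent.MP_6374aa_g

open Pool.Agent.MP_6374aa_gt Classical

variable {V V' V'' : Type} {G : SimpleGraph V} {G' : SimpleGraph V'} {G'' : SimpleGraph V''}
  {A : Set V} {A' : Set V'} {A'' : Set V''} {L : Type} [Group L]

variable {S S' : Setup L}

theorem sU_mem_L9 {X Y P : Set (Finset V)} (hX : X ⊆ P) (hY : Y ⊆ P) {σ : Finset (Finset V)}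
    (h : σ ∈ sU (sG V) X Y) : σ ∈ sA (sG V) P :=
  h.elim (fun h => sA_mono hX h) fun h => sA_mono hY h

theorem img_inst_L9 {α β : Type} (i1 i2 : DecidableEq β) (f : α → β) :
    @Finset.image α β i1 f = @Finset.image α β i2 f := by
  cases Subsingleton.elim i1 i2
  rfl

theorem ne_sA_L9 {τ : S.V → S.V} (h : Invo S τ) {X : Set S.V} (hX : X ⊆ S.A) :
    NE (sG S.V) (sA S.G X) (Finset.image τ '' sA S.G X) := by
  rw [h.image_sA hX]
  exact ne_sA _ _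

theorem ne_sU_L9 {τ : S.V → S.V} (h : Invo S τ) {X Y : Set S.V} (hX : X ⊆ S.A) (hY : Y ⊆ S.A) :
    NE (sG S.V) (sU S.G X Y) (Finset.image τ '' sU S.G X Y) := by
  rw [sU, Set.image_union, h.image_sA hX, h.image_sA hY]
  exact ne_sU _ _ _ _

theorem nc_sA_L9 {τ : S.V → S.V} (h : Invo S τ) {X : Set S.V} (hX : X ⊆ S.A)
    (hd : Disjoint X (τ '' X)) : nc (sG S.V) (sA S.G X ∩ Finset.image τ '' sA S.G X) = 0 := by
  rw [h.image_sA hX, Set.disjoint_iff_inter_eq_empty.1 (far_sA hd).disjoint]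
  exact nc_empty

theorem descent_step (hv : S.Valid) {τ : S.V → S.V} (h : Invo S τ) {D : Set S.V} (hD : S.Disc D)
    (hne : NE S.G D (τ '' D)) (hn : (D ∩ τ '' D).Nonempty) :
    ∃ D', S.sd.sd.Disc D' ∧ NE S.sd.sd.G D' (Finset.image (Finset.image τ) '' D') ∧
      nc S.sd.sd.G (D' ∩ Finset.image (Finset.image τ) '' D') < nc S.G (D ∩ τ '' D) := by
  have hDA : D ⊆ S.A := hD.subC.trans hv.subC
  have hfin : D.Finite := hD.ball.1
  obtain ⟨Y0, Q, hq⟩ := exists_root (h.ball hDA hD.ball) Set.inter_subset_right hn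
  obtain ⟨R, Z, hr⟩ := exists_rset h hDA hne hq
  by_cases hp : Pot (sG S.V) (nb S.G (S.A ∩ S.T) R) S.sd.lab
  swap
  · obtain ⟨F, hF, hd⟩ := descent_finish hv h hD hr hp
    have hF' := hF.subC.trans hv.sd.subC
    exact ⟨sA S.sd.G F, hF.sd hv.sd, ne_sA_L9 h.sd hF',
      lt_of_eq_of_lt (nc_sA_L9 h.sd hF' hd) (nc_pos (hfin.inter_of_left _) hn)⟩
  have hRC : R ⊆ S.C := by
    intro x hx
    rcases hr.subset hx with hx | ⟨y, hy, rfl⟩
    · exact hD.subC hx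
    · exact h.core y (hD.subC hy)
  have hRB : R ∩ S.T ⊆ S.B := by
    rintro x ⟨hx, hT⟩
    rcases hr.subset hx with hx | ⟨y, hy, rfl⟩
    · exact hD.subB ⟨hx, hT⟩
    · refine h.mapB y (hD.subB ⟨hy, ?_⟩)
      have h1 := h.bd _ (h.mem y (hDA hy)) hT
      rwa [h.inv y (hDA hy)] at h1
  choose! E hE using fun o (ho : o ∈ (D \ Z) ∩ S.T) => exists_surg hv h hD hq hr ho
  obtain ⟨o, ho, hess⟩ := surg_label hv hD hr.interD hRB hp E fun o ho =>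
    ⟨(hE o ho).subset, (hE o ho).inter ▸ Set.inter_subset_right, (hE o ho).preT⟩
  have hs := hE o ho
  have a1 : nb S.G D (cmp S.G (D \ Z) o) ⊆ nb S.G S.A S.C := by
    rintro s ⟨h1, -⟩
    obtain ⟨v, hv'⟩ := h1.1
    exact ⟨sA_mono hDA h1, v, hv', hD.subC (h1.2.1 hv')⟩
  have a2 : E o ⊆ nb S.G S.A S.C := by
    intro s h1
    obtain ⟨h2, ⟨v, h3, h4⟩, -⟩ := hs.subset h1
    exact ⟨h2, v, h3, hRC h4⟩
  have a3 : nb S.G S.A S.C ⊆ sA S.G S.A := fun s h1 => h1.1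
  refine ⟨sU (sG S.V) (nb S.G D (cmp S.G (D \ Z) o)) (E o), ⟨?_, hs.ball hD.ball ho, ?_, hess⟩,
    ne_sU_L9 h.sd (a1.trans a3) (a2.trans a3), ?_⟩
  · intro σ hσ
    have h1 := sU_mem_L9 a1 a2 hσ
    obtain ⟨s, hs'⟩ := h1.1
    exact ⟨sA_mono a3 h1, s, hs', h1.2.1 hs'⟩
  · rintro σ ⟨hσ, hT⟩
    have h1 := sA_mono a3 (sU_mem_L9 a1 a2 hσ)
    obtain ⟨s, hs'⟩ := h1.1
    have h2 : (s : Set S.V) ⊆ S.T := hT hs'
    have h3 : s ∈ sA S.G S.A := h1.2.1 hs'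
    refine ⟨⟨h1.1, fun t ht => ⟨h1.2.1 ht, hT ht⟩, h1.2.2⟩, s, hs',
      ⟨h3.1, fun v hv' => ⟨h3.2.1 hv', h2 hv'⟩, h3.2.2⟩, ?_⟩
    rcases hσ with hσ | hσ
    · obtain ⟨v, hv'⟩ := h3.1
      exact ⟨v, hv', hD.subB ⟨(hσ.2.1 hs').1.2.1 hv', h2 hv'⟩⟩
    · obtain ⟨-, ⟨v, h4, h5⟩, -⟩ := hs.subset (hσ.2.1 hs')
      exact ⟨v, h4, hRB ⟨h5, h2 h4⟩⟩
  · have h1 := surg_count h hDA hfin hq.comp hr.zy hs
    rw [img_inst_L9 _ (fun a b => Classical.propDecidable (a = b))] at h1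
    exact h1

theorem solv_ne_L9 (n : ℕ) : ∀ (S S' : Setup L) (p : S'.V → S.V) (τ : S'.V → S'.V),
    GCov S' S p τ → S'.Valid → S.Valid → ∀ D, S'.Disc D → NE S'.G D (τ '' D) →
      nc S'.G (D ∩ τ '' D) < n → S.Solv := by
  induction n with
  | zero => exact fun _ _ _ _ _ _ _ _ _ _ h => absurd h (Nat.not_lt_zero _)
  | succ n ih =>
    intro S S' p τ h h' h0 D hD hne hn
    rcases (D ∩ τ '' D).eq_empty_or_nonempty with he | he
    · exact (h.disc h' hD (hne.far (Set.disjoint_iff_inter_eq_empty.2 he))).solv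
    · obtain ⟨D', h1, h2, h3⟩ := descent_step h' h.invo hD hne he
      exact (ih S.sd.sd S'.sd.sd _ _ ((h.sd h' h0).sd h'.sd h0.sd) h'.sd.sd h0.sd.sd D' h1 h2
        (lt_of_lt_of_le h3 (Nat.lt_succ_iff.1 hn))).of_sd.of_sd

theorem solv_iter_L9 (k : ℕ) : ∀ (S S' : Setup L) (p : S'.V → S.V) (τ : S'.V → S'.V),
    GCov S' S p τ → S'.Valid → S.Valid → ∀ D, (Setup.sd^[k] S').Disc D → S.Solv := by
  induction k with
  | zero =>
    intro S S' p τ h h' h0 D hD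
    have hD' : S'.Disc D := hD
    exact (solv_ne_L9 _ S.sd S'.sd _ _ (h.sd h' h0) h'.sd h0.sd _ (hD'.sd h')
      (ne_sA_L9 h.invo (hD'.subC.trans h'.subC)) (Nat.lt_succ_self _)).of_sd
  | succ k ih =>
    intro S S' p τ h h' h0 D hD
    exact (ih S.sd S'.sd _ _ (h.sd h' h0) h'.sd h0.sd D hD).of_sd

theorem GCov.solv {p : S'.V → S.V} {τ : S'.V → S'.V} (h : GCov S' S p τ) (h' : S'.Valid)
    (h0 : S.Valid) (hs : S'.Solv) : S.Solv := by
  obtain ⟨k, D, hD⟩ := hs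
  exact solv_iter_L9 k S S' p τ h h' h0 D hD

end Pool.Agent.MP_6374aa_g

end

section

/-! Thickenings of stages. -/

namespace Pool.Agent.MP_6374aa_g

open Pool.Agent.MP_6374aa_gt Classical

variable {V V' V'' : Type} {G : SimpleGraph V} {G' : SimpleGraph V'} {G'' : SimpleGraph V''}
  {A : Set V} {A' : Set V'} {A'' : Set V''} {L : Type} [Group L]

variable {S S' : Setup L}

theorem core_L11 (hv : S.Valid) {X : Sing S} (Y : Stage X) {x : Finset (Finset S.V) × Y.P}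
    (hx : x ∈ Y.tA) : x.1 ∈ S.sd.sd.C := by
  obtain ⟨h1, h2, h3, -⟩ := hx
  have hm := Y.mem _ h2
  obtain ⟨v, hv'⟩ := hm.1
  exact ⟨h1, Y.g x.2, h3, sA_mono hv.subC hm, v, hv', hm.2.1 (Finset.mem_coe.2 hv')⟩

theorem adj_fst_L11 {X : Sing S} (Y : Stage X) {x y : Finset (Finset S.V) × Y.P}
    (h : Y.tG.Adj x y) : (sG (Finset S.V)).Adj x.1 y.1 :=
  h.elim (fun h => Or.inl h.1) fun h => Or.inr h.1

theorem adq_fst_L11 {X : Sing S} (Y : Stage X) {x y : Finset (Finset S.V) × Y.P}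
    (h : Adq Y.tG x y) : Adq (sG (Finset S.V)) x.1 y.1 :=
  h.elim (fun h => Or.inl (by rw [h])) fun h => Or.inr (adj_fst_L11 Y h)

/-- The neighbours of a core vertex lie below the top element. -/
theorem below_L11 {X : Sing S} (Y : Stage X) {x y : Finset (Finset S.V) × Y.P} (hx : x ∈ Y.tA)
    {c : Y.P} (hc : c ∈ Y.K) (hl : Y.le x.2 c) (hg : Y.g c = top x.1) (hy : y ∈ Y.tA)
    (h : Y.tG.Adj x y) : Y.le y.2 c := by
  rcases h with h | h
  · exact Y.trans _ hy.2.1 _ hx.2.1 _ hc h.2 hl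
  · have h1 : Y.g y.2 ⊆ Y.g c := by
      rw [hg]
      exact subset_top (h.1.subset hy.2.2.1)
    obtain ⟨b, hb, hbc, hbg⟩ := Y.dn c hc _ (Y.mem _ hy.2.1).1 h1
    have h2 : Y.le x.2 b := Y.dnu c hc _ hx.2.1 b hb hl hbc (by
      rw [hbg]
      exact Y.mono _ hx.2.1 _ hy.2.1 h.2)
    rw [← Y.up _ hx.2.1 b hb _ hy.2.1 h2 h.2 hbg]
    exact hbc

theorem iso_lk_L11 {X : Sing S} (Y : Stage X) {x : Finset (Finset S.V) × Y.P} (hx : x ∈ Y.tA)
    {c : Y.P} (hc : c ∈ Y.K) (hl : Y.le x.2 c) (hg : Y.g c = top x.1) :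
    IsIso Y.tG (Lk Y.tG Y.tA {x}) (sG (Finset S.V)) (Lk (sG (Finset S.V)) S.sd.sd.A {x.1})
      Prod.fst := by
  have bl : ∀ y ∈ Lk Y.tG Y.tA {x}, Y.le y.2 c := fun y hy =>
    below_L11 Y hx hc hl hg hy.1 (hy.2 x rfl)
  have key : ∀ y ∈ Lk Y.tG Y.tA {x}, ∀ z ∈ Lk Y.tG Y.tA {x}, y.1 ⊆ z.1 → Y.le z.2 y.2 :=
    fun y hy z hz h => Y.dnu c hc _ hz.1.2.1 _ hy.1.2.1 (bl z hz) (bl y hy)
      (hz.1.2.2.2 _ (h hy.1.2.2.1))
  refine ⟨⟨fun y hy => ⟨hy.1.1, ?_⟩, fun y hy z hz h => ?_, fun σ hσ => ?_⟩,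
    fun y hy z hz => ⟨adj_fst_L11 Y, fun h => ?_⟩⟩
  · rintro u rfl
    exact adj_fst_L11 Y (hy.2 x rfl)
  · have h' : y.1 = z.1 := h
    refine Prod.ext h' ?_
    refine Y.up _ hy.1.2.1 _ hy.1.2.1 _ hz.1.2.1 (Y.refl _ hy.1.2.1) (key z hz y hy h'.ge) ?_
    exact Finset.Subset.antisymm (hy.1.2.2.2 _ (h' ▸ hz.1.2.2.1)) (hz.1.2.2.2 _ (h' ▸ hy.1.2.2.1))
  · obtain ⟨m, hm, hmin⟩ := exists_bot (P := sA S.G S.A) hσ.1
    have hne : m.Nonempty := (hσ.1.2.1 (Finset.mem_coe.2 hm)).1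
    have ha := hσ.2 x.1 rfl
    have h1 : m ⊆ Y.g c := by
      rw [hg]
      rcases ha with ha | ha
      · exact (hmin _ (ha.subset hx.2.2.1)).trans (subset_top hx.2.2.1)
      · exact subset_top (ha.subset hm)
    obtain ⟨b, hb, hbc, hbg⟩ := Y.dn c hc m hne h1
    refine ⟨(σ, b), ⟨⟨hσ.1, hb, hbg ▸ hm, fun t ht => hbg ▸ hmin t ht⟩, ?_⟩, rfl⟩
    rintro u rfl
    rcases ha with ha | ha
    · refine Or.inl ⟨ha, Y.dnu c hc b hb _ hx.2.1 hbc hl ?_⟩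
      rw [hbg]
      exact hmin _ (ha.subset hx.2.2.1)
    · refine Or.inr ⟨ha, Y.dnu c hc _ hx.2.1 b hb hl hbc ?_⟩
      rw [hbg]
      exact hx.2.2.2 _ (ha.subset hm)
  · rcases h with h | h
    · exact Or.inl ⟨h, key y hy z hz h.subset⟩
    · exact Or.inr ⟨h, key z hz y hy h.subset⟩

theorem Stage.valid (hv : S.Valid) {X : Sing S} (Y : Stage X) : Y.thick.Valid := by
  have h2 := hv.sd.sd
  refine ⟨fun x hx => hx.1, fun x hx => ⟨hx.1, (h2.subB hx.2).2⟩, fun x hx => ?_,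
    fun u hu v hv' w hw a b c => h2.flat _ hu.2 _ hv'.2 _ hw.2 (adq_fst_L11 Y a)
      (adq_fst_L11 Y b) (adq_fst_L11 Y c)⟩
  obtain ⟨hx, c, hc, hl, hg⟩ := hx
  refine (IsIso.cell (iso_lk_L11 Y hx hc hl hg) fun s _ => ?_).2 (h2.mf _ (core_L11 hv Y hx))
  constructor
  · intro h t ht
    rcases Finset.mem_insert.1 (Finset.mem_coe.1 ht) with e | e
    · rw [e]
      exact h (Finset.mem_coe.2 (Finset.mem_insert_self x s))
    · obtain ⟨y, hy, rfl⟩ := Finset.mem_image.1 e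
      exact h (Finset.mem_coe.2 (Finset.mem_insert_of_mem hy))
  · intro h y hy
    rcases Finset.mem_insert.1 (Finset.mem_coe.1 hy) with e | e
    · rw [e]
      exact h (Finset.mem_coe.2 (Finset.mem_insert_self _ _))
    · exact h (Finset.mem_coe.2 (Finset.mem_insert_of_mem (Finset.mem_image_of_mem _ e)))

/-- The first stage: the image of the singular disc. -/
noncomputable def stage0_L11 (X : Sing S) : Stage X where
  P := Finset S.V
  le := fun a b => a ⊆ b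
  K := (fun s : Finset ℕ => s.image X.f) '' sA X.Δ X.D
  g := id
  F := fun s => s.image X.f
  fin := (sA_finite X.fin).image _
  refl := fun b _ => Finset.Subset.refl b
  trans := fun _ _ _ _ _ _ h h' => h.trans h'
  mem := by
    rintro _ ⟨s, hs, rfl⟩
    exact IsHom.image_mem X.hom hs
  mono := fun _ _ _ _ h => h
  dn := by
    rintro _ ⟨s, hs, rfl⟩ t ht h
    have e : (s.filter fun i => X.f i ∈ t).image X.f = t := by
      ext v
      constructor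
      · intro hv
        obtain ⟨i, hi, rfl⟩ := Finset.mem_image.1 hv
        exact (Finset.mem_filter.1 hi).2
      · intro hv
        obtain ⟨i, hi, rfl⟩ := Finset.mem_image.1 (h hv)
        exact Finset.mem_image_of_mem _ (Finset.mem_filter.2 ⟨hi, hv⟩)
    refine ⟨t, ⟨s.filter fun i => X.f i ∈ t, sA_down hs (Finset.filter_subset _ _) ?_, e⟩, h, rfl⟩
    rw [← e] at ht
    exact Finset.image_nonempty.1 ht
  dnu := fun _ _ _ _ _ _ _ _ h => h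
  up := fun _ _ _ _ _ _ _ _ h => h
  Fmem := fun s hs => ⟨⟨s, hs, rfl⟩, rfl⟩
  Fmono := fun _ _ _ _ h => Finset.image_subset_image h

theorem Stage.init (hv : S.Valid) (X : Sing S) :
    ∃ (Y : Stage X) (p : Y.thick.V → S.sd.sd.V), Y.Tight ∧ Emb Y.thick S.sd.sd p := by
  have key : ∀ y ∈ (stage0_L11 X).tA, ∀ z ∈ (stage0_L11 X).tA, y.1 ⊆ z.1 →
      (stage0_L11 X).le z.2 y.2 := fun y hy z hz h => hz.2.2.2 _ (h hy.2.2.1)
  refine ⟨stage0_L11 X, Prod.fst, fun b hb => hb,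
    ⟨Set.InjOn.bijOn_image fun y hy z hz h => ?_,
      fun y hy z hz => ⟨adj_fst_L11 _, fun h => ?_⟩⟩, ?_, fun u hu => core_L11 hv _ hu.1,
    fun _ _ => Iff.rfl, fun u hu => hu.2, fun _ => 1, fun u _ w _ _ => ?_⟩
  · have h' : y.1 = z.1 := h
    exact Prod.ext h' (Finset.Subset.antisymm (key z hz y hy h'.ge) (key y hy z hz h'.le))
  · rcases h with h | h
    · exact Or.inl ⟨h, key y hy z hz h.subset⟩
    · exact Or.inr ⟨h, key z hz y hy h.subset⟩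
  · rintro _ ⟨y, hy, rfl⟩
    exact hy.1
  · rw [one_mul, inv_one, mul_one]
    rfl

theorem Stage.card_le {X : Sing S} (Y : Stage X) (h : Y.Tight) :
    Y.K.ncard ≤ (sA X.Δ X.D).ncard := by
  have hf := sA_finite (G := X.Δ) X.fin
  exact (Set.ncard_le_ncard (t := Y.F '' sA X.Δ X.D) (fun b hb => h b hb) (hf.image _)).trans
    (Set.ncard_image_le hf)

end Pool.Agent.MP_6374aa_g

end

section

/-! The double cover of a stage. -/

namespace Pool.Agent.MP_6374aa_g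

open Pool.Agent.MP_6374aa_gt Classical

variable {V V' V'' : Type} {G : SimpleGraph V} {G' : SimpleGraph V'} {G'' : SimpleGraph V''}
  {A : Set V} {A' : Set V'} {A'' : Set V''} {L : Type} [Group L]

variable {S S' : Setup L}

theorem z2_or_L12 (a b : Z2) : a = b ∨ a = b * neg := by
  rcases z2_cases a with rfl | rfl <;> rcases z2_cases b with rfl | rfl <;>
    simp [z2_mul_self]

theorem z2_ne_L12 (a : Z2) : a * neg ≠ a := fun h => neg_ne_one (mul_eq_left.1 h)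

theorem adq_L12 {X : Sing S} (Y : Stage X) {a b : Y.P} (h : Y.le a b) : Adq Y.cG a b := by
  by_cases e : a = b
  · exact Or.inl e
  · exact Or.inr ⟨e, Or.inl h⟩

/-- The image of the singular disc. -/
def tight_L12 {X : Sing S} (Y : Stage X) : Stage X :=
  have hs : Y.F '' sA X.Δ X.D ⊆ Y.K := by
    rintro _ ⟨s, hs, rfl⟩
    exact (Y.Fmem s hs).1
  { P := Y.P
    le := Y.le
    K := Y.F '' sA X.Δ X.D
    g := Y.g
    F := Y.F
    fin := Y.fin.subset hs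
    refl := fun b hb => Y.refl b (hs hb)
    trans := fun a ha b hb c hc => Y.trans a (hs ha) b (hs hb) c (hs hc)
    mem := fun b hb => Y.mem b (hs hb)
    mono := fun b hb c hc => Y.mono b (hs hb) c (hs hc)
    dn := by
      rintro _ ⟨s, h1, rfl⟩ t ⟨v, hv⟩ ht
      rw [(Y.Fmem s h1).2] at ht
      have h2 : s.filter (X.f · ∈ t) ∈ sA X.Δ X.D := by
        obtain ⟨x, hx, rfl⟩ := Finset.mem_image.1 (ht hv)
        exact sA_down h1 (Finset.filter_subset _ _) ⟨x, Finset.mem_filter.2 ⟨hx, hv⟩⟩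
      refine ⟨_, ⟨_, h2, rfl⟩, Y.Fmono _ h2 _ h1 (Finset.filter_subset _ _), ?_⟩
      rw [(Y.Fmem _ h2).2, ← Finset.filter_image (p := (· ∈ t)), Finset.filter_mem_eq_inter,
        Finset.inter_eq_right.2 ht]
    dnu := fun c hc a ha b hb => Y.dnu c (hs hc) a (hs ha) b (hs hb)
    up := fun b hb c hc c' hc' => Y.up b (hs hb) c (hs hc) c' (hs hc')
    Fmem := fun s h => ⟨⟨s, h, rfl⟩, (Y.Fmem s h).2⟩
    Fmono := Y.Fmono }

theorem emb_L12 {X : Sing S} (Y : Stage X) : Emb (tight_L12 Y).thick Y.thick id := by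
  have hs : (tight_L12 Y).K ⊆ Y.K := by
    rintro _ ⟨s, hs, rfl⟩
    exact (Y.Fmem s hs).1
  have hA : ∀ u ∈ (tight_L12 Y).tA, u ∈ Y.tA := fun u hu => ⟨hu.1, hs hu.2.1, hu.2.2⟩
  refine ⟨⟨⟨fun u hu => ⟨u, hu, rfl⟩, fun _ _ _ _ e => e, fun _ h => h⟩, fun _ _ _ _ => Iff.rfl⟩,
    ?_, ?_, fun _ _ => Iff.rfl, fun u hu => ⟨hA u hu.1, hu.2⟩, ⟨_, Gau.refl _⟩⟩
  · rintro _ ⟨u, hu, rfl⟩
    exact hA u hu
  · rintro u ⟨hu, c, h1, h2⟩
    exact ⟨hA u hu, c, hs h1, h2⟩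

/-- The double cover of a stage. -/
def dbl_L12 {X : Sing S} (Y : Stage X) (θ : Y.P → Y.P → Z2) (hθ : Flat Y.cG Y.K θ)
    (χ : Finset ℕ → Z2) (hχ : ∀ s ∈ sA X.Δ X.D, ∀ t ∈ sA X.Δ X.D, s ⊆ t →
      χ s = θ (Y.F s) (Y.F t) * χ t) : Stage X where
  P := Y.P × Z2
  le p q := Y.le p.1 q.1 ∧ p.2 = θ p.1 q.1 * q.2
  K := {p | p.1 ∈ Y.K}
  g p := Y.g p.1
  F s := (Y.F s, χ s)
  fin := (Y.fin.prod Set.finite_univ).subset fun _ hp => ⟨hp, trivial⟩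
  refl b hb := ⟨Y.refl _ hb, by rw [hθ.self hb, one_mul]⟩
  trans a ha b hb c hc h1 h2 := by
    have h3 := Y.trans _ ha _ hb _ hc h1.1 h2.1
    refine ⟨h3, ?_⟩
    rw [h1.2, h2.2, ← mul_assoc,
      hθ _ ha _ hb _ hc (adq_L12 Y h1.1) (adq_L12 Y h2.1) (adq_L12 Y h3)]
  mem b hb := Y.mem _ hb
  mono b hb c hc h := Y.mono _ hb _ hc h.1
  dn c hc t h1 h2 := by
    obtain ⟨b, k1, k2, k3⟩ := Y.dn _ hc t h1 h2
    exact ⟨(b, θ b c.1 * c.2), k1, ⟨k2, rfl⟩, k3⟩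
  dnu c hc a ha b hb h1 h2 h3 := by
    have h4 := Y.dnu _ hc _ ha _ hb h1.1 h2.1 h3
    refine ⟨h4, ?_⟩
    rw [h1.2, h2.2, ← mul_assoc,
      hθ _ ha _ hb _ hc (adq_L12 Y h4) (adq_L12 Y h2.1) (adq_L12 Y h1.1)]
  up b hb c hc c' hc' h1 h2 h3 := by
    have h4 := Y.up _ hb _ hc _ hc' h1.1 h2.1 h3
    refine Prod.ext h4 (mul_left_cancel (a := θ b.1 c.1) ?_)
    rw [← h1.2, h2.2, h4]
  Fmem s hs := Y.Fmem s hs
  Fmono s hs t ht h := ⟨Y.Fmono s hs t ht h, hχ s hs t ht h⟩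

theorem gcov_L12 {X : Sing S} (Y : Stage X) (θ : Y.P → Y.P → Z2) (hθ : Flat Y.cG Y.K θ)
    (χ : Finset ℕ → Z2) (hχ : ∀ s ∈ sA X.Δ X.D, ∀ t ∈ sA X.Δ X.D, s ⊆ t →
      χ s = θ (Y.F s) (Y.F t) * χ t) :
    GCov (dbl_L12 Y θ hθ χ hχ).thick Y.thick (fun x => (x.1, x.2.1))
      fun x => (x.1, (x.2.1, x.2.2 * neg)) := by
  have hl : ∀ p q : Y.P × Z2, (dbl_L12 Y θ hθ χ hχ).le p q →
      (dbl_L12 Y θ hθ χ hχ).le (p.1, p.2 * neg) (q.1, q.2 * neg) := fun p q h =>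
    ⟨h.1, by rw [← mul_assoc, ← h.2]⟩
  refine ⟨⟨fun _ h => h, ?_, ?_, ?_, ?_, fun _ _ h => h, fun _ h => h⟩, fun _ h => h, ?_,
    fun _ _ => rfl, ?_, ?_, ?_, fun _ _ => Iff.rfl, fun _ h => h, ⟨_, Gau.refl _⟩⟩
  · rintro ⟨σ, b, x⟩ -
    simp only [mul_assoc, z2_mul_self, mul_one]
  · exact fun u _ w _ h => h.imp (fun h => ⟨h.1, hl _ _ h.2⟩) fun h => ⟨h.1, hl _ _ h.2⟩
  · rintro ⟨σ, b, x⟩ - ⟨σ', c, y⟩ - (e | h | h) (e' | h' | h')
    · exact z2_ne_L12 y (congrArg (·.2.2) (e'.symm.trans e))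
    · exact h'.1.ne (congrArg (·.1) e)
    · exact h'.1.ne' (congrArg (·.1) e)
    · exact h.1.ne (congrArg (·.1) e')
    · exact z2_ne_L12 y (h'.2.2.trans h.2.2.symm)
    · exact lt_asymm h.1 h'.1
    · exact h.1.ne' (congrArg (·.1) e')
    · exact lt_asymm h.1 h'.1
    · exact z2_ne_L12 y (mul_left_cancel (h'.2.2.symm.trans h.2.2))
  · rintro u ⟨hu, c, h1, h2, h3⟩
    exact ⟨hu, (c.1, c.2 * neg), h1, hl _ _ h2, h3⟩
  · exact fun u _ w _ h => h.imp (fun h => ⟨h.1, h.2.1⟩) fun h => ⟨h.1, h.2.1⟩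
  · rintro ⟨σ, b, x⟩ - ⟨σ', c, y⟩ - e
    obtain ⟨rfl, rfl⟩ := Prod.mk.inj e
    rcases z2_or_L12 y x with rfl | rfl
    exacts [Or.inl rfl, Or.inr rfl]
  · rintro ⟨σ, b, x⟩ - ⟨σ', c, y⟩ - (h | h)
    · rcases z2_or_L12 (θ c b * x) y with e | e
      exacts [Or.inl (Or.inl ⟨h.1, h.2, e.symm⟩), Or.inr (Or.inl ⟨h.1, h.2, e.symm⟩)]
    · rcases z2_or_L12 x (θ b c * y) with e | e
      exacts [Or.inl (Or.inr ⟨h.1, h.2, e⟩), Or.inr (Or.inr ⟨h.1, h.2, e.trans (mul_assoc _ _ _)⟩)]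
  · rintro u ⟨hu, c, h1, h2, h3⟩
    exact ⟨hu, c.1, h1, h2.1, h3⟩

theorem Stage.double (hv : S.Valid) {X : Sing S} (Y : Stage X) (ht : Y.Tight)
    (hn : ¬ NDC Y.cG Y.K) :
    ∃ (Y1 Y2 : Stage X) (p : Y1.thick.V → Y.thick.V) (τ : Y1.thick.V → Y1.thick.V)
      (e : Y2.thick.V → Y1.thick.V), GCov Y1.thick Y.thick p τ ∧ Emb Y2.thick Y1.thick e ∧
      Y2.Tight ∧ Y.K.ncard < Y2.K.ncard := by
  obtain ⟨θ, hθ, hp⟩ : ∃ θ : Y.P → Y.P → Z2, Flat Y.cG Y.K θ ∧ ¬ Pot Y.cG Y.K θ := by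
    by_contra hc
    exact hn fun θ h => by_contra fun h' => hc ⟨θ, h, h'⟩
  have hF : IsHom (sG ℕ) (sA X.Δ X.D) Y.cG Y.K Y.F := ⟨fun s hs => (Y.Fmem s hs).1,
    fun s hs t ht h => h.elim (fun h => adq_L12 Y (Y.Fmono s hs t ht h.1))
      fun h => adq_symm (adq_L12 Y (Y.Fmono t ht s hs h.1))⟩
  obtain ⟨χ, h1⟩ := triv_sA.2 X.ndc _ (flat_pull hθ hF)
  have hχ : ∀ s ∈ sA X.Δ X.D, ∀ t ∈ sA X.Δ X.D, s ⊆ t → χ s = θ (Y.F s) (Y.F t) * χ t :=
    fun s hs t ht h => (eq_mul_inv_iff_mul_eq.1 (h1 s hs t ht (adq_sG.2 (Or.inl h)))).symm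
  refine ⟨dbl_L12 Y θ hθ χ hχ, tight_L12 (dbl_L12 Y θ hθ χ hχ), _, _, id, gcov_L12 Y θ hθ χ hχ,
    emb_L12 _, fun b hb => hb, ?_⟩
  have hfin := (tight_L12 (dbl_L12 Y θ hθ χ hχ)).fin
  have hdn := (tight_L12 (dbl_L12 Y θ hθ χ hχ)).dn
  have him : (Prod.fst : Y.P × Z2 → Y.P) '' (tight_L12 (dbl_L12 Y θ hθ χ hχ)).K = Y.K := by
    refine subset_antisymm ?_ fun b hb => ?_
    · rintro _ ⟨_, ⟨s, hs, rfl⟩, rfl⟩
      exact (Y.Fmem s hs).1
    · obtain ⟨s, hs, rfl⟩ := ht b hb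
      exact ⟨_, ⟨s, hs, rfl⟩, rfl⟩
  rw [← him]
  refine lt_of_le_of_ne (Set.ncard_image_le hfin) fun e => hp ?_
  have hinj := Set.injOn_of_ncard_image_eq e hfin
  choose! s hs hs' using ht
  have hm : ∀ b ∈ Y.K, (b, χ (s b)) ∈ (tight_L12 (dbl_L12 Y θ hθ χ hχ)).K := fun b hb =>
    ⟨s b, hs b hb, Prod.ext (hs' b hb) rfl⟩
  have key : ∀ u ∈ Y.K, ∀ w ∈ Y.K, Y.le u w → θ u w = χ (s u) * (χ (s w))⁻¹ := by
    intro u hu w hw h
    obtain ⟨q, k1, k2, k3⟩ := hdn _ (hm w hw) (Y.g u) (Y.mem u hu).1 (Y.mono u hu w hw h)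
    have k4 : q.1 ∈ Y.K := him ▸ Set.mem_image_of_mem _ k1
    have k5 : u = q.1 := Y.up u hu u hu _ k4 (Y.refl u hu)
      (Y.dnu w hw u hu _ k4 h k2.1 (Eq.subset k3.symm)) k3.symm
    have k6 : χ (s u) = q.2 := congrArg Prod.snd (hinj (hm u hu) k1 k5)
    rw [eq_mul_inv_iff_mul_eq, k6, k5]
    exact k2.2.symm
  refine ⟨fun b => χ (s b), fun u hu w hw h => ?_⟩
  rcases h with rfl | ⟨-, h | h⟩
  · exact key u hu u hu (Y.refl u hu)
  · exact key u hu w hw h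
  · rw [hθ.symm hw hu (adq_L12 Y h), key w hw u hu h, mul_inv_rev, inv_inv]

end Pool.Agent.MP_6374aa_g

end

section

/-! The top of the tower. -/

namespace Pool.Agent.MP_6374aa_g

open Pool.Agent.MP_6374aa_gt Classical

variable {V V' V'' : Type} {G : SimpleGraph V} {G' : SimpleGraph V'} {G'' : SimpleGraph V''}
  {A : Set V} {A' : Set V'} {A'' : Set V''} {L : Type} [Group L]

variable {S S' : Setup L}

theorem pot_L10 (hv : S.Valid) {Γ : Set S.V} (hΓ : Γ ⊆ S.B) (x : Finset S.V → S.V)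
    (hx : x = pk S.B) (h : Pot (sG S.V) (sA S.G Γ) (pull x S.lab)) : Pot S.G Γ S.lab :=
  pot_of_pot_sd (hv.flat.mono hΓ) (fun _ hs => hx ▸ pk_mem _ hs.1) h

theorem disc_L10 (hv : S.Valid) {Q : Set S.V} (hQ : Q ⊆ S.C) (hf : Q.Finite) (hc : Con S.G Q)
    (hn : NDC S.G Q) (hp : Pre S.G (Q ∩ S.T)) (hB : Q ∩ S.T ⊆ S.B)
    (hl : ¬ Pot S.G (Q ∩ S.T) S.lab) : S.Solv := by
  have h1 : nb S.G (S.A ∩ S.T) Q ⊆ S.sd.B := by
    rintro s ⟨a1, v, a2, a3⟩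
    exact ⟨a1, v, a2, hB ⟨a3, (a1.2.1 a2).2⟩⟩
  have h2 : sA S.G (Q ∩ S.T) ⊆ nb S.G (S.A ∩ S.T) Q := fun s hs =>
    ⟨sA_mono (Set.inter_subset_inter_left _ (hQ.trans hv.subC)) hs,
      hs.1.imp fun v a => ⟨a, (hs.2.1 a).1⟩⟩
  obtain ⟨s, -, a1, a2⟩ := fr_disc_lab (lab := S.sd.lab) (hQ.trans hv.subC) hf (hv.mf.mono hQ) hc
    hn hp (hv.sd.flat.mono h1) fun h => hl (pot_L10 hv hB _ rfl (h.mono h2))
  refine Setup.Solv.of_sd (Setup.Disc.solv (S := S.sd) (D := cmp _ (fr S.G S.A Q) s)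
    ⟨fun t ht => ?_, a1, fun t ht => h1 ?_, a2⟩)
  · obtain ⟨b1, ⟨v, b2, b3⟩, -⟩ := cmp_subset s ht
    exact ⟨b1, v, b2, hQ b3⟩
  · obtain ⟨b1, b2, -⟩ := cmp_subset s ht.1
    exact nb_inter_H9.symm.subset ⟨⟨b1, b2⟩, ht.2⟩

theorem top_solv (hv : S.Valid) (hf : S.C.Finite) (hc : Con S.G S.C) (hn : NDC S.G S.C)
    {Γ : Set S.V} (hΓ : Γ ⊆ S.C ∩ S.B) (hcΓ : Con S.G Γ) (hp : ¬ Pot S.G Γ S.lab) : S.Solv := by
  have e : S.A ∩ S.C = S.C := Set.inter_eq_right.2 hv.subC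
  have h1 : Mfa S.G 3 S.A (sub S.T) (S.A ∩ S.C) := hv.mf.mono Set.inter_subset_right
  have h2 := nb_finite (hf.inter_of_right S.A) h1
  have h3 := (h1.nb le_rfl).rem_bd le_rfl (S := ins S.T \ sA S.G Γ) (h2.inter_of_left _)
    fun s hs => Or.inl (top_subset_iff.2 fun t ht => (hs.2.1 ht).2.1)
  have hC : Γ ⊆ S.C := fun v h => (hΓ h).1
  have hB : Γ ⊆ S.B := fun v h => (hΓ h).2
  have h4 : sA S.G Γ ⊆ nb S.G S.A S.C := fun s hs =>
    ⟨sA_mono (hC.trans hv.subC) hs, hs.1.imp fun v a => ⟨a, hC (hs.2.1 a)⟩⟩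
  have h5 : (nb S.G S.A S.C \ (ins S.T \ sA S.G Γ)) ∩ ins S.T = sA S.G Γ := by
    refine Set.Subset.antisymm (fun s hs => ?_) fun s hs =>
      ⟨⟨h4 hs, fun h => h.2 hs⟩, fun v a => (hv.subB (hB (hs.2.1 a))).2⟩
    by_contra h
    exact hs.1.2 ⟨hs.2, h⟩
  have h6 : Con (sG S.V) (nb S.G S.A S.C) := by
    obtain ⟨v, a⟩ := hc.1
    exact ⟨⟨{v}, singleton_mem_sA.2 (hv.subC a), v, Finset.mem_singleton_self v, a⟩,
      pre_nb.2 (e.symm ▸ hc.2)⟩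
  have h7 : sA S.G Γ ⊆ S.sd.B := fun s hs =>
    ⟨sA_mono (hB.trans hv.subB) hs, hs.1.imp fun v a => ⟨a, hB (hs.2.1 a)⟩⟩
  refine Setup.Solv.of_sd (disc_L10 (S := S.sd) hv.sd
    (Q := nb S.G S.A S.C \ (ins S.T \ sA S.G Γ)) Set.sdiff_subset (h2.subset Set.sdiff_subset)
    (h3.con.2 h6) (h3.triv.2 (triv_nb.2 (e.symm ▸ hn))) ?_ (h5.subset.trans h7) fun h => ?_)
  · exact h5.symm ▸ pre_sA.2 hcΓ.2
  · exact hp (pot_L10 hv hB _ rfl (h.mono h5.symm.subset))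

end Pool.Agent.MP_6374aa_g

end

section

/-! A stage without double cover. -/

namespace Pool.Agent.MP_6374aa_g

open Pool.Agent.MP_6374aa_gt Classical

variable {V V' V'' : Type} {G : SimpleGraph V} {G' : SimpleGraph V'} {G'' : SimpleGraph V''}
  {A : Set V} {A' : Set V'} {A'' : Set V''} {L : Type} [Group L]

variable {S S' : Setup L}

theorem pot_L13 [Nonempty V'] {f : V' → V} (hf : IsHom G' A' G A f) {lab : V → V → L}
    (hl : Flat G A lab) {φ : Finset V' → V} (hφ : ∀ s ∈ sA G' A', ∃ u ∈ s, f u = φ s)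
    (h : Pot (sG V') (sA G' A') (pull φ lab)) : Pot G' A' (pull f lab) := by
  choose! π h1 h2 using hφ
  exact pot_of_pot_sd (flat_pull hl hf) h1
    (h.congr fun s hs t ht _ => by simp only [pull, h2 s hs, h2 t ht])

/-- The core of the thickening. -/
def cor_L13 {X : Sing S} (Y : Stage X) : Set (Finset (Finset S.V) × Y.P) :=
  {x | x ∈ Y.tA ∧ ∃ c ∈ Y.K, Y.le x.2 c ∧ Y.g c = top x.1}

/-- The chain of a vertex of the core. -/
noncomputable def psi_L13 {X : Sing S} (Y : Stage X) (x : Finset (Finset S.V) × Y.P) :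
    Finset Y.P := Y.fin.toFinset.filter fun a => Y.le x.2 a ∧ Y.g a ∈ x.1

section

variable {X : Sing S} {Y : Stage X} {x y : Finset (Finset S.V) × Y.P} {a b : Y.P}

theorem mem_psi_L13 : a ∈ psi_L13 Y x ↔ a ∈ Y.K ∧ Y.le x.2 a ∧ Y.g a ∈ x.1 := by
  rw [psi_L13, Finset.mem_filter, Set.Finite.mem_toFinset]

theorem eq_L13 (ha : a ∈ Y.K) (hb : b ∈ Y.K) (h : Y.le a b) (e : Y.g b ⊆ Y.g a) : a = b :=
  Y.up a ha a ha b hb (Y.refl a ha) h (Finset.Subset.antisymm (Y.mono a ha b hb h) e)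

theorem self_L13 (hx : x ∈ cor_L13 Y) : x.2 ∈ psi_L13 Y x :=
  mem_psi_L13.2 ⟨hx.1.2.1, Y.refl _ hx.1.2.1, hx.1.2.2.1⟩

theorem ex_L13 (hx : x ∈ cor_L13 Y) : ∃ c ∈ Y.K, ∀ t ∈ x.1,
    ∃ a ∈ psi_L13 Y x, Y.le a c ∧ Y.g a = t := by
  obtain ⟨⟨h1, h2, -, h4⟩, c, hc, h5, h6⟩ := hx
  refine ⟨c, hc, fun t ht => ?_⟩
  obtain ⟨a, ha, e1, rfl⟩ := Y.dn c hc t (h1.2.1 ht).1 (h6 ▸ subset_top ht)
  exact ⟨a, mem_psi_L13.2 ⟨ha, Y.dnu c hc _ h2 a ha h5 e1 (h4 _ ht), ht⟩, e1, rfl⟩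

theorem psi_mem_L13 (hx : x ∈ cor_L13 Y) : psi_L13 Y x ∈ sA Y.cG Y.K := by
  obtain ⟨c, hc, h⟩ := ex_L13 hx
  have k : ∀ a ∈ psi_L13 Y x, Y.le a c := fun a ha => by
    obtain ⟨a1, a2, a3⟩ := mem_psi_L13.1 ha
    obtain ⟨a', b1, b2, b3⟩ := h _ a3
    obtain ⟨c1, c2, -⟩ := mem_psi_L13.1 b1
    exact Y.up _ hx.1.2.1 a' c1 a a1 c2 a2 b3 ▸ b2
  refine ⟨⟨_, self_L13 hx⟩, fun a ha => (mem_psi_L13.1 ha).1, fun a ha b hb e => ⟨e, ?_⟩⟩
  obtain ⟨a1, -, a3⟩ := mem_psi_L13.1 ha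
  obtain ⟨b1, -, b3⟩ := mem_psi_L13.1 hb
  exact (adq_sG.1 ((mem_sA.1 hx.1.1).2.2 _ a3 _ b3)).imp (Y.dnu c hc a a1 b b1 (k a ha) (k b hb))
    (Y.dnu c hc b b1 a a1 (k b hb) (k a ha))

theorem sub_L13 (hx : x ∈ cor_L13 Y) (hy : y ∈ cor_L13 Y) :
    psi_L13 Y x ⊆ psi_L13 Y y ↔ x.1 ⊆ y.1 ∧ Y.le y.2 x.2 := by
  refine ⟨fun h => ⟨fun t ht => ?_, (mem_psi_L13.1 (h (self_L13 hx))).2.1⟩, fun h a ha => ?_⟩
  · obtain ⟨_, -, k⟩ := ex_L13 hx
    obtain ⟨a, ha, -, rfl⟩ := k t ht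
    exact (mem_psi_L13.1 (h ha)).2.2
  · obtain ⟨a1, a2, a3⟩ := mem_psi_L13.1 ha
    exact mem_psi_L13.2 ⟨a1, Y.trans _ hy.1.2.1 _ hx.1.2.1 a a1 h.2 a2, h.1 a3⟩

theorem ssub_L13 (hx : x ∈ cor_L13 Y) (hy : y ∈ cor_L13 Y) :
    x.1 ⊂ y.1 ∧ Y.le y.2 x.2 ↔ psi_L13 Y x ⊂ psi_L13 Y y := by
  refine ⟨fun h => ⟨(sub_L13 hx hy).2 ⟨h.1.1, h.2⟩, fun k => h.1.2 ((sub_L13 hy hx).1 k).1⟩,
    fun h => ?_⟩
  obtain ⟨h1, h2⟩ := (sub_L13 hx hy).1 h.1
  refine ⟨⟨h1, fun k => h.2 ((sub_L13 hy hx).2 ⟨k, ?_⟩)⟩, h2⟩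
  rw [eq_L13 hy.1.2.1 hx.1.2.1 h2 (hx.1.2.2.2 _ (k hy.1.2.2.1))]
  exact Y.refl _ hx.1.2.1

theorem iso_L13 (hv : S.Valid) (Y : Stage X) :
    IsIso Y.tG (cor_L13 Y) (sG Y.P) (sA Y.cG Y.K) (psi_L13 Y) := by
  refine ⟨⟨fun x hx => psi_mem_L13 hx, fun x hx y hy e => ?_, fun κ hκ => ?_⟩,
    fun x hx y hy => or_congr (ssub_L13 hx hy) (ssub_L13 hy hx)⟩
  · obtain ⟨h1, h2⟩ := (sub_L13 hx hy).1 e.subset
    obtain ⟨h3, h4⟩ := (sub_L13 hy hx).1 e.symm.subset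
    exact Prod.ext (Finset.Subset.antisymm h1 h3)
      (eq_L13 hx.1.2.1 hy.1.2.1 h4 (Y.mono _ hy.1.2.1 _ hx.1.2.1 h2))
  · have hg : IsHom Y.cG Y.K (sG S.V) (sA S.G S.A) Y.g :=
      ⟨fun a ha => sA_mono hv.subC (Y.mem a ha), fun a ha b hb e =>
        adq_sG.2 (e.2.imp (Y.mono a ha b hb) (Y.mono b hb a ha))⟩
    obtain ⟨σ, h1, h2⟩ : ∃ σ ∈ sA (sG S.V) (sA S.G S.A), ∀ t, t ∈ σ ↔ ∃ a ∈ κ, Y.g a = t :=
      ⟨_, IsHom.image_mem hg hκ, fun t => by simp only [Finset.mem_image]⟩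
    obtain ⟨s, hs, h3⟩ := exists_bot h1
    obtain ⟨b, hb, rfl⟩ := (h2 s).1 hs
    obtain ⟨c, hc, h4⟩ := (h2 _).1 (top_mem h1)
    have k : ∀ a ∈ κ, Y.le b a := fun a ha => by
      have a1 := hκ.2.1 ha
      rcases (mem_sA.1 hκ).2.2 b hb a ha with e | ⟨-, e | e⟩
      · exact e ▸ Y.refl b (hκ.2.1 hb)
      · exact e
      · exact eq_L13 a1 (hκ.2.1 hb) e (h3 _ ((h2 _).2 ⟨a, ha, rfl⟩)) ▸ Y.refl a a1
    refine ⟨(σ, b), ⟨⟨h1, hκ.2.1 hb, hs, h3⟩, c, hκ.2.1 hc, k c hc, h4⟩, Finset.ext fun a => ?_⟩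
    rw [mem_psi_L13]
    refine ⟨fun ⟨a1, a2, a3⟩ => ?_, fun ha => ⟨hκ.2.1 ha, k a ha, (h2 _).2 ⟨a, ha, rfl⟩⟩⟩
    obtain ⟨a', b1, b2⟩ := (h2 _).1 a3
    exact Y.up b (hκ.2.1 hb) a' (hκ.2.1 b1) a a1 (k a' b1) a2 b2 ▸ b1

theorem hom_L13 (Y : Stage X) : IsHom (sG ℕ) (sA X.Δ X.D) Y.cG Y.K Y.F :=
  ⟨fun s hs => (Y.Fmem s hs).1, fun s hs t ht e => or_iff_not_imp_left.2 fun k =>
    ⟨k, Or.imp (fun c => Y.Fmono s hs t ht c.1) (fun c => Y.Fmono t ht s hs c.1) e⟩⟩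

theorem map_L13 (hv : S.Valid) (Y : Stage X) :
    ∃ h : Finset (Finset ℕ) → Finset (Finset S.V) × Y.P,
      IsHom (sG (Finset ℕ)) (sA (sG ℕ) (sA X.Δ X.Γ)) Y.tG (cor_L13 Y) h ∧
      ∀ τ ∈ sA (sG ℕ) (sA X.Δ X.Γ), ∀ t ∈ (h τ).1, ∃ s ∈ τ, s.image X.f = t := by
  have : Nonempty (Finset (Finset S.V) × Y.P) := ⟨(∅, Y.F ∅)⟩
  obtain ⟨q, q1, -, q3⟩ := IsIso.symm' (iso_L13 hv Y)
  have h1 : IsHom (sG ℕ) (sA X.Δ X.Γ) Y.cG Y.K Y.F :=
    ⟨fun s hs => (hom_L13 Y).1 s (sA_mono X.sub hs),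
      fun s hs t ht => (hom_L13 Y).2 s (sA_mono X.sub hs) t (sA_mono X.sub ht)⟩
  have h2 := IsHom.sd h1
  refine ⟨_, (IsIso.hom q1).comp h2, fun τ hτ t ht => ?_⟩
  obtain ⟨_, -, k⟩ := ex_L13 (q1.1.mapsTo (h2.1 τ hτ))
  obtain ⟨a, ha, -, rfl⟩ := k t ht
  rw [q3 _ (h2.1 τ hτ)] at ha
  obtain ⟨s, hs, rfl⟩ := Finset.mem_image.1 ha
  exact ⟨s, hs, (Y.Fmem s (sA_mono X.sub (hτ.2.1 hs))).2.symm⟩

end

theorem Stage.top_solv (hv : S.Valid) {X : Sing S} (Y : Stage X) (ht : Y.Tight)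
    (hn : NDC Y.cG Y.K) : Y.thick.Solv := by
  have hi := iso_L13 hv Y
  have hK : Con Y.cG Y.K := by
    have := (con_sA.2 X.con).image (hom_L13 Y)
    rwa [Set.Subset.antisymm (Set.image_subset_iff.2 (hom_L13 Y).1) ht] at this
  obtain ⟨h, h1, h2⟩ := map_L13 hv Y
  have hf : IsHom X.Δ X.Γ S.G S.B X.f :=
    ⟨X.mapB, fun a ha b hb => X.hom.2 a (X.sub ha) b (X.sub hb)⟩
  have hs := IsHom.sd hf
  have hB : sA S.G S.B ⊆ S.sd.B := fun t k =>
    ⟨sA_mono hv.subB k, k.1.imp fun v a => ⟨a, k.2.1 a⟩⟩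
  have c1 : (cor_L13 Y).Finite := hi.1.finite_iff_finite.2 (sA_finite Y.fin)
  have c2 : Con Y.tG (cor_L13 Y) := (IsIso.con hi).2 (con_sA.2 hK)
  have c3 : NDC Y.tG (cor_L13 Y) := (IsIso.triv hi).2 (triv_sA.2 hn)
  have c4 := (con_sA.2 (con_sA.2 X.conΓ)).image h1
  refine _root_.Pool.Agent.MP_6374aa_g.top_solv (Y.valid hv) c1 c2 c3
    (Γ := h '' sA (sG ℕ) (sA X.Δ X.Γ)) ?_ c4 fun hp => X.ess ?_
  · rintro _ ⟨τ, hτ, rfl⟩
    have a1 := h1.1 τ hτ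
    have a2 : ∀ t ∈ (h τ).1, t ∈ S.sd.B := fun t k => by
      obtain ⟨s, b1, rfl⟩ := h2 τ hτ t k
      exact hB (hs.1 s (hτ.2.1 b1))
    exact ⟨a1, a1.1, ⟨a1.1.1.1, fun t k => (Setup.Valid.sd hv).subB (a2 t k), a1.1.1.2.2⟩,
      a1.1.1.1.imp fun t k => ⟨k, a2 t k⟩⟩
  · have a1 : IsHom (sG (Finset ℕ)) (sA (sG ℕ) (sA X.Δ X.Γ)) Y.tG
        (h '' sA (sG ℕ) (sA X.Δ X.Γ)) h := ⟨fun τ hτ => ⟨τ, hτ, rfl⟩, h1.2⟩
    have a2 := pot_L13 hs ((Setup.Valid.sd hv).flat.mono hB)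
      (φ := fun τ => pk S.sd.B (h τ).1)
      (fun τ hτ => h2 τ hτ _ (pk_mem _ (h1.1 τ hτ).1.1.1)) (Pot.pull hp a1)
    exact pot_L13 hf hv.flat (φ := fun s => pk S.B (s.image X.f))
      (fun s k => Finset.mem_image.1 (pk_mem _ (hs.1 s k).1)) a2

end Pool.Agent.MP_6374aa_g

end

section

/-! A null homotopic loop bounds a finite complex without double cover. -/

namespace Pool.Agent.MP_6374aa_g

open Pool.Agent.MP_6374aa_gt Classical

variable {V V' V'' : Type} {G : SimpleGraph V} {G' : SimpleGraph V'} {G'' : SimpleGraph V''}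
  {A : Set V} {A' : Set V'} {A'' : Set V''} {L : Type} [Group L]

theorem split_P5 {a c : V} {l m : List V} (h : Wk G A a (l ++ m) c) :
    ∃ b, Wk G A a l b ∧ Wk G A b m c := by
  induction l generalizing a with
  | nil => exact ⟨a, Wk.nil h.mem_left, h⟩
  | cons x l ih =>
    cases h with
    | cons ha hx hw =>
      obtain ⟨b, h1, h2⟩ := ih hw
      exact ⟨b, Wk.cons ha hx h1, h2⟩

theorem uncons_P5 {a x c : V} {l : List V} (h : Wk G A a (x :: l) c) :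
    Adq G a x ∧ Wk G A x l c := by
  cases h with
  | cons ha hx hw => exact ⟨hx, hw⟩

theorem unnil_P5 {a c : V} (h : Wk G A a [] c) : a = c := by
  cases h
  rfl

/-- Transport along a walk. -/
def run_P5 {α : Type} (T : V → V → α → α) : V → List V → α → α
  | _, [], X => X
  | a, c :: l, X => T a c (run_P5 T c l X)

theorem transport_P5 {α : Type} (S : V → α → Prop) (T : V → V → α → α)
    (h1 : ∀ u ∈ A, ∀ w ∈ A, Adq G u w → ∀ X, S w X → S u (T u w X))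
    (h2 : ∀ u ∈ A, ∀ X, S u X → T u u X = X)
    (h3 : ∀ u ∈ A, ∀ v ∈ A, ∀ w ∈ A, Adq G u v → Adq G v w → Adq G u w → ∀ X, S w X →
      T u v (T v w X) = T u w X)
    {b : V} {l : List V} (hw : Wk G A b l b) (hn : Null G A b l) {X : α} (hX : S b X) :
    run_P5 T b l X = X := by
  have hE : ∀ u w, u ∈ A ∧ w ∈ A ∧ Adq G u w → ∃ e : {X // S w X} ≃ {X // S u X},
      ∀ X, (e X).1 = T u w X.1 := by
    rintro u w ⟨hu, hw, h⟩
    refine ⟨⟨fun X => ⟨T u w X.1, h1 u hu w hw h _ X.2⟩,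
      fun X => ⟨T w u X.1, h1 w hw u hu (adq_symm h) _ X.2⟩, fun X => Subtype.ext ?_,
      fun X => Subtype.ext ?_⟩, fun X => rfl⟩
    · exact (h3 w hw u hu w hw (adq_symm h) h (adq_refl w) _ X.2).trans (h2 w hw _ X.2)
    · exact (h3 u hu w hw u hu h (adq_symm h) (adq_refl u) _ X.2).trans (h2 u hu _ X.2)
  choose E hE using hE
  let N : V → Prop := fun u => Nonempty ({X // S u X} ≃ {X // S b X})
  have hN : ∀ u w, u ∈ A ∧ w ∈ A ∧ Adq G u w → (N u ↔ N w) := fun u w h =>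
    ⟨fun ⟨e⟩ => ⟨(E u w h).trans e⟩, fun ⟨e⟩ => ⟨(E u w h).symm.trans e⟩⟩
  let lab : V → V → Equiv.Perm {X // S b X} := fun u w =>
    if h : (u ∈ A ∧ w ∈ A ∧ Adq G u w) ∧ N u ∧ N w then
      (h.2.2.some.symm.trans (E u w h.1)).trans h.2.1.some else 1
  have hl : ∀ u w (h : u ∈ A ∧ w ∈ A ∧ Adq G u w) (hu : N u) (hw : N w) (Y),
      lab u w (hw.some Y) = hu.some (E u w h Y) := by
    intro u w h hu hw Y
    simp only [lab, dif_pos (And.intro h (And.intro hu hw))]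
    simp
  have hf : Flat G A lab := by
    intro u hu v hv w hw huv hvw huw
    by_cases hNu : N u
    · have hNv := (hN u v ⟨hu, hv, huv⟩).1 hNu
      have hNw := (hN u w ⟨hu, hw, huw⟩).1 hNu
      ext1 Y
      obtain ⟨Y, rfl⟩ := hNw.some.surjective Y
      rw [Equiv.Perm.mul_apply, hl v w ⟨hv, hw, hvw⟩ hNv hNw, hl u v ⟨hu, hv, huv⟩ hNu hNv,
        hl u w ⟨hu, hw, huw⟩ hNu hNw]
      congr 1
      apply Subtype.ext
      rw [hE, hE, hE]
      exact h3 u hu v hv w hw huv hvw huw _ Y.2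
    · have hNv : ¬ N v := fun h => hNu ((hN u v ⟨hu, hv, huv⟩).2 h)
      simp only [lab]
      rw [dif_neg fun h => hNu h.2.1, dif_neg fun h => hNv h.2.1, dif_neg fun h => hNu h.2.1,
        one_mul]
  have key : ∀ a m c, Wk G A a m c → ∀ (hc : N c) (Y : {X // S c X}), ∃ (ha : N a)
      (Z : {X // S a X}), Z.1 = run_P5 T a m Y.1 ∧ ev lab a m (hc.some Y) = ha.some Z := by
    intro a m c h
    induction h with
    | nil _ => exact fun hc Y => ⟨hc, Y, rfl, rfl⟩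
    | @cons a x c m ha hx hw ih =>
      intro hc Y
      obtain ⟨hNx, Z, e1, e2⟩ := ih hc Y
      have h : a ∈ A ∧ x ∈ A ∧ Adq G a x := ⟨ha, hw.mem_left, hx⟩
      have hNa := (hN a x h).2 hNx
      refine ⟨hNa, E a x h Z, ?_, ?_⟩
      · rw [hE, e1]
        rfl
      · rw [ev, Equiv.Perm.mul_apply, e2, hl a x h hNa hNx]
  have hb : N b := ⟨Equiv.refl _⟩
  obtain ⟨_, Z, e1, e2⟩ := key b l b hw hb ⟨X, hX⟩
  rw [hn _ lab hf, Equiv.Perm.one_apply] at e2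
  rw [← e1, ← hb.some.injective e2]

theorem adq_rel_P5 {r : V → V → Prop} {a c : V} :
    Adq (SimpleGraph.fromRel r) a c ↔ a = c ∨ r a c ∨ r c a := by
  unfold Adq
  rw [SimpleGraph.fromRel_adj]
  tauto

/-- Attaching the triangle `n, y, z` along one edge (`n` is new) or along two edges. -/
theorem ext_P5 {Δ : SimpleGraph ℕ} {D : Set ℕ} {f : ℕ → V} (hc : Con Δ D) (hd : NDC Δ D)
    (hf : IsHom Δ D G A f) {n y z : ℕ} (hy : y ∈ D) (hz : z ∈ D) (hyz : Adq Δ y z)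
    (hn : n ∈ D → Adq Δ n y) (hA : f n ∈ A) (h1 : Adq G (f n) (f y)) (h2 : Adq G (f n) (f z)) :
    ∃ Δ' : SimpleGraph ℕ, Con Δ' (insert n D) ∧ NDC Δ' (insert n D) ∧
      IsHom Δ' (insert n D) G A f ∧ IsHom Δ D Δ' (insert n D) id ∧ Adq Δ' n y ∧ Adq Δ' n z := by
  let r : ℕ → ℕ → Prop := fun a c => (a ∈ D ∧ c ∈ D ∧ Δ.Adj a c) ∨ (a = n ∧ (c = y ∨ c = z))
  have hi : IsHom Δ D (SimpleGraph.fromRel r) (insert n D) id :=
    ⟨fun a ha => Or.inr ha, fun a ha c hc h => adq_rel_P5.2 (Or.inr (Or.inl (Or.inl ⟨ha, hc, h⟩)))⟩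
  have ey : Adq (SimpleGraph.fromRel r) n y :=
    adq_rel_P5.2 (Or.inr (Or.inl (Or.inr ⟨rfl, Or.inl rfl⟩)))
  have ez : Adq (SimpleGraph.fromRel r) n z :=
    adq_rel_P5.2 (Or.inr (Or.inl (Or.inr ⟨rfl, Or.inr rfl⟩)))
  have mn : n ∈ insert n D := Or.inl rfl
  have my : y ∈ insert n D := Or.inr hy
  have mz : z ∈ insert n D := Or.inr hz
  refine ⟨SimpleGraph.fromRel r, ⟨⟨n, mn⟩, pre_of_base (x := y) ?_⟩, ?_, ⟨?_, ?_⟩, hi, ey, ez⟩
  · rintro a (rfl | ha)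
    · exact Reach.single mn my ey
    · exact (hc.2 a ha y hy).map hi
  · intro lab hl
    obtain ⟨p, hp⟩ := hd _ (flat_pull hl hi)
    have hp' : ∀ u ∈ D, ∀ w ∈ D, Adq Δ u w → lab u w = p u * (p w)⁻¹ := hp
    let q : ℕ → Z2 := Function.update p n (lab n y * p y)
    have qn : q n = lab n y * p y := Function.update_self ..
    have qD : ∀ a ∈ D, q a = p a := by
      intro a ha
      by_cases e : a = n
      · subst e
        rw [qn, hp' a ha y hy (hn ha), inv_mul_cancel_right]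
      · exact Function.update_of_ne e ..
    have hr : ∀ a c, r a c → lab a c = q a * (q c)⁻¹ := by
      rintro a c (⟨ha, hc, h⟩ | ⟨rfl, rfl | rfl⟩)
      · rw [qD a ha, qD c hc, hp' a ha c hc (Or.inr h)]
      · rw [qn, qD c hy, mul_inv_cancel_right]
      · rw [qn, qD c hz, ← hl a mn y my c mz ey (hi.adq hy hz hyz) ez, hp' y hy c hz hyz, mul_assoc]
    refine ⟨q, fun a ha c hc h => ?_⟩
    rcases adq_rel_P5.1 h with rfl | h' | h'
    · rw [hl.self ha, mul_inv_cancel]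
    · exact hr a c h'
    · rw [hl.symm hc ha (adq_symm h), hr c a h', mul_inv_rev, inv_inv]
  · rintro a (rfl | ha)
    · exact hA
    · exact hf.1 a ha
  · have hr : ∀ a c, r a c → Adq G (f a) (f c) := by
      rintro a c (⟨ha, hc, h⟩ | ⟨rfl, rfl | rfl⟩)
      · exact hf.2 a ha c hc h
      · exact h1
      · exact h2
    intro a _ c _ h
    rcases ((SimpleGraph.fromRel_adj r a c).1 h).2 with h' | h'
    · exact hr a c h'
    · exact adq_symm (hr c a h')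

/-- The loop `l` at `b` lifts to a finite connected complex without double cover. -/
def Dsc_P5 (G : SimpleGraph V) (A : Set V) (b : V) (l : List V) : Prop :=
  ∃ (Δ : SimpleGraph ℕ) (D : Set ℕ) (f : ℕ → V) (x : ℕ) (ω : List ℕ), D.Finite ∧ Con Δ D ∧
    NDC Δ D ∧ IsHom Δ D G A f ∧ Wk Δ D x ω x ∧ f x = b ∧ ω.map f = l

theorem wk_id_P5 {Δ Δ' : SimpleGraph ℕ} {D D' : Set ℕ} (h : IsHom Δ D Δ' D' id) {a c : ℕ}
    {l : List ℕ} (hw : Wk Δ D a l c) : Wk Δ' D' a l c := by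
  simpa using hw.map h

theorem del_P5 {b u v w : V} {p q : List V} (hp : Wk G A b p u) (huw : Adq G u w)
    (h : Dsc_P5 G A b (p ++ v :: w :: q)) : Dsc_P5 G A b (p ++ w :: q) := by
  obtain ⟨Δ, D, f, x, ω, hD, hc, hd, hf, hw, rfl, e⟩ := h
  obtain ⟨ω1, ω', rfl, rfl, e1⟩ := List.map_eq_append_iff.1 e
  obtain ⟨y, ω'', rfl, rfl, e2⟩ := List.map_eq_cons_iff.1 e1
  obtain ⟨z, ω2, rfl, rfl, rfl⟩ := List.map_eq_cons_iff.1 e2
  obtain ⟨n, w1, w2⟩ := split_P5 hw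
  obtain ⟨a1, w3⟩ := uncons_P5 w2
  obtain ⟨a2, w4⟩ := uncons_P5 w3
  obtain rfl := hp.end_unique (w1.map hf)
  have hn := w1.mem_right
  obtain ⟨Δ', c1, c2, c3, c4, -, c6⟩ := ext_P5 hc hd hf w3.mem_left w4.mem_left a2 (fun _ => a1)
    (hf.1 n hn) (hf.adq hn w3.mem_left a1) huw
  refine ⟨Δ', insert n D, f, x, ω1 ++ z :: ω2, hD.insert n, c1, c2, c3, ?_, rfl, by simp⟩
  exact (wk_id_P5 c4 w1).append (Wk.cons (Or.inl rfl) c6 (wk_id_P5 c4 w4))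

theorem ins_P5 {b u v w : V} {p q : List V} (hp : Wk G A b p u) (hv : v ∈ A) (huv : Adq G u v)
    (hvw : Adq G v w) (h : Dsc_P5 G A b (p ++ w :: q)) : Dsc_P5 G A b (p ++ v :: w :: q) := by
  obtain ⟨Δ, D, f, x, ω, hD, hc, hd, hf, hw, rfl, e⟩ := h
  obtain ⟨ω1, ω', rfl, rfl, e1⟩ := List.map_eq_append_iff.1 e
  obtain ⟨z, ω2, rfl, rfl, rfl⟩ := List.map_eq_cons_iff.1 e1
  obtain ⟨y, w1, w2⟩ := split_P5 hw
  obtain ⟨a1, w3⟩ := uncons_P5 w2
  obtain rfl := hp.end_unique (w1.map hf)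
  obtain ⟨n, hn⟩ := hD.exists_notMem
  have hy := w1.mem_right
  have hz := w3.mem_left
  let g : ℕ → V := Function.update f n v
  have gn : g n = v := Function.update_self ..
  have gD : ∀ a ∈ D, g a = f a := fun a ha =>
    Function.update_of_ne (fun e : a = n => hn (e ▸ ha)) ..
  have hg : IsHom Δ D G A g := ⟨fun a ha => gD a ha ▸ hf.1 a ha, fun a ha c hc h => by
    rw [gD a ha, gD c hc]
    exact hf.2 a ha c hc h⟩
  obtain ⟨Δ', c1, c2, c3, c4, c5, c6⟩ := ext_P5 (n := n) hc hd hg hy hz a1 (fun h => (hn h).elim)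
    (gn ▸ hv) (by rw [gn, gD y hy]; exact adq_symm huv) (by rw [gn, gD z hz]; exact hvw)
  refine ⟨Δ', insert n D, g, x, ω1 ++ n :: z :: ω2, hD.insert n, c1, c2, c3, ?_,
    gD x w1.mem_left, ?_⟩
  · exact (wk_id_P5 c4 w1).append (Wk.cons (Or.inr hy) (adq_symm c5)
      (Wk.cons (Or.inl rfl) c6 (wk_id_P5 c4 w3)))
  · rw [List.map_append, List.map_cons, List.map_cons, gn, gD z hz,
      List.map_congr_left fun a ha => gD a (w1.mem_list a ha),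
      List.map_congr_left fun a ha => gD a (w3.mem_list a ha)]

theorem snoc_P5 {b : V} {p : List V} (h : Dsc_P5 G A b p) : Dsc_P5 G A b (p ++ [b]) := by
  obtain ⟨Δ, D, f, x, ω, hD, hc, hd, hf, hw, rfl, rfl⟩ := h
  exact ⟨Δ, D, f, x, ω ++ [x], hD, hc, hd, hf,
    hw.append (Wk.single hw.mem_left hw.mem_left (adq_refl x)), rfl, by simp⟩

theorem nil_P5 {b : V} (hb : b ∈ A) : Dsc_P5 G A b [] := by
  refine ⟨⊥, {0}, fun _ => b, 0, [], Set.finite_singleton 0, con_singleton 0, ?_,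
    ⟨fun _ _ => hb, fun _ _ _ _ _ => adq_refl b⟩, Wk.nil rfl, rfl, rfl⟩
  intro lab hl
  refine ⟨fun _ => 1, ?_⟩
  rintro u rfl w rfl -
  rw [hl.self rfl, mul_inv_cancel]

/-- Sets of walks from `b` to `c` that are closed under the elementary moves. -/
def Sat_P5 (G : SimpleGraph V) (A : Set V) (b c : V) (X : Set (List V)) : Prop :=
  (∀ p ∈ X, Wk G A b p c) ∧ (∀ p, Wk G A b p c → (p ++ [c] ∈ X ↔ p ∈ X)) ∧
    ∀ p u v w q, Wk G A b p u → v ∈ A → Adq G u v → Adq G v w → Adq G u w → Wk G A w q c →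
      (p ++ v :: w :: q ∈ X ↔ p ++ w :: q ∈ X)

theorem disc_ex {b : V} {l : List V} (hw : Wk G A b l b) (hn : Null G A b l) :
    ∃ (Δ : SimpleGraph ℕ) (D : Set ℕ) (f : ℕ → V) (x : ℕ) (ω : List ℕ), D.Finite ∧ Con Δ D ∧
      NDC Δ D ∧ IsHom Δ D G A f ∧ Wk Δ D x ω x ∧ f x = b ∧ ω.map f = l := by
  have hb := hw.mem_left
  let T : V → V → Set (List V) → Set (List V) := fun u w X => {p | Wk G A b p u ∧ p ++ [w] ∈ X}
  have hT : ∀ u w X p, p ∈ T u w X ↔ Wk G A b p u ∧ p ++ [w] ∈ X := fun _ _ _ _ => Iff.rfl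
  have two : ∀ {p u v w q c}, Wk G A b p u → v ∈ A → Adq G u v → Adq G v w → Wk G A w q c →
      Wk G A b (p ++ v :: w :: q) c := fun h hv h1 h2 h' =>
    h.append (Wk.cons h.mem_right h1 (Wk.cons hv h2 h'))
  have one : ∀ {p u w q c}, Wk G A b p u → Adq G u w → Wk G A w q c →
      Wk G A b (p ++ w :: q) c := fun h h1 h' => h.append (Wk.cons h.mem_right h1 h')
  have hS : Sat_P5 G A b b {p | Wk G A b p b ∧ Dsc_P5 G A b p} := by
    refine ⟨fun p hp => hp.1, fun p hp => ⟨fun h => ⟨hp, ?_⟩, fun h =>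
      ⟨one hp (adq_refl b) (Wk.nil hb), snoc_P5 h.2⟩⟩, fun p u v w q hp hv h1 h2 h3 hq =>
      ⟨fun h => ⟨one hp h3 hq, del_P5 hp h3 h.2⟩,
        fun h => ⟨two hp hv h1 h2 hq, ins_P5 hp hv h1 h2 h.2⟩⟩⟩
    rcases List.eq_nil_or_concat' p with rfl | ⟨p, c, rfl⟩
    · exact nil_P5 hb
    · obtain ⟨u, w1, w2⟩ := split_P5 hp
      obtain ⟨a1, w3⟩ := uncons_P5 w2
      obtain rfl := unnil_P5 w3
      have h2 := h.2
      rw [List.append_assoc] at h2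
      exact del_P5 w1 a1 h2
  have key := transport_P5 (Sat_P5 G A b) T ?_ ?_ ?_ hw hn hS
  · have hr : ∀ a m c, Wk G A a m c → ∀ X p, Wk G A b p a → p ∈ run_P5 T a m X → p ++ m ∈ X := by
      intro a m c h
      induction h with
      | nil _ => exact fun X p _ h => by simpa [run_P5] using h
      | @cons a x c m ha hx hw ih =>
        intro X p hp h
        have h' := ih X (p ++ [x]) (one hp hx (Wk.nil hw.mem_left)) ((hT _ _ _ _).1 h).2
        simpa using h'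
    have h0 := hr b l b hw _ [] (Wk.nil hb) (by rw [key]; exact ⟨Wk.nil hb, nil_P5 hb⟩)
    exact h0.2
  · intro u hu w hw h X hX
    refine ⟨fun p hp => hp.1, fun p hp => ?_, fun p u' v w' q hp hv h1 h2 h3 hq => ?_⟩
    · rw [hT, hT, List.append_assoc]
      exact and_congr (iff_of_true (one hp (adq_refl u) (Wk.nil hu)) hp)
        (hX.2.2 p u u w [] hp hu (adq_refl u) h h (Wk.nil hw))
    · rw [hT, hT, List.append_assoc, List.append_assoc]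
      exact and_congr (iff_of_true (two hp hv h1 h2 hq) (one hp h3 hq))
        (hX.2.2 p u' v w' (q ++ [w]) hp hv h1 h2 h3 (hq.append (Wk.single hu hw h)))
  · intro u hu X hX
    ext p
    rw [hT]
    exact ⟨fun h => (hX.2.1 p h.1).1 h.2, fun h => ⟨hX.1 p h, (hX.2.1 p (hX.1 p h)).2 h⟩⟩
  · intro u hu v hv w hw h1 h2 h3 X hX
    ext p
    rw [hT, hT, hT, List.append_assoc]
    refine and_congr_right fun hp => ?_
    rw [and_iff_right (one hp h1 (Wk.nil hv))]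
    exact hX.2.2 p u v w [] hp hv h1 h2 h3 (Wk.nil hw)

end Pool.Agent.MP_6374aa_g

end

section

/-! The loop theorem. -/

namespace Pool.Agent.MP_6374aa_g

open Pool.Agent.MP_6374aa_gt Classical

variable {V V' V'' : Type} {G : SimpleGraph V} {G' : SimpleGraph V'} {G'' : SimpleGraph V''}
  {A : Set V} {A' : Set V'} {A'' : Set V''} {L : Type} [Group L]

theorem reach_L14 {a b : V} {l : List V} (h : Wk G A a l b) : ∀ y ∈ l, Reach G A a y := by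
  induction h with
  | nil _ => exact fun y hy => absurd hy List.not_mem_nil
  | cons ha hab hw ih =>
    intro y hy
    have h1 := Reach.single ha hw.mem_left hab
    rcases List.mem_cons.1 hy with rfl | hy
    · exact h1
    · exact h1.trans (ih y hy)

theorem sing_L14 {S : Setup L} {b : S.V} {l : List S.V} (hw : Wk S.G (S.B ∩ S.C) b l b)
    (hn : Null S.G S.C b l) (he : ev S.lab b l ≠ 1) : Nonempty (Sing S) := by
  obtain ⟨Δ, D, f, x, ω, h1, h2, h3, h4, h5, h6, h7⟩ := disc_ex (hw.mono Set.inter_subset_right) hn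
  have w : Wk Δ {y | y = x ∨ y ∈ ω} x ω x := h5.restrict (Or.inl rfl) fun y hy => Or.inr hy
  refine ⟨⟨Δ, D, {y | y = x ∨ y ∈ ω}, f, h1, h2, h3, h4, ?_, ⟨⟨x, Or.inl rfl⟩, ?_⟩, ?_, ?_⟩⟩
  · rintro y (rfl | hy)
    · exact h5.mem_left
    · exact h5.mem_list y hy
  · refine pre_of_base (x := x) ?_
    rintro y (rfl | hy)
    · exact Reach.refl _
    · exact (reach_L14 w y hy).symm
  · rintro y (rfl | hy)
    · rw [h6]
      exact hw.mem_left.1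
    · exact (hw.mem_list _ (h7 ▸ List.mem_map_of_mem hy)).1
  · intro hp
    have e := hp.ev_loop w
    rw [ev_pull, h6, h7] at e
    exact he e

theorem tower_L14 {S : Setup L} (hv : S.Valid) {X : Sing S} (n : ℕ) :
    ∀ Y : Stage X, Y.Tight → (sA X.Δ X.D).ncard - Y.K.ncard = n → Y.thick.Solv := by
  induction n using Nat.strong_induction_on with
  | _ n ih =>
    intro Y ht hn
    by_cases h : NDC Y.cG Y.K
    · exact Y.top_solv hv ht h
    · obtain ⟨Y1, Y2, p, τ, e, h1, h2, h3, h4⟩ := Y.double hv ht h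
      have h5 := Y2.card_le h3
      exact h1.solv (Y1.valid hv) (Y.valid hv)
        (h2.solv (Y2.valid hv) (Y1.valid hv) (ih _ (by omega) Y2 h3 rfl))

theorem loop_main : LOOP_st := by
  intro L _ S hv b l hw hn he
  obtain ⟨X⟩ := sing_L14 hw hn he
  obtain ⟨Y, p, h1, h2⟩ := Stage.init hv X
  exact (h2.solv (Y.valid hv) hv.sd.sd (tower_L14 hv _ Y h1 rfl)).of_sd.of_sd

end Pool.Agent.MP_6374aa_g

end

section

/-! Several disjoint discs. -/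

namespace Pool.Agent.MP_6374aa_g

open Pool.Agent.MP_6374aa_gt Classical

variable {V V' V'' : Type} {G : SimpleGraph V} {G' : SimpleGraph V'} {G'' : SimpleGraph V''}
  {A : Set V} {A' : Set V'} {A'' : Set V''} {L : Type} [Group L]

theorem MS.Valid.sd {ι : Type} {M : MS ι} {I : Set ι} (h : M.Valid I) : M.sd.Valid I := by
  refine ⟨sA_finite h.fin, Mf.sd h.mf le_rfl, fun i _ s hs => ?_, fun i hi => ?_,
    fun i hi j hj e => far_nb (h.far i hi j hj e), fun i hi => ?_⟩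
  · have h1 : s ∈ sA M.G (M.W ∩ M.T) := hs.1
    rwa [sA_inter] at h1
  · exact flat_pull (h.flat i hi) (isHom_pick (A := M.W ∩ M.T) (fun s hs => hs.1)
      fun s hs => ⟨pk_mem _ hs.1.1, pk_mem_B hs.2⟩)
  · obtain ⟨b, l, h1, h2, h3⟩ := h.loop i hi
    refine ⟨({b} : Finset M.V), sdw b l,
      (sdw_wk h1).mono fun s hs => ⟨sA_mono (h.subB i hi) hs, ?_⟩,
      null_sdw (h1.mono fun x hx => (h.subB i hi hx).1) h2, ?_⟩
    · obtain ⟨v, hv⟩ := hs.1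
      exact ⟨v, hv, hs.2.1 hv⟩
    · rw [← ev_sdw (h.flat i hi) (fun s hs => pk_mem (M.B i) hs.1) h1] at h3
      exact h3

/-- The complement of a properly embedded disc injects. -/
theorem null_off_disc {T D X : Set V} (h : Mf G 3 A T) (hD : D ⊆ A) (hb : Ball G 3 D T)
    (hX : X ⊆ A) (hDX : ∀ a ∈ D, ∀ b ∈ A, Adq G a b → b ∈ X) {a : V} {l : List V}
    (hw : Wk G (X \ D) a l a) (hn : Null G X a l) : Null G (X \ D) a l := by
  intro L _ lab hl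
  have : Nonempty V := ⟨a⟩
  have e : fr G X D = fr G A D := by
    ext s
    refine and_congr_left fun hs => ⟨fun h1 => sA_mono hX h1, fun h1 => ?_⟩
    obtain ⟨v, hv, hv'⟩ := hs.1
    obtain ⟨k1, k2, k3⟩ := mem_sA.1 h1
    exact mem_sA.2 ⟨k1, fun x hx => hDX v hv' x (k2 hx) (k3 v hv x hx), k3⟩
  have h1 : SCo (sG V) (fr G A D) := fr_sco hD (Cell.finite hb) (Mfa.mono h hD) (Cell.con hb)
    (Cell.ndc hb) (Cell.con (Ball.bd (d := 2) hb le_rfl)).2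
  have h2 : Flat (sG V) (nb G X (X \ D)) (pull (pk (X \ D)) lab) :=
    flat_pull hl (isHom_pick (A := X) (fun s hs => hs.1)
      fun s hs => ⟨pk_mem _ hs.1.1, pk_mem_B hs.2⟩)
  have hc : Cov2 (sG V) (sA G X) (nb G X (X \ D)) (nb G X D) :=
    ⟨(cov2_nb D).2.1, (cov2_nb D).1, fun u hu v hv w hw' k1 k2 k3 =>
      ((cov2_nb D).2.2 u hu v hv w hw' k1 k2 k3).symm⟩
  have h3 : Pot (sG V) (nb G X (X \ D) ∩ nb G X D) (pull (pk (X \ D)) lab) := by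
    have h4 := h2.mono (Set.inter_subset_left (t := nb G X D))
    rw [Set.inter_comm, nb_inter_nb, e] at h4 ⊢
    exact h1 L _ h4
  obtain ⟨l2, k1, k2, -⟩ := glue_ext hc h2 h3
  have k3 := null_sdw (hw.mono Set.sdiff_subset) hn L l2 k1
  have k4 : Wk (sG V) (nb G X (X \ D)) {a} (sdw a l) {a} :=
    (sdw_wk hw).mono fun s hs => ⟨sA_mono Set.sdiff_subset hs, by
      obtain ⟨v, hv⟩ := hs.1
      exact ⟨v, hv, hs.2.1 hv⟩⟩
  rwa [ev_congr k2 k4, ev_sdw hl (fun s hs => pk_mem _ hs.1) hw] at k3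

/-- The setup for one index and a core. -/
def st_L15 {ι : Type} (M : MS ι) (C : Set M.V) (i : ι) : Setup Z2 where
  V := M.V
  G := M.G
  A := M.W
  T := M.T
  C := C
  B := M.B i
  lab := M.lab i

theorem st_valid_L15 {ι : Type} {M : MS ι} {I : Set ι} (h : M.Valid I) {C : Set M.V}
    (hC : C ⊆ M.W) {i : ι} (hi : i ∈ I) : (st_L15 M C i).Valid :=
  ⟨hC, h.subB i hi, Mfa.mono h.mf hC, h.flat i hi⟩

theorem iter_L15 {ι : Type} {I : Set ι} (k : ℕ) :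
    ∀ M : MS ι, M.Valid I → (MS.sd^[k] M).Valid I := by
  induction k with
  | zero => exact fun _ h => h
  | succ k ih => exact fun M h => ih M.sd h.sd

theorem discs_sd_L15 {ι : Type} {M : MS ι} {I J : Set ι} (h : M.Valid I) (hJ : J ⊆ I)
    {D : ι → Set M.V} (hD : M.Discs J D) : M.sd.Discs J fun i => sA M.G (D i) := by
  have h1 : ∀ j ∈ J, (st_L15 M M.W j).sd.Disc (sA M.G (D j)) := fun j hj =>
    Setup.Disc.sd (st_valid_L15 h subset_rfl (hJ hj))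
      ⟨hD.subset j hj, hD.ball j hj, hD.subB j hj, hD.ess j hj⟩
  exact ⟨fun j hj => sA_mono (hD.subset j hj), fun j hj => (h1 j hj).ball,
    fun j hj => (h1 j hj).subB, fun j hj => (h1 j hj).ess,
    fun i hi j hj e => (far_sA (hD.disj i hi j hj e)).disjoint⟩

theorem step_L15 {ι : Type} {I J : Set ι} (hJ : J ⊆ I) {i : ι} (hi : i ∉ J) (k : ℕ) :
    ∀ (M : MS ι) (C : Set M.V) (D : ι → Set M.V), M.Valid I → M.Discs J D → C ⊆ M.W →
      (∀ j ∈ J, Disjoint C (D j)) → (∃ E, (Setup.sd^[k] (st_L15 M C i)).Disc E) →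
      ∃ D', (MS.sd^[k] M).Discs (insert i J) D' := by
  induction k with
  | zero =>
    rintro M C D - hD hC hd ⟨E, hE⟩
    change Set M.V at E
    have hE' : (st_L15 M C i).Disc E := hE
    have hn : ∀ j ∈ J, j ≠ i := fun j hj e => hi (e ▸ hj)
    have key : M.Discs (insert i J) fun j => if j = i then E else D j := by
      refine ⟨?_, ?_, ?_, ?_, ?_⟩
      · rintro j (rfl | hj)
        · rw [if_pos rfl]
          exact fun x hx => hC (hE'.subC hx)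
        · rw [if_neg (hn j hj)]
          exact hD.subset j hj
      · rintro j (rfl | hj)
        · rw [if_pos rfl]
          exact hE'.ball
        · rw [if_neg (hn j hj)]
          exact hD.ball j hj
      · rintro j (rfl | hj)
        · rw [if_pos rfl]
          exact hE'.subB
        · rw [if_neg (hn j hj)]
          exact hD.subB j hj
      · rintro j (rfl | hj)
        · rw [if_pos rfl]
          exact hE'.ess
        · rw [if_neg (hn j hj)]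
          exact hD.ess j hj
      · intro j hj j' hj' e
        rcases hj with hj | hj <;> rcases hj' with hj' | hj'
        · exact absurd (hj.trans hj'.symm) e
        · rw [if_pos hj, if_neg (hn j' hj')]
          exact (hd j' hj').mono_left hE'.subC
        · rw [if_neg (hn j hj), if_pos hj']
          exact ((hd j hj).mono_left hE'.subC).symm
        · rw [if_neg (hn j hj), if_neg (hn j' hj')]
          exact hD.disj j hj j' hj' e
    exact ⟨_, key⟩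
  | succ k ih =>
    intro M C D h hD hC hd hE
    refine ih M.sd (nb M.G M.W C) (fun j => sA M.G (D j)) h.sd (discs_sd_L15 h hJ hD)
      (fun s hs => hs.1) (fun j hj => Set.disjoint_left.2 ?_) hE
    rintro s ⟨-, v, hv, hv'⟩ hs
    exact Set.disjoint_left.1 (hd j hj) hv' (hs.2.1 hv)

theorem null_L15 {ι : Type} {T : Set V} (h : Mf G 3 A T) {D : ι → Set V} {J : Set ι}
    (hJ : J.Finite) (h1 : ∀ j ∈ J, D j ⊆ A) (h2 : ∀ j ∈ J, Ball G 3 (D j) T)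
    (h3 : ∀ i ∈ J, ∀ j ∈ J, i ≠ j → Far G (D i) (D j)) {a : V} {l : List V}
    (hn : Null G A a l) (hw : Wk G {x | x ∈ A ∧ ∀ j ∈ J, x ∉ D j} a l a) :
    Null G {x | x ∈ A ∧ ∀ j ∈ J, x ∉ D j} a l := by
  revert hw
  refine Set.Finite.induction_on_subset (motive := fun J _ =>
    Wk G {x | x ∈ A ∧ ∀ j ∈ J, x ∉ D j} a l a → Null G {x | x ∈ A ∧ ∀ j ∈ J, x ∉ D j} a l)
    J hJ (fun _ => hn.mono fun x hx => ⟨hx, fun _ hj => absurd hj (Set.notMem_empty _)⟩) ?_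
  intro i K hi hK hiK ih hw
  have e : {x | x ∈ A ∧ ∀ j ∈ insert i K, x ∉ D j} = {x | x ∈ A ∧ ∀ j ∈ K, x ∉ D j} \ D i := by
    ext x
    simp only [Set.mem_ofPred_eq, Set.forall_mem_insert, Set.mem_sdiff]
    tauto
  rw [e] at hw ⊢
  refine null_off_disc h (h1 i hi) (h2 i hi) (fun x hx => hx.1) (fun x hx y hy hxy => ?_) hw
    (ih (hw.mono Set.sdiff_subset))
  exact ⟨hy, fun j hj hyj => h3 i hi j (hK hj) (fun e' => hiK (e' ▸ hj)) x hx y hyj hxy⟩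

theorem new_L15 {ι : Type} {M : MS ι} {I J : Set ι} (hI : I.Finite) (h : M.Valid I) (hJ : J ⊆ I)
    {i : ι} (hi : i ∈ I) (hiJ : i ∉ J) {D : ι → Set M.V} (hD : M.Discs J D)
    (hf : ∀ i ∈ J, ∀ j ∈ J, i ≠ j → Far M.G (D i) (D j)) :
    ∃ k D', (MS.sd^[k] M).Discs (insert i J) D' := by
  obtain ⟨b, l, h1, h2, h3⟩ := h.loop i hi
  have hB : M.B i ⊆ {x | x ∈ M.W ∧ ∀ j ∈ J, x ∉ D j} := fun x hx =>
    ⟨(h.subB i hi hx).1, fun j hj hxj => h.far i hi j (hJ hj) (fun e => hiJ (e ▸ hj)) x hx x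
      (hD.subB j hj ⟨hxj, (h.subB i hi hx).2⟩) (adq_refl x)⟩
  obtain ⟨k, hk⟩ := loop_main Z2 (st_L15 M {x | x ∈ M.W ∧ ∀ j ∈ J, x ∉ D j} i)
    (st_valid_L15 h (fun x hx => hx.1) hi) b l (h1.mono fun x hx => ⟨hx, hB hx⟩)
    (null_L15 h.mf (hI.subset hJ) hD.subset hD.ball hf h2 (h1.mono hB)) h3
  exact ⟨k, step_L15 hJ hiJ k M _ D h hD (fun x hx => hx.1)
    (fun j hj => Set.disjoint_left.2 fun x hx => hx.2 j hj) hk⟩

theorem multi_loop {ι : Type} {M : MS ι} {I : Set ι} (hI : I.Finite) (h : M.Valid I) :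
    ∃ k D, (MS.sd^[k] M).Discs I D := by
  refine Set.Finite.induction_on_subset (motive := fun J _ => ∃ k D, (MS.sd^[k] M).Discs J D)
    I hI ⟨0, fun _ => ∅, ?_⟩ ?_
  · refine ⟨?_, ?_, ?_, ?_, ?_⟩ <;> exact fun _ hj => absurd hj (Set.notMem_empty _)
  · rintro i J hi hJ hiJ ⟨k, D, hD⟩
    have h1 := iter_L15 k M h
    obtain ⟨k', hk⟩ := new_L15 hI h1.sd hJ hi hiJ (discs_sd_L15 h1 hJ hD)
      fun i hi j hj e => far_sA (hD.disj i hi j hj e)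
    refine ⟨k' + 1 + k, ?_⟩
    rw [Function.iterate_add_apply]
    exact hk

end Pool.Agent.MP_6374aa_g

end

section

/-! Strips along the curves. -/

namespace Pool.Agent.MP_6374aa_g

open Pool.Agent.MP_6374aa_gt Classical

variable {V V' V'' : Type} {G : SimpleGraph V} {G' : SimpleGraph V'} {G'' : SimpleGraph V''}
  {A : Set V} {A' : Set V'} {A'' : Set V''} {L : Type} [Group L]

theorem mx_L16 {κ : Type} [Nonempty V] [LinearOrder κ] (col : V → κ) {s : Finset V}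
    (hs : s.Nonempty) : mx col s ∈ s ∧ ∀ w ∈ s, col w ≤ col (mx col s) :=
  Classical.epsilon_spec (p := fun v => v ∈ s ∧ ∀ w ∈ s, col w ≤ col v)
    (s.exists_max_image col hs)

theorem cur_L16 {κ : Type} (C : Col κ) {e : Finset κ} {s : Finset C.V} :
    s ∈ C.curve e ↔ s ∈ sA C.G C.F ∧ (∀ v ∈ s, C.col v ∈ e) ∧ ∀ c ∈ e, ∃ v ∈ s, C.col v = c := by
  refine and_congr_right fun _ => ⟨?_, fun h => ?_⟩
  · rintro rfl
    exact ⟨fun v hv => Finset.mem_image_of_mem _ hv, fun c hc => Finset.mem_image.1 hc⟩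
  · refine Finset.Subset.antisymm (fun c hc => ?_) fun c hc => Finset.mem_image.2 (h.2 c hc)
    obtain ⟨v, hv, rfl⟩ := Finset.mem_image.1 hc
    exact h.1 v hv

theorem fill_L16 {κ : Type} [LinearOrder κ] (C : Col κ)
    (hc : ∀ s ∈ sA C.G C.F, (s.image C.col).card ≤ 2) {e : Finset κ} (he : e.card = 2)
    {s : Finset C.V} (hs : s ∈ sA C.G C.F) (h : ∀ c ∈ e, ∃ v ∈ s, C.col v = c) :
    s ∈ C.curve e := by
  refine (cur_L16 C).2 ⟨hs, fun v hv => ?_, h⟩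
  rw [Finset.eq_of_subset_of_card_le (fun c hc => Finset.mem_image.2 (h c hc))
    (he ▸ hc s hs)]
  exact Finset.mem_image_of_mem _ hv

theorem inF_L16 {F : Set V} (h : Clopen G A F) {s : Finset V} (hs : s ∈ sA G A) {v : V}
    (hv : v ∈ s) (hF : v ∈ F) : s ∈ sA G F :=
  ⟨hs.1, fun w hw => ((mem_sA.1 hs).2.2 v hv w hw).elim (fun e => e ▸ hF)
    (h.2 v hF w (hs.2.1 hw)), hs.2.2⟩

theorem clo_L16 {T F : Set V} (h : Clopen G (A ∩ T) F) :
    Clopen (sG V) (sA G A ∩ ins T) (sA G F) := by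
  rw [← sA_inter]
  refine ⟨sA_mono h.1, fun a ha b hb e => e.elim (fun e => ?_) fun e => sA_down ha e.1 hb.1⟩
  obtain ⟨v, hv⟩ := ha.1
  exact inF_L16 h hb (e.1 hv) (ha.2.1 hv)

theorem card_L16 {κ : Type} [LinearOrder κ] (C : Col κ)
    (hc : ∀ s ∈ sA C.G C.F, (s.image C.col).card ≤ 2) :
    ∀ s ∈ sA C.sd.G C.sd.F, (s.image C.sd.col).card ≤ 2 := fun σ hσ => by
  refine (Finset.card_le_card fun c h => ?_).trans (hc _ (hσ.2.1 (top_mem hσ)))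
  obtain ⟨s, hs, rfl⟩ := Finset.mem_image.1 h
  exact Finset.mem_image_of_mem _ (subset_top hs (mx_L16 C.col (hσ.2.1 hs).1).1)

theorem lt_L16 {κ : Type} [LinearOrder κ] (C : Col κ) {x y : Finset C.V} (hx : x.Nonempty)
    (hy : y.Nonempty) (h : (sG C.V).Adj x y) (hl : C.sd.col y < C.sd.col x) : y ⊆ x :=
  h.elim (fun e => absurd ((mx_L16 C.col hy).2 _ (e.1 (mx_L16 C.col hx).1)) hl.not_ge) (·.1)

theorem curve_con_sd {κ : Type} [LinearOrder κ] (C : Col κ)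
    (hc : ∀ s ∈ sA C.G C.F, (s.image C.col).card ≤ 2) {e : Finset κ} (he : e.card = 2)
    (h : Con (sG C.V) (C.curve e)) : Con (sG C.sd.V) (C.sd.curve e) := by
  obtain ⟨a, b, hab, hm⟩ : ∃ a b, a < b ∧ ∀ c, c ∈ e ↔ c = a ∨ c = b := by
    obtain ⟨a, b, h1, rfl⟩ := Finset.card_eq_two.1 he
    rcases lt_or_gt_of_ne h1 with h1 | h1
    · exact ⟨a, b, h1, by simp⟩
    · exact ⟨b, a, h1, by simp [or_comm]⟩
  refine qa0_down (V' := Finset (Finset C.V)) (f := top) (isHom_of_mono (fun σ hσ => ?_)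
    fun _ _ _ _ hs => Finset.sup_mono hs) (fun t ht => ?_) h
  · obtain ⟨h1, -, h3⟩ := (cur_L16 C.sd).1 hσ
    refine fill_L16 C hc he (h1.2.1 (top_mem h1)) fun c hc => ?_
    obtain ⟨s, hs, rfl⟩ := h3 c hc
    exact ⟨_, subset_top hs (mx_L16 C.col (h1.2.1 hs).1).1, rfl⟩
  obtain ⟨t1, t2, t3⟩ := (cur_L16 C).1 ht
  have tb : C.sd.col t = b := by
    obtain ⟨v, hv, e1⟩ := t3 b ((hm b).2 (Or.inr rfl))
    have h1 := mx_L16 C.col t1.1
    exact ((hm _).1 (t2 _ h1.1)).resolve_left fun e2 =>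
      hab.not_ge (e1.ge.trans ((h1.2 v hv).trans e2.le))
  have key : ∀ u : Finset (Finset C.V), (∀ x ∈ u, x.Nonempty ∧ x ⊆ t) →
      (∀ x ∈ u, ∀ y ∈ u, x ⊆ y ∨ y ⊆ x) → (∃ x ∈ u, C.sd.col x = a) → t ∈ u →
      u ∈ {u : Finset (Finset C.V) | u ∈ C.sd.curve e ∧ top u ⊆ t} := fun u h1 h2 h3 h4 =>
    ⟨(cur_L16 C.sd).2 ⟨mem_sA.2 ⟨⟨t, h4⟩, fun x hx => sA_down t1 (h1 x hx).2 (h1 x hx).1,
      fun x hx y hy => adq_sG.2 (h2 x hx y hy)⟩,
      fun x hx => t2 _ ((h1 x hx).2 (mx_L16 C.col (h1 x hx).1).1),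
      fun c hc => ((hm c).1 hc).elim (fun e1 => e1 ▸ h3) fun e1 => ⟨t, h4, e1 ▸ tb⟩⟩,
      Finset.sup_le fun x hx => (h1 x hx).2⟩
  obtain ⟨r, r1, r2, r3, r4⟩ : ∃ r : Finset C.V, r.Nonempty ∧ r ⊆ t ∧ C.sd.col r = a ∧
      ∀ v ∈ t, C.col v = a → v ∈ r := by
    have h1 : (t.filter fun v => C.col v = a).Nonempty := by
      obtain ⟨v, hv⟩ := t3 a ((hm a).2 (Or.inl rfl))
      exact ⟨v, Finset.mem_filter.2 hv⟩
    exact ⟨_, h1, Finset.filter_subset _ _, (Finset.mem_filter.1 (mx_L16 C.col h1).1).2,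
      fun v hv e1 => Finset.mem_filter.2 ⟨hv, e1⟩⟩
  have pr : ∀ s : Finset C.V, s.Nonempty → s ⊆ t → C.sd.col s = a →
      {s, t} ∈ {u : Finset (Finset C.V) | u ∈ C.sd.curve e ∧ top u ⊆ t} := fun s s1 s2 s3 =>
    key _ (by simp [s1, s2, t1.1]) (by simp [s2]) ⟨s, by simp, s3⟩ (by simp)
  refine ⟨⟨_, pr r r1 r2 r3⟩, pre_of_base (x := {r, t}) fun u hu => ?_⟩
  obtain ⟨u1, -, u3⟩ := (cur_L16 C.sd).1 hu.1
  obtain ⟨s, hs, s3⟩ : ∃ s : Finset C.V, s ∈ u ∧ C.sd.col s = a := u3 a ((hm a).2 (Or.inl rfl))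
  have u4 : ∀ x : Finset C.V, x ∈ u → x.Nonempty ∧ x ⊆ t := fun x hx =>
    ⟨(u1.2.1 hx).1, (subset_top hx).trans hu.2⟩
  obtain ⟨s1, s2⟩ := u4 s hs
  have sr : s ⊆ r := fun v hv => r4 v (s2 hv) (((hm _).1 (t2 v (s2 hv))).resolve_right fun e1 =>
    hab.not_ge (e1.ge.trans (((mx_L16 C.col s1).2 v hv).trans s3.le)))
  have k1 := key (insert t u) (Finset.forall_mem_insert _ _ _ |>.2 ⟨⟨t1.1, le_rfl⟩, u4⟩)
    (fun x hx y hy => by
      rcases Finset.mem_insert.1 hx with rfl | hx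
      · exact Or.inr ((Finset.mem_insert.1 hy).elim (·.le) fun hy => (u4 y hy).2)
      · exact (Finset.mem_insert.1 hy).elim (fun e1 => Or.inl (e1 ▸ (u4 x hx).2))
          fun hy => adq_sG.1 ((mem_sA.1 u1).2.2 x hx y hy))
    ⟨s, Finset.mem_insert_of_mem hs, s3⟩ (Finset.mem_insert_self _ _)
  have k2 := key {s, r, t} (by simp [s1, s2, r1, r2, t1.1]) (by simp [s2, r2, sr])
    ⟨s, by simp, s3⟩ (by simp)
  have i1 : {s, t} ⊆ insert t u := by simp [Finset.insert_subset_iff, hs]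
  have i2 : ({s, t} : Finset (Finset C.V)) ⊆ {s, r, t} := by simp [Finset.insert_subset_iff]
  exact ((Reach.single hu k1 (adq_sG.2 (Or.inl (Finset.subset_insert _ _)))).trans
    (Reach.single k1 (pr s s1 s2 s3) (adq_sG.2 (Or.inr i1)))).trans
    ((Reach.single (pr s s1 s2 s3) k2 (adq_sG.2 (Or.inl i2))).trans
      (Reach.single k2 (pr r r1 r2 r3) (adq_sG.2 (Or.inr (Finset.subset_insert _ _)))))

theorem ES.Strip.sd {κ : Type} [LinearOrder κ] {S : ES κ} {E : Set (Finset κ)} (h : S.Strip E) :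
    S.sd.Strip E := by
  have pe : ∀ e ∈ E, PE (sG S.C.V) (S.sd.B e) S.C.G (S.B e) (pk (S.B e)) := fun e he => by
    have := nb_pe (G := S.C.G) (A := S.C.W ∩ S.C.T) (Q := S.B e) (π := pk (S.B e))
      fun s hs => ⟨pk_mem _ hs.1.1, pk_mem_B hs.2⟩
    rwa [Set.inter_eq_right.2 (show S.B e ⊆ S.C.W ∩ S.C.T from h.valid.subB e he)] at this
  have sf : ∀ e ∈ E, S.sd.B e ⊆ sA S.C.G S.C.F := fun e he s ⟨h1, v, hv, h2⟩ =>
    inF_L16 h.clopen h1 hv (h.subF e he h2)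
  have cl : ∀ e ∈ E, ∀ z ∈ sA S.C.G S.C.F, ∀ v ∈ z, v ∈ S.B e → ∀ w ∈ z, S.C.col w ∈ e :=
    fun e he z hz v hv hB w hw => ((mem_sA.1 hz).2.2 v hv w hw).elim
      (fun e1 => e1 ▸ (h.col e he v hB).1) (h.nbr e he v hB w (hz.2.1 hw))
  refine ⟨h.valid.sd, clo_L16 h.clopen, card_L16 _ h.card, h.two, sf,
    fun e he => (pe e he).con.2 (h.con e he), fun e he => (pe e he).rk.2 (h.rk e he),
    fun e he x hx => ?_, fun e he x hx y hy ha => ?_, fun e he x hx y hy ha h1 h2 hl => ?_,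
    fun e he => curve_con_sd _ h.card (h.two e he) (h.curve e he)⟩
  · obtain ⟨v, hv, hB⟩ := hx.2
    have := mx_L16 S.C.col hx.1.1
    exact ⟨cl e he x (sf e he hx) v hv hB _ this.1,
      fun c hc => ((h.col e he v hB).2 c hc).trans (this.2 v hv)⟩
  · obtain ⟨v, hv, hB⟩ := hx.2
    have := (mx_L16 S.C.col hy.1).1
    exact ha.elim (fun a => cl e he y hy v (a.1 hv) hB _ this)
      fun a => cl e he x (sf e he hx) v hv hB _ (a.1 this)
  · have m1 := (mx_L16 S.C.col hx.1).1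
    have m2 := lt_L16 S.C hx.1 hy.1 ha hl (mx_L16 S.C.col hy.1).1
    exact ⟨sA_mono h.clopen.1 hx, _, m1, h.edge e he _ (hx.2.1 m1) _ (hx.2.1 m2)
      (((mem_sA.1 hx).2.2 _ m1 _ m2).resolve_left fun e1 => hl.ne' (congrArg S.C.col e1)) h1 h2 hl⟩

theorem strip_base {κ : Type} [LinearOrder κ] (C : Col κ) (E : Set (Finset κ))
    (h2 : ∀ e ∈ E, e.card = 2) (hf : C.W.Finite) (hm : Mf C.G 3 C.W C.T)
    (hc : Clopen C.G (C.W ∩ C.T) C.F) (hk : ∀ s ∈ sA C.G C.F, (s.image C.col).card ≤ 2)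
    (h : ∀ e ∈ E, Sph (sG C.V) 2 (C.curve e) ∧
      ∀ a l, Wk (sG C.V) (C.curve e) a l a → Null (sG C.V) (sA C.G C.W) a l) :
    ∃ lab, (⟨C.sd, C.curve, lab⟩ : ES κ).Strip E := by
  choose! lab h3 h4 using fun e he => (h e he).1.circle_not_ndc
  have sb : ∀ e ∈ E, ∀ e' ∈ E, ∀ s ∈ C.curve e, ∀ t ∈ C.curve e', s ⊆ t → e = e' :=
    fun e he e' he' s hs t ht hst => Finset.eq_of_subset_of_card_le (fun c hc => by
      obtain ⟨v, hv, rfl⟩ := ((cur_L16 C).1 hs).2.2 c hc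
      exact ((cur_L16 C).1 ht).2.1 v (hst hv)) ((h2 e' he').trans (h2 e he).symm).le
  refine ⟨lab, ⟨sA_finite hf, hm.sd le_rfl, fun e _ s hs => (clo_L16 hc).1 hs.1, h3,
    fun e he e' he' hn s hs t ht ha => hn ((adq_sG.1 ha).elim (sb e he e' he' s hs t ht)
      fun a => (sb e' he' e he t ht s hs a).symm), fun e he => ?_⟩, clo_L16 hc, card_L16 C hk, h2,
    fun e _ s hs => hs.1, fun e he => Cell.con (d := 0) (h e he).1,
    fun e he => (h e he).1.circle_rk, fun e _ x hx => ?_, fun e he x hx y hy ha => ?_,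
    fun e he x hx y hy ha h5 h6 hl => fill_L16 C hk (h2 e he) hx fun c hc => ?_,
    fun e he => curve_con_sd C hk (h2 e he) (Cell.con (d := 0) (h e he).1)⟩
  · by_contra hn
    exact h4 e he (pot_of_loops (h3 e he) fun a l hw => by_contra fun h5 =>
      hn ⟨a, l, hw, (h e he).2 a l hw, h5⟩)
  · obtain ⟨x1, x2, x3⟩ := (cur_L16 C).1 hx
    refine ⟨x2 _ (mx_L16 C.col x1.1).1, fun c hc => ?_⟩
    obtain ⟨v, hv, rfl⟩ := x3 c hc
    exact (mx_L16 C.col x1.1).2 v hv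
  · obtain ⟨-, x2, x3⟩ := (cur_L16 C).1 hx
    have := (mx_L16 C.col hy.1).1
    exact ha.elim (fun a => ((cur_L16 C).1 (fill_L16 C hk (h2 e he) hy fun c hc =>
      (x3 c hc).imp fun _ hv => ⟨a.1 hv.1, hv.2⟩)).2.1 _ this) fun a => x2 _ (a.1 this)
  · rw [← Finset.eq_of_subset_of_card_le (s := {C.sd.col y, C.sd.col x})
      (Finset.insert_subset h6 (Finset.singleton_subset_iff.2 h5))
      ((h2 e he).trans (Finset.card_pair hl.ne).symm).le, Finset.mem_insert,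
      Finset.mem_singleton] at hc
    exact hc.elim (fun e1 => ⟨_, lt_L16 C hx.1 hy.1 ha hl (mx_L16 C.col hy.1).1, e1.symm⟩)
      fun e1 => ⟨_, (mx_L16 C.col hx.1).1, e1.symm⟩

end Pool.Agent.MP_6374aa_g

end

section

/-! Discs with exact boundary. -/

namespace Pool.Agent.MP_6374aa_g

open Pool.Agent.MP_6374aa_gt Classical

variable {V V' V'' : Type} {G : SimpleGraph V} {G' : SimpleGraph V'} {G'' : SimpleGraph V''}
  {A : Set V} {A' : Set V'} {A'' : Set V''} {L : Type} [Group L]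

/-- Discs with exact boundary at the level `C`. -/
def Out_L17 {κ : Type} (C : Col κ) (E : Set (Finset κ)) : Prop :=
  ∃ D : Finset κ → Set (Finset C.V),
    (∀ e ∈ E, D e ⊆ sA C.G C.W ∧ Ball (sG _) 3 (D e) (ins C.T) ∧ D e ∩ ins C.T = C.curve e) ∧
      ∀ e ∈ E, ∀ e' ∈ E, e ≠ e' → Far (sG _) (D e) (D e')

theorem mem_curve_L17 {κ : Type} {C : Col κ} {e : Finset κ} {s : Finset C.V} :
    s ∈ C.curve e ↔ s ∈ sA C.G C.F ∧ (∀ y ∈ s, C.col y ∈ e) ∧ ∀ c ∈ e, ∃ y ∈ s, C.col y = c := by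
  refine and_congr_right fun _ => ⟨?_, fun h => ?_⟩
  · rintro rfl
    exact ⟨fun y hy => Finset.mem_image_of_mem _ hy, fun c hc => Finset.mem_image.1 hc⟩
  · exact Finset.Subset.antisymm (Finset.image_subset_iff.2 h.1)
      fun c hc => Finset.mem_image.2 (h.2 c hc)

section Curve

variable {κ : Type} [LinearOrder κ] {S : ES κ} {E : Set (Finset κ)} {e : Finset κ}
  {Q : Set S.C.V}

theorem two_L17 (h : S.Strip E) (he : e ∈ E) {s : Finset S.C.V} (hs : s ∈ S.C.curve e) :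
    ∃ x ∈ s, ∃ y ∈ s, S.C.col x < S.C.col y := by
  obtain ⟨a, ha, b, hb, hab⟩ := Finset.one_lt_card.1 (show 1 < e.card by rw [h.two e he]; omega)
  obtain ⟨x, hx, rfl⟩ := (mem_curve_L17.1 hs).2.2 a ha
  obtain ⟨y, hy, rfl⟩ := (mem_curve_L17.1 hs).2.2 b hb
  rcases lt_or_gt_of_ne hab with h1 | h1
  · exact ⟨x, hx, y, hy, h1⟩
  · exact ⟨y, hy, x, hx, h1⟩

theorem curve_sub_L17 (h : S.Strip E) (he : e ∈ E) (hQ : Q ∩ S.C.T = S.B e) :
    S.C.curve e ⊆ fr S.C.G S.C.W Q ∩ ins S.C.T := by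
  intro s hs
  have h1 : ↑s ⊆ S.C.W ∩ S.C.T := hs.1.2.1.trans h.clopen.1
  obtain ⟨x, hx, y, hy, hxy⟩ := two_L17 h he hs
  have hc := (mem_curve_L17.1 hs).2.1
  have h2 := (mem_sA.1 hs.1).2.2
  refine ⟨⟨sA_mono (h.clopen.1.trans Set.inter_subset_left) hs.1, ⟨y, hy, (hQ.symm.subset ?_).1⟩,
    fun h3 => ?_⟩, h1.trans Set.inter_subset_right⟩
  · exact h.edge e he y (hs.1.2.1 hy) x (hs.1.2.1 hx)
      ((h2 y hy x hx).resolve_left fun e => lt_irrefl _ (e ▸ hxy)) (hc y hy) (hc x hx) hxy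
  · exact not_le.2 hxy ((h.col e he x (hQ.subset ⟨h3 hx, (h1 hx).2⟩)).2 _ (hc y hy))

theorem curve_clopen_L17 (h : S.Strip E) (he : e ∈ E) (hQ : Q ∩ S.C.T = S.B e) :
    Clopen (sG S.C.V) (fr S.C.G S.C.W Q ∩ ins S.C.T) (S.C.curve e) := by
  refine ⟨curve_sub_L17 h he hQ, fun a ha b hb hab => ?_⟩
  obtain ⟨⟨hb1, ⟨x, hx, hxQ⟩, hb2⟩, hb3⟩ := hb
  have hxB : x ∈ S.B e := hQ.subset ⟨hxQ, hb3 hx⟩
  obtain ⟨hn, h1, h2⟩ := mem_sA.1 hb1
  have h3 : ∀ y ∈ b, y ∈ S.C.F ∧ S.C.col y ∈ e := fun y hy => by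
    rcases h2 x hx y hy with rfl | h4
    · exact ⟨h.subF e he hxB, (h.col e he x hxB).1⟩
    · have h5 := h.clopen.2 x (h.subF e he hxB) y ⟨h1 hy, hb3 hy⟩ h4
      exact ⟨h5, h.nbr e he x hxB y h5 h4⟩
  refine mem_curve_L17.2 ⟨mem_sA.2 ⟨hn, fun y hy => (h3 y hy).1, h2⟩, fun y hy => (h3 y hy).2,
    fun c hc => ?_⟩
  rcases hab with hab | hab
  · exact ((mem_curve_L17.1 ha).2.2 c hc).imp fun y hy => ⟨hab.subset hy.1, hy.2⟩
  · obtain ⟨y, hy, hyQ⟩ := Set.not_subset.1 hb2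
    have h5 : S.C.col x ≠ S.C.col y := fun h5 => by
      obtain ⟨u, hu, v, hv, huv⟩ := two_L17 h he ha
      have hc := (mem_curve_L17.1 ha).2.1
      have h6 : S.C.col u < S.C.col y := h5 ▸ huv.trans_le ((h.col e he x hxB).2 _ (hc v hv))
      have hy' : y ∈ a := hab.subset hy
      exact hyQ (hQ.symm.subset (h.edge e he y (ha.1.2.1 hy') u (ha.1.2.1 hu)
        (((mem_sA.1 ha.1).2.2 y hy' u hu).resolve_left fun e => lt_irrefl _ (e ▸ h6))
        (hc y hy') (hc u hu) h6)).1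
    by_contra h6
    have h7 : 2 < e.card := Finset.two_lt_card_iff.2 ⟨_, _, c, (h3 x hx).2, (h3 y hy).2, hc, h5,
      fun e => h6 ⟨x, hx, e⟩, fun e => h6 ⟨y, hy, e⟩⟩
    exact h7.ne' (h.two e he)

theorem out_L17 (h : S.Strip E) {Q : Finset κ → Set S.C.V}
    (hQ : ∀ e ∈ E, Q e ⊆ S.C.W ∧ Con S.C.G (Q e) ∧ NDC S.C.G (Q e) ∧ Q e ∩ S.C.T = S.B e)
    (hF : ∀ e ∈ E, ∀ e' ∈ E, e ≠ e' → Far S.C.G (Q e) (Q e')) : Out_L17 S.C E := by
  choose! s hs using fun e he => (h.curve e he).1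
  refine ⟨fun e => cmp (sG _) (fr S.C.G S.C.W (Q e)) (s e), fun e he => ?_, fun e he e' he' hn =>
    (far_nb (A := S.C.W) (hF e he e' he' hn)).mono (fun t ht => ⟨ht.1.1, ht.1.2.1⟩)
      fun t ht => ⟨ht.1.1, ht.1.2.1⟩⟩
  obtain ⟨h1, h2, h3, h4⟩ := hQ e he
  have h5 := curve_clopen_L17 h he h4
  have h6 := h5.1 (hs e he)
  have h7 := mem_cmp_self (G := sG _) h6.1
  have h8 := (fr_disc h1 (h.valid.fin.subset h1) (Mfa.mono h.valid.mf h1) h2 h3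
    (h4.symm ▸ (h.con e he).2) h6.1).resolve_left fun c => c.1.subset ⟨h7, h6.2⟩
  refine ⟨fun t ht => ht.1.1, h8, Set.Subset.antisymm ?_ (Set.subset_inter ?_ fun t ht => (h5.1 ht).2)⟩
  · exact (Cell.con (d := 0) (h8.bd le_rfl)).2.subset_clopen
      (Set.inter_subset_inter_left _ (cmp_subset _)) h5 ⟨h7, h6.2⟩ (hs e he)
  · exact (h.curve e he).2.subset_cmp (fun t ht => (h5.1 ht).1) (hs e he) h7

end Curve

section Half

variable {T B D : Set V}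

theorem inter_L17 (hD : D ⊆ A) (hB : D ∩ T ⊆ B) : nb G (A ∩ T) B ∩ sA G D = sA G (D ∩ T) := by
  ext s
  constructor
  · rintro ⟨h1, h2⟩
    exact ⟨h2.1, ⟨Set.subset_inter h2.2.1 (h1.1.2.1.trans Set.inter_subset_right), h2.2.2⟩⟩
  · intro h
    obtain ⟨v, hv⟩ := h.1
    exact ⟨⟨sA_mono (Set.inter_subset_inter_left _ hD) h, v, hv, hB (h.2.1 hv)⟩,
      sA_mono Set.inter_subset_left h⟩

theorem ne_L17 (hD : D ⊆ A) (hB : D ∩ T ⊆ B) : NE (sG V) (nb G (A ∩ T) B) (sA G D) := by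
  rintro a ⟨h1, h2⟩ b ⟨h3, h4⟩ (h | h)
  · exact h2 (sA_down h3 h.subset h1.1.1)
  · refine h4 ((inter_L17 hD hB).symm.subset ⟨h3.1, Set.subset_inter h3.2.1 ?_, h3.2.2⟩).1
    exact (Finset.coe_subset.2 h.subset).trans (h1.1.2.1.trans Set.inter_subset_right)

theorem ndc_L17 [Nonempty V] {lab : V → V → Z2} (hD : D ⊆ A) (hB : D ∩ T ⊆ B) (hb : Ball G 3 D T)
    (hl : Flat G B lab) (he : ¬ Pot G (D ∩ T) lab)
    (hl' : Flat (sG V) (nb G (A ∩ T) B) (pull (pk B) lab)) (hr : Rk (sG V) (nb G (A ∩ T) B) 1) :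
    NDC (sG V) (nb G (A ∩ T) B ∪ sA G D) := by
  intro η hη
  have h1 : Pot (sG V) (sA G D) η := triv_sA.2 (Cell.ndc hb) η (hη.mono Set.subset_union_right)
  have h2 := inter_L17 (G := G) hD hB
  have h3 : ¬ Pot (sG V) (nb G (A ∩ T) B ∩ sA G D) (pull (pk B) lab) := fun c =>
    he (pot_of_pot_sd (hl.mono hB) (fun s hs => pk_mem B hs.1) (h2 ▸ c))
  refine glue_pot (ne_L17 hD hB).cov2 ?_ h1
    (h2.symm ▸ pre_sA.2 (Cell.con (d := 0) (hb.bd le_rfl)).2)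
  obtain ⟨S, hS, hp⟩ := hr ![η, pull (pk B) lab]
    (Fin.forall_fin_two.2 ⟨hη.mono Set.subset_union_left, hl'⟩)
  have h4 : ∀ S : Finset (Fin (1 + 1)), S.Nonempty → S = {0} ∨ S = {1} ∨ S = {0, 1} := by decide
  rcases h4 S hS with rfl | rfl | rfl
  · exact hp.congr fun u _ w _ _ => by simp
  · exact (h3 ((hp.mono Set.inter_subset_left).congr fun u _ w _ _ => by simp)).elim
  · refine (h3 (((h1.mono Set.inter_subset_right).mul (hp.mono Set.inter_subset_left)).congr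
      fun u _ w _ _ => ?_)).elim
    rw [Finset.prod_pair (by decide), ← mul_assoc]
    exact (by rw [z2_mul_self, one_mul] : _ = η u w * η u w * pull (pk B) lab u w)

theorem far_L17 {B' : Set V} (hB : D ∩ T ⊆ B') (hf : Far G B B') :
    Far (sG V) (nb G (A ∩ T) B) (sA G D) := by
  rintro a ⟨h1, v, hv, hvB⟩ b hb h
  have h2 : ↑a ⊆ T := h1.2.1.trans Set.inter_subset_right
  rcases adq_sG.1 h with h | h
  · exact hf v hvB v (hB ⟨hb.2.1 (h hv), h2 hv⟩) (adq_refl v)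
  · obtain ⟨w, hw⟩ := hb.1
    exact hf v hvB w (hB ⟨hb.2.1 hw, h2 (h hw)⟩) ((mem_sA.1 h1).2.2 v hv w (h hw))

end Half

theorem strip_final {κ : Type} [LinearOrder κ] {S : ES κ} {E : Set (Finset κ)} (h : S.Strip E)
    {D : Finset κ → Set S.C.V} (hD : S.ms.Discs E D) :
    ∃ D' : Finset κ → Set (Finset S.C.sd.V),
      (∀ e ∈ E, D' e ⊆ sA S.C.sd.G S.C.sd.W ∧ Ball (sG _) 3 (D' e) (ins S.C.sd.T) ∧
        D' e ∩ ins S.C.sd.T = S.C.sd.curve e) ∧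
      ∀ e ∈ E, ∀ e' ∈ E, e ≠ e' → Far (sG _) (D' e) (D' e') := by
  have h1 := h.sd
  refine out_L17 (Q := fun e => nb S.C.G (S.C.W ∩ S.C.T) (S.B e) ∪ sA S.C.G (D e)) h1
    (fun e he => ?_) fun e he e' he' hn => ?_
  · have h2 := hD.subset e he
    have h3 := hD.subB e he
    have h4 := hD.ball e he
    have h5 := inter_L17 (G := S.C.G) h2 h3
    obtain ⟨s, hs⟩ := (con_sA.2 (Cell.con (d := 0) (h4.bd le_rfl))).1
    have h6 := h5.symm.subset hs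
    refine ⟨Set.union_subset (fun t ht => sA_mono Set.inter_subset_left ht.1) (sA_mono h2),
      ⟨⟨s, Or.inl h6.1⟩, (h1.con e he).2.union (pre_sA.2 (Cell.con (d := 1) h4).2) h6.1 h6.2
        (adq_refl s)⟩,
      ndc_L17 h2 h3 h4 (h.valid.flat e he) (hD.ess e he) (h1.valid.flat e he) (h1.rk e he),
      Set.Subset.antisymm ?_ fun t ht => ⟨Or.inl ht, ht.1.2.1.trans Set.inter_subset_right⟩⟩
    rintro t ⟨ht | ht, ht'⟩
    · exact ht
    · exact (h5.symm.subset ⟨ht.1, Set.subset_inter ht.2.1 ht', ht.2.2⟩).1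
  · rintro a (ha | ha) b (hb | hb)
    · exact h1.valid.far e he e' he' hn a ha b hb
    · exact far_L17 (hD.subB e' he') (h.valid.far e he e' he' hn) a ha b hb
    · exact (far_L17 (hD.subB e he) (h.valid.far e' he' e he hn.symm)).symm a ha b hb
    · exact far_sA (hD.disj e he e' he' hn) a ha b hb

theorem iter_L17 {κ : Type} [LinearOrder κ] {E : Set (Finset κ)} (k : ℕ) :
    ∀ S : ES κ, S.Strip E → (∃ D, (MS.sd^[k] S.ms).Discs E D) → Out_L17 (Col.sd^[k] S.C.sd) E := by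
  induction k with
  | zero => exact fun S h ⟨D, hD⟩ => strip_final h hD
  | succ k ih => exact fun S h hD => ih S.sd h.sd hD

theorem ed_main : ED_st := by
  intro κ _ C E hE h2 hf hm hc hk h
  obtain ⟨lab, hs⟩ := strip_base C E h2 hf hm hc hk h
  obtain ⟨k, hD⟩ := multi_loop hE hs.valid
  exact ⟨k + 2, iter_L17 k _ hs hD⟩

end Pool.Agent.MP_6374aa_g

end

section

/-!
Definitions for block D: the incompressible surface.
-/

namespace Pool.Agent.MP_6374aa_g.BD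

open Pool.Agent.MP_6374aa_gt Classical

noncomputable section

variable {V U : Type}

/-! ### Cut labels and the cyclic cover -/

def ind (Q : Set U) (u : U) : ℤ := if u ∈ Q then 1 else 0

/-- `θ` is the coboundary of the indicator of `Q`, pushed down along `p`. -/
def CLab (H : SimpleGraph U) (W Q : Set U) (p : U → V) (θ : V → V → ZM) : Prop :=
  ∀ u ∈ W, ∀ w ∈ W, Adq H u w → θ (p u) (p w) = Multiplicative.ofAdd (ind Q w - ind Q u)

/-- The simplices of the cyclic cover meeting level zero. -/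
def cW (G : SimpleGraph V) (A : Set V) (θ : V → V → ZM) : Set (Finset (V × ZM)) :=
  nb (cov G θ ZM) (up A ZM) {x | x.2 = 1}

/-- Those meeting also level `e`. -/
def cF (G : SimpleGraph V) (A : Set V) (θ : V → V → ZM) (e : ℤ) : Set (Finset (V × ZM)) :=
  {s | s ∈ cW G A θ ∧ ∃ x ∈ s, x.2 = Multiplicative.ofAdd e}

/-! ### A compressing disc -/

/-- `F` is a union of boundary components of `W`, `D` a disc with boundary in `F`. -/
structure RS (H : SimpleGraph U) (W T F D : Set U) (σ : U → Set U) : Prop where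
  fin : W.Finite
  mf : Mf H 3 W T
  clo : Clopen H (W ∩ T) F
  subD : D ⊆ W
  ball : Ball H 3 D T
  bd : D ∩ T ⊆ F
  ne : NE H D F
  sid : Sided H 3 W D σ

/-- The simplex `s` meets `D` and lies on the positive side. -/
def Pos (D : Set U) (σ : U → Set U) (s : Finset U) : Prop := ∃ x ∈ s, x ∈ D ∧ ∃ y ∈ s, y ∈ σ x

/-- The other side. -/
def opp (H : SimpleGraph U) (W D : Set U) (σ : U → Set U) : U → Set U :=
  fun x => Lk H W {x} \ (D ∪ σ x)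

/-- The part of `s` in `X`. -/
def rs (X : Set U) (s : Finset U) : Finset U := s.filter (· ∈ X)

/-- The part of the compressed surface over `P`. -/
def ov (H : SimpleGraph U) (W F D : Set U) (P : Set (Finset U)) : Set (Finset U) :=
  {s | s ∈ fr H W (F ∪ D) ∧ rs F s ∈ P}

/-- The positive parallel copy of the disc. -/
def np (H : SimpleGraph U) (W F D : Set U) (σ : U → Set U) : Set (Finset U) :=
  {s | s ∈ fr H W (F ∪ D) ∧ Pos D σ s}

/-- The positive parallel copy of the boundary of the disc. -/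
def cp (H : SimpleGraph U) (F D : Set U) (σ : U → Set U) : Set (Finset U) :=
  {s | s ∈ sA H F ∧ Pos D σ s}

/-! ### Planes -/

structure Pl (G : SimpleGraph V) (M F : Set V) (θ : V → V → Z2) : Prop where
  sub : F ⊆ M
  ndc : NDC G M
  flat : Flat G M θ
  xor : ∀ u ∈ M, ∀ w ∈ M, Adq G u w → θ u w ≠ 1 → (u ∈ F ↔ w ∉ F)

/-- The component of `F` at an edge. -/
def pln (G : SimpleGraph V) (F : Set V) (u w : V) : Set V :=
  if u ∈ F then cmp G F u else cmp G F w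

/-- The part of `θ` at the component `P`. -/
def plth (G : SimpleGraph V) (F : Set V) (θ : V → V → Z2) (P : Set V) (u w : V) : Z2 :=
  if pln G F u w = P then θ u w else 1

/-- `P` separates `x` from `y`. -/
def Sp (G : SimpleGraph V) (M F : Set V) (θ : V → V → Z2) (P : Set V) (x y : V) : Prop :=
  ∃ l, Wk G M x l y ∧ ev (plth G F θ P) x l ≠ 1

/-- `P` is the separating component next to `b`. -/
def First (G : SimpleGraph V) (M F : Set V) (θ : V → V → Z2) (b a : V) (P : Set V) : Prop :=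
  Sp G M F θ P b a ∧ ∀ P', Sp G M F θ P' b a → P' ≠ P → ∀ u ∈ P, ¬ Sp G M F θ P' b u

/-! ### The states of the induction -/

structure Cst where
  c : ℕ
  B0 : ℤ
  B1 : ℤ
  lo : ℤ
  hi : ℤ
  T1 : ℤ
  T0 : ℤ

/-- A chosen vertex. -/
def pu (a : V) (s : Finset V) : V := @pk V ⟨a⟩ Set.univ s

/-- The part of the data that does not change under compression. -/
structure Bas (X : Cx) (Γ H : Type) [Group Γ] [Group H] where
  h : X.V → ℤ
  s : X.V → X.V → Monoid.Coprod Γ H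
  mm : X.V
  mp : X.V
  η : List X.V
  tm : Γ → List X.V
  tp : Γ → List X.V
  a : Γ

variable {X : Cx} {Γ H : Type} [Group Γ] [Group H]

def Bas.sd (b : Bas X Γ H) : Bas X.sd Γ H where
  h := fun t : Finset X.V => b.h (pu b.mm t)
  s := pull (pu b.mm) b.s
  mm := ({b.mm} : Finset X.V)
  mp := ({b.mp} : Finset X.V)
  η := sdw b.mm b.η
  tm := fun x => sdw b.mm (b.tm x)
  tp := fun x => sdw b.mp (b.tp x)
  a := b.a

structure Bas.Ok (b : Bas X Γ H) (Nm Np : Subgroup Γ) (κ : Cst) : Prop where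
  cl : Cl X.G 3 X.A
  lip : ∀ u ∈ X.A, ∀ w ∈ X.A, X.G.Adj u w → b.h u ≤ b.h w + 1
  b01 : κ.B0 ≤ κ.B1
  b1l : κ.B1 ≤ κ.lo
  lohi : κ.lo ≤ κ.hi
  ht1 : κ.hi ≤ κ.T1
  t10 : κ.T1 ≤ κ.T0
  flat : Flat X.G (slab X.A b.h (κ.B0 - κ.c) (κ.T0 + κ.c)) b.s
  ker : ∀ a c, κ.B0 ≤ a → a ≤ κ.lo → κ.hi ≤ c → c ≤ κ.T0 → ∀ x l,
    Wk X.G (slab X.A b.h a c) x l x → ev b.s x l = 1 →
      Null X.G (slab X.A b.h (a - κ.c) (c + κ.c)) x l
  wη : Wk X.G (slab X.A b.h κ.B0 κ.T0) b.mm b.η b.mp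
  wm : ∀ x, Wk X.G (slab X.A b.h κ.B0 κ.B1) b.mm (b.tm x) b.mm
  wp : ∀ x, Wk X.G (slab X.A b.h κ.T1 κ.T0) b.mp (b.tp x) b.mp
  mul : ∀ (L : Type) [Group L] (lab : X.V → X.V → L),
    Flat X.G (slab X.A b.h (κ.B0 - κ.c) (κ.T0 + κ.c)) lab →
    (∀ x y, ev lab b.mm (b.tm (x * y)) = ev lab b.mm (b.tm x) * ev lab b.mm (b.tm y)) ∧
      ∀ x, ev lab b.mm b.η * ev lab b.mp (b.tp x) = ev lab b.mm (b.tm x) * ev lab b.mm b.η
  rho : ∀ x, Monoid.Coprod.fst (ev b.s b.mm (b.tm x)) = b.a * x * b.a⁻¹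
  killm : ∀ x ∈ Nm, Null X.G {v | v ∈ X.A ∧ b.h v ≤ κ.B1 + κ.c} b.mm (b.tm x)
  killp : ∀ x ∈ Np, Null X.G {v | v ∈ X.A ∧ κ.T1 - κ.c ≤ b.h v} b.mp (b.tp x)

/-- A co-oriented surface given by a cocycle. -/
def TS (b : Bas X Γ H) (lo hi : ℤ) (n : ℕ) : Prop :=
  ∃ θ : X.V → X.V → ZM, Coor X.G X.A θ ∧
    (∀ u ∈ X.A, ∀ w ∈ X.A, Adq X.G u w → θ u w ≠ 1 → u ∈ slab X.A b.h lo hi) ∧
    (∀ s ∈ mix X.G X.A θ, Rk (sG X.V) (cmp (sG X.V) (mix X.G X.A θ) s) n) ∧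
    Odd (ev θ b.mm b.η).toAdd

/-- A surface and the manifold cut open along it. -/
structure CD (X : Cx) where
  F : Set X.V
  U : Type
  H : SimpleGraph U
  W : Set U
  Fm : Set U
  Fp : Set U
  p : U → X.V

def CD.sd (z : CD X) : CD X.sd where
  F := sA X.G z.F
  U := Finset z.U
  H := sG z.U
  W := sA z.H z.W
  Fm := sA z.H z.Fm
  Fp := sA z.H z.Fp
  p := Finset.image z.p

def CD.symm (z : CD X) : CD X where
  F := z.F
  U := z.U
  H := z.H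
  W := z.W
  Fm := z.Fp
  Fp := z.Fm
  p := z.p

structure CD.Ok (z : CD X) (b : Bas X Γ H) (lo hi : ℤ) (n : ℕ) : Prop where
  clF : Cl X.G 2 z.F
  fin : z.W.Finite
  mf : Mf z.H 3 z.W (z.Fm ∪ z.Fp)
  cut : Cut z.H z.W z.Fm z.Fp X.G X.A z.F z.p
  sub : z.F ⊆ slab X.A b.h lo hi
  rk : Rk X.G z.F n
  par : ∃ θ, CLab z.H z.W z.Fp z.p θ ∧ Odd (ev θ b.mm b.η).toAdd

/-- The side `Fp` is incompressible in the part of `W` over `J`. -/
def CD.Inc (z : CD X) (J : Set X.V) : Prop :=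
  ∀ a l, Wk z.H z.Fp a l a → Null z.H (z.W ∩ z.p ⁻¹' J) a l → Null z.H z.Fp a l

def Room (κ : Cst) (lo hi : ℤ) (n : ℕ) : Prop :=
  κ.B1 + (κ.c + 6) * (n + 1) ≤ lo ∧ lo ≤ κ.lo ∧ κ.hi ≤ hi ∧ hi + (κ.c + 6) * (n + 1) ≤ κ.T1

def Goal (X : Cx) (Nm Np : Subgroup Γ) : Prop := ∃ k, Nonempty (Surf (Cx.sd^[k] X) Γ Nm Np)

/-- The input of the loop theorem. -/
def CD.setup (z : CD X) [Nonempty z.U] {L : Type} (T C B : Set z.U) (lab : z.U → z.U → L) :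
    Setup L where
  V := z.U
  G := z.H
  A := z.W
  T := T
  C := C
  B := B
  lab := lab

/-- The invariants kept while the loop theorem subdivides. -/
structure LI (z : CD X) (b : Bas X Γ H) (lo hi : ℤ) {L : Type} [Group L] (T C B : Set z.U)
    (lab : z.U → z.U → L) : Prop where
  tW : z.W ∩ T = z.Fm ∪ z.Fp
  hB : B = z.Fp
  pC : z.Fp ⊆ C
  subW : C ⊆ z.W
  star : ∀ u ∈ C, ∀ w ∈ z.W, Adq z.H u w → z.p w ∈ slab X.A b.h lo hi
  flat : Flat z.H z.Fp lab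

end

end Pool.Agent.MP_6374aa_g.BD

end

section

/-! Splitting a cocycle into components. -/

namespace Pool.Agent.MP_6374aa_g.BD

open Pool.Agent.MP_6374aa_gt Classical

variable {V : Type} {G : SimpleGraph V} {A : Set V}

theorem ev_sum_Sm {C ι : Type} [CommGroup C] (k : V → V → ι) (θ : V → V → C) (a : V)
    (l : List V) : ∃ I : Finset ι, ∀ J : Finset ι, I ⊆ J → ∀ N : ι → Prop,
      ev (fun u w => if N (k u w) then θ u w else 1) a l =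
        ∏ P ∈ J, if N P then ev (fun u w => if k u w = P then θ u w else 1) a l else 1 := by
  induction l generalizing a with
  | nil => exact ⟨∅, fun J _ N => by simp [ev]⟩
  | cons b l ih =>
    obtain ⟨I, hI⟩ := ih b
    refine ⟨insert (k a b) I, fun J hJ N => ?_⟩
    have hm : k a b ∈ J := hJ (Finset.mem_insert_self _ _)
    have e : (if N (k a b) then θ a b else 1) =
        ∏ P ∈ J, if k a b = P then (if N P then θ a b else 1) else 1 := by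
      rw [Finset.prod_ite_eq, if_pos hm]
    simp only [ev]
    rw [hI J ((Finset.subset_insert _ _).trans hJ) N, e, ← Finset.prod_mul_distrib]
    refine Finset.prod_congr rfl fun P _ => ?_
    split_ifs <;> simp

theorem ev_sum {C ι : Type} [CommGroup C] (k : V → V → ι) (θ : V → V → C) (a : V) (l : List V) :
    ∃ I : Finset ι, ∀ N : ι → Prop, ev (fun u w => if N (k u w) then θ u w else 1) a l =
      ∏ P ∈ I, if N P then ev (fun u w => if k u w = P then θ u w else 1) a l else 1 := by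
  obtain ⟨I, hI⟩ := ev_sum_Sm k θ a l
  exact ⟨I, hI I (Finset.Subset.refl I)⟩

theorem ev_ne_one {L : Type} [Group L] {θ : V → V → L} {a b : V} {l : List V} (hw : Wk G A a l b)
    (h : ev θ a l ≠ 1) : ∃ u ∈ A, ∃ w ∈ A, Adq G u w ∧ θ u w ≠ 1 ∧ Reach G A a u ∧ Reach G A a w := by
  induction hw with
  | nil _ => exact absurd rfl h
  | @cons a b c l ha hab hw ih =>
    have hr := Reach.single ha hw.mem_left hab
    by_cases h1 : θ a b = 1
    · obtain ⟨u, hu, w, hw', h2, h3, h4, h5⟩ := ih fun e => h (by rw [ev, h1, e, one_mul])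
      exact ⟨u, hu, w, hw', h2, h3, hr.trans h4, hr.trans h5⟩
    · exact ⟨a, ha, b, hw.mem_left, hab, h1, Reach.refl a, hr⟩

theorem wk_init {a b u : V} {l : List V} (hw : Wk G A a l b) (hu : u = a ∨ u ∈ l) :
    ∃ m, Wk G A a m u ∧ ∀ x ∈ m, x ∈ l := by
  induction hw with
  | nil ha =>
    rcases hu with rfl | hu
    · exact ⟨[], Wk.nil ha, fun _ h => h⟩
    · exact absurd hu List.not_mem_nil
  | @cons a b c l ha hab hw ih =>
    rcases hu with rfl | hu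
    · exact ⟨[], Wk.nil ha, fun _ h => absurd h List.not_mem_nil⟩
    · obtain ⟨m, h1, h2⟩ := ih (List.mem_cons.1 hu)
      refine ⟨b :: m, Wk.cons ha hab h1, fun x hx => ?_⟩
      exact List.mem_cons.2 ((List.mem_cons.1 hx).imp id (h2 x))

theorem part_Sm {L : Type} [Group L] (θ : V → V → L) (P : Set (Finset V)) {t : Finset V}
    (ht : t ∈ sA G A) {u w : V} (hu : u ∈ t) (hw : w ∈ t) :
    (if cmp (sG V) (mix G A θ) {u, w} = P then θ u w else 1) =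
      if cmp (sG V) (mix G A θ) t = P then θ u w else 1 := by
  by_cases h : θ u w = 1
  · rw [h, ite_self, ite_self]
  · have hs : ({u, w} : Finset V) ⊆ t :=
      Finset.insert_subset hu (Finset.singleton_subset_iff.2 hw)
    have h1 : ({u, w} : Finset V) ∈ mix G A θ := ⟨sA_down ht hs (Finset.insert_nonempty _ _),
      u, Finset.mem_insert_self _ _, w, Finset.mem_insert_of_mem (Finset.mem_singleton_self _), h⟩
    have h2 : t ∈ mix G A θ := ⟨ht, u, hu, w, hw, h⟩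
    rw [cmp_eq_of_mem (G := sG V) (A := mix G A θ) (a := t) (b := {u, w})
      ⟨h1, Reach.single h2 h1 (adq_sG.2 (Or.inr hs))⟩]

theorem triple_Sm {u v w : V} (hu : u ∈ A) (hv : v ∈ A) (hw : w ∈ A) (h1 : Adq G u v)
    (h2 : Adq G v w) (h3 : Adq G u w) : ({u, v, w} : Finset V) ∈ sA G A := by
  refine mem_sA.2 ⟨Finset.insert_nonempty _ _, fun x hx => ?_, fun x hx y hy => ?_⟩
  · simp only [Finset.coe_insert, Finset.coe_singleton, Set.mem_insert_iff,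
      Set.mem_singleton_iff] at hx
    rcases hx with rfl | rfl | rfl <;> assumption
  · simp only [Finset.mem_insert, Finset.mem_singleton] at hx hy
    rcases hx with rfl | rfl | rfl <;> rcases hy with rfl | rfl | rfl <;>
      first | exact adq_refl _ | assumption | exact adq_symm (by assumption)

theorem comp_theta {θ : V → V → ZM} (hθ : Coor G A θ) {a b : V} {l : List V}
    (hw : Wk G A a l b) (ho : Odd (ev θ a l).toAdd) :
    ∃ θ' s, Coor G A θ' ∧ (∀ u w, θ' u w ≠ 1 → θ u w ≠ 1) ∧ Odd (ev θ' a l).toAdd ∧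
      s ∈ mix G A θ ∧ mix G A θ' = cmp (sG V) (mix G A θ) s := by
  obtain ⟨I, hI⟩ := ev_sum (fun u w => cmp (sG V) (mix G A θ) {u, w}) θ a l
  have h1 := hI fun _ => True
  simp only [if_true] at h1
  have h2 : ∃ P, Odd (ev (fun u w => if cmp (sG V) (mix G A θ) {u, w} = P then θ u w else 1)
      a l).toAdd := by
    by_contra hn
    have h3 : Even (ev θ a l).toAdd := by
      rw [show ev θ a l = _ from h1, toAdd_prod]
      exact Finset.even_sum _ fun P _ => Int.not_odd_iff_even.1 fun h => hn ⟨P, h⟩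
    exact Int.not_odd_iff_even.2 h3 ho
  obtain ⟨P, hP⟩ := h2
  obtain ⟨u, hu, w, hw', h3, h4, -, -⟩ := ev_ne_one hw fun e => by
    rw [e] at hP
    exact absurd hP (by decide)
  have h5 : cmp (sG V) (mix G A θ) {u, w} = P := by
    by_contra hn
    exact h4 (if_neg hn)
  have h6 : θ u w ≠ 1 := fun e => h4 (by rw [if_pos h5, e])
  refine ⟨_, {u, w}, ⟨fun x hx y hy z hz a1 a2 a3 => ?_, fun x hx y hy a1 => ?_⟩,
    fun x y h e => h (by rw [e, ite_self]), hP, ⟨pair_mem_sA hu hw' h3, u,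
      Finset.mem_insert_self _ _, w, Finset.mem_insert_of_mem (Finset.mem_singleton_self _), h6⟩,
    Set.ext fun t => ⟨?_, fun ht => ?_⟩⟩
  · have ht := triple_Sm hx hy hz a1 a2 a3
    rw [part_Sm θ P ht (u := x) (w := y) (by simp) (by simp),
      part_Sm θ P ht (u := y) (w := z) (by simp) (by simp),
      part_Sm θ P ht (u := x) (w := z) (by simp) (by simp)]
    split_ifs
    · exact hθ.flat x hx y hy z hz a1 a2 a3
    · exact mul_one 1
  · split_ifs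
    · exact hθ.le x hx y hy a1
    · decide
  · rintro ⟨ht, x, hx, y, hy, h⟩
    beta_reduce at h
    rw [part_Sm θ P ht hx hy] at h
    have h7 : cmp (sG V) (mix G A θ) t = P := by
      by_contra hn
      exact h (if_neg hn)
    rw [h5, ← h7]
    exact mem_cmp_self ⟨ht, x, hx, y, hy, fun e => h (by rw [if_pos h7, e])⟩
  · obtain ⟨ht', x, hx, y, hy, h⟩ := ht.1
    refine ⟨ht', x, hx, y, hy, ?_⟩
    beta_reduce
    rwa [part_Sm θ P ht' hx hy, if_pos ((cmp_eq_of_mem ht).trans h5)]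

end Pool.Agent.MP_6374aa_g.BD

end

section

/-! Separating planes: basic facts. -/

namespace Pool.Agent.MP_6374aa_g.BD

open Pool.Agent.MP_6374aa_gt Classical

variable {V : Type} {G : SimpleGraph V} {M F : Set V} {θ : V → V → Z2}

theorem pln_Pa (h : Pl G M F θ) {x y : V} (hx : x ∈ M) (hy : y ∈ M) (hxy : Adq G x y)
    (hn : θ x y ≠ 1) : ∃ z ∈ F, (z = x ∨ z = y) ∧ pln G F x y = cmp G F z := by
  by_cases hF : x ∈ F
  · exact ⟨x, hF, Or.inl rfl, if_pos hF⟩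
  · refine ⟨y, ?_, Or.inr rfl, if_neg hF⟩
    by_contra hy'
    exact hF ((h.xor x hx y hy hxy hn).2 hy')

theorem cmp_adq_Pa {a b : V} (ha : a ∈ F) (hb : b ∈ F) (hab : Adq G a b) :
    cmp G F b = cmp G F a :=
  cmp_eq_of_mem ⟨hb, Reach.single ha hb hab⟩

theorem theta_ne_Pa {P : Set V} {x y : V} (hn : plth G F θ P x y ≠ 1) :
    θ x y ≠ 1 ∧ pln G F x y = P := by
  unfold plth at hn
  by_cases e : pln G F x y = P
  · rw [if_pos e] at hn
    exact ⟨hn, e⟩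
  · rw [if_neg e] at hn
    exact absurd rfl hn

theorem Pl.plth_flat (h : Pl G M F θ) (P : Set V) : Flat G M (plth G F θ P) := by
  intro u hu v hv w hw huv hvw huw
  have hS : ∀ a, (a = u ∨ a = v ∨ a = w) → ∀ b, (b = u ∨ b = v ∨ b = w) → Adq G a b := by
    rintro a (rfl | rfl | rfl) b (rfl | rfl | rfl)
    all_goals first
      | exact adq_refl _
      | assumption
      | exact adq_symm (by assumption)
  have hM : ∀ a, (a = u ∨ a = v ∨ a = w) → a ∈ M := by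
    rintro a (rfl | rfl | rfl) <;> assumption
  obtain ⟨C, hC⟩ : ∃ C : Set V, ∀ a, (a = u ∨ a = v ∨ a = w) → a ∈ F → cmp G F a = C := by
    by_cases e : ∃ z, (z = u ∨ z = v ∨ z = w) ∧ z ∈ F
    · obtain ⟨z, hz, hzF⟩ := e
      exact ⟨cmp G F z, fun a ha haF => cmp_adq_Pa hzF haF (hS z hz a ha)⟩
    · exact ⟨∅, fun a ha haF => absurd ⟨a, ha, haF⟩ e⟩
  have key : ∀ a, (a = u ∨ a = v ∨ a = w) → ∀ b, (b = u ∨ b = v ∨ b = w) →
      plth G F θ P a b = if C = P then θ a b else 1 := by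
    intro a ha b hb
    by_cases e : θ a b = 1
    · simp [plth, e]
    · obtain ⟨z, hzF, hz, hp⟩ := pln_Pa h (hM a ha) (hM b hb) (hS a ha b hb) e
      have hz' : z = u ∨ z = v ∨ z = w := by
        rcases hz with rfl | rfl
        exacts [ha, hb]
      rw [plth, hp, hC z hz' hzF]
  rw [key u (Or.inl rfl) v (Or.inr (Or.inl rfl)), key v (Or.inr (Or.inl rfl)) w (Or.inr (Or.inr rfl)),
    key u (Or.inl rfl) w (Or.inr (Or.inr rfl))]
  by_cases e : C = P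
  · simp only [if_pos e]
    exact h.flat u hu v hv w hw huv hvw huw
  · simp [if_neg e]

theorem Pl.sp_iff (h : Pl G M F θ) {P : Set V} {x y : V} {l : List V} (hw : Wk G M x l y) :
    Sp G M F θ P x y ↔ ev (plth G F θ P) x l ≠ 1 := by
  refine ⟨?_, fun hn => ⟨l, hw, hn⟩⟩
  rintro ⟨m, hm, hn⟩
  obtain ⟨p, hp⟩ := h.ndc _ (h.plth_flat P)
  rwa [ev_of_pot hp hw, ← ev_of_pot hp hm]

theorem Pl.sp_symm (h : Pl G M F θ) {P : Set V} {x y : V} (hs : Sp G M F θ P x y) :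
    Sp G M F θ P y x := by
  obtain ⟨l, hl, hn⟩ := hs
  refine ⟨rev x l, hl.rev, ?_⟩
  rw [ev_rev (h.plth_flat P) hl]
  exact fun e => hn (inv_eq_one.1 e)

theorem z2_mul_Pa (a b : Z2) : a * b ≠ 1 ↔ ¬ (a ≠ 1 ↔ b ≠ 1) := by
  revert a b
  decide

theorem Pl.sp_trans (h : Pl G M F θ) {P : Set V} {x y z : V} (hx : x ∈ M) (h1 : Reach G M x y)
    (h2 : Reach G M y z) : Sp G M F θ P x z ↔ ¬ (Sp G M F θ P x y ↔ Sp G M F θ P y z) := by
  obtain ⟨l, hl⟩ := h1.wk hx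
  obtain ⟨m, hm⟩ := h2.wk (h1.mem hx)
  rw [h.sp_iff (hl.append hm), h.sp_iff hl, h.sp_iff hm, ev_append hl]
  exact z2_mul_Pa _ _

theorem Pl.sp_adq (h : Pl G M F θ) {P : Set V} {x y : V} (hx : x ∈ M) (hy : y ∈ M)
    (hxy : Adq G x y) : Sp G M F θ P x y ↔ plth G F θ P x y ≠ 1 := by
  rw [h.sp_iff (Wk.cons hx hxy (Wk.nil hy))]
  simp [ev]

theorem Pl.not_sp_avoid (h : Pl G M F θ) {P : Set V} {x y : V} {l : List V}
    (hw : Wk G (M \ F) x l y) : ¬ Sp G M F θ P x y := by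
  rw [h.sp_iff (hw.mono Set.sdiff_subset)]
  intro hn
  obtain ⟨u, hu, w, hw', huw, hne, -, -⟩ := ev_ne_one hw hn
  exact hu.2 ((h.xor u hu.1 w hw'.1 huw (theta_ne_Pa hne).1).2 hw'.2)

theorem Pl.not_sp_plane (h : Pl G M F θ) {P : Set V} {x y : V} (hx : x ∈ F)
    (hr : Reach G F x y) : ¬ Sp G M F θ P x y := by
  obtain ⟨l, hl⟩ := hr.wk hx
  rw [h.sp_iff (hl.mono h.sub)]
  intro hn
  obtain ⟨u, hu, w, hw', huw, hne, -, -⟩ := ev_ne_one hl hn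
  exact (h.xor u (h.sub hu) w (h.sub hw') huw (theta_ne_Pa hne).1).1 hu hw'

theorem Pl.edge (h : Pl G M F θ) {P : Set V} {x y : V} (hx : x ∈ M) (hy : y ∈ M)
    (hxy : Adq G x y) (hn : plth G F θ P x y ≠ 1) :
    (∃ u ∈ F, (u = x ∨ u = y) ∧ P = cmp G F u) ∧ ∀ P', P' ≠ P → plth G F θ P' x y = 1 := by
  obtain ⟨h1, h2⟩ := theta_ne_Pa hn
  obtain ⟨z, hz, hz', hp⟩ := pln_Pa h hx hy hxy h1
  refine ⟨⟨z, hz, hz', h2.symm.trans hp⟩, fun P' hP => ?_⟩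
  exact if_neg fun e => hP (e.symm.trans h2)

theorem Pl.sp_mem (h : Pl G M F θ) {P : Set V} {x y : V} (hs : Sp G M F θ P x y) :
    x ∈ M ∧ Reach G M x y ∧ ∃ u ∈ F, Reach G M x u ∧ P = cmp G F u := by
  obtain ⟨l, hl, hn⟩ := hs
  refine ⟨hl.mem_left, hl.reach, ?_⟩
  obtain ⟨u, hu, w, hw', huw, hne, r1, r2⟩ := ev_ne_one hl hn
  obtain ⟨⟨z, hz, hz', hp⟩, -⟩ := h.edge hu hw' huw hne
  refine ⟨z, hz, ?_, hp⟩
  rcases hz' with rfl | rfl
  exacts [r1, r2]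

end Pool.Agent.MP_6374aa_g.BD

end

section

/-! The first separating plane is unique and natural. -/

namespace Pool.Agent.MP_6374aa_g.BD

open Pool.Agent.MP_6374aa_gt Classical

variable {V : Type} {G : SimpleGraph V} {M F : Set V} {θ : V → V → Z2}

theorem keep_Pc (h : Pl G M F θ) {b x y : V} {P : Set V} (hb : b ∈ M) (hr : Reach G M b x)
    (hy : y ∈ M) (hxy : Adq G x y) (e : plth G F θ P x y = 1) (k : Sp G M F θ P b y) :
    Sp G M F θ P b x := by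
  have hx := hr.mem hb
  have k1 := (h.sp_trans hb hr (Reach.single hx hy hxy)).1 k
  by_contra k2
  exact k1 (iff_of_false k2 fun k3 => (h.sp_adq hx hy hxy).1 k3 e)

theorem step_Pc (h : Pl G M F θ) {b a x y : V} {P P' : Set V} (h1 : First G M F θ b a P)
    (h2 : Sp G M F θ P' b a) (hne : P' ≠ P) (hr : Reach G M b x) (hy : y ∈ M) (hxy : Adq G x y)
    (k : Sp G M F θ P' b y) : plth G F θ P x y = 1 := by
  have hb := (h.sp_mem h2).1
  by_contra e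
  obtain ⟨⟨u, hu, e1, e2⟩, e3⟩ := h.edge (hr.mem hb) hy hxy e
  have e4 := h1.2 P' h2 hne u (e2 ▸ mem_cmp_self hu)
  rcases e1 with rfl | rfl
  · exact e4 (keep_Pc h hb hr hy hxy (e3 P' hne) k)
  · exact e4 k

theorem Pl.first_unique (h : Pl G M F θ) {b a : V} {P P' : Set V} (h1 : First G M F θ b a P)
    (h2 : First G M F θ b a P') : P = P' := by
  by_contra hne
  obtain ⟨hb, hr, -⟩ := h.sp_mem h1.1
  have key : ∀ y, Reach G M b y → ¬ (Sp G M F θ P b y ∧ Sp G M F θ P' b y) := by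
    intro y hy
    induction hy with
    | refl => exact fun k => (h.sp_iff (Wk.nil hb)).1 k.1 rfl
    | tail hx e ih =>
      rintro ⟨k1, k2⟩
      have e' : Adq G _ _ := Or.inr e.2.2
      exact ih ⟨keep_Pc h hb hx e.2.1 e' (step_Pc h h1 h2.1 (Ne.symm hne) hx e.2.1 e' k2) k1,
        keep_Pc h hb hx e.2.1 e' (step_Pc h h2 h1.1 hne hx e.2.1 e' k1) k2⟩
  exact key a hr ⟨h1.1, h2.1⟩

theorem Pl.first_only (h : Pl G M F θ) {b a : V} {P : Set V} (h1 : First G M F θ b a P)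
    (h2 : First G M F θ a b P) : ∀ P', Sp G M F θ P' b a → P' = P := by
  intro P' k
  by_contra hne
  obtain ⟨hb, hr, u, hu, hbu, e⟩ := h.sp_mem h1.1
  have hP : u ∈ P := e ▸ mem_cmp_self hu
  exact (h.sp_trans hb hbu (hbu.symm.trans hr)).1 k
    (iff_of_false (h1.2 P' k hne u hP) fun c => h2.2 P' (h.sp_symm k) hne u hP (h.sp_symm c))

theorem move_Pc (h : Pl G M F θ) {b b' y : V} {l : List V} {P : Set V}
    (hb : Wk G (M \ F) b l b') (k : Sp G M F θ P b y) : Sp G M F θ P b' y :=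
  (h.sp_trans hb.mem_right.1 (hb.rev.reach.mono Set.sdiff_subset) (h.sp_mem k).2.1).2
    fun e => h.not_sp_avoid hb.rev (e.2 k)

theorem Pl.first_move (h : Pl G M F θ) {b a b' a' : V} {l m : List V} {P : Set V}
    (hb : Wk G (M \ F) b l b') (ha : Wk G (M \ F) a m a') (h1 : First G M F θ b a P) :
    First G M F θ b' a' P := by
  refine ⟨h.sp_symm (move_Pc h ha (h.sp_symm (move_Pc h hb h1.1))), fun P' k hne u hu c => ?_⟩
  exact h1.2 P' (h.sp_symm (move_Pc h ha.rev (h.sp_symm (move_Pc h hb.rev k)))) hne u hu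
    (move_Pc h hb.rev c)

theorem hom_Pc (φ : V ≃ V) (h1 : ∀ u w, G.Adj (φ u) (φ w) ↔ G.Adj u w) {A : Set V}
    (h2 : ∀ u, φ u ∈ A ↔ u ∈ A) : IsHom G A G A φ :=
  ⟨fun a ha => (h2 a).2 ha, fun a _ b _ e => Or.inr ((h1 a b).2 e)⟩

theorem cmp_Pc (φ : V ≃ V) (h1 : ∀ u w, G.Adj (φ u) (φ w) ↔ G.Adj u w)
    (h3 : ∀ u, φ u ∈ F ↔ u ∈ F) (u : V) : cmp G F (φ u) = φ '' cmp G F u := by
  ext x
  constructor
  · intro k
    obtain ⟨y, rfl⟩ := φ.surjective x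
    have e := k.2.map (hom_Pc (A := F) φ.symm
      (fun a b => by rw [← h1, φ.apply_symm_apply, φ.apply_symm_apply])
      fun a => by rw [← h3, φ.apply_symm_apply])
    rw [φ.symm_apply_apply, φ.symm_apply_apply] at e
    exact ⟨y, ⟨(h3 y).1 k.1, e⟩, rfl⟩
  · rintro ⟨y, k, rfl⟩
    exact ⟨(h3 y).2 k.1, k.2.map (hom_Pc φ h1 h3)⟩

theorem sp_Pc (φ : V ≃ V) (h1 : ∀ u w, G.Adj (φ u) (φ w) ↔ G.Adj u w)
    (h2 : ∀ u, φ u ∈ M ↔ u ∈ M) (h3 : ∀ u, φ u ∈ F ↔ u ∈ F) (h4 : ∀ u w, θ (φ u) (φ w) = θ u w)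
    {x y : V} {P : Set V} (h : Sp G M F θ P x y) : Sp G M F θ (φ '' P) (φ x) (φ y) := by
  obtain ⟨l, hw, e⟩ := h
  refine ⟨l.map φ, hw.map (hom_Pc φ h1 h2), ?_⟩
  have k : pull φ (plth G F θ (φ '' P)) = plth G F θ P := by
    funext u w
    have k1 : pln G F (φ u) (φ w) = φ '' pln G F u w := by
      unfold pln
      rw [cmp_Pc φ h1 h3, cmp_Pc φ h1 h3]
      by_cases c : u ∈ F
      · rw [if_pos c, if_pos ((h3 u).2 c)]
      · rw [if_neg c, if_neg fun c' => c ((h3 u).1 c')]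
    unfold pull plth
    rw [k1, h4]
    exact if_congr (Set.image_injective.2 φ.injective).eq_iff rfl rfl
  rwa [← ev_pull, k]

theorem first_aut (φ : V ≃ V) (h1 : ∀ u w, G.Adj (φ u) (φ w) ↔ G.Adj u w)
    (h2 : ∀ u, φ u ∈ M ↔ u ∈ M) (h3 : ∀ u, φ u ∈ F ↔ u ∈ F) (h4 : ∀ u w, θ (φ u) (φ w) = θ u w)
    {b a : V} {P : Set V} (h : First G M F θ b a P) : First G M F θ (φ b) (φ a) (φ '' P) := by
  refine ⟨sp_Pc φ h1 h2 h3 h4 h.1, ?_⟩
  rintro P' k hne _ ⟨u, hu, rfl⟩ c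
  have key : ∀ x y, Sp G M F θ P' (φ x) (φ y) → Sp G M F θ (φ.symm '' P') x y := fun x y e => by
    have e' := sp_Pc φ.symm
      (fun a b => by rw [← h1, φ.apply_symm_apply, φ.apply_symm_apply])
      (fun a => by rw [← h2, φ.apply_symm_apply]) (fun a => by rw [← h3, φ.apply_symm_apply])
      (fun a b => by rw [← h4, φ.apply_symm_apply, φ.apply_symm_apply]) e
    rwa [φ.symm_apply_apply, φ.symm_apply_apply] at e'
  refine h.2 _ (key b a k) (fun e => hne ?_) u hu (key b u c)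
  rw [← e, φ.image_symm_image]

end Pool.Agent.MP_6374aa_g.BD

end

section

/-! The first separating plane exists. -/

namespace Pool.Agent.MP_6374aa_g.BD

open Pool.Agent.MP_6374aa_gt Classical

variable {V : Type} {G : SimpleGraph V} {M F : Set V} {θ : V → V → Z2}

theorem sum_Pb (G : SimpleGraph V) (F : Set V) (θ : V → V → Z2) (b : V) (l : List V) :
    ∃ I : Finset (Set V), ∀ N : Set V → Prop,
      ev (fun u w => if N (pln G F u w) then θ u w else 1) b l =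
        ∏ P ∈ I, if N P then ev (plth G F θ P) b l else 1 :=
  ev_sum (pln G F) θ b l

theorem walk_Pb (h : Pl G M F θ) {b a : V} (hb : b ∈ M) (h0 : ∃ P, Sp G M F θ P b a) {x : V}
    {m : List V} (hw : Wk G M x m a) (hr : Reach G M b x)
    (hi : ∀ P, Sp G M F θ P b a → ¬ Sp G M F θ P b x) :
    ∃ u ∈ F, (u = x ∨ u ∈ m) ∧ First G M F θ b a (cmp G F u) := by
  induction hw with
  | nil _ => exact absurd h0.choose_spec (hi _ h0.choose_spec)
  | @cons x y a m hx hxy hw ih =>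
    have hy := hw.mem_left
    have hr1 := Reach.single hx hy hxy
    by_cases e : ∀ P, Sp G M F θ P b a → ¬ Sp G M F θ P b y
    · obtain ⟨u, h1, h2, h3⟩ := ih h0 (hr.trans hr1) e
      exact ⟨u, h1, Or.inr (List.mem_cons.2 h2), h3⟩
    push Not at e
    obtain ⟨P, h1, h2⟩ := e
    have h3 : Sp G M F θ P x y := by
      have k1 := (h.sp_trans hb hr hr1).1 h2
      have k2 := hi P h1
      tauto
    obtain ⟨⟨u, hu, h4, rfl⟩, h5⟩ := h.edge hx hy hxy ((h.sp_adq hx hy hxy).1 h3)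
    refine ⟨u, hu, h4.imp_right fun k => List.mem_cons.2 (Or.inl k), h1, fun P' k1 k2 v hv => ?_⟩
    have k3 : Reach G M b u ∧ ¬ Sp G M F θ P' b u := by
      rcases h4 with rfl | rfl
      · exact ⟨hr, hi P' k1⟩
      · refine ⟨hr.trans hr1, fun k => (h.sp_trans hb hr hr1).1 k (iff_of_false (hi P' k1) ?_)⟩
        exact fun k4 => (h.sp_adq hx hy hxy).1 k4 (h5 P' k2)
    exact fun k => (h.sp_trans hb k3.1 (hv.2.mono h.sub)).1 k
      (iff_of_false k3.2 (h.not_sp_plane hu hv.2))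

theorem Pl.first_ex (h : Pl G M F θ) {b a : V} {l : List V} (hw : Wk G M b l a)
    (ho : ev θ b l ≠ 1) : ∃ u ∈ F, (u = b ∨ u ∈ l) ∧ First G M F θ b a (cmp G F u) := by
  refine walk_Pb h hw.mem_left ?_ hw (Reach.refl b)
    fun P _ k => (h.sp_iff (Wk.nil hw.mem_left)).1 k rfl
  obtain ⟨I, hI⟩ := sum_Pb G F θ b l
  have h1 := hI fun _ => True
  simp only [if_true] at h1
  obtain ⟨P, -, k⟩ := Finset.exists_ne_one_of_prod_ne_one (h1 ▸ ho)
  exact ⟨P, l, hw, k⟩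

theorem Pl.weight (h : Pl G M F θ) {b a : V} {l : List V} (hw : Wk G M b l a) {P : Set V}
    (hP : Sp G M F θ P b a) (hu : ∀ P', Sp G M F θ P' b a → P' = P) (N : Set V → Prop) :
    ev (fun u w => if N (pln G F u w) then θ u w else 1) b l ≠ 1 ↔ N P := by
  obtain ⟨I, hI⟩ := sum_Pb G F θ b l
  have h1 := (h.sp_iff hw).1 hP
  have h2 : P ∈ I := by
    by_contra k
    refine h1 (((congrArg (fun f => ev f b l) (funext₂ fun u w => ?_)).trans (hI (· = P))).trans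
      (Finset.prod_eq_one fun Q hQ => if_neg fun e : Q = P => k (e ▸ hQ)))
    unfold plth
    congr
  rw [hI N, Finset.prod_eq_single_of_mem P h2 fun Q _ k => ?_]
  · split_ifs with e
    · exact iff_of_true h1 e
    · exact iff_of_false (fun k => k rfl) e
  · split_ifs
    · by_contra k1
      exact k (hu Q ⟨l, hw, k1⟩)
    · rfl

end Pool.Agent.MP_6374aa_g.BD

end

section

/-! Cutting along a two-sided subcomplex. -/

namespace Pool.Agent.MP_6374aa_g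

open Pool.Agent.MP_6374aa_gt Classical

variable {V V' V'' : Type} {G : SimpleGraph V} {G' : SimpleGraph V'} {G'' : SimpleGraph V''}
  {A : Set V} {A' : Set V'} {A'' : Set V''} {L : Type} [Group L]

variable {H : SimpleGraph V'} {W Fm Fp : Set V'} {F : Set V} {p : V' → V}

theorem Cut.symm (h : Cut H W Fm Fp G A F p) : Cut H W Fp Fm G A F p := by
  exact ⟨h.subp, h.subm, h.far.symm, h.adj, h.bijp, h.bijm, h.isop, h.isom,
    fun u hu a ha b hb e h1 h2 => h.twin u hu b hb a ha e.symm h2 h1, h.lift⟩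

theorem Cut.notp_P4 (h : Cut H W Fm Fp G A F p) {u : V'} (hu : u ∈ Fm) : u ∉ Fp :=
  fun k => h.far u hu u k (adq_refl u)

theorem Cut.hom (h : Cut H W Fm Fp G A F p) : IsHom H W G A p := by
  refine ⟨fun u hu => ?_, fun u hu w hw e => Or.inr (h.adj u hu w hw e)⟩
  by_cases k : u ∈ Fp
  · exact h.bijp.mapsTo ⟨hu, h.symm.notp_P4 k⟩
  · exact h.bijm.mapsTo ⟨hu, k⟩

theorem Cut.subset (h : Cut H W Fm Fp G A F p) : F ⊆ A := by
  intro x hx
  obtain ⟨a, ha, rfl⟩ := h.isom.1.surjOn hx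
  exact h.hom.1 a (h.subm ha)

theorem Cut.mem_F (h : Cut H W Fm Fp G A F p) {u : V'} (hu : u ∈ W) :
    p u ∈ F ↔ u ∈ Fm ∨ u ∈ Fp := by
  refine ⟨fun e => or_iff_not_imp_right.2 fun k => ?_,
    fun e => e.elim (fun k => h.isom.1.mapsTo k) fun k => h.isop.1.mapsTo k⟩
  obtain ⟨a, ha, e'⟩ := h.isom.1.surjOn e
  exact h.bijm.injOn ⟨h.subm ha, h.notp_P4 ha⟩ ⟨hu, k⟩ e' ▸ ha

theorem Cut.eq_P4 (h : Cut H W Fm Fp G A F p) {u w : V'} (hu : u ∈ W) (hw : w ∈ W)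
    (e : p u = p w) : u = w ∨ (u ∈ Fm ∧ w ∈ Fp) ∨ (u ∈ Fp ∧ w ∈ Fm) := by
  refine or_iff_not_imp_left.2 fun k => ?_
  have h1 : ¬ (u ∉ Fp ∧ w ∉ Fp) := fun c => k (h.bijm.injOn ⟨hu, c.1⟩ ⟨hw, c.2⟩ e)
  have h2 : ¬ (u ∉ Fm ∧ w ∉ Fm) := fun c => k (h.bijp.injOn ⟨hu, c.1⟩ ⟨hw, c.2⟩ e)
  have h3 := h.notp_P4 (u := u)
  have h4 := h.notp_P4 (u := w)
  tauto

theorem Cut.eq_out_P4 (h : Cut H W Fm Fp G A F p) {u w : V'} (hu : u ∈ W) (hw : w ∈ W)
    (e : p u = p w) (hF : p u ∉ F) : u = w :=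
  (h.eq_P4 hu hw e).resolve_right fun c => hF ((h.mem_F hu).2 (c.imp And.left And.left))

theorem Cut.eq_adq_P4 (h : Cut H W Fm Fp G A F p) {x u w : V'} (hx : x ∈ W) (hF : p x ∉ F)
    (hu : u ∈ W) (hw : w ∈ W) (h1 : Adq H x u) (h2 : Adq H x w) (e : p u = p w) : u = w := by
  rw [h.mem_F hx, not_or] at hF
  rcases h.eq_P4 hu hw e with c | c | c
  · exact c
  · exact absurd (h2.resolve_left fun k => hF.2 (k ▸ c.2))
      (h.twin x hx u c.1 w c.2 e (h1.resolve_left fun k => hF.1 (k ▸ c.1)))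
  · exact absurd (h1.resolve_left fun k => hF.2 (k ▸ c.1))
      (h.twin x hx w c.2 u c.1 e.symm (h2.resolve_left fun k => hF.1 (k ▸ c.2)))

theorem Cut.sub_P4 (h : Cut H W Fm Fp G A F p) {s t : Finset V'} (hs : s ∈ sA H W)
    (ht : t ∈ sA H W) (he : s.image p ⊆ t.image p) (hF : ¬ ↑(s.image p) ⊆ F) : s ⊆ t := by
  obtain ⟨y, hy, hy'⟩ := Set.not_subset.1 hF
  obtain ⟨x, hx, rfl⟩ := Finset.mem_image.1 hy
  obtain ⟨x', hx', e⟩ := Finset.mem_image.1 (he hy)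
  obtain rfl := h.eq_out_P4 (hs.2.1 hx) (ht.2.1 hx') e.symm hy'
  intro u hu
  obtain ⟨w, hw, e'⟩ := Finset.mem_image.1 (he (Finset.mem_image_of_mem p hu))
  exact h.eq_adq_P4 (hs.2.1 hx) hy' (ht.2.1 hw) (hs.2.1 hu) ((mem_sA.1 ht).2.2 x hx' w hw)
    ((mem_sA.1 hs).2.2 x hx u hu) e' ▸ hw

theorem Cut.lift_unique (h : Cut H W Fm Fp G A F p) {s t : Finset V'} (hs : s ∈ sA H W)
    (ht : t ∈ sA H W) (he : s.image p = t.image p) (hF : ¬ ↑(s.image p) ⊆ F) : s = t := by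
  exact Finset.Subset.antisymm (h.sub_P4 hs ht he.subset hF)
    (h.sub_P4 ht hs he.symm.subset (he ▸ hF))

theorem Cut.subset_of_image (h : Cut H W Fm Fp G A F p) {s t : Finset V'} (hs : s ∈ sA H W)
    (ht : t ∈ sA H W) (he : s.image p ⊆ t.image p) (hF : ¬ ↑(s.image p) ⊆ F) : s ⊆ t := by
  exact h.sub_P4 hs ht he hF

theorem Cut.side_P4 (h : Cut H W Fm Fp G A F p) {s : Finset V'} (hs : s ∈ sA H W)
    (hF : ↑(s.image p) ⊆ F) (hp : s ∉ sA H Fp) : s ∈ sA H Fm := by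
  have k : ∀ u ∈ s, u ∈ Fm ∨ u ∈ Fp := fun u hu =>
    (h.mem_F (hs.2.1 hu)).1 (hF (Finset.mem_image_of_mem p hu))
  obtain ⟨x, hx, hx'⟩ := Set.not_subset.1 fun c : ↑s ⊆ Fp => hp ⟨hs.1, c, hs.2.2⟩
  exact ⟨hs.1, fun u hu => (k u hu).resolve_right fun c =>
    h.far x ((k x hx).resolve_right hx') u c ((mem_sA.1 hs).2.2 x hx u hu), hs.2.2⟩

theorem Cut.bij_P4 (h : Cut H W Fm Fp G A F p) :
    Set.BijOn (Finset.image p) (sA H W \ sA H Fp) (sA G A) := by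
  refine ⟨fun s hs => IsHom.image_mem h.hom hs.1, fun s hs t ht e => ?_, fun t ht => ?_⟩
  · by_cases k : ↑(s.image p) ⊆ F
    · exact (IsIso.sd h.isom).1.injOn (h.side_P4 hs.1 k hs.2) (h.side_P4 ht.1 (e ▸ k) ht.2) e
    · exact h.lift_unique hs.1 ht.1 e k
  · by_cases k : ↑t ⊆ F
    · obtain ⟨s, hs, e⟩ := (IsIso.sd h.isom).1.surjOn (show t ∈ sA G F from ⟨ht.1, k, ht.2.2⟩)
      exact ⟨s, ⟨sA_mono h.subm hs, fun c => far_sA h.far.disjoint s hs s c (adq_refl s)⟩, e⟩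
    · obtain ⟨s, hs, rfl⟩ := h.lift t ht
      exact ⟨s, ⟨hs, fun c => k ((IsIso.sd h.isop).1.mapsTo c).2.1⟩, rfl⟩

theorem Cut.ss_P4 (h : Cut H W Fm Fp G A F p) {s t : Finset V'} (ht : t ∈ sA H W) (e : s ⊂ t) :
    s.image p ⊂ t.image p := by
  have k : Set.InjOn p ↑t := fun u hu w hw c => ((mem_sA.1 ht).2.2 u hu w hw).resolve_right
    fun a => (h.adj u (ht.2.1 hu) w (ht.2.1 hw) a).ne c
  exact ⟨Finset.image_subset_image e.1, fun c =>
    e.2 ((img_subset_B4 k subset_rfl (Finset.coe_subset.2 e.1)).1 c)⟩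

theorem Cut.sd (h : Cut H W Fm Fp G A F p) :
    Cut (sG V') (sA H W) (sA H Fm) (sA H Fp) (sG V) (sA G A) (sA G F) (Finset.image p) := by
  have hf := far_sA (G := H) h.far.disjoint
  refine ⟨sA_mono h.subm, sA_mono h.subp, hf,
    fun s hs t ht e => Or.imp (h.ss_P4 ht) (h.ss_P4 hs) e, h.bij_P4, h.symm.bij_P4,
    IsIso.sd h.isom, IsIso.sd h.isop, fun u hu a ha b hb _ h1 h2 => ?_, fun T hT => ?_⟩
  · rcases id h1 with c | c
    · exact hf u (sA_down ha c.1 hu.1) b hb (Or.inr h2)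
    rcases id h2 with d | d
    · exact hf a ha u (sA_down hb d.1 hu.1) (Or.inr h1.symm)
    obtain ⟨x, hx⟩ := ha.1
    obtain ⟨y, hy⟩ := hb.1
    exact h.far x (ha.2.1 hx) y (hb.2.1 hy) ((mem_sA.1 hu).2.2 x (c.1 hx) y (d.1 hy))
  · obtain ⟨s, hs, e⟩ := h.lift _ (hT.2.1 (top_mem hT))
    have k : ∀ t, t ⊆ top T → (s.filter fun x => p x ∈ t).image p = t := fun t ht => by
      rw [← Finset.filter_image (p := fun y => y ∈ t), e, Finset.filter_mem_eq_inter,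
        Finset.inter_eq_right.2 ht]
    have k1 : IsHom (sG V) {t | t ∈ sA G A ∧ t ⊆ top T} (sG V') (sA H W)
        fun t => s.filter fun x => p x ∈ t :=
      isHom_of_mono (fun t ht => sA_down hs (Finset.filter_subset _ _)
        (Finset.Nonempty.of_image (f := p) (by
          rw [k t ht.2]
          exact ht.1.1))) fun t _ t' _ c => Finset.monotone_filter_right s fun x _ a => c a
    have k2 : T ∈ sA (sG V) {t | t ∈ sA G A ∧ t ⊆ top T} :=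
      ⟨hT.1, fun t ht => ⟨hT.2.1 ht, subset_top ht⟩, hT.2.2⟩
    refine ⟨_, IsHom.image_mem k1 k2, ?_⟩
    ext t
    simp only [Finset.mem_image, exists_exists_and_eq_and]
    exact ⟨fun ⟨u, hu, c⟩ => c ▸ (k u (subset_top hu)).symm ▸ hu,
      fun ht => ⟨t, ht, k t (subset_top ht)⟩⟩

theorem bijr_P4 {D Z : Set V'} (h : Set.BijOn p (D \ Z) A) (Y : Set V) :
    Set.BijOn p ((D ∩ p ⁻¹' Y) \ Z) (A ∩ Y) :=
  ⟨fun _ hu => ⟨h.mapsTo ⟨hu.1.1, hu.2⟩, hu.1.2⟩,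
    h.injOn.mono (Set.sdiff_subset_sdiff_left Set.inter_subset_left), fun x hx => by
      obtain ⟨u, hu, rfl⟩ := h.surjOn hx.1
      exact ⟨u, ⟨⟨hu.1, hx.2⟩, hu.2⟩, rfl⟩⟩

theorem Cut.restrict (h : Cut H W Fm Fp G A F p) {Y : Set V} (hF : F ⊆ Y) :
    Cut H (W ∩ p ⁻¹' Y) Fm Fp G (A ∩ Y) F p := by
  refine ⟨fun a ha => ⟨h.subm ha, hF (h.isom.1.mapsTo ha)⟩,
    fun a ha => ⟨h.subp ha, hF (h.isop.1.mapsTo ha)⟩, h.far,
    fun u hu w hw => h.adj u hu.1 w hw.1, bijr_P4 h.bijm Y, bijr_P4 h.bijp Y, h.isom, h.isop,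
    fun u hu => h.twin u hu.1, fun t ht => ?_⟩
  obtain ⟨s, hs, rfl⟩ := h.lift t (sA_mono Set.inter_subset_left ht)
  exact ⟨s, ⟨hs.1, fun u hu => ⟨hs.2.1 hu, (ht.2.1 (Finset.mem_image_of_mem p hu)).2⟩, hs.2.2⟩, rfl⟩

/-- The subdivision of a set on which `p` is injective embeds. -/
theorem Cut.iso_sA (h : Cut H W Fm Fp G A F p) {D : Set V'} (hD : D ⊆ W \ Fp) :
    IsIso (sG V') (sA H D) (sG V) (Finset.image p '' sA H D) (Finset.image p) := by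
  exact iso_of_subset_B4 (fun s hs => ⟨s, hs, rfl⟩)
    (fun s hs t ht => img_subset_B4 (h.bijm.injOn.mono hD) hs.2.1 ht.2.1) fun t ht => ht

theorem inj_P4 {X : Set V'} (hX : X ⊆ W) (hi : IsIso H X G F p) {ρ : V → V → L} (hρ : UL G F ρ)
    (hm : ∀ a l, Wk H X a l a → Null H W a l → Null H X a l) :
    ∃ (T : L →* Gp H W) (k : V → Gp H W), Function.Injective T ∧ ∀ u ∈ X, ∀ w ∈ X, Adq H u w →
      gen H W u w = k (p u) * T (ρ (p u) (p w)) * (k (p w))⁻¹ := by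
  obtain ⟨a, ha⟩ := hρ.con.1
  obtain ⟨a', -, -⟩ := hi.1.surjOn ha
  have : Nonempty V' := ⟨a'⟩
  obtain ⟨q, h1, h2, h3⟩ := IsIso.symm' hi
  obtain ⟨T, k, hk⟩ := hρ.dom _ _ (flat_pull ((flat_gen H W).mono hX) (IsIso.hom h1))
  refine ⟨T, k, (injective_iff_map_eq_one T).2 fun g hg => ?_, fun u hu w hw e => ?_⟩
  · obtain ⟨l, hl, rfl⟩ := hρ.surj a ha g
    have e := ev_gau hk hl
    rw [ev_hom, hg, mul_one, mul_inv_cancel, ev_pull] at e
    have e' := hm _ _ (hl.map (IsIso.hom h1)) (null_iff_gen.2 e) _ _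
      (flat_pull hρ.flat (IsIso.hom hi))
    rw [← ev_pull] at e'
    rw [← e']
    exact ev_congr (fun u hu w hw _ => by simp only [pull, h3 u hu, h3 w hw]) hl
  · have := hk _ (hi.1.mapsTo hu) _ (hi.1.mapsTo hw) ((IsIso.adq hi hu hw).1 e)
    rwa [pull, h2 u hu, h2 w hw] at this

theorem hnn_P4 {M : Type} [Group M] {T T' : L →* M} (h : Function.Injective T)
    (h' : Function.Injective T') : ∃ (E : Type) (_ : Group E) (ι : M →* E) (t : E),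
      Function.Injective ι ∧ ∀ g, ι (T' g) = t * ι (T g) * t⁻¹ := by
  refine ⟨HNNExtension M T.range T'.range
    ((MonoidHom.ofInjective h).symm.trans (MonoidHom.ofInjective h')), inferInstance,
    HNNExtension.of, HNNExtension.t, HNNExtension.of_injective _, fun g => ?_⟩
  have := HNNExtension.equiv_eq_conj (φ := (MonoidHom.ofInjective h).symm.trans
    (MonoidHom.ofInjective h')) (MonoidHom.ofInjective h g)
  rwa [MulEquiv.trans_apply, MulEquiv.symm_apply_apply] at this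

theorem Cut.desc_P4 (h : Cut H W Fm Fp G A F p) {lab : V' → V' → L} (hl : Flat H W lab)
    {ν : V → V → L} (hm : ∀ u ∈ Fm, ∀ w ∈ Fm, Adq H u w → lab u w = ν (p u) (p w))
    (hp : ∀ u ∈ Fp, ∀ w ∈ Fp, Adq H u w → lab u w = ν (p u) (p w)) :
    ∃ μ, Flat G A μ ∧ ∀ u ∈ W, ∀ w ∈ W, Adq H u w → lab u w = μ (p u) (p w) := by
  have h1 : ∀ u ∈ W, ∀ w ∈ W, Adq H u w → p u ∈ F → p w ∈ F → lab u w = ν (p u) (p w) := by
    intro u hu w hw e a b
    rcases (h.mem_F hu).1 a with a | a <;> rcases (h.mem_F hw).1 b with b | b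
    exacts [hm u a w b e, absurd e (h.far u a w b), absurd e (h.far.symm u a w b), hp u a w b e]
  have h2 : ∀ x y : V, ∃ g, ∀ u ∈ W, ∀ w ∈ W, Adq H u w → p u = x → p w = y → lab u w = g := by
    intro x y
    by_cases c : ∃ u ∈ W, ∃ w ∈ W, Adq H u w ∧ p u = x ∧ p w = y
    · obtain ⟨u, hu, w, hw, e, rfl, rfl⟩ := c
      refine ⟨lab u w, fun u' hu' w' hw' e' a b => ?_⟩
      by_cases k : p u ∈ F
      · by_cases k' : p w ∈ F
        · rw [h1 u hu w hw e k k', h1 u' hu' w' hw' e' (a ▸ k) (b ▸ k'), a, b]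
        · obtain rfl := h.eq_out_P4 hw hw' b.symm k'
          rw [h.eq_adq_P4 hw k' hu' hu (adq_symm e') (adq_symm e) a]
      · obtain rfl := h.eq_out_P4 hu hu' a.symm k
        rw [h.eq_adq_P4 hu k hw' hw e' e b]
    · exact ⟨1, fun u hu w hw e a b => absurd ⟨u, hu, w, hw, e, a, b⟩ c⟩
  choose μ hμ using h2
  refine ⟨μ, fun x hx y hy z hz a b c => ?_, fun u hu w hw e => hμ _ _ u hu w hw e rfl rfl⟩
  obtain ⟨s, hs, e⟩ := h.lift _ (tri_mem_B3 hx hy hz a b c)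
  obtain ⟨u, hu, rfl⟩ := Finset.mem_image.1 (show x ∈ s.image p by simp [e])
  obtain ⟨v, hv, rfl⟩ := Finset.mem_image.1 (show y ∈ s.image p by simp [e])
  obtain ⟨w, hw, rfl⟩ := Finset.mem_image.1 (show z ∈ s.image p by simp [e])
  obtain ⟨-, s1, s2⟩ := mem_sA.1 hs
  rw [← hμ _ _ u (s1 hu) v (s1 hv) (s2 u hu v hv) rfl rfl,
    ← hμ _ _ v (s1 hv) w (s1 hw) (s2 v hv w hw) rfl rfl,
    ← hμ _ _ u (s1 hu) w (s1 hw) (s2 u hu w hw) rfl rfl]
  exact hl u (s1 hu) v (s1 hv) w (s1 hw) (s2 u hu v hv) (s2 v hv w hw) (s2 u hu w hw)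

/-- If both sides are incompressible in the cut complex, the cut complex injects. -/
theorem Cut.faithful (h : Cut H W Fm Fp G A F p) (hc : Con G F)
    (hm : ∀ a l, Wk H Fm a l a → Null H W a l → Null H Fm a l)
    (hp : ∀ a l, Wk H Fp a l a → Null H W a l → Null H Fp a l) {a : V'} {l : List V'}
    (hw : Wk H W a l a) (hn : Null G A (p a) (l.map p)) : Null H W a l := by
  obtain ⟨K, _, ρ, hρ⟩ := exists_ul hc
  obtain ⟨T, k, T1, T2⟩ := inj_P4 h.subm h.isom hρ hm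
  obtain ⟨T', k', T1', T2'⟩ := inj_P4 h.subp h.isop hρ hp
  obtain ⟨E, _, ι, t, h1, h2⟩ := hnn_P4 T1 T1'
  let g : V' → E := fun u => if u ∈ Fm then ι (k' (p u)) * t * (ι (k (p u)))⁻¹ else 1
  obtain ⟨μ, h3, h4⟩ := h.desc_P4 (((flat_gen H W).map ι).gauge g)
    (ν := fun x y => ι (k' x * T' (ρ x y) * (k' y)⁻¹))
    (fun u hu w hw e => by
      simp only [g, if_pos hu, if_pos hw, T2 u hu w hw e, map_mul, map_inv, h2]
      group)
    fun u hu w hw e => by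
      simp only [g, if_neg (h.symm.notp_P4 hu), if_neg (h.symm.notp_P4 hw), T2' u hu w hw e,
        one_mul, inv_one, mul_one]
  have h5 := hn E μ h3
  rw [← ev_pull, ev_gau (l1 := pull p μ) (l2 := fun u w => ι (gen H W u w)) (k := g)
    (fun u hu w hw e => (h4 u hu w hw e).symm) hw, ev_hom, conj_eq_one_iff] at h5
  exact null_iff_gen.2 ((injective_iff_map_eq_one ι).1 h1 _ h5)

end Pool.Agent.MP_6374aa_g

end

section

/-! Cut labels. -/

namespace Pool.Agent.MP_6374aa_g.BD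

open Pool.Agent.MP_6374aa_gt Classical

variable {V U : Type} {H : SimpleGraph U} {W Fm Fp Q : Set U} {G : SimpleGraph V} {A F : Set V}
  {p : U → V}

theorem lift_edge (h : Cut H W Fm Fp G A F p) {u w : V} (hu : u ∈ A) (hw : w ∈ A)
    (huw : Adq G u w) : ∃ x ∈ W, ∃ y ∈ W, Adq H x y ∧ p x = u ∧ p y = w := by
  obtain ⟨s, hs, e⟩ := h.lift _ (pair_mem_sA hu hw huw)
  obtain ⟨x, hx, e1⟩ := Finset.mem_image.1 (e ▸ (by simp) : u ∈ s.image p)
  obtain ⟨y, hy, e2⟩ := Finset.mem_image.1 (e ▸ (by simp) : w ∈ s.image p)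
  exact ⟨x, hs.2.1 hx, y, hs.2.1 hy, (mem_sA.1 hs).2.2 x hx y hy, e1, e2⟩

theorem zero_A1 (h : Cut H W Fm Fp G A F p) (h1 : Fp ⊆ Q) (h2 : Disjoint Q Fm) {x y : U}
    (hx : x ∈ W) (hy : y ∈ W) (a : Adq H x y) (b : p x ∈ F) (c : p y ∈ F) : x ∈ Q ↔ y ∈ Q := by
  rcases (h.mem_F hx).1 b with b | b <;> rcases (h.mem_F hy).1 c with c | c
  · exact iff_of_false (Set.disjoint_right.1 h2 b) (Set.disjoint_right.1 h2 c)
  · exact absurd a (h.far x b y c)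
  · exact absurd (adq_symm a) (h.far y c x b)
  · exact iff_of_true (h1 b) (h1 c)

theorem same_A1 (h : Cut H W Fm Fp G A F p) (h1 : Fp ⊆ Q) (h2 : Disjoint Q Fm) {x y x' y' : U}
    (hx : x ∈ W) (hy : y ∈ W) (a : Adq H x y) (hx' : x' ∈ W) (hy' : y' ∈ W) (a' : Adq H x' y')
    (e1 : p x' = p x) (e2 : p y' = p y) : ind Q y' - ind Q x' = ind Q y - ind Q x := by
  by_cases k1 : p x ∈ F
  · by_cases k2 : p y ∈ F
    · have z1 := zero_A1 h h1 h2 hx hy a k1 k2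
      have z2 := zero_A1 h h1 h2 hx' hy' a' (e1 ▸ k1) (e2 ▸ k2)
      simp only [ind, z1, z2, sub_self]
    · obtain rfl := h.eq_out_P4 hy hy' e2.symm k2
      rw [h.eq_adq_P4 hy k2 hx' hx (adq_symm a') (adq_symm a) e1]
  · obtain rfl := h.eq_out_P4 hx hx' e1.symm k1
    rw [h.eq_adq_P4 hx k1 hy' hy a' a e2]

theorem ne_one_A1 {θ : V → V → ZM} (hθ : CLab H W Q p θ) {x y : U} (hx : x ∈ W) (hy : y ∈ W)
    (a : Adq H x y) : θ (p x) (p y) ≠ 1 ↔ (x ∈ Q ↔ y ∉ Q) := by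
  rw [hθ x hx y hy a, Ne, ofAdd_eq_one]
  by_cases b : x ∈ Q <;> by_cases c : y ∈ Q <;> simp [ind, b, c]

theorem clab_ex (h : Cut H W Fm Fp G A F p) (h1 : Fp ⊆ Q) (h2 : Disjoint Q Fm) :
    ∃ θ, CLab H W Q p θ := by
  refine ⟨fun u w => if c : ∃ z : U × U, z.1 ∈ W ∧ z.2 ∈ W ∧ Adq H z.1 z.2 ∧ p z.1 = u ∧ p z.2 = w
    then Multiplicative.ofAdd (ind Q c.choose.2 - ind Q c.choose.1) else 1, fun x hx y hy a => ?_⟩
  have c : ∃ z : U × U, z.1 ∈ W ∧ z.2 ∈ W ∧ Adq H z.1 z.2 ∧ p z.1 = p x ∧ p z.2 = p y :=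
    ⟨(x, y), hx, hy, a, rfl, rfl⟩
  obtain ⟨hx', hy', a', e1, e2⟩ := c.choose_spec
  exact (dif_pos c).trans (congrArg _ (same_A1 h h1 h2 hx hy a hx' hy' a' e1 e2))

theorem clab_coor (h : Cut H W Fm Fp G A F p) {θ : V → V → ZM} (hθ : CLab H W Q p θ) :
    Coor G A θ := by
  refine ⟨fun u hu v hv w hw a b c => ?_, fun u hu w hw a => ?_⟩
  · have h0 : ({u, v, w} : Finset V) ∈ sA G A := by
      refine mem_sA.2 ⟨by simp, by simp [Set.insert_subset_iff, hu, hv, hw], ?_⟩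
      simp only [Finset.mem_insert, Finset.mem_singleton, forall_eq_or_imp, forall_eq]
      exact ⟨⟨adq_refl _, a, c⟩, ⟨adq_symm a, adq_refl _, b⟩, adq_symm c, adq_symm b, adq_refl _⟩
    obtain ⟨s, hs, e⟩ := h.lift _ h0
    obtain ⟨x, hx, rfl⟩ := Finset.mem_image.1 (e ▸ (by simp) : u ∈ s.image p)
    obtain ⟨y, hy, rfl⟩ := Finset.mem_image.1 (e ▸ (by simp) : v ∈ s.image p)
    obtain ⟨z, hz, rfl⟩ := Finset.mem_image.1 (e ▸ (by simp) : w ∈ s.image p)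
    obtain ⟨-, s1, s2⟩ := mem_sA.1 hs
    rw [hθ x (s1 hx) y (s1 hy) (s2 x hx y hy), hθ y (s1 hy) z (s1 hz) (s2 y hy z hz),
      hθ x (s1 hx) z (s1 hz) (s2 x hx z hz), ← ofAdd_add]
    congr 1
    ring
  · obtain ⟨x, hx, y, hy, b, rfl, rfl⟩ := lift_edge h hu hw a
    rw [hθ x hx y hy b, toAdd_ofAdd]
    unfold ind
    split_ifs <;> norm_num

theorem clab_supp (h : Cut H W Fm Fp G A F p) {θ : V → V → ZM} (hθ : CLab H W Q p θ) {u w : V}
    (hu : u ∈ A) (hw : w ∈ A) (huw : Adq G u w) (hn : θ u w ≠ 1) :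
    ∃ x ∈ W, ∃ y ∈ W, Adq H x y ∧ p x = u ∧ p y = w ∧ (x ∈ Q ↔ y ∉ Q) := by
  obtain ⟨x, hx, y, hy, b, rfl, rfl⟩ := lift_edge h hu hw huw
  exact ⟨x, hx, y, hy, b, rfl, rfl, (ne_one_A1 hθ hx hy b).1 hn⟩

theorem clab_mix (h : Cut H W Fm Fp G A F p) (h1 : Fp ⊆ Q) (h2 : Disjoint Q Fm)
    {θ : V → V → ZM} (hθ : CLab H W Q p θ) :
    IsIso (sG U) (fr H W Q) (sG V) (mix G A θ) (Finset.image p) := by
  refine iso_of_subset_B4 (fun s hs => ?_) (fun s hs t ht => ⟨fun e => ?_, fun e =>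
    Finset.image_subset_image e⟩) fun t ht => ?_
  · obtain ⟨a, ⟨x, hx, b⟩, c⟩ := hs
    obtain ⟨y, hy, d⟩ := Set.not_subset.1 c
    exact ⟨IsHom.image_mem h.hom a, p x, Finset.mem_image_of_mem p hx, p y,
      Finset.mem_image_of_mem p hy, (ne_one_A1 hθ (a.2.1 hx) (a.2.1 hy)
        ((mem_sA.1 a).2.2 x hx y hy)).2 (iff_of_true b d)⟩
  · obtain ⟨a, ⟨x, hx, b⟩, c⟩ := hs
    obtain ⟨y, hy, d⟩ := Set.not_subset.1 c
    exact h.subset_of_image a ht.1 e fun k => d ((zero_A1 h h1 h2 (a.2.1 hx) (a.2.1 hy)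
      ((mem_sA.1 a).2.2 x hx y hy) (k (Finset.mem_image_of_mem p hx))
      (k (Finset.mem_image_of_mem p hy))).1 b)
  · obtain ⟨a, u, hu, w, hw, b⟩ := ht
    obtain ⟨s, hs, rfl⟩ := h.lift t a
    obtain ⟨x, hx, rfl⟩ := Finset.mem_image.1 hu
    obtain ⟨y, hy, rfl⟩ := Finset.mem_image.1 hw
    have c := (ne_one_A1 hθ (hs.2.1 hx) (hs.2.1 hy) ((mem_sA.1 hs).2.2 x hx y hy)).1 b
    refine ⟨s, ⟨hs, ?_, fun k => c.1 (k hx) (k hy)⟩, rfl⟩
    by_cases k : x ∈ Q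
    · exact ⟨x, hx, k⟩
    · exact ⟨y, hy, by_contra fun k' => k (c.2 k')⟩

end Pool.Agent.MP_6374aa_g.BD

end

section

/-! Values of cut labels on walks. -/

namespace Pool.Agent.MP_6374aa_g.BD

open Pool.Agent.MP_6374aa_gt Classical

variable {V U : Type} {H : SimpleGraph U} {W Fm Fp Q : Set U} {G : SimpleGraph V} {A F : Set V}
  {p : U → V}

theorem gau_A2 (h : Cut H W Fm Fp G A F p) {θ θ' : V → V → ZM} {S : Set V}
    (k : ∀ x ∈ W, ∀ y ∈ W, Adq H x y → (θ (p x) (p y)).toAdd =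
      (θ' (p x) (p y)).toAdd + ind S (p y) - ind S (p x)) {a b : V} {l : List V}
    (hw : Wk G A a l b) (ha : a ∉ S) (hb : b ∉ S) : ev θ a l = ev θ' a l := by
  have g : Gau G A θ θ' fun v => Multiplicative.ofAdd (-ind S v) := by
    intro u hu w hw e
    obtain ⟨x, hx, y, hy, e', rfl, rfl⟩ := lift_edge h hu hw e
    apply Multiplicative.toAdd.injective
    rw [k x hx y hy e', toAdd_mul, toAdd_mul, toAdd_inv, toAdd_ofAdd, toAdd_ofAdd]
    ring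
  rw [ev_gau g hw]
  simp only [ind, if_neg ha, if_neg hb, neg_zero, ofAdd_zero, one_mul, inv_one, mul_one]

theorem clab_change (h : Cut H W Fm Fp G A F p) (h1 : Fp ⊆ Q) (h2 : Disjoint Q Fm)
    {θ θ0 : V → V → ZM} (hθ : CLab H W Q p θ) (h0 : CLab H W Fp p θ0) {a b : V} {l : List V}
    (hw : Wk G A a l b) (ha : ∀ x ∈ W, x ∈ Q → p x ≠ a) (hb : ∀ x ∈ W, x ∈ Q → p x ≠ b) :
    ev θ a l = ev θ0 a l := by
  have key : ∀ x ∈ W, ind Q x = ind Fp x + ind (p '' (W ∩ (Q \ Fp))) (p x) := by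
    intro x hx
    by_cases e : x ∈ Fp
    · have k : p x ∉ p '' (W ∩ (Q \ Fp)) := by
        rintro ⟨y, ⟨y1, y2, y3⟩, y4⟩
        rcases h.eq_P4 y1 hx y4 with c | c | c
        · exact y3 (c ▸ e)
        · exact Set.disjoint_left.1 h2 y2 c.1
        · exact y3 c.1
      simp only [ind, if_pos e, if_pos (h1 e), if_neg k, add_zero]
    · by_cases e' : x ∈ Q
      · have k : p x ∈ p '' (W ∩ (Q \ Fp)) := ⟨x, ⟨hx, e', e⟩, rfl⟩
        simp only [ind, if_neg e, if_pos e', if_pos k, zero_add]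
      · have k : p x ∉ p '' (W ∩ (Q \ Fp)) := by
          rintro ⟨y, ⟨y1, y2, y3⟩, y4⟩
          exact e' (h.bijm.injOn ⟨y1, y3⟩ ⟨hx, e⟩ y4 ▸ y2)
        simp only [ind, if_neg e, if_neg e', if_neg k, add_zero]
  refine gau_A2 h (S := p '' (W ∩ (Q \ Fp))) (fun x hx y hy e => ?_) hw ?_ ?_
  · rw [hθ x hx y hy e, h0 x hx y hy e, key x hx, key y hy, toAdd_ofAdd, toAdd_ofAdd]
    ring
  · rintro ⟨y, ⟨y1, y2, -⟩, y4⟩
    exact ha y y1 y2 y4
  · rintro ⟨y, ⟨y1, y2, -⟩, y4⟩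
    exact hb y y1 y2 y4

theorem clab_symm (h : Cut H W Fm Fp G A F p) {θ θ0 : V → V → ZM} (hθ : CLab H W Fm p θ)
    (h0 : CLab H W Fp p θ0) {a b : V} {l : List V} (hw : Wk G A a l b) (ha : a ∉ F)
    (hb : b ∉ F) : ev θ a l = (ev θ0 a l)⁻¹ := by
  have key : ∀ x ∈ W, ind F (p x) = ind Fm x + ind Fp x := by
    intro x hx
    have k1 := h.mem_F hx
    have k2 := h.notp_P4 (u := x)
    by_cases e : x ∈ Fm <;> by_cases e' : x ∈ Fp <;> simp_all [ind]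
  refine (gau_A2 h (S := F) (θ' := fun u w => invMonoidHom (θ0 u w)) (fun x hx y hy e => ?_)
    hw ha hb).trans (ev_hom invMonoidHom θ0 a l)
  rw [hθ x hx y hy e, h0 x hx y hy e, key x hx, key y hy, invMonoidHom_apply, toAdd_inv,
    toAdd_ofAdd, toAdd_ofAdd]
  ring

theorem clab_sd (h : Cut H W Fm Fp G A F p) {θ0 : V → V → ZM} (h0 : CLab H W Q p θ0)
    {θ1 : Finset V → Finset V → ZM} (h1 : CLab (sG U) (sA H W) (sA H Q) (Finset.image p) θ1)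
    {a b : V} {l : List V} (hw : Wk G A a l b) : ev θ1 {a} (sdw a l) = ev θ0 a l := by
  induction hw with
  | nil _ => rfl
  | @cons a b c l ha hab hw ih =>
    obtain ⟨x, hx, y, hy, e, rfl, rfl⟩ := lift_edge h ha hw.mem_left hab
    have k1 := h1 {x} (single_B2 hx) {x, y} (pair_B2 hx hy e) (adq_sub_B2 (by simp))
    have k2 := h1 {x, y} (pair_B2 hx hy e) {y} (single_B2 hy) (adq_symm (adq_sub_B2 (by simp)))
    have k3 : ∀ z : U, ind (sA H Q) {z} = ind Q z := fun z => by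
      simp only [ind, singleton_mem_sA]
    simp only [Finset.image_insert, Finset.image_singleton, k3] at k1 k2
    simp only [sdw, ev, ih]
    rw [← mul_assoc, k1, k2, h0 x hx y hy e, ← ofAdd_add]
    congr 2
    ring

theorem clab_two (h : Cut H W Fm Fp G A F p) {θ : V → V → ZM} (hθ : CLab H W Fp p θ) :
    ∃ θ2 : V → V → Z2,
      (∀ u ∈ W, ∀ w ∈ W, Adq H u w → (θ2 (p u) (p w) = 1 ↔ (u ∈ Fp ↔ w ∈ Fp))) ∧ Flat G A θ2 ∧
      (∀ u ∈ A, ∀ w ∈ A, Adq G u w → θ2 u w ≠ 1 → (u ∈ F ↔ w ∉ F)) ∧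
      ∀ a l, Odd (ev θ a l).toAdd → ev θ2 a l ≠ 1 := by
  let T : ZM →* Z2 := AddMonoidHom.toMultiplicative (Int.castAddHom (ZMod 2))
  have hT : ∀ z : ZM, T z = 1 ↔ Even z.toAdd := fun z =>
    (ZMod.intCast_zmod_eq_zero_iff_dvd z.toAdd 2).trans even_iff_two_dvd.symm
  have key : ∀ u ∈ W, ∀ w ∈ W, Adq H u w → (T (θ (p u) (p w)) = 1 ↔ (u ∈ Fp ↔ w ∈ Fp)) := by
    intro u hu w hw e
    rw [hT, hθ u hu w hw e, toAdd_ofAdd]
    by_cases e1 : u ∈ Fp <;> by_cases e2 : w ∈ Fp <;> simp [ind, e1, e2]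
  refine ⟨fun u w => T (θ u w), key, (clab_coor h hθ).flat.map T, fun u hu w hw e k => ?_,
    fun a l k e => ?_⟩
  · obtain ⟨x, hx, y, hy, e', rfl, rfl⟩ := lift_edge h hu hw e
    have k1 := mt (key x hx y hy e').2 k
    have k2 := fun a b => h.far x a y b e'
    have k3 := fun a b => h.far y a x b (adq_symm e')
    rw [h.mem_F hx, h.mem_F hy]
    tauto
  · rw [ev_hom, hT] at e
    exact Int.not_even_iff_odd.2 k e

end Pool.Agent.MP_6374aa_g.BD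

end

section

/-! Sides of a compressing disc. -/

namespace Pool.Agent.MP_6374aa_g.BD

open Pool.Agent.MP_6374aa_gt Classical

variable {U : Type} {H : SimpleGraph U} {W T F D : Set U} {σ : U → Set U}

theorem RS.symm (h : RS H W T F D σ) : RS H W T F D (opp H W D σ) := by
  exact ⟨h.fin, h.mf, h.clo, h.subD, h.ball, h.bd, h.ne, Sided.symm h.subD h.sid⟩

theorem RS.pos_iff (h : RS H W T F D σ) {s : Finset U} (hs : s ∈ sA H W) {x y : U} (hx : x ∈ s)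
    (hxD : x ∈ D) (hy : y ∈ s) (hyD : y ∉ D) : Pos D σ s ↔ y ∈ σ x := by
  refine ⟨?_, fun e => ⟨x, hx, hxD, y, hy, e⟩⟩
  rintro ⟨x', hx', hD', y', hy', e⟩
  obtain ⟨-, hW, hc⟩ := mem_sA.1 hs
  have adj : ∀ z ∈ s, z ∈ D → H.Adj z y := fun z hz k =>
    (hc z hz y hy).resolve_left fun e => hyD (e ▸ k)
  have k1 : y ∈ σ x' := by
    by_contra k
    have k2 : y ∈ Lk H W {x'} \ (D ∪ σ x') :=
      ⟨⟨hW hy, fun u hu => hu ▸ adj x' hx' hD'⟩, fun o => o.elim hyD k⟩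
    exact k (((hc y' hy' y hy).resolve_right (h.sid.sep x' hD' y' e y k2)) ▸ e)
  rcases hc x' hx' x hx with rfl | k
  · exact k1
  · refine (h.sid.compat x' hD' x hxD k y ⟨hW hy, ?_⟩).1 k1
    rintro u (rfl | rfl)
    · exact adj _ hx' hD'
    · exact adj _ hx hxD

theorem RS.pos_mix (h : RS H W T F D σ) {s : Finset U} (hp : Pos D σ s) :
    Meets s D ∧ ¬ ↑s ⊆ D := by
  obtain ⟨x, hx, hD, y, hy, e⟩ := hp
  exact ⟨⟨x, hx, hD⟩, fun k => (h.sid.subset x hD e).2 (k hy)⟩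

theorem RS.pos_mono (h : RS H W T F D σ) {s t : Finset U} (ht : t ∈ sA H W) (hst : s ⊆ t)
    (h1 : Meets s D) (h2 : ¬ ↑s ⊆ D) : Pos D σ s ↔ Pos D σ t := by
  obtain ⟨x, hx, hD⟩ := h1
  obtain ⟨y, hy, hy'⟩ := Set.not_subset.1 h2
  rw [h.pos_iff (sA_down ht hst ⟨x, hx⟩) hx hD hy hy', h.pos_iff ht (hst hx) hD (hst hy) hy']

theorem RS.pos_opp (h : RS H W T F D σ) {s : Finset U} (hs : s ∈ sA H W) (h1 : Meets s D)
    (h2 : ¬ ↑s ⊆ D) : Pos D (opp H W D σ) s ↔ ¬ Pos D σ s := by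
  obtain ⟨x, hx, hD⟩ := h1
  obtain ⟨y, hy, hy'⟩ := Set.not_subset.1 h2
  obtain ⟨-, hW, hc⟩ := mem_sA.1 hs
  rw [h.symm.pos_iff hs hx hD hy hy', h.pos_iff hs hx hD hy hy']
  refine ⟨fun k e => k.2 (Or.inr e), fun k => ⟨⟨hW hy, fun u hu => ?_⟩, fun o => o.elim hy' k⟩⟩
  exact hu ▸ (hc x hx y hy).resolve_left fun e => hy' (e ▸ hD)

theorem RS.inter (h : RS H W T F D σ) : D ∩ F = D ∩ T := by
  exact Set.Subset.antisymm (fun _ k => ⟨k.1, (h.clo.1 k.2).2⟩) fun _ k => ⟨k.1, h.bd k⟩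

theorem RS.circle (h : RS H W T F D σ) : Sph H 2 (D ∩ T) := by
  exact Ball.bd h.ball le_rfl

theorem RS.surf (h : RS H W T F D σ) : Mf H 2 F ∅ := by
  exact Mfa.clopen (Mfa.mono (Mf.bd h.mf le_rfl) h.clo.1) h.clo

theorem RS.fr_surf (h : RS H W T F D σ) :
    (fr H W (F ∪ D)).Finite ∧ Mf (sG U) 2 (fr H W (F ∪ D)) ∅ := by
  refine ⟨(sA_finite h.fin).subset fun _ k => k.1,
    Mfa.congr (Mf.fr h.mf le_rfl) subset_rfl fun τ hτ => ?_⟩
  obtain ⟨⟨s, hs⟩, h1, -⟩ := hτ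
  refine iff_of_false (fun k => ?_) fun k => k hs
  obtain ⟨a1, ⟨v, a2, a3⟩, a4⟩ := h1 hs
  have a5 : (s : Set U) ⊆ T := k hs
  obtain ⟨-, hW, hc⟩ := mem_sA.1 a1
  have a6 : v ∈ F := a3.elim id fun e => h.bd ⟨e, a5 a2⟩
  refine a4 fun w hw => Or.inl ?_
  rcases hc v a2 w hw with rfl | e
  · exact a6
  · exact h.clo.2 v a6 w ⟨hW hw, a5 hw⟩ e

theorem RS.part (h : RS H W T F D σ) {s : Finset U} (hs : s ∈ sA H W) (hm : Meets s (F \ D)) :
    ∀ x ∈ s, x ∈ D → x ∈ F := by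
  obtain ⟨v, hv, h1, h2⟩ := hm
  intro x hx hD
  by_contra k
  exact h2 ((((mem_sA.1 hs).2.2 x hx v hv).resolve_right (h.ne x ⟨hD, k⟩ v ⟨h1, h2⟩)) ▸ hD)

theorem up_meets {s : Finset U} (hs : s ∈ sA H W) {Y : Set U} (hY : Y ⊆ Lk H W s)
    (h1 : Con H Y) (h2 : SCo H Y) :
    Con (sG U) {t | t ∈ sA H W ∧ s ⊆ t ∧ Meets t Y} ∧
      SCo (sG U) {t | t ∈ sA H W ∧ s ⊆ t ∧ Meets t Y} := by
  have hn : ∀ y ∈ Y, y ∉ s := fun y hy k => H.irrefl ((hY hy).2 y k)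
  have e1 := IsIso.restrict' (upper_iso hs.2) {r | Meets r Y}
  have e2 : {t | t ∈ sA H W ∧ s ⊂ t} ∩ (fun t => t \ s) ⁻¹' {r | Meets r Y} =
      {t | t ∈ sA H W ∧ s ⊆ t ∧ Meets t Y} := by
    ext t
    constructor
    · rintro ⟨⟨a1, a2⟩, y, a3, a4⟩
      exact ⟨a1, a2.subset, y, (Finset.mem_sdiff.1 a3).1, a4⟩
    · rintro ⟨a1, a2, y, a3, a4⟩
      exact ⟨⟨a1, a2, fun k => hn y a4 (k a3)⟩, y, Finset.mem_sdiff.2 ⟨a3, hn y a4⟩, a4⟩
  have e3 : Lk H W s ∩ Y = Y := Set.inter_eq_right.2 hY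
  rw [e2] at e1
  change IsIso _ _ _ (nb H (Lk H W s) Y) _ at e1
  refine ⟨(IsIso.con e1).2 ⟨?_, pre_nb.2 (e3.symm ▸ h1.2)⟩,
    (PE.sco (IsIso.pe e1)).2 (sco_nb.2 (e3.symm ▸ h2))⟩
  obtain ⟨y, hy⟩ := h1.1
  exact ⟨{y}, singleton_mem_sA.2 (hY hy), y, Finset.mem_singleton_self y, hy⟩

/-- The link of a simplex of the disc is split by the disc. -/
theorem RS.split (h : RS H W T F D σ) {s : Finset U} (hs : s ∈ sA H D) {x : U} (hx : x ∈ s) :
    s.card ≤ 3 ∧ Split H (3 - s.card) (Lk H W s) (Lk H D s) (Lk H W s ∩ σ x) := by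
  have hD : x ∈ D := hs.2.1 hx
  have hc := (Cell.link h.ball hs.2).1
  refine ⟨hc, fun a ha => ⟨ha.1, fun k => (h.sid.subset x hD ha.2).2 k.1⟩, ?_, ?_⟩
  · rintro a ha b ⟨b1, b2⟩
    refine h.sid.sep x hD a ha.2 b ⟨⟨b1.1, fun u hu => hu ▸ b1.2 x hx⟩, ?_⟩
    exact fun o => b2 (o.imp (fun k => ⟨k, b1.2⟩) fun k => ⟨b1, k⟩)
  · intro t ht hc'
    obtain ⟨a1, a2⟩ := (clq_lk hs.2).1 ht
    obtain ⟨⟨a, a3, a4⟩, b, b1, b2⟩ := h.sid.two (s ∪ t) a1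
      (by rw [Finset.card_union_of_disjoint a2]; omega) x (Finset.mem_union_left _ hx)
    rw [Finset.coe_union, ← lk_lk] at a3 b1
    exact ⟨⟨a, a3, a3.1, a4⟩, b, b1, fun o => b2 (o.imp (fun k => k.1) fun k => k.2)⟩

end Pool.Agent.MP_6374aa_g.BD

end

section

/-! The part of the compressed surface away from the disc. -/

namespace Pool.Agent.MP_6374aa_g.BD

open Pool.Agent.MP_6374aa_gt Classical

variable {U : Type} {H : SimpleGraph U} {W T F D : Set U} {σ : U → Set U}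

theorem mem_rs_R2 {X : Set U} {s : Finset U} {x : U} : x ∈ rs X s ↔ x ∈ s ∧ x ∈ X :=
  Finset.mem_filter

theorem rs_subset_R2 (X : Set U) (s : Finset U) : rs X s ⊆ s := fun _ hx => (mem_rs_R2.1 hx).1

theorem rs_mem_R2 {s : Finset U} (hs : s ∈ sA H W) {x : U} (hx : x ∈ s) (hF : x ∈ F) :
    rs F s ∈ sA H F :=
  mem_sA.2 ⟨⟨x, mem_rs_R2.2 ⟨hx, hF⟩⟩, fun _ hy => (mem_rs_R2.1 hy).2, fun u hu w hw =>
    (mem_sA.1 hs).2.2 u (mem_rs_R2.1 hu).1 w (mem_rs_R2.1 hw).1⟩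

theorem pos_up_R2 {s t : Finset U} (h : Pos D σ s) (hst : s ⊆ t) : Pos D σ t := by
  obtain ⟨x, hx, hD, y, hy, hσ⟩ := h
  exact ⟨x, hst hx, hD, y, hst hy, hσ⟩

theorem np_or_R2 (h : RS H W T F D σ) {s : Finset U} (hs : s ∈ fr H W (F ∪ D)) (h1 : Meets s D) :
    s ∈ np H W F D σ ∨ s ∈ np H W F D (opp H W D σ) := by
  by_cases hp : Pos D σ s
  · exact Or.inl ⟨hs, hp⟩
  · exact Or.inr ⟨hs, (h.pos_opp hs.1 h1 fun k => hs.2.2 fun x hx => Or.inr (k hx)).2 hp⟩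

theorem RS.ov_pe (h : RS H W T F D σ) {P : Set (Finset U)} (hP : P ⊆ nb H F (F \ D))
    (hu : ∀ s ∈ P, ∀ t ∈ sA H F, s ⊆ t → t ∈ P) :
    PE (sG U) (ov H W F D P) (sG U) P (rs F) := by
  refine qa_up (isHom_of_mono (fun s hs => hs.2) fun s _ t _ hst =>
    Finset.filter_subset_filter _ hst) fun s hs => ?_
  obtain ⟨k1, v, hv, hv'⟩ := hP hs
  have k2 : s ∈ sA H W := sA_mono (fun x hx => (h.clo.1 hx).1) k1
  have e : {u | u ∈ ov H W F D P ∧ s ⊆ rs F u} =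
      {t | t ∈ sA H W ∧ s ⊆ t ∧ Meets t (Lk H W s \ T)} := by
    ext t
    constructor
    · rintro ⟨⟨⟨a1, -, a2⟩, -⟩, a3⟩
      obtain ⟨y, hy, hy'⟩ := Set.not_subset.1 a2
      have a4 : ∀ u ∈ s, H.Adj u y := fun u hus =>
        ((mem_sA.1 a1).2.2 u (mem_rs_R2.1 (a3 hus)).1 y hy).resolve_left fun e' =>
          hy' (Or.inl (e' ▸ k1.2.1 hus))
      exact ⟨a1, a3.trans (rs_subset_R2 _ _), y, hy, ⟨a1.2.1 hy, a4⟩, fun hT =>
        hy' (Or.inl (h.clo.2 v hv'.1 y ⟨a1.2.1 hy, hT⟩ (a4 v hv)))⟩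
    · rintro ⟨a1, a2, y, hy, hy'⟩
      have a3 : s ⊆ rs F t := fun u hus => mem_rs_R2.2 ⟨a2 hus, k1.2.1 hus⟩
      refine ⟨⟨⟨a1, ⟨v, a2 hv, Or.inl hv'.1⟩, fun a4 => hy'.2 (h.clo.1 ?_).2⟩,
        hu s hs _ (rs_mem_R2 a1 (a2 hv) hv'.1) a3⟩, a3⟩
      exact (a4 hy).elim id (h.part a1 ⟨v, a2 hv, hv'⟩ y hy)
  have k3 := (Mfa.link h.mf (mem_sA_iff_clq.1 k2).2 ⟨v, hv, k2.2.1 hv⟩).2.rem_bd
    (by have := k1.1.card_pos; omega) (S := T) fun t ht x hx => by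
      rcases Finset.mem_union.1 hx with hx | hx
      · exact (h.clo.1 (k1.2.1 hx)).2
      · exact (ht.1 hx).2
  rw [e]
  exact up_meets k2 Set.sdiff_subset k3.1 k3.2

theorem RS.mem_ov (h : RS H W T F D σ) {s : Finset U} :
    s ∈ ov H W F D (nb H F (F \ D)) ↔ s ∈ fr H W (F ∪ D) ∧ Meets s (F \ D) := by
  refine and_congr_right fun hs => ⟨?_, ?_⟩
  · rintro ⟨-, v, hv, hv'⟩
    exact ⟨v, rs_subset_R2 _ _ hv, hv'⟩
  · rintro ⟨v, hv, hv'⟩
    exact ⟨rs_mem_R2 hs.1 hv hv'.1, v, mem_rs_R2.2 ⟨hv, hv'.1⟩, hv'⟩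

theorem RS.cp_sub (h : RS H W T F D σ) : cp H F D σ ⊆ fr H F D ∧ fr H F D ⊆ nb H F (F \ D) ∧
    (∀ s ∈ cp H F D σ, ∀ t ∈ sA H F, s ⊆ t → t ∈ cp H F D σ) ∧
    ∀ s ∈ fr H F D, ∀ t ∈ sA H F, s ⊆ t → t ∈ fr H F D := by
  refine ⟨fun s hs => ⟨hs.1, h.pos_mix hs.2⟩, fun s hs => ?_,
    fun s hs t ht hst => ⟨ht, pos_up_R2 hs.2 hst⟩, fun s hs t ht hst => ?_⟩
  · obtain ⟨y, hy, hy'⟩ := Set.not_subset.1 hs.2.2
    exact ⟨hs.1, y, hy, hs.1.2.1 hy, hy'⟩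
  · obtain ⟨-, ⟨v, hv, hv'⟩, k⟩ := hs
    exact ⟨ht, ⟨v, hst hv, hv'⟩, fun k' => k fun x hx => k' (hst hx)⟩

theorem RS.ov_cp (h : RS H W T F D σ) :
    ov H W F D (cp H F D σ) = ov H W F D (nb H F (F \ D)) ∩ np H W F D σ := by
  ext s
  constructor
  · rintro ⟨a1, a2⟩
    exact ⟨⟨a1, h.cp_sub.2.1 (h.cp_sub.1 a2)⟩, a1, pos_up_R2 a2.2 (rs_subset_R2 _ _)⟩
  · rintro ⟨⟨a1, a2, v, hv, hv'⟩, -, a3⟩
    obtain ⟨x, hx, hD⟩ := (h.pos_mix a3).1
    have a4 := h.part a1.1 ⟨v, rs_subset_R2 _ _ hv, hv'⟩ x hx hD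
    exact ⟨a1, a2, (h.pos_mono a1.1 (rs_subset_R2 _ _) ⟨x, mem_rs_R2.2 ⟨hx, a4⟩, hD⟩
      fun k => hv'.2 (k hv)).2 a3⟩

theorem RS.ov_fr (h : RS H W T F D σ) :
    ov H W F D (fr H F D) ⊆ np H W F D σ ∪ np H W F D (opp H W D σ) := by
  rintro s ⟨a1, -, ⟨v, hv, hv'⟩, -⟩
  exact np_or_R2 h a1 ⟨v, rs_subset_R2 _ _ hv, hv'⟩

theorem RS.np_far (h : RS H W T F D σ) :
    Far (sG U) (np H W F D σ) (np H W F D (opp H W D σ)) := by
  intro a ha b hb hab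
  rcases adq_sG.1 hab with k | k
  · have k1 := pos_up_R2 ha.2 k
    exact (h.pos_opp hb.1.1 (h.pos_mix k1).1 (h.pos_mix k1).2).1 hb.2 k1
  · exact (h.pos_opp ha.1.1 (h.pos_mix ha.2).1 (h.pos_mix ha.2).2).1 (pos_up_R2 hb.2 k) ha.2

theorem RS.fr_cases (h : RS H W T F D σ) {s : Finset U} (hs : s ∈ fr H W (F ∪ D)) :
    s ∈ ov H W F D (nb H F (F \ D)) ∨ s ∈ np H W F D σ ∨ s ∈ np H W F D (opp H W D σ) := by
  by_cases k : Meets s (F \ D)
  · exact Or.inl (h.mem_ov.2 ⟨hs, k⟩)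
  · obtain ⟨v, hv, hv'⟩ := hs.2.1
    refine Or.inr (np_or_R2 h hs ⟨v, hv, ?_⟩)
    by_contra hD
    exact k ⟨v, hv, hv'.resolve_right hD, hD⟩

end Pool.Agent.MP_6374aa_g.BD

end

section

/-! The parallel copies of the disc and of its boundary. -/

namespace Pool.Agent.MP_6374aa_g.BD

open Pool.Agent.MP_6374aa_gt Classical

variable {U : Type} {H : SimpleGraph U} {W T F D : Set U} {σ : U → Set U}

/-- Half of the link of a simplex of the disc. -/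
theorem RS.half (h : RS H W T F D σ) {s : Finset U} (hs : s ∈ sA H D) {x : U} (hx : x ∈ s) :
    Cell H (3 - s.card + 1) (Lk H D s ∪ (Lk H W s ∩ σ x))
      fun t => ↑t ⊆ Lk H D s ∨ ↑(s ∪ t) ⊆ T := by
  obtain ⟨h1, h2⟩ := h.split hs hx
  have h3 := (Mfa.link h.mf (sA_mono h.subD hs).2 ⟨x, hx, h.subD (hs.2.1 hx)⟩).2
  have h4 := (Cell.link h.ball hs.2).2
  have h5 := Finset.card_pos.2 hs.1
  rw [show 3 + 1 - s.card = 3 - s.card + 1 by omega] at h3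
  exact (Cell.side h3 h4 (by omega) (fun a ha => ⟨h.subD ha.1, ha.2⟩) h2).1

theorem half_sco_R3 (h : RS H W T F D σ) {s : Finset U} (hs : s ∈ sA H D) {x : U} (hx : x ∈ s) :
    Con H ((Lk H W s ∩ σ x) \ F) ∧ SCo H ((Lk H W s ∩ σ x) \ F) := by
  have h5 := Finset.card_pos.2 hs.1
  have hsW := sA_mono h.subD hs
  have hA : Lk H D s ∪ (Lk H W s ∩ σ x) ⊆ Lk H W s :=
    Set.union_subset (fun a ha => ⟨h.subD ha.1, ha.2⟩) Set.inter_subset_left
  have e : (Lk H D s ∪ (Lk H W s ∩ σ x)) \ (D ∪ F) = (Lk H W s ∩ σ x) \ F :=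
    Set.ext fun a => ⟨fun k => ⟨k.1.resolve_left fun b => k.2 (Or.inl b.1), fun b => k.2 (Or.inr b)⟩,
      fun k => ⟨Or.inr k.1, fun b => b.elim (h.sid.subset x (hs.2.1 hx) k.1.2).2 k.2⟩⟩
  rw [← e]
  refine (h.half hs hx).rem_bd (by omega) fun t ht => ?_
  by_cases k : ↑t ⊆ D
  · exact Or.inl fun a ha => ⟨k ha, (hA (ht.1 ha).1).2⟩
  have k1 := (h.ne.clique ⟨fun a ha => (ht.1 ha).2, ht.2⟩).resolve_left k
  obtain ⟨y, hy, hyD⟩ := Set.not_subset.1 k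
  have k2 := ((clq_lk hsW.2).1 ⟨fun a ha => hA (ht.1 ha).1, ht.2⟩).1
  have k3 := h.part ⟨⟨x, Finset.mem_union_left _ hx⟩, k2⟩
    ⟨y, Finset.mem_union_right _ hy, k1 hy, hyD⟩
  refine Or.inr fun a ha => (h.clo.1 ?_).2
  rcases Finset.mem_union.1 (Finset.mem_coe.1 ha) with b | b
  · exact k3 a ha (hs.2.1 b)
  · exact k1 b

theorem fibre_R3 (h : RS H W T F D σ) {s : Finset U} (hs : s ∈ sA H D) {x : U} (hx : x ∈ s) :
    {u | u ∈ np H W F D σ ∧ s ⊆ rs D u} =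
      {t | t ∈ sA H W ∧ s ⊆ t ∧ Meets t ((Lk H W s ∩ σ x) \ F)} := by
  have hxD : x ∈ D := hs.2.1 hx
  ext t
  constructor
  · rintro ⟨⟨⟨h1, -, h2⟩, h3⟩, h4⟩
    have h5 : s ⊆ t := h4.trans (Finset.filter_subset _ t)
    obtain ⟨y, hy, hy'⟩ := Set.not_subset.1 h2
    have hyD : y ∉ D := fun k => hy' (Or.inr k)
    refine ⟨h1, h5, y, hy, ⟨⟨h1.2.1 hy, fun a ha => ?_⟩, (h.pos_iff h1 (h5 hx) hxD hy hyD).1 h3⟩,
      fun k => hy' (Or.inl k)⟩
    exact ((mem_sA.1 h1).2.2 a (h5 ha) y hy).resolve_left fun e => hyD (e ▸ hs.2.1 ha)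
  · rintro ⟨h1, h2, y, hy, ⟨-, h3⟩, h4⟩
    exact ⟨⟨⟨h1, ⟨x, h2 hx, Or.inr hxD⟩, fun k => (k hy).elim h4 (h.sid.subset x hxD h3).2⟩,
      x, h2 hx, hxD, y, hy, h3⟩, fun a ha => Finset.mem_filter.2 ⟨h2 ha, hs.2.1 ha⟩⟩

theorem RS.np_sco (h : RS H W T F D σ) :
    Con (sG U) (np H W F D σ) ∧ SCo (sG U) (np H W F D σ) := by
  have hf : IsHom (sG U) (np H W F D σ) (sG U) (sA H D) (rs D) := by
    refine isHom_of_mono (fun s hs => ?_) fun s _ t _ hst => Finset.filter_subset_filter _ hst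
    obtain ⟨x, hx, hxD⟩ := (h.pos_mix hs.2).1
    exact ⟨⟨x, Finset.mem_filter.2 ⟨hx, hxD⟩⟩, fun a ha => (Finset.mem_filter.1 ha).2,
      (Clq.subset hs.1.1.2 (Finset.filter_subset _ s)).2⟩
  have hp := qa_up hf fun s hs => by
    obtain ⟨x, hx⟩ := hs.1
    obtain ⟨k1, k2⟩ := half_sco_R3 h hs hx
    rw [fibre_R3 h hs hx]
    exact up_meets (sA_mono h.subD hs) (fun a ha => ha.1.1) k1 k2
  exact ⟨hp.con.2 (con_sA.2 (Cell.con h.ball)), hp.sco.2 (sco_sA.2 (Cell.sco h.ball))⟩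

theorem RS.np_core (h : RS H W T F D σ) :
    Con (sG U) {s | s ∈ np H W F D σ ∧ ¬ Meets s (F \ D)} := by
  refine (ret_down (r := fun s => s.filter (· ∉ F \ D)) (fun s hs => hs.1)
    (fun s hs => ⟨?_, Finset.filter_subset _ s⟩)
    (fun s _ t _ hst => Finset.filter_subset_filter _ hst) fun s hs =>
      Finset.filter_true_of_mem fun a ha k => hs.2 ⟨a, ha, k⟩).1.con.2 h.np_sco.1
  obtain ⟨x, hx, hxD⟩ := (h.pos_mix hs.2).1
  obtain ⟨y, hy, hy'⟩ := Set.not_subset.1 hs.1.2.2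
  have hx' : x ∈ s.filter (· ∉ F \ D) := Finset.mem_filter.2 ⟨hx, fun k => k.2 hxD⟩
  have hy2 : y ∈ s.filter (· ∉ F \ D) := Finset.mem_filter.2 ⟨hy, fun k => hy' (Or.inl k.1)⟩
  refine ⟨⟨⟨sA_down hs.1.1 (Finset.filter_subset _ s) ⟨x, hx'⟩, ⟨x, hx', Or.inr hxD⟩,
    fun k => hy' (k hy2)⟩, (h.pos_mono hs.1.1 (Finset.filter_subset _ s) ⟨x, hx', hxD⟩
      fun k => hy' (Or.inr (k hy2))).2 hs.2⟩, ?_⟩
  rintro ⟨a, ha, k⟩
  exact (Finset.mem_filter.1 ha).2 k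

end Pool.Agent.MP_6374aa_g.BD

end

section

/-! The parallel copy of the boundary circle. -/

namespace Pool.Agent.MP_6374aa_g.BD

open Pool.Agent.MP_6374aa_gt Classical

variable {U : Type} {H : SimpleGraph U} {W T F D : Set U} {σ : U → Set U}

theorem RS.edge_side (h : RS H W T F D σ) {e : Finset U} (he : Clq H (D ∩ T) e) (h2 : e.card = 2)
    {x : U} (hx : x ∈ e) : (Lk H F e ∩ σ x).Nonempty := by
  have hD : Clq H D e := ⟨fun a ha => (he.1 ha).1, he.2⟩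
  have h1 := h.half ⟨⟨x, hx⟩, hD⟩ hx
  rw [h2] at h1
  have h3 := Cell.arc_ends h1 (Or.inl (by simp))
  have h4 : (Lk H D e).ncard = 1 :=
    ((Cell.codim_one h.ball hD (by omega)).resolve_right fun k => k.1 fun a ha => (he.1 ha).2).2
  obtain ⟨v, ⟨k1, k2⟩, k3⟩ := Set.exists_mem_notMem_of_ncard_lt_ncard (h4.trans_lt
    (h3.symm ▸ one_lt_two)) (h.fin.subset ((lk_subset _).trans h.subD))
  obtain ⟨k4, k5⟩ := k1.resolve_left k3
  have k6 : v ∈ T := (k2.resolve_left fun k => k3 (k (by simp))) (by simp)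
  exact ⟨v, ⟨h.clo.2 x (h.bd (he.1 hx)) v ⟨k4.1, k6⟩ (k4.2 x hx), k4.2⟩, k5⟩

/-- The positive part of the link in the surface of a simplex of the circle. -/
theorem side_R4 (h : RS H W T F D σ) {s : Finset U} (hs : s ∈ sA H (D ∩ T)) {x : U}
    (hx : x ∈ s) : Con H (Lk H F s ∩ σ x) ∧ SCo H (Lk H F s ∩ σ x) := by
  have hxD : x ∈ D := (hs.2.1 hx).1
  have hF : Clq H F s := ⟨hs.2.1.trans h.bd, hs.2.2⟩
  have h0 : ∀ y ∈ σ x, y ∉ D := fun y hy => (h.sid.subset x hxD hy).2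
  obtain ⟨h1, h2⟩ := Cell.link h.circle hs.2
  have h3 := (Mfa.link (mf_empty_iff.1 h.surf) hF ⟨x, hx, hF.1 hx⟩).2
  rw [show 2 + 1 - s.card = 2 - s.card + 1 by omega] at h3
  have h4 : Split H (2 - s.card) (Lk H F s) (Lk H (D ∩ T) s) (Lk H F s ∩ σ x) := by
    refine ⟨fun y hy => ⟨hy.1, fun k => h0 y hy.2 k.1.1⟩, fun a ha b hb => ?_, fun t ht e => ?_⟩
    · refine h.sid.sep x hxD a ha.2 b ⟨⟨(h.clo.1 hb.1.1).1, ?_⟩, ?_⟩
      · rintro _ rfl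
        exact hb.1.2 _ hx
      · rintro (k | k)
        · exact hb.2 (Or.inl ⟨⟨k, (h.clo.1 hb.1.1).2⟩, hb.1.2⟩)
        · exact hb.2 (Or.inr ⟨hb.1, k⟩)
    · obtain ⟨k1, k2⟩ := (clq_lk hs.2).1 ht
      have k3 : (s ∪ t).card = 2 := by
        rw [Finset.card_union_of_disjoint k2]
        omega
      obtain ⟨v, a1, a2⟩ := h.edge_side k1 k3 (Finset.mem_union_left _ hx)
      obtain ⟨w, b1, b2⟩ := h.symm.edge_side k1 k3 (Finset.mem_union_left _ hx)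
      rw [Finset.coe_union, ← lk_lk] at a1 b1
      refine ⟨⟨v, a1, a1.1, a2⟩, w, b1, ?_⟩
      rintro (k | k)
      · exact b2.2 (Or.inl k.1.1)
      · exact b2.2 (Or.inr k.2)
  have h5 := (Cell.side h3 h2 (by omega) (lk_mono_C1 h.bd _) h4).1
  have h6 := Cell.rem_bd h5 (by omega) (S := D) fun t ht => Or.inl fun y hy =>
    (ht.1 hy).1.resolve_right fun k => h0 y k.2 (ht.1 hy).2
  have e : (Lk H (D ∩ T) s ∪ Lk H F s ∩ σ x) \ D = Lk H F s ∩ σ x :=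
    Set.Subset.antisymm (fun y hy => hy.1.resolve_left fun k => hy.2 k.1.1)
      fun y hy => ⟨Or.inr hy, h0 y hy.2⟩
  rwa [e] at h6

theorem RS.cp_pe (h : RS H W T F D σ) :
    PE (sG U) (cp H F D σ) (sG U) (sA H (D ∩ T)) (rs D) := by
  refine qa_up (isHom_of_mono (fun s hs => ?_) fun s _ t _ k => Finset.filter_subset_filter _ k)
    fun s hs => ?_
  · obtain ⟨h1, x, h2, h3, -⟩ := hs
    refine ⟨⟨x, Finset.mem_filter.2 ⟨h2, h3⟩⟩, fun y hy => ?_,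
      h1.2.2.subset (Finset.coe_subset.2 (Finset.filter_subset _ _))⟩
    obtain ⟨k1, k2⟩ := Finset.mem_filter.1 hy
    exact ⟨k2, (h.clo.1 (h1.2.1 k1)).2⟩
  · obtain ⟨x, hx⟩ := hs.1
    have hxD : x ∈ D := (hs.2.1 hx).1
    obtain ⟨h1, h2⟩ := side_R4 h hs hx
    have h3 := up_meets (sA_mono h.bd hs) Set.inter_subset_left h1 h2
    have e : {u | u ∈ cp H F D σ ∧ s ⊆ rs D u} =
        {t | t ∈ sA H F ∧ s ⊆ t ∧ Meets t (Lk H F s ∩ σ x)} := by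
      ext t
      constructor
      · rintro ⟨⟨k1, k2⟩, k3⟩
        have k4 : s ⊆ t := k3.trans (Finset.filter_subset _ _)
        obtain ⟨y, k5, k6⟩ := Set.not_subset.1 (h.pos_mix k2).2
        refine ⟨k1, k4, y, k5, ⟨k1.2.1 k5, fun a ha => k1.2.2 (k4 ha) k5 ?_⟩,
          (h.pos_iff (sA_mono (fun a ha => (h.clo.1 ha).1) k1) (k4 hx) hxD k5 k6).1 k2⟩
        rintro rfl
        exact k6 (hs.2.1 ha).1
      · rintro ⟨k1, k2, y, k3, k4⟩
        exact ⟨⟨k1, x, k2 hx, hxD, y, k3, k4.2⟩,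
          fun a ha => Finset.mem_filter.2 ⟨k2 ha, (hs.2.1 ha).1⟩⟩
    rwa [e]

end Pool.Agent.MP_6374aa_g.BD

end

section

/-! Cocycles on the compressed surface and on the old surface. -/

namespace Pool.Agent.MP_6374aa_g.BD

open Pool.Agent.MP_6374aa_gt Classical

variable {U : Type} {H : SimpleGraph U} {W T F D : Set U} {σ : U → Set U}

theorem cov2_up_R5 {X X1 X2 : Set (Finset U)} (h1 : X1 ⊆ X) (h2 : X2 ⊆ X)
    (h : ∀ s ∈ X, s ∈ X1 ∨ s ∈ X2) (u1 : ∀ s ∈ X1, ∀ t ∈ X, s ⊆ t → t ∈ X1)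
    (u2 : ∀ s ∈ X2, ∀ t ∈ X, s ⊆ t → t ∈ X2) : Cov2 (sG U) X X1 X2 := by
  refine ⟨h1, h2, fun u hu v hv w hw a b c => ?_⟩
  have key : ∀ m ∈ X, m ⊆ u → m ⊆ v → m ⊆ w →
      (u ∈ X1 ∧ v ∈ X1 ∧ w ∈ X1) ∨ (u ∈ X2 ∧ v ∈ X2 ∧ w ∈ X2) := by
    intro m hm p q r
    rcases h m hm with e | e
    · exact Or.inl ⟨u1 m e u hu p, u1 m e v hv q, u1 m e w hw r⟩
    · exact Or.inr ⟨u2 m e u hu p, u2 m e v hv q, u2 m e w hw r⟩
  rcases adq_sG.1 a with a | a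
  · rcases adq_sG.1 c with c | c
    · exact key u hu subset_rfl a c
    · exact key w hw c (c.trans a) subset_rfl
  · rcases adq_sG.1 b with b | b
    · exact key v hv a subset_rfl b
    · exact key w hw (b.trans a) b subset_rfl

theorem pos_up_R5 {s t : Finset U} (h : Pos D σ s) (hst : s ⊆ t) : Pos D σ t := by
  obtain ⟨x, hx, hxD, y, hy, hyx⟩ := h
  exact ⟨x, hst hx, hxD, y, hst hy, hyx⟩

theorem meets_up_R5 {s t : Finset U} {Q : Set U} (h : Meets s Q) (hst : s ⊆ t) : Meets t Q := by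
  obtain ⟨x, hx, hxQ⟩ := h
  exact ⟨x, hst hx, hxQ⟩

theorem np_sub_R5 : np H W F D σ ⊆ fr H W (F ∪ D) := fun _ hs => hs.1

theorem ov_sub_R5 {P : Set (Finset U)} : ov H W F D P ⊆ fr H W (F ∪ D) := fun _ hs => hs.1

theorem RS.np_pot_R5 (h : RS H W T F D σ) {θ : Finset U → Finset U → Z2}
    (hθ : Flat (sG U) (fr H W (F ∪ D)) θ) : Pot (sG U) (np H W F D σ) θ :=
  h.np_sco.2 Z2 θ (hθ.mono np_sub_R5)

theorem RS.ovcp_pe (h : RS H W T F D σ) :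
    PE (sG U) (ov H W F D (cp H F D σ)) (sG U) (sA H (D ∩ T)) (rs D ∘ rs F) := by
  obtain ⟨h1, h2, h3, -⟩ := h.cp_sub
  exact PE.comp h.cp_pe (h.ov_pe (h1.trans h2) h3)

theorem RS.ovcp_pre_R5 (h : RS H W T F D σ) :
    Pre (sG U) (ov H W F D (nb H F (F \ D)) ∩ np H W F D σ) := by
  rw [← h.ov_cp]
  exact h.ovcp_pe.pre.2 (pre_sA.2 (Cell.con h.circle).2)

theorem RS.descend (h : RS H W T F D σ) {θ : Finset U → Finset U → Z2}
    (hθ : Flat (sG U) (fr H W (F ∪ D)) θ) :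
    ∃ Λ k, Flat (sG U) (sA H F) Λ ∧
      Gau (sG U) (ov H W F D (nb H F (F \ D))) θ (pull (rs F) Λ) k := by
  obtain ⟨-, h2, -, h4⟩ := h.cp_sub
  have pe := h.ov_pe (P := nb H F (F \ D)) subset_rfl
    fun s hs t ht hst => ⟨ht, meets_up_R5 hs.2 hst⟩
  obtain ⟨lam, k, hlam, hk⟩ := pe.desc Z2 θ (hθ.mono ov_sub_R5)
  have hfar := h.np_far
  have hne : NE (sG U) (np H W F D σ) (np H W F D (opp H W D σ)) :=
    fun a ha b hb hab => hfar a ha.1 b hb.1 (Or.inr hab)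
  have p1 : Pot (sG U) (np H W F D σ ∪ np H W F D (opp H W D σ)) θ := by
    refine glue_pot hne.cov2 (h.np_pot_R5 hθ) (h.symm.np_pot_R5 hθ) ?_
    rw [hfar.disjoint.inter_eq]
    exact pre_empty
  have p2 : Pot (sG U) (ov H W F D (fr H F D)) (pull (rs F) lam) :=
    (hk.mono fun s hs => ⟨hs.1, h2 hs.2⟩).symm.pot (p1.mono h.ov_fr)
  have p3 : Pot (sG U) (fr H F D) lam := ((h.ov_pe h2 h4).pot (hlam.mono h2)).1 p2
  have hc : Cov2 (sG U) (sA H F) (nb H F (F \ D)) (nb H F D) := by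
    obtain ⟨c1, c2, c3⟩ := cov2_nb (G := H) (A := F) D
    exact ⟨c2, c1, fun u hu v hv w hw a b c => (c3 u hu v hv w hw a b c).symm⟩
  obtain ⟨Λ, hΛ, he, -⟩ := glue_ext hc hlam (by rwa [Set.inter_comm, nb_inter_nb])
  refine ⟨Λ, k, hΛ, fun u hu w hw huw => ?_⟩
  rw [hk u hu w hw huw]
  unfold pull
  rw [he _ hu.2 _ hw.2 (IsHom.adq pe.hom hu hw huw)]

theorem RS.ascend (h : RS H W T F D σ) {θ : Finset U → Finset U → Z2}
    (hθ : Flat (sG U) (fr H W (F ∪ D)) θ)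
    (hp : Pot (sG U) (ov H W F D (nb H F (F \ D))) θ) : Pot (sG U) (fr H W (F ∪ D)) θ := by
  have u0 : ∀ s ∈ ov H W F D (nb H F (F \ D)), ∀ t ∈ fr H W (F ∪ D), s ⊆ t →
      t ∈ ov H W F D (nb H F (F \ D)) :=
    fun s hs t ht hst => h.mem_ov.2 ⟨ht, meets_up_R5 (h.mem_ov.1 hs).2 hst⟩
  have u1 : ∀ τ : U → Set U, ∀ s ∈ np H W F D τ, ∀ t ∈ fr H W (F ∪ D), s ⊆ t →
      t ∈ np H W F D τ := fun τ s hs t ht hst => ⟨ht, pos_up_R5 hs.2 hst⟩
  have hs : ov H W F D (nb H F (F \ D)) ∪ np H W F D σ ⊆ fr H W (F ∪ D) :=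
    Set.union_subset ov_sub_R5 np_sub_R5
  have p1 : Pot (sG U) (ov H W F D (nb H F (F \ D)) ∪ np H W F D σ) θ :=
    glue_pot (cov2_up_R5 Set.subset_union_left Set.subset_union_right (fun s hs => hs)
      (fun s a t b c => u0 s a t (hs b) c) fun s a t b c => u1 σ s a t (hs b) c) hp
      (h.np_pot_R5 hθ) h.ovcp_pre_R5
  refine glue_pot (cov2_up_R5 hs np_sub_R5 (fun s a => or_assoc.2 (h.fr_cases a)) ?_ (u1 _)) p1
    (h.symm.np_pot_R5 hθ) ?_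
  · rintro s (a | a) t b c
    · exact Or.inl (u0 s a t b c)
    · exact Or.inr (u1 σ s a t b c)
  · rw [Set.union_inter_distrib_right, h.np_far.disjoint.inter_eq, Set.union_empty]
    exact h.symm.ovcp_pre_R5

/-- If the side of the positive copy has no double cover, the boundary of the disc is trivial. -/
theorem RS.ess (h : RS H W T F D σ) {Z : Set (Finset U)}
    (hZ : Clopen (sG U) (fr H W (F ∪ D)) Z) (h1 : np H W F D σ ⊆ Z)
    (h2 : ∀ s ∈ Z, Meets s D → Pos D σ s) (hn : NDC (sG U) Z) {L : Type} [Group L]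
    {lab : U → U → L} (hl : Flat H F lab) : Pot H (D ∩ T) lab := by
  have hE := h.np_core
  obtain ⟨s0, hs0⟩ := hE.1
  have hs0F : s0 ∈ fr H W (F ∪ D) := hs0.1.1
  obtain ⟨x0, -⟩ := hs0F.1.1
  have : Nonempty U := ⟨x0⟩
  set Z1 := cmp (sG U) (fr H W (F ∪ D)) s0 with hZ1
  set E := {s | s ∈ np H W F D σ ∧ ¬ Meets s (F \ D)} with hEdef
  have c1 : Con (sG U) Z1 := con_cmp hs0F
  have cl1 : Clopen (sG U) (fr H W (F ∪ D)) Z1 := clopen_cmp s0
  have z1 : Z1 ⊆ Z := c1.2.subset_clopen cl1.1 hZ (mem_cmp_self hs0F) (h1 hs0.1)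
  have n1 : NDC (sG U) Z1 :=
    Triv.clopen hn ⟨z1, fun a ha b hb hab => cl1.2 a ha b (hZ.1 hb) hab⟩
  have m1 : Mf (sG U) 2 Z1 ∅ := Mfa.clopen (Mfa.mono h.fr_surf.2 cl1.1) cl1
  have s1 : Sph (sG U) 3 Z1 := by
    rcases mf_two_cell m1 (h.fr_surf.1.subset cl1.1) c1 n1 with a | a
    · exact a.2
    · simp at a
  have np1 : np H W F D σ ⊆ Z1 :=
    h.np_sco.1.2.subset_cmp np_sub_R5 hs0.1 (mem_cmp_self hs0F)
  have sc : SCo (sG U) (Z1 \ E) :=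
    Cell.compl_sco s1 (fun s hs => np1 hs.1) hE (Or.inl fun a => a)
  have i1 : Z1 \ E ⊆ ov H W F D (nb H F (F \ D)) := by
    intro s hs
    have hsF := cl1.1 hs.1
    have k : s ∈ np H W F D σ → s ∈ ov H W F D (nb H F (F \ D)) := fun a =>
      h.mem_ov.2 ⟨hsF, by_contra fun b => hs.2 ⟨a, b⟩⟩
    rcases h.fr_cases hsF with a | a | a
    · exact a
    · exact k a
    · exact k ⟨hsF, h2 s (z1 hs.1) (h.symm.pos_mix a.2).1⟩
  have i2 : ov H W F D (cp H F D σ) ⊆ Z1 \ E := by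
    rw [h.ov_cp]
    exact fun s hs => ⟨np1 hs.2, fun b => b.2 (h.mem_ov.1 hs.1).2⟩
  let g : Finset U → U := fun s =>
    if Meets (rs F s) D then pk D (rs D (rs F s)) else pk D (rs F s)
  have hg : IsHom (sG U) (Z1 \ E) H F g := by
    refine isHom_pick (A := W) (fun s hs => (cl1.1 hs.1).1) fun s hs => ?_
    have hm : g s ∈ rs F s := by
      by_cases e : Meets (rs F s) D
      · simp only [g, if_pos e]
        obtain ⟨x, hx, hxD⟩ := e
        exact (Finset.mem_filter.1 (pk_mem D ⟨x, Finset.mem_filter.2 ⟨hx, hxD⟩⟩)).1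
      · simp only [g, if_neg e]
        exact pk_mem D (i1 hs).2.1.1
    exact Finset.mem_filter.1 hm
  have p1 : Pot (sG U) (ov H W F D (cp H F D σ)) (pull g lab) :=
    (sc L _ (flat_pull hl hg)).mono i2
  have pe : PE (sG U) (ov H W F D (cp H F D σ)) H (D ∩ T) g := by
    refine (PE.comp (sd_pe (π := pk D) fun s hs => pk_mem D hs.1) h.ovcp_pe).congr ?_
    intro s hs
    simp only [g, if_pos (h.pos_mix hs.2.2).1, Function.comp]
  exact (pe.pot (hl.mono h.bd)).1 p1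

end Pool.Agent.MP_6374aa_g.BD

end

section

/-! The boundary of the disc separates or carries a dual cocycle. -/

namespace Pool.Agent.MP_6374aa_g.BD

open Pool.Agent.MP_6374aa_gt Classical

variable {U : Type} {H : SimpleGraph U} {W T F D : Set U} {σ : U → Set U}

theorem rs_sub_R6 (X : Set U) (s : Finset U) : rs X s ⊆ s := Finset.filter_subset _ _

theorem rs_mono_R6 (X : Set U) {s t : Finset U} (e : s ⊆ t) : rs X s ⊆ rs X t :=
  Finset.filter_subset_filter _ e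

theorem meets_mono_R6 {X : Set U} {s t : Finset U} (e : s ⊆ t) (h : Meets s X) : Meets t X :=
  let ⟨x, h1, h2⟩ := h
  ⟨x, e h1, h2⟩

theorem sA_W_R6 (h : RS H W T F D σ) {s : Finset U} (hs : s ∈ sA H F) : s ∈ sA H W :=
  ⟨hs.1, fun _ hx => (h.clo.1 (hs.2.1 hx)).1, hs.2.2⟩

theorem pos_adq_R6 (h : RS H W T F D σ) {s t : Finset U} (hs : s ∈ fr H F D) (ht : t ∈ fr H F D)
    (e : Adq (sG U) s t) : Pos D σ s ↔ Pos D σ t := by
  rcases adq_sG.1 e with e | e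
  · exact h.pos_mono (sA_W_R6 h ht.1) e hs.2.1 hs.2.2
  · exact (h.pos_mono (sA_W_R6 h hs.1) e ht.2.1 ht.2.2).symm

theorem rs_fr_R6 (h : RS H W T F D σ) {s : Finset U} (hs : s ∈ sA H W) (hm : Meets s D)
    (hr : rs F s ∈ nb H F (F \ D)) : rs F s ∈ fr H F D ∧ (Pos D σ (rs F s) ↔ Pos D σ s) := by
  obtain ⟨x, hx, hxD⟩ := hm
  obtain ⟨y, hy, hyF⟩ := hr.2
  have h1 : Meets (rs F s) D := ⟨x, Finset.mem_filter.2
    ⟨hx, h.part hs ⟨y, rs_sub_R6 F s hy, hyF⟩ x hx hxD⟩, hxD⟩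
  have h2 : ¬ ↑(rs F s) ⊆ D := fun e => hyF.2 (e (Finset.mem_coe.2 hy))
  exact ⟨⟨hr.1, h1, h2⟩, h.pos_mono hs (rs_sub_R6 F s) h1 h2⟩

theorem clopen_R6 (h : RS H W T F D σ) (Q : Finset U → Prop)
    (h1 : ∀ s ∈ nb H F (F \ D), ∀ t ∈ nb H F (F \ D), s ⊆ t → (Q s ↔ Q t))
    (h2 : ∀ s ∈ fr H F D, Q s ↔ Pos D σ s) :
    ∃ Z, Clopen (sG U) (fr H W (F ∪ D)) Z ∧ np H W F D σ ⊆ Z ∧
      ∀ s ∈ Z, Meets s D → Pos D σ s := by
  obtain ⟨P, hP⟩ : ∃ P : Finset U → Prop, ∀ s, P s ↔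
      Pos D σ s ∨ (rs F s ∈ nb H F (F \ D) ∧ Q (rs F s)) := ⟨_, fun _ => Iff.rfl⟩
  have a1 : ∀ s ∈ sA H W, Meets s D → (P s ↔ Pos D σ s) := fun s hs hm =>
    (hP s).trans ⟨fun e => e.elim id fun e =>
      (rs_fr_R6 h hs hm e.1).2.1 ((h2 _ (rs_fr_R6 h hs hm e.1).1).1 e.2), Or.inl⟩
  have a2 : ∀ s ∈ sA H W, rs F s ∈ nb H F (F \ D) → (P s ↔ Q (rs F s)) := fun s hs hr =>
    (hP s).trans ⟨fun e => e.elim (fun e =>
      (h2 _ (rs_fr_R6 h hs (h.pos_mix e).1 hr).1).2 ((rs_fr_R6 h hs (h.pos_mix e).1 hr).2.2 e))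
      And.right, fun e => Or.inr ⟨hr, e⟩⟩
  have a3 : ∀ s ∈ fr H W (F ∪ D), ∀ t ∈ fr H W (F ∪ D), s ⊆ t → (P s ↔ P t) := by
    intro s hs t ht e
    by_cases hm : Meets s D
    · rw [a1 s hs.1 hm, a1 t ht.1 (meets_mono_R6 e hm)]
      exact h.pos_mono ht.1 e hm fun k => hs.2.2 (k.trans Set.subset_union_right)
    · have b1 : Meets s (F \ D) := by
        obtain ⟨x, hx, hxF⟩ := hs.2.1
        have b2 : x ∉ D := fun k => hm ⟨x, hx, k⟩
        exact ⟨x, hx, hxF.resolve_right b2, b2⟩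
      have b3 := (h.mem_ov.2 ⟨hs, b1⟩).2
      have b4 := (h.mem_ov.2 ⟨ht, meets_mono_R6 e b1⟩).2
      rw [a2 s hs.1 b3, a2 t ht.1 b4]
      exact h1 _ b3 _ b4 (rs_mono_R6 F e)
  refine ⟨{s | s ∈ fr H W (F ∪ D) ∧ P s}, ⟨fun _ hs => hs.1, fun s hs t ht e => ⟨ht, ?_⟩⟩,
    fun s hs => ⟨hs.1, (hP s).2 (Or.inl hs.2)⟩, fun s hs hm => (a1 s hs.1.1 hm).1 hs.2⟩
  rcases adq_sG.1 (Or.inr e) with e | e
  · exact (a3 s hs.1 t ht e).1 hs.2
  · exact (a3 t ht s hs.1 e).2 hs.2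

theorem RS.dich (h : RS H W T F D σ) :
    (∃ η : Finset U → Finset U → Z2, Flat (sG U) (sA H F) η ∧
      (∀ s ∈ nb H F (F \ D), ∀ t ∈ nb H F (F \ D), Adq (sG U) s t → η s t = 1) ∧
      ¬ Pot (sG U) (sA H F) η) ∨
    ∃ Z, Clopen (sG U) (fr H W (F ∪ D)) Z ∧ np H W F D σ ⊆ Z ∧
      ∀ s ∈ Z, Meets s D → Pos D σ s := by
  have hc : Cov2 (sG U) (sA H F) (nb H F (F \ D)) (nb H F D) := by
    obtain ⟨c1, c2, c3⟩ := cov2_nb (G := H) (A := F) D
    exact ⟨c2, c1, fun u hu v hv w hw e1 e2 e3 => (c3 u hu v hv w hw e1 e2 e3).symm⟩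
  have hi : nb H F (F \ D) ∩ nb H F D = fr H F D := by rw [Set.inter_comm, nb_inter_nb]
  obtain ⟨k, hk⟩ : ∃ k : Finset U → Z2, ∀ s, k s = if Pos D σ s then neg else 1 :=
    ⟨_, fun _ => rfl⟩
  obtain ⟨η, k', e1, e2, e3, e4⟩ := glue_lab (l1 := fun _ _ => 1) (l2 := fun _ _ => 1) (k := k) hc
    (fun _ _ _ _ _ _ _ _ _ => mul_one _) (fun _ _ _ _ _ _ _ _ _ => mul_one _) (by
      rw [hi]
      intro s hs t ht e
      have : k s = k t := by simp only [hk, pos_adq_R6 h hs ht e]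
      rw [this, mul_one, mul_inv_cancel])
  by_cases hp : Pot (sG U) (sA H F) η
  swap
  · exact Or.inl ⟨η, e1, e2, hp⟩
  obtain ⟨q, hq⟩ := hp
  have hpre : Pre (sG U) (nb H F D) := by
    rw [pre_nb, Set.inter_comm, h.inter]
    exact h.circle.2.1.2
  obtain ⟨c, hc0⟩ : ∃ c : Z2, ∀ s ∈ nb H F D, (q s)⁻¹ * k' s = c := by
    rcases (nb H F D).eq_empty_or_nonempty with e | ⟨t, ht⟩
    · exact ⟨1, fun s hs => by rw [e] at hs; exact hs.elim⟩
    · refine ⟨_, fun s hs => pot_unique hpre (fun u hu w hw e => ?_) hs ht⟩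
      rw [← hq u hu.1 w hw.1 (Or.inr e), e3 u hu w hw (Or.inr e), mul_one]
  refine Or.inr (clopen_R6 h (fun s => q s * c = neg) (fun s hs t ht e => ?_) fun s hs => ?_)
  · have e' : Adq (sG U) s t := adq_sG.2 (Or.inl e)
    have : q s = q t := mul_inv_eq_one.1 ((hq s hs.1 t ht.1 e').symm.trans (e2 s hs t ht e'))
    simp only [this]
  · have hs' := hi.ge hs
    rw [← hc0 s hs'.2, mul_inv_cancel_left, e4 s hs', hk]
    by_cases e : Pos D σ s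
    · simp only [e, if_true]
    · simp only [e, if_false, iff_false]
      decide

theorem ext_clopen {V : Type} {G : SimpleGraph V} {A X : Set V} (hX : Clopen G A X) {L : Type}
    [Group L] {θ : V → V → L} (hθ : Flat G X θ) :
    ∃ θ', Flat G A θ' ∧ (∀ u ∈ X, ∀ w ∈ X, θ' u w = θ u w) ∧
      ∀ u w, u ∉ X ∨ w ∉ X → θ' u w = 1 := by
  have key : ∀ a ∈ X, ∀ b ∈ A, Adq G a b → b ∈ X := fun a ha b hb e =>
    e.elim (fun e => e ▸ ha) (hX.2 a ha b hb)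
  refine ⟨fun u w => if u ∈ X ∧ w ∈ X then θ u w else 1, fun u hu v hv w hw e1 e2 e3 => ?_,
    fun u hu w hw => if_pos ⟨hu, hw⟩, fun u w e => if_neg fun k => e.elim (· k.1) (· k.2)⟩
  by_cases h1 : u ∈ X
  · have h2 := key u h1 v hv e1
    have h3 := key u h1 w hw e3
    simp only [h1, h2, h3, and_self, if_true]
    exact hθ u h1 v h2 w h3 e1 e2 e3
  · have h2 : v ∉ X := fun k => h1 (key v k u hu (adq_symm e1))
    simp only [h1, h2, false_and, if_false, mul_one]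

end Pool.Agent.MP_6374aa_g.BD

end

section

/-! The labelling of the surface. -/

namespace Pool.Agent.MP_6374aa_g.BE

open Pool.Agent.MP_6374aa_gt Classical Pointwise

variable {Γ : Type} [Group Γ] {Y V V' T T' U : Type} [MulAction Γ Y] [MulAction Γ T]
  [MulAction Γ T'] {GY : SimpleGraph Y} {AY A : Set Y} {G H : SimpleGraph V} {F : Set V}
  {q : Y → V} {X : SimpleGraph T} {X' : SimpleGraph T'} {K : SimpleGraph U} {B Hi : Set U}
  {N Nm Np : Subgroup Γ} {L : Type} [Group L]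

variable {M : TM K B Hi Γ Nm Np} {α : Y → Set M.T1} {ε : Y → M.T2}

theorem shape_Lab {β : Y → Set T} (h : AS0 GY A X β) {v : Y} (hv : v ∈ A) :
    (β v).Nonempty ∧ ∀ z ∈ β v, ∀ z' ∈ β v, z ≠ z' → X.Adj z z' := by
  rcases h.shape v hv with ⟨x, e⟩ | ⟨x, y, hxy, e⟩
  · rw [e]
    refine ⟨⟨x, rfl⟩, ?_⟩
    rintro z rfl z' rfl hne
    exact absurd rfl hne
  · rw [e]
    refine ⟨⟨x, Or.inl rfl⟩, ?_⟩
    rintro z (rfl | rfl) z' (rfl | rfl) hne
    · exact absurd rfl hne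
    · exact hxy
    · exact hxy.symm
    · exact absurd rfl hne

theorem chain_Lab {S : Set (Finset Y)} {σ : Finset (Finset Y)} (hσ : σ ∈ sA (sG Y) S) :
    (∃ t ∈ σ, ∀ r ∈ σ, r ⊆ t) ∧ ∃ t ∈ σ, ∀ r ∈ σ, t ⊆ r := by
  obtain ⟨t1, h1, m1⟩ := σ.exists_max_image Finset.card hσ.1
  obtain ⟨t2, h2, m2⟩ := σ.exists_min_image Finset.card hσ.1
  refine ⟨⟨t1, h1, fun r hr => ?_⟩, t2, h2, fun r hr => ?_⟩
  · by_cases e : r = t1
    · exact e.le
    · rcases hσ.2.2 hr h1 e with k | k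
      · exact k.1
      · exact absurd (Finset.card_lt_card k) (not_lt.2 (m1 r hr))
  · by_cases e : r = t2
    · exact e.ge
    · rcases hσ.2.2 hr h2 e with k | k
      · exact absurd (Finset.card_lt_card k) (not_lt.2 (m2 r hr))
      · exact k.1

theorem Fin2.cell_Lab (h : Fin2 M GY AY G F q α ε) {ℓ : Finset V → Finset U}
    (hl : LSpec GY AY q α ε M.ty1 M.ty2 ℓ) {s : Finset U} {a a' b b' : U} (m1 : a ∈ B ∩ Hi)
    (m2 : a' ∈ B ∩ Hi) (m3 : b ∈ B \ Hi) (m4 : b' ∈ B \ Hi) (e1 : K.Adj a a') (e2 : K.Adj b b')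
    (e3 : K.Adj a b) (e4 : K.Adj a b') (e5 : K.Adj a' b) (e6 : K.Adj a' b') (ha : a ∈ s)
    (hb : b ∈ s) (hs : ∀ u ∈ s, u = a ∨ u = a' ∨ u = b ∨ u = b') :
    Cell (sG V) (5 - s.card) {x | x ∈ sA G F ∧ s ⊆ ℓ x} (bl ℓ s) := by
  obtain ⟨x, x', y, y', hc, rfl, rfl, rfl, rfl⟩ := M.ex a m1 a' m2 b m3 b' m4 e1 e2 e3 e4 e5 e6
  have sx : ({x} : Set M.T1) ⊆ {x, x'} := Set.singleton_subset_iff.2 (Or.inl rfl)
  have sy : ({y} : Set M.T2) ⊆ {y, y'} := Set.singleton_subset_iff.2 (Or.inl rfl)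
  by_cases ha' : M.ty1 x' ∈ s <;> by_cases hb' : M.ty2 y' ∈ s
  · have e : s = {M.ty1 x, M.ty1 x', M.ty2 y, M.ty2 y'} := by
      ext u
      simp only [Finset.mem_insert, Finset.mem_singleton]
      refine ⟨hs u, ?_⟩
      rintro (rfl | rfl | rfl | rfl) <;> assumption
    have c : s.card = 4 := by
      rw [e, Finset.card_insert_of_notMem (by simp [e1.ne, e3.ne, e4.ne]),
        Finset.card_insert_of_notMem (by simp [e5.ne, e6.ne]), Finset.card_pair e2.ne]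
    rw [c]
    refine h.proj_cell hl hc (Set.mem_insert x {x'}) subset_rfl (Set.mem_insert y {y'}) subset_rfl
      (fun u => ?_) (h.cell4 hc)
    rw [e]
    simp [eq_comm, or_assoc]
  · have e : s = {M.ty1 x, M.ty1 x', M.ty2 y} := by
      ext u
      simp only [Finset.mem_insert, Finset.mem_singleton]
      constructor
      · intro hu
        rcases hs u hu with k | k | k | k
        · exact Or.inl k
        · exact Or.inr (Or.inl k)
        · exact Or.inr (Or.inr k)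
        · exact absurd (k ▸ hu) hb'
      · rintro (rfl | rfl | rfl) <;> assumption
    have c : s.card = 3 := by
      rw [e, Finset.card_insert_of_notMem (by simp [e1.ne, e3.ne]), Finset.card_pair e5.ne]
    rw [c]
    refine h.proj_cell hl hc (Set.mem_insert x {x'}) subset_rfl (Set.mem_singleton y) sy
      (fun u => ?_) (h.cell3a hc)
    rw [e]
    simp [eq_comm, or_assoc]
  · have e : s = {M.ty1 x, M.ty2 y, M.ty2 y'} := by
      ext u
      simp only [Finset.mem_insert, Finset.mem_singleton]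
      constructor
      · intro hu
        rcases hs u hu with k | k | k | k
        · exact Or.inl k
        · exact absurd (k ▸ hu) ha'
        · exact Or.inr (Or.inl k)
        · exact Or.inr (Or.inr k)
      · rintro (rfl | rfl | rfl) <;> assumption
    have c : s.card = 3 := by
      rw [e, Finset.card_insert_of_notMem (by simp [e3.ne, e4.ne]), Finset.card_pair e2.ne]
    rw [c]
    refine h.proj_cell hl hc (Set.mem_singleton x) sx (Set.mem_insert y {y'}) subset_rfl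
      (fun u => ?_) (h.cell3b hc)
    rw [e]
    simp [eq_comm]
  · have e : s = {M.ty1 x, M.ty2 y} := by
      ext u
      simp only [Finset.mem_insert, Finset.mem_singleton]
      constructor
      · intro hu
        rcases hs u hu with k | k | k | k
        · exact Or.inl k
        · exact absurd (k ▸ hu) ha'
        · exact Or.inr k
        · exact absurd (k ▸ hu) hb'
      · rintro (rfl | rfl) <;> assumption
    have c : s.card = 2 := by rw [e, Finset.card_pair e3.ne]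
    rw [c]
    refine h.proj_cell hl hc (Set.mem_singleton x) sx (Set.mem_singleton y) sy
      (fun u => ?_) (h.cell2 hc)
    rw [e]
    simp [eq_comm]

theorem img_Lab {q' : Y → V'} {p : V' → V} (hp : ∀ y ∈ AY, p (q' y) = q y) {t : Finset Y}
    (ht : t ∈ sA GY AY) : (t.image q').image p = t.image q := by
  rw [Finset.image_image]
  exact Finset.image_congr fun y hy => hp y (ht.2.1 hy)

theorem Fin2.labF (h : Fin2 M GY AY G F q α ε) {ℓ : Finset V → Finset U}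
    (hl : LSpec GY AY q α ε M.ty1 M.ty2 ℓ) : LabF (sG V) (sA G F) K B Hi ℓ := by
  refine ⟨fun r hr => ?_, fun τ hτ => ?_, fun s hs h1 h2 => ?_⟩
  · obtain ⟨t, ht, rfl⟩ := h.cv.lift r hr
    obtain ⟨⟨z0, hz0⟩, a1⟩ := shape_Lab h.as1.toAS0 ht
    obtain ⟨-, a2⟩ := shape_Lab h.as2.toAS0 ht
    refine ⟨⟨_, (hl t ht _).2 (Or.inl ⟨z0, hz0, rfl⟩)⟩, fun u hu => ?_,
      fun u hu u' hu' hne => ?_⟩
    · rcases (hl t ht u).1 hu with ⟨z, -, rfl⟩ | ⟨w, -, rfl⟩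
      · exact (M.act1.mem z).1
      · exact (M.act2.mem w).1
    · rcases (hl t ht u).1 hu with ⟨z, hz, rfl⟩ | ⟨w, hw, rfl⟩ <;>
        rcases (hl t ht u').1 hu' with ⟨z', hz', rfl⟩ | ⟨w', hw', rfl⟩
      · exact M.act1.tadj _ _ (a1 z hz z' hz' fun e => hne (by rw [e]))
      · obtain ⟨_, _, c⟩ := h.inc3 ht hz hw'
        exact M.cadj _ _ _ _ c
      · obtain ⟨_, _, c⟩ := h.inc3 ht hz' hw
        exact (M.cadj _ _ _ _ c).symm
      · exact M.act2.tadj _ _ (a2 w hw w' hw' fun e => hne (by rw [e]))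
  · obtain ⟨σ, hσ, e⟩ := (Cv.sd h.act h.cv).lift τ hτ
    obtain ⟨⟨t1, h1, m1⟩, t2, h2, m2⟩ := chain_Lab hσ
    obtain ⟨⟨z, hz⟩, -⟩ := shape_Lab h.as1.toAS0 (hσ.2.1 h1)
    obtain ⟨⟨w, v, hv, hw⟩, -⟩ := shape_Lab h.as2.toAS0 (hσ.2.1 h2)
    refine ⟨M.ty1 z, (M.act1.mem z).2, M.ty2 w, (M.act2.mem w).2, fun r hr => ?_⟩
    rw [← e] at hr
    obtain ⟨t, ht, rfl⟩ := (@Finset.mem_image _ _ (_) _ _ _).1 hr
    exact ⟨(hl t (hσ.2.1 ht) _).2 (Or.inl ⟨z, fun u hu => hz u (m1 t ht hu), rfl⟩),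
      (hl t (hσ.2.1 ht) _).2 (Or.inr ⟨w, ⟨v, m2 t ht hv, hw⟩, rfl⟩)⟩
  · obtain ⟨a, a', b, b', m1, m2, m3, m4, e1, e2, e3, e4, e5, e6, hu⟩ := tetra h.two hs
    obtain ⟨u0, hu0, k0⟩ := h1
    obtain ⟨u1, hu1, k1⟩ := Set.not_subset.1 h2
    rcases hu u0 hu0 with rfl | rfl | rfl | rfl
    · rcases hu u1 hu1 with rfl | rfl | rfl | rfl
      · exact absurd k0 k1
      · exact absurd m2.2 k1
      · exact h.cell_Lab hl m1 m2 m3 m4 e1 e2 e3 e4 e5 e6 hu0 hu1 hu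
      · exact h.cell_Lab hl m1 m2 m4 m3 e1 e2.symm e4 e3 e6 e5 hu0 hu1
          fun u k => by have := hu u k; tauto
    · rcases hu u1 hu1 with rfl | rfl | rfl | rfl
      · exact absurd m1.2 k1
      · exact absurd k0 k1
      · exact h.cell_Lab hl m2 m1 m3 m4 e1.symm e2 e5 e6 e3 e4 hu0 hu1
          fun u k => by have := hu u k; tauto
      · exact h.cell_Lab hl m2 m1 m4 m3 e1.symm e2.symm e6 e5 e4 e3 hu0 hu1
          fun u k => by have := hu u k; tauto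
    · exact absurd k0 m3.2
    · exact absurd k0 m4.2

theorem Fin2.crv1 (h : Fin2 M GY AY G F q α ε) {ℓ : Finset V → Finset U}
    (hl : LSpec GY AY q α ε M.ty1 M.ty2 ℓ) {G' : SimpleGraph V'} {F' : Set V'} {q' : Y → V'}
    {p : V' → V} (hC : Cv Γ GY AY G' F' q') (hp : ∀ y ∈ AY, p (q' y) = q y) {e : Finset U}
    (he : ↑e ⊆ B ∩ Hi) : Crv (sA GY AY) (Finset.image q') (itr α) M.ty1 e =
      {u | u ∈ sA G' F' ∧ e ⊆ ℓ (u.image p)} := by
  ext u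
  constructor
  · rintro ⟨t, ⟨ht, h1⟩, rfl⟩
    refine ⟨(Cv.sd h.act hC).mem t ht, fun a ha => ?_⟩
    rw [img_Lab hp ht]
    exact (hl t ht a).2 (Or.inl (h1 a ha))
  · rintro ⟨hu, h1⟩
    obtain ⟨t, ht, rfl⟩ := hC.lift u hu
    refine ⟨t, ⟨ht, fun a ha => ?_⟩, rfl⟩
    rw [img_Lab hp ht] at h1
    rcases (hl t ht a).1 (h1 ha) with k | ⟨w, -, rfl⟩
    · exact k
    · exact absurd (he ha).2 (M.act2.mem w).2

theorem Fin2.crv2 (h : Fin2 M GY AY G F q α ε) {ℓ : Finset V → Finset U}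
    (hl : LSpec GY AY q α ε M.ty1 M.ty2 ℓ) {G' : SimpleGraph V'} {F' : Set V'} {q' : Y → V'}
    {p : V' → V} (hC : Cv Γ GY AY G' F' q') (hp : ∀ y ∈ AY, p (q' y) = q y) {e : Finset U}
    (he : ↑e ⊆ B \ Hi) : Crv (sA GY AY) (Finset.image q') (cols ε) M.ty2 e =
      {u | u ∈ sA G' F' ∧ e ⊆ ℓ (u.image p)} := by
  ext u
  constructor
  · rintro ⟨t, ⟨ht, h1⟩, rfl⟩
    refine ⟨(Cv.sd h.act hC).mem t ht, fun a ha => ?_⟩
    rw [img_Lab hp ht]
    exact (hl t ht a).2 (Or.inr (h1 a ha))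
  · rintro ⟨hu, h1⟩
    obtain ⟨t, ht, rfl⟩ := hC.lift u hu
    refine ⟨t, ⟨ht, fun a ha => ?_⟩, rfl⟩
    rw [img_Lab hp ht] at h1
    rcases (hl t ht a).1 (h1 ha) with ⟨z, -, rfl⟩ | k
    · exact absurd (M.act1.mem z).2 (he ha).2
    · exact k

end Pool.Agent.MP_6374aa_g.BE

end

section

/-! The labelled polyhedron. -/

namespace Pool.Agent.MP_6374aa_g.BE

open Pool.Agent.MP_6374aa_gt Classical Pointwise

variable {Γ : Type} [Group Γ] {Y V V' T T' U : Type} [MulAction Γ Y] [MulAction Γ T]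
  [MulAction Γ T'] {GY : SimpleGraph Y} {AY A : Set Y} {G H : SimpleGraph V} {F : Set V}
  {q : Y → V} {X : SimpleGraph T} {X' : SimpleGraph T'} {K : SimpleGraph U} {B Hi : Set U}
  {N Nm Np : Subgroup Γ} {L : Type} [Group L]

theorem lab_Fin {H' : SimpleGraph V'} {W Tb Fm Fp : Set V'} {AX : Set V} {p : V' → V}
    {ℓ : V → Finset U} {D : Finset U → Set V'} {E : Set (Finset U)} (hB : B.Finite)
    (hcut : Cut H' W Fm Fp G AX F p) (hl : LabF G F K B Hi ℓ)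
    (hE : ∀ e ∈ E, e ∈ sA K B ∧ e.card = 2 ∧ ∀ a ∈ e, ∀ b ∈ e, a ∈ Hi → b ∈ Hi)
    (hc : ∀ s ∈ sA K B, 2 ≤ s.card → s ∈ E ∨ (Meets s Hi ∧ ¬ ↑s ⊆ Hi))
    (hD : ∀ e ∈ E, D e ⊆ W ∧ Ball H' 3 (D e) Tb ∧ ∃ F1 F2, Cut H' W F1 F2 G AX F p ∧
      W ∩ Tb = F1 ∪ F2 ∧ D e ∩ Tb = {u | u ∈ F1 ∧ e ⊆ ℓ (p u)})
    (hd : ∀ e ∈ E, ∀ e' ∈ E, e ≠ e' → Disjoint (D e) (D e')) :
    ∃ (P : Set (Finset V)) (ℓ' : Finset V → Finset U), LabP (sG V) (sA G AX) K B P ℓ' := by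
  obtain ⟨l, hl'⟩ : ∃ l : Finset V → Finset U, ∀ τ u, u ∈ l τ ↔ u ∈ B ∧
      ((↑τ ⊆ F ∧ ∀ x ∈ τ, u ∈ ℓ x) ∨
        (¬ ↑τ ⊆ F ∧ ∃ e ∈ E, ∃ σ ∈ sA H' (D e), σ.image p = τ ∧ u ∈ e)) :=
    ⟨fun τ => hB.toFinset.filter fun u => (↑τ ⊆ F ∧ ∀ x ∈ τ, u ∈ ℓ x) ∨
      (¬ ↑τ ⊆ F ∧ ∃ e ∈ E, ∃ σ ∈ sA H' (D e), σ.image p = τ ∧ u ∈ e),
      fun τ u => by rw [Finset.mem_filter, hB.mem_toFinset]⟩
  obtain ⟨P, hP⟩ : ∃ P : Set (Finset V), ∀ τ, τ ∈ P ↔
      τ ∈ sA G F ∨ ∃ e ∈ E, ∃ σ ∈ sA H' (D e), σ.image p = τ := ⟨Set.ofPred _, fun _ => Iff.rfl⟩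
  have hW : ∀ e ∈ E, ∀ σ ∈ sA H' (D e), σ ∈ sA H' W := fun e he σ hσ => sA_mono (hD e he).1 hσ
  have ha : ∀ τ ∈ sA G F, ∀ u, u ∈ l τ ↔ ∀ x ∈ τ, u ∈ ℓ x := fun τ hτ u => by
    rw [hl']
    refine ⟨fun k => (k.2.resolve_right fun c => c.1 hτ.2.1).2, fun k => ⟨?_, Or.inl ⟨hτ.2.1, k⟩⟩⟩
    obtain ⟨x, hx⟩ := hτ.1
    exact (hl.mem x (hτ.2.1 hx)).2.1 (k x hx)
  have hb : ∀ e ∈ E, ∀ σ ∈ sA H' (D e), ¬ ↑(σ.image p) ⊆ F → l (σ.image p) = e := by
    intro e he σ hσ hF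
    ext u
    rw [hl']
    refine ⟨fun k => ?_, fun k => ⟨(hE e he).1.2.1 k, Or.inr ⟨hF, e, he, σ, hσ, rfl, k⟩⟩⟩
    obtain ⟨-, e', he', σ', hσ', k1, k2⟩ := k.2.resolve_left fun c => hF c.1
    obtain rfl := hcut.lift_unique (hW e he σ hσ) (hW e' he' σ' hσ') k1.symm hF
    obtain ⟨x, hx⟩ := hσ.1
    by_contra c
    exact Set.disjoint_left.1 (hd e he e' he' fun c' => c (c' ▸ k2)) (hσ.2.1 hx) (hσ'.2.1 hx)
  have hF : ∀ e ∈ E, ∀ σ ∈ sA H' (D e), ↑(σ.image p) ⊆ F → σ.image p ∈ sA G F :=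
    fun e he σ hσ k =>
      have := IsHom.image_mem hcut.hom (hW e he σ hσ)
      ⟨this.1, k, this.2.2⟩
  have hT : ∀ e ∈ E, ∀ u ∈ D e, p u ∈ F ↔ u ∈ Tb := fun e he u hu => by
    obtain ⟨h1, -, F1, F2, h2, h3, -⟩ := hD e he
    rw [h2.mem_F (h1 hu), ← Set.mem_union, ← h3]
    exact and_iff_right (h1 hu)
  have hs : ∀ e ∈ E, ∀ σ ∈ sA H' (D e), e ⊆ l (σ.image p) := fun e he σ hσ => by
    by_cases k : ↑(σ.image p) ⊆ F
    · refine fun a ha' => (ha _ (hF e he σ hσ k) a).2 fun x hx => ?_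
      obtain ⟨u, hu, rfl⟩ := Finset.mem_image.1 hx
      obtain ⟨-, -, F1, F2, -, -, h4⟩ := hD e he
      exact (h4.subset ⟨hσ.2.1 hu, (hT e he u (hσ.2.1 hu)).1 (k hx)⟩).2 ha'
    · exact (hb e he σ hσ k).superset
  have hP' : ∀ τ ∈ P, τ ∈ sA G F ∨ ∃ e ∈ E, ∃ σ ∈ sA H' (D e), σ.image p = τ ∧ l τ = e := by
    intro τ hτ
    refine or_iff_not_imp_left.2 fun k => ?_
    obtain ⟨e, he, σ, hσ, rfl⟩ := ((hP τ).1 hτ).resolve_left k
    exact ⟨e, he, σ, hσ, rfl, hb e he σ hσ fun c => k (hF e he σ hσ c)⟩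
  have hA : P ⊆ sA G AX := fun τ hτ => by
    rcases (hP τ).1 hτ with k | ⟨e, he, σ, hσ, rfl⟩
    · exact sA_mono hcut.subset k
    · exact IsHom.image_mem hcut.hom (hW e he σ hσ)
  have anti : ∀ τ ∈ P, ∀ τ' ∈ P, τ ⊆ τ' → l τ' ⊆ l τ := fun τ hτ τ' hτ' k => by
    rcases hP' τ' hτ' with k1 | ⟨e, he, σ', hσ', rfl, k1⟩
    · exact fun u hu => (ha τ (sA_down k1 k (hA hτ).1) u).2 fun x hx => (ha τ' k1 u).1 hu x (k hx)
    · obtain ⟨σ, k2, rfl⟩ := Finset.subset_image_iff.1 k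
      rw [k1]
      exact hs e he σ (sA_down hσ' k2 (Finset.image_nonempty.1 (hA hτ).1))
  refine ⟨P, l, hA, fun τ hτ => ?_, fun τ hτ τ' hτ' k _ => ?_, fun s hs' h2 => ?_⟩
  · rcases hP' τ hτ with k | ⟨e, he, σ, hσ, rfl, k⟩
    · obtain ⟨a, h1, b, h2, h3⟩ := hl.two τ k
      have k1 := (ha τ k a).2 fun x hx => (h3 x hx).1
      have k2 := (ha τ k b).2 fun x hx => (h3 x hx).2
      obtain ⟨x, hx⟩ := k.1
      exact ⟨sA_down (hl.mem x (k.2.1 hx)) (fun u hu => (ha τ k u).1 hu x hx) ⟨a, k1⟩,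
        Finset.one_lt_card.2 ⟨a, k1, b, k2, fun e => h2 (e ▸ h1)⟩⟩
    · rw [k]
      exact ⟨(hE e he).1, (hE e he).2.1.ge⟩
  · exact k.symm.imp (fun c => anti τ' hτ' τ hτ c.subset) fun c => anti τ hτ τ' hτ' c.subset
  · rcases hc s hs' h2 with he | ⟨⟨a, a1, a2⟩, h3⟩
    · obtain ⟨h1, h4, F1, F2, h5, h6, h7⟩ := hD s he
      have e1 : {τ | τ ∈ P ∧ s ⊆ l τ} = Finset.image p '' sA H' (D s) := by
        ext τ
        constructor
        · rintro ⟨k1, k2⟩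
          rcases hP' τ k1 with k | ⟨e, he', σ, hσ, rfl, k⟩
          · obtain ⟨σ, hσ, rfl⟩ := (IsIso.sd h5.isom).1.surjOn k
            refine ⟨σ, ⟨hσ.1, fun u hu => (h7.superset ⟨hσ.2.1 hu, fun a ha' => ?_⟩).1, hσ.2.2⟩, rfl⟩
            exact (ha _ k a).1 (k2 ha') _ (Finset.mem_image_of_mem p hu)
          · rw [k] at k2
            obtain rfl := Finset.eq_of_subset_of_card_le k2 ((hE e he').2.1.le.trans h2)
            exact ⟨σ, hσ, rfl⟩
        · rintro ⟨σ, hσ, rfl⟩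
          exact ⟨(hP _).2 (Or.inr ⟨s, he, σ, hσ, rfl⟩), hs s he σ hσ⟩
      have e2 : D s ⊆ W \ F2 := fun u hu => ⟨h1 hu, fun k =>
        h5.notp_P4 (h7.subset ⟨hu, (h6.superset (Or.inr k)).2⟩).1 k⟩
      rw [e1, (hE s he).2.1]
      refine (IsIso.ball (h5.iso_sA e2) fun σ hσ => ?_).1 (h4.sd le_rfl)
      have e3 : σ ∈ ins Tb ↔ ↑(σ.image p) ⊆ F := by
        rw [Finset.coe_image, Set.image_subset_iff]
        exact forall₂_congr fun u hu => (hT s he u (hσ.2.1 hu)).symm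
      rw [e3]
      refine ⟨fun k => (hs s he σ hσ).ssubset_of_ne fun c => ?_, fun k => by_contra fun c => ?_⟩
      · have k0 := hF s he σ hσ k
        obtain ⟨a, k1, b, k2, k3⟩ := hl.two _ k0
        exact k2 ((hE s he).2.2 a (c ▸ (ha _ k0 a).2 fun x hx => (k3 x hx).1) b
          (c ▸ (ha _ k0 b).2 fun x hx => (k3 x hx).2) k1)
      · exact Finset.ssubset_iff_subset_ne.1 k |>.2 (hb s he σ hσ c).symm
    · have e1 : {τ | τ ∈ P ∧ s ⊆ l τ} = sA G {x | x ∈ F ∧ s ⊆ ℓ x} := by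
        ext τ
        constructor
        · rintro ⟨k1, k2⟩
          rcases hP' τ k1 with k | ⟨e, he', σ, hσ, rfl, k⟩
          · exact ⟨k.1, fun x hx => ⟨k.2.1 hx, fun u hu => (ha τ k u).1 (k2 hu) x hx⟩, k.2.2⟩
          · rw [k] at k2
            exact absurd (fun b hb' => (hE e he').2.2 a (k2 a1) b (k2 hb') a2) h3
        · intro k
          have k1 : τ ∈ sA G F := sA_mono (fun _ c => c.1) k
          exact ⟨(hP τ).2 (Or.inl k1), fun u hu => (ha τ k1 u).2 fun x hx => (k.2.1 hx).2 hu⟩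
      rw [e1]
      refine (IsIso.ball isIso_id fun τ k => ?_).1
        ((hl.cell s hs' ⟨a, a1, a2⟩ h3).sd_ball (Or.inl rfl) (by omega))
      have k1 : τ ∈ sA G F := sA_mono (fun _ c => c.1) k
      change bl ℓ s τ ↔ s ⊂ l τ
      rw [Finset.ssubset_iff_of_subset (e1.superset k).2, bl, or_iff_right k.1.ne_empty]
      exact exists_congr fun u => by rw [ha τ k1, and_comm]

theorem fin_lab {H' : SimpleGraph V'} {W Tb Fm Fp : Set V'} {AX : Set V} {p : V' → V}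
    {ℓ : V → Finset U} {D1 D2 : Finset U → Set V'} (hK : Two K B Hi)
    (hcut : Cut H' W Fm Fp G AX F p) (hb : W ∩ Tb = Fm ∪ Fp) (hl : LabF G F K B Hi ℓ)
    (h1 : ∀ e ∈ edg K (B ∩ Hi), D1 e ⊆ W ∧ Ball H' 3 (D1 e) Tb ∧
      D1 e ∩ Tb = {u | u ∈ Fm ∧ e ⊆ ℓ (p u)})
    (h2 : ∀ e ∈ edg K (B \ Hi), D2 e ⊆ W ∧ Ball H' 3 (D2 e) Tb ∧
      D2 e ∩ Tb = {u | u ∈ Fp ∧ e ⊆ ℓ (p u)})
    (h11 : ∀ e ∈ edg K (B ∩ Hi), ∀ e' ∈ edg K (B ∩ Hi), e ≠ e' → Disjoint (D1 e) (D1 e'))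
    (h22 : ∀ e ∈ edg K (B \ Hi), ∀ e' ∈ edg K (B \ Hi), e ≠ e' → Disjoint (D2 e) (D2 e'))
    (h12 : ∀ e ∈ edg K (B ∩ Hi), ∀ e' ∈ edg K (B \ Hi), Disjoint (D1 e) (D2 e')) :
    ∃ (P : Set (Finset V)) (ℓ' : Finset V → Finset U), LabP (sG V) (sA G AX) K B P ℓ' := by
  have hn : ∀ e ∈ edg K (B \ Hi), e ∉ edg K (B ∩ Hi) := fun e he k =>
    let ⟨_, hx⟩ := he.1.1
    (he.1.2.1 hx).2 (k.1.2.1 hx).2
  refine lab_Fin (D := fun e => if e ∈ edg K (B ∩ Hi) then D1 e else D2 e)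
    (E := edg K (B ∩ Hi) ∪ edg K (B \ Hi)) (Tb := Tb) hK.cl.1 hcut hl ?_
    (fun s hs k => or_assoc.2 (simplex_cases hK hs k)) ?_ ?_
  · rintro e (he | he)
    · exact ⟨sA_mono Set.inter_subset_left he.1, he.2, fun _ _ _ k _ => (he.1.2.1 k).2⟩
    · exact ⟨sA_mono Set.sdiff_subset he.1, he.2, fun _ k _ _ c => absurd c (he.1.2.1 k).2⟩
  · rintro e (he | he)
    · rw [if_pos he]
      exact ⟨(h1 e he).1, (h1 e he).2.1, Fm, Fp, hcut, hb, (h1 e he).2.2⟩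
    · rw [if_neg (hn e he)]
      exact ⟨(h2 e he).1, (h2 e he).2.1, Fp, Fm, hcut.symm, hb.trans (Set.union_comm _ _),
        (h2 e he).2.2⟩
  · rintro e (he | he) e' (he' | he') k
    · rw [if_pos he, if_pos he']
      exact h11 e he e' he' k
    · rw [if_pos he, if_neg (hn e' he')]
      exact h12 e he e' he'
    · rw [if_neg (hn e he), if_pos he']
      exact (h12 e' he' e he).symm
    · rw [if_neg (hn e he), if_neg (hn e' he')]
      exact h22 e he e' he' k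

end Pool.Agent.MP_6374aa_g.BE

end

section

/-! A submanifold that avoids the discs. -/

namespace Pool.Agent.MP_6374aa_g.BE

open Pool.Agent.MP_6374aa_gt Classical Pointwise

variable {Γ : Type} [Group Γ] {Y V V' T T' U : Type} [MulAction Γ Y] [MulAction Γ T]
  [MulAction Γ T'] {GY : SimpleGraph Y} {AY A : Set Y} {G H : SimpleGraph V} {F : Set V}
  {q : Y → V} {X : SimpleGraph T} {X' : SimpleGraph T'} {K : SimpleGraph U} {B Hi : Set U}
  {N Nm Np : Subgroup Γ} {L : Type} [Group L]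

theorem ne_nb_Avd (W P Q : Set V) : NE (sG V) (nb H W P) (nb H W Q) := by
  rintro a ⟨ha, ha'⟩ b ⟨hb, hb'⟩ (h | h)
  · exact hb' ⟨hb.1, meets_up_C3 ha.2 h.1⟩
  · exact ha' ⟨ha.1, meets_up_C3 hb.2 h.1⟩

theorem union_nb_Avd (W Q : Set V) : nb H W (W \ Q) ∪ nb H W Q = sA H W := by
  ext s
  refine ⟨fun h => h.elim (fun h => h.1) fun h => h.1, fun h => ?_⟩
  obtain ⟨v, hv⟩ := h.1
  by_cases hQ : v ∈ Q
  · exact Or.inr ⟨h, v, hv, hQ⟩
  · exact Or.inl ⟨h, v, hv, h.2.1 hv, hQ⟩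

theorem extl_Avd {W Q : Set V} (h : SCo (sG V) (fr H W Q)) :
    Extl (sG (Finset V)) (sA (sG V) (nb H W (W \ Q))) (sA (sG V) (sA H W)) := by
  refine ⟨sA_mono fun s hs => hs.1, fun L _ lab hl => ?_⟩
  have hc : Cov2 (sG (Finset V)) (sA (sG V) (sA H W)) (sA (sG V) (nb H W (W \ Q)))
      (sA (sG V) (nb H W Q)) := by
    rw [← union_nb_Avd W Q, sA_union (ne_nb_Avd W _ _)]
    exact (ne_sA _ _).cov2
  have he : sA (sG V) (nb H W (W \ Q)) ∩ sA (sG V) (nb H W Q) = sA (sG V) (fr H W Q) := by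
    rw [← sA_inter', Set.inter_comm, nb_inter_nb]
  have hp : Pot (sG (Finset V)) (sA (sG V) (nb H W (W \ Q)) ∩ sA (sG V) (nb H W Q)) lab := by
    have h1 : Flat (sG (Finset V)) (sA (sG V) (nb H W (W \ Q)) ∩ sA (sG V) (nb H W Q)) lab :=
      fun u hu v hv w hw => hl u hu.1 v hv.1 w hw.1
    rw [he] at h1 ⊢
    exact sco_sA.2 h L lab h1
  obtain ⟨lab', h1, h2, -⟩ := glue_ext hc hl hp
  exact ⟨lab', h1, h2⟩

theorem sco_Avd {W Tb : Set V} {E : Set (Finset U)} {c D : Finset U → Set V} (hf : W.Finite)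
    (hm : Mf H 3 W Tb) (hD : Discs H W Tb E c D) :
    SCo (sG V) (fr H W {v | ∃ e ∈ E, v ∈ D e}) := by
  have key : ∀ {e e' : Finset U} {t : Finset V} {v w : V}, e ∈ E → e' ∈ E → t ∈ sA H W →
      v ∈ t → w ∈ t → v ∈ D e → w ∈ D e' → w ∈ D e := by
    intro e e' t v w he he' ht hv hw h1 h2
    by_cases h : e = e'
    · exact h ▸ h2
    · exact (hD.far e he e' he' h v h1 w h2 ((mem_sA.1 ht).2.2 v hv w hw)).elim
  refine sco_of_cmp fun s hs => ?_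
  obtain ⟨v, hv, e, he, hve⟩ := hs.2.1
  have hcl : Clopen (sG V) (fr H W {v | ∃ e ∈ E, v ∈ D e}) (fr H W (D e)) := by
    refine ⟨fun t ht => ?_, fun a ha b hb hab => ?_⟩
    · obtain ⟨x, hx, hxe⟩ := ht.2.1
      refine ⟨ht.1, ⟨x, hx, e, he, hxe⟩, fun h => ht.2.2 fun w hw => ?_⟩
      obtain ⟨e', he', hw'⟩ := h hw
      exact key he he' ht.1 hx hw hxe hw'
    · refine ⟨hb.1, ?_, fun h => hb.2.2 fun w hw => ⟨e, he, h hw⟩⟩
      rcases hab with h | h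
      · exact meets_up_C3 ha.2.1 h.1
      · obtain ⟨x, hx, hxe⟩ := ha.2.1
        obtain ⟨w, hw, e', he', hw'⟩ := hb.2.1
        exact ⟨w, hw, key he he' ha.1 hx (h.1 hw) hxe hw'⟩
  have hs' : s ∈ fr H W (D e) :=
    ⟨hs.1, ⟨v, hv, hve⟩, fun h => hs.2.2 fun w hw => ⟨e, he, h hw⟩⟩
  rw [← hcl.cmp_eq hs']
  have hB := hD.ball e he
  exact (fr_sco (hD.sub e he) (hf.subset (hD.sub e he)) (Mfa.mono hm (hD.sub e he))
    (Cell.con (d := 1) hB) (Cell.ndc hB)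
    (Cell.con (d := 0) (Ball.bd (d := 2) hB le_rfl)).2).clopen (clopen_cmp s)

theorem avoid {W Tb Fm Fp : Set V} {E : Set (Finset U)} {c D : Finset U → Set V} (hf : W.Finite)
    (hm : Mf H 3 W Tb) (hb : W ∩ Tb = Fm ∪ Fp) (hfar : Far H Fm Fp)
    (hD : Discs H W Tb E c D) (hc : ∀ e ∈ E, c e ⊆ Fm) :
    ∃ W2 T2 : Set (Finset (Finset V)),
      Av (sG (Finset V)) (sA (sG V) (sA H W)) (ins (ins Tb)) (sA (sG V) (sA H Fp)) W2 T2 E
        (fun e => sA (sG V) (sA H (D e))) ∧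
      Extl (sG (Finset V)) W2 (sA (sG V) (sA H W)) := by
  have hx := extl_Avd (sco_Avd hf hm hD)
  set Q : Set V := {v | ∃ e ∈ E, v ∈ D e} with hQ
  have hp1 : Fp ⊆ W ∩ Tb := by
    rw [hb]
    exact Set.subset_union_right
  have hp2 : Fp ⊆ W \ Q := by
    intro v hv
    refine ⟨(hp1 hv).1, fun ⟨e, he, h⟩ => hfar v (hc e he ?_) v hv (adq_refl v)⟩
    rw [← hD.bd e he]
    exact ⟨h, (hp1 hv).2⟩
  have hm1 := Mfa.sd_full (Mfa.nb (Q := W \ Q) (Mfa.mono hm Set.inter_subset_left) le_rfl) le_rfl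
  refine ⟨_, _, ⟨hx.1, hm1, fun σ hσ => Or.inl (top_subset_iff.2 hσ.2), ⟨fun σ hσ => ?_, ?_⟩,
    fun e he => ?_⟩, hx⟩
  · refine ⟨sA_mono (fun s hs => ?_) hσ,
      Or.inl (top_subset_iff.2 fun s hs v hv => (hp1 ((hσ.2.1 hs).2.1 hv)).2)⟩
    obtain ⟨v, hv⟩ := hs.1
    exact ⟨sA_mono (fun w hw => (hp1 hw).1) hs, v, hv, hp2 (hs.2.1 hv)⟩
  · rintro a ha b ⟨hb1, hb2⟩ (h | h)
    · obtain ⟨s, hs⟩ := ha.1
      have hs1 := ha.2.1 hs
      rcases hb2 with hb2 | hb2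
      · obtain ⟨v, hv⟩ := hs1.1
        have ht : top b ∈ sA H W := (hb1.2.1 (top_mem hb1)).1
        have hv1 : v ∈ top b := subset_top (h.1 hs) hv
        have ht2 : ↑(top b) ⊆ Fp := by
          intro w hw
          have h1 : w ∈ Fm ∪ Fp := by
            rw [← hb]
            exact ⟨ht.2.1 hw, hb2 hw⟩
          exact h1.resolve_left fun h2 =>
            hfar w h2 v (hs1.2.1 hv) ((mem_sA.1 ht).2.2 w hw v hv1)
        refine ⟨hb1.1, fun t ht' => ?_, hb1.2.2⟩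
        have h3 := (hb1.2.1 ht').1
        exact ⟨h3.1, fun w hw => ht2 (subset_top ht' hw), h3.2.2⟩
      · exact ((hb2 (h.1 hs)).2.2 fun w hw => hp2 (hs1.2.1 hw)).elim
    · exact sA_down ha h.1 hb1.1
  · refine Set.disjoint_left.2 fun σ h1 h2 => ?_
    obtain ⟨s, hs⟩ := h1.1
    obtain ⟨v, hv, hv'⟩ := (h1.2.1 hs).2
    exact hv'.2 ⟨e, he, (h2.2.1 hs).2.1 hv⟩

end Pool.Agent.MP_6374aa_g.BE

end

section

/-! The state: initial value and subdivision. -/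

namespace Pool.Agent.MP_6374aa_g.BE

open Pool.Agent.MP_6374aa_gt Classical Pointwise

variable {Γ : Type} [Group Γ] {Y V V' T T' U : Type} [MulAction Γ Y] [MulAction Γ T]
  [MulAction Γ T'] {GY : SimpleGraph Y} {AY A : Set Y} {G H : SimpleGraph V} {F : Set V}
  {q : Y → V} {X : SimpleGraph T} {X' : SimpleGraph T'} {K : SimpleGraph U} {B Hi : Set U}
  {N Nm Np : Subgroup Γ} {L : Type} [Group L]

theorem KillY.sd {W : Set V} [Nonempty V] (hA : Act Γ GY AY) (hC : Cv Γ GY AY H F q) (hW : F ⊆ W)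
    (h : KillY GY AY H W q N) : KillY (sG Y) (sA GY AY) (sG V) (sA H W) (Finset.image q) N := by
  intro L _ lab hl
  obtain ⟨lab0, k, h0, hg⟩ := (sd_pe (G := H) (A := W) (π := pk Set.univ)
    fun s hs => pk_mem _ hs.1).desc L lab hl
  obtain ⟨φ, h1, h2⟩ := h L lab0 h0
  have hex : ∀ S ∈ sA GY AY, ∃ v ∈ S, q v = pk Set.univ (S.image q) := fun S hS =>
    Finset.mem_image.1 (pk_mem _ (hS.1.image q))
  have key : ∀ S ∈ sA GY AY, ∀ v ∈ S, q v = pk Set.univ (S.image q) →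
      (if h : ∃ v ∈ S, q v = pk Set.univ (S.image q) then k (S.image q) * φ h.choose else 1) =
        k (S.image q) * φ v := by
    intro S hS v hv e
    have hx : ∃ v ∈ S, q v = pk Set.univ (S.image q) := ⟨v, hv, e⟩
    rw [dif_pos hx, hC.inj hS (Finset.mem_coe.2 hx.choose_spec.1) (Finset.mem_coe.2 hv)
      (hx.choose_spec.2.trans e.symm)]
  have hm : ∀ S ∈ sA GY AY, S.image q ∈ sA H W := fun S hS =>
    sA_mono hW (IsHom.image_mem hC.hom hS)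
  refine ⟨fun S => if h : ∃ v ∈ S, q v = pk Set.univ (S.image q) then
    k (S.image q) * φ h.choose else 1, fun S hS S' hS' ha => ?_, fun g hg' S hS => ?_⟩
  · obtain ⟨v, hv, e⟩ := hex S hS
    obtain ⟨v', hv', e'⟩ := hex S' hS'
    have hvv : Adq GY v v' := by
      rcases adq_sG.1 ha with c | c
      · exact (mem_sA.1 hS').2.2 v (c hv) v' hv'
      · exact (mem_sA.1 hS).2.2 v hv v' (c hv')
    have ha' : Adq (sG V) (S.image q) (S'.image q) :=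
      adq_sG.2 ((adq_sG.1 ha).imp Finset.image_subset_image Finset.image_subset_image)
    beta_reduce
    rw [key S hS v hv e, key S' hS' v' hv' e', hg _ (hm S hS) _ (hm S' hS') ha']
    simp only [pull]
    rw [← e, ← e', h1 v (hS.2.1 (Finset.mem_coe.2 hv)) v' (hS'.2.1 (Finset.mem_coe.2 hv')) hvv]
    group
  · obtain ⟨v, hv, e⟩ := hex S hS
    have hvA : v ∈ AY := hS.2.1 (Finset.mem_coe.2 hv)
    beta_reduce
    rw [key S hS v hv e, key (g • S) (hA.smul_sA g hS) (g • v) (smul_mem_smul_fin.2 hv)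
      (by rw [hC.image_smul g hS, hC.inv g v hvA, e]), hC.image_smul g hS, h2 g hg' v hvA]

theorem KillY.of_extl {W W2 : Set V} (hC : Cv Γ GY AY H F q) (hW : F ⊆ W2) (he : Extl H W2 W)
    (h : KillY GY AY H W q N) : KillY GY AY H W2 q N := by
  intro L _ lab hl
  obtain ⟨lab', h1, h2⟩ := he.2 L lab hl
  obtain ⟨φ, h3, h4⟩ := h L lab' h1
  refine ⟨φ, fun y hy y' hy' ha => ?_, h4⟩
  rw [← h3 y hy y' hy' ha]
  exact (h2 _ (hW (hC.mem y hy)) _ (hW (hC.mem y' hy')) (IsHom.adq hC.hom hy hy' ha)).symm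

theorem ne_of_far_Kil0 {X1 X2 : Set V} (h : Far G X1 X2) : NE G X1 X2 :=
  fun a ha b hb hab => h a ha.1 b hb.1 (Or.inr hab)

theorem Base.OK.sd {b : Base Γ} (h : b.OK Nm Np) : b.sd.OK Nm Np where
  fin := sA_finite h.fin
  mf := Mf.sd h.mf le_rfl
  bd := by
    show sA b.H b.W ∩ ins b.Tb = sA b.H b.Fm ∪ sA b.H b.Fp
    rw [← sA_inter, h.bd, sA_union (ne_of_far_Kil0 h.cut.far)]
  cut := Cut.sd h.cut
  act := h.act.sd h.cvm
  pl := h.pl.sd
  cvm := Cv.sd h.act h.cvm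
  cvp := Cv.sd h.act h.cvp
  comm := by
    intro S hS
    show (S.image b.qm).image b.p = (S.image b.qp).image b.p
    rw [Finset.image_image, Finset.image_image]
    exact Finset.image_congr fun y hy => h.comm y (hS.2.1 hy)
  killm := KillY.sd h.act h.cvm h.cut.subm h.killm
  killp := KillY.sd h.act h.cvp h.cut.subp h.killp

theorem Base.OK.finm {b : Base Γ} (h : b.OK Nm Np) : b.Fm.Finite :=
  h.fin.subset h.cut.subm

theorem Base.OK.finF {b : Base Γ} (h : b.OK Nm Np) : b.F.Finite := by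
  rw [← h.cut.isom.1.image_eq]
  exact h.finm.image _

theorem Base.OK.cv {b : Base Γ} (h : b.OK Nm Np) :
    Cv Γ b.GY b.AY b.X.G b.F (b.p ∘ b.qm) :=
  h.cvm.comp h.cut.isom

theorem Base.OK.clopenm {b : Base Γ} (h : b.OK Nm Np) : Clopen b.H (b.W ∩ b.Tb) b.Fm := by
  rw [h.bd]
  exact ⟨Set.subset_union_left, fun a ha c hc hac =>
    hc.resolve_right fun k => h.cut.far a ha c k (Or.inr hac)⟩

end Pool.Agent.MP_6374aa_g.BE

end

section

/-! The curves are null homotopic circles. -/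

namespace Pool.Agent.MP_6374aa_g.BE

open Pool.Agent.MP_6374aa_gt Classical Pointwise

variable {Γ : Type} [Group Γ] {Y V V' T T' U : Type} [MulAction Γ Y] [MulAction Γ T]
  [MulAction Γ T'] {GY : SimpleGraph Y} {AY A : Set Y} {G H : SimpleGraph V} {F : Set V}
  {q : Y → V} {X : SimpleGraph T} {X' : SimpleGraph T'} {K : SimpleGraph U} {B Hi : Set U}
  {N Nm Np : Subgroup Γ} {L : Type} [Group L]

theorem edh_two {S : Set U} {ty : T → U} (hC : Cv Γ GY AY H F q)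
    (hT : TAct Γ X K S ty N) {ε : Y → T} (hh : Hm GY AY X ε) {col : V → U}
    (hc : ∀ v ∈ AY, col (q v) = ty (ε v)) {s : Finset V} (hs : s ∈ sA H F) :
    ∃ a b, ∀ u ∈ s, col u = a ∨ col u = b := by
  obtain ⟨t, ht, rfl⟩ := hC.lift s hs
  have key : ∀ x y : T, cols ε t ⊆ {x, y} →
      ∀ u ∈ t.image q, col u = ty x ∨ col u = ty y := fun x y h u hu => by
    obtain ⟨v, hv, rfl⟩ := Finset.mem_image.1 hu
    rw [hc v (ht.2.1 (Finset.mem_coe.2 hv))]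
    exact (h ⟨v, hv, rfl⟩).imp (fun e => congrArg ty e) fun e => congrArg ty e
  rcases (as0_cols hT.tree hh).shape t ht with ⟨x, h⟩ | ⟨x, y, -, h⟩
  · exact ⟨_, _, key x x fun z hz => Or.inl (by rwa [h] at hz)⟩
  · exact ⟨_, _, key x y h.subset⟩

theorem edh_eq {S : Set U} {ty : T → U} (hC : Cv Γ GY AY H F q)
    (hT : TAct Γ X K S ty N) {ε : Y → T} (hh : Hm GY AY X ε) {col : V → U}
    (hc : ∀ v ∈ AY, col (q v) = ty (ε v)) {e : Finset U} (he : e.card = 2) :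
    {s | s ∈ sA H F ∧ s.image col = e} = Crv (sA GY AY) (Finset.image q) (cols ε) ty e := by
  ext s
  constructor
  · rintro ⟨hs, rfl⟩
    obtain ⟨t, ht, rfl⟩ := hC.lift s hs
    refine ⟨t, ⟨ht, fun a ha => ?_⟩, rfl⟩
    obtain ⟨u, hu, rfl⟩ := Finset.mem_image.1 ha
    obtain ⟨v, hv, rfl⟩ := Finset.mem_image.1 hu
    exact ⟨ε v, ⟨v, hv, rfl⟩, (hc v (ht.2.1 (Finset.mem_coe.2 hv))).symm⟩
  · rintro ⟨t, ⟨ht, h⟩, rfl⟩
    have hs := IsHom.image_mem hC.hom ht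
    refine ⟨hs, (Finset.eq_of_subset_of_card_le (fun a ha => ?_) ?_).symm⟩
    · obtain ⟨z, ⟨v, hv, rfl⟩, rfl⟩ := h a ha
      rw [← hc v (ht.2.1 (Finset.mem_coe.2 hv))]
      exact Finset.mem_image_of_mem _ (Finset.mem_image_of_mem _ hv)
    · obtain ⟨a, b, hab⟩ := edh_two hC hT hh hc hs
      rw [he]
      refine (Finset.card_le_card (t := {a, b}) fun c hc => ?_).trans Finset.card_le_two
      obtain ⟨u, hu, rfl⟩ := Finset.mem_image.1 hc
      rw [Finset.mem_insert, Finset.mem_singleton]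
      exact hab u hu

/-- The curve of a system of lines. -/
theorem crv_Edh {S : Set U} {ty : T → U} {W : Set V} (hA : Act Γ GY AY)
    (hC : Cv Γ GY AY H F q) (hf : F.Finite) (hT : TAct Γ X K S ty N) {α : Y → Set T}
    (h : AS Γ GY AY X α) (hk : KillY GY AY H W q N) {x y : T} (hxy : X.Adj x y) {e : Finset U}
    (hxe : ∀ a, a ∈ e ↔ a = ty x ∨ a = ty y) :
    Sph H 2 (Crv AY q α ty e) ∧ ∀ a l, Wk H (Crv AY q α ty e) a l a → Null H W a l := by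
  have hne : ty x ≠ ty y := (hT.tadj x y hxy).ne
  have h1 : Crv AY q α ty e = q '' Ln AY α x y := by
    apply Set.Subset.antisymm
    · rintro _ ⟨v, ⟨hv, hz⟩, rfl⟩
      obtain ⟨z1, m1, e1⟩ := hz _ ((hxe _).2 (Or.inl rfl))
      obtain ⟨z2, m2, e2⟩ := hz _ ((hxe _).2 (Or.inr rfl))
      have ha : X.Adj z1 z2 := (h.toAS0.adq hv m1 m2).resolve_left fun e =>
        hne (by rw [← e1, ← e2, e])
      obtain ⟨g, g1, g2⟩ := hT.tre z1 z2 x y ha hxy e1 e2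
      exact ⟨g • v, ⟨hA.mem g v hv, g1 ▸ h.eqv g v hv z1 m1, g2 ▸ h.eqv g v hv z2 m2⟩,
        hC.inv g v hv⟩
    · rintro _ ⟨v, hv, rfl⟩
      refine ⟨v, ⟨hv.1, fun a ha => ?_⟩, rfl⟩
      rcases (hxe a).1 ha with rfl | rfl
      · exact ⟨x, hv.2.1, rfl⟩
      · exact ⟨y, hv.2.2, rfl⟩
  rw [h1]
  have hsub : q '' Ln AY α x y ⊆ F := by
    rintro _ ⟨v, hv, rfl⟩
    exact hC.mem v hv.1
  have h2 : ∀ t ∈ Ln AY α x y, ∀ u ∈ AY, Adq GY t u → q u ∈ q '' Ln AY α x y →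
      u ∈ Ln AY α x y := by
    rintro t ht u hu (rfl | ha) ⟨v, hv, e⟩
    · exact ht
    · obtain ⟨g, rfl⟩ := hC.orb v hv.1 u hu e
      exact (h.toAS0.clopen_ln hxy.ne).2 t ht _ ⟨hu, g • x, g • y, (hT.adj g x y hxy).ne,
        h.eqv g v hv.1 x hv.2.1, h.eqv g v hv.1 y hv.2.2⟩ ha
  obtain ⟨l1, l2, -⟩ := h.line x y hxy
  refine ⟨?_, fun a l hw L _ lab hl => ?_⟩
  · have hm : Mf H 1 (q '' Ln AY α x y) ∅ := by
      refine mf_empty_iff.2 ?_
      rintro _ ⟨t, ht, rfl⟩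
      have hi := IsIso.restrict' (Cv.lk_iso hA hC ht.1) (q '' Ln AY α x y)
      have e1 : Lk GY AY {t} ∩ q ⁻¹' (q '' Ln AY α x y) = Lk GY (Ln AY α x y) {t} :=
        Set.ext fun u => ⟨fun hu => ⟨h2 t ht u hu.1.1 (Or.inr (hu.1.2 t rfl)) hu.2, hu.1.2⟩,
          fun hu => ⟨⟨hu.1.1, hu.2⟩, u, hu.1, rfl⟩⟩
      have e2 : Lk H F {q t} ∩ q '' Ln AY α x y = Lk H (q '' Ln AY α x y) {q t} :=
        Set.ext fun u => ⟨fun hu => ⟨hu.2, hu.1.2⟩, fun hu => ⟨⟨hsub hu.1, hu.2⟩, hu.1⟩⟩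
      rw [e1, e2] at hi
      exact (IsIso.sph hi).1 (l1.sph_lk ht (Set.notMem_empty t))
    have hcon : Con H (q '' Ln AY α x y) := Con.image (A := F) l2
      ⟨fun v hv => hC.mem v hv.1, fun u hu v hv ha => hC.hom.2 u hu.1 v hv.1 ha⟩
    rcases mf_one_cell hm (hf.subset hsub) hcon with h3 | h3
    · exact h3.2
    · exact absurd h3.1 (by simp)
  · obtain ⟨t, ht, rfl⟩ := hw.mem_left
    obtain ⟨l', t', hw', rfl, e⟩ := Cv.lift_wk hA hC (hw.mono hsub) ht.1 rfl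
    have h3 : ∀ {u u' : Y} {m : List Y}, Wk GY AY u m u' → u ∈ Ln AY α x y →
        (∀ v ∈ m, q v ∈ q '' Ln AY α x y) → u' ∈ Ln AY α x y := by
      intro u u' m hm
      induction hm with
      | nil _ => exact fun h _ => h
      | cons _ hab hr ih =>
        exact fun hu hv => ih (h2 _ hu _ hr.mem_left hab (hv _ List.mem_cons_self))
          fun v hv' => hv v (List.mem_cons_of_mem _ hv')
    have ht' := h3 hw' ht fun v hv => hw.mem_list _ (List.mem_map_of_mem hv)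
    obtain ⟨g, rfl⟩ := hC.orb t ht.1 t' ht'.1 e.symm
    obtain ⟨g1, g2⟩ := h.ln_stab (ta_of hT) ht ht'
    obtain ⟨φ, p1, p2⟩ := hk L lab hl
    rw [← ev_pull, ev_of_pot (lab := pull q lab) p1 hw', p2 g (hT.ker g x y hxy g1 g2) t ht.1,
      mul_inv_cancel]

theorem edh {S : Set U} {ty : T → U} {W : Set V} [Nonempty V] (hA : Act Γ GY AY) (hP : Pl GY AY)
    (hC : Cv Γ GY AY H F q) (hf : F.Finite) (hT : TAct Γ X K S ty N) (hD : Deep Γ X) {ε : Y → T}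
    (he : Eqv Γ AY ε) (hh : Hm GY AY X ε) (hp : HP GY AY X ε) (hW : F ⊆ W)
    (hk : KillY GY AY H W q N) {x y : T} (hxy : X.Adj x y) {e : Finset U}
    (hxe : ∀ a, a ∈ e ↔ a = ty x ∨ a = ty y) :
    Sph (sG V) 2 (Crv (sA GY AY) (Finset.image q) (cols ε) ty e) ∧
      ∀ a l, Wk (sG V) (Crv (sA GY AY) (Finset.image q) (cols ε) ty e) a l a →
        Null (sG V) (sA H W) a l := by
  exact crv_Edh (Act.sd hA hC) (Cv.sd hA hC) (sA_finite hf) hT
    (as_init hA hP (ta_of hT) hD he hh hp) (KillY.sd hA hC hW hk) hxy hxe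

end Pool.Agent.MP_6374aa_g.BE

end

section

/-! The quotient by a cyclic subgroup. -/

namespace Pool.Agent.MP_6374aa_g.BE

open Pool.Agent.MP_6374aa_gt Classical Pointwise

variable {Γ : Type} [Group Γ] {Y V V' T T' U : Type} [MulAction Γ Y] [MulAction Γ T]
  [MulAction Γ T'] {GY : SimpleGraph Y} {AY A : Set Y} {G H : SimpleGraph V} {F : Set V}
  {q : Y → V} {X : SimpleGraph T} {X' : SimpleGraph T'} {K : SimpleGraph U} {B Hi : Set U}
  {N Nm Np : Subgroup Γ} {L : Type} [Group L]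

theorem kappa_Two1 (hA : Act Γ GY AY) (hC : Cv Γ GY AY G F q) :
    ∃ κ : Y → Γ, ∀ (g : Γ), ∀ y ∈ AY, κ (g • y) = κ y * g⁻¹ := by
  have h1 : ∀ y : Y, ∃ z : Y, y ∈ AY → z ∈ AY ∧ q z = q y ∧
      ∀ y' ∈ AY, q y' = q y → z = Classical.epsilon (h := ⟨y'⟩) fun x => x ∈ AY ∧ q x = q y' :=
    fun y => ⟨Classical.epsilon (h := ⟨y⟩) fun x => x ∈ AY ∧ q x = q y, fun hy => by
      have h0 : ∃ x, x ∈ AY ∧ q x = q y := ⟨y, hy, rfl⟩
      have h := Classical.epsilon_spec h0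
      exact ⟨h.1, h.2, fun y' _ e => by rw [e]⟩⟩
  choose σ hσ using h1
  have h2 : ∀ y : Y, ∃ k : Γ, y ∈ AY → σ y = k • y := fun y => by
    by_cases hy : y ∈ AY
    · obtain ⟨k, hk⟩ := hC.orb y hy (σ y) (hσ y hy).1 (hσ y hy).2.1.symm
      exact ⟨k, fun _ => hk⟩
    · exact ⟨1, fun h => absurd h hy⟩
  choose κ hκ using h2
  refine ⟨κ, fun g y hy => ?_⟩
  have hg := hA.mem g y hy
  have e : σ (g • y) = σ y :=
    ((hσ _ hg).2.2 y hy (hC.inv g y hy).symm).trans ((hσ y hy).2.2 y hy rfl).symm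
  rw [hκ _ hg, hκ y hy, ← mul_smul, ← inv_smul_eq_iff, ← mul_smul] at e
  have h3 := hA.free _ y hy e
  rw [inv_mul_eq_one] at h3
  rw [h3, mul_inv_cancel_right]

theorem rho_Two1 (hA : Act Γ GY AY) (hC : Cv Γ GY AY G F q) {κ : Y → Γ}
    (hκ : ∀ (g : Γ), ∀ y ∈ AY, κ (g • y) = κ y * g⁻¹) :
    ∃ ρ : V → V → Γ, ∀ u ∈ AY, ∀ w ∈ AY, Adq GY u w → ρ (q u) (q w) = κ u * (κ w)⁻¹ := by
  have h1 : ∀ a b : V, ∃ r : Γ, ∀ u ∈ AY, ∀ w ∈ AY, Adq GY u w → q u = a → q w = b →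
      r = κ u * (κ w)⁻¹ := fun a b => by
    by_cases h : ∃ u ∈ AY, ∃ w ∈ AY, Adq GY u w ∧ q u = a ∧ q w = b
    · obtain ⟨u, hu, w, hw, huw, rfl, rfl⟩ := h
      refine ⟨κ u * (κ w)⁻¹, fun u' hu' w' hw' h' e1 e2 => ?_⟩
      obtain ⟨g, rfl⟩ := hC.orb u hu u' hu' e1.symm
      obtain rfl : w' = g • w := hC.uniq' hu' hw' (hA.mem g w hw) h' (hA.adq g huw)
        (e2.trans (hC.inv g w hw).symm)
      rw [hκ g u hu, hκ g w hw]
      group
    · exact ⟨1, fun u hu w hw huw e1 e2 => absurd ⟨u, hu, w, hw, huw, e1, e2⟩ h⟩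
  choose ρ hρ using h1
  exact ⟨ρ, fun u hu w hw huw => hρ _ _ u hu w hw huw rfl rfl⟩

theorem flat_Two1 (hC : Cv Γ GY AY G F q) {κ : Y → Γ} {ρ : V → V → Γ}
    (hρ : ∀ u ∈ AY, ∀ w ∈ AY, Adq GY u w → ρ (q u) (q w) = κ u * (κ w)⁻¹) : Flat G F ρ := by
  intro a ha b hb c hc h1 h2 h3
  obtain ⟨t, ht, e⟩ := hC.lift _ (tri_mem_B3 ha hb hc h1 h2 h3)
  obtain ⟨-, h4, h5⟩ := mem_sA.1 ht
  have key : ∀ x ∈ ({a, b, c} : Finset V), ∃ u ∈ t, q u = x := fun x hx => by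
    rw [← e] at hx
    exact Finset.mem_image.1 hx
  obtain ⟨u, hu, rfl⟩ := key a (by simp)
  obtain ⟨v, hv, rfl⟩ := key b (by simp)
  obtain ⟨w, hw, rfl⟩ := key c (by simp)
  rw [hρ u (h4 hu) v (h4 hv) (h5 u hu v hv), hρ v (h4 hv) w (h4 hw) (h5 v hv w hw),
    hρ u (h4 hu) w (h4 hw) (h5 u hu w hw)]
  group

/-- A universal label and sheet coordinates. -/
theorem exists_sheet (hA : Act Γ GY AY) (hC : Cv Γ GY AY G F q) (hc : Con GY AY)
    (hs : SCo GY AY) : ∃ (ρ : V → V → Γ) (κ : Y → Γ), UL G F ρ ∧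
      (∀ (g : Γ), ∀ y ∈ AY, κ (g • y) = κ y * g⁻¹) ∧
      ∀ u ∈ AY, ∀ w ∈ AY, Adq GY u w → κ u = ρ (q u) (q w) * κ w := by
  obtain ⟨κ, hκ⟩ := kappa_Two1 hA hC
  obtain ⟨ρ, hρ⟩ := rho_Two1 hA hC hκ
  have hev : ∀ {y y' : Y} {l : List Y}, Wk GY AY y l y' →
      ev ρ (q y) (l.map q) = κ y * (κ y')⁻¹ := fun hw => by
    rw [← ev_pull]
    exact ev_of_pot (lab := pull q ρ) hρ hw
  obtain ⟨y0, hy0⟩ := hc.1
  refine ⟨ρ, κ, UL.of_faithful (flat_Two1 hC hρ) (hC.con hc) (fun a l hw h1 => ?_)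
    (hC.mem y0 hy0) fun g => ?_, hκ, fun u hu w hw huw => ?_⟩
  · obtain ⟨y, hy, rfl⟩ := hC.surj hw.mem_left
    obtain ⟨l', y', hw', rfl, e⟩ := hC.lift_wk hA hw hy rfl
    obtain ⟨g, rfl⟩ := hC.orb y hy y' hw'.mem_right e.symm
    rw [hev hw', hκ g y hy, mul_inv_eq_one, left_eq_mul, inv_eq_one] at h1
    rw [h1, one_smul] at hw'
    exact (hs.null hw').map hC.hom
  · have hg := hA.mem ((κ y0)⁻¹ * g * κ y0) y0 hy0
    obtain ⟨l, hl⟩ := (hc.2 y0 hy0 _ hg).wk hy0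
    have h2 := hl.map hC.hom
    rw [hC.inv _ y0 hy0] at h2
    refine ⟨_, h2, ?_⟩
    rw [hev hl, hκ _ y0 hy0]
    group
  · rw [hρ u hu w hw huw, inv_mul_cancel_right]

theorem exists_quot (hA : Act Γ GY AY) (hC : Cv Γ GY AY G F q) (hc : Con GY AY) (hs : SCo GY AY)
    (c : Γ) : ∃ (V1 : Type) (G1 : SimpleGraph V1) (F1 : Set V1) (q1 : Y → V1),
      Cv (Subgroup.zpowers c) GY AY G1 F1 q1 ∧ Rk G1 F1 1 := by
  obtain ⟨ρ, κ, hU, hκ, hρ⟩ := exists_sheet hA hC hc hs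
  have hq : ∀ u ∈ AY, ∀ w ∈ AY, Adq GY u w → (κ u : Γ ⧸ Subgroup.zpowers c) =
      ρ (q u) (q w) • (κ w : Γ ⧸ Subgroup.zpowers c) := fun u hu w hw huw => by
    rw [MulAction.Quotient.smul_coe, smul_eq_mul, ← hρ u hu w hw huw]
  refine ⟨V × (Γ ⧸ Subgroup.zpowers c), cov G ρ _, up F _,
    fun y => (q y, (κ y : Γ ⧸ Subgroup.zpowers c)), ⟨fun y hy => hC.mem y hy,
      fun y hy y' hy' h => ⟨hC.adj y hy y' hy' h, hq y hy y' hy' (Or.inr h),
        hq y' hy' y hy (Or.inr h.symm)⟩, fun g y hy => ?_, fun y hy y' hy' h => ?_,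
      fun y hy y1 h1 y2 h2 a1 a2 h => hC.uniq y hy y1 h1 y2 h2 a1 a2 (congrArg Prod.fst h),
      fun s hs' => ?_⟩, (hU.cov_rk _ inferInstance).2⟩
  · refine Prod.ext (hC.inv (g : Γ) y hy) ?_
    change ((κ ((g : Γ) • y) : Γ) : Γ ⧸ Subgroup.zpowers c) = κ y
    rw [hκ _ y hy]
    exact QuotientGroup.mk_mul_of_mem _ (inv_mem g.2)
  · obtain ⟨g, rfl⟩ := hC.orb y hy y' hy' (congrArg Prod.fst h)
    have h2 : (κ y : Γ ⧸ Subgroup.zpowers c) = κ (g • y) := congrArg Prod.snd h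
    rw [QuotientGroup.eq, hκ g y hy, inv_mul_cancel_left, inv_mem_iff] at h2
    exact ⟨⟨g, h2⟩, rfl⟩
  · obtain ⟨⟨⟨a, x⟩, hp⟩, h2, h3⟩ := mem_sA.1 hs'
    obtain ⟨k, rfl⟩ := QuotientGroup.mk_surjective x
    obtain ⟨y0, hy0, e0⟩ := hC.surj (a := a) (h2 hp)
    have hy := hA.mem (k⁻¹ * κ y0) y0 hy0
    have e1 : q ((k⁻¹ * κ y0) • y0) = a := (hC.inv _ y0 hy0).trans e0
    have e2 : κ ((k⁻¹ * κ y0) • y0) = k := by
      rw [hκ _ y0 hy0]
      group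
    generalize (k⁻¹ * κ y0) • y0 = y at hy e1 e2
    subst e1 e2
    obtain ⟨t, ht, hyt, e⟩ := hC.lift_at hA hy (IsHom.image_mem (up_hom_GrB1 ρ) hs')
      (Finset.mem_image.2 ⟨_, hp, rfl⟩)
    obtain ⟨-, h4, h5⟩ := mem_sA.1 ht
    have key : ∀ z ∈ t, ∀ p ∈ s, p.1 = q z → (q z, (κ z : Γ ⧸ Subgroup.zpowers c)) = p := by
      rintro z hz ⟨b, x⟩ hb (rfl : b = q z)
      rw [hq z (h4 hz) y hy (h5 z hz y hyt),
        ((cov_adq hU.flat (hC.mem z (h4 hz)) (hC.mem y hy)).1 (h3 _ hb _ hp)).2]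
    refine ⟨t, ht, Finset.ext fun p =>
      (@Finset.mem_image _ _ (fun a b => propDecidable (a = b)) _ _ _).trans ⟨?_, fun hp' => ?_⟩⟩
    · rintro ⟨z, hz, rfl⟩
      have h6 := Finset.mem_image_of_mem q hz
      rw [e] at h6
      obtain ⟨p, hp', e'⟩ := Finset.mem_image.1 h6
      rw [key z hz p hp' e']
      exact hp'
    · have h6 := Finset.mem_image_of_mem Prod.fst hp'
      rw [← e] at h6
      obtain ⟨z, hz, e'⟩ := Finset.mem_image.1 h6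
      exact ⟨z, hz, key z hz p hp' e'.symm⟩

end Pool.Agent.MP_6374aa_g.BE

end

section

/-! Two invariant cocycles on the plane. -/

namespace Pool.Agent.MP_6374aa_g.BE

open Pool.Agent.MP_6374aa_gt Classical Pointwise

variable {Γ : Type} [Group Γ] {Y V V' T T' U : Type} [MulAction Γ Y] [MulAction Γ T]
  [MulAction Γ T'] {GY : SimpleGraph Y} {AY A : Set Y} {G H : SimpleGraph V} {F : Set V}
  {q : Y → V} {X : SimpleGraph T} {X' : SimpleGraph T'} {K : SimpleGraph U} {B Hi : Set U}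
  {N Nm Np : Subgroup Γ} {L : Type} [Group L]

theorem desc_Two2 {J : Type} [Group J] [MulAction J Y] (hA : Act J GY AY)
    (hC : Cv J GY AY G F q) {δ : Y → Y → L} (f : Flat GY AY δ)
    (i : ∀ (g : J), ∀ u ∈ AY, ∀ w ∈ AY, Adq GY u w → δ (g • u) (g • w) = δ u w) :
    ∃ d : V → V → L, Flat G F d ∧ ∀ u ∈ AY, ∀ w ∈ AY, Adq GY u w → d (q u) (q w) = δ u w := by
  let P : V → V → Y × Y → Prop := fun a b p =>
    p.1 ∈ AY ∧ p.2 ∈ AY ∧ Adq GY p.1 p.2 ∧ q p.1 = a ∧ q p.2 = b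
  let d : V → V → L := fun a b => if h : ∃ p, P a b p then δ h.choose.1 h.choose.2 else 1
  have hd : ∀ u ∈ AY, ∀ w ∈ AY, Adq GY u w → d (q u) (q w) = δ u w := by
    intro u hu w hw huw
    have h : ∃ p, P (q u) (q w) p := ⟨(u, w), hu, hw, huw, rfl, rfl⟩
    have e : d (q u) (q w) = δ h.choose.1 h.choose.2 := dif_pos h
    obtain ⟨h1, h2, h3, h4, h5⟩ := h.choose_spec
    obtain ⟨g, hg⟩ := hC.orb u hu _ h1 h4.symm
    have hw2 : h.choose.2 = g • w := by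
      refine hC.uniq' h1 h2 (hA.mem g w hw) h3 ?_ ?_
      · rw [hg]
        exact hA.adq g huw
      · rw [h5, hC.inv g w hw]
    rw [e, hw2, hg]
    exact i g u hu w hw huw
  refine ⟨d, fun a ha b hb c hc hab hbc hac => ?_, hd⟩
  have hs : ({a, b, c} : Finset V) ∈ sA G F := by
    refine ⟨⟨a, by simp⟩, ?_, ?_⟩
    · intro x hx
      simp only [Finset.coe_insert, Finset.coe_singleton, Set.mem_insert_iff,
        Set.mem_singleton_iff] at hx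
      rcases hx with rfl | rfl | rfl <;> assumption
    · intro x hx y hy hxy
      simp only [Finset.coe_insert, Finset.coe_singleton, Set.mem_insert_iff,
        Set.mem_singleton_iff] at hx hy
      have key : Adq G x y := by
        rcases hx with rfl | rfl | rfl <;> rcases hy with rfl | rfl | rfl <;>
          first | exact adq_refl _ | assumption | exact adq_symm (by assumption)
      exact key.resolve_left hxy
  obtain ⟨t, ht, he⟩ := hC.lift _ hs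
  have hl : ∀ x ∈ ({a, b, c} : Finset V), ∃ y ∈ t, q y = x := fun x hx =>
    Finset.mem_image.1 (he ▸ hx)
  have hq : ∀ x ∈ t, ∀ y ∈ t, Adq GY x y := fun x hx y hy => by
    by_cases hxy : x = y
    · exact Or.inl hxy
    · exact Or.inr (ht.2.2 hx hy hxy)
  obtain ⟨u, hu, rfl⟩ := hl a (by simp)
  obtain ⟨v, hv, rfl⟩ := hl b (by simp)
  obtain ⟨w, hw, rfl⟩ := hl c (by simp)
  rw [hd u (ht.2.1 hu) v (ht.2.1 hv) (hq u hu v hv), hd v (ht.2.1 hv) w (ht.2.1 hw) (hq v hv w hw),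
    hd u (ht.2.1 hu) w (ht.2.1 hw) (hq u hu w hw)]
  exact f u (ht.2.1 hu) v (ht.2.1 hv) w (ht.2.1 hw) (hq u hu v hv) (hq v hv w hw) (hq u hu w hw)

theorem supp_Two2 {J : Type} [Group J] [MulAction J Y] (hA : Act J GY AY) (hm : Mf G 2 F ∅)
    (hC : Cv J GY AY G F q) {δ : Y → Y → L} {d : V → V → L}
    (hd : ∀ u ∈ AY, ∀ w ∈ AY, Adq GY u w → d (q u) (q w) = δ u w)
    (s : (q '' {u | u ∈ AY ∧ ∃ w ∈ AY, Adq GY u w ∧ δ u w ≠ 1}).Finite) : FinSupp G F d := by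
  have hfin : (⋃ a ∈ q '' {u | u ∈ AY ∧ ∃ w ∈ AY, Adq GY u w ∧ δ u w ≠ 1},
      ({a} : Set V) ×ˢ insert a (Lk G F {a})).Finite := by
    refine s.biUnion ?_
    rintro a ⟨u, hu, rfl⟩
    exact (Set.finite_singleton _).prod ((Mfa.lk_finite hm (hC.mem u hu.1)).insert _)
  refine hfin.subset ?_
  rintro ⟨a, b⟩ ⟨ha, hb, hab, hne⟩
  obtain ⟨u, hu, rfl⟩ := hC.surj ha
  obtain ⟨w, hw, huw, rfl⟩ := hC.lift_adq hA hu hb hab
  refine Set.mem_biUnion (x := q u) ⟨u, ⟨hu, w, hw, huw, ?_⟩, rfl⟩ ⟨rfl, ?_⟩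
  · rw [← hd u hu w hw huw]
    exact hne
  · rcases hab with h | h
    · exact Or.inl h.symm
    · exact Or.inr (mem_lk_C1.2 ⟨hb, h⟩)

theorem cob_Two2 {J : Type} [Group J] [MulAction J Y] (hC : Cv J GY AY G F q) {δ : Y → Y → Z2}
    {d : V → V → Z2} (hd : ∀ u ∈ AY, ∀ w ∈ AY, Adq GY u w → d (q u) (q w) = δ u w) {S : Set V}
    (h : IsCob G F d S) : IsCob GY AY δ (AY ∩ q ⁻¹' S) := by
  intro u hu w hw huw
  rw [← hd u hu w hw huw, h _ (hC.mem u hu) _ (hC.mem w hw) (hC.hom.adq hu hw huw)]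
  simp only [Set.mem_inter_iff, Set.mem_preimage, hu, hw, true_and]

theorem cof_Two2 {J : Subgroup Γ} (hC : Cv J GY AY G F q) {S : Set Y}
    (hS : S ⊆ AY) : (q '' S).Finite ↔ CoF J S := by
  constructor
  · intro h
    obtain ⟨S0, h1, h2, h3⟩ := h.exists_subset_finite_image_eq (s := S) subset_rfl
    refine ⟨S0, h2, fun v hv => ?_⟩
    obtain ⟨y, hy, e⟩ : q v ∈ q '' S0 := h3 ▸ ⟨v, hv, rfl⟩
    obtain ⟨g, hg⟩ := hC.orb v (hS hv) y (hS (h1 hy)) e.symm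
    refine ⟨g.1, g.2, ?_⟩
    have e2 : g.1 • v = y := hg.symm
    rw [e2]
    exact hy
  · rintro ⟨S0, h1, h2⟩
    refine (h1.image q).subset ?_
    rintro a ⟨v, hv, rfl⟩
    obtain ⟨g, hg, hm⟩ := h2 v hv
    exact ⟨g • v, hm, hC.inv (⟨g, hg⟩ : J) v (hS hv)⟩

theorem two_side_cv {J : Type} [Group J] [MulAction J Y] (hA : Act J GY AY) (hm : Mf GY 2 AY ∅)
    (hC : Cv J GY AY G F q) (hr : Rk G F 1) {δ1 δ2 : Y → Y → Z2} (f1 : Flat GY AY δ1)
    (f2 : Flat GY AY δ2)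
    (i1 : ∀ (g : J), ∀ u ∈ AY, ∀ w ∈ AY, Adq GY u w → δ1 (g • u) (g • w) = δ1 u w)
    (i2 : ∀ (g : J), ∀ u ∈ AY, ∀ w ∈ AY, Adq GY u w → δ2 (g • u) (g • w) = δ2 u w)
    (s1 : (q '' {u | u ∈ AY ∧ ∃ w ∈ AY, Adq GY u w ∧ δ1 u w ≠ 1}).Finite)
    (s2 : (q '' {u | u ∈ AY ∧ ∃ w ∈ AY, Adq GY u w ∧ δ2 u w ≠ 1}).Finite) :
    ∃ S ⊆ AY, (q '' S).Finite ∧
      (IsCob GY AY δ1 S ∨ IsCob GY AY δ2 S ∨ IsCob GY AY (fun u w => δ1 u w * δ2 u w) S) := by
  have hm2 := hC.mf hA hm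
  obtain ⟨d1, a1, b1⟩ := desc_Two2 hA hC f1 i1
  obtain ⟨d2, a2, b2⟩ := desc_Two2 hA hC f2 i2
  obtain ⟨S, hS, h⟩ := fin_side_two hm2 hr a1 a2 (supp_Two2 hA hm2 hC b1 s1)
    (supp_Two2 hA hm2 hC b2 s2)
  refine ⟨AY ∩ q ⁻¹' S, Set.inter_subset_left, hS.subset ?_, ?_⟩
  · rintro a ⟨u, hu, rfl⟩
    exact hu.2
  · rcases h with h | h | h
    · exact Or.inl (cob_Two2 hC b1 h)
    · exact Or.inr (Or.inl (cob_Two2 hC b2 h))
    · refine Or.inr (Or.inr (cob_Two2 hC (fun u hu w hw huw => ?_) h))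
      rw [b1 u hu w hw huw, b2 u hu w hw huw]

theorem two_side (hA : Act Γ GY AY) (hP : Pl GY AY) (hC : Cv Γ GY AY G F q) (c : Γ)
    {δ1 δ2 : Y → Y → Z2} (f1 : Flat GY AY δ1) (f2 : Flat GY AY δ2)
    (i1 : ∀ g ∈ Subgroup.zpowers c, ∀ u ∈ AY, ∀ w ∈ AY, Adq GY u w → δ1 (g • u) (g • w) = δ1 u w)
    (i2 : ∀ g ∈ Subgroup.zpowers c, ∀ u ∈ AY, ∀ w ∈ AY, Adq GY u w → δ2 (g • u) (g • w) = δ2 u w)
    (s1 : CoF (Subgroup.zpowers c) {u | u ∈ AY ∧ ∃ w ∈ AY, Adq GY u w ∧ δ1 u w ≠ 1})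
    (s2 : CoF (Subgroup.zpowers c) {u | u ∈ AY ∧ ∃ w ∈ AY, Adq GY u w ∧ δ2 u w ≠ 1}) :
    ∃ S ⊆ AY, CoF (Subgroup.zpowers c) S ∧
      (IsCob GY AY δ1 S ∨ IsCob GY AY δ2 S ∨ IsCob GY AY (fun u w => δ1 u w * δ2 u w) S) := by
  obtain ⟨V1, G1, F1, q1, hq, hr⟩ := exists_quot hA hC hP.con hP.sco c
  obtain ⟨S, h1, h2, h3⟩ := two_side_cv (hA.sub (Subgroup.zpowers c)) hP.mf hq hr f1 f2
    (fun g => i1 g.1 g.2) (fun g => i2 g.1 g.2)
    ((cof_Two2 hq fun _ h => h.1).2 s1) ((cof_Two2 hq fun _ h => h.1).2 s2)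
  exact ⟨S, h1, (cof_Two2 hq h1).1 h2, h3⟩

end Pool.Agent.MP_6374aa_g.BE

end

section

/-! Minimal colourings of the plane have connected half preimages. -/

namespace Pool.Agent.MP_6374aa_g.BE

open Pool.Agent.MP_6374aa_gt Classical Pointwise

variable {Γ : Type} [Group Γ] {Y V V' T T' U : Type} [MulAction Γ Y] [MulAction Γ T]
  [MulAction Γ T'] {GY : SimpleGraph Y} {AY A : Set Y} {G H : SimpleGraph V} {F : Set V}
  {q : Y → V} {X : SimpleGraph T} {X' : SimpleGraph T'} {K : SimpleGraph U} {B Hi : Set U}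
  {N Nm Np : Subgroup Γ} {L : Type} [Group L]

/-- The label of a set of mixed simplices. -/
noncomputable def dl_Line (l : Set (Finset Y)) (u w : Y) : Z2 :=
  if ({u, w} : Finset Y) ∈ l then neg else 1

section aux

variable {Q : Set Y} {l : Set (Finset Y)}

theorem pair_fr_Line {a b : Y} (h : ({a, b} : Finset Y) ∈ fr GY AY Q) : ¬ (a ∈ Q ↔ b ∈ Q) := by
  obtain ⟨-, ⟨v, h1, h2⟩, h3⟩ := h
  intro e
  refine h3 fun z hz => ?_
  simp only [Finset.mem_insert, Finset.mem_singleton, Finset.coe_insert, Finset.coe_singleton,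
    Set.mem_insert_iff, Set.mem_singleton_iff] at h1 hz
  rcases h1 with rfl | rfl <;> rcases hz with rfl | rfl <;> tauto

theorem fr_of_Line {τ : Finset Y} (hτ : τ ∈ sA GY AY) {a b : Y} (ha : a ∈ τ) (hb : b ∈ τ)
    (e : ¬ (a ∈ Q ↔ b ∈ Q)) : τ ∈ fr GY AY Q := by
  refine ⟨hτ, ?_, fun k => e (iff_of_true (k ha) (k hb))⟩
  by_cases h : a ∈ Q
  · exact ⟨a, ha, h⟩
  · exact ⟨b, hb, by_contra fun k => e (iff_of_false h k)⟩

theorem clopen_adq_Line {M : Set (Finset Y)} (hl : Clopen (sG Y) M l) {s t : Finset Y}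
    (hs : s ∈ l) (ht : t ∈ M) (h : s ⊆ t ∨ t ⊆ s) : t ∈ l :=
  (adq_sG.2 h).elim (fun e => e ▸ hs) (hl.2 s hs t ht)

theorem pair_iff_Line (hl : Clopen (sG Y) (fr GY AY Q) l) {τ : Finset Y} (hτ : τ ∈ sA GY AY)
    {a b : Y} (ha : a ∈ τ) (hb : b ∈ τ) :
    ({a, b} : Finset Y) ∈ l ↔ ¬ (a ∈ Q ↔ b ∈ Q) ∧ τ ∈ l := by
  have h1 : ({a, b} : Finset Y) ⊆ τ := Finset.insert_subset ha (Finset.singleton_subset_iff.2 hb)
  constructor
  · intro h
    have e := pair_fr_Line (hl.1 h)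
    exact ⟨e, clopen_adq_Line hl h (fr_of_Line hτ ha hb e) (Or.inl h1)⟩
  · rintro ⟨e, h⟩
    exact clopen_adq_Line hl h (fr_of_Line (sA_down hτ h1 (Finset.insert_nonempty _ _))
      (Finset.mem_insert_self _ _) (by simp) e) (Or.inr h1)

theorem flat_Line (hl : Clopen (sG Y) (fr GY AY Q) l) : Flat GY AY (dl_Line l) := by
  intro u hu v hv w hw h1 h2 h3
  have hτ : ({u, v, w} : Finset Y) ∈ sA GY AY := by
    refine mem_sA.2 ⟨Finset.insert_nonempty _ _, fun z hz => ?_, fun a ha b hb => ?_⟩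
    · simp only [Finset.coe_insert, Finset.coe_singleton, Set.mem_insert_iff,
        Set.mem_singleton_iff] at hz
      rcases hz with rfl | rfl | rfl <;> assumption
    · simp only [Finset.mem_insert, Finset.mem_singleton] at ha hb
      rcases ha with rfl | rfl | rfl <;> rcases hb with rfl | rfl | rfl <;>
        first | exact adq_refl _ | assumption | exact adq_symm (by assumption)
  have e1 := pair_iff_Line hl hτ (a := u) (b := v) (by simp) (by simp)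
  have e2 := pair_iff_Line hl hτ (a := v) (b := w) (by simp) (by simp)
  have e3 := pair_iff_Line hl hτ (a := u) (b := w) (by simp) (by simp)
  simp only [dl_Line, e1, e2, e3]
  by_cases k : ({u, v, w} : Finset Y) ∈ l <;> by_cases k1 : u ∈ Q <;> by_cases k2 : v ∈ Q <;>
    by_cases k3 : w ∈ Q <;> simp [k, k1, k2, k3, z2_mul_self]

theorem dl_ne_Line {u w : Y} (h : dl_Line l u w ≠ 1) : ({u, w} : Finset Y) ∈ l :=
  by_contra fun k => h (if_neg k)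

theorem dl_one_Line (hl : l ⊆ fr GY AY Q) {u w : Y} (e : u ∈ Q ↔ w ∈ Q) : dl_Line l u w = 1 :=
  by_contra fun k => pair_fr_Line (hl (dl_ne_Line k)) e

theorem exists_pair_Line (hl : Clopen (sG Y) (fr GY AY Q) l) {s : Finset Y} (hs : s ∈ l) :
    ∃ u ∈ AY, ∃ w ∈ AY, Adq GY u w ∧ ({u, w} : Finset Y) ∈ l := by
  obtain ⟨h0, ⟨u, h1, h2⟩, h3⟩ := hl.1 hs
  obtain ⟨w, h4, h5⟩ := Set.not_subset.1 h3
  exact ⟨u, h0.2.1 h1, w, h0.2.1 h4, (mem_sA.1 h0).2.2 u h1 w h4,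
    (pair_iff_Line hl h0 h1 h4).2 ⟨fun e => h5 (e.1 h2), hs⟩⟩

theorem bound_Line {ε : Y → T} {S : Set Y} (h : S.Finite) (x : T) :
    ∃ n, ∀ v ∈ S, X.dist (ε v) x < n := by
  obtain ⟨n, hn⟩ := (h.image fun v => X.dist (ε v) x).bddAbove
  exact ⟨n + 1, fun v hv => Nat.lt_succ_of_le (hn ⟨v, hv, rfl⟩)⟩

/-- A coboundary that is supported on mixed edges has an unbounded side. -/
theorem key_Line (hX : X.IsTree) {ε : Y → T} {x y : T} (hxy : X.Adj x y)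
    (hu : ∀ x y, X.Adj x y → ∀ v ∈ HS AY X ε x y, Unb X ε (cmp GY (HS AY X ε x y) v))
    {δ : Y → Y → Z2} (h1 : ∀ u w, (ε u ∈ half X x y ↔ ε w ∈ half X x y) → δ u w = 1)
    (h2 : ∃ u ∈ AY, ∃ w ∈ AY, Adq GY u w ∧ δ u w ≠ 1) {S : Set Y} (hS : IsCob GY AY δ S)
    (hb : ∃ n, ∀ v ∈ S, X.dist (ε v) x < n) : False := by
  obtain ⟨n, hn⟩ := hb
  obtain ⟨v, v1, v2⟩ : ∃ v ∈ AY, v ∈ S := by
    obtain ⟨u, a1, w, a2, a3, a4⟩ := h2
    by_cases k : u ∈ S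
    · exact ⟨u, a1, k⟩
    · exact ⟨w, a2, by_contra fun k' => a4 ((hS u a1 w a2 a3).2 (iff_of_false k k'))⟩
  have stay : ∀ H : Set Y, H ⊆ AY → (∀ a ∈ H, ∀ b ∈ H, (ε a ∈ half X x y ↔ ε b ∈ half X x y)) →
      ¬ Unb X ε (cmp GY H v) := by
    intro H e1 e2 k
    obtain ⟨z, hz, e⟩ := k x n
    have := Reach.const (φ := fun a => a ∈ S) (fun a ha b hb hab =>
      propext ((hS a (e1 ha) b (e1 hb) (Or.inr hab)).1 (h1 a b (e2 a ha b hb)))) hz.2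
    exact (hn z (this ▸ v2)).not_ge e
  rcases half_cases hX hxy (ε v) with k | k
  · exact stay _ (fun _ h => h.1) (fun a ha b hb => iff_of_true ha.2 hb.2) (hu x y hxy v ⟨v1, k⟩)
  · exact stay _ (fun _ h => h.1)
      (fun a ha b hb => iff_of_false (half_asymm ha.2) (half_asymm hb.2))
      (hu y x hxy.symm v ⟨v1, k⟩)

theorem cols_Line (hX : X.IsTree) {ε : Y → T} (hh : Hm GY AY X ε) {x y : T} (hxy : X.Adj x y)
    {s : Finset Y} (hs : s ∈ fr GY AY (ε ⁻¹' half X x y)) :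
    (∃ u ∈ s, ε u = y) ∧ (∃ w ∈ s, ε w = x) ∧ ∀ v ∈ s, ε v = x ∨ ε v = y := by
  obtain ⟨h0, ⟨u, h1, h2⟩, h3⟩ := hs
  obtain ⟨w, h4, h5⟩ := Set.not_subset.1 h3
  have k : ∀ a ∈ s, ∀ b ∈ s, ε a ∈ half X x y → ε b ∉ half X x y → ε a = y ∧ ε b = x :=
    fun a ha b hb => cross hX hxy
      (hh.adq (h0.2.1 ha) (h0.2.1 hb) ((mem_sA.1 h0).2.2 a ha b hb))
  refine ⟨⟨u, h1, (k u h1 w h4 h2 h5).1⟩, ⟨w, h4, (k u h1 w h4 h2 h5).2⟩, fun v hv => ?_⟩
  by_cases e : ε v ∈ half X x y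
  · exact Or.inr (k v hv w h4 e h5).1
  · exact Or.inl (k u h1 v hv h2 e).2

theorem stab_Line (hT : TA Γ X) {ε : Y → T} (he : Eqv Γ AY ε) (hh : Hm GY AY X ε) {x y : T}
    (hxy : X.Adj x y) {s : Finset Y} (hs : s ∈ fr GY AY (ε ⁻¹' half X x y)) {g : Γ}
    (hg : g • s ∈ fr GY AY (ε ⁻¹' half X x y)) : g • x = x ∧ g • y = y := by
  obtain ⟨⟨u, u1, u2⟩, ⟨w, w1, w2⟩, -⟩ := cols_Line hT.tree hh hxy hs
  have k := (cols_Line hT.tree hh hxy hg).2.2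
  have k1 := k _ (smul_mem_smul_fin.2 u1)
  have k2 := k _ (smul_mem_smul_fin.2 w1)
  rw [he g u (hs.1.2.1 u1), u2] at k1
  rw [he g w (hs.1.2.1 w1), w2] at k2
  exact ⟨k2.resolve_right (hT.noinv g x y hxy), k1.resolve_left (hT.noinv g y x hxy.symm)⟩

theorem smul_fr_Line (hA : Act Γ GY AY) (hT : TA Γ X) {ε : Y → T} (he : Eqv Γ AY ε) {x y : T}
    {g : Γ} (hg : g • x = x ∧ g • y = y) {s : Finset Y} (hs : s ∈ fr GY AY (ε ⁻¹' half X x y)) :
    g • s ∈ fr GY AY (ε ⁻¹' half X x y) := by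
  obtain ⟨h0, ⟨u, h1, h2⟩, h3⟩ := hs
  obtain ⟨w, h4, h5⟩ := Set.not_subset.1 h3
  have k : ∀ a ∈ s, g • a ∈ ε ⁻¹' half X x y ↔ a ∈ ε ⁻¹' half X x y := fun a ha => by
    have := hT.half_smul g (x := x) (y := y) (z := ε a)
    rwa [hg.1, hg.2, ← he g a (h0.2.1 ha)] at this
  exact fr_of_Line (hA.smul_sA g h0) (smul_mem_smul_fin.2 h1) (smul_mem_smul_fin.2 h4)
    fun e => h5 ((k w h4).1 (e.1 ((k u h1).2 h2)))

/-- An infinite component has a nontrivial period. -/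
theorem period_Line (hA : Act Γ (sG Y) (sA GY AY)) {M : Set (Finset Y)} {c : Γ}
    (hM : CoF (Subgroup.zpowers c) M) (hi : ∀ g ∈ Subgroup.zpowers c, ∀ s ∈ M, g • s ∈ M)
    {s : Finset Y} (h : (cmp (sG Y) M s).Infinite) :
    ∃ n : ℤ, n ≠ 0 ∧ c ^ n ∈ MulAction.stabilizer Γ (cmp (sG Y) M s) := by
  obtain ⟨S0, h0, h1⟩ := hM
  choose! k k1 k2 using h1
  obtain ⟨a, ha, b, hb, e1, e2⟩ := h.exists_ne_map_eq_of_mapsTo (f := fun t => k t • t)
    (fun t ht => k2 t ht.1) h0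
  have hg : (k b)⁻¹ * k a ∈ Subgroup.zpowers c :=
    Subgroup.mul_mem _ (Subgroup.inv_mem _ (k1 b hb.1)) (k1 a ha.1)
  have e3 : ((k b)⁻¹ * k a) • a = b := by rw [mul_smul, inv_smul_eq_iff]; exact e2
  have key : ∀ g ∈ Subgroup.zpowers c, ∀ a ∈ cmp (sG Y) M s, g • a ∈ cmp (sG Y) M s →
      ∀ t ∈ cmp (sG Y) M s, g • t ∈ cmp (sG Y) M s := fun g hg a ha hb t ht =>
    ⟨hi g hg t ht.1, hb.2.trans (hA.reach g (hi g hg) (ha.2.symm.trans ht.2))⟩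
  obtain ⟨n, hn⟩ := Subgroup.mem_zpowers_iff.1 hg
  refine ⟨n, ?_, ?_⟩
  · rintro rfl
    rw [← hn, zpow_zero, one_smul] at e3
    exact e1 e3
  · rw [hn, MulAction.mem_stabilizer_set]
    refine fun t => ⟨fun ht => ?_, key _ hg a ha (e3.symm ▸ hb) t⟩
    have := key _ (Subgroup.inv_mem _ hg) b hb (by rwa [inv_smul_eq_iff.2 e3.symm]) _ ht
    rwa [inv_smul_smul] at this

theorem dl_smul_Line {g : Γ} (hg : g ∈ MulAction.stabilizer Γ l) (u w : Y) :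
    dl_Line l (g • u) (g • w) = dl_Line l u w := by
  have e : ({g • u, g • w} : Finset Y) = g • ({u, w} : Finset Y) := by
    ext z
    simp only [mem_smul_fin, Finset.mem_insert, Finset.mem_singleton, exists_eq_or_imp,
      exists_eq_left, eq_comm (a := z)]
  simp only [dl_Line, e, MulAction.mem_stabilizer_set.1 hg]

theorem cof_Line {J : Subgroup Γ} (h : CoF J l) :
    CoF J {u | u ∈ AY ∧ ∃ w ∈ AY, Adq GY u w ∧ dl_Line l u w ≠ 1} := by
  obtain ⟨S0, h0, h1⟩ := h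
  refine ⟨⋃ s ∈ S0, (s : Set Y), h0.biUnion fun s _ => s.finite_toSet, ?_⟩
  rintro u ⟨-, w, -, -, k⟩
  obtain ⟨g, g1, g2⟩ := h1 _ (dl_ne_Line k)
  exact ⟨g, g1, Set.mem_biUnion g2 (smul_mem_smul_fin.2 (Finset.mem_insert_self _ _))⟩

theorem supp_Line (h : l.Finite) : FinSupp GY AY (dl_Line l) := by
  refine (h.biUnion fun s _ => s.finite_toSet.prod s.finite_toSet).subset ?_
  rintro ⟨u, w⟩ ⟨-, -, -, k⟩
  exact Set.mem_biUnion (dl_ne_Line k) ⟨by simp, by simp⟩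

theorem pre_Line (hc : Pre GY AY) (h : Pre (sG Y) (fr GY AY Q)) : Pre GY (AY ∩ Q) := by
  by_cases k : AY ⊆ Q
  · rwa [Set.inter_eq_left.2 k]
  obtain ⟨z, z1, z2⟩ := Set.not_subset.1 k
  intro a ha b hb
  obtain ⟨u, u1, w, w1, e1, e2⟩ := (hc a ha.1 z z1).exit ha z2
  obtain ⟨u', u2, w', w2, e3, e4⟩ := (hc b hb.1 z z1).exit hb z2
  have m1 := pair_mem_sA u1.1 w1.1 (Or.inr e1)
  have m2 := pair_mem_sA u2.1 w2.1 (Or.inr e3)
  have r := (h _ (fr_of_Line m1 (Finset.mem_insert_self _ _) (b := w) (by simp)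
    fun e => w1.2 (e.1 u1.2)) _ (fr_of_Line m2 (Finset.mem_insert_self _ _) (b := w') (by simp)
    fun e => w2.2 (e.1 u2.2))).mono (A := nb GY AY Q) fun _ h => ⟨h.1, h.2.1⟩
  exact e2.trans (((reach_nb_B4 m1 m2 (Finset.mem_insert_self _ _) (Finset.mem_insert_self _ _)
    u1.2 u2.2).1 r).trans e4.symm)

end aux

theorem line_hp (hA : Act Γ GY AY) (hP : Pl GY AY) (hC : Cv Γ GY AY G F q) (hf : F.Finite)
    (hT : TA Γ X) (hc : ∀ a b, X.Adj a b → ∃ c : Γ, ∀ g : Γ, (g • a = a ∧ g • b = b) ↔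
      g ∈ Subgroup.zpowers c)
    {ε : Y → T} (he : Eqv Γ AY ε) (hh : Hm GY AY X ε)
    (hu : ∀ x y, X.Adj x y → ∀ v ∈ HS AY X ε x y, Unb X ε (cmp GY (HS AY X ε x y) v)) :
    HP GY AY X ε := by
  intro x y hxy
  obtain ⟨c, hc⟩ := hc x y hxy
  refine pre_Line (Q := ε ⁻¹' half X x y) hP.con.2 ?_
  set M := fr GY AY (ε ⁻¹' half X x y) with hM
  have hi : ∀ g ∈ Subgroup.zpowers c, ∀ s ∈ M, g • s ∈ M := fun g hg s hs =>
    smul_fr_Line hA hT he ((hc g).2 hg) hs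
  have hf' : CoF (Subgroup.zpowers c) M := (hC.sd hA).cof (sA_finite hf) (fun _ h => h.1)
    fun g s hs hg => (hc g).1 (stab_Line hT he hh hxy hs hg)
  have one : ∀ s u w, (ε u ∈ half X x y ↔ ε w ∈ half X x y) →
      dl_Line (cmp (sG Y) M s) u w = 1 := fun s u w e => dl_one_Line (cmp_subset s) e
  have ne : ∀ s ∈ M, ∃ u ∈ AY, ∃ w ∈ AY, Adq GY u w ∧ dl_Line (cmp (sG Y) M s) u w ≠ 1 := by
    intro s hs
    obtain ⟨u, a1, w, a2, a3, a4⟩ := exists_pair_Line (clopen_cmp s) (mem_cmp_self hs)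
    exact ⟨u, a1, w, a2, a3, fun e => neg_ne_one ((if_pos a4).symm.trans e)⟩
  have inf : ∀ s ∈ M, (cmp (sG Y) M s).Infinite := fun s hs k => by
    obtain ⟨S, h1, h2⟩ := fin_side hP.mf hP.sco.ndc (flat_Line (clopen_cmp s)) (supp_Line k)
    exact key_Line hT.tree hxy hu (one s) (ne s hs) h2 (bound_Line h1 x)
  intro s hs t ht
  rcases cmp_eq_or_far (G := sG Y) (A := M) s t with e | e
  · exact (e.symm ▸ mem_cmp_self ht : t ∈ cmp (sG Y) M s).2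
  exfalso
  obtain ⟨n, n0, n1⟩ := period_Line (hA.sd hC) hf' hi (inf s hs)
  obtain ⟨m, m0, m1⟩ := period_Line (hA.sd hC) hf' hi (inf t ht)
  have p1 : Subgroup.zpowers (c ^ (n * m)) ≤ MulAction.stabilizer Γ (cmp (sG Y) M s) := by
    rw [Subgroup.zpowers_le, zpow_mul]
    exact Subgroup.zpow_mem _ n1 m
  have p2 : Subgroup.zpowers (c ^ (n * m)) ≤ MulAction.stabilizer Γ (cmp (sG Y) M t) := by
    rw [Subgroup.zpowers_le, mul_comm, zpow_mul]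
    exact Subgroup.zpow_mem _ m1 n
  have p3 : Subgroup.zpowers (c ^ (n * m)) ≤ Subgroup.zpowers c :=
    Subgroup.zpowers_le.2 (Subgroup.zpow_mem_zpowers c _)
  have cf := hf'.zpow (mul_ne_zero n0 m0)
  obtain ⟨S, h1, ⟨S0, h2, h3⟩, h4⟩ := two_side hA hP hC (c ^ (n * m))
    (flat_Line (clopen_cmp s)) (flat_Line (clopen_cmp t))
    (fun g hg u _ w _ _ => dl_smul_Line (p1 hg) u w)
    (fun g hg u _ w _ _ => dl_smul_Line (p2 hg) u w)
    (cof_Line (cf.mono (cmp_subset s))) (cof_Line (cf.mono (cmp_subset t)))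
  have hb : ∃ n, ∀ v ∈ S, X.dist (ε v) x < n := by
    obtain ⟨k, hk⟩ := bound_Line (X := X) (ε := ε) h2 x
    refine ⟨k, fun v hv => ?_⟩
    obtain ⟨g, g1, g2⟩ := h3 v hv
    have := hk _ g2
    rwa [he g v (h1 hv), ← ((hc g).2 (p3 g1)).1, hT.dist_smul] at this
  rcases h4 with k | k | k
  · exact key_Line hT.tree hxy hu (one s) (ne s hs) k hb
  · exact key_Line hT.tree hxy hu (one t) (ne t ht) k hb
  · refine key_Line hT.tree hxy hu (fun u w e => by rw [one s u w e, one t u w e, one_mul]) ?_ k hb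
    obtain ⟨u, a1, w, a2, a3, a4⟩ := ne s hs
    refine ⟨u, a1, w, a2, a3, fun e' => a4 ?_⟩
    have : dl_Line (cmp (sG Y) M t) u w = 1 := by_contra fun k =>
      e _ (dl_ne_Line a4) _ (dl_ne_Line k) (adq_refl _)
    rwa [this, mul_one] at e'

end Pool.Agent.MP_6374aa_g.BE

end

section

/-! The three minimisation steps. -/

namespace Pool.Agent.MP_6374aa_g.BE

open Pool.Agent.MP_6374aa_gt Classical Pointwise

variable {Γ : Type} [Group Γ] {Y V V' T T' U : Type} [MulAction Γ Y] [MulAction Γ T]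
  [MulAction Γ T'] {GY : SimpleGraph Y} {AY A : Set Y} {G H : SimpleGraph V} {F : Set V}
  {q : Y → V} {X : SimpleGraph T} {X' : SimpleGraph T'} {K : SimpleGraph U} {B Hi : Set U}
  {N Nm Np : Subgroup Γ} {L : Type} [Group L]

theorem bd_smul_Dn (hA : Act Γ GY AY) {α : Y → Set T} (hα : AS Γ GY AY X α) (g : Γ) :
    ∀ y ∈ AY ∩ Bd α, g • y ∈ AY ∩ Bd α := by
  rintro v ⟨hv, x, x', hne, hx, hx'⟩
  exact ⟨hA.mem g v hv, g • x, g • x', fun e => hne (MulAction.injective g e),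
    hα.eqv g v hv x hx, hα.eqv g v hv x' hx'⟩

theorem bd_ln_Dn {α : Y → Set T} (hα : AS Γ GY AY X α) {v : Y} (hv : v ∈ AY ∩ Bd α) :
    ∃ x x', X.Adj x x' ∧ v ∈ Ln AY α x x' := by
  obtain ⟨hv, x, x', hne, hx, hx'⟩ := hv
  exact ⟨x, x', (hα.toAS0.adq hv hx hx').resolve_left hne, hv, hx, hx'⟩

theorem cyc_Dn {S : Set U} {ty : T → U} (h : TAct Γ X K S ty N) (a b : T) (hab : X.Adj a b) :
    ∃ c : Γ, ∀ g : Γ, (g • a = a ∧ g • b = b) ↔ g ∈ Subgroup.zpowers c := by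
  obtain ⟨c, -, hc⟩ := h.cyc a b hab
  exact ⟨c, hc⟩

theorem dn1 (M : TM K B Hi Γ Nm Np) (hK : Two K B Hi) (hA : Act Γ GY AY) (hP : Pl GY AY)
    (hC : Cv Γ GY AY G F q) (hf : F.Finite) {ε : Y → M.T1} (he : Eqv Γ AY ε)
    (hh : Hm GY AY M.X1 ε) :
    ∃ ε' : Y → M.T1, Eqv Γ AY ε' ∧ Hm GY AY M.X1 ε' ∧ HP GY AY M.X1 ε' := by
  have hT := ta_of M.act1
  obtain ⟨y⟩ := M.act2.tree.connected.nonempty
  obtain ⟨y', hy⟩ := nbr2 M hK y
  obtain ⟨g, -, -, hg⟩ := nofix1 M hy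
  obtain ⟨ε', e1, e2, -, e4⟩ := min_col (Z := ∅) hT hA.mem hA.adj (fun _ _ h => h.elim)
    (hC.edges hA hf) (fun v hv => ⟨g, hP.con.2 v hv _ (hA.mem g v hv), hg⟩) he hh
  refine ⟨ε', e1, e2, line_hp hA hP hC hf hT (cyc_Dn M.act1) e1 e2 fun x y hxy v hv => ?_⟩
  exact (e4 x y hxy v hv).resolve_right fun ⟨_, h⟩ => h.2.elim

theorem dn2a (M : TM K B Hi Γ Nm Np) (hA : Act Γ GY AY) (hC : Cv Γ GY AY G F q) (hf : F.Finite)
    {α : Y → Set M.T1} (hα : AS Γ GY AY M.X1 α) {ε : Y → M.T2} (he : Eqv Γ AY ε)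
    (hh : Hm GY AY M.X2 ε) :
    ∃ ε' : Y → M.T2, Eqv Γ AY ε' ∧ GdL GY AY M.X1 α M.X2 ε' := by
  have hT := ta_of M.act2
  obtain ⟨E0, hE0, hE⟩ := hC.edges hA hf
  obtain ⟨ε', e1, e2, e3, e4⟩ := min_col (A := AY ∩ Bd α) (Z := ∅) hT (bd_smul_Dn hA hα) hA.adj
    (fun _ _ h => h.elim) ⟨E0, hE0, fun u hu w hw => hE u hu.1 w hw.1⟩
    (fun v hv => by
      obtain ⟨x, x', hx, hl⟩ := bd_ln_Dn hα hv
      obtain ⟨g, g1, g2, hg⟩ := nofix2 M hx
      refine ⟨g, ((hα.line x x' hx).2.1.2 v hl _ (hα.ln_smul hA g1 g2 hl)).mono ?_, hg⟩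
      exact fun w hw => ⟨hw.1, x, x', hx.ne, hw.2.1, hw.2.2⟩)
    (fun g v hv => he g v hv.1) (hh.mono Set.inter_subset_left)
  refine ⟨ε', fun g v hv => ?_, gdl_of_min hT.tree hα e2 fun y y' hy v hv =>
    (e4 y y' hy v hv).resolve_right fun ⟨_, h⟩ => h.2.elim⟩
  by_cases h : v ∈ AY ∩ Bd α
  · exact e1 g v h
  · have h' : g • v ∉ AY ∩ Bd α := fun k => h (by
      have k' := bd_smul_Dn hA hα g⁻¹ _ k
      rwa [inv_smul_smul] at k')
    rw [e3 _ (Or.inl h), e3 _ (Or.inl h')]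
    exact he g v hv

theorem dn2b (M : TM K B Hi Γ Nm Np) (hK : Two K B Hi) (hA : Act Γ GY AY) (hP : Pl GY AY)
    (hC : Cv Γ GY AY G F q) (hf : F.Finite) {α : Y → Set M.T1} (hα : AS Γ GY AY M.X1 α)
    {ε : Y → M.T2} (he : Eqv Γ AY ε) (hh : Hm GY AY M.X2 ε) (hg : GdL GY AY M.X1 α M.X2 ε) :
    ∃ ε' : Y → M.T2, Eqv Γ AY ε' ∧ Hm GY AY M.X2 ε' ∧ HP GY AY M.X2 ε' ∧
      GdL GY AY M.X1 α M.X2 ε' := by
  have hT := ta_of M.act2
  obtain ⟨x⟩ := M.act1.tree.connected.nonempty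
  obtain ⟨x', hx⟩ := nbr1 M hK x
  obtain ⟨g, -, -, hg'⟩ := nofix2 M hx
  obtain ⟨ε', e1, e2, e3, e4⟩ := min_col (Z := AY ∩ Bd α) hT hA.mem hA.adj (bd_smul_Dn hA hα)
    (hC.edges hA hf) (fun v hv => ⟨g, hP.con.2 v hv _ (hA.mem g v hv), hg'⟩) he hh
  have hg2 : GdL GY AY M.X1 α M.X2 ε' := hg.congr fun v hv => e3 v (Or.inr hv)
  refine ⟨ε', e1, e2, line_hp hA hP hC hf hT (cyc_Dn M.act2) e1 e2 fun y y' hy v hv => ?_, hg2⟩
  rcases e4 y y' hy v hv with h | ⟨w, hw, hz⟩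
  · exact h
  · obtain ⟨a, a', ha, hl⟩ := bd_ln_Dn hα hz
    have hw' : w ∈ HS (Ln AY α a a') M.X2 ε' y y' := ⟨hl, hw.1.2⟩
    have hs : HS (Ln AY α a a') M.X2 ε' y y' ⊆ HS AY M.X2 ε' y y' := fun u hu => ⟨hu.1.1, hu.2⟩
    exact (hg2.unb a a' ha y y' hy ⟨w, hw'⟩).mono ((hg2.hp a a' ha y y' hy).subset_cmp hs hw' hw)

end Pool.Agent.MP_6374aa_g.BE

end

section

/-! Shrinking the jumps of a colouring. -/

namespace Pool.Agent.MP_6374aa_g.BE

open Pool.Agent.MP_6374aa_gt Classical Pointwise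

variable {Γ : Type} [Group Γ] {Y V V' T T' U : Type} [MulAction Γ Y] [MulAction Γ T]
  [MulAction Γ T'] {GY : SimpleGraph Y} {AY A : Set Y} {G H : SimpleGraph V} {F : Set V}
  {q : Y → V} {X : SimpleGraph T} {X' : SimpleGraph T'} {K : SimpleGraph U} {B Hi : Set U}
  {N Nm Np : Subgroup Γ} {L : Type} [Group L]

theorem exists_eqv (hA : Act Γ GY AY) (hT : TA Γ X) : ∃ ε : Y → T, Eqv Γ AY ε := by
  have := hT.tree.connected.nonempty
  obtain ⟨ε, h, -⟩ := hA.choice (T := T) (fun _ _ => True)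
    (fun _ _ => ⟨Classical.arbitrary T, trivial⟩)
    fun _ _ _ _ _ => trivial
  exact ⟨ε, h⟩

theorem exists_jump (hA : Act Γ GY AY) (hC : Cv Γ GY AY G F q) (hf : F.Finite) (hT : TA Γ X)
    {ε : Y → T} (he : Eqv Γ AY ε) : ∃ d, Jump GY AY X ε d := by
  obtain ⟨E0, hE, h⟩ := hC.edges hA hf
  obtain ⟨d, hd⟩ := (hE.image fun p => X.dist (ε p.1) (ε p.2)).bddAbove
  refine ⟨d, fun u hu w hw huw => ?_⟩
  obtain ⟨g, hg⟩ := h u hu w hw huw
  have h1 : X.dist (ε (g • u)) (ε (g • w)) ≤ d := hd ⟨_, hg, rfl⟩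
  rwa [he g u hu, he g w hw, hT.dist_smul] at h1

theorem Jump.hm (hX : X.IsTree) {ε : Y → T} {d : ℕ} (h : Jump GY A X ε d) (hd : d ≤ 1) :
    Hm GY A X ε := by
  exact fun u hu w hw huw => (adq_iff_dist hX).2 ((h u hu w hw huw).trans hd)

/-- `c` is an admissible new colour for the simplex `s`. -/
def ctr_Shr (X : SimpleGraph T) (ε : Y → T) (d : ℕ) (s : Finset Y) (c : T) : Prop :=
  (∃ v ∈ s, c = ε v ∨ ∃ w ∈ s, X.Adj (ε v) c ∧ ε w ∈ half X (ε v) c) ∧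
    (∀ v ∈ s, X.dist (ε v) c ≤ d + 1) ∧
      ((∀ u ∈ s, ∀ w ∈ s, Adq X (ε u) (ε w)) → ∃ v ∈ s, c = ε v)

theorem ctr_ex_Shr (hX : X.IsTree) {ε : Y → T} {d : ℕ} (hj : Jump GY AY X ε (d + 2))
    {s : Finset Y} (hs : s ∈ sA GY AY) : ∃ c, ctr_Shr X ε d s c := by
  obtain ⟨⟨v, w⟩, hvw, hm⟩ := (s ×ˢ s).exists_max_image (fun p => X.dist (ε p.1) (ε p.2))
    (hs.1.product hs.1)
  obtain ⟨hv, hw⟩ := Finset.mem_product.1 hvw
  have hm' : ∀ x ∈ s, ∀ y ∈ s, X.dist (ε x) (ε y) ≤ X.dist (ε v) (ε w) := fun x hx y hy =>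
    hm (x, y) (Finset.mem_product.2 ⟨hx, hy⟩)
  have hD : X.dist (ε v) (ε w) ≤ d + 2 := by
    rcases (mem_sA.1 hs).2.2 v hv w hw with rfl | h
    · simp
    · exact hj v (hs.2.1 hv) w (hs.2.1 hw) h
  by_cases h1 : X.dist (ε v) (ε w) ≤ 1
  · exact ⟨ε v, ⟨v, hv, Or.inl rfl⟩, fun x hx => (hm' x hx v hv).trans (by omega),
      fun _ => ⟨v, hv, rfl⟩⟩
  · obtain ⟨c, hc, hb⟩ := exists_step hX (x := ε v) (z := ε w) fun e => h1 (by simp [e])
    refine ⟨c, ⟨v, hv, Or.inr ⟨w, hw, hc, hb⟩⟩, fun x hx => ?_,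
      fun h => (h1 ((adq_iff_dist hX).1 (h v hv w hw))).elim⟩
    rcases half_cases hX hc (ε x) with h2 | h2
    · have h3 := half_dist hX hc h2
      have h4 := hm' x hx v hv
      omega
    · have h3 := half_dist hX hc.symm h2
      have h4 := bridge hX hc hb h2
      have h5 := half_dist hX hc hb
      have h6 := hm' w hw x hx
      rw [X.dist_comm (u := ε v) (v := ε w)] at h6
      rw [X.dist_comm (u := ε v) (v := ε x)] at h4
      omega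

theorem ctr_smul_Shr (hT : TA Γ X) {ε : Y → T} (he : Eqv Γ AY ε) {d : ℕ} {s : Finset Y}
    (hs : ↑s ⊆ AY) (g : Γ) {c : T} (h : ctr_Shr X ε d s c) : ctr_Shr X ε d (g • s) (g • c) := by
  obtain ⟨⟨v, hv, h1⟩, h2, h3⟩ := h
  refine ⟨⟨g • v, smul_mem_smul_fin.2 hv, ?_⟩, fun x hx => ?_, fun h => ?_⟩
  · rw [he g v (hs hv)]
    rcases h1 with rfl | ⟨w, hw, h4, h5⟩
    · exact Or.inl rfl
    · refine Or.inr ⟨g • w, smul_mem_smul_fin.2 hw, hT.adj g _ _ h4, ?_⟩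
      rw [he g w (hs hw)]
      exact (hT.half_smul g).2 h5
  · obtain ⟨u, hu, rfl⟩ := mem_smul_fin.1 hx
    rw [he g u (hs hu), hT.dist_smul]
    exact h2 u hu
  · obtain ⟨u, hu, rfl⟩ := h3 fun u hu w hw => by
      have h4 := hT.adq g⁻¹ (h _ (smul_mem_smul_fin.2 hu) _ (smul_mem_smul_fin.2 hw))
      rwa [he g u (hs hu), he g w (hs hw), inv_smul_smul, inv_smul_smul] at h4
    exact ⟨g • u, smul_mem_smul_fin.2 hu, (he g u (hs hu)).symm⟩

theorem ctr_jump_Shr (hX : X.IsTree) {ε : Y → T} {d : ℕ} {s t : Finset Y} (hst : s ⊆ t)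
    {c c' : T} (h : ctr_Shr X ε d s c) (h' : ctr_Shr X ε d t c') : X.dist c c' ≤ d + 1 := by
  obtain ⟨⟨v, hv, rfl | ⟨w, hw, h1, h2⟩⟩, -⟩ := h
  · exact h'.2.1 v (hst hv)
  · have h3 := h'.2.1 v (hst hv)
    have h4 := h'.2.1 w (hst hw)
    rw [SimpleGraph.dist_comm]
    rcases half_cases hX h1 c' with h5 | h5
    · have h6 := half_dist hX h1 h5
      rw [SimpleGraph.dist_comm] at h3
      omega
    · have h6 := half_dist hX h1.symm h5
      have h7 := bridge hX h1 h2 h5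
      rw [X.dist_comm (u := ε v)] at h7
      omega

theorem shrink (hA : Act Γ GY AY) (hC : Cv Γ GY AY G F q) (hT : TA Γ X) {ε : Y → T}
    (he : Eqv Γ AY ε) {d : ℕ} (hj : Jump GY AY X ε (d + 2)) :
    ∃ ε' : Finset Y → T, Eqv Γ (sA GY AY) ε' ∧ Jump (sG Y) (sA GY AY) X ε' (d + 1) ∧
      ∀ s ∈ sA GY AY, (∀ u ∈ s, ∀ w ∈ s, Adq X (ε u) (ε w)) → ∃ v ∈ s, ε' s = ε v := by
  have := hT.tree.connected.nonempty
  have hX := hT.tree
  obtain ⟨ε', h1, h2⟩ := (hA.sd hC).choice (ctr_Shr X ε d) (fun s hs => ctr_ex_Shr hX hj hs)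
    fun g s hs c hc => ctr_smul_Shr hT he hs.2.1 g hc
  refine ⟨ε', h1, fun s hs t ht hst => ?_, fun s hs => (h2 s hs).2.2⟩
  rcases hst with hst | hst
  · exact ctr_jump_Shr hX hst.subset (h2 s hs) (h2 t ht)
  · rw [SimpleGraph.dist_comm]
    exact ctr_jump_Shr hX hst.subset (h2 t ht) (h2 s hs)

end Pool.Agent.MP_6374aa_g.BE

end

section

/-! The state: initial value and subdivision. -/

namespace Pool.Agent.MP_6374aa_g.BE

open Pool.Agent.MP_6374aa_gt Classical Pointwise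

variable {Γ : Type} [Group Γ] {Y V V' T T' U : Type} [MulAction Γ Y] [MulAction Γ T]
  [MulAction Γ T'] {GY : SimpleGraph Y} {AY A : Set Y} {G H : SimpleGraph V} {F : Set V}
  {q : Y → V} {X : SimpleGraph T} {X' : SimpleGraph T'} {K : SimpleGraph U} {B Hi : Set U}
  {N Nm Np : Subgroup Γ} {L : Type} [Group L]

/-- The deck action on the regular cover. -/
@[reducible] def act_Kil (V Γ : Type) [Group Γ] : MulAction Γ (V × Γ) where
  smul g p := (p.1, p.2 * g⁻¹)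
  one_smul p := by
    change (p.1, p.2 * 1⁻¹) = p
    simp
  mul_smul g g' p := by
    change (p.1, p.2 * (g * g')⁻¹) = (p.1, p.2 * g'⁻¹ * g⁻¹)
    simp [mul_assoc]

theorem isact_Kil (ρ : V → V → Γ) : @Act Γ _ (V × Γ) (act_Kil V Γ) (cov G ρ Γ) (up F Γ) := by
  let _ := act_Kil V Γ
  refine ⟨fun _ _ hy => hy, fun g y y' h => (cov_deck ρ g⁻¹ y y').2 h, fun g y _ h => ?_⟩
  have e : y.2 * g⁻¹ = y.2 := congrArg Prod.snd h
  simpa using e

theorem cv_Kil {ρ : V → V → Γ} (hρ : Flat G F ρ) :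
    @Cv Γ _ (V × Γ) V (act_Kil V Γ) (cov G ρ Γ) (up F Γ) G F Prod.fst := by
  let _ := act_Kil V Γ
  refine ⟨fun _ hy => hy, fun _ _ _ _ h => h.1, fun _ _ _ => rfl, fun y _ y' _ h => ?_,
    fun y _ y1 _ y2 _ h1 h2 h => ?_, fun s hs => ?_⟩
  · refine ⟨y'.2⁻¹ * y.2, ?_⟩
    change y' = (y.1, y.2 * (y'.2⁻¹ * y.2)⁻¹)
    exact Prod.ext h.symm (by simp)
  · exact Prod.ext h (by rw [h1.2.2, h2.2.2, h])
  · obtain ⟨a, ha⟩ := hs.1
    obtain ⟨t, ⟨h1, -, h2⟩, -⟩ := cov_lift_clique hρ hs ha (1 : Γ)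
    exact ⟨t, h1, h2⟩

theorem kill_Kil {ρ : V → V → Γ} (hρ : UL G F ρ) {W Fm : Set U} {p : U → V} {i : V → U}
    (hi : IsIso G F K Fm i) (hpi : ∀ a ∈ F, p (i a) = a) (hW : Fm ⊆ W) (hN : N.Normal)
    (hk : Kill K Fm W (pull p ρ) N) :
    @KillY Γ _ (V × Γ) U (act_Kil V Γ) (cov G ρ Γ) (up F Γ) K W (i ∘ Prod.fst) N := by
  let _ := act_Kil V Γ
  intro L _ lab hl
  have hq : IsHom (cov G ρ Γ) (up F Γ) K Fm (i ∘ Prod.fst) :=
    IsHom.comp hi.isHom (up_hom_GrB1 ρ)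
  obtain ⟨φ, hφ⟩ := hρ.cov_sco L _ (flat_pull (hl.mono hW) hq)
  refine ⟨φ, hφ, fun g hg y hy => ?_⟩
  have hy' : ((y.1, y.2 * g⁻¹) : V × Γ) ∈ up F Γ := hy
  obtain ⟨l, hw⟩ := (hρ.cov_con.2 y hy _ hy').wk hy
  have e1 := ev_of_pot hφ hw
  have e2 : ev (pull p ρ) (i y.1) (l.map (i ∘ Prod.fst)) = y.2 * g * y.2⁻¹ := by
    have k1 := ev_pull (i ∘ Prod.fst) (pull p ρ) y l
    have k2 : ev (pull (i ∘ Prod.fst) (pull p ρ)) y l = ev (pull Prod.fst ρ) y l :=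
      ev_congr (fun u hu w hw' _ => by
        change ρ (p (i u.1)) (p (i w.1)) = ρ u.1 w.1
        rw [hpi _ hu, hpi _ hw']) hw
    have k3 := (hw.proj hρ.flat).2
    rw [k2, ev_pull] at k1
    change y.2 = ev ρ y.1 (l.map Prod.fst) * (y.2 * g⁻¹) at k3
    refine k1.symm.trans ?_
    rw [eq_mul_inv_iff_mul_eq, ← mul_inv_eq_iff_eq_mul, mul_assoc]
    exact k3.symm
  have e3 := hk (i y.1) _ (hw.map hq) (e2 ▸ hN.conj_mem g hg y.2) L lab hl
  rw [ev_pull] at e1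
  have e4 : φ y * (φ (y.1, y.2 * g⁻¹))⁻¹ = 1 := e1.symm.trans e3
  exact (mul_inv_eq_one.1 e4).symm

theorem base_init {Z : Cx} (S : Surf Z Γ Nm Np) (hm : Nm.Normal) (hp : Np.Normal) :
    ∃ b : Base Γ, b.X = Z ∧ b.OK Nm Np := by
  obtain ⟨a, ha⟩ := S.ul.con.1
  obtain ⟨u, -, -⟩ := S.cut.isom.1.surjOn ha
  have : Nonempty S.U := ⟨u⟩
  have : Nonempty (Z.V × Γ) := ⟨(a, 1)⟩
  obtain ⟨im, hm1, -, hm2⟩ := S.cut.isom.exists_inv
  obtain ⟨ip, hp1, -, hp2⟩ := S.cut.isop.exists_inv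
  let _ := act_Kil Z.V Γ
  refine ⟨{ X := Z, F := S.F, U := S.U, H := S.H, W := S.W, Tb := S.Fm ∪ S.Fp, Fm := S.Fm,
            Fp := S.Fp, p := S.p, Y := Z.V × Γ, act := act_Kil Z.V Γ, GY := cov Z.G S.ρ Γ,
            AY := up S.F Γ, qm := im ∘ Prod.fst, qp := ip ∘ Prod.fst }, rfl,
    S.fin, S.mf, Set.inter_eq_right.2 (Set.union_subset S.cut.subm S.cut.subp), S.cut,
    isact_Kil S.ρ, ⟨Mf.cov S.ul.flat S.clF.2.2, S.ul.cov_con, S.ul.cov_sco⟩,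
    (cv_Kil S.ul.flat).comp hm1, (cv_Kil S.ul.flat).comp hp1,
    fun y hy => (hm2 _ hy).trans (hp2 _ hy).symm,
    kill_Kil S.ul hm1 hm2 S.cut.subm hm S.killm, kill_Kil S.ul hp1 hp2 S.cut.subp hp S.killp⟩

end Pool.Agent.MP_6374aa_g.BE

end

section

/-! Block E: the assembly. -/

namespace Pool.Agent.MP_6374aa_g.BE

open Pool.Agent.MP_6374aa_gt Classical Pointwise

noncomputable section

variable {Γ : Type} [Group Γ] {T T1 U : Type} [MulAction Γ T] {X : SimpleGraph T}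
  {K : SimpleGraph U} {B Hi : Set U} {N Nm Np : Subgroup Γ}

/-- Some subdivision contains a labelled polyhedron. -/
def Goal (K : SimpleGraph U) (B : Set U) (Z : Cx) : Prop :=
  ∃ (k : ℕ) (P : Set (Cx.sd^[k] Z).V) (ℓ : (Cx.sd^[k] Z).V → Finset U),
    LabP (Cx.sd^[k] Z).G (Cx.sd^[k] Z).A K B P ℓ

theorem Goal.of_sd {Z : Cx} (h : Goal K B Z.sd) : Goal K B Z :=
  let ⟨k, P, ℓ, h⟩ := h
  ⟨k + 1, P, ℓ, h⟩

theorem shrink_loop (hT : TA Γ X) (I : ∀ b : Base Γ, (b.Y → T) → Prop)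
    (h1 : ∀ b ε, I b ε → b.OK Nm Np ∧ Eqv Γ b.AY ε)
    (h2 : ∀ b ε (ε' : b.sd.Y → T), I b ε → Eqv Γ b.sd.AY ε' →
      (∀ s ∈ sA b.GY b.AY, (∀ u ∈ s, ∀ w ∈ s, Adq X (ε u) (ε w)) → ∃ v ∈ s, ε' s = ε v) →
      I b.sd ε')
    (h3 : ∀ b ε, I b ε → Hm b.GY b.AY X ε → Goal K B b.X) (b : Base Γ) (ε : b.Y → T)
    (h : I b ε) : Goal K B b.X := by
  have key : ∀ (d : ℕ) (b : Base Γ) (ε : b.Y → T), I b ε → Jump b.GY b.AY X ε (d + 1) →
      Goal K B b.X := by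
    intro d
    induction d with
    | zero => exact fun b ε h hj => h3 b ε h (hj.hm hT.tree le_rfl)
    | succ d ih =>
      intro b ε h hj
      obtain ⟨ho, he⟩ := h1 b ε h
      obtain ⟨ε', e1, e2, e3⟩ := shrink ho.act ho.cvm hT he hj
      exact Goal.of_sd (ih b.sd ε' (h2 b ε ε' h e1 e3) e2)
  obtain ⟨ho, he⟩ := h1 b ε h
  obtain ⟨d, hd⟩ := exists_jump ho.act ho.cvm ho.finm hT he
  exact key d b ε h fun u hu w hw huw => (hd u hu w hw huw).trans (Nat.le_succ d)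

/-- The state during an application of the disc theorem. -/
structure St (Γ : Type) [Group Γ] (T T1 U : Type) where
  b : Base Γ
  W2 : Set b.U
  T2 : Set b.U
  Fs : Set b.U
  ε : b.Y → T
  col : b.U → U
  α : b.Y → Set T1
  D : Finset U → Set b.U

def St.sd [LinearOrder U] (ty : T → U) (s : St Γ T T1 U) : St Γ T T1 U where
  b := s.b.sd
  W2 := sA s.b.H s.W2
  T2 := ins s.T2
  Fs := sA s.b.H s.Fs
  ε := fun t => s.ε (mx (fun v => ty (s.ε v)) t)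
  col := fun t => s.col (mx s.col t)
  α := itr s.α
  D := fun e => sA s.b.H (s.D e)

def St.toCol (s : St Γ T T1 U) : Col U where
  V := s.b.U
  G := s.b.H
  W := s.W2
  T := s.T2
  F := s.Fs
  col := s.col

/-- The conclusion of the disc theorem. -/
def PD (E : Set (Finset U)) (C : Col U) : Prop :=
  ∃ D : Finset U → Set (Finset C.V), Discs (sG C.V) (sA C.G C.W) (ins C.T) E C.curve D

omit [MulAction Γ T] in
theorem iter_ed [LinearOrder U] (ty : T → U) (I : St Γ T T1 U → Prop)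
    (hI : ∀ s, I s → I (s.sd ty)) (E : Set (Finset U))
    (hP : ∀ s, I s → PD E s.toCol → Goal K B s.b.X) (k : ℕ) :
    ∀ s, I s → PD E (Col.sd^[k] s.toCol) → Goal K B s.b.X := by
  induction k with
  | zero => exact hP
  | succ k ih => exact fun s h hp => Goal.of_sd (ih (s.sd ty) (hI s h) hp)

theorem ed_app (hED : ED_st) [LinearOrder U] (s : St Γ T T1 U) {q : s.b.Y → s.b.U} {S : Set U}
    {ty : T → U} (ho : s.b.OK Nm Np) (hC : Cv Γ s.b.GY s.b.AY s.b.H s.Fs q) (hf : s.W2.Finite)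
    (hm : Mf s.b.H 3 s.W2 s.T2) (hcl : Clopen s.b.H (s.W2 ∩ s.T2) s.Fs)
    (hT : TAct Γ X K S ty N) (hD : Deep Γ X) (he : Eqv Γ s.b.AY s.ε) (hh : Hm s.b.GY s.b.AY X s.ε)
    (hp : HP s.b.GY s.b.AY X s.ε) (hk : KillY s.b.GY s.b.AY s.b.H s.W2 q N)
    (hc : ∀ v ∈ s.b.AY, s.col (q v) = ty (s.ε v)) (hE : (edg K S).Finite)
    (hx : ∀ e ∈ edg K S, ∃ x y, X.Adj x y ∧ ∀ a, a ∈ e ↔ a = ty x ∨ a = ty y) :
    ∃ k, PD (edg K S) (Col.sd^[k] s.toCol) := by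
  have hW : s.Fs ⊆ s.W2 := fun u hu => (hcl.1 hu).1
  obtain ⟨k, D, h1, h2⟩ := hED U s.toCol (edg K S) hE (fun e h => h.2) hf hm hcl
    (fun t ht => by
      obtain ⟨a, b, hab⟩ := edh_two hC hT hh hc ht
      refine (Finset.card_le_card (t := {a, b}) fun u hu => ?_).trans Finset.card_le_two
      obtain ⟨v, hv, rfl⟩ := Finset.mem_image.1 hu
      exact Finset.mem_insert.2 ((hab v hv).imp id Finset.mem_singleton.2))
    (fun e h => by
      obtain ⟨x, y, hxy, hxe⟩ := hx e h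
      have h3 : s.toCol.curve e = _ := edh_eq hC hT hh hc h.2
      rw [h3]
      exact edh ho.act ho.pl hC (hf.subset hW) hT hD he hh hp hW hk hxy hxe)
  exact ⟨k, D, fun e h => (h1 e h).1, fun e h => (h1 e h).2.1, fun e h => (h1 e h).2.2, h2⟩

theorem exists_col {Y V : Type} [MulAction Γ Y] [Nonempty Y] {GY : SimpleGraph Y} {AY : Set Y}
    {G : SimpleGraph V} {F : Set V} {q : Y → V} {S : Set U} {ty : T → U}
    (hC : Cv Γ GY AY G F q) (hT : TAct Γ X K S ty N) {ε : Y → T} (he : Eqv Γ AY ε) :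
    ∃ col : V → U, ∀ v ∈ AY, col (q v) = ty (ε v) := by
  refine ⟨fun u => ty (ε (Classical.epsilon fun v => v ∈ AY ∧ q v = u)), fun v hv => ?_⟩
  have h := Classical.epsilon_spec (p := fun w => w ∈ AY ∧ q w = q v) ⟨v, hv, rfl⟩
  obtain ⟨g, hg⟩ := hC.orb v hv _ h.1 h.2.symm
  dsimp only
  rw [hg, he g v hv, hT.inv]

variable (M : TM K B Hi Γ Nm Np)

/-- The state after the first system of discs is found. -/
structure S2 (b : Base Γ) (α : b.Y → Set M.T1) (D : Finset U → Set b.U) (W2 T2 : Set b.U) :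
    Prop where
  ok : b.OK Nm Np
  as : AS Γ b.GY b.AY M.X1 α
  discs : Discs b.H b.W b.Tb (edg K (B ∩ Hi)) (Crv b.AY b.qm α M.ty1) D
  av : Av b.H b.W b.Tb b.Fp W2 T2 (edg K (B ∩ Hi)) D
  kill : KillY b.GY b.AY b.H W2 b.qp Np

variable {M}

theorem S2.sd {b : Base Γ} {α : b.Y → Set M.T1} {D : Finset U → Set b.U} {W2 T2 : Set b.U}
    (h : S2 M b α D W2 T2) :
    S2 M b.sd (itr α) (fun e => sA b.H (D e)) (sA b.H W2) (ins T2) :=
  ⟨h.ok.sd, h.as.sd, h.discs.sd fun _ he => crv_sd h.ok.act h.ok.cvm M.act1 h.as he.2, h.av.sd,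
    h.kill.sd h.ok.act h.ok.cvp fun _ hu => (h.av.clopen.1 hu).1⟩

variable (M) in
/-- The state at the second application of the disc theorem. -/
structure I2 (s : St Γ M.T2 M.T1 U) : Prop where
  s2 : S2 M s.b s.α s.D s.W2 s.T2
  fs : s.Fs = s.b.Fp
  eqv : Eqv Γ s.b.AY s.ε
  hm : Hm s.b.GY s.b.AY M.X2 s.ε
  hp : HP s.b.GY s.b.AY M.X2 s.ε
  gl : GdL s.b.GY s.b.AY M.X1 s.α M.X2 s.ε
  col : ∀ v ∈ s.b.AY, s.col (s.b.qp v) = M.ty2 (s.ε v)

theorem I2.sd [LinearOrder U] {s : St Γ M.T2 M.T1 U} (h : I2 M s) : I2 M (s.sd M.ty2) := by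
  have hp : Prop1 s.b.GY s.b.AY s.ε (s.sd M.ty2).ε := fun t ht =>
    ⟨_, (mx_spec (fun v => M.ty2 (s.ε v)) ht.1).1, rfl⟩
  exact ⟨h.s2.sd, congrArg (sA s.b.H) h.fs, pro_eqv h.s2.ok.act M.act2 h.eqv h.hm, h.hm.prop hp,
    h.hp.prop hp, h.gl.prop fun t ht _ => hp t ht, fun t ht => pro_col h.col ht⟩

theorem I2.goal (hK : Two K B Hi) {s : St Γ M.T2 M.T1 U} (h : I2 M s)
    (hd : PD (edg K (B \ Hi)) s.toCol) : Goal K B s.b.X := by
  obtain ⟨D2, hD2⟩ := hd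
  have ho := h.s2.ok
  have hf : Fin2 M s.b.GY s.b.AY s.b.X.G s.b.F (s.b.p ∘ s.b.qm) s.α s.ε :=
    ⟨hK, ho.act, ho.pl, ho.cv, ho.finF, h.s2.as, h.eqv, h.hm, h.hp, h.gl⟩
  obtain ⟨ℓ, hl⟩ := hf.lspec_ex
  have h2 := h.s2.sd
  have hsub : ∀ e ∈ edg K (B \ Hi), D2 e ⊆ sA s.b.H s.W2 := hD2.sub
  have hcur : ∀ e ∈ edg K (B \ Hi), D2 e ∩ ins s.T2 =
      {u | u ∈ sA s.b.H s.b.Fp ∧ e ⊆ ℓ (u.image s.b.p)} := fun e he => by
    have h3 : s.toCol.curve e = {t | t ∈ sA s.b.H s.Fs ∧ t.image s.col = e} := rfl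
    refine (hD2.bd e he).trans (h3.trans ?_)
    rw [h.fs, edh_eq ho.cvp M.act2 h.hm h.col he.2]
    exact hf.crv2 hl ho.cvp (fun y hy => (ho.comm y hy).symm) he.1.2.1
  have hT : ∀ e ∈ edg K (B \ Hi), ∀ t ∈ D2 e, t ∈ ins s.T2 ↔ t ∈ ins s.b.Tb := fun e he t ht => by
    refine ⟨fun h3 => ?_, fun h3 => h2.av.bd ⟨hsub e he ht, h3⟩⟩
    have h4 : t ∈ sA s.b.H s.b.Fp := ((hcur e he).subset ⟨ht, h3⟩).1
    exact (h2.ok.bd.symm.subset (Or.inr h4)).2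
  obtain ⟨P, ℓ', hP⟩ := fin_lab (D1 := fun e => sA s.b.H (s.D e)) (D2 := D2) hK h2.ok.cut h2.ok.bd
    (hf.labF hl)
    (fun e he => ⟨h2.discs.sub e he, h2.discs.ball e he,
      (h2.discs.bd e he).trans (hf.crv1 hl ho.cvm (fun _ _ => rfl) he.1.2.1)⟩)
    (fun e he => ⟨(hsub e he).trans h2.av.sub,
      (IsIso.ball isIso_id (T := ins s.T2) fun t ht => (hT e he t ht).symm).2 (hD2.ball e he),
      Eq.trans (Set.ext fun t => and_congr_right fun ht => (hT e he t ht).symm) (hcur e he)⟩)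
    (fun e he e' he' hne => (h2.discs.far e he e' he' hne).disjoint)
    (fun e he e' he' hne => (hD2.far e he e' he' hne).disjoint)
    fun e he e' he' => ((h2.av.disj e he).mono_left (hsub e' he')).symm
  exact ⟨2, P, ℓ', hP⟩

theorem stage2 (hED : ED_st) (hK : Two K B Hi) {b : Base Γ} {α : b.Y → Set M.T1}
    {D : Finset U → Set b.U} {W2 T2 : Set b.U} (h : S2 M b α D W2 T2) : Goal K B b.X := by
  let _ : LinearOrder U := linearOrderOfSTO WellOrderingRel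
  have hT := ta_of M.act2
  have c : ∀ (b : Base Γ) (ε : b.Y → M.T2), (∃ α D W2 T2, S2 M b α D W2 T2 ∧ Eqv Γ b.AY ε ∧
      GdL b.GY b.AY M.X1 α M.X2 ε) → Goal K B b.X := by
    refine shrink_loop (Nm := Nm) (Np := Np) hT _ ?_ ?_ ?_
    · rintro b ε ⟨α, D, W2, T2, h, he, -⟩
      exact ⟨h.ok, he⟩
    · rintro b ε ε' ⟨α, D, W2, T2, h, -, hg⟩ he hp
      exact ⟨_, _, _, _, h.sd, he, hg.prop hp⟩
    · rintro b ε ⟨α, D, W2, T2, h, he, hg⟩ hh
      obtain ⟨ε', e1, e2, e3, e4⟩ := dn2b M hK h.ok.act h.ok.pl h.ok.cvm h.ok.finm h.as he hh hg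
      obtain ⟨col, hc⟩ := exists_col h.ok.cvp M.act2 e1
      let s : St Γ M.T2 M.T1 U := ⟨b, W2, T2, b.Fp, ε', col, α, D⟩
      obtain ⟨k, hk⟩ := ed_app hED s h.ok h.ok.cvp (h.ok.fin.subset h.av.sub) h.av.mf h.av.clopen
        M.act2 (deep2 M hK) e1 e2 e3 h.kill hc (edg_finite hK Set.diff_subset)
        fun e he => edge2 M hK he
      exact iter_ed M.ty2 (I2 M) (fun _ => I2.sd) _ (fun _ => I2.goal hK) k s
        ⟨h, rfl, e1, e2, e3, e4, hc⟩ hk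
  obtain ⟨ε, he⟩ := exists_eqv h.ok.act hT
  refine shrink_loop (Nm := Nm) (Np := Np) hT
    (fun b ε => ∃ α D W2 T2, S2 M b α D W2 T2 ∧ Eqv Γ b.AY ε) ?_ ?_ ?_ b ε ⟨α, D, W2, T2, h, he⟩
  · rintro b ε ⟨α, D, W2, T2, h, he⟩
    exact ⟨h.ok, he⟩
  · rintro b ε ε' ⟨α, D, W2, T2, h, -⟩ he -
    exact ⟨_, _, _, _, h.sd, he⟩
  · rintro b ε ⟨α, D, W2, T2, h, he⟩ hh
    obtain ⟨ε', e1, e2⟩ := dn2a M h.ok.act h.ok.cvm h.ok.finm h.as he hh
    exact c b ε' ⟨α, D, W2, T2, h, e1, e2⟩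

variable (M) in
/-- The state at the first application of the disc theorem. -/
structure I1 (s : St Γ M.T1 M.T1 U) : Prop where
  ok : s.b.OK Nm Np
  w : s.W2 = s.b.W
  t : s.T2 = s.b.Tb
  fs : s.Fs = s.b.Fm
  eqv : Eqv Γ s.b.AY s.ε
  hm : Hm s.b.GY s.b.AY M.X1 s.ε
  hp : HP s.b.GY s.b.AY M.X1 s.ε
  col : ∀ v ∈ s.b.AY, s.col (s.b.qm v) = M.ty1 (s.ε v)

theorem I1.sd [LinearOrder U] {s : St Γ M.T1 M.T1 U} (h : I1 M s) : I1 M (s.sd M.ty1) := by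
  have hp : Prop1 s.b.GY s.b.AY s.ε (s.sd M.ty1).ε := fun t ht =>
    ⟨_, (mx_spec (fun v => M.ty1 (s.ε v)) ht.1).1, rfl⟩
  exact ⟨h.ok.sd, congrArg (sA s.b.H) h.w, congrArg ins h.t, congrArg (sA s.b.H) h.fs,
    pro_eqv h.ok.act M.act1 h.eqv h.hm, h.hm.prop hp, h.hp.prop hp, fun t ht => pro_col h.col ht⟩

theorem stage1b (hED : ED_st) (hK : Two K B Hi) {b : Base Γ} (ho : b.OK Nm Np)
    {α : b.Y → Set M.T1} (hα : AS Γ b.GY b.AY M.X1 α) {D : Finset U → Set b.U}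
    (hD : Discs b.H b.W b.Tb (edg K (B ∩ Hi)) (Crv b.AY b.qm α M.ty1) D) : Goal K B b.X := by
  obtain ⟨W2, T2, h1, h2⟩ := avoid ho.fin ho.mf ho.bd ho.cut.far hD
    fun e _ => crv_subset ho.cvm α e
  have hD1 := hD.sd fun _ he => crv_sd ho.act ho.cvm M.act1 hα he.2
  have hD2 := hD1.sd fun _ he => crv_sd ho.sd.act ho.sd.cvm M.act1 hα.sd he.2
  refine Goal.of_sd (Goal.of_sd (stage2 (M := M) (b := b.sd.sd) hED hK
    ⟨ho.sd.sd, hα.sd.sd, hD2, h1, ?_⟩))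
  exact KillY.of_extl ho.sd.sd.cvp (fun _ hu => (h1.clopen.1 hu).1) h2 ho.sd.sd.killp

theorem I1.goal (hED : ED_st) (hK : Two K B Hi) {s : St Γ M.T1 M.T1 U} (h : I1 M s)
    (hd : PD (edg K (B ∩ Hi)) s.toCol) : Goal K B s.b.X := by
  obtain ⟨D, hD⟩ := hd
  have ho := h.ok
  have hD' : Discs (sG s.b.U) (sA s.b.H s.W2) (ins s.T2) (edg K (B ∩ Hi)) s.toCol.curve D := hD
  rw [h.w, h.t] at hD'
  refine Goal.of_sd (stage1b (M := M) (b := s.b.sd) hED hK ho.sd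
    (as_init ho.act ho.pl (ta_of M.act1) (deep1 M hK) h.eqv h.hm h.hp) (D := D)
    ⟨hD'.sub, hD'.ball, fun e he => (hD'.bd e he).trans ?_, hD'.far⟩)
  have h3 : s.toCol.curve e = {t | t ∈ sA s.b.H s.Fs ∧ t.image s.col = e} := rfl
  rw [h3, h.fs]
  exact edh_eq ho.cvm M.act1 h.hm h.col he.2

theorem stage1 (hED : ED_st) (hK : Two K B Hi) (M : TM K B Hi Γ Nm Np) {b : Base Γ}
    (ho : b.OK Nm Np) : Goal K B b.X := by
  let _ : LinearOrder U := linearOrderOfSTO WellOrderingRel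
  have hT := ta_of M.act1
  obtain ⟨ε, he⟩ := exists_eqv ho.act hT
  refine shrink_loop (Nm := Nm) (Np := Np) hT (fun b ε => b.OK Nm Np ∧ Eqv Γ b.AY ε)
    (fun _ _ h => h) (fun b ε ε' h he _ => ⟨h.1.sd, he⟩) ?_ b ε ⟨ho, he⟩
  rintro b ε ⟨ho, he⟩ hh
  obtain ⟨ε', e1, e2, e3⟩ := dn1 M hK ho.act ho.pl ho.cvm ho.finm he hh
  obtain ⟨col, hc⟩ := exists_col ho.cvm M.act1 e1
  let s : St Γ M.T1 M.T1 U := ⟨b, b.W, b.Tb, b.Fm, ε', col, fun _ => ∅, fun _ => ∅⟩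
  obtain ⟨k, hk⟩ := ed_app hED s ho ho.cvm ho.fin ho.mf ho.clopenm M.act1 (deep1 M hK) e1 e2 e3
    ho.killm hc (edg_finite hK Set.inter_subset_left) fun e he => edge1 M hK he
  exact iter_ed M.ty1 (I1 M) (fun _ => I1.sd) _ (fun _ => I1.goal hED hK) k s
    ⟨ho, rfl, rfl, rfl, e1, e2, e3, hc⟩ hk

end

end Pool.Agent.MP_6374aa_g.BE

namespace Pool.Agent.MP_6374aa_g

theorem e_of (hED : ED_st) : E_st := by
  rintro X U K B Hi Γ _ Nm Np hK ⟨M⟩ ⟨S⟩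
  obtain ⟨b, rfl, ho⟩ := BE.base_init S M.act1.normal M.act2.normal
  exact BE.stage1 hED hK M ho

end Pool.Agent.MP_6374aa_g

end

section

/-! Block F: definitions and basic facts about labelled polyhedra. -/

namespace Pool.Agent.MP_6374aa_g

open Pool.Agent.MP_6374aa_gt Classical

variable {V U : Type}

/-- The cell of the labelled polyhedron dual to `s`. -/
def CC (P : Set V) (ℓ : V → Finset U) (s : Finset U) : Set V := {x | x ∈ P ∧ s ⊆ ℓ x}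

/-- A labelled polyhedron in which adjacent vertices have comparable labels. -/
structure LabS (G : SimpleGraph V) (A : Set V) (K : SimpleGraph U) (B : Set U) (P : Set V)
    (ℓ : V → Finset U) : Prop where
  clA : Cl G 3 A
  clB : Cl K 3 B
  subset : P ⊆ A
  mem : ∀ x ∈ P, ℓ x ∈ sA K B ∧ 2 ≤ (ℓ x).card
  cmp : ∀ x ∈ P, ∀ y ∈ P, G.Adj x y → ℓ x ⊆ ℓ y ∨ ℓ y ⊆ ℓ x
  cell : ∀ s ∈ sA K B, 2 ≤ s.card → Ball G (5 - s.card) (CC P ℓ s) {x | s ⊂ ℓ x}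

/-- The mixed simplices on the side `τ` of `c`. -/
def Frs (G : SimpleGraph V) (A c : Set V) (τ : V → Set V) : Set (Finset V) :=
  {s | s ∈ sA G A ∧ ∃ x ∈ s, x ∈ c ∧ ∃ y ∈ s, y ∈ τ x}

/-- For every vertex `a` of the model, the side of the sphere of `a` that misses `P`. -/
structure FreeL (G : SimpleGraph V) (A : Set V) (B : Set U) (P : Set V) (ℓ : V → Finset U)
    (τ : U → V → Set V) : Prop where
  sph : ∀ a ∈ B, Sph G 3 (CC P ℓ {a})
  sided : ∀ a ∈ B, Sided G 3 A (CC P ℓ {a}) (τ a)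
  out : ∀ a ∈ B, ∀ x ∈ CC P ℓ {a}, ∀ y ∈ τ a x, y ∉ P

variable {G : SimpleGraph V} {A P : Set V} {K : SimpleGraph U} {B : Set U} {ℓ : V → Finset U}

theorem mem_CC_one {a : U} {x : V} : x ∈ CC P ℓ {a} ↔ x ∈ P ∧ a ∈ ℓ x := by
  simp [CC]

theorem CC_subset (s : Finset U) : CC P ℓ s ⊆ P := fun _ h => h.1

theorem CC_anti {s t : Finset U} (h : s ⊆ t) : CC P ℓ t ⊆ CC P ℓ s :=
  fun _ hx => ⟨hx.1, h.trans hx.2⟩

theorem CC_inter (s t : Finset U) : CC P ℓ s ∩ CC P ℓ t = CC P ℓ (s ∪ t) := by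
  ext x
  simp only [CC, Set.mem_inter_iff, Set.mem_ofPred_eq, Finset.union_subset_iff]
  tauto

theorem LabS.cmp' (h : LabS G A K B P ℓ) {x y : V} (hx : x ∈ P) (hy : y ∈ P) (e : Adq G x y) :
    ℓ x ⊆ ℓ y ∨ ℓ y ⊆ ℓ x := by
  rcases e with rfl | e
  · exact Or.inl subset_rfl
  · exact h.cmp x hx y hy e

/-- A simplex of `P` has a vertex with the smallest label. -/
theorem LabS.exists_min (h : LabS G A K B P ℓ) {s : Finset V} (hs : s ∈ sA G P) :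
    ∃ x ∈ s, ∀ y ∈ s, ℓ x ⊆ ℓ y := by
  obtain ⟨h0, h1, h2⟩ := mem_sA.1 hs
  obtain ⟨x, hx, hm⟩ := s.exists_min_image (fun x => (ℓ x).card) h0
  refine ⟨x, hx, fun y hy => ?_⟩
  rcases h.cmp' (h1 hx) (h1 hy) (h2 x hx y hy) with e | e
  · exact e
  · exact (Finset.eq_of_subset_of_card_le e (hm y hy)).symm.subset

/-- A simplex of `P` has a vertex with the largest label. -/
theorem LabS.exists_max (h : LabS G A K B P ℓ) {s : Finset V} (hs : s ∈ sA G P) :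
    ∃ x ∈ s, ∀ y ∈ s, ℓ y ⊆ ℓ x := by
  obtain ⟨h0, h1, h2⟩ := mem_sA.1 hs
  obtain ⟨x, hx, hm⟩ := s.exists_max_image (fun x => (ℓ x).card) h0
  refine ⟨x, hx, fun y hy => ?_⟩
  rcases h.cmp' (h1 hx) (h1 hy) (h2 x hx y hy) with e | e
  · exact (Finset.eq_of_subset_of_card_le e (hm y hy)).symm.subset
  · exact e

/-- A nonempty part of a label is a simplex of the model. -/
theorem LabS.mem_sA_of (h : LabS G A K B P ℓ) {s : Finset U} {x : V} (hx : x ∈ CC P ℓ s)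
    (hs : s.Nonempty) : s ∈ sA K B :=
  sA_down (h.mem x hx.1).1 hx.2 hs

theorem LabS.mem_B (h : LabS G A K B P ℓ) {a : U} {x : V} (hx : x ∈ P) (ha : a ∈ ℓ x) : a ∈ B :=
  (h.mem x hx).1.2.1 ha

theorem LabS.card_le (h : LabS G A K B P ℓ) {s : Finset U} (hs : s ∈ sA K B) : s.card ≤ 4 := by
  obtain ⟨a, ha⟩ := hs.1
  exact (Mfa.link h.clB.2.2 hs.2 ⟨a, ha, hs.2.1 ha⟩).1

/-- The dimension of a simplex in a cell. -/
theorem LabS.dim (h : LabS G A K B P ℓ) {s : Finset U} (hs : s ∈ sA K B) (h2 : 2 ≤ s.card)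
    {t : Finset V} (ht : Clq G (CC P ℓ s) t) : t.card + s.card ≤ 5 := by
  have h1 := ((h.cell s hs h2).link ht).1
  have h4 := h.card_le hs
  omega

theorem LabS.con_CC (h : LabS G A K B P ℓ) {s : Finset U} (hs : s ∈ sA K B) (h2 : 2 ≤ s.card) :
    Con G (CC P ℓ s) :=
  (h.cell s hs h2).ball_con (by simp [sub])

end Pool.Agent.MP_6374aa_g

end

section

/-! The sphere dual to a vertex. -/

namespace Pool.Agent.MP_6374aa_g

open Pool.Agent.MP_6374aa_gt Classical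

variable {V U : Type} {G : SimpleGraph V} {A P : Set V} {K : SimpleGraph U} {B : Set U}
  {ℓ : V → Finset U}

theorem pe_F2 (h : LabS G A K B P ℓ) {a : U} (ha : a ∈ B) :
    PE G (CC P ℓ {a}) (sG U) (sA K (Lk K B {a})) fun x => (ℓ x).erase a := by
  refine qa_up ⟨fun x hx => ?_, fun x hx y hy e => ?_⟩ fun σ hσ => ?_
  · obtain ⟨hP, hx⟩ := mem_CC_one.1 hx
    obtain ⟨h1, h2⟩ := h.mem x hP
    refine mem_sA_iff_clq.2 ⟨?_, (clq_ins_C1 ha).2 ⟨?_, Finset.notMem_erase _ _⟩⟩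
    · rw [← Finset.card_pos, Finset.card_erase_of_mem hx]
      omega
    · rw [Finset.insert_erase hx]
      exact (mem_sA_iff_clq.1 h1).2
  · exact adq_sG.2 ((h.cmp x hx.1 y hy.1 e).imp (Finset.erase_subset_erase a)
      (Finset.erase_subset_erase a))
  · obtain ⟨h0, h1⟩ := mem_sA_iff_clq.1 hσ
    obtain ⟨h2, h3⟩ := (clq_ins_C1 ha).1 h1
    have e : {u | u ∈ CC P ℓ {a} ∧ σ ⊆ (ℓ u).erase a} = CC P ℓ (insert a σ) := by
      ext u
      simp only [CC, Set.mem_ofPred_eq, Finset.singleton_subset_iff, Finset.subset_erase,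
        Finset.insert_subset_iff]
      tauto
    have hc : 2 ≤ (insert a σ).card := by
      rw [Finset.card_insert_of_notMem h3]
      have := h0.card_pos
      omega
    rw [e]
    exact (h.cell _ (mem_sA_iff_clq.2 ⟨Finset.insert_nonempty _ _, h2⟩) hc).ball_sco (by omega)
      (by simp [sub])

theorem clq_pair_F2 {X : Set V} {x y : V} (hx : x ∈ X) (hy : y ∈ X) (e : G.Adj x y) :
    Clq G X {x, y} :=
  (mem_sA_iff_clq.1 (pair_mem_sA hx hy (Or.inr e))).2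

theorem lk_cell_F2 (h : LabS G A K B P ℓ) {s : Finset U} {x : V} (hx : x ∈ CC P ℓ s)
    (h2 : 2 ≤ s.card) : ∃ β, Cell G (5 - s.card - 1) (Lk G (CC P ℓ s) {x}) β := by
  have h1 := ((h.cell s (h.mem_sA_of hx (Finset.card_pos.1 (by omega))) h2).link
    (clq_single_C1.2 hx)).2
  rw [Finset.card_singleton, Finset.coe_singleton] at h1
  exact ⟨_, h1⟩

theorem lk_con_F2 (h : LabS G A K B P ℓ) {a b : U} (hab : a ≠ b) {x : V}
    (hx : x ∈ CC P ℓ {a, b}) : Con G (Lk G (CC P ℓ {a, b}) {x}) := by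
  obtain ⟨β, h1⟩ := lk_cell_F2 h hx (Finset.card_pair hab).ge
  rw [Finset.card_pair hab] at h1
  exact Cell.con (d := 0) h1

theorem lk_ne_F2 (h : LabS G A K B P ℓ) {s : Finset U} {x : V} (hx : x ∈ CC P ℓ s)
    (h2 : 2 ≤ s.card) (h3 : s.card ≤ 3) : (Lk G (CC P ℓ s) {x}).Nonempty := by
  obtain ⟨β, h1⟩ := lk_cell_F2 h hx h2
  have e : 5 - s.card - 1 = (3 - s.card) + 1 := by omega
  rw [e] at h1
  exact h1.nonempty

theorem other_F2 {s : Finset U} (h2 : 2 ≤ s.card) (a : U) : ∃ b ∈ s, a ≠ b := by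
  obtain ⟨b, hb, e⟩ := Finset.exists_mem_ne (show 1 < s.card by omega) a
  exact ⟨b, hb, e.symm⟩

theorem mem_two_F2 {a b : U} {x : V} : x ∈ CC P ℓ {a, b} ↔ x ∈ P ∧ a ∈ ℓ x ∧ b ∈ ℓ x :=
  and_congr_right' (by simp [Finset.insert_subset_iff])

theorem two_sub_F2 (a b : U) : CC P ℓ {a, b} ⊆ CC P ℓ {a} := CC_anti (by simp)

theorem vert_con_F2 (h : LabS G A K B P ℓ) {a : U} {x : V} (hx : x ∈ CC P ℓ {a}) :
    Con G (Lk G (CC P ℓ {a}) {x}) := by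
  obtain ⟨hP, hax⟩ := mem_CC_one.1 hx
  obtain ⟨c, hc, hac⟩ := other_F2 (h.mem x hP).2 a
  have h0 := lk_con_F2 h hac (mem_two_F2.2 ⟨hP, hax, hc⟩)
  have hs := lk_mono_C1 (G := G) (two_sub_F2 (P := P) (ℓ := ℓ) a c) {x}
  refine ⟨h0.1.mono hs, h0.2.of_near hs fun y hy => ?_⟩
  obtain ⟨hy1, hy2⟩ := mem_lk_C1.1 hy
  obtain ⟨hyP, hay⟩ := mem_CC_one.1 hy1
  obtain ⟨b, hab, hbx, hby⟩ : ∃ b, a ≠ b ∧ b ∈ ℓ x ∧ b ∈ ℓ y := by
    rcases h.cmp x hP y hyP hy2 with e | e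
    · exact ⟨c, hac, hc, e hc⟩
    · obtain ⟨b, hb, hab⟩ := other_F2 (h.mem y hyP).2 a
      exact ⟨b, hab, e hb, hb⟩
  have h1 := lk_con_F2 h hab (mem_two_F2.2 ⟨hP, hax, hbx⟩)
  have hx3 : x ∈ CC P ℓ {a, b, c} := ⟨hP, by simp [Finset.insert_subset_iff, hax, hbx, hc]⟩
  have h2 : 2 ≤ ({a, b, c} : Finset U).card :=
    (Finset.card_pair hab).ge.trans (Finset.card_le_card (by simp [Finset.insert_subset_iff]))
  obtain ⟨z, hz⟩ := lk_ne_F2 h hx3 h2 Finset.card_le_three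
  refine ⟨z, lk_mono_C1 (CC_anti (by simp [Finset.insert_subset_iff])) _ hz, ?_⟩
  exact (h1.2 y (mem_lk_C1.2 ⟨mem_two_F2.2 ⟨hyP, hay, hby⟩, hy2⟩) z
    (lk_mono_C1 (CC_anti (by simp [Finset.insert_subset_iff])) _ hz)).mono
      (lk_mono_C1 (two_sub_F2 a b) _)

theorem bd_edge_F2 (h : LabS G A K B P ℓ) {a b : U} (hab : a ≠ b) {x y : V}
    (hx : x ∈ CC P ℓ {a, b}) (hy : y ∈ P) (e : G.Adj x y) (hl : ℓ x ⊆ ℓ y)
    (h3 : (ℓ x).card = 3) : ∃ u, Lk G (CC P ℓ {a, b}) {x, y} = {u} := by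
  have h2 := Finset.card_pair hab
  have hs : ({a, b} : Finset U) ⊂ ℓ x :=
    Finset.ssubset_iff_subset_ne.2 ⟨hx.2, fun k => by rw [← k] at h3; omega⟩
  have h1 := (h.cell _ (h.mem_sA_of hx (by simp)) h2.ge).codim_one
    (clq_pair_F2 hx ⟨hy, hx.2.trans hl⟩ e) (by rw [h2, Finset.card_pair e.ne])
  rw [Finset.coe_pair] at h1
  rcases h1 with k | k
  · exact Set.ncard_eq_one.1 k.2
  · refine (k.1 ?_).elim
    intro z hz
    simp only [Finset.coe_insert, Finset.coe_singleton, Set.mem_insert_iff,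
      Set.mem_singleton_iff] at hz
    rcases hz with rfl | rfl
    · exact hs
    · exact hs.trans_subset hl

theorem edge_F2 (h : LabS G A K B P ℓ) {a : U} {x y : V} (hx : x ∈ CC P ℓ {a}) (hy : y ∈ P)
    (e : G.Adj x y) (hl : ℓ x ⊆ ℓ y) : Sph G 1 (Lk G (CC P ℓ {a}) {x, y}) := by
  obtain ⟨hP, hax⟩ := mem_CC_one.1 hx
  obtain ⟨hm, h2⟩ := h.mem x hP
  have hq : Clq G (CC P ℓ (ℓ x)) {x, y} := clq_pair_F2 ⟨hP, subset_rfl⟩ ⟨hy, hl⟩ e
  have hd := h.dim hm h2 hq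
  rw [Finset.card_pair e.ne] at hd
  have hz : ∀ z ∈ Lk G (CC P ℓ {a}) {x, y}, ℓ x ⊆ ℓ z ∨ ℓ z ⊆ ℓ x := fun z hz =>
    h.cmp x hP z hz.1.1 (hz.2 x (by simp))
  rcases (show (ℓ x).card = 2 ∨ (ℓ x).card = 3 by omega) with k | k
  · have h1 := ((h.cell _ hm h2).link hq).2
    rw [Finset.card_pair e.ne, k, Finset.coe_pair] at h1
    have e1 : Lk G (CC P ℓ {a}) {x, y} = Lk G (CC P ℓ (ℓ x)) {x, y} := by
      refine subset_antisymm (fun z hz' => ⟨⟨hz'.1.1, ?_⟩, hz'.2⟩)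
        (lk_mono_C1 (CC_anti (by simpa using hax)) _)
      rcases hz z hz' with k' | k'
      · exact k'
      · exact (Finset.eq_of_subset_of_card_le k' (k.le.trans (h.mem z hz'.1.1).2)).symm.subset
    rw [e1]
    refine h1.congr fun s _ => ⟨fun k' => ?_, False.elim⟩
    exact lt_irrefl (ℓ x) (k' (show x ∈ (({x, y} : Finset V) ∪ s : Finset V) by simp))
  · obtain ⟨b, c, hbc, e2⟩ : ∃ b c, b ≠ c ∧ (ℓ x).erase a = {b, c} :=
      Finset.card_eq_two.1 (by rw [Finset.card_erase_of_mem hax, k])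
    have hb : b ∈ (ℓ x).erase a := by simp [e2]
    have hc : c ∈ (ℓ x).erase a := by simp [e2]
    rw [Finset.mem_erase] at hb hc
    have e3 : ∀ t ∈ ℓ x, t = a ∨ t = b ∨ t = c := fun t ht => by
      by_cases k' : t = a
      · exact Or.inl k'
      · have : t ∈ (ℓ x).erase a := Finset.mem_erase.2 ⟨k', ht⟩
        rw [e2] at this
        exact Or.inr (by simpa using this)
    have hn : ∀ z ∈ Lk G (CC P ℓ {a}) {x, y}, ¬ ℓ x ⊆ ℓ z := fun z hz' k' => by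
      have h4 : Clq G (Lk G (CC P ℓ (ℓ x)) ({x, y} : Finset V)) {z} :=
        clq_single_C1.2 ⟨⟨hz'.1.1, k'⟩, by simpa using hz'.2⟩
      obtain ⟨h5, h6⟩ := (clq_lk hq).1 h4
      have h7 := h.dim hm h2 h5
      rw [Finset.card_union_of_disjoint h6, Finset.card_pair e.ne, Finset.card_singleton] at h7
      omega
    have hnb : ∀ z ∈ Lk G (CC P ℓ {a}) {x, y}, b ∈ ℓ z → c ∈ ℓ z → False := fun z hz' k1 k2 =>
      hn z hz' fun t ht => by
        rcases e3 t ht with rfl | rfl | rfl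
        · exact (mem_CC_one.1 hz'.1).2
        · exact k1
        · exact k2
    obtain ⟨u, hu⟩ := bd_edge_F2 h hb.1.symm (mem_two_F2.2 ⟨hP, hax, hb.2⟩) hy e hl k
    obtain ⟨w, hw⟩ := bd_edge_F2 h hc.1.symm (mem_two_F2.2 ⟨hP, hax, hc.2⟩) hy e hl k
    have hu1 : u ∈ Lk G (CC P ℓ {a, b}) {x, y} := hu ▸ rfl
    have hw1 : w ∈ Lk G (CC P ℓ {a, c}) {x, y} := hw ▸ rfl
    have hu2 := lk_mono_C1 (two_sub_F2 a b) _ hu1
    have hw2 := lk_mono_C1 (two_sub_F2 a c) _ hw1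
    have hub := (mem_two_F2.1 hu1.1).2.2
    have hwc := (mem_two_F2.1 hw1.1).2.2
    have huw : ¬ Adq G u w := fun k' => by
      rcases h.cmp' hu1.1.1 hw1.1.1 k' with k'' | k''
      · exact hnb w hw2 (k'' hub) hwc
      · exact hnb u hu2 hub (k'' hwc)
    have e4 : Lk G (CC P ℓ {a}) {x, y} = {u, w} := by
      refine subset_antisymm (fun z hz' => ?_) (Set.pair_subset hu2 hw2)
      obtain ⟨hzP, haz⟩ := mem_CC_one.1 hz'.1
      obtain ⟨t, ht, hat⟩ := other_F2 (h.mem z hzP).2 a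
      rcases e3 t ((hz z hz').resolve_left (hn z hz') ht) with rfl | rfl | rfl
      · exact (hat rfl).elim
      · exact Or.inl (hu.subset ⟨mem_two_F2.2 ⟨hzP, haz, ht⟩, hz'.2⟩)
      · exact Or.inr (hw.subset ⟨mem_two_F2.2 ⟨hzP, haz, ht⟩, hz'.2⟩)
    rw [e4]
    refine sph_one.2 ⟨Set.ncard_pair fun k' => huw (Or.inl k'), ?_⟩
    rintro p (rfl | rfl) q (rfl | rfl) k'
    · exact k'.ne rfl
    · exact huw (Or.inr k')
    · exact huw (Or.inr k'.symm)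
    · exact k'.ne rfl

theorem LabS.sph (h : LabS G A K B P ℓ) {a : U} (ha : a ∈ B) : Sph G 3 (CC P ℓ {a}) := by
  have hf : (CC P ℓ {a}).Finite := h.clA.1.subset ((CC_subset _).trans h.subset)
  have hs : Sph K 3 (Lk K B {a}) := h.clB.2.2.sph_lk ha (by simp)
  have hp := pe_F2 h ha
  refine cell_three hf (hp.con.2 (con_sA.2 (Cell.con (d := 1) hs)))
    (hp.triv.2 (triv_sA.2 hs.ndc)) (fun x hx => ?_) (by simp)
  refine cell_two (hf.subset (lk_subset _)) (vert_con_F2 h hx) (fun y hy => ?_) (by simp)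
  obtain ⟨hy1, hy2⟩ := mem_lk_C1.1 hy
  rw [lk_lk, Set.singleton_union]
  rcases h.cmp x hx.1 y hy1.1 hy2 with e | e
  · exact edge_F2 h hx hy1.1 hy2 e
  · rw [Set.pair_comm]
    exact edge_F2 h hy1 hx.1 hy2.symm e

theorem LabS.con (h : LabS G A K B P ℓ) : Con G P := by
  have h1 : ∀ a ∈ B, Con G (CC P ℓ {a}) := fun a ha => Cell.con (d := 1) (h.sph ha)
  obtain ⟨⟨a, ha⟩, hB⟩ := h.clB.2.1
  refine ⟨(h1 a ha).1.mono (CC_subset _), pre_of_fibres hB (fun a => CC P ℓ {a})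
    (fun a ha => ⟨CC_subset _, h1 a ha⟩) (fun a ha b hb e => ?_) fun y hy => ?_⟩
  · obtain ⟨x, hx⟩ := (h.con_CC (pair_mem_sA ha hb (Or.inr e)) (Finset.card_pair e.ne).ge).1
    obtain ⟨k1, k2, k3⟩ := mem_two_F2.1 hx
    exact ⟨x, mem_CC_one.2 ⟨k1, k2⟩, x, mem_CC_one.2 ⟨k1, k3⟩, Reach.refl x⟩
  · obtain ⟨b, hb⟩ := (h.mem y hy).1.1
    exact ⟨b, h.mem_B hy hb, y, mem_CC_one.2 ⟨hy, hb⟩, Reach.refl y⟩

end Pool.Agent.MP_6374aa_g

end

section

/-! The free side of the sphere dual to a vertex. -/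

namespace Pool.Agent.MP_6374aa_g

open Pool.Agent.MP_6374aa_gt Classical

variable {V U : Type} {G : SimpleGraph V} {A P : Set V} {K : SimpleGraph U} {B : Set U}
  {ℓ : V → Finset U}

theorem lk_F3 {a : U} (ha : a ∈ B) {e : Finset U} :
    Clq K (Lk K B {a}) e ↔ Clq K B (e ∪ {a}) ∧ a ∉ e := by
  rw [← Finset.coe_singleton, clq_lk (singleton_mem_sA.2 ha).2, Finset.disjoint_singleton_left,
    Finset.union_comm]

theorem mono_F3 {X Y Q : Set V} (h : X ⊆ Y) : fr G X Q ⊆ fr G Y Q :=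
  fun _ hs => ⟨sA_mono h hs.1, hs.2⟩

theorem edge_F3 (h : LabS G A K B P ℓ) {a : U} (ha : a ∈ B) {e : Finset U}
    (he : Clq K (Lk K B {a}) e) (h2 : e.card = 2) :
    Pre (sG V) (fr G (CC P ℓ e) (CC P ℓ {a})) := by
  obtain ⟨h3, h4⟩ := (lk_F3 ha).1 he
  have h5 := h.cell e ⟨Finset.card_pos.1 (by omega), h3.subset Finset.subset_union_left⟩ h2.ge
  rw [h2] at h5
  refine fr_pre (Cell.ndc h5) ?_ (Cell.rem_bd_con h5 le_rfl fun s hs x hx => ?_).1.2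
  · rw [CC_inter]
    exact (h.con_CC ⟨⟨a, by simp⟩, h3⟩
      (h2.ge.trans (Finset.card_le_card Finset.subset_union_left))).2
  · exact (Finset.ssubset_iff_of_subset (hs.1 hx).1.2).2 ⟨a, (mem_CC_one.1 (hs.1 hx).2).2, h4⟩

theorem tri_F3 (h : LabS G A K B P ℓ) {a : U} (ha : a ∈ B) {t : Finset U}
    (ht : Clq K (Lk K B {a}) t) (h2 : t.card = 3) :
    (fr G (CC P ℓ t) (CC P ℓ {a})).Nonempty := by
  obtain ⟨h3, h4⟩ := (lk_F3 ha).1 ht
  have h5 := h.cell t ⟨Finset.card_pos.1 (by omega), h3.subset Finset.subset_union_left⟩ (by omega)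
  have h6 : (t ∪ {a}).card = 4 := by
    rw [Finset.card_union_of_disjoint (Finset.disjoint_singleton_right.2 h4), h2]
    rfl
  have h7 := h.cell _ ⟨⟨a, by simp⟩, h3⟩ (by omega)
  rw [h2] at h5
  rw [h6, ← CC_inter] at h7
  obtain ⟨x, hx, -⟩ := ball_one.1 h7
  have h8 : x ∈ CC P ℓ t ∩ CC P ℓ {a} := hx ▸ Set.mem_singleton x
  obtain ⟨u, a1, a2, a3, -⟩ := Cell.pure h5 (singleton_mem_sA.2 h8.1).2
  have a4 : x ∈ u := a2 (Finset.mem_singleton_self x)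
  refine ⟨u, ⟨⟨x, a4⟩, a1⟩, ⟨x, a4, h8.2⟩, fun k => ?_⟩
  have a5 : u ⊆ {x} := fun y hy => Finset.mem_singleton.2 (hx.subset ⟨a1.1 hy, k hy⟩)
  have := Finset.card_le_card a5
  rw [a3, Finset.card_singleton] at this
  omega

theorem cover_F3 (h : LabS G A K B P ℓ) {a : U} (ha : a ∈ B) {s : Finset V}
    (hs : s ∈ fr G P (CC P ℓ {a})) :
    ∃ e, Clq K (Lk K B {a}) e ∧ e.card = 2 ∧ s ∈ fr G (CC P ℓ e) (CC P ℓ {a}) := by
  obtain ⟨h1, ⟨x, hx, h2⟩, h3⟩ := hs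
  obtain ⟨m, hm, h4⟩ := h.exists_min h1
  obtain ⟨e, h5, h6⟩ := Finset.exists_subset_card_eq (h.mem m (h1.2.1 hm)).2
  refine ⟨e, (lk_F3 ha).2 ⟨Clq.subset (h.mem x h2.1).1.2
    (Finset.union_subset (h5.trans (h4 x hx)) h2.2), fun k => h3 fun y hy =>
      mem_CC_one.2 ⟨h1.2.1 hy, h4 y hy (h5 k)⟩⟩, h6,
    ⟨h1.1, fun y hy => ⟨h1.2.1 hy, h5.trans (h4 y hy)⟩, h1.2.2⟩, ⟨x, hx, h2⟩, h3⟩

theorem LabS.pre_fr (h : LabS G A K B P ℓ) {a : U} (ha : a ∈ B) :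
    Pre (sG V) (fr G P (CC P ℓ {a})) := by
  have hS : Sph K 3 (Lk K B {a}) := h.clB.2.2.sph_lk ha (Set.notMem_empty a)
  refine pre_of_const fun Q hQ => ?_
  have h1 : ∀ e t, Clq K (Lk K B {a}) t → t.card = 3 → e ⊆ t → e.card = 2 →
      ∀ s ∈ fr G (CC P ℓ e) (CC P ℓ {a}), Q s = ∀ s ∈ fr G (CC P ℓ t) (CC P ℓ {a}), Q s := by
    intro e t a1 a2 a3 a4 s hs
    have a5 : ∀ s' ∈ fr G (CC P ℓ t) (CC P ℓ {a}), Q s = Q s' := fun s' hs' =>
      (edge_F3 h ha (a1.subset a3) a4).const (fun u hu w hw k => propext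
        (hQ u (mono_F3 (CC_subset e) hu) w (mono_F3 (CC_subset e) hw) k)) hs
        (mono_F3 (CC_anti a3) hs')
    obtain ⟨s', hs'⟩ := tri_F3 h ha a1 a2
    exact propext ⟨fun k u hu => a5 u hu ▸ k, fun k => (a5 s' hs').symm ▸ k s' hs'⟩
  intro s hs s' hs'
  obtain ⟨e, a1, a2, a3⟩ := cover_F3 h ha hs
  obtain ⟨e', b1, b2, b3⟩ := cover_F3 h ha hs'
  obtain ⟨t, a4, a5, a6, -⟩ := Cell.pure hS a1
  obtain ⟨t', b4, b5, b6, -⟩ := Cell.pure hS b1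
  rw [h1 e t a4 a6 a5 a2 s a3, h1 e' t' b4 b6 b5 b2 s' b3]
  refine iff_of_eq (Cell.strong hS (fun t => ∀ s ∈ fr G (CC P ℓ t) (CC P ℓ {a}), Q s)
    (fun u w c1 c2 c3 c4 c5 => ?_) a4 b4 a6 b6)
  obtain ⟨z, hz⟩ := tri_F3 h ha c1 c3
  have c6 := mono_F3 (CC_anti (Finset.inter_subset_left (s₂ := w))) hz
  exact (h1 _ u c1 c3 Finset.inter_subset_left (by omega) z c6).symm.trans
    (h1 _ w c2 c4 Finset.inter_subset_right (by omega) z c6)

theorem key_F3 {d : ℕ} {c : Set V} {σ : V → Set V} (h : Sided G d A c σ) {s : Finset V}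
    (hs : s ∈ Frs G A c σ) {x y : V} (hx : x ∈ s) (hc : x ∈ c) (hy : y ∈ s) (hn : y ∉ c) :
    y ∈ σ x := by
  obtain ⟨h1, x', a1, a2, y', a3, a4⟩ := hs
  obtain ⟨-, h2, h3⟩ := mem_sA.1 h1
  have h4 : ∀ u ∈ s, u ∈ c → G.Adj u y := fun u k1 k2 =>
    (h3 u k1 y hy).resolve_left fun e => hn (e ▸ k2)
  have h5 : y ∈ σ x' := by
    rcases h3 y' a3 y hy with rfl | e
    · exact a4
    · by_contra k
      exact h.sep x' a2 y' a4 y ⟨⟨h2 hy, fun u hu => hu ▸ h4 x' a1 a2⟩, fun k' => k'.elim hn k⟩ e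
  rcases h3 x' a1 x hx with rfl | e
  · exact h5
  · refine (h.compat x' a2 x hc e y ⟨h2 hy, ?_⟩).1 h5
    rintro u (rfl | rfl)
    exacts [h4 _ a1 a2, h4 _ hx hc]

theorem side_F3 {d : ℕ} {c : Set V} {σ : V → Set V} (h : Sided G d A c σ) (hc : c ⊆ P)
    (hP : P ⊆ A) (hp : Pre (sG V) (fr G P c)) :
    ∃ τ, Sided G d A c τ ∧ ∀ x ∈ c, ∀ y ∈ τ x, y ∉ P := by
  have h1 : ∀ s ∈ fr G P c, ∀ t ∈ fr G P c, s ⊆ t → (s ∈ Frs G A c σ) = (t ∈ Frs G A c σ) := by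
    intro s hs t ht e
    refine propext ⟨fun ⟨_, x, a1, a2, y, a3, a4⟩ =>
      ⟨sA_mono hP ht.1, x, e a1, a2, y, e a3, a4⟩, fun k => ?_⟩
    obtain ⟨x, a1, a2⟩ := hs.2.1
    obtain ⟨y, a3, a4⟩ := Set.not_subset.1 hs.2.2
    exact ⟨sA_mono hP hs.1, x, a1, a2, y, a3, key_F3 h k (e a1) a2 (e a3) a4⟩
  have h2 : ∀ x ∈ c, ∀ y ∈ Lk G A {x}, y ∉ c → y ∈ P → {x, y} ∈ fr G P c := fun x hx y hy k k' =>
    ⟨pair_mem_sA (hc hx) k' (Or.inr (hy.2 x rfl)), ⟨x, by simp, hx⟩, fun e => k (e (by simp))⟩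
  by_cases k : ∃ s ∈ fr G P c, s ∈ Frs G A c σ
  · obtain ⟨s, a1, a2⟩ := k
    refine ⟨_, h.symm (hc.trans hP), fun x hx y hy e => hy.2 (Or.inr ?_)⟩
    have a3 : y ∉ c := fun e => hy.2 (Or.inl e)
    have a4 := hp.const (φ := fun s => s ∈ Frs G A c σ) (fun u hu w hw e =>
      (adq_sG.1 (Or.inr e)).elim (h1 u hu w hw) fun e' => (h1 w hw u hu e').symm) a1
      (h2 x hx y hy.1 a3 e)
    exact key_F3 h (a4 ▸ a2) (by simp) hx (by simp) a3
  · refine ⟨σ, h, fun x hx y hy e => ?_⟩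
    have a1 := h2 x hx y (h.subset x hx hy).1 (h.subset x hx hy).2 e
    exact k ⟨_, a1, sA_mono hP a1.1, x, by simp, hx, y, by simp, hy⟩

theorem LabS.exists_free (h : LabS G A K B P ℓ) (hs : ∀ a ∈ B, Sph G 3 (CC P ℓ {a})) :
    ∃ τ, FreeL G A B P ℓ τ := by
  have h1 : ∀ a ∈ B, ∃ τ, Sided G 3 A (CC P ℓ {a}) τ ∧
      ∀ x ∈ CC P ℓ {a}, ∀ y ∈ τ x, y ∉ P := fun a ha => by
    have h2 : CC P ℓ {a} ⊆ A := (CC_subset _).trans h.subset
    obtain ⟨σ, hσ⟩ := exists_sided ((mf_empty_iff.1 h.clA.2.2).mono h2) (Cell.mfa (hs a ha))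
      le_rfl h2 (Cell.ndc (hs a ha))
    exact side_F3 hσ (CC_subset _) h.subset (h.pre_fr ha)
  choose! τ h2 h3 using h1
  exact ⟨τ, hs, h2, h3⟩

end Pool.Agent.MP_6374aa_g

end
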