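import Pool.Agent.Mg.F6374aa.Ge6e9b2
import Pool.Agent.Mg.F6374aa.Ga99166
import Pool.Agent.Mg.F6374aa.G69bf5c

section

/-! Assembly of the blocks. -/

namespace Pool.Agent.MP_6374aa_g

open Pool.Agent.MP_6374aa_gt Classical

theorem Cx.closed_iff (X : Cx) : X.Closed ↔ Cl X.G 3 X.A := Pool.Agent.MP_6374aa_g.closed_iff

theorem Cx.Closed.sd {X : Cx} (h : X.Closed) : X.sd.Closed :=
  (Cx.closed_iff _).2 (Cl.sd ((Cx.closed_iff _).1 h) le_rfl)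

theorem Cx.Closed.iter {X : Cx} (h : X.Closed) (k : ℕ) : (Cx.sd^[k] X).Closed := by
  induction k with
  | zero => exact h
  | succ k ih => rw [Function.iterate_succ_apply']; exact ih.sd

theorem SumOf.closed {N X : Cx} (hN : N.Closed) (h : SumOf N X) : X.Closed := by
  obtain ⟨ι, P, s, hs, hP⟩ := h
  have key : ∀ A t, IsSum X.G P A t → Cl X.G 3 A := fun A t ht => by
    induction ht with
    | one i =>
      obtain ⟨f, hf⟩ := hP i
      exact (IsIso.cl hf).1 ((Cx.closed_iff _).1 hN)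
    | sum _ _ hg h1 h2 => exact Graft.cl hg h1 h2
  exact (Cx.closed_iff _).2 (key _ _ hs)

theorem Punct.homeo {X P Q : Cx} (h : Punct X P) (e : P.Homeo Q) : Punct X Q := by
  obtain ⟨Z, T, h1, h2, h3, h4, h5⟩ := h
  exact ⟨Z, T, h1, h2, h3, h4, h5.trans e⟩

theorem PunctE.homeo {X P Q : Cx} (h : PunctE X P) (e : P.Homeo Q) : PunctE X Q :=
  h.imp fun _ h => h.homeo e

theorem PunctE.of_iter {X P : Cx} {k : ℕ} (h : PunctE (Cx.sd^[k] X) P) : PunctE X P := by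
  obtain ⟨j, hj⟩ := h
  exact ⟨j + k, by rwa [Function.iterate_add_apply]⟩

/-- Every summand of `N'`, punctured, embeds in a sum of copies of `N`. -/
def PUN_st : Prop :=
  ∀ (V V' : Type) [Fintype V] [Fintype V'] (Γ : SimpleGraph V) (Γ' : SimpleGraph V'),
    Cx.Closed ⟨V, Γ, Set.univ⟩ → Cx.Closed ⟨V', Γ', Set.univ⟩ → NoSquare Γ → NoSquare Γ' →
    Nonempty (@Homeomorph (Bdry Γ) (Bdry Γ') (bdryTop Γ) (bdryTop Γ')) →
    ∀ P : Cx, Summand P ⟨V', Γ', Set.univ⟩ → ∃ X, SumOf ⟨V, Γ, Set.univ⟩ X ∧ PunctE X P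

theorem pun_of (hM : MODEL_st) (hR : RCON_st) (hT : TWO_st) (hC : C_st) (hCol : COL_st)
    (hD : D_st) (hE : E_st) (hF : F_st) (hS : SDH_st) : PUN_st := by
  intro V V' _ _ Γ Γ' h1 h2 n1 n2 hb P hs
  obtain ⟨j, U, K, A, R, B, v, f, cA, cR, hg, hP, hf⟩ := hs
  have cA' : Cl K 3 A := closed_iff.1 cA
  have two := hT U K A cA'
  obtain ⟨c0, hc0⟩ := hCol _ U K A R B v f cA' (closed_iff.1 cR) hg (iso_iff.1 hf)
  obtain ⟨Q, iQ, ρ, hρ⟩ := exists_ul (hR _ _ _ _ two)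
  obtain ⟨Nm, Np, ⟨tm⟩, hQ, km, kp⟩ := hM _ _ _ _ Q ρ two hρ
  have hc1 : ∃ c : (Cx.sd^[j + 1] ⟨V', Γ', Set.univ⟩).V → Finset U,
      CLS (Cx.sd^[j + 1] ⟨V', Γ', Set.univ⟩).G (Cx.sd^[j + 1] ⟨V', Γ', Set.univ⟩).A (sG U)
        (sA K A) c := by
    rw [Function.iterate_succ_apply']
    exact ⟨c0, hc0⟩
  obtain ⟨c1, hc1⟩ := hc1
  obtain ⟨X, H, iH, hX, hmid⟩ := hC V V' Γ Γ' (closed_iff.1 h1) (closed_iff.1 h2) n1 n2 hb (j + 1)
    _ _ _ _ c1 hc1 two Q ρ Nm Np hρ km kp tm.act1.normal tm.act2.normal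
  obtain ⟨k, hsurf⟩ := hD X Q H Nm Np hQ tm.act1.normal tm.act2.normal hmid
  obtain ⟨k2, Pl, ℓ, hl⟩ := hE _ _ _ _ _ Q Nm Np two ⟨tm⟩ hsurf
  have cX : (Cx.sd^[k2] (Cx.sd^[k] X)).Closed := ((hX.closed h1).iter k).iter k2
  have hp := hF _ _ _ _ Pl ℓ ((Cx.closed_iff _).1 cX) two.cl hl
  exact ⟨X, hX, (hp.of_iter.of_iter).homeo ((hS ⟨U, K, A⟩ cA.1).trans hP)⟩

theorem main_of (hP : PUN_st) (hG : G_st) (hM : MERGE_st)
    (V V' : Type) [Fintype V] [Fintype V'] (Γ : SimpleGraph V) (Γ' : SimpleGraph V')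
    (h1 : Cx.Closed ⟨V, Γ, Set.univ⟩) (h2 : Cx.Closed ⟨V', Γ', Set.univ⟩) (n1 : NoSquare Γ)
    (n2 : NoSquare Γ')
    (hb : Nonempty (@Homeomorph (Bdry Γ) (Bdry Γ') (bdryTop Γ) (bdryTop Γ')))
    (P : Cx) (cP : P.Closed) (hs : Summand P ⟨V', Γ', Set.univ⟩) :
    (∃ X, SumOf ⟨V, Γ, Set.univ⟩ X ∧ Summand P X) ∧
      (P.Prime → Summand P ⟨V, Γ, Set.univ⟩ ∨ (NSP P ∧ NSE ⟨V, Γ, Set.univ⟩)) := by
  obtain ⟨X, hX, hp⟩ := hP V V' Γ Γ' h1 h2 n1 n2 hb P hs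
  exact ⟨⟨X, hX, hM X P (hX.closed h1) hp⟩,
    fun pr => (hG _ X P h1 cP pr hX hp).imp (hM _ P h1) id⟩

end Pool.Agent.MP_6374aa_g

end

section

/-! Subdividing a labelled polyhedron makes all adjacent labels comparable. -/

namespace Pool.Agent.MP_6374aa_g

open Pool.Agent.MP_6374aa_gt Classical

variable {V U : Type} {G : SimpleGraph V} {A P : Set V} {K : SimpleGraph U} {B : Set U}
  {ℓ : V → Finset U}

/-- The intersection of the labels on a simplex. -/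
noncomputable def lab_F1 (ℓ : V → Finset U) (s : Finset V) : Finset U :=
  (s.sup ℓ).filter fun u => ∀ x ∈ s, u ∈ ℓ x

theorem mem_lab_F1 {s : Finset V} (hs : s.Nonempty) {u : U} :
    u ∈ lab_F1 ℓ s ↔ ∀ x ∈ s, u ∈ ℓ x := by
  obtain ⟨y, hy⟩ := hs
  exact Finset.mem_filter.trans
    ⟨And.right, fun h => ⟨Finset.mem_sup.2 ⟨y, hy, h y hy⟩, h⟩⟩

theorem sub_lab_F1 {s : Finset V} (hs : s.Nonempty) {e : Finset U} :
    e ⊆ lab_F1 ℓ s ↔ ∀ x ∈ s, e ⊆ ℓ x :=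
  ⟨fun h x hx _ hu => (mem_lab_F1 hs).1 (h hu) x hx,
    fun h _ hu => (mem_lab_F1 hs).2 fun x hx => h x hx hu⟩

theorem lab_anti_F1 {s t : Finset V} (hs : s.Nonempty) (h : s ⊆ t) : lab_F1 ℓ t ⊆ lab_F1 ℓ s :=
  (sub_lab_F1 hs).2 fun x hx => (sub_lab_F1 (hs.mono h)).1 subset_rfl x (h hx)

theorem min_F1 (h : LabP G A K B P ℓ) {e : Finset U} (he : 2 ≤ e.card) {t : Finset V}
    (ht : t ∈ sA G (CC P ℓ e)) : ∃ x ∈ t, ℓ x ⊆ lab_F1 ℓ t := by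
  obtain ⟨h0, h1, h2⟩ := mem_sA.1 ht
  obtain ⟨x, hx, hm⟩ := t.exists_min_image (fun x => (ℓ x).card) h0
  refine ⟨x, hx, (sub_lab_F1 h0).2 fun y hy => ?_⟩
  rcases h2 x hx y hy with rfl | a
  · exact subset_rfl
  · have h3 : e ⊆ ℓ x ∩ ℓ y := Finset.subset_inter (h1 hx).2 (h1 hy).2
    rcases h.cmp x (h1 hx).1 y (h1 hy).1 a (he.trans (Finset.card_le_card h3)) with c | c
    · exact c
    · exact (Finset.eq_of_subset_of_card_le c (hm y hy)).symm.subset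

theorem labS_of_labP (hA : Cl G 3 A) (hB : Cl K 3 B) (h : LabP G A K B P ℓ) :
    ∃ (P' : Set (Finset V)) (ℓ' : Finset V → Finset U), LabS (sG V) (sA G A) K B P' ℓ' := by
  refine ⟨{s | s ∈ sA G P ∧ 2 ≤ (lab_F1 ℓ s).card}, lab_F1 ℓ, hA.sd le_rfl, hB,
    fun s hs => ⟨hs.1.1, hs.1.2.1.trans h.subset, hs.1.2.2⟩, fun s hs => ⟨?_, hs.2⟩,
    fun s hs t ht a => ?_, fun e he h2 => ?_⟩
  · obtain ⟨x, hx⟩ := hs.1.1
    exact sA_down (h.mem x (hs.1.2.1 hx)).1 ((sub_lab_F1 hs.1.1).1 subset_rfl x hx)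
      (Finset.card_pos.1 (lt_of_lt_of_le two_pos hs.2))
  · rcases a with a | a
    · exact Or.inr (lab_anti_F1 hs.1.1 a.subset)
    · exact Or.inl (lab_anti_F1 ht.1.1 a.subset)
  · have h3 : CC {s | s ∈ sA G P ∧ 2 ≤ (lab_F1 ℓ s).card} (lab_F1 ℓ) e = sA G (CC P ℓ e) := by
      ext s
      refine ⟨fun hs => ⟨hs.1.1.1, fun x hx => ⟨hs.1.1.2.1 hx,
        (sub_lab_F1 hs.1.1.1).1 hs.2 x hx⟩, hs.1.1.2.2⟩, fun hs => ?_⟩
      have h4 : e ⊆ lab_F1 ℓ s := (sub_lab_F1 hs.1).2 fun x hx => (hs.2.1 hx).2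
      exact ⟨⟨⟨hs.1, fun x hx => (hs.2.1 hx).1, hs.2.2⟩, h2.trans (Finset.card_le_card h4)⟩, h4⟩
    rw [h3]
    have h5 : Ball (sG V) (5 - e.card) (sA G (CC P ℓ e)) (ins {x | e ⊂ ℓ x}) :=
      Ball.sd (h.cell e he h2) (by omega)
    have h6 : ∀ t ∈ sA G (CC P ℓ e), (t ∈ ins {x | e ⊂ ℓ x} ↔ e ⊂ lab_F1 ℓ t) := fun t ht => by
      obtain ⟨x, hx, c⟩ := min_F1 h h2 ht
      exact ⟨fun k => Finset.ssubset_of_ssubset_of_subset (k hx) c, fun k y hy =>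
        Finset.ssubset_of_ssubset_of_subset k ((sub_lab_F1 ht.1).1 subset_rfl y hy)⟩
    exact Cell.congr h5 fun σ hσ => ⟨fun k t ht => (h6 t (hσ.1 ht)).1 (k ht),
      fun k t ht => (h6 t (hσ.1 ht)).2 (k ht)⟩

end Pool.Agent.MP_6374aa_g

end

section

/-! Free sides are disjoint and cover. -/

namespace Pool.Agent.MP_6374aa_g

open Pool.Agent.MP_6374aa_gt Classical

variable {V U : Type} {G : SimpleGraph V} {A P : Set V} {K : SimpleGraph U} {B : Set U}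
  {ℓ : V → Finset U}

variable {τ : U → V → Set V}

theorem clq_mono_F4 {X Y : Set V} {s : Finset V} (hs : Clq G X s) (h : ↑s ⊆ Y) : Clq G Y s :=
  ⟨h, hs.2⟩

theorem memB_F4 (h : LabS G A K B P ℓ) {a : U} {x : V} (ha : x ∈ CC P ℓ {a}) : a ∈ B :=
  h.mem_B ha.1 (mem_CC_one.1 ha).2

theorem con_F4 (h : LabS G A K B P ℓ) (hτ : FreeL G A B P ℓ τ) {a : U} {x : V}
    (ha : x ∈ CC P ℓ {a}) : Con G (τ a x) := by
  have hB := memB_F4 h ha
  have h1 : Cell G (2 + 1) (Lk G A {x}) fun _ => False :=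
    Mf.sph_lk h.clA.2.2 (h.subset ha.1) (Set.notMem_empty x)
  have h2 : Cell G 2 (Lk G (CC P ℓ {a}) {x}) fun _ => False :=
    Cell.mfa (d := 2) (hτ.sph a hB) x ha
  exact (Cell.side h1 h2 le_rfl (lk_mono_C1 ((CC_subset _).trans h.subset) _)
    (Sided.split (d := 2) (hτ.sided a hB) ha)).2

theorem nbr_F4 (h : LabS G A K B P ℓ) (hτ : FreeL G A B P ℓ τ) {a : U} {x : V}
    (ha : x ∈ CC P ℓ {a}) {u w : V} (hu : u ∈ τ a x) (hw : w ∈ Lk G A {x}) (e : G.Adj u w) :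
    w ∈ CC P ℓ {a} ∨ w ∈ τ a x := by
  by_contra hn
  exact (hτ.sided a (memB_F4 h ha)).sep x ha u hu w ⟨hw, hn⟩ e

theorem sub_F4 (h : LabS G A K B P ℓ) (hτ : FreeL G A B P ℓ τ) {a b : U} {x : V}
    (ha : x ∈ CC P ℓ {a}) (hb : x ∈ CC P ℓ {b}) (hn : (τ a x ∩ τ b x).Nonempty) :
    τ a x ⊆ τ b x := by
  obtain ⟨y, hya, hyb⟩ := hn
  have key : ∀ u, ∀ w ∈ τ a x, G.Adj u w → u ∈ τ b x → w ∈ τ b x := fun u w hw e hu =>
    (nbr_F4 h hτ hb hu ((hτ.sided a (memB_F4 h ha)).subset x ha hw).1 e).resolve_left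
      fun k => hτ.out a (memB_F4 h ha) x ha w hw k.1
  intro z hz
  have := (con_F4 h hτ ha).2.const (φ := fun u => u ∈ τ b x)
    (fun u hu w hw e => propext ⟨key u w hw e, key w u hu e.symm⟩) hya hz
  exact this ▸ hyb

theorem pair_F4 (h : LabS G A K B P ℓ) {a b : U} (hab : a ≠ b) {x : V}
    (hx : x ∈ CC P ℓ {a, b}) : Cell G 3 (CC P ℓ {a, b}) (sub {x | {a, b} ⊂ ℓ x}) := by
  have h2 : ({a, b} : Finset U).card = 2 := Finset.card_pair hab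
  have := h.cell _ (h.mem_sA_of hx (Finset.insert_nonempty _ _)) h2.ge
  rwa [h2] at this

theorem left_F4 (a b : U) : CC P ℓ {a, b} ⊆ CC P ℓ {a} := CC_anti (by simp)

theorem right_F4 (a b : U) : CC P ℓ {a, b} ⊆ CC P ℓ {b} := CC_anti (by simp)

theorem bd_F4 (h : LabS G A K B P ℓ) (hτ : FreeL G A B P ℓ τ) {a b : U} (hab : a ≠ b) {x : V}
    (hP : x ∈ P) (hx : {a, b} ⊂ ℓ x) : ¬ (τ a x ∩ τ b x).Nonempty := by
  intro hn
  have ha : x ∈ CC P ℓ {a} := left_F4 a b ⟨hP, hx.subset⟩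
  have hb : x ∈ CC P ℓ {b} := right_F4 a b ⟨hP, hx.subset⟩
  obtain ⟨c, hc, hc'⟩ := Finset.exists_of_ssubset hx
  simp only [Finset.mem_insert, Finset.mem_singleton, not_or] at hc'
  have hac : a ≠ c := fun e => hc'.1 e.symm
  have hxc : x ∈ CC P ℓ {a, c} :=
    ⟨hP, Finset.insert_subset (mem_CC_one.1 ha).2 (Finset.singleton_subset_iff.2 hc)⟩
  obtain ⟨s, hs, hxs, h3, hnb⟩ := (pair_F4 h hac hxc).pure (clq_single_C1.2 hxc)
  have hxs' : x ∈ s := hxs (Finset.mem_singleton_self x)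
  obtain ⟨y, hy, hy'⟩ := Set.not_subset.1 hnb
  have hyc : y ∈ CC P ℓ {a, c} := hs.1 hy
  have hl : ℓ y = {a, c} := by
    by_contra k
    exact hy' (Finset.ssubset_iff_subset_ne.2 ⟨hyc.2, fun e => k e.symm⟩)
  have hby : b ∉ ℓ y := by
    rw [hl]
    simp only [Finset.mem_insert, Finset.mem_singleton, not_or]
    exact ⟨fun e => hab e.symm, fun e => hc'.2 e.symm⟩
  have hxy : G.Adj x y := ((clq_iff.1 hs).2 x hxs' y hy).resolve_left
    fun e => hby (e ▸ (mem_CC_one.1 hb).2)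
  obtain ⟨z, hz, hza⟩ := ((hτ.sided a (memB_F4 h ha)).two s
    (clq_mono_F4 hs (hs.1.trans (left_F4 a c))) h3 x hxs').1
  have hzb := sub_F4 h hτ ha hb hn hza
  rcases nbr_F4 h hτ hb hzb (mem_lk_C1.2 ⟨h.subset hyc.1, hxy⟩) (hz.2 y hy).symm with k | k
  · exact hby (mem_CC_one.1 k).2
  · exact hτ.out b (memB_F4 h hb) x hb y k hyc.1

theorem move_F4 (h : LabS G A K B P ℓ) (hτ : FreeL G A B P ℓ τ) {a b : U} (hab : a ≠ b) {x y : V}
    (hx : x ∈ CC P ℓ {a, b}) (hy : y ∈ CC P ℓ {a, b}) (e : G.Adj x y)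
    (hn : (τ a x ∩ τ b x).Nonempty) : (τ a y ∩ τ b y).Nonempty := by
  have ha := left_F4 a b hx
  have hb := right_F4 a b hx
  obtain ⟨s, hs, hxs, h3, -⟩ := (pair_F4 h hab hx).pure (pair_B2 hx hy (Or.inr e)).2
  have hxs' : x ∈ s := hxs (by simp)
  have hys' : y ∈ s := hxs (by simp)
  obtain ⟨z, hz, hza⟩ := ((hτ.sided a (memB_F4 h ha)).two s
    (clq_mono_F4 hs (hs.1.trans (left_F4 a b))) h3 x hxs').1
  have hzb := sub_F4 h hτ ha hb hn hza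
  have hz2 : z ∈ Lk G A {x, y} := mem_lk2_H4.2 ⟨hz.1, hz.2 x hxs', hz.2 y hys'⟩
  exact ⟨z, ((hτ.sided a (memB_F4 h ha)).compat x ha y (left_F4 a b hy) e z hz2).1 hza,
    ((hτ.sided b (memB_F4 h hb)).compat x hb y (right_F4 a b hy) e z hz2).1 hzb⟩

theorem FreeL.disj (h : LabS G A K B P ℓ) (hτ : FreeL G A B P ℓ τ) {a b : U} (hab : a ≠ b) {x : V}
    (ha : x ∈ CC P ℓ {a}) (hb : x ∈ CC P ℓ {b}) {y : V} (hy : y ∈ τ a x) : y ∉ τ b x := by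
  intro hy'
  have hx : x ∈ CC P ℓ {a, b} := ⟨ha.1, Finset.insert_subset (mem_CC_one.1 ha).2 hb.2⟩
  have hc := pair_F4 h hab hx
  have h1 := hc.2.2.1.1 (by simp [sub])
  rw [if_neg (by decide)] at h1
  obtain ⟨v, hv, hv'⟩ := h1
  have hv2 : {a, b} ⊂ ℓ v := hv' (Finset.mem_coe.2 (Finset.mem_singleton_self v))
  have := (Cell.con (d := 1) hc).2.const (φ := fun x => (τ a x ∩ τ b x).Nonempty)
    (fun u hu w hw e => propext ⟨move_F4 h hτ hab hu hw e, move_F4 h hτ hab hw hu e.symm⟩) hx hv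
  exact bd_F4 h hτ hab hv.1 hv2 (this ▸ ⟨y, hy, hy'⟩)

theorem ins_F4 {r s : Finset V} (hs : Clq G A s) (hr : r ⊆ s) (hc : r.card + 1 = s.card) :
    ∃ v ∈ Lk G A r, insert v r = s := by
  obtain ⟨v, hv, e⟩ := Finset.exists_eq_insert_iff.2 ⟨hr, hc⟩
  have hvs : v ∈ s := e ▸ Finset.mem_insert_self v r
  exact ⟨v, ⟨hs.1 hvs, fun u hu => ((clq_iff.1 hs).2 u (hr hu) v hvs).resolve_left
    fun k => hv (k ▸ hu)⟩, e⟩

theorem step_F4 (h : LabS G A K B P ℓ) (hτ : FreeL G A B P ℓ τ) {r : Finset V} (hr : Clq G A r)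
    (h3 : r.card = 3) {x : V} (hx : x ∈ r) (hP : x ∈ P) {w : V} (hw : w ∈ Lk G A r)
    (hg : ∃ a ∈ ℓ x, ∀ y ∈ r, y ∈ CC P ℓ {a} ∨ y ∈ τ a x) :
    ∃ a ∈ ℓ x, ∀ y ∈ insert w r, y ∈ CC P ℓ {a} ∨ y ∈ τ a x := by
  obtain ⟨a, hal, hg⟩ := hg
  have ha : x ∈ CC P ℓ {a} := mem_CC_one.2 ⟨hP, hal⟩
  by_cases hA : ∃ y ∈ r, y ∈ τ a x
  · obtain ⟨y, hy, hya⟩ := hA
    refine ⟨a, hal, fun u hu => ?_⟩
    rcases Finset.mem_insert.1 hu with rfl | hu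
    · exact nbr_F4 h hτ ha hya (mem_lk_C1.2 ⟨hw.1, hw.2 x hx⟩) (hw.2 y hy)
    · exact hg u hu
  · have hra : ∀ y ∈ r, y ∈ CC P ℓ {a} := fun y hy =>
      (hg y hy).resolve_right fun k => hA ⟨y, hy, k⟩
    obtain ⟨m, hm, hmin⟩ := h.exists_min (s := r)
      ⟨⟨x, hx⟩, fun y hy => (hra y hy).1, hr.2⟩
    obtain ⟨b, hbm, hba⟩ := Finset.exists_mem_ne
      (lt_of_lt_of_le (by norm_num) (h.mem m (hra m hm).1).2) a
    have hrb : ∀ y ∈ r, y ∈ CC P ℓ {b} := fun y hy => mem_CC_one.2 ⟨(hra y hy).1, hmin y hy hbm⟩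
    have hb := hrb x hx
    obtain ⟨za, hza, hza'⟩ :=
      ((hτ.sided a (memB_F4 h ha)).two r (clq_mono_F4 hr hra) h3 x hx).1
    obtain ⟨zb, hzb, hzb'⟩ :=
      ((hτ.sided b (memB_F4 h hb)).two r (clq_mono_F4 hr hrb) h3 x hx).1
    have hne : za ≠ zb := fun e => FreeL.disj h hτ hba hb ha hzb' (e ▸ hza')
    have hl := (Mfa.link h.clA.2.2 hr ⟨x, hx, hr.1 hx⟩).2
    rw [h3] at hl
    have hn : (Lk G A r).ncard = 1 ∨ (Lk G A r).ncard = 2 := hl.2.1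
    have hw2 : w = za ∨ w = zb := by
      by_contra k
      rw [not_or] at k
      have := (Set.two_lt_ncard_iff hl.finite).2 ⟨w, za, zb, hw, hza, hzb, k.1, k.2, hne⟩
      omega
    rcases hw2 with rfl | rfl
    · refine ⟨a, hal, fun u hu => ?_⟩
      rcases Finset.mem_insert.1 hu with rfl | hu
      · exact Or.inr hza'
      · exact Or.inl (hra u hu)
    · refine ⟨b, (mem_CC_one.1 hb).2, fun u hu => ?_⟩
      rcases Finset.mem_insert.1 hu with rfl | hu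
      · exact Or.inr hzb'
      · exact Or.inl (hrb u hu)

theorem FreeL.good (h : LabS G A K B P ℓ) (hτ : FreeL G A B P ℓ τ) {t : Finset V} (ht : Clq G A t)
    {x : V} (hx : x ∈ t) (hP : x ∈ P) : ∃ a ∈ ℓ x, ∀ y ∈ t, y ∈ CC P ℓ {a} ∨ y ∈ τ a x := by
  have hxA : x ∈ A := h.subset hP
  have hM : Mfa G 3 A (sub ∅) {x} := Mfa.mono h.clA.2.2 (Set.singleton_subset_iff.2 hxA)
  obtain ⟨t', ht', htt, h4, -⟩ := hM.pure ht ⟨x, hx, rfl⟩
  obtain ⟨a, hal⟩ := (h.mem x hP).1.1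
  have ha : x ∈ CC P ℓ {a} := mem_CC_one.2 ⟨hP, hal⟩
  obtain ⟨r, hr, hxr, h3, -⟩ := Cell.pure (hτ.sph a (memB_F4 h ha)) (clq_single_C1.2 ha)
  have hxr' : x ∈ r := hxr (Finset.mem_singleton_self x)
  have hrA : Clq G A r := clq_mono_F4 hr (hr.1.trans ((CC_subset _).trans h.subset))
  obtain ⟨z, hz, -⟩ := ((hτ.sided a (memB_F4 h ha)).two r hr h3 x hxr').1
  have hz2 := (clq_lk hrA (t := {z})).1 (clq_single_C1.2 hz)
  have hzr : z ∉ r := Finset.disjoint_singleton_right.1 hz2.2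
  have hs : Clq G A (insert z r) := by
    have := hz2.1
    rwa [Finset.union_comm, Finset.singleton_union] at this
  have hg := step_F4 h hτ hrA h3 hxr' hP hz ⟨a, hal, fun y hy => Or.inl (hr.1 hy)⟩
  have key : ∀ s t : Finset V, Clq G A t → t.card = 3 + 1 → (s ∩ t).card = 3 → x ∈ s ∩ t →
      (∃ a ∈ ℓ x, ∀ y ∈ s, y ∈ CC P ℓ {a} ∨ y ∈ τ a x) →
      ∃ a ∈ ℓ x, ∀ y ∈ t, y ∈ CC P ℓ {a} ∨ y ∈ τ a x := by
    intro s t ht h4 h3 hx ⟨a, hal, hg⟩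
    obtain ⟨w, hw, e⟩ := ins_F4 ht (Finset.inter_subset_right (s₁ := s)) (by omega)
    have := step_F4 h hτ (ht.subset Finset.inter_subset_right) h3 hx hP hw
      ⟨a, hal, fun y hy => hg y (Finset.inter_subset_left hy)⟩
    rwa [e] at this
  have he := hM.strong (Set.singleton_subset_iff.2 hxA) (con_singleton x).2
    (fun s => ∃ a ∈ ℓ x, ∀ y ∈ s, y ∈ CC P ℓ {a} ∨ y ∈ τ a x)
    (fun s t hs ht s4 t4 h3 hm => by
      obtain ⟨v, hv, rfl⟩ := hm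
      exact propext ⟨key s t ht t4 h3 hv,
        key t s hs s4 (Finset.inter_comm s t ▸ h3) (Finset.inter_comm s t ▸ hv)⟩)
    hs ht' (by rw [Finset.card_insert_of_notMem hzr, h3]) h4
    ⟨x, Finset.mem_insert_of_mem hxr', rfl⟩ ⟨x, htt hx, rfl⟩
  obtain ⟨b, hb, hg'⟩ : ∃ a ∈ ℓ x, ∀ y ∈ t', y ∈ CC P ℓ {a} ∨ y ∈ τ a x := he ▸ hg
  exact ⟨b, hb, fun y hy => hg' y (htt hy)⟩

end Pool.Agent.MP_6374aa_g

end

section

/-! Points, arcs and circles. -/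

namespace Pool.Agent.MP_6374aa_g

open Pool.Agent.MP_6374aa_gt Classical

variable {V V' : Type} {G : SimpleGraph V} {G' : SimpleGraph V'} {A : Set V} {A' : Set V'}

theorem pt_Arc (a : V) : BP 0 (Rz G {a}) ∅ :=
  bp_zero.2 ⟨_, rz_singleton a, Set.notMem_empty _⟩

theorem disj_Arc {a b : V} (h : a ≠ b) : Rz G {a} ∩ Rz G {b} = ∅ := by
  rw [rz_inter, Set.singleton_inter_eq_empty.2 (Set.notMem_singleton_iff.2 h), rz_empty]

theorem edge_Arc {a w : V} (h : G.Adj a w) : BP 1 (Rz G {a, w}) (Rz G {w} ∪ Rz G {a}) := by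
  have := rz_cone_bp (G := G) (A := {w}) (c := a) (T := ∅) (n := 0) (fun x hx => hx ▸ h)
    (rz_empty (G := G) ▸ pt_Arc w)
  rwa [Set.inter_empty, insert_empty_eq] at this

theorem split_Arc {v : V} (hv : v ∈ A) :
    Rz G A = Rz G (insert v (Lk G A {v})) ∪ Rz G (A \ {v}) ∧
      Rz G (insert v (Lk G A {v})) ∩ Rz G (A \ {v}) = Rz G (Lk G A {v}) := by
  constructor
  · rw [← rz_union]
    · congr 1
      ext x
      constructor
      · exact fun hx => (eq_or_ne x v).imp Or.inl fun e => ⟨hx, e⟩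
      · rintro ((rfl | hx) | hx)
        exacts [hv, hx.1, hx.1]
    · rintro a ⟨rfl | ha, ha'⟩ b hb hab
      · exact hb.2 (Or.inr (mem_lk_H3.2 ⟨hb.1.1, hab⟩))
      · exact ha' ⟨ha.1, (mem_lk_H3.1 ha).2.ne'⟩
  · rw [rz_inter]
    congr 1
    ext x
    exact ⟨fun hx => hx.1.resolve_left hx.2.2,
      fun hx => ⟨Or.inr hx, hx.1, (mem_lk_H3.1 hx).2.ne'⟩⟩

theorem path_Arc (n : ℕ) : ∀ (A : Set V) (a b : V), A.ncard = n → A.Finite → Pre G A → a ∈ A →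
    b ∈ A → a ≠ b → (Lk G A {a}).ncard = 1 → (Lk G A {b}).ncard = 1 →
    (∀ v ∈ A, v ≠ a → v ≠ b → (Lk G A {v}).ncard = 2) → BP 1 (Rz G A) (Rz G {a} ∪ Rz G {b}) := by
  induction n with
  | zero =>
    intro A a b hn hf _ ha
    rw [Set.ncard_eq_zero hf] at hn
    exact absurd ha (hn ▸ Set.notMem_empty a)
  | succ n ih =>
    intro A a b hn hf hp ha hb hab h1 h2 h3
    obtain ⟨w, hw⟩ := Set.ncard_eq_one.1 h1
    have k1 : ∀ x, x ∈ A ∧ G.Adj a x ↔ x = w := fun x => by rw [← mem_lk_H3, hw]; rfl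
    obtain ⟨hwA, haw⟩ := (k1 w).2 rfl
    have k2 : a ∈ Lk G A {w} := mem_lk_H3.2 ⟨ha, haw.symm⟩
    by_cases e : w = b
    · subst e
      obtain ⟨c, hc⟩ := Set.ncard_eq_one.1 h2
      have k3 : Clopen G A {a, w} := by
        refine ⟨Set.pair_subset ha hwA, ?_⟩
        rintro x (rfl | rfl) y hy hxy
        · exact Or.inr ((k1 y).1 ⟨hy, hxy⟩)
        · have k4 : y ∈ Lk G A {x} := mem_lk_H3.2 ⟨hy, hxy⟩
          rw [hc] at k2 k4
          exact Or.inl (k4.trans k2.symm)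
      rw [(hp.subset_clopen subset_rfl k3 ha (Or.inl rfl)).antisymm k3.1, Set.union_comm]
      exact edge_Arc haw
    · have k3 : ∀ v ∈ A, v ≠ w → Lk G (A \ {a}) {v} = Lk G A {v} := fun v hv hvw => by
        rw [lk_diff_H3]
        exact Set.sdiff_singleton_eq_self fun k => hvw ((k1 v).1 ⟨hv, (mem_lk_H3.1 k).2.symm⟩)
      have k4 := ih (A \ {a}) w b (by rw [Set.ncard_sdiff_singleton_of_mem ha, hn]; rfl)
        hf.sdiff (rem_one_pre hp (hw ▸ (con_singleton w).2)) ⟨hwA, haw.ne'⟩ ⟨hb, hab.symm⟩ e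
        (by rw [lk_diff_H3, Set.ncard_sdiff_singleton_of_mem k2, h3 w hwA haw.ne' e])
        (by rw [k3 b hb (Ne.symm e), h2])
        fun v hv e1 e2 => by rw [k3 v hv.1 e1, h3 v hv.1 hv.2 e2]
      obtain ⟨k5, k6⟩ := split_Arc (G := G) ha
      rw [hw] at k5 k6
      rw [k5]
      refine BP.union (edge_Arc haw) k4 (Set.inter_eq_right.2 ?_) (Set.inter_eq_right.2 ?_) k6
        (pt_Arc w) (pt_Arc a) (pt_Arc b) (disj_Arc haw.ne') (disj_Arc e)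
      · exact Set.union_subset (rz_mono (by simp)) (rz_mono (by simp))
      · exact Set.union_subset (rz_mono (Set.singleton_subset_iff.2 ⟨hwA, haw.ne'⟩))
          (rz_mono (Set.singleton_subset_iff.2 ⟨hb, hab.symm⟩))

theorem rb_Arc {β : Finset V → Prop} (h : Cell G 2 A β) {x : V → ℝ} :
    x ∈ Rb G A β ↔ ∃ v, (v ∈ A ∧ β {v}) ∧ x ∈ Rz G {v} := by
  constructor
  · rintro ⟨hx, s, hs, hb, h1⟩
    obtain ⟨t, ⟨⟨v, hv⟩, -⟩, h2⟩ := rz_supp hx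
    have hv' := h1 v ((h2 v).2 hv)
    refine ⟨v, ⟨hs.1 hv', h.down hs (Finset.singleton_subset_iff.2 hv') hb⟩,
      rz_of_supp hx fun u hu => by_contra fun e => ?_⟩
    have hu' := h1 u hu
    exact noedge_H1 h.mfa (hs.1 hu') (hs.1 hv') (hs.2 hu' hv' e)
      (h.down hs (Finset.insert_subset hu' (Finset.singleton_subset_iff.2 hv')) hb)
  · rintro ⟨v, ⟨h1, h2⟩, hx⟩
    exact ⟨rz_mono (Set.singleton_subset_iff.2 h1) hx, {v}, clq_single_C1.2 h1, h2,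
      fun u hu => Finset.mem_singleton.2 (hx.2.1 u hu)⟩

theorem Cell.bp_zero {β : Finset V → Prop} (h : Cell G 1 A β) (hb : β ∅) :
    BP 0 (Rz G A) (Rb G A β) := by
  obtain ⟨a, rfl⟩ := Set.ncard_eq_one.1 (by simpa using h.2.2.1.1 hb : A.ncard = 1)
  refine bp_zero.2 ⟨_, rz_singleton a, ?_⟩
  rintro ⟨-, s, hs, h1, h2⟩
  have h3 := h.down hs (Finset.singleton_subset_iff.2 (h2 a (by simp))) h1
  exact (h.2.2.2 a rfl).2 (by simpa using h3)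

theorem Cell.bp_one {β : Finset V → Prop} (h : Cell G 2 A β) (hb : β ∅) :
    BP 1 (Rz G A) (Rb G A β) := by
  obtain ⟨a, b, hab, e⟩ := Set.ncard_eq_two.1 (h.arc_ends hb)
  have k : ∀ v, v ∈ A ∧ β {v} ↔ v = a ∨ v = b := fun v => Set.ext_iff.1 e v
  have ha := (k a).2 (Or.inl rfl)
  have hb' := (k b).2 (Or.inr rfl)
  have e2 : Rb G A β = Rz G {a} ∪ Rz G {b} := by
    ext x
    rw [rb_Arc h]
    simp only [k, or_and_right, exists_or, exists_eq_left, Set.mem_union]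
  rw [e2]
  exact path_Arc _ A a b rfl h.finite h.con.2 ha.1 hb'.1 hab
    ((card_H1 h.mfa ha.1).resolve_right fun c => c.1 ha.2).2
    ((card_H1 h.mfa hb'.1).resolve_right fun c => c.1 hb'.2).2
    fun v hv e1 e2 => ((card_H1 h.mfa hv).resolve_left fun c =>
      ((k v).1 ⟨hv, c.1⟩).elim e1 e2).2

theorem ball_Arc {d : ℕ} {T : Set V} (h : Ball G (d + 1) A T) (hd : d ≤ 1) :
    BP d (Rz G A) (Rz G T) := by
  have key : BP d (Rz G A) (Rb G A (sub T)) := by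
    obtain rfl | rfl : d = 0 ∨ d = 1 := by omega
    · exact Cell.bp_zero h (sub_empty_H3 T)
    · exact Cell.bp_one h (sub_empty_H3 T)
  refine key.congr ?_
  rw [rb_sub, rz_inter, rz_inter, ← Set.inter_assoc, Set.inter_self]

theorem rem_Arc {d : ℕ} {v : V} (hv : v ∈ A) (hl : SP d (Rz G (Lk G A {v})))
    (hr : BP d (Rz G (A \ {v})) (Rz G (Lk G A {v}))) : SP (d + 1) (Rz G A) := by
  obtain ⟨k1, k2⟩ := split_Arc (G := G) hv
  rw [k1]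
  exact SP.of_two (rz_cone_sp (fun a ha => (mem_lk_H3.1 ha).2) hl) hr k2

theorem Sph.sp_le_two {d : ℕ} (h : Sph G d A) (hd : d ≤ 2) : SP d (Rz G A) := by
  induction d generalizing A with
  | zero => rw [show A = ∅ from h.1, rz_empty, sp_zero]
  | succ d ih =>
    obtain ⟨v, hv⟩ := Cell.nonempty h
    exact rem_Arc hv (ih (h.mf.sph_lk hv (Set.notMem_empty v)) (by omega))
      (ball_Arc (h.rem (by omega) hv) (by omega))

theorem Ball.bp_le_one {d : ℕ} {T : Set V} (h : Ball G (d + 1) A T) (hd : d ≤ 1) :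
    BP d (Rz G A) (Rz G T) := by
  exact ball_Arc h hd

/-- A sphere is the union of the star of a vertex and its complement. -/
theorem sp_of_rem {d : ℕ} {v : V} (hv : v ∈ A) (hl : SP d (Rz G (Lk G A {v})))
    (hr : BP d (Rz G (A \ {v})) (Rz G (Lk G A {v}))) : SP (d + 1) (Rz G A) := by
  exact rem_Arc hv hl hr

end Pool.Agent.MP_6374aa_g

end

section

/-! The barycentric map. -/

namespace Pool.Agent.MP_6374aa_g

open Pool.Agent.MP_6374aa_gt Classical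

variable {V V' : Type} {G : SimpleGraph V} {G' : SimpleGraph V'} {A : Set V} {A' : Set V'}

theorem bar_eq_Sd {y : Finset V → ℝ} {P : Finset (Finset V)} (hP : ∀ σ, y σ ≠ 0 → σ ∈ P) (v : V) :
    bar y v = ∑ σ ∈ P, y σ * (if v ∈ σ then ((σ.card : ℝ))⁻¹ else 0) := by
  rw [bar, finsum_mem_def, finsum_eq_sum_of_support_subset (s := P)]
  · refine Finset.sum_congr rfl fun σ _ => ?_
    rw [Set.indicator_apply]
    simp only [Set.mem_ofPred_eq]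
    split_ifs
    · exact div_eq_mul_inv _ _
    · exact (mul_zero _).symm
  · intro σ hσ
    refine hP σ fun h => hσ ?_
    simp [Set.indicator_apply, h]

/-- Nonnegative functions supported on a chain of nonempty sets. -/
def Chn_Sd (y : Finset V → ℝ) : Prop :=
  (∀ σ, 0 ≤ y σ) ∧ y ∅ = 0 ∧ ∀ σ τ, y σ ≠ 0 → y τ ≠ 0 → σ ⊆ τ ∨ τ ⊆ σ

theorem nonneg_Sd {y : Finset V → ℝ} {P : Finset (Finset V)} (hP : ∀ σ, y σ ≠ 0 → σ ∈ P)
    (h : ∀ σ, 0 ≤ y σ) (v : V) : 0 ≤ bar y v := by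
  rw [bar_eq_Sd hP]
  exact Finset.sum_nonneg fun σ _ => mul_nonneg (h σ) (by positivity)

theorem supp_Sd {y : Finset V → ℝ} {P : Finset (Finset V)} (hP : ∀ σ, y σ ≠ 0 → σ ∈ P)
    (h : ∀ σ, 0 ≤ y σ) {v : V} : bar y v ≠ 0 ↔ ∃ σ, y σ ≠ 0 ∧ v ∈ σ := by
  rw [bar_eq_Sd hP]
  constructor
  · intro h0
    obtain ⟨σ, -, h1⟩ := Finset.exists_ne_zero_of_sum_ne_zero h0
    exact ⟨σ, left_ne_zero_of_mul h1, by_contra fun h2 => right_ne_zero_of_mul h1 (if_neg h2)⟩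
  · rintro ⟨σ, h1, h2⟩ h0
    have h3 := (Finset.sum_eq_zero_iff_of_nonneg fun τ _ =>
      mul_nonneg (h τ) (by positivity)).1 h0 σ (hP σ h1)
    rw [if_pos h2] at h3
    exact mul_ne_zero h1 (inv_ne_zero (by exact_mod_cast Finset.card_ne_zero_of_mem h2)) h3

theorem sum_Sd {y : Finset V → ℝ} {P : Finset (Finset V)} (hP : ∀ σ, y σ ≠ 0 → σ ∈ P)
    (h : ∀ σ, 0 ≤ y σ) (h0 : y ∅ = 0) : ∑ᶠ v, bar y v = ∑ᶠ σ, y σ := by
  rw [finsum_eq_sum_of_support_subset (s := P) _ fun σ hσ => hP σ hσ,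
    finsum_eq_sum_of_support_subset (s := P.biUnion id) _ fun v hv => ?_]
  · simp only [bar_eq_Sd hP]
    rw [Finset.sum_comm]
    refine Finset.sum_congr rfl fun σ hσ => ?_
    rcases σ.eq_empty_or_nonempty with rfl | h1
    · simp [h0]
    · have : (σ.card : ℝ) ≠ 0 := by exact_mod_cast h1.card_pos.ne'
      rw [← Finset.mul_sum, Finset.sum_ite_mem,
        Finset.inter_eq_right.2 (show σ ⊆ P.biUnion id from Finset.subset_biUnion_of_mem id hσ), Finset.sum_const,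
        nsmul_eq_mul, mul_inv_cancel₀ this, mul_one]
  · obtain ⟨σ, h1, h2⟩ := (supp_Sd hP h).1 hv
    exact Finset.mem_coe.2 (Finset.mem_biUnion.2 ⟨σ, hP σ h1, h2⟩)

theorem lt_Sd {y y' : Finset V → ℝ} {P : Finset (Finset V)} (hP : ∀ σ, y σ ≠ 0 → σ ∈ P)
    (hP' : ∀ σ, y' σ ≠ 0 → σ ∈ P) (hy : Chn_Sd y) (hy' : Chn_Sd y') {σ : Finset V}
    (h1 : y' σ < y σ) (h2 : ∀ τ, σ.card < τ.card → y τ = y' τ) : ∃ v, bar y' v < bar y v := by
  have h3 : σ.Nonempty := Finset.nonempty_iff_ne_empty.2 fun h => by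
    rw [h, hy.2.1, hy'.2.1] at h1
    exact lt_irrefl _ h1
  obtain ⟨v, hv, h4⟩ : ∃ v ∈ σ, ∀ τ, y' τ ≠ 0 → τ.card ≤ σ.card → τ ≠ σ → v ∉ τ := by
    rcases (P.filter fun τ => y' τ ≠ 0 ∧ τ.card ≤ σ.card ∧ τ ≠ σ).eq_empty_or_nonempty with h | h
    · obtain ⟨v, hv⟩ := h3
      exact ⟨v, hv, fun τ a b c => absurd ⟨a, b, c⟩ (Finset.filter_eq_empty_iff.1 h (hP' τ a))⟩
    obtain ⟨ω, h5, h6⟩ := Finset.exists_max_image _ Finset.card h
    obtain ⟨-, a, b, c⟩ := Finset.mem_filter.1 h5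
    obtain ⟨v, hv, hv'⟩ := Finset.not_subset.1 fun h7 : σ ⊆ ω =>
      c (Finset.eq_of_subset_of_card_le h7 b).symm
    refine ⟨v, hv, fun τ a' b' c' h7 => hv' ?_⟩
    rcases hy'.2.2 τ ω a' a with h8 | h8
    · exact h8 h7
    · rwa [Finset.eq_of_subset_of_card_le h8 (h6 τ (Finset.mem_filter.2 ⟨hP' τ a', a', b', c'⟩))]
  refine ⟨v, ?_⟩
  rw [bar_eq_Sd hP, bar_eq_Sd hP']
  refine Finset.sum_lt_sum (fun τ _ => ?_) ⟨σ, hP σ ((hy'.1 σ).trans_lt h1).ne', ?_⟩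
  · split_ifs with h5
    · refine mul_le_mul_of_nonneg_right ?_ (by positivity)
      rcases lt_or_ge σ.card τ.card with h6 | h6
      · exact (h2 τ h6).ge
      · by_cases h7 : τ = σ
        · rw [h7]
          exact h1.le
        · rw [not_not.1 fun h8 => h4 τ h8 h6 h7 h5]
          exact hy.1 τ
    · simp
  · rw [if_pos hv]
    exact mul_lt_mul_of_pos_right h1 (inv_pos.2 (by exact_mod_cast h3.card_pos))

theorem inj_Sd {y y' : Finset V → ℝ} {P : Finset (Finset V)} (hP : ∀ σ, y σ ≠ 0 → σ ∈ P)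
    (hP' : ∀ σ, y' σ ≠ 0 → σ ∈ P) (hy : Chn_Sd y) (hy' : Chn_Sd y') (h : bar y = bar y') :
    y = y' := by
  by_contra h1
  have h0 : ∀ τ, y τ ≠ y' τ → τ ∈ P.filter fun τ => y τ ≠ y' τ := fun τ hτ =>
    Finset.mem_filter.2 ⟨by_contra fun h2 => hτ ((not_not.1 fun h3 => h2 (hP τ h3)).trans
      (not_not.1 fun h3 => h2 (hP' τ h3)).symm), hτ⟩
  obtain ⟨σ, h2, h3⟩ := Finset.exists_max_image (P.filter fun τ => y τ ≠ y' τ) Finset.card
    ((Function.ne_iff.1 h1).imp h0)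
  have h4 : ∀ τ, σ.card < τ.card → y τ = y' τ := fun τ hτ => by
    by_contra h5
    exact (h3 τ (h0 τ h5)).not_gt hτ
  rcases lt_or_gt_of_ne (Finset.mem_filter.1 h2).2 with h5 | h5
  · obtain ⟨v, hv⟩ := lt_Sd hP' hP hy' hy h5 fun τ hτ => (h4 τ hτ).symm
    exact hv.ne (congrFun h v)
  · obtain ⟨v, hv⟩ := lt_Sd hP hP' hy hy' h5 h4
    exact hv.ne' (congrFun h v)

theorem surj_Sd (s : Finset V) : ∀ x : V → ℝ, (∀ v, 0 ≤ x v) → (∀ v ∉ s, x v = 0) →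
    ∃ y, Chn_Sd y ∧ (∀ σ, y σ ≠ 0 → σ ⊆ s) ∧ bar y = x := by
  induction s using Finset.strongInduction with
  | H s ih =>
  intro x h1 h2
  rcases s.eq_empty_or_nonempty with rfl | hs
  · refine ⟨0, ⟨fun _ => le_rfl, rfl, fun _ _ h => absurd rfl h⟩, fun _ h => absurd rfl h, ?_⟩
    funext v
    simp [bar, h2 v]
  obtain ⟨a, ha, h3⟩ := Finset.exists_min_image s x hs
  obtain ⟨y, h4, h5, h6⟩ := ih (s.erase a) (Finset.erase_ssubset ha)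
    (fun v => x v - if v ∈ s then x a else 0)
    (fun v => by
      split_ifs with h
      · exact sub_nonneg.2 (h3 v h)
      · simpa using h1 v)
    fun v hv => by
      by_cases h : v ∈ s
      · rw [if_pos h, not_not.1 fun h' => hv (Finset.mem_erase.2 ⟨h', h⟩), sub_self]
      · rw [if_neg h, h2 v h, sub_zero]
  have h7 : ∀ σ, (y σ + if σ = s then x a * s.card else 0) ≠ 0 → σ = s ∨ y σ ≠ 0 := fun σ h => by
    by_contra h8
    rw [not_or, not_not] at h8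
    exact h (by rw [if_neg h8.1, h8.2, add_zero])
  have h8 : ∀ σ, y σ ≠ 0 → σ ⊆ s := fun σ h => (h5 σ h).trans (Finset.erase_subset _ _)
  refine ⟨fun σ => y σ + if σ = s then x a * s.card else 0, ⟨fun σ => add_nonneg (h4.1 σ) ?_, ?_,
    fun σ τ hσ hτ => ?_⟩, fun σ h => (h7 σ h).elim Eq.subset (h8 σ), funext fun v => ?_⟩
  · have := h1 a
    positivity
  · simp only [h4.2.1, if_neg hs.ne_empty.symm, add_zero]
  · rcases h7 σ hσ with rfl | h9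
    · exact Or.inr ((h7 τ hτ).elim Eq.subset (h8 τ))
    · exact (h7 τ hτ).elim (fun h => Or.inl (h ▸ h8 σ h9)) (h4.2.2 σ τ h9)
  · have h9 := congrFun h6 v
    have h10 : (s.card : ℝ) ≠ 0 := by exact_mod_cast hs.card_pos.ne'
    rw [bar_eq_Sd (P := s.powerset) fun σ h => Finset.mem_powerset.2 (h8 σ h)] at h9
    rw [bar_eq_Sd (P := s.powerset) fun σ h =>
      Finset.mem_powerset.2 ((h7 σ h).elim Eq.subset (h8 σ))]
    simp only [add_mul, Finset.sum_add_distrib, h9, ite_mul, zero_mul, Finset.sum_ite_eq',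
      Finset.mem_powerset_self, if_true]
    split_ifs
    · rw [mul_assoc, mul_inv_cancel₀ h10, mul_one, sub_add_cancel]
    · simp

theorem chn_Sd {y : Finset V → ℝ} (hy : y ∈ Rz (sG V) (sA G A)) : Chn_Sd y :=
  ⟨hy.1, not_not.1 fun h => (hy.2.1 _ h).1.ne_empty rfl, fun σ τ hσ hτ =>
    adq_sG.1 (hy.2.2.1 σ τ hσ hτ)⟩

theorem supp_rz_Sd {y : Finset V → ℝ} (hy : y ∈ Rz (sG V) (sA G A)) {v : V} :
    bar y v ≠ 0 ↔ ∃ σ, y σ ≠ 0 ∧ v ∈ σ :=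
  let ⟨_, _, hP⟩ := rz_supp hy
  supp_Sd (fun σ => (hP σ).1) hy.1

theorem maps_Sd {y : Finset V → ℝ} (hy : y ∈ Rz (sG V) (sA G A)) : bar y ∈ Rz G A := by
  obtain ⟨P, -, hP⟩ := rz_supp hy
  refine ⟨nonneg_Sd (fun σ => (hP σ).1) hy.1, fun v hv => ?_, fun u v hu hv => ?_,
    (sum_Sd (fun σ => (hP σ).1) hy.1 (chn_Sd hy).2.1).trans hy.2.2.2⟩
  · obtain ⟨σ, h1, h2⟩ := (supp_rz_Sd hy).1 hv
    exact (hy.2.1 σ h1).2.1 h2
  · obtain ⟨σ, h1, h2⟩ := (supp_rz_Sd hy).1 hu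
    obtain ⟨τ, h3, h4⟩ := (supp_rz_Sd hy).1 hv
    rcases (chn_Sd hy).2.2 σ τ h1 h3 with h5 | h5
    · exact (mem_sA.1 (hy.2.1 τ h3)).2.2 u (h5 h2) v h4
    · exact (mem_sA.1 (hy.2.1 σ h1)).2.2 u h2 v (h5 h4)

theorem onto_Sd {x : V → ℝ} (hx : x ∈ Rz G A) : ∃ y ∈ Rz (sG V) (sA G A), bar y = x := by
  obtain ⟨s, hs, h⟩ := rz_supp hx
  obtain ⟨y, h1, h2, h3⟩ := surj_Sd s x hx.1 fun v hv => not_not.1 fun k => hv ((h v).1 k)
  refine ⟨y, ⟨h1.1, fun σ hσ => sA_down hs (h2 σ hσ)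
    (Finset.nonempty_iff_ne_empty.2 fun e => hσ (e ▸ h1.2.1)),
    fun σ τ hσ hτ => adq_sG.2 (h1.2.2 σ τ hσ hτ), ?_⟩, h3⟩
  rw [← sum_Sd (P := s.powerset) (fun σ k => Finset.mem_powerset.2 (h2 σ k)) h1.1 h1.2.1, h3]
  exact hx.2.2.2

theorem bar_hm (hf : A.Finite) : HM (Rz (sG V) (sA G A)) (Rz G A) bar := by
  have hP : ∀ y ∈ Rz (sG V) (sA G A), ∀ σ, y σ ≠ 0 → σ ∈ (sA_finite (G := G) hf).toFinset :=
    fun y hy σ h => (Set.Finite.mem_toFinset _).2 (hy.2.1 σ h)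
  refine ⟨?_, fun y hy => maps_Sd hy,
    fun y hy y' hy' h => inj_Sd (hP y hy) (hP y' hy') (chn_Sd hy) (chn_Sd hy') h,
    fun x hx => onto_Sd hx⟩
  refine ContinuousOn.congr (Continuous.continuousOn ?_)
    fun y hy => funext fun v => bar_eq_Sd (hP y hy) v
  exact continuous_pi fun v => continuous_finsetSum _ fun σ _ =>
    (continuous_apply σ).mul continuous_const

theorem bar_image (hf : A.Finite) : bar '' Rz (sG V) (sA G A) = Rz G A :=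
  (bar_hm hf).2.image_eq

theorem bar_mem (hf : A.Finite) {y : Finset V → ℝ} (hy : y ∈ Rz (sG V) (sA G A)) (T : Set V) :
    y ∈ Rz (sG V) (ins T) ↔ bar y ∈ Rz G T := by
  refine ⟨fun h => rz_of_supp ((bar_hm hf).2.1 hy) fun v hv => ?_,
    fun h => rz_of_supp hy fun σ hσ v hv => h.2.1 v ((supp_rz_Sd hy).2 ⟨σ, hσ, hv⟩)⟩
  obtain ⟨σ, h1, h2⟩ := (supp_rz_Sd hy).1 hv
  exact h.2.1 σ h1 h2

theorem bar_image_rb (hf : A.Finite) {β : Finset V → Prop}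
    (hβ : ∀ t ∈ sA G A, ∀ s ∈ sA G A, s ⊆ t → β t → β s) :
    bar '' Rz (sG V) {s | s ∈ sA G A ∧ β s} = Rb G A β := by
  apply Set.Subset.antisymm
  · rintro _ ⟨y, hy, rfl⟩
    have hy' : y ∈ Rz (sG V) (sA G A) := rz_mono (fun _ h => h.1) hy
    obtain ⟨P, h1, h2⟩ := rz_supp hy
    have h3 := h1.2.1 (top_mem h1)
    refine ⟨(bar_hm hf).2.1 hy', top P, h3.1.2, h3.2, fun v hv => ?_⟩
    obtain ⟨σ, h4, h5⟩ := (supp_rz_Sd hy').1 hv
    exact subset_top ((h2 σ).1 h4) h5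
  · rintro x ⟨hx, s, h1, h2, h3⟩
    obtain ⟨y, hy, rfl⟩ := onto_Sd hx
    refine ⟨y, rz_of_supp hy fun σ hσ => ?_, rfl⟩
    have h4 : σ ⊆ s := fun v hv => h3 v ((supp_rz_Sd hy).2 ⟨σ, hσ, hv⟩)
    have h5 := hy.2.1 σ hσ
    exact ⟨h5, hβ s ⟨h5.1.mono h4, h1⟩ σ h5 h4 h2⟩

theorem bp_sd (hf : A.Finite) {T : Set V} {n : ℕ} :
    BP n (Rz (sG V) (sA G A)) (Rz (sG V) (ins T)) ↔ BP n (Rz G A) (Rz G T) := by
  refine ⟨fun h => h.map (bar_hm hf) (Set.Subset.antisymm ?_ fun x hx => ?_),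
    fun h => h.comap (rz_compact (sA_finite hf)) (bar_hm hf) fun y hy => bar_mem hf hy T⟩
  · rintro _ ⟨y, hy, rfl⟩
    exact ⟨maps_Sd hy.1, (bar_mem hf hy.1 T).1 hy.2⟩
  · obtain ⟨y, hy, rfl⟩ := onto_Sd hx.1
    exact ⟨y, ⟨hy, (bar_mem hf hy T).2 hx.2⟩, rfl⟩

theorem bp_sd' (hf : A.Finite) {T : Set V} {n : ℕ} :
    BP n (Rz (sG V) (sA G A)) (Rz (sG V) (sA G T)) ↔ BP n (Rz G A) (Rz G T) := by
  have e : Rz (sG V) (sA G A) ∩ Rz (sG V) (sA G T) = Rz (sG V) (sA G A) ∩ Rz (sG V) (ins T) := by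
    rw [rz_inter, rz_inter, ← sA_inter, sA_inter']
  rw [← bp_sd hf]
  exact ⟨fun h => h.congr e, fun h => h.congr e.symm⟩

theorem sp_sd (hf : A.Finite) {n : ℕ} : SP n (Rz (sG V) (sA G A)) ↔ SP n (Rz G A) :=
  ⟨fun h => h.map (bar_hm hf), fun h => h.comap (rz_compact (sA_finite hf)) (bar_hm hf)⟩

theorem sdh_main : SDH_st := fun X hf =>
  (homeo_iff (X := X.sd) (Y := X) (sA_finite hf)).2 ⟨bar, bar_hm hf⟩

end Pool.Agent.MP_6374aa_g

end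

section

/-! Unions of open simplices, arcs and triangles. -/

namespace Pool.Agent.MP_6374aa_g

open Pool.Agent.MP_6374aa_gt Classical

variable {V V' : Type} {G : SimpleGraph V} {G' : SimpleGraph V'} {A : Set V} {A' : Set V'}

/-- The union of the open simplices in `P`. -/
def RS_Disc (P : Set (Finset V)) : Set (V → ℝ) :=
  {x | (∀ v, 0 ≤ x v) ∧ ∑ᶠ v, x v = 1 ∧ ∃ s ∈ P, ∀ v, x v ≠ 0 ↔ v ∈ s}

theorem rs_union_Disc (P Q : Set (Finset V)) : RS_Disc P ∪ RS_Disc Q = RS_Disc (P ∪ Q) := by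
  ext x
  constructor
  · rintro (⟨h1, h2, s, hs, h⟩ | ⟨h1, h2, s, hs, h⟩)
    · exact ⟨h1, h2, s, Or.inl hs, h⟩
    · exact ⟨h1, h2, s, Or.inr hs, h⟩
  · rintro ⟨h1, h2, s, hs | hs, h⟩
    · exact Or.inl ⟨h1, h2, s, hs, h⟩
    · exact Or.inr ⟨h1, h2, s, hs, h⟩

theorem rs_inter_Disc (P Q : Set (Finset V)) : RS_Disc P ∩ RS_Disc Q = RS_Disc (P ∩ Q) := by
  ext x
  constructor
  · rintro ⟨⟨h1, h2, s, hs, h⟩, -, -, t, ht, h'⟩
    have e : s = t := Finset.ext fun v => (h v).symm.trans (h' v)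
    exact ⟨h1, h2, s, ⟨hs, e ▸ ht⟩, h⟩
  · rintro ⟨h1, h2, s, hs, h⟩
    exact ⟨⟨h1, h2, s, hs.1, h⟩, h1, h2, s, hs.2, h⟩

theorem rz_eq_Disc (G : SimpleGraph V) (A : Set V) : Rz G A = RS_Disc (sA G A) := by
  ext x
  constructor
  · intro hx
    exact ⟨hx.1, hx.2.2.2, rz_supp hx⟩
  · rintro ⟨h1, h2, s, hs, h⟩
    obtain ⟨-, h3, h4⟩ := mem_sA.1 hs
    exact ⟨h1, fun v hv => h3 ((h v).1 hv), fun u v hu hv => h4 u ((h u).1 hu) v ((h v).1 hv), h2⟩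

theorem rb_eq_Disc {β : Finset V → Prop}
    (hβ : ∀ t ∈ sA G A, ∀ s ∈ sA G A, s ⊆ t → β t → β s) :
    Rb G A β = RS_Disc {s | s ∈ sA G A ∧ β s} := by
  ext x
  constructor
  · rintro ⟨hx, t, ht, hb, h⟩
    obtain ⟨s, hs, h'⟩ := rz_supp hx
    have hst : s ⊆ t := fun v hv => h v ((h' v).2 hv)
    exact ⟨hx.1, hx.2.2.2, s, ⟨hs, hβ t ⟨hs.1.mono hst, ht⟩ s hs hst hb⟩, h'⟩
  · rintro ⟨h1, h2, s, ⟨hs, hb⟩, h⟩
    refine ⟨?_, s, hs.2, hb, fun v hv => (h v).1 hv⟩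
    rw [rz_eq_Disc]
    exact ⟨h1, h2, s, hs, h⟩

theorem down_Disc {d : ℕ} {β : Finset V → Prop} (h : Cell G d A β) :
    ∀ t ∈ sA G A, ∀ s ∈ sA G A, s ⊆ t → β t → β s := fun _ ht _ _ hs hb => h.down ht.2 hs hb

theorem card_Disc {β : Finset V → Prop} (h : Cell G 3 A β) {t : Finset V} (ht : t ∈ sA G A)
    (hb : β t) : t.card ≤ 2 := by
  obtain ⟨s, -, h1, h2, -⟩ := h.facet ht.2 hb
  have := Finset.card_le_card h1
  omega

theorem eq_pair_Disc {β : Finset V → Prop} (h : Cell G 3 A β) {t : Finset V} (ht : t ∈ sA G A)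
    (hb : β t) {u w : V} (huw : u ≠ w) (hu : u ∈ t) (hw : w ∈ t) : t = {u, w} := by
  refine (Finset.eq_of_subset_of_card_le ?_ ?_).symm
  · exact Finset.insert_subset hu (Finset.singleton_subset_iff.2 hw)
  · rw [Finset.card_pair huw]
    exact card_Disc h ht hb

theorem sub_pair_Disc {u w : V} {s : Finset V} (hn : s.Nonempty) (hs : s ⊆ {u, w})
    (he : s ≠ {u, w}) : s = {u} ∨ s = {w} := by
  by_cases hu : u ∈ s
  · by_cases hw : w ∈ s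
    · exact absurd (hs.antisymm (Finset.insert_subset hu (Finset.singleton_subset_iff.2 hw))) he
    · refine Or.inl (Finset.eq_singleton_iff_unique_mem.2 ⟨hu, fun x hx => ?_⟩)
      rcases Finset.mem_insert.1 (hs hx) with h | h
      · exact h
      · exact absurd (Finset.mem_singleton.1 h ▸ hx) hw
  · refine Or.inr (hn.subset_singleton_iff.1 fun x hx => ?_)
    rcases Finset.mem_insert.1 (hs hx) with h | h
    · exact absurd (h ▸ hx) hu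
    · exact h

theorem ne_pair_Disc {u w : V} (h : u ≠ w) (x : V) : ({x} : Finset V) ≠ {u, w} := fun e => by
  have := congrArg Finset.card e
  rw [Finset.card_pair h, Finset.card_singleton] at this
  omega

/-- The boundary of a disc with one open edge removed is an arc. -/
theorem arc_Disc {β : Finset V → Prop} (h : Cell G 3 A β) {u w : V} (hu : u ∈ A) (hw : w ∈ A)
    (huw : G.Adj u w) (he : β {u, w}) :
    BP 1 (RS_Disc {s | s ∈ sA G A ∧ β s ∧ s ≠ {u, w}}) (RS_Disc {{u}, {w}}) := by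
  have hf := h.finite
  have e0 : ({u, w} : Finset V) ∈ sA G A := pair_mem_sA hu hw (Or.inr huw)
  have bu : β {u} := h.down e0.2 (by simp) he
  have bw : β {w} := h.down e0.2 (by simp) he
  have hP := h.bd_sd (h.down e0.2 (Finset.empty_subset _) he) le_rfl
  have h1 := (hP.rem (by omega) (v := {u, w}) ⟨e0, he⟩).bp_le_one le_rfl
  have e1 : {s | s ∈ sA G A ∧ β s} \ {({u, w} : Finset V)} =
      {s | s ∈ sA G A ∧ β s ∧ s ≠ {u, w}} := by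
    ext s
    exact and_assoc
  have e2 : Lk (sG V) {s | s ∈ sA G A ∧ β s} {({u, w} : Finset V)} =
      {s | s ∈ sA G A ∧ (s = {u} ∨ s = {w})} := by
    ext s
    rw [mem_lk1_H5]
    constructor
    · rintro ⟨⟨hs, hb⟩, h2 | h2⟩
      · exact absurd (eq_pair_Disc h hs hb huw.ne (h2.1 (by simp)) (h2.1 (by simp))) h2.ne'
      · exact ⟨hs, sub_pair_Disc hs.1 h2.1 h2.ne⟩
    · rintro ⟨hs, rfl | rfl⟩
      · exact ⟨⟨hs, bu⟩, Or.inr (Finset.ssubset_iff_subset_ne.2 ⟨by simp, ne_pair_Disc huw.ne _⟩)⟩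
      · exact ⟨⟨hs, bw⟩, Or.inr (Finset.ssubset_iff_subset_ne.2 ⟨by simp, ne_pair_Disc huw.ne _⟩)⟩
  rw [e1, e2] at h1
  have d1 : ∀ t ∈ sA G A, ∀ s ∈ sA G A, s ⊆ t → (β t ∧ t ≠ {u, w}) → (β s ∧ s ≠ {u, w}) := by
    intro t ht s _ hst hb
    refine ⟨h.down ht.2 hst hb.1, fun e => hb.2 ?_⟩
    exact eq_pair_Disc h ht hb.1 huw.ne (hst (by simp [e])) (hst (by simp [e]))
  have d2 : ∀ t ∈ sA G A, ∀ s ∈ sA G A, s ⊆ t → (t = {u} ∨ t = {w}) → (s = {u} ∨ s = {w}) := by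
    rintro t - s hs hst (rfl | rfl)
    · exact Or.inl (hs.1.subset_singleton_iff.1 hst)
    · exact Or.inr (hs.1.subset_singleton_iff.1 hst)
  have h2 := (bar_hm (G := G) hf).restrict
    (rz_mono (X := {s | s ∈ sA G A ∧ β s ∧ s ≠ {u, w}}) fun s hs => hs.1)
  rw [bar_image_rb hf d1, rb_eq_Disc d1] at h2
  refine h1.map h2 ?_
  have e3 : {s | s ∈ sA G A ∧ β s ∧ s ≠ {u, w}} ∩ {s | s ∈ sA G A ∧ (s = {u} ∨ s = {w})} =
      {s | s ∈ sA G A ∧ (s = {u} ∨ s = {w})} := by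
    refine Set.inter_eq_right.2 ?_
    rintro s ⟨hs, rfl | rfl⟩
    · exact ⟨hs, bu, ne_pair_Disc huw.ne _⟩
    · exact ⟨hs, bw, ne_pair_Disc huw.ne _⟩
  rw [rz_inter, e3, bar_image_rb hf d2, rb_eq_Disc d2, rs_inter_Disc, ← e3]
  congr 1
  ext s
  exact ⟨fun hs => ⟨hs.1, hs.2.2⟩, fun hs => ⟨hs.1, hs.1.1, hs.2⟩⟩

theorem edge_Disc {u w : V} (huw : G.Adj u w) :
    BP 1 (RS_Disc (sA G {u, w})) (RS_Disc {{u}, {w}}) := by
  have h := (edge_cell_H5 (γ := fun s => s ≠ {u, w}) huw (Finset.insert_ne_empty _ _).symm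
    (ne_pair_Disc huw.ne _) (ne_pair_Disc huw.ne _) (not_not.2 rfl))
  have h1 := h.bp_one (Finset.insert_ne_empty _ _).symm
  rw [rz_eq_Disc, rb_eq_Disc (down_Disc h)] at h1
  convert h1 using 2
  ext s
  constructor
  · rintro (rfl | rfl)
    · exact ⟨singleton_mem_sA.2 (Or.inl rfl), ne_pair_Disc huw.ne _⟩
    · exact ⟨singleton_mem_sA.2 (Or.inr rfl), ne_pair_Disc huw.ne _⟩
  · rintro ⟨hs, he⟩
    exact sub_pair_Disc hs.1 (fun x hx => by simpa using hs.2.1 hx) he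

theorem del_sA_Disc {H : SimpleGraph V} {u w : V} (hG : Del_H5 G H u w) (huw : u ≠ w)
    {s : Finset V} : s ∈ sA H A ↔ s ∈ sA G A ∧ ¬ (u ∈ s ∧ w ∈ s) := by
  rw [mem_sA, mem_sA]
  constructor
  · rintro ⟨h1, h2, h3⟩
    refine ⟨⟨h1, h2, fun a ha b hb => (h3 a ha b hb).imp id fun c => ((hG a b).1 c).1⟩, ?_⟩
    rintro ⟨hu, hw⟩
    exact (h3 u hu w hw).elim huw fun c => ((hG u w).1 c).2.1 ⟨rfl, rfl⟩
  · rintro ⟨⟨h1, h2, h3⟩, h4⟩
    refine ⟨h1, h2, fun a ha b hb => (h3 a ha b hb).imp id fun c => (hG a b).2 ⟨c, ?_, ?_⟩⟩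
    · rintro ⟨rfl, rfl⟩
      exact h4 ⟨ha, hb⟩
    · rintro ⟨rfl, rfl⟩
      exact h4 ⟨hb, ha⟩

theorem del_pair_Disc {H : SimpleGraph V} {u w : V} (hG : Del_H5 G H u w) (huw : u ≠ w) :
    sA H {u, w} = {{u}, {w}} := by
  ext s
  constructor
  · intro hs
    refine sub_pair_Disc hs.1 (fun x hx => by simpa using hs.2.1 hx) ?_
    rintro rfl
    exact ((del_sA_Disc hG huw).1 hs).2 (by simp)
  · rintro (rfl | rfl)
    · exact singleton_mem_sA.2 (Or.inl rfl)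
    · exact singleton_mem_sA.2 (Or.inr rfl)

theorem del_adj_Disc {H : SimpleGraph V} {u w v : V} (hG : Del_H5 G H u w) (h1 : G.Adj v u)
    (h2 : G.Adj v w) : ∀ a ∈ ({u, w} : Set V), H.Adj v a := by
  rintro a (rfl | rfl)
  · exact (hG _ _).2 ⟨h1, fun c => h1.ne c.1, fun c => h2.ne c.1⟩
  · exact (hG _ _).2 ⟨h2, fun c => h1.ne c.1, fun c => h2.ne c.1⟩

/-- Two sides of a triangle. -/
theorem vee_Disc {H : SimpleGraph V} {u w v : V} (hG : Del_H5 G H u w) (huw : G.Adj u w)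
    (h1 : G.Adj v u) (h2 : G.Adj v w) :
    BP 1 (RS_Disc (sA H {v, u, w})) (RS_Disc {{u}, {w}}) := by
  have hs : Sph H 1 {u, w} := by
    refine sph_one.2 ⟨Set.ncard_pair huw.ne, ?_⟩
    rintro a (rfl | rfl) b (rfl | rfl) c
    · exact H.irrefl c
    · exact ((hG _ _).1 c).2.1 ⟨rfl, rfl⟩
    · exact ((hG _ _).1 c).2.2 ⟨rfl, rfl⟩
    · exact H.irrefl c
  have h := rz_cone_sp (del_adj_Disc hG h1 h2) (hs.sp_le_two (by omega))
  rwa [rz_eq_Disc, rz_eq_Disc, del_pair_Disc hG huw.ne] at h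

theorem tri_Disc {H : SimpleGraph V} {u w v : V} (hG : Del_H5 G H u w) (huw : G.Adj u w)
    (h1 : G.Adj v u) (h2 : G.Adj v w) :
    BP 2 (RS_Disc (sA G {v, u, w})) (RS_Disc (sA G {u, w} ∪ sA H {v, u, w})) := by
  have h0 := edge_Disc huw
  rw [← rz_eq_Disc, ← del_pair_Disc hG huw.ne, ← rz_eq_Disc] at h0
  have hv : v ∉ ({u, w} : Set V) := by
    rintro (c | c)
    · exact h1.ne c
    · exact h2.ne c
  have h := h0.cone (rz_apex hv)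
  have e : Rz G {u, w} ∩ Rz H {u, w} = Rz H {u, w} := by
    rw [rz_eq_Disc, rz_eq_Disc, rs_inter_Disc]
    congr 1
    exact Set.inter_eq_right.2 fun s hs => ((del_sA_Disc hG huw.ne).1 hs).1
  have hc : ∀ a ∈ ({u, w} : Set V), G.Adj v a := by
    rintro a (rfl | rfl)
    · exact h1
    · exact h2
  rwa [e, ← rz_cone hc, ← rz_cone (del_adj_Disc hG h1 h2), rz_eq_Disc, rz_eq_Disc, rz_eq_Disc,
    rs_union_Disc] at h

theorem three_Disc {u w v : V} {s : Finset V} (hs : ↑s ⊆ ({v, u, w} : Set V))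
    (hn : ¬ (u ∈ s ∧ w ∈ s)) : ↑s ⊆ ({u, v} : Set V) ∨ ↑s ⊆ ({v, w} : Set V) := by
  by_cases hu : u ∈ s
  · refine Or.inl fun x hx => ?_
    rcases hs hx with c | c | c
    · exact Or.inr c
    · exact Or.inl c
    · exact absurd ⟨hu, c ▸ hx⟩ hn
  · refine Or.inr fun x hx => ?_
    rcases hs hx with c | c | c
    · exact Or.inl c
    · exact absurd (c ▸ hx) hu
    · exact Or.inr c

theorem side_Disc {β : Finset V → Prop} {a b c : V} (h : Cell G 3 A β) (hA : A = {a, b, c})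
    (h1 : G.Adj a b) {s : Finset V} (hs : ↑s ⊆ ({a, b} : Set V)) : β s := by
  have hc : Clq G A {a, b} := clq2_H5 (by simp [hA]) (by simp [hA]) h1
  refine h.down hc (fun x hx => by simpa using hs hx) ?_
  rcases h.codim_one hc (by rw [Finset.card_pair h1.ne]) with k | k
  · exact k.1
  · have e : Lk G A (({a, b} : Finset V) : Set V) ⊆ {c} := by
      intro x hx
      rw [Finset.coe_pair, mem_lk2_H5, hA] at hx
      rcases hx.1 with c | c | c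
      · exact absurd c hx.2.1.ne'
      · exact absurd c hx.2.2.ne'
      · exact c
    have := Set.ncard_le_ncard e (Set.finite_singleton c)
    rw [k.2, Set.ncard_singleton] at this
    omega

end Pool.Agent.MP_6374aa_g

end

section

/-! Discs and 2-spheres. -/

namespace Pool.Agent.MP_6374aa_g

open Pool.Agent.MP_6374aa_gt Classical

variable {V V' : Type} {G : SimpleGraph V} {G' : SimpleGraph V'} {A : Set V} {A' : Set V'}

theorem case_tri_Disc {β : Finset V → Prop} {v u w : V} (h1 : G.Adj v u) (h2 : G.Adj v w)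
    (huw : G.Adj u w) (h : Cell G 3 {v, u, w} β) : BP 2 (Rz G {v, u, w}) (Rb G {v, u, w} β) := by
  have hG := del_H5 G u w
  rw [rz_eq_Disc, rb_eq_Disc (down_Disc h)]
  convert tri_Disc hG huw h1 h2 using 2
  ext s
  constructor
  · rintro ⟨hs, hb⟩
    by_cases c : u ∈ s ∧ w ∈ s
    · rw [eq_pair_Disc h hs hb huw.ne c.1 c.2]
      exact Or.inl (pair_mem_sA (Or.inl rfl) (Or.inr rfl) (Or.inr huw))
    · exact Or.inr ((del_sA_Disc hG huw.ne).2 ⟨hs, c⟩)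
  · rintro (hs | hs)
    · refine ⟨sA_mono (Set.subset_insert _ _) hs, side_Disc (c := v) h ?_ huw hs.2.1⟩
      ext x
      simp only [Set.mem_insert_iff, Set.mem_singleton_iff]
      tauto
    · obtain ⟨k1, k2⟩ := (del_sA_Disc hG huw.ne).1 hs
      refine ⟨k1, ?_⟩
      rcases three_Disc k1.2.1 k2 with c | c
      · exact side_Disc (c := w) h (Set.insert_comm _ _ _) h1.symm c
      · exact side_Disc (c := u) h (by rw [Set.pair_comm u w]) h2 c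

theorem half_Disc {γ : Finset V → Prop} (h : Cell G 3 A γ) {u w : V} (hu : u ∈ A) (hw : w ∈ A)
    (huw : G.Adj u w) (he : γ {u, w}) :
    (RS_Disc (sA G A) ∩ RS_Disc {s | s ∈ sA G A ∧ γ s} =
      RS_Disc (sA G {u, w}) ∪ RS_Disc {s | s ∈ sA G A ∧ γ s ∧ s ≠ {u, w}}) ∧
    RS_Disc (sA G {u, w}) ∩ RS_Disc {s | s ∈ sA G A ∧ γ s ∧ s ≠ {u, w}} = RS_Disc {{u}, {w}} := by
  have e0 : ({u, w} : Finset V) ∈ sA G A := pair_mem_sA hu hw (Or.inr huw)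
  have hA : ({u, w} : Set V) ⊆ A := Set.pair_subset hu hw
  rw [rs_inter_Disc, rs_inter_Disc, rs_union_Disc]
  constructor
  · congr 1
    ext s
    constructor
    · rintro ⟨hs, -, hb⟩
      by_cases c : s = {u, w}
      · rw [c]
        exact Or.inl (pair_mem_sA (Or.inl rfl) (Or.inr rfl) (Or.inr huw))
      · exact Or.inr ⟨hs, hb, c⟩
    · rintro (hs | hs)
      · exact ⟨sA_mono hA hs, sA_mono hA hs,
          h.down e0.2 (fun x hx => by simpa using hs.2.1 hx) he⟩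
      · exact ⟨hs.1, hs.1, hs.2.1⟩
  · congr 1
    ext s
    constructor
    · rintro ⟨hs, -, -, c⟩
      exact sub_pair_Disc hs.1 (fun x hx => by simpa using hs.2.1 hx) c
    · rintro (rfl | rfl)
      · exact ⟨singleton_mem_sA.2 (Or.inl rfl), singleton_mem_sA.2 hu, h.down e0.2 (by simp) he,
          ne_pair_Disc huw.ne _⟩
      · exact ⟨singleton_mem_sA.2 (Or.inr rfl), singleton_mem_sA.2 hw, h.down e0.2 (by simp) he,
          ne_pair_Disc huw.ne _⟩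

theorem case_chord_Disc {β γ : Finset V → Prop} {u w : V} {P : Set V} (h : Cell G 3 A β)
    (hu : u ∈ A) (hw : w ∈ A) (huw : G.Adj u w) (bu : β {u}) (bw : β {w}) (bn : ¬ β {u, w})
    (hs : Split G 2 A {u, w} P) (hγ : ∀ s, γ s ↔ ↑s ⊆ ({u, w} : Set V) ∨ β s)
    (c1 : Cell G 3 ({u, w} ∪ P) γ) (c2 : Cell G 3 (A \ P) γ)
    (q1 : BP 2 (Rz G ({u, w} ∪ P)) (Rb G ({u, w} ∪ P) γ))
    (q2 : BP 2 (Rz G (A \ P)) (Rb G (A \ P) γ)) : BP 2 (Rz G A) (Rb G A β) := by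
  obtain ⟨h1, h2, h3⟩ := chord_H6 hu hw hs
  have he : γ {u, w} := (hγ _).2 (Or.inl (by simp))
  have u1 : u ∈ ({u, w} ∪ P : Set V) := Or.inl (Or.inl rfl)
  have w1 : w ∈ ({u, w} ∪ P : Set V) := Or.inl (Or.inr rfl)
  have u2 : u ∈ A \ P := (h3.ge (Or.inl rfl)).2
  have w2 : w ∈ A \ P := (h3.ge (Or.inr rfl)).2
  rw [rz_eq_Disc, rb_eq_Disc (down_Disc c1)] at q1
  rw [rz_eq_Disc, rb_eq_Disc (down_Disc c2)] at q2
  have k1 := half_Disc c1 u1 w1 huw he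
  have k2 := half_Disc c2 u2 w2 huw he
  have hU := sA_union h1
  rw [h2] at hU
  have := BP.union q1 q2 k1.1 k2.1 (by rw [rs_inter_Disc, ← sA_inter', h3]) (edge_Disc huw)
    (arc_Disc c1 u1 w1 huw he) (arc_Disc c2 u2 w2 huw he) k1.2 k2.2
  rw [rs_union_Disc, rs_union_Disc, ← hU] at this
  rw [rz_eq_Disc, rb_eq_Disc (down_Disc h)]
  convert this using 2
  have key : ∀ s : Finset V, s.Nonempty → γ s → s ≠ {u, w} → β s := by
    intro s hn hb c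
    rcases (hγ s).1 hb with k | k
    · rcases sub_pair_Disc hn (fun x hx => by simpa using k hx) c with rfl | rfl
      · exact bu
      · exact bw
    · exact k
  ext s
  constructor
  · rintro ⟨k, hb⟩
    have c : s ≠ {u, w} := fun e => bn (e ▸ hb)
    exact (hU.le k).imp (fun k' => ⟨k', (hγ s).2 (Or.inr hb), c⟩)
      fun k' => ⟨k', (hγ s).2 (Or.inr hb), c⟩
  · rintro (⟨k, hb, c⟩ | ⟨k, hb, c⟩)
    · exact ⟨hU.ge (Or.inl k), key s k.1 hb c⟩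
    · exact ⟨hU.ge (Or.inr k), key s k.1 hb c⟩

theorem case_edge_Disc {H : SimpleGraph V} {β γ : Finset V → Prop} {u w v : V}
    (hG : Del_H5 G H u w) (h : Cell G 3 A β) (hu : u ∈ A) (hw : w ∈ A) (huw : G.Adj u w)
    (he : β {u, w}) (hl : Lk G A {u, w} = {v}) (bv : ¬ β {v})
    (hγ : ∀ s, γ s ↔ β s ∨ ↑s ⊆ ({u, v} : Set V) ∨ ↑s ⊆ ({v, w} : Set V))
    (c1 : Cell H 3 A γ) (q : BP 2 (Rz H A) (Rb H A γ)) : BP 2 (Rz G A) (Rb G A β) := by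
  obtain ⟨hv, h1, h2⟩ := mem_lk2_H5.1 (hl.ge rfl)
  have hT : ({v, u, w} : Set V) ⊆ A := Set.insert_subset hv (Set.pair_subset hu hw)
  have hd := fun (X : Set V) (s : Finset V) => del_sA_Disc (A := X) (s := s) hG huw.ne
  have k := half_Disc h hu hw huw he
  rw [rz_eq_Disc, rb_eq_Disc (down_Disc c1)] at q
  have := BP.union (D := RS_Disc (sA H {v, u, w})) (D2 := RS_Disc (sA G {u, w})) q
    (tri_Disc hG huw h1.symm h2.symm) ?_ ?_ ?_ (vee_Disc hG huw h1.symm h2.symm)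
    (arc_Disc h hu hw huw he) (edge_Disc huw) ?_ ?_
  · rw [Set.union_comm (RS_Disc {s | s ∈ sA G A ∧ β s ∧ s ≠ {u, w}}), ← k.1, rs_union_Disc] at this
    rw [rz_eq_Disc, rb_eq_Disc (down_Disc h)]
    have e : sA H A ∪ sA G {v, u, w} = sA G A := by
      ext s
      constructor
      · rintro (hs | hs)
        · exact ((hd _ _).1 hs).1
        · exact sA_mono hT hs
      · intro hs
        by_cases c : u ∈ s ∧ w ∈ s
        · refine Or.inr ⟨hs.1, fun x hx => ?_, hs.2.2⟩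
          obtain ⟨-, m1, m2⟩ := mem_sA.1 hs
          rcases m2 u c.1 x hx with a | a
          · exact Or.inr (Or.inl a.symm)
          · rcases m2 w c.2 x hx with b | b
            · exact Or.inr (Or.inr b.symm)
            · exact Or.inl (hl.le (mem_lk2_H5.2 ⟨m1 hx, a, b⟩))
        · exact Or.inl ((hd _ _).2 ⟨hs, c⟩)
    rw [e] at this
    exact this.congr (by rw [← Set.inter_assoc, Set.inter_self])
  · rw [rs_inter_Disc, rs_union_Disc]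
    congr 1
    ext s
    constructor
    · rintro ⟨hs, -, hb⟩
      obtain ⟨m1, m2⟩ := (hd _ _).1 hs
      rcases (hγ s).1 hb with c | c | c
      · refine Or.inr ⟨m1, c, ?_⟩
        rintro rfl
        exact m2 (by simp)
      · refine Or.inl ⟨hs.1, fun x hx => ?_, hs.2.2⟩
        exact (c hx).elim (fun a => Or.inr (Or.inl a)) Or.inl
      · refine Or.inl ⟨hs.1, fun x hx => ?_, hs.2.2⟩
        exact (c hx).elim Or.inl fun a => Or.inr (Or.inr a)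
    · rintro (hs | ⟨hs, hb, c⟩)
      · exact ⟨sA_mono hT hs, sA_mono hT hs,
          (hγ s).2 (Or.inr (three_Disc hs.2.1 ((hd _ _).1 hs).2))⟩
      · have m : s ∈ sA H A := (hd _ _).2 ⟨hs, fun a => c (eq_pair_Disc h hs hb huw.ne a.1 a.2)⟩
        exact ⟨m, m, (hγ s).2 (Or.inl hb)⟩
  · rw [rs_inter_Disc, rs_union_Disc, Set.union_comm]
    congr 1
    refine Set.inter_eq_right.2 (Set.union_subset (fun s hs => ((hd _ _).1 hs).1) ?_)
    exact sA_mono (Set.subset_insert _ _)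
  · rw [rs_inter_Disc]
    congr 1
    ext s
    exact ⟨fun hs => ⟨hs.1.1, hs.2.2.1, hs.1.2.2⟩, fun hs => ⟨sA_mono hT hs, ((hd _ _).1 hs).1⟩⟩
  · rw [← k.2, rs_inter_Disc, rs_inter_Disc]
    congr 1
    ext s
    constructor
    · rintro ⟨hs, m⟩
      refine ⟨⟨hs.1, fun x hx => ?_, m.1.2.2⟩, m⟩
      rcases hs.2.1 hx with a | a
      · exact absurd (h.down m.1.2 (Finset.singleton_subset_iff.2 (a ▸ hx)) m.2.1) bv
      · exact a
    · rintro ⟨hs, m⟩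
      exact ⟨(hd _ _).2 ⟨sA_mono (Set.subset_insert _ _) hs,
        fun a => m.2.2 (eq_pair_Disc h m.1 m.2.1 huw.ne a.1 a.2)⟩, m⟩
  · rw [rs_inter_Disc, ← del_pair_Disc hG huw.ne]
    congr 1
    ext s
    exact ⟨fun hs => ⟨hs.1.1, hs.2.2.1, hs.1.2.2⟩,
      fun hs => ⟨sA_mono (Set.subset_insert _ _) hs, ((hd _ _).1 hs).1⟩⟩

theorem Cell.bp_two {β : Finset V → Prop} (h : Cell G 3 A β) (hb : β ∅) :
    BP 2 (Rz G A) (Rb G A β) := by
  refine disc_induction (fun G A β => BP 2 (Rz G A) (Rb G A β)) ?_ ?_ ?_ h hb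
  · intro G a b c β h1 h2 h3 h
    exact case_tri_Disc h1 h2 h3 h
  · intro G A β u w P h _ hu hw huw bu bw bn hs c1 c2 q1 q2
    exact case_chord_Disc h hu hw huw bu bw bn hs (fun _ => Iff.rfl) c1 c2 q1 q2
  · intro G A β u w v h _ hu hw huw he hl bv c1 q
    exact case_edge_Disc (del_H5 G u w) h hu hw huw he hl bv (fun _ => Iff.rfl) c1 q

theorem Cell.bp {d : ℕ} {β : Finset V → Prop} (h : Cell G (d + 1) A β) (hd : d ≤ 2) (hb : β ∅) :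
    BP d (Rz G A) (Rb G A β) := by
  obtain rfl | rfl | rfl : d = 0 ∨ d = 1 ∨ d = 2 := by omega
  · exact h.bp_zero hb
  · exact h.bp_one hb
  · exact h.bp_two hb

theorem Ball.bp {d : ℕ} {T : Set V} (h : Ball G (d + 1) A T) (hd : d ≤ 2) :
    BP d (Rz G A) (Rz G T) := by
  have h1 := Cell.bp h hd (by simp [sub])
  rw [rb_sub] at h1
  refine h1.congr ?_
  rw [rz_inter, rz_inter, ← Set.inter_assoc, Set.inter_self]

theorem Sph.sp {d : ℕ} (h : Sph G d A) (hd : d ≤ 3) : SP d (Rz G A) := by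
  by_cases h2 : d ≤ 2
  · exact h.sp_le_two h2
  · obtain rfl : d = 3 := by omega
    obtain ⟨v, hv⟩ := Cell.nonempty h
    exact sp_of_rem hv ((h.mf.sph_lk hv (Set.notMem_empty v)).sp_le_two le_rfl)
      ((h.rem le_rfl hv).bp le_rfl)

theorem Sph.cone_bp {d : ℕ} (h : Sph G d A) (hd : d ≤ 3) {c : V} (hc : ∀ a ∈ A, G.Adj c a) :
    BP d (Rz G (insert c A)) (Rz G A) := by
  exact rz_cone_sp hc (h.sp hd)

/-- The dual cell of an interior simplex, 3-cells included. -/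
theorem dual_bp {e : ℕ} {s : Finset V} (hs : s ∈ sA G A) (h : Sph G e (Lk G A s)) (he : e ≤ 3) :
    BP e (Rz (sG V) {t | t ∈ sA G A ∧ s ⊆ t}) (Rz (sG V) {t | s ⊂ t}) := by
  have h1 : Sph (sG V) e {t | t ∈ sA G A ∧ s ⊂ t} :=
    upper_cell (β := fun _ => False) hs.2 h he
  have h2 := h1.cone_bp he (c := s) fun a ha => Or.inl ha.2
  have e1 : insert s {t | t ∈ sA G A ∧ s ⊂ t} = {t | t ∈ sA G A ∧ s ⊆ t} := by
    ext t
    constructor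
    · rintro (rfl | ht)
      · exact ⟨hs, subset_rfl⟩
      · exact ⟨ht.1, ht.2.1⟩
    · rintro ⟨h3, h4⟩
      exact h4.eq_or_ssubset.imp Eq.symm fun c => ⟨h3, c⟩
  rw [e1] at h2
  refine h2.congr ?_
  rw [rz_inter, rz_inter]
  congr 1
  ext t
  exact ⟨fun ht => ⟨ht.1, ht.2.2⟩, fun ht => ⟨ht.1, ht.1.1, ht.2⟩⟩

end Pool.Agent.MP_6374aa_g

end

section

/-! Two labelled polyhedra over the same model are homeomorphic, cell by cell. -/

namespace Pool.Agent.MP_6374aa_g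

open Pool.Agent.MP_6374aa_gt Classical

variable {V V' U : Type} {G : SimpleGraph V} {A P : Set V} {K : SimpleGraph U} {B : Set U}
  {ℓ : V → Finset U} {G' : SimpleGraph V'} {A' P' : Set V'} {ℓ' : V' → Finset U}

/-- The simplices of positive dimension. -/
def I2 (K : SimpleGraph U) (B : Set U) : Set (Finset U) := {s | s ∈ sA K B ∧ 2 ≤ s.card}

theorem CC_empty (P : Set V) (ℓ : V → Finset U) : CC P ℓ ∅ = P := by
  ext x
  simp [CC]

/-- A part of `P` given by an upward closed condition on labels is a union of cells. -/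
theorem LabS.rz_eq (h : LabS G A K B P ℓ) (φ : Finset U → Prop)
    (hφ : ∀ s t, s ⊆ t → φ s → φ t) :
    Rz G {x | x ∈ P ∧ φ (ℓ x)} = ⋃ j ∈ {j | j ∈ I2 K B ∧ φ j}, Rz G (CC P ℓ j) := by
  refine rz_cover (fun j hj x hx => ⟨hx.1, hφ _ _ hx.2 hj.2⟩) fun s hs => ?_
  obtain ⟨x, hx, hm⟩ := h.exists_min (sA_mono (fun _ hx => hx.1) hs)
  exact ⟨ℓ x, ⟨h.mem x (hs.2.1 hx).1, (hs.2.1 hx).2⟩, fun y hy => ⟨(hs.2.1 hy).1, hm y hy⟩⟩

theorem LabS.rz_CC (h : LabS G A K B P ℓ) (s : Finset U) :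
    Rz G (CC P ℓ s) = ⋃ j ∈ {j | j ∈ I2 K B ∧ s ⊆ j}, Rz G (CC P ℓ j) :=
  h.rz_eq (fun j => s ⊆ j) fun _ _ e e' => e'.trans e

theorem LabS.bp (h : LabS G A K B P ℓ) {s : Finset U} (hs : s ∈ I2 K B) :
    BP (4 - s.card) (Rz G (CC P ℓ s)) (⋃ j ∈ {j | j ∈ I2 K B ∧ s ⊂ j}, Rz G (CC P ℓ j)) := by
  have h4 := h.card_le hs.1
  have h2 := hs.2
  have hb := h.cell s hs.1 hs.2
  rw [show 5 - s.card = 4 - s.card + 1 by omega] at hb
  refine (hb.bp (by omega)).congr ?_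
  rw [← h.rz_eq (fun j => s ⊂ j) fun _ _ e e' => e'.trans_subset e, rz_inter, rz_inter]
  congr 1
  ext x
  exact ⟨fun hx => ⟨hx.1, hx.1.1, hx.2⟩, fun hx => ⟨hx.1, hx.2.2⟩⟩

theorem LabS.meet (h : LabS G A K B P ℓ) (i : Finset U) (_ : i ∈ I2 K B) (j : Finset U)
    (_ : j ∈ I2 K B) (x : V → ℝ) (hx : x ∈ Rz G (CC P ℓ i) ∩ Rz G (CC P ℓ j)) :
    ∃ k ∈ I2 K B, (k = i ∨ i ⊂ k) ∧ (k = j ∨ j ⊂ k) ∧ x ∈ Rz G (CC P ℓ k) := by
  rw [rz_inter, CC_inter, h.rz_CC] at hx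
  obtain ⟨k, hk, hx⟩ := Set.mem_iUnion₂.1 hx
  have h1 : i ⊆ k := Finset.subset_union_left.trans hk.2
  have h2 : j ⊆ k := Finset.subset_union_right.trans hk.2
  exact ⟨k, hk.1, h1.eq_or_ssubset.imp_left Eq.symm, h2.eq_or_ssubset.imp_left Eq.symm, hx⟩

theorem LabS.hm (h : LabS G A K B P ℓ) (h' : LabS G' A' K B P' ℓ') :
    ∃ g, HM (Rz G P) (Rz G' P') g ∧ ∀ s, g '' Rz G (CC P ℓ s) = Rz G' (CC P' ℓ' s) := by
  obtain ⟨g, h1, h2⟩ := cell_homeo (I := I2 K B)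
    ((sA_finite h.clB.1).subset fun _ hs => hs.1) (fun j i => i ⊂ j)
    (fun i _ => ssubset_irrefl i) (fun _ _ _ _ _ _ e e' => e'.trans e) (fun s => 4 - s.card)
    (C := fun s => Rz G (CC P ℓ s)) (C' := fun s => Rz G' (CC P' ℓ' s))
    (fun _ hs => h.bp hs) (fun _ hs => h'.bp hs)
    (fun _ _ _ _ e => rz_mono (CC_anti e.subset)) (fun _ _ _ _ e => rz_mono (CC_anti e.subset))
    h.meet h'.meet
  refine ⟨g, ?_, fun s => ?_⟩
  · have e := h.rz_CC ∅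
    have e' := h'.rz_CC ∅
    simp only [CC_empty, Finset.empty_subset, and_true, Set.ofPred_mem_eq] at e e'
    rwa [e, e']
  · rw [h.rz_CC s, h'.rz_CC s, Set.image_iUnion₂]
    exact Set.iUnion₂_congr fun j hj => h2 j hj.1

/-- The dual 2-skeleton of the model. -/
theorem labS_model (hB : Cl K 3 B) : LabS (sG U) (sA K B) K B (I2 K B) id := by
  refine ⟨hB.sd le_rfl, hB, fun _ hs => hs.1, fun _ hs => hs,
    fun _ _ _ _ e => e.imp (fun e => e.subset) fun e => e.subset, fun s hs h2 => ?_⟩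
  obtain ⟨a, ha⟩ := hs.1
  obtain ⟨h4, hl⟩ := Mfa.link (mf_empty_iff.1 hB.2.2) hs.2 ⟨a, ha, hs.2.1 ha⟩
  have e : CC (I2 K B) id s = {t | t ∈ sA K B ∧ s ⊆ t} := by
    ext t
    exact ⟨fun ht => ⟨ht.1.1, ht.2⟩, fun ht => ⟨⟨ht.1, h2.trans (Finset.card_le_card ht.2)⟩, ht.2⟩⟩
  rw [e, show 5 - s.card = 3 + 1 - s.card + 1 by omega]
  exact dual_ball hs hl (by omega)

end Pool.Agent.MP_6374aa_g

end

section

/-! One sided neighbourhoods: combinatorics. -/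

namespace Pool.Agent.MP_6374aa_g

open Pool.Agent.MP_6374aa_gt Classical

variable {V V' : Type} {G : SimpleGraph V} {G' : SimpleGraph V'} {A : Set V} {A' : Set V'}

/-- The half link of a simplex of `S`. -/
def hlk (G : SimpleGraph V) (A S : Set V) (σ : V → Set V) (s : Finset V) : Set V :=
  {y | y ∈ Lk G A s ∧ (y ∈ S ∨ ∀ x ∈ s, y ∈ σ x)}

variable {S : Set V} {σ : V → Set V}

theorem Sided.mem_of_adj {d : ℕ} (h : Sided G d A S σ) {x y z : V} (hx : x ∈ S) (hy : y ∈ σ x)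
    (hz : z ∈ A) (hxz : G.Adj x z) (hyz : Adq G y z) : z ∈ S ∨ z ∈ σ x := by
  rcases hyz with rfl | hyz
  · exact Or.inr hy
  · exact by_contra fun c => h.sep x hx y hy z ⟨mem_lk_C1.2 ⟨hz, hxz⟩, c⟩ hyz

/-- One pair of vertices decides the side of a simplex. -/
theorem Sided.mem_hsd {d : ℕ} (h : Sided G d A S σ) {t : Finset V} (ht : t ∈ sA G A) {x y : V}
    (hx : x ∈ t) (hxS : x ∈ S) (hy : y ∈ t) (hσ : y ∈ σ x) : t ∈ hfr G A S σ := by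
  obtain ⟨-, h1, h2⟩ := mem_sA.1 ht
  refine ⟨⟨ht, ⟨x, hx, hxS⟩, fun a ha haS b hb hbS => ?_⟩,
    fun c => (h.subset x hxS hσ).2 (c hy)⟩
  have h3 : ∀ u ∈ t, u ∈ S → G.Adj u b := fun u hu c =>
    (h2 u hu b hb).resolve_left fun e => hbS (e ▸ c)
  have h4 : b ∈ σ x := (h.mem_of_adj hxS hσ (h1 hb) (h3 x hx hxS) (h2 y hy b hb)).resolve_left hbS
  rcases h2 x hx a ha with rfl | e
  · exact h4
  · refine (h.compat x hxS a haS e b ⟨h1 hb, ?_⟩).1 h4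
    rintro u (rfl | rfl)
    exacts [h3 _ hx hxS, h3 _ ha haS]

theorem sA_subset_hsd (hS : S ⊆ A) : sA G S ⊆ hsd G A S σ := by
  intro t ht
  obtain ⟨x, hx⟩ := ht.1
  exact ⟨sA_mono hS ht, ⟨x, hx, ht.2.1 hx⟩, fun _ _ _ y hy c => absurd (ht.2.1 hy) c⟩

theorem hsd_face {s t : Finset V} (ht : t ∈ hsd G A S σ) (hs : s ⊆ t) (hm : Meets s S) :
    s ∈ hsd G A S σ := by
  obtain ⟨x, hx, hxS⟩ := hm
  exact ⟨sA_down ht.1 hs ⟨x, hx⟩, ⟨x, hx, hxS⟩, fun a ha c b hb => ht.2.2 a (hs ha) c b (hs hb)⟩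

theorem hfr_clopen {d : ℕ} (h : Sided G d A S σ) : Clopen (sG V) (fr G A S) (hfr G A S σ) := by
  refine ⟨fun t ht => ⟨ht.1.1, ht.1.2.1, ht.2⟩, fun a ha b hb e => ?_⟩
  rcases e with e | e
  · obtain ⟨x, hx, hxS⟩ := ha.1.2.1
    obtain ⟨y, hy, hyS⟩ := Set.not_subset.1 ha.2
    exact h.mem_hsd hb.1 (e.subset hx) hxS (e.subset hy) (ha.1.2.2 x hx hxS y hy hyS)
  · exact ⟨hsd_face ha.1 e.subset hb.2.1, hb.2.2⟩

theorem hsd_finite (hA : Mfa G 3 A (fun _ => False) S) (hS : S.Finite) : (hsd G A S σ).Finite := by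
  refine (hS.biUnion fun x hx => sA_finite (G := G) ((hA.lk_finite hx).insert x)).subset
    fun t ht => ?_
  obtain ⟨x, hx, hxS⟩ := ht.2.1
  obtain ⟨h0, h1, h2⟩ := mem_sA.1 ht.1
  refine Set.mem_biUnion hxS (mem_sA.2 ⟨h0, fun y hy => ?_, h2⟩)
  exact (h2 x hx y hy).elim (fun e => Or.inl e.symm) fun e => Or.inr (mem_lk_C1.2 ⟨h1 hy, e⟩)

theorem side_Half (hA : Mfa G 3 A (fun _ => False) S) (hSA : S ⊆ A) (hS : Mf G 2 S ∅)
    (h : Sided G 3 A S σ) {x : V} (hx : x ∈ S) :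
    Con G (σ x) ∧ Ball G 3 (Lk G S {x} ∪ σ x) S := by
  obtain ⟨h1, h2⟩ := Cell.side (β := fun _ => False) (hA x hx) (mf_empty_iff.1 hS x hx) le_rfl
    (lk_mono_C1 hSA _) (h.split hx)
  refine ⟨h2, h1.congr fun t ht => ⟨fun k y hy => (k.resolve_right id hy).1,
    fun k => Or.inl fun y hy => ?_⟩⟩
  exact (ht.1 hy).resolve_right fun c => (h.subset x hx c).2 (k hy)

theorem hlk_ball (hA : Mfa G 3 A (fun _ => False) S) (hSA : S ⊆ A) (hS : Mf G 2 S ∅)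
    (h : Sided G 3 A S σ) {s : Finset V} (hs : s ∈ sA G S) :
    Ball G (4 - s.card) (hlk G A S σ s) S := by
  obtain ⟨⟨x, hx⟩, h1, h2⟩ := mem_sA.1 hs
  have h3 : ∀ y ∈ s.erase x, G.Adj x y := fun y hy =>
    (h2 x hx y (Finset.mem_of_mem_erase hy)).resolve_left (Finset.ne_of_mem_erase hy).symm
  have h4 : Clq G (Lk G S {x} ∪ σ x) (s.erase x) := clq_iff.2
    ⟨fun y hy => Or.inl (mem_lk_C1.2 ⟨h1 (Finset.mem_of_mem_erase hy), h3 y hy⟩),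
      fun u hu w hw => h2 u (Finset.mem_of_mem_erase hu) w (Finset.mem_of_mem_erase hw)⟩
  have h5 := (Cell.link (side_Half hA hSA hS h (h1 hx)).2 h4).2
  have h6 : ∀ y, G.Adj x y → (∀ u ∈ s.erase x, G.Adj u y) → ∀ u ∈ s, G.Adj u y :=
    fun y a b u hu => (eq_or_ne u x).elim (fun e => e ▸ a) fun e => b u (Finset.mem_erase.2 ⟨e, hu⟩)
  have h7 : Lk G (Lk G S {x} ∪ σ x) (s.erase x) = hlk G A S σ s := by
    ext y
    constructor
    · rintro ⟨a | a, b⟩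
      · exact ⟨⟨hSA a.1, h6 y (a.2 x rfl) b⟩, Or.inl a.1⟩
      · have c := (h.subset x (h1 hx) a).1
        have c' := h6 y (c.2 x rfl) b
        refine ⟨⟨c.1, c'⟩, Or.inr fun u hu => ?_⟩
        rcases h2 x hx u hu with rfl | e
        · exact a
        · refine (h.compat x (h1 hx) u (h1 hu) e y ⟨c.1, ?_⟩).1 a
          rintro v (rfl | rfl)
          exacts [c' _ hx, c' _ hu]
    · rintro ⟨a, b⟩
      exact ⟨b.imp (fun c => mem_lk_C1.2 ⟨c, a.2 x hx⟩) fun c => c x hx,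
        fun u hu => a.2 u (Finset.mem_of_mem_erase hu)⟩
  have h8 : 3 - (s.erase x).card = 4 - s.card := by
    have := Finset.card_erase_add_one hx
    omega
  rw [h7, h8] at h5
  refine h5.congr fun t _ => ⟨fun k y hy => k (Finset.mem_union_right _ hy), fun k y hy => ?_⟩
  exact (Finset.mem_union.1 hy).elim (fun a => h1 (Finset.mem_of_mem_erase a)) fun a => k a

theorem hlk_iso (h : Sided G 3 A S σ) (hSA : S ⊆ A) {s : Finset V} (hs : s ∈ sA G S) :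
    IsIso (sG V) {t | t ∈ hsd G A S σ ∧ s ⊂ t} (sG V) (sA G (hlk G A S σ s)) fun t => t \ s := by
  have h1 := IsIso.restrict' (upper_iso (sA_mono hSA hs).2) (ins {y | y ∈ S ∨ ∀ x ∈ s, y ∈ σ x})
  rw [← sA_inter] at h1
  have h2 : {t | t ∈ hsd G A S σ ∧ s ⊂ t} = {t | t ∈ sA G A ∧ s ⊂ t} ∩
      (fun t => t \ s) ⁻¹' ins {y | y ∈ S ∨ ∀ x ∈ s, y ∈ σ x} := by
    ext t
    constructor
    · rintro ⟨a, b⟩
      refine ⟨⟨a.1, b⟩, fun y hy => or_iff_not_imp_left.2 fun c x hx => ?_⟩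
      exact a.2.2 x (b.subset hx) (hs.2.1 hx) y (Finset.mem_sdiff.1 hy).1 c
    · rintro ⟨⟨a, b⟩, c⟩
      obtain ⟨x, hx⟩ := hs.1
      refine ⟨⟨a, ⟨x, b.subset hx, hs.2.1 hx⟩, fun u hu huS y hy hyS => ?_⟩, b⟩
      have h3 : y ∈ σ x := (c (Finset.mem_sdiff.2 ⟨hy, fun e => hyS (hs.2.1 e)⟩)).resolve_left
        hyS x hx
      exact (h.mem_hsd a (b.subset hx) (hs.2.1 hx) hy h3).1.2.2 u hu huS y hy hyS
  rw [h2]
  exact h1

theorem side_con (hA : Mfa G 3 A (fun _ => False) S) (hSA : S ⊆ A) (hS : Mf G 2 S ∅)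
    (h : Sided G 3 A S σ) {x : V} (hx : x ∈ S) :
    Con G (σ x) ∧ Ball G 3 (Lk G S {x} ∪ σ x) S := by
  exact side_Half hA hSA hS h hx

theorem nb_ball_Half {d : ℕ} (h : Ball G d A S) (hd : d ≤ 3) :
    Ball (sG V) d (nb G A (A \ S)) {u | Meets u S} := by
  have h0 : sub S (∅ : Finset V) := by simp [sub]
  obtain ⟨h1, h2⟩ := Cell.rem_bd_con h hd (S := S) fun s hs y hy => (hs.1 hy).2
  have e : A ∩ (A \ S) = A \ S := Set.inter_eq_right.2 Set.sdiff_subset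
  have hf : (nb G A (A \ S)).Finite := (sA_finite (Cell.finite h)).subset fun _ a => a.1
  have hn : NDC (sG V) (nb G A (A \ S)) := triv_nb.2 (e.symm ▸ h2)
  have hc : Con (sG V) (nb G A (A \ S)) := by
    obtain ⟨⟨a, ha⟩, hp⟩ := h1
    exact ⟨⟨{a}, singleton_mem_sA.2 ha.1, a, Finset.mem_singleton_self a, ha⟩,
      pre_nb.2 (e.symm ▸ hp)⟩
  have hm : ∀ k, k ≤ 3 → Ball G (k + 1) A S →
      Mfa (sG V) k (nb G A (A \ S)) (sub {u | Meets u S}) (nb G A (A \ S)) := fun k hk a => by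
    refine (((Cell.mfa a).mono Set.inter_subset_left).nb (Q := A \ S) hk).congr subset_rfl
      fun τ hτ => ⟨fun b t ht => ?_, fun b => Or.inr fun t ht => ?_⟩
    · obtain ⟨y, hy, c⟩ := (hτ.2.1 (top_mem hτ)).2
      obtain ⟨c1, -, c2⟩ := b.resolve_left (fun k => c.2 (k hy)) ht
      obtain ⟨z, hz, c3⟩ := Set.not_subset.1 c2
      exact ⟨z, hz, by_contra fun c4 => c3 ⟨c1.2.1 hz, c4⟩⟩
    · obtain ⟨z, hz, c⟩ := b ht
      exact ⟨(hτ.2.1 ht).1, (hτ.2.1 ht).2, fun k => (k hz).2 c⟩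
  have hb : ∀ k, Ball G (k + 2) A S → (sub {u | Meets u S} (∅ : Finset (Finset V)) ↔
      ∃ v ∈ nb G A (A \ S), sub {u | Meets u S} {v}) := fun k a => by
    refine iff_of_true (by simp [sub]) ?_
    obtain ⟨v, hv, c⟩ : ∃ v ∈ A, sub S {v} := by simpa using a.2.2.1.1 h0
    obtain ⟨t, c1, c2, -, c3⟩ := Cell.pure a (clq_single_C1.2 hv)
    obtain ⟨y, hy, c4⟩ := Set.not_subset.1 c3
    refine ⟨t, ⟨⟨⟨y, hy⟩, c1⟩, y, hy, c1.1 hy, c4⟩, fun r hr => ?_⟩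
    rw [Finset.coe_singleton, Set.mem_singleton_iff] at hr
    exact hr ▸ ⟨v, c2 (Finset.mem_singleton_self v), c (Finset.mem_singleton_self v)⟩
  rcases d with _ | _ | _ | _ | d
  · exact absurd h0 h.2
  · obtain ⟨a, rfl, ha⟩ := ball_one.1 h
    refine ball_one.2 ⟨{a}, Set.eq_singleton_iff_unique_mem.2 ⟨⟨singleton_mem_sA.2 rfl, a,
      Finset.mem_singleton_self a, rfl, ha⟩, fun t ht => ?_⟩, fun ⟨y, hy, c⟩ => ?_⟩
    · obtain ⟨y, hy, c, -⟩ := ht.2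
      exact Finset.eq_singleton_iff_unique_mem.2 ⟨(show y = a from c) ▸ hy, fun z hz => ht.1.2.1 hz⟩
    · exact ha (Finset.mem_singleton.1 hy ▸ c)
  · exact cell_two hf hc (hm 1 (by omega) h) (hb 0 h)
  · exact cell_three hf hc hn (hm 2 (by omega) h) (hb 1 h)
  · omega

/-- The cells of the parallel copy. -/
theorem hfr_ball (hA : Mfa G 3 A (fun _ => False) S) (hSA : S ⊆ A) (hS : Mf G 2 S ∅)
    (h : Sided G 3 A S σ) {s : Finset V} (hs : s ∈ sA G S) :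
    Ball (sG V) (4 - s.card) {t | t ∈ hfr G A S σ ∧ s ⊆ t} {t | ∃ x ∈ t, x ∈ S ∧ x ∉ s} := by
  have h0 := hlk_iso h hSA hs
  have h1 := IsIso.restrict' h0 {u | Meets u (hlk G A S σ s \ S)}
  have h2 : {t | t ∈ hfr G A S σ ∧ s ⊆ t} = {t | t ∈ hsd G A S σ ∧ s ⊂ t} ∩
      (fun t => t \ s) ⁻¹' {u | Meets u (hlk G A S σ s \ S)} := by
    ext t
    constructor
    · rintro ⟨⟨a, b⟩, c⟩
      obtain ⟨y, hy, hyS⟩ := Set.not_subset.1 b
      have h3 : y ∉ s := fun e => hyS (hs.2.1 e)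
      have h4 : s ⊂ t := (Finset.ssubset_iff_of_subset c).2 ⟨y, hy, h3⟩
      have h5 : y ∈ t \ s := Finset.mem_sdiff.2 ⟨hy, h3⟩
      exact ⟨⟨a, h4⟩, y, h5, (h0.1.1 ⟨a, h4⟩).2.1 h5, hyS⟩
    · rintro ⟨⟨a, b⟩, y, hy, c⟩
      exact ⟨⟨a, fun e => c.2 (e (Finset.mem_sdiff.1 hy).1)⟩, b.subset⟩
  have hp := hs.1.card_pos
  rw [h2]
  refine (IsIso.ball h1 (T := {u | Meets u S}) fun t _ => ?_).2
    (nb_ball_Half (hlk_ball hA hSA hS h hs) (by omega))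
  exact ⟨fun ⟨x, a, b, c⟩ => ⟨x, Finset.mem_sdiff.2 ⟨a, c⟩, b⟩,
    fun ⟨x, a, b⟩ => ⟨x, (Finset.mem_sdiff.1 a).1, b, (Finset.mem_sdiff.1 a).2⟩⟩

theorem hfr_pe (hA : Mfa G 3 A (fun _ => False) S) (hSA : S ⊆ A) (hS : Mf G 2 S ∅)
    (h : Sided G 3 A S σ) :
    PE (sG V) (hfr G A S σ) (sG V) (sA G S) fun t => t.filter (· ∈ S) := by
  refine qa_up (isHom_of_mono (fun t ht => ?_) fun t _ r _ e => Finset.filter_subset_filter _ e)
    fun s hs => ?_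
  · obtain ⟨x, hx, hxS⟩ := ht.1.2.1
    exact ⟨⟨x, Finset.mem_filter.2 ⟨hx, hxS⟩⟩, fun y hy => (Finset.mem_filter.1 hy).2,
      (Clq.subset ht.1.1.2 (Finset.filter_subset _ _)).2⟩
  · have h1 : {u | u ∈ hfr G A S σ ∧ s ⊆ u.filter (· ∈ S)} = {t | t ∈ hfr G A S σ ∧ s ⊆ t} :=
      Set.ext fun t => and_congr_right fun _ => ⟨fun e => e.trans (Finset.filter_subset _ _),
        fun e x hx => Finset.mem_filter.2 ⟨e hx, hs.2.1 hx⟩⟩
    have hp := hs.1.card_pos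
    rw [h1]
    exact Cell.ball_sco (hfr_ball hA hSA hS h hs) (by omega) (by simp [sub])

theorem hfr_sph (hA : Mfa G 3 A (fun _ => False) S) (hSA : S ⊆ A) (hS : Sph G 3 S)
    (h : Sided G 3 A S σ) : Sph (sG V) 3 (hfr G A S σ) := by
  have h1 := hfr_pe hA hSA hS.mf h
  have h2 := hfr_clopen h
  have h3 := Mfa.fr (d := 2) (Q := S) (hA.mono Set.inter_subset_right) le_rfl
  exact cell_three ((hsd_finite hA hS.finite).subset Set.sdiff_subset)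
    (h1.con.2 (con_sA.2 (Cell.con hS))) (h1.triv.2 (triv_sA.2 (Cell.ndc hS)))
    ((h3.mono h2.1).clopen h2) (by simp)

end Pool.Agent.MP_6374aa_g

end

section

/-! The collar lemma. -/

namespace Pool.Agent.MP_6374aa_g

open Pool.Agent.MP_6374aa_gt Classical

variable {V V' : Type} {G : SimpleGraph V} {G' : SimpleGraph V'} {A : Set V} {A' : Set V'}

variable {S : Set V} {σ : V → Set V}

/-- The three layers. -/
def K_Collar (G : SimpleGraph V) (A S : Set V) (σ : V → Set V) : Option Bool → Set (Finset V)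
  | some false => sA G S
  | some true => hfr G A S σ
  | none => hsd G A S σ

/-- The three parts of the interval. -/
def J_Collar : Option Bool → Set ℝ
  | some false => {0}
  | some true => {1}
  | none => Set.Icc 0 1

/-- The cells. -/
def C_Collar (G : SimpleGraph V) (A S : Set V) (σ : V → Set V) (p : Finset V × Option Bool) :
    Set (Finset V → ℝ) := Rz (sG V) {t | t ∈ K_Collar G A S σ p.2 ∧ p.1 ⊆ t}

/-- The model cells. -/
def M_Collar (G : SimpleGraph V) (S : Set V) (p : Finset V × Option Bool) :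
    Set ((Finset V → ℝ) × ℝ) := Rz (sG V) {t | t ∈ sA G S ∧ p.1 ⊆ t} ×ˢ J_Collar p.2

/-- The face relation. -/
def r_Collar (q p : Finset V × Option Bool) : Prop :=
  p.1 ⊆ q.1 ∧ (q.2 = p.2 ∨ p.2 = none) ∧ q ≠ p

theorem bot_Collar {X : Set (Finset V)} {x : Finset V → ℝ} (hx : x ∈ Rz (sG V) X) :
    ∃ b, x b ≠ 0 ∧ ∀ t, x t ≠ 0 → b ⊆ t := by
  obtain ⟨u, hu, h⟩ := rz_supp hx
  obtain ⟨b, hb, h'⟩ := exists_bot hu
  exact ⟨b, (h b).2 hb, fun t ht => h' t ((h t).1 ht)⟩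

theorem K_sub_Collar (hSA : S ⊆ A) (i : Option Bool) : K_Collar G A S σ i ⊆ hsd G A S σ := by
  rcases i with _ | _ | _
  · exact subset_rfl
  · exact sA_subset_hsd hSA
  · exact Set.sdiff_subset

theorem K_mono_Collar (hSA : S ⊆ A) {i j : Option Bool} (h : j = i ∨ i = none) :
    K_Collar G A S σ j ⊆ K_Collar G A S σ i := by
  rcases h with rfl | rfl
  · exact subset_rfl
  · exact K_sub_Collar hSA j

theorem J_mono_Collar {i j : Option Bool} (h : j = i ∨ i = none) : J_Collar j ⊆ J_Collar i := by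
  rcases h with rfl | rfl
  · exact subset_rfl
  · rcases j with _ | _ | _
    · exact subset_rfl
    · exact Set.singleton_subset_iff.2 ⟨le_rfl, zero_le_one⟩
    · exact Set.singleton_subset_iff.2 ⟨zero_le_one, le_rfl⟩

theorem meet_Collar {α : Type} {K : Option Bool → Set α}
    (hd : ∀ a, a ∈ K (some false) → a ∉ K (some true)) {i j : Option Bool} {a : α}
    (hi : a ∈ K i) (hj : a ∈ K j) : ∃ m, (m = i ∨ i = none) ∧ (m = j ∨ j = none) ∧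
      ∀ b, b ∈ K i → b ∈ K j → b ∈ K m := by
  rcases i with _ | i
  · exact ⟨j, Or.inr rfl, Or.inl rfl, fun _ _ h => h⟩
  rcases j with _ | j
  · exact ⟨some i, Or.inl rfl, Or.inr rfl, fun _ h _ => h⟩
  by_cases e : i = j
  · exact ⟨some i, Or.inl rfl, Or.inl (by rw [e]), fun _ h _ => h⟩
  · cases i <;> cases j
    · exact absurd rfl e
    · exact absurd hj (hd a hi)
    · exact absurd hi (hd a hj)
    · exact absurd rfl e

theorem fil_Collar {b : Finset V} (hb : b ∈ hsd G A S σ) : b.filter (· ∈ S) ∈ sA G S := by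
  obtain ⟨v, h1, h2⟩ := hb.2.1
  exact ⟨⟨v, Finset.mem_filter.2 ⟨h1, h2⟩⟩, fun u hu => (Finset.mem_filter.1 hu).2,
    hb.1.2.2.subset (Finset.coe_subset.2 (Finset.filter_subset _ _))⟩

theorem un_Collar {s s' t : Finset V} (hs : s ∈ sA G S) (hs' : s' ∈ sA G S)
    (ht : G.IsClique (t : Set V)) (h : s ⊆ t) (h' : s' ⊆ t) : s ∪ s' ∈ sA G S :=
  ⟨hs.1.mono Finset.subset_union_left,
    by rw [Finset.coe_union]; exact Set.union_subset hs.2.1 hs'.2.1,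
    ht.subset (Finset.coe_subset.2 (Finset.union_subset h h'))⟩

theorem face_Collar {p q : Finset V × Option Bool} (h1 : p.1 ⊆ q.1)
    (h2 : q.2 = p.2 ∨ p.2 = none) : q = p ∨ r_Collar q p :=
  (Classical.em (q = p)).imp_right fun e => ⟨h1, h2, e⟩

theorem r_some_Collar {s : Finset V} {c : Bool} {q : Finset V × Option Bool} :
    r_Collar q (s, some c) ↔ s ⊂ q.1 ∧ q.2 = some c := by
  constructor
  · rintro ⟨h1, h2, h3⟩
    have h4 : q.2 = some c := h2.resolve_right (by simp)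
    exact ⟨Finset.ssubset_iff_subset_ne.2 ⟨h1, fun e => h3 (Prod.ext e.symm h4)⟩, h4⟩
  · rintro ⟨h1, h2⟩
    exact ⟨h1.1, Or.inl h2, fun e => h1.ne (by rw [e])⟩

theorem keyD_Collar {s : Finset V} {x : Finset V → ℝ}
    (hx : x ∈ Rz (sG V) {t | t ∈ sA G S ∧ s ⊆ t}) : x ∈ Rz (sG V) {t | s ⊂ t} ↔
      ∃ s' ∈ sA G S, s ⊂ s' ∧ x ∈ Rz (sG V) {t | t ∈ sA G S ∧ s' ⊆ t} := by
  constructor
  · intro h
    obtain ⟨b, h1, h2⟩ := bot_Collar hx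
    exact ⟨b, (hx.2.1 b h1).1, h.2.1 b h1, rz_of_supp hx fun t ht => ⟨(hx.2.1 t ht).1, h2 t ht⟩⟩
  · rintro ⟨s', -, h1, h2⟩
    exact rz_of_supp hx fun t ht => h1.trans_subset (h2.2.1 t ht).2

theorem congr_Collar {E : Type} [TopologicalSpace E] [T2Space E] {n : ℕ} {X Y Z : Set E}
    (h : BP n X Y) (he : ∀ x ∈ X, x ∈ Y ↔ x ∈ Z) : BP n X Z :=
  h.congr (Set.ext fun x => and_congr_right (he x))

theorem lev_Collar {E : Type} [TopologicalSpace E] [T2Space E] {n : ℕ} {X Y : Set E}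
    (h : BP n X Y) (c : ℝ) : BP n (X ×ˢ ({c} : Set ℝ)) (Y ×ˢ ({c} : Set ℝ)) := by
  refine h.map (f := fun x => (x, c)) ⟨by fun_prop, fun x hx => ⟨hx, rfl⟩,
    fun x _ y _ e => congrArg Prod.fst e, ?_⟩ ?_
  · rintro ⟨x, t⟩ ⟨h1, h2⟩
    exact ⟨x, h1, Prod.ext rfl (Set.mem_singleton_iff.1 h2).symm⟩
  · ext ⟨x, t⟩
    constructor
    · rintro ⟨y, hy, e⟩
      rw [← e]
      exact ⟨⟨hy.1, rfl⟩, hy.2, rfl⟩
    · rintro ⟨⟨h1, h2⟩, h3, -⟩
      exact ⟨x, ⟨h1, h3⟩, Prod.ext rfl (Set.mem_singleton_iff.1 h2).symm⟩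

theorem dual_Collar (hS : Sph G 3 S) {s : Finset V} (hs : s ∈ sA G S) :
    BP (3 - s.card) (Rz (sG V) {t | t ∈ sA G S ∧ s ⊆ t}) (Rz (sG V) {t | s ⊂ t}) :=
  dual_bp hs (Cell.link hS hs.2).2 (Nat.sub_le _ _)

theorem bpM_Collar (hS : Sph G 3 S) (p : Finset V × Option Bool) (hp : p.1 ∈ sA G S) :
    BP (3 - p.1.card + if p.2 = none then 1 else 0) (M_Collar G S p)
      (⋃ q ∈ {q | q ∈ sA G S ×ˢ (Set.univ : Set (Option Bool)) ∧ r_Collar q p},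
        M_Collar G S q) := by
  obtain ⟨s, _ | c⟩ := p
  · refine congr_Collar (dual_Collar hS hp).prod fun x hx => ?_
    simp only [Set.mem_iUnion, exists_prop, Set.mem_ofPred_eq]
    constructor
    · rintro (⟨h1, h2 | h2⟩ | ⟨h1, h2⟩)
      · exact ⟨(s, some false), ⟨⟨hp, trivial⟩, subset_rfl, Or.inr rfl, by simp⟩, h1, h2⟩
      · exact ⟨(s, some true), ⟨⟨hp, trivial⟩, subset_rfl, Or.inr rfl, by simp⟩, h1, h2⟩
      · obtain ⟨s', k1, k2, k3⟩ := (keyD_Collar hx.1).1 h1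
        exact ⟨(s', none), ⟨⟨k1, trivial⟩, k2.1, Or.inl rfl,
          fun e => k2.ne (congrArg Prod.fst e).symm⟩, k3, h2⟩
    · rintro ⟨⟨s', j⟩, ⟨⟨k1, -⟩, k2, -, k3⟩, k4, k5⟩
      by_cases e : s = s'
      · subst e
        rcases j with _ | _ | _
        · exact absurd rfl k3
        · exact Or.inl ⟨hx.1, Or.inl k5⟩
        · exact Or.inl ⟨hx.1, Or.inr k5⟩
      · exact Or.inr ⟨(keyD_Collar hx.1).2
          ⟨s', k1, Finset.ssubset_iff_subset_ne.2 ⟨k2, e⟩, k4⟩, hx.2⟩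
  · have e : ∃ a : ℝ, J_Collar (some c) = {a} := by cases c <;> exact ⟨_, rfl⟩
    obtain ⟨a, e⟩ := e
    have h1 := lev_Collar (dual_Collar hS hp) a
    rw [← e] at h1
    refine congr_Collar h1 fun x hx => ?_
    simp only [Set.mem_iUnion, exists_prop, Set.mem_ofPred_eq, r_some_Collar]
    constructor
    · rintro ⟨h1, h2⟩
      obtain ⟨s', k1, k2, k3⟩ := (keyD_Collar hx.1).1 h1
      exact ⟨(s', some c), ⟨⟨k1, trivial⟩, k2, rfl⟩, k3, h2⟩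
    · rintro ⟨⟨s', j⟩, ⟨⟨k1, -⟩, k2, -⟩, k4, -⟩
      exact ⟨(keyD_Collar hx.1).2 ⟨s', k1, k2, k4⟩, hx.2⟩

theorem mid_Collar (hA : Mfa G 3 A (fun _ => False) S) (hSA : S ⊆ A) (hS : Sph G 3 S)
    (h : Sided G 3 A S σ) {s : Finset V} (hs : s ∈ sA G S) :
    BP (3 - s.card + 1) (Rz (sG V) {t | t ∈ hsd G A S σ ∧ s ⊆ t})
      (Rz (sG V) {t | t ∈ hsd G A S σ ∧ s ⊂ t} ∪
        Rz (sG V) (insert s ({t | t ∈ hsd G A S σ ∧ s ⊂ t} ∩ ins S))) := by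
  have c1 := (Cell.link hS hs.2).1
  have c2 := hs.1.card_pos
  have h1 := hlk_ball hA hSA hS.mf h hs
  rw [show 4 - s.card = 3 - s.card + 1 by omega] at h1
  have h2 := (bp_sd (Cell.finite h1)).2 (h1.bp (by omega))
  have h3 := (IsIso.bp (hlk_iso h hSA hs) (T' := ins S) (T := ins S)
    ((hsd_finite hA (Cell.finite hS)).subset fun t ht => ht.1) (fun t _ => by
      constructor
      · exact fun k => (Finset.coe_subset.2 Finset.sdiff_subset).trans k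
      · intro k v hv
        by_cases e : v ∈ s
        · exact hs.2.1 e
        · exact k (Finset.mem_sdiff.2 ⟨hv, e⟩))).2 h2
  have h4 := rz_cone_bp (c := s) (fun t ht => Or.inl ht.2) h3
  have e : insert s {t | t ∈ hsd G A S σ ∧ s ⊂ t} = {t | t ∈ hsd G A S σ ∧ s ⊆ t} := by
    ext t
    constructor
    · rintro (rfl | k)
      · exact ⟨sA_subset_hsd hSA hs, subset_rfl⟩
      · exact ⟨k.1, k.2.1⟩
    · intro k
      exact (Classical.em (t = s)).imp_right fun e =>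
        ⟨k.1, Finset.ssubset_iff_subset_ne.2 ⟨k.2, fun e' => e e'.symm⟩⟩
  rwa [e] at h4

theorem bpC_Collar (hA : Mfa G 3 A (fun _ => False) S) (hSA : S ⊆ A) (hS : Sph G 3 S)
    (h : Sided G 3 A S σ) (p : Finset V × Option Bool) (hp : p.1 ∈ sA G S) :
    BP (3 - p.1.card + if p.2 = none then 1 else 0) (C_Collar G A S σ p)
      (⋃ q ∈ {q | q ∈ sA G S ×ˢ (Set.univ : Set (Option Bool)) ∧ r_Collar q p},
        C_Collar G A S σ q) := by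
  obtain ⟨s, _ | _ | _⟩ := p
  · refine congr_Collar (mid_Collar hA hSA hS h hp) fun x hx => ?_
    simp only [Set.mem_iUnion, exists_prop, Set.mem_ofPred_eq]
    constructor
    · rintro (h1 | h1)
      · obtain ⟨b, k1, k2⟩ := bot_Collar hx
        have k3 := h1.2.1 b k1
        have k4 : s ⊆ b.filter (· ∈ S) := fun v hv =>
          Finset.mem_filter.2 ⟨k3.2.1 hv, hp.2.1 hv⟩
        by_cases e : b.filter (· ∈ S) = s
        · refine ⟨(s, some true), ⟨⟨hp, trivial⟩, subset_rfl, Or.inr rfl, by simp⟩,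
            rz_of_supp hx fun t ht => ⟨⟨(hx.2.1 t ht).1, fun k => k3.2.ne ?_⟩, (hx.2.1 t ht).2⟩⟩
          rw [← e]
          exact Finset.filter_true_of_mem fun v hv => k (k2 t ht hv)
        · exact ⟨(b.filter (· ∈ S), none), ⟨⟨fil_Collar k3.1, trivial⟩, k4, Or.inl rfl,
            fun e' => e (congrArg Prod.fst e')⟩, rz_of_supp hx fun t ht =>
              ⟨(hx.2.1 t ht).1, (Finset.filter_subset _ _).trans (k2 t ht)⟩⟩
      · refine ⟨(s, some false), ⟨⟨hp, trivial⟩, subset_rfl, Or.inr rfl, by simp⟩,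
          rz_of_supp hx fun t ht => ⟨?_, (hx.2.1 t ht).2⟩⟩
        rcases h1.2.1 t ht with rfl | k
        · exact hp
        · exact ⟨k.1.1.1.1, k.2, k.1.1.1.2.2⟩
    · rintro ⟨⟨s', j⟩, ⟨⟨k1, -⟩, k2, -, k3⟩, k4⟩
      by_cases e : s = s'
      · subst e
        rcases j with _ | _ | _
        · exact absurd rfl k3
        · refine Or.inr (rz_of_supp hx fun t ht => (Classical.em (t = s)).imp_right fun e => ?_)
          exact ⟨⟨(hx.2.1 t ht).1, Finset.ssubset_iff_subset_ne.2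
            ⟨(hx.2.1 t ht).2, fun e' => e e'.symm⟩⟩, (k4.2.1 t ht).1.2.1⟩
        · refine Or.inl (rz_of_supp hx fun t ht => ⟨(hx.2.1 t ht).1,
            Finset.ssubset_iff_subset_ne.2 ⟨(hx.2.1 t ht).2, fun e' => ?_⟩⟩)
          exact (k4.2.1 t ht).1.2 (e' ▸ hp.2.1)
      · exact Or.inl (rz_of_supp hx fun t ht => ⟨(hx.2.1 t ht).1,
          (Finset.ssubset_iff_subset_ne.2 ⟨k2, e⟩).trans_subset (k4.2.1 t ht).2⟩)
  · refine congr_Collar (dual_Collar hS hp) fun x hx => ?_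
    simp only [Set.mem_iUnion, exists_prop, Set.mem_ofPred_eq, r_some_Collar]
    rw [keyD_Collar hx]
    constructor
    · rintro ⟨s', k1, k2, k3⟩
      exact ⟨(s', some false), ⟨⟨k1, trivial⟩, k2, rfl⟩, k3⟩
    · rintro ⟨⟨s', j⟩, ⟨⟨k1, -⟩, k2, rfl⟩, k4⟩
      exact ⟨s', k1, k2, k4⟩
  · have c1 := (Cell.link hS hp.2).1
    have c2 := hp.1.card_pos
    have h1 := hfr_ball hA hSA hS.mf h hp
    rw [show 4 - s.card = 3 - s.card + 1 from by dsimp only at c1 c2; omega] at h1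
    refine congr_Collar (h1.bp (by dsimp only at c1 c2; omega)) fun x hx => ?_
    simp only [Set.mem_iUnion, exists_prop, Set.mem_ofPred_eq, r_some_Collar]
    constructor
    · intro k
      obtain ⟨b, k1, k2⟩ := bot_Collar hx
      obtain ⟨v, k3, k4, k5⟩ := k.2.1 b k1
      have k6 := hx.2.1 b k1
      refine ⟨(b.filter (· ∈ S), some true), ⟨⟨fil_Collar k6.1.1, trivial⟩,
        ⟨fun u hu => Finset.mem_filter.2 ⟨k6.2 hu, hp.2.1 hu⟩,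
          fun e => k5 (e (Finset.mem_filter.2 ⟨k3, k4⟩))⟩, rfl⟩, rz_of_supp hx fun t ht =>
            ⟨(hx.2.1 t ht).1, (Finset.filter_subset _ _).trans (k2 t ht)⟩⟩
    · rintro ⟨⟨s', j⟩, ⟨⟨k1, -⟩, k2, rfl⟩, k4⟩
      obtain ⟨v, k5, k6⟩ := Finset.exists_of_ssubset k2
      exact rz_of_supp hx fun t ht => ⟨v, (k4.2.1 t ht).2 k5, k1.2.1 k5, k6⟩

theorem cov_Collar (hSA : S ⊆ A) {i : Option Bool} {x : Finset V → ℝ}
    (hx : x ∈ Rz (sG V) (K_Collar G A S σ i)) : ∃ s ∈ sA G S, x ∈ C_Collar G A S σ (s, i) := by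
  obtain ⟨b, k1, k2⟩ := bot_Collar hx
  exact ⟨_, fil_Collar (K_sub_Collar hSA i (hx.2.1 b k1)), rz_of_supp hx fun t ht =>
    ⟨hx.2.1 t ht, (Finset.filter_subset _ _).trans (k2 t ht)⟩⟩

theorem collar (hA : Mfa G 3 A (fun _ => False) S) (hSA : S ⊆ A) (hS : Sph G 3 S)
    (h : Sided G 3 A S σ) :
    Shell (Rz (sG V) (hsd G A S σ)) (Rz (sG V) (sA G S)) (Rz (sG V) (hfr G A S σ)) := by
  have fS := Cell.finite hS
  have fH := hsd_finite (σ := σ) hA fS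
  obtain ⟨g, hg, hi⟩ := cell_homeo (I := sA G S ×ˢ (Set.univ : Set (Option Bool)))
    ((fH.subset (sA_subset_hsd hSA)).prod Set.finite_univ) r_Collar
    (fun _ _ k => k.2.2 rfl)
    (by
      rintro ⟨a, i⟩ - ⟨b, j⟩ - ⟨c, k⟩ - ⟨h1, h2, h3⟩ ⟨h4, h5, h6⟩
      dsimp only at h1 h2 h4 h5
      refine ⟨h4.trans h1, ?_, fun e => ?_⟩
      · rcases h5 with rfl | rfl
        · exact h2
        · exact Or.inr rfl
      · obtain ⟨rfl, rfl⟩ := Prod.mk.inj e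
        have e1 := Finset.Subset.antisymm h1 h4
        subst e1
        rcases h2 with rfl | rfl
        · exact h3 rfl
        · rcases h5 with rfl | rfl <;> exact h3 rfl)
    (fun p => 3 - p.1.card + if p.2 = none then 1 else 0)
    (C := C_Collar G A S σ) (C' := M_Collar G S)
    (fun p hp => bpC_Collar hA hSA hS h p hp.1) (fun p hp => bpM_Collar hS p hp.1)
    (fun p _ q _ k => rz_mono fun t ht => ⟨K_mono_Collar hSA k.2.1 ht.1, k.1.trans ht.2⟩)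
    (fun p _ q _ k => Set.prod_mono (rz_mono fun t ht => ⟨ht.1, k.1.trans ht.2⟩)
      (J_mono_Collar k.2.1))
    (by
      rintro p hp q hq x ⟨h1, h2⟩
      obtain ⟨b, k1, -⟩ := bot_Collar h1
      have k2 := h1.2.1 b k1
      have k3 := h2.2.1 b k1
      obtain ⟨m, m1, m2, m3⟩ := meet_Collar (K := K_Collar G A S σ)
        (fun a ha hb => hb.2 ha.2.1) k2.1 k3.1
      exact ⟨(p.1 ∪ q.1, m),
        ⟨un_Collar hp.1 hq.1 (K_sub_Collar hSA _ k2.1).1.2.2 k2.2 k3.2, trivial⟩,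
        face_Collar Finset.subset_union_left m1, face_Collar Finset.subset_union_right m2,
        rz_of_supp h1 fun t ht => ⟨m3 t (h1.2.1 t ht).1 (h2.2.1 t ht).1,
          Finset.union_subset (h1.2.1 t ht).2 (h2.2.1 t ht).2⟩⟩)
    (by
      rintro p hp q hq x ⟨h1, h2⟩
      obtain ⟨b, k1, -⟩ := bot_Collar h1.1
      have k2 := h1.1.2.1 b k1
      have k3 := h2.1.2.1 b k1
      obtain ⟨m, m1, m2, m3⟩ := meet_Collar (K := J_Collar)
        (fun a ha hb => zero_ne_one ((Set.mem_singleton_iff.1 ha).symm.trans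
          (Set.mem_singleton_iff.1 hb))) h1.2 h2.2
      exact ⟨(p.1 ∪ q.1, m), ⟨un_Collar hp.1 hq.1 k2.1.2.2 k2.2 k3.2, trivial⟩,
        face_Collar Finset.subset_union_left m1, face_Collar Finset.subset_union_right m2,
        rz_of_supp h1.1 fun t ht => ⟨(h1.1.2.1 t ht).1,
          Finset.union_subset (h1.1.2.1 t ht).2 (h2.1.2.1 t ht).2⟩, m3 _ h1.2 h2.2⟩)
  have s1 : ∀ p : Finset V × Option Bool, C_Collar G A S σ p ⊆ Rz (sG V) (hsd G A S σ) :=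
    fun p => rz_mono fun t ht => K_sub_Collar hSA _ ht.1
  have s2 : ∀ (i : Option Bool) (y : (Finset V → ℝ) × ℝ), y.1 ∈ Rz (sG V) (sA G S) →
      y.2 ∈ J_Collar i → ∃ s ∈ sA G S, y ∈ M_Collar G S (s, i) := fun i y h1 h2 => by
    obtain ⟨b, k1, k2⟩ := bot_Collar h1
    exact ⟨b, h1.2.1 b k1, rz_of_supp h1 fun t ht => ⟨h1.2.1 t ht, k2 t ht⟩, h2⟩
  have e1 : ⋃ p ∈ sA G S ×ˢ (Set.univ : Set (Option Bool)), C_Collar G A S σ p =
      Rz (sG V) (hsd G A S σ) := by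
    refine Set.Subset.antisymm (Set.iUnion₂_subset fun p _ => s1 p) fun x hx => ?_
    obtain ⟨s, k1, k2⟩ := cov_Collar (i := none) hSA hx
    exact Set.mem_iUnion₂.2 ⟨(s, none), ⟨k1, trivial⟩, k2⟩
  have e2 : ⋃ p ∈ sA G S ×ˢ (Set.univ : Set (Option Bool)), M_Collar G S p =
      Rz (sG V) (sA G S) ×ˢ Set.Icc (0 : ℝ) 1 := by
    refine Set.Subset.antisymm (Set.iUnion₂_subset fun p _ =>
      Set.prod_mono (rz_mono fun t ht => ht.1) (J_mono_Collar (i := none) (Or.inr rfl)))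
      fun y hy => ?_
    obtain ⟨s, k1, k2⟩ := s2 none y hy.1 hy.2
    exact Set.mem_iUnion₂.2 ⟨(s, none), ⟨k1, trivial⟩, k2⟩
  rw [e1, e2] at hg
  have key : ∀ x ∈ Rz (sG V) (hsd G A S σ), ∀ i,
      x ∈ Rz (sG V) (K_Collar G A S σ i) ↔ (g x).2 ∈ J_Collar i := fun x hx i => by
    constructor
    · intro k
      obtain ⟨s, k1, k2⟩ := cov_Collar hSA k
      have : g x ∈ M_Collar G S (s, i) := hi (s, i) ⟨k1, trivial⟩ ▸ Set.mem_image_of_mem g k2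
      exact this.2
    · intro k
      obtain ⟨s, k1, k2⟩ := s2 i (g x) (hg.2.mapsTo hx).1 k
      rw [← hi (s, i) ⟨k1, trivial⟩, hg.mem_image (s1 _) hx] at k2
      exact rz_mono (fun t ht => ht.1) k2
  exact shell_of_prod ((sp_sd fS).2 (hS.sp le_rfl)) (rz_compact fH)
    (rz_mono (sA_subset_hsd hSA)) (rz_mono Set.sdiff_subset) hg
    fun x hx => ⟨key x hx (some false), key x hx (some true)⟩

end Pool.Agent.MP_6374aa_g

end

section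

/-! Capping off boundary spheres. -/

namespace Pool.Agent.MP_6374aa_g

open Pool.Agent.MP_6374aa_gt Classical

variable {V V' : Type} {G : SimpleGraph V} {G' : SimpleGraph V'} {A : Set V} {A' : Set V'}

theorem PM.bcs_sph {X : Cx} {Z T : Set X.V} (h : PM X Z T) {S : Set X.V} (hS : S ∈ bcs X.G Z T) :
    S ⊆ Z ∩ T ∧ Sph X.G 3 S ∧ Clopen X.G (Z ∩ T) S := by
  obtain ⟨a, ha, rfl⟩ := hS
  exact ⟨cmp_subset a, h.sph a ha, clopen_cmp a⟩

theorem bcs_far {Z T S S' : Set V} (hS : S ∈ bcs G Z T) (hS' : S' ∈ bcs G Z T) (h : S ≠ S') :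
    Far G S S' := by
  obtain ⟨a, -, rfl⟩ := hS
  obtain ⟨b, -, rfl⟩ := hS'
  exact (cmp_eq_or_far a b).resolve_left h

theorem bcs_finite {Z T : Set V} (hf : Z.Finite) : (bcs G Z T).Finite := by
  exact (hf.subset Set.inter_subset_left).image _

/-- A family of far connected sets covering the boundary is the family of components. -/
theorem bcs_bij {Z T : Set V} {ι : Type} {I : Set ι} {S : ι → Set V}
    (h1 : ∀ i ∈ I, S i ⊆ Z ∩ T ∧ Con G (S i)) (h2 : ∀ i ∈ I, ∀ j ∈ I, i ≠ j → Far G (S i) (S j))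
    (h3 : ∀ a ∈ Z ∩ T, ∃ i ∈ I, a ∈ S i) : Set.BijOn S I (bcs G Z T) := by
  have key : ∀ i ∈ I, ∀ a ∈ S i, S i = cmp G (Z ∩ T) a := by
    intro i hi a ha
    refine Clopen.eq_cmp ⟨(h1 i hi).1, fun u hu w hw huw => ?_⟩ (h1 i hi).2.2 ha
    obtain ⟨j, hj, hwj⟩ := h3 w hw
    by_cases hij : i = j
    · rw [hij]; exact hwj
    · exact absurd (Or.inr huw) (h2 i hi j hj hij u hu w hwj)
  refine ⟨fun i hi => ?_, fun i hi j hj hij => ?_, ?_⟩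
  · obtain ⟨a, ha⟩ := (h1 i hi).2.1
    exact ⟨a, (h1 i hi).1 ha, (key i hi a ha).symm⟩
  · by_contra hne
    obtain ⟨a, ha⟩ := (h1 i hi).2.1
    exact h2 i hi j hj hne a ha a (hij ▸ ha) (adq_refl a)
  · rintro _ ⟨a, ha, rfl⟩
    obtain ⟨i, hi, hai⟩ := h3 a ha
    exact ⟨i, hi, key i hi a hai⟩

theorem PM.cap_cl {X : Cx} {Z T : Set X.V} (h : PM X Z T) (hf : Z.Finite) :
    Cl (capC X Z T).G 3 (capC X Z T).A := by
  refine ⟨(hf.image _).union ((bcs_finite hf).image _), ⟨?_, ?_⟩, ?_⟩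
  · obtain ⟨a, ha⟩ := h.con.1
    exact ⟨Sum.inl a, Or.inl ⟨a, ha, rfl⟩⟩
  · refine Pre.of_near ((IsIso.pre (cap_iso id Z)).1 h.con.2) Set.subset_union_left ?_
    rintro y (⟨a, ha, rfl⟩ | ⟨S, hS, rfl⟩)
    · exact ⟨_, ⟨a, ha, rfl⟩, Reach.refl _⟩
    · obtain ⟨a, ha, rfl⟩ := hS
      exact ⟨Sum.inl a, ⟨a, ha.1, rfl⟩, Reach.single (Or.inr ⟨_, ⟨a, ha, rfl⟩, rfl⟩)
        (Or.inl ⟨a, ha.1, rfl⟩) (Or.inr (mem_cmp_self ha))⟩
  · refine Mf.cap (S := id) (I := bcs X.G Z T) h.mf le_rfl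
      (fun S hS => ⟨(h.bcs_sph hS).1, (h.bcs_sph hS).2.1⟩) (fun S hS S' hS' => bcs_far hS hS') ?_
    intro a ha
    exact ⟨_, ⟨a, ha, rfl⟩, mem_cmp_self ha⟩

/-- The cone over a part of a boundary component. -/
def cn {X : Cx} (S d : Set X.V) : Set (X.V ⊕ Set X.V) := insert (Sum.inr S) (Sum.inl '' d)

theorem cap_dec (X : Cx) (Z T : Set X.V) :
    Rz (capC X Z T).G (capC X Z T).A = Rz (capG X.G id) (Sum.inl '' Z) ∪
      ⋃ S ∈ bcs X.G Z T, Rz (capG X.G id) (cn S S) := by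
  apply Set.Subset.antisymm
  · intro x hx
    by_cases hS : ∃ S, x (Sum.inr S) ≠ 0
    · obtain ⟨S, hS⟩ := hS
      have hb : S ∈ bcs X.G Z T := by
        rcases hx.2.1 _ hS with ⟨a, -, ha⟩ | ⟨S', hS', he⟩
        · cases ha
        · cases he; exact hS'
      refine Or.inr (Set.mem_biUnion hb (rz_of_supp hx fun v hv => ?_))
      rcases hx.2.2.1 v _ hv hS with he | he
      · exact Or.inl he
      · cases v with
        | inl u => exact Or.inr ⟨u, he, rfl⟩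
        | inr u => exact he.elim
    · refine Or.inl (rz_of_supp hx fun v hv => ?_)
      rcases hx.2.1 v hv with h | ⟨S, -, rfl⟩
      · exact h
      · exact absurd ⟨S, hv⟩ hS
  · refine Set.union_subset (rz_mono Set.subset_union_left) (Set.iUnion₂_subset fun S hS => ?_)
    refine rz_mono (Set.insert_subset (Or.inr ⟨S, hS, rfl⟩) ?_)
    obtain ⟨a, -, rfl⟩ := hS
    exact (Set.image_mono ((cmp_subset a).trans Set.inter_subset_left)).trans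
      Set.subset_union_left

theorem cn_bp {X : Cx} {S : Set X.V} (hS : Sph X.G 3 S) :
    BP 3 (Rz (capG X.G id) (cn S S)) (Rz (capG X.G id) (Sum.inl '' S)) := by
  refine Sph.cone_bp ((IsIso.sph (cap_iso id S)).1 hS) le_rfl ?_
  rintro _ ⟨a, ha, rfl⟩
  exact ha

theorem cn_bp_two {X : Cx} {S c : Set X.V} (hc : Sph X.G 2 c) (hS : c ⊆ S) :
    BP 2 (Rz (capG X.G id) (cn S c)) (Rz (capG X.G id) (Sum.inl '' c)) := by
  refine Sph.cone_bp ((IsIso.sph (cap_iso id c)).1 hc) (by norm_num) ?_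
  rintro _ ⟨a, ha, rfl⟩
  exact hS ha

theorem cn_bp_disc {X : Cx} {S d c : Set X.V} (hd : Ball X.G 3 d c) (hS : d ⊆ S) :
    BP 3 (Rz (capG X.G id) (cn S d))
      (Rz (capG X.G id) (Sum.inl '' d) ∪ Rz (capG X.G id) (cn S (d ∩ c))) := by
  have hb : Ball (capG X.G id) 3 (Sum.inl '' d) (Sum.inl '' c) :=
    (IsIso.ball (cap_iso id d) fun a _ => (Sum.inl_injective.mem_set_image).symm).1 hd
  have h := rz_cone_bp (c := Sum.inr S) (by rintro _ ⟨a, ha, rfl⟩; exact hS ha)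
    (Ball.bp hb le_rfl)
  rw [← Set.image_inter Sum.inl_injective] at h
  exact h

theorem cn_set_Cap {X : Cx} {S Z : Set X.V} (hS : S ⊆ Z) :
    cn S S ∩ Sum.inl '' Z = Sum.inl '' S := by
  apply Set.Subset.antisymm
  · rintro _ ⟨h1, a, -, rfl⟩
    rcases h1 with h1 | h1
    · cases h1
    · exact h1
  · exact Set.subset_inter (Set.subset_insert _ _) (Set.image_mono hS)

theorem cn_inter_Cap {X : Cx} {S Z : Set X.V} (hf : Z.Finite) (hS : S ⊆ Z) :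
    Rz (capG X.G id) (cn S S) ∩ Rz (capG X.G id) (Sum.inl '' Z) = pf Sum.inl '' Rz X.G S := by
  rw [rz_inter, cn_set_Cap hS, IsIso.pf_image (cap_iso id Z) hf hS]

theorem cn_bp_Cap {X : Cx} {Z T S : Set X.V} (h : PM X Z T) (hS : S ∈ bcs X.G Z T) :
    BP 3 (Rz (capG X.G id) (cn S S)) (Rz (capG X.G id) (Sum.inl '' Z)) := by
  refine (cn_bp (h.bcs_sph hS).2.1).congr ?_
  rw [rz_inter, rz_inter, cn_set_Cap subset_rfl,
    cn_set_Cap ((h.bcs_sph hS).1.trans Set.inter_subset_left)]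

theorem cn_dis_Cap {X : Cx} {Z T S S' : Set X.V} (hS : S ∈ bcs X.G Z T) (h : S ≠ S') :
    Rz (capG X.G id) (cn S S) ∩ Rz (capG X.G id) (cn S' S') ⊆
      Rz (capG X.G id) (Sum.inl '' Z) := by
  rw [rz_inter]
  refine rz_mono ?_
  rintro v ⟨h1 | ⟨a, ha, rfl⟩, h2⟩
  · subst h1
    rcases h2 with h2 | ⟨a, -, h2⟩
    · exact absurd (Sum.inr_injective h2) h
    · cases h2
  · obtain ⟨b, -, rfl⟩ := hS
    exact ⟨a, (cmp_subset b ha).1, rfl⟩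

/-- The capped manifold is obtained by filling in arbitrary balls. -/
theorem cap_fill {X P : Cx} {Z T : Set X.V} (h : PM X Z T) (hf : Z.Finite) {ι : Type} {I : Set ι}
    {S : ι → Set X.V} (hb : Set.BijOn S I (bcs X.G Z T)) {Y0 : Set (P.V → ℝ)}
    {B : ι → Set (P.V → ℝ)} {f : (X.V → ℝ) → P.V → ℝ} (hm : HM (Rz X.G Z) Y0 f)
    (hB : ∀ i ∈ I, BP 3 (B i) Y0 ∧ B i ∩ Y0 = f '' Rz X.G (S i))
    (hd : ∀ i ∈ I, ∀ j ∈ I, i ≠ j → B i ∩ B j ⊆ Y0) (hU : Y0 ∪ ⋃ i ∈ I, B i = Rz P.G P.A) :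
    PD X P Z T := by
  have hi := IsIso.hm (cap_iso (G := X.G) id Z) hf
  obtain ⟨g, hg, hg1, -⟩ := hi.symm' (rz_compact hf)
  have hI : I.Finite := Set.Finite.of_injOn hb.mapsTo hb.injOn (bcs_finite hf)
  have h3 : ∀ i ∈ I, (f ∘ g) '' (Rz (capG X.G id) (cn (S i) (S i)) ∩
      Rz (capG X.G id) (Sum.inl '' Z)) = B i ∩ Y0 := by
    intro i hi
    have hs : S i ⊆ Z := (h.bcs_sph (hb.mapsTo hi)).1.trans Set.inter_subset_left
    rw [(hB i hi).2, cn_inter_Cap hf hs, Set.image_image]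
    exact Set.image_congr fun x hx => congrArg f (hg1 x (rz_mono hs hx))
  obtain ⟨k, hk, -⟩ := hm_fill (d := fun _ => 3)
    (B := fun i => Rz (capG X.G id) (cn (S i) (S i))) (B' := B) hI (rz_compact (hf.image _))
    (hg.comp hm) (fun i hi => cn_bp_Cap h (hb.mapsTo hi)) (fun i hi => (hB i hi).1) h3
    (fun i hi j hj hij => cn_dis_Cap (hb.mapsTo hi) fun he => hij (hb.injOn hi hj he)) hd
  refine ⟨h, (homeo_iff (h.cap_cl hf).1).2 ⟨k, ?_⟩⟩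
  rw [cap_dec, ← hU, ← hb.image_eq, Set.biUnion_image]
  exact hk

theorem PD.homeo' {X P P' : Cx} {Z T : Set X.V} (h : PD X P Z T) (h' : P.Homeo P') : PD X P' Z T := by
  exact ⟨h.pm, h.homeo.trans h'⟩

theorem PD.congr {X P : Cx} {Z T T' : Set X.V} (h : PD X P Z T) (he : Z ∩ T = Z ∩ T') :
    PD X P Z T' := by
  have hc : capC X Z T' = capC X Z T := by unfold capC; rw [he]
  refine ⟨⟨h.pm.sub, h.pm.con, mf_congr_C5 h.pm.mf fun a ha => ?_, ?_⟩, hc ▸ h.homeo⟩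
  · exact ⟨fun h1 => (he ▸ (⟨ha, h1⟩ : a ∈ Z ∩ T) : a ∈ Z ∩ T').2,
      fun h1 => (he ▸ (⟨ha, h1⟩ : a ∈ Z ∩ T') : a ∈ Z ∩ T).2⟩
  · rw [← he]; exact h.pm.sph

theorem PD.sd {X P : Cx} {Z T : Set X.V} (h : PD X P Z T) (hf : Z.Finite) :
    PD X.sd P (sA X.G Z) (ins T) := by
  have hb : Set.BijOn (sA X.G) (bcs X.G Z T) (bcs (sG X.V) (sA X.G Z) (ins T)) := by
    refine bcs_bij (fun S hS => ⟨?_, con_sA.2 (h.pm.bcs_sph hS).2.1.con⟩)
      (fun S hS S' hS' hne => far_sA (bcs_far hS hS' hne).disjoint) ?_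
    · rw [← sA_inter]; exact sA_mono (h.pm.bcs_sph hS).1
    · intro s hs
      rw [← sA_inter] at hs
      obtain ⟨⟨u, hu⟩, h1, h2⟩ := mem_sA.1 hs
      exact ⟨_, ⟨u, h1 hu, rfl⟩, mem_sA.2 ⟨⟨u, hu⟩,
        fun w hw => ⟨h1 hw, Reach.single (h1 hu) (h1 hw) (h2 u hu w hw)⟩, h2⟩⟩
  have hp : PM X.sd (sA X.G Z) (ins T) := by
    refine ⟨sA_mono h.pm.sub, con_sA.2 h.pm.con, h.pm.mf.sd le_rfl, fun a ha => ?_⟩
    obtain ⟨S, hS, he⟩ := hb.surjOn ⟨a, ha, rfl⟩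
    have h1 := (h.pm.bcs_sph hS).2.1.sd le_rfl
    rw [he] at h1
    exact h1
  refine (cap_fill (P := capC X Z T) hp (sA_finite hf) hb
    ((bar_hm hf).comp (IsIso.hm (cap_iso id Z) hf)) (fun S hS => ⟨cn_bp_Cap h.pm hS, ?_⟩)
    (fun S hS S' _ hne => cn_dis_Cap hS hne) (cap_dec X Z T).symm).homeo' h.homeo
  have hs : S ⊆ Z := (h.pm.bcs_sph hS).1.trans Set.inter_subset_left
  refine (cn_inter_Cap hf hs).trans (Eq.trans ?_ (Set.image_comp _ _ _).symm)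
  exact congrArg _ (bar_image (hf.subset hs)).symm

theorem PD.iso {X X' P : Cx} {Z T : Set X.V} {Z' T' : Set X'.V} {f : X'.V → X.V} (h : PD X P Z T)
    (hf : Z.Finite) (hi : IsIso X'.G Z' X.G Z f) (hT : ∀ a ∈ Z', a ∈ T' ↔ f a ∈ T)
    (hZ : Z' ⊆ X'.A) : PD X' P Z' T' := by
  have hf' : Z'.Finite := Set.Finite.of_injOn hi.1.mapsTo hi.1.injOn hf
  have hr : ∀ S ∈ bcs X.G Z T, IsIso X'.G (Z' ∩ f ⁻¹' S) X.G S f := by
    intro S hS
    have h1 := IsIso.restrict' hi S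
    rwa [Set.inter_eq_right.2 ((h.pm.bcs_sph hS).1.trans Set.inter_subset_left)] at h1
  have hb : Set.BijOn (fun S => Z' ∩ f ⁻¹' S) (bcs X.G Z T) (bcs X'.G Z' T') := by
    refine bcs_bij (fun S hS => ⟨fun a ha => ⟨ha.1, (hT a ha.1).2 ((h.pm.bcs_sph hS).1 ha.2).2⟩,
      (IsIso.con (hr S hS)).2 (h.pm.bcs_sph hS).2.1.con⟩) (fun S hS S' hS' hne a ha b hb hab => ?_) ?_
    · exact bcs_far hS hS' hne _ ha.2 _ hb.2 ((IsIso.adq hi ha.1 hb.1).1 hab)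
    · intro a ha
      have h1 : f a ∈ Z ∩ T := ⟨hi.1.mapsTo ha.1, (hT a ha.1).1 ha.2⟩
      exact ⟨_, ⟨f a, h1, rfl⟩, ha.1, mem_cmp_self h1⟩
  have hp : PM X' Z' T' := by
    refine ⟨hZ, (IsIso.con hi).2 h.pm.con, (IsIso.mf hi hT).2 h.pm.mf, fun a ha => ?_⟩
    obtain ⟨S, hS, he⟩ := hb.surjOn ⟨a, ha, rfl⟩
    have h1 := (IsIso.sph (hr S hS)).2 (h.pm.bcs_sph hS).2.1
    have he' : Z' ∩ f ⁻¹' S = cmp X'.G (Z' ∩ T') a := he
    rwa [he'] at h1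
  refine (cap_fill (P := capC X Z T) hp hf' hb
    ((IsIso.hm hi hf').comp (IsIso.hm (cap_iso id Z) hf)) (fun S hS => ⟨cn_bp_Cap h.pm hS, ?_⟩)
    (fun S hS S' _ hne => cn_dis_Cap hS hne) (cap_dec X Z T).symm).homeo' h.homeo
  have hs : S ⊆ Z := (h.pm.bcs_sph hS).1.trans Set.inter_subset_left
  refine (cn_inter_Cap hf hs).trans (Eq.trans ?_ (Set.image_comp _ _ _).symm)
  exact congrArg _ (IsIso.hm (hr S hS) (hf'.subset Set.inter_subset_left)).image.symm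

end Pool.Agent.MP_6374aa_g

end

section

/-! Recognising the neighbourhood of a subcomplex. -/

namespace Pool.Agent.MP_6374aa_g

open Pool.Agent.MP_6374aa_gt Classical

variable {V V' : Type} {G : SimpleGraph V} {G' : SimpleGraph V'} {A : Set V} {A' : Set V'}

/-- Free sides: every edge leaving `Q` lies on the free side of exactly one sphere. -/
structure Free (G : SimpleGraph V) (A Q : Set V) {ι : Type} (I : Set ι) (S : ι → Set V)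
    (σ : ι → V → Set V) : Prop where
  sph : ∀ i ∈ I, S i ⊆ Q ∧ Sph G 3 (S i) ∧ Sided G 3 A (S i) (σ i) ∧
    ∀ x ∈ S i, Disjoint (σ i x) Q
  uniq : ∀ x ∈ Q, ∀ y ∈ A \ Q, G.Adj x y → ∃! i, i ∈ I ∧ x ∈ S i ∧ y ∈ σ i x

section helpers

variable {Q : Set V} {ι : Type} {I : Set ι} {S : ι → Set V} {σ : ι → V → Set V}

/-- A vertex in `Q` of a simplex on the free side lies on the sphere. -/
theorem Free.mem_Core (h : Free G A Q I S σ) {i : ι} (hi : i ∈ I) {t : Finset V}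
    (ht : t ∈ hsd G A (S i) (σ i)) {y : V} (hy : y ∈ t) (hQ : y ∈ Q) : y ∈ S i := by
  by_contra hn
  obtain ⟨-, ⟨x, hx, hxS⟩, h3⟩ := ht
  exact Set.disjoint_left.1 ((h.sph i hi).2.2.2 x hxS) (h3 x hx hxS y hy hn) hQ

theorem Free.pair_Core (h : Free G A Q I S σ) {i : ι} (hi : i ∈ I) {t : Finset V}
    (ht : t ∈ hsd G A (S i) (σ i)) {x y : V} (hx : x ∈ t) (hxQ : x ∈ Q) (hy : y ∈ t)
    (hyQ : y ∉ Q) : x ∈ S i ∧ y ∈ σ i x :=
  ⟨h.mem_Core hi ht hx hxQ,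
    ht.2.2 x hx (h.mem_Core hi ht hx hxQ) y hy fun e => hyQ ((h.sph i hi).1 e)⟩

theorem Free.hfr_Core (h : Free G A Q I S σ) {i : ι} (hi : i ∈ I) {t : Finset V}
    (ht : t ∈ hfr G A (S i) (σ i)) : t ∈ fr G A Q := by
  obtain ⟨x, hx, hxS⟩ := ht.1.2.1
  exact ⟨ht.1.1, ⟨x, hx, (h.sph i hi).1 hxS⟩, fun e =>
    ht.2 fun y hy => h.mem_Core hi ht.1 (Finset.mem_coe.1 hy) (e hy)⟩

theorem fr_pair_Core {t : Finset V} (ht : t ∈ fr G A Q) :
    ∃ x ∈ t, ∃ y ∈ t, x ∈ Q ∧ y ∈ A \ Q ∧ G.Adj x y := by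
  obtain ⟨h1, ⟨x, hx, hxQ⟩, h3⟩ := ht
  obtain ⟨y, hy, hyQ⟩ := Set.not_subset.1 h3
  refine ⟨x, hx, y, Finset.mem_coe.1 hy, hxQ, ⟨h1.2.1 hy, hyQ⟩, ?_⟩
  rcases (mem_sA.1 h1).2.2 x hx y (Finset.mem_coe.1 hy) with e | e
  · exact absurd (e ▸ hxQ) hyQ
  · exact e

theorem Free.eq_Core (h : Free G A Q I S σ) {i j : ι} (hi : i ∈ I) (hj : j ∈ I) {s t : Finset V}
    (hs : s ∈ hfr G A (S i) (σ i)) (ht : t ∈ hfr G A (S j) (σ j)) (hst : s ⊆ t) : i = j := by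
  obtain ⟨x, hx, y, hy, hxQ, hyQ, hxy⟩ := fr_pair_Core (h.hfr_Core hi hs)
  exact (h.uniq x hxQ y hyQ hxy).unique ⟨hi, h.pair_Core hi hs.1 hx hxQ hy hyQ.2⟩
    ⟨hj, h.pair_Core hj ht.1 (hst hx) hxQ (hst hy) hyQ.2⟩

end helpers

theorem Free.fr_eq {Q : Set V} {ι : Type} {I : Set ι} {S : ι → Set V} {σ : ι → V → Set V}
    (h : Free G A Q I S σ) (hQ : Q ⊆ A) :
    (∀ t, t ∈ fr G A Q ↔ ∃ i ∈ I, t ∈ hfr G A (S i) (σ i)) ∧
      ∀ i ∈ I, ∀ j ∈ I, i ≠ j → Far (sG V) (hfr G A (S i) (σ i)) (hfr G A (S j) (σ j)) := by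
  have _ := hQ
  refine ⟨fun t => ⟨fun ht => ?_, fun ⟨i, hi, ht⟩ => h.hfr_Core hi ht⟩,
    fun i hi j hj hij s hs t ht hst => hij ?_⟩
  · obtain ⟨x, hx, y, hy, hxQ, hyQ, hxy⟩ := fr_pair_Core ht
    obtain ⟨i, ⟨hi, hxS, hyσ⟩, -⟩ := h.uniq x hxQ y hyQ hxy
    exact ⟨i, hi, (h.sph i hi).2.2.1.mem_hsd ht.1 hx hxS hy hyσ⟩
  · rcases adq_sG.1 hst with e | e
    · exact h.eq_Core hi hj hs ht e
    · exact (h.eq_Core hj hi ht hs e).symm

theorem Free.pm {X : Cx} (hX : Cl X.G 3 X.A) {Q : Set X.V} (hQ : Q ⊆ X.A) (hc : Con X.G Q)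
    {ι : Type} {I : Set ι} {S : ι → Set X.V} {σ : ι → X.V → Set X.V} (h : Free X.G X.A Q I S σ) :
    PM X.sd (nb X.G X.A Q) (fr X.G X.A Q) ∧ Set.BijOn (fun i => hfr X.G X.A (S i) (σ i)) I
      (bcs (sG X.V) (nb X.G X.A Q) (fr X.G X.A Q)) := by
  obtain ⟨h1, h2⟩ := h.fr_eq hQ
  have hs : ∀ i ∈ I, Sph (sG X.V) 3 (hfr X.G X.A (S i) (σ i)) := fun i hi =>
    hfr_sph ((mf_empty_iff.1 hX.2.2).mono ((h.sph i hi).1.trans hQ)) ((h.sph i hi).1.trans hQ)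
      (h.sph i hi).2.1 (h.sph i hi).2.2.1
  have hb : Set.BijOn (fun i => hfr X.G X.A (S i) (σ i)) I
      (bcs (sG X.V) (nb X.G X.A Q) (fr X.G X.A Q)) := by
    refine bcs_bij (fun i hi => ⟨fun t ht => ?_, Cell.con (d := 1) (hs i hi)⟩) h2
      fun a ha => (h1 a).1 ha.2
    have := h.hfr_Core hi ht
    exact ⟨⟨this.1, this.2.1⟩, this⟩
  refine ⟨⟨fun _ ht => ht.1, ⟨?_, ?_⟩, hX.2.2.nb_empty le_rfl, fun a ha => ?_⟩, hb⟩
  · obtain ⟨a, ha⟩ := hc.1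
    exact ⟨({a} : Finset X.V), singleton_mem_sA.2 (hQ ha), a, Finset.mem_singleton_self a, ha⟩
  · refine (pre_nb (G := X.G) (A := X.A) (Q := Q)).2 ?_
    rw [Set.inter_eq_right.2 hQ]
    exact hc.2
  · obtain ⟨i, hi, e⟩ := hb.surjOn ⟨a, ha, rfl⟩
    have e' : hfr X.G X.A (S i) (σ i) = cmp (sG X.V) (nb X.G X.A Q ∩ fr X.G X.A Q) a := e
    have := hs i hi
    rw [e'] at this
    exact this

section fill

variable {Q : Set V} {ι : Type} {I : Set ι} {S : ι → Set V} {σ : ι → V → Set V}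

theorem Free.hsd_inter_Core (h : Free G A Q I S σ) (hQ : Q ⊆ A) {i : ι} (hi : i ∈ I) :
    hsd G A (S i) (σ i) ∩ sA G Q = sA G (S i) := by
  refine Set.Subset.antisymm (fun t ht => ⟨ht.2.1, fun y hy => ?_, ht.2.2.2⟩) fun t ht =>
    ⟨sA_subset_hsd ((h.sph i hi).1.trans hQ) ht, sA_mono (h.sph i hi).1 ht⟩
  exact h.mem_Core hi ht.1 (Finset.mem_coe.1 hy) (ht.2.2.1 hy)

theorem Free.hsd_hsd_Core (h : Free G A Q I S σ) {i j : ι} (hi : i ∈ I) (hj : j ∈ I)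
    (hij : i ≠ j) : hsd G A (S i) (σ i) ∩ hsd G A (S j) (σ j) ⊆ sA G Q := by
  rintro t ⟨h1, h2⟩
  refine ⟨h1.1.1, ?_, h1.1.2.2⟩
  by_contra hn
  exact hij (h.eq_Core hi hj ⟨h1, fun e => hn (Set.Subset.trans e (h.sph i hi).1)⟩
    ⟨h2, fun e => hn (Set.Subset.trans e (h.sph j hj).1)⟩ (Finset.Subset.refl t))

theorem Free.hsd_nb_Core (h : Free G A Q I S σ) {i : ι} (hi : i ∈ I) :
    hsd G A (S i) (σ i) ⊆ nb G A Q := by
  rintro t ⟨h1, ⟨x, hx, hxS⟩, -⟩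
  exact ⟨h1, x, hx, (h.sph i hi).1 hxS⟩

theorem sA_nb_Core (hQ : Q ⊆ A) : sA G Q ⊆ nb G A Q := fun t ht => by
  obtain ⟨x, hx⟩ := ht.1
  exact ⟨sA_mono hQ ht, x, hx, ht.2.1 (Finset.mem_coe.2 hx)⟩

/-- The neighbourhood is the union of the core and the collars. -/
theorem Free.dec_Core (h : Free G A Q I S σ) (hQ : Q ⊆ A) :
    Rz (sG V) (nb G A Q) = Rz (sG V) (sA G Q) ∪ ⋃ i ∈ I, Rz (sG V) (hsd G A (S i) (σ i)) := by
  refine Set.Subset.antisymm (fun y hy => ?_) (Set.union_subset (rz_mono (sA_nb_Core hQ))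
    (Set.iUnion₂_subset fun i hi => rz_mono (h.hsd_nb_Core hi)))
  obtain ⟨c, hc, hy'⟩ := rz_supp hy
  have hm : ∀ s, y s ≠ 0 → s ∈ nb G A Q ∧ s ⊆ top c := fun s hs =>
    ⟨hc.2.1 (Finset.mem_coe.2 ((hy' s).1 hs)), subset_top ((hy' s).1 hs)⟩
  have ht : top c ∈ nb G A Q := hc.2.1 (Finset.mem_coe.2 (top_mem hc))
  by_cases hq : ↑(top c) ⊆ Q
  · exact Or.inl (rz_of_supp hy fun s hs => ⟨(hm s hs).1.1.1,
      (Finset.coe_subset.2 (hm s hs).2).trans hq, (hm s hs).1.1.2.2⟩)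
  · obtain ⟨i, hi, hti⟩ := ((h.fr_eq hQ).1 _).1 ⟨ht.1, ht.2, hq⟩
    refine Or.inr (Set.mem_iUnion₂.2 ⟨i, hi, rz_of_supp hy fun s hs => ?_⟩)
    obtain ⟨⟨-, x, hx, hxQ⟩, h2⟩ := hm s hs
    exact hsd_face hti.1 h2 ⟨x, hx, h.mem_Core hi hti.1 (h2 hx) hxQ⟩

theorem iso_inl_Core (G : SimpleGraph V) (D : Set V) :
    IsIso G D (capG G (id : Set V → Set V)) (Sum.inl '' D) Sum.inl :=
  ⟨Sum.inl_injective.injOn.bijOn_image, fun _ _ _ _ => Iff.rfl⟩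

end fill

/-- If `P` is obtained from `Q` by filling the spheres with balls, then the neighbourhood of `Q`
is a punctured copy of `P`. -/
theorem core_fill {X P : Cx} (hX : Cl X.G 3 X.A) {Q : Set X.V} (hQ : Q ⊆ X.A) (hc : Con X.G Q)
    {ι : Type} {I : Set ι} {S : ι → Set X.V} {σ : ι → X.V → Set X.V} (h : Free X.G X.A Q I S σ)
    {Y0 : Set (P.V → ℝ)} {B : ι → Set (P.V → ℝ)} {f : (X.V → ℝ) → P.V → ℝ}
    (hm : HM (Rz X.G Q) Y0 f) (hB : ∀ i ∈ I, BP 3 (B i) Y0 ∧ B i ∩ Y0 = f '' Rz X.G (S i))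
    (hd : ∀ i ∈ I, ∀ j ∈ I, i ≠ j → B i ∩ B j ⊆ Y0) (hU : Y0 ∪ ⋃ i ∈ I, B i = Rz P.G P.A) :
    Core X P Q := by
  obtain ⟨hpm, hb⟩ := h.pm hX hQ hc
  have hL : (sA X.G X.A).Finite := sA_finite hX.1
  have hZ : (nb X.G X.A Q).Finite := hL.subset fun _ ht => ht.1
  have hbf : (bcs (sG X.V) (nb X.G X.A Q) (fr X.G X.A Q)).Finite := bcs_finite hZ
  have hI : I.Finite := Set.Finite.of_injOn hb.mapsTo hb.injOn hbf
  have hSA : ∀ i ∈ I, S i ⊆ X.A := fun i hi => (h.sph i hi).1.trans hQ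
  have hMf : ∀ i ∈ I, Mfa X.G 3 X.A (fun _ => False) (S i) := fun i hi =>
    (mf_empty_iff.1 hX.2.2).mono (hSA i hi)
  let K := capG (sG X.V) (id : Set (Finset X.V) → Set (Finset X.V))
  let e : Finset X.V → Finset X.V ⊕ Set (Finset X.V) := Sum.inl
  have he : Function.Injective e := Sum.inl_injective
  let H : ι → Set (Finset X.V) := fun i => hsd X.G X.A (S i) (σ i)
  let F : ι → Set (Finset X.V) := fun i => hfr X.G X.A (S i) (σ i)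
  let C : ι → Set (Finset X.V ⊕ Set (Finset X.V)) := fun i => insert (Sum.inr (F i)) (e '' F i)
  have hp : ∀ D ⊆ sA X.G X.A, pf e '' Rz (sG X.V) D = Rz K (e '' D) := fun D hD =>
    IsIso.pf_image (iso_inl_Core (sG X.V) _) hL hD
  have hh : ∀ D ⊆ sA X.G X.A, HM (Rz (sG X.V) D) (Rz K (e '' D)) (pf e) := fun D hD =>
    IsIso.hm (iso_inl_Core (sG X.V) D) (hL.subset hD)
  have hHL : ∀ i, H i ⊆ sA X.G X.A := fun _ _ ht => ht.1
  have hFH : ∀ i, F i ⊆ H i := fun _ _ ht => ht.1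
  have hQL : sA X.G Q ⊆ sA X.G X.A := sA_mono hQ
  have hD : ∀ i, Rz K (e '' H i) ∪ Rz K (C i) ⊆ Rz K (insert (Sum.inr (F i)) (e '' H i)) :=
    fun i => Set.union_subset (rz_mono (Set.subset_insert _ _))
      (rz_mono (Set.insert_subset_insert (Set.image_mono (hFH i))))
  have hW : ∀ i ∈ I, (Rz K (e '' H i) ∪ Rz K (C i)) ∩ Rz K (e '' sA X.G Q) =
      Rz K (e '' sA X.G (S i)) := by
    intro i hi
    have e1 := h.hsd_inter_Core hQ hi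
    refine Set.Subset.antisymm ((Set.inter_subset_inter_left _ (hD i)).trans ?_)
      (Set.subset_inter (Set.Subset.trans (rz_mono (Set.image_mono ?_)) Set.subset_union_left)
        (rz_mono (Set.image_mono (sA_mono (h.sph i hi).1))))
    · rw [rz_inter]
      refine rz_mono ?_
      rintro _ ⟨h1 | ⟨s, hs, h1⟩, t, ht, rfl⟩
      · exact absurd h1 Sum.inl_ne_inr
      · exact ⟨t, e1 ▸ ⟨he h1 ▸ hs, ht⟩, rfl⟩
    · exact e1 ▸ Set.inter_subset_left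
  have hBP : ∀ i ∈ I, BP 3 (Rz K (e '' H i) ∪ Rz K (C i)) (Rz K (e '' sA X.G Q)) := by
    intro i hi
    have h1 := (collar (hMf i hi) (hSA i hi) (h.sph i hi).2.1 (h.sph i hi).2.2.1).map
      (hh _ (hHL i))
    rw [hp _ (sA_mono (hSA i hi)), hp _ ((hFH i).trans (hHL i))] at h1
    have h2 : BP 3 (Rz K (C i)) (Rz K (e '' F i)) := cn_bp (X := X.sd)
      (hfr_sph (hMf i hi) (hSA i hi) (h.sph i hi).2.1 (h.sph i hi).2.2.1)
    have h3 : Rz K (C i) ∩ Rz K (e '' H i) = Rz K (e '' F i) := by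
      rw [rz_inter]
      refine congrArg _ (Set.Subset.antisymm ?_
        (Set.subset_inter (Set.subset_insert _ _) (Set.image_mono (hFH i))))
      rintro _ ⟨h1 | h1, t, -, rfl⟩
      · exact absurd h1 Sum.inl_ne_inr
      · exact h1
    refine (h1.cap h2 h3).congr ?_
    rw [hW i hi]
    exact Set.inter_eq_right.2 (by rw [← hW i hi]; exact Set.inter_subset_left)
  have hWW : ∀ i ∈ I, ∀ j ∈ I, i ≠ j → (Rz K (e '' H i) ∪ Rz K (C i)) ∩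
      (Rz K (e '' H j) ∪ Rz K (C j)) ⊆ Rz K (e '' sA X.G Q) := by
    intro i hi j hj hij
    refine (Set.inter_subset_inter (hD i) (hD j)).trans ?_
    rw [rz_inter]
    refine rz_mono ?_
    rintro _ ⟨rfl | ⟨s, hs, rfl⟩, h1 | ⟨t, ht, h1⟩⟩
    · exact absurd (hb.injOn hi hj (Sum.inr_injective h1)) hij
    · exact absurd h1 Sum.inl_ne_inr
    · exact absurd h1 Sum.inl_ne_inr
    · exact ⟨s, h.hsd_hsd_Core hi hj hij ⟨hs, he h1 ▸ ht⟩, rfl⟩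
  obtain ⟨g, hg, hg1, -⟩ := (hh _ hQL).symm' (rz_compact (hL.subset hQL))
  have hf := (hg.comp (bar_hm (hX.1.subset hQ))).comp hm
  have him : ∀ i ∈ I, (f ∘ bar ∘ g) '' ((Rz K (e '' H i) ∪ Rz K (C i)) ∩ Rz K (e '' sA X.G Q)) =
      B i ∩ Y0 := by
    intro i hi
    have e1 : g '' (pf e '' Rz (sG X.V) (sA X.G (S i))) = Rz (sG X.V) (sA X.G (S i)) := by
      rw [Set.image_image]
      exact (Set.image_congr fun x hx => hg1 x (rz_mono (sA_mono (h.sph i hi).1) hx)).trans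
        (Set.image_id' _)
    rw [hW i hi, ← hp _ (sA_mono (hSA i hi)), Set.image_comp, Set.image_comp, e1,
      bar_image (hX.1.subset (hSA i hi)), (hB i hi).2]
  obtain ⟨φ, hφ, -⟩ := hm_fill hI (rz_compact ((hL.subset hQL).image e)) hf hBP
    (fun i hi => (hB i hi).1) him hWW hd
  have hY : Rz (capC X.sd (nb X.G X.A Q) (fr X.G X.A Q)).G
      (capC X.sd (nb X.G X.A Q) (fr X.G X.A Q)).A =
      Rz K (e '' sA X.G Q) ∪ ⋃ i ∈ I, (Rz K (e '' H i) ∪ Rz K (C i)) := by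
    have e1 : Rz K (e '' nb X.G X.A Q) = Rz K (e '' sA X.G Q) ∪ ⋃ i ∈ I, Rz K (e '' H i) := by
      rw [← hp _ fun _ ht => ht.1, h.dec_Core hQ, Set.image_union, Set.image_iUnion₂, hp _ hQL]
      exact congrArg _ (Set.iUnion_congr fun i => Set.iUnion_congr fun _ => hp _ (hHL i))
    have e2 : ⋃ T ∈ bcs (sG X.V) (nb X.G X.A Q) (fr X.G X.A Q),
        Rz K (insert (Sum.inr T) (e '' T)) = ⋃ i ∈ I, Rz K (C i) := by
      rw [← hb.image_eq, Set.biUnion_image]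
    refine (cap_dec X.sd (nb X.G X.A Q) (fr X.G X.A Q)).trans ?_
    refine (congrArg₂ (· ∪ ·) e1 e2).trans ?_
    simp only [Set.union_assoc, Set.iUnion_union_distrib]
  refine ⟨hQ, hpm, (homeo_iff ?_).2 ⟨φ, ?_⟩⟩
  · exact (hZ.image _).union (hbf.image _)
  · rw [hY, ← hU]
    exact hφ

theorem Core.punctE {X P : Cx} {Q : Set X.V} (h : Core X P Q) : PunctE X P := by
  exact ⟨1, punct_iff.2 ⟨_, _, h.2⟩⟩

end Pool.Agent.MP_6374aa_g

end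

section

/-! Block F: the neighbourhood of a labelled polyhedron is a punctured copy of the model. -/

namespace Pool.Agent.MP_6374aa_g

open Pool.Agent.MP_6374aa_gt Classical

variable {V U : Type} {G : SimpleGraph V} {A P : Set V} {K : SimpleGraph U} {B : Set U}
  {ℓ : V → Finset U} {τ : U → V → Set V}

theorem FreeL.free (h : LabS G A K B P ℓ) (hτ : FreeL G A B P ℓ τ) :
    Free G A P B (fun a => CC P ℓ {a}) τ := by
  refine ⟨fun a ha => ⟨CC_subset _, hτ.sph a ha, hτ.sided a ha, fun x hx =>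
    Set.disjoint_left.2 (hτ.out a ha x hx)⟩, fun x hx y hy e => ?_⟩
  obtain ⟨a, ha, hg⟩ := FreeL.good h hτ
    (mem_sA_iff_clq.1 (pair_mem_sA (h.subset hx) hy.1 (Or.inr e))).2 (by simp) hx
  have h1 : y ∈ τ a x := (hg y (by simp)).resolve_left fun c => hy.2 c.1
  refine ⟨a, ⟨h.mem_B hx ha, mem_CC_one.2 ⟨hx, ha⟩, h1⟩, fun b hb => ?_⟩
  by_contra hab
  exact FreeL.disj h hτ hab hb.2.1 (mem_CC_one.2 ⟨hx, ha⟩) hb.2.2 h1

/-- The dual 3-cell of a vertex. -/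
def StF (K : SimpleGraph U) (B : Set U) (a : U) : Set (Finset U) := {t | t ∈ sA K B ∧ {a} ⊆ t}

theorem star_inter_I2 (a : U) : StF K B a ∩ I2 K B = CC (I2 K B) id {a} := by
  ext t
  exact ⟨fun ht => ⟨ht.2, ht.1.2⟩, fun ht => ⟨⟨ht.1.1, ht.2⟩, ht.1⟩⟩

theorem st_bp (hB : Cl K 3 B) {a : U} (ha : a ∈ B) :
    BP 3 (Rz (sG U) (StF K B a)) (Rz (sG U) (I2 K B)) := by
  have hl : Sph K 3 (Lk K B ({a} : Finset U)) := by
    rw [Finset.coe_singleton]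
    exact hB.2.2.sph_lk ha (Set.notMem_empty a)
  refine (dual_bp (singleton_mem_sA.2 ha) hl le_rfl).congr ?_
  rw [rz_inter, rz_inter]
  congr 1
  ext t
  refine and_congr_right fun ht => ⟨fun e => ⟨ht.1, ?_⟩, fun e => ?_⟩
  · have := Finset.card_lt_card e
    rwa [Finset.card_singleton] at this
  · refine Finset.ssubset_iff_subset_ne.2 ⟨ht.2, fun c => ?_⟩
    have := e.2
    rw [← c, Finset.card_singleton] at this
    omega

theorem st_inter {a b : U} (hab : a ≠ b) :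
    Rz (sG U) (StF K B a) ∩ Rz (sG U) (StF K B b) ⊆ Rz (sG U) (I2 K B) := by
  rw [rz_inter]
  refine rz_mono fun t ht => ⟨ht.1.1, ?_⟩
  rw [← Finset.card_pair hab]
  exact Finset.card_le_card (Finset.insert_subset (ht.1.2 (by simp)) ht.2.2)

theorem st_cover : Rz (sG U) (I2 K B) ∪ ⋃ a ∈ B, Rz (sG U) (StF K B a) = Rz (sG U) (sA K B) := by
  refine Set.Subset.antisymm (Set.union_subset (rz_mono fun _ ht => ht.1)
    (Set.iUnion₂_subset fun _ _ => rz_mono fun _ ht => ht.1)) ?_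
  refine (rz_cover (I := B) (X := StF K B)
    (fun _ _ _ ht => ht.1) fun σ hσ => ?_).subset.trans Set.subset_union_right
  obtain ⟨s, hs, hm⟩ := exists_bot hσ
  obtain ⟨a, ha⟩ := (hσ.2.1 hs).1
  exact ⟨a, (hσ.2.1 hs).2.1 ha, fun t ht =>
    ⟨hσ.2.1 ht, Finset.singleton_subset_iff.2 (hm t ht ha)⟩⟩

theorem LabS.core (h : LabS G A K B P ℓ) : Core ⟨V, G, A⟩ ⟨Finset U, sG U, sA K B⟩ P := by
  obtain ⟨τ, hτ⟩ := h.exists_free fun _ ha => h.sph ha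
  obtain ⟨g, h1, h2⟩ := h.hm (labS_model h.clB)
  refine core_fill (X := ⟨V, G, A⟩) (P := ⟨Finset U, sG U, sA K B⟩) h.clA h.subset h.con
    (hτ.free h) (Y0 := Rz (sG U) (I2 K B)) (B := fun a => Rz (sG U) (StF K B a)) h1
    (fun a ha => ⟨st_bp h.clB ha, ?_⟩) (fun a _ b _ hab => st_inter hab) st_cover
  exact (rz_inter _ _).trans ((congrArg _ (star_inter_I2 a)).trans (h2 {a}).symm)

theorem f_main : F_st := by
  intro X U K B P ℓ hX hB h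
  obtain ⟨P', ℓ', h'⟩ := labS_of_labP hX hB h
  have h1 : Core X.sd ⟨U, K, B⟩ P' :=
    ⟨h'.core.1, h'.core.2.homeo' (sdh_main ⟨U, K, B⟩ hB.1)⟩
  obtain ⟨k, hk⟩ := h1.punctE
  exact ⟨k + 1, hk⟩

end Pool.Agent.MP_6374aa_g

end

section

/-! Split manifolds, separating spheres, transport along isomorphisms. -/

namespace Pool.Agent.MP_6374aa_g

open Pool.Agent.MP_6374aa_gt Classical

variable {V V' : Type} {G : SimpleGraph V} {G' : SimpleGraph V'} {A : Set V} {A' : Set V'}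

theorem Hv.Valid.sd {H : Hv} (h : H.Valid) : H.sd.Valid := by
  refine ⟨h.cl.sd le_rfl, ?_, ne_sA _ _, ?_, ?_, ?_, ?_, ne_sA _ _, ?_, con_sA.2 h.con1, ?_,
    ne_sA _ _, ?_, con_sA.2 h.con2⟩
  · show sA H.G H.A = sA H.G H.X1 ∪ sA H.G H.X2
    rw [← sA_union h.ne, ← h.eq]
  · show Sph (sG H.V) 3 (sA H.G H.X1 ∩ sA H.G H.X2)
    rw [← sA_inter']
    exact h.sph.sd le_rfl
  · obtain ⟨a, ha⟩ := h.n1
    exact ⟨({a} : Finset H.V), singleton_mem_sA.2 ha.1, fun k => ha.2 (singleton_mem_sA.1 k)⟩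
  · obtain ⟨a, ha⟩ := h.n2
    exact ⟨({a} : Finset H.V), singleton_mem_sA.2 ha.1, fun k => ha.2 (singleton_mem_sA.1 k)⟩
  · show sA H.G H.A1 = sA H.G H.X1 ∪ sA H.G H.B1
    rw [← sA_union h.ne1, ← h.eq1]
  · show sA H.G H.X1 ∩ sA H.G H.B1 = sA H.G H.X1 ∩ sA H.G H.X2
    rw [← sA_inter', ← sA_inter', h.int1]
  · show sA H.G H.A2 = sA H.G H.X2 ∪ sA H.G H.B2
    rw [← sA_union h.ne2, ← h.eq2]
  · show sA H.G H.X2 ∩ sA H.G H.B2 = sA H.G H.X1 ∩ sA H.G H.X2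
    rw [← sA_inter', ← sA_inter', h.int2]

theorem Hv.Valid.swap {H : Hv} (h : H.Valid) : H.swap.Valid := by
  refine ⟨h.cl, h.eq.trans (Set.union_comm _ _), h.ne.symm, ?_, h.n2, h.n1, h.eq2, h.ne2,
    h.int2.trans (Set.inter_comm _ _), h.con2, h.eq1, h.ne1, h.int1.trans (Set.inter_comm _ _),
    h.con1⟩
  show Sph H.G 3 (H.X2 ∩ H.X1)
  rw [Set.inter_comm]
  exact h.sph

/-- A closed manifold is not the closed star of a vertex. -/
theorem outside_GHv {v : V} (h : Cl G 3 A) (hv : v ∈ A) :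
    ∃ w ∈ A, w ∉ insert v (Lk G A {v}) := by
  have hm := mf_empty_iff.1 h.2.2
  have hs : Sph G 3 (Lk G A {v}) := h.2.2.sph_lk hv (Set.notMem_empty v)
  obtain ⟨t, ht, -, hc, -⟩ := Cell.pure hs (s := ∅) clq_empty_C1
  have htA : Clq G A t := ⟨ht.1.trans (lk_subset _), ht.2⟩
  obtain ⟨x, hx⟩ : t.Nonempty := Finset.card_pos.1 (by omega)
  have k1 := (hm.link htA ⟨x, hx, htA.1 hx⟩).2
  have k0 := (Cell.link hs ht).2
  rw [hc] at k1 k0
  have h2 := (sph_one.1 k1).1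
  obtain ⟨w, hw, hwv⟩ := Set.exists_ne_of_one_lt_ncard (s := Lk G A t) (by omega) v
  refine ⟨w, hw.1, ?_⟩
  rintro (e | e)
  · exact hwv e
  · have : w ∈ Lk G (Lk G A {v}) t := ⟨e, hw.2⟩
    rw [k0.1] at this
    exact this

theorem star_GHv {v : V} (hv : v ∈ A) : A = (A \ {v}) ∪ insert v (Lk G A {v}) ∧
    NE G (A \ {v}) (insert v (Lk G A {v})) ∧ (A \ {v}) ∩ insert v (Lk G A {v}) = Lk G A {v} ∧
      Con G (insert v (Lk G A {v})) := by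
  have hl : ∀ a ∈ Lk G A {v}, a ∈ A \ {v} := fun a ha =>
    ⟨ha.1, fun e => (mem_lk_C1.1 ha).2.ne' e⟩
  refine ⟨?_, ?_, ?_, (cone_sco (a := v) (Or.inl rfl) ?_).1⟩
  · ext a
    refine ⟨fun ha => ?_, ?_⟩
    · by_cases e : a = v
      · exact Or.inr (Or.inl e)
      · exact Or.inl ⟨ha, e⟩
    · rintro (ha | rfl | ha)
      exacts [ha.1, hv, ha.1]
  · rintro a ha b ⟨rfl | hb, hb'⟩ hab
    · exact ha.2 (Or.inr (mem_lk_C1.2 ⟨ha.1.1, hab.symm⟩))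
    · exact hb' (hl b hb)
  · ext a
    exact ⟨fun ha => ha.2.resolve_left ha.1.2, fun ha => ⟨hl a ha, Or.inr ha⟩⟩
  · rintro x (rfl | hx)
    · exact Or.inl rfl
    · exact Or.inr (mem_lk_C1.1 hx).2

theorem hv_of_graft {A1 A2 : Set V} {v : V} (h : Graft G A1 A2 A v) (h1 : Cl G 3 A1)
    (h2 : Cl G 3 A2) : Hv.Valid ⟨V, G, A, A1 \ {v}, A2 \ {v}, A1, A2, insert v (Lk G A1 {v}),
      insert v (Lk G A1 {v})⟩ := by
  have hi : (A1 \ {v}) ∩ (A2 \ {v}) = Lk G A1 {v} := by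
    ext a
    refine ⟨fun ha => (graft_mem_C5 h ha.1).2 ha.2, fun ha => ?_⟩
    have h3 : a ∈ A1 \ {v} := ⟨ha.1, fun e => (mem_lk_C1.1 ha).2.ne' e⟩
    exact ⟨h3, (graft_mem_C5 h h3).1 ha⟩
  obtain ⟨e1, n1, i1, c1⟩ := star_GHv (G := G) h.memA
  obtain ⟨e2, n2, i2, c2⟩ := star_GHv (G := G) h.memM
  rw [← h.lk] at e2 n2 i2 c2
  refine ⟨Graft.cl h h1 h2, h.eq.trans Set.union_sdiff_distrib, graft_ne_C5 h, ?_, ?_, ?_, e1, n1,
    i1.trans hi.symm, c1, e2, n2, i2.trans hi.symm, c1⟩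
  · show Sph G 3 ((A1 \ {v}) ∩ (A2 \ {v}))
    rw [hi]
    exact h1.2.2.sph_lk h.memA (Set.notMem_empty v)
  · obtain ⟨w, hw, hn⟩ := outside_GHv h1 h.memA
    exact ⟨w, ⟨hw, fun e => hn (Or.inl e)⟩, fun k => hn (h.inter ▸ ⟨hw, k.1⟩)⟩
  · obtain ⟨w, hw, hn⟩ := outside_GHv h2 h.memM
    rw [← h.lk] at hn
    exact ⟨w, ⟨hw, fun e => hn (Or.inl e)⟩, fun k => hn (h.inter ▸ ⟨k.1, hw⟩)⟩

theorem side_con_GHv {S : Set V} {σ : V → Set V} (hA : Cl G 3 A) (hSA : S ⊆ A)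
    (hS : Sph G 3 S) (hσ : Sided G 3 A S σ) {x : V} (hx : x ∈ S) : Con G (σ x) :=
  (Cell.side (d := 2) (mf_empty_iff.1 hA.2.2 x (hSA hx)) (Cell.mfa hS x hx) le_rfl
    (lk_mono_C1 hSA _) (hσ.split hx)).2

theorem side_cmp_GHv {S : Set V} {σ : V → Set V} (hA : Cl G 3 A) (hSA : S ⊆ A)
    (hS : Sph G 3 S) (hσ : Sided G 3 A S σ) {x0 a0 : V} (hx0 : x0 ∈ S) (ha0 : a0 ∈ σ x0) :
    ∀ x ∈ S, σ x ⊆ cmp G (A \ S) a0 := by
  have hsub : ∀ x ∈ S, σ x ⊆ A \ S := fun x hx a ha =>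
    ⟨(hσ.subset x hx ha).1.1, (hσ.subset x hx ha).2⟩
  have hone : ∀ x ∈ S, ∀ a ∈ σ x, a ∈ cmp G (A \ S) a0 → σ x ⊆ cmp G (A \ S) a0 :=
    fun x hx a ha k => (side_con_GHv hA hSA hS hσ hx).2.subset_cmp (hsub x hx) ha k
  have step : ∀ x ∈ S, ∀ y ∈ S, G.Adj x y → σ x ⊆ cmp G (A \ S) a0 →
      σ y ⊆ cmp G (A \ S) a0 := by
    intro x hx y hy hxy k
    obtain ⟨t, ht, hst, hc, -⟩ := Cell.pure hS (s := {x, y})
      (mem_sA_iff_clq.1 (pair_mem_sA hx hy (Or.inr hxy))).2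
    obtain ⟨⟨a, ha, haσ⟩, -⟩ := hσ.two t ht hc x (hst (by simp))
    have := (hσ.compat x hx y hy hxy a (mem_lk2_H4.2
      ⟨ha.1, ha.2 x (hst (by simp)), ha.2 y (hst (by simp))⟩)).1 haσ
    exact hone y hy a this (k haσ)
  intro x hx
  have e := (Cell.con (d := 1) hS).2.const (φ := fun x => σ x ⊆ cmp G (A \ S) a0)
    (fun a ha b hb hab => propext ⟨step a ha b hb hab, step b hb a ha hab.symm⟩) hx0 hx
  exact e ▸ hone x0 hx0 a0 ha0 (mem_cmp_self (hsub x0 hx0 ha0))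

/-- A two sided connected surface whose complement is disconnected has two sides. -/
theorem split_of_not_con {S : Set V} {σ : V → Set V} (hA : Cl G 3 A) (hSA : S ⊆ A)
    (hS : Sph G 3 S) (hσ : Sided G 3 A S σ) (hn : ¬ Con G (A \ S)) :
    ∃ P, Split G 3 A S P ∧ Con G P ∧ Con G (A \ (S ∪ P)) ∧ ∀ x ∈ S, P ∩ Lk G A {x} = σ x := by
  have hσ' := hσ.symm hSA
  obtain ⟨x0, hx0⟩ := Cell.nonempty hS
  obtain ⟨a0, ha0⟩ := (side_con_GHv hA hSA hS hσ hx0).1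
  obtain ⟨b0, hb0⟩ := (side_con_GHv hA hSA hS hσ' hx0).1
  have ha1 : a0 ∈ A \ S := ⟨(hσ.subset _ hx0 ha0).1.1, (hσ.subset _ hx0 ha0).2⟩
  have hb1 : b0 ∈ A \ S := ⟨hb0.1.1, fun k => hb0.2 (Or.inl k)⟩
  have hP : ∀ x ∈ S, σ x ⊆ cmp G (A \ S) a0 := side_cmp_GHv hA hSA hS hσ hx0 ha0
  have hQ : ∀ x ∈ S, Lk G A {x} \ (S ∪ σ x) ⊆ cmp G (A \ S) b0 :=
    side_cmp_GHv hA hSA hS hσ' hx0 hb0
  have hall : ∀ y ∈ A \ S, y ∈ cmp G (A \ S) a0 ∨ y ∈ cmp G (A \ S) b0 := by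
    intro y hy
    obtain ⟨u, hu, w, hw, huw, hr⟩ := Reach.exit (X := A \ S) (hA.2.1.2 y hy.1 x0 (hSA hx0))
      ⟨hy.1, hy⟩ fun k => k.2 hx0
    have hwS : w ∈ S := by_contra fun k => hw.2 ⟨hw.1, k⟩
    have hr' : Reach G (A \ S) u y := (hr.mono Set.inter_subset_right).symm
    by_cases e : u ∈ σ w
    · exact Or.inl ⟨hy, (hP w hwS e).2.trans hr'⟩
    · exact Or.inr ⟨hy, (hQ w hwS ⟨mem_lk_C1.2 ⟨hu.1, huw.symm⟩,
        fun k => k.elim hu.2.2 e⟩).2.trans hr'⟩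
  have hd : ∀ y ∈ cmp G (A \ S) a0, y ∉ cmp G (A \ S) b0 := by
    intro y h1 h2
    refine hn ⟨⟨a0, ha1⟩, pre_of_base (x := y) fun z hz => ?_⟩
    rcases hall z hz with k | k
    · exact k.2.symm.trans h1.2
    · exact k.2.symm.trans h2.2
  have he : A \ (S ∪ cmp G (A \ S) a0) = cmp G (A \ S) b0 := by
    ext y
    refine ⟨fun hy => (hall y ⟨hy.1, fun k => hy.2 (Or.inl k)⟩).resolve_left
      fun k => hy.2 (Or.inr k), fun hy => ⟨hy.1.1, fun k => k.elim hy.1.2 fun k => hd y k hy⟩⟩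
  refine ⟨cmp G (A \ S) a0, ⟨cmp_subset _, fun a ha b hb hab => ?_, fun s hs hc => ?_⟩,
    con_cmp ha1, he ▸ con_cmp hb1, fun x hx => ?_⟩
  · exact hb.2 (Or.inr ((clopen_cmp a0).2 a ha b ⟨hb.1, fun k => hb.2 (Or.inl k)⟩ hab))
  · obtain ⟨x, hx⟩ : s.Nonempty := Finset.card_pos.1 (by omega)
    obtain ⟨⟨a, ha⟩, b, hb⟩ := hσ.two s hs hc x hx
    refine ⟨⟨a, ha.1, hP x (hs.1 hx) ha.2⟩, b, hb.1, fun k => k.elim (fun k => hb.2 (Or.inl k))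
      fun k => hd b k (hQ x (hs.1 hx) ⟨mem_lk_C1.2 ⟨hb.1.1, hb.1.2 x hx⟩, hb.2⟩)⟩
  · ext a
    refine ⟨fun ha => by_contra fun k => hd a ha.1 (hQ x hx ⟨ha.2, fun k' => k'.elim ha.1.1.2 k⟩),
      fun ha => ⟨hP x hx ha, (hσ.subset x hx ha).1⟩⟩

theorem side_GHv {H : Hv} (h : H.Valid) {Z : Set H.V} (hZ : Z ⊆ H.A) (hc : Pre H.G Z)
    (hd : Disjoint Z (H.X1 ∩ H.X2)) : Z ⊆ H.X1 \ H.X2 ∨ Z ⊆ H.X2 \ H.X1 := by
  have ho : ∀ z ∈ Z, z ∈ H.X1 \ H.X2 ∨ z ∈ H.X2 \ H.X1 := fun z hz => by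
    have k : z ∉ H.X1 ∩ H.X2 := Set.disjoint_left.1 hd hz
    rcases (h.eq ▸ hZ hz : z ∈ H.X1 ∪ H.X2) with e | e
    · exact Or.inl ⟨e, fun e' => k ⟨e, e'⟩⟩
    · exact Or.inr ⟨e, fun e' => k ⟨e', e⟩⟩
  have step : ∀ a ∈ Z, ∀ b ∈ Z, H.G.Adj a b → a ∈ H.X1 \ H.X2 → b ∈ H.X1 \ H.X2 :=
    fun a _ b hb hab k => (ho b hb).resolve_right fun k' => h.ne a k b k' hab
  by_cases e : ∃ z ∈ Z, z ∈ H.X1 \ H.X2
  · obtain ⟨z, hz, k⟩ := e
    refine Or.inl fun y hy => ?_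
    have := hc.const (φ := fun x => x ∈ H.X1 \ H.X2)
      (fun a ha b hb hab => propext ⟨step a ha b hb hab, step b hb a ha hab.symm⟩) hz hy
    exact this ▸ k
  · exact Or.inr fun y hy => (ho y hy).resolve_left fun k => e ⟨y, hy, k⟩

theorem Hv.Valid.split {H : Hv} (h : H.Valid) :
    Split H.G 3 H.A (H.X1 ∩ H.X2) (H.X1 \ H.X2) := by
  have hSA : H.X1 ∩ H.X2 ⊆ H.A := h.eq ▸ fun x hx => Or.inl hx.1
  have h1A : H.X1 ⊆ H.A := h.eq ▸ Set.subset_union_left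
  have h2A : H.X2 ⊆ H.A := h.eq ▸ Set.subset_union_right
  obtain ⟨a, ha⟩ := h.n1
  obtain ⟨b, hb⟩ := h.n2
  obtain ⟨σ, hσ⟩ := exists_sided (d := 2) ((mf_empty_iff.1 h.cl.2.2).mono hSA) (Cell.mfa h.sph)
    le_rfl hSA (Cell.ndc h.sph)
  have hn : ¬ Con H.G (H.A \ (H.X1 ∩ H.X2)) := fun k => by
    rcases side_GHv h Set.sdiff_subset k.2 Set.disjoint_sdiff_left with e | e
    · exact hb.2 (e ⟨h2A hb.1, fun k => hb.2 k.1⟩).1
    · exact ha.2 (e ⟨h1A ha.1, fun k => ha.2 k.2⟩).1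
  obtain ⟨P, hP, c1, c2, -⟩ := split_of_not_con h.cl hSA h.sph hσ hn
  have dP := side_GHv h (hP.subset.trans Set.sdiff_subset) c1.2
    (Set.disjoint_left.2 fun x hx => (hP.subset hx).2)
  have dQ := side_GHv h Set.sdiff_subset c2.2
    (Set.disjoint_left.2 fun x hx k => hx.2 (Or.inl k))
  have ho : ∀ y ∈ H.A, y ∉ H.X1 ∩ H.X2 → y ∈ P ∨ y ∈ H.A \ (H.X1 ∩ H.X2 ∪ P) := fun y hy k => by
    by_cases e : y ∈ P
    · exact Or.inl e
    · exact Or.inr ⟨hy, fun k' => k'.elim k e⟩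
  rcases dP with dP | dP <;> rcases dQ with dQ | dQ
  · exact absurd ((ho b (h2A hb.1) fun k => hb.2 k.1).elim (fun k => (dP k).1) fun k => (dQ k).1)
      hb.2
  · have e : H.X1 \ H.X2 = P := Set.Subset.antisymm (fun y hy =>
      (ho y (h1A hy.1) fun k => hy.2 k.2).resolve_right fun k => hy.2 (dQ k).1) dP
    exact e ▸ hP
  · have e : H.X1 \ H.X2 = H.A \ (H.X1 ∩ H.X2 ∪ P) := Set.Subset.antisymm (fun y hy =>
      (ho y (h1A hy.1) fun k => hy.2 k.2).resolve_left fun k => hy.2 (dP k).1) dQ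
    exact e ▸ hP.symm hSA
  · exact absurd ((ho a (h1A ha.1) fun k => ha.2 k.2).elim (fun k => (dP k).1) fun k => (dQ k).1)
      ha.2

/-- A connected set missing the splitting sphere lies in one half. -/
theorem Hv.Valid.side {H : Hv} (h : H.Valid) {Z : Set H.V} (hZ : Z ⊆ H.A) (hc : Pre H.G Z)
    (hd : Disjoint Z (H.X1 ∩ H.X2)) : Z ⊆ H.X1 \ H.X2 ∨ Z ⊆ H.X2 \ H.X1 := by
  exact side_GHv h hZ hc hd

theorem Hv.Valid.nonsep {H : Hv} (h : H.Valid) {S : Set H.V} (hS : S ⊆ H.X1 \ H.X2)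
    (hc : Con H.G (H.A \ S)) : Con H.G (H.A1 \ S) := by
  have hB : H.B1 ⊆ H.A1 \ S := fun x hx => ⟨h.eq1 ▸ Or.inr hx, fun k =>
    (hS k).2 (h.int1 ▸ (⟨(hS k).1, hx⟩ : x ∈ H.X1 ∩ H.B1) : x ∈ H.X1 ∩ H.X2).2⟩
  have hI : ∀ x ∈ H.X1 ∩ H.X2, x ∈ H.B1 := fun x hx => (h.int1.symm ▸ hx : x ∈ H.X1 ∩ H.B1).2
  obtain ⟨z, hz⟩ := Cell.nonempty h.sph
  refine ⟨⟨z, hB (hI z hz)⟩, h.con1.2.of_near hB fun y hy => ?_⟩
  by_cases e : y ∈ H.B1
  · exact ⟨y, e, Reach.refl y⟩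
  have y1 : y ∈ H.X1 := (h.eq1 ▸ hy.1 : y ∈ H.X1 ∪ H.B1).resolve_right e
  have yA : y ∈ H.A \ S := ⟨h.eq ▸ Or.inl y1, hy.2⟩
  have zA : z ∈ H.A \ S := ⟨h.eq ▸ Or.inl hz.1, fun k => (hS k).2 hz.2⟩
  obtain ⟨u, hu, w, hw, huw, hr⟩ := Reach.exit (X := H.X1 \ H.X2) (hc.2 y yA z zA)
    ⟨yA, y1, fun k => e (hI y ⟨y1, k⟩)⟩ fun k => k.2 hz.2
  have w2 : w ∈ H.X2 := by_contra fun k =>
    hw.2 ⟨(h.eq ▸ hw.1.1 : w ∈ H.X1 ∪ H.X2).resolve_right k, k⟩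
  have w1 : w ∈ H.X1 := by_contra fun k => h.ne u hu.2 w ⟨w2, k⟩ huw
  have hsub : (H.A \ S) ∩ (H.X1 \ H.X2) ⊆ H.A1 \ S := fun x hx =>
    ⟨h.eq1 ▸ Or.inl hx.2.1, hx.1.2⟩
  exact ⟨w, hI w ⟨w1, w2⟩, (hr.mono hsub).trans
    (Reach.single (hsub hu) (hB (hI w ⟨w1, w2⟩)) (Or.inr huw))⟩

theorem nonsep_iff {X : Cx} (hf : X.A.Finite) :
    X.NonSep ↔ ∃ S ⊆ X.A, Sph X.G 3 S ∧ Con X.G (X.A \ S) := by
  refine exists_congr fun S => and_congr_right fun hS => ?_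
  rw [sphere2_iff (hf.subset hS), con_iff_connected]

theorem nonsep_of {X : Cx} {S : Set X.V} (hS : S ⊆ X.A) (h : Sph X.G 3 S)
    (hc : Con X.G (X.A \ S)) : X.NonSep := by
  exact ⟨S, hS, (sphere2_iff (Cell.finite h)).2 h, con_iff_connected.1 hc⟩

theorem cl_iter {X : Cx} (h : Cl X.G 3 X.A) (k : ℕ) : Cl (Cx.sd^[k] X).G 3 (Cx.sd^[k] X).A := by
  induction k generalizing X with
  | zero => exact h
  | succ k ih => exact ih (X := X.sd) (h.sd le_rfl)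

theorem iso_iter {X Y : Cx} {f : X.V → Y.V} (h : IsIso X.G X.A Y.G Y.A f) (k : ℕ) :
    ∃ g, IsIso (Cx.sd^[k] X).G (Cx.sd^[k] X).A (Cx.sd^[k] Y).G (Cx.sd^[k] Y).A g := by
  induction k generalizing X Y with
  | zero => exact ⟨f, h⟩
  | succ k ih => exact ih (X := X.sd) (Y := Y.sd) (IsIso.sd h)

theorem NSE.iso {X Y : Cx} {f : X.V → Y.V} (h : IsIso X.G X.A Y.G Y.A f) (hf : Cl X.G 3 X.A)
    (hY : NSE Y) : NSE X := by
  obtain ⟨i, hi⟩ := hY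
  obtain ⟨g, hg⟩ := iso_iter h i
  have hX := cl_iter hf i
  obtain ⟨S, hS, h1, h2⟩ := (nonsep_iff ((IsIso.cl hg).1 hX).1).1 hi
  refine ⟨i, nonsep_of (S := (Cx.sd^[i] X).A ∩ g ⁻¹' S) Set.inter_subset_left ?_ ?_⟩
  · refine (IsIso.sph (IsIso.restrict' hg S)).2 ?_
    rwa [Set.inter_eq_right.2 hS]
  · rw [Set.sdiff_self_inter]
    exact (IsIso.con (IsIso.restrict' hg Sᶜ)).2 h2

theorem NSE.of_iter {X : Cx} {k : ℕ} (h : NSE (Cx.sd^[k] X)) : NSE X := by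
  obtain ⟨j, hj⟩ := h
  exact ⟨j + k, by rwa [Function.iterate_add_apply]⟩

theorem Summand.of_iter {X P : Cx} {k : ℕ} (h : Summand P (Cx.sd^[k] X)) : Summand P X := by
  obtain ⟨j, U, K, A, R, B, v, f, h1, h2, h3, h4, h5⟩ := h
  have key : ∀ Y Z : Cx, Y = Z → (∃ g : U → Y.V, Iso K B Y.G Y.A g) →
      ∃ g : U → Z.V, Iso K B Z.G Z.A g := fun Y Z e k => e ▸ k
  obtain ⟨g, hg⟩ := key _ _ (Function.iterate_add_apply Cx.sd j k X).symm ⟨f, h5⟩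
  exact ⟨j + k, U, K, A, R, B, v, g, h1, h2, h3, h4, hg⟩

theorem hv_iter (H : Hv) (k : ℕ) : (Hv.sd^[k] H).X = Cx.sd^[k] H.X ∧
    (Hv.sd^[k] H).Y1 = Cx.sd^[k] H.Y1 ∧ (Hv.sd^[k] H).Y2 = Cx.sd^[k] H.Y2 := by
  induction k generalizing H with
  | zero => exact ⟨rfl, rfl, rfl⟩
  | succ k ih => exact ih H.sd

theorem Hv.Valid.iter {H : Hv} (h : H.Valid) (k : ℕ) : (Hv.sd^[k] H).Valid := by
  induction k generalizing H with
  | zero => exact h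
  | succ k ih => exact ih h.sd

end Pool.Agent.MP_6374aa_g

end

section

/-! The two spheres made from a sphere and a disc. -/

namespace Pool.Agent.MP_6374aa_g

open Pool.Agent.MP_6374aa_gt Classical

variable {V V' : Type} {G : SimpleGraph V} {G' : SimpleGraph V'} {A : Set V} {A' : Set V'}

variable {S E P P' : Set V} {τ σ σ' : V → Set V}

theorem disc_union_sph (hS : Sph G 3 S) (hE : Ball G 3 E S) (hne : NE G E S)
    (hP : Split G 2 S (E ∩ S) P) : Sph G 3 (E ∪ P) ∧ Ball G 3 (E ∩ S ∪ P) (E ∩ S) ∧ Con G P := by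
  have hc : Sph G 2 (E ∩ S) := hE.bd le_rfl
  obtain ⟨h1, h2⟩ := Cell.side (d := 2) hS hc le_rfl Set.inter_subset_right hP
  have hd : Ball G 3 (E ∩ S ∪ P) (E ∩ S) := h1.congr fun s _ => or_iff_left id
  have e1 : E ∩ (E ∩ S ∪ P) = E ∩ S := Set.Subset.antisymm
    (fun x hx => hx.2.elim id fun h => ⟨hx.1, (hP.subset h).1⟩) fun x hx => ⟨hx.1, Or.inl hx⟩
  have ne : NE G E (E ∩ S ∪ P) := fun a ha b hb => hne a ⟨ha.1, fun h => ha.2 (Or.inl ⟨ha.1, h⟩)⟩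
    b ⟨hb.1.elim (·.2) fun h => (hP.subset h).1, hb.2⟩
  refine ⟨?_, hd, h2⟩
  rw [show E ∪ P = E ∪ (E ∩ S ∪ P) by
    rw [← Set.union_assoc, Set.union_eq_self_of_subset_right Set.inter_subset_left]]
  obtain ⟨a, ha⟩ := Cell.nonempty hc
  refine cell_three (hE.finite.union hd.finite)
    ⟨⟨a, Or.inl ha.1⟩, (Cell.con hE).2.union (Cell.con hd).2 ha.1 (Or.inl ha) (adq_refl a)⟩
    (glue_triv ne.cov2 (Cell.ndc hE) (Cell.ndc hd) (e1.symm ▸ (Cell.con hc).2))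
    ((Mfa.union_ne (d := 1) (Cell.mfa hE) (Cell.mfa hd) (β0 := fun _ => False)
      (e1.symm ▸ Cell.mfa hc) (by norm_num) (fun s hs => ?_) ne).congr le_rfl fun s _ => ?_)
    (by simp)
  · rw [e1] at hs
    exact ⟨hs.2.1.trans Set.inter_subset_right, hs.2.1⟩
  · rw [e1]
    split_ifs with h3 h4
    · rfl
    · exact iff_false_intro fun h => h3 (Set.subset_inter h4 h)
    · exact iff_false_intro h3

theorem dich_GTwo1 {d : ℕ} {Z : Set V} (h : Sided G d A S σ) {x y z : V} (hx : x ∈ S)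
    (hZ : Pre G Z) (hs : Z ⊆ Lk G A {x} \ S) (hy : y ∈ Z) (hz : z ∈ Z) (h1 : y ∈ σ x) :
    z ∈ σ x := by
  have k : ∀ a ∈ Z, ∀ b ∈ Z, G.Adj a b → a ∈ σ x → b ∈ σ x := fun a _ b hb e ha =>
    by_contra fun n => h.sep x hx a ha b ⟨(hs hb).1, fun o => o.elim (hs hb).2 n⟩ e
  exact (hZ.const (φ := (· ∈ σ x)) (fun a ha b hb e =>
    propext ⟨k a ha b hb e, k b hb a ha e.symm⟩) hy hz).mp h1

theorem tri_GTwo1 (hS : Sph G 3 S) (h : Sided G 3 A S σ) {x y : V} (hx : x ∈ S) (hy : y ∈ S)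
    (e : G.Adj x y) : ∃ z ∈ σ x, z ∈ Lk G A {x, y} := by
  obtain ⟨t, t1, t2, t3, -⟩ := hS.pure (mem_sA_iff_clq.1 (pair_mem_sA hx hy (Or.inr e))).2
  obtain ⟨z, z1, z2⟩ := (h.two t t1 t3 x (t2 (by simp))).1
  exact ⟨z, z2, z1.1, fun u hu => z1.2 u (t2 (by simpa using hu))⟩

theorem Att.sect (h : Att G A S E τ) (hP : Split G 2 S (E ∩ S) P) : ∃ σ, Sect G A S E P τ σ := by
  obtain ⟨s1, s2, -⟩ := disc_union_sph h.sph h.ball h.ne hP
  have hA := mf_empty_iff.1 h.mf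
  have hU : E ∪ P ⊆ A := Set.union_subset h.subE fun x hx => (h.subS (hP.subset hx).1)
  have t' := h.sided.symm h.subS
  have dS : E ∩ S ∪ P ⊆ S := fun x hx => hx.elim (·.2) fun h => (hP.subset h).1
  have dU : E ∩ S ∪ P ⊆ E ∪ P := fun x hx => hx.imp_left (·.1)
  have nP : ∀ x ∈ P, ∀ y ∈ Lk G A {x} \ S, y ∉ E ∪ P := fun x hx y hy o => o.elim
    (fun e => h.ne y ⟨e, hy.2⟩ x ⟨(hP.subset hx).1, fun e => (hP.subset hx).2
      ⟨e, (hP.subset hx).1⟩⟩ (hy.1.2 x rfl).symm) fun e => hy.2 (hP.subset e).1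
  have miss : ∀ x ∈ E ∩ S ∪ P, Lk G A {x} \ (S ∪ τ x) ⊆ Lk G A {x} \ (E ∪ P) :=
    fun x hx y hy => ⟨hy.1, hx.elim (fun e o => o.elim
      (fun o => hy.2 (Or.inr (h.side x e y ⟨o, fun n => hy.2 (Or.inl n)⟩ (hy.1.2 x rfl))))
      fun o => hy.2 (Or.inl (hP.subset o).1)) fun e => nP x e y ⟨hy.1, fun n => hy.2 (Or.inl n)⟩⟩
  obtain ⟨σ, hσ, k⟩ : ∃ σ, Sided G 3 A (E ∪ P) σ ∧
      ∀ x ∈ E ∩ S ∪ P, ∀ y ∈ Lk G A {x} \ (S ∪ τ x), y ∉ σ x := by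
    obtain ⟨σ, hσ⟩ := exists_sided (d := 2) (hA.mono hU) (Cell.mfa s1) le_rfl hU (Cell.ndc s1)
    by_cases n : ∀ x ∈ E ∩ S ∪ P, ∀ y ∈ Lk G A {x} \ (S ∪ τ x), y ∉ σ x
    · exact ⟨σ, hσ, n⟩
    push Not at n
    obtain ⟨x0, h0, n⟩ := n
    have di : ∀ x ∈ E ∩ S ∪ P, ∀ y ∈ Lk G A {x} \ (S ∪ τ x), (∃ z ∈ Lk G A {x} \ (S ∪ τ x),
        z ∈ σ x) → y ∈ σ x := fun x hx y hy ⟨z, z1, z2⟩ => dich_GTwo1 hσ (dU hx)
      (side_con (hA.mono h.subS) h.subS h.sph.mf t' (dS hx)).1.2 (miss x hx) z1 hy z2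
    have st : ∀ a ∈ E ∩ S ∪ P, ∀ b ∈ E ∩ S ∪ P, G.Adj a b →
        (∃ z ∈ Lk G A {a} \ (S ∪ τ a), z ∈ σ a) → ∃ z ∈ Lk G A {b} \ (S ∪ τ b), z ∈ σ b :=
      fun a ha b hb e n => by
        obtain ⟨z, z1, z2⟩ := tri_GTwo1 h.sph t' (dS ha) (dS hb) e
        exact ⟨z, (t'.compat a (dS ha) b (dS hb) e z z2).1 z1,
          (hσ.compat a (dU ha) b (dU hb) e z z2).1 (di a ha z z1 n)⟩
    exact ⟨_, hσ.symm hU, fun x hx y hy o => o.2 (Or.inr (di x hx y hy (((Cell.con s2).2.const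
      (φ := fun a => ∃ z ∈ Lk G A {a} \ (S ∪ τ a), z ∈ σ a)
      (fun a ha b hb e => propext ⟨st a ha b hb e, st b hb a ha e.symm⟩) h0 hx).mp n)))⟩
  have le : ∀ x ∈ E ∩ S ∪ P, σ x ⊆ τ x := fun x hx y hy => by
    have h1 := (hσ.subset x (dU hx) hy).1
    by_contra n
    refine k x hx y ⟨h1, fun o => o.elim (fun e => ?_) n⟩ hy
    obtain ⟨z, z1, z2⟩ := tri_GTwo1 h.sph t' (dS hx) e (h1.2 x rfl)
    exact hσ.sep x (dU hx) y hy z ⟨z1.1, fun o => o.elim (miss x hx z1).2 (k x hx z z1)⟩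
      (z2.2 y (Or.inr rfl))
  refine ⟨σ, hσ, fun x hx => le x (Or.inl hx), fun x hx =>
    (le x (Or.inr hx)).antisymm fun y hy => ?_⟩
  obtain ⟨z, hz⟩ := (side_con (hA.mono hU) hU s1.mf hσ (Or.inr hx)).1.1
  have h2 := h.sided.subset x (dS (Or.inr hx))
  exact dich_GTwo1 hσ (Or.inr hx)
    (side_con (hA.mono h.subS) h.subS h.sph.mf h.sided (dS (Or.inr hx))).1.2
    (fun w hw => ⟨(h2 hw).1, nP x hx w (h2 hw)⟩) (le x (Or.inr hx) hz) hy hz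

end Pool.Agent.MP_6374aa_g

end

section

/-! The two spheres made from a sphere and a disc. -/

namespace Pool.Agent.MP_6374aa_g

open Pool.Agent.MP_6374aa_gt Classical

variable {V V' : Type} {G : SimpleGraph V} {G' : SimpleGraph V'} {A : Set V} {A' : Set V'}

variable {S E P P' : Set V} {τ σ σ' : V → Set V}

theorem spread_GTwo {X Y : Set V} (hX : Pre G X) (h : ∀ a ∈ Y, ∀ b ∈ X, G.Adj a b → b ∈ Y)
    {x : V} (h1 : x ∈ X) (h2 : x ∈ Y) : X ⊆ Y := fun _ hy =>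
  (hX.subset_clopen subset_rfl (Y := X ∩ Y)
    ⟨Set.inter_subset_left, fun a ha b hb e => ⟨hb, h a ha.2 b hb e⟩⟩ h1 ⟨h1, h2⟩ hy).2

theorem parts_GTwo {X1 X2 Z1 Z2 : Set V} (p1 : Pre G X1) (p2 : Pre G X2) (s1 : Z1 ⊆ X1 ∪ X2)
    (s2 : Z2 ⊆ X1 ∪ X2) (n1 : Z1.Nonempty) (n2 : Z2.Nonempty) (hd : Disjoint Z1 Z2)
    (c1 : ∀ a ∈ Z1, ∀ b ∈ X1 ∪ X2, G.Adj a b → b ∈ Z1)
    (c2 : ∀ a ∈ Z2, ∀ b ∈ X1 ∪ X2, G.Adj a b → b ∈ Z2) : X1 ∪ X2 ⊆ Z1 ∪ Z2 := by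
  obtain ⟨a, ha⟩ := n1
  obtain ⟨b, hb⟩ := n2
  have k1 := fun k => spread_GTwo p1 (fun u hu w hw => c1 u hu w (Or.inl hw)) k ha
  have k2 := fun k => spread_GTwo p2 (fun u hu w hw => c1 u hu w (Or.inr hw)) k ha
  have k3 := fun k => spread_GTwo p1 (fun u hu w hw => c2 u hu w (Or.inl hw)) k hb
  have k4 := fun k => spread_GTwo p2 (fun u hu w hw => c2 u hu w (Or.inr hw)) k hb
  rcases s1 ha with e1 | e1 <;> rcases s2 hb with e2 | e2
  · exact absurd hb (Set.disjoint_left.1 hd (k1 e1 e2))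
  · exact Set.union_subset_union (k1 e1) (k4 e2)
  · exact (Set.union_subset_union (k3 e2) (k2 e1)).trans (Set.union_comm _ _).subset
  · exact absurd hb (Set.disjoint_left.1 hd (k2 e1 e2))

theorem Att.mfa_GTwo (h : Att G A S E τ) {X : Set V} (hX : X ⊆ A) :
    Mfa G 3 A (fun _ => False) X := (mf_empty_iff.1 h.mf).mono hX

theorem Att.sub_GTwo (h : Att G A S E τ) (hP : Split G 2 S (E ∩ S) P) : E ∪ P ⊆ A :=
  Set.union_subset h.subE fun _ k => h.subS (hP.subset k).1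

theorem Att.con_GTwo (h : Att G A S E τ) (hP : Split G 2 S (E ∩ S) P)
    (hs : Sided G 3 A (E ∪ P) σ) {x : V} (hx : x ∈ E) : Con G (σ x) :=
  (side_con (h.mfa_GTwo (h.sub_GTwo hP)) (h.sub_GTwo hP)
    (disc_union_sph h.sph h.ball h.ne hP).1.mf hs (Or.inl hx)).1

theorem clo_GTwo (hs : Sided G 3 A (E ∪ P) σ) {x a b : V} (hx : x ∈ E) (ha : a ∈ σ x)
    (hb : b ∈ Lk G A {x}) (hab : G.Adj a b) (hn : b ∉ E ∪ P) : b ∈ σ x :=
  (hs.mem_of_adj (Or.inl hx) ha hb.1 (mem_lk_H3.1 hb).2 (Or.inr hab)).resolve_left hn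

theorem Att.out_GTwo (h : Att G A S E τ) (h1 : Sect G A S E P τ σ) {x : V} (hx : x ∈ E ∩ S)
    {y : V} (hy : y ∈ σ x) : y ∈ Lk G A {x} ∧ y ∉ E ∧ y ∉ S :=
  have k := h1.sided.subset x (Or.inl hx.1) hy
  ⟨k.1, fun e => k.2 (Or.inl e), (h.sided.subset x hx.2 (h1.le x hx hy)).2⟩

theorem Att.disj_GTwo (h : Att G A S E τ) (hP : Split G 2 S (E ∩ S) P) (hS : P' ⊆ S)
    (hd : Disjoint P P') (h1 : Sect G A S E P τ σ) (h2 : Sect G A S E P' τ σ') {x : V}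
    (hx : x ∈ E ∩ S) : Disjoint (σ x) (σ' x) := by
  refine Set.disjoint_left.2 fun y hy hy' => ?_
  have k0 : σ x ⊆ σ' x := spread_GTwo (h.con_GTwo hP h1.sided hx.1).2 (fun a ha b hb hab =>
    have k := h.out_GTwo h1 hx hb
    clo_GTwo h2.sided hx.1 ha k.1 hab fun e => e.elim k.2.1 fun e => k.2.2 (hS e)) hy hy'
  obtain ⟨t, ht, hxt, hc, -⟩ := Cell.pure (Ball.bd h.ball le_rfl) (clq_single_C1.2 hx)
  obtain ⟨z, hz, hzP⟩ := (hP.two t ht hc).1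
  have hx' : x ∈ t := Finset.singleton_subset_iff.1 hxt
  have k1 : Clq G (E ∪ P) (insert z t) := by
    refine ⟨?_, (ins_H7 ⟨fun u hu => (ht.1 hu).2, ht.2⟩ hz).2⟩
    rw [Finset.coe_insert]
    exact Set.insert_subset (Or.inr hzP) fun u hu => Or.inl (ht.1 hu).1
  obtain ⟨w, hw, hw'⟩ := (h1.sided.two _ k1 (by rw [Finset.card_insert_of_notMem (notMem_H7 hz), hc])
    x (Finset.mem_insert_of_mem hx')).1
  have k2 := hP.subset hzP
  refine (h.out_GTwo h2 hx (clo_GTwo h2.sided hx.1 (k0 hw')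
    (mem_lk_H3.2 ⟨h.subS k2.1, hz.2 x hx'⟩) (hw.2 z (by simp)).symm ?_)).2.2 k2.1
  exact fun e => e.elim (fun e => k2.2 ⟨e, k2.1⟩) (Set.disjoint_left.1 hd hzP)

theorem Att.lk_GTwo (h : Att G A S E τ) (hP : Split G 2 S (E ∩ S) P) {x : V} (hx : x ∈ E \ S) :
    Lk G (E ∪ P) {x} = Lk G E {x} := by
  refine Set.ext fun y => ⟨fun k => ⟨k.1.resolve_right fun e => ?_, k.2⟩, fun k => ⟨Or.inl k.1, k.2⟩⟩
  have k2 := hP.subset e
  exact h.ne x hx y ⟨k2.1, fun c => k2.2 ⟨c, k2.1⟩⟩ (mem_lk_H3.1 k).2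

theorem Att.alt_GTwo (h : Att G A S E τ) (hP : Split G 2 S (E ∩ S) P)
    (hP' : Split G 2 S (E ∩ S) P') (h1 : Sided G 3 A (E ∪ P) σ) (h2 : Sided G 3 A (E ∪ P') σ')
    {x : V} (hx : x ∈ E \ S) : σ' x = σ x ∨ σ' x = Lk G A {x} \ (Lk G E {x} ∪ σ x) := by
  have k1 := h1.split (Or.inl hx.1)
  have k2 := h2.split (Or.inl hx.1)
  rw [h.lk_GTwo hP' hx] at k2
  have k3 : Lk G A {x} \ (Lk G (E ∪ P) {x} ∪ σ x) = Lk G A {x} \ (E ∪ P ∪ σ x) :=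
    Set.ext fun y => and_congr_right fun k => not_congr (or_congr_left ⟨fun c => c.1, fun c => ⟨c, k.2⟩⟩)
  have k4 := (h.con_GTwo hP (h1.symm (h.sub_GTwo hP)) hx.1).2
  rw [← k3] at k4
  rw [h.lk_GTwo hP hx] at k1 k4
  obtain ⟨t, ht, -, hc, -⟩ := Cell.pure (Mf.sph_lk (Cell.mfa h.ball) hx.1 hx.2) clq_empty_C1
  exact k1.unique k2 (h.con_GTwo hP h1 hx.1).2 k4 ⟨t, ht, hc⟩

theorem Att.all_GTwo (h : Att G A S E τ) (hP : Split G 2 S (E ∩ S) P)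
    (hP' : Split G 2 S (E ∩ S) P') (hd : Disjoint P P') (h1 : Sect G A S E P τ σ)
    (h2 : Sect G A S E P' τ σ') {x : V} (hx : x ∈ E) : Disjoint (σ x) (σ' x) := by
  have k0 : ∀ x ∈ E, ¬ Disjoint (σ x) (σ' x) → x ∉ S := fun x hx k hS =>
    k (h.disj_GTwo hP (fun _ c => (hP'.subset c).1) hd h1 h2 ⟨hx, hS⟩)
  by_contra k
  obtain ⟨z, hz⟩ := Cell.nonempty (Ball.bd h.ball le_rfl)
  have k1 : E ⊆ {x | x ∈ E ∧ ¬ Disjoint (σ x) (σ' x)} := by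
    refine spread_GTwo (Cell.con h.ball).2 (fun a ha b hb hab => ⟨hb, ?_⟩) hx ⟨hx, k⟩
    have k2 : σ' a = σ a := (h.alt_GTwo hP hP' h1.sided h2.sided
      ⟨ha.1, k0 a ha.1 ha.2⟩).resolve_right fun e => ha.2 (Set.disjoint_left.2 fun y c c' =>
        (e.subset c').2 (Or.inr c))
    obtain ⟨t, ht, hs, hc, -⟩ := Cell.pure h.ball (pair_mem_sA ha.1 hb (Or.inr hab)).2
    have m1 : a ∈ t := hs (by simp)
    have m2 : b ∈ t := hs (by simp)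
    obtain ⟨w, hw, hw'⟩ := (h1.sided.two t ⟨ht.1.trans Set.subset_union_left, ht.2⟩ hc a m1).1
    have m3 : w ∈ Lk G A {a, b} := mem_lk2_H4.2 ⟨hw.1, hw.2 a m1, hw.2 b m2⟩
    exact Set.not_disjoint_iff.2 ⟨w,
      (h1.sided.compat a (Or.inl ha.1) b (Or.inl hb) hab w m3).1 hw',
      (h2.sided.compat a (Or.inl ha.1) b (Or.inl hb) hab w m3).1 (k2.superset hw')⟩
  exact k0 z hz.1 (k1 hz.1).2 hz.2

theorem Att.halves_GTwo (h : Att G A S E τ) {x : V} (hx : x ∈ E ∩ S) :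
    ∃ X1 X2, Pre G X1 ∧ Pre G X2 ∧ X1 ∪ X2 = τ x \ E := by
  have hO := (side_con (h.mfa_GTwo h.subS) h.subS h.sph.mf h.sided hx.2).2
  have hc : Ball G 2 (Lk G E {x}) S := Mf.ball_lk (Cell.mfa h.ball) hx.1 hx.2
  have k1 : Lk G E {x} ⊆ Lk G S {x} ∪ τ x := fun y hy => or_iff_not_imp_left.2 fun k =>
    h.side x hx y ⟨hy.1, fun c => k ⟨c, hy.2⟩⟩ (mem_lk_H3.1 hy).2
  have k2 : ∀ y ∈ Lk G S {x} ∪ τ x, y ∈ E → y ∈ Lk G E {x} := fun y hy c =>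
    ⟨c, hy.elim (fun e => e.2) fun e => (h.sided.subset x hx.2 e).1.2⟩
  have k3 : ∀ R, Split G 2 (Lk G S {x} ∪ τ x) (Lk G E {x}) R →
      Pre G ((Lk G E {x} ∪ R) \ (E ∪ S)) := fun R hR =>
    (Cell.rem_bd_con (Cell.side hO hc le_rfl k1 hR).1 le_rfl fun s hs =>
      (h.ne.clique ⟨fun _ c => (hs.1 c).2, hs.2⟩).imp_left fun e y c =>
        (hs.1 c).1.elim id fun c' => k2 y (hR.subset c').1 (e c)).1.2
  obtain ⟨R, hR⟩ := Cell.exists_split hO hc le_rfl k1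
  refine ⟨_, _, k3 R hR, k3 _ (hR.symm k1), Set.ext fun y => ⟨?_, fun k => ?_⟩⟩
  · have k4 : y ∈ Lk G S {x} ∪ τ x → y ∉ E ∪ S → y ∈ τ x \ E := fun c c' =>
      ⟨c.resolve_left fun e => c' (Or.inr e.1), fun e => c' (Or.inl e)⟩
    rintro (⟨c | c, c'⟩ | ⟨c | c, c'⟩)
    exacts [k4 (k1 c) c', k4 (hR.subset c).1 c', k4 (k1 c) c', k4 c.1 c']
  · have k4 : y ∉ E ∪ S := fun c => c.elim k.2 (h.sided.subset x hx.2 k.1).2
    by_cases c : y ∈ R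
    · exact Or.inl ⟨Or.inr c, k4⟩
    · exact Or.inr ⟨Or.inr ⟨Or.inr k.1, fun e => e.elim (fun e => k.2 e.1) c⟩, k4⟩

theorem Att.two_sides (h : Att G A S E τ) (hP : Split G 2 S (E ∩ S) P)
    (hP' : P' = S \ (E ∩ S ∪ P)) (h1 : Sect G A S E P τ σ) (h2 : Sect G A S E P' τ σ') :
    (∀ x ∈ E, Disjoint (σ x) (σ' x)) ∧
      ∀ x ∈ E, ∀ y ∈ Lk G A {x} \ E, (x ∈ S → y ∈ τ x) → y ∈ σ x ∨ y ∈ σ' x := by
  have hQ : Split G 2 S (E ∩ S) P' := hP' ▸ hP.symm Set.inter_subset_right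
  have hd : Disjoint P P' := Set.disjoint_left.2 fun y c c' => (hP'.subset c').2 (Or.inr c)
  have k0 := fun x hx => h.all_GTwo hP hQ hd h1 h2 (x := x) hx
  refine ⟨k0, fun x hx y hy hτ => ?_⟩
  by_cases hS : x ∈ S
  · obtain ⟨X1, X2, p1, p2, e⟩ := h.halves_GTwo ⟨hx, hS⟩
    have k1 : ∀ {P σ}, Split G 2 S (E ∩ S) P → Sect G A S E P τ σ → σ x ⊆ X1 ∪ X2 ∧
        ∀ a ∈ σ x, ∀ b ∈ X1 ∪ X2, G.Adj a b → b ∈ σ x := fun hP h1 => by
      rw [e]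
      refine ⟨fun a ha => ⟨h1.le x ⟨hx, hS⟩ ha, (h.out_GTwo h1 ⟨hx, hS⟩ ha).2.1⟩,
        fun a ha b hb hab => ?_⟩
      have k := h.sided.subset x hS hb.1
      exact clo_GTwo h1.sided hx ha k.1 hab fun c => c.elim hb.2 fun c => k.2 (hP.subset c).1
    exact parts_GTwo p1 p2 (k1 hP h1).1 (k1 hQ h2).1 (h.con_GTwo hP h1.sided hx).1
      (h.con_GTwo hQ h2.sided hx).1 (k0 x hx) (k1 hP h1).2 (k1 hQ h2).2 (e.superset ⟨hτ hS, hy.2⟩)
  · rcases h.alt_GTwo hP hQ h1.sided h2.sided ⟨hx, hS⟩ with e | e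
    · obtain ⟨a, ha⟩ := (h.con_GTwo hP h1.sided hx).1
      exact absurd (e.superset ha) (Set.disjoint_left.1 (k0 x hx) ha)
    · exact or_iff_not_imp_left.2 fun c =>
        e.superset ⟨hy.1, fun c' => c'.elim (fun c' => hy.2 c'.1) c⟩

theorem Att.nonsep (h : Att G A S E τ) (hA : Cl G 3 A) (hP : Split G 2 S (E ∩ S) P)
    (hP' : P' = S \ (E ∩ S ∪ P)) (hc : Con G (A \ S)) :
    Con G (A \ (E ∪ P)) ∨ Con G (A \ (E ∪ P')) := by
  have hQ : Split G 2 S (E ∩ S) P' := hP' ▸ hP.symm Set.inter_subset_right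
  obtain ⟨σ, h1⟩ := h.sect hP
  obtain ⟨σ', h2⟩ := h.sect hQ
  obtain ⟨k1, k2⟩ := h.two_sides hP hP' h1 h2
  by_contra k
  obtain ⟨n1, n2⟩ := not_or.1 k
  obtain ⟨U, u1, -, -, u2⟩ := split_of_not_con hA (h.sub_GTwo hP)
    (disc_union_sph h.sph h.ball h.ne hP).1 h1.sided n1
  obtain ⟨U', v1, -, -, v2⟩ := split_of_not_con hA (h.sub_GTwo hQ)
    (disc_union_sph h.sph h.ball h.ne hQ).1 h2.sided n2
  have m1 : ∀ x ∈ E, ∀ y ∈ Lk G A {x}, (y ∈ U ↔ y ∈ σ x) ∧ (y ∈ U' ↔ y ∈ σ' x) :=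
    fun x hx y hy => by
      rw [← u2 x (Or.inl hx), ← v2 x (Or.inl hx)]
      exact ⟨(and_iff_left hy).symm, (and_iff_left hy).symm⟩
  have m2 : ∀ {P U}, Split G 2 S (E ∩ S) P → Split G 3 A (E ∪ P) U → ∀ a ∈ A \ S, ∀ b ∈ A \ S,
      G.Adj a b → a ∉ E → b ∉ E → (a ∈ U ↔ b ∈ U) := fun hP u a ha b hb hab e1 e2 =>
    ⟨fun c => (split_nbr_H4 u c hb.1 hab).resolve_left fun c' =>
        c'.elim e2 fun c' => hb.2 (hP.subset c').1,
      fun c => (split_nbr_H4 u c ha.1 hab.symm).resolve_left fun c' =>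
        c'.elim e1 fun c' => ha.2 (hP.subset c').1⟩
  obtain ⟨a, ha⟩ := h.ball.interior
  have m3 : A \ S ⊆ {y | y ∈ A \ S ∧ (y ∈ E ∨ ¬ (y ∈ U ↔ y ∈ U'))} := by
    refine spread_GTwo hc.2 (fun a ha b hb hab => ⟨hb, or_iff_not_imp_left.2 fun e => ?_⟩)
      ⟨h.subE ha.1, ha.2⟩ ⟨⟨h.subE ha.1, ha.2⟩, Or.inl ha.1⟩
    by_cases e' : a ∈ E
    · have c := mem_lk_H3.2 ⟨hb.1, hab⟩
      rw [(m1 a e' b c).1, (m1 a e' b c).2]
      have c1 := k2 a e' b ⟨c, e⟩ fun c' => absurd c' ha.1.2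
      have c2 : b ∈ σ a → b ∉ σ' a := fun c' => Set.disjoint_left.1 (k1 a e') c'
      tauto
    · rw [← m2 hP u1 a ha.1 b hb hab e' e, ← m2 hQ v1 a ha.1 b hb hab e' e]
      exact ha.2.resolve_left e'
  obtain ⟨x, hx⟩ := Cell.nonempty (Ball.bd h.ball le_rfl)
  obtain ⟨w, hw, hw'⟩ := (side_con (h.mfa_GTwo h.subS) h.subS h.sph.mf (h.sided.symm h.subS)
    hx.2).1.1
  obtain ⟨c1, c2⟩ := not_or.1 hw'
  rcases (m3 ⟨hw.1, c1⟩).2 with e | e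
  · exact c2 (h.side x hx w ⟨e, c1⟩ (mem_lk_H3.1 hw).2)
  · rw [(m1 x hx.1 w hw).1, (m1 x hx.1 w hw).2] at e
    exact e (iff_of_false (fun c => c2 (h1.le x hx c)) fun c => c2 (h2.le x hx c))

end Pool.Agent.MP_6374aa_g

end

section

/-! The two sides of the boundary of a punctured piece, the outer normal form. -/

namespace Pool.Agent.MP_6374aa_g

open Pool.Agent.MP_6374aa_gt Classical

variable {X P : Cx} {Z T : Set X.V}

theorem PM.lk_int (hX : Cl X.G 3 X.A) (h : PM X Z T) {x : X.V} (hx : x ∈ Z \ T) :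
    Lk X.G X.A {x} = Lk X.G Z {x} := by
  exact (Cell.subeq (h.mf.sph_lk hx.1 hx.2)
    (hX.2.2.sph_lk (h.sub hx.1) (Set.notMem_empty x)) (lk_mono_C1 h.sub _)).symm

theorem PM.adj_int (hX : Cl X.G 3 X.A) (h : PM X Z T) {x y : X.V} (hx : x ∈ Z \ T) (hy : y ∈ X.A)
    (ha : X.G.Adj x y) : y ∈ Z := by
  have h1 : y ∈ Lk X.G X.A {x} := mem_lk_C1.2 ⟨hy, ha⟩
  rw [h.lk_int hX hx] at h1
  exact h1.1

/-- A boundary triangle has a neighbour inside and a neighbour outside. -/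
theorem tri_GSides (hX : Cl X.G 3 X.A) (h : PM X Z T) {s : Finset X.V} (hs : Clq X.G (Z ∩ T) s)
    (h3 : s.card = 3) : (∃ a ∈ Lk X.G Z s, a ∉ T) ∧ ∃ b ∈ Lk X.G X.A s, b ∉ Z := by
  obtain ⟨x, hx⟩ : s.Nonempty := Finset.card_pos.1 (by omega)
  have h1 : Clq X.G Z s := ⟨hs.1.trans Set.inter_subset_left, hs.2⟩
  have h2 : Clq X.G X.A s := ⟨h1.1.trans h.sub, hs.2⟩
  have h4 := (Mfa.link h.mf h1 ⟨x, hx, h1.1 hx⟩).2
  have h5 := (Mfa.link (mf_empty_iff.1 hX.2.2) h2 ⟨x, hx, h2.1 hx⟩).2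
  rw [h3] at h4 h5
  have h6 : Ball X.G 1 (Lk X.G Z s) T := h4.congr fun t _ => by
    simp only [sub, Finset.coe_union, Set.union_subset_iff]
    exact and_iff_right (hs.1.trans Set.inter_subset_right)
  obtain ⟨a, ha, haT⟩ := ball_one.1 h6
  obtain ⟨b, hb, hba⟩ := Set.exists_ne_of_one_lt_ncard (s := Lk X.G X.A s)
    (by rw [(sph_one.1 h5).1]; omega) a
  refine ⟨⟨a, ha ▸ rfl, haT⟩, b, hb, fun hZ => hba ?_⟩
  have h7 : b ∈ Lk X.G Z s := ⟨hZ, hb.2⟩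
  rwa [ha] at h7

theorem PM.sided_out (hX : Cl X.G 3 X.A) (h : PM X Z T) {S : Set X.V} (hS : S ∈ bcs X.G Z T) :
    Sided X.G 3 X.A S (outS X.G X.A Z) := by
  obtain ⟨h1, -, h2⟩ := h.bcs_sph hS
  refine ⟨fun x _ a ha => ⟨ha.1, fun e => ha.2 (h1 e).1⟩, fun x hx a ha b hb hab => ?_,
    fun x _ y _ _ a ha => ?_, fun s hs h3 x hx => ?_⟩
  · have h3 : b ∈ Z := by
      by_contra h3
      exact hb.2 (Or.inr ⟨hb.1, h3⟩)
    exact ha.2 (h.adj_int hX ⟨h3, fun h4 => hb.2 (Or.inl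
      (h2.2 x hx b ⟨h3, h4⟩ (mem_lk_C1.1 hb.1).2))⟩ ha.1.1 hab.symm)
  · exact ⟨fun e => ⟨mem_lk_C1.2 ⟨ha.1, ha.2 y (by simp)⟩, e.2⟩,
      fun e => ⟨mem_lk_C1.2 ⟨ha.1, ha.2 x (by simp)⟩, e.2⟩⟩
  · obtain ⟨⟨a, ha, haT⟩, b, hb, hbZ⟩ := tri_GSides hX h ⟨hs.1.trans h1, hs.2⟩ h3
    exact ⟨⟨b, hb, mem_lk_C1.2 ⟨hb.1, hb.2 x hx⟩, hbZ⟩,
      a, ⟨h.sub ha.1, ha.2⟩, fun e => e.elim (fun e => haT (h1 e).2) fun e => e.2 ha.1⟩

theorem PM.sided_in (hX : Cl X.G 3 X.A) (h : PM X Z T) {S : Set X.V} (hS : S ∈ bcs X.G Z T) :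
    Sided X.G 3 X.A S (inS X.G Z T) := by
  obtain ⟨h1, -, h2⟩ := h.bcs_sph hS
  refine ⟨fun x _ a ha => ⟨lk_mono_C1 h.sub _ ha.1, fun e => ha.2 (h1 e).2⟩,
    fun x hx a ha b hb hab => ?_, fun x _ y _ _ a ha => ?_, fun s hs h3 x hx => ?_⟩
  · have h3 : b ∈ Z := h.adj_int hX ⟨ha.1.1, ha.2⟩ hb.1.1 hab
    exact hb.2 (Or.inr ⟨⟨h3, hb.1.2⟩, fun h4 => hb.2 (Or.inl
      (h2.2 x hx b ⟨h3, h4⟩ (mem_lk_C1.1 hb.1).2))⟩)
  · exact ⟨fun e => ⟨mem_lk_C1.2 ⟨e.1.1, ha.2 y (by simp)⟩, e.2⟩,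
      fun e => ⟨mem_lk_C1.2 ⟨e.1.1, ha.2 x (by simp)⟩, e.2⟩⟩
  · obtain ⟨⟨a, ha, haT⟩, b, hb, hbZ⟩ := tri_GSides hX h ⟨hs.1.trans h1, hs.2⟩ h3
    exact ⟨⟨a, ⟨h.sub ha.1, ha.2⟩, mem_lk_C1.2 ⟨ha.1, ha.2 x hx⟩, haT⟩,
      b, hb, fun e => e.elim (fun e => hbZ (h1 e).1) fun e => hbZ e.1.1⟩

theorem PM.free_out (hX : Cl X.G 3 X.A) (h : PM X Z T) :
    Free X.G X.A Z (bcs X.G Z T) id fun _ => outS X.G X.A Z := by
  refine ⟨fun S hS => ⟨(h.bcs_sph hS).1.trans Set.inter_subset_left, (h.bcs_sph hS).2.1,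
    h.sided_out hX hS, fun x _ => Set.disjoint_sdiff_left⟩, fun x hx y hy hxy => ?_⟩
  have h1 : x ∈ Z ∩ T := ⟨hx, by
    by_contra h1
    exact hy.2 (h.adj_int hX ⟨hx, h1⟩ hy.1 hxy)⟩
  refine ⟨cmp X.G (Z ∩ T) x, ⟨⟨x, h1, rfl⟩, mem_cmp_self h1, mem_lk_C1.2 ⟨hy.1, hxy⟩, hy.2⟩, ?_⟩
  rintro _ ⟨⟨a, -, rfl⟩, h2, -⟩
  exact (cmp_eq_of_mem h2).symm

theorem PM.int_con (hX : Cl X.G 3 X.A) (h : PM X Z T) : Con X.G (Z \ T) := by
  exact (Mfa.rem_bd h.mf le_rfl (hX.1.subset (Set.inter_subset_left.trans h.sub))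
    fun s hs => hs.2.1.trans Set.inter_subset_right).con.2 h.con

/-- The outside of a piece with connected boundary. -/
theorem PM.outside (hX : Cl X.G 3 X.A) (h : PM X Z T) (hc : Con X.G (Z ∩ T)) :
    PM X ((X.A \ Z) ∪ (Z ∩ T)) (Z ∩ T) := by
  have h1 : Z ∩ T ⊆ X.A := Set.inter_subset_left.trans h.sub
  have h2 : Split X.G 3 X.A (Z ∩ T) (X.A \ Z) := by
    refine ⟨fun a ha => ⟨ha.1, fun e => ha.2 e.1⟩, fun a ha b hb hab => ?_, fun s hs h3 => ?_⟩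
    · have h3 : b ∈ Z := by
        by_contra h3
        exact hb.2 (Or.inr ⟨hb.1, h3⟩)
      exact ha.2 (h.adj_int hX ⟨h3, fun h4 => hb.2 (Or.inl ⟨h3, h4⟩)⟩ ha.1 hab.symm)
    · obtain ⟨⟨a, ha, haT⟩, b, hb, hbZ⟩ := tri_GSides hX h hs h3
      exact ⟨⟨b, hb, hb.1, hbZ⟩,
        a, ⟨h.sub ha.1, ha.2⟩, fun e => e.elim (fun e => haT e.2) fun e => e.2 ha.1⟩
  obtain ⟨h3, h4⟩ := Mfa.side (d := 2) (mf_empty_iff.1 hX.2.2)
    (mf_empty_iff.1 (Mf.bd (d := 2) h.mf le_rfl)) le_rfl h1 h2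
  rw [Set.union_comm]
  refine ⟨Set.union_subset h1 Set.sdiff_subset, (h4 hX.2.1.2 hc).2,
    h3.congr subset_rfl fun s _ => or_iff_left not_false, ?_⟩
  rw [Set.inter_eq_right.2 Set.subset_union_left]
  exact h.sph

theorem PD.core (hX : Cl X.G 3 X.A) (h : PD X P Z T) : Core X P Z := by
  have hf : Z.Finite := hX.1.subset h.pm.sub
  have h1 := core_fill (P := capC X Z T) hX h.pm.sub h.pm.con (h.pm.free_out hX)
    (IsIso.hm (cap_iso id Z) hf) (fun S hS => ⟨cn_bp_Cap h.pm hS,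
      cn_inter_Cap hf ((h.pm.bcs_sph hS).1.trans Set.inter_subset_left)⟩)
    (fun S hS S' _ hne => cn_dis_Cap hS hne) (cap_dec X Z T).symm
  exact ⟨h1.1, h1.2.homeo' h.homeo⟩

theorem PD.amb {V : Type} {G : SimpleGraph V} {A A' Z T : Set V} (h : PD ⟨V, G, A⟩ P Z T)
    (hZ : Z ⊆ A') : PD ⟨V, G, A'⟩ P Z T := by
  exact ⟨⟨hZ, h.pm.con, h.pm.mf, h.pm.sph⟩, h.homeo⟩

theorem PunctE.iso {Y : Cx} {f : X.V → Y.V} (h : IsIso X.G X.A Y.G Y.A f) (hf : Cl X.G 3 X.A)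
    (hY : PunctE Y P) : PunctE X P := by
  obtain ⟨k, hk⟩ := hY
  obtain ⟨Z, T, h1⟩ := punct_iff.1 hk
  obtain ⟨g, hg⟩ := iso_iter h k
  have h2 : Z.Finite := ((cl_iter hf k).1.image g).subset (h1.pm.sub.trans hg.1.surjOn)
  have h3 := IsIso.restrict' hg Z
  rw [Set.inter_eq_right.2 h1.pm.sub] at h3
  exact ⟨k, punct_iff.2 ⟨_, g ⁻¹' T, h1.iso h2 h3 (fun _ _ => Iff.rfl) Set.inter_subset_left⟩⟩

end Pool.Agent.MP_6374aa_g

end

section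

/-! Adding a 2-handle along an outer disc. -/

namespace Pool.Agent.MP_6374aa_g

open Pool.Agent.MP_6374aa_gt Classical

/-- The two sides of the curve in the sphere and the two sectors. -/
theorem sides_GOut {V : Type} {G : SimpleGraph V} {A S E : Set V} {τ : V → Set V}
    (h : Att G A S E τ) : ∃ (P : Bool → Set V) (σ : Bool → V → Set V),
      (∀ b, Split G 2 S (E ∩ S) (P b)) ∧ (∀ b, Sect G A S E (P b) τ (σ b)) ∧
      (∀ x ∈ S, x ∉ E → ∃ b, x ∈ P b) ∧ (∀ b b', b ≠ b' → ∀ x ∈ P b, x ∉ P b') ∧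
      (∀ b b', b ≠ b' → ∀ x ∈ E, ∀ y ∈ σ b x, y ∉ σ b' x) ∧
      ∀ x ∈ E, ∀ y ∈ Lk G A {x} \ E, (x ∈ S → y ∈ τ x) → ∃ b, y ∈ σ b x := by
  obtain ⟨P, hP⟩ := Cell.exists_split h.sph (h.ball.bd le_rfl) le_rfl Set.inter_subset_right
  have hP' := hP.symm Set.inter_subset_right
  obtain ⟨σ, hσ⟩ := h.sect hP
  obtain ⟨σ', hσ'⟩ := h.sect hP'
  obtain ⟨h1, h2⟩ := h.two_sides hP rfl hσ hσ'
  refine ⟨fun b => cond b P (S \ (E ∩ S ∪ P)), fun b => cond b σ σ', ?_, ?_, fun x hx hE => ?_,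
    ?_, ?_, fun x hx y hy k => ?_⟩
  · rintro (_ | _)
    exacts [hP', hP]
  · rintro (_ | _)
    exacts [hσ', hσ]
  · by_cases k : x ∈ P
    · exact ⟨true, k⟩
    · exact ⟨false, hx, fun c => c.elim (fun c => hE c.1) k⟩
  · rintro (_ | _) (_ | _) k x h3 h4
    exacts [k rfl, h3.2 (Or.inr h4), h4.2 (Or.inr h3), k rfl]
  · rintro (_ | _) (_ | _) k x hx y h3 h4
    exacts [k rfl, Set.disjoint_left.1 (h1 x hx) h4 h3, Set.disjoint_left.1 (h1 x hx) h3 h4, k rfl]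
  · exact (h2 x hx y hy k).elim (fun c => ⟨true, c⟩) fun c => ⟨false, c⟩

/-- The index set of the new boundary spheres. -/
def ix_GOut {V : Type} (J : Set (Set V)) (S : Set V) : Set (Set V ⊕ Bool) :=
  {i | Sum.elim (fun S' => S' ∈ J ∧ S' ≠ S) (fun _ => True) i}

theorem eq_GOut {V : Type} {G : SimpleGraph V} {Z T S S' : Set V} (hS : S ∈ bcs G Z T)
    (hS' : S' ∈ bcs G Z T) {x : V} (h : x ∈ S) (h' : x ∈ S') : S = S' :=
  by_contra fun e => bcs_far hS hS' e x h x h' (adq_refl x)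

theorem free_GOut {X : Cx} {Z T E S : Set X.V} (hX : Cl X.G 3 X.A) (pm : PM X Z T)
    (hS : S ∈ bcs X.G Z T) (hc : E ∩ Z ⊆ S) (hne : NE X.G E Z)
    (h : Att X.G X.A S E (outS X.G X.A Z)) {P : Bool → Set X.V} {σ : Bool → X.V → Set X.V}
    (h1 : ∀ b, Split X.G 2 S (E ∩ S) (P b)) (h2 : ∀ b, Sect X.G X.A S E (P b) (outS X.G X.A Z) (σ b))
    (h3 : ∀ x ∈ S, x ∉ E → ∃ b, x ∈ P b) (h4 : ∀ b b', b ≠ b' → ∀ x ∈ P b, x ∉ P b')
    (h5 : ∀ b b', b ≠ b' → ∀ x ∈ E, ∀ y ∈ σ b x, y ∉ σ b' x)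
    (h6 : ∀ x ∈ E, ∀ y ∈ Lk X.G X.A {x} \ E, (x ∈ S → y ∈ outS X.G X.A Z x) → ∃ b, y ∈ σ b x) :
    Free X.G X.A (Z ∪ E) (ix_GOut (bcs X.G Z T) S) (Sum.elim id fun b => E ∪ P b)
      (Sum.elim (fun _ => outS X.G X.A Z) σ) := by
  have hZ : ∀ {S'}, S' ∈ bcs X.G Z T → S' ⊆ Z := fun k =>
    (pm.bcs_sph k).1.trans Set.inter_subset_left
  have hPS : ∀ b, P b ⊆ S := fun b x hx => ((h1 b).subset hx).1
  have key : ∀ S' ∈ bcs X.G Z T, ∀ b, ∀ x ∈ S', x ∈ E ∪ P b → S' = S := fun S' k b x hx c =>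
    eq_GOut k hS hx (c.elim (fun c => hc ⟨c, hZ k hx⟩) fun c => hPS b c)
  constructor
  · rintro (S' | b) hi
    · refine ⟨(hZ hi.1).trans Set.subset_union_left, (pm.bcs_sph hi.1).2.1, pm.sided_out hX hi.1,
        fun x hx => Set.disjoint_left.2 fun y hy c => c.elim hy.2 fun c => ?_⟩
      exact hne y ⟨c, hy.2⟩ x ⟨hZ hi.1 hx, fun e => hi.2 (key S' hi.1 true x hx (Or.inl e))⟩
        (hy.1.2 x rfl).symm
    · refine ⟨Set.union_subset Set.subset_union_right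
        (((hPS b).trans (hZ hS)).trans Set.subset_union_left),
        (disc_union_sph h.sph h.ball h.ne (h1 b)).1, (h2 b).sided,
        fun x hx => Set.disjoint_left.2 fun y hy c => ?_⟩
      have k := (h2 b).sided.subset x hx hy
      have hy : y ∈ σ b x := hy
      have hyZ : y ∈ Z := c.resolve_right fun c => k.2 (Or.inl c)
      rcases hx with hx | hx
      · by_cases e : x ∈ Z
        · exact ((h2 b).le x ⟨hx, hc ⟨hx, e⟩⟩ hy).2 hyZ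
        · exact hne x ⟨hx, e⟩ y ⟨hyZ, fun c => k.2 (Or.inl c)⟩ (k.1.2 x rfl)
      · exact ((h2 b).eq x hx ▸ hy : y ∈ outS X.G X.A Z x).2 hyZ
  · intro x hx y hy hxy
    have hl : y ∈ Lk X.G X.A {x} := mem_lk_H3.2 ⟨hy.1, hxy⟩
    have ho : y ∈ outS X.G X.A Z x := ⟨hl, fun c => hy.2 (Or.inl c)⟩
    refine existsUnique_of_exists_of_unique ?_ ?_
    · by_cases e : x ∈ E
      · obtain ⟨b, hb⟩ := h6 x e y ⟨hl, fun c => hy.2 (Or.inr c)⟩ fun _ => ho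
        exact ⟨Sum.inr b, trivial, Or.inl e, hb⟩
      have hxZ : x ∈ Z := hx.resolve_right e
      have hxT : x ∈ T := by_contra fun c => ho.2 (pm.adj_int hX ⟨hxZ, c⟩ hy.1 hxy)
      have hm : x ∈ cmp X.G (Z ∩ T) x := mem_cmp_self ⟨hxZ, hxT⟩
      by_cases e' : cmp X.G (Z ∩ T) x = S
      · obtain ⟨b, hb⟩ := h3 x (e' ▸ hm) e
        exact ⟨Sum.inr b, trivial, Or.inr hb, show y ∈ σ b x from ((h2 b).eq x hb).symm ▸ ho⟩
      · exact ⟨Sum.inl _, ⟨⟨x, ⟨hxZ, hxT⟩, rfl⟩, e'⟩, hm, ho⟩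
    · rintro (S1 | b) (S2 | b') ⟨a1, a2, a3⟩ ⟨c1, c2, c3⟩
      · exact congrArg _ (eq_GOut a1.1 c1.1 a2 c2)
      · exact absurd (key S1 a1.1 b' x a2 c2) a1.2
      · exact absurd (key S2 c1.1 b x c2 a2) c1.2
      · refine congrArg _ (by_contra fun e => ?_)
        by_cases k : x ∈ E
        · exact h5 b b' e x k y a3 c3
        · exact h4 b b' e x (a2.resolve_left k) (c2.resolve_left k)

theorem mem_cn_GOut {X : Cx} {S d : Set X.V} {u : X.V} : Sum.inl u ∈ cn S d ↔ u ∈ d := by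
  simp [cn]

theorem cn_mono_GOut {X : Cx} (S : Set X.V) {d d' : Set X.V} (h : d ⊆ d') : cn S d ⊆ cn S d' :=
  Set.insert_subset_insert (Set.image_mono h)

theorem cn_set_GOut {X : Cx} (S : Set X.V) {d Z : Set X.V} (h : d ⊆ Z) :
    cn S d ∩ Sum.inl '' Z = Sum.inl '' d := by
  refine Set.Subset.antisymm ?_ (Set.subset_inter (Set.subset_insert _ _) (Set.image_mono h))
  rintro _ ⟨h1, a, -, rfl⟩
  exact ⟨a, mem_cn_GOut.1 h1, rfl⟩

theorem surg_out {X P : Cx} {Z T E : Set X.V} (hX : Cl X.G 3 X.A) (h : PD X P Z T) (hE : E ⊆ X.A)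
    (hb : Ball X.G 3 E Z) (hT : E ∩ Z ⊆ T) (hne : NE X.G E Z) : Core X P (Z ∪ E) := by
  have pm := h.pm
  have hf : Z.Finite := hX.1.subset pm.sub
  have hcs : Sph X.G 2 (E ∩ Z) := hb.bd le_rfl
  obtain ⟨a, ha⟩ := Cell.nonempty hcs
  have hS : cmp X.G (Z ∩ T) a ∈ bcs X.G Z T := ⟨a, ⟨ha.2, hT ha⟩, rfl⟩
  have hc : E ∩ Z ⊆ cmp X.G (Z ∩ T) a := (Cell.con hcs).2.subset_cmp (A := Z ∩ T)
    (fun x hx => ⟨hx.2, hT hx⟩) ha (mem_cmp_self ⟨ha.2, hT ha⟩)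
  generalize cmp X.G (Z ∩ T) a = S at hS hc
  have hZ : ∀ {S'}, S' ∈ bcs X.G Z T → S' ⊆ Z := fun k =>
    (pm.bcs_sph k).1.trans Set.inter_subset_left
  have ec : E ∩ Z = E ∩ S :=
    Set.Subset.antisymm (fun x hx => ⟨hx.1, hc hx⟩) fun x hx => ⟨hx.1, hZ hS hx.2⟩
  have att : Att X.G X.A S E (outS X.G X.A Z) :=
    ⟨hX.2.2, (hZ hS).trans pm.sub, hE, (pm.bcs_sph hS).2.1,
      ball_congr_C5 hb fun x hx => ⟨fun k => hc ⟨hx, k⟩, fun k => hZ hS k⟩,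
      fun x hx y hy => hne x ⟨hx.1, fun k => hx.2 (hc ⟨hx.1, k⟩)⟩ y ⟨hZ hS hy.1, hy.2⟩,
      pm.sided_out hX hS,
      fun x _ y hy k => ⟨mem_lk_H3.2 ⟨hE hy.1, k⟩, fun c => hy.2 (hc ⟨hy.1, c⟩)⟩⟩
  obtain ⟨Q, σ, h1, h2, h3, h4, h5, h6⟩ := sides_GOut att
  have fre := free_GOut hX pm hS hc hne att h1 h2 h3 h4 h5 h6
  rw [ec] at hcs
  have hQS : ∀ b, E ∩ S ∪ Q b ⊆ S := fun b =>
    Set.union_subset Set.inter_subset_right fun x hx => ((h1 b).subset hx).1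
  have hcZ : E ∩ S ⊆ Z := fun x hx => hZ hS hx.2
  let K := capG X.G (id : Set X.V → Set X.V)
  let e : X.V → X.V ⊕ Set X.V := Sum.inl
  have hp : ∀ D ⊆ Z, pf e '' Rz X.G D = Rz K (e '' D) := fun D hD =>
    IsIso.pf_image (cap_iso id Z) hf hD
  obtain ⟨f2, hf2, ef2⟩ := BP.ext (g := pf e) (hb.bp le_rfl)
    (cn_bp_two hcs Set.inter_subset_right) (by
      rw [rz_inter, rz_inter, ec, cn_set_GOut S subset_rfl]
      exact IsIso.hm (cap_iso id _) (hf.subset hcZ))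
  obtain ⟨f, hm, e1, e2⟩ := HM.glue (IsIso.hm (cap_iso (G := X.G) id Z) hf) hf2 (rz_compact hf)
    (rz_compact (Cell.finite hb)) (by rw [Set.inter_comm]; exact ef2.symm) (by
      rw [rz_inter, rz_inter, Set.inter_comm, cn_set_GOut S hcZ, Set.inter_comm Z, ec, hp _ hcZ])
  rw [← rz_union hne.symm] at hm
  have hq : ∀ D ⊆ Z, f '' Rz X.G D = Rz K (e '' D) := fun D hD =>
    ((e1.mono (rz_mono hD)).image_eq).trans (hp D hD)
  have core := core_fill (P := capC X Z T) hX (Set.union_subset pm.sub hE)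
    (con_union_C5 pm.con.2 (Cell.con hb).2 ⟨a, ha.2, ha.1⟩) fre
    (B := Sum.elim (fun S' => Rz K (cn S' S')) fun b => Rz K (cn S (E ∩ S ∪ Q b))) hm ?_ ?_ ?_
  · exact ⟨core.1, core.2.homeo' h.homeo⟩
  · rintro (S' | b) hi
    · have k : Rz K (cn S' S') ∩ (Rz K (e '' Z) ∪ Rz K (cn S (E ∩ S))) = Rz K (e '' S') := by
        rw [Set.inter_union_distrib_left, rz_inter, rz_inter, cn_set_GOut S' (hZ hi.1)]
        refine Set.union_eq_left.2 (rz_mono ?_)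
        rintro _ ⟨rfl | k, c⟩
        · exact absurd (by simpa [cn] using c) hi.2
        · exact k
      refine ⟨(cn_bp (pm.bcs_sph hi.1).2.1).congr ?_, k.trans (hq S' (hZ hi.1)).symm⟩
      rw [rz_inter, cn_set_GOut S' subset_rfl]
      exact k.symm
    · have hd : E ∩ S ∪ Q b ⊆ Z := (hQS b).trans (hZ hS)
      have k : Rz K (cn S (E ∩ S ∪ Q b)) ∩ (Rz K (e '' Z) ∪ Rz K (cn S (E ∩ S))) =
          Rz K (e '' (E ∩ S ∪ Q b)) ∪ Rz K (cn S (E ∩ S)) := by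
        rw [Set.inter_union_distrib_left, rz_inter, rz_inter, cn_set_GOut S hd,
          Set.inter_eq_right.2 (cn_mono_GOut S Set.subset_union_left)]
      have k1 := cn_bp_disc (disc_union_sph att.sph att.ball att.ne (h1 b)).2.1 (hQS b)
      rw [Set.inter_eq_right.2 Set.subset_union_left] at k1
      refine ⟨k1.congr ?_, k.trans ?_⟩
      · refine Eq.trans (Set.inter_eq_right.2 ?_) k.symm
        rw [← k]
        exact Set.inter_subset_left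
      · have e3 : E ∪ Q b = (E ∩ S ∪ Q b) ∪ E := by
          rw [Set.union_right_comm, Set.union_eq_right.2 Set.inter_subset_left]
        change _ = f '' Rz X.G (E ∪ Q b)
        rw [e3, rz_union fun x hx y hy => hne.symm x ⟨hd hx.1, hx.2⟩ y
          ⟨hy.1, fun c => hy.2 (Or.inl ⟨hy.1, hc ⟨hy.1, c⟩⟩)⟩, Set.image_union f, hq _ hd,
          e2.image_eq, hf2.image]
  · have k : ∀ S' ∈ bcs X.G Z T, S' ≠ S → ∀ b, Rz K (cn S' S') ∩ Rz K (cn S (E ∩ S ∪ Q b)) ⊆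
        Rz K (e '' Z) ∪ Rz K (cn S (E ∩ S)) := fun S' k1 k2 b =>
      ((Set.inter_subset_inter_right _ (rz_mono (cn_mono_GOut S (hQS b)))).trans
        (cn_dis_Cap k1 k2)).trans Set.subset_union_left
    rintro (S1 | b) hi (S2 | b') hj hij
    · exact (cn_dis_Cap hi.1 fun c => hij (congrArg _ c)).trans Set.subset_union_left
    · exact k S1 hi.1 hi.2 b'
    · exact (Set.inter_comm _ _).subset.trans (k S2 hj.1 hj.2 b)
    · refine Set.Subset.trans ((rz_inter _ _).subset.trans (rz_mono ?_)) Set.subset_union_right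
      rintro _ ⟨rfl | ⟨u, hu, rfl⟩, c⟩
      · exact Or.inl rfl
      · refine mem_cn_GOut.2 (by_contra fun c' => ?_)
        exact h4 b b' (fun c => hij (congrArg _ c)) u (hu.resolve_left c')
          ((mem_cn_GOut.1 c).resolve_left c')
  · rw [cap_dec]
    have hs : ∀ d ⊆ S, Rz K (cn S d) ⊆ ⋃ S ∈ bcs X.G Z T, Rz K (cn S S) := fun d hd =>
      (rz_mono (cn_mono_GOut S hd)).trans (Set.subset_biUnion_of_mem (u := fun S => Rz K (cn S S)) hS)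
    refine Set.Subset.antisymm (Set.union_subset (Set.union_subset_union_right _
      (hs _ Set.inter_subset_right)) (Set.iUnion₂_subset ?_)) (Set.union_subset
        (Set.subset_union_left.trans Set.subset_union_left) (Set.iUnion₂_subset fun S' k => ?_))
    · rintro (S' | b) hi
      · exact (Set.subset_biUnion_of_mem (u := fun S => Rz K (cn S S)) hi.1).trans
          Set.subset_union_right
      · exact (hs _ (hQS b)).trans Set.subset_union_right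
    · refine Set.Subset.trans ?_ Set.subset_union_right
      by_cases e' : S' = S
      swap
      · exact fun x hx => Set.mem_iUnion₂.2 ⟨Sum.inl S', ⟨k, e'⟩, hx⟩
      have e4 : cn S S ⊆ cn S (E ∩ S ∪ Q true) ∪ cn S (E ∩ S ∪ Q false) := by
        rintro _ (rfl | ⟨u, hu, rfl⟩)
        · exact Or.inl (Or.inl rfl)
        by_cases c : u ∈ E
        · exact Or.inl (mem_cn_GOut.2 (Or.inl ⟨c, hu⟩))
        obtain ⟨_ | _, c'⟩ := h3 u hu c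
        · exact Or.inr (mem_cn_GOut.2 (Or.inr c'))
        · exact Or.inl (mem_cn_GOut.2 (Or.inr c'))
      have e5 : NE K (cn S (E ∩ S ∪ Q true)) (cn S (E ∩ S ∪ Q false)) := by
        rintro _ ⟨rfl | ⟨u, hu, rfl⟩, c⟩ _ ⟨rfl | ⟨w, hw, rfl⟩, c'⟩
        · exact (c (Or.inl rfl)).elim
        · exact (c (Or.inl rfl)).elim
        · exact (c' (Or.inl rfl)).elim
        · exact (h1 true).sep u (hu.resolve_left fun k => c (mem_cn_GOut.2 (Or.inl k))) w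
            ⟨hQS false hw, fun k => c' (mem_cn_GOut.2 k)⟩
      rw [e']
      refine (rz_mono e4).trans ((rz_union e5).subset.trans (Set.union_subset ?_ ?_))
      · exact fun x hx => Set.mem_iUnion₂.2 ⟨Sum.inr true, trivial, hx⟩
      · exact fun x hx => Set.mem_iUnion₂.2 ⟨Sum.inr false, trivial, hx⟩

end Pool.Agent.MP_6374aa_g

end

section

/-! Cutting along an inner disc. -/

namespace Pool.Agent.MP_6374aa_g

open Pool.Agent.MP_6374aa_gt Classical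

variable {X P : Cx} {Z T E : Set X.V}

theorem cap_sphere (h : PM X Z T) (hE : E ⊆ Z) (hb : Ball X.G 3 E T) {S : Set X.V}
    (hS : S ∈ bcs X.G Z T) (hc : E ∩ T ⊆ S) :
    Sph (capC X Z T).G 3 (cn S E) ∧ cn S E ⊆ (capC X Z T).A := by
  refine ⟨cap_cone_C5 (S := id) (i := S) hb le_rfl fun a ha =>
    ⟨fun k => ((h.bcs_sph hS).1 k).2, fun k => hc ⟨ha, k⟩⟩, ?_⟩
  rintro _ (rfl | ⟨a, ha, rfl⟩)
  · exact Or.inr ⟨S, hS, rfl⟩
  · exact Or.inl ⟨a, hE ha, rfl⟩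

theorem pre_diff_GIn1 (h : PM X Z T) {S : Set X.V} (hS : S ∈ bcs X.G Z T) (hc : E ∩ T ⊆ S)
    (hn : Pre (capC X Z T).G ((capC X Z T).A \ cn S E)) : Pre X.G (Z \ E) := by
  have k1 : ∀ a, Sum.inl a ∈ (capC X Z T).A \ cn S E ↔ a ∈ Z \ E := fun a => by
    refine and_congr ⟨?_, fun k => Or.inl ⟨a, k, rfl⟩⟩
      (not_congr ⟨?_, fun k => Or.inr ⟨a, k, rfl⟩⟩)
    · rintro (⟨b, hb, e⟩ | ⟨R, -, e⟩) <;> cases e
      exact hb
    · rintro (e | ⟨b, hb, e⟩) <;> cases e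
      exact hb
  have k2 : ∀ R, Sum.inr R ∈ (capC X Z T).A \ cn S E → R ⊆ Z \ E ∧ Con X.G R := by
    rintro R ⟨⟨a, -, e⟩ | ⟨R', hR, e⟩, h2⟩
    · cases e
    · obtain rfl := Sum.inr_injective e
      obtain ⟨b1, b2, -⟩ := h.bcs_sph hR
      refine ⟨fun a ha => ⟨(b1 ha).1, fun k => ?_⟩, Cell.con b2⟩
      exact bcs_far hR hS (fun e => h2 (Or.inl (congrArg _ e))) a ha a (hc ⟨k, (b1 ha).2⟩)
        (adq_refl a)
  refine pre_of_fibres hn (Sum.elim (fun a => {a}) id) ?_ ?_ fun y hy =>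
    ⟨Sum.inl y, (k1 y).2 hy, y, rfl, Reach.refl y⟩
  · rintro (a | R) ha
    · exact ⟨Set.singleton_subset_iff.2 ((k1 a).1 ha), con_singleton a⟩
    · exact k2 R ha
  · rintro (a | R) ha (b | R') hb hab
    · exact ⟨a, rfl, b, rfl, Reach.single ((k1 a).1 ha) ((k1 b).1 hb) (Or.inr hab)⟩
    · exact ⟨a, rfl, a, hab, Reach.refl a⟩
    · exact ⟨b, hab, b, rfl, Reach.refl b⟩
    · exact hab.elim

theorem pre_rem_GIn1 (h : PM X Z T) (hf : Z.Finite) (hne : NE X.G E (Z ∩ T)) {Q : Set X.V}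
    (hQ : Q ⊆ T) (hp : Pre X.G (Z \ E)) : Pre X.G (Z \ (E ∪ Q)) := by
  rw [← Set.sdiff_sdiff]
  refine rem_seq_pre (hf.subset fun a ha => ha.1.1) hp fun v hv R hR => ?_
  rw [lk_diff_P2, Set.sdiff_sdiff]
  refine (Cell.rem_bd_con (h.mf.ball_lk hv.1.1 (hQ hv.2)) le_rfl fun s hs a ha => ?_).1.2
  obtain ⟨h1, h2 | h2⟩ := hs.1 ha
  · by_contra k
    exact hne a ⟨h2, fun e => k e.2⟩ v ⟨⟨hv.1.1, hQ hv.2⟩, hv.1.2⟩ (mem_lk_C5.1 h1).2.symm
  · exact hQ (hR h2)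

theorem nonsep_of_cap (hX : Cl X.G 3 X.A) (h : PM X Z T) (hE : E ⊆ Z) (hb : Ball X.G 3 E T)
    (hne : NE X.G E (Z ∩ T)) {S Q : Set X.V} (hS : S ∈ bcs X.G Z T) (hc : E ∩ T ⊆ S)
    (hQ : Split X.G 2 S (E ∩ S) Q) (hn : Con (capC X Z T).G ((capC X Z T).A \ cn S E)) :
    Con X.G (X.A \ (E ∪ Q)) := by
  obtain ⟨s1, s2, -⟩ := h.bcs_sph hS
  have hp := pre_rem_GIn1 h (hX.1.subset h.sub) hne (Q := Q)
    (fun a ha => (s1 (hQ.subset ha).1).2) (pre_diff_GIn1 h hS hc hn.2)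
  have sp := (disc_union_sph s2
    (ball_congr_C5 hb fun a ha => ⟨fun k => hc ⟨ha, k⟩, fun k => (s1 k).2⟩)
    (fun a ha b hb => hne a ⟨ha.1, fun k => ha.2 (hc ⟨ha.1, k.2⟩)⟩ b ⟨s1 hb.1, hb.2⟩) hQ).1
  have sub : E ∪ Q ⊆ X.A :=
    (Set.union_subset hE fun a ha => (s1 (hQ.subset ha).1).1).trans h.sub
  obtain ⟨σ, hσ⟩ := exists_sided ((mf_empty_iff.1 hX.2.2).mono sub) (Cell.mfa sp) le_rfl sub
    (Cell.ndc sp)
  by_contra hcon
  obtain ⟨R, hR, -⟩ := split_of_not_con hX sub sp hσ hcon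
  obtain ⟨t, t1, -, t2, t3⟩ := Cell.pure hb (s := ∅) ⟨by simp, by simp⟩
  obtain ⟨x, x1, x2⟩ := Set.not_subset.1 t3
  have kz : ∀ y ∈ Lk X.G X.A t, y ∈ Z := fun y hy =>
    h.adj_int hX ⟨hE (t1.1 x1), x2⟩ hy.1 (hy.2 x x1)
  obtain ⟨⟨a, a1, a2⟩, b, b1, b2⟩ := hR.two t ⟨t1.1.trans Set.subset_union_left, t1.2⟩ t2
  have ha : a ∈ Z \ (E ∪ Q) := ⟨kz a a1, (hR.subset a2).2⟩
  obtain ⟨u, u1, w, w1, uw, -⟩ := (hp a ha b ⟨kz b b1, fun k => b2 (Or.inl k)⟩).exit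
    (X := R) ⟨ha, a2⟩ fun k => b2 (Or.inr k)
  exact hR.sep u u1.2 w ⟨h.sub w1.1.1, fun k => k.elim w1.1.2 w1.2⟩ uw

end Pool.Agent.MP_6374aa_g

end

section

/-! Cutting along an inner disc. -/

namespace Pool.Agent.MP_6374aa_g

open Pool.Agent.MP_6374aa_gt Classical

variable {X P : Cx} {Z T E : Set X.V}

theorem inl_cn_GIn2 {S d : Set X.V} {a : X.V} : Sum.inl a ∈ cn S d ↔ a ∈ d := by simp [cn]

theorem inr_cn_GIn2 {S d S' : Set X.V} : Sum.inr S' ∈ cn S d ↔ S' = S := by simp [cn]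

theorem inl_cap_GIn2 {I : Set (Set X.V)} {a : X.V} : Sum.inl a ∈ capA Z I ↔ a ∈ Z := by
  simp [capA]

theorem inr_cap_GIn2 {I : Set (Set X.V)} {S : Set X.V} : Sum.inr S ∈ capA Z I ↔ S ∈ I := by
  simp [capA]

theorem clq_inl_GIn2 {S d : Set X.V} {s : Finset X.V} (hs : Clq X.G d s) :
    Clq (capG X.G id) (cn S d) (s.map Function.Embedding.inl) := by
  refine clq_iff.2 ⟨fun y hy => ?_, fun y hy z hz => ?_⟩
  · obtain ⟨a, ha, rfl⟩ := Finset.mem_map.1 hy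
    exact inl_cn_GIn2.2 (hs.1 ha)
  · obtain ⟨a, ha, rfl⟩ := Finset.mem_map.1 hy
    obtain ⟨b, hb, rfl⟩ := Finset.mem_map.1 hz
    exact ((clq_iff.1 hs).2 a ha b hb).imp (congrArg _) id

theorem split_in_GIn2 (h : PM X Z T) (hb : Ball X.G 3 E T) {S : Set X.V}
    {U : Set (X.V ⊕ Set X.V)} (hU : Split (capG X.G id) 3 (capA Z (bcs X.G Z T)) (cn S E) U) :
    Split X.G 3 Z E (Sum.inl ⁻¹' U) := by
  refine ⟨fun a ha => ⟨inl_cap_GIn2.1 (hU.subset ha).1, fun k => (hU.subset ha).2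
    (inl_cn_GIn2.2 k)⟩, fun a ha b hb => hU.sep _ ha (Sum.inl b) ⟨inl_cap_GIn2.2 hb.1,
      fun k => hb.2 (k.imp inl_cn_GIn2.1 id)⟩, fun s hs hc => ?_⟩
  have key : ∀ y ∈ Lk (capG X.G id) (capA Z (bcs X.G Z T))
      (s.map (Function.Embedding.inl (β := Set X.V))), ∃ a ∈ Lk X.G Z s, y = Sum.inl a := by
    rintro (a | S') hy
    · exact ⟨a, ⟨inl_cap_GIn2.1 hy.1, fun u hu =>
        hy.2 (Sum.inl u) (Finset.mem_map_of_mem _ hu)⟩, rfl⟩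
    · have h1 := (Cell.link hb hs).2
      rw [hc] at h1
      refine absurd (fun u hu => ?_) h1.2
      rw [Finset.union_empty] at hu
      exact ((h.bcs_sph (inr_cap_GIn2.1 hy.1)).1
        (hy.2 (Sum.inl u) (Finset.mem_map_of_mem _ hu))).2
  obtain ⟨⟨y, hy, h1⟩, z, hz, h2⟩ := hU.two _ (clq_inl_GIn2 hs) (by rw [Finset.card_map, hc])
  obtain ⟨a, ha, rfl⟩ := key y hy
  obtain ⟨b, hb, rfl⟩ := key z hz
  exact ⟨⟨a, ha, h1⟩, b, hb, fun k => h2 (k.imp inl_cn_GIn2.2 id)⟩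

theorem split_bd_GIn2 {S : Set X.V} (hS : S ⊆ Z) {I : Set (Set X.V)}
    {U : Set (X.V ⊕ Set X.V)} (hU : Split (capG X.G id) 3 (capA Z I) (cn S E) U) :
    Split X.G 2 S (E ∩ S) (S ∩ Sum.inl ⁻¹' U) := by
  refine ⟨fun a ha => ⟨ha.1, fun k => (hU.subset ha.2).2 (inl_cn_GIn2.2 k.1)⟩,
    fun a ha b hb => hU.sep _ ha.2 (Sum.inl b) ⟨inl_cap_GIn2.2 (hS hb.1),
      fun k => hb.2 (k.imp (fun k => ⟨inl_cn_GIn2.1 k, hb.1⟩) fun k => ⟨hb.1, k⟩)⟩,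
    fun s hs hc => ?_⟩
  have h0 : Sum.inr S ∉ s.map (Function.Embedding.inl (β := Set X.V)) := by simp
  have h1 : Clq (capG X.G id) (cn S E) ((s.map Function.Embedding.inl).cons _ h0) := by
    have h2 := clq_iff.1 (clq_inl_GIn2 (S := S) (d := E) ⟨fun _ k => (hs.1 k).1, hs.2⟩)
    have h3 : ∀ y ∈ s.map Function.Embedding.inl, Adq (capG X.G id) (Sum.inr S) y := by
      intro y hy
      obtain ⟨a, ha, rfl⟩ := Finset.mem_map.1 hy
      exact Or.inr (hs.1 ha).2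
    refine clq_iff.2 ⟨fun y hy => ?_, fun y hy z hz => ?_⟩
    · rcases Finset.mem_cons.1 hy with rfl | hy
      · exact inr_cn_GIn2.2 rfl
      · exact h2.1 hy
    · rcases Finset.mem_cons.1 hy with rfl | hy <;> rcases Finset.mem_cons.1 hz with rfl | hz
      · exact adq_refl _
      · exact h3 z hz
      · exact adq_symm (h3 y hy)
      · exact h2.2 y hy z hz
  have key : ∀ y ∈ Lk (capG X.G id) (capA Z I) ((s.map Function.Embedding.inl).cons _ h0),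
      ∃ a ∈ Lk X.G S s, y = Sum.inl a := by
    rintro (a | S') hy
    · exact ⟨a, ⟨hy.2 (Sum.inr S) (Finset.mem_cons_self _ _), fun u hu =>
        hy.2 (Sum.inl u) (Finset.mem_cons_of_mem (Finset.mem_map_of_mem _ hu))⟩, rfl⟩
    · exact (hy.2 (Sum.inr S) (Finset.mem_cons_self _ _)).elim
  obtain ⟨⟨y, hy, h2⟩, z, hz, h3⟩ := hU.two _ h1 (by rw [Finset.card_cons, Finset.card_map, hc])
  obtain ⟨a, ha, rfl⟩ := key y hy
  obtain ⟨b, hb, rfl⟩ := key z hz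
  exact ⟨⟨a, ha, ha.1, h2⟩, b, hb, fun k => h3 (k.imp (fun k => inl_cn_GIn2.2 k.1) fun k => k.2)⟩

theorem bp_inl_GIn2 {d c : Set X.V} (hd : Ball X.G 3 d c) :
    BP 2 (Rz (capG X.G (id : Set X.V → Set X.V)) (Sum.inl '' d))
      (Rz (capG X.G id) (Sum.inl '' c)) :=
  Ball.bp ((IsIso.ball (cap_iso id d) fun _ _ => (Sum.inl_injective.mem_set_image).symm).1 hd)
    le_rfl

/-- The ball that fills the new boundary sphere. -/
theorem ball_GIn2 {S Q : Set X.V} {W : Set (X.V ⊕ Set X.V)} (hb : Ball X.G 3 E S) (hQ : Q ⊆ S)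
    (hd : Ball X.G 3 (E ∩ S ∪ Q) (E ∩ S)) (hW : cn S E ⊆ W) (hQW : ∀ a ∈ Q, Sum.inl a ∉ W)
    (hB : BP 3 (Rz (capG X.G id) W) (Rz (capG X.G id) (cn S E))) :
    BP 3 (Rz (capG X.G id) W ∪ Rz (capG X.G id) (cn S (E ∩ S ∪ Q)))
      (Rz (capG X.G id) (Sum.inl '' E) ∪ Rz (capG X.G id) (Sum.inl '' (E ∩ S ∪ Q))) := by
  have h1 := cn_bp_disc hd (Set.union_subset Set.inter_subset_right hQ)
  rw [Set.inter_eq_right.2 Set.subset_union_left] at h1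
  refine hB.union h1 ?_ ?_ ?_ (cn_bp_two (hb.bd le_rfl) Set.inter_subset_right)
    (bp_inl_GIn2 (ball_congr_C5 hb fun a ha => (and_iff_right ha).symm)) (bp_inl_GIn2 hd) ?_ ?_
  · rw [Set.inter_eq_right.2 (rz_mono hW), ← rz_union]
    · congr 1
      ext (a | S') <;> simp +contextual [cn]
    · rintro (a | S') h2 (b | S'') h3
      · exact absurd ⟨a, (inl_cn_GIn2.1 h2.1).1, rfl⟩ h2.2
      · exact absurd ⟨a, (inl_cn_GIn2.1 h2.1).1, rfl⟩ h2.2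
      · obtain rfl := inr_cn_GIn2.1 h2.1
        exact fun k => h3.2 (inl_cn_GIn2.2 ⟨Sum.inl_injective.mem_set_image.1 h3.1, k⟩)
      · exact id
  · rw [Set.union_comm (Rz _ (cn _ _))]
    exact Set.inter_eq_right.2 (Set.union_subset (rz_mono (Set.subset_insert _ _))
      (rz_mono (Set.insert_subset_insert (Set.image_mono Set.subset_union_left))))
  · rw [rz_inter]
    congr 1
    ext (a | S')
    · rw [Set.mem_inter_iff, inl_cn_GIn2, inl_cn_GIn2]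
      exact ⟨fun k => k.2.resolve_right fun k1 => hQW a k1 k.1,
        fun k => ⟨hW (inl_cn_GIn2.2 k.1), Or.inl k⟩⟩
    · rw [Set.mem_inter_iff, inr_cn_GIn2, inr_cn_GIn2]
      exact ⟨fun k => k.2, fun k => ⟨hW (inr_cn_GIn2.2 k), k⟩⟩
  · rw [rz_inter]
    congr 1
    ext (a | S') <;> simp +contextual [cn]
  · rw [rz_inter]
    congr 1
    ext (a | S') <;> simp +contextual [cn]

/-- If one side of the sphere through the cone point is a ball, keep the other side. -/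
theorem cut_of_ball (hX : Cl X.G 3 X.A) (h : PD X P Z T) (hE : E ⊆ Z) (hb : Ball X.G 3 E T)
    (hne : NE X.G E (Z ∩ T)) {S : Set X.V} (hS : S ∈ bcs X.G Z T) (hc : E ∩ T ⊆ S)
    {U : Set (X.V ⊕ Set X.V)} (hU : Split (capC X Z T).G 3 (capC X Z T).A (cn S E) U)
    (hB : BP 3 (Rz (capC X Z T).G ((capC X Z T).A \ U)) (Rz (capC X Z T).G (cn S E))) :
    PD X P (E ∪ Sum.inl ⁻¹' U) (T ∪ E) := by
  change Split (capG X.G id) 3 (capA Z (bcs X.G Z T)) (cn S E) U at hU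
  change BP 3 (Rz (capG X.G id) (capA Z (bcs X.G Z T) \ U)) (Rz (capG X.G id) (cn S E)) at hB
  have s1 := split_in_GIn2 h.pm hb hU
  obtain ⟨hST, sS, -⟩ := h.pm.bcs_sph hS
  have hSZ : S ⊆ Z := fun a ha => (hST ha).1
  have s2 := split_bd_GIn2 hSZ hU
  have hZ1 : E ∪ Sum.inl ⁻¹' U ⊆ Z := Set.union_subset hE fun a ha => (s1.subset ha).1
  have hf : (E ∪ Sum.inl ⁻¹' U).Finite := hX.1.subset (hZ1.trans h.pm.sub)
  have hbS : Ball X.G 3 E S :=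
    ball_congr_C5 hb fun a ha => ⟨fun k => hc ⟨ha, k⟩, fun k => (hST k).2⟩
  have neS : NE X.G E S := fun a ha b hb =>
    hne a ⟨ha.1, fun k => ha.2 (hc ⟨ha.1, k.2⟩)⟩ b ⟨hST hb.1, hb.2⟩
  obtain ⟨q1, q2, -⟩ := disc_union_sph sS hbS neS s2
  obtain ⟨m1, m2⟩ := Mfa.side h.pm.mf (Cell.mfa hb) le_rfl hE s1
  have hSU : Sum.inr S ∉ U := fun k => (hU.subset k).2 (inr_cn_GIn2.2 rfl)
  have side : ∀ S' ∈ bcs X.G Z T, S' ≠ S → ∀ a ∈ S', (Sum.inl a ∈ U ↔ Sum.inr S' ∈ U) := by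
    intro S' h1 h2 a ha
    have h3 := (h.pm.bcs_sph h1).1 ha
    refine ⟨fun k => (split_nbr_H4 hU k (inr_cap_GIn2.2 h1) ha).resolve_left
      fun k1 => h2 (inr_cn_GIn2.1 k1), fun k =>
        (split_nbr_H4 hU k (inl_cap_GIn2.2 h3.1) ha).resolve_left fun k1 => ?_⟩
    exact bcs_far h1 hS h2 a ha a (hc ⟨inl_cn_GIn2.1 k1, h3.2⟩) (adq_refl a)
  have neU : ∀ S', Sum.inr S' ∈ U → S' ≠ S := fun S' k e => hSU (e ▸ k)
  have subU : ∀ S' ∈ bcs X.G Z T, Sum.inr S' ∈ U → S' ⊆ Sum.inl ⁻¹' U :=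
    fun S' h1 h2 a ha => (side S' h1 (neU S' h2) a ha).2 h2
  have far : ∀ S' ∈ bcs X.G Z T, Sum.inr S' ∈ U → Far X.G (E ∪ S ∩ Sum.inl ⁻¹' U) S' := by
    intro S' h1 h2 a ha b hb' e
    by_cases k : a ∈ S
    · exact bcs_far hS h1 (neU S' h2).symm a k b hb' e
    · have k1 : a ∈ E := ha.resolve_right fun k1 => k k1.1
      have k2 : b ∉ E := (s1.subset (subU S' h1 h2 hb')).2
      rcases e with rfl | e
      · exact k2 k1
      · exact hne a ⟨k1, fun k3 => k (hc ⟨k1, k3.2⟩)⟩ b ⟨(h.pm.bcs_sph h1).1 hb', k2⟩ e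
  have sph : ∀ o ∈ {o : Option (Set X.V) | ∀ S' ∈ o, S' ∈ bcs X.G Z T ∧ Sum.inr S' ∈ U},
      Sph X.G 3 (o.elim (E ∪ S ∩ Sum.inl ⁻¹' U) id) := by
    rintro (_ | S') ho
    · exact q1
    · exact (h.pm.bcs_sph (ho S' rfl).1).2.1
  have bij : Set.BijOn (fun o : Option (Set X.V) => o.elim (E ∪ S ∩ Sum.inl ⁻¹' U) id)
      {o | ∀ S' ∈ o, S' ∈ bcs X.G Z T ∧ Sum.inr S' ∈ U}
      (bcs X.G (E ∪ Sum.inl ⁻¹' U) (T ∪ E)) := by
    refine bcs_bij (fun o ho => ⟨?_, Cell.con (sph o ho)⟩) ?_ fun a ha => ?_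
    · rcases o with _ | S'
      · rintro a (k | k)
        · exact ⟨Or.inl k, Or.inr k⟩
        · exact ⟨Or.inr k.2, Or.inl (hST k.1).2⟩
      · exact fun a k => ⟨Or.inr (subU S' (ho S' rfl).1 (ho S' rfl).2 k),
          Or.inl ((h.pm.bcs_sph (ho S' rfl).1).1 k).2⟩
    · rintro (_ | S1) h1 (_ | S2) h2 e
      · exact absurd rfl e
      · exact far S2 (h2 S2 rfl).1 (h2 S2 rfl).2
      · exact (far S1 (h1 S1 rfl).1 (h1 S1 rfl).2).symm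
      · exact bcs_far (h1 S1 rfl).1 (h2 S2 rfl).1 fun k => e (congrArg _ k)
    · by_cases k : a ∈ E
      · exact ⟨none, by simp, Or.inl k⟩
      · have k1 : Sum.inl a ∈ U := ha.1.resolve_left k
        have k2 : a ∈ Z ∩ T := ⟨hZ1 ha.1, ha.2.resolve_right k⟩
        have k3 : cmp X.G (Z ∩ T) a ∈ bcs X.G Z T := ⟨a, k2, rfl⟩
        by_cases k4 : cmp X.G (Z ∩ T) a = S
        · exact ⟨none, by simp, Or.inr ⟨k4 ▸ mem_cmp_self k2, k1⟩⟩
        · refine ⟨some (cmp X.G (Z ∩ T) a), fun S' e => ?_, mem_cmp_self k2⟩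
          obtain rfl := Option.some.inj e
          exact ⟨k3, (side _ k3 k4 a (mem_cmp_self k2)).1 k1⟩
  have hp : PM X (E ∪ Sum.inl ⁻¹' U) (T ∪ E) := by
    refine ⟨hZ1.trans h.pm.sub, (m2 h.pm.con.2 (Cell.con hb)).2,
      m1.congr subset_rfl fun s hs => ⟨fun k => ?_, fun k => ?_⟩, fun a ha => ?_⟩
    · exact k.elim (fun k => k.trans Set.subset_union_right) fun k =>
        Set.Subset.trans k Set.subset_union_left
    · exact (hne.clique ⟨fun v hv => (k hv).symm.imp id fun k1 => ⟨hZ1 (hs.2.1 hv), k1⟩,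
        hs.2.2⟩).imp id fun k1 v hv => (k1 hv).2
    · obtain ⟨o, ho, e⟩ := bij.surjOn ⟨a, ha, rfl⟩
      have k := sph o ho
      have e' : o.elim (E ∪ S ∩ Sum.inl ⁻¹' U) id = cmp X.G _ a := e
      rwa [e'] at k
  have hW : cn S E ⊆ capA Z (bcs X.G Z T) \ U := by
    intro y hy
    refine ⟨?_, fun k => (hU.subset k).2 hy⟩
    rcases y with a | S'
    · exact inl_cap_GIn2.2 (hE (inl_cn_GIn2.1 hy))
    · exact inr_cap_GIn2.2 (inr_cn_GIn2.1 hy ▸ hS)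
  have dZ : E ∩ S ∪ S ∩ Sum.inl ⁻¹' U ⊆ E ∪ Sum.inl ⁻¹' U :=
    Set.union_subset_union Set.inter_subset_left Set.inter_subset_right
  have b1 := ball_GIn2 hbS Set.inter_subset_left q2 hW (fun a ha k => k.2 ha.2) hB
  have b2 : (Rz (capG X.G id) (capA Z (bcs X.G Z T) \ U) ∪
      Rz (capG X.G id) (cn S (E ∩ S ∪ S ∩ Sum.inl ⁻¹' U))) ∩
        Rz (capG X.G id) (Sum.inl '' (E ∪ Sum.inl ⁻¹' U)) = Rz (capG X.G id) (Sum.inl '' E) ∪
          Rz (capG X.G id) (Sum.inl '' (E ∩ S ∪ S ∩ Sum.inl ⁻¹' U)) := by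
    rw [Set.union_inter_distrib_right, rz_inter, rz_inter]
    congr 2
    · ext (a | S')
      · simp only [Set.mem_inter_iff, Sum.inl_injective.mem_set_image]
        exact ⟨fun k => k.2.resolve_right k.1.2, fun k => ⟨hW (inl_cn_GIn2.2 k), Or.inl k⟩⟩
      · simp
    · ext (a | S')
      · simp only [Set.mem_inter_iff, Sum.inl_injective.mem_set_image, inl_cn_GIn2]
        exact ⟨fun k => k.1, fun k => ⟨k, dZ k⟩⟩
      · simp
  have dis : ∀ S1 d S2, S1 ≠ S2 → S2 ⊆ Sum.inl ⁻¹' U →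
      Rz (capG X.G id) (cn S1 d) ∩ Rz (capG X.G id) (cn S2 S2) ⊆
        Rz (capG X.G id) (Sum.inl '' (E ∪ Sum.inl ⁻¹' U)) := by
    intro S1 d S2 e k
    rw [rz_inter]
    refine rz_mono ?_
    rintro (a | S') ⟨k1, k2⟩
    · exact ⟨a, Or.inr (k (inl_cn_GIn2.1 k2)), rfl⟩
    · exact absurd ((inr_cn_GIn2.1 k1).symm.trans (inr_cn_GIn2.1 k2)) e
  have dis0 : ∀ S' ∈ bcs X.G Z T, Sum.inr S' ∈ U → (Rz (capG X.G id) (capA Z (bcs X.G Z T) \ U) ∪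
      Rz (capG X.G id) (cn S (E ∩ S ∪ S ∩ Sum.inl ⁻¹' U))) ∩ Rz (capG X.G id) (cn S' S') ⊆
        Rz (capG X.G id) (Sum.inl '' (E ∪ Sum.inl ⁻¹' U)) := by
    intro S' h1 h2
    rw [Set.union_inter_distrib_right]
    refine Set.union_subset ?_ (dis _ _ _ (neU S' h2).symm (subU S' h1 h2))
    rw [rz_inter]
    refine rz_mono ?_
    rintro (a | S'') ⟨k1, k2⟩
    · exact absurd (subU S' h1 h2 (inl_cn_GIn2.1 k2)) k1.2
    · exact absurd (inr_cn_GIn2.1 k2 ▸ h2) k1.2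
  refine (cap_fill (P := capC X Z T) hp hf bij
    (B := fun o => o.elim (Rz (capG X.G id) (capA Z (bcs X.G Z T) \ U) ∪
      Rz (capG X.G id) (cn S (E ∩ S ∪ S ∩ Sum.inl ⁻¹' U))) fun S' => Rz (capG X.G id) (cn S' S'))
    (IsIso.hm (cap_iso id _) hf) ?_ ?_ ?_).homeo' h.homeo
  · rintro (_ | S') ho
    · refine ⟨b1.congr (Eq.trans ?_ b2.symm), b2.trans (Eq.trans ?_
        (IsIso.pf_image (cap_iso id _) hf (Set.union_subset_union_right E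
          Set.inter_subset_right)).symm)⟩
      · rw [← b2, ← Set.inter_assoc, Set.inter_self]
      · rw [← rz_union, ← Set.image_union, ← Set.union_assoc,
          Set.union_eq_left.2 Set.inter_subset_left]
        rintro _ ⟨⟨a, ha, rfl⟩, k1⟩ _ ⟨⟨b, hb', rfl⟩, k2⟩
        exact neS a ⟨ha, fun k => k1 ⟨a, Or.inl ⟨ha, k⟩, rfl⟩⟩ b
          ⟨hb'.elim (fun k => k.2) fun k => k.1, fun k => k2 ⟨b, k, rfl⟩⟩
    · have k : S' ⊆ E ∪ Sum.inl ⁻¹' U :=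
        (subU S' (ho S' rfl).1 (ho S' rfl).2).trans Set.subset_union_right
      refine ⟨(cn_bp (sph _ ho)).congr ?_, cn_inter_Cap hf k⟩
      exact ((rz_inter _ _).trans (congrArg _ (cn_set_Cap subset_rfl))).trans
        ((rz_inter _ _).trans (congrArg _ (cn_set_Cap k))).symm
  · rintro (_ | S1) h1 (_ | S2) h2 e
    · exact absurd rfl e
    · exact dis0 S2 (h2 S2 rfl).1 (h2 S2 rfl).2
    · exact (Set.inter_comm _ _).subset.trans (dis0 S1 (h1 S1 rfl).1 (h1 S1 rfl).2)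
    · exact dis _ _ _ (fun k => e (congrArg _ k)) (subU S2 (h2 S2 rfl).1 (h2 S2 rfl).2)
  · change _ = Rz (capG X.G id) (capA Z (bcs X.G Z T))
    have sub : ∀ S' ∈ bcs X.G Z T, ∀ d ⊆ Z, cn S' d ⊆ capA Z (bcs X.G Z T) := fun S' h1 d h2 =>
      Set.insert_subset (inr_cap_GIn2.2 h1) ((Set.image_mono h2).trans Set.subset_union_left)
    refine Set.Subset.antisymm (Set.union_subset (rz_mono ((Set.image_mono hZ1).trans
      Set.subset_union_left)) (Set.iUnion₂_subset ?_)) fun x hx => ?_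
    · rintro (_ | S') ho
      · exact Set.union_subset (rz_mono Set.sdiff_subset) (rz_mono (sub S hS _ (dZ.trans hZ1)))
      · exact rz_mono (sub S' (ho S' rfl).1 _ fun a ha => ((h.pm.bcs_sph (ho S' rfl).1).1 ha).1)
    have h0 : (none : Option (Set X.V)) ∈
      {o : Option (Set X.V) | ∀ S' ∈ o, S' ∈ bcs X.G Z T ∧ Sum.inr S' ∈ U} := by simp
    by_cases k : ∃ y ∈ U, x y ≠ 0
    · obtain ⟨y, hy, hxy⟩ := k
      have k1 : ∀ v, x v ≠ 0 → v ∈ cn S E ∪ U := fun v hv =>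
        (hx.2.2.1 y v hxy hv).elim (fun e => e ▸ Or.inr hy) (split_nbr_H4 hU hy (hx.2.1 v hv))
      by_cases k2 : ∃ S', x (Sum.inr S') ≠ 0
      · obtain ⟨S', h1⟩ := k2
        have k3 : ∀ a, x (Sum.inl a) ≠ 0 → a ∈ S' := fun a ha =>
          (hx.2.2.1 _ _ ha h1).resolve_left Sum.inl_ne_inr
        have k4 : ∀ S'', x (Sum.inr S'') ≠ 0 → S'' = S' := fun S'' ha =>
          Sum.inr_injective ((hx.2.2.1 _ _ ha h1).resolve_right id)
        rcases k1 _ h1 with k5 | k5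
        · obtain rfl := inr_cn_GIn2.1 k5
          refine Or.inr (Set.mem_biUnion h0 (Or.inr (rz_of_supp hx ?_)))
          rintro (a | S'') hv
          · exact inl_cn_GIn2.2 ((k1 _ hv).imp (fun k => ⟨inl_cn_GIn2.1 k, k3 a hv⟩)
              fun k => ⟨k3 a hv, k⟩)
          · exact inr_cn_GIn2.2 (k4 _ hv)
        · refine Or.inr (Set.mem_biUnion (x := some S') (fun S'' e => ?_) (rz_of_supp hx ?_))
          · obtain rfl := Option.some.inj e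
            exact ⟨inr_cap_GIn2.1 (hx.2.1 _ h1), k5⟩
          · rintro (a | S'') hv
            · exact inl_cn_GIn2.2 (k3 a hv)
            · exact inr_cn_GIn2.2 (k4 _ hv)
      · refine Or.inl (rz_of_supp hx ?_)
        rintro (a | S') hv
        · exact ⟨a, (k1 _ hv).imp inl_cn_GIn2.1 id, rfl⟩
        · exact absurd ⟨S', hv⟩ k2
    · exact Or.inr (Set.mem_biUnion h0 (Or.inl (rz_of_supp hx fun v hv =>
        ⟨hx.2.1 v hv, fun k1 => k ⟨v, k1, hv⟩⟩)))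

end Pool.Agent.MP_6374aa_g

end

section

/-! Cutting along an inner disc. -/

namespace Pool.Agent.MP_6374aa_g

open Pool.Agent.MP_6374aa_gt Classical

variable {X P : Cx} {Z T E : Set X.V}

theorem clopen_GIn {S : Set X.V} {U : Set (X.V ⊕ Set X.V)}
    (hU : Split (capC X Z T).G 3 (capC X Z T).A (cn S E) U) :
    Clopen X.G (Z \ E) ((E ∪ Sum.inl ⁻¹' U) \ E) := by
  refine ⟨fun x hx => ⟨?_, hx.2⟩, fun a ha b hb e => ⟨Or.inr ?_, hb.2⟩⟩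
  · rcases (hU.subset (hx.1.resolve_left hx.2)).1 with ⟨y, hy, e⟩ | ⟨y, -, e⟩
    · exact Sum.inl_injective e ▸ hy
    · exact (Sum.inr_ne_inl e).elim
  · by_contra k
    refine hU.sep _ (ha.1.resolve_left ha.2) (Sum.inl b) ⟨Or.inl ⟨b, hb.1, rfl⟩, ?_⟩ e
    rintro ((k' | ⟨y, hy, k'⟩) | k')
    · exact Sum.inl_ne_inr k'
    · exact hb.2 (Sum.inl_injective k' ▸ hy)
    · exact k k'

theorem surg_in (hX : Cl X.G 3 X.A) (hP : P.Prime) (h : PD X P Z T) (hE : E ⊆ Z)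
    (hb : Ball X.G 3 E T) (hne : NE X.G E (Z ∩ T)) :
    (NSP P ∧ X.NonSep) ∨ ∃ Z1, E ⊆ Z1 ∧ Clopen X.G (Z \ E) (Z1 \ E) ∧ PD X P Z1 (T ∪ E) := by
  have hY := h.pm.cap_cl (hX.1.subset h.pm.sub)
  have h1 : Sph X.G 2 (E ∩ T) := hb.bd le_rfl
  obtain ⟨⟨a, ha⟩, h2⟩ := Cell.con h1
  have h3 : E ∩ T ⊆ Z ∩ T := Set.inter_subset_inter_left T hE
  obtain ⟨S, hS, hc⟩ : ∃ S ∈ bcs X.G Z T, E ∩ T ⊆ S :=
    ⟨_, ⟨a, h3 ha, rfl⟩, h2.subset_cmp h3 ha (mem_cmp_self (h3 ha))⟩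
  obtain ⟨h4, h5, -⟩ := h.pm.bcs_sph hS
  obtain ⟨h6, h7⟩ := cap_sphere h.pm hE hb hS hc
  by_cases k : Con (capC X Z T).G ((capC X Z T).A \ cn S E)
  · have e : E ∩ T = E ∩ S := Set.ext fun x => ⟨fun k => ⟨k.1, hc k⟩, fun k => ⟨k.1, (h4 k.2).2⟩⟩
    obtain ⟨Q, hQ⟩ := Cell.exists_split h5 (e ▸ h1) le_rfl Set.inter_subset_right
    refine Or.inl ⟨⟨_, closed_iff.2 hY, h.homeo, nonsep_of h7 h6 k⟩,
      nonsep_of (Set.union_subset (hE.trans h.pm.sub) fun x hx => h.pm.sub (h4 (hQ.subset hx).1).1)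
        (disc_union_sph h5 (Cell.congr hb fun s hs => ?_) (fun x hx y hy => ?_) hQ).1
        (nonsep_of_cap hX h.pm hE hb hne hS hc hQ k)⟩
    · exact ⟨fun k x hx => hc ⟨hs.1 hx, k hx⟩, fun k x hx => (h4 (k hx)).2⟩
    · exact hne x ⟨hx.1, fun k => hx.2 (hc ⟨hx.1, k.2⟩)⟩ y ⟨h4 hy.1, hy.2⟩
  obtain ⟨σ, hσ⟩ := exists_sided ((mf_empty_iff.1 hY.2.2).mono h7) (Cell.mfa h6) le_rfl h7
    (Cell.ndc h6)
  obtain ⟨U, u1, ⟨⟨u, u2⟩, -⟩, ⟨⟨w, u3⟩, -⟩, -⟩ := split_of_not_con hY h7 h6 hσ k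
  have u4 : cn S E ∪ U ⊆ (capC X Z T).A := Set.union_subset h7 fun x hx => (u1.subset hx).1
  rcases hP _ (closed_iff.2 hY) h.homeo (cn S E) (cn S E ∪ U) ((capC X Z T).A \ U)
    ((sphere2_iff (Cell.finite h6)).2 h6)
    ((Set.union_subset u4 Set.sdiff_subset).antisymm fun x hx =>
      (Classical.em (x ∈ U)).imp Or.inr fun k => ⟨hx, k⟩)
    (Set.ext fun x => ⟨fun k => k.1.resolve_right k.2.2,
      fun k => ⟨Or.inl k, h7 k, fun k' => (u1.subset k').2 k⟩⟩)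
    (fun e => (u1.subset u2).2 (e.subset (Or.inr u2)))
    (fun e => u3.2 (Or.inl (e.subset ⟨u3.1, fun k => u3.2 (Or.inr k)⟩)))
    (fun x hx y hy => u1.sep x (hx.1.resolve_left hx.2) y
      ⟨hy.1.1, fun k => k.elim hy.2 hy.1.2⟩) with k | k
  · have u5 := u1.symm h7
    exact Or.inr ⟨_, Set.subset_union_left, clopen_GIn u5, cut_of_ball hX h hE hb hne hS hc u5
      ((ball3_iff (G := (capC X Z T).G)).1 ((Set.sdiff_sdiff_cancel_left u4).symm ▸ k))⟩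
  · exact Or.inr ⟨_, Set.subset_union_left, clopen_GIn u1,
      cut_of_ball hX h hE hb hne hS hc u1 (ball3_iff.1 k)⟩

end Pool.Agent.MP_6374aa_g

end

section

/-! Cutting along an inner sphere. -/

namespace Pool.Agent.MP_6374aa_g

open Pool.Agent.MP_6374aa_gt Classical

/-- The symmetric data of the cut. -/
structure Ctx_GSph (X : Cx) (X1 X2 R Z T : Set X.V) : Prop where
  cl : Cl X.G 3 X.A
  pm : PM X Z T
  eq : X.A = X1 ∪ X2
  ne : NE X.G X1 X2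
  r : ∀ a, a ∈ R ↔ a ∈ X1 ∧ a ∈ X2
  sph : Sph X.G 3 R
  two : ∀ s, Clq X.G R s → s.card = 3 →
    (Lk X.G X.A s ∩ (X1 \ X2)).Nonempty ∧ (Lk X.G X.A s ∩ (X2 \ X1)).Nonempty
  sub : R ⊆ Z
  far : Far X.G R (Z ∩ T)
  side : ∀ S ∈ bcs X.G Z T, S ⊆ X1 \ X2 ∨ S ⊆ X2 \ X1

/-- One half of the capped piece. -/
def hf_GSph (X : Cx) (X1 Z T : Set X.V) : Set (X.V ⊕ Set X.V) :=
  capA (Z ∩ X1) {S | S ∈ bcs X.G Z T ∧ S ⊆ X1}

section

variable {X : Cx} {X1 X2 R Z T : Set X.V}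

theorem inl_GSph {a : X.V} : Sum.inl a ∈ hf_GSph X X1 Z T ↔ a ∈ Z ∩ X1 := by
  simp [hf_GSph, capA]

theorem inr_GSph {S : Set X.V} : Sum.inr S ∈ hf_GSph X X1 Z T ↔ S ∈ bcs X.G Z T ∧ S ⊆ X1 := by
  simp [hf_GSph, capA]

theorem Ctx_GSph.symm (c : Ctx_GSph X X1 X2 R Z T) : Ctx_GSph X X2 X1 R Z T :=
  ⟨c.cl, c.pm, c.eq.trans (Set.union_comm _ _), c.ne.symm, fun a => (c.r a).trans and_comm, c.sph,
    fun s h1 h2 => (c.two s h1 h2).symm, c.sub, c.far, fun S h => (c.side S h).symm⟩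

theorem Ctx_GSph.fin (c : Ctx_GSph X X1 X2 R Z T) : Z.Finite := c.cl.1.subset c.pm.sub

theorem Ctx_GSph.not_both (c : Ctx_GSph X X1 X2 R Z T) {S : Set X.V} (h : S ∈ bcs X.G Z T)
    (h1 : S ⊆ X1) (h2 : S ⊆ X2) : False := by
  obtain ⟨a, ha⟩ := Cell.nonempty (c.pm.bcs_sph h).2.1
  exact (c.side S h).elim (fun k => (k ha).2 (h2 ha)) fun k => (k ha).2 (h1 ha)

theorem Ctx_GSph.half (c : Ctx_GSph X X1 X2 R Z T) : ((Z ∩ X1) \ X2).Nonempty ∧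
    Con X.G (Z ∩ X1) ∧ Mf X.G 3 (Z ∩ X1) (T ∪ X2) := by
  have h0 : ∀ a ∈ R, a ∉ T := fun a ha k => c.far a ha a ⟨c.sub ha, k⟩ (adq_refl a)
  have h1 : Split X.G 3 Z R ((Z ∩ X1) \ X2) := by
    refine ⟨fun a ha => ⟨ha.1.1, fun k => ha.2 ((c.r a).1 k).2⟩, fun a ha b hb => ?_,
      fun s a1 a2 => ?_⟩
    · have e : b ∉ X1 := fun k => hb.2 ((Classical.em (b ∈ X2)).imp (fun k' => (c.r b).2 ⟨k, k'⟩)
        fun k' => ⟨⟨hb.1, k⟩, k'⟩)
      exact c.ne a ⟨ha.1.2, ha.2⟩ b ⟨(c.eq.subset (c.pm.sub hb.1)).resolve_left e, e⟩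
    · obtain ⟨x, hx⟩ := Finset.card_pos.1 (show 0 < s.card by omega)
      have e : ∀ u ∈ Lk X.G X.A s, u ∈ Lk X.G Z s := fun u hu =>
        ⟨c.pm.adj_int c.cl ⟨c.sub (a1.1 hx), h0 x (a1.1 hx)⟩ hu.1 (hu.2 x hx), hu.2⟩
      obtain ⟨⟨u, u1, u2⟩, w, w1, w2⟩ := c.two s a1 a2
      exact ⟨⟨u, e u u1, ⟨(e u u1).1, u2.1⟩, u2.2⟩, w, e w w1,
        fun k => w2.2 (k.elim (fun k => ((c.r w).1 k).1) fun k => k.1.2)⟩
  obtain ⟨a1, a2⟩ := Mfa.side c.pm.mf (Mfa.congr c.sph.mf subset_rfl fun s hs => by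
    obtain ⟨x, hx⟩ := hs.1
    exact iff_of_false (fun k => k hx) fun k => h0 x (hs.2.1 hx) (k hx)) le_rfl c.sub h1
  obtain ⟨a3, a4⟩ := a2 c.pm.con.2 (Cell.con c.sph)
  have e : R ∪ (Z ∩ X1) \ X2 = Z ∩ X1 := by
    ext a
    exact ⟨fun k => k.elim (fun k => ⟨c.sub k, ((c.r a).1 k).1⟩) And.left,
      fun k => (Classical.em (a ∈ X2)).imp (fun k' => (c.r a).2 ⟨k.2, k'⟩) fun k' => ⟨k, k'⟩⟩
  rw [e] at a1 a4
  refine ⟨a3.1, a4, Mfa.congr a1 subset_rfl fun s hs => ⟨fun k u hu => k.elim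
    (fun k => Or.inr ((c.r u).1 (k hu)).2) fun k => Or.inl (k hu), fun k => ?_⟩⟩
  refine or_iff_not_imp_left.2 fun k' w hw => (k hw).resolve_right fun b1 => ?_
  obtain ⟨u, hu, b2⟩ := Set.not_subset.1 k'
  exact c.far w ((c.r w).2 ⟨(hs.2.1 hw).2, b1⟩) u ⟨(hs.2.1 hu).1, (k hu).resolve_right
    fun b3 => b2 ((c.r u).2 ⟨(hs.2.1 hu).2, b3⟩)⟩ ((mem_sA.1 hs).2.2 w hw u hu)

theorem Ctx_GSph.fill (c : Ctx_GSph X X1 X2 R Z T)
    (hb : Ball3 (capG X.G id) (hf_GSph X X2 Z T) (Sum.inl '' R)) :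
    PD X (capC X Z T) (Z ∩ X1) (T ∪ X2) := by
  obtain ⟨-, a1, a2⟩ := c.half
  have hf : (Z ∩ X1).Finite := c.fin.subset Set.inter_subset_left
  have hR : R ⊆ Z ∩ X1 := fun a ha => ⟨c.sub ha, ((c.r a).1 ha).1⟩
  have hS : ∀ S ∈ bcs X.G Z T, S ⊆ X1 → S ⊆ Z ∩ X1 := fun S h1 h2 a ha =>
    ⟨((c.pm.bcs_sph h1).1 ha).1, h2 ha⟩
  have h1 : ∀ i ∈ {i : Option (Set X.V) | ∀ S, i = some S → S ∈ bcs X.G Z T ∧ S ⊆ X1},
      i.elim R id ⊆ (Z ∩ X1) ∩ (T ∪ X2) ∧ Sph X.G 3 (i.elim R id) := by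
    rintro (_ | S) hi
    · exact ⟨fun a ha => ⟨hR ha, Or.inr ((c.r a).1 ha).2⟩, c.sph⟩
    · obtain ⟨b1, b2⟩ := hi S rfl
      exact ⟨fun a ha => ⟨hS S b1 b2 ha, Or.inl ((c.pm.bcs_sph b1).1 ha).2⟩,
        (c.pm.bcs_sph b1).2.1⟩
  have h2 := bcs_bij (G := X.G) (fun i hi => (h1 i hi).imp_right Cell.con)
    (by
      rintro (_ | S) hi (_ | S') hj e
      · exact absurd rfl e
      · exact c.far.mono subset_rfl (c.pm.bcs_sph (hj S' rfl).1).1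
      · exact (c.far.mono subset_rfl (c.pm.bcs_sph (hi S rfl).1).1).symm
      · exact bcs_far (hi S rfl).1 (hj S' rfl).1 fun k => e (congrArg some k))
    fun a ha => by
      rcases ha.2 with k | k
      · have b1 : cmp X.G (Z ∩ T) a ∈ bcs X.G Z T := ⟨a, ⟨ha.1.1, k⟩, rfl⟩
        have b2 : a ∈ cmp X.G (Z ∩ T) a := mem_cmp_self ⟨ha.1.1, k⟩
        refine ⟨some _, fun S e => ?_, b2⟩
        rw [← Option.some.inj e]
        exact ⟨b1, ((c.side _ b1).resolve_right fun k' => (k' b2).2 ha.1.2).trans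
          Set.sdiff_subset⟩
      · exact ⟨none, fun _ e => by simp at e, (c.r a).2 ⟨ha.1.2, k⟩⟩
  have pm : PM X (Z ∩ X1) (T ∪ X2) := ⟨fun a ha => c.pm.sub ha.1, a1, a2, fun a ha => by
    obtain ⟨i, b1, b2⟩ := h2.surjOn ⟨a, ha, rfl⟩
    exact (show i.elim R id = cmp X.G _ a from b2) ▸ (h1 i b1).2⟩
  have h3 : hf_GSph X X2 Z T ∩ Sum.inl '' (Z ∩ X1) = Sum.inl '' R := by
    ext x
    constructor
    · rintro ⟨b1, a, b2, rfl⟩
      exact ⟨a, (c.r a).2 ⟨b2.2, (inl_GSph.1 b1).2⟩, rfl⟩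
    · rintro ⟨a, b1, rfl⟩
      exact ⟨inl_GSph.2 ⟨c.sub b1, ((c.r a).1 b1).2⟩, a, hR b1, rfl⟩
  have h4 : ∀ S, S ∈ bcs X.G Z T ∧ S ⊆ X1 →
      Rz (capG X.G id) (hf_GSph X X2 Z T) ∩ Rz (capG X.G id) (cn S S) ⊆
        Rz (capG X.G id) (Sum.inl '' (Z ∩ X1)) := fun S h => by
    rw [rz_inter]
    refine rz_mono ?_
    rintro x ⟨b1, rfl | ⟨a, b2, rfl⟩⟩
    · exact (c.not_both h.1 h.2 (inr_GSph.1 b1).2).elim
    · exact ⟨a, hS S h.1 h.2 b2, rfl⟩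
  refine cap_fill pm hf h2 (B := fun i => i.elim (Rz (capG X.G id) (hf_GSph X X2 Z T))
    fun S => Rz (capG X.G id) (cn S S)) (IsIso.hm (cap_iso id (Z ∩ X1)) hf) ?_ ?_ ?_
  · rintro (_ | S) hi
    · refine ⟨(ball3_iff.1 hb).congr ?_, ?_⟩
      · refine (rz_inter _ _).trans ((congrArg _ ?_).trans (rz_inter _ _).symm)
        exact ((Set.inter_eq_right.2 (h3.symm.subset.trans Set.inter_subset_left)).trans h3.symm :)
      · exact ((rz_inter _ _).trans (congrArg _ h3)).trans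
          (IsIso.pf_image (cap_iso id (Z ∩ X1)) hf hR).symm
    · obtain ⟨b1, b2⟩ := hi S rfl
      refine ⟨(cn_bp (c.pm.bcs_sph b1).2.1).congr ?_, cn_inter_Cap hf (hS S b1 b2)⟩
      exact (rz_inter _ _).trans ((congrArg _ ((cn_set_Cap subset_rfl).trans
        (cn_set_Cap (hS S b1 b2)).symm)).trans (rz_inter _ _).symm)
  · rintro (_ | S) hi (_ | S') hj e
    · exact absurd rfl e
    · exact h4 S' (hj S' rfl)
    · exact (Set.inter_comm _ _).subset.trans (h4 S (hi S rfl))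
    · refine (rz_inter _ _).subset.trans (rz_mono ?_)
      rintro x ⟨rfl | ⟨a, b2, rfl⟩, b1⟩
      · rcases b1 with k | ⟨_, _, k⟩
        · exact absurd (congrArg some (Sum.inr.inj k)) e
        · cases k
      · exact ⟨a, hS S (hi S rfl).1 (hi S rfl).2 b2, rfl⟩
  · have h5 : hf_GSph X X2 Z T ⊆ (capC X Z T).A := Set.union_subset_union
      (Set.image_mono Set.inter_subset_left) (Set.image_mono fun _ k => k.1)
    refine subset_antisymm (Set.union_subset (rz_mono fun x ⟨a, b1, b2⟩ => Or.inl ⟨a, b1.1, b2⟩)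
      (Set.iUnion₂_subset ?_)) ((cap_dec X Z T).subset.trans (Set.union_subset ?_
        (Set.iUnion₂_subset fun S b1 => ?_)))
    · rintro (_ | S) hi
      · exact rz_mono h5
      · refine rz_mono ?_
        rintro x (rfl | ⟨a, b2, rfl⟩)
        · exact Or.inr ⟨S, (hi S rfl).1, rfl⟩
        · exact Or.inl ⟨a, ((c.pm.bcs_sph (hi S rfl).1).1 b2).1, rfl⟩
    · have e : Z = Z ∩ X1 ∪ Z ∩ X2 := by
        rw [← Set.inter_union_distrib_left, ← c.eq, Set.inter_eq_left.2 c.pm.sub]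
      rw [e, Set.image_union, rz_union, ← e]
      · exact Set.union_subset_union_right _ ((rz_mono Set.subset_union_left).trans
          (Set.subset_iUnion₂_of_subset none (fun _ e => by simp at e) subset_rfl))
      · rintro _ ⟨⟨a, b1, rfl⟩, b2⟩ _ ⟨⟨b, b3, rfl⟩, b4⟩
        exact c.ne a ⟨b1.2, fun k => b2 ⟨a, ⟨b1.1, k⟩, rfl⟩⟩ b
          ⟨b3.2, fun k => b4 ⟨b, ⟨b3.1, k⟩, rfl⟩⟩
    · refine Set.subset_union_of_subset_right ?_ _
      rcases c.side S b1 with k | k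
      · exact Set.subset_iUnion₂_of_subset (some S) (fun S' e => Option.some.inj e ▸
          ⟨b1, k.trans Set.sdiff_subset⟩) subset_rfl
      · refine Set.subset_iUnion₂_of_subset none (fun _ e => by simp at e) (rz_mono ?_)
        rintro x (rfl | ⟨a, b2, rfl⟩)
        · exact inr_GSph.2 ⟨b1, k.trans Set.sdiff_subset⟩
        · exact inl_GSph.2 ⟨((c.pm.bcs_sph b1).1 b2).1, (k b2).1⟩

theorem Ctx_GSph.ne_R (c : Ctx_GSph X X1 X2 R Z T) : hf_GSph X X1 Z T ≠ Sum.inl '' R := by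
  obtain ⟨a, a1, a2⟩ := c.half.1
  intro e
  obtain ⟨b, b1, b2⟩ := e.subset (inl_GSph.2 a1)
  exact a2 ((c.r a).1 (Sum.inl.inj b2 ▸ b1)).2

theorem Ctx_GSph.balls (c : Ctx_GSph X X1 X2 R Z T) {P : Cx} (hP : P.Prime)
    (h : (capC X Z T).Homeo P) : Ball3 (capG X.G id) (hf_GSph X X1 Z T) (Sum.inl '' R) ∨
      Ball3 (capG X.G id) (hf_GSph X X2 Z T) (Sum.inl '' R) := by
  refine hP (capC X Z T) (closed_iff.2 (c.pm.cap_cl c.fin)) h _ _ _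
    ((sphere2_iff ((Cell.finite c.sph).image _)).2 ((IsIso.sph (cap_iso id R)).1 c.sph)) ?_ ?_ c.ne_R
    c.symm.ne_R ?_
  · ext x
    constructor
    · rintro ((⟨a, b1, rfl⟩ | ⟨S, b1, rfl⟩) | ⟨a, b1, rfl⟩ | ⟨S, b1, rfl⟩)
      exacts [Or.inl ⟨a, b1.1, rfl⟩, Or.inr ⟨S, b1.1, rfl⟩, Or.inl ⟨a, b1.1, rfl⟩,
        Or.inr ⟨S, b1.1, rfl⟩]
    · rintro (⟨a, b1, rfl⟩ | ⟨S, b1, rfl⟩)
      · exact (c.eq.subset (c.pm.sub b1)).imp (fun k => inl_GSph.2 ⟨b1, k⟩)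
          fun k => inl_GSph.2 ⟨b1, k⟩
      · exact (c.side S b1).imp (fun k => inr_GSph.2 ⟨b1, k.trans Set.sdiff_subset⟩)
          fun k => inr_GSph.2 ⟨b1, k.trans Set.sdiff_subset⟩
  · ext x
    constructor
    · rcases x with a | S
      · exact fun k => ⟨a, (c.r a).2 ⟨(inl_GSph.1 k.1).2, (inl_GSph.1 k.2).2⟩, rfl⟩
      · exact fun k => (c.not_both (inr_GSph.1 k.1).1 (inr_GSph.1 k.1).2 (inr_GSph.1 k.2).2).elim
    · rintro ⟨a, b1, rfl⟩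
      exact ⟨inl_GSph.2 ⟨c.sub b1, ((c.r a).1 b1).1⟩, inl_GSph.2 ⟨c.sub b1, ((c.r a).1 b1).2⟩⟩
  · rintro (a | S) ⟨b1, b2⟩ (b | S') ⟨b3, b4⟩ k
    · exact c.ne a ⟨(inl_GSph.1 b1).2, fun e => b2 ⟨a, (c.r a).2 ⟨(inl_GSph.1 b1).2, e⟩, rfl⟩⟩ b
        ⟨(inl_GSph.1 b3).2, fun e => b4 ⟨b, (c.r b).2 ⟨e, (inl_GSph.1 b3).2⟩, rfl⟩⟩ k
    · exact b2 ⟨a, (c.r a).2 ⟨(inl_GSph.1 b1).2, (inr_GSph.1 b3).2 k⟩, rfl⟩
    · exact b4 ⟨b, (c.r b).2 ⟨(inr_GSph.1 b1).2 k, (inl_GSph.1 b3).2⟩, rfl⟩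
    · exact k

end

theorem surg_sph {H : Hv} (hH : H.Valid) {P : Cx} (hP : P.Prime) {Z T : Set H.V}
    (h : PD H.X P Z T) (hS : H.X1 ∩ H.X2 ⊆ Z) (hf : Far H.G (H.X1 ∩ H.X2) (Z ∩ T)) :
    PD H.X P (Z ∩ H.X1) (T ∪ H.X2) ∨ PD H.X P (Z ∩ H.X2) (T ∪ H.X1) := by
  have c : Ctx_GSph H.X H.X1 H.X2 (H.X1 ∩ H.X2) Z T :=
    ⟨hH.cl, h.pm, hH.eq, hH.ne, fun _ => Iff.rfl, hH.sph, fun s a1 a2 =>
      (hH.split.two s a1 a2).imp_right fun ⟨u, u1, u2⟩ => by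
        have e : u ∉ H.X1 := fun k => u2 ((Classical.em (u ∈ H.X2)).imp (⟨k, ·⟩) (⟨k, ·⟩))
        exact ⟨u, u1, (hH.eq.subset u1.1).resolve_left e, e⟩,
      hS, hf, fun S k => hH.side (fun a ha => h.pm.sub ((h.pm.bcs_sph k).1 ha).1)
        (Cell.con (h.pm.bcs_sph k).2.1).2
        (hf.mono subset_rfl (h.pm.bcs_sph k).1).symm.disjoint⟩
  exact (c.balls hP h.homeo).symm.imp (fun k => (c.fill k).homeo' h.homeo)
    fun k => (c.symm.fill k).homeo' h.homeo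

end Pool.Agent.MP_6374aa_g

end

section

/-! Neighbourhoods that are balls. -/

namespace Pool.Agent.MP_6374aa_g

open Pool.Agent.MP_6374aa_gt Classical

variable {V V' : Type} {G : SimpleGraph V} {G' : SimpleGraph V'} {A : Set V} {A' : Set V'}

theorem adj_GNb1 {t : Finset V} (ht : t ∈ sA G A) {x y : V} (hx : x ∈ t) (hy : y ∈ t)
    (h : x ≠ y) : G.Adj x y := ((mem_sA.1 ht).2.2 x hx y hy).resolve_left h

theorem fr_sub_GNb1 (W : Set V) : nb G A W ∩ fr G A W = fr G A W :=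
  Set.inter_eq_right.2 fun _ ht => ⟨ht.1, ht.2.1⟩

theorem nb_single (hA : Mf G 3 A ∅) {v : V} (hv : v ∈ A) : NB G A {v} := by
  have hS : Sph G 3 (Lk G A (({v} : Finset V) : Set V)) := by
    rw [Finset.coe_singleton]
    exact hA.sph_lk hv (Set.notMem_empty v)
  have hs : ({v} : Finset V) ∈ sA G A := singleton_mem_sA.2 hv
  have hm : ∀ t : Finset V, Meets t {v} ↔ {v} ⊆ t := fun t =>
    ⟨fun ⟨x, hx, e⟩ => Finset.singleton_subset_iff.2 (Set.mem_singleton_iff.1 e ▸ hx),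
      fun h => ⟨v, Finset.singleton_subset_iff.1 h, rfl⟩⟩
  have e1 : nb G A {v} = {t | t ∈ sA G A ∧ {v} ⊆ t} :=
    Set.ext fun t => and_congr_right fun _ => hm t
  have e2 : fr G A {v} = {t | t ∈ sA G A ∧ {v} ⊂ t} :=
    Set.ext fun t => and_congr_right fun _ => and_congr (hm t) (by
      rw [← Finset.coe_singleton, Finset.coe_subset])
  refine ⟨Set.singleton_subset_iff.2 hv, ?_, ?_⟩
  · rw [e2]
    exact upper_cell (β := fun _ => False) hs.2 hS le_rfl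
  · rw [e1, e2]
    refine (dual_bp hs hS le_rfl).congr ?_
    rw [rz_inter, rz_inter]
    congr 1
    ext t
    exact ⟨fun h => ⟨h.1, h.1.1, h.2⟩, fun h => ⟨h.1, h.2.2⟩⟩

theorem split_GNb1 (hA : Mf G 3 A ∅) {v : V} (hv : v ∈ A) : Split G 3 A (Lk G A {v}) {v} := by
  have hS : Sph G 3 (Lk G A {v}) := hA.sph_lk hv (Set.notMem_empty v)
  refine ⟨?_, ?_, fun s hs hc => ?_⟩
  · rintro _ rfl
    exact ⟨hv, fun h => G.irrefl (mem_lk_C1.1 h).2⟩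
  · rintro _ rfl b hb h
    exact hb.2 (Or.inl (mem_lk_C1.2 ⟨hb.1, h⟩))
  · have hsA : Clq G A s := ⟨hs.1.trans (lk_subset _), hs.2⟩
    obtain ⟨x, hx⟩ : s.Nonempty := Finset.card_pos.1 (by omega)
    have h1 := ((mf_empty_iff.1 hA).link hsA ⟨x, hx, hsA.1 hx⟩).2
    have h2 := (Cell.link hS hs).2
    rw [hc] at h1 h2
    have h3 : (Lk G A s).ncard = 2 := (sph_one.1 h1).1
    have h4 : Lk G (Lk G A {v}) s = ∅ := h2.1
    refine ⟨⟨v, ⟨hv, fun u hu => (mem_lk_C1.1 (hs.1 hu)).2.symm⟩, rfl⟩, ?_⟩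
    obtain ⟨w, hw, hwv⟩ := Set.exists_ne_of_one_lt_ncard (s := Lk G A s) (by omega) v
    refine ⟨w, hw, ?_⟩
    rintro (h5 | h5)
    · have h6 : w ∈ Lk G (Lk G A {v}) s := ⟨h5, hw.2⟩
      rw [h4] at h6
      exact h6
    · exact hwv h5

theorem star_sub_GNb1 {v : V} {t : Finset V} (ht : t ∈ sA G A) (hv : v ∈ t) :
    ↑t ⊆ insert v (Lk G A {v}) := fun x hx => by
  by_cases e : x = v
  · exact Or.inl e
  · exact Or.inr (mem_lk_C1.2 ⟨ht.2.1 hx, adj_GNb1 ht hv hx (Ne.symm e)⟩)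

theorem hsd_GNb1 {v : V} {t : Finset V} :
    t ∈ hsd G A (Lk G A {v}) (fun x => (A \ (Lk G A {v} ∪ {v})) ∩ Lk G A {x}) ↔
      t ∈ sA G A ∧ Meets t (Lk G A {v}) ∧ v ∉ t := by
  refine and_congr_right fun ht => and_congr_right fun ⟨x, hx, hxS⟩ => ⟨fun h hv => ?_, ?_⟩
  · exact (h x hx hxS v hv fun k => G.irrefl (mem_lk_C1.1 k).2).1.2 (Or.inr rfl)
  · intro hv z hz hzS y hy hyS
    refine ⟨⟨ht.2.1 hy, ?_⟩, mem_lk_C1.2 ⟨ht.2.1 hy, adj_GNb1 ht hz hy fun e => hyS (e ▸ hzS)⟩⟩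
    rintro (k | k)
    · exact hyS k
    · exact hv (Set.mem_singleton_iff.1 k ▸ hy)

theorem nb_star (hA : Mf G 3 A ∅) {v : V} (hv : v ∈ A) : NB G A (insert v (Lk G A {v})) := by
  have hS : Sph G 3 (Lk G A {v}) := hA.sph_lk hv (Set.notMem_empty v)
  have hSA : Lk G A {v} ⊆ A := lk_subset _
  have hWA : insert v (Lk G A {v}) ⊆ A := Set.insert_subset hv hSA
  have hM : Mfa G 3 A (fun _ => False) (Lk G A {v}) := (mf_empty_iff.1 hA).mono hSA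
  have hσ := ((split_GNb1 hA hv).symm hSA).sided
  have hvS : v ∉ Lk G A {v} := fun k => G.irrefl (mem_lk_C1.1 k).2
  have hin : ∀ t : Finset V, v ∉ t → ↑t ⊆ insert v (Lk G A {v}) → ↑t ⊆ Lk G A {v} :=
    fun t h1 h2 x hx => (h2 hx).resolve_left fun e => h1 (e ▸ hx)
  have hme : ∀ t : Finset V, v ∉ t → Meets t (insert v (Lk G A {v})) → Meets t (Lk G A {v}) :=
    fun t h1 ⟨x, hx, h2⟩ => ⟨x, hx, h2.resolve_left fun e => h1 (e ▸ hx)⟩
  have e1 : fr G A (insert v (Lk G A {v})) =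
      hfr G A (Lk G A {v}) fun x => (A \ (Lk G A {v} ∪ {v})) ∩ Lk G A {x} := by
    ext t
    constructor
    · rintro ⟨h1, h2, h3⟩
      have h4 : v ∉ t := fun k => h3 (star_sub_GNb1 h1 k)
      exact ⟨hsd_GNb1.2 ⟨h1, hme t h4 h2, h4⟩, fun k => h3 (k.trans (Set.subset_insert _ _))⟩
    · rintro ⟨h1, h2⟩
      obtain ⟨h3, ⟨x, hx, h4⟩, h5⟩ := hsd_GNb1.1 h1
      exact ⟨h3, ⟨x, hx, Or.inr h4⟩, fun k => h2 (hin t h5 k)⟩
  have hlow : ∀ t ∈ sA G (insert v (Lk G A {v})), v ∉ t →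
      t ∈ hsd G A (Lk G A {v}) fun x => (A \ (Lk G A {v} ∪ {v})) ∩ Lk G A {x} :=
    fun t ht k => sA_subset_hsd hSA ⟨ht.1, hin t k ht.2.1, ht.2.2⟩
  have e2 : nb G A (insert v (Lk G A {v})) =
      (hsd G A (Lk G A {v}) fun x => (A \ (Lk G A {v} ∪ {v})) ∩ Lk G A {x}) ∪
        sA G (insert v (Lk G A {v})) := by
    ext t
    constructor
    · rintro ⟨h1, h2⟩
      by_cases k : v ∈ t
      · exact Or.inr ⟨h1.1, star_sub_GNb1 h1 k, h1.2.2⟩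
      · exact Or.inl (hsd_GNb1.2 ⟨h1, hme t k h2, k⟩)
    · rintro (h1 | h1)
      · obtain ⟨h3, ⟨x, hx, h4⟩, -⟩ := hsd_GNb1.1 h1
        exact ⟨h3, x, hx, Or.inr h4⟩
      · exact sA_nb_Core hWA h1
  have hne : NE (sG V) (hsd G A (Lk G A {v}) fun x => (A \ (Lk G A {v} ∪ {v})) ∩ Lk G A {x})
      (sA G (insert v (Lk G A {v}))) := by
    rintro s ⟨h1, h2⟩ t ⟨h3, h4⟩ (k | k)
    · exact h2 (sA_down h3 k.subset h1.1.1)
    · have h5 : v ∈ t := by_contra fun h5 => h4 (hlow t h3 h5)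
      exact (hsd_GNb1.1 h1).2.2 (k.subset h5)
  have e3 : sA G (insert v (Lk G A {v})) ∩
      (hsd G A (Lk G A {v}) fun x => (A \ (Lk G A {v} ∪ {v})) ∩ Lk G A {x}) =
        sA G (Lk G A {v}) := by
    ext t
    exact ⟨fun h => ⟨h.1.1, hin t (hsd_GNb1.1 h.2).2.2 h.1.2.1, h.1.2.2⟩,
      fun h => ⟨sA_mono (Set.subset_insert _ _) h, sA_subset_hsd hSA h⟩⟩
  refine ⟨hWA, ?_, ?_⟩
  · rw [e1]
    exact hfr_sph hM hSA hS hσ
  · rw [e1, e2, rz_union hne]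
    refine (collar hM hSA hS hσ).symm.cap ?_ (by rw [rz_inter, e3])
    exact (bp_sd' (hS.finite.insert v)).2 (hS.cone_bp le_rfl fun a ha => (mem_lk_C1.1 ha).2)

section join

variable {W1 W2 : Set V} {a b : V}

theorem both_GNb1 (hd : Disjoint W1 W2)
    (hu : ∀ x ∈ W1, ∀ y ∈ W2, G.Adj x y → x = a ∧ y = b) {t : Finset V} (ht : t ∈ sA G A)
    (m1 : Meets t W1) (m2 : Meets t W2) : a ∈ t ∧ b ∈ t := by
  obtain ⟨x, hx, h1⟩ := m1
  obtain ⟨y, hy, h2⟩ := m2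
  obtain ⟨rfl, rfl⟩ := hu x h1 y h2
    (adj_GNb1 ht hx hy fun e => Set.disjoint_left.1 hd h1 (e ▸ h2))
  exact ⟨hx, hy⟩

theorem lk_GNb1 {e : Finset V} (he : ∀ x, x ∈ e ↔ x = a ∨ x = b) (ha : a ∈ W1) (hb : b ∉ W1) :
    Lk (sG V) (fr G A W1) {e} = {t | t ∈ sA G A ∧ e ⊂ t} := by
  ext t
  rw [mem_lk_C1]
  constructor
  · rintro ⟨⟨h1, ⟨x, hx, h2⟩, h3⟩, k | k⟩
    · exact ⟨h1, k⟩
    · obtain ⟨y, hy, h4⟩ := Set.not_subset.1 h3
      have h5 : x = a := ((he x).1 (k.subset hx)).resolve_right fun e' => hb (e' ▸ h2)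
      have h6 : y = b := ((he y).1 (k.subset hy)).resolve_left fun e' => h4 (e' ▸ ha)
      refine absurd (fun z hz => ?_) k.not_subset
      rcases (he z).1 hz with rfl | rfl
      · exact h5 ▸ hx
      · exact h6 ▸ hy
  · rintro ⟨h1, k⟩
    exact ⟨⟨h1, ⟨a, k.subset ((he a).2 (Or.inl rfl)), ha⟩,
      fun h2 => hb (h2 (k.subset ((he b).2 (Or.inr rfl))))⟩, Or.inl k⟩

theorem fr_left_GNb1 {e : Finset V} (he : ∀ x, x ∈ e ↔ x = a ∨ x = b) (hd : Disjoint W1 W2)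
    (hu : ∀ x ∈ W1, ∀ y ∈ W2, G.Adj x y → x = a ∧ y = b) {t : Finset V} (ht : t ∈ fr G A W1)
    (hn : t ≠ e) : t ∈ fr G A (W1 ∪ W2) := by
  obtain ⟨h1, ⟨x, hx, h2⟩, h3⟩ := ht
  refine ⟨h1, ⟨x, hx, Or.inl h2⟩, fun k => hn ?_⟩
  obtain ⟨y, hy, h4⟩ := Set.not_subset.1 h3
  have h5 : y ∈ W2 := (k hy).resolve_left h4
  have hne : ∀ u ∈ W1, ∀ w ∈ W2, u ≠ w := fun u h6 w h7 e' =>
    Set.disjoint_left.1 hd h6 (e' ▸ h7)
  obtain ⟨h6, h7⟩ := both_GNb1 hd hu h1 ⟨x, hx, h2⟩ ⟨y, hy, h5⟩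
  ext z
  rw [he]
  refine ⟨fun hz => ?_, fun hz => hz.elim (fun e' => e' ▸ h6) fun e' => e' ▸ h7⟩
  rcases k hz with h8 | h8
  · exact Or.inl (hu z h8 y h5 (adj_GNb1 h1 hz hy (hne z h8 y h5))).1
  · exact Or.inr (hu x h2 z h8 (adj_GNb1 h1 hx hz (hne x h2 z h8))).2

end join

/-- Two balls joined by a single edge. -/
theorem nb_join (hA : Mf G 3 A ∅) {W1 W2 : Set V} (h1 : NB G A W1) (h2 : NB G A W2)
    (hd : Disjoint W1 W2) {a b : V} (ha : a ∈ W1) (hb : b ∈ W2) (hab : G.Adj a b)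
    (hu : ∀ x ∈ W1, ∀ y ∈ W2, G.Adj x y → x = a ∧ y = b) : NB G A (W1 ∪ W2) := by
  have _ := hA
  obtain ⟨e, he⟩ : ∃ e : Finset V, ∀ x, x ∈ e ↔ x = a ∨ x = b := ⟨{a, b}, fun x => by simp⟩
  have he' : ∀ x, x ∈ e ↔ x = b ∨ x = a := fun x => (he x).trans or_comm
  have hu' : ∀ x ∈ W2, ∀ y ∈ W1, G.Adj x y → x = b ∧ y = a := fun x hx y hy h =>
    (hu y hy x hx h.symm).symm
  have hb1 : b ∉ W1 := fun k => Set.disjoint_left.1 hd k hb
  have ha2 : a ∉ W2 := fun k => Set.disjoint_left.1 hd ha k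
  have hae : a ∈ e := (he a).2 (Or.inl rfl)
  have hbe : b ∈ e := (he b).2 (Or.inr rfl)
  have hes : e ∈ sA G A := by
    have h3 : e = {a, b} := Finset.ext fun x => by simp [he]
    rw [h3]
    exact pair_mem_sA (h1.1 ha) (h2.1 hb) (Or.inr hab)
  have l1 := lk_GNb1 (G := G) (A := A) he ha hb1
  have l2 := lk_GNb1 (G := G) (A := A) he' hb ha2
  have hD : ∀ t ∈ sA G A, Meets t W1 → Meets t W2 → t ∈ insert e {t | t ∈ sA G A ∧ e ⊂ t} := by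
    intro t ht m1 m2
    obtain ⟨h3, h4⟩ := both_GNb1 hd hu ht m1 m2
    have h5 : e ⊆ t := fun x hx => ((he x).1 hx).elim (fun e' => e' ▸ h3) fun e' => e' ▸ h4
    exact h5.eq_or_ssubset.elim (fun k => Or.inl k.symm) fun k => Or.inr ⟨ht, k⟩
  have hD' : ∀ t ∈ insert e {t | t ∈ sA G A ∧ e ⊂ t}, t ∈ fr G A W1 ∧ t ∈ fr G A W2 := by
    intro t ht
    have h3 : t ∈ sA G A ∧ e ⊆ t :=
      ht.elim (fun k => by rw [k]; exact ⟨hes, subset_rfl⟩) fun k => ⟨k.1, k.2.subset⟩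
    exact ⟨⟨h3.1, ⟨a, h3.2 hae, ha⟩, fun k => hb1 (k (h3.2 hbe))⟩,
      ⟨h3.1, ⟨b, h3.2 hbe, hb⟩, fun k => ha2 (k (h3.2 hae))⟩⟩
  have e1 : e ∈ fr G A W1 := (hD' e (Set.mem_insert _ _)).1
  have e2 : e ∈ fr G A W2 := (hD' e (Set.mem_insert _ _)).2
  have hG : Graft (sG V) (fr G A W1) (fr G A W2) (fr G A (W1 ∪ W2)) e := by
    refine ⟨e1, e2, l1.trans l2.symm, ?_, ?_, ?_⟩
    · rw [l1]
      exact Set.ext fun t => ⟨fun h => hD t h.1.1 h.1.2.1 h.2.2.1, hD' t⟩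
    · rintro s ⟨h3, h4⟩ t ⟨h5, h6⟩ (k | k)
      · exact h6 (hD' t (hD t h5.1 (meets_up_C3 h3.2.1 k.subset) h5.2.1)).1
      · exact h4 (hD' s (hD s h3.1 h3.2.1 (meets_up_C3 h5.2.1 k.subset))).2
    · ext t
      constructor
      · rintro ⟨h3, ⟨x, hx, h4⟩, h5⟩
        refine ⟨h4.imp (fun k => ⟨h3, ⟨x, hx, k⟩, fun k' => h5 (k'.trans Set.subset_union_left)⟩)
          fun k => ⟨h3, ⟨x, hx, k⟩, fun k' => h5 (k'.trans Set.subset_union_right)⟩, ?_⟩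
        rintro rfl
        refine h5 fun y hy => ?_
        rcases (he y).1 hy with rfl | rfl
        · exact Or.inl ha
        · exact Or.inr hb
      · rintro ⟨h3 | h3, h4⟩
        · exact fr_left_GNb1 he hd hu h3 h4
        · rw [Set.union_comm]
          exact fr_left_GNb1 he' hd.symm hu' h3 h4
  refine ⟨Set.union_subset h1.1 h2.1, Graft.sph hG le_rfl h1.2.1 h2.2.1, ?_⟩
  have n1 : nb G A (W1 ∪ W2) = nb G A W1 ∪ nb G A W2 := by
    ext t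
    constructor
    · rintro ⟨h3, x, hx, h4⟩
      exact h4.imp (fun k => ⟨h3, x, hx, k⟩) fun k => ⟨h3, x, hx, k⟩
    · rintro (⟨h3, x, hx, h4⟩ | ⟨h3, x, hx, h4⟩)
      · exact ⟨h3, x, hx, Or.inl h4⟩
      · exact ⟨h3, x, hx, Or.inr h4⟩
  have n2 : NE (sG V) (nb G A W1) (nb G A W2) := by
    rintro s ⟨h3, h4⟩ t ⟨h5, h6⟩ (k | k)
    · exact h6 ⟨h5.1, meets_up_C3 h3.2 k.subset⟩
    · exact h4 ⟨h3.1, meets_up_C3 h5.2 k.subset⟩
  have n3 : nb G A W1 ∩ nb G A W2 = insert e {t | t ∈ sA G A ∧ e ⊂ t} :=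
    Set.ext fun t => ⟨fun h => hD t h.1.1 h.1.2 h.2.2, fun h =>
      ⟨⟨(hD' t h).1.1, (hD' t h).1.2.1⟩, (hD' t h).2.1, (hD' t h).2.2.1⟩⟩
  have s1 := split_Arc (G := sG V) e1
  have s2 := split_Arc (G := sG V) e2
  have r1 := (h1.2.1.rem le_rfl e1).bp (d := 2) le_rfl
  have r2 := (h2.2.1.rem le_rfl e2).bp (d := 2) le_rfl
  have c := (h1.2.1.mf.sph_lk e1 (Set.notMem_empty e)).cone_bp (c := e) (by norm_num)
    fun t ht => (mem_lk_C1.1 ht).2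
  rw [l1] at s1 r1 c
  rw [l2] at s2 r2
  rw [n1, rz_union n2, hG.eq, Set.union_sdiff_distrib, rz_union (graft_ne_C5 hG)]
  refine BP.union h1.2.2 h2.2.2 ?_ ?_ ?_ c r1 r2 s1.2 s2.2
  · rw [rz_inter, fr_sub_GNb1, s1.1]
  · rw [rz_inter, fr_sub_GNb1, s2.1]
  · rw [rz_inter, n3]

end Pool.Agent.MP_6374aa_g

end

section

/-! The inner normal form. -/

namespace Pool.Agent.MP_6374aa_g

open Pool.Agent.MP_6374aa_gt Classical

variable {V V' : Type} {G : SimpleGraph V} {G' : SimpleGraph V'} {A : Set V} {A' : Set V'}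

theorem nc_iso_GNb {f : V' → V} (hf : IsIso G' A' G A f) : nc G' A' = nc G A := by
  have key : ∀ a ∈ A', f '' cmp G' A' a = cmp G A (f a) := fun a ha => by
    have : Nonempty V' := ⟨a⟩
    obtain ⟨g, hg, h1, h2⟩ := IsIso.symm' hf
    refine Set.Subset.antisymm ?_ fun b hb => ⟨g b, ⟨hg.1.mapsTo hb.1, ?_⟩, h2 b hb.1⟩
    · rintro _ ⟨b, hb, rfl⟩
      exact ⟨hf.1.mapsTo hb.1, hb.2.map (IsIso.hom hf)⟩
    · exact h1 a ha ▸ hb.2.map (IsIso.hom hg)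
  have e : (fun a => cmp G A a) '' A = Set.image f '' ((fun a => cmp G' A' a) '' A') := by
    rw [Set.image_image, Set.image_congr key, ← Set.image_image (cmp G A) f, hf.1.image_eq]
  unfold nc
  rw [e]
  refine (Set.InjOn.ncard_image ?_).symm
  rintro _ ⟨a, -, rfl⟩ _ ⟨b, -, rfl⟩ h
  exact (hf.1.injOn.image_eq_image_iff (cmp_subset a) (cmp_subset b)).1 h

theorem nb_iso_GNb {f : V' → V} {Z : Set V'} {Z2 : Set V} {Q : Set V'} (iz : IsIso G' Z G Z2 f)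
    (inj : Function.Injective f) (hZ : Z ⊆ A') (hZ2 : Z2 ⊆ A)
    (a1 : ∀ q ∈ Q, ∀ y ∈ A', Adq G' q y → y ∈ Z)
    (a2 : ∀ q ∈ Q, ∀ y ∈ A, Adq G (f q) y → y ∈ Z2) :
    ∃ F, IsIso (sG V') (nb G' A' Q) (sG V) (nb G A (f '' Q)) F ∧
      (∀ a ∈ nb G' A' Q, a ∈ fr G' A' Q ↔ F a ∈ fr G A (f '' Q)) ∧
      nc (sG V') (fr G' A' Q) = nc (sG V) (nb G A (f '' Q) ∩ fr G A (f '' Q)) := by
  have hm : ∀ s : Finset V', Meets (s.image f) (f '' Q) ↔ Meets s Q := fun s => by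
    simp [Meets, inj.eq_iff]
  have hi : IsIso (sG V') (nb G' A' Q) (sG V) (nb G A (f '' Q)) (Finset.image f) := by
    refine iso_of_subset_B4 (fun s hs => ?_)
      (fun s _ t _ => Finset.image_subset_image_iff inj) fun t ht => ?_
    · obtain ⟨q, hq, hqQ⟩ := hs.2
      have h : s ∈ sA G' Z := ⟨hs.1.1, fun y hy =>
        a1 q hqQ y (hs.1.2.1 hy) ((mem_sA.1 hs.1).2.2 q hq y hy), hs.1.2.2⟩
      exact ⟨sA_mono hZ2 (IsHom.image_mem (IsIso.hom iz) h), (hm s).2 hs.2⟩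
    · obtain ⟨_, hq, q, hqQ, rfl⟩ := ht.2
      have h : t ∈ sA G Z2 := ⟨ht.1.1, fun y hy =>
        a2 q hqQ y (ht.1.2.1 hy) ((mem_sA.1 ht.1).2.2 _ hq y hy), ht.1.2.2⟩
      obtain ⟨s, hs, rfl⟩ := (IsIso.sd iz).1.surjOn h
      exact ⟨s, ⟨sA_mono hZ hs, (hm s).1 ht.2⟩, rfl⟩
  have hT : ∀ a ∈ nb G' A' Q, a ∈ fr G' A' Q ↔ a.image f ∈ fr G A (f '' Q) := fun a ha => by
    have h3 := hi.1.mapsTo ha
    have h4 : (a.image f : Set V) ⊆ f '' Q ↔ ↑a ⊆ Q := by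
      rw [Finset.coe_image, Set.image_subset_image_iff inj]
    exact ⟨fun h => ⟨h3.1, h3.2, fun h' => h.2.2 (h4.1 h')⟩,
      fun h => ⟨ha.1, ha.2, fun h' => h.2.2 (h4.2 h')⟩⟩
  have e : fr G' A' Q = nb G' A' Q ∩ Finset.image f ⁻¹' fr G A (f '' Q) :=
    Set.ext fun a => ⟨fun ha => ⟨⟨ha.1, ha.2.1⟩, (hT a ⟨ha.1, ha.2.1⟩).1 ha⟩,
      fun ha => (hT a ha.1).2 ha.2⟩
  exact ⟨_, hi, hT, e ▸ nc_iso_GNb (IsIso.restrict' hi _)⟩

theorem pre_GNb {Q : Set V} {ι : Type} {I : Set ι} {W : ι → Set V} (hp : Pre (sG V) (sA G A))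
    (f1 : ∀ i ∈ I, ∀ j ∈ I, ∀ s ∈ nb G A (W i), s ∈ nb G A (W j) → i = j)
    (f2 : ∀ s ∈ sA G A, s ∉ nb G A Q → ∃ i ∈ I, s ∈ nb G A (W i))
    (f3 : ∀ i ∈ I, Con (sG V) (nb G A (W i) ∩ nb G A Q)) : Pre (sG V) (nb G A Q) := by
  refine pre_of_const fun P hP => ?_
  let R : Finset V → Prop := fun s => (s ∈ nb G A Q ∧ P s) ∨
    ∃ i ∈ I, s ∈ nb G A (W i) ∧ ∃ t ∈ nb G A (W i) ∩ nb G A Q, P t
  have r1 : ∀ s ∈ nb G A Q, R s ↔ P s := fun s hs => by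
    refine ⟨?_, fun h => Or.inl ⟨hs, h⟩⟩
    rintro (h | ⟨i, hi, h, t, ht, h'⟩)
    · exact h.2
    · exact ((f3 i hi).2.const (φ := P) (fun a ha b hb hab => propext (hP a ha.2 b hb.2 hab))
        ht ⟨h, hs⟩).to_iff.1 h'
  have r2 : ∀ i ∈ I, ∀ s ∈ nb G A (W i), R s ↔ ∃ t ∈ nb G A (W i) ∩ nb G A Q, P t :=
    fun i hi s hs => by
      refine ⟨?_, fun h => Or.inr ⟨i, hi, hs, h⟩⟩
      rintro (h | ⟨j, hj, h, h'⟩)
      · exact ⟨s, ⟨hs, h.1⟩, h.2⟩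
      · exact f1 i hi j hj s hs h ▸ h'
  have r3 : ∀ s ∈ sA G A, ∀ t ∈ sA G A, s ⊂ t → R s = R t := fun s hs t ht hst => by
    by_cases hq : s ∈ nb G A Q
    · have hq' : t ∈ nb G A Q := ⟨ht, meets_up_C3 hq.2 hst.subset⟩
      exact propext (((r1 s hq).trans (hP s hq t hq' (Or.inl hst))).trans (r1 t hq').symm)
    · obtain ⟨i, hi, hw⟩ := f2 s hs hq
      exact propext ((r2 i hi s hw).trans (r2 i hi t ⟨ht, meets_up_C3 hw.2 hst.subset⟩).symm)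
  intro a ha b hb
  rw [← r1 a ha, ← r1 b hb]
  exact (hp.const (φ := R) (fun s hs t ht h => h.elim (r3 s hs t ht) fun h => (r3 t ht s hs h).symm)
    ha.1 hb.1).to_iff

theorem inner_self {Y : Cx} (hY : Cl Y.G 3 Y.A) {ι : Type} {I : Set ι} {W : ι → Set Y.V}
    (h1 : ∀ i ∈ I, NB Y.G Y.A (W i)) (h2 : ∀ i ∈ I, ∀ j ∈ I, i ≠ j → Far Y.G (W i) (W j))
    {Q : Set Y.V} (hQ : Q = Y.A \ ⋃ i ∈ I, W i) (hn : Q.Nonempty) :
    Core Y Y Q ∧ Set.BijOn (fun i => fr Y.G Y.A (W i)) I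
      (bcs (sG Y.V) (nb Y.G Y.A Q) (fr Y.G Y.A Q)) := by
  have hQA : Q ⊆ Y.A := hQ ▸ Set.sdiff_subset
  have hd : ∀ i ∈ I, ∀ q ∈ Q, q ∉ W i := fun i hi q hq hw =>
    (hQ ▸ hq : q ∈ Y.A \ ⋃ i ∈ I, W i).2 (Set.mem_biUnion hi hw)
  have hc : ∀ y ∈ Y.A, y ∉ Q → ∃ i ∈ I, y ∈ W i := fun y hy hq => by
    by_contra hn
    exact hq (hQ ▸ ⟨hy, fun hu => hn (by simpa using hu)⟩)
  have f1 : ∀ i ∈ I, ∀ j ∈ I, ∀ s ∈ nb Y.G Y.A (W i), s ∈ nb Y.G Y.A (W j) → i = j :=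
    fun i hi j hj s hs ht => by_contra fun hij => far_nb (h2 i hi j hj hij) s hs s ht (adq_refl s)
  have f2 : ∀ s ∈ sA Y.G Y.A, s ∉ nb Y.G Y.A Q → ∃ i ∈ I, s ∈ nb Y.G Y.A (W i) := fun s hs hq => by
    obtain ⟨y, hy⟩ := hs.1
    obtain ⟨i, hi, hw⟩ := hc y (hs.2.1 hy) fun h => hq ⟨hs, y, hy, h⟩
    exact ⟨i, hi, hs, y, hy, hw⟩
  have f3 : ∀ i ∈ I, nb Y.G Y.A (W i) ∩ nb Y.G Y.A Q = fr Y.G Y.A (W i) := fun i hi => by
    ext s
    constructor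
    · rintro ⟨⟨hs, hm⟩, -, q, hq, hqQ⟩
      exact ⟨hs, hm, fun h => hd i hi q hqQ (h hq)⟩
    · rintro ⟨hs, hm, hn⟩
      obtain ⟨y, hy, hw⟩ := Set.not_subset.1 hn
      refine ⟨⟨hs, hm⟩, hs, y, hy, by_contra fun hq => ?_⟩
      obtain ⟨j, hj, hw'⟩ := hc y (hs.2.1 hy) hq
      obtain ⟨x, hx, hxw⟩ := hm
      exact h2 i hi j hj (fun e => hw (e ▸ hw')) x hxw y hw' ((mem_sA.1 hs).2.2 x hx y hy)
  have f4 : ∀ i ∈ I, fr Y.G Y.A (W i) ⊆ nb Y.G Y.A Q ∩ fr Y.G Y.A Q := fun i hi s hs => by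
    have h := ((f3 i hi).ge hs).2
    obtain ⟨x, hx, hxw⟩ := hs.2.1
    exact ⟨h, h.1, h.2, fun hs' => hd i hi x (hs' hx) hxw⟩
  have f5 : ∀ s ∈ nb Y.G Y.A Q ∩ fr Y.G Y.A Q, ∃ i ∈ I, s ∈ fr Y.G Y.A (W i) := fun s hs => by
    obtain ⟨y, hy, hq⟩ := Set.not_subset.1 hs.2.2.2
    obtain ⟨i, hi, hw⟩ := hc y (hs.1.1.2.1 hy) hq
    exact ⟨i, hi, (f3 i hi).le ⟨⟨hs.1.1, y, hy, hw⟩, hs.1⟩⟩
  have fc : ∀ i ∈ I, Con (sG Y.V) (fr Y.G Y.A (W i)) := fun i hi => Cell.con (h1 i hi).2.1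
  have hb : Set.BijOn (fun i => fr Y.G Y.A (W i)) I
      (bcs (sG Y.V) (nb Y.G Y.A Q) (fr Y.G Y.A Q)) :=
    bcs_bij (fun i hi => ⟨f4 i hi, fc i hi⟩) (fun i hi j hj hij =>
      (far_nb (h2 i hi j hj hij)).mono (fun s hs => ⟨hs.1, hs.2.1⟩) fun s hs => ⟨hs.1, hs.2.1⟩) f5
  have hs : nb Y.G Y.A Q ⊆ sA Y.G Y.A := fun s hs => hs.1
  have hp : Pre (sG Y.V) (nb Y.G Y.A Q) :=
    pre_GNb (pre_sA.2 hY.2.1.2) f1 f2 fun i hi => (f3 i hi).symm ▸ fc i hi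
  obtain ⟨q, hq⟩ := hn
  have pm : PM Y.sd (nb Y.G Y.A Q) (fr Y.G Y.A Q) := by
    refine ⟨hs, ⟨⟨({q} : Finset Y.V), singleton_mem_sA.2 (hQA hq), q, Finset.mem_singleton_self q, hq⟩, hp⟩,
      Mf.nb_empty hY.2.2 le_rfl, fun a ha => ?_⟩
    obtain ⟨i, hi, e⟩ := hb.surjOn ⟨a, ha, rfl⟩
    exact (congrArg (Sph (sG Y.V) 3) e).mp (h1 i hi).2.1
  refine ⟨⟨hQA, PD.homeo' (P := Y.sd) ?_ (sdh_main Y hY.1)⟩, hb⟩
  refine cap_fill (B := fun i => Rz (sG Y.V) (nb Y.G Y.A (W i))) pm ((sA_finite hY.1).subset hs) hb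
    (HM.id' _) (fun i hi => ?_) (fun i hi j hj hij => ?_) ?_
  · have e : Rz (sG Y.V) (nb Y.G Y.A (W i)) ∩ Rz (sG Y.V) (nb Y.G Y.A Q) =
        Rz (sG Y.V) (fr Y.G Y.A (W i)) := by rw [rz_inter, f3 i hi]
    refine ⟨(h1 i hi).2.2.congr (Eq.trans ?_ e.symm), e.trans (Set.image_id _).symm⟩
    exact Set.inter_eq_right.2 (rz_mono fun s hs => ⟨hs.1, hs.2.1⟩)
  · exact (rz_inter _ _).le.trans (rz_mono fun s hs => absurd (f1 i hi j hj s hs.1 hs.2) hij)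
  · refine Set.Subset.antisymm (Set.union_subset (rz_mono hs)
      (Set.iUnion₂_subset fun i _ => rz_mono fun s hs => hs.1)) fun x hx => ?_
    obtain ⟨b, hb, hbt⟩ := bot_Collar hx
    by_cases hq : b ∈ nb Y.G Y.A Q
    · exact Or.inl (rz_of_supp hx fun t ht => ⟨hx.2.1 t ht, meets_up_C3 hq.2 (hbt t ht)⟩)
    · obtain ⟨i, hi, hw⟩ := f2 b (hx.2.1 b hb) hq
      exact Or.inr (Set.mem_biUnion hi
        (rz_of_supp hx fun t ht => ⟨hx.2.1 t ht, meets_up_C3 hw.2 (hbt t ht)⟩))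

/-- The complement of far balls in the capped manifold. -/
theorem PD.inner_gen {X P : Cx} {Z T : Set X.V} (hX : Cl X.G 3 X.A) (h : PD X P Z T) {ι : Type}
    {I : Set ι} {W : ι → Set (X.V ⊕ Set X.V)}
    (h1 : ∀ i ∈ I, NB (capC X Z T).G (capC X Z T).A (W i))
    (h2 : ∀ i ∈ I, ∀ j ∈ I, i ≠ j → Far (capC X Z T).G (W i) (W j)) {Q : Set X.V}
    (hQ : Q ⊆ Z \ T) (hn : Q.Nonempty) (he : Sum.inl '' Q = (capC X Z T).A \ ⋃ i ∈ I, W i) :
    Core X P Q ∧ nc (sG X.V) (fr X.G X.A Q) = I.ncard := by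
  have hf : Z.Finite := hX.1.subset h.pm.sub
  have hY := h.pm.cap_cl hf
  obtain ⟨hc, hb⟩ := inner_self hY h1 h2 he (hn.image _)
  obtain ⟨F, hi, hT, e⟩ := nb_iso_GNb (A := (capC X Z T).A) (Q := Q)
    (cap_iso (G := X.G) (id : Set X.V → Set X.V) Z) Sum.inl_injective h.pm.sub
    Set.subset_union_left (fun q hq y hy ha => ha.elim (fun e => e ▸ (hQ hq).1)
      (h.pm.adj_int hX (hQ hq) hy)) (by
      rintro q hq _ (hy | ⟨S, hS, rfl⟩) ha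
      · exact hy
      · rcases ha with e | e
        · cases e
        · exact absurd ((h.pm.bcs_sph hS).1 e).2 (hQ hq).2)
  exact ⟨⟨hQ.trans (Set.sdiff_subset.trans h.pm.sub), PD.iso (X' := X.sd) (hc.2.homeo' h.homeo)
    ((sA_finite hY.1).subset fun s hs => hs.1) hi hT fun s hs => hs.1⟩, e.trans hb.ncard_eq.symm⟩

theorem cn_nb {X : Cx} {Z T : Set X.V} (h : PM X Z T) (hf : Z.Finite) {S : Set X.V}
    (hS : S ∈ bcs X.G Z T) : NB (capC X Z T).G (capC X Z T).A (cn S S) := by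
  have e : Lk (capG X.G id) (capA Z (bcs X.G Z T)) {Sum.inr S} = Sum.inl '' S := by
    ext w
    rw [mem_lk_C1]
    constructor
    · rintro ⟨-, hw⟩
      cases w with
      | inl u => exact ⟨u, hw, rfl⟩
      | inr u => exact hw.elim
    · rintro ⟨u, hu, rfl⟩
      exact ⟨Or.inl ⟨u, ((h.bcs_sph hS).1 hu).1, rfl⟩, hu⟩
  have := nb_star (G := capG X.G id) (A := capA Z (bcs X.G Z T)) (h.cap_cl hf).2.2
    (v := Sum.inr S) (Or.inr ⟨S, hS, rfl⟩)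
  rwa [e] at this

theorem PD.inner {X P : Cx} {Z T : Set X.V} (hX : Cl X.G 3 X.A) (h : PD X P Z T) :
    Core X P (Z \ T) := by
  have hf : Z.Finite := hX.1.subset h.pm.sub
  refine (h.inner_gen hX (W := fun S => cn S S) (fun S hS => cn_nb h.pm hf hS)
    (fun S hS S' hS' hne => ?_) subset_rfl (h.pm.int_con hX).1 ?_).1
  · have hF := bcs_far hS hS' hne
    rintro _ (rfl | ⟨a, ha, rfl⟩) _ (rfl | ⟨b, hb, rfl⟩) (e | e)
    · exact hne (Sum.inr_injective e)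
    · exact e
    · cases e
    · exact hF b e b hb (adq_refl b)
    · cases e
    · exact hF a ha a e (adq_refl a)
    · exact hF a ha b hb (Or.inl (Sum.inl_injective e))
    · exact hF a ha b hb (Or.inr e)
  · ext w
    constructor
    · rintro ⟨q, hq, rfl⟩
      refine ⟨Or.inl ⟨q, hq.1, rfl⟩, fun hu => ?_⟩
      obtain ⟨S, hS, e | ⟨a, ha, e⟩⟩ := Set.mem_iUnion₂.1 hu
      · cases e
      · cases e
        exact hq.2 ((h.pm.bcs_sph hS).1 ha).2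
    · rintro ⟨⟨z, hz, rfl⟩ | ⟨S, hS, rfl⟩, hn⟩
      · exact ⟨z, ⟨hz, fun hT => hn (Set.mem_iUnion₂.2 ⟨_, ⟨z, ⟨hz, hT⟩, rfl⟩,
          Or.inr ⟨z, mem_cmp_self ⟨hz, hT⟩, rfl⟩⟩)⟩, rfl⟩
      · exact (hn (Set.mem_iUnion₂.2 ⟨S, hS, Or.inl rfl⟩)).elim

end Pool.Agent.MP_6374aa_g

end

section

/-! Innermost curves and counting curves. -/

namespace Pool.Agent.MP_6374aa_g

open Pool.Agent.MP_6374aa_gt Classical

variable {V V' : Type} {G : SimpleGraph V} {G' : SimpleGraph V'} {A : Set V} {A' : Set V'}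

theorem split_clopen_GInn {d : ℕ} {c P : Set V} (h : Split G d A c P) : Clopen G (A \ c) P :=
  ⟨h.subset, fun a ha b hb hab =>
    by_contra fun e => h.sep a ha b ⟨hb.1, fun e' => e'.elim hb.2 e⟩ hab⟩

theorem innermost {R C : Set V} (hR : Sph G 3 R) (hC : C ⊆ R) (h1 : Mf G 1 C ∅) (hn : C.Nonempty) :
    ∃ a ∈ C, ∃ P, Sph G 2 (cmp G C a) ∧ Split G 2 R (cmp G C a) P ∧ Disjoint P C ∧ Con G P ∧
      Ball G 3 (cmp G C a ∪ P) (cmp G C a) := by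
  have hsph : ∀ a ∈ C, Sph G 2 (cmp G C a) := fun a ha =>
    ((mf_one_cell (T := ∅) ((Mfa.mono h1 (cmp_subset a)).clopen (clopen_cmp a))
      ((hR.finite.subset hC).subset (cmp_subset a)) (con_cmp ha)).resolve_right
        fun c => c.1.ne_empty (Set.inter_empty _)).2
  have hsub : ∀ a, cmp G C a ⊆ R := fun a => (cmp_subset a).trans hC
  have key : ∀ n, ∀ a ∈ C, ∀ P, Split G 2 R (cmp G C a) P → P.ncard = n →
      ∃ a ∈ C, ∃ P, Split G 2 R (cmp G C a) P ∧ Disjoint P C := by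
    intro n
    induction n using Nat.strong_induction_on with
    | _ n ih =>
    intro a ha P hP e
    by_cases hd : Disjoint P C
    · exact ⟨a, ha, P, hP, hd⟩
    obtain ⟨b, hbP, hb⟩ := Set.not_disjoint_iff.1 hd
    have hfar : Far G (cmp G C a) (cmp G C b) := (cmp_eq_or_far a b).resolve_left fun c =>
      (hP.subset hbP).2 (c ▸ mem_cmp_self hb)
    have h2 : cmp G C b ⊆ P := (con_cmp hb).2.subset_clopen (A := R \ cmp G C a)
      (fun x hx => ⟨hsub b hx, fun c => hfar x c x hx (Or.inl rfl)⟩) (split_clopen_GInn hP)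
      (mem_cmp_self hb) hbP
    have h3 : Con G (cmp G C a ∪ (R \ (cmp G C a ∪ P))) :=
      Cell.con (Cell.side hR (hsph a ha) le_rfl (hsub a) (hP.symm (hsub a))).1
    obtain ⟨P', hP', ha'⟩ : ∃ P', Split G 2 R (cmp G C b) P' ∧ a ∉ P' := by
      obtain ⟨P', hP'⟩ := Cell.exists_split hR (hsph b hb) le_rfl (hsub b)
      by_cases c : a ∈ P'
      · exact ⟨_, hP'.symm (hsub b), fun c' => c'.2 (Or.inr c)⟩
      · exact ⟨P', hP', c⟩
    have h4 : P' ⊆ P := by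
      intro x hx
      by_contra c
      refine ha' (h3.2.subset_clopen ?_ (split_clopen_GInn hP') (x := x) ?_ hx
        (Or.inl (mem_cmp_self ha)))
      · rintro y (hy | hy)
        · exact ⟨hsub a hy, fun c' => hfar y hy y c' (Or.inl rfl)⟩
        · exact ⟨hy.1, fun c' => hy.2 (Or.inr (h2 c'))⟩
      · exact or_iff_not_imp_left.2 fun c' => ⟨(hP'.subset hx).1, fun c'' => c''.elim c' c⟩
    refine ih _ (e ▸ Set.ncard_lt_ncard ⟨h4, fun c => ?_⟩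
      (hR.finite.subset fun x hx => (hP.subset hx).1)) b hb P' hP' rfl
    exact (hP'.subset (c hbP)).2 (mem_cmp_self hb)
  obtain ⟨a, ha⟩ := hn
  obtain ⟨P, hP⟩ := Cell.exists_split hR (hsph a ha) le_rfl (hsub a)
  obtain ⟨b, hb, Q, hQ, hd⟩ := key _ a ha P hP rfl
  obtain ⟨k1, k2⟩ := Cell.side hR (hsph b hb) le_rfl (hsub b) hQ
  exact ⟨b, hb, Q, hsph b hb, hQ, hd, k2, k1.congr fun s _ => or_iff_left not_false⟩

theorem nc_le (hf : A.Finite) (φ : V' → V) (h1 : ∀ x ∈ A', φ x ∈ A)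
    (h2 : ∀ x ∈ A', ∀ y ∈ A', Reach G A (φ x) (φ y) → Reach G' A' x y) : nc G' A' ≤ nc G A := by
  have hψ : ∀ C : Set V', ∃ D : Set V, C ∈ (fun x => cmp G' A' x) '' A' →
      ∃ x ∈ A', cmp G' A' x = C ∧ D = cmp G A (φ x) := by
    intro C
    by_cases hC : C ∈ (fun x => cmp G' A' x) '' A'
    · obtain ⟨x, hx, e⟩ := hC
      exact ⟨_, fun _ => ⟨x, hx, e, rfl⟩⟩
    · exact ⟨∅, fun c => absurd c hC⟩
  choose ψ hψ using hψ
  refine Set.ncard_le_ncard_of_injOn ψ ?_ ?_ (hf.image _)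
  · intro C hC
    obtain ⟨x, hx, -, e⟩ := hψ C hC
    exact ⟨φ x, h1 x hx, e.symm⟩
  · intro C hC D hD e
    obtain ⟨x, hx, rfl, e1⟩ := hψ C hC
    obtain ⟨y, hy, rfl, e2⟩ := hψ D hD
    rw [e1, e2] at e
    have h3 : φ y ∈ cmp G A (φ x) := e ▸ mem_cmp_self (h1 y hy)
    exact (cmp_eq_of_mem (a := x) (b := y) ⟨hy, h2 x hx y hy h3.2⟩).symm

theorem nc_sA (hf : A.Finite) : nc (sG V) (sA G A) = nc G A := by
  apply le_antisymm
  · rcases (sA G A).eq_empty_or_nonempty with e | ⟨s, ⟨a, -⟩, -⟩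
    · rw [e, nc_empty]
      exact Nat.zero_le _
    · have : Nonempty V := ⟨a⟩
      exact nc_le hf (pk A) (fun s hs => hs.2.1 (pk_mem A hs.1)) fun s hs t ht h =>
        (reach_sA hs ht (pk_mem A hs.1) (pk_mem A ht.1)).2 h
  · exact nc_le (sA_finite hf) (fun a => {a}) (fun a ha => singleton_mem_sA.2 ha)
      fun a ha b hb h => (reach_sA (singleton_mem_sA.2 ha) (singleton_mem_sA.2 hb)
        (Finset.mem_singleton_self a) (Finset.mem_singleton_self b)).1 h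

theorem nc_clopen_lt (hf : A.Finite) {X : Set V} (hX : Clopen G A X) {a : V} (ha : a ∈ A \ X) :
    nc G X < nc G A := by
  have key : ∀ x ∈ X, ∀ y ∈ A, Reach G A x y → y ∈ cmp G X x := fun x hx y hy h => by
    rw [hX.cmp_eq hx]
    exact ⟨hy, h⟩
  exact nc_lt hf id hX.1 (fun x hx y hy h => (key x hx y (hX.1 hy) h).2) ha.1
    fun x hx h => ha.2 (key x hx a ha.1 h.symm).1

theorem Sided.clopen {d : ℕ} {c c' : Set V} {σ : V → Set V} (h : Sided G d A c σ) (hd : 1 ≤ d)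
    (hc : Clopen G c c') : Sided G d A c' σ := by
  refine ⟨fun x hx y hy => ?_, fun x hx a ha b hb => ?_,
    fun x hx y hy => h.compat x (hc.1 hx) y (hc.1 hy), fun s hs hd' x hx => ?_⟩
  · have e := h.subset x (hc.1 hx) hy
    exact ⟨e.1, fun c => e.2 (hc.1 c)⟩
  · refine h.sep x (hc.1 hx) a ha b ⟨hb.1, fun c => hb.2 (c.imp_left fun c' => ?_)⟩
    exact hc.2 x hx b c' (hb.1.2 x rfl)
  · obtain ⟨k1, y, k2⟩ := h.two s ⟨hs.1.trans hc.1, hs.2⟩ hd' x hx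
    exact ⟨k1, y, k2.1, fun c => k2.2 (c.imp_left fun c' => hc.1 c')⟩

theorem nc_gen_GInn {C : Set V} {F : Set (Finset V)} {κ : V → Set V} (hf : C.Finite)
    (h1 : ∀ t ∈ F, Meets t C) (h2 : ∀ t ∈ F, ∀ x ∈ t, x ∈ C → ∃ y ∈ t, y ∈ κ x)
    (h3 : ∀ x ∈ C, Pre G (κ x))
    (h4 : ∀ x ∈ C, ∀ y ∈ κ x, ∀ z ∈ κ x, Adq G y z → ({x, y, z} : Finset V) ∈ F)
    (h5 : ∀ x ∈ C, ∀ y ∈ C, G.Adj x y → ∃ t ∈ F, x ∈ t ∧ y ∈ t) : nc (sG V) F ≤ nc G C := by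
  have k0 : ∀ x ∈ C, ∀ y ∈ κ x, ∀ t ∈ F, x ∈ t → y ∈ t → Reach (sG V) F {x, y, y} t :=
    fun x hx y hy t ht a b => Reach.single (h4 x hx y hy y hy (Or.inl rfl)) ht
      (adq_sG.2 (Or.inl (Finset.insert_subset a
        (Finset.insert_subset b (Finset.singleton_subset_iff.2 b)))))
  have k1 : ∀ x ∈ C, ∀ y z, Reach G (κ x) y z → Reach (sG V) F {x, y, y} {x, z, z} := by
    intro x hx y z h
    induction h with
    | refl => exact Reach.refl _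
    | @tail u w _ e ih =>
      have e' := h4 x hx u e.1 w e.2.1 (Or.inr e.2.2)
      exact (ih.trans (k0 x hx u e.1 _ e' (by simp) (by simp))).trans
        (k0 x hx w e.2.1 _ e' (by simp) (by simp)).symm
  have k2 : ∀ x ∈ C, ∀ s ∈ F, ∀ t ∈ F, x ∈ s → x ∈ t → Reach (sG V) F s t := by
    intro x hx s hs t ht a b
    obtain ⟨y, hy, hy'⟩ := h2 s hs x a hx
    obtain ⟨z, hz, hz'⟩ := h2 t ht x b hx
    exact ((k0 x hx y hy' s hs a hy).symm.trans (k1 x hx y z (h3 x hx y hy' z hz'))).trans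
      (k0 x hx z hz' t ht b hz)
  have k3 : ∀ x ∈ C, ∀ s ∈ F, x ∈ s → ∀ y, Reach G C x y → ∀ t ∈ F, y ∈ t →
      Reach (sG V) F s t := by
    intro x hx s hs a y h
    induction h with
    | refl => exact fun t ht b => k2 x hx s hs t ht a b
    | @tail u w _ e ih =>
      intro t ht b
      obtain ⟨r, hr, c1, c2⟩ := h5 u e.1 w e.2.1 e.2.2
      exact (ih r hr c1).trans (k2 w e.2.1 r hr t ht c2 b)
  rcases C.eq_empty_or_nonempty with rfl | ⟨a, -⟩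
  · rw [Set.eq_empty_of_forall_notMem (s := F) fun t ht => (h1 t ht).elim fun x hx => hx.2,
      nc_empty]
    exact Nat.zero_le _
  · have : Nonempty V := ⟨a⟩
    have k4 : ∀ t ∈ F, pk C t ∈ t := fun t ht => pk_mem C ((h1 t ht).imp fun x hx => hx.1)
    exact nc_le hf (pk C) (fun t ht => pk_mem_B (h1 t ht)) fun s hs t ht h =>
      k3 _ (pk_mem_B (h1 s hs)) s hs (k4 s hs) _ h t ht (k4 t ht)

theorem nc_hfr_le {R C : Set V} {κ : V → Set V} (hR : Mf G 2 R ∅) (hC : C ⊆ R) (hf : C.Finite)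
    (h1 : Mf G 1 C ∅) (h : Sided G 2 R C κ) : nc (sG V) (hfr G R C κ) ≤ nc G C := by
  have hk : ∀ x ∈ C, ∀ y ∈ κ x, y ∈ R ∧ G.Adj x y := fun x hx y hy =>
    mem_lk_C1.1 (h.subset x hx hy).1
  refine nc_gen_GInn (κ := κ) hf (fun t ht => ht.1.2.1) (fun t ht x hx hxC => ?_)
    (fun x hx => ?_) (fun x hx y hy z hz hyz => ?_) fun x hx y hy hxy => ?_
  · obtain ⟨y, hy, hyC⟩ := Set.not_subset.1 ht.2
    exact ⟨y, hy, ht.1.2.2 x hx hxC y hy hyC⟩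
  · exact (Cell.side (β := fun _ => False) (mf_empty_iff.1 hR x (hC hx)) (mf_empty_iff.1 h1 x hx)
      (by omega) (lk_mono_C1 hC _) (h.split hx)).2.2
  · exact h.mem_hsd (tri_mem_B3 (hC hx) (hk x hx y hy).1 (hk x hx z hz).1 (Or.inr (hk x hx y hy).2)
      hyz (Or.inr (hk x hx z hz).2)) (by simp) hx (by simp) hy
  · obtain ⟨z, h2, h3⟩ := (h.two {x, y} (pair_mem_sA hx hy (Or.inr hxy)).2
      (Finset.card_pair hxy.ne) x (by simp)).1
    exact ⟨{x, y, z}, h.mem_hsd (tri_mem_B3 (hC hx) (hC hy) h2.1 (Or.inr hxy)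
      (Or.inr (h2.2 y (by simp))) (Or.inr (h2.2 x (by simp)))) (by simp) hx (by simp) h3,
      by simp, by simp⟩

theorem nc_fr_le {R R0 C Q : Set V} (hR : Mf G 2 R ∅) (h0 : R0 ⊆ R) (hf : R0.Finite)
    (h1 : Mf G 2 R0 C) (hQ : R ∩ Q = R0 \ C ∨ R \ Q = R0 \ C) :
    nc (sG V) (fr G R Q) ≤ nc G (R0 ∩ C) := by
  have key : ∀ Q, R ∩ Q = R0 \ C → fr G R Q = fr G R0 C := by
    intro Q e
    apply Set.Subset.antisymm
    · rintro t ⟨ht, ⟨y, hy, hyQ⟩, hn⟩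
      have h2 : y ∈ R0 \ C := e ▸ ⟨ht.2.1 hy, hyQ⟩
      have h3 : Lk G R0 {y} = Lk G R {y} :=
        Cell.subeq (h1.sph_lk h2.1 h2.2) (hR.sph_lk (h0 h2.1) id) (lk_mono_C1 h0 _)
      have h4 : ↑t ⊆ R0 := by
        intro z hz
        rcases (mem_sA.1 ht).2.2 y hy z hz with rfl | c
        · exact h2.1
        · exact (h3 ▸ mem_lk_C1.2 ⟨ht.2.1 hz, c⟩ : z ∈ Lk G R0 {y}).1
      obtain ⟨z, hz, hzQ⟩ := Set.not_subset.1 hn
      refine ⟨⟨ht.1, h4, ht.2.2⟩, ⟨z, hz, by_contra fun c => hzQ ?_⟩, fun c => h2.2 (c hy)⟩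
      exact (e ▸ ⟨h4 hz, c⟩ : z ∈ R ∩ Q).2
    · rintro t ⟨ht, ⟨z, hz, hzC⟩, hn⟩
      obtain ⟨y, hy, hyC⟩ := Set.not_subset.1 hn
      exact ⟨sA_mono h0 ht, ⟨y, hy, (e ▸ ⟨ht.2.1 hy, hyC⟩ : y ∈ R ∩ Q).2⟩,
        fun c => (e ▸ ⟨h0 (ht.2.1 hz), c hz⟩ : z ∈ R0 \ C).2 hzC⟩
  have e : fr G R Q = fr G R0 C := hQ.elim (key Q) fun c => by
    rw [← fr_compl Q]
    exact key _ ((Set.inter_eq_right.2 Set.sdiff_subset).trans c)
  rw [e]
  refine nc_gen_GInn (κ := fun x => Lk G R0 {x} \ C) (hf.subset Set.inter_subset_left)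
    (fun t ⟨ht, ⟨z, hz, hzC⟩, _⟩ => ⟨z, hz, ht.2.1 hz, hzC⟩) (fun t ht x hx hxC => ?_)
    (fun x hx => ?_) (fun x hx y hy z hz hyz => ?_) fun x hx y hy hxy => ?_
  · obtain ⟨y, hy, hyC⟩ := Set.not_subset.1 ht.2.2
    exact ⟨y, hy, mem_lk_C1.2 ⟨ht.1.2.1 hy, ((mem_sA.1 ht.1).2.2 x hx y hy).resolve_left
      fun c => hyC (c ▸ hxC.2)⟩, hyC⟩
  · exact (Cell.rem_bd_con (h1.ball_lk hx.1 hx.2) (by omega)
      fun s hs y hy => (hs.1 hy).2).1.2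
  · exact ⟨tri_mem_B3 hx.1 hy.1.1 hz.1.1 (Or.inr (hy.1.2 x rfl)) hyz (Or.inr (hz.1.2 x rfl)),
      ⟨x, by simp, hx.2⟩, fun c => hy.2 (c (by simp))⟩
  · obtain ⟨t, h2, h3, -, h4⟩ := Mfa.pure h1 (pair_mem_sA hx.1 hy.1 (Or.inr hxy)).2
      ⟨x, by simp, hx.1⟩
    exact ⟨t, ⟨⟨⟨x, h3 (by simp)⟩, h2⟩, ⟨x, h3 (by simp), hx.2⟩, h4⟩, h3 (by simp), h3 (by simp)⟩

end Pool.Agent.MP_6374aa_g

end

section

/-! Transversality after two subdivisions. -/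

namespace Pool.Agent.MP_6374aa_g

open Pool.Agent.MP_6374aa_gt Classical

variable {V V' : Type} {G : SimpleGraph V} {G' : SimpleGraph V'} {A : Set V} {A' : Set V'}

theorem inter_nb_GTr {R Q : Set V} (hRA : R ⊆ A) : sA G R ∩ nb G A Q = nb G R Q := by
  ext s
  exact ⟨fun h => ⟨h.1, h.2.2⟩, fun h => ⟨h.1, sA_mono hRA h.1, h.2⟩⟩

theorem inter_fr_GTr {R Q : Set V} (hRA : R ⊆ A) : sA G R ∩ fr G A Q = fr G R Q := by
  ext s
  exact ⟨fun h => ⟨h.1, h.2.2⟩, fun h => ⟨h.1, sA_mono hRA h.1, h.2⟩⟩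

theorem fr_sub_GTr {Q : Set V} : fr G A Q ⊆ nb G A Q := fun _ h => ⟨h.1, h.2.1⟩

theorem nb_compl_GTr {Q : Set V} {s : Finset V} :
    s ∈ nb G A (A \ Q) ↔ s ∈ sA G A ∧ ¬ ↑s ⊆ Q := by
  refine and_congr_right fun hs => ⟨?_, fun h => ?_⟩
  · rintro ⟨x, hx, hxQ⟩ h
    exact hxQ.2 (h hx)
  · obtain ⟨x, hx, hxQ⟩ := Set.not_subset.1 h
    exact ⟨x, hx, hs.2.1 hx, hxQ⟩

theorem out_GTr {R Q : Set V} (hRA : R ⊆ A) :
    sA (sG V) (sA G R) \ (sA (sG V) (nb G A Q) \ ins (fr G A Q)) =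
      sA (sG V) (nb G R (R \ Q)) := by
  ext τ
  constructor
  · rintro ⟨h1, h2⟩
    refine ⟨h1.1, fun s hs => nb_compl_GTr.2 ⟨h1.2.1 hs, fun hQ => h2 ⟨⟨h1.1, ?_, h1.2.2⟩, ?_⟩⟩,
      h1.2.2⟩
    · intro t ht
      refine ⟨sA_mono hRA (h1.2.1 ht), ?_⟩
      rcases adq_sG.1 ((mem_sA.1 h1).2.2 s hs t ht) with e | e
      · obtain ⟨x, hx⟩ := (h1.2.1 hs).1
        exact ⟨x, e hx, hQ hx⟩
      · obtain ⟨x, hx⟩ := (h1.2.1 ht).1
        exact ⟨x, hx, hQ (e hx)⟩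
    · exact fun e => (e hs).2.2 hQ
  · intro h
    refine ⟨sA_mono (fun s hs => hs.1) h, fun e => e.2 fun s hs => ?_⟩
    exact ⟨(e.1.2.1 hs).1, (e.1.2.1 hs).2, (nb_compl_GTr.1 (h.2.1 hs)).2⟩

theorem tr_of_core {R Q : Set V} (hR : Mf G 2 R ∅) (hRA : R ⊆ A) (hf : R.Finite) :
    Tr (sG (Finset V)) (sA (sG V) (sA G R)) (sA (sG V) (nb G A Q)) (ins (fr G A Q)) ∧
      nc (sG (Finset V)) (sA (sG V) (sA G R) ∩ sA (sG V) (nb G A Q) ∩ ins (fr G A Q)) =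
        nc (sG V) (fr G R Q) := by
  have k : ∀ s ∈ sA G R, s ∈ fr G R Q ↔ s ∈ fr G A Q := fun s hs => by
    rw [← inter_fr_GTr hRA]
    exact ⟨fun h => h.2, fun h => ⟨hs, h⟩⟩
  refine ⟨⟨?_, ?_, ne_sA _ _, ?_⟩, ?_⟩
  · rw [← sA_inter', inter_nb_GTr hRA]
    exact (mf_congr_C5 (hR.nb_empty (Q := Q) (by omega)) fun s hs => k s hs.1).sd (by omega)
  · rw [out_GTr hRA]
    have h1 := hR.nb_empty (Q := R \ Q) (by omega)
    rw [fr_compl] at h1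
    refine mf_congr_C5 ((mf_congr_C5 h1 fun s hs => k s hs.1).sd (by omega)) fun τ hτ => ?_
    exact ⟨fun e => ⟨⟨hτ.1, fun s hs => fr_sub_GTr (e hs), hτ.2.2⟩, e⟩, fun e => e.2⟩
  · rw [← sA_inter]
    exact ne_sA _ _
  · rw [← sA_inter', ← sA_inter, Set.inter_assoc, Set.inter_eq_right.2 fr_sub_GTr,
      inter_fr_GTr hRA]
    exact nc_sA ((sA_finite hf).subset fun s hs => hs.1)

theorem chain_card_GTr {P : Set (Finset V)} {τ : Finset (Finset V)} (h : τ ∈ sA (sG V) P)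
    (hP : ∀ s ∈ P, s.Nonempty) : τ.card ≤ (top τ).card := by
  have : τ.card ≤ (Finset.Icc 1 (top τ).card).card := by
    refine Finset.card_le_card_of_injOn Finset.card (fun s hs => ?_) fun s hs t ht e => ?_
    · exact Finset.mem_coe.2 (Finset.mem_Icc.2
        ⟨(hP s (h.2.1 hs)).card_pos, Finset.card_le_card (subset_top hs)⟩)
    · rcases adq_sG.1 ((mem_sA.1 h).2.2 s hs t ht) with c | c
      · exact Finset.eq_of_subset_of_card_le c e.ge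
      · exact (Finset.eq_of_subset_of_card_le c e.le).symm
  simpa using this

theorem ins_lk_GTr {s : Finset V} (hs : Clq G A s) {y : V} (hy : y ∈ Lk G A s) :
    insert y s ∈ sA G A ∧ s ⊂ insert y s := by
  have hn : y ∉ s := fun e => G.irrefl (hy.2 y e)
  refine ⟨mem_sA.2 ⟨by simp, ?_, ?_⟩, Finset.ssubset_insert hn⟩
  · rw [Finset.coe_insert]
    exact Set.insert_subset hy.1 hs.1
  · intro u hu w hw
    rcases Finset.mem_insert.1 hu with rfl | hu' <;> rcases Finset.mem_insert.1 hw with rfl | hw'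
    · exact adq_refl _
    · exact Or.inr (hy.2 w hw').symm
    · exact Or.inr (hy.2 u hu')
    · exact (clq_iff.1 hs).2 u hu' w hw'

theorem not_hfr_GTr {S : Set V} {σ : V → Set V} {t : Finset V} {x y : V} (hx : x ∈ t)
    (hxS : x ∈ S) (hy : y ∈ t) (hn : y ∉ S ∪ σ x) : t ∉ hfr G A S σ :=
  fun e => hn (Or.inr (e.1.2.2 x hx hxS y hy fun c => hn (Or.inl c)))

theorem lk_pair_GTr {x y a : V} (h : a ∈ Lk G A {x, y}) : a ∈ Lk G A {x} ∧ a ∈ Lk G A {y} :=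
  ⟨mem_lk_C1.2 ⟨h.1, h.2 x (by simp)⟩, mem_lk_C1.2 ⟨h.1, h.2 y (by simp)⟩⟩

theorem Sided.sd {d : ℕ} {β : Finset V → Prop} {S : Set V} {σ : V → Set V} (hSA : S ⊆ A)
    (hS : Mfa G d S β S) (h : Sided G (d + 1) A S σ) :
    Sided (sG V) (d + 1) (sA G A) (sA G S) fun t => Lk (sG V) (sA G A) {t} ∩ hfr G A S σ := by
  refine ⟨fun t _ u hu => ⟨hu.1, fun e => hu.2.2 e.2.1⟩, ?_, ?_, ?_⟩
  · intro t ht a ha b hb hab
    obtain ⟨hbA, htb⟩ := mem_lk_C1.1 hb.1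
    have h1 : ¬ ↑b ⊆ S := fun e => hb.2 (Or.inl ⟨hbA.1, e, hbA.2.2⟩)
    have h2 : Meets b S := by
      rcases htb with e | e
      · obtain ⟨x, hx⟩ := ht.1
        exact ⟨x, e.subset hx, ht.2.1 hx⟩
      · exact absurd (fun x hx => ht.2.1 (e.subset hx)) h1
    exact hb.2 (Or.inr ⟨hb.1, (hfr_clopen h).2 a ha.2 b ⟨hbA, h2, h1⟩ hab⟩)
  · intro x _ y _ _ a ha
    exact and_congr_left fun _ => ⟨fun _ => (lk_pair_GTr ha).2, fun _ => (lk_pair_GTr ha).1⟩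
  · intro τ hτ hc t ht
    have hτ' : τ ∈ sA (sG V) (sA G S) := ⟨⟨t, ht⟩, hτ⟩
    have hs : top τ ∈ sA G S := hτ.1 (top_mem hτ')
    obtain ⟨x, hx⟩ := hs.1
    have hxS : x ∈ S := hs.2.1 hx
    have h1 := (hS.link hs.2 ⟨x, hx, hxS⟩).1
    have h2 := chain_card_GTr hτ' fun s hs => hs.1
    have hsA : Clq G A (top τ) := (sA_mono hSA hs).2
    obtain ⟨⟨y, hy, hyσ⟩, z, hz, hzσ⟩ := h.two (top τ) hs.2 (by omega) x hx
    have k : ∀ y ∈ Lk G A (top τ), insert y (top τ) ∈ Lk (sG V) (sA G A) τ := fun y hy =>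
      ⟨(ins_lk_GTr hsA hy).1, fun u hu =>
        Or.inl (lt_of_le_of_lt (subset_top hu) (ins_lk_GTr hsA hy).2)⟩
    refine ⟨⟨_, k y hy, mem_lk_C1.2 ⟨(k y hy).1, (k y hy).2 t ht⟩, ?_⟩, _, k z hz, ?_⟩
    · exact h.mem_hsd (k y hy).1 (Finset.mem_insert_of_mem hx) hxS (Finset.mem_insert_self _ _) hyσ
    · rintro (e | e)
      · exact hzσ (Or.inl (e.2.1 (by simp)))
      · exact not_hfr_GTr (Finset.mem_insert_of_mem hx) hxS (Finset.mem_insert_self _ _) hzσ e.2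

theorem sided_fr {d : ℕ} {β : Finset V → Prop} {Q : Set V} {F : Set (Finset V)}
    (hA : Mfa G (d + 1) A β A) (hd : d ≤ 2) (hF : Clopen (sG V) (fr G A Q) F) :
    Sided (sG V) (d + 1) (sA G A) F fun t => Lk (sG V) (sA G A) {t} ∩ ins Q := by
  refine ⟨fun t _ u hu => ⟨hu.1, fun e => (hF.1 e).2.2 hu.2⟩, ?_, ?_, ?_⟩
  · intro t ht a ha b hb hab
    obtain ⟨hbA, htb⟩ := mem_lk_C1.1 hb.1
    have h1 : ¬ ↑b ⊆ Q := fun e => hb.2 (Or.inr ⟨hb.1, e⟩)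
    have h2 : ¬ Meets b Q := fun e => hb.2 (Or.inl (hF.2 t ht b ⟨hbA, e, h1⟩ htb))
    rcases hab with e | e
    · obtain ⟨x, hx⟩ := ha.1.1.1
      exact h2 ⟨x, e.subset hx, ha.2 hx⟩
    · exact h1 fun x hx => ha.2 (e.subset hx)
  · intro x _ y _ _ a ha
    exact and_congr_left fun _ => ⟨fun _ => (lk_pair_GTr ha).2, fun _ => (lk_pair_GTr ha).1⟩
  · intro τ hτ _ t ht
    obtain ⟨m, hm, hb⟩ := exists_bot (P := F) ⟨⟨t, ht⟩, hτ⟩
    have hmF := hF.1 (hτ.1 hm)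
    obtain ⟨q, hq, p, hp, hqQ, hpQ, h2⟩ := two_le_C2 hmF.2.1 hmF.2.2
    have k : ∀ y ∈ m, {y} ∈ Lk (sG V) (sA G A) τ := fun y hy =>
      ⟨singleton_mem_sA.2 (hmF.1.2.1 hy), fun u hu => Or.inr (lt_of_lt_of_le
        (ss_C2 (Finset.singleton_subset_iff.2 hy) (by rw [Finset.card_singleton]; omega))
        (hb u hu))⟩
    refine ⟨⟨_, k q hq, mem_lk_C1.2 ⟨(k q hq).1, (k q hq).2 t ht⟩, ?_⟩, _, k p hp, ?_⟩
    · simpa [ins] using hqQ
    · rintro (e | e)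
      · obtain ⟨x, hx, hxQ⟩ := (hF.1 e).2.1
        exact hpQ (Finset.mem_singleton.1 hx ▸ hxQ)
      · exact hpQ (e.2 (by simp))

theorem Sided.congr_GTr {d : ℕ} {c : Set V} {σ σ' : V → Set V} (h : Sided G d A c σ)
    (he : ∀ x ∈ c, σ' x = σ x) : Sided G d A c σ' := by
  refine ⟨fun x hx => he x hx ▸ h.subset x hx, fun x hx => he x hx ▸ h.sep x hx, ?_, ?_⟩
  · intro x hx y hy
    rw [he x hx, he y hy]
    exact h.compat x hx y hy
  · intro s hs hc x hx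
    rw [he x (hs.1 hx)]
    exact h.two s hs hc x hx

theorem inter_lk_GTr {R s : Set V} (hRA : R ⊆ A) : R ∩ Lk G A s = Lk G R s := by
  ext x
  exact ⟨fun h => ⟨h.1, h.2.2⟩, fun h => ⟨h.1, hRA h.1, h.2⟩⟩

theorem inter_hfr_GTr {R S : Set V} {σ : V → Set V} (hRA : R ⊆ A) :
    sA G R ∩ hfr G A S σ = hfr G R (R ∩ S) fun x => R ∩ σ x := by
  ext t
  constructor
  · rintro ⟨h1, ⟨-, ⟨x, hx, hxS⟩, h2⟩, h3⟩
    exact ⟨⟨h1, ⟨x, hx, h1.2.1 hx, hxS⟩, fun u hu huS y hy hyS =>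
      ⟨h1.2.1 hy, h2 u hu huS.2 y hy fun e => hyS ⟨h1.2.1 hy, e⟩⟩⟩,
      fun e => h3 fun y hy => (e hy).2⟩
  · rintro ⟨⟨h1, ⟨x, hx, hxS⟩, h2⟩, h3⟩
    exact ⟨h1, ⟨sA_mono hRA h1, ⟨x, hx, hxS.2⟩, fun u hu huS y hy hyS =>
      (h2 u hu ⟨h1.2.1 hu, huS⟩ y hy fun e => hyS e.2).2⟩,
      fun e => h3 fun y hy => ⟨h1.2.1 hy, e hy⟩⟩

theorem trs_of_fr {R Q : Set V} {F : Set (Finset V)} (hA : Mf G 3 A ∅) (hR : Mf G 2 R ∅)
    (hRA : R ⊆ A) (hf : R.Finite) (hF : Clopen (sG V) (fr G A Q) F) :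
    ∃ τ, TrS (sG (Finset V)) (sA (sG V) (sA G A)) (sA (sG V) (sA G R)) (sA (sG V) F) τ ∧
      nc (sG (Finset V)) (sA (sG V) (sA G R) ∩ sA (sG V) F) = nc (sG V) (sA G R ∩ F) := by
  have hFA : F ⊆ sA G A := fun s hs => (hF.1 hs).1
  have hRA1 : sA G R ⊆ sA G A := sA_mono hRA
  have m1 : Mf (sG V) 2 F ∅ :=
    Mfa.clopen (Mfa.mono (Mf.fr_empty (d := 2) (Q := Q) hA le_rfl) hF.1) hF
  have hF' : Clopen (sG V) (fr G R Q) (sA G R ∩ F) := by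
    rw [← inter_fr_GTr hRA]
    exact ⟨fun s hs => ⟨hs.1, hF.1 hs.2⟩, fun a ha b hb e => ⟨hb.1, hF.2 a ha.2 b hb.2 e⟩⟩
  have m2 : Mf (sG V) 1 (sA G R ∩ F) ∅ :=
    Mfa.clopen (Mfa.mono (Mf.fr_empty (d := 1) (Q := Q) hR (by omega)) hF'.1) hF'
  have s1 := Sided.sd hFA m1 (sided_fr (d := 2) hA le_rfl hF)
  have s2 := Sided.sd Set.inter_subset_left m2 (sided_fr (d := 1) hR (by omega) hF')
  refine ⟨_, ⟨s1, ne_sA _ _, ?_, ?_⟩, ?_⟩
  · rw [← sA_inter']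
    exact m2.sd_empty (by omega)
  · rw [← sA_inter']
    refine s2.congr_GTr fun x _ => ?_
    rw [Set.inter_inter_distrib_left, inter_lk_GTr (sA_mono hRA1), inter_hfr_GTr hRA1]
    simp only [← Set.inter_assoc, inter_lk_GTr hRA1]
  · rw [← sA_inter']
    exact nc_sA ((sA_finite hf).inter_of_left F)

theorem TrS.symm {R S : Set V} {τ : V → Set V} (h : TrS G A R S τ) (hR : R ⊆ A) (hS : S ⊆ A) :
    TrS G A R S fun x => Lk G A {x} \ (S ∪ τ x) := by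
  refine ⟨h.sided.symm hS, h.ne, h.curve,
    (h.cross.symm Set.inter_subset_left).congr_GTr fun x _ => ?_⟩
  rw [← inter_lk_GTr hR]
  ext y
  simp only [Set.mem_inter_iff, Set.mem_sdiff, Set.mem_union]
  tauto

theorem hfr_nonsep {S : Set V} {σ : V → Set V} (hSA : S ⊆ A) (hS : Sph G 3 S)
    (h : Sided G 3 A S σ) (hc : Con G (A \ S)) : Con (sG V) (sA G A \ hfr G A S σ) := by
  have hs : sA G (A \ S) ⊆ sA G A \ hfr G A S σ := by
    intro t ht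
    refine ⟨sA_mono Set.sdiff_subset ht, fun e => ?_⟩
    obtain ⟨x, hx, hxS⟩ := e.1.2.1
    exact (ht.2.1 hx).2 hxS
  have c1 := con_sA.2 hc
  have k : ∀ t ∈ sA G A \ hfr G A S σ, ∀ y ∈ t, y ∉ S →
      ∃ u ∈ sA G (A \ S), Reach (sG V) (sA G A \ hfr G A S σ) t u := by
    intro t ht y hy hyS
    have : {y} ∈ sA G (A \ S) := singleton_mem_sA.2 ⟨ht.1.2.1 hy, hyS⟩
    exact ⟨_, this, Reach.single ht (hs this) (adq_sG.2 (Or.inr (by simpa using hy)))⟩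
  refine ⟨c1.1.mono hs, c1.2.of_near hs fun t ht => ?_⟩
  by_cases e : ↑t ⊆ S
  · obtain ⟨s, hs1, hts, hs3, -⟩ := Cell.pure hS (s := t) ⟨e, ht.1.2.2⟩
    obtain ⟨x, hx⟩ := ht.1.1
    obtain ⟨-, z, hz, hzσ⟩ := h.two s hs1 hs3 x (hts hx)
    obtain ⟨h1, h2⟩ := ins_lk_GTr (A := A) ⟨hs1.1.trans hSA, hs1.2⟩ hz
    have h3 : insert z s ∈ sA G A \ hfr G A S σ := ⟨h1,
      not_hfr_GTr (Finset.mem_insert_of_mem (hts hx)) (e hx) (Finset.mem_insert_self _ _) hzσ⟩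
    obtain ⟨u, hu, hr⟩ := k _ h3 z (Finset.mem_insert_self _ _) fun c => hzσ (Or.inl c)
    exact ⟨u, hu, (Reach.single ht h3 (adq_sG.2 (Or.inl (hts.trans h2.subset)))).trans hr⟩
  · obtain ⟨y, hy, hyS⟩ := Set.not_subset.1 e
    exact k t ht y hy hyS

theorem nonsep_sd {S : Set V} (hSA : S ⊆ A) (hc : Con G (A \ S)) :
    Con (sG V) (sA G A \ sA G S) := by
  have e : sA G A \ sA G S = nb G A (A \ S) := by
    ext t
    rw [nb_compl_GTr]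
    exact and_congr_right fun ht => not_congr ⟨fun c => c.2.1, fun c => ⟨ht.1, c, ht.2.2⟩⟩
  rw [e]
  obtain ⟨a, ha⟩ := hc.1
  refine ⟨⟨{a}, singleton_mem_sA.2 ha.1, a, by simp, ha⟩, pre_nb.2 ?_⟩
  rw [Set.inter_eq_right.2 Set.sdiff_subset]
  exact hc.2

end Pool.Agent.MP_6374aa_g

end

section

/-! Kneser-Milnor surgery along one sphere. -/

namespace Pool.Agent.MP_6374aa_g

open Pool.Agent.MP_6374aa_gt Classical

theorem ball_congr_GStep {V : Type} {G : SimpleGraph V} {A T T' : Set V} {d : ℕ}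
    (h : Ball G d A T) (hT : ∀ a ∈ A, a ∈ T ↔ a ∈ T') : Ball G d A T' :=
  Cell.congr h fun _ hs => ⟨fun h1 a ha => (hT a (hs.1 ha)).1 (h1 ha),
    fun h1 a ha => (hT a (hs.1 ha)).2 (h1 ha)⟩

theorem cnt_GStep {V : Type} {G : SimpleGraph V} {R R1 R0 C Q : Set V} (hR : Sph G 3 R)
    (h1 : R1 ⊆ R) (hm : Mf G 2 R1 C) (h0 : Clopen G R1 R0) {a : V} (ha : a ∈ R1 ∩ C)
    (ha' : a ∉ R0) (hQ : R ∩ Q = R0 \ C ∨ R \ Q = R0 \ C) :
    nc (sG V) (fr G R Q) < nc G (R1 ∩ C) := by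
  have hf := Cell.finite hR
  refine (nc_fr_le hR.mf (h0.1.trans h1) (hf.subset (h0.1.trans h1))
    (Mfa.clopen (Mfa.mono hm h0.1) h0) hQ).trans_lt
      (nc_clopen_lt (hf.subset (Set.inter_subset_left.trans h1)) ?_ ⟨ha, fun h => ha' h.1⟩)
  exact ⟨Set.inter_subset_inter_left _ h0.1, fun x hx y hy hxy => ⟨h0.2 x hx.1 y hy.1 hxy, hy.2⟩⟩

theorem side_GStep {X : Cx} {Z T W : Set X.V} (hX : Cl X.G 3 X.A) (h : PM X Z T) (hW : W ⊆ X.A)
    (hp : Pre X.G W) (hd : ∀ x ∈ W, x ∈ Z → x ∉ T) : W ⊆ Z ∨ Disjoint W Z := by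
  by_cases hn : Disjoint W Z
  · exact Or.inr hn
  obtain ⟨x, hx, hx'⟩ := Set.not_disjoint_iff.1 hn
  refine Or.inl fun y hy => ?_
  have key := hp.const (φ := fun v => v ∈ Z) (fun a ha b hb hab => propext
    ⟨fun k => h.adj_int hX ⟨k, hd a ha k⟩ (hW hb) hab,
      fun k => h.adj_int hX ⟨k, hd b hb k⟩ (hW ha) hab.symm⟩) hx hy
  exact key ▸ hx'

theorem km_step {X P : Cx} {R Z T : Set X.V} (hX : Cl X.G 3 X.A) (hP : P.Prime) (hR : Sph X.G 3 R)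
    (hRA : R ⊆ X.A) (h : PD X P Z T) (ht : Tr X.G R Z T) (hn : (R ∩ Z ∩ T).Nonempty) :
    (NSP P ∧ X.NonSep) ∨ ∃ Q, Core X P Q ∧ nc (sG X.V) (fr X.G R Q) < nc X.G (R ∩ Z ∩ T) := by
  obtain ⟨a, ha, W, -, h2, h3, h4, h5⟩ := innermost hR
    (Set.inter_subset_left.trans Set.inter_subset_left) (ht.ins.bd (by norm_num)) hn
  have hc := cmp_subset (G := X.G) (A := R ∩ Z ∩ T) a
  have hac := mem_cmp_self (G := X.G) ha
  generalize cmp X.G (R ∩ Z ∩ T) a = c at h2 h5 hc hac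
  have hWR : W ⊆ R := fun x hx => (h2.subset hx).1
  have hER : c ∪ W ⊆ R := Set.union_subset (fun x hx => (hc hx).1.1) hWR
  have hd : ∀ x ∈ W, x ∈ Z → x ∉ T := fun x hx k1 k2 =>
    Set.disjoint_left.1 h3 hx ⟨⟨hWR hx, k1⟩, k2⟩
  have hne : ∀ Y : Set X.V, c ⊆ Y → NE X.G R Y → NE X.G (c ∪ W) Y := fun Y k1 k2 x hx y hy hxy => by
    have hxW : x ∈ W := hx.1.resolve_left fun k => hx.2 (k1 k)
    by_cases hyR : y ∈ R
    · exact h2.sep x hxW y ⟨hyR, hy.2⟩ hxy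
    · exact k2 x ⟨hWR hxW, hx.2⟩ y ⟨hy.1, hyR⟩ hxy
  rcases side_GStep hX h.pm (hWR.trans hRA) h4.2 hd with hW | hW
  · have hEZ : c ∪ W ⊆ Z := Set.union_subset (fun x hx => (hc hx).1.2) hW
    have hb : Ball X.G 3 (c ∪ W) T := ball_congr_GStep h5 fun x hx =>
      ⟨fun k => (hc k).2, fun k => hx.resolve_right fun k' => hd x k' (hW k') k⟩
    refine (surg_in hX hP h hEZ hb (hne _ (fun x hx => ⟨(hc hx).1.2, (hc hx).2⟩) ht.ne2)).imp_right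
      fun ⟨Z1, _, k2, k3⟩ => ⟨_, k3.inner hX, ?_⟩
    have hE : Clopen X.G (R ∩ Z) (c ∪ W) :=
      Mfa.clopen_of_sub (Cell.mfa hb) (Mfa.mono ht.ins (Set.subset_inter hER hEZ))
        (Set.subset_inter hER hEZ)
    refine cnt_GStep (R0 := R ∩ (Z1 \ (c ∪ W))) hR Set.inter_subset_left ht.ins
      ⟨fun x hx => ⟨hx.1, (k2.1 hx.2).1⟩, fun x hx y hy hxy => ⟨hy.1, k2.2 x hx.2 y ⟨hy.2,
        fun k => hx.2.2 (hE.2 y k x ⟨hx.1, (k2.1 hx.2).1⟩ hxy.symm)⟩ hxy⟩⟩ ha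
      (fun k => k.2.2 (Or.inl hac)) (Or.inl ?_)
    ext x
    simp only [Set.mem_inter_iff, Set.mem_sdiff, Set.mem_union]
    tauto
  · have hcZ : ∀ x ∈ c ∪ W, x ∈ Z → x ∈ c := fun x hx k =>
      hx.resolve_right fun k' => Set.disjoint_left.1 hW k' k
    have hb : Ball X.G 3 (c ∪ W) Z := ball_congr_GStep h5 fun x hx =>
      ⟨fun k => (hc k).1.2, hcZ x hx⟩
    have hb' : Ball X.G 3 (c ∪ W) (Z ∩ T) := ball_congr_GStep h5 fun x hx =>
      ⟨fun k => ⟨(hc k).1.2, (hc k).2⟩, fun k => hcZ x hx k.1⟩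
    refine Or.inr ⟨_, surg_out hX h (hER.trans hRA) hb (fun x hx => (hc (hcZ x hx.1 hx.2)).2)
      (hne _ (fun x hx => (hc hx).1.2) ht.ne1), ?_⟩
    have hs : c ∪ W ⊆ R \ (Z \ T) := fun x hx => ⟨hER hx, fun k => k.2 (hc (hcZ x hx k.1)).2⟩
    have e : R ∩ Z ∩ T = R \ (Z \ T) ∩ (Z ∩ T) := by
      ext x
      simp only [Set.mem_inter_iff, Set.mem_sdiff]
      tauto
    rw [e] at ha ⊢
    refine cnt_GStep hR Set.sdiff_subset ht.out
      (Mfa.clopen_of_sub (Cell.mfa hb') (Mfa.mono ht.out hs) hs).diff ha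
      (fun k => k.2 (Or.inl hac)) (Or.inr ?_)
    ext x
    simp only [Set.mem_inter_iff, Set.mem_sdiff, Set.mem_union]
    tauto

theorem km_end {H : Hv} (hH : H.Valid) {P : Cx} (hP : P.Prime) {Z T : Set H.V}
    (h : PD H.X P Z T) (ht : Tr H.G (H.X1 ∩ H.X2) Z T) (hn : H.X1 ∩ H.X2 ∩ Z ∩ T = ∅) :
    Punct H.Y1 P ∨ Punct H.Y2 P := by
  have hd : ∀ x ∈ H.X1 ∩ H.X2, x ∈ Z → x ∉ T := fun x hx k1 k2 =>
    Set.eq_empty_iff_forall_notMem.1 hn x ⟨⟨hx, k1⟩, k2⟩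
  have h1 : H.X1 ⊆ H.A1 := hH.eq1 ▸ Set.subset_union_left
  have h2 : H.X2 ⊆ H.A2 := hH.eq2 ▸ Set.subset_union_left
  have h3 : H.X1 ∩ H.X2 ⊆ H.A := hH.eq ▸ Set.inter_subset_left.trans Set.subset_union_left
  rcases side_GStep (X := H.X) hH.cl h.pm h3 (Cell.con hH.sph).2 hd with hW | hW
  · refine (surg_sph hH hP h hW (ht.ne2.far (Set.disjoint_left.2 fun x hx k =>
      hd x hx k.1 k.2))).imp (fun k => ?_) fun k => ?_
    · exact punct_iff.2 ⟨_, _, PD.amb k (Set.inter_subset_right.trans h1)⟩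
    · exact punct_iff.2 ⟨_, _, PD.amb k (Set.inter_subset_right.trans h2)⟩
  · refine (hH.side h.pm.sub h.pm.con.2 hW.symm).imp (fun k => ?_) fun k => ?_
    · exact punct_iff.2 ⟨_, _, PD.amb h ((k.trans Set.sdiff_subset).trans h1)⟩
    · exact punct_iff.2 ⟨_, _, PD.amb h ((k.trans Set.sdiff_subset).trans h2)⟩

theorem ind_GStep {P : Cx} (hP : P.Prime) (n : ℕ) : ∀ H : Hv, H.Valid → ∀ Q : Set H.V,
    Core H.X P Q → nc (sG H.V) (fr H.G (H.X1 ∩ H.X2) Q) = n →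
      PunctE H.Y1 P ∨ PunctE H.Y2 P ∨ (NSP P ∧ NSE H.X) := by
  induction n using Nat.strong_induction_on with
  | _ n ih =>
  intro H hH Q hQ hn
  have h2 := hH.sd.sd
  have h3 : H.X1 ∩ H.X2 ⊆ H.A := hH.eq ▸ Set.inter_subset_left.trans Set.subset_union_left
  have h4 : H.sd.sd.X1 ∩ H.sd.sd.X2 ⊆ H.sd.sd.A :=
    h2.eq ▸ Set.inter_subset_left.trans Set.subset_union_left
  have hd : PD H.sd.sd.X P (sA (sG H.V) (nb H.G H.A Q)) (ins (fr H.G H.A Q)) :=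
    hQ.2.sd ((sA_finite hH.cl.1).subset fun _ h => h.1)
  obtain ⟨t1, t2⟩ := tr_of_core (Q := Q) hH.sph.mf h3 (Cell.finite hH.sph)
  have e : sA (sG H.V) (sA H.G (H.X1 ∩ H.X2)) = H.sd.sd.X1 ∩ H.sd.sd.X2 := by
    rw [sA_inter', sA_inter']
    rfl
  rw [e] at t1 t2
  rcases Set.eq_empty_or_nonempty (H.sd.sd.X1 ∩ H.sd.sd.X2 ∩ sA (sG H.V) (nb H.G H.A Q) ∩
    ins (fr H.G H.A Q)) with h0 | h0
  · exact (km_end h2 hP hd t1 h0).imp (fun k => ⟨2, k⟩) fun k => Or.inl ⟨2, k⟩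
  rcases km_step (X := H.sd.sd.X) h2.cl hP h2.sph h4 hd t1 h0 with k | ⟨Q', k1, k2⟩
  · exact Or.inr (Or.inr ⟨k.1, 2, k.2⟩)
  · exact (ih _ (k2.trans_eq (t2.trans hn)) _ h2 Q' k1 rfl).imp (PunctE.of_iter (k := 2))
      (Or.imp (PunctE.of_iter (k := 2)) (And.imp_right (NSE.of_iter (k := 2))))

theorem km_graft {H : Hv} (hH : H.Valid) {P : Cx} (hP : P.Prime) (h : PunctE H.X P) :
    PunctE H.Y1 P ∨ PunctE H.Y2 P ∨ (NSP P ∧ NSE H.X) := by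
  obtain ⟨k, h⟩ := h
  obtain ⟨e1, e2, e3⟩ := hv_iter H k
  rw [← e1] at h
  obtain ⟨Z, T, h⟩ := punct_iff.1 h
  have key := ind_GStep hP _ _ (hH.iter k) Z (h.core (hH.iter k).cl) rfl
  rw [e1, e2, e3] at key
  exact key.imp PunctE.of_iter (Or.imp PunctE.of_iter (And.imp_right NSE.of_iter))

end Pool.Agent.MP_6374aa_g

end

section

/-! Surgery on a non separating sphere. -/

namespace Pool.Agent.MP_6374aa_g

open Pool.Agent.MP_6374aa_gt Classical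

variable {V V' : Type} {G : SimpleGraph V} {G' : SimpleGraph V'} {A : Set V} {A' : Set V'}

/-- Two systems of sides along a curve in a sphere agree or are opposite. -/
theorem sides_GNs {R c : Set V} {σ κ : V → Set V} (hR : Sph G 3 R) (hc : Sph G 2 c) (hcR : c ⊆ R)
    (h1 : Sided G 2 R c σ) (h2 : Sided G 2 R c κ) :
    (∀ x ∈ c, σ x = κ x) ∨ ∀ x ∈ c, σ x = Lk G R {x} \ (Lk G c {x} ∪ κ x) := by
  have loc : ∀ x ∈ c, σ x = κ x ∨ σ x = Lk G R {x} \ (Lk G c {x} ∪ κ x) := fun x hx => by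
    have a1 : Sph G 2 (Lk G R {x}) := hR.mf.sph_lk (hcR hx) id
    have a2 : Sph G 1 (Lk G c {x}) := hc.mf.sph_lk hx id
    have a3 := lk_mono_C1 (G := G) hcR {x}
    obtain ⟨t, t1, -, t2, -⟩ := Cell.pure a2 clq_empty_C1
    exact (h2.split hx).unique (h1.split hx) (Cell.side a1 a2 (by norm_num) a3 (h2.split hx)).2.2
      (Cell.side a1 a2 (by norm_num) a3 ((h2.split hx).symm a3)).2.2 ⟨t, t1, t2⟩
  have step : ∀ x ∈ c, ∀ y ∈ c, G.Adj x y → σ x = κ x → σ y = κ y := fun x hx y hy hxy e => by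
    obtain ⟨⟨a, a1, a2⟩, -⟩ := h2.two {x, y}
      (mem_sA_iff_clq.1 (pair_mem_sA hx hy (Or.inr hxy))).2 (Finset.card_pair hxy.ne) x
      (Finset.mem_insert_self _ _)
    rw [Finset.coe_pair] at a1
    refine (loc y hy).resolve_right fun k => ?_
    have a3 := (h1.compat x hx y hy hxy a a1).1 (e.symm ▸ a2)
    rw [k] at a3
    exact a3.2 (Or.inr ((h2.compat x hx y hy hxy a a1).1 a2))
  refine or_iff_not_imp_right.2 fun k x hx => ?_
  push Not at k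
  obtain ⟨y, hy, k⟩ := k
  exact ((Cell.con hc).2.const (φ := fun x => σ x = κ x) (fun a ha b hb e =>
    propext ⟨step a ha b hb e, step b hb a ha e.symm⟩) hy hx).mp ((loc y hy).resolve_right k)

theorem core_GNs {R S c P0 : Set V} {τ : V → Set V} (hA : Cl G 3 A) (hR : Sph G 3 R)
    (hRA : R ⊆ A) (hS : Sph G 3 S) (hSA : S ⊆ A) (h : TrS G A R S τ) (hc : Con G (A \ S))
    (c1 : Clopen G (R ∩ S) c) (c2 : Sph G 2 c) (p1 : Split G 2 R c P0) (p2 : Disjoint P0 (R ∩ S))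
    (p3 : Ball G 3 (c ∪ P0) c) (p4 : ∀ x ∈ c, P0 ∩ Lk G R {x} = R ∩ τ x) :
    ∃ (Q : Set V) (F : Set (Finset V)), Clopen (sG V) (fr G A Q) F ∧ Sph (sG V) 3 F ∧
      Con (sG V) (sA G A \ F) ∧ nc (sG V) (sA G R ∩ F) < nc G (R ∩ S) := by
  have q0 : ∀ x ∈ P0, x ∉ S := fun x hx k =>
    Set.disjoint_left.1 p2 hx ⟨(p1.subset hx).1, k⟩
  have q1 : c ∪ P0 ⊆ R := Set.union_subset (fun x hx => (c1.1 hx).1) fun x hx => (p1.subset hx).1
  have q2 : (c ∪ P0) ∩ S = c := Set.ext fun x =>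
    ⟨fun k => k.1.resolve_right fun e => q0 x e k.2, fun k => ⟨Or.inl k, (c1.1 k).2⟩⟩
  have att : Att G A S (c ∪ P0) τ := by
    refine ⟨hA.2.2, hSA, q1.trans hRA, hS, Cell.congr p3 fun s hs => ?_, ?_, h.sided, ?_⟩
    · exact ⟨fun k x hx => (c1.1 (k hx)).2, fun k x hx => q2.le ⟨hs.1 hx, k hx⟩⟩
    · intro a ha b hb
      by_cases k : b ∈ R
      · exact p1.sep a (ha.1.resolve_left fun e => ha.2 (c1.1 e).2) b ⟨k, hb.2⟩
      · exact h.ne a ⟨q1 ha.1, ha.2⟩ b ⟨hb.1, k⟩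
    · intro x hx y hy e
      exact ((p4 x (q2.le hx)).le ⟨hy.1.resolve_left fun e => hy.2 (c1.1 e).2,
        mem_lk_C1.2 ⟨q1 hy.1, e⟩⟩).2
  obtain ⟨P, s1, s2⟩ : ∃ P, Split G 2 S ((c ∪ P0) ∩ S) P ∧ Con G (A \ ((c ∪ P0) ∪ P)) := by
    obtain ⟨P, hP⟩ := Cell.exists_split hS c2 le_rfl fun x hx => (c1.1 hx).2
    rw [← q2] at hP
    exact (att.nonsep hA hP rfl hc).elim (fun k => ⟨_, hP, k⟩)
      fun k => ⟨_, hP.symm Set.inter_subset_right, k⟩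
  obtain ⟨σ, hσ⟩ := att.sect s1
  have s3 := (disc_union_sph hS att.ball att.ne s1).1
  have s4 : (c ∪ P0) ∪ P ⊆ A := Set.union_subset att.subE fun x hx => hSA (s1.subset hx).1
  rw [q2] at s1
  refine ⟨_, _, hfr_clopen hσ.sided,
    hfr_sph ((mf_empty_iff.1 hA.2.2).mono s4) s4 s3 hσ.sided, hfr_nonsep s4 s3 hσ.sided s2, ?_⟩
  have e : sA G R ∩ hfr G A ((c ∪ P0) ∪ P) σ = hfr G R (R ∩ P) fun x => R ∩ τ x := by
    ext t
    constructor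
    · rintro ⟨h0, ⟨-, ⟨x, x1, x2⟩, h1⟩, h2⟩
      obtain ⟨y, y1, y2⟩ := Set.not_subset.1 h2
      have key : ∀ z ∈ t, z ∈ (c ∪ P0) ∪ P → z ∈ P := fun z hz k => by
        rcases k with (k | k) | k
        · exact absurd (Or.inl (Or.inr ((p4 z k).ge ⟨h0.2.1 y1, hσ.le z (q2.ge k)
            (h1 z hz (Or.inl (Or.inl k)) y y1 y2)⟩).1)) y2
        · refine absurd (((mem_sA.1 h0).2.2 z hz y y1).resolve_left ?_)
            (p1.sep z k y ⟨h0.2.1 y1, fun k => y2 (Or.inl k)⟩)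
          rintro rfl
          exact y2 (Or.inl (Or.inr k))
        · exact k
      refine ⟨⟨h0, ⟨x, x1, h0.2.1 x1, key x x1 x2⟩, fun u u1 u2 w w1 w2 => ⟨h0.2.1 w1, ?_⟩⟩,
        fun k => y2 (Or.inr (k y1).2)⟩
      rw [← hσ.eq u u2.2]
      exact h1 u u1 (Or.inr u2.2) w w1 fun k => w2 ⟨h0.2.1 w1, key w w1 k⟩
    · rintro ⟨⟨h0, ⟨x, x1, x2⟩, h1⟩, h2⟩
      obtain ⟨y, y1, y2⟩ := Set.not_subset.1 h2
      exact ⟨h0, hσ.sided.mem_hsd (sA_mono hRA h0) x1 (Or.inr x2.2) y1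
        ((hσ.eq x x2.2).ge (h1 x x1 x2 y y1 y2).2)⟩
  have cl : Clopen G (R ∩ S) (R ∩ P) := by
    refine ⟨fun x hx => ⟨hx.1, (s1.subset hx.2).1⟩, fun a ha b hb e => ⟨hb.1, ?_⟩⟩
    by_contra k
    exact s1.sep a ha.2 b ⟨hb.2, fun k' => k'.elim (fun k' => (s1.subset ha.2).2
      (c1.2 b k' a ⟨ha.1, (s1.subset ha.2).1⟩ e.symm)) k⟩ e
  obtain ⟨a, ha⟩ := Cell.nonempty c2
  rw [e]
  exact (nc_hfr_le hR.mf Set.inter_subset_left ((Cell.finite hR).subset Set.inter_subset_left)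
    ((Mfa.mono h.curve cl.1).clopen cl) (h.cross.clopen (by norm_num) cl)).trans_lt
    (nc_clopen_lt ((Cell.finite hR).subset Set.inter_subset_left) cl
      ⟨c1.1 ha, fun k => (s1.subset k.2).2 ha⟩)

theorem ns_step {R S : Set V} {τ : V → Set V} (hA : Cl G 3 A) (hR : Sph G 3 R) (hRA : R ⊆ A)
    (hS : Sph G 3 S) (hSA : S ⊆ A) (h : TrS G A R S τ) (hc : Con G (A \ S))
    (hn : (R ∩ S).Nonempty) :
    ∃ (Q : Set V) (F : Set (Finset V)), Clopen (sG V) (fr G A Q) F ∧ Sph (sG V) 3 F ∧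
      Con (sG V) (sA G A \ F) ∧ nc (sG V) (sA G R ∩ F) < nc G (R ∩ S) := by
  obtain ⟨a, -, P0, h1, h2, h3, -, h4⟩ := innermost hR Set.inter_subset_left h.curve hn
  have c1 := clopen_cmp (G := G) (A := R ∩ S) a
  rcases sides_GNs hR h1 (fun x hx => (c1.1 hx).1) h2.sided
    (h.cross.clopen (by norm_num) c1) with k | k
  · exact core_GNs hA hR hRA hS hSA h hc c1 h1 h2 h3 h4 k
  · refine core_GNs hA hR hRA hS hSA (h.symm hRA hSA) hc c1 h1 h2 h3 h4 fun x hx => ?_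
    rw [k x hx]
    ext y
    constructor
    · rintro ⟨y1, y2⟩
      have e := (mem_lk_C1.1 y1).2
      exact ⟨y1.1, mem_lk_C1.2 ⟨hRA y1.1, e⟩, fun k => k.elim
        (fun k => y2 (Or.inl (mem_lk_C1.2 ⟨c1.2 x hx y ⟨y1.1, k⟩ e, e⟩)))
        fun k => y2 (Or.inr ⟨y1.1, k⟩)⟩
    · rintro ⟨y1, y2, y3⟩
      exact ⟨⟨y1, y2.2⟩, fun k => y3 (k.imp (fun k => (c1.1 k.1).2) And.right)⟩

theorem ind_GNs (n : ℕ) : ∀ (H : Hv), H.Valid → ∀ (Q : Set H.V) (F : Set (Finset H.V)),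
    Clopen (sG H.V) (fr H.G H.A Q) F → Sph (sG H.V) 3 F → Con (sG H.V) (sA H.G H.A \ F) →
    nc (sG H.V) (sA H.G (H.X1 ∩ H.X2) ∩ F) = n → NSE H.Y1 ∨ NSE H.Y2 := by
  induction n using Nat.strong_induction_on with
  | _ n ih =>
  intro H hH Q F h1 h2 h3 h4
  have v2 : H.sd.sd.Valid := hH.sd.sd
  have f1 : F ⊆ sA H.G H.A := fun _ k => (h1.1 k).1
  have r1 : H.X1 ∩ H.X2 ⊆ H.A := fun x hx => hH.eq.ge (Or.inl hx.1)
  obtain ⟨τ, t1, t2⟩ := trs_of_fr hH.cl.2.2 hH.sph.mf r1 (Cell.finite hH.sph) h1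
  have e : sA (sG H.V) (sA H.G (H.X1 ∩ H.X2)) = H.sd.sd.X1 ∩ H.sd.sd.X2 := by
    rw [sA_inter', sA_inter']
    rfl
  have s1 : sA (sG H.V) F ⊆ H.sd.sd.A := sA_mono f1
  have s2 : Sph H.sd.sd.G 3 (sA (sG H.V) F) := h2.sd le_rfl
  have s3 : Con H.sd.sd.G (H.sd.sd.A \ sA (sG H.V) F) := nonsep_sd f1 h3
  rw [e] at t1 t2
  rcases ((H.sd.sd.X1 ∩ H.sd.sd.X2) ∩ sA (sG H.V) F).eq_empty_or_nonempty with k | k
  · rcases v2.side s1 (Cell.con s2).2 (Set.disjoint_iff_inter_eq_empty.2 k).symm with k' | k'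
    · exact Or.inl ⟨2, nonsep_of (X := H.sd.sd.Y1) (fun x hx => v2.eq1.ge (Or.inl (k' hx).1)) s2
        (v2.nonsep k' s3)⟩
    · exact Or.inr ⟨2, nonsep_of (X := H.sd.sd.Y2) (fun x hx => v2.eq2.ge (Or.inl (k' hx).1)) s2
        (v2.swap.nonsep k' s3)⟩
  · obtain ⟨Q', F', a1, a2, a3, a4⟩ := ns_step v2.cl v2.sph
      (fun x hx => v2.eq.ge (Or.inl hx.1)) s2 s1 t1 s3 k
    exact (ih _ (a4.trans_eq (t2.trans h4)) H.sd.sd v2 Q' F' a1 a2 a3 rfl).imp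
      (NSE.of_iter (k := 2)) (NSE.of_iter (k := 2))

theorem ns_graft {H : Hv} (hH : H.Valid) (h : NSE H.X) : NSE H.Y1 ∨ NSE H.Y2 := by
  obtain ⟨i, h⟩ := h
  obtain ⟨e0, e1, e2⟩ := hv_iter H i
  have v := hH.iter i
  rw [← e0] at h
  obtain ⟨S, s1, s2, s3⟩ := (nonsep_iff v.cl.1).1 h
  have m := (mf_empty_iff.1 v.cl.2.2).mono s1
  obtain ⟨σ, hσ⟩ := exists_sided m (Cell.mfa s2) le_rfl s1 (Cell.ndc s2)
  have := ind_GNs _ _ v S _ (hfr_clopen hσ) (hfr_sph m s1 s2 hσ) (hfr_nonsep s1 s2 hσ s3) rfl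
  rw [e1, e2] at this
  exact this.imp NSE.of_iter NSE.of_iter

end Pool.Agent.MP_6374aa_g

end

section

/-! Kneser-Milnor surgery in an iterated connected sum. -/

namespace Pool.Agent.MP_6374aa_g

open Pool.Agent.MP_6374aa_gt Classical

theorem g_main : G_st := by
  rintro N X P hN - hP ⟨ι, Q, s, hs, hQ⟩ hX
  have cN : Cl N.G 3 N.A := (Cx.closed_iff N).1 hN
  have key : ∀ A s, IsSum X.G Q A s → Cl X.G 3 A ∧
      (PunctE ⟨X.V, X.G, A⟩ P → PunctE N P ∨ (NSP P ∧ NSE N)) ∧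
      (NSE ⟨X.V, X.G, A⟩ → NSE N) := by
    intro A s h
    induction h with
    | one i =>
      obtain ⟨f, hf⟩ := hQ i
      exact ⟨(IsIso.cl hf).1 cN,
        fun h => Or.inl (PunctE.iso (X := N) (Y := ⟨X.V, X.G, Q i⟩) hf cN h),
        fun h => NSE.iso (X := N) (Y := ⟨X.V, X.G, Q i⟩) hf cN h⟩
    | sum _ _ hg h1 h2 =>
      have hv := hv_of_graft hg h1.1 h2.1
      have hn : NSE ⟨X.V, X.G, _⟩ → NSE N := fun h => (ns_graft hv h).elim h1.2.2 h2.2.2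
      refine ⟨Graft.cl hg h1.1 h2.1, fun h => ?_, hn⟩
      rcases km_graft hv hP h with k | k | k
      · exact h1.2.1 k
      · exact h2.2.1 k
      · exact Or.inr ⟨k.1, hn k.2⟩
  exact (key _ _ hs).2.1 hX

end Pool.Agent.MP_6374aa_g

end

section

/-! An arc between two boundary spheres. -/

namespace Pool.Agent.MP_6374aa_g

open Pool.Agent.MP_6374aa_gt Classical

variable {V V' : Type} {G : SimpleGraph V} {G' : SimpleGraph V'} {A : Set V} {A' : Set V'}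

theorem nb_seg_GPath (hA : Mf G 3 A ∅) {W0 : Set V} (h0 : NB G A W0) {m : ℕ} {y : ℕ → V}
    (hy : ∀ j ≤ m, y j ∈ A \ W0) (hinj : ∀ i ≤ m, ∀ j ≤ m, y i = y j → i = j)
    (hadj : ∀ i ≤ m, ∀ j ≤ m, G.Adj (y i) (y j) ↔ (i + 1 = j ∨ j + 1 = i)) {a : V} (ha : a ∈ W0)
    (h0' : ∀ j ≤ m, ∀ x ∈ W0, G.Adj (y j) x ↔ (j = 0 ∧ x = a)) :
    ∀ n ≤ m, NB G A (W0 ∪ y '' {j | j ≤ n}) := by
  intro n
  induction n with
  | zero =>
    intro h
    have e : y '' {j | j ≤ 0} = {y 0} := by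
      ext z
      simp only [Set.mem_image, Set.mem_setOf_eq, Nat.le_zero, Set.mem_singleton_iff]
      constructor
      · rintro ⟨j, rfl, rfl⟩
        rfl
      · rintro rfl
        exact ⟨0, rfl, rfl⟩
    rw [e]
    refine nb_join hA h0 (nb_single hA (hy 0 h).1) ?_ ha (Set.mem_singleton _)
      ((h0' 0 h a ha).2 ⟨rfl, rfl⟩).symm ?_
    · exact Set.disjoint_singleton_right.2 (hy 0 h).2
    · intro x hx z hz hxz
      rw [Set.mem_singleton_iff] at hz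
      subst hz
      exact ⟨((h0' 0 h x hx).1 hxz.symm).2, rfl⟩
  | succ n ih =>
    intro h
    have hn : n ≤ m := by omega
    have e : W0 ∪ y '' {j | j ≤ n + 1} = (W0 ∪ y '' {j | j ≤ n}) ∪ {y (n + 1)} := by
      ext z
      simp only [Set.mem_union, Set.mem_image, Set.mem_setOf_eq, Set.mem_singleton_iff]
      constructor
      · rintro (hz | ⟨j, hj, rfl⟩)
        · exact Or.inl (Or.inl hz)
        · rcases Nat.lt_or_ge j (n + 1) with h1 | h1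
          · exact Or.inl (Or.inr ⟨j, by omega, rfl⟩)
          · have : j = n + 1 := by omega
            subst this
            exact Or.inr rfl
      · rintro ((hz | ⟨j, hj, rfl⟩) | rfl)
        · exact Or.inl hz
        · exact Or.inr ⟨j, by omega, rfl⟩
        · exact Or.inr ⟨n + 1, le_rfl, rfl⟩
    rw [e]
    refine nb_join hA (ih hn) (nb_single hA (hy _ h).1) ?_ (a := y n) (Or.inr ⟨n, le_refl n, rfl⟩)
      (Set.mem_singleton _) ((hadj n hn _ h).2 (Or.inl rfl)) ?_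
    · refine Set.disjoint_singleton_right.2 ?_
      rintro (hz | ⟨j, hj, hz⟩)
      · exact (hy _ h).2 hz
      · have hj' : j ≤ n := hj
        have := hinj j (by omega) _ h hz
        omega
    · intro x hx z hz hxz
      rw [Set.mem_singleton_iff] at hz
      subst hz
      refine ⟨?_, rfl⟩
      rcases hx with hx | ⟨j, hj, rfl⟩
      · have := ((h0' _ h x hx).1 hxz.symm).1
        omega
      · have hj' : j ≤ n := hj
        have := (hadj j (by omega) _ h).1 hxz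
        have : j = n := by omega
        rw [this]

theorem nb_bridge (hA : Mf G 3 A ∅) {W0 W1 : Set V} (h0 : NB G A W0) (h1 : NB G A W1)
    (hf : Far G W0 W1) {m : ℕ} {y : ℕ → V} (hy : ∀ j ≤ m, y j ∈ A \ (W0 ∪ W1))
    (hinj : ∀ i ≤ m, ∀ j ≤ m, y i = y j → i = j)
    (hadj : ∀ i ≤ m, ∀ j ≤ m, G.Adj (y i) (y j) ↔ (i + 1 = j ∨ j + 1 = i)) {a b : V} (ha : a ∈ W0)
    (hb : b ∈ W1) (h0' : ∀ j ≤ m, ∀ x ∈ W0, G.Adj (y j) x ↔ (j = 0 ∧ x = a))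
    (h1' : ∀ j ≤ m, ∀ x ∈ W1, G.Adj (y j) x ↔ (j = m ∧ x = b)) :
    NB G A (W0 ∪ y '' {j | j ≤ m} ∪ W1) := by
  have hs := nb_seg_GPath hA h0 (fun j hj => ⟨(hy j hj).1, fun h => (hy j hj).2 (Or.inl h)⟩) hinj
    hadj ha h0' m le_rfl
  refine nb_join hA hs h1 ?_ (a := y m) (Or.inr ⟨m, le_refl m, rfl⟩) hb
    ((h1' m le_rfl b hb).2 ⟨rfl, rfl⟩) ?_
  · refine Set.disjoint_left.2 ?_
    rintro x (hx | ⟨j, hj, rfl⟩) hx1
    · exact hf x hx x hx1 (Or.inl rfl)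
    · exact (hy j hj).2 (Or.inr hx1)
  · rintro x (hx | ⟨j, hj, rfl⟩) z hz hxz
    · exact absurd (Or.inr hxz) (hf x hx z hz)
    · obtain ⟨rfl, rfl⟩ := (h1' j hj z hz).1 hxz
      exact ⟨rfl, rfl⟩

theorem walk_GPath {Z : Set V} {a b : V} (h : Reach G Z a b) (ha : a ∈ Z) :
    ∃ (k : ℕ) (x : ℕ → V), x 0 = a ∧ x k = b ∧ (∀ i ≤ k, x i ∈ Z) ∧
      ∀ i < k, G.Adj (x i) (x (i + 1)) := by
  induction h with
  | refl => exact ⟨0, fun _ => a, rfl, rfl, fun _ _ => ha, fun i hi => absurd hi (by omega)⟩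
  | @tail b c _ hbc ih =>
    obtain ⟨k, x, h0, hk, hz, hadj⟩ := ih
    refine ⟨k + 1, fun i => if i ≤ k then x i else c, ?_, ?_, ?_, ?_⟩
    · simp [h0]
    · simp
    · intro i _
      by_cases hik : i ≤ k
      · simp only [hik, if_true]
        exact hz i hik
      · simp only [hik, if_false]
        exact hbc.2.1
    · intro i hi
      have hik : i ≤ k := by omega
      by_cases hik' : i + 1 ≤ k
      · simp only [hik, hik', if_true]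
        exact hadj i (by omega)
      · simp only [hik, hik', if_true, if_false]
        have : i = k := by omega
        rw [this, hk]
        exact hbc.2.2

theorem arc_GPath {Z T : Set V} (hc : Pre G Z) (hn : 2 ≤ nc G (Z ∩ T)) :
    ∃ (k : ℕ) (x : ℕ → V), 2 ≤ k ∧ x 0 ∈ Z ∩ T ∧ x k ∈ Z ∩ T ∧ ¬ Reach G (Z ∩ T) (x 0) (x k) ∧
      (∀ i ≤ k, x i ∈ Z) ∧ (∀ i < k, G.Adj (x i) (x (i + 1))) ∧
      (∀ i ≤ k, ∀ j ≤ k, x i = x j → i = j) ∧ ∀ i, 0 < i → i < k → x i ∉ T := by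
  let P : ℕ → Prop := fun k => ∃ x : ℕ → V, x 0 ∈ Z ∩ T ∧ x k ∈ Z ∩ T ∧
    ¬ Reach G (Z ∩ T) (x 0) (x k) ∧ (∀ i ≤ k, x i ∈ Z) ∧ ∀ i < k, G.Adj (x i) (x (i + 1))
  have hex : ∃ k, P k := by
    obtain ⟨C, D, ⟨a, ha, rfl⟩, ⟨b, hb, rfl⟩, hne⟩ := (Set.one_lt_ncard_iff
      (Set.finite_of_ncard_pos (by unfold nc at hn; omega))).1 (show 1 < nc G (Z ∩ T) from hn)
    have hab : ¬ Reach G (Z ∩ T) a b := fun h => hne (cmp_eq_of_mem ⟨hb, h⟩).symm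
    obtain ⟨k, x, h0, hk, hz, hadj⟩ := walk_GPath (hc a ha.1 b hb.1) ha.1
    exact ⟨k, x, h0 ▸ ha, hk ▸ hb, by rw [h0, hk]; exact hab, hz, hadj⟩
  obtain ⟨x, h0, hk, hr, hz, hadj⟩ := Nat.find_spec hex
  have hmin : ∀ n < Nat.find hex, ¬ P n := fun n hn => Nat.find_min hex hn
  generalize Nat.find hex = k at h0 hk hr hz hadj hmin
  have hlt : ∀ p q, p < q → q ≤ k → x p ≠ x q := by
    intro p q hpq hq he
    refine hmin (k - (q - p)) (by omega)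
      ⟨fun i => if i ≤ p then x i else x (i + (q - p)), ?_, ?_, ?_, ?_, ?_⟩
    · simpa using h0
    · by_cases h : k - (q - p) ≤ p
      · simp only [h, if_true]
        have e1 : k - (q - p) = p := by omega
        have e2 : q = k := by omega
        rw [e1, he, e2]
        exact hk
      · simp only [h, if_false]
        have e1 : k - (q - p) + (q - p) = k := by omega
        rw [e1]
        exact hk
    · by_cases h : k - (q - p) ≤ p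
      · simp only [h, if_true, Nat.zero_le]
        have e1 : k - (q - p) = p := by omega
        have e2 : q = k := by omega
        rw [e1, he, e2]
        exact hr
      · simp only [h, if_false, if_true, Nat.zero_le]
        have e1 : k - (q - p) + (q - p) = k := by omega
        rw [e1]
        exact hr
    · intro i hi
      by_cases h : i ≤ p
      · simp only [h, if_true]
        exact hz i (by omega)
      · simp only [h, if_false]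
        exact hz _ (by omega)
    · intro i hi
      by_cases h : i + 1 ≤ p
      · have h' : i ≤ p := by omega
        simp only [h, h', if_true]
        exact hadj i (by omega)
      · by_cases h' : i ≤ p
        · simp only [h, h', if_true, if_false]
          have e1 : i = p := by omega
          have e2 : i + 1 + (q - p) = q + 1 := by omega
          rw [e2, e1, he]
          exact hadj q (by omega)
        · simp only [h, h', if_false]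
          have e2 : i + 1 + (q - p) = i + (q - p) + 1 := by omega
          rw [e2]
          exact hadj _ (by omega)
  refine ⟨k, x, ?_, h0, hk, hr, hz, hadj, ?_, ?_⟩
  · by_contra h
    have h2 : k = 0 ∨ k = 1 := by omega
    rcases h2 with rfl | rfl
    · exact hr (Reach.refl _)
    · exact hr (Reach.single h0 hk (Or.inr (hadj 0 (by omega))))
  · intro i hi j hj he
    rcases lt_trichotomy i j with h | h | h
    · exact absurd he (hlt i j h hj)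
    · exact h
    · exact absurd he.symm (hlt j i h hi)
  · intro p hp hpk hT
    have hm : x p ∈ Z ∩ T := ⟨hz p hpk.le, hT⟩
    by_cases h1 : Reach G (Z ∩ T) (x 0) (x p)
    · refine hmin (k - p) (by omega) ⟨fun i => x (i + p), ?_, ?_, ?_, ?_, ?_⟩
      · simpa using hm
      · have e : k - p + p = k := by omega
        simp only [e]
        exact hk
      · have e : k - p + p = k := by omega
        simp only [e, Nat.zero_add]
        exact fun h2 => hr (Reach.trans h1 h2)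
      · intro i hi
        exact hz _ (by omega)
      · intro i hi
        have e : i + 1 + p = i + p + 1 := by omega
        simp only [e]
        exact hadj _ (by omega)
    · exact hmin p hpk ⟨x, h0, hm, h1, fun i hi => hz i (by omega), fun i hi => hadj i (by omega)⟩

theorem merge_path {Z T : Set V} (hc : Pre G Z) (hf : Z.Finite) (hn : 2 ≤ nc G (Z ∩ T)) :
    ∃ a ∈ Z ∩ T, ∃ b ∈ Z ∩ T, ¬ Reach G (Z ∩ T) a b ∧ ∃ (m : ℕ) (y : ℕ → Finset V),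
      (∀ j ≤ m, y j ∈ sA G Z \ ins T) ∧ (∀ i ≤ m, ∀ j ≤ m, y i = y j → i = j) ∧
      (∀ i ≤ m, ∀ j ≤ m, (sG V).Adj (y i) (y j) ↔ (i + 1 = j ∨ j + 1 = i)) ∧
      (∀ j ≤ m, ∀ t ∈ sA G (Z ∩ T), (sG V).Adj (y j) t ↔ ((j = 0 ∧ t = {a}) ∨ (j = m ∧ t = {b}))) ∧
      ∀ j ≤ m, (y j).card ≤ 2 := by
  obtain ⟨k, x, hk2, h0, hk, hr, hz, hadj, hinj, hT⟩ := arc_GPath hc hn
  have _ := hf
  -- membership description of the vertices of the subdivided arc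
  let y : ℕ → Finset V := fun j => {x ((j + 1) / 2), x (j / 2 + 1)}
  have hmem : ∀ j, ∀ v, v ∈ y j ↔ v = x ((j + 1) / 2) ∨ v = x (j / 2 + 1) := by
    intro j v
    simp [y]
  have hx : ∀ j ≤ 2 * k - 2, ∀ i ≤ k, x i ∈ y j ↔ i = (j + 1) / 2 ∨ i = j / 2 + 1 := by
    intro j hj i hi
    rw [hmem]
    constructor
    · rintro (h | h)
      · exact Or.inl (hinj _ hi _ (by omega) h)
      · exact Or.inr (hinj _ hi _ (by omega) h)
    · rintro (h | h)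
      · exact Or.inl (by rw [h])
      · exact Or.inr (by rw [h])
  have hsub : ∀ i ≤ 2 * k - 2, ∀ j ≤ 2 * k - 2, y i ⊆ y j ↔
      (((i + 1) / 2 = (j + 1) / 2 ∨ (i + 1) / 2 = j / 2 + 1) ∧
        (i / 2 + 1 = (j + 1) / 2 ∨ i / 2 + 1 = j / 2 + 1)) := by
    intro i hi j hj
    rw [← hx j hj _ (by omega), ← hx j hj _ (by omega)]
    constructor
    · intro h
      exact ⟨h ((hmem i _).2 (Or.inl rfl)), h ((hmem i _).2 (Or.inr rfl))⟩
    · rintro ⟨h1, h2⟩ v hv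
      rcases (hmem i v).1 hv with rfl | rfl
      · exact h1
      · exact h2
  have hnT : ∀ j ≤ 2 * k - 2, ∃ v ∈ y j, v ∉ T := by
    intro j hj
    by_cases h : j / 2 + 1 < k
    · exact ⟨_, (hmem j _).2 (Or.inr rfl), hT _ (by omega) h⟩
    · exact ⟨_, (hmem j _).2 (Or.inl rfl), hT _ (by omega) (by omega)⟩
  refine ⟨x 0, h0, x k, hk, hr, 2 * k - 2, y, ?_, ?_, ?_, ?_, ?_⟩
  · intro j hj
    refine ⟨⟨⟨_, (hmem j _).2 (Or.inl rfl)⟩, ?_, ?_⟩, ?_⟩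
    · intro v hv
      rcases (hmem j v).1 hv with rfl | rfl
      · exact hz _ (by omega)
      · exact hz _ (by omega)
    · intro u hu v hv huv
      have hc2 : (j + 1) / 2 = j / 2 ∨ (j + 1) / 2 = j / 2 + 1 := by omega
      rcases (hmem j u).1 hu with rfl | rfl <;> rcases (hmem j v).1 hv with rfl | rfl
      · exact absurd rfl huv
      · rcases hc2 with e | e
        · rw [e]
          exact hadj _ (by omega)
        · exact absurd (by rw [e]) huv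
      · rcases hc2 with e | e
        · rw [e]
          exact (hadj _ (by omega)).symm
        · exact absurd (by rw [e]) huv
      · exact absurd rfl huv
    · intro h
      obtain ⟨v, hv, hvT⟩ := hnT j hj
      exact hvT (h hv)
  · intro i hi j hj he
    have h1 := (hsub i hi j hj).1 he.subset
    have h2 := (hsub j hj i hi).1 he.symm.subset
    omega
  · intro i hi j hj
    show y i ⊂ y j ∨ y j ⊂ y i ↔ _
    rw [Finset.ssubset_def, Finset.ssubset_def, hsub i hi j hj, hsub j hj i hi]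
    omega
  · intro j hj t ht
    obtain ⟨v, hv, hvT⟩ := hnT j hj
    constructor
    · rintro (h | h)
      · exact absurd (ht.2.1 (h.subset hv)).2 hvT
      · have hall : ∀ u ∈ t, (j = 0 ∧ u = x 0) ∨ (j = 2 * k - 2 ∧ u = x k) := by
          intro u hu
          have huT : u ∈ T := (ht.2.1 hu).2
          rcases (hmem j u).1 (h.subset hu) with rfl | rfl
          · have : (j + 1) / 2 = 0 := by
              by_contra hne
              exact hT _ (by omega) (by omega) huT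
            exact Or.inl ⟨by omega, by rw [this]⟩
          · have : j / 2 + 1 = k := by
              by_contra hne
              exact hT _ (by omega) (by omega) huT
            exact Or.inr ⟨by omega, by rw [this]⟩
        obtain ⟨u, hu⟩ := ht.1
        rcases hall u hu with ⟨h1, rfl⟩ | ⟨h1, rfl⟩
        · refine Or.inl ⟨h1, Finset.eq_singleton_iff_unique_mem.2 ⟨hu, fun w hw => ?_⟩⟩
          rcases hall w hw with ⟨_, h2⟩ | ⟨h2, _⟩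
          · exact h2
          · omega
        · refine Or.inr ⟨h1, Finset.eq_singleton_iff_unique_mem.2 ⟨hu, fun w hw => ?_⟩⟩
          rcases hall w hw with ⟨h2, _⟩ | ⟨_, h2⟩
          · omega
          · exact h2
    · rintro (⟨h1, rfl⟩ | ⟨h1, rfl⟩)
      · refine Or.inr (Finset.ssubset_def.2 ⟨Finset.singleton_subset_iff.2
          ((hx j hj 0 (by omega)).2 (by omega)), fun h => hvT ?_⟩)
        rw [Finset.mem_singleton.1 (h hv)]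
        exact h0.2
      · refine Or.inr (Finset.ssubset_def.2 ⟨Finset.singleton_subset_iff.2
          ((hx j hj k le_rfl).2 (by omega)), fun h => hvT ?_⟩)
        rw [Finset.mem_singleton.1 (h hv)]
        exact hk.2
  · intro j _
    exact Finset.card_le_two

end Pool.Agent.MP_6374aa_g

end

section

/-! From a punctured copy to a connected summand. -/

namespace Pool.Agent.MP_6374aa_g

open Pool.Agent.MP_6374aa_gt Classical

theorem far_cn_GMerge {X : Cx} {S S' : Set X.V} (h : Far X.G S S') (hne : S ≠ S') :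
    Far (capG X.G id) (cn S S) (cn S' S') := by
  rintro _ (rfl | ⟨a, ha, rfl⟩) _ (rfl | ⟨b, hb, rfl⟩) (e | e)
  · exact hne (Sum.inr_injective e)
  · exact e
  · cases e
  · exact h b e b hb (adq_refl b)
  · cases e
  · exact h a ha a e (adq_refl a)
  · exact h a ha b hb (Or.inl (Sum.inl_injective e))
  · exact h a ha b hb (Or.inr e)

theorem far_union_GMerge {V : Type} {G : SimpleGraph V} {X Y Z : Set V} (h : Far G X Z)
    (h' : Far G Y Z) : Far G (X ∪ Y) Z := fun a ha => ha.elim (h a) (h' a)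

theorem bridge_GMerge {X P : Cx} {Z T : Set X.V} (hX : Cl X.G 3 X.A) (h : PD X P Z T) {a b : X.V}
    (ha : a ∈ Z ∩ T) (hb : b ∈ Z ∩ T) (hab : ¬ Reach X.G (Z ∩ T) a b) {m : ℕ} {y : ℕ → X.V}
    (hy : ∀ j ≤ m, y j ∈ Z \ T) (hinj : ∀ i ≤ m, ∀ j ≤ m, y i = y j → i = j)
    (hadj : ∀ i ≤ m, ∀ j ≤ m, X.G.Adj (y i) (y j) ↔ (i + 1 = j ∨ j + 1 = i))
    (he : ∀ j ≤ m, ∀ t ∈ Z ∩ T, X.G.Adj (y j) t ↔ ((j = 0 ∧ t = a) ∨ (j = m ∧ t = b)))
    (hn : ∃ q ∈ Z \ T, ∀ j ≤ m, y j ≠ q) :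
    ∃ Q, Core X P Q ∧ nc (sG X.V) (fr X.G X.A Q) < nc X.G (Z ∩ T) := by
  have hf : Z.Finite := hX.1.subset h.pm.sub
  have hY := h.pm.cap_cl hf
  have m0 : cmp X.G (Z ∩ T) a ∈ bcs X.G Z T := ⟨a, ha, rfl⟩
  have m1 : cmp X.G (Z ∩ T) b ∈ bcs X.G Z T := ⟨b, hb, rfl⟩
  have a0 : a ∈ cmp X.G (Z ∩ T) a := mem_cmp_self ha
  have b1 : b ∈ cmp X.G (Z ∩ T) b := mem_cmp_self hb
  have n01 : cmp X.G (Z ∩ T) a ≠ cmp X.G (Z ∩ T) b := fun e => hab (e.symm.subset b1).2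
  generalize cmp X.G (Z ∩ T) a = S0 at m0 a0 n01
  generalize cmp X.G (Z ∩ T) b = S1 at m1 b1 n01
  have sb : ∀ S ∈ bcs X.G Z T, S ⊆ Z ∩ T := fun S hS => (h.pm.bcs_sph hS).1
  have fc : ∀ S ∈ bcs X.G Z T, ∀ S' ∈ bcs X.G Z T, S ≠ S' →
      Far (capG X.G id) (cn S S) (cn S' S') := fun S hS S' hS' e =>
    far_cn_GMerge (bcs_far hS hS' e) e
  have nm : ∀ S ∈ bcs X.G Z T, ∀ q, q ∉ T → Sum.inl q ∉ cn S S := by
    rintro S hS q hq (e | ⟨t, ht, e⟩)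
    · cases e
    · exact hq (Sum.inl_injective e ▸ (sb S hS ht).2)
  have ad : ∀ S ∈ bcs X.G Z T, ∀ j ≤ m, ∀ x ∈ cn S S, (capG X.G id).Adj (Sum.inl (y j)) x ↔
      (j = 0 ∧ x = Sum.inl a) ∨ (j = m ∧ x = Sum.inl b) := by
    rintro S hS j hj _ (rfl | ⟨t, ht, rfl⟩)
    · exact iff_of_false (fun e => (hy j hj).2 (sb S hS e).2) (by simp)
    · simp only [Sum.inl.injEq]
      exact he j hj t (sb S hS ht)
  have un : ∀ S ∈ bcs X.G Z T, ∀ S' ∈ bcs X.G Z T, ∀ t ∈ S', Sum.inl t ∈ cn S S → S = S' :=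
    fun S hS S' hS' t ht e => by_contra fun c =>
      fc S hS S' hS' c _ e _ (Or.inr ⟨t, ht, rfl⟩) (adq_refl _)
  have hM := nb_bridge hY.2.2 (cn_nb h.pm hf m0) (cn_nb h.pm hf m1) (fc _ m0 _ m1 n01) (m := m)
    (y := fun j => Sum.inl (y j)) (fun j hj => ⟨Or.inl ⟨_, (hy j hj).1, rfl⟩,
      fun c => c.elim (nm _ m0 _ (hy j hj).2) (nm _ m1 _ (hy j hj).2)⟩)
    (fun i hi j hj e => hinj i hi j hj (Sum.inl_injective e)) hadj (a := Sum.inl a)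
    (b := Sum.inl b) (Or.inr ⟨a, a0, rfl⟩) (Or.inr ⟨b, b1, rfl⟩)
    (fun j hj x hx => (ad _ m0 j hj x hx).trans
      (or_iff_left fun c => n01 (un _ m0 _ m1 b b1 (c.2 ▸ hx))))
    (fun j hj x hx => (ad _ m1 j hj x hx).trans
      (or_iff_right fun c => n01 (un _ m1 _ m0 a a0 (c.2 ▸ hx)).symm))
  have fM : ∀ S ∈ bcs X.G Z T \ {S1}, S ≠ S0 → Far (capG X.G id)
      (cn S0 S0 ∪ (fun j => Sum.inl (y j)) '' {j | j ≤ m} ∪ cn S1 S1) (cn S S) := by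
    intro S hS e
    refine far_union_GMerge (far_union_GMerge (fc _ m0 _ hS.1 e.symm) ?_)
      (fc _ m1 _ hS.1 (Ne.symm hS.2))
    rintro _ ⟨j, hj, rfl⟩ x hx (c | c)
    · subst c
      exact nm _ hS.1 _ (hy j hj).2 hx
    · rcases (ad _ hS.1 j hj x hx).1 c with ⟨-, rfl⟩ | ⟨-, rfl⟩
      · exact e (un _ hS.1 _ m0 a a0 hx)
      · exact hS.2 (un _ hS.1 _ m1 b b1 hx)
  let W : Set X.V → Set (X.V ⊕ Set X.V) := fun S => if S = S0 then
    cn S0 S0 ∪ (fun j => Sum.inl (y j)) '' {j | j ≤ m} ∪ cn S1 S1 else cn S S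
  have w0 : W S0 = cn S0 S0 ∪ (fun j => Sum.inl (y j)) '' {j | j ≤ m} ∪ cn S1 S1 := if_pos rfl
  have w1 : ∀ S, S ≠ S0 → W S = cn S S := fun S e => if_neg e
  have u0 : W S0 ⊆ ⋃ i ∈ bcs X.G Z T \ {S1}, W i :=
    Set.subset_biUnion_of_mem (u := W) (show S0 ∈ bcs X.G Z T \ {S1} from ⟨m0, n01⟩)
  have u1 : ∀ S ∈ bcs X.G Z T, cn S S ⊆ ⋃ i ∈ bcs X.G Z T \ {S1}, W i := by
    intro S hS
    by_cases e0 : S = S0
    · exact fun x hx => u0 (w0 ▸ Or.inl (Or.inl (e0 ▸ hx)))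
    · by_cases e1 : S = S1
      · exact fun x hx => u0 (w0 ▸ Or.inr (e1 ▸ hx))
      · exact (w1 S e0).symm.subset.trans
          (Set.subset_biUnion_of_mem (u := W) (show S ∈ bcs X.G Z T \ {S1} from ⟨hS, e1⟩))
  refine ⟨_, (h.inner_gen hX (I := bcs X.G Z T \ {S1}) (W := W)
    (Q := (Z \ T) \ y '' {j | j ≤ m}) (fun S hS => ?_) (fun S hS S' hS' e => ?_) Set.sdiff_subset
    (hn.imp fun q hq => ⟨hq.1, fun ⟨j, hj, e⟩ => hq.2 j hj e⟩)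
    (Set.Subset.antisymm ?_ ?_)).imp_right fun k2 =>
      k2.trans_lt (Set.ncard_sdiff_singleton_lt_of_mem m1 (bcs_finite hf))⟩
  · by_cases e0 : S = S0
    · rw [e0, w0]
      exact hM
    · rw [w1 S e0]
      exact cn_nb h.pm hf hS.1
  · by_cases e0 : S = S0
    · have e1 : S' ≠ S0 := fun c => e (e0.trans c.symm)
      rw [e0, w0, w1 S' e1]
      exact fM S' hS' e1
    · rw [w1 S e0]
      by_cases e1 : S' = S0
      · rw [e1, w0]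
        exact (fM S hS e0).symm
      · rw [w1 S' e1]
        exact fc S hS.1 S' hS'.1 e
  · rintro _ ⟨q, hq, rfl⟩
    refine ⟨Or.inl ⟨q, hq.1.1, rfl⟩, fun c => ?_⟩
    obtain ⟨S, hS, c⟩ := Set.mem_iUnion₂.1 c
    by_cases e0 : S = S0
    · rw [e0, w0] at c
      rcases c with (c | ⟨j, hj, c⟩) | c
      · exact nm _ m0 _ hq.1.2 c
      · exact hq.2 ⟨j, hj, Sum.inl_injective c⟩
      · exact nm _ m1 _ hq.1.2 c
    · rw [w1 S e0] at c
      exact nm _ hS.1 _ hq.1.2 c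
  · rintro _ ⟨⟨z, hz, rfl⟩ | ⟨S, hS, rfl⟩, c⟩
    · refine ⟨z, ⟨⟨hz, fun k => c (u1 _ ⟨z, ⟨hz, k⟩, rfl⟩
        (Or.inr ⟨z, mem_cmp_self ⟨hz, k⟩, rfl⟩))⟩, ?_⟩, rfl⟩
      rintro ⟨j, hj, rfl⟩
      exact c (u0 (w0 ▸ Or.inl (Or.inr ⟨j, hj, rfl⟩)))
    · exact (c (u1 S hS (Or.inl rfl))).elim

theorem cap_one_GMerge {X : Cx} {Z T S : Set X.V} (e : Z ∩ T = S) (hc : Con X.G S) :
    (capC X Z T).A = cn S Z := by
  have e' : (fun a => cmp X.G S a) '' S = {S} :=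
    (Set.image_congr fun a ha => hc.2.cmp_eq ha).trans (hc.1.image_const S)
  change capA Z ((fun a => cmp X.G (Z ∩ T) a) '' (Z ∩ T)) = _
  rw [e, e', capA, Set.image_singleton, Set.union_singleton, cn]

theorem lk_cn_GMerge {X : Cx} {Z S : Set X.V} (h : S ⊆ Z) :
    Lk (capG X.G id) (cn S Z) {Sum.inr S} = Sum.inl '' S := by
  refine Set.Subset.antisymm ?_ ?_
  · rintro _ ⟨rfl | ⟨a, -, rfl⟩, k⟩
    · exact (k _ rfl).elim
    · exact ⟨a, k _ rfl, rfl⟩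
  · rintro _ ⟨a, ha, rfl⟩
    exact ⟨Or.inr ⟨a, h ha, rfl⟩, by rintro _ rfl; exact ha⟩

theorem merge_step {X P : Cx} {Z T : Set X.V} (hX : Cl X.G 3 X.A) (h : PD X P Z T)
    (hn : 2 ≤ nc X.G (Z ∩ T)) :
    ∃ Q, Core X.sd P Q ∧ nc (sG X.sd.V) (fr X.sd.G X.sd.A Q) < nc X.G (Z ∩ T) := by
  have hf : Z.Finite := hX.1.subset h.pm.sub
  obtain ⟨a, ha, b, hb, hab, m, y, h1, h2, h3, h4, h5⟩ := merge_path h.pm.con.2 hf hn
  have e : sA X.G Z ∩ ins T = sA X.G (Z ∩ T) := (sA_inter T).symm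
  have a1 : {a} ∈ sA X.G (Z ∩ T) := singleton_mem_sA.2 ha
  have b1 : {b} ∈ sA X.G (Z ∩ T) := singleton_mem_sA.2 hb
  have hab' : ¬ Reach (sG X.V) (sA X.G Z ∩ ins T) {a} {b} := by
    rwa [e, reach_sA a1 b1 (Finset.mem_singleton_self a) (Finset.mem_singleton_self b)]
  obtain ⟨t, t1, t2, t3, t4⟩ := Mfa.pure h.pm.mf (clq_single_C1.2 ha.1)
    ⟨a, Finset.mem_singleton_self a, ha.1⟩
  obtain ⟨Q, k1, k2⟩ := bridge_GMerge (X := X.sd) (Cl.sd hX le_rfl) (h.sd hf) (e.symm.subset a1)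
    (e.symm.subset b1) hab' h1 h2 h3 (fun j hj t ht => h4 j hj t (e.subset ht))
    ⟨t, ⟨⟨⟨a, t2 (Finset.mem_singleton_self a)⟩, t1⟩, t4⟩, fun j hj c => by
      have := h5 j hj
      have c' : y j = t := c
      rw [c', t3] at this
      omega⟩
  refine ⟨Q, k1, k2.trans_eq ?_⟩
  change nc (sG X.V) (sA X.G Z ∩ ins T) = _
  rw [e, nc_sA (hf.subset Set.inter_subset_left)]

theorem merge_zero {X P : Cx} {Z T : Set X.V} (hX : Cl X.G 3 X.A) (h : PD X P Z T)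
    (hn : Z ∩ T = ∅) : ∃ Z' T', PD X P Z' T' ∧ Con X.G (Z' ∩ T') := by
  obtain ⟨w, hw⟩ := h.pm.con.1
  have hwA := h.pm.sub hw
  have h1 : Mf X.G 3 Z ∅ := mf_congr_C5 h.pm.mf fun a ha =>
    iff_of_false (fun k => hn.subset ⟨ha, k⟩) id
  have h2 : Z = X.A := h.pm.sub.antisymm (hX.2.1.2.subset_clopen le_rfl
    (Mfa.clopen_of_sub h1 (Mfa.mono hX.2.2 h.pm.sub) h.pm.sub) hwA hw)
  have h3 : (capC X Z T).A = Sum.inl '' X.A := by
    change capA Z ((fun a => cmp X.G (Z ∩ T) a) '' (Z ∩ T)) = _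
    rw [hn, Set.image_empty, capA, Set.image_empty, Set.union_empty, h2]
  have h4 : X.Homeo (capC X Z T) :=
    IsIso.homeo (Y := capC X Z T) (f := Sum.inl) (h3 ▸ cap_iso id X.A) hX.1
  have h5 : Sph X.G 3 (Lk X.G X.A {w}) := Mf.sph_lk hX.2.2 hwA id
  have h6 : Con X.G (Lk X.G X.A {w}) := Cell.con h5
  have h7 : Lk X.G X.A {w} ⊆ X.A \ {w} := fun a ha => ⟨ha.1, (ha.2 w rfl).ne'⟩
  have e : X.A \ {w} ∩ Lk X.G X.A {w} = Lk X.G X.A {w} := Set.inter_eq_right.2 h7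
  have hp : PM X (X.A \ {w}) (Lk X.G X.A {w}) :=
    ⟨Set.sdiff_subset, ⟨h6.1.mono h7, rem_one_pre hX.2.1.2 h6.2⟩, Mf.rem hX.2.2 le_rfl w hwA,
      fun a ha => by
        rw [e] at ha ⊢
        rwa [h6.2.cmp_eq ha]⟩
  have hi : IsIso (capG X.G id) (cn (Lk X.G X.A {w}) (X.A \ {w})) X.G X.A
      (Sum.elim id fun _ => w) := by
    refine ⟨⟨?_, ?_, fun a ha => ?_⟩, ?_⟩
    · rintro _ (rfl | ⟨a, ha, rfl⟩)
      exacts [hwA, ha.1]
    · rintro _ (rfl | ⟨a, ha, rfl⟩) _ (rfl | ⟨b, hb, rfl⟩) c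
      · rfl
      · exact (hb.2 c.symm).elim
      · exact (ha.2 c).elim
      · exact congrArg Sum.inl c
    · by_cases c : a = w
      · exact ⟨_, Or.inl rfl, c.symm⟩
      · exact ⟨_, Or.inr ⟨a, ⟨ha, c⟩, rfl⟩, rfl⟩
    · rintro _ (rfl | ⟨a, ha, rfl⟩) _ (rfl | ⟨b, hb, rfl⟩)
      · exact iff_of_false id X.G.irrefl
      · exact mem_lk_C1.trans (and_iff_right hb.1)
      · exact mem_lk_C1.trans ((and_iff_right ha.1).trans (X.G.adj_comm w a))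
      · exact Iff.rfl
  refine ⟨_, _, ⟨hp, Cx.Homeo.trans ?_ (h4.trans h.homeo)⟩, e.symm ▸ h6⟩
  exact IsIso.homeo (X := capC X (X.A \ {w}) (Lk X.G X.A {w}))
    ((cap_one_GMerge e h6).symm ▸ hi) (hp.cap_cl (hX.1.subset hp.sub)).1

theorem merge_one {X P : Cx} {Z T : Set X.V} (hX : Cl X.G 3 X.A) (h : PD X P Z T)
    (hn : Con X.G (Z ∩ T)) : Summand P X := by
  obtain ⟨w, -⟩ := hn.1
  have ho := h.pm.outside hX hn
  have e1 := cap_one_GMerge (X := X) rfl hn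
  have e2 := cap_one_GMerge (X := X) (Z := (X.A \ Z) ∪ (Z ∩ T)) (T := Z ∩ T)
    (Set.inter_eq_right.2 Set.subset_union_right) hn
  have l1 := lk_cn_GMerge (X := X) (Z := Z) (S := Z ∩ T) Set.inter_subset_left
  have l2 := lk_cn_GMerge (X := X) (Z := (X.A \ Z) ∪ (Z ∩ T)) (S := Z ∩ T) Set.subset_union_right
  have hg : Graft (capG X.G id) (cn (Z ∩ T) Z) (cn (Z ∩ T) ((X.A \ Z) ∪ (Z ∩ T)))
      (Sum.inl '' X.A) (Sum.inr (Z ∩ T)) := by
    refine ⟨Or.inl rfl, Or.inl rfl, l1.trans l2.symm, ?_, ?_, Set.Subset.antisymm ?_ ?_⟩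
    · rw [l1, cn, cn, ← Set.insert_inter_distrib, ← Set.image_inter Sum.inl_injective,
        Set.inter_union_distrib_left, Set.inter_sdiff_self, Set.empty_union,
        Set.inter_eq_right.2 Set.inter_subset_left]
    · rintro _ ⟨rfl | ⟨a, ha, rfl⟩, ha'⟩ _ ⟨rfl | ⟨b, hb, rfl⟩, hb'⟩ c
      · exact c
      · exact ha' (Or.inl rfl)
      · exact hb' (Or.inl rfl)
      · exact hb' (Or.inr ⟨b, h.pm.adj_int hX
          ⟨ha, fun k => ha' (Or.inr ⟨a, Or.inr ⟨ha, k⟩, rfl⟩)⟩ (ho.sub hb) c, rfl⟩)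
    · rintro _ ⟨a, ha, rfl⟩
      refine ⟨?_, Sum.inl_ne_inr⟩
      by_cases c : a ∈ Z
      · exact Or.inl (Or.inr ⟨a, c, rfl⟩)
      · exact Or.inr (Or.inr ⟨a, Or.inl ⟨ha, c⟩, rfl⟩)
    · rintro _ ⟨(rfl | ⟨a, ha, rfl⟩) | rfl | ⟨a, ha, rfl⟩, c⟩
      · exact (c rfl).elim
      · exact ⟨a, h.pm.sub ha, rfl⟩
      · exact (c rfl).elim
      · exact ⟨a, ho.sub ha, rfl⟩
  have hi : IsIso (capG X.G id) (Sum.inl '' X.A) X.G X.A
      (Sum.elim id fun _ : Set X.V => w) := by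
    refine ⟨⟨?_, ?_, fun a ha => ⟨_, ⟨a, ha, rfl⟩, rfl⟩⟩, ?_⟩
    · rintro _ ⟨a, ha, rfl⟩
      exact ha
    · rintro _ ⟨a, -, rfl⟩ _ ⟨b, -, rfl⟩ c
      exact congrArg Sum.inl c
    · rintro _ ⟨a, -, rfl⟩ _ ⟨b, -, rfl⟩
      exact Iff.rfl
  rw [← e1, ← e2] at hg
  exact ⟨0, _, capG X.G id, _, _, _, _, _, closed_iff.2 (h.pm.cap_cl (hX.1.subset h.pm.sub)),
    closed_iff.2 (ho.cap_cl (hX.1.subset ho.sub)), hg, h.homeo, iso_iff.2 hi⟩

theorem merge_main : MERGE_st := by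
  have key : ∀ (P : Cx) (n : ℕ) (X : Cx) (Z T : Set X.V), Cl X.G 3 X.A → PD X P Z T →
      nc X.G (Z ∩ T) = n → Summand P X := by
    intro P n
    induction n using Nat.strong_induction_on with
    | _ n ih =>
      rintro X Z T hX h rfl
      by_cases c : 2 ≤ nc X.G (Z ∩ T)
      · obtain ⟨Q, k1, k2⟩ := merge_step hX h c
        have e : nb X.sd.G X.sd.A Q ∩ fr X.sd.G X.sd.A Q = fr X.sd.G X.sd.A Q :=
          Set.inter_eq_right.2 fun s hs => ⟨hs.1, hs.2.1⟩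
        exact Summand.of_iter (k := 2) (ih _ k2 X.sd.sd _ _ (cl_iter hX 2) k1.2
          (congrArg (nc (sG X.sd.V)) e))
      · rcases (Z ∩ T).eq_empty_or_nonempty with e | e
        · obtain ⟨Z', T', k1, k2⟩ := merge_zero hX h e
          exact merge_one hX k1 k2
        · refine merge_one hX h ⟨e, fun a ha b hb => ?_⟩
          have e' := (Set.ncard_le_one_iff (bcs_finite (T := T) (hX.1.subset h.pm.sub))).1
            (Nat.le_of_lt_succ (not_le.1 c)) ⟨a, ha, rfl⟩ ⟨b, hb, rfl⟩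
          exact (e'.symm.subset (mem_cmp_self hb)).2
  rintro N P hN ⟨k, hk⟩
  obtain ⟨Z, T, h⟩ := punct_iff.1 hk
  exact Summand.of_iter (key P _ _ Z T (cl_iter ((Cx.closed_iff N).1 hN) k) h rfl)

end Pool.Agent.MP_6374aa_g

end
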