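import Pool.Agent.Mg.F6374aa.Ge6e9b2
import Pool.Agent.Mg.F6374aa.Ga99166
import Pool.Agent.Mg.F6374aa.G6d719e
import Pool.Agent.Mg.F6374aa.Gae9ace
import Pool.Agent.Mg.F6374aa.G69bf5c

section

/-!
Definitions for the model: the Heegaard surface and the dual trees.
-/

namespace Pool.Agent.MP_6374aa_g

open Pool.Agent.MP_6374aa_gt Classical

noncomputable section

variable {U : Type}

/-- The part of `s` in `S`. -/
def pt (S : Set U) (s : Finset U) : Finset U := s.filter (· ∈ S)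

/-- The simplices of `R` with prescribed part in `S`. -/
def bs (R : Set (Finset U)) (S : Set U) (σ : Finset U) : Set (Finset U) :=
  {s | s ∈ R ∧ pt S s = σ}

/-- The deck transformation. -/
def dck {V Γ : Type} [Group Γ] (g : Γ) (p : V × Γ) : V × Γ := (p.1, p.2 * g⁻¹)

/-- The lift of `t` next to `p`. -/
def res {V Γ : Type} [Group Γ] (ρ : V → V → Γ) (p : V × Γ) (t : V) : V × Γ :=
  (t, ρ t p.1 * p.2)

/-- A symmetric form of the Heegaard colouring. -/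
structure Hg (K : SimpleGraph U) (B S S' : Set U) (R : Set (Finset U)) : Prop where
  cl : Cl K 3 B
  un : S ∪ S' = B
  disj : Disjoint S S'
  two : ∀ s ∈ sA K B, s.card = 4 → (pt S s).card = 2 ∧ (pt S' s).card = 2
  eq : R = {s | s ∈ sA K B ∧ (pt S s).Nonempty ∧ (pt S' s).Nonempty}

/-- The graph dual to the lifted meridians of one handlebody. -/
structure DT (R : Set (Finset U)) (S : Set U) {Γ : Type} [Group Γ]
    (ρ : Finset U → Finset U → Γ) where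
  T : Type
  [act : MulAction Γ T]
  X : SimpleGraph T
  ty : T → U
  vx : Finset U × Γ → U → T
  ty_vx : ∀ p : Finset U × Γ, p.1 ∈ R → ∀ a ∈ pt S p.1, ty (vx p a) = a
  eqv : ∀ (g : Γ) (p : Finset U × Γ), p.1 ∈ R → ∀ a ∈ pt S p.1, vx (dck g p) a = g • vx p a
  const : ∀ p q : Finset U × Γ, p.1 ∈ R → q.1 ∈ R → (cov (sG U) ρ Γ).Adj p q →
    ∀ a ∈ pt S p.1, a ∈ pt S q.1 → vx p a = vx q a
  sep : ∀ a, ∀ p ∈ up (bs R S {a}) Γ, ∀ q ∈ up (bs R S {a}) Γ, vx p a = vx q a →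
    Reach (cov (sG U) ρ Γ) (up (bs R S {a}) Γ) p q
  surj : ∀ x, ∃ p ∈ up (bs R S {ty x}) Γ, vx p (ty x) = x
  adj : ∀ x x', X.Adj x x' ↔ ∃ p : Finset U × Γ, p.1 ∈ R ∧ ∃ a a', a ≠ a' ∧
    pt S p.1 = {a, a'} ∧ vx p a = x ∧ vx p a' = x'

attribute [instance] DT.act

/-- The two edges come from the same lifted tetrahedron. -/
def Tet {R : Set (Finset U)} {S S' : Set U} {Γ : Type} [Group Γ] {ρ : Finset U → Finset U → Γ}
    (D : DT R S ρ) (D' : DT R S' ρ) (x x' : D.T) (y y' : D'.T) : Prop :=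
  ∃ p : Finset U × Γ, p.1 ∈ R ∧ ∃ a a' b b', a ≠ a' ∧ b ≠ b' ∧ pt S p.1 = {a, a'} ∧
    pt S' p.1 = {b, b'} ∧ D.vx p a = x ∧ D.vx p a' = x' ∧ D'.vx p b = y ∧ D'.vx p b' = y'

end

end Pool.Agent.MP_6374aa_g

end

section

/-! The Heegaard colouring. -/

namespace Pool.Agent.MP_6374aa_g

open Pool.Agent.MP_6374aa_gt Classical

variable {V V' V'' : Type} {G : SimpleGraph V} {G' : SimpleGraph V'} {G'' : SimpleGraph V''}
  {A : Set V} {A' : Set V'} {A'' : Set V''} {L : Type} [Group L]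

variable {U : Type} {K : SimpleGraph U} {B S S' : Set U} {R : Set (Finset U)} {Γ : Type} [Group Γ]
  {ρ : Finset U → Finset U → Γ}

theorem mem_pt {s : Finset U} {a : U} : a ∈ pt S s ↔ a ∈ s ∧ a ∈ S := by
  simp [pt]

theorem pt_mono {s t : Finset U} (h : s ⊆ t) : pt S s ⊆ pt S t := by
  intro a ha
  exact mem_pt.2 ⟨h (mem_pt.1 ha).1, (mem_pt.1 ha).2⟩

theorem Hg.symm (h : Hg K B S S' R) : Hg K B S' S R := by
  refine ⟨h.cl, (Set.union_comm _ _).trans h.un, h.disj.symm, fun s hs h4 => (h.two s hs h4).symm,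
    h.eq.trans ?_⟩
  ext s
  exact and_congr_right fun _ => and_comm

theorem Two.hg {Hi : Set U} (h : Two K B Hi) : Hg K B (B ∩ Hi) (B \ Hi) (fr K B Hi) := by
  refine ⟨h.cl, Set.inter_union_sdiff _ _, Set.disjoint_left.2 fun a h1 h2 => h2.2 h1.2,
    fun s hs h4 => ?_, ?_⟩
  · have e1 : pt (B ∩ Hi) s = s.filter (· ∈ Hi) := by
      ext a
      rw [mem_pt, Finset.mem_filter]
      exact and_congr_right fun ha => ⟨fun h1 => h1.2, fun h1 => ⟨hs.2.1 ha, h1⟩⟩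
    have e2 : pt (B \ Hi) s = s.filter fun a => ¬ a ∈ Hi := by
      ext a
      rw [mem_pt, Finset.mem_filter]
      exact and_congr_right fun ha => ⟨fun h1 => h1.2, fun h1 => ⟨hs.2.1 ha, h1⟩⟩
    have e3 := h.two s hs h4
    have e4 := Finset.card_filter_add_card_filter_not (s := s) (· ∈ Hi)
    rw [e1, e2]
    omega
  · ext s
    refine and_congr_right fun hs => and_congr ?_ ?_
    · exact ⟨fun ⟨a, h1, h2⟩ => ⟨a, mem_pt.2 ⟨h1, hs.2.1 h1, h2⟩⟩,
        fun ⟨a, h1⟩ => ⟨a, (mem_pt.1 h1).1, (mem_pt.1 h1).2.2⟩⟩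
    · refine ⟨fun h1 => ?_, fun ⟨a, h1⟩ h2 => (mem_pt.1 h1).2.2 (h2 (mem_pt.1 h1).1)⟩
      obtain ⟨a, h2, h3⟩ := Set.not_subset.1 h1
      exact ⟨a, mem_pt.2 ⟨h2, hs.2.1 h2, h3⟩⟩

theorem Hg.extend (h : Hg K B S S' R) {s : Finset U} (hs : Clq K B s) :
    ∃ t ∈ R, s ⊆ t ∧ t.card = 4 := by
  have key : ∀ s, Clq K B s → s.Nonempty → ∃ t ∈ R, s ⊆ t ∧ t.card = 4 := by
    rintro s hs ⟨a, ha⟩
    obtain ⟨t, h1, h2, h3, -⟩ := Mfa.pure h.cl.2.2 hs ⟨a, ha, hs.1 ha⟩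
    have h4 : t ∈ sA K B := mem_sA_iff_clq.2 ⟨⟨a, h2 ha⟩, h1⟩
    have h5 := h.two t h4 h3
    refine ⟨t, ?_, h2, h3⟩
    rw [h.eq]
    exact ⟨h4, Finset.card_pos.1 (by omega), Finset.card_pos.1 (by omega)⟩
  rcases s.eq_empty_or_nonempty with rfl | hn
  · obtain ⟨a, ha⟩ := h.cl.2.1.1
    obtain ⟨t, h1, -, h3⟩ := key {a} (clq_single_C1.2 ha) (Finset.singleton_nonempty a)
    exact ⟨t, h1, Finset.empty_subset _, h3⟩
  · exact key s hs hn

theorem Hg.card_le (h : Hg K B S S' R) {s : Finset U} (hs : s ∈ sA K B) : (pt S s).card ≤ 2 := by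
  obtain ⟨t, h1, h2, h3⟩ := h.extend (mem_sA_iff_clq.1 hs).2
  rw [h.eq] at h1
  exact (Finset.card_le_card (pt_mono h2)).trans (h.two t h1.1 h3).1.le

theorem Hg.cases (h : Hg K B S S' R) {s : Finset U} (hs : s ∈ R) :
    (∃ a, pt S s = {a}) ∨ ∃ a a', a ≠ a' ∧ pt S s = {a, a'} := by
  rw [h.eq] at hs
  have h1 := h.card_le hs.1
  have h2 := Finset.card_pos.2 hs.2.1
  by_cases h3 : (pt S s).card = 1
  · exact Or.inl (Finset.card_eq_one.1 h3)
  · exact Or.inr (Finset.card_eq_two.1 (by omega))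

theorem Hg.union (h : Hg K B S S' R) {s : Finset U} (hs : s ∈ sA K B) : pt S s ∪ pt S' s = s := by
  ext a
  rw [Finset.mem_union, mem_pt, mem_pt]
  refine ⟨fun h1 => h1.elim And.left And.left, fun h1 => ?_⟩
  have h2 : a ∈ S ∪ S' := h.un ▸ hs.2.1 h1
  exact h2.imp (fun h3 => ⟨h1, h3⟩) fun h3 => ⟨h1, h3⟩

theorem Hg.finite (h : Hg K B S S' R) : R.Finite := by
  rw [h.eq]
  exact (sA_finite h.cl.1).subset fun s hs => hs.1

theorem Hg.down (h : Hg K B S S' R) {s t : Finset U} (hs : s ∈ R) (ht : t ⊆ s)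
    (h1 : (pt S t).Nonempty) (h2 : (pt S' t).Nonempty) : t ∈ R := by
  rw [h.eq] at hs ⊢
  obtain ⟨a, ha⟩ := h1
  exact ⟨sA_down hs.1 ht ⟨a, (mem_pt.1 ha).1⟩, ⟨a, ha⟩, h2⟩

/-- Keeping one vertex of the part in `S`. -/
theorem Hg.keep (h : Hg K B S S' R) {s : Finset U} (hs : s ∈ R) {a : U} (ha : a ∈ pt S s) :
    insert a (pt S' s) ∈ bs R S {a} ∧ insert a (pt S' s) ⊆ s ∧
      pt S' (insert a (pt S' s)) = pt S' s := by
  have h0 := mem_pt.1 ha
  have h1 : insert a (pt S' s) ⊆ s :=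
    Finset.insert_subset h0.1 fun b hb => (mem_pt.1 hb).1
  have h2 : pt S (insert a (pt S' s)) = {a} := by
    ext b
    rw [mem_pt, Finset.mem_insert, Finset.mem_singleton, mem_pt]
    refine ⟨fun h3 => h3.1.elim id fun h4 => ?_, fun h3 => ⟨Or.inl h3, h3 ▸ h0.2⟩⟩
    exact (Set.disjoint_left.1 h.disj h3.2 h4.2).elim
  have h3 : pt S' (insert a (pt S' s)) = pt S' s := by
    ext b
    rw [mem_pt, Finset.mem_insert, mem_pt]
    refine ⟨fun h3 => h3.1.elim (fun h4 => ?_) id, fun h3 => ⟨Or.inr h3, h3.2⟩⟩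
    exact ⟨h4 ▸ h0.1, h3.2⟩
  refine ⟨⟨h.down hs h1 ?_ ?_, h2⟩, h1, h3⟩
  · rw [h2]
    exact Finset.singleton_nonempty a
  · rw [h3]
    rw [h.eq] at hs
    exact hs.2.2

theorem Hg.subset_nb (h : Hg K B S S' R) : R ⊆ nb K B S := by
  intro s hs
  rw [h.eq] at hs
  obtain ⟨a, ha⟩ := hs.2.1
  exact ⟨hs.1, a, (mem_pt.1 ha).1, (mem_pt.1 ha).2⟩

theorem Hg.edge_mem (h : Hg K B S S' R) {s : Finset U} (hs : s ∈ R) : pt S s ∈ sA K S := by
  rw [h.eq] at hs
  exact ⟨hs.2.1, fun a ha => (mem_pt.1 ha).2,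
    hs.1.2.2.subset fun a ha => (mem_pt.1 ha).1⟩

theorem Hg.curve_eq (h : Hg K B S S' R) {e : Finset U} (he : e ∈ sA K S) (h2 : e.card = 2) :
    bs R S e = {s | s ∈ sA K B ∧ e ⊂ s} := by
  ext s
  constructor
  · rintro ⟨h3, h4⟩
    rw [h.eq] at h3
    obtain ⟨b, hb⟩ := h3.2.2
    refine ⟨h3.1, (Finset.ssubset_iff_of_subset ?_).2 ⟨b, (mem_pt.1 hb).1, fun h5 => ?_⟩⟩
    · rw [← h4]
      exact fun a ha => (mem_pt.1 ha).1
    · exact Set.disjoint_left.1 h.disj (he.2.1 h5) (mem_pt.1 hb).2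
  · rintro ⟨h3, h4⟩
    have h5 : e = pt S s := Finset.eq_of_subset_of_card_le
      (fun a ha => mem_pt.2 ⟨h4.1 ha, he.2.1 ha⟩) (by rw [h2]; exact h.card_le h3)
    obtain ⟨b, hb, hb'⟩ := Finset.exists_of_ssubset h4
    refine ⟨?_, h5.symm⟩
    rw [h.eq]
    refine ⟨h3, h5 ▸ he.1, b, ?_⟩
    rw [← h.union h3, Finset.mem_union, ← h5] at hb
    exact hb.resolve_left hb'

theorem Hg.curve (h : Hg K B S S' R) {e : Finset U} (he : e ∈ sA K S) (h2 : e.card = 2) :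
    Sph (sG U) 2 (bs R S e) := by
  have hS : S ⊆ B := h.un ▸ Set.subset_union_left
  have h3 : Clq K B e := (mem_sA_iff_clq.1 (sA_mono hS he)).2
  obtain ⟨a, ha⟩ := he.1
  have h4 := (Mfa.link h.cl.2.2 h3 ⟨a, ha, h3.1 ha⟩).2
  rw [h2] at h4
  rw [h.curve_eq he h2]
  exact (upper_cell h3 h4 (by omega)).congr fun σ _ =>
    ⟨fun h5 => h5 (Finset.mem_coe.2 (Finset.mem_union_left _ ha)), False.elim⟩

theorem Hg.curve_null (h : Hg K B S S' R) {e : Finset U} (he : e ∈ sA K S) (h2 : e.card = 2)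
    {r : Finset U} {l : List (Finset U)} (hw : Wk (sG U) (bs R S e) r l r) :
    Null (sG U) (nb K B S) r l := by
  have hS : S ⊆ B := h.un ▸ Set.subset_union_left
  rw [h.curve_eq he h2] at hw
  have h3 := (cone_sco (G := sG U) (A := {s | s ∈ sA K B ∧ e ⊆ s}) (a := e)
    ⟨sA_mono hS he, subset_rfl⟩ fun s hs => adq_sG.2 (Or.inl hs.2)).2
  obtain ⟨a, ha⟩ := he.1
  exact (h3.null (hw.mono fun s hs => ⟨hs.1, hs.2.1⟩)).mono
    fun s hs => ⟨hs.1, a, hs.2 ha, he.2.1 ha⟩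

/-- A triangle lies in a second tetrahedron. -/
theorem Hg.other (h : Hg K B S S' R) {s : Finset U} (hs : s ∈ R) {a a' b b' : U} (ha : a ≠ a')
    (hb : b ≠ b') (h1 : pt S s = {a, a'}) (h2 : pt S' s = {b, b'}) :
    ∃ t ∈ R, ∃ b'', b'' ≠ b ∧ b' ≠ b'' ∧ pt S t = {a, a'} ∧ pt S' t = {b', b''} := by
  have hs' := hs
  rw [h.eq] at hs'
  have m1 : a ∈ s ∧ a ∈ S := mem_pt.1 (by rw [h1]; simp)
  have m2 : a' ∈ s ∧ a' ∈ S := mem_pt.1 (by rw [h1]; simp)
  have m3 : b' ∈ s ∧ b' ∈ S' := mem_pt.1 (by rw [h2]; simp)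
  have n1 : a ≠ b' := fun e => Set.disjoint_left.1 h.disj m1.2 (e ▸ m3.2)
  have n2 : a' ≠ b' := fun e => Set.disjoint_left.1 h.disj m2.2 (e ▸ m3.2)
  have h3 : ({a, a', b'} : Finset U) ⊆ s := by
    intro x hx
    simp only [Finset.mem_insert, Finset.mem_singleton] at hx
    rcases hx with rfl | rfl | rfl
    exacts [m1.1, m2.1, m3.1]
  have h4 : Clq K B {a, a', b'} := (mem_sA_iff_clq.1 hs'.1).2.subset h3
  have h5 : ({a, a', b'} : Finset U).card = 3 := Finset.card_eq_three.2 ⟨a, a', b', ha, n1, n2, rfl⟩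
  have h6 := (Mfa.link h.cl.2.2 h4 ⟨a, by simp, h4.1 (by simp)⟩).2
  rw [h5] at h6
  have h7 : Sph K 1 (Lk K B ({a, a', b'} : Finset U)) := h6.congr fun σ _ =>
    ⟨fun h5 => h5 (Finset.mem_coe.2 (Finset.mem_union_left _ (Finset.mem_insert_self a _))),
      False.elim⟩
  obtain ⟨c, hc, hcb⟩ := Set.exists_ne_of_one_lt_ncard
    (s := Lk K B ({a, a', b'} : Finset U)) (by rw [(sph_one.1 h7).1]; omega) b
  obtain ⟨h8, h9⟩ := (clq_lk h4).1 (clq_single_C1.2 hc)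
  have hc' : c ∉ ({a, a', b'} : Finset U) := Finset.disjoint_singleton_right.1 h9
  have h10 : ({a, a', b'} ∪ {c} : Finset U) ∈ sA K B := mem_sA_iff_clq.2 ⟨⟨a, by simp⟩, h8⟩
  have h11 := h.two _ h10 (by rw [Finset.card_union_of_disjoint h9, h5, Finset.card_singleton])
  have n3 : b' ≠ c := fun e => hc' (by simp [← e])
  have h12 : {a, a'} = pt S ({a, a', b'} ∪ {c}) := by
    refine Finset.eq_of_subset_of_card_le (fun x hx => ?_) (by rw [h11.1, Finset.card_pair ha])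
    simp only [Finset.mem_insert, Finset.mem_singleton] at hx
    rcases hx with rfl | rfl
    · exact mem_pt.2 ⟨by simp, m1.2⟩
    · exact mem_pt.2 ⟨by simp, m2.2⟩
  have h13 : c ∈ pt S' ({a, a', b'} ∪ {c}) := by
    have h14 : c ∈ ({a, a', b'} ∪ {c} : Finset U) := by simp
    rw [← h.union h10, Finset.mem_union, ← h12] at h14
    refine h14.resolve_left fun h15 => hc' ?_
    simp only [Finset.mem_insert, Finset.mem_singleton] at h15 ⊢
    exact h15.imp id Or.inl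
  have h14 : {b', c} = pt S' ({a, a', b'} ∪ {c}) := by
    refine Finset.eq_of_subset_of_card_le (fun x hx => ?_) (by rw [h11.2, Finset.card_pair n3])
    simp only [Finset.mem_insert, Finset.mem_singleton] at hx
    rcases hx with rfl | rfl
    · exact mem_pt.2 ⟨by simp, m3.2⟩
    · exact h13
  refine ⟨_, ?_, c, hcb, n3, h12.symm, h14.symm⟩
  rw [h.eq]
  exact ⟨h10, Finset.card_pos.1 (by omega), Finset.card_pos.1 (by omega)⟩

theorem dck_adj {lab : V → V → L} (g : L) (p q : V × L) :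
    (cov G lab L).Adj (dck g p) (dck g q) ↔ (cov G lab L).Adj p q := by
  exact cov_deck lab g⁻¹ p q

theorem res_adq {lab : V → V → L} (hl : Flat G A lab) {p : V × L} (hp : p.1 ∈ A) {t : V}
    (ht : t ∈ A) (h : Adq G t p.1) : Adq (cov G lab L) (res lab p t) p := by
  exact (cov_adq hl ht hp).2 ⟨h, rfl⟩

theorem eq_res {lab : V → V → L} (hl : Flat G A lab) {p q : V × L} (hp : p.1 ∈ A)
    (h : Adq (cov G lab L) q p) : q = res lab p q.1 := by
  rcases h with rfl | h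
  · exact Prod.ext rfl (by rw [res, hl.self hp, one_mul])
  · exact Prod.ext rfl h.2.1

theorem res_res {lab : V → V → L} (hl : Flat G A lab) {p : V × L} (hp : p.1 ∈ A) {t u : V}
    (ht : t ∈ A) (hu : u ∈ A) (h1 : Adq G u t) (h2 : Adq G t p.1) (h3 : Adq G u p.1) :
    res lab (res lab p t) u = res lab p u := by
  refine Prod.ext rfl ?_
  simp only [res]
  rw [← mul_assoc, hl u hu t ht p.1 hp h1 h2 h3]

theorem res_dck {lab : V → V → L} (g : L) (p : V × L) (t : V) :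
    res lab (dck g p) t = dck g (res lab p t) := by
  exact Prod.ext rfl (mul_assoc _ _ _).symm

theorem reach_dck_iff {lab : V → V → L} (hl : Flat G A lab) {p : V × L} (hp : p.1 ∈ A) (g : L) :
    Reach (cov G lab L) (up A L) p (dck g p) ↔
      ∃ l, Wk G A p.1 l p.1 ∧ ev lab p.1 l = p.2 * g * p.2⁻¹ := by
  constructor
  · intro h
    obtain ⟨l, hw⟩ := h.wk hp
    obtain ⟨h1, h2⟩ := hw.proj hl
    refine ⟨_, h1, ?_⟩
    simp only [dck, smul_eq_mul] at h2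
    rw [mul_assoc, ← inv_inv g, ← mul_inv_rev]
    exact eq_mul_inv_of_mul_eq h2.symm
  · rintro ⟨l, hw, h1⟩
    obtain ⟨l', h2, -⟩ := hw.lift (Ω := L) hl (p.2 * g⁻¹)
    have h3 : ev lab p.1 l • (p.2 * g⁻¹) = p.2 := by
      rw [h1, smul_eq_mul]
      group
    rw [h3] at h2
    exact h2.reach

theorem reach_lift {lab : V → V → L} (hl : Flat G A lab) {p q : V × L} (hp : p.1 ∈ A)
    (h : Reach G A p.1 q.1) : ∃ g, Reach (cov G lab L) (up A L) p (dck g q) := by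
  obtain ⟨l, hw⟩ := h.wk hp
  obtain ⟨l', h2, -⟩ := hw.lift (Ω := L) hl ((ev lab p.1 l)⁻¹ * p.2)
  rw [smul_eq_mul, mul_inv_cancel_left] at h2
  refine ⟨((ev lab p.1 l)⁻¹ * p.2)⁻¹ * q.2, ?_⟩
  have h3 : dck (((ev lab p.1 l)⁻¹ * p.2)⁻¹ * q.2) q = (q.1, (ev lab p.1 l)⁻¹ * p.2) := by
    refine Prod.ext rfl ?_
    simp only [dck]
    group
  rw [h3]
  exact h2.reach

theorem two_main : TWO_st := by
  intro U K B h
  refine ⟨h.sd le_rfl, fun σ hσ h4 => ?_⟩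
  have h1 : Set.InjOn Finset.card (σ : Set (Finset U)) := fun s hs t ht e =>
    (adq_sG.1 ((mem_sA.1 hσ).2.2 s hs t ht)).elim
      (fun h2 => Finset.eq_of_subset_of_card_le h2 e.ge)
      fun h2 => (Finset.eq_of_subset_of_card_le h2 e.le).symm
  have h2 : σ.image Finset.card = Finset.Icc 1 4 := by
    refine Finset.eq_of_subset_of_card_le (fun n hn => ?_)
      (by rw [Finset.card_image_of_injOn h1, h4]; simp)
    obtain ⟨s, hs, rfl⟩ := Finset.mem_image.1 hn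
    have h3 := hσ.2.1 hs
    obtain ⟨a, ha⟩ := h3.1
    exact Finset.mem_Icc.2 ⟨Finset.card_pos.2 ⟨a, ha⟩,
      (Mfa.link h.2.2 (mem_sA_iff_clq.1 h3).2 ⟨a, ha, h3.2.1 ha⟩).1⟩
  have h3 : (σ.filter fun s => s.card ≤ 2).image Finset.card =
      (Finset.Icc 1 4).filter (· ≤ 2) := by
    rw [← h2, Finset.filter_image]
  have h5 : (σ.filter fun s => s.card ≤ 2).card = 2 := by
    rw [← Finset.card_image_of_injOn (h1.mono fun s hs => (Finset.mem_filter.1 hs).1), h3]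
    decide
  convert h5 using 2
  ext s
  simp

end Pool.Agent.MP_6374aa_g

end

section

/-! The Heegaard surface is connected. -/

namespace Pool.Agent.MP_6374aa_g

open Pool.Agent.MP_6374aa_gt Classical

variable {V V' V'' : Type} {G : SimpleGraph V} {G' : SimpleGraph V'} {G'' : SimpleGraph V''}
  {A : Set V} {A' : Set V'} {A'' : Set V''} {L : Type} [Group L]

variable {U : Type} {K : SimpleGraph U} {B S S' : Set U} {R : Set (Finset U)} {Γ : Type} [Group Γ]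
  {ρ : Finset U → Finset U → Γ}

theorem Hg.sub_M2 (h : Hg K B S S' R) : S ⊆ B := h.un ▸ Set.subset_union_left

theorem Hg.mem_or_M2 (h : Hg K B S S' R) {x : U} (hx : x ∈ B) : x ∈ S ∨ x ∈ S' := by
  rw [← h.un] at hx
  exact hx

theorem Hg.mem_R_M2 (h : Hg K B S S' R) {s : Finset U} :
    s ∈ R ↔ s ∈ sA K B ∧ (pt S s).Nonempty ∧ (pt S' s).Nonempty := by
  rw [h.eq]
  rfl

/-- The link of a vertex of `S` stays connected after removing vertices of `S`. -/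
theorem Hg.pre_lk_M2 (h : Hg K B S S' R) {a : U} (ha : a ∈ S) {S0 : Set U} (h0 : S0 ⊆ S) :
    Pre K (Lk K B {a} \ S0) := by
  have haB : a ∈ B := h.sub_M2 ha
  have hs : Sph K 3 (Lk K B {a}) := h.cl.2.2.sph_lk haB (by simp)
  have e : Lk K B {a} \ S0 = Lk K B {a} \ (Lk K B {a} ∩ S0) := by
    ext x
    simp only [Set.mem_sdiff, Set.mem_inter_iff]
    tauto
  rw [e]
  refine rem_many_pre ?_ (Cell.con hs).2 ?_
  · intro u hu w hw huw
    obtain ⟨huB, hau⟩ := mem_lk_C1.1 hu.1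
    obtain ⟨hwB, haw⟩ := mem_lk_C1.1 hw.1
    have hm : ({a, u, w} : Finset U) ∈ sA K B := by
      refine mem_sA.2 ⟨by simp, ?_, ?_⟩
      · intro x hx
        simp only [Finset.coe_insert, Finset.coe_singleton, Set.mem_insert_iff,
          Set.mem_singleton_iff] at hx
        rcases hx with rfl | rfl | rfl <;> assumption
      · intro x hx y hy
        simp only [Finset.mem_insert, Finset.mem_singleton] at hx hy
        rcases hx with rfl | rfl | rfl <;> rcases hy with rfl | rfl | rfl <;>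
          first
            | exact adq_refl _
            | exact Or.inr hau
            | exact Or.inr haw
            | exact Or.inr huw
            | exact Or.inr hau.symm
            | exact Or.inr haw.symm
            | exact Or.inr huw.symm
    have hc := h.card_le hm
    have he : pt S ({a, u, w} : Finset U) = {a, u, w} := by
      ext x
      rw [mem_pt]
      refine ⟨fun hx => hx.1, fun hx => ⟨hx, ?_⟩⟩
      simp only [Finset.mem_insert, Finset.mem_singleton] at hx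
      rcases hx with rfl | rfl | rfl
      · exact ha
      · exact h0 hu.2
      · exact h0 hw.2
    rw [he, Finset.card_eq_three.2 ⟨a, u, w, hau.ne, haw.ne, huw.ne, rfl⟩] at hc
    omega
  · intro v hv
    have h2 : Sph K 2 (Lk K (Lk K B {a}) {v}) := (Sph.mf hs).sph_lk hv.1 (by simp)
    exact (Cell.con h2).2

theorem Hg.ins_mem_M2 (h : Hg K B S S' R) {a : U} (ha : a ∈ S) {t : Finset U}
    (ht : t ∈ sA K (Lk K B {a} \ S)) : insert a t ∈ bs R S {a} := by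
  have haB : a ∈ B := h.sub_M2 ha
  obtain ⟨hn, hc⟩ := mem_sA_iff_clq.1 ht
  have hc' : Clq K (Lk K B {a}) t := ⟨fun x hx => (hc.1 hx).1, hc.2⟩
  have hi := ((clq_ins_C1 haB).1 hc').1
  refine ⟨h.mem_R_M2.2 ⟨mem_sA_iff_clq.2 ⟨by simp, hi⟩, ⟨a, mem_pt.2 ⟨by simp, ha⟩⟩, ?_⟩, ?_⟩
  · obtain ⟨x, hx⟩ := hn
    have hx' := hc.1 hx
    refine ⟨x, mem_pt.2 ⟨by simp [hx], ?_⟩⟩
    exact (h.mem_or_M2 hx'.1.1).resolve_left hx'.2
  · ext x
    rw [mem_pt, Finset.mem_insert, Finset.mem_singleton]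
    constructor
    · rintro ⟨hx | hx, hxS⟩
      · exact hx
      · exact absurd hxS (hc.1 hx).2
    · rintro rfl
      exact ⟨Or.inl rfl, ha⟩

theorem Hg.erase_mem_M2 (h : Hg K B S S' R) {a : U} (ha : a ∈ S) {s : Finset U}
    (hs : s ∈ bs R S {a}) : s.erase a ∈ sA K (Lk K B {a} \ S) ∧ insert a (s.erase a) = s := by
  have haB : a ∈ B := h.sub_M2 ha
  obtain ⟨hsR, hp⟩ := hs
  obtain ⟨hsA, -, x, hx⟩ := h.mem_R_M2.1 hsR
  have has : a ∈ s := (mem_pt.1 (hp ▸ Finset.mem_singleton_self a : a ∈ pt S s)).1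
  have hi : insert a (s.erase a) = s := Finset.insert_erase has
  have hc : Clq K (Lk K B {a}) (s.erase a) :=
    (clq_ins_C1 haB).2 ⟨hi.symm ▸ (mem_sA_iff_clq.1 hsA).2, by simp⟩
  refine ⟨mem_sA_iff_clq.2 ⟨⟨x, Finset.mem_erase.2 ⟨?_, (mem_pt.1 hx).1⟩⟩, ?_, hc.2⟩, hi⟩
  · rintro rfl
    exact Set.disjoint_left.1 h.disj ha (mem_pt.1 hx).2
  · intro y hy
    refine ⟨hc.1 hy, fun hyS => ?_⟩
    have hy' := Finset.mem_erase.1 (Finset.mem_coe.1 hy)
    have : y ∈ pt S s := mem_pt.2 ⟨hy'.2, hyS⟩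
    rw [hp, Finset.mem_singleton] at this
    exact hy'.1 this

theorem Hg.con_vertex (h : Hg K B S S' R) {a : U} (ha : a ∈ S) : Con (sG U) (bs R S {a}) := by
  have haB : a ∈ B := h.sub_M2 ha
  have e : bs R S {a} = insert a '' sA K (Lk K B {a} \ S) := by
    ext s
    constructor
    · intro hs
      obtain ⟨h1, h2⟩ := h.erase_mem_M2 ha hs
      exact ⟨_, h1, h2⟩
    · rintro ⟨t, ht, rfl⟩
      exact h.ins_mem_M2 ha ht
  refine ⟨?_, ?_⟩
  · obtain ⟨t, ht, hat, -⟩ := h.extend (clq_single_C1.2 haB)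
    exact ⟨_, (h.keep ht (mem_pt.2 ⟨hat (Finset.mem_singleton_self a), ha⟩)).1⟩
  · rw [e]
    refine Pre.image (A := Set.univ) (pre_sA.2 (h.pre_lk_M2 ha subset_rfl)) ?_
    exact isHom_of_mono (fun _ _ => Set.mem_univ _)
      fun _ _ _ _ hst => Finset.insert_subset_insert a hst

theorem Hg.con_S (h : Hg K B S S' R) : Con K S := by
  refine ⟨?_, ?_⟩
  · obtain ⟨t, ht, -, -⟩ := h.extend (clq_empty_C1 (G := K) (A := B))
    obtain ⟨x, hx⟩ := (h.mem_R_M2.1 ht).2.1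
    exact ⟨x, (mem_pt.1 hx).2⟩
  · have e : S = B \ S' := by
      ext x
      constructor
      · intro hx
        exact ⟨h.sub_M2 hx, Set.disjoint_left.1 h.disj hx⟩
      · intro hx
        exact (h.mem_or_M2 hx.1).resolve_right hx.2
    rw [e]
    exact rem_seq_pre (h.cl.1.inter_of_left S') h.cl.2.1.2
      fun v hv S0 h0 => h.symm.pre_lk_M2 hv.2 h0

theorem Hg.con (h : Hg K B S S' R) : Con (sG U) R := by
  refine ⟨?_, ?_⟩
  · obtain ⟨t, ht, -, -⟩ := h.extend (clq_empty_C1 (G := K) (A := B))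
    exact ⟨t, ht⟩
  · refine pre_of_fibres h.con_S.2 (fun a => bs R S {a})
      (fun a ha => ⟨fun s hs => hs.1, h.con_vertex ha⟩) ?_ ?_
    · intro a ha b hb hab
      obtain ⟨t, ht, hs, -⟩ := h.extend
        (mem_sA_iff_clq.1 (pair_mem_sA (h.sub_M2 ha) (h.sub_M2 hb) (Or.inr hab))).2
      obtain ⟨h1, h2, -⟩ := h.keep ht (mem_pt.2 ⟨hs (by simp : a ∈ ({a, b} : Finset U)), ha⟩)
      obtain ⟨h3, h4, -⟩ := h.keep ht (mem_pt.2 ⟨hs (by simp : b ∈ ({a, b} : Finset U)), hb⟩)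
      exact ⟨_, h1, _, h3, (Reach.single h1.1 ht (adq_sG.2 (Or.inl h2))).trans
        (Reach.single ht h3.1 (adq_sG.2 (Or.inr h4)))⟩
    · intro s hs
      obtain ⟨a, ha⟩ := (h.mem_R_M2.1 hs).2.1
      obtain ⟨h1, h2, -⟩ := h.keep hs ha
      exact ⟨a, (mem_pt.1 ha).2, _, h1, Reach.single hs h1.1 (adq_sG.2 (Or.inr h2))⟩

theorem rcon_main : RCON_st := by
  intro U K B Hi h
  exact h.hg.con

end Pool.Agent.MP_6374aa_g

end

section

/-! Existence of the dual graph. -/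

namespace Pool.Agent.MP_6374aa_g

open Pool.Agent.MP_6374aa_gt Classical

variable {V V' V'' : Type} {G : SimpleGraph V} {G' : SimpleGraph V'} {G'' : SimpleGraph V''}
  {A : Set V} {A' : Set V'} {A'' : Set V''} {L : Type} [Group L]

variable {U : Type} {K : SimpleGraph U} {B S S' : Set U} {R : Set (Finset U)} {Γ : Type} [Group Γ]
  {ρ : Finset U → Finset U → Γ}

/-- Typed points. -/
def P_M3 (R : Set (Finset U)) (S : Set U) (Γ : Type) : Type :=
  {x : U × (Finset U × Γ) // x.2.1 ∈ bs R S {x.1}}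

/-- Two typed points lie in the same component. -/
def st_M3 (R : Set (Finset U)) (S : Set U) (ρ : Finset U → Finset U → Γ) :
    Setoid (P_M3 R S Γ) where
  r x y := x.1.1 = y.1.1 ∧ Reach (cov (sG U) ρ Γ) (up (bs R S {x.1.1}) Γ) x.1.2 y.1.2
  iseqv := ⟨fun _ => ⟨rfl, Reach.refl _⟩, fun h => ⟨h.1.symm, h.1 ▸ h.2.symm⟩,
    fun h h' => ⟨h.1.trans h'.1, h.2.trans (h.1 ▸ h'.2)⟩⟩

theorem reach_dck_M3 {lab : V → V → L} (g : L) {p q : V × L}
    (h : Reach (cov G lab L) (up A L) p q) :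
    Reach (cov G lab L) (up A L) (dck g p) (dck g q) := by
  unfold Reach at h ⊢
  induction h with
  | refl => exact Relation.ReflTransGen.refl
  | tail _ h ih => exact Relation.ReflTransGen.tail ih ⟨h.1, h.2.1, (dck_adj g _ _).2 h.2.2⟩

/-- The deck transformation on typed points. -/
def dp_M3 (g : Γ) (x : P_M3 R S Γ) : P_M3 R S Γ := ⟨(x.1.1, dck g x.1.2), x.2⟩

/-- The action on components. -/
@[reducible] def act_M3 (R : Set (Finset U)) (S : Set U) (ρ : Finset U → Finset U → Γ) :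
    MulAction Γ (Quotient (st_M3 R S ρ)) where
  smul g := Quotient.map' (dp_M3 g) fun _ _ h => ⟨h.1, reach_dck_M3 g h.2⟩
  one_smul x := by
    induction x using Quotient.inductionOn' with
    | h x =>
      change Quotient.mk'' (dp_M3 1 x) = Quotient.mk'' x
      congr 1
      apply Subtype.ext
      simp [dp_M3, dck]
  mul_smul g g' x := by
    induction x using Quotient.inductionOn' with
    | h x =>
      change Quotient.mk'' (dp_M3 (g * g') x) = Quotient.mk'' (dp_M3 g (dp_M3 g' x))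
      congr 1
      apply Subtype.ext
      simp [dp_M3, dck, mul_assoc]

/-- The type of a component. -/
def ty_M3 (R : Set (Finset U)) (S : Set U) (ρ : Finset U → Finset U → Γ) :
    Quotient (st_M3 R S ρ) → U :=
  Quotient.lift (fun x => x.1.1) fun _ _ h => h.1

/-- The component next to a point. -/
noncomputable def vx_M3 (h : Hg K B S S' R) (ρ : Finset U → Finset U → Γ)
    (d : Quotient (st_M3 R S ρ)) (p : Finset U × Γ) (a : U) : Quotient (st_M3 R S ρ) :=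
  if H : p.1 ∈ R ∧ a ∈ pt S p.1 then
    Quotient.mk'' ⟨(a, res ρ p (insert a (pt S' p.1))), (h.keep H.1 H.2).1⟩
  else d

theorem vx_eq_M3 (h : Hg K B S S' R) (d : Quotient (st_M3 R S ρ)) {p : Finset U × Γ}
    (hp : p.1 ∈ R) {a : U} (ha : a ∈ pt S p.1) :
    vx_M3 h ρ d p a =
      Quotient.mk'' ⟨(a, res ρ p (insert a (pt S' p.1))), (h.keep hp ha).1⟩ := by
  unfold vx_M3
  rw [dif_pos ⟨hp, ha⟩]

theorem vx_self_M3 (h : Hg K B S S' R) (hρ : Flat (sG U) R ρ) (d : Quotient (st_M3 R S ρ))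
    {p : Finset U × Γ} {a : U} (hp : p.1 ∈ bs R S {a}) :
    vx_M3 h ρ d p a = Quotient.mk'' ⟨(a, p), hp⟩ := by
  have ha : a ∈ pt S p.1 := by rw [hp.2]; exact Finset.mem_singleton_self a
  have hs : p.1 ∈ sA K B := by
    have := hp.1
    rw [h.eq] at this
    exact this.1
  have e : insert a (pt S' p.1) = p.1 := by
    have := h.union hs
    rw [hp.2] at this
    rw [Finset.insert_eq]
    exact this
  rw [vx_eq_M3 h d hp.1 ha]
  congr 1
  apply Subtype.ext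
  change (a, res ρ p (insert a (pt S' p.1))) = (a, p)
  rw [e]
  simp [res, hρ.self hp.1]

theorem vx_const_M3 (h : Hg K B S S' R) (hρ : Flat (sG U) R ρ) (d : Quotient (st_M3 R S ρ))
    {p q : Finset U × Γ} (hp : p.1 ∈ R) (hq : q.1 ∈ R) (hpq : Adq (cov (sG U) ρ Γ) p q)
    (hs : p.1 ⊆ q.1) {a : U} (ha : a ∈ pt S p.1) (ha' : a ∈ pt S q.1) :
    vx_M3 h ρ d p a = vx_M3 h ρ d q a := by
  rw [vx_eq_M3 h d hp ha, vx_eq_M3 h d hq ha']
  obtain ⟨ht, htp, -⟩ := h.keep hp ha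
  obtain ⟨hu, huq, -⟩ := h.keep hq ha'
  have htu : insert a (pt S' p.1) ⊆ insert a (pt S' q.1) :=
    Finset.insert_subset_insert a (pt_mono hs)
  have e1 : p = res ρ q p.1 := eq_res hρ hq hpq
  have e2 : res ρ p (insert a (pt S' p.1)) = res ρ q (insert a (pt S' p.1)) := by
    have := res_res hρ hq hp ht.1 (adq_sG.2 (Or.inl htp)) (adq_sG.2 (Or.inl hs))
      (adq_sG.2 (Or.inl (htp.trans hs)))
    rw [← e1] at this
    exact this
  have e3 := res_res hρ hq hu.1 ht.1 (adq_sG.2 (Or.inl htu)) (adq_sG.2 (Or.inl huq))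
    (adq_sG.2 (Or.inl (htp.trans hs)))
  apply Quotient.sound'
  refine ⟨rfl, ?_⟩
  change Reach _ _ (res ρ p (insert a (pt S' p.1))) (res ρ q (insert a (pt S' q.1)))
  refine Reach.single ht hu ?_
  rw [e2, ← e3]
  exact res_adq hρ (p := res ρ q (insert a (pt S' q.1))) hu.1 ht.1 (adq_sG.2 (Or.inl htu))

theorem exists_dt (h : Hg K B S S' R) (hρ : Flat (sG U) R ρ) : Nonempty (DT R S ρ) := by
  have hne : Nonempty (Quotient (st_M3 R S ρ)) := by
    obtain ⟨t, ht, -⟩ := h.extend (s := ∅) ⟨by simp, by simp⟩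
    have h1 : (pt S t).Nonempty := by
      have := ht
      rw [h.eq] at this
      exact this.2.1
    obtain ⟨a, ha⟩ := h1
    exact ⟨Quotient.mk'' ⟨(a, (insert a (pt S' t), 1)), (h.keep ht ha).1⟩⟩
  obtain ⟨d⟩ := hne
  have hty : ∀ p : Finset U × Γ, p.1 ∈ R → ∀ a ∈ pt S p.1,
      ty_M3 R S ρ (vx_M3 h ρ d p a) = a := by
    intro p hp a ha
    rw [vx_eq_M3 h d hp ha]
    rfl
  let X : SimpleGraph (Quotient (st_M3 R S ρ)) :=
    { Adj := fun x x' => ∃ p : Finset U × Γ, p.1 ∈ R ∧ ∃ a a', a ≠ a' ∧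
        pt S p.1 = {a, a'} ∧ vx_M3 h ρ d p a = x ∧ vx_M3 h ρ d p a' = x'
      symm := ⟨by
        rintro x x' ⟨p, hp, a, a', hne, e, h1, h2⟩
        exact ⟨p, hp, a', a, hne.symm, e.trans (Finset.pair_comm a a'), h2, h1⟩⟩
      loopless := ⟨by
        rintro x ⟨p, hp, a, a', hne, e, h1, h2⟩
        apply hne
        rw [← hty p hp a (by rw [e]; simp), ← hty p hp a' (by rw [e]; simp), h1, h2]⟩ }
  refine ⟨@DT.mk U R S Γ _ ρ (Quotient (st_M3 R S ρ)) (act_M3 R S ρ) X (ty_M3 R S ρ)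
    (vx_M3 h ρ d) hty ?_ ?_ ?_ ?_ fun _ _ => Iff.rfl⟩
  · intro g p hp a ha
    rw [vx_eq_M3 h d hp ha, vx_eq_M3 h d (p := dck g p) hp ha]
    change _ = Quotient.mk'' (dp_M3 g _)
    congr 1
    apply Subtype.ext
    change (a, res ρ (dck g p) _) = (a, dck g (res ρ p _))
    rw [res_dck]
    rfl
  · intro p q hp hq hpq a ha ha'
    rcases hpq.1 with h1 | h1
    · exact vx_const_M3 h hρ d hp hq (Or.inr hpq) h1.subset ha ha'
    · exact (vx_const_M3 h hρ d hq hp (Or.inr hpq.symm) h1.subset ha' ha).symm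
  · intro a p hp q hq e
    rw [vx_self_M3 h hρ d hp, vx_self_M3 h hρ d hq] at e
    exact (Quotient.exact' e).2
  · intro x
    induction x using Quotient.inductionOn' with
    | h x => exact ⟨x.1.2, x.2, vx_self_M3 h hρ d x.2⟩

end Pool.Agent.MP_6374aa_g

end

section

/-! The dual graph is a tree. -/

namespace Pool.Agent.MP_6374aa_g

open Pool.Agent.MP_6374aa_gt Classical

variable {V V' V'' : Type} {G : SimpleGraph V} {G' : SimpleGraph V'} {G'' : SimpleGraph V''}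
  {A : Set V} {A' : Set V'} {A'' : Set V''} {L : Type} [Group L]

variable {U : Type} {K : SimpleGraph U} {B S S' : Set U} {R : Set (Finset U)} {Γ : Type} [Group Γ]
  {ρ : Finset U → Finset U → Γ}

theorem DT.const_reach (D : DT R S ρ) {σ : Finset U} {p q : Finset U × Γ}
    (hp : p ∈ up (bs R S σ) Γ) (h : Reach (cov (sG U) ρ Γ) (up (bs R S σ) Γ) p q) {a : U}
    (ha : a ∈ σ) : D.vx p a = D.vx q a := by
  refine Reach.const (φ := fun p => D.vx p a) (fun u hu w hw e => ?_) h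
  exact D.const u w hu.1 hw.1 e a (hu.2.symm ▸ ha) (hw.2.symm ▸ ha)

theorem DT.vx_res (h : Hg K B S S' R) (hρ : Flat (sG U) R ρ) (D : DT R S ρ) {p : Finset U × Γ}
    (hp : p.1 ∈ R) {t : Finset U} (ht : t ∈ R) (hs : t ⊆ p.1 ∨ p.1 ⊆ t) {a : U}
    (h1 : a ∈ pt S t) (h2 : a ∈ pt S p.1) : D.vx (res ρ p t) a = D.vx p a := by
  rcases res_adq hρ hp ht (adq_sG.2 hs) with e | e
  · rw [e]
  · exact D.const _ _ ht hp e a h1 h2

theorem nest_M4 {u w : Finset U × Γ} (e : Adq (cov (sG U) ρ Γ) u w) :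
    pt S u.1 ⊆ pt S w.1 ∨ pt S w.1 ⊆ pt S u.1 := by
  rcases e with rfl | e
  · exact Or.inl subset_rfl
  · exact (adq_sG.1 (Or.inr e.1)).imp pt_mono pt_mono

theorem card_M4 (h : Hg K B S S' R) {s : Finset U} (hs : s ∈ R) :
    (pt S s).card = 1 ∨ (pt S s).card = 2 := by
  rcases h.cases hs with ⟨a, e⟩ | ⟨a, a', e1, e⟩
  · exact Or.inl (e ▸ Finset.card_singleton a)
  · exact Or.inr (e ▸ Finset.card_pair e1)

theorem same_M4 {u w : Finset U × Γ} (e : Adq (cov (sG U) ρ Γ) u w)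
    (hc : (pt S u.1).card = (pt S w.1).card) : pt S u.1 = pt S w.1 :=
  (nest_M4 e).elim (fun k => Finset.eq_of_subset_of_card_le k hc.ge)
    fun k => (Finset.eq_of_subset_of_card_le k hc.le).symm

theorem sg_M4 {P Q W : Prop} (h : W ↔ (P ↔ Q)) : sg_B3 P * sg_B3 Q = sg_B3 W := by
  rw [z2_eq_iff_B3, mul_eq_one_iff_eq_inv, z2_inv, sg_eq_B3, sg_one_B3, h]

theorem tri_M4 {P Q W P' Q' W' : Prop} (h1 : P → ¬ P') (h2 : Q → ¬ Q') (h3 : W → ¬ W')
    (h : ((P ↔ Q) ∧ (P' ↔ Q')) ∨ ((Q ↔ W) ∧ (Q' ↔ W')) ∨ ((P ↔ W) ∧ (P' ↔ W'))) :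
    ¬ ((P ∧ W') ∨ (P' ∧ W)) ↔ (¬ ((P ∧ Q') ∨ (P' ∧ Q)) ↔ ¬ ((Q ∧ W') ∨ (Q' ∧ W))) := by
  rcases h with ⟨k1, k2⟩ | ⟨k1, k2⟩ | ⟨k1, k2⟩ <;> rw [k1, k2] <;> clear k1 k2 <;> tauto

theorem side_M4 (h : Hg K B S S' R) (hρ : UL (sG U) R ρ) {a a' : U} (hne : a ≠ a')
    (p : Finset U × Γ) : ∃ W : Set (Finset U × Γ), ∀ u ∈ up R Γ, ∀ w ∈ up R Γ,
      Adq (cov (sG U) ρ Γ) u w →
      (¬ ((u ∈ cmp (cov (sG U) ρ Γ) (up (bs R S {a, a'}) Γ) p ∧ pt S w.1 = {a}) ∨
        (pt S u.1 = {a} ∧ w ∈ cmp (cov (sG U) ρ Γ) (up (bs R S {a, a'}) Γ) p)) ↔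
      (u ∈ W ↔ w ∈ W)) := by
  set E := cmp (cov (sG U) ρ Γ) (up (bs R S {a, a'}) Γ) p with hE
  have h1 : ∀ u ∈ E, pt S u.1 ≠ {a} := fun u hu e => by
    have k := congrArg Finset.card (e.symm.trans hu.1.2)
    rw [Finset.card_pair hne, Finset.card_singleton] at k
    omega
  have h2 : ∀ u ∈ up R Γ, ∀ w ∈ up R Γ, Adq (cov (sG U) ρ Γ) u w → pt S u.1 = pt S w.1 →
      u ∈ E → w ∈ E := fun u _ w hw e k hu =>
    have k1 : w ∈ up (bs R S {a, a'}) Γ := ⟨hw, k.symm.trans hu.1.2⟩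
    ⟨k1, hu.2.trans (Reach.single hu.1 k1 e)⟩
  have h3 : ∀ u ∈ up R Γ, ∀ w ∈ up R Γ, Adq (cov (sG U) ρ Γ) u w →
      (pt S u.1).card = (pt S w.1).card →
      (u ∈ E ↔ w ∈ E) ∧ (pt S u.1 = {a} ↔ pt S w.1 = {a}) := fun u hu w hw e k =>
    ⟨⟨h2 u hu w hw e (same_M4 e k), h2 w hw u hu (adq_symm e) (same_M4 e k).symm⟩,
      by rw [same_M4 e k]⟩
  refine (pot_iff_cob.1 (hρ.cov_sco Z2 (fun u w =>
    sg_B3 (¬ ((u ∈ E ∧ pt S w.1 = {a}) ∨ (pt S u.1 = {a} ∧ w ∈ E)))) ?_)).imp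
    fun W hW u hu w hw e => sg_one_B3.symm.trans (hW u hu w hw e)
  intro u hu v hv w hw e1 e2 e3
  refine sg_M4 (tri_M4 (h1 u) (h1 v) (h1 w) ?_)
  have k4 : (pt S u.1).card = (pt S v.1).card ∨ (pt S v.1).card = (pt S w.1).card ∨
      (pt S u.1).card = (pt S w.1).card := by
    have := card_M4 h hu
    have := card_M4 h hv
    have := card_M4 h hw
    omega
  exact k4.imp (h3 u hu v hv e1) (Or.imp (h3 v hv w hw e2) (h3 u hu w hw e3))

theorem key_M4 (h : Hg K B S S' R) (hρ : UL (sG U) R ρ) (D : DT R S ρ) {a a' : U} (hne : a ≠ a')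
    (p : Finset U × Γ) : ∃ χ : D.T → Prop, ∀ q : Finset U × Γ, q.1 ∈ R → ∀ b b', b ≠ b' →
      pt S q.1 = {b, b'} → ((χ (D.vx q b) ↔ χ (D.vx q b')) ↔
        q ∉ cmp (cov (sG U) ρ Γ) (up (bs R S {a, a'}) Γ) p) := by
  obtain ⟨W, hW⟩ := side_M4 h hρ hne p
  set E := cmp (cov (sG U) ρ Γ) (up (bs R S {a, a'}) Γ) p with hE
  have h1 : ∀ b, ∀ u ∈ up (bs R S {b}) Γ, u ∉ E := fun b u hu e => by
    have k := congrArg Finset.card (hu.2.symm.trans e.1.2)
    rw [Finset.card_pair hne, Finset.card_singleton] at k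
    omega
  have h2 : ∀ b, ∀ u ∈ up (bs R S {b}) Γ, (∃ r ∈ up (bs R S {D.ty (D.vx u b)}) Γ,
      D.vx r (D.ty (D.vx u b)) = D.vx u b ∧ r ∈ W) ↔ u ∈ W := by
    intro b u hu
    rw [D.ty_vx u hu.1 b (hu.2.symm ▸ Finset.mem_singleton_self b)]
    refine ⟨fun ⟨r, k1, k2, k3⟩ => ?_, fun k => ⟨u, hu, rfl, k⟩⟩
    refine (Reach.const (φ := fun x => x ∈ W) (fun x hx y hy e => propext ?_)
      (D.sep b r k1 u hu k2)).mp k3
    exact (hW x hx.1 y hy.1 (Or.inr e)).1 fun k =>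
      k.elim (fun k => h1 b x hx k.1) fun k => h1 b y hy k.2
  have h3 : ∀ q : Finset U × Γ, q.1 ∈ R → ∀ b ∈ pt S q.1,
      (((∃ r ∈ up (bs R S {D.ty (D.vx q b)}) Γ, D.vx r (D.ty (D.vx q b)) = D.vx q b ∧ r ∈ W) ↔
        q ∈ W) ↔ ¬ (b = a ∧ q ∈ E)) := by
    intro q hq b hb
    obtain ⟨k1, k2, -⟩ := h.keep hq hb
    have k3 : res ρ q (insert b (pt S' q.1)) ∈ up (bs R S {b}) Γ := k1
    rw [← D.vx_res h hρ.flat hq k1.1 (Or.inl k2) (k1.2.symm ▸ Finset.mem_singleton_self b) hb,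
      h2 b _ k3, ← hW _ k1.1 q hq (res_adq hρ.flat hq k1.1 (adq_sG.2 (Or.inl k2))), k3.2,
      Finset.singleton_inj]
    have := h1 b _ k3
    tauto
  refine ⟨fun x => ∃ r ∈ up (bs R S {D.ty x}) Γ, D.vx r (D.ty x) = x ∧ r ∈ W,
    fun q hq b b' hb e => ?_⟩
  have k1 := h3 q hq b (e.symm ▸ Finset.mem_insert_self _ _)
  have k2 := h3 q hq b' (e.symm ▸ Finset.mem_insert_of_mem (Finset.mem_singleton_self _))
  have k3 : q ∈ E → (b = a ↔ ¬ b' = a) := fun k => by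
    have k4 : a ∈ ({b, b'} : Finset U) := (e.symm.trans k.1.2).symm ▸ Finset.mem_insert_self _ _
    rw [Finset.mem_insert, Finset.mem_singleton] at k4
    exact ⟨fun k5 k6 => hb (k5.trans k6.symm), fun k5 => (k4.resolve_right fun k6 =>
      k5 k6.symm).symm⟩
  beta_reduce
  generalize (∃ r ∈ up (bs R S {D.ty (D.vx q b)}) Γ, _) = P at k1 ⊢
  generalize (∃ r ∈ up (bs R S {D.ty (D.vx q b')}) Γ, _) = P' at k2 ⊢
  tauto

theorem DT.euniq (h : Hg K B S S' R) (hρ : UL (sG U) R ρ) (D : DT R S ρ) {a a' : U} (hne : a ≠ a')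
    {p q : Finset U × Γ} (hp : p ∈ up (bs R S {a, a'}) Γ) (hq : q ∈ up (bs R S {a, a'}) Γ)
    (h1 : D.vx p a = D.vx q a) (h2 : D.vx p a' = D.vx q a') :
    Reach (cov (sG U) ρ Γ) (up (bs R S {a, a'}) Γ) p q := by
  obtain ⟨χ, hχ⟩ := key_M4 h hρ D hne p
  have k1 := hχ p hp.1 a a' hne hp.2
  have k2 := hχ q hq.1 a a' hne hq.2
  rw [h1, h2, k2] at k1
  by_contra k
  exact k1.1 (fun e => k e.2) (mem_cmp_self hp)

theorem join_M4 (h : Hg K B S S' R) (D : DT R S ρ) {p : Finset U × Γ} (hp : p.1 ∈ R) {a b : U}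
    (ha : a ∈ pt S p.1) (hb : b ∈ pt S p.1) : D.X.Reachable (D.vx p a) (D.vx p b) := by
  by_cases e : a = b
  · rw [e]
  refine SimpleGraph.Adj.reachable ((D.adj _ _).2 ⟨p, hp, a, b, e, ?_, rfl, rfl⟩)
  refine (Finset.eq_of_subset_of_card_le ?_ ?_).symm
  · exact Finset.insert_subset ha (Finset.singleton_subset_iff.2 hb)
  · rw [Finset.card_pair e]
    have := card_M4 h hp
    omega

theorem conn_M4 (h : Hg K B S S' R) (D : DT R S ρ) {p q : Finset U × Γ}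
    (hr : Reach (cov (sG U) ρ Γ) (up R Γ) p q) (hp : p.1 ∈ R) {a : U} (ha : a ∈ pt S p.1) :
    ∀ b ∈ pt S q.1, D.X.Reachable (D.vx p a) (D.vx q b) := by
  induction hr with
  | refl => exact fun b hb => join_M4 h D hp ha hb
  | @tail u w _ e ih =>
    intro b hb
    obtain ⟨c, k1, k2⟩ : ∃ c ∈ pt S u.1, c ∈ pt S w.1 := by
      rcases nest_M4 (S := S) (Or.inr e.2.2) with k | k
      · obtain ⟨c, hc⟩ := (h.edge_mem e.1).1
        exact ⟨c, hc, k hc⟩
      · exact ⟨b, k hb, hb⟩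
    exact (ih c k1).trans (D.const u w e.1 e.2.1 e.2.2 c k1 k2 ▸ join_M4 h D e.2.1 k2 hb)

theorem DT.tree (h : Hg K B S S' R) (hρ : UL (sG U) R ρ) (D : DT R S ρ) : D.X.IsTree := by
  refine ⟨?_, SimpleGraph.isAcyclic_iff_forall_adj_isBridge.2 fun x x' hx => ?_⟩
  · obtain ⟨⟨p, hp⟩, hc⟩ := hρ.cov_con
    obtain ⟨a, ha⟩ := (h.edge_mem hp).1
    have : Nonempty D.T := ⟨D.vx p a⟩
    refine ⟨fun x y => ?_⟩
    obtain ⟨u, k1, k2⟩ := D.surj x
    obtain ⟨w, k3, k4⟩ := D.surj y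
    have := conn_M4 h D (hc u k1.1 w k3.1) k1.1 (k1.2.symm ▸ Finset.mem_singleton_self _) _
      (k3.2.symm ▸ Finset.mem_singleton_self _)
    rwa [k2, k4] at this
  · obtain ⟨p, hp, a, a', hne, e, rfl, rfl⟩ := (D.adj _ _).1 hx
    obtain ⟨χ, hχ⟩ := key_M4 h hρ D hne p
    have hp' : p ∈ up (bs R S {a, a'}) Γ := ⟨hp, e⟩
    rw [SimpleGraph.isBridge_iff, SimpleGraph.reachable_iff_reflTransGen]
    intro hr
    refine (hχ p hp a a' hne e).1 ?_ (mem_cmp_self hp')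
    generalize hy : D.vx p a' = y at hr
    have key : ∀ z z', (D.X.deleteEdges {s(D.vx p a, y)}).Adj z z' → (χ z ↔ χ z') := by
      intro z z' k
      rw [SimpleGraph.deleteEdges_adj, Set.mem_singleton_iff] at k
      obtain ⟨q, hq, b, b', hb, e', rfl, rfl⟩ := (D.adj _ _).1 k.1
      refine (hχ q hq b b' hb e').2 fun k1 => k.2 ?_
      have k2 := D.const_reach hp' k1.2 (Finset.mem_insert_self _ _)
      have k3 := D.const_reach hp' k1.2 (Finset.mem_insert_of_mem (Finset.mem_singleton_self _))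
      rw [← hy, k2, k3]
      have k4 : ({b, b'} : Set U) = {a, a'} := by
        rw [← Finset.coe_pair, ← Finset.coe_pair, ← e', k1.1.2]
      rcases Set.pair_eq_pair_iff.1 k4 with ⟨rfl, rfl⟩ | ⟨rfl, rfl⟩
      · rfl
      · exact Sym2.eq_swap
    generalize D.X.deleteEdges {s(D.vx p a, y)} = H at hr key
    clear hy
    induction hr with
    | refl => rfl
    | tail _ k ih => exact ih.trans (key _ _ k)

end Pool.Agent.MP_6374aa_g

end

section

/-! Trees. -/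

namespace Pool.Agent.MP_6374aa_g

open Pool.Agent.MP_6374aa_gt Classical

variable {V V' V'' : Type} {G : SimpleGraph V} {G' : SimpleGraph V'} {G'' : SimpleGraph V''}
  {A : Set V} {A' : Set V'} {A'' : Set V''} {L : Type} [Group L]

theorem par_M6 {T : Type} {X : SimpleGraph T} (hT : X.IsTree) {r v a b : T} (ha : X.Adj a v)
    (hb : X.Adj b v) (h1 : X.dist r a < X.dist r v) (h2 : X.dist r b < X.dist r v) : a = b := by
  obtain ⟨p, hp, hp'⟩ := hT.connected.exists_path_of_dist r a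
  obtain ⟨q, hq, hq'⟩ := hT.connected.exists_path_of_dist r b
  have key : ∀ {c : T} (w : X.Walk r c), w.length < X.dist r v → v ∉ w.support := by
    intro c w hw hv
    exact absurd ((SimpleGraph.dist_le _).trans (w.length_takeUntil_le_length hv)) (not_le.2 hw)
  have e : p.concat ha = q.concat hb := Subtype.mk.inj <|
    (hT.isAcyclic.subsingleton_path r v).elim ⟨_, hp.concat (key p (hp' ▸ h1)) ha⟩
      ⟨_, hq.concat (key q (hq' ▸ h2)) hb⟩
  exact (SimpleGraph.Walk.concat_inj e).1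

theorem exists_par_M6 {T : Type} {X : SimpleGraph T} (hT : X.IsTree) {r v : T} (h : r ≠ v) :
    ∃ a, X.Adj a v ∧ X.dist r a + 1 = X.dist r v := by
  obtain ⟨p, hp⟩ := hT.connected.exists_walk_length_eq_dist v r
  cases p with
  | nil => exact (h rfl).elim
  | @cons _ a _ h1 q =>
    refine ⟨a, h1.symm, ?_⟩
    have h2 := SimpleGraph.dist_le q
    rw [SimpleGraph.Walk.length_cons, SimpleGraph.dist_comm] at hp
    rw [SimpleGraph.dist_comm] at h2
    have h3 := hT.dist_eq_dist_add_one_of_adj r h1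
    omega

theorem half_cases {T : Type} {X : SimpleGraph T} (hT : X.IsTree) {y y' : T} (hy : X.Adj y y')
    (z : T) : z ∈ half X y' y ↔ z ∉ half X y y' := by
  have h1 := hT.dist_ne_of_adj z hy
  simp only [half, Set.mem_ofPred_eq]
  omega

theorem half_cross {T : Type} {X : SimpleGraph T} (hT : X.IsTree) {y y' : T} (hy : X.Adj y y')
    {u w : T} (huw : X.Adj u w) (hu : u ∈ half X y y') (hw : w ∉ half X y y') : u = y' ∧ w = y := by
  simp only [half, Set.mem_ofPred_eq] at hu hw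
  have h1 := hT.dist_eq_dist_add_one_of_adj u hy
  have h2 := hT.dist_eq_dist_add_one_of_adj w hy
  have h3 := hT.dist_eq_dist_add_one_of_adj y huw
  have h4 := hT.dist_eq_dist_add_one_of_adj y' huw
  rw [X.dist_comm (u := y) (v := u), X.dist_comm (u := y) (v := w)] at h3
  rw [X.dist_comm (u := y') (v := u), X.dist_comm (u := y') (v := w)] at h4
  by_cases h5 : y' = u
  · subst h5
    rw [SimpleGraph.dist_self] at *
    exact ⟨rfl, hT.connected.dist_eq_zero_iff.1 (by omega)⟩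
  · exfalso
    obtain ⟨a, ha, h6⟩ := exists_par_M6 hT h5
    have h7 := hT.dist_eq_dist_add_one_of_adj a hy
    rw [X.dist_comm (u := y') (v := u), X.dist_comm (u := y') (v := a)] at h6
    have h8 : a = w := by
      refine par_M6 (r := y) hT ha huw.symm ?_ ?_
      · rw [X.dist_comm (u := y) (v := u), X.dist_comm (u := y) (v := a)]
        omega
      · rw [X.dist_comm (u := y) (v := u), X.dist_comm (u := y) (v := w)]
        omega
    subst h8
    omega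

theorem half_dist {T : Type} {X : SimpleGraph T} (hT : X.IsTree) {y y' : T} (hy : X.Adj y y')
    {u w : T} (hu : u ∈ half X y y') (hw : w ∉ half X y y') :
    X.dist u w = X.dist u y' + 1 + X.dist y w ∧ X.dist u y = X.dist u y' + 1 := by
  have h0 : X.dist u y = X.dist u y' + 1 := by
    have h1 := hT.dist_eq_dist_add_one_of_adj u hy
    simp only [half, Set.mem_ofPred_eq] at hu
    omega
  refine ⟨?_, h0⟩
  generalize hn : X.dist u w = n
  induction n generalizing w with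
  | zero => exact absurd (hT.connected.dist_eq_zero_iff.1 hn ▸ hu) hw
  | succ n ih =>
    obtain ⟨a, ha, h1⟩ := exists_par_M6 hT (r := u) (v := w) fun e => hw (e ▸ hu)
    by_cases h2 : a ∈ half X y y'
    · obtain ⟨rfl, rfl⟩ := half_cross hT hy ha h2 hw
      rw [SimpleGraph.dist_self]
      omega
    · have h3 := ih h2 (by omega)
      have h4 := hT.dist_eq_dist_add_one_of_adj y ha
      have h5 := hT.connected.dist_triangle (u := u) (v := y) (w := w)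
      omega

theorem tree_inj {T : Type} {X : SimpleGraph T} (hT : X.IsAcyclic) {f : V → T}
    (hf : ∀ u ∈ A, ∀ w ∈ A, G.Adj u w → X.Adj (f u) (f w))
    (hl : ∀ u ∈ A, ∀ w ∈ A, ∀ w' ∈ A, G.Adj u w → G.Adj u w' → f w = f w' → w = w') {a b : V}
    (h : Reach G A a b) (e : f a = f b) : a = b := by
  let F : G.induce A →g X := ⟨fun u => f u.1, fun {u w} huw => hf u.1 u.2 w.1 w.2 huw⟩
  have hpath : ∀ {u w : A} (p : (G.induce A).Walk u w), p.IsPath → (p.map F).IsPath := by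
    intro u w p hp
    rw [hT.isPath_iff_isChain]
    induction p with
    | nil => simp
    | @cons u v w h1 q ih =>
      have hq := ih hp.of_cons
      cases q with
      | nil => simp
      | @cons _ v' _ h2 q' =>
        simp only [SimpleGraph.Walk.map_cons, SimpleGraph.Walk.edges_cons,
          List.isChain_cons_cons] at hq ⊢
        refine ⟨fun e' => ?_, hq⟩
        rcases Sym2.eq_iff.1 e' with e' | e'
        · exact (F.map_adj h1).ne e'.1
        · have e2 : u = v' := Subtype.ext (hl v.1 v.2 u.1 u.2 v'.1 v'.2 h1.symm h2 e'.1)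
          subst e2
          simp at hp
  rcases h.cases_head with rfl | ⟨c, hc, -⟩
  · rfl
  have ha : a ∈ A := hc.1
  have hr : ∀ b, Reach G A a b → ∃ hb : b ∈ A, (G.induce A).Reachable ⟨a, ha⟩ ⟨b, hb⟩ := by
    intro b hb
    induction hb with
    | refl => exact ⟨ha, SimpleGraph.Reachable.refl _⟩
    | tail _ h2 ih =>
      obtain ⟨_, ih⟩ := ih
      exact ⟨h2.2.1, ih.trans (SimpleGraph.Adj.reachable h2.2.2)⟩
  obtain ⟨hb, ⟨p⟩⟩ := hr b h
  have h1 := hpath p.toPath.1 p.toPath.2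
  generalize p.toPath.1 = q at h1
  cases q with
  | nil => rfl
  | cons h2 q =>
    rw [SimpleGraph.Walk.map_cons, SimpleGraph.Walk.cons_isPath_iff] at h1
    refine (h1.2 ?_).elim
    have h3 : F ⟨a, ha⟩ = F ⟨b, hb⟩ := e
    rw [h3]
    exact SimpleGraph.Walk.end_mem_support _

theorem tree_ray {T : Type} {X : SimpleGraph T} (hT : X.IsTree) (z : ℕ → T)
    (h1 : ∀ n, X.Adj (z n) (z (n + 1))) (h2 : ∀ n, z (n + 2) ≠ z n) (m n : ℕ) :
    X.dist (z (m + n)) (z m) = n := by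
  have key : ∀ n, X.dist (z m) (z (m + n)) = n ∧ X.dist (z m) (z (m + n + 1)) = n + 1 := by
    intro n
    induction n with
    | zero => exact ⟨SimpleGraph.dist_self, SimpleGraph.dist_eq_one_iff_adj.2 (h1 m)⟩
    | succ n ih =>
      refine ⟨ih.2, ?_⟩
      have h3 := hT.dist_eq_dist_add_one_of_adj (z m) (h1 (m + n + 1))
      by_contra h4
      have h5 : X.dist (z m) (z (m + n + 1 + 1)) ≠ n + 1 + 1 := h4
      have h6 : X.dist (z m) (z (m + n + 1 + 1)) < X.dist (z m) (z (m + n + 1)) := by omega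
      exact h2 (m + n) (par_M6 (r := z m) hT (h1 (m + n + 1)).symm (h1 (m + n)) h6 (by omega))
  rw [SimpleGraph.dist_comm]
  exact (key n).1

theorem dist_smul_tree {T : Type} {X : SimpleGraph T} [MulAction L T]
    (h : ∀ (g : L) a b, X.Adj a b → X.Adj (g • a) (g • b)) (g : L) (a b : T) :
    X.dist (g • a) (g • b) = X.dist a b := by
  have key : ∀ (g : L) a b, X.Reachable a b →
      X.Reachable (g • a) (g • b) ∧ X.dist (g • a) (g • b) ≤ X.dist a b := by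
    intro g a b hr
    obtain ⟨p, hp⟩ := hr.exists_walk_length_eq_dist
    let F : X →g X := ⟨fun u => g • u, fun {u w} huw => h g u w huw⟩
    refine ⟨⟨p.map F⟩, ?_⟩
    rw [← hp, ← p.length_map F]
    exact SimpleGraph.dist_le (p.map F)
  by_cases hr : X.Reachable a b
  · have h1 := key g a b hr
    have h2 := (key g⁻¹ _ _ h1.1).2
    rw [inv_smul_smul, inv_smul_smul] at h2
    exact le_antisymm h1.2 h2
  · rw [SimpleGraph.dist_eq_zero_of_not_reachable hr, SimpleGraph.dist_eq_zero_of_not_reachable]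
    intro h1
    have h2 := (key g⁻¹ _ _ h1).1
    rw [inv_smul_smul, inv_smul_smul] at h2
    exact hr h2

/-- The edges of an invariant cocompact line. -/
theorem axis_iff {T : Type} {X : SimpleGraph T} [MulAction L T] (hT : X.IsTree)
    (h : ∀ (g : L) a b, X.Adj a b → X.Adj (g • a) (g • b)) (H : L → Prop) (E : T → T → Prop)
    (hs : ∀ a b, E a b → E b a) (ha : ∀ a b, E a b → X.Adj a b)
    (hi : ∀ g a b, H g → E a b → E (g • a) (g • b)) (hn : ∃ a b, E a b)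
    (hc : ∀ a b a' b', E a b → E a' b' → Relation.ReflTransGen E a a')
    (hf : ∃ F : Set T, F.Finite ∧ ∀ a b, E a b → ∃ g, H g ∧ ∃ z ∈ F, g • z = a)
    (hx : ∀ a b, E a b → ∃ c, c ≠ a ∧ E b c) {y y' : T} (hy : X.Adj y y') :
    E y y' ↔ (∀ n, ∃ g, H g ∧ g • y ∈ half X y y' ∧ n ≤ X.dist (g • y) y) ∧
      ∀ n, ∃ g, H g ∧ g • y ∈ half X y' y ∧ n ≤ X.dist (g • y) y := by
  have fwd : ∀ y y', E y y' → ∀ (x : T) n, ∃ g, H g ∧ g • x ∈ half X y y' ∧
      n ≤ X.dist (g • x) x := by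
    intro y y' hE x n
    obtain ⟨F, hF, hF'⟩ := hf
    obtain ⟨D, hD⟩ := (hF.image fun z => X.dist z x).bddAbove
    choose c hc1 hc2 using hx
    let P : ℕ → {p : T × T // E p.1 p.2} := fun k =>
      Nat.rec ⟨(y, y'), hE⟩ (fun _ p => ⟨(p.1.2, c _ _ p.2), hc2 _ _ p.2⟩) k
    have r1 : ∀ k, X.Adj (P k).1.1 (P (k + 1)).1.1 := fun k => ha _ _ (P k).2
    have r2 : ∀ k, (P (k + 2)).1.1 ≠ (P k).1.1 := fun k => hc1 _ _ (P k).2
    have d0 := tree_ray hT (fun k => (P k).1.1) r1 r2 0 (1 + (n + D + X.dist x y))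
    have d1 := tree_ray hT (fun k => (P k).1.1) r1 r2 1 (n + D + X.dist x y)
    rw [zero_add] at d0
    obtain ⟨g, hg, z, hz, e⟩ := hF' _ _ (P (1 + (n + D + X.dist x y))).2
    rw [← e] at d0 d1
    change X.dist (g • z) y = _ at d0
    change X.dist (g • z) y' = _ at d1
    have d2 : X.dist (g • z) (g • x) ≤ D := by
      rw [dist_smul_tree h]
      exact hD ⟨z, hz, rfl⟩
    refine ⟨g, hg, ?_, ?_⟩
    · by_contra h1
      have h2 : g • z ∈ half X y y' := by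
        simp only [half, Set.mem_ofPred_eq]
        omega
      have h3 := (half_dist hT (ha _ _ hE) h2 h1).1
      omega
    · have h1 := hT.connected.dist_triangle (u := g • z) (v := g • x) (w := y)
      have h2 := hT.connected.dist_triangle (u := g • x) (v := x) (w := y)
      omega
  refine ⟨fun hE => ⟨fwd y y' hE y, fwd y' y (hs _ _ hE) y⟩, fun ⟨c1, c2⟩ => ?_⟩
  by_contra hE
  obtain ⟨a, b, hab⟩ := hn
  have side : ∀ u, Relation.ReflTransGen E a u → (u ∈ half X y y' ↔ a ∈ half X y y') := by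
    intro u hu
    induction hu with
    | refl => rfl
    | @tail u w _ huw ih =>
      rw [← ih]
      refine ⟨fun h1 => ?_, fun h1 => ?_⟩
      · by_contra h2
        obtain ⟨rfl, rfl⟩ := half_cross hT hy (ha _ _ huw).symm h1 h2
        exact hE huw
      · by_contra h2
        obtain ⟨rfl, rfl⟩ := half_cross hT hy (ha _ _ huw) h1 h2
        exact hE (hs _ _ huw)
  by_cases h0 : a ∈ half X y y'
  · obtain ⟨g, hg, h1, h2⟩ := c2 (X.dist a y)
    have h3 := (side _ (hc _ _ _ _ hab (hi g a b hg hab))).2 h0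
    have h4 := (half_dist hT hy h3 ((half_cases hT hy _).1 h1)).1
    rw [dist_smul_tree h, X.dist_comm (u := y)] at h4
    omega
  · obtain ⟨g, hg, h1, h2⟩ := c1 (X.dist y a + 1)
    have h3 := (side _ (hc _ _ _ _ hab (hi g a b hg hab))).not.2 h0
    have h4 := half_dist hT hy h1 h3
    rw [dist_smul_tree h] at h4
    omega

end Pool.Agent.MP_6374aa_g

end

section

/-! Mixed edges are determined by their labels. -/

namespace Pool.Agent.MP_6374aa_g

open Pool.Agent.MP_6374aa_gt Classical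

variable {V V' V'' : Type} {G : SimpleGraph V} {G' : SimpleGraph V'} {G'' : SimpleGraph V''}
  {A : Set V} {A' : Set V'} {A'' : Set V''} {L : Type} [Group L]

variable {U : Type} {K : SimpleGraph U} {B S S' : Set U} {R : Set (Finset U)} {Γ : Type} [Group Γ]
  {ρ : Finset U → Finset U → Γ}

theorem mem_R_M8 (h : Hg K B S S' R) {s : Finset U} (hs : s ∈ R) :
    s ∈ sA K B ∧ (pt S s).Nonempty ∧ (pt S' s).Nonempty := by
  rw [h.eq] at hs
  exact hs

theorem ext_M8 (h : Hg K B S S' R) {σ s t : Finset U} (hs : s ∈ bs R S σ) (ht : t ∈ bs R S σ)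
    (e : pt S' s = pt S' t) : s = t := by
  rw [← h.union (mem_R_M8 h hs.1).1, ← h.union (mem_R_M8 h ht.1).1, hs.2, ht.2, e]

theorem lt_M8 (h : Hg K B S S' R) {σ s t : Finset U} (hs : s ∈ bs R S σ) (ht : t ∈ bs R S σ)
    (e : s ⊂ t) : (pt S' s).card = 1 ∧ (pt S' t).card = 2 := by
  have h1 : pt S' s ⊂ pt S' t := ⟨pt_mono e.1, fun k =>
    e.ne (ext_M8 h hs ht (Finset.Subset.antisymm (pt_mono e.1) k))⟩
  have h2 := Finset.card_lt_card h1
  have h3 := (mem_R_M8 h hs.1).2.2.card_pos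
  have h4 := h.symm.card_le (mem_R_M8 h ht.1).1
  omega

/-- The graph on the small points: two points are adjacent if they lie below a common point. -/
def gr_M8 (C : SimpleGraph (Finset U × Γ)) (Y : Set (Finset U × Γ)) :
    SimpleGraph (Finset U × Γ) where
  Adj u w := u ≠ w ∧ ∃ m ∈ Y, C.Adj u m ∧ C.Adj w m ∧ u.1 ⊆ m.1 ∧ w.1 ⊆ m.1
  symm := ⟨fun _ _ ⟨h1, m, h2, h3, h4, h5, h6⟩ => ⟨h1.symm, m, h2, h4, h3, h6, h5⟩⟩
  loopless := ⟨fun _ h => h.1 rfl⟩

theorem reach_M8 (h : Hg K B S S' R) {σ : Finset U} {p r : Finset U × Γ}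
    (hp : p ∈ up (bs R S σ) Γ) (hc : (pt S' p.1).card = 1)
    (hr : Reach (cov (sG U) ρ Γ) (up (bs R S σ) Γ) p r) :
    ∀ u ∈ up (bs R S σ) Γ, (pt S' u.1).card = 1 → Adq (cov (sG U) ρ Γ) u r → u.1 ⊆ r.1 →
      Reach (gr_M8 (cov (sG U) ρ Γ) (up (bs R S σ) Γ))
        {u | u ∈ up (bs R S σ) Γ ∧ (pt S' u.1).card = 1} p u := by
  have small : ∀ u ∈ up (bs R S σ) Γ, ∀ r ∈ up (bs R S σ) Γ, (pt S' r.1).card = 1 →
      Adq (cov (sG U) ρ Γ) u r → u.1 ⊆ r.1 → u = r := by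
    intro u hu r hr h1 h2 h3
    rcases h2 with h2 | h2
    · exact h2
    · have := (lt_M8 h hu hr (lt_of_le_of_ne h3 h2.1.ne)).2
      omega
  induction hr with
  | refl =>
    intro u hu _ h2 h3
    rw [small u hu p hp hc h2 h3]
    exact Reach.refl p
  | @tail r r' _ hs ih =>
    obtain ⟨k1, k2, k3⟩ := hs
    intro u hu h1 h2 h3
    rcases k3.1 with k | k
    · obtain ⟨c1, c2⟩ := lt_M8 h k1 k2 k
      have e := ih r k1 c1 (adq_refl r) subset_rfl
      by_cases hur : r = u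
      · exact hur ▸ e
      · refine e.trans (Reach.single ⟨k1, c1⟩ ⟨hu, h1⟩ (Or.inr ⟨hur, r', k2, k3, ?_, k.1, h3⟩))
        refine h2.resolve_left ?_
        rintro rfl
        omega
    · obtain ⟨c1, -⟩ := lt_M8 h k2 k1 k
      rw [small u hu r' k2 c1 h2 h3]
      exact ih r' k2 c1 (Or.inr k3.symm) k.1

theorem DT.inj (h : Hg K B S S' R) (hρ : UL (sG U) R ρ) (D : DT R S ρ) (D' : DT R S' ρ) {a b : U}
    {p q : Finset U × Γ} (hp : p.1 ∈ R) (he : q.1 = p.1) (ha : pt S p.1 = {a})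
    (hb : pt S' p.1 = {b}) (h1 : D.vx p a = D.vx q a) (h2 : D'.vx p b = D'.vx q b) : p = q := by
  have : Nonempty U := ⟨a⟩
  have hβ : ∀ s : Finset U, (pt S' s).card = 1 → ∃ c, pt S' s = {c} := fun s =>
    Finset.card_eq_one.1
  choose! β hβ using hβ
  have hpY : p ∈ up (bs R S {a}) Γ := ⟨hp, ha⟩
  have hqY : q ∈ up (bs R S {a}) Γ := by
    change q.1 ∈ bs R S {a}
    rw [he]
    exact hpY
  have cp : (pt S' p.1).card = 1 := by rw [hb, Finset.card_singleton]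
  have cq : (pt S' q.1).card = 1 := by rw [he, cp]
  have hr := reach_M8 h hpY cp (D.sep a p hpY q hqY h1) q hqY cq (adq_refl q) subset_rfl
  -- the structure of an edge of the graph
  have key : ∀ u ∈ up (bs R S {a}) Γ, (pt S' u.1).card = 1 → ∀ w ∈ up (bs R S {a}) Γ,
      (pt S' w.1).card = 1 → u ≠ w → ∀ m ∈ up (bs R S {a}) Γ, (cov (sG U) ρ Γ).Adj u m →
      (cov (sG U) ρ Γ).Adj w m → u.1 ⊆ m.1 → w.1 ⊆ m.1 →
      β u.1 ≠ β w.1 ∧ pt S' m.1 = {β u.1, β w.1} := by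
    intro u hu cu w hw cw hne m hm a1 a2 s1 s2
    have n : β u.1 ≠ β w.1 := fun e => hne (by
      have e1 : u.1 = w.1 := ext_M8 h hu hw (by rw [hβ _ cu, hβ _ cw, e])
      rw [eq_res hρ.flat hm.1 (Or.inr a1), eq_res hρ.flat hm.1 (Or.inr a2), e1])
    refine ⟨n, (Finset.eq_of_subset_of_card_le ?_ ?_).symm⟩
    · rw [Finset.insert_subset_iff, ← Finset.singleton_subset_iff, ← hβ _ cu, ← hβ _ cw]
      exact ⟨pt_mono s1, pt_mono s2⟩
    · rw [Finset.card_pair n]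
      exact h.symm.card_le (mem_R_M8 h hm.1).1
  have hmem : ∀ s : Finset U, (pt S' s).card = 1 → β s ∈ pt S' s := fun s cs => by
    rw [← Finset.singleton_subset_iff, ← hβ s cs]
  refine tree_inj (D'.tree h.symm hρ).isAcyclic (f := fun u => D'.vx u (β u.1)) ?_ ?_ hr ?_
  · rintro u ⟨hu, cu⟩ w ⟨hw, cw⟩ ⟨hne, m, hm, a1, a2, s1, s2⟩
    obtain ⟨n, e⟩ := key u hu cu w hw cw hne m hm a1 a2 s1 s2
    exact (D'.adj _ _).2 ⟨m, hm.1, _, _, n, e,
      (D'.const u m hu.1 hm.1 a1 _ (hmem _ cu) (pt_mono s1 (hmem _ cu))).symm,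
      (D'.const w m hw.1 hm.1 a2 _ (hmem _ cw) (pt_mono s2 (hmem _ cw))).symm⟩
  · rintro u ⟨hu, cu⟩ w ⟨hw, cw⟩ w' ⟨hw', cw'⟩ ⟨hne, m, hm, a1, a2, s1, s2⟩
      ⟨hne', m', hm', a1', a2', s1', s2'⟩ e
    obtain ⟨-, e1⟩ := key u hu cu w hw cw hne m hm a1 a2 s1 s2
    obtain ⟨-, e2⟩ := key u hu cu w' hw' cw' hne' m' hm' a1' a2' s1' s2'
    have e3 : β w.1 = β w'.1 := by
      rw [← D'.ty_vx w hw.1 _ (hmem _ cw), ← D'.ty_vx w' hw'.1 _ (hmem _ cw')]
      exact congrArg D'.ty e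
    have e4 : w.1 = w'.1 := ext_M8 h hw hw' (by rw [hβ _ cw, hβ _ cw', e3])
    have e5 : m.1 = m'.1 := ext_M8 h hm hm' (by rw [e1, e2, e3])
    have e6 : m = m' := by
      rw [eq_res hρ.flat hu.1 (Or.inr a1.symm), eq_res hρ.flat hu.1 (Or.inr a1'.symm), e5]
    rw [eq_res hρ.flat hm.1 (Or.inr a2), eq_res hρ.flat hm'.1 (Or.inr a2'), e4, e6]
  · have e : β p.1 = b := Finset.singleton_injective (by rw [← hβ _ cp, hb])
    show D'.vx p (β p.1) = D'.vx q (β q.1)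
    rw [he, e, h2]

end Pool.Agent.MP_6374aa_g

end

section

/-! Circles, kernels and crossing numbers. -/

namespace Pool.Agent.MP_6374aa_g

open Pool.Agent.MP_6374aa_gt Classical

variable {V V' V'' : Type} {G : SimpleGraph V} {G' : SimpleGraph V'} {G'' : SimpleGraph V''}
  {A : Set V} {A' : Set V'} {A'' : Set V''} {L : Type} [Group L]

variable {U : Type} {K : SimpleGraph U} {B S S' : Set U} {R : Set (Finset U)} {Γ : Type} [Group Γ]
  {ρ : Finset U → Finset U → Γ}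

theorem ev_mem_M5 {lab : V → V → L} (H : Subgroup L) (q : V → L)
    (h : ∀ x ∈ A, ∀ y ∈ A, Adq G x y → q x * lab x y * (q y)⁻¹ ∈ H) {x y : V} {l : List V}
    (hw : Wk G A x l y) : q x * ev lab x l * (q y)⁻¹ ∈ H := by
  induction hw with
  | nil _ => simp [ev]
  | cons h1 h2 h3 ih =>
    convert H.mul_mem (h _ h1 _ h3.mem_left h2) ih using 1
    rw [ev]
    group

theorem circle_gen (h : Sph G 2 A) {a : V} (ha : a ∈ A) :
    ∃ l0, Wk G A a l0 a ∧ ∀ l, Wk G A a l a → ∃ n : ℤ,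
      ∀ (L : Type) [Group L] (lab : V → V → L), Flat G A lab → ev lab a l = ev lab a l0 ^ n := by
  obtain ⟨u, w, -, e⟩ := two_H1 (sph_card_H1 h ha)
  have hu := (e u).2 (Or.inl rfl)
  have hw := (e w).2 (Or.inr rfl)
  have hf := flat_gen G A
  obtain ⟨p, hp⟩ := h.circle_sub (Set.sdiff_singleton_ssubset.2 ha) _ _ (hf.mono Set.sdiff_subset)
  obtain ⟨m, hm⟩ := (rem_pre_H1 h ha u ⟨hu.1, hu.2.ne'⟩ w ⟨hw.1, hw.2.ne'⟩).wk ⟨hu.1, hu.2.ne'⟩
  have h1 : ev (gen G A) a (u :: (m ++ [a])) =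
      gen G A a u * p u * (p w)⁻¹ * (gen G A a w)⁻¹ := by
    rw [ev, ev_append hm, ev_of_pot hp hm, ev, ev, hf.symm ha hw.1 (Or.inr hw.2)]
    group
  refine ⟨u :: (m ++ [a]), Wk.cons ha (Or.inr hu.2) ((hm.mono Set.sdiff_subset).append
    (Wk.single hw.1 ha (Or.inr hw.2.symm))), fun l hl => ?_⟩
  let q : V → Gp G A := fun x => if x = a then 1 else gen G A a u * p u * (p x)⁻¹
  have h2 : ∀ y ∈ A, G.Adj a y → q a * gen G A a y * (q y)⁻¹ ∈
      Subgroup.zpowers (ev (gen G A) a (u :: (m ++ [a]))) := fun y hy k => by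
    simp only [q, if_true, if_neg k.ne']
    rcases (e y).1 ⟨hy, k⟩ with rfl | rfl
    · simp
    · convert inv_mem (Subgroup.mem_zpowers _) using 1
      rw [h1]
      group
  obtain ⟨n, hn⟩ := ev_mem_M5 (lab := gen G A) _ q (fun x hx y hy k => by
    rcases k with rfl | k
    · simp [hf.self hx]
    by_cases e1 : x = a
    · subst e1
      exact h2 y hy k
    by_cases e2 : y = a
    · subst e2
      convert inv_mem (h2 x hx k.symm) using 1
      rw [hf.symm hy hx (Or.inr k.symm)]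
      group
    · simp [q, e1, e2, hp x ⟨hx, e1⟩ y ⟨hy, e2⟩ (Or.inr k)]) hl
  refine ⟨n, fun L _ lab hlab => ?_⟩
  simp only [q, if_true, one_mul, inv_one, mul_one] at hn
  rw [← ev_gen hlab, ← hn, map_zpow, ev_gen hlab]

theorem dom_iff_M5 {lab : V → V → L} {L' : Type} [Group L'] {θ : V → V → L'}
    (h : Dom G A lab θ) :
    ∃ T : L →* L', ∀ r l, Wk G A r l r → (T (ev lab r l) = 1 ↔ ev θ r l = 1) := by
  obtain ⟨T, k, hk⟩ := h
  exact ⟨T, fun r l hw => by rw [ev_gau hk hw, ev_hom, conj_eq_one_iff]⟩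

theorem exists_kill {lab : V → V → L} (h : UL G A lab) {Y : Set V} (hY : A ⊆ Y) :
    ∃ N : Subgroup L, N.Normal ∧ Kill G A Y lab N ∧
      ∀ r l, Wk G A r l r → Null G Y r l → ev lab r l ∈ N := by
  obtain ⟨T, hT⟩ := dom_iff_M5 (h.dom _ _ ((flat_gen G Y).mono hY))
  exact ⟨T.ker, inferInstance, fun r l hw k => null_iff_gen.2 ((hT r l hw).1 k),
    fun r l hw k => (hT r l hw).2 (null_iff_gen.1 k)⟩

/-- The crossing number. -/
noncomputable def cr_M5 (x e X Y : Finset U) : ZM :=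
  Multiplicative.ofAdd ((if X = x ∧ Y = e then 1 else 0) - if Y = x ∧ X = e then 1 else 0)

theorem cr_self_M5 (x e X : Finset U) : cr_M5 x e X X = 1 := by rw [cr_M5, sub_self, ofAdd_zero]

theorem cr_symm_M5 (x e X Y : Finset U) : cr_M5 x e X Y * cr_M5 x e Y X = 1 := by
  rw [cr_M5, cr_M5, ← ofAdd_add, sub_add_sub_cancel, sub_self, ofAdd_zero]

theorem pt_eq_M5 {s t : Finset U} (h : Adq (sG U) s t) (e : (pt S s).card = (pt S t).card) :
    pt S s = pt S t :=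
  (adq_sG.1 h).elim (fun k => Finset.eq_of_subset_of_card_le (pt_mono k) e.ge)
    fun k => (Finset.eq_of_subset_of_card_le (pt_mono k) e.le).symm

theorem flat_M5 (h : Hg K B S S' R) (x e : Finset U) :
    Flat (sG U) R fun s t => cr_M5 x e (pt S s) (pt S t) := fun s hs t ht v hv h1 h2 h3 => by
  have c : ∀ s ∈ R, (pt S s).card = 1 ∨ (pt S s).card = 2 := fun s hs => by
    rcases h.cases hs with ⟨a, k⟩ | ⟨a, a', k1, k⟩
    · exact Or.inl (k ▸ Finset.card_singleton a)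
    · exact Or.inr (k ▸ Finset.card_pair k1)
  have c1 := c s hs
  have c2 := c t ht
  have c3 := c v hv
  dsimp only
  obtain k | k | k : (pt S s).card = (pt S t).card ∨ (pt S t).card = (pt S v).card ∨
      (pt S s).card = (pt S v).card := by omega
  · rw [pt_eq_M5 h1 k, cr_self_M5, one_mul]
  · rw [pt_eq_M5 h2 k, cr_self_M5, mul_one]
  · rw [pt_eq_M5 h3 k, cr_self_M5, cr_symm_M5]

theorem Hg.psi (h : Hg K B S S' R) (hρ : UL (sG U) R ρ) {f : Finset U} (hf : f ∈ sA K S)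
    (h2 : f.card = 2) : ∃ ψ : Γ →* ZM,
      (∀ b r l, Wk (sG U) (bs R S' {b}) r l r → ψ (ev ρ r l) = 1) ∧
      ∀ r ∈ bs R S f, ∃ l, Wk (sG U) (bs R S f) r l r ∧ ψ (ev ρ r l) ≠ 1 := by
  have hR : ∀ s ∈ R, s ∈ sA K B := fun s hs => (h.eq ▸ hs : s ∈ {s | _}).1
  obtain ⟨t, ht, t1, t2⟩ := h.extend (s := f) ⟨hf.2.1.trans (h.un ▸ Set.subset_union_left), hf.2.2⟩
  obtain ⟨t3, t4⟩ := h.two t (hR t ht) t2
  have t5 : pt S t = f := (Finset.eq_of_subset_of_card_le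
    (fun a ha => mem_pt.2 ⟨t1 ha, hf.2.1 ha⟩) (t3.trans h2.symm).le).symm
  obtain ⟨b, b', hb, t6⟩ := Finset.card_eq_two.1 t4
  have fl := flat_M5 h.symm {b} (pt S' t)
  obtain ⟨ψ, hψ⟩ := dom_iff_M5 (hρ.dom _ _ fl)
  have sb : ∀ {S f}, bs R S f ⊆ R := fun k => k.1
  refine ⟨ψ, fun b₀ r l hw => (hψ r l (hw.mono sb)).2 (Pot.ev_loop ⟨fun _ => 1,
    fun s hs u hu _ => ?_⟩ hw), fun r hr => by_contra fun k => ?_⟩
  · rw [hs.2, hu.2, cr_self_M5, mul_inv_cancel]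
  have hc := h.curve hf h2
  obtain ⟨p, hp⟩ := pot_of_loops_at (fl.mono sb) (Cell.con hc).2 hr fun l hw =>
    (hψ r l (hw.mono sb)).1 (by_contra fun e => k ⟨l, hw, e⟩)
  have ne : ∀ s ∈ bs R S f \ {t}, pt S' s ≠ pt S' t := fun s hs e => hs.2 (by
    rw [Set.mem_singleton_iff, ← h.union (hR s hs.1.1), ← h.union (hR t ht), e, hs.1.2, t5])
  have n1 : ∀ x, ({x} : Finset U) ≠ pt S' t := fun x e => by
    rw [← e, Finset.card_singleton] at t4
    omega
  have key : ∀ x ∈ pt S' t, ∃ s ∈ bs R S f \ {t}, cr_M5 {b} (pt S' t) {x} (pt S' t) =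
      p s * (p t)⁻¹ := fun x hx => by
    obtain ⟨a1, a2, a3⟩ := h.symm.keep ht hx
    have a4 : insert x (pt S t) ∈ bs R S f := ⟨a1.1, a3.trans t5⟩
    refine ⟨_, ⟨a4, fun e => n1 x (a1.2.symm.trans (congrArg _ e))⟩, ?_⟩
    rw [← hp _ a4 t ⟨ht, t5⟩ (adq_sG.2 (Or.inl a2)), ← a1.2]
  obtain ⟨s, s1, s2⟩ := key b (by simp [t6])
  obtain ⟨s', s3, s4⟩ := key b' (by simp [t6])
  have s5 : p s = p s' := (rem_pre_H1 hc ⟨ht, t5⟩).const (fun x hx y hy e => by
    have := hp x hx.1 y hy.1 (Or.inr e)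
    simp only [cr_M5, ne x hx, ne y hy, and_false, if_false, sub_self, ofAdd_zero] at this
    exact mul_inv_eq_one.1 this.symm) s1 s3
  rw [s5, ← s4] at s2
  simp [cr_M5, n1, hb.symm] at s2

end Pool.Agent.MP_6374aa_g

end

section

/-! Stabilisers. -/

namespace Pool.Agent.MP_6374aa_g

open Pool.Agent.MP_6374aa_gt Classical

variable {V V' V'' : Type} {G : SimpleGraph V} {G' : SimpleGraph V'} {G'' : SimpleGraph V''}
  {A : Set V} {A' : Set V'} {A'' : Set V''} {L : Type} [Group L]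

variable {U : Type} {K : SimpleGraph U} {B S S' : Set U} {R : Set (Finset U)} {Γ : Type} [Group Γ]
  {ρ : Finset U → Finset U → Γ}

theorem DT.smul_adj (D : DT R S ρ) (g : Γ) (x x' : D.T) (h : D.X.Adj x x') :
    D.X.Adj (g • x) (g • x') := by
  obtain ⟨p, hp, a, a', hne, e, rfl, rfl⟩ := (D.adj x x').1 h
  exact (D.adj _ _).2 ⟨dck g p, hp, a, a', hne, e, D.eqv g p hp a (by simp [e]),
    D.eqv g p hp a' (by simp [e])⟩

theorem DT.ty_smul (D : DT R S ρ) (g : Γ) (x : D.T) : D.ty (g • x) = D.ty x := by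
  obtain ⟨p, hp, e⟩ := D.surj x
  have h1 : D.ty x ∈ pt S p.1 := by
    rw [hp.2]
    exact Finset.mem_singleton_self _
  have h2 := D.ty_vx (dck g p) hp.1 _ h1
  rwa [D.eqv g p hp.1 _ h1, e] at h2

theorem flat_bs_M7 (hρ : UL (sG U) R ρ) (S : Set U) (σ : Finset U) : Flat (sG U) (bs R S σ) ρ :=
  hρ.flat.mono fun _ hs => hs.1

theorem stab_iff_M7 (h : Hg K B S S' R) (hρ : UL (sG U) R ρ) (D : DT R S ρ) {a a' : U}
    (hne : a ≠ a') {p : Finset U × Γ} (hp : p.1 ∈ R) (e : pt S p.1 = {a, a'}) (g : Γ) :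
    (g • D.vx p a = D.vx p a ∧ g • D.vx p a' = D.vx p a') ↔
      ∃ l, Wk (sG U) (bs R S {a, a'}) p.1 l p.1 ∧ ev ρ p.1 l = p.2 * g * p.2⁻¹ := by
  have hp' : p ∈ up (bs R S {a, a'}) Γ := ⟨hp, e⟩
  rw [← reach_dck_iff (flat_bs_M7 hρ S _) hp', ← D.eqv g p hp a (by simp [e]),
    ← D.eqv g p hp a' (by simp [e])]
  exact ⟨fun k => D.euniq h hρ hne hp' hp' k.1.symm k.2.symm, fun k =>
    ⟨(D.const_reach hp' k (by simp)).symm, (D.const_reach hp' k (by simp)).symm⟩⟩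

theorem psi_conj_M7 (ψ : Γ →* ZM) (u g : Γ) : ψ (u * g * u⁻¹) = ψ g := by
  rw [map_mul, map_mul, map_inv, mul_inv_cancel_comm]

theorem DT.stab_e (h : Hg K B S S' R) (hρ : UL (sG U) R ρ) (D : DT R S ρ) {x x' : D.T}
    (hx : D.X.Adj x x') : ∃ c : Γ, (∀ g : Γ, (g • x = x ∧ g • x' = x') ↔ g ∈ Subgroup.zpowers c) ∧
      ∃ ψ : Γ →* ZM, ψ c ≠ 1 ∧ ∀ (D' : DT R S' ρ) (y : D'.T) (g : Γ), g • y = y → ψ g = 1 := by
  obtain ⟨p, hp, a, a', hne, e, rfl, rfl⟩ := (D.adj x x').1 hx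
  have he : ({a, a'} : Finset U) ∈ sA K S := e ▸ h.edge_mem hp
  have h2 : ({a, a'} : Finset U).card = 2 := Finset.card_pair hne
  have hp' : p.1 ∈ bs R S {a, a'} := ⟨hp, e⟩
  obtain ⟨l0, w0, hl0⟩ := circle_gen (h.curve he h2) hp'
  obtain ⟨ψ, p1, p2⟩ := h.psi hρ he h2
  have hc : p.2 * (p.2⁻¹ * ev ρ p.1 l0 * p.2) * p.2⁻¹ = ev ρ p.1 l0 := by group
  refine ⟨p.2⁻¹ * ev ρ p.1 l0 * p.2, fun g => ⟨fun k => ?_, fun k => ?_⟩, ψ, fun k => ?_,
    fun D' y g k => ?_⟩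
  · obtain ⟨l, w, hl⟩ := (stab_iff_M7 h hρ D hne hp e g).1 k
    obtain ⟨n, hn⟩ := hl0 l w
    rw [hn Γ ρ (flat_bs_M7 hρ S _), ← hc, conj_zpow, mul_left_inj, mul_right_inj] at hl
    exact Subgroup.mem_zpowers_iff.2 ⟨n, hl⟩
  · exact (Subgroup.zpowers_le (H := MulAction.stabilizer Γ (D.vx p a) ⊓
      MulAction.stabilizer Γ (D.vx p a'))).2
        ((stab_iff_M7 h hρ D hne hp e _).2 ⟨l0, w0, hc.symm⟩) k
  · obtain ⟨l, w, hl⟩ := p2 p.1 hp'
    obtain ⟨n, hn⟩ := hl0 l w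
    rw [hn Γ ρ (flat_bs_M7 hρ S _), ← hc, map_zpow, psi_conj_M7, k, one_zpow] at hl
    exact hl rfl
  · obtain ⟨q, hq, e'⟩ := D'.surj y
    have h1 : D'.ty y ∈ pt S' q.1 := by
      rw [hq.2]
      exact Finset.mem_singleton_self _
    have h3 := D'.sep _ q hq (dck g q) hq (by rw [D'.eqv g q hq.1 _ h1, e', k])
    obtain ⟨l, w, hl⟩ := (reach_dck_iff (flat_bs_M7 hρ S' _) hq g).1 h3
    rw [← psi_conj_M7 ψ q.2, ← hl]
    exact p1 _ _ l w

theorem DT.tact (h : Hg K B S S' R) (hρ : UL (sG U) R ρ) (D : DT R S ρ) {N : Subgroup Γ}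
    (hN : N.Normal)
    (hk : ∀ r l, Wk (sG U) R r l r → Null (sG U) (nb K B S) r l → ev ρ r l ∈ N) :
    TAct Γ D.X K S D.ty N := by
  refine ⟨D.tree h hρ, D.smul_adj, D.ty_smul, fun x => ?_, fun x x' hx => ?_, fun x x' hx => ?_,
    fun g x x' hx k1 k2 => ?_, fun x x' y y' hx hy k1 k2 => ?_, hN⟩
  · obtain ⟨p, hp, -⟩ := D.surj x
    have h1 : D.ty x ∈ pt S p.1 := by
      rw [hp.2]
      exact Finset.mem_singleton_self _
    exact (mem_pt.1 h1).2
  · obtain ⟨p, hp, a, a', hne, e, rfl, rfl⟩ := (D.adj x x').1 hx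
    have he : ({a, a'} : Finset U) ∈ sA K S := e ▸ h.edge_mem hp
    rw [D.ty_vx p hp a (by simp [e]), D.ty_vx p hp a' (by simp [e])]
    exact he.2.2 (by simp) (by simp) hne
  · obtain ⟨c, h1, ψ, h2, -⟩ := D.stab_e h hρ hx
    exact ⟨c, fun e => h2 (by rw [e, map_one]), h1⟩
  · obtain ⟨p, hp, a, a', hne, e, rfl, rfl⟩ := (D.adj x x').1 hx
    have he : ({a, a'} : Finset U) ∈ sA K S := e ▸ h.edge_mem hp
    obtain ⟨l, w, hl⟩ := (stab_iff_M7 h hρ D hne hp e g).1 ⟨k1, k2⟩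
    have h1 := hk _ l (w.mono fun _ hs => hs.1) (h.curve_null he (Finset.card_pair hne) w)
    rw [hl] at h1
    simpa using hN.mem_comm h1
  · obtain ⟨p, hp, a, a', hne, e, rfl, rfl⟩ := (D.adj x x').1 hx
    obtain ⟨q, hq, b, b', -, e', rfl, rfl⟩ := (D.adj y y').1 hy
    rw [D.ty_vx p hp a (by simp [e]), D.ty_vx q hq b (by simp [e'])] at k1
    rw [D.ty_vx p hp a' (by simp [e]), D.ty_vx q hq b' (by simp [e'])] at k2
    subst k1 k2
    have he : ({a, a'} : Finset U) ∈ sA K S := e ▸ h.edge_mem hp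
    have hq' : q ∈ up (bs R S {a, a'}) Γ := ⟨hq, e'⟩
    obtain ⟨g, hg⟩ := reach_lift (q := p) (flat_bs_M7 hρ S _) hq'
      ((Cell.con (h.curve he (Finset.card_pair hne))).2 _ hq' _ ⟨hp, e⟩)
    exact ⟨g, by rw [D.const_reach hq' hg (a := a) (by simp), D.eqv g p hp a (by simp [e])],
      by rw [D.const_reach hq' hg (a := a') (by simp), D.eqv g p hp a' (by simp [e])]⟩

theorem DT.free (h : Hg K B S S' R) (hρ : UL (sG U) R ρ) (D : DT R S ρ) (D' : DT R S' ρ) (g : Γ)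
    (x x' : D.T) (y : D'.T) (hx : D.X.Adj x x') (h1 : g • x = x) (h2 : g • x' = x')
    (h3 : g • y = y) : g = 1 := by
  obtain ⟨c, k1, ψ, k2, k3⟩ := D.stab_e h hρ hx
  obtain ⟨n, rfl⟩ := Subgroup.mem_zpowers_iff.1 ((k1 g).1 ⟨h1, h2⟩)
  have k4 := congrArg Multiplicative.toAdd (k3 D' y _ h3)
  rw [map_zpow, toAdd_zpow, toAdd_one, smul_eq_mul, mul_eq_zero] at k4
  rcases k4 with rfl | k4
  · exact zpow_zero c
  · exact absurd (toAdd_eq_zero.1 k4) k2

theorem DT.nontrivial (h : Hg K B S S' R) (hρ : UL (sG U) R ρ) (D : DT R S ρ) : Nontrivial Γ := by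
  obtain ⟨t, ht, -, h4⟩ := h.extend (s := ∅) ⟨by simp, by simp⟩
  have h1 : t ∈ sA K B := by
    rw [h.eq] at ht
    exact ht.1
  obtain ⟨a, a', hne, e⟩ := Finset.card_eq_two.1 (h.two t h1 h4).1
  obtain ⟨c, -, ψ, h2, -⟩ := D.stab_e h hρ
    ((D.adj _ _).2 ⟨(t, 1), ht, a, a', hne, e, rfl, rfl⟩)
  exact ⟨c, 1, fun e => h2 (by rw [e, map_one])⟩

end Pool.Agent.MP_6374aa_g

end

section

/-! Crossing edges. -/

namespace Pool.Agent.MP_6374aa_g

open Pool.Agent.MP_6374aa_gt Classical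

variable {V V' V'' : Type} {G : SimpleGraph V} {G' : SimpleGraph V'} {G'' : SimpleGraph V''}
  {A : Set V} {A' : Set V'} {A'' : Set V''} {L : Type} [Group L]

variable {U : Type} {K : SimpleGraph U} {B S S' : Set U} {R : Set (Finset U)} {Γ : Type} [Group Γ]
  {ρ : Finset U → Finset U → Γ}

theorem cr_iff_tet (h : Hg K B S S' R) (hρ : UL (sG U) R ρ) (D : DT R S ρ) (D' : DT R S' ρ)
    {x x' : D.T} {y y' : D'.T} : Cr Γ D.X D'.X x x' y y' ↔ Tet D D' x x' y y' := by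
  have ad : ∀ {u u'}, Tet D D' x x' u u' → D'.X.Adj u u' :=
    fun ⟨p, hp, _, _, b, b', _, hb, _, e, _, _, e1, e2⟩ =>
      (D'.adj _ _).2 ⟨p, hp, b, b', hb, e, e1, e2⟩
  suffices H : D.X.Adj x x' → D'.X.Adj y y' → (Tet D D' x x' y y' ↔
      (∀ n, ∃ g : Γ, (g • x = x ∧ g • x' = x') ∧ g • y ∈ half D'.X y y' ∧
        n ≤ D'.X.dist (g • y) y) ∧
      ∀ n, ∃ g : Γ, (g • x = x ∧ g • x' = x') ∧ g • y ∈ half D'.X y' y ∧
        n ≤ D'.X.dist (g • y) y) by
    simp only [and_assoc] at H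
    refine ⟨fun hc => (H hc.1 hc.2.1).2 hc.2.2, fun ht => ?_⟩
    have h1 : D.X.Adj x x' := by
      obtain ⟨p, hp, a, a', _, _, ha, _, e, _, e1, e2, _⟩ := ht
      exact (D.adj _ _).2 ⟨p, hp, a, a', ha, e, e1, e2⟩
    exact ⟨h1, ad ht, (H h1 (ad ht)).1 ht⟩
  intro hx hy
  obtain ⟨p0, hp0, a, a', hne, e0, x0, x0'⟩ := (D.adj _ _).1 hx
  obtain ⟨Fb, hF⟩ : ∃ Fb : Finset U × Γ → Prop, ∀ p, Fb p ↔
      (p.1 ∈ R ∧ pt S p.1 = {a, a'}) ∧ D.vx p a = x ∧ D.vx p a' = x' := ⟨_, fun _ => Iff.rfl⟩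
  have m1 : ∀ {s : Finset U} {c c' : U}, s = {c, c'} → c ∈ s := fun e => by simp [e]
  have m2 : ∀ {s : Finset U} {c c' : U}, s = {c, c'} → c' ∈ s := fun e => by simp [e]
  have sA' : ∀ s ∈ R, s ∈ sA K B ∧ (pt S s).Nonempty ∧ (pt S' s).Nonempty := fun s hs => by
    rwa [h.eq] at hs
  have nf : ∀ u u', Tet D D' x x' u u' ↔ ∃ p, Fb p ∧ ∃ b b', b ≠ b' ∧ pt S' p.1 = {b, b'} ∧
      D'.vx p b = u ∧ D'.vx p b' = u' := fun u u' => by
    refine ⟨?_, fun ⟨p, hp, b, b', hb, e, e1, e2⟩ => ?_⟩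
    · rintro ⟨p, hp, c, c', b, b', -, hb, e, e', c1, c2, e1, e2⟩
      obtain rfl : c = a := by rw [← D.ty_vx p hp c (m1 e), c1, ← x0, D.ty_vx p0 hp0 a (m1 e0)]
      obtain rfl : c' = a' := by
        rw [← D.ty_vx p hp c' (m2 e), c2, ← x0', D.ty_vx p0 hp0 a' (m2 e0)]
      exact ⟨p, (hF p).2 ⟨⟨hp, e⟩, c1, c2⟩, b, b', hb, e', e1, e2⟩
    · obtain ⟨⟨h1, h2⟩, h3, h4⟩ := (hF p).1 hp
      exact ⟨p, h1, a, a', b, b', hne, hb, h2, e, h3, h4, e1, e2⟩
  have mv : ∀ p, Fb p → ∀ t ∈ R, pt S t = {a, a'} → t ⊆ p.1 ∨ p.1 ⊆ t → Fb (res ρ p t) :=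
    fun p hp t ht e hs => by
      obtain ⟨⟨h1, h2⟩, h3, h4⟩ := (hF p).1 hp
      exact (hF _).2 ⟨⟨ht, e⟩, (D.vx_res h hρ.flat h1 ht hs (m1 e) (m1 h2)).trans h3,
        (D.vx_res h hρ.flat h1 ht hs (m2 e) (m2 h2)).trans h4⟩
  have loc : ∀ r, Fb r → ∀ b ∈ pt S' r.1, ∀ b' ∈ pt S' r.1,
      Relation.ReflTransGen (Tet D D' x x') (D'.vx r b) (D'.vx r b') := fun r hr b hb b' hb' => by
    by_cases e : b = b'
    · rw [e]
    · exact .single ((nf _ _).2 ⟨r, hr, b, b', e, (Finset.eq_of_subset_of_card_le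
        (Finset.insert_subset hb (Finset.singleton_subset_iff.2 hb'))
        ((h.symm.card_le (sA' _ ((hF r).1 hr).1.1).1).trans (Finset.card_pair e).ge)).symm,
        rfl, rfl⟩)
  refine axis_iff (D'.tree h.symm hρ) D'.smul_adj (fun g => g • x = x ∧ g • x' = x')
    (Tet D D' x x') (fun u u' n => ?_) (fun _ _ => ad) (fun g u u' hg n => ?_) ?_
    (fun u u' w w' n n' => ?_) ?_ (fun u u' n => ?_) hy
  · obtain ⟨p, hp, b, b', hb, e, e1, e2⟩ := (nf _ _).1 n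
    exact (nf _ _).2 ⟨p, hp, b', b, hb.symm, e.trans (Finset.pair_comm _ _), e2, e1⟩
  · obtain ⟨p, hp, b, b', hb, e, rfl, rfl⟩ := (nf _ _).1 n
    obtain ⟨⟨h1, h2⟩, h3, h4⟩ := (hF p).1 hp
    exact (nf _ _).2 ⟨dck g p, (hF _).2 ⟨⟨h1, h2⟩, by rw [D.eqv g p h1 a (m1 h2), h3, hg.1],
      by rw [D.eqv g p h1 a' (m2 h2), h4, hg.2]⟩, b, b', hb, e, D'.eqv g p h1 b (m1 e),
      D'.eqv g p h1 b' (m2 e)⟩
  · obtain ⟨t, ht, hs, h4⟩ := h.extend (mem_sA_iff_clq.1 (sA' _ hp0).1).2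
    obtain ⟨h1, h2⟩ := h.two t (sA' t ht).1 h4
    obtain ⟨b, b', hb, e⟩ := Finset.card_eq_two.1 h2
    exact ⟨_, _, (nf _ _).2 ⟨res ρ p0 t, mv p0 ((hF _).2 ⟨⟨hp0, e0⟩, x0, x0'⟩) t ht
      (Finset.eq_of_subset_of_card_le (e0 ▸ pt_mono hs) (h1.trans (Finset.card_pair hne).symm).le).symm
      (Or.inr hs), b, b', hb, e, rfl, rfl⟩⟩
  · obtain ⟨p, hp, b, b', -, e, rfl, -⟩ := (nf _ _).1 n
    obtain ⟨q, hq, c, c', -, e', rfl, -⟩ := (nf _ _).1 n'
    obtain ⟨p1, p2, p3⟩ := (hF p).1 hp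
    obtain ⟨q1, q2, q3⟩ := (hF q).1 hq
    suffices H : ∀ r, Reach (cov (sG U) ρ Γ) (up (bs R S {a, a'}) Γ) p r → Fb r ∧
        ∀ c ∈ pt S' r.1, Relation.ReflTransGen (Tet D D' x x') (D'.vx p b) (D'.vx r c) from
      (H q (D.euniq h hρ hne p1 q1 (p2.trans q2.symm) (p3.trans q3.symm))).2 c (m1 e')
    intro r hr
    induction hr with
    | refl => exact ⟨hp, loc p hp b (m1 e)⟩
    | @tail r r' _ hs ih =>
      obtain ⟨r1, r2, r3⟩ := hs
      obtain ⟨-, r4, r5⟩ := (hF r).1 ih.1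
      have hr' : Fb r' := (hF _).2 ⟨r2,
        (D.const r r' r1.1 r2.1 r3 a (m1 r1.2) (m1 r2.2)).symm.trans r4,
        (D.const r r' r1.1 r2.1 r3 a' (m2 r1.2) (m2 r2.2)).symm.trans r5⟩
      obtain ⟨d, d1, d2⟩ : ∃ d, d ∈ pt S' r.1 ∧ d ∈ pt S' r'.1 :=
        r3.1.elim (fun e => (sA' _ r1.1).2.2.imp fun _ hd => ⟨hd, pt_mono e.1 hd⟩)
          fun e => (sA' _ r2.1).2.2.imp fun _ hd => ⟨pt_mono e.1 hd, hd⟩
      exact ⟨hr', fun c hc => (ih.2 d d1).trans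
        (D'.const r r' r1.1 r2.1 r3 d d1 d2 ▸ loc r' hr' d d2 c hc)⟩
  · choose! f hf using fun (s : Finset U) (hs : ∃ γ, Fb (s, γ)) => hs
    refine ⟨⋃ s ∈ R, (fun b => D'.vx (s, f s) b) '' (pt S' s : Set U),
      h.finite.biUnion fun s _ => (Finset.finite_toSet _).image _, fun u u' n => ?_⟩
    obtain ⟨p, hp, b, b', -, e, rfl, -⟩ := (nf _ _).1 n
    obtain ⟨⟨h1, h2⟩, h3, h4⟩ := (hF p).1 hp
    obtain ⟨-, h5, h6⟩ := (hF _).1 (hf p.1 ⟨p.2, hp⟩)
    have e1 : dck (p.2⁻¹ * f p.1) (p.1, f p.1) = p := by simp [dck]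
    refine ⟨p.2⁻¹ * f p.1, ⟨?_, ?_⟩, _, Set.mem_biUnion h1 ⟨b, m1 e, rfl⟩, ?_⟩
    · rw [← h5, ← D.eqv _ (p.1, f p.1) h1 a (m1 h2), e1, h3, h5]
    · rw [← h6, ← D.eqv _ (p.1, f p.1) h1 a' (m2 h2), e1, h4, h6]
    · rw [← D'.eqv _ (p.1, f p.1) h1 b (m1 e), e1]
  · obtain ⟨p, hp, b, b', hb, e, rfl, rfl⟩ := (nf _ _).1 n
    obtain ⟨⟨h1, h2⟩, -⟩ := (hF p).1 hp
    obtain ⟨t, ht, c, c1, c2, t1, t2⟩ := h.other h1 hne hb h2 e
    obtain ⟨k1, k2, k3⟩ := h.symm.keep h1 (m2 e)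
    obtain ⟨-, k4, -⟩ := h.symm.keep ht (m1 t2)
    rw [t1, ← h2] at k4
    have k5 : b' ∈ pt S' (insert b' (pt S p.1)) := k1.2 ▸ Finset.mem_singleton_self _
    refine ⟨D'.vx (res ρ (res ρ p (insert b' (pt S p.1))) t) c, fun e1 => c1 ?_,
      (nf _ _).2 ⟨_, mv _ (mv p hp _ k1.1 (k3.trans h2) (Or.inl k2)) t ht t1 (Or.inr k4), b', c,
        c2, t2, (D'.vx_res h.symm hρ.flat k1.1 ht (Or.inr k4) (m1 t2) k5).trans
          (D'.vx_res h.symm hρ.flat h1 k1.1 (Or.inl k2) k5 (m2 e)), rfl⟩⟩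
    rw [← D'.ty_vx p h1 b (m1 e), ← e1, D'.ty_vx _ ht c (m2 t2)]

end Pool.Agent.MP_6374aa_g

end

section

/-! Boundaries and orientation labels. -/

namespace Pool.Agent.MP_6374aa_g

open Pool.Agent.MP_6374aa_gt Classical

variable {V V' V'' : Type} {G : SimpleGraph V} {G' : SimpleGraph V'} {G'' : SimpleGraph V''}
  {A : Set V} {A' : Set V'} {A'' : Set V''} {L : Type} [Group L]

/-- A parity argument on an arc whose ends have the same colour. -/
theorem arc_par_O3 {β : Finset V → Prop} (h : Cell G 2 A β) (hb : β ∅) (P : V → Prop)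
    (hP : ∀ y ∈ A, ∀ z ∈ A, G.Adj y z → (P y ↔ ¬ P z)) (hE : ∀ y ∈ A, β {y} → P y)
    (s : V → V → ℤ) (hs : ∀ y z, s y z = s z y)
    (ha : ∀ y ∈ A, ∀ z ∈ Lk G A {y}, ∀ z' ∈ Lk G A {y}, z ≠ z' → s y z + s y z' = 0)
    {u u' a a' : V} (hu : u ∈ A) (hu' : u' ∈ A) (hne : u ≠ u') (bu : β {u}) (bu' : β {u'})
    (m : a ∈ Lk G A {u}) (m' : a' ∈ Lk G A {u'}) : s u a + s u' a' = 0 := by
  obtain ⟨F, rfl⟩ := h.finite.exists_finset_coe
  have hl : ∀ y z, z ∈ F.filter (G.Adj y) ↔ z ∈ Lk G (↑F) {y} := fun y z => by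
    simp [Lk]
  have hc : ∀ y ∈ F, (β {y} ∧ (Lk G (↑F) {y}).ncard = 1) ∨
      (¬ β {y} ∧ (Lk G (↑F) {y}).ncard = 2) := fun y hy => by
    have := h.codim_one (s := {y}) ⟨by simpa using hy, by simp⟩ (by simp)
    rwa [Finset.coe_singleton] at this
  have r0 : ∀ y ∈ F, ¬ β {y} → ∑ z ∈ F.filter (G.Adj y), s y z = 0 := by
    intro y hy hn
    obtain ⟨z, z', n, e⟩ := Set.ncard_eq_two.1 ((hc y hy).resolve_left fun k => hn k.1).2
    have e' : F.filter (G.Adj y) = {z, z'} := by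
      ext x
      rw [hl, e]
      simp
    rw [e', Finset.sum_pair n]
    exact ha y hy z (by rw [e]; simp) z' (by rw [e]; simp) n
  have r1 : ∀ y ∈ F, β {y} → ∀ z ∈ Lk G (↑F) {y}, ∑ z ∈ F.filter (G.Adj y), s y z = s y z := by
    intro y hy hn z hz
    obtain ⟨z', e⟩ := Set.ncard_eq_one.1 ((hc y hy).resolve_right fun k => k.1 hn).2
    rw [e] at hz
    obtain rfl : z = z' := hz
    have e' : F.filter (G.Adj y) = {z} := by
      ext x
      rw [hl, e]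
      simp
    rw [e', Finset.sum_singleton]
  have ends : ∀ y ∈ F, β {y} → y = u ∨ y = u' := by
    intro y hy by'
    have e := Set.eq_of_subset_of_ncard_le (s := {u, u'}) (t := {v | v ∈ (↑F : Set V) ∧ β {v}})
      (by
        rintro x (rfl | rfl)
        · exact ⟨hu, bu⟩
        · exact ⟨hu', bu'⟩)
      (by rw [h.arc_ends hb, Set.ncard_pair hne]) (h.finite.subset fun x hx => hx.1)
    have : y ∈ ({u, u'} : Set V) := by
      rw [e]
      exact ⟨hy, by'⟩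
    exact this
  have e1 : ∑ y ∈ F.filter P, ∑ z ∈ F.filter (G.Adj y), s y z = s u a + s u' a' := by
    rw [Finset.sum_eq_add_of_mem u u' (Finset.mem_filter.2 ⟨hu, hE u hu bu⟩)
      (Finset.mem_filter.2 ⟨hu', hE u' hu' bu'⟩) hne, r1 u hu bu a m, r1 u' hu' bu' a' m']
    intro y hy hn
    have hy' := (Finset.mem_filter.1 hy).1
    exact r0 y hy' fun k => (ends y hy' k).elim hn.1 hn.2
  have e2 : ∑ z ∈ F.filter (fun z => ¬ P z), ∑ y ∈ F.filter (G.Adj z), s z y = 0 :=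
    Finset.sum_eq_zero fun z hz => r0 z (Finset.mem_filter.1 hz).1 fun k =>
      (Finset.mem_filter.1 hz).2 (hE z (Finset.mem_filter.1 hz).1 k)
  rw [← e1, ← e2, Finset.sum_comm' (t' := F.filter fun z => ¬ P z)
    (s' := fun z => F.filter (G.Adj z))]
  · exact Finset.sum_congr rfl fun z _ => Finset.sum_congr rfl fun y _ => hs y z
  · intro y z
    simp only [Finset.mem_filter]
    constructor
    · rintro ⟨⟨h1, h2⟩, h3, h4⟩
      exact ⟨⟨h1, h4.symm⟩, h3, (hP y h1 z h3 h4).1 h2⟩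
    · rintro ⟨⟨h1, h2⟩, h3, h4⟩
      exact ⟨⟨h1, (hP y h1 z h3 h2.symm).2 h4⟩, h3, h2.symm⟩

/-- The sign. -/
noncomputable def sgn_O3 (x : Z2) : ℤ := if x = 1 then 1 else -1

theorem sgn_add_O3 {x y : Z2} : sgn_O3 x + sgn_O3 y = 0 ↔ x ≠ y := by
  have n := neg_ne_one
  rcases z2_cases x with rfl | rfl <;> rcases z2_cases y with rfl | rfl <;>
    simp [sgn_O3, n, n.symm]

theorem ins_O3 {s : Finset V} (hs : s ∈ sA G A) {a : V} (ha : a ∈ Lk G A s) :
    insert a s ∈ sA G A ∧ (insert a s).card = s.card + 1 := by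
  have n : a ∉ s := fun k => G.irrefl (ha.2 a (Finset.mem_coe.2 k))
  refine ⟨⟨Finset.insert_nonempty _ _, ?_, ?_⟩, Finset.card_insert_of_notMem n⟩
  · rw [Finset.coe_insert]
    exact Set.insert_subset ha.1 hs.2.1
  · rw [Finset.coe_insert]
    exact hs.2.2.insert fun b hb _ => (ha.2 b hb).symm

theorem lk_ins_O3 (s : Finset V) (y : V) : Lk G (Lk G A s) {y} = Lk G A (insert y s : Finset V) := by
  rw [lk_lk, Finset.coe_insert, Set.union_singleton]

theorem gau_pot_O3 {l1 l2 : V → V → L} {k : V → L} (h : Gau G A l1 l2 k) :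
    Pot G A l1 ↔ Pot G A l2 := ⟨h.symm.pot, h.pot⟩

theorem W1.bd {T : Set V} {c : V → ℕ} {w : V → V → Z2} (hw : W1 G 3 A w) (h : Mf G 3 A T)
    (hb : Bal G 3 A c) (hT : ∀ u ∈ A ∩ T, c u ≤ 2) : W1 G 2 (A ∩ T) w := by
  obtain ⟨o, ho, hw⟩ := hw
  have hτ : ∀ t : Finset V, ∃ t' : Finset V, (Lk G A t).Nonempty →
      ∃ a ∈ Lk G A t, t' = insert a t := fun t => by
    by_cases k : (Lk G A t).Nonempty
    · obtain ⟨a, ha⟩ := k
      exact ⟨insert a t, fun _ => ⟨a, ha, rfl⟩⟩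
    · exact ⟨t, fun k' => (k k').elim⟩
  choose τ hτ using hτ
  have hme : ∀ t ∈ sA G A, Meets t A := fun t ht =>
    let ⟨v, hv⟩ := ht.1
    ⟨v, hv, ht.2.1 (Finset.mem_coe.2 hv)⟩
  have hne : ∀ t ∈ sA G A, t.card = 3 → (Lk G A t).Nonempty := fun t ht h3 => by
    have := (Mfa.link h ht.2 (hme t ht)).2
    rw [h3] at this
    exact this.nonempty
  refine ⟨fun v t => o v (τ t), fun v hv e he h2 hm u hu u' hu' n => ?_,
    fun t ht h3 u hu v hv => ?_⟩
  · have heA : e ∈ sA G A := sA_mono Set.inter_subset_left he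
    have heT : (↑e : Set V) ⊆ T := he.2.1.trans Set.inter_subset_right
    have hc := (Mfa.link h heA.2 (hme e heA)).2
    rw [h2] at hc
    have hβ : ∀ y, sub T (e ∪ {y}) ↔ y ∈ T := fun y => by
      simp [sub, Set.insert_subset_iff, heT]
    have m : u ∈ Lk G A e := ⟨hu.1.1, hu.2⟩
    have m' : u' ∈ Lk G A e := ⟨hu'.1.1, hu'.2⟩
    obtain ⟨a, ha, e1⟩ := hτ _ (hne _ (ins_O3 heA m).1 (by rw [(ins_O3 heA m).2, h2]))
    obtain ⟨a', ha', e2⟩ := hτ _ (hne _ (ins_O3 heA m').1 (by rw [(ins_O3 heA m').2, h2]))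
    show o v (τ (insert u e)) ≠ o v (τ (insert u' e))
    rw [e1, e2, ← sgn_add_O3]
    rw [← lk_ins_O3] at ha ha'
    refine arc_par_O3 hc (by simpa [sub] using heT) (fun y => c y ≤ 2) ?_
      (fun y hy k => hT y ⟨hy.1, (hβ y).1 k⟩)
      (fun y z => sgn_O3 (o v (insert z (insert y e)))) (fun y z => by rw [Finset.insert_comm]) ?_
      m m' n ((hβ u).2 hu.1.2) ((hβ u').2 hu'.1.2) ha ha'
    · intro y hy z hz hyz
      obtain ⟨p, q, npq, rfl⟩ := Finset.card_eq_two.1 h2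
      have hp : p ∈ (({p, q} : Finset V) : Set V) := by simp
      have hq : q ∈ (({p, q} : Finset V) : Set V) := by simp
      have c1 := hT p (he.2.1 hp)
      have c2 := hT q (he.2.1 hq)
      have c3 := hb.1 y hy.1
      have c4 := hb.1 z hz.1
      have c5 := hb.2 p (heA.2.1 hp) q (heA.2.1 hq) (he.2.2 hp hq npq)
      have c6 := hb.2 p (heA.2.1 hp) y hy.1 (hy.2 p hp)
      have c7 := hb.2 p (heA.2.1 hp) z hz.1 (hz.2 p hp)
      have c8 := hb.2 q (heA.2.1 hq) y hy.1 (hy.2 q hq)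
      have c9 := hb.2 q (heA.2.1 hq) z hz.1 (hz.2 q hq)
      have c10 := hb.2 y hy.1 z hz.1 hyz
      omega
    · intro y hy z hz z' hz' nz
      rw [lk_ins_O3] at hz hz'
      obtain ⟨x, hx, hxv⟩ := hm
      exact sgn_add_O3.2 (ho v hv.1 _ (ins_O3 heA hy).1 (by rw [(ins_O3 heA hy).2, h2])
        ⟨x, Finset.mem_insert_of_mem hx, hxv⟩ z hz z' hz' nz)
  · have htA : t ∈ sA G A := sA_mono Set.inter_subset_left ht
    obtain ⟨a, ha, e1⟩ := hτ _ (hne t htA h3)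
    show w u v = o u (τ t) * o v (τ t)
    rw [e1]
    exact hw _ (ins_O3 htA ha).1 (by rw [(ins_O3 htA ha).2, h3]) u
      (Finset.mem_insert_of_mem hu) v (Finset.mem_insert_of_mem hv)

theorem W1.ol {β : Finset V → Prop} {c : V → ℕ} {w : V → V → Z2} (hw : W1 G 3 A w)
    (h : Mfa G 3 A β A) (hb : Bal G 3 A c) : OL G A w := by
  exact ⟨hw.flat h, fun X hX β' hm =>
    (ori_iff_bip (hb.mono hX)).trans ((hw.mono hX).bip_iff hm)⟩

theorem OL.desc {w : Finset V → Finset V → Z2} (h : OL (sG V) (sA G A) w) {π : Finset V → V}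
    (hπ : ∀ s ∈ sA G A, π s ∈ s) :
    ∃ w0 k, OL G A w0 ∧ Gau (sG V) (sA G A) w (pull π w0) k := by
  obtain ⟨w0, k, h1, h2⟩ := (sd_pe hπ).desc Z2 w h.1
  refine ⟨w0, k, ⟨h1, fun X hX β hm => ?_⟩, h2⟩
  rw [← ori_sA hm.card_le, h.2 _ (sA_mono hX) _ (hm.sd_full le_rfl),
    gau_pot_O3 (h2.mono (sA_mono hX))]
  exact (sd_pe fun s hs => hπ s (sA_mono hX hs)).pot (h1.mono hX)

theorem exists_ol {β : Finset V → Prop} (h : Mfa G 3 A β A) : ∃ w, OL G A w := by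
  rcases isEmpty_or_nonempty V with hV | hV
  · exact ⟨fun _ _ => 1, flat_one, fun X _ _ _ => iff_of_true
      ⟨fun _ _ _ _ => true, fun a => isEmptyElim a⟩ ⟨fun _ => 1, fun a => isEmptyElim a⟩⟩
  · have h1 := h.sd_full le_rfl
    have h2 := bal_sA h.card_le
    obtain ⟨w, hw⟩ := exists_w1 h1 (Or.inr rfl) h2
    obtain ⟨w0, -, h3, -⟩ := (hw.ol h1 h2).desc (π := pk ∅) fun s hs => pk_mem _ hs.1
    exact ⟨w0, h3⟩

theorem OL.nb {β : Finset V → Prop} {w : Finset V → Finset V → Z2} (h : OL (sG V) (sA G A) w)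
    {π : Finset V → V} (hπ : ∀ s ∈ sA G A, π s ∈ s) {w0 : V → V → Z2} (h0 : Flat G A w0)
    {k : Finset V → Z2} (hk : Gau (sG V) (sA G A) w (pull π w0) k) {Q : Set V}
    (hm : Mfa G 3 A β (A ∩ Q)) : Ori (sG V) (Pool.Agent.MP_6374aa_g.nb G A Q) ↔ Pot G (A ∩ Q) w0 := by
  have hs : Pool.Agent.MP_6374aa_g.nb G A Q ⊆ sA G A := fun s hs => hs.1
  have hπ' : ∀ s : Finset V, ∃ v, Meets s Q → v ∈ s ∧ v ∈ Q := fun s => by
    by_cases k : Meets s Q
    · obtain ⟨v, hv⟩ := k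
      exact ⟨v, fun _ => hv⟩
    · exact ⟨π s, fun k' => (k k').elim⟩
  choose π' hπ' using hπ'
  have hA : ∀ s ∈ sA G A, ∀ v ∈ s, v ∈ A := fun s hs v hv => hs.2.1 (Finset.mem_coe.2 hv)
  have g := gau_of_ctg h0
    (isHom_pick hs fun s k => ⟨hπ s k.1, hA s k.1 _ (hπ s k.1)⟩)
    (isHom_pick hs fun s k => ⟨(hπ' s k.2).1, hA s k.1 _ (hπ' s k.2).1⟩)
    ⟨fun s k => (mem_sA.1 k.1).2.2 _ (hπ s k.1) _ (hπ' s k.2).1, fun s k t k' e => Or.inl (by
      rcases e with e | e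
      · exact (mem_sA.1 k'.1).2.2 _ (e.1 (hπ s k.1)) _ (hπ' t k'.2).1
      · exact (mem_sA.1 k.1).2.2 _ (hπ s k.1) _ (e.1 (hπ' t k'.2).1))⟩
  rw [h.2 _ hs _ (hm.nb le_rfl), gau_pot_O3 (hk.mono hs), gau_pot_O3 g]
  exact (nb_pe fun s k => hπ' s k.2).pot (h0.mono Set.inter_subset_left)

end Pool.Agent.MP_6374aa_g

end

section

/-! Gluing orientations. -/

namespace Pool.Agent.MP_6374aa_g

open Pool.Agent.MP_6374aa_gt Classical

variable {V V' V'' : Type} {G : SimpleGraph V} {G' : SimpleGraph V'} {G'' : SimpleGraph V''}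
  {A : Set V} {A' : Set V'} {A'' : Set V''} {L : Type} [Group L]

theorem ori_of_ndc {β : Finset V → Prop} (h : Mfa G 3 A β A) (hn : NDC G A) : Ori G A := by
  obtain ⟨w, hw⟩ := exists_ol h
  exact (hw.2 A subset_rfl β h).2 (hn w hw.1)

theorem ori_glue {β β1 β2 : Finset V → Prop} (h : Mfa G 3 A β A) {X1 X2 : Set V}
    (hc : Cov2 G A X1 X2) (h1 : Mfa G 3 X1 β1 X1) (h2 : Mfa G 3 X2 β2 X2) (o1 : Ori G X1)
    (o2 : Ori G X2) (hp : Pre G (X1 ∩ X2)) : Ori G A := by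
  obtain ⟨w, hw⟩ := exists_ol h
  exact (hw.2 A subset_rfl β h).2
    (glue_pot hc ((hw.2 X1 hc.1 β1 h1).1 o1) ((hw.2 X2 hc.2.1 β2 h2).1 o2) hp)

theorem ori_of_pe_O4 {β β1 : Finset V → Prop} (h : Mfa G 3 A β A) {X : Set V} (hX : X ⊆ A)
    (h1 : Mfa G 3 X β1 X) (hp : PE G X G A id) (ho : Ori G X) : Ori G A := by
  obtain ⟨w, hw⟩ := exists_ol h
  exact (hw.2 A subset_rfl β h).2 ((hp.pot hw.1).1 ((hw.2 X hX β1 h1).1 ho))

theorem Cl.ori_rem (h : Cl G 3 A) {v : V} (hv : v ∈ A) (ho : Ori G (A \ {v})) : Ori G A := by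
  have hs : Sph G 3 (Lk G A {v}) := h.2.2.sph_lk hv (Set.notMem_empty v)
  exact ori_of_pe_O4 h.2.2 Set.sdiff_subset (h.2.2.rem le_rfl v hv)
    (rem_one (Cell.con hs) (Cell.sco hs)) ho

theorem Graft.ori {M B : Set V} {v : V} (h : Graft G A M B v) (h1 : Cl G 3 A) (h2 : Cl G 3 M)
    (o1 : Ori G A) (o2 : Ori G M) : Ori G B := by
  have hB : Cl G 3 B := Graft.cl h h1 h2
  have e : B = (A \ {v}) ∪ (M \ {v}) := by rw [h.eq, Set.union_sdiff_distrib]
  have hs : Sph G 3 (Lk G A {v}) := h1.2.2.sph_lk h.memA (Set.notMem_empty v)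
  have hi : (A \ {v}) ∩ (M \ {v}) = Lk G A {v} := by
    ext a
    constructor
    · intro ha
      exact (graft_mem_C5 h ha.1).2 ha.2
    · intro ha
      have h3 : a ∈ A \ {v} := ⟨ha.1, fun e => (mem_lk_C5.1 ha).2.ne' e⟩
      exact ⟨h3, (graft_mem_C5 h h3).1 ha⟩
  have hc : Cov2 G B (A \ {v}) (M \ {v}) := by
    rw [e]
    exact NE.cov2 (graft_ne_C5 h)
  refine ori_glue hB.2.2 hc (h1.2.2.rem le_rfl v h.memA) (h2.2.2.rem le_rfl v h.memM)
    (o1.mono Set.sdiff_subset) (o2.mono Set.sdiff_subset) ?_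
  rw [hi]
  exact (Cell.con hs).2

theorem Cx.Closed.orient_sd {X : Cx} (h : X.Closed) : X.sd.Orient ↔ X.Orient :=
  ori_sA (G := X.G) (A := X.A) (Mfa.card_le ((Cx.closed_iff X).1 h).2.2)

theorem Cx.Closed.orient_iter {X : Cx} (h : X.Closed) (k : ℕ) : (Cx.sd^[k] X).Orient ↔ X.Orient := by
  induction k with
  | zero => rfl
  | succ k ih =>
    rw [Function.iterate_succ_apply', (h.iter k).orient_sd, ih]

theorem SumOf.orient {N X : Cx} (h : SumOf N X) (hN : N.Closed) (ho : N.Orient) : X.Orient := by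
  obtain ⟨ι, P, s, hs, hP⟩ := h
  have key : ∀ A t, IsSum X.G P A t → Cl X.G 3 A ∧ Ori X.G A := fun A t ht => by
    induction ht with
    | one i =>
      obtain ⟨f, hf⟩ := hP i
      exact ⟨(IsIso.cl hf).1 ((Cx.closed_iff _).1 hN), (IsIso.ori hf).1 ho⟩
    | sum _ _ hg h1 h2 => exact ⟨Graft.cl hg h1.1 h2.1, Graft.ori hg h1.1 h2.1 h1.2 h2.2⟩
  exact (key _ _ hs).2

theorem PM.orient_cap {X : Cx} {Z T : Set X.V} (h : PM X Z T) (hf : Z.Finite) :
    (capC X Z T).Orient ↔ Ori X.G Z := by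
  have hc := h.cap_cl hf
  have hi := cap_iso (G := X.G) (id : Set X.V → Set X.V) Z
  have hs : Sum.inl '' Z ⊆ (capC X Z T).A := Set.subset_union_left
  refine ⟨fun ho => (IsIso.ori hi).2 (Ori.mono (G := (capC X Z T).G) (A := (capC X Z T).A) ho hs),
    fun ho => ?_⟩
  have hm : Mf (capG X.G id) 3 (Sum.inl '' Z) (Sum.inl '' T) :=
    (IsIso.mf hi fun a _ => (Sum.inl_injective.mem_set_image).symm).1 h.mf
  have e : (capC X Z T).A \ Set.range Sum.inr = Sum.inl '' Z := by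
    ext x
    constructor
    · rintro ⟨hx | ⟨S, -, rfl⟩, hx'⟩
      · exact hx
      · exact absurd ⟨S, rfl⟩ hx'
    · rintro ⟨a, ha, rfl⟩
      exact ⟨Or.inl ⟨a, ha, rfl⟩, fun ⟨S, hS⟩ => by cases hS⟩
  have hp : PE (capC X Z T).G ((capC X Z T).A \ Set.range Sum.inr) (capC X Z T).G
      (capC X Z T).A id := by
    refine rem_many ?_ fun v hv => ?_
    · rintro _ ⟨S, rfl⟩ _ ⟨S', rfl⟩ hab
      exact hab
    · have h3 : Sph (capC X Z T).G 3 (Lk (capC X Z T).G (capC X Z T).A {v}) :=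
        hc.2.2.sph_lk hv.1 (Set.notMem_empty v)
      exact ⟨Cell.con h3, Cell.sco h3⟩
  rw [e] at hp
  exact ori_of_pe_O4 (G := (capC X Z T).G) (A := (capC X Z T).A) hc.2.2 hs hm hp
    ((IsIso.ori hi).1 ho)

theorem PunctE.orient (hO : ORI_st) {X P : Cx} (h : PunctE X P) (hX : X.Closed) (hP : P.Closed)
    (ho : X.Orient) : P.Orient := by
  obtain ⟨k, hk⟩ := h
  obtain ⟨Z, T, hd⟩ := punct_iff.1 hk
  have hf : Z.Finite := (hX.iter k).1.subset hd.pm.sub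
  have h1 : Ori (Cx.sd^[k] X).G (Cx.sd^[k] X).A := (hX.orient_iter k).2 ho
  exact hO _ _ ((Cx.closed_iff _).2 (hd.pm.cap_cl hf)) hP hd.homeo
    ((hd.pm.orient_cap hf).2 (h1.mono hd.pm.sub))

theorem iter_finite_O4 {X : Cx} (h : X.A.Finite) (k : ℕ) : (Cx.sd^[k] X).A.Finite := by
  induction k with
  | zero => exact h
  | succ k ih =>
    rw [Function.iterate_succ_apply']
    exact sA_finite ih

theorem Cx.homeo_iter {X : Cx} (h : X.A.Finite) (k : ℕ) : (Cx.sd^[k] X).Homeo X := by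
  induction k with
  | zero => exact Cx.Homeo.refl X
  | succ k ih =>
    rw [Function.iterate_succ_apply']
    exact (sdh_main _ (iter_finite_O4 h k)).trans ih

end Pool.Agent.MP_6374aa_g

end

section

/-! Loops crossing a sphere once. -/

namespace Pool.Agent.MP_6374aa_g

open Pool.Agent.MP_6374aa_gt Classical

variable {V V' V'' : Type} {G : SimpleGraph V} {G' : SimpleGraph V'} {G'' : SimpleGraph V''}
  {A : Set V} {A' : Set V'} {A'' : Set V''} {L : Type} [Group L]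

theorem const_O5 (h : Cl G 3 A) {S : Set V} (hS : S ⊆ A) (hs : Sph G 3 S) {σ : V → Set V}
    (hσ : Sided G 3 A S σ) {θ : V → V → L} (hθ : Flat G A θ) {p q : V → L}
    (hp : ∀ u ∈ S, ∀ w ∈ S, Adq G u w → θ u w = p u * (p w)⁻¹)
    (hq : ∀ u ∈ A \ S, ∀ w ∈ A \ S, Adq G u w → θ u w = q u * (q w)⁻¹) {x v : V} (hx : x ∈ S)
    (hv : v ∈ σ x) : ∀ y ∈ S, ∀ z ∈ σ y, (p y)⁻¹ * θ y z * q z = (p x)⁻¹ * θ x v * q v := by
  have hA := (mf_empty_iff.1 h.2.2).mono hS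
  have hsub : ∀ y ∈ S, ∀ z ∈ σ y, z ∈ A \ S ∧ G.Adj y z := fun y hy z hz =>
    ⟨⟨(hσ.subset y hy hz).1.1, (hσ.subset y hy hz).2⟩, (mem_lk_C1.1 (hσ.subset y hy hz).1).2⟩
  have one : ∀ y ∈ S, ∀ z ∈ σ y, ∀ z' ∈ σ y,
      (p y)⁻¹ * θ y z * q z = (p y)⁻¹ * θ y z' * q z' := by
    intro y hy z hz z' hz'
    refine (side_con hA hS (Sph.mf hs) hσ hy).1.2.const
      (φ := fun z => (p y)⁻¹ * θ y z * q z) (fun a ha b hb hab => ?_) hz hz'
    have k1 := hsub y hy a ha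
    have k2 := hsub y hy b hb
    rw [← hθ y (hS hy) a k1.1.1 b k2.1.1 (Or.inr k1.2) (Or.inr hab) (Or.inr k2.2),
      hq a k1.1 b k2.1 (Or.inr hab)]
    group
  have step : ∀ y ∈ S, ∀ y' ∈ S, G.Adj y y' →
      (∀ z ∈ σ y, (p y)⁻¹ * θ y z * q z = (p x)⁻¹ * θ x v * q v) →
      ∀ z ∈ σ y', (p y')⁻¹ * θ y' z * q z = (p x)⁻¹ * θ x v * q v := by
    intro y hy y' hy' hyy k z hz
    obtain ⟨t, ht, hst, hc, -⟩ := Cell.pure hs (s := {y, y'})
      (mem_sA_iff_clq.1 (pair_mem_sA hy hy' (Or.inr hyy))).2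
    obtain ⟨⟨a, ha, haσ⟩, -⟩ := hσ.two t ht hc y (hst (by simp))
    have k1 : G.Adj y a := ha.2 y (hst (by simp))
    have k2 : G.Adj y' a := ha.2 y' (hst (by simp))
    have ha' := (hσ.compat y hy y' hy' hyy a (mem_lk2_H4.2 ⟨ha.1, k1, k2⟩)).1 haσ
    rw [one y' hy' z hz a ha', ← k a haσ,
      ← hθ y (hS hy) y' (hS hy') a ha.1 (Or.inr hyy) (Or.inr k2) (Or.inr k1),
      hp y hy y' hy' (Or.inr hyy)]
    group
  intro y hy
  have e := (Cell.con (d := 1) hs).2.const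
    (φ := fun y => ∀ z ∈ σ y, (p y)⁻¹ * θ y z * q z = (p x)⁻¹ * θ x v * q v)
    (fun a ha b hb hab => propext ⟨step a ha b hb hab, step b hb a ha hab.symm⟩) hx hy
  exact e ▸ fun z hz => one x hx z hz v hv

theorem pot_of_cross (h : Cl G 3 A) {S : Set V} (hS : S ⊆ A) (hs : Sph G 3 S) {σ : V → Set V}
    (hσ : Sided G 3 A S σ) {θ : V → V → Z2} (hθ : Flat G A θ) (hp : Pot G (A \ S) θ) {x v w : V}
    (hx : x ∈ S) (hv : v ∈ σ x) (hw : w ∈ Lk G A {x} \ (S ∪ σ x)) {l : List V}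
    (hl : Wk G (A \ S) v l w) (he : θ x v * ev θ v l * θ w x = 1) : Pot G A θ := by
  obtain ⟨p, hp'⟩ := Cell.ndc hs θ (hθ.mono hS)
  obtain ⟨q, hq⟩ := hp
  have hv' := mem_lk_C1.1 (hσ.subset x hx hv).1
  have hw' := mem_lk_C1.1 hw.1
  have e : (p x)⁻¹ * θ x w * q w = (p x)⁻¹ * θ x v * q v := by
    rw [ev_of_pot hq hl, hθ.symm (hS hx) hw'.1 (Or.inr hw'.2), mul_inv_eq_one] at he
    rw [← he]
    group
  have key : ∀ y ∈ S, ∀ z ∈ A, z ∉ S → Adq G y z →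
      θ y z = p y * ((p x)⁻¹ * θ x v * q v) * (q z)⁻¹ := by
    intro y hy z hz hzS hyz
    have ha : G.Adj y z := hyz.resolve_left fun k => hzS (k ▸ hy)
    by_cases k : z ∈ σ y
    · rw [← const_O5 h hS hs hσ hθ hp' hq hx hv y hy z k]
      group
    · rw [← e, ← const_O5 h hS hs (hσ.symm hS) hθ hp' hq hx hw y hy z
        ⟨mem_lk_C1.2 ⟨hz, ha⟩, fun k' => k'.elim hzS k⟩]
      group
  refine ⟨fun u => if u ∈ S then p u * ((p x)⁻¹ * θ x v * q v) else q u,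
    fun a ha b hb hab => ?_⟩
  by_cases h1 : a ∈ S <;> by_cases h2 : b ∈ S <;> simp only [h1, h2, if_true, if_false]
  · rw [hp' a h1 b h2 hab]
    group
  · exact key a h1 b hb h2 hab
  · rw [hθ.symm hb ha hab.symm, key b h2 a ha h1 hab.symm]
    group
  · exact hq a ⟨ha, h1⟩ b ⟨hb, h2⟩ hab

theorem exists_cross (h : Cl G 3 A) {S : Set V} (hS : S ⊆ A) (hs : Sph G 3 S) :
    ∃ σ x v w, Sided G 3 A S σ ∧ x ∈ S ∧ v ∈ σ x ∧ w ∈ Lk G A {x} \ (S ∪ σ x) := by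
  obtain ⟨σ, hσ⟩ := exists_sided (d := 2) ((mf_empty_iff.1 h.2.2).mono hS) (Cell.mfa hs)
    le_rfl hS (Cell.ndc hs)
  obtain ⟨t, ht, -, hc, -⟩ := Cell.pure hs (s := ∅) clq_empty_C1
  obtain ⟨x, hx⟩ : t.Nonempty := Finset.card_pos.1 (by omega)
  obtain ⟨⟨v, hv⟩, w, hw⟩ := hσ.two t ht hc x hx
  exact ⟨σ, x, v, w, hσ, ht.1 hx, hv.2, mem_lk_C1.2 ⟨hw.1.1, hw.1.2 x hx⟩, hw.2⟩

theorem rk_one (h : Cl G 3 A) {S : Set V} (hS : S ⊆ A) (hs : Sph G 3 S) (hc : Con G (A \ S))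
    (hn : NDC G (A \ S)) : Rk G A 1 := by
  obtain ⟨σ, x, v, w, hσ, hx, hv, hw⟩ := exists_cross h hS hs
  have hv' : v ∈ A \ S := ⟨(hσ.subset x hx hv).1.1, (hσ.subset x hx hv).2⟩
  have hw' : w ∈ A \ S := ⟨hw.1.1, fun k => hw.2 (Or.inl k)⟩
  obtain ⟨l, hl⟩ := (hc.2 v hv' w hw').wk hv'
  have key : ∀ θ : V → V → Z2, Flat G A θ → θ x v * ev θ v l * θ w x = 1 → Pot G A θ :=
    fun θ hθ he => pot_of_cross h hS hs hσ hθ (hn θ (hθ.mono Set.sdiff_subset)) hx hv hw hl he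
  intro θ hθ
  rcases z2_cases (θ 0 x v * ev (θ 0) v l * θ 0 w x) with e0 | e0
  · exact ⟨{0}, Finset.singleton_nonempty _,
      (key _ (hθ 0) e0).congr fun u _ w _ _ => Finset.prod_singleton _ _⟩
  rcases z2_cases (θ 1 x v * ev (θ 1) v l * θ 1 w x) with e1 | e1
  · exact ⟨{1}, Finset.singleton_nonempty _,
      (key _ (hθ 1) e1).congr fun u _ w _ _ => Finset.prod_singleton _ _⟩
  refine ⟨Finset.univ, Finset.univ_nonempty,
    (key _ (flat_mul (hθ 0) (hθ 1)) ?_).congr fun u _ w _ _ => Fin.prod_univ_two _⟩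
  rw [ev_mul, mul_mul_mul_comm (θ 0 x v), mul_mul_mul_comm (θ 0 x v * ev (θ 0) v l), e0, e1,
    z2_mul_self]

theorem nonsep_not_ndc (h : Cl G 3 A) {S : Set V} (hS : S ⊆ A) (hs : Sph G 3 S)
    (hc : Con G (A \ S)) : ¬ NDC G A := by
  intro hn
  obtain ⟨P, hP⟩ := exists_split (d := 2) ((mf_empty_iff.1 h.2.2).mono hS) (Cell.mfa hs)
    le_rfl hS hn
  obtain ⟨t, ht, -, hc', -⟩ := Cell.pure hs (s := ∅) clq_empty_C1
  obtain ⟨⟨a, ha⟩, b, hb⟩ := hP.two t ht hc'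
  have hcl : Clopen G (A \ S) P := ⟨hP.subset, fun a ha b hb hab =>
    by_contra fun k => hP.sep a ha b ⟨hb.1, fun e => e.elim hb.2 k⟩ hab⟩
  exact hb.2 (Or.inr (hc.2.subset_clopen subset_rfl hcl (hP.subset ha.2) ha.2
    ⟨hb.1.1, fun k => hb.2 (Or.inl k)⟩))

theorem flat_edge_O5 {x v : V} (hxv : x ≠ v)
    (key : ∀ y ∈ A, Adq G x y → Adq G v y → y = x ∨ y = v) :
    Flat G A fun a b => if (a = x ∧ b = v) ∨ (a = v ∧ b = x) then neg else 1 := by
  intro a ha b hb c hc h1 h2 h3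
  have fin : (a = x ∨ a = v) → (b = x ∨ b = v) → (c = x ∨ c = v) →
      (if (a = x ∧ b = v) ∨ (a = v ∧ b = x) then neg else 1) *
        (if (b = x ∧ c = v) ∨ (b = v ∧ c = x) then neg else 1) =
        if (a = x ∧ c = v) ∨ (a = v ∧ c = x) then neg else 1 := by
    rintro (rfl | rfl) (e1 | e1) (e2 | e2) <;> simp [e1, e2, hxv, hxv.symm, z2_mul_self]
  by_cases k1 : (a = x ∧ b = v) ∨ (a = v ∧ b = x)
  · refine fin (k1.imp And.left And.left) (k1.symm.imp And.right And.right) ?_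
    rcases k1 with ⟨rfl, rfl⟩ | ⟨rfl, rfl⟩
    exacts [key c hc h3 h2, key c hc h2 h3]
  by_cases k2 : (b = x ∧ c = v) ∨ (b = v ∧ c = x)
  · refine fin ?_ (k2.imp And.left And.left) (k2.symm.imp And.right And.right)
    rcases k2 with ⟨rfl, rfl⟩ | ⟨rfl, rfl⟩
    exacts [key a ha h1.symm h3.symm, key a ha h3.symm h1.symm]
  by_cases k3 : (a = x ∧ c = v) ∨ (a = v ∧ c = x)
  · refine fin (k3.imp And.left And.left) ?_ (k3.symm.imp And.right And.right)
    rcases k3 with ⟨rfl, rfl⟩ | ⟨rfl, rfl⟩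
    exacts [key b hb h1 h2.symm, key b hb h2.symm h1]
  dsimp only
  rw [if_neg k1, if_neg k2, if_neg k3, one_mul]

theorem Hd.not_ndc {S γ : Set V} {x v w : V} {σ : V → Set V} (h : Hd G A S γ x v w σ) :
    ¬ NDC (sG V) (nb G A (S ∪ γ)) := by
  intro hn
  rw [NDC, triv_nb, Set.inter_eq_right.2 (Set.union_subset h.subS h.subγ)] at hn
  have hx : x ∈ γ ∩ S := h.inter ▸ rfl
  have hv : v ∈ γ ∧ G.Adj x v := mem_lk_C1.1 (h.lk ▸ Or.inl rfl)
  have hw : w ∈ γ ∧ G.Adj x w := mem_lk_C1.1 (h.lk ▸ Or.inr rfl)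
  have hxv : x ≠ v := hv.2.ne
  have hwv : w ≠ v := fun e => h.memw (e ▸ h.memv)
  have key : ∀ y ∈ S ∪ γ, Adq G x y → Adq G v y → y = x ∨ y = v := by
    intro y hy h1 h2
    by_contra k
    rw [not_or] at k
    rcases hy with hy | hy
    · exact h.far v ⟨hv.1, hxv.symm⟩ y ⟨hy, k.1⟩ h2
    · exact notri_H1 (Cell.mfa h.circ) hx.1 hv.1 hy hv.2 (h2.resolve_left (Ne.symm k.2))
        (h1.resolve_left (Ne.symm k.1))
  obtain ⟨p, hp⟩ := hn _ (flat_edge_O5 hxv key)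
  beta_reduce at hp
  have hc : Con G (γ \ {x}) := Cell.con (d := 0) (Sph.circle_rem h.circ hx.1)
  have e : p v = p w := hc.2.const (fun a ha b hb hab => by
    have := hp a (Or.inr ha.1) b (Or.inr hb.1) (Or.inr hab)
    rw [if_neg fun k => k.elim (fun k => ha.2 k.1) fun k => hb.2 k.2] at this
    exact mul_inv_eq_one.1 this.symm) ⟨hv.1, hxv.symm⟩ ⟨hw.1, hw.2.ne'⟩
  have e1 := hp x (Or.inr hx.1) v (Or.inr hv.1) (Or.inr hv.2)
  have e2 := hp x (Or.inr hx.1) w (Or.inr hw.1) (Or.inr hw.2)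
  rw [if_pos (Or.inl ⟨rfl, rfl⟩), e, ← e2,
    if_neg fun k => k.elim (fun k => hwv k.2) fun k => hxv k.1] at e1
  exact neg_ne_one e1

theorem Cx.NonSep.sd {X : Cx} (h : X.NonSep) (hX : X.Closed) : X.sd.NonSep := by
  obtain ⟨S, hS, h1, h2⟩ := h
  have h3 := (sphere2_iff (hX.1.subset hS)).1 h1
  have h4 := con_iff_connected.2 h2
  have e : sA X.G X.A \ sA X.G S = nb X.G X.A (X.A \ S) := by
    ext s
    refine and_congr_right fun hs => ⟨fun k => ?_, fun ⟨v, hv, k⟩ k' => k.2 (k'.2.1 hv)⟩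
    by_contra k'
    exact k ⟨hs.1, fun v hv => by_contra fun e => k' ⟨v, hv, hs.2.1 hv, e⟩, hs.2.2⟩
  have h5 : Con (sG X.V) (sA X.G X.A \ sA X.G S) := by
    obtain ⟨a, ha⟩ := h4.1
    rw [e]
    refine ⟨⟨{a}, singleton_mem_sA.2 ha.1, a, Finset.mem_singleton_self a, ha⟩, pre_nb.2 ?_⟩
    rw [Set.inter_eq_right.2 Set.sdiff_subset]
    exact h4.2
  exact ⟨sA X.G S, sA_mono hS, (sphere2_iff (Cell.finite (h3.sd le_rfl))).2 (h3.sd le_rfl),
    con_iff_connected.1 h5⟩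

theorem nonSep_iff {X : Cx} (hX : X.A.Finite) :
    X.NonSep ↔ ∃ S ⊆ X.A, Sph X.G 3 S ∧ Con X.G (X.A \ S) := by
  refine exists_congr fun S => and_congr_right fun hS => ?_
  rw [sphere2_iff (hX.subset hS), con_iff_connected]

end Pool.Agent.MP_6374aa_g

end

section

/-! Simple paths of both parities. -/

namespace Pool.Agent.MP_6374aa_g

open Pool.Agent.MP_6374aa_gt Classical

variable {V V' V'' : Type} {G : SimpleGraph V} {G' : SimpleGraph V'} {G'' : SimpleGraph V''}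
  {A : Set V} {A' : Set V'} {A'' : Set V''} {L : Type} [Group L]

theorem split_O6 {a b x : V} {l m : List V} (h : Wk G A a (l ++ x :: m) b) :
    Wk G A a (l ++ [x]) x ∧ Wk G A x m b := by
  induction l generalizing a with
  | nil =>
    cases h with
    | cons h1 h2 h3 => exact ⟨Wk.single h1 h3.mem_left h2, h3⟩
  | cons y l ih =>
    cases h with
    | cons h1 h2 h3 => exact ⟨Wk.cons h1 h2 (ih h3).1, (ih h3).2⟩

theorem end_mem_O6 {a b : V} {l : List V} (h : Wk G A a l b) : b ∈ a :: l := by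
  induction h with
  | nil _ => simp
  | cons _ _ _ ih => exact List.mem_cons_of_mem _ ih

theorem rev_eq_O6 {a b : V} {l : List V} (h : Wk G A a l b) :
    b :: rev a l = (a :: l).reverse := by
  induction h with
  | nil _ => simp [rev]
  | cons _ _ _ ih =>
    rw [rev_cons_B2, ← List.cons_append, ih, List.reverse_cons (a := _) (as := _ :: _)]

theorem simple_O6 {a b : V} {l : List V} (h : Wk G A a l b) :
    ∃ l, Wk G A a l b ∧ (a :: l).Nodup := by
  induction h with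
  | nil h1 => exact ⟨[], Wk.nil h1, by simp⟩
  | @cons a b c l h1 h2 _ ih =>
    obtain ⟨m, hm, hn⟩ := ih
    by_cases hab : a = b
    · subst hab
      exact ⟨m, hm, hn⟩
    by_cases ham : a ∈ m
    · obtain ⟨s, t, rfl⟩ := List.append_of_mem ham
      exact ⟨t, (split_O6 hm).2, (List.nodup_append.1 (List.nodup_cons.1 hn).2).2.1⟩
    · exact ⟨b :: m, Wk.cons h1 h2 hm, List.nodup_cons.2 ⟨by simp [hab, ham], hn⟩⟩

theorem Reach.simple {a b : V} (h : Reach G A a b) (ha : a ∈ A) :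
    ∃ l, Wk G A a l b ∧ (a :: l).Nodup := by
  obtain ⟨l, hl⟩ := h.wk ha
  exact simple_O6 hl

/-- A simple walk inside `X` with a given value. -/
def SW_O6 (G : SimpleGraph V) (θ : V → V → Z2) (X : Set V) (a b : V) (ε : Z2) : Prop :=
  ∃ l, Wk G X a l b ∧ (a :: l).Nodup ∧ ev θ a l = ε

variable {θ : V → V → Z2}

theorem sw_mono_O6 {X Y : Set V} {a b : V} {ε : Z2} (h : SW_O6 G θ X a b ε) (hX : X ⊆ Y) :
    SW_O6 G θ Y a b ε := by
  obtain ⟨l, h1, h2, h3⟩ := h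
  exact ⟨l, h1.mono hX, h2, h3⟩

theorem sw_symm_O6 (hθ : Flat G A θ) {X : Set V} (hX : X ⊆ A) {a b : V} {ε : Z2}
    (h : SW_O6 G θ X a b ε) : SW_O6 G θ X b a ε := by
  obtain ⟨l, h1, h2, h3⟩ := h
  refine ⟨rev a l, h1.rev, ?_, ?_⟩
  · rw [rev_eq_O6 h1]
    exact List.nodup_reverse.2 h2
  · rw [ev_rev (hθ.mono hX) h1, z2_inv, h3]

theorem sw_trans_O6 {X Y : Set V} {a b c : V} {ε δ : Z2} (h : SW_O6 G θ X a b ε)
    (h' : SW_O6 G θ Y b c δ) (hd : ∀ x ∈ X, x ∈ Y → x = b) : SW_O6 G θ (X ∪ Y) a c (ε * δ) := by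
  obtain ⟨l, h1, h2, h3⟩ := h
  obtain ⟨m, k1, k2, k3⟩ := h'
  refine ⟨l ++ m, (h1.mono Set.subset_union_left).append (k1.mono Set.subset_union_right), ?_, ?_⟩
  · rw [← List.cons_append]
    refine List.nodup_append.2 ⟨h2, (List.nodup_cons.1 k2).2, ?_⟩
    intro x hx y hy hxy
    subst hxy
    have hxX : x ∈ X := by
      rcases List.mem_cons.1 hx with rfl | hx
      · exact h1.mem_left
      · exact h1.mem_list x hx
    have := hd x hxX (k1.mem_list x hy)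
    subst this
    exact (List.nodup_cons.1 k2).1 hy
  · rw [ev_append h1, h3, k3]

theorem sw_of_O6 {a b : V} {l : List V} (h : Wk G A a l b) (hn : (a :: l).Nodup) :
    SW_O6 G θ {x | x ∈ a :: l} a b (ev θ a l) :=
  ⟨l, h.restrict (by simp) (fun x hx => List.mem_cons_of_mem _ hx), hn, rfl⟩

theorem dup_O6 {l : List V} (h : ¬ l.Nodup) :
    ∃ l1 x l2 l3, l = l1 ++ x :: (l2 ++ x :: l3) := by
  induction l with
  | nil => simp at h
  | cons y l ih =>
    by_cases hy : y ∈ l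
    · obtain ⟨s, t, rfl⟩ := List.append_of_mem hy
      exact ⟨[], y, s, t, rfl⟩
    · obtain ⟨l1, x, l2, l3, rfl⟩ := ih fun hn => h (List.nodup_cons.2 ⟨hy, hn⟩)
      exact ⟨y :: l1, x, l2, l3, rfl⟩

theorem ev_split_O6 {a b x : V} {l m : List V} (h : Wk G A a (l ++ x :: m) b) :
    ev θ a (l ++ x :: m) = ev θ a (l ++ [x]) * ev θ x m := by
  rw [← ev_append (split_O6 h).1]
  simp

theorem cycle_O6 (n : ℕ) : ∀ (a : V) (l : List V), l.length = n → Wk G A a l a →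
    ev θ a l ≠ 1 → ∃ a l, Wk G A a l a ∧ ev θ a l ≠ 1 ∧ l.Nodup := by
  induction n using Nat.strong_induction_on with
  | _ n ih =>
    intro a l hl hw he
    by_cases hn : l.Nodup
    · exact ⟨a, l, hw, he, hn⟩
    obtain ⟨l1, x, l2, l3, rfl⟩ := dup_O6 hn
    obtain ⟨w1, w2⟩ := split_O6 hw
    obtain ⟨w3, w4⟩ := split_O6 w2
    by_cases h2 : ev θ x (l2 ++ [x]) = 1
    · refine ih _ ?_ a ((l1 ++ [x]) ++ l3) rfl (w1.append w4) ?_
      · rw [← hl]
        simp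
      · rw [ev_append w1]
        rw [ev_split_O6 hw, ev_split_O6 w2, h2, one_mul] at he
        exact he
    · refine ih _ ?_ x (l2 ++ [x]) rfl w3 h2
      rw [← hl]
      simp
      omega

/-- Two points, and simple walks of both values between any two points. -/
def Good_O6 (G : SimpleGraph V) (A : Set V) (θ : V → V → Z2) (K : Set V) : Prop :=
  K ⊆ A ∧ K.Nontrivial ∧ ∀ a ∈ K, ∀ b ∈ K, a ≠ b → ∀ ε, SW_O6 G θ K a b ε

theorem z2_pick_O6 {x y : Z2} (h : x * y ≠ 1) (ε : Z2) : ε = x ∨ ε = y := by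
  rcases z2_cases x with rfl | rfl <;> rcases z2_cases y with rfl | rfl <;>
    rcases z2_cases ε with rfl | rfl <;> simp_all [z2_mul_self]

theorem good_cycle_O6 (hθ : Flat G A θ) {a : V} {l : List V} (hw : Wk G A a l a)
    (he : ev θ a l ≠ 1) (hn : l.Nodup) : Good_O6 G A θ {x | x ∈ l} := by
  have hsub : {x | x ∈ l} ⊆ A := fun x hx => hw.mem_list x hx
  refine ⟨hsub, ?_, ?_⟩
  · cases hw with
    | nil _ => exact absurd rfl he
    | @cons _ b _ m h1 h2 h3 =>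
      have hb : a ≠ b := by
        rintro rfl
        cases h3 with
        | nil _ => exact he (by simp [ev, hθ.self h1])
        | cons _ _ h6 => exact (List.nodup_cons.1 hn).1 (end_mem_O6 h6)
      exact ⟨a, end_mem_O6 h3, b, by simp, hb⟩
  · intro x hx y hy hxy ε
    obtain ⟨l1, l2, rfl⟩ := List.append_of_mem hx
    obtain ⟨w1, w2⟩ := split_O6 hw
    have hp : (l2 ++ (l1 ++ [x])).Perm (l1 ++ x :: l2) := by
      refine List.perm_append_comm.trans ?_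
      simp
    have w3 := w2.append w1
    have e3 : ev θ x (l2 ++ (l1 ++ [x])) ≠ 1 := by
      rw [ev_append w2, mul_comm, ← ev_split_O6 hw]
      exact he
    have n3 := hp.nodup_iff.2 hn
    obtain ⟨m1, m2, hm⟩ := List.append_of_mem (hp.mem_iff.2 hy)
    rw [hm] at w3 e3 n3 hp
    obtain ⟨w4, w5⟩ := split_O6 w3
    rw [ev_split_O6 w3] at e3
    have hx2 : x ∈ m2 := by
      rcases List.mem_cons.1 (end_mem_O6 w5) with h | h
      · exact absurd h hxy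
      · exact h
    obtain ⟨q1, q2, q3⟩ := List.nodup_append.1 n3
    have s1 : SW_O6 G θ {z | z ∈ l1 ++ x :: l2} x y (ev θ x (m1 ++ [y])) := by
      refine sw_mono_O6 (sw_of_O6 w4 ?_) ?_
      · refine List.nodup_cons.2 ⟨?_, List.nodup_append.2 ⟨q1, by simp, ?_⟩⟩
        · intro h
          rcases List.mem_append.1 h with h | h
          · exact q3 x h x (List.mem_cons_of_mem _ hx2) rfl
          · exact hxy (by simpa using h)
        · intro u hu v hv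
          exact q3 u hu v (by simp at hv; simp [hv])
      · intro z hz
        rcases List.mem_cons.1 hz with rfl | hz
        · exact hx
        · refine hp.mem_iff.1 ?_
          rcases List.mem_append.1 hz with h | h
          · exact List.mem_append_left _ h
          · simp at h
            simp [h]
    have s2 : SW_O6 G θ {z | z ∈ l1 ++ x :: l2} y x (ev θ y m2) :=
      sw_mono_O6 (sw_of_O6 w5 q2) fun z hz => hp.mem_iff.1 (List.mem_append_right _ hz)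
    rcases z2_pick_O6 e3 ε with h | h
    · rw [h]
      exact s1
    · rw [h]
      exact sw_symm_O6 hθ hsub s2

theorem first_O6 {K : Set V} {l : List V} (h : ∃ x ∈ l, x ∈ K) :
    ∃ m y r, l = m ++ y :: r ∧ y ∈ K ∧ ∀ x ∈ m, x ∉ K := by
  induction l with
  | nil => simp at h
  | cons z l ih =>
    by_cases hz : z ∈ K
    · exact ⟨[], z, l, rfl, hz, by simp⟩
    · obtain ⟨x, hx, hxK⟩ := h
      rcases List.mem_cons.1 hx with rfl | hx
      · exact absurd hxK hz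
      obtain ⟨m, y, r, rfl, h1, h2⟩ := ih ⟨x, hx, hxK⟩
      refine ⟨z :: m, y, r, rfl, h1, ?_⟩
      intro u hu
      rcases List.mem_cons.1 hu with rfl | hu
      · exact hz
      · exact h2 u hu

theorem join_O6 {K X Y : Set V} (hK : Good_O6 G A θ K) {p q t s : V} {v w : Z2}
    (h1 : SW_O6 G θ X p t v) (h2 : SW_O6 G θ Y s q w) (ht : t ∈ K) (hs : s ∈ K) (hts : t ≠ s)
    (d1 : ∀ x ∈ X, x ∈ K → x = t) (d2 : ∀ x ∈ Y, x ∈ K → x = s) (d3 : ∀ x ∈ X, x ∉ Y) (ε : Z2) :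
    SW_O6 G θ (X ∪ K ∪ Y) p q ε := by
  have h3 := sw_trans_O6 (sw_trans_O6 h1 (hK.2.2 t ht s hs hts (v⁻¹ * ε * w⁻¹)) d1) h2
    (fun x hx hy => by
      rcases hx with hx | hx
      · exact absurd hy (d3 x hx)
      · exact d2 x hy hx)
  have : v * (v⁻¹ * ε * w⁻¹) * w = ε := by group
  rwa [this] at h3

theorem ear_O6 (hθ : Flat G A θ) {K : Set V} (hK : Good_O6 G A θ K) {y y' : V} {E : List V}
    (hw : Wk G A y (E ++ [y']) y') (hn : (y :: (E ++ [y'])).Nodup) (hy : y ∈ K) (hy' : y' ∈ K)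
    (hE : ∀ x ∈ E, x ∉ K) : Good_O6 G A θ (K ∪ {x | x ∈ E}) := by
  have hyy : y ≠ y' := fun h => (List.nodup_cons.1 hn).1 (by simp [h])
  have hsub : K ∪ {x | x ∈ E} ⊆ A := by
    rintro x (hx | hx)
    · exact hK.1 hx
    · exact hw.mem_list x (List.mem_append_left _ hx)
  have hEn : E.Nodup := (List.nodup_append.1 (List.nodup_cons.1 hn).2).1
  have key : ∀ e1 p e2, E = e1 ++ p :: e2 →
      (∃ v, SW_O6 G θ {x | x ∈ y :: (e1 ++ [p])} p y v) ∧
        ∃ v, SW_O6 G θ {x | x ∈ p :: (e2 ++ [y'])} p y' v := by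
    rintro e1 p e2 rfl
    have e : e1 ++ p :: e2 ++ [y'] = e1 ++ p :: (e2 ++ [y']) := by simp
    rw [e] at hw hn
    obtain ⟨w1, w2⟩ := split_O6 hw
    refine ⟨⟨_, sw_symm_O6 hθ ?_ (sw_of_O6 w1 ?_)⟩, ⟨_, sw_of_O6 w2 ?_⟩⟩
    · intro x hx
      rcases List.mem_cons.1 hx with rfl | hx
      · exact w1.mem_left
      · exact w1.mem_list x hx
    · refine hn.sublist (List.Sublist.cons_cons _ ?_)
      exact List.Sublist.append (List.Sublist.refl _) (by simp)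
    · exact (List.nodup_append.1 (List.nodup_cons.1 hn).2).2.1
  have nil : ∀ q ∈ K, SW_O6 G θ {q} q q 1 := fun q _ => ⟨[], Wk.nil rfl, by simp, rfl⟩
  have c1 : ∀ p ∈ E, ∀ q ∈ K, ∀ ε, SW_O6 G θ (K ∪ {x | x ∈ E}) p q ε := by
    intro p hp q hq ε
    obtain ⟨e1, e2, he⟩ := List.append_of_mem hp
    obtain ⟨⟨v1, k1⟩, ⟨v2, k2⟩⟩ := key e1 p e2 he
    subst he
    by_cases hq' : y' = q
    · refine sw_mono_O6 (join_O6 hK k1 (nil q hq) hy hq (hq' ▸ hyy) ?_ (fun x hx _ => hx) ?_ ε) ?_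
      · intro x hx hxK
        simp only [Set.mem_ofPred_eq, List.mem_cons, List.mem_append, List.not_mem_nil,
          or_false] at hx
        rcases hx with h | h | h
        · exact h
        · exact absurd hxK (hE x (by simp [h]))
        · exact absurd hxK (hE x (by simp [h]))
      · intro x hx hxq
        rw [Set.mem_singleton_iff] at hxq
        subst hxq
        simp only [Set.mem_ofPred_eq, List.mem_cons, List.mem_append, List.not_mem_nil,
          or_false] at hx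
        rcases hx with h | h | h
        · exact hyy (h.symm.trans hq'.symm)
        · exact hE x (by simp [h]) hq
        · exact hE x (by simp [h]) hq
      · rintro x ((hx | hx) | hx)
        · simp only [Set.mem_ofPred_eq, List.mem_cons, List.mem_append, List.not_mem_nil,
            or_false] at hx
          rcases hx with h | h | h
          · exact Or.inl (h ▸ hy)
          · exact Or.inr (by simp [h])
          · exact Or.inr (by simp [h])
        · exact Or.inl hx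
        · exact Or.inl (hx ▸ hq)
    · refine sw_mono_O6 (join_O6 hK k2 (nil q hq) hy' hq hq' ?_ (fun x hx _ => hx) ?_ ε) ?_
      · intro x hx hxK
        simp only [Set.mem_ofPred_eq, List.mem_cons, List.mem_append, List.not_mem_nil,
          or_false] at hx
        rcases hx with h | h | h
        · exact absurd hxK (hE x (by simp [h]))
        · exact absurd hxK (hE x (by simp [h]))
        · exact h
      · intro x hx hxq
        rw [Set.mem_singleton_iff] at hxq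
        subst hxq
        simp only [Set.mem_ofPred_eq, List.mem_cons, List.mem_append, List.not_mem_nil,
          or_false] at hx
        rcases hx with h | h | h
        · exact hE x (by simp [h]) hq
        · exact hE x (by simp [h]) hq
        · exact hq' h.symm
      · rintro x ((hx | hx) | hx)
        · simp only [Set.mem_ofPred_eq, List.mem_cons, List.mem_append, List.not_mem_nil,
            or_false] at hx
          rcases hx with h | h | h
          · exact Or.inr (by simp [h])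
          · exact Or.inr (by simp [h])
          · exact Or.inl (h ▸ hy')
        · exact Or.inl hx
        · exact Or.inl (hx ▸ hq)
  have c2 : ∀ e1 p e2 q e3, E = e1 ++ p :: (e2 ++ q :: e3) →
      ∀ ε, SW_O6 G θ (K ∪ {x | x ∈ E}) p q ε := by
    intro e1 p e2 q e3 he ε
    obtain ⟨v1, k1⟩ := (key e1 p _ he).1
    obtain ⟨v2, k2⟩ := (key (e1 ++ p :: e2) q e3 (by simp [he])).2
    have hs2 : {x | x ∈ q :: (e3 ++ [y'])} ⊆ K ∪ {x | x ∈ E} := by
      intro x hx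
      simp only [Set.mem_ofPred_eq, List.mem_cons, List.mem_append, List.not_mem_nil,
        or_false] at hx
      rcases hx with h | h | h
      · exact Or.inr (by simp [he, h])
      · exact Or.inr (by simp [he, h])
      · exact Or.inl (h ▸ hy')
    refine sw_mono_O6 (join_O6 hK k1 (sw_symm_O6 hθ (hs2.trans hsub) k2) hy hy' hyy ?_ ?_ ?_ ε) ?_
    · intro x hx hxK
      simp only [Set.mem_ofPred_eq, List.mem_cons, List.mem_append, List.not_mem_nil,
        or_false] at hx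
      rcases hx with h | h | h
      · exact h
      · exact absurd hxK (hE x (by simp [he, h]))
      · exact absurd hxK (hE x (by simp [he, h]))
    · intro x hx hxK
      simp only [Set.mem_ofPred_eq, List.mem_cons, List.mem_append, List.not_mem_nil,
        or_false] at hx
      rcases hx with h | h | h
      · exact absurd hxK (hE x (by simp [he, h]))
      · exact absurd hxK (hE x (by simp [he, h]))
      · exact h
    · intro x hx hx'
      have e : y :: (E ++ [y']) = (y :: (e1 ++ [p])) ++ (e2 ++ q :: (e3 ++ [y'])) := by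
        simp [he]
      rw [e] at hn
      exact (List.nodup_append.1 hn).2.2 x hx x (List.mem_append_right _ hx') rfl
    · rintro x ((hx | hx) | hx)
      · simp only [Set.mem_ofPred_eq, List.mem_cons, List.mem_append, List.not_mem_nil,
          or_false] at hx
        rcases hx with h | h | h
        · exact Or.inl (h ▸ hy)
        · exact Or.inr (by simp [he, h])
        · exact Or.inr (by simp [he, h])
      · exact Or.inl hx
      · exact hs2 hx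
  refine ⟨hsub, hK.2.1.mono Set.subset_union_left, ?_⟩
  rintro p (hp | hp) q (hq | hq) hpq ε
  · exact sw_mono_O6 (hK.2.2 p hp q hq hpq ε) Set.subset_union_left
  · exact sw_symm_O6 hθ hsub (c1 q hq p hp ε)
  · exact c1 p hp q hq ε
  · obtain ⟨e1, e2, he⟩ := List.append_of_mem hp
    have hq2 : q ∈ e1 ++ p :: e2 := he ▸ hq
    rcases List.mem_append.1 hq2 with h | h
    · obtain ⟨s, t, rfl⟩ := List.append_of_mem h
      exact sw_symm_O6 hθ hsub (c2 s q t p e2 (by simp [he]) ε)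
    · rcases List.mem_cons.1 h with h | h
      · exact absurd h.symm hpq
      · obtain ⟨s, t, rfl⟩ := List.append_of_mem h
        exact c2 e1 p s q t he ε

theorem grow_O6 (hp : Pre G A) (hc : ∀ y, Pre G (A \ {y})) (hθ : Flat G A θ) {K : Set V}
    (hK : Good_O6 G A θ K) {w : V} (hw : w ∈ A) (hwK : w ∉ K) :
    ∃ K', Good_O6 G A θ K' ∧ K ⊆ K' ∧ ∃ z ∈ K', z ∉ K := by
  obtain ⟨k0, hk0⟩ := hK.2.1.nonempty
  obtain ⟨y, hy, z, hz, hyz, -⟩ := (hp k0 (hK.1 hk0) w hw).exit ⟨hK.1 hk0, hk0⟩ hwK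
  obtain ⟨y0, hy0, hne⟩ := hK.2.1.exists_ne y
  have hzy : z ∈ A \ {y} := ⟨hz.1, hyz.ne'⟩
  obtain ⟨l, w1, n1⟩ := (hc y z hzy y0 ⟨hK.1 hy0, hne⟩).simple hzy
  have hl : ∃ x ∈ l, x ∈ K := by
    rcases List.mem_cons.1 (end_mem_O6 w1) with h | h
    · exact absurd (h ▸ hy0) hz.2
    · exact ⟨y0, h, hy0⟩
  obtain ⟨m, y', r, rfl, hy', hm⟩ := first_O6 hl
  have w2 := (split_O6 w1).1
  refine ⟨_, ear_O6 (E := z :: m) hθ hK (Wk.cons hy.1 (Or.inr hyz) (w2.mono Set.sdiff_subset)) ?_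
    hy.2 hy' ?_, Set.subset_union_left, z, Or.inr (by simp), hz.2⟩
  · refine List.nodup_cons.2 ⟨?_, ?_⟩
    · intro h
      rcases List.mem_cons.1 h with h | h
      · exact hyz.ne h
      · exact (w2.mem_list y h).2 rfl
    · refine n1.sublist (List.Sublist.cons_cons _ ?_)
      exact List.Sublist.append (List.Sublist.refl _) (by simp)
  · intro x hx
    rcases List.mem_cons.1 hx with rfl | hx
    · exact hz.2
    · exact hm x hx

theorem two_paths (hf : A.Finite) (hp : Pre G A) (hc : ∀ y, Pre G (A \ {y})) {θ : V → V → Z2}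
    (hθ : Flat G A θ) (hn : ¬ Pot G A θ) {a b : V} (ha : a ∈ A) (hb : b ∈ A) (hne : a ≠ b)
    (ε : Z2) : ∃ l, Wk G A a l b ∧ (a :: l).Nodup ∧ ev θ a l = ε := by
  have h0 : ∃ K, Good_O6 G A θ K := by
    have : ¬ ∀ a l, Wk G A a l a → ev θ a l = 1 := fun h => hn (pot_of_loops hθ h)
    push Not at this
    obtain ⟨c, l, h1, h2⟩ := this
    obtain ⟨c', l', k1, k2, k3⟩ := cycle_O6 _ c l rfl h1 h2
    exact ⟨_, good_cycle_O6 hθ k1 k2 k3⟩
  have h1 : ∀ n K, (A \ K).ncard = n → Good_O6 G A θ K → Good_O6 G A θ A := by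
    intro n
    induction n using Nat.strong_induction_on with
    | _ n ih =>
      intro K hK hg
      by_cases hA : A ⊆ K
      · rwa [Set.Subset.antisymm hg.1 hA] at hg
      obtain ⟨w, hw, hwK⟩ := Set.not_subset.1 hA
      obtain ⟨K', g1, g2, z, hz, hzK⟩ := grow_O6 hp hc hθ hg hw hwK
      refine ih _ ?_ K' rfl g1
      rw [← hK]
      refine Set.ncard_lt_ncard ⟨Set.sdiff_subset_sdiff_right g2, fun h => ?_⟩ (hf.subset Set.sdiff_subset)
      exact (h ⟨g1.1 hz, hzK⟩).2 hz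
  obtain ⟨K, hK⟩ := h0
  exact (h1 _ K rfl hK).2.2 a ha b hb hne ε

end Pool.Agent.MP_6374aa_g

end

section

/-! The curve in the subdivision. -/

namespace Pool.Agent.MP_6374aa_g

open Pool.Agent.MP_6374aa_gt Classical

variable {V V' V'' : Type} {G : SimpleGraph V} {G' : SimpleGraph V'} {G'' : SimpleGraph V''}
  {A : Set V} {A' : Set V'} {A'' : Set V''} {L : Type} [Group L]

theorem ins_O7 {t : Finset V} {c : V} (ht : Clq G A t) (hc : c ∈ Lk G A t) :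
    Clq G A (insert c t) := by
  obtain ⟨k1, k2⟩ := clq_iff.1 ht
  refine clq_iff.2 ⟨fun x hx => ?_, fun x hx y hy => ?_⟩
  · rcases Finset.mem_insert.1 hx with rfl | hx'
    · exact hc.1
    · exact k1 hx'
  · rcases Finset.mem_insert.1 hx with rfl | hx' <;> rcases Finset.mem_insert.1 hy with rfl | hy'
    · exact adq_refl _
    · exact Or.inr (hc.2 y hy').symm
    · exact Or.inr (hc.2 x hx')
    · exact k2 x hx' y hy'

theorem Sided.sd_O7 (h : Cl G 3 A) {S : Set V} (hS : S ⊆ A) (hs : Sph G 3 S) {σ : V → Set V}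
    (hσ : Sided G 3 A S σ) :
    Sided (sG V) 3 (sA G A) (sA G S) fun s => Lk (sG V) (sA G A) {s} ∩ hfr G A S σ := by
  refine ⟨fun s _ t ht => ⟨ht.1, fun c => ht.2.2 c.2.1⟩, fun s hs' a ha b hb e => ?_,
    fun s _ t _ _ a ha => ?_, fun τ hτ _ s hs' => ?_⟩
  · refine hb.2 (Or.inr ⟨hb.1, (hfr_clopen hσ).2 a ha.2 b ?_ e⟩)
    have k1 : ¬ ↑b ⊆ S := fun c => hb.2 (Or.inl ⟨hb.1.1.1, c, hb.1.1.2.2⟩)
    obtain ⟨y, hy⟩ := hs'.1
    rcases hb.1.2 s rfl with k | k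
    · exact ⟨hb.1.1, ⟨y, k.subset hy, hs'.2.1 hy⟩, k1⟩
    · exact absurd (fun z hz => hs'.2.1 (k.subset hz)) k1
  · exact and_congr_left fun _ => iff_of_true (mem_lk_H1.2 ⟨ha.1, ha.2 s (by simp)⟩)
      (mem_lk_H1.2 ⟨ha.1, ha.2 t (by simp)⟩)
  · have k1 := hτ.1 (top_mem (P := sA G S) ⟨⟨s, hs'⟩, hτ⟩)
    obtain ⟨t, k2, k3, k4, -⟩ := Cell.pure hs k1.2
    obtain ⟨y, hy⟩ := k1.1
    have hyS : y ∈ S := k1.2.1 hy
    obtain ⟨⟨a, ha, ha'⟩, b, hb, hb'⟩ := hσ.two t k2 k4 y (k3 hy)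
    have k5 : ∀ c ∈ Lk G A t, insert c t ∈ Lk (sG V) (sA G A) τ := fun c hc =>
      ⟨⟨Finset.insert_nonempty _ _, ins_O7 ⟨k2.1.trans hS, k2.2⟩ hc⟩, fun u hu => Or.inl
        (((subset_top hu).trans k3).trans_ssubset
          (Finset.ssubset_insert fun e => G.irrefl (hc.2 c e)))⟩
    refine ⟨⟨insert a t, k5 a ha, mem_lk_H1.2 ⟨(k5 a ha).1, (k5 a ha).2 s hs'⟩,
      hσ.mem_hsd (k5 a ha).1 (Finset.mem_insert_of_mem (k3 hy)) hyS (Finset.mem_insert_self _ _)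
        ha'⟩, insert b t, k5 b hb, ?_⟩
    have hbS : b ∉ S := fun c => hb' (Or.inl c)
    rintro (c | c)
    · exact hbS (c.2.1 (Finset.mem_insert_self _ _))
    · exact hb' (Or.inr (c.2.1.2.2 y (Finset.mem_insert_of_mem (k3 hy)) hyS b
        (Finset.mem_insert_self _ _) hbS))

/-- Consecutive entries. -/
def Cs_O7 : V → List V → V → V → Prop
  | _, [], _, _ => False
  | a, b :: l, p, q => (p = a ∧ q = b) ∨ Cs_O7 b l p q

theorem mem_sdw_O7 {s : Finset V} {l : List V} : ∀ {a : V}, s ∈ sdw a l ↔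
    (∃ b ∈ l, s = {b}) ∨ ∃ p q, Cs_O7 a l p q ∧ s = {p, q} := by
  induction l with
  | nil => simp [sdw, Cs_O7]
  | cons b l ih =>
    intro a
    rw [sdw, List.mem_cons, List.mem_cons, ih]
    constructor
    · rintro (e | e | ⟨c, hc, e⟩ | ⟨p, q, hc, e⟩)
      · exact Or.inr ⟨a, b, Or.inl ⟨rfl, rfl⟩, e⟩
      · exact Or.inl ⟨b, List.mem_cons_self, e⟩
      · exact Or.inl ⟨c, List.mem_cons_of_mem _ hc, e⟩
      · exact Or.inr ⟨p, q, Or.inr hc, e⟩
    · rintro (⟨c, hc, e⟩ | ⟨p, q, ⟨rfl, rfl⟩ | hc, e⟩)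
      · rcases List.mem_cons.1 hc with rfl | hc'
        · exact Or.inr (Or.inl e)
        · exact Or.inr (Or.inr (Or.inl ⟨c, hc', e⟩))
      · exact Or.inl e
      · exact Or.inr (Or.inr (Or.inr ⟨p, q, hc, e⟩))

theorem cs_mem_O7 {p q : V} {l : List V} : ∀ {a : V}, Cs_O7 a l p q → p ∈ a :: l ∧ q ∈ l := by
  induction l with
  | nil => exact fun h => h.elim
  | cons b l ih =>
    rintro a (⟨rfl, rfl⟩ | h)
    · exact ⟨List.mem_cons_self, List.mem_cons_self⟩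
    · exact ⟨List.mem_cons_of_mem _ (ih h).1, List.mem_cons_of_mem _ (ih h).2⟩

theorem cs_asym_O7 {p q : V} {l : List V} :
    ∀ {a : V}, (a :: l).Nodup → Cs_O7 a l p q → ¬ Cs_O7 a l q p := by
  induction l with
  | nil => exact fun _ h => h.elim
  | cons b l ih =>
    intro a hn
    obtain ⟨h1, h2⟩ := List.nodup_cons.1 hn
    rintro (⟨rfl, rfl⟩ | h) (⟨e, -⟩ | h')
    · exact h1 (e ▸ List.mem_cons_self)
    · exact h1 (List.mem_cons_of_mem _ (cs_mem_O7 h').2)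
    · exact h1 (e ▸ List.mem_cons_of_mem _ (cs_mem_O7 h).2)
    · exact ih h2 h h'

theorem cs_pred_O7 {q : V} {l : List V} :
    ∀ {a : V}, (a :: l).Nodup → q ∈ l → ∃ r, ∀ y, Cs_O7 a l y q ↔ y = r := by
  induction l with
  | nil => exact fun _ h => absurd h List.not_mem_nil
  | cons b l ih =>
    intro a hn hq
    obtain ⟨-, h2⟩ := List.nodup_cons.1 hn
    have h3 := (List.nodup_cons.1 h2).1
    rcases List.mem_cons.1 hq with rfl | hq'
    · exact ⟨a, fun y => ⟨fun h => h.elim (fun e => e.1) fun h => absurd (cs_mem_O7 h).2 h3,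
        fun e => Or.inl ⟨e, rfl⟩⟩⟩
    · obtain ⟨r, hr⟩ := ih h2 hq'
      exact ⟨r, fun y => (or_iff_right fun e : y = a ∧ q = b => h3 (e.2 ▸ hq')).trans (hr y)⟩

theorem end_mem_O7 {a b : V} {l : List V} (h : Wk G A a l b) : b ∈ a :: l := by
  induction h with
  | nil _ => exact List.mem_cons_self
  | cons _ _ _ ih => exact List.mem_cons_of_mem _ ih

theorem cs_succ_O7 {a b : V} {l : List V} (h : Wk G A a l b) (hn : (a :: l).Nodup) :
    (∀ y, ¬ Cs_O7 a l b y) ∧ ∀ p ∈ a :: l, p ≠ b → ∃ q, ∀ y, Cs_O7 a l p y ↔ y = q := by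
  induction h with
  | nil _ => exact ⟨fun _ h => h, fun p hp e => absurd (List.mem_singleton.1 hp) e⟩
  | @cons a b c l _ _ hw ih =>
    obtain ⟨h1, h2⟩ := List.nodup_cons.1 hn
    refine ⟨fun y h => h.elim (fun e => h1 (e.1 ▸ end_mem_O7 hw)) ((ih h2).1 y), fun p hp e => ?_⟩
    rcases List.mem_cons.1 hp with rfl | hp'
    · exact ⟨b, fun y => ⟨fun h => h.elim (fun e => e.2) fun h => absurd (cs_mem_O7 h).1 h1,
        fun e => Or.inl ⟨rfl, e⟩⟩⟩
    · obtain ⟨q, hq⟩ := (ih h2).2 p hp' e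
      exact ⟨q, fun y => (or_iff_right fun e : p = a ∧ y = b => h1 (e.1 ▸ hp')).trans (hq y)⟩

theorem cs_append_O7 {a b x p q : V} {l : List V} (h : Wk G A a l b) :
    Cs_O7 a (l ++ [x]) p q ↔ Cs_O7 a l p q ∨ (p = b ∧ q = x) := by
  induction h with
  | nil _ => simp [Cs_O7]
  | cons _ _ _ ih => rw [List.cons_append, Cs_O7, Cs_O7, ih, or_assoc]

theorem sdw_append_O7 {a b : V} {l : List V} (h : Wk G A a l b) (m : List V) :
    sdw a (l ++ m) = sdw a l ++ sdw b m := by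
  induction h with
  | nil _ => rfl
  | cons _ _ _ ih => rw [List.cons_append, sdw, sdw, ih]; rfl

theorem reach_O7 {a b c : V} {l : List V} (h : Wk G A a l b) (hc : c ∈ l) : Reach G A a c := by
  induction h with
  | nil _ => exact absurd hc List.not_mem_nil
  | cons ha hab hw ih =>
    rcases List.mem_cons.1 hc with rfl | hc'
    · exact Reach.single ha hw.mem_left hab
    · exact (Reach.single ha hw.mem_left hab).trans (ih hc')

/-- The subdivided cycle of a successor relation. -/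
structure Cyc_O7 (Z : Set V) (R : V → V → Prop) (γ : Set (Finset V)) : Prop where
  mem : ∀ s, s ∈ γ ↔ (∃ a ∈ Z, s = {a}) ∨ ∃ p q, R p q ∧ s = {p, q}
  sub : ∀ p q, R p q → p ∈ Z ∧ q ∈ Z
  asym : ∀ p q, R p q → ¬ R q p
  succ : ∀ a ∈ Z, ∃ q, ∀ y, R a y ↔ y = q
  pred : ∀ a ∈ Z, ∃ r, ∀ y, R y a ↔ y = r

section

variable {Z : Set V} {R : V → V → Prop} {γ : Set (Finset V)}

theorem ne_O7 (h : Cyc_O7 Z R γ) {p q : V} (hr : R p q) : p ≠ q :=
  fun e => h.asym p q hr (e ▸ e ▸ hr)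

theorem ss_O7 (h : Cyc_O7 Z R γ) {s t : Finset V} (hs : s ∈ γ) (ht : t ∈ γ) (e : s ⊂ t) :
    ∃ a b, (R a b ∨ R b a) ∧ s = {a} ∧ t = {a, b} := by
  have c := Finset.card_lt_card e
  rcases (h.mem s).1 hs with ⟨a, -, rfl⟩ | ⟨p, q, hr, rfl⟩ <;>
    rcases (h.mem t).1 ht with ⟨b, -, rfl⟩ | ⟨p', q', hr', rfl⟩
  · simp at c
  · rcases Finset.mem_insert.1 (e.subset (Finset.mem_singleton_self a)) with rfl | k
    · exact ⟨a, q', Or.inl hr', rfl, rfl⟩
    · obtain rfl := Finset.mem_singleton.1 k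
      exact ⟨a, p', Or.inr hr', rfl, Finset.pair_comm _ _⟩
  · rw [Finset.card_pair (ne_O7 h hr)] at c
    simp at c
  · rw [Finset.card_pair (ne_O7 h hr), Finset.card_pair (ne_O7 h hr')] at c
    omega

theorem sub_pair_O7 {a b : V} (e : a ≠ b) : ({a} : Finset V) ⊂ {a, b} :=
  Finset.ssubset_iff_subset_ne.2 ⟨by simp, fun k => by
    have := congrArg Finset.card k
    rw [Finset.card_pair e] at this
    simp at this⟩

theorem lk_one_O7 (h : Cyc_O7 Z R γ) {a q r : V} (ha : a ∈ Z) (hq : ∀ y, R a y ↔ y = q)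
    (hr : ∀ y, R y a ↔ y = r) : Lk (sG V) γ {{a}} = {{a, q}, {a, r}} := by
  have h0 : {a} ∈ γ := (h.mem _).2 (Or.inl ⟨a, ha, rfl⟩)
  have h1 := (hq q).2 rfl
  have h2 := (hr r).2 rfl
  ext t
  rw [mem_lk_H1]
  constructor
  · rintro ⟨ht, e | e⟩
    · obtain ⟨c, b, k, e1, rfl⟩ := ss_O7 h h0 ht e
      obtain rfl := Finset.singleton_injective e1
      exact k.imp (fun k => by rw [(hq b).1 k]) fun k => by rw [(hr b).1 k]; rfl
    · obtain ⟨c, b, k, rfl, e1⟩ := ss_O7 h ht h0 e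
      have := Finset.card_lt_card e
      simp at this
  · rintro (rfl | rfl)
    · exact ⟨(h.mem _).2 (Or.inr ⟨a, q, h1, rfl⟩), Or.inl (sub_pair_O7 (ne_O7 h h1))⟩
    · exact ⟨(h.mem _).2 (Or.inr ⟨r, a, h2, Finset.pair_comm _ _⟩),
        Or.inl (sub_pair_O7 (ne_O7 h h2).symm)⟩

theorem lk_two_O7 (h : Cyc_O7 Z R γ) {p q : V} (hr : R p q) :
    Lk (sG V) γ {{p, q}} = {{p}, {q}} := by
  have h0 : {p, q} ∈ γ := (h.mem _).2 (Or.inr ⟨p, q, hr, rfl⟩)
  ext t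
  rw [mem_lk_H1]
  constructor
  · rintro ⟨ht, e | e⟩
    · obtain ⟨c, b, k, e1, rfl⟩ := ss_O7 h h0 ht e
      have := congrArg Finset.card e1
      rw [Finset.card_pair (ne_O7 h hr)] at this
      simp at this
    · obtain ⟨c, b, k, rfl, e1⟩ := ss_O7 h ht h0 e
      rcases Finset.mem_insert.1 (e.subset (Finset.mem_singleton_self c)) with rfl | k'
      · exact Or.inl rfl
      · exact Or.inr (congrArg _ (Finset.mem_singleton.1 k'))
  · rintro (rfl | rfl)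
    · exact ⟨(h.mem _).2 (Or.inl ⟨p, (h.sub p q hr).1, rfl⟩), Or.inr (sub_pair_O7 (ne_O7 h hr))⟩
    · refine ⟨(h.mem _).2 (Or.inl ⟨q, (h.sub p q hr).2, rfl⟩), Or.inr ?_⟩
      rw [Finset.pair_comm]
      exact sub_pair_O7 (ne_O7 h hr).symm

theorem two_O7 {s t : Finset V} (e : s ≠ t) (hc : s.card = t.card) : Sph (sG V) 1 {s, t} := by
  refine sph_one.2 ⟨Set.ncard_pair e, ?_⟩
  rintro a (rfl | rfl) b (rfl | rfl) (k | k) <;> have := Finset.card_lt_card k <;> omega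

theorem cyc_O7 (h : Cyc_O7 Z R γ) (hf : γ.Finite) (hc : Con (sG V) γ) : Sph (sG V) 2 γ := by
  refine cell_two hf hc (fun s hs => ?_) (by simp)
  rcases (h.mem s).1 hs with ⟨a, ha, rfl⟩ | ⟨p, q, hr, rfl⟩
  · obtain ⟨q, hq⟩ := h.succ a ha
    obtain ⟨r, hr⟩ := h.pred a ha
    have h1 := (hq q).2 rfl
    have h2 := (hr r).2 rfl
    rw [lk_one_O7 h ha hq hr]
    refine two_O7 (fun e => ?_)
      (by rw [Finset.card_pair (ne_O7 h h1), Finset.card_pair (ne_O7 h h2).symm])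
    have k : q ∈ ({a, r} : Finset V) := by rw [← e]; simp
    rcases Finset.mem_insert.1 k with k' | k'
    · exact ne_O7 h h1 k'.symm
    · exact h.asym a q h1 (Finset.mem_singleton.1 k' ▸ h2)
  · rw [lk_two_O7 h hr]
    exact two_O7 (fun e => ne_O7 h hr (Finset.singleton_injective e)) rfl

end

theorem cyc_path_O7 {x v w : V} {l : List V} (hl : Wk G A v l w) (hn : (v :: l).Nodup)
    (hx : x ∉ v :: l) (hvw : v ≠ w) :
    Cyc_O7 {y | y ∈ v :: l ++ [x]} (Cs_O7 x (v :: l ++ [x])) {s | s ∈ sdw x (v :: l ++ [x])} ∧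
      (∀ y, Cs_O7 x (v :: l ++ [x]) x y ↔ y = v) ∧ ∀ y, Cs_O7 x (v :: l ++ [x]) y x ↔ y = w := by
  have e : ∀ p q, Cs_O7 x (v :: l ++ [x]) p q ↔
      (p = x ∧ q = v) ∨ Cs_O7 v l p q ∨ (p = w ∧ q = x) := fun p q =>
    or_congr_right (cs_append_O7 hl)
  have hxv : x ≠ v := fun k => hx (k ▸ List.mem_cons_self)
  have hxw : x ≠ w := fun k => hx (k ▸ end_mem_O7 hl)
  have hxl : x ∉ l := fun k => hx (List.mem_cons_of_mem _ k)
  have hvl : v ∉ l := (List.nodup_cons.1 hn).1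
  have c1 : ∀ y, ¬ Cs_O7 v l x y := fun y k => hx (cs_mem_O7 k).1
  have c2 : ∀ y, ¬ Cs_O7 v l y x := fun y k => hxl (cs_mem_O7 k).2
  have c3 : ∀ y, ¬ Cs_O7 v l y v := fun y k => hvl (cs_mem_O7 k).2
  have d1 : ∀ y, Cs_O7 x (v :: l ++ [x]) x y ↔ y = v := fun y => by rw [e]; simp [c1, hxw]
  have d2 : ∀ y, Cs_O7 x (v :: l ++ [x]) y x ↔ y = w := fun y => by rw [e]; simp [c2, hxv]
  refine ⟨⟨fun s => mem_sdw_O7, fun p q k => ⟨?_, (cs_mem_O7 k).2⟩, fun p q k k' => ?_,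
    fun a ha => ?_, fun a ha => ?_⟩, d1, d2⟩
  · rcases List.mem_cons.1 (cs_mem_O7 k).1 with rfl | k'
    · simp
    · exact k'
  · rcases (e p q).1 k with ⟨rfl, rfl⟩ | k1 | ⟨rfl, rfl⟩
    · exact hvw ((d2 _).1 k')
    · rcases (e q p).1 k' with ⟨rfl, -⟩ | k2 | ⟨-, rfl⟩
      · exact c2 _ k1
      · exact cs_asym_O7 hn k1 k2
      · exact c1 _ k1
    · exact hvw ((d1 _).1 k').symm
  · rcases List.mem_append.1 ha with k | k
    · have hax : a ≠ x := fun k' => hx (k' ▸ k)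
      by_cases haw : a = w
      · exact ⟨x, fun y => by rw [e]; simp [haw, hxw.symm, (cs_succ_O7 hl hn).1]⟩
      · obtain ⟨q, hq⟩ := (cs_succ_O7 hl hn).2 a k haw
        exact ⟨q, fun y => by rw [e]; simp [haw, hax, hq]⟩
    · obtain rfl := List.mem_singleton.1 k
      exact ⟨v, d1⟩
  · rcases List.mem_append.1 ha with k | k
    · have hax : a ≠ x := fun k' => hx (k' ▸ k)
      rcases List.mem_cons.1 k with rfl | k'
      · exact ⟨x, fun y => by rw [e]; simp [c3, hax]⟩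
      · obtain ⟨r, hr⟩ := cs_pred_O7 hn k'
        have hav : a ≠ v := fun k'' => hvl (k'' ▸ k')
        exact ⟨r, fun y => by rw [e]; simp [hav, hax, hr]⟩
    · obtain rfl := List.mem_singleton.1 k
      exact ⟨w, d2⟩

theorem hd_of_path (h : Cl G 3 A) {S : Set V} (hS : S ⊆ A) (hs : Sph G 3 S) {σ : V → Set V}
    (hσ : Sided G 3 A S σ) {x v w : V} (hx : x ∈ S) (hv : v ∈ σ x)
    (hw : w ∈ Lk G A {x} \ (S ∪ σ x)) {l : List V} (hl : Wk G (A \ S) v l w)
    (hn : (v :: l).Nodup) : ∃ γ σ', Hd (sG V) (sA G A) (sA G S) γ {x} {x, v} {x, w} σ' ∧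
      ∀ θ : Finset V → Finset V → Z2, Flat (sG V) γ θ →
        (Pot (sG V) γ θ ↔ ev θ {x} (sdw x (v :: l ++ [x])) = 1) := by
  have hv' := hσ.subset x hx hv
  have hxv : G.Adj x v := hv'.1.2 x rfl
  have hxw : G.Adj x w := hw.1.2 x rfl
  have hwS : w ∉ S := fun k => hw.2 (Or.inl k)
  have hS' : ∀ y ∈ v :: l, y ∉ S := fun y hy => by
    rcases List.mem_cons.1 hy with rfl | hy'
    · exact hv'.2
    · exact (hl.mem_list y hy').2
  obtain ⟨hc, d1, d2⟩ := cyc_path_O7 hl hn (fun k => hS' x k hx)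
    fun k => hw.2 (Or.inr (k ▸ hv))
  obtain ⟨γ, hγ⟩ : ∃ γ, γ = {s | s ∈ sdw x (v :: l ++ [x])} := ⟨_, rfl⟩
  have hm : ∀ s, s ∈ γ ↔ s ∈ sdw x (v :: l ++ [x]) := fun s => by rw [hγ]; rfl
  rw [← hγ] at hc
  have w0 : Wk G A x (v :: l ++ [x]) x := Wk.cons (hS hx) (Or.inr hxv)
    ((hl.mono Set.sdiff_subset).append (Wk.single hw.1.1 (hS hx) (Or.inr hxw.symm)))
  have hγA : γ ⊆ sA G A := fun s hs' => (sdw_wk w0).mem_list s ((hm s).1 hs')
  have hx0 : {x} ∈ γ := (hc.mem _).2 (Or.inl ⟨x, by simp, rfl⟩)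
  have w1 : Wk (sG V) γ {x} (sdw x (v :: l ++ [x])) {x} :=
    (sdw_wk w0).restrict hx0 fun s hs' => (hm s).2 hs'
  have hcirc : Sph (sG V) 2 γ := cyc_O7 hc (hγ ▸ List.finite_toSet _)
    ⟨⟨_, hx0⟩, pre_of_base fun s hs' => (reach_O7 w1 ((hm s).1 hs')).symm⟩
  have hlk := lk_one_O7 hc (a := x) (by simp) d1 d2
  have hone : ∀ s ∈ γ, ∀ t : Finset V, t.Nonempty → t ⊆ s → ↑t ⊆ S → t = {x} := by
    intro s hs' t ht hts htS
    refine ht.subset_singleton_iff.1 fun y hy => Finset.mem_singleton.2 ?_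
    rcases sdw_mem ((hm s).1 hs') y (hts hy) with k | k
    · exact k
    · rcases List.mem_append.1 k with k | k
      · exact absurd (htS hy) (hS' y k)
      · exact List.mem_singleton.1 k
  have m1 : {x, v} ∈ Lk (sG V) γ {{x}} := by rw [hlk]; exact Or.inl rfl
  have m2 : {x, w} ∈ Lk (sG V) γ {{x}} := by rw [hlk]; exact Or.inr rfl
  refine ⟨γ, _, ⟨Cl.sd h le_rfl, sA_mono hS, Sph.sd hs le_rfl, Sided.sd_O7 h hS hs hσ, hγA, hcirc,
    ?_, hlk, ⟨⟨hγA m1.1, m1.2⟩, hσ.mem_hsd (hγA m1.1) (by simp) hx (by simp) hv⟩,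
    fun k => hw.2 (Or.inr (k.2.1.2.2 x (by simp) hx w (by simp) hwS)), ?_⟩,
    fun θ hθ => ⟨fun k => k.ev_loop w1, fun k => ?_⟩⟩
  · exact Set.eq_singleton_iff_unique_mem.2 ⟨⟨hx0, singleton_mem_sA.2 hx⟩,
      fun s hs' => hone s hs'.1 s hs'.2.1 subset_rfl hs'.2.2.1⟩
  · intro a ha b hb e
    rcases adq_sG.1 e with k | k
    · exact ha.2 (hone a ha.1 a (hγA ha.1).1 subset_rfl fun y hy => hb.1.2.1 (k hy))
    · exact hb.2 (hone a ha.1 b hb.1.1 k hb.1.2.1)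
  · obtain ⟨p, hp⟩ := hcirc.circle_sub (S := γ \ {{x}})
      (Set.sdiff_singleton_ssubset.2 hx0) Z2 θ (hθ.mono Set.sdiff_subset)
    have e : sdw x (v :: l ++ [x]) = {x, v} :: (({v} :: (sdw v l ++ [{w, x}])) ++ [{x}]) := by
      rw [List.cons_append, sdw, sdw_append_O7 hl]
      simp [sdw]
    have n1 : ∀ s ∈ sA G (A \ S), s ≠ {x} := fun s hs' e' =>
      (hs'.2.1 (e' ▸ Finset.mem_singleton_self x : x ∈ s)).2 hx
    have n2 : ∀ t ∈ Lk (sG V) γ {{x}}, t ∈ γ \ {{x}} := fun t ht =>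
      ⟨ht.1, fun e' => (ht.2 _ rfl).ne (Eq.symm e')⟩
    have w2 : Wk (sG V) (γ \ {{x}}) {v} (sdw v l) {w} := (sdw_wk hl).restrict
      ⟨(hm _).2 (by rw [e]; simp), n1 _ (sdw_wk hl).mem_left⟩
      fun s hs' => ⟨(hm _).2 (by rw [e]; simp [hs']), n1 _ ((sdw_wk hl).mem_list s hs')⟩
    rw [Finset.pair_comm w x] at e
    have w3 : Wk (sG V) (γ \ {{x}}) {x, v} ({v} :: (sdw v l ++ [{x, w}])) {x, w} :=
      Wk.cons (n2 _ m1) (adq_sG.2 (Or.inr (by simp)))
        (w2.append (Wk.single w2.mem_right (n2 _ m2) (adq_sG.2 (Or.inl (by simp)))))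
    rw [e, ev, ev_append w3, ev_of_pot hp w3, ev, ev, mul_one,
      hθ.symm hx0 m2.1 (Or.inr (m2.2 _ rfl))] at k
    refine ext_pot_H1 hθ hp (θ {x} {x, v} * p {x, v}) fun t ht e' => ?_
    have k1 : t ∈ Lk (sG V) γ {{x}} := mem_lk_H1.2 ⟨ht, e'⟩
    rw [hlk] at k1
    rcases k1 with rfl | rfl
    · rfl
    · rw [mul_assoc, ← mul_assoc, ← mul_inv_rev, mul_inv_eq_one] at k
      exact k.symm

end Pool.Agent.MP_6374aa_g

end

section

/-! Existence of the curve. -/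

namespace Pool.Agent.MP_6374aa_g

open Pool.Agent.MP_6374aa_gt Classical

variable {V V' V'' : Type} {G : SimpleGraph V} {G' : SimpleGraph V'} {G'' : SimpleGraph V''}
  {A : Set V} {A' : Set V'} {A'' : Set V''} {L : Type} [Group L]

/-- The label that decides the orientability of the tube around the curve. -/
theorem lab_O8 (h : Cl G 3 A) {S : Set V} (hS : S ⊆ A) (hs : Sph G 3 S) {σ : V → Set V}
    (hσ : Sided G 3 A S σ) {x v w : V} (hx : x ∈ S) (hv : v ∈ σ x)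
    (hw : w ∈ Lk G A {x} \ (S ∪ σ x)) : ∃ θ, OL G A θ ∧ ∀ l, Wk G (A \ S) v l w → (v :: l).Nodup →
      ∃ γ σ', Hd (sG V) (sA G A) (sA G S) γ {x} {x, v} {x, w} σ' ∧
        (Ori (sG _) (nb (sG V) (sA G A) γ) ↔ θ x v * ev θ v l * θ w x = 1) ∧
        (Pot G A θ → θ x v * ev θ v l * θ w x = 1) := by
  have : Nonempty V := ⟨x⟩
  have h1 := h.sd le_rfl
  have p1 : ∀ s ∈ sA G A, pk ∅ s ∈ s := fun s hs => pk_mem _ hs.1
  have p2 : ∀ s ∈ sA (sG V) (sA G A), pk ∅ s ∈ s := fun s hs => pk_mem _ hs.1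
  obtain ⟨w3, o3⟩ := exists_ol (h1.sd le_rfl).2.2
  obtain ⟨w2, k2, o2, g2⟩ := o3.desc p2
  obtain ⟨θ, k1, o1, g1⟩ := o2.desc p1
  refine ⟨θ, o1, fun l hl hn => ?_⟩
  obtain ⟨γ, σ', hd, hγ⟩ := hd_of_path h hS hs hσ hx hv hw hl hn
  have hl' := hl.mono Set.sdiff_subset
  have wk : Wk G A x (v :: l ++ [x]) x :=
    Wk.cons (hS hx) (Or.inr ((hσ.subset x hx hv).1.2 x rfl))
      (hl'.append (Wk.single hw.1.1 (hS hx) (Or.inr (hw.1.2 x rfl).symm)))
  have e : ev θ x (v :: l ++ [x]) = θ x v * ev θ v l * θ w x := by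
    change θ x v * ev θ v (l ++ [x]) = _
    rw [ev_append hl', mul_assoc]
    simp only [ev, mul_one]
  refine ⟨γ, σ', hd, ?_, fun hp => e ▸ hp.ev_loop wk⟩
  rw [o3.nb p2 o2.1 g2 (Mfa.mono h1.2.2 Set.inter_subset_left),
    Set.inter_eq_self_of_subset_right hd.subγ,
    hγ w2 fun a ha b hb c hc => o2.1 a (hd.subγ ha) b (hd.subγ hb) c (hd.subγ hc),
    ev_gau g1 (sdw_wk wk), ev_sdw o1.1 p1 wk, e, mul_inv_cancel_comm]

theorem gam_O8 (h : Cl G 3 A) {S : Set V} (hS : S ⊆ A) (hs : Sph G 3 S) (hp : Pre G (A \ S))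
    (hc : ∀ y, Pre G ((A \ S) \ {y})) {ε : Prop}
    (hε : (ε ↔ Ori G A) ∨ ∃ Y ⊆ A \ S, ∃ β, Mfa G 3 Y β Y ∧ ¬ Ori G Y) :
    ∃ γ x v w σ, Hd (sG V) (sA G A) (sA G S) γ x v w σ ∧
      (Ori (sG _) (nb (sG V) (sA G A) γ) ↔ ε) := by
  obtain ⟨σ, x, v, w, hσ, hx, hv, hw⟩ := exists_cross h hS hs
  obtain ⟨θ, o, k⟩ := lab_O8 h hS hs hσ hx hv hw
  have v1 : v ∈ A \ S := ⟨(hσ.subset x hx hv).1.1, (hσ.subset x hx hv).2⟩
  have w1 : w ∈ A \ S := ⟨hw.1.1, fun e => hw.2 (Or.inl e)⟩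
  by_cases hθ : Pot G (A \ S) θ
  · obtain ⟨l, hl, hn⟩ := (hp v v1 w w1).simple v1
    obtain ⟨γ, σ', hd, k1, k2⟩ := k l hl hn
    refine ⟨γ, _, _, _, σ', hd, k1.trans ?_⟩
    rcases hε with e | ⟨Y, hY, β, m, n⟩
    · rw [e, o.2 A subset_rfl _ h.2.2]
      exact ⟨pot_of_cross h hS hs hσ o.1 hθ hx hv hw hl, k2⟩
    · exact absurd ((o.2 Y (hY.trans Set.sdiff_subset) β m).2 (hθ.mono hY)) n
  · obtain ⟨l, hl, hn, e⟩ := two_paths (h.1.subset Set.sdiff_subset) hp hc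
      (fun a ha b hb c hc => o.1 a ha.1 b hb.1 c hc.1) hθ v1 w1
      (fun e => hw.2 (Or.inr (e ▸ hv))) ((θ x v)⁻¹ * (if ε then 1 else neg) * (θ w x)⁻¹)
    obtain ⟨γ, σ', hd, k1, -⟩ := k l hl hn
    refine ⟨γ, _, _, _, σ', hd, k1.trans ?_⟩
    rw [e, ← mul_assoc, inv_mul_cancel_right, mul_inv_cancel_left]
    split_ifs with c
    · exact iff_of_true rfl c
    · exact iff_of_false neg_ne_one c

theorem gam_main : GAM_st := by
  intro X hX S hS hs hc ε hε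
  have h := X.closed_iff.1 hX
  have e : sA X.G X.A \ sA X.G S = nb X.G X.A (X.A \ S) := Set.ext fun s =>
    and_congr_right fun k => by
      refine ⟨fun n => ?_, fun ⟨a, ha, hb⟩ n => hb.2 (n.2.1 ha)⟩
      obtain ⟨a, ha, hb⟩ := Set.not_subset.1 fun m => n ⟨k.1, m, k.2.2⟩
      exact ⟨a, ha, k.2.1 ha, hb⟩
  have hp : Pre (sG X.V) (nb X.G X.A (X.A \ S)) :=
    pre_nb.2 (by rw [Set.inter_eq_self_of_subset_right Set.sdiff_subset]; exact hc.2)
  obtain ⟨γ, x, v, w, σ, k⟩ := gam_O8 (h.sd le_rfl) (sA_mono hS) (hs.sd le_rfl) (e ▸ hp)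
    (ε := ε) (fun y => by
      rw [e]
      by_cases hy : y ∈ nb X.G X.A (X.A \ S)
      · exact rem_one_pre hp (Cell.con (Mf.nb_empty h.2.2 le_rfl y hy)).2
      · rwa [Set.sdiff_singleton_eq_self hy])
    (hε.imp (fun k => k.trans (ori_sA (Mfa.card_le h.2.2)).symm) fun ⟨Y, hY, β, m, n⟩ =>
      ⟨sA X.G Y, fun s hs => ⟨sA_mono (hY.trans Set.sdiff_subset) hs, fun k =>
        hs.1.elim fun a ha => (hY (hs.2.1 ha)).2 (k.2.1 ha)⟩, _, m.sd_full le_rfl,
        fun k => n ((ori_sA m.card_le).1 k)⟩)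
  exact ⟨2, _, γ, x, v, w, σ, k⟩

end Pool.Agent.MP_6374aa_g

end

section

/-! Prime manifolds with a non-separating sphere. -/

namespace Pool.Agent.MP_6374aa_g

open Pool.Agent.MP_6374aa_gt Classical

variable {V V' V'' : Type} {G : SimpleGraph V} {G' : SimpleGraph V'} {G'' : SimpleGraph V''}
  {A : Set V} {A' : Set V'} {A'' : Set V''} {L : Type} [Group L]

theorem ndc_of_bp (hR : RKI_st) (hf : A.Finite) {Y : Set (V → ℝ)} (h : BP 3 (Rz G A) Y) : NDC G A := by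
  have h1 : Sph (sG (Fin 4)) 3 {t | t.Nonempty ∧ t ⊂ Finset.univ} := by
    simpa using simplex_sph (s := (Finset.univ : Finset (Fin 4))) Finset.univ_nonempty (by simp)
  obtain ⟨c1, f, h2, -⟩ := h1.cone_bp le_rfl (c := Finset.univ) fun a ha => Or.inr ha.2
  obtain ⟨c2, g, h3, -⟩ := h
  obtain ⟨e1, -⟩ := h2.homeo c1
  obtain ⟨e2, -⟩ := h3.homeo c2
  refine rk_zero.1 (hR ⟨_, _, _⟩ ⟨V, G, A⟩ (Set.toFinite _) hf ⟨e1.trans e2.symm⟩ 0
    (rk_zero.2 (cone_sco (Set.mem_insert _ _) ?_).2.ndc))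
  exact fun x _ => adq_sG.2 (Or.inr (Finset.subset_univ x))

theorem Cx.Prime.homeo {P Q : Cx} (h : P.Prime) (e : Q.Homeo P) : Q.Prime := by
  exact fun R c e' => h R c (e'.trans e)

theorem prime_cap (hR : RKI_st) (hP : HDP_st) {X : Cx} (hp : X.Prime) {S γ : Set X.V}
    {x v w : X.V} {σ : X.V → Set X.V} (h : Hd X.G X.A S γ x v w σ) :
    (capC X.sd (nb X.G X.A (S ∪ γ)) (fr X.G X.A (S ∪ γ))).Homeo X := by
  obtain ⟨h1, h2⟩ := hP X S γ x v w σ h
  have hx : x ∈ S := (h.inter.ge rfl).2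
  have hf := sA_finite (G := X.G) h.cl.1
  have e := nb_inter_nb (G := X.G) (A := X.A) (S ∪ γ)
  have hs : X.sd.Homeo X := sdh_main X h.cl.1
  have hu : nb X.G X.A (S ∪ γ) ∪ nb X.G X.A (X.A \ (S ∪ γ)) = sA X.G X.A := by
    refine (Set.union_subset (fun _ k => k.1) fun _ k => k.1).antisymm fun s k => ?_
    obtain ⟨a, ha⟩ := k.1
    exact (Classical.em (a ∈ S ∪ γ)).imp (fun k' => ⟨k, a, ha, k'⟩)
      fun k' => ⟨k, a, ha, k.2.1 ha, k'⟩
  have hn : NE (sG X.V) (nb X.G X.A (S ∪ γ)) (nb X.G X.A (X.A \ (S ∪ γ))) := by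
    rintro a ⟨⟨a1, y, a2, a3⟩, a4⟩ b ⟨⟨b1, z, b2, b3⟩, b4⟩ (k | k)
    · exact b4 ⟨b1, y, k.1 a2, a3⟩
    · exact a4 ⟨a1, z, k.1 b2, b3⟩
  obtain ⟨s, s1, -, s2⟩ := Cell.nonempty h2
  obtain ⟨y, y1, y2⟩ := Set.not_subset.1 s2
  rcases hp X.sd (Cx.Closed.sd (closed_iff.2 h.cl)) hs _ _ _ ((sphere2_iff (Cell.finite h2)).2 h2)
    hu e
    (fun k => (k.subset ⟨singleton_mem_sA.2 (h.subS hx), x, Finset.mem_singleton_self x,
      Or.inl hx⟩).2.2 (by simp [hx]))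
    (fun k => by
      obtain ⟨z, z1, z2⟩ := (k.subset ⟨singleton_mem_sA.2 (s1.2.1 y1), y,
        Finset.mem_singleton_self y, s1.2.1 y1, y2⟩).2.1
      exact y2 (Finset.mem_singleton.1 z1 ▸ z2))
    (fun a ha b hb => hn a ⟨ha.1, fun k => ha.2 (e.subset ⟨ha.1, k⟩)⟩ b
      ⟨hb.1, fun k => hb.2 (e.subset ⟨k, hb.1⟩)⟩) with k | k
  · exact (h.not_ndc (ndc_of_bp hR (hf.subset fun _ k => k.1) (ball3_iff.1 k))).elim
  have e1 : Rz (sG X.V) (nb X.G X.A (X.A \ (S ∪ γ))) ∩ Rz (sG X.V) (nb X.G X.A (S ∪ γ)) =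
      Rz (sG X.V) (fr X.G X.A (S ∪ γ)) := by rw [rz_inter, Set.inter_comm, e]
  refine (cap_fill (P := X.sd) h1 (hf.subset fun _ k => k.1) (I := (Set.univ : Set Unit))
    (S := fun _ => fr X.G X.A (S ∪ γ))
    (B := fun _ => Rz (sG X.V) (nb X.G X.A (X.A \ (S ∪ γ))))
    (bcs_bij (fun _ _ => ⟨fun t k => ⟨⟨k.1, k.2.1⟩, k⟩, Cell.con h2⟩)
      (fun _ _ _ _ k => (k rfl).elim) fun a k => ⟨(), trivial, k.2⟩) (HM.id' _)
    (fun _ _ => ⟨(ball3_iff.1 k).congr ?_, e1.trans (Set.image_id _).symm⟩)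
    (fun _ _ _ _ k => (k rfl).elim) ?_).homeo.trans hs
  · exact (Set.inter_eq_right.2 (e1.ge.trans Set.inter_subset_left)).trans e1.symm
  · rw [Set.biUnion_univ, Set.iUnion_const]
    exact (rz_union hn).symm.trans (congrArg _ hu)

/-- A prime manifold with a non-separating sphere, punctured, embeds. -/
theorem exc_punct (hR : RKI_st) (hP : HDP_st) (hC : HDC_st) (hG : GAM_st) {N Q : Cx}
    (hN : N.Closed) (hQ : Q.Closed) (hp : Q.Prime) (hs : Q.NonSep) {S : Set N.V} (hS : S ⊆ N.A)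
    (h1 : Sph N.G 3 S) (h2 : Con N.G (N.A \ S))
    (h : (Q.Orient ↔ N.Orient) ∨ ∃ Y ⊆ N.A \ S, ∃ β, Mfa N.G 3 Y β Y ∧ ¬ Ori N.G Y) : PunctE N Q := by
  obtain ⟨S', a1, a2, a3⟩ := (nonSep_iff hQ.1).1 hs
  obtain ⟨k, _, _, _, _, _, _, b1, b2⟩ := hG N hN S hS h1 h2 Q.Orient h
  obtain ⟨j, _, _, _, _, _, _, c1, c2⟩ := hG Q hQ S' a1 a2 a3 Q.Orient (Or.inl Iff.rfl)
  have e := Cx.homeo_iter hQ.1 j
  exact PunctE.of_iter (k := k) ⟨1, punct_iff.2 ⟨_, _, (hP _ _ _ _ _ _ _ b1).1,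
    ((hC _ _ _ _ _ _ _ _ _ _ _ _ _ _ b1 c1 (b2.trans c2.symm)).trans
      (prime_cap hR hP (hp.homeo e) c1)).trans e⟩⟩

theorem exc_homeo (hR : RKI_st) (hP : HDP_st) (hC : HDC_st) (hG : GAM_st) {N Q : Cx}
    (hN : N.Closed) (hQ : Q.Closed) (pN : N.Prime) (pQ : Q.Prime) (sN : N.NonSep) (sQ : Q.NonSep)
    (h : Q.Orient ↔ N.Orient) : Q.Homeo N := by
  obtain ⟨S, d1, d2, d3⟩ := (nonSep_iff hN.1).1 sN
  obtain ⟨S', a1, a2, a3⟩ := (nonSep_iff hQ.1).1 sQ
  obtain ⟨k, _, _, _, _, _, _, b1, b2⟩ := hG N hN S d1 d2 d3 Q.Orient (Or.inl h)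
  obtain ⟨j, _, _, _, _, _, _, c1, c2⟩ := hG Q hQ S' a1 a2 a3 Q.Orient (Or.inl Iff.rfl)
  have e := Cx.homeo_iter hQ.1 j
  have e' := Cx.homeo_iter hN.1 k
  exact ((prime_cap hR hP (pQ.homeo e) c1).trans e).symm.trans
    ((hC _ _ _ _ _ _ _ _ _ _ _ _ _ _ c1 b1 (c2.trans b2.symm)).trans
      ((prime_cap hR hP (pN.homeo e') b1).trans e'))

end Pool.Agent.MP_6374aa_g

end

section

/-! The double and the missing summand. -/

namespace Pool.Agent.MP_6374aa_g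

open Pool.Agent.MP_6374aa_gt Classical

variable {V V' V'' : Type} {G : SimpleGraph V} {G' : SimpleGraph V'} {G'' : SimpleGraph V''}
  {A : Set V} {A' : Set V'} {A'' : Set V''} {L : Type} [Group L]

/-- Two copies of the complex that share the star of `v`. -/
def K_O11 (Γ : SimpleGraph V) (v : V) : SimpleGraph (V × Bool) where
  Adj p q := Γ.Adj p.1 q.1 ∧ (p.2 = q.2 ∨ Adq Γ v p.1 ∨ Adq Γ v q.1)
  symm := ⟨fun _ _ h => ⟨h.1.symm, h.2.elim (fun e => Or.inl e.symm) fun e => Or.inr e.symm⟩⟩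
  loopless := ⟨fun _ h => Γ.irrefl h.1⟩

theorem dbl_graft (Γ : SimpleGraph V) (v : V) :
    ∃ (K : SimpleGraph (V × Bool)) (A M B : Set (V × Bool)) (g : V → V × Bool),
      Graft K A M B (v, false) ∧ IsIso Γ Set.univ K A (fun u => (u, false)) ∧
      IsIso Γ Set.univ K M g ∧ IsIso (dblG Γ v) Set.univ K B Subtype.val := by
  have h0 : Adq Γ v v := adq_refl v
  have h1 : ∀ (X : Set (V × Bool)) p, p ∈ Lk (K_O11 Γ v) X {(v, false)} ↔ p ∈ X ∧ Γ.Adj v p.1 :=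
    fun X p => mem_lk_C5.trans (and_congr_right fun _ => and_iff_left (Or.inr (Or.inl h0)))
  refine ⟨K_O11 Γ v, {p | p.2 = false}, {p | p.2 = true ↔ ¬ Adq Γ v p.1},
    {p | p.1 ≠ v ∧ (p.2 = true → ¬ Γ.Adj v p.1)}, fun u => (u, decide (¬ Adq Γ v u)),
    ⟨rfl, by simp [h0], ?_, ?_, ?_, ?_⟩,
    ⟨⟨fun _ _ => rfl, fun _ _ _ _ e => congrArg Prod.fst e, ?_⟩,
      fun _ _ _ _ => (and_iff_left (Or.inl rfl)).symm⟩,
    ⟨⟨fun _ _ => by simp, fun _ _ _ _ e => congrArg Prod.fst e, ?_⟩,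
      fun a _ b _ => (and_iff_left ?_).symm⟩,
    ⟨⟨fun p _ => p.2, Subtype.val_injective.injOn, fun p hp => ⟨⟨p, hp⟩, trivial, rfl⟩⟩,
      fun p _ q _ => and_congr_right fun _ => or_congr_right (or_congr
        (or_iff_right p.2.1.symm).symm (or_iff_right q.2.1.symm).symm)⟩⟩
  · ext ⟨u, b⟩
    rw [h1, h1]
    refine and_congr_left fun k => ?_
    have : Adq Γ v u := Or.inr k
    simp [this]
  · ext ⟨u, b⟩
    rw [Set.mem_insert_iff, h1]
    have := @eq_comm _ u v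
    cases b <;> simp [Adq, this]
    exact or_iff_not_imp_left.symm
  · rintro ⟨u, b⟩ ⟨a1, a2⟩ ⟨w, c⟩ ⟨b1, b2⟩ ⟨-, k⟩
    cases b <;> cases c <;> simp_all
  · ext ⟨u, b⟩
    have := @eq_comm _ u v
    cases b <;> simp [Adq, this]
  · rintro ⟨u, b⟩ (rfl : b = false)
    exact ⟨u, trivial, rfl⟩
  · rintro ⟨u, b⟩ (k : b = true ↔ ¬ Adq Γ v u)
    exact ⟨u, trivial, Prod.ext rfl (by simp [← k])⟩
  · by_cases k1 : Adq Γ v a <;> by_cases k2 : Adq Γ v b <;> simp [k1, k2]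

theorem lift_O11 {Γ : SimpleGraph V} {v : V} {a c : DV Γ v} (h : Adq Γ a.1.1 c.1.1)
    (k : a.1.2 = c.1.2 ∨ Γ.Adj v a.1.1 ∨ Γ.Adj v c.1.1) : Adq (dblG Γ v) a c := by
  refine h.imp (fun e => Subtype.ext (Prod.ext e (k.elim id fun k' => ?_))) fun e => ⟨e, k⟩
  have k1 : Γ.Adj v c.1.1 := k'.elim (fun c => e ▸ c) id
  rw [Bool.eq_false_iff.2 fun c => a.2.2 c (e ▸ k1), Bool.eq_false_iff.2 fun d => c.2.2 d k1]

theorem half_O11 {Γ : SimpleGraph V} (h : NoSquare Γ) {v : V} {a b c d : DV Γ v}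
    (h1 : (dblG Γ v).Adj a b) (h2 : (dblG Γ v).Adj b c) (h3 : (dblG Γ v).Adj c d)
    (h4 : (dblG Γ v).Adj d a) (e : Adq Γ a.1.1 c.1.1) :
    Adq (dblG Γ v) a c ∨ Adq (dblG Γ v) b d := by
  by_cases k : a.1.2 = c.1.2 ∨ Γ.Adj v a.1.1 ∨ Γ.Adj v c.1.1
  · exact Or.inl (lift_O11 e k)
  obtain ⟨k1, k2, k3⟩ : _ ∧ _ ∧ _ := by simpa only [not_or] using k
  have key : ∀ x : DV Γ v, (dblG Γ v).Adj a x → (dblG Γ v).Adj x c → Γ.Adj v x.1.1 :=
    fun x e1 e2 => by_contra fun n => k1 ((e1.2.resolve_right fun c => c.elim k2 n).trans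
      (e2.2.resolve_right fun c => c.elim n k3))
  have k4 := key b h1 h2
  have k5 := key d h4.symm h3.symm
  refine Or.inr (lift_O11 ((h v _ _ _ k4 h1.1.symm h4.1.symm k5.symm).resolve_left ?_)
    (Or.inr (Or.inl k4)))
  exact fun c => c.elim a.2.1.symm k2

theorem dbl_noSquare {Γ : SimpleGraph V} (h : NoSquare Γ) (v : V) : NoSquare (dblG Γ v) := by
  intro a b c d h1 h2 h3 h4
  rcases h _ _ _ _ h1.1 h2.1 h3.1 h4.1 with e | e
  · exact half_O11 h h1 h2 h3 h4 e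
  · exact (half_O11 h h2 h3 h4 h1 e).symm.imp_left adq_symm

theorem dbl_cl {Γ : SimpleGraph V} (h : Cl Γ 3 Set.univ) (v : V) : Cl (dblG Γ v) 3 Set.univ := by
  obtain ⟨K, A, M, B, g, h0, h1, h2, h3⟩ := dbl_graft Γ v
  exact (IsIso.cl h3).2 (Graft.cl h0 ((IsIso.cl h1).1 h) ((IsIso.cl h2).1 h))

theorem con_O11 {M B S : Set V} {v : V} (h : Graft G A M B v) (hM : Cl G 3 M) (hS : S ⊆ A)
    (hc : Con G (A \ S)) (hf : Far G {v} S) : S ⊆ B ∧ M \ {v} ⊆ B \ S ∧ Con G (B \ S) := by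
  have h1 : M \ {v} ⊆ B \ S := fun x hx => ⟨h.mem_GrB3.2 ⟨Or.inr hx.1, hx.2⟩, fun k => by
    have : x ∈ insert v (Lk G A {v}) := h.inter ▸ ⟨hS k, hx.1⟩
    exact hf v rfl x k (this.imp Eq.symm fun c => c.2 v rfl)⟩
  have h2 : Sph G 3 (Lk G M {v}) := hM.2.2.sph_lk h.memM (Set.notMem_empty v)
  have h3 : Lk G (A \ S) {v} = Lk G M {v} := by
    rw [← h.lk]
    exact Set.ext fun x => ⟨fun k => ⟨k.1.1, k.2⟩,
      fun k => ⟨⟨k.1, fun c => hf v rfl x c (Or.inr (k.2 v rfl))⟩, k.2⟩⟩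
  have h4 : B \ S = ((A \ S) \ {v}) ∪ (M \ {v}) := by
    refine Set.Subset.antisymm (fun x hx => ?_) (Set.union_subset (fun x hx => ?_) h1)
    · obtain ⟨k1, k2⟩ := h.mem_GrB3.1 hx.1
      exact k1.imp (fun c => ⟨⟨c, hx.2⟩, k2⟩) fun c => ⟨c, k2⟩
    · exact ⟨h.mem_GrB3.2 ⟨Or.inl hx.1.1, hx.2⟩, hx.1.2⟩
  refine ⟨fun x hx => h.mem_GrB3.2 ⟨Or.inl (hS hx), fun e => hf v rfl x hx (Or.inl e.symm)⟩, h1, ?_⟩
  obtain ⟨x, hx⟩ := Cell.nonempty h2
  rw [h4]
  exact con_union_C5 (rem_one_pre hc.2 (h3 ▸ (Cell.con h2).2)) (rem_one_pre hM.2.1.2 (Cell.con h2).2)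
    ⟨x, ⟨(h3.superset hx).1, (hx.2 v rfl).ne'⟩, hx.1, (hx.2 v rfl).ne'⟩

theorem dbl_sphere {Γ : SimpleGraph V} (h : Cl Γ 3 Set.univ) (ho : ¬ Ori Γ Set.univ) {S : Set V}
    {v : V} (hs : Sph Γ 3 S) (hc : Con Γ (Set.univ \ S)) (hf : Far Γ {v} S) :
    ∃ S', Sph (dblG Γ v) 3 S' ∧ Con (dblG Γ v) (Set.univ \ S') ∧
      ∃ Y ⊆ Set.univ \ S', ∃ β, Mfa (dblG Γ v) 3 Y β Y ∧ ¬ Ori (dblG Γ v) Y := by
  obtain ⟨K, A, M, B, g, h0, h1, h2, h3⟩ := dbl_graft Γ v
  obtain ⟨S0, hS⟩ : ∃ S0 : Set (V × Bool), S0 = (fun u => (u, false)) '' S := ⟨_, rfl⟩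
  have e0 : (fun u => (u, false)) ⁻¹' S0 = S := by
    rw [hS]
    exact Set.preimage_image_eq _ fun _ _ e => congrArg Prod.fst e
  have hM := (IsIso.cl h2).1 h
  obtain ⟨k1, k2, k3⟩ := con_O11 (S := S0) h0 hM
    (hS ▸ (Set.image_mono (Set.subset_univ S)).trans h1.1.mapsTo.image_subset)
    ((IsIso.con (IsIso.restrict' h1 S0ᶜ)).1 (by rw [Set.preimage_compl, e0]; exact hc)) (by
      rintro _ rfl _ hb k
      obtain ⟨b, hb', rfl⟩ := hS.subset hb
      exact hf v rfl b hb' ((IsIso.adq h1 trivial trivial).2 k))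
  have k4 := IsIso.restrict' h3 (M \ {(v, false)})
  rw [Set.inter_eq_right.2 (k2.trans Set.sdiff_subset)] at k4
  have k5 := IsIso.restrict' h3 S0
  rw [Set.inter_eq_right.2 k1] at k5
  refine ⟨_, (IsIso.sph k5).2 (hS ▸ (IsIso.sph (IsIso.restrict h1 (Set.subset_univ S))).1 hs), ?_,
    _, fun p hp => ⟨trivial, fun c => (k2 hp.2).2 c.2⟩, _,
    (IsIso.mf k4 (T' := Subtype.val ⁻¹' Lk K M {(v, false)}) fun _ _ => Iff.rfl).2
      (Mf.rem hM.2.2 le_rfl _ h0.memM),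
    fun c => ho ((IsIso.ori h2).2 (hM.ori_rem h0.memM ((IsIso.ori k4).1 c)))⟩
  rw [Set.univ_inter]
  exact (IsIso.con (IsIso.restrict' h3 S0ᶜ)).2 k3

theorem rk_iter_O11 {N : Cx} {n : ℕ} (h : Rk N.G N.A n) (j : ℕ) :
    Rk (Cx.sd^[j] N).G (Cx.sd^[j] N).A n := by
  induction j generalizing N with
  | zero => exact h
  | succ j ih => exact ih (N := N.sd) (rk_sA.2 h)

theorem graft_O11 {R B : Set V} {v : V} (h : Graft G A R B v) (hA : Cl G 3 A) (hR : Cl G 3 R)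
    (h1 : Rk G B 1) (h2 : ¬ Ori G B) (h3 : Ori G A) : NDC G A := by
  intro θ hθ
  have k1 : Sph G 3 (Lk G A {v}) := hA.2.2.sph_lk h.memA (Set.notMem_empty v)
  have k2 : Cov2 G B (A \ {v}) (R \ {v}) := by
    rw [h.eq, Set.union_sdiff_distrib]
    exact (graft_ne_C5 h).cov2
  obtain ⟨lab, l1, l2, -⟩ := glue_ext k2 (hθ.mono Set.sdiff_subset)
    ((Cell.ndc k1 θ (hθ.mono (lk_subset _))).mono fun x hx => (graft_mem_C5 h hx.1).2 hx.2)
  obtain ⟨w, w1, w2⟩ := exists_ol (Graft.cl h hA hR).2.2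
  have k3 : Pot G (A \ {v}) w :=
    (w2 _ k2.1 _ (Mf.rem hA.2.2 le_rfl v h.memA)).1 (h3.mono Set.sdiff_subset)
  refine ((rem_one (Cell.con k1) (Cell.sco k1)).pot hθ).1 (Pot.congr (l1 := lab) ?_
    fun u hu x hx e => (l2 u hu x hx e).symm)
  obtain ⟨S, s1, s2⟩ := h1 ![lab, w] (by intro i; fin_cases i; exacts [l1, w1])
  obtain rfl | rfl | rfl : S = {0} ∨ S = {1} ∨ S = {0, 1} := by
    clear s2
    revert S
    decide
  · exact (s2.mono k2.1).congr fun _ _ _ _ _ => by simp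
  · exact absurd ((w2 _ subset_rfl _ (Graft.cl h hA hR).2.2).2
      (s2.congr fun _ _ _ _ _ => by simp)) h2
  · exact ((s2.mono k2.1).mul k3).congr fun _ _ _ _ _ => by simp [mul_assoc, z2_mul_self]

theorem not_summand (hR : RKI_st) (hO : ORI_st) {N P : Cx} (hN : N.Closed) (hP : P.Closed)
    (h1 : Rk N.G N.A 1) (h2 : ¬ N.Orient) (h3 : P.Orient) (h4 : ¬ NDC P.G P.A) : ¬ Summand P N := by
  rintro ⟨j, U, K, A, R, B, v, f, cA, cR, hG, e, hf⟩
  have hf' : IsIso K B (Cx.sd^[j] N).G (Cx.sd^[j] N).A f := hf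
  refine h4 (rk_zero.1 (hR ⟨U, K, A⟩ P cA.1 hP.1 e 0 (rk_zero.2 (graft_O11 hG (closed_iff.1 cA)
    (closed_iff.1 cR) ((IsIso.pe hf').rk.2 (rk_iter_O11 h1 j)) (fun c => h2 ?_)
    (hO P ⟨U, K, A⟩ hP cA e.symm h3)))))
  exact (hN.orient_iter j).1 ((IsIso.ori hf').1 c)

end Pool.Agent.MP_6374aa_g

end

section

/-!
Circle valued maps on a realisation and integral labels.
-/

namespace Pool.Agent.MP_6374aa_g.BQ

open Pool.Agent.MP_6374aa_gt Classical

noncomputable section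

section lift

variable {E : Type} [AddCommGroup E] [Module ℝ E] [TopologicalSpace E] [IsTopologicalAddGroup E]
  [ContinuousSMul ℝ E]

theorem star_lift {X : Set E} {p : E} (hp : p ∈ X) (hs : StarConvex ℝ p X) {c : E → Circle}
    (hc : ContinuousOn c X) :
    ∃ τ : E → ℝ, ContinuousOn τ X ∧ ∀ x ∈ X, Circle.exp (τ x) = c x := by
  have hm : ∀ z : unitInterval × X, (1 - (z.1 : ℝ)) • p + (z.1 : ℝ) • (z.2 : E) ∈ X := fun z =>
    hs z.2.2 (sub_nonneg.2 z.1.2.2) z.1.2.1 (by ring)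
  have hcont : Continuous fun z : unitInterval × X =>
      (1 - (z.1 : ℝ)) • p + (z.1 : ℝ) • (z.2 : E) := by fun_prop
  let H : C(unitInterval × X, Circle) :=
    ⟨fun z => c ((1 - (z.1 : ℝ)) • p + (z.1 : ℝ) • (z.2 : E)), hc.comp_continuous hcont hm⟩
  let f : C(X, ℝ) := ContinuousMap.const _ (c p : ℂ).arg
  have h0 : ∀ a, H (0, a) = Circle.exp (f a) := fun a => by
    simp [H, f, Circle.exp_arg]
  let K := Circle.isCoveringMap_exp.liftHomotopy H f h0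
  have hK := Circle.isCoveringMap_exp.liftHomotopy_lifts H f h0
  refine ⟨fun x => if h : x ∈ X then K (1, ⟨x, h⟩) else 0, ?_, fun x hx => ?_⟩
  · rw [continuousOn_iff_continuous_domRestrict]
    have : (X.domRestrict fun x => if h : x ∈ X then K (1, ⟨x, h⟩) else 0) =
        fun a => K (1, a) := funext fun a => dif_pos a.2
    rw [this]
    fun_prop
  · have := congrFun hK (1, ⟨x, hx⟩)
    simp only [dif_pos hx]
    refine this.trans ?_
    simp [H]

theorem star_unique {X : Set E} {p : E} (hp : p ∈ X) (hs : StarConvex ℝ p X) {τ τ' : E → ℝ}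
    (h : ContinuousOn τ X) (h' : ContinuousOn τ' X)
    (he : ∀ x ∈ X, Circle.exp (τ x) = Circle.exp (τ' x)) {x : E} (hx : x ∈ X) :
    τ x - τ' x = τ p - τ' p := by
  have hX : IsPreconnected X := (hs.isPathConnected hp).isConnected.isPreconnected
  exact Circle.isCoveringMap_exp.constOn_of_comp hX (h.sub h') (fun a ha b hb => by
    simp only [Pi.sub_apply, Circle.exp_sub, he a ha, he b hb, div_self']) hx hp

end lift

variable {V : Type} {G : SimpleGraph V} {A : Set V}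

theorem rz_star {X : Set V} {u : V} (hu : u ∈ X) (h : ∀ z ∈ X, Adq G u z) :
    StarConvex ℝ (Pi.single u (1 : ℝ)) (Rz G X) := by
  intro x hx a b ha hb hab
  have key : ∀ v, (a • Pi.single u (1 : ℝ) + b • x : V → ℝ) v ≠ 0 → v = u ∨ x v ≠ 0 := by
    intro v hv
    by_contra k
    push Not at k
    simp [k.2, Pi.single_eq_of_ne k.1] at hv
  refine ⟨fun v => ?_, fun v hv => ?_, fun v w hv hw => ?_, ?_⟩
  · have := hx.1 v
    have h1 : (0 : ℝ) ≤ (Pi.single u (1 : ℝ) : V → ℝ) v := (single_Rz (G := G) hu).1 v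
    simp only [Pi.add_apply, Pi.smul_apply, smul_eq_mul]
    positivity
  · exact (key v hv).elim (fun e => e ▸ hu) (hx.2.1 v)
  · rcases key v hv with rfl | k <;> rcases key w hw with rfl | k'
    · exact adq_refl _
    · exact h _ (hx.2.1 _ k')
    · exact adq_symm (h _ (hx.2.1 _ k))
    · exact hx.2.2.1 _ _ k k'
  · rw [sum_Rz u a b (fin_Rz hx), hx.2.2.2, mul_one, hab]

theorem circ_lab {c : (V → ℝ) → Circle} (hc : ContinuousOn c (Rz G A)) :
    ∃ lam : V → V → ZM, Flat G A lam ∧ ∀ D ⊆ A, Pot G D lam →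
      ∃ τ : (V → ℝ) → ℝ, ContinuousOn τ (Rz G D) ∧ ∀ x ∈ Rz G D, Circle.exp (τ x) = c x := by
  let St : V → Set V := fun u => {z | z ∈ A ∧ Adq G u z}
  have h1 : ∀ u, ∃ τ : (V → ℝ) → ℝ, u ∈ A → ContinuousOn τ (Rz G (St u)) ∧
      ∀ x ∈ Rz G (St u), Circle.exp (τ x) = c x := fun u => by
    by_cases hu : u ∈ A
    · obtain ⟨τ, h⟩ := star_lift (single_Rz (G := G) (A := St u) ⟨hu, adq_refl u⟩)
        (rz_star ⟨hu, adq_refl u⟩ fun z hz => hz.2) (hc.mono (rz_mono fun z hz => hz.1))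
      exact ⟨τ, fun _ => h⟩
    · exact ⟨0, fun k => absurd k hu⟩
  choose t ht using h1
  have h2 : ∀ u w, ∃ n : ℤ, u ∈ A → w ∈ A → Adq G u w →
      ∀ x ∈ Rz G (St u ∩ St w), t u x - t w x = n * (2 * Real.pi) := fun u w => by
    by_cases k : u ∈ A ∧ w ∈ A ∧ Adq G u w
    · obtain ⟨hu, hw, huw⟩ := k
      have hm : u ∈ St u ∩ St w := ⟨⟨hu, adq_refl u⟩, hu, adq_symm huw⟩
      have m1 : Rz G (St u ∩ St w) ⊆ Rz G (St u) := rz_mono Set.inter_subset_left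
      have m2 : Rz G (St u ∩ St w) ⊆ Rz G (St w) := rz_mono Set.inter_subset_right
      have he : ∀ x ∈ Rz G (St u ∩ St w), Circle.exp (t u x) = Circle.exp (t w x) := fun x hx =>
        ((ht u hu).2 x (m1 hx)).trans ((ht w hw).2 x (m2 hx)).symm
      obtain ⟨n, hn⟩ := Circle.exp_eq_exp.1 (he _ (single_Rz hm))
      refine ⟨n, fun _ _ _ x hx => ?_⟩
      rw [star_unique (single_Rz hm) (rz_star hm fun z hz => hz.1.2) ((ht u hu).1.mono m1)
        ((ht w hw).1.mono m2) he hx, hn]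
      ring
    · exact ⟨0, fun a b d => absurd ⟨a, b, d⟩ k⟩
  choose n hn using h2
  have hpi : (2 * Real.pi) ≠ 0 := by positivity
  refine ⟨fun u w => Multiplicative.ofAdd (n u w), fun u hu v hv w hw a b d => ?_,
    fun D hD ⟨p, hp⟩ => ?_⟩
  · have m1 : u ∈ St u := ⟨hu, adq_refl u⟩
    have m2 : u ∈ St v := ⟨hu, adq_symm a⟩
    have m3 : u ∈ St w := ⟨hu, adq_symm d⟩
    have e1 := hn u v hu hv a _ (single_Rz ⟨m1, m2⟩)
    have e2 := hn v w hv hw b _ (single_Rz ⟨m2, m3⟩)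
    have e3 := hn u w hu hw d _ (single_Rz ⟨m1, m3⟩)
    rw [← ofAdd_add]
    congr 1
    have : ((n u v + n v w : ℤ) : ℝ) = n u w := by
      apply mul_right_cancel₀ hpi
      push_cast
      linarith
    exact_mod_cast this
  · have hst : ∀ x ∈ Rz G D, ∀ u, x u ≠ 0 → x ∈ Rz G (St u) := fun x hx u hu =>
      rz_of_supp hx fun v hv => ⟨hD (hx.2.1 v hv), hx.2.2.1 u v hu hv⟩
    have h3 : ∀ x : V → ℝ, ∃ r : ℝ, x ∈ Rz G D → ∀ u, x u ≠ 0 →
        r = t u x - ((p u).toAdd : ℤ) * (2 * Real.pi) := fun x => by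
      by_cases hx : x ∈ Rz G D
      · obtain ⟨w, hw⟩ := ne_Rz hx
        refine ⟨t w x - ((p w).toAdd : ℤ) * (2 * Real.pi), fun _ u hu => ?_⟩
        have a := hx.2.2.1 u w hu hw
        have e1 := hn u w (hD (hx.2.1 u hu)) (hD (hx.2.1 w hw)) a x
          (rz_inter (G := G) _ _ ▸ ⟨hst x hx u hu, hst x hx w hw⟩)
        have e2 : n u w = (p u).toAdd - (p w).toAdd := by
          have := congrArg Multiplicative.toAdd (hp u (hx.2.1 u hu) w (hx.2.1 w hw) a)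
          simpa [sub_eq_add_neg] using this
        rw [e2] at e1
        push_cast at e1
        linarith
      · exact ⟨0, fun k => absurd k hx⟩
    choose τ hτ using h3
    refine ⟨τ, fun x hx => ?_, fun x hx => ?_⟩
    · obtain ⟨u, hu⟩ := ne_Rz hx
      have ho : IsOpen {y : V → ℝ | y u ≠ 0} := isOpen_ne_fun (continuous_apply u) continuous_const
      rw [← continuousWithinAt_inter (ho.mem_nhds hu)]
      have hc1 : ContinuousOn (fun y => t u y - ((p u).toAdd : ℤ) * (2 * Real.pi))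
          (Rz G D ∩ {y | y u ≠ 0}) :=
        ((ht u (hD (hx.2.1 u hu))).1.mono fun y hy => hst y hy.1 u hy.2).sub continuousOn_const
      exact (hc1.congr fun y hy => hτ y hy.1 u hy.2) x ⟨hx, hu⟩
    · obtain ⟨u, hu⟩ := ne_Rz hx
      rw [← (ht u (hD (hx.2.1 u hu))).2 x (hst x hx u hu), hτ x hx u hu]
      exact Circle.exp_eq_exp.2 ⟨-(p u).toAdd, by push_cast; ring⟩

theorem int_pot {D : Set V} (hn : NDC G D) {lam : V → V → ZM} (hl : Flat G D lam) :
    Pot G D lam := by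
  have step : ∀ lam : V → V → ZM, Flat G D lam → ∃ mu : V → V → ZM, Flat G D mu ∧
      ∀ a l, Wk G D a l a → (ev lam a l).toAdd = 2 * (ev mu a l).toAdd := by
    intro lam hl
    let T : ZM →* Z2 := AddMonoidHom.toMultiplicative (Int.castAddHom (ZMod 2))
    have hT : ∀ z, (T z).toAdd = ((z.toAdd : ℤ) : ZMod 2) := fun z => rfl
    have hf : Flat G D fun u w => T (lam u w) := fun u hu v hv w hw a b d => by
      rw [← map_mul, hl u hu v hv w hw a b d]
    obtain ⟨p, hp⟩ := hn _ hf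
    let q : V → ℤ := fun u => ((p u).toAdd).cast
    have hq : ∀ u, ((q u : ℤ) : ZMod 2) = (p u).toAdd := fun u => by
      simp [q]
    have hd : ∀ u ∈ D, ∀ w ∈ D, Adq G u w → (2 : ℤ) ∣ (lam u w).toAdd - q u + q w := by
      intro u hu w hw a
      have := congrArg Multiplicative.toAdd (hp u hu w hw a)
      rw [hT] at this
      have h2 := (ZMod.intCast_zmod_eq_zero_iff_dvd ((lam u w).toAdd - q u + q w) 2).1 (by
        push_cast
        rw [this, hq, hq, toAdd_mul, toAdd_inv]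
        ring)
      exact_mod_cast h2
    let mu : V → V → ZM := fun u w => Multiplicative.ofAdd (((lam u w).toAdd - q u + q w) / 2)
    have hmu : ∀ u ∈ D, ∀ w ∈ D, Adq G u w →
        2 * (mu u w).toAdd = (lam u w).toAdd - q u + q w := fun u hu w hw a =>
      Int.mul_ediv_cancel' (hd u hu w hw a)
    refine ⟨mu, fun u hu v hv w hw a b d => ?_, fun a l hw => ?_⟩
    · apply Multiplicative.toAdd.injective
      have e := congrArg Multiplicative.toAdd (hl u hu v hv w hw a b d)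
      have e1 := hmu u hu v hv a
      have e2 := hmu v hv w hw b
      have e3 := hmu u hu w hw d
      rw [toAdd_mul] at e ⊢
      omega
    · have : ∀ a b l, Wk G D a l b →
          (ev lam a l).toAdd - q a + q b = 2 * (ev mu a l).toAdd := by
        intro a b l hw
        induction hw with
        | nil _ => simp [ev]
        | cons ha hab hw ih =>
          have := hmu _ ha _ hw.mem_left hab
          simp only [ev, toAdd_mul]
          omega
      have := this a a l hw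
      omega
  have all : ∀ j : ℕ, ∀ lam : V → V → ZM, Flat G D lam → ∀ a l, Wk G D a l a →
      (2 : ℤ) ^ j ∣ (ev lam a l).toAdd := by
    intro j
    induction j with
    | zero => intro _ _ _ _ _; simp
    | succ j ih =>
      intro lam hl a l hw
      obtain ⟨mu, h1, h2⟩ := step lam hl
      rw [h2 a l hw, pow_succ']
      exact mul_dvd_mul_left 2 (ih mu h1 a l hw)
  refine pot_of_loops hl fun a l hw => ?_
  apply Multiplicative.toAdd.injective
  rw [toAdd_one]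
  refine Int.eq_zero_of_dvd_of_natAbs_lt_natAbs (all (ev lam a l).toAdd.natAbs lam hl a l hw) ?_
  rw [Int.natAbs_pow]
  exact Nat.lt_two_pow_self

theorem ndc_side {D E : Set V} (hr : Rk G A 1) (hc : Cov2 G A D E) (hn : NDC G (D ∩ E)) :
    NDC G D ∨ NDC G E := by
  by_contra k
  push Not at k
  obtain ⟨k1, k2⟩ := k
  simp only [NDC, Triv, not_forall] at k1 k2
  obtain ⟨l1, f1, n1⟩ := k1
  obtain ⟨l2, f2, n2⟩ := k2
  have hc' : Cov2 G A E D := ⟨hc.2.1, hc.1, fun u hu v hv w hw a b d =>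
    (hc.2.2 u hu v hv w hw a b d).symm⟩
  obtain ⟨m1, g1, e1, p1⟩ := glue_ext hc f1 (hn _ fun u hu v hv w hw => f1 u hu.1 v hv.1 w hw.1)
  obtain ⟨m2, g2, e2, p2⟩ := glue_ext hc' f2
    (Set.inter_comm D E ▸ hn _ fun u hu v hv w hw => f2 u hu.2 v hv.2 w hw.2)
  obtain ⟨S, hS, hp⟩ := hr ![m1, m2] fun i => by fin_cases i <;> assumption
  have q1 : ¬ Pot G D m1 := fun h => n1 (h.congr fun u hu w hw a => (e1 u hu w hw a).symm)
  have q2 : ¬ Pot G E m2 := fun h => n2 (h.congr fun u hu w hw a => (e2 u hu w hw a).symm)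
  have hcase : ∀ S : Finset (Fin 2), S.Nonempty → S = {0} ∨ S = {1} ∨ S = {0, 1} := by decide
  rcases hcase S hS with rfl | rfl | rfl
  · exact q1 ((hp.mono hc.1).congr fun u _ w _ _ => by simp)
  · exact q2 ((hp.mono hc.2.1).congr fun u _ w _ _ => by simp)
  · exact q1 (((hp.mono hc.1).mul p2).congr fun u _ w _ _ => by
      simp [mul_assoc, z2_mul_self])

end

end Pool.Agent.MP_6374aa_g.BQ

end

section

/-!
Parts of the product of a sphere and a circle: embedding in space, and doubles of shells.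
-/

namespace Pool.Agent.MP_6374aa_g.BQ

open Classical

noncomputable section

variable {E : Type} [TopologicalSpace E] [T2Space E]

theorem emb [Nonempty E] {D F : Set E} (hD : IsCompact D) (hF : IsCompact F)
    {f : E → Eu 3 × Circle}
    (hf : HM (D ∪ F) (Metric.sphere (0 : Eu 3) 1 ×ˢ (Set.univ : Set Circle)) f) {τ : E → ℝ}
    (hτ : ContinuousOn τ D) (he : ∀ x ∈ D, Circle.exp (τ x) = (f x).2) :
    ∃ ι : E → Eu 3, HM D (ι '' D) ι ∧ IsOpen (ι '' (D \ F)) := by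
  obtain ⟨g, hg, gf, fg⟩ := hf.symm' (hD.union hF)
  have n1 : ∀ x ∈ D, ‖(f x).1‖ = 1 := fun x hx => by
    simpa using (hf.2.1 (Or.inl hx)).1
  let ι : E → Eu 3 := fun x => Real.exp (τ x) • (f x).1
  have n2 : ∀ x ∈ D, ‖ι x‖ = Real.exp (τ x) := fun x hx => by
    simp only [ι, norm_smul, n1 x hx, mul_one, Real.norm_eq_abs, abs_of_pos (Real.exp_pos _)]
  let π : Eu 3 → Eu 3 × Circle := fun y => (‖y‖⁻¹ • y, Circle.exp (Real.log ‖y‖))
  have hπι : ∀ x ∈ D, π (ι x) = f x := fun x hx => by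
    refine Prod.ext ?_ ?_
    · simp only [π, n2 x hx]
      simp only [ι, smul_smul, inv_mul_cancel₀ (Real.exp_pos _).ne', one_smul]
    · simp only [π, n2 x hx, Real.log_exp, he x hx]
  have hlog : ContinuousOn (fun y : Eu 3 => Real.log ‖y‖) {0}ᶜ :=
    continuous_norm.continuousOn.log fun y hy => norm_ne_zero_iff.2 hy
  have hπc : ContinuousOn π {0}ᶜ :=
    ((continuous_norm.continuousOn.inv₀ fun y hy => norm_ne_zero_iff.2 hy).smul
      continuousOn_id).prodMk (Circle.exp.continuous.comp_continuousOn hlog)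
  have hπm : Set.MapsTo π {0}ᶜ (Metric.sphere (0 : Eu 3) 1 ×ˢ (Set.univ : Set Circle)) :=
    fun y hy => ⟨by
      simp only [π, mem_sphere_zero_iff_norm, norm_smul, norm_inv, norm_norm]
      exact inv_mul_cancel₀ (norm_ne_zero_iff.2 hy), trivial⟩
  have hh : ContinuousOn (g ∘ π) {0}ᶜ := hg.1.comp hπc hπm
  let U : Set (Eu 3) := {0}ᶜ ∩ (g ∘ π) ⁻¹' Fᶜ
  have hU : IsOpen U := hh.isOpen_inter_preimage isOpen_compl_singleton hF.isClosed.isOpen_compl
  have hUD : ∀ y ∈ U, g (π y) ∈ D := fun y hy => (hg.2.1 (hπm hy.1)).resolve_right hy.2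
  have hd : ContinuousOn (fun y => τ (g (π y)) - Real.log ‖y‖) U :=
    (hτ.comp (hh.mono Set.inter_subset_left) hUD).sub (hlog.mono Set.inter_subset_left)
  have hpi : 0 < 2 * Real.pi := by positivity
  refine ⟨ι, ⟨(Real.continuous_exp.comp_continuousOn hτ).smul
    (continuous_fst.comp_continuousOn (hf.1.mono Set.subset_union_left)),
    Set.InjOn.bijOn_image fun x hx y hy e => hf.2.2.1 (Or.inl hx) (Or.inl hy) ?_⟩, ?_⟩
  · rw [← hπι x hx, ← hπι y hy, e]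
  · have : ι '' (D \ F) = U ∩ (fun y => τ (g (π y)) - Real.log ‖y‖) ⁻¹'
        Set.Ioo (-(2 * Real.pi)) (2 * Real.pi) := by
      ext y
      constructor
      · rintro ⟨x, hx, rfl⟩
        have e : g (π (ι x)) = x := by rw [hπι x hx.1, gf x (Or.inl hx.1)]
        refine ⟨⟨fun k => ?_, ?_⟩, ?_⟩
        · have := n2 x hx.1
          rw [Set.mem_singleton_iff.1 k, norm_zero] at this
          exact (Real.exp_pos _).ne this
        · simpa [e] using hx.2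
        · simp only [Set.mem_preimage, e, n2 x hx.1, Real.log_exp, sub_self]
          exact ⟨by linarith, hpi⟩
      · rintro ⟨hy, h1, h2⟩
        have e := fg _ (hπm hy.1)
        have e2 := he _ (hUD y hy)
        rw [e] at e2
        obtain ⟨m, hm⟩ := Circle.exp_eq_exp.1 e2
        simp only [hm, add_sub_cancel_left] at h1 h2
        have m1 : (-1 : ℝ) < m := by
          by_contra k
          nlinarith
        have m2 : (m : ℝ) < 1 := by
          by_contra k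
          nlinarith
        have m0 : m = 0 := by
          have a : (-1 : ℤ) < m := by exact_mod_cast m1
          have b : m < (1 : ℤ) := by exact_mod_cast m2
          omega
        have hy0 : ‖y‖ ≠ 0 := norm_ne_zero_iff.2 hy.1
        refine ⟨g (π y), ⟨hUD y hy, hy.2⟩, ?_⟩
        simp only [ι, e, hm, m0, Int.cast_zero, zero_mul, add_zero]
        simp only [π, Real.exp_log (lt_of_le_of_ne (norm_nonneg y) hy0.symm), smul_smul,
          mul_inv_cancel₀ hy0, one_smul]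
    rw [this]
    exact hd.isOpen_inter_preimage hU isOpen_Ioo

theorem half_hm (b : Bool) :
    HM (Metric.sphere (0 : Eu 3) 1 ×ˢ Set.Icc (0 : ℝ) 1)
      (Metric.sphere (0 : Eu 3) 1 ×ˢ
        ((fun t : ℝ => Circle.exp ((if b then 1 else -1) * (Real.pi * t))) '' Set.Icc 0 1))
      fun p => (p.1, Circle.exp ((if b then 1 else -1) * (Real.pi * p.2))) := by
  refine ⟨by fun_prop, Set.BijOn.prodMap (Set.bijOn_id _) (Set.InjOn.bijOn_image ?_)⟩
  intro s hs t ht e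
  have hp := Real.pi_pos
  obtain ⟨s0, s1⟩ := hs
  obtain ⟨t0, t1⟩ := ht
  have := Circle.exp_injOn_Ioc (a := -(3 / 2 * Real.pi) + (if b then 1 else 0) * Real.pi)
    (b := Real.pi / 2 + (if b then 1 else 0) * Real.pi) (by linarith)
    (by cases b <;> simp only [if_true, if_false, Bool.false_eq_true] <;> constructor <;> nlinarith)
    (by cases b <;> simp only [if_true, if_false, Bool.false_eq_true] <;> constructor <;> nlinarith)
    e
  cases b <;> simp only [if_true, if_false, Bool.false_eq_true] at this <;> nlinarith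

theorem dbl_top {X0 X1 : Set E} (c0 : IsCompact X0) (c1 : IsCompact X1) {f : E → Eu 3 × ℝ}
    (h0 : HM X0 (Metric.sphere (0 : Eu 3) 1 ×ˢ Set.Icc (0 : ℝ) 1) f)
    (h1 : HM X1 (Metric.sphere (0 : Eu 3) 1 ×ˢ Set.Icc (0 : ℝ) 1) f)
    (hi : ∀ x ∈ X0, x ∈ X1 ↔ (f x).2 = 0 ∨ (f x).2 = 1) :
    Nonempty (↥(X0 ∪ X1) ≃ₜ Metric.sphere (0 : EuclideanSpace ℝ (Fin 3)) 1 × Circle) := by
  have hp := Real.pi_pos
  have k0 := h0.comp (half_hm true)
  have k1 := h1.comp (half_hm false)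
  have hπ : Circle.exp Real.pi = Circle.exp (-Real.pi) :=
    Circle.exp_eq_exp.2 ⟨1, by push_cast; ring⟩
  obtain ⟨g, hg, -, -⟩ := HM.glue k0 k1 c0 c1 (fun x hx => by
    rcases (hi x hx.1).1 hx.2 with e | e
    · simp [e]
    · simp only [Function.comp, e, if_true, if_false, Bool.false_eq_true, mul_one, one_mul, neg_mul]
      rw [hπ]) (by
    rintro ⟨y, z⟩ ⟨⟨hy, s, hs, rfl⟩, -, t, ht, e⟩
    obtain ⟨x, hx, ex⟩ := h0.2.2.2 (show (y, s) ∈ _ from ⟨hy, hs⟩)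
    refine ⟨x, ⟨hx, (hi x hx).2 ?_⟩, by simp [ex]⟩
    rw [ex]
    obtain ⟨m, hm⟩ := Circle.exp_eq_exp.1 e
    simp only [if_true, if_false, Bool.false_eq_true] at hm
    obtain ⟨s0, s1⟩ := hs
    obtain ⟨t0, t1⟩ := ht
    have e2 : s + t = -2 * m := by
      apply mul_left_cancel₀ hp.ne'
      linarith
    have a : (m : ℝ) ≤ 0 := by linarith
    have b : (-1 : ℝ) ≤ m := by linarith
    have a' : m ≤ 0 := by exact_mod_cast a
    have b' : -1 ≤ m := by exact_mod_cast b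
    have : m = 0 ∨ m = -1 := by omega
    rcases this with rfl | rfl
    · left
      simp only [Int.cast_zero] at e2
      show s = 0
      linarith
    · right
      push_cast at e2
      show s = 1
      linarith)
  rw [← Set.prod_union] at hg
  have hu : (fun t : ℝ => Circle.exp ((if true then 1 else -1) * (Real.pi * t))) '' Set.Icc 0 1 ∪
      (fun t : ℝ => Circle.exp ((if false then 1 else -1) * (Real.pi * t))) '' Set.Icc 0 1 =
      Set.univ := by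
    refine Set.eq_univ_of_forall fun z => ?_
    have a := Complex.neg_pi_lt_arg (z : ℂ)
    have b := Complex.arg_le_pi (z : ℂ)
    rcases le_total 0 (z : ℂ).arg with k | k
    · refine Or.inl ⟨(z : ℂ).arg / Real.pi, ⟨by positivity, (div_le_one hp).2 b⟩, ?_⟩
      simp only [if_true, one_mul, mul_div_cancel₀ _ hp.ne', Circle.exp_arg]
    · refine Or.inr ⟨-(z : ℂ).arg / Real.pi, ⟨div_nonneg (by linarith) hp.le,
        (div_le_one hp).2 (by linarith)⟩, ?_⟩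
      simp only [if_false, Bool.false_eq_true, mul_div_cancel₀ _ hp.ne', neg_mul, one_mul, neg_neg,
        Circle.exp_arg]
  rw [hu] at hg
  obtain ⟨h, -⟩ := hg.homeo (c0.union c1)
  exact ⟨h.trans ((Homeomorph.Set.prod _ _).trans
    ((Homeomorph.refl _).prodCongr (Homeomorph.Set.univ _)))⟩

theorem hm_of_prod {K : Set E}
    (h : K ≃ₜ Metric.sphere (0 : EuclideanSpace ℝ (Fin 3)) 1 × Circle) :
    ∃ f : E → Eu 3 × Circle,
      HM K (Metric.sphere (0 : Eu 3) 1 ×ˢ (Set.univ : Set Circle)) f := by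
  obtain ⟨f, hf, -⟩ := hm_of_homeo (h.trans ((Homeomorph.Set.prod _ _).trans
    ((Homeomorph.refl _).prodCongr (Homeomorph.Set.univ _))).symm)
  exact ⟨f, hf⟩

end

end Pool.Agent.MP_6374aa_g.BQ

end

section

/-!
The product of a sphere and a circle is prime.
-/

namespace Pool.Agent.MP_6374aa_g.BQ

open Pool.Agent.MP_6374aa_gt Classical

noncomputable section

variable {V : Type} {G : SimpleGraph V} {A : Set V}

theorem collar_side {S P : Set V} (hA : Mfa G 3 A (fun _ => False) S) (hSA : S ⊆ A)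
    (hS : Sph G 3 S) (h : Split G 3 A S P) :
    Shell (Rz (sG V) (nb G (S ∪ P) S)) (Rz (sG V) (sA G S)) (Rz (sG V) (fr G (S ∪ P) S)) ∧
      Sph (sG V) 3 (fr G (S ∪ P) S) := by
  have hD : S ∪ P ⊆ A := Set.union_subset hSA fun x hx => (h.subset hx).1
  have e1 : hsd G A S (fun x => P ∩ Lk G A {x}) = nb G (S ∪ P) S := by
    ext t
    constructor
    · rintro ⟨ht, ⟨x, hx, hxS⟩, k⟩
      refine ⟨⟨ht.1, fun y hy => ?_, ht.2.2⟩, x, hx, hxS⟩
      by_cases e : y ∈ S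
      · exact Or.inl e
      · exact Or.inr (k x hx hxS y hy e).1
    · rintro ⟨ht, hm⟩
      refine ⟨sA_mono hD ht, hm, fun x hx hxS y hy e => ⟨(ht.2.1 hy).resolve_left e,
        hD (ht.2.1 hy), fun u hu => ?_⟩⟩
      rw [Set.mem_singleton_iff.1 hu]
      exact ht.2.2 hx hy fun k => e (k ▸ hxS)
  have e2 : hfr G A S (fun x => P ∩ Lk G A {x}) = fr G (S ∪ P) S := by
    ext t
    rw [hfr, e1]
    exact and_assoc
  have k1 := collar hA hSA hS h.sided
  have k2 := hfr_sph hA hSA hS h.sided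
  rw [e2] at k2
  rw [e1, e2] at k1
  exact ⟨k1, k2⟩

theorem collar_dec {D S : Set V} (hf : D.Finite) (hS : S ⊆ D)
    (h : Shell (Rz (sG V) (nb G D S)) (Rz (sG V) (sA G S)) (Rz (sG V) (fr G D S))) :
    ∃ A0 W0 S0, IsCompact A0 ∧ Shell W0 S0 (Rz G S) ∧ A0 ∩ W0 = S0 ∧ A0 ∪ W0 = Rz G D := by
  have hb := bar_hm (G := G) hf
  have m1 : Rz (sG V) (nb G D S) ⊆ Rz (sG V) (sA G D) := rz_mono fun t ht => ht.1
  have m2 : Rz (sG V) (nb G D (D \ S)) ⊆ Rz (sG V) (sA G D) := rz_mono fun t ht => ht.1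
  have hne : NE (sG V) (nb G D (D \ S)) (nb G D S) := by
    rintro a ⟨⟨ha, -⟩, na⟩ b ⟨⟨hb, -⟩, nb'⟩ k
    rcases k with k | k
    · obtain ⟨x, hx⟩ := ha.1
      exact nb' ⟨hb, x, k.1 hx, ha.2.1 hx, fun e => na ⟨ha, x, hx, e⟩⟩
    · obtain ⟨x, hx⟩ := hb.1
      by_cases e : x ∈ S
      · exact na ⟨ha, x, k.1 hx, e⟩
      · exact nb' ⟨hb, x, hx, hb.2.1 hx, e⟩
  have hu : nb G D (D \ S) ∪ nb G D S = sA G D := by
    refine Set.Subset.antisymm (Set.union_subset (fun t ht => ht.1) fun t ht => ht.1)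
      fun t ht => ?_
    obtain ⟨x, hx⟩ := ht.1
    by_cases e : x ∈ S
    · exact Or.inr ⟨ht, x, hx, e⟩
    · exact Or.inl ⟨ht, x, hx, ht.2.1 hx, e⟩
  refine ⟨bar '' Rz (sG V) (nb G D (D \ S)), bar '' Rz (sG V) (nb G D S),
    bar '' Rz (sG V) (fr G D S),
    (hb.restrict m2).compact (rz_compact ((sA_finite hf).subset fun t ht => ht.1)), ?_, ?_, ?_⟩
  · have := (h.map (hb.restrict m1)).symm
    rwa [bar_image (hf.subset hS)] at this
  · rw [← hb.image_inter m2 m1, rz_inter, Set.inter_comm, nb_inter_nb]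
  · rw [← Set.image_union, ← rz_union hne, hu, bar_image hf]

theorem side_ball (hB : BROWN_st) {S D E : Set V} (hA : Cl G 3 A) (hS : Sph G 3 S)
    (hu : D ∪ E = A) (hi : D ∩ E = S) (hne : NE G D E) (h1 : (D \ E).Nonempty)
    (h2 : (E \ D).Nonempty) (hn : NDC G D) (hp : Cx.S2S1 ⟨V, G, A⟩) : Ball3 G D S := by
  have hSD : S ⊆ D := hi ▸ Set.inter_subset_left
  have hSE : S ⊆ E := hi ▸ Set.inter_subset_right
  have hDA : D ⊆ A := hu ▸ Set.subset_union_left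
  have hEA : E ⊆ A := hu ▸ Set.subset_union_right
  have hv : Hv.Valid ⟨V, G, A, D, E, D ∪ S, E ∪ S, S, S⟩ :=
    ⟨hA, hu.symm, hne, by simpa only [hi] using hS, h1, h2, rfl,
      fun a _ b hb => absurd (hSD hb.1) hb.2,
      by simp only [hi, Set.inter_eq_right.2 hSD], Cell.con hS, rfl,
      fun a _ b hb => absurd (hSE hb.1) hb.2,
      by simp only [hi, Set.inter_eq_right.2 hSE], Cell.con hS⟩
  have hsp : Split G 3 A S (D \ E) := by simpa only [hi] using hv.split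
  have eD : S ∪ D \ E = D := by rw [← hi, Set.inter_union_sdiff]
  have hc := (collar_side ((mf_empty_iff.1 hA.2.2).mono (hSD.trans hDA)) (hSD.trans hDA) hS hsp).1
  rw [eD] at hc
  obtain ⟨A0, W0, S0, c0, sh, i0, u0⟩ := collar_dec (hA.1.subset hDA) hSD hc
  obtain ⟨φ⟩ := hp
  obtain ⟨f, hf⟩ := hm_of_prod φ
  have hf : HM (Rz G A) _ f := hf
  obtain ⟨lam, fl, hl⟩ := circ_lab (continuous_snd.comp_continuousOn hf.1)
  obtain ⟨τ, t1, t2⟩ := hl D hDA
    (int_pot hn fun u hu v hv w hw => fl u (hDA hu) v (hDA hv) w (hDA hw))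
  rw [← hu, rz_union hne] at hf
  have cD := rz_compact (G := G) (hA.1.subset hDA)
  obtain ⟨ι, hι, ho⟩ := emb cD (rz_compact (hA.1.subset hEA)) hf t1 t2
  have a0 : A0 ⊆ Rz G D := u0 ▸ Set.subset_union_left
  have w0 : W0 ⊆ Rz G D := u0 ▸ Set.subset_union_right
  have key := hB (ι '' A0) (ι '' W0) (ι '' S0) (ι '' Rz G S) ((hι.restrict a0).compact c0)
    (sh.map (hι.restrict w0)) (by rw [← hι.image_inter a0 w0, i0]) (by
      rw [← Set.image_union, u0, ← hι.2.2.1.image_sdiff_subset (rz_mono hSD), ← hi, ← rz_inter,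
        Set.sdiff_self_inter]
      exact ho)
  rw [← Set.image_union, u0] at key
  exact ball3_iff.2 (key.comap cD hι fun x hx => (hι.mem_image (rz_mono hSD) hx).symm)

end

end Pool.Agent.MP_6374aa_g.BQ

namespace Pool.Agent.MP_6374aa_g

open Pool.Agent.MP_6374aa_gt

theorem prime_of (hB : BROWN_st) (hR : RKI_st) : PRIME_st := by
  intro M hM hr hp Q hQ hh S D E hS hu hi n1 n2 hne
  have hA : Cl Q.G 3 Q.A := closed_iff.1 hQ
  have hSD : S ⊆ D := hi ▸ Set.inter_subset_left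
  have hSE : S ⊆ E := hi ▸ Set.inter_subset_right
  have hDA : D ⊆ Q.A := hu ▸ Set.subset_union_left
  have hS' : Sph Q.G 3 S := (sphere2_iff (hA.1.subset (hSD.trans hDA))).1 hS
  have hq : Q.S2S1 := by
    obtain ⟨a⟩ := hh
    obtain ⟨b⟩ := hp
    exact ⟨a.trans b⟩
  have hne' : NE Q.G D E := fun a ha b hb =>
    hne a ⟨ha.1, fun k => ha.2 (hSE k)⟩ b ⟨hb.1, fun k => hb.2 (hSD k)⟩
  have h1 : (D \ E).Nonempty := by
    by_contra k
    exact n1 (Set.Subset.antisymm (fun x hx => hi ▸ ⟨hx, by_contra fun e => k ⟨x, hx, e⟩⟩) hSD)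
  have h2 : (E \ D).Nonempty := by
    by_contra k
    exact n2 (Set.Subset.antisymm (fun x hx => hi ▸ ⟨by_contra fun e => k ⟨x, hx, e⟩, hx⟩) hSE)
  have hrk : Rk Q.G Q.A 1 := hR M Q hM.1 hQ.1 hh.symm 1 hr
  rcases BQ.ndc_side hrk (hu ▸ hne'.cov2) (hi ▸ Cell.ndc hS') with k | k
  · exact Or.inl (BQ.side_ball hB hA hS' hu hi hne' h1 h2 k hq)
  · exact Or.inr (BQ.side_ball hB hA hS' (Set.union_comm D E ▸ hu) (Set.inter_comm D E ▸ hi)
      hne'.symm h2 h1 k hq)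

end Pool.Agent.MP_6374aa_g

end

section

/-!
A triangulation of the product of a sphere and a circle: the double of a shell.
-/

namespace Pool.Agent.MP_6374aa_g.BQ

open Pool.Agent.MP_6374aa_gt Classical

noncomputable section

variable {V : Type} {G : SimpleGraph V} {W T : Set V}

/-- The graph of the double along `T`. -/
def dG (G : SimpleGraph V) (T : Set V) : SimpleGraph (V × Bool) where
  Adj p q := G.Adj p.1 q.1 ∧ (p.2 = q.2 ∨ p.1 ∈ T ∨ q.1 ∈ T)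
  symm := ⟨fun _ _ h => ⟨h.1.symm, h.2.elim (fun e => Or.inl e.symm) fun e => Or.inr e.symm⟩⟩
  loopless := ⟨fun _ h => G.irrefl h.1⟩

/-- The two halves of the double. -/
def dX (W T : Set V) (b : Bool) : Set (V × Bool) :=
  {p | p.1 ∈ W ∧ p.2 = if p.1 ∈ T then false else b}

theorem dX_iso (b : Bool) : IsIso (dG G T) (dX W T b) G W Prod.fst := by
  refine ⟨⟨fun p hp => hp.1, fun p hp q hq e => Prod.ext e ?_, fun v hv =>
    ⟨(v, if v ∈ T then false else b), ⟨hv, rfl⟩, rfl⟩⟩, fun p hp q hq => ⟨fun h => h.1, fun h =>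
    ⟨h, ?_⟩⟩⟩
  · rw [hp.2, hq.2, e]
  · by_cases a : p.1 ∈ T
    · exact Or.inr (Or.inl a)
    by_cases c : q.1 ∈ T
    · exact Or.inr (Or.inr c)
    · exact Or.inl (by rw [hp.2, hq.2, if_neg a, if_neg c])

theorem dX_mem {b : Bool} {p : V × Bool} (hp : p ∈ dX W T b) : p ∈ dX W T (!b) ↔ p.1 ∈ T := by
  constructor
  · intro h
    by_contra k
    have := hp.2.symm.trans h.2
    rw [if_neg k, if_neg k] at this
    cases b <;> simp at this
  · intro h
    exact ⟨hp.1, by rw [hp.2, if_pos h, if_pos h]⟩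

theorem dX_ne : NE (dG G T) (dX W T false) (dX W T true) := by
  intro a ha b hb h
  have h1 : a.1 ∉ T := fun k => ha.2 ((dX_mem ha.1).2 k)
  have h2 : b.1 ∉ T := fun k => hb.2 ((dX_mem hb.1).2 k)
  rcases h.2 with e | e | e
  · rw [ha.1.2, hb.1.2, if_neg h1, if_neg h2] at e
    exact Bool.false_ne_true e
  · exact h1 e
  · exact h2 e

theorem dbl_ori (h : Mf G 3 W T) (ho : Ori G W) :
    Ori (dG G T) (dX W T false ∪ dX W T true) := by
  obtain ⟨o, ho⟩ := ori_iff_O1.1 ho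
  have hW : ∀ p ∈ dX W T false ∪ dX W T true, p.1 ∈ W := fun p hp => hp.elim (·.1) (·.1)
  have hT : ∀ p ∈ dX W T false ∪ dX W T true, p.1 ∈ T → p.2 = false := fun p hp k =>
    hp.elim (fun e => by rw [e.2, if_pos k]) fun e => by rw [e.2, if_pos k]
  have pr : ∀ {a b c d}, Tet_O1 (dG G T) (dX W T false ∪ dX W T true) a b c d →
      Tet_O1 G W a.1 b.1 c.1 d.1 := fun t =>
    ⟨hW _ t.ma, hW _ t.mb, hW _ t.mc, hW _ t.md, t.ab.1, t.ac.1, t.ad.1, t.bc.1, t.bd.1, t.cd.1⟩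
  have le : ∀ p, ∀ q ∈ dX W T false ∪ dX W T true, (dG G T).Adj p q → p.1 ∉ T → q.2 = true →
      p.2 = true := fun p q hq h k e => by
    rcases h.2 with x | x | x
    · exact x.trans e
    · exact absurd x k
    · rw [hT q hq x] at e
      exact absurd e Bool.false_ne_true
  have side : ∀ {a b c d e}, Tet_O1 (dG G T) (dX W T false ∪ dX W T true) a b c d →
      Tet_O1 (dG G T) (dX W T false ∪ dX W T true) a b c e → (a.1 ∉ T ∨ b.1 ∉ T ∨ c.1 ∉ T) →
      (a.2 || b.2 || c.2 || d.2) = (a.2 || b.2 || c.2 || e.2) := by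
    intro a b c d e t t' k
    rcases k with k | k | k
    · have x := le a d t.md t.ad k
      have y := le a e t'.md t'.ad k
      revert x y
      cases a.2 <;> cases b.2 <;> cases c.2 <;> cases d.2 <;> cases e.2 <;> simp
    · have x := le b d t.md t.bd k
      have y := le b e t'.md t'.bd k
      revert x y
      cases a.2 <;> cases b.2 <;> cases c.2 <;> cases d.2 <;> cases e.2 <;> simp
    · have x := le c d t.md t.cd k
      have y := le c e t'.md t'.cd k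
      revert x y
      cases a.2 <;> cases b.2 <;> cases c.2 <;> cases d.2 <;> cases e.2 <;> simp
  refine ori_iff_O1.2 ⟨fun a b c d => xor (o a.1 b.1 c.1 d.1) (a.2 || b.2 || c.2 || d.2),
    fun a b c d t => ?_⟩
  obtain ⟨o1, o2, o3, o4⟩ := ho _ _ _ _ (pr t)
  have xr : ∀ x y s t : Bool, x ≠ y → s = t → xor x s ≠ xor y t := by decide
  refine ⟨xr _ _ _ _ o1 ?_, xr _ _ _ _ o2 ?_, xr _ _ _ _ o3 ?_, fun e t' ne => ?_⟩
  · cases a.2 <;> cases b.2 <;> rfl
  · cases a.2 <;> cases b.2 <;> cases c.2 <;> rfl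
  · cases a.2 <;> cases b.2 <;> cases c.2 <;> cases d.2 <;> rfl
  · by_cases k : a.1 ∉ T ∨ b.1 ∉ T ∨ c.1 ∉ T
    · have hs := side t t' k
      have hne : e.1 ≠ d.1 := by
        intro x
        have y : e.2 ≠ d.2 := fun y => ne (Prod.ext x y)
        have nd : d.1 ∉ T := fun z => y ((hT e t'.md (x ▸ z)).trans (hT d t.md z).symm)
        have ne' : e.1 ∉ T := x ▸ nd
        have z : ∀ p, (dG G T).Adj p d → (dG G T).Adj p e → p.1 ∈ T := fun p u v => by
          by_contra w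
          exact y (((v.2.resolve_right fun j => j.elim w ne').symm).trans
            (u.2.resolve_right fun j => j.elim w nd))
        exact k.elim (fun j => j (z a t.ad t'.ad)) fun j =>
          j.elim (fun j => j (z b t.bd t'.bd)) fun j => j (z c t.cd t'.cd)
      exact xr _ _ _ _ (o4 e.1 (pr t') hne) hs.symm
    · push Not at k
      obtain ⟨ka, kb, kc⟩ := k
      have p := pr t
      have p' := pr t'
      have hs : Clq G W {a.1, b.1, c.1} := clq_iff.2 ⟨by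
        simp [Set.insert_subset_iff, p.ma, p.mb, p.mc], by
        simp [Adq, p.ab, p.ac, p.bc, p.ab.symm, p.ac.symm, p.bc.symm]⟩
      have hc : ({a.1, b.1, c.1} : Finset V).card = 3 :=
        Finset.card_eq_three.2 ⟨_, _, _, p.ab.ne, p.ac.ne, p.bc.ne, rfl⟩
      have h1 := (h.link hs ⟨a.1, by simp, p.ma⟩).2
      rw [hc] at h1
      have h2 : (Lk G W (({a.1, b.1, c.1} : Finset V) : Set V)).ncard = 1 := by
        refine ((one_H7 h1).resolve_right fun j => j.1 ?_).2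
        simp [sub, Set.insert_subset_iff, ka, kb, kc]
      obtain ⟨z, hz⟩ := Set.ncard_eq_one.1 h2
      have m : ∀ y, Tet_O1 G W a.1 b.1 c.1 y → y = z := fun y q =>
        Set.mem_singleton_iff.1 (hz ▸ ⟨q.md, by simp [q.ad, q.bd, q.cd]⟩)
      have x : e.1 = d.1 := (m _ p').trans (m _ p).symm
      have y : e.2 ≠ d.2 := fun y => ne (Prod.ext x y)
      show xor _ (a.2 || b.2 || c.2 || e.2) ≠ xor _ (a.2 || b.2 || c.2 || d.2)
      rw [x, hT a t.ma ka, hT b t.mb kb, hT c t.mc kc]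
      revert y
      cases o a.1 b.1 c.1 d.1 <;> cases e.2 <;> cases d.2 <;> simp

theorem dbl_model {T0 T1 : Set V} (hf : W.Finite) (h : Mf G 3 W (T0 ∪ T1)) (hc : Con G W)
    (hn : NDC G W) (w0 : T0 ⊆ W) (w1 : T1 ⊆ W) (far : Far G T0 T1) (s0 : Sph G 3 T0)
    (s1 : Sph G 3 T1) (sh : Shell (Rz G W) (Rz G T0) (Rz G T1)) : MOD_st := by
  set T := T0 ∪ T1 with hT
  have iso := fun b => dX_iso (G := G) (W := W) (T := T) b
  have fin : ∀ b, (dX W T b).Finite := fun b => hf.of_injOn (iso b).1.1 (iso b).1.2.1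
  have m0 : Mf (dG G T) 3 (dX W T false) (dX W T true) :=
    (IsIso.mf (iso false) fun a ha => dX_mem ha).2 h
  have m1 : Mf (dG G T) 3 (dX W T true) (dX W T false) :=
    (IsIso.mf (iso true) fun a ha => dX_mem ha).2 h
  obtain ⟨z, hz⟩ := Cell.nonempty s1
  have zm : (z, false) ∈ dX W T false := ⟨w1 hz, by simp⟩
  have zm' : (z, false) ∈ dX W T true := (dX_mem zm).2 (Or.inr hz)
  have z0 : z ∉ T0 := fun k => far z k z hz (adq_refl z)
  have cl : Cl (dG G T) 3 (dX W T false ∪ dX W T true) :=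
    ⟨(fin _).union (fin _), con_union_C5 ((IsIso.pre (iso _)).2 hc.2) ((IsIso.pre (iso _)).2 hc.2)
      ⟨_, zm, zm'⟩, mf_empty_iff.2 (union_step_C5 (ball_union_C5 le_rfl) m0 m1 dX_ne)⟩
  have hS : Sph (dG G T) 3 (dX W T false ∩ Prod.fst ⁻¹' T0) := by
    rw [IsIso.sph (IsIso.restrict' (iso false) T0), Set.inter_eq_right.2 w0]
    exact s0
  have e : (dX W T false ∪ dX W T true) \ (dX W T false ∩ Prod.fst ⁻¹' T0) =
      (dX W T false ∩ Prod.fst ⁻¹' T0ᶜ) ∪ (dX W T true ∩ Prod.fst ⁻¹' T0ᶜ) := by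
    rw [← Set.union_inter_distrib_right]
    ext p
    refine and_congr_right fun hp => not_congr ⟨fun k => k.2, fun k => ⟨?_, k⟩⟩
    exact hp.elim id fun j => (dX_mem j).2 (Or.inl k)
  have pe : PE G (W \ T0) G W id := Mfa.rem_bd h le_rfl (hf.inter_of_left _)
    fun s hs x hx => Or.inl (hs.2.1 hx).2
  have y := fun b => IsIso.restrict' (iso b) T0ᶜ
  have ne : NE (dG G T) (dX W T false ∩ Prod.fst ⁻¹' T0ᶜ) (dX W T true ∩ Prod.fst ⁻¹' T0ᶜ) :=
    fun a ha b hb => dX_ne a ⟨ha.1.1, fun k => ha.2 ⟨k, ha.1.2⟩⟩ b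
      ⟨hb.1.1, fun k => hb.2 ⟨k, hb.1.2⟩⟩
  have e1 : (dX W T false ∩ Prod.fst ⁻¹' T0ᶜ) ∩ (dX W T true ∩ Prod.fst ⁻¹' T0ᶜ) =
      dX W T false ∩ Prod.fst ⁻¹' T1 := by
    ext p
    exact ⟨fun k => ⟨k.1.1, ((dX_mem k.1.1).1 k.2.1).resolve_left k.1.2⟩, fun k =>
      ⟨⟨k.1, fun j => far _ j _ k.2 (adq_refl _)⟩, (dX_mem k.1).2 (Or.inr k.2),
        fun j => far _ j _ k.2 (adq_refl _)⟩⟩
  have c1 : Con (dG G T) ((dX W T false ∪ dX W T true) \ (dX W T false ∩ Prod.fst ⁻¹' T0)) := by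
    rw [e]
    exact con_union_C5 ((IsIso.pre (y _)).2 (pe.pre.2 hc.2)) ((IsIso.pre (y _)).2 (pe.pre.2 hc.2))
      ⟨_, ⟨zm, z0⟩, zm', z0⟩
  have n1 : NDC (dG G T) ((dX W T false ∪ dX W T true) \ (dX W T false ∩ Prod.fst ⁻¹' T0)) := by
    rw [e]
    refine glue_triv ne.cov2 ((IsIso.triv (y _)).2 (pe.triv.2 hn))
      ((IsIso.triv (y _)).2 (pe.triv.2 hn)) ?_
    rw [e1, IsIso.pre (IsIso.restrict' (iso false) T1), Set.inter_eq_right.2 w1]
    exact (Cell.con s1).2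
  have sub0 : dX W T false ∩ Prod.fst ⁻¹' T0 ⊆ dX W T false ∪ dX W T true := fun p hp =>
    Or.inl hp.1
  refine ⟨⟨V × Bool, dG G T, dX W T false ∪ dX W T true⟩, closed_iff.2 cl,
    dbl_ori h (ori_of_ndc h hn), nonsep_of sub0 hS c1, rk_one cl sub0 hS c1 n1, ?_⟩
  obtain ⟨-, -, -, F, hF, hb⟩ := sh
  have k := fun b => IsIso.hm (iso b) (fin b)
  show Nonempty (Rz (dG G T) (dX W T false ∪ dX W T true) ≃ₜ _)
  rw [rz_union dX_ne]
  refine dbl_top (rz_compact (fin _)) (rz_compact (fin _)) ((k false).comp hF) ((k true).comp hF)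
    fun x hx => ?_
  have e2 : Prod.fst '' (dX W T false ∩ dX W T true) = T0 ∪ T1 := by
    refine Set.Subset.antisymm ?_ fun v hv => ?_
    · rintro _ ⟨p, hp, rfl⟩
      exact (dX_mem hp.1).1 hp.2
    · have a : (v, false) ∈ dX W T false := ⟨Set.union_subset w0 w1 hv, by simp⟩
      exact ⟨(v, false), ⟨a, (dX_mem a).2 hv⟩, rfl⟩
  have e3 := (k false).mem_image (rz_mono (Set.inter_subset_left (t := dX W T true))) hx
  rw [IsIso.pf_image (iso false) (fin _) Set.inter_subset_left, e2, ← rz_inter,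
    rz_union fun a ha b hb j => far a ha.1 b hb.1 (Or.inr j)] at e3
  have e4 := hb _ ((k false).2.1 hx)
  exact ⟨fun j => (e3.2 ⟨hx, j⟩).imp e4.1.1 e4.2.1, fun j => (e3.1 (j.imp e4.1.2 e4.2.2)).2⟩

theorem susp_model {S : Set V} (hS : Sph G 3 S) {n s : V} (hns : ¬ Adq G n s)
    (hn : ∀ a ∈ S, G.Adj n a) (hs : ∀ a ∈ S, G.Adj s a) : MOD_st := by
  have nS : n ∉ S := fun k => G.irrefl (hn n k)
  have sS : s ∉ S := fun k => G.irrefl (hs s k)
  have ns : n ≠ s := fun k => hns (Or.inl k)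
  have lk : ∀ v ∈ S, Sph G 2 (Lk G S {v}) := fun v hv => (Sph.mf hS).sph_lk hv (Set.notMem_empty v)
  have hA : Mfa G 3 (S ∪ {n, s}) (fun _ => False) S := fun v hv => by
    have e : Lk G (S ∪ {n, s}) {v} = Lk G S {v} ∪ {n, s} := by
      rw [lk_union_C5]
      congr 1
      refine Set.Subset.antisymm (lk_subset _) ?_
      rintro a (rfl | rfl)
      · exact mem_lk_C1.2 ⟨by simp, (hn v hv).symm⟩
      · exact mem_lk_C1.2 ⟨by simp, (hs v hv).symm⟩
    rw [e]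
    refine sph_join_C2 (lk v hv) (sph_one.2 ⟨Set.ncard_pair ns, ?_⟩) rfl le_rfl ?_
    · rintro a (rfl | rfl) b (rfl | rfl) k
      · exact G.irrefl k
      · exact hns (Or.inr k)
      · exact hns (Or.inr k.symm)
      · exact G.irrefl k
    · rintro a ha b (rfl | rfl)
      · exact (hn a ha.1).symm
      · exact (hs a ha.1).symm
  have sp : Split G 3 (S ∪ {n, s}) S {n} := by
    refine ⟨?_, ?_, fun t ht _ => ⟨⟨n, ⟨by simp, fun u hu => (hn u (ht.1 hu)).symm⟩, rfl⟩,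
      s, ⟨by simp, fun u hu => (hs u (ht.1 hu)).symm⟩, ?_⟩⟩
    · rintro _ rfl
      exact ⟨by simp, nS⟩
    · rintro _ rfl b ⟨hb | rfl | rfl, k⟩ j
      · exact k (Or.inl hb)
      · exact k (Or.inr rfl)
      · exact hns (Or.inr j)
    · rintro (k | k)
      · exact sS k
      · exact ns (Set.mem_singleton_iff.1 k).symm
  obtain ⟨sh, sf⟩ := collar_side hA Set.subset_union_left hS sp
  have eS : (S ∪ {n}) ∩ S = S := Set.inter_eq_right.2 Set.subset_union_left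
  have hD : Mfa G 3 (S ∪ {n}) (sub S) ((S ∪ {n}) ∩ S) := fun v hv => by
    have e : Lk G (S ∪ {n}) {v} = insert n (Lk G S {v}) := by
      rw [lk_union_C5, Set.union_comm, Set.insert_eq]
      congr 1
      refine Set.Subset.antisymm (lk_subset _) ?_
      rintro a rfl
      exact mem_lk_C1.2 ⟨rfl, (hn v hv.2).symm⟩
    rw [e]
    refine (Cell.cone (lk v hv.2) le_rfl fun a ha => hn a ha.1).congr fun t ht => ?_
    simp only [or_false, sub, Finset.coe_insert, Set.insert_subset_iff, hv.2, true_and]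
    exact ⟨fun k x hx => ((ht.1 hx).resolve_left fun j => k (j ▸ hx)).1, fun k j => nS (k j)⟩
  have fin : (nb G (S ∪ {n}) S).Finite :=
    (sA_finite ((Cell.finite hS).union (Set.finite_singleton n))).subset fun t ht => ht.1
  have a0 : sA G S ⊆ nb G (S ∪ {n}) S := fun t ht =>
    ⟨sA_mono Set.subset_union_left ht, ht.1.imp fun x hx => ⟨hx, ht.2.1 hx⟩⟩
  have a1 : fr G (S ∪ {n}) S ⊆ nb G (S ∪ {n}) S := fun t ht => ⟨ht.1, ht.2.1⟩
  have hb := bar_hm (G := sG V) fin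
  refine dbl_model (T0 := sA (sG V) (sA G S)) (T1 := sA (sG V) (fr G (S ∪ {n}) S)) (sA_finite fin)
    (mf_congr_C5 (Mfa.sd_full (Mfa.nb hD le_rfl) le_rfl) fun a ha => or_congr ?_ ?_)
    (con_sA.2 ⟨?_, pre_nb.2 (eS.symm ▸ (Cell.con hS).2)⟩)
    (triv_sA.2 (triv_nb.2 (eS.symm ▸ Cell.ndc hS))) (sA_mono a0) (sA_mono a1)
    (far_sA (Set.disjoint_left.2 fun t ht k => k.2.2 ht.2.1)) (Sph.sd (Sph.sd hS le_rfl) le_rfl)
    (Sph.sd sf le_rfl) ?_
  · refine top_subset_iff.trans ⟨fun k => ⟨ha.1, fun t ht => ?_, ha.2.2⟩,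
      fun k t ht => (k.2.1 ht).2.1⟩
    exact ⟨(ha.2.1 ht).1.1, k ht, (ha.2.1 ht).1.2.2⟩
  · exact ⟨fun k => ⟨ha.1, k, ha.2.2⟩, fun k => k.2.1⟩
  · obtain ⟨z, hz⟩ := Cell.nonempty hS
    exact ⟨{z}, a0 (singleton_mem_sA.2 hz)⟩
  · obtain ⟨-, -, -, F, hF, he⟩ := sh
    refine ⟨rz_compact (sA_finite fin), rz_mono (sA_mono a0), rz_mono (sA_mono a1), F ∘ bar,
      hb.comp hF, fun x hx => ?_⟩
    have e0 := hb.mem_image (rz_mono (sA_mono a0)) hx
    have e1 := hb.mem_image (rz_mono (sA_mono a1)) hx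
    rw [bar_image (fin.subset a0)] at e0
    rw [bar_image (fin.subset a1)] at e1
    exact ⟨e0.symm.trans (he _ (hb.2.1 hx)).1, e1.symm.trans (he _ (hb.2.1 hx)).2⟩

end

end Pool.Agent.MP_6374aa_g.BQ

namespace Pool.Agent.MP_6374aa_g

theorem mod_main : MOD_st := by
  have h : Sph (sG (Fin 4)) 3 {t | t.Nonempty ∧ t ⊂ Finset.univ} :=
    simplex_sph (s := (Finset.univ : Finset (Fin 4))) Finset.univ_nonempty (by simp)
  refine BQ.susp_model (n := Sum.inr false) (s := Sum.inr true)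
    ((IsIso.sph (cap_iso (fun _ : Bool => {t | t.Nonempty ∧ t ⊂ Finset.univ}) _)).1 h) ?_ ?_ ?_
  · rintro (k | k)
    · simp at k
    · exact k
  · rintro _ ⟨a, ha, rfl⟩
    exact ha
  · rintro _ ⟨a, ha, rfl⟩
    exact ha

end Pool.Agent.MP_6374aa_g

end

section

/-! The tube about a circle. -/

namespace Pool.Agent.MP_6374aa_g

open Pool.Agent.MP_6374aa_gt Classical

variable {V V' V'' : Type} {G : SimpleGraph V} {G' : SimpleGraph V'} {G'' : SimpleGraph V''}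
  {A : Set V} {A' : Set V'} {A'' : Set V''} {L : Type} [Group L]

/-- A potential extends over independent vertices with connected links. -/
theorem pot_add_O9 {lab : V → V → L} (hl : Flat G A lab) {T : Set V}
    (hT : ∀ a ∈ T, ∀ b ∈ T, ¬ G.Adj a b) (h : ∀ v ∈ A ∩ T, Pre G (Lk G A {v}))
    (hp : Pot G (A \ T) lab) : Pot G A lab := by
  obtain ⟨p, hp⟩ := hp
  have k : ∀ v, v ∈ A ∩ T → ∃ q : L, ∀ w ∈ A, G.Adj v w → lab v w * p w = q := by
    intro v hv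
    by_cases e : ∃ w ∈ A, G.Adj v w
    · obtain ⟨w0, h0, h1⟩ := e
      refine ⟨lab v w0 * p w0, fun w hw hvw => (h v hv).const (φ := fun w => lab v w * p w) ?_
        (mem_lk_C1.2 ⟨hw, hvw⟩) (mem_lk_C1.2 ⟨h0, h1⟩)⟩
      intro a ha b hb hab
      obtain ⟨a1, a2⟩ := mem_lk_C1.1 ha
      obtain ⟨b1, b2⟩ := mem_lk_C1.1 hb
      rw [← hl v hv.1 a a1 b b1 (Or.inr a2) (Or.inr hab) (Or.inr b2),
        hp a ⟨a1, fun c => hT v hv.2 a c a2⟩ b ⟨b1, fun c => hT v hv.2 b c b2⟩ (Or.inr hab)]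
      group
    · exact ⟨1, fun w hw hvw => absurd ⟨w, hw, hvw⟩ e⟩
  obtain ⟨q, hq⟩ := choose_P2 k
  refine ⟨fun v => if v ∈ T then q v else p v, fun u hu w hw huw => ?_⟩
  rcases huw with rfl | huw
  · rw [hl.self hu, mul_inv_cancel]
  by_cases e1 : u ∈ T <;> by_cases e2 : w ∈ T
  · exact absurd huw (hT u e1 w e2)
  · simp only [if_pos e1, if_neg e2]
    rw [← hq u ⟨hu, e1⟩ w hw huw]
    group
  · simp only [if_neg e1, if_pos e2]
    rw [← hq w ⟨hw, e2⟩ u hu huw.symm, hl.symm hu hw (Or.inr huw)]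
    group
  · simp only [if_neg e1, if_neg e2]
    exact hp u ⟨hu, e1⟩ w ⟨hw, e2⟩ (Or.inr huw)

theorem indep_O9 (γ : Set V) (n : ℕ) : ∀ a ∈ {s : Finset V | ↑s ⊆ γ ∧ s.card = n},
    ∀ b ∈ {s : Finset V | ↑s ⊆ γ ∧ s.card = n}, ¬ (sG V).Adj a b := by
  rintro a ⟨-, ha⟩ b ⟨-, hb⟩ (e | e) <;> have := Finset.card_lt_card e <;> omega

theorem pot_tube_O9 {γ : Set V} (hA : Mf G 3 A ∅) (hγ : Sph G 2 γ)
    {lab : Finset V → Finset V → L} (hl : Flat (sG V) (nb G A γ) lab)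
    (hp : Pot (sG V) (fr G A γ) lab) : Pot (sG V) (nb G A γ) lab := by
  have hT : Mf (sG V) 3 (nb G A γ) (fr G A γ) := hA.nb_empty le_rfl
  have k : ∀ s ∈ nb G A γ, ↑s ⊆ γ → Sph (sG V) 3 (Lk (sG V) (nb G A γ) {s}) :=
    fun s hs e => hT.sph_lk hs fun c => c.2.2 e
  refine pot_add_O9 hl (indep_O9 γ 2) (fun s hs => (Cell.con (k s hs.1 hs.2.1)).2) ?_
  refine pot_add_O9 (hl.mono Set.sdiff_subset) (indep_O9 γ 1) (fun s hs => ?_) (hp.mono ?_)
  · have h1 := k s hs.1.1 hs.2.1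
    rw [lk_diff_H3]
    exact rem_many_pre (indep_O9 γ 2) (Cell.con h1).2 fun t ht =>
      (Cell.con ((Sph.mf h1).sph_lk ht.1 (by simp))).2
  · rintro s ⟨⟨h1, h2⟩, h3⟩
    refine ⟨h1.1, h1.2, fun e => ?_⟩
    have c1 := (Cell.link hγ (s := s) ⟨e, h1.1.2.2⟩).1
    have c2 := h1.1.1.card_pos
    by_cases c : s.card = 1
    · exact h3 ⟨e, c⟩
    · exact h2 ⟨e, by omega⟩

theorem tube_main : TUBE_st := by
  intro V G A γ hA _ hγ
  have hT : Mf (sG V) 3 (nb G A γ) (fr G A γ) := hA.2.2.nb_empty le_rfl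
  have hF : Mf (sG V) 2 (fr G A γ) ∅ := Mf.fr_empty (d := 2) hA.2.2 le_rfl
  have hs : fr G A γ ⊆ nb G A γ := fun _ h => ⟨h.1, h.2.1⟩
  have hT2 := hT.sd le_rfl
  have hb := bal_sA (Mfa.card_le hT)
  obtain ⟨w, hw⟩ := exists_w1 hT2 (Or.inr rfl) hb
  have e : sA (sG V) (nb G A γ) ∩ ins (fr G A γ) = sA (sG V) (fr G A γ) := by
    rw [← sA_inter, Set.inter_eq_right.2 hs]
  have hw2 := hw.bd hT2 hb fun u hu => by
    have := Mfa.card_le hF u (e ▸ hu)
    omega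
  rw [e] at hw2
  rw [ori_iff_bip_sA (Mfa.card_le hT), hw.bip_iff hT2, hw2.bip_iff (hF.sd_empty (by omega))]
  refine ⟨fun h => h.mono (sA_mono hs), fun h => ?_⟩
  have pe : ∀ X : Set (Finset V), PE (sG (Finset V)) (sA (sG V) X) (sG V) X (pk Set.univ) :=
    fun X => sd_pe fun s hs => pk_mem _ hs.1
  obtain ⟨w0, k, h0, hk⟩ := (pe (nb G A γ)).desc Z2 w (hw.flat hT2)
  refine hk.pot (((pe _).pot h0).2 (pot_tube_O9 hA.2.2 hγ h0 ?_))
  exact ((pe _).pot (h0.mono hs)).1 ((hk.mono (sA_mono hs)).symm.pot h)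

end Pool.Agent.MP_6374aa_g

end
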