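import Pool.Agent.Mg.F6374aa.Ge6e9b2

section

/-!
Internal definitions: group actions, torsion, towers and interleaved systems.
-/

namespace Pool.Agent.MP_6374aa_gt

open Classical

noncomputable section

variable {V V' : Type}

/-! ### Torsion of based complexes given by matrices -/

section Tor

variable {R I : Type} [CommRing R] [Fintype I] [DecidableEq I]

/-- `d` is a differential lowering the degree by one (columns are images of basis vectors). -/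
def IsCx (deg : I → ℕ) (d : Matrix I I R) : Prop :=
  (∀ i j, d i j ≠ 0 → deg j = deg i + 1) ∧ d * d = 0

/-- `h` is a contraction. -/
def IsCtr (deg : I → ℕ) (d h : Matrix I I R) : Prop :=
  (∀ i j, h i j ≠ 0 → deg i = deg j + 1) ∧ d * h + h * d = 1

/-- `u` is the determinant of `d + h` from odd to even degrees. -/
def IsTor (deg : I → ℕ) (d : Matrix I I R) (u : R) : Prop :=
  ∃ h : Matrix I I R, IsCtr deg d h ∧
    ∃ e : {i // Odd (deg i)} ≃ {i // ¬ Odd (deg i)},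
      u = Matrix.det (Matrix.of fun i j : {i // Odd (deg i)} => (d + h) (e i).1 j.1)

end Tor

variable {C : Type} [CommGroup C] [Fintype C]

abbrev RC (C : Type) [CommGroup C] : Type := MonoidAlgebra ℚ C

/-- Trivial units. -/
def InU (u : RC C) : Prop := ∃ (r : ℚ) (g : C), r ≠ 0 ∧ u = MonoidAlgebra.single g r

def nrm (C : Type) [CommGroup C] [Fintype C] : RC C := ∑ g : C, MonoidAlgebra.single g 1

abbrev RQ (C : Type) [CommGroup C] [Fintype C] : Type := RC C ⧸ Ideal.span {nrm C}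

abbrev qq (C : Type) [CommGroup C] [Fintype C] : RC C →+* RQ C :=
  Ideal.Quotient.mk (Ideal.span {nrm C})

/-- The matrix `M` is controlled by the relation `ρ` on positions. -/
def Ctl {B I J : Type} (β : C →* Equiv.Perm B) (ρ : B → B → Prop) (pI : I → B) (pJ : J → B)
    (M : Matrix J I (RC C)) : Prop :=
  ∀ j i g, (M j i).coeff g ≠ 0 → ρ (β g (pJ j)) (pI i)

/-- Controlled isomorphisms have trivial determinant. -/
def Vanish {B : Type} (β : C →* Equiv.Perm B) (B0 : Set B) (ρ : B → B → Prop) : Prop :=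
  ∀ (I J : Type) [Fintype I] [DecidableEq I] [Fintype J] [DecidableEq J] (pI : I → B)
    (pJ : J → B), (∀ i, pI i ∈ B0) → (∀ j, pJ j ∈ B0) →
    ∀ (M : Matrix J I (RC C)) (N : Matrix I J (RC C)), M * N = 1 → N * M = 1 →
      Ctl β ρ pI pJ M → Ctl β ρ pJ pI N → ∀ e : I ≃ J, InU (Matrix.det (M.submatrix e id))

/-! ### Actions, frames, admissible families -/

structure Act (G : SimpleGraph V) (A : Set V) (α : C →* Equiv.Perm V) : Prop where
  mem : ∀ g, ∀ a ∈ A, α g a ∈ A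
  adj : ∀ g, ∀ a ∈ A, ∀ b ∈ A, G.Adj a b → G.Adj (α g a) (α g b)

structure FreeAct (G : SimpleGraph V) (A : Set V) (α : C →* Equiv.Perm V) : Prop
    extends Act G A α where
  free : ∀ g (σ : Finset V), σ.Nonempty → ↑σ ⊆ A → G.IsClique (σ : Set V) →
    σ.map (α g).toEmbedding = σ → g = 1

def Eqv (A' : Set V') (α' : C →* Equiv.Perm V') (α : C →* Equiv.Perm V) (f : V' → V) : Prop :=
  ∀ g, ∀ a ∈ A', f (α' g a) = α g (f a)

/-- The action is free on the homologically visible sites. -/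
def Fr {G : SimpleGraph V} {A : Set V} (P : Pack G A) (α : C →* Equiv.Perm V) : Prop :=
  ∀ x n, n = 2 ∨ n = 3 → ∀ g, g ≠ 1 → ∀ z ∈ P.I x n, emap (α g) z ∈ P.I x n → z ∈ Bd G A n

/-- The action of the group ring on chains. -/
def act (α : C →* Equiv.Perm V) (r : RC C) (z : EA V) : EA V :=
  ∑ g : C, r.coeff g • emap (α g) z

/-- Ordered representatives of the orbits of nonempty cliques. -/
structure Frame (G : SimpleGraph V) (A : Set V) (α : C →* Equiv.Perm V) where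
  I : Type
  [finI : Fintype I]
  [decI : DecidableEq I]
  s : I → List V
  nodup : ∀ i, (s i).Nodup
  ne : ∀ i, s i ≠ []
  cl : ∀ i, IsCl G A (s i)
  rep : ∀ σ : Finset V, σ.Nonempty → ↑σ ⊆ A → G.IsClique (σ : Set V) →
    ∃! p : C × I, σ = (s p.2).toFinset.map (α p.1).toEmbedding

attribute [instance] Frame.finI Frame.decI

namespace Frame

variable {G : SimpleGraph V} {A : Set V} {α : C →* Equiv.Perm V} (F : Frame G A α)

def deg (i : F.I) : ℕ := (F.s i).length - 1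

def ev (x : F.I → RC C) : EA V := ∑ i, act α (x i) (wedge (F.s i))

/-- `D` is the matrix of the (non augmented) boundary. -/
def IsBd (D : Matrix F.I F.I (RC C)) : Prop :=
  ∀ j, F.ev (fun i => D i j) = if F.deg j = 0 then 0 else bd (wedge (F.s j))

/-- The columns of `Z` are the coordinates of the chains `z j`. -/
def IsCo {J : Type} (Z : Matrix F.I J (RC C)) (z : J → EA V) : Prop :=
  ∀ j, F.ev (fun i => Z i j) = z j

end Frame

/-- Pure cycles whose translates form a basis of the homology in degrees one and two. -/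
structure Adm (G : SimpleGraph V) (A : Set V) (α : C →* Equiv.Perm V) {J : Type} [Fintype J]
    (z : J → EA V) (dz : J → ℕ) : Prop where
  deg : ∀ j, dz j = 2 ∨ dz j = 3
  pure : ∀ j, ∃ y ∈ A, ∃ Γ : Subgroup (Gp G A), Γ ≤ Loop G A y ∧ HasE Γ ∧
    z j ∈ II G A Γ y (dz j)
  ind : ∀ n (μ : J → RC C), (∀ j, dz j ≠ n → μ j = 0) → ∑ j, act α (μ j) (z j) ∈ Bd G A n →
    ∀ j, μ j = 0
  span : ∀ n, n = 2 ∨ n = 3 → ∀ w ∈ Zy G A n, ∃ μ : J → RC C, (∀ j, dz j ≠ n → μ j = 0) ∧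
    w - ∑ j, act α (μ j) (z j) ∈ Bd G A n

/-- The torsion of the complex with cones on the family `z` is `τ` up to trivial units. -/
def ValF {G : SimpleGraph V} {A : Set V} {α : C →* Equiv.Perm V} (F : Frame G A α)
    (D : Matrix F.I F.I (RC C)) {J : Type} [Fintype J] [DecidableEq J]
    (Z : Matrix F.I J (RC C)) (dz : J → ℕ) (τ : RQ C) : Prop :=
  ∃ u, InU u ∧ IsTor (Sum.elim F.deg dz)
    ((Matrix.fromBlocks D Z 0 (0 : Matrix J J (RC C))).map (qq C)) (qq C u * τ)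

def Val (G : SimpleGraph V) (A : Set V) (α : C →* Equiv.Perm V) (τ : RQ C) : Prop :=
  ∃ (F : Frame G A α) (D : Matrix F.I F.I (RC C)) (J : Type) (_ : Fintype J)
    (_ : DecidableEq J) (z : J → EA V) (dz : J → ℕ) (Z : Matrix F.I J (RC C)),
    F.IsBd D ∧ Adm G A α z dz ∧ F.IsCo Z z ∧ ValF F D Z dz τ

/-! ### Lens values and covers -/

abbrev Cp (p : ℕ) : Type := Multiplicative (ZMod p)

def tp (p : ℕ) (k : ZMod p) : RC (Cp p) := MonoidAlgebra.single (Multiplicative.ofAdd k) 1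

def lens (p : ℕ) [NeZero p] (a b : (ZMod p)ˣ) : RQ (Cp p) :=
  qq (Cp p) ((tp p (a⁻¹ : (ZMod p)ˣ) - 1) * (tp p (b⁻¹ : (ZMod p)ˣ) - 1))

def cosum (p : ℕ) (a b : (ZMod p)ˣ) : ℝ :=
  2 * Real.cos (2 * Real.pi * ((a : ZMod p).val : ℝ) / p) +
    2 * Real.cos (2 * Real.pi * ((b : ZMod p).val : ℝ) / p)

/-- Deck transformations of a regular cover. -/
def deck (V : Type) {L : Type} [Group L] (ψ : C →* L) : C →* Equiv.Perm (V × L) where
  toFun g := Equiv.prodCongr (Equiv.refl V) (Equiv.mulRight (ψ g)⁻¹)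
  map_one' := by ext x <;> simp
  map_mul' g h := by ext x <;> simp [mul_assoc]

/-- The finite covers that unwrap exactly the site `x` have packs and lens torsion. -/
def Cov {G : SimpleGraph V} {A : Set V} (P : Pack G A) (x : P.X) (χ : P.Λ x → ℝ) : Prop :=
  ∀ (L : Type) [Group L] [Finite L] (ρ : Gp G A →* L), (∀ δ ∈ P.Λ x, ρ δ = 1 → δ = 1) →
    (∀ l, ∃ δ ∈ P.Λ x, ρ δ = l) → (∀ y, y ≠ x → ∀ δ ∈ P.Λ y, ρ δ = 1) →
    ∀ (p : ℕ) [NeZero p], 5 ≤ p → ∀ (δ : P.Λ x) (ψ : Cp p →* L), Function.Injective ψ →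
      ψ (Multiplicative.ofAdd 1) = ρ δ →
      ∃ Q : Pack (cov G (fun u w => ρ (gen G A u w)) L) (up A L), Fr Q (deck V ψ) ∧
        ∃ a b : (ZMod p)ˣ, χ δ = cosum p a b ∧
          Val (cov G (fun u w => ρ (gen G A u w)) L) (up A L) (deck V ψ) (lens p a b)

def ClassFn {L : Type} [Group L] (χ : L → ℝ) : Prop := ∀ g h, χ (h * g * h⁻¹) = χ g

/-- The site `x` is of type `(L, χ)`. -/
def SiteOf {G : SimpleGraph V} {A : Set V} (P : Pack G A) (x : P.X) (L : Type) [Group L]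
    (χ : L → ℝ) : Prop :=
  ∃ θ : P.Λ x ≃* L, Cov P x fun δ => χ (θ δ)

/-! ### Towers and systems -/

structure Lev (C : Type) [CommGroup C] where
  V : Type
  G : SimpleGraph V
  A : Set V
  α : C →* Equiv.Perm V

/-- Prepending a level. -/
def Lev.cons (L0 : Lev C) (L : ℕ → Lev C) : ℕ → Lev C
  | 0 => L0
  | n + 1 => L n

/-- A sequence of finer and finer covers of `X` with nerves `L n`. -/
structure IsTower {X : Type} [TopologicalSpace X] (β : C →* Equiv.Perm X) (L : ℕ → Lev C)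
    (c : ∀ n, (L (n + 1)).V → (L n).V) (K D O : ∀ n, (L n).V → Set X) : Prop where
  free : ∀ n, FreeAct (L n).G (L n).A (L n).α
  hom : ∀ n, IsHom (L (n + 1)).G (L (n + 1)).A (L n).G (L n).A (c n)
  eqv : ∀ n, Eqv (L (n + 1)).A (L (n + 1)).α (L n).α (c n)
  isOpen : ∀ n, ∀ v ∈ (L n).A, IsOpen (O n v)
  cover : ∀ n x, ∃ v ∈ (L n).A, x ∈ K n v
  KD : ∀ n, ∀ v ∈ (L n).A, K n v ⊆ D n v
  DO : ∀ n, ∀ v ∈ (L n).A, D n v ⊆ O n v
  nest : ∀ n, ∀ w ∈ (L (n + 1)).A, D (n + 1) w ⊆ D n (c n w)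
  adq : ∀ n, ∀ v ∈ (L n).A, ∀ w ∈ (L n).A, (O n v ∩ O n w).Nonempty → Adq (L n).G v w
  meet : ∀ n, ∀ v ∈ (L n).A, ∀ w ∈ (L n).A, Adq (L n).G v w → (K n v ∩ K n w).Nonempty
  mesh : ∀ U : Set (Set X), (∀ u ∈ U, IsOpen u) → (∀ x, ∃ u ∈ U, x ∈ u) →
    ∃ N, ∀ n, N ≤ n → ∀ v ∈ (L n).A, ∃ u ∈ U, K n v ⊆ u
  eK : ∀ n g, ∀ v ∈ (L n).A, K n ((L n).α g v) = β g '' K n v
  eO : ∀ n g, ∀ v ∈ (L n).A, O n ((L n).α g v) = β g '' O n v

/-- An interleaved system with control constant `T`. -/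
structure IsSys (T : ℕ) (L : ℕ → Lev C) (φ : ∀ i, (L (i + 1)).V → (L i).V)
    (c : ∀ i, (L (i + 2)).V → (L i).V) : Prop where
  free : ∀ i, FreeAct (L i).G (L i).A (L i).α
  hφ : ∀ i, IsHom (L (i + 1)).G (L (i + 1)).A (L i).G (L i).A (φ i)
  hc : ∀ i, IsHom (L (i + 2)).G (L (i + 2)).A (L i).G (L i).A (c i)
  eφ : ∀ i, Eqv (L (i + 1)).A (L (i + 1)).α (L i).α (φ i)
  ec : ∀ i, Eqv (L (i + 2)).A (L (i + 2)).α (L i).α (c i)
  ball : ∀ i, ∀ a ∈ (L (i + 1)).A, ∀ b ∈ (L (i + 1)).A, Near (L (i + 1)).G (L (i + 1)).A T a b →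
    Adq (L i).G (φ i a) (φ i b)
  sc : ∀ i, ∀ a ∈ (L (i + 2)).A, ∀ b ∈ (L (i + 2)).A, Near (L (i + 2)).G (L (i + 2)).A T a b →
    Adq (L i).G (c i a) (φ i (φ (i + 1) b))

/-- The control constant. -/
def T0 : ℕ := 3 ^ 120

/-- The trivial group. -/
abbrev C1 : Type := Unit

/-- One doubling step. -/
inductive IsDouble : (L' L : Lev C1) → (L'.V → L.V) → Prop
  | mk {U : Type} (G : SimpleGraph U) (A M A' : Set U) (v : U) (f : U → U)
      (h : Graft G A M A' v) (hf : IsIso G M G A f) :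
      IsDouble ⟨U, G, A', 1⟩ ⟨U, G, A, 1⟩ (col A v)

end

end Pool.Agent.MP_6374aa_gt

end

section

/-! Walls of a right-angled Coxeter group and the doubling construction. -/

namespace Pool.Agent.MP_6374aa_gt

open Classical

noncomputable section

variable {V : Type} (Γ : SimpleGraph V)

def sg (v : V) : W Γ := PresentedGroup.of v

def len (w : W Γ) : ℕ := (cay Γ).dist 1 w

variable {Γ}

def IsRefl (t : W Γ) : Prop := ∃ w v, t = w * sg Γ v * w⁻¹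

/-- The wall `t` separates `w` from the identity. -/
def Plus (t w : W Γ) : Prop := len Γ (t * w) < len Γ w

def Inv (w : W Γ) : Set (W Γ) := {t | IsRefl t ∧ Plus t w}

variable (Γ) in
/-- The crossing graph. -/
def cross : SimpleGraph (W Γ) where
  Adj t u := t ≠ u ∧ t * u = u * t
  symm := ⟨fun _ _ h => ⟨h.1.symm, h.2.symm⟩⟩
  loopless := ⟨fun _ h => h.1 rfl⟩

/-- Bounding walls. -/
def bw (D : Set (W Γ)) : Set (W Γ) := {t | ∃ d ∈ D, ∃ v, d * sg Γ v ∉ D ∧ t = d * sg Γ v * d⁻¹}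

/-- All walls touching `D`. -/
def aw (D : Set (W Γ)) : Set (W Γ) := {t | ∃ d ∈ D, ∃ v, t = d * sg Γ v * d⁻¹}

def Good (D : Set (W Γ)) : Prop := D.Finite ∧ 1 ∈ D ∧ ∀ t ∈ bw D, ∀ d ∈ D, ¬ Plus t d

def dbl (D : Set (W Γ)) (H : W Γ) : Set (W Γ) := D ∪ (fun d => H * d) '' D

def mir (H : W Γ) (S : Set (W Γ)) : Set (W Γ) := (fun t => H * t * H) '' S

/-- The ray crosses the wall. -/
def Crosses (r : Ray Γ) (t : W Γ) : Prop := ∃ n, Plus t (r.1 n)

def REq (r s : Ray Γ) : Prop := ∃ C, ∀ n, (cay Γ).dist (r.1 n) (s.1 n) ≤ C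

def bmk (r : Ray Γ) : Bdry Γ := Quot.mk _ r

/-- The boundary points behind the wall `t`. -/
def shadow (t : W Γ) : Set (Bdry Γ) := {x | ∃ r, Crosses r t ∧ x = bmk r}

/-- An exhausting sequence of doublings. -/
structure DSeq (D : ℕ → Set (W Γ)) (H : ℕ → W Γ) : Prop where
  zero : D 0 = {1}
  good : ∀ k, Good (D k)
  mem : ∀ k, H k ∈ bw (D k)
  succ : ∀ k, D (k + 1) = dbl (D k) (H k)
  exh : ∀ R, ∃ k, ∀ w, len Γ w ≤ R → w ∈ D k

end

end Pool.Agent.MP_6374aa_gt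

end

section

/-! Length, reflections and inversion sets. -/

namespace Pool.Agent.MP_6374aa_gt

open Classical

variable {V : Type} {Γ : SimpleGraph V}

theorem sg_mul_self (v : V) : sg Γ v * sg Γ v = 1 := by
  rw [← sq]
  exact (map_pow (PresentedGroup.mk (rels Γ)) _ 2).symm.trans
    (PresentedGroup.one_of_mem (Or.inl ⟨v, rfl⟩))

theorem sg_inv_RA1 (v : V) : (sg Γ v)⁻¹ = sg Γ v := inv_eq_of_mul_eq_one_right (sg_mul_self v)

theorem sg_comm {u v : V} (h : Adq Γ u v) : sg Γ u * sg Γ v = sg Γ v * sg Γ u := by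
  rcases h with rfl | h
  · rfl
  have h1 : (sg Γ u * sg Γ v) ^ 2 = 1 :=
    PresentedGroup.one_of_mem (rels := rels Γ) (Or.inr ⟨u, v, h, rfl⟩)
  rw [sq] at h1
  rw [eq_inv_of_mul_eq_one_left h1, mul_inv_rev, sg_inv_RA1, sg_inv_RA1]

theorem lift_RA1 {H : Type} [Group H] (f : V → H) (h1 : ∀ v, f v * f v = 1)
    (h2 : ∀ u v, Γ.Adj u v → f u * f v = f v * f u) : ∃ φ : W Γ →* H, ∀ v, φ (sg Γ v) = f v := by
  refine ⟨PresentedGroup.toGroup (f := f) ?_, fun v => PresentedGroup.toGroup.of _⟩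
  rintro r (⟨v, rfl⟩ | ⟨u, v, h, rfl⟩)
  · simp [sq, h1]
  · simp only [sq, map_mul, FreeGroup.lift_apply_of]
    rw [mul_assoc, h2 u v h, ← mul_assoc (f v), h1, one_mul, h1]

theorem char_RA1 (u : V) : ∃ φ : W Γ →* ℤˣ, ∀ v, φ (sg Γ v) = if v = u then -1 else 1 :=
  lift_RA1 _ (fun _ => Int.units_mul_self _) fun _ _ _ => mul_comm _ _

theorem sg_conj_eq {u v : V} {w : W Γ} (h : w * sg Γ u * w⁻¹ = sg Γ v) : u = v := by
  obtain ⟨φ, hφ⟩ := char_RA1 (Γ := Γ) u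
  have h1 := congrArg φ h
  rw [map_mul, map_mul, map_inv, mul_inv_cancel_comm, hφ, hφ, if_pos rfl] at h1
  by_contra e
  rw [if_neg (Ne.symm e)] at h1
  exact absurd h1 (by decide)
theorem sg_injective : Function.Injective (sg Γ) := fun _ _ h =>
  sg_conj_eq (w := 1) (by rwa [one_mul, inv_one, mul_one])
theorem sg_ne_one (v : V) : sg Γ v ≠ 1 := fun h => by
  obtain ⟨φ, hφ⟩ := char_RA1 (Γ := Γ) v
  have h1 := hφ v
  rw [h, map_one, if_pos rfl] at h1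
  exact absurd h1 (by decide)
theorem cay_adj {g h : W Γ} : (cay Γ).Adj g h ↔ ∃ v, h = g * sg Γ v := by
  refine (SimpleGraph.fromRel_adj _ _ _).trans ⟨?_, ?_⟩
  · rintro ⟨-, h | ⟨v, rfl⟩⟩
    · exact h
    · exact ⟨v, ((mul_assoc _ _ _).trans ((congrArg _ (sg_mul_self v)).trans (mul_one _))).symm⟩
  · rintro ⟨v, rfl⟩
    exact ⟨fun e => sg_ne_one v (left_eq_mul.1 e), Or.inl ⟨v, rfl⟩⟩

theorem word_RA1 (w : W Γ) : ∃ l : List V, w = (l.map (sg Γ)).prod := by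
  have h : w ∈ Subgroup.closure (Set.range (sg Γ)) :=
    (PresentedGroup.closure_range_of (rels Γ)).ge (Subgroup.mem_top w)
  induction h using Subgroup.closure_induction_left with
  | one => exact ⟨[], rfl⟩
  | mul_left x hx y _ ih =>
    obtain ⟨v, rfl⟩ := hx
    obtain ⟨l, rfl⟩ := ih
    exact ⟨v :: l, rfl⟩
  | inv_mul_cancel x hx y _ ih =>
    obtain ⟨v, rfl⟩ := hx
    obtain ⟨l, rfl⟩ := ih
    exact ⟨v :: l, by rw [sg_inv_RA1]; rfl⟩

theorem walk_RA1 (l : List V) (g h : W Γ) (e : h = g * (l.map (sg Γ)).prod) :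
    ∃ p : (cay Γ).Walk g h, p.length = l.length := by
  induction l generalizing g with
  | nil => exact ⟨SimpleGraph.Walk.nil.copy rfl (by simp [e]), by simp⟩
  | cons v l ih =>
    obtain ⟨p, hp⟩ := ih (g * sg Γ v) (by simp [e, mul_assoc])
    exact ⟨p.cons (cay_adj.2 ⟨v, rfl⟩), by simp [hp]⟩

theorem list_RA1 {g h : W Γ} (p : (cay Γ).Walk g h) :
    ∃ l : List V, l.length = p.length ∧ h = g * (l.map (sg Γ)).prod := by
  induction p with
  | nil => exact ⟨[], rfl, by simp⟩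
  | cons a p ih =>
    obtain ⟨v, rfl⟩ := cay_adj.1 a
    obtain ⟨l, h1, h2⟩ := ih
    exact ⟨v :: l, by simp [h1], by simp [h2, mul_assoc]⟩

theorem ind_RA1 {P : W Γ → Prop} (g : W Γ) (h0 : P g) (h : ∀ w v, P w → P (w * sg Γ v))
    (w : W Γ) : P w := by
  obtain ⟨l, hl⟩ := word_RA1 (g⁻¹ * w)
  rw [← mul_inv_cancel_left g w, hl]
  clear hl
  induction l generalizing g with
  | nil => simpa using h0
  | cons v l ih => simpa [mul_assoc] using ih _ (h g v h0)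

theorem cay_connected : (cay Γ).Connected := by
  refine SimpleGraph.Connected.mk fun g h => ?_
  obtain ⟨l, hl⟩ := word_RA1 (g⁻¹ * h)
  exact (walk_RA1 l g h (by rw [← hl, mul_inv_cancel_left])).choose.reachable

theorem red_RA1 (g h : W Γ) :
    ∃ l : List V, l.length = (cay Γ).dist g h ∧ h = g * (l.map (sg Γ)).prod := by
  obtain ⟨p, hp⟩ := cay_connected.exists_walk_length_eq_dist g h
  exact hp ▸ list_RA1 p

theorem le_RA1 (l : List V) (g h : W Γ) (e : h = g * (l.map (sg Γ)).prod) :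
    (cay Γ).dist g h ≤ l.length := by
  obtain ⟨p, hp⟩ := walk_RA1 l g h e
  exact hp ▸ SimpleGraph.dist_le p

theorem cay_dist (g h : W Γ) : (cay Γ).dist g h = len Γ (g⁻¹ * h) := by
  obtain ⟨l, h1, h2⟩ := red_RA1 g h
  obtain ⟨m, h3, h4⟩ := red_RA1 1 (g⁻¹ * h)
  exact le_antisymm ((le_RA1 m g h (by rw [← one_mul (List.prod _), ← h4, mul_inv_cancel_left])).trans
    h3.le) (h1 ▸ le_RA1 l 1 _ (by rw [h2, inv_mul_cancel_left, one_mul]))
theorem len_eq_zero {w : W Γ} : len Γ w = 0 ↔ w = 1 := cay_connected.dist_eq_zero_iff.trans eq_comm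
theorem len_inv (w : W Γ) : len Γ w⁻¹ = len Γ w := by
  rw [← mul_one w⁻¹, ← cay_dist, SimpleGraph.dist_comm, len]
theorem len_mul_le (u w : W Γ) : len Γ (u * w) ≤ len Γ u + len Γ w := by
  have h := cay_connected.dist_triangle (u := 1) (v := u) (w := u * w)
  rwa [cay_dist u, inv_mul_cancel_left] at h
theorem len_sg (v : V) : len Γ (sg Γ v) = 1 :=
  SimpleGraph.dist_eq_one_iff_adj.2 (cay_adj.2 ⟨v, (one_mul _).symm⟩)
theorem exists_descent {w : W Γ} (h : w ≠ 1) :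
    ∃ w' v, w = w' * sg Γ v ∧ len Γ w = len Γ w' + 1 := by
  obtain ⟨l, h1, h2⟩ := red_RA1 1 w
  rcases l.eq_nil_or_concat' with rfl | ⟨m, v, rfl⟩
  · exact absurd (by simpa using h2) h
  have h3 : w = (m.map (sg Γ)).prod * sg Γ v := by simpa using h2
  have h4 := le_RA1 (Γ := Γ) m 1 _ (one_mul _).symm
  have h5 := len_mul_le (m.map (sg Γ)).prod (sg Γ v)
  rw [← h3, len_sg] at h5
  rw [List.length_append, List.length_singleton] at h1
  exact ⟨_, v, h3, le_antisymm h5 ((Nat.succ_le_succ h4).trans h1.le)⟩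

theorem desc_RA1 {P : W Γ → Prop} (h0 : P 1)
    (h : ∀ w v, len Γ (w * sg Γ v) = len Γ w + 1 → P w → P (w * sg Γ v)) (w : W Γ) : P w := by
  induction hn : len Γ w generalizing w with
  | zero => exact len_eq_zero.1 hn ▸ h0
  | succ n ih =>
    obtain ⟨w', v, rfl, h2⟩ := exists_descent (w := w) fun e => by
      rw [len_eq_zero.2 e] at hn
      omega
    exact h w' v h2 (ih w' (by omega))

theorem coc_RA1 : ∃ n : W Γ → W Γ → Prop, (∀ t, ¬ n 1 t) ∧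
    ∀ w v t, n (w * sg Γ v) t ↔ (n w t ↔ t ≠ w * sg Γ v * w⁻¹) := by
  have e : ∀ (v : V) (t u : W Γ), sg Γ v * t * (sg Γ v)⁻¹ = u ↔ t = sg Γ v * u * (sg Γ v)⁻¹ :=
    fun v t u => by rw [mul_inv_eq_iff_eq_mul, ← eq_inv_mul_iff_mul_eq, sg_inv_RA1, mul_assoc]
  obtain ⟨φ, hφ⟩ := lift_RA1 (Γ := Γ) (H := Equiv.Perm (W Γ × Prop))
    (fun v => Function.Involutive.toPerm
      (fun x => (sg Γ v * x.1 * (sg Γ v)⁻¹, (x.2 ↔ x.1 ≠ sg Γ v))) fun x =>
        Prod.ext ((e _ _ _).2 rfl) (by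
          simp only [Ne, e, mul_inv_cancel_right, eq_iff_iff]
          tauto))
    (fun v => Equiv.ext fun x => by
      rw [Equiv.Perm.mul_apply]
      exact Function.Involutive.toPerm_involutive _ x) fun u v h => by
      have h1 := sg_comm (Or.inr h)
      refine Equiv.ext fun x => Prod.ext ?_ ?_
      · simp only [Equiv.Perm.mul_apply, Function.Involutive.coe_toPerm, ← mul_assoc, h1]
        rw [mul_assoc, ← mul_inv_rev, mul_assoc _ _⁻¹, ← mul_inv_rev, h1]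
      · simp only [Equiv.Perm.mul_apply, Function.Involutive.coe_toPerm, Ne, e, eq_iff_iff]
        rw [← h1, mul_inv_cancel_right, h1, mul_inv_cancel_right]
        tauto
  have h1 : ∀ w t, (φ w⁻¹ (t, False)).1 = w⁻¹ * t * w := fun w t => by
    refine ind_RA1 (P := fun w => (φ w⁻¹ (t, False)).1 = w⁻¹ * t * w) 1 (by simp)
      (fun w v h => ?_) w
    rw [mul_inv_rev, sg_inv_RA1, map_mul, hφ, Equiv.Perm.mul_apply,
      Function.Involutive.coe_toPerm, h, sg_inv_RA1]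
    simp only [mul_assoc]
  refine ⟨fun w t => (φ w⁻¹ (t, False)).2, fun t => by simp, fun w v t => ?_⟩
  beta_reduce
  rw [mul_inv_rev, sg_inv_RA1, map_mul, hφ, Equiv.Perm.mul_apply,
    Function.Involutive.coe_toPerm, h1, Ne, Ne, eq_mul_inv_iff_mul_eq, mul_assoc w⁻¹,
    inv_mul_eq_iff_eq_mul]

theorem plus_RA1 : ∃ n : W Γ → W Γ → Prop,
    (∀ w v t, n (w * sg Γ v) t ↔ (n w t ↔ t ≠ w * sg Γ v * w⁻¹)) ∧
    ∀ t, IsRefl t → ∀ w, (n (t * w) t ↔ ¬ n w t) ∧ (Plus t w ↔ n w t) := by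
  obtain ⟨n, h0, h1⟩ := coc_RA1 (Γ := Γ)
  have h2 : ∀ t w, n w t → Plus t w := fun t => desc_RA1 (fun h => (h0 t h).elim)
    fun w v h ih h3 => by
      rw [Plus, h]
      by_cases e : t = w * sg Γ v * w⁻¹
      · rw [e, mul_assoc, inv_mul_cancel_left, mul_assoc, sg_mul_self, mul_one]
        exact Nat.lt_succ_self _
      · have h4 := len_mul_le (t * w) (sg Γ v)
        rw [len_sg, mul_assoc] at h4
        exact h4.trans_lt (Nat.succ_lt_succ (ih (((h1 w v t).1 h3).2 e)))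
  refine ⟨n, h1, ?_⟩
  rintro t ⟨g, u, ht⟩ w
  have h3 : ∀ w, n (t * w) t ↔ ¬ n w t := ind_RA1 g
    (by rw [show t * g = g * sg Γ u by rw [ht, inv_mul_cancel_right], h1, ← ht]; tauto)
    fun w v h => by
      have e : t = t * w * sg Γ v * (t * w)⁻¹ ↔ t = w * sg Γ v * w⁻¹ := by
        rw [eq_mul_inv_iff_mul_eq, mul_assoc t w, mul_right_inj, eq_mul_inv_iff_mul_eq]
      rw [← mul_assoc, h1, h1, h, Ne, Ne, e]
      tauto
  refine ⟨h3 w, fun h => by_contra fun h4 => ?_, h2 t w⟩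
  have h5 := h2 t _ ((h3 w).2 h4)
  rw [Plus, ← mul_assoc, show t * t = 1 by rw [ht, conj_mul, sg_mul_self, mul_one, mul_inv_cancel],
    one_mul] at h5
  exact lt_asymm h h5

theorem len_mul_sg (w : W Γ) (v : V) :
    len Γ (w * sg Γ v) = len Γ w + 1 ∨ len Γ (w * sg Γ v) + 1 = len Γ w := by
  obtain ⟨n, -, h⟩ := plus_RA1 (Γ := Γ)
  have h1 := len_mul_le w (sg Γ v)
  have h2 := len_mul_le (w * sg Γ v) (sg Γ v)
  have h3 := h _ ⟨w, v, rfl⟩
  have h4 := (h3 _).2.trans ((h3 w).1.trans (h3 w).2.not.symm)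
  rw [Plus, Plus, inv_mul_cancel_right, mul_assoc _ w⁻¹, inv_mul_cancel_left] at h4
  rw [mul_assoc, sg_mul_self, mul_one] at h2 h4
  rw [len_sg] at h1 h2
  omega
theorem finite_ball [Finite V] (R : ℕ) : {w : W Γ | len Γ w ≤ R}.Finite :=
  ((List.finite_length_le V R).image fun l => (l.map (sg Γ)).prod).subset fun w hw => by
    obtain ⟨l, h1, h2⟩ := red_RA1 1 w
    exact ⟨l, h1.le.trans hw, (h2.trans (one_mul _)).symm⟩
theorem IsRefl.mul_self {t : W Γ} (h : IsRefl t) : t * t = 1 := by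
  obtain ⟨g, u, rfl⟩ := h
  rw [conj_mul, sg_mul_self, mul_one, mul_inv_cancel]
theorem IsRefl.conj {t : W Γ} (h : IsRefl t) (g : W Γ) : IsRefl (g * t * g⁻¹) := by
  obtain ⟨w, u, rfl⟩ := h
  exact ⟨g * w, u, by simp only [mul_inv_rev, mul_assoc]⟩
theorem not_plus_one (t : W Γ) : ¬ Plus t 1 := by
  rw [Plus, len_eq_zero.2 rfl]
  exact Nat.not_lt_zero _
/-- Crossing an edge changes the side of exactly one wall. -/
theorem plus_mul_sg {t : W Γ} (ht : IsRefl t) (w : W Γ) (v : V) :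
    Plus t (w * sg Γ v) ↔ (Plus t w ↔ t ≠ w * sg Γ v * w⁻¹) := by
  obtain ⟨n, h1, h⟩ := plus_RA1 (Γ := Γ)
  rw [(h t ht _).2, (h t ht _).2, h1]
theorem plus_mul_self {t : W Γ} (ht : IsRefl t) (w : W Γ) : Plus t (t * w) ↔ ¬ Plus t w := by
  obtain ⟨n, -, h⟩ := plus_RA1 (Γ := Γ)
  rw [(h t ht _).2, (h t ht _).2, (h t ht _).1]
theorem plus_conj {t : W Γ} (ht : IsRefl t) (g w : W Γ) :
    Plus (g * t * g⁻¹) (g * w) ↔ (Plus t w ↔ ¬ Plus t g⁻¹) := by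
  refine ind_RA1 (P := fun w => Plus (g * t * g⁻¹) (g * w) ↔ (Plus t w ↔ ¬ Plus t g⁻¹)) g⁻¹
    (by simp [not_plus_one]) (fun w v h => ?_) w
  have e : g * t * g⁻¹ = g * w * sg Γ v * (g * w)⁻¹ ↔ t = w * sg Γ v * w⁻¹ := by
    simp only [mul_inv_rev, ← mul_assoc, mul_left_inj]
    simp only [mul_assoc, mul_right_inj]
  rw [← mul_assoc g w, plus_mul_sg (ht.conj g), plus_mul_sg ht, h, Ne, Ne, e]
  tauto

theorem inv_RA1 (w : W Γ) : (Inv w).Finite ∧ (Inv w).ncard = len Γ w := by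
  refine desc_RA1 (P := fun w => (Inv w).Finite ∧ (Inv w).ncard = len Γ w) ?_ (fun w v h ih => ?_) w
  · rw [show Inv (1 : W Γ) = ∅ from Set.eq_empty_of_forall_notMem fun t h => not_plus_one t h.2]
    simp [len_eq_zero.2]
  have h1 : ¬ Plus (w * sg Γ v * w⁻¹) w := by
    rw [Plus, inv_mul_cancel_right]
    omega
  have h2 : Inv (w * sg Γ v) = insert (w * sg Γ v * w⁻¹) (Inv w) := by
    ext t
    refine ⟨fun ht => or_iff_not_imp_left.2 fun e => ⟨ht.1, ((plus_mul_sg ht.1 w v).1 ht.2).2 e⟩, ?_⟩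
    rintro (rfl | ht)
    · exact ⟨⟨w, v, rfl⟩, (plus_mul_sg ⟨w, v, rfl⟩ w v).2 (iff_of_false h1 fun e => e rfl)⟩
    · exact ⟨ht.1, (plus_mul_sg ht.1 w v).2 (iff_of_true ht.2 fun e => h1 (e ▸ ht.2))⟩
  rw [h2, Set.ncard_insert_of_notMem (fun h => h1 h.2) ih.1, ih.2, h]
  exact ⟨ih.1.insert _, rfl⟩

theorem finite_Inv (w : W Γ) : (Inv w).Finite := (inv_RA1 w).1
theorem ncard_Inv (w : W Γ) : (Inv w).ncard = len Γ w := (inv_RA1 w).2
theorem dist_eq_ncard (u w : W Γ) :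
    (cay Γ).dist u w = (Inv u \ Inv w).ncard + (Inv w \ Inv u).ncard := by
  rw [cay_dist, ← ncard_Inv, ← Set.ncard_union_eq disjoint_sdiff_sdiff (finite_Inv u).sdiff
    (finite_Inv w).sdiff, ← Set.ncard_image_of_injective (_ ∪ _) (MulAut.conj u⁻¹).injective]
  congr 1
  ext t
  obtain ⟨t, rfl⟩ := (MulAut.conj u⁻¹).surjective t
  rw [(MulAut.conj u⁻¹).injective.mem_set_image, MulAut.conj_apply]
  by_cases ht : IsRefl t
  · have h := plus_conj ht u⁻¹ w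
    have h1 := ht.conj u⁻¹
    rw [inv_inv] at h h1
    simp only [Inv, Set.mem_union, Set.mem_sdiff, Set.mem_ofPred_eq, inv_inv, h, h1, ht]
    tauto
  · exact iff_of_false (fun h => ht (by simpa [mul_assoc] using h.1.conj u))
      fun h => h.elim (fun h => ht h.1.1) fun h => ht h.1.1

end Pool.Agent.MP_6374aa_gt

end

section

/-! Descents, centralisers, quadrants and gates. -/

namespace Pool.Agent.MP_6374aa_gt

open Classical

variable {V : Type} {Γ : SimpleGraph V}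

theorem hom_RA2 {a b : V} (h : ¬ Adq Γ a b) : ∃ φ : W Γ →* DihedralGroup 0,
    φ (sg Γ a) = .sr 0 ∧ φ (sg Γ b) = .sr 1 := by
  have hab : a ≠ b := fun e => h (Or.inl e)
  let f : V → DihedralGroup 0 := fun v => if v = a then .sr 0 else if v = b then .sr 1 else 1
  have h2 : ∀ v, f v ^ 2 = 1 := fun v => by
    simp only [f, sq]
    split_ifs <;> simp
  have h3 : ∀ v, v ≠ a → v ≠ b → f v = 1 := fun v h1 h2 => by simp [f, h1, h2]
  refine ⟨PresentedGroup.toGroup (f := f) ?_, ?_, ?_⟩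
  · rintro r (⟨v, rfl⟩ | ⟨u, v, huv, rfl⟩)
    · simpa using h2 v
    · rw [map_pow, map_mul, FreeGroup.lift_apply_of, FreeGroup.lift_apply_of]
      by_cases hu : u ≠ a ∧ u ≠ b
      · rw [h3 u hu.1 hu.2, one_mul, h2]
      by_cases hv : v ≠ a ∧ v ≠ b
      · rw [h3 v hv.1 hv.2, mul_one, h2]
      exfalso
      rw [not_and_or, not_not, not_not] at hu hv
      rcases hu with rfl | rfl <;> rcases hv with rfl | rfl
      · exact huv.ne rfl
      · exact h (Or.inr huv)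
      · exact h (Or.inr huv.symm)
      · exact huv.ne rfl
  · simp [sg, f]
  · simp [sg, f, hab.symm]

theorem refl_RA2 (w : W Γ) (v : V) : IsRefl (w * sg Γ v * w⁻¹) := ⟨w, v, rfl⟩

theorem step_RA2 {t w : W Γ} {v : V} (ht : IsRefl t) (h : t ≠ w * sg Γ v * w⁻¹) :
    Plus t (w * sg Γ v) ↔ Plus t w := by
  rw [plus_mul_sg ht]
  tauto

theorem desc_RA2 {w : W Γ} {v : V} :
    Plus (w * sg Γ v * w⁻¹) w ↔ len Γ (w * sg Γ v) < len Γ w := by
  rw [Plus, inv_mul_cancel_right]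

theorem symm_RA2 {a b : V} (h : Adq Γ a b) : Adq Γ b a := h.imp Eq.symm fun h => h.symm

theorem line_RA2 {w : W Γ} {a b : V} (h : ¬ Adq Γ a b) (ha : len Γ (w * sg Γ a) < len Γ w)
    (k : ℕ) : Plus (w * sg Γ a * w⁻¹) (w * (sg Γ b * sg Γ a) ^ k) ∧
      Plus (w * sg Γ a * w⁻¹) (w * (sg Γ b * sg Γ a) ^ k * sg Γ b) := by
  obtain ⟨φ, h1, h2⟩ := hom_RA2 h
  have A : ∀ z : W Γ, Plus (w * sg Γ a * w⁻¹) (w * z) → Plus (w * sg Γ a * w⁻¹) (w * z * sg Γ b) :=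
    fun z hz => (step_RA2 (refl_RA2 _ _) fun e => h (Or.inl (sg_conj_eq (w := z) (by
      apply mul_left_cancel (a := w)
      apply mul_right_cancel (b := w⁻¹)
      rw [e]
      group)).symm)).2 hz
  suffices H : Plus (w * sg Γ a * w⁻¹) (w * (sg Γ b * sg Γ a) ^ k) from ⟨H, A _ H⟩
  induction k with
  | zero => simpa using desc_RA2.2 ha
  | succ k ih =>
    rw [pow_succ, ← mul_assoc, ← mul_assoc]
    refine (step_RA2 (refl_RA2 _ _) fun e => ?_).2 (A _ ih)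
    have e1 : sg Γ a * ((sg Γ b * sg Γ a) ^ k * sg Γ b) =
        (sg Γ b * sg Γ a) ^ k * sg Γ b * sg Γ a := by
      apply mul_left_cancel (a := w)
      have := congrArg (· * (w * (sg Γ b * sg Γ a) ^ k * sg Γ b)) e
      simpa only [mul_assoc, inv_mul_cancel_left, inv_mul_cancel, mul_one] using this
    have e2 := congrArg φ e1
    simp only [map_mul, map_pow, h1, h2, DihedralGroup.sr_mul_sr, DihedralGroup.r_pow,
      DihedralGroup.r_mul_sr, DihedralGroup.r.injEq] at e2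
    have e3 : (1 : ℤ) - (0 - 1) * k - 0 = 0 - (1 - (0 - 1) * k) := e2
    omega

theorem short_RA2 {w : W Γ} {a b : V} (h : ¬ Adq Γ a b) (ha : len Γ (w * sg Γ a) < len Γ w)
    {n : ℕ} (H : ∀ k, n ≤ len Γ (w * (sg Γ a * sg Γ b) ^ k) ∧
      n ≤ len Γ (w * (sg Γ a * sg Γ b) ^ k * sg Γ a)) (k : ℕ) :
    n + 1 ≤ len Γ (w * (sg Γ b * sg Γ a) ^ k) ∧
      n + 1 ≤ len Γ (w * (sg Γ b * sg Γ a) ^ k * sg Γ b) := by
  obtain ⟨h1, h2⟩ := line_RA2 h ha k
  have e : sg Γ a * (sg Γ b * sg Γ a) ^ k = (sg Γ a * sg Γ b) ^ k * sg Γ a :=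
    SemiconjBy.pow_right (a := sg Γ a) (x := sg Γ b * sg Γ a) (mul_assoc _ _ _).symm k
  have e1 : w * sg Γ a * w⁻¹ * (w * (sg Γ b * sg Γ a) ^ k) =
      w * (sg Γ a * sg Γ b) ^ k * sg Γ a := by
    rw [mul_assoc, inv_mul_cancel_left, mul_assoc, e, mul_assoc]
  rw [Plus, e1] at h1
  rw [Plus, ← mul_assoc, e1, mul_assoc, mul_assoc, ← pow_succ] at h2
  exact ⟨(H k).2.trans_lt h1, (H (k + 1)).1.trans_lt h2⟩

theorem adq_of_descents {w : W Γ} {a b : V} (ha : len Γ (w * sg Γ a) < len Γ w)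
    (hb : len Γ (w * sg Γ b) < len Γ w) : Adq Γ a b := by
  by_contra h
  have key : ∀ n : ℕ, (∀ k, n ≤ len Γ (w * (sg Γ a * sg Γ b) ^ k) ∧
      n ≤ len Γ (w * (sg Γ a * sg Γ b) ^ k * sg Γ a)) ∧
      ∀ k, n ≤ len Γ (w * (sg Γ b * sg Γ a) ^ k) ∧
        n ≤ len Γ (w * (sg Γ b * sg Γ a) ^ k * sg Γ b) := fun n => by
    induction n with
    | zero => simp
    | succ n ih => exact ⟨short_RA2 (fun e => h (symm_RA2 e)) hb ih.2, short_RA2 h ha ih.1⟩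
  exact Nat.lt_irrefl _ ((key (len Γ (w * (sg Γ a * sg Γ b) ^ 0) + 1)).1 0).1

theorem adq_of_sg_comm {a b : V} (h : sg Γ a * sg Γ b = sg Γ b * sg Γ a) : Adq Γ a b := by
  by_contra hn
  obtain ⟨φ, h1, h2⟩ := hom_RA2 hn
  have e := congrArg φ h
  simp only [map_mul, h1, h2, DihedralGroup.sr_mul_sr, DihedralGroup.r.injEq] at e
  have e' : (1 : ℤ) - 0 = 0 - 1 := e
  omega

theorem mem_closure_of_comm {w : W Γ} {v : V} (h : w * sg Γ v * w⁻¹ = sg Γ v) :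
    w ∈ Subgroup.closure (sg Γ '' {u | Adq Γ v u}) := by
  induction hn : len Γ w using Nat.strong_induction_on generalizing w with
  | _ n ih =>
  subst hn
  have key : ∀ b, Adq Γ v b → len Γ (w * sg Γ b) < len Γ w →
      w ∈ Subgroup.closure (sg Γ '' {u | Adq Γ v u}) := fun b hb hl => by
    have h1 := ih _ hl (w := w * sg Γ b) (by
      rw [mul_assoc w, ← sg_comm hb, mul_inv_rev, mul_assoc, mul_assoc, mul_inv_cancel_left,
        ← mul_assoc, h]) rfl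
    have h2 := mul_mem h1 (Subgroup.subset_closure ⟨b, hb, rfl⟩)
    rwa [mul_assoc, sg_mul_self, mul_one] at h2
  rcases len_mul_sg w v with h1 | h1
  swap
  · exact key v (Or.inl rfl) (by omega)
  by_cases h0 : w = 1
  · exact h0 ▸ one_mem _
  obtain ⟨w', b, e, hl⟩ := exists_descent h0
  have e1 : w * sg Γ b = w' := by rw [e, mul_assoc, sg_mul_self, mul_one]
  refine key b (adq_of_descents (w := w * sg Γ v) ?_ ?_) (by rw [e1]; omega)
  · rw [mul_assoc, sg_mul_self, mul_one]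
    omega
  · have h2 := len_mul_le (sg Γ v) w'
    rw [len_sg] at h2
    rw [show w * sg Γ v * sg Γ b = sg Γ v * w' by
      rw [← e1, ← mul_assoc, mul_inv_eq_iff_eq_mul.1 h]]
    omega

theorem plus_mul_of_comm {t u : W Γ} (ht : IsRefl t) (hu : IsRefl u) (h : (cross Γ).Adj t u)
    (w : W Γ) : Plus t (u * w) ↔ Plus t w := by
  have hi : u⁻¹ = u := inv_eq_of_mul_eq_one_right hu.mul_self
  have key : ∀ w, Plus t (u * w) ↔ (Plus t w ↔ ¬ Plus t u) := fun w => by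
    have := plus_conj ht u w
    rwa [← h.2, mul_inv_cancel_right, hi] at this
  obtain ⟨g, v, e⟩ := hu
  have h1 := key g
  rw [show u * g = g * sg Γ v by rw [e, inv_mul_cancel_right], step_RA2 ht (e ▸ h.1)] at h1
  rw [key]
  tauto

theorem exists_quadrant {t u : W Γ} (ht : IsRefl t) (hu : IsRefl u) (h : (cross Γ).Adj t u)
    (p q : Prop) : ∃ w, (Plus t w ↔ p) ∧ (Plus u w ↔ q) := by
  have a0 := not_plus_one t
  have b0 := not_plus_one u
  have a1 := plus_mul_self ht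
  have b1 := plus_mul_self hu
  have a2 := plus_mul_of_comm ht hu h
  have b2 := plus_mul_of_comm hu ht h.symm
  by_cases hp : p <;> by_cases hq : q
  · exact ⟨t * (u * 1), by simp only [a1, a2, a0, hp, not_false_iff],
      by simp only [b1, b2, b0, hq, not_false_iff]⟩
  · exact ⟨t * 1, by simp only [a1, a0, hp, not_false_iff], by simp only [b2, b0, hq]⟩
  · exact ⟨u * 1, by simp only [a2, a0, hp], by simp only [b1, b0, hq, not_false_iff]⟩
  · exact ⟨1, by simp only [a0, hp], by simp only [b0, hq]⟩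

theorem sep_RA2 {x y : W Γ} (h : x ≠ y) : ∃ v, len Γ (x⁻¹ * (y * sg Γ v)) < len Γ (x⁻¹ * y) ∧
    (Plus (y * sg Γ v * y⁻¹) y ↔ ¬ Plus (y * sg Γ v * y⁻¹) x) := by
  obtain ⟨z, v, e, hl⟩ := exists_descent (w := x⁻¹ * y) fun e => h (inv_mul_eq_one.1 e)
  have h1 : len Γ (x⁻¹ * (y * sg Γ v)) < len Γ (x⁻¹ * y) := by
    rw [← mul_assoc, hl, e, mul_assoc, sg_mul_self, mul_one]
    omega
  refine ⟨v, h1, ?_⟩
  have h2 := plus_conj (refl_RA2 (Γ := Γ) y v) x⁻¹ y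
  rw [inv_inv] at h2
  rw [← h2, Plus]
  convert h1 using 2
  group

theorem below_RA2 {x y : W Γ} (hs : Inv x ⊆ Inv y) (h : x ≠ y) :
    ∃ v, len Γ (x⁻¹ * (y * sg Γ v)) < len Γ (x⁻¹ * y) ∧ len Γ (y * sg Γ v) < len Γ y ∧
      Inv x ⊆ Inv (y * sg Γ v) := by
  obtain ⟨v, h1, h2⟩ := sep_RA2 h
  have h3 : ¬ Plus (y * sg Γ v * y⁻¹) x := fun h3 => h2.1 (hs ⟨refl_RA2 _ _, h3⟩).2 h3
  exact ⟨v, h1, desc_RA2.1 (h2.2 h3), fun t ht =>
    ⟨ht.1, (step_RA2 ht.1 fun e => h3 (e ▸ ht.2)).2 (hs ht).2⟩⟩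

theorem down_RA2 {m y : W Γ} {v : V} (hs : Inv m ⊆ Inv y) (h : Plus (y * sg Γ v * y⁻¹) m) :
    y * sg Γ v * y⁻¹ = m * sg Γ v * m⁻¹ := by
  induction hn : len Γ (m⁻¹ * y) using Nat.strong_induction_on generalizing y with
  | _ n ih =>
  subst hn
  by_cases h0 : m = y
  · rw [h0]
  obtain ⟨b, h1, h2, h3⟩ := below_RA2 hs h0
  have h4 := sg_comm (adq_of_descents (desc_RA2.1 (hs ⟨refl_RA2 _ _, h⟩).2) h2)
  have e : y * sg Γ v * y⁻¹ = y * sg Γ b * sg Γ v * (y * sg Γ b)⁻¹ := by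
    rw [mul_assoc y (sg Γ b), ← h4]
    group
  rw [e] at h ⊢
  exact ih _ h1 h3 h rfl

theorem meet_RA2 (x y : W Γ) : ∃ m, ∀ t, IsRefl t → (Plus t m ↔ Plus t x ∧ Plus t y) := by
  induction hn : len Γ (x⁻¹ * y) using Nat.strong_induction_on generalizing y with
  | _ n ih =>
  subst hn
  by_cases h0 : x = y
  · exact ⟨x, fun t _ => by rw [← h0, and_self]⟩
  obtain ⟨v, h1, h2⟩ := sep_RA2 h0
  obtain ⟨m, hm⟩ := ih _ h1 _ rfl
  by_cases h3 : Plus (y * sg Γ v * y⁻¹) x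
  · have h4 : ¬ Plus (y * sg Γ v * y⁻¹) y := fun h4 => h2.1 h4 h3
    have h5 : Plus (y * sg Γ v * y⁻¹) m := (hm _ (refl_RA2 _ _)).2 ⟨h3, by
      rw [plus_mul_sg (refl_RA2 _ _)]
      simpa using h4⟩
    have e : y * sg Γ v * sg Γ v * (y * sg Γ v)⁻¹ = y * sg Γ v * y⁻¹ := by group
    have h6 := down_RA2 (m := m) (y := y * sg Γ v) (v := v)
      (fun t ht => ⟨ht.1, ((hm t ht.1).1 ht.2).2⟩) (e ▸ h5)
    rw [e] at h6
    refine ⟨m * sg Γ v, fun t ht => ?_⟩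
    by_cases h7 : t = y * sg Γ v * y⁻¹
    · rw [plus_mul_sg ht, ← h6, h7]
      tauto
    · rw [step_RA2 ht (h6 ▸ h7), hm t ht, step_RA2 ht h7]
  · refine ⟨m, fun t ht => ?_⟩
    by_cases h7 : t = y * sg Γ v * y⁻¹
    · rw [hm t ht, h7]
      tauto
    · rw [hm t ht, step_RA2 ht h7]

theorem min_RA2 {p : W Γ → Prop} (h : ∃ w, p w) : ∃ w, p w ∧ ∀ z, p z → len Γ w ≤ len Γ z :=
  ⟨_, Function.argminOn_mem (len Γ) {w | p w} h, fun _ hz =>
    Function.argminOn_le (len Γ) {w | p w} hz⟩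

theorem wall_RA2 {t u w x : W Γ} (ht : IsRefl t) (hu : IsRefl u) (h1 : Plus t w) (h2 : Plus u w)
    (hw : ∀ z, Plus t z → Plus u z → len Γ w ≤ len Γ z) (h3 : Plus t x) (h4 : ¬ Plus u x) :
    ∃ v, u = w * sg Γ v * w⁻¹ := by
  obtain ⟨m, hm⟩ := meet_RA2 x w
  obtain ⟨v, -, a1, a2⟩ := below_RA2 (x := m) (y := w) (fun s hs => ⟨hs.1, ((hm s hs.1).1 hs.2).2⟩)
    fun e => h4 ((hm u hu).1 (e ▸ h2)).1
  refine ⟨v, by_contra fun e => ?_⟩
  exact a1.not_ge (hw _ (a2 ⟨ht, (hm t ht).2 ⟨h3, h1⟩⟩).2 ((step_RA2 hu e).2 h2))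

/-- If all four quadrants are inhabited the walls cross. -/
theorem cross_of_quadrants {t u : W Γ} (ht : IsRefl t) (hu : IsRefl u)
    (h1 : ∃ w, Plus t w ∧ Plus u w) (h2 : ∃ w, Plus t w ∧ ¬ Plus u w)
    (h3 : ∃ w, ¬ Plus t w ∧ Plus u w) : (cross Γ).Adj t u := by
  obtain ⟨w, ⟨a1, a2⟩, hw⟩ := min_RA2 h1
  obtain ⟨x, b1, b2⟩ := h2
  obtain ⟨y, c1, c2⟩ := h3
  obtain ⟨v, rfl⟩ := wall_RA2 ht hu a1 a2 (fun z e1 e2 => hw z ⟨e1, e2⟩) b1 b2
  obtain ⟨v', rfl⟩ := wall_RA2 hu ht a2 a1 (fun z e1 e2 => hw z ⟨e2, e1⟩) c2 c1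
  refine ⟨fun e => b2 (e ▸ b1), ?_⟩
  have h4 := sg_comm (adq_of_descents (desc_RA2.1 a1) (desc_RA2.1 a2))
  calc _ = w * (sg Γ v' * sg Γ v) * w⁻¹ := by group
    _ = _ := by rw [h4]; group

/-- The gate of a half-space. -/
theorem exists_gate {t : W Γ} (ht : IsRefl t) :
    ∃ g, Plus t g ∧ ∀ w, Plus t w → len Γ w = len Γ g + (cay Γ).dist g w := by
  obtain ⟨g, h1, hg⟩ := min_RA2 ⟨t * 1, (plus_mul_self ht 1).2 (not_plus_one t)⟩
  refine ⟨g, h1, fun w hw => ?_⟩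
  obtain ⟨m, hm⟩ := meet_RA2 g w
  have e : Inv m = Inv g := Set.eq_of_subset_of_ncard_le
    (fun s hs => ⟨hs.1, ((hm s hs.1).1 hs.2).1⟩)
    (by rw [ncard_Inv, ncard_Inv]; exact hg m ((hm t ht).2 ⟨h1, hw⟩)) (finite_Inv g)
  have hs : Inv g ⊆ Inv w := e ▸ fun s hs => ⟨hs.1, ((hm s hs.1).1 hs.2).2⟩
  rw [dist_eq_ncard, Set.sdiff_eq_empty.2 hs, Set.ncard_empty, zero_add, ← ncard_Inv, ← ncard_Inv,
    ← Set.ncard_sdiff_add_ncard_of_subset hs (finite_Inv w), add_comm]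

theorem exists_ascent (h : ∃ a b, ¬ Adq Γ a b) (w : W Γ) :
    ∃ v, len Γ (w * sg Γ v) = len Γ w + 1 := by
  obtain ⟨a, b, h⟩ := h
  rcases len_mul_sg w a with h1 | h1
  · exact ⟨a, h1⟩
  rcases len_mul_sg w b with h2 | h2
  · exact ⟨b, h2⟩
  exact absurd (adq_of_descents (w := w) (by omega) (by omega)) h

end Pool.Agent.MP_6374aa_gt

end

section

/-! The doubling construction. -/

namespace Pool.Agent.MP_6374aa_gt

open Classical

variable {V : Type} {Γ : SimpleGraph V} {D : Set (W Γ)} {H : W Γ}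

theorem bw_sub_RA3 {t : W Γ} (h : t ∈ bw D) : t ∈ aw D := by
  obtain ⟨d, hd, v, -, rfl⟩ := h
  exact ⟨d, hd, v, rfl⟩

theorem refl_aw_RA3 {t : W Γ} (h : t ∈ aw D) : IsRefl t := by
  obtain ⟨d, -, v, rfl⟩ := h
  exact ⟨d, v, rfl⟩

theorem refl_bw_RA3 {t : W Γ} (h : t ∈ bw D) : IsRefl t := refl_aw_RA3 (bw_sub_RA3 h)

theorem plus_edge_RA3 (d : W Γ) (v : V) :
    Plus (d * sg Γ v * d⁻¹) (d * sg Γ v) ↔ ¬ Plus (d * sg Γ v * d⁻¹) d := by
  rw [plus_mul_sg ⟨d, v, rfl⟩]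
  simp

theorem plus_ne_RA3 {t d : W Γ} {v : V} (ht : IsRefl t) (h : t ≠ d * sg Γ v * d⁻¹) :
    Plus t (d * sg Γ v) ↔ Plus t d := by
  rw [plus_mul_sg ht]
  simp [h]

theorem inv_RA3 (hH : IsRefl H) : H⁻¹ = H := inv_eq_of_mul_eq_one_right hH.mul_self

theorem cancel_RA3 (hH : IsRefl H) (x : W Γ) : H * (H * x) = x := by
  rw [← mul_assoc, hH.mul_self, one_mul]

theorem mir_mir_RA3 (hH : IsRefl H) (x : W Γ) : H * (H * x * H) * H = x := by
  rw [mul_assoc H x, cancel_RA3 hH, mul_assoc, hH.mul_self, mul_one]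

theorem mir_self_RA3 (hH : IsRefl H) : H * H * H = H := by rw [hH.mul_self, one_mul]

theorem mir_inj_RA3 {x y : W Γ} (h : H * x * H = H * y * H) : x = y :=
  mul_left_cancel (mul_right_cancel h)

theorem mir_of_adq_RA3 (hH : IsRefl H) {x : W Γ} (h : Adq (cross Γ) x H) : H * x * H = x := by
  rcases h with rfl | h
  · exact mir_self_RA3 hH
  · have h1 : x * H = H * x := h.2
    rw [mul_assoc, h1, cancel_RA3 hH]

theorem mem_dbl_RA3 (hH : IsRefl H) {x : W Γ} : x ∈ dbl D H ↔ x ∈ D ∨ H * x ∈ D := by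
  refine or_congr Iff.rfl ⟨?_, fun h => ⟨_, h, cancel_RA3 hH x⟩⟩
  rintro ⟨d, hd, rfl⟩
  rwa [cancel_RA3 hH]

theorem mul_mem_dbl_RA3 (hH : IsRefl H) {x : W Γ} : H * x ∈ dbl D H ↔ x ∈ dbl D H := by
  rw [mem_dbl_RA3 hH, mem_dbl_RA3 hH, cancel_RA3 hH, or_comm]

theorem mir_edge_RA3 (hH : IsRefl H) (d : W Γ) (v : V) :
    H * (d * sg Γ v * d⁻¹) * H = H * d * sg Γ v * (H * d)⁻¹ := by
  rw [mul_inv_rev, inv_RA3 hH]
  simp only [mul_assoc]

theorem refl_mir_RA3 (hH : IsRefl H) {t : W Γ} (ht : IsRefl t) : IsRefl (H * t * H) := by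
  have := ht.conj H
  rwa [inv_RA3 hH] at this

theorem plus_mir_RA3 (hH : IsRefl H) {t : W Γ} (ht : IsRefl t) (w : W Γ) :
    Plus (H * t * H) w ↔ (Plus t (H * w) ↔ ¬ Plus t H) := by
  have := plus_conj ht H (H * w)
  rwa [inv_RA3 hH, cancel_RA3 hH] at this

theorem adq_of_plus_RA3 (hD : Good D) {t u : W Γ} (ht : t ∈ bw D) (hu : u ∈ bw D) {w : W Γ}
    (h1 : Plus t w) (h2 : Plus u w) : Adq (cross Γ) t u := by
  have key : ∀ {t u : W Γ}, t ∈ bw D → u ∈ bw D → u ≠ t → ∃ w, Plus t w ∧ ¬ Plus u w := by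
    intro t u ht hu hne
    have h3 := hD.2.2 t ht
    obtain ⟨d, hd, v, -, rfl⟩ := ht
    exact ⟨d * sg Γ v, (plus_edge_RA3 d v).2 (h3 d hd),
      fun h => hD.2.2 u hu d hd ((plus_ne_RA3 (refl_bw_RA3 hu) hne).1 h)⟩
  by_cases h : t = u
  · exact Or.inl h
  · obtain ⟨x, hx⟩ := key hu ht h
    exact Or.inr (cross_of_quadrants (refl_bw_RA3 ht) (refl_bw_RA3 hu) ⟨w, h1, h2⟩
      (key ht hu (Ne.symm h)) ⟨x, hx.2, hx.1⟩)

theorem not_plus_dbl_RA3 (hD : Good D) (hH : H ∈ bw D) {J : W Γ} (hJ : J ∈ bw D) (hne : J ≠ H)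
    {x : W Γ} (hx : x ∈ dbl D H) : ¬ Plus J x := by
  rcases hx with hx | ⟨d, hd, rfl⟩
  · exact hD.2.2 J hJ x hx
  · intro h
    have h1 : Plus H (H * d) := (plus_mul_self (refl_bw_RA3 hH) d).2 (hD.2.2 H hH d hd)
    rcases adq_of_plus_RA3 hD hJ hH h h1 with h2 | h2
    · exact hne h2
    · exact hD.2.2 J hJ d hd ((plus_mul_of_comm (refl_bw_RA3 hJ) (refl_bw_RA3 hH) h2 d).1 h)

theorem plus_mir_bw_RA3 (hD : Good D) (hH : H ∈ bw D) {J : W Γ} (hJ : J ∈ bw D) (hne : J ≠ H)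
    (w : W Γ) : Plus (H * J * H) w ↔ Plus J (H * w) := by
  have h1 : ¬ Plus J H := not_plus_dbl_RA3 hD hH hJ hne (Or.inr ⟨1, hD.2.1, mul_one H⟩)
  rw [plus_mir_RA3 (refl_bw_RA3 hH) (refl_bw_RA3 hJ)]
  simp [h1]

theorem sides_RA3 (hD : Good D) (hH : H ∈ bw D) {o : W Γ} (ho : o ∈ aw D) (h : o ≠ H) :
    ∃ w, Plus o w ∧ ¬ Plus H w := by
  obtain ⟨d, hd, v, rfl⟩ := ho
  have h1 := hD.2.2 H hH d hd
  by_cases h2 : Plus (d * sg Γ v * d⁻¹) d
  · exact ⟨d, h2, h1⟩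
  · exact ⟨d * sg Γ v, (plus_edge_RA3 d v).2 h2,
      fun h3 => h1 ((plus_ne_RA3 (refl_bw_RA3 hH) (Ne.symm h)).1 h3)⟩

theorem const_RA3 (hD : Good D) (hH : H ∈ bw D) {o : W Γ} (ho : o ∈ aw D)
    (h : ¬ Adq (cross Γ) o H) : ∃ p : Prop, ∀ w, Plus H w → (Plus o w ↔ p) := by
  by_cases h1 : ∃ w, Plus o w ∧ Plus H w
  · refine ⟨True, fun w hw => iff_true_intro (by_contra fun h2 => h (Or.inr ?_))⟩
    exact cross_of_quadrants (refl_aw_RA3 ho) (refl_bw_RA3 hH) h1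
      (sides_RA3 hD hH ho fun h3 => h (Or.inl h3)) ⟨w, h2, hw⟩
  · exact ⟨False, fun w hw => iff_false_intro fun h2 => h1 ⟨w, h2, hw⟩⟩

theorem step_RA3 (h : ∃ a b, ¬ Adq Γ a b) (hD : Good D) :
    ∃ H ∈ bw D, ∃ w, w ∉ D ∧ w ∈ dbl D H ∧ ∀ w', w' ∉ D → len Γ w ≤ len Γ w' := by
  have h1 : ∀ n, ∃ w : W Γ, len Γ w = n := fun n => by
    induction n with
    | zero => exact ⟨1, len_eq_zero.2 rfl⟩
    | succ n ih =>
      obtain ⟨w, rfl⟩ := ih
      obtain ⟨v, hv⟩ := exists_ascent h w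
      exact ⟨_, hv⟩
  have h2 : ∃ n, ∃ w, w ∉ D ∧ len Γ w = n := by
    obtain ⟨n, hn⟩ := (hD.1.image (len Γ)).exists_notMem
    obtain ⟨w, rfl⟩ := h1 n
    exact ⟨_, w, fun hw => hn ⟨w, hw, rfl⟩, rfl⟩
  obtain ⟨w, hw, hl⟩ := Nat.find_spec h2
  have h3 : ∀ w', w' ∉ D → len Γ w ≤ len Γ w' := fun w' hw' =>
    hl ▸ Nat.find_min' h2 ⟨w', hw', rfl⟩
  obtain ⟨d, v, rfl, h4⟩ := exists_descent (w := w) fun h5 => hw (h5 ▸ hD.2.1)
  have hd : d ∈ D := by_contra fun hd => by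
    have := h3 d hd
    omega
  exact ⟨_, ⟨d, hd, v, hw, rfl⟩, _, hw, Or.inr ⟨d, hd, inv_mul_cancel_right _ _⟩, h3⟩

theorem Good.mem_of (hD : Good D) {w : W Γ} (h : ∀ t ∈ bw D, ¬ Plus t w) : w ∈ D := by
  induction hn : len Γ w generalizing w with
  | zero => exact len_eq_zero.1 hn ▸ hD.2.1
  | succ n ih =>
    obtain ⟨d, v, rfl, h4⟩ := exists_descent (w := w) fun h5 => by
      rw [len_eq_zero.2 h5] at hn
      omega
    have h1 : ¬ Plus (d * sg Γ v * d⁻¹) d := by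
      unfold Plus
      rw [inv_mul_cancel_right]
      omega
    have hd : d ∈ D := by
      refine ih (fun t ht h2 => ?_) (by omega)
      by_cases h3 : t = d * sg Γ v * d⁻¹
      · exact h1 (h3 ▸ h2)
      · exact h t ht ((plus_ne_RA3 (refl_bw_RA3 ht) h3).2 h2)
    exact by_contra fun hw => h _ ⟨d, hd, v, hw, rfl⟩ ((plus_edge_RA3 d v).2 h1)
theorem Good.plus_of_mem_image (hD : Good D) (hH : H ∈ bw D) {d : W Γ} (hd : d ∈ D) :
    Plus H (H * d) := (plus_mul_self (refl_bw_RA3 hH) d).2 (hD.2.2 H hH d hd)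
theorem bw_dbl (hD : Good D) (hH : H ∈ bw D) :
    bw (dbl D H) = (bw D \ {H}) ∪ mir H (bw D \ {H}) := by
  have hR := refl_bw_RA3 hH
  have k1 : ∀ d ∈ D, ∀ v, d * sg Γ v ∉ dbl D H → d * sg Γ v * d⁻¹ ∈ bw D \ {H} :=
    fun d hd v h => ⟨⟨d, hd, v, fun h1 => h (Or.inl h1), rfl⟩, fun h1 => h (Or.inr ⟨d, hd, by
      have h2 : d * sg Γ v * d⁻¹ = H := h1
      simp only [← h2, inv_mul_cancel_right]⟩)⟩
  have k2 : ∀ d ∈ D, ∀ v, d * sg Γ v ∉ D → d * sg Γ v * d⁻¹ ≠ H → d * sg Γ v ∉ dbl D H := by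
    rintro d hd v h1 h2 (h3 | ⟨d', hd', h3⟩)
    · exact h1 h3
    · have h4 := hD.plus_of_mem_image hH hd'
      have h5 : H * d' = d * sg Γ v := h3
      rw [h5, plus_ne_RA3 hR (Ne.symm h2)] at h4
      exact hD.2.2 H hH d hd h4
  ext t
  constructor
  · rintro ⟨x, hx | ⟨d, hd, rfl⟩, v, h, rfl⟩
    · exact Or.inl (k1 x hx v h)
    · refine Or.inr ⟨_, k1 d hd v fun h1 => h ?_, mir_edge_RA3 hR d v⟩
      rw [mul_assoc]
      exact (mul_mem_dbl_RA3 hR).2 h1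
  · rintro (⟨⟨d, hd, v, h1, rfl⟩, h2⟩ | ⟨_, ⟨⟨d, hd, v, h1, rfl⟩, h2⟩, rfl⟩)
    · exact ⟨d, Or.inl hd, v, k2 d hd v h1 h2, rfl⟩
    · refine ⟨H * d, Or.inr ⟨d, hd, rfl⟩, v, fun h3 => k2 d hd v h1 h2 ?_, mir_edge_RA3 hR d v⟩
      rw [mul_assoc] at h3
      exact (mul_mem_dbl_RA3 hR).1 h3
theorem aw_dbl (hD : Good D) (hH : H ∈ bw D) : aw (dbl D H) = aw D ∪ mir H (aw D) := by
  have hR := refl_bw_RA3 hH
  ext t
  constructor
  · rintro ⟨x, hx | ⟨d, hd, rfl⟩, v, rfl⟩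
    · exact Or.inl ⟨x, hx, v, rfl⟩
    · exact Or.inr ⟨_, ⟨d, hd, v, rfl⟩, mir_edge_RA3 hR d v⟩
  · rintro (⟨d, hd, v, rfl⟩ | ⟨_, ⟨d, hd, v, rfl⟩, rfl⟩)
    · exact ⟨d, Or.inl hd, v, rfl⟩
    · exact ⟨H * d, Or.inr ⟨d, hd, rfl⟩, v, mir_edge_RA3 hR d v⟩
theorem Good.dbl (hD : Good D) (hH : H ∈ bw D) : Good (dbl D H) := by
  refine ⟨hD.1.union (hD.1.image _), Or.inl hD.2.1, fun t ht x hx => ?_⟩
  rw [bw_dbl hD hH] at ht
  rcases ht with ht | ⟨J, hJ, rfl⟩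
  · exact not_plus_dbl_RA3 hD hH ht.1 ht.2 hx
  · exact fun h => not_plus_dbl_RA3 hD hH hJ.1 hJ.2 ((mul_mem_dbl_RA3 (refl_bw_RA3 hH)).2 hx)
      ((plus_mir_bw_RA3 hD hH hJ.1 hJ.2 x).1 h)
/-- Walls on the two sides of `H` neither meet nor coincide. -/
theorem Good.sep (hD : Good D) (hH : H ∈ bw D) {o o' : W Γ} (ho : o ∈ aw D) (ho' : o' ∈ aw D)
    (h : ¬ Adq (cross Γ) o H) (h' : ¬ Adq (cross Γ) o' H) : ¬ Adq (cross Γ) o (H * o' * H) :=
  by
  have hR := refl_bw_RA3 hH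
  obtain ⟨p, hp⟩ := const_RA3 hD hH ho h
  obtain ⟨q, hq⟩ := const_RA3 hD hH ho' h'
  have h1 : ∀ w, ¬ Plus H w → (Plus (H * o' * H) w ↔ (q ↔ ¬ Plus o' H)) := fun w hw => by
    rw [plus_mir_RA3 hR (refl_aw_RA3 ho'), hq _ ((plus_mul_self hR w).2 hw)]
  have h2 : ∀ w, ¬ Plus H w → ¬ Plus (H * o' * H) w := fun w hw h3 =>
    not_plus_one _ ((h1 1 (not_plus_one _)).2 ((h1 w hw).1 h3))
  rintro (h3 | h3)
  · obtain ⟨w, hw1, hw2⟩ := sides_RA3 hD hH ho fun h4 => h (Or.inl h4)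
    exact h2 w hw2 (h3 ▸ hw1)
  · obtain ⟨w, hw1, hw2⟩ := exists_quadrant (refl_aw_RA3 ho) (refl_mir_RA3 hR (refl_aw_RA3 ho'))
      h3 (¬ p) True
    by_cases hw : Plus H w
    · exact iff_not_self ((hp w hw).symm.trans hw1)
    · exact h2 w hw (hw2.2 trivial)
theorem Good.graft (hD : Good D) (hH : H ∈ bw D) :
    Graft (cross Γ) (bw D) (mir H (bw D)) (bw (Pool.Agent.MP_6374aa_gt.dbl D H)) H := by
  have hR := refl_bw_RA3 hH
  have k1 : ∀ {a}, a ∈ bw D → Adq (cross Γ) a H → a ∈ mir H (bw D) := fun ha h =>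
    ⟨_, ha, mir_of_adq_RA3 hR h⟩
  have k2 : ∀ {a}, a ∈ bw D → Adq (cross Γ) a H → H * a * H ∈ bw D := fun ha h => by
    rwa [mir_of_adq_RA3 hR h]
  refine ⟨hH, k1 hH (Or.inl rfl), ?_, ?_, ?_, ?_⟩
  · ext w
    refine ⟨fun h => ⟨k1 h.1 (Or.inr (h.2 H rfl).symm), h.2⟩, fun h => ⟨?_, h.2⟩⟩
    obtain ⟨⟨a, ha, rfl⟩, h⟩ := h
    have h1 := mir_of_adq_RA3 hR (Or.inr (h H rfl).symm)
    rw [mir_mir_RA3 hR] at h1
    exact h1 ▸ ha
  · ext w
    constructor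
    · rintro ⟨hw, a, ha, h1⟩
      have h2 : H * a * H = w := h1
      have h3 : Adq (cross Γ) w H := by_contra fun h3 => by
        refine hD.sep hH (bw_sub_RA3 hw) (bw_sub_RA3 ha) h3 (fun h4 => h3 ?_) (Or.inl h2.symm)
        rwa [← h2, mir_of_adq_RA3 hR h4]
      rcases h3 with h3 | h3
      · exact Or.inl h3
      · exact Or.inr ⟨hw, fun u hu => hu ▸ h3.symm⟩
    · rintro (rfl | h)
      · exact ⟨hH, k1 hH (Or.inl rfl)⟩
      · exact ⟨h.1, k1 h.1 (Or.inr (h.2 H rfl).symm)⟩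
  · rintro a ⟨ha, ha'⟩ _ ⟨⟨b, hb, rfl⟩, hb'⟩ h
    exact hD.sep hH (bw_sub_RA3 ha) (bw_sub_RA3 hb) (fun h1 => ha' (k1 ha h1))
      (fun h1 => hb' (k2 hb h1)) (Or.inr h)
  · rw [bw_dbl hD hH, Set.union_sdiff_distrib]
    congr 1
    ext t
    constructor
    · rintro ⟨a, ha, rfl⟩
      exact ⟨⟨a, ha.1, rfl⟩, fun h => ha.2 (mir_inj_RA3 (Eq.trans h (mir_self_RA3 hR).symm))⟩
    · rintro ⟨⟨a, ha, rfl⟩, h⟩
      refine ⟨a, ⟨ha, fun h1 => h ?_⟩, rfl⟩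
      obtain rfl : a = H := h1
      exact mir_self_RA3 hR
theorem Good.iso_mir (hD : Good D) (hH : H ∈ bw D) :
    IsIso (cross Γ) (mir H (bw D)) (cross Γ) (bw D) fun t => H * t * H := by
  have hR := refl_bw_RA3 hH
  refine ⟨⟨?_, fun a _ b _ h => mir_inj_RA3 h, fun a ha => ⟨_, ⟨a, ha, rfl⟩, mir_mir_RA3 hR a⟩⟩,
    fun a _ b _ => ?_⟩
  · rintro _ ⟨a, ha, rfl⟩
    change H * (H * a * H) * H ∈ bw D
    rwa [mir_mir_RA3 hR]
  · have h1 : ∀ x y : W Γ, H * x * H * (H * y * H) = H * (x * y) * H := fun x y => by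
      simp only [mul_assoc, cancel_RA3 hR]
    change a ≠ b ∧ a * b = b * a ↔
      H * a * H ≠ H * b * H ∧ H * a * H * (H * b * H) = H * b * H * (H * a * H)
    rw [h1, h1]
    exact ⟨fun h => ⟨fun h2 => h.1 (mir_inj_RA3 h2), by rw [h.2]⟩,
      fun h => ⟨fun h2 => h.1 (by rw [h2]), mir_inj_RA3 h.2⟩⟩
/-- Distinct bounding walls with a common point behind them cross. -/
theorem Good.adq_of_plus (hD : Good D) {t u : W Γ} (ht : t ∈ bw D) (hu : u ∈ bw D) {w : W Γ}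
    (h1 : Plus t w) (h2 : Plus u w) : Adq (cross Γ) t u := adq_of_plus_RA3 hD ht hu h1 h2
theorem Good.plus_col (hD : Good D) (hH : H ∈ bw D) {t : W Γ}
    (ht : t ∈ bw (Pool.Agent.MP_6374aa_gt.dbl D H)) {w : W Γ} (h : Plus t w) :
    Plus (col (bw D) H t) w := by
  have hR := refl_bw_RA3 hH
  unfold col
  split_ifs with h1
  · exact h
  · rw [bw_dbl hD hH] at ht
    rcases ht with ht | ⟨J, hJ, rfl⟩
    · exact absurd ht.1 h1
    · refine by_contra fun h2 => h1 ?_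
      have h3 := hD.adq_of_plus hJ.1 hH ((plus_mir_bw_RA3 hD hH hJ.1 hJ.2 w).1 h)
        ((plus_mul_self hR w).2 h2)
      change H * J * H ∈ bw D
      rw [mir_of_adq_RA3 hR h3]
      exact hJ.1
theorem iso_bw_one : IsIso Γ Set.univ (cross Γ) (bw ({1} : Set (W Γ))) (sg Γ) := by
  refine ⟨⟨fun v _ => ⟨1, rfl, v, ?_, by simp⟩, sg_injective.injOn, ?_⟩, fun a _ b _ => ?_⟩
  · rw [one_mul]
    exact sg_ne_one v
  · rintro _ ⟨d, rfl, v, -, rfl⟩
    exact ⟨v, trivial, by simp⟩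
  · refine ⟨fun h => ⟨fun h1 => h.ne (sg_injective h1), sg_comm (Or.inr h)⟩, fun h => ?_⟩
    rcases adq_of_sg_comm h.2 with rfl | h1
    · exact absurd rfl h.1
    · exact h1
theorem exists_dseq [Finite V] (h : ∃ a b, ¬ Adq Γ a b) : ∃ D H, DSeq (Γ := Γ) D H := by
  choose f hf g hg using fun E : {E : Set (W Γ) // Good E} => step_RA3 h E.2
  have h1 : Good ({1} : Set (W Γ)) := ⟨Set.finite_singleton _, rfl, fun t _ d hd => by
    obtain rfl : d = 1 := hd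
    exact not_plus_one t⟩
  let E : ℕ → {E : Set (W Γ) // Good E} := fun k =>
    Nat.rec ⟨{1}, h1⟩ (fun _ X => ⟨dbl X.1 (f X), X.2.dbl (hf X)⟩) k
  have hs : ∀ k, (E (k + 1)).1 = dbl (E k).1 (f (E k)) := fun k => rfl
  refine ⟨fun k => (E k).1, fun k => f (E k), rfl, fun k => (E k).2, fun k => hf (E k), hs,
    fun R => by_contra fun hne => ?_⟩
  push Not at hne
  have h2 : ∀ k, ({w : W Γ | len Γ w ≤ R} \ (E (k + 1)).1).ncard <
      ({w : W Γ | len Γ w ≤ R} \ (E k).1).ncard := fun k => by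
    obtain ⟨w, hw, hw'⟩ := hne k
    obtain ⟨g1, g2, g3⟩ := hg (E k)
    refine Set.ncard_lt_ncard ⟨fun x hx => ⟨hx.1, fun h3 => hx.2 (Or.inl h3)⟩, fun h3 => ?_⟩
      ((finite_ball R).subset Set.sdiff_subset)
    exact (h3 ⟨(g3 w hw').trans hw, g1⟩).2 g2
  have h3 : ∀ k, ({w : W Γ | len Γ w ≤ R} \ (E k).1).ncard + k ≤
      ({w : W Γ | len Γ w ≤ R} \ (E 0).1).ncard := fun k => by
    induction k with
    | zero => exact le_rfl
    | succ k ih =>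
      have := h2 k
      omega
  have := h3 (({w : W Γ | len Γ w ≤ R} \ (E 0).1).ncard + 1)
  omega

end Pool.Agent.MP_6374aa_gt

end

section

/-! No squares among walls; characterisations of asymptotic rays. -/

namespace Pool.Agent.MP_6374aa_gt

open Classical

variable {V : Type} {Γ : SimpleGraph V}

theorem adq_iff_RA4 {a b : W Γ} : Adq (cross Γ) a b ↔ Commute a b := by
  refine ⟨fun h => ?_, fun h => ?_⟩
  · rcases h with rfl | h
    exacts [Commute.refl _, h.2]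
  · by_cases hab : a = b
    exacts [Or.inl hab, Or.inr ⟨hab, h⟩]

theorem mul_self_RA4 {D : Set (W Γ)} {H : W Γ} (hH : H ∈ bw D) : H ∈ aw D ∧ H * H = 1 := by
  obtain ⟨d, hd, v, -, rfl⟩ := hH
  exact ⟨⟨d, hd, v, rfl⟩, IsRefl.mul_self ⟨d, v, rfl⟩⟩

theorem mir_mir_RA4 {H : W Γ} (h : H * H = 1) (x : W Γ) : H * (H * x * H) * H = x := by
  rw [← mul_assoc, ← mul_assoc, h, one_mul, mul_assoc, h, mul_one]

theorem mir_fix_RA4 {H x : W Γ} (h : H * H = 1) (hx : Commute x H) : H * x * H = x := by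
  rw [← hx.eq, mul_assoc, h, mul_one]

theorem mir_comm_RA4 {H x y : W Γ} (h : H * H = 1) :
    Commute (H * x * H) (H * y * H) ↔ Commute x y := by
  have key : ∀ x y : W Γ, Commute x y → Commute (H * x * H) (H * y * H) := fun x y hxy => by
    have e : ∀ x y : W Γ, H * x * H * (H * y * H) = H * (x * y) * H := fun x y => by
      rw [show H * x * H * (H * y * H) = H * x * (H * H) * y * H by simp only [mul_assoc], h,
        mul_one, mul_assoc H x y]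
    change _ * _ = _ * _
    rw [e, e, hxy.eq]
  refine ⟨fun h1 => ?_, key x y⟩
  have := key _ _ h1
  rwa [mir_mir_RA4 h, mir_mir_RA4 h] at this

theorem side_RA4 {D : Set (W Γ)} {H : W Γ} (hD : Good D) (hH : H ∈ bw D) {x : W Γ}
    (hx : x ∈ aw (dbl D H)) : x ∈ aw D ∨ H * x * H ∈ aw D := by
  rw [aw_dbl hD hH] at hx
  rcases hx with hx | ⟨y, hy, rfl⟩
  · exact Or.inl hx
  · exact Or.inr (by rwa [mir_mir_RA4 (mul_self_RA4 hH).2])

theorem sep_RA4 {D : Set (W Γ)} {H : W Γ} (hD : Good D) (hH : H ∈ bw D) {x y : W Γ}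
    (hx : x ∈ aw D) (hx' : ¬ Commute x H) (hy : H * y * H ∈ aw D) (hy' : ¬ Commute y H) :
    ¬ Commute x y := by
  have h2 := (mul_self_RA4 hH).2
  have h := hD.sep hH hx hy (by rwa [adq_iff_RA4]) (by
    rw [adq_iff_RA4]
    intro h1
    apply hy'
    rwa [← mir_comm_RA4 h2, mir_fix_RA4 h2 (Commute.refl H)])
  rwa [mir_mir_RA4 h2, adq_iff_RA4] at h

theorem left_RA4 {D : Set (W Γ)} {H : W Γ} (hD : Good D) (hH : H ∈ bw D) {x : W Γ}
    (hx : x ∈ aw (dbl D H)) (h : H * x * H ∉ aw D) : x ∈ aw D ∧ ¬ Commute x H := by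
  have h1 := (side_RA4 hD hH hx).resolve_right h
  exact ⟨h1, fun h2 => h (by rwa [mir_fix_RA4 (mul_self_RA4 hH).2 h2])⟩

theorem right_RA4 {D : Set (W Γ)} {H : W Γ} (hD : Good D) (hH : H ∈ bw D) {x : W Γ}
    (hx : x ∈ aw (dbl D H)) (h : x ∉ aw D) : H * x * H ∈ aw D ∧ ¬ Commute x H := by
  have h1 := (side_RA4 hD hH hx).resolve_left h
  exact ⟨h1, fun h2 => h (by rwa [mir_fix_RA4 (mul_self_RA4 hH).2 h2] at h1)⟩

theorem sep'_RA4 {D : Set (W Γ)} {H : W Γ} (hD : Good D) (hH : H ∈ bw D) {x y : W Γ}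
    (hx : x ∈ aw (dbl D H)) (hy : y ∈ aw (dbl D H)) (hx' : H * x * H ∉ aw D) (hy' : y ∉ aw D) :
    ¬ Commute x y :=
  sep_RA4 hD hH (left_RA4 hD hH hx hx').1 (left_RA4 hD hH hx hx').2 (right_RA4 hD hH hy hy').1
    (right_RA4 hD hH hy hy').2

theorem mid_RA4 {D : Set (W Γ)} {H : W Γ} (hD : Good D) (hH : H ∈ bw D) {a b c : W Γ}
    (ha : a ∈ aw (dbl D H)) (hb : b ∈ aw (dbl D H)) (hc : c ∈ aw (dbl D H))
    (ha' : H * a * H ∉ aw D) (hc' : c ∉ aw D) (h1 : Commute a b) (h2 : Commute b c) :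
    b ∈ aw D ∧ Commute b H := by
  have h3 : b ∈ aw D := by
    by_contra h3
    exact sep'_RA4 hD hH ha hb ha' h3 h1
  refine ⟨h3, ?_⟩
  by_contra h4
  exact sep_RA4 hD hH h3 h4 (right_RA4 hD hH hc hc').1 (right_RA4 hD hH hc hc').2 h2

/-- Every square in `S` has a diagonal. -/
def Sq_RA4 (S : Set (W Γ)) : Prop :=
  ∀ a ∈ S, ∀ b ∈ S, ∀ c ∈ S, ∀ d ∈ S, Commute a b → Commute b c → Commute c d → Commute d a →
    Commute a c ∨ Commute b d

theorem sq_one_RA4 (hn : NoSquare Γ) : Sq_RA4 (aw ({1} : Set (W Γ))) := by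
  rintro _ ⟨_, rfl, a, rfl⟩ _ ⟨_, rfl, b, rfl⟩ _ ⟨_, rfl, c, rfl⟩ _ ⟨_, rfl, d, rfl⟩
  simp only [one_mul, inv_one, mul_one]
  intro h1 h2 h3 h4
  rcases adq_of_sg_comm h1 with rfl | g1
  · exact Or.inl h2
  rcases adq_of_sg_comm h2 with rfl | g2
  · exact Or.inl h1
  rcases adq_of_sg_comm h3 with rfl | g3
  · exact Or.inr h2
  rcases adq_of_sg_comm h4 with rfl | g4
  · exact Or.inl h3.symm
  exact (hn a b c d g1 g2 g3 g4).imp sg_comm sg_comm

theorem sq_dbl_RA4 {D : Set (W Γ)} {H : W Γ} (hD : Good D) (hH : H ∈ bw D) (ih : Sq_RA4 (aw D)) :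
    Sq_RA4 (aw (dbl D H)) := by
  have h2 := (mul_self_RA4 hH).2
  have opp : ∀ {a b c d : W Γ}, a ∈ aw (dbl D H) → b ∈ aw (dbl D H) → c ∈ aw (dbl D H) →
      d ∈ aw (dbl D H) → H * a * H ∉ aw D → c ∉ aw D → Commute a b → Commute b c →
      Commute c d → Commute d a → Commute b d := by
    intro a b c d ha hb hc hd ha' hc' h1 h2 h3 h4
    obtain ⟨b1, b2⟩ := mid_RA4 hD hH ha hb hc ha' hc' h1 h2
    obtain ⟨d1, d2⟩ := mid_RA4 hD hH ha hd hc ha' hc' h4.symm h3.symm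
    obtain ⟨a1, a2⟩ := left_RA4 hD hH ha ha'
    exact (ih a a1 b b1 H (mul_self_RA4 hH).1 d d1 h1 b2 d2.symm h4).resolve_left a2
  intro a ha b hb c hc d hd ab bc cd da
  by_cases hL : a ∈ aw D ∧ b ∈ aw D ∧ c ∈ aw D ∧ d ∈ aw D
  · exact ih a hL.1 b hL.2.1 c hL.2.2.1 d hL.2.2.2 ab bc cd da
  by_cases hR : H * a * H ∈ aw D ∧ H * b * H ∈ aw D ∧ H * c * H ∈ aw D ∧ H * d * H ∈ aw D
  · have := ih _ hR.1 _ hR.2.1 _ hR.2.2.1 _ hR.2.2.2 ((mir_comm_RA4 h2).2 ab)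
      ((mir_comm_RA4 h2).2 bc) ((mir_comm_RA4 h2).2 cd) ((mir_comm_RA4 h2).2 da)
    rwa [mir_comm_RA4 h2, mir_comm_RA4 h2] at this
  simp only [not_and_or] at hL hR
  rcases hR with x | x | x | x <;> rcases hL with y | y | y | y
  · exact absurd (Commute.refl _) (sep'_RA4 hD hH ha ha x y)
  · exact absurd ab (sep'_RA4 hD hH ha hb x y)
  · exact Or.inr (opp ha hb hc hd x y ab bc cd da)
  · exact absurd da.symm (sep'_RA4 hD hH ha hd x y)
  · exact absurd ab.symm (sep'_RA4 hD hH hb ha x y)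
  · exact absurd (Commute.refl _) (sep'_RA4 hD hH hb hb x y)
  · exact absurd bc (sep'_RA4 hD hH hb hc x y)
  · exact Or.inl (opp hb hc hd ha x y bc cd da ab).symm
  · exact Or.inr (opp hc hd ha hb x y cd da ab bc).symm
  · exact absurd bc.symm (sep'_RA4 hD hH hc hb x y)
  · exact absurd (Commute.refl _) (sep'_RA4 hD hH hc hc x y)
  · exact absurd cd (sep'_RA4 hD hH hc hd x y)
  · exact absurd da (sep'_RA4 hD hH hd ha x y)
  · exact Or.inl (opp hd ha hb hc x y da ab bc cd)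
  · exact absurd cd.symm (sep'_RA4 hD hH hd hc x y)
  · exact absurd (Commute.refl _) (sep'_RA4 hD hH hd hd x y)

/-- Every clique in `S` has at most `n` elements. -/
def Cq_RA4 (n : ℕ) (S : Set (W Γ)) : Prop :=
  ∀ s : Finset (W Γ), (∀ a ∈ s, a ∈ S) → (∀ a ∈ s, ∀ b ∈ s, Commute a b) → s.card ≤ n

theorem cq_one_RA4 [Fintype V] : Cq_RA4 (Fintype.card V) (aw ({1} : Set (W Γ))) := by
  intro s hs _
  refine (Finset.card_le_card (t := Finset.univ.image (sg Γ)) fun a ha => ?_).trans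
    Finset.card_image_le
  obtain ⟨_, rfl, v, rfl⟩ := hs a ha
  simp

theorem cq_dbl_RA4 {D : Set (W Γ)} {H : W Γ} (hD : Good D) (hH : H ∈ bw D) {n : ℕ}
    (ih : Cq_RA4 n (aw D)) : Cq_RA4 n (aw (dbl D H)) := by
  have h2 := (mul_self_RA4 hH).2
  intro s hs hc
  by_cases hL : ∀ a ∈ s, a ∈ aw D
  · exact ih s hL hc
  push Not at hL
  obtain ⟨y, hy, hy'⟩ := hL
  have hinj : Function.Injective fun x : W Γ => H * x * H := fun x y h => by simpa using h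
  rw [← Finset.card_image_of_injective s hinj]
  refine ih _ (fun a ha => ?_) fun a ha b hb => ?_
  · obtain ⟨x, hx, rfl⟩ := Finset.mem_image.1 ha
    by_contra hx'
    exact sep'_RA4 hD hH (hs x hx) (hs y hy) hx' hy' (hc x hx y hy)
  · obtain ⟨x, hx, rfl⟩ := Finset.mem_image.1 ha
    obtain ⟨z, hz, rfl⟩ := Finset.mem_image.1 hb
    exact (mir_comm_RA4 h2).2 (hc x hx z hz)

theorem exh_RA4 {D : ℕ → Set (W Γ)} {H : ℕ → W Γ} (h : DSeq D H) (s : Finset (W Γ))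
    (hs : ∀ t ∈ s, IsRefl t) : ∃ k, ∀ t ∈ s, t ∈ aw (D k) := by
  choose! w hw using hs
  obtain ⟨k, hk⟩ := h.exh (s.sup fun t => len Γ (w t))
  exact ⟨k, fun t ht => ⟨w t, hk _ (Finset.le_sup (f := fun t => len Γ (w t)) ht), hw t ht⟩⟩

theorem ind_RA4 {D : ℕ → Set (W Γ)} {H : ℕ → W Γ} (h : DSeq D H) {P : Set (W Γ) → Prop}
    (h0 : P (aw {1})) (h1 : ∀ D H, Good D → H ∈ bw D → P (aw D) → P (aw (dbl D H))) (k : ℕ) :
    P (aw (D k)) := by
  induction k with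
  | zero => rwa [h.zero]
  | succ k ih => rw [h.succ]; exact h1 _ _ (h.good k) (h.mem k) ih

theorem cross_noSquare [Finite V] (h : ∃ a b, ¬ Adq Γ a b) (hn : NoSquare Γ) {a b c d : W Γ}
    (ha : IsRefl a) (hb : IsRefl b) (hc : IsRefl c) (hd : IsRefl d) (h1 : (cross Γ).Adj a b)
    (h2 : (cross Γ).Adj b c) (h3 : (cross Γ).Adj c d) (h4 : (cross Γ).Adj d a) :
    Adq (cross Γ) a c ∨ Adq (cross Γ) b d := by
  obtain ⟨D, H, hD⟩ := exists_dseq h
  obtain ⟨k, hk⟩ := exh_RA4 hD {a, b, c, d} (by simp [ha, hb, hc, hd])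
  rw [adq_iff_RA4, adq_iff_RA4]
  exact ind_RA4 hD (sq_one_RA4 hn) (fun _ _ => sq_dbl_RA4) k a (hk a (by simp)) b (hk b (by simp))
    c (hk c (by simp)) d (hk d (by simp)) h1.2 h2.2 h3.2 h4.2

theorem cross_clique_le [Fintype V] (h : ∃ a b, ¬ Adq Γ a b) (s : Finset (W Γ))
    (hs : ∀ t ∈ s, IsRefl t) (hc : (cross Γ).IsClique (s : Set (W Γ))) :
    s.card ≤ Fintype.card V := by
  obtain ⟨D, H, hD⟩ := exists_dseq h
  obtain ⟨k, hk⟩ := exh_RA4 hD s hs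
  refine ind_RA4 hD (P := Cq_RA4 (Fintype.card V)) cq_one_RA4
    (fun _ _ h1 h2 => cq_dbl_RA4 h1 h2) k s hk fun a ha b hb => ?_
  by_cases hab : a = b
  · rw [hab]
  · exact (hc ha hb hab).2

theorem ncard_le_RA4 [Fintype V] (h : ∃ a b, ¬ Adq Γ a b) {S : Set (W Γ)} (hS : S.Finite)
    (hs : ∀ t ∈ S, IsRefl t) (hc : ∀ a ∈ S, ∀ b ∈ S, Adq (cross Γ) a b) :
    S.ncard ≤ Fintype.card V := by
  rw [Set.ncard_eq_toFinset_card S hS]
  refine cross_clique_le h _ (fun t ht => hs t (hS.mem_toFinset.1 ht)) ?_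
  rw [hS.coe_toFinset]
  exact fun a ha b hb hab => (hc a ha b hb).resolve_left hab

theorem diff_RA4 (u w : W Γ) :
    (Inv u \ Inv w).ncard + len Γ w = (Inv w \ Inv u).ncard + len Γ u := by
  rw [← ncard_Inv, ← ncard_Inv, Set.ncard_sdiff_add_ncard _ _ (finite_Inv u) (finite_Inv w),
    Set.ncard_sdiff_add_ncard _ _ (finite_Inv w) (finite_Inv u), Set.union_comm]

theorem Ray.len (r : Ray Γ) (n : ℕ) : len Γ (r.1 n) = n := by
  have := r.2.2 0 n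
  rwa [r.2.1, zero_add] at this

theorem Ray.plus_mono (r : Ray Γ) {t : W Γ} (ht : IsRefl t) {m n : ℕ} (hmn : m ≤ n)
    (h : Plus t (r.1 m)) : Plus t (r.1 n) := by
  obtain ⟨k, rfl⟩ := Nat.exists_eq_add_of_le hmn
  have h1 := diff_RA4 (r.1 m) (r.1 (m + k))
  have h2 := dist_eq_ncard (r.1 m) (r.1 (m + k))
  rw [r.len, r.len] at h1
  rw [r.2.2] at h2
  have h3 : (Inv (r.1 m) \ Inv (r.1 (m + k))).ncard = 0 := by omega
  rw [Set.ncard_eq_zero (finite_Inv _).sdiff, Set.sdiff_eq_empty] at h3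
  exact (h3 ⟨ht, h⟩).2

theorem req_equivalence : Equivalence (REq (Γ := Γ)) where
  refl r := ⟨0, fun n => by rw [SimpleGraph.dist_self]⟩
  symm := fun ⟨C, h⟩ => ⟨C, fun n => by rw [SimpleGraph.dist_comm]; exact h n⟩
  trans := fun ⟨C, h⟩ ⟨C', h'⟩ =>
    ⟨C + C', fun n => cay_connected.dist_triangle.trans (add_le_add (h n) (h' n))⟩

theorem bmk_eq_iff {r s : Ray Γ} : bmk r = bmk s ↔ REq r s :=
  req_equivalence.quot_mk_eq_iff r s

theorem REq.exists_plus [Finite V] (h : ∃ a b, ¬ Adq Γ a b) (hn : NoSquare Γ) {r s : Ray Γ}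
    (hrs : REq r s) {t u : W Γ} (ht : IsRefl t) (hu : IsRefl u) (h1 : Crosses r t)
    (h2 : Crosses s u) : ∃ w, Plus t w ∧ Plus u w := by
  have := Fintype.ofFinite V
  by_contra hne
  obtain ⟨C, hC⟩ := hrs
  obtain ⟨n1, h1⟩ := h1
  obtain ⟨n2, h2⟩ := h2
  have htu : ¬ Adq (cross Γ) t u := by
    rintro (rfl | h3)
    · exact hne ⟨_, h1, h1⟩
    · obtain ⟨w, h4, h5⟩ := exists_quadrant ht hu h3 True True
      exact hne ⟨w, h4.2 trivial, h5.2 trivial⟩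
  set N := Fintype.card V + C + n1 + n2 + 1 with hN
  have h3 := r.plus_mono ht (show n1 ≤ N by omega) h1
  have h4 := s.plus_mono hu (show n2 ≤ N by omega) h2
  set S := (Inv (r.1 N) ∩ Inv (s.1 N)) \ (Inv (r.1 n1) ∪ Inv (s.1 n2)) with hS
  have hSf : S.Finite := ((finite_Inv _).inter_of_left _).sdiff
  have h5 : ∀ K ∈ S, (cross Γ).Adj t K ∧ (cross Γ).Adj u K := by
    rintro K ⟨⟨⟨k1, k2⟩, -, k3⟩, k4⟩
    exact ⟨cross_of_quadrants ht k1 ⟨_, h3, k2⟩ ⟨_, h1, fun k5 => k4 (Or.inl ⟨k1, k5⟩)⟩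
        ⟨_, fun k5 => hne ⟨_, k5, h4⟩, k3⟩,
      cross_of_quadrants hu k1 ⟨_, h4, k3⟩ ⟨_, h2, fun k5 => k4 (Or.inr ⟨k1, k5⟩)⟩
        ⟨_, fun k5 => hne ⟨_, h3, k5⟩, k2⟩⟩
  have h6 := ncard_le_RA4 h hSf (fun K hK => hK.1.1.1) fun a ha b hb =>
    (cross_noSquare h hn ht ha.1.1.1 hu hb.1.1.1 (h5 a ha).1 (h5 a ha).2.symm (h5 b hb).2
      (h5 b hb).1.symm).resolve_left htu
  have h7 : Inv (r.1 N) ⊆ (S ∪ (Inv (r.1 N) \ Inv (s.1 N))) ∪ (Inv (r.1 n1) ∪ Inv (s.1 n2)) := by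
    intro K hK
    simp only [hS, Set.mem_union, Set.mem_sdiff, Set.mem_inter_iff]
    tauto
  have h8 := Set.ncard_le_ncard h7
    ((hSf.union (finite_Inv _).sdiff).union ((finite_Inv _).union (finite_Inv _)))
  have h9 := Set.ncard_union_le (S ∪ (Inv (r.1 N) \ Inv (s.1 N))) (Inv (r.1 n1) ∪ Inv (s.1 n2))
  have h10 := Set.ncard_union_le S (Inv (r.1 N) \ Inv (s.1 N))
  have h11 := Set.ncard_union_le (Inv (r.1 n1)) (Inv (s.1 n2))
  have h12 := hC N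
  rw [dist_eq_ncard] at h12
  rw [ncard_Inv, r.len] at h8
  rw [ncard_Inv, ncard_Inv, r.len, s.len] at h11
  omega

theorem req_iff [Fintype V] (h : ∃ a b, ¬ Adq Γ a b) (hn : NoSquare Γ) {r s : Ray Γ} :
    REq r s ↔ ∀ n, (cay Γ).dist (r.1 n) (s.1 n) ≤ 2 * Fintype.card V := by
  refine ⟨fun hrs n => ?_, fun h1 => ⟨_, h1⟩⟩
  have h1 := diff_RA4 (r.1 n) (s.1 n)
  rw [r.len, s.len] at h1
  rw [dist_eq_ncard]
  have h2 : ∀ t ∈ Inv (r.1 n) \ Inv (s.1 n), ∀ u ∈ Inv (s.1 n) \ Inv (r.1 n),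
      (cross Γ).Adj t u := by
    rintro t ⟨⟨t1, t2⟩, t3⟩ u ⟨⟨u1, u2⟩, u3⟩
    exact cross_of_quadrants t1 u1 (hrs.exists_plus h hn t1 u1 ⟨n, t2⟩ ⟨n, u2⟩)
      ⟨_, t2, fun k => u3 ⟨u1, k⟩⟩ ⟨_, fun k => t3 ⟨t1, k⟩, u2⟩
  by_cases h3 : ∀ a ∈ Inv (r.1 n) \ Inv (s.1 n), ∀ b ∈ Inv (r.1 n) \ Inv (s.1 n), Adq (cross Γ) a b
  · have := ncard_le_RA4 h (finite_Inv _).sdiff (fun t ht => ht.1.1) h3
    omega
  · push Not at h3
    obtain ⟨t, ht, t', ht', h3⟩ := h3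
    have := ncard_le_RA4 h (S := Inv (s.1 n) \ Inv (r.1 n)) (finite_Inv _).sdiff
      (fun t ht => ht.1.1) fun a ha b hb =>
      (cross_noSquare h hn ht.1.1 ha.1.1 ht'.1.1 hb.1.1 (h2 t ht a ha) (h2 t' ht' a ha).symm
        (h2 t' ht' b hb) (h2 t ht b hb).symm).resolve_left h3
    omega

end Pool.Agent.MP_6374aa_gt

end

section

/-! Topology of the space of rays and of the boundary. -/

namespace Pool.Agent.MP_6374aa_gt

open Classical

variable {V : Type} {Γ : SimpleGraph V}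

attribute [local instance] rayTop bdryTop

/-- consecutive terms are at distance at most one -/
def Step_RA5 (q : ℕ → W Γ) : Prop := ∀ k, (cay Γ).dist (q k) (q (k + 1)) ≤ 1

theorem lip_RA5 {q : ℕ → W Γ} (h : Step_RA5 q) (m n : ℕ) :
    (cay Γ).dist (q m) (q (m + n)) ≤ n := by
  induction n with
  | zero => simp
  | succ n ih =>
    exact (cay_connected.dist_triangle (v := q (m + n))).trans (add_le_add ih (h (m + n)))

theorem ray_RA5 {q : ℕ → W Γ} (h : Step_RA5 q) (h0 : q 0 = 1) (N : ℕ)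
    (hN : ∀ n, N ≤ n → len Γ (q n) = n) : ∃ r : Ray Γ, r.1 = q := by
  refine ⟨⟨q, h0, fun m n => le_antisymm (lip_RA5 h m n) ?_⟩, rfl⟩
  have h1 := hN (m + n + N) (by omega)
  have h2 := lip_RA5 h 0 m
  have h3 := lip_RA5 h (m + n) N
  have h4 := cay_connected.dist_triangle (u := q 0) (v := q m) (w := q (m + n + N))
  have h5 := cay_connected.dist_triangle (u := q m) (v := q (m + n)) (w := q (m + n + N))
  rw [zero_add] at h2
  rw [len, ← h0] at h1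
  omega

theorem glue_RA5 {f g : ℕ → W Γ} (hf : Step_RA5 f) (hg : Step_RA5 g) {m : ℕ} (h : f m = g m) :
    ∃ q, Step_RA5 q ∧ (∀ k ≤ m, q k = f k) ∧ ∀ k, m ≤ k → q k = g k := by
  have h1 : ∀ k, m ≤ k → (if k ≤ m then f k else g k) = g k := fun k hk => by
    split_ifs with h2
    · rw [le_antisymm h2 hk, h]
    · rfl
  refine ⟨fun k => if k ≤ m then f k else g k, fun k => ?_, fun k hk => if_pos hk, h1⟩
  rcases lt_or_ge k m with hk | hk
  · simp only [if_pos hk.le, if_pos (Nat.succ_le_of_lt hk)]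
    exact hf k
  · simp only [h1 k hk, h1 (k + 1) (by omega)]
    exact hg k

theorem shift_RA5 {g : ℕ → W Γ} (hg : Step_RA5 g) (m : ℕ) : Step_RA5 fun k => g (k - m) := by
  intro k
  rcases lt_or_ge k m with hk | hk
  · simp [Nat.sub_eq_zero_of_le hk.le, Nat.sub_eq_zero_of_le (Nat.succ_le_of_lt hk)]
  · simpa only [Nat.succ_sub hk] using hg (k - m)

theorem geo_RA5 (a b : W Γ) : ∃ g, Step_RA5 g ∧ g 0 = a ∧ g ((cay Γ).dist a b) = b := by
  obtain ⟨p, hp⟩ := cay_connected.exists_walk_length_eq_dist a b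
  refine ⟨p.getVert, fun k => ?_, p.getVert_zero, by rw [← hp, p.getVert_length]⟩
  rcases lt_or_ge k p.length with hk | hk
  · exact (SimpleGraph.dist_eq_one_iff_adj.2 (p.adj_getVert_succ hk)).le
  · simp [p.getVert_of_length_le hk, p.getVert_of_length_le (hk.trans k.le_succ)]

theorem cyl_RA5 {O : Set (Ray Γ)} (hO : IsOpen O) {r : Ray Γ} (hr : r ∈ O) :
    ∃ R, ∀ q : Ray Γ, (∀ k ≤ R, q.1 k = r.1 k) → q ∈ O := by
  let _ : TopologicalSpace (W Γ) := ⊥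
  obtain ⟨O', h1, rfl⟩ := isOpen_induced_iff.1 hO
  obtain ⟨I, u, h2, h3⟩ := isOpen_pi_iff.1 h1 r.1 hr
  exact ⟨I.sup id, fun q hq => h3 fun k hk => by
    rw [hq k (Finset.le_sup (f := id) hk)]; exact (h2 k hk).2⟩

theorem t2_RA5 {X Y : Type} [TopologicalSpace X] [TopologicalSpace Y] [CompactSpace X]
    [T2Space X] {f : X → Y} (hf : Topology.IsQuotientMap f)
    (hc : IsClosed {q : X × X | f q.1 = f q.2}) : T2Space Y := by
  have h1 : IsClosedMap f := fun C hC => by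
    rw [← hf.isClosed_preimage]
    have : f ⁻¹' (f '' C) = Prod.fst '' ({q : X × X | f q.1 = f q.2} ∩ Prod.snd ⁻¹' C) := by
      ext x
      constructor
      · rintro ⟨y, hy, h⟩
        exact ⟨(x, y), ⟨h.symm, hy⟩, rfl⟩
      · rintro ⟨q, ⟨h, hy⟩, rfl⟩
        exact ⟨q.2, hy, h.symm⟩
    rw [this]
    exact ((hc.inter (hC.preimage continuous_snd)).isCompact.image continuous_fst).isClosed
  have h2 : ∀ y, IsClosed (f ⁻¹' {y}) := fun y => by
    obtain ⟨x, rfl⟩ := hf.surjective y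
    rw [hf.isClosed_preimage, ← Set.image_singleton]
    exact h1 _ isClosed_singleton
  refine ⟨fun x y hxy => ?_⟩
  obtain ⟨A, B, hA, hB, h3, h4, h5⟩ := normal_separation (h2 x) (h2 y)
    ((Set.disjoint_singleton.2 hxy).preimage f)
  refine ⟨(f '' Aᶜ)ᶜ, (f '' Bᶜ)ᶜ, (h1 _ hA.isClosed_compl).isOpen_compl,
    (h1 _ hB.isClosed_compl).isOpen_compl, fun ⟨a, ha, h⟩ => ha (h3 h),
    fun ⟨a, ha, h⟩ => ha (h4 h), Set.disjoint_left.2 fun z hz hz' => ?_⟩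
  obtain ⟨a, rfl⟩ := hf.surjective z
  exact hz ⟨a, fun h6 => hz' ⟨a, fun h7 => Set.disjoint_left.1 h5 h6 h7, rfl⟩, rfl⟩

theorem exists_ray_through (h : ∃ a b, ¬ Adq Γ a b) (w : W Γ) :
    ∃ r : Ray Γ, r.1 (len Γ w) = w := by
  choose a ha using exists_ascent h
  obtain ⟨g, hg, h0, h1⟩ := geo_RA5 1 w
  let e : ℕ → W Γ := fun k => (fun x => x * sg Γ (a x))^[k] w
  have he : ∀ k, e (k + 1) = e k * sg Γ (a (e k)) := fun k => Function.iterate_succ_apply' _ _ _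
  have h2 : Step_RA5 e := fun k =>
    (SimpleGraph.dist_eq_one_iff_adj.2 (cay_adj.2 ⟨_, he k⟩)).le
  have h3 : ∀ k, len Γ (e k) = len Γ w + k := fun k => by
    induction k with
    | zero => rfl
    | succ k ih => rw [he, ha, ih, add_assoc]
  obtain ⟨q, hq, h4, h5⟩ := glue_RA5 hg (shift_RA5 h2 (len Γ w)) (m := len Γ w)
    (by rw [Nat.sub_self]; exact h1)
  obtain ⟨r, hr⟩ := ray_RA5 hq ((h4 0 (Nat.zero_le _)).trans h0) (len Γ w) fun n hn => by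
    rw [h5 n hn, h3]; omega
  exact ⟨r, by rw [hr, h4 _ le_rfl]; exact h1⟩

/-- The initial part of a ray can be replaced. -/
theorem exists_ray_splice (r s : Ray Γ) {m n : ℕ} (hmn : m ≤ n)
    (h : (cay Γ).dist (s.1 m) (r.1 n) + m = n) :
    ∃ q : Ray Γ, (∀ k ≤ m, q.1 k = s.1 k) ∧ ∀ k, n ≤ k → q.1 k = r.1 k := by
  obtain ⟨g, hg, h0, h1⟩ := geo_RA5 (s.1 m) (r.1 n)
  obtain ⟨q, hq, h2, h3⟩ := glue_RA5 (f := s.1) (fun k => (s.2.2 k 1).le) (shift_RA5 hg m)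
    (m := m) (by rw [Nat.sub_self, h0])
  obtain ⟨q', hq', h4, h5⟩ := glue_RA5 (g := r.1) hq (fun k => (r.2.2 k 1).le) (m := n)
    (by rw [h3 n hmn, ← h1]; congr 1; omega)
  have h6 : ∀ k ≤ m, q' k = s.1 k := fun k hk => (h4 k (hk.trans hmn)).trans (h2 k hk)
  obtain ⟨t, ht⟩ := ray_RA5 hq' ((h6 0 (Nat.zero_le _)).trans s.2.1) n fun k hk => by
    rw [h5 k hk, r.len]
  exact ⟨t, by rw [ht]; exact h6, by rw [ht]; exact h5⟩

theorem compactSpace_ray [Finite V] : CompactSpace (Ray Γ) := by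
  let _ : TopologicalSpace (W Γ) := ⊥
  have : DiscreteTopology (W Γ) := ⟨rfl⟩
  have h1 : Topology.IsInducing (fun r : Ray Γ => r.1) := ⟨rfl⟩
  refine ⟨h1.isCompact_iff.2 ((isCompact_univ_pi fun n =>
    (finite_ball (Γ := Γ) n).isCompact).of_isClosed_subset ?_ ?_)⟩
  · have h2 : (fun r : Ray Γ => r.1) '' Set.univ = {r | r 0 = 1} ∩
        ⋂ m, ⋂ n, {r | (cay Γ).dist (r m) (r (m + n)) = n} := by
      ext r
      simp only [Set.mem_inter_iff, Set.mem_iInter, Set.mem_ofPred_eq]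
      exact ⟨fun ⟨q, _, h⟩ => h ▸ q.2, fun h => ⟨⟨r, h⟩, trivial, rfl⟩⟩
    rw [h2]
    refine (isClosed_eq (continuous_apply 0) continuous_const).inter
      (isClosed_iInter fun m => isClosed_iInter fun n => isClosed_eq ?_ continuous_const)
    have h3 : Continuous fun r : ℕ → W Γ => (r m, r (m + n)) :=
      (continuous_apply m).prodMk (continuous_apply (m + n))
    exact (continuous_of_discreteTopology (f := fun p : W Γ × W Γ => (cay Γ).dist p.1 p.2)).comp h3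
  · rintro _ ⟨r, -, rfl⟩ n -
    exact (r.len n).le

theorem continuous_bmk : Continuous (bmk (Γ := Γ)) := continuous_coinduced_rng

theorem isClopen_cyl (n : ℕ) (w : W Γ) : IsClopen {r : Ray Γ | r.1 n = w} := by
  let _ : TopologicalSpace (W Γ) := ⊥
  have : DiscreteTopology (W Γ) := ⟨rfl⟩
  have h1 : Topology.IsInducing (fun r : Ray Γ => r.1) := ⟨rfl⟩
  exact (isClopen_discrete {w}).preimage ((continuous_apply n).comp h1.continuous)

theorem compactSpace_bdry [Finite V] : CompactSpace (Bdry Γ) := by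
  have := compactSpace_ray (Γ := Γ)
  have h1 : Function.Surjective (bmk (Γ := Γ)) := Quot.mk_surjective
  exact h1.compactSpace continuous_bmk

theorem t2Space_bdry [Finite V] (h : ∃ a b, ¬ Adq Γ a b) (hn : NoSquare Γ) : T2Space (Bdry Γ) :=
  by
  let _ : TopologicalSpace (W Γ) := ⊥
  have : DiscreteTopology (W Γ) := ⟨rfl⟩
  have := Fintype.ofFinite V
  have := compactSpace_ray (Γ := Γ)
  have h1 : Topology.IsEmbedding (fun r : Ray Γ => r.1) := ⟨⟨rfl⟩, Subtype.val_injective⟩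
  have := h1.t2Space
  refine t2_RA5 (f := bmk) ⟨⟨rfl⟩, Quot.mk_surjective⟩ ?_
  simp only [bmk_eq_iff, req_iff h hn, Set.ofPred_forall]
  refine isClosed_iInter fun n => isClosed_le ?_ continuous_const
  exact (continuous_of_discreteTopology (f := fun p : W Γ × W Γ => (cay Γ).dist p.1 p.2)).comp
    (((continuous_apply n).comp (h1.continuous.comp continuous_fst)).prodMk
      ((continuous_apply n).comp (h1.continuous.comp continuous_snd)))

/-- Lebesgue number for cylinders. -/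
theorem exists_depth [Finite V] (U : Set (Set (Bdry Γ))) (hU : ∀ u ∈ U, IsOpen u)
    (hc : ∀ x, ∃ u ∈ U, x ∈ u) :
    ∃ R, ∀ s : Ray Γ, ∃ u ∈ U, ∀ q : Ray Γ, (∀ k ≤ R, q.1 k = s.1 k) → bmk q ∈ u := by
  have := compactSpace_ray (Γ := Γ)
  choose u hu hu' using hc
  choose R hR using fun r : Ray Γ =>
    cyl_RA5 ((hU _ (hu (bmk r))).preimage continuous_bmk) (r := r) (hu' (bmk r))
  obtain ⟨t, ht⟩ := isCompact_univ.elim_finite_subcover
    (fun r : Ray Γ => ⋂ k ∈ Finset.range (R r + 1), {q : Ray Γ | q.1 k = r.1 k})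
    (fun r => isOpen_biInter_finset fun k _ => (isClopen_cyl k _).isOpen)
    fun r _ => Set.mem_iUnion.2 ⟨r, by simp⟩
  refine ⟨t.sup R, fun s => ?_⟩
  obtain ⟨r, hr, h1⟩ := Set.mem_iUnion₂.1 (ht (Set.mem_univ s))
  refine ⟨_, hu (bmk r), fun q hq => hR r q fun k hk => ?_⟩
  rw [hq k (hk.trans (Finset.le_sup hr))]
  exact Set.mem_iInter₂.1 h1 k (Finset.mem_range.2 (by omega))

end Pool.Agent.MP_6374aa_gt

end

section

/-! Shadows of walls. -/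

namespace Pool.Agent.MP_6374aa_gt

open Classical

variable {V : Type} {Γ : SimpleGraph V}

attribute [local instance] rayTop bdryTop

theorem gate_RA6 {t g : W Γ} (hg : ∀ w, Plus t w → len Γ w = len Γ g + (cay Γ).dist g w)
    {s : Ray Γ} (hs : s.1 (len Γ g) = g) {x : Bdry Γ} (hx : x ∈ shadow t) :
    ∃ q : Ray Γ, (∀ k ≤ len Γ g, q.1 k = s.1 k) ∧ x = bmk q := by
  obtain ⟨r, ⟨n, hn⟩, rfl⟩ := hx
  have h1 := hg _ hn
  rw [r.len] at h1
  obtain ⟨q, h2, h3⟩ := exists_ray_splice r s (m := len Γ g) (n := n) (by omega)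
    (by rw [hs]; omega)
  refine ⟨q, h2, bmk_eq_iff.2 ⟨2 * n, fun k => ?_⟩⟩
  rcases le_total n k with h | h
  · rw [h3 k h, SimpleGraph.dist_self]
    exact Nat.zero_le _
  · have h4 := len_mul_le (r.1 k)⁻¹ (q.1 k)
    rw [len_inv, r.len, q.len] at h4
    rw [cay_dist]
    omega

theorem isRefl_RA6 {D : Set (W Γ)} {t : W Γ} (ht : t ∈ bw D) : IsRefl t :=
  let ⟨d, _, v, _, h⟩ := ht
  ⟨d, v, h⟩

theorem isCompact_shadow [Finite V] (h : ∃ a b, ¬ Adq Γ a b) {t : W Γ} (ht : IsRefl t) :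
    IsCompact (shadow t) := by
  obtain ⟨g, h1, h2⟩ := exists_gate ht
  obtain ⟨s, hs⟩ := exists_ray_through h g
  have := compactSpace_ray (Γ := Γ)
  have e : shadow t = bmk '' {r : Ray Γ | r.1 (len Γ g) = g} := by
    refine Set.Subset.antisymm (fun x hx => ?_) ?_
    · obtain ⟨q, h3, h4⟩ := gate_RA6 h2 hs hx
      exact ⟨q, (h3 _ le_rfl).trans hs, h4.symm⟩
    · rintro _ ⟨r, hr, rfl⟩
      exact ⟨r, ⟨len Γ g, (show r.1 (len Γ g) = g from hr).symm ▸ h1⟩, rfl⟩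
  rw [e]
  exact (isClopen_cyl _ _).isClosed.isCompact.image continuous_bmk

theorem shadow_cover {D : Set (W Γ)} (hD : Good D) (x : Bdry Γ) : ∃ t ∈ bw D, x ∈ shadow t := by
  obtain ⟨r, rfl⟩ := Quot.exists_rep x
  have hex : ∃ n, r.1 n ∉ D := by
    by_contra hn
    push Not at hn
    exact Set.infinite_of_injective_forall_mem (f := r.1)
      (fun a b e => by rw [← r.len a, e, r.len]) hn hD.1
  have h1 := Nat.find_spec hex
  have h2 := fun m => Nat.find_min hex (m := m)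
  generalize Nat.find hex = n at h1 h2
  rcases n with _ | k
  · exact absurd (by rw [r.2.1]; exact hD.2.1) h1
  obtain ⟨v, hv⟩ := cay_adj.1 (SimpleGraph.dist_eq_one_iff_adj.1 (r.2.2 k 1))
  refine ⟨r.1 k * sg Γ v * (r.1 k)⁻¹, ⟨r.1 k, not_not.1 (h2 k k.lt_succ_self), v, hv ▸ h1, rfl⟩,
    r, ⟨k + 1, ?_⟩, rfl⟩
  have h3 : r.1 k * sg Γ v * (r.1 k)⁻¹ * r.1 (k + 1) = r.1 k := by
    rw [hv, mul_assoc, inv_mul_cancel_left, mul_assoc, sg_mul_self, mul_one]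
  rw [Plus, h3, r.len, r.len]
  exact k.lt_succ_self

theorem shadow_meet (h : ∃ a b, ¬ Adq Γ a b) {t u : W Γ} (ht : IsRefl t) (hu : IsRefl u)
    (htu : Adq (cross Γ) t u) : (shadow t ∩ shadow u).Nonempty := by
  obtain ⟨w, h1, h2⟩ : ∃ w, Plus t w ∧ Plus u w := by
    rcases htu with rfl | htu
    · obtain ⟨g, hg, -⟩ := exists_gate ht
      exact ⟨g, hg, hg⟩
    · obtain ⟨w, h1, h2⟩ := exists_quadrant ht hu htu True True
      exact ⟨w, h1.2 trivial, h2.2 trivial⟩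
  obtain ⟨r, hr⟩ := exists_ray_through h w
  exact ⟨bmk r, ⟨r, ⟨_, hr.symm ▸ h1⟩, rfl⟩, r, ⟨_, hr.symm ▸ h2⟩, rfl⟩

theorem adq_of_shadow [Finite V] (h : ∃ a b, ¬ Adq Γ a b) (hn : NoSquare Γ) {D : Set (W Γ)}
    (hD : Good D) {t u : W Γ} (ht : t ∈ bw D) (hu : u ∈ bw D)
    (hm : (shadow t ∩ shadow u).Nonempty) : Adq (cross Γ) t u := by
  obtain ⟨x, ⟨r, h1, rfl⟩, s, h2, e⟩ := hm
  obtain ⟨w, h3, h4⟩ := (bmk_eq_iff.1 e).exists_plus h hn (isRefl_RA6 ht) (isRefl_RA6 hu) h1 h2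
  exact hD.adq_of_plus ht hu h3 h4

theorem shadow_mesh [Finite V] (h : ∃ a b, ¬ Adq Γ a b) (U : Set (Set (Bdry Γ)))
    (hU : ∀ u ∈ U, IsOpen u) (hc : ∀ x, ∃ u ∈ U, x ∈ u) :
    ∃ R, ∀ t, IsRefl t → (∀ w, len Γ w ≤ R → ¬ Plus t w) → ∃ u ∈ U, shadow t ⊆ u := by
  obtain ⟨R, hR⟩ := exists_depth U hU hc
  refine ⟨R, fun t ht hw => ?_⟩
  obtain ⟨g, h1, h2⟩ := exists_gate ht
  obtain ⟨s, hs⟩ := exists_ray_through h g
  obtain ⟨u, h3, h4⟩ := hR s
  have h5 : R ≤ len Γ g := (not_le.1 fun h => hw g h h1).le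
  refine ⟨u, h3, fun x hx => ?_⟩
  obtain ⟨q, h6, rfl⟩ := gate_RA6 h2 hs hx
  exact h4 q fun k hk => h6 k (hk.trans h5)

/-- Swelling a finite family of compact sets without creating new intersections. -/
theorem exists_swelling {X ι : Type} [TopologicalSpace X] [T2Space X] {A : Set ι} (hA : A.Finite)
    (K : ι → Set X) (hK : ∀ i ∈ A, IsCompact (K i)) :
    ∃ O : ι → Set X, (∀ i ∈ A, IsOpen (O i) ∧ K i ⊆ O i) ∧
      ∀ i ∈ A, ∀ j ∈ A, (O i ∩ O j).Nonempty → (K i ∩ K j).Nonempty := by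
  have key : ∀ i j, ∃ P Q : Set X, IsOpen P ∧ IsOpen Q ∧ K i ⊆ P ∧ K j ⊆ Q ∧
      (i ∈ A → j ∈ A → Disjoint (K i) (K j) → Disjoint P Q) := fun i j => by
    by_cases h : i ∈ A ∧ j ∈ A ∧ Disjoint (K i) (K j)
    · obtain ⟨P, Q, h1, h2, h3, h4, h5⟩ :=
        SeparatedNhds.of_isCompact_isCompact (hK i h.1) (hK j h.2.1) h.2.2
      exact ⟨P, Q, h1, h2, h3, h4, fun _ _ _ => h5⟩
    · exact ⟨_, _, isOpen_univ, isOpen_univ, Set.subset_univ _, Set.subset_univ _,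
        fun a b c => absurd ⟨a, b, c⟩ h⟩
  choose P Q h1 h2 h3 h4 h5 using key
  refine ⟨fun i => ⋂ j ∈ A, P i j ∩ Q j i, fun i _ => ⟨hA.isOpen_biInter fun j _ =>
    (h1 i j).inter (h2 j i), Set.subset_iInter₂ fun j _ => Set.subset_inter (h3 i j) (h4 j i)⟩,
    fun i hi j hj ⟨x, hx, hx'⟩ => ?_⟩
  exact Set.not_disjoint_iff_nonempty_inter.1 fun hd => Set.disjoint_left.1 (h5 i j hi hj hd)
    (Set.mem_iInter₂.1 hx j hj).1 (Set.mem_iInter₂.1 hx' i hi).2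

end Pool.Agent.MP_6374aa_gt

end
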