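import Pool.Agent.Mg.F6374aa.Ge6e9b2

section

namespace Pool.Agent.MP_6374aa_gt

open Classical

variable {V V' V'' : Type} {G : SimpleGraph V} {G' : SimpleGraph V'} {G'' : SimpleGraph V''}

theorem Lk_sub_ChC1 {S : Set V} {v : V} : Lk G S {v} ⊆ S \ {v} := by
  intro w hw
  refine ⟨hw.1, fun h => ?_⟩
  have h1 : G.Adj v w := hw.2 v rfl
  rw [Set.mem_singleton_iff.1 h] at h1
  exact G.irrefl h1

theorem step_ChC1 {S' : Set V'} {S : Set V} {h h' : V' → V} (hh : IsHom G' S' G S h)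
    (hh' : IsHom G' S' G S h') {a : V'} (hne : ∀ x, x ≠ a → h x = h' x)
    (ha : a ∈ S' → Adq G (h a) (h' a)) {n : ℕ} {z : EA V'} (hz : z ∈ Zy G' S' n) :
    emap h z - emap h' z ∈ Bd G S n := by
  obtain ⟨hzc, hzb⟩ := mem_Zy.1 hz
  by_cases haS : a ∈ S'
  swap
  · rw [emap_congr (g := h') (fun x hx => hne x (fun e => haS (e ▸ hx))) hzc, sub_self]
    exact Submodule.zero_mem _
  cases n with
  | zero =>
    obtain ⟨r, rfl⟩ := mem_Ch_zero.1 hzc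
    simp
  | succ m =>
    obtain ⟨huc, hub⟩ := mem_Zy.1 (iv_mem_Zy a hz)
    have hz0 := sub_vx_mul_iv_mem_Ch a hzc
    have e0 : emap h (z - vx a * iv a z) = emap h' (z - vx a * iv a z) :=
      emap_congr (fun x hx => hne x hx.2) hz0
    have e1 : emap h (iv a z) = emap h' (iv a z) :=
      emap_congr (fun x hx => hne x (Lk_sub_ChC1 hx).2) huc
    have hw : bd (emap h (iv a z)) = 0 := by rw [← emap_bd, hub, map_zero]
    have hT : IsHom G' (Lk G' S' {a}) G {t | t ∈ S ∧ Adq G (h a) t ∧ Adq G (h' a) t} h := by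
      refine hh.mono (fun x hx => hx.1) fun x hx => ⟨hh.1 x hx.1, ?_, ?_⟩
      · exact hh.2 a haS x hx.1 (hx.2 a rfl)
      · rw [hne x (Lk_sub_ChC1 hx).2]
        exact hh'.2 a haS x hx.1 (hx.2 a rfl)
    have m1 := emap_mem_Ch hT huc
    have m2 : vx (h a) * emap h (iv a z) ∈ Ch G {t | t ∈ S ∧ Adq G (h' a) t} (m + 1) :=
      vx_mul_mem_Ch (T := {t | t ∈ S ∧ Adq G (h a) t ∧ Adq G (h' a) t})
        (And.intro (hh.1 a haS) (ha haS).symm) (fun t ht => And.intro ht.1 ht.2.2)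
        (fun t ht => ht.2.1) m1
    have m3 : vx (h' a) * (vx (h a) * emap h (iv a z)) ∈ Ch G S (m + 1 + 1) :=
      vx_mul_mem_Ch (T := {t | t ∈ S ∧ Adq G (h' a) t}) (hh'.1 a haS) (fun t ht => ht.1)
        (fun t ht => ht.2) m2
    refine mem_Bd.2 ⟨_, m3, ?_⟩
    rw [bd_vx_mul, bd_vx_mul, hw, mul_zero, sub_zero]
    rw [map_sub, map_sub, emap_mul, emap_mul, emap_vx, emap_vx, ← e1] at e0
    have : emap h z = emap h' z - vx (h' a) * emap h (iv a z) + vx (h a) * emap h (iv a z) := by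
      rw [← e0]; abel
    rw [this]; abel

/-- Strongly contiguous maps agree on homology. -/
theorem emap_sub_mem_Bd {S' : Set V'} {S : Set V} {f g : V' → V} (hf : IsHom G' S' G S f)
    (hg : IsHom G' S' G S g) (h : SC G' S' G f g) {n : ℕ} {z : EA V'} (hz : z ∈ Zy G' S' n) :
    emap f z - emap g z ∈ Bd G S n := by
  have hom : ∀ s : Finset V', IsHom G' S' G S (fun x => if x ∈ s then g x else f x) := by
    intro s
    refine ⟨fun a ha => ?_, fun a ha b hb hab => ?_⟩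
    · dsimp only
      split_ifs
      · exact hg.1 a ha
      · exact hf.1 a ha
    · dsimp only
      split_ifs
      · exact hg.2 a ha b hb hab
      · exact (h b hb a ha (Or.inr hab.symm)).symm
      · exact h a ha b hb (Or.inr hab)
      · exact hf.2 a ha b hb hab
  have key : ∀ s : Finset V',
      emap f z - emap (fun x => if x ∈ s then g x else f x) z ∈ Bd G S n := by
    intro s
    induction s using Finset.induction_on with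
    | empty => simp
    | insert a s has ih =>
      have st := step_ChC1 (a := a) (hom s) (hom (insert a s))
        (fun x hx => by simp [hx])
        (fun ha => by
          simp only [has, if_false, Finset.mem_insert, true_or, if_true]
          exact h a ha a ha (Adq.refl _ _)) hz
      have := Submodule.add_mem _ ih st
      rwa [sub_add_sub_cancel] at this
  obtain ⟨S0, -, hS0⟩ := exists_finite_support (mem_Zy.1 hz).1
  have e : emap (fun x => if x ∈ S0 then g x else f x) z = emap g z :=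
    emap_congr (fun a ha => by simp [Finset.mem_coe.1 ha]) hS0
  rw [← e]
  exact key S0

theorem Contr.Zy_le_Bd {S : Set V} (h : Contr G S) (n : ℕ) : Zy G S n ≤ Bd G S n := by
  obtain ⟨m, f, a, ha, h0, hm, hom, hsc⟩ := h
  intro z hz
  have key : ∀ i, z - emap (f i) z ∈ Bd G S n := by
    intro i
    induction i with
    | zero =>
      rw [emap_eq_self h0 (mem_Zy.1 hz).1, sub_self]
      exact Submodule.zero_mem _
    | succ i ih =>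
      have := Submodule.add_mem _ ih (emap_sub_mem_Bd (hom i) (hom (i + 1)) (hsc i) hz)
      rwa [sub_add_sub_cancel] at this
  have h1 : IsHom G S G {a} (f m) := (hom m).mono subset_rfl fun x hx => hm x hx
  have h2 : emap (f m) z ∈ Bd G S n :=
    Zy_le_Bd_of_cone ha (Set.singleton_subset_iff.2 ha)
      (fun t ht => by rw [Set.mem_singleton_iff.1 ht]; exact Adq.refl _ _) n (emap_mem_Zy h1 hz)
  have := Submodule.add_mem _ (key m) h2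
  rwa [sub_add_cancel] at this

theorem contr_of_cone {S : Set V} {v : V} (hv : v ∈ S) (h : ∀ t ∈ S, Adq G v t) : Contr G S := by
  refine ⟨1, fun i x => if i = 0 then x else v, v, hv, fun x _ => by simp, fun x _ => by simp,
    fun i => ⟨fun a ha => ?_, fun a _ b _ hab => ?_⟩, fun i a ha b _ _ => ?_⟩
  · dsimp only
    split_ifs
    · exact ha
    · exact hv
  · dsimp only
    split_ifs
    · exact Or.inr hab
    · exact Adq.refl _ _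
  · simp only [Nat.succ_ne_zero, if_false]
    split_ifs
    · exact (h a ha).symm
    · exact Adq.refl _ _

theorem IsIso.contr {S' : Set V'} {S : Set V} {f : V' → V} (h : IsIso G' S' G S f)
    (hc : Contr G S) : Contr G' S' := by
  obtain ⟨m, k, a, ha, h0, hm, hom, hsc⟩ := hc
  obtain ⟨a', -, -⟩ := h.1.surjOn ha
  have : Nonempty V' := ⟨a'⟩
  obtain ⟨g, hg, hgf, -⟩ := h.exists_inv
  refine ⟨m, fun i => g ∘ (k i ∘ f), g a, hg.1.mapsTo ha, fun x hx => ?_, fun x hx => ?_,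
    fun i => hg.isHom.comp ((hom i).comp h.isHom), fun i x hx y hy hxy => ?_⟩
  · simp only [Function.comp]
    rw [h0 _ (h.1.mapsTo hx), hgf x hx]
  · simp only [Function.comp]
    rw [hm _ (h.1.mapsTo hx)]
  · exact hg.isHom.adq ((hom i).1 _ (h.1.mapsTo hx)) ((hom (i + 1)).1 _ (h.1.mapsTo hy))
      (hsc i _ (h.1.mapsTo hx) _ (h.1.mapsTo hy) (h.isHom.adq hx hy hxy))

theorem IsIso.cl {S' : Set V'} {S : Set V} {f : V' → V} (h : IsIso G' S' G S f) :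
    CL G' S' G S f := by
  refine ⟨h.isHom, fun τ hne hτ hcl => ?_⟩
  obtain ⟨t, ht⟩ := hne
  obtain ⟨v, hv, rfl⟩ := h.1.surjOn (hτ (Finset.mem_coe.2 ht))
  refine contr_of_cone (v := v) ⟨hv, Finset.mem_coe.2 ht⟩ fun w hw => ?_
  by_cases e : f v = f w
  · exact Or.inl (h.1.injOn hv hw.1 e)
  · exact Or.inr ((h.2 v hv w hw.1).2 (hcl (Finset.mem_coe.2 ht) hw.2 e))

/-- Mayer-Vietoris, surjectivity part. -/
theorem mv_Zy {S S1 S2 : Set V} {n : ℕ} (h1 : S1 ⊆ S) (h2 : S2 ⊆ S)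
    (h : ∀ l : List V, IsCl G S l → (∀ x ∈ l, x ∈ S1) ∨ ∀ x ∈ l, x ∈ S2)
    (hi : Zy G (S1 ∩ S2) n ≤ Bd G (S1 ∩ S2) n) :
    Zy G S (n + 1) ≤ Zy G S1 (n + 1) ⊔ Zy G S2 (n + 1) := by
  have _h1 := h1
  have _h2 := h2
  intro z hz
  obtain ⟨hzc, hzb⟩ := mem_Zy.1 hz
  obtain ⟨c1, hc1, c2, hc2, rfl⟩ := Submodule.mem_sup.1 (Ch_le_sup h hzc)
  rw [map_add] at hzb
  have e : bd c1 = - bd c2 := eq_neg_of_add_eq_zero_left hzb
  have m1 : bd c1 ∈ Ch G (S1 ∩ S2) n :=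
    mem_Ch_inter (bd_mem_Ch hc1) (e ▸ Submodule.neg_mem _ (bd_mem_Ch hc2))
  obtain ⟨y, hy, hyb⟩ := mem_Bd.1 (hi (mem_Zy.2 ⟨m1, bd_bd _⟩))
  refine Submodule.mem_sup.2 ⟨c1 - y, mem_Zy.2 ⟨Submodule.sub_mem _ hc1
    (Ch_mono Set.inter_subset_left _ hy), by rw [map_sub, hyb, sub_self]⟩, c2 + y,
    mem_Zy.2 ⟨Submodule.add_mem _ hc2 (Ch_mono Set.inter_subset_right _ hy), ?_⟩, by abel⟩
  rw [map_add, hyb, e, add_neg_cancel]

/-- Mayer-Vietoris, injectivity part. -/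
theorem mv_Bd {S S1 S2 : Set V} {n : ℕ}
    (h : ∀ l : List V, IsCl G S l → (∀ x ∈ l, x ∈ S1) ∨ ∀ x ∈ l, x ∈ S2)
    {z1 z2 : EA V} (hz1 : z1 ∈ Zy G S1 n) (hz2 : z2 ∈ Zy G S2 n) (hb : z1 - z2 ∈ Bd G S n) :
    ∃ y ∈ Zy G (S1 ∩ S2) n, z1 - y ∈ Bd G S1 n ∧ z2 - y ∈ Bd G S2 n := by
  obtain ⟨w, hw, hwb⟩ := mem_Bd.1 hb
  obtain ⟨c1, hc1, c2, hc2, rfl⟩ := Submodule.mem_sup.1 (Ch_le_sup h hw)
  rw [map_add] at hwb
  have e : z1 - bd c1 = z2 + bd c2 := by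
    have : z1 = bd c1 + bd c2 + z2 := by rw [hwb]; abel
    rw [this]; abel
  refine ⟨z1 - bd c1, mem_Zy.2 ⟨mem_Ch_inter
    (Submodule.sub_mem _ (mem_Zy.1 hz1).1 (bd_mem_Ch hc1))
    (e ▸ Submodule.add_mem _ (mem_Zy.1 hz2).1 (bd_mem_Ch hc2)), ?_⟩, ?_, ?_⟩
  · rw [map_sub, (mem_Zy.1 hz1).2, bd_bd, sub_self]
  · exact mem_Bd.2 ⟨c1, hc1, by abel⟩
  · refine mem_Bd.2 ⟨-c2, Submodule.neg_mem _ hc2, ?_⟩
    rw [e, map_neg]; abel

/-- Adding a vertex with acyclic link: injectivity. -/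
theorem mem_Bd_diff {S : Set V} {v : V} {n : ℕ}
    (h : Zy G (Lk G S {v}) n ≤ Bd G (S \ {v}) n) {z : EA V} (hz : z ∈ Zy G (S \ {v}) n)
    (hb : z ∈ Bd G S n) : z ∈ Bd G (S \ {v}) n := by
  obtain ⟨w, hw, rfl⟩ := mem_Bd.1 hb
  have hu : bd (iv v w) = 0 := by
    have h0 : iv v (bd w) = 0 := iv_eq_zero (fun hv => hv.2 rfl) (mem_Zy.1 hz).1
    rw [iv_bd] at h0
    exact neg_eq_zero.1 h0
  have m1 : iv v w ∈ Bd G (S \ {v}) n := h (mem_Zy.2 ⟨iv_mem_Ch v hw, hu⟩)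
  have m2 : bd (w - vx v * iv v w) ∈ Bd G (S \ {v}) n :=
    mem_Bd.2 ⟨_, sub_vx_mul_iv_mem_Ch v hw, rfl⟩
  have := Submodule.add_mem _ m2 m1
  rwa [map_sub, bd_vx_mul, hu, mul_zero, sub_zero, sub_add_cancel] at this

/-- Adding a vertex with acyclic link: surjectivity. -/
theorem Zy_le_diff {S : Set V} {v : V} {n : ℕ}
    (h : Zy G (Lk G S {v}) n ≤ Bd G (Lk G S {v}) n) :
    Zy G S (n + 1) ≤ Zy G (S \ {v}) (n + 1) ⊔ Bd G S (n + 1) := by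
  intro z hz
  by_cases hv : v ∈ S
  swap
  · have hs : S ⊆ S \ {v} := by
      intro x hx
      refine ⟨hx, fun e => hv ?_⟩
      rw [← Set.mem_singleton_iff.1 e]
      exact hx
    exact Submodule.mem_sup_left (Zy_mono hs _ hz)
  obtain ⟨hzc, hzb⟩ := mem_Zy.1 hz
  obtain ⟨y, hy, hyb⟩ := mem_Bd.1 (h (iv_mem_Zy v hz))
  have m1 : vx v * y ∈ Ch G S (n + 1 + 1) :=
    vx_mul_mem_Ch (T := Lk G S {v}) hv (fun x hx => hx.1) (fun t ht => Or.inr (ht.2 v rfl)) hy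
  refine Submodule.mem_sup.2 ⟨z + bd (vx v * y), mem_Zy.2 ⟨?_, ?_⟩, - bd (vx v * y),
    Submodule.neg_mem _ (mem_Bd.2 ⟨_, m1, rfl⟩), by abel⟩
  · have := Submodule.add_mem _ (sub_vx_mul_iv_mem_Ch v hzc) (Ch_mono Lk_sub_ChC1 _ hy)
    rw [bd_vx_mul, hyb]
    convert this using 1
    abel
  · rw [map_add, hzb, bd_bd, add_zero]

end Pool.Agent.MP_6374aa_gt

end

section

namespace Pool.Agent.MP_6374aa_gt

open Classical

variable {V V' V'' : Type} {G : SimpleGraph V} {G' : SimpleGraph V'} {G'' : SimpleGraph V''}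

theorem avoid_ChC2 {S N T : Set V} {n : ℕ} (hN : ∀ a ∈ N, ∀ b ∈ N, ¬ G.Adj a b)
    (h : ∀ v ∈ N, v ∈ S → Zy G (Lk G S {v}) n ≤ Bd G (Lk G S {v}) n) (hT : T ⊆ S)
    (hT' : S \ N ⊆ T) (s : Finset V) (hs : ↑s ⊆ N) :
    Zy G T (n + 1) ≤ Zy G (T \ s) (n + 1) ⊔ Bd G S (n + 1) := by
  induction s using Finset.induction_on with
  | empty => exact le_sup_of_le_left (Zy_mono (by simp) _)
  | insert v s _ ih =>
    rw [Finset.coe_insert, Set.insert_subset_iff] at hs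
    refine (ih hs.2).trans (sup_le ?_ le_sup_right)
    have e : T \ ↑(insert v s) = (T \ ↑s) \ {v} := by
      ext x
      simp only [Finset.coe_insert, Set.mem_sdiff, Set.mem_insert_iff, Set.mem_singleton_iff]
      tauto
    rw [e]
    by_cases hv : v ∈ S
    · have e2 : Lk G (T \ ↑s) {v} = Lk G S {v} := by
        ext x
        refine ⟨fun hx => ⟨hT hx.1.1, hx.2⟩, fun hx => ⟨?_, hx.2⟩⟩
        have hx' : x ∉ N := fun hx' => hN v hs.1 x hx' (hx.2 v rfl)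
        exact ⟨hT' ⟨hx.1, hx'⟩, fun h3 => hx' (hs.2 h3)⟩
      exact (Zy_le_diff (e2 ▸ h v hs.1 hv)).trans
        (sup_le_sup_left (Bd_mono (Set.sdiff_subset.trans hT) _) _)
    · refine le_sup_of_le_left (Zy_mono (fun x hx => ?_) _)
      exact ⟨hx, fun h3 => hv (h3 ▸ hT hx.1)⟩

/-- Cycles can be pushed off a set of pairwise non-adjacent vertices with acyclic links. -/
theorem Zy_le_avoid {S N : Set V} {n : ℕ} (hN : ∀ a ∈ N, ∀ b ∈ N, ¬ G.Adj a b)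
    (h : ∀ v ∈ N, v ∈ S → Zy G (Lk G S {v}) n ≤ Bd G (Lk G S {v}) n) :
    Zy G S (n + 1) ≤ Zy G (S \ N) (n + 1) ⊔ Bd G S (n + 1) := by
  intro z hz
  obtain ⟨S0, h0, h1⟩ := exists_finite_support (mem_Zy.1 hz).1
  have h2 := avoid_ChC2 (T := (S \ N) ∪ S0) hN h (Set.union_subset Set.sdiff_subset h0)
    Set.subset_union_left (S0.filter (· ∈ N)) (fun x hx => (Finset.mem_filter.1 hx).2)
    (mem_Zy.2 ⟨Ch_mono Set.subset_union_right _ h1, (mem_Zy.1 hz).2⟩)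
  refine sup_le_sup_right (Zy_mono ?_ _) _ h2
  rintro x ⟨hx | hx, hx'⟩
  · exact hx
  · exact ⟨h0 hx, fun h3 => hx' (Finset.mem_filter.2 ⟨hx, h3⟩)⟩

/-- The conclusion of the fibre lemma. -/
def Fib_ChC2 (G' : SimpleGraph V') (A' : Set V') (G : SimpleGraph V) (c : V' → V) (S : Set V)
    (n : ℕ) : Prop :=
  (∀ z ∈ Zy G' (A' ∩ c ⁻¹' S) n, emap c z ∈ Bd G S n → z ∈ Bd G' (A' ∩ c ⁻¹' S) n) ∧
    ∀ z ∈ Zy G S n, ∃ z' ∈ Zy G' (A' ∩ c ⁻¹' S) n, emap c z' - z ∈ Bd G S n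

theorem split_ChC2 {S S1 S2 : Set V} {n : ℕ}
    (h : ∀ l : List V, IsCl G S l → (∀ x ∈ l, x ∈ S1) ∨ ∀ x ∈ l, x ∈ S2) {z : EA V}
    (hz : z ∈ Zy G S (n + 1)) : ∃ a ∈ Ch G S1 (n + 1), ∃ b ∈ Ch G S2 (n + 1), a + b = z ∧
      bd b = - bd a ∧ bd a ∈ Zy G (S1 ∩ S2) n := by
  obtain ⟨a, ha, b, hb, e⟩ := Submodule.mem_sup.1 (Ch_le_sup h (mem_Zy.1 hz).1)
  have e2 : bd b = - bd a := by
    rw [eq_neg_iff_add_eq_zero, ← map_add, add_comm, e, (mem_Zy.1 hz).2]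
  refine ⟨a, ha, b, hb, e, e2, mem_Zy.2 ⟨mem_Ch_inter (bd_mem_Ch ha) ?_, bd_bd _⟩⟩
  rw [← neg_neg (bd a), ← e2]
  exact neg_mem (bd_mem_Ch hb)

theorem zero_ChC2 {A' : Set V'} {c : V' → V} {S : Set V} :
    ∀ z ∈ Zy G S 0, ∃ z' ∈ Zy G' A' 0, emap c z' - z ∈ Bd G S 0 := by
  intro z hz
  obtain ⟨r, rfl⟩ := mem_Ch_zero.1 (mem_Zy.1 hz).1
  refine ⟨r • 1, mem_Zy.2 ⟨mem_Ch_zero.2 ⟨r, rfl⟩, by rw [map_smul, bd_one, smul_zero]⟩, ?_⟩
  rw [map_smul, emap_one, sub_self]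
  exact zero_mem _

theorem mv_ChC2 {A' : Set V'} {A : Set V} {c : V' → V} (hc : IsHom G' A' G A c) {S S1 S2 : Set V}
    (s1 : S1 ⊆ S) (s2 : S2 ⊆ S)
    (h : ∀ l : List V, IsCl G S l → (∀ x ∈ l, x ∈ S1) ∨ ∀ x ∈ l, x ∈ S2)
    (h' : ∀ l : List V', IsCl G' (A' ∩ c ⁻¹' S) l →
      (∀ x ∈ l, x ∈ A' ∩ c ⁻¹' S1) ∨ ∀ x ∈ l, x ∈ A' ∩ c ⁻¹' S2)
    (f1 : ∀ n, Fib_ChC2 G' A' G c S1 n) (f2 : ∀ n, Fib_ChC2 G' A' G c S2 n)
    (f3 : ∀ n, Fib_ChC2 G' A' G c (S1 ∩ S2) n) (n : ℕ) : Fib_ChC2 G' A' G c S n := by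
  have hom : ∀ T : Set V, IsHom G' (A' ∩ c ⁻¹' T) G T c := fun T =>
    hc.mono Set.inter_subset_left fun a ha => ha.2
  have up : ∀ {T T' : Set V}, T ⊆ T' → A' ∩ c ⁻¹' T ⊆ A' ∩ c ⁻¹' T' := fun hT x hx =>
    ⟨hx.1, hT hx.2⟩
  have l1 : S1 ∩ S2 ⊆ S1 := Set.inter_subset_left
  have l2 : S1 ∩ S2 ⊆ S2 := Set.inter_subset_right
  have eU : (A' ∩ c ⁻¹' S1) ∩ (A' ∩ c ⁻¹' S2) ⊆ A' ∩ c ⁻¹' (S1 ∩ S2) := fun x hx =>
    ⟨hx.1.1, hx.1.2, hx.2.2⟩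
  constructor
  · intro z hz hb
    obtain ⟨z1, hz1, z2, hz2, rfl⟩ : ∃ z1 ∈ Zy G' (A' ∩ c ⁻¹' S1) n,
        ∃ z2 ∈ Zy G' (A' ∩ c ⁻¹' S2) n, z1 + z2 = z := by
      rcases n with _ | n
      · exact ⟨z, mem_Zy.2 ⟨mem_Ch_zero.2 (mem_Ch_zero.1 (mem_Zy.1 hz).1), (mem_Zy.1 hz).2⟩, 0,
          zero_mem _, add_zero _⟩
      obtain ⟨a, ha, b, hb', rfl, e, hy⟩ := split_ChC2 h' hz
      obtain ⟨w, hw, ew⟩ := mem_Bd.1 hb
      obtain ⟨w1, hw1, w2, hw2, rfl⟩ := Submodule.mem_sup.1 (Ch_le_sup h hw)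
      rw [map_add, map_add] at ew
      have e1 : emap c a - bd w1 = bd w2 - emap c b := by
        rw [sub_eq_sub_iff_add_eq_add, ← ew, add_comm]
      obtain ⟨t, ht, et⟩ := mem_Bd.1 ((f3 n).1 _ (Zy_mono eU _ hy) (mem_Bd.2 ⟨emap c a - bd w1,
        mem_Ch_inter (sub_mem (emap_mem_Ch (hom _) ha) (bd_mem_Ch hw1))
          (e1 ▸ sub_mem (bd_mem_Ch hw2) (emap_mem_Ch (hom _) hb')),
        by rw [map_sub, bd_bd, sub_zero, emap_bd]⟩))
      refine ⟨a - t, mem_Zy.2 ⟨sub_mem ha (Ch_mono (up l1) _ ht), ?_⟩, b + t,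
        mem_Zy.2 ⟨add_mem hb' (Ch_mono (up l2) _ ht), ?_⟩, by abel⟩
      · rw [map_sub, et, sub_self]
      · rw [map_add, et, e, neg_add_cancel]
    obtain ⟨y, hy, b1, b2⟩ := mv_Bd h (emap_mem_Zy (hom _) hz1)
      (neg_mem (emap_mem_Zy (hom _) hz2)) (by rwa [sub_neg_eq_add, ← map_add])
    obtain ⟨y', hy', b3⟩ := (f3 n).2 y hy
    have c1 := (f1 n).1 (z1 - y') (sub_mem hz1 (Zy_mono (up l1) _ hy')) (by
      rw [map_sub, show emap c z1 - emap c y' = emap c z1 - y - (emap c y' - y) by abel]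
      exact sub_mem b1 (Bd_mono l1 _ b3))
    have c2 := (f2 n).1 (z2 + y') (add_mem hz2 (Zy_mono (up l2) _ hy')) (by
      rw [map_add, show emap c z2 + emap c y' = emap c y' - y - (-emap c z2 - y) by abel]
      exact sub_mem (Bd_mono l2 _ b3) b2)
    rw [show z1 + z2 = z1 - y' + (z2 + y') by abel]
    exact add_mem (Bd_mono (up s1) _ c1) (Bd_mono (up s2) _ c2)
  · rcases n with _ | n
    · exact zero_ChC2
    intro z hz
    obtain ⟨a, ha, b, hb, rfl, e, hy⟩ := split_ChC2 h hz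
    obtain ⟨y', hy', b3⟩ := (f3 n).2 _ hy
    obtain ⟨t, ht, et⟩ := mem_Bd.1 b3
    have e1 : bd (a + t) = emap c y' := by rw [map_add, et, add_sub_cancel]
    have e2 : bd (t - b) = emap c y' := by rw [map_sub, et, e, sub_neg_eq_add, sub_add_cancel]
    have m1 := add_mem ha (Ch_mono l1 _ ht)
    have m2 := sub_mem (Ch_mono l2 _ ht) hb
    obtain ⟨b1, hb1, eb1⟩ := mem_Bd.1 ((f1 n).1 y' (Zy_mono (up l1) _ hy') (mem_Bd.2 ⟨_, m1, e1⟩))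
    obtain ⟨b2, hb2, eb2⟩ := mem_Bd.1 ((f2 n).1 y' (Zy_mono (up l2) _ hy') (mem_Bd.2 ⟨_, m2, e2⟩))
    obtain ⟨x1, hx1, c1⟩ := (f1 (n + 1)).2 (emap c b1 - (a + t)) (mem_Zy.2
      ⟨sub_mem (emap_mem_Ch (hom _) hb1) m1, by rw [map_sub, ← emap_bd, eb1, e1, sub_self]⟩)
    obtain ⟨x2, hx2, c2⟩ := (f2 (n + 1)).2 (emap c b2 - (t - b)) (mem_Zy.2
      ⟨sub_mem (emap_mem_Ch (hom _) hb2) m2, by rw [map_sub, ← emap_bd, eb2, e2, sub_self]⟩)
    refine ⟨b1 - x1 - (b2 - x2), mem_Zy.2 ⟨sub_mem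
      (Ch_mono (up s1) _ (sub_mem hb1 (mem_Zy.1 hx1).1))
      (Ch_mono (up s2) _ (sub_mem hb2 (mem_Zy.1 hx2).1)), ?_⟩, ?_⟩
    · rw [map_sub, map_sub, map_sub, eb1, eb2, (mem_Zy.1 hx1).2, (mem_Zy.1 hx2).2, sub_self]
    · rw [map_sub, map_sub, map_sub, show emap c b1 - emap c x1 - (emap c b2 - emap c x2) - (a + b) =
        emap c x2 - (emap c b2 - (t - b)) - (emap c x1 - (emap c b1 - (a + t))) by abel]
      exact sub_mem (Bd_mono s2 _ c2) (Bd_mono s1 _ c1)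

theorem empty_ChC2 {n : ℕ} {z : EA V} (hz : z ∈ Ch G ∅ (n + 1)) : z = 0 :=
  eq_zero_of_iv hz fun _ h => h.elim

theorem fin_ChC2 {A' : Set V'} {A : Set V} {c : V' → V} (hc : IsHom G' A' G A c)
    (h : ∀ τ : Finset V, τ.Nonempty → ↑τ ⊆ A → G.IsClique (τ : Set V) →
      ∀ n, Zy G' (A' ∩ c ⁻¹' τ) n ≤ Bd G' (A' ∩ c ⁻¹' τ) n) (S : Finset V) :
    ↑S ⊆ A → ∀ n, Fib_ChC2 G' A' G c S n := by
  induction S using Finset.strongInduction with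
  | H S ih =>
  intro hS n
  have ih' : ∀ T : Set V, T ⊆ S → (∃ v ∈ S, v ∉ T) → ∀ n, Fib_ChC2 G' A' G c T n := by
    rintro T hT ⟨v, hv, hv'⟩
    lift T to Finset V using S.finite_toSet.subset hT
    exact ih T (Finset.ssubset_iff_subset_ne.2 ⟨hT, fun e => hv' (e ▸ hv)⟩) (hT.trans hS)
  by_cases hcl : ∀ v ∈ S, ∀ w ∈ S, Adq G v w
  · rcases S.eq_empty_or_nonempty with rfl | ⟨v, hv⟩
    · rw [Fib_ChC2, Finset.coe_empty, Set.preimage_empty, Set.inter_empty]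
      rcases n with _ | n
      · refine ⟨fun z hz hb => ?_, zero_ChC2⟩
        obtain ⟨r, rfl⟩ := mem_Ch_zero.1 (mem_Zy.1 hz).1
        obtain ⟨w, hw, e⟩ := mem_Bd.1 hb
        rw [empty_ChC2 hw, map_zero, map_smul, emap_one] at e
        have h1 : (1 : EA V) ≠ 0 := wedge_nil (V := V) ▸ wedge_ne_zero List.nodup_nil
        rw [(smul_eq_zero.1 e.symm).resolve_right h1, zero_smul]
        exact zero_mem _
      · refine ⟨fun z hz _ => ?_, fun z hz => ⟨0, zero_mem _, ?_⟩⟩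
        · rw [empty_ChC2 (mem_Zy.1 hz).1]
          exact zero_mem _
        · rw [empty_ChC2 (mem_Zy.1 hz).1, map_zero, sub_zero]
          exact zero_mem _
    · refine ⟨fun z hz _ => h S ⟨v, hv⟩ hS (fun a ha b hb hab => (hcl a ha b hb).resolve_left hab)
        n hz, fun z hz => ⟨0, zero_mem _, ?_⟩⟩
      rw [map_zero, zero_sub]
      exact neg_mem (Zy_le_Bd_of_cone (v := v) hv subset_rfl (hcl v hv) n hz)
  · push Not at hcl
    obtain ⟨v, hv, w, hw, hvw⟩ := hcl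
    refine mv_ChC2 hc (S1 := ↑S \ {v}) (S2 := {x | x ∈ S ∧ Adq G v x}) Set.sdiff_subset
      (fun x hx => hx.1) (fun l hl => ?_) (fun l hl => ?_)
      (ih' _ Set.sdiff_subset ⟨v, hv, fun h => h.2 rfl⟩)
      (ih' _ (fun x hx => hx.1) ⟨w, hw, fun h => hvw h.2⟩)
      (ih' _ (fun x hx => hx.1.1) ⟨v, hv, fun h => h.1.2 rfl⟩) n
    · by_cases h1 : v ∈ l
      · exact Or.inr fun x hx => ⟨hl.1 x hx, hl.2 v h1 x hx⟩
      · exact Or.inl fun x hx => ⟨hl.1 x hx, fun e => h1 (e ▸ hx)⟩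
    · by_cases h1 : ∃ y ∈ l, c y = v
      · obtain ⟨y, hy, rfl⟩ := h1
        exact Or.inr fun x hx => ⟨(hl.1 x hx).1, (hl.1 x hx).2,
          hc.adq (hl.1 y hy).1 (hl.1 x hx).1 (hl.2 y hy x hx)⟩
      · exact Or.inl fun x hx => ⟨(hl.1 x hx).1, (hl.1 x hx).2, fun e => h1 ⟨x, hx, e⟩⟩

/-- The fibre lemma. -/
theorem fibre_lemma {A' : Set V'} {A : Set V} {c : V' → V} (hc : IsHom G' A' G A c)
    (h : ∀ τ : Finset V, τ.Nonempty → ↑τ ⊆ A → G.IsClique (τ : Set V) →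
      ∀ n, Zy G' (A' ∩ c ⁻¹' τ) n ≤ Bd G' (A' ∩ c ⁻¹' τ) n) {S : Set V} (hS : S ⊆ A) (n : ℕ) :
    (∀ z ∈ Zy G' (A' ∩ c ⁻¹' S) n, emap c z ∈ Bd G S n → z ∈ Bd G' (A' ∩ c ⁻¹' S) n) ∧
      ∀ z ∈ Zy G S n, ∃ z' ∈ Zy G' (A' ∩ c ⁻¹' S) n, emap c z' - z ∈ Bd G S n := by
  have up : ∀ {T T' : Set V}, T ⊆ T' → A' ∩ c ⁻¹' T ⊆ A' ∩ c ⁻¹' T' := fun hT x hx =>
    ⟨hx.1, hT hx.2⟩
  refine ⟨fun z hz hb => ?_, fun z hz => ?_⟩
  · obtain ⟨w, hw, e⟩ := mem_Bd.1 hb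
    obtain ⟨S0, h0, h1⟩ := exists_finite_support hw
    obtain ⟨T0, h2, h3⟩ := exists_finite_support (mem_Zy.1 hz).1
    have h4 : ↑(S0 ∪ T0.image c) ⊆ S := by
      rw [Finset.coe_union, Finset.coe_image]
      exact Set.union_subset h0 (Set.image_subset_iff.2 fun x hx => (h2 hx).2)
    have h5 : ↑T0 ⊆ A' ∩ c ⁻¹' ↑(S0 ∪ T0.image c) := fun x hx =>
      ⟨(h2 hx).1, Finset.mem_union_right _ (Finset.mem_image_of_mem c hx)⟩
    exact Bd_mono (up h4) _ ((fin_ChC2 hc h _ (h4.trans hS) n).1 z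
      (mem_Zy.2 ⟨Ch_mono h5 _ h3, (mem_Zy.1 hz).2⟩)
      (mem_Bd.2 ⟨w, Ch_mono (Finset.coe_subset.2 Finset.subset_union_left) _ h1, e⟩))
  · obtain ⟨S0, h0, h1⟩ := exists_finite_support (mem_Zy.1 hz).1
    obtain ⟨z', h2, h3⟩ := (fin_ChC2 hc h _ (h0.trans hS) n).2 z (mem_Zy.2 ⟨h1, (mem_Zy.1 hz).2⟩)
    exact ⟨z', Zy_mono (up h0) _ h2, Bd_mono h0 _ h3⟩

end Pool.Agent.MP_6374aa_gt

end
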