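import Pool.Agent.Mg.F6374aa.Ga99166
import Pool.Agent.Mg.F6374aa.Ge6e9b2
import Pool.Agent.Mg.F6374aa.Ge7b165
import Pool.Agent.Mg.F6374aa.Gcfeb84
import Pool.Agent.Mg.F6374aa.G6d719e
import Pool.Agent.Mg.F6374aa.Gae9ace

section

/-! The two sides of the only separating plane. -/

namespace Pool.Agent.MP_6374aa_g.BD

open Pool.Agent.MP_6374aa_gt Classical

variable {V U : Type} {H : SimpleGraph U} {W Fm Fp : Set U} {G : SimpleGraph V} {M F : Set V}
  {p : U → V} {θ : V → V → Z2}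

theorem lab_Si (hc : Cut H W Fm Fp G M F p) (h : Pl G M F θ)
    (hθ : ∀ u ∈ W, ∀ w ∈ W, Adq H u w → (θ (p u) (p w) = 1 ↔ (u ∈ Fp ↔ w ∈ Fp)))
    (N : Set V → Prop) {x y : U} (hx : x ∈ W) (hy : y ∈ W) (hxy : Adq H x y) :
    (if N (pln G F (p x) (p y)) then θ (p x) (p y) else 1) =
      (if x ∈ Fp ∧ N (cmp G F (p x)) then neg else 1) *
        (if y ∈ Fp ∧ N (cmp G F (p y)) then neg else 1)⁻¹ := by
  have a1 := IsHom.adq hc.hom hx hy hxy
  have m1 := hc.hom.1 x hx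
  have m2 := hc.hom.1 y hy
  have t := hθ x hx y hy hxy
  by_cases c1 : x ∈ Fp <;> by_cases c2 : y ∈ Fp
  · have f1 := (hc.mem_F hx).2 (Or.inr c1)
    have f2 := (hc.mem_F hy).2 (Or.inr c2)
    have e : cmp G F (p y) = cmp G F (p x) := cmp_eq_of_mem ⟨f2, Reach.single f1 f2 a1⟩
    rw [t.2 (iff_of_true c1 c2), e]
    simp [c1, c2]
  · have f1 := (hc.mem_F hx).2 (Or.inr c1)
    have n : θ (p x) (p y) ≠ 1 := fun e => c2 ((t.1 e).1 c1)
    rw [(z2_cases _).resolve_left n, pln, if_pos f1]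
    simp [c1, c2]
  · have f2 := (hc.mem_F hy).2 (Or.inr c2)
    have n : θ (p x) (p y) ≠ 1 := fun e => c1 ((t.1 e).2 c2)
    have f1 : p x ∉ F := fun e => (h.xor _ m1 _ m2 a1 n).1 e f2
    rw [(z2_cases _).resolve_left n, pln, if_neg f1, z2_inv]
    simp [c1, c2]
  · rw [t.2 (iff_of_false c1 c2)]
    simp [c1, c2]

theorem up_Si {Q : Set U} (hQ : Q ⊆ W) (hi : IsIso H Q G F p) {x y : U} (hx : x ∈ Q) (hy : y ∈ Q)
    {u : V} (h1 : p x ∈ cmp G F u) (h2 : p y ∈ cmp G F u) : Reach H W x y :=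
  ((IsIso.pe hi).reach hx hy (h1.2.symm.trans h2.2)).mono hQ

theorem side_one (hc : Cut H W Fm Fp G M F p) (h : Pl G M F θ)
    (hθ : ∀ u ∈ W, ∀ w ∈ W, Adq H u w → (θ (p u) (p w) = 1 ↔ (u ∈ Fp ↔ w ∈ Fp))) {b a : U}
    (hb : b ∈ W) (ha : a ∈ W) (hbF : p b ∉ F) (haF : p a ∉ F) {P : Set V}
    (hP : Sp G M F θ P (p b) (p a)) (hu : ∀ P', Sp G M F θ P' (p b) (p a) → P' = P) :
    ¬ Reach H W b a ∧ ∃ r, (r ∈ Fm ∨ r ∈ Fp) ∧ p r ∈ P ∧ Reach H W b r := by
  have b1 : b ∉ Fp := fun e => hbF ((hc.mem_F hb).2 (Or.inr e))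
  have a1 : a ∉ Fp := fun e => haF ((hc.mem_F ha).2 (Or.inr e))
  have one : ¬ Reach H W b a := fun k => by
    obtain ⟨l, hl⟩ := k.wk hb
    refine (h.sp_iff (hl.map hc.hom)).1 hP ?_
    rw [← ev_pull, ev_of_pot (lab := pull p (plth G F θ P))
      (p := fun x => if x ∈ Fp ∧ cmp G F (p x) = P then neg else 1)
      (fun x hx y hy k => lab_Si hc h hθ (· = P) hx hy k) hl]
    simp [b1, a1]
  refine ⟨one, by_contra fun no => ?_⟩
  have : Nonempty U := ⟨b⟩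
  choose! sec s1 s2 using fun v (hv : v ∈ M) => hc.bijm.surjOn hv
  obtain ⟨N, hN⟩ : ∃ N : Set V → Prop, ∀ P2, N P2 ↔ ¬ ((∃ x ∈ Fm, p x ∈ P2 ∧ Reach H W b x) ↔
    ∃ x ∈ Fp, p x ∈ P2 ∧ Reach H W b x) := ⟨_, fun _ => Iff.rfl⟩
  have key : ∀ x ∈ W, (if Reach H W b (sec (p x)) then neg else 1) =
      (if Reach H W b x then neg else 1) * if x ∈ Fp ∧ N (cmp G F (p x)) then neg else 1 := by
    intro x hx
    have m1 := hc.hom.1 x hx
    by_cases c : x ∈ Fp
    · have f1 := (hc.mem_F hx).2 (Or.inr c)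
      have f2 : sec (p x) ∈ Fm :=
        ((hc.mem_F (s1 _ m1).1).1 ((s2 _ m1).symm ▸ f1)).resolve_right (s1 _ m1).2
      have f3 : p x ∈ cmp G F (p x) := mem_cmp_self f1
      have f4 : p (sec (p x)) ∈ cmp G F (p x) := (s2 _ m1).symm ▸ f3
      have e1 : (∃ z ∈ Fm, p z ∈ cmp G F (p x) ∧ Reach H W b z) ↔ Reach H W b (sec (p x)) :=
        ⟨fun ⟨z, z1, z2, z3⟩ => z3.trans (up_Si hc.subm hc.isom z1 f2 z2 f4),
          fun k => ⟨_, f2, f4, k⟩⟩
      have e2 : (∃ z ∈ Fp, p z ∈ cmp G F (p x) ∧ Reach H W b z) ↔ Reach H W b x :=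
        ⟨fun ⟨z, z1, z2, z3⟩ => z3.trans (up_Si hc.subp hc.isop z1 c z2 f3),
          fun k => ⟨_, c, f3, k⟩⟩
      simp only [hN, e1, e2]
      by_cases c1 : Reach H W b (sec (p x)) <;> by_cases c2 : Reach H W b x <;>
        simp [c, c1, c2, z2_mul_self]
    · rw [hc.bijm.injOn (s1 _ m1) ⟨hx, c⟩ (s2 _ m1)]
      simp [c]
  obtain ⟨l, hl, -⟩ := id hP
  refine (hN P).1 ((h.weight hl hP hu N).1 ?_)
    (iff_of_false (fun ⟨x, x1, x2, x3⟩ => no ⟨x, Or.inl x1, x2, x3⟩)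
      fun ⟨x, x1, x2, x3⟩ => no ⟨x, Or.inr x1, x2, x3⟩)
  rw [ev_of_pot (p := fun v => if Reach H W b (sec v) then neg else 1) (fun u hu w hw k => ?_) hl,
    key b hb, key a ha]
  · simpa [b1, a1, one, Reach.refl] using neg_ne_one
  · obtain ⟨x, hx, y, hy, k1, rfl, rfl⟩ := lift_edge hc hu hw k
    have e : Reach H W b x ↔ Reach H W b y :=
      ⟨fun c => c.trans (Reach.single hx hy k1), fun c => c.trans (Reach.single hx hy k1).symm⟩
    rw [lab_Si hc h hθ N hx hy k1, key x hx, key y hy, mul_inv, mul_mul_mul_comm]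
    simp only [e, mul_inv_cancel, one_mul]

theorem side (hc : Cut H W Fm Fp G M F p) (h : Pl G M F θ)
    (hθ : ∀ u ∈ W, ∀ w ∈ W, Adq H u w → (θ (p u) (p w) = 1 ↔ (u ∈ Fp ↔ w ∈ Fp))) {b a : U}
    (hb : b ∈ W) (ha : a ∈ W) (hbF : p b ∉ F) (haF : p a ∉ F) {P : Set V}
    (hP : Sp G M F θ P (p b) (p a)) (hu : ∀ P', Sp G M F θ P' (p b) (p a) → P' = P) :
    ∃ r r', Reach H W b r ∧ Reach H W a r' ∧ p r ∈ P ∧ p r' ∈ P ∧
      ((r ∈ Fm ∧ r' ∈ Fp) ∨ (r ∈ Fp ∧ r' ∈ Fm)) := by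
  obtain ⟨n1, r, r1, r2, r3⟩ := side_one hc h hθ hb ha hbF haF hP hu
  obtain ⟨-, r', r4, r5, r6⟩ := side_one hc h hθ ha hb haF hbF (h.sp_symm hP)
    fun P' k => hu P' (h.sp_symm k)
  obtain ⟨-, -, u, -, -, rfl⟩ := h.sp_mem hP
  refine ⟨r, r', r3, r6, r2, r5, ?_⟩
  rcases r1 with c | c <;> rcases r4 with c' | c'
  · exact absurd ((r3.trans (up_Si hc.subm hc.isom c c' r2 r5)).trans r6.symm) n1
  · exact Or.inl ⟨c, c'⟩
  · exact Or.inr ⟨c, c'⟩
  · exact absurd ((r3.trans (up_Si hc.subp hc.isop c c' r2 r5)).trans r6.symm) n1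

end Pool.Agent.MP_6374aa_g.BD

end

section

/-! Boundary, restriction and covers of a cut. -/

namespace Pool.Agent.MP_6374aa_g.BD

open Pool.Agent.MP_6374aa_gt Classical

variable {V U : Type} {H : SimpleGraph U} {W Fm Fp Q : Set U} {G : SimpleGraph V} {A F : Set V}
  {p : U → V}

theorem bij_A3 {X : Set U} {Y : Set V} (h : Set.BijOn p X Y) (Ω : Type) :
    Set.BijOn (lift1 p Ω) (up X Ω) (up Y Ω) := by
  refine ⟨fun x hx => h.mapsTo hx, fun x hx y hy e =>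
    Prod.ext (h.injOn hx hy (congrArg Prod.fst e)) (congrArg Prod.snd e :), fun y hy => ?_⟩
  obtain ⟨x, hx, e⟩ := h.surjOn hy
  exact ⟨(x, y.2), hx, Prod.ext e rfl⟩

theorem cut_bd (h : Cut H W Fm Fp G A F p) (hm : Mf H 3 W (Fm ∪ Fp)) : Mf G 2 F ∅ := by
  have hc : Clopen H (W ∩ (Fm ∪ Fp)) Fp := ⟨fun a ha => ⟨h.subp ha, Or.inr ha⟩,
    fun a ha b hb e => hb.2.resolve_left fun k => h.far b k a ha (Or.inr e.symm)⟩
  exact (IsIso.mf h.isop (T := ∅) (T' := ∅) fun _ _ => Iff.rfl).1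
    (Mfa.clopen (Mfa.mono (Mf.bd hm le_rfl) hc.1) hc)

theorem cut_res (h : Cut H W Fm Fp G A F p) {Y : Set V} (hY : Y ⊆ A) (hF : F ⊆ Y) :
    Cut H (W ∩ p ⁻¹' Y) Fm Fp G Y F p := by
  have := h.restrict hF
  rwa [Set.inter_eq_right.2 hY] at this

theorem cut_away (h : Cut H W Fm Fp G A F p) {Z : Set V} (hZ : Z ⊆ A) (hd : Disjoint Z F) :
    IsIso H (W ∩ p ⁻¹' Z) G Z p := by
  have hn : ∀ u ∈ W ∩ p ⁻¹' Z, p u ∉ F := fun u hu => Set.disjoint_left.1 hd hu.2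
  refine ⟨⟨fun u hu => hu.2, fun u hu w hw e => h.eq_out_P4 hu.1 hw.1 e (hn u hu), fun x hx => ?_⟩,
    fun a ha b hb => ⟨h.adj a ha.1 b hb.1, fun e => ?_⟩⟩
  · obtain ⟨u, hu, rfl⟩ := h.bijm.surjOn (hZ hx)
    exact ⟨u, ⟨hu.1, hx⟩, rfl⟩
  · obtain ⟨s, hs, e'⟩ := h.lift _ (pair_mem_sA (hZ ha.2) (hZ hb.2) (Or.inr e))
    have k : ∀ u ∈ W ∩ p ⁻¹' Z, p u ∈ s.image p → u ∈ s := fun u hu k => by
      obtain ⟨x, hx, e''⟩ := Finset.mem_image.1 k
      exact h.eq_out_P4 hu.1 (hs.2.1 hx) e''.symm (hn u hu) ▸ hx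
    refine ((mem_sA.1 hs).2.2 a (k a ha ?_) b (k b hb ?_)).resolve_left fun c => e.ne (c ▸ rfl)
    · simp [e']
    · simp [e']

theorem cut_cov (h : Cut H W Fm Fp G A F p) {L : Type} [Group L] {lab : V → V → L}
    (hl : Flat G A lab) :
    Cut (cov H (pull p lab) L) (up W L) (up Fm L) (up Fp L) (cov G lab L) (up A L) (up F L)
      (lift1 p L) := by
  have hp : Flat H W (pull p lab) := flat_pull hl h.hom
  refine ⟨fun x hx => h.subm hx, fun x hx => h.subp hx,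
    fun a ha b hb e => h.far a.1 ha b.1 hb (e.imp (congrArg Prod.fst) And.left),
    fun u hu w hw e => ⟨h.adj u.1 hu w.1 hw e.1, e.2⟩, bij_A3 h.bijm L, bij_A3 h.bijp L,
    ⟨bij_A3 h.isom.1 L, fun a ha b hb => and_congr_left' (h.isom.2 a.1 ha b.1 hb)⟩,
    ⟨bij_A3 h.isop.1 L, fun a ha b hb => and_congr_left' (h.isop.2 a.1 ha b.1 hb)⟩,
    fun u hu a ha b hb e h1 h2 => h.twin u.1 hu a.1 ha b.1 hb (congrArg Prod.fst e) h1.1 h2.1,
    fun t ht => ?_⟩
  obtain ⟨s, hs, e⟩ := h.lift _ (IsHom.image_mem (up_hom_GrB1 lab) ht)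
  have e' : ((s ×ˢ t.image Prod.snd).filter fun x => lift1 p L x ∈ t).image (lift1 p L) = t := by
    refine Finset.Subset.antisymm (fun y hy => ?_) fun y hy => ?_
    · obtain ⟨x, hx, rfl⟩ := Finset.mem_image.1 hy
      exact (Finset.mem_filter.1 hx).2
    · obtain ⟨x, hx, c⟩ := Finset.mem_image.1 (e.symm.subset (Finset.mem_image_of_mem _ hy))
      have c' : lift1 p L (x, y.2) = y := Prod.ext c rfl
      exact Finset.mem_image.2 ⟨(x, y.2), Finset.mem_filter.2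
        ⟨Finset.mem_product.2 ⟨hx, Finset.mem_image_of_mem _ hy⟩, c'.symm ▸ hy⟩, c'⟩
  have m : ∀ x ∈ (s ×ˢ t.image Prod.snd).filter fun x => lift1 p L x ∈ t,
      x.1 ∈ s ∧ lift1 p L x ∈ t := fun x hx =>
    ⟨(Finset.mem_product.1 (Finset.mem_filter.1 hx).1).1, (Finset.mem_filter.1 hx).2⟩
  refine ⟨_, mem_sA.2 ⟨Finset.Nonempty.of_image (e'.symm ▸ ht.1),
    fun x hx => hs.2.1 (m x hx).1, fun x hx y hy => ?_⟩,
    (congrArg (fun i : DecidableEq (V × L) => @Finset.image _ _ i (lift1 p L) _)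
      (Subsingleton.elim _ _)).trans e'⟩
  have a1 := hs.2.1 (m x hx).1
  have a2 := hs.2.1 (m y hy).1
  exact (cov_adq hp a1 a2).2 ⟨(mem_sA.1 hs).2.2 _ (m x hx).1 _ (m y hy).1,
    ((cov_adq hl (h.hom.1 _ a1) (h.hom.1 _ a2)).1
      ((mem_sA.1 ht).2.2 _ (m x hx).2 _ (m y hy).2)).2⟩

end Pool.Agent.MP_6374aa_g.BD

end

section

/-! The invariant planes in the universal cover. -/

namespace Pool.Agent.MP_6374aa_g.BD

open Pool.Agent.MP_6374aa_gt Classical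

variable {V U : Type} {H : SimpleGraph U} {W Fm Fp : Set U} {G : SimpleGraph V} {Y F Z : Set V}
  {p : U → V} {L : Type} [Group L] {lab : V → V → L}

theorem up_Pn {X : Set V} (hl : Flat G X lab) {x y : V} {l : List V} (hw : Wk G X x l y)
    {k k' : L} (e : ev lab x l * k' = k) :
    ∃ l', Wk (cov G lab L) (up X L) (x, k) l' (y, k') ∧ l'.map Prod.fst = l :=
  e ▸ hw.lift hl k'

theorem down_Pn {X : Set V} (hl : Flat G X lab) {x y : V × L} (hx : x.1 ∈ X)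
    (h : Reach (cov G lab L) (up X L) x y) : ∃ l, Wk G X x.1 l y.1 ∧ x.2 = ev lab x.1 l * y.2 :=
  (h.wk hx).elim fun _ hw => ⟨_, hw.proj hl⟩

theorem inv_Pn {θ : V → V → Z2} (hl : Flat G F lab)
    (pl : Pl (cov G lab L) (up Y L) (up F L) (pull Prod.fst θ)) {x y u : V × L} {t g : L}
    {l1 l2 : List (V × L)} (w1 : Wk (cov G lab L) (up (Y \ F) L) (x.1, x.2 * t) l1 x)
    (w2 : Wk (cov G lab L) (up (Y \ F) L) (y.1, y.2 * t) l2 y) (hu : u.1 ∈ F)
    (h : First (cov G lab L) (up Y L) (up F L) (pull Prod.fst θ) x y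
      (cmp (cov G lab L) (up F L) u)) (hg : g * u.2 = 1) :
    ∃ l, Wk G F u.1 l u.1 ∧ g * ev lab u.1 l = t * g := by
  have h1 := h |> first_aut ((Equiv.refl V).prodCongr (Equiv.mulRight t)) (cov_deck lab t)
    (fun _ => Iff.rfl) (fun _ => Iff.rfl) (fun _ _ => rfl) |> pl.first_move w1 w2
    |> pl.first_unique h
  have h2 : (u.1, u.2 * t) ∈ cmp (cov G lab L) (up F L) u := by
    rw [h1]
    exact ⟨u, mem_cmp_self hu, rfl⟩
  obtain ⟨l, h3, h4⟩ := down_Pn hl (x := (u.1, u.2 * t)) hu h2.2.symm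
  refine ⟨l, h3, mul_right_cancel (b := u.2) ?_⟩
  rw [mul_assoc, ← h4, ← mul_assoc, hg, mul_assoc, hg, one_mul, mul_one]

theorem planes (hc : Cut H W Fm Fp G Y F p) (hl : Flat G Y lab)
    (hf : ∀ a l, Wk G Y a l a → ev lab a l = 1 → Null G Y a l) {θ : V → V → ZM}
    (hθ : CLab H W Fp p θ) {m m' : U} (hm : m ∈ W) (hm' : m' ∈ W) (hmF : p m ∉ F)
    (hmF' : p m' ∉ F) (hZ : Z ⊆ Y) {η : List V} (hη : Wk G Z (p m) η (p m'))
    (ho : Odd (ev θ (p m) η).toAdd) (TT : Set L)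
    (h1 : ∀ t ∈ TT, ∃ l, Wk G (Y \ F) (p m) l (p m) ∧ ev lab (p m) l = t)
    (h2 : ∀ t ∈ TT, ∃ l, Wk G (Y \ F) (p m') l (p m') ∧
      ev lab (p m) η * ev lab (p m') l = t * ev lab (p m) η) :
    ∃ u0 ∈ F, ∃ u1 ∈ F, ∃ η0 η1, Wk G Z (p m) η0 u0 ∧ Wk G Z (p m) η1 u1 ∧
      (∀ t ∈ TT, ∃ l, Wk G F u0 l u0 ∧ ev lab (p m) η0 * ev lab u0 l = t * ev lab (p m) η0) ∧
      (∀ t ∈ TT, ∃ l, Wk G F u1 l u1 ∧ ev lab (p m) η1 * ev lab u1 l = t * ev lab (p m) η1) ∧
      ((∃ φ, Wk G F u0 φ u1 ∧ ev lab (p m) η0 * ev lab u0 φ = ev lab (p m) η1) →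
        ∃ r r' ζ ζ' φ φ', Wk H W m ζ r ∧ Wk H W m' ζ' r' ∧ Wk G F u0 φ (p r) ∧
          Wk G F u0 φ' (p r') ∧
          ev lab (p m) η0 * ev lab u0 φ = ev (pull p lab) m ζ ∧
          ev lab (p m) η0 * ev lab u0 φ' = ev lab (p m) η * ev (pull p lab) m' ζ' ∧
          ((r ∈ Fm ∧ r' ∈ Fp) ∨ (r ∈ Fp ∧ r' ∈ Fm))) := by
  obtain ⟨θ2, t1, t2, t3, t4⟩ := clab_two hc hθ
  have hF : Flat G F lab := fun u hu v hv w hw =>
    hl u (hc.subset hu) v (hc.subset hv) w (hc.subset hw)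
  have hD : Flat G (Y \ F) lab := fun u hu v hv w hw => hl u hu.1 v hv.1 w hw.1
  have pl : Pl (cov G lab L) (up Y L) (up F L) (pull Prod.fst θ2) :=
    ⟨fun _ hx => hc.subset hx, (cov_sco hl hf).ndc, flat_pull t2 (up_hom_GrB1 lab),
      fun u hu w hw ha => t3 u.1 hu w.1 hw (IsHom.adq (up_hom_GrB1 lab) hu hw ha)⟩
  obtain ⟨l', w0, e0⟩ := up_Pn hl (hη.mono hZ) (mul_inv_cancel _)
  have o1 : ev (pull Prod.fst θ2) (p m, (1 : L)) l' ≠ 1 := by
    rw [ev_pull, e0]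
    exact t4 _ _ ho
  obtain ⟨u0, hu0, m0, f0⟩ := pl.first_ex w0 o1
  obtain ⟨u1, hu1, m1, f1⟩ := pl.first_ex w0.rev (by rwa [ev_rev pl.flat w0, inv_ne_one])
  replace m1 : u1 = (p m, 1) ∨ u1 ∈ l' := List.mem_cons.1 (List.mem_reverse.1
    (List.mem_of_mem_tail (m1.resolve_left fun e => hmF' (by rw [e] at hu1; exact hu1))))
  have k0 : ∀ u : V × L, u = (p m, 1) ∨ u ∈ l' →
      ∃ η0, Wk G Z (p m) η0 u.1 ∧ ev lab (p m) η0 * u.2 = 1 := fun u hu => by
    obtain ⟨n, n1, n2⟩ := wk_init w0 hu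
    refine ⟨_, (n1.proj hl).1.restrict hη.mem_left fun x hx => hη.mem_list x ?_,
      (n1.proj hl).2.symm⟩
    obtain ⟨y, hy, rfl⟩ := List.mem_map.1 hx
    exact e0 ▸ List.mem_map_of_mem (n2 y hy)
  obtain ⟨η0, a0, b0⟩ := k0 u0 m0
  obtain ⟨η1, a1, b1⟩ := k0 u1 m1
  have k1 : ∀ t ∈ TT, (∃ l, Wk (cov G lab L) (up (Y \ F) L) (p m, 1 * t) l (p m, 1)) ∧
      ∃ l, Wk (cov G lab L) (up (Y \ F) L) (p m', (ev lab (p m) η)⁻¹ * t) l
        (p m', (ev lab (p m) η)⁻¹) := fun t ht => by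
    obtain ⟨l1, c1, d1⟩ := h1 t ht
    obtain ⟨l2, c2, d2⟩ := h2 t ht
    exact ⟨(up_Pn hD c1 (by rw [d1, mul_one, one_mul])).imp fun _ h => h.1,
      (up_Pn hD c2 (by rw [eq_inv_mul_iff_mul_eq, ← mul_assoc, d2, mul_inv_cancel_right])).imp
        fun _ h => h.1⟩
  refine ⟨u0.1, hu0, u1.1, hu1, η0, η1, a0, a1, fun t ht => ?_, fun t ht => ?_,
    fun ⟨φ, c1, c2⟩ => ?_⟩
  · obtain ⟨⟨_, w1⟩, _, w2⟩ := k1 t ht
    exact inv_Pn hF pl w1 w2 hu0 f0 b0
  · obtain ⟨⟨_, w1⟩, _, w2⟩ := k1 t ht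
    exact inv_Pn hF pl w2 w1 hu1 f1 b1
  obtain ⟨_, w1, -⟩ := up_Pn hF c1 (k := u0.2) (k' := u1.2) (mul_left_cancel
    (a := ev lab (p m) η0) (by rw [← mul_assoc, c2, b0, b1]))
  rw [cmp_eq_of_mem (show u1 ∈ cmp (cov G lab L) (up F L) u0 from ⟨hu1, w1.reach⟩)] at f1
  obtain ⟨r, r', s1, s2, s3, s4, s5⟩ := side (cut_cov hc hl) pl
    (fun u hu w hw ha => t1 u.1 hu w.1 hw (IsHom.adq (up_hom_GrB1 _) hu hw ha))
    (b := (m, 1)) (a := (m', (ev lab (p m) η)⁻¹)) hm hm' hmF hmF' f0.1 (pl.first_only f0 f1)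
  obtain ⟨ζ, z1, z2⟩ := down_Pn (flat_pull hl hc.hom) (x := (m, 1)) hm s1
  obtain ⟨ζ', z3, z4⟩ := down_Pn (flat_pull hl hc.hom) (x := (m', _)) hm' s2
  obtain ⟨ψ, y1, y2⟩ := down_Pn hF hu0 s3.2
  obtain ⟨ψ', y3, y4⟩ := down_Pn hF hu0 s4.2
  refine ⟨r.1, r'.1, ζ, ζ', ψ, ψ', z1, z3, y1, y3, mul_right_cancel (b := r.2) ?_,
    mul_right_cancel (b := r'.2) ?_, s5⟩
  · exact (mul_assoc _ _ _).trans ((congrArg _ y2.symm).trans (b0.trans z2))
  · refine (mul_assoc _ _ _).trans ((congrArg _ y4.symm).trans (b0.trans ?_))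
    rw [mul_assoc, ← z4, mul_inv_cancel]

end Pool.Agent.MP_6374aa_g.BD

end

section

namespace Pool.Agent.MP_6374aa_gt

open Classical

variable {V V' V'' : Type} {G : SimpleGraph V} {G' : SimpleGraph V'} {G'' : SimpleGraph V''}
  {A : Set V} {A' : Set V'} {A'' : Set V''} {L : Type} [Group L] {Ω : Type} [MulAction L Ω]

theorem comp_subset {Γ : Subgroup (Gp G A)} {y : V} {p : V × (Gp G A ⧸ Γ)}
    (hp : p ∈ comp G A Γ y) : p.1 ∈ A := by
  obtain ⟨γ, h, -⟩ := hp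
  exact h.mem_left
theorem comp_closed {Γ : Subgroup (Gp G A)} {y : V} {p : V × (Gp G A ⧸ Γ)}
    (hp : p ∈ comp G A Γ y) {w : V} (hw : w ∈ A) (h : Adq G p.1 w) :
    (w, gen G A w p.1 • p.2) ∈ comp G A Γ y := by
  obtain ⟨γ, h1, h2⟩ := hp
  exact ⟨gen G A w p.1 * γ, Path.cons hw h.symm h1, by rw [h2]; rfl⟩
theorem Bd_le_II (Γ : Subgroup (Gp G A)) (y : V) (n : ℕ) : Bd G A n ≤ II G A Γ y n := le_sup_right
theorem II_le_Zy (Γ : Subgroup (Gp G A)) (y : V) (n : ℕ) : II G A Γ y n ≤ Zy G A n := by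
  refine sup_le ?_ (Bd_le_Zy _ _)
  rintro _ ⟨z, hz, rfl⟩
  exact emap_mem_Zy (cov_fst_hom _ fun p hp => comp_subset hp) hz
/-- The lift of a map to the covers belonging to subgroups. -/
theorem exists_comp_lift {f : V' → V} (hf : IsHom G' A' G A f) {Γ' : Subgroup (Gp G' A')}
    {Γ : Subgroup (Gp G A)} {y' : V'} {y : V} {γ0 : Gp G A} (hγ : Path G A (f y') y γ0)
    (h : ∀ δ ∈ Γ', γ0⁻¹ * gmap G' A' G A f δ * γ0 ∈ Γ) :
    ∃ F : V' × (Gp G' A' ⧸ Γ') → V × (Gp G A ⧸ Γ),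
      (∀ v γ, F (v, QuotientGroup.mk γ) = (f v, QuotientGroup.mk (gmap G' A' G A f γ * γ0))) ∧
      IsHom (cov G' (gen G' A') (Gp G' A' ⧸ Γ')) (comp G' A' Γ' y')
        (cov G (gen G A) (Gp G A ⧸ Γ)) (comp G A Γ y) F := by
  let φ : Gp G' A' ⧸ Γ' → Gp G A ⧸ Γ := fun q =>
    Quotient.liftOn' q (fun γ => QuotientGroup.mk (gmap G' A' G A f γ * γ0)) fun a b hab => by
      rw [QuotientGroup.leftRel_apply] at hab
      refine QuotientGroup.eq.2 ?_
      have := h _ hab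
      rwa [map_mul, map_inv, ← mul_assoc, mul_assoc _ _ γ0, ← mul_inv_rev] at this
  have hφ : ∀ γ, φ (QuotientGroup.mk γ) = QuotientGroup.mk (gmap G' A' G A f γ * γ0) :=
    fun _ => rfl
  refine ⟨fun p => (f p.1, φ p.2), fun _ _ => rfl, ?_, ?_⟩
  · rintro ⟨v, q⟩ ⟨γ, h1, h2⟩
    exact ⟨gmap G' A' G A f γ * γ0, (h1.map hf).trans hγ, (congrArg φ h2).trans (hφ γ)⟩
  · rintro ⟨u, p⟩ hp ⟨v, q⟩ hq ⟨h1, h2, -⟩
    have hu := comp_subset hp
    have hv := comp_subset hq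
    refine (cov_adq (flat_gen G A) (hf.1 u hu) (hf.1 v hv)).2 ⟨hf.2 u hu v hv h1, ?_⟩
    obtain ⟨γ, -, h3⟩ := hq
    have h4 : q = QuotientGroup.mk γ := h3
    have h5 : p = QuotientGroup.mk (gen G' A' u v * γ) := by
      have h6 : p = gen G' A' u v • q := h2
      rw [h6, h4]
      rfl
    change φ p = gen G A (f u) (f v) • φ q
    rw [h5, h4, hφ, hφ, map_mul, gmap_gen hf, mul_assoc]
    rfl
/-- Functoriality of `II`. -/
theorem emap_mem_II {f : V' → V} (hf : IsHom G' A' G A f) {Γ' : Subgroup (Gp G' A')}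
    {Γ : Subgroup (Gp G A)} {y' : V'} {y : V} {γ0 : Gp G A} (hγ : Path G A (f y') y γ0)
    (h : ∀ δ ∈ Γ', γ0⁻¹ * gmap G' A' G A f δ * γ0 ∈ Γ) {n : ℕ} {z : EA V'}
    (hz : z ∈ II G' A' Γ' y' n) : emap f z ∈ II G A Γ y n := by
  obtain ⟨F, h1, h2⟩ := exists_comp_lift hf hγ h
  obtain ⟨_, ⟨w, hw, rfl⟩, b, hb, rfl⟩ := Submodule.mem_sup.1 hz
  have h3 : f ∘ Prod.fst = Prod.fst ∘ F := by
    funext ⟨v, q⟩
    induction q using QuotientGroup.induction_on with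
    | H γ => simp only [Function.comp, h1]
  rw [map_add, emap_comp, h3, ← emap_comp]
  exact add_mem (Submodule.mem_sup_left ⟨_, emap_mem_Zy h2 hw, rfl⟩)
    (Submodule.mem_sup_right (emap_mem_Bd hf hb))
theorem II_le_II {Γ' Γ : Subgroup (Gp G A)} {y' y : V} {γ0 : Gp G A} (hγ : Path G A y' y γ0)
    (h : ∀ δ ∈ Γ', γ0⁻¹ * δ * γ0 ∈ Γ) (n : ℕ) : II G A Γ' y' n ≤ II G A Γ y n := fun z hz => by
  have := emap_mem_II (IsHom.id G (subset_refl A)) (Γ := Γ) (y := y) (γ0 := γ0) hγ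
    (fun δ hδ => by rw [gmap_id]; exact h δ hδ) hz
  rwa [emap_id] at this
theorem MatchAt.emap_mem {f : V' → V} (hf : IsHom G' A' G A f) {P' : Pack G' A'} {x' : P'.X}
    {P : Pack G A} {x : P.X} (h : MatchAt f P' x' P x) {n : ℕ} {z : EA V'} (hz : z ∈ P'.I x' n) :
    emap f z ∈ P.I x n := by
  obtain ⟨-, γ, h1, h2, -⟩ := h
  exact emap_mem_II hf h1 h2 hz
theorem Pack.emap_mem_Bd {f : V' → V} (hf : IsHom G' A' G A f) (P : Pack G A)
    {Γ' : Subgroup (Gp G' A')} {y' : V'} (hy : y' ∈ A') (h : ∀ δ ∈ Γ', gmap G' A' G A f δ = 1)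
    {n : ℕ} (hn : n = 2 ∨ n = 3) {z : EA V'} (hz : z ∈ II G' A' Γ' y' n) :
    emap f z ∈ Bd G A n := P.h1 (f y') (hf.1 _ hy) n hn (emap_mem_II hf (Path.nil (hf.1 _ hy))
    (fun δ hδ => by simp [h δ hδ]) hz)
/-- Pure cycles lie in one site. -/
theorem Pack.pure (P : Pack G A) {y : V} (hy : y ∈ A) {Γ : Subgroup (Gp G A)}
    (hΓ : Γ ≤ Loop G A y) (hE : HasE Γ) {n : ℕ} (hn : n = 2 ∨ n = 3) :
    II G A Γ y n ≤ Bd G A n ∨ ∃ x, II G A Γ y n ≤ P.I x n := by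
  by_cases h : Γ = ⊥
  · subst h
    exact Or.inl (P.h1 y hy n hn)
  · obtain ⟨x, γ, h1, h2⟩ := P.k1 y hy Γ hΓ h hE
    exact Or.inr ⟨x, II_le_II h1 h2 n⟩
theorem Pack.exists_decomp (P : Pack G A) {n : ℕ} (hn : n = 2 ∨ n = 3) {z : EA V}
    (hz : z ∈ Zy G A n) : ∃ w : P.X → EA V, (∀ x, w x ∈ P.I x n) ∧ z - ∑ x, w x ∈ Bd G A n :=
  by
  obtain ⟨b, hb, s, hs, rfl⟩ := Submodule.mem_sup.1 (P.h2 n hn hz)
  obtain ⟨w, h1, rfl⟩ := (Submodule.mem_iSup_iff_exists_finsupp _ _).1 hs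
  refine ⟨w, h1, ?_⟩
  rwa [Finsupp.sum_fintype _ _ fun _ => rfl, add_sub_cancel_right]
theorem MatchAt.comp {f : V' → V} {g : V'' → V'} (hf : IsHom G' A' G A f)
    (hg : IsHom G'' A'' G' A' g) {P'' : Pack G'' A''} {x'' : P''.X} {P' : Pack G' A'} {x' : P'.X}
    {P : Pack G A} {x : P.X} (h1 : MatchAt g P'' x'' P' x') (h2 : MatchAt f P' x' P x) :
    MatchAt (f ∘ g) P'' x'' P x := by
  obtain ⟨a1, γ1, a2, a3, a4⟩ := h1
  obtain ⟨b1, γ2, b2, b3, b4⟩ := h2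
  have key : ∀ δ, (gmap G' A' G A f γ1 * γ2)⁻¹ * gmap G'' A'' G A (f ∘ g) δ *
      (gmap G' A' G A f γ1 * γ2) =
      γ2⁻¹ * gmap G' A' G A f (γ1⁻¹ * gmap G'' A'' G' A' g δ * γ1) * γ2 := fun δ => by
    rw [← gmap_comp hf hg, map_mul, map_mul, map_inv]
    group
  refine ⟨fun δ hδ h => a1 δ hδ ?_, gmap G' A' G A f γ1 * γ2, (a2.map hf).trans b2,
    fun δ hδ => ?_, fun δ hδ => ?_⟩
  · have h3 := b1 _ (a3 δ hδ) (by rw [map_mul, map_mul, gmap_comp hf hg, h, map_inv]; group)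
    rwa [mul_assoc, inv_mul_eq_one, eq_comm, mul_eq_right] at h3
  · rw [key]
    exact b3 _ (a3 δ hδ)
  · obtain ⟨δ', h3, rfl⟩ := b4 δ hδ
    obtain ⟨δ'', h4, rfl⟩ := a4 δ' h3
    exact ⟨δ'', h4, key _⟩
/-- The isomorphism of factors given by a match. -/
theorem MatchAt.exists_iso {f : V' → V} {P' : Pack G' A'} {x' : P'.X} {P : Pack G A} {x : P.X}
    (h : MatchAt f P' x' P x) : ∃ (e : P'.Λ x' ≃* P.Λ x) (γ : Gp G A),
      Path G A (f (P'.a x')) (P.a x) γ ∧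
      ∀ δ : P'.Λ x', (e δ : Gp G A) = γ⁻¹ * gmap G' A' G A f δ * γ := by
  obtain ⟨a1, γ, a2, a3, a4⟩ := h
  let φ : P'.Λ x' →* P.Λ x := MonoidHom.mk' (fun δ => ⟨γ⁻¹ * gmap G' A' G A f δ * γ, a3 δ δ.2⟩)
    fun a b => Subtype.ext (by
      simp only [Subgroup.coe_mul, map_mul]
      group)
  refine ⟨MulEquiv.ofBijective φ ⟨(injective_iff_map_eq_one φ).2 fun δ hδ => ?_, fun δ => ?_⟩, γ,
    a2, fun _ => rfl⟩
  · have h3 : γ⁻¹ * gmap G' A' G A f δ * γ = 1 := congrArg Subtype.val hδ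
    rw [mul_assoc, inv_mul_eq_one, eq_comm, mul_eq_right] at h3
    exact Subtype.ext (a1 δ δ.2 h3)
  · obtain ⟨δ', h3, h4⟩ := a4 δ δ.2
    exact ⟨⟨δ', h3⟩, Subtype.ext h4⟩

end Pool.Agent.MP_6374aa_gt

end

section

namespace Pool.Agent.MP_6374aa_gt

open Classical

variable {V V' V'' : Type} {G : SimpleGraph V} {G' : SimpleGraph V'} {G'' : SimpleGraph V''}
  {A : Set V} {A' : Set V'} {A'' : Set V''} {L : Type} [Group L] {Ω : Type} [MulAction L Ω]

section act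

variable {C : Type} [CommGroup C] [Fintype C] {α : C →* Equiv.Perm V} {α' : C →* Equiv.Perm V'}

theorem Act.isIso (h : Act G A α) (g : C) : IsIso G A G A (α g) := by
  have hi : ∀ g a, α g⁻¹ (α g a) = a := fun g a => by
    simp
  refine ⟨⟨h.mem g, (α g).injective.injOn, fun a ha => ⟨α g⁻¹ a, h.mem _ a ha, ?_⟩⟩,
    fun a ha b hb => ⟨h.adj g a ha b hb, fun hab => ?_⟩⟩
  · simp
  · have := h.adj g⁻¹ _ (h.mem g a ha) _ (h.mem g b hb) hab
    rwa [hi, hi] at this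
theorem act_single (g : C) (r : ℚ) (z : EA V) :
    act α (MonoidAlgebra.single g r) z = r • emap (α g) z := by
  rw [act, Finset.sum_eq_single g (fun b _ hb => by simp [hb]) (by simp)]
  simp
theorem act_one (z : EA V) : act α 1 z = z := by
  rw [MonoidAlgebra.one_def, act_single, map_one, one_smul, Equiv.Perm.coe_one, emap_id]
theorem act_zero (z : EA V) : act α 0 z = 0 := by
  simp [act]
theorem act_add (r s : RC C) (z : EA V) : act α (r + s) z = act α r z + act α s z := by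
  simp [act, add_smul, Finset.sum_add_distrib]
theorem act_neg (r : RC C) (z : EA V) : act α (-r) z = - act α r z := by
  simp [act]
theorem act_sum {ι : Type} (t : Finset ι) (r : ι → RC C) (z : EA V) :
    act α (∑ i ∈ t, r i) z = ∑ i ∈ t, act α (r i) z := by
  induction t using Finset.induction_on with
  | empty => simp [act_zero]
  | insert a t ha ih => rw [Finset.sum_insert ha, Finset.sum_insert ha, act_add, ih]
theorem act_mul (r s : RC C) (z : EA V) : act α (r * s) z = act α r (act α s z) := by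
  induction r using MonoidAlgebra.induction_linear with
  | zero => rw [zero_mul, act_zero, act_zero]
  | add a b ha hb => rw [add_mul, act_add, act_add, ha, hb]
  | single g a =>
    induction s using MonoidAlgebra.induction_linear with
    | zero => rw [mul_zero, act_zero, act_single, map_zero, smul_zero]
    | add b c hb hc =>
      rw [mul_add, act_add, act_add, hb, hc, act_single, act_single, act_single, map_add, smul_add]
    | single h b =>
      rw [MonoidAlgebra.single_mul_single, act_single, act_single, act_single, map_smul, smul_smul,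
        emap_comp, map_mul, Equiv.Perm.coe_mul]
theorem act_add_right (r : RC C) (z w : EA V) : act α r (z + w) = act α r z + act α r w := by
  simp [act, Finset.sum_add_distrib]
theorem act_sub_right (r : RC C) (z w : EA V) : act α r (z - w) = act α r z - act α r w := by
  simp [act, smul_sub]
theorem act_zero_right (r : RC C) : act α r (0 : EA V) = 0 := by
  simp [act]
theorem act_sum_right {ι : Type} (t : Finset ι) (r : RC C) (z : ι → EA V) :
    act α r (∑ i ∈ t, z i) = ∑ i ∈ t, act α r (z i) := by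
  induction t using Finset.induction_on with
  | empty => simp [act_zero_right]
  | insert a t ha ih => rw [Finset.sum_insert ha, Finset.sum_insert ha, act_add_right, ih]
theorem bd_act (r : RC C) (z : EA V) : bd (act α r z) = act α r (bd z) := by
  simp [act, emap_bd]
theorem act_mem_Ch (h : Act G A α) (r : RC C) {n : ℕ} {z : EA V} (hz : z ∈ Ch G A n) :
    act α r z ∈ Ch G A n :=
  Submodule.sum_mem _ fun g _ => Submodule.smul_mem _ _ (emap_mem_Ch (h.isIso g).isHom hz)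
theorem act_mem_Zy (h : Act G A α) (r : RC C) {n : ℕ} {z : EA V} (hz : z ∈ Zy G A n) :
    act α r z ∈ Zy G A n :=
  Submodule.sum_mem _ fun g _ => Submodule.smul_mem _ _ (emap_mem_Zy (h.isIso g).isHom hz)
theorem act_mem_Bd (h : Act G A α) (r : RC C) {n : ℕ} {z : EA V} (hz : z ∈ Bd G A n) :
    act α r z ∈ Bd G A n :=
  Submodule.sum_mem _ fun g _ => Submodule.smul_mem _ _ (emap_mem_Bd (h.isIso g).isHom hz)
theorem emap_act {f : V' → V} (h : Eqv A' α' α f) (r : RC C) {n : ℕ} {z : EA V'}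
    (hz : z ∈ Ch G' A' n) : emap f (act α' r z) = act α r (emap f z) := by
  rw [act, act, map_sum]
  refine Finset.sum_congr rfl fun g _ => ?_
  rw [map_smul, emap_comp, emap_comp, emap_congr (f := f ∘ α' g) (g := α g ∘ f) (h g) hz]
/-- The group permutes the sites. -/
theorem Pack.perm (P : Pack G A) (h : Act G A α) (g : C) (x : P.X) :
    ∃ x', MatchAt (α g) P x P x' := by
  have hinv : ∀ g δ, gmap G A G A (α g⁻¹) (gmap G A G A (α g) δ) = δ := fun g δ => by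
    rw [gmap_comp (h.isIso _).isHom (h.isIso _).isHom, ← Equiv.Perm.coe_mul, ← map_mul,
      inv_mul_cancel, map_one, Equiv.Perm.coe_one, gmap_id]
  have hinj : ∀ g δ, gmap G A G A (α g) δ = 1 → δ = 1 := fun g δ e => by
    rw [← hinv g δ, e, map_one]
  have half : ∀ g x, ∃ x' γ, Path G A (α g (P.a x)) (P.a x') γ ∧
      ∀ δ ∈ P.Λ x, γ⁻¹ * gmap G A G A (α g) δ * γ ∈ P.Λ x' := fun g x => by
    obtain ⟨x', γ, h1, h2⟩ := P.k1 _ (h.mem g _ (P.mem x)) ((P.Λ x).map (gmap G A G A (α g)))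
      (by
        rintro _ ⟨δ, hδ, rfl⟩
        exact gmap_mem_Loop (h.isIso g).isHom (P.mem x) (P.loop x hδ))
      (fun e => P.ne x ((Subgroup.eq_bot_iff_forall _).2 fun δ hδ =>
        hinj g δ ((Subgroup.eq_bot_iff_forall _).1 e _ ⟨δ, hδ, rfl⟩)))
      ((P.hasE x).map _ fun δ _ => hinj g δ)
    exact ⟨x', γ, h1, fun δ hδ => h2 _ ⟨δ, hδ, rfl⟩⟩
  obtain ⟨x', γ, h1, h2⟩ := half g x
  obtain ⟨x'', γ', h3, h4⟩ := half g⁻¹ x'
  have h5 := (h1.map (h.isIso g⁻¹).isHom).trans h3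
  rw [show α g⁻¹ (α g (P.a x)) = P.a x by simp] at h5
  obtain ⟨⟨δ₀, hδ₀⟩, hne⟩ := Subgroup.ne_bot_iff_exists_ne_one.1 (P.ne x)
  obtain ⟨rfl, h6⟩ := P.k2 x x'' _ h5 δ₀ hδ₀ (fun e => hne (Subtype.ext e)) (by
    have := h4 _ (h2 δ₀ hδ₀)
    rw [map_mul, map_mul, hinv, map_inv] at this
    simpa only [mul_inv_rev, mul_assoc] using this)
  refine ⟨x', fun δ _ => hinj g δ, γ, h1, h2, fun δ hδ =>
    ⟨_, (P.Λ x).mul_mem ((P.Λ x).mul_mem h6 (h4 δ hδ)) ((P.Λ x).inv_mem h6), ?_⟩⟩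
  have h7 := hinv g⁻¹
  rw [inv_inv] at h7
  simp only [mul_inv_rev, mul_assoc, mul_inv_cancel_left, map_mul, map_inv (gmap G A G A (α g)),
    h7, inv_mul_cancel_left, inv_mul_cancel, mul_one]
/-- An equivariant choice of a vertex in every clique. -/
theorem FreeAct.exists_choice [Nonempty V] (h : FreeAct G A α) : ∃ ch : Finset V → V,
    ∀ σ : Finset V, σ.Nonempty → ↑σ ⊆ A → G.IsClique (σ : Set V) →
      ch σ ∈ σ ∧ ∀ g, ch (σ.map (α g).toEmbedding) = α g (ch σ) := by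
  have hm : ∀ (g g' : C) (σ : Finset V), (σ.map (α g').toEmbedding).map (α g).toEmbedding =
      σ.map (α (g * g')).toEmbedding := fun g g' σ => by
    rw [Finset.map_map, map_mul]
    rfl
  have h1 : ∀ σ : Finset V, σ.map (α 1).toEmbedding = σ := fun σ => by
    rw [map_one]
    exact Finset.map_refl
  let s : Setoid (Finset V) := ⟨fun σ τ => ∃ g, σ.map (α g).toEmbedding = τ, fun σ => ⟨1, h1 σ⟩,
    fun ⟨g, e⟩ => ⟨g⁻¹, by rw [← e, hm, inv_mul_cancel, h1]⟩,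
    fun ⟨g, e⟩ ⟨g', e'⟩ => ⟨g' * g, by rw [← hm, e, e']⟩⟩
  choose k hk using fun σ => Quotient.mk_out (s := s) σ
  refine ⟨fun σ => α (k σ) (Classical.epsilon fun v => v ∈ (Quotient.mk s σ).out),
    fun σ hne hA hc => ⟨?_, fun g => ?_⟩⟩
  · have h2 : (Quotient.mk s σ).out.Nonempty := by
      rwa [← hk σ, Finset.map_nonempty] at hne
    have h3 := Finset.mem_map_of_mem (α (k σ)).toEmbedding (Classical.epsilon_spec h2)
    rwa [hk] at h3
  · have h2 : Quotient.mk s (σ.map (α g).toEmbedding) = Quotient.mk s σ :=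
      (Quotient.sound (s := s) ⟨g, rfl⟩).symm
    have h3 := hk (σ.map (α g).toEmbedding)
    rw [h2] at h3
    have h4 := h.free (k σ * (k (σ.map (α g).toEmbedding))⁻¹ * g) σ hne hA hc (by
      rw [← hm, ← hm]
      nth_rw 2 [← h3]
      rw [hm _ (k _), inv_mul_cancel, h1, hk])
    have h5 : k (σ.map (α g).toEmbedding) = g * k σ := by
      rw [mul_right_comm, mul_inv_eq_one] at h4
      rw [← h4, mul_comm]
    beta_reduce
    rw [h2, h5, map_mul, Equiv.Perm.mul_apply]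
theorem freeAct_deck {lab : V → V → L} {ψ : C →* L} (hψ : Function.Injective ψ) :
    FreeAct (cov G lab L) (up A L) (deck V ψ) := by
  refine ⟨⟨fun g a ha => ha, fun g a _ b _ hab => ⟨hab.1, ?_, ?_⟩⟩, fun g σ ⟨p, hp⟩ _ hc e => ?_⟩
  · change a.2 * (ψ g)⁻¹ = lab a.1 b.1 * (b.2 * (ψ g)⁻¹)
    rw [hab.2.1, smul_eq_mul, mul_assoc]
  · change b.2 * (ψ g)⁻¹ = lab b.1 a.1 * (a.2 * (ψ g)⁻¹)
    rw [hab.2.2, smul_eq_mul, mul_assoc]
  · have h1 := Finset.mem_map_of_mem (deck V ψ g).toEmbedding hp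
    rw [e] at h1
    have h2 : deck V ψ g p = p := by
      by_contra h2
      exact G.irrefl (hc h1 hp h2).1
    have h3 : p.2 * (ψ g)⁻¹ = p.2 := congrArg Prod.snd h2
    rw [mul_eq_left, inv_eq_one] at h3
    exact hψ (h3.trans (map_one ψ).symm)
theorem freeAct_one (G : SimpleGraph V) (A : Set V) :
    FreeAct G A (1 : C1 →* Equiv.Perm V) :=
  ⟨⟨fun _ _ ha => ha, fun _ _ _ _ _ hab => hab⟩, fun _ _ _ _ _ _ => rfl⟩

end act

end Pool.Agent.MP_6374aa_gt

end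

section



end

section

/-! Statements: homology manifolds and grafts. -/

namespace Pool.Agent.MP_6374aa_gt

open Classical

noncomputable section

/-- Removing more vertices of the link of a removed vertex does not change homology; a homology
sphere minus a cone shaped set is acyclic. -/
def RemGenStmt : Prop :=
  ∀ (V : Type) (G : SimpleGraph V) (d : ℕ) (S : Set V), S.Finite → LocS G S d → ∀ v ∈ S,
    ∀ U ⊆ Lk G S {v}, ∀ n,
      (∀ z ∈ Zy G (S \ insert v U) n, z ∈ Bd G (S \ {v}) n → z ∈ Bd G (S \ insert v U) n) ∧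
      Zy G (S \ {v}) n ≤ Zy G (S \ insert v U) n ⊔ Bd G (S \ {v}) n ∧
      (HS G S d → Zy G (S \ insert v U) n ≤ Bd G (S \ insert v U) n)

def MfBasicStmt : Prop :=
  ∀ (V : Type) (G : SimpleGraph V) (A : Set V), Mf G A → Fin3 G A ∧
    (∀ z ∈ Zy G A 4, ∀ v ∈ A, iv v z = 0 → z = 0) ∧
    ∀ v ∈ A, HS G (Lk G A {v}) 3 ∧ LocS G (Lk G A {v}) 3

def MfRemStmt : Prop :=
  ∀ (V : Type) (G : SimpleGraph V) (A : Set V), Mf G A → ∀ v ∈ A, Rem G A v

/-- Homology 2-spheres are simply connected. -/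
def Sc2Stmt : Prop :=
  ∀ (V : Type) (G : SimpleGraph V) (S : Set V), S.Finite → HS G S 3 → LocS G S 3 → SConn G S

def MfIsoStmt : Prop :=
  ∀ (V V' : Type) (G : SimpleGraph V) (A : Set V) (G' : SimpleGraph V') (A' : Set V')
    (f : V' → V), IsIso G' A' G A f → (Mf G A ↔ Mf G' A')

/-- Gluing two homology spheres along a vertex link. -/
def HsGraftStmt : Prop :=
  ∀ (V : Type) (G : SimpleGraph V) (d : ℕ) (A M B : Set V) (v : V), Graft G A M B v →
    A.Finite → M.Finite → HS G A d → LocS G A d → HS G M d → LocS G M d → HS G B d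

def MfGraftStmt : Prop :=
  ∀ (V : Type) (G : SimpleGraph V) (A M B : Set V) (v : V), Graft G A M B v → Mf G A → Mf G M →
    Mf G B

/-- The fundamental cycle of a closed oriented manifold. -/
def OrientStmt : Prop :=
  ∀ (V : Type) [Fintype V] (G : SimpleGraph V) (A : Set V), Closed3 G A →
    ∃ ζ ∈ Zy G A 4, ∀ a ∈ A, ∀ b ∈ Lk G A {a}, ∀ c ∈ Lk G A {a, b}, ∀ d ∈ Lk G A {a, b, c},
      iv d (iv c (iv b (iv a ζ))) ≠ 0

/-- Two points, and the empty set. -/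
def Hs1Stmt : Prop :=
  ∀ (V : Type) (G : SimpleGraph V), HS G ∅ 0 ∧ ∀ a b : V, ¬ Adq G a b → HS G {a, b} 1

/-- Top cycles of a connected complex with spherical links are unique, and the Euler
characteristic gives the middle homology. -/
def HsUpStmt : Prop :=
  ∀ (V : Type) (G : SimpleGraph V) (S : Set V) (d : ℕ), S.Finite → PConn G S → LocS G S d →
    (∃ ζ ∈ Zy G S d, ∀ v ∈ S, iv v ζ ≠ 0) →
    (d = 2 ∨ (d = 3 ∧ ncl G S 1 + ncl G S 3 = ncl G S 2 + 2)) → HS G S d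

def ClosedMfStmt : Prop :=
  ∀ (V : Type) [Fintype V] (G : SimpleGraph V) (A : Set V), Closed3 G A →
    Mf G A ∧ ∃ a ∈ A, ∃ b ∈ A, ¬ Adq G a b

/-- The three basic facts on the homology of a graft. -/
structure GFacts {V : Type} (G : SimpleGraph V) (A M B : Set V) (v : V) : Prop where
  g1 : ∀ n, ∀ S ⊆ A, ∀ z ∈ Zy G S n, ∃ z' ∈ Zy G (B ∩ col A v ⁻¹' S) n,
    emap (col A v) z' - z ∈ Bd G S n ∧ (n ≤ 3 → emap (col M v) z' ∈ Bd G M n)
  g2 : ∀ n, ∀ S ⊆ A, ∀ z ∈ Zy G (B ∩ col A v ⁻¹' S) n, emap (col A v) z ∈ Bd G S n →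
    emap (col M v) z ∈ Bd G M n → z ∈ Bd G (B ∩ col A v ⁻¹' S) n
  g3 : ∀ n ≤ 3, ∀ m ∈ Zy G M n, ∃ z ∈ Zy G (B ∩ col A v ⁻¹' {v}) n, z - m ∈ Bd G M n ∧
    emap (col M v) z = z
  top : ∀ z ∈ Zy G B 4, emap (col A v) z = 0 → z = 0

def GFactsStmt : Prop :=
  ∀ (V : Type) (G : SimpleGraph V) (A M B : Set V) (v : V), Graft G A M B v → Rem G M v →
    GFacts G A M B v

def GLocStmt : Prop :=
  ∀ (V : Type) (G : SimpleGraph V) (A M B : Set V) (v : V), Graft G A M B v → Rem G M v →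
    GFacts G A M B v → Loc G B G A (col A v)

/-- The abstract form of one-endedness. -/
def OeAbsStmt : Prop :=
  ∀ (V : Type) (G : SimpleGraph V) (A : Set V) (η : V → EA V), PConn G A →
    (∀ p ∈ A, (Lk G A {p}).Finite) → (∀ p ∈ A, η p ∈ Zy G (Lk G A {p}) 3) →
    (∀ p ∈ A, η p ≠ 0) → (∀ p ∈ A, ∀ z ∈ Zy G (Lk G A {p}) 3, ∃ r : ℚ, z = r • η p) →
    (∀ p ∈ A, ∀ q ∈ Lk G A {p}, iv q (η p) ≠ 0 ∧ iv q (η p) = - iv p (η q)) →
    Zy G A 3 ≤ Bd G A 3 → ∀ S ⊆ A, {q | q ∈ A ∧ ∃ p ∈ Lk G A {q}, ¬ (p ∈ S ↔ q ∈ S)}.Finite →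
    S.Finite ∨ (A \ S).Finite

def OneEnded (H : Type) [Group H] : Prop :=
  Infinite H ∧ ∀ S : Set H, (∀ g, {h | ¬ (h ∈ S ↔ g * h ∈ S)}.Finite) → S.Finite ∨ Sᶜ.Finite

def OeStmt : Prop :=
  ∀ (V : Type) (G : SimpleGraph V) (A : Set V) (L : Type) [Group L] [Infinite L]
    (lab : V → V → L), Mf G A → Flat G A lab → PConn (cov G lab L) (up A L) →
    Zy (cov G lab L) (up A L) 3 ≤ Bd (cov G lab L) (up A L) 3 → OneEnded L

/-- A two coloured tree with an action preserving the colours. -/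
structure TreeAct (H T : Type) [Group H] [MulAction H T] (X : SimpleGraph T) (κ : T → Bool) :
    Prop where
  tree : X.IsTree
  adj : ∀ (g : H) a b, X.Adj a b → X.Adj (g • a) (g • b)
  col : ∀ a b, X.Adj a b → κ a ≠ κ b
  inv : ∀ (g : H) a, κ (g • a) = κ a
  free : ∀ (g : H) a b, X.Adj a b → g • a = a → g • b = b → g = 1

/-- The Bass-Serre tree of a free product. -/
def BsStmt : Prop :=
  ∀ (A B : Type) [Group A] [Group B], ∃ (T : Type) (_ : MulAction (Monoid.Coprod A B) T)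
    (X : SimpleGraph T) (κ : T → Bool) (a b : T), TreeAct (Monoid.Coprod A B) T X κ ∧
    (∀ x : T, ∃ w : Monoid.Coprod A B, x = w • a ∨ x = w • b) ∧
    (∀ w : Monoid.Coprod A B,
      w • a = a ↔ w ∈ (Monoid.Coprod.inl : A →* Monoid.Coprod A B).range) ∧
    ∀ w : Monoid.Coprod A B, w • b = b ↔ w ∈ (Monoid.Coprod.inr : B →* Monoid.Coprod A B).range

def TreeFinStmt : Prop :=
  ∀ (H T : Type) [Group H] [Finite H] [MulAction H T] (X : SimpleGraph T) (κ : T → Bool),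
    TreeAct H T X κ → ∃ x : T, ∀ g : H, g • x = x

def TreeOneStmt : Prop :=
  ∀ (H T : Type) [Group H] [MulAction H T] (X : SimpleGraph T) (κ : T → Bool),
    TreeAct H T X κ → OneEnded H → ∃ x : T, ∀ g : H, g • x = x

def HasEStmt : Prop :=
  ∀ (H : Type) [Group H], (Finite H → HasE H) ∧ (OneEnded H → HasE H)

def MalStmt : Prop :=
  ∀ (A B : Type) [Group A] [Group B] (w : Monoid.Coprod A B),
    (∀ a a' : A, a ≠ 1 → w⁻¹ * Monoid.Coprod.inl a * w = Monoid.Coprod.inl a' →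
      w ∈ (Monoid.Coprod.inl : A →* Monoid.Coprod A B).range) ∧
    ∀ b b' : B, b ≠ 1 → w⁻¹ * Monoid.Coprod.inr b * w = Monoid.Coprod.inr b' →
      w ∈ (Monoid.Coprod.inr : B →* Monoid.Coprod A B).range

end

end Pool.Agent.MP_6374aa_gt

end

section

namespace Pool.Agent.MP_6374aa_gt

open Monoid Classical

/-- The orbit of an edge gives a tree if a potential separates the two ends of the edge. -/
theorem tree_Bs {H T : Type} [Group H] [MulAction H T] (κ : T → Bool) (a b : T) (F : T → ℤ)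
    (hκ : ∀ (g : H) x, κ (g • x) = κ x) (hab : κ a ≠ κ b)
    (hT : ∀ x : T, ∃ w : H, x = w • a ∨ x = w • b)
    (hgen : ∀ P : H → Prop, (∀ g, g • a = a → P g) → (∀ g, g • b = b → P g) →
      (∀ g g', P g → P g' → P (g * g')) → ∀ g, P g)
    (hfree : ∀ g : H, g • a = a → g • b = b → g = 1)
    (hF : ∀ w : H, w ≠ 1 → F (w • a) = F (w • b)) (hF' : F a ≠ F b) :
    ∃ X : SimpleGraph T, TreeAct H T X κ := by
  let X : SimpleGraph T :=
    { Adj := fun x y => ∃ w : H, (x = w • a ∧ y = w • b) ∨ (x = w • b ∧ y = w • a)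
      symm := ⟨fun _ _ ⟨w, h⟩ => ⟨w, h.symm.imp And.symm And.symm⟩⟩
      loopless := ⟨fun x ⟨w, h⟩ => hab (by
        rw [← hκ w a, ← hκ w b]
        rcases h with ⟨h, h'⟩ | ⟨h, h'⟩ <;> rw [← h, ← h'])⟩ }
  have hadj : ∀ (g : H) x y, X.Adj x y → X.Adj (g • x) (g • y) := by
    rintro g x y ⟨w, h⟩
    refine ⟨g * w, ?_⟩
    rw [mul_smul, mul_smul]
    exact h.imp (fun h => ⟨by rw [h.1], by rw [h.2]⟩) fun h => ⟨by rw [h.1], by rw [h.2]⟩
  have h0 : ∀ w : H, X.Adj (w • a) (w • b) := fun w => ⟨w, .inl ⟨rfl, rfl⟩⟩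
  have h1 : ∀ w : H, X.Reachable a (w • a) := by
    refine hgen _ (fun g h => by rw [h]) (fun g h => ?_) fun g g' h h' => ?_
    · have e := h0 1
      have e' := h0 g
      rw [one_smul, one_smul] at e
      rw [h] at e'
      exact e.reachable.trans e'.reachable.symm
    · rw [mul_smul]
      exact h.trans (h'.map (⟨fun x => g • x, fun h => hadj g _ _ h⟩ : X →g X))
  have h2 : ∀ x, X.Reachable a x := fun x => by
    obtain ⟨w, rfl | rfl⟩ := hT x
    exacts [h1 w, (h1 w).trans (h0 w).reachable]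
  have h3 : ∀ g : H, ∀ x y, (X.deleteEdges {s(g • a, g • b)}).Reachable x y →
      F (g⁻¹ • x) = F (g⁻¹ • y) := by
    rintro g x y ⟨p⟩
    induction p with
    | nil => rfl
    | cons h _ ih =>
      refine Eq.trans ?_ ih
      obtain ⟨⟨w, h4⟩, h5⟩ := SimpleGraph.deleteEdges_adj.1 h
      have h6 : g⁻¹ * w ≠ 1 := fun e => h5 (by
        rw [inv_mul_eq_one.1 e]
        rcases h4 with ⟨rfl, rfl⟩ | ⟨rfl, rfl⟩
        exacts [rfl, Sym2.eq_swap])
      have h7 := hF _ h6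
      rw [mul_smul, mul_smul] at h7
      rcases h4 with ⟨rfl, rfl⟩ | ⟨rfl, rfl⟩
      exacts [h7, h7.symm]
  have h4 : ∀ g : H, X.IsBridge s(g • a, g • b) := fun g h => hF' (by simpa using h3 g _ _ h)
  have : Nonempty T := ⟨a⟩
  refine ⟨X, ⟨⟨fun x y => (h2 x).symm.trans (h2 y)⟩,
    SimpleGraph.isAcyclic_iff_forall_adj_isBridge.2 ?_⟩, hadj, ?_, hκ, ?_⟩
  · rintro x y ⟨w, ⟨rfl, rfl⟩ | ⟨rfl, rfl⟩⟩
    exacts [h4 w, Sym2.eq_swap ▸ h4 w]
  · rintro x y ⟨w, ⟨rfl, rfl⟩ | ⟨rfl, rfl⟩⟩ <;> rw [hκ, hκ]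
    exacts [hab, hab.symm]
  · have h5 : ∀ g w : H, g • w • a = w • a → g • w • b = w • b → g = 1 := fun g w h h' => by
      have := hfree (w⁻¹ * g * w) (by rw [mul_smul, mul_smul, h, inv_smul_smul])
        (by rw [mul_smul, mul_smul, h', inv_smul_smul])
      rw [mul_assoc, inv_mul_eq_one] at this
      exact mul_eq_right.1 this.symm
    rintro g x y ⟨w, ⟨rfl, rfl⟩ | ⟨rfl, rfl⟩⟩ h h'
    exacts [h5 g w h h', h5 g w h' h]

/-- A cocycle on the free product that jumps only at the identity. -/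
theorem pot_Bs (A B : Type) [Group A] [Group B] : ∃ s : Coprod A B → ℤ,
    (∀ a g, s (Coprod.inl a * g) - (if Coprod.inl a * g = 1 then 1 else 0) =
      s g - if g = 1 then 1 else 0) ∧ ∀ b g, s (Coprod.inr b * g) = s g := by
  let σ : Equiv.Perm (Coprod A B × ℤ) :=
    { toFun := fun p => (p.1, p.2 + if p.1 = 1 then 1 else 0)
      invFun := fun p => (p.1, p.2 - if p.1 = 1 then 1 else 0)
      left_inv := fun p => by simp
      right_inv := fun p => by simp }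
  let L : Coprod A B →* Equiv.Perm (Coprod A B × ℤ) :=
    { toFun := fun g => Equiv.prodCongr (Equiv.mulLeft g) (Equiv.refl ℤ)
      map_one' := by ext p <;> simp
      map_mul' := fun g g' => by ext p <;> simp [mul_assoc] }
  let Φ : Coprod A B →* Equiv.Perm (Coprod A B × ℤ) :=
    Coprod.lift ((MulAut.conj σ).toMonoidHom.comp (L.comp Coprod.inl)) (L.comp Coprod.inr)
  have h1 : ∀ a p, Φ (Coprod.inl a) p = (Coprod.inl a * p.1,
      (p.2 - if p.1 = 1 then 1 else 0) + if Coprod.inl a * p.1 = 1 then 1 else 0) :=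
    fun a p => rfl
  have h2 : ∀ b p, Φ (Coprod.inr b) p = (Coprod.inr b * p.1, p.2) := fun b p => rfl
  have h3 : ∀ g p, (Φ g p).1 = g * p.1 := fun g => by
    induction g using Coprod.induction_on with
    | inl a => exact fun p => by rw [h1]
    | inr b => exact fun p => by rw [h2]
    | mul x y hx hy => exact fun p => by rw [map_mul, Equiv.Perm.mul_apply, hx, hy, mul_assoc]
  refine ⟨fun g => (Φ g (1, 0)).2, fun a g => ?_, fun b g => ?_⟩
  · simp only [map_mul, Equiv.Perm.mul_apply, h1, h3, mul_one, add_sub_cancel_right]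
  · simp only [map_mul, Equiv.Perm.mul_apply, h2]

theorem bs : BsStmt := by
  intro A B _ _
  obtain ⟨s, h1, h2⟩ := pot_Bs A B
  set A' := (Coprod.inl : A →* Coprod A B).range with hA
  set B' := (Coprod.inr : B →* Coprod A B).range with hB
  have key : ∀ (K : Subgroup (Coprod A B)) (w : Coprod A B),
      w • ((1 : Coprod A B) : Coprod A B ⧸ K) = (w : Coprod A B ⧸ K) := fun K w => by
    rw [MulAction.Quotient.smul_coe, smul_eq_mul, mul_one]
  have key' : ∀ (K : Subgroup (Coprod A B)) (w : Coprod A B),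
      w • ((1 : Coprod A B) : Coprod A B ⧸ K) = ((1 : Coprod A B) : Coprod A B ⧸ K) ↔ w ∈ K :=
    fun K w => by rw [key, QuotientGroup.eq, mul_one, inv_mem_iff]
  let a : (Coprod A B ⧸ A') ⊕ (Coprod A B ⧸ B') := .inl (1 : Coprod A B)
  let b : (Coprod A B ⧸ A') ⊕ (Coprod A B ⧸ B') := .inr (1 : Coprod A B)
  have ha : ∀ w : Coprod A B, w • a = a ↔ w ∈ A' := fun w => by
    rw [Sum.smul_inl, Sum.inl.injEq, key']
  have hb : ∀ w : Coprod A B, w • b = b ↔ w ∈ B' := fun w => by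
    rw [Sum.smul_inr, Sum.inr.injEq, key']
  have hT : ∀ x, ∃ w : Coprod A B, x = w • a ∨ x = w • b := by
    rintro (x | x) <;> obtain ⟨w, rfl⟩ := QuotientGroup.mk_surjective x
    · exact ⟨w, .inl (by rw [Sum.smul_inl, key])⟩
    · exact ⟨w, .inr (by rw [Sum.smul_inr, key])⟩
  let FA : Coprod A B ⧸ A' → ℤ :=
    Quotient.lift (fun w => s w⁻¹ - if w⁻¹ = 1 then 1 else 0) fun w w' h => by
      obtain ⟨x, hx⟩ := inv_mem (QuotientGroup.leftRel_apply.1 h)
      have := h1 x w⁻¹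
      rw [hx, mul_inv_rev, inv_inv, mul_inv_cancel_right] at this
      exact this.symm
  let FB : Coprod A B ⧸ B' → ℤ :=
    Quotient.lift (fun w => s w⁻¹) fun w w' h => by
      obtain ⟨x, hx⟩ := inv_mem (QuotientGroup.leftRel_apply.1 h)
      have := h2 x w⁻¹
      rw [hx, mul_inv_rev, inv_inv, mul_inv_cancel_right] at this
      exact this.symm
  obtain ⟨X, hX⟩ := tree_Bs (H := Coprod A B) Sum.isLeft a b (Sum.elim FA FB)
    (by rintro g (x | x) <;> rfl) (by simp [a, b]) hT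
    (fun P p1 p2 p3 g => Coprod.induction_on g (fun x => p1 _ ((ha _).2 ⟨x, rfl⟩))
      (fun x => p2 _ ((hb _).2 ⟨x, rfl⟩)) p3)
    (fun g e e' => by
      obtain ⟨x, rfl⟩ := (ha g).1 e
      obtain ⟨y, hy⟩ := (hb _).1 e'
      have := congrArg Coprod.fst hy
      rw [Coprod.fst_apply_inr, Coprod.fst_apply_inl] at this
      rw [← this, map_one])
    (fun w hw => by
      rw [Sum.smul_inl, Sum.smul_inr, key, key]
      change (s w⁻¹ - if w⁻¹ = 1 then 1 else 0) = s w⁻¹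
      rw [if_neg (inv_ne_one.2 hw), sub_zero])
    (by
      change (s 1⁻¹ - if (1 : Coprod A B)⁻¹ = 1 then 1 else 0) ≠ s 1⁻¹
      rw [if_pos inv_one]
      omega)
  exact ⟨_, inferInstance, X, _, a, b, hX, hT, ha, hb⟩

end Pool.Agent.MP_6374aa_gt

end

section

/-! Fixed points of finite groups on trees, and consequences for free products. -/

namespace Pool.Agent.MP_6374aa_gt

open SimpleGraph

section

variable {T : Type} {X : SimpleGraph T}

lemma down_ex_TreeFin (h : X.IsTree) {x y : T} (hxy : x ≠ y) :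
    ∃ m, X.Adj x m ∧ X.dist m y + 1 = X.dist x y := by
  obtain ⟨p, hp⟩ := h.connected.exists_walk_length_eq_dist x y
  cases p with
  | nil => exact absurd rfl hxy
  | @cons _ m _ a q =>
    refine ⟨m, a, ?_⟩
    have h1 := dist_le q
    have h2 := h.dist_eq_dist_add_one_of_adj y a
    rw [Walk.length_cons] at hp
    rw [dist_comm (u := y), dist_comm (u := y)] at h2
    omega

lemma down_uniq_TreeFin (h : X.IsTree) {x z m m' : T} (a : X.Adj x m) (a' : X.Adj x m')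
    (h1 : X.dist m z + 1 = X.dist x z) (h2 : X.dist m' z + 1 = X.dist x z) : m = m' := by
  obtain ⟨p, hp⟩ := h.connected.exists_walk_length_eq_dist m z
  obtain ⟨q, hq⟩ := h.connected.exists_walk_length_eq_dist m' z
  have e := (h.existsUnique_path x z).unique
    ((Walk.cons a p).isPath_of_length_eq_dist (by rw [Walk.length_cons, hp, h1]))
    ((Walk.cons a' q).isPath_of_length_eq_dist (by rw [Walk.length_cons, hq, h2]))
  simpa using congrArg (fun w : X.Walk x z => w.getVert 1) e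

lemma far_TreeFin (h : X.IsTree) (y z : T) (n : ℕ) : ∀ x m : T, X.Adj x m → X.dist m y = n →
    X.dist m y + 1 = X.dist x y → X.dist m z = X.dist x z + 1 →
    X.dist y z = X.dist m y + X.dist m z := by
  induction n with
  | zero =>
    intro x m _ h0 _ _
    obtain rfl := h.connected.dist_eq_zero_iff.1 h0
    rw [h0, zero_add]
  | succ n ih =>
    intro x m a h0 h1 h2
    obtain ⟨m', a', h3⟩ := down_ex_TreeFin h (x := m) (y := y) (by rintro rfl; simp at h0)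
    have h4 := h.dist_eq_dist_add_one_of_adj z a'
    rw [dist_comm (u := z), dist_comm (u := z)] at h4
    rcases h4 with h4 | h4
    · obtain rfl := down_uniq_TreeFin h a' a.symm h4.symm h2.symm
      omega
    · have := ih m m' a' (by omega) h3 h4
      omega

lemma mid_TreeFin (h : X.IsTree) {x y : T} (hxy : 1 < X.dist x y) :
    ∃ m, ∀ z, X.dist m z < X.dist x z ∨ X.dist m z < X.dist y z := by
  obtain ⟨m, a, h1⟩ := down_ex_TreeFin h (x := x) (y := y) (by rintro rfl; simp at hxy)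
  refine ⟨m, fun z => ?_⟩
  have h4 := h.dist_eq_dist_add_one_of_adj z a
  rw [dist_comm (u := z), dist_comm (u := z)] at h4
  rcases h4 with h4 | h4
  · omega
  · have := far_TreeFin h y z _ x m a rfl h1 h4
    omega

variable {H : Type} [Group H] [MulAction H T] {κ : T → Bool}

lemma dist_smul_TreeFin (h : TreeAct H T X κ) (g : H) (a b : T) :
    X.dist (g • a) (g • b) = X.dist a b := by
  have key : ∀ (g : H) (a b : T), X.dist (g • a) (g • b) ≤ X.dist a b := by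
    intro g a b
    obtain ⟨p, hp⟩ := h.tree.connected.exists_walk_length_eq_dist a b
    have := dist_le (p.map (⟨fun a => g • a, fun {a b} => h.adj g a b⟩ : X →g X))
    rwa [Walk.length_map, hp] at this
  exact le_antisymm (key g a b) (by simpa using key g⁻¹ (g • a) (g • b))

lemma two_fix_TreeFin (h : TreeAct H T X κ) {g : H} {x y : T} (hx : g • x = x) (hy : g • y = y)
    (hxy : x ≠ y) : g = 1 := by
  obtain ⟨m, a, h1⟩ := down_ex_TreeFin h.tree hxy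
  refine h.free g x m a hx (down_uniq_TreeFin h.tree (by simpa [hx] using h.adj g x m a) a ?_ h1)
  rw [← h1, ← dist_smul_TreeFin h g m y, hy]

lemma mal_TreeFin (h : TreeAct H T X κ) {g w : H} {x : T} (hg : g ≠ 1) (h1 : g • x = x)
    (h2 : (w⁻¹ * g * w) • x = x) : w • x = x := by
  by_contra h3
  refine hg (two_fix_TreeFin h ?_ h1 h3)
  conv_rhs => rw [← h2]
  simp [mul_smul]

end

theorem treeFin : TreeFinStmt := by
  intro H T _ _ _ X κ h
  have := Fintype.ofFinite H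
  obtain ⟨x0⟩ := h.tree.connected.nonempty
  have : Nonempty T := ⟨x0⟩
  let r : T → ℕ := fun x => Finset.univ.sup fun g : H => X.dist x (g • x0)
  have h1 : ∀ x (g : H), X.dist x (g • x0) ≤ r x := fun x g =>
    Finset.le_sup (f := fun g : H => X.dist x (g • x0)) (Finset.mem_univ g)
  have h2 : ∀ x (g : H), r (g • x) ≤ r x := fun x g => Finset.sup_le fun k _ => by
    have := h1 x (g⁻¹ * k)
    rwa [← dist_smul_TreeFin h g, smul_smul, mul_inv_cancel_left] at this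
  refine ⟨Function.argmin r, fun g => ?_⟩
  by_contra h3
  obtain ⟨m, hm⟩ := mid_TreeFin h.tree (h.tree.connected.one_lt_dist_of_ne_of_not_adj h3
    fun a => h.col _ _ a (h.inv g _))
  obtain ⟨k, -, hk⟩ := Finset.exists_mem_eq_sup Finset.univ (Finset.univ_nonempty (α := H))
    fun g : H => X.dist m (g • x0)
  have h4 : r (Function.argmin r) ≤ r m := Function.argmin_le r m
  have h5 : r m = X.dist m (k • x0) := hk
  have h6 := h1 (Function.argmin r) k
  have h7 := h1 (g • Function.argmin r) k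
  have h8 := h2 (Function.argmin r) g
  have := hm (k • x0)
  omega

theorem mal (hB : BsStmt) : MalStmt := by
  intro A B _ _ w
  obtain ⟨T, _, X, κ, a, b, h, -, ha, hb⟩ := hB A B
  constructor
  · intro c c' hc e
    refine (ha w).1 (mal_TreeFin h (g := Monoid.Coprod.inl c) (fun h1 => hc ?_)
      ((ha _).2 ⟨c, rfl⟩) ((ha _).2 ⟨c', e.symm⟩))
    exact Monoid.Coprod.inl_injective (h1.trans (map_one _).symm)
  · intro c c' hc e
    refine (hb w).1 (mal_TreeFin h (g := Monoid.Coprod.inr c) (fun h1 => hc ?_)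
      ((hb _).2 ⟨c, rfl⟩) ((hb _).2 ⟨c', e.symm⟩))
    exact Monoid.Coprod.inr_injective (h1.trans (map_one _).symm)

lemma hasE_TreeFin (hB : BsStmt) (H : Type) [Group H]
    (hH : ∀ (T : Type) [MulAction H T] (X : SimpleGraph T) (κ : T → Bool),
      TreeAct H T X κ → ∃ x : T, ∀ g : H, g • x = x) : HasE H := by
  intro A B _ _ φ hφ
  obtain ⟨T, _, X, κ, a, b, h, h1, ha, hb⟩ := hB A B
  let _ : MulAction H T := MulAction.compHom T φ
  obtain ⟨x, hx⟩ := hH T X κ ⟨h.tree, fun g => h.adj (φ g), h.col, fun g => h.inv (φ g),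
    fun g a b e h2 h3 => hφ ((h.free (φ g) a b e h2 h3).trans (map_one φ).symm)⟩
  have key : ∀ (w : Monoid.Coprod A B) (c : T), x = w • c → ∀ g, (w⁻¹ * φ g * w) • c = c := by
    rintro w c rfl g
    have h2 : φ g • w • c = w • c := hx g
    rw [mul_smul, mul_smul, h2, inv_smul_smul]
  obtain ⟨w, e | e⟩ := h1 x
  · exact ⟨w, Or.inl fun g => (ha _).1 (key w a e g)⟩
  · exact ⟨w, Or.inr fun g => (hb _).1 (key w b e g)⟩

theorem hasE (hB : BsStmt) (hF : TreeFinStmt) (hO : TreeOneStmt) : HasEStmt := fun H _ =>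
  ⟨fun _ => hasE_TreeFin hB H fun T _ X κ h => hF H T X κ h,
    fun h1 => hasE_TreeFin hB H fun T _ X κ h => hO H T X κ h h1⟩

end Pool.Agent.MP_6374aa_gt

end

section

/-! A one-ended group acting on a tree, freely on the edges, fixes a vertex. -/

namespace Pool.Agent.MP_6374aa_gt

section Tree

variable {T : Type} {X : SimpleGraph T}

theorem uniq_TreeOne (hX : X.IsTree) {x a b c : T} (hb : X.Adj a b) (hc : X.Adj a c)
    (h1 : X.dist x b < X.dist x a) (h2 : X.dist x c < X.dist x a) : b = c := by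
  obtain ⟨p, hp⟩ := hX.connected.exists_walk_length_eq_dist b x
  obtain ⟨q, hq⟩ := hX.connected.exists_walk_length_eq_dist c x
  have e1 := hX.dist_eq_dist_add_one_of_adj x hb
  have e2 := hX.dist_eq_dist_add_one_of_adj x hc
  have hp' : (SimpleGraph.Walk.cons hb p).IsPath := SimpleGraph.Walk.isPath_of_length_eq_dist _ (by
    rw [SimpleGraph.Walk.length_cons, hp, X.dist_comm (u := b), X.dist_comm (u := a)]; omega)
  have hq' : (SimpleGraph.Walk.cons hc q).IsPath := SimpleGraph.Walk.isPath_of_length_eq_dist _ (by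
    rw [SimpleGraph.Walk.length_cons, hq, X.dist_comm (u := c), X.dist_comm (u := a)]; omega)
  have e : SimpleGraph.Walk.cons hb p = SimpleGraph.Walk.cons hc q := congrArg Subtype.val
    ((hX.isAcyclic.subsingleton_path a x).elim ⟨_, hp'⟩ ⟨_, hq'⟩)
  simpa using congrArg (fun w => w.getVert 1) e

theorem pred_TreeOne (hX : X.IsTree) {x a : T} (h : a ≠ x) :
    ∃ b, X.Adj a b ∧ X.dist x b < X.dist x a := by
  obtain ⟨p, hp⟩ := hX.connected.exists_walk_length_eq_dist a x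
  cases p with
  | nil => exact absurd rfl h
  | cons hab q =>
    refine ⟨_, hab, ?_⟩
    have := SimpleGraph.dist_le q
    rw [SimpleGraph.Walk.length_cons] at hp
    rw [X.dist_comm (u := x), X.dist_comm (u := x)]
    omega

theorem sep_adj_TreeOne (hX : X.IsTree) {x y a b : T} (hxy : X.Adj x y) (hab : X.Adj a b)
    (h1 : X.dist x b < X.dist x a) (h2 : ¬ X.dist y b < X.dist y a) : a = y ∧ b = x := by
  have e1 := hX.dist_eq_dist_add_one_of_adj x hab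
  have e2 := hX.dist_eq_dist_add_one_of_adj y hab
  have e3 := hX.dist_eq_dist_add_one_of_adj a hxy
  have e4 := hX.dist_eq_dist_add_one_of_adj b hxy
  rw [X.dist_comm (u := a), X.dist_comm (u := a)] at e3
  rw [X.dist_comm (u := b), X.dist_comm (u := b)] at e4
  by_cases h3 : a = y
  · refine ⟨h3, (hX.connected.dist_eq_zero_iff.1 ?_).symm⟩
    have : X.dist y a = 0 := by rw [h3, X.dist_self]
    omega
  · obtain ⟨w, hw, hw'⟩ := pred_TreeOne hX h3
    have e5 := hX.dist_eq_dist_add_one_of_adj w hxy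
    rw [X.dist_comm (u := w), X.dist_comm (u := w)] at e5
    have e6 : b = w := uniq_TreeOne hX hab hw h1 (by omega)
    subst e6
    omega

theorem sep_fin_TreeOne (hX : X.IsTree) (x y : T) :
    {e : T × T | X.Adj e.1 e.2 ∧
      ¬ (X.dist x e.2 < X.dist x e.1 ↔ X.dist y e.2 < X.dist y e.1)}.Finite := by
  obtain ⟨p⟩ := hX.connected.preconnected x y
  induction p with
  | nil => simp
  | @cons x z y hxz p ih =>
    refine (ih.union (Set.toFinite {(z, x), (x, z)})).subset fun e he => ?_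
    by_cases h1 : X.dist z e.2 < X.dist z e.1 ↔ X.dist y e.2 < X.dist y e.1
    · right
      by_cases h2 : X.dist x e.2 < X.dist x e.1
      · have := sep_adj_TreeOne hX hxz he.1 h2 fun h => he.2 (iff_of_true h2 (h1.1 h))
        exact Or.inl (Prod.ext this.1 this.2)
      · have h3 : X.dist z e.2 < X.dist z e.1 := by
          by_contra h3
          exact he.2 (iff_of_false h2 fun h => h3 (h1.2 h))
        have := sep_adj_TreeOne hX hxz.symm he.1 h3 h2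
        exact Or.inr (Prod.ext this.1 this.2)
    · exact Or.inl ⟨he.1, h1⟩

/-- An orientation with out-degree at most one and a sink has only one sink. -/
theorem sink_TreeOne (hX : X.IsTree) {B : T → T → Prop}
    (htot : ∀ a b, X.Adj a b → B a b ∨ B b a) (huniq : ∀ a b c, B a b → B a c → b = c)
    {v : T} (hv : ∀ b, ¬ B v b) (n : ℕ) :
    ∀ a b, X.Adj a b → X.dist v b < X.dist v a → X.dist v b = n → B a b := by
  induction n using Nat.strong_induction_on with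
  | _ n ih =>
    intro a b hab h1 h2
    refine (htot a b hab).resolve_right fun h3 => ?_
    by_cases h4 : b = v
    · exact hv a (h4 ▸ h3)
    · obtain ⟨c, hc, hc'⟩ := pred_TreeOne hX h4
      have := huniq b a c h3 (ih _ (h2 ▸ hc') b c hc hc' rfl)
      subst this
      omega

theorem ray_TreeOne (hX : X.IsTree) {σ : T → T} (h1 : ∀ a, X.Adj a (σ a))
    (h2 : ∀ a, σ (σ a) ≠ a) (x : T) : StrictMono fun n => X.dist x (σ^[n] x) := by
  refine strictMono_nat_of_lt_succ fun n => ?_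
  induction n with
  | zero =>
    have := hX.dist_ne_of_adj x (h1 x)
    simp only [Function.iterate_zero, id, zero_add, Function.iterate_one, X.dist_self] at this ⊢
    omega
  | succ n ih =>
    simp only [Function.iterate_succ_apply'] at ih ⊢
    have h3 := hX.dist_ne_of_adj x (h1 (σ (σ^[n] x)))
    by_contra h4
    exact h2 _ (uniq_TreeOne hX (h1 (σ (σ^[n] x))) (h1 (σ^[n] x)).symm (by omega) ih)

theorem merge_TreeOne (hX : X.IsTree) {σ : T → T} (h : ∀ a b, X.Adj a b → b = σ a ∨ a = σ b)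
    (x y : T) : ∃ i j, σ^[i] x = σ^[j] y := by
  obtain ⟨p⟩ := hX.connected.preconnected x y
  induction p with
  | nil => exact ⟨0, 0, rfl⟩
  | @cons x z y hxz p ih =>
    obtain ⟨i, j, e⟩ := ih
    rcases h x z hxz with h1 | h1
    · exact ⟨i + 1, j, by rw [Function.iterate_succ_apply, ← h1, e]⟩
    · refine ⟨i, j + 1, ?_⟩
      rw [h1, ← Function.iterate_succ_apply, Function.iterate_succ_apply', e,
        Function.iterate_succ_apply']

variable {H : Type} [Group H] [MulAction H T]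

theorem dist_smul_TreeOne (hX : X.IsTree) (hadj : ∀ (g : H) a b, X.Adj a b → X.Adj (g • a) (g • b))
    (g : H) (x y : T) : X.dist (g • x) (g • y) = X.dist x y := by
  have key : ∀ (g : H) (x y : T), X.dist (g • x) (g • y) ≤ X.dist x y := by
    intro g x y
    obtain ⟨p, hp⟩ := hX.connected.exists_walk_length_eq_dist x y
    let f : X →g X := ⟨fun a => g • a, fun h => hadj g _ _ h⟩
    have := SimpleGraph.dist_le (p.map f)
    rwa [SimpleGraph.Walk.length_map, hp] at this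
  refine le_antisymm (key g x y) ?_
  simpa using key g⁻¹ (g • x) (g • y)

end Tree

theorem treeOne : TreeOneStmt := by
  intro H T _ _ X κ hT ⟨hinf, hone⟩
  have hX := hT.tree
  obtain ⟨x⟩ := hX.connected.nonempty
  let S : T → T → Set H := fun a b => {h | X.dist x (h • b) < X.dist x (h • a)}
  have hcompl : ∀ a b, X.Adj a b → (S a b)ᶜ = S b a := by
    intro a b hab
    ext h
    have := hX.dist_ne_of_adj x (hT.adj h a b hab)
    simp only [S, Set.mem_compl_iff, Set.mem_ofPred_eq]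
    omega
  have hai : ∀ a b, X.Adj a b → ∀ g, {h | ¬ (h ∈ S a b ↔ g * h ∈ S a b)}.Finite := by
    intro a b hab g
    have hinj : Function.Injective fun h : H => (h • a, h • b) := by
      intro h h' e
      have e1 : h • a = h' • a := congrArg Prod.fst e
      have e2 : h • b = h' • b := congrArg Prod.snd e
      have := hT.free (h'⁻¹ * h) a b hab (by rw [mul_smul, e1, inv_smul_smul])
        (by rw [mul_smul, e2, inv_smul_smul])
      exact (inv_mul_eq_one.1 this).symm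
    refine ((sep_fin_TreeOne hX x (g⁻¹ • x)).preimage hinj.injOn).subset fun h hh => ?_
    refine ⟨hT.adj h a b hab, ?_⟩
    have e : ∀ c, X.dist (g⁻¹ • x) (h • c) = X.dist x ((g * h) • c) := fun c => by
      rw [← dist_smul_TreeOne hX hT.adj g, smul_inv_smul, mul_smul]
    dsimp only
    rw [e, e]
    exact hh
  let B : T → T → Prop := fun a b => X.Adj a b ∧ (S b a).Finite
  have htot : ∀ a b, X.Adj a b → B a b ∨ B b a := fun a b hab =>
    (hone _ (hai a b hab)).symm.imp (fun h => ⟨hab, hcompl a b hab ▸ h⟩) fun h => ⟨hab.symm, h⟩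
  have hasym : ∀ a b, B a b → ¬ B b a := by
    intro a b h1 h2
    have := h2.2.union h1.2
    rw [← hcompl a b h1.1, Set.union_compl_self] at this
    exact Set.infinite_univ this
  have huniq : ∀ a b c, B a b → B a c → b = c := by
    intro a b c h1 h2
    obtain ⟨h, hh⟩ := (h1.2.union h2.2).exists_notMem
    rw [← hcompl a b h1.1, ← hcompl a c h2.1, Set.mem_union, not_or, Set.mem_compl_iff,
      Set.mem_compl_iff, not_not, not_not] at hh
    exact MulAction.injective h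
      (uniq_TreeOne hX (hT.adj h a b h1.1) (hT.adj h a c h2.1) hh.1 hh.2)
  have hinv : ∀ (g : H) a b, B a b → B (g • a) (g • b) := by
    intro g a b h1
    refine ⟨hT.adj g a b h1.1, (h1.2.preimage (mul_left_injective g).injOn).subset fun h hh => ?_⟩
    simpa only [S, Set.mem_preimage, Set.mem_ofPred_eq, mul_smul] using hh
  by_cases hs : ∃ v, ∀ b, ¬ B v b
  · obtain ⟨v, hv⟩ := hs
    refine ⟨v, fun g => ?_⟩
    by_contra hne
    obtain ⟨b, hb, hb'⟩ := pred_TreeOne hX hne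
    have := hinv g⁻¹ _ _ (sink_TreeOne hX htot huniq hv _ _ _ hb hb' rfl)
    rw [inv_smul_smul] at this
    exact hv _ this
  exfalso
  push Not at hs
  choose σ hσ using hs
  have hray := ray_TreeOne hX (fun a => (hσ a).1)
    fun a h => hasym _ _ (hσ a) (by simpa only [h] using hσ (σ a))
  have heq : ∀ (g : H) n a, σ^[n] (g • a) = g • σ^[n] a := by
    intro g n
    induction n with
    | zero => exact fun _ => rfl
    | succ n ih =>
      intro a
      rw [Function.iterate_succ_apply, Function.iterate_succ_apply,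
        huniq _ _ _ (hσ (g • a)) (hinv g _ _ (hσ a)), ih]
  have hno : ∀ (g : H) j k, 0 < k → σ^[k + j] x ≠ g • σ^[j] x := by
    intro g j k hk e
    have h1 : ∀ n : ℕ, σ^[n * k + j] x = g ^ n • σ^[j] x := by
      intro n
      induction n with
      | zero => simp
      | succ n ih =>
        rw [show (n + 1) * k + j = k + (n * k + j) by ring, Function.iterate_add_apply, ih, heq,
          ← Function.iterate_add_apply, e, pow_succ, mul_smul]
    refine Set.infinite_of_injective_forall_mem (f := fun n : ℕ => g ^ n) (fun n m h => ?_)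
      (fun n => ?_) (hσ (σ^[j] x)).2
    · have h2 : σ^[n * k + j] x = σ^[m * k + j] x := by
        have h' : g ^ n = g ^ m := h
        rw [h1, h1, h']
      have h3 := (hray x).injective (congrArg (X.dist x) h2)
      exact Nat.eq_of_mul_eq_mul_right hk (by omega)
    · have h2 := hray x (Nat.lt_succ_self (n * k + j))
      have h3 := heq (g ^ n) 1 (σ^[j] x)
      simp only [Function.iterate_succ_apply', h1] at h2
      simp only [Function.iterate_one] at h3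
      rw [h3] at h2
      exact h2
  obtain ⟨g, hg⟩ := exists_ne (1 : H)
  obtain ⟨i, j, e⟩ := merge_TreeOne hX (σ := σ) (fun a b hab => (htot a b hab).imp
    (fun h => huniq _ _ _ h (hσ a)) fun h => huniq _ _ _ h (hσ b)) x (g • x)
  rw [heq] at e
  rcases lt_trichotomy i j with h | h | h
  · obtain ⟨k, rfl⟩ := Nat.exists_eq_add_of_lt h
    refine hno g⁻¹ i (k + 1) (Nat.succ_pos k) ?_
    rw [e, inv_smul_smul]
    congr 1
    ring
  · subst h
    refine hg (hT.free g _ _ (hσ (σ^[i] x)).1 e.symm ?_)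
    have := heq g 1 (σ^[i] x)
    simp only [Function.iterate_one] at this
    rw [← this, ← e]
  · obtain ⟨k, rfl⟩ := Nat.exists_eq_add_of_lt h
    refine hno g j (k + 1) (Nat.succ_pos k) ?_
    rw [← e]
    congr 1
    ring

end Pool.Agent.MP_6374aa_gt

end

section

/-! Closed surface groups in free products. -/

namespace Pool.Agent.MP_6374aa_g.BD

open Pool.Agent.MP_6374aa_gt Classical

variable {V : Type} {G : SimpleGraph V} {F : Set V}

theorem surf_ends (hF : Cl G 2 F) {K : Type} [Group K] {υ : V → V → K} (hυ : UL G F υ) :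
    Finite K ∨ OneEnded K := by
  rcases finite_or_infinite K with h | h
  · exact Or.inl h
  refine Or.inr ⟨h, fun S hS => ?_⟩
  have hm : Mf (cov G υ K) 2 (up F K) ∅ := Mf.cov (Ω := K) hυ.flat hF.2.2
  let δ : V × K → V × K → Z2 := fun x y => if (x.2 ∈ S ↔ y.2 ∈ S) then 1 else neg
  have n1 : neg * neg = 1 := by decide
  have n2 : neg ≠ 1 := by decide
  have hδ : ∀ x y, δ x y = 1 ↔ (x.2 ∈ S ↔ y.2 ∈ S) := fun x y => by
    by_cases e : (x.2 ∈ S ↔ y.2 ∈ S)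
    · exact iff_of_true (if_pos e) e
    · exact iff_of_false (fun k => n2 ((if_neg e).symm.trans k)) e
  have hfl : Flat (cov G υ K) (up F K) δ := fun x _ y _ z _ _ _ _ => by
    by_cases a : x.2 ∈ S <;> by_cases b : y.2 ∈ S <;> by_cases c : z.2 ∈ S <;>
      simp [δ, a, b, c, n1]
  have hfs : FinSupp (cov G υ K) (up F K) δ := by
    refine (hF.1.biUnion fun u _ => hF.1.biUnion fun w _ =>
      (hS (υ u w)).image fun l => ((u, υ u w * l), (w, l))).subset ?_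
    rintro ⟨⟨u, k⟩, ⟨w, l⟩⟩ ⟨hu, hw, h1, h2⟩
    have h3 : k = υ u w * l := ((cov_adq hυ.flat hu hw).1 h1).2
    subst h3
    exact Set.mem_biUnion hu (Set.mem_biUnion hw
      ⟨l, fun e => h2 ((hδ _ _).2 e.symm), rfl⟩)
  obtain ⟨S1, hS1, hc⟩ := fin_side hm hυ.cov_sco.ndc hfl hfs
  obtain ⟨a, ha⟩ := hυ.con.1
  have key : ∀ k : K, ((1 : K) ∈ S ↔ (a, (1 : K)) ∈ S1) = (k ∈ S ↔ (a, k) ∈ S1) := fun k =>
    Pre.const hυ.cov_con.2 (φ := fun x => (x.2 ∈ S ↔ x ∈ S1)) (a := (a, 1)) (b := (a, k))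
      (fun x hx y hy hxy => by
        have h1 := (hδ x y).symm.trans (hc x hx y hy (Or.inr hxy))
        refine propext ?_
        tauto) ha ha
  have hfin : {k : K | (a, k) ∈ S1}.Finite :=
    hS1.preimage (f := fun k : K => (a, k)) fun _ _ _ _ e => (Prod.mk.inj e).2
  by_cases e : ((1 : K) ∈ S ↔ (a, (1 : K)) ∈ S1)
  · exact Or.inl (hfin.subset fun k hk => ((key k).mp e).1 hk)
  · refine Or.inr (hfin.subset fun k hk => ?_)
    by_contra hn
    exact e ((key k).mpr (iff_of_false hk hn))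

theorem surf_conj (hF : Cl G 2 F) {Γ K : Type} [Group Γ] [Group K]
    {s : V → V → Monoid.Coprod Γ K} (hs : Flat G F s)
    (hi : ∀ x l, Wk G F x l x → ev s x l = 1 → Null G F x l) {u : V} (hu : u ∈ F) :
    (∃ w : Monoid.Coprod Γ K, ∀ l, Wk G F u l u →
      w⁻¹ * ev s u l * w ∈ (Monoid.Coprod.inl : Γ →* Monoid.Coprod Γ K).range) ∨
    ∀ l, Wk G F u l u → Monoid.Coprod.fst (ev s u l) = 1 := by
  obtain ⟨K', _, υ, hυ⟩ := exists_ul hF.2.1
  obtain ⟨T, k, hk⟩ := hυ.dom _ s hs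
  have e : ∀ l, Wk G F u l u → ev s u l = k u * T (ev υ u l) * (k u)⁻¹ := fun l hl => by
    rw [ev_gau hk hl, ev_hom]
  have hT : Function.Injective T := (injective_iff_map_eq_one T).2 fun g hg => by
    obtain ⟨l, hl, rfl⟩ := hυ.surj u hu g
    exact hi u l hl (by rw [e l hl, hg, mul_one, mul_inv_cancel]) K' υ hυ.flat
  have hE : HasE K' :=
    (surf_ends hF hυ).elim (hasE bs treeFin treeOne K').1 (hasE bs treeFin treeOne K').2
  obtain ⟨w, h | h⟩ := hE Γ K T hT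
  · refine Or.inl ⟨k u * w, fun l hl => ?_⟩
    have h1 : (k u * w)⁻¹ * (k u * T (ev υ u l) * (k u)⁻¹) * (k u * w) =
        w⁻¹ * T (ev υ u l) * w := by group
    rw [e l hl, h1]
    exact h _
  · refine Or.inr fun l hl => ?_
    obtain ⟨y, hy⟩ := h (ev υ u l)
    have h1 : T (ev υ u l) = w * Monoid.Coprod.inr y * w⁻¹ := by
      rw [hy]
      group
    rw [e l hl, h1]
    simp

end Pool.Agent.MP_6374aa_g.BD

end

section

/-! The group theory. -/

namespace Pool.Agent.MP_6374aa_g.BD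

open Pool.Agent.MP_6374aa_gt Classical

variable {L Γ K : Type} [Group L] [Group Γ] [Group K]

theorem alg [Nontrivial Γ] (S : L →* Monoid.Coprod Γ K) (T : Γ → L)
    (hT : ∀ x y, T (x * y) = T x * T y) (a : Γ)
    (hR : ∀ x, Monoid.Coprod.fst (S (T x)) = a * x * a⁻¹) (Λ : Subgroup L) (g : L)
    (h0 : ∀ x, T x ∈ Λ) (h1 : ∀ x, g * T x * g⁻¹ ∈ Λ) (hi : ∀ y ∈ Λ, S y = 1 → y = 1)
    (hE : (∃ w : Monoid.Coprod Γ K, ∀ y ∈ Λ,
      w⁻¹ * S y * w ∈ (Monoid.Coprod.inl : Γ →* Monoid.Coprod Γ K).range) ∨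
      ∀ y ∈ Λ, Monoid.Coprod.fst (S y) = 1) :
    (∀ y ∈ Λ, Monoid.Coprod.fst (S y) = 1 → y = 1) ∧ (∀ y ∈ Λ, ∃ x, y = T x) ∧
      ∃ z, S g = S (T z) := by
  obtain ⟨x, hx⟩ := exists_ne (1 : Γ)
  have hx' : Monoid.Coprod.fst (S (T x)) ≠ 1 := by
    rw [hR, Ne, conj_eq_one_iff]
    exact hx
  obtain ⟨w, hw⟩ := hE.resolve_right fun h => hx' (h _ (h0 x))
  have k0 : ∀ y, Monoid.Coprod.fst (S y) = 1 →
      w⁻¹ * S y * w ∈ (Monoid.Coprod.inl : Γ →* Monoid.Coprod Γ K).range → S y = 1 := by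
    rintro y e ⟨c, hc⟩
    have e1 := congrArg Monoid.Coprod.fst hc
    rw [Monoid.Coprod.fst_apply_inl, map_mul, map_mul, e, map_inv, mul_one, inv_mul_cancel] at e1
    rw [e1, map_one, eq_comm, mul_assoc, inv_mul_eq_one, right_eq_mul] at hc
    exact hc
  have k1 : ∀ y ∈ Λ, Monoid.Coprod.fst (S y) = 1 → y = 1 := fun y hy e =>
    hi y hy (k0 y e (hw y hy))
  have k2 : ∀ y ∈ Λ, ∀ y' ∈ Λ, Monoid.Coprod.fst (S y) = Monoid.Coprod.fst (S y') → y = y' :=
    fun y hy y' hy' e => inv_mul_eq_one.1 (k1 _ (Λ.mul_mem (Λ.inv_mem hy) hy') (by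
      rw [map_mul, map_mul, map_inv, map_inv, e, inv_mul_cancel]))
  have k3 : ∀ y, Monoid.Coprod.fst (S (T (a⁻¹ * Monoid.Coprod.fst (S y) * a))) =
      Monoid.Coprod.fst (S y) := fun y => by
    rw [hR]
    group
  refine ⟨k1, fun y hy => ⟨_, k2 y hy _ (h0 _) (k3 y).symm⟩, a⁻¹ * Monoid.Coprod.fst (S g) * a, ?_⟩
  have e0 := k3 g
  generalize a⁻¹ * Monoid.Coprod.fst (S g) * a = z at e0 ⊢
  have e1 : Monoid.Coprod.fst (S ((T z)⁻¹ * g)) = 1 := by
    rw [map_mul, map_mul, map_inv, map_inv, e0, inv_mul_cancel]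
  have e2 : (T z)⁻¹ * g * T x * ((T z)⁻¹ * g)⁻¹ = T x := by
    refine k2 _ ?_ _ (h0 x) ?_
    · convert Λ.mul_mem (Λ.mul_mem (Λ.inv_mem (h0 z)) (h1 x)) (h0 z) using 1
      group
    · rw [map_mul S, map_mul S, map_inv, map_mul, map_mul, map_inv, e1, one_mul, inv_one, mul_one]
  obtain ⟨c, hc⟩ := hw _ (h0 x)
  have hc1 : c ≠ 1 := by
    rintro rfl
    rw [map_one, eq_comm, mul_assoc, inv_mul_eq_one, right_eq_mul] at hc
    exact hx' (by rw [hc, map_one])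
  have e3 := k0 _ e1 ((mal bs Γ K _).1 c c hc1 (by
    have e4 := congrArg S e2
    rw [map_mul, map_mul, map_inv] at e4
    rw [hc]
    conv_lhs => rw [← e4]
    group))
  rwa [map_mul, map_inv, inv_mul_eq_one, eq_comm] at e3

theorem loop_sub {V : Type} {G : SimpleGraph V} {F : Set V} {lab : V → V → L} (hl : Flat G F lab)
    {u : V} (hu : u ∈ F) (z : L) :
    ∃ Λ : Subgroup L, ∀ g, g ∈ Λ ↔ ∃ l, Wk G F u l u ∧ g = z * ev lab u l * z⁻¹ := by
  refine ⟨{ carrier := {g | ∃ l, Wk G F u l u ∧ g = z * ev lab u l * z⁻¹}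
            one_mem' := ⟨[], Wk.nil hu, by simp [ev]⟩
            mul_mem' := ?_
            inv_mem' := ?_ }, fun g => Iff.rfl⟩
  · rintro _ _ ⟨l, h1, rfl⟩ ⟨m, h2, rfl⟩
    refine ⟨l ++ m, h1.append h2, ?_⟩
    rw [ev_append h1]
    group
  · rintro _ ⟨l, h1, rfl⟩
    refine ⟨rev u l, h1.rev, ?_⟩
    rw [ev_rev hl h1]
    group

end Pool.Agent.MP_6374aa_g.BD

end

section

/-! The incompressible surface carries the group. -/

namespace Pool.Agent.MP_6374aa_g.BD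

open Pool.Agent.MP_6374aa_gt Classical

variable {V U : Type} {H : SimpleGraph U} {W Fm Fp : Set U} {G : SimpleGraph V} {Y F Z : Set V}
  {p : U → V} {Γ K : Type} [Group Γ] [Group K]

theorem conj_Co {L : Type} [Group L] {lab : V → V → L} (hl : Flat G F lab) {u x : V}
    {ψ l : List V} (h1 : Wk G F u ψ x) (h2 : Wk G F x l x) :
    ∃ l', Wk G F u l' u ∧ ev lab u l' = ev lab u ψ * ev lab x l * (ev lab u ψ)⁻¹ :=
  ⟨ψ ++ (l ++ rev u ψ), h1.append (h2.append h1.rev), by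
    rw [ev_append h1, ev_append h2, ev_rev hl h1, mul_assoc]⟩

theorem core [Nontrivial Γ] (hc : Cut H W Fm Fp G Y F p) (hF : Cl G 2 F) {θ : V → V → ZM}
    (hθ : CLab H W Fp p θ) {s : V → V → Monoid.Coprod Γ K} (hs : Flat G Y s) (hZ : Z ⊆ Y)
    (hFZ : F ⊆ Z) (hk : ∀ x l, Wk G Z x l x → ev s x l = 1 → Null G Y x l)
    (hi : ∀ x l, Wk G F x l x → ev s x l = 1 → Null G F x l) {m m' : U} (hm : m ∈ W)
    (hm' : m' ∈ W) {η : List V} (hη : Wk G Z (p m) η (p m')) (ho : Odd (ev θ (p m) η).toAdd)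
    {tm tp : Γ → List V} (wm : ∀ x, Wk G (Z \ F) (p m) (tm x) (p m))
    (wp : ∀ x, Wk G (Z \ F) (p m') (tp x) (p m'))
    (h1 : ∀ x y, ev (gen G Y) (p m) (tm (x * y)) =
      ev (gen G Y) (p m) (tm x) * ev (gen G Y) (p m) (tm y))
    (h2 : ∀ x, ev (gen G Y) (p m) η * ev (gen G Y) (p m') (tp x) =
      ev (gen G Y) (p m) (tm x) * ev (gen G Y) (p m) η)
    {a : Γ} (hr : ∀ x, Monoid.Coprod.fst (ev s (p m) (tm x)) = a * x * a⁻¹) :
    UL G F (fun u w => Monoid.Coprod.fst (s u w)) ∧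
      ∃ r r' ζ ζ', Wk H W m ζ r ∧ Wk H W m' ζ' r' ∧
        ((r ∈ Fm ∧ r' ∈ Fp) ∨ (r ∈ Fp ∧ r' ∈ Fm)) ∧
        (∀ γ, Wk G F (p r) γ (p r) → ∃ x, ev (gen G Y) (p m) (tm x) =
          ev (pull p (gen G Y)) m ζ * ev (gen G Y) (p r) γ * (ev (pull p (gen G Y)) m ζ)⁻¹) ∧
        ∀ γ, Wk G F (p r') γ (p r') → ∃ x, ev (gen G Y) (p m') (tp x) =
          ev (pull p (gen G Y)) m' ζ' * ev (gen G Y) (p r') γ * (ev (pull p (gen G Y)) m' ζ')⁻¹ := by
  have hFY : F ⊆ Y := hFZ.trans hZ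
  have hl := flat_gen G Y
  have hlF : Flat G F (gen G Y) := hl.mono hFY
  have hlZ : Flat G Z (gen G Y) := hl.mono hZ
  have hd : Z \ F ⊆ Y \ F := fun x hx => ⟨hZ hx.1, hx.2⟩
  obtain ⟨u0, hu0, u1, hu1, η0, η1, hη0, hη1, a0, a1, fin⟩ := planes hc hl
    (fun a l _ h => null_iff_gen.2 h) hθ hm hm' (wm 1).mem_left.2 (wp 1).mem_left.2 hZ hη ho
    (Set.range fun x => ev (gen G Y) (p m) (tm x))
    (by
      rintro t ⟨x, rfl⟩
      exact ⟨tm x, (wm x).mono hd, rfl⟩)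
    (by
      rintro t ⟨x, rfl⟩
      exact ⟨tp x, (wp x).mono hd, h2 x⟩)
  have hS : ∀ a l, glift G Y s (ev (gen G Y) a l) = ev s a l := ev_gen hs
  obtain ⟨Λ, hΛ⟩ := loop_sub hlF hu0 (ev (gen G Y) (p m) η0)
  obtain ⟨φ0, hφ0⟩ := (hF.2.1.2 u0 hu0 u1 hu1).wk hu0
  have hT0 : ∀ x, ∃ l, Wk G F u0 l u0 ∧ ev (gen G Y) (p m) (tm x) =
      ev (gen G Y) (p m) η0 * ev (gen G Y) u0 l * (ev (gen G Y) (p m) η0)⁻¹ := by
    intro x
    obtain ⟨l, hl1, hl2⟩ := a0 _ ⟨x, rfl⟩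
    exact ⟨l, hl1, by rw [hl2]; group⟩
  have hcj : ∀ {x : V} {ψ l : List V}, Wk G F u0 ψ x → Wk G F x l x →
      ev (gen G Y) (p m) η0 * ev (gen G Y) u0 ψ * ev (gen G Y) x l *
        (ev (gen G Y) (p m) η0 * ev (gen G Y) u0 ψ)⁻¹ ∈ Λ := by
    intro x ψ l w1 w2
    obtain ⟨l', w3, e⟩ := conj_Co hlF w1 w2
    exact (hΛ _).2 ⟨l', w3, by rw [e]; group⟩
  obtain ⟨A1, A2, zz, A3⟩ := alg (glift G Y s) (fun x => ev (gen G Y) (p m) (tm x)) h1 a
    (fun x => by rw [hS, hr]) Λ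
    (ev (gen G Y) (p m) η0 * ev (gen G Y) u0 φ0 * (ev (gen G Y) (p m) η1)⁻¹)
    (fun x => (hΛ _).2 (hT0 x))
    (by
      intro x
      obtain ⟨l, hl1, hl2⟩ := a1 _ ⟨x, rfl⟩
      have h3 := hcj hφ0 hl1
      rw [eq_inv_mul_iff_mul_eq.2 hl2] at h3
      convert h3 using 1
      group)
    (by
      intro y hy h3
      obtain ⟨l, hl1, rfl⟩ := (hΛ y).1 hy
      rw [map_mul, map_mul, map_inv, mul_inv_eq_one, mul_eq_left, hS] at h3
      rw [hi _ _ hl1 h3 _ _ hlF]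
      group)
    (by
      rcases surf_conj hF (hs.mono hFY) hi hu0 with ⟨w, hw⟩ | hw
      · refine Or.inl ⟨glift G Y s (ev (gen G Y) (p m) η0) * w, fun y hy => ?_⟩
        obtain ⟨l, hl1, rfl⟩ := (hΛ y).1 hy
        have h3 := hw l hl1
        rw [← hS] at h3
        convert h3 using 1
        rw [map_mul, map_mul, map_inv]
        group
      · refine Or.inr fun y hy => ?_
        obtain ⟨l, hl1, rfl⟩ := (hΛ y).1 hy
        rw [map_mul, map_mul, map_inv, map_mul, map_mul, map_inv, hS u0, hw l hl1]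
        group)
  have hwz : Wk G Z (p m) (tm zz) (p m) := (wm zz).mono fun x hx => hx.1
  have hloop : Wk G Z (p m) (η0 ++ (φ0 ++ (rev (p m) η1 ++ rev (p m) (tm zz)))) (p m) :=
    hη0.append ((hφ0.mono hFZ).append (hη1.rev.append hwz.rev))
  have hval : ev (gen G Y) (p m) (η0 ++ (φ0 ++ (rev (p m) η1 ++ rev (p m) (tm zz)))) =
      ev (gen G Y) (p m) η0 * ev (gen G Y) u0 φ0 * (ev (gen G Y) (p m) η1)⁻¹ *
        (ev (gen G Y) (p m) (tm zz))⁻¹ := by
    rw [ev_append hη0, ev_append hφ0, ev_append hη1.rev, ev_rev hlZ hη1, ev_rev hlZ hwz]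
    group
  have hone := null_iff_gen.1 (hk _ _ hloop (by
    rw [← hS, hval, map_mul, map_inv, A3, mul_inv_cancel]))
  rw [hval, mul_inv_eq_one] at hone
  obtain ⟨l0, hl0, e0⟩ := hT0 zz
  obtain ⟨r, r', ζ, ζ', φ, φ', hζ, hζ', hφ, hφ', e1, e2, hrr⟩ := fin ⟨rev u0 l0 ++ φ0,
    hl0.rev.append hφ0, by
      rw [ev_append hl0.rev, ev_rev hlF hl0]
      rw [e0, mul_inv_eq_iff_eq_mul] at hone
      have h3 : ev (gen G Y) u0 φ0 = ev (gen G Y) u0 l0 * (ev (gen G Y) (p m) η0)⁻¹ *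
          ev (gen G Y) (p m) η1 := by
        rw [eq_inv_mul_iff_mul_eq.2 hone]
        group
      rw [h3]
      group⟩
  refine ⟨?_, r, r', ζ, ζ', hζ, hζ', hrr, fun γ hγ => ?_, fun γ hγ => ?_⟩
  · refine UL.of_faithful ((hs.mono hFY).map Monoid.Coprod.fst) hF.2.1 (fun x l hw he => ?_) hu0
      fun g => ?_
    · obtain ⟨ψ, hψ⟩ := (hF.2.1.2 u0 hu0 x hw.mem_left).wk hu0
      rw [ev_hom] at he
      have h3 := A1 _ (hcj hψ hw) (by
        rw [map_mul, map_mul, map_inv, map_mul, map_mul, map_inv, hS x, he]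
        group)
      rw [mul_inv_eq_one, mul_eq_left] at h3
      exact hi x l hw (by rw [← hS, h3, map_one])
    · obtain ⟨l, hl1, hl2⟩ := hT0 (a⁻¹ * (Monoid.Coprod.fst (ev s (p m) η0) * g *
        (Monoid.Coprod.fst (ev s (p m) η0))⁻¹) * a)
      refine ⟨l, hl1, ?_⟩
      have h3 := congrArg (fun y => Monoid.Coprod.fst (glift G Y s y)) hl2
      simp only [map_mul, map_inv, hS, hr] at h3
      rw [ev_hom]
      have h4 : Monoid.Coprod.fst (ev s u0 l) = (Monoid.Coprod.fst (ev s (p m) η0))⁻¹ *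
          (Monoid.Coprod.fst (ev s (p m) η0) * Monoid.Coprod.fst (ev s u0 l) *
            (Monoid.Coprod.fst (ev s (p m) η0))⁻¹) * Monoid.Coprod.fst (ev s (p m) η0) := by
        group
      rw [h4, ← h3]
      group
  · obtain ⟨x, hx⟩ := A2 _ (hcj hφ hγ)
    exact ⟨x, by rw [← e1, hx]⟩
  · obtain ⟨x, hx⟩ := A2 _ (hcj hφ' hγ)
    refine ⟨x, ?_⟩
    rw [eq_inv_mul_iff_mul_eq.2 (h2 x), ← hx, e2]
    group

end Pool.Agent.MP_6374aa_g.BD

end

section

/-! Incompressibility and killing loops. -/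

namespace Pool.Agent.MP_6374aa_g.BD

open Pool.Agent.MP_6374aa_gt Classical

variable {V U : Type} {H : SimpleGraph U} {W Fm Fp Q : Set U} {G : SimpleGraph V} {A F : Set V}
  {p : U → V}

theorem lift_Ki {X : Set U} {Y : Set V} (h : IsIso H X G Y p) {a b : U} (ha : a ∈ X) (hb : b ∈ X)
    {l : List V} (hw : Wk G Y (p a) l (p b)) : ∃ l', Wk H X a l' b ∧ l'.map p = l := by
  have : Nonempty U := ⟨a⟩
  obtain ⟨g, hg, h1, h2⟩ := IsIso.symm' h
  have := hw.map (IsIso.hom hg)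
  rw [h1 a ha, h1 b hb] at this
  refine ⟨_, this, ?_⟩
  rw [List.map_map]
  exact (List.map_congr_left fun x hx => h2 x (hw.mem_list x hx)).trans (List.map_id l)

theorem conj_Ki {L : Type} [Group L] {lab : U → U → L} (hl : Flat H W lab) {a b : U}
    {δ γ : List U} (h1 : Wk H W a δ b) (h2 : Wk H W b γ b) :
    ev lab a (δ ++ (γ ++ rev a δ)) = ev lab a δ * ev lab b γ * (ev lab a δ)⁻¹ := by
  rw [ev_append h1, ev_append h2, ev_rev hl h1, mul_assoc]

theorem inc (h : Cut H W Fm Fp G A F p) (hc : Con G F) {J Y : Set V} (hFJ : F ⊆ J) (hJY : J ⊆ Y)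
    (hY : Y ⊆ A) {L : Type} [Group L] {s : V → V → L} (hs : Flat G Y s)
    (hk : ∀ x l, Wk G F x l x → ev s x l = 1 → Null G J x l)
    (hm : ∀ a l, Wk H Fm a l a → Null H (W ∩ p ⁻¹' J) a l → Null H Fm a l)
    (hp : ∀ a l, Wk H Fp a l a → Null H (W ∩ p ⁻¹' J) a l → Null H Fp a l) :
    (∀ x l, Wk G F x l x → ev s x l = 1 → Null G F x l) ∧
      ∀ a l, Wk H (W ∩ p ⁻¹' Y) a l a → Null G Y (p a) (l.map p) → Null H W a l := by
  have hJ := cut_res h (hJY.trans hY) hFJ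
  have hYc := cut_res h hY (hFJ.trans hJY)
  have h1 : ∀ x l, Wk G F x l x → ev s x l = 1 → Null G F x l := fun x l hw e => by
    obtain ⟨a, ha, rfl⟩ := h.isom.1.surjOn hw.mem_left
    obtain ⟨l', hl, rfl⟩ := lift_Ki h.isom ha ha hw
    exact (hm a l' hl (hJ.faithful hc hm hp (hl.mono hJ.subm) (hk _ _ hw e))).map
      (IsIso.hom h.isom)
  have h2 : ∀ X : Set U, IsIso H X G F p → ∀ a l, Wk H X a l a → Null H (W ∩ p ⁻¹' Y) a l →
      Null H X a l := fun X hX a l hw hn =>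
    (IsIso.pe hX).null hw (h1 _ _ (hw.map (IsIso.hom hX)) (hn.map hYc.hom L s hs))
  exact ⟨h1, fun a l hw hn => (hYc.faithful hc (h2 _ h.isom) (h2 _ h.isop) hw hn).mono
    Set.inter_subset_left⟩

theorem kill (h : Cut H W Fm Fp G A F p) (hc : Con G F) {Y Z : Set V} (hFY : F ⊆ Y) (hY : Y ⊆ A)
    (hZ : Z ⊆ A) (hd : Disjoint Z F) {Γ K : Type} [Group Γ] [Group K]
    {s : V → V → Monoid.Coprod Γ K} (hs : Flat G Y s)
    (hf : ∀ a l, Wk H (W ∩ p ⁻¹' Y) a l a → Null G Y (p a) (l.map p) → Null H W a l)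
    {m r : U} {ζ : List U} (hζ : Wk H (W ∩ p ⁻¹' Y) m ζ r) (hr : r ∈ Fm) {N : Subgroup Γ}
    (hN : N.Normal) {t : Γ → List V} (ht : ∀ x, Wk G (Y ∩ Z) (p m) (t x) (p m))
    (hk : ∀ x ∈ N, Null G Z (p m) (t x)) {g : Γ}
    (hg : ∀ x, Monoid.Coprod.fst (ev s (p m) (t x)) = g * x * g⁻¹)
    (key : ∀ γ, Wk G F (p r) γ (p r) → ∃ x, ev (gen G Y) (p m) (t x) =
      ev (pull p (gen G Y)) m ζ * ev (gen G Y) (p r) γ * (ev (pull p (gen G Y)) m ζ)⁻¹) :
    Kill H Fm W (pull p fun u w => Monoid.Coprod.fst (s u w)) N := by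
  intro r2 γ hγ hγN
  have hYc := cut_res h hY hFY
  obtain ⟨δ, hδ⟩ := (((IsIso.con h.isom).2 hc).2 r hr r2 hγ.mem_left).wk hr
  have hω : Wk H Fm r (δ ++ (γ ++ rev r δ)) r := hδ.append (hγ.append hδ.rev)
  obtain ⟨x, hx⟩ := key _ (hω.map (IsIso.hom h.isom))
  rw [← ev_pull] at hx
  have hxN : x ∈ N := by
    have e := congrArg (fun z => Monoid.Coprod.fst (glift G Y s z)) hx
    simp only [map_mul, map_inv, ev_pull, ev_gen hs, hg] at e
    rw [← ev_pull p s r, conj_Ki (flat_pull hs hYc.hom) (hδ.mono hYc.subm) (hγ.mono hYc.subm),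
      map_mul, map_mul, map_inv] at e
    have e1 : Monoid.Coprod.fst (ev (pull p s) r2 γ) ∈ N := by
      rw [← ev_hom]
      exact hγN
    have e2 : g * x * g⁻¹ ∈ N := e ▸ hN.conj_mem _ (hN.conj_mem _ e1 _) _
    simpa [mul_assoc] using hN.conj_mem _ e2 g⁻¹
  have hm : m ∈ W ∩ p ⁻¹' (Y ∩ Z) := ⟨hζ.mem_left.1, (ht x).mem_left⟩
  obtain ⟨τ, hτ, eτ⟩ := lift_Ki (cut_away h (Set.inter_subset_left.trans hY)
    (hd.mono_left Set.inter_subset_right)) hm hm (ht x)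
  have hτY : Wk H (W ∩ p ⁻¹' Y) m τ m := hτ.mono fun _ k => ⟨k.1, k.2.1⟩
  have nτ : Null H W m τ := ((IsIso.pe (cut_away h hZ hd)).null (hτ.mono fun _ k => ⟨k.1, k.2.2⟩)
    (eτ ▸ hk x hxN)).mono Set.inter_subset_left
  have hΛ : Wk H (W ∩ p ⁻¹' Y) m (ζ ++ (δ ++ (γ ++ rev r δ) ++ rev m ζ)) m :=
    hζ.append ((hω.mono hYc.subm).append hζ.rev)
  have fl := flat_pull (flat_gen G Y) hYc.hom
  have nΛ := hf m _ (hΛ.append hτY.rev) (null_iff_gen.2 (by
    rw [← ev_pull, ev_append hΛ, ev_rev fl hτY, conj_Ki fl hζ (hω.mono hYc.subm), ← hx,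
      ev_pull p _ m τ, eτ, mul_inv_cancel]))
  intro L _ lab hl
  have e := nΛ L lab hl
  have sW : W ∩ p ⁻¹' Y ⊆ W := Set.inter_subset_left
  rw [ev_append hΛ, ev_rev hl (hτY.mono sW), nτ L lab hl, inv_one, mul_one,
    conj_Ki hl (hζ.mono sW) (hω.mono h.subm), conj_Ki hl (hδ.mono h.subm) (hγ.mono h.subm)] at e
  simpa using e

end Pool.Agent.MP_6374aa_g.BD

end

section

/-! The incompressible case. -/

namespace Pool.Agent.MP_6374aa_g.BD

open Pool.Agent.MP_6374aa_gt Classical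

variable {X : Cx} {Γ K : Type} [Group Γ] [Group K] {Nm Np : Subgroup Γ} {κ : Cst}
  {b : Bas X Γ K}

theorem three [Nontrivial Γ] (hNm : Nm.Normal) (hNp : Np.Normal) (hb : b.Ok Nm Np κ) {z : CD X}
    {lo hi : ℤ} {n : ℕ} (hz : z.Ok b lo hi n) (hr : Room κ lo hi n)
    (hp : z.Inc (slab X.A b.h (lo - κ.c) (hi + κ.c)))
    (hm : z.symm.Inc (slab X.A b.h (lo - κ.c) (hi + κ.c))) : Nonempty (Surf X Γ Nm Np) := by
  obtain ⟨r1, r2, r3, r4⟩ := hr
  have hc0 : (0 : ℤ) ≤ κ.c := Int.natCast_nonneg _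
  have hn0 : (0 : ℤ) ≤ (κ.c + 6) * n := by positivity
  have r1' : κ.B1 + κ.c + 6 ≤ lo := by linarith
  have r4' : hi + κ.c + 6 ≤ κ.T1 := by linarith
  have b01 := hb.b01
  have t10 := hb.t10
  have b1l := hb.b1l
  have lohi := hb.lohi
  have ht1 := hb.ht1
  have hmA : b.mm ∈ X.A := (hb.wm 1).mem_left.1
  have hpA : b.mp ∈ X.A := (hb.wp 1).mem_left.1
  obtain ⟨m, hmW, hme⟩ := hz.cut.bijm.surjOn hmA
  obtain ⟨m', hmW', hme'⟩ := hz.cut.bijm.surjOn hpA
  obtain ⟨h, s, mm, mp, η, tm, tp, a⟩ := b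
  dsimp only at hme hme' hp hm hmA hpA
  subst hme hme'
  have hsub : ∀ x ∈ z.F, x ∈ X.A ∧ lo ≤ h x ∧ h x ≤ hi := hz.sub
  have wm : ∀ x, Wk X.G (slab X.A h κ.B0 κ.B1) (z.p m) (tm x) (z.p m) := hb.wm
  have wp : ∀ x, Wk X.G (slab X.A h κ.T1 κ.T0) (z.p m') (tp x) (z.p m') := hb.wp
  have wη : Wk X.G (slab X.A h κ.B0 κ.T0) (z.p m) η (z.p m') := hb.wη
  have hfl : Flat X.G (slab X.A h (κ.B0 - κ.c) (κ.T0 + κ.c)) s := hb.flat
  have hYA : slab X.A h (κ.B0 - κ.c) (κ.T0 + κ.c) ⊆ X.A := fun x hx => hx.1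
  have hZY : slab X.A h κ.B0 κ.T0 ⊆ slab X.A h (κ.B0 - κ.c) (κ.T0 + κ.c) := by
    rintro x ⟨h1, h2, h3⟩
    exact ⟨h1, by omega, by omega⟩
  have hFZ : z.F ⊆ slab X.A h κ.B0 κ.T0 := by
    intro x hx
    obtain ⟨h1, h2, h3⟩ := hsub x hx
    exact ⟨h1, by omega, by omega⟩
  have hFJ : z.F ⊆ slab X.A h (lo - κ.c) (hi + κ.c) := by
    intro x hx
    obtain ⟨h1, h2, h3⟩ := hsub x hx
    exact ⟨h1, by omega, by omega⟩
  have hJY : slab X.A h (lo - κ.c) (hi + κ.c) ⊆ slab X.A h (κ.B0 - κ.c) (κ.T0 + κ.c) := by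
    rintro x ⟨h1, h2, h3⟩
    exact ⟨h1, by omega, by omega⟩
  have hFY := hFZ.trans hZY
  have hcon : Con X.G z.F := hz.clF.2.1
  obtain ⟨hi1, hi2⟩ := inc hz.cut hcon hFJ hJY hYA hfl
    (fun x l hw he => hb.ker lo hi (by omega) r2 r3 (by omega) x l (hw.mono hz.sub) he) hm hp
  obtain ⟨θ, hθ, ho⟩ := hz.par
  have hθY : CLab z.H (z.W ∩ z.p ⁻¹' slab X.A h (κ.B0 - κ.c) (κ.T0 + κ.c)) z.Fp z.p θ :=
    fun u hu w hw h => hθ u hu.1 w hw.1 h
  have hg := hb.mul _ (gen X.G (slab X.A h (κ.B0 - κ.c) (κ.T0 + κ.c))) (flat_gen _ _)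
  have hrho : ∀ x, Monoid.Coprod.fst (ev s (z.p m) (tm x)) = a * x * a⁻¹ := hb.rho
  have hmul : ∀ x, ev s (z.p m) η * ev s (z.p m') (tp x) = ev s (z.p m) (tm x) * ev s (z.p m) η :=
    (hb.mul _ s hfl).2
  have hrho' : ∀ x, Monoid.Coprod.fst (ev s (z.p m') (tp x)) =
      (Monoid.Coprod.fst (ev s (z.p m) η))⁻¹ * a * x *
        ((Monoid.Coprod.fst (ev s (z.p m) η))⁻¹ * a)⁻¹ := by
    intro x
    have h1 := congrArg Monoid.Coprod.fst (hmul x)
    rw [map_mul, map_mul, hrho] at h1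
    rw [eq_inv_mul_iff_mul_eq.2 h1]
    group
  obtain ⟨hul, r, r', ζ, ζ', hζ, hζ', hrr, k1, k2⟩ := core (cut_res hz.cut hYA hFY) hz.clF hθY hfl
    hZY hFZ (hb.ker κ.B0 κ.T0 le_rfl (by omega) (by omega) le_rfl) hi1 (m := m) (m' := m')
    ⟨hmW.1, hZY wη.mem_left⟩ ⟨hmW'.1, hZY wη.mem_right⟩ wη ho (tm := tm) (tp := tp)
    (fun x => (wm x).mono (by
      rintro v ⟨h1, h2, h3⟩
      refine ⟨⟨h1, h2, by omega⟩, fun hF => ?_⟩
      have := (hsub v hF).2.1
      omega))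
    (fun x => (wp x).mono (by
      rintro v ⟨h1, h2, h3⟩
      refine ⟨⟨h1, by omega, h3⟩, fun hF => ?_⟩
      have := (hsub v hF).2.2
      omega))
    hg.1 hg.2 hrho
  have d1 : Disjoint {v | v ∈ X.A ∧ h v ≤ κ.B1 + κ.c} z.F := by
    rw [Set.disjoint_left]
    rintro v ⟨-, h2⟩ hF
    have := (hsub v hF).2.1
    omega
  have d2 : Disjoint {v | v ∈ X.A ∧ κ.T1 - κ.c ≤ h v} z.F := by
    rw [Set.disjoint_left]
    rintro v ⟨-, h2⟩ hF
    have := (hsub v hF).2.2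
    omega
  have w1 : ∀ x, Wk X.G (slab X.A h (κ.B0 - κ.c) (κ.T0 + κ.c) ∩ {v | v ∈ X.A ∧ h v ≤ κ.B1 + κ.c})
      (z.p m) (tm x) (z.p m) := fun x => (wm x).mono (by
    rintro v ⟨h1, h2, h3⟩
    exact ⟨⟨h1, by omega, by omega⟩, h1, by omega⟩)
  have w2 : ∀ x, Wk X.G (slab X.A h (κ.B0 - κ.c) (κ.T0 + κ.c) ∩ {v | v ∈ X.A ∧ κ.T1 - κ.c ≤ h v})
      (z.p m') (tp x) (z.p m') := fun x => (wp x).mono (by
    rintro v ⟨h1, h2, h3⟩
    exact ⟨⟨h1, by omega, by omega⟩, h1, by omega⟩)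
  rcases hrr with ⟨h1, h2⟩ | ⟨h1, h2⟩
  · exact ⟨⟨z.F, z.U, z.H, z.W, z.Fm, z.Fp, z.p, _, hb.cl, hz.clF, hz.fin, hz.mf, hz.cut, hul,
      kill hz.cut hcon hFY hYA (fun x hx => hx.1) d1 hfl hi2 hζ h1 hNm w1 hb.killm hrho k1,
      kill hz.cut.symm hcon hFY hYA (fun x hx => hx.1) d2 hfl hi2 hζ' h2 hNp w2 hb.killp
        hrho' k2⟩⟩
  · exact ⟨⟨z.F, z.U, z.H, z.W, z.Fp, z.Fm, z.p, _, hb.cl, hz.clF, hz.fin,
      Set.union_comm z.Fm z.Fp ▸ hz.mf, hz.cut.symm, hul,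
      kill hz.cut.symm hcon hFY hYA (fun x hx => hx.1) d1 hfl hi2 hζ h1 hNm w1 hb.killm hrho k1,
      kill hz.cut hcon hFY hYA (fun x hx => hx.1) d2 hfl hi2 hζ' h2 hNp w2 hb.killp
        hrho' k2⟩⟩

end Pool.Agent.MP_6374aa_g.BD

end

section

/-!
Definitions for topological invariance and for the double: simplicial approximations,
refinements, meshes, collapsing maps of Coxeter groups.
-/

namespace Pool.Agent.MP_6374aa_g

open Pool.Agent.MP_6374aa_gt Classical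

noncomputable section

variable {V V' : Type}

/-- `f` is a simplicial approximation of `h`. -/
def Apx (G' : SimpleGraph V') (A' : Set V') (h : (V' → ℝ) → V → ℝ) (f : V' → V) : Prop :=
  ∀ x ∈ Rz G' A', ∀ v, x v ≠ 0 → h x (f v) ≠ 0

/-- Iterated subdivisions with the barycentric map and a vertex choice. -/
inductive Rf (X : Cx) : (Y : Cx) → ((Y.V → ℝ) → X.V → ℝ) → (Y.V → X.V) → Prop
  | refl : Rf X X id id
  | sd {Y : Cx} {b : (Y.V → ℝ) → X.V → ℝ} {p : Y.V → X.V} (π : Finset Y.V → Y.V) :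
      Rf X Y b p → (∀ s ∈ sA Y.G Y.A, π s ∈ s) → Rf X Y.sd (b ∘ bar) (p ∘ π)

/-- `b` is affine on simplices with at most `n` vertices and edges of size at most `r`. -/
def Msh (G' : SimpleGraph V') (A' : Set V') (b : (V' → ℝ) → V → ℝ) (n : ℕ) (r : ℝ) : Prop :=
  (∀ s ∈ sA G' A', s.card ≤ n) ∧ ∃ pt : V' → V → ℝ,
    (∀ x ∈ Rz G' A', ∀ u, b x u = ∑ᶠ v, x v * pt v u) ∧
      ∀ v ∈ A', ∀ w ∈ A', G'.Adj v w → ∀ u, |pt v u - pt w u| ≤ r

/-- The coefficient of an ordered tetrahedron. -/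
def co4 (a b c d : V) (z : EA V) : EA V := iv d (iv c (iv b (iv a z)))

/-- `κ` collapses the edges labelled `v`. -/
structure Kap (Γ : SimpleGraph V) (Γ' : SimpleGraph V') (v : V) (κ : W Γ → W Γ') : Prop where
  one : κ 1 = 1
  self : ∀ w, κ (w * sg Γ v) = κ w
  asc : ∀ w u, u ≠ v → ∃ p, κ (w * sg Γ u) = κ w * sg Γ' p ∧
    (len Γ (w * sg Γ u) = len Γ w + 1 ↔ len Γ' (κ w * sg Γ' p) = len Γ' (κ w) + 1)
  lift : ∀ w p, (∃ u, u ≠ v ∧ κ (w * sg Γ u) = κ w * sg Γ' p) ∨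
    ∃ u, ¬ Adq Γ v u ∧ κ (w * sg Γ v * sg Γ u) = κ w * sg Γ' p
  fib : ∀ x y, κ x = κ y → x = y ∨ x = y * sg Γ v

/-- `r'` is the image of `r` with the pauses deleted. -/
def Img {Γ : SimpleGraph V} {Γ' : SimpleGraph V'} (κ : W Γ → W Γ') (r : Ray Γ) (r' : Ray Γ') :
    Prop :=
  ∀ n, r'.1 (len Γ' (κ (r.1 n))) = κ (r.1 n)

end

end Pool.Agent.MP_6374aa_g

end

section

/-! Simplicial approximations and refinements. -/

namespace Pool.Agent.MP_6374aa_g

open Pool.Agent.MP_6374aa_gt Classical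

variable {V V' V'' : Type} {G : SimpleGraph V} {G' : SimpleGraph V'} {G'' : SimpleGraph V''}
  {A : Set V} {A' : Set V'} {A'' : Set V''}

theorem mid_IIa {u w : V} (hu : u ∈ A) (hw : w ∈ A) (h : Adq G u w) :
    ∃ x ∈ Rz G A, x u ≠ 0 ∧ x w ≠ 0 := by
  have n : ∀ a v : V, 0 ≤ (Pi.single a (1 : ℝ) : V → ℝ) v := fun a v => by
    rcases eq_or_ne v a with rfl | hv <;> simp [*]
  have s : ∀ v, ((1 / 2 : ℝ) • Pi.single u (1 : ℝ) + (1 / 2 : ℝ) • Pi.single w (1 : ℝ) : V → ℝ) v ≠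
      0 → v = u ∨ v = w := fun v hv => by
    by_contra hc
    rw [not_or] at hc
    exact hv (by simp [Pi.single_eq_of_ne hc.1, Pi.single_eq_of_ne hc.2])
  refine ⟨(1 / 2 : ℝ) • Pi.single u (1 : ℝ) + (1 / 2 : ℝ) • Pi.single w (1 : ℝ),
    ⟨fun v => ?_, fun v hv => ?_, fun a c ha hc => ?_, ?_⟩, ?_, ?_⟩
  · simp only [Pi.add_apply, Pi.smul_apply, smul_eq_mul]
    linarith [n u v, n w v]
  · rcases s v hv with rfl | rfl <;> assumption
  · rcases s a ha with rfl | rfl <;> rcases s c hc with rfl | rfl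
    · exact adq_refl _
    · exact h
    · exact adq_symm h
    · exact adq_refl _
  · rw [sum_Rz u _ _ (fin_Rz (single_Rz (G := G) hw)), (single_Rz (G := G) hw).2.2.2]
    norm_num
  · simp only [Pi.add_apply, Pi.smul_apply, smul_eq_mul, Pi.single_eq_same]
    linarith [n w u]
  · simp only [Pi.add_apply, Pi.smul_apply, smul_eq_mul, Pi.single_eq_same]
    linarith [n u w]

theorem Apx.hom {h : (V' → ℝ) → V → ℝ} {f : V' → V} (ha : Apx G' A' h f)
    (hm : Set.MapsTo h (Rz G' A') (Rz G A)) : IsHom G' A' G A f := by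
  refine ⟨fun a h1 => ?_, fun a h1 c h2 h3 => ?_⟩
  · obtain ⟨x, hx, h4, -⟩ := mid_IIa h1 h1 (adq_refl (G := G') a)
    exact (hm hx).2.1 _ (ha x hx a h4)
  · obtain ⟨x, hx, h4, h5⟩ := mid_IIa h1 h2 (Or.inr h3)
    exact (hm hx).2.2.1 _ _ (ha x hx a h4) (ha x hx c h5)

theorem Apx.sc {h h' : (V' → ℝ) → V → ℝ} {f g : V' → V} (ha : Apx G' A' h f)
    (hb : Apx G' A' h' g) (he : Set.EqOn h h' (Rz G' A'))
    (hm : Set.MapsTo h (Rz G' A') (Rz G A)) : SC G' A' G f g := by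
  intro a h1 c h2 h3
  obtain ⟨x, hx, h4, h5⟩ := mid_IIa h1 h2 h3
  exact (hm hx).2.2.1 _ _ (ha x hx a h4) (he hx ▸ hb x hx c h5)

theorem Apx.comp {h : (V' → ℝ) → V → ℝ} {f : V' → V} {k : (V'' → ℝ) → V' → ℝ} {g : V'' → V'}
    (ha : Apx G' A' h f) (hb : Apx G'' A'' k g) (hm : Set.MapsTo k (Rz G'' A'') (Rz G' A')) :
    Apx G'' A'' (h ∘ k) (f ∘ g) := by
  exact fun x hx v hv => ha _ (hm hx) _ (hb x hx v hv)

theorem apx_bar (hf : A.Finite) {π : Finset V → V} (hπ : ∀ s ∈ sA G A, π s ∈ s) :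
    Apx (sG V) (sA G A) bar π := by
  exact fun y hy s hs => (supp_rz_Sd hy).2 ⟨s, hs, hπ s (hy.2.1 s hs)⟩

variable {X Y : Cx} {b : (Y.V → ℝ) → X.V → ℝ} {p : Y.V → X.V}

theorem Rf.fin (h : Rf X Y b p) (hf : X.A.Finite) : Y.A.Finite := by
  induction h with
  | refl => exact hf
  | sd π _ _ ih => exact sA_finite ih

theorem Rf.hm (h : Rf X Y b p) (hf : X.A.Finite) : HM (Rz Y.G Y.A) (Rz X.G X.A) b := by
  induction h with
  | refl => exact HM.id' _
  | sd π h1 _ ih => exact (bar_hm (h1.fin hf)).comp ih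

theorem Rf.apx (h : Rf X Y b p) (hf : X.A.Finite) : Apx Y.G Y.A b p := by
  induction h with
  | refl => exact fun _ _ _ hv => hv
  | sd π h1 h2 ih => exact ih.comp (apx_bar (h1.fin hf) h2) fun _ hy => maps_Sd hy

theorem Rf.pe (h : Rf X Y b p) : PE Y.G Y.A X.G X.A p := by
  induction h with
  | refl => exact PE.id'
  | sd π _ h2 ih => exact ih.comp (sd_pe h2)

theorem Rf.cl (h : Rf X Y b p) (hX : Cl X.G 3 X.A) : Cl Y.G 3 Y.A := by
  induction h with
  | refl => exact hX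
  | sd π _ _ ih => exact ih.sd le_rfl

theorem Rf.ori (h : Rf X Y b p) (hX : Cl X.G 3 X.A) (ho : X.Orient) : Y.Orient := by
  induction h with
  | refl => exact ho
  | sd π h1 _ ih => exact (ori_sA (Mfa.card_le (h1.cl hX).2.2)).2 ih

theorem Rf.nonempty (h : Rf X Y b p) (hX : Nonempty X.V) : Nonempty Y.V := by
  induction h with
  | refl => exact hX
  | sd π _ _ _ => exact ⟨(∅ : Finset _)⟩

end Pool.Agent.MP_6374aa_g

end

section

/-! Fine subdivisions. -/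

namespace Pool.Agent.MP_6374aa_g

open Pool.Agent.MP_6374aa_gt Classical

variable {V V' V'' : Type} {G : SimpleGraph V} {G' : SimpleGraph V'} {G'' : SimpleGraph V''}
  {A : Set V} {A' : Set V'} {A'' : Set V''}

theorem avg_IIb {W : Type} (σ τ : Finset W) (hσ : σ.Nonempty) (hστ : σ ⊆ τ) {n : ℕ}
    (h4 : τ.card ≤ n) (f : W → ℝ) (r : ℝ) (hf : ∀ w ∈ τ, ∀ w' ∈ τ, |f w - f w'| ≤ r) :
    |(∑ w ∈ σ, f w) / σ.card - (∑ w ∈ τ, f w) / τ.card| ≤ (1 - 1 / n) * r := by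
  obtain ⟨w0, hw0⟩ := hσ
  have hr : 0 ≤ r := by simpa using hf w0 (hστ hw0) w0 (hστ hw0)
  have hs : (0 : ℝ) < σ.card := by exact_mod_cast Finset.card_pos.2 ⟨w0, hw0⟩
  have ht' : 0 < τ.card := Finset.card_pos.2 ⟨w0, hστ hw0⟩
  have ht : (0 : ℝ) < τ.card := by exact_mod_cast ht'
  have ht4 : (τ.card : ℝ) ≤ n := by exact_mod_cast h4
  have h1 : ∀ w ∈ τ, |f w - (∑ u ∈ τ, f u) / τ.card| ≤ (1 - 1 / n) * r := fun w hw => by
    have e : f w - (∑ u ∈ τ, f u) / τ.card = (∑ u ∈ τ.erase w, (f w - f u)) / τ.card := by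
      rw [Finset.sum_erase (f := fun u => f w - f u) τ (sub_self _), Finset.sum_sub_distrib,
        Finset.sum_const, nsmul_eq_mul]
      field_simp
    rw [e, abs_div, abs_of_pos ht, div_le_iff₀ ht]
    have h5 : 1 / (n : ℝ) * τ.card ≤ 1 := by
      rw [one_div, inv_mul_le_iff₀ (ht.trans_le ht4), mul_one]
      exact ht4
    calc |∑ u ∈ τ.erase w, (f w - f u)| ≤ ∑ u ∈ τ.erase w, |f w - f u| :=
          Finset.abs_sum_le_sum_abs _ _
      _ ≤ (τ.erase w).card • r :=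
          Finset.sum_le_card_nsmul _ _ _ fun u hu => hf w hw u (Finset.mem_of_mem_erase hu)
      _ = (τ.card - 1) * r := by
          rw [Finset.card_erase_of_mem hw, nsmul_eq_mul, Nat.cast_sub ht', Nat.cast_one]
      _ ≤ (1 - 1 / n) * r * τ.card := by nlinarith
  have e : (∑ w ∈ σ, f w) / σ.card - (∑ w ∈ τ, f w) / τ.card =
      (∑ w ∈ σ, (f w - (∑ u ∈ τ, f u) / τ.card)) / σ.card := by
    rw [Finset.sum_sub_distrib, Finset.sum_const, nsmul_eq_mul]
    field_simp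
  rw [e, abs_div, abs_of_pos hs, div_le_iff₀ hs]
  calc |∑ w ∈ σ, (f w - (∑ u ∈ τ, f u) / τ.card)|
      ≤ ∑ w ∈ σ, |f w - (∑ u ∈ τ, f u) / τ.card| := Finset.abs_sum_le_sum_abs _ _
    _ ≤ σ.card • ((1 - 1 / n) * r) :=
        Finset.sum_le_card_nsmul _ _ _ fun u hu => h1 u (hστ hu)
    _ = (1 - 1 / n) * r * σ.card := by rw [nsmul_eq_mul, mul_comm]

theorem ent_IIb {W : Set ((V → ℝ) × (V → ℝ))} (hW : W ∈ uniformity (V → ℝ)) :
    ∃ δ > 0, ∀ x y : V → ℝ, (∀ u, |x u - y u| ≤ δ) → (x, y) ∈ W := by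
  rw [Pi.uniformity] at hW
  refine Filter.iInf_sets_induct
    (p := fun W => ∃ δ > 0, ∀ x y : V → ℝ, (∀ u, |x u - y u| ≤ δ) → (x, y) ∈ W) hW
    ⟨1, one_pos, fun _ _ _ => trivial⟩ ?_
  rintro u s t ⟨Z, hZ, hs⟩ ⟨δ, hδ, hd⟩
  obtain ⟨ε, hε, he⟩ := Metric.mem_uniformity_dist.1 hZ
  refine ⟨min δ (ε / 2), by positivity, fun x y hxy => ⟨hs (he ?_), hd x y fun v => ?_⟩⟩
  · rw [Real.dist_eq]
    exact ((hxy u).trans (min_le_right _ _)).trans_lt (half_lt_self hε)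
  · exact (hxy v).trans (min_le_left _ _)

theorem msh_id (hf : A.Finite) : ∃ n, 0 < n ∧ Msh G A id n 1 := by
  refine ⟨A.ncard + 1, Nat.succ_pos _, fun s hs => ?_, fun v => Pi.single v 1, fun x _ u => ?_,
    fun v _ w _ _ u => ?_⟩
  · have := Set.ncard_le_ncard hs.2.1 hf
    rw [Set.ncard_coe_finset] at this
    omega
  · rw [finsum_eq_single _ u fun v hv => by simp [Pi.single_eq_of_ne' hv]]
    simp
  · simp only [Pi.single_apply]
    split_ifs <;> simp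

theorem Msh.sd {b : (V' → ℝ) → V → ℝ} {n : ℕ} {r : ℝ} (h : Msh G' A' b n r) (hf : A'.Finite)
    (hr : 0 ≤ r) : Msh (sG V') (sA G' A') (b ∘ bar) n ((1 - 1 / n) * r) := by
  obtain ⟨h1, pt, h2, h3⟩ := h
  have hav : ∀ s ∈ sA G' A', ∀ t ∈ sA G' A', s ⊆ t → ∀ u,
      |(∑ v ∈ s, pt v u) / s.card - (∑ v ∈ t, pt v u) / t.card| ≤ (1 - 1 / n) * r := by
    intro s hs t ht hst u
    refine avg_IIb s t hs.1 hst (h1 t ht) (fun v => pt v u) r fun w hw w' hw' => ?_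
    by_cases e : w = w'
    · simp [e, hr]
    · exact h3 w (ht.2.1 hw) w' (ht.2.1 hw') (ht.2.2 hw hw' e) u
  refine ⟨fun S hS => ?_, fun s u => (∑ v ∈ s, pt v u) / s.card, fun y hy u => ?_,
    fun s hs t ht hst u => ?_⟩
  · have := Finset.card_le_card_of_injOn (s := S) (t := Finset.Icc 1 n) Finset.card
      (fun s hs => Finset.mem_coe.2 (Finset.mem_Icc.2
        ⟨Finset.card_pos.2 (hS.2.1 hs).1, h1 s (hS.2.1 hs)⟩)) (fun s hs t ht e => by
        by_contra hne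
        rcases hS.2.2 hs ht hne with k | k
        · exact (Finset.card_lt_card k).ne e
        · exact (Finset.card_lt_card k).ne' e)
    simpa using this
  · obtain ⟨P, -, hP⟩ := rz_supp hy
    rw [Function.comp_apply, h2 _ (maps_Sd hy),
      finsum_eq_sum_of_support_subset (s := P.biUnion id) _ fun v hv => ?_,
      finsum_eq_sum_of_support_subset (s := P) _ fun σ hσ => ?_]
    · simp only [bar_eq_Sd fun σ hσ => (hP σ).1 hσ, Finset.sum_mul]
      rw [Finset.sum_comm]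
      refine Finset.sum_congr rfl fun σ hσ => ?_
      rw [← Finset.sum_subset (s₁ := σ) (Finset.subset_biUnion_of_mem id hσ)
        fun v _ hv => by simp [hv], Finset.sum_div, Finset.mul_sum]
      refine Finset.sum_congr rfl fun v hv => ?_
      rw [if_pos hv]
      ring
    · exact (hP σ).1 (left_ne_zero_of_mul hσ)
    · obtain ⟨σ, k1, k2⟩ := (supp_rz_Sd hy).1 (left_ne_zero_of_mul hv)
      exact Finset.mem_coe.2 (Finset.mem_biUnion.2 ⟨σ, (hP σ).1 k1, k2⟩)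
  · rcases hst with k | k
    · exact hav s hs t ht k.subset u
    · rw [abs_sub_comm]
      exact hav t ht s hs k.subset u

theorem Msh.near {b : (V' → ℝ) → V → ℝ} {n : ℕ} {r : ℝ} (h : Msh G' A' b n r) (hr : 0 ≤ r)
    {x : V' → ℝ} (hx : x ∈ Rz G' A') {v : V'} (hv : x v ≠ 0) (u : V) :
    |b (Pi.single v 1) u - b x u| ≤ r := by
  obtain ⟨-, pt, h2, h3⟩ := h
  obtain ⟨s, -, hs⟩ := rz_supp hx
  have hvA := hx.2.1 v hv
  have e1 : b (Pi.single v 1) u = pt v u := by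
    rw [h2 _ (single_Rz hvA), finsum_eq_single _ v fun w hw => by simp [Pi.single_eq_of_ne hw]]
    simp
  have e2 : ∑ w ∈ s, x w = 1 := by
    rw [← hx.2.2.2, finsum_eq_sum_of_support_subset (s := s) _ fun w hw => (hs w).1 hw]
  have e3 : pt v u - b x u = ∑ w ∈ s, x w * (pt v u - pt w u) := by
    rw [h2 x hx, finsum_eq_sum_of_support_subset (s := s) _
      fun w hw => (hs w).1 (left_ne_zero_of_mul hw)]
    simp only [mul_sub, Finset.sum_sub_distrib, ← Finset.sum_mul, e2, one_mul]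
  rw [e1, e3]
  calc |∑ w ∈ s, x w * (pt v u - pt w u)| ≤ ∑ w ∈ s, |x w * (pt v u - pt w u)| :=
        Finset.abs_sum_le_sum_abs _ _
    _ ≤ ∑ w ∈ s, x w * r := Finset.sum_le_sum fun w hw => by
        rw [abs_mul, abs_of_nonneg (hx.1 w)]
        refine mul_le_mul_of_nonneg_left ?_ (hx.1 w)
        rcases hx.2.2.1 v w hv ((hs w).2 hw) with k | k
        · simp [k, hr]
        · exact h3 v hvA w (hx.2.1 w ((hs w).2 hw)) k u
    _ = r := by rw [← Finset.sum_mul, e2, one_mul]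

theorem leb_Ib (hf : A.Finite) {ι : Type} (U : ι → Set (V → ℝ))
    (hU : ∀ x ∈ Rz G A, ∃ i, U i ∈ nhdsWithin x (Rz G A)) :
    ∃ δ > 0, ∀ x ∈ Rz G A, ∃ i, ∀ y ∈ Rz G A, (∀ u, |x u - y u| ≤ δ) → y ∈ U i := by
  choose i hi using hU
  obtain ⟨W, hW, hb⟩ := lebesgue_number_lemma_nhdsWithin' (rz_compact hf)
    (U := fun x hx => U (i x hx)) hi
  obtain ⟨δ, hδ, hd⟩ := ent_IIb hW
  refine ⟨δ, hδ, fun x hx => ?_⟩
  obtain ⟨z, hz⟩ := hb x hx
  exact ⟨_, fun y hy hxy => hz ⟨hd x y hxy, hy⟩⟩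

theorem exists_fine {X : Cx} (hf : X.A.Finite) (hX : Nonempty X.V) {δ : ℝ} (hδ : 0 < δ) :
    ∃ Y b p n r, Rf X Y b p ∧ Y.A.Finite ∧ Msh Y.G Y.A b n r ∧ 0 ≤ r ∧ r ≤ δ := by
  obtain ⟨n, hn, h0⟩ := msh_id (G := X.G) hf
  have hn' : (1 : ℝ) ≤ n := by exact_mod_cast hn
  have hq : (0 : ℝ) ≤ 1 - 1 / n := sub_nonneg.2 ((div_le_one (by linarith)).2 hn')
  have key : ∀ k : ℕ, ∃ Y b p, Rf X Y b p ∧ Y.A.Finite ∧ Nonempty Y.V ∧
      Msh Y.G Y.A b n ((1 - 1 / n) ^ k) := by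
    intro k
    induction k with
    | zero => exact ⟨X, id, id, Rf.refl, hf, hX, by simpa using h0⟩
    | succ k ih =>
      obtain ⟨Y, b, p, h1, h2, h3, h4⟩ := ih
      refine ⟨Y.sd, b ∘ bar, p ∘ pk Set.univ, Rf.sd _ h1 fun s hs => pk_mem _ hs.1,
        sA_finite h2, ⟨(∅ : Finset Y.V)⟩, ?_⟩
      rw [pow_succ']
      exact h4.sd h2 (pow_nonneg hq k)
  obtain ⟨k, hk⟩ := exists_pow_lt_of_lt_one hδ
    (show (1 : ℝ) - 1 / n < 1 from sub_lt_self _ (by positivity))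
  obtain ⟨Y, b, p, h1, h2, -, h4⟩ := key k
  exact ⟨Y, b, p, n, _, h1, h2, h4, pow_nonneg hq k, hk.le⟩

end Pool.Agent.MP_6374aa_g

end

section

/-! Interleaving the subdivisions of homeomorphic complexes. -/

namespace Pool.Agent.MP_6374aa_g

open Pool.Agent.MP_6374aa_gt Classical

variable {V V' V'' : Type} {G : SimpleGraph V} {G' : SimpleGraph V'} {G'' : SimpleGraph V''}
  {A : Set V} {A' : Set V'} {A'' : Set V''}

theorem exists_apx {X : Cx} (hf : X.A.Finite) (hX : Nonempty X.V) [Nonempty V]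
    {h : (X.V → ℝ) → V → ℝ} (hc : ContinuousOn h (Rz X.G X.A))
    (hm : Set.MapsTo h (Rz X.G X.A) (Rz G A)) :
    ∃ Y b p, Rf X Y b p ∧ ∃ f, Apx Y.G Y.A (h ∘ b) f := by
  obtain ⟨δ, hδ, hl⟩ := leb_Ib hf (fun w : V => {x | h x w ≠ 0}) fun x hx => by
    obtain ⟨w, hw⟩ := ne_Rz (hm hx)
    exact ⟨w, Filter.Tendsto.eventually_ne
      ((continuous_apply w).continuousAt.comp_continuousWithinAt (hc x hx)) hw⟩
  choose! c hcc using hl
  obtain ⟨Y, b, p, n, r, hR, -, hM, hr, hrδ⟩ := exists_fine hf hX hδ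
  have hb := (hR.hm hf).2.mapsTo
  refine ⟨Y, b, p, hR, fun v => c (b (Pi.single v 1)), fun x hx v hv => ?_⟩
  exact hcc _ (hb (single_mem_rz.2 (hx.2.1 v hv))) _ (hb hx) fun u =>
    (hM.near hr hx hv u).trans hrδ

theorem zig_homeo {X Y : Cx} (hX : X.A.Finite) (hY : Y.A.Finite) (e : X.Homeo Y)
    (hn : Y.A.Nonempty) :
    ∃ X1 b p, Rf X X1 b p ∧ ∃ Y1 b' p', Rf Y Y1 b' p' ∧ ∃ (f : X1.V → Y.V) (g : Y1.V → X1.V),
      IsHom X1.G X1.A Y.G Y.A f ∧ IsHom Y1.G Y1.A X1.G X1.A g ∧ SC Y1.G Y1.A Y.G (f ∘ g) p' := by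
  obtain ⟨h, hh⟩ := (homeo_iff hX).1 e
  obtain ⟨a, ha⟩ := hn
  have nY : Nonempty Y.V := ⟨a⟩
  have nX : Nonempty X.V := by
    obtain ⟨x, hx, -⟩ := hh.2.surjOn (single_mem_rz.2 ha)
    exact ⟨(ne_Rz hx).choose⟩
  obtain ⟨g0, hg0, -, hg1⟩ := hh.symm' (rz_compact hX)
  obtain ⟨X1, b, p, hR, f, hf⟩ := exists_apx hX nX hh.1 hh.2.mapsTo
  have hb := hR.hm hX
  obtain ⟨b1, hb1, -, hb2⟩ := hb.symm' (rz_compact (hR.fin hX))
  have nX1 : Nonempty X1.V := hR.nonempty nX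
  have hk := hg0.comp hb1
  obtain ⟨Y1, b', p', hR', g, hg⟩ := exists_apx hY nY hk.1 hk.2.mapsTo
  have hb' := hR'.hm hY
  have m1 := (hb.comp hh).2.mapsTo
  have m2 := (hb'.comp hk).2.mapsTo
  refine ⟨X1, b, p, hR, Y1, b', p', hR', f, g, hf.hom m1, hg.hom m2,
    (hf.comp hg m2).sc (hR'.apx hY) (fun y hy => ?_) (m1.comp m2)⟩
  have hy' := hb'.2.mapsTo hy
  show h (b (b1 (g0 (b' y)))) = b' y
  rw [hb2 _ (hg0.2.mapsTo hy'), hg1 _ hy']

theorem rki_main : RKI_st := by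
  intro X Y hX hY e n hr θ hθ
  rcases Y.A.eq_empty_or_nonempty with h0 | hn
  · refine ⟨{0}, Finset.singleton_nonempty _, fun _ => 1, fun u hu => ?_⟩
    rw [h0] at hu
    exact hu.elim
  obtain ⟨X1, b, p, hR, Y1, b', p', hR', f, g, hf, hg, hs⟩ := zig_homeo hX hY e hn
  obtain ⟨S, hS, hp⟩ := hR.pe.rk.2 hr (fun i => pull f (θ i)) fun i => flat_pull (hθ i) hf
  have hF : Flat Y.G Y.A fun u w => ∏ i ∈ S, θ i u w := flat_prod S fun i _ => hθ i
  have hfg : IsHom Y1.G Y1.A Y.G Y.A (f ∘ g) :=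
    ⟨fun a ha => hf.1 _ (hg.1 a ha), fun a ha c hc hac =>
      hf.adq (hg.1 a ha) (hg.1 c hc) (hg.2 a ha c hc hac)⟩
  have hs' : SC Y1.G Y1.A Y.G p' (f ∘ g) := fun a ha c hc hac =>
    (hs c hc a ha (hac.imp Eq.symm fun k => k.symm)).imp Eq.symm fun k => k.symm
  have h1 : Pot Y1.G Y1.A (pull (f ∘ g) fun u w => ∏ i ∈ S, θ i u w) := hp.pull hg
  exact ⟨S, hS, (hR'.pe.pot hF).1 ((gau_of_ctg hF hR'.pe.hom hfg (ctg_of_sc hs')).pot h1)⟩

end Pool.Agent.MP_6374aa_g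

end

section

/-! Top dimensional cycles of a closed manifold. -/

namespace Pool.Agent.MP_6374aa_g

open Pool.Agent.MP_6374aa_gt Classical

variable {V V' V'' : Type} {G : SimpleGraph V} {G' : SimpleGraph V'} {G'' : SimpleGraph V''}
  {A : Set V} {A' : Set V'} {A'' : Set V''}

theorem lk2_IId (a b : V) : Lk G (Lk G A {a}) {b} = Lk G A {a, b} := by
  rw [lk_lk]; rfl

theorem lk3_IId (a b c : V) : Lk G (Lk G A {a, b}) {c} = Lk G A {a, b, c} := by
  rw [lk_lk]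
  congr 1
  ext x
  simp only [Set.mem_union, Set.mem_insert_iff, Set.mem_singleton_iff]
  tauto

theorem co4_swap (a b c d : V) (z : EA V) : co4 b a c d z = - co4 a b c d z ∧
    co4 a c b d z = - co4 a b c d z ∧ co4 a b d c z = - co4 a b c d z := by
  unfold co4
  refine ⟨?_, ?_, ?_⟩
  · rw [iv_iv_comm a b z, map_neg, map_neg]
  · rw [iv_iv_comm b c, map_neg]
  · rw [iv_iv_comm c d]

theorem co4_scalar {z : EA V} (hz : z ∈ Ch G A 4) (a b c d : V) :
    ∃ r : ℚ, co4 a b c d z = r • (1 : EA V) :=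
  mem_Ch_zero.1 (iv_mem_Ch d (iv_mem_Ch c (iv_mem_Ch b (iv_mem_Ch a hz))))

theorem eq_zero_of_co4 {z : EA V} (hz : z ∈ Ch G A 4)
    (h : ∀ a ∈ A, ∀ b ∈ Lk G A {a}, ∀ c ∈ Lk G A {a, b}, ∀ d ∈ Lk G A {a, b, c},
      co4 a b c d z = 0) : z = 0 := by
  refine eq_zero_of_iv hz fun a ha => ?_
  have h1 := iv_mem_Ch a hz
  refine eq_zero_of_iv h1 fun b hb => ?_
  have h2 := iv_mem_Ch b h1
  rw [lk2_IId] at h2
  refine eq_zero_of_iv h2 fun c hc => ?_
  have h3 := iv_mem_Ch c h2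
  rw [lk3_IId] at h3
  exact eq_zero_of_iv h3 fun d hd => h a ha b hb c hc d hd

theorem clq3_IId {a b c : V} (ha : a ∈ A) (hb : b ∈ Lk G A {a}) (hc : c ∈ Lk G A {a, b}) :
    Clq G A {a, b, c} ∧ ({a, b, c} : Finset V).card = 3 := by
  have hab : G.Adj a b := hb.2 a rfl
  have hac : G.Adj a c := hc.2 a (by simp)
  have hbc : G.Adj b c := hc.2 b (by simp)
  refine ⟨⟨?_, ?_⟩, Finset.card_eq_three.2 ⟨a, b, c, hab.ne, hac.ne, hbc.ne, rfl⟩⟩
  · intro x hx
    simp only [Finset.coe_insert, Finset.coe_singleton, Set.mem_insert_iff,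
      Set.mem_singleton_iff] at hx
    rcases hx with rfl | rfl | rfl
    exacts [ha, hb.1, hc.1]
  · intro x hx y hy hxy
    simp only [Finset.coe_insert, Finset.coe_singleton, Set.mem_insert_iff,
      Set.mem_singleton_iff] at hx hy
    rcases hx with rfl | rfl | rfl <;> rcases hy with rfl | rfl | rfl <;>
      first | exact absurd rfl hxy | assumption | exact SimpleGraph.Adj.symm (by assumption)

theorem lk_pair_IId (h : Cl G 3 A) {a b c d e : V} (ha : a ∈ A)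
    (hb : b ∈ Lk G A {a}) (hc : c ∈ Lk G A {a, b}) (hd : d ∈ Lk G A {a, b, c})
    (he : e ∈ Lk G A {a, b, c}) (hne : e ≠ d) : Lk G A {a, b, c} = {d, e} := by
  obtain ⟨h1, h2⟩ := clq3_IId ha hb hc
  have h3 := (Mfa.link h.2.2 h1 ⟨a, by simp, ha⟩).2
  rw [h2] at h3
  have h4 : ((({a, b, c} : Finset V) : Set V)) = {a, b, c} := by simp
  rw [h4] at h3
  have hf := h3.finite
  have hn : (Lk G A {a, b, c}).ncard = 1 ∨ (Lk G A {a, b, c}).ncard = 2 := h3.2.1
  refine (Set.eq_of_subset_of_ncard_le ?_ ?_ hf).symm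
  · intro x hx
    rcases hx with rfl | rfl
    exacts [hd, he]
  · rw [Set.ncard_pair hne.symm]
    omega

theorem co4_flip (h : Cl G 3 A) {z : EA V} (hz : z ∈ Zy G A 4) {a b c d e : V} (ha : a ∈ A)
    (hb : b ∈ Lk G A {a}) (hc : c ∈ Lk G A {a, b}) (hd : d ∈ Lk G A {a, b, c})
    (he : e ∈ Lk G A {a, b, c}) (hne : e ≠ d) : co4 a b c e z = - co4 a b c d z := by
  have h3 := iv_mem_Zy c (iv_mem_Zy b (iv_mem_Zy a hz))
  rw [lk2_IId a b, lk3_IId, lk_pair_IId h ha hb hc hd he hne] at h3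
  unfold co4
  generalize iv c (iv b (iv a z)) = y at h3 ⊢
  obtain ⟨hy, hy0⟩ := mem_Zy.1 h3
  obtain ⟨r, hr⟩ := mem_Ch_zero.1 (iv_mem_Ch d hy)
  obtain ⟨s, hs⟩ := mem_Ch_zero.1 (iv_mem_Ch e hy)
  have h4 := sub_vx_mul_iv_mem_Ch e (sub_vx_mul_iv_mem_Ch d hy)
  have h5 := eq_zero_of_iv h4 fun v hv => by
    exfalso
    rcases hv.1.1 with h6 | h6
    · exact hv.1.2 h6
    · exact hv.2 h6
  have h6 : iv e (y - vx d * iv d y) = iv e y := by
    rw [map_sub, iv_vx_mul_ne hne.symm, hr, map_smul, iv_one, smul_zero, mul_zero, neg_zero,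
      sub_zero]
  rw [h6] at h5
  have h7 := congrArg bd h5
  rw [map_sub, map_sub, hy0, bd_vx_mul, bd_vx_mul, bd_eq_zero_of_Ch_zero (iv_mem_Ch d hy),
    bd_eq_zero_of_Ch_zero (iv_mem_Ch e hy), map_zero] at h7
  simp only [mul_zero, sub_zero, zero_sub] at h7
  exact (sub_eq_zero.1 h7).symm

/-- Iterated contraction along a list. -/
noncomputable def ivs_IId : List V → EA V → EA V
  | [], z => z
  | a :: l, z => ivs_IId l (iv a z)

theorem ivs_neg_IId (l : List V) (z : EA V) : ivs_IId l (-z) = - ivs_IId l z := by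
  induction l generalizing z with
  | nil => rfl
  | cons a l ih => simp only [ivs_IId, map_neg, ih]

theorem ivs_perm_IId {l m : List V} (h : l.Perm m) (z : EA V) :
    ivs_IId l z = 0 ↔ ivs_IId m z = 0 := by
  induction h generalizing z with
  | nil => rfl
  | cons a _ ih => exact ih _
  | swap a b l =>
    simp only [ivs_IId]
    rw [iv_iv_comm a b z, ivs_neg_IId, neg_eq_zero]
  | trans _ _ ih1 ih2 => exact (ih1 z).trans (ih2 z)

theorem ivs_co4_IId {a b c d : V} (hb : b ∈ Lk G A {a}) (hc : c ∈ Lk G A {a, b})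
    (hd : d ∈ Lk G A {a, b, c}) (z : EA V) :
    ivs_IId (insert d ({a, b, c} : Finset V)).toList z = 0 ↔ co4 a b c d z = 0 := by
  have hab : G.Adj a b := hb.2 a rfl
  have hac : G.Adj a c := hc.2 a (by simp)
  have hbc : G.Adj b c := hc.2 b (by simp)
  have had : G.Adj a d := hd.2 a (by simp)
  have hbd : G.Adj b d := hd.2 b (by simp)
  have hcd : G.Adj c d := hd.2 c (by simp)
  have hn : [a, b, c, d].Nodup := by
    simp [hab.ne, hac.ne, hbc.ne, had.ne, hbd.ne, hcd.ne]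
  have hp : (insert d ({a, b, c} : Finset V)).toList.Perm [a, b, c, d] := by
    refine List.perm_of_nodup_nodup_toFinset_eq (Finset.nodup_toList _) hn ?_
    ext x
    simp only [Finset.toList_toFinset, Finset.mem_insert, Finset.mem_singleton, List.mem_toFinset,
      List.mem_cons, List.not_mem_nil, or_false]
    tauto
  exact ivs_perm_IId hp z

theorem clq4_IId {a b c d : V} (ha : a ∈ A) (hb : b ∈ Lk G A {a}) (hc : c ∈ Lk G A {a, b})
    (hd : d ∈ Lk G A {a, b, c}) :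
    Clq G A (insert d {a, b, c}) ∧ (insert d ({a, b, c} : Finset V)).card = 3 + 1 := by
  obtain ⟨h1, h2⟩ := clq3_IId ha hb hc
  have h4 : ((({a, b, c} : Finset V) : Set V)) = {a, b, c} := by simp
  have hdn : d ∉ ({a, b, c} : Finset V) := fun hm =>
    G.irrefl (hd.2 d (h4 ▸ Finset.mem_coe.2 hm))
  refine ⟨⟨?_, ?_⟩, by rw [Finset.card_insert_of_notMem hdn, h2]⟩
  · rw [Finset.coe_insert]
    exact Set.insert_subset hd.1 h1.1
  · rw [Finset.coe_insert]
    refine h1.2.insert fun x hx _ => ?_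
    exact (hd.2 x (h4 ▸ hx)).symm

theorem mem_lk_IId {s : Finset V} (hs : Clq G A s) {X : Set V} (hX : X ⊆ s) {d : V} (hd : d ∈ s)
    (hn : d ∉ X) : d ∈ Lk G A X :=
  ⟨hs.1 hd, fun _ hu => hs.2 (hX hu) hd fun e => hn (e ▸ hu)⟩

theorem co4_ne_zero (h : Cl G 3 A) {z : EA V} (hz : z ∈ Zy G A 4) (h0 : z ≠ 0) {a b c d : V}
    (ha : a ∈ A) (hb : b ∈ Lk G A {a}) (hc : c ∈ Lk G A {a, b}) (hd : d ∈ Lk G A {a, b, c}) :
    co4 a b c d z ≠ 0 := by
  intro h1
  refine h0 (eq_zero_of_co4 (mem_Zy.1 hz).1 fun a' ha' b' hb' c' hc' d' hd' => ?_)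
  have key := Mfa.strong h.2.2 subset_rfl h.2.1.2 (fun t => ivs_IId t.toList z = 0) ?_
    (clq4_IId ha hb hc hd).1 (clq4_IId ha' hb' hc' hd').1 (clq4_IId ha hb hc hd).2
    (clq4_IId ha' hb' hc' hd').2 ⟨a, by simp, ha⟩ ⟨a', by simp, ha'⟩
  · exact (ivs_co4_IId hb' hc' hd' z).1 (key ▸ (ivs_co4_IId hb hc hd z).2 h1)
  intro s t hs ht hs4 ht4 hst _
  obtain ⟨p, q, r, hpq, hpr, hqr, he⟩ := Finset.card_eq_three.1 hst
  obtain ⟨u, hu, hus⟩ := (Finset.exists_eq_insert_iff (s := s ∩ t) (t := s)).2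
    ⟨Finset.inter_subset_left, by omega⟩
  obtain ⟨w, hw, hwt⟩ := (Finset.exists_eq_insert_iff (s := s ∩ t) (t := t)).2
    ⟨Finset.inter_subset_right, by omega⟩
  have hu' : u ∈ s := hus ▸ Finset.mem_insert_self _ _
  have hw' : w ∈ t := hwt ▸ Finset.mem_insert_self _ _
  have hne : w ≠ u := fun e => hu (Finset.mem_inter.2 ⟨hu', e ▸ hw'⟩)
  have h4 : ((({p, q, r} : Finset V) : Set V)) = {p, q, r} := by simp
  have hps : ({p, q, r} : Set V) ⊆ s := by
    rw [← h4, ← he]; exact Finset.coe_subset.2 Finset.inter_subset_left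
  have hpt : ({p, q, r} : Set V) ⊆ t := by
    rw [← h4, ← he]; exact Finset.coe_subset.2 Finset.inter_subset_right
  have mp : p ∈ s := hps (by simp)
  have mq : q ∈ s := hps (by simp)
  have mr : r ∈ s := hps (by simp)
  have k1 : p ∈ A := hs.1 mp
  have k2 : q ∈ Lk G A {p} :=
    mem_lk_IId hs (Set.singleton_subset_iff.2 mp) mq (by simpa using hpq.symm)
  have k3 : r ∈ Lk G A {p, q} :=
    mem_lk_IId hs (Set.insert_subset mp (Set.singleton_subset_iff.2 mq)) mr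
      (by simpa using ⟨hpr.symm, hqr.symm⟩)
  have k4 : u ∈ Lk G A {p, q, r} := mem_lk_IId hs hps hu' (by
    rw [← h4, ← he]; exact hu)
  have k5 : w ∈ Lk G A {p, q, r} := mem_lk_IId ht hpt hw' (by
    rw [← h4, ← he]; exact hw)
  rw [he] at hus hwt
  rw [← hus, ← hwt]
  apply propext
  rw [ivs_co4_IId k2 k3 k4, ivs_co4_IId k2 k3 k5, co4_flip h hz k1 k2 k3 k4 k5 hne, neg_eq_zero]

theorem sign_IId {x x' : EA V} {r : ℚ} (hx : x = r • (1 : EA V)) (h0 : x ≠ 0) (h : x' = -x) :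
    decide (∃ s : ℚ, 0 < s ∧ x' = s • (1 : EA V)) ≠
      decide (∃ s : ℚ, 0 < s ∧ x = s • (1 : EA V)) := by
  have inj : ∀ s t : ℚ, s • (1 : EA V) = t • (1 : EA V) → s = t := by
    intro s t e
    rw [← Algebra.algebraMap_eq_smul_one, ← Algebra.algebraMap_eq_smul_one] at e
    exact (ExteriorAlgebra.algebraMap_inj _ s t).1 e
  have hr : r ≠ 0 := by
    rintro rfl
    exact h0 (by rw [hx, zero_smul])
  have e1 : (∃ s : ℚ, 0 < s ∧ x = s • (1 : EA V)) ↔ 0 < r :=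
    ⟨fun ⟨s, hs, e⟩ => inj _ _ (e.symm.trans hx) ▸ hs, fun hp => ⟨r, hp, hx⟩⟩
  have hx' : x' = (-r) • (1 : EA V) := by rw [h, hx, neg_smul]
  have e2 : (∃ s : ℚ, 0 < s ∧ x' = s • (1 : EA V)) ↔ 0 < -r :=
    ⟨fun ⟨s, hs, e⟩ => inj _ _ (e.symm.trans hx') ▸ hs, fun hp => ⟨-r, hp, hx'⟩⟩
  intro e
  have e3 := decide_eq_decide.1 e
  rw [e1, e2] at e3
  rcases lt_or_gt_of_ne hr with h1 | h1
  · have := e3.1 (by linarith)
    linarith
  · have := e3.2 h1
    linarith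

theorem ori_of_cyc (h : Cl G 3 A) {z : EA V} (hz : z ∈ Zy G A 4) (h0 : z ≠ 0) : Ori G A := by
  refine ⟨fun a b c d => decide (∃ s : ℚ, 0 < s ∧ co4 a b c d z = s • (1 : EA V)), ?_⟩
  intro a ha b hb c hc d hd
  obtain ⟨r, hr⟩ := co4_scalar (mem_Zy.1 hz).1 a b c d
  have hn := co4_ne_zero h hz h0 ha hb hc hd
  obtain ⟨s1, s2, s3⟩ := co4_swap a b c d z
  exact ⟨sign_IId hr hn s1, sign_IId hr hn s2, sign_IId hr hn s3,
    fun e he hne => sign_IId hr hn (co4_flip h hz ha hb hc hd he hne)⟩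

theorem Cl.fin3 (h : Cl G 3 A) : Fin3 G A := by
  refine ⟨h.1, fun s h1 h2 => ?_⟩
  rcases s.eq_empty_or_nonempty with rfl | ⟨v, hv⟩
  · simp
  · exact (Mfa.link h.2.2 ⟨h1, h2⟩ ⟨v, hv, h1 hv⟩).1

end Pool.Agent.MP_6374aa_g

end

section

/-! The fundamental cycle of a closed oriented manifold. -/

namespace Pool.Agent.MP_6374aa_gt

open Classical

noncomputable section

variable {V : Type}

/-- Scalars as chains without vertices. -/
def s0_Orient : ℚ →ₗ[ℚ] EA V := LinearMap.toSpanSingleton ℚ (EA V) 1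

/-- One more vertex in front. -/
def up_Orient [Fintype V] {M : Type} [AddCommGroup M] [Module ℚ M] (T : M →ₗ[ℚ] EA V) :
    (V → M) →ₗ[ℚ] EA V :=
  ∑ c : V, (LinearMap.mulLeft ℚ (vx c)) ∘ₗ T ∘ₗ LinearMap.proj c

theorem s0_apply_Orient (r : ℚ) : s0_Orient (V := V) r = r • (1 : EA V) := rfl

theorem up_apply_Orient [Fintype V] {M : Type} [AddCommGroup M] [Module ℚ M]
    (T : M →ₗ[ℚ] EA V) (g : V → M) : up_Orient T g = ∑ c, vx c * T (g c) := by
  simp [up_Orient, LinearMap.sum_apply]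

theorem ctr_up_Orient [Fintype V] {M : Type} [AddCommGroup M] [Module ℚ M]
    (f : (V →₀ ℚ) →ₗ[ℚ] ℚ) (T : M →ₗ[ℚ] EA V) (g : V → M) :
    ctr f (up_Orient T g) =
      T (∑ c, f (Finsupp.single c 1) • g c) - ∑ c, vx c * ctr f (T (g c)) := by
  rw [up_apply_Orient, map_sum, map_sum, ← Finset.sum_sub_distrib]
  refine Finset.sum_congr rfl fun c _ => ?_
  rw [ctr_vx_mul_ChA2, map_smul]

theorem ctr_one_Orient [Fintype V] (f : (V →₀ ℚ) →ₗ[ℚ] ℚ) (g : V → ℚ) :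
    ctr f (up_Orient s0_Orient g) =
      (1 : ℚ) • s0_Orient (∑ c, f (Finsupp.single c 1) • g c) := by
  rw [ctr_up_Orient, one_smul]
  simp [s0_apply_Orient, ctr_one_ChA2]

theorem ctr_step_Orient [Fintype V] {M : Type} [AddCommGroup M] [Module ℚ M]
    (f : (V →₀ ℚ) →ₗ[ℚ] ℚ) (T : M →ₗ[ℚ] EA V) (k : ℚ) (g : V → V → M)
    (halt : ∀ c d, g d c = - g c d)
    (h : ∀ c, ctr f (up_Orient T (g c)) = k • T (∑ d, f (Finsupp.single d 1) • g c d)) :
    ctr f (up_Orient (up_Orient T) g) =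
      (k + 1) • up_Orient T (∑ c, f (Finsupp.single c 1) • g c) := by
  rw [ctr_up_Orient, add_smul, one_smul, add_comm, sub_eq_add_neg]
  congr 1
  rw [up_apply_Orient, Finset.smul_sum, ← Finset.sum_neg_distrib]
  refine Finset.sum_congr rfl fun c _ => ?_
  have e : (∑ d, f (Finsupp.single d 1) • g d) c = - ∑ d, f (Finsupp.single d 1) • g c d := by
    rw [Finset.sum_apply, ← Finset.sum_neg_distrib]
    refine Finset.sum_congr rfl fun d _ => ?_
    rw [Pi.smul_apply, halt c d, smul_neg]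
  rw [h, e, map_neg, mul_neg, smul_neg, mul_smul_comm]

theorem ctr_two_Orient [Fintype V] (f : (V →₀ ℚ) →ₗ[ℚ] ℚ) (g : V → V → ℚ)
    (h1 : ∀ c d, g d c = - g c d) :
    ctr f (up_Orient (up_Orient s0_Orient) g) =
      ((1 : ℚ) + 1) • up_Orient s0_Orient (∑ c, f (Finsupp.single c 1) • g c) :=
  ctr_step_Orient f _ _ g h1 fun c => ctr_one_Orient f (g c)

theorem ctr_three_Orient [Fintype V] (f : (V →₀ ℚ) →ₗ[ℚ] ℚ) (g : V → V → V → ℚ)
    (h1 : ∀ b c d, g c b d = - g b c d) (h2 : ∀ b c d, g b d c = - g b c d) :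
    ctr f (up_Orient (up_Orient (up_Orient s0_Orient)) g) =
      ((1 : ℚ) + 1 + 1) • up_Orient (up_Orient s0_Orient)
        (∑ c, f (Finsupp.single c 1) • g c) :=
  ctr_step_Orient f _ _ g (fun b c => funext fun d => h1 b c d)
    fun b => ctr_two_Orient f (g b) (h2 b)

theorem ctr_four_Orient [Fintype V] (f : (V →₀ ℚ) →ₗ[ℚ] ℚ) (g : V → V → V → V → ℚ)
    (h1 : ∀ a b c d, g b a c d = - g a b c d) (h2 : ∀ a b c d, g a c b d = - g a b c d)
    (h3 : ∀ a b c d, g a b d c = - g a b c d) :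
    ctr f (up_Orient (up_Orient (up_Orient (up_Orient s0_Orient))) g) =
      ((1 : ℚ) + 1 + 1 + 1) • up_Orient (up_Orient (up_Orient s0_Orient))
        (∑ c, f (Finsupp.single c 1) • g c) :=
  ctr_step_Orient f _ _ g (fun a b => funext fun c => funext fun d => h1 a b c d)
    fun a => ctr_three_Orient f (g a) (h2 a) (h3 a)

theorem pick_Orient [Fintype V] {M : Type} [AddCommGroup M] [Module ℚ M] (a : V) (g : V → M) :
    ∑ c, (Finsupp.lapply a : (V →₀ ℚ) →ₗ[ℚ] ℚ) (Finsupp.single c 1) • g c = g a := by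
  rw [Finset.sum_eq_single a]
  · simp
  · intro b _ hb
    simp [Finsupp.single_eq_of_ne (Ne.symm hb)]
  · intro h
    exact absurd (Finset.mem_univ a) h

theorem cl_Orient {G : SimpleGraph V} {A : Set V} {a b c d : V} (ha : a ∈ A)
    (hb : b ∈ Lk G A {a}) (hc : c ∈ Lk G A {a, b}) (hd : d ∈ Lk G A {a, b, c}) :
    IsCl G A [a, b, c, d] := by
  have ab : G.Adj a b := hb.2 a rfl
  have ac : G.Adj a c := hc.2 a (by simp)
  have bc : G.Adj b c := hc.2 b (by simp)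
  have ad : G.Adj a d := hd.2 a (by simp)
  have bd' : G.Adj b d := hd.2 b (by simp)
  have cd : G.Adj c d := hd.2 c (by simp)
  refine ⟨fun x hx => ?_, fun x hx y hy => ?_⟩
  · simp only [List.mem_cons, List.not_mem_nil, or_false] at hx
    rcases hx with rfl | rfl | rfl | rfl
    exacts [ha, hb.1, hc.1, hd.1]
  · simp only [List.mem_cons, List.not_mem_nil, or_false] at hx hy
    rcases hx with rfl | rfl | rfl | rfl <;> rcases hy with rfl | rfl | rfl | rfl <;>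
      first
        | exact Or.inl rfl
        | exact Or.inr (by assumption)
        | exact Or.inr (SimpleGraph.Adj.symm (by assumption))

theorem orient : OrientStmt := by
  intro V _ G A hA
  obtain ⟨o, h0, halt, hsum⟩ := hA.orient
  let g : V → V → V → V → ℚ := fun a b c d => (o a b c d : ℚ)
  have h1 : ∀ a b c d, g b a c d = - g a b c d := fun a b c d => by
    simp only [g, (halt a b c d).1, Int.cast_neg]
  have h2 : ∀ a b c d, g a c b d = - g a b c d := fun a b c d => by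
    simp only [g, (halt a b c d).2.1, Int.cast_neg]
  have h3 : ∀ a b c d, g a b d c = - g a b c d := fun a b c d => by
    simp only [g, (halt a b c d).2.2, Int.cast_neg]
  refine ⟨up_Orient (up_Orient (up_Orient (up_Orient s0_Orient))) g, mem_Zy.2 ⟨?_, ?_⟩, ?_⟩
  · simp only [up_apply_Orient, Finset.mul_sum, s0_apply_Orient]
    refine Submodule.sum_mem _ fun a _ => Submodule.sum_mem _ fun b _ =>
      Submodule.sum_mem _ fun c _ => Submodule.sum_mem _ fun d _ => ?_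
    by_cases hz : o a b c d = 0
    · simp [g, hz]
    · obtain ⟨ha, hb, hc, hd⟩ := (h0 a b c d).1 hz
      have hw := wedge_mem_Ch (cl_Orient ha hb hc hd)
      simp only [mul_smul_comm]
      refine Submodule.smul_mem _ _ ?_
      simpa only [wedge_cons, wedge_nil, List.length_cons, List.length_nil] using hw
  · unfold bd
    rw [ctr_four_Orient _ g h1 h2 h3]
    have e : (∑ c, (Finsupp.linearCombination ℚ fun _ : V => (1 : ℚ)) (Finsupp.single c 1) • g c)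
        = 0 := by
      funext b c d
      simp only [Finsupp.linearCombination_single, smul_eq_mul, mul_one, one_smul,
        Finset.sum_apply, g, Pi.zero_apply]
      exact_mod_cast hsum b c d
    rw [e, map_zero, smul_zero]
  · intro a ha b hb c hc d hd
    have hne : o a b c d ≠ 0 := (h0 a b c d).2 ⟨ha, hb, hc, hd⟩
    unfold iv
    rw [ctr_four_Orient _ g h1 h2 h3, pick_Orient]
    simp only [map_smul]
    rw [ctr_three_Orient _ (g a) (h2 a) (h3 a), pick_Orient]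
    simp only [map_smul]
    rw [ctr_two_Orient _ (g a b) (h3 a b), pick_Orient]
    simp only [map_smul]
    rw [ctr_one_Orient, pick_Orient, s0_apply_Orient]
    simp only [smul_smul]
    refine smul_ne_zero ?_ one_ne_zero
    have : g a b c d ≠ 0 := by simpa [g] using hne
    positivity

end

end Pool.Agent.MP_6374aa_gt

end

section

/-! The double is a subgroup of index two. -/

namespace Pool.Agent.MP_6374aa_g

open Pool.Agent.MP_6374aa_gt Classical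

variable {V V' : Type} {Γ : SimpleGraph V} {Γ' : SimpleGraph V'} {v : V} {κ : W Γ → W Γ'}

/-- The generator of the double given by `u` on the side `e`. -/
noncomputable def gn_KDa (Γ : SimpleGraph V) {v u : V} (hu : u ≠ v) (e : Bool) : DV Γ v :=
  ⟨(u, if Γ.Adj v u then false else e), hu, fun h h' => by simp [show Γ.Adj v u from h'] at h⟩

theorem gn_adj_KDa {u : V} (hu : u ≠ v) (h : Γ.Adj v u) (e e' : Bool) :
    gn_KDa Γ hu e = gn_KDa Γ hu e' :=
  Subtype.ext (Prod.ext rfl ((if_pos h).trans (if_pos h).symm))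

theorem gn_fst_KDa {u : V} (hu : u ≠ v) (e : Bool) : (gn_KDa Γ hu e).1.1 = u := rfl

theorem gn_snd_KDa {u : V} (hu : u ≠ v) (h : ¬ Γ.Adj v u) (e : Bool) :
    (gn_KDa Γ hu e).1.2 = e := if_neg h

theorem gn_self_KDa (p : DV Γ v) {e : Bool} (he : p.1.2 = e) : gn_KDa Γ p.2.1 e = p := by
  refine Subtype.ext (Prod.ext rfl ?_)
  by_cases h : Γ.Adj v p.1.1
  · exact (if_pos h).trans (Bool.eq_false_iff.2 fun h' => p.2.2 h' h).symm
  · exact (if_neg h).trans he.symm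

theorem gn_comm_KDa {u u' : V} (hu : u ≠ v) (hu' : u' ≠ v) (h : Γ.Adj u u') (e : Bool) :
    (dblG Γ v).Adj (gn_KDa Γ hu e) (gn_KDa Γ hu' e) := by
  refine ⟨by rwa [gn_fst_KDa, gn_fst_KDa], ?_⟩
  rw [gn_fst_KDa, gn_fst_KDa]
  by_cases h1 : Γ.Adj v u
  · exact Or.inr (Or.inl h1)
  by_cases h2 : Γ.Adj v u'
  · exact Or.inr (Or.inr h2)
  exact Or.inl (by rw [gn_snd_KDa hu h1, gn_snd_KDa hu' h2])

theorem act_KDa (Γ : SimpleGraph V) (v : V) :
    ∃ (κ : W Γ → W (dblG Γ v)) (ε : W Γ → Bool), κ 1 = 1 ∧ ε 1 = false ∧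
      (∀ w, κ (w * sg Γ v) = κ w ∧ ε (w * sg Γ v) = !ε w) ∧
      ∀ w u (hu : u ≠ v), κ (w * sg Γ u) = κ w * sg _ (gn_KDa Γ hu (ε w)) ∧
        ε (w * sg Γ u) = ε w := by
  let f : V → W (dblG Γ v) × Bool → W (dblG Γ v) × Bool := fun u x =>
    if hu : u = v then (x.1, !x.2) else (x.1 * sg _ (gn_KDa Γ hu x.2), x.2)
  have f1 : ∀ x, f v x = (x.1, !x.2) := fun x => dif_pos rfl
  have f2 : ∀ u (hu : u ≠ v) x, f u x = (x.1 * sg _ (gn_KDa Γ hu x.2), x.2) :=
    fun u hu x => dif_neg hu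
  have hf : ∀ u, Function.Involutive (f u) := fun u x => by
    by_cases hu : u = v
    · rw [hu, f1, f1, Bool.not_not]
    · rw [f2 u hu, f2 u hu, mul_assoc, sg_mul_self, mul_one]
  have h0 : ∀ u, Γ.Adj v u → ∀ x, f v (f u x) = f u (f v x) := fun u h x => by
    rw [f1, f1, f2 u h.ne', f2 u h.ne', gn_adj_KDa h.ne' h x.2 (!x.2)]
  obtain ⟨φ, hφ⟩ := lift_RA1 (Γ := Γ) (fun u => (hf u).toPerm)
    (fun u => Equiv.ext (hf u)) fun u u' h => Equiv.ext fun x => by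
      show f u (f u' x) = f u' (f u x)
      by_cases hu : u = v
      · subst hu
        exact h0 u' h x
      by_cases hu' : u' = v
      · subst hu'
        exact (h0 u h.symm x).symm
      rw [f2 u hu, f2 u' hu', f2 u' hu', f2 u hu, mul_assoc, mul_assoc,
        sg_comm (Or.inr (gn_comm_KDa hu hu' h x.2))]
  have h1 : ∀ w u, φ (w * sg Γ u)⁻¹ (1, false) = f u (φ w⁻¹ (1, false)) := fun w u => by
    rw [mul_inv_rev, map_mul, sg_inv_RA1, hφ]
    rfl
  refine ⟨fun w => (φ w⁻¹ (1, false)).1, fun w => (φ w⁻¹ (1, false)).2, ?_, ?_, fun w => ?_,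
    fun w u hu => ?_⟩
  · simp
  · simp
  · beta_reduce
    rw [h1, f1]
    exact ⟨rfl, rfl⟩
  · beta_reduce
    rw [h1, f2 u hu]
    exact ⟨rfl, rfl⟩

/-- A power of the generator `v`. -/
noncomputable def te_KDa (Γ : SimpleGraph V) (v : V) (e : Bool) : W Γ := cond e (sg Γ v) 1

theorem te_mul_KDa (e : Bool) : te_KDa Γ v e * te_KDa Γ v e = 1 := by
  cases e
  · exact one_mul 1
  · exact sg_mul_self v

theorem te_not_KDa (e : Bool) : sg Γ v * te_KDa Γ v (!e) = te_KDa Γ v e := by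
  cases e
  · exact sg_mul_self v
  · exact mul_one _

theorem te_adj_KDa {u : V} (h : Γ.Adj v u) (e : Bool) :
    te_KDa Γ v e * sg Γ u * te_KDa Γ v e = sg Γ u := by
  cases e
  · exact (mul_one _).trans (one_mul _)
  · show sg Γ v * sg Γ u * sg Γ v = sg Γ u
    rw [sg_comm (Or.inr h), mul_assoc, sg_mul_self, mul_one]

theorem te_conj_KDa (e : Bool) (x y : W Γ) :
    te_KDa Γ v e * x * te_KDa Γ v e * (te_KDa Γ v e * y * te_KDa Γ v e) =
      te_KDa Γ v e * (x * y) * te_KDa Γ v e := by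
  simp only [mul_assoc]
  rw [← mul_assoc (te_KDa Γ v e) (te_KDa Γ v e), te_mul_KDa, one_mul]

theorem iota_KDa (Γ : SimpleGraph V) (v : V) : ∃ ι : W (dblG Γ v) →* W Γ,
    ∀ p, ι (sg _ p) = te_KDa Γ v p.1.2 * sg Γ p.1.1 * te_KDa Γ v p.1.2 := by
  refine lift_RA1 _ (fun p => by rw [te_conj_KDa, sg_mul_self, mul_one, te_mul_KDa])
    fun p q h => ?_
  have h0 : ∀ e, te_KDa Γ v e * sg Γ p.1.1 * te_KDa Γ v e *
      (te_KDa Γ v e * sg Γ q.1.1 * te_KDa Γ v e) = te_KDa Γ v e * sg Γ q.1.1 * te_KDa Γ v e *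
      (te_KDa Γ v e * sg Γ p.1.1 * te_KDa Γ v e) := fun e => by
    rw [te_conj_KDa, te_conj_KDa, sg_comm (Or.inr h.1)]
  rcases h.2 with e | e | e
  · rw [← e]
    exact h0 _
  · rw [te_adj_KDa e, ← te_adj_KDa e q.1.2]
    exact h0 _
  · rw [te_adj_KDa e, ← te_adj_KDa e p.1.2]
    exact h0 _

theorem exists_kap (Γ : SimpleGraph V) (v : V) : ∃ κ, Kap Γ (dblG Γ v) v κ := by
  obtain ⟨κ, ε, k1, e1, hv, hu⟩ := act_KDa Γ v
  obtain ⟨ι, hι⟩ := iota_KDa Γ v
  have ti : ∀ e, (te_KDa Γ v e)⁻¹ = te_KDa Γ v e := fun e =>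
    inv_eq_of_mul_eq_one_right (te_mul_KDa e)
  have a1 : ∀ u (h : u ≠ v) e,
      ι (sg _ (gn_KDa Γ h e)) = te_KDa Γ v e * sg Γ u * te_KDa Γ v e := fun u h e => by
    rw [hι, gn_fst_KDa]
    by_cases h1 : Γ.Adj v u
    · rw [te_adj_KDa h1, te_adj_KDa h1]
    · rw [gn_snd_KDa h h1]
  have a2 : ∀ w, ι (κ w) = w * te_KDa Γ v (ε w) := by
    refine ind_RA1 1 (by rw [k1, e1, map_one]; exact (mul_one 1).symm) fun w u ih => ?_
    by_cases h : u = v
    · rw [h, (hv w).1, (hv w).2, mul_assoc, te_not_KDa, ih]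
    · rw [(hu w u h).1, (hu w u h).2, map_mul, ih, a1]
      simp only [mul_assoc]
      rw [← mul_assoc (te_KDa Γ v _) (te_KDa Γ v _), te_mul_KDa, one_mul]
  have a3 : ∀ y, κ (ι y) = y ∧ ε (ι y) = false := by
    refine ind_RA1 1 (by rw [map_one]; exact ⟨k1, e1⟩) fun y p ih => ?_
    rw [map_mul, hι]
    rcases Bool.eq_false_or_eq_true p.1.2 with h | h
    swap
    · have h1 := gn_self_KDa p h
      rw [h, show te_KDa Γ v false = 1 from rfl, one_mul, mul_one, (hu _ _ p.2.1).1,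
        (hu _ _ p.2.1).2, ih.1, ih.2, h1]
      exact ⟨rfl, rfl⟩
    · have h1 := gn_self_KDa p h
      rw [h, show te_KDa Γ v true = sg Γ v from rfl, ← mul_assoc, ← mul_assoc, (hv _).1, (hv _).2,
        (hu _ _ p.2.1).1, (hu _ _ p.2.1).2, (hv _).1, (hv _).2, ih.1, ih.2, Bool.not_false, h1]
      exact ⟨rfl, rfl⟩
  have inj : Function.Injective ι := Function.LeftInverse.injective fun y => (a3 y).1
  have a4 : ∀ w u (h : u ≠ v),
      ι (κ w * sg _ (gn_KDa Γ h (ε w)) * (κ w)⁻¹) = w * sg Γ u * w⁻¹ := fun w u h => by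
    rw [map_mul, map_mul, map_inv, a1, a2, mul_inv_rev, ti]
    simp only [mul_assoc]
    rw [← mul_assoc (te_KDa Γ v _) (te_KDa Γ v _), te_mul_KDa, one_mul,
      ← mul_assoc (te_KDa Γ v _) (te_KDa Γ v _), te_mul_KDa, one_mul]
  have a5 : ∀ t, IsRefl t → ∀ w, Plus t (κ w) ↔ Plus (ι t) w := by
    intro t ht
    obtain ⟨z, u, hz, e⟩ : ∃ z u, u ≠ v ∧ ι t = z * sg Γ u * z⁻¹ := by
      obtain ⟨y, p, rfl⟩ := ht
      refine ⟨ι y * te_KDa Γ v p.1.2, p.1.1, p.2.1, ?_⟩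
      rw [map_mul, map_mul, map_inv, hι, mul_inv_rev, ti]
      simp only [mul_assoc]
    have hr : IsRefl (ι t) := ⟨z, u, e⟩
    refine ind_RA1 1 (by rw [k1]; exact iff_of_false (not_plus_one _) (not_plus_one _))
      fun w s ih => ?_
    by_cases h : s = v
    · rw [h, (hv w).1, ih, step_RA2 hr]
      refine fun e' => hz (sg_conj_eq (Γ := Γ) (w := w⁻¹ * z) ?_)
      rw [e] at e'
      rw [mul_inv_rev, inv_inv, ← mul_assoc, mul_assoc w⁻¹, mul_assoc w⁻¹, e']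
      simp only [mul_assoc, inv_mul_cancel_left, inv_mul_cancel, mul_one]
    · rw [(hu w s h).1, plus_mul_sg ht, plus_mul_sg hr, ih, ← a4 w s h, inj.ne_iff]
  refine ⟨κ, k1, fun w => (hv w).1, fun w u h => ⟨_, (hu w u h).1, ?_⟩, fun w p => ?_,
    fun x y h => ?_⟩
  · have h1 := a5 _ (refl_RA2 (κ w) (gn_KDa Γ h (ε w))) w
    rw [a4, desc_RA2, desc_RA2] at h1
    have h2 := len_mul_sg w u
    have h3 := len_mul_sg (κ w) (gn_KDa Γ h (ε w))
    omega
  · have h1 := gn_self_KDa p rfl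
    by_cases h : Γ.Adj v p.1.1
    · exact Or.inl ⟨_, p.2.1, by rw [(hu _ _ p.2.1).1, gn_adj_KDa _ h _ p.1.2, h1]⟩
    by_cases h' : ε w = p.1.2
    · exact Or.inl ⟨_, p.2.1, by rw [(hu _ _ p.2.1).1, h', h1]⟩
    · refine Or.inr ⟨_, fun h2 => h2.elim p.2.1.symm h, ?_⟩
      rw [(hu _ _ p.2.1).1, (hv _).1, (hv _).2, Bool.eq_not_iff.2 h', Bool.not_not, h1]
  · have h1 : x * te_KDa Γ v (ε x) = y * te_KDa Γ v (ε y) := by rw [← a2, ← a2, h]
    rw [← eq_mul_inv_iff_mul_eq, ti, mul_assoc] at h1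
    rw [h1]
    cases ε x <;> cases ε y
    · exact Or.inl (by rw [te_mul_KDa, mul_one])
    · exact Or.inr (congrArg _ (mul_one _))
    · exact Or.inr (congrArg _ (one_mul _))
    · exact Or.inl (by rw [te_mul_KDa, mul_one])

end Pool.Agent.MP_6374aa_g

end

section

/-! Images and lifts of rays. -/

namespace Pool.Agent.MP_6374aa_g

open Pool.Agent.MP_6374aa_gt Classical

variable {V V' : Type} {Γ : SimpleGraph V} {Γ' : SimpleGraph V'} {v : V} {κ : W Γ → W Γ'}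

theorem one_KDb (g : W Γ) (u : V) : (cay Γ).dist g (g * sg Γ u) ≤ 1 :=
  (SimpleGraph.dist_eq_one_iff_adj.2 (cay_adj.2 ⟨u, rfl⟩)).le

theorem tri_KDb (a b c : W Γ) : (cay Γ).dist a c ≤ (cay Γ).dist a b + (cay Γ).dist b c :=
  cay_connected.dist_triangle

theorem next_KDb (r : Ray Γ) (n : ℕ) : ∃ u, r.1 (n + 1) = r.1 n * sg Γ u :=
  cay_adj.1 (SimpleGraph.dist_eq_one_iff_adj.1 (r.2.2 n 1))

theorem sync_KDb (r s : Ray Γ) {k j C : ℕ} (h : (cay Γ).dist (r.1 k) (s.1 j) ≤ C) :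
    (cay Γ).dist (r.1 k) (s.1 k) ≤ 2 * C := by
  have h1 : (cay Γ).dist 1 (r.1 k) = k := r.len k
  have h2 : (cay Γ).dist 1 (s.1 j) = j := s.len j
  have h3 := tri_KDb 1 (r.1 k) (s.1 j)
  have h4 := tri_KDb 1 (s.1 j) (r.1 k)
  have h5 := tri_KDb (r.1 k) (s.1 j) (s.1 k)
  rw [SimpleGraph.dist_comm (u := s.1 j)] at h4
  rcases le_total j k with e | e
  · obtain ⟨c, rfl⟩ := Nat.exists_eq_add_of_le e
    have := s.2.2 j c
    omega
  · obtain ⟨c, rfl⟩ := Nat.exists_eq_add_of_le e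
    have := s.2.2 k c
    rw [SimpleGraph.dist_comm] at this
    omega

theorem keep_KDb {w : W Γ} {u : V} (hu : len Γ (w * sg Γ u) = len Γ w + 1) (hne : u ≠ v)
    (h : len Γ (w * sg Γ v) = len Γ w + 1 ∨ ¬ Adq Γ v u) :
    len Γ (w * sg Γ u * sg Γ v) = len Γ (w * sg Γ u) + 1 := by
  refine (len_mul_sg _ v).resolve_right fun h1 => ?_
  have h2 : len Γ (w * sg Γ u * sg Γ v) < len Γ (w * sg Γ u) := by omega
  have h3 : Adq Γ v u := adq_of_descents h2 (by rw [mul_assoc, sg_mul_self, mul_one]; omega)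
  have h4 := desc_RA2.2 h2
  have e : w * sg Γ u * sg Γ v * (w * sg Γ u)⁻¹ = w * sg Γ v * w⁻¹ := by
    rw [mul_assoc w, ← sg_comm h3]
    group
  rw [e, step_RA2 (refl_RA2 w v) fun e' =>
    hne (sg_injective (mul_left_cancel (mul_right_cancel e'))).symm, desc_RA2] at h4
  have := h.resolve_right fun k => k h3
  omega

theorem Kap.dist_le (h : Kap Γ Γ' v κ) (x y : W Γ) :
    (cay Γ').dist (κ x) (κ y) ≤ (cay Γ).dist x y := by
  obtain ⟨l, h1, h2⟩ := red_RA1 x y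
  rw [← h1, h2]
  clear h1 h2
  induction l generalizing x with
  | nil => simp
  | cons u l ih =>
    rw [List.map_cons, List.prod_cons, ← mul_assoc, List.length_cons]
    have h1 := tri_KDb (κ x) (κ (x * sg Γ u)) (κ (x * sg Γ u * (l.map (sg Γ)).prod))
    have h2 := ih (x * sg Γ u)
    have h3 : (cay Γ').dist (κ x) (κ (x * sg Γ u)) ≤ 1 := by
      by_cases e : u = v
      · simp [e, h.self]
      · obtain ⟨p, hp, -⟩ := h.asc x u e
        rw [hp]
        exact one_KDb _ p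
    omega

theorem Kap.le_dist (h : Kap Γ Γ' v κ) (x y : W Γ) :
    (cay Γ).dist x y ≤ 2 * (cay Γ').dist (κ x) (κ y) + 1 := by
  obtain ⟨l, h1, h2⟩ := red_RA1 (κ x) (κ y)
  rw [← h1]
  clear h1
  induction l generalizing x with
  | nil =>
    rcases h.fib y x (by simpa using h2) with rfl | rfl
    · simp
    · exact one_KDb x v
  | cons p l ih =>
    rw [List.map_cons, List.prod_cons, ← mul_assoc] at h2
    rw [List.length_cons]
    rcases h.lift x p with ⟨u, -, hu⟩ | ⟨u, -, hu⟩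
    · have h3 := ih _ (hu ▸ h2)
      have h4 := tri_KDb x (x * sg Γ u) y
      have h5 := one_KDb x u
      omega
    · have h3 := ih _ (hu ▸ h2)
      have h4 := tri_KDb x (x * sg Γ v) y
      have h5 := tri_KDb (x * sg Γ v) (x * sg Γ v * sg Γ u) y
      have h6 := one_KDb x v
      have h7 := one_KDb (x * sg Γ v) u
      omega

theorem step_KDb (h : Kap Γ Γ' v κ) (r : Ray Γ) (n : ℕ) : r.1 (n + 1) = r.1 n * sg Γ v ∨
    len Γ' (κ (r.1 (n + 1))) = len Γ' (κ (r.1 n)) + 1 := by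
  obtain ⟨u, hu⟩ := next_KDb r n
  by_cases e : u = v
  · exact Or.inl (e ▸ hu)
  · obtain ⟨p, h1, h2⟩ := h.asc (r.1 n) u e
    rw [← h1, ← hu] at h2
    exact Or.inr (h2.1 (by rw [r.len, r.len]))

theorem stay_KDb (h : Kap Γ Γ' v κ) (r : Ray Γ) (n : ℕ) : κ (r.1 (n + 1)) = κ (r.1 n) ∨
    len Γ' (κ (r.1 (n + 1))) = len Γ' (κ (r.1 n)) + 1 :=
  (step_KDb h r n).imp_left fun e => by rw [e, h.self]

theorem jump_KDb (h : Kap Γ Γ' v κ) (r : Ray Γ) (n : ℕ) : ∃ m, m ≤ n + 1 ∧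
    κ (r.1 m) = κ (r.1 n) ∧ len Γ' (κ (r.1 (m + 1))) = len Γ' (κ (r.1 n)) + 1 := by
  rcases step_KDb h r n with h1 | h1
  · have h2 : κ (r.1 (n + 1)) = κ (r.1 n) := by rw [h1, h.self]
    refine ⟨n + 1, le_rfl, h2, h2 ▸ (step_KDb h r (n + 1)).resolve_left fun h3 => ?_⟩
    rw [h1, mul_assoc, sg_mul_self, mul_one] at h3
    have h4 := congrArg (len Γ) h3
    rw [r.len, r.len] at h4
    omega
  · exact ⟨n, n.le_succ, rfl, h1⟩

theorem dep_KDb (h : Kap Γ Γ' v κ) (r : Ray Γ) {m n : ℕ}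
    (e : len Γ' (κ (r.1 m)) = len Γ' (κ (r.1 n))) : κ (r.1 m) = κ (r.1 n) := by
  have key : ∀ m c, κ (r.1 (m + c)) = κ (r.1 m) ∨
      len Γ' (κ (r.1 m)) < len Γ' (κ (r.1 (m + c))) := by
    intro m c
    induction c with
    | zero => exact Or.inl rfl
    | succ c ih =>
      rw [← add_assoc]
      rcases stay_KDb h r (m + c) with h1 | h1
      · rwa [h1]
      · refine Or.inr (ih.elim (fun h2 => ?_) fun h2 => by omega)
        rw [h1, h2]
        omega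
  rcases le_total m n with k | k <;> obtain ⟨c, rfl⟩ := Nat.exists_eq_add_of_le k
  · exact ((key m c).resolve_right (by omega)).symm
  · exact (key n c).resolve_right (by omega)

theorem Kap.exists_time (h : Kap Γ Γ' v κ) (r : Ray Γ) (k : ℕ) :
    ∃ n ≤ 2 * k, len Γ' (κ (r.1 n)) = k := by
  induction k with
  | zero => exact ⟨0, le_rfl, by rw [r.2.1, h.one]; exact len_eq_zero.2 rfl⟩
  | succ k ih =>
    obtain ⟨n, h1, h2⟩ := ih
    obtain ⟨m, h3, -, h4⟩ := jump_KDb h r n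
    exact ⟨m + 1, by omega, by omega⟩

theorem Kap.exists_img (h : Kap Γ Γ' v κ) (r : Ray Γ) : ∃ r', Img κ r r' := by
  choose t _ ht using h.exists_time r
  obtain ⟨r', hr⟩ := ray_RA5 (q := fun k => κ (r.1 (t k))) (fun k => by
    obtain ⟨m, -, h1, h2⟩ := jump_KDb h r (t k)
    have h3 : κ (r.1 (t (k + 1))) = κ (r.1 (m + 1)) := dep_KDb h r (by rw [h2, ht, ht])
    change (cay Γ').dist (κ (r.1 (t k))) (κ (r.1 (t (k + 1)))) ≤ 1
    rw [h3, ← h1]
    exact (h.dist_le _ _).trans (r.2.2 m 1).le) (len_eq_zero.1 (ht 0)) 0 fun n _ => ht n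
  exact ⟨r', fun n => by rw [hr]; exact dep_KDb h r (ht _)⟩

theorem Kap.img_surj (h : Kap Γ Γ' v κ) (r' : Ray Γ') : ∃ r, Img κ r r' := by
  let I : ℕ × W Γ → Prop := fun s => κ s.2 = r'.1 s.1 ∧ (len Γ (s.2 * sg Γ v) = len Γ s.2 + 1 ∨
    ∃ u, ¬ Adq Γ v u ∧ κ (s.2 * sg Γ u) = r'.1 (s.1 + 1))
  have go : ∀ k w u, u ≠ v → κ w = r'.1 k → κ (w * sg Γ u) = r'.1 (k + 1) →
      (len Γ (w * sg Γ v) = len Γ w + 1 ∨ ¬ Adq Γ v u) →
      I (k + 1, w * sg Γ u) ∧ len Γ (w * sg Γ u) = len Γ w + 1 := by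
    intro k w u hu h1 h2 h3
    obtain ⟨p, h4, h5⟩ := h.asc w u hu
    rw [← h4, h1, h2, r'.len, r'.len] at h5
    exact ⟨⟨h2, Or.inl (keep_KDb (h5.2 rfl) hu h3)⟩, h5.2 rfl⟩
  have st : ∀ s : {s // I s}, ∃ s' : {s // I s}, ∃ u, s'.1.2 = s.1.2 * sg Γ u ∧
      len Γ s'.1.2 = len Γ s.1.2 + 1 := by
    rintro ⟨⟨k, w⟩, h1, h2 | ⟨u, h2, h3⟩⟩
    · obtain ⟨p, hp⟩ := next_KDb r' k
      rcases h.lift w p with ⟨u, h3, h4⟩ | ⟨u, h3, h4⟩
      · have h5 := go k w u h3 h1 (by rw [h4, hp, ← h1]) (Or.inl h2)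
        exact ⟨⟨_, h5.1⟩, u, rfl, h5.2⟩
      · exact ⟨⟨(k, w * sg Γ v), (h.self w).trans h1, Or.inr ⟨u, h3, by rw [h4, hp, ← h1]⟩⟩,
          v, rfl, h2⟩
    · have h5 := go k w u (fun e => h2 (Or.inl e.symm)) h1 h3 (Or.inr h2)
      exact ⟨⟨_, h5.1⟩, u, rfl, h5.2⟩
  choose f u hf hl using st
  have h0 : len Γ 1 = 0 := len_eq_zero.2 rfl
  let s0 : {s // I s} := ⟨(0, 1), h.one.trans r'.2.1.symm, Or.inl (by rw [one_mul, len_sg, h0])⟩
  obtain ⟨r, hr⟩ := ray_RA5 (q := fun n => (f^[n] s0).1.2) (fun n => by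
    change (cay Γ).dist (f^[n] s0).1.2 (f^[n + 1] s0).1.2 ≤ 1
    rw [Function.iterate_succ_apply', hf]
    exact one_KDb _ _) rfl 0 fun n hn => by
      clear hn
      induction n with
      | zero => exact h0
      | succ n ih => rw [Function.iterate_succ_apply', hl, ih]
  refine ⟨r, fun n => ?_⟩
  have h1 : κ (r.1 n) = r'.1 (f^[n] s0).1.1 := by rw [hr]; exact (f^[n] s0).2.1
  rw [h1, r'.len]

theorem Kap.img_req [Finite V] [Finite V'] (h : Kap Γ Γ' v κ) {r s : Ray Γ} {r' s' : Ray Γ'}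
    (hr : Img κ r r') (hs : Img κ s s') : REq r s ↔ REq r' s' := by
  constructor
  · rintro ⟨C, hC⟩
    refine ⟨2 * C, fun k => ?_⟩
    obtain ⟨n, -, rfl⟩ := h.exists_time r k
    refine sync_KDb r' s' (j := len Γ' (κ (s.1 n))) ?_
    rw [hr, hs]
    exact (h.dist_le _ _).trans (hC n)
  · rintro ⟨C, hC⟩
    refine ⟨2 * (2 * C + 1), fun n => ?_⟩
    obtain ⟨m, -, hm⟩ := h.exists_time s (len Γ' (κ (r.1 n)))
    refine sync_KDb r s (j := m) ((h.le_dist _ _).trans ?_)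
    have h1 := hC (len Γ' (κ (r.1 n)))
    rw [hr, ← hm, hs] at h1
    omega

end Pool.Agent.MP_6374aa_g

end

section

/-! The boundary of the double. -/

namespace Pool.Agent.MP_6374aa_g

open Pool.Agent.MP_6374aa_gt Classical

variable {V V' : Type} {Γ : SimpleGraph V} {Γ' : SimpleGraph V'} {v : V} {κ : W Γ → W Γ'}

attribute [local instance] rayTop bdryTop

theorem img_unique_KDc (h : Kap Γ Γ' v κ) {r : Ray Γ} {s s' : Ray Γ'} (hs : Img κ r s)
    (hs' : Img κ r s') : s = s' := by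
  refine Subtype.ext (funext fun k => ?_)
  obtain ⟨n, -, rfl⟩ := h.exists_time r k
  rw [hs n, hs' n]

theorem img_cont_KDc (h : Kap Γ Γ' v κ) {Φ : Ray Γ → Ray Γ'} (hΦ : ∀ r, Img κ r (Φ r)) :
    Continuous Φ := by
  let _ : TopologicalSpace (W Γ') := ⊥
  have : DiscreteTopology (W Γ') := ⟨rfl⟩
  have h1 : Topology.IsInducing (fun r : Ray Γ' => r.1) := ⟨rfl⟩
  refine h1.continuous_iff.2 (continuous_pi fun k => continuous_discrete_rng.2 fun w => ?_)
  have e : (fun r => ((fun r : Ray Γ' => r.1) ∘ Φ) r k) ⁻¹' {w} =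
      ⋃ n, ⋃ g ∈ {g : W Γ | len Γ' (κ g) = k ∧ κ g = w}, {r : Ray Γ | r.1 n = g} := by
    ext r
    simp only [Set.mem_preimage, Function.comp_apply, Set.mem_singleton_iff, Set.mem_iUnion]
    constructor
    · intro hr
      obtain ⟨n, -, hn⟩ := h.exists_time r k
      refine ⟨n, r.1 n, ⟨hn, ?_⟩, rfl⟩
      rw [← hΦ r n, hn, hr]
    · rintro ⟨n, g, ⟨h2, h3⟩, rfl⟩
      rw [← h2, hΦ r n, h3]
  rw [e]
  exact isOpen_iUnion fun n => isOpen_biUnion fun g _ => (isClopen_cyl n g).isOpen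

theorem Kap.homeo [Finite V] [Finite V'] (h : Kap Γ Γ' v κ) :
    Nonempty (@Homeomorph (Bdry Γ) (Bdry Γ') (bdryTop Γ) (bdryTop Γ')) := by
  choose Φ hΦ using h.exists_img
  have hc := img_cont_KDc h hΦ
  have hs : Function.Surjective Φ := fun r' => by
    obtain ⟨r, hr⟩ := h.img_surj r'
    exact ⟨r, img_unique_KDc h (hΦ r) hr⟩
  have := compactSpace_ray (Γ := Γ)
  have : T2Space (Ray Γ') := by
    let _ : TopologicalSpace (W Γ') := ⊥
    have : DiscreteTopology (W Γ') := ⟨rfl⟩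
    have h1 : Topology.IsEmbedding (fun r : Ray Γ' => r.1) := ⟨⟨rfl⟩, Subtype.val_injective⟩
    exact h1.t2Space
  have hq : Topology.IsQuotientMap Φ := hc.isClosedMap.isQuotientMap hc hs
  have q1 : Topology.IsQuotientMap (bmk (Γ := Γ)) := ⟨⟨rfl⟩, Quot.mk_surjective⟩
  have q2 : Topology.IsQuotientMap (bmk (Γ := Γ')) := ⟨⟨rfl⟩, Quot.mk_surjective⟩
  let F : Bdry Γ → Bdry Γ' := Quot.lift (fun r => bmk (Φ r))
    fun r s hrs => bmk_eq_iff.2 ((h.img_req (hΦ r) (hΦ s)).1 hrs)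
  have hF : Topology.IsQuotientMap F :=
    q1.of_comp_isQuotientMap (g := F) (q2.comp hq)
  have hi : Function.Injective F := fun x y hxy => by
    obtain ⟨r, rfl⟩ := q1.surjective x
    obtain ⟨s, rfl⟩ := q1.surjective y
    exact bmk_eq_iff.2 ((h.img_req (hΦ r) (hΦ s)).2 (bmk_eq_iff.1 hxy))
  exact ⟨(isHomeomorph_iff_isQuotientMap_injective.2 ⟨hF, hi⟩).homeomorph F⟩

theorem dbl_main : DBL_st := by
  intro V _ Γ v
  obtain ⟨κ, hκ⟩ := exists_kap Γ v
  exact hκ.homeo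

end Pool.Agent.MP_6374aa_g

end
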