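import Pool.Agent.Mg.F6374aa.Ge6e9b2
import Pool.Agent.Mg.F6374aa.Gcfeb84
import Pool.Agent.Mg.F6374aa.Ga99166

section

/-!
Definitions for block C: cores of collapses, heights, towers, convex sets of chambers.
-/

namespace Pool.Agent.MP_6374aa_g

open Pool.Agent.MP_6374aa_gt Classical

noncomputable section

variable {V V' : Type}

/-- The simplices over `Y` that are not collapsed to a vertex. -/
def core (G' : SimpleGraph V') (A' : Set V') (c : V' → V) (Y : Set V) : Set (Finset V') :=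
  {t | t ∈ nb G' A' (c ⁻¹' Y) ∧ 2 ≤ (t.image c).card}

/-- The height on the subdivision: minimum plus maximum. -/
def hmx (h : V → ℤ) (s : Finset V) : ℤ :=
  if hs : s.Nonempty then s.inf' hs h + s.sup' hs h else 0

/-- A height function whose inner levels have simply connected upper and lower links. -/
structure Ht (G : SimpleGraph V) (A : Set V) (h : V → ℤ) (N : ℤ) : Prop where
  lip : ∀ u ∈ A, ∀ w ∈ A, G.Adj u w → h u ≤ h w + 1
  rng : ∀ u ∈ A, 0 ≤ h u ∧ h u ≤ N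
  lnk : ∀ σ ∈ sA G A, ∀ a b : ℤ, 1 ≤ a → a + 1 ≤ N → (∀ u ∈ σ, h u = a) →
    (b = a - 1 ∨ b = a + 1) →
    Con G (Lk G A σ ∩ {v | h v = b}) ∧ SCo G (Lk G A σ ∩ {v | h v = b})

/-- A level of the model. -/
structure LvP (G : SimpleGraph V) (A : Set V) (h : V → ℤ) (N : ℤ) {Q : Type} [Group Q]
    (ρ : V → V → Q) (Nm Np : Subgroup Q) : Prop where
  cl : Cl G 3 A
  ht : Ht G A h N
  ul : UL G (slab A h 1 (N - 1)) ρ
  km : Kill G (slab A h 1 (N - 1)) (slab A h 0 (N - 1)) ρ Nm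
  kp : Kill G (slab A h 1 (N - 1)) (slab A h 1 N) ρ Np

/-- The vertices of `σ` that are not adjacent to `u`. -/
def nad (G : SimpleGraph V) (σ : Finset V) (u : V) : Finset V := σ.filter fun t => ¬ G.Adj t u

/-- A finite compact cover with nerve `G`. -/
structure Nv {X : Type} [TopologicalSpace X] (G : SimpleGraph V) (A : Set V) (S : V → Set X) :
    Prop where
  fin : A.Finite
  cpt : ∀ v ∈ A, IsCompact (S v)
  cover : ∀ x, ∃ v ∈ A, x ∈ S v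
  iff : ∀ u ∈ A, ∀ w ∈ A, (S u ∩ S w).Nonempty ↔ Adq G u w

/-- A family of covers with arbitrarily fine members that collapse to the coarse ones. -/
structure Tw {X : Type} [TopologicalSpace X] (G : SimpleGraph V) (I : Set (Set V))
    (S : V → Set X) : Prop where
  ne : I.Nonempty
  nv : ∀ A ∈ I, Nv G A S
  deep : ∀ A ∈ I, ∀ U : Set (Set X), (∀ u ∈ U, IsOpen u) → (∀ x, ∃ u ∈ U, x ∈ u) →
    ∃ A' ∈ I, (∀ v ∈ A', ∃ u ∈ U, S v ⊆ u) ∧
      ∃ c, CLS G A' G A c ∧ ∀ v ∈ A', S v ⊆ S (c v)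

variable {Γ : SimpleGraph V}

/-- A finite convex set of chambers. -/
def Cvx (E : Set (W Γ)) : Prop :=
  E.Finite ∧ E.Nonempty ∧ ∀ t ∈ bw E, ∀ d ∈ E, ∀ d' ∈ E, (Plus t d ↔ Plus t d')

/-- `m` is the median of `x`, `y`, `z`. -/
def IsMed (x y z m : W Γ) : Prop :=
  ∀ t, IsRefl t → (Plus t m ↔
    (Plus t x ∧ Plus t y) ∨ (Plus t x ∧ Plus t z) ∨ (Plus t y ∧ Plus t z))

/-- The bounding walls of `D` behind which `u` lies. -/
def pw (D : Set (W Γ)) (u : W Γ) : Finset (W Γ) :=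
  if h : (bw D).Finite then h.toFinset.filter fun t => ∀ w, Plus u w → Plus t w else ∅

end

end Pool.Agent.MP_6374aa_g

end

section

/-! Collapses: basic closure properties. -/

namespace Pool.Agent.MP_6374aa_g

open Pool.Agent.MP_6374aa_gt Classical

variable {V V' V'' : Type} {G : SimpleGraph V} {G' : SimpleGraph V'} {G'' : SimpleGraph V''}
  {A : Set V} {A' : Set V'} {A'' : Set V''} {L : Type} [Group L]

/-- The upper fibre retracts to the exact fibre. -/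
theorem CLS.upper_pe {c : V' → V} (hc : CLS G' A' G A c) {SS : Set (Finset V)}
    (hS : SS ⊆ sA G A) {σ : Finset V} (hσ : σ ∈ SS) :
    PE (sG V') (fib G' A' c σ) (sG V') {t | (t ∈ sA G' A' ∧ t.image c ∈ SS) ∧ σ ⊆ t.image c} id := by
  have k : ∀ t : Finset V', σ ⊆ t.image c → (t.filter fun v => c v ∈ σ).image c = σ := by
    intro t ht
    ext v
    simp only [Finset.mem_image, Finset.mem_filter]
    constructor
    · rintro ⟨u, ⟨-, h⟩, rfl⟩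
      exact h
    · intro h
      obtain ⟨u, h1, rfl⟩ := Finset.mem_image.1 (ht h)
      exact ⟨u, ⟨h1, h⟩, rfl⟩
  refine (ret_down (r := fun t => t.filter fun v => c v ∈ σ) ?_ ?_ ?_ ?_).1
  · rintro t ⟨h1, h2⟩
    exact ⟨⟨h1, h2 ▸ hσ⟩, h2.ge⟩
  · rintro t ⟨⟨h1, -⟩, h2⟩
    refine ⟨⟨sA_down h1 (Finset.filter_subset _ _) (Finset.Nonempty.of_image (f := c) ?_),
      k t h2⟩, Finset.filter_subset _ _⟩
    rw [k t h2]
    exact (hS hσ).1
  · exact fun s _ t _ h => Finset.filter_subset_filter _ h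
  · rintro t ⟨-, h2⟩
    exact Finset.filter_true_of_mem fun v hv => h2 ▸ Finset.mem_image_of_mem c hv

theorem CLS.pe {c : V' → V} (hc : CLS G' A' G A c) {SS : Set (Finset V)} (hS : SS ⊆ sA G A)
    (h2 : ∀ σ ∈ SS, 2 ≤ σ.card) :
    PE (sG V') {t | t ∈ sA G' A' ∧ t.image c ∈ SS} (sG V) SS (Finset.image c) := by
  refine qa_up (isHom_of_mono (fun _ h => h.2) fun _ _ _ _ h => Finset.image_subset_image h) ?_
  intro σ hσ
  have k := hc.upper_pe hS hσ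
  exact ⟨k.con.1 (hc.con σ (hS hσ)), k.sco.1 (hc.sc σ (hS hσ) (h2 σ hσ))⟩

theorem CLS.con_pre {c : V' → V} (hc : CLS G' A' G A c) {SS : Set (Finset V)} (hS : SS ⊆ sA G A)
    (h : Con (sG V) SS) : Con (sG V') {t | t ∈ sA G' A' ∧ t.image c ∈ SS} := by
  exact qa0_up (f := Finset.image c)
    (isHom_of_mono (fun _ h => h.2) fun _ _ _ _ h => Finset.image_subset_image h)
    (fun σ hσ => (hc.upper_pe hS hσ).con.1 (hc.con σ (hS hσ))) h

theorem CLS.comp {c : V' → V} {d : V'' → V'} (hc : CLS G' A' G A c) (hd : CLS G'' A'' G' A' d) :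
    CLS G'' A'' G A (c ∘ d) := by
  have k : ∀ σ, fib G'' A'' (c ∘ d) σ = {t | t ∈ sA G'' A'' ∧ t.image d ∈ fib G' A' c σ} := by
    intro σ
    ext t
    refine and_congr_right fun ht => ?_
    rw [← Finset.image_image]
    exact ⟨fun h => ⟨IsHom.image_mem hd.hom ht, h⟩, fun h => h.2⟩
  refine ⟨hom_comp_P1 hc.hom hd.hom, fun σ hσ => ?_, fun σ hσ h2 => ?_⟩
  · rw [k]
    exact hd.con_pre (fun _ h => h.1) (hc.con σ hσ)
  · rw [k]
    exact (hd.pe (SS := fib G' A' c σ) (fun _ h => h.1) fun s h =>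
      h2.trans (h.2.symm ▸ Finset.card_image_le)).sco.2 (hc.sc σ hσ h2)

theorem IsIso.cls {f : V' → V} (hf : IsIso G' A' G A f) : CLS G' A' G A f := by
  have k : ∀ σ ∈ sA G A, ∃ s, fib G' A' f σ = {s} := by
    intro σ hσ
    obtain ⟨s, h1, h2⟩ := (IsIso.sd hf).1.surjOn hσ
    refine ⟨s, Set.ext fun t => ⟨fun h => ?_, fun h => h ▸ ⟨h1, h2⟩⟩⟩
    exact (IsIso.sd hf).1.injOn h.1 h1 (h.2.trans h2.symm)
  refine ⟨IsIso.hom hf, fun σ hσ => ?_, fun σ hσ _ => ?_⟩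
  · obtain ⟨s, e⟩ := k σ hσ
    rw [e]
    exact con_singleton s
  · obtain ⟨s, e⟩ := k σ hσ
    rw [e]
    exact (cone_sco (A := {s}) (a := s) rfl fun x hx =>
      Or.inl (Set.mem_singleton_iff.1 hx).symm).2

theorem CLS.id' : CLS G A G A id := by
  exact IsIso.cls isIso_id

theorem CLS.rk_fr {c : V' → V} (hc : CLS G' A' G A c) {U : Set V} {n : ℕ}
    (h : Rk (sG V) (fr G A U) n) : Rk (sG V') (fr G' A' (c ⁻¹' U)) n := by
  have k : fr G' A' (c ⁻¹' U) = {t | t ∈ sA G' A' ∧ t.image c ∈ fr G A U} := by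
    ext t
    refine and_congr_right fun ht => ?_
    have e1 : Meets (t.image c) U ↔ Meets t (c ⁻¹' U) := by
      simp only [Meets, Finset.mem_image, exists_exists_and_eq_and, Set.mem_preimage]
    have e2 : ((t.image c : Finset V) : Set V) ⊆ U ↔ ↑t ⊆ c ⁻¹' U := by
      rw [Finset.coe_image, Set.image_subset_iff]
    exact ⟨fun h => ⟨IsHom.image_mem hc.hom ht, e1.2 h.1, fun k => h.2 (e2.1 k)⟩,
      fun h => ⟨e1.1 h.2.1, fun k => h.2.2 (e2.2 k)⟩⟩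
  rw [k]
  refine (hc.pe (fun _ h => h.1) ?_).rk.2 h
  rintro σ ⟨-, ⟨u, h1, h2⟩, h3⟩
  obtain ⟨w, h4, h5⟩ := Set.not_subset.1 h3
  exact Finset.one_lt_card.2 ⟨u, h1, w, h4, fun e => h5 (e ▸ h2)⟩

end Pool.Agent.MP_6374aa_g

end

section

/-! The core of a collapse onto a closed manifold; sections and extensions of labels. -/

namespace Pool.Agent.MP_6374aa_g

open Pool.Agent.MP_6374aa_gt Classical

variable {V V' V'' : Type} {G : SimpleGraph V} {G' : SimpleGraph V'} {G'' : SimpleGraph V''}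
  {A : Set V} {A' : Set V'} {A'' : Set V''} {L : Type} [Group L]

theorem adq_mem_Kd {a b : Finset V} (ha : a ∈ sA G A) (hb : b ∈ sA G A) (h : Adq (sG V) a b)
    {x y : V} (hx : x ∈ a) (hy : y ∈ b) : Adq G x y :=
  (adq_sG.1 h).elim (fun e => (mem_sA.1 hb).2.2 x (e hx) y hy)
    fun e => (mem_sA.1 ha).2.2 x hx y (e hy)

theorem ctg_pick_Kd {P : Set (Finset V)} (hP : P ⊆ sA G A) {π1 π2 : Finset V → V}
    (h1 : ∀ t ∈ P, π1 t ∈ t) (h2 : ∀ t ∈ P, π2 t ∈ t) : Ctg (sG V) P G π1 π2 :=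
  ctg_of_sc fun a ha b hb e => adq_mem_Kd (hP ha) (hP hb) e (h1 a ha) (h2 b hb)

theorem ctg_img_Kd {c : V' → V} (hc : IsHom G' A' G A c) {P : Set (Finset V')}
    (hP : P ⊆ sA G' A') {f g : Finset V' → V} (h1 : ∀ t ∈ P, f t ∈ t.image c)
    (h2 : ∀ t ∈ P, g t ∈ t.image c) : Ctg (sG V') P G f g :=
  ctg_of_sc fun a ha b hb e => adq_mem_Kd (IsHom.image_mem hc (hP ha))
    (IsHom.image_mem hc (hP hb))
    (adq_sG.2 ((adq_sG.1 e).imp Finset.image_subset_image Finset.image_subset_image))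
    (h1 a ha) (h2 b hb)

theorem pk_nb_Kd [Nonempty V] (Q : Set V) : ∀ s ∈ nb G A Q, pk Q s ∈ s ∧ pk Q s ∈ Q :=
  fun _ hs => ⟨pk_mem Q hs.1.1, pk_mem_B hs.2⟩

theorem hom_pick_Kd {P : Set (Finset V)} (hP : P ⊆ sA G A) {Q : Set V} {π : Finset V → V}
    (h : ∀ t ∈ P, π t ∈ t ∧ π t ∈ Q) : IsHom (sG V) P G (A ∩ Q) π :=
  isHom_pick hP fun t ht => ⟨(h t ht).1, (hP ht).2.1 (h t ht).1, (h t ht).2⟩

theorem hom_img_Kd {c : V' → V} (hc : IsHom G' A' G A c) {P : Set (Finset V')}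
    (hP : P ⊆ sA G' A') {Y : Set V} {π : Finset V' → V'}
    (h : ∀ t ∈ P, π t ∈ t ∧ c (π t) ∈ Y) : IsHom (sG V') P G Y (c ∘ π) :=
  ⟨fun t ht => (h t ht).2, fun a ha b hb e => hc.adq ((hP ha).2.1 (h a ha).1)
    ((hP hb).2.1 (h b hb).1) (adq_mem_Kd (hP ha) (hP hb) (Or.inr e) (h a ha).1 (h b hb).1)⟩

theorem ne_Kd {c : V' → V} (hc : CLS G' A' G A c) (hA : Cl G 3 A) : Nonempty V' := by
  obtain ⟨a, ha⟩ := hA.2.1.1
  obtain ⟨t, ht⟩ := (hc.con {a} (singleton_mem_sA.2 ha)).1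
  obtain ⟨v, -⟩ := ht.1.1
  exact ⟨v⟩

theorem core_mono {c : V' → V} {Y Y' : Set V} (h : Y ⊆ Y') : core G' A' c Y ⊆ core G' A' c Y' := by
  rintro t ⟨⟨ht, v, hv, hY⟩, h2⟩
  exact ⟨⟨ht, v, hv, h hY⟩, h2⟩

theorem core_pe0 {c : V' → V} (hc : CLS G' A' G A c) (hA : Cl G 3 A) (Y : Set V) :
    PE (sG V') (core G' A' c Y) (sG V) (nb G A Y) (Finset.image c) := by
  have h2 : ∀ σ ∈ nb G A Y \ {s | s.card = 1}, 2 ≤ σ.card := fun σ hσ => by
    have h1 := hσ.1.1.1.card_pos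
    have h3 : σ.card ≠ 1 := hσ.2
    omega
  have e : core G' A' c Y =
      {t | t ∈ sA G' A' ∧ t.image c ∈ nb G A Y \ {s | s.card = 1}} := by
    ext t
    constructor
    · rintro ⟨⟨ht, v, hv, hY⟩, h3⟩
      refine ⟨ht, ⟨IsHom.image_mem hc.hom ht, c v, Finset.mem_image_of_mem c hv, hY⟩,
        fun h4 => ?_⟩
      have h5 : (t.image c).card = 1 := h4
      omega
    · rintro ⟨ht, h3⟩
      obtain ⟨w, hw, hY⟩ := h3.1.2
      obtain ⟨v, hv, rfl⟩ := Finset.mem_image.1 hw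
      exact ⟨⟨ht, v, hv, hY⟩, h2 _ h3⟩
  have p1 := hc.pe (fun _ h => h.1.1) h2
  have p2 : PE (sG V) (nb G A Y \ {s | s.card = 1}) (sG V) (nb G A Y) id := by
    refine rem_many (fun a ha b hb e => ?_) fun s hs => ?_
    · have h3 : a.card = 1 := ha
      have h4 : b.card = 1 := hb
      rcases e with e | e <;> have := Finset.card_lt_card e <;> omega
    · have e1 : Lk (sG V) (nb G A Y) {s} = {t | t ∈ sA G A ∧ s ⊂ t} := by
        ext t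
        rw [mem_lk_C1]
        constructor
        · rintro ⟨h3, h4 | h4⟩
          · exact ⟨h3.1, h4⟩
          · have h5 := Finset.card_lt_card h4
            have h6 := h3.1.1.card_pos
            have h7 : s.card = 1 := hs.2
            omega
        · rintro ⟨h3, h4⟩
          obtain ⟨v, hv, hY⟩ := hs.1.2
          exact ⟨⟨h3, v, h4.1 hv, hY⟩, Or.inl h4⟩
      have i := upper_iso (G := G) (A := A) hs.1.1.2
      obtain ⟨v, rfl⟩ := Finset.card_eq_one.1 hs.2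
      have h3 : Cell G 3 (Lk G A {v}) fun _ => False :=
        hA.2.2.sph_lk (singleton_mem_sA.1 hs.1.1) (Set.notMem_empty v)
      rw [Finset.coe_singleton] at i
      rw [e1]
      exact ⟨(IsIso.con i).2 (con_sA.2 h3.con), (IsIso.pe i).sco.2 (sco_sA.2 h3.sco)⟩
  rw [e]
  exact (p2.comp p1).congr fun _ _ => rfl

theorem core_hom {c : V' → V} {Y : Set V} {π : Finset V' → V'}
    (hπ : ∀ t ∈ core G' A' c Y, π t ∈ t ∧ c (π t) ∈ Y) :
    IsHom (sG V') (core G' A' c Y) G' (A' ∩ c ⁻¹' Y) π :=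
  hom_pick_Kd (fun _ h => h.1.1) hπ

theorem core_pe {c : V' → V} (hc : CLS G' A' G A c) (hA : Cl G 3 A) {Y : Set V} (hY : Y ⊆ A)
    {π : Finset V' → V'} (hπ : ∀ t ∈ core G' A' c Y, π t ∈ t ∧ c (π t) ∈ Y) :
    PE (sG V') (core G' A' c Y) G Y (c ∘ π) := by
  have : Nonempty V := ⟨hA.2.1.1.some⟩
  have p1 := nb_pe (pk_nb_Kd (G := G) (A := A) Y)
  rw [Set.inter_eq_right.2 hY] at p1
  refine (p1.comp (core_pe0 hc hA Y)).ctg (hom_img_Kd hc.hom (fun _ h => h.1.1) hπ)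
    (ctg_img_Kd hc.hom (fun _ h => h.1.1) (fun t ht => ?_)
      fun t ht => Finset.mem_image_of_mem c (hπ t ht).1)
  exact pk_mem Y (ht.1.1.1.image c)

/-- Labels upstairs restrict to a homotopy section of the collapse. -/
theorem cls_sec {c : V' → V} (hc : CLS G' A' G A c) (hA : Cl G 3 A) {Y0 : Set V} (hY : Y0 ⊆ A)
    {ν : V' → V' → L} (hν : Flat G' (A' ∩ c ⁻¹' Y0) ν) :
    ∃ s : V → V → L, Flat G Y0 s ∧ ∀ Y1 ⊆ Y0, ∀ (L' : Type) [Group L'] (Ψ : L →* L')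
      (lab : V → V → L') (k : V' → L'), Flat G Y1 lab →
      Gau G' (A' ∩ c ⁻¹' Y1) (pull c lab) (fun u w => Ψ (ν u w)) k →
      ∃ k0, Gau G Y1 lab (fun u w => Ψ (s u w)) k0 := by
  have := ne_Kd hc hA
  have hπ : ∀ Y : Set V, ∀ t ∈ core G' A' c Y, pk (c ⁻¹' Y) t ∈ t ∧ c (pk (c ⁻¹' Y) t) ∈ Y :=
    fun Y t ht => pk_nb_Kd (c ⁻¹' Y) t ht.1
  obtain ⟨s, k1, hs, g3⟩ := (core_pe hc hA hY (hπ Y0)).desc L _ (flat_pull hν (core_hom (hπ Y0)))
  refine ⟨s, hs, fun Y1 h1 L' _ Ψ lab k hl hk => ?_⟩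
  have hP : core G' A' c Y1 ⊆ sA G' A' := fun _ h => h.1.1
  have a0 : ∀ t ∈ core G' A' c Y1, pk (c ⁻¹' Y0) t ∈ t ∧ c (pk (c ⁻¹' Y0) t) ∈ Y0 :=
    fun t ht => hπ Y0 t (core_mono h1 ht)
  have a1 : ∀ t ∈ core G' A' c Y1, pk (c ⁻¹' Y1) t ∈ t ∧ c (pk (c ⁻¹' Y1) t) ∈ Y0 :=
    fun t ht => ⟨(hπ Y1 t ht).1, h1 (hπ Y1 t ht).2⟩
  have g1 := hk.pull (core_hom (hπ Y1))
  have g2 := gau_of_ctg hν (hom_pick_Kd hP a1) (hom_pick_Kd hP a0)
    (ctg_pick_Kd hP (fun t ht => (a1 t ht).1) fun t ht => (a0 t ht).1)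
  have g4 := gau_of_ctg hs (hom_img_Kd hc.hom hP a0) (hom_img_Kd hc.hom hP a1)
    (ctg_img_Kd hc.hom hP (fun t ht => Finset.mem_image_of_mem c (a0 t ht).1)
      fun t ht => Finset.mem_image_of_mem c (a1 t ht).1)
  have g5 := (g2.trans ((g3.mono (core_mono h1)).trans g4)).map Ψ
  obtain ⟨k0, h0, -⟩ := (core_pe hc hA (h1.trans hY) (hπ Y1)).full L' lab _ _ hl
    ((hs.mono h1).map Ψ) (g1.trans g5)
  exact ⟨k0, h0⟩

theorem cls_extl {c : V' → V} (hc : CLS G' A' G A c) (hA : Cl G 3 A) {Y1 Y2 : Set V}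
    (hY : Y2 ⊆ A) (h : Extl G Y1 Y2) : Extl G' (A' ∩ c ⁻¹' Y1) (A' ∩ c ⁻¹' Y2) := by
  have := ne_Kd hc hA
  have hB : A' ∩ c ⁻¹' Y1 ⊆ A' ∩ c ⁻¹' Y2 := fun _ hu => ⟨hu.1, h.1 hu.2⟩
  refine ⟨hB, fun L _ lab hl => ?_⟩
  have hN : nb G' A' (c ⁻¹' Y1) ⊆ nb G' A' (c ⁻¹' Y2) := fun _ ⟨ht, v, hv, hy⟩ =>
    ⟨ht, v, hv, h.1 hy⟩
  have n1 := pk_nb_Kd (G := G') (A := A') (c ⁻¹' Y1)
  have n2 := pk_nb_Kd (G := G') (A := A') (c ⁻¹' Y2)
  have hP : core G' A' c Y1 ⊆ sA G' A' := fun _ h => h.1.1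
  have a1 : ∀ t ∈ core G' A' c Y1, pk (c ⁻¹' Y1) t ∈ t ∧ c (pk (c ⁻¹' Y1) t) ∈ Y1 :=
    fun t ht => n1 t ht.1
  have a2 : ∀ t ∈ core G' A' c Y1, pk (c ⁻¹' Y2) t ∈ t ∧ c (pk (c ⁻¹' Y2) t) ∈ Y2 :=
    fun t ht => n2 t (hN ht.1)
  have e : nb G' A' (c ⁻¹' Y1) ∩ {t | t ∈ nb G' A' (c ⁻¹' Y2) ∧
      (2 ≤ (t.image c).card ∨ ∃ v ∈ t, c v ∉ Y1)} = core G' A' c Y1 := by
    ext t
    constructor
    · rintro ⟨h1, -, h2 | ⟨v, hv, h2⟩⟩
      · exact ⟨h1, h2⟩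
      · obtain ⟨w, hw, h3⟩ := h1.2
        exact ⟨h1, Finset.one_lt_card.2 ⟨c w, Finset.mem_image_of_mem c hw, c v,
          Finset.mem_image_of_mem c hv, fun e => h2 (e ▸ h3)⟩⟩
    · exact fun ht => ⟨ht.1, hN ht.1, Or.inl ht.2⟩
  have cv : Cov2 (sG V') (nb G' A' (c ⁻¹' Y2)) (nb G' A' (c ⁻¹' Y1))
      {t | t ∈ nb G' A' (c ⁻¹' Y2) ∧ (2 ≤ (t.image c).card ∨ ∃ v ∈ t, c v ∉ Y1)} := by
    refine ⟨hN, fun _ h => h.1, fun u hu v hv w hw h1 h2 h3 => ?_⟩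
    have h4 := tri_mem_B3 hu hv hw h1 h2 h3
    obtain ⟨m, hm, hb⟩ := exists_bot h4
    obtain ⟨x, hx⟩ := (h4.2.1 hm).1.1
    have xu := hb u (by simp) hx
    have xv := hb v (by simp) hx
    have xw := hb w (by simp) hx
    by_cases h5 : c x ∈ Y1
    · exact Or.inl ⟨⟨hu.1, x, xu, h5⟩, ⟨hv.1, x, xv, h5⟩, hw.1, x, xw, h5⟩
    · exact Or.inr ⟨⟨hu, Or.inr ⟨x, xu, h5⟩⟩, ⟨hv, Or.inr ⟨x, xv, h5⟩⟩, hw, Or.inr ⟨x, xw, h5⟩⟩
  obtain ⟨l0, k0, f0, g0⟩ := (core_pe hc hA (h.1.trans hY) a1).desc L _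
    (flat_pull hl (core_hom a1))
  obtain ⟨l1, f1, e1⟩ := h.2 L l0 f0
  have i1 := hom_img_Kd hc.hom hP a1
  have g1 : Gau (sG V') (core G' A' c Y1) (pull (pk (c ⁻¹' Y1)) lab)
      (pull (c ∘ pk (c ⁻¹' Y1)) l1) k0 := fun u hu w hw e => by
    rw [g0 u hu w hw e]
    exact congrArg (fun x => k0 u * x * (k0 w)⁻¹)
      (e1 _ (a1 u hu).2 _ (a1 w hw).2 (IsHom.adq i1 hu hw e)).symm
  have g2 := gau_of_ctg f1
    (hom_img_Kd hc.hom hP fun t ht => ⟨(a1 t ht).1, h.1 (a1 t ht).2⟩) (hom_img_Kd hc.hom hP a2)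
    (ctg_img_Kd hc.hom hP (fun t ht => Finset.mem_image_of_mem c (a1 t ht).1)
      fun t ht => Finset.mem_image_of_mem c (a2 t ht).1)
  obtain ⟨l2, -, f2, e2, -⟩ := glue_lab cv (flat_pull hl (nb_pe n1).hom)
    ((flat_pull f1 (hom_img_Kd hc.hom (fun _ h => h.1) n2)).mono fun _ h => h.1)
    (by rw [e]; exact g1.trans g2)
  obtain ⟨l3, k3, f3, g3⟩ := (nb_pe n2).desc L l2 f2
  have g4 : Gau (sG V') (nb G' A' (c ⁻¹' Y1)) (pull (pk (c ⁻¹' Y1)) lab)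
      (pull (pk (c ⁻¹' Y2)) l3) k3 := fun u hu w hw e => by
    rw [← e2 u hu w hw e]
    exact g3 u (hN hu) w (hN hw) e
  have g5 := gau_of_ctg f3 (hom_pick_Kd (fun _ h => h.1) fun t ht => n2 t (hN ht))
    (hom_pick_Kd (fun _ h => h.1) fun t ht => ⟨(n1 t ht).1, h.1 (n1 t ht).2⟩)
    (ctg_pick_Kd (A := A') (fun _ h => h.1) (fun t ht => (n2 t (hN ht)).1) fun t ht => (n1 t ht).1)
  obtain ⟨k4, g6, -⟩ := (nb_pe n1).full L lab l3 _ hl (f3.mono hB) (g4.trans g5)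
  exact ⟨fun u w => k4 u * l3 u w * (k4 w)⁻¹, Gau.flat (k := k4) (fun _ _ _ _ _ => rfl) f3,
    fun u hu w hw e => (g6 u hu w hw e).symm⟩

end Pool.Agent.MP_6374aa_g

end

section

/-! The label with values in a free product. -/

namespace Pool.Agent.MP_6374aa_g

open Pool.Agent.MP_6374aa_gt Classical

variable {V V' V'' : Type} {G : SimpleGraph V} {G' : SimpleGraph V'} {G'' : SimpleGraph V''}
  {A : Set V} {A' : Set V'} {A'' : Set V''} {L : Type} [Group L]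

/-- The chart of the label at a vertex `a`. -/
def ch_Ke {H : Type} [Group H] (ψ : L →* H) (r : V' → L) (g : V' → V' → H) (u w : V') :
    Monoid.Coprod L H :=
  Monoid.Coprod.inl (r u) * Monoid.Coprod.inr ((ψ (r u))⁻¹ * g u w * ψ (r w)) *
    (Monoid.Coprod.inl (r w))⁻¹

theorem ch_mul_Ke {H : Type} [Group H] (ψ : L →* H) (r : V' → L) {g : V' → V' → H} {u v w : V'}
    (h : g u v * g v w = g u w) : ch_Ke ψ r g u v * ch_Ke ψ r g v w = ch_Ke ψ r g u w := by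
  simp only [ch_Ke, ← h, map_mul, map_inv]
  group

theorem ch_fst_Ke {H : Type} [Group H] (ψ : L →* H) (r : V' → L) (g : V' → V' → H) (u w : V') :
    Monoid.Coprod.fst (ch_Ke ψ r g u w) = r u * (r w)⁻¹ := by
  simp only [ch_Ke, map_mul, map_inv, Monoid.Coprod.fst_apply_inl, Monoid.Coprod.fst_apply_inr]
  group

theorem ch_lift_Ke {H : Type} [Group H] (ψ : L →* H) (r : V' → L) (g : V' → V' → H) (u w : V') :
    Monoid.Coprod.lift ψ (MonoidHom.id H) (ch_Ke ψ r g u w) = g u w := by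
  simp only [ch_Ke, map_mul, map_inv, Monoid.Coprod.lift_apply_inl, Monoid.Coprod.lift_apply_inr,
    MonoidHom.id_apply]
  group

theorem ch_triv_Ke {H : Type} [Group H] (ψ : L →* H) {r : V' → L} {g : V' → V' → H} {u w : V'}
    {x : L} (h1 : g u w = ψ x) (h2 : x * r w = r u) :
    ch_Ke ψ r g u w = Monoid.Coprod.inl x := by
  simp only [ch_Ke, h1, ← h2, map_mul, map_inv]
  group

theorem mu_Ke {F : V' → V} (hF : IsHom G' A' G A F) {T : Set V}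
    (hT : ∀ a ∈ T, ∀ b ∈ T, ¬ G.Adj a b) {ρ : V → V → L} (hρ : Flat G A ρ) {H : Type} [Group H]
    (ψ : L →* H) {g : V' → V' → H} (hg : Flat G' A' g)
    (hO : ∀ u ∈ A' \ F ⁻¹' T, ∀ w ∈ A' \ F ⁻¹' T, Adq G' u w → g u w = ψ (ρ (F u) (F w))) :
    ∃ μ : V' → V' → Monoid.Coprod L H, Flat G' A' μ ∧
      (∀ u ∈ A', ∀ w ∈ A', Adq G' u w → Monoid.Coprod.fst (μ u w) = ρ (F u) (F w)) ∧
      ∀ u ∈ A', ∀ w ∈ A', Adq G' u w →
        Monoid.Coprod.lift ψ (MonoidHom.id H) (μ u w) = g u w := by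
  let μ : V' → V' → Monoid.Coprod L H := fun u w =>
    if F u ∈ T then ch_Ke ψ (fun x => ρ (F x) (F u)) g u w else
      if F w ∈ T then ch_Ke ψ (fun x => ρ (F x) (F w)) g u w else
        Monoid.Coprod.inl (ρ (F u) (F w))
  have key : ∀ a ∈ A, a ∈ T → ∀ u ∈ A', ∀ w ∈ A', Adq G' u w → Adq G (F u) a → Adq G (F w) a →
      μ u w = ch_Ke ψ (fun x => ρ (F x) a) g u w := by
    intro a ha haT u hu w hw h h1 h2
    by_cases e1 : F u ∈ T
    · rw [← h1.resolve_right (hT _ e1 _ haT)]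
      exact if_pos e1
    by_cases e2 : F w ∈ T
    · rw [← h2.resolve_right (hT _ e2 _ haT)]
      exact (if_neg e1).trans (if_pos e2)
    · exact ((if_neg e1).trans (if_neg e2)).trans (ch_triv_Ke ψ (hO u ⟨hu, e1⟩ w ⟨hw, e2⟩ h)
        (hρ _ (hF.1 u hu) _ (hF.1 w hw) a ha (IsHom.adq hF hu hw h) h2 h1)).symm
  have alt : ∀ u ∈ A', ∀ w ∈ A', Adq G' u w →
      (∃ a ∈ A, a ∈ T ∧ Adq G (F u) a ∧ Adq G (F w) a) ∨
        (F u ∉ T ∧ F w ∉ T ∧ μ u w = Monoid.Coprod.inl (ρ (F u) (F w))) := by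
    intro u hu w hw h
    have h' := IsHom.adq hF hu hw h
    by_cases e1 : F u ∈ T
    · exact Or.inl ⟨F u, hF.1 u hu, e1, adq_refl _, adq_symm h'⟩
    by_cases e2 : F w ∈ T
    · exact Or.inl ⟨F w, hF.1 w hw, e2, h', adq_refl _⟩
    · exact Or.inr ⟨e1, e2, (if_neg e1).trans (if_neg e2)⟩
  refine ⟨μ, fun u hu v hv w hw h1 h2 h3 => ?_, fun u hu w hw h => ?_, fun u hu w hw h => ?_⟩
  · have k1 := IsHom.adq hF hu hv h1
    have k2 := IsHom.adq hF hv hw h2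
    have k3 := IsHom.adq hF hu hw h3
    have tri : ∀ a ∈ A, a ∈ T → Adq G (F u) a → Adq G (F v) a → Adq G (F w) a →
        μ u v * μ v w = μ u w := fun a ha haT a1 a2 a3 => by
      rw [key a ha haT u hu v hv h1 a1 a2, key a ha haT v hv w hw h2 a2 a3,
        key a ha haT u hu w hw h3 a1 a3]
      exact ch_mul_Ke ψ _ (hg u hu v hv w hw h1 h2 h3)
    by_cases e1 : F u ∈ T
    · exact tri _ (hF.1 u hu) e1 (adq_refl _) (adq_symm k1) (adq_symm k3)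
    by_cases e2 : F v ∈ T
    · exact tri _ (hF.1 v hv) e2 k1 (adq_refl _) (adq_symm k2)
    by_cases e3 : F w ∈ T
    · exact tri _ (hF.1 w hw) e3 k3 k2 (adq_refl _)
    · simp only [μ, if_neg e1, if_neg e2, if_neg e3]
      rw [← map_mul, hρ _ (hF.1 u hu) _ (hF.1 v hv) _ (hF.1 w hw) k1 k2 k3]
  · rcases alt u hu w hw h with ⟨a, ha, haT, h1, h2⟩ | ⟨-, -, e⟩
    · rw [key a ha haT u hu w hw h h1 h2, ch_fst_Ke, mul_inv_eq_iff_eq_mul]
      exact (hρ _ (hF.1 u hu) _ (hF.1 w hw) a ha (IsHom.adq hF hu hw h) h2 h1).symm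
    · rw [e, Monoid.Coprod.fst_apply_inl]
  · rcases alt u hu w hw h with ⟨a, ha, haT, h1, h2⟩ | ⟨e1, e2, e⟩
    · rw [key a ha haT u hu w hw h h1 h2, ch_lift_Ke]
    · rw [e, Monoid.Coprod.lift_apply_inl, hO u ⟨hu, e1⟩ w ⟨hw, e2⟩ h]

theorem chunk_lg {F : V' → V} (hF : IsHom G' A' G A F) {T : Set V}
    (hT : ∀ a ∈ T, ∀ b ∈ T, ¬ G.Adj a b) (hO : PE G' (A' \ F ⁻¹' T) G A F) {ρ : V → V → L}
    (hρ : UL G A ρ) :
    ∃ (H : Type) (_ : Group H) (μ : V' → V' → Monoid.Coprod L H), Flat G' A' μ ∧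
      (∀ u ∈ A', ∀ w ∈ A', Adq G' u w → Monoid.Coprod.fst (μ u w) = ρ (F u) (F w)) ∧
      ∀ (L' : Type) [Group L'] (lab : V' → V' → L'), Flat G' A' lab → Dom G' A' μ lab := by
  obtain ⟨l, k, hl, hk⟩ := hO.desc _ (gen G' A') ((flat_gen G' A').mono Set.sdiff_subset)
  obtain ⟨ψ, m, hm⟩ := hρ.dom _ l hl
  have h1 := hk.trans (hm.pull hO.hom)
  obtain ⟨μ, h2, h3, h4⟩ := mu_Ke hF hT hρ.flat ψ
    ((flat_gen G' A').gauge fun u => (k u * m (F u))⁻¹) fun u hu w hw h =>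
      (h1.symm u hu w hw h).symm
  refine ⟨_, inferInstance, μ, h2, h3, fun L' _ lab hlab =>
    ⟨(glift G' A' lab).comp (Monoid.Coprod.lift ψ (MonoidHom.id _)),
      fun u => glift G' A' lab (k u * m (F u)), fun u hu w hw h => ?_⟩⟩
  beta_reduce
  rw [MonoidHom.comp_apply, h4 u hu w hw h, ← map_inv, ← map_mul, ← map_mul,
    ← glift_gen hlab u w]
  congr 1
  group

theorem cls_lg {c : V' → V} (hc : CLS G' A' G A c) (hA : Cl G 3 A) {Y : Set V} (hY : Y ⊆ A)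
    {ρ : V → V → L} (hρ : UL G Y ρ) :
    ∃ (H : Type) (_ : Group H) (μ : V' → V' → Monoid.Coprod L H) (k : V' → L),
      Flat G' (A' ∩ c ⁻¹' Y) μ ∧
      Gau G' (A' ∩ c ⁻¹' Y) (pull c ρ) (fun u w => Monoid.Coprod.fst (μ u w)) k ∧
      ∀ Y1, Extl G Y1 Y → ∀ (L' : Type) [Group L'] (lab : V' → V' → L'),
        Flat G' (A' ∩ c ⁻¹' Y1) lab → Dom G' (A' ∩ c ⁻¹' Y1) μ lab := by
  obtain ⟨y, hy⟩ := hρ.con.1
  obtain ⟨t0, ⟨⟨x0, -⟩, -⟩, -⟩ := (hc.con {y} (singleton_mem_sA.2 (hY hy))).1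
  have : Nonempty V := ⟨y⟩
  have : Nonempty V' := ⟨x0⟩
  have hF : IsHom (sG V') (nb G' A' (c ⁻¹' Y)) (sG V) (nb G A Y) (Finset.image c) :=
    isHom_of_mono (fun s hs => ⟨IsHom.image_mem hc.hom hs.1, by
      obtain ⟨v, hv, hv'⟩ := hs.2
      exact ⟨c v, Finset.mem_image_of_mem c hv, hv'⟩⟩) fun _ _ _ _ h => Finset.image_subset_image h
  have hT : ∀ a ∈ {s : Finset V | s.card = 1}, ∀ b ∈ {s : Finset V | s.card = 1},
      ¬ (sG V).Adj a b := fun a ha b hb h =>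
    h.elim (fun h => (Finset.card_lt_card h).ne (ha.trans hb.symm))
      fun h => (Finset.card_lt_card h).ne (hb.trans ha.symm)
  have e0 : nb G' A' (c ⁻¹' Y) \ Finset.image c ⁻¹' {s : Finset V | s.card = 1} =
      core G' A' c Y := by
    refine Set.ext fun t => and_congr_right fun ht => ?_
    have := Finset.card_pos.2 (ht.1.1.image c)
    show ¬ (t.image c).card = 1 ↔ _
    omega
  have p1 : ∀ s ∈ nb G A Y, pk Y s ∈ s ∧ pk Y s ∈ Y := fun s hs =>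
    ⟨pk_mem Y hs.1.1, pk_mem_B hs.2⟩
  have p2 : ∀ s ∈ nb G' A' (c ⁻¹' Y), pk (c ⁻¹' Y) s ∈ s ∧ pk (c ⁻¹' Y) s ∈ c ⁻¹' Y :=
    fun s hs => ⟨pk_mem _ hs.1.1, pk_mem_B hs.2⟩
  have q1 := nb_pe p1
  rw [Set.inter_eq_right.2 hY] at q1
  have q2 := nb_pe p2
  obtain ⟨H, _, μ0, h1, h2, h3⟩ := chunk_lg hF hT (e0 ▸ core_pe0 hc hA Y) (hρ.pull q1)
  obtain ⟨μ, k1, h4, h5⟩ := q2.desc _ μ0 h1
  have hcX : IsHom G' (A' ∩ c ⁻¹' Y) G Y c :=
    ⟨fun _ h => h.2, fun a ha b hb h => hc.hom.2 a ha.1 b hb.1 h⟩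
  have adq : ∀ s ∈ nb G' A' (c ⁻¹' Y), ∀ a ∈ s.image c, ∀ b ∈ s.image c, Adq G a b :=
    fun s hs => (mem_sA.1 (hF.1 s hs).1).2.2
  have ctg : Ctg (sG V') (nb G' A' (c ⁻¹' Y)) G (c ∘ pk (c ⁻¹' Y)) (pk Y ∘ Finset.image c) := by
    refine ⟨fun s hs => adq s hs _ (Finset.mem_image_of_mem c (p2 s hs).1) _
      (p1 _ (hF.1 s hs)).1, fun s hs t ht h => h.imp (fun h => ?_) fun h => ?_⟩
    · exact adq t ht _ (Finset.mem_image_of_mem c (h.subset (p2 s hs).1)) _ (p1 _ (hF.1 t ht)).1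
    · exact adq s hs _ (p1 _ (hF.1 s hs)).1 _ (Finset.mem_image_of_mem c (h.subset (p2 t ht).1))
  have g1 := gau_of_ctg hρ.flat (hcX.comp q2.hom) (q1.hom.comp hF) ctg
  have g2 : Gau (sG V') (nb G' A' (c ⁻¹' Y)) (pull (pk Y ∘ Finset.image c) ρ)
      (fun s t => Monoid.Coprod.fst (μ0 s t)) fun _ => 1 := fun s hs t ht h => by
    beta_reduce
    rw [h2 s hs t ht h, one_mul, inv_one, mul_one]
    rfl
  obtain ⟨k, hk, -⟩ := q2.full _ (pull c ρ) (fun u w => Monoid.Coprod.fst (μ u w)) _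
    (flat_pull hρ.flat hcX) (h4.map _) (g1.trans (g2.trans (h5.map Monoid.Coprod.fst)))
  refine ⟨H, inferInstance, μ, k, h4, hk, fun Y1 hE L' _ lab hlab => ?_⟩
  obtain ⟨hX, hE'⟩ := cls_extl hc hA hY hE
  obtain ⟨lab', f1, f2⟩ := hE' L' lab hlab
  obtain ⟨T1, m1, hm1⟩ := h3 L' _ (flat_pull f1 q2.hom)
  obtain ⟨T2, m2, hm2⟩ := q2.dom h4 f1 ⟨T1, _, hm1.trans (h5.map T1)⟩
  exact ⟨T2, m2, fun u hu w hw h => (f2 u hu w hw h).symm.trans (hm2 u (hX hu) w (hX hw) h)⟩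

end Pool.Agent.MP_6374aa_g

end

section

/-! Lifting the fundamental group through a collapse. -/

namespace Pool.Agent.MP_6374aa_g

open Pool.Agent.MP_6374aa_gt Classical

variable {V V' V'' : Type} {G : SimpleGraph V} {G' : SimpleGraph V'} {G'' : SimpleGraph V''}
  {A : Set V} {A' : Set V'} {A'' : Set V''} {L : Type} [Group L]

theorem kill_Kf [Nonempty V'] {c : V' → V} (hc : CLS G' A' G A c) (hA : Cl G 3 A) {Y Y' : Set V}
    (hY : Y ⊆ Y') (hY' : Y' ⊆ A) {π : Finset V' → V'}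
    (hπ : ∀ t ∈ core G' A' c Y, π t ∈ t ∧ c (π t) ∈ Y) {ρ : V → V → L} {N : Subgroup L}
    (hk : Kill G Y Y' ρ N) {t : Finset V'} {l : List (Finset V')}
    (hw : Wk (sG V') (core G' A' c Y) t l t) (hN : ev (pull (c ∘ π) ρ) t l ∈ N) :
    Null G' (A' ∩ c ⁻¹' Y') (π t) (l.map π) := by
  have hex : ∀ s, ∃ v, (s ∈ core G' A' c Y → v = π s) ∧
      (s ∈ core G' A' c Y' → v ∈ s ∧ c v ∈ Y') := by
    intro s
    by_cases h1 : s ∈ core G' A' c Y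
    · exact ⟨π s, fun _ => rfl, fun _ => ⟨(hπ s h1).1, hY (hπ s h1).2⟩⟩
    · by_cases h2 : s ∈ core G' A' c Y'
      · obtain ⟨v, h3, h4⟩ := h2.1.2
        exact ⟨v, fun k => (h1 k).elim, fun _ => ⟨h3, h4⟩⟩
      · exact ⟨Classical.arbitrary V', fun k => (h1 k).elim, fun k => (h2 k).elim⟩
  choose π' h1 h2 using hex
  have e1 : π' t = π t := h1 t hw.mem_left
  have e2 : l.map π' = l.map π := List.map_congr_left fun s hs => h1 s (hw.mem_list s hs)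
  have h3 := hk _ _ (hw.map (core_pe hc hA (hY.trans hY') hπ).hom) (by rwa [ev_pull] at hN)
  rw [← e1, ← e2]
  refine Null.map (core_hom h2) ((core_pe hc hA hY' h2).null (hw.mono (core_mono hY)) ?_)
  rw [← List.map_map, e2, List.map_map, Function.comp_apply, e1]
  exact h3

theorem cls_lift {c : V' → V} (hc : CLS G' A' G A c) (hA : Cl G 3 A) {Y Yb Yt : Set V}
    (hY : Y ⊆ A) (hb : Yb ⊆ Y) (ht : Yt ⊆ Y) (hf : Far G Yb Yt) {ρ : V → V → L} (u : UL G Y ρ)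
    (ub : UL G Yb ρ) (ut : UL G Yt ρ) :
    ∃ (m p : V') (e : List V') (tm tp : L → List V'), Wk G' (A' ∩ c ⁻¹' Y) m e p ∧
      (∀ x, Wk G' (A' ∩ c ⁻¹' Yb) m (tm x) m) ∧ (∀ x, Wk G' (A' ∩ c ⁻¹' Yt) p (tp x) p) ∧
      (∀ (L' : Type) [Group L'] (lab : V' → V' → L'), Flat G' (A' ∩ c ⁻¹' Y) lab →
        (∀ x y, ev lab m (tm (x * y)) = ev lab m (tm x) * ev lab m (tm y)) ∧
          ∀ x, ev lab m e * ev lab p (tp x) = ev lab m (tm x) * ev lab m e) ∧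
      (∀ x, ev (pull c ρ) m (tm x) = x) ∧
      (∀ (N : Subgroup L) (Y' : Set V), Yb ⊆ Y' → Y' ⊆ A → Kill G Yb Y' ρ N → ∀ x ∈ N,
        Null G' (A' ∩ c ⁻¹' Y') m (tm x)) ∧
      ∀ (N : Subgroup L) (Y' : Set V), Yt ⊆ Y' → Y' ⊆ A → Kill G Yt Y' ρ N → ∀ x ∈ N,
        Null G' (A' ∩ c ⁻¹' Y') p (tp x) := by
  obtain ⟨a, ha⟩ := u.con.1
  obtain ⟨s, hs⟩ := (hc.con {a} (singleton_mem_sA.2 (hY ha))).1
  have : Nonempty V' := ⟨hs.1.1.choose⟩
  have far : ∀ t, t ∈ core G' A' c Yb → t ∈ core G' A' c Yt → False := by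
    rintro t ⟨⟨h1, v, h2, h3⟩, -⟩ ⟨⟨-, w, h4, h5⟩, -⟩
    obtain ⟨-, k1, k2⟩ := mem_sA.1 h1
    exact hf _ h3 _ h5 (hc.hom.adq (k1 h2) (k1 h4) (k2 v h2 w h4))
  have hex : ∀ t, ∃ v, (t ∈ core G' A' c Y → v ∈ t ∧ c v ∈ Y) ∧
      (t ∈ core G' A' c Yb → v ∈ t ∧ c v ∈ Yb) ∧ (t ∈ core G' A' c Yt → v ∈ t ∧ c v ∈ Yt) := by
    intro t
    by_cases h1 : t ∈ core G' A' c Yb
    · obtain ⟨v, h3, h4⟩ := h1.1.2
      exact ⟨v, fun _ => ⟨h3, hb h4⟩, fun _ => ⟨h3, h4⟩, fun k => (far t h1 k).elim⟩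
    · by_cases h2 : t ∈ core G' A' c Yt
      · obtain ⟨v, h3, h4⟩ := h2.1.2
        exact ⟨v, fun _ => ⟨h3, ht h4⟩, fun k => (h1 k).elim, fun _ => ⟨h3, h4⟩⟩
      · by_cases h0 : t ∈ core G' A' c Y
        · obtain ⟨v, h3, h4⟩ := h0.1.2
          exact ⟨v, fun _ => ⟨h3, h4⟩, fun k => (h1 k).elim, fun k => (h2 k).elim⟩
        · exact ⟨Classical.arbitrary V', fun k => (h0 k).elim, fun k => (h1 k).elim,
            fun k => (h2 k).elim⟩
  choose π h0 h1 h2 using hex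
  have U := u.pull (core_pe hc hA hY h0)
  have Ub := ub.pull (core_pe hc hA (hb.trans hY) h1)
  have Ut := ut.pull (core_pe hc hA (ht.trans hY) h2)
  obtain ⟨tb, mb⟩ := Ub.con.1
  obtain ⟨tt, mt⟩ := Ut.con.1
  choose Lb b1 b2 using Ub.surj tb mb
  choose Lt t1 t2 using Ut.surj tt mt
  obtain ⟨e, e1, e2⟩ := U.walk (core_mono hb mb) (core_mono ht mt) 1
  refine ⟨π tb, π tt, e.map π, fun x => (Lb x).map π, fun x => (Lt x).map π,
    e1.map (core_hom h0), fun x => (b1 x).map (core_hom h1), fun x => (t1 x).map (core_hom h2),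
    fun L' _ lab hl => ?_, fun x => (ev_pull π _ _ _).symm.trans (b2 x),
    fun N Y' k1 k2 k3 x hx => kill_Kf hc hA k1 k2 h1 k3 (b1 x) ((b2 x).symm ▸ hx),
    fun N Y' k1 k2 k3 x hx => kill_Kf hc hA k1 k2 h2 k3 (t1 x) ((t2 x).symm ▸ hx)⟩
  obtain ⟨T, k, hk⟩ := U.dom L' _ (flat_pull hl (core_hom h0))
  have q1 : ∀ x, ev lab (π tb) ((Lb x).map π) = k tb * T x * (k tb)⁻¹ := fun x => by
    rw [← ev_pull, ev_gau hk ((b1 x).mono (core_mono hb)), ev_hom, b2]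
  have q2 : ∀ x, ev lab (π tt) ((Lt x).map π) = k tt * T x * (k tt)⁻¹ := fun x => by
    rw [← ev_pull, ev_gau hk ((t1 x).mono (core_mono ht)), ev_hom, t2]
  have q3 : ev lab (π tb) (e.map π) = k tb * T 1 * (k tt)⁻¹ := by
    rw [← ev_pull, ev_gau hk e1, ev_hom, e2]
  refine ⟨fun x y => ?_, fun x => ?_⟩
  · rw [q1, q1, q1, map_mul]
    group
  · rw [q1, q2, q3, map_one]
    group

end Pool.Agent.MP_6374aa_g

end

section

/-! Heights. -/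

namespace Pool.Agent.MP_6374aa_g

open Pool.Agent.MP_6374aa_gt Classical

variable {V V' V'' : Type} {G : SimpleGraph V} {G' : SimpleGraph V'} {G'' : SimpleGraph V''}
  {A : Set V} {A' : Set V'} {A'' : Set V''} {L : Type} [Group L]

theorem upl_pe {σ : Finset V} (hσ : Clq G A σ) {Y : Set V} (hd : ∀ u ∈ σ, u ∉ Y) :
    PE (sG V) {t | t ∈ sA G A ∧ σ ⊆ t ∧ Meets t Y} (sG V) (sA G (Lk G A σ ∩ Y))
      fun t => t.filter (· ∈ Y) := by
  have sub : ∀ t : Finset V, σ ⊆ t → σ ∪ t.filter (· ∈ Y) ⊆ t := fun t k =>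
    Finset.union_subset k (Finset.filter_subset _ _)
  have eq : ∀ τ ∈ sA G (Lk G A σ ∩ Y), (σ ∪ τ).filter (· ∈ Y) = τ := fun τ k => by
    ext x
    rw [Finset.mem_filter, Finset.mem_union]
    exact ⟨fun c => c.1.resolve_left fun c' => hd x c' c.2, fun c => ⟨Or.inr c, (k.2.1 c).2⟩⟩
  refine PE.of_inv (g := fun τ => σ ∪ τ)
    (isHom_of_mono (fun t ht => ⟨?_, fun x hx => ?_, ht.1.2.2.subset ?_⟩)
      fun _ _ _ _ k => Finset.filter_subset_filter _ k)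
    (isHom_of_mono (fun τ hτ => ⟨⟨hτ.1.mono Finset.subset_union_right, ?_⟩,
      Finset.subset_union_left, ?_⟩) fun _ _ _ _ k => Finset.union_subset_union_right k)
    ⟨fun t ht => adq_sG.2 (Or.inl (sub t ht.2.1)), fun t ht w hw k => ?_⟩
    ⟨fun τ hτ => Or.inl (eq τ hτ), fun τ hτ w _ k => Or.inl ?_⟩
  · exact ht.2.2.imp fun x c => Finset.mem_filter.2 c
  · obtain ⟨x1, x2⟩ := Finset.mem_filter.1 (Finset.mem_coe.1 hx)
    exact ⟨⟨ht.1.2.1 x1, fun u hu => ht.1.2.2 (ht.2.1 hu) x1 fun e => hd u hu (e ▸ x2)⟩, x2⟩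
  · exact Finset.coe_subset.2 (Finset.filter_subset _ _)
  · exact ((clq_lk hσ).1 ⟨fun x hx => (hτ.2.1 hx).1, hτ.2.2⟩).1
  · exact hτ.1.imp fun x c => ⟨Finset.mem_union_right _ c, (hτ.2.1 c).2⟩
  · exact k.imp (fun c => adq_sG.2 (Or.inl ((sub t ht.2.1).trans c.1)))
      fun c => adq_sG.2 (Or.inr ((sub w hw.2.1).trans c.1))
  · change Adq (sG V) ((σ ∪ τ).filter (· ∈ Y)) w
    rw [eq τ hτ]
    exact Or.inr k

theorem upl_con_Ha {σ : Finset V} (hσ : Clq G A σ) {Y : Set V} (hd : ∀ u ∈ σ, u ∉ Y)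
    (h : Con G (Lk G A σ ∩ Y) ∧ SCo G (Lk G A σ ∩ Y)) :
    Con (sG V) {t | t ∈ sA G A ∧ σ ⊆ t ∧ Meets t Y} ∧
      SCo (sG V) {t | t ∈ sA G A ∧ σ ⊆ t ∧ Meets t Y} :=
  ⟨(upl_pe hσ hd).con.2 (con_sA.2 h.1), (upl_pe hσ hd).sco.2 (sco_sA.2 h.2)⟩

theorem lev_pe {Y : Set V} (hY : Y ⊆ A)
    (h : ∀ σ ∈ sA G (A \ Y), Con G (Lk G A σ ∩ Y) ∧ SCo G (Lk G A σ ∩ Y)) : PE G Y G A id := by
  rcases isEmpty_or_nonempty V with hV | hV
  · rw [Subsingleton.elim Y A]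
    exact PE.id'
  have p1 : PE (sG V) (nb G A Y) (sG V) (sA G A) id := by
    refine qa_up ⟨fun s hs => hs.1, fun _ _ _ _ k => Or.inr k⟩ fun σ hσ => ?_
    by_cases c : Meets σ Y
    · exact cone_sco (A := {u | u ∈ nb G A Y ∧ σ ⊆ id u}) (a := σ) ⟨⟨hσ, c⟩, subset_rfl⟩
        fun t ht => adq_sG.2 (Or.inl ht.2)
    · have hd : ∀ u ∈ σ, u ∉ Y := fun u hu k => c ⟨u, hu, k⟩
      have e : {u | u ∈ nb G A Y ∧ σ ⊆ id u} = {t | t ∈ sA G A ∧ σ ⊆ t ∧ Meets t Y} :=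
        Set.ext fun t => ⟨fun k => ⟨k.1.1, k.2, k.1.2⟩, fun k => ⟨⟨k.1, k.2.2⟩, k.2.1⟩⟩
      rw [e]
      exact upl_con_Ha hσ.2 hd (h σ ⟨hσ.1, fun u hu => ⟨hσ.2.1 hu, hd u hu⟩, hσ.2.2⟩)
  have p2 : PE (sG V) (sA G A) G A (pk Y) := sd_pe fun s hs => pk_mem Y hs.1
  have p3 : PE (sG V) (nb G A Y) G (A ∩ Y) (pk Y) :=
    nb_pe fun s hs => ⟨pk_mem Y hs.1.1, pk_mem_B hs.2⟩
  rw [Set.inter_eq_right.2 hY] at p3
  exact PE.of_comp_left (f := id) (p2.comp p1) p3 ⟨hY, fun _ _ _ _ k => Or.inr k⟩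

theorem hmx_spec (h : V → ℤ) {s : Finset V} (hs : s.Nonempty) :
    ∃ u ∈ s, ∃ w ∈ s, hmx h s = h u + h w ∧ ∀ x ∈ s, h u ≤ h x ∧ h x ≤ h w := by
  obtain ⟨u, u1, u2⟩ := Finset.exists_mem_eq_inf' hs h
  obtain ⟨w, w1, w2⟩ := Finset.exists_mem_eq_sup' hs h
  refine ⟨u, u1, w, w1, by rw [hmx, dif_pos hs, u2, w2], fun x hx => ⟨?_, ?_⟩⟩
  · rw [← u2]
    exact Finset.inf'_le h hx
  · rw [← w2]
    exact Finset.le_sup' h hx

theorem spec_Ha {h : V → ℤ} {N : ℤ} (H : Ht G A h N) {s : Finset V} (hs : s ∈ sA G A) :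
    ∃ u ∈ s, ∃ w ∈ s, hmx h s = h u + h w ∧ h u ≤ h w ∧ h w ≤ h u + 1 ∧
      ∀ x ∈ s, h u ≤ h x ∧ h x ≤ h w := by
  obtain ⟨u, u1, w, w1, e, k⟩ := hmx_spec h hs.1
  refine ⟨u, u1, w, w1, e, (k w w1).1, ?_, k⟩
  rcases (mem_sA.1 hs).2.2 w w1 u u1 with c | c
  · rw [c]
    omega
  · exact H.lip w (hs.2.1 w1) u (hs.2.1 u1) c

theorem Ht.near {h : V → ℤ} {N : ℤ} (H : Ht G A h N) {s : Finset V} (hs : s ∈ sA G A) {x : V}
    (hx : x ∈ s) : hmx h s ≤ 2 * h x + 1 ∧ 2 * h x ≤ hmx h s + 1 := by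
  obtain ⟨u, -, w, -, e, k1, k2, k⟩ := spec_Ha H hs
  have := k x hx
  omega

theorem pure_Ha {h : V → ℤ} {N : ℤ} (H : Ht G A h N) {s : Finset V} (hs : s ∈ sA G A) {a : ℤ} :
    hmx h s = 2 * a ↔ ∀ x ∈ s, h x = a := by
  obtain ⟨u, u1, w, w1, e, k1, k2, k⟩ := spec_Ha H hs
  refine ⟨fun c x hx => ?_, fun c => ?_⟩
  · have := k x hx
    omega
  · have := c u u1
    have := c w w1
    omega

theorem mixed_Ha {h : V → ℤ} {N : ℤ} (H : Ht G A h N) {s : Finset V} (hs : s ∈ sA G A) {a : ℤ} :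
    hmx h s = 2 * a + 1 ↔ (∃ x ∈ s, h x = a) ∧ ∃ x ∈ s, h x = a + 1 := by
  obtain ⟨u, u1, w, w1, e, k1, k2, k⟩ := spec_Ha H hs
  refine ⟨fun c => ⟨⟨u, u1, by omega⟩, w, w1, by omega⟩, fun ⟨⟨x, x1, x2⟩, y, y1, y2⟩ => ?_⟩
  have := k x x1
  have := k y y1
  omega

theorem even_Ha {h : V → ℤ} {N : ℤ} (H : Ht G A h N) {S : Finset (Finset V)}
    (hS : S ∈ sA (sG V) (sA G A)) {a b : ℤ} (h1 : 1 ≤ a) (h2 : a + 1 ≤ N)
    (h3 : ∀ s ∈ S, hmx h s = 2 * a) (hb : b = a - 1 ∨ b = a + 1) :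
    Con (sG V) (Lk (sG V) (sA G A) S ∩ {t | hmx h t = a + b}) ∧
      SCo (sG V) (Lk (sG V) (sA G A) S ∩ {t | hmx h t = a + b}) := by
  have t1 := top_mem hS
  have t2 : top S ∈ sA G A := hS.2.1 t1
  have t3 := (pure_Ha H t2).1 (h3 _ t1)
  obtain ⟨z, hz⟩ := t2.1
  have e : Lk (sG V) (sA G A) S ∩ {t | hmx h t = a + b} =
      {t | t ∈ sA G A ∧ top S ⊆ t ∧ Meets t {v | h v = b}} := by
    ext t
    constructor
    · rintro ⟨⟨k1, k2⟩, k3⟩
      have k4 : hmx h t = a + b := k3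
      obtain ⟨u, u1, w, w1, e, c1, c2, c3⟩ := spec_Ha H k1
      refine ⟨k1, ?_, ?_⟩
      · rcases k2 _ t1 with c | c
        · exact c.1
        · have := t3 u (c.1 u1)
          have := t3 w (c.1 w1)
          omega
      · rcases hb with c | c
        · exact ⟨u, u1, show h u = b by omega⟩
        · exact ⟨w, w1, show h w = b by omega⟩
    · rintro ⟨k1, k2, x, x1, x2⟩
      have x3 : h x = b := x2
      have k3 : top S ⊂ t := Finset.ssubset_iff_subset_ne.2 ⟨k2, fun c => by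
        have := t3 x (c ▸ x1)
        omega⟩
      refine ⟨⟨k1, fun s hs => Or.inl ((subset_top hs).trans_ssubset k3)⟩, ?_⟩
      obtain ⟨u, u1, w, w1, e, c1, c2, c3⟩ := spec_Ha H k1
      have := c3 x x1
      have := c3 z (k2 hz)
      have := t3 z hz
      change hmx h t = a + b
      omega
  rw [e]
  refine upl_con_Ha t2.2 (fun u hu c => ?_) (H.lnk _ t2 a b h1 h2 t3 hb)
  have := t3 u hu
  have : h u = b := c
  omega

theorem odd_Ha {h : V → ℤ} {N : ℤ} (H : Ht G A h N) {S : Finset (Finset V)}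
    (hS : S ∈ sA (sG V) (sA G A)) {a c : ℤ} (h3 : ∀ s ∈ S, hmx h s = 2 * a + 1)
    (hc : c = a ∨ c = a + 1) :
    Con (sG V) (Lk (sG V) (sA G A) S ∩ {t | hmx h t = 2 * c}) ∧
      SCo (sG V) (Lk (sG V) (sA G A) S ∩ {t | hmx h t = 2 * c}) := by
  obtain ⟨s, s1, s2⟩ := exists_bot hS
  have s3 : s ∈ sA G A := hS.2.1 s1
  obtain ⟨⟨x, x1, x2⟩, y, y1, y2⟩ := (mixed_Ha H s3).1 (h3 s s1)
  have m1 : s.filter (fun v => h v = c) ∈ sA G A := by
    refine sA_down s3 (Finset.filter_subset _ _) ?_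
    rcases hc with e | e
    · exact ⟨x, Finset.mem_filter.2 ⟨x1, by omega⟩⟩
    · exact ⟨y, Finset.mem_filter.2 ⟨y1, by omega⟩⟩
  have m2 : s.filter (fun v => h v = c) ⊂ s :=
    Finset.ssubset_iff_subset_ne.2 ⟨Finset.filter_subset _ _, fun e => by
      have k1 := (Finset.mem_filter.1 (e.symm ▸ x1 : x ∈ s.filter fun v => h v = c)).2
      have k2 := (Finset.mem_filter.1 (e.symm ▸ y1 : y ∈ s.filter fun v => h v = c)).2
      omega⟩
  refine cone_sco (a := s.filter fun v => h v = c)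
    ⟨⟨m1, fun t ht => Or.inr (m2.trans_subset (s2 t ht))⟩,
      (pure_Ha H m1).2 fun v hv => (Finset.mem_filter.1 hv).2⟩ ?_
  rintro t ⟨⟨k1, k2⟩, k3⟩
  have k4 := (pure_Ha H k1).1 k3
  refine adq_sG.2 (Or.inr fun v hv => Finset.mem_filter.2 ⟨?_, k4 v hv⟩)
  rcases k2 s s1 with e | e
  · have := k4 x (e.1 x1)
    have := k4 y (e.1 y1)
    omega
  · exact e.1 hv

theorem Ht.sd {h : V → ℤ} {N : ℤ} (H : Ht G A h N) : Ht (sG V) (sA G A) (hmx h) (2 * N) := by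
  refine ⟨fun s hs t ht k => ?_, fun s hs => ?_, fun S hS a b h1 h2 h3 hb => ?_⟩
  · obtain ⟨u, u1, w, w1, e, c1, c2, c3⟩ := spec_Ha H hs
    obtain ⟨u', u2, w', w2, e', c4, c5, c6⟩ := spec_Ha H ht
    rcases k with k | k
    · have := c6 u (k.1 u1)
      have := c6 w (k.1 w1)
      omega
    · have := c3 u' (k.1 u2)
      have := c3 w' (k.1 w2)
      omega
  · obtain ⟨u, u1, w, w1, e, -⟩ := spec_Ha H hs
    have := H.rng u (hs.2.1 u1)
    have := H.rng w (hs.2.1 w1)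
    omega
  · obtain ⟨k, rfl | rfl⟩ := Int.even_or_odd' a
    · have := even_Ha H hS (a := k) (b := b - k) (by omega) (by omega) h3 (by omega)
      rwa [add_sub_cancel] at this
    · rcases hb with e | e
      · have := odd_Ha H hS h3 (Or.inl rfl)
        rwa [show 2 * k = b by omega] at this
      · have := odd_Ha H hS h3 (Or.inr rfl)
        rwa [show 2 * (k + 1) = b by omega] at this

theorem Ht.slab_sd {h : V → ℤ} {N : ℤ} (H : Ht G A h N) {a b : ℤ} (hab : a ≤ b) :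
    slab (sA G A) (hmx h) (2 * a - 1) (2 * b + 1) = nb G A (slab A h a b) := by
  ext s
  constructor
  · rintro ⟨hs, k1, k2⟩
    obtain ⟨u, u1, w, w1, e, c1, c2, -⟩ := spec_Ha H hs
    by_cases c : h w ≤ b
    · exact ⟨hs, w, w1, hs.2.1 w1, by omega, c⟩
    · exact ⟨hs, u, u1, hs.2.1 u1, by omega, by omega⟩
  · rintro ⟨hs, x, x1, -, k1, k2⟩
    have := H.near hs x1
    exact ⟨hs, by omega, by omega⟩

theorem up_Ha {h : V → ℤ} {N : ℤ} (H : Ht G A h N) {a b : ℤ} (h0 : 0 ≤ b) (hN : b + 2 ≤ N)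
    (hab : a ≤ b) : PE G (slab A h a b) G (slab A h a (b + 1)) id := by
  refine lev_pe (fun v hv => ⟨hv.1, hv.2.1, by have := hv.2.2; omega⟩) fun σ hσ => ?_
  have p : ∀ u ∈ σ, u ∈ A ∧ h u = b + 1 := fun u hu => by
    obtain ⟨⟨k1, k2, k3⟩, k4⟩ := hσ.2.1 hu
    exact ⟨k1, le_antisymm k3 (not_le.1 fun c => k4 ⟨k1, k2, c⟩)⟩
  obtain ⟨z, hz⟩ := hσ.1
  have e : Lk G (slab A h a (b + 1)) σ ∩ slab A h a b = Lk G A σ ∩ {v | h v = b} := by
    ext v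
    constructor
    · rintro ⟨⟨k1, k2⟩, k3⟩
      have := H.lip z (p z hz).1 v k1.1 (k2 z hz)
      have := (p z hz).2
      have := k3.2.2
      exact ⟨⟨k1.1, k2⟩, show h v = b by omega⟩
    · rintro ⟨⟨k1, k2⟩, k3⟩
      have k4 : h v = b := k3
      exact ⟨⟨⟨k1, by omega, by omega⟩, k2⟩, k1, by omega, by omega⟩
  rw [e]
  exact H.lnk σ ⟨⟨z, hz⟩, fun u hu => (p u hu).1, hσ.2.2⟩ (b + 1) b (by omega) (by omega)
    (fun u hu => (p u hu).2) (by omega)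

theorem down_Ha {h : V → ℤ} {N : ℤ} (H : Ht G A h N) {a b : ℤ} (h0 : 2 ≤ a) (hN : a ≤ N)
    (hab : a ≤ b) : PE G (slab A h a b) G (slab A h (a - 1) b) id := by
  refine lev_pe (fun v hv => ⟨hv.1, by have := hv.2.1; omega, hv.2.2⟩) fun σ hσ => ?_
  have p : ∀ u ∈ σ, u ∈ A ∧ h u = a - 1 := fun u hu => by
    obtain ⟨⟨k1, k2, k3⟩, k4⟩ := hσ.2.1 hu
    have : h u < a := not_le.1 fun c => k4 ⟨k1, c, k3⟩
    exact ⟨k1, by omega⟩
  obtain ⟨z, hz⟩ := hσ.1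
  have e : Lk G (slab A h (a - 1) b) σ ∩ slab A h a b = Lk G A σ ∩ {v | h v = a} := by
    ext v
    constructor
    · rintro ⟨⟨k1, k2⟩, k3⟩
      have := H.lip v k1.1 z (p z hz).1 (k2 z hz).symm
      have := (p z hz).2
      have := k3.2.1
      exact ⟨⟨k1.1, k2⟩, show h v = a by omega⟩
    · rintro ⟨⟨k1, k2⟩, k3⟩
      have k4 : h v = a := k3
      exact ⟨⟨⟨k1, by omega, by omega⟩, k2⟩, k1, by omega, by omega⟩
  rw [e]
  exact H.lnk σ ⟨⟨z, hz⟩, fun u hu => (p u hu).1, hσ.2.2⟩ (a - 1) a (by omega) (by omega)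
    (fun u hu => (p u hu).2) (by omega)

theorem Ht.pe {h : V → ℤ} {N : ℤ} (H : Ht G A h N) {a b a' b' : ℤ} (h0 : 0 ≤ b) (hN : a ≤ N)
    (hab : a ≤ b) (ha : a' = a ∨ (1 ≤ a' ∧ a' ≤ a)) (hb : b' = b ∨ (b ≤ b' ∧ b' + 1 ≤ N)) :
    PE G (slab A h a b) G (slab A h a' b') id := by
  have k1 : ∀ c, b ≤ c → c + 1 ≤ N → PE G (slab A h a b) G (slab A h a c) id := fun c hc => by
    induction c, hc using Int.leInduction with
    | base => exact fun _ => PE.id'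
    | succ c hc ih =>
      exact fun k => (up_Ha H (by omega) (by omega) (by omega)).comp (ih (by omega))
  have k2 : ∀ c, c ≤ a → 1 ≤ c → PE G (slab A h a b') G (slab A h c b') id := fun c hc => by
    induction c, hc using Int.leInductionDown with
    | base => exact fun _ => PE.id'
    | pred c hc ih =>
      exact fun k => (down_Ha H (by omega) (by omega) (by omega)).comp (ih (by omega))
  have p1 : PE G (slab A h a b) G (slab A h a b') id := by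
    rcases hb with rfl | e
    exacts [PE.id', k1 _ e.1 e.2]
  have p2 : PE G (slab A h a b') G (slab A h a' b') id := by
    rcases ha with rfl | e
    exacts [PE.id', k2 _ e.2 e.1]
  exact p2.comp p1

end Pool.Agent.MP_6374aa_g

end

section

/-! Levels of the model. -/

namespace Pool.Agent.MP_6374aa_g

open Pool.Agent.MP_6374aa_gt Classical

variable {V V' V'' : Type} {G : SimpleGraph V} {G' : SimpleGraph V'} {G'' : SimpleGraph V''}
  {A : Set V} {A' : Set V'} {A'' : Set V''} {L : Type} [Group L]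

theorem UL.extl {ρ : V → V → L} {Y1 Y2 : Set V} (h1 : UL G Y1 ρ) (h2 : Flat G Y2 ρ)
    (h : Y1 ⊆ Y2) : Extl G Y1 Y2 := by
  refine ⟨h, fun L' _ lab hl => ?_⟩
  obtain ⟨T, k, hk⟩ := h1.dom L' lab hl
  exact ⟨fun u w => k u * T (ρ u w) * (k w)⁻¹, (h2.map T).gauge k,
    fun u hu w hw a => (hk u hu w hw a).symm⟩

variable {h : V → ℤ} {N : ℤ} {ρ : V → V → L} {Nm Np : Subgroup L}

theorem LvP.two_le (H : LvP G A h N ρ Nm Np) : 2 ≤ N := by
  obtain ⟨v, -, h1, h2⟩ := H.ul.con.1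
  omega

theorem slab_sub_Hb (A : Set V) (h : V → ℤ) (a b : ℤ) : slab A h a b ⊆ A := fun _ hv => hv.1

theorem slab_mono_Hb (A : Set V) (h : V → ℤ) {a b a' b' : ℤ} (ha : a' ≤ a) (hb : b ≤ b') :
    slab A h a b ⊆ slab A h a' b' := fun _ hv => ⟨hv.1, ha.trans hv.2.1, hv.2.2.trans hb⟩

theorem pk_pe_Hb [Nonempty V] {O : Set V} (hO : O ⊆ A) : PE (sG V) (nb G A O) G O (pk O) := by
  have := nb_pe (G := G) (A := A) (Q := O) (π := pk O)
    fun s hs => ⟨pk_mem O hs.1.1, pk_mem_B hs.2⟩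
  rwa [Set.inter_eq_right.2 hO] at this

theorem kill_nb_Hb [Nonempty V] {O Y : Set V} (hO : O ⊆ Y) (hY : Y ⊆ A) {M : Subgroup L}
    (hk : Kill G O Y ρ M) : Kill (sG V) (nb G A O) (nb G A Y) (pull (pk O) ρ) M := by
  intro r l hw hm
  rw [ev_pull] at hm
  have h1 := hk _ _ (hw.map (pk_pe_Hb (hO.trans hY)).hom) hm
  have hsub : nb G A O ⊆ nb G A Y := fun s hs => ⟨hs.1, by
    obtain ⟨v, hv, hv'⟩ := hs.2
    exact ⟨v, hv, hO hv'⟩⟩
  have hpe := nb_pe (G := G) (A := A) (Q := Y)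
    (π := fun s => if Meets s O then pk O s else pk Y s) fun s hs => by
      by_cases hm : Meets s O
      · rw [if_pos hm]
        exact ⟨pk_mem O hs.1.1, hO (pk_mem_B hm)⟩
      · rw [if_neg hm]
        exact ⟨pk_mem Y hs.1.1, pk_mem_B hs.2⟩
  rw [Set.inter_eq_right.2 hY] at hpe
  refine hpe.null (hw.mono hsub) ?_
  have e1 : (l.map fun s => if Meets s O then pk O s else pk Y s) = l.map (pk O) :=
    List.map_congr_left fun s hs => if_pos (hw.mem_list s hs).2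
  have e2 : (if Meets r O then pk O r else pk Y r) = pk O r := if_pos hw.mem_left.2
  rw [e1, e2]
  exact h1

theorem LvP.sd (H : LvP G A h N ρ Nm Np) :
    ∃ ρ' : Finset V → Finset V → L, LvP (sG V) (sA G A) (hmx h) (2 * N) ρ' Nm Np := by
  obtain ⟨v0, -⟩ := H.ul.con.1
  have : Nonempty V := ⟨v0⟩
  have h2 := H.two_le
  have hr := H.ht.sd.rng
  have e1 : slab (sA G A) (hmx h) 1 (2 * N - 1) = nb G A (slab A h 1 (N - 1)) := by
    rw [← H.ht.slab_sd (by omega)]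
    congr 1
    ring
  have e2 : slab (sA G A) (hmx h) 0 (2 * N - 1) = nb G A (slab A h 0 (N - 1)) := by
    rw [← H.ht.slab_sd (by omega)]
    ext s
    constructor
    · rintro ⟨a, b, c⟩
      exact ⟨a, by omega, by omega⟩
    · rintro ⟨a, b, c⟩
      exact ⟨a, (hr s a).1, by omega⟩
  have e3 : slab (sA G A) (hmx h) 1 (2 * N) = nb G A (slab A h 1 N) := by
    rw [← H.ht.slab_sd (by omega)]
    ext s
    constructor
    · rintro ⟨a, b, c⟩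
      exact ⟨a, by omega, by omega⟩
    · rintro ⟨a, b, c⟩
      exact ⟨a, by omega, (hr s a).2⟩
  refine ⟨pull (pk (slab A h 1 (N - 1))) ρ, H.cl.sd le_rfl, H.ht.sd, ?_, ?_, ?_⟩
  · rw [e1]
    exact H.ul.pull (pk_pe_Hb (slab_sub_Hb _ _ _ _))
  · rw [e1, e2]
    exact kill_nb_Hb (slab_mono_Hb _ _ (by omega) le_rfl) (slab_sub_Hb _ _ _ _) H.km
  · rw [e1, e3]
    exact kill_nb_Hb (slab_mono_Hb _ _ le_rfl (by omega)) (slab_sub_Hb _ _ _ _) H.kp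

theorem ind_Hb (Hi : Set V) {s : Finset V} (hs : s.Nonempty) :
    (hmx (fun v => if v ∈ Hi then (0 : ℤ) else 1) s ≤ 1 ↔ Meets s Hi) ∧
      (1 ≤ hmx (fun v => if v ∈ Hi then (0 : ℤ) else 1) s ↔ ∃ x ∈ s, x ∉ Hi) := by
  obtain ⟨u, hu, w, hw, e, hx⟩ := hmx_spec (fun v => if v ∈ Hi then (0 : ℤ) else 1) hs
  rw [e]
  refine ⟨⟨fun h => ?_, ?_⟩, ⟨fun h => ?_, ?_⟩⟩
  · by_cases h1 : u ∈ Hi
    · exact ⟨u, hu, h1⟩
    · by_cases h2 : w ∈ Hi
      · exact ⟨w, hw, h2⟩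
      · simp [h1, h2] at h
  · rintro ⟨x, hxs, hxH⟩
    have := (hx x hxs).1
    simp only [if_pos hxH] at this
    split_ifs at this ⊢ <;> omega
  · by_cases h1 : u ∈ Hi
    · by_cases h2 : w ∈ Hi
      · simp [h1, h2] at h
      · exact ⟨w, hw, h2⟩
    · exact ⟨u, hu, h1⟩
  · rintro ⟨x, hxs, hxH⟩
    have := (hx x hxs).2
    simp only [if_neg hxH] at this
    split_ifs at this ⊢ <;> omega

theorem lvp_init {Hi : Set V} (h2 : Cl G 3 A) {ρ : Finset V → Finset V → L}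
    (hρ : UL (sG V) (fr G A Hi) ρ) (km : Kill (sG V) (fr G A Hi) (nb G A Hi) ρ Nm)
    (kp : Kill (sG V) (fr G A Hi) (nb G A (A \ Hi)) ρ Np) :
    ∃ h : Finset V → ℤ, LvP (sG V) (sA G A) h 2 ρ Nm Np := by
  have H0 : Ht G A (fun v => if v ∈ Hi then (0 : ℤ) else 1) 1 := by
    refine ⟨fun u _ w _ _ => ?_, fun u _ => ?_, fun σ _ a b h1 h2 => ?_⟩
    · split_ifs <;> omega
    · split_ifs <;> omega
    · omega
  have H1 : Ht (sG V) (sA G A) (hmx fun v => if v ∈ Hi then (0 : ℤ) else 1) 2 := H0.sd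
  have hr := H1.rng
  have e1 : slab (sA G A) (hmx fun v => if v ∈ Hi then (0 : ℤ) else 1) 1 (2 - 1) =
      fr G A Hi := by
    ext s
    constructor
    · rintro ⟨a, b, c⟩
      obtain ⟨x, hx, hx'⟩ := (ind_Hb Hi a.1).2.1 b
      exact ⟨a, (ind_Hb Hi a.1).1.1 c, fun hh => hx' (hh hx)⟩
    · rintro ⟨a, b, c⟩
      obtain ⟨x, hx, hx'⟩ := Set.not_subset.1 c
      exact ⟨a, (ind_Hb Hi a.1).2.2 ⟨x, hx, hx'⟩, (ind_Hb Hi a.1).1.2 b⟩
  have e2 : slab (sA G A) (hmx fun v => if v ∈ Hi then (0 : ℤ) else 1) 0 (2 - 1) =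
      nb G A Hi := by
    ext s
    constructor
    · rintro ⟨a, -, c⟩
      exact ⟨a, (ind_Hb Hi a.1).1.1 c⟩
    · rintro ⟨a, b⟩
      exact ⟨a, (hr s a).1, (ind_Hb Hi a.1).1.2 b⟩
  have e3 : slab (sA G A) (hmx fun v => if v ∈ Hi then (0 : ℤ) else 1) 1 2 =
      nb G A (A \ Hi) := by
    ext s
    constructor
    · rintro ⟨a, b, -⟩
      obtain ⟨x, hx, hx'⟩ := (ind_Hb Hi a.1).2.1 b
      exact ⟨a, x, hx, a.2.1 hx, hx'⟩
    · rintro ⟨a, x, hx, -, hx'⟩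
      exact ⟨a, (ind_Hb Hi a.1).2.2 ⟨x, hx, hx'⟩, (hr s a).2⟩
  refine ⟨_, h2.sd le_rfl, H1, ?_, ?_, ?_⟩
  · rw [e1]
    exact hρ
  · rw [e1, e2]
    exact km
  · rw [e1, e3]
    exact kp

theorem LvP.ul' (H : LvP G A h N ρ Nm Np) {a b : ℤ} (ha : 1 ≤ a) (hab : a ≤ b) (hb : b + 1 ≤ N) :
    UL G (slab A h a b) ρ := by
  exact H.ul.pull (H.ht.pe (a := a) (b := b) (a' := 1) (b' := N - 1) (by omega) (by omega) hab
    (Or.inr ⟨le_rfl, ha⟩) (Or.inr ⟨by omega, by omega⟩))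

theorem LvP.killm (H : LvP G A h N ρ Nm Np) {b : ℤ} (h1 : 1 ≤ b) (h2 : b + 1 ≤ N) :
    Kill G (slab A h b b) (slab A h 0 b) ρ Nm := by
  intro r l hw hm
  have h3 := H.km r l (hw.mono (slab_mono_Hb _ _ h1 (by omega))) hm
  have hp := H.ht.pe (a := 0) (b := b) (a' := 0) (b' := N - 1) (by omega) (by omega) (by omega)
    (Or.inl rfl) (Or.inr ⟨by omega, by omega⟩)
  refine hp.null (hw.mono (slab_mono_Hb _ _ (by omega) le_rfl)) ?_
  rw [List.map_id]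
  exact h3

theorem LvP.killp (H : LvP G A h N ρ Nm Np) {b : ℤ} (h1 : 1 ≤ b) (h2 : b + 1 ≤ N) :
    Kill G (slab A h b b) (slab A h b N) ρ Np := by
  intro r l hw hm
  have h3 := H.kp r l (hw.mono (slab_mono_Hb _ _ h1 (by omega))) hm
  have hp := H.ht.pe (a := b) (b := N) (a' := 1) (b' := N) (by omega) (by omega) (by omega)
    (Or.inr ⟨le_rfl, h1⟩) (Or.inl rfl)
  refine hp.null (hw.mono (slab_mono_Hb _ _ le_rfl (by omega))) ?_
  rw [List.map_id]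
  exact h3

end Pool.Agent.MP_6374aa_g

end

section

/-! Convex sets of chambers and their bounding walls. -/

namespace Pool.Agent.MP_6374aa_g

open Pool.Agent.MP_6374aa_gt Classical

variable {V : Type} {Γ : SimpleGraph V}

theorem exists_med (x y z : W Γ) : ∃ m, IsMed x y z m := by
  obtain ⟨m, hm⟩ := meet_RA2 (x⁻¹ * y) (x⁻¹ * z)
  refine ⟨x * m, fun t ht => ?_⟩
  have h := hm _ (ht.conj x⁻¹)
  have e := plus_conj ht x⁻¹ (x * m)
  rw [inv_mul_cancel_left] at e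
  rw [e, plus_conj ht, plus_conj ht, inv_inv] at h
  tauto

theorem nn_Ra {a b : Prop} (h : a ↔ ¬ b) : ¬ (a ↔ b) := fun c => iff_not_self (c.symm.trans h)

theorem maj_Ra {a b c m q : Prop} (h : m ↔ (a ∧ b) ∨ (a ∧ c) ∨ (b ∧ c)) (hb : b ↔ q)
    (hc : c ↔ q) : m ↔ q := by
  tauto

theorem ext_Ra {x y : W Γ} (h : ∀ t, IsRefl t → (Plus t x ↔ Plus t y)) : x = y := by
  by_contra e
  obtain ⟨v, -, hv⟩ := sep_RA2 e
  exact nn_Ra hv (h _ (refl_RA2 y v)).symm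

theorem adj_of_one_wall {m m' u : W Γ} (hu : IsRefl u) (h1 : ¬ (Plus u m ↔ Plus u m'))
    (h2 : ∀ t, IsRefl t → t ≠ u → (Plus t m ↔ Plus t m')) :
    ∃ v, m' = m * sg Γ v ∧ u = m * sg Γ v * m⁻¹ := by
  obtain ⟨v, -, hv⟩ := sep_RA2 (x := m') (y := m) fun e => h1 (by rw [e])
  have e : u = m * sg Γ v * m⁻¹ := by
    by_contra e
    exact nn_Ra hv (h2 _ (refl_RA2 m v) (Ne.symm e))
  refine ⟨v, ext_Ra fun t ht => ?_, e⟩
  by_cases k : t = u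
  · rw [k, e, plus_edge_RA3, ← e]
    tauto
  · rw [plus_ne_RA3 ht (e ▸ k), h2 t ht k]

/-- The median of a chamber next to a wall, a chamber on the same side and a chamber on the
other side is next to the wall. -/
theorem med_adj {a b z u : W Γ} {v : V} (hu : u = a * sg Γ v * a⁻¹) (hb : Plus u b ↔ Plus u a)
    (hz : ¬ (Plus u z ↔ Plus u a)) : ∃ m v', IsMed a b z m ∧ u = m * sg Γ v' * m⁻¹ := by
  obtain ⟨m, hm⟩ := exists_med a b z
  obtain ⟨m', hm'⟩ := exists_med (a * sg Γ v) b z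
  have hr : IsRefl u := ⟨a, v, hu⟩
  have e : Plus u (a * sg Γ v) ↔ ¬ Plus u a := hu ▸ plus_edge_RA3 a v
  obtain ⟨v', -, h⟩ := adj_of_one_wall (m := m) (m' := m') hr
    (by rw [hm u hr, hm' u hr, e]; tauto)
    fun t ht k => by rw [hm t ht, hm' t ht, plus_ne_RA3 ht (hu ▸ k)]
  exact ⟨m, v', hm, h⟩

theorem Cvx.mem_of {E : Set (W Γ)} (hE : Cvx E) {d w : W Γ} (hd : d ∈ E)
    (h : ∀ t ∈ bw E, (Plus t w ↔ Plus t d)) : w ∈ E := by
  induction hn : len Γ (w⁻¹ * d) using Nat.strong_induction_on generalizing d with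
  | _ n ih =>
  subst hn
  by_cases h0 : w = d
  · exact h0 ▸ hd
  obtain ⟨v, h1, h2⟩ := sep_RA2 h0
  have h3 : d * sg Γ v ∈ E := by
    by_contra h3
    exact nn_Ra h2 (h _ ⟨d, hd, v, h3, rfl⟩).symm
  exact ih _ h1 h3 (fun t ht => (h t ht).trans (hE.2.2 t ht d hd _ h3)) rfl

theorem Cvx.med {E : Set (W Γ)} (hE : Cvx E) {a b z m : W Γ} (ha : a ∈ E) (hb : b ∈ E)
    (h : IsMed a b z m) : m ∈ E := by
  refine hE.mem_of ha fun t ht => ?_
  have := hE.2.2 t ht a ha b hb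
  rw [h t (refl_bw_RA3 ht)]
  tauto

theorem Good.cvx {D : Set (W Γ)} (hD : Good D) : Cvx D := by
  exact ⟨hD.1, ⟨1, hD.2.1⟩, fun t ht d hd d' hd' =>
    iff_of_false (hD.2.2 t ht d hd) (hD.2.2 t ht d' hd')⟩

theorem Cvx.good {E : Set (W Γ)} (hE : Cvx E) (h : 1 ∈ E) : Good E := by
  exact ⟨hE.1, h, fun t ht d hd k => not_plus_one t ((hE.2.2 t ht d hd 1 h).1 k)⟩

/-- One of the two halves. -/
def hf_Ra (E : Set (W Γ)) (t : W Γ) (p : Prop) : Set (W Γ) := E ∩ {w | Plus t w ↔ p}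

theorem hf_true_Ra (E : Set (W Γ)) (t : W Γ) : hf_Ra E t True = E ∩ {w | Plus t w} := by
  simp [hf_Ra]

theorem hf_false_Ra (E : Set (W Γ)) (t : W Γ) : hf_Ra E t False = E ∩ {w | ¬ Plus t w} := by
  simp [hf_Ra]

theorem four_Ra {t u a b c d : W Γ} (ht : IsRefl t) (hu : IsRefl u) (h1 : Plus t b ↔ Plus t a)
    (h2 : ¬ (Plus u b ↔ Plus u a)) (h3 : ¬ (Plus t c ↔ Plus t a)) (h4 : Plus u c ↔ Plus u a)
    (h5 : ¬ (Plus t d ↔ Plus t a)) (h6 : ¬ (Plus u d ↔ Plus u a)) : (cross Γ).Adj t u := by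
  by_cases p : Plus t a <;> by_cases q : Plus u a <;>
    simp only [p, q, iff_true, iff_false, not_not] at h1 h2 h3 h4 h5 h6
  · exact cross_of_quadrants ht hu ⟨a, p, q⟩ ⟨b, h1, h2⟩ ⟨c, h3, h4⟩
  · exact cross_of_quadrants ht hu ⟨b, h1, h2⟩ ⟨a, p, q⟩ ⟨d, h5, h6⟩
  · exact cross_of_quadrants ht hu ⟨c, h3, h4⟩ ⟨d, h5, h6⟩ ⟨a, p, q⟩
  · exact cross_of_quadrants ht hu ⟨d, h5, h6⟩ ⟨c, h3, h4⟩ ⟨b, h1, h2⟩

section

variable {E : Set (W Γ)} {t u a b w : W Γ} {p q : Prop}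

theorem sub_Ra (ht : IsRefl t) (h : u ∈ bw (hf_Ra E t p)) : u = t ∨ u ∈ bw E := by
  obtain ⟨d, hd, v, h1, rfl⟩ := h
  refine or_iff_not_imp_left.2 fun e => ⟨d, hd.1, v, fun k => h1 ⟨k, ?_⟩, rfl⟩
  exact (plus_ne_RA3 ht (Ne.symm e)).trans hd.2

theorem cover_Ra (t : W Γ) (h : u ∈ bw E) :
    u ∈ bw (hf_Ra E t False) ∪ bw (hf_Ra E t True) := by
  obtain ⟨d, hd, v, h1, rfl⟩ := h
  by_cases k : Plus t d
  · exact Or.inr ⟨d, ⟨hd, iff_true_intro k⟩, v, fun e => h1 e.1, rfl⟩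
  · exact Or.inl ⟨d, ⟨hd, iff_false_intro k⟩, v, fun e => h1 e.1, rfl⟩

theorem cvx_Ra (hE : Cvx E) (ht : IsRefl t) (ha : a ∈ hf_Ra E t p) : Cvx (hf_Ra E t p) := by
  refine ⟨hE.1.inter_of_left _, ⟨a, ha⟩, fun u hu d hd d' hd' => ?_⟩
  rcases sub_Ra ht hu with rfl | k
  · exact Iff.trans hd.2 (Iff.symm hd'.2)
  · exact hE.2.2 u k d hd.1 d' hd'.1

theorem self_Ra (hE : Cvx E) (ht : IsRefl t) (hpq : ¬ (p ↔ q)) (ha : a ∈ hf_Ra E t p)
    (hb : b ∈ hf_Ra E t q) : t ∈ bw (hf_Ra E t p) := by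
  by_contra h
  have := (cvx_Ra hE ht ha).mem_of (w := b) ha fun u hu =>
    hE.2.2 u ((sub_Ra ht hu).resolve_left fun e => h (e ▸ hu)) b hb.1 a ha.1
  exact hpq (Iff.trans (Iff.symm this.2) hb.2)

theorem far_Ra (hE : Cvx E) (ht : IsRefl t) (hpq : ¬ (p ↔ q)) (hb : b ∈ hf_Ra E t q)
    (hu : u ∈ bw (hf_Ra E t p)) (e : u ≠ t) (hn : ¬ (cross Γ).Adj t u)
    (hw : ¬ (Plus u w ↔ Plus u b)) : Plus t w ↔ p := by
  have k := (sub_Ra ht hu).resolve_left e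
  obtain ⟨d, hd, v, -, rfl⟩ := hu
  have k1 := hE.2.2 _ k b hb.1 d hd.1
  have k2 : Plus t d ↔ p := hd.2
  have k3 : Plus t b ↔ q := hb.2
  have k4 := plus_edge_RA3 d v
  by_contra h
  exact hn (four_Ra (a := d) (b := d * sg Γ v) (c := b) (d := w) ht (refl_RA2 d v)
    (plus_ne_RA3 ht e.symm) (nn_Ra k4)
    (fun c => hpq (k2.symm.trans (c.symm.trans k3))) k1 (fun c => h (c.trans k2))
    fun c => hw (c.trans k1.symm))

theorem both_Ra (hE : Cvx E) (ht : IsRefl t) (hpq : ¬ (p ↔ q)) (h1 : u ∈ bw (hf_Ra E t p))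
    (h2 : u ∈ bw (hf_Ra E t q)) (e : u ≠ t) : (cross Γ).Adj t u := by
  by_contra hn
  obtain ⟨d, hd, v, -, rfl⟩ := h2
  have k4 := plus_edge_RA3 d v
  have k := far_Ra hE ht hpq hd h1 e hn (nn_Ra k4)
  rw [plus_ne_RA3 ht e.symm] at k
  exact hpq (k.symm.trans hd.2)

theorem over_Ra (hE : Cvx E) (ht : IsRefl t) (hb : b ∈ hf_Ra E t q)
    (hu : u ∈ bw (hf_Ra E t p)) (h : (cross Γ).Adj t u) : u ∈ bw (hf_Ra E t q) := by
  have k := (sub_Ra ht hu).resolve_left h.ne'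
  obtain ⟨a, ha, v, -, e⟩ := hu
  obtain ⟨z, z1, z2⟩ := exists_quadrant ht (refl_bw_RA3 k) h q (¬ Plus u a)
  obtain ⟨m, v', hm, e'⟩ := med_adj (z := z) e (hE.2.2 u k b hb.1 a ha.1) (nn_Ra z2)
  have hmE := hE.med ha.1 hb.1 hm
  refine ⟨m, ⟨hmE, maj_Ra (hm t ht) hb.2 z1⟩, v', fun c => ?_, e'⟩
  have k6 : Plus u (m * sg Γ v') ↔ ¬ Plus u m := e' ▸ plus_edge_RA3 m v'
  exact nn_Ra k6 (hE.2.2 u k _ c.1 m hmE)

end

theorem Cvx.cut {E : Set (W Γ)} (hE : Cvx E) {t : W Γ} (ht : IsRefl t) (h1 : ∃ d ∈ E, Plus t d)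
    (h2 : ∃ d ∈ E, ¬ Plus t d) :
    Cvx (E ∩ {w | ¬ Plus t w}) ∧ Cvx (E ∩ {w | Plus t w}) ∧
      Graft (cross Γ) (bw (E ∩ {w | ¬ Plus t w})) (bw (E ∩ {w | Plus t w})) (bw E) t := by
  obtain ⟨a, ha, ha'⟩ := h1
  obtain ⟨b, hb, hb'⟩ := h2
  have hA : a ∈ hf_Ra E t True := ⟨ha, iff_true_intro ha'⟩
  have hB : b ∈ hf_Ra E t False := ⟨hb, iff_false_intro hb'⟩
  have n1 : ¬ (False ↔ True) := by simp
  have n2 : ¬ (True ↔ False) := by simp
  rw [← hf_true_Ra, ← hf_false_Ra]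
  have m1 := self_Ra hE ht n1 hB hA
  have m2 := self_Ra hE ht n2 hA hB
  refine ⟨cvx_Ra hE ht hB, cvx_Ra hE ht hA, m1, m2, ?_, ?_, ?_, ?_⟩
  · ext u
    exact ⟨fun h => ⟨over_Ra hE ht hA h.1 (h.2 t rfl), h.2⟩,
      fun h => ⟨over_Ra hE ht hB h.1 (h.2 t rfl), h.2⟩⟩
  · ext u
    constructor
    · rintro ⟨k1, k2⟩
      by_cases e : u = t
      · exact Or.inl e
      · refine Or.inr ⟨k1, ?_⟩
        rintro _ rfl
        exact both_Ra hE ht n1 k1 k2 e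
    · rintro (rfl | h)
      · exact ⟨m1, m2⟩
      · exact ⟨h.1, over_Ra hE ht hA h.1 (h.2 t rfl)⟩
  · rintro u ⟨k1, k2⟩ u' ⟨k3, k4⟩ h
    have e : u ≠ t := fun e => k2 (e ▸ m2)
    have e' : u' ≠ t := fun e => k4 (e ▸ m1)
    obtain ⟨w, w1, w2⟩ := exists_quadrant (refl_bw_RA3 k1) (refl_bw_RA3 k3) h (¬ Plus u a)
      (¬ Plus u' b)
    have f1 := far_Ra hE ht n1 hA k1 e (fun c => k2 (over_Ra hE ht hA k1 c)) (nn_Ra w1)
    have f2 := far_Ra hE ht n2 hB k3 e' (fun c => k4 (over_Ra hE ht hB k3 c)) (nn_Ra w2)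
    exact f1.1 (f2.2 trivial)
  · ext u
    constructor
    · intro h
      refine ⟨cover_Ra t h, ?_⟩
      rintro rfl
      exact hb' ((hE.2.2 _ h a ha b hb).1 ha')
    · rintro ⟨h | h, e⟩ <;> exact (sub_Ra ht h).resolve_left e

theorem Good.plus_cut {D : Set (W Γ)} (hD : Good D) {t : W Γ} (ht : IsRefl t)
    (h1 : ∃ d ∈ D, Plus t d) {x : W Γ} (hx : x ∈ bw D) {w : W Γ} (hw : Plus x w) :
    Plus (col (bw (D ∩ {w | ¬ Plus t w})) t x) w := by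
  unfold col
  split_ifs with h
  · exact hw
  rw [← hf_false_Ra] at h
  obtain ⟨a, ha, ha'⟩ := h1
  have hE := Good.cvx hD
  have hB : (1 : W Γ) ∈ hf_Ra D t False := ⟨hD.2.1, iff_false_intro (not_plus_one t)⟩
  have n2 : ¬ (True ↔ False) := by simp
  have k := (cover_Ra t hx).resolve_left h
  have k1 := not_plus_one x
  exact (far_Ra hE ht n2 hB k (fun e => hD.2.2 x hx a ha (e ▸ ha'))
    (fun c => h (over_Ra hE ht hB k c)) fun c => k1 (c.1 hw)).2 trivial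

/-- Induction over convex sets. -/
theorem Cvx.ind {P : Set (W Γ) → Prop} (h1 : ∀ d, P {d})
    (h2 : ∀ E t, Cvx E → IsRefl t → (∃ d ∈ E, Plus t d) → (∃ d ∈ E, ¬ Plus t d) →
      P (E ∩ {w | ¬ Plus t w}) → P (E ∩ {w | Plus t w}) → P E) {E : Set (W Γ)} (hE : Cvx E) : P E := by
  induction hn : E.ncard using Nat.strong_induction_on generalizing E with
  | _ n ih =>
  subst hn
  obtain ⟨d, hd⟩ := hE.2.1
  by_cases h0 : ∀ d' ∈ E, d' = d
  · rw [Set.eq_singleton_iff_unique_mem.2 ⟨hd, h0⟩]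
    exact h1 d
  push Not at h0
  obtain ⟨d', hd', e⟩ := h0
  obtain ⟨v, -, hv⟩ := sep_RA2 e
  have ht := refl_RA2 (Γ := Γ) d v
  generalize d * sg Γ v * d⁻¹ = t at hv ht
  have k : (∃ d ∈ E, Plus t d) ∧ ∃ d ∈ E, ¬ Plus t d := by
    by_cases c : Plus t d
    · exact ⟨⟨d, hd, c⟩, d', hd', hv.1 c⟩
    · exact ⟨⟨d', hd', not_not.1 fun k => c (hv.2 k)⟩, d, hd, c⟩
  obtain ⟨c1, c2, -⟩ := hE.cut ht k.1 k.2
  refine h2 E t hE ht k.1 k.2 (ih _ ?_ c1 rfl) (ih _ ?_ c2 rfl)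
  · obtain ⟨x, hx, hx'⟩ := k.1
    exact Set.ncard_lt_ncard ⟨Set.inter_subset_left, fun c => (c hx).2 hx'⟩ hE.1
  · obtain ⟨x, hx, hx'⟩ := k.2
    exact Set.ncard_lt_ncard ⟨Set.inter_subset_left, fun c => hx' (c hx).2⟩ hE.1

theorem iso_bw_single (d : W Γ) :
    IsIso Γ Set.univ (cross Γ) (bw {d}) fun v => d * sg Γ v * d⁻¹ := by
  have inj : ∀ x y : W Γ, d * x * d⁻¹ = d * y * d⁻¹ → x = y := fun x y h =>
    mul_left_cancel (mul_right_cancel h)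
  refine ⟨⟨fun v _ => ⟨d, rfl, v, fun e => sg_ne_one v (mul_eq_left.1 e), rfl⟩,
    fun a _ b _ h => sg_injective (inj _ _ h), ?_⟩, fun a _ b _ => ?_⟩
  · rintro _ ⟨d', rfl, v, -, rfl⟩
    exact ⟨v, trivial, rfl⟩
  · change _ ↔ _ ≠ _ ∧ _ * _ = _ * _
    simp only [conj_mul]
    refine ⟨fun h => ⟨fun h1 => h.ne (sg_injective (inj _ _ h1)), by rw [sg_comm (Or.inr h)]⟩,
      fun h => ?_⟩
    rcases adq_of_sg_comm (inj _ _ h.2) with rfl | h1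
    · exact absurd rfl h.1
    · exact h1

theorem Cvx.isSum {E : Set (W Γ)} (hE : Cvx E) : IsSum (cross Γ) (fun d => bw {d}) (bw E) E := by
  refine Cvx.ind (P := fun E => IsSum (cross Γ) (fun d => bw {d}) (bw E) E) (fun d => IsSum.one d)
    (fun E t hE ht h1 h2 k1 k2 => ?_) hE
  have e : E ∩ {w | ¬ Plus t w} ∪ E ∩ {w | Plus t w} = E := by
    ext w
    simp only [Set.mem_union, Set.mem_inter_iff, Set.mem_ofPred_eq]
    tauto
  have := IsSum.sum k1 k2 (hE.cut ht h1 h2).2.2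
  rwa [e] at this

end Pool.Agent.MP_6374aa_g

end

section

/-! The subdivision of a collapse is a collapse. -/

namespace Pool.Agent.MP_6374aa_g

open Pool.Agent.MP_6374aa_gt Classical

variable {V V' V'' : Type} {G : SimpleGraph V} {G' : SimpleGraph V'} {G'' : SimpleGraph V''}
  {A : Set V} {A' : Set V'} {A'' : Set V''} {L : Type} [Group L]

theorem mem_fib_Kb {c : V' → V} {σ : Finset V} {s : Finset V'} :
    s ∈ fib G' A' c σ ↔ s ∈ sA G' A' ∧ (∀ v ∈ s, c v ∈ σ) ∧ ∀ y ∈ σ, ∃ v ∈ s, c v = y := by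
  refine and_congr_right fun _ => ⟨fun h => ?_, fun h => ?_⟩
  · subst h
    exact ⟨fun v hv => Finset.mem_image_of_mem c hv, fun y hy => Finset.mem_image.1 hy⟩
  · ext y
    rw [Finset.mem_image]
    exact ⟨fun ⟨v, hv, e⟩ => e ▸ h.1 v hv, h.2 y⟩

/-- Chains in `Q` that lie over `S` and are standard from the level `n` on. -/
structure Ch_Kb (S : Finset (Finset V)) (Q : Set (Finset V')) (φ : Finset V' → Finset V)
    (a : Finset V → Finset V') (n : ℕ) (X : Finset (Finset V')) : Prop where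
  mem : ∀ s ∈ X, s ∈ Q ∧ φ s ∈ S
  chain : ∀ s ∈ X, ∀ t ∈ X, s ⊆ t ∨ t ⊆ s
  onto : ∀ ξ ∈ S, ∃ s ∈ X, φ s = ξ
  std : ∀ s ∈ X, n ≤ (φ s).card → s = a (φ s)

theorem low_Kb {S : Finset (Finset V)} (hS : ∀ ξ ∈ S, ∀ η ∈ S, ξ ⊆ η ∨ η ⊆ ξ)
    {Q : Set (Finset V')} {φ : Finset V' → Finset V} {a : Finset V → Finset V'}
    (h1 : ∀ ξ ∈ S, a ξ ∈ Q ∧ φ (a ξ) = ξ) (h2 : ∀ s ∈ Q, ∀ ξ ∈ S, φ s ⊆ ξ → s ⊆ a ξ) (n : ℕ) :
    Con (sG (Finset V')) {X | Ch_Kb S Q φ a n X} ∧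
      SCo (sG (Finset V')) {X | Ch_Kb S Q φ a n X} := by
  have mono : ∀ ξ ∈ S, ∀ η ∈ S, ξ ⊆ η → a ξ ⊆ a η := fun ξ hξ η hη h =>
    h2 _ (h1 ξ hξ).1 η hη (by rwa [(h1 ξ hξ).2])
  induction n with
  | zero =>
    refine cone_sco (a := S.image a) ⟨fun s hs => ?_, fun s hs t ht => ?_, fun ξ hξ => ?_,
      fun s hs _ => ?_⟩ fun X hX => Or.inl ?_
    · obtain ⟨ξ, hξ, rfl⟩ := Finset.mem_image.1 hs
      exact ⟨(h1 ξ hξ).1, by rwa [(h1 ξ hξ).2]⟩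
    · obtain ⟨ξ, hξ, rfl⟩ := Finset.mem_image.1 hs
      obtain ⟨η, hη, rfl⟩ := Finset.mem_image.1 ht
      exact (hS ξ hξ η hη).imp (mono ξ hξ η hη) (mono η hη ξ hξ)
    · exact ⟨_, Finset.mem_image_of_mem a hξ, (h1 ξ hξ).2⟩
    · obtain ⟨ξ, hξ, rfl⟩ := Finset.mem_image.1 hs
      rw [(h1 ξ hξ).2]
    · ext s
      rw [Finset.mem_image]
      refine ⟨?_, fun hs => ⟨_, (hX.mem s hs).2, (hX.std s hs (Nat.zero_le _)).symm⟩⟩
      rintro ⟨ξ, hξ, rfl⟩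
      obtain ⟨s, hs, rfl⟩ := hX.onto ξ hξ
      rwa [← hX.std s hs (Nat.zero_le _)]
  | succ n ih =>
    obtain ⟨r, hr⟩ : ∃ r : Finset (Finset V') → Finset (Finset V'),
        ∀ X s, s ∈ r X ↔ s ∈ X ∨ ∃ ξ ∈ S, ξ.card = n ∧ a ξ = s :=
      ⟨fun X => X ∪ (S.filter fun ξ => ξ.card = n).image a, fun X s => by
        simp only [Finset.mem_union, Finset.mem_image, Finset.mem_filter, and_assoc]⟩
    have up := (ret_up (P := {X | Ch_Kb S Q φ a (n + 1) X})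
      (P0 := {X | Ch_Kb S Q φ a (n + 1) X ∧ ∀ ξ ∈ S, ξ.card = n → a ξ ∈ X}) (r := r)
      (fun _ h => h.1) (fun X hX => ⟨?_, fun s hs => (hr X s).2 (Or.inl hs)⟩)
      (fun X _ Y _ h s hs => (hr Y s).2 (((hr X s).1 hs).imp_left fun k => h k)) fun X hX => ?_).1
    · have down := (ret_down
        (P := {X | Ch_Kb S Q φ a (n + 1) X ∧ ∀ ξ ∈ S, ξ.card = n → a ξ ∈ X})
        (P0 := {X | Ch_Kb S Q φ a n X})
        (r := fun X => X.filter fun s => (φ s).card = n → s = a (φ s)) (fun X hX => ?_)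
        (fun X hX => ⟨?_, Finset.filter_subset _ _⟩)
        (fun X _ Y _ h => Finset.filter_subset_filter _ h) fun X hX => ?_).1
      · exact ⟨up.con.1 (down.con.1 ih.1), up.sco.1 (down.sco.1 ih.2)⟩
      · refine ⟨⟨hX.mem, hX.chain, hX.onto, fun s hs h => hX.std s hs (by omega)⟩,
          fun ξ hξ e => ?_⟩
        obtain ⟨s, hs, rfl⟩ := hX.onto ξ hξ
        rwa [← hX.std s hs e.ge]
      · refine ⟨fun s hs => hX.1.mem s (Finset.mem_filter.1 hs).1, fun s hs t ht =>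
          hX.1.chain s (Finset.mem_filter.1 hs).1 t (Finset.mem_filter.1 ht).1, fun ξ hξ => ?_,
          fun s hs h => ?_⟩
        · by_cases e : ξ.card = n
          · exact ⟨_, Finset.mem_filter.2 ⟨hX.2 ξ hξ e, fun _ => by rw [(h1 ξ hξ).2]⟩, (h1 ξ hξ).2⟩
          · obtain ⟨s, hs, rfl⟩ := hX.1.onto ξ hξ
            exact ⟨s, Finset.mem_filter.2 ⟨hs, fun k => (e k).elim⟩, rfl⟩
        · obtain ⟨k1, k2⟩ := Finset.mem_filter.1 hs
          rcases h.eq_or_lt with e | e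
          · exact k2 e.symm
          · exact hX.1.std s k1 e
      · exact Finset.filter_true_of_mem fun s hs e => hX.std s hs e.ge
    · have key := fun s => (hr X s).1
      have cmp : ∀ s ∈ X, ∀ ξ ∈ S, ξ.card = n → s ⊆ a ξ ∨ a ξ ⊆ s := fun s hs ξ hξ e => by
        obtain ⟨k1, k2⟩ := hX.mem s hs
        by_cases k : φ s ⊆ ξ
        · exact Or.inl (h2 s k1 ξ hξ k)
        · have k3 := (hS _ k2 ξ hξ).resolve_left k
          rw [hX.std s hs (e ▸ Finset.card_lt_card ⟨k3, k⟩)]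
          exact Or.inr (mono ξ hξ _ k2 k3)
      refine ⟨⟨fun s hs => ?_, fun s hs t ht => ?_, fun ξ hξ => ?_, fun s hs h => ?_⟩,
        fun ξ hξ e => (hr X _).2 (Or.inr ⟨ξ, hξ, e, rfl⟩)⟩
      · rcases key s hs with k | ⟨ξ, hξ, -, rfl⟩
        · exact hX.mem s k
        · exact ⟨(h1 ξ hξ).1, by rwa [(h1 ξ hξ).2]⟩
      · rcases key s hs with k | ⟨ξ, hξ, e, rfl⟩ <;> rcases key t ht with k' | ⟨η, hη, e', rfl⟩
        · exact hX.chain s k t k'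
        · exact cmp s k η hη e'
        · exact (cmp t k' ξ hξ e).symm
        · exact (hS ξ hξ η hη).imp (mono ξ hξ η hη) (mono η hη ξ hξ)
      · obtain ⟨s, hs, e⟩ := hX.onto ξ hξ
        exact ⟨s, (hr X s).2 (Or.inl hs), e⟩
      · rcases key s hs with k | ⟨ξ, hξ, -, rfl⟩
        · exact hX.std s k h
        · rw [(h1 ξ hξ).2]
    · ext s
      rw [hr, or_iff_left_iff_imp]
      rintro ⟨ξ, hξ, e, rfl⟩
      exact hX.2 ξ hξ e

theorem pe_Kb (c : V' → V) {S : Finset (Finset V)} (hS : S ∈ sA (sG V) (sA G A)) :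
    PE (sG (Finset V')) (fib (sG V') (sA G' A') (Finset.image c) S) (sG V')
      (fib G' A' c (top S)) top := by
  obtain ⟨S0, S1, S2⟩ := mem_sA.1 hS
  refine qa_down (isHom_of_mono (fun X hX => ?_) fun X hX Y _ h => subset_top (h (top_mem hX.1)))
    fun s0 hs0 => ?_
  · obtain ⟨k1, k2, k3⟩ := mem_fib_Kb.1 hX
    refine ⟨k1.2.1 (top_mem k1), (subset_top (k2 _ (top_mem k1))).antisymm ?_⟩
    obtain ⟨s, hs, e⟩ := k3 _ (top_mem hS)
    exact e ▸ Finset.image_subset_image (subset_top hs)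
  · obtain ⟨k1, -, k3⟩ := mem_fib_Kb.1 hs0
    have h := low_Kb (fun ξ hξ η hη => adq_sG.1 (S2 ξ hξ η hη))
      (Q := {s | s.Nonempty ∧ s ⊆ s0}) (φ := Finset.image c)
      (a := fun ξ => s0.filter fun v => c v ∈ ξ) (fun ξ hξ => ?_)
      (fun s hs ξ _ h v hv => Finset.mem_filter.2 ⟨hs.2 hv, h (Finset.mem_image_of_mem c hv)⟩)
      ((top S).card + 1)
    · have e : {X | X ∈ fib (sG V') (sA G' A') (Finset.image c) S ∧ top X ⊆ s0} =
          {X | Ch_Kb S {s | s.Nonempty ∧ s ⊆ s0} (Finset.image c)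
            (fun ξ => s0.filter fun v => c v ∈ ξ) ((top S).card + 1) X} := by
        ext X
        constructor
        · rintro ⟨hX, h0⟩
          obtain ⟨a1, a2, a3⟩ := mem_fib_Kb.1 hX
          obtain ⟨-, a4, a5⟩ := mem_sA.1 a1
          exact ⟨fun s hs => ⟨⟨(a4 hs).1, (subset_top hs).trans h0⟩, a2 s hs⟩,
            fun s hs t ht => adq_sG.1 (a5 s hs t ht), a3, fun s hs h =>
              absurd (Finset.card_le_card (subset_top (a2 s hs))) (by omega)⟩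
        · intro hX
          obtain ⟨ξ, hξ⟩ := S0
          obtain ⟨s, hs, -⟩ := hX.onto ξ hξ
          have a1 : X ∈ sA (sG V') (sA G' A') := mem_sA.2 ⟨⟨s, hs⟩,
            fun t ht => sA_down k1 (hX.mem t ht).1.2 (hX.mem t ht).1.1,
            fun t ht u hu => adq_sG.2 (hX.chain t ht u hu)⟩
          exact ⟨mem_fib_Kb.2 ⟨a1, fun t ht => (hX.mem t ht).2, hX.onto⟩,
            (hX.mem _ (top_mem a1)).1.2⟩
      rwa [e]
    · have e : (s0.filter fun v => c v ∈ ξ).image c = ξ := by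
        ext y
        rw [Finset.mem_image]
        refine ⟨fun ⟨v, hv, e⟩ => e ▸ (Finset.mem_filter.1 hv).2, fun hy => ?_⟩
        obtain ⟨v, hv, rfl⟩ := k3 y (subset_top hξ hy)
        exact ⟨v, Finset.mem_filter.2 ⟨hv, hy⟩, rfl⟩
      exact ⟨⟨Finset.image_nonempty.1 (e.symm ▸ (S1 hξ).1), Finset.filter_subset _ _⟩, e⟩

theorem CLS.sd {c : V' → V} (hc : CLS G' A' G A c) :
    CLS (sG V') (sA G' A') (sG V) (sA G A) (Finset.image c) := by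
  refine ⟨IsHom.sd hc.hom, fun S hS => (pe_Kb c hS).con.2 (hc.con _ (hS.2.1 (top_mem hS))),
    fun S hS h => (pe_Kb c hS).sco.2 (hc.sc _ (hS.2.1 (top_mem hS)) ?_)⟩
  obtain ⟨ξ, hξ, e⟩ := Finset.exists_mem_ne h (top S)
  have h1 := Finset.card_lt_card (Finset.ssubset_iff_subset_ne.2 ⟨subset_top hξ, e⟩)
  have h2 := (hS.2.1 hξ).1.card_pos
  omega

end Pool.Agent.MP_6374aa_g

end

section

/-! The collapse of a summand. -/

namespace Pool.Agent.MP_6374aa_g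

open Pool.Agent.MP_6374aa_gt Classical

variable {V V' V'' : Type} {G : SimpleGraph V} {G' : SimpleGraph V'} {G'' : SimpleGraph V''}
  {A : Set V} {A' : Set V'} {A'' : Set V''} {L : Type} [Group L]

theorem col_in_Kc {v x : V} (h : x ∈ A) : col A v x = x := if_pos h

theorem col_out_Kc {v x : V} (h : x ∉ A) : col A v x = v := if_neg h

theorem fib_one_Kc {M B : Set V} {v : V} (h : Graft G A M B v) {σ : Finset V} (hσ : σ ∈ sA G A)
    (hv : v ∉ σ) : fib G B (col A v) σ = {σ} := by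
  have key : ∀ s : Finset V, ↑s ⊆ A → s.image (col A v) = s := fun s hs => by
    conv_rhs => rw [← Finset.image_id (s := s)]
    exact Finset.image_congr fun x hx => col_in_Kc (hs hx)
  ext s
  constructor
  · rintro ⟨-, rfl⟩
    refine (key s fun x hx => by_contra fun k => hv ?_).symm
    exact Finset.mem_image.2 ⟨x, hx, col_out_Kc k⟩
  · rintro rfl
    exact ⟨⟨hσ.1, fun x hx => h.mem_GrB3.2 ⟨Or.inl (hσ.2.1 hx), fun e => hv (e ▸ hx)⟩, hσ.2.2⟩,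
      key _ hσ.2.1⟩

theorem mem_fib_Kc {M B : Set V} {v : V} (h : Graft G A M B v) {σ : Finset V} (hσ : σ ∈ sA G A)
    (hv : v ∈ σ) {s : Finset V} : s ∈ fib G B (col A v) σ ↔ s ∈ sA G B ∧
      (∀ x ∈ s, x ∈ A → x ∈ σ.erase v) ∧ σ.erase v ⊆ s ∧ ∃ x ∈ s, x ∉ A := by
  refine and_congr_right fun hs => ⟨?_, ?_⟩
  · rintro rfl
    refine ⟨fun x hx hA => Finset.mem_erase.2 ⟨(h.mem_GrB3.1 (hs.2.1 hx)).2,
      Finset.mem_image.2 ⟨x, hx, col_in_Kc hA⟩⟩, fun y hy => ?_, ?_⟩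
    · obtain ⟨h1, h2⟩ := Finset.mem_erase.1 hy
      obtain ⟨x, hx, rfl⟩ := Finset.mem_image.1 h2
      rwa [col_in_Kc (by_contra fun k => h1 (col_out_Kc k))]
    · obtain ⟨x, hx, e⟩ := Finset.mem_image.1 hv
      exact ⟨x, hx, fun k => (h.mem_GrB3.1 (hs.2.1 hx)).2 ((col_in_Kc k).symm.trans e)⟩
  · rintro ⟨h1, h2, x, hx, h3⟩
    ext y
    rw [Finset.mem_image]
    constructor
    · rintro ⟨z, hz, rfl⟩
      by_cases k : z ∈ A
      · rw [col_in_Kc k]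
        exact Finset.mem_of_mem_erase (h1 z hz k)
      · rwa [col_out_Kc k]
    · intro hy
      by_cases e : y = v
      · exact ⟨x, hx, (col_out_Kc h3).trans e.symm⟩
      · exact ⟨y, h2 (Finset.mem_erase.2 ⟨e, hy⟩), col_in_Kc (hσ.2.1 hy)⟩

theorem fib_iso_Kc {M B : Set V} {v : V} (h : Graft G A M B v) {σ : Finset V} (hσ : σ ∈ sA G A)
    (hv : v ∈ σ) : IsIso (sG V) (fib G B (col A v) σ) (sG V)
      (sA G (Lk G M (σ.erase v : Finset V) \ A)) fun s => s \ σ.erase v := by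
  have hτ : ∀ x ∈ σ.erase v, x ∈ A := fun x hx => hσ.2.1 (Finset.mem_of_mem_erase hx)
  refine iso_of_subset_B4 (fun s hs => ?_) (fun s _ t ht => ?_) fun t ht => ?_
  · obtain ⟨h0, h1, h2, x, hx, h3⟩ := (mem_fib_Kc h hσ hv).1 hs
    refine ⟨⟨x, Finset.mem_sdiff.2 ⟨hx, fun k => h3 (hτ x k)⟩⟩, fun y hy => ?_,
      h0.2.2.subset (Finset.coe_subset.2 Finset.sdiff_subset)⟩
    obtain ⟨k1, k2⟩ := Finset.mem_sdiff.1 hy
    have k3 : y ∉ A := fun k => k2 (h1 y k1 k)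
    exact ⟨⟨(h.mem_GrB3.1 (h0.2.1 k1)).1.resolve_left k3,
      fun u hu => h0.2.2 (h2 hu) k1 fun e => k2 (e ▸ hu)⟩, k3⟩
  · refine ⟨fun k x hx => ?_, fun k => Finset.sdiff_subset_sdiff k subset_rfl⟩
    by_cases e : x ∈ σ.erase v
    · exact ((mem_fib_Kc h hσ hv).1 ht).2.2.1 e
    · exact (Finset.mem_sdiff.1 (k (Finset.mem_sdiff.2 ⟨hx, e⟩))).1
  · obtain ⟨⟨x, hx⟩, h1, h2⟩ := mem_sA.1 ht
    refine ⟨t ∪ σ.erase v, (mem_fib_Kc h hσ hv).2 ⟨mem_sA.2 ⟨⟨x, Finset.mem_union_left _ hx⟩,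
      fun y hy => ?_, fun y hy z hz => ?_⟩, fun y hy k => ?_, Finset.subset_union_right,
      x, Finset.mem_union_left _ hx, (h1 hx).2⟩, ?_⟩
    · rcases Finset.mem_union.1 hy with k | k
      · exact h.mem_GrB3.2 ⟨Or.inr (h1 k).1.1, fun e => (h1 k).2 (e ▸ h.memA)⟩
      · exact h.mem_GrB3.2 ⟨Or.inl (hτ y k), (Finset.mem_erase.1 k).1⟩
    · rcases Finset.mem_union.1 hy with k | k <;> rcases Finset.mem_union.1 hz with k' | k'
      · exact h2 y k z k'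
      · exact Or.inr ((h1 k).1.2 z k').symm
      · exact Or.inr ((h1 k').1.2 y k)
      · exact (mem_sA.1 hσ).2.2 y (Finset.mem_of_mem_erase k) z (Finset.mem_of_mem_erase k')
    · exact (Finset.mem_union.1 hy).resolve_left fun k' => (h1 k').2 k
    · exact Finset.union_sdiff_cancel_right
        (Finset.disjoint_left.2 fun y k k' => (h1 k).2 (hτ y k'))

theorem diff_eq_Kc {M B : Set V} {v : V} (h : Graft G A M B v) {Y : Set V} (hY : Y ⊆ M) :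
    Y \ A = (Y \ {v}) \ Lk G M {v} := by
  rw [← h.lk]
  ext x
  constructor
  · exact fun k => ⟨⟨k.1, fun e => k.2 (e ▸ h.memA)⟩, fun e => k.2 e.1⟩
  · refine fun k => ⟨k.1.1, fun e => ?_⟩
    have : x ∈ insert v (Lk G A {v}) := h.inter ▸ ⟨e, hY k.1.1⟩
    exact this.elim k.1.2 k.2

theorem con_out_Kc {M B : Set V} {v : V} (h : Graft G A M B v) (hM : Cl G 3 M) :
    Con G (M \ A) := by
  have h1 : Sph G 3 (Lk G M {v}) := hM.2.2.sph_lk h.memM (Set.notMem_empty v)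
  have h2 : PE G ((M \ {v}) \ Lk G M {v}) G (M \ {v}) id :=
    Mfa.rem_bd (Mf.rem hM.2.2 le_rfl v h.memM) le_rfl
      (hM.1.subset fun _ k => k.1.1) fun s hs x hx => (hs.2.1 hx).2
  rw [diff_eq_Kc h subset_rfl, h2.con]
  obtain ⟨x, hx⟩ := Cell.nonempty h1
  exact ⟨⟨x, hx.1, (hx.2 v rfl).ne'⟩, rem_one_pre hM.2.1.2 (Cell.con h1).2⟩

theorem sco_out_Kc {M B : Set V} {v : V} (h : Graft G A M B v) (hM : Cl G 3 M) {σ : Finset V}
    (hσ : σ ∈ sA G A) (hv : v ∈ σ) (hn : (σ.erase v).Nonempty) :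
    Con G (Lk G M (σ.erase v : Finset V) \ A) ∧ SCo G (Lk G M (σ.erase v : Finset V) \ A) := by
  have h0 : ∀ x ∈ σ.erase v, x ∈ Lk G M {v} := fun x hx => by
    obtain ⟨k1, k2⟩ := Finset.mem_erase.1 hx
    rw [← h.lk]
    exact ⟨hσ.2.1 k2, fun u hu => hu ▸ hσ.2.2 hv k2 k1.symm⟩
  have h1 : Clq G M (σ.erase v) :=
    ⟨fun x hx => (h0 x hx).1, hσ.2.2.subset (Finset.coe_subset.2 (Finset.erase_subset v σ))⟩
  obtain ⟨x, hx⟩ := hn
  have h2 : Sph G (3 + 1 - (σ.erase v).card) (Lk G M (σ.erase v : Finset V)) :=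
    (Mfa.link hM.2.2 h1 ⟨x, hx, (h0 x hx).1⟩).2.congr fun t _ =>
      iff_false_intro fun k => k (Finset.mem_coe.2 (Finset.mem_union_left t hx))
  have h3 : 3 + 1 - (σ.erase v).card ≤ 3 := by
    have := Finset.card_pos.2 ⟨x, hx⟩
    omega
  rw [diff_eq_Kc h (lk_subset _)]
  exact Cell.rem_bd (h2.rem h3 ⟨h.memM, fun u hu => ((h0 u hu).2 v rfl).symm⟩) h3
    fun s hs y hy => ⟨(hs.1 hy).1.1, (hs.1 hy).2.2⟩

theorem Graft.cls {M B : Set V} {v : V} (h : Graft G A M B v) (hM : Cl G 3 M) :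
    CLS G B G A (col A v) := by
  refine ⟨h.col_hom, fun σ hσ => ?_, fun σ hσ h2 => ?_⟩
  · by_cases hv : v ∈ σ
    · rw [IsIso.con (fib_iso_Kc h hσ hv), con_sA]
      rcases (σ.erase v).eq_empty_or_nonempty with e | e
      · rw [e, Finset.coe_empty, lk_empty]
        exact con_out_Kc h hM
      · exact (sco_out_Kc h hM hσ hv e).1
    · rw [fib_one_Kc h hσ hv]
      exact con_singleton σ
  · by_cases hv : v ∈ σ
    · rw [(IsIso.pe (fib_iso_Kc h hσ hv)).sco, sco_sA]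
      refine (sco_out_Kc h hM hσ hv (Finset.card_pos.1 ?_)).2
      rw [Finset.card_erase_of_mem hv]
      omega
    · rw [fib_one_Kc h hσ hv]
      exact sco_of_no_adj (by rintro _ rfl _ rfl; exact (sG V).irrefl)

theorem col_main : COL_st := by
  intro X U K A R B v f _ hR h hf
  have : Nonempty U := ⟨v⟩
  obtain ⟨g, hg, -, -⟩ := IsIso.symm' hf
  exact ⟨_, ((Graft.cls h hR).comp (IsIso.cls hg)).sd⟩

end Pool.Agent.MP_6374aa_g

end

section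

/-! The tower of the boundary. -/

namespace Pool.Agent.MP_6374aa_g

open Pool.Agent.MP_6374aa_gt Classical

variable {V : Type} {Γ : SimpleGraph V}

attribute [local instance] rayTop bdryTop

theorem exists_not_adq (h : Cl Γ 3 Set.univ) : ∃ a b, ¬ Adq Γ a b := by
  obtain ⟨a, -⟩ := h.2.1.1
  have hm : Mfa Γ 3 Set.univ (fun _ => False) Set.univ := mf_empty_iff.1 h.2.2
  obtain ⟨t, ht, -, hc, -⟩ := hm.pure (s := {a}) ⟨by simp, by simp⟩ ⟨a, by simp, trivial⟩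
  obtain ⟨s, hst, hs⟩ := Finset.exists_subset_card_eq (s := t) (n := 3) (by omega)
  have hsq : Clq Γ Set.univ s := ⟨Set.subset_univ _, ht.2.subset (Finset.coe_subset.2 hst)⟩
  obtain ⟨b, hb⟩ : s.Nonempty := Finset.card_pos.1 (by omega)
  have h1 := (hm.link hsq ⟨b, hb, trivial⟩).2
  rw [hs] at h1
  have h2 : Sph Γ 1 (Lk Γ Set.univ s) := h1
  obtain ⟨h3, h4⟩ := sph_one.1 h2
  obtain ⟨x, y, hxy, e⟩ := Set.ncard_eq_two.1 h3
  exact ⟨x, y, fun h5 => h5.elim hxy (h4 x (by rw [e]; simp) y (by rw [e]; simp))⟩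

theorem finite_Rb (h : Cl Γ 3 Set.univ) : Finite V := Set.finite_univ_iff.1 h.1

theorem fin_bw_Rb [Finite V] {D : Set (W Γ)} (hD : D.Finite) : (bw D).Finite := by
  refine ((hD.prod (Set.finite_univ (α := V))).image
    fun p => p.1 * sg Γ p.2 * p.1⁻¹).subset ?_
  rintro t ⟨d, hd, v, -, e⟩
  exact ⟨(d, v), ⟨hd, trivial⟩, e.symm⟩

theorem Cvx.cl (hΓ : Cl Γ 3 Set.univ) {E : Set (W Γ)} (hE : Cvx E) : Cl (cross Γ) 3 (bw E) := by
  refine Cvx.ind (P := fun E => Cl (cross Γ) 3 (bw E))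
    (fun d => (IsIso.cl (iso_bw_single d)).1 hΓ) ?_ hE
  intro E t hE ht h1 h2 i1 i2
  exact Graft.cl (hE.cut ht h1 h2).2.2 i1 i2

theorem nsq_bw (hΓ : Cl Γ 3 Set.univ) (hn : NoSquare Γ) (E : Set (W Γ)) : NSq (cross Γ) (bw E) := by
  have := finite_Rb hΓ
  intro a ha b hb c hc d hd h1 h2 h3 h4
  exact cross_noSquare (exists_not_adq hΓ) hn (refl_bw_RA3 ha) (refl_bw_RA3 hb) (refl_bw_RA3 hc)
    (refl_bw_RA3 hd) h1 h2 h3 h4

theorem collapse_Rb (hΓ : Cl Γ 3 Set.univ) {D : Set (W Γ)} (hD : Good D) (n : ℕ) :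
    ∀ D' : Set (W Γ), D'.ncard = n → Good D' → D ⊆ D' →
      ∃ c, CLS (cross Γ) (bw D') (cross Γ) (bw D) c ∧
        ∀ x ∈ bw D', ∀ w, Plus x w → Plus (c x) w := by
  induction n using Nat.strong_induction_on with
  | _ n ih =>
    intro D' hn hD' h
    by_cases e : D' ⊆ D
    · obtain rfl := Set.Subset.antisymm h e
      exact ⟨id, CLS.id', fun _ _ _ hw => hw⟩
    · obtain ⟨w, hw, hwD⟩ := Set.not_subset.1 e
      have h0 : ∃ t ∈ bw D, Plus t w := by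
        by_contra hc
        exact hwD (hD.mem_of fun t ht hp => hc ⟨t, ht, hp⟩)
      obtain ⟨t, ht, hp⟩ := h0
      have hr := refl_bw_RA3 ht
      have h1 : ∃ d ∈ D', Plus t d := ⟨w, hw, hp⟩
      obtain ⟨c1, c2, hg⟩ := (Good.cvx hD').cut hr h1 ⟨1, hD'.2.1, not_plus_one t⟩
      have hg1 : Good (D' ∩ {w | ¬ Plus t w}) := c1.good ⟨hD'.2.1, not_plus_one t⟩
      have hlt : (D' ∩ {w | ¬ Plus t w}).ncard < n := by
        rw [← hn]
        exact Set.ncard_lt_ncard ⟨Set.inter_subset_left, fun hs => (hs hw).2 hp⟩ hD'.1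
      obtain ⟨c, hc, hc'⟩ := ih _ hlt _ rfl hg1 fun d hd => ⟨h hd, hD.2.2 t ht d hd⟩
      have hk := Graft.cls hg (c2.cl hΓ)
      exact ⟨c ∘ col (bw (D' ∩ {w | ¬ Plus t w})) t, hc.comp hk, fun x hx z hz =>
        hc' _ (hk.hom.1 x hx) z (Good.plus_cut hD' hr h1 hx hz)⟩

theorem Good.collapse (hΓ : Cl Γ 3 Set.univ) {D D' : Set (W Γ)} (hD : Good D) (hD' : Good D')
    (h : D ⊆ D') : ∃ c, CLS (cross Γ) (bw D') (cross Γ) (bw D) c ∧
      ∀ x ∈ bw D', ∀ w, Plus x w → Plus (c x) w :=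
  collapse_Rb hΓ hD _ D' rfl hD' h

theorem shadow_mono {x t : W Γ} (h : ∀ w, Plus x w → Plus t w) : shadow x ⊆ shadow t := by
  rintro _ ⟨r, ⟨k, hk⟩, rfl⟩
  exact ⟨r, ⟨k, h _ hk⟩, rfl⟩

theorem exists_good (hΓ : Cl Γ 3 Set.univ) {F : Set (W Γ)} (hF : F.Finite) :
    ∃ D, Good D ∧ F ⊆ D := by
  have := finite_Rb hΓ
  obtain ⟨D, H, hD⟩ := exists_dseq (exists_not_adq hΓ)
  obtain ⟨R, hR⟩ := (hF.image (len Γ)).bddAbove
  obtain ⟨k, hk⟩ := hD.exh R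
  exact ⟨D k, hD.good k, fun w hw => hk w (hR ⟨w, hw, rfl⟩)⟩

theorem racg_tw (hΓ : Cl Γ 3 Set.univ) (hn : NoSquare Γ) :
    Tw (cross Γ) (bw '' {D | Good D}) (shadow (Γ := Γ)) := by
  have := finite_Rb hΓ
  have h := exists_not_adq hΓ
  refine ⟨?_, ?_, ?_⟩
  · obtain ⟨D, hD, -⟩ := exists_good hΓ Set.finite_empty
    exact ⟨_, D, hD, rfl⟩
  · rintro _ ⟨D, hD, rfl⟩
    have hD : Good D := hD
    exact ⟨fin_bw_Rb hD.1, fun t ht => isCompact_shadow h (refl_bw_RA3 ht), shadow_cover hD,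
      fun u hu w hw => ⟨adq_of_shadow h hn hD hu hw,
        shadow_meet h (refl_bw_RA3 hu) (refl_bw_RA3 hw)⟩⟩
  · rintro _ ⟨D, hD, rfl⟩ U hU hc
    have hD : Good D := hD
    obtain ⟨R, hR⟩ := shadow_mesh h U hU hc
    obtain ⟨D', hD', hs⟩ := exists_good hΓ (hD.1.union (finite_ball (Γ := Γ) R))
    obtain ⟨c, hc1, hc2⟩ := Good.collapse hΓ hD hD' (Set.subset_union_left.trans hs)
    exact ⟨_, ⟨D', hD', rfl⟩, fun v hv => hR v (refl_bw_RA3 hv) fun w hw =>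
      hD'.2.2 v hv w (hs (Or.inr hw)), c, hc1, fun v hv => shadow_mono (hc2 v hv)⟩

theorem Cvx.sumOf {E : Set (W Γ)} (hE : Cvx E) :
    SumOf ⟨V, Γ, Set.univ⟩ ⟨W Γ, cross Γ, bw E⟩ :=
  ⟨W Γ, fun d => bw {d}, E, hE.isSum, fun d => ⟨_, iso_bw_single d⟩⟩

end Pool.Agent.MP_6374aa_g

end

section

/-! The refinement map. -/

namespace Pool.Agent.MP_6374aa_g

open Pool.Agent.MP_6374aa_gt Classical

variable {V : Type} {Γ : SimpleGraph V}

theorem mem_fib_Rc {U U' : Type} {G' : SimpleGraph U'} {A' : Set U'} {c : U' → U} {σ : Finset U}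
    {s : Finset U'} : s ∈ fib G' A' c σ ↔ s ∈ sA G' A' ∧ ∀ x, x ∈ σ ↔ ∃ u ∈ s, c u = x := by
  unfold fib
  simp only [Set.mem_setOf_eq, Finset.ext_iff, Finset.mem_image]
  exact and_congr_right fun _ => forall_congr' fun _ => iff_comm

theorem mem_nad_Rc {U : Type} {G : SimpleGraph U} {σ : Finset U} {u t : U} :
    t ∈ nad G σ u ↔ t ∈ σ ∧ ¬ G.Adj t u := by
  unfold nad
  simp only [Finset.mem_filter]

theorem le_top_Rc {U : Type} {S : Finset (Finset U)} {s : Finset U} (h : s ∈ S) : s ⊆ top S := by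
  unfold top
  exact Finset.le_sup (f := id) h

theorem top_mem_Rc {U : Type} {S : Finset (Finset U)} (hS : S.Nonempty)
    (hc : (sG U).IsClique (S : Set (Finset U))) : top S ∈ S := by
  obtain ⟨s, hs, hm⟩ := S.exists_max_image Finset.card hS
  have e : top S = s := by
    refine Finset.Subset.antisymm ?_ (le_top_Rc hs)
    unfold top
    refine Finset.sup_le (f := id) fun x hx => ?_
    by_cases hxs : x = s
    · exact hxs.le
    · rcases hc (Finset.mem_coe.2 hx) (Finset.mem_coe.2 hs) hxs with h | h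
      · exact h.1
      · exact absurd (Finset.card_lt_card h) (not_lt.2 (hm x hx))
  rwa [e]

theorem fin_bw_Rc [Finite V] {D : Set (W Γ)} (hD : D.Finite) : (bw D).Finite := by
  refine ((hD.prod (Set.finite_univ (α := V))).image
    fun p => p.1 * sg Γ p.2 * p.1⁻¹).subset ?_
  rintro t ⟨d, hd, v, -, rfl⟩
  exact ⟨(d, v), ⟨hd, trivial⟩, rfl⟩

theorem mem_pw [Finite V] {D : Set (W Γ)} (hD : D.Finite) {u t : W Γ} :
    t ∈ pw D u ↔ t ∈ bw D ∧ ∀ w, Plus u w → Plus t w := by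
  unfold pw
  rw [dif_pos (fin_bw_Rc hD), Finset.mem_filter, Set.Finite.mem_toFinset]

theorem gate_Rc {u : W Γ} (hu : IsRefl u) :
    ∃ g, Plus u g ∧ ∀ w, Plus u w → ∀ t, IsRefl t → Plus t g → Plus t w := by
  obtain ⟨g, hg, hm⟩ := min_RA2 (p := Plus u) ⟨u * 1, (plus_mul_self hu 1).2 (not_plus_one u)⟩
  refine ⟨g, hg, fun w hw t ht htg => ?_⟩
  obtain ⟨m, hmm⟩ := meet_RA2 g w
  have h1 : Inv m ⊆ Inv g := fun x hx => ⟨hx.1, ((hmm x hx.1).1 hx.2).1⟩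
  have h2 : (Inv g).ncard ≤ (Inv m).ncard := by
    rw [ncard_Inv, ncard_Inv]
    exact hm m ((hmm u hu).2 ⟨hg, hw⟩)
  have h3 : Inv m = Inv g := Set.eq_of_subset_of_ncard_le h1 h2 (finite_Inv g)
  have h4 : t ∈ Inv m := by
    rw [h3]
    exact ⟨ht, htg⟩
  exact ((hmm t ht).1 h4.2).2

/-- A finite clique of walls has a common plus point. -/
theorem common_Rc (σ : Finset (W Γ)) (h1 : ∀ t ∈ σ, IsRefl t)
    (h2 : (cross Γ).IsClique (σ : Set (W Γ))) : ∃ w, ∀ t ∈ σ, Plus t w := by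
  induction σ using Finset.induction_on with
  | empty => exact ⟨1, fun t ht => absurd ht (Finset.notMem_empty t)⟩
  | insert t τ hn ih =>
    obtain ⟨w, hw⟩ := ih (fun x hx => h1 x (Finset.mem_insert_of_mem hx))
      (h2.subset (Finset.coe_subset.2 (Finset.subset_insert t τ)))
    have ht := h1 t (Finset.mem_insert_self t τ)
    by_cases hp : Plus t w
    · refine ⟨w, fun x hx => ?_⟩
      rcases Finset.mem_insert.1 hx with rfl | hx
      · exact hp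
      · exact hw x hx
    · refine ⟨t * w, fun x hx => ?_⟩
      rcases Finset.mem_insert.1 hx with rfl | hx'
      · exact (plus_mul_self ht w).2 hp
      · have hne : x ≠ t := fun e => hn (e ▸ hx')
        exact (plus_mul_of_comm (h1 x hx) ht (h2 (Finset.mem_coe.2 hx)
          (Finset.mem_coe.2 (Finset.mem_insert_self t τ)) hne) w).2 (hw x hx')

theorem common2_Rc {t u : W Γ} (ht : IsRefl t) (hu : IsRefl u) (h : Adq (cross Γ) t u) :
    ∃ w, Plus t w ∧ Plus u w := by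
  rcases h with rfl | h
  · exact ⟨t * 1, (plus_mul_self ht 1).2 (not_plus_one t), (plus_mul_self ht 1).2 (not_plus_one t)⟩
  · obtain ⟨w, h1, h2⟩ := exists_quadrant ht hu h True True
    exact ⟨w, h1.2 trivial, h2.2 trivial⟩

/-- The outer end of an edge dual to a bounding wall. -/
theorem out_Rc {D D' : Set (W Γ)} (hD : Good D) (h2 : ∀ d ∈ D, ∀ v, d * sg Γ v ∈ D') {t : W Γ}
    (ht : t ∈ bw D) : ∃ a ∈ D', ∃ v, t = a * sg Γ v * a⁻¹ ∧ Plus t a ∧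
      ∀ x ∈ bw D, x ≠ t → ¬ Plus x a := by
  obtain ⟨d, hd, v, hv, e⟩ := id ht
  refine ⟨d * sg Γ v, h2 d hd v, v, ?_, ?_, fun x hx hne => ?_⟩
  · rw [e, mul_inv_rev, sg_inv_RA1, mul_assoc d (sg Γ v) (sg Γ v), sg_mul_self, mul_one, mul_assoc]
  · have h := hD.2.2 t ht d hd
    rw [e] at h ⊢
    exact (plus_edge_RA3 d v).2 h
  · rw [plus_ne_RA3 (refl_bw_RA3 hx) (e ▸ hne)]
    exact hD.2.2 x hx d hd

theorem ne_Rc {D D' : Set (W Γ)} (hD : Good D) (hD' : Good D')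
    (h2 : ∀ d ∈ D, ∀ v, d * sg Γ v ∈ D') {u : W Γ} (hu : u ∈ bw D') : u ∉ bw D := fun h => by
  obtain ⟨a, ha, -, -, hp, -⟩ := out_Rc hD h2 h
  exact hD'.2.2 u hu a ha hp

theorem nadj_Rc [Finite V] {D : Set (W Γ)} (hD : Good D) {t u : W Γ} (hu : IsRefl u)
    (h : t ∈ pw D u) : ¬ (cross Γ).Adj t u := fun ha => by
  obtain ⟨ht, h⟩ := (mem_pw hD.1).1 h
  obtain ⟨w, h1, h2⟩ := exists_quadrant (refl_bw_RA3 ht) hu ha False True
  exact h1.1 (h w (h2.2 trivial))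

theorem adj_Rc [Finite V] {D D' : Set (W Γ)} (hD : Good D) (hD' : Good D')
    (h2 : ∀ d ∈ D, ∀ v, d * sg Γ v ∈ D') {t u w : W Γ} (ht : t ∈ bw D) (hu : u ∈ bw D')
    (h : t ∉ pw D u) (h3 : Plus t w) (h4 : Plus u w) : (cross Γ).Adj t u := by
  obtain ⟨a, ha, -, -, hp, -⟩ := out_Rc hD h2 ht
  refine cross_of_quadrants (refl_bw_RA3 ht) (refl_bw_RA3 hu) ⟨w, h3, h4⟩
    ⟨a, hp, hD'.2.2 u hu a ha⟩ ?_
  by_contra hc
  refine h ((mem_pw hD.1).2 ⟨ht, fun x hx => ?_⟩)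
  by_contra hx'
  exact hc ⟨x, hx', hx⟩

theorem pw_hom [Finite V] (h : ∃ a b, ¬ Adq Γ a b) (hn : NoSquare Γ) {D D' : Set (W Γ)}
    (hD : Good D) (hD' : Good D') (h1 : D ⊆ D') (h2 : ∀ d ∈ D, ∀ v, d * sg Γ v ∈ D') :
    IsHom (cross Γ) (bw D') (sG (W Γ)) (sA (cross Γ) (bw D)) (pw D) := by
  refine ⟨fun u hu => ?_, fun u hu u' hu' ha => ?_⟩
  · obtain ⟨g, hg, hgm⟩ := gate_Rc (refl_bw_RA3 hu)
    refine ⟨?_, fun t ht => ((mem_pw hD.1).1 (Finset.mem_coe.1 ht)).1, fun t ht t' ht' hne => ?_⟩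
    · by_contra hc
      refine hD'.2.2 u hu g (h1 (hD.mem_of fun t ht hp => hc ⟨t, ?_⟩)) hg
      exact (mem_pw hD.1).2 ⟨ht, fun w hw => hgm w hw t (refl_bw_RA3 ht) hp⟩
    · obtain ⟨a1, a2⟩ := (mem_pw hD.1).1 (Finset.mem_coe.1 ht)
      obtain ⟨b1, b2⟩ := (mem_pw hD.1).1 (Finset.mem_coe.1 ht')
      exact (hD.adq_of_plus a1 b1 (a2 g hg) (b2 g hg)).resolve_left hne
  · have key : pw D u ⊆ pw D u' ∨ pw D u' ⊆ pw D u := by
      by_contra hc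
      obtain ⟨c1, c2⟩ := not_or.1 hc
      obtain ⟨t, ht, ht'⟩ := Finset.not_subset.1 c1
      obtain ⟨t', hs, hs'⟩ := Finset.not_subset.1 c2
      obtain ⟨a1, a2⟩ := (mem_pw hD.1).1 ht
      obtain ⟨b1, b2⟩ := (mem_pw hD.1).1 hs
      obtain ⟨w, w1, w2⟩ := common2_Rc (refl_bw_RA3 hu) (refl_bw_RA3 hu') (Or.inr ha)
      have e1 : (cross Γ).Adj t t' :=
        (hD.adq_of_plus a1 b1 (a2 w w1) (b2 w w2)).resolve_left fun e => ht' (e ▸ hs)
      have e2 := adj_Rc hD hD' h2 a1 hu' ht' (a2 w w1) w2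
      have e3 := adj_Rc hD hD' h2 b1 hu hs' (b2 w w2) w1
      rcases cross_noSquare h hn (refl_bw_RA3 hu) (refl_bw_RA3 hu') (refl_bw_RA3 a1)
        (refl_bw_RA3 b1) ha e2.symm e1 e3 with (e | e) | (e | e)
      · exact ne_Rc hD hD' h2 hu (e ▸ a1)
      · exact nadj_Rc hD (refl_bw_RA3 hu) ht e.symm
      · exact ne_Rc hD hD' h2 hu' (e ▸ b1)
      · exact nadj_Rc hD (refl_bw_RA3 hu') hs e.symm
    by_cases e : pw D u = pw D u'
    · exact Or.inl e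
    · rcases key with k | k
      · exact Or.inr (Or.inl (Finset.ssubset_iff_subset_ne.2 ⟨k, e⟩))
      · exact Or.inr (Or.inr (Finset.ssubset_iff_subset_ne.2 ⟨k, Ne.symm e⟩))

/-- The chambers of `D'` lying behind exactly the walls of `σ`. -/
def cell_Rc (D D' : Set (W Γ)) (σ : Finset (W Γ)) : Set (W Γ) :=
  {w | w ∈ D' ∧ ∀ t ∈ bw D, (Plus t w ↔ t ∈ σ)}

theorem cell_ne_Rc {D D' : Set (W Γ)} (hD : Good D) (hD' : Good D')
    (h2 : ∀ d ∈ D, ∀ v, d * sg Γ v ∈ D') {w : W Γ} (σ : Finset (W Γ))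
    (h3 : ∀ t ∈ σ, t ∈ bw D ∧ Plus t w) : (cell_Rc D D' σ).Nonempty := by
  induction σ using Finset.induction_on with
  | empty => exact ⟨1, hD'.2.1, fun t _ => iff_of_false (not_plus_one t) (Finset.notMem_empty t)⟩
  | insert t τ hn ih =>
    obtain ⟨b, hb, hb'⟩ := ih fun x hx => h3 x (Finset.mem_insert_of_mem hx)
    obtain ⟨a, ha, -, -, hp, hq⟩ := out_Rc hD h2 (h3 t (Finset.mem_insert_self t τ)).1
    obtain ⟨m, hm⟩ := exists_med b a w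
    refine ⟨m, (Good.cvx hD').med hb ha hm, fun x hx => ?_⟩
    rw [hm x (refl_bw_RA3 hx), hb' x hx]
    constructor
    · intro hc
      by_contra hx'
      have k1 : x ∉ τ := fun k => hx' (Finset.mem_insert_of_mem k)
      have k2 := hq x hx fun e => hx' (e ▸ Finset.mem_insert_self x τ)
      rcases hc with k | k | k
      · exact k1 k.1
      · exact k1 k.1
      · exact k2 k.1
    · intro hx'
      have k := (h3 x hx').2
      rcases Finset.mem_insert.1 hx' with rfl | k1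
      · exact Or.inr (Or.inr ⟨hp, k⟩)
      · exact Or.inr (Or.inl ⟨k1, k⟩)

theorem cell_edge_Rc {D D' : Set (W Γ)} {σ : Finset (W Γ)} {d : W Γ} {v : V}
    (hd : d ∈ cell_Rc D D' σ) (hv : d * sg Γ v ∉ cell_Rc D D' σ)
    (h : d * sg Γ v * d⁻¹ ∉ bw D) :
    d * sg Γ v * d⁻¹ ∈ bw D' ∧ ∀ t ∈ bw D, (Plus t (d * sg Γ v) ↔ t ∈ σ) := by
  have k : ∀ t ∈ bw D, (Plus t (d * sg Γ v) ↔ t ∈ σ) := fun t ht => by
    rw [plus_ne_RA3 (refl_bw_RA3 ht) fun e => h (e ▸ ht)]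
    exact hd.2 t ht
  exact ⟨⟨d, hd.1, v, fun k' => hv ⟨k', k⟩, rfl⟩, k⟩

theorem cell_cvx_Rc {D D' : Set (W Γ)} (hD' : Good D') {σ : Finset (W Γ)}
    (h : (cell_Rc D D' σ).Nonempty) : Cvx (cell_Rc D D' σ) := by
  refine ⟨hD'.1.subset fun x hx => hx.1, h, ?_⟩
  rintro t ⟨d, hd, v, hv, rfl⟩ x hx y hy
  by_cases k : d * sg Γ v * d⁻¹ ∈ bw D
  · rw [hx.2 _ k, hy.2 _ k]
  · have k' := (cell_edge_Rc hd hv k).1
    exact iff_of_false (hD'.2.2 _ k' x hx.1) (hD'.2.2 _ k' y hy.1)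

theorem cell_sub_Rc {D D' : Set (W Γ)} (hD : Good D) (hD' : Good D')
    (h2 : ∀ d ∈ D, ∀ v, d * sg Γ v ∈ D') {σ : Finset (W Γ)} (hσ : σ ∈ sA (cross Γ) (bw D))
    (h : (cell_Rc D D' σ).Nonempty) : ↑σ ⊆ bw (cell_Rc D D' σ) := by
  intro t ht
  have ht' := hσ.2.1 ht
  have hr := refl_bw_RA3 ht'
  obtain ⟨b, hb, hb'⟩ := h
  obtain ⟨a, ha, v, e, hp, hq⟩ := out_Rc hD h2 ht'
  have hpb : Plus t b := (hb' t ht').2 (Finset.mem_coe.1 ht)
  have hz : ¬ Plus t (t * b) := fun k => (plus_mul_self hr b).1 k hpb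
  obtain ⟨m, v', hm, e'⟩ := med_adj e (iff_of_true hpb hp) fun k => hz (k.2 hp)
  have hpm : Plus t m := (hm t hr).2 (Or.inl ⟨hp, hpb⟩)
  refine ⟨m, ⟨(Good.cvx hD').med ha hb hm, fun x hx => ?_⟩, v', fun k => ?_, e'⟩
  · rw [hm x (refl_bw_RA3 hx)]
    constructor
    · intro hc
      by_contra hx'
      have k1 : ¬ Plus x b := fun k => hx' ((hb' x hx).1 k)
      have k2 := hq x hx fun e => hx' (e ▸ Finset.mem_coe.1 ht)
      rcases hc with k | k | k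
      · exact k2 k.1
      · exact k2 k.1
      · exact k1 k.1
    · intro hx'
      have k1 := (hb' x hx).2 hx'
      by_cases e : x = t
      · exact Or.inl ⟨e ▸ hp, k1⟩
      · exact Or.inr (Or.inr ⟨k1, (plus_mul_of_comm (refl_bw_RA3 hx) hr
          (hσ.2.2 (Finset.mem_coe.2 hx') ht e) b).2 k1⟩)
  · have k1 := (k.2 t ht').2 (Finset.mem_coe.1 ht)
    rw [e'] at hpm
    nth_rewrite 1 [e'] at k1
    exact (plus_edge_RA3 m v').1 k1 hpm

theorem pw_eq_Rc [Finite V] {D D' : Set (W Γ)} (hD : Good D) (hD' : Good D')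
    (h2 : ∀ d ∈ D, ∀ v, d * sg Γ v ∈ D') {σ : Finset (W Γ)} (hσ : ↑σ ⊆ bw D) {u w : W Γ}
    (hu : u ∈ bw D') (h3 : pw D u ⊆ σ) (h4 : Plus u w) (h5 : ∀ t ∈ σ, Plus t w) :
    pw D u = nad (cross Γ) σ u := by
  ext t
  rw [mem_nad_Rc]
  refine ⟨fun k => ⟨h3 k, nadj_Rc hD (refl_bw_RA3 hu) k⟩, fun k => ?_⟩
  by_contra k'
  exact k.2 (adj_Rc hD hD' h2 (hσ (Finset.mem_coe.2 k.1)) hu k' (h5 t k.1) h4)

theorem left_Rc [Finite V] {D D' : Set (W Γ)} (hD : Good D) (hD' : Good D')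
    (h2 : ∀ d ∈ D, ∀ v, d * sg Γ v ∈ D') {σ : Finset (W Γ)} (hσ : ↑σ ⊆ bw D)
    (h : (cell_Rc D D' σ).Nonempty) {u u0 : W Γ} (hu : u ∈ bw D') (hu0 : u0 ∈ bw D')
    (h3 : pw D u ⊆ σ) (h4 : pw D u0 = σ) (h5 : Adq (cross Γ) u u0) :
    u ∈ bw (cell_Rc D D' σ) \ ↑σ ∧ pw D u = nad (cross Γ) σ u := by
  have hr := refl_bw_RA3 hu
  obtain ⟨w, w1, w2⟩ := common2_Rc hr (refl_bw_RA3 hu0) h5
  have k0 : ∀ t ∈ σ, ∀ x, Plus u0 x → Plus t x := fun t ht =>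
    ((mem_pw hD.1).1 (h4 ▸ ht)).2
  refine ⟨⟨?_, fun k => ne_Rc hD hD' h2 hu (hσ k)⟩,
    pw_eq_Rc hD hD' h2 hσ hu h3 w1 fun t ht => k0 t ht w w2⟩
  obtain ⟨g, hg, hgm⟩ := gate_Rc hr
  obtain ⟨g0, hg0, hgm0⟩ := gate_Rc (refl_bw_RA3 hu0)
  obtain ⟨z, hz⟩ := exists_med g g0 w
  have hz1 : Plus u z := (hz u hr).2 (Or.inr (Or.inl ⟨hg, w1⟩))
  have hz2 : ∀ t ∈ bw D, (Plus t z ↔ t ∈ σ) := fun t ht => by
    have hrt := refl_bw_RA3 ht
    have k1 : Plus t g → t ∈ σ := fun k =>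
      h3 ((mem_pw hD.1).2 ⟨ht, fun x hx => hgm x hx t hrt k⟩)
    have k2 : Plus t g0 → t ∈ σ := fun k =>
      h4 ▸ (mem_pw hD.1).2 ⟨ht, fun x hx => hgm0 x hx t hrt k⟩
    rw [hz t hrt]
    refine ⟨?_, fun k => Or.inr (Or.inr ⟨k0 t k g0 hg0, k0 t k w w2⟩)⟩
    rintro (k | k | k)
    · exact k1 k.1
    · exact k1 k.1
    · exact k2 k.1
  obtain ⟨b, hb, hb'⟩ := h
  obtain ⟨a, ha, v, -, e⟩ := id hu
  have hna := hD'.2.2 u hu a ha
  obtain ⟨m, v', hm, e'⟩ := med_adj e (iff_of_false (hD'.2.2 u hu b hb) hna)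
    fun k => hna (k.1 hz1)
  have hmD := (Good.cvx hD').med ha hb hm
  refine ⟨m, ⟨hmD, fun x hx => ?_⟩, v', fun k => ?_, e'⟩
  · rw [hm x (refl_bw_RA3 hx), hb' x hx, hz2 x hx]
    tauto
  · have k1 := hD'.2.2 u hu _ k.1
    have k2 := hD'.2.2 u hu _ hmD
    rw [e'] at k2
    nth_rewrite 1 [e'] at k1
    exact k1 ((plus_edge_RA3 m v').2 k2)

theorem right_Rc [Finite V] {D D' : Set (W Γ)} (hD : Good D) (hD' : Good D')
    (h2 : ∀ d ∈ D, ∀ v, d * sg Γ v ∈ D') {σ : Finset (W Γ)} (hσ : ↑σ ⊆ bw D) {u : W Γ}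
    (hu : u ∈ bw (cell_Rc D D' σ) \ ↑σ) (h3 : (nad (cross Γ) σ u).Nonempty) :
    u ∈ bw D' ∧ pw D u = nad (cross Γ) σ u := by
  obtain ⟨⟨d, hd, v, hv, rfl⟩, hn⟩ := hu
  by_cases k : d * sg Γ v * d⁻¹ ∈ bw D
  · exfalso
    obtain ⟨t, ht⟩ := h3
    obtain ⟨t1, t2⟩ := mem_nad_Rc.1 ht
    have ht' := hσ (Finset.mem_coe.2 t1)
    have hne : t ≠ d * sg Γ v * d⁻¹ := fun e => hn (e ▸ Finset.mem_coe.2 t1)
    refine t2 ((hD.adq_of_plus ht' k (w := d * sg Γ v) ?_ ?_).resolve_left hne)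
    · exact (plus_ne_RA3 (refl_bw_RA3 ht') hne).2 ((hd.2 t ht').2 t1)
    · exact (plus_edge_RA3 d v).2 fun k' => hn (Finset.mem_coe.2 ((hd.2 _ k).1 k'))
  · obtain ⟨k1, k2⟩ := cell_edge_Rc hd hv k
    have hp := (plus_edge_RA3 d v).2 (hD'.2.2 _ k1 d hd.1)
    refine ⟨k1, pw_eq_Rc hD hD' h2 hσ k1 (fun t ht => ?_) hp fun t ht =>
      (k2 t (hσ (Finset.mem_coe.2 ht))).2 ht⟩
    obtain ⟨t1, t2⟩ := (mem_pw hD.1).1 ht
    exact (k2 t t1).1 (t2 _ hp)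

theorem pw_fib [Finite V] {D D' : Set (W Γ)} (hD : Good D) (hD' : Good D') (h1 : D ⊆ D')
    (h2 : ∀ d ∈ D, ∀ v, d * sg Γ v ∈ D') {S : Finset (Finset (W Γ))}
    (hS : S ∈ sA (sG (W Γ)) (sA (cross Γ) (bw D))) :
    ∃ E, Cvx E ∧ ↑(top S) ⊆ bw E ∧ fib (cross Γ) (bw D') (pw D) S =
      fib (cross Γ) (bw E \ ↑(top S)) (nad (cross Γ) (top S)) S := by
  have hT := top_mem_Rc hS.1 hS.2.2
  have hσ : top S ∈ sA (cross Γ) (bw D) := hS.2.1 (Finset.mem_coe.2 hT)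
  obtain ⟨w, hw⟩ := common_Rc (top S)
    (fun t ht => refl_bw_RA3 (hσ.2.1 (Finset.mem_coe.2 ht))) hσ.2.2
  have hne := cell_ne_Rc hD hD' h2 (top S) fun t ht => ⟨hσ.2.1 (Finset.mem_coe.2 ht), hw t ht⟩
  refine ⟨cell_Rc D D' (top S), cell_cvx_Rc hD' hne, cell_sub_Rc hD hD' h2 hσ hne, ?_⟩
  ext s
  rw [mem_fib_Rc, mem_fib_Rc]
  constructor
  · rintro ⟨⟨s1, s2, s3⟩, s4⟩
    obtain ⟨u0, hu0, e0⟩ := (s4 _).1 hT
    have key : ∀ u ∈ s, u ∈ bw (cell_Rc D D' (top S)) \ ↑(top S) ∧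
        pw D u = nad (cross Γ) (top S) u := fun u hu => by
      refine left_Rc hD hD' h2 hσ.2.1 hne (s2 (Finset.mem_coe.2 hu)) (s2 (Finset.mem_coe.2 hu0))
        (le_top_Rc ((s4 _).2 ⟨u, hu, rfl⟩)) e0 ?_
      by_cases e : u = u0
      · exact Or.inl e
      · exact Or.inr (s3 (Finset.mem_coe.2 hu) (Finset.mem_coe.2 hu0) e)
    refine ⟨⟨s1, fun u hu => (key u (Finset.mem_coe.1 hu)).1, s3⟩, fun x => ?_⟩
    rw [s4 x]
    exact exists_congr fun u => and_congr_right fun hu => by rw [(key u hu).2]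
  · rintro ⟨⟨s1, s2, s3⟩, s4⟩
    have key : ∀ u ∈ s, u ∈ bw D' ∧ pw D u = nad (cross Γ) (top S) u := fun u hu =>
      right_Rc hD hD' h2 hσ.2.1 (s2 (Finset.mem_coe.2 hu))
        (hS.2.1 (Finset.mem_coe.2 ((s4 _).2 ⟨u, hu, rfl⟩))).1
    refine ⟨⟨s1, fun u hu => (key u (Finset.mem_coe.1 hu)).1, s3⟩, fun x => ?_⟩
    rw [s4 x]
    exact exists_congr fun u => and_congr_right fun hu => by rw [(key u hu).2]

end Pool.Agent.MP_6374aa_g

end

section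

/-! The last vertex map is a collapse. -/

namespace Pool.Agent.MP_6374aa_g

open Pool.Agent.MP_6374aa_gt Classical

variable {V : Type} {G : SimpleGraph V} {A : Set V} {κ : Type} [LinearOrder κ]

/-- The initial segment of `σ`. -/
noncomputable def seg_Pick (col : V → κ) (σ : Finset V) (a : κ) : Finset V :=
  σ.filter fun v => col v ≤ a

/-- The chains that are normalised at the levels in `W`. -/
def nrm_Pick (G : SimpleGraph V) (A : Set V) (col : V → κ) (π : Finset V → V) (σ : Finset V)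
    (W : Finset κ) : Set (Finset (Finset V)) :=
  {S | S ∈ fib (sG V) (sA G A) π σ ∧ ∀ s ∈ S, col (π s) ∈ W → s = seg_Pick col σ (col (π s))}

variable {col : V → κ} {π : Finset V → V} {σ : Finset V}

theorem mem_seg_Pick {a : κ} {v : V} : v ∈ seg_Pick col σ a ↔ v ∈ σ ∧ col v ≤ a :=
  Finset.mem_filter

theorem seg_sA_Pick (hσ : σ ∈ sA G A) {w : V} (hw : w ∈ σ) : seg_Pick col σ (col w) ∈ sA G A :=
  mem_sA_iff_clq.2 ⟨⟨w, mem_seg_Pick.2 ⟨hw, le_rfl⟩⟩,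
    (mem_sA_iff_clq.1 hσ).2.subset (Finset.filter_subset _ _)⟩

theorem pi_seg_Pick (hc : Function.Injective col)
    (hπ : ∀ s : Finset V, s.Nonempty → π s ∈ s ∧ ∀ w ∈ s, col w ≤ col (π s)) {w : V}
    (hw : w ∈ σ) : π (seg_Pick col σ (col w)) = w := by
  have h0 : w ∈ seg_Pick col σ (col w) := mem_seg_Pick.2 ⟨hw, le_rfl⟩
  obtain ⟨h1, h2⟩ := hπ _ ⟨w, h0⟩
  exact hc (le_antisymm (mem_seg_Pick.1 h1).2 (h2 w h0))

/-- a member of a chain contains all smaller maxima -/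
theorem seg_sub_Pick (hc : Function.Injective col)
    (hπ : ∀ s : Finset V, s.Nonempty → π s ∈ s ∧ ∀ w ∈ s, col w ≤ col (π s))
    {S : Finset (Finset V)} (hS : S ∈ fib (sG V) (sA G A) π σ) {s : Finset V} (hs : s ∈ S)
    {a : κ} (ha : a ≤ col (π s)) : seg_Pick col σ a ⊆ s := by
  intro v hv
  obtain ⟨h1, h2⟩ := mem_seg_Pick.1 hv
  rw [← hS.2] at h1
  obtain ⟨t, ht, rfl⟩ := Finset.mem_image.1 h1
  obtain ⟨-, k1, k2⟩ := mem_sA.1 hS.1
  rcases adq_sG.1 (k2 t ht s hs) with h | h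
  · exact h (hπ t (k1 ht).1).1
  · have h3 := (hπ s (k1 hs).1).1
    rw [hc (le_antisymm (h2.trans ha) ((hπ t (k1 ht).1).2 _ (h h3)))]
    exact h3

theorem step_Pick (hc : Function.Injective col)
    (hπ : ∀ s : Finset V, s.Nonempty → π s ∈ s ∧ ∀ w ∈ s, col w ≤ col (π s)) (hσ : σ ∈ sA G A)
    {W : Finset κ} {w : V} (hw : w ∈ σ) (hW : ∀ v ∈ σ, col v < col w → col v ∈ W) :
    (Con (sG _) (nrm_Pick G A col π σ (insert (col w) W)) ↔
      Con (sG _) (nrm_Pick G A col π σ W)) ∧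
    (SCo (sG _) (nrm_Pick G A col π σ (insert (col w) W)) ↔
      SCo (sG _) (nrm_Pick G A col π σ W)) := by
  set τ := seg_Pick col σ (col w) with hτ
  have hπτ : π τ = w := pi_seg_Pick hc hπ hw
  have up := (ret_up (P := nrm_Pick G A col π σ W)
    (P0 := {S | S ∈ nrm_Pick G A col π σ W ∧ τ ∈ S}) (r := insert τ) (fun _ h => h.1)
    (fun S hS => ⟨⟨⟨⟨?_, ?_⟩, ?_⟩, Finset.mem_insert_self _ _⟩, Finset.subset_insert _ _⟩)
    (fun _ _ _ _ h => Finset.insert_subset_insert _ h)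
    fun S hS => Finset.insert_eq_of_mem hS.2).1
  · have dn := (ret_down (P := {S | S ∈ nrm_Pick G A col π σ W ∧ τ ∈ S})
      (P0 := nrm_Pick G A col π σ (insert (col w) W))
      (r := fun S => S.filter fun s => π s ≠ w ∨ s = τ) (fun S hS => ⟨⟨hS.1, fun s hs h =>
        hS.2 s hs (Finset.mem_insert_of_mem h)⟩, ?_⟩)
      (fun S hS => ⟨⟨⟨?_, ?_⟩, ?_⟩, Finset.filter_subset _ _⟩)
      (fun _ _ _ _ h => Finset.filter_subset_filter _ h) fun S hS => ?_).1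
    · exact ⟨dn.con.trans up.con, dn.sco.trans up.sco⟩
    · obtain ⟨s, hs, e⟩ := Finset.mem_image.1 (hS.1.2.symm ▸ hw)
      have h1 := hS.2 s hs (e ▸ Finset.mem_insert_self _ _)
      rw [e] at h1
      exact hτ ▸ h1 ▸ hs
    · exact mem_sA_iff_clq.2 ⟨⟨τ, Finset.mem_filter.2 ⟨hS.2, Or.inr rfl⟩⟩,
        (mem_sA_iff_clq.1 hS.1.1.1).2.subset (Finset.filter_subset _ _)⟩
    · rw [← hS.1.1.2]
      refine Finset.Subset.antisymm (Finset.image_subset_image (Finset.filter_subset _ _))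
        fun v hv => ?_
      obtain ⟨s, hs, rfl⟩ := Finset.mem_image.1 hv
      by_cases e : π s = w
      · exact Finset.mem_image.2 ⟨τ, Finset.mem_filter.2 ⟨hS.2, Or.inr rfl⟩, hπτ.trans e.symm⟩
      · exact Finset.mem_image.2 ⟨s, Finset.mem_filter.2 ⟨hs, Or.inl e⟩, rfl⟩
    · intro s hs h
      obtain ⟨h1, h2⟩ := Finset.mem_filter.1 hs
      rcases Finset.mem_insert.1 h with e | e
      · rw [e]
        exact h2.resolve_left fun h3 => h3 (hc e)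
      · exact hS.1.2 s h1 e
    · refine Finset.filter_true_of_mem fun s hs => ?_
      by_cases e : π s = w
      · have h1 := hS.2 s hs (e ▸ Finset.mem_insert_self _ _)
        rw [e] at h1
        exact Or.inr h1
      · exact Or.inl e
  · obtain ⟨-, k1, k2⟩ := mem_sA.1 hS.1.1
    have k3 : ∀ s ∈ S, s ⊆ τ ∨ τ ⊆ s := fun s hs => by
      rcases lt_or_ge (col (π s)) (col w) with h | h
      · left
        rw [hS.2 s hs (hW _ (hS.1.2 ▸ Finset.mem_image_of_mem π hs) h)]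
        exact fun v hv => mem_seg_Pick.2 ⟨(mem_seg_Pick.1 hv).1, (mem_seg_Pick.1 hv).2.trans h.le⟩
      · exact Or.inr (seg_sub_Pick hc hπ hS.1 hs h)
    refine mem_sA.2 ⟨Finset.insert_nonempty _ _, ?_, fun s hs t ht => ?_⟩
    · rw [Finset.coe_insert]
      exact Set.insert_subset (seg_sA_Pick hσ hw) k1
    · rcases Finset.mem_insert.1 hs with rfl | hs <;> rcases Finset.mem_insert.1 ht with rfl | ht
      · exact Or.inl rfl
      · exact adq_sG.2 (k3 t ht).symm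
      · exact adq_sG.2 (k3 s hs)
      · exact k2 s hs t ht
  · rw [Finset.image_insert, hS.1.2, hπτ, Finset.insert_eq_of_mem hw]
  · intro s hs h
    rcases Finset.mem_insert.1 hs with rfl | hs
    · rw [hπτ]
    · exact hS.2 s hs h

theorem all_Pick (hc : Function.Injective col)
    (hπ : ∀ s : Finset V, s.Nonempty → π s ∈ s ∧ ∀ w ∈ s, col w ≤ col (π s)) (hσ : σ ∈ sA G A)
    (W : Finset κ) : (∀ a ∈ W, (∃ w ∈ σ, col w = a) ∧ ∀ v ∈ σ, col v ≤ a → col v ∈ W) →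
    (Con (sG _) (nrm_Pick G A col π σ W) ↔ Con (sG _) (fib (sG V) (sA G A) π σ)) ∧
    (SCo (sG _) (nrm_Pick G A col π σ W) ↔ SCo (sG _) (fib (sG V) (sA G A) π σ)) := by
  induction W using Finset.induction_on_max with
  | empty =>
    intro _
    have e : nrm_Pick G A col π σ ∅ = fib (sG V) (sA G A) π σ :=
      Set.ext fun S => ⟨fun h => h.1, fun h => ⟨h, fun _ _ k => absurd k (by simp)⟩⟩
    rw [e]
    exact ⟨Iff.rfl, Iff.rfl⟩
  | insert a W ha ih =>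
    intro h
    obtain ⟨⟨w, hw, rfl⟩, h1⟩ := h a (Finset.mem_insert_self _ _)
    have k := step_Pick hc hπ hσ hw (W := W)
      fun v hv hl => (Finset.mem_insert.1 (h1 v hv hl.le)).resolve_left hl.ne
    have k' := ih fun b hb => ⟨(h b (Finset.mem_insert_of_mem hb)).1, fun v hv hl =>
      (Finset.mem_insert.1 ((h b (Finset.mem_insert_of_mem hb)).2 v hv hl)).resolve_left
        (hl.trans_lt (ha b hb)).ne⟩
    exact ⟨k.1.trans k'.1, k.2.trans k'.2⟩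

theorem last_Pick (hc : Function.Injective col)
    (hπ : ∀ s : Finset V, s.Nonempty → π s ∈ s ∧ ∀ w ∈ s, col w ≤ col (π s)) (hσ : σ ∈ sA G A) :
    nrm_Pick G A col π σ (σ.image col) = {σ.image fun w => seg_Pick col σ (col w)} := by
  refine Set.ext fun S => ⟨fun h => ?_, ?_⟩
  · have k : ∀ s ∈ S, s = seg_Pick col σ (col (π s)) := fun s hs =>
      h.2 s hs (Finset.mem_image_of_mem col (h.1.2 ▸ Finset.mem_image_of_mem π hs))
    refine Finset.Subset.antisymm (fun s hs => Finset.mem_image.2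
      ⟨π s, h.1.2 ▸ Finset.mem_image_of_mem π hs, (k s hs).symm⟩) fun s hs => ?_
    obtain ⟨w, hw, rfl⟩ := Finset.mem_image.1 hs
    obtain ⟨t, ht, rfl⟩ := Finset.mem_image.1 (h.1.2.symm ▸ hw)
    exact k t ht ▸ ht
  · rintro rfl
    refine ⟨⟨mem_sA.2 ⟨hσ.1.image _, fun s hs => ?_, fun s hs t ht => ?_⟩, ?_⟩, fun s hs _ => ?_⟩
    · obtain ⟨w, hw, rfl⟩ := Finset.mem_image.1 hs
      exact seg_sA_Pick hσ hw
    · obtain ⟨w, -, rfl⟩ := Finset.mem_image.1 hs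
      obtain ⟨u, -, rfl⟩ := Finset.mem_image.1 ht
      exact adq_sG.2 ((le_total (col w) (col u)).imp
        (fun h v hv => mem_seg_Pick.2 ⟨(mem_seg_Pick.1 hv).1, (mem_seg_Pick.1 hv).2.trans h⟩)
        fun h v hv => mem_seg_Pick.2 ⟨(mem_seg_Pick.1 hv).1, (mem_seg_Pick.1 hv).2.trans h⟩)
    · rw [Finset.image_image]
      exact (Finset.image_congr fun w hw => pi_seg_Pick hc hπ hw).trans Finset.image_id
    · obtain ⟨w, hw, rfl⟩ := Finset.mem_image.1 hs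
      rw [pi_seg_Pick hc hπ hw]

theorem cls_Pick (hc : Function.Injective col)
    (hπ : ∀ s : Finset V, s.Nonempty → π s ∈ s ∧ ∀ w ∈ s, col w ≤ col (π s)) :
    CLS (sG V) (sA G A) G A π := by
  have k : ∀ σ ∈ sA G A, Con (sG _) (fib (sG V) (sA G A) π σ) ∧
      SCo (sG _) (fib (sG V) (sA G A) π σ) := fun σ hσ => by
    have h := all_Pick hc hπ hσ (σ.image col) fun a ha =>
      ⟨Finset.mem_image.1 ha, fun v hv _ => Finset.mem_image_of_mem col hv⟩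
    rw [last_Pick hc hπ hσ] at h
    exact ⟨h.1.1 (con_singleton _), h.2.1 (cone_sco (A := {_}) rfl fun x hx =>
      Or.inl (Set.mem_singleton_iff.1 hx).symm).2⟩
  exact ⟨(sd_pe fun s hs => (hπ s hs.1).1).hom, fun σ hσ => (k σ hσ).1, fun σ hσ _ => (k σ hσ).2⟩

/-- Some choice of vertices collapses the subdivision. -/
theorem pick_cls [Nonempty V] :
    ∃ π : Finset V → V, (∀ s ∈ sA G A, π s ∈ s) ∧ CLS (sG V) (sA G A) G A π := by
  have h : ∃ (κ : Type) (_ : LinearOrder κ) (col : V → κ), Function.Injective col := by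
    obtain ⟨o, -⟩ := exists_wellFoundedLT V
    exact ⟨V, o, id, Function.injective_id⟩
  obtain ⟨κ, _, col, hc⟩ := h
  have hπ : ∀ s : Finset V, s.Nonempty → mx col s ∈ s ∧ ∀ w ∈ s, col w ≤ col (mx col s) :=
    fun s hs => Classical.epsilon_spec (p := fun v => v ∈ s ∧ ∀ w ∈ s, col w ≤ col v)
      (s.exists_max_image col hs)
  exact ⟨mx col, fun s hs => (hπ s hs.1).1, cls_Pick hc hπ⟩

end Pool.Agent.MP_6374aa_g

end
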