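import Pool.Agent.Mg.F6374aa.G063b81
import Pool.Agent.Mg.F6374aa.Ge2997a
import Pool.Agent.Mg.F6374aa.Ge6e9b2
import Pool.Agent.Mg.F6374aa.Gcfeb84
import Pool.Agent.Mg.F6374aa.Ga99166
import Pool.Agent.Mg.F6374aa.G9b76e9
import Pool.Agent.Mg.F6374aa.Gae9ace
import Pool.Agent.Mg.F6374aa.G6d719e
import Pool.Agent.MP_6374aa_g.SDefs3
import Pool.Agent.Mg.F6374aa.G69bf5c

section

/-! The model. -/

namespace Pool.Agent.MP_6374aa_g

open Pool.Agent.MP_6374aa_gt Classical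

variable {V V' V'' : Type} {G : SimpleGraph V} {G' : SimpleGraph V'} {G'' : SimpleGraph V''}
  {A : Set V} {A' : Set V'} {A'' : Set V''} {L : Type} [Group L]

variable {U : Type} {K : SimpleGraph U} {B S S' : Set U} {R : Set (Finset U)} {Γ : Type} [Group Γ]
  {ρ : Finset U → Finset U → Γ}

theorem adq_M10 {s t : Finset U} (h : s ⊆ t) : Adq (sG U) s t := by
  by_cases e : s = t
  · exact Or.inl e
  · exact Or.inr (Or.inl (Finset.ssubset_iff_subset_ne.2 ⟨h, e⟩))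

theorem pair_M10 (h : Hg K B S S' R) {s : Finset U} (hs : s ∈ R) {a b : U} (ha : a ∈ pt S s)
    (hb : b ∈ pt S' s) : ({a, b} : Finset U) ∈ R ∧ ({a, b} : Finset U) ⊆ s ∧
      pt S ({a, b} : Finset U) = {a} ∧ pt S' ({a, b} : Finset U) = {b} := by
  rw [mem_pt] at ha hb
  have hsub : ({a, b} : Finset U) ⊆ s := by
    intro x hx
    simp only [Finset.mem_insert, Finset.mem_singleton] at hx
    rcases hx with rfl | rfl
    exacts [ha.1, hb.1]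
  have h1 : pt S ({a, b} : Finset U) = {a} := by
    ext x
    simp only [mem_pt, Finset.mem_insert, Finset.mem_singleton]
    constructor
    · rintro ⟨rfl | rfl, hx⟩
      · rfl
      · exact (Set.disjoint_left.1 h.disj hx hb.2).elim
    · rintro rfl
      exact ⟨Or.inl rfl, ha.2⟩
  have h2 : pt S' ({a, b} : Finset U) = {b} := by
    ext x
    simp only [mem_pt, Finset.mem_insert, Finset.mem_singleton]
    constructor
    · rintro ⟨rfl | rfl, hx⟩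
      · exact (Set.disjoint_left.1 h.disj ha.2 hx).elim
      · rfl
    · rintro rfl
      exact ⟨Or.inr rfl, hb.2⟩
  exact ⟨h.down hs hsub (by rw [h1]; exact Finset.singleton_nonempty _)
    (by rw [h2]; exact Finset.singleton_nonempty _), hsub, h1, h2⟩

/-- The mixed edge of a lifted tetrahedron. -/
theorem edge_M10 (h : Hg K B S S' R) (hρ : Flat (sG U) R ρ) (D : DT R S ρ) (D' : DT R S' ρ)
    {p : Finset U × Γ} (hp : p.1 ∈ R) {a b : U} (ha : a ∈ pt S p.1) (hb : b ∈ pt S' p.1) :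
    D.vx (res ρ p {a, b}) a = D.vx p a ∧ D'.vx (res ρ p {a, b}) b = D'.vx p b := by
  obtain ⟨h1, h2, h3, h4⟩ := pair_M10 h hp ha hb
  exact ⟨DT.vx_res h hρ D hp h1 (Or.inl h2) (by rw [h3]; exact Finset.mem_singleton_self _) ha,
    DT.vx_res h.symm hρ D' hp h1 (Or.inl h2) (by rw [h4]; exact Finset.mem_singleton_self _) hb⟩

theorem tet_symm_M10 {D : DT R S ρ} {D' : DT R S' ρ} {x x' : D.T} {y y' : D'.T}
    (h : Tet D D' x x' y y') : Tet D' D y y' x x' := by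
  obtain ⟨p, hp, a, a', b, b', h1, h2, h3, h4, h5, h6, h7, h8⟩ := h
  exact ⟨p, hp, b, b', a, a', h2, h1, h4, h3, h7, h8, h5, h6⟩

/-- The data of a crossing pair at its first vertices. -/
theorem tet_edge_M10 (h : Hg K B S S' R) (hρ : Flat (sG U) R ρ) {D : DT R S ρ} {D' : DT R S' ρ}
    {x x' : D.T} {y y' : D'.T} (ht : Tet D D' x x' y y') :
    ∃ γ : Γ, ({D.ty x, D'.ty y} : Finset U) ∈ R ∧ pt S ({D.ty x, D'.ty y} : Finset U) = {D.ty x} ∧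
      pt S' ({D.ty x, D'.ty y} : Finset U) = {D'.ty y} ∧
      D.vx ({D.ty x, D'.ty y}, γ) (D.ty x) = x ∧ D'.vx ({D.ty x, D'.ty y}, γ) (D'.ty y) = y := by
  obtain ⟨p, hp, a, a', b, b', h1, h2, h3, h4, h5, h6, h7, h8⟩ := ht
  have ha : a ∈ pt S p.1 := by rw [h3]; simp
  have hb : b ∈ pt S' p.1 := by rw [h4]; simp
  have e1 : D.ty x = a := h5 ▸ D.ty_vx p hp a ha
  have e2 : D'.ty y = b := h7 ▸ D'.ty_vx p hp b hb
  obtain ⟨k1, k2, k3, k4⟩ := pair_M10 h hp ha hb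
  obtain ⟨l1, l2⟩ := edge_M10 h hρ D D' hp ha hb
  rw [e1, e2]
  exact ⟨(res ρ p {a, b}).2, k1, k3, k4, l1.trans h5, l2.trans h7⟩

theorem cadj_M10 (h : Hg K B S S' R) (hρ : Flat (sG U) R ρ) {D : DT R S ρ} {D' : DT R S' ρ}
    {x x' : D.T} {y y' : D'.T} (ht : Tet D D' x x' y y') : K.Adj (D.ty x) (D'.ty y) := by
  obtain ⟨γ, k1, k3, k4, -, -⟩ := tet_edge_M10 h hρ ht
  have ha : D.ty x ∈ pt S ({D.ty x, D'.ty y} : Finset U) := by rw [k3]; simp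
  have hb : D'.ty y ∈ pt S' ({D.ty x, D'.ty y} : Finset U) := by rw [k4]; simp
  rw [mem_pt] at ha hb
  have hne : D.ty x ≠ D'.ty y := fun e => Set.disjoint_left.1 h.disj ha.2 (e ▸ hb.2)
  have k2 := h.eq.subset k1
  exact k2.1.2.2 (Finset.mem_coe.2 ha.1) (Finset.mem_coe.2 hb.1) hne

theorem triv_M10 (h : Hg K B S S' R) (hρ : UL (sG U) R ρ) {D : DT R S ρ} {D' : DT R S' ρ}
    {x x' : D.T} {y y' : D'.T} (ht : Tet D D' x x' y y') {g : Γ} (h1 : g • x = x)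
    (h2 : g • y = y) : g = 1 := by
  obtain ⟨γ, k1, k3, k4, k5, k6⟩ := tet_edge_M10 h hρ.flat ht
  have ha : D.ty x ∈ pt S ({D.ty x, D'.ty y} : Finset U) := by rw [k3]; simp
  have hb : D'.ty y ∈ pt S' ({D.ty x, D'.ty y} : Finset U) := by rw [k4]; simp
  have e := DT.inj h hρ D D' (p := ({D.ty x, D'.ty y}, γ)) (q := dck g ({D.ty x, D'.ty y}, γ))
    k1 rfl k3 k4 (by rw [D.eqv g _ k1 _ ha, k5, h1]) (by rw [D'.eqv g _ k1 _ hb, k6, h2])
  have e2 : γ = γ * g⁻¹ := congrArg Prod.snd e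
  simpa using e2

theorem tr_M10 (h : Hg K B S S' R) (hρ : UL (sG U) R ρ) {D : DT R S ρ} {D' : DT R S' ρ}
    {x x' z z' : D.T} {y y' w w' : D'.T} (ht : Tet D D' x x' y y') (hu : Tet D D' z z' w w')
    (h1 : D.ty x = D.ty z) (h2 : D'.ty y = D'.ty w) : ∃ g : Γ, g • x = z ∧ g • y = w := by
  obtain ⟨γ, k1, k3, k4, k5, k6⟩ := tet_edge_M10 h hρ.flat ht
  obtain ⟨δ, -, -, -, l5, l6⟩ := tet_edge_M10 h hρ.flat hu
  rw [← h1, ← h2] at l5 l6
  have ha : D.ty x ∈ pt S ({D.ty x, D'.ty y} : Finset U) := by rw [k3]; simp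
  have hb : D'.ty y ∈ pt S' ({D.ty x, D'.ty y} : Finset U) := by rw [k4]; simp
  have e : dck (δ⁻¹ * γ) (({D.ty x, D'.ty y} : Finset U), γ) = ({D.ty x, D'.ty y}, δ) := by
    simp [dck]
  refine ⟨δ⁻¹ * γ, ?_, ?_⟩
  · have := D.eqv (δ⁻¹ * γ) ({D.ty x, D'.ty y}, γ) k1 _ ha
    rw [e, k5, l5] at this
    exact this.symm
  · have := D'.eqv (δ⁻¹ * γ) ({D.ty x, D'.ty y}, γ) k1 _ hb
    rw [e, k6, l6] at this
    exact this.symm

theorem uniq_M10 (h : Hg K B S S' R) (hρ : UL (sG U) R ρ) {D : DT R S ρ} {D' : DT R S' ρ}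
    {x x' x'' : D.T} {y y' y'' : D'.T} (ht : Tet D D' x x' y y') (hu : Tet D D' x x'' y y'')
    (he : D.ty x' = D.ty x'') : x' = x'' := by
  obtain ⟨p, hp, a, a', b, b', h1, h2, h3, h4, h5, h6, h7, h8⟩ := ht
  obtain ⟨q, hq, c, c', d, d', l1, l2, l3, l4, l5, l6, l7, l8⟩ := hu
  have ha : a ∈ pt S p.1 := by rw [h3]; simp
  have ha' : a' ∈ pt S p.1 := by rw [h3]; simp
  have hb : b ∈ pt S' p.1 := by rw [h4]; simp
  have hc : c ∈ pt S q.1 := by rw [l3]; simp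
  have hc' : c' ∈ pt S q.1 := by rw [l3]; simp
  have hd : d ∈ pt S' q.1 := by rw [l4]; simp
  have e1 : a = c := by rw [← D.ty_vx p hp a ha, ← D.ty_vx q hq c hc, h5, l5]
  have e2 : b = d := by rw [← D'.ty_vx p hp b hb, ← D'.ty_vx q hq d hd, h7, l7]
  have e3 : a' = c' := by rw [← D.ty_vx p hp a' ha', ← D.ty_vx q hq c' hc', h6, l6, he]
  subst e1 e2 e3
  obtain ⟨k1, k2, k3, k4⟩ := pair_M10 h hp ha hb
  obtain ⟨-, m2, -, -⟩ := pair_M10 h hq hc hd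
  obtain ⟨n1, n2⟩ := edge_M10 h hρ.flat D D' hp ha hb
  obtain ⟨o1, o2⟩ := edge_M10 h hρ.flat D D' hq hc hd
  have e : res ρ p {a, b} = res ρ q {a, b} :=
    DT.inj h hρ D D' (p := res ρ p {a, b}) (q := res ρ q {a, b}) k1 rfl k3 k4
      (by rw [n1, o1, h5, l5]) (by rw [n2, o2, h7, l7])
  have hsp : (insert a' {a, b} : Finset U) ⊆ p.1 := Finset.insert_subset (mem_pt.1 ha').1 k2
  have hsq : (insert a' {a, b} : Finset U) ⊆ q.1 := Finset.insert_subset (mem_pt.1 hc').1 m2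
  have hat : a' ∈ pt S (insert a' {a, b} : Finset U) :=
    mem_pt.2 ⟨Finset.mem_insert_self _ _, (mem_pt.1 ha').2⟩
  have hbt : b ∈ pt S' (insert a' {a, b} : Finset U) := mem_pt.2 ⟨by simp, (mem_pt.1 hb).2⟩
  have htR : (insert a' {a, b} : Finset U) ∈ R := h.down hp hsp ⟨_, hat⟩ ⟨_, hbt⟩
  have r1 := res_res hρ.flat hp htR k1 (adq_M10 (Finset.subset_insert _ _)) (adq_M10 hsp)
    (adq_M10 k2)
  have r2 := res_res hρ.flat hq htR k1 (adq_M10 (Finset.subset_insert _ _)) (adq_M10 hsq)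
    (adq_M10 m2)
  have r3 : res ρ p (insert a' {a, b}) = res ρ q (insert a' {a, b}) := by
    have := congrArg Prod.snd (r1.trans (e.trans r2.symm))
    exact Prod.ext rfl (mul_left_cancel this)
  rw [← h6, ← l6, ← DT.vx_res h hρ.flat D hp htR (Or.inl hsp) hat ha',
    ← DT.vx_res h hρ.flat D hq htR (Or.inl hsq) hat hc', r3]

theorem ex_M10 (h : Hg K B S S' R) (D : DT R S ρ) (D' : DT R S' ρ) {a a' b b' : U} (ha : a ∈ S)
    (ha' : a' ∈ S) (hb : b ∈ S') (hb' : b' ∈ S') (h1 : K.Adj a a') (h2 : K.Adj b b')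
    (h3 : K.Adj a b) (h4 : K.Adj a b') (h5 : K.Adj a' b) (h6 : K.Adj a' b') :
    ∃ x x' y y', Tet D D' x x' y y' ∧ D.ty x = a ∧ D.ty x' = a' ∧ D'.ty y = b ∧ D'.ty y' = b' := by
  have hS : S ⊆ B := h.un ▸ Set.subset_union_left
  have hS' : S' ⊆ B := h.un ▸ Set.subset_union_right
  have e1 : pt S ({a, a', b, b'} : Finset U) = {a, a'} := by
    ext x
    simp only [mem_pt, Finset.mem_insert, Finset.mem_singleton]
    constructor
    · rintro ⟨rfl | rfl | rfl | rfl, hx⟩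
      · exact Or.inl rfl
      · exact Or.inr rfl
      · exact (Set.disjoint_left.1 h.disj hx hb).elim
      · exact (Set.disjoint_left.1 h.disj hx hb').elim
    · rintro (rfl | rfl)
      · exact ⟨Or.inl rfl, ha⟩
      · exact ⟨Or.inr (Or.inl rfl), ha'⟩
  have e2 : pt S' ({a, a', b, b'} : Finset U) = {b, b'} := by
    ext x
    simp only [mem_pt, Finset.mem_insert, Finset.mem_singleton]
    constructor
    · rintro ⟨rfl | rfl | rfl | rfl, hx⟩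
      · exact (Set.disjoint_left.1 h.disj ha hx).elim
      · exact (Set.disjoint_left.1 h.disj ha' hx).elim
      · exact Or.inl rfl
      · exact Or.inr rfl
    · rintro (rfl | rfl)
      · exact ⟨Or.inr (Or.inr (Or.inl rfl)), hb⟩
      · exact ⟨Or.inr (Or.inr (Or.inr rfl)), hb'⟩
  have hR : ({a, a', b, b'} : Finset U) ∈ R := by
    rw [h.eq]
    refine ⟨⟨Finset.insert_nonempty _ _, ?_, ?_⟩, by rw [e1]; exact Finset.insert_nonempty _ _,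
      by rw [e2]; exact Finset.insert_nonempty _ _⟩
    · intro x hx
      simp only [Finset.coe_insert, Finset.coe_singleton, Set.mem_insert_iff,
        Set.mem_singleton_iff] at hx
      rcases hx with rfl | rfl | rfl | rfl
      exacts [hS ha, hS ha', hS' hb, hS' hb']
    · intro x hx y hy hne
      simp only [Finset.coe_insert, Finset.coe_singleton, Set.mem_insert_iff,
        Set.mem_singleton_iff] at hx hy
      rcases hx with rfl | rfl | rfl | rfl <;> rcases hy with rfl | rfl | rfl | rfl <;>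
        first | exact (hne rfl).elim | assumption | (symm; assumption)
  refine ⟨D.vx ({a, a', b, b'}, 1) a, D.vx ({a, a', b, b'}, 1) a', D'.vx ({a, a', b, b'}, 1) b,
    D'.vx ({a, a', b, b'}, 1) b', ⟨({a, a', b, b'}, 1), hR, a, a', b, b', h1.ne, h2.ne, e1, e2,
      rfl, rfl, rfl, rfl⟩, D.ty_vx _ hR _ ?_, D.ty_vx _ hR _ ?_, D'.ty_vx _ hR _ ?_,
      D'.ty_vx _ hR _ ?_⟩
  · rw [e1]; simp
  · rw [e1]; simp
  · rw [e2]; simp
  · rw [e2]; simp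

theorem nb_M10 (Hi : Set U) : nb K B (B ∩ Hi) = nb K B Hi := by
  ext s
  constructor
  · rintro ⟨hs, v, hv, hv'⟩
    exact ⟨hs, v, hv, hv'.2⟩
  · rintro ⟨hs, v, hv, hv'⟩
    exact ⟨hs, v, hv, hs.2.1 (Finset.mem_coe.2 hv), hv'⟩

theorem model_main : MODEL_st := by
  intro U K B Hi Γ _ ρ htwo hρ
  have h := htwo.hg
  obtain ⟨D⟩ := exists_dt h hρ.flat
  obtain ⟨D'⟩ := exists_dt h.symm hρ.flat
  obtain ⟨Nm, hm1, hm2, hm3⟩ := exists_kill hρ h.subset_nb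
  obtain ⟨Np, hp1, hp2, hp3⟩ := exists_kill hρ h.symm.subset_nb
  refine ⟨Nm, Np, ⟨?_⟩, DT.nontrivial h hρ D, nb_M10 (K := K) (B := B) Hi ▸ hm2, hp2⟩
  exact
    { T1 := D.T
      T2 := D'.T
      X1 := D.X
      X2 := D'.X
      ty1 := D.ty
      ty2 := D'.ty
      act1 := DT.tact h hρ D hm1 hm3
      act2 := DT.tact h.symm hρ D' hp1 hp3
      free12 := DT.free h hρ D D'
      free21 := DT.free h.symm hρ D' D
      cadj := fun _ _ _ _ hc => cadj_M10 h hρ.flat ((cr_iff_tet h hρ D D').1 hc)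
      triv := fun _ _ _ _ _ hc h1 h2 => triv_M10 h hρ ((cr_iff_tet h hρ D D').1 hc) h1 h2
      tr := fun _ _ _ _ _ _ _ _ hc hd h1 h2 =>
        tr_M10 h hρ ((cr_iff_tet h hρ D D').1 hc) ((cr_iff_tet h hρ D D').1 hd) h1 h2
      uniq1 := fun _ _ _ _ _ _ hc hd he =>
        uniq_M10 h hρ ((cr_iff_tet h hρ D D').1 hc) ((cr_iff_tet h hρ D D').1 hd) he
      uniq2 := fun _ _ _ _ _ _ hc hd he =>
        uniq_M10 h.symm hρ (tet_symm_M10 ((cr_iff_tet h hρ D D').1 hc))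
          (tet_symm_M10 ((cr_iff_tet h hρ D D').1 hd)) he
      ex := fun a ha a' ha' b hb b' hb' h1 h2 h3 h4 h5 h6 => by
        obtain ⟨x, x', y, y', ht, hr⟩ := ex_M10 h D D' ha ha' hb hb' h1 h2 h3 h4 h5 h6
        exact ⟨x, x', y, y', (cr_iff_tet h hρ D D').2 ht, hr⟩ }

end Pool.Agent.MP_6374aa_g

end

section

/-! Assembling the middle data. -/

namespace Pool.Agent.MP_6374aa_g

open Pool.Agent.MP_6374aa_gt Classical

variable {V V' V'' : Type} {G : SimpleGraph V} {G' : SimpleGraph V'} {G'' : SimpleGraph V''}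
  {A : Set V} {A' : Set V'} {A'' : Set V''} {L : Type} [Group L]

theorem near_Md {h : V → ℤ} {N : ℤ} (H : Ht G A h N) {u w : V} (hu : u ∈ A) (hw : w ∈ A)
    (a : Adq G u w) : h u ≤ h w + 1 ∧ h w ≤ h u + 1 := by
  rcases a with rfl | a
  · omega
  · exact ⟨H.lip u hu w hw a, H.lip w hw u hu a.symm⟩

theorem res_Md {f : V' → V} (hf : IsHom G' A' G A f) {X : Set V'} {Y : Set V} (hX : X ⊆ A')
    (h : ∀ x ∈ X, f x ∈ Y) : IsHom G' X G Y f :=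
  ⟨h, fun a ha b hb => hf.2 a (hX ha) b (hX hb)⟩

theorem comp_Md {f : V' → V} {g : V'' → V'} (hf : IsHom G' A' G A f) (hg : IsHom G'' A'' G' A' g) :
    IsHom G'' A'' G A (f ∘ g) :=
  ⟨fun a ha => hf.1 _ (hg.1 a ha), fun a ha b hb h =>
    IsHom.adq hf (hg.1 a ha) (hg.1 b hb) (hg.2 a ha b hb h)⟩

theorem ctg_Md {f g : V' → V} (h : SC G' A' G f g) {X : Set V'} (hX : X ⊆ A') : Ctg G' X G f g :=
  ctg_of_sc fun a ha b hb => h a (hX ha) b (hX hb)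

/-- The integral coboundary of a set. -/
noncomputable def cob_Md (S : Set V) (u w : V) : ZM :=
  Multiplicative.ofAdd (if u ∈ S then (1 : ℤ) else 0) *
    (Multiplicative.ofAdd (if w ∈ S then (1 : ℤ) else 0))⁻¹

theorem cob_ne_Md {S : Set V} {u w : V} : cob_Md S u w ≠ 1 ↔ ¬ (u ∈ S ↔ w ∈ S) := by
  unfold cob_Md
  rw [Ne, mul_inv_eq_one, Multiplicative.ofAdd.injective.eq_iff]
  by_cases h1 : u ∈ S <;> by_cases h2 : w ∈ S <;> simp [h1, h2]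

theorem mix_Md (S : Set V) : mix G A (cob_Md S) = fr G A S := by
  ext s
  simp only [mix, fr, Set.mem_ofPred_eq, cob_ne_Md, Meets, Set.not_subset, Finset.mem_coe]
  refine and_congr_right fun _ => ⟨?_, ?_⟩
  · rintro ⟨u, hu, w, hw, h⟩
    by_cases h1 : u ∈ S
    · exact ⟨⟨u, hu, h1⟩, w, hw, fun h2 => h ⟨fun _ => h2, fun _ => h1⟩⟩
    · by_cases h2 : w ∈ S
      · exact ⟨⟨w, hw, h2⟩, u, hu, h1⟩
      · exact (h ⟨fun h3 => (h1 h3).elim, fun h3 => (h2 h3).elim⟩).elim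
  · rintro ⟨⟨u, hu, h1⟩, w, hw, h2⟩
    exact ⟨u, hu, w, hw, fun h => h2 (h.1 h1)⟩

theorem mid_of {U V2 V3 : Type} {K : SimpleGraph U} {B : Set U} {h : U → ℤ} {N : ℤ}
    {ρ : U → U → L} {Nm Np : Subgroup L} (H : LvP K B h N ρ Nm Np) (hA : Cl G 3 A) {f : V → U}
    (hf : IsHom G A K B f) {G2 : SimpleGraph V2} {A2 : Set V2} {c2 : V2 → U} {ψ : V2 → V}
    (hc2 : CLS G2 A2 K B c2) (hψ : IsHom G2 A2 G A ψ) (s1 : SC G2 A2 K (f ∘ ψ) c2)
    {G3 : SimpleGraph V3} {A3 : Set V3} {c : V3 → V} {φ : V3 → V2} (hc : CLS G3 A3 G A c)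
    (hφ : IsHom G3 A3 G2 A2 φ) (s2 : SC G3 A3 G (ψ ∘ φ) c) (s3 : SC G3 A3 K (c2 ∘ φ) (f ∘ c))
    {S : Set V} {n : ℕ} {lo hi : ℤ} (hr : Rk (sG V) (fr G A S) n)
    (h1 : ∀ x ∈ A, h (f x) ≤ lo → x ∈ S) (h2 : ∀ x ∈ A, hi ≤ h (f x) → x ∉ S) (hlh : lo ≤ hi)
    (r1 : 8 * (n : ℤ) + 22 ≤ lo) (r2 : hi + 8 * (n : ℤ) + 22 ≤ N) :
    ∃ (H : Type) (_ : Group H), Nonempty (Mid ⟨V, G, A⟩ L H Nm Np) := by
  have hn : (0 : ℤ) ≤ n := Int.natCast_nonneg n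
  have sl : ∀ a b, slab B h a b ⊆ B := fun _ _ _ hx => hx.1
  have slA : ∀ a b, slab A (h ∘ f) a b ⊆ A := fun _ _ _ hx => hx.1
  have n1 : ∀ y ∈ A2, h (f (ψ y)) ≤ h (c2 y) + 1 ∧ h (c2 y) ≤ h (f (ψ y)) + 1 := fun y hy =>
    near_Md H.ht (hf.1 _ (hψ.1 y hy)) (hc2.hom.1 y hy) (s1 y hy y hy (adq_refl y))
  have n3 : ∀ z ∈ A3, h (c2 (φ z)) ≤ h (f (c z)) + 1 ∧ h (f (c z)) ≤ h (c2 (φ z)) + 1 :=
    fun z hz => near_Md H.ht (hc2.hom.1 _ (hφ.1 z hz)) (hf.1 _ (hc.hom.1 z hz))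
      (s3 z hz z hz (adq_refl z))
  have lip : ∀ u ∈ A, ∀ w ∈ A, Adq G u w → h (f u) ≤ h (f w) + 1 := fun u hu w hw a =>
    (near_Md H.ht (hf.1 u hu) (hf.1 w hw) (IsHom.adq hf hu hw a)).1
  have mψ : ∀ a b a' b', a' + 1 ≤ a → b + 1 ≤ b' →
      IsHom G2 (A2 ∩ c2 ⁻¹' slab B h a b) G (slab A (h ∘ f) a' b') ψ := fun a b a' b' ha hb =>
    res_Md hψ Set.inter_subset_left fun y hy => by
      have e1 := n1 y hy.1
      have e2 : a ≤ h (c2 y) := hy.2.2.1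
      have e3 : h (c2 y) ≤ b := hy.2.2.2
      exact ⟨hψ.1 y hy.1, show a' ≤ h (f (ψ y)) by omega, show h (f (ψ y)) ≤ b' by omega⟩
  have mφ : ∀ a b a' b', a' + 1 ≤ a → b + 1 ≤ b' →
      IsHom G3 (A3 ∩ c ⁻¹' slab A (h ∘ f) a b) G2 (A2 ∩ c2 ⁻¹' slab B h a' b') φ :=
    fun a b a' b' ha hb => res_Md hφ Set.inter_subset_left fun z hz => by
      have e1 := n3 z hz.1
      have e2 : a ≤ h (f (c z)) := hz.2.2.1
      have e3 : h (f (c z)) ≤ b := hz.2.2.2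
      exact ⟨hφ.1 z hz.1, hc2.hom.1 _ (hφ.1 z hz.1), by omega, by omega⟩
  have mf : ∀ a b, IsHom G (slab A (h ∘ f) a b) K (slab B h a b) f := fun a b =>
    res_Md hf (slA a b) fun x hx => ⟨hf.1 x hx.1, hx.2⟩
  have mc : ∀ Y, IsHom G3 (A3 ∩ c ⁻¹' Y) G Y c := fun Y =>
    res_Md hc.hom Set.inter_subset_left fun z hz => hz.2
  have mc2 : ∀ Y, IsHom G2 (A2 ∩ c2 ⁻¹' Y) K Y c2 := fun Y =>
    res_Md hc2.hom Set.inter_subset_left fun z hz => hz.2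
  have smono : ∀ {T : Type} {C : Set T} {g : T → ℤ} {a b a' b' : ℤ}, a' ≤ a → b ≤ b' →
      slab C g a b ⊆ slab C g a' b' := fun ha hb x hx => ⟨hx.1, ha.trans hx.2.1, hx.2.2.trans hb⟩
  have hρ := H.ul.flat
  obtain ⟨Hh, iH, μ, k, hμ, hk, hdom⟩ := cls_lg hc2 H.cl (sl 1 (N - 1)) H.ul
  have hφ0 := mφ (4 - 2) (N - 4 + 2) 1 (N - 1) (by omega) (by omega)
  obtain ⟨s, hs, hsec⟩ := cls_sec hc hA (slA (4 - 2) (N - 4 + 2)) (flat_pull hμ hφ0)
  obtain ⟨m, p, e, tm, tp, we, wm, wp, hmul, hrho, hkm, hkp⟩ := cls_lift hc2 H.cl (sl 5 (N - 5))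
    (Yb := slab B h 5 5) (Yt := slab B h (N - 5) (N - 5)) (smono le_rfl (by omega))
    (smono (by omega) le_rfl) (fun a ha b hb hab => by
      have e1 := near_Md H.ht ha.1 hb.1 hab
      have e2 := ha.2.2
      have e3 := hb.2.1
      omega)
    (H.ul' (by omega) (by omega) (by omega)) (H.ul' (by omega) (by omega) (by omega))
    (H.ul' (by omega) (by omega) (by omega))
  -- the first component of `s`
  have hf0 : IsHom G (slab A (h ∘ f) (4 - 2) (N - 4 + 2)) K (slab B h 1 (N - 1)) f :=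
    res_Md hf (slA _ _) fun x hx => smono (by omega) (by omega) ((mf _ _).1 x hx)
  obtain ⟨k0, hk0⟩ := hsec _ subset_rfl L Monoid.Coprod.fst (pull f ρ) _ (flat_pull hρ hf0)
    ((gau_of_ctg hρ (comp_Md (mc2 _) hφ0) (comp_Md hf0 (mc _))
      (ctg_Md s3 Set.inter_subset_left)).symm.trans (hk.pull hφ0))
  have hψb := mψ 5 5 4 6 (by omega) (by omega)
  have hψ0 := mψ 5 5 (4 - 2) (N - 4 + 2) (by omega) (by omega)
  have g1 := gau_of_ctg hρ (comp_Md hf0 hψ0) (res_Md hc2.hom Set.inter_subset_left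
    fun z (hz : z ∈ A2 ∩ c2 ⁻¹' slab B h 5 5) => smono (by omega) (by omega) hz.2)
    (ctg_Md s1 Set.inter_subset_left)
  have wη := we.map (mψ 5 (N - 5) 4 (N - 4) (by omega) (by omega))
  have hm := ((wm 1).map hψb).mem_left
  have hψt := mψ (N - 5) (N - 5) (N - 6) (N - 4) (by omega) (by omega)
  have hp := ((wp 1).map hψt).mem_left
  refine ⟨Hh, iH, ⟨{
    h := h ∘ f, s := s, θ := cob_Md S, c := 2, n := n, B0 := 4, B1 := 6, lo := lo, hi := hi,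
    T1 := N - 6, T0 := N - 4, mm := ψ m, mp := ψ p, η := e.map ψ, tm := fun x => (tm x).map ψ,
    tp := fun x => (tp x).map ψ, a := (k0 (ψ m))⁻¹ * ρ (f (ψ m)) (c2 m), cl := hA,
    c_pos := by omega, lip := fun u hu w hw a => lip u hu w hw (Or.inr a), b01 := by omega,
    t10 := by omega, lohi := hlh, roomm := by push_cast; omega, roomp := by push_cast; omega,
    flat := hs, ker := ?_, coor := ⟨Pot.flat ⟨_, fun _ _ _ _ _ => rfl⟩, ?_⟩, supp := ?_,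
    rk := by rw [mix_Md]; exact hr, odd := ?_, wη := wη, wm := fun x => (wm x).map hψb,
    wp := fun x => (wp x).map hψt, mul := ?_, rho := ?_, killm := ?_, killp := ?_ }⟩⟩
  · intro a b ha ha' hb hb' x l hw he L' _ lab hl
    have p1 := mψ (a - 1) (b + 1) (a - 2) (b + 2) (by omega) (by omega)
    have p2 := mφ a b (a - 1) (b + 1) (by omega) (by omega)
    obtain ⟨Ψ, k1, hk1⟩ := hdom _ (UL.extl (H.ul' (a := a - 1) (b := b + 1) (by omega) (by omega)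
      (by omega)) hρ (smono (by omega) (by omega))) L' (pull ψ lab) (flat_pull hl p1)
    have p3 : IsHom G3 (A3 ∩ c ⁻¹' slab A (h ∘ f) a b) G (slab A (h ∘ f) (a - 2) (b + 2)) c :=
      res_Md hc.hom Set.inter_subset_left fun z hz => smono (by omega) (by omega) hz.2
    obtain ⟨k2, hk2⟩ := hsec (slab A (h ∘ f) a b) (smono (by omega) (by omega)) L' Ψ lab _
      (Flat.mono hl (smono (by omega) (by omega)))
      ((gau_of_ctg hl (comp_Md p1 p2) p3 (ctg_Md s2 Set.inter_subset_left)).symm.trans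
        (hk1.pull p2))
    rw [ev_gau hk2 hw, ev_hom, he, map_one, mul_one, mul_inv_cancel]
  · intro u _ w _ _
    unfold cob_Md
    split_ifs <;> simp
  · intro u hu w hw a hne
    have e1 := lip u hu w hw a
    have e2 := lip w hw u hu (adq_symm a)
    have e3 := h1 u hu
    have e4 := h1 w hw
    have e5 := h2 u hu
    have e6 := h2 w hw
    rw [cob_ne_Md] at hne
    refine ⟨hu, ?_, ?_⟩
    · by_contra h3
      have h4 : h (f u) < lo := not_le.1 h3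
      exact hne ⟨fun _ => e4 (by omega), fun _ => e3 (by omega)⟩
    · by_contra h3
      have h4 : hi < h (f u) := not_le.1 h3
      exact hne ⟨fun h5 => (e5 (by omega) h5).elim, fun h5 => (e6 (by omega) h5).elim⟩
  · have e1 : ψ m ∈ S := h1 _ hm.1 (le_trans hm.2.2 (by omega))
    have e2 : ψ p ∉ S := h2 _ hp.1 (le_trans (by omega) hp.2.1)
    rw [ev_of_pot (lab := cob_Md S)
      (p := fun u => Multiplicative.ofAdd (if u ∈ S then (1 : ℤ) else 0))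
      (fun _ _ _ _ _ => rfl) wη]
    simp [e1, e2]
  · intro L' _ lab hl
    simpa only [ev_pull] using hmul L' (pull ψ lab)
      (flat_pull hl (mψ 5 (N - 5) _ _ (by omega) (by omega)))
  · intro x
    have e1 := ev_gau hk0 ((wm x).map hψ0)
    have e2 := ev_gau g1 (wm x)
    rw [hrho] at e2
    have e3 : ev (pull f ρ) (ψ m) ((tm x).map ψ) = ev (pull (f ∘ ψ) ρ) m (tm x) :=
      (ev_pull ψ (pull f ρ) m (tm x)).symm
    rw [ev_hom, e3, e2] at e1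
    have e4 : Monoid.Coprod.fst (ev s (ψ m) ((tm x).map ψ)) = (k0 (ψ m))⁻¹ *
        (ρ (f (ψ m)) (c2 m) * x * (ρ (f (ψ m)) (c2 m))⁻¹) * k0 (ψ m) := by
      rw [show ρ (f (ψ m)) (c2 m) = ρ ((f ∘ ψ) m) (c2 m) from rfl, e1]
      group
    rw [e4]
    group
  · intro x hx
    refine Null.mono (Null.map (mψ 0 5 (-1) 6 (by omega) (by omega)) (hkm Nm _
      (smono (by omega) le_rfl) (sl _ _) (H.killm (by omega) (by omega)) x hx)) fun v hv => ?_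
    exact ⟨hv.1, le_trans hv.2.2 (by omega)⟩
  · intro x hx
    refine Null.mono (Null.map (mψ (N - 5) N (N - 6) (N + 1) (by omega) (by omega)) (hkp Np _
      (smono le_rfl (by omega)) (sl _ _) (H.killp (by omega) (by omega)) x hx)) fun v hv => ?_
    exact ⟨hv.1, le_trans (by omega) hv.2.1⟩

end Pool.Agent.MP_6374aa_g

end

section

/-! Interleaving two towers. -/

namespace Pool.Agent.MP_6374aa_g

open Pool.Agent.MP_6374aa_gt Classical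

variable {V V' V'' : Type} {G : SimpleGraph V} {G' : SimpleGraph V'} {G'' : SimpleGraph V''}
  {A : Set V} {A' : Set V'} {A'' : Set V''} {L : Type} [Group L]

variable {X X' : Type} [TopologicalSpace X] [TopologicalSpace X']

theorem Tw.homeo {I : Set (Set V)} {S : V → Set X} (t : Tw G I S) (e : X ≃ₜ X') :
    Tw G I fun v => e '' S v := by
  refine ⟨t.ne, fun A hA => ?_, fun A hA U hU hc => ?_⟩
  · have n := t.nv A hA
    refine ⟨n.fin, fun v hv => (n.cpt v hv).image e.continuous, fun x => ?_,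
      fun u hu w hw => ?_⟩
    · obtain ⟨v, hv, hx⟩ := n.cover (e.symm x)
      exact ⟨v, hv, e.symm x, hx, e.apply_symm_apply x⟩
    · rw [← n.iff u hu w hw, ← Set.image_inter e.injective, Set.image_nonempty]
  · obtain ⟨A1, hA1, h1, c, hc1, hc2⟩ := t.deep A hA ((fun u => e ⁻¹' u) '' U)
      (by
        rintro _ ⟨u, hu, rfl⟩
        exact (hU u hu).preimage e.continuous)
      (fun x => by
        obtain ⟨u, hu, hx⟩ := hc (e x)
        exact ⟨_, ⟨u, hu, rfl⟩, hx⟩)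
    refine ⟨A1, hA1, fun v hv => ?_, c, hc1, fun v hv => Set.image_mono (hc2 v hv)⟩
    obtain ⟨_, ⟨u, hu, rfl⟩, h⟩ := h1 v hv
    exact ⟨u, hu, Set.image_subset_iff.2 h⟩

theorem swell_Zg [T2Space X] {S : V → Set X} (n : Nv G A S) (O0 : V → Set X)
    (h0 : ∀ v ∈ A, IsOpen (O0 v) ∧ S v ⊆ O0 v) :
    ∃ O : V → Set X, (∀ v ∈ A, IsOpen (O v) ∧ S v ⊆ O v) ∧ (∀ v ∈ A, O v ⊆ O0 v) ∧
      ∀ u ∈ A, ∀ w ∈ A, (O u ∩ O w).Nonempty → Adq G u w := by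
  obtain ⟨P, hP, hP2⟩ := exists_swelling n.fin S n.cpt
  refine ⟨fun v => P v ∩ O0 v, fun v hv => ⟨(hP v hv).1.inter (h0 v hv).1,
    Set.subset_inter (hP v hv).2 (h0 v hv).2⟩, fun v _ => Set.inter_subset_right,
    fun u hu w hw h => ?_⟩
  obtain ⟨x, hx1, hx2⟩ := h
  exact (n.iff u hu w hw).1 (hP2 u hu w hw ⟨x, hx1.1, hx2.1⟩)

theorem step_Zg [Nonempty V'] {I : Set (Set V)} {S : V → Set X} {S' : V' → Set X}
    (t : Tw G I S) (hA : A ∈ I) (n : Nv G' A' S') (O : V' → Set X)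
    (hO : ∀ y ∈ A', IsOpen (O y) ∧ S' y ⊆ O y) :
    ∃ A1 ∈ I, ∃ (c : V → V) (φ : V → V'), CLS G A1 G A c ∧ (∀ x ∈ A1, S x ⊆ S (c x)) ∧
      ∀ x ∈ A1, φ x ∈ A' ∧ S x ⊆ O (φ x) := by
  obtain ⟨A1, hA1, h1, c, hc1, hc2⟩ := t.deep A hA (O '' A')
    (by
      rintro _ ⟨y, hy, rfl⟩
      exact (hO y hy).1)
    (fun x => by
      obtain ⟨y, hy, hx⟩ := n.cover x
      exact ⟨_, ⟨y, hy, rfl⟩, (hO y hy).2 hx⟩)
  have h2 : ∀ x ∈ A1, ∃ y, y ∈ A' ∧ S x ⊆ O y := fun x hx => by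
    obtain ⟨_, ⟨y, hy, rfl⟩, h⟩ := h1 x hx
    exact ⟨y, hy, h⟩
  choose! φ hφ using h2
  exact ⟨A1, hA1, c, φ, hc1, hc2, hφ⟩

theorem sc_Zg {S : V → Set X} (n : Nv G A S) {O : V' → Set X}
    (hO : ∀ u ∈ A', ∀ w ∈ A', (O u ∩ O w).Nonempty → Adq G' u w) {f g : V → V'}
    (hf : ∀ x ∈ A, f x ∈ A' ∧ S x ⊆ O (f x)) (hg : ∀ x ∈ A, g x ∈ A' ∧ S x ⊆ O (g x)) :
    SC G A G' f g := by
  intro a ha b hb hab
  obtain ⟨x, hx1, hx2⟩ := (n.iff a ha b hb).2 hab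
  exact hO _ (hf a ha).1 _ (hg b hb).1 ⟨x, (hf a ha).2 hx1, (hg b hb).2 hx2⟩

theorem hom_Zg {S : V → Set X} (n : Nv G A S) {O : V' → Set X}
    (hO : ∀ u ∈ A', ∀ w ∈ A', (O u ∩ O w).Nonempty → Adq G' u w) {f : V → V'}
    (hf : ∀ x ∈ A, f x ∈ A' ∧ S x ⊆ O (f x)) : IsHom G A G' A' f :=
  ⟨fun a ha => (hf a ha).1, fun a ha b hb hab => sc_Zg n hO hf hf a ha b hb (Or.inr hab)⟩

theorem zig [T2Space X] [Nonempty V] [Nonempty V'] {I : Set (Set V)} {I' : Set (Set V')}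
    {S : V → Set X} {S' : V' → Set X} (t : Tw G I S) (t' : Tw G' I' S') {B0 : Set V'}
    (h0 : B0 ∈ I') :
    ∃ A0 ∈ I, ∃ φ0 : V → V', IsHom G A0 G' B0 φ0 ∧ ∀ B1 ∈ I', ∀ κ : V' → V',
      (∀ y ∈ B1, κ y ∈ B0 ∧ S' y ⊆ S' (κ y)) →
      ∃ A ∈ I, ∃ B2 ∈ I', ∃ A3 ∈ I, ∃ (ca : V → V) (φ : V → V') (c' : V' → V') (ψ : V' → V)
        (c : V → V) (φ3 : V → V'), CLS G A G A0 ca ∧ IsHom G A G' B1 φ ∧
        (∀ x ∈ A, Adq G' (φ0 (ca x)) (κ (φ x))) ∧ CLS G' B2 G' B1 c' ∧ IsHom G' B2 G A ψ ∧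
        SC G' B2 G' (φ ∘ ψ) c' ∧ CLS G A3 G A c ∧ IsHom G A3 G' B2 φ3 ∧
        SC G A3 G (ψ ∘ φ3) c ∧ SC G A3 G' (c' ∘ φ3) (φ ∘ c) := by
  obtain ⟨Am, hAm⟩ := t.ne
  have nB0 := t'.nv B0 h0
  obtain ⟨O0, hO0, -, aO0⟩ := swell_Zg nB0 (fun _ => Set.univ)
    fun _ _ => ⟨isOpen_univ, Set.subset_univ _⟩
  obtain ⟨A0, hA0, -, φ0, -, -, hφ0⟩ := step_Zg t hAm nB0 O0 hO0
  refine ⟨A0, hA0, φ0, hom_Zg (t.nv A0 hA0) aO0 hφ0, fun B1 hB1 κ hκ => ?_⟩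
  have nB1 := t'.nv B1 hB1
  obtain ⟨O1, hO1, sO1, aO1⟩ := swell_Zg nB1 (fun y => O0 (κ y))
    fun y hy => ⟨(hO0 _ (hκ y hy).1).1, (hκ y hy).2.trans (hO0 _ (hκ y hy).1).2⟩
  obtain ⟨A, hA, ca, φ, hca, sca, hφ⟩ := step_Zg t hA0 nB1 O1 hO1
  have nA := t.nv A hA
  obtain ⟨OA, hOA, sOA, aOA⟩ := swell_Zg nA (fun x => O1 (φ x))
    fun x hx => ⟨(hO1 _ (hφ x hx).1).1, (hφ x hx).2⟩
  obtain ⟨B2, hB2, c', ψ, hc', sc', hψ⟩ := step_Zg t' hB1 nA OA hOA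
  have nB2 := t'.nv B2 hB2
  have hc'' : ∀ y ∈ B2, c' y ∈ B1 ∧ S' y ⊆ O1 (c' y) := fun y hy =>
    ⟨hc'.hom.1 y hy, (sc' y hy).trans (hO1 _ (hc'.hom.1 y hy)).2⟩
  obtain ⟨O2, hO2, sO2, aO2⟩ := swell_Zg nB2 (fun y => OA (ψ y) ∩ O1 (c' y))
    fun y hy => ⟨(hOA _ (hψ y hy).1).1.inter (hO1 _ (hc'' y hy).1).1,
      Set.subset_inter (hψ y hy).2 (hc'' y hy).2⟩
  obtain ⟨A3, hA3, c, φ3, hc, sc, hφ3⟩ := step_Zg t hA nB2 O2 hO2
  have nA3 := t.nv A3 hA3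
  have hcA : ∀ x ∈ A3, c x ∈ A ∧ S x ⊆ OA (c x) := fun x hx =>
    ⟨hc.hom.1 x hx, (sc x hx).trans (hOA _ (hc.hom.1 x hx)).2⟩
  refine ⟨A, hA, B2, hB2, A3, hA3, ca, φ, c', ψ, c, φ3, hca, hom_Zg nA aO1 hφ, fun x hx => ?_,
    hc', hom_Zg nB2 aOA hψ, sc_Zg nB2 aO1 (fun y hy => ?_) hc'', hc, hom_Zg nA3 aO2 hφ3,
    sc_Zg nA3 aOA (fun x hx => ?_) hcA, sc_Zg nA3 aO1 (fun x hx => ?_) (fun x hx => ?_)⟩
  · obtain ⟨p, hp, -⟩ := (nA.iff x hx x hx).2 (Or.inl rfl)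
    have h1 := hca.hom.1 x hx
    exact aO0 _ (hφ0 _ h1).1 _ (hκ _ (hφ x hx).1).1
      ⟨p, (hφ0 _ h1).2 (sca x hx hp), sO1 _ (hφ x hx).1 ((hφ x hx).2 hp)⟩
  · exact ⟨(hφ _ (hψ y hy).1).1, (hψ y hy).2.trans (sOA _ (hψ y hy).1)⟩
  · exact ⟨(hψ _ (hφ3 x hx).1).1,
      (hφ3 x hx).2.trans ((sO2 _ (hφ3 x hx).1).trans Set.inter_subset_left)⟩
  · exact ⟨(hc'' _ (hφ3 x hx).1).1,
      (hφ3 x hx).2.trans ((sO2 _ (hφ3 x hx).1).trans Set.inter_subset_right)⟩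
  · exact ⟨(hφ _ (hcA x hx).1).1, (hcA x hx).2.trans (sOA _ (hcA x hx).1)⟩

end Pool.Agent.MP_6374aa_g

end

section

/-! The fibres of the refinement map. -/

namespace Pool.Agent.MP_6374aa_g

open Pool.Agent.MP_6374aa_gt Classical

variable {V V' V'' : Type} {G : SimpleGraph V} {G' : SimpleGraph V'} {G'' : SimpleGraph V''}
  {A : Set V} {A' : Set V'} {A'' : Set V''} {L : Type} [Group L]

theorem NSq.lk (h : NSq G A) (s : Set V) : NSq G (Lk G A s) := by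
  exact fun a ha b hb c hc d hd => h a ha.1 b hb.1 c hc.1 d hd.1

theorem mem_nad_Fb {σ : Finset V} {u t : V} : t ∈ nad G σ u ↔ t ∈ σ ∧ ¬ G.Adj t u :=
  Finset.mem_filter

theorem nad_nested (hn : NSq G A) {σ : Finset V} (hσ : Clq G A σ) {u x : V} (hu : u ∈ A \ ↑σ)
    (hx : x ∈ A \ ↑σ) (h : Adq G u x) : nad G σ u ⊆ nad G σ x ∨ nad G σ x ⊆ nad G σ u := by
  by_contra c
  obtain ⟨c1, c2⟩ := not_or.1 c
  obtain ⟨t1, a1, a2⟩ := Finset.not_subset.1 c1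
  obtain ⟨t2, b1, b2⟩ := Finset.not_subset.1 c2
  rw [mem_nad_Fb] at a1 a2 b1 b2
  have a3 : G.Adj t1 x := by_contra fun k => a2 ⟨a1.1, k⟩
  have b3 : G.Adj t2 u := by_contra fun k => b2 ⟨b1.1, k⟩
  have e1 : G.Adj u x := h.resolve_left fun e => a1.2 (e ▸ a3)
  have e2 : G.Adj t1 t2 :=
    ((clq_iff.1 hσ).2 t1 a1.1 t2 b1.1).resolve_left fun e => b1.2 (e ▸ a3)
  rcases hn u hu.1 x hx.1 t1 (hσ.1 a1.1) t2 (hσ.1 b1.1) e1 a3.symm e2 b3 with (e | e) | e | e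
  · exact hu.2 (e ▸ a1.1)
  · exact a1.2 e.symm
  · exact hx.2 (e ▸ b1.1)
  · exact b1.2 e.symm

theorem nad_sdiff_Fb (σ τ : Finset V) (u : V) : nad G (σ \ τ) u = nad G σ u \ τ := by
  ext t
  simp only [mem_nad_Fb, Finset.mem_sdiff]
  tauto

theorem mem_fib_Fb {c : V' → V} {σ : Finset V} {s : Finset V'} :
    s ∈ fib G' A' c σ ↔ s ∈ sA G' A' ∧ ∀ ξ, ξ ∈ σ ↔ ∃ u ∈ s, c u = ξ :=
  and_congr_right fun _ => by
    rw [eq_comm, Finset.ext_iff]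
    simp only [Finset.mem_image]

theorem ctg_le_Fb {P : Set (Finset V)} {φ : Finset V → Finset V} (h : ∀ s ∈ P, φ s ⊆ s) :
    Ctg (sG V) P (sG V) φ id :=
  ⟨fun s hs => adq_sG.2 (Or.inl (h s hs)), fun s hs t ht e => e.imp
    (fun e => adq_sG.2 (Or.inl ((h s hs).trans e.subset)))
    fun e => adq_sG.2 (Or.inr ((h t ht).trans e.subset))⟩

theorem one_Fb {d : ℕ} (h : Sph G d A) (hd : d ≤ 3) (hn : NSq G A) {σ : Finset V}
    (hσ : σ ∈ sA G A) : Con G ((A \ ↑σ) \ {u | ∃ t ∈ σ, G.Adj t u}) ∧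
      SCo G ((A \ ↑σ) \ {u | ∃ t ∈ σ, G.Adj t u}) :=
  Cell.rem_bd (h.rem_simplex hd hn hσ) hd fun _ hs _ hu => (hs.1 hu).2

theorem fib_one_Fb {S : Finset (Finset V)} (hS : S ∈ sA (sG V) (sA G A)) (h : S.card < 2) :
    fib G (A \ ↑(top S)) (nad G (top S)) S =
      sA G ((A \ ↑(top S)) \ {u | ∃ t ∈ top S, G.Adj t u}) := by
  have e : ∀ ξ, ξ ∈ S ↔ ξ = top S := fun ξ =>
    ⟨fun k => Finset.card_le_one.1 (by omega) ξ k _ (top_mem hS), fun k => k ▸ top_mem hS⟩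
  generalize top S = σ at e
  ext s
  rw [mem_fib_Fb]
  constructor
  · rintro ⟨h1, h2⟩
    refine ⟨h1.1, fun u hu => ⟨h1.2.1 hu, fun ⟨t, a1, a2⟩ => ?_⟩, h1.2.2⟩
    rw [← (e _).1 ((h2 _).2 ⟨u, hu, rfl⟩)] at a1
    exact (mem_nad_Fb.1 a1).2 a2
  · intro h1
    have h2 : ∀ u ∈ s, nad G σ u = σ := fun u hu =>
      Finset.filter_true_of_mem fun t ht k => (h1.2.1 hu).2 ⟨t, ht, k⟩
    obtain ⟨v, hv⟩ := h1.1
    exact ⟨sA_mono Set.sdiff_subset h1, fun ξ => (e ξ).trans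
      ⟨fun k => ⟨v, hv, (h2 v hv).trans k.symm⟩, fun ⟨u, hu, k⟩ => k.symm.trans (h2 u hu)⟩⟩

/-- The upper fibres. -/
theorem upper_Fb (hn : NSq G A) {S : Finset (Finset V)} (hS : S ∈ sA (sG V) (sA G A))
    {s1 : Finset V} (h1 : s1 ∈ S) (h2 : ∀ t ∈ S, s1 ⊆ t) (h3 : top S ≠ s1) {a : Finset V}
    (ha : a ∈ sA G {u | u ∈ A \ ↑(top S) ∧ nad G (top S) u = s1}) :
    ∃ S' ∈ sA (sG V) (sA G (Lk G A ↑a)), S'.card < S.card ∧ ∃ f, PE (sG V)
      {s | s ∈ fib G (A \ ↑(top S)) (nad G (top S)) S ∧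
        a ⊆ s.filter fun u => nad G (top S) u = s1}
      (sG V) (fib G (Lk G A ↑a \ ↑(top S')) (nad G (top S')) S') f := by
  have m : ∀ ξ', ξ' ∈ (S.erase s1).image (· \ s1) ↔ ∃ ξ ∈ S, ξ ≠ s1 ∧ ξ \ s1 = ξ' := fun ξ' => by
    simp only [Finset.mem_image, Finset.mem_erase]
    exact exists_congr fun ξ => by tauto
  have hc : ((S.erase s1).image (· \ s1)).card < S.card :=
    Finset.card_image_le.trans_lt (Finset.card_erase_lt_of_mem h1)
  generalize (S.erase s1).image (· \ s1) = S' at m hc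
  have t1 := top_mem hS
  have t2 : ∀ ξ ∈ S, ξ ⊆ top S := fun ξ => subset_top
  have hS' : S' ∈ sA (sG V) (sA G (Lk G A ↑a)) := by
    refine mem_sA.2 ⟨⟨_, (m _).2 ⟨_, t1, h3, rfl⟩⟩, fun ξ' hξ' => ?_, fun ξ' hξ' η' hη' => ?_⟩
    · obtain ⟨ξ, b1, b2, rfl⟩ := (m _).1 hξ'
      have b3 := sA_down (hS.2.1 b1) (Finset.sdiff_subset (t := s1))
        (Finset.sdiff_nonempty.2 fun k => b2 (k.antisymm (h2 ξ b1)))
      refine ⟨b3.1, fun t ht => ⟨b3.2.1 ht, fun x hx => ?_⟩, b3.2.2⟩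
      have b4 := Finset.mem_sdiff.1 ht
      rw [← (ha.2.1 hx).2, mem_nad_Fb] at b4
      exact (not_not.1 fun k => b4.2 ⟨t2 ξ b1 b4.1, k⟩ : G.Adj t x).symm
    · obtain ⟨ξ, b1, -, rfl⟩ := (m _).1 hξ'
      obtain ⟨η, b2, -, rfl⟩ := (m _).1 hη'
      exact adq_sG.2 ((adq_sG.1 ((mem_sA.1 hS).2.2 ξ b1 η b2)).imp
        (fun k => Finset.sdiff_subset_sdiff k subset_rfl)
        fun k => Finset.sdiff_subset_sdiff k subset_rfl)
  have ht : top S' = top S \ s1 := by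
    refine subset_antisymm ?_ (subset_top ((m _).2 ⟨_, t1, h3, rfl⟩))
    obtain ⟨ξ, b1, -, b2⟩ := (m _).1 (top_mem hS')
    rw [← b2]
    exact Finset.sdiff_subset_sdiff (t2 ξ b1) subset_rfl
  have hσ := (mem_sA_iff_clq.1 (hS.2.1 t1)).2
  refine ⟨S', hS', hc, fun s => s.filter fun u => nad G (top S) u ≠ s1, ?_⟩
  rw [ht]
  generalize top S = σ at *
  obtain ⟨x, hx⟩ := ha.1
  have key : ∀ u ∈ Lk G A ↑a \ ↑(σ \ s1), ∀ ξ ∈ S, ξ ≠ s1 → nad G (σ \ s1) u = ξ \ s1 →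
      u ∈ A \ ↑σ ∧ nad G σ u = ξ := fun u hu ξ b1 b2 b3 => by
    have b4 : u ∈ A \ ↑σ := ⟨hu.1.1, fun k => hu.2 (Finset.mem_sdiff.2 ⟨k, fun k' => by
      rw [← (ha.2.1 hx).2] at k'
      exact (mem_nad_Fb.1 k').2 (hu.1.2 x hx).symm⟩)⟩
    refine ⟨b4, ?_⟩
    rw [nad_sdiff_Fb] at b3
    have b5 := nad_nested hn hσ b4 (ha.2.1 hx).1 (Or.inr (hu.1.2 x hx).symm)
    rw [(ha.2.1 hx).2] at b5
    rcases b5 with b5 | b5
    · rw [Finset.sdiff_eq_empty_iff_subset.2 b5] at b3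
      exact absurd ((Finset.sdiff_eq_empty_iff_subset.1 b3.symm).antisymm (h2 ξ b1)) b2
    · rw [← Finset.union_sdiff_of_subset b5, b3, Finset.union_sdiff_of_subset (h2 ξ b1)]
  refine PE.of_inv (g := fun s => a ∪ s) (isHom_of_mono ?_ fun s _ t _ k =>
    Finset.filter_subset_filter _ k) (isHom_of_mono ?_ fun s _ t _ k =>
      Finset.union_subset_union subset_rfl k) (ctg_le_Fb fun s hs => Finset.union_subset
        (hs.2.trans (Finset.filter_subset _ _)) (Finset.filter_subset _ _))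
    (ctg_le_Fb fun s _ u hu => (Finset.mem_union.1 (Finset.mem_filter.1 hu).1).resolve_left
      fun k => (Finset.mem_filter.1 hu).2 (ha.2.1 k).2)
  · rintro s ⟨hs, hs'⟩
    obtain ⟨b1, b2⟩ := mem_fib_Fb.1 hs
    obtain ⟨v, v1, v2⟩ := (b2 σ).1 t1
    have b3 := sA_down b1 (Finset.filter_subset (fun u => nad G σ u ≠ s1) s)
      ⟨v, Finset.mem_filter.2 ⟨v1, v2.symm ▸ h3⟩⟩
    refine mem_fib_Fb.2 ⟨⟨b3.1, fun u hu => ⟨⟨(b3.2.1 hu).1, fun y hy => ?_⟩,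
      fun k => (b3.2.1 hu).2 (Finset.mem_sdiff.1 k).1⟩, b3.2.2⟩, fun ξ' => (m ξ').trans ⟨?_, ?_⟩⟩
    · have b4 := Finset.mem_filter.1 hu
      have b5 := Finset.mem_filter.1 (hs' hy)
      exact ((mem_sA.1 b1).2.2 y b5.1 u b4.1).resolve_left fun e => b4.2 (e ▸ b5.2)
    · rintro ⟨ξ, c1, c2, rfl⟩
      obtain ⟨u, c3, rfl⟩ := (b2 ξ).1 c1
      exact ⟨u, Finset.mem_filter.2 ⟨c3, c2⟩, nad_sdiff_Fb _ _ _⟩
    · rintro ⟨u, c1, rfl⟩
      have c2 := Finset.mem_filter.1 c1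
      exact ⟨_, (b2 _).2 ⟨u, c2.1, rfl⟩, c2.2, (nad_sdiff_Fb _ _ _).symm⟩
  · intro s hs
    obtain ⟨b1, b2⟩ := mem_fib_Fb.1 hs
    have b3 : ∀ u ∈ s, u ∈ A \ ↑σ ∧ nad G σ u ∈ S := fun u hu => by
      obtain ⟨ξ, c1, c2, c3⟩ := (m _).1 ((b2 _).2 ⟨u, hu, rfl⟩)
      obtain ⟨c4, c5⟩ := key u (b1.2.1 hu) ξ c1 c2 c3.symm
      exact ⟨c4, c5 ▸ c1⟩
    refine ⟨mem_fib_Fb.2 ⟨mem_sA.2 ⟨⟨x, Finset.mem_union_left _ hx⟩, fun u hu =>
      (Finset.mem_union.1 hu).elim (fun k => (ha.2.1 k).1) fun k => (b3 u k).1,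
      fun u hu w hw => ?_⟩, fun ξ => ⟨fun c => ?_, ?_⟩⟩,
      fun u hu => Finset.mem_filter.2 ⟨Finset.mem_union_left _ hu, (ha.2.1 hu).2⟩⟩
    · rcases Finset.mem_union.1 hu with hu | hu <;> rcases Finset.mem_union.1 hw with hw | hw
      · exact (mem_sA.1 ha).2.2 u hu w hw
      · exact Or.inr ((b1.2.1 hw).1.2 u hu)
      · exact Or.inr ((b1.2.1 hu).1.2 w hw).symm
      · exact (mem_sA.1 b1).2.2 u hu w hw
    · by_cases e : ξ = s1
      · exact ⟨x, Finset.mem_union_left _ hx, (ha.2.1 hx).2.trans e.symm⟩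
      · obtain ⟨u, c1, c2⟩ := (b2 _).1 ((m _).2 ⟨ξ, c, e, rfl⟩)
        exact ⟨u, Finset.mem_union_right _ c1, (key u (b1.2.1 c1) ξ c e c2).2⟩
    · rintro ⟨u, hu, rfl⟩
      exact (Finset.mem_union.1 hu).elim (fun k => (ha.2.1 k).2.symm ▸ h1) fun k => (b3 u k).2

theorem step_Fb (hn : NSq G A) (hl : ∀ s ∈ sA G A, ∃ e ≤ 3, Sph G e (Lk G A ↑s))
    {S : Finset (Finset V)} (hS : S ∈ sA (sG V) (sA G A)) (h : 2 ≤ S.card)
    (ih : ∀ (B : Set V) (e : ℕ), Sph G e B → e ≤ 3 → NSq G B → ∀ S' ∈ sA (sG V) (sA G B),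
      S'.card < S.card → Con (sG V) (fib G (B \ ↑(top S')) (nad G (top S')) S') ∧
        SCo (sG V) (fib G (B \ ↑(top S')) (nad G (top S')) S')) :
    Con (sG V) (fib G (A \ ↑(top S)) (nad G (top S)) S) ∧
      SCo (sG V) (fib G (A \ ↑(top S)) (nad G (top S)) S) := by
  obtain ⟨s1, h1, h2⟩ := exists_bot hS
  have h3 : top S ≠ s1 := fun e => by
    have := Finset.card_le_one.2 fun a (ha : a ∈ S) b hb =>
      ((e ▸ subset_top ha : a ⊆ s1).antisymm (h2 a ha)).trans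
        ((h2 b hb).antisymm (e ▸ subset_top hb : b ⊆ s1))
    omega
  have hσ := hS.2.1 (top_mem hS)
  have h4 : s1 ⊆ top S := subset_top h1
  have pe := qa_up (G' := sG V) (A' := fib G (A \ ↑(top S)) (nad G (top S)) S)
    (P := sA G {u | u ∈ A \ ↑(top S) ∧ nad G (top S) u = s1})
    (f := fun s => s.filter fun u => nad G (top S) u = s1)
    (isHom_of_mono (fun s hs => by
      obtain ⟨b1, b2⟩ := mem_fib_Fb.1 hs
      obtain ⟨v, v1, v2⟩ := (b2 s1).1 h1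
      have b3 := sA_down b1 (Finset.filter_subset (fun u => nad G (top S) u = s1) s)
        ⟨v, Finset.mem_filter.2 ⟨v1, v2⟩⟩
      exact ⟨b3.1, fun u hu => ⟨b3.2.1 hu, (Finset.mem_filter.1 hu).2⟩, b3.2.2⟩)
      fun s _ t _ k => Finset.filter_subset_filter _ k)
    fun a ha => by
      obtain ⟨S', a1, a2, f, a3⟩ := upper_Fb hn hS h1 h2 h3 ha
      obtain ⟨e, a4, a5⟩ := hl a (sA_mono (fun u hu => hu.1.1) ha)
      have a6 := ih _ e a5 a4 (hn.lk _) S' a1 a2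
      exact ⟨a3.con.2 a6.1, a3.sco.2 a6.2⟩
  rw [pe.con, pe.sco, con_sA, sco_sA]
  generalize top S = σ at h3 hσ h4
  obtain ⟨e, a1, a2⟩ := hl (σ \ s1) (sA_down hσ Finset.sdiff_subset
    (Finset.sdiff_nonempty.2 fun k => h3 (k.antisymm h4)))
  have a3 : s1 ∈ sA G (Lk G A ↑(σ \ s1)) := by
    have a4 := hS.2.1 h1
    refine ⟨a4.1, fun v hv => ⟨a4.2.1 hv, fun t ht => ?_⟩, a4.2.2⟩
    have a5 := Finset.mem_sdiff.1 ht
    exact ((mem_sA.1 hσ).2.2 t a5.1 v (h4 hv)).resolve_left fun e => a5.2 (e ▸ hv)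
  have a4 : {u | u ∈ A \ ↑σ ∧ nad G σ u = s1} =
      (Lk G A ↑(σ \ s1) \ ↑s1) \ {u | ∃ t ∈ s1, G.Adj t u} := by
    ext u
    constructor
    · rintro ⟨b1, rfl⟩
      exact ⟨⟨⟨b1.1, fun t ht => not_not.1 fun k => (Finset.mem_sdiff.1 ht).2
        (mem_nad_Fb.2 ⟨(Finset.mem_sdiff.1 ht).1, k⟩)⟩, fun k => b1.2 (h4 k)⟩,
        fun ⟨t, c1, c2⟩ => (mem_nad_Fb.1 c1).2 c2⟩
    · rintro ⟨⟨⟨b1, b2⟩, b3⟩, b4⟩
      refine ⟨⟨b1, fun k => G.irrefl (b2 u (Finset.mem_sdiff.2 ⟨k, b3⟩))⟩, ?_⟩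
      ext t
      exact mem_nad_Fb.trans ⟨fun k => by_contra fun k' => k.2 (b2 t (Finset.mem_sdiff.2 ⟨k.1, k'⟩)),
        fun k => ⟨h4 k, fun k' => b4 ⟨t, k, k'⟩⟩⟩
  rw [a4]
  exact one_Fb a2 a1 (hn.lk _) a3

theorem fib_sph {d : ℕ} (h : Sph G d A) (hd : d ≤ 3) (hn : NSq G A) {S : Finset (Finset V)}
    (hS : S ∈ sA (sG V) (sA G A)) :
    Con (sG V) (fib G (A \ ↑(top S)) (nad G (top S)) S) ∧
      SCo (sG V) (fib G (A \ ↑(top S)) (nad G (top S)) S) := by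
  induction hc : S.card using Nat.strong_induction_on generalizing A d S with
  | _ n ih =>
    subst hc
    by_cases h2 : S.card < 2
    · rw [fib_one_Fb hS h2, con_sA, sco_sA]
      exact one_Fb h hd hn (hS.2.1 (top_mem hS))
    · exact step_Fb hn (fun s hs => ⟨_, (Nat.sub_le _ _).trans hd,
        (Cell.link h (mem_sA_iff_clq.1 hs).2).2⟩) hS (not_lt.1 h2)
        fun B e a1 a2 a3 S' a4 a5 => ih _ a5 a1 a2 a3 a4 rfl

theorem fib_cl (h : Cl G 3 A) (hn : NSq G A) {S : Finset (Finset V)}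
    (hS : S ∈ sA (sG V) (sA G A)) :
    Con (sG V) (fib G (A \ ↑(top S)) (nad G (top S)) S) ∧
      (2 ≤ S.card → SCo (sG V) (fib G (A \ ↑(top S)) (nad G (top S)) S)) := by
  by_cases h2 : S.card < 2
  · refine ⟨?_, fun k => absurd h2 (not_lt.2 k)⟩
    obtain ⟨a1, a2⟩ := h.rem_simplex hn (hS.2.1 (top_mem hS))
    rw [fib_one_Fb hS h2, con_sA]
    exact (Mfa.rem_bd a1 le_rfl (h.1.subset fun u hu => hu.1.1)
      fun _ hs _ hu => (hs.2.1 hu).2).con.2 a2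
  · refine (step_Fb hn (fun s hs => ?_) hS (not_lt.1 h2)
      fun B e a1 a2 a3 S' a4 _ => fib_sph a1 a2 a3 a4).imp_right fun k _ => k
    obtain ⟨v, hv⟩ := hs.1
    have := Finset.card_pos.2 hs.1
    exact ⟨3 + 1 - s.card, by omega, (Mfa.link (mf_empty_iff.1 h.2.2) (mem_sA_iff_clq.1 hs).2
      ⟨v, hv, hs.2.1 hv⟩).2⟩

end Pool.Agent.MP_6374aa_g

end

section

/-! Block C. -/

namespace Pool.Agent.MP_6374aa_g

open Pool.Agent.MP_6374aa_gt Classical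

variable {V : Type} {Γ : SimpleGraph V}

attribute [local instance] rayTop bdryTop

/-- A deeper level collapses to the subdivision. -/
theorem Good.refine (hΓ : Cl Γ 3 Set.univ) (hn : NoSquare Γ) {D : Set (W Γ)} (hD : Good D) :
    ∃ D', Good D' ∧ CLS (cross Γ) (bw D') (sG (W Γ)) (sA (cross Γ) (bw D)) (pw D) ∧
      ∀ x, ∀ t ∈ pw D x, shadow x ⊆ shadow t := by
  have : Finite V := Set.finite_univ_iff.1 hΓ.1
  obtain ⟨D', hD', hs⟩ := exists_good hΓ (hD.1.union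
    ((hD.1.prod (Set.finite_univ (α := V))).image fun p => p.1 * sg Γ p.2))
  have h1 : D ⊆ D' := fun d hd => hs (Or.inl hd)
  have h2 : ∀ d ∈ D, ∀ v, d * sg Γ v ∈ D' := fun d hd v =>
    hs (Or.inr ⟨(d, v), ⟨hd, trivial⟩, rfl⟩)
  have key : ∀ S ∈ sA (sG (W Γ)) (sA (cross Γ) (bw D)),
      Con (sG _) (fib (cross Γ) (bw D') (pw D) S) ∧
        (2 ≤ S.card → SCo (sG _) (fib (cross Γ) (bw D') (pw D) S)) := fun S hS => by
    obtain ⟨E, hE, h3, h4⟩ := pw_fib hD hD' h1 h2 hS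
    rw [h4]
    refine fib_cl (hE.cl hΓ) (nsq_bw hΓ hn E) ⟨hS.1, fun s hs => ?_, hS.2.2⟩
    have h5 := hS.2.1 hs
    exact ⟨h5.1, fun x hx => h3 (subset_top hs hx), h5.2.2⟩
  exact ⟨D', hD', ⟨pw_hom (exists_not_adq hΓ) hn hD hD' h1 h2, fun S hS => (key S hS).1,
    fun S hS => (key S hS).2⟩, fun x t ht => shadow_mono ((mem_pw hD.1).1 ht).2⟩

theorem over_sd (hΓ : Cl Γ 3 Set.univ) (hn : NoSquare Γ) (j : ℕ) :
    ∃ D c, Good D ∧ CLS (cross Γ) (bw D) (Cx.sd^[j] ⟨V, Γ, Set.univ⟩).G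
      (Cx.sd^[j] ⟨V, Γ, Set.univ⟩).A c := by
  induction j with
  | zero =>
    obtain ⟨a, -⟩ := exists_not_adq hΓ
    have : Nonempty V := ⟨a⟩
    obtain ⟨g, hg, -⟩ := IsIso.symm' (iso_bw_one (Γ := Γ))
    refine ⟨{1}, g, Cvx.good ⟨Set.finite_singleton _, Set.singleton_nonempty _, ?_⟩ rfl,
      IsIso.cls hg⟩
    rintro t - _ rfl _ rfl
    rfl
  | succ j ih =>
    rw [Function.iterate_succ_apply']
    obtain ⟨D, c, hD, hc⟩ := ih
    obtain ⟨D', hD', h1, -⟩ := Good.refine hΓ hn hD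
    exact ⟨D', _, hD', hc.sd.comp h1⟩

/-- A level of the model together with a collapse onto it. -/
structure St (Γ : SimpleGraph V) (Q : Type) [Group Q] (Nm Np : Subgroup Q) where
  U : Type
  K : SimpleGraph U
  B : Set U
  h : U → ℤ
  N : ℤ
  ρ : U → U → Q
  D : Set (W Γ)
  c : W Γ → U
  lv : LvP K B h N ρ Nm Np
  good : Good D
  cls : CLS (cross Γ) (bw D) K B c

variable {Q : Type} [Group Q] {Nm Np : Subgroup Q}

/-- `s'` refines `s` with ratio `r`. -/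
def St.Ref (s' s : St Γ Q Nm Np) (r : ℤ) : Prop :=
  s'.N = r * s.N ∧ ∃ κ : W Γ → W Γ, ∀ x ∈ bw s'.D, (κ x ∈ bw s.D ∧ shadow x ⊆ shadow (κ x)) ∧
    s'.h (s'.c x) + 1 ≤ r * s.h (s.c (κ x)) + r ∧ r * s.h (s.c (κ x)) + 1 ≤ s'.h (s'.c x) + r

theorem St.next (hΓ : Cl Γ 3 Set.univ) (hn : NoSquare Γ) (s : St Γ Q Nm Np) :
    ∃ s' : St Γ Q Nm Np, s'.Ref s 2 := by
  obtain ⟨D', hD', h1, h2⟩ := Good.refine hΓ hn s.good
  obtain ⟨ρ', hρ⟩ := s.lv.sd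
  have h3 := s.cls.sd.comp h1
  refine ⟨⟨_, _, _, _, _, ρ', D', _, hρ, hD', h3⟩, rfl, fun x => pk Set.univ (pw s.D x),
    fun x hx => ?_⟩
  have h4 := h1.hom.1 x hx
  have h5 := pk_mem Set.univ h4.1
  have h6 := s.lv.ht.near (h3.hom.1 x hx) (Finset.mem_image_of_mem s.c h5)
  exact ⟨⟨h4.2.1 h5, h2 x _ h5⟩, by simp only; omega, by simp only; omega⟩

theorem St.iter (hΓ : Cl Γ 3 Set.univ) (hn : NoSquare Γ) (s : St Γ Q Nm Np) (m : ℕ) :
    ∃ s' : St Γ Q Nm Np, s'.Ref s (2 ^ m) := by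
  induction m with
  | zero => exact ⟨s, by simp, id, fun x hx => ⟨⟨hx, subset_rfl⟩, by simp, by simp⟩⟩
  | succ m ih =>
    obtain ⟨s1, h1, κ1, h2⟩ := ih
    obtain ⟨s2, h3, κ2, h4⟩ := s1.next hΓ hn
    refine ⟨s2, by rw [h3, h1]; ring, κ1 ∘ κ2, fun x hx => ?_⟩
    obtain ⟨⟨a1, a2⟩, a3, a4⟩ := h4 x hx
    obtain ⟨⟨b1, b2⟩, b3, b4⟩ := h2 _ a1
    refine ⟨⟨b1, a2.trans b2⟩, ?_, ?_⟩ <;> rw [pow_succ, Function.comp_apply] <;> linarith

theorem c_main : C_st := by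
  rintro V V' _ _ Γ Γ' hΓ hΓ' hn hn' ⟨e⟩ j U K B Hi c0 hc0 h2 Q _ ρ Nm Np hρ km kp - -
  have := t2Space_bdry (exists_not_adq hΓ') hn'
  obtain ⟨D, c, hD, hc⟩ := over_sd hΓ' hn' j
  obtain ⟨D', hD', h1, -⟩ := Good.refine hΓ' hn' hD
  obtain ⟨h, hl⟩ := lvp_init h2.cl hρ km kp
  obtain ⟨s0, hN0, -⟩ := St.iter hΓ' hn'
    ⟨_, _, _, h, 2, ρ, D', _, hl, hD', (hc0.comp hc).sd.comp h1⟩ 2
  have hN : s0.N = 8 := by rw [hN0]; norm_num
  obtain ⟨A0, hA0, φ0, hφ0, hz⟩ := zig ((racg_tw hΓ hn).homeo e) (racg_tw hΓ' hn')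
    ⟨s0.D, s0.good, rfl⟩
  obtain ⟨n, hr⟩ := exists_rk (G := sG (W Γ))
    (A := fr (cross Γ) A0 {x | s0.h (s0.c (φ0 x)) ≤ 2})
    ((sA_finite ((racg_tw hΓ hn).nv A0 hA0).fin).subset fun s hs => hs.1)
  obtain ⟨s1, hN1, κ, hκ⟩ := s0.iter hΓ' hn' (8 * n + 22)
  have hp : ((8 * n + 22 : ℕ) : ℤ) < 2 ^ (8 * n + 22) := by exact_mod_cast Nat.lt_two_pow_self
  generalize (2 : ℤ) ^ (8 * n + 22) = r at hN1 hκ hp
  push_cast at hp
  obtain ⟨_, ⟨E, hE, rfl⟩, B2, -, A3, -, ca, φ, c', ψ, c3, φ3, a1, a2, a3, a4, a5, a6, a7, a8,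
    a9, a10⟩ := hz _ ⟨s1.D, s1.good, rfl⟩ κ fun y hy => (hκ y hy).1
  have sc : ∀ {T : Type} {G : SimpleGraph T} {A : Set T} {f g : T → W Γ'},
      (∀ x ∈ A, f x ∈ bw s1.D) → (∀ x ∈ A, g x ∈ bw s1.D) → SC G A (cross Γ') f g →
      SC G A s1.K (s1.c ∘ f) (s1.c ∘ g) := fun hf hg h a ha b hb hab =>
    IsHom.adq s1.cls.hom (hf a ha) (hg b hb) (h a ha b hb hab)
  have nr : ∀ x ∈ bw E, s0.h (s0.c (φ0 (ca x))) ≤ s0.h (s0.c (κ (φ x))) + 1 ∧
      s0.h (s0.c (κ (φ x))) ≤ s0.h (s0.c (φ0 (ca x))) + 1 := fun x hx => by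
    have b1 := hφ0.1 _ (a1.hom.1 x hx)
    have b2 := (hκ _ (a2.1 x hx)).1.1
    exact near_Md s0.lv.ht (s0.cls.hom.1 _ b1) (s0.cls.hom.1 _ b2)
      (IsHom.adq s0.cls.hom b1 b2 (a3 x hx))
  have hn0 : (0 : ℤ) ≤ n := Int.natCast_nonneg n
  obtain ⟨H, iH, hM⟩ := mid_of s1.lv ((Good.cvx hE).cl hΓ) (comp_Md s1.cls.hom a2)
    (s1.cls.comp a4) a5 (sc (comp_Md a2 a5).1 a4.hom.1 a6) a7 a8 a9
    (sc (comp_Md a4.hom a8).1 (comp_Md a2 a7.hom).1 a10) (a1.rk_fr hr) (lo := r) (hi := 4 * r)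
    (fun x hx h3 => by
      have b1 := (nr x hx).1
      have b2 := (hκ _ (a2.1 x hx)).2.2
      change s1.h (s1.c (φ x)) ≤ r at h3
      change s0.h (s0.c (φ0 (ca x))) ≤ 2
      have b3 : s0.h (s0.c (κ (φ x))) < 2 := lt_of_mul_lt_mul_left (a := r) (by linarith)
        (by linarith)
      omega)
    (fun x hx h3 h4 => by
      have b1 := (nr x hx).2
      have b2 := (hκ _ (a2.1 x hx)).2.1
      change 4 * r ≤ s1.h (s1.c (φ x)) at h3
      change s0.h (s0.c (φ0 (ca x))) ≤ 2 at h4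
      have b3 : 3 < s0.h (s0.c (κ (φ x))) := lt_of_mul_lt_mul_left (a := r) (by linarith)
        (by linarith)
      omega)
    (by linarith) (by linarith) (by rw [hN1, hN]; linarith)
  exact ⟨⟨W Γ, cross Γ, bw E⟩, H, iH, (Good.cvx hE).sumOf, hM⟩

end Pool.Agent.MP_6374aa_g

end

section

/-! Cutting along the surface dual to an integral cocycle. -/

namespace Pool.Agent.MP_6374aa_g.BD

open Pool.Agent.MP_6374aa_gt Classical

variable {V : Type} {G : SimpleGraph V} {A : Set V}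

section aux

variable {θ : V → V → ZM} {s t : Finset (V × ZM)}

theorem lev_Cu1 (hθ : Coor G A θ) (hs : s ∈ sA (cov G θ ZM) (up A ZM)) {x y : V × ZM}
    (hx : x ∈ s) (hy : y ∈ s) :
    Adq G x.1 y.1 ∧ x.2.toAdd = (θ x.1 y.1).toAdd + y.2.toAdd := by
  have h := (cov_adq hθ.flat (u := x.1) (w := y.1) (hs.2.1 hx) (hs.2.1 hy)).1
    ((mem_sA.1 hs).2.2 x hx y hy)
  exact ⟨h.1, by rw [h.2, smul_eq_mul, toAdd_mul]⟩

theorem le_Cu1 (hθ : Coor G A θ) (hs : s ∈ sA (cov G θ ZM) (up A ZM)) {x y : V × ZM}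
    (hx : x ∈ s) (hy : y ∈ s) : x.2.toAdd ≤ y.2.toAdd + 1 := by
  obtain ⟨h1, h2⟩ := lev_Cu1 hθ hs hx hy
  have := hθ.le _ (hs.2.1 hx) _ (hs.2.1 hy) h1
  omega

theorem shift_Cu1 (hθ : Coor G A θ) (hs : s ∈ sA (cov G θ ZM) (up A ZM))
    (ht : t ∈ sA (cov G θ ZM) (up A ZM)) (h : s.image Prod.fst ⊆ t.image Prod.fst) :
    ∃ d : ℤ, ∀ x ∈ s, ∃ y ∈ t, y.1 = x.1 ∧ y.2.toAdd = x.2.toAdd + d := by
  obtain ⟨a, ha⟩ := hs.1
  obtain ⟨b, hb, e⟩ := Finset.mem_image.1 (h (Finset.mem_image_of_mem _ ha))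
  refine ⟨b.2.toAdd - a.2.toAdd, fun x hx => ?_⟩
  obtain ⟨y, hy, e'⟩ := Finset.mem_image.1 (h (Finset.mem_image_of_mem _ hx))
  have h1 := (lev_Cu1 hθ hs hx ha).2
  have h2 := (lev_Cu1 hθ ht hy hb).2
  rw [e, e'] at h2
  exact ⟨y, hy, e', by omega⟩

theorem zero_Cu1 (h : ∀ x ∈ s, ∃ y ∈ t, y.1 = x.1 ∧ y.2.toAdd = x.2.toAdd + 0) : s ⊆ t :=
  fun x hx => by
    obtain ⟨y, hy, h1, h2⟩ := h x hx
    rwa [← Prod.ext h1 (Multiplicative.toAdd.injective (h2.trans (add_zero _)))]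

theorem common_Cu1 (hθ : Coor G A θ) (hs : s ∈ sA (cov G θ ZM) (up A ZM))
    (ht : t ∈ sA (cov G θ ZM) (up A ZM)) (h : s.image Prod.fst ⊆ t.image Prod.fst) {x : V × ZM}
    (h1 : x ∈ s) (h2 : x ∈ t) : s ⊆ t := by
  obtain ⟨d, hd⟩ := shift_Cu1 hθ hs ht h
  obtain ⟨y, hy, e1, e2⟩ := hd x h1
  rw [cov_clique_inj ht hy h2 e1, left_eq_add] at e2
  exact zero_Cu1 (e2 ▸ hd)

theorem img_Cu1 (hs : s ∈ sA (cov G θ ZM) (up A ZM)) : s.image Prod.fst ∈ sA G A :=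
  IsHom.image_mem (up_hom_GrB1 θ) hs

theorem memW_Cu1 : s ∈ cW G A θ ↔ s ∈ sA (cov G θ ZM) (up A ZM) ∧ ∃ x ∈ s, x.2.toAdd = 0 :=
  Iff.rfl

theorem memF_Cu1 {e : ℤ} : s ∈ cF G A θ e ↔ s ∈ cW G A θ ∧ ∃ x ∈ s, x.2.toAdd = e := Iff.rfl

theorem nsub_Cu1 (hθ : Coor G A θ) {u : Finset (V × ZM)} (hu : u ∈ cW G A θ)
    (hs : s ∈ cF G A θ (-1)) (ht : t ∈ cF G A θ 1) (h1 : s ⊆ u) (h2 : t ⊆ u) : False := by
  obtain ⟨-, x, hx, e1⟩ := memF_Cu1.1 hs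
  obtain ⟨-, y, hy, e2⟩ := memF_Cu1.1 ht
  have := le_Cu1 hθ hu.1 (h2 hy) (h1 hx)
  omega

theorem ssub_Cu1 (ht : t ∈ sA (cov G θ ZM) (up A ZM)) (h : s ⊂ t) :
    s.image Prod.fst ⊂ t.image Prod.fst :=
  ⟨Finset.image_subset_image h.1, fun k =>
    h.2 ((img_subset_B4 (cov_clique_inj ht) subset_rfl (Finset.coe_subset.2 h.1)).1 k)⟩

theorem bij_Cu1 (hθ : Coor G A θ) {e : ℤ} (he : e = 1 ∨ e = -1) :
    Set.BijOn (Finset.image Prod.fst) (cW G A θ \ cF G A θ e) (sA G A) := by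
  have key : ∀ s ∈ cW G A θ \ cF G A θ e, ∀ x ∈ s, x.2.toAdd = 0 ∨ x.2.toAdd = -e :=
    fun s hs x hx => by
      obtain ⟨h1, y, hy, h2⟩ := memW_Cu1.1 hs.1
      have h3 : x.2.toAdd ≠ e := fun k => hs.2 (memF_Cu1.2 ⟨hs.1, x, hx, k⟩)
      have h4 := le_Cu1 hθ h1 hx hy
      have h5 := le_Cu1 hθ h1 hy hx
      omega
  have sub : ∀ s ∈ cW G A θ \ cF G A θ e, ∀ t ∈ cW G A θ \ cF G A θ e,
      s.image Prod.fst = t.image Prod.fst → s ⊆ t := fun s hs t ht h => by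
    obtain ⟨d, hd⟩ := shift_Cu1 hθ hs.1.1 ht.1.1 h.subset
    obtain ⟨c, hc⟩ := shift_Cu1 hθ ht.1.1 hs.1.1 h.symm.subset
    obtain ⟨-, x, hx, x0⟩ := memW_Cu1.1 hs.1
    obtain ⟨-, y, hy, y0⟩ := memW_Cu1.1 ht.1
    obtain ⟨x', hx', a1, a2⟩ := hd x hx
    obtain ⟨x'', hx'', a3, a4⟩ := hc x' hx'
    obtain ⟨y', hy', -, b2⟩ := hc y hy
    rw [cov_clique_inj hs.1.1 hx'' hx (a3.trans a1)] at a4
    have h1 := key t ht x' hx'
    have h2 := key s hs y' hy'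
    obtain rfl : d = 0 := by omega
    exact zero_Cu1 hd
  refine ⟨fun s hs => img_Cu1 hs.1.1, fun s hs t ht h =>
    (sub s hs t ht h).antisymm (sub t ht s hs h.symm), fun σ hσ => ?_⟩
  obtain ⟨b, hb⟩ := hσ.1
  obtain ⟨a, ha, h1⟩ := Finset.exists_max_image σ (fun v => e * (θ v b).toAdd) hσ.1
  obtain ⟨s, ⟨s1, s2, s3⟩, -⟩ := cov_lift_clique hθ.flat hσ ha (1 : ZM)
  refine ⟨s, ⟨memW_Cu1.2 ⟨s1, _, s2, rfl⟩, fun k => ?_⟩, s3⟩
  obtain ⟨-, x, hx, h2⟩ := memF_Cu1.1 k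
  obtain ⟨h3, h4⟩ := lev_Cu1 hθ s1 hx s2
  have h5 : x.1 ∈ σ := s3 ▸ Finset.mem_image_of_mem _ hx
  have h6 := congrArg Multiplicative.toAdd (hθ.flat _ (hσ.2.1 h5) _ (hσ.2.1 ha) _ (hσ.2.1 hb) h3
    ((mem_sA.1 hσ).2.2 _ ha _ hb) ((mem_sA.1 hσ).2.2 _ h5 _ hb))
  have h7 := h1 _ h5
  simp only [toAdd_mul, toAdd_one] at h4 h6 h7
  rcases he with rfl | rfl <;> omega

theorem iso_Cu1 (hθ : Coor G A θ) {e : ℤ} (he : e = 1 ∨ e = -1) :
    IsIso (sG (V × ZM)) (cF G A θ e) (sG V) (mix G A θ) (Finset.image Prod.fst) := by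
  refine iso_of_subset_B4 (fun s hs => ?_) (fun s hs t ht => ⟨fun h => ?_,
    Finset.image_subset_image⟩) fun σ hσ => ?_
  · obtain ⟨⟨h1, x, hx, h2⟩, y, hy, h3⟩ := hs
    refine ⟨img_Cu1 h1, y.1, Finset.mem_image_of_mem _ hy, x.1, Finset.mem_image_of_mem _ hx,
      fun k => ?_⟩
    have h4 := (lev_Cu1 hθ h1 hy hx).2
    rw [k, h3, show x.2 = 1 from h2, toAdd_ofAdd, toAdd_one] at h4
    omega
  · obtain ⟨d, hd⟩ := shift_Cu1 hθ hs.1.1 ht.1.1 h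
    obtain ⟨k1, x, hx, a1⟩ := memF_Cu1.1 hs
    obtain ⟨-, y, hy, a2⟩ := memW_Cu1.1 k1
    obtain ⟨k2, z, hz, a3⟩ := memF_Cu1.1 ht
    obtain ⟨k3, w, hw, a4⟩ := memW_Cu1.1 k2
    obtain ⟨x', hx', -, b1⟩ := hd x hx
    obtain ⟨y', hy', -, b2⟩ := hd y hy
    have c1 := le_Cu1 hθ k3 hx' hw
    have c2 := le_Cu1 hθ k3 hw hx'
    have c3 := le_Cu1 hθ k3 hy' hz
    have c4 := le_Cu1 hθ k3 hz hy'
    obtain rfl : d = 0 := by omega
    exact zero_Cu1 hd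
  · have key : ∀ u ∈ σ, ∀ w ∈ σ, (θ u w).toAdd = e → ∃ s ∈ cF G A θ e, s.image Prod.fst = σ :=
      fun u hu w hw h => by
        obtain ⟨s, ⟨s1, s2, s3⟩, -⟩ := cov_lift_clique hθ.flat hσ.1 hw (1 : ZM)
        obtain ⟨x, hx, rfl⟩ := Finset.mem_image.1 (s3.symm ▸ hu : u ∈ s.image Prod.fst)
        refine ⟨s, memF_Cu1.2 ⟨memW_Cu1.2 ⟨s1, _, s2, rfl⟩, x, hx, ?_⟩, s3⟩
        rw [(lev_Cu1 hθ s1 hx s2).2, h, toAdd_one, add_zero]
    obtain ⟨h1, u, hu, w, hw, h2⟩ := hσ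
    have h3 := (mem_sA.1 h1).2.2 u hu w hw
    have h4 := hθ.le u (h1.2.1 hu) w (h1.2.1 hw) h3
    have h5 := hθ.le w (h1.2.1 hw) u (h1.2.1 hu) (adq_symm h3)
    have h6 := congrArg Multiplicative.toAdd (hθ.flat.symm (h1.2.1 hu) (h1.2.1 hw) h3)
    have h7 : (θ u w).toAdd ≠ 0 := fun k => h2 (toAdd_eq_zero.1 k)
    rw [toAdd_inv] at h6
    by_cases h8 : (θ u w).toAdd = e
    · exact key u hu w hw h8
    · exact key w hw u hu (by omega)

theorem lift_Cu1 (hθ : Coor G A θ) {τ : Finset (Finset V)} (hτ : τ ∈ sA (sG V) (sA G A)) :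
    ∃ σ ∈ sA (sG (V × ZM)) (cW G A θ), ∀ x, x ∈ τ ↔ ∃ y ∈ σ, y.image Prod.fst = x := by
  obtain ⟨b, hb, h1⟩ := exists_bot hτ
  obtain ⟨v, hv⟩ := (hτ.2.1 hb).1
  have h2 : ∀ x : Finset V, ∃ s : Finset (V × ZM), x ∈ sA G A → v ∈ x →
      s ∈ sA (cov G θ ZM) (up A ZM) ∧ (v, 1) ∈ s ∧ s.image Prod.fst = x := fun x => by
    by_cases h : x ∈ sA G A ∧ v ∈ x
    · exact (cov_lift_clique hθ.flat h.1 h.2 (1 : ZM)).exists.imp fun _ k _ _ => k
    · exact ⟨∅, fun k1 k2 => absurd ⟨k1, k2⟩ h⟩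
  choose f hf using h2
  have h3 : ∀ x ∈ τ, f x ∈ sA (cov G θ ZM) (up A ZM) ∧ (v, 1) ∈ f x ∧ (f x).image Prod.fst = x :=
    fun x hx => hf x (hτ.2.1 hx) (h1 x hx hv)
  have h4 : IsHom (sG V) (τ : Set (Finset V)) (sG (V × ZM)) (cW G A θ) f :=
    isHom_of_mono (fun x hx => memW_Cu1.2 ⟨(h3 x hx).1, _, (h3 x hx).2.1, rfl⟩)
      fun x hx y hy h => common_Cu1 hθ (h3 x hx).1 (h3 y hy).1
        (by rwa [(h3 x hx).2.2, (h3 y hy).2.2]) (h3 x hx).2.1 (h3 y hy).2.1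
  refine ⟨_, IsHom.image_mem h4 ⟨hτ.1, subset_rfl, hτ.2.2⟩, fun x => ?_⟩
  simp only [Finset.mem_image]
  constructor
  · exact fun hx => ⟨_, ⟨x, hx, rfl⟩, (h3 x hx).2.2⟩
  · rintro ⟨_, ⟨y, hy, rfl⟩, rfl⟩
    rwa [(h3 y hy).2.2]

end aux

theorem cut_theta {θ : V → V → ZM} (hθ : Coor G A θ) :
    Cut (sG (V × ZM)) (cW G A θ) (cF G A θ (-1)) (cF G A θ 1) (sG V) (sA G A) (mix G A θ)
      (Finset.image Prod.fst) := by
  refine ⟨fun _ h => h.1, fun _ h => h.1, fun a ha b hb h => ?_, fun u hu w hw h => ?_,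
    bij_Cu1 hθ (Or.inl rfl), bij_Cu1 hθ (Or.inr rfl), iso_Cu1 hθ (Or.inr rfl),
    iso_Cu1 hθ (Or.inl rfl), fun u hu a ha b hb e h1 h2 => ?_, fun τ hτ => ?_⟩
  · rcases adq_sG.1 h with h | h
    · exact nsub_Cu1 hθ hb.1 ha hb h subset_rfl
    · exact nsub_Cu1 hθ ha.1 ha hb subset_rfl h
  · exact Or.imp (ssub_Cu1 hw.1) (ssub_Cu1 hu.1) h
  · rcases h1 with h1 | h1 <;> rcases h2 with h2 | h2
    · obtain ⟨x, hx⟩ := hu.1.1
      exact nsub_Cu1 hθ hb.1 ha hb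
        (common_Cu1 hθ ha.1.1 hb.1.1 e.subset (h1.1 hx) (h2.1 hx)) subset_rfl
    · exact nsub_Cu1 hθ ha.1 ha hb subset_rfl (h2.1.trans h1.1)
    · exact nsub_Cu1 hθ hb.1 ha hb (h1.1.trans h2.1) subset_rfl
    · exact nsub_Cu1 hθ hu ha hb h1.1 h2.1
  · obtain ⟨σ, h1, h2⟩ := lift_Cu1 hθ hτ
    refine ⟨σ, h1, Finset.ext fun x => ?_⟩
    simp only [Finset.mem_image]
    exact (h2 x).symm

end Pool.Agent.MP_6374aa_g.BD

end

section

/-! The cut open manifold and the value of its cut label. -/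

namespace Pool.Agent.MP_6374aa_g.BD

open Pool.Agent.MP_6374aa_gt Classical

variable {V : Type} {G : SimpleGraph V} {A : Set V}

theorem rng_Cu2 {θ : V → V → ZM} (hθ : Coor G A θ) {u w : V} (hu : u ∈ A) (hw : w ∈ A)
    (h : Adq G u w) : θ u w = Multiplicative.ofAdd (-1) ∨ θ u w = 1 ∨
      θ u w = Multiplicative.ofAdd 1 := by
  have h1 := hθ.le u hu w hw h
  have h2 := hθ.le w hw u hu (adq_symm h)
  rw [hθ.flat.symm hu hw h, toAdd_inv] at h2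
  have h3 : (θ u w).toAdd = -1 ∨ (θ u w).toAdd = 0 ∨ (θ u w).toAdd = 1 := by omega
  exact h3.imp (congrArg Multiplicative.ofAdd)
    (Or.imp (congrArg Multiplicative.ofAdd) (congrArg Multiplicative.ofAdd))

theorem ne_Cu2 {e : ℤ} (he : e ≠ 0) : Multiplicative.ofAdd e ≠ (1 : ZM) :=
  fun h => he (congrArg Multiplicative.toAdd h)

theorem cw_mf (hc : Cl G 3 A) {θ : V → V → ZM} (hθ : Coor G A θ) :
    (cW G A θ).Finite ∧ Mf (sG (V × ZM)) 3 (cW G A θ) (cF G A θ (-1) ∪ cF G A θ 1) := by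
  have hm : Mf (cov G θ ZM) 3 (up A ZM) ∅ := Mf.cov (Ω := ZM) hθ.flat hc.2.2
  refine ⟨nb_finite ?_ (Mfa.mono hm Set.inter_subset_left), mf_congr_C5 (hm.nb_empty le_rfl) ?_⟩
  · refine (hc.1.image fun a => (a, (1 : ZM))).subset ?_
    rintro ⟨a, k⟩ ⟨h1, h2⟩
    exact ⟨a, h1, Prod.ext rfl (Eq.symm h2)⟩
  · intro s hs
    constructor
    · rintro ⟨h1, ⟨⟨w, k⟩, hy, h2⟩, h3⟩
      obtain ⟨⟨u, m⟩, hx, h4⟩ := Set.not_subset.1 h3
      obtain rfl : k = 1 := h2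
      have hu : u ∈ A := h1.2.1 hx
      have hw : w ∈ A := h1.2.1 hy
      obtain ⟨a1, a2⟩ := (cov_adq hθ.flat hu hw).1 ((mem_sA.1 h1).2.2 _ hx _ hy)
      rw [smul_eq_mul, mul_one] at a2
      rcases rng_Cu2 hθ hu hw a1 with e | e | e
      · exact Or.inl ⟨hs, _, hx, a2.trans e⟩
      · exact (h4 (a2.trans e)).elim
      · exact Or.inr ⟨hs, _, hx, a2.trans e⟩
    · rintro (⟨-, x, hx, e⟩ | ⟨-, x, hx, e⟩)
      · exact ⟨hs.1, hs.2, fun h => ne_Cu2 (by norm_num) (e.symm.trans (h hx))⟩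
      · exact ⟨hs.1, hs.2, fun h => ne_Cu2 (by norm_num) (e.symm.trans (h hx))⟩

theorem pair_Cu2 {θ : V → V → ZM} (hθ : Coor G A θ) {a b : V} (ha : a ∈ A) (hb : b ∈ A)
    (h : Adq G a b) : ∃ u ∈ cW G A θ, ∃ w ∈ cW G A θ, u ⊆ w ∧ u.image Prod.fst = {a} ∧
      (∀ x, x ∈ w.image Prod.fst ↔ x = a ∨ x = b) ∧ ind (cF G A θ 1) u = 0 ∧
      ind (cF G A θ 1) w = if θ b a = Multiplicative.ofAdd 1 then 1 else 0 := by
  have h1 : Adq (cov G θ ZM) (b, θ b a) (a, 1) :=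
    (cov_adq hθ.flat hb ha).2 ⟨adq_symm h, by rw [smul_eq_mul, mul_one]⟩
  obtain ⟨w, hw⟩ : ∃ w : Finset (V × ZM), ∀ x, x ∈ w ↔ x = (a, 1) ∨ x = (b, θ b a) :=
    ⟨{(a, 1), (b, θ b a)}, by simp⟩
  have hwW : w ∈ cW G A θ := by
    refine ⟨mem_sA.2 ⟨⟨_, (hw _).2 (Or.inl rfl)⟩, fun x hx => ?_, fun x hx y hy => ?_⟩,
      _, (hw _).2 (Or.inl rfl), rfl⟩
    · rcases (hw x).1 hx with rfl | rfl
      exacts [ha, hb]
    · rcases (hw x).1 hx with rfl | rfl <;> rcases (hw y).1 hy with rfl | rfl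
      exacts [adq_refl _, adq_symm h1, h1, adq_refl _]
  refine ⟨{(a, 1)}, ⟨singleton_mem_sA.2 ha, _, Finset.mem_singleton_self _, rfl⟩, w, hwW,
    Finset.singleton_subset_iff.2 ((hw _).2 (Or.inl rfl)), Finset.image_singleton _ _,
    fun x => ?_, if_neg ?_, ?_⟩
  · rw [Finset.mem_image]
    constructor
    · rintro ⟨y, hy, rfl⟩
      rcases (hw y).1 hy with rfl | rfl
      exacts [Or.inl rfl, Or.inr rfl]
    · rintro (rfl | rfl)
      exacts [⟨_, (hw _).2 (Or.inl rfl), rfl⟩, ⟨_, (hw _).2 (Or.inr rfl), rfl⟩]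
  · rintro ⟨-, x, hx, e⟩
    rw [Finset.mem_singleton.1 hx] at e
    exact ne_Cu2 one_ne_zero e.symm
  · refine if_congr ⟨?_, fun e => ⟨hwW, _, (hw _).2 (Or.inr rfl), e⟩⟩ rfl rfl
    rintro ⟨-, x, hx, e⟩
    rcases (hw x).1 hx with rfl | rfl
    · exact (ne_Cu2 one_ne_zero e.symm).elim
    · exact e

theorem edge_Cu2 {θ : V → V → ZM} (hθ : Coor G A θ) {θ1 : Finset V → Finset V → ZM}
    (h1 : CLab (sG (V × ZM)) (cW G A θ) (cF G A θ 1) (Finset.image Prod.fst) θ1) {a b : V}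
    (ha : a ∈ A) (hb : b ∈ A) (h : Adq G a b) :
    θ1 {a} {a, b} * θ1 {a, b} {b} = (θ a b)⁻¹ := by
  obtain ⟨u, hu, w, hw, s1, e1, e2, i1, i2⟩ := pair_Cu2 hθ ha hb h
  obtain ⟨u', hu', w', hw', s2, e3, e4, i3, i4⟩ := pair_Cu2 hθ hb ha (adq_symm h)
  have c1 := h1 u hu w hw (adq_sG.2 (Or.inl s1))
  have c2 := h1 w' hw' u' hu' (adq_sG.2 (Or.inr s2))
  have e5 : w.image Prod.fst = {a, b} := by
    ext x
    rw [e2, Finset.mem_insert, Finset.mem_singleton]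
  have e6 : w'.image Prod.fst = {a, b} := by
    ext x
    rw [e4, Finset.mem_insert, Finset.mem_singleton, or_comm]
  rw [e1, e5, i1, i2] at c1
  rw [e3, e6, i3, i4] at c2
  rw [c1, c2, hθ.flat.symm ha hb h]
  rcases rng_Cu2 hθ ha hb h with e | e | e <;> rw [e] <;> decide

theorem cw_ev {θ : V → V → ZM} (hθ : Coor G A θ) {θ1 : Finset V → Finset V → ZM}
    (h1 : CLab (sG (V × ZM)) (cW G A θ) (cF G A θ 1) (Finset.image Prod.fst) θ1) {a b : V}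
    {l : List V} (hw : Wk G A a l b) : ev θ1 {a} (sdw a l) = (ev θ a l)⁻¹ := by
  induction hw with
  | nil _ => simp [ev, sdw]
  | @cons a b c l ha hab hw ih =>
    simp only [ev, sdw]
    rw [← mul_assoc, edge_Cu2 hθ h1 ha hw.mem_left hab, ih, mul_inv]

end Pool.Agent.MP_6374aa_g.BD

end

section

/-! The fixed data under subdivision. -/

namespace Pool.Agent.MP_6374aa_g.BD

open Pool.Agent.MP_6374aa_gt Classical

variable {X : Cx} {Γ K : Type} [Group Γ] [Group K] {Nm Np : Subgroup Γ} {κ : Cst}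
  {b : Bas X Γ K}

theorem pu_mem {V : Type} (a : V) {s : Finset V} (h : s.Nonempty) : pu a s ∈ s :=
  @pk_mem V ⟨a⟩ Set.univ s h

theorem pu_pe {V : Type} {G : SimpleGraph V} {A Y : Set V} (hY : Y ⊆ A) (a : V) :
    PE (sG V) {s | s ∈ sA G A ∧ pu a s ∈ Y} G Y (pu a) := by
  have p1 := (ret_down (P := {s | s ∈ sA G A ∧ pu a s ∈ Y}) (P0 := sA G Y)
    (r := fun s => s.filter (· ∈ Y)) (fun s hs => ⟨sA_mono hY hs, hs.2.1 (pu_mem a hs.1)⟩)
    (fun s hs => ⟨⟨⟨_, Finset.mem_filter.2 ⟨pu_mem a hs.1.1, hs.2⟩⟩,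
      fun v hv => (Finset.mem_filter.1 hv).2,
      hs.1.2.2.subset (Finset.coe_subset.2 (Finset.filter_subset _ _))⟩, Finset.filter_subset _ _⟩)
    (fun s _ t _ e => Finset.filter_subset_filter _ e)
    fun s hs => Finset.filter_eq_self.2 fun v hv => hs.2.1 hv).1
  exact PE.of_comp_left (g := id) (sd_pe fun s hs => pu_mem a hs.1) p1
    (isHom_pick (fun _ h => h.1) fun s hs => ⟨pu_mem a hs.1.1, hs.2⟩)

section

variable {V : Type} {G : SimpleGraph V} {A : Set V}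

theorem pe_Ba (P : V → Prop) (a : V) :
    PE (sG V) {s | s ∈ sA G A ∧ P (pu a s)} G {v | v ∈ A ∧ P v} (pu a) := by
  have e : {s | s ∈ sA G A ∧ P (pu a s)} = {s | s ∈ sA G A ∧ pu a s ∈ {v | v ∈ A ∧ P v}} :=
    Set.ext fun s => and_congr_right fun hs => (and_iff_right (hs.2.1 (pu_mem a hs.1))).symm
  rw [e]
  exact pu_pe (fun _ h => h.1) a

theorem sub_Ba (P : V → Prop) (a : V) :
    sA G {v | v ∈ A ∧ P v} ⊆ {s | s ∈ sA G A ∧ P (pu a s)} :=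
  fun _ hs => ⟨sA_mono (fun _ h => h.1) hs, (hs.2.1 (pu_mem a hs.1)).2⟩

theorem pes_Ba (h : V → ℤ) (p q : ℤ) (a : V) :
    PE (sG V) (slab (sA G A) (fun t => h (pu a t)) p q) G (slab A h p q) (pu a) :=
  pe_Ba (fun v => p ≤ h v ∧ h v ≤ q) a

theorem subs_Ba (h : V → ℤ) (p q : ℤ) (a : V) :
    sA G (slab A h p q) ⊆ slab (sA G A) (fun t => h (pu a t)) p q :=
  sub_Ba (fun v => p ≤ h v ∧ h v ≤ q) a

theorem slab_mono_Ba {h : V → ℤ} {p q p' q' : ℤ} (h1 : p' ≤ p) (h2 : q ≤ q') :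
    slab A h p q ⊆ slab A h p' q' :=
  fun _ hv => ⟨hv.1, h1.trans hv.2.1, hv.2.2.trans h2⟩

theorem desc_Ba (a : V) {L : Type} [Group L] {lab : Finset V → Finset V → L}
    (hl : Flat (sG V) (sA G A) lab) : ∃ (l0 : V → V → L) (k : V → L), Flat G A l0 ∧
      ∀ x l y, Wk G A x l y → ev lab {x} (sdw x l) = k x * ev l0 x l * (k y)⁻¹ := by
  have hπ : ∀ s ∈ sA G A, pu a s ∈ s := fun s hs => pu_mem a hs.1
  obtain ⟨l0, k, h0, hk⟩ := (sd_pe hπ).desc L lab hl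
  exact ⟨l0, fun x => k {x}, h0, fun x l y hw => by
    rw [ev_gau hk (sdw_wk hw), ev_sdw h0 hπ hw]⟩

end

theorem bas_sd (hb : b.Ok Nm Np κ) : b.sd.Ok Nm Np κ := by
  have c0 : (0 : ℤ) ≤ κ.c := Int.natCast_nonneg _
  have i1 := hb.b01
  have i2 := hb.b1l
  have i3 := hb.lohi
  have i4 := hb.ht1
  have i5 := hb.t10
  have wη := hb.wη.mono (slab_mono_Ba (p' := κ.B0 - κ.c) (q' := κ.T0 + κ.c) (by omega) (by omega))
  have wm := fun x => (hb.wm x).mono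
    (slab_mono_Ba (p' := κ.B0 - κ.c) (q' := κ.T0 + κ.c) (by omega) (by omega))
  have wp := fun x => (hb.wp x).mono
    (slab_mono_Ba (p' := κ.B0 - κ.c) (q' := κ.T0 + κ.c) (by omega) (by omega))
  refine ⟨hb.cl.sd le_rfl, fun u hu w hw e => ?_, i1, i2, i3, i4, i5,
    flat_pull hb.flat (pes_Ba b.h _ _ b.mm).hom, fun a c h1 h2 h3 h4 x l hw he => ?_,
    (sdw_wk hb.wη).mono (subs_Ba b.h _ _ b.mm), fun x => (sdw_wk (hb.wm x)).mono (subs_Ba b.h _ _ b.mm),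
    fun x => (sdw_wk (hb.wp x)).mono (subs_Ba b.h _ _ b.mm), fun L _ lab hl => ?_, fun x => ?_,
    fun x hx => ?_, fun x hx => ?_⟩
  · have i := (sd_pe (G := X.G) (A := X.A) fun s hs => pu_mem b.mm hs.1).hom
    change b.h (pu b.mm u) ≤ b.h (pu b.mm w) + 1
    rcases i.2 u hu w hw e with k | k
    · rw [k]
      omega
    · exact hb.lip _ (i.1 u hu) _ (i.1 w hw) k
  · refine (pes_Ba b.h _ _ b.mm).null (hw.mono (slab_mono_Ba (by omega) (by omega)))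
      (hb.ker a c h1 h2 h3 h4 _ _ (Wk.map (pes_Ba b.h _ _ b.mm).hom hw) ?_)
    exact (ev_pull (pu b.mm) b.s x l).symm.trans he
  · obtain ⟨l0, k, h0, hk⟩ := desc_Ba b.mm (Flat.mono hl (subs_Ba b.h _ _ b.mm))
    obtain ⟨m1, m2⟩ := hb.mul L l0 h0
    refine ⟨fun x y => (hk _ _ _ (wm _)).trans (Eq.trans ?_
      (congrArg₂ (· * ·) (hk _ _ _ (wm x)) (hk _ _ _ (wm y))).symm), fun x =>
      (congrArg₂ (· * ·) (hk _ _ _ wη) (hk _ _ _ (wp x))).trans (Eq.trans ?_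
        (congrArg₂ (· * ·) (hk _ _ _ (wm x)) (hk _ _ _ wη)).symm)⟩
    · rw [m1]
      group
    · have m3 := congrArg (fun z => k b.mm * z * (k b.mp)⁻¹) (m2 x)
      simpa only [mul_assoc, inv_mul_cancel_left] using m3
  · exact (congrArg _ (ev_sdw hb.flat (fun s hs => pu_mem b.mm hs.1) (wm x))).trans (hb.rho x)
  · refine (null_sdw ((hb.wm x).mono fun v hv => ?_) (hb.killm x hx)).mono
      (sub_Ba (fun v => b.h v ≤ κ.B1 + κ.c) b.mm)
    exact ⟨hv.1, hv.2.2.trans (by omega)⟩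
  · refine (null_sdw ((hb.wp x).mono fun v hv => ?_) (hb.killp x hx)).mono
      (sub_Ba (fun v => κ.T1 - κ.c ≤ b.h v) b.mm)
    exact ⟨hv.1, le_trans (by omega) hv.2.1⟩

end Pool.Agent.MP_6374aa_g.BD

end

section

/-! The states under subdivision, exchange of sides and cutting. -/

namespace Pool.Agent.MP_6374aa_g.BD

open Pool.Agent.MP_6374aa_gt Classical

variable {X : Cx} {Γ K : Type} [Group Γ] [Group K] {Nm Np : Subgroup Γ} {κ : Cst}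
  {b : Bas X Γ K}

theorem ne_Tw {U : Type} {H : SimpleGraph U} {P Q : Set U} (h : Far H P Q) : NE H P Q :=
  fun a ha c hc e => h a ha.1 c hc.1 (Or.inr e)

theorem wk_Tw (hb : b.Ok Nm Np κ) : Wk X.G X.A b.mm b.η b.mp := hb.wη.mono fun _ h => h.1

theorem cd_sd (hb : b.Ok Nm Np κ) {z : CD X} {lo hi : ℤ} {n : ℕ} (hz : z.Ok b lo hi n) :
    z.sd.Ok b.sd lo hi n := by
  have e : sA z.H z.W ∩ ins (z.Fm ∪ z.Fp) = sA z.H z.Fm ∪ sA z.H z.Fp := by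
    rw [← sA_inter, Set.inter_eq_right.2 (Set.union_subset hz.cut.subm hz.cut.subp),
      sA_union (ne_Tw hz.cut.far)]
  obtain ⟨θ, h1, h2⟩ := hz.par
  obtain ⟨θ', h3⟩ := clab_ex hz.cut.sd subset_rfl hz.cut.sd.far.symm.disjoint
  refine ⟨hz.clF.sd (by norm_num), sA_finite hz.fin, (hz.mf.sd le_rfl).congr subset_rfl
    fun σ hσ => ⟨fun k t ht => e.subset ⟨hσ.2.1 ht, k ht⟩, fun k t ht => (e.symm.subset (k ht)).2⟩,
    hz.cut.sd, fun s hs => ⟨sA_mono hz.cut.subset hs, (hz.sub (hs.2.1 (pu_mem b.mm hs.1))).2⟩,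
    rk_sA.2 hz.rk, θ', h3, ?_⟩
  exact (clab_sd hz.cut h1 h3 (wk_Tw hb)).symm ▸ h2

theorem cd_symm {z : CD X} {lo hi : ℤ} {n : ℕ} (hb : b.Ok Nm Np κ) (hz : z.Ok b lo hi n)
    (h1 : κ.B1 < lo) (h2 : hi < κ.T1) : z.symm.Ok b lo hi n := by
  obtain ⟨θ, h3, h4⟩ := hz.par
  obtain ⟨θ', h5⟩ := clab_ex hz.cut.symm subset_rfl hz.cut.far.disjoint
  refine ⟨hz.clF, hz.fin, Set.union_comm z.Fm z.Fp ▸ hz.mf, hz.cut.symm, hz.sub, hz.rk, θ', h5, ?_⟩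
  rw [clab_symm hz.cut h5 h3 (wk_Tw hb) (fun k => ?_) fun k => ?_, toAdd_inv]
  · exact h4.neg
  · have k1 := (hz.sub k).2.1
    have k2 := (hb.wm 1).mem_left.2.2
    omega
  · have k1 := (hz.sub k).2.2
    have k2 := (hb.wp 1).mem_left.2.1
    omega

theorem li_sd {z : CD X} [Nonempty z.U] {lo hi lo' hi' : ℤ} {n : ℕ} (hz : z.Ok b lo hi n)
    {L : Type} [Group L] {T C B : Set z.U} {lab : z.U → z.U → L} (h : LI z b lo' hi' T C B lab) :
    LI z.sd b.sd lo' hi' (ins T) (nb z.H z.W C) (nb z.H (z.W ∩ T) B) (pull (pk B) lab) := by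
  have e : sA z.H (z.W ∩ T) = sA z.H z.Fm ∪ sA z.H z.Fp := by
    rw [h.tW, sA_union (ne_Tw hz.cut.far)]
  refine ⟨(sA_inter T).symm.trans e, Set.Subset.antisymm ?_ fun s hs => ⟨e.symm.subset (Or.inr hs),
    hs.1.imp fun v k => ⟨k, h.hB.symm.subset (hs.2.1 k)⟩⟩, fun s hs => ⟨sA_mono hz.cut.subp hs,
    hs.1.imp fun v k => ⟨k, h.pC (hs.2.1 k)⟩⟩, fun s hs => hs.1, ?_, flat_pull h.flat
    (isHom_pick subset_rfl fun s hs => ⟨pk_mem _ hs.1, hs.2.1 (pk_mem _ hs.1)⟩)⟩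
  · rintro s ⟨k1, v, k2, k3⟩
    exact (e.subset k1).resolve_left fun k =>
      hz.cut.far v (k.2.1 k2) v (h.hB.subset k3) (adq_refl v)
  · rintro u ⟨k1, v, k2, k3⟩ w hw k4
    have k5 := IsHom.image_mem hz.cut.hom hw
    obtain ⟨y, k6, k7⟩ := Finset.mem_image.1 (pu_mem b.mm k5.1)
    have k8 : Adq z.H v y := (adq_sG.1 k4).elim (fun k => (mem_sA.1 hw).2.2 v (k k2) y k6)
      fun k => (mem_sA.1 k1).2.2 v k2 y (k k6)
    have k9 := (h.star v k3 y (hw.2.1 k6) k8).2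
    rw [k7] at k9
    exact ⟨k5, k9⟩

theorem disc_sd {L : Type} [Group L] {S : Setup L} {D : Set S.V} (h : S.Disc D)
    (hl : Flat S.G S.B S.lab) (hD : D ⊆ S.A) : S.sd.Disc (sA S.G D) := by
  have e : sA S.G D ∩ ins S.T = sA S.G (D ∩ S.T) := (sA_inter _).symm
  refine ⟨fun s hs => ⟨sA_mono hD hs, hs.1.imp fun v k => ⟨k, h.subC (hs.2.1 k)⟩⟩,
    h.ball.sd le_rfl, fun s hs => ?_, fun k => h.ess (pot_of_pot_sd (hl.mono h.subB)
      (fun s hs => pk_mem S.B hs.1) (k.mono e.symm.subset))⟩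
  have k := e.subset hs
  exact ⟨sA_mono (Set.inter_subset_inter_left _ hD) k,
    k.1.imp fun v k1 => ⟨k1, h.subB (k.2.1 k1)⟩⟩

theorem one (hb : b.Ok Nm Np κ) {lo hi : ℤ} {n : ℕ} (h : TS b lo hi n) :
    ∃ z : CD X.sd, z.Ok b.sd (lo - 1) (hi + 1) n := by
  obtain ⟨θ, h1, h2, h3, h4⟩ := h
  obtain ⟨θ', s, k1, k2, k3, k4, k5⟩ := comp_theta h1 (wk_Tw hb) h4
  have hc := cut_theta k1
  obtain ⟨k6, k7⟩ := cw_mf hb.cl k1
  obtain ⟨θ1, k8⟩ := clab_ex hc subset_rfl hc.far.symm.disjoint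
  refine ⟨⟨mix X.G X.A θ', Finset (X.V × ZM), sG _, cW X.G X.A θ', cF X.G X.A θ' (-1),
    cF X.G X.A θ' 1, Finset.image Prod.fst⟩, ⟨(sA_finite hb.cl.1).subset fun t ht => ht.1,
    k5.symm ▸ con_cmp k4, cut_bd hc k7⟩, k6, k7, hc, ?_, k5.symm ▸ h3 s k4, θ1, k8, ?_⟩
  · rintro t ⟨a1, u, a2, w, a3, a4⟩
    have a5 := (mem_sA.1 a1).2.2
    have a6 := h2 u (a1.2.1 a2) w (a1.2.1 a3) (a5 u a2 w a3) (k2 u w a4)
    have a7 := pu_mem b.mm a1.1
    refine ⟨a1, ?_⟩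
    change lo - 1 ≤ b.h (pu b.mm t) ∧ b.h (pu b.mm t) ≤ hi + 1
    obtain ⟨-, a8, a9⟩ := a6
    rcases a5 u a2 _ a7 with e | e
    · rw [← e]
      omega
    · have b1 := hb.lip u (a1.2.1 a2) _ (a1.2.1 a7) e
      have b2 := hb.lip _ (a1.2.1 a7) u (a1.2.1 a2) e.symm
      omega
  · have e := cw_ev k1 k8 (wk_Tw hb)
    change Odd (ev θ1 {b.mm} (sdw b.mm b.η)).toAdd
    rw [e, toAdd_inv]
    exact k3.neg

end Pool.Agent.MP_6374aa_g.BD

end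

section

/-! Compression lowers the rank. -/

namespace Pool.Agent.MP_6374aa_g.BD

open Pool.Agent.MP_6374aa_gt Classical

variable {U : Type} {H : SimpleGraph U} {W T F D : Set U} {σ : U → Set U}

theorem prod_split_R7 {n : ℕ} (S0 : Finset (Fin (n + 1))) (f : Fin (n + 1) → Z2) :
    ∏ j ∈ S0, f j = (if 0 ∈ S0 then f 0 else 1) *
      ∏ i ∈ Finset.univ.filter (fun i : Fin n => i.succ ∈ S0), f i.succ := by
  rw [Finset.prod_filter, ← Fin.prod_univ_succ (fun j => if j ∈ S0 then f j else 1),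
    Finset.prod_ite_mem, Finset.univ_inter]

theorem RS.hom_R7 (h : RS H W T F D σ) :
    IsHom (sG U) (ov H W F D (nb H F (F \ D))) (sG U) (nb H F (F \ D)) (rs F) :=
  (h.ov_pe subset_rfl fun _ hs _ ht hst =>
    ⟨ht, hs.2.choose, hst hs.2.choose_spec.1, hs.2.choose_spec.2⟩).hom

theorem RS.step (h : RS H W T F D σ) {n : ℕ} (hr : Rk H F (n + 1))
    {θ : Fin (n + 1) → Finset U → Finset U → Z2}
    (hθ : ∀ i, Flat (sG U) (fr H W (F ∪ D)) (θ i)) {ψ Λ : Finset U → Finset U → Z2}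
    {k : Finset U → Z2} (hψ : Flat (sG U) (fr H W (F ∪ D)) ψ) (hΛ : Flat (sG U) (sA H F) Λ)
    (hk : Gau (sG U) (ov H W F D (nb H F (F \ D))) ψ (pull (rs F) Λ) k) :
    (Pot (sG U) (sA H F) Λ ∧ Pot (sG U) (fr H W (F ∪ D)) ψ) ∨
      ∃ S : Finset (Fin (n + 1)), S.Nonempty ∧
        ((Pot (sG U) (fr H W (F ∪ D)) fun u w => ∏ i ∈ S, θ i u w) ∨
          Pot (sG U) (fr H W (F ∪ D)) fun u w => ψ u w * ∏ i ∈ S, θ i u w) := by
  choose Lam k' h1 h2 using fun i => h.descend (hθ i)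
  have f1 : ∀ j, Flat (sG U) (sA H F) ((Fin.cons Λ Lam : Fin (n + 2) → _) j) := fun j =>
    Fin.cases hΛ h1 j
  have f2 : ∀ j, Flat (sG U) (fr H W (F ∪ D)) ((Fin.cons ψ θ : Fin (n + 2) → _) j) := fun j =>
    Fin.cases hψ hθ j
  have f3 : ∀ j, Gau (sG U) (ov H W F D (nb H F (F \ D))) ((Fin.cons ψ θ : Fin (n + 2) → _) j)
      (pull (rs F) ((Fin.cons Λ Lam : Fin (n + 2) → _) j))
      ((Fin.cons k k' : Fin (n + 2) → _) j) := fun j => Fin.cases hk h2 j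
  obtain ⟨S0, hS0, hp⟩ := rk_sA.2 hr (Fin.cons Λ Lam) f1
  have g1 : Gau (sG U) (ov H W F D (nb H F (F \ D)))
      (fun u w => ∏ j ∈ S0, (Fin.cons ψ θ : Fin (n + 2) → _) j u w)
      (pull (rs F) fun u w => ∏ j ∈ S0, (Fin.cons Λ Lam : Fin (n + 2) → _) j u w)
      fun u => ∏ j ∈ S0, (Fin.cons k k' : Fin (n + 2) → _) j u := by
    intro u hu w hw huw
    simp only [pull]
    rw [← Finset.prod_inv_distrib, ← Finset.prod_mul_distrib, ← Finset.prod_mul_distrib]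
    exact Finset.prod_congr rfl fun j _ => f3 j u hu w hw huw
  have g2 := h.ascend (flat_prod S0 fun j _ => f2 j)
    (g1.pot (Pot.pull (Pot.mono hp fun _ hs => hs.1) h.hom_R7))
  simp only [prod_split_R7 S0, Fin.cons_zero, Fin.cons_succ] at g2 hp
  rcases (Finset.univ.filter (fun i : Fin (n + 1) => i.succ ∈ S0)).eq_empty_or_nonempty with e | e
  · have h0 : 0 ∈ S0 := by
      obtain ⟨j, hj⟩ := hS0
      refine Fin.cases (motive := fun j => j ∈ S0 → 0 ∈ S0) id (fun i hi => ?_) j hj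
      have : i ∈ Finset.univ.filter (fun i : Fin (n + 1) => i.succ ∈ S0) := by simpa using hi
      rw [e] at this
      exact absurd this (Finset.notMem_empty _)
    simp only [e, h0, if_true, Finset.prod_empty, mul_one] at g2 hp
    exact Or.inl ⟨hp, g2⟩
  · refine Or.inr ⟨_, e, ?_⟩
    by_cases h0 : 0 ∈ S0
    · simp only [h0, if_true] at g2
      exact Or.inr g2
    · simp only [h0, if_false, one_mul] at g2
      exact Or.inl g2

theorem RS.side_R7 (h : RS H W T F D σ) {L : Type} [Group L] {lab : U → U → L}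
    (hl : Flat H F lab) (he : ¬ Pot H (D ∩ T) lab) {n : ℕ} (hr : Rk H F (n + 1))
    {Y C : Set (Finset U)} (hY : Clopen (sG U) (fr H W (F ∪ D)) Y) (h1 : np H W F D σ ⊆ Y)
    (h2 : ∀ s ∈ Y, Meets s D → Pos D σ s) (hC : C ⊆ fr H W (F ∪ D) \ Y)
    {θ : Fin (n + 1) → Finset U → Finset U → Z2}
    (hθ : ∀ i, Flat (sG U) (fr H W (F ∪ D)) (θ i)) :
    ∃ S : Finset (Fin (n + 1)), S.Nonempty ∧ Pot (sG U) C fun u w => ∏ i ∈ S, θ i u w := by
  have hn : ¬ NDC (sG U) Y := fun hn => he (h.ess hY h1 h2 hn hl)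
  obtain ⟨ψ0, a1, a2⟩ : ∃ ψ0 : Finset U → Finset U → Z2, Flat (sG U) Y ψ0 ∧ ¬ Pot (sG U) Y ψ0 := by
    by_contra c
    exact hn fun ψ0 a1 => by_contra fun a2 => c ⟨ψ0, a1, a2⟩
  obtain ⟨ψ, b1, b2, b3⟩ := ext_clopen hY a1
  obtain ⟨Λ, k, c1, c2⟩ := h.descend b1
  have hC' : C ⊆ fr H W (F ∪ D) := fun s hs => (hC hs).1
  rcases h.step hr hθ b1 c1 c2 with ⟨-, d⟩ | ⟨S, hS, d | d⟩
  · exact absurd (Pot.congr (Pot.mono d hY.1) fun u hu w hw _ => (b2 u hu w hw).symm) a2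
  · exact ⟨S, hS, Pot.mono d hC'⟩
  · refine ⟨S, hS, Pot.congr (Pot.mono d hC') fun u hu w _ _ => ?_⟩
    rw [b3 u w (Or.inl (hC hu).2), one_mul]

theorem rank_drop (hf : W.Finite) (hm : Mf H 3 W T) (hc : Clopen H (W ∩ T) F) (hD : D ⊆ W)
    (hb : Ball H 3 D T) (hT : D ∩ T ⊆ F) (hne : NE H D F) {L : Type} [Group L] {lab : U → U → L}
    (hl : Flat H F lab) (he : ¬ Pot H (D ∩ T) lab) {n : ℕ} (hr : Rk H F (n + 1)) :
    ∀ s ∈ fr H W (F ∪ D), Rk (sG U) (cmp (sG U) (fr H W (F ∪ D)) s) n := by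
  obtain ⟨σ, hσ⟩ := exists_sided (d := 2) (β := sub T) (fun v hv => hm v (hD hv)) (Cell.mfa hb)
    le_rfl hD (Cell.ndc hb)
  have h : RS H W T F D σ := ⟨hf, hm, hc, hD, hb, hT, hne, hσ⟩
  intro s hs θ hθ
  have hC := clopen_cmp (G := sG U) (A := fr H W (F ∪ D)) s
  choose θ' e1 e2 e3 using fun i => ext_clopen hC (hθ i)
  suffices k : ∃ S : Finset (Fin (n + 1)), S.Nonempty ∧
      Pot (sG U) (cmp (sG U) (fr H W (F ∪ D)) s) fun u w => ∏ i ∈ S, θ' i u w by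
    obtain ⟨S, hS, k⟩ := k
    exact ⟨S, hS, Pot.congr k fun u hu w hw _ =>
      Finset.prod_congr rfl fun i _ => (e2 i u hu w hw).symm⟩
  rcases h.dich with ⟨η, a1, a2, a3⟩ | ⟨Z, a1, a2, a3⟩
  · have g : Gau (sG U) (ov H W F D (nb H F (F \ D))) (fun _ _ => 1) (pull (rs F) η)
        fun _ => 1 := by
      intro u hu w hw huw
      simp only [pull]
      rw [a2 _ (h.hom_R7.1 u hu) _ (h.hom_R7.1 w hw) (IsHom.adq h.hom_R7 hu hw huw)]
      simp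
    rcases h.step hr e1 flat_one a1 g with ⟨d, -⟩ | ⟨S, hS, d | d⟩
    · exact absurd d a3
    · exact ⟨S, hS, Pot.mono d hC.1⟩
    · exact ⟨S, hS, Pot.congr (Pot.mono d hC.1) fun u _ w _ _ => (one_mul _).symm⟩
  · by_cases hz : s ∈ Z
    · have hsub := Pre.subset_clopen (con_cmp hs).2 hC.1 a1 (mem_cmp_self hs) hz
      refine h.symm.side_R7 hl he hr a1.diff (fun t ht => ⟨ht.1, fun c => ?_⟩)
        (fun t ht c => ?_) (fun t ht => ⟨hC.1 ht, fun c => c.2 (hsub ht)⟩) e1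
      · obtain ⟨m1, m2⟩ := h.symm.pos_mix ht.2
        exact (h.pos_opp ht.1.1 m1 m2).1 ht.2 (a3 t c m1)
      · exact (h.pos_opp ht.1.1 c fun m => ht.1.2.2 (m.trans Set.subset_union_right)).2
          fun m => ht.2 (a2 ⟨ht.1, m⟩)
    · exact h.side_R7 hl he hr a1 a2 a3
        (Pre.subset_clopen (con_cmp hs).2 hC.1 a1.diff (mem_cmp_self hs) ⟨hs, hz⟩) e1

end Pool.Agent.MP_6374aa_g.BD

end

section

/-! Compression along a disc. -/

namespace Pool.Agent.MP_6374aa_g.BD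

open Pool.Agent.MP_6374aa_gt Classical

variable {X : Cx} {Γ K : Type} [Group Γ] [Group K] {Nm Np : Subgroup Γ} {κ : Cst}
  {b : Bas X Γ K}

theorem image_cmp_Tx {V V' : Type} {G : SimpleGraph V} {G' : SimpleGraph V'} {A : Set V}
    {A' : Set V'} {f : V' → V} (hf : IsIso G' A' G A f) {a : V'} (ha : a ∈ A') :
    f '' cmp G' A' a = cmp G A (f a) := by
  ext y
  constructor
  · rintro ⟨x, hx, rfl⟩
    exact ⟨hf.1.mapsTo hx.1, hx.2.map (IsIso.hom hf)⟩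
  · rintro ⟨hy, hr⟩
    obtain ⟨x, hx, rfl⟩ := hf.1.surjOn hy
    exact ⟨x, ⟨hx, (IsIso.pe hf).reach ha hx hr⟩, rfl⟩

theorem two (hb : b.Ok Nm Np κ) {z : CD X} {lo hi lo' hi' : ℤ} {n : ℕ}
    (hz : z.Ok b lo hi (n + 1)) {L : Type} [Group L] {T C B D : Set z.U} {lab : z.U → z.U → L}
    (h : LI z b lo' hi' T C B lab) (hDW : D ⊆ z.W) (hDC : D ⊆ C) (hD : Ball z.H 3 D T)
    (hT : D ∩ T ⊆ B) (he : ¬ Pot z.H (D ∩ T) lab) (hne : NE z.H D z.Fp) (h1 : κ.B1 < lo')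
    (h2 : hi' < κ.T1) : TS b lo' hi' n := by
  have hc := hz.cut
  have hTB : D ∩ T ⊆ z.Fp := h.hB ▸ hT
  have hQ2 : Disjoint (z.Fp ∪ D) z.Fm := by
    rw [Set.disjoint_left]
    rintro x (hx | hx) hm
    · exact hc.far x hm x hx (adq_refl x)
    · have : x ∈ z.W ∩ T := h.tW ▸ Or.inl hm
      exact hc.far x hm x (hTB ⟨hx, this.2⟩) (adq_refl x)
  obtain ⟨θ, hθ⟩ := clab_ex hc Set.subset_union_left hQ2
  have hQC : z.Fp ∪ D ⊆ C := Set.union_subset h.pC hDC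
  refine ⟨θ, clab_coor hc hθ, ?_, ?_, ?_⟩
  · intro u hu w hw huw hn
    obtain ⟨x, hx, y, hy, hxy, rfl, rfl, hq⟩ := clab_supp hc hθ hu hw huw hn
    by_cases hxq : x ∈ z.Fp ∪ D
    · exact h.star x (hQC hxq) x hx (adq_refl x)
    · have hyq : y ∈ z.Fp ∪ D := by
        by_contra hy'
        exact hxq (hq.2 hy')
      exact h.star y (hQC hyq) x hx (adq_symm hxy)
  · intro s hs
    have hiso := clab_mix hc Set.subset_union_left hQ2 hθ
    obtain ⟨t, ht, rfl⟩ := hiso.1.surjOn hs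
    have hM : Mf z.H 3 z.W T := by
      refine Mfa.congr hz.mf subset_rfl fun s hs => ?_
      unfold sub
      rw [← h.tW]
      exact ⟨fun h' => h'.trans Set.inter_subset_right, fun h' => Set.subset_inter hs.2.1 h'⟩
    have hcl : Clopen z.H (z.W ∩ T) z.Fp := by
      rw [h.tW]
      refine ⟨Set.subset_union_right, fun a ha c hc' hac => ?_⟩
      rcases hc' with hc' | hc'
      · exact absurd (Or.inr hac.symm) (hc.far c hc' a ha)
      · exact hc'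
    have hrk : Rk z.H z.Fp (n + 1) := (IsIso.pe hc.isop).rk.2 hz.rk
    have h3 := rank_drop hz.fin hM hcl hDW hD hTB hne h.flat he hrk t ht
    have hi := IsIso.restrict hiso (cmp_subset (G := sG z.U) t)
    rw [image_cmp_Tx hiso ht] at hi
    exact (IsIso.pe hi).rk.1 h3
  · obtain ⟨θ0, h0, ho⟩ := hz.par
    have hw : Wk X.G X.A b.mm b.η b.mp := hb.wη.mono fun x hx => hx.1
    rw [clab_change hc Set.subset_union_left hQ2 hθ h0 hw]
    · exact ho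
    · intro x hx hq he
      have h3 := h.star x (hQC hq) x hx (adq_refl x)
      have h4 := (hb.wm 1).mem_left
      rw [he] at h3
      have := h3.2.1
      have := h4.2.2
      omega
    · intro x hx hq he
      have h3 := h.star x (hQC hq) x hx (adq_refl x)
      have h4 := (hb.wp 1).mem_left
      rw [he] at h3
      have := h3.2.2
      have := h4.2.1
      omega

end Pool.Agent.MP_6374aa_g.BD

end

section

/-! Block D: the induction. -/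

namespace Pool.Agent.MP_6374aa_g.BD

open Pool.Agent.MP_6374aa_gt Classical

variable {Γ K : Type} [Group Γ] [Group K] {Nm Np : Subgroup Γ} {κ : Cst}

theorem Goal.of_sd {X : Cx} (h : Goal X.sd Nm Np) : Goal X Nm Np := by
  obtain ⟨k, hk⟩ := h
  exact ⟨k + 1, hk⟩

theorem loop_ind {lo hi lo' hi' : ℤ} {n : ℕ} (h1 : κ.B1 < lo') (h2 : hi' < κ.T1)
    (ih : ∀ (X : Cx) (b : Bas X Γ K), b.Ok Nm Np κ → TS b lo' hi' n → Goal X Nm Np)
    {L : Type} [Group L] (k : ℕ) :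
    ∀ (X : Cx) (b : Bas X Γ K) (z : CD X) [Nonempty z.U] (T C B : Set z.U)
      (lab : z.U → z.U → L), b.Ok Nm Np κ → z.Ok b lo hi (n + 1) → LI z b lo' hi' T C B lab →
      (∃ D, (Setup.sd^[k] (z.setup T C B lab)).Disc D) → Goal X Nm Np := by
  induction k with
  | zero =>
    intro X b z _ T C B lab hb hz hl ⟨D, hD⟩
    have hD0 : (z.setup T C B lab).Disc D := hD
    have hDW : D ⊆ z.W := hD0.subC.trans hl.subW
    have hD1 := disc_sd hD0 (by rw [show (z.setup T C B lab).B = z.Fp from hl.hB]; exact hl.flat)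
      hDW
    have hl1 := li_sd hz hl
    refine Goal.of_sd (ih _ _ (bas_sd hb) ?_)
    exact two (bas_sd hb) (cd_sd hb hz) hl1 (sA_mono hDW) hD1.subC hD1.ball hD1.subB hD1.ess
      (ne_sA _ _) h1 h2
  | succ k ihk =>
    intro X b z _ T C B lab hb hz hl hD
    haveI : Nonempty z.sd.U := ⟨(∅ : Finset z.U)⟩
    exact Goal.of_sd (ihk X.sd b.sd z.sd _ _ _ _ (bas_sd hb) (cd_sd hb hz) (li_sd hz hl) hD)

theorem inc_zero {X : Cx} {b : Bas X Γ K} {z : CD X} {lo hi : ℤ} (hz : z.Ok b lo hi 0)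
    (J : Set X.V) : z.Inc J := by
  intro a l hw _
  have h1 : SCo X.G z.F := mfa_two_sco hz.clF.2.2 hz.clF.1 (rk_zero.1 hz.rk)
  exact ((IsIso.pe hz.cut.isop).sco.2 h1).null hw

theorem compress (hL : LOOP_st) {lo hi : ℤ} {n : ℕ} (hr : Room κ lo hi (n + 1))
    (ih : ∀ (X : Cx) (b : Bas X Γ K), b.Ok Nm Np κ →
      TS b (lo - κ.c - 1) (hi + κ.c + 1) n → Goal X Nm Np)
    {X : Cx} {b : Bas X Γ K} (hb : b.Ok Nm Np κ) {z : CD X} (hz : z.Ok b lo hi (n + 1))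
    (hn : ¬ z.Inc (slab X.A b.h (lo - κ.c) (hi + κ.c))) : Goal X Nm Np := by
  unfold CD.Inc at hn
  push Not at hn
  obtain ⟨a, l, hw, h1, h2⟩ := hn
  haveI : Nonempty z.U := ⟨a⟩
  have hc : (0 : ℤ) ≤ κ.c := Int.natCast_nonneg _
  have hn0 : (0 : ℤ) ≤ (κ.c + 6) * (n + 1) := by positivity
  obtain ⟨r1, -, -, r4⟩ := hr
  push_cast at r1 r4
  have hpC : z.Fp ⊆ z.W ∩ z.p ⁻¹' slab X.A b.h (lo - κ.c) (hi + κ.c) := by
    intro x hx
    have := hz.sub (hz.cut.isop.1.mapsTo hx)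
    exact ⟨hz.cut.subp hx, this.1, by linarith [this.2.1], by linarith [this.2.2]⟩
  have hl : LI z b (lo - κ.c - 1) (hi + κ.c + 1) (z.Fm ∪ z.Fp)
      (z.W ∩ z.p ⁻¹' slab X.A b.h (lo - κ.c) (hi + κ.c)) z.Fp (gen z.H z.Fp) := by
    refine ⟨Set.inter_eq_right.2 (Set.union_subset hz.cut.subm hz.cut.subp), rfl, hpC,
      Set.inter_subset_left, ?_, flat_gen _ _⟩
    intro u hu w hw huw
    have hwA := hz.cut.hom.1 w hw
    obtain ⟨huA, hu1, hu2⟩ := hu.2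
    rcases huw with rfl | huw
    · exact ⟨hwA, by linarith, by linarith⟩
    · have e := hz.cut.adj u hu.1 w hw huw
      have e1 := hb.lip _ huA _ hwA e
      have e2 := hb.lip _ hwA _ huA e.symm
      exact ⟨hwA, by linarith, by linarith⟩
  obtain ⟨k, hD⟩ := hL _ (z.setup (z.Fm ∪ z.Fp)
      (z.W ∩ z.p ⁻¹' slab X.A b.h (lo - κ.c) (hi + κ.c)) z.Fp (gen z.H z.Fp))
    ⟨Set.inter_subset_left, fun x hx => ⟨hz.cut.subp hx, Or.inr hx⟩,
      Mfa.mono hz.mf Set.inter_subset_left, flat_gen _ _⟩ a l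
    (hw.mono fun x hx => ⟨hx, hpC hx⟩) h1 (fun e => h2 (null_iff_gen.2 e))
  exact loop_ind (by nlinarith) (by nlinarith) ih k X b z _ _ _ _ hb hz hl hD

theorem main_ind (hL : LOOP_st) [Nontrivial Γ] (hNm : Nm.Normal) (hNp : Np.Normal) (n : ℕ) :
    ∀ (X : Cx) (b : Bas X Γ K) (z : CD X) (lo hi : ℤ), b.Ok Nm Np κ → z.Ok b lo hi n →
      Room κ lo hi n → Goal X Nm Np := by
  have hc : (0 : ℤ) ≤ κ.c := Int.natCast_nonneg _
  induction n with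
  | zero =>
    intro X b z lo hi hb hz hr
    have hs := cd_symm hb hz (by have := hr.1; push_cast at this; nlinarith)
      (by have := hr.2.2.2; push_cast at this; nlinarith)
    exact ⟨0, three hNm hNp hb hz hr (inc_zero hz _) (inc_zero hs _)⟩
  | succ n ih =>
    intro X b z lo hi hb hz hr
    have hn0 : (0 : ℤ) ≤ (κ.c + 6) * (n + 1) := by positivity
    obtain ⟨r1, r2, r3, r4⟩ := id hr
    push_cast at r1 r4
    have hs := cd_symm hb hz (by nlinarith) (by nlinarith)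
    have ih' : ∀ (X : Cx) (b : Bas X Γ K), b.Ok Nm Np κ →
        TS b (lo - κ.c - 1) (hi + κ.c + 1) n → Goal X Nm Np := by
      intro X b hb ht
      obtain ⟨z', hz'⟩ := one hb ht
      exact Goal.of_sd (ih _ _ z' _ _ (bas_sd hb) hz'
        ⟨by nlinarith, by linarith, by linarith, by nlinarith⟩)
    by_cases h1 : z.Inc (slab X.A b.h (lo - κ.c) (hi + κ.c))
    · by_cases h2 : z.symm.Inc (slab X.A b.h (lo - κ.c) (hi + κ.c))
      · exact ⟨0, three hNm hNp hb hz hr h1 h2⟩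
      · exact compress hL hr ih' hb hs h2
    · exact compress hL hr ih' hb hz h1

end Pool.Agent.MP_6374aa_g.BD

namespace Pool.Agent.MP_6374aa_g

open Pool.Agent.MP_6374aa_gt BD

theorem d_of (hL : LOOP_st) : D_st := by
  intro X Γ K _ _ Nm Np hΓ hNm hNp ⟨m⟩
  let b : Bas X Γ K := ⟨m.h, m.s, m.mm, m.mp, m.η, m.tm, m.tp, m.a⟩
  let κ : Cst := ⟨m.c, m.B0, m.B1, m.lo, m.hi, m.T1, m.T0⟩
  have hc : (0 : ℤ) ≤ m.c := Int.natCast_nonneg _
  have hn0 : (0 : ℤ) ≤ (m.c + 6) * (m.n + 1) := by positivity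
  have r1 := m.roomm
  have r2 := m.roomp
  have hb : b.Ok Nm Np κ :=
    ⟨m.cl, m.lip, m.b01, show m.B1 ≤ m.lo by nlinarith, m.lohi, show m.hi ≤ m.T1 by nlinarith,
      m.t10, m.flat, m.ker, m.wη, m.wm, m.wp, m.mul, m.rho, m.killm, m.killp⟩
  have ht : TS b m.lo m.hi m.n :=
    ⟨m.θ, m.coor, m.supp, fun s _ => m.rk.clopen (clopen_cmp s), m.odd⟩
  obtain ⟨z, hz⟩ := one hb ht
  exact Goal.of_sd (main_ind hL hNm hNp m.n _ _ z _ _ (bas_sd hb) hz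
    ⟨show m.B1 + (m.c + 6) * (m.n + 1) ≤ m.lo - 1 by nlinarith, show m.lo - 1 ≤ m.lo by linarith,
      show m.hi ≤ m.hi + 1 by linarith,
      show m.hi + 1 + (m.c + 6) * (m.n + 1) ≤ m.T1 by nlinarith⟩)

end Pool.Agent.MP_6374aa_g

end

section

/-! Punctured summands embed in sums of copies. -/

namespace Pool.Agent.MP_6374aa_g

theorem pun_main : PUN_st :=
  pun_of model_main rcon_main two_main c_main col_main (d_of loop_main) (e_of ed_main) f_main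
    sdh_main

end Pool.Agent.MP_6374aa_g

end

section

/-! Prime summands pass from one manifold to the other, first form. -/

namespace Pool.Agent.MP_6374aa_g

open Pool.Agent.MP_6374aa_gt

theorem main_one (V V' : Type) [Fintype V] [Fintype V'] (Γ : SimpleGraph V) (Γ' : SimpleGraph V')
    (h1 : Cx.Closed ⟨V, Γ, Set.univ⟩) (h2 : Cx.Closed ⟨V', Γ', Set.univ⟩) (n1 : NoSquare Γ)
    (n2 : NoSquare Γ')
    (hb : Nonempty (@Homeomorph (Bdry Γ) (Bdry Γ') (bdryTop Γ) (bdryTop Γ')))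
    (P : Cx) (cP : P.Closed) (hs : Summand P ⟨V', Γ', Set.univ⟩) :
    (∃ X, SumOf ⟨V, Γ, Set.univ⟩ X ∧ Summand P X) ∧
      (P.Prime → Summand P ⟨V, Γ, Set.univ⟩ ∨ (NSP P ∧ NSE ⟨V, Γ, Set.univ⟩)) :=
  main_of pun_main g_main merge_main V V' Γ Γ' h1 h2 n1 n2 hb P cP hs

end Pool.Agent.MP_6374aa_g

end

section

/-! The two definitions of prime agree. -/

namespace Pool.Agent.MP_6374aa_g

open Pool.Agent.MP_6374aa_gt Classical

variable {V : Type} {G : SimpleGraph V} {A : Set V}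

/-- One side of a sphere which embeds in Euclidean space with open interior is a ball. -/
theorem ball_of_emb (hB : BROWN_st) {S P : Set V} (hA : Cl G 3 A) (hSA : S ⊆ A) (hS : Sph G 3 S)
    (hs : Split G 3 A S P) {f : (V → ℝ) → Eu 3} {Y : Set (Eu 3)} (hf : HM (Rz G (S ∪ P)) Y f)
    (ho : IsOpen (f '' (Rz G (S ∪ P) \ Rz G S))) : BP 3 (Rz G (S ∪ P)) (Rz G S) := by
  have hD : S ∪ P ⊆ A := Set.union_subset hSA fun a ha => (hs.subset ha).1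
  have fD : (S ∪ P).Finite := hA.1.subset hD
  have hM : Mfa G 3 A (fun _ => False) S := (mf_empty_iff.1 hA.2.2).mono hSA
  have hc := (collar hM hSA hS hs.sided).symm
  set σ : V → Set V := fun x => P ∩ Lk G A {x} with hσ
  have h1 : hsd G A S σ ⊆ sA G (S ∪ P) := by
    rintro t ⟨k1, ⟨x, hx, k2⟩, k3⟩
    refine ⟨k1.1, fun y hy => ?_, k1.2.2⟩
    by_cases c : y ∈ S
    exacts [Or.inl c, Or.inr (k3 x hx k2 y hy c).1]
  have h2 : ∀ t ∈ sA G (S ∪ P), Meets t S → t ∈ hsd G A S σ := fun t ht k =>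
    ⟨sA_mono hD ht, k, fun x hx k1 y hy k2 => ⟨(ht.2.1 hy).resolve_left k2, hD (ht.2.1 hy), by
      rintro _ rfl
      exact ht.2.2 hx hy fun e => k2 (e ▸ k1)⟩⟩
  have h3 : ∀ t ∈ sA G (S ∪ P), (Meets t P ↔ ¬ ↑t ⊆ S) := fun t ht =>
    ⟨fun ⟨x, hx, k⟩ k' => (hs.subset k).2 (k' hx), fun k => by
      obtain ⟨x, hx, k'⟩ := Set.not_subset.1 k
      exact ⟨x, hx, (ht.2.1 hx).resolve_left k'⟩⟩
  have e1 : nb G (S ∪ P) P ∪ hsd G A S σ = sA G (S ∪ P) := by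
    refine (Set.union_subset (fun _ k => k.1) h1).antisymm fun t ht => ?_
    by_cases c : ↑t ⊆ S
    · exact Or.inr (sA_subset_hsd hSA ⟨ht.1, c, ht.2.2⟩)
    · exact Or.inl ⟨ht, (h3 t ht).2 c⟩
  have e2 : nb G (S ∪ P) P ∩ hsd G A S σ = hfr G A S σ := by
    ext t
    exact ⟨fun k => ⟨k.2, (h3 t k.1.1).1 k.1.2⟩,
      fun k => ⟨⟨h1 k.1, (h3 t (h1 k.1)).2 k.2⟩, k.1⟩⟩
  have hne : NE (sG V) (nb G (S ∪ P) P) (hsd G A S σ) := by
    rintro s ⟨k1, k2⟩ t ⟨k3, k4⟩ (k | k)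
    · obtain ⟨x, hx, k5⟩ := k1.2
      exact k4 ⟨h1 k3, x, k.subset hx, k5⟩
    · obtain ⟨x, hx, k5⟩ := k3.2.1
      exact k2 (h2 s k1.1 ⟨x, k.subset hx, k5⟩)
  have hg : HM (Rz (sG V) (sA G (S ∪ P))) Y (f ∘ bar) := (bar_hm fD).comp hf
  have s1 : Rz (sG V) (nb G (S ∪ P) P) ⊆ Rz (sG V) (sA G (S ∪ P)) := rz_mono fun _ k => k.1
  have s2 : Rz (sG V) (hsd G A S σ) ⊆ Rz (sG V) (sA G (S ∪ P)) := rz_mono h1
  have e3 : (f ∘ bar) '' Rz (sG V) (nb G (S ∪ P) P) ∪ (f ∘ bar) '' Rz (sG V) (hsd G A S σ) = Y := by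
    rw [← Set.image_union, ← rz_union hne, e1, hg.image]
  have e4 : (f ∘ bar) '' Rz (sG V) (sA G S) = f '' Rz G S := by
    rw [Set.image_comp, bar_image hS.finite]
  have sS : Rz G S ⊆ Rz G (S ∪ P) := rz_mono Set.subset_union_left
  have key := hB _ _ _ _
    ((hg.restrict s1).compact (rz_compact ((sA_finite fD).subset fun _ k => k.1)))
    (hc.map (hg.restrict s2)) (by rw [← hg.image_inter s1 s2, rz_inter, e2])
    (by rwa [e3, e4, ← hf.image, ← hf.2.injOn.image_sdiff_subset sS])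
  rw [e3, e4] at key
  exact key.comap (rz_compact fD) hf fun x hx => (hf.mem_image sS hx).symm

/-- The complement of a vertex star in a 3-sphere is a ball. -/
theorem rem_of_sph3 (hB : BROWN_st) (hA : Cl G 3 A) (h : Cx.Sph3 ⟨V, G, A⟩) {v : V} (hv : v ∈ A) :
    BP 3 (Rz G (A \ {v})) (Rz G (Lk G A {v})) := by
  obtain ⟨h⟩ := h
  have hS : Sph G 3 (Lk G A {v}) := hA.2.2.sph_lk hv (Set.notMem_empty v)
  have hSA : Lk G A {v} ⊆ A := lk_subset _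
  have hs := (split_GNb1 hA.2.2 hv).symm hSA
  have e : Lk G A {v} ∪ A \ (Lk G A {v} ∪ {v}) = A \ {v} := by
    ext a
    constructor
    · rintro (k | k)
      exacts [⟨k.1, (k.2 v rfl).ne'⟩, ⟨k.1, fun c => k.2 (Or.inr c)⟩]
    · intro k
      by_cases c : a ∈ Lk G A {v}
      exacts [Or.inl c, Or.inr ⟨k.1, fun c' => c'.elim c k.2⟩]
  have : Fact (Module.finrank ℝ (Eu 4) = 3 + 1) := ⟨by simp⟩
  let e3 := stereographic' 3 (h ⟨_, single_Rz hv⟩)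
  let f : (V → ℝ) → Eu 3 := fun x => if k : x ∈ Rz G A then e3 (h ⟨x, k⟩) else 0
  have hfx : ∀ x (k : x ∈ Rz G A), f x = e3 (h ⟨x, k⟩) := fun x k => dif_pos k
  have sD : Rz G (A \ {v}) ⊆ Rz G A := rz_mono Set.sdiff_subset
  have hsrc : ∀ x : Rz G A, x.1 ∈ Rz G (A \ {v}) → h x ∈ e3.source := fun x hx => by
    rw [stereographic'_source]
    intro k
    have k' : x.1 = Pi.single v 1 := congrArg Subtype.val (h.injective k)
    rw [k'] at hx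
    exact (single_mem_rz.1 hx).2 rfl
  have hf : HM (Rz G (A \ {v})) (f '' Rz G (A \ {v})) f := by
    refine ⟨continuousOn_iff_continuous_domRestrict.2 ?_, Set.InjOn.bijOn_image fun x hx y hy k => ?_⟩
    · exact (e3.continuousOn.comp_continuous (f := fun x : Rz G (A \ {v}) => h ⟨x.1, sD x.2⟩)
        (h.continuous.comp (continuous_subtype_val.subtype_mk _)) fun x => hsrc _ x.2).congr
          fun x => (hfx _ (sD x.2)).symm
    · have k' : e3 (h ⟨x, sD hx⟩) = e3 (h ⟨y, sD hy⟩) :=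
        ((hfx _ (sD hx)).symm.trans k).trans (hfx _ (sD hy))
      exact congrArg Subtype.val (h.injective (e3.injOn (hsrc _ hx) (hsrc _ hy) k'))
  obtain ⟨u1, u2⟩ := split_Arc (G := G) hv
  have hU : ∀ x, x ∈ Rz G (A \ {v}) \ Rz G (Lk G A {v}) ↔
      x ∈ Rz G A ∧ x ∉ Rz G (insert v (Lk G A {v})) := fun x =>
    ⟨fun k => ⟨sD k.1, fun c => k.2 (u2.subset ⟨c, k.1⟩)⟩,
      fun k => ⟨(u1.subset k.1).resolve_left k.2, fun c => k.2 (u2.ge c).1⟩⟩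
  have ho : IsOpen (f '' (Rz G (A \ {v}) \ Rz G (Lk G A {v}))) := by
    have : f '' (Rz G (A \ {v}) \ Rz G (Lk G A {v})) =
        e3 '' (h '' (Subtype.val ⁻¹' (Rz G (insert v (Lk G A {v})))ᶜ)) := by
      ext y
      constructor
      · rintro ⟨x, hx, rfl⟩
        obtain ⟨k1, k2⟩ := (hU x).1 hx
        exact ⟨_, ⟨⟨x, k1⟩, k2, rfl⟩, (hfx _ k1).symm⟩
      · rintro ⟨_, ⟨x, hx, rfl⟩, rfl⟩
        exact ⟨x.1, (hU _).2 ⟨x.2, hx⟩, hfx _ x.2⟩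
    rw [this]
    refine e3.isOpen_image_of_subset_source (h.isOpenMap _ ?_) ?_
    · exact (rz_compact (hS.finite.insert v)).isClosed.isOpen_compl.preimage continuous_subtype_val
    · rintro _ ⟨x, hx, rfl⟩
      exact hsrc x ((hU _).2 ⟨x.2, hx⟩).1
  rw [← e] at hf ho ⊢
  exact ball_of_emb hB hA hSA hS hs hf ho

/-- A separating sphere splits. -/
theorem split_of_sep {S D E : Set V} (hA : Cl G 3 A) (hS : Sph G 3 S) (hu : D ∪ E = A)
    (hi : D ∩ E = S) (hD : D ≠ S) (hE : E ≠ S) (hn : ∀ a ∈ D \ S, ∀ b ∈ E \ S, ¬ G.Adj a b) :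
    Split G 3 A S (D \ S) := by
  have sD : S ⊆ D := hi.ge.trans Set.inter_subset_left
  have sE : S ⊆ E := hi.ge.trans Set.inter_subset_right
  have hSA : S ⊆ A := sD.trans (Set.subset_union_left.trans hu.subset)
  obtain ⟨d, d1, d2⟩ := Set.not_subset.1 fun k => hD (Set.Subset.antisymm k sD)
  obtain ⟨e, e1, e2⟩ := Set.not_subset.1 fun k => hE (Set.Subset.antisymm k sE)
  have cD : ∀ a ∈ D \ S, ∀ b ∈ A \ S, G.Adj a b → b ∈ D \ S := fun a ha b hb k =>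
    ⟨(hu.ge hb.1).elim id fun c => (hn a ha b ⟨c, hb.2⟩ k).elim, hb.2⟩
  have spread : ∀ X ⊆ A \ S, Pre G X → ∀ x ∈ X, x ∈ D → X ⊆ D := fun X hX hp x hx k y hy =>
    (spread_GTwo (Y := D \ S) hp (fun a ha b hb c => cD a ha b (hX hb) c) hx
      ⟨k, (hX hx).2⟩ hy).1
  have dA : d ∈ A \ S := ⟨hu.subset (Or.inl d1), d2⟩
  have eA : e ∈ A \ S := ⟨hu.subset (Or.inr e1), e2⟩
  have eD : e ∉ D := fun k => e2 (hi.subset ⟨k, e1⟩)
  obtain ⟨σ, hσ⟩ := exists_sided (d := 2) ((mf_empty_iff.1 hA.2.2).mono hSA)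
    (mf_empty_iff.1 hS.mf) le_rfl hSA (Cell.ndc hS)
  obtain ⟨P, p1, p2, p3, -⟩ := split_of_not_con hA hSA hS hσ
    fun k => eD (spread _ le_rfl k.2 d dA d1 eA)
  have q1 : A \ (S ∪ P) ⊆ A \ S := fun a ha => ⟨ha.1, fun k => ha.2 (Or.inl k)⟩
  by_cases c : d ∈ P
  · have : D \ S = P := by
      refine Set.Subset.antisymm (fun a ha => by_contra fun k => ?_) fun a ha =>
        ⟨spread _ p1.subset p2.2 d c d1 ha, (p1.subset ha).2⟩
      refine eD (spread _ q1 p3.2 a ⟨hu.subset (Or.inl ha.1), fun k' => k'.elim ha.2 k⟩ ha.1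
        ⟨eA.1, fun k' => k'.elim e2 fun k'' => eD (spread _ p1.subset p2.2 d c d1 k'')⟩)
    rwa [this]
  · have d3 : d ∈ A \ (S ∪ P) := ⟨dA.1, fun k => k.elim d2 c⟩
    have : D \ S = A \ (S ∪ P) := by
      refine Set.Subset.antisymm (fun a ha => ⟨hu.subset (Or.inl ha.1), fun k => k.elim ha.2
        fun k' => ?_⟩) fun a ha => ⟨spread _ q1 p3.2 d d3 d1 ha, (q1 ha).2⟩
      refine eD (spread _ p1.subset p2.2 a k' ha.1 (by_contra fun k'' => ?_))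
      exact eD (spread _ q1 p3.2 d d3 d1 ⟨eA.1, fun c' => c'.elim e2 k''⟩)
    rw [this]
    exact p1.symm hSA

/-- The capped side. -/
theorem side_cap_W1 {X : Cx} {S D : Set X.V} (hA : Cl X.G 3 X.A) (hS : Sph X.G 3 S) (sD : S ⊆ D)
    (hD : D ⊆ X.A) (hs : Split X.G 3 X.A S (D \ S)) : Cl (capG X.G id) 3 (cn S D) := by
  have h := Mfa.side (d := 2) (mf_empty_iff.1 hA.2.2) (mf_empty_iff.1 hS.mf) le_rfl (sD.trans hD) hs
  rw [Set.union_sdiff_cancel sD] at h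
  have e : D ∩ S = S := Set.inter_eq_right.2 sD
  have hc : Con X.G S := Cell.con hS
  have hp : PM X D S := ⟨hD, (h.2 hA.2.1.2 hc).2,
    Mfa.congr h.1 le_rfl fun s _ => or_iff_left id, fun a ha => by
      rw [e] at ha ⊢
      rwa [hc.2.cmp_eq ha]⟩
  exact cap_one_GMerge e hc ▸ hp.cap_cl (hA.1.subset hD)

theorem side_ball_W1 (hB : BROWN_st) {X : Cx} {S D : Set X.V} (sD : S ⊆ D)
    (hc : Cl (capG X.G id) 3 (cn S D)) (h : Cx.Sph3 ⟨_, capG X.G id, cn S D⟩) : Ball3 X.G D S := by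
  have k := rem_of_sph3 hB hc h (v := Sum.inr S) (Or.inl rfl)
  have e : cn S D \ {Sum.inr S} = Sum.inl '' D := by
    refine Set.Subset.antisymm ?_ ?_
    · rintro _ ⟨rfl | k, c⟩
      exacts [(c rfl).elim, k]
    · rintro _ ⟨a, ha, rfl⟩
      exact ⟨Or.inr ⟨a, ha, rfl⟩, Sum.inl_ne_inr⟩
  rw [e, lk_cn_GMerge sD] at k
  have fD : D.Finite := Set.Finite.of_finite_image (hc.1.subset (Set.subset_insert _ _))
    Sum.inl_injective.injOn
  exact ball3_iff.2 ((IsIso.bp (cap_iso id D) fD fun a _ =>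
    (Sum.inl_injective.mem_set_image).symm).2 k)

theorem Cx.IsPrime.prime (hB : BROWN_st) {P : Cx} (h : P.IsPrime) : P.Prime := by
  intro Q cQ e S D E hS hu hi hD hE hn
  have hA := (Cx.closed_iff _).1 cQ
  have sD : S ⊆ D := hi.ge.trans Set.inter_subset_left
  have sE : S ⊆ E := hi.ge.trans Set.inter_subset_right
  have aD : D ⊆ Q.A := Set.subset_union_left.trans hu.subset
  have aE : E ⊆ Q.A := Set.subset_union_right.trans hu.subset
  have hS' := (sphere2_iff (hA.1.subset (sD.trans aD))).1 hS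
  have c1 := side_cap_W1 hA hS' sD aD (split_of_sep hA hS' hu hi hD hE hn)
  have c2 := side_cap_W1 hA hS' sE aE (split_of_sep hA hS' ((Set.union_comm _ _).trans hu)
    ((Set.inter_comm _ _).trans hi) hE hD fun a ha b hb k => hn b hb a ha k.symm)
  have l1 := lk_cn_GMerge (X := Q) sD
  have l2 := lk_cn_GMerge (X := Q) sE
  have hg : Graft (capG Q.G id) (cn S D) (cn S E) (Sum.inl '' Q.A) (Sum.inr S) := by
    refine ⟨Or.inl rfl, Or.inl rfl, l1.trans l2.symm, ?_, ?_, Set.Subset.antisymm ?_ ?_⟩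
    · rw [l1, cn, cn, ← Set.insert_inter_distrib, ← Set.image_inter Sum.inl_injective, hi]
    · rintro _ ⟨rfl | ⟨a, ha, rfl⟩, ha'⟩ _ ⟨rfl | ⟨b, hb, rfl⟩, hb'⟩ c
      · exact c
      · exact ha' (Or.inl rfl)
      · exact hb' (Or.inl rfl)
      · exact hn a ⟨ha, fun k => ha' (Or.inr ⟨a, sE k, rfl⟩)⟩ b
          ⟨hb, fun k => hb' (Or.inr ⟨b, sD k, rfl⟩)⟩ c
    · rintro _ ⟨a, ha, rfl⟩
      exact ⟨(hu.ge ha).imp (fun c => Or.inr ⟨a, c, rfl⟩) fun c => Or.inr ⟨a, c, rfl⟩,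
        Sum.inl_ne_inr⟩
    · rintro _ ⟨(rfl | ⟨a, ha, rfl⟩) | rfl | ⟨a, ha, rfl⟩, c⟩
      · exact (c rfl).elim
      · exact ⟨a, aD ha, rfl⟩
      · exact (c rfl).elim
      · exact ⟨a, aE ha, rfl⟩
  have hQ : Q.Homeo ⟨_, capG Q.G id, Sum.inl '' Q.A⟩ :=
    IsIso.homeo (Y := ⟨_, capG Q.G id, Sum.inl '' Q.A⟩) (cap_iso id Q.A) hA.1
  exact (h _ _ ⟨_, _, _, _, _, _, (Cx.closed_iff _).2 c1, (Cx.closed_iff _).2 c2, hg, Cx.Homeo.refl _,
    Cx.Homeo.refl _, hQ.symm.trans e⟩).imp (side_ball_W1 hB sD c1) (side_ball_W1 hB sE c2)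

theorem sph3_of_rem {X : Cx} {v : V} (hv : v ∈ A)
    (h : Ball3 G (A \ {v}) (Lk G A {v})) (e : Cx.Homeo ⟨V, G, A⟩ X) : X.Sph3 := by
  have h1 := ball3_iff.1 h
  have h2 := h1.sp
  have h3 : Lk G A {v} ⊆ A \ {v} := fun a ha => ⟨ha.1, (ha.2 v rfl).ne'⟩
  rw [rz_inter, Set.inter_eq_right.2 h3] at h2
  obtain ⟨k, f, hf⟩ := sp_of_rem hv h2 h1
  obtain ⟨g, -⟩ := hf.homeo k
  obtain ⟨e⟩ := e
  exact ⟨e.symm.trans g⟩

theorem Cx.Prime.isPrime {P : Cx} (h : P.Prime) : P.IsPrime := by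
  rintro X Y ⟨U, K, A, M, B, v, cA, cM, hg, e1, e2, e3⟩
  have hA : Cl K 3 A := (Cx.closed_iff _).1 cA
  have hM : Cl K 3 M := (Cx.closed_iff _).1 cM
  have ne : ∀ Z, Cl K 3 Z → v ∈ Z → Z \ {v} ≠ Lk K Z {v} := fun Z hZ hv k => by
    obtain ⟨w, w1, w2⟩ := outside_GHv hZ hv
    exact w2 (Or.inr (k.subset ⟨w1, fun c => w2 (Or.inl c)⟩))
  have hi : A \ {v} ∩ (M \ {v}) = Lk K A {v} := by
    ext a
    exact ⟨fun k => (hg.inter.subset ⟨k.1.1, k.2.1⟩).resolve_left k.1.2, fun k =>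
      ⟨⟨k.1, (k.2 v rfl).ne'⟩, (hg.lk.subset k).1, (k.2 v rfl).ne'⟩⟩
  refine (h ⟨U, K, B⟩ ((Cx.closed_iff _).2 (Graft.cl hg hA hM)) e3 (Lk K A {v}) (A \ {v}) (M \ {v})
    (cA.2.2 v hg.memA) (by rw [← Set.union_sdiff_distrib]; exact hg.eq.symm) hi (ne A hA hg.memA)
    (hg.lk ▸ ne M hM hg.memM) fun a ha b hb => hg.sep a ⟨ha.1.1, fun k => ha.2 ?_⟩ b
      ⟨hb.1.1, fun k => hb.2 ?_⟩).imp (fun k => sph3_of_rem hg.memA k e1)
    fun k => sph3_of_rem hg.memM (hg.lk ▸ k) e2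
  · exact hi.subset ⟨ha.1, k, ha.1.2⟩
  · exact hi.subset ⟨⟨k, hb.1.2⟩, hb.1⟩

end Pool.Agent.MP_6374aa_g

end

section

/-! The three dimensional sphere and transport along an open embedding. -/

namespace Pool.Agent.MP_6374aa_g.BR

open Topology Set Metric Classical

variable {X : Type} [TopologicalSpace X] {K A : Set X} {F : X → Eu 3} {P : Eu 3 → X} {q a : X}
  {g g' : X → X}

theorem pc_sphere : Pc (sphere (0 : Eu 4) 1) := by
  intro v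
  have : Fact (Module.finrank ℝ (Eu 4) = 3 + 1) := ⟨by simp⟩
  have e : (stereographic' 3 v).symm.source = univ := stereographic'_target v
  refine ⟨(stereographic' 3 v).symm, (stereographic' 3 v).symm.isOpenEmbedding e, ?_⟩
  rw [← image_univ, ← e, OpenPartialHomeomorph.image_source_eq_target]
  exact stereographic'_source v

theorem Cp.map {K A : Set (Eu 3)} {F : Eu 3 → Eu 3} (h : Cp K A F) {j : Eu 3 → X}
    (hj : IsOpenEmbedding j) : ∃ F', Cp (j '' K) (j '' A) F' := by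
  have e : ∀ x, Function.invFun j (j x) = x := Function.leftInverse_invFun hj.injective
  refine ⟨fun y => F (Function.invFun j y), h.cpt.image hj.continuous, image_mono h.sub,
    hj.isInducing.continuousOn_image_iff.2 (h.cont.congr fun x _ => congrArg F (e x)),
    ?_, ?_, ?_, ?_⟩
  · rw [image_image, ← h.img]
    exact image_congr fun x _ => congrArg F (e x)
  · rintro _ ⟨x, hx, rfl⟩
    rw [e, hj.injective.mem_set_image]
    exact h.zero x hx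
  · rintro _ ⟨x, hx, rfl⟩ _ ⟨y, hy, rfl⟩ hA k
    rw [e, e] at k
    rw [h.inj x hx y hy (fun n => hA (mem_image_of_mem j n)) k]
  · convert hj.isOpenMap _ h.opn using 1
    ext y
    constructor
    · rintro ⟨⟨x, hx, rfl⟩, k⟩
      exact ⟨x, ⟨hx, by simpa only [e] using k⟩, rfl⟩
    · rintro ⟨x, ⟨hx, k⟩, rfl⟩
      exact ⟨mem_image_of_mem j hx, by simpa only [e] using k⟩

theorem Cellu.comap {A : Set (Eu 3)} {j : Eu 3 → X} (hj : IsOpenEmbedding j)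
    (h : Cellu (j '' A)) : Cellu A := by
  intro U hU hA
  obtain ⟨e, he, h1, h2⟩ := h (j '' U) (hj.isOpenMap U hU) (image_mono hA)
  choose e' h3 h4 using fun z => h2 (mem_range_self z)
  refine ⟨e', (hj.of_comp_iff e').1 (by rwa [show j ∘ e' = e from funext h4]), fun x hx => ?_,
    range_subset_iff.2 h3⟩
  obtain ⟨z, hz⟩ := h1 (mem_image_of_mem j hx)
  exact ⟨z, hj.injective ((h4 z).trans hz)⟩

end Pool.Agent.MP_6374aa_g.BR

end

section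

/-! The collapse defined by a shell. -/

namespace Pool.Agent.MP_6374aa_g.BR

open Topology Set Metric Classical

variable {X : Type} [TopologicalSpace X] {K A : Set X} {F : X → Eu 3} {P : Eu 3 → X} {q a : X}
  {g g' : X → X}

theorem cp_of_shell {A W S0 S1 : Set (Eu 3)} (hA : IsCompact A) (hW : Shell W S0 S1)
    (hi : A ∩ W = S0) (ho : IsOpen ((A ∪ W) \ S1)) :
    ∃ F, Cp (A ∪ W) A F ∧ ∀ x ∈ A ∪ W, (x ∈ S1 ↔ ‖F x‖ = 1) := by
  obtain ⟨hc, s0, s1, f, ⟨f1, f2⟩, f3⟩ := hW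
  have n1 : ∀ x ∈ W, ‖(f x).1‖ = 1 := fun x hx => by simpa using (f2.mapsTo hx).1
  have n2 : ∀ x ∈ W, 0 ≤ (f x).2 ∧ (f x).2 ≤ 1 := fun x hx => (f2.mapsTo hx).2
  obtain ⟨F, e1, e2⟩ : ∃ F : Eu 3 → Eu 3, (∀ x ∈ W, F x = (f x).2 • (f x).1) ∧
      ∀ x ∈ A, F x = 0 := by
    refine ⟨fun x => if x ∈ W then (f x).2 • (f x).1 else 0, fun x hx => if_pos hx,
      fun x hx => ?_⟩
    by_cases k : x ∈ W
    · simp only [if_pos k, (f3 x k).1.1 (hi.le ⟨hx, k⟩), zero_smul]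
    · exact if_neg k
  have e3 : ∀ x ∈ W, ‖F x‖ = (f x).2 := fun x hx => by
    rw [e1 x hx, norm_smul, n1 x hx, mul_one, Real.norm_of_nonneg (n2 x hx).1]
  have e4 : ∀ x ∈ A ∪ W, (F x = 0 ↔ x ∈ A) := fun x hx => by
    refine ⟨fun k => hx.elim id fun h => (hi.ge ((f3 x h).1.2 ?_)).1, e2 x⟩
    rw [← e3 x h, k, norm_zero]
  have e5 : ∀ x ∈ A ∪ W, (x ∈ S1 ↔ ‖F x‖ = 1) := fun x hx => by
    by_cases k : x ∈ W
    · rw [e3 x k]
      exact (f3 x k).2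
    · rw [e2 x (hx.resolve_right k), norm_zero]
      exact iff_of_false (fun h => k (s1 h)) zero_ne_one
  have e6 : ∀ x ∈ A ∪ W, ‖F x‖ ≤ 1 := fun x hx => hx.elim
    (fun h => by rw [e2 x h, norm_zero]; exact zero_le_one) fun h => (e3 x h).trans_le (n2 x h).2
  refine ⟨F, ⟨hA.union hc, subset_union_left, ?_, ?_, e4, ?_, ?_⟩, e5⟩
  · exact (continuousOn_const.congr e2).union_of_isClosed ((f1.snd.smul f1.fst).congr e1)
      hA.isClosed hc.isClosed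
  · refine subset_antisymm ?_ fun z hz => ?_
    · rintro _ ⟨x, hx, rfl⟩
      exact mem_closedBall_zero_iff.2 (e6 x hx)
    obtain ⟨u, u1, u2⟩ : ∃ u ∈ sphere (0 : Eu 3) 1, ‖z‖ • u = z := by
      by_cases k : z = 0
      · obtain ⟨u, hu⟩ := (NormedSpace.sphere_nonempty (x := (0 : Eu 3)) (r := 1)).2 zero_le_one
        exact ⟨u, hu, by rw [k, norm_zero, zero_smul]⟩
      · have k' := norm_ne_zero_iff.2 k
        exact ⟨‖z‖⁻¹ • z, by simp [norm_smul, k'], smul_inv_smul₀ k' z⟩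
    obtain ⟨x, x1, x2⟩ := f2.surjOn (show (u, ‖z‖) ∈ sphere (0 : Eu 3) 1 ×ˢ Icc (0 : ℝ) 1 from
      ⟨u1, norm_nonneg z, mem_closedBall_zero_iff.1 hz⟩)
    exact ⟨x, Or.inr x1, by rw [e1 x x1, x2, u2]⟩
  · intro x hx y hy h e
    have x1 := hx.resolve_left h
    have x2 : F x ≠ 0 := fun k => h ((e4 x hx).1 k)
    have y1 := hy.resolve_left fun k => x2 (e.trans (e2 y k))
    have k : (f x).2 = (f y).2 := by rw [← e3 x x1, ← e3 y y1, e]
    refine f2.injOn x1 y1 (Prod.ext (smul_right_injective _ (r := (f x).2) ?_ ?_) k)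
    · rw [← e3 x x1]
      exact norm_ne_zero_iff.2 x2
    · beta_reduce
      rw [← e1 x x1, e, e1 y y1, k]
  · convert ho using 1
    exact Set.ext fun x => and_congr_right fun hx => by
      rw [e5 x hx]
      exact ⟨ne_of_lt, (e6 x hx).lt_of_ne⟩

end Pool.Agent.MP_6374aa_g.BR

end

section

/-! The limit collapses exactly the cellular set. -/

namespace Pool.Agent.MP_6374aa_g.BR

open Topology Set Metric Classical

variable {X : Type} [TopologicalSpace X] {K A : Set X} {F : X → Eu 3} {P : Eu 3 → X} {q a : X}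
  {g g' : X → X}

theorem self_Lim3 {K : Set (Eu 3)} {F : Eu 3 → Eu 3} {k : ℕ → Eu 3 ≃ₜ Eu 3} {t : ℕ → ℝ}
    (hs : Sq K F k t) (m : ℕ) : k m '' K = K := by
  have e : k m '' Lv K F (t 0) = Lv K F (t 0) := by
    rw [hs.image (Nat.zero_le m), image_congr fun x _ => hs.h0 x, image_id']
  have e' : ∀ x, x ∉ Lv K F (t 0) → k m x = x := fun x hx =>
    (hs.agree (Nat.zero_le m) hx).trans (hs.h0 x)
  refine Subset.antisymm ?_ fun z hz => ?_
  · rintro _ ⟨x, hx, rfl⟩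
    by_cases c : x ∈ Lv K F (t 0)
    · exact (e.subset (mem_image_of_mem _ c)).1
    · rwa [e' x c]
  · by_cases c : z ∈ Lv K F (t 0)
    · obtain ⟨x, hx, ex⟩ := e.superset c
      exact ⟨x, hx.1, ex⟩
    · exact ⟨z, hz, e' z c⟩

theorem Sq.collapse {K A : Set (Eu 3)} {F : Eu 3 → Eu 3} (h : Cp K A F) {k : ℕ → Eu 3 ≃ₜ Eu 3}
    {t : ℕ → ℝ} (hs : Sq K F k t) : ∃ H : Eu 3 → Eu 3, Continuous H ∧ H '' K = K ∧
      (∀ x ∈ K, ‖F x‖ = 1 → H x = x) ∧ ∀ x ∈ K, ∀ y ∈ K, (H x = H y ↔ F x = F y) := by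
  obtain ⟨H, hH, hT, hd⟩ := hs.limit
  have e1 : ∀ i x, x ∉ Lv K F (t i) → H x = k i x := fun i x hx =>
    tendsto_nhds_unique (hT x) (tendsto_const_nhds.congr'
      ((Filter.eventually_ge_atTop i).mono fun m hm => (hs.agree hm hx).symm))
  have key : ∀ x ∈ K, x ∉ A → ∀ y, H x = H y → x = y := fun x hx hA y e => by
    obtain ⟨i, hi⟩ := exists_nat_one_div_lt (norm_pos_iff.2 fun c => hA ((h.zero x hx).1 c))
    have hi' : t (i + 1) < ‖F x‖ := (hs.le i).trans_lt hi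
    rw [e1 (i + 1) x fun c => lt_asymm hi' c.2] at e
    by_cases hy : y ∈ Lv K F (t (i + 1))
    · obtain ⟨w, hw, ew⟩ : H y ∈ k (i + 1) '' {x | x ∈ K ∧ ‖F x‖ ≤ t (i + 1)} := by
        refine ((h.cpt_le _).image (k _).continuous).isClosed.mem_of_tendsto (hT y)
          ((Filter.eventually_ge_atTop (i + 1)).mono fun m hm => ?_)
        obtain ⟨w, hw, ew⟩ := (hs.image hm).subset (mem_image_of_mem _ hy)
        exact ⟨w, ⟨hw.1, hw.2.le⟩, ew⟩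
      rw [(k _).injective (e.trans ew.symm)] at hi'
      exact absurd hw.2 hi'.not_ge
    · exact (k _).injective (e.trans (e1 _ y hy))
  refine ⟨H, hH, Subset.antisymm ?_ fun z hz => ?_, fun x _ hx => ?_, fun x hx y hy => ⟨fun e => ?_,
    fun e => ?_⟩⟩
  · rintro _ ⟨x, hx, rfl⟩
    exact h.cpt.isClosed.mem_of_tendsto (hT x) (Filter.Eventually.of_forall fun m =>
      (self_Lim3 hs m).subset (mem_image_of_mem _ hx))
  · rw [← (h.cpt.image hH).isClosed.closure_eq, Metric.mem_closure_iff]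
    intro ε hε
    obtain ⟨i, hi⟩ := exists_nat_one_div_lt hε
    obtain ⟨x, hx, rfl⟩ := (self_Lim3 hs (i + 1)).superset hz
    exact ⟨_, mem_image_of_mem _ hx, (hd i x).trans_lt hi⟩
  · rw [e1 0 x fun c => c.2.ne (hx.trans hs.t0.symm), hs.h0]
  · by_cases a : x ∈ A
    · by_cases b : y ∈ A
      · rw [(h.zero x hx).2 a, (h.zero y hy).2 b]
      · rw [key y hy b x e.symm]
    · rw [key x hx a y e]
  · by_cases a : x ∈ A
    swap
    · rw [h.inj x hx y hy a e]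
    have b : y ∈ A := (h.zero y hy).1 (e ▸ (h.zero x hx).2 a)
    refine eq_of_forall_dist_le fun ε hε => ?_
    obtain ⟨i, hi⟩ := exists_nat_one_div_lt (show 0 < ε / 3 by positivity)
    have d1 := hs.diam i x (h.sub_lv (hs.pos _) a) y (h.sub_lv (hs.pos _) b)
    linarith [dist_triangle4 (H x) (k (i + 1) x) (k (i + 1) y) (H y), hd i x, hd i y,
      dist_comm (H x) (k (i + 1) x)]

theorem bp_of_cellu {K A S : Set (Eu 3)} {F : Eu 3 → Eu 3} (h : Cp K A F) (hc : Cellu A)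
    (hS : ∀ x ∈ K, (x ∈ S ↔ ‖F x‖ = 1)) : BP 3 K S := by
  obtain ⟨k, t, hs⟩ := exists_sq h hc
  obtain ⟨H, hH, hK, h1, h2⟩ := hs.collapse h
  obtain ⟨f, hf, ef⟩ := quo h.cpt hH.continuousOn h.cont h2
  rw [hK, h.img] at hf
  refine ⟨h.cpt, f, hf, fun z hz => (hS z hz).trans ⟨fun e => ?_, fun e => ?_⟩⟩
  · rw [← h1 z hz e, ef z hz, e]
  · obtain ⟨x, hx, rfl⟩ := hK.superset hz
    rw [ef x hx] at e
    rw [h1 x hx e, e]

end Pool.Agent.MP_6374aa_g.BR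

end

section

/-! The generalized Schoenflies theorem. -/

namespace Pool.Agent.MP_6374aa_g

open BR

theorem brown_main : BROWN_st := by
  intro A W S0 S1 hA hW hi ho
  obtain ⟨F, hF, hS⟩ := cp_of_shell hA hW hi ho
  obtain ⟨v, hv⟩ : (Metric.sphere (0 : Eu 4) 1).Nonempty := NormedSpace.sphere_nonempty.2 zero_le_one
  obtain ⟨j, hj, -⟩ := pc_sphere ⟨v, hv⟩
  obtain ⟨F', hF'⟩ := hF.map hj
  obtain ⟨q, a, g, g', h, h'⟩ := exists_hf hF'
  exact bp_of_cellu hF (Cellu.comap hj (cellu_of_hf pc_sphere hF'.cptA hF'.nonempty h h')) hS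

end Pool.Agent.MP_6374aa_g

end

section

/-! The fundamental cycle. -/

namespace Pool.Agent.MP_6374aa_g

open Pool.Agent.MP_6374aa_gt Classical

variable {V V' V'' : Type} {G : SimpleGraph V} {G' : SimpleGraph V'} {G'' : SimpleGraph V''}
  {A : Set V} {A' : Set V'} {A'' : Set V''}

theorem tet_lk_IIe {a b c d : V} (t : Tet_O1 G A a b c d) :
    b ∈ Lk G A {a} ∧ c ∈ Lk G A {a, b} ∧ d ∈ Lk G A {a, b, c} := by
  refine ⟨⟨t.mb, ?_⟩, ⟨t.mc, ?_⟩, ⟨t.md, ?_⟩⟩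
  · rintro _ rfl
    exact t.ab
  · rintro _ (rfl | rfl)
    exacts [t.ac, t.bc]
  · rintro _ (rfl | rfl | rfl)
    exacts [t.ad, t.bd, t.cd]

theorem tet_two_IIe (h : Cl G 3 A) {a b c d : V} (t : Tet_O1 G A a b c d) :
    ∃ x y, x ≠ y ∧ ∀ e, Tet_O1 G A a b c e ↔ e = x ∨ e = y := by
  have hs : Clq G A {a, b, c} := by
    refine clq_iff.2 ⟨?_, ?_⟩
    · intro x hx
      simp only [Finset.coe_insert, Finset.coe_singleton, Set.mem_insert_iff,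
        Set.mem_singleton_iff] at hx
      rcases hx with rfl | rfl | rfl
      exacts [t.ma, t.mb, t.mc]
    · intro x hx y hy
      simp only [Finset.mem_insert, Finset.mem_singleton] at hx hy
      have h1 := t.ab
      have h2 := t.ac
      have h3 := t.bc
      rcases hx with rfl | rfl | rfl <;> rcases hy with rfl | rfl | rfl <;>
        first
          | exact Or.inl rfl
          | exact Or.inr (by assumption)
          | exact Or.inr (SimpleGraph.Adj.symm (by assumption))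
  have hc : ({a, b, c} : Finset V).card = 3 :=
    Finset.card_eq_three.2 ⟨a, b, c, t.ab.ne, t.ac.ne, t.bc.ne, rfl⟩
  have h1 := (Mfa.link h.2.2 hs ⟨a, by simp, t.ma⟩).2
  rw [hc] at h1
  have h2 : (Lk G A ↑({a, b, c} : Finset V)).ncard = 2 := by
    refine (h1.2.1.resolve_left fun h3 => ?_)
    have h4 := h1.2.2.1.2 (by simpa using h3)
    exact h4 (show a ∈ _ by simp)
  obtain ⟨x, y, hxy, he⟩ := Set.ncard_eq_two.1 h2
  refine ⟨x, y, hxy, fun e => ?_⟩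
  have h5 : e ∈ Lk G A ↑({a, b, c} : Finset V) ↔ e = x ∨ e = y := by
    rw [he]
    rfl
  rw [← h5]
  constructor
  · intro t'
    simpa using (tet_lk_IIe t').2.2
  · intro h6
    exact ⟨t.ma, t.mb, t.mc, h6.1, t.ab, t.ac, h6.2 a (by simp), t.bc, h6.2 b (by simp),
      h6.2 c (by simp)⟩

theorem erase_IIe {π : Finset V → V} (hπ : ∀ s ∈ sA G A, π s ∈ s) {s : Finset V}
    (hs : s ∈ sA G A) {n : ℕ} (hc : s.card = n + 2) :
    ∃ t x, t ∈ sA G A ∧ t.card = n + 1 ∧ x ∉ t ∧ s = insert x t ∧ π s = x := by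
  have h1 : (s.erase (π s)).card = n + 1 := by
    rw [Finset.card_erase_of_mem (hπ s hs), hc]
    rfl
  exact ⟨s.erase (π s), π s, sA_down hs (Finset.erase_subset _ _) (Finset.card_pos.1 (by omega)),
    h1, Finset.notMem_erase _ _, (Finset.insert_erase (hπ s hs)).symm, rfl⟩

theorem tet_ex_IIe (h : Cl G 3 A) {π : Finset V → V} (hπ : ∀ s ∈ sA G A, π s ∈ s) :
    ∃ a b c d, Tet_O1 G A a b c d ∧ π {a} = a ∧ π {b, a} = b ∧ π {c, b, a} = c ∧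
      π {d, c, b, a} = d := by
  obtain ⟨v, hv⟩ := h.2.1.1
  obtain ⟨s4, h4, hv4, c4, -⟩ := Mfa.pure h.2.2 (clq_single_C1.2 hv) ⟨v, by simp, hv⟩
  have m4 : s4 ∈ sA G A := mem_sA_iff_clq.2 ⟨⟨v, hv4 (by simp)⟩, h4⟩
  obtain ⟨s3, d, m3, c3, hd, rfl, e4⟩ := erase_IIe hπ m4 (n := 2) c4
  obtain ⟨s2, c, m2, c2, hc, rfl, e3⟩ := erase_IIe hπ m3 (n := 1) c3
  obtain ⟨s1, b, m1, c1, hb, rfl, e2⟩ := erase_IIe hπ m2 (n := 0) c2
  obtain ⟨a, rfl⟩ := Finset.card_eq_one.1 c1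
  simp only [Finset.mem_insert, Finset.mem_singleton, not_or] at hd hc hb
  obtain ⟨-, h5, h6⟩ := mem_sA.1 m4
  have h7 : ∀ x ∈ ({d, c, b, a} : Finset V), ∀ y ∈ ({d, c, b, a} : Finset V), y ≠ x →
      G.Adj x y := fun x hx y hy hne => (h6 x hx y hy).resolve_left hne.symm
  refine ⟨a, b, c, d, ⟨h5 (by simp), h5 (by simp), h5 (by simp), h5 (by simp),
    h7 _ (by simp) _ (by simp) hb, h7 _ (by simp) _ (by simp) hc.2,
    h7 _ (by simp) _ (by simp) hd.2.2, h7 _ (by simp) _ (by simp) hc.1,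
    h7 _ (by simp) _ (by simp) hd.2.1, h7 _ (by simp) _ (by simp) hd.1⟩,
    Finset.mem_singleton.1 (hπ _ m1), e2, e3, e4⟩

theorem cyc_fin_IIe [Fintype V] (h : Cl G 3 A) (ho : Ori G A) : ∃ z ∈ Zy G A 4, z ≠ 0 := by
  obtain ⟨o, ho⟩ := ori_iff_O1.1 ho
  let g : V → V → V → V → ℚ := fun a b c d =>
    if Tet_O1 G A a b c d then (if o a b c d then 1 else -1) else 0
  have hb : ∀ x y : Bool, x ≠ y → (if x then (1 : ℚ) else -1) = - if y then (1 : ℚ) else -1 := by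
    intro x y hxy
    cases x <;> cases y <;> simp at hxy ⊢
  have h1 : ∀ a b c d, g b a c d = - g a b c d := fun a b c d => by
    by_cases t : Tet_O1 G A a b c d
    · simp only [g, if_pos t, if_pos t.s1]
      exact hb _ _ (ho a b c d t).1
    · simp only [g, if_neg t, if_neg fun t' : Tet_O1 G A b a c d => t t'.s1, neg_zero]
  have h2 : ∀ a b c d, g a c b d = - g a b c d := fun a b c d => by
    by_cases t : Tet_O1 G A a b c d
    · simp only [g, if_pos t, if_pos t.s2]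
      exact hb _ _ (ho a b c d t).2.1
    · simp only [g, if_neg t, if_neg fun t' : Tet_O1 G A a c b d => t t'.s2, neg_zero]
  have h3 : ∀ a b c d, g a b d c = - g a b c d := fun a b c d => by
    by_cases t : Tet_O1 G A a b c d
    · simp only [g, if_pos t, if_pos t.s3]
      exact hb _ _ (ho a b c d t).2.2.1
    · simp only [g, if_neg t, if_neg fun t' : Tet_O1 G A a b d c => t t'.s3, neg_zero]
  have h4 : ∀ a b c, ∑ d, g a b c d = 0 := fun a b c => by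
    by_cases t : ∃ d, Tet_O1 G A a b c d
    · obtain ⟨d, t⟩ := t
      obtain ⟨x, y, hxy, he⟩ := tet_two_IIe h t
      have tx := (he x).2 (Or.inl rfl)
      have ty := (he y).2 (Or.inr rfl)
      rw [Fintype.sum_eq_add x y hxy fun e he' => if_neg fun t' => ((he e).1 t').elim he'.1 he'.2]
      simp only [if_pos tx, if_pos ty]
      rw [hb _ _ ((ho a b c y ty).2.2.2 x tx hxy), neg_add_cancel]
    · exact Finset.sum_eq_zero fun d _ => if_neg fun t' => t ⟨d, t'⟩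
  have hsum : ∀ b c d, ∑ a, g a b c d = 0 := fun b c d => by
    have e : ∀ a, g a b c d = - g b c d a := fun a => by
      rw [h3 b c a d, h2 b a c d, h1 a b c d]
      ring
    simp only [e, Finset.sum_neg_distrib, h4, neg_zero]
  refine ⟨up_Orient (up_Orient (up_Orient (up_Orient s0_Orient))) g, mem_Zy.2 ⟨?_, ?_⟩, ?_⟩
  · simp only [up_apply_Orient, Finset.mul_sum, s0_apply_Orient]
    refine Submodule.sum_mem _ fun a _ => Submodule.sum_mem _ fun b _ =>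
      Submodule.sum_mem _ fun c _ => Submodule.sum_mem _ fun d _ => ?_
    by_cases t : Tet_O1 G A a b c d
    · have hl := tet_lk_IIe t
      have hw := wedge_mem_Ch (cl_Orient t.ma hl.1 hl.2.1 hl.2.2)
      simp only [mul_smul_comm]
      refine Submodule.smul_mem _ _ ?_
      simpa only [wedge_cons, wedge_nil, List.length_cons, List.length_nil] using hw
    · simp [g, t]
  · unfold bd
    rw [ctr_four_Orient _ g h1 h2 h3]
    have e : (∑ c, (Finsupp.linearCombination ℚ fun _ : V => (1 : ℚ)) (Finsupp.single c 1) • g c)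
        = 0 := by
      funext b c d
      simp only [Finsupp.linearCombination_single, smul_eq_mul, mul_one, one_smul,
        Finset.sum_apply, Pi.zero_apply]
      exact hsum b c d
    rw [e, map_zero, smul_zero]
  · obtain ⟨v, hv⟩ := h.2.1.1
    have : Nonempty V := ⟨v⟩
    obtain ⟨a, b, c, d, t, -⟩ := tet_ex_IIe h (π := pk ∅) fun s hs => pk_mem _ hs.1
    intro h0
    have hz : iv d (iv c (iv b (iv a
        (up_Orient (up_Orient (up_Orient (up_Orient s0_Orient))) g)))) = 0 := by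
      rw [h0]
      simp only [map_zero]
    revert hz
    unfold iv
    rw [ctr_four_Orient _ g h1 h2 h3, pick_Orient]
    simp only [map_smul]
    rw [ctr_three_Orient _ (g a) (h2 a) (h3 a), pick_Orient]
    simp only [map_smul]
    rw [ctr_two_Orient _ (g a b) (h3 a b), pick_Orient]
    simp only [map_smul]
    rw [ctr_one_Orient, pick_Orient, s0_apply_Orient]
    simp only [smul_smul]
    refine smul_ne_zero ?_ one_ne_zero
    have : g a b c d ≠ 0 := by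
      simp only [g, if_pos t]
      split_ifs <;> norm_num
    positivity

theorem co4_wedge_IIe {a b c d : V} (t : Tet_O1 G A a b c d) :
    co4 a b c d (wedge [a, b, c, d]) = 1 := by
  have e : ∀ (v : V) (l : List V), v ∉ l → iv v (wedge (v :: l)) = wedge l := fun v l hv => by
    rw [wedge_cons, iv_vx_mul_self, iv_wedge_ChA2 l hv, mul_zero, sub_zero]
  unfold co4
  rw [e a _ (by simp [t.ab.ne, t.ac.ne, t.ad.ne]), e b _ (by simp [t.bc.ne, t.bd.ne]),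
    e c _ (by simp [t.cd.ne]), e d _ (by simp), wedge_nil]

theorem co4_zero_IIe {a b c d : V} {l : List V} (h : ¬ (a ∈ l ∧ b ∈ l ∧ c ∈ l ∧ d ∈ l)) :
    co4 a b c d (wedge l) = 0 := by
  have e : ∀ a b c d : V, a ∉ l → co4 a b c d (wedge l) = 0 := fun a b c d ha => by
    unfold co4
    rw [iv_wedge_ChA2 l ha]
    simp only [map_zero]
  by_cases ha : a ∈ l
  · by_cases hb : b ∈ l
    · by_cases hc : c ∈ l
      · rw [(co4_swap a b d c _).2.2, (co4_swap a d b c _).2.1, (co4_swap d a b c _).1,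
          e d a b c fun hd => h ⟨ha, hb, hc, hd⟩]
        simp only [neg_zero]
      · rw [(co4_swap a c b d _).2.1, (co4_swap c a b d _).1, e c a b d hc]
        simp only [neg_zero]
    · rw [(co4_swap b a c d _).1, e b a c d hb, neg_zero]
  · exact e a b c d ha

theorem up_IIe {π : Finset V → V} {l : List (Finset V)}
    (hl : ∀ s ∈ l, ∀ t ∈ l, s ⊆ t ∨ t ⊆ s) (hπ : ∀ s ∈ l, π s ∈ s) {T : Finset V}
    (hT : T.Nonempty) : (∀ y ∈ T, y ∈ l.map π) → ∃ t ∈ l, π t ∈ T ∧ T ⊆ t := by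
  induction hT using Finset.Nonempty.cons_induction with
  | singleton y =>
    intro h
    obtain ⟨t, ht, rfl⟩ := List.mem_map.1 (h y (Finset.mem_singleton_self y))
    exact ⟨t, ht, Finset.mem_singleton_self _, Finset.singleton_subset_iff.2 (hπ t ht)⟩
  | cons y T hy _ ih =>
    intro h
    obtain ⟨t, ht, h1, h2⟩ := ih fun z hz => h z (Finset.mem_cons_of_mem hz)
    obtain ⟨t', ht', rfl⟩ := List.mem_map.1 (h y (Finset.mem_cons_self _ _))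
    rcases hl t ht t' ht' with h3 | h3
    · exact ⟨t', ht', Finset.mem_cons_self _ _, Finset.cons_subset.2 ⟨hπ t' ht', h2.trans h3⟩⟩
    · exact ⟨t, ht, Finset.mem_cons_of_mem h1, Finset.cons_subset.2 ⟨h3 (hπ t' ht'), h2⟩⟩

theorem step_IIe {π : Finset V → V} {l : List (Finset V)}
    (hl : ∀ s ∈ l, ∀ t ∈ l, s ⊆ t ∨ t ⊆ s) (hπ : ∀ s ∈ l, π s ∈ s) {T : Finset V} {x : V}
    (hx : x ∉ T) (hS : π (insert x T) = x)
    (hP : ∀ t ∈ l, π t ∈ insert x T → t ⊆ insert x T) (hT : T.Nonempty)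
    (hy : ∀ y ∈ T, y ∈ l.map π) : T ∈ l ∧ ∀ t ∈ l, π t ∈ T → t ⊆ T := by
  have key : ∀ t ∈ l, π t ∈ T → T ⊆ t → t ⊆ T := by
    intro t ht h1 h2
    have h3 := hP t ht (Finset.mem_insert_of_mem h1)
    refine (Finset.subset_insert_iff_of_notMem fun h4 => hx ?_).1 h3
    have h5 : t = insert x T := h3.antisymm (Finset.insert_subset h4 h2)
    rwa [h5, hS] at h1
  obtain ⟨t, ht, h1, h2⟩ := up_IIe hl hπ hT hy
  have hm : T ∈ l := (key t ht h1 h2).antisymm h2 ▸ ht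
  exact ⟨hm, fun s hs h3 => (hl s hs T hm).elim id (key s hs h3)⟩

theorem co4_emap_IIe (h : Cl G 3 A) {π : Finset V → V} (hπ : ∀ s ∈ sA G A, π s ∈ s) {a b c d : V}
    (t : Tet_O1 G A a b c d) (e1 : π {a} = a) (e2 : π {b, a} = b) (e3 : π {c, b, a} = c)
    (e4 : π {d, c, b, a} = d) {w : EA (Finset V)} (hw : w ∈ Ch (sG V) (sA G A) 4) :
    co4 a b c d (emap π w) = emap π (co4 {a} {b, a} {c, b, a} {d, c, b, a} w) := by
  have t' := (flag_O1 t).1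
  refine Ch_induction (p := fun w => co4 a b c d (emap π w) =
    emap π (co4 {a} {b, a} {c, b, a} {d, c, b, a} w)) ?_ ?_ ?_ ?_ hw
  · simp only [co4, map_zero]
  · intro x y _ _ hx hy
    simp only [co4, map_add] at hx hy ⊢
    rw [hx, hy]
  · intro r x _ hx
    simp only [co4, map_smul] at hx ⊢
    rw [hx]
  intro l h4 hn hc
  by_cases hm : {a} ∈ l ∧ {b, a} ∈ l ∧ {c, b, a} ∈ l ∧ {d, c, b, a} ∈ l
  · have hp : l.Perm [{a}, {b, a}, {c, b, a}, {d, c, b, a}] := by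
      refine (List.Subperm.perm_of_length_le (List.subperm_of_subset ?_ ?_) (by simp [h4])).symm
      · simp only [List.nodup_cons, List.mem_cons, List.not_mem_nil, or_false, not_or,
          not_false_eq_true, List.nodup_nil, and_true]
        exact ⟨⟨t'.ab.ne, t'.ac.ne, t'.ad.ne⟩, ⟨t'.bc.ne, t'.bd.ne⟩, t'.cd.ne⟩
      · intro x hx
        simp only [List.mem_cons, List.not_mem_nil, or_false] at hx
        rcases hx with rfl | rfl | rfl | rfl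
        exacts [hm.1, hm.2.1, hm.2.2.1, hm.2.2.2]
    have e : co4 a b c d (emap π (wedge [{a}, {b, a}, {c, b, a}, {d, c, b, a}])) =
        emap π (co4 {a} {b, a} {c, b, a} {d, c, b, a}
          (wedge [{a}, {b, a}, {c, b, a}, {d, c, b, a}])) := by
      rw [co4_wedge_IIe t', emap_one, emap_wedge]
      simp only [List.map_cons, List.map_nil, e1, e2, e3, e4]
      exact co4_wedge_IIe t
    rcases wedge_perm hp with h5 | h5
    · rw [h5, e]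
    · rw [h5]
      simp only [co4, map_neg] at e ⊢
      rw [e]
  · rw [co4_zero_IIe hm, map_zero, emap_wedge]
    refine co4_zero_IIe fun hq => hm ?_
    have hl : ∀ s ∈ l, ∀ t ∈ l, s ⊆ t ∨ t ⊆ s := fun s hs t ht => adq_sG.1 (hc.2 s hs t ht)
    have hπ' : ∀ s ∈ l, π s ∈ s := fun s hs => hπ s (hc.1 s hs)
    have hd : d ∉ ({c, b, a} : Finset V) := by simp [t.ad.ne', t.bd.ne', t.cd.ne']
    have hc' : c ∉ ({b, a} : Finset V) := by simp [t.ac.ne', t.bc.ne']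
    have hb : b ∉ ({a} : Finset V) := by simp [t.ab.ne']
    have c4 : ({d, c, b, a} : Finset V).card = 4 := by
      rw [Finset.card_insert_of_notMem hd, Finset.card_insert_of_notMem hc',
        Finset.card_insert_of_notMem hb, Finset.card_singleton]
    have top4 : ∀ s ∈ l, {d, c, b, a} ⊆ s → {d, c, b, a} = s := fun s hs h5 =>
      Finset.eq_of_subset_of_card_le h5 (c4 ▸ Mfa.card_le h.2.2 s (hc.1 s hs))
    obtain ⟨s, hs, -, h5⟩ := up_IIe hl hπ' (T := {d, c, b, a}) (by simp) (by simp [hq, -List.mem_map])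
    have m4 : {d, c, b, a} ∈ l := top4 s hs h5 ▸ hs
    obtain ⟨m3, p3⟩ := step_IIe hl hπ' hd e4
      (fun s hs _ => (hl s hs _ m4).elim id fun h6 => (top4 s hs h6).ge) (by simp) (by simp [hq, -List.mem_map])
    obtain ⟨m2, p2⟩ := step_IIe hl hπ' hc' e3 p3 (by simp) (by simp [hq, -List.mem_map])
    exact ⟨(step_IIe hl hπ' hb e2 p2 (by simp) (by simp [hq, -List.mem_map])).1, m2, m3, m4⟩

theorem cyc_of_ori (h : Cl G 3 A) (ho : Ori G A) : ∃ z ∈ Zy G A 4, z ≠ 0 := by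
  have : Fintype A := h.1.fintype
  have hi : IsIso (G.comap (Subtype.val : A → V)) Set.univ G A Subtype.val :=
    ⟨⟨fun a _ => a.2, Subtype.val_injective.injOn, fun a ha => ⟨⟨a, ha⟩, trivial, rfl⟩⟩,
      fun _ _ _ _ => Iff.rfl⟩
  obtain ⟨z, hz, h0⟩ := cyc_fin_IIe ((IsIso.cl hi).2 h) ((IsIso.ori hi).2 ho)
  refine ⟨_, emap_mem_Zy (IsIso.hom hi) hz, fun h1 => h0 ?_⟩
  have : Nonempty A := h.2.1.1.to_subtype
  obtain ⟨g, hg⟩ := (Subtype.val_injective (p := fun a => a ∈ A)).hasLeftInverse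
  rw [← emap_eq_self (f := g ∘ Subtype.val) (fun a _ => hg a) (mem_Zy.1 hz).1, ← emap_comp, h1,
    map_zero]

theorem emap_pick_ne_zero (h : Cl G 3 A) {π : Finset V → V} (hπ : ∀ s ∈ sA G A, π s ∈ s)
    {z : EA (Finset V)} (hz : z ∈ Zy (sG V) (sA G A) 4) (h0 : z ≠ 0) : emap π z ≠ 0 := by
  obtain ⟨a, b, c, d, t, e1, e2, e3, e4⟩ := tet_ex_IIe h hπ
  have t' := (flag_O1 t).1
  have hl := tet_lk_IIe t'
  have h1 := co4_ne_zero (h.sd le_rfl) hz h0 t'.ma hl.1 hl.2.1 hl.2.2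
  have h2 := co4_emap_IIe h hπ t e1 e2 e3 e4 (mem_Zy.1 hz).1
  obtain ⟨r, hr⟩ := co4_scalar (mem_Zy.1 hz).1 {a} {b, a} {c, b, a} {d, c, b, a}
  intro h3
  rw [h3, hr, map_smul, emap_one] at h2
  have h4 : r = 0 := by
    refine (smul_eq_zero.1 (h2.symm.trans ?_)).resolve_right one_ne_zero
    simp only [co4, map_zero]
  exact h1 (by rw [hr, h4, zero_smul])

end Pool.Agent.MP_6374aa_g

end

section

/-! Orientability is a topological invariant. -/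

namespace Pool.Agent.MP_6374aa_g

open Pool.Agent.MP_6374aa_gt Classical

theorem Rf.cyc {X Y : Cx} {b : (Y.V → ℝ) → X.V → ℝ} {p : Y.V → X.V} (h : Rf X Y b p)
    (hX : Cl X.G 3 X.A) {z : EA Y.V} (hz : z ∈ Zy Y.G Y.A 4) (h0 : z ≠ 0) : emap p z ≠ 0 := by
  induction h with
  | refl => rwa [emap_eq_self (f := id) (fun _ _ => rfl) (mem_Zy.1 hz).1]
  | sd π h hπ ih =>
    rw [← emap_comp]
    exact ih (emap_mem_Zy (sd_pe hπ).hom hz) (emap_pick_ne_zero (h.cl hX) hπ hz h0)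

theorem ori_main : ORI_st := by
  intro X Y hX hY e ho
  have cX : Cl X.G 3 X.A := closed_iff.1 hX
  have cY : Cl Y.G 3 Y.A := closed_iff.1 hY
  obtain ⟨Y1, b, p, r1, X1, b', p', r2, f, g, hf, hg, hs⟩ := zig_homeo cY.1 cX.1 e.symm cX.2.1.1
  obtain ⟨z, hz, h0⟩ := cyc_of_ori (r2.cl cX) (r2.ori cX ho)
  have h1 := emap_sub_mem_Bd (hf.comp hg) r2.pe.hom hs hz
  rw [cX.fin3.Bd_eq_bot subset_rfl le_rfl, Submodule.mem_bot, sub_eq_zero] at h1
  have h2 : emap g z ≠ 0 := fun h3 => r2.cyc cX hz h0 (by rw [← h1, ← emap_comp, h3, map_zero])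
  have h3 := emap_mem_Zy hg hz
  exact ori_of_cyc cY (emap_mem_Zy r1.pe.hom h3) (r1.cyc cY h3 h2)

end Pool.Agent.MP_6374aa_g

end

section

/-! The sharp form and the counterexample. -/

namespace Pool.Agent.MP_6374aa_g

open Pool.Agent.MP_6374aa_gt

/-- Topological summands are simplicial summands. -/
def VS_st : Prop := ∀ P R X : Cx, X.Closed → CSum P R X → Summand P X

theorem Summand.csum {P N : Cx} (h : Summand P N) (hN : N.Closed) : ∃ R, CSum P R N := by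
  obtain ⟨j, U, K, A, R, B, v, f, cA, cR, hg, e, hf⟩ := h
  exact ⟨_, U, K, A, R, B, v, cA, cR, hg, e, Cx.Homeo.refl _,
    (IsIso.homeo (X := ⟨U, K, B⟩) (iso_iff.1 hf)
      (Graft.cl hg (closed_iff.1 cA) (closed_iff.1 cR)).1).trans (Cx.homeo_iter hN.1 j)⟩

theorem not_csum {N P : Cx} (hN : N.Closed) (hP : P.Closed) (h1 : Rk N.G N.A 1) (h2 : ¬ N.Orient)
    (h3 : P.Orient) (h4 : ¬ NDC P.G P.A) : ¬ ∃ R, CSum P R N := by
  rintro ⟨R, U, K, A, M, B, v, cA, cM, hg, e1, -, e3⟩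
  have cB : Cx.Closed ⟨U, K, B⟩ := closed_iff.2 (Graft.cl hg (closed_iff.1 cA) (closed_iff.1 cM))
  exact not_summand rki_main ori_main cB hP (rki_main _ _ hN.1 cB.1 e3.symm 1 h1)
    (fun k => h2 (ori_main _ _ cB hN e3 k)) h3 h4
    ⟨0, U, K, A, M, B, v, id, cA, cM, hg, e1, iso_iff.2 isIso_id⟩

theorem sharp_of (hP : HDP_st) (hC : HDC_st) {N X P : Cx} (cN : N.Closed) (cP : P.Closed)
    (pP : P.Prime) (hX : SumOf N X) (hp : PunctE X P) :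
    PunctE N P ∨ (P.S2S1 ∧ ¬ N.Orient ∧ N.HasNS) := by
  rcases g_main N X P cN cP pP hX hp with k | ⟨⟨Q, cQ, eQ, sQ⟩, i, hi⟩
  · exact Or.inl k
  have ci := cN.iter i
  have pQ := pP.homeo eQ
  by_cases c : Q.Orient ↔ (Cx.sd^[i] N).Orient
  · obtain ⟨S, s1, s2, s3⟩ := (nonSep_iff ci.1).1 hi
    exact Or.inl ((exc_punct rki_main hP hC gam_main ci cQ pQ sQ s1 s2 s3
      (Or.inl c)).of_iter.homeo eQ)
  rw [cN.orient_iter] at c
  have h1 : ¬ N.Orient := fun k => c (iff_of_true (ori_main _ _ cP cQ eQ.symm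
    (hp.orient ori_main (hX.closed cN) cP (hX.orient cN k))) k)
  have h2 : Q.Orient := by_contra fun k => c (iff_of_false k h1)
  obtain ⟨M, cM, oM, sM, rM, tM⟩ := mod_main
  obtain ⟨e⟩ := eQ.symm.trans (exc_homeo rki_main hP hC gam_main cM cQ
    (prime_of brown_main rki_main M cM rM tM) pQ sM sQ (iff_of_true h2 oM))
  obtain ⟨t⟩ := tM
  exact Or.inr ⟨⟨e.trans t⟩, h1, _, ci, Cx.homeo_iter cN.1 i, hi⟩

theorem pos_of (hP : HDP_st) (hC : HDC_st) (hV : VS_st) (V V' : Type) (Γ : SimpleGraph V)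
    (Γ' : SimpleGraph V') (h1 : Cx.Closed ⟨V, Γ, Set.univ⟩) (h2 : Cx.Closed ⟨V', Γ', Set.univ⟩)
    (n1 : NoSquare Γ) (n2 : NoSquare Γ')
    (hb : Nonempty (@Homeomorph (Bdry Γ) (Bdry Γ') (bdryTop Γ) (bdryTop Γ')))
    (P : Cx) (cP : P.Closed) (pP : P.IsPrime) (hs : ∃ R, CSum P R ⟨V', Γ', Set.univ⟩) :
    (∃ R, CSum P R ⟨V, Γ, Set.univ⟩) ∨
      (P.S2S1 ∧ ¬ Cx.Orient ⟨V, Γ, Set.univ⟩ ∧ Cx.HasNS ⟨V, Γ, Set.univ⟩) := by
  have f1 : Finite V := Set.finite_univ_iff.1 h1.1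
  have f2 : Finite V' := Set.finite_univ_iff.1 h2.1
  have g1 := Fintype.ofFinite V
  have g2 := Fintype.ofFinite V'
  obtain ⟨R, hR⟩ := hs
  obtain ⟨X, hX, hp⟩ := pun_main V V' Γ Γ' h1 h2 n1 n2 hb P (hV _ _ _ h2 hR)
  exact (sharp_of hP hC h1 cP (pP.prime brown_main) hX hp).imp_left
    fun k => (merge_main _ _ h1 k).csum h1

theorem neg_of (hP : HDP_st) (hC : HDC_st) :
    ∃ (V V' : Type) (Γ : SimpleGraph V) (Γ' : SimpleGraph V') (P : Cx),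
      Cx.Closed ⟨V, Γ, Set.univ⟩ ∧ Cx.Closed ⟨V', Γ', Set.univ⟩ ∧ NoSquare Γ ∧ NoSquare Γ' ∧
      Nonempty (@Homeomorph (Bdry Γ) (Bdry Γ') (bdryTop Γ) (bdryTop Γ')) ∧ P.Closed ∧
      P.IsPrime ∧ P.S2S1 ∧ (∃ R, CSum P R ⟨V', Γ', Set.univ⟩) ∧
      ¬ ∃ R, CSum P R ⟨V, Γ, Set.univ⟩ := by
  obtain ⟨n, Γ, c1, q1, o1, S, v, s1, s2, s3, s4⟩ := cek_main
  obtain ⟨M, cM, oM, sM, rM, tM⟩ := mod_main
  have pM := prime_of brown_main rki_main M cM rM tM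
  have c2 : Cx.Closed ⟨_, dblG Γ v, Set.univ⟩ := closed_iff.2 (dbl_cl c1 v)
  obtain ⟨S', t1, t2, t3⟩ := dbl_sphere c1 o1 s1 s2 s4
  obtain ⟨T, u1, u2, u3⟩ := (nonSep_iff cM.1).1 sM
  exact ⟨_, _, Γ, dblG Γ v, M, closed_iff.2 c1, c2, q1, dbl_noSquare q1 v, dbl_main _ Γ v, cM,
    pM.isPrime, tM, (merge_main _ _ c2 (exc_punct rki_main hP hC gam_main c2 cM pM sM
      (Set.subset_univ _) t1 t2 (Or.inr t3))).csum c2,
    not_csum (closed_iff.2 c1) cM (rk_one c1 (Set.subset_univ _) s1 s2 s3) o1 oM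
      (nonsep_not_ndc ((Cx.closed_iff _).1 cM) u1 u2 u3)⟩

end Pool.Agent.MP_6374aa_g

end

section

/-! Refinements that collapse, and the levels of the model over iterated subdivisions. -/

namespace Pool.Agent.MP_6374aa_g

open Pool.Agent.MP_6374aa_gt Classical

theorem Rf.recls {X Y : Cx} {b : (Y.V → ℝ) → X.V → ℝ} {p : Y.V → X.V} (h : Rf X Y b p)
    (hX : Nonempty X.V) :
    (∃ k, Y = Cx.sd^[k] X) ∧ ∃ c, Rf X Y b c ∧ CLS Y.G Y.A X.G X.A c := by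
  induction h with
  | refl => exact ⟨⟨0, rfl⟩, id, Rf.refl, CLS.id'⟩
  | @sd Y b p π h _ ih =>
    obtain ⟨⟨k, hk⟩, c, h1, h2⟩ := ih
    have := h.nonempty hX
    obtain ⟨π', k1, k2⟩ := pick_cls (G := Y.G) (A := Y.A)
    exact ⟨⟨k + 1, by rw [Function.iterate_succ_apply', ← hk]⟩, _, Rf.sd π' h1 k1, h2.comp k2⟩

/-- A subdivision that collapses and carries a simplicial approximation. -/
theorem refine_V {X Y : Cx} (hX : Cl X.G 3 X.A) {h : (X.V → ℝ) → Y.V → ℝ}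
    (hh : HM (Rz X.G X.A) (Rz Y.G Y.A) h) (hY : Nonempty Y.V) :
    ∃ (Z : Cx) (b : (Z.V → ℝ) → X.V → ℝ) (c : Z.V → X.V) (f : Z.V → Y.V),
      (∃ k, Z = Cx.sd^[k] X) ∧ Cl Z.G 3 Z.A ∧ HM (Rz Z.G Z.A) (Rz X.G X.A) b ∧
        Apx Z.G Z.A b c ∧ CLS Z.G Z.A X.G X.A c ∧ Apx Z.G Z.A (h ∘ b) f := by
  have hn : Nonempty X.V := ⟨hX.2.1.1.choose⟩
  obtain ⟨Z, b, p, h1, f, h2⟩ := exists_apx hX.1 hn hh.1 hh.2.mapsTo
  obtain ⟨h3, c, h4, h5⟩ := h1.recls hn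
  exact ⟨Z, b, c, f, h3, h1.cl hX, h1.hm hX.1, h4.apx hX.1, h5, h2⟩

/-- A level of the model together with a collapse of a closed manifold onto it. -/
structure StV (Q : Type) [Group Q] (Nm Np : Subgroup Q) where
  U : Type
  K : SimpleGraph U
  B : Set U
  h : U → ℤ
  N : ℤ
  ρ : U → U → Q
  Z : Cx
  c : Z.V → U
  lv : LvP K B h N ρ Nm Np
  cl : Cl Z.G 3 Z.A
  cls : CLS Z.G Z.A K B c

variable {Q : Type} [Group Q] {Nm Np : Subgroup Q}

/-- `s'` refines `s` with ratio `r`. -/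
def StV.Ref (s' s : StV Q Nm Np) (r : ℤ) : Prop :=
  s'.N = r * s.N ∧ ∃ (β : (s'.Z.V → ℝ) → s.Z.V → ℝ) (κ : s'.Z.V → s.Z.V),
    HM (Rz s'.Z.G s'.Z.A) (Rz s.Z.G s.Z.A) β ∧ Apx s'.Z.G s'.Z.A β κ ∧ ∀ x ∈ s'.Z.A,
      s'.h (s'.c x) + 1 ≤ r * s.h (s.c (κ x)) + r ∧ r * s.h (s.c (κ x)) + 1 ≤ s'.h (s'.c x) + r

theorem StV.next (s : StV Q Nm Np) : ∃ s' : StV Q Nm Np, s'.Ref s 2 := by
  obtain ⟨ρ', hρ⟩ := s.lv.sd
  have : Nonempty s.Z.V := ⟨s.cl.2.1.1.choose⟩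
  have h3 := s.cls.sd
  refine ⟨⟨_, _, _, _, _, ρ', s.Z.sd, _, hρ, s.cl.sd le_rfl, h3⟩, rfl, bar, pk Set.univ,
    bar_hm s.cl.1, apx_bar s.cl.1 fun t ht => pk_mem _ ht.1, fun x hx => ?_⟩
  have h6 := s.lv.ht.near (h3.hom.1 x hx) (Finset.mem_image_of_mem s.c (pk_mem Set.univ hx.1))
  exact ⟨by simp only; omega, by simp only; omega⟩

theorem StV.iter (s : StV Q Nm Np) (m : ℕ) : ∃ s' : StV Q Nm Np, s'.Ref s (2 ^ m) := by
  induction m with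
  | zero =>
    exact ⟨s, by simp, id, id, HM.id' _, fun _ _ _ h => h, fun x _ => ⟨by simp, by simp⟩⟩
  | succ m ih =>
    obtain ⟨s1, h1, β1, κ1, e1, p1, h2⟩ := ih
    obtain ⟨s2, h3, β2, κ2, e2, p2, h4⟩ := s1.next
    refine ⟨s2, by rw [h3, h1]; ring, β1 ∘ β2, κ1 ∘ κ2, e2.comp e1, p1.comp p2 e2.2.mapsTo,
      fun x hx => ?_⟩
    obtain ⟨a3, a4⟩ := h4 x hx
    obtain ⟨b3, b4⟩ := h2 _ ((p2.hom e2.2.mapsTo).1 x hx)
    refine ⟨?_, ?_⟩ <;> rw [pow_succ, Function.comp_apply] <;> linarith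

/-- The middle data on a subdivision of a complex that is homeomorphic to a level. -/
theorem mid_V {X : Cx} (hX : Cl X.G 3 X.A) (s : StV Q Nm Np) (hN : s.N = 2) (e : X.Homeo s.Z) :
    ∃ (k : ℕ) (H : Type) (_ : Group H), Nonempty (Mid (Cx.sd^[k] X) Q H Nm Np) := by
  have ne : ∀ {Y : Cx}, Cl Y.G 3 Y.A → Nonempty Y.V := fun h => ⟨h.2.1.1.choose⟩
  obtain ⟨s0, hN0, β0, -, q0, -⟩ := s.iter 2
  have hN8 : s0.N = 8 := by rw [hN0, hN]; norm_num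
  obtain ⟨e0, he0⟩ := (homeo_iff hX.1).1 (e.trans ((homeo_iff s0.cl.1).2 ⟨β0, q0⟩).symm)
  obtain ⟨A0, b0, -, φ0, ⟨k0, hk0⟩, c0, m0, -, -, x0⟩ := refine_V hX he0 (ne s0.cl)
  have E0 := m0.comp he0
  obtain ⟨n, hr⟩ := exists_rk (G := sG A0.V) (A := fr A0.G A0.A {x | s0.h (s0.c (φ0 x)) ≤ 2})
    ((sA_finite c0.1).subset fun s hs => hs.1)
  obtain ⟨s1, hN1, β, κ, q1, pκ, hκ⟩ := s0.iter (8 * n + 22)
  have hp : ((8 * n + 22 : ℕ) : ℤ) < 2 ^ (8 * n + 22) := by exact_mod_cast Nat.lt_two_pow_self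
  generalize (2 : ℤ) ^ (8 * n + 22) = r at hN1 hκ hp
  push_cast at hp
  obtain ⟨βi, qi, -, iβ⟩ := q1.symm' (rz_compact s1.cl.1)
  obtain ⟨A1, b1, ca, φ, ⟨k1, hk1⟩, c1, m1, p1, a1, x1⟩ := refine_V c0 (E0.comp qi) (ne s1.cl)
  have E1 := m1.comp (E0.comp qi)
  obtain ⟨Ei, qE, -, iE⟩ := E1.symm' (rz_compact c1.1)
  obtain ⟨B2, b2, c', ψ, -, c2, m2, p2, a4, x2⟩ := refine_V s1.cl qE (ne c1)
  have F2 := m2.comp qE
  obtain ⟨Fi, qF, -, iF⟩ := F2.symm' (rz_compact c2.1)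
  obtain ⟨A3, b3, c3, φ3, -, -, m3, p3, a7, x3⟩ := refine_V c1 qF (ne c2)
  have hφ0 := x0.hom E0.2.mapsTo
  have a2 := x1.hom E1.2.mapsTo
  have a5 := x2.hom F2.2.mapsTo
  have G3 := m3.comp qF
  have a8 := x3.hom G3.2.mapsTo
  have hκ0 := pκ.hom q1.2.mapsTo
  have a3 := (x0.comp p1 m1.2.mapsTo).sc (pκ.comp x1 E1.2.mapsTo)
    (fun y hy => (iβ _ ((m1.comp E0).2.mapsTo hy)).symm) (m1.comp E0).2.mapsTo
  have a6 := (x1.comp x2 F2.2.mapsTo).sc p2 (fun y hy => iE _ (m2.2.mapsTo hy))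
    (F2.comp E1).2.mapsTo
  have a9 := (x2.comp x3 G3.2.mapsTo).sc p3 (fun y hy => iF _ (m3.2.mapsTo hy))
    (G3.comp F2).2.mapsTo
  have a10 := (p2.comp x3 G3.2.mapsTo).sc (x1.comp p3 m3.2.mapsTo)
    (fun y hy => (iE _ ((G3.comp m2).2.mapsTo hy)).symm.trans
      (congrArg _ (iF _ (m3.2.mapsTo hy)))) (G3.comp m2).2.mapsTo
  have sc : ∀ {T : Type} {G : SimpleGraph T} {A : Set T} {f g : T → s1.Z.V},
      (∀ x ∈ A, f x ∈ s1.Z.A) → (∀ x ∈ A, g x ∈ s1.Z.A) → SC G A s1.Z.G f g →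
      SC G A s1.K (s1.c ∘ f) (s1.c ∘ g) := fun hf hg h a ha b hb hab =>
    IsHom.adq s1.cls.hom (hf a ha) (hg b hb) (h a ha b hb hab)
  have nr : ∀ x ∈ A1.A, s0.h (s0.c (φ0 (ca x))) ≤ s0.h (s0.c (κ (φ x))) + 1 ∧
      s0.h (s0.c (κ (φ x))) ≤ s0.h (s0.c (φ0 (ca x))) + 1 := fun x hx => by
    have b1 := hφ0.1 _ (a1.hom.1 x hx)
    have b2 := hκ0.1 _ (a2.1 x hx)
    exact near_Md s0.lv.ht (s0.cls.hom.1 _ b1) (s0.cls.hom.1 _ b2)
      (IsHom.adq s0.cls.hom b1 b2 (a3 x hx x hx (Or.inl rfl)))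
  have hn0 : (0 : ℤ) ≤ n := Int.natCast_nonneg n
  obtain ⟨H, iH, hM⟩ := mid_of s1.lv c1 (comp_Md s1.cls.hom a2)
    (s1.cls.comp a4) a5 (sc (comp_Md a2 a5).1 a4.hom.1 a6) a7 a8 a9
    (sc (comp_Md a4.hom a8).1 (comp_Md a2 a7.hom).1 a10) (a1.rk_fr hr) (lo := r) (hi := 4 * r)
    (fun x hx h3 => by
      have b1 := (nr x hx).1
      have b2 := (hκ _ (a2.1 x hx)).2
      change s1.h (s1.c (φ x)) ≤ r at h3
      change s0.h (s0.c (φ0 (ca x))) ≤ 2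
      have b3 : s0.h (s0.c (κ (φ x))) < 2 := lt_of_mul_lt_mul_left (a := r) (by linarith)
        (by linarith)
      omega)
    (fun x hx h3 h4 => by
      have b1 := (nr x hx).2
      have b2 := (hκ _ (a2.1 x hx)).1
      change 4 * r ≤ s1.h (s1.c (φ x)) at h3
      change s0.h (s0.c (φ0 (ca x))) ≤ 2 at h4
      have b3 : 3 < s0.h (s0.c (κ (φ x))) := lt_of_mul_lt_mul_left (a := r) (by linarith)
        (by linarith)
      omega)
    (by linarith) (by linarith) (by rw [hN1, hN8]; linarith)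
  refine ⟨k1 + k0, H, iH, ?_⟩
  rw [Function.iterate_add_apply, ← hk0, ← hk1]
  exact hM

end Pool.Agent.MP_6374aa_g

end

section

/-! Summands do not depend on the triangulation. -/

namespace Pool.Agent.MP_6374aa_g

open Pool.Agent.MP_6374aa_gt Classical

theorem v_punct (X : Cx) (U : Type) (K : SimpleGraph U) (A R B : Set U) (v : U) (hX : X.Closed)
    (cA : Cl K 3 A) (cR : Cl K 3 R) (hg : Graft K A R B v) (e : X.Homeo ⟨U, K, B⟩) :
    PunctE X ⟨U, K, A⟩ := by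
  have two := two_main U K A cA
  have cB : Cl K 3 B := Graft.cl hg cA cR
  obtain ⟨c0, hc0⟩ := col_main ⟨U, K, B⟩ U K A R B v id cA cR hg isIso_id
  obtain ⟨Q, iQ, ρ, hρ⟩ := exists_ul (rcon_main _ _ _ _ two)
  obtain ⟨Nm, Np, ⟨tm⟩, hQ, km, kp⟩ := model_main _ _ _ _ Q ρ two hρ
  obtain ⟨h, hl⟩ := lvp_init two.cl hρ km kp
  obtain ⟨j, H, iH, hmid⟩ := mid_V ((Cx.closed_iff _).1 hX)
    ⟨_, _, _, h, 2, ρ, (Cx.sd ⟨U, K, B⟩).sd, _, hl, (cB.sd le_rfl).sd le_rfl, hc0.sd⟩ rfl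
    (e.trans ((sdh_main _ (cB.sd le_rfl).1).trans (sdh_main ⟨U, K, B⟩ cB.1)).symm)
  obtain ⟨k, hsurf⟩ := d_of loop_main _ Q H Nm Np hQ tm.act1.normal tm.act2.normal hmid
  obtain ⟨k2, Pl, ℓ, hl⟩ := e_of ed_main _ _ _ _ _ Q Nm Np two ⟨tm⟩ hsurf
  have hp := f_main _ _ _ _ Pl ℓ ((Cx.closed_iff _).1 (((hX.iter j).iter k).iter k2)) two.cl hl
  exact (hp.of_iter.of_iter.of_iter).homeo (sdh_main ⟨U, K, A⟩ cA.1)

theorem v_main (X P : Cx) (U : Type) (K : SimpleGraph U) (A R B : Set U) (v : U) (hX : X.Closed)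
    (cA : Cl K 3 A) (cR : Cl K 3 R) (hg : Graft K A R B v) (e : X.Homeo ⟨U, K, B⟩)
    (hP : Cx.Homeo ⟨U, K, A⟩ P) : Summand P X :=
  merge_main X P hX ((v_punct X U K A R B v hX cA cR hg e).homeo hP)

end Pool.Agent.MP_6374aa_g

end
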