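import Pool.Agent.Mg.F6374aa.G58f9d6
import Pool.Agent.Mg.F6374aa.Gae9ace
import Pool.Agent.Mg.F6374aa.Ge6e9b2
import Pool.Agent.Mg.F6374aa.Gd97eb3
import Pool.Agent.Mg.F6374aa.G063b81

section

/-! The handle and the boundary sphere. -/

namespace Pool.Agent.MP_6374aa_g

open Pool.Agent.MP_6374aa_gt Classical

variable {V : Type} {G : SimpleGraph V} {A S γ : Set V} {x v w : V} {σ : V → Set V}

theorem leaf_SHd1 {W : Set V} (hp : Pre G W) {u a : V} (h : ∀ y ∈ W, G.Adj y u → y = a) :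
    Pre G (W \ {u}) := by
  intro b hb c hc
  have key : ∀ c, Reach G W b c → (c ≠ u ∧ Reach G (W \ {u}) b c) ∨
      (c = u ∧ Reach G (W \ {u}) b a) := by
    intro c hr
    induction hr with
    | refl => exact Or.inl ⟨hb.2, Reach.refl b⟩
    | @tail y z _ k ih =>
      obtain ⟨k1, k2, k3⟩ := k
      rcases ih with ⟨i1, i2⟩ | ⟨rfl, i2⟩
      · by_cases e : z = u
        · subst e
          exact Or.inr ⟨rfl, h y k1 k3 ▸ i2⟩
        · exact Or.inl ⟨e, i2.trans (Reach.single ⟨k1, i1⟩ ⟨k2, e⟩ (Or.inr k3))⟩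
      · exact Or.inl ⟨k3.ne.symm, (h z k2 k3.symm).symm ▸ i2⟩
  exact ((key c (hp b hb.1 c hc.1)).resolve_right fun k => hc.2 k.1).2

theorem nb_arc (hA : Mf G 3 A ∅) (hγ : γ ⊆ A) (hc : Sph G 2 γ) {W : Set V} (hW : W ⊂ γ)
    (hn : Con G W) : NB G A W := by
  obtain ⟨n, hn'⟩ : ∃ n, W.ncard = n := ⟨_, rfl⟩
  induction n using Nat.strong_induction_on generalizing W with
  | _ n ih =>
    have hf : W.Finite := hc.finite.subset hW.1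
    obtain ⟨a, ha⟩ := hn.1
    obtain ⟨b, hb, hbW⟩ := Set.not_subset.1 hW.2
    obtain ⟨u, hu, z, hz, huz, -⟩ := Reach.exit (X := W) ((Cell.con hc).2 a (hW.1 ha) b hb)
      ⟨hW.1 ha, ha⟩ hbW
    by_cases he : W \ {u} = ∅
    · have e : W = {u} := Set.Subset.antisymm (Set.sdiff_eq_empty.1 he)
        (Set.singleton_subset_iff.2 hu.2)
      rw [e]
      exact nb_single hA (hγ hu.1)
    · obtain ⟨c, hc'⟩ := Set.nonempty_iff_ne_empty.2 he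
      obtain ⟨u', hu', y, hy, huy, -⟩ := Reach.exit (X := {u}) (hn.2 u hu.2 c hc'.1)
        ⟨hu.2, rfl⟩ hc'.2
      obtain rfl : u' = u := hu'.2
      have hl : ∀ t ∈ W, G.Adj t u' → t = y := fun t ht k =>
        (d2_H1 (Cell.mfa hc) hu.1 (hW.1 hy.1) hz.1 (hW.1 ht) huy huz k.symm
          fun e => hz.2 (e ▸ hy.1)).resolve_right fun e => hz.2 (e ▸ ht)
      have h1 : NB G A (W \ {u'}) := ih _ (hn' ▸ Set.ncard_sdiff_singleton_lt_of_mem hu.2 hf)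
        (Set.sdiff_subset.trans_ssubset hW) ⟨⟨c, hc'⟩, leaf_SHd1 hn.2 hl⟩ rfl
      have h2 := nb_join hA h1 (nb_single hA (hγ hu.1)) Set.disjoint_sdiff_left hy rfl huy.symm
        (fun t ht r hr k => ⟨hl t ht.1 (Set.mem_singleton_iff.1 hr ▸ k), hr⟩)
      rwa [Set.sdiff_union_of_subset (Set.singleton_subset_iff.2 hu.2)] at h2

theorem xs_SHd1 (h : Hd G A S γ x v w σ) : x ∈ γ ∧ x ∈ S := by
  have : x ∈ γ ∩ S := h.inter ▸ rfl
  exact this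

theorem ns_SHd1 (h : Hd G A S γ x v w σ) {y : V} (hy : y ∈ γ \ {x}) : y ∉ S := fun k =>
  hy.2 (h.inter ▸ (⟨hy.1, k⟩ : y ∈ γ ∩ S))

theorem Hd.symm (h : Hd G A S γ x v w σ) : Hd G A S γ x w v (oth G A S σ) := by
  have hw : w ∈ Lk G γ {x} := h.lk ▸ Or.inr rfl
  obtain ⟨w1, w2⟩ := mem_lk_C1.1 hw
  refine ⟨h.cl, h.subS, h.sph, h.sided.symm h.subS, h.subγ, h.circ, h.inter,
    h.lk.trans (Set.pair_comm v w), ⟨mem_lk_C1.2 ⟨h.subγ w1, w2⟩, ?_⟩,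
    fun k => k.2 (Or.inr h.memv), h.far⟩
  rintro (k | k)
  · exact ns_SHd1 h ⟨w1, w2.ne.symm⟩ k
  · exact h.memw k

theorem Hd.basic (h : Hd G A S γ x v w σ) : x ∈ S ∧ x ∈ γ ∧ v ∈ γ \ {x} ∧ v ∉ S ∧ G.Adj x v ∧ v ≠ w ∧
    Sph G 2 (Lk G A ({x, v} : Finset V)) := by
  have hv : v ∈ Lk G γ {x} := h.lk ▸ Or.inl rfl
  obtain ⟨v1, v2⟩ := mem_lk_C1.1 hv
  obtain ⟨x1, x2⟩ := xs_SHd1 h
  refine ⟨x2, x1, ⟨v1, v2.ne.symm⟩, ns_SHd1 h ⟨v1, v2.ne.symm⟩, v2,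
    fun e => h.memw (e ▸ h.memv), ?_⟩
  have hs := pair_mem_sA (h.subγ x1) (h.subγ v1) (Or.inr v2)
  have h1 := ((mf_empty_iff.1 h.cl.2.2).link hs.2 ⟨x, Finset.mem_insert_self _ _, h.subγ x1⟩).2
  rw [Finset.card_pair v2.ne] at h1
  exact h1

theorem Hd.nbU (h : Hd G A S γ x v w σ) : NB G A (γ \ {x}) :=
  nb_arc h.cl.2.2 h.subγ h.circ
    ⟨Set.sdiff_subset, fun k => (k (xs_SHd1 h).1).2 rfl⟩
    (Cell.con (h.circ.circle_rem (xs_SHd1 h).1))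

theorem Hd.not_meets (h : Hd G A S γ x v w σ) {s : Finset V} (hs : s ∈ sA G A)
    (hm : Meets s (γ \ {x})) : ¬ Meets s (S \ {x}) := by
  rintro ⟨y, hy, k⟩
  obtain ⟨z, hz, k'⟩ := hm
  exact h.far z k' y k ((mem_sA.1 hs).2.2 z hz y hy)

theorem only_SHd1 (h : Hd G A S γ x v w σ) {s : Finset V} (hs : s ∈ hsd G A S σ) {z : V}
    (hz : z ∈ s) (k : z ∈ γ \ {x}) : x ∈ s ∧ z = v := by
  obtain ⟨y, hy, k'⟩ := hs.2.1
  obtain rfl : y = x := by_contra fun e => h.not_meets hs.1 ⟨z, hz, k⟩ ⟨y, hy, k', e⟩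
  have h1 : z ∈ Lk G γ {y} := mem_lk_C1.2 ⟨k.1, adj_GNb1 hs.1 hy hz (Ne.symm k.2)⟩
  rw [h.lk] at h1
  exact ⟨hy, h1.resolve_right fun e =>
    h.memw (Set.mem_singleton_iff.1 e ▸ hs.2.2 y hy k' z hz (ns_SHd1 h k))⟩

theorem pair_SHd1 {s : Finset V} : {x, v} ⊆ s ↔ x ∈ s ∧ v ∈ s := by
  rw [Finset.insert_subset_iff, Finset.singleton_subset_iff]

/-- A simplex on the side `σ` meets the handle iff it contains the edge. -/
theorem Hd.meets (h : Hd G A S γ x v w σ) {s : Finset V} (hs : s ∈ hsd G A S σ) :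
    Meets s (γ \ {x}) ↔ {x, v} ⊆ s := by
  rw [pair_SHd1]
  refine ⟨fun ⟨z, hz, k⟩ => ?_, fun k => ⟨v, k.2, h.basic.2.2.1⟩⟩
  obtain ⟨h1, rfl⟩ := only_SHd1 h hs hz k
  exact ⟨h1, hz⟩

theorem Hd.sides (h : Hd G A S γ x v w σ) {s : Finset V} (hs : s ∈ sA G A) :
    (Meets s S ↔ s ∈ hsd G A S σ ∨ s ∈ hsd G A S (oth G A S σ)) ∧
      (s ∈ hsd G A S σ → s ∈ hsd G A S (oth G A S σ) → ↑s ⊆ S) := by
  refine ⟨⟨fun ⟨a, ha, haS⟩ => ?_, fun k => k.elim (fun k => k.2.1) fun k => k.2.1⟩,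
    fun h1 h2 y hy => by_contra fun k => ?_⟩
  · by_cases e : ↑s ⊆ S
    · exact Or.inl ⟨hs, ⟨a, ha, haS⟩, fun _ _ _ y hy k => absurd (e hy) k⟩
    · obtain ⟨y, hy, k⟩ := Set.not_subset.1 e
      by_cases e' : y ∈ σ a
      · exact Or.inl (h.sided.mem_hsd hs ha haS hy e').1
      · refine Or.inr (h.symm.sided.mem_hsd hs ha haS hy ⟨mem_lk_C1.2 ⟨hs.2.1 hy,
          adj_GNb1 hs ha hy fun c => k (c ▸ haS)⟩, fun c => c.elim k e'⟩).1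
  · obtain ⟨a, ha, haS⟩ := h1.2.1
    exact (h2.2.2 a ha haS y hy k).2 (Or.inr (h1.2.2 a ha haS y hy k))

theorem up_fr_SHd1 (h : Hd G A S γ x v w σ) {s : Finset V} (hs : s ∈ sA G A) (k : {x, v} ⊆ s) :
    s ∈ fr G A (γ \ {x}) :=
  ⟨hs, ⟨v, (pair_SHd1.1 k).2, h.basic.2.2.1⟩, fun c => (c (pair_SHd1.1 k).1).2 rfl⟩

theorem edge_SHd1 (h : Hd G A S γ x v w σ) : ({x, v} : Finset V) ∈ sA G A :=
  pair_mem_sA (h.subS h.basic.1) (h.subγ h.basic.2.2.1.1) (Or.inr h.basic.2.2.2.2.1)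

theorem lkM_SHd1 (h : Hd G A S γ x v w σ) :
    Lk (sG V) (fr G A (γ \ {x})) {{x, v}} = upc G A {x, v} :=
  lk_GNb1 (a := v) (b := x) (fun y => by simp [or_comm]) h.basic.2.2.1 fun k => k.2 rfl

/-- Grafting the boundary of the handle. -/
theorem Hd.graft (h : Hd G A S γ x v w σ) {Y : Set (Finset V)} (h1 : Y ⊆ hsd G A S σ)
    (h2 : upd G A {x, v} ⊆ Y) (h3 : {x} ∉ Y) :
    Graft (sG V) Y (fr G A (γ \ {x})) ((Y ∪ fr G A (γ \ {x})) \ {{x, v}}) {x, v} ∧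
      Lk (sG V) Y {{x, v}} = upc G A {x, v} := by
  have he := edge_SHd1 h
  have hl : Lk (sG V) Y {{x, v}} = upc G A {x, v} := by
    ext t
    rw [mem_lk_C1]
    refine ⟨?_, fun k => ⟨h2 ⟨k.1, k.2.subset⟩, Or.inl k.2⟩⟩
    rintro ⟨k1, k | k⟩
    · exact ⟨(h1 k1).1, k⟩
    · obtain ⟨y, hy, hyS⟩ := (h1 k1).2.1
      obtain rfl : y = x := (Finset.mem_insert.1 (k.subset hy)).resolve_right fun e =>
        h.basic.2.2.2.1 (Finset.mem_singleton.1 e ▸ hyS)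
      refine absurd (?_ : t = {y}) fun e => h3 (e ▸ k1)
      refine Finset.eq_singleton_iff_unique_mem.2 ⟨hy, fun z hz => ?_⟩
      exact (Finset.mem_insert.1 (k.subset hz)).resolve_right fun e =>
        k.not_subset (pair_SHd1.2 ⟨hy, Finset.mem_singleton.1 e ▸ hz⟩)
  refine ⟨⟨h2 ⟨he, Finset.Subset.refl _⟩, up_fr_SHd1 h he (Finset.Subset.refl _),
    hl.trans (lkM_SHd1 h).symm, ?_, ?_, rfl⟩, hl⟩
  · rw [hl]
    ext t
    constructor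
    · rintro ⟨k1, k2⟩
      have k3 := (h.meets (h1 k1)).1 k2.2.1
      by_cases e : t = {x, v}
      · exact Or.inl e
      · exact Or.inr ⟨k2.1, Finset.ssubset_iff_subset_ne.2 ⟨k3, Ne.symm e⟩⟩
    · rintro (rfl | k)
      · exact ⟨h2 ⟨he, Finset.Subset.refl _⟩, up_fr_SHd1 h he (Finset.Subset.refl _)⟩
      · exact ⟨h2 ⟨k.1, k.2.subset⟩, up_fr_SHd1 h k.1 k.2.subset⟩
  · rintro s ⟨s1, s2⟩ t ⟨t1, t2⟩ (k | k)
    · obtain ⟨y, hy, hyS⟩ := (h1 s1).2.1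
      rcases (h.sides t1.1).1.1 ⟨y, k.subset hy, hyS⟩ with c | c
      · exact t2 (h2 ⟨t1.1, (h.meets c).1 t1.2.1⟩)
      · have c1 := (h.sides (h1 s1).1).2 (h1 s1) (hsd_face c k.subset ⟨y, hy, hyS⟩)
        have c2 : ∀ z ∈ s, z = x := fun z hz => by_contra fun e =>
          h.not_meets t1.1 t1.2.1 ⟨z, k.subset hz, c1 hz, e⟩
        refine h3 ((?_ : s = {x}) ▸ s1)
        exact Finset.eq_singleton_iff_unique_mem.2 ⟨c2 y hy ▸ hy, c2⟩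
    · obtain ⟨z, hz, c⟩ := t1.2.1
      exact s2 (up_fr_SHd1 h (h1 s1).1 ((h.meets (h1 s1)).1 ⟨z, k.subset hz, c⟩))

theorem up_hfr_SHd1 (h : Hd G A S γ x v w σ) : upd G A {x, v} ⊆ hfr G A S σ := fun _ k =>
  h.sided.mem_hsd k.1 (pair_SHd1.1 k.2).1 h.basic.1 (pair_SHd1.1 k.2).2 h.memv

theorem gr_SHd1 (h : Hd G A S γ x v w σ) :
    Graft (sG V) (hfr G A S σ) (fr G A (γ \ {x})) ((hfr G A S σ ∪ fr G A (γ \ {x})) \ {{x, v}})
      {x, v} ∧ Lk (sG V) (hfr G A S σ) {{x, v}} = upc G A {x, v} :=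
  h.graft Set.sdiff_subset (up_hfr_SHd1 h) fun k => k.2 (by
    change ((({x} : Finset V)) : Set V) ⊆ S
    rw [Finset.coe_singleton]
    exact Set.singleton_subset_iff.2 h.basic.1)

theorem hsph_SHd1 (h : Hd G A S γ x v w σ) : Sph (sG V) 3 (hfr G A S σ) :=
  hfr_sph ((mf_empty_iff.1 h.cl.2.2).mono h.subS) h.subS h.sph h.sided

theorem in_SHd1 (h : Hd G A S γ x v w σ) {s : Finset V} (hs : s ∈ hfr G A S σ)
    (k : ↑s ⊆ S ∪ γ) : s = {x, v} := by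
  obtain ⟨y, hy, c⟩ := Set.not_subset.1 hs.2
  have m : Meets s (γ \ {x}) := ⟨y, hy, (k hy).resolve_left c, fun e => c (e ▸ h.basic.1)⟩
  refine Finset.Subset.antisymm (fun z hz => ?_) ((h.meets hs.1).1 m)
  by_cases e : z = x
  · exact Finset.mem_insert.2 (Or.inl e)
  · have c1 : z ∈ γ := (k hz).resolve_left fun c1 => h.not_meets hs.1.1 m ⟨z, hz, c1, e⟩
    exact Finset.mem_insert.2 (Or.inr (Finset.mem_singleton.2 (only_SHd1 h hs.1 hz ⟨c1, e⟩).2))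

theorem ne_SHd1 (h : Hd G A S γ x v w σ) {s : Finset V} (k : {x, v} ⊆ s) : s ≠ {x, w} := by
  rintro rfl
  rcases Finset.mem_insert.1 (pair_SHd1.1 k).2 with e | e
  · exact h.basic.2.2.1.2 e
  · exact h.basic.2.2.2.2.2.1 (Finset.mem_singleton.1 e)

theorem Hd.sig (h : Hd G A S γ x v w σ) :
    (∀ j, Ball (sG V) 3 (sigH G A S γ x v w σ j) (upc G A {x, v})) ∧
      sigH G A S γ x v w σ false ∩ sigH G A S γ x v w σ true = upc G A {x, v} ∧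
      sigH G A S γ x v w σ false ∪ sigH G A S γ x v w σ true = fr G A (S ∪ γ) ∧
      NE (sG V) (sigH G A S γ x v w σ false) (sigH G A S γ x v w σ true) := by
  have he := edge_SHd1 h
  have dj : ∀ s ∈ hfr G A S σ, s ∉ hsd G A S (oth G A S σ) := fun s k k' =>
    k.2 ((h.sides k.1.1).2 k.1 k')
  have dj' : ∀ s ∈ hfr G A S (oth G A S σ), s ∉ hsd G A S σ := fun s k k' =>
    k.2 ((h.sides k.1.1).2 k' k.1)
  have up1 : ∀ s ∈ upd G A {x, v}, s ∈ thr G A γ x w (hfr G A S (oth G A S σ)) := fun s k =>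
    ⟨Or.inr (up_fr_SHd1 h k.1 k.2), ne_SHd1 h k.2⟩
  have pin : ∀ {u : V}, u ∈ γ → ((({x, u} : Finset V)) : Set V) ⊆ S ∪ γ := fun hu => by
    rw [Finset.coe_pair]
    exact Set.pair_subset (Or.inl h.basic.1) (Or.inr hu)
  refine ⟨fun j => ?_, ?_, ?_, ?_⟩
  · cases j
    · have := (hsph_SHd1 h).rem le_rfl (gr_SHd1 h).1.memA
      rw [(gr_SHd1 h).2] at this
      exact this
    · have h1 := (Graft.sph (gr_SHd1 h.symm).1 le_rfl (hsph_SHd1 h.symm) h.nbU.2.1).rem le_rfl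
        (up1 _ ⟨he, Finset.Subset.refl _⟩)
      refine ball_congr_C5 h1 fun t ht => ?_
      rw [mem_lk_C1]
      refine ⟨?_, fun k => ⟨ht.1, Or.inl k.2⟩⟩
      rintro ⟨⟨k1 | k1, -⟩, k⟩
      · rcases k with k | k
        · exact ⟨k1.1.1, k⟩
        · exact absurd (hsd_face (up_hfr_SHd1 h ⟨he, Finset.Subset.refl _⟩).1 k.subset k1.1.2.1)
            (dj' t k1)
      · exact lkM_SHd1 h ▸ mem_lk_C1.2 ⟨k1, k⟩
  · ext s
    constructor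
    · rintro ⟨⟨s1, s2⟩, ⟨s3 | s3, -⟩, -⟩
      · exact absurd s3.1 (dj s s1)
      · exact ⟨s3.1, Finset.ssubset_iff_subset_ne.2 ⟨(h.meets s1.1).1 s3.2.1, Ne.symm s2⟩⟩
    · exact fun k => ⟨⟨up_hfr_SHd1 h ⟨k.1, k.2.subset⟩, k.2.ne.symm⟩,
        up1 s ⟨k.1, k.2.subset⟩, k.2.ne.symm⟩
  · ext s
    constructor
    · have m : Meets s S → Meets s (S ∪ γ) := fun ⟨y, hy, c⟩ => ⟨y, hy, Or.inl c⟩
      rintro (⟨s1, s2⟩ | ⟨⟨s1 | s1, s3⟩, s2⟩)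
      · exact ⟨s1.1.1, m s1.1.2.1, fun k => s2 (in_SHd1 h s1 k)⟩
      · exact ⟨s1.1.1, m s1.1.2.1, fun k => s3 (in_SHd1 h.symm s1 k)⟩
      · obtain ⟨z, hz, c⟩ := s1.2.1
        refine ⟨s1.1, ⟨z, hz, Or.inr c.1⟩, fun k => ?_⟩
        obtain ⟨y, hy, c1⟩ := Set.not_subset.1 s1.2.2
        have c2 : y ∈ S := (k hy).elim id fun c2 =>
          (by_contra fun e => c1 ⟨c2, e⟩ : y = x) ▸ h.basic.1
        have c3 : s ∉ ins S := fun c3 => ns_SHd1 h c (c3 hz)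
        rcases (h.sides s1.1).1.1 ⟨y, hy, c2⟩ with c4 | c4
        · exact s2 (in_SHd1 h ⟨c4, c3⟩ k)
        · exact s3 (in_SHd1 h.symm ⟨c4, c3⟩ k)
    · rintro ⟨s1, ⟨y, hy, c⟩, s3⟩
      have n1 : s ≠ {x, v} := fun e => s3 (e ▸ pin h.basic.2.2.1.1)
      have n2 : s ≠ {x, w} := fun e => s3 (e ▸ pin h.symm.basic.2.2.1.1)
      have n3 : s ∉ ins S := fun e => s3 (Set.Subset.trans e Set.subset_union_left)
      by_cases m : Meets s S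
      · rcases (h.sides s1).1.1 m with c4 | c4
        · exact Or.inl ⟨⟨c4, n3⟩, n1⟩
        · exact Or.inr ⟨⟨Or.inl ⟨c4, n3⟩, n2⟩, n1⟩
      · refine Or.inr ⟨⟨Or.inr ⟨s1, ⟨y, hy, c.resolve_left fun c => m ⟨y, hy, c⟩, fun e =>
          m ⟨y, hy, e ▸ h.basic.1⟩⟩, fun k => s3 fun z hz => Or.inr (k hz).1⟩, n2⟩, n1⟩
  · rintro s ⟨⟨s1, s2⟩, s3⟩ t ⟨⟨⟨t1 | t1, -⟩, t2⟩, t3⟩ k
    · rcases k with k | k
      · exact dj s s1 (hsd_face t1.1 k.subset s1.1.2.1)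
      · exact dj' t t1 (hsd_face s1.1 k.subset t1.1.2.1)
    · exact (gr_SHd1 h).1.sep s ⟨s1, fun c => s3 ⟨up1 s ⟨c.1, (h.meets s1.1).1 c.2.1⟩, s2⟩⟩ t
        ⟨t1, fun c => t3 ⟨c, t2⟩⟩ k

theorem hdp_main : HDP_st := by
  intro X S γ x v w σ h
  obtain ⟨b, i, u, n⟩ := h.sig
  have hs : Sph (sG X.V) 3 (fr X.G X.A (S ∪ γ)) := by
    rw [← u]
    exact ball_union_C5 le_rfl _ _
      (ball_congr_C5 (b false) fun t ht => i ▸ ⟨fun k => k.2, fun k => ⟨ht, k⟩⟩)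
      (ball_congr_C5 (b true) fun t ht => i ▸ ⟨fun k => k.1, fun k => ⟨k, ht⟩⟩) n
  refine ⟨⟨fun _ k => k.1, ⟨⟨({x} : Finset X.V), singleton_mem_sA.2 (h.subS h.basic.1), x,
    Finset.mem_singleton_self x, Or.inl h.basic.1⟩, pre_nb.2 ?_⟩, h.cl.2.2.nb_empty le_rfl,
    fun a ha => ?_⟩, hs⟩
  · rw [Set.inter_eq_right.2 (Set.union_subset h.subS h.subγ)]
    exact (Cell.con h.sph).2.union (Cell.con h.circ).2 h.basic.1 h.basic.2.1 (adq_refl x)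
  · change Sph (sG X.V) 3 (cmp (sG X.V) (nb X.G X.A (S ∪ γ) ∩ fr X.G X.A (S ∪ γ)) a)
    have ha' : a ∈ nb X.G X.A (S ∪ γ) ∩ fr X.G X.A (S ∪ γ) := ha
    rw [fr_sub_GNb1] at ha' ⊢
    rw [(Cell.con hs).2.cmp_eq ha']
    exact hs

end Pool.Agent.MP_6374aa_g

end

section

/-! The two annuli. -/

namespace Pool.Agent.MP_6374aa_g

open Pool.Agent.MP_6374aa_gt Classical

variable {V : Type} {G : SimpleGraph V} {A S γ : Set V} {x v w : V} {σ : V → Set V}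

theorem ss_SHd2 {s : Finset V} : {x} ⊂ s ↔ x ∈ s ∧ ∃ y ∈ s, y ≠ x := by
  constructor
  · intro k
    obtain ⟨y, h1, h2⟩ := Finset.exists_of_ssubset k
    exact ⟨k.subset (Finset.mem_singleton_self x), y, h1, fun e => h2 (Finset.mem_singleton.2 e)⟩
  · rintro ⟨h1, y, h2, h3⟩
    exact ⟨Finset.singleton_subset_iff.2 h1, fun k => h3 (Finset.mem_singleton.1 (k h2))⟩

theorem lk_SHd2 {Y : Set (Finset V)} (h1 : Y ⊆ sA G A) (h2 : upd G A {x, v} ⊆ Y) (h3 : {x} ∉ Y)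
    (h4 : {v} ∉ Y) : Lk (sG V) Y {{x, v}} = upc G A {x, v} := by
  ext t
  rw [mem_lk_C1]
  constructor
  · rintro ⟨k1, k | k⟩
    · exact ⟨h1 k1, k⟩
    · exfalso
      by_cases hx : x ∈ t
      · refine h3 (Eq.subst (motive := fun s => s ∈ Y) (Finset.eq_singleton_iff_unique_mem.2
          ⟨hx, fun y hy => ?_⟩) k1)
        refine (Finset.mem_insert.1 (k.subset hy)).resolve_right fun e => k.not_subset ?_
        exact Finset.insert_subset hx (Finset.singleton_subset_iff.2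
          (Finset.mem_singleton.1 e ▸ hy))
      · refine h4 (Eq.subst (motive := fun s => s ∈ Y)
          ((Finset.Nonempty.subset_singleton_iff (h1 k1).1).1 fun y hy => ?_) k1)
        exact (Finset.mem_insert.1 (k.subset hy)).resolve_left fun e => hx (e ▸ hy)
  · exact fun k => ⟨h2 ⟨k.1, k.2.subset⟩, Or.inl k.2⟩

theorem ins_SHd2 {e : Finset V} (he : e ∈ sA G A) : insert e (upc G A e) = upd G A e := by
  ext t
  constructor
  · rintro (rfl | k)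
    · exact ⟨he, subset_rfl⟩
    · exact ⟨k.1, k.2.subset⟩
  · exact fun k => k.2.eq_or_ssubset.elim (fun e => Or.inl e.symm) fun e => Or.inr ⟨k.1, e⟩

theorem diff_SHd2 {W X R : Set V} {z : V} (h : W = X ∪ R ∧ NE G X R) (hz : z ∉ X) :
    W \ {z} = X ∪ R \ {z} ∧ NE G X (R \ {z}) := by
  refine ⟨?_, fun a ha b hb => h.2 a ⟨ha.1, fun k => ha.2 ⟨k, fun e => hz (e ▸ ha.1)⟩⟩ b
    ⟨hb.1.1, hb.2⟩⟩
  rw [h.1, Set.union_sdiff_distrib, Set.sdiff_singleton_eq_self hz]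

theorem un_SHd2 {W X R F : Set V} (h : W = X ∪ R ∧ NE G X R) (hF : Far G X F) :
    W ∪ F = X ∪ (R ∪ F) ∧ NE G X (R ∪ F) := by
  refine ⟨by rw [h.1, Set.union_assoc], fun a ha b hb k => ?_⟩
  rcases hb.1 with k1 | k1
  · exact h.2 a ⟨ha.1, fun k2 => ha.2 (Or.inl k2)⟩ b ⟨k1, hb.2⟩ k
  · exact hF a ha.1 b k1 (Or.inr k)

theorem rz_SHd2 {W X R : Set V} (h : W = X ∪ R ∧ NE G X R) : Rz G W = Rz G X ∪ Rz G R := by
  rw [h.1, rz_union h.2]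

theorem top_SHd2 : hfr G A S σ = tps G A S σ x ∪ tpb G A S σ x ∧
    NE (sG V) (tps G A S σ x) (tpb G A S σ x) := by
  constructor
  · refine Set.Subset.antisymm (fun s hs => ?_)
      (Set.union_subset Set.inter_subset_right Set.inter_subset_right)
    obtain ⟨y, h1, h2⟩ := hs.1.2.1
    by_cases e : y = x
    · exact Or.inr ⟨⟨hs.1, Finset.singleton_subset_iff.2 (e ▸ h1)⟩, hs⟩
    · exact Or.inl ⟨⟨hs.1, y, h1, h2, e⟩, hs⟩
  · rintro s ⟨h1, h2⟩ t ⟨h3, h4⟩ (k | k)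
    · exact h4 ⟨⟨h3.1.1, meets_up_C3 h1.1.2 k.subset⟩, h3.2⟩
    · exact h2 ⟨⟨h1.1.1, h3.1.2.trans k.subset⟩, h1.2⟩

theorem tpb_sub_SHd2 (hx : x ∈ S) : tpb G A S σ x ⊆ hem G A S σ x := by
  rintro s ⟨h1, h2⟩
  obtain ⟨y, h3, h4⟩ := Set.not_subset.1 h2.2
  exact ⟨h1.1, ss_SHd2.2 ⟨Finset.singleton_subset_iff.1 h1.2, y, h3, fun e => h4 (e ▸ hx)⟩⟩

theorem hem_SHd2 (hx : x ∈ S) : hem G A S σ x = sde G A S σ x ∪ tpb G A S σ x ∧
    NE (sG V) (sde G A S σ x) (tpb G A S σ x) := by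
  constructor
  · refine Set.Subset.antisymm (fun s hs => ?_) (Set.union_subset ?_ (tpb_sub_SHd2 hx))
    · obtain ⟨-, y, h1, h2⟩ := ss_SHd2.1 hs.2
      by_cases e : y ∈ S
      · exact Or.inl ⟨⟨hs.1, y, h1, e, h2⟩, hs.1, hs.2.subset⟩
      · exact Or.inr ⟨⟨hs.1, hs.2.subset⟩, hs.1, fun k => e (k h1)⟩
    · rintro s ⟨⟨h1, y, h2, h3⟩, h4⟩
      exact ⟨h1, ss_SHd2.2 ⟨Finset.singleton_subset_iff.1 h4.2, y, h2, h3.2⟩⟩
  · rintro s ⟨h1, h2⟩ t ⟨h3, h4⟩ (k | k)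
    · exact h4 ⟨⟨h3.1.1, meets_up_C3 h1.1.2 k.subset⟩, h3.1⟩
    · exact h2 ⟨h1.2, h1.2.1, fun k1 => h3.2.2 ((Finset.coe_subset.2 k.subset).trans k1)⟩

theorem Hd.edge_SHd2 (h : Hd G A S γ x v w σ) : ({x, v} : Finset V) ∈ sA G A :=
  pair_mem_sA (h.subS h.basic.1) (h.subγ h.basic.2.2.1.1) (Or.inr h.basic.2.2.2.2.1)

theorem Hd.nm_SHd2 (h : Hd G A S γ x v w σ) : ¬ Meets ({x, v} : Finset V) (S \ {x}) := by
  rintro ⟨y, h1, h2⟩
  rcases Finset.mem_insert.1 h1 with e | e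
  · exact h2.2 e
  · exact h.basic.2.2.2.1 (Finset.mem_singleton.1 e ▸ h2.1)

theorem Hd.far_SHd2 (h : Hd G A S γ x v w σ) {s t : Finset V} (hs : s ∈ sA G A) (ht : t ∈ sA G A)
    (h1 : Meets s (S \ {x})) (h2 : Meets t (γ \ {x})) : ¬ Adq (sG V) s t := by
  intro k
  rcases adq_sG.1 k with k | k
  · exact h.not_meets ht h2 (meets_up_C3 h1 k)
  · exact h.not_meets hs (meets_up_C3 h2 k) h1

theorem Hd.upd_SHd2 (h : Hd G A S γ x v w σ) : upd G A {x, v} ⊆ tpb G A S σ x := by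
  intro s hs
  have h1 : x ∈ s := hs.2 (Finset.mem_insert_self _ _)
  have h2 := h.sided.mem_hsd hs.1 h1 h.basic.1
    (hs.2 (Finset.mem_insert_of_mem (Finset.mem_singleton_self v))) h.memv
  exact ⟨⟨h2.1, Finset.singleton_subset_iff.2 h1⟩, h2⟩

theorem Hd.mfa_SHd2 (h : Hd G A S γ x v w σ) : Mfa G 3 A (fun _ => False) S :=
  (mf_empty_iff.1 h.cl.2.2).mono h.subS

theorem Hd.thr_SHd2 (h : Hd G A S γ x v w σ) {τ : V → Set V} {Y : Set (Finset V)}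
    (h1 : Y ⊆ hsd G A S τ) (h3 : {x} ∉ Y) :
    upd G A {x, v} ⊆ thr G A γ x w Y ∧ Lk (sG V) (thr G A γ x w Y) {{x, v}} = upc G A {x, v} := by
  obtain ⟨-, -, b3, b4, b5, b6, -⟩ := h.basic
  have k : upd G A {x, v} ⊆ thr G A γ x w Y := by
    intro s hs
    have k1 : v ∈ s := hs.2 (Finset.mem_insert_of_mem (Finset.mem_singleton_self v))
    refine ⟨Or.inr ⟨hs.1, ⟨v, k1, b3⟩, fun k2 => (k2 (hs.2 (Finset.mem_insert_self _ _))).2 rfl⟩,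
      fun e => ?_⟩
    rw [Set.mem_singleton_iff.1 e] at k1
    exact (Finset.mem_insert.1 k1).elim b5.ne' fun e' => b6 (Finset.mem_singleton.1 e')
  refine ⟨k, lk_SHd2 (fun s hs => hs.1.elim (fun k1 => (h1 k1).1) fun k1 => k1.1) k ?_ ?_⟩
  · rintro ⟨k1 | ⟨-, ⟨y, k1, k2⟩, -⟩, -⟩
    · exact h3 k1
    · exact k2.2 (Finset.mem_singleton.1 k1)
  · rintro ⟨k1 | k1, -⟩
    · obtain ⟨y, k2, k3⟩ := (h1 k1).2.1
      exact b4 (Finset.mem_singleton.1 k2 ▸ k3)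
    · exact k1.2.2 fun y hy => Finset.mem_singleton.1 hy ▸ b3

theorem Hd.ann_SHd2 (h : Hd G A S γ x v w σ) {D T : Set (Finset V)} (hD : Ball (sG V) 3 D T)
    (h1 : upd G A {x, v} ⊆ D) (h2 : Lk (sG V) D {{x, v}} = upc G A {x, v})
    (h3 : D ∩ T = upc G S {x}) : Ann (sG V) (D \ {{x, v}}) (merH G A S x v) := by
  have k := ann_of_ball hD (h1 ⟨h.edge_SHd2, subset_rfl⟩) ?_
  · rw [h2, h3] at k
    exact k
  · rw [h2, h3, ins_SHd2 h.edge_SHd2]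
    intro s hs t ht k
    obtain ⟨-, y, k1, k2⟩ := ss_SHd2.1 ht.2
    exact h.far_SHd2 (sA_mono h.subS ht.1) hs.1 ⟨y, k1, ht.1.2.1 k1, k2⟩
      ⟨v, hs.2 (Finset.mem_insert_of_mem (Finset.mem_singleton_self v)), h.basic.2.2.1⟩
      (adq_symm k)

theorem Hd.ann (h : Hd G A S γ x v w σ) (j : Bool) :
    Ann (sG V) (annH G A S γ x v w σ j) (merH G A S x v) := by
  have hx := h.basic.1
  cases j
  · obtain ⟨b1, b2⟩ := hem_ball h.mfa_SHd2 h.subS h.sph h.sided hx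
    have k := h.upd_SHd2.trans (tpb_sub_SHd2 hx)
    exact h.ann_SHd2 b1 k (h.graft (fun s hs => hs.1) k fun k1 => k1.2.ne rfl).2 b2
  · have h' := h.symm
    obtain ⟨b1, b2⟩ := hem_ball h.mfa_SHd2 h.subS h.sph h'.sided hx
    have n : {x} ∉ hem G A S (oth G A S σ) x := fun k1 => k1.2.ne rfl
    have nw : ({x, w} : Finset V) ∉ ins S := fun k1 =>
      h'.basic.2.2.2.1 (k1 (Finset.mem_insert_of_mem (Finset.mem_singleton_self w)))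
    have g := (h'.graft (fun s hs => hs.1) (h'.upd_SHd2.trans (tpb_sub_SHd2 hx)) n).1
    obtain ⟨k1, k2⟩ := h.thr_SHd2 (fun s (hs : s ∈ hem G A S (oth G A S σ) x) => hs.1) n
    refine h.ann_SHd2 (graft_ball b1 h.nbU.2.1 g nw) k1 k2 ?_
    rw [← b2]
    exact Set.inter_eq_right.2 fun s hs => ⟨Or.inl hs.1, fun e => nw (e ▸ hs.2)⟩

theorem Hd.eq_SHd2 (h : Hd G A S γ x v w σ) {s : Finset V} (hs : s ∈ hem G A S σ x)
    (hγ : ↑s ⊆ γ) : s = {x, v} := by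
  obtain ⟨h1, y, h2, h3⟩ := ss_SHd2.1 hs.2
  refine Finset.Subset.antisymm (fun z hz => ?_) ((h.meets hs.1).1 ⟨y, h2, hγ h2, h3⟩)
  by_cases e : z = x
  · exact Finset.mem_insert.2 (Or.inl e)
  · have k : z ∈ Lk G γ {x} := mem_lk_C1.2 ⟨hγ hz, adj_GNb1 hs.1.1 h1 hz (Ne.symm e)⟩
    rw [h.lk] at k
    rcases k with k | k
    · exact Finset.mem_insert_of_mem (Finset.mem_singleton.2 k)
    · rw [Set.mem_singleton_iff.1 k] at hz
      exact absurd (hs.1.2.2 x h1 h.basic.1 w hz h.symm.basic.2.2.2.1) h.memw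

theorem Hd.tor (h : Hd G A S γ x v w σ) :
    Tor (sG V) (annH G A S γ x v w σ) (merH G A S x v) ∧
      annH G A S γ x v w σ false ∪ annH G A S γ x v w σ true = fr G A γ := by
  have h' := h.symm
  obtain ⟨hx, hxγ, b3, -⟩ := h.basic
  have m0 : upc G S {x} ⊆ annH G A S γ x v w σ true := (h.ann true).sub false
  have m1 : upc G A {x, v} ⊆ annH G A S γ x v w σ true := (h.ann true).sub true
  have up : ∀ s ∈ annH G A S γ x v w σ false, Meets s (γ \ {x}) → s ∈ upc G A {x, v} :=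
    fun s hs k => ⟨hs.1.1.1, ((h.meets hs.1.1).1 k).ssubset_of_ne (Ne.symm hs.2)⟩
  have sA1 : annH G A S γ x v w σ true ⊆ sA G A := fun s hs =>
    hs.1.1.elim (fun k => k.1.1) fun k => k.1
  have sub : ∀ u ∈ γ, ↑({x, u} : Finset V) ⊆ γ := fun u hu y hy =>
    (Finset.mem_insert.1 hy).elim (fun e => e ▸ hxγ) fun e => Finset.mem_singleton.1 e ▸ hu
  have side : ∀ s ∈ sA G A, {x} ⊂ s → s ∈ hem G A S σ x ∨ s ∈ hem G A S (oth G A S σ) x :=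
    fun s hs k => (((h.sides hs).1.1 ⟨x, (ss_SHd2.1 k).1, hx⟩).imp (fun k1 => ⟨k1, k⟩)
      fun k1 => ⟨k1, k⟩)
  refine ⟨⟨h.ann, ?_, Set.Subset.antisymm ?_ (Set.union_subset
    (Set.subset_inter ((h.ann false).sub false) m0)
    (Set.subset_inter ((h.ann false).sub true) m1))⟩, Set.Subset.antisymm ?_ fun s hs => ?_⟩
  · rintro s ⟨h1, h2⟩ t ⟨h3, h4⟩ (k | k)
    · by_cases e : ↑s ⊆ S
      · exact h2 (m0 ⟨⟨h1.1.1.1.1, e, h1.1.1.1.2.2⟩, h1.1.2⟩)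
      · obtain ⟨y, k1, k2⟩ := Set.not_subset.1 e
        have k3 := (ss_SHd2.1 h1.1.2).1
        exact h4 ⟨⟨(h.sided.mem_hsd (sA1 h3) (k.subset k3) hx (k.subset k1)
          (h1.1.1.2.2 x k3 hx y k1 k2)).1, h1.1.2.trans k⟩, h3.2⟩
    · rcases h3.1.1 with k1 | k1
      · exact h4 ⟨⟨hsd_face h1.1.1 k.subset k1.1.2.1, k1.2⟩, h3.2⟩
      · exact h2 (m1 (up s h1 (meets_up_C3 k1.2.1 k.subset)))
  · rintro s ⟨h1, h2⟩
    rcases h2.1.1 with k | k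
    · exact Or.inl ⟨⟨h1.1.1.1.1, (h.sides h1.1.1.1).2 h1.1.1 k.1, h1.1.1.1.2.2⟩, k.2⟩
    · exact Or.inr (up s h1 k.2.1)
  · rintro s (⟨h1, h2⟩ | ⟨⟨h1 | h1, h2⟩, h3⟩)
    · exact ⟨h1.1.1, ⟨x, (ss_SHd2.1 h1.2).1, hxγ⟩, fun k => h2 (h.eq_SHd2 h1 k)⟩
    · exact ⟨h1.1.1, ⟨x, (ss_SHd2.1 h1.2).1, hxγ⟩, fun k => h2 (h'.eq_SHd2 h1 k)⟩
    · obtain ⟨k1, ⟨y, k2, k3⟩, k4⟩ := h1
      refine ⟨k1, ⟨y, k2, k3.1⟩, fun k => ?_⟩
      have k5 : x ∈ s := by_contra fun k5 => k4 fun z hz => ⟨k hz, fun e => k5 (e ▸ hz)⟩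
      exact (side s k1 (ss_SHd2.2 ⟨k5, y, k2, k3.2⟩)).elim (fun k6 => h3 (h.eq_SHd2 k6 k))
        fun k6 => h2 (h'.eq_SHd2 k6 k)
  · have n1 : s ∉ ({{x, v}} : Set (Finset V)) := fun e =>
      hs.2.2 (Set.mem_singleton_iff.1 e ▸ sub v b3.1)
    have n2 : s ∉ ({{x, w}} : Set (Finset V)) := fun e =>
      hs.2.2 (Set.mem_singleton_iff.1 e ▸ sub w h'.basic.2.2.1.1)
    by_cases k : x ∈ s
    · obtain ⟨y, k1, k2⟩ := Set.not_subset.1 hs.2.2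
      exact (side s hs.1 (ss_SHd2.2 ⟨k, y, k1, fun e => k2 (e ▸ hxγ)⟩)).imp (fun k3 => ⟨k3, n1⟩)
        fun k3 => ⟨⟨Or.inl k3, n2⟩, n1⟩
    · obtain ⟨y, k1, k2⟩ := hs.2.1
      exact Or.inr ⟨⟨Or.inr ⟨hs.1, ⟨y, k1, k2, fun e => k (e ▸ k1)⟩,
        fun k3 => hs.2.2 (k3.trans Set.sdiff_subset)⟩, n2⟩, n1⟩

theorem Hd.bp_SHd2 (h : Hd G A S γ x v w σ) {D T : Set (Finset V)} (hD : Ball (sG V) 3 D T)
    (h1 : upd G A {x, v} ⊆ D) (h2 : Lk (sG V) D {{x, v}} = upc G A {x, v}) :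
    BP 2 (Rz (sG V) (D \ {{x, v}}) ∪ Rz (sG V) (upd G A {x, v})) (Rz (sG V) T) := by
  have k := (split_Arc (G := sG V) (h1 ⟨h.edge_SHd2, subset_rfl⟩)).1
  rw [h2, ins_SHd2 h.edge_SHd2] at k
  rw [Set.union_comm, ← k]
  exact hD.bp le_rfl

theorem Hd.dec_SHd2 (h : Hd G A S γ x v w σ) {τ : V → Set V} {W X R : Set (Finset V)}
    (hX : X ⊆ slb G A S τ x) (hd : W = X ∪ R ∧ NE (sG V) X R) :
    Rz (sG V) (thr G A γ x w W \ {{x, v}}) =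
      Rz (sG V) X ∪ Rz (sG V) (thr G A γ x w R \ {{x, v}}) :=
  rz_SHd2 (diff_SHd2 (diff_SHd2 (un_SHd2 hd fun _ hs _ ht =>
    h.far_SHd2 (hX hs).1.1 ht.1 (hX hs).2 ht.2.1) fun k => h.symm.nm_SHd2 (hX k).2)
      fun k => h.nm_SHd2 (hX k).2)

theorem Hd.rng (h : Hd G A S γ x v w σ) (j : Bool) :
    BP 2 (Rz (sG V) (rngH G A S γ x v w σ j) ∪ Rz (sG V) (upd G A {x, v}))
        (Rz (sG V) (rim G A S (sidH G A S σ j) x)) ∧
      Rz (sG V) (sigH G A S γ x v w σ j) =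
        Rz (sG V) (tps G A S (sidH G A S σ j) x) ∪ Rz (sG V) (rngH G A S γ x v w σ j) ∧
      Rz (sG V) (annH G A S γ x v w σ j) =
        Rz (sG V) (sde G A S (sidH G A S σ j) x) ∪ Rz (sG V) (rngH G A S γ x v w σ j) := by
  have hx := h.basic.1
  have n : ∀ τ, {x} ∉ tpb G A S τ x := fun τ k => (tpb_sub_SHd2 hx k).2.ne rfl
  cases j
  · exact ⟨h.bp_SHd2 (tpb_ball h.mfa_SHd2 h.subS h.sph h.sided hx).1 h.upd_SHd2
      (h.graft (fun s hs => hs.1.1) h.upd_SHd2 (n σ)).2,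
      rz_SHd2 (diff_SHd2 top_SHd2 fun k => h.nm_SHd2 k.1.2),
      rz_SHd2 (diff_SHd2 (hem_SHd2 hx) fun k => h.nm_SHd2 k.1.2)⟩
  · have h' := h.symm
    obtain ⟨b1, b2⟩ := tpb_ball h.mfa_SHd2 h.subS h.sph h'.sided hx
    have g := (h'.graft (fun s hs => hs.1.1) h'.upd_SHd2 (n _)).1
    have b3 := graft_ball b1 h.nbU.2.1 g fun k => h'.nm_SHd2 k.1.1.2
    rw [Set.inter_eq_right.2 b2] at b3
    obtain ⟨k1, k2⟩ := h.thr_SHd2 (fun s (hs : s ∈ tpb G A S (oth G A S σ) x) => hs.1.1) (n _)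
    exact ⟨h.bp_SHd2 b3 k1 k2, h.dec_SHd2 Set.inter_subset_left top_SHd2,
      h.dec_SHd2 Set.inter_subset_left (hem_SHd2 hx)⟩

end Pool.Agent.MP_6374aa_g

end

section

/-! The two balls of the tube. -/

namespace Pool.Agent.MP_6374aa_g

open Pool.Agent.MP_6374aa_gt Classical

variable {V : Type} {G : SimpleGraph V} {A S γ : Set V} {x v w : V} {σ : V → Set V}

theorem Hd.mfa_SHd3 (h : Hd G A S γ x v w σ) : Mfa G 3 A (fun _ => False) S :=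
  (mf_empty_iff.1 h.cl.2.2).mono h.subS

theorem Hd.edge_SHd3 (h : Hd G A S γ x v w σ) : ({x, v} : Finset V) ∈ sA G A :=
  pair_mem_sA (h.subS h.basic.1) (h.subγ h.basic.2.2.1.1) (Or.inr h.basic.2.2.2.2.1)

theorem Hd.upd_hem_SHd3 (h : Hd G A S γ x v w σ) : upd G A {x, v} ⊆ hem G A S σ x := by
  intro s hs
  have hx : x ∈ s := hs.2 (Finset.mem_insert_self _ _)
  have hv : v ∈ s := hs.2 (Finset.mem_insert_of_mem (Finset.mem_singleton_self v))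
  refine ⟨(h.sided.mem_hsd hs.1 hx h.basic.1 hv h.memv).1,
    (Finset.ssubset_iff_of_subset (Finset.singleton_subset_iff.2 hx)).2 ⟨v, hv, fun c => ?_⟩⟩
  exact h.basic.2.2.1.2 (Finset.mem_singleton.1 c)

theorem Hd.graft_SHd3 (h : Hd G A S γ x v w σ) :
    Graft (sG V) (hem G A S σ x) (fr G A (γ \ {x}))
        ((hem G A S σ x ∪ fr G A (γ \ {x})) \ {{x, v}}) {x, v} ∧
      Lk (sG V) (hem G A S σ x) {{x, v}} = upc G A {x, v} :=
  h.graft (fun _ hs => hs.1) h.upd_hem_SHd3 fun c => lt_irrefl _ c.2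

theorem split_SHd3 {e : Finset V} (he : e ∈ sA G A) {Y : Set (Finset V)} (hY : e ∈ Y)
    (hl : Lk (sG V) Y {e} = upc G A e) :
    Rz (sG V) Y = Rz (sG V) (upd G A e) ∪ Rz (sG V) (Y \ {e}) ∧
      Rz (sG V) (upd G A e) ∩ Rz (sG V) (Y \ {e}) = Rz (sG V) (upc G A e) := by
  have e1 : insert e (upc G A e) = upd G A e := by
    ext t
    constructor
    · rintro (rfl | ht)
      · exact ⟨he, subset_rfl⟩
      · exact ⟨ht.1, ht.2.1⟩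
    · rintro ⟨h3, h4⟩
      exact h4.eq_or_ssubset.imp Eq.symm fun c => ⟨h3, c⟩
  have := split_Arc (G := sG V) hY
  rwa [hl, e1] at this

theorem Hd.upd_bp (h : Hd G A S γ x v w σ) :
    BP 2 (Rz (sG V) (upd G A {x, v})) (Rz (sG V) (upc G A {x, v})) := by
  refine (dual_bp h.edge_SHd3 h.basic.2.2.2.2.2.2 (by omega)).congr ?_
  rw [rz_inter, rz_inter]
  congr 1
  ext t
  exact ⟨fun ht => ⟨ht.1, ht.1.1, ht.2⟩, fun ht => ⟨ht.1, ht.2.2⟩⟩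

theorem Hd.tube0 (h : Hd G A S γ x v w σ) :
    BP 3 (Rz (sG V) (blk G A S σ x)) (Rz (sG V) (upd G S {x}) ∪ Rz (sG V) (upd G A {x, v}) ∪
      Rz (sG V) (annH G A S γ x v w σ false)) := by
  have h1 := (blk_bp h.mfa_SHd3 h.subS h.sph h.sided h.basic.1).1
  rw [(split_SHd3 h.edge_SHd3 h.graft_SHd3.1.memA h.graft_SHd3.2).1, Set.union_comm,
    ← Set.union_assoc] at h1
  exact h1

theorem Hd.tube1 (h : Hd G A S γ x v w σ) :
    BP 3 (Rz (sG V) (blk G A S (oth G A S σ) x) ∪ Rz (sG V) (nb G A (γ \ {x})))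
      (Rz (sG V) (upd G S {x}) ∪ Rz (sG V) (upd G A {x, v}) ∪
        Rz (sG V) (annH G A S γ x v w σ true)) := by
  have h' := h.symm
  obtain ⟨g1, g2⟩ := h'.graft_SHd3
  have g3 : Lk (sG V) (fr G A (γ \ {x})) {{x, w}} = upc G A {x, w} := g1.lk.symm.trans g2
  obtain ⟨-, s2⟩ := split_SHd3 h'.edge_SHd3 g1.memA g2
  obtain ⟨s3, s4⟩ := split_SHd3 h'.edge_SHd3 g1.memM g3
  have hw : w ∉ S := h'.basic.2.2.2.1
  have mw : w ∈ ({x, w} : Finset V) := Finset.mem_insert_of_mem (Finset.mem_singleton_self w)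
  have mv : v ∈ ({x, v} : Finset V) := Finset.mem_insert_of_mem (Finset.mem_singleton_self v)
  have nv : v ∉ ({x, w} : Finset V) := fun c => (Finset.mem_insert.1 c).elim h.basic.2.2.1.2
    fun c => h.basic.2.2.2.2.2.1 (Finset.mem_singleton.1 c)
  have b1 : hem G A S (oth G A S σ) x ⊆ blk G A S (oth G A S σ) x := fun s hs => ⟨hs.1, hs.2.1⟩
  have hD1 : BP 2 (Rz (sG V) (upd G S {x}) ∪ Rz (sG V) (hem G A S (oth G A S σ) x \ {{x, w}}))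
      (Rz (sG V) (upc G A {x, w})) := by
    refine (h'.ann false).disc (blk_bp h'.mfa_SHd3 h'.subS h'.sph h'.sided h'.basic.1).2 ?_
    rw [rz_inter]
    congr 1
    ext s
    exact ⟨fun hs => ⟨hs.1.1, hs.2.1.2⟩, fun hs => ⟨⟨hs.1, hs.2.1⟩,
      ⟨sA_subset_hsd h.subS hs.1, hs.2⟩, fun c => hw (hs.1.2.1 (Set.mem_singleton_iff.1 c ▸ mw))⟩⟩
  have hD2 := (h.nbU.2.1.rem le_rfl g1.memM).bp le_rfl
  rw [g3] at hD2
  have key := BP.union h'.tube0 h.nbU.2.2 (D := Rz (sG V) (upd G A {x, w})) ?_ ?_ ?_ h'.upd_bp hD1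
    hD2 ?_ s4
  · have ne : NE (sG V) (hem G A S (oth G A S σ) x \ {{x, w}}) (fr G A (γ \ {x}) \ {{x, w}}) :=
      fun a ha b hb => g1.sep a ⟨ha.1.1, fun c => ha.2 ⟨c, ha.1.2⟩⟩ b
        ⟨hb.1.1, fun c => hb.2 ⟨c, hb.1.2⟩⟩
    obtain ⟨f1, f2⟩ := h.graft_SHd3
    have f3 : Lk (sG V) (fr G A (γ \ {x})) {{x, v}} = upc G A {x, v} := f1.lk.symm.trans f2
    have f4 : Lk (sG V) ((hem G A S (oth G A S σ) x ∪ fr G A (γ \ {x})) \ {{x, w}}) {{x, v}} =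
        upc G A {x, v} := by
      ext t
      constructor
      · intro ht
        obtain ⟨⟨a | a, -⟩, b⟩ := mem_lk_C1.1 ht
        · rcases b with b | b
          · exact ⟨a.1.1, b⟩
          · obtain ⟨y, hy, c⟩ := Finset.exists_of_ssubset a.2
            refine absurd (Finset.insert_subset (a.2.1 (Finset.mem_singleton_self x)) ?_) b.2
            rcases Finset.mem_insert.1 (b.1 hy) with d | d
            · exact absurd (Finset.mem_singleton.2 d) c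
            · exact Finset.singleton_subset_iff.2 (Finset.mem_singleton.1 d ▸ hy)
        · exact f3 ▸ mem_lk_C1.2 ⟨a, b⟩
      · intro ht
        exact mem_lk_C1.2 ⟨⟨Or.inr (f3.ge ht).1,
          fun c => nv (Set.mem_singleton_iff.1 c ▸ ht.2.1 mv)⟩, Or.inl ht.2⟩
    have f5 := (split_SHd3 h.edge_SHd3
      (Y := (hem G A S (oth G A S σ) x ∪ fr G A (γ \ {x})) \ {{x, w}})
      ⟨Or.inr f1.memM, fun c => nv (Set.mem_singleton_iff.1 c ▸ mv)⟩ f4).1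
    rw [Set.union_assoc, ← rz_union ne, ← Set.union_sdiff_distrib, f5, ← Set.union_assoc] at key
    exact key
  · rw [Set.inter_eq_right.2, Set.union_comm (Rz (sG V) (upd G S {x})), Set.union_assoc]
    · rfl
    · exact Set.union_subset (Set.union_subset
        (rz_mono fun s hs => ⟨sA_subset_hsd h.subS hs.1, hs.2⟩)
        (rz_mono (h'.upd_hem_SHd3.trans b1))) (rz_mono fun s hs => b1 hs.1)
  · rw [← s3]
    exact Set.inter_eq_right.2 (rz_mono fun s hs => ⟨hs.1, hs.2.1⟩)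
  · rw [rz_inter]
    congr 1
    ext s
    exact ⟨fun hs => ⟨hs.2.1, (h'.meets hs.1.1).1 hs.2.2⟩, fun hs =>
      ⟨b1 (h'.upd_hem_SHd3 hs), hs.1, (h'.meets (h'.upd_hem_SHd3 hs).1).2 hs.2⟩⟩
  · rw [Set.inter_union_distrib_left, s2, rz_inter,
      Set.eq_empty_of_forall_notMem (s := upd G A {x, w} ∩ upd G S {x})
        fun s hs => hw (hs.2.1.2.1 (hs.1.2 mw)), rz_empty, Set.empty_union]

theorem Hd.cover (h : Hd G A S γ x v w σ) :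
    Rz (sG V) (nb G A (S ∪ γ)) = Rz (sG V) (blk G A S σ x) ∪ Rz (sG V) (blk G A S (oth G A S σ) x) ∪
      Rz (sG V) (nb G A (γ \ {x})) ∪ Rz (sG V) (slb G A S σ x) ∪
      Rz (sG V) (slb G A S (oth G A S σ) x) := by
  have k1 : ∀ τ : V → Set V, hsd G A S τ ⊆ nb G A (S ∪ γ) := fun τ s hs =>
    ⟨hs.1, hs.2.1.imp fun y hy => ⟨hy.1, Or.inl hy.2⟩⟩
  refine Set.Subset.antisymm (fun y hy => ?_) (Set.union_subset (Set.union_subset
    (Set.union_subset (Set.union_subset (rz_mono fun s hs => k1 _ hs.1)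
    (rz_mono fun s hs => k1 _ hs.1)) (rz_mono fun s hs => ⟨hs.1, hs.2.imp fun y hy =>
      ⟨hy.1, Or.inr hy.2.1⟩⟩)) (rz_mono fun s hs => k1 _ hs.1)) (rz_mono fun s hs => k1 _ hs.1))
  obtain ⟨b, hb, hb'⟩ := bot_Collar hy
  obtain ⟨u, hu, hu'⟩ := rz_supp hy
  have up : ∀ Q : Set V, Meets b Q → ∀ t, y t ≠ 0 → Meets t Q := fun Q hQ t ht =>
    hQ.imp fun z hz => ⟨hb' t ht hz.1, hz.2⟩
  by_cases c : Meets b (γ \ {x})
  · exact Or.inl (Or.inl (Or.inr (rz_of_supp hy fun t ht => ⟨(hy.2.1 t ht).1, up _ c t ht⟩)))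
  have hS : Meets b S := by
    obtain ⟨z, hz, a | a⟩ := (hy.2.1 b hb).2
    · exact ⟨z, hz, a⟩
    · refine ⟨z, hz, ?_⟩
      rw [show z = x from by_contra fun d => c ⟨z, hz, a, d⟩]
      exact h.basic.1
  have ht : y (top u) ≠ 0 := (hu' _).2 (top_mem hu)
  have k2 : ∀ τ : V → Set V, top u ∈ hsd G A S τ →
      y ∈ Rz (sG V) (blk G A S τ x) ∨ y ∈ Rz (sG V) (slb G A S τ x) := by
    intro τ hτ
    have k3 : ∀ t, y t ≠ 0 → t ∈ hsd G A S τ := fun t ht =>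
      hsd_face hτ (subset_top ((hu' t).1 ht)) (up _ hS t ht)
    obtain ⟨z, hz, a⟩ := hS
    by_cases d : z = x
    · exact Or.inl (rz_of_supp hy fun t ht =>
        ⟨k3 t ht, Finset.singleton_subset_iff.2 (d ▸ hb' t ht hz)⟩)
    · exact Or.inr (rz_of_supp hy fun t ht => ⟨k3 t ht, z, hb' t ht hz, a, d⟩)
  rcases (h.sides (hy.2.1 _ ht).1).1.1 (up _ hS _ ht) with a | a
  · rcases k2 _ a with d | d
    · exact Or.inl (Or.inl (Or.inl (Or.inl d)))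
    · exact Or.inl (Or.inr d)
  · rcases k2 _ a with d | d
    · exact Or.inl (Or.inl (Or.inl (Or.inr d)))
    · exact Or.inr d

end Pool.Agent.MP_6374aa_g

end

section

/-! The four balls: the cells. -/

namespace Pool.Agent.MP_6374aa_g

open Pool.Agent.MP_6374aa_gt Classical

section aux

variable {V : Type} {G : SimpleGraph V} {A S γ : Set V} {x v w : V} {σ : V → Set V}

theorem Hd.sided_SHd4 (h : Hd G A S γ x v w σ) (j : Bool) : Sided G 3 A S (sidH G A S σ j) := by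
  cases j
  · exact h.sided
  · exact h.symm.sided

theorem Hd.sigfr_SHd4 (h : Hd G A S γ x v w σ) (j : Bool) :
    sigH G A S γ x v w σ j ⊆ fr G A (S ∪ γ) := by
  rw [← h.sig.2.2.1]
  cases j
  · exact Set.subset_union_left
  · exact Set.subset_union_right

theorem Hd.upcfr_SHd4 (h : Hd G A S γ x v w σ) : upc G A {x, v} ⊆ fr G A (S ∪ γ) := by
  rw [← h.sig.2.1]
  exact Set.inter_subset_left.trans (h.sigfr_SHd4 false)

theorem Hd.annA_SHd4 (h : Hd G A S γ x v w σ) (j : Bool) : annH G A S γ x v w σ j ⊆ sA G A := by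
  have e : annH G A S γ x v w σ j ⊆ fr G A γ := by
    rw [← h.tor.2]
    cases j
    · exact Set.subset_union_left
    · exact Set.subset_union_right
  exact fun s hs => (e hs).1

theorem Hd.ne_SHd4 (h : Hd G A S γ x v w σ) {s : Finset V} (hm : Meets s (S \ {x})) :
    s ≠ {x, v} := by
  rintro rfl
  obtain ⟨y, hy, h1, h2⟩ := hm
  rcases Finset.mem_insert.1 hy with c | c
  · exact h2 c
  · exact h.basic.2.2.2.1 (Finset.mem_singleton.1 c ▸ h1)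

/-- On the simplices meeting the rest of the sphere the handle is invisible. -/
theorem Hd.cond_SHd4 (h : Hd G A S γ x v w σ) {s : Finset V} (hm : Meets s (S \ {x}))
    (Y : (V → Set V) → Set (Finset V)) (j : Bool) :
    s ∈ cond j (thr G A γ x w (Y (oth G A S σ))) (Y σ) \ {{x, v}} ↔ s ∈ Y (sidH G A S σ j) := by
  cases j
  · exact ⟨fun k => k.1, fun k => ⟨k, h.ne_SHd4 hm⟩⟩
  · exact ⟨fun k => k.1.1.elim id fun c => absurd hm (h.not_meets c.1 c.2.1),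
      fun k => ⟨⟨Or.inl k, h.symm.ne_SHd4 hm⟩, h.ne_SHd4 hm⟩⟩

theorem Hd.rngsig_SHd4 (j : Bool) : rngH G A S γ x v w σ j ⊆ sigH G A S γ x v w σ j := by
  cases j
  · exact fun s hs => ⟨hs.1.2, hs.2⟩
  · exact fun s hs => ⟨⟨hs.1.1.imp (fun k => k.2) id, hs.1.2⟩, hs.2⟩

theorem Hd.rngupd_SHd4 (h : Hd G A S γ x v w σ) (j : Bool) :
    rngH G A S γ x v w σ j ∩ upd G A {x, v} = upc G A {x, v} := by
  have mx : x ∈ ({x, v} : Finset V) := Finset.mem_insert_self _ _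
  have mv : v ∈ ({x, v} : Finset V) := Finset.mem_insert_of_mem (Finset.mem_singleton_self v)
  have nv : v ∉ ({x, w} : Finset V) := fun c => (Finset.mem_insert.1 c).elim h.basic.2.2.1.2
    fun c => h.basic.2.2.2.2.2.1 (Finset.mem_singleton.1 c)
  ext s
  refine ⟨fun hs => ⟨hs.2.1, hs.2.2.ssubset_of_ne fun c => hs.1.2 c.symm⟩,
    fun hs => ⟨⟨?_, fun c => hs.2.ne (Set.mem_singleton_iff.1 c).symm⟩, hs.1, hs.2.1⟩⟩
  cases j
  · have k := h.upd_hem_SHd3 ⟨hs.1, hs.2.1⟩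
    exact ⟨⟨k.1, k.2.1⟩, k.1, fun c => h.basic.2.2.2.1 (c (hs.2.1 mv))⟩
  · exact ⟨Or.inr ⟨hs.1, ⟨v, hs.2.1 mv, h.basic.2.2.1⟩, fun c => (c (hs.2.1 mx)).2 rfl⟩,
      fun c => nv (Set.mem_singleton_iff.1 c ▸ hs.2.1 mv)⟩

theorem pun_slb_SHd4 (hS : S ⊆ A) (τ : V → Set V) : pun G S x ⊆ slb G A S τ x := by
  intro s hs
  refine ⟨sA_subset_hsd hS hs.1, ?_⟩
  by_contra c
  refine hs.2 (Finset.eq_singleton_iff_nonempty_unique_mem.2 ⟨hs.1.1, fun y hy => ?_⟩)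
  by_contra d
  exact c ⟨y, hy, hs.1.2.1 hy, d⟩

end aux

variable {X : Cx} {S γ : Set X.V} {x v w : X.V} {σ : X.V → Set X.V}

theorem Hd.dsc_bp (h : Hd X.G X.A S γ x v w σ) (k j : Bool) :
    BP 2 (dscH X S γ x v k j) (iR X.sd (merH X.G X.A S x v j)) := by
  have hL : (X.sd.A).Finite := sA_finite h.cl.1
  have tr : ∀ {Y Z : Set X.sd.V}, Y ⊆ X.sd.A → Z ⊆ X.sd.A → BP 2 (Rz X.sd.G Y) (Rz X.sd.G Z) →
      BP 2 (iR X.sd Y) (iR X.sd Z) := by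
    intro Y Z hY hZ hb
    have := iR_bp hL (rz_mono hY) (rz_mono hZ) hb
    rwa [(iR_hm hL).2 Y hY, (iR_hm hL).2 Z hZ] at this
  cases k <;> cases j
  · exact tr (fun s hs => sA_mono h.subS hs.1) (fun s hs => sA_mono h.subS hs.1)
      (blk_bp h.mfa_SHd3 h.subS h.sph h.sided h.basic.1).2
  · exact tr (fun s hs => hs.1) (fun s hs => hs.1) h.upd_bp
  · exact tr (fun s hs => sA_mono h.subS hs.1) (fun s hs => sA_mono h.subS hs.1)
      (Ball.bp (pun_ball h.sph h.basic.1).1 le_rfl)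
  · exact cn_bp_two (X := X.sd) ((h.ann true).circ true) h.upcfr_SHd4

theorem Hd.bal_bp (h : Hd X.G X.A S γ x v w σ) (k j : Bool) :
    BP 3 (balH X S γ x v σ w k j) (dscH X S γ x v k false ∪ dscH X S γ x v k true ∪
      iR X.sd (annH X.G X.A S γ x v w σ j)) := by
  have hL : (X.sd.A).Finite := sA_finite h.cl.1
  have im := (iR_hm hL).2
  have s1 : upd X.G S {x} ⊆ X.sd.A := fun s hs => sA_mono h.subS hs.1
  have s2 : upd X.G X.A {x, v} ⊆ X.sd.A := fun s hs => hs.1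
  have s3 : ∀ τ, blk X.G X.A S τ x ⊆ X.sd.A := fun τ s hs => hs.1.1
  have s4 : nb X.G X.A (γ \ {x}) ⊆ X.sd.A := fun s hs => hs.1
  cases k
  · have hC : ∀ j, Rz X.sd.G (upd X.G S {x}) ∪ Rz X.sd.G (upd X.G X.A {x, v}) ∪
        Rz X.sd.G (annH X.G X.A S γ x v w σ j) ⊆ Rz X.sd.G X.sd.A := fun j =>
      Set.union_subset (Set.union_subset (rz_mono s1) (rz_mono s2)) (rz_mono (h.annA_SHd4 j))
    cases j
    · have := iR_bp hL (rz_mono (s3 σ)) (hC false) h.tube0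
      rwa [Set.image_union, Set.image_union, im _ (s3 σ), im _ s1, im _ s2,
        im _ (h.annA_SHd4 false)] at this
    · have := iR_bp hL (Set.union_subset (rz_mono (s3 _)) (rz_mono s4)) (hC true) h.tube1
      rwa [Set.image_union, Set.image_union, Set.image_union, im _ (s3 _), im _ s4, im _ s1,
        im _ s2, im _ (h.annA_SHd4 true)] at this
  · obtain ⟨b1, b2, b3⟩ := slb_bp h.mfa_SHd3 h.subS h.sph (h.sided_SHd4 j) h.basic.1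
    obtain ⟨r1, r2, r3⟩ := h.rng j
    have sY : sigH X.G X.A S γ x v w σ j ⊆ X.sd.A := fun s hs => (h.sigfr_SHd4 j hs).1
    have sH : slb X.G X.A S (sidH X.G X.A S σ j) x ⊆ X.sd.A := fun s hs => hs.1.1
    have mv : v ∈ ({x, v} : Finset X.V) := Finset.mem_insert_of_mem (Finset.mem_singleton_self v)
    have key := cap_ball (X := X.sd) (Sg := fr X.G X.A (S ∪ γ)) hL sH sY s2 Set.inter_subset_left
      (pun_slb_SHd4 h.subS _) Set.inter_subset_left (Hd.rngsig_SHd4 j) (h.sigfr_SHd4 j) b1 b2 b3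
      (h.sig.1 j) ((h.ann j).circ true) r1 h.upd_bp r2 (h.rngupd_SHd4 j) ?_ ?_ ?_ ?_ ?_
    · have e : iR X.sd (annH X.G X.A S γ x v w σ j) =
          iR X.sd (sde X.G X.A S (sidH X.G X.A S σ j) x) ∪ iR X.sd (rngH X.G X.A S γ x v w σ j) := by
        rw [← im _ (h.annA_SHd4 j),
          ← im (sde X.G X.A S (sidH X.G X.A S σ j) x) (Set.inter_subset_left.trans sH),
          ← im _ ((Hd.rngsig_SHd4 j).trans sY), ← Set.image_union]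
        exact congrArg _ r3
      rw [e]
      exact key
    · ext s
      exact ⟨fun hs => ⟨hs.1, (h.cond_SHd4 hs.1.2 (hfr X.G X.A S) j).1 hs.2⟩,
        fun hs => ⟨hs.1, (h.cond_SHd4 hs.1.2 (hfr X.G X.A S) j).2 hs.2⟩⟩
    · exact fun s hs => absurd hs.2.1.2.1 hs.1.2.2
    · ext s
      exact ⟨fun hs => ⟨hs.2, hs.1.2⟩, fun hs => ⟨⟨hs.1.1, hs.2⟩, hs.1⟩⟩
    · ext s
      exact ⟨fun hs => ⟨⟨hs.1.1,
          ((h.cond_SHd4 hs.1.1.2 (fun τ => tpb X.G X.A S τ x) j).1 hs.2).1⟩, hs.1.2⟩,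
        fun hs => ⟨⟨hs.1.1, hs.2⟩,
          (h.cond_SHd4 hs.1.1.2 (fun τ => tpb X.G X.A S τ x) j).2 ⟨hs.1.2, hs.2⟩⟩⟩
    · exact fun s hs => absurd hs.1.1.2 (h.not_meets hs.2.1 ⟨v, hs.2.2.1 mv, h.basic.2.2.1⟩)

theorem Hd.bal_eq (h : Hd X.G X.A S γ x v w σ) :
    Rz (capC X.sd (nb X.G X.A (S ∪ γ)) (fr X.G X.A (S ∪ γ))).G
      (capC X.sd (nb X.G X.A (S ∪ γ)) (fr X.G X.A (S ∪ γ))).A = ⋃ k, ⋃ j, balH X S γ x v σ w k j := by
  have hL : (X.sd.A).Finite := sA_finite h.cl.1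
  have im := (iR_hm hL).2
  have s3 : ∀ τ, blk X.G X.A S τ x ⊆ X.sd.A := fun τ s hs => hs.1.1
  have s4 : ∀ Q, nb X.G X.A Q ⊆ X.sd.A := fun Q s hs => hs.1
  have s5 : ∀ τ, slb X.G X.A S τ x ⊆ X.sd.A := fun τ s hs => hs.1.1
  have hc : Con (sG X.V) (fr X.G X.A (S ∪ γ)) := Cell.con (hdp_main X S γ x v w σ h).2
  have e0 : nb X.G X.A (S ∪ γ) ∩ fr X.G X.A (S ∪ γ) = fr X.G X.A (S ∪ γ) :=
    Set.inter_eq_right.2 fun s hs => ⟨hs.1, hs.2.1⟩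
  have e1 : bcs X.sd.G (nb X.G X.A (S ∪ γ)) (fr X.G X.A (S ∪ γ)) = {fr X.G X.A (S ∪ γ)} := by
    change (fun a => cmp (sG X.V) (nb X.G X.A (S ∪ γ) ∩ fr X.G X.A (S ∪ γ)) a) ''
      (nb X.G X.A (S ∪ γ) ∩ fr X.G X.A (S ∪ γ)) = _
    rw [e0]
    exact Set.eq_singleton_iff_nonempty_unique_mem.2 ⟨hc.1.image _, by
      rintro _ ⟨a, ha, rfl⟩
      exact hc.2.cmp_eq ha⟩
  have e2 : iR X.sd (nb X.G X.A (S ∪ γ)) = iR X.sd (blk X.G X.A S σ x) ∪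
      iR X.sd (blk X.G X.A S (oth X.G X.A S σ) x) ∪ iR X.sd (nb X.G X.A (γ \ {x})) ∪
      iR X.sd (slb X.G X.A S σ x) ∪ iR X.sd (slb X.G X.A S (oth X.G X.A S σ) x) := by
    rw [← im _ (s4 _), ← im _ (s4 _), ← im _ (s3 _), ← im _ (s3 _), ← im _ (s5 _), ← im _ (s5 _),
      ← Set.image_union, ← Set.image_union, ← Set.image_union, ← Set.image_union]
    exact congrArg _ h.cover
  have e3 : cR X.sd (fr X.G X.A (S ∪ γ)) (fr X.G X.A (S ∪ γ)) =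
      cR X.sd (fr X.G X.A (S ∪ γ)) (sigH X.G X.A S γ x v w σ false) ∪
        cR X.sd (fr X.G X.A (S ∪ γ)) (sigH X.G X.A S γ x v w σ true) :=
    (congrArg (cR X.sd (fr X.G X.A (S ∪ γ))) h.sig.2.2.1.symm).trans (cR_union h.sig.2.2.2)
  have e4 : ∀ {Y : Cx} {Z T : Set Y.V}, bcs Y.G Z T = {T} →
      Rz (capC Y Z T).G (capC Y Z T).A = iR Y Z ∪ cR Y T T := by
    intro Y Z T k
    rw [cap_dec, k, Set.biUnion_singleton]
    rfl
  refine (e4 (Y := X.sd) e1).trans ?_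
  rw [e2, e3]
  ext y
  simp only [Set.mem_iUnion, Bool.exists_bool, balH, sidH, cond, Set.mem_union]
  tauto

end Pool.Agent.MP_6374aa_g

end

section

/-! The four balls: the intersections. -/

namespace Pool.Agent.MP_6374aa_g

open Pool.Agent.MP_6374aa_gt Classical

/-- The table of inclusions, at one simplex. -/
def Tb_SHd5 (Bp Bm U Hp Hm Sp Sm a0 a1 D0 D1 E0 e m : Prop) : Prop :=
  ((D0 ∧ a0 → e) ∧ (D0 ∧ a1 → e) ∧ (e → D0) ∧ (e → a0) ∧ (D1 ∧ a0 → m) ∧ (D1 ∧ a1 → m) ∧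
    (m → D1) ∧ (m → a0) ∧ (E0 ∧ a0 → e) ∧ (E0 ∧ a1 → e) ∧ (e → E0)) ∧
  ((D0 ∧ D1 → a0) ∧ (D0 ∧ E0 → a0) ∧ (D0 ∧ m → a0) ∧ (D1 ∧ E0 → a0) ∧ (E0 ∧ m → a0)) ∧
  ((D0 → Bp) ∧ (D1 → Bp) ∧ (a0 → Bp) ∧ (D0 → Bm) ∧ (D1 → U) ∧ (E0 → Hp) ∧ (E0 → Hm) ∧
    (m → Sp) ∧ (m → Sm)) ∧
  ((Bp ∧ a1 → a0) ∧ (Bp ∧ E0 → a0) ∧ (Bm ∧ a0 → a1) ∧ (U ∧ a0 → a1) ∧ (Bm ∧ E0 → a1) ∧
    (U ∧ E0 → a1) ∧ (m → a1) ∧ (Hp ∧ a1 → a0) ∧ (Sp ∧ a1 → a0) ∧ (Hp ∧ D0 → a0) ∧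
    (Sp ∧ D0 → a0) ∧ (Hp ∧ D1 → a0) ∧ (Sp ∧ D1 → a0) ∧ (Hm ∧ a0 → a1) ∧ (Sm ∧ a0 → a1) ∧
    (Hm ∧ D0 → a1) ∧ (Sm ∧ D0 → a1) ∧ (Hm ∧ D1 → a1) ∧ (Sm ∧ D1 → a1)) ∧
  ((Bp ∧ Bm → D0) ∧ (Bp ∧ U → D1) ∧ (Bp ∧ Hp → a0) ∧ (Bp ∧ Sp → a0) ∧ (Bp ∧ Hm → a0) ∧
    (Bp ∧ Sm → a0) ∧ (Bm ∧ Hp → a0) ∧ (Bm ∧ Sp → a0) ∧ (U ∧ Hp → a0) ∧ (U ∧ Sp → a0) ∧
    (Bm ∧ Hm → a1) ∧ (Bm ∧ Sm → a1) ∧ (U ∧ Hm → a1) ∧ (U ∧ Sm → a1) ∧ (Hp ∧ Hm → E0) ∧
    (Hp ∧ Sm → a0) ∧ (Sp ∧ Hm → a0) ∧ (Sp ∧ Sm → m))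

theorem tb_SHd5 {sa hp hm xs vs ws iS mS mγ iγ ex exv exw : Prop} (f1 : hp → sa) (f2 : hm → sa)
    (f3 : hp → (mγ ↔ xs ∧ vs)) (f4 : hm → (mγ ↔ xs ∧ ws)) (f5 : hp → hm → iS)
    (f6 : sa → mγ → ¬mS) (f7 : iS → ¬mγ) (f8 : sa → iS → hp ∧ hm) (f9 : ex → iS ∧ ¬mS)
    (f10 : exv → vs) (f11 : exw → ws ∧ ¬vs) (f12 : xs → ¬iγ) (f13 : sa → xs → vs → hp)
    (f14 : sa → iS → ¬ex → mS) (f15 : vs → mγ) (f16 : ws → mγ) :
    Tb_SHd5 (hp ∧ xs) (hm ∧ xs) (sa ∧ mγ) (hp ∧ mS) (hm ∧ mS) ((hp ∧ ¬iS) ∧ ¬exv)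
      ((((hm ∧ ¬iS) ∨ sa ∧ mγ ∧ ¬iγ) ∧ ¬exw) ∧ ¬exv) ((hp ∧ xs ∧ ¬ex) ∧ ¬exv)
      ((((hm ∧ xs ∧ ¬ex) ∨ sa ∧ mγ ∧ ¬iγ) ∧ ¬exw) ∧ ¬exv) ((sa ∧ iS) ∧ xs) (sa ∧ xs ∧ vs)
      ((sa ∧ iS) ∧ ¬ex) ((sa ∧ iS) ∧ xs ∧ ¬ex) (sa ∧ (xs ∧ vs) ∧ ¬exv) := by
  unfold Tb_SHd5
  by_cases a : hp <;> by_cases b : hm <;> by_cases c : mγ <;> by_cases d : iS <;>
    by_cases e : xs <;> simp_all <;> tauto

theorem Hd.tab_SHd5 {V : Type} {G : SimpleGraph V} {A S γ : Set V} {x v w : V} {σ : V → Set V}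
    (h : Hd G A S γ x v w σ) (s : Finset V) :
    Tb_SHd5 (s ∈ blk G A S σ x) (s ∈ blk G A S (oth G A S σ) x) (s ∈ nb G A (γ \ {x}))
      (s ∈ slb G A S σ x) (s ∈ slb G A S (oth G A S σ) x) (s ∈ sigH G A S γ x v w σ false)
      (s ∈ sigH G A S γ x v w σ true) (s ∈ annH G A S γ x v w σ false)
      (s ∈ annH G A S γ x v w σ true) (s ∈ upd G S {x}) (s ∈ upd G A {x, v}) (s ∈ pun G S x)
      (s ∈ upc G S {x}) (s ∈ upc G A {x, v}) := by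
  obtain ⟨hx, -, hv, -, -, hvw, -⟩ := h.basic
  have hw := h.symm.basic.2.2.1
  have e1 : s ∈ sA G S ↔ s ∈ sA G A ∧ ↑s ⊆ S :=
    ⟨fun a => ⟨sA_mono h.subS a, a.2.1⟩, fun a => ⟨a.1.1, a.2, a.1.2.2⟩⟩
  have e2 : ∀ t : Finset V, t ⊂ s ↔ t ⊆ s ∧ ¬s = t := fun t =>
    Finset.ssubset_iff_subset_ne.trans (and_congr_right fun _ => ne_comm)
  have e3 : ∀ y : V, {x, y} ⊆ s ↔ x ∈ s ∧ y ∈ s := fun y => by
    rw [Finset.insert_subset_iff, Finset.singleton_subset_iff]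
  have key := tb_SHd5 (sa := s ∈ sA G A) (hp := s ∈ hsd G A S σ)
    (hm := s ∈ hsd G A S (oth G A S σ)) (xs := x ∈ s) (vs := v ∈ s) (ws := w ∈ s)
    (iS := ↑s ⊆ S) (mS := Meets s (S \ {x})) (mγ := Meets s (γ \ {x})) (iγ := ↑s ⊆ γ \ {x})
    (ex := s = {x}) (exv := s = {x, v}) (exw := s = {x, w}) (fun a => a.1) (fun a => a.1)
    (fun a => (h.meets a).trans (e3 v)) (fun a => (h.symm.meets a).trans (e3 w))
    (fun a => (h.sides a.1).2 a) h.not_meets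
    (fun a ⟨y, b, c⟩ => c.2 (h.inter.le ⟨c.1, a b⟩))
    (fun a b => ⟨sA_subset_hsd h.subS (e1.2 ⟨a, b⟩), sA_subset_hsd h.subS (e1.2 ⟨a, b⟩)⟩)
    (fun a => ⟨by rw [a, Finset.coe_singleton]; exact Set.singleton_subset_iff.2 hx,
      fun ⟨y, b, c⟩ => c.2 (Finset.mem_singleton.1 (a ▸ b))⟩)
    (fun a => ((e3 v).1 a.ge).2)
    (fun a => ⟨((e3 w).1 a.ge).2, fun b => (Finset.mem_insert.1 (a ▸ b)).elim hv.2
      fun c => hvw (Finset.mem_singleton.1 c)⟩)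
    (fun a b => (b a).2 rfl) (fun a b c => (h.upd_hem_SHd3 ⟨a, (e3 v).2 ⟨b, c⟩⟩).1)
    (fun a b c => by
      by_contra d
      exact c (Finset.eq_singleton_iff_nonempty_unique_mem.2
        ⟨a.1, fun y hy => by_contra fun k => d ⟨y, hy, b hy, k⟩⟩))
    (fun a => ⟨v, a, hv⟩) (fun a => ⟨w, a, hw⟩)
  simpa only [blk, nb, slb, sigH, annH, upd, pun, upc, hem, thr, hfr, fr, ins, cond,
    Set.mem_ofPred_eq, Set.mem_sdiff, Set.mem_union, Set.mem_singleton_iff, e1, e2, e3,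
    Finset.singleton_subset_iff] using key

section

variable {Y : Cx} {F P Q R : Set Y.V}

theorem ii_SHd5 (h : ∀ s, s ∈ P ∧ s ∈ Q → s ∈ R) : iR Y P ∩ iR Y Q ⊆ iR Y R :=
  (iR_inter P Q).le.trans (iR_mono h)

theorem ic_SHd5 (h : ∀ s, s ∈ P ∧ s ∈ Q → s ∈ R) : iR Y P ∩ cR Y F Q ⊆ iR Y R :=
  (iR_cR F P Q).le.trans (iR_mono h)

theorem ci_SHd5 (h : ∀ s, s ∈ Q ∧ s ∈ P → s ∈ R) : cR Y F Q ∩ iR Y P ⊆ iR Y R :=
  (Set.inter_comm _ _).le.trans (ic_SHd5 fun s a => h s a.symm)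

theorem tr_SHd5 {L : Set Y.V} (hL : L.Finite) (h1 : P ⊆ L) (h2 : Q ⊆ L) (h3 : R ⊆ L)
    (h : Rz Y.G P ⊆ Rz Y.G Q ∪ Rz Y.G R) : iR Y P ⊆ iR Y Q ∪ iR Y R := by
  rw [← (iR_hm hL).2 P h1, ← (iR_hm hL).2 Q h2, ← (iR_hm hL).2 R h3, ← Set.image_union]
  exact Set.image_mono h

end

theorem ul_SHd5 {E : Type} {a b c d : Set E} (h1 : a ∩ c ⊆ d) (h2 : b ∩ c ⊆ d) :
    (a ∪ b) ∩ c ⊆ d := fun _ hy => hy.1.elim (fun k => h1 ⟨k, hy.2⟩) fun k => h2 ⟨k, hy.2⟩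

theorem ur_SHd5 {E : Type} {a b c d : Set E} (h1 : c ∩ a ⊆ d) (h2 : c ∩ b ⊆ d) :
    c ∩ (a ∪ b) ⊆ d := fun _ hy => hy.2.elim (fun k => h1 ⟨hy.1, k⟩) fun k => h2 ⟨hy.1, k⟩

theorem inq_SHd5 {E : Type} {a : Bool → Set E} {P : Bool → Bool → Set E} {Q : Set E} {k j : Bool}
    (h1 : Q ∩ a (!j) ⊆ a j) (h2 : ∀ i, Q ∩ P (!k) i ⊆ a j) :
    Q ∩ (a false ∪ a true ∪ ⋃ k', ⋃ j', P k' j') ⊆ P k false ∪ P k true ∪ a j := by
  rintro y ⟨hy, b | b⟩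
  · cases j
    · exact Or.inr (b.elim id fun c => h1 ⟨hy, c⟩)
    · exact Or.inr (b.elim (fun c => h1 ⟨hy, c⟩) id)
  · obtain ⟨k', b⟩ := Set.mem_iUnion.1 b
    obtain ⟨j', b⟩ := Set.mem_iUnion.1 b
    by_cases c : k' = k
    · subst c
      cases j'
      · exact Or.inl (Or.inl b)
      · exact Or.inl (Or.inr b)
    · rw [Bool.eq_not_iff.2 c] at b
      exact Or.inr (h2 _ ⟨hy, b⟩)

theorem pairs_SHd5 {E : Type} {P : Bool → Bool → Set E} {T : Set E}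
    (h1 : P false false ∩ P false true ⊆ T) (h2 : P false false ∩ P true false ⊆ T)
    (h3 : P false false ∩ P true true ⊆ T) (h4 : P false true ∩ P true false ⊆ T)
    (h5 : P false true ∩ P true true ⊆ T) (h6 : P true false ∩ P true true ⊆ T) :
    ∀ k j k' j', (k, j) ≠ (k', j') → P k j ∩ P k' j' ⊆ T := by
  rintro (_ | _) (_ | _) (_ | _) (_ | _) h <;>
    first
      | exact absurd rfl h
      | assumption
      | (rw [Set.inter_comm]; assumption)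

variable {X : Cx} {S γ : Set X.V} {x v w : X.V} {σ : X.V → Set X.V}

theorem Hd.four (h : Hd X.G X.A S γ x v w σ) :
    Four (Rz (capC X.sd (nb X.G X.A (S ∪ γ)) (fr X.G X.A (S ∪ γ))).G
      (capC X.sd (nb X.G X.A (S ∪ γ)) (fr X.G X.A (S ∪ γ))).A)
      (fun j => iR X.sd (annH X.G X.A S γ x v w σ j)) (fun j => iR X.sd (merH X.G X.A S x v j))
      (dscH X S γ x v) (balH X S γ x v σ w) := by
  have T := h.tab_SHd5
  simp only [Tb_SHd5, forall_and] at T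
  obtain ⟨⟨p1, p2, p3, p4, p5, p6, p7, p8, p9, p10, p11⟩, ⟨d1, d2, d3, d4, d5⟩,
    ⟨s1, s2, s3, s4, s5, s6, s7, s8, s9⟩,
    ⟨q1, q2, q3, q4, q5, q6, q7, q8, q9, q10, q11, q12, q13, q14, q15, q16, q17, q18, q19⟩,
    r1, r2, r3, r4, r5, r6, r7, r8, r9, r10, r11, r12, r13, r14, r15, r16, r17, r18⟩ := T
  have hL : (sA X.G X.A).Finite := sA_finite h.cl.1
  have fa : ∀ j, annH X.G X.A S γ x v w σ j ⊆ sA X.G X.A := by
    rintro (_ | _) s hs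
    · exact hs.1.1.1
    · exact hs.1.1.elim (fun a => a.1.1) fun a => a.1
  have sr : ∀ j, rngH X.G X.A S γ x v w σ j ⊆ sigH X.G X.A S γ x v w σ j := by
    rintro (_ | _) s hs
    · exact ⟨hs.1.2, hs.2⟩
    · exact ⟨⟨hs.1.1.imp_left fun a => a.2, hs.1.2⟩, hs.2⟩
  have fs : ∀ j, sigH X.G X.A S γ x v w σ j ⊆ sA X.G X.A := by
    rintro (_ | _) s hs
    · exact hs.1.1.1
    · exact hs.1.1.elim (fun a => a.1.1) fun a => a.1
  have sa : ∀ j, iR X.sd (annH X.G X.A S γ x v w σ j) ⊆ balH X S γ x v σ w true j := fun j =>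
    (tr_SHd5 (Y := X.sd) hL (fa j) (fun _ a => a.1.1) (fs j) ((h.rng j).2.2.le.trans
      (Set.union_subset_union (rz_mono Set.inter_subset_left) (rz_mono (sr j))))).trans
      (Set.union_subset_union_right _ (iR_sub_cR subset_rfl))
  have sb : iR X.sd (annH X.G X.A S γ x v w σ true) ⊆ balH X S γ x v σ w false true := by
    refine tr_SHd5 (Y := X.sd) hL (fa true) (fun _ a => a.1.1) (fun _ a => a.1) ?_
    refine (rz_mono (Set.sdiff_subset.trans Set.sdiff_subset)).trans ?_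
    exact (rz_union h.symm.graft_SHd3.1.sep).le.trans (Set.union_subset_union
      (rz_mono fun _ a => ⟨a.1, a.2.1⟩) (rz_mono fun _ a => ⟨a.1, a.2.1⟩))
  have t0 : ∀ {B : Set (X.sd.V ⊕ Set X.sd.V → ℝ)} (j : Bool),
      B ⊆ iR X.sd (annH X.G X.A S γ x v w σ j) →
      B ⊆ iR X.sd (annH X.G X.A S γ x v w σ false) ∪ iR X.sd (annH X.G X.A S γ x v w σ true) := by
    rintro B (_ | _) a
    · exact a.trans Set.subset_union_left
    · exact a.trans Set.subset_union_right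
  have t1 : ∀ {B : Set (X.sd.V ⊕ Set X.sd.V → ℝ)} (j : Bool),
      B ⊆ iR X.sd (annH X.G X.A S γ x v w σ j) →
      B ⊆ iR X.sd (annH X.G X.A S γ x v w σ false) ∪ iR X.sd (annH X.G X.A S γ x v w σ true) ∪
        ⋃ k', ⋃ j', dscH X S γ x v k' j' := fun j a => (t0 j a).trans Set.subset_union_left
  have t2 : ∀ {B : Set (X.sd.V ⊕ Set X.sd.V → ℝ)} (k j : Bool), B ⊆ dscH X S γ x v k j →
      B ⊆ iR X.sd (annH X.G X.A S γ x v w σ false) ∪ iR X.sd (annH X.G X.A S γ x v w σ true) ∪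
        ⋃ k', ⋃ j', dscH X S γ x v k' j' := fun k j a =>
    (Set.subset_iUnion₂_of_subset k j a).trans Set.subset_union_right
  refine ⟨(rz_compact ((hL.subset (fa false)).image _)).union
    (rz_compact ((hL.subset (fa true)).image _)), h.dsc_bp, ?_,
    pairs_SHd5 (t0 false (ii_SHd5 d1)) (t0 false (ii_SHd5 d2)) (t0 false (ic_SHd5 d3))
      (t0 false (ii_SHd5 d4)) (t0 false (ic_SHd5 fun s a => p8 s a.2)) (t0 false (ic_SHd5 d5)),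
    h.bal_bp, ?_, ?_, pairs_SHd5 (ur_SHd5 (t2 false false (ii_SHd5 r1)) (t2 false true (ii_SHd5 r2)))
      (t1 false (ur_SHd5 (ii_SHd5 r3) (ic_SHd5 r4))) (t1 false (ur_SHd5 (ii_SHd5 r5) (ic_SHd5 r6)))
      (t1 false (ul_SHd5 (ur_SHd5 (ii_SHd5 r7) (ic_SHd5 r8)) (ur_SHd5 (ii_SHd5 r9) (ic_SHd5 r10))))
      (t1 true (ul_SHd5 (ur_SHd5 (ii_SHd5 r11) (ic_SHd5 r12))
        (ur_SHd5 (ii_SHd5 r13) (ic_SHd5 r14))))
      (ul_SHd5 (ur_SHd5 (t2 true false (ii_SHd5 r15)) (t1 false (ic_SHd5 r16)))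
        (ur_SHd5 (t1 false (ci_SHd5 r17))
          (t2 true true ((cR_inter _ _ _).le.trans (cR_mono r18))))), h.bal_eq⟩
  · rintro (_ | _) (_ | _)
    · exact (ur_SHd5 (ii_SHd5 p1) (ii_SHd5 p2)).antisymm
        (Set.subset_inter (iR_mono p3) (t0 false (iR_mono p4)))
    · exact (ur_SHd5 (ii_SHd5 p5) (ii_SHd5 p6)).antisymm
        (Set.subset_inter (iR_mono p7) (t0 false (iR_mono p8)))
    · exact (ur_SHd5 (ii_SHd5 p9) (ii_SHd5 p10)).antisymm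
        (Set.subset_inter (iR_mono p11) (t0 false (iR_mono p4)))
    · exact (ur_SHd5 (ci_SHd5 fun _ a => a.1) (ci_SHd5 fun _ a => a.1)).antisymm
        (Set.subset_inter (iR_sub_cR subset_rfl) (t0 false (iR_mono p8)))
  · rintro (_ | _) (_ | _)
    · exact Set.union_subset (Set.union_subset (iR_mono s1) (iR_mono s2)) (iR_mono s3)
    · exact Set.union_subset (Set.union_subset_union (iR_mono s4) (iR_mono s5)) sb
    · exact Set.union_subset (Set.union_subset_union (iR_mono s6) (cR_mono s8)) (sa false)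
    · exact Set.union_subset (Set.union_subset_union (iR_mono s7) (cR_mono s9)) (sa true)
  · intro k j
    refine inq_SHd5 (a := fun j => iR X.sd (annH X.G X.A S γ x v w σ j)) ?_ fun i => ?_
    · rcases k with _ | _ <;> rcases j with _ | _
      · exact ii_SHd5 q1
      · exact ul_SHd5 (ii_SHd5 q3) (ii_SHd5 q4)
      · exact ul_SHd5 (ii_SHd5 q8) (ci_SHd5 q9)
      · exact ul_SHd5 (ii_SHd5 q14) (ci_SHd5 q15)
    · rcases k with _ | _ <;> rcases j with _ | _ <;> rcases i with _ | _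
      · exact ii_SHd5 q2
      · exact ic_SHd5 fun s a => p8 s a.2
      · exact ul_SHd5 (ii_SHd5 q5) (ii_SHd5 q6)
      · exact ul_SHd5 (ic_SHd5 fun s a => q7 s a.2) (ic_SHd5 fun s a => q7 s a.2)
      · exact ul_SHd5 (ii_SHd5 q10) (ci_SHd5 q11)
      · exact ul_SHd5 (ii_SHd5 q12) (ci_SHd5 q13)
      · exact ul_SHd5 (ii_SHd5 q16) (ci_SHd5 q17)
      · exact ul_SHd5 (ii_SHd5 q18) (ci_SHd5 q19)

end Pool.Agent.MP_6374aa_g

end

section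

/-! Classification of the capped neighbourhoods. -/

namespace Pool.Agent.MP_6374aa_g

open Pool.Agent.MP_6374aa_gt Classical

theorem conj_SHdc {X X' : Cx} {L : Set X.V} {L' : Set X'.V} (hL : L.Finite) (hL' : L'.Finite)
    {f : (X.V → ℝ) → X'.V → ℝ} (hf : HM (Rz X.G L) (Rz X'.G L') f) :
    ∃ g, HM (iR X L) (iR X' L') g ∧ ∀ Y ⊆ L, ∀ Y' ⊆ L', f '' Rz X.G Y = Rz X'.G Y' →
      g '' iR X Y = iR X' Y' := by
  obtain ⟨h1, h2⟩ := iR_hm hL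
  obtain ⟨h3, h4⟩ := iR_hm hL'
  obtain ⟨s, hs, hs1, -⟩ := h1.symm' (rz_compact hL)
  refine ⟨_, (hs.comp hf).comp h3, fun Y hY Y' hY' e => ?_⟩
  rw [← h2 Y hY, ← h4 Y' hY', ← e, Set.image_image, Set.image_image]
  refine Set.image_congr fun x hx => ?_
  simp only [Function.comp_apply, hs1 x (rz_mono hY hx)]

theorem iR_union_SHdc {X : Cx} {Y Z : Set X.V} (hf : (Y ∪ Z).Finite) (h : NE X.G Y Z) :
    iR X (Y ∪ Z) = iR X Y ∪ iR X Z := by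
  obtain ⟨-, h2⟩ := iR_hm hf
  rw [← h2 _ subset_rfl, rz_union h, Set.image_union, h2 _ Set.subset_union_left,
    h2 _ Set.subset_union_right]

theorem sub_SHdc {V : Type} {G : SimpleGraph V} {a m : Bool → Set V} (h : Tor G a m) (j : Bool) :
    a j ⊆ a false ∪ a true ∧ m j ⊆ a false ∪ a true := by
  refine ⟨?_, ((h.ann false).sub j).trans Set.subset_union_left⟩
  cases j
  · exact Set.subset_union_left
  · exact Set.subset_union_right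

theorem tor_SHdc {X X' : Cx} {a m : Bool → Set X.V} {a' m' : Bool → Set X'.V} (t : Tor X.G a m)
    (t' : Tor X'.G a' m') (f1 : (a false ∪ a true).Finite) (f2 : (a' false ∪ a' true).Finite)
    {f : (X.V → ℝ) → X'.V → ℝ}
    (hf : HM (Rz X.G (a false ∪ a true)) (Rz X'.G (a' false ∪ a' true)) f)
    (ha : ∀ j, f '' Rz X.G (a j) = Rz X'.G (a' j)) (hm : ∀ j, f '' Rz X.G (m j) = Rz X'.G (m' j)) :
    ∃ g, HM (iR X (a false) ∪ iR X (a true)) (iR X' (a' false) ∪ iR X' (a' true)) g ∧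
      (∀ j, g '' iR X (a j) = iR X' (a' j)) ∧ ∀ j, g '' iR X (m j) = iR X' (m' j) := by
  obtain ⟨g, hg, hg'⟩ := conj_SHdc f1 f2 hf
  rw [iR_union_SHdc f1 t.ne, iR_union_SHdc f2 t'.ne] at hg
  exact ⟨g, hg, fun j => hg' _ (sub_SHdc t j).1 _ (sub_SHdc t' j).1 (ha j),
    fun j => hg' _ (sub_SHdc t j).2 _ (sub_SHdc t' j).2 (hm j)⟩

theorem hdc_of (hS : SURF_st) (hT : TUBE_st) : HDC_st := by
  intro X X' S γ x v w σ S' γ' x' v' w' σ' h h' ho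
  obtain ⟨t, e⟩ := h.tor
  obtain ⟨t', e'⟩ := h'.tor
  have f1 : (annH X.G X.A S γ x v w σ false ∪ annH X.G X.A S γ x v w σ true).Finite := by
    rw [e]
    exact (sA_finite h.cl.1).subset fun s hs => hs.1
  have f2 : (annH X'.G X'.A S' γ' x' v' w' σ' false ∪
      annH X'.G X'.A S' γ' x' v' w' σ' true).Finite := by
    rw [e']
    exact (sA_finite h'.cl.1).subset fun s hs => hs.1
  obtain ⟨f, hf, ha, hm⟩ := hS _ _ _ _ _ _ _ _ t t' (by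
    rw [e, e', ← hT _ _ _ _ h.cl h.subγ h.circ, ← hT _ _ _ _ h'.cl h'.subγ h'.circ]
    exact ho)
  obtain ⟨g, hg, hg1, hg2⟩ := tor_SHdc (X := X.sd) (X' := X'.sd) t t' f1 f2 hf ha hm
  obtain ⟨k, hk⟩ := four_hm h.four h'.four hg hg1 hg2
  exact (homeo_iff ((hdp_main X S γ x v w σ h).1.cap_cl
    ((sA_finite h.cl.1).subset fun s hs => hs.1)).1).2 ⟨k, hk⟩

end Pool.Agent.MP_6374aa_g

end

section

/-! The last interfaces. -/

namespace Pool.Agent.MP_6374aa_g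

open Pool.Agent.MP_6374aa_gt

theorem vs_main : VS_st := by
  rintro P R X hX ⟨U, K, A, M, B, v, cA, cM, hg, e1, -, e3⟩
  exact v_main X P U K A M B v hX (closed_iff.1 cA) (closed_iff.1 cM) hg e3.symm e1

theorem hdc_main : HDC_st := hdc_of surf_main tube_main

end Pool.Agent.MP_6374aa_g

end
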