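import Pool.Agent.Mg.F6374aa.G6d719e
import Pool.Agent.Mg.F6374aa.Gae9ace
import Pool.Agent.Mg.F6374aa.G69bf5c
import Pool.Agent.Mg.F6374aa.Ga99166
import Pool.Agent.Mg.F6374aa.Ge6e9b2

section

/-!
Definitions for the sphere bundles: cell structures on circles, annuli and bundles, and the pieces
of the neighbourhood of a sphere and a curve.
-/

namespace Pool.Agent.MP_6374aa_g

open Pool.Agent.MP_6374aa_gt Classical

noncomputable section

section top

variable {E : Type} [TopologicalSpace E]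

/-- A circle with two marked points and two arcs. -/
structure Ci (m : Set E) (P : Bool → E) (μ : Bool → Set E) : Prop where
  ne : P false ≠ P true
  bp : ∀ k, BP 1 (μ k) {P false, P true}
  mem : ∀ k i, P i ∈ μ k
  inter : μ false ∩ μ true ⊆ {P false, P true}
  eq : m = μ false ∪ μ true

/-- An annulus cut into two squares. -/
structure Sqr (a m0 m1 : Set E) (P Q : Bool → E) (μ ν J Δ : Bool → Set E) : Prop where
  bpJ : ∀ i, BP 1 (J i) {P i, Q i}
  inJ : ∀ i, J i ∩ (m0 ∪ m1) = {P i, Q i}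
  dj : Disjoint (J false) (J true)
  bpD : ∀ k, BP 2 (Δ k) (m0 ∪ m1 ∪ (J false ∪ J true))
  inD : ∀ k, Δ k ∩ (m0 ∪ m1 ∪ (J false ∪ J true)) = μ k ∪ ν k ∪ (J false ∪ J true)
  inter : Δ false ∩ Δ true ⊆ J false ∪ J true
  eq : a = Δ false ∪ Δ true

/-- A surface made of two annuli, four discs and four balls. -/
structure Four (M : Set E) (a m : Bool → Set E) (P Q : Bool → Bool → Set E) : Prop where
  cpt : IsCompact (a false ∪ a true)
  bpP : ∀ k j, BP 2 (P k j) (m j)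
  inP : ∀ k j, P k j ∩ (a false ∪ a true) = m j
  dP : ∀ k j k' j', (k, j) ≠ (k', j') → P k j ∩ P k' j' ⊆ a false ∪ a true
  bpQ : ∀ k j, BP 3 (Q k j) (P k false ∪ P k true ∪ a j)
  subQ : ∀ k j, P k false ∪ P k true ∪ a j ⊆ Q k j
  inQ : ∀ k j, Q k j ∩ (a false ∪ a true ∪ ⋃ k', ⋃ j', P k' j') ⊆ P k false ∪ P k true ∪ a j
  dQ : ∀ k j k' j', (k, j) ≠ (k', j') →
    Q k j ∩ Q k' j' ⊆ a false ∪ a true ∪ ⋃ k', ⋃ j', P k' j'
  eq : M = ⋃ k, ⋃ j, Q k j

end top

variable {V : Type}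

/-- A vertex of a circle and its two neighbours. -/
structure Mk (G : SimpleGraph V) (m : Set V) (p : V) (n : Bool → V) : Prop where
  circ : Sph G 2 m
  mem : p ∈ m
  ne : n false ≠ n true
  lk : Lk G m {p} = {n false, n true}

/-- The midpoints of the two edges. -/
def mpt (p : V) (n : Bool → V) (i : Bool) : Finset V → ℝ := Pi.single {p, n i} 1

/-- The neighbourhood of `l` and the neighbourhood of its complement. -/
def nbs (G : SimpleGraph V) (a l : Set V) (k : Bool) : Set (Finset V) :=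
  nb G a (cond k (a \ l) l)

/-- An arc across an annulus. -/
structure Acr (G : SimpleGraph V) (a : Set V) (m : Bool → Set V) (p q : V) (l : Set V) : Prop where
  sub : l ⊆ a
  ball : Ball G 2 l (m false ∪ m true)
  e0 : l ∩ m false = {p}
  e1 : l ∩ m true = {q}

/-- The two sides of the arc. -/
structure Sds (G : SimpleGraph V) (a : Set V) (m : Bool → Set V) (p q : V) (l : Set V)
    (n n' : Bool → V) (J : Bool → Set (Finset V)) : Prop where
  ball : ∀ i, Ball (sG V) 2 (J i) (ins (m false ∪ m true))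
  ends : ∀ i, J i ∩ ins (m false ∪ m true) = {{p, n i}, {q, n' i}}
  far : Far (sG V) (J false) (J true)
  eq : fr G a l = J false ∪ J true

/-- The edge of the subdivision from `p` towards `n`. -/
def hed (p n : V) : Finset (Finset V) := {{p}, {p, n}}

/-- Every alternating colouring gives different colours to the triangles on the two edges. -/
def Opp (G : SimpleGraph V) (a : Set V) (p n q n' : V) : Prop :=
  ∀ o, Alt (sG V) 2 (sA G a) (sA G a) o → ∀ s ∈ Lk (sG V) (sA G a) (hed p n),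
    ∀ s' ∈ Lk (sG V) (sA G a) (hed q n'), o (insert s (hed p n)) ≠ o (insert s' (hed q n'))

/-- The simplices containing `e`. -/
def upd (G : SimpleGraph V) (A : Set V) (e : Finset V) : Set (Finset V) :=
  {s | s ∈ sA G A ∧ e ⊆ s}

/-- The simplices strictly containing `e`. -/
def upc (G : SimpleGraph V) (A : Set V) (e : Finset V) : Set (Finset V) :=
  {s | s ∈ sA G A ∧ e ⊂ s}

/-- The subdivision without the vertex `x`. -/
def pun (G : SimpleGraph V) (S : Set V) (x : V) : Set (Finset V) := sA G S \ {{x}}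

/-- The other side. -/
def oth (G : SimpleGraph V) (A S : Set V) (σ : V → Set V) : V → Set V :=
  fun x => Lk G A {x} \ (S ∪ σ x)

section pieces

variable (G : SimpleGraph V) (A S : Set V) (σ : V → Set V) (x : V)

/-- The block of the collar over `x`. -/
def blk : Set (Finset V) := {s | s ∈ hsd G A S σ ∧ {x} ⊆ s}

/-- Its boundary hemisphere. -/
def hem : Set (Finset V) := {s | s ∈ hsd G A S σ ∧ {x} ⊂ s}

/-- The rest of the collar. -/
def slb : Set (Finset V) := {s | s ∈ hsd G A S σ ∧ Meets s (S \ {x})}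

/-- The side of the block. -/
def sde : Set (Finset V) := slb G A S σ x ∩ blk G A S σ x

/-- The top of the rest of the collar. -/
def tps : Set (Finset V) := slb G A S σ x ∩ hfr G A S σ

/-- The top of the block. -/
def tpb : Set (Finset V) := blk G A S σ x ∩ hfr G A S σ

/-- The circle between the two tops. -/
def rim : Set (Finset V) := sde G A S σ x ∩ hfr G A S σ

end pieces

section bundle

variable (G : SimpleGraph V) (A S γ : Set V) (x v w : V) (σ : V → Set V)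

/-- `Y` continued along the boundary of the handle. -/
def thr (Y : Set (Finset V)) : Set (Finset V) := (Y ∪ fr G A (γ \ {x})) \ {{x, w}}

/-- The two annuli. -/
def annH (j : Bool) : Set (Finset V) :=
  cond j (thr G A γ x w (hem G A S (oth G A S σ) x)) (hem G A S σ x) \ {{x, v}}

/-- The two meridians. -/
def merH (j : Bool) : Set (Finset V) := cond j (upc G A {x, v}) (upc G S {x})

/-- The two halves of the boundary sphere. -/
def sigH (j : Bool) : Set (Finset V) :=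
  cond j (thr G A γ x w (hfr G A S (oth G A S σ))) (hfr G A S σ) \ {{x, v}}

/-- The parts of the annuli in the boundary sphere. -/
def rngH (j : Bool) : Set (Finset V) :=
  cond j (thr G A γ x w (tpb G A S (oth G A S σ) x)) (tpb G A S σ x) \ {{x, v}}

/-- The two sides. -/
def sidH (j : Bool) : V → Set V := cond j (oth G A S σ) σ

end bundle

/-- The realisation of `Y` in the capped complex. -/
def iR (X : Cx) (Y : Set X.V) : Set (X.V ⊕ Set X.V → ℝ) := Rz (capG X.G id) (Sum.inl '' Y)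

/-- The realisation of the cone on `Y` with the cone point of `S`. -/
def cR (X : Cx) (S Y : Set X.V) : Set (X.V ⊕ Set X.V → ℝ) := Rz (capG X.G id) (cn S Y)

section four

variable (X : Cx) (S γ : Set X.V) (x v : X.V) (σ : X.V → Set X.V)

/-- The four discs. -/
def dscH : Bool → Bool → Set (X.sd.V ⊕ Set X.sd.V → ℝ)
  | false, false => iR X.sd (upd X.G S {x})
  | false, true => iR X.sd (upd X.G X.A {x, v})
  | true, false => iR X.sd (pun X.G S x)
  | true, true => cR X.sd (fr X.G X.A (S ∪ γ)) (upc X.G X.A {x, v})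

/-- The four balls. -/
def balH (w : X.V) : Bool → Bool → Set (X.sd.V ⊕ Set X.sd.V → ℝ)
  | false, false => iR X.sd (blk X.G X.A S σ x)
  | false, true => iR X.sd (blk X.G X.A S (oth X.G X.A S σ) x) ∪ iR X.sd (nb X.G X.A (γ \ {x}))
  | true, j => iR X.sd (slb X.G X.A S (sidH X.G X.A S σ j) x) ∪
      cR X.sd (fr X.G X.A (S ∪ γ)) (sigH X.G X.A S γ x v w σ j)

end four

end

end Pool.Agent.MP_6374aa_g

end

section

/-! Swapping discs, cups, four balls. -/

namespace Pool.Agent.MP_6374aa_g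

open Pool.Agent.MP_6374aa_gt Classical

variable {E F : Type} [TopologicalSpace E] [TopologicalSpace F] [T2Space E] [T2Space F]

/-- Replacing a cell by another cell with the same boundary. -/
theorem bp_swap {n k : ℕ} {X D C : Set E} {X' D' : Set F} {f : E → F} (hX : IsCompact X)
    (hf : HM X X' f) (hD : BP k D X) (hD' : BP k D' X') (he : f '' (D ∩ X) = D' ∩ X')
    (hC : C ⊆ X) (h : BP n (X ∪ D) C) : BP n (X' ∪ D') (f '' C) := by
  obtain ⟨g, g1, g2, -⟩ := one_Cell hX hf hD hD' he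
  refine h.map g1 ?_
  rw [Set.inter_eq_right.2 (hC.trans Set.subset_union_left), (g2.mono hC).image_eq,
    Set.inter_eq_right.2 (((Set.image_mono hC).trans hf.image.subset).trans Set.subset_union_left)]

theorem BP.cup {n : ℕ} {X Y : Set E} (h : BP n X Y) :
    BP n (X ×ˢ ({0} : Set ℝ) ∪ (X ∩ Y) ×ˢ Set.Icc (0 : ℝ) 1) ((X ∩ Y) ×ˢ ({1} : Set ℝ)) := by
  obtain ⟨hk, f, hf, hY⟩ := id h
  have key : ∀ p ∈ X ×ˢ ({0} : Set ℝ) ∪ (X ∩ Y) ×ˢ Set.Icc (0 : ℝ) 1,
      p.1 ∈ X ∧ 0 ≤ p.2 ∧ p.2 ≤ 1 ∧ ‖f p.1‖ ≤ 1 ∧ (p.2 = 0 ∨ ‖f p.1‖ = 1) ∧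
        ‖((1 + p.2) / 2) • f p.1‖ = (1 + p.2) / 2 * ‖f p.1‖ := by
    have nn : ∀ (t : ℝ) (z : Eu n), 0 ≤ t → ‖((1 + t) / 2) • z‖ = (1 + t) / 2 * ‖z‖ :=
      fun t z ht => by rw [norm_smul, Real.norm_of_nonneg (by positivity)]
    rintro p (⟨h1, h2⟩ | ⟨h1, h2⟩)
    · exact ⟨h1, h2.ge, h2.le.trans zero_le_one, mem_closedBall_zero_iff.1 (hf.2.mapsTo h1),
        Or.inl h2, nn _ _ h2.ge⟩
    · exact ⟨h1.1, h2.1, h2.2, mem_closedBall_zero_iff.1 (hf.2.mapsTo h1.1),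
        Or.inr ((hY _ h1.1).1 h1.2), nn _ _ h2.1⟩
  refine ⟨(hk.prod isCompact_singleton).union (h.sp.1.prod isCompact_Icc),
    fun p => ((1 + p.2) / 2) • f p.1, ⟨?_, fun p hp => ?_, fun p hp q hq e => ?_, fun y hy => ?_⟩,
    fun p hp => ?_⟩
  · exact (by fun_prop : Continuous fun p : E × ℝ => (1 + p.2) / 2).continuousOn.smul
      (hf.1.comp continuousOn_fst fun p hp => (key p hp).1)
  · obtain ⟨-, h1, h2, h3, -, h4⟩ := key p hp
    rw [mem_closedBall_zero_iff, h4]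
    nlinarith [norm_nonneg (f p.1)]
  · obtain ⟨a0, a1, a2, a3, a4, a5⟩ := key p hp
    obtain ⟨b0, b1, b2, b3, b4, b5⟩ := key q hq
    have e1 : (1 + p.2) / 2 * ‖f p.1‖ = (1 + q.2) / 2 * ‖f q.1‖ :=
      a5.symm.trans ((congrArg norm e).trans b5)
    have e2 : p.2 = q.2 := by
      rcases a4 with a4 | a4 <;> rcases b4 with b4 | b4 <;> rw [a4, b4] at e1 <;> linarith
    have e3 : ((1 + p.2) / 2) • f p.1 = ((1 + p.2) / 2) • f q.1 := e.trans (by rw [e2])
    exact Prod.ext (hf.2.injOn a0 b0 (smul_right_injective _ (by positivity) e3)) e2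
  · have hy' := mem_closedBall_zero_iff.1 hy
    by_cases c : ‖y‖ ≤ 1 / 2
    · obtain ⟨x, hx, e⟩ := hf.2.surjOn (show (2 : ℝ) • y ∈ Metric.closedBall 0 1 by
        rw [mem_closedBall_zero_iff, norm_smul, Real.norm_two]
        linarith)
      exact ⟨(x, 0), Or.inl ⟨hx, rfl⟩, by simp only [e, smul_smul]; norm_num⟩
    · have c' : 0 < ‖y‖ := by linarith [not_le.1 c]
      have c1 : ‖‖y‖⁻¹ • y‖ = 1 := norm_smul_inv_norm (norm_pos_iff.1 c')
      obtain ⟨x, hx, e⟩ := hf.2.surjOn (mem_closedBall_zero_iff.2 c1.le)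
      refine ⟨(x, 2 * ‖y‖ - 1), Or.inr ⟨⟨hx, (hY x hx).2 (e ▸ c1)⟩, ?_, ?_⟩, ?_⟩
      · simp only
        linarith [not_le.1 c]
      · simp only
        linarith
      · simp only [e, smul_smul]
        rw [show (1 + (2 * ‖y‖ - 1)) / 2 * ‖y‖⁻¹ = 1 by field_simp; ring, one_smul]
  · obtain ⟨a0, a1, a2, a3, a4, a5⟩ := key p hp
    simp only [a5]
    refine ⟨fun k => ?_, fun k => ?_⟩
    · rw [(hY _ a0).1 k.1.2, show p.2 = 1 from k.2]
      norm_num
    · have e : ‖f p.1‖ = 1 := a4.elim (fun a4 => by rw [a4] at k; linarith) id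
      rw [e] at k
      exact ⟨⟨a0, (hY _ a0).2 e⟩, show p.2 = 1 by linarith⟩

theorem four_hm {M : Set E} {a m : Bool → Set E} {P Q : Bool → Bool → Set E} {M' : Set F}
    {a' m' : Bool → Set F} {P' Q' : Bool → Bool → Set F} (h : Four M a m P Q)
    (h' : Four M' a' m' P' Q') {f : E → F} (hf : HM (a false ∪ a true) (a' false ∪ a' true) f)
    (ha : ∀ j, f '' a j = a' j) (hm : ∀ j, f '' m j = m' j) : ∃ g, HM M M' g := by
  have sa : ∀ j, a j ⊆ a false ∪ a true := fun j => by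
    cases j
    exacts [Set.subset_union_left, Set.subset_union_right]
  have u : ∀ {α : Type} (Z : Bool → Bool → Set α),
      (⋃ i ∈ (Set.univ : Set (Bool × Bool)), Z i.1 i.2) = ⋃ k, ⋃ j, Z k j := fun Z => by
    rw [Set.biUnion_univ, Set.iUnion_prod']
  have c1 : ∀ {α : Type} [TopologicalSpace α] [T2Space α] {M : Set α} {a m : Bool → Set α}
      {P Q : Bool → Bool → Set α}, Four M a m P Q → (∀ k j, BP 2 (P k j) (a false ∪ a true)) ∧
      (∀ k j, Q k j ∩ (a false ∪ a true ∪ ⋃ k', ⋃ j', P k' j') = P k false ∪ P k true ∪ a j) ∧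
      (∀ k j, BP 3 (Q k j) (a false ∪ a true ∪ ⋃ k', ⋃ j', P k' j')) ∧
      (a false ∪ a true ∪ ⋃ k', ⋃ j', P k' j') ∪ (⋃ k, ⋃ j, Q k j) = M := by
    intro α _ _ M a m P Q h
    have s1 : ∀ k j, P k j ⊆ a false ∪ a true ∪ ⋃ k', ⋃ j', P k' j' := fun k j x hx =>
      Or.inr (Set.mem_iUnion₂.2 ⟨k, j, hx⟩)
    have e : ∀ k j, Q k j ∩ (a false ∪ a true ∪ ⋃ k', ⋃ j', P k' j') =
        P k false ∪ P k true ∪ a j := fun k j => (h.inQ k j).antisymm (Set.subset_inter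
      (h.subQ k j) (Set.union_subset (Set.union_subset (s1 _ _) (s1 _ _)) fun x hx => Or.inl (by
        cases j
        exacts [Or.inl hx, Or.inr hx])))
    refine ⟨fun k j => (h.bpP k j).congr ?_, e, fun k j => (h.bpQ k j).congr ?_, ?_⟩
    · rw [h.inP, Set.inter_eq_right.2 ((h.inP k j).ge.trans Set.inter_subset_left)]
    · rw [e, Set.inter_eq_right.2 (h.subQ k j)]
    · rw [h.eq]
      refine Set.union_eq_right.2 ?_
      rintro x ((hx | hx) | hx)
      · exact Set.mem_iUnion₂.2 ⟨false, false, h.subQ _ _ (Or.inr hx)⟩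
      · exact Set.mem_iUnion₂.2 ⟨false, true, h.subQ _ _ (Or.inr hx)⟩
      · obtain ⟨k, j, hx⟩ := Set.mem_iUnion₂.1 hx
        refine Set.mem_iUnion₂.2 ⟨k, false, h.subQ _ _ (Or.inl ?_)⟩
        cases j
        exacts [Or.inl hx, Or.inr hx]
  obtain ⟨p1, p2, p3, p4⟩ := c1 h
  obtain ⟨q1, q2, q3, q4⟩ := c1 h'
  obtain ⟨g, g1, g2, g3⟩ := hm_fill (I := (Set.univ : Set (Bool × Bool))) Set.finite_univ
    (d := fun _ => 2) (B := fun i => P i.1 i.2) (B' := fun i => P' i.1 i.2) h.cpt hf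
    (fun i _ => p1 _ _) (fun i _ => q1 _ _) (fun i _ => by rw [h.inP, h'.inP, hm])
    (fun i _ j _ e => h.dP _ _ _ _ e) fun i _ j _ e => h'.dP _ _ _ _ e
  have hk := h.cpt.union ((Set.finite_univ (α := Bool × Bool)).isCompact_biUnion
    fun i _ => (p1 i.1 i.2).1)
  rw [u] at hk
  rw [u, u] at g1
  obtain ⟨k, k1, -, -⟩ := hm_fill (I := (Set.univ : Set (Bool × Bool))) Set.finite_univ
    (d := fun _ => 3) (B := fun i => Q i.1 i.2) (B' := fun i => Q' i.1 i.2) hk g1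
    (fun i _ => p3 _ _) (fun i _ => q3 _ _) (fun i _ => by
      rw [p2, q2, Set.image_union, Set.image_union, g3 (i.1, false) trivial,
        g3 (i.1, true) trivial, (g2.mono (sa _)).image_eq, ha])
    (fun i _ j _ e => h.dQ _ _ _ _ e) fun i _ j _ e => h'.dQ _ _ _ _ e
  rw [u, u, p4, q4] at k1
  exact ⟨k, k1⟩

end Pool.Agent.MP_6374aa_g

end

section

/-! The collar, cell by cell. -/

namespace Pool.Agent.MP_6374aa_g

open Pool.Agent.MP_6374aa_gt Classical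

variable {V : Type} {G : SimpleGraph V} {A S γ : Set V} {x v w : V} {σ : V → Set V}

theorem collar_cells (hA : Mfa G 3 A (fun _ => False) S) (hSA : S ⊆ A) (hS : Sph G 3 S)
    (h : Sided G 3 A S σ) :
    ∃ g, HM (Rz (sG V) (hsd G A S σ)) (Rz (sG V) (sA G S) ×ˢ Set.Icc (0 : ℝ) 1) g ∧
      ∀ s ∈ sA G S, ∀ i, g '' C_Collar G A S σ (s, i) = M_Collar G S (s, i) := by
  have fS := Cell.finite hS
  have fH := hsd_finite (σ := σ) hA fS
  obtain ⟨g, hg, hi⟩ := cell_homeo (I := sA G S ×ˢ (Set.univ : Set (Option Bool)))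
    ((fH.subset (sA_subset_hsd hSA)).prod Set.finite_univ) r_Collar
    (fun _ _ k => k.2.2 rfl)
    (by
      rintro ⟨a, i⟩ - ⟨b, j⟩ - ⟨c, k⟩ - ⟨h1, h2, h3⟩ ⟨h4, h5, h6⟩
      dsimp only at h1 h2 h4 h5
      refine ⟨h4.trans h1, ?_, fun e => ?_⟩
      · rcases h5 with rfl | rfl
        · exact h2
        · exact Or.inr rfl
      · obtain ⟨rfl, rfl⟩ := Prod.mk.inj e
        have e1 := Finset.Subset.antisymm h1 h4
        subst e1
        rcases h2 with rfl | rfl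
        · exact h3 rfl
        · rcases h5 with rfl | rfl <;> exact h3 rfl)
    (fun p => 3 - p.1.card + if p.2 = none then 1 else 0)
    (C := C_Collar G A S σ) (C' := M_Collar G S)
    (fun p hp => bpC_Collar hA hSA hS h p hp.1) (fun p hp => bpM_Collar hS p hp.1)
    (fun p _ q _ k => rz_mono fun t ht => ⟨K_mono_Collar hSA k.2.1 ht.1, k.1.trans ht.2⟩)
    (fun p _ q _ k => Set.prod_mono (rz_mono fun t ht => ⟨ht.1, k.1.trans ht.2⟩)
      (J_mono_Collar k.2.1))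
    (by
      rintro p hp q hq x ⟨h1, h2⟩
      obtain ⟨b, k1, -⟩ := bot_Collar h1
      have k2 := h1.2.1 b k1
      have k3 := h2.2.1 b k1
      obtain ⟨m, m1, m2, m3⟩ := meet_Collar (K := K_Collar G A S σ)
        (fun a ha hb => hb.2 ha.2.1) k2.1 k3.1
      exact ⟨(p.1 ∪ q.1, m),
        ⟨un_Collar hp.1 hq.1 (K_sub_Collar hSA _ k2.1).1.2.2 k2.2 k3.2, trivial⟩,
        face_Collar Finset.subset_union_left m1, face_Collar Finset.subset_union_right m2,
        rz_of_supp h1 fun t ht => ⟨m3 t (h1.2.1 t ht).1 (h2.2.1 t ht).1,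
          Finset.union_subset (h1.2.1 t ht).2 (h2.2.1 t ht).2⟩⟩)
    (by
      rintro p hp q hq x ⟨h1, h2⟩
      obtain ⟨b, k1, -⟩ := bot_Collar h1.1
      have k2 := h1.1.2.1 b k1
      have k3 := h2.1.2.1 b k1
      obtain ⟨m, m1, m2, m3⟩ := meet_Collar (K := J_Collar)
        (fun a ha hb => zero_ne_one ((Set.mem_singleton_iff.1 ha).symm.trans
          (Set.mem_singleton_iff.1 hb))) h1.2 h2.2
      exact ⟨(p.1 ∪ q.1, m), ⟨un_Collar hp.1 hq.1 k2.1.2.2 k2.2 k3.2, trivial⟩,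
        face_Collar Finset.subset_union_left m1, face_Collar Finset.subset_union_right m2,
        rz_of_supp h1.1 fun t ht => ⟨(h1.1.2.1 t ht).1,
          Finset.union_subset (h1.1.2.1 t ht).2 (h2.1.2.1 t ht).2⟩, m3 _ h1.2 h2.2⟩)
  have s1 : ∀ p : Finset V × Option Bool, C_Collar G A S σ p ⊆ Rz (sG V) (hsd G A S σ) :=
    fun p => rz_mono fun t ht => K_sub_Collar hSA _ ht.1
  have s2 : ∀ (i : Option Bool) (y : (Finset V → ℝ) × ℝ), y.1 ∈ Rz (sG V) (sA G S) →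
      y.2 ∈ J_Collar i → ∃ s ∈ sA G S, y ∈ M_Collar G S (s, i) := fun i y h1 h2 => by
    obtain ⟨b, k1, k2⟩ := bot_Collar h1
    exact ⟨b, h1.2.1 b k1, rz_of_supp h1 fun t ht => ⟨h1.2.1 t ht, k2 t ht⟩, h2⟩
  have e1 : ⋃ p ∈ sA G S ×ˢ (Set.univ : Set (Option Bool)), C_Collar G A S σ p =
      Rz (sG V) (hsd G A S σ) := by
    refine Set.Subset.antisymm (Set.iUnion₂_subset fun p _ => s1 p) fun x hx => ?_
    obtain ⟨s, k1, k2⟩ := cov_Collar (i := none) hSA hx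
    exact Set.mem_iUnion₂.2 ⟨(s, none), ⟨k1, trivial⟩, k2⟩
  have e2 : ⋃ p ∈ sA G S ×ˢ (Set.univ : Set (Option Bool)), M_Collar G S p =
      Rz (sG V) (sA G S) ×ˢ Set.Icc (0 : ℝ) 1 := by
    refine Set.Subset.antisymm (Set.iUnion₂_subset fun p _ =>
      Set.prod_mono (rz_mono fun t ht => ht.1) (J_mono_Collar (i := none) (Or.inr rfl)))
      fun y hy => ?_
    obtain ⟨s, k1, k2⟩ := s2 none y hy.1 hy.2
    exact Set.mem_iUnion₂.2 ⟨(s, none), ⟨k1, trivial⟩, k2⟩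
  rw [e1, e2] at hg
  exact ⟨g, hg, fun s hs i => hi (s, i) ⟨hs, trivial⟩⟩

theorem pun_ball (hS : Sph G 3 S) (hx : x ∈ S) :
    Ball (sG V) 3 (pun G S x) (upc G S {x}) ∧ upc G S {x} ⊆ pun G S x := by
  have e : Lk (sG V) (sA G S) {{x}} = upc G S {x} := by
    ext s
    rw [mem_lk_C1]
    refine and_congr_right fun hs => ⟨fun k => k.resolve_right fun k' => ?_, Or.inl⟩
    exact hs.1.ne_empty (Finset.ssubset_singleton_iff.1 k')
  refine ⟨e ▸ (hS.sd le_rfl).rem le_rfl (singleton_mem_sA.2 hx), fun s hs => ⟨hs.1, fun k => ?_⟩⟩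
  exact hs.2.ne (Eq.symm k)

theorem res_SCol {E F : Type} [TopologicalSpace E] [TopologicalSpace F] {X Z : Set E}
    {X' Z' : Set F} {g : E → F} (hg : HM X X' g) (hZ : Z ⊆ X) (hZ' : Z' ⊆ X')
    (h : ∀ y ∈ X, y ∈ Z ↔ g y ∈ Z') : HM Z Z' g :=
  ⟨hg.1.mono hZ, fun y hy => (h y (hZ hy)).1 hy, hg.2.injOn.mono hZ, fun y hy => by
    obtain ⟨z, hz, rfl⟩ := hg.2.surjOn (hZ' hy)
    exact ⟨z, (h z hz).2 hy, rfl⟩⟩

theorem key_SCol (hSA : S ⊆ A) {g : (Finset V → ℝ) → (Finset V → ℝ) × ℝ}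
    (hg : HM (Rz (sG V) (hsd G A S σ)) (Rz (sG V) (sA G S) ×ˢ Set.Icc (0 : ℝ) 1) g)
    (hi : ∀ s ∈ sA G S, ∀ i, g '' C_Collar G A S σ (s, i) = M_Collar G S (s, i))
    {U : Finset V → Prop} (h1 : ∀ s t, U s → s ⊆ t → U t)
    (h2 : ∀ t, U t → U (t.filter (· ∈ S))) (i : Option Bool) {y : Finset V → ℝ}
    (hy : y ∈ Rz (sG V) (hsd G A S σ)) :
    y ∈ Rz (sG V) {t | t ∈ K_Collar G A S σ i ∧ U t} ↔
      g y ∈ Rz (sG V) {t | t ∈ sA G S ∧ U t} ×ˢ J_Collar i := by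
  constructor
  · intro k
    obtain ⟨b, k1, k2⟩ := bot_Collar k
    have k4 : y ∈ C_Collar G A S σ (b.filter (· ∈ S), i) := rz_of_supp hy fun t ht =>
      ⟨(k.2.1 t ht).1, (Finset.filter_subset _ _).trans (k2 t ht)⟩
    have k3 : g y ∈ M_Collar G S (b.filter (· ∈ S), i) :=
      hi _ (fil_Collar (hy.2.1 b k1)) i ▸ Set.mem_image_of_mem g k4
    exact ⟨rz_of_supp k3.1 fun t ht => ⟨(k3.1.2.1 t ht).1,
      h1 _ t (h2 b (k.2.1 b k1).2) (k3.1.2.1 t ht).2⟩, k3.2⟩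
  · intro k
    obtain ⟨b, k1, k2⟩ := bot_Collar k.1
    have k3 : g y ∈ M_Collar G S (b, i) :=
      ⟨rz_of_supp k.1 fun t ht => ⟨(k.1.2.1 t ht).1, k2 t ht⟩, k.2⟩
    have k4 : C_Collar G A S σ (b, i) ⊆ Rz (sG V) (hsd G A S σ) :=
      rz_mono fun t ht => K_sub_Collar hSA _ ht.1
    rw [← hi b (k.1.2.1 b k1).1 i, hg.mem_image k4 hy] at k3
    exact rz_of_supp hy fun t ht =>
      ⟨(k3.2.1 t ht).1, h1 b t (k.1.2.1 b k1).2 (k3.2.1 t ht).2⟩

theorem pun_SCol : {t | t ∈ sA G S ∧ Meets t (S \ {x})} = pun G S x := by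
  ext t
  refine and_congr_right fun ht => ⟨?_, fun k => ?_⟩
  · rintro ⟨y, k1, k2⟩ e
    rw [Set.mem_singleton_iff.1 e] at k1
    exact k2.2 (Finset.mem_singleton.1 k1)
  · by_contra k'
    exact k (ht.1.subset_singleton_iff.1 fun y hy => Finset.mem_singleton.2
      (by_contra fun e => k' ⟨y, hy, ht.2.1 hy, e⟩))

theorem upc_SCol : {t | t ∈ sA G S ∧ (Meets t (S \ {x}) ∧ {x} ⊆ t)} = upc G S {x} := by
  ext t
  refine and_congr_right fun ht => ⟨?_, fun k => ?_⟩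
  · rintro ⟨⟨y, k1, k2⟩, k3⟩
    exact ⟨k3, fun e => k2.2 (Finset.mem_singleton.1 (e k1))⟩
  · obtain ⟨y, k1, k2⟩ := Finset.exists_of_ssubset k
    exact ⟨⟨y, k1, ht.2.1 k1, fun e => k2 (Finset.mem_singleton.2 e)⟩, k.1⟩

theorem slb_bp (hA : Mfa G 3 A (fun _ => False) S) (hSA : S ⊆ A) (hS : Sph G 3 S)
    (h : Sided G 3 A S σ) (hx : x ∈ S) :
    BP 3 (Rz (sG V) (slb G A S σ x))
        (Rz (sG V) (tps G A S σ x) ∪ (Rz (sG V) (pun G S x) ∪ Rz (sG V) (sde G A S σ x))) ∧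
      BP 2 (Rz (sG V) (tps G A S σ x)) (Rz (sG V) (rim G A S σ x)) ∧
      BP 2 (Rz (sG V) (pun G S x) ∪ Rz (sG V) (sde G A S σ x)) (Rz (sG V) (rim G A S σ x)) := by
  obtain ⟨g, hg, hi⟩ := collar_cells hA hSA hS h
  have fH := hsd_finite (σ := σ) hA (Cell.finite hS)
  obtain ⟨b1, b2⟩ := pun_ball hS hx
  have b3 := b1.bp le_rfl
  have b4 : Rz (sG V) (pun G S x) ∩ Rz (sG V) (upc G S {x}) = Rz (sG V) (upc G S {x}) :=
    Set.inter_eq_right.2 (rz_mono b2)
  have m1 : ∀ s t : Finset V, Meets s (S \ {x}) → s ⊆ t → Meets t (S \ {x}) :=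
    fun s t ⟨y, k1, k2⟩ k => ⟨y, k k1, k2⟩
  have m2 : ∀ t : Finset V, Meets t (S \ {x}) → Meets (t.filter (· ∈ S)) (S \ {x}) :=
    fun t ⟨y, k1, k2⟩ => ⟨y, Finset.mem_filter.2 ⟨k1, k2.1⟩, k2⟩
  have k1 := fun i y hy => key_SCol hSA hg hi m1 m2 i (y := y) hy
  have k2 := fun i y hy => key_SCol hSA hg hi (U := fun t => Meets t (S \ {x}) ∧ {x} ⊆ t)
    (fun s t k k' => ⟨m1 s t k.1 k', k.2.trans k'⟩)
    (fun t k => ⟨m2 t k.1, Finset.singleton_subset_iff.2
      (Finset.mem_filter.2 ⟨Finset.singleton_subset_iff.1 k.2, hx⟩)⟩) i (y := y) hy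
  rw [pun_SCol] at k1
  rw [upc_SCol] at k2
  have e1 : {t | t ∈ K_Collar G A S σ (some true) ∧ Meets t (S \ {x})} = tps G A S σ x :=
    Set.ext fun t => ⟨fun k => ⟨⟨k.1.1, k.2⟩, k.1⟩, fun k => ⟨k.2, k.1.2⟩⟩
  have e2 : {t | t ∈ K_Collar G A S σ none ∧ (Meets t (S \ {x}) ∧ {x} ⊆ t)} = sde G A S σ x :=
    Set.ext fun t => ⟨fun k => ⟨⟨k.1, k.2.1⟩, k.1, k.2.2⟩, fun k => ⟨k.1.1, k.1.2, k.2.2⟩⟩
  have e3 : {t | t ∈ K_Collar G A S σ (some true) ∧ (Meets t (S \ {x}) ∧ {x} ⊆ t)} =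
      rim G A S σ x :=
    Set.ext fun t => ⟨fun k => ⟨⟨⟨k.1.1, k.2.1⟩, k.1.1, k.2.2⟩, k.1⟩,
      fun k => ⟨k.2, k.1.1.2, k.1.2.2⟩⟩
  have a0 : ∀ y ∈ Rz (sG V) (hsd G A S σ), y ∈ Rz (sG V) (slb G A S σ x) ↔
      g y ∈ Rz (sG V) (pun G S x) ×ˢ Set.Icc (0 : ℝ) 1 := k1 none
  have a1 : ∀ y ∈ Rz (sG V) (hsd G A S σ), y ∈ Rz (sG V) (tps G A S σ x) ↔
      g y ∈ Rz (sG V) (pun G S x) ×ˢ ({1} : Set ℝ) := e1 ▸ k1 (some true)
  have a2 : ∀ y ∈ Rz (sG V) (hsd G A S σ), y ∈ Rz (sG V) (pun G S x) ↔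
      g y ∈ Rz (sG V) (pun G S x) ×ˢ ({0} : Set ℝ) := fun y hy => by
    have := k1 (some false) y hy
    rwa [show {t | t ∈ K_Collar G A S σ (some false) ∧ Meets t (S \ {x})} = pun G S x from
      pun_SCol] at this
  have a3 : ∀ y ∈ Rz (sG V) (hsd G A S σ), y ∈ Rz (sG V) (sde G A S σ x) ↔
      g y ∈ Rz (sG V) (upc G S {x}) ×ˢ Set.Icc (0 : ℝ) 1 := e2 ▸ k2 none
  have a4 : ∀ y ∈ Rz (sG V) (hsd G A S σ), y ∈ Rz (sG V) (rim G A S σ x) ↔
      g y ∈ Rz (sG V) (upc G S {x}) ×ˢ ({1} : Set ℝ) := e3 ▸ k2 (some true)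
  have s0 : slb G A S σ x ⊆ hsd G A S σ := fun t ht => ht.1
  have s1 : tps G A S σ x ⊆ hsd G A S σ := fun t ht => ht.1.1
  have s2 : pun G S x ⊆ hsd G A S σ := fun t ht => sA_subset_hsd hSA ht.1
  have s3 : sde G A S σ x ⊆ hsd G A S σ := fun t ht => ht.1.1
  have p0 : Rz (sG V) (pun G S x) ⊆ Rz (sG V) (sA G S) := rz_mono Set.sdiff_subset
  refine ⟨b3.prod.comap (rz_compact (fH.subset s0))
      (res_SCol hg (rz_mono s0) (Set.prod_mono p0 subset_rfl) a0) fun y hy => ?_,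
    (lev_Collar b3 1).comap (rz_compact (fH.subset s1))
      (res_SCol hg (rz_mono s1) (Set.prod_mono p0 (J_mono_Collar (j := some true) (Or.inr rfl)))
        a1) fun y hy => a4 y (rz_mono s1 hy), ?_⟩
  · have hy' := rz_mono s0 hy
    rw [Set.mem_union, Set.mem_union, Set.mem_union, a1 y hy', a2 y hy', a3 y hy']
    constructor
    · rintro (k | k | k)
      · exact Or.inl ⟨k.1, Or.inr k.2⟩
      · exact Or.inl ⟨k.1, Or.inl k.2⟩
      · exact Or.inr k
    · rintro (⟨k, k' | k'⟩ | k)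
      · exact Or.inr (Or.inl ⟨k, k'⟩)
      · exact Or.inl ⟨k, k'⟩
      · exact Or.inr (Or.inr k)
  · have b5 := b3.cup
    rw [b4] at b5
    have s4 := Set.union_subset (rz_mono (G := sG V) s2) (rz_mono s3)
    refine b5.comap ((rz_compact (fH.subset s2)).union (rz_compact (fH.subset s3)))
      (res_SCol hg s4 (Set.union_subset
        (Set.prod_mono p0 (J_mono_Collar (j := some false) (Or.inr rfl)))
        (Set.prod_mono ((rz_mono b2).trans p0) subset_rfl)) fun y hy => ?_)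
      fun y hy => a4 y (s4 hy)
    rw [Set.mem_union, Set.mem_union, a2 y hy, a3 y hy]

theorem hem_ball (hA : Mfa G 3 A (fun _ => False) S) (hSA : S ⊆ A) (hS : Sph G 3 S)
    (h : Sided G 3 A S σ) (hx : x ∈ S) :
    Ball (sG V) 3 (hem G A S σ x) (ins S) ∧ hem G A S σ x ∩ ins S = upc G S {x} := by
  have hs : {x} ∈ sA G S := singleton_mem_sA.2 hx
  have h1 := hlk_ball hA hSA hS.mf h hs
  rw [Finset.card_singleton] at h1
  refine ⟨(IsIso.ball (hlk_iso h hSA hs) (T' := ins S) (T := ins S) fun t _ => ?_).2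
    (h1.sd le_rfl),
    Set.ext fun t => ⟨fun k => ⟨⟨k.1.1.1.1, k.2, k.1.1.1.2.2⟩, k.1.2⟩,
      fun k => ⟨⟨sA_subset_hsd hSA k.1, k.2⟩, k.1.2.1⟩⟩⟩
  constructor
  · exact fun k => (Finset.coe_subset.2 Finset.sdiff_subset).trans k
  · intro k v hv
    by_cases e : v ∈ ({x} : Finset V)
    · exact hs.2.1 e
    · exact k (Finset.mem_sdiff.2 ⟨hv, e⟩)

theorem tpb_ball (hA : Mfa G 3 A (fun _ => False) S) (hSA : S ⊆ A) (hS : Sph G 3 S)
    (h : Sided G 3 A S σ) (hx : x ∈ S) :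
    Ball (sG V) 3 (tpb G A S σ x) (rim G A S σ x) ∧ rim G A S σ x ⊆ tpb G A S σ x := by
  have h1 := hfr_ball hA hSA hS.mf h (singleton_mem_sA.2 hx)
  rw [Finset.card_singleton, show {t | t ∈ hfr G A S σ ∧ {x} ⊆ t} = tpb G A S σ x from
    Set.ext fun t => ⟨fun k => ⟨⟨k.1.1, k.2⟩, k.1⟩, fun k => ⟨k.2, k.1.2⟩⟩] at h1
  refine ⟨Cell.congr h1 fun s hs => forall₂_congr fun t ht => ?_, fun t ht => ⟨ht.1.2, ht.2⟩⟩
  have k := hs.1 ht
  constructor
  · rintro ⟨y, k1, k2, k3⟩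
    exact ⟨⟨⟨k.1.1, y, k1, k2, fun e => k3 (Finset.mem_singleton.2 e)⟩, k.1⟩, k.2⟩
  · rintro ⟨⟨⟨-, y, k1, k2⟩, -⟩, -⟩
    exact ⟨y, k1, k2.1, fun e => k2.2 (Finset.mem_singleton.1 e)⟩

theorem blk_bp (hA : Mfa G 3 A (fun _ => False) S) (hSA : S ⊆ A) (hS : Sph G 3 S)
    (h : Sided G 3 A S σ) (hx : x ∈ S) :
    BP 3 (Rz (sG V) (blk G A S σ x)) (Rz (sG V) (hem G A S σ x) ∪ Rz (sG V) (upd G S {x})) ∧
      BP 2 (Rz (sG V) (upd G S {x})) (Rz (sG V) (upc G S {x})) := by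
  have hs : {x} ∈ sA G S := singleton_mem_sA.2 hx
  have h1 := mid_Collar hA hSA hS h hs
  have h2 := dual_Collar hS hs
  have e : insert {x} (hem G A S σ x ∩ ins S) = upd G S {x} := by
    rw [(hem_ball hA hSA hS h hx).2]
    ext t
    constructor
    · rintro (rfl | k)
      · exact ⟨hs, subset_rfl⟩
      · exact ⟨k.1, k.2.1⟩
    · intro k
      exact (Classical.em (t = {x})).imp_right fun e =>
        ⟨k.1, Finset.ssubset_iff_subset_ne.2 ⟨k.2, fun e' => e e'.symm⟩⟩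
  rw [Finset.card_singleton] at h1 h2
  refine ⟨e ▸ h1, congr_Collar h2 fun y hy => ⟨fun k => rz_of_supp hy fun t ht =>
    ⟨(hy.2.1 t ht).1, k.2.1 t ht⟩, fun k => rz_mono (fun t ht => ht.2) k⟩⟩

end Pool.Agent.MP_6374aa_g

end

section

/-! Annuli from discs. -/

namespace Pool.Agent.MP_6374aa_g

open Pool.Agent.MP_6374aa_gt Classical

variable {V V' : Type} {G : SimpleGraph V} {G' : SimpleGraph V'} {A : Set V} {a : Set V}
  {m : Bool → Set V} {p q : V} {l : Set V} {n n' : Bool → V} {J : Bool → Set (Finset V)}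

theorem inl_mem_SAn0 {ι : Type} {I : Set ι} {u : V} : (Sum.inl u : V ⊕ ι) ∈ capA A I ↔ u ∈ A := by
  simp [capA]

theorem inr_mem_SAn0 {ι : Type} {I : Set ι} {i : ι} : (Sum.inr i : V ⊕ ι) ∈ capA A I ↔ i ∈ I := by
  simp [capA]

theorem inl_im_SAn0 {ι : Type} {u : V} : (Sum.inl u : V ⊕ ι) ∈ Sum.inl '' A ↔ u ∈ A :=
  Sum.inl_injective.mem_set_image

theorem inr_im_SAn0 {ι : Type} {i : ι} : (Sum.inr i : V ⊕ ι) ∉ Sum.inl '' A := by
  simp

theorem Ann.swap (h : Ann G a m) : Ann G a fun j => m (!j) := by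
  refine ⟨fun i => h.sub _, fun i => h.circ _, h.far.symm, ?_, ?_⟩
  · exact mf_congr_C5 h.mf fun _ _ => Or.comm
  · have hi : IsIso (capG G fun j => m (!j)) (capA a Set.univ) (capG G m) (capA a Set.univ)
        (Sum.map id not) := by
      refine ⟨⟨?_, ?_, ?_⟩, ?_⟩
      · rintro (u | i) hu
        · exact inl_mem_SAn0.2 (inl_mem_SAn0.1 hu)
        · exact inr_mem_SAn0.2 trivial
      · exact (Sum.map_injective.2 ⟨Function.injective_id, fun _ _ => Bool.not_inj⟩).injOn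
      · rintro (u | i) hu
        · exact ⟨.inl u, hu, rfl⟩
        · exact ⟨.inr (!i), inr_mem_SAn0.2 trivial, by simp⟩
      · rintro (u | i) - (w | j) - <;> exact Iff.rfl
    exact (IsIso.sph hi).2 h.cap

theorem Ann.finite (h : Ann G a m) : a.Finite := by
  exact ((Cell.finite h.cap).subset Set.subset_union_left).of_finite_image
    Sum.inl_injective.injOn

theorem Ann.bip (h : Ann G a m) : Bip (sG V) 2 (sA G a) := by
  have h1 := h.cap.sd le_rfl
  have h2 := bip_of_ndc (Cell.mfa h1) (Or.inl rfl) (Cell.ndc h1)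
    (bal_sA (Mfa.card_le (Cell.mfa h.cap)))
  exact (IsIso.bip (IsIso.sd (cap_iso m a))).2 (h2.mono (sA_mono Set.subset_union_left))

theorem mf_rem_SAn0 {D T : Set V} (h : Ball G 3 D T)
    (hf : Far G (insert q (Lk G D {q})) (D ∩ T)) (hq : q ∈ D) :
    Mf G 2 (D \ {q}) (D ∩ T ∪ Lk G D {q}) := by
  intro v hv
  by_cases hvq : G.Adj q v
  · have hl : v ∈ Lk G D {q} := mem_lk_C5.2 ⟨hv.1, hvq⟩
    have hT : v ∉ T := fun hT => hf v (Or.inr hl) v ⟨hv.1, hT⟩ (adq_refl v)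
    have h1 := (Mf.sph_lk (Cell.mfa h) hv.1 hT).rem (by norm_num) (mem_lk_C5.2 ⟨hq, hvq.symm⟩)
    have e : Lk G (D \ {q}) {v} = Lk G D {v} \ {q} := by
      ext w
      simp only [mem_lk_C5, Set.mem_sdiff]
      tauto
    rw [e]
    refine Cell.congr h1 fun s hs => ⟨fun h2 w hw => ?_, fun h2 w hw => ?_⟩
    · rcases Finset.mem_insert.1 hw with rfl | hw
      · exact Or.inr hl
      · obtain ⟨h3, h4⟩ := mem_lk_C5.1 (h2 hw)
        exact Or.inr (mem_lk_C5.2 ⟨(mem_lk_C5.1 h3).1, h4⟩)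
    · have h3 := (hs.1 hw).1
      rcases h2 (Finset.mem_insert_of_mem hw) with h4 | h4
      · exact (hf v (Or.inr hl) w h4 (Or.inr (mem_lk_C5.1 h3).2)).elim
      · exact mem_lk_C5.2 ⟨h3, (mem_lk_C5.1 h4).2⟩
  · have e : Lk G (D \ {q}) {v} = Lk G D {v} := by
      ext w
      simp only [mem_lk_C5, Set.mem_sdiff, Set.mem_singleton_iff]
      exact ⟨fun h1 => ⟨h1.1.1, h1.2⟩, fun h1 => ⟨⟨h1.1, fun e => hvq (e ▸ h1.2.symm)⟩, h1.2⟩⟩
    rw [e]
    refine Cell.congr (Cell.mfa h v hv.1) fun s hs => ⟨fun h2 w hw => ?_, fun h2 w hw => ?_⟩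
    · refine Or.inl ⟨?_, h2 hw⟩
      rcases Finset.mem_insert.1 hw with rfl | hw
      · exact hv.1
      · exact (mem_lk_C5.1 (hs.1 hw)).1
    · have h3 : v ∈ D ∩ T :=
        (h2 (Finset.mem_insert_self v s)).resolve_right fun h4 => hvq (mem_lk_C5.1 h4).2
      rcases h2 hw with h4 | h4
      · exact h4.2
      · rcases Finset.mem_insert.1 hw with rfl | hw
        · exact h3.2
        · exact (hf w (Or.inr h4) v h3 (Or.inr (mem_lk_C5.1 (hs.1 hw)).2.symm)).elim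

theorem ann_of_ball {D T : Set V} (h : Ball G 3 D T) (hq : q ∈ D)
    (hf : Far G (insert q (Lk G D {q})) (D ∩ T)) :
    Ann G (D \ {q}) fun j => cond j (Lk G D {q}) (D ∩ T) := by
  have hT : q ∉ T := fun hT => hf q (Or.inl rfl) q ⟨hq, hT⟩ (adq_refl q)
  refine ⟨?_, ?_, (hf.mono (Set.subset_insert _ _) subset_rfl).symm, mf_rem_SAn0 h hf hq, ?_⟩
  · rintro (_ | _) w hw
    · exact ⟨hw.1, fun e => hT (e ▸ hw.2)⟩
    · exact ⟨(mem_lk_C5.1 hw).1, (mem_lk_C5.1 hw).2.ne'⟩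
  · rintro (_ | _)
    · exact h.bd le_rfl
    · exact Mf.sph_lk (Cell.mfa h) hq hT
  · have hi : IsIso (capG G fun j => cond j (Lk G D {q}) (D ∩ T)) (capA (D \ {q}) Set.univ)
        (capG G fun _ : Unit => T) (capA D Set.univ)
        (Sum.elim Sum.inl fun j => cond j (Sum.inl q) (Sum.inr ())) := by
      refine ⟨⟨?_, ?_, ?_⟩, ?_⟩
      · rintro (u | _ | _) hu
        · exact inl_mem_SAn0.2 (inl_mem_SAn0.1 hu).1
        · exact inr_mem_SAn0.2 trivial
        · exact inl_mem_SAn0.2 hq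
      · rintro (u | _ | _) hu (w | _ | _) hw e
        · exact congrArg _ (Sum.inl_injective e)
        · exact absurd e Sum.inl_ne_inr
        · exact absurd (Sum.inl_injective e) (inl_mem_SAn0.1 hu).2
        · exact absurd e Sum.inr_ne_inl
        · rfl
        · exact absurd e Sum.inr_ne_inl
        · exact absurd (Sum.inl_injective e).symm (inl_mem_SAn0.1 hw).2
        · exact absurd e Sum.inl_ne_inr
        · rfl
      · rintro (u | _) hu
        · by_cases e : u = q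
          · exact ⟨.inr true, inr_mem_SAn0.2 trivial, congrArg _ e.symm⟩
          · exact ⟨.inl u, inl_mem_SAn0.2 ⟨inl_mem_SAn0.1 hu, e⟩, rfl⟩
        · exact ⟨.inr false, inr_mem_SAn0.2 trivial, rfl⟩
      · rintro (u | _ | _) hu (w | _ | _) hw
        · exact Iff.rfl
        · exact and_iff_right (inl_mem_SAn0.1 hu).1
        · exact mem_lk_C5.trans ((and_iff_right (inl_mem_SAn0.1 hu).1).trans (G.adj_comm _ _))
        · exact and_iff_right (inl_mem_SAn0.1 hw).1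
        · exact Iff.rfl
        · exact iff_of_false id hT
        · exact mem_lk_C5.trans (and_iff_right (inl_mem_SAn0.1 hw).1)
        · exact iff_of_false id hT
        · exact iff_of_false id G.irrefl
    exact (IsIso.sph hi).2 (h.cap le_rfl)

theorem graft_ball {D T M B : Set V} (h : Ball G 3 D T) (hM : Sph G 3 M) (hg : Graft G D M B q)
    (hq : q ∉ T) : Ball G 3 B (D ∩ T) := by
  have h1 := (ball_congr_C5 (T' := D ∩ T) h fun _ ha => (and_iff_right ha).symm).cap le_rfl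
  have h2 := (IsIso.sph (cap_iso (G := G) (fun _ : Unit => D ∩ T) M)).1 hM
  have hl : ∀ u, u ∈ D ∧ G.Adj q u ↔ u ∈ M ∧ G.Adj q u := fun u => by
    rw [← mem_lk_C5, ← mem_lk_C5, hg.lk]
  have hi : ∀ u, u ∈ D ∧ u ∈ M ↔ u = q ∨ u ∈ D ∧ G.Adj q u := fun u => by
    rw [← mem_lk_C5, ← Set.mem_insert_iff, ← hg.inter, Set.mem_inter_iff]
  have h3 : Graft (capG G fun _ : Unit => D ∩ T) (capA D Set.univ) (Sum.inl '' M)
      (capA B Set.univ) (Sum.inl q) := by
    refine ⟨inl_mem_SAn0.2 hg.memA, inl_im_SAn0.2 hg.memM, ?_, ?_, ?_, ?_⟩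
    · ext (u | i)
      · rw [mem_lk_C5, mem_lk_C5, inl_mem_SAn0, inl_im_SAn0]
        exact hl u
      · rw [mem_lk_C5, mem_lk_C5]
        exact iff_of_false (fun e => hq e.2.2) fun e => hq e.2.2
    · ext (u | i)
      · rw [Set.mem_inter_iff, Set.mem_insert_iff, mem_lk_C5, inl_mem_SAn0, inl_im_SAn0,
          Sum.inl.injEq]
        exact hi u
      · rw [Set.mem_inter_iff, Set.mem_insert_iff, mem_lk_C5]
        exact iff_of_false (fun e => inr_im_SAn0 e.2)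
          fun e => e.elim Sum.inr_ne_inl fun e => hq e.2.2
    · rintro (u | i) hu _ ⟨⟨w, hw, rfl⟩, hw'⟩
      · exact hg.sep u ⟨inl_mem_SAn0.1 hu.1, fun e => hu.2 (inl_im_SAn0.2 e)⟩ w
          ⟨hw, fun e => hw' (inl_mem_SAn0.2 e)⟩
      · exact fun e => hw' (inl_mem_SAn0.2 e.1)
    · ext (u | i)
      · rw [Set.mem_sdiff, Set.mem_union, inl_mem_SAn0, inl_mem_SAn0, inl_im_SAn0,
          Set.mem_singleton_iff, Sum.inl.injEq, hg.eq]
        exact Iff.rfl
      · exact iff_of_true (inr_mem_SAn0.2 trivial)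
          ⟨Or.inl (inr_mem_SAn0.2 trivial), Sum.inr_ne_inl⟩
  have h4 := (Graft.sph h3 le_rfl h1 h2).rem le_rfl (v := Sum.inr ()) (inr_mem_SAn0.2 trivial)
  have e : capA B (Set.univ : Set Unit) \ {Sum.inr ()} = Sum.inl '' B := by
    ext (u | i)
    · rw [Set.mem_sdiff, inl_mem_SAn0, inl_im_SAn0]
      exact and_iff_left Sum.inl_ne_inr
    · exact iff_of_false (fun e => e.2 rfl) inr_im_SAn0
  rw [e] at h4
  refine (IsIso.ball (cap_iso (G := G) (fun _ : Unit => D ∩ T) B) fun u hu => ?_).2 h4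
  rw [mem_lk_C5, inl_mem_SAn0]
  exact (and_iff_right hu).symm

/-- An annulus with a disc glued to one boundary circle is a disc. -/
theorem Ann.disc (h : Ann G a m) {D : Set (V → ℝ)} (hD : BP 2 D (Rz G (m false)))
    (hi : D ∩ Rz G a = Rz G (m false)) : BP 2 (D ∪ Rz G a) (Rz G (m true)) := by
  have : Nonempty V := ⟨(Cell.nonempty (h.circ false)).some⟩
  obtain ⟨g, hg, hg1, -⟩ := IsIso.symm' (cap_iso (G := G) m a)
  have hf : (Sum.inl '' a : Set (V ⊕ Bool)).Finite := h.finite.image _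
  have him : ∀ j, pf g '' Rz (capG G m) (Sum.inl '' m j) = Rz G (m j) := fun j => by
    rw [IsIso.pf_image hg hf (Set.image_mono (h.sub j)), Set.image_image,
      Set.image_congr fun u hu => hg1 u (h.sub j hu), Set.image_id']
  have h1 := (h.cap.rem le_rfl (v := Sum.inr true) (inr_mem_SAn0.2 trivial)).bp le_rfl
  have e1 : capA a (Set.univ : Set Bool) \ {Sum.inr true} =
      Sum.inl '' a ∪ insert (Sum.inr false) (Sum.inl '' m false) := by
    ext (u | _ | _)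
    · rw [Set.mem_sdiff, inl_mem_SAn0, Set.mem_union, Set.mem_insert_iff, inl_im_SAn0, inl_im_SAn0]
      exact ⟨fun e => Or.inl e.1, fun e => ⟨e.elim id fun e =>
        h.sub false (e.resolve_left Sum.inl_ne_inr), Sum.inl_ne_inr⟩⟩
    · exact iff_of_true ⟨inr_mem_SAn0.2 trivial, by simp⟩ (Or.inr (Or.inl rfl))
    · exact iff_of_false (fun e => e.2 rfl) (by simp)
  have e2 : Lk (capG G m) (capA a Set.univ) {Sum.inr true} = Sum.inl '' m true := by
    ext (u | i)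
    · rw [mem_lk_C5, inl_mem_SAn0, inl_im_SAn0]
      exact and_iff_right_of_imp fun e => h.sub true e
    · rw [mem_lk_C5]
      exact iff_of_false (fun e => e.2) inr_im_SAn0
  have hne : NE (capG G m) (Sum.inl '' a) (insert (Sum.inr false) (Sum.inl '' m false)) := by
    rintro _ ⟨⟨u, -, rfl⟩, hu⟩ _ ⟨rfl | hw, hw'⟩ e
    · exact hu (Or.inr (inl_im_SAn0.2 e))
    · exact hw' (Set.image_mono (h.sub false) hw)
  rw [e1, e2, rz_union hne] at h1
  have e3 : Rz (capG G m) (insert (Sum.inr false) (Sum.inl '' m false)) ∩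
      Rz (capG G m) (Sum.inl '' a) = Rz (capG G m) (Sum.inl '' m false) := by
    rw [rz_inter, Set.insert_inter_of_notMem inr_im_SAn0,
      Set.inter_eq_left.2 (Set.image_mono (h.sub false))]
  have h2 : BP 2 (Rz (capG G m) (insert (Sum.inr false) (Sum.inl '' m false)))
      (Rz (capG G m) (Sum.inl '' a)) := by
    refine (((IsIso.sph (cap_iso (G := G) m (m false))).1 (h.circ false)).cone_bp (by norm_num)
      (c := Sum.inr false) ?_).congr ?_
    · rintro _ ⟨u, hu, rfl⟩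
      exact hu
    · rw [e3, Set.inter_eq_right.2 (rz_mono (Set.subset_insert _ _))]
  have h3 : BP 2 D (Rz G a) := hD.congr (by
    rw [hi, Set.inter_eq_right.2 (hi ▸ Set.inter_subset_left)])
  have h4 := bp_swap (rz_compact hf) (IsIso.hm hg hf) h2 h3 (by rw [e3, him, hi])
    (rz_mono (Set.image_mono (h.sub true))) h1
  rwa [him, Set.union_comm] at h4

end Pool.Agent.MP_6374aa_g

end

section

/-! A slab together with a cone. -/

namespace Pool.Agent.MP_6374aa_g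

open Pool.Agent.MP_6374aa_gt Classical

theorem iR_hm {X : Cx} {L : Set X.V} (hL : L.Finite) :
    HM (Rz X.G L) (iR X L) (pf Sum.inl) ∧ ∀ Y ⊆ L, pf Sum.inl '' Rz X.G Y = iR X Y :=
  ⟨IsIso.hm (cap_iso id L) hL, fun _ hY => IsIso.pf_image (cap_iso id L) hL hY⟩

theorem iR_inter {X : Cx} (Y Z : Set X.V) : iR X Y ∩ iR X Z = iR X (Y ∩ Z) := by
  unfold iR
  rw [rz_inter, Set.image_inter Sum.inl_injective]

theorem iR_cR {X : Cx} (S Y Z : Set X.V) : iR X Y ∩ cR X S Z = iR X (Y ∩ Z) := by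
  unfold iR cR
  rw [rz_inter]
  refine congrArg _ ?_
  ext (a | S') <;> simp [cn]

theorem cR_inter {X : Cx} (S Y Z : Set X.V) : cR X S Y ∩ cR X S Z = cR X S (Y ∩ Z) := by
  unfold cR
  rw [rz_inter]
  refine congrArg _ ?_
  ext (a | S') <;> simp [cn]

theorem iR_mono {X : Cx} {Y Z : Set X.V} (h : Y ⊆ Z) : iR X Y ⊆ iR X Z :=
  rz_mono (Set.image_mono h)

theorem iR_sub_cR {X : Cx} {S Y Z : Set X.V} (h : Y ⊆ Z) : iR X Y ⊆ cR X S Z :=
  rz_mono ((Set.image_mono h).trans (Set.subset_insert _ _))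

theorem cR_mono {X : Cx} {S Y Z : Set X.V} (h : Y ⊆ Z) : cR X S Y ⊆ cR X S Z :=
  rz_mono (Set.insert_subset_insert (Set.image_mono h))

theorem iR_empty (X : Cx) : iR X ∅ = ∅ := by
  unfold iR
  rw [Set.image_empty, rz_empty]

theorem cR_union {X : Cx} {S Y Z : Set X.V} (h : NE X.G Y Z) :
    cR X S (Y ∪ Z) = cR X S Y ∪ cR X S Z := by
  unfold cR
  rw [← rz_union]
  · refine congrArg _ ?_
    ext (a | S') <;> simp [cn]
  · have k1 : ∀ (d : Set X.V) (a : X.V), Sum.inl a ∈ cn S d ↔ a ∈ d := fun d a => by simp [cn]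
    have k2 : ∀ (d : Set X.V) (T : Set X.V), Sum.inr T ∈ cn S d ↔ T = S := fun d a => by simp [cn]
    rintro (a | S') h2 (b | S'') h3
    · exact h a ⟨(k1 _ _).1 h2.1, fun k => h2.2 ((k1 _ _).2 k)⟩ b
        ⟨(k1 _ _).1 h3.1, fun k => h3.2 ((k1 _ _).2 k)⟩
    · exact absurd ((k2 _ _).2 ((k2 _ _).1 h3.1)) h3.2
    · exact absurd ((k2 _ _).2 ((k2 _ _).1 h2.1)) h2.2
    · exact id

theorem iR_bp {X : Cx} {n : ℕ} {L : Set X.V} (hL : L.Finite) {B C : Set (X.V → ℝ)}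
    (hB : B ⊆ Rz X.G L) (hC : C ⊆ Rz X.G L) (h : BP n B C) :
    BP n (pf (Sum.inl : X.V → X.V ⊕ Set X.V) '' B) (pf Sum.inl '' C) :=
  h.map ((iR_hm hL).1.restrict hB) ((iR_hm hL).1.image_inter hB hC)

theorem cap_ball {X : Cx} {L Sg H P E Sd c R Y m D : Set X.V} (hL : L.Finite) (sH : H ⊆ L)
    (sY : Y ⊆ L) (sD : D ⊆ L) (sP : P ⊆ H) (sE : E ⊆ H) (sS : Sd ⊆ H) (sR : R ⊆ Y) (sg : Y ⊆ Sg)
    (b1 : BP 3 (Rz X.G H) (Rz X.G P ∪ (Rz X.G E ∪ Rz X.G Sd))) (b2 : BP 2 (Rz X.G P) (Rz X.G c))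
    (b3 : BP 2 (Rz X.G E ∪ Rz X.G Sd) (Rz X.G c)) (b4 : Ball X.G 3 Y m) (b5 : Sph X.G 2 m)
    (b6 : BP 2 (Rz X.G R ∪ Rz X.G D) (Rz X.G c)) (b7 : BP 2 (Rz X.G D) (Rz X.G m))
    (e1 : Rz X.G Y = Rz X.G P ∪ Rz X.G R) (e2 : R ∩ D = m) (e3 : H ∩ Y = P) (e4 : P ∩ E ⊆ c)
    (e5 : P ∩ Sd = c) (e6 : P ∩ R = c) (e7 : P ∩ m ⊆ c) :
    BP 3 (iR X H ∪ cR X Sg Y) (iR X E ∪ cR X Sg m ∪ (iR X Sd ∪ iR X R)) := by
  have im := (iR_hm hL).2
  have mR : m ⊆ R := e2 ▸ Set.inter_subset_left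
  have mY : m ⊆ Y := mR.trans sR
  have cR' : c ⊆ R := e6 ▸ Set.inter_subset_right
  have PL : P ⊆ L := sP.trans sH
  have EL : E ⊆ L := sE.trans sH
  have SL : Sd ⊆ L := sS.trans sH
  have RL : R ⊆ L := sR.trans sY
  have cL : c ⊆ L := cR'.trans RL
  have h1 := iR_bp hL (rz_mono sH) (Set.union_subset (rz_mono PL)
    (Set.union_subset (rz_mono EL) (rz_mono SL))) b1
  rw [Set.image_union, Set.image_union, im H sH, im P PL, im E EL, im Sd SL] at h1
  have h2 : BP 3 (cR X Sg Y) (iR X Y ∪ cR X Sg (Y ∩ m)) := cn_bp_disc b4 sg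
  rw [Set.inter_eq_right.2 mY] at h2
  have hY : iR X Y = iR X P ∪ iR X R := by
    rw [← im Y sY, e1, Set.image_union, im P PL, im R RL]
  have hD := iR_bp hL (rz_mono PL) (rz_mono cL) b2
  rw [im P PL, im c cL] at hD
  have hD1 := iR_bp hL (Set.union_subset (rz_mono EL) (rz_mono SL)) (rz_mono cL) b3
  rw [Set.image_union, im E EL, im Sd SL, im c cL] at hD1
  have hm : cR X Sg m ∩ iR X R = iR X m := by
    rw [Set.inter_comm, iR_cR, Set.inter_eq_right.2 mR]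
  have k1 : BP 2 (cR X Sg m) (iR X m) := cn_bp_two b5 (mY.trans sg)
  have k2 : BP 2 (cR X Sg m) (iR X R) := by
    refine k1.congr ?_
    rw [hm, Set.inter_comm, iR_cR, Set.inter_self]
  have k3 : BP 2 (Rz X.G D) (Rz X.G R) := by
    refine b7.congr ?_
    rw [rz_inter, rz_inter, ← e2, Set.inter_comm R D, ← Set.inter_assoc, Set.inter_self]
  have hD2 := bp_swap (rz_compact (hL.subset RL)) (iR_hm (hL.subset RL)).1 k3 k2
    (by rw [hm, rz_inter, Set.inter_comm, e2, im m (mR.trans RL)]) (rz_mono cR') b6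
  rw [im c cL] at hD2
  have key := h1.union h2 ?_ ?_ ?_ hD hD1 hD2 ?_ ?_
  · have e : iR X E ∪ cR X Sg m ∪ (iR X Sd ∪ iR X R) =
        iR X E ∪ iR X Sd ∪ (iR X R ∪ cR X Sg m) := by
      rw [Set.union_comm (iR X R), Set.union_union_union_comm]
    rw [e]
    exact key
  · exact Set.inter_eq_right.2 (Set.union_subset (iR_mono sP)
      (Set.union_subset (iR_mono sE) (iR_mono sS)))
  · rw [Set.inter_eq_right.2 (Set.union_subset (iR_sub_cR subset_rfl) (cR_mono mY)), hY,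
      Set.union_assoc]
  · rw [iR_cR, e3]
  · rw [Set.inter_union_distrib_left, iR_inter, iR_inter, e5]
    exact Set.union_eq_right.2 (iR_mono e4)
  · rw [Set.inter_union_distrib_left, iR_inter, iR_cR, e6]
    exact Set.union_eq_left.2 (iR_mono e7)

end Pool.Agent.MP_6374aa_g

end

section

/-! Marked circles and arcs across an annulus. -/

namespace Pool.Agent.MP_6374aa_g

open Pool.Agent.MP_6374aa_gt Classical

variable {V V' : Type} {G : SimpleGraph V} {G' : SimpleGraph V'} {A : Set V} {a : Set V}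
  {m : Bool → Set V} {p q : V} {l : Set V} {n n' : Bool → V} {J : Bool → Set (Finset V)}

theorem exists_mk {c : Set V} (h : Sph G 2 c) : ∃ p n, Mk G c p n := by
  obtain ⟨p, hp⟩ := Cell.nonempty h
  obtain ⟨y, z, hyz, e⟩ := Set.ncard_eq_two.1 (sph_card_H1 h hp)
  exact ⟨p, fun i => cond i z y, h, hp, hyz, e⟩

theorem Mk.perm {c : Set V} (h : Mk G c p n) (b : Bool) : Mk G c p fun i => n (xor i b) := by
  cases b
  · exact ⟨h.circ, h.mem, h.ne, h.lk⟩
  · exact ⟨h.circ, h.mem, h.ne.symm, h.lk.trans (Set.pair_comm _ _)⟩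

theorem Mk.adj_SAn1 {c : Set V} (h : Mk G c p n) (i : Bool) : n i ∈ c ∧ G.Adj p (n i) := by
  rw [← mem_lk_H1, h.lk]
  cases i
  exacts [Or.inl rfl, Or.inr rfl]

theorem Mk.fr_SAn1 {c : Set V} (h : Mk G c p n) :
    fr G c {p} = {{p, n false}, {p, n true}} := by
  have k : ∀ i, ({p, n i} : Finset V) ∈ fr G c {p} := fun i => by
    obtain ⟨k1, k2⟩ := h.adj_SAn1 i
    refine ⟨⟨by simp, ?_, ?_⟩, ⟨p, by simp, rfl⟩, fun e => k2.ne' (e (by simp))⟩
    · simp [Set.insert_subset_iff, h.mem, k1]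
    · simp [k2]
  refine Set.Subset.antisymm ?_ (Set.pair_subset (k false) (k true))
  rintro s ⟨hs, ⟨x, hx, rfl⟩, h1⟩
  obtain ⟨y, hy, h2⟩ := Set.not_subset.1 h1
  have h3 : y ∈ Lk G c {x} := mem_lk_H1.2 ⟨hs.2.1 hy, hs.2.2 hx hy (Ne.symm h2)⟩
  have h4 : s = {x, y} := (Finset.eq_of_subset_of_card_le
    (Finset.insert_subset hx (Finset.singleton_subset_iff.2 hy))
    ((Cell.link h.circ hs.2).1.trans_eq (Finset.card_pair (Ne.symm h2)).symm)).symm
  rw [h.lk] at h3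
  rcases h3 with rfl | rfl
  exacts [Or.inl h4, Or.inr h4]

theorem sub_nbs_SAn1 (c l : Set V) (k : Bool) : fr G c l ⊆ nbs G c l k := by
  rw [← nb_inter_nb]
  cases k
  exacts [Set.inter_subset_left, Set.inter_subset_right]

theorem Mk.arc {c : Set V} (h : Mk G c p n) (k : Bool) :
    Ball (sG V) 2 (nbs G c {p} k) (fr G c {p}) ∧ fr G c {p} = {{p, n false}, {p, n true}} := by
  refine ⟨?_, h.fr_SAn1⟩
  have h1 : ({p, n false} : Finset V) ∈ fr G c {p} := h.fr_SAn1 ▸ Or.inl rfl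
  have h2 := sub_nbs_SAn1 c {p} k h1
  have h3 : Mf (sG V) 1 (nbs G c {p} k) (fr G c {p}) := by
    cases k
    · exact h.circ.mf.nb_empty (by omega)
    · exact fr_compl (G := G) (A := c) {p} ▸ h.circ.mf.nb_empty (by omega)
  have h4 : Pre (sG V) (nbs G c {p} k) := by
    cases k
    · exact pre_nb.2 (pre_subsingleton (Set.subsingleton_singleton.anti Set.inter_subset_right))
    · refine pre_nb.2 ?_
      rw [cond_true, Set.inter_eq_right.2 Set.sdiff_subset]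
      exact rem_pre_H1 h.circ h.mem
  exact ((mf_one_cell h3 ((sA_finite (Cell.finite h.circ)).subset fun _ e => e.1)
    ⟨⟨_, h2⟩, h4⟩).resolve_left fun e => Set.eq_empty_iff_forall_notMem.1 e.1 _ ⟨h2, h1⟩).2

theorem mpt_SAn1 (p : V) (n : Bool → V) (i : Bool) : Rz (sG V) {{p, n i}} = {mpt p n i} := by
  rw [rz_singleton, Set.singleton_eq_singleton_iff]
  funext t
  by_cases e : t = {p, n i} <;> simp [mpt, e]

theorem Mk.rz_SAn1 {c : Set V} (h : Mk G c p n) :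
    Rz (sG V) (fr G c {p}) = {mpt p n false, mpt p n true} := by
  rw [h.fr_SAn1, Set.insert_eq, rz_union, mpt_SAn1, mpt_SAn1, Set.insert_eq]
  rintro _ ⟨rfl, -⟩ _ ⟨rfl, -⟩ e
  have h1 := Finset.card_pair (h.adj_SAn1 false).2.ne
  have h2 := Finset.card_pair (h.adj_SAn1 true).2.ne
  rcases e with e | e <;> have := Finset.card_lt_card e <;> omega

theorem Mk.ci {c : Set V} (h : Mk G c p n) :
    Ci (Rz (sG V) (sA G c)) (mpt p n) fun k => Rz (sG V) (nbs G c {p} k) := by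
  refine ⟨fun e => ?_, fun k => h.rz_SAn1 ▸ (h.arc k).1.bp (by omega),
    fun k i => rz_mono (sub_nbs_SAn1 c {p} k) ?_, ?_, ?_⟩
  · have h1 : ({p, n false} : Finset V) ≠ {p, n true} := fun e' => by
      have h2 : n false ∈ ({p, n true} : Finset V) := e' ▸ by simp
      simp [h.ne, (h.adj_SAn1 false).2.ne'] at h2
    have h2 := congrFun e {p, n false}
    simp [mpt, h1] at h2
  · rw [h.rz_SAn1]
    cases i
    exacts [Or.inl rfl, Or.inr rfl]
  · rw [rz_inter, ← h.rz_SAn1, ← nb_inter_nb]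
    exact subset_rfl
  · rw [← rz_union]
    · congr 1
      refine Set.Subset.antisymm (fun s hs => ?_) (Set.union_subset (fun _ e => e.1) fun _ e => e.1)
      obtain ⟨x, hx⟩ := hs.1
      by_cases e : x = p
      · exact Or.inl ⟨hs, x, hx, e⟩
      · exact Or.inr ⟨hs, x, hx, hs.2.1 hx, e⟩
    · rintro s ⟨⟨h1, x, hx, h2⟩, h3⟩ t ⟨⟨h4, y, hy, h5⟩, h6⟩ (e | e)
      · exact h6 ⟨h4, x, e.1 hx, h2⟩
      · exact h3 ⟨h1, y, e.1 hy, h5⟩

theorem Ann.con (h : Ann G a m) : Con G a := by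
  refine (IsIso.con (cap_iso m a)).2
    ⟨((Cell.nonempty (h.circ false)).mono (h.sub false)).image _, ?_⟩
  have e : capA a (Set.univ : Set Bool) \ Set.range Sum.inr = Sum.inl '' a := by
    ext (x | x) <;> simp [capA]
  rw [← e]
  refine rem_many_pre ?_ (Cell.con h.cap).2 fun v hv => (Cell.mfa h.cap v hv.1).con.2
  rintro _ ⟨i, rfl⟩ _ ⟨j, rfl⟩
  exact id

theorem path_SAn1 {Z : Set V} (h : Reach G Z p q) (hq : q ∈ Z) :
    ∃ (k : ℕ) (x : ℕ → V), x 0 = p ∧ x k = q ∧ (∀ i ≤ k, x i ∈ Z) ∧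
      (∀ i ≤ k, ∀ j ≤ k, x i = x j → i = j) ∧
      ∀ i ≤ k, ∀ j ≤ k, G.Adj (x i) (x j) ↔ (i + 1 = j ∨ j + 1 = i) := by
  let H : SimpleGraph V :=
    { Adj := fun u w => u ∈ Z ∧ w ∈ Z ∧ G.Adj u w
      symm := ⟨fun _ _ e => ⟨e.2.1, e.1, e.2.2.symm⟩⟩
      loopless := ⟨fun _ e => G.irrefl e.2.2⟩ }
  obtain ⟨w, hw⟩ := ((H.reachable_iff_reflTransGen p q).2 h).exists_walk_length_eq_dist
  have h1 : ∀ i < w.length, H.Adj (w.getVert i) (w.getVert (i + 1)) := fun i => w.adj_getVert_succ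
  have h2 : ∀ i ≤ w.length, w.getVert i ∈ Z := fun i hi => by
    rcases hi.lt_or_eq with e | e
    · exact (h1 i e).1
    · rwa [e, w.getVert_length]
  have h3 : ∀ i ≤ w.length, ∀ j ≤ w.length, G.Adj (w.getVert i) (w.getVert j) → j ≤ i + 1 :=
    fun i hi j hj e => by
      have := H.dist_le ((w.take i).append
        (SimpleGraph.Walk.cons ⟨h2 i hi, h2 j hj, e⟩ (w.drop j)))
      rw [SimpleGraph.Walk.length_append, SimpleGraph.Walk.length_cons,
        SimpleGraph.Walk.take_length, SimpleGraph.Walk.drop_length] at this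
      omega
  refine ⟨w.length, w.getVert, w.getVert_zero, w.getVert_length, h2,
    fun i hi j hj => (w.isPath_of_length_eq_dist hw).getVert_injOn hi hj,
    fun i hi j hj => ⟨fun e => ?_, ?_⟩⟩
  · have a1 := h3 i hi j hj e
    have a2 := h3 j hj i hi e.symm
    have a3 : i ≠ j := fun e' => e.ne (e' ▸ rfl)
    omega
  · rintro (rfl | rfl)
    exacts [(h1 i hj).2.2, (h1 j hi).2.2.symm]

theorem ball_SAn1 {T : Set V} {k : ℕ} {x : ℕ → V} (hk : 2 ≤ k)
    (h1 : ∀ i ≤ k, ∀ j ≤ k, x i = x j → i = j)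
    (h2 : ∀ i ≤ k, ∀ j ≤ k, G.Adj (x i) (x j) ↔ (i + 1 = j ∨ j + 1 = i))
    (h3 : ∀ i ≤ k, x i ∈ T ↔ (i = 0 ∨ i = k)) : Ball G 2 (x '' Set.Iic k) T := by
  have l1 : ∀ i ≤ k, Lk G (x '' Set.Iic k) {x i} = x '' {j | j ≤ k ∧ (i + 1 = j ∨ j + 1 = i)} :=
    fun i hi => by
      ext y
      rw [mem_lk_H1]
      exact ⟨fun ⟨⟨j, hj, e⟩, e'⟩ => ⟨j, ⟨hj, (h2 i hi j hj).1 (e ▸ e')⟩, e⟩,
        fun ⟨j, hj, e⟩ => ⟨⟨j, hj.1, e⟩, e ▸ (h2 i hi j hj.1).2 hj.2⟩⟩
  have hm : Mf G 1 (x '' Set.Iic k) T := by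
    rintro _ ⟨i, hi, rfl⟩
    replace hi : i ≤ k := hi
    rw [l1 i hi]
    by_cases e : i = 0 ∨ i = k
    · obtain ⟨j, hj, e'⟩ : ∃ j, ¬ (j = 0 ∨ j = k) ∧
          {j | j ≤ k ∧ (i + 1 = j ∨ j + 1 = i)} = {j} := by
        rcases e with rfl | rfl
        · exact ⟨1, by omega, by ext; simp; omega⟩
        · exact ⟨i - 1, by omega, by ext; simp; omega⟩
      have hj' : j ∈ {j | j ≤ k ∧ (i + 1 = j ∨ j + 1 = i)} := e' ▸ rfl
      rw [e', Set.image_singleton]
      exact Cell.congr (ball_one.2 ⟨_, rfl, fun c => hj ((h3 j hj'.1).1 c)⟩) fun s _ => by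
        simp [sub, Set.insert_subset_iff, (h3 i hi).2 e]
    · have e' : {j | j ≤ k ∧ (i + 1 = j ∨ j + 1 = i)} = {i - 1, i + 1} := by
        ext
        simp
        omega
      rw [e', Set.image_pair]
      refine Cell.congr (sph_one.2 ⟨Set.ncard_pair fun c => ?_, ?_⟩) fun s _ =>
        ⟨False.elim, fun c => e ((h3 i hi).1 (c (by simp)))⟩
      · have := h1 _ (by omega) _ (by omega) c
        omega
      · rintro _ (rfl | rfl) _ (rfl | rfl) c <;>
          have := (h2 _ (by omega) _ (by omega)).1 c <;> omega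
  have h0 : x 0 ∈ x '' Set.Iic k := ⟨0, Nat.zero_le k, rfl⟩
  have hc : ∀ i ≤ k, Reach G (x '' Set.Iic k) (x i) (x 0) := fun i => by
    induction i with
    | zero => exact fun _ => Reach.refl _
    | succ i ih =>
      exact fun hi => (Reach.single (Set.mem_image_of_mem x (Set.mem_Iic.2 hi))
        (Set.mem_image_of_mem x (Set.mem_Iic.2 (Nat.le_of_succ_le hi)))
        (Or.inr ((h2 _ hi i (by omega)).2 (Or.inr rfl)))).trans (ih (by omega))
  exact ((mf_one_cell hm ((Set.finite_Iic k).image x) ⟨⟨_, h0⟩, pre_of_base (x := x 0) (by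
    rintro _ ⟨i, hi, rfl⟩
    exact hc i hi)⟩).resolve_left fun e =>
      Set.eq_empty_iff_forall_notMem.1 e.1 _ ⟨h0, (h3 0 (Nat.zero_le k)).2 (Or.inl rfl)⟩).2

theorem Ann.acr (h : Ann G a m) (hp : p ∈ m false) (hq : q ∈ m true) : ∃ l, Acr G a m p q l := by
  have h1 : Con G (a \ (m false ∪ m true)) := (Mfa.rem_bd h.mf (by omega)
    (((Cell.finite (h.circ false)).union (Cell.finite (h.circ true))).inter_of_right a)
    fun s hs x hx => (hs.2.1 hx).2).con.2 h.con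
  obtain ⟨u, hu⟩ := (h.mf.ball_lk (h.sub _ hp) (Or.inl hp)).interior
  obtain ⟨w, hw⟩ := (h.mf.ball_lk (h.sub _ hq) (Or.inr hq)).interior
  have hI : a \ (m false ∪ m true) ⊆ insert p (insert q (a \ (m false ∪ m true))) :=
    (Set.subset_insert _ _).trans (Set.subset_insert _ _)
  have hu' : u ∈ a \ (m false ∪ m true) := ⟨hu.1.1, hu.2⟩
  have hw' : w ∈ a \ (m false ∪ m true) := ⟨hw.1.1, hw.2⟩
  obtain ⟨k, x, rfl, rfl, h2, h3, h4⟩ := path_SAn1 ((Reach.single (Set.mem_insert p _) (hI hu')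
    (Or.inr (mem_lk_H1.1 hu.1).2)).trans (((h1.2 u hu' w hw').mono hI).trans (Reach.single (b := q)
      (hI hw') (Or.inr (Or.inl rfl)) (Or.inr (mem_lk_H1.1 hw.1).2.symm)))) (Or.inr (Or.inl rfl))
  have hk : 2 ≤ k := by
    by_contra c
    refine h.far _ hp _ hq ?_
    obtain rfl | rfl : k = 0 ∨ k = 1 := by omega
    exacts [Or.inl rfl, Or.inr ((h4 0 (by omega) 1 le_rfl).2 (Or.inl rfl))]
  have h5 : ∀ i ≤ k, x i ∈ m false ∪ m true → i = 0 ∨ i = k := fun i hi c => by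
    rcases h2 i hi with e | e | e
    exacts [Or.inl (h3 _ hi _ (by omega) e), Or.inr (h3 _ hi _ le_rfl e), absurd c e.2]
  have hd := Set.disjoint_left.1 h.far.disjoint
  refine ⟨x '' Set.Iic k, ?_, ball_SAn1 hk h3 h4 fun i hi => ⟨h5 i hi, ?_⟩,
    Set.eq_singleton_iff_unique_mem.2 ⟨⟨⟨0, Nat.zero_le k, rfl⟩, hp⟩, ?_⟩,
    Set.eq_singleton_iff_unique_mem.2 ⟨⟨⟨k, le_refl k, rfl⟩, hq⟩, ?_⟩⟩
  · rintro _ ⟨i, hi, rfl⟩
    rcases h2 i hi with e | e | e
    exacts [e ▸ h.sub _ hp, e ▸ h.sub _ hq, e.1]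
  · rintro (rfl | rfl)
    exacts [Or.inl hp, Or.inr hq]
  · rintro _ ⟨⟨i, hi, rfl⟩, c⟩
    rcases h5 i hi (Or.inl c) with rfl | rfl
    exacts [rfl, absurd hq (hd c)]
  · rintro _ ⟨⟨i, hi, rfl⟩, c⟩
    rcases h5 i hi (Or.inr c) with rfl | rfl
    exacts [absurd c (hd hp), rfl]

end Pool.Agent.MP_6374aa_g

end

section

/-! Cutting an annulus along an arc. -/

namespace Pool.Agent.MP_6374aa_g

open Pool.Agent.MP_6374aa_gt Classical

variable {V V' : Type} {G : SimpleGraph V} {G' : SimpleGraph V'} {A : Set V} {a : Set V}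
  {m : Bool → Set V} {p q : V} {l : Set V} {n n' : Bool → V} {J : Bool → Set (Finset V)}

theorem diff_SAn2 :
    capA a (Set.univ : Set Bool) \ capA l Set.univ = Sum.inl '' (a \ l) := by
  ext x
  cases x <;> simp [capA]

theorem sub_SAn2 (hl : Acr G a m p q l) : capA l (Set.univ : Set Bool) ⊆ capA a Set.univ :=
  Set.union_subset_union_left _ (Set.image_mono hl.sub)

theorem end_SAn2 (hl : Acr G a m p q l) (j : Bool) : l ∩ m j = {cond j q p} := by
  cases j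
  exacts [hl.e0, hl.e1]

theorem pe_SAn2 (hl : Acr G a m p q l) :
    PE (capG G m) (Sum.inl '' l) (capG G m) (capA l Set.univ) id := by
  have e : capA l (Set.univ : Set Bool) \ Set.range Sum.inr = Sum.inl '' l := by
    ext x
    cases x <;> simp [capA]
  rw [← e]
  refine rem_many ?_ ?_
  · rintro _ ⟨i, rfl⟩ _ ⟨j, rfl⟩ k
    exact k
  · rintro _ ⟨-, j, rfl⟩
    have e2 : Lk (capG G m) (capA l Set.univ) {Sum.inr j} = {Sum.inl (cond j q p)} := by
      ext x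
      rw [mem_lk_C1]
      cases x with
      | inl u =>
        have := Set.ext_iff.1 (end_SAn2 hl j) u
        simpa [capA, capG] using this
      | inr i => simp [capG]
    rw [e2]
    exact cone_sco rfl fun x hx => Or.inl hx.symm

theorem conZ_SAn2 (hl : Acr G a m p q l) : Con (capG G m) (capA l Set.univ) :=
  (pe_SAn2 hl).con.1 ((IsIso.con (cap_iso m l)).1 (Cell.con hl.ball))

theorem pre_fr_SAn2 (h : Ann G a m) (hl : Acr G a m p q l) :
    Pre (sG (V ⊕ Bool)) (fr (capG G m) (capA a Set.univ) (capA l Set.univ)) := by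
  have e : capA a (Set.univ : Set Bool) ∩ capA l Set.univ = capA l Set.univ :=
    Set.inter_eq_right.2 (sub_SAn2 hl)
  have hn : NDC (capG G m) (capA l Set.univ) :=
    (pe_SAn2 hl).triv.1 ((IsIso.triv (cap_iso m l)).1 (Cell.arc_sco hl.ball (sub_empty_H3 _) le_rfl).ndc)
  have := bd_pre (Mf.nb_empty (Q := capA l Set.univ) (Sph.mf h.cap) (by norm_num))
    ((sA_finite (Cell.finite h.cap)).subset fun s hs => hs.1)
    (pre_nb.2 (by rw [e]; exact (conZ_SAn2 hl).2)) (triv_nb.2 (by rw [e]; exact hn))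
  exact Set.inter_eq_right.2 (fun s (hs : s ∈ fr _ _ _) => (⟨hs.1, hs.2.1⟩ : s ∈ nb _ _ _)) ▸ this

theorem pre_compl_SAn2 {Z : Set V} (hA : Pre G A) (hZ : (A ∩ Z).Nonempty)
    (hf : Pre (sG V) (fr G A Z)) : Pre G (A \ Z) := by
  obtain ⟨z, hz⟩ := hZ
  have : Nonempty V := ⟨z⟩
  have hm : ∀ s ∈ fr G A Z, Meets s Zᶜ := fun s hs => by
    obtain ⟨x, h1, h2⟩ := Set.not_subset.1 hs.2.2
    exact ⟨x, h1, h2⟩
  have hπ : ∀ s ∈ fr G A Z, pk Zᶜ s ∈ s ∧ pk Zᶜ s ∈ A \ Z := fun s hs =>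
    ⟨pk_mem _ hs.1.1, hs.1.2.1 (pk_mem _ hs.1.1), pk_mem_B (hm s hs)⟩
  refine Pre.of_near (hf.image (isHom_pick (fun s hs => hs.1) hπ)) ?_ fun y hy => ?_
  · rintro _ ⟨s, hs, rfl⟩
    exact (hπ s hs).2
  · obtain ⟨u, hu, w, hw, huw, hr⟩ := Reach.exit (X := Zᶜ) (hA y hy.1 z hz.1) hy (not_not.2 hz.2)
    have hw' : w ∈ Z := not_not.1 hw.2
    have hs : ({u, w} : Finset V) ∈ fr G A Z :=
      ⟨pair_mem_sA hu.1 hw.1 (Or.inr huw), ⟨w, by simp, hw'⟩, fun k => hu.2 (k (by simp))⟩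
    refine ⟨u, ⟨_, hs, ?_⟩, hr⟩
    obtain ⟨h1, -, h2⟩ := hπ _ hs
    rcases Finset.mem_insert.1 h1 with e | e
    · exact e
    · exact (h2 (by rw [Finset.mem_singleton.1 e]; exact hw')).elim

theorem Acr.compl (h : Ann G a m) (hl : Acr G a m p q l) : Con G (a \ l) ∧ NDC G (a \ l) := by
  have hc := conZ_SAn2 hl
  refine ⟨⟨?_, (IsIso.pre (cap_iso m _)).2 ?_⟩, (IsIso.triv (cap_iso m _)).2 ?_⟩
  · have hp : p ∈ l ∩ m false := hl.e0 ▸ rfl
    obtain ⟨x, hx⟩ := Set.nonempty_of_ncard_ne_zero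
      (s := Lk G (m false) {p}) (by rw [sph_card_H1 (h.circ false) hp.2]; norm_num)
    rw [mem_lk_C1] at hx
    refine ⟨x, h.sub _ hx.1, fun k => hx.2.ne' ?_⟩
    have : x ∈ l ∩ m false := ⟨k, hx.1⟩
    rwa [hl.e0] at this
  · rw [← diff_SAn2]
    exact pre_compl_SAn2 (Cell.con h.cap).2
      (by rw [Set.inter_eq_right.2 (sub_SAn2 hl)]; exact hc.1) (pre_fr_SAn2 h hl)
  · rw [← diff_SAn2]
    exact Cell.compl_ndc h.cap (sub_SAn2 hl) hc (Or.inl not_false)

theorem left_SAn2 {s : Finset (V ⊕ Bool)}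
    (hs : s ∈ fr (capG G m) (capA a Set.univ) (capA l Set.univ)) (hj : ∀ j, Sum.inr j ∉ s) :
    s.toLeft ∈ fr G a l := by
  obtain ⟨h1, ⟨x, hx, hx'⟩, h3⟩ := hs
  rw [mem_sA] at h1
  obtain ⟨u, rfl⟩ : ∃ u, x = Sum.inl u := by
    cases x with
    | inl u => exact ⟨u, rfl⟩
    | inr j => exact (hj j hx).elim
  refine ⟨mem_sA.2 ⟨⟨u, Finset.mem_toLeft.2 hx⟩, fun v hv => ?_, fun v hv w hw => ?_⟩,
    ⟨u, Finset.mem_toLeft.2 hx, by simpa [capA] using hx'⟩, fun k => h3 fun y hy => ?_⟩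
  · simpa [capA] using h1.2.1 (Finset.mem_toLeft.1 hv)
  · rcases h1.2.2 _ (Finset.mem_toLeft.1 hv) _ (Finset.mem_toLeft.1 hw) with e | e
    · exact Or.inl (Sum.inl_injective e)
    · exact Or.inr e
  · cases y with
    | inl v => exact Or.inl ⟨v, k (Finset.mem_toLeft.2 hy), rfl⟩
    | inr j => exact (hj j hy).elim

theorem right_SAn2 {s : Finset V} (hs : s ∈ fr G a l) :
    s.map ⟨Sum.inl, Sum.inl_injective⟩ ∈ fr (capG G m) (capA a Set.univ) (capA l Set.univ) := by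
  obtain ⟨h1, ⟨x, hx, hx'⟩, h3⟩ := hs
  rw [mem_sA] at h1
  refine ⟨mem_sA.2 ⟨⟨_, Finset.mem_map_of_mem _ hx⟩, fun v hv => ?_, fun v hv w hw => ?_⟩,
    ⟨_, Finset.mem_map_of_mem _ hx, Or.inl ⟨x, hx', rfl⟩⟩, fun k => h3 fun y hy => ?_⟩
  · obtain ⟨u, hu, rfl⟩ := Finset.mem_map.1 hv
    exact Or.inl ⟨u, h1.2.1 hu, rfl⟩
  · obtain ⟨u, hu, rfl⟩ := Finset.mem_map.1 hv
    obtain ⟨u', hu', rfl⟩ := Finset.mem_map.1 hw
    rcases h1.2.2 u hu u' hu' with e | e
    · exact Or.inl (congrArg _ e)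
    · exact Or.inr e
  · simpa [capA] using k (Finset.mem_map_of_mem _ hy)

theorem key_SAn2 (h : Ann G a m) (hl : Acr G a m p q l) {φ : Finset V → Prop} {c : Bool → Prop}
    (h1 : ∀ s ∈ fr G a l, ∀ t ∈ fr G a l, s ⊆ t → (φ s ↔ φ t))
    (h2 : ∀ j, ∀ s ∈ fr G a l, ↑s ⊆ m j → (φ s ↔ c j)) {s t : Finset V} (hs : s ∈ fr G a l)
    (ht : t ∈ fr G a l) : φ s ↔ φ t := by
  let Φ : Finset (V ⊕ Bool) → Prop := fun s =>
    (∃ j, Sum.inr j ∈ s ∧ c j) ∨ ((∀ j, Sum.inr j ∉ s) ∧ φ s.toLeft)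
  have a1 : ∀ s : Finset (V ⊕ Bool), (∀ j, Sum.inr j ∉ s) → (Φ s ↔ φ s.toLeft) := fun s k =>
    ⟨fun e => e.elim (fun ⟨j, e, _⟩ => (k j e).elim) (·.2), fun e => Or.inr ⟨k, e⟩⟩
  have a2 : ∀ s ∈ fr (capG G m) (capA a Set.univ) (capA l Set.univ), ∀ j, Sum.inr j ∈ s →
      (Φ s ↔ c j) := fun s hs j k => by
    refine ⟨fun e => e.elim (fun ⟨i, e, ci⟩ => ?_) fun e => (e.1 j k).elim,
      fun e => Or.inl ⟨j, k, e⟩⟩
    rcases (mem_sA.1 hs.1).2.2 _ e _ k with e' | e'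
    · exact Sum.inr_injective e' ▸ ci
    · exact e'.elim
  have a3 : ∀ s ∈ fr (capG G m) (capA a Set.univ) (capA l Set.univ),
      ∀ t ∈ fr (capG G m) (capA a Set.univ) (capA l Set.univ), s ⊆ t → Φ s = Φ t := by
    intro s hs t ht hst
    refine propext ?_
    by_cases k : ∀ j, Sum.inr j ∉ s
    · rw [a1 s k]
      by_cases k' : ∀ j, Sum.inr j ∉ t
      · rw [a1 t k']
        exact h1 _ (left_SAn2 hs k) _ (left_SAn2 ht k') fun x hx =>
          Finset.mem_toLeft.2 (hst (Finset.mem_toLeft.1 hx))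
      · obtain ⟨j, hj⟩ := not_forall.1 k'
        rw [a2 t ht j (not_not.1 hj)]
        refine h2 j _ (left_SAn2 hs k) fun x hx => ?_
        rcases (mem_sA.1 ht.1).2.2 _ (hst (Finset.mem_toLeft.1 hx)) _ (not_not.1 hj) with e | e
        · exact (Sum.inl_ne_inr e).elim
        · exact e
    · obtain ⟨j, hj⟩ := not_forall.1 k
      rw [a2 s hs j (not_not.1 hj), a2 t ht j (hst (not_not.1 hj))]
  have a4 : ∀ s : Finset V, Φ (s.map ⟨Sum.inl, Sum.inl_injective⟩) ↔ φ s := fun s => by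
    rw [a1 _ (by simp)]
    have : (s.map ⟨Sum.inl, Sum.inl_injective⟩ : Finset (V ⊕ Bool)).toLeft = s := by
      ext x
      simp
    rw [this]
  rw [← a4, ← a4]
  exact iff_of_eq ((pre_fr_SAn2 h hl).const (φ := Φ) (fun s hs t ht k => k.elim
    (fun e => a3 s hs t ht e.1) fun e => (a3 t ht s hs e.1).symm) (right_SAn2 hs) (right_SAn2 ht))

theorem four_SAn2 {α : Type} {S : Set α} {P Q : Bool → α}
    (hS : ∀ x ∈ S, (∃ i, x = P i) ∨ ∃ i, x = Q i)
    (hPQ : ∀ i j, P i ≠ Q j) (h2 : S.ncard = 2)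
    (hn : ¬ ((P false ∈ S ↔ P true ∈ S) ∧ (Q false ∈ S ↔ Q true ∈ S))) :
    ∃ i j, S = {P i, Q j} := by
  obtain ⟨x, y, hxy, rfl⟩ := Set.ncard_eq_two.1 h2
  rcases hS x (by simp) with ⟨i, rfl⟩ | ⟨i, rfl⟩ <;> rcases hS y (by simp) with ⟨j, rfl⟩ | ⟨j, rfl⟩
  · exfalso
    cases i <;> cases j <;> simp [fun i j => (hPQ i j).symm] at hn hxy
  · exact ⟨i, j, rfl⟩
  · exact ⟨j, i, Set.pair_comm _ _⟩
  · exfalso
    cases i <;> cases j <;> simp [hPQ] at hn hxy

theorem bd_SAn2 {c : Set V} (hc : c ⊆ a) (e : l ∩ c = {p}) (hp : Mk G c p n) {s : Finset V} :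
    (s ∈ fr G a l ∧ ↑s ⊆ c) ↔ ∃ i, s = {p, n i} := by
  have e1 : ∀ x ∈ c, (x ∈ l ↔ x = p) := fun x hx => by
    have := Set.ext_iff.1 e x
    simpa [hx] using this
  have e2 : (s ∈ fr G a l ∧ ↑s ⊆ c) ↔ s ∈ fr G c {p} := by
    constructor
    · rintro ⟨⟨h1, ⟨x, hx, hx'⟩, h3⟩, h4⟩
      exact ⟨⟨h1.1, h4, h1.2.2⟩, ⟨x, hx, (e1 x (h4 hx)).1 hx'⟩,
        fun k => h3 fun y hy => (e1 y (h4 hy)).2 (k hy)⟩
    · rintro ⟨h1, ⟨x, hx, hx'⟩, h3⟩
      exact ⟨⟨sA_mono hc h1, ⟨x, hx, (e1 x (h1.2.1 hx)).2 hx'⟩,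
        fun k => h3 fun y hy => (e1 y (h1.2.1 hy)).1 (k hy)⟩, h1.2.1⟩
  rw [e2, (hp.arc false).2]
  simp [Bool.exists_bool]

theorem ne_SAn2 {c : Set V} (hp : Mk G c p n) : ({p, n false} : Finset V) ≠ {p, n true} := by
  intro e
  have h1 : n false ∈ Lk G c {p} := by rw [hp.lk]; simp
  have h2 : n false ∈ ({p, n true} : Finset V) := e ▸ by simp
  rcases Finset.mem_insert.1 h2 with k | k
  · exact (mem_lk_C1.1 h1).2.ne' k
  · exact hp.ne (Finset.mem_singleton.1 k)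

theorem Acr.sds (h : Ann G a m) (hl : Acr G a m p q l) (hp : Mk G (m false) p n)
    (hq : Mk G (m true) q n') : ∃ b J, Sds G a m p q l n (fun i => n' (xor i b)) J := by
  have bP := fun s => bd_SAn2 (s := s) (h.sub false) hl.e0 hp
  have bQ := fun s => bd_SAn2 (s := s) (h.sub true) hl.e1 hq
  have mP := fun i => (bP _).2 ⟨i, rfl⟩
  have mQ := fun i => (bQ _).2 ⟨i, rfl⟩
  have hPQ : ∀ i j, ({p, n i} : Finset V) ≠ {q, n' j} := fun i j e =>
    h.far p hp.mem p ((mQ j).2 (e ▸ by simp)) (Or.inl rfl)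
  have hfin : (fr G a l).Finite :=
    (sA_finite (Set.Finite.of_finite_image (f := (Sum.inl : V → V ⊕ Bool))
      ((Cell.finite h.cap).subset Set.subset_union_left) Sum.inl_injective.injOn)).subset
      fun s hs => hs.1
  have hF : Mf (sG V) 1 (fr G a l) (ins (m false ∪ m true)) := Mf.fr h.mf (by norm_num)
  have tP : ∀ i, ({p, n i} : Finset V) ∈ ins (m false ∪ m true) := fun i =>
    (mP i).2.trans Set.subset_union_left
  have tQ : ∀ i, ({q, n' i} : Finset V) ∈ ins (m false ∪ m true) := fun i =>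
    (mQ i).2.trans Set.subset_union_right
  have main : ∀ x ∈ fr G a l, Ball (sG V) 2 (cmp (sG V) (fr G a l) x) (ins (m false ∪ m true)) ∧
      ∃ i j, cmp (sG V) (fr G a l) x ∩ ins (m false ∪ m true) = {{p, n i}, {q, n' j}} := by
    intro x hx
    set C := cmp (sG V) (fr G a l) x with hC
    have hcl : Clopen (sG V) (fr G a l) C := clopen_cmp x
    have h4 : ∀ s ∈ C ∩ ins (m false ∪ m true), (∃ i, s = {p, n i}) ∨ ∃ i, s = {q, n' i} := by
      intro s hs
      have hs' := hcl.1 hs.1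
      have hne : NE G (m false) (m true) := fun u hu w hw k => h.far u hu.1 w hw.1 (Or.inr k)
      rcases hne.clique (s := s) ⟨hs.2, hs'.1.2.2⟩ with k | k
      · exact Or.inl ((bP s).1 ⟨hs', k⟩)
      · exact Or.inr ((bQ s).1 ⟨hs', k⟩)
    have hall : (({p, n false} : Finset V) ∈ C ↔ ({p, n true} : Finset V) ∈ C) →
        (({q, n' false} : Finset V) ∈ C ↔ ({q, n' true} : Finset V) ∈ C) →
        ∀ s ∈ fr G a l, s ∈ C := by
      intro k1 k2 s hs
      refine (key_SAn2 h hl (φ := (· ∈ C))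
        (c := fun j => cond j ({q, n' false} ∈ C) ({p, n false} ∈ C)) ?_ ?_ hx hs).1
        (mem_cmp_self hx)
      · intro s hs t ht hst
        have r := Reach.single hs ht (adq_sG.2 (Or.inl hst))
        exact ⟨fun k => ⟨ht, k.2.trans r⟩, fun k => ⟨hs, k.2.trans r.symm⟩⟩
      · intro j s hs hj
        cases j
        · obtain ⟨i, rfl⟩ := (bP s).1 ⟨hs, hj⟩
          cases i
          exacts [Iff.rfl, k1.symm]
        · obtain ⟨i, rfl⟩ := (bQ s).1 ⟨hs, hj⟩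
          cases i
          exacts [Iff.rfl, k2.symm]
    rcases mf_one_cell (Mfa.clopen (Mfa.mono hF hcl.1) hcl) (hfin.subset hcl.1) (con_cmp hx) with
      ⟨e, -⟩ | ⟨-, hb⟩
    · have k : ∀ s ∈ ins (m false ∪ m true), s ∉ C := fun s hs k =>
        Set.eq_empty_iff_forall_notMem.1 e s ⟨k, hs⟩
      exact (k _ (tP false) (hall (iff_of_false (k _ (tP _)) (k _ (tP _)))
        (iff_of_false (k _ (tQ _)) (k _ (tQ _))) _ (mP false).1)).elim
    · have h2 : (C ∩ ins (m false ∪ m true)).ncard = 2 := by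
        rw [← Cell.arc_ends hb (sub_empty_H3 _)]
        congr 1
        ext s
        simp [Pool.Agent.MP_6374aa_g.sub]
      refine ⟨hb, four_SAn2 (P := fun i => {p, n i}) (Q := fun i => {q, n' i}) h4
        hPQ h2 fun k => ?_⟩
      have k' := hall (by simpa [tP] using k.1) (by simpa [tQ] using k.2)
      obtain ⟨u, w, -, e⟩ := Set.ncard_eq_two.1 h2
      have i1 : ({p, n false} : Finset V) ∈ ({u, w} : Set (Finset V)) :=
        e ▸ ⟨k' _ (mP _).1, tP _⟩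
      have i2 : ({p, n true} : Finset V) ∈ ({u, w} : Set (Finset V)) :=
        e ▸ ⟨k' _ (mP _).1, tP _⟩
      have i3 : ({q, n' false} : Finset V) ∈ ({u, w} : Set (Finset V)) :=
        e ▸ ⟨k' _ (mQ _).1, tQ _⟩
      rcases i1 with i1 | i1 <;> rcases i2 with i2 | i2 <;> rcases i3 with i3 | i3 <;>
        first
        | exact ne_SAn2 hp (i1.trans i2.symm)
        | exact hPQ _ _ (i1.trans i3.symm)
        | exact hPQ _ _ (i2.trans i3.symm)
  have hinj : ∀ i j, ({p, n i} : Finset V) = {p, n j} → i = j := by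
    intro i j e
    cases i <;> cases j
    exacts [rfl, (ne_SAn2 hp e).elim, (ne_SAn2 hp e.symm).elim, rfl]
  have ends : ∀ i, ∃ j, cmp (sG V) (fr G a l) {p, n i} ∩ ins (m false ∪ m true) =
      {{p, n i}, {q, n' j}} := by
    intro i
    obtain ⟨-, i', j, e⟩ := main _ (mP i).1
    have : ({p, n i} : Finset V) ∈ ({{p, n i'}, {q, n' j}} : Set (Finset V)) :=
      e ▸ ⟨mem_cmp_self (mP i).1, tP i⟩
    rcases this with k | k
    · exact ⟨j, by rw [e, hinj _ _ k]⟩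
    · exact (hPQ _ _ k).elim
  obtain ⟨b, e0⟩ := ends false
  obtain ⟨b', e1⟩ := ends true
  have hfar : Far (sG V) (cmp (sG V) (fr G a l) {p, n false}) (cmp (sG V) (fr G a l) {p, n true}) := by
    refine (cmp_eq_or_far _ _).resolve_left fun e => ?_
    have : ({p, n true} : Finset V) ∈ ({{p, n false}, {q, n' b}} : Set (Finset V)) :=
      e0 ▸ ⟨e ▸ mem_cmp_self (mP true).1, tP true⟩
    rcases this with k | k
    · exact ne_SAn2 hp k.symm
    · exact hPQ _ _ k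
  have hb : b' = !b := by
    have k0 : ({q, n' b} : Finset V) ∈ cmp (sG V) (fr G a l) {p, n false} ∩
      ins (m false ∪ m true) := e0 ▸ by simp
    have k1 : ({q, n' b'} : Finset V) ∈ cmp (sG V) (fr G a l) {p, n true} ∩
      ins (m false ∪ m true) := e1 ▸ by simp
    refine Bool.eq_not_iff.2 fun e => hfar _ k0.1 _ k1.1 (Or.inl (by rw [e]))
  refine ⟨b, fun i => cmp (sG V) (fr G a l) {p, n i}, fun i => (main _ (mP i).1).1, fun i => ?_,
    hfar, Set.Subset.antisymm (fun x hx => ?_)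
      (Set.union_subset (cmp_subset _) (cmp_subset _))⟩
  · cases i
    · simpa using e0
    · simpa [hb] using e1
  · obtain ⟨-, i, j, e⟩ := main x hx
    have k : ({p, n i} : Finset V) ∈ cmp (sG V) (fr G a l) x ∩ ins (m false ∪ m true) :=
      e ▸ by simp
    have k2 : x ∈ cmp (sG V) (fr G a l) {p, n i} := cmp_eq_of_mem k.1 ▸ mem_cmp_self hx
    cases i
    exacts [Or.inl k2, Or.inr k2]

end Pool.Agent.MP_6374aa_g

end

section

/-! Directions along arcs and along the boundary of a surface. -/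

namespace Pool.Agent.MP_6374aa_g

open Pool.Agent.MP_6374aa_gt Classical

variable {V V' : Type} {G : SimpleGraph V} {G' : SimpleGraph V'} {A : Set V} {a : Set V}
  {m : Bool → Set V} {p q : V} {l : Set V} {n n' : Bool → V} {J : Bool → Set (Finset V)}

theorem arc_dir {β : Finset V → Prop} (h : Cell G 2 A β) {α : Type}
    (hα : ∀ r s t : α, r ≠ s → s ≠ t → r = t) (D : V → V → α)
    (h1 : ∀ u ∈ A, ∀ w ∈ A, G.Adj u w → D u w ≠ D w u)
    (h2 : ∀ u ∈ A, ∀ y ∈ Lk G A {u}, ∀ z ∈ Lk G A {u}, y ≠ z → D u y ≠ D u z) {P Q : V} (hP : P ∈ A)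
    (hQ : Q ∈ A) (bP : β {P}) (bQ : β {Q}) (hne : P ≠ Q) {y z : V} (hy : y ∈ Lk G A {P})
    (hz : z ∈ Lk G A {Q}) : D P y ≠ D Q z := by
  intro e
  have hm : Mfa G 1 A β A := h.2.2.2
  have hb : β ∅ := h.2.2.1.2 (by simpa using ⟨P, hP, bP⟩)
  have k1 : ({P, Q} : Set V) = {v | v ∈ A ∧ β {v}} :=
    Set.eq_of_subset_of_ncard_le (Set.pair_subset ⟨hP, bP⟩ ⟨hQ, bQ⟩)
      (by rw [h.arc_ends hb, Set.ncard_pair hne]) (h.1.subset fun _ k => k.1)
  have k2 : ∀ u ∈ A, ∃ w ∈ Lk G A {u}, D u w = D P y := fun u hu => by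
    rcases card_H1 hm hu with ⟨c1, -⟩ | ⟨-, c2⟩
    · obtain rfl | rfl : u ∈ ({P, Q} : Set V) := k1 ▸ ⟨hu, c1⟩
      exacts [⟨y, hy, rfl⟩, ⟨z, hz, e.symm⟩]
    · obtain ⟨a, b, hab, c3⟩ := Set.ncard_eq_two.1 c2
      have ha : a ∈ Lk G A {u} := c3 ▸ Or.inl rfl
      have hb : b ∈ Lk G A {u} := c3 ▸ Or.inr rfl
      by_contra hc
      exact h2 u hu a ha b hb hab (hα _ _ _ (fun c => hc ⟨a, ha, c⟩) fun c => hc ⟨b, hb, c.symm⟩)
  choose! f f1 f2 using k2
  have k3 : ∀ u ∈ A, u ∈ Lk G A {f u} ∧ D (f u) u ≠ D P y := fun u hu =>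
    ⟨mem_lk_H1.2 ⟨hu, (mem_lk_H1.1 (f1 u hu)).2.symm⟩,
      f2 u hu ▸ (h1 u hu _ (f1 u hu).1 (mem_lk_H1.1 (f1 u hu)).2).symm⟩
  have k4 : Set.InjOn f A := fun u hu w hw c => by
    by_contra hc
    have c1 := k3 w hw
    rw [← c] at c1
    exact h2 _ (f1 u hu).1 u (k3 u hu).1 w c1.1 hc (hα _ _ _ (k3 u hu).2 c1.2.symm)
  obtain ⟨u, hu, c⟩ := ((h.1.injOn_iff_bijOn_of_mapsTo fun u hu => (f1 u hu).1).1 k4).surjOn hP
  have c1 := k3 u hu
  rw [c] at c1
  obtain ⟨a, ha⟩ := Set.ncard_eq_one.1 ((card_H1 hm hP).resolve_right fun c => c.1 bP).2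
  rw [ha] at c1 hy
  exact c1.2 (by rw [c1.1, hy])

/-- The colours of the triangles on the two boundary edges at a vertex. -/
theorem bd_dir {β : Finset V → Prop} (h : Mfa G 2 A β A) {c : V → ℕ} (hc : Bal G 2 A c)
    {o : Finset V → Z2} (ho : Alt G 2 A A o) {u y z : V} (hu : u ∈ A) (hy : y ∈ Lk G A {u})
    (hz : z ∈ Lk G A {u}) (hne : y ≠ z) (by' : β {u, y}) (bz : β {u, z}) {s t : V}
    (hs : s ∈ Lk G A ({u, y} : Finset V)) (ht : t ∈ Lk G A ({u, z} : Finset V)) :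
    o (insert s {u, y}) = o (insert t {u, z}) ↔ c y ≠ c z := by
  have l1 : ∀ a b, b ∈ Lk G A ({u, a} : Finset V) ↔ b ∈ Lk G (Lk G A {u}) {a} := fun a b => by
    simp [Lk, and_assoc]
  have l2 : ∀ a ∈ Lk G A {u}, ∀ b ∈ Lk G (Lk G A {u}) {a},
      c u ≤ 2 ∧ c a ≤ 2 ∧ c b ≤ 2 ∧ c u ≠ c a ∧ c u ≠ c b ∧ c a ≠ c b := fun a ha b hb =>
    ⟨hc.1 u hu, hc.1 a ha.1, hc.1 b hb.1.1, hc.2 u hu a ha.1 (mem_lk_H1.1 ha).2,
      hc.2 u hu b hb.1.1 (mem_lk_H1.1 hb.1).2, hc.2 a ha.1 b hb.1.1 (mem_lk_H1.1 hb).2⟩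
  have z1 : ∀ r s t : Z2, r ≠ s → s ≠ t → r = t := by decide
  have z2 : ∀ r : Z2, r * neg ≠ r * 1 := by decide
  have z3 : ∀ r s : Z2, r * neg ≠ s * 1 → r = s := by decide
  have key := arc_dir (h u hu) z1
    (fun a b => o (insert b {u, a}) * if c a < c b then neg else 1) (fun a ha b hb hab => ?_)
    (fun a ha b hb b' hb' hbb => ?_) hy hz by' bz hne ((l1 y s).1 hs) ((l1 z t).1 ht)
  · have a1 := l2 y hy s ((l1 y s).1 hs)
    have a2 := l2 z hz t ((l1 z t).1 ht)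
    beta_reduce at key
    by_cases e : c y = c z
    · rw [e, show c s = c t by omega] at key
      exact iff_of_false (fun k => key (by rw [k])) fun k => k e
    · refine iff_of_true ?_ e
      by_cases e' : c y < c s
      · rw [if_pos e', if_neg (by omega)] at key
        exact z3 _ _ key
      · rw [if_neg e', if_pos (by omega)] at key
        exact (z3 _ _ key.symm).symm
  · have a1 := l2 a ha b (mem_lk_H1.2 ⟨hb, hab⟩)
    have e : (insert b {u, a} : Finset V) = insert a {u, b} := by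
      rw [Finset.insert_comm b u, Finset.insert_comm a u, Finset.pair_comm]
    rw [e]
    by_cases e' : c a < c b
    · rw [if_pos e', if_neg (by omega)]
      exact z2 _
    · rw [if_neg e', if_pos (by omega)]
      exact (z2 _).symm
  · have a1 := l2 a ha b hb
    have a2 := l2 a ha b' hb'
    have a3 := (mem_lk_H1.1 ha).2
    rw [show c b = c b' by omega]
    refine fun k => ho {u, a} ⟨by simp, ?_, ?_⟩ (Finset.card_pair a3.ne) ⟨u, by simp, hu⟩ b
      ((l1 a b).2 hb) b' ((l1 a b').2 hb') hbb (mul_right_cancel k)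
    · simp [Set.insert_subset_iff, hu, ha.1]
    · simp [a3]

end Pool.Agent.MP_6374aa_g

end

section

/-! The squares and the colours. -/

namespace Pool.Agent.MP_6374aa_g

open Pool.Agent.MP_6374aa_gt Classical

variable {V V' : Type} {G : SimpleGraph V} {G' : SimpleGraph V'} {A : Set V} {a : Set V}
  {m : Bool → Set V} {p q : V} {l : Set V} {n n' : Bool → V} {J : Bool → Set (Finset V)}

theorem fin_SAn3 (h : Ann G a m) : a.Finite :=
  Set.Finite.of_finite_image (f := (Sum.inl : V → V ⊕ Bool))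
    ((Cell.finite h.cap).subset Set.subset_union_left) Sum.inl_injective.injOn

theorem disc_SAn3 {T Q : Set V} (h : Mf G 2 A T) (hf : A.Finite) (hQ : Q ⊆ A) (hc : Con G Q)
    (hn : NDC G Q) {y : V} (hy : y ∈ Q) (hT : y ∈ T) :
    Cell (sG V) 3 (nb G A Q) fun s => s = ∅ ∨ ↑s ⊆ ins T ∨ ↑s ⊆ fr G A Q := by
  have e : A ∩ Q = Q := Set.inter_eq_right.2 hQ
  have hy' : ({y} : Finset V) ∈ nb G A Q :=
    ⟨singleton_mem_sA.2 (hQ hy), y, Finset.mem_singleton_self y, hy⟩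
  refine cell_three ((sA_finite hf).subset fun _ k => k.1) ⟨⟨_, hy'⟩, pre_nb.2 (e.symm ▸ hc.2)⟩
    (triv_nb.2 (e.symm ▸ hn)) (Mfa.congr (Mfa.nb (Mfa.mono h Set.inter_subset_left) (by omega))
      subset_rfl fun s hs => ?_) (iff_of_true (Or.inl rfl) ⟨_, hy', Or.inr (Or.inl ?_)⟩)
  · rw [or_iff_right hs.1.ne_empty, ← top_subset_iff]
    rfl
  · simpa [ins] using hT

theorem Acr.disc (h : Ann G a m) (hl : Acr G a m p q l) (k : Bool) :
    Cell (sG V) 3 (nbs G a l k) fun s => s = ∅ ∨ ↑s ⊆ ins (m false ∪ m true) ∨ ↑s ⊆ fr G a l := by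
  have hp : p ∈ l ∩ m false := hl.e0 ▸ rfl
  cases k
  · exact disc_SAn3 h.mf (fin_SAn3 h) hl.sub (Cell.con hl.ball)
      (Cell.arc_sco hl.ball (sub_empty_H3 _) le_rfl).ndc hp.1 (Or.inl hp.2)
  · obtain ⟨x, hx⟩ := Set.nonempty_of_ncard_ne_zero
      (s := Lk G (m false) {p}) (by rw [sph_card_H1 (h.circ false) hp.2]; norm_num)
    rw [mem_lk_C1] at hx
    have hx' : x ∉ l := fun k => by
      have : x ∈ l ∩ m false := ⟨k, hx.1⟩
      rw [hl.e0] at this
      exact hx.2.ne' this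
    rw [← fr_compl]
    exact disc_SAn3 h.mf (fin_SAn3 h) Set.sdiff_subset (hl.compl h).1 (hl.compl h).2
      ⟨h.sub _ hx.1, hx'⟩ (Or.inl hx.1)

theorem ne_SAn3 {X Y : Set V} (h : Far G X Y) : NE G X Y :=
  fun u hu w hw e => h u hu.1 w hw.1 (Or.inr e)

theorem inter_SAn3 {c : Set V} (hc : c ⊆ a) (e : l ∩ c = {p}) (k : Bool) :
    nbs G a l k ∩ sA G c = nbs G c {p} k := by
  have e' : ∀ x ∈ c, x ∈ l ↔ x = p := fun x hx =>
    ⟨fun k => (e.le ⟨k, hx⟩ :), fun k => (e.ge k).1⟩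
  ext s
  refine ⟨fun ⟨⟨_, x, hx, h1⟩, h2⟩ => ⟨h2, x, hx, ?_⟩,
    fun ⟨h2, x, hx, h1⟩ => ⟨⟨sA_mono hc h2, x, hx, ?_⟩, h2⟩⟩
  · have h3 := e' x (h2.2.1 hx)
    cases k
    exacts [h3.1 h1, ⟨h2.2.1 hx, fun k => h1.2 (h3.2 k)⟩]
  · have h3 := e' x (h2.2.1 hx)
    cases k
    exacts [h3.2 h1, ⟨hc h1.1, fun k => h1.2 (h3.1 k)⟩]

theorem rb_SAn3 {X T U : Set V} : Rz G X ∩ Rb G X (fun s => s = ∅ ∨ ↑s ⊆ T ∨ ↑s ⊆ U) =
    Rz G X ∩ (Rz G T ∪ Rz G U) := by
  ext x
  refine and_congr_right fun hx => ⟨?_, fun k => ?_⟩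
  · rintro ⟨-, s, -, rfl | k | k, h⟩
    · obtain ⟨v, hv⟩ := ne_Rz hx
      exact absurd (h v hv) (Finset.notMem_empty v)
    · exact Or.inl (rz_of_supp hx fun v hv => k (h v hv))
    · exact Or.inr (rz_of_supp hx fun v hv => k (h v hv))
  · obtain ⟨s, hs, h⟩ := rz_supp hx
    exact ⟨hx, s, hs.2, Or.inr (k.imp (fun k v hv => k.2.1 v ((h v).2 hv))
      fun k v hv => k.2.1 v ((h v).2 hv)), fun v hv => (h v).1 hv⟩

theorem pair_SAn3 {c : Set V} (h : Mk G c p n) (i : Bool) : ({p, n i} : Finset V) ∈ sA G c :=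
  pair_mem_sA h.mem (h.adj_SAn1 i).1 (Or.inr (h.adj_SAn1 i).2)

theorem Sds.sqr (h : Ann G a m) (hl : Acr G a m p q l) (hp : Mk G (m false) p n)
    (hq : Mk G (m true) q n') (hs : Sds G a m p q l n n' J) :
    Sqr (Rz (sG V) (sA G a)) (Rz (sG V) (sA G (m false))) (Rz (sG V) (sA G (m true))) (mpt p n)
      (mpt q n') (fun k => Rz (sG V) (nbs G (m false) {p} k))
      (fun k => Rz (sG V) (nbs G (m true) {q} k)) (fun i => Rz (sG V) (J i))
      fun k => Rz (sG V) (nbs G a l k) := by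
  have e1 : Rz (sG V) (sA G (m false)) ∪ Rz (sG V) (sA G (m true)) =
      Rz (sG V) (sA G (m false ∪ m true)) := by
    rw [sA_union (ne_SAn3 h.far), rz_union (ne_sA _ _)]
  have e2 : Rz (sG V) (J false) ∪ Rz (sG V) (J true) = Rz (sG V) (fr G a l) := by
    rw [hs.eq, rz_union (ne_SAn3 hs.far)]
  have e3 : ∀ X ⊆ sA G a, X ∩ sA G (m false ∪ m true) = X ∩ ins (m false ∪ m true) :=
    fun X hX => Set.ext fun s => and_congr_right fun k =>
      ⟨fun k' => k'.2.1, fun k' => ⟨(hX k).1, k', (hX k).2.2⟩⟩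
  have e4 : ∀ i, J i ⊆ sA G a := fun i s k => by
    have : s ∈ fr G a l := by
      rw [hs.eq]
      cases i
      exacts [Or.inl k, Or.inr k]
    exact this.1
  have e5 : ∀ i, Rz (sG V) (J i) ∩ Rz (sG V) (ins (m false ∪ m true)) =
      {mpt p n i, mpt q n' i} := fun i => by
    rw [rz_inter, hs.ends, Set.insert_eq, rz_union, mpt_SAn1, mpt_SAn1, Set.insert_eq]
    exact ne_SAn3 ((far_sA h.far.disjoint).mono (Set.singleton_subset_iff.2 (pair_SAn3 hp i))
      (Set.singleton_subset_iff.2 (pair_SAn3 hq i)))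
  refine ⟨fun i => ((hs.ball i).bp (by omega)).congr ?_, fun i => ?_, ?_,
    fun k => ((hl.disc h k).bp (by omega) (Or.inl rfl)).congr ?_, fun k => ?_, ?_, ?_⟩
  · rw [← e5 i, ← Set.inter_assoc, Set.inter_self]
  · rw [e1, rz_inter, e3 _ (e4 i), ← rz_inter, e5]
  · rw [Set.disjoint_iff_inter_eq_empty, rz_inter, hs.far.disjoint.inter_eq, rz_empty]
  · rw [rb_SAn3, e1, e2, Set.inter_union_distrib_left, Set.inter_union_distrib_left, rz_inter,
      rz_inter _ (sA G _), e3 _ fun _ k => k.1]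
  · rw [e2, Set.inter_union_distrib_left, Set.inter_union_distrib_left, rz_inter, rz_inter,
      inter_SAn3 (h.sub _) hl.e0, inter_SAn3 (h.sub _) hl.e1,
      Set.inter_eq_right.2 (rz_mono (sub_nbs_SAn1 a l k))]
  · rw [e2, rz_inter, ← nb_inter_nb]
    exact subset_rfl
  · rw [← rz_union]
    · refine congrArg _ (Set.Subset.antisymm (fun s hs => ?_)
        (Set.union_subset (fun _ e => e.1) fun _ e => e.1))
      obtain ⟨x, hx⟩ := hs.1
      by_cases e : x ∈ l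
      · exact Or.inl ⟨hs, x, hx, e⟩
      · exact Or.inr ⟨hs, x, hx, hs.2.1 hx, e⟩
    · rintro s ⟨⟨h1, x, hx, h2⟩, h3⟩ t ⟨⟨h4, y, hy, h5⟩, h6⟩ (e | e)
      · exact h6 ⟨h4, x, e.1 hx, h2⟩
      · exact h3 ⟨h1, y, e.1 hy, h5⟩

theorem core_SAn3 [i : DecidableEq V] {X Y : Set V} {β γ : Finset V → Prop} (hX : Cell G 3 X β)
    {c : V → ℕ} (hc : Bal G 2 X c) (hY : Cell G 2 Y γ) (hYX : Y ⊆ X)
    (hβ : ∀ f : Finset V, ↑f ⊆ Y → β f) (h12 : ∀ u ∈ Y, c u = 1 ∨ c u = 2) {P Q y z : V}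
    (hP : P ∈ Y) (hQ : Q ∈ Y) (bP : γ {P}) (bQ : γ {Q}) (hne : P ≠ Q) (cP : c P = 1)
    (cQ : c Q = 1) (hy : y ∈ Lk G X {P}) (hz : z ∈ Lk G X {Q}) (cy : c y = 0) (cz : c z = 0)
    (by' : ∀ f : Finset V, ↑f ⊆ ({P, y} : Set V) → β f)
    (bz : ∀ f : Finset V, ↑f ⊆ ({Q, z} : Set V) → β f) {o : Finset V → Z2} (ho : Alt G 2 X X o)
    {s t : V} (hs : s ∈ Lk G X ({y, P} : Finset V)) (ht : t ∈ Lk G X ({z, Q} : Finset V)) :
    o (insert s {y, P}) ≠ o (insert t {z, Q}) := by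
  obtain rfl : i = fun a b => propDecidable (a = b) := Subsingleton.elim _ _
  have : Nonempty V := ⟨P⟩
  have b1 : ∀ u ∈ Y, ∀ w ∈ Y, β {u, w} := fun u hu w hw =>
    hβ _ (by simp [Set.insert_subset_iff, hu, hw])
  have h1 : ∀ f : Finset V, Clq G X f → f.card = 2 → ∃ v, v ∈ Lk G X f := fun f hf hf' => by
    have := (Cell.link hX hf).2
    rw [hf'] at this
    exact Cell.nonempty this
  choose! τ hτ using h1
  have h2 : ∀ u ∈ Y, ∀ w ∈ Lk G Y {u}, τ {u, w} ∈ Lk G X ({u, w} : Finset V) := fun u hu w hw =>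
    hτ _ (pair_mem_sA (hYX hu) (hYX hw.1) (Or.inr (mem_lk_C1.1 hw).2)).2
      (Finset.card_pair (mem_lk_C1.1 hw).2.ne)
  have h3 : ∀ u ∈ Y, ∀ w ∈ Lk G Y {u}, c u ≠ c w := fun u hu w hw =>
    hc.2 u (hYX hu) w (hYX hw.1) (mem_lk_C1.1 hw).2
  have z1 : ∀ r s t : Z2, r ≠ s → s ≠ t → r = t := by decide
  have z2 : ∀ r : Z2, r * neg ≠ r * 1 := by decide
  obtain ⟨y', hy'⟩ := Cell.nonempty (hY.mfa P hP)
  obtain ⟨z', hz'⟩ := Cell.nonempty (hY.mfa Q hQ)
  have key := arc_dir hY z1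
    (fun u w => o (insert (τ {u, w}) {u, w}) * if c u < c w then neg else 1)
    (fun u hu w hw huw => ?_) (fun u hu w hw w' hw' hww => ?_) hP hQ bP bQ hne hy' hz'
  · have a1 := h3 P hP y' hy'
    have a2 := h3 Q hQ z' hz'
    have a3 := h12 y' hy'.1
    have a4 := h12 z' hz'.1
    beta_reduce at key
    rw [if_pos (by omega), if_pos (by omega)] at key
    rw [Finset.pair_comm y P] at hs ⊢
    rw [Finset.pair_comm z Q] at ht ⊢
    have k1 := (bd_dir hX.mfa hc ho (hYX hP) hy (lk_mono_C1 hYX _ hy') (fun e => by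
      rw [e] at cy; omega) (by' _ (by simp)) (b1 P hP y' hy'.1) hs (h2 P hP y' hy')).2 (by omega)
    have k2 := (bd_dir hX.mfa hc ho (hYX hQ) hz (lk_mono_C1 hYX _ hz') (fun e => by
      rw [e] at cz; omega) (bz _ (by simp)) (b1 Q hQ z' hz'.1) ht (h2 Q hQ z' hz')).2 (by omega)
    rw [k1, k2]
    exact fun e => key (by rw [e])
  · have a1 := h3 u hu w (mem_lk_C1.2 ⟨hw, huw⟩)
    rw [Finset.pair_comm w u]
    by_cases e' : c u < c w
    · rw [if_pos e', if_neg (by omega)]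
      exact z2 _
    · rw [if_neg e', if_pos (by omega)]
      exact (z2 _).symm
  · have a1 := h3 u hu w hw
    have a2 := h3 u hu w' hw'
    have a3 := h12 u hu
    have a4 := h12 w hw.1
    have a5 := h12 w' hw'.1
    have a6 : c w = c w' := by omega
    have k := (bd_dir hX.mfa hc ho (hYX hu) (lk_mono_C1 hYX _ hw) (lk_mono_C1 hYX _ hw') hww
      (b1 u hu w hw.1) (b1 u hu w' hw'.1) (h2 u hu w hw) (h2 u hu w' hw')).1
    rw [a6]
    exact fun e => k (mul_right_cancel e) a6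

theorem hed_SAn3 {c : Set V} (h : Mk G c p n) (hc : c ⊆ a) (hp : p ∈ l) (i : Bool) :
    (({p} : Finset V) ∈ Lk (sG V) (nb G a l) {{p, n i}}) ∧
      ∀ s ∈ Lk (sG V) (sA G a) (hed p (n i)), s ∈ Lk (sG V) (nb G a l) (hed p (n i)) := by
  refine ⟨mem_lk_C1.2 ⟨⟨singleton_mem_sA.2 (hc h.mem), p, Finset.mem_singleton_self p, hp⟩,
    Or.inr ?_⟩, fun s hs => ⟨⟨hs.1, p, ?_, hp⟩, hs.2⟩⟩
  · refine Finset.ssubset_iff_subset_ne.2 ⟨by simp, fun e => ?_⟩
    have h2 := congrArg Finset.card e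
    rw [Finset.card_singleton, Finset.card_pair (h.adj_SAn1 i).2.ne] at h2
    omega
  · rcases hs.2 {p} (by simp [hed]) with e | e
    · exact e.1 (Finset.mem_singleton_self p)
    · exact absurd (Finset.ssubset_singleton_iff.1 e) hs.1.1.ne_empty

theorem Sds.opp (h : Ann G a m) (hl : Acr G a m p q l) (hp : Mk G (m false) p n)
    (hq : Mk G (m true) q n') (hs : Sds G a m p q l n n' J) : Opp G a p (n false) q (n' false) := by
  intro o ho s hs1 t ht
  have hX : nb G a l ⊆ sA G a := fun _ k => k.1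
  have hJ : J false ⊆ fr G a l := hs.eq ▸ Set.subset_union_left
  have p1 := hed_SAn3 hp (h.sub _) (hl.e0.ge rfl).1 false
  have q1 := hed_SAn3 hq (h.sub _) (hl.e1.ge rfl).1 false
  have p2 : ({p, n false} : Finset V) ∈ J false ∩ ins (m false ∪ m true) :=
    (hs.ends false).ge (Or.inl rfl)
  have q2 : ({q, n' false} : Finset V) ∈ J false ∩ ins (m false ∪ m true) :=
    (hs.ends false).ge (Or.inr rfl)
  have k : ∀ (x : V) (e : Finset V), x ∈ e → e ∈ ins (m false ∪ m true) →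
      ({e, {x}} : Set (Finset V)) ⊆ ins (m false ∪ m true) := fun x e hx he =>
    Set.pair_subset he ((Finset.coe_subset.2 (Finset.singleton_subset_iff.2 hx)).trans he)
  refine core_SAn3 (hl.disc h false) ((bal_sA (Mfa.card_le h.mf)).mono hX) (hs.ball false)
    (hJ.trans (sub_nbs_SAn1 a l false)) (fun f hf => Or.inr (Or.inr (hf.trans hJ)))
    (fun u hu => ?_) p2.1 q2.1 ?_ ?_ (fun e => ?_) ?_ ?_ p1.1 q1.1 rfl rfl
    (fun f hf => Or.inr (Or.inl (hf.trans (k p _ (by simp) p2.2))))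
    (fun f hf => Or.inr (Or.inl (hf.trans (k q _ (by simp) q2.2)))) (ho.mono hX hX)
    (p1.2 s hs1) (q1.2 t ht)
  · obtain ⟨-, -, -, -, -, -, h2⟩ := two_le_C2 (hJ hu).2.1 (hJ hu).2.2
    have h3 := Mfa.card_le h.mf u (hJ hu).1
    omega
  · exact Finset.singleton_subset_set_iff.2 p2.2
  · exact Finset.singleton_subset_set_iff.2 q2.2
  · exact (far_sA h.far.disjoint) _ (pair_SAn3 hp false) _ (pair_SAn3 hq false) (Or.inl e)
  · rw [Finset.card_pair (hp.adj_SAn1 false).2.ne]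
  · rw [Finset.card_pair (hq.adj_SAn1 false).2.ne]

end Pool.Agent.MP_6374aa_g

end

section

/-! Orientability of the union of two annuli. -/

namespace Pool.Agent.MP_6374aa_g

open Pool.Agent.MP_6374aa_gt Classical

variable {V V' : Type} {G : SimpleGraph V} {G' : SimpleGraph V'} {A : Set V}
  {m : Bool → Set V} {p q : V} {l : Set V} {n n' : Bool → V} {J : Bool → Set (Finset V)}

/-- Every alternating colouring separates the triangles on two edges. -/
def Op_SBip (i : DecidableEq V) (G : SimpleGraph V) (X : Set V) (P y Q z : V) : Prop :=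
  ∀ o, Alt G 2 X X o → ∀ s ∈ Lk G X ({P, y} : Finset V), ∀ s' ∈ Lk G X ({Q, z} : Finset V),
    o (insert s {P, y}) ≠ o (insert s' {Q, z})

theorem one_SBip {X T : Set V} (h : Mf G 2 X T) {f : Finset V} (hf : Clq G X f) (hc : f.card = 2)
    (hT : ↑f ⊆ T) : ∃ t, Lk G X f = {t} ∧ t ∉ T := by
  obtain ⟨x, hx⟩ : f.Nonempty := Finset.card_pos.1 (by omega)
  have h1 := (Mfa.link h hf ⟨x, hx, hf.1 hx⟩).2
  rw [hc] at h1
  obtain ⟨t, ht⟩ := Set.ncard_eq_one.1 ((if_pos rfl).mp (h1.2.2.1.1 (by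
    beta_reduce
    rw [Finset.union_empty]
    exact hT)))
  refine ⟨t, ht, fun e => (h1.2.2.2 t (ht ▸ rfl)).2 ?_⟩
  intro w hw
  rcases Finset.mem_union.1 hw with hw | hw
  · exact hT hw
  · rw [Finset.mem_insert] at hw
    exact (hw.resolve_right (Finset.notMem_empty w)) ▸ e

theorem edge_SBip {M : Set V} {x y : V} (hx : x ∈ M) (hy : y ∈ Lk G M {x}) :
    Clq G M {x, y} ∧ ({x, y} : Finset V).card = 2 :=
  ⟨(pair_mem_sA hx hy.1 (Or.inr (mem_lk_C5.1 hy).2)).2, Finset.card_pair (mem_lk_C5.1 hy).2.ne⟩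

theorem pair_SBip {M : Set V} {f : Finset V} (hf : Clq G M f) (hc : f.card = 2) {x : V}
    (hx : x ∈ f) : ∃ y ∈ Lk G M {x}, f = {x, y} := by
  have key : ∀ y, x ≠ y → f = {x, y} → ∃ y ∈ Lk G M {x}, f = {x, y} := fun y h e =>
    ⟨y, mem_lk_C5.2 ⟨hf.1 (by simp [e]), hf.2 (by simp [e]) (by simp [e]) h⟩, e⟩
  obtain ⟨u, w, h, e⟩ := Finset.card_eq_two.1 hc
  rw [e, Finset.mem_insert, Finset.mem_singleton] at hx
  rcases hx with rfl | rfl
  · exact key w h e
  · exact key u h.symm (e.trans (Finset.pair_comm _ _))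

theorem ins_SBip {f : Finset V} (hf : f ∈ sA G A) {u : V} (hu : u ∈ Lk G A f) :
    insert u f ∈ sA G A := by
  refine ⟨Finset.insert_nonempty _ _, ?_, ?_⟩
  · rw [Finset.coe_insert]
    exact Set.insert_subset hu.1 hf.2.1
  · rw [Finset.coe_insert]
    exact hf.2.2.insert fun w hw _ => (hu.2 w hw).symm

theorem prop_SBip {X : Bool → Set V} {T M : Set V} (hX : ∀ j, Mf G 2 (X j) T) {c : V → ℕ}
    (hc : ∀ j, Bal G 2 (X j) c) (hM : Sph G 2 M) (hMX : ∀ j, M ⊆ X j) (hMT : M ⊆ T)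
    {o : Bool → Finset V → Z2} (ho : ∀ j, Alt G 2 (X j) (X j) (o j)) {f g : Finset V}
    (hf : Clq G M f) (hf' : f.card = 2) (hg : Clq G M g) (hg' : g.card = 2) {u w u' w' : V}
    (hu : u ∈ Lk G (X false) f) (hw : w ∈ Lk G (X true) f) (hu' : u' ∈ Lk G (X false) g)
    (hw' : w' ∈ Lk G (X true) g) :
    o false (insert u f) * o true (insert w f) = o false (insert u' g) * o true (insert w' g) := by
  have : Nonempty V := ⟨u⟩
  have h1 : ∀ j f, Clq G M f → f.card = 2 → ∃ t, Lk G (X j) f = {t} := fun j f hf hc =>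
    (one_SBip (hX j) ⟨hf.1.trans (hMX j), hf.2⟩ hc (hf.1.trans hMT)).imp fun _ h => h.1
  choose! t ht using h1
  have key := Cell.strong hM
    (fun f => o false (insert (t false f) f) * o true (insert (t true f) f))
    (fun r s hr hs hr' hs' hrs => ?_) hf hg hf' hg'
  · rw [ht _ _ hf hf'] at hu hw
    rw [ht _ _ hg hg'] at hu' hw'
    rw [hu, hw, hu', hw']
    exact key
  · obtain ⟨x, hx⟩ : (r ∩ s).Nonempty := Finset.card_pos.1 (by omega)
    obtain ⟨y, hy, rfl⟩ := pair_SBip hr hr' (Finset.mem_inter.1 hx).1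
    obtain ⟨z, hz, rfl⟩ := pair_SBip hs hs' (Finset.mem_inter.1 hx).2
    have hne : y ≠ z := by
      rintro rfl
      rw [Finset.inter_self] at hrs
      omega
    have hxM : x ∈ M := hr.1 (by simp)
    have k := fun j => bd_dir (hX j) (hc j) (ho j) (hMX j hxM) (lk_mono_C1 (hMX j) _ hy)
      (lk_mono_C1 (hMX j) _ hz) hne (hr.1.trans hMT) (hs.1.trans hMT)
      (s := t j {x, y}) (t := t j {x, z}) (ht j _ hr hr' ▸ rfl) (ht j _ hs hs' ▸ rfl)
    have z1 : ∀ a b c d : Z2, (a = b ↔ c = d) → a * c = b * d := by decide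
    exact z1 _ _ _ _ ((k false).trans (k true).symm)

theorem glue_SBip {X M : Bool → Set V} (hne : NE G (X false) (X true))
    (hfar : Far G (M false) (M true)) (hin : X false ∩ X true = M false ∪ M true)
    {o0 o1 : Finset V → Z2} (h0 : Alt G 2 (X false) (X false) o0)
    (h1 : Alt G 2 (X true) (X true) o1)
    (h : ∀ i f, Clq G (M i) f → f.card = 2 → ∀ u ∈ Lk G (X false) f, ∀ w ∈ Lk G (X true) f,
      o0 (insert u f) ≠ o1 (insert w f)) : Bip G 2 (X false ∪ X true) := by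
  refine ⟨fun s => if ↑s ⊆ X false then o0 s else o1 s, fun f hf hc _ u hu w hw huw => ?_⟩
  have k1 : ∀ j, ∀ u ∈ Lk G (X false ∪ X true) f, ↑(insert u f) ⊆ X j →
      f ∈ sA G (X j) ∧ u ∈ Lk G (X j) f := fun j u hu e =>
    ⟨⟨hf.1, (Finset.coe_subset.2 (Finset.subset_insert u f)).trans e, hf.2.2⟩,
      e (Finset.mem_insert_self u f), hu.2⟩
  have k2 : ∀ u ∈ Lk G (X false ∪ X true) f, ¬ ↑(insert u f) ⊆ X false →
      ↑(insert u f) ⊆ X true := fun u hu e => by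
    have := ins_SBip hf hu
    rw [sA_union hne] at this
    exact (this.resolve_left fun k => e k.2.1).2.1
  have k3 : ∀ j, f ∈ sA G (X j) → Meets f (X j) := fun j e =>
    hf.1.imp fun _ hx => ⟨hx, e.2.1 hx⟩
  have k4 : ∀ u ∈ Lk G (X false ∪ X true) f, ∀ w ∈ Lk G (X false ∪ X true) f,
      ↑(insert u f) ⊆ X false → ¬ ↑(insert w f) ⊆ X false →
      o0 (insert u f) ≠ o1 (insert w f) := fun u hu w hw e e' => by
    obtain ⟨a1, a2⟩ := k1 false u hu e
    obtain ⟨a3, a4⟩ := k1 true w hw (k2 w hw e')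
    have a5 : f ∈ sA G (X false ∩ X true) := sA_inter' (G := G) (X true) ▸ ⟨a1, a3⟩
    rw [hin, sA_union fun a ha b hb hab => hfar a ha.1 b hb.1 (Or.inr hab)] at a5
    rcases a5 with a5 | a5
    · exact h false f a5.2 hc u a2 w a4
    · exact h true f a5.2 hc u a2 w a4
  beta_reduce
  by_cases e : ↑(insert u f) ⊆ X false <;> by_cases e' : ↑(insert w f) ⊆ X false
  · rw [if_pos e, if_pos e']
    exact h0 f (k1 _ u hu e).1 hc (k3 _ (k1 _ u hu e).1) u (k1 _ u hu e).2 w (k1 _ w hw e').2 huw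
  · rw [if_pos e, if_neg e']
    exact k4 u hu w hw e e'
  · rw [if_neg e, if_pos e']
    exact (k4 w hw u hu e' e).symm
  · rw [if_neg e, if_neg e']
    have a1 := k1 _ u hu (k2 u hu e)
    exact h1 f a1.1 hc (k3 _ a1.1) u a1.2 w (k1 _ w hw (k2 w hw e')).2 huw

theorem core_SBip {X M : Bool → Set V} (hX : ∀ j, Mf G 2 (X j) (M false ∪ M true)) {c : V → ℕ}
    (hc : ∀ j, Bal G 2 (X j) c) (hM : ∀ i, Sph G 2 (M i)) (hne : NE G (X false) (X true))
    (hfar : Far G (M false) (M true)) (hin : X false ∩ X true = M false ∪ M true)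
    (hB : ∀ j, Bip G 2 (X j)) {P y Q : V} {z : Bool → V} (hP : P ∈ M false)
    (hy : y ∈ Lk G (M false) {P}) (hQ : Q ∈ M true) (hz : ∀ k, z k ∈ Lk G (M true) {Q})
    (hzz : z false ≠ z true) (hcz : c (z false) = c (z true)) {b : Bool} {i : DecidableEq V}
    (h0 : Op_SBip i G (X false) P y Q (z false)) (h1 : Op_SBip i G (X true) P y Q (z b)) :
    Bip G 2 (X false ∪ X true) ↔ b = false := by
  obtain rfl : i = fun a b => propDecidable (a = b) := Subsingleton.elim _ _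
  have hMT : ∀ i, M i ⊆ M false ∪ M true := by
    rintro (_ | _)
    exacts [Set.subset_union_left, Set.subset_union_right]
  have hMX : ∀ i j, M i ⊆ X j := by
    rintro i (_ | _)
    exacts [((hMT i).trans hin.ge).trans Set.inter_subset_left,
      ((hMT i).trans hin.ge).trans Set.inter_subset_right]
  have hXU : ∀ j, X j ⊆ X false ∪ X true := by
    rintro (_ | _)
    exacts [Set.subset_union_left, Set.subset_union_right]
  have ex : ∀ i f, Clq G (M i) f → f.card = 2 → ∃ t : Bool → V, (∀ j, t j ∈ Lk G (X j) f) ∧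
      ∀ o, Alt G 2 (X false ∪ X true) (X false ∪ X true) o →
        o (insert (t false) f) ≠ o (insert (t true) f) := fun i f hf hf' => by
    choose t ht ht' using fun j =>
      one_SBip (hX j) ⟨hf.1.trans (hMX i j), hf.2⟩ hf' (hf.1.trans (hMT i))
    have k : ∀ j, t j ∈ Lk G (X j) f := fun j => ht j ▸ rfl
    have hn : f.Nonempty := Finset.card_pos.1 (by omega)
    have k1 : ↑f ⊆ X false ∪ X true := hf.1.trans ((hMX i false).trans (hXU false))
    refine ⟨t, k, fun o ho => ho f ⟨hn, k1, hf.2⟩ hf' (hn.imp fun _ hx => ⟨hx, k1 hx⟩) _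
      (lk_mono_C1 (hXU _) _ (k false)) _ (lk_mono_C1 (hXU _) _ (k true)) fun e => ?_⟩
    exact ht' false (hin.le ⟨(k false).1, e ▸ (k true).1⟩)
  have e0 := edge_SBip hP hy
  have e1 := fun k => edge_SBip hQ (hz k)
  obtain ⟨s, hs, hs'⟩ := ex false _ e0.1 e0.2
  choose r hr hr' using fun k => ex true _ (e1 k).1 (e1 k).2
  constructor
  · rintro ⟨o, ho⟩
    cases b with
    | false => rfl
    | true =>
      have ho' : ∀ j, Alt G 2 (X j) (X j) o := fun j => ho.mono (hXU j) (hXU j)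
      have a1 := h0 o (ho' false) _ (hs false) _ (hr false false)
      have a2 := h1 o (ho' true) _ (hs true) _ (hr true true)
      have a3 := bd_dir (hX false) (hc false) (ho' false) (hMX true false hQ)
        (lk_mono_C1 (hMX true false) _ (hz false)) (lk_mono_C1 (hMX true false) _ (hz true)) hzz
        ((e1 false).1.1.trans (hMT true)) ((e1 true).1.1.trans (hMT true)) (hr false false)
        (hr true false)
      have z1 : ∀ a b c d e : Z2, a ≠ b → b ≠ c → c ≠ d → e ≠ d → a ≠ e → False := by decide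
      exact (z1 _ _ _ _ _ a1 (fun e => a3.1 e hcz) (hr' true o ho) a2 (hs' o ho)).elim
  · rintro rfl
    choose o ho using hB
    have a1 := h0 _ (ho false) _ (hs false) _ (hr false false)
    have a2 := h1 _ (ho true) _ (hs true) _ (hr false true)
    have z1 : ∀ x y k : Z2, x * y = k → x ≠ y * (k * neg) := by decide
    refine glue_SBip hne hfar hin (ho false) (o1 := fun t => o true t *
      (o false (insert (s false) {P, y}) * o true (insert (s true) {P, y}) * neg))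
      (fun f hf hf' hm u hu w hw huw e => ho true f hf hf' hm u hu w hw huw (mul_right_cancel e))
      fun i f hf hf' u hu w hw => z1 _ _ _ ?_
    cases i with
    | false =>
      exact prop_SBip hX hc (hM false) (hMX false) (hMT false) ho hf hf' e0.1 e0.2 hu hw
        (hs false) (hs true)
    | true =>
      exact (prop_SBip hX hc (hM true) (hMX true) (hMT true) ho hf hf' (e1 false).1 (e1 false).2
        hu hw (hr false false) (hr false true)).trans (z2_mul_O2 a1 a2).symm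

theorem lk_SBip {M : Set V} (h : Mk G M p n) (k : Bool) :
    ({p, n k} : Finset V) ∈ Lk (sG V) (sA G M) {{p}} := by
  have h1 : n k ∈ Lk G M {p} := by
    rw [h.lk]
    cases k
    exacts [Or.inl rfl, Or.inr rfl]
  refine mem_lk_C5.2 ⟨pair_mem_sA h.mem h1.1 (Or.inr (mem_lk_C5.1 h1).2), Or.inl ?_⟩
  refine Finset.ssubset_iff_subset_ne.2 ⟨by simp, fun e => ?_⟩
  have h2 := congrArg Finset.card e
  rw [Finset.card_singleton, (edge_SBip h.mem h1).2] at h2
  omega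

theorem nb_SBip {M : Set V} (h : Mk G M p n) (k : Bool) : p ≠ n k := by
  have h1 : n k ∈ Lk G M {p} := by
    rw [h.lk]
    cases k
    exacts [Or.inl rfl, Or.inr rfl]
  exact (mem_lk_C5.1 h1).2.ne

theorem tor_bip {a : Bool → Set V} (h : Tor G a m) (hp : Mk G (m false) p n)
    (hq : Mk G (m true) q n') {b : Bool} (h0 : Opp G (a false) p (n false) q (n' false))
    (h1 : Opp G (a true) p (n false) q (n' b)) :
    Bip (sG V) 2 (sA G (a false ∪ a true)) ↔ b = false := by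
  have hm : sA G (m false ∪ m true) = sA G (m false) ∪ sA G (m true) :=
    sA_union fun u hu w hw e => (h.ann false).far u hu.1 w hw.1 (Or.inr e)
  rw [sA_union h.ne]
  refine core_SBip (X := fun j => sA G (a j)) (M := fun i => sA G (m i))
    (z := fun k => {q, n' k}) (fun j => mf_congr_C5 ((h.ann j).mf.sd (by norm_num)) fun s hs => ?_)
    (fun j => bal_sA (Mfa.card_le (h.ann j).mf)) (fun i => ((h.ann false).circ i).sd (by norm_num))
    (ne_sA _ _) (far_sA (h.ann false).far.disjoint) ?_ (fun j => (h.ann j).bip)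
    (singleton_mem_sA.2 hp.mem) (lk_SBip hp false) (singleton_mem_sA.2 hq.mem) (lk_SBip hq)
    (fun e => ?_) ?_ h0 h1
  · rw [← hm]
    exact ⟨fun e => ⟨hs.1, e, hs.2.2⟩, fun e => e.2.1⟩
  · rw [← sA_inter', h.inter, hm]
  · have h2 : n' false ∈ ({q, n' true} : Finset V) := e ▸ by simp
    rw [Finset.mem_insert, Finset.mem_singleton] at h2
    exact h2.elim (nb_SBip hq false).symm hq.ne
  · rw [Finset.card_pair (nb_SBip hq false), Finset.card_pair (nb_SBip hq true)]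

end Pool.Agent.MP_6374aa_g

end

section

/-! Circles, annuli and tori from cells. -/

namespace Pool.Agent.MP_6374aa_g

open Pool.Agent.MP_6374aa_gt Classical

variable {E F : Type} [TopologicalSpace E] [TopologicalSpace F] [T2Space E] [T2Space F]

theorem Ci.perm {m : Set E} {P : Bool → E} {μ : Bool → Set E} (h : Ci m P μ) (b : Bool) :
    Ci m (fun i => P (xor i b)) μ := by
  cases b
  · simpa using h
  · exact ⟨h.ne.symm, fun k => Set.pair_comm (P false) (P true) ▸ h.bp k, fun k i => h.mem k _,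
      Set.pair_comm (P false) (P true) ▸ h.inter, h.eq⟩

theorem two_STop2 {P : Bool → E} {P' : Bool → F} (h : P false ≠ P true) (h' : P' false ≠ P' true) :
    ∃ f, HM {P false, P true} {P' false, P' true} f ∧ ∀ i, f (P i) = P' i := by
  have e : ∀ i, (if P i = P false then P' false else P' true) = P' i := fun i => by
    cases i
    exacts [if_pos rfl, if_neg h.symm]
  refine ⟨fun y => if y = P false then P' false else P' true,
    ⟨(Set.toFinite _).continuousOn _, ?_, ?_, ?_⟩, e⟩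
  · rintro _ (rfl | rfl)
    exacts [Or.inl (e _), Or.inr (e _)]
  · rintro _ (rfl | rfl) _ (rfl | rfl) k
    exacts [rfl, (h' ((e _).symm.trans (k.trans (e _)))).elim,
      (h' ((e _).symm.trans (k.symm.trans (e _)))).elim, rfl]
  · rintro _ (rfl | rfl)
    exacts [⟨_, Or.inl rfl, e _⟩, ⟨_, Or.inr rfl, e _⟩]

theorem ci_hm {m : Set E} {P : Bool → E} {μ : Bool → Set E} {m' : Set F} {P' : Bool → F}
    {μ' : Bool → Set F} (h : Ci m P μ) (h' : Ci m' P' μ') :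
    ∃ g, HM m m' g ∧ (∀ i, g (P i) = P' i) ∧ ∀ k, g '' μ k = μ' k := by
  have hb : ∀ {α : Type} (Z : Bool → Set α),
      (⋃ i ∈ (Set.univ : Set Bool), Z i) = Z false ∪ Z true := fun Z => by
    ext x
    simp
  have c1 : ∀ {α : Type} [TopologicalSpace α] {m : Set α} {P : Bool → α} {μ : Bool → Set α},
      Ci m P μ → (∀ k, μ k ∩ {P false, P true} = {P false, P true}) ∧
      (∀ i j, i ≠ j → μ i ∩ μ j ⊆ {P false, P true}) ∧
      {P false, P true} ∪ (μ false ∪ μ true) = m := by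
    intro α _ m P μ h
    have s : ∀ k, {P false, P true} ⊆ μ k := fun k => by
      rintro _ (rfl | rfl) <;> exact h.mem _ _
    refine ⟨fun k => Set.inter_eq_right.2 (s k), fun i j e => ?_, ?_⟩
    · cases i <;> cases j
      exacts [(e rfl).elim, h.inter, Set.inter_comm _ _ ▸ h.inter, (e rfl).elim]
    · rw [h.eq, Set.union_eq_right.2 ((s false).trans Set.subset_union_left)]
  obtain ⟨p1, p2, p3⟩ := c1 h
  obtain ⟨q1, q2, q3⟩ := c1 h'
  obtain ⟨f, f1, f2⟩ := two_STop2 h.ne h'.ne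
  obtain ⟨g, g1, g2, g3⟩ := hm_fill (I := (Set.univ : Set Bool)) Set.finite_univ (d := fun _ => 1)
    (Set.toFinite _).isCompact f1 (fun i _ => h.bp i) (fun i _ => h'.bp i)
    (fun i _ => by rw [p1, q1, f1.image]) (fun i _ j _ => p2 i j) fun i _ j _ => q2 i j
  rw [hb, hb, p3, q3] at g1
  refine ⟨g, g1, fun i => (g2 ?_).trans (f2 i), fun k => g3 k trivial⟩
  cases i
  exacts [Or.inl rfl, Or.inr rfl]

theorem sqr_ext {a m0 m1 : Set E} {P Q : Bool → E} {μ ν J Δ : Bool → Set E} {a' m0' m1' : Set F}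
    {P' Q' : Bool → F} {μ' ν' J' Δ' : Bool → Set F} (h : Sqr a m0 m1 P Q μ ν J Δ)
    (h' : Sqr a' m0' m1' P' Q' μ' ν' J' Δ') (c0 : Ci m0 P μ) (c1 : Ci m1 Q ν) (c0' : Ci m0' P' μ')
    (c1' : Ci m1' Q' ν') {g : E → F} (hg : HM (m0 ∪ m1) (m0' ∪ m1') g) (hP : ∀ i, g (P i) = P' i)
    (hQ : ∀ i, g (Q i) = Q' i) (hμ : ∀ k, g '' μ k = μ' k) (hν : ∀ k, g '' ν k = ν' k) :
    ∃ f, HM a a' f ∧ Set.EqOn f g (m0 ∪ m1) := by
  have hb : ∀ {α : Type} (Z : Bool → Set α),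
      (⋃ i ∈ (Set.univ : Set Bool), Z i) = Z false ∪ Z true := fun Z => by
    ext x
    simp
  have cq : ∀ {α : Type} [TopologicalSpace α] [T2Space α] {a m0 m1 : Set α} {P Q : Bool → α}
      {μ ν J Δ : Bool → Set α}, Sqr a m0 m1 P Q μ ν J Δ → Ci m0 P μ → Ci m1 Q ν →
      (∀ i, BP 1 (J i) (m0 ∪ m1)) ∧ (∀ i j, i ≠ j → J i ∩ J j ⊆ m0 ∪ m1) ∧
      (∀ i j, i ≠ j → Δ i ∩ Δ j ⊆ m0 ∪ m1 ∪ (J false ∪ J true)) ∧
      m0 ∪ m1 ∪ (J false ∪ J true) ∪ (Δ false ∪ Δ true) = a ∧ IsCompact (m0 ∪ m1) ∧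
      ∀ k, μ k ⊆ m0 ∪ m1 ∧ ν k ⊆ m0 ∪ m1 := by
    intro α _ _ a m0 m1 P Q μ ν J Δ h c0 c1
    have s : ∀ k, μ k ∪ ν k ∪ (J false ∪ J true) ⊆ Δ k := fun k =>
      (h.inD k).ge.trans Set.inter_subset_left
    refine ⟨fun i => (h.bpJ i).congr ?_, fun i j e => ?_, fun i j e => ?_, ?_, ?_, fun k => ?_⟩
    · rw [h.inJ, Set.inter_eq_right.2 ((h.inJ i).ge.trans Set.inter_subset_left)]
    · cases i <;> cases j
      exacts [(e rfl).elim, h.dj.inter_eq.subset.trans (Set.empty_subset _),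
        h.dj.symm.inter_eq.subset.trans (Set.empty_subset _), (e rfl).elim]
    · cases i <;> cases j
      exacts [(e rfl).elim, h.inter.trans Set.subset_union_right,
        Set.inter_comm _ _ ▸ h.inter.trans Set.subset_union_right, (e rfl).elim]
    · rw [h.eq, c0.eq, c1.eq]
      refine Set.union_eq_right.2 ?_
      rintro x (((hx | hx) | hx | hx) | hx)
      exacts [Or.inl (s _ (Or.inl (Or.inl hx))), Or.inr (s _ (Or.inl (Or.inl hx))),
        Or.inl (s _ (Or.inl (Or.inr hx))), Or.inr (s _ (Or.inl (Or.inr hx))),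
        Or.inl (s _ (Or.inr hx))]
    · rw [c0.eq, c1.eq]
      exact ((c0.bp _).1.union (c0.bp _).1).union ((c1.bp _).1.union (c1.bp _).1)
    · rw [c0.eq, c1.eq]
      cases k
      exacts [⟨fun x hx => Or.inl (Or.inl hx), fun x hx => Or.inr (Or.inl hx)⟩,
        ⟨fun x hx => Or.inl (Or.inr hx), fun x hx => Or.inr (Or.inr hx)⟩]
  obtain ⟨p1, p2, p3, p4, p5, p6⟩ := cq h c0 c1
  obtain ⟨q1, q2, q3, q4, -, -⟩ := cq h' c0' c1'
  obtain ⟨f, f1, f2, f3⟩ := hm_fill (I := (Set.univ : Set Bool)) Set.finite_univ (d := fun _ => 1)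
    p5 hg (fun i _ => p1 i) (fun i _ => q1 i)
    (fun i _ => by rw [h.inJ, h'.inJ, Set.image_pair, hP, hQ]) (fun i _ j _ => p2 i j)
    fun i _ j _ => q2 i j
  rw [hb, hb] at f1
  obtain ⟨k, k1, k2, -⟩ := hm_fill (I := (Set.univ : Set Bool)) Set.finite_univ (d := fun _ => 2)
    (p5.union ((p1 _).1.union (p1 _).1)) f1 (fun i _ => h.bpD i) (fun i _ => h'.bpD i)
    (fun i _ => by
      rw [h.inD, h'.inD, Set.image_union, Set.image_union, Set.image_union, f3 _ trivial,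
        f3 _ trivial, (f2.mono (p6 i).1).image_eq, (f2.mono (p6 i).2).image_eq, hμ, hν])
    (fun i _ j _ => p3 i j) fun i _ j _ => q3 i j
  rw [hb, hb, p4, q4] at k1
  exact ⟨k, k1, (k2.mono Set.subset_union_left).trans f2⟩

theorem tor_hm {a : Bool → Set E} {m0 m1 : Set E} {P Q : Bool → E} {μ ν : Bool → Set E}
    {J Δ : Bool → Bool → Set E} {a' : Bool → Set F} {m0' m1' : Set F} {P' Q' : Bool → F}
    {μ' ν' : Bool → Set F} {J' Δ' : Bool → Bool → Set F} {b : Bool → Bool}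
    (h : ∀ j, Sqr (a j) m0 m1 P (fun i => Q (xor i (b j))) μ ν (J j) (Δ j))
    (h' : ∀ j, Sqr (a' j) m0' m1' P' (fun i => Q' (xor i (b j))) μ' ν' (J' j) (Δ' j))
    (c0 : Ci m0 P μ) (c1 : Ci m1 Q ν) (c0' : Ci m0' P' μ') (c1' : Ci m1' Q' ν')
    (d : Disjoint m0 m1) (d' : Disjoint m0' m1') (i : a false ∩ a true = m0 ∪ m1)
    (i' : a' false ∩ a' true = m0' ∪ m1') :
    ∃ f, HM (a false ∪ a true) (a' false ∪ a' true) f ∧ (∀ j, f '' a j = a' j) ∧
      f '' m0 = m0' ∧ f '' m1 = m1' := by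
  obtain ⟨g0, a1, a2, a3⟩ := ci_hm c0 c0'
  obtain ⟨g1, b1, b2, b3⟩ := ci_hm c1 c1'
  have sub : ∀ {m : Set E} {P : Bool → E} {μ : Bool → Set E}, Ci m P μ →
      IsCompact m ∧ ∀ k, μ k ⊆ m := fun c => ⟨c.eq ▸ (c.bp _).1.union (c.bp _).1, fun k => by
    rw [c.eq]
    cases k
    exacts [Set.subset_union_left, Set.subset_union_right]⟩
  obtain ⟨g, g2, g3, g4⟩ := a1.glue b1 (sub c0).1 (sub c1).1
    (fun x hx => (d.inter_eq.subset hx).elim) fun x hx => (d'.inter_eq.subset hx).elim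
  have key : ∀ j, ∃ f, HM (a j) (a' j) f ∧ Set.EqOn f g (m0 ∪ m1) := fun j =>
    sqr_ext (h j) (h' j) c0 (c1.perm _) c0' (c1'.perm _) g2
      (fun k => (g3 ((sub c0).2 false (c0.mem _ _))).trans (a2 k))
      (fun k => (g4 ((sub c1).2 false (c1.mem _ _))).trans (b2 _))
      (fun k => (g3.mono ((sub c0).2 k)).image_eq.trans (a3 k))
      fun k => (g4.mono ((sub c1).2 k)).image_eq.trans (b3 k)
  obtain ⟨f0, u1, u2⟩ := key false
  obtain ⟨f1, v1, v2⟩ := key true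
  have ck : ∀ j, IsCompact (a j) := fun j => (h j).eq ▸ ((h j).bpD _).1.union ((h j).bpD _).1
  obtain ⟨f, w1, w2, w3⟩ := u1.glue v1 (ck _) (ck _) (i ▸ u2.trans v2.symm)
    (by rw [i, i', u2.image_eq, g2.image])
  have e : Set.EqOn f g (m0 ∪ m1) := (w2.mono (i.ge.trans Set.inter_subset_left)).trans u2
  refine ⟨f, w1, fun j => ?_, ((e.mono Set.subset_union_left).trans g3).image_eq.trans a1.image,
    ((e.mono Set.subset_union_right).trans g4).image_eq.trans b1.image⟩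
  cases j
  exacts [w2.image_eq.trans u1.image, w3.image_eq.trans v1.image]

end Pool.Agent.MP_6374aa_g

end

section

/-! Tori and Klein bottles. -/

namespace Pool.Agent.MP_6374aa_g

open Pool.Agent.MP_6374aa_gt Classical

section

variable {V : Type} {G : SimpleGraph V} {a m : Bool → Set V}

theorem data_SSurf (h : Tor G a m) :
    ∃ (P Q : Bool → Finset V → ℝ) (μ ν : Bool → Set (Finset V → ℝ))
      (J Δ : Bool → Bool → Set (Finset V → ℝ)) (b : Bool),
      Ci (Rz (sG V) (sA G (m false))) P μ ∧ Ci (Rz (sG V) (sA G (m true))) Q ν ∧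
      (Bip (sG V) 2 (sA G (a false ∪ a true)) ↔ b = false) ∧
      ∀ j, Sqr (Rz (sG V) (sA G (a j))) (Rz (sG V) (sA G (m false))) (Rz (sG V) (sA G (m true)))
        P (fun i => Q (xor i (cond j b false))) μ ν (J j) (Δ j) := by
  obtain ⟨p, n, hp⟩ := exists_mk ((h.ann false).circ false)
  obtain ⟨q, n0, hq0⟩ := exists_mk ((h.ann false).circ true)
  obtain ⟨l0, h0⟩ := (h.ann false).acr hp.mem hq0.mem
  obtain ⟨l1, h1⟩ := (h.ann true).acr hp.mem hq0.mem
  obtain ⟨b0, J0, s0⟩ := h0.sds (h.ann false) hp hq0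
  have hq := hq0.perm b0
  generalize (fun i => n0 (xor i b0)) = n' at s0 hq
  obtain ⟨b, J1, s1⟩ := h1.sds (h.ann true) hp hq
  have o1 := s1.opp (h.ann true) h1 hp (hq.perm b)
  rw [Bool.false_xor] at o1
  refine ⟨mpt p n, mpt q n', _, _, fun j i => Rz (sG V) (cond j J1 J0 i),
    fun j k => Rz (sG V) (nbs G (a j) (cond j l1 l0) k), b, hp.ci, hq.ci,
    tor_bip h hp hq (s0.opp (h.ann false) h0 hp hq) o1, ?_⟩
  rintro (_ | _)
  · have e : (fun i => mpt q n' (xor i (cond false b false))) = mpt q n' :=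
      funext fun i => congrArg _ (Bool.xor_false i)
    rw [e]
    exact s0.sqr (h.ann false) h0 hp hq
  · exact s1.sqr (h.ann true) h1 hp (hq.perm b)

theorem disj_SSurf (h : Tor G a m) :
    Disjoint (Rz (sG V) (sA G (m false))) (Rz (sG V) (sA G (m true))) := by
  rw [Set.disjoint_iff_inter_eq_empty, rz_inter,
    (far_sA (h.ann false).far.disjoint).disjoint.inter_eq, rz_empty]

theorem inter_SSurf (h : Tor G a m) :
    Rz (sG V) (sA G (a false)) ∩ Rz (sG V) (sA G (a true)) =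
      Rz (sG V) (sA G (m false)) ∪ Rz (sG V) (sA G (m true)) := by
  rw [rz_inter, ← sA_inter', h.inter,
    sA_union fun u hu w hw e => (h.ann false).far u hu.1 w hw.1 (Or.inr e), rz_union (ne_sA _ _)]

theorem union_SSurf (h : Tor G a m) :
    Rz (sG V) (sA G (a false)) ∪ Rz (sG V) (sA G (a true)) =
      Rz (sG V) (sA G (a false ∪ a true)) := by
  rw [sA_union h.ne, rz_union (ne_sA _ _)]

theorem sub_SSurf (a : Bool → Set V) (j : Bool) : a j ⊆ a false ∪ a true := by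
  cases j
  exacts [Set.subset_union_left, Set.subset_union_right]

end

theorem surf_main : SURF_st := by
  intro V V' G G' a m a' m' h h' hb
  obtain ⟨P, Q, μ, ν, J, Δ, b, c0, c1, e, hs⟩ := data_SSurf h
  obtain ⟨P', Q', μ', ν', J', Δ', b', c0', c1', e', hs'⟩ := data_SSurf h'
  obtain rfl : b = b' := by
    have := e.symm.trans (hb.trans e')
    cases b <;> cases b' <;> simp_all
  obtain ⟨f, hf, fa, f0, f1⟩ := tor_hm hs hs' c0 c1 c0' c1' (disj_SSurf h) (disj_SSurf h')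
    (inter_SSurf h) (inter_SSurf h')
  rw [union_SSurf h, union_SSurf h'] at hf
  have hU : (a false ∪ a true).Finite := (h.ann false).finite.union (h.ann true).finite
  have hU' : (a' false ∪ a' true).Finite := (h'.ann false).finite.union (h'.ann true).finite
  obtain ⟨g, hg, hg1, -⟩ := (bar_hm (G := G) hU).symm' (rz_compact (sA_finite hU))
  have key : ∀ X ⊆ a false ∪ a true, ∀ X' ⊆ a' false ∪ a' true,
      f '' Rz (sG V) (sA G X) = Rz (sG V') (sA G' X') →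
      (bar ∘ f ∘ g) '' Rz G X = Rz G' X' := fun X hX X' hX' e => by
    have e1 : g '' Rz G X = Rz (sG V) (sA G X) := by
      rw [← bar_image (hU.subset hX), Set.image_image,
        Set.image_congr fun y hy => hg1 y (rz_mono (sA_mono hX) hy), Set.image_id']
    rw [Set.image_comp, Set.image_comp, e1, e, bar_image (hU'.subset hX')]
  refine ⟨bar ∘ f ∘ g, (hg.comp hf).comp (bar_hm hU'),
    fun j => key _ (sub_SSurf a j) _ (sub_SSurf a' j) (fa j), fun j => key _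
      (((h.ann false).sub j).trans Set.subset_union_left) _
      (((h'.ann false).sub j).trans Set.subset_union_left) ?_⟩
  cases j
  exacts [f0, f1]

end Pool.Agent.MP_6374aa_g

end
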